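import Pool.Agent.EscW.EEDefs

set_option autoImplicit false

/-!
Project EscW, part E, module E5: charts of a closed submanifold. Let `A = fderiv M.r y0`, so `A ∘ A = A`; split
`A = J ∘ π`, `π ∘ J = id`. The map `g w = M.r (y0 + J w)` parametrises `M` near `y0`, and the local inverse `κ`
of `w ↦ π (g w - y0)` gives the inverse `g' x = κ (π (x - y0))`.
-/

noncomputable section

namespace EscW.Ex

open Filter Topology Set EscF.T EscM EscMT MeasureTheory
open scoped ContDiff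

variable {d m n : ℕ}

theorem exists_split {A : Vec d →L[ℝ] Vec d} (hA : ∀ v, A (A v) = A v)
    (hdim : Module.finrank ℝ (LinearMap.range (A : Vec d →ₗ[ℝ] Vec d)) = m) :
    ∃ (J : Vec m →L[ℝ] Vec d) (π : Vec d →L[ℝ] Vec m), (∀ w, π (J w) = w) ∧ ∀ v, J (π v) = A v := by
  have hfr : Module.finrank ℝ (LinearMap.range (A : Vec d →ₗ[ℝ] Vec d)) = Module.finrank ℝ (Vec m) := by
    rw [hdim, finrank_euclideanSpace, Fintype.card_fin]
  let S : LinearMap.range (A : Vec d →ₗ[ℝ] Vec d) ≃L[ℝ] Vec m := ContinuousLinearEquiv.ofFinrankEq hfr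
  have hmem : ∀ v, A v ∈ LinearMap.range (A : Vec d →ₗ[ℝ] Vec d) := fun v => ⟨v, rfl⟩
  refine ⟨(LinearMap.range (A : Vec d →ₗ[ℝ] Vec d)).subtypeL ∘L (S.symm : Vec m →L[ℝ] _),
    (S : _ →L[ℝ] Vec m) ∘L (A.codRestrict _ hmem), ?_, ?_⟩
  · intro w
    have h1 : A (S.symm w : Vec d) = (S.symm w : Vec d) := by
      obtain ⟨u, hu⟩ := (S.symm w).2
      rw [← hu]
      exact hA u
    have h2 : A.codRestrict _ hmem (S.symm w : Vec d) = S.symm w := Subtype.ext h1
    change S (A.codRestrict _ hmem (S.symm w : Vec d)) = w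
    rw [h2, ContinuousLinearEquiv.apply_symm_apply]
  · intro v
    change ((S.symm (S (A.codRestrict _ hmem v)) : LinearMap.range (A : Vec d →ₗ[ℝ] Vec d)) : Vec d) = A v
    rw [ContinuousLinearEquiv.symm_apply_apply]
    rfl

theorem E5_r_self (M : Sub d) {x : Vec d} (hx : x ∈ M.N) : M.r x = x := by
  by_contra hne
  have h := M.nearest x (M.sub hx) x hx (fun h => hne h.symm)
  rw [dist_self] at h
  exact absurd h (not_lt.2 dist_nonneg)

theorem E5_contDiffAt (M : Sub d) {x : Vec d} (hx : x ∈ M.U) : ContDiffAt ℝ ∞ M.r x :=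
  M.smooth.contDiffAt (M.isOpen.mem_nhds hx)

theorem E5_strict (M : Sub d) {x : Vec d} (hx : x ∈ M.U) : HasStrictFDerivAt M.r (fderiv ℝ M.r x) x :=
  (E5_contDiffAt M hx).hasStrictFDerivAt (by simp)

theorem E5_idem (M : Sub d) {y0 : Vec d} (hy : y0 ∈ M.N) (v : Vec d) :
    fderiv ℝ M.r y0 (fderiv ℝ M.r y0 v) = fderiv ℝ M.r y0 v := by
  have hU := M.sub hy
  have h1 : HasFDerivAt M.r (fderiv ℝ M.r y0) y0 := (E5_strict M hU).hasFDerivAt
  have h2 : HasFDerivAt M.r (fderiv ℝ M.r y0) (M.r y0) := by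
    rw [E5_r_self M hy]
    exact h1
  have h3 : HasFDerivAt (M.r ∘ M.r) ((fderiv ℝ M.r y0).comp (fderiv ℝ M.r y0)) y0 := h2.comp y0 h1
  have h4 : (M.r ∘ M.r) =ᶠ[𝓝 y0] M.r := by
    filter_upwards [M.isOpen.mem_nhds hU] with x hx
    exact E5_r_self M (M.mem x hx)
  have h5 : HasFDerivAt M.r ((fderiv ℝ M.r y0).comp (fderiv ℝ M.r y0)) y0 := h3.congr_of_eventuallyEq h4.symm
  have h6 := h5.unique h1
  exact congrArg (fun T : Vec d →L[ℝ] Vec d => T v) h6

theorem E5_inj (M : Sub d) {y0 : Vec d} (hy : y0 ∈ M.N) :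
    ∃ T1 ∈ 𝓝 y0, ∀ x ∈ T1, ∀ x' ∈ T1, x ∈ M.N → x' ∈ M.N → fderiv ℝ M.r y0 (x - x') = 0 → x = x' := by
  have hstr : HasStrictFDerivAt M.r (fderiv ℝ M.r y0) y0 := E5_strict M (M.sub hy)
  have hlit := hstr.isLittleO.def (show (0 : ℝ) < 1 / 2 by norm_num)
  obtain ⟨δ, hδ, h⟩ := Metric.eventually_nhds_iff.1 hlit
  refine ⟨Metric.ball y0 δ, Metric.ball_mem_nhds _ hδ, ?_⟩
  intro x hx x' hx' hxN hx'N h0
  have h1 := h (show dist (x, x') (y0, y0) < δ from max_lt hx hx')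
  dsimp only at h1
  rw [E5_r_self M hxN, E5_r_self M hx'N, h0, sub_zero] at h1
  have h2 : ‖x - x'‖ = 0 := by
    have := norm_nonneg (x - x')
    linarith
  exact sub_eq_zero.1 (norm_eq_zero.1 h2)

theorem exists_mchart {M : Sub d} {y0 : Vec d} (hy : y0 ∈ M.N)
    (hdim : Module.finrank ℝ (LinearMap.range (fderiv ℝ M.r y0 : Vec d →ₗ[ℝ] Vec d)) = m)
    {W0 : Set (Vec d)} (hW : IsOpen W0) (hy0 : y0 ∈ W0) :
    ∃ (W : Set (Vec d)) (ρ : ℝ) (g : Vec m → Vec d) (g' : Vec d → Vec m), W ⊆ W0 ∧ MChart M m W ρ g g' := by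
  have hU := M.sub hy
  obtain ⟨J, π, hπJ, hJπ⟩ := exists_split (E5_idem M hy) hdim
  -- the parametrisation
  let g : Vec m → Vec d := fun w => M.r (y0 + J w)
  let g2 : Vec m → Vec m := fun w => π (g w - y0)
  have hg0 : g 0 = y0 := by
    change M.r (y0 + J 0) = y0
    rw [map_zero, add_zero]
    exact E5_r_self M hy
  have hg20 : g2 0 = 0 := by
    change π (g 0 - y0) = 0
    rw [hg0, sub_self, map_zero]
  let Ug : Set (Vec m) := (fun w => y0 + J w) ⁻¹' M.U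
  have hcJ : Continuous (fun w : Vec m => y0 + J w) := continuous_const.add J.continuous
  have hUg : IsOpen Ug := M.isOpen.preimage hcJ
  have h0Ug : (0 : Vec m) ∈ Ug := by
    change y0 + J 0 ∈ M.U
    rw [map_zero, add_zero]
    exact hU
  have hgs : ContDiffOn ℝ ∞ g Ug := by
    refine M.smooth.comp (contDiff_const.add J.contDiff).contDiffOn ?_
    intro w hw
    exact hw
  have hg2s : ContDiffOn ℝ ∞ g2 Ug := π.contDiff.comp_contDiffOn (hgs.sub contDiffOn_const)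
  -- strict derivatives at zero
  have hstr : HasStrictFDerivAt M.r (fderiv ℝ M.r y0) y0 := E5_strict M hU
  have hgd : HasStrictFDerivAt g ((fderiv ℝ M.r y0).comp J) 0 := by
    have h1 : HasStrictFDerivAt (fun w : Vec m => y0 + J w) J 0 := J.hasStrictFDerivAt.const_add y0
    have h2 : HasStrictFDerivAt M.r (fderiv ℝ M.r y0) (y0 + J 0) := by
      rw [map_zero, add_zero]
      exact hstr
    exact h2.comp 0 h1
  have hid : π.comp ((fderiv ℝ M.r y0).comp J) = ((ContinuousLinearEquiv.refl ℝ (Vec m) :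
      Vec m ≃L[ℝ] Vec m) : Vec m →L[ℝ] Vec m) := by
    ext1 w
    change π (fderiv ℝ M.r y0 (J w)) = w
    rw [← hJπ (J w), hπJ, hπJ]
  have hg2d : HasStrictFDerivAt g2 ((ContinuousLinearEquiv.refl ℝ (Vec m) : Vec m ≃L[ℝ] Vec m) :
      Vec m →L[ℝ] Vec m) 0 := by
    rw [← hid]
    exact π.hasStrictFDerivAt.comp 0 (hgd.sub_const y0)
  let f : OpenPartialHomeomorph (Vec m) (Vec m) := hg2d.toOpenPartialHomeomorph g2
  have hfg2 : ∀ w, f w = g2 w := fun w => by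
    change (hg2d.toOpenPartialHomeomorph g2) w = g2 w
    rw [hg2d.toOpenPartialHomeomorph_coe]
  have h0s : (0 : Vec m) ∈ f.source := hg2d.mem_toOpenPartialHomeomorph_source
  have h0t : (0 : Vec m) ∈ f.target := by
    have := hg2d.image_mem_toOpenPartialHomeomorph_target
    rw [hg20] at this
    exact this
  -- the open set where the derivative is invertible
  have hcf : ContinuousOn (fderiv ℝ g2) Ug := hg2s.continuousOn_fderiv_of_isOpen hUg (by simp)
  let V : Set (Vec m) := Ug ∩ fderiv ℝ g2 ⁻¹' range ((↑) : (Vec m ≃L[ℝ] Vec m) → (Vec m →L[ℝ] Vec m))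
  have hV : IsOpen V := hcf.isOpen_inter_preimage hUg ContinuousLinearEquiv.isOpen
  have h0V : (0 : Vec m) ∈ V := ⟨h0Ug, ⟨ContinuousLinearEquiv.refl ℝ (Vec m), hg2d.hasFDerivAt.fderiv.symm⟩⟩
  let Vs : Set (Vec m) := f.source ∩ V
  have hVs : IsOpen Vs := f.open_source.inter hV
  have h0Vs : (0 : Vec m) ∈ Vs := ⟨h0s, h0V⟩
  have hf0 : f.symm 0 = 0 := by
    have h1 := f.left_inv h0s
    rwa [hfg2, hg20] at h1
  let T : Set (Vec m) := f.target ∩ f.symm ⁻¹' Vs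
  have hT : IsOpen T := f.isOpen_inter_preimage_symm hVs
  have h0T : (0 : Vec m) ∈ T := ⟨h0t, by
    change f.symm 0 ∈ Vs
    rw [hf0]
    exact h0Vs⟩
  have hκs : ContDiffOn ℝ ∞ f.symm T := by
    intro a ha
    obtain ⟨f0, hf0'⟩ := ha.2.2.2
    have hw : f.symm a ∈ Ug := ha.2.2.1
    have h1 : ContDiffAt ℝ ∞ g2 (f.symm a) := hg2s.contDiffAt (hUg.mem_nhds hw)
    have hco : (f : Vec m → Vec m) = g2 := funext hfg2
    have h2 : HasFDerivAt f (f0 : Vec m →L[ℝ] Vec m) (f.symm a) := by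
      rw [hco, hf0']
      exact (h1.differentiableAt (by simp)).hasFDerivAt
    have h3 : ContDiffAt ℝ ∞ f (f.symm a) := by
      rw [hco]
      exact h1
    exact (f.contDiffAt_symm ha.1 h2 h3).contDiffWithinAt
  -- the inverse
  let g' : Vec d → Vec m := fun x => f.symm (π (x - y0))
  let P : Set (Vec d) := (fun x => π (x - y0)) ⁻¹' T
  have hcπ : Continuous (fun x : Vec d => π (x - y0)) := π.continuous.comp (continuous_id.sub continuous_const)
  have hP : IsOpen P := hT.preimage hcπ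
  have hyP : y0 ∈ P := by
    change π (y0 - y0) ∈ T
    rw [sub_self, map_zero]
    exact h0T
  have hg's : ContDiffOn ℝ ∞ g' P :=
    hκs.comp (π.contDiff.comp (contDiff_id.sub contDiff_const)).contDiffOn (fun x hx => hx)
  -- injectivity near `y0`
  obtain ⟨T1, hT1, hinj0⟩ := E5_inj M hy
  have hinj : ∀ x ∈ T1, ∀ x' ∈ T1, x ∈ M.N → x' ∈ M.N → π (x - x') = 0 → x = x' := by
    intro x hx x' hx' hxN hx'N h
    refine hinj0 x hx x' hx' hxN hx'N ?_
    rw [← hJπ (x - x'), h, map_zero]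
  -- radii
  obtain ⟨ε, hε, hεs⟩ : ∃ ε > 0, Metric.ball y0 ε ⊆ W0 ∩ T1 ∩ P :=
    Metric.mem_nhds_iff.1 (Filter.inter_mem (Filter.inter_mem (hW.mem_nhds hy0) hT1) (hP.mem_nhds hyP))
  let W1 : Set (Vec d) := Metric.ball y0 (min ε (1 / 2))
  have hW1 : W1 ⊆ W0 ∩ T1 ∩ P := (Metric.ball_subset_ball (min_le_left _ _)).trans hεs
  have hW1o : IsOpen W1 := Metric.isOpen_ball
  have hgc : ContinuousAt g 0 := hgd.hasFDerivAt.continuousAt
  have hgW1 : g ⁻¹' W1 ∈ 𝓝 (0 : Vec m) := by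
    refine hgc ?_
    rw [hg0]
    exact Metric.ball_mem_nhds _ (lt_min hε (by norm_num))
  obtain ⟨ρ, hρ, hρs⟩ : ∃ ρ > 0, Metric.ball (0 : Vec m) ρ ⊆ Vs ∩ g ⁻¹' W1 :=
    Metric.mem_nhds_iff.1 (Filter.inter_mem (hVs.mem_nhds h0Vs) hgW1)
  have hleft : ∀ w ∈ Metric.ball (0 : Vec m) ρ, g' (g w) = w := by
    intro w hw
    have h1 := f.left_inv (hρs hw).1.1
    rw [hfg2] at h1
    exact h1
  have hcg' : ContinuousOn g' W1 := (hg's.continuousOn).mono (fun x hx => (hW1 hx).2)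
  refine ⟨W1 ∩ g' ⁻¹' Metric.ball 0 ρ, ρ, g, g', fun x hx => (hW1 hx.1).1.1, ⟨hρ,
    hcg'.isOpen_inter_preimage hW1o Metric.isOpen_ball, ?_, ?_, ?_, ?_, hleft, ?_⟩⟩
  · intro x hx y hy'
    have h1 : dist x y0 < min ε (1 / 2) := hx.1
    have h2 : dist y y0 < min ε (1 / 2) := hy'.1
    have h3 := min_le_right ε (1 / 2)
    have h4 := dist_triangle_right x y y0
    linarith
  · exact hgs.mono (fun w hw => (hρs hw).1.2.1)
  · exact hg's.mono (fun x hx => (hW1 hx.1).2)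
  · intro w hw
    refine ⟨M.mem _ (hρs hw).1.2.1, (hρs hw).2, ?_⟩
    change g' (g w) ∈ Metric.ball 0 ρ
    rw [hleft w hw]
    exact hw
  · intro x hx
    have hb : g' x ∈ Metric.ball (0 : Vec m) ρ := hx.2.2
    refine ⟨hb, ?_⟩
    have hxP : π (x - y0) ∈ T := (hW1 hx.2.1).2
    have h1 : π (g (g' x) - y0) = π (x - y0) := by
      have h2 := f.right_inv hxP.1
      rw [hfg2] at h2
      exact h2
    have h2 : π (g (g' x) - x) = 0 := by
      have h3 : g (g' x) - x = (g (g' x) - y0) - (x - y0) := by abel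
      rw [h3, map_sub, h1, sub_self]
    exact hinj _ (hW1 (hρs hb).2).1.2 _ (hW1 hx.2.1).1.2 (M.mem _ (hρs hb).1.2.1) hx.1 h2

end EscW.Ex
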