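import Pool.Agent.EscW.DDefs
import Pool.Agent.EscW.E5

set_option autoImplicit false

/-!
Project EscW, part D, module D3: normalised charts.
A chart `g`, `g'` from `exists_mchart` (E5), `y = g 0`. The form `S z w = q y (Dg z) (Dg w)`, `Dg = fderiv g 0`, is an
inner product on `Vec m`, so `S z z = ‖A⁻¹ z‖²` for a linear isomorphism `A`. For tangent `v` at `y` one has
`Dg (Dg' v) = v`, so `‖A⁻¹ Dg' v‖² = q y v v`. By compactness of the unit sphere of `Vec d` the two sides are close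
near `y`; restrict the chart to a small ball.
-/

noncomputable section

namespace EscW.Dn

open Filter Topology Set EscF.T EscM EscMT MeasureTheory EscW.Ex
open scoped ContDiff

variable {d m n : ℕ}

theorem D3_shrink {M : Sub d} {W1 : Set (Vec d)} {ρ1 : ℝ} {g : Vec m → Vec d} {g' : Vec d → Vec m}
    (h : MChart M m W1 ρ1 g g') {V : Set (Vec d)} (hV : V ∈ 𝓝 (g 0)) :
    ∃ (W : Set (Vec d)) (ρ : ℝ), W ⊆ W1 ∩ V ∧ MChart M m W ρ g g' := by
  obtain ⟨ε, hε, hεV⟩ := Metric.mem_nhds_iff.1 hV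
  have h0 : (0 : Vec m) ∈ Metric.ball (0 : Vec m) ρ1 := Metric.mem_ball_self h.pos
  have hgc : ContinuousAt g 0 := h.smooth.continuousOn.continuousAt (Metric.isOpen_ball.mem_nhds h0)
  have hg1 : g ⁻¹' Metric.ball (g 0) ε ∈ 𝓝 (0 : Vec m) := hgc (Metric.ball_mem_nhds _ hε)
  obtain ⟨ρ, hρ, hρs⟩ : ∃ ρ > 0, Metric.ball (0 : Vec m) ρ ⊆ Metric.ball 0 ρ1 ∩ g ⁻¹' Metric.ball (g 0) ε :=
    Metric.mem_nhds_iff.1 (Filter.inter_mem (Metric.isOpen_ball.mem_nhds h0) hg1)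
  have hc : ContinuousOn g' (W1 ∩ Metric.ball (g 0) ε) := h.smooth'.continuousOn.mono inter_subset_left
  refine ⟨(W1 ∩ Metric.ball (g 0) ε) ∩ g' ⁻¹' Metric.ball 0 ρ, ρ, fun x hx => ⟨hx.1.1, hεV hx.1.2⟩, ?_⟩
  refine ⟨hρ, hc.isOpen_inter_preimage (h.isOpen.inter Metric.isOpen_ball) Metric.isOpen_ball,
    fun x hx y hy => h.small x hx.1.1 y hy.1.1, h.smooth.mono fun w hw => (hρs hw).1,
    h.smooth'.mono fun x hx => hx.1.1, ?_, fun w hw => h.left w (hρs hw).1, ?_⟩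
  · intro w hw
    refine ⟨(h.maps w (hρs hw).1).1, ⟨(h.maps w (hρs hw).1).2, (hρs hw).2⟩, ?_⟩
    change g' (g w) ∈ Metric.ball 0 ρ
    rw [h.left w (hρs hw).1]
    exact hw
  · intro x hx
    exact ⟨hx.2.2, (h.right x ⟨hx.1, hx.2.1.1⟩).2⟩

section Der

variable {M : Sub d} {W1 : Set (Vec d)} {ρ1 : ℝ} {g : Vec m → Vec d} {g' : Vec d → Vec m}

theorem D3_g (h : MChart M m W1 ρ1 g g') : HasFDerivAt g (fderiv ℝ g 0) 0 := by
  have h0 : (0 : Vec m) ∈ Metric.ball (0 : Vec m) ρ1 := Metric.mem_ball_self h.pos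
  exact ((h.smooth.contDiffAt (Metric.isOpen_ball.mem_nhds h0)).differentiableAt (by simp)).hasFDerivAt

theorem D3_mem (h : MChart M m W1 ρ1 g g') : g 0 ∈ M.N ∧ g 0 ∈ W1 := h.maps 0 (Metric.mem_ball_self h.pos)

theorem D3_g' (h : MChart M m W1 ρ1 g g') : HasFDerivAt g' (fderiv ℝ g' (g 0)) (g 0) :=
  ((h.smooth'.contDiffAt (h.isOpen.mem_nhds (D3_mem h).2)).differentiableAt (by simp)).hasFDerivAt

theorem D3_r (h : MChart M m W1 ρ1 g g') : HasFDerivAt M.r (fderiv ℝ M.r (g 0)) (g 0) :=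
  ((M.smooth.contDiffAt (M.isOpen.mem_nhds (M.sub (D3_mem h).1))).differentiableAt (by simp)).hasFDerivAt

theorem D3_left (h : MChart M m W1 ρ1 g g') (w : Vec m) : fderiv ℝ g' (g 0) (fderiv ℝ g 0 w) = w := by
  have h1 : HasFDerivAt (g' ∘ g) ((fderiv ℝ g' (g 0)).comp (fderiv ℝ g 0)) 0 := (D3_g' h).comp 0 (D3_g h)
  have h2 : (g' ∘ g) =ᶠ[𝓝 (0 : Vec m)] id := by
    filter_upwards [Metric.isOpen_ball.mem_nhds (Metric.mem_ball_self h.pos)] with w hw
    exact h.left w hw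
  have h3 : HasFDerivAt (g' ∘ g) (ContinuousLinearMap.id ℝ (Vec m)) 0 :=
    (hasFDerivAt_id (0 : Vec m)).congr_of_eventuallyEq h2
  exact congrArg (fun T : Vec m →L[ℝ] Vec m => T w) (h1.unique h3)

theorem D3_tan (h : MChart M m W1 ρ1 g g') (w : Vec m) :
    fderiv ℝ M.r (g 0) (fderiv ℝ g 0 w) = fderiv ℝ g 0 w := by
  have h1 : HasFDerivAt (M.r ∘ g) ((fderiv ℝ M.r (g 0)).comp (fderiv ℝ g 0)) 0 := (D3_r h).comp 0 (D3_g h)
  have h2 : (M.r ∘ g) =ᶠ[𝓝 (0 : Vec m)] g := by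
    filter_upwards [Metric.isOpen_ball.mem_nhds (Metric.mem_ball_self h.pos)] with w hw
    exact E5_r_self M (h.maps w hw).1
  have h3 : HasFDerivAt (M.r ∘ g) (fderiv ℝ g 0) 0 := (D3_g h).congr_of_eventuallyEq h2
  exact congrArg (fun T : Vec m →L[ℝ] Vec d => T w) (h1.unique h3)

theorem D3_right (h : MChart M m W1 ρ1 g g') (v : Vec d) :
    fderiv ℝ g 0 (fderiv ℝ g' (g 0) (fderiv ℝ M.r (g 0) v)) = fderiv ℝ M.r (g 0) v := by
  have hr : M.r (g 0) = g 0 := E5_r_self M (D3_mem h).1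
  have hl : g' (g 0) = 0 := h.left 0 (Metric.mem_ball_self h.pos)
  have h1 : HasFDerivAt (g' ∘ M.r) ((fderiv ℝ g' (g 0)).comp (fderiv ℝ M.r (g 0))) (g 0) := by
    refine HasFDerivAt.comp (g 0) ?_ (D3_r h)
    rw [hr]
    exact D3_g' h
  have h1' : HasFDerivAt (g ∘ (g' ∘ M.r))
      ((fderiv ℝ g 0).comp ((fderiv ℝ g' (g 0)).comp (fderiv ℝ M.r (g 0)))) (g 0) := by
    refine HasFDerivAt.comp (g 0) ?_ h1
    have e : (g' ∘ M.r) (g 0) = 0 := by
      change g' (M.r (g 0)) = 0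
      rw [hr, hl]
    rw [e]
    exact D3_g h
  have h2 : (g ∘ (g' ∘ M.r)) =ᶠ[𝓝 (g 0)] M.r := by
    have hc : ContinuousAt M.r (g 0) := (D3_r h).continuousAt
    have h3 : M.r ⁻¹' W1 ∈ 𝓝 (g 0) := by
      refine hc ?_
      rw [hr]
      exact h.isOpen.mem_nhds (D3_mem h).2
    filter_upwards [h3, M.isOpen.mem_nhds (M.sub (D3_mem h).1)] with x hx hxU
    exact (h.right (M.r x) ⟨M.mem x hxU, hx⟩).2
  have h3 : HasFDerivAt (g ∘ (g' ∘ M.r)) (fderiv ℝ M.r (g 0)) (g 0) := (D3_r h).congr_of_eventuallyEq h2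
  exact congrArg (fun T : Vec d →L[ℝ] Vec d => T v) (h1'.unique h3)

end Der

theorem D3_iso (S : Vec m →L[ℝ] Vec m →L[ℝ] ℝ)
    (hp : ∀ z, z ≠ 0 → 0 < S z z) : ∃ A : Vec m ≃L[ℝ] Vec m, ∀ z, ‖A.symm z‖ ^ 2 = S z z := by
  let B : LinearMap.BilinForm ℝ (Vec m) := LinearMap.mk₂ ℝ (fun z w => S z w)
    (fun a b c => by simp) (fun a b c => by simp) (fun a b c => by simp) (fun a b c => by simp)
  have hB : ∀ z w, B z w = S z w := fun z w => rfl
  let Q : QuadraticForm ℝ (Vec m) := LinearMap.BilinMap.toQuadraticMap B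
  have hQv : ∀ z, Q z = S z z := fun z => rfl
  have hQ : (QuadraticMap.associated (R := ℝ) Q).SeparatingLeft := by
    intro x hx
    by_contra hne
    have h1 := hx x
    have h2 : (QuadraticMap.associated (R := ℝ) Q) x x = Q x := QuadraticMap.associated_eq_self_apply ℝ Q x
    rw [h2, hQv] at h1
    exact absurd (hp x hne) (by rw [h1]; exact lt_irrefl 0)
  obtain ⟨w, hw, ⟨e⟩⟩ := QuadraticForm.equivalent_one_neg_one_weighted_sum_squared Q hQ
  have hw1 : ∀ i, w i = 1 := by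
    intro i
    rcases hw i with h1 | h1
    · exfalso
      have h2 := e.symm.map_app (Pi.single i (1 : ℝ))
      rw [hQv, QuadraticMap.weightedSumSquares_apply] at h2
      have h3 : ∑ j, w j • ((Pi.single i (1 : ℝ) : Fin (Module.finrank ℝ (Vec m)) → ℝ) j *
          (Pi.single i (1 : ℝ) : Fin (Module.finrank ℝ (Vec m)) → ℝ) j) = w i := by
        rw [Finset.sum_eq_single i]
        · simp
        · intro j _ hj
          simp [Pi.single_eq_of_ne hj]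
        · simp
      rw [h3, h1] at h2
      have h4 : 0 ≤ S (e.symm (Pi.single i (1 : ℝ))) (e.symm (Pi.single i (1 : ℝ))) := by
        by_cases h5 : e.symm (Pi.single i (1 : ℝ)) = 0
        · rw [h5]
          simp
        · exact (hp _ h5).le
      linarith
    · exact h1
  have hfr : Module.finrank ℝ (Vec m) = m := by rw [finrank_euclideanSpace, Fintype.card_fin]
  let L : Vec m ≃ₗ[ℝ] Vec m := (e.toLinearEquiv.trans
    (LinearEquiv.funCongrLeft ℝ ℝ (finCongr hfr.symm))).trans (WithLp.linearEquiv 2 ℝ (Fin m → ℝ)).symm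
  have hL : ∀ z i, L z i = e z (finCongr hfr.symm i) := fun z i => rfl
  refine ⟨L.toContinuousLinearEquiv.symm, fun z => ?_⟩
  change ‖L z‖ ^ 2 = S z z
  rw [EuclideanSpace.norm_sq_eq, ← hQv, ← e.map_app z, QuadraticMap.weightedSumSquares_apply]
  rw [← (finCongr hfr.symm).sum_comp]
  refine Finset.sum_congr rfl fun i _ => ?_
  rw [hL, hw1, one_smul, Real.norm_eq_abs, sq_abs, sq]

theorem exists_mdata {M : Sub d} {y0 : Vec d} (hy : y0 ∈ M.N)
    (hdim : Module.finrank ℝ (LinearMap.range (fderiv ℝ M.r y0 : Vec d →ₗ[ℝ] Vec d)) = m)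
    {j : ℕ∞} {q : Vec d → Vec d →L[ℝ] Vec d →L[ℝ] ℝ} (hq : IsRiemannian M j q)
    {W0 : Set (Vec d)} (hW : IsOpen W0) (hy0 : y0 ∈ W0) {η : ℝ} (hη : 0 < η) :
    ∃ (W : Set (Vec d)) (ρ : ℝ) (g : Vec m → Vec d) (g' : Vec d → Vec m) (A : Vec m ≃L[ℝ] Vec m),
      W ⊆ W0 ∧ MData M q m W ρ g g' A η := by
  obtain ⟨W1, ρ1, g, g', hW1, hch⟩ := exists_mchart hy hdim hW hy0
  have hyN := (D3_mem hch).1
  have hyW := (D3_mem hch).2
  have hyU := M.sub hyN
  have hry : M.r (g 0) = g 0 := E5_r_self M hyN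
  -- the inner product at the centre
  let S : Vec m →L[ℝ] Vec m →L[ℝ] ℝ := (q (g 0)).bilinearComp (fderiv ℝ g 0) (fderiv ℝ g 0)
  have hS : ∀ z w, S z w = q (g 0) (fderiv ℝ g 0 z) (fderiv ℝ g 0 w) := fun z w => rfl
  obtain ⟨A, hA⟩ := D3_iso S
    (fun z hz => by
      refine hq.pos (g 0) hyN _ (D3_tan hch z) fun h0 => hz ?_
      have h1 : fderiv ℝ g 0 z = 0 := h0
      rw [← D3_left hch z, h1, map_zero])
  have hcen : ∀ v, ‖A.symm (fderiv ℝ g' (g 0) (fderiv ℝ M.r (g 0) v))‖ ^ 2 =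
      q (M.r (g 0)) (fderiv ℝ M.r (g 0) v) (fderiv ℝ M.r (g 0) v) := by
    intro v
    rw [hA, hS, D3_right hch, hry]
  -- continuity
  have hrc : ContinuousAt (fderiv ℝ M.r) (g 0) :=
    (M.smooth.continuousOn_fderiv_of_isOpen M.isOpen (by simp)).continuousAt (M.isOpen.mem_nhds hyU)
  have hg'c : ContinuousAt (fderiv ℝ g') (g 0) :=
    (hch.smooth'.continuousOn_fderiv_of_isOpen hch.isOpen (by simp)).continuousAt
      (hch.isOpen.mem_nhds hyW)
  have hev : ∀ᶠ p in 𝓝 (g 0), ∀ v ∈ Metric.sphere (0 : Vec d) 1,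
      |‖A.symm (fderiv ℝ g' p (fderiv ℝ M.r p v))‖ ^ 2 - q (M.r p) (fderiv ℝ M.r p v) (fderiv ℝ M.r p v)|
        < η * q (M.r p) (fderiv ℝ M.r p v) (fderiv ℝ M.r p v) + ‖fderiv ℝ M.r p v - v‖ := by
    refine IsCompact.eventually_forall_of_forall_eventually (isCompact_sphere (0 : Vec d) 1) ?_
    intro v hv
    have c1 : ContinuousAt (fun z : Vec d × Vec d => fderiv ℝ M.r z.1 z.2) (g 0, v) :=
      ContinuousAt.clm_apply (ContinuousAt.comp (f := fun z : Vec d × Vec d => z.1) (x := (g 0, v)) hrc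
        continuousAt_fst) continuousAt_snd
    have c2 : ContinuousAt (fun z : Vec d × Vec d => fderiv ℝ g' z.1 (fderiv ℝ M.r z.1 z.2)) (g 0, v) :=
      ContinuousAt.clm_apply (ContinuousAt.comp (f := fun z : Vec d × Vec d => z.1) (x := (g 0, v)) hg'c
        continuousAt_fst) c1
    have c3 : ContinuousAt (fun z : Vec d × Vec d =>
        ‖A.symm (fderiv ℝ g' z.1 (fderiv ℝ M.r z.1 z.2))‖ ^ 2) (g 0, v) :=
      ((A.symm.continuous.continuousAt.comp c2).norm).pow 2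
    have c4 : ContinuousAt (fun z : Vec d × Vec d =>
        q (M.r z.1) (fderiv ℝ M.r z.1 z.2) (fderiv ℝ M.r z.1 z.2)) (g 0, v) := by
      have e1 : ContinuousAt (fun p : Vec d × Vec d × Vec d =>
          q (M.r p.1) (fderiv ℝ M.r p.1 p.2.1) (fderiv ℝ M.r p.1 p.2.2)) (g 0, v, v) :=
        hq.smooth.continuousOn.continuousAt ((M.isOpen.preimage continuous_fst).mem_nhds hyU)
      exact ContinuousAt.comp (f := fun z : Vec d × Vec d => (z.1, z.2, z.2)) (x := (g 0, v)) e1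
        (by fun_prop)
    have c5 : ContinuousAt (fun z : Vec d × Vec d =>
        η * q (M.r z.1) (fderiv ℝ M.r z.1 z.2) (fderiv ℝ M.r z.1 z.2) + ‖fderiv ℝ M.r z.1 z.2 - z.2‖)
        (g 0, v) := (continuousAt_const.mul c4).add (c1.sub continuousAt_snd).norm
    refine (c3.sub c4).abs.eventually_lt c5 ?_
    change |‖A.symm (fderiv ℝ g' (g 0) (fderiv ℝ M.r (g 0) v))‖ ^ 2 -
      q (M.r (g 0)) (fderiv ℝ M.r (g 0) v) (fderiv ℝ M.r (g 0) v)| <
        η * q (M.r (g 0)) (fderiv ℝ M.r (g 0) v) (fderiv ℝ M.r (g 0) v) + ‖fderiv ℝ M.r (g 0) v - v‖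
    rw [hcen, sub_self, abs_zero, hry]
    have hv1 : ‖v‖ = 1 := mem_sphere_zero_iff_norm.1 hv
    by_cases h0 : fderiv ℝ M.r (g 0) v = 0
    · rw [h0]
      simp [hv1]
    · have h1 := hq.pos (g 0) hyN (fderiv ℝ M.r (g 0) v) (E5_idem M hyN v) h0
      have h2 := norm_nonneg (fderiv ℝ M.r (g 0) v - v)
      have h3 := mul_pos hη h1
      linarith
  obtain ⟨W, ρ, hWs, hch'⟩ := D3_shrink hch hev
  refine ⟨W, ρ, g, g', A, fun x hx => hW1 (hWs hx).1, hch', ?_⟩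
  intro p hp v hv
  have hrp : M.r p = p := E5_r_self M hp.1
  have hv' : fderiv ℝ M.r p v = v := hv
  rcases eq_or_ne v 0 with h0 | h0
  · rw [h0]
    simp
  · have hn : ‖v‖ ≠ 0 := norm_ne_zero_iff.2 h0
    have hn' : 0 < ‖v‖ := norm_pos_iff.2 h0
    have h1 := (hWs hp.2).2 (‖v‖⁻¹ • v) (by
      rw [mem_sphere_zero_iff_norm, norm_smul, norm_inv, norm_norm, inv_mul_cancel₀ hn])
    rw [map_smul, hv', hrp, sub_self, norm_zero, add_zero] at h1
    simp only [map_smul, ContinuousLinearMap.smul_apply, norm_smul, norm_inv, norm_norm,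
      smul_eq_mul] at h1
    have e1 : (‖v‖⁻¹ * ‖A.symm (fderiv ℝ g' p v)‖) ^ 2 - ‖v‖⁻¹ * (‖v‖⁻¹ * q p v v) =
        (‖v‖⁻¹) ^ 2 * (‖A.symm (fderiv ℝ g' p v)‖ ^ 2 - q p v v) := by ring
    rw [e1, abs_mul, abs_of_nonneg (sq_nonneg _)] at h1
    have e2 : η * (‖v‖⁻¹ * (‖v‖⁻¹ * q p v v)) = (‖v‖⁻¹) ^ 2 * (η * q p v v) := by ring
    rw [e2] at h1
    exact le_of_lt (lt_of_mul_lt_mul_left h1 (sq_nonneg _))

end EscW.Dn
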