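import Pool.Agent.EscW.CFDefs
import Pool.Agent.EscW.D3

set_option autoImplicit false

/-!
Project EscW, part O, conformal version, module CF1: a chart with an orthonormal frame at the centre.
`exists_mchart` (E5) gives `g`, `g'`. `S z w = q (g 0) (Dg z) (Dg w)`, `Dg = fderiv g 0`, is an inner product on `Vec m`: `Dg z` is tangent at `g 0` (differentiate `M.r (g z) = g z`), `Dg` is injective (`g' ∘ g = id`), `IsRiemannian.symm`, `pos`. So there is a linear isomorphism `A` with `S (A v) (A v) = ‖v‖²`: this is done in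
the proof of `exists_mdata` (module D3, read `Pool/Agent/EscW/D3.lean`); here the centre of the chart is any point `g 0` of the chart given by E5, no further shrinking.
-/

noncomputable section

namespace EscW.On

open Filter Topology Set EscF.T EscM EscMT MeasureTheory EscW.Ex EscW.Dn
open scoped ContDiff

variable {d m k j n : ℕ}

theorem exists_center {M : Sub d} {y0 : Vec d} (hy : y0 ∈ M.N)
    (hdim : Module.finrank ℝ (LinearMap.range (fderiv ℝ M.r y0 : Vec d →ₗ[ℝ] Vec d)) = m)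
    {i : ℕ∞} {q : Vec d → Vec d →L[ℝ] Vec d →L[ℝ] ℝ} (hq : IsRiemannian M i q)
    {W0 : Set (Vec d)} (hW : IsOpen W0) (hy0 : y0 ∈ W0) :
    ∃ (W : Set (Vec d)) (ρ : ℝ) (g : Vec m → Vec d) (g' : Vec d → Vec m) (A : Vec m ≃L[ℝ] Vec m),
      W ⊆ W0 ∧ MChart M m W ρ g g' ∧
      ∀ v, q (g 0) (fderiv ℝ g 0 (A v)) (fderiv ℝ g 0 (A v)) = ‖v‖ ^ 2 := by
  obtain ⟨W, ρ, g, g', hWW, hch⟩ := exists_mchart hy hdim hW hy0
  have hyN := (D3_mem hch).1
  obtain ⟨A, hA⟩ := D3_iso ((q (g 0)).bilinearComp (fderiv ℝ g 0) (fderiv ℝ g 0))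
    (fun z hz => by
      refine hq.pos (g 0) hyN _ (D3_tan hch z) fun h0 => hz ?_
      have h1 : fderiv ℝ g 0 z = 0 := h0
      rw [← D3_left hch z, h1, map_zero])
  refine ⟨W, ρ, g, g', A, hWW, hch, fun v => ?_⟩
  have h1 := hA (A v)
  rw [A.symm_apply_apply] at h1
  exact h1.symm

end EscW.On
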