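import Pool.Agent.EscW.DDefs
import Pool.Agent.EscM.N1

set_option autoImplicit false

/-!
Project EscW, part D, module D7: the new metric is near the old one; its pull-back.
`qnew_near`: at `x` with `x + vz l ∈ W`: convex combination of `w² ‖A⁻¹ Dg' v‖²` and `q x v v` (`q` is periodic); `(1 - 2ε)² (1 - η) ≥ 1 - 4ε - η`, `w² (1 + η) ≤ 1 + η`. `qnew_pull`: `cb = 1`, `g' (φ X) = s • A (e X)` for all `X`, so `Dg' (Dφ v) = s • A (De v)`
(chain rule, `W` is open); the integer vector in `qnew` is zero (`small`).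
-/

noncomputable section

namespace EscW.Dn

open Filter Topology Set EscF.T EscM EscMT MeasureTheory EscW.Ex
open scoped ContDiff

variable {d m n : ℕ}

theorem D7_tangent {M : Sub d} {x v : Vec d} (hx : x ∈ M.N) (hv : IsTangent M x v) (l : Fin d → ℤ) :
    IsTangent M (x + vz l) v := by
  unfold IsTangent at hv ⊢
  have h1 : fderiv ℝ (fun y => M.r (y + vz l)) x = fderiv ℝ M.r (x + vz l) := fderiv_comp_add_right _
  have h2 : (fun y => M.r (y + vz l)) =ᶠ[𝓝 x] fun y => M.r y + vz l := by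
    filter_upwards [M.isOpen.mem_nhds (M.sub hx)] with y hy
    exact r_vz M l hy
  rw [← h1, h2.fderiv_eq, fderiv_add_const]
  exact hv

theorem D7_nonneg {M : Sub d} {j : ℕ∞} {q : Vec d → Vec d →L[ℝ] Vec d →L[ℝ] ℝ} (hq : IsRiemannian M j q)
    {x v : Vec d} (hx : x ∈ M.N) (hv : IsTangent M x v) : 0 ≤ q x v v := by
  by_cases h : v = 0
  · simp [h]
  · exact (hq.pos x hx v hv h).le

theorem D7_cb01 (ρ : ℝ) (z : Vec m) : 0 ≤ cb ρ z ∧ cb ρ z ≤ 1 := by
  unfold cb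
  exact ⟨by linarith [Real.smoothTransition.le_one ((16 * ‖z‖ ^ 2 / ρ ^ 2 - 4) / 5)],
    by linarith [Real.smoothTransition.nonneg ((16 * ‖z‖ ^ 2 / ρ ^ 2 - 4) / 5)]⟩

theorem D7_qloc (q : Vec d → Vec d →L[ℝ] Vec d →L[ℝ] ℝ) (ρ s : ℝ) (g' : Vec d → Vec m) (A : Vec m ≃L[ℝ] Vec m)
    (w : Vec m → ℝ) (p v : Vec d) : qloc q ρ s g' A w p v v =
      cb ρ (g' p) * w (s⁻¹ • A.symm (g' p)) ^ 2 * ‖A.symm (fderiv ℝ g' p v)‖ ^ 2 +
        (1 - cb ρ (g' p)) * q p v v := by
  unfold qloc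
  simp only [add_apply, smul_apply, ipc_apply, smul_eq_mul,
    ContinuousLinearMap.comp_apply, ContinuousLinearEquiv.coe_coe, real_inner_self_eq_norm_sq]

theorem qnew_near {M : Sub d} {j : ℕ∞} {q : Vec d → Vec d →L[ℝ] Vec d →L[ℝ] ℝ} (hq : IsRiemannian M j q)
    {W : Set (Vec d)} {ρ s : ℝ} {g : Vec m → Vec d} {g' : Vec d → Vec m} {A : Vec m ≃L[ℝ] Vec m} {η : ℝ}
    (hd : MData M q m W ρ g g' A η) (hη : 0 ≤ η) (hη1 : η ≤ 1) {ε : ℝ} (hε : 0 < ε) (hε4 : ε ≤ 1 / 4)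
    {w : Vec m → ℝ} (hw : ∀ z, 1 - 2 * ε ≤ w z ∧ w z ≤ 1) {x v : Vec d} (hx : x ∈ M.N)
    (hv : IsTangent M x v) : |qnew q W ρ s g' A w x v v - q x v v| ≤ (4 * ε + η) * q x v v := by
  have hQ := D7_nonneg hq hx hv
  by_cases h : ∃ l : Fin d → ℤ, x + vz l ∈ W
  · have e1 : qnew q W ρ s g' A w x = qloc q ρ s g' A w (x + vz h.choose) := by
      unfold qnew; rw [dif_pos h]
    have hW : x + vz h.choose ∈ W := h.choose_spec
    have hN : x + vz h.choose ∈ M.N := M.perN _ _ hx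
    have hv' : IsTangent M (x + vz h.choose) v := D7_tangent hx hv _
    have h1 := hd.near _ ⟨hN, hW⟩ v hv'
    have hper : q (x + vz h.choose) v v = q x v v := hq.periodic _ x hx v v hv hv
    rw [e1, D7_qloc]
    rw [hper] at h1 ⊢
    obtain ⟨hc0, hc1⟩ := D7_cb01 ρ (g' (x + vz h.choose))
    obtain ⟨hw0, hw1⟩ := hw (s⁻¹ • A.symm (g' (x + vz h.choose)))
    set c := cb ρ (g' (x + vz h.choose))
    set ww := w (s⁻¹ • A.symm (g' (x + vz h.choose)))
    set N := ‖A.symm (fderiv ℝ g' (x + vz h.choose) v)‖ ^ 2 with hNdef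
    set Q := q x v v
    have hN0 : 0 ≤ N := by positivity
    have e2 : c * ww ^ 2 * N + (1 - c) * Q - Q = c * (ww ^ 2 * N - Q) := by ring
    rw [e2, abs_mul, abs_of_nonneg hc0]
    have h2 := abs_le.1 h1
    have hww0 : 0 ≤ ww := by linarith
    have hsq1 : ww ^ 2 ≤ 1 := by nlinarith
    have hsq0 : 1 - 4 * ε ≤ ww ^ 2 := by nlinarith
    have h3 : |ww ^ 2 * N - Q| ≤ (4 * ε + η) * Q := by
      rw [abs_le]
      constructor
      · have h4 : (1 - 4 * ε) * N ≤ ww ^ 2 * N := mul_le_mul_of_nonneg_right hsq0 hN0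
        have h5 : (1 - 4 * ε) * ((1 - η) * Q) ≤ (1 - 4 * ε) * N :=
          mul_le_mul_of_nonneg_left (by linarith) (by linarith)
        have h6 : 0 ≤ ε * η * Q := by positivity
        nlinarith
      · have h4 : ww ^ 2 * N ≤ 1 * N := mul_le_mul_of_nonneg_right hsq1 hN0
        have h6 : 0 ≤ ε * Q := by positivity
        nlinarith
    calc c * |ww ^ 2 * N - Q| ≤ 1 * |ww ^ 2 * N - Q| := mul_le_mul_of_nonneg_right hc1 (abs_nonneg _)
      _ ≤ (4 * ε + η) * Q := by rw [one_mul]; exact h3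
  · have e1 : qnew q W ρ s g' A w x = q x := by
      unfold qnew; rw [dif_neg h]
    rw [e1, sub_self, abs_zero]
    positivity

theorem qnew_off {q : Vec d → Vec d →L[ℝ] Vec d →L[ℝ] ℝ} {W : Set (Vec d)} {ρ s : ℝ} {g' : Vec d → Vec m}
    {A : Vec m ≃L[ℝ] Vec m} {w : Vec m → ℝ} {x : Vec d} (hx : ∀ l : Fin d → ℤ, x + vz l ∉ W) :
    qnew q W ρ s g' A w x = q x := by
  unfold qnew
  rw [dif_neg (by simpa using hx)]

/-- an integer vector of norm less than one is zero -/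
theorem D7_vz_small {l : Fin d → ℤ} (h : ‖(vz l : Vec d)‖ < 1) : (vz l : Vec d) = 0 := by
  ext i
  have h1 : ‖(vz l : Vec d) i‖ ≤ ‖(vz l : Vec d)‖ := PiLp.norm_apply_le _ i
  have h2 : ‖(vz l : Vec d) i‖ = |((l i : ℤ) : ℝ)| := by simp [vz]
  rw [h2] at h1
  have h3 : |(l i : ℝ)| < 1 := lt_of_le_of_lt h1 h
  have h4 : |l i| < 1 := by exact_mod_cast h3
  have h5 : l i = 0 := Int.abs_lt_one_iff.1 h4
  simp [vz, h5]

theorem qnew_pull {M : Sub d} {q : Vec d → Vec d →L[ℝ] Vec d →L[ℝ] ℝ}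
    {W : Set (Vec d)} {ρ s : ℝ} {g : Vec m → Vec d} {g' : Vec d → Vec m} (hg : MChart M m W ρ g g')
    (A : Vec m ≃L[ℝ] Vec m) (hs : 0 < s) (w : Vec m → ℝ) {e : Vec m → Vec m} (he : ContDiff ℝ ∞ e)
    (hb : ∀ X, ‖s • A (e X)‖ ≤ ρ / 2) (X v : Vec m) :
    qnew q W ρ s g' A w (g (s • A (e X))) (fderiv ℝ (fun X => g (s • A (e X))) X v)
      (fderiv ℝ (fun X => g (s • A (e X))) X v) = (s * w (e X)) ^ 2 * ‖fderiv ℝ e X v‖ ^ 2 := by
  have hρ := hg.pos
  have hball : ∀ X, s • A (e X) ∈ Metric.ball (0 : Vec m) ρ := fun X => by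
    rw [mem_ball_zero_iff]; linarith [hb X]
  set G : Vec m → Vec d := fun X => g (s • A (e X)) with hG
  have hGX : G X ∈ W := (hg.maps _ (hball X)).2
  -- the integer vector is zero
  have h : ∃ l : Fin d → ℤ, G X + vz l ∈ W := ⟨0, by rw [vz_zero', add_zero]; exact hGX⟩
  have h0 : (vz h.choose : Vec d) = 0 := by
    apply D7_vz_small
    have h1 := hg.small _ h.choose_spec _ hGX
    rwa [dist_eq_norm, add_sub_cancel_left] at h1
  have e1 : qnew q W ρ s g' A w (G X) = qloc q ρ s g' A w (G X) := by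
    unfold qnew; rw [dif_pos h, h0, add_zero]
  change qnew q W ρ s g' A w (G X) (fderiv ℝ G X v) (fderiv ℝ G X v) = _
  rw [e1, D7_qloc]
  have hleft : g' (G X) = s • A (e X) := hg.left _ (hball X)
  -- the cut-off is one
  have hcb : cb ρ (g' (G X)) = 1 := by
    unfold cb
    rw [hleft, Real.smoothTransition.zero_of_nonpos, sub_zero]
    have h2 : ‖s • A (e X)‖ ^ 2 ≤ (ρ / 2) ^ 2 := by
      have := hb X
      have h3 := norm_nonneg (s • A (e X))
      nlinarith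
    have h4 : 16 * ‖s • A (e X)‖ ^ 2 / ρ ^ 2 ≤ 4 := by
      rw [div_le_iff₀ (by positivity)]
      nlinarith
    linarith
  rw [hcb]
  -- the argument of the conformal factor
  have hw1 : s⁻¹ • A.symm (g' (G X)) = e X := by
    rw [hleft, map_smul, smul_smul, inv_mul_cancel₀ hs.ne', one_smul, A.symm_apply_apply]
  rw [hw1]
  -- the derivative
  have hed : DifferentiableAt ℝ e X := he.differentiable (by simp) X
  have hAe : HasFDerivAt (fun X => s • A (e X)) (s • (A : Vec m →L[ℝ] Vec m).comp (fderiv ℝ e X)) X := by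
    exact (((A : Vec m →L[ℝ] Vec m).hasFDerivAt (x := e X)).comp X hed.hasFDerivAt).const_smul s
  have hgd : DifferentiableAt ℝ g (s • A (e X)) :=
    ((hg.smooth.contDiffAt (Metric.isOpen_ball.mem_nhds (hball X))).differentiableAt (by simp))
  have hGd : DifferentiableAt ℝ G X := by
    have := hgd.hasFDerivAt.comp X hAe
    exact this.differentiableAt
  have hg'd : DifferentiableAt ℝ g' (G X) :=
    ((hg.smooth'.contDiffAt (hg.isOpen.mem_nhds hGX)).differentiableAt (by simp))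
  have hcomp : (fun X => g' (G X)) = fun X => s • A (e X) := by
    funext Y
    exact hg.left _ (hball Y)
  have hD : fderiv ℝ g' (G X) (fderiv ℝ G X v) = s • A (fderiv ℝ e X v) := by
    have h1 : HasFDerivAt (fun X => g' (G X)) ((fderiv ℝ g' (G X)).comp (fderiv ℝ G X)) X :=
      hg'd.hasFDerivAt.comp X hGd.hasFDerivAt
    rw [hcomp] at h1
    have h2 := h1.unique hAe
    have h3 := congrArg (fun L : Vec m →L[ℝ] Vec m => L v) h2
    simpa using h3
  rw [hD, map_smul, A.symm_apply_apply, norm_smul, Real.norm_eq_abs, mul_pow, sq_abs]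
  ring

end EscW.Dn
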