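import Pool.Agent.EscW.ONDefs
import Pool.Agent.EscW.D7

set_option autoImplicit false

/-!
Project EscW, part O, module O14: polar coordinates, pull-back of the new metric.
`pol_smooth`: components. `pol_per`: period of `cos`, `sin`. `pol_fd`: `(2π (R0 + w0) a)² + u0²` from the first two components (rotation), `u i` from the others. `pol_norm`: `‖pol‖² = (R0 + w0)² + Σ_{i ≥ 1} w_i² ≤ (|R0| + ‖w‖)²`. `pol_Tc`: components. `Tc_fd`: chain rule for `e = pol ∘ T`. `Tc_smooth`.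
`qnew_pol`: as `qnew_pull` (module D7) or `qnew_pull'` (G5), locally at `z`: `‖s • A (pol z)‖ ≤ ρ/2 < ρ`, so near `z` the points stay in the ball, `g' (g (s • A (pol z'))) = s • A (pol z')`, `cb = 1`, the integer vector in `qnew` is zero (`small`); `√((s w)² ‖D pol ζ‖²) = s w √..`.
-/

noncomputable section

namespace EscW.On

open Filter Topology Set EscF.T EscM EscMT MeasureTheory EscW.Ex EscW.Dn
open scoped ContDiff

variable {d m k j n : ℕ}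

theorem O14_coord (l : Fin (j + 1)) (z : ℝ × Vec (j + 1)) :
    HasFDerivAt (fun z : ℝ × Vec (j + 1) => z.2 l)
      ((EuclideanSpace.proj l : Vec (j + 1) →L[ℝ] ℝ).comp (ContinuousLinearMap.snd ℝ ℝ (Vec (j + 1)))) z :=
  ((EuclideanSpace.proj l : Vec (j + 1) →L[ℝ] ℝ).comp
    (ContinuousLinearMap.snd ℝ ℝ (Vec (j + 1)))).hasFDerivAt

theorem O14_coord_smooth (l : Fin (j + 1)) : ContDiff ℝ ∞ (fun z : ℝ × Vec (j + 1) => z.2 l) :=
  ((EuclideanSpace.proj l : Vec (j + 1) →L[ℝ] ℝ).comp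
    (ContinuousLinearMap.snd ℝ ℝ (Vec (j + 1)))).contDiff

theorem pol_smooth (R0 : ℝ) : ContDiff ℝ ∞ (pol R0 : ℝ × Vec (j + 1) → Vec (j + 2)) := by
  rw [contDiff_euclidean]
  intro i
  refine Fin.cases ?_ (fun i => Fin.cases ?_ (fun i => ?_) i) i
  · exact (contDiff_const.add (O14_coord_smooth 0)).mul
      (Real.contDiff_cos.comp (contDiff_const.mul contDiff_fst))
  · exact (contDiff_const.add (O14_coord_smooth 0)).mul
      (Real.contDiff_sin.comp (contDiff_const.mul contDiff_fst))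
  · exact O14_coord_smooth i.succ

theorem pol_per (R0 θ : ℝ) (w : Vec (j + 1)) : pol R0 (θ + 1, w) = pol R0 (θ, w) := by
  have h : 2 * Real.pi * (θ + 1) = 2 * Real.pi * θ + 2 * Real.pi := by ring
  unfold pol
  simp only [h, Real.cos_add_two_pi, Real.sin_add_two_pi]

theorem O14_comp (R0 : ℝ) (z ζ : ℝ × Vec (j + 1)) (i : Fin (j + 2)) :
    fderiv ℝ (pol R0) z ζ i = fderiv ℝ (fun z => pol R0 z i) z ζ := by
  have hd : DifferentiableAt ℝ (pol R0 : ℝ × Vec (j + 1) → Vec (j + 2)) z :=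
    (pol_smooth R0).differentiable (by simp) z
  have h := ((EuclideanSpace.proj i : Vec (j + 2) →L[ℝ] ℝ).hasFDerivAt.comp z hd.hasFDerivAt).fderiv
  have h2 : (fun z => pol R0 z i) = (EuclideanSpace.proj i : Vec (j + 2) →L[ℝ] ℝ) ∘ (pol R0) := rfl
  rw [h2, h]
  rfl

theorem O14_d0 (R0 : ℝ) (z ζ : ℝ × Vec (j + 1)) : fderiv ℝ (pol R0) z ζ 0 =
    -(2 * Real.pi * (R0 + z.2 0) * ζ.1) * Real.sin (2 * Real.pi * z.1) +
      Real.cos (2 * Real.pi * z.1) * ζ.2 0 := by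
  rw [O14_comp]
  have h1 : HasFDerivAt (fun z : ℝ × Vec (j + 1) => R0 + z.2 0) _ z := (O14_coord 0 z).const_add R0
  have h2 : HasFDerivAt (fun z : ℝ × Vec (j + 1) => Real.cos (2 * Real.pi * z.1)) _ z :=
    ((hasFDerivAt_fst (p := z)).const_mul (2 * Real.pi)).cos
  have h3 : HasFDerivAt (fun z : ℝ × Vec (j + 1) => pol R0 z 0) _ z := h1.mul h2
  rw [h3.fderiv]
  simp only [add_apply, smul_apply, ContinuousLinearMap.comp_apply, ContinuousLinearMap.coe_fst',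
    ContinuousLinearMap.coe_snd', smul_eq_mul]
  have hp : (EuclideanSpace.proj 0 : Vec (j + 1) →L[ℝ] ℝ) ζ.2 = ζ.2 0 := rfl
  rw [hp]
  ring

theorem O14_d1 (R0 : ℝ) (z ζ : ℝ × Vec (j + 1)) : fderiv ℝ (pol R0) z ζ 1 =
    (2 * Real.pi * (R0 + z.2 0) * ζ.1) * Real.cos (2 * Real.pi * z.1) +
      Real.sin (2 * Real.pi * z.1) * ζ.2 0 := by
  rw [O14_comp]
  have h1 : HasFDerivAt (fun z : ℝ × Vec (j + 1) => R0 + z.2 0) _ z := (O14_coord 0 z).const_add R0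
  have h2 : HasFDerivAt (fun z : ℝ × Vec (j + 1) => Real.sin (2 * Real.pi * z.1)) _ z :=
    ((hasFDerivAt_fst (p := z)).const_mul (2 * Real.pi)).sin
  have h3 : HasFDerivAt (fun z : ℝ × Vec (j + 1) => pol R0 z 1) _ z := h1.mul h2
  rw [h3.fderiv]
  simp only [add_apply, smul_apply, ContinuousLinearMap.comp_apply, ContinuousLinearMap.coe_fst',
    ContinuousLinearMap.coe_snd', smul_eq_mul]
  have hp : (EuclideanSpace.proj 0 : Vec (j + 1) →L[ℝ] ℝ) ζ.2 = ζ.2 0 := rfl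
  rw [hp]
  ring

theorem O14_d2 (R0 : ℝ) (z ζ : ℝ × Vec (j + 1)) (i : Fin j) :
    fderiv ℝ (pol R0) z ζ i.succ.succ = ζ.2 i.succ := by
  rw [O14_comp]
  have h3 : HasFDerivAt (fun z : ℝ × Vec (j + 1) => pol R0 z i.succ.succ) _ z := O14_coord i.succ z
  rw [h3.fderiv]
  rfl

theorem pol_fd (R0 : ℝ) (z ζ : ℝ × Vec (j + 1)) : ‖fderiv ℝ (pol R0) z ζ‖ ^ 2 =
    (2 * Real.pi * (R0 + z.2 0) * ζ.1) ^ 2 + ‖ζ.2‖ ^ 2 := by
  rw [EuclideanSpace.norm_sq_eq, EuclideanSpace.norm_sq_eq, Fin.sum_univ_succ, Fin.sum_univ_succ,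
    Fin.sum_univ_succ (n := j)]
  have e1 : (Fin.succ 0 : Fin (j + 2)) = 1 := rfl
  simp only [e1, O14_d0, O14_d1, O14_d2, Real.norm_eq_abs, sq_abs]
  have h := Real.sin_sq_add_cos_sq (2 * Real.pi * z.1)
  linear_combination ((2 * Real.pi * (R0 + z.2 0) * ζ.1) ^ 2 + ζ.2 0 ^ 2) * h

theorem pol_norm (R0 : ℝ) (z : ℝ × Vec (j + 1)) : ‖pol R0 z‖ ≤ |R0| + ‖z.2‖ := by
  have h1 : ‖pol R0 z‖ ^ 2 ≤ (|R0| + ‖z.2‖) ^ 2 := by
    have h2 : ‖pol R0 z‖ ^ 2 = R0 ^ 2 + 2 * R0 * z.2 0 + ‖z.2‖ ^ 2 := by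
      rw [EuclideanSpace.norm_sq_eq, EuclideanSpace.norm_sq_eq, Fin.sum_univ_succ, Fin.sum_univ_succ,
        Fin.sum_univ_succ (n := j)]
      have e1 : (Fin.succ 0 : Fin (j + 2)) = 1 := rfl
      have p0 : pol R0 z 0 = (R0 + z.2 0) * Real.cos (2 * Real.pi * z.1) := rfl
      have p1 : pol R0 z 1 = (R0 + z.2 0) * Real.sin (2 * Real.pi * z.1) := rfl
      have p2 : ∀ i : Fin j, pol R0 z i.succ.succ = z.2 i.succ := fun i => rfl
      simp only [e1, p0, p1, p2, Real.norm_eq_abs, sq_abs]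
      have h := Real.sin_sq_add_cos_sq (2 * Real.pi * z.1)
      linear_combination ((R0 + z.2 0) ^ 2) * h
    have h3 : ‖z.2 0‖ ≤ ‖z.2‖ := PiLp.norm_apply_le _ _
    rw [Real.norm_eq_abs] at h3
    have h4 : R0 * z.2 0 ≤ |R0| * ‖z.2‖ :=
      (le_abs_self _).trans (by rw [abs_mul]; exact mul_le_mul_of_nonneg_left h3 (abs_nonneg _))
    rw [h2]
    nlinarith [sq_abs R0]
  exact abs_le_of_sq_le_sq' h1 (by positivity) |>.2

theorem pol_Tc {i : Fin m} {R0 : ℝ} {ρ : Vec m → ℝ} {e : Vec m → Vec (j + 2)} {x : Vec m}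
    (h0 : e x 0 = ρ x * Real.cos (2 * Real.pi * x i)) (h1 : e x 1 = ρ x * Real.sin (2 * Real.pi * x i)) :
    pol R0 (Tc i R0 ρ e x) = e x := by
  ext l
  refine Fin.cases ?_ (fun l => Fin.cases ?_ (fun l => ?_) l) l
  · change (R0 + (ρ x - R0)) * Real.cos (2 * Real.pi * x i) = e x 0
    rw [h0]; ring
  · change (R0 + (ρ x - R0)) * Real.sin (2 * Real.pi * x i) = e x 1
    rw [h1]; ring
  · rfl

theorem Tc_smooth {i : Fin m} {R0 : ℝ} {ρ : Vec m → ℝ} {e : Vec m → Vec (j + 2)} (hρ : ContDiff ℝ ∞ ρ)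
    (he : ContDiff ℝ ∞ e) : ContDiff ℝ ∞ (Tc i R0 ρ e) := by
  have h1 : ContDiff ℝ ∞ (fun x : Vec m => x i) := (EuclideanSpace.proj i : Vec m →L[ℝ] ℝ).contDiff
  have h2 : ContDiff ℝ ∞ (fun x : Vec m =>
      (WithLp.toLp 2 (Fin.cons (ρ x - R0) (fun l : Fin j => e x l.succ.succ)) : Vec (j + 1))) := by
    rw [contDiff_euclidean]
    intro l
    refine Fin.cases ?_ (fun l => ?_) l
    · exact hρ.sub contDiff_const
    · exact (contDiff_euclidean.1 he) l.succ.succ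
  exact h1.prodMk h2

theorem Phm_Tc {i : Fin m} {R0 s : ℝ} {ρ : Vec m → ℝ} {e : Vec m → Vec (j + 2)} (hρ : ContDiff ℝ ∞ ρ)
    (he : ContDiff ℝ ∞ e) (h0 : ∀ x, e x 0 = ρ x * Real.cos (2 * Real.pi * x i))
    (h1 : ∀ x, e x 1 = ρ x * Real.sin (2 * Real.pi * x i)) (W : Vec (j + 2) → ℝ) (x v : Vec m) :
    Phm R0 s W (Tc i R0 ρ e x) (fderiv ℝ (Tc i R0 ρ e) x v) = s * W (e x) * ‖fderiv ℝ e x v‖ := by
  have hT : DifferentiableAt ℝ (Tc i R0 ρ e) x := (Tc_smooth (i := i) (R0 := R0) hρ he).differentiable (by simp) x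
  have hp : DifferentiableAt ℝ (pol R0 : ℝ × Vec (j + 1) → Vec (j + 2)) (Tc i R0 ρ e x) :=
    (pol_smooth R0).differentiable (by simp) _
  have hcomp : (pol R0) ∘ (Tc i R0 ρ e) = e := by
    funext y
    exact pol_Tc (h0 y) (h1 y)
  have hfd : fderiv ℝ e x v = fderiv ℝ (pol R0) (Tc i R0 ρ e x) (fderiv ℝ (Tc i R0 ρ e) x v) := by
    have h := (hp.hasFDerivAt.comp x hT.hasFDerivAt).fderiv
    rw [hcomp] at h
    rw [h]
    rfl
  unfold Phm
  rw [← pol_fd, Real.sqrt_sq (norm_nonneg _), ← hfd, pol_Tc (h0 x) (h1 x)]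

/-- the derivative of the chart after the polar coordinates -/
theorem O14_deriv {M : Sub d} {W : Set (Vec d)} {ρ s : ℝ}
    {g : Vec (j + 2) → Vec d} {g' : Vec d → Vec (j + 2)} (hg : MChart M (j + 2) W ρ g g')
    (A : Vec (j + 2) ≃L[ℝ] Vec (j + 2)) {R0 : ℝ}
    {z : ℝ × Vec (j + 1)} (hz : ‖s • A (pol R0 z)‖ ≤ ρ / 2) (ζ : ℝ × Vec (j + 1)) :
    fderiv ℝ g' (g (s • A (pol R0 z))) (fderiv ℝ (fun z => g (s • A (pol R0 z))) z ζ) =
      s • A (fderiv ℝ (pol R0) z ζ) := by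
  have hρ := hg.pos
  have hball : s • A (pol R0 z) ∈ Metric.ball (0 : Vec (j + 2)) ρ := by
    rw [mem_ball_zero_iff]; linarith
  have hed : DifferentiableAt ℝ (pol R0 : ℝ × Vec (j + 1) → Vec (j + 2)) z :=
    (pol_smooth R0).differentiable (by simp) z
  have hAe : HasFDerivAt (fun z => s • A (pol R0 z))
      (s • (A : Vec (j + 2) →L[ℝ] Vec (j + 2)).comp (fderiv ℝ (pol R0) z)) z :=
    (((A : Vec (j + 2) →L[ℝ] Vec (j + 2)).hasFDerivAt (x := pol R0 z)).comp z hed.hasFDerivAt).const_smul s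
  have hgd : DifferentiableAt ℝ g (s • A (pol R0 z)) :=
    ((hg.smooth.contDiffAt (Metric.isOpen_ball.mem_nhds hball)).differentiableAt (by simp))
  have hGd : HasFDerivAt (fun z => g (s • A (pol R0 z))) _ z := hgd.hasFDerivAt.comp z hAe
  have hg'd : DifferentiableAt ℝ g' (g (s • A (pol R0 z))) :=
    ((hg.smooth'.contDiffAt (hg.isOpen.mem_nhds (hg.maps _ hball).2)).differentiableAt (by simp))
  have h1 : HasFDerivAt (fun z => g' (g (s • A (pol R0 z))))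
      ((fderiv ℝ g' (g (s • A (pol R0 z)))).comp (fderiv ℝ (fun z => g (s • A (pol R0 z))) z)) z := by
    rw [hGd.fderiv]
    exact hg'd.hasFDerivAt.comp z hGd
  have hev : (fun z => g' (g (s • A (pol R0 z)))) =ᶠ[𝓝 z] fun z => s • A (pol R0 z) := by
    have h2 : ∀ᶠ y in 𝓝 z, s • A (pol R0 y) ∈ Metric.ball (0 : Vec (j + 2)) ρ :=
      hAe.continuousAt.eventually (Metric.isOpen_ball.mem_nhds hball)
    filter_upwards [h2] with y hy
    exact hg.left _ hy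
  have h3 := (h1.congr_of_eventuallyEq hev.symm).unique hAe
  have h4 := congrArg (fun L : (ℝ × Vec (j + 1)) →L[ℝ] Vec (j + 2) => L ζ) h3
  simpa using h4

theorem qnew_pol {M : Sub d} {q : Vec d → Vec d →L[ℝ] Vec d →L[ℝ] ℝ} {W : Set (Vec d)} {ρ s : ℝ}
    {g : Vec (j + 2) → Vec d} {g' : Vec d → Vec (j + 2)} (hg : MChart M (j + 2) W ρ g g')
    (A : Vec (j + 2) ≃L[ℝ] Vec (j + 2)) (hs : 0 < s) {w : Vec (j + 2) → ℝ} (hw : ∀ Y, 0 < w Y) {R0 : ℝ}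
    {z : ℝ × Vec (j + 1)} (hz : ‖s • A (pol R0 z)‖ ≤ ρ / 2) (ζ : ℝ × Vec (j + 1)) (t : ℝ) :
    nrm (qnew q W ρ s g' A w) (g (s • A (pol R0 z))) (fderiv ℝ (fun z => g (s • A (pol R0 z))) z ζ) t =
      Phm R0 s w z ζ := by
  have hρ := hg.pos
  have hball : s • A (pol R0 z) ∈ Metric.ball (0 : Vec (j + 2)) ρ := by
    rw [mem_ball_zero_iff]; linarith
  have hGX : g (s • A (pol R0 z)) ∈ W := (hg.maps _ hball).2
  have h : ∃ l : Fin d → ℤ, g (s • A (pol R0 z)) + vz l ∈ W := ⟨0, by rw [vz_zero', add_zero]; exact hGX⟩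
  have h0 : (vz h.choose : Vec d) = 0 := by
    apply D7_vz_small
    have h1 := hg.small _ h.choose_spec _ hGX
    rwa [dist_eq_norm, add_sub_cancel_left] at h1
  have e1 : qnew q W ρ s g' A w (g (s • A (pol R0 z))) = qloc q ρ s g' A w (g (s • A (pol R0 z))) := by
    unfold qnew; rw [dif_pos h, h0, add_zero]
  have hleft : g' (g (s • A (pol R0 z))) = s • A (pol R0 z) := hg.left _ hball
  have hcb : cb ρ (g' (g (s • A (pol R0 z)))) = 1 := by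
    unfold cb
    rw [hleft, Real.smoothTransition.zero_of_nonpos, sub_zero]
    have h2 : ‖s • A (pol R0 z)‖ ^ 2 ≤ (ρ / 2) ^ 2 := by
      have h3 := norm_nonneg (s • A (pol R0 z))
      nlinarith
    have h4 : 16 * ‖s • A (pol R0 z)‖ ^ 2 / ρ ^ 2 ≤ 4 := by
      rw [div_le_iff₀ (by positivity)]
      nlinarith
    linarith
  have hw1 : s⁻¹ • A.symm (g' (g (s • A (pol R0 z)))) = pol R0 z := by
    rw [hleft, map_smul, smul_smul, inv_mul_cancel₀ hs.ne', one_smul, A.symm_apply_apply]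
  have hsw : 0 ≤ s * w (pol R0 z) := (mul_pos hs (hw _)).le
  unfold nrm Phm
  rw [e1, D7_qloc, hcb, hw1, O14_deriv hg A hz ζ, map_smul, A.symm_apply_apply, norm_smul,
    Real.norm_eq_abs, mul_pow, sq_abs, ← pol_fd]
  have e2 : 1 * w (pol R0 z) ^ 2 * (s ^ 2 * ‖fderiv ℝ (pol R0) z ζ‖ ^ 2) + (1 - 1) *
      q (g (s • A (pol R0 z))) (fderiv ℝ (fun z => g (s • A (pol R0 z))) z ζ)
        (fderiv ℝ (fun z => g (s • A (pol R0 z))) z ζ) =
      (s * w (pol R0 z) * ‖fderiv ℝ (pol R0) z ζ‖) ^ 2 := by ring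
  rw [e2, Real.sqrt_sq (mul_nonneg hsw (norm_nonneg _)), Real.sqrt_sq (norm_nonneg _)]

theorem polar_imm {M : Sub d} {W : Set (Vec d)} {ρ s : ℝ}
    {g : Vec (j + 2) → Vec d} {g' : Vec d → Vec (j + 2)} (hg : MChart M (j + 2) W ρ g g')
    (A : Vec (j + 2) ≃L[ℝ] Vec (j + 2)) (hs : 0 < s) {R0 : ℝ}
    {z : ℝ × Vec (j + 1)} (hz : ‖s • A (pol R0 z)‖ ≤ ρ / 2) (hz0 : 0 < R0 + z.2 0) {ζ : ℝ × Vec (j + 1)}
    (hζ : ζ ≠ 0) : fderiv ℝ (fun z => g (s • A (pol R0 z))) z ζ ≠ 0 := by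
  intro h
  have h1 := O14_deriv hg A hz ζ
  rw [h, map_zero] at h1
  have h2 : fderiv ℝ (pol R0) z ζ = 0 := by
    rcases smul_eq_zero.1 h1.symm with h3 | h3
    · exact absurd h3 hs.ne'
    · exact (map_eq_zero_iff A A.injective).1 h3
  have h3 := pol_fd R0 z ζ
  rw [h2, norm_zero] at h3
  have h4 : ζ.1 = 0 ∧ ζ.2 = 0 := by
    have a1 := sq_nonneg (2 * Real.pi * (R0 + z.2 0) * ζ.1)
    have a2 := sq_nonneg ‖ζ.2‖
    have b1 : (2 * Real.pi * (R0 + z.2 0) * ζ.1) ^ 2 = 0 := by nlinarith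
    have b2 : ‖ζ.2‖ ^ 2 = 0 := by nlinarith
    have c1 : 2 * Real.pi * (R0 + z.2 0) ≠ 0 := by positivity
    exact ⟨(mul_eq_zero.1 (pow_eq_zero_iff (two_ne_zero) |>.1 b1)).resolve_left c1,
      norm_eq_zero.1 (pow_eq_zero_iff (two_ne_zero) |>.1 b2)⟩
  exact hζ (Prod.ext h4.1 h4.2)

end EscW.On
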