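import Pool.Agent.EscW.CF3
import Pool.Agent.EscW.O14

set_option autoImplicit false

/-!
Project EscW, part O, conformal version, module CF4: metrics near the conformal model, in annular coordinates.
`Phm R0 1 W z ζ = W (pol R0 z) * ‖fderiv (pol R0) z ζ‖` (`pol_fd`, `√(x²)`). `‖pol R0 z‖ ≤ 3` on `𝒜` (`pol_norm`). `hom`, `per` (`pol_per`, derivative of a periodic function), `cont` (`NearE.smooth` is continuous on `{‖Y‖ < 21}`): clear. `c0`: `abs_near` with `Y = pol R0 z`, `v = fderiv (pol R0) z ζ`, times `W > 0`.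
`smooth`, `c1`, `c2`: on `LD`: `lg (PhQ) - lg (Phm) = W (pol (θ, w)) * f (Ξ (θ, w, u))`, `f (Y, v) = √(Q Y v) - ‖v‖`, `Ξ = (pol (θ, w), fderiv pol (θ, w) (1, u))` smooth, `‖Ξ.1‖ ≤ 3`, `π ≤ ‖Ξ.2‖ ≤ 20` (`pol_fd`: `‖Ξ.2‖² = (2π (R0 + w0))² + |u|²`, `1/2 ≤ R0 + w0 ≤ 5/2`), derivatives of `Ξ` and of
`W ∘ pol` of order `≤ 2` bounded (period one in `θ`, `‖w‖, ‖u‖ ≤ 1/2`, compactness). `sqrt_near` with `v0 = 1` or `3`, then `norm_iteratedFDeriv_comp_le` and `norm_iteratedFDeriv_mul_le` (or within an open set; or the chain rule for `fderiv` by hand). `smooth`: `Q > 0` near the points, `Real.contDiffAt_sqrt`.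
-/

noncomputable section

namespace EscW.On

open Filter Topology Set EscF.T EscM EscMT MeasureTheory EscW.Ex EscW.Dn
open scoped ContDiff

variable {d m k j n : ℕ}

theorem CF4_two : (2 : WithTop ℕ∞) ≤ ∞ := by norm_cast

theorem CF4_three : (2 : WithTop ℕ∞) + 1 ≤ ∞ := by
  have h : (2 : WithTop ℕ∞) + 1 = ((3 : ℕ∞) : WithTop ℕ∞) := by norm_num
  rw [h]
  exact WithTop.coe_le_coe.2 le_top

/-- a continuous function which has period one in the first variable is bounded -/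
theorem CF4_bd {V F : Type*} [NormedAddCommGroup V] [ProperSpace V] [NormedAddCommGroup F]
    {g : ℝ × V → F} (hg : Continuous g) (hp : ∀ θ v, g (θ + 1, v) = g (θ, v)) (R : ℝ) :
    ∃ B : ℝ, ∀ y : ℝ × V, ‖y.2‖ ≤ R → ‖g y‖ ≤ B := by
  have hK : IsCompact (Icc (0:ℝ) 1 ×ˢ Metric.closedBall (0 : V) R) :=
    isCompact_Icc.prod (isCompact_closedBall _ _)
  obtain ⟨B, hB⟩ := hK.exists_bound_of_continuousOn hg.continuousOn
  refine ⟨B, fun y hy => ?_⟩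
  obtain ⟨θ, v⟩ := y
  have hper : Function.Periodic (fun θ => g (θ, v)) 1 := fun θ => hp θ v
  obtain ⟨θ', hθ', he⟩ := hper.exists_mem_Ico₀ one_pos θ
  have he' : g (θ, v) = g (θ', v) := he
  rw [he']
  exact hB (θ', v) ⟨⟨hθ'.1, hθ'.2.le⟩, by simpa using hy⟩

theorem CF4_bdd {V F : Type*} [NormedAddCommGroup V] [NormedSpace ℝ V] [ProperSpace V]
    [NormedAddCommGroup F] [NormedSpace ℝ F] {g : ℝ × V → F} (hg : ContDiff ℝ 2 g)
    (hp : ∀ θ v, g (θ + 1, v) = g (θ, v)) (R : ℝ) :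
    ∃ B : ℝ, 1 ≤ B ∧ ∀ y : ℝ × V, ‖y.2‖ ≤ R → ∀ i : ℕ, i ≤ 2 → ‖iteratedFDeriv ℝ i g y‖ ≤ B := by
  have h : ∀ i : ℕ, i ≤ 2 → ∃ B, ∀ y : ℝ × V, ‖y.2‖ ≤ R → ‖iteratedFDeriv ℝ i g y‖ ≤ B := by
    intro i hi
    refine CF4_bd (hg.continuous_iteratedFDeriv (by exact_mod_cast hi)) ?_ R
    intro θ v
    have h1 : (fun z => g (z + ((1:ℝ), (0:V)))) = g := by
      funext z
      obtain ⟨a, b⟩ := z
      simp [hp]
    have h2 := iteratedFDeriv_comp_add_right (𝕜 := ℝ) (f := g) i ((1:ℝ), (0:V)) (θ, v)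
    rw [h1] at h2
    simpa using h2.symm
  obtain ⟨B0, h0⟩ := h 0 (by norm_num)
  obtain ⟨B1, h1⟩ := h 1 (by norm_num)
  obtain ⟨B2, h2⟩ := h 2 le_rfl
  refine ⟨max 1 (max B0 (max B1 B2)), le_max_left _ _, ?_⟩
  intro y hy i hi
  interval_cases i
  · exact (h0 y hy).trans ((le_max_left _ _).trans (le_max_right _ _))
  · exact (h1 y hy).trans ((le_max_left _ _).trans ((le_max_right _ _).trans (le_max_right _ _)))
  · exact (h2 y hy).trans ((le_max_right _ _).trans ((le_max_right _ _).trans (le_max_right _ _)))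

theorem CF4_comp {E F : Type*} [NormedAddCommGroup E] [NormedSpace ℝ E] [NormedAddCommGroup F]
    [NormedSpace ℝ F] {s : Set E} {t : Set F} (hs : IsOpen s) (ht : IsOpen t)
    {g0 : E → ℝ} {Ξ : E → F} {f : F → ℝ} (hω : ContDiff ℝ 2 g0) (hΞ : ContDiff ℝ 2 Ξ)
    (hf : ContDiffOn ℝ 2 f t) (hst : MapsTo Ξ s t) {B D C : ℝ} (hC0 : 0 ≤ C)
    (hB : ∀ y ∈ s, ∀ i : ℕ, i ≤ 2 → ‖iteratedFDeriv ℝ i g0 y‖ ≤ B) (hD1 : 1 ≤ D)
    (hD : ∀ y ∈ s, ∀ i : ℕ, i ≤ 2 → ‖iteratedFDeriv ℝ i Ξ y‖ ≤ D)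
    (hC : ∀ p ∈ t, ∀ i : ℕ, i ≤ 2 → ‖iteratedFDeriv ℝ i f p‖ ≤ C) {y : E} (hy : y ∈ s) {n : ℕ}
    (hn : n ≤ 2) : ‖iteratedFDeriv ℝ n (fun y => g0 y * f (Ξ y)) y‖ ≤ 4 * (B * (2 * C * D ^ 2)) := by
  have hB0 : 0 ≤ B := (norm_nonneg _).trans (hB y hy 0 (by norm_num))
  have hcomp : ∀ l : ℕ, l ≤ 2 → ‖iteratedFDerivWithin ℝ l (f ∘ Ξ) s y‖ ≤ 2 * C * D ^ 2 := by
    intro l hl
    have h1 := norm_iteratedFDerivWithin_comp_le (𝕜 := ℝ) (n := l) (N := 2) hf hΞ.contDiffOn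
      (by exact_mod_cast hl) ht.uniqueDiffOn hs.uniqueDiffOn hst hy (C := C) (D := D)
      (fun i hi => by
        rw [iteratedFDerivWithin_of_isOpen i ht (hst hy)]
        exact hC _ (hst hy) i (hi.trans hl))
      (fun i hi1 hi => by
        rw [iteratedFDerivWithin_of_isOpen i hs hy]
        exact (hD y hy i (hi.trans hl)).trans (le_self_pow₀ hD1 (by omega)))
    refine h1.trans ?_
    have h2 : (l.factorial : ℝ) ≤ 2 := by
      interval_cases l <;> norm_num [Nat.factorial]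
    have h3 : D ^ l ≤ D ^ 2 := pow_le_pow_right₀ hD1 hl
    have h4 : 0 ≤ D ^ l := by positivity
    calc (l.factorial : ℝ) * C * D ^ l ≤ 2 * C * D ^ l := by gcongr
      _ ≤ 2 * C * D ^ 2 := by gcongr
  have hcomp0 : 0 ≤ 2 * C * D ^ 2 := by positivity
  have hfΞ : ContDiffOn ℝ 2 (f ∘ Ξ) s := hf.comp hΞ.contDiffOn hst
  rw [← iteratedFDerivWithin_of_isOpen n hs hy]
  have h1 := norm_iteratedFDerivWithin_mul_le (𝕜 := ℝ) (N := 2) (n := n) hω.contDiffOn hfΞ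
    hs.uniqueDiffOn hy (by exact_mod_cast hn)
  refine h1.trans ?_
  have h2 : ∀ i ∈ Finset.range (n + 1), (n.choose i : ℝ) * ‖iteratedFDerivWithin ℝ i g0 s y‖ *
      ‖iteratedFDerivWithin ℝ (n - i) (f ∘ Ξ) s y‖ ≤ (n.choose i : ℝ) * (B * (2 * C * D ^ 2)) := by
    intro i hi
    have hi' : i ≤ n := by
      have := Finset.mem_range.1 hi
      omega
    rw [mul_assoc]
    refine mul_le_mul_of_nonneg_left ?_ (by positivity)
    refine mul_le_mul ?_ (hcomp _ (by omega)) (norm_nonneg _) hB0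
    rw [iteratedFDerivWithin_of_isOpen i hs hy]
    exact hB y hy i (hi'.trans hn)
  refine (Finset.sum_le_sum h2).trans ?_
  rw [← Finset.sum_mul]
  refine mul_le_mul_of_nonneg_right ?_ (by positivity)
  have h3 : (∑ i ∈ Finset.range (n + 1), (n.choose i : ℝ)) = 2 ^ n := by
    exact_mod_cast Nat.sum_range_choose n
  rw [h3]
  calc (2:ℝ) ^ n ≤ 2 ^ 2 := pow_le_pow_right₀ (by norm_num) hn
    _ = 4 := by norm_num

theorem CF4_Phm (R0 : ℝ) (W : Vec (j + 2) → ℝ) (z ζ : ℝ × Vec (j + 1)) :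
    Phm R0 1 W z ζ = W (pol R0 z) * ‖fderiv ℝ (pol R0) z ζ‖ := by
  unfold Phm
  rw [← pol_fd, Real.sqrt_sq (norm_nonneg _), one_mul]

/-- `(θ, w, u) ↦ (pol (θ, w), D pol (θ, w) (1, u))` -/
def CF4_Xi (R0 : ℝ) (y : ℝ × Vec (j + 1) × Vec (j + 1)) : Vec (j + 2) × Vec (j + 2) :=
  (pol R0 (y.1, y.2.1), fderiv ℝ (pol R0) (y.1, y.2.1) (1, y.2.2))

theorem CF4_Xi_smooth (R0 : ℝ) : ContDiff ℝ 2 (CF4_Xi R0 : ℝ × Vec (j + 1) × Vec (j + 1) → _) := by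
  have h1 : ContDiff ℝ 2 (fun y : ℝ × Vec (j + 1) × Vec (j + 1) => (y.1, y.2.1)) :=
    contDiff_fst.prodMk (contDiff_fst.comp contDiff_snd)
  have h2 : ContDiff ℝ 2 (fderiv ℝ (pol R0 : ℝ × Vec (j + 1) → Vec (j + 2))) :=
    ((pol_smooth R0).fderiv_right (m := 2) CF4_three)
  have h3 : ContDiff ℝ 2 (fun y : ℝ × Vec (j + 1) × Vec (j + 1) => ((1:ℝ), y.2.2)) :=
    contDiff_const.prodMk (contDiff_snd.comp contDiff_snd)
  exact (((pol_smooth R0).of_le CF4_two).comp h1).prodMk ((h2.comp h1).clm_apply h3)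

theorem CF4_fd_per (R0 θ : ℝ) (w : Vec (j + 1)) :
    fderiv ℝ (pol R0) (θ + 1, w) = fderiv ℝ (pol R0) (θ, w) := by
  have h1 : (fun z : ℝ × Vec (j + 1) => pol R0 (z + ((1:ℝ), (0 : Vec (j + 1))))) = pol R0 := by
    funext z
    obtain ⟨a, b⟩ := z
    simp [pol_per]
  have h2 := fderiv_comp_add_right (𝕜 := ℝ) (f := pol R0) (x := (θ, w)) ((1:ℝ), (0 : Vec (j + 1)))
  rw [h1] at h2
  simpa using h2.symm

theorem CF4_Xi_per (R0 θ : ℝ) (v : Vec (j + 1) × Vec (j + 1)) :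
    CF4_Xi R0 (θ + 1, v) = CF4_Xi R0 (θ, v) := by
  unfold CF4_Xi
  rw [pol_per, CF4_fd_per]

theorem CF4_Xi_maps {R0 r : ℝ} (hR : 1 ≤ R0) (hR2 : R0 ≤ 2) (hr2 : r ≤ 1 / 2) :
    MapsTo (CF4_Xi R0) (LD (j + 1) r)
      {p : Vec (j + 2) × Vec (j + 2) | ‖p.1‖ < 20 ∧ ‖p.2‖ < 20 ∧ 1 < ‖p.2‖} := by
  rintro ⟨θ, w, u⟩ ⟨hw, hu⟩
  simp only at hw hu
  have hw0 : |w 0| ≤ ‖w‖ := by
    have := PiLp.norm_apply_le w 0
    simpa using this
  have h0 := abs_le.1 hw0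
  have h1 := pol_norm R0 (θ, w)
  simp only at h1
  rw [abs_of_nonneg (by linarith)] at h1
  have h2 := pol_fd R0 (θ, w) ((1:ℝ), u)
  simp only at h2
  have hpi := Real.pi_gt_three
  have hpi2 := Real.pi_lt_d2
  have h3 : 1 / 2 ≤ R0 + w 0 := by linarith [h0.1]
  have h4 : R0 + w 0 ≤ 5 / 2 := by linarith [h0.2]
  have h5 : 3 ≤ 2 * Real.pi * (R0 + w 0) * 1 := by nlinarith
  have h6 : 2 * Real.pi * (R0 + w 0) * 1 ≤ 16 := by nlinarith
  refine ⟨?_, ?_, ?_⟩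
  · change ‖pol R0 (θ, w)‖ < 20
    linarith
  · change ‖fderiv ℝ (pol R0) (θ, w) ((1:ℝ), u)‖ < 20
    refine lt_of_pow_lt_pow_left₀ 2 (by norm_num) ?_
    rw [h2]
    have h7 : ‖u‖ ^ 2 ≤ 1 := by
      have := norm_nonneg u
      nlinarith
    nlinarith
  · change 1 < ‖fderiv ℝ (pol R0) (θ, w) ((1:ℝ), u)‖
    refine lt_of_pow_lt_pow_left₀ 2 (norm_nonneg _) ?_
    rw [h2]
    have h7 : 0 ≤ ‖u‖ ^ 2 := by positivity
    nlinarith

theorem CF4_LD_open (r : ℝ) : IsOpen (LD (j + 1) r) := by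
  have h1 : IsOpen {y : ℝ × Vec (j + 1) × Vec (j + 1) | ‖y.2.1‖ < r} :=
    isOpen_lt (by fun_prop) continuous_const
  have h2 : IsOpen {y : ℝ × Vec (j + 1) × Vec (j + 1) | ‖y.2.2‖ < r} :=
    isOpen_lt (by fun_prop) continuous_const
  exact h1.inter h2

theorem CF4_t_open : IsOpen {p : Vec (j + 2) × Vec (j + 2) | ‖p.1‖ < 20 ∧ ‖p.2‖ < 20 ∧ 1 < ‖p.2‖} := by
  have h1 : IsOpen {p : Vec (j + 2) × Vec (j + 2) | ‖p.1‖ < 20} :=
    isOpen_lt (by fun_prop) continuous_const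
  have h2 : IsOpen {p : Vec (j + 2) × Vec (j + 2) | ‖p.2‖ < 20} :=
    isOpen_lt (by fun_prop) continuous_const
  have h3 : IsOpen {p : Vec (j + 2) × Vec (j + 2) | 1 < ‖p.2‖} :=
    isOpen_lt continuous_const (by fun_prop)
  exact h1.inter (h2.inter h3)

theorem ann_near_Q {R0 r : ℝ} (hR : 1 ≤ R0) (hR2 : R0 ≤ 2) (hr : 0 < r) (hr2 : r ≤ 1 / 2)
    {W : Vec (j + 2) → ℝ} (hW : ContDiff ℝ 2 W) (hWp : ∀ Y, 0 < W Y) {𝒜 : Set (ℝ × Vec (j + 1))}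
    (hA : ∀ z ∈ 𝒜, ‖z.2‖ ≤ 1) (htube : ∀ θ w, ‖w‖ < r → (θ, w) ∈ 𝒜) {η : ℝ} (hη : 0 < η) :
    ∃ η' : ℝ, 0 < η' ∧ ∀ Q : Vec (j + 2) → Vec (j + 2) → ℝ, NearE Q 20 21 η' →
      AnnNear (Phm R0 1 W) (PhQ R0 W Q) 𝒜 r η := by
  classical
  -- the constants
  obtain ⟨C, η0, hC, hη0, hsq⟩ := sqrt_near (m := j + 2) (b := 20) (b' := 21) (v0 := 1) (by norm_num)
    (by norm_num) one_pos
  have hω : ContDiff ℝ 2 (fun y : ℝ × Vec (j + 1) × Vec (j + 1) => W (pol R0 (y.1, y.2.1))) := by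
    have h1 : ContDiff ℝ 2 (fun y : ℝ × Vec (j + 1) × Vec (j + 1) => (y.1, y.2.1)) :=
      contDiff_fst.prodMk (contDiff_fst.comp contDiff_snd)
    exact hW.comp (((pol_smooth R0).of_le CF4_two).comp h1)
  obtain ⟨B, hB1, hB⟩ := CF4_bdd hω (fun θ v => by simp only [pol_per]) (1 / 2)
  obtain ⟨D, hD1, hD⟩ := CF4_bdd (CF4_Xi_smooth (j := j) R0) (CF4_Xi_per R0) (1 / 2)
  have hLD : ∀ y ∈ LD (j + 1) r, ‖y.2‖ ≤ 1 / 2 := by
    rintro ⟨θ, w, u⟩ ⟨hw, hu⟩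
    rw [Prod.norm_def]
    exact max_le (hw.le.trans hr2) (hu.le.trans hr2)
  have hpolA : ∀ z ∈ 𝒜, ‖pol R0 z‖ ≤ 3 := by
    intro z hz
    have h1 := pol_norm R0 z
    rw [abs_of_nonneg (by linarith)] at h1
    linarith [hA z hz]
  obtain ⟨η', hη', h1, h2, h3, h4⟩ : ∃ η' : ℝ, 0 < η' ∧ η' ≤ 1 ∧ η' ≤ η ∧ η' ≤ η0 ∧
      4 * (B * (2 * (C * η') * D ^ 2)) ≤ η := by
    have hK : 0 < 4 * (B * (2 * C * D ^ 2)) := by positivity
    refine ⟨min (min 1 η) (min η0 (η / (4 * (B * (2 * C * D ^ 2))))), ?_, ?_, ?_, ?_, ?_⟩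
    · exact lt_min (lt_min one_pos hη) (lt_min hη0 (div_pos hη hK))
    · exact (min_le_left _ _).trans (min_le_left _ _)
    · exact (min_le_left _ _).trans (min_le_right _ _)
    · exact (min_le_right _ _).trans (min_le_left _ _)
    · have h5 : min (min 1 η) (min η0 (η / (4 * (B * (2 * C * D ^ 2))))) ≤
          η / (4 * (B * (2 * C * D ^ 2))) := (min_le_right _ _).trans (min_le_right _ _)
      rw [le_div_iff₀ hK] at h5
      linarith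
  refine ⟨η', hη', fun Q hQ => ?_⟩
  have hsQ := hsq Q η' hη'.le h3 hQ
  -- smoothness of the square root
  have hsub : {p : Vec (j + 2) × Vec (j + 2) | ‖p.1‖ < 20 ∧ ‖p.2‖ < 20 ∧ 1 < ‖p.2‖} ⊆
      {p : Vec (j + 2) × Vec (j + 2) | ‖p.1‖ < 21} := fun p hp => by
    have := hp.1
    rw [Set.mem_ofPred_eq]
    linarith
  have hsqrt : ContDiffOn ℝ 2 (fun p : Vec (j + 2) × Vec (j + 2) => √(Q p.1 p.2))
      {p : Vec (j + 2) × Vec (j + 2) | ‖p.1‖ < 20 ∧ ‖p.2‖ < 20 ∧ 1 < ‖p.2‖} :=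
    (hQ.smooth.mono hsub).sqrt fun p hp => ((hsQ p.1 p.2 hp.1.le hp.2.1.le hp.2.2.le).1).ne'
  have hnorm : ContDiffOn ℝ 2 (fun p : Vec (j + 2) × Vec (j + 2) => ‖p.2‖)
      {p : Vec (j + 2) × Vec (j + 2) | ‖p.1‖ < 20 ∧ ‖p.2‖ < 20 ∧ 1 < ‖p.2‖} :=
    (contDiff_snd.contDiffOn).norm ℝ fun p hp => by
      have h5 := hp.2.2
      intro h6
      rw [h6, norm_zero] at h5
      linarith
  have hmaps := CF4_Xi_maps (j := j) hR hR2 hr2
  have hder : ∀ y ∈ LD (j + 1) r, ∀ n : ℕ, n ≤ 2 →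
      ‖iteratedFDeriv ℝ n (fun y => lg (PhQ R0 W Q) y - lg (Phm R0 1 W) y) y‖ ≤ η := by
    intro y hy n hn
    have h5 : (fun y : ℝ × Vec (j + 1) × Vec (j + 1) => lg (PhQ R0 W Q) y - lg (Phm R0 1 W) y) =
        fun y => W (pol R0 (y.1, y.2.1)) *
          (fun p : Vec (j + 2) × Vec (j + 2) => √(Q p.1 p.2) - ‖p.2‖) (CF4_Xi R0 y) := by
      funext y
      unfold lg
      rw [CF4_Phm]
      unfold PhQ CF4_Xi
      simp only
      ring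
    rw [h5]
    have h6 := CF4_comp (CF4_LD_open (j := j) r) (CF4_t_open (j := j)) hω (CF4_Xi_smooth R0)
      (hsqrt.sub hnorm) hmaps (B := B) (D := D) (C := C * η') (by positivity)
      (fun y hy => hB y (hLD y hy)) hD1 (fun y hy => hD y (hLD y hy))
      (fun p hp i hi => (hsQ p.1 p.2 hp.1.le hp.2.1.le hp.2.2.le).2 i hi) hy hn
    exact h6.trans h4
  have hfdc : Continuous (fun p : (ℝ × Vec (j + 1)) × (ℝ × Vec (j + 1)) =>
      fderiv ℝ (pol R0) p.1 p.2) := by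
    have h5 : Continuous (fderiv ℝ (pol R0 : ℝ × Vec (j + 1) → Vec (j + 2))) :=
      (pol_smooth R0).continuous_fderiv (by simp)
    exact (h5.comp continuous_fst).clm_apply continuous_snd
  have hpolc : Continuous (pol R0 : ℝ × Vec (j + 1) → Vec (j + 2)) := (pol_smooth R0).continuous
  refine ⟨?_, ?_, ?_, ?_, ?_, ?_, ?_⟩
  · -- hom
    intro z hz ζ s hs
    unfold PhQ
    rw [map_smul, hQ.hom _ _ _ (by linarith [hpolA z hz]), Real.sqrt_mul (sq_nonneg s),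
      Real.sqrt_sq hs]
    ring
  · -- per
    intro θ w ζ _
    unfold PhQ
    rw [pol_per, CF4_fd_per]
  · -- cont
    unfold PhQ
    refine ContinuousOn.mul ((hW.continuous.comp (hpolc.comp continuous_fst)).continuousOn) ?_
    refine Real.continuous_sqrt.comp_continuousOn ?_
    have h5 : ContinuousOn (fun p : Vec (j + 2) × Vec (j + 2) => Q p.1 p.2) {p | ‖p.1‖ < 21} :=
      hQ.smooth.continuousOn
    refine h5.comp (f := fun p : (ℝ × Vec (j + 1)) × (ℝ × Vec (j + 1)) =>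
      (pol R0 p.1, fderiv ℝ (pol R0) p.1 p.2))
      (((hpolc.comp continuous_fst).prodMk hfdc).continuousOn) ?_
    intro p hp
    have := hpolA p.1 hp
    rw [Set.mem_ofPred_eq]
    linarith
  · -- c0
    intro z hz ζ
    rw [CF4_Phm]
    unfold PhQ
    have h5 := (abs_near (by norm_num : (1:ℝ) ≤ 20) h1 hQ (Y := pol R0 z) (by linarith [hpolA z hz])
      (fderiv ℝ (pol R0) z ζ)).2
    have h6 := hWp (pol R0 z)
    rw [← mul_sub, abs_mul, abs_of_pos h6]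
    calc W (pol R0 z) * |√(Q (pol R0 z) (fderiv ℝ (pol R0) z ζ)) - ‖fderiv ℝ (pol R0) z ζ‖|
        ≤ W (pol R0 z) * (η' * ‖fderiv ℝ (pol R0) z ζ‖) := by gcongr
      _ ≤ W (pol R0 z) * (η * ‖fderiv ℝ (pol R0) z ζ‖) := by gcongr
      _ = η * (W (pol R0 z) * ‖fderiv ℝ (pol R0) z ζ‖) := by ring
  · -- smooth
    have h5 : lg (PhQ R0 W Q) = fun y : ℝ × Vec (j + 1) × Vec (j + 1) => W (pol R0 (y.1, y.2.1)) *
        ((fun p : Vec (j + 2) × Vec (j + 2) => √(Q p.1 p.2)) ∘ CF4_Xi R0) y := by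
      funext y
      rfl
    rw [h5]
    exact hω.contDiffOn.mul (hsqrt.comp (CF4_Xi_smooth R0).contDiffOn hmaps)
  · -- c1
    intro y hy
    rw [← norm_iteratedFDeriv_one]
    exact hder y hy 1 (by norm_num)
  · -- c2
    intro y hy
    rw [← norm_iteratedFDeriv_one, norm_iteratedFDeriv_fderiv]
    exact hder y hy 2 le_rfl

end EscW.On
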