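import Pool.Agent.EscW.CFDefs

set_option autoImplicit false

/-!
Project EscW, part O, conformal version, module CF5: transitivity and scaling.
`near_trans`: `c0`: `|s⁻¹ Φ2 - Φ0| ≤ s⁻¹ |Φ2 - s Φ1| + |Φ1 - Φ0| ≤ η2 Φ1 + η1 Φ0 ≤ (η2 (1 + η1) + η1) Φ0`. `c1`, `c2`: `lg (s⁻¹ Φ2) - lg Φ0 = s⁻¹ (lg Φ2 - lg (s Φ1)) + (lg Φ1 - lg Φ0)`, derivatives on the open set `LD k r` (all functions are `C²` there).
`scale_cal`, `scale_room`: the derivative of `σ ↦ c (σ/s) t` is `s⁻¹ • c'`; `unit`: `F x (s⁻¹ • v) t` at the point `x = c (σ/s) t`: use `hom`; `excess` is multiplied by `s` (`intervalIntegral.integral_const_mul`). `simple`: `σ/s - σ'/s = k len`.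
-/

noncomputable section

namespace EscW.On

open Filter Topology Set EscF.T EscM EscMT MeasureTheory EscW.Ex EscW.Dn
open scoped ContDiff

variable {d m k j n : ℕ}

theorem CF5_open (k : ℕ) (r : ℝ) : IsOpen (LD k r) := by
  have h1 : IsOpen {y : ℝ × Vec k × Vec k | ‖y.2.1‖ < r} :=
    isOpen_lt (by fun_prop) continuous_const
  have h2 : IsOpen {y : ℝ × Vec k × Vec k | ‖y.2.2‖ < r} :=
    isOpen_lt (by fun_prop) continuous_const
  exact h1.inter h2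

/-- derivatives of `s⁻¹ A + B` -/
theorem CF5_fd {E : Type} [NormedAddCommGroup E] [NormedSpace ℝ E] {A B : E → ℝ} {U : Set E}
    (hU : IsOpen U) (hA : ContDiffOn ℝ 2 A U) (hB : ContDiffOn ℝ 2 B U) (c : ℝ) {y : E} (hy : y ∈ U) :
    fderiv ℝ (fun y => c * A y + B y) y = c • fderiv ℝ A y + fderiv ℝ B y ∧
      fderiv ℝ (fderiv ℝ (fun y => c * A y + B y)) y =
        c • fderiv ℝ (fderiv ℝ A) y + fderiv ℝ (fderiv ℝ B) y := by
  have hdA : ∀ z ∈ U, DifferentiableAt ℝ A z := fun z hz =>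
    (hA.contDiffAt (hU.mem_nhds hz)).differentiableAt (by norm_num)
  have hdB : ∀ z ∈ U, DifferentiableAt ℝ B z := fun z hz =>
    (hB.contDiffAt (hU.mem_nhds hz)).differentiableAt (by norm_num)
  have h1 : ∀ z ∈ U, fderiv ℝ (fun y => c * A y + B y) z = c • fderiv ℝ A z + fderiv ℝ B z := by
    intro z hz
    have := ((hdA z hz).hasFDerivAt.const_smul c).add (hdB z hz).hasFDerivAt
    exact this.fderiv
  refine ⟨h1 y hy, ?_⟩
  have h2 : fderiv ℝ (fun y => c * A y + B y) =ᶠ[𝓝 y] fun z => c • fderiv ℝ A z + fderiv ℝ B z :=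
    Filter.eventuallyEq_of_mem (hU.mem_nhds hy) h1
  rw [h2.fderiv_eq]
  have h3 : DifferentiableAt ℝ (fderiv ℝ A) y :=
    ((hA.contDiffAt (hU.mem_nhds hy)).fderiv_right (m := 1) (by norm_num)).differentiableAt
      (by norm_num)
  have h4 : DifferentiableAt ℝ (fderiv ℝ B) y :=
    ((hB.contDiffAt (hU.mem_nhds hy)).fderiv_right (m := 1) (by norm_num)).differentiableAt
      (by norm_num)
  exact ((h3.hasFDerivAt.const_smul c).add h4.hasFDerivAt).fderiv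

theorem CF5_const {E : Type} [NormedAddCommGroup E] [NormedSpace ℝ E] (f : E → ℝ) (s : ℝ) (x v : E) :
    fderiv ℝ (fun y => s * f y) x v = s * fderiv ℝ f x v := by
  have h1 : (fun y => s * f y) = s • f := by
    ext y
    rfl
  rw [h1, fderiv_const_smul_field]
  rfl

theorem CF5_na {V : Type*} [NormedAddCommGroup V] [NormedSpace ℝ V] {a : ℝ} (ha : 0 < a)
    (A B : V) : ‖a • A + B‖ ≤ a * ‖A‖ + ‖B‖ :=
  le_trans (norm_add_le (a • A) B) (by rw [norm_smul, Real.norm_of_nonneg ha.le])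

theorem CF5_fdn {E : Type} [NormedAddCommGroup E] [NormedSpace ℝ E] {A B : E → ℝ} {U : Set E}
    (hU : IsOpen U) (hA : ContDiffOn ℝ 2 A U) (hB : ContDiffOn ℝ 2 B U) {c : ℝ} (hc : 0 < c)
    {y : E} (hy : y ∈ U) :
    ‖fderiv ℝ (fun y => c * A y + B y) y‖ ≤ c * ‖fderiv ℝ A y‖ + ‖fderiv ℝ B y‖ ∧
      ‖fderiv ℝ (fderiv ℝ (fun y => c * A y + B y)) y‖ ≤
        c * ‖fderiv ℝ (fderiv ℝ A) y‖ + ‖fderiv ℝ (fderiv ℝ B) y‖ := by
  rw [(CF5_fd hU hA hB c hy).1, (CF5_fd hU hA hB c hy).2]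
  exact ⟨CF5_na hc _ _, CF5_na hc (fderiv ℝ (fderiv ℝ A) y) (fderiv ℝ (fderiv ℝ B) y)⟩

theorem CF5_excess (F : Vec m → Vec m → ℝ → ℝ) (B : Vec m → ℝ → ℝ) (s t : ℝ) (γ : ℝ → Vec m) :
    excess (fun x v t => s * F x v t) (fun x t => s * B x t) t γ = s * excess F B t γ := by
  unfold excess
  rw [intervalIntegral.integral_const_mul]
  ring

theorem near_trans {Φ0 Φ1 Φ2 : ℝ × Vec k → ℝ × Vec k → ℝ} {𝒜 : Set (ℝ × Vec k)} {r η1 η2 η s : ℝ}
    (h0 : ∀ z ζ, 0 ≤ Φ0 z ζ) (hs0 : ContDiffOn ℝ 2 (lg Φ0) (LD k r)) (hs : 0 < s)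
    (h1 : AnnNear Φ0 Φ1 𝒜 r η1) (h2 : AnnNear (fun z ζ => s * Φ1 z ζ) Φ2 𝒜 r η2) (hη2 : 0 ≤ η2)
    (ha : η1 + η2 * (1 + η1) ≤ η) (hb : η1 + η2 / s ≤ η) :
    AnnNear Φ0 (fun z ζ => s⁻¹ * Φ2 z ζ) 𝒜 r η := by
  have hU := CF5_open k r
  have hs' : 0 < s⁻¹ := inv_pos.2 hs
  have sA : ContDiffOn ℝ 2 (fun y => lg Φ2 y - lg (fun z ζ => s * Φ1 z ζ) y) (LD k r) :=
    h2.smooth.sub (contDiffOn_const.mul h1.smooth)
  have sB : ContDiffOn ℝ 2 (fun y => lg Φ1 y - lg Φ0 y) (LD k r) := h1.smooth.sub hs0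
  have hfun : (fun y => lg (fun z ζ => s⁻¹ * Φ2 z ζ) y - lg Φ0 y) =
      fun y => s⁻¹ * (lg Φ2 y - lg (fun z ζ => s * Φ1 z ζ) y) + (lg Φ1 y - lg Φ0 y) := by
    funext y
    have h3 : s⁻¹ * (s * Φ1 (y.1, y.2.1) (1, y.2.2)) = Φ1 (y.1, y.2.1) (1, y.2.2) := by
      rw [← mul_assoc, inv_mul_cancel₀ hs.ne', one_mul]
    simp only [lg]
    rw [mul_sub, h3]
    ring
  refine ⟨fun z hz ζ a ha0 => ?_, fun θ w ζ hz => ?_, continuousOn_const.mul h2.cont,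
    fun z hz ζ => ?_, contDiffOn_const.mul h2.smooth, fun y hy => ?_, fun y hy => ?_⟩
  · rw [h2.hom z hz ζ a ha0]
    ring
  · rw [h2.per θ w ζ hz]
  · have e1 := h1.c0 z hz ζ
    have e2 := h2.c0 z hz ζ
    have e0 := h0 z ζ
    have e3 : |s⁻¹ * Φ2 z ζ - Φ1 z ζ| ≤ η2 * Φ1 z ζ := by
      have h3 : s⁻¹ * Φ2 z ζ - Φ1 z ζ = s⁻¹ * (Φ2 z ζ - s * Φ1 z ζ) := by
        rw [mul_sub, ← mul_assoc s⁻¹ s, inv_mul_cancel₀ hs.ne', one_mul]
      rw [h3, abs_mul, abs_of_pos hs']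
      calc s⁻¹ * |Φ2 z ζ - s * Φ1 z ζ| ≤ s⁻¹ * (η2 * (s * Φ1 z ζ)) :=
            mul_le_mul_of_nonneg_left e2 hs'.le
        _ = (s⁻¹ * s) * (η2 * Φ1 z ζ) := by ring
        _ = η2 * Φ1 z ζ := by rw [inv_mul_cancel₀ hs.ne', one_mul]
    have e4 : Φ1 z ζ ≤ (1 + η1) * Φ0 z ζ := by
      have := (abs_le.1 e1).2
      linarith
    have e5 : η2 * Φ1 z ζ ≤ η2 * ((1 + η1) * Φ0 z ζ) := mul_le_mul_of_nonneg_left e4 hη2
    have e6 : (η1 + η2 * (1 + η1)) * Φ0 z ζ ≤ η * Φ0 z ζ := mul_le_mul_of_nonneg_right ha e0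
    calc |s⁻¹ * Φ2 z ζ - Φ0 z ζ| = |(s⁻¹ * Φ2 z ζ - Φ1 z ζ) + (Φ1 z ζ - Φ0 z ζ)| := by
          congr 1
          ring
      _ ≤ |s⁻¹ * Φ2 z ζ - Φ1 z ζ| + |Φ1 z ζ - Φ0 z ζ| := abs_add_le _ _
      _ ≤ η * Φ0 z ζ := by nlinarith
  · rw [hfun]
    have k1 := (CF5_fdn hU sA sB hs' hy).1
    have k2 := mul_le_mul_of_nonneg_left (h2.c1 y hy) hs'.le
    have k3 := h1.c1 y hy
    rw [div_eq_mul_inv] at hb
    linarith
  · rw [hfun]
    have k1 := (CF5_fdn hU sA sB hs' hy).2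
    have k2 := mul_le_mul_of_nonneg_left (h2.c2 y hy) hs'.le
    have k3 := h1.c2 y hy
    rw [div_eq_mul_inv] at hb
    linarith

theorem scale_cal {M' : Sub m} {O : Set (Vec m)} {φ : Vec m → Vec d} {F : Vec m → Vec m → ℝ → ℝ}
    {B : Vec m → ℝ → ℝ} {i : Fin m} {len s : ℝ} {c : ℝ → ℝ → Vec m} (hs : 0 < s)
    (hom : ∀ x ∈ M'.N ∩ O, ∀ v t (a : ℝ), 0 ≤ a → F x (a • v) t = a * F x v t)
    (h : IsCalibratedW M' O φ F B i len c) :
    IsCalibratedW M' O φ (fun x v t => s * F x v t) (fun x t => s * B x t) i (s * len)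
      (fun σ t => c (σ / s) t) := by
  have hdc : ∀ σ t, HasDerivAt (fun σ => c (σ / s) t) (s⁻¹ • deriv (fun σ => c σ t) (σ / s)) σ := by
    intro σ t
    have h1 : DifferentiableAt ℝ (fun σ => c σ t) (σ / s) := by
      have h2 : ContDiff ℝ 1 (fun σ : ℝ => c σ t) :=
        h.curve.comp (contDiff_id.prodMk contDiff_const)
      exact h2.differentiable (by norm_num) _
    have h3 : HasDerivAt (fun σ : ℝ => σ / s) (s⁻¹) σ := by
      have := (hasDerivAt_id σ).div_const s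
      rwa [one_div] at this
    exact h1.hasDerivAt.scomp σ h3
  have hlen := h.len_pos
  constructor
  · exact contDiffOn_const.mul h.smooth
  · intro x hx t
    show s * B x (t + 1) = s * B x t
    rw [h.periodic x hx t]
  · intro n
    obtain ⟨a, ha⟩ := h.periods n
    refine ⟨s * a, fun x hx t => ?_⟩
    show s * B (x + vz n) t = s * B x t + s * a
    rw [ha x hx t]
    ring
  · obtain ⟨A, hA⟩ := h.lip
    refine ⟨s * A, fun x hx v hv t t' => ?_⟩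
    rw [CF5_const (fun y => B (M'.r y) t), CF5_const (fun y => B (M'.r y) t'), ← mul_sub, abs_mul,
      abs_of_pos hs]
    calc s * |fderiv ℝ (fun y => B (M'.r y) t) x v - fderiv ℝ (fun y => B (M'.r y) t') x v|
        ≤ s * (A * ‖v‖ * |t - t'|) := mul_le_mul_of_nonneg_left (hA x hx v hv t t') hs.le
      _ = s * A * ‖v‖ * |t - t'| := by ring
  · intro x hx v hv t
    rw [CF5_const (fun y => B (M'.r y) t)]
    exact mul_le_mul_of_nonneg_left (h.le x hx v hv t) hs.le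
  · positivity
  · have h1 : ContDiff ℝ 1 (fun p : ℝ × ℝ => (p.1 / s, p.2)) :=
      (contDiff_fst.div_const s).prodMk contDiff_snd
    exact h.curve.comp h1
  · intro σ t
    exact h.mem (σ / s) t
  · intro σ t
    show c ((σ + s * len) / s) t = c (σ / s) t + vz (Pi.single i 1)
    have h1 : (σ + s * len) / s = σ / s + len := by
      rw [add_div, mul_div_cancel_left₀ _ hs.ne']
    rw [h1, h.closed]
  · intro σ t
    exact h.curve_per (σ / s) t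
  · intro σ t
    show s * F (c (σ / s) t) (deriv (fun σ => c (σ / s) t) σ) t = 1
    rw [(hdc σ t).deriv, hom _ (h.mem _ _) _ _ _ (inv_nonneg.2 hs.le), h.unit, mul_one,
      mul_inv_cancel₀ hs.ne']
  · intro σ t
    show s * B (c (σ / s) t) t = s * B (c (0 / s) t) t + σ
    rw [h.cal (σ / s) t, zero_div, mul_add, mul_div_cancel₀ _ hs.ne']
  · intro x hx v hv t hv0 he
    rw [CF5_const (fun y => B (M'.r y) t)] at he
    obtain ⟨σ, n, hx'⟩ := h.only x hx v hv t hv0 (mul_left_cancel₀ hs.ne' he)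
    refine ⟨s * σ, n, ?_⟩
    show x = c (s * σ / s) t + vz n
    rw [mul_div_cancel_left₀ _ hs.ne']
    exact hx'
  · intro σ σ' t l hl
    obtain ⟨k, hk⟩ := h.simple (σ / s) (σ' / s) t l hl
    refine ⟨k, ?_⟩
    rw [← sub_div, div_eq_iff hs.ne'] at hk
    rw [hk]
    ring

theorem scale_room {M' : Sub m} {O K : Set (Vec m)} {F : Vec m → Vec m → ℝ → ℝ} {B : Vec m → ℝ → ℝ}
    {i : Fin m} {a s : ℝ} {c : ℝ → ℝ → Vec m} (hs : 0 < s) (h : IsRoom M' O K F B i c a) :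
    IsRoom M' O K (fun x v t => s * F x v t) (fun x t => s * B x t) i (fun σ t => c (σ / s) t) (s * a) := by
  constructor
  · exact h.closed
  · exact h.sub
  · exact h.periodic
  · intro σ t
    exact h.mem (σ / s) t
  · intro t σ γ hL h0 hK h1
    rw [CF5_excess]
    exact mul_le_mul_of_nonneg_left (h.exit t (σ / s) γ hL h0 hK h1) hs.le
  · obtain ⟨t, n, γ, hn, hL, h0, h1, hK, he⟩ := h.second
    refine ⟨t, n, γ, hn, hL, ?_, ?_, hK, ?_⟩
    · show γ 0 = c (0 / s) t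
      rw [zero_div]
      exact h0
    · show γ 1 = c (0 / s) t + vz n
      rw [zero_div]
      exact h1
    · rw [CF5_excess]
      exact mul_lt_mul_of_pos_left he hs

end EscW.On
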