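import Pool.Agent.EscW.D1

set_option autoImplicit false

/-!
Project EscW, part D, module D5: the conformal factor.
`tW_smooth`: if `tΘ Y ≠ 0` then `tq < 5/12`, so `|2 (tρ - δ)/δ| < 13/20`, `tρ ∈ (δ/2, 3δ/2)`, `|tr - 1| ≤ tρ`, `tr > 0`: the square roots are smooth there; on the closed set `{5/12 ≤ tq}` and near every point with `5/12 < tq` (`tq` is continuous) `tW = 1`; at
a point with `tq = 5/12` the square roots are smooth. `tW_bd`: convex combination; if `tq < 5/12`: `tr ≤ 1 + 1.33 δ`, `tr ≥ 1 - 1.33 δ`, `tQ ≤ 8 δ²`: `tw ≤ (1 - ε) (1 + δ) / (1 - 1.33 δ) + 8 δ² + ε / 2 ≤ 1`, `tw ≥ (1 - ε) (1 + δ) / (1 + 1.33 δ) ≥ 1 - 2 ε`.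
-/

noncomputable section

namespace EscW.Dn

open Filter Topology Set EscF.T EscM EscMT MeasureTheory EscW.Ex
open scoped ContDiff

variable {d m n : ℕ}

theorem D5_co (i : Fin (n + 3)) : ContDiff ℝ ∞ (fun Y : Vec (n + 3) => Y i) :=
  (EuclideanSpace.proj (𝕜 := ℝ) i).contDiff

theorem D5_sum (c : ℝ) : ContDiff ℝ ∞ (fun Y : Vec (n + 3) =>
    ∑ i, if i = 0 ∨ i = 1 ∨ i = 2 then (0 : ℝ) else (Y i / c) ^ 2) := by
  refine ContDiff.sum (fun i _ => ?_)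
  by_cases h : i = 0 ∨ i = 1 ∨ i = 2
  · simp only [h, if_true]; exact contDiff_const
  · simp only [h, if_false]; exact ((D5_co i).div_const c).pow 2

theorem D5_sum1 : ContDiff ℝ ∞ (fun Y : Vec (n + 3) =>
    ∑ i, if i = 0 ∨ i = 1 ∨ i = 2 then (0 : ℝ) else Y i ^ 2) := by
  refine ContDiff.sum (fun i _ => ?_)
  by_cases h : i = 0 ∨ i = 1 ∨ i = 2
  · simp only [h, if_true]; exact contDiff_const
  · simp only [h, if_false]; exact (D5_co i).pow 2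

theorem D5_cont (δ : ℝ) : Continuous (tq δ : Vec (n + 3) → ℝ) := by
  have h0 : Continuous (fun Y : Vec (n + 3) => Y 0) := (D5_co 0).continuous
  have h1 : Continuous (fun Y : Vec (n + 3) => Y 1) := (D5_co 1).continuous
  have h2 : Continuous (fun Y : Vec (n + 3) => Y 2) := (D5_co 2).continuous
  have htr : Continuous (tr : Vec (n + 3) → ℝ) := by
    unfold tr
    exact Real.continuous_sqrt.comp ((h0.pow 2).add (h1.pow 2))
  have htρ : Continuous (tρ : Vec (n + 3) → ℝ) := by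
    unfold tρ
    exact Real.continuous_sqrt.comp (((htr.sub continuous_const).pow 2).add (h2.pow 2))
  unfold tq
  exact (((continuous_const.mul (htρ.sub continuous_const)).div_const δ).pow 2).add
    (D5_sum δ).continuous

theorem D5_sumnn (c : ℝ) (Y : Vec (n + 3)) :
    0 ≤ ∑ i, if i = 0 ∨ i = 1 ∨ i = 2 then (0 : ℝ) else (Y i / c) ^ 2 := by
  refine Finset.sum_nonneg (fun i _ => ?_)
  split_ifs
  · exact le_rfl
  · positivity

theorem D5_tρ {δ : ℝ} (hδ : 0 < δ) {Y : Vec (n + 3)} (h : tq δ Y ≤ 5 / 12) :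
    27 / 40 * δ ≤ tρ Y ∧ tρ Y ≤ 53 / 40 * δ := by
  have h1 := D5_sumnn δ Y
  have h2 : (2 * (tρ Y - δ) / δ) ^ 2 ≤ 5 / 12 := by
    unfold tq at h
    linarith
  have h3 : |2 * (tρ Y - δ) / δ| ≤ 13 / 20 := by
    refine abs_le_of_sq_le_sq ?_ (by norm_num)
    exact h2.trans (by norm_num)
  rw [abs_le] at h3
  obtain ⟨h4, h5⟩ := h3
  rw [le_div_iff₀ hδ] at h4
  rw [div_le_iff₀ hδ] at h5
  constructor <;> linarith

theorem D5_tr (Y : Vec (n + 3)) : |tr Y - 1| ≤ tρ Y := by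
  unfold tρ
  refine Real.abs_le_sqrt ?_
  nlinarith [sq_nonneg (Y 2)]

theorem D5_trpos {δ : ℝ} (hδ : 0 < δ) (h8 : δ ≤ 1 / 8) {Y : Vec (n + 3)} (h : tq δ Y ≤ 5 / 12) :
    0 < tr Y := by
  have h1 := D5_tr Y
  have h2 := (D5_tρ hδ h).2
  rw [abs_le] at h1
  linarith [h1.1]

theorem D5_one {δ ε : ℝ} {Y : Vec (n + 3)} (h : 5 / 12 ≤ tq δ Y) : tW δ ε Y = 1 := by
  have h1 : Real.smoothTransition (12 * tq δ Y - 4) = 1 :=
    Real.smoothTransition.one_of_one_le (by linarith)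
  unfold tW tΘ
  rw [h1]
  ring

theorem tW_smooth {δ : ℝ} (hδ : 0 < δ) (h8 : δ ≤ 1 / 8) (ε : ℝ) :
    ContDiff ℝ ∞ (tW δ ε : Vec (n + 3) → ℝ) := by
  rw [contDiff_iff_contDiffAt]
  intro Y
  rcases lt_or_ge (5 / 12) (tq δ Y) with hY | hY
  · have h1 : ∀ᶠ Z in 𝓝 Y, 5 / 12 < tq δ Z := (D5_cont δ).continuousAt.eventually (lt_mem_nhds hY)
    have h2 : (tW δ ε : Vec (n + 3) → ℝ) =ᶠ[𝓝 Y] fun _ => (1 : ℝ) := by
      filter_upwards [h1] with Z hZ
      exact D5_one hZ.le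
    exact contDiffAt_const.congr_of_eventuallyEq h2
  · have hρ := (D5_tρ hδ hY).1
    have hr := D5_trpos hδ h8 hY
    have hρ0 : 0 < tρ Y := lt_of_lt_of_le (by positivity) hρ
    have c0 : ContDiffAt ℝ ∞ (fun Y : Vec (n + 3) => Y 0) Y := (D5_co 0).contDiffAt
    have c1 : ContDiffAt ℝ ∞ (fun Y : Vec (n + 3) => Y 1) Y := (D5_co 1).contDiffAt
    have c2 : ContDiffAt ℝ ∞ (fun Y : Vec (n + 3) => Y 2) Y := (D5_co 2).contDiffAt
    have htr : ContDiffAt ℝ ∞ (tr : Vec (n + 3) → ℝ) Y := by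
      have h1 : Y 0 ^ 2 + Y 1 ^ 2 ≠ 0 := by
        intro h0
        unfold tr at hr
        rw [h0, Real.sqrt_zero] at hr
        exact lt_irrefl _ hr
      have h2 : ContDiffAt ℝ ∞ (fun Y : Vec (n + 3) => √(Y 0 ^ 2 + Y 1 ^ 2)) Y :=
        ((c0.pow 2).add (c1.pow 2)).sqrt h1
      exact h2
    have htρ : ContDiffAt ℝ ∞ (tρ : Vec (n + 3) → ℝ) Y := by
      have h1 : (tr Y - 1) ^ 2 + Y 2 ^ 2 ≠ 0 := by
        intro h0
        unfold tρ at hρ0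
        rw [h0, Real.sqrt_zero] at hρ0
        exact lt_irrefl _ hρ0
      have h2 : ContDiffAt ℝ ∞ (fun Y : Vec (n + 3) => √((tr Y - 1) ^ 2 + Y 2 ^ 2)) Y :=
        (((htr.sub contDiffAt_const).pow 2).add (c2.pow 2)).sqrt h1
      exact h2
    have htq : ContDiffAt ℝ ∞ (tq δ : Vec (n + 3) → ℝ) Y := by
      have h2 : ContDiffAt ℝ ∞ (fun Y : Vec (n + 3) => (2 * (tρ Y - δ) / δ) ^ 2 +
          ∑ i, if i = 0 ∨ i = 1 ∨ i = 2 then (0 : ℝ) else (Y i / δ) ^ 2) Y :=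
        (((contDiffAt_const.mul (htρ.sub contDiffAt_const)).div_const δ).pow 2).add
          (D5_sum δ).contDiffAt
      exact h2
    have htQ : ContDiffAt ℝ ∞ (tQ δ : Vec (n + 3) → ℝ) Y := by
      have h2 : ContDiffAt ℝ ∞ (fun Y : Vec (n + 3) => (tr Y - 1 - δ) ^ 2 + Y 2 ^ 2 +
          ∑ i, if i = 0 ∨ i = 1 ∨ i = 2 then (0 : ℝ) else Y i ^ 2) Y :=
        ((((htr.sub contDiffAt_const).sub contDiffAt_const).pow 2).add (c2.pow 2)).add
          D5_sum1.contDiffAt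
      exact h2
    have hst : ContDiff ℝ ∞ Real.smoothTransition := Real.smoothTransition.contDiff
    have htw : ContDiffAt ℝ ∞ (tw δ ε : Vec (n + 3) → ℝ) Y := by
      have h2 : ContDiffAt ℝ ∞ (fun Y : Vec (n + 3) => (1 - ε) * (1 + δ) / tr Y + tQ δ Y +
          ε / 2 * Real.smoothTransition (16 * tq δ Y)) Y :=
        ((contDiffAt_const.div htr hr.ne').add htQ).add
          (contDiffAt_const.mul (hst.contDiffAt.comp Y (contDiffAt_const.mul htq)))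
      exact h2
    have htΘ : ContDiffAt ℝ ∞ (tΘ δ : Vec (n + 3) → ℝ) Y := by
      have h2 : ContDiffAt ℝ ∞ (fun Y : Vec (n + 3) =>
          1 - Real.smoothTransition (12 * tq δ Y - 4)) Y :=
        contDiffAt_const.sub
          (hst.contDiffAt.comp Y ((contDiffAt_const.mul htq).sub contDiffAt_const))
      exact h2
    have h2 : ContDiffAt ℝ ∞ (fun Y : Vec (n + 3) => tΘ δ Y * tw δ ε Y + (1 - tΘ δ Y)) Y :=
      (htΘ.mul htw).add (contDiffAt_const.sub htΘ)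
    exact h2

theorem D5_tQ {δ : ℝ} (hδ : 0 < δ) {Y : Vec (n + 3)} (h : tq δ Y ≤ 5 / 12) :
    0 ≤ tQ δ Y ∧ tQ δ Y ≤ 8 * δ ^ 2 := by
  have hs : ∑ i, (if i = 0 ∨ i = 1 ∨ i = 2 then (0 : ℝ) else Y i ^ 2) =
      δ ^ 2 * ∑ i, if i = 0 ∨ i = 1 ∨ i = 2 then (0 : ℝ) else (Y i / δ) ^ 2 := by
    rw [Finset.mul_sum]
    refine Finset.sum_congr rfl (fun i _ => ?_)
    split_ifs
    · ring
    · field_simp
  have hnn := D5_sumnn δ Y
  have h5 : ∑ i, (if i = 0 ∨ i = 1 ∨ i = 2 then (0 : ℝ) else (Y i / δ) ^ 2) ≤ 5 / 12 := by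
    unfold tq at h
    nlinarith [sq_nonneg (2 * (tρ Y - δ) / δ)]
  obtain ⟨hρ1, hρ2⟩ := D5_tρ hδ h
  have htr := D5_tr Y
  have hρ0 : 0 ≤ tρ Y := Real.sqrt_nonneg _
  have hsq : (tr Y - 1) ^ 2 + Y 2 ^ 2 = tρ Y ^ 2 := by
    unfold tρ
    rw [Real.sq_sqrt (by positivity)]
  constructor
  · unfold tQ
    rw [hs]
    positivity
  · unfold tQ
    rw [hs]
    have e1 : (tr Y - 1 - δ) ^ 2 + Y 2 ^ 2 = tρ Y ^ 2 - 2 * δ * (tr Y - 1) + δ ^ 2 := by
      rw [← hsq]; ring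
    rw [e1]
    have h6 : tρ Y ^ 2 ≤ (53 / 40 * δ) ^ 2 := pow_le_pow_left₀ hρ0 hρ2 2
    have h7 : -(2 * δ * (tr Y - 1)) ≤ 2 * δ * (53 / 40 * δ) := by
      have := (abs_le.1 (htr.trans hρ2)).1
      nlinarith
    have h8 : δ ^ 2 * ∑ i, (if i = 0 ∨ i = 1 ∨ i = 2 then (0 : ℝ) else (Y i / δ) ^ 2) ≤
        δ ^ 2 * (5 / 12) := mul_le_mul_of_nonneg_left h5 (by positivity)
    nlinarith [sq_nonneg δ]

theorem tW_bd {δ ε : ℝ} (hε : 0 < ε) (hε4 : ε ≤ 1 / 4) (hδ : 0 < δ) (hδε : δ ≤ ε / 8) (Y : Vec (n + 3)) :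
    1 - 2 * ε ≤ tW δ ε Y ∧ tW δ ε Y ≤ 1 := by
  rcases le_or_gt (5 / 12) (tq δ Y) with hY | hY
  · rw [D5_one hY]
    constructor <;> linarith
  · have hT0 : 0 ≤ tΘ δ Y := by
      unfold tΘ
      linarith [Real.smoothTransition.le_one (12 * tq δ Y - 4)]
    have hT1 : tΘ δ Y ≤ 1 := by
      unfold tΘ
      linarith [Real.smoothTransition.nonneg (12 * tq δ Y - 4)]
    have h8 : δ ≤ 1 / 32 := by linarith
    obtain ⟨hQ0, hQ1⟩ := D5_tQ hδ hY.le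
    have hr := D5_trpos hδ (by linarith) hY.le
    have htr := abs_le.1 ((D5_tr Y).trans (D5_tρ hδ hY.le).2)
    obtain ⟨hr1, hr2⟩ := htr
    have hs0 := Real.smoothTransition.nonneg (16 * tq δ Y)
    have hs1 := Real.smoothTransition.le_one (16 * tq δ Y)
    have hδ2 : δ ^ 2 ≤ δ * (1 / 32) := by nlinarith
    have hpos : 0 ≤ 1 - ε / 2 - 8 * δ ^ 2 := by nlinarith
    have hup : (1 - ε) * (1 + δ) / tr Y ≤ 1 - ε / 2 - 8 * δ ^ 2 := by
      rw [div_le_iff₀ hr]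
      have h1 : (1 - ε / 2 - 8 * δ ^ 2) * (1 - 53 / 40 * δ) ≤ (1 - ε / 2 - 8 * δ ^ 2) * tr Y :=
        mul_le_mul_of_nonneg_left (by linarith) hpos
      refine le_trans ?_ h1
      have h2 : 0 ≤ (ε / 2 + 8 * δ ^ 2) * (53 / 40 * δ) := by positivity
      have h3 : 0 ≤ ε * δ := by positivity
      nlinarith
    have hlo : 1 - 2 * ε ≤ (1 - ε) * (1 + δ) / tr Y := by
      rw [le_div_iff₀ hr]
      have h1 : (1 - 2 * ε) * tr Y ≤ (1 - 2 * ε) * (1 + 53 / 40 * δ) :=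
        mul_le_mul_of_nonneg_left (by linarith) (by linarith)
      refine h1.trans ?_
      have h3 : 0 ≤ ε * δ := by positivity
      nlinarith
    have hw1 : tw δ ε Y ≤ 1 := by
      unfold tw
      have : ε / 2 * Real.smoothTransition (16 * tq δ Y) ≤ ε / 2 * 1 :=
        mul_le_mul_of_nonneg_left hs1 (by linarith)
      linarith
    have hw0 : 1 - 2 * ε ≤ tw δ ε Y := by
      unfold tw
      have : 0 ≤ ε / 2 * Real.smoothTransition (16 * tq δ Y) := by positivity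
      linarith
    unfold tW
    constructor
    · nlinarith
    · nlinarith

theorem tW_em {δ : ℝ} (hδ : 0 < δ) (h8 : δ ≤ 1 / 8) (ε : ℝ) {X : Vec (n + 3)} (hX : qq X ≤ 1 / 3) :
    tW δ ε (em δ X) = tw δ ε (em δ X) := by
  have h1 : Real.smoothTransition (12 * tq δ (em δ X) - 4) = 0 := by
    rw [tq_em hδ h8]
    exact Real.smoothTransition.zero_of_nonpos (by linarith)
  unfold tW tΘ
  rw [h1]
  ring

end EscW.Dn
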