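import Pool.Agent.EscW.G2

set_option autoImplicit false

/-!
Project EscW, part G, module G4: the conformal factor.
`tW_smooth`: if `tΘ Y ≠ 0` then `tu² < 17/20`, so `|tr - 1| < δ`, `tr > 0`; near the points with `17/20 < tu²` `tW = 1`; where `tr > 0` all functions are smooth. `tW_bd`: convex combination; for `tu² < 17/20`: `1 - δ ≤ tr ≤ 1 + δ`; `tz < 1` (needed for the first step function) implies
`0 < tu < 1/2`, `4 tu² < 1`, so at most one of the two step functions is not zero: `tw ≤ (1 - ε)/(1 - δ) + δ² + ε/2 ≤ 1`, `tw ≥ (1 - ε)/(1 + δ) ≥ 1 - 2 ε`. `tW_em`: `1/5 ≤ qz`: `20 tz - 3 ≥ 1`; `uu² ≤ 4/5`: `20 tu² - 16 ≤ 0`.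
-/

noncomputable section

namespace EscW.Gn

open Filter Topology Set EscF.T EscM EscMT MeasureTheory EscW.Ex EscW.Dn
open scoped ContDiff

variable {d m n : ℕ}

theorem G4_coord (i : Fin 2) : ContDiff ℝ ∞ (fun Y : Vec 2 => Y i) :=
  (EuclideanSpace.proj i : EuclideanSpace ℝ (Fin 2) →L[ℝ] ℝ).contDiff

theorem G4_tr_nonneg (Y : Vec 2) : 0 ≤ tr Y := Real.sqrt_nonneg _

theorem G4_tr_at {Y : Vec 2} (h : 0 < tr Y) : ContDiffAt ℝ ∞ tr Y := by
  have h0 : Y 0 ^ 2 + Y 1 ^ 2 ≠ 0 := by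
    intro h0
    have : tr Y = 0 := by
      unfold tr
      rw [h0, Real.sqrt_zero]
    linarith
  have h1 : ContDiff ℝ ∞ (fun Y : Vec 2 => Y 0 ^ 2 + Y 1 ^ 2) :=
    ((G4_coord 0).pow 2).add ((G4_coord 1).pow 2)
  exact h1.contDiffAt.sqrt h0

theorem G4_tr_cont : Continuous tr :=
  Real.continuous_sqrt.comp (((G4_coord 0).continuous.pow 2).add ((G4_coord 1).continuous.pow 2))

theorem G4_tu_cont (δ : ℝ) : Continuous (tu δ) :=
  (G4_tr_cont.sub continuous_const).div_const δ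

theorem G4_Θ_zero {δ : ℝ} {Y : Vec 2} (h : 17 / 20 ≤ tu δ Y ^ 2) : tΘ δ Y = 0 := by
  unfold tΘ
  rw [Real.smoothTransition.one_of_one_le (x := 20 * tu δ Y ^ 2 - 16) (by linarith)]
  ring

theorem G4_near {δ : ℝ} (hδ : 0 < δ) {Y : Vec 2} (h : tu δ Y ^ 2 < 17 / 20) :
    1 - δ ≤ tr Y ∧ tr Y ≤ 1 + δ := by
  have h1 : tu δ Y ^ 2 ≤ 1 := by linarith
  have h2 : |tu δ Y| ≤ 1 := (sq_le_one_iff_abs_le_one _).1 h1
  have h3 := abs_le.1 h2
  unfold tu at h3
  rw [le_div_iff₀ hδ, div_le_iff₀ hδ] at h3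
  constructor <;> linarith [h3.1, h3.2]

theorem tW_smooth {δ : ℝ} (hδ : 0 < δ) (h8 : δ ≤ 1 / 8) (ε : ℝ) : ContDiff ℝ ∞ (tW δ ε) := by
  rw [contDiff_iff_contDiffAt]
  intro Y
  rcases lt_or_ge (17 / 20) (tu δ Y ^ 2) with h | h
  · have hopen : IsOpen {Z : Vec 2 | 17 / 20 < tu δ Z ^ 2} :=
      isOpen_lt continuous_const ((G4_tu_cont δ).pow 2)
    have hev : tW δ ε =ᶠ[𝓝 Y] fun _ => (1 : ℝ) := by
      filter_upwards [hopen.mem_nhds h] with Z hZ
      unfold tW
      rw [G4_Θ_zero (le_of_lt hZ)]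
      ring
    exact contDiffAt_const.congr_of_eventuallyEq hev
  · have hpos : 0 < tr Y := by
      rcases lt_or_eq_of_le (G4_tr_nonneg Y) with h0 | h0
      · exact h0
      · exfalso
        have h1 : tu δ Y = -(1 / δ) := by
          unfold tu
          rw [← h0]
          ring
        have h2 : 8 ≤ 1 / δ := by
          rw [le_div_iff₀ hδ]
          linarith
        rw [h1] at h
        nlinarith
    have htr := G4_tr_at hpos
    have htr0 : tr Y ≠ 0 := hpos.ne'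
    have htu : ContDiffAt ℝ ∞ (tu δ) Y := (htr.sub contDiffAt_const).div_const δ
    have hst : ContDiff ℝ ∞ Real.smoothTransition := Real.smoothTransition.contDiff
    have hc1 : ContDiffAt ℝ ∞ (fun Y : Vec 2 => Y 1) Y := (G4_coord 1).contDiffAt
    have htz : ContDiffAt ℝ ∞ (tz δ) Y :=
      (((contDiffAt_const.mul htu).sub contDiffAt_const).pow 2).add ((hc1.div htr htr0).pow 2)
    have hs : ∀ g : Vec 2 → ℝ, ContDiffAt ℝ ∞ g Y →
        ContDiffAt ℝ ∞ (fun Z => Real.smoothTransition (g Z)) Y := fun g hg =>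
      hst.contDiffAt.comp Y hg
    have htw : ContDiffAt ℝ ∞ (tw δ ε) Y := by
      refine ((contDiffAt_const.div htr htr0).add ((htr.sub contDiffAt_const).pow 2)).add
        (contDiffAt_const.mul ((hs _ ?_).add (hs _ ?_)))
      · exact contDiffAt_const.sub (contDiffAt_const.mul htz)
      · exact (contDiffAt_const.mul (htu.pow 2)).sub contDiffAt_const
    have htΘ : ContDiffAt ℝ ∞ (tΘ δ) Y := by
      refine (hs _ ?_).mul (contDiffAt_const.sub (hs _ ?_))
      · exact (contDiffAt_const.mul htz).sub contDiffAt_const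
      · exact (contDiffAt_const.mul (htu.pow 2)).sub contDiffAt_const
    exact (htΘ.mul htw).add (contDiffAt_const.sub htΘ)

theorem tW_bd {δ ε : ℝ} (hε : 0 < ε) (hε4 : ε ≤ 1 / 4) (hδ : 0 < δ) (hδε : δ ≤ ε / 8) (Y : Vec 2) :
    1 - 2 * ε ≤ tW δ ε Y ∧ tW δ ε Y ≤ 1 := by
  rcases le_or_gt (17 / 20) (tu δ Y ^ 2) with h | h
  · have h1 : tW δ ε Y = 1 := by
      unfold tW
      rw [G4_Θ_zero h]
      ring
    rw [h1]
    constructor <;> linarith
  · obtain ⟨h1, h2⟩ := G4_near hδ h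
    have hδ1 : δ ≤ 1 / 32 := by linarith
    have hpos : 0 < tr Y := by linarith
    have hΘ0 : 0 ≤ tΘ δ Y := by
      unfold tΘ
      exact mul_nonneg (Real.smoothTransition.nonneg _)
        (sub_nonneg.2 (Real.smoothTransition.le_one _))
    have hΘ1 : tΘ δ Y ≤ 1 := by
      unfold tΘ
      have e1 := Real.smoothTransition.nonneg (20 * tz δ Y - 3)
      have e2 := Real.smoothTransition.le_one (20 * tz δ Y - 3)
      have e3 := Real.smoothTransition.nonneg (20 * tu δ Y ^ 2 - 16)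
      have e4 := Real.smoothTransition.le_one (20 * tu δ Y ^ 2 - 16)
      nlinarith
    have hs0 := Real.smoothTransition.nonneg (2 - 2 * tz δ Y)
    have hs1 := Real.smoothTransition.le_one (2 - 2 * tz δ Y)
    have hr0 := Real.smoothTransition.nonneg (4 * tu δ Y ^ 2 - 1)
    have hr1 := Real.smoothTransition.le_one (4 * tu δ Y ^ 2 - 1)
    have hsum : Real.smoothTransition (2 - 2 * tz δ Y) +
        Real.smoothTransition (4 * tu δ Y ^ 2 - 1) ≤ 1 := by
      rcases le_or_gt 1 (tz δ Y) with hz | hz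
      · rw [Real.smoothTransition.zero_of_nonpos (x := 2 - 2 * tz δ Y) (by linarith)]
        linarith
      · have h3 : (4 * tu δ Y - 1) ^ 2 < 1 := by
          unfold tz at hz
          nlinarith [sq_nonneg (Y 1 / tr Y)]
        have h4 : |4 * tu δ Y - 1| < 1 := (sq_lt_one_iff_abs_lt_one _).1 h3
        have h5 := abs_lt.1 h4
        have h6 : 4 * tu δ Y ^ 2 - 1 ≤ 0 := by nlinarith [h5.1, h5.2]
        rw [Real.smoothTransition.zero_of_nonpos h6]
        linarith
    have hup : tw δ ε Y ≤ 1 := by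
      unfold tw
      have e1 : (1 - ε) / tr Y ≤ (1 - ε) * (1 + 2 * δ) := by
        rw [div_le_iff₀ hpos]
        have e2 : 1 ≤ (1 + 2 * δ) * tr Y := by nlinarith
        nlinarith
      have e2 : (tr Y - 1) ^ 2 ≤ δ ^ 2 := by nlinarith
      have e3 : ε / 2 * (Real.smoothTransition (2 - 2 * tz δ Y) +
          Real.smoothTransition (4 * tu δ Y ^ 2 - 1)) ≤ ε / 2 * 1 :=
        mul_le_mul_of_nonneg_left hsum (by linarith)
      nlinarith
    have hlow : 1 - 2 * ε ≤ tw δ ε Y := by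
      unfold tw
      have e1 : (1 - ε) * (1 - δ) ≤ (1 - ε) / tr Y := by
        rw [le_div_iff₀ hpos]
        have e2 : (1 - δ) * tr Y ≤ 1 := by nlinarith
        nlinarith
      have e2 : 0 ≤ (tr Y - 1) ^ 2 := sq_nonneg _
      have e3 : 0 ≤ ε / 2 * (Real.smoothTransition (2 - 2 * tz δ Y) +
          Real.smoothTransition (4 * tu δ Y ^ 2 - 1)) :=
        mul_nonneg (by linarith) (by linarith)
      nlinarith
    unfold tW
    constructor
    · nlinarith
    · nlinarith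

theorem tW_em {δ : ℝ} (hδ : 0 < δ) (h8 : δ ≤ 1 / 8) (ε : ℝ) {x : Vec 3} (h1 : 1 / 5 ≤ qz x)
    (h2 : uu x ^ 2 ≤ 4 / 5) : tW δ ε (em δ x) = tw δ ε (em δ x) := by
  have hΘ : tΘ δ (em δ x) = 1 := by
    unfold tΘ
    rw [tz_em hδ h8, tu_em hδ h8, Real.smoothTransition.one_of_one_le (x := 20 * qz x - 3) (by linarith),
      Real.smoothTransition.zero_of_nonpos (x := 20 * uu x ^ 2 - 16) (by linarith)]
    ring
  unfold tW
  rw [hΘ]
  ring

end EscW.Gn
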