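import Pool.Agent.EscW.CF6
import Pool.Agent.EscW.O14
import Pool.Agent.EscW.D5
import Pool.Agent.EscW.G4

set_option autoImplicit false

/-!
Project EscW, part O, conformal version, module CF7: pull-back, the factors of parts D and G.
`nrm_Pj`: `fderiv (fun z => g (s • A (pol R0 z))) z ζ = fderiv g (s • A Y) (s • A (fderiv (pol R0) z ζ))`, `Y = pol R0 z`; `wM_at`; `√(w² (s² Q)) = w s √Q`.
`pol_inj`: the first two components are `(R0 + z.2 0) (cos, sin)(2π z.1)`, so the radii and the angles agree.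
`tWD_one`: if `tΘ ≠ 0` then `tq < 5/12`, so `|tρ - δ| ≤ 0.33 δ`, `|tr - 1|, |Y 2| ≤ tρ ≤ 1.33 δ ≤ 0.17`, `Σ_{i ≥ 3} Y_i² ≤ 5/12 δ²`, and `‖Y‖² = tr² + Y_2² + Σ ≤ 1.37 + 0.03 + 0.01 < 4`. `tWG_one`: if `tΘ ≠ 0` then `tu² < 17/20`, `|tr - 1| < δ`, `‖Y‖ = tr < 9/8`.
-/

noncomputable section

namespace EscW.On

open Filter Topology Set EscF.T EscM EscMT MeasureTheory EscW.Ex EscW.Dn
open scoped ContDiff

variable {d m k j n : ℕ}

theorem nrm_Pj {M : Sub d} {q : Vec d → Vec d →L[ℝ] Vec d →L[ℝ] ℝ} {W : Set (Vec d)} {ρ s : ℝ}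
    {g : Vec (j + 2) → Vec d} {g' : Vec d → Vec (j + 2)} (hg : MChart M (j + 2) W ρ g g')
    (A : Vec (j + 2) ≃L[ℝ] Vec (j + 2)) (hs : 0 < s) {w : Vec (j + 2) → ℝ} (hw : ∀ Y, 0 < w Y) {R0 : ℝ}
    {z : ℝ × Vec (j + 1)} (hz : ‖s • A (pol R0 z)‖ < ρ) (ζ : ℝ × Vec (j + 1)) (t : ℝ) :
    nrm (fun p => wM W s g' A w p • q p) (g (s • A (pol R0 z)))
      (fderiv ℝ (fun z => g (s • A (pol R0 z))) z ζ) t = s * PhQ R0 w (Qs q g A s) z ζ := by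
  have hball : s • A (pol R0 z) ∈ Metric.ball (0 : Vec (j + 2)) ρ := by
    rw [mem_ball_zero_iff]; exact hz
  have hed : DifferentiableAt ℝ (pol R0 : ℝ × Vec (j + 1) → Vec (j + 2)) z :=
    (pol_smooth R0).differentiable (by simp) z
  have hAe : HasFDerivAt (fun z : ℝ × Vec (j + 1) => s • A (pol R0 z))
      (s • (A : Vec (j + 2) →L[ℝ] Vec (j + 2)).comp (fderiv ℝ (pol R0) z)) z := by
    exact (((A : Vec (j + 2) →L[ℝ] Vec (j + 2)).hasFDerivAt (x := pol R0 z)).comp z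
      hed.hasFDerivAt).const_smul s
  have hgd : DifferentiableAt ℝ g (s • A (pol R0 z)) :=
    ((hg.smooth.contDiffAt (Metric.isOpen_ball.mem_nhds hball)).differentiableAt (by simp))
  have hG : HasFDerivAt (fun z : ℝ × Vec (j + 1) => g (s • A (pol R0 z)))
      ((fderiv ℝ g (s • A (pol R0 z))).comp
        (s • (A : Vec (j + 2) →L[ℝ] Vec (j + 2)).comp (fderiv ℝ (pol R0) z))) z :=
    hgd.hasFDerivAt.comp z hAe
  have hD : fderiv ℝ (fun z : ℝ × Vec (j + 1) => g (s • A (pol R0 z))) z ζ =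
      s • fderiv ℝ g (s • A (pol R0 z)) (A (fderiv ℝ (pol R0) z ζ)) := by
    rw [hG.fderiv]
    simp
  unfold nrm PhQ Qs
  beta_reduce
  rw [hD, wM_at hg A hs w hz]
  have e1 : ((w (pol R0 z) ^ 2 • q (g (s • A (pol R0 z))))
      (s • fderiv ℝ g (s • A (pol R0 z)) (A (fderiv ℝ (pol R0) z ζ))))
      (s • fderiv ℝ g (s • A (pol R0 z)) (A (fderiv ℝ (pol R0) z ζ))) =
      (s * w (pol R0 z)) ^ 2 * q (g (s • A (pol R0 z)))
        (fderiv ℝ g (s • A (pol R0 z)) (A (fderiv ℝ (pol R0) z ζ)))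
        (fderiv ℝ g (s • A (pol R0 z)) (A (fderiv ℝ (pol R0) z ζ))) := by
    simp only [map_smul, smul_apply, smul_eq_mul]
    ring
  rw [e1, Real.sqrt_mul (sq_nonneg _), Real.sqrt_sq (mul_pos hs (hw _)).le]
  ring

theorem pol_inj {R0 : ℝ} {z z' : ℝ × Vec (j + 1)} (hz : 0 < R0 + z.2 0) (hz' : 0 < R0 + z'.2 0)
    (h : pol R0 z = pol R0 z') : ∃ l : ℤ, z.1 = z'.1 + l := by
  have h0 : (R0 + z.2 0) * Real.cos (2 * Real.pi * z.1) =
      (R0 + z'.2 0) * Real.cos (2 * Real.pi * z'.1) := by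
    have := congrArg (fun Y : Vec (j + 2) => Y 0) h
    simpa [pol] using this
  have h1 : (R0 + z.2 0) * Real.sin (2 * Real.pi * z.1) =
      (R0 + z'.2 0) * Real.sin (2 * Real.pi * z'.1) := by
    have := congrArg (fun Y : Vec (j + 2) => Y 1) h
    simpa [pol] using this
  set r : ℝ := R0 + z.2 0
  set r' : ℝ := R0 + z'.2 0
  set a : ℝ := 2 * Real.pi * z.1
  set b : ℝ := 2 * Real.pi * z'.1
  have hr : r = r' := by
    have h2 : r ^ 2 = r' ^ 2 := by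
      have e1 : (r * Real.cos a) ^ 2 + (r * Real.sin a) ^ 2 = r ^ 2 := by
        have := Real.cos_sq_add_sin_sq a
        nlinarith
      have e2 : (r' * Real.cos b) ^ 2 + (r' * Real.sin b) ^ 2 = r' ^ 2 := by
        have := Real.cos_sq_add_sin_sq b
        nlinarith
      rw [← e1, ← e2, h0, h1]
    exact (pow_left_inj₀ hz.le hz'.le (by norm_num)).1 h2
  rw [← hr] at h0 h1
  have hc := mul_left_cancel₀ hz.ne' h0
  have hs := mul_left_cancel₀ hz.ne' h1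
  have h3 : Real.cos (a - b) = 1 := by
    rw [Real.cos_sub, hc, hs]
    have := Real.cos_sq_add_sin_sq b
    nlinarith
  obtain ⟨l, hl⟩ := (Real.cos_eq_one_iff _).1 h3
  refine ⟨l, ?_⟩
  have hpi : (0 : ℝ) < 2 * Real.pi := by positivity
  have h4 : 2 * Real.pi * z.1 = 2 * Real.pi * (z'.1 + l) := by
    have : (l : ℝ) * (2 * Real.pi) = 2 * Real.pi * z.1 - 2 * Real.pi * z'.1 := hl
    linarith
  exact mul_left_cancel₀ hpi.ne' h4

theorem CF7_norm (Y : Vec (n + 3)) : ‖Y‖ ^ 2 = (Y 0 ^ 2 + Y 1 ^ 2) + Y 2 ^ 2 +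
    ∑ i, if i = 0 ∨ i = 1 ∨ i = 2 then (0 : ℝ) else Y i ^ 2 := by
  rw [EuclideanSpace.norm_sq_eq]
  have h2 : (2 : Fin (n + 3)) = Fin.succ (Fin.succ 0) := rfl
  have h1 : (1 : Fin (n + 3)) = Fin.succ 0 := rfl
  have k0 : ∀ i : Fin n, (i.succ.succ.succ : Fin (n + 3)) ≠ 0 := fun i => Fin.succ_ne_zero _
  have k1 : ∀ i : Fin n, (i.succ.succ.succ : Fin (n + 3)) ≠ 1 := fun i => by
    rw [h1]
    intro h
    exact Fin.succ_ne_zero _ (Fin.succ_injective _ h)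
  have k2 : ∀ i : Fin n, (i.succ.succ.succ : Fin (n + 3)) ≠ 2 := fun i => by
    rw [h2]
    intro h
    exact Fin.succ_ne_zero _ (Fin.succ_injective _ (Fin.succ_injective _ h))
  have e1 : (∑ i, if i = 0 ∨ i = 1 ∨ i = 2 then (0 : ℝ) else Y i ^ 2) =
      ∑ i : Fin n, Y i.succ.succ.succ ^ 2 := by
    rw [Fin.sum_univ_succ, Fin.sum_univ_succ, Fin.sum_univ_succ]
    rw [if_pos (Or.inl rfl), if_pos (show (Fin.succ 0 : Fin (n + 3)) = 0 ∨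
      (Fin.succ 0 : Fin (n + 3)) = 1 ∨ (Fin.succ 0 : Fin (n + 3)) = 2 from Or.inr (Or.inl h1.symm)),
      if_pos (show (Fin.succ (Fin.succ 0) : Fin (n + 3)) = 0 ∨
      (Fin.succ (Fin.succ 0) : Fin (n + 3)) = 1 ∨ (Fin.succ (Fin.succ 0) : Fin (n + 3)) = 2 from
        Or.inr (Or.inr h2.symm))]
    rw [zero_add, zero_add, zero_add]
    refine Finset.sum_congr rfl fun i _ => ?_
    rw [if_neg]
    rintro (h | h | h)
    · exact k0 i h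
    · exact k1 i h
    · exact k2 i h
  rw [e1, Fin.sum_univ_succ, Fin.sum_univ_succ, Fin.sum_univ_succ]
  simp only [Real.norm_eq_abs, sq_abs, ← h1, ← h2]
  ring

theorem tWD_one {δ : ℝ} (hδ : 0 < δ) (h8 : δ ≤ 1 / 8) (ε : ℝ) {Y : Vec (n + 3)} (hY : 2 ≤ ‖Y‖) :
    Dn.tW δ ε Y = 1 := by
  apply D5_one
  by_contra hcon
  push Not at hcon
  have h := hcon.le
  have h1 := D5_tρ hδ h
  have h2 := D5_tr Y
  have hρ0 : 0 ≤ tρ Y := Real.sqrt_nonneg _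
  have hs : ∑ i, (if i = 0 ∨ i = 1 ∨ i = 2 then (0 : ℝ) else Y i ^ 2) =
      δ ^ 2 * ∑ i, if i = 0 ∨ i = 1 ∨ i = 2 then (0 : ℝ) else (Y i / δ) ^ 2 := by
    rw [Finset.mul_sum]
    refine Finset.sum_congr rfl (fun i _ => ?_)
    split_ifs
    · ring
    · field_simp
  have h5 : ∑ i, (if i = 0 ∨ i = 1 ∨ i = 2 then (0 : ℝ) else (Y i / δ) ^ 2) ≤ 5 / 12 := by
    unfold tq at h
    nlinarith [sq_nonneg (2 * (tρ Y - δ) / δ)]
  have hsq : (tr Y - 1) ^ 2 + Y 2 ^ 2 = tρ Y ^ 2 := by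
    unfold tρ
    rw [Real.sq_sqrt (by positivity)]
  have htr : tr Y ^ 2 = Y 0 ^ 2 + Y 1 ^ 2 := by
    unfold tr
    rw [Real.sq_sqrt (by positivity)]
  have hn := CF7_norm Y
  rw [hs, ← htr] at hn
  have h6 : tρ Y ≤ 1 / 5 := by linarith [h1.2]
  have h7 : tr Y ≤ 6 / 5 := by linarith [(abs_le.1 h2).2]
  have h7' : 0 ≤ tr Y := Real.sqrt_nonneg _
  have h9 : tr Y ^ 2 ≤ (6 / 5) ^ 2 := pow_le_pow_left₀ h7' h7 2
  have h10 : tρ Y ^ 2 ≤ (1 / 5) ^ 2 := pow_le_pow_left₀ hρ0 h6 2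
  have h11 : Y 2 ^ 2 ≤ tρ Y ^ 2 := by nlinarith [sq_nonneg (tr Y - 1)]
  have h12 : δ ^ 2 * ∑ i, (if i = 0 ∨ i = 1 ∨ i = 2 then (0 : ℝ) else (Y i / δ) ^ 2) ≤ 1 * (5 / 12) := by
    refine mul_le_mul ?_ h5 (D5_sumnn δ Y) (by norm_num)
    nlinarith
  have h13 : (2 : ℝ) ^ 2 ≤ ‖Y‖ ^ 2 := pow_le_pow_left₀ (by norm_num) hY 2
  linarith

theorem tWG_one {δ : ℝ} (hδ : 0 < δ) (h8 : δ ≤ 1 / 8) (ε : ℝ) {Y : Vec 2} (hY : 2 ≤ ‖Y‖) :
    Gn.tW δ ε Y = 1 := by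
  have htr : Gn.tr Y ^ 2 = ‖Y‖ ^ 2 := by
    unfold Gn.tr
    rw [Real.sq_sqrt (by positivity), EuclideanSpace.norm_sq_eq, Fin.sum_univ_two]
    simp only [Real.norm_eq_abs, sq_abs]
  have h0 : Gn.tΘ δ Y = 0 := by
    apply Gn.G4_Θ_zero
    by_contra hcon
    push Not at hcon
    have h1 := (Gn.G4_near hδ hcon).2
    have h2 := Gn.G4_tr_nonneg Y
    have h3 : Gn.tr Y ^ 2 ≤ (9 / 8) ^ 2 := pow_le_pow_left₀ h2 (by linarith) 2
    have h4 : (2 : ℝ) ^ 2 ≤ ‖Y‖ ^ 2 := pow_le_pow_left₀ (by norm_num) hY 2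
    rw [← htr] at h4
    norm_num at h3 h4
    linarith
  unfold Gn.tW
  rw [h0]
  ring

end EscW.On
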