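import Pool.Agent.EscW.DDefs
import Pool.Agent.EscM.N1

set_option autoImplicit false

/-!
Project EscW, part D, module D8: Riemannian metrics are Finsler metrics.
`cont`: for `(x, v)` with `x ∈ M.N`, `v` tangent: `q x v v = q (M.r x) (fderiv M.r x v) (fderiv M.r x v)`, continuous on `U`. `hom`: `q x (c v) (c v) = c² q x v v`. `lip`: the metric does not depend on the time.
-/

noncomputable section

namespace EscW.Dn

open Filter Topology Set EscF.T EscM EscMT MeasureTheory EscW.Ex
open scoped ContDiff

variable {d m n : ℕ}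

theorem finsler_of_riem {M : Sub d} {j : ℕ∞} {q : Vec d → Vec d →L[ℝ] Vec d →L[ℝ] ℝ}
    (hq : IsRiemannian M j q) : IsFinslerT M (nrm q) where
  fins t := by
    refine ⟨?_, ?_, ?_, ?_⟩
    · have h1 : ContinuousOn (fun p : Vec d × Vec d =>
          q (M.r p.1) (fderiv ℝ M.r p.1 p.2) (fderiv ℝ M.r p.1 p.2)) {p | p.1 ∈ M.U} := by
        have h2 : Continuous fun p : Vec d × Vec d => ((p.1, p.2, p.2) : Vec d × Vec d × Vec d) :=
          continuous_fst.prodMk (continuous_snd.prodMk continuous_snd)
        exact hq.smooth.continuousOn.comp h2.continuousOn fun p hp => hp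
      have h3 : ContinuousOn (fun p : Vec d × Vec d => √(q (M.r p.1) (fderiv ℝ M.r p.1 p.2)
          (fderiv ℝ M.r p.1 p.2))) {p | p.1 ∈ M.N ∧ IsTangent M p.1 p.2} :=
        (h1.mono fun p hp => M.sub hp.1).sqrt
      refine h3.congr fun p hp => ?_
      have h4 : M.r p.1 = p.1 := r_self M hp.1
      have h5 : fderiv ℝ M.r p.1 p.2 = p.2 := hp.2
      simp only [nrm]
      rw [h5, h4]
    · intro k x hx v hv
      simp only [nrm]
      rw [hq.periodic k x hx v v hv hv]
    · intro x _ v _ c hc
      simp only [nrm]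
      have h1 : q x (c • v) (c • v) = c ^ 2 * q x v v := by
        rw [map_smul, map_smul, ContinuousLinearMap.smul_apply, smul_eq_mul, smul_eq_mul]
        ring
      rw [h1, Real.sqrt_mul (sq_nonneg c), Real.sqrt_sq hc]
    · intro x hx v hv hv0
      exact Real.sqrt_pos.2 (hq.pos x hx v hv hv0)
  periodic _ _ _ _ _ := rfl
  lip := ⟨0, fun x _ v _ t t' => by simp [nrm]⟩

end EscW.Dn
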