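import Pool.Agent.EscW.E1

set_option autoImplicit false

/-!
Project EscW, part E, module E14: Lipschitz curves; the barrier.
`ftc_lip`: `f ∘ γ` is Lipschitz on `[0,1]`, so absolutely continuous; almost everywhere `γ` is differentiable
(Rademacher). `int_lip`: measurable and bounded on `[0,1]`. `bar_le`: where the derivative of one of the two
smooth steps of `bar` is not zero, the corresponding step of `wt` is one. `bar_exit`: a closed set which
contains the complement of the room.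
-/

noncomputable section

namespace EscW.Ex

open Filter Topology Set EscF.T EscM EscMT MeasureTheory
open scoped ContDiff

variable {d m n : ℕ}

theorem E14_bdd {γ : ℝ → Vec m} (hγ : ∃ C, LipschitzWith C γ) : ∃ C : NNReal, LipschitzWith C γ ∧
    ∀ s, ‖deriv γ s‖ ≤ C := by
  obtain ⟨C, hC⟩ := hγ
  exact ⟨C, hC, fun s => norm_deriv_le_of_lipschitz hC⟩

theorem int_lip {g : Vec m × Vec m → ℝ} (hg : Continuous g) {γ : ℝ → Vec m} (hγ : ∃ C, LipschitzWith C γ) :
    IntervalIntegrable (fun s => g (γ s, deriv γ s)) volume 0 1 := by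
  obtain ⟨C, hC, hb⟩ := E14_bdd hγ
  have hK : IsCompact ((γ '' Icc (0:ℝ) 1) ×ˢ Metric.closedBall (0 : Vec m) C) :=
    (isCompact_Icc.image hC.continuous).prod (isCompact_closedBall _ _)
  obtain ⟨D, hD⟩ := hK.exists_bound_of_continuousOn hg.continuousOn
  rw [intervalIntegrable_iff_integrableOn_Ioc_of_le zero_le_one]
  have hm : Measurable fun s => g (γ s, deriv γ s) :=
    hg.measurable.comp (hC.continuous.measurable.prodMk (measurable_deriv γ))
  refine MeasureTheory.Measure.integrableOn_of_bounded (M := D) ?_ hm.aestronglyMeasurable ?_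
  · simp
  · rw [ae_restrict_iff' measurableSet_Ioc]
    refine Filter.Eventually.of_forall fun s hs => hD _ ⟨⟨s, Ioc_subset_Icc_self hs, rfl⟩, ?_⟩
    simpa using hb s

theorem ftc_lip {f : Vec m → ℝ} (hf : ContDiff ℝ 1 f) {γ : ℝ → Vec m} (hγ : ∃ C, LipschitzWith C γ) :
    IntervalIntegrable (fun s => fderiv ℝ f (γ s) (deriv γ s)) volume 0 1 ∧
      ∫ s in (0:ℝ)..1, fderiv ℝ f (γ s) (deriv γ s) = f (γ 1) - f (γ 0) := by
  have hc : Continuous (fderiv ℝ f) := hf.continuous_fderiv one_ne_zero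
  have hg : Continuous fun p : Vec m × Vec m => fderiv ℝ f p.1 p.2 :=
    (hc.comp continuous_fst).clm_apply continuous_snd
  refine ⟨int_lip hg hγ, ?_⟩
  obtain ⟨C, hC, hb⟩ := E14_bdd hγ
  obtain ⟨r, hr⟩ := (isCompact_Icc.image hC.continuous : IsCompact (γ '' Icc (0:ℝ) 1)).isBounded.subset_closedBall 0
  have hball : ∀ t ∈ Icc (0:ℝ) 1, γ t ∈ Metric.closedBall (0 : Vec m) r := fun t ht => hr ⟨t, ht, rfl⟩
  obtain ⟨D, hD⟩ := (isCompact_closedBall (0 : Vec m) r).exists_bound_of_continuousOn hc.continuousOn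
  have hlip : ∀ x ∈ Metric.closedBall (0 : Vec m) r, ∀ y ∈ Metric.closedBall (0 : Vec m) r,
      ‖f y - f x‖ ≤ max D 0 * ‖y - x‖ := by
    intro x hx y hy
    exact (convex_closedBall (0 : Vec m) r).norm_image_sub_le_of_norm_fderiv_le
      (fun w _ => (hf.differentiable one_ne_zero).differentiableAt)
      (fun w hw => (hD w hw).trans (le_max_left _ _)) hx hy
  have hac : AbsolutelyContinuousOnInterval (fun t => f (γ t)) 0 1 := by
    refine LipschitzOnWith.absolutelyContinuousOnInterval (K := (max D 0 * C).toNNReal) ?_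
    refine LipschitzOnWith.of_dist_le_mul fun s hs t ht => ?_
    rw [uIcc_of_le zero_le_one] at hs ht
    rw [Real.coe_toNNReal _ (mul_nonneg (le_max_right _ _) C.coe_nonneg), dist_eq_norm]
    refine (hlip _ (hball t ht) _ (hball s hs)).trans ?_
    rw [mul_assoc, ← dist_eq_norm]
    exact mul_le_mul_of_nonneg_left (hC.dist_le_mul s t) (le_max_right _ _)
  have h1 := hac.integral_deriv_eq_sub
  rw [← h1]
  refine intervalIntegral.integral_congr_ae ?_
  filter_upwards [hC.ae_differentiableAt_real] with t ht _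
  exact (((hf.differentiable one_ne_zero).differentiableAt.hasFDerivAt).comp_hasDerivAt t ht.hasDerivAt).deriv.symm

theorem bar_smooth : ContDiff ℝ 1 (bar : Vec (n + 2) → ℝ) := by
  have h1 : ContDiff ℝ 1 (hh : Vec (n + 2) → ℝ) := hh_smooth.of_le (by norm_cast)
  have h2 : ContDiff ℝ 1 (sz : Vec (n + 2) → ℝ) := sz_smooth.of_le (by norm_cast)
  have hs : ContDiff ℝ 1 Real.smoothTransition := Real.smoothTransition.contDiff
  unfold bar
  exact (contDiff_const.mul (hs.comp (contDiff_const.sub (contDiff_const.mul h1)))).add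
    (contDiff_const.mul (hs.comp ((contDiff_const.mul h2).sub contDiff_const)))

theorem E14_coord (X : Vec (n + 2)) (i : Fin (n + 2)) : HasFDerivAt (fun X : Vec (n + 2) => 2 * Real.pi * X i)
    ((2 * Real.pi) • (EuclideanSpace.proj i : Vec (n + 2) →L[ℝ] ℝ)) X :=
  ((EuclideanSpace.proj i : Vec (n + 2) →L[ℝ] ℝ).hasFDerivAt).const_mul (2 * Real.pi)

theorem E14_le (v : Vec (n + 2)) (i : Fin (n + 2)) : |v i| ≤ ‖v‖ := by
  have h := PiLp.norm_apply_le v i
  rwa [Real.norm_eq_abs] at h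

theorem E14_hh (X : Vec (n + 2)) : ∃ L : Vec (n + 2) →L[ℝ] ℝ, HasFDerivAt hh L X ∧
    ∀ v, |L v| ≤ 8 * Real.pi * ‖v‖ := by
  have hi : ∀ i : Fin (n + 2), ∃ L : Vec (n + 2) →L[ℝ] ℝ,
      HasFDerivAt (fun X : Vec (n + 2) => Real.sin (2 * Real.pi * X i) ^ 2) L X ∧
      ∀ v, |L v| ≤ 4 * Real.pi * ‖v‖ := by
    intro i
    have h := ((Real.hasDerivAt_sin (2 * Real.pi * X i)).pow 2).comp_hasFDerivAt X (E14_coord X i)
    refine ⟨_, h, fun v => ?_⟩
    have e : (((2 : ℕ) : ℝ) * Real.sin (2 * Real.pi * X i) ^ (2 - 1) * Real.cos (2 * Real.pi * X i)) •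
        ((2 * Real.pi) • (EuclideanSpace.proj i : Vec (n + 2) →L[ℝ] ℝ)) = 
        (4 * Real.pi * (Real.sin (2 * Real.pi * X i) * Real.cos (2 * Real.pi * X i))) •
        (EuclideanSpace.proj i : Vec (n + 2) →L[ℝ] ℝ) := by
      rw [smul_smul]
      congr 1
      norm_num
      ring
    rw [e]
    have e2 : ((4 * Real.pi * (Real.sin (2 * Real.pi * X i) * Real.cos (2 * Real.pi * X i))) •
        (EuclideanSpace.proj i : Vec (n + 2) →L[ℝ] ℝ)) v = 4 * Real.pi * (Real.sin (2 * Real.pi * X i) *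
        Real.cos (2 * Real.pi * X i)) * v i := rfl
    rw [e2, abs_mul, abs_mul, abs_of_pos (by positivity : (0:ℝ) < 4 * Real.pi), abs_mul]
    have h1 := Real.abs_sin_le_one (2 * Real.pi * X i)
    have h2 := Real.abs_cos_le_one (2 * Real.pi * X i)
    have h3 : |Real.sin (2 * Real.pi * X i)| * |Real.cos (2 * Real.pi * X i)| ≤ 1 :=
      mul_le_one₀ h1 (abs_nonneg _) h2
    have h4 : 4 * Real.pi * (|Real.sin (2 * Real.pi * X i)| * |Real.cos (2 * Real.pi * X i)|) ≤
        4 * Real.pi := mul_le_of_le_one_right (by positivity) h3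
    exact mul_le_mul h4 (E14_le v i) (abs_nonneg _) (by positivity)
  obtain ⟨L0, h0, b0⟩ := hi 0
  obtain ⟨L1, h1, b1⟩ := hi 1
  refine ⟨L0 + L1, h0.add h1, fun v => ?_⟩
  have e : (L0 + L1) v = L0 v + L1 v := rfl
  rw [e]
  refine (abs_add_le _ _).trans ?_
  linarith [b0 v, b1 v]

theorem E14_sz (X : Vec (n + 2)) : ∃ L : Vec (n + 2) →L[ℝ] ℝ, HasFDerivAt sz L X ∧
    ∀ v, |L v| ≤ 2 * Real.pi * (n + 2) * ‖v‖ := by
  have hi : ∀ i : Fin (n + 2), ∃ L : Vec (n + 2) →L[ℝ] ℝ,
      HasFDerivAt (fun X : Vec (n + 2) => if i = 0 ∨ i = 1 then 0 else 1 - Real.cos (2 * Real.pi * X i)) L X ∧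
      ∀ v, |L v| ≤ 2 * Real.pi * ‖v‖ := by
    intro i
    by_cases hi : i = 0 ∨ i = 1
    · simp only [hi, if_true]
      refine ⟨0, hasFDerivAt_const _ _, fun v => ?_⟩
      have e : (0 : Vec (n + 2) →L[ℝ] ℝ) v = 0 := rfl
      rw [e, abs_zero]
      positivity
    · simp only [hi, if_false]
      have h := ((Real.hasDerivAt_cos (2 * Real.pi * X i)).const_sub 1).comp_hasFDerivAt X (E14_coord X i)
      refine ⟨_, h, fun v => ?_⟩
      have e2 : ((-(-Real.sin (2 * Real.pi * X i))) •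
        ((2 * Real.pi) • (EuclideanSpace.proj i : Vec (n + 2) →L[ℝ] ℝ))) v =
          Real.sin (2 * Real.pi * X i) * (2 * Real.pi * v i) := by
        rw [neg_neg]
        rfl
      rw [e2, abs_mul, abs_mul, abs_of_pos (by positivity : (0:ℝ) < 2 * Real.pi)]
      have h1 := Real.abs_sin_le_one (2 * Real.pi * X i)
      have h2 : 2 * Real.pi * |v i| ≤ 2 * Real.pi * ‖v‖ :=
        mul_le_mul_of_nonneg_left (E14_le v i) (by positivity)
      calc |Real.sin (2 * Real.pi * X i)| * (2 * Real.pi * |v i|) ≤ 1 * (2 * Real.pi * |v i|) :=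
            mul_le_mul_of_nonneg_right h1 (by positivity)
        _ ≤ 2 * Real.pi * ‖v‖ := by rw [one_mul]; exact h2
  choose L hL bL using hi
  refine ⟨∑ i, L i, HasFDerivAt.fun_sum fun i _ => hL i, fun v => ?_⟩
  have e : (∑ i, L i) v = ∑ i, L i v := by
    rw [sum_apply]
  rw [e]
  refine (Finset.abs_sum_le_sum_abs _ _).trans ?_
  refine (Finset.sum_le_sum fun i _ => bL i v).trans ?_
  rw [Finset.sum_const, Finset.card_univ, Fintype.card_fin, nsmul_eq_mul]
  push_cast
  exact le_of_eq (by ring)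

theorem bar_le (n : ℕ) : ∃ A0 : ℝ, 0 ≤ A0 ∧ ∀ A : ℝ, A0 ≤ A → ∀ X v : Vec (n + 2),
    fderiv ℝ bar X v ≤ FF A X v - v 0 := by
  obtain ⟨C, hC, hb, hz⟩ := st_deriv
  refine ⟨64 * Real.pi * (n + 2) * C, by positivity, fun A hA X v => ?_⟩
  obtain ⟨L, hL, bL⟩ := E14_hh X
  obtain ⟨S, hS, bS⟩ := E14_sz X
  have hst : Differentiable ℝ Real.smoothTransition :=
    (Real.smoothTransition.contDiff (n := 1)).differentiable one_ne_zero
  have d1 : HasFDerivAt (fun X : Vec (n + 2) => 2 * Real.smoothTransition (3 - 4 * hh X))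
      ((2:ℝ) • (deriv Real.smoothTransition (3 - 4 * hh X) • (-((4:ℝ) • L)))) X := by
    have h := HasDerivAt.comp_hasFDerivAt (f := fun X : Vec (n + 2) => 3 - 4 * hh X) X
      (hst (3 - 4 * hh X)).hasDerivAt ((hL.const_mul 4).const_sub 3)
    exact h.const_mul 2
  have d2 : HasFDerivAt (fun X : Vec (n + 2) => 2 * Real.smoothTransition (4 * sz X - 1))
      ((2:ℝ) • (deriv Real.smoothTransition (4 * sz X - 1) • ((4:ℝ) • S))) X := by
    have h := HasDerivAt.comp_hasFDerivAt (f := fun X : Vec (n + 2) => 4 * sz X - 1) X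
      (hst (4 * sz X - 1)).hasDerivAt ((hS.const_mul 4).sub_const 1)
    exact h.const_mul 2
  have d3 : HasFDerivAt bar _ X := d1.add d2
  rw [d3.fderiv]
  set a := deriv Real.smoothTransition (3 - 4 * hh X) with ha
  set b := deriv Real.smoothTransition (4 * sz X - 1) with hbdef
  have e : ((2:ℝ) • (a • (-((4:ℝ) • L))) + (2:ℝ) • (b • ((4:ℝ) • S))) v =
      8 * (-(a * L v)) + 8 * (b * S v) := by
    have e1 : ((2:ℝ) • (a • (-((4:ℝ) • L))) + (2:ℝ) • (b • ((4:ℝ) • S))) v =
      2 * (a * (-(4 * L v))) + 2 * (b * (4 * S v)) := rfl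
    rw [e1]
    ring
  rw [e]
  have s1 : 0 ≤ Real.smoothTransition (4 * (1 - hh X)) := Real.smoothTransition.nonneg _
  have s2 : 0 ≤ Real.smoothTransition (8 * sz X - 1) := Real.smoothTransition.nonneg _
  have a1 : |a| ≤ C * Real.smoothTransition (4 * (1 - hh X)) := by
    by_cases h : 3 - 4 * hh X < 0 ∨ 1 < 3 - 4 * hh X
    · rw [ha, hz _ h, abs_zero]
      positivity
    · push Not at h
      rw [Real.smoothTransition.one_of_one_le (by linarith), mul_one]
      exact hb _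
  have b1 : |b| ≤ C * Real.smoothTransition (8 * sz X - 1) := by
    by_cases h : 4 * sz X - 1 < 0 ∨ 1 < 4 * sz X - 1
    · rw [hbdef, hz _ h, abs_zero]
      positivity
    · push Not at h
      rw [Real.smoothTransition.one_of_one_le (by linarith), mul_one]
      exact hb _
  have hn : (2:ℝ) ≤ n + 2 := by
    have : (0:ℝ) ≤ n := Nat.cast_nonneg n
    linarith
  have hv : 0 ≤ ‖v‖ := norm_nonneg v
  have t1 : -(a * L v) ≤ C * Real.smoothTransition (4 * (1 - hh X)) * (8 * Real.pi * ‖v‖) := by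
    refine (neg_le_abs _).trans ?_
    rw [abs_mul]
    exact mul_le_mul a1 (bL v) (abs_nonneg _) (by positivity)
  have t2 : b * S v ≤ C * Real.smoothTransition (8 * sz X - 1) * (2 * Real.pi * (n + 2) * ‖v‖) := by
    refine (le_abs_self _).trans ?_
    rw [abs_mul]
    exact mul_le_mul b1 (bS v) (abs_nonneg _) (by positivity)
  have hz0 : 0 ≤ sz X := sz_nonneg X
  have hs : |Real.sin (2 * Real.pi * X 1) / 4 * v 0| ≤ ‖v‖ / 4 := by
    rw [abs_mul, abs_div, abs_of_pos (by norm_num : (0:ℝ) < 4)]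
    have h1 := Real.abs_sin_le_one (2 * Real.pi * X 1)
    have h2 := E14_le v 0
    have h3 : |Real.sin (2 * Real.pi * X 1)| / 4 ≤ 1 / 4 := by linarith
    have h4 := mul_le_mul h3 h2 (abs_nonneg _) (by norm_num : (0:ℝ) ≤ 1 / 4)
    linarith
  have hs1 := (abs_le.1 hs).2
  have hv0 : v 0 ≤ ‖v‖ := (le_abs_self _).trans (E14_le v 0)
  have key : A * (Real.smoothTransition (4 * (1 - hh X)) + Real.smoothTransition (8 * sz X - 1)) * ‖v‖ ≤
      FF A X v - v 0 := by
    unfold FF wt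
    nlinarith [mul_nonneg hz0 hv]
  refine le_trans ?_ key
  have k1 : 8 * (C * Real.smoothTransition (4 * (1 - hh X)) * (8 * Real.pi * ‖v‖)) ≤
      64 * Real.pi * (n + 2) * C * (Real.smoothTransition (4 * (1 - hh X)) * ‖v‖) := by
    have : 0 ≤ Real.pi * C * (Real.smoothTransition (4 * (1 - hh X)) * ‖v‖) := by positivity
    nlinarith
  have k2 : 8 * (C * Real.smoothTransition (8 * sz X - 1) * (2 * Real.pi * (n + 2) * ‖v‖)) ≤
      64 * Real.pi * (n + 2) * C * (Real.smoothTransition (8 * sz X - 1) * ‖v‖) := by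
    have : 0 ≤ Real.pi * (n + 2) * C * (Real.smoothTransition (8 * sz X - 1) * ‖v‖) := by positivity
    nlinarith
  have k3 : 64 * Real.pi * (n + 2) * C * (Real.smoothTransition (4 * (1 - hh X)) * ‖v‖) ≤
      A * (Real.smoothTransition (4 * (1 - hh X)) * ‖v‖) :=
    mul_le_mul_of_nonneg_right hA (by positivity)
  have k4 : 64 * Real.pi * (n + 2) * C * (Real.smoothTransition (8 * sz X - 1) * ‖v‖) ≤
      A * (Real.smoothTransition (8 * sz X - 1) * ‖v‖) :=
    mul_le_mul_of_nonneg_right hA (by positivity)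
  linarith

theorem bar_exit : ∀ X ∈ closure (univ \ KK n), 2 ≤ bar X := by
  intro X hX
  have hc : IsClosed {X : Vec (n + 2) | hh X ≤ 1 / 2 ∨ 1 / 2 ≤ sz X} :=
    (isClosed_le hh_smooth.continuous continuous_const).union
      (isClosed_le continuous_const sz_smooth.continuous)
  have hsub : univ \ KK n ⊆ {X : Vec (n + 2) | hh X ≤ 1 / 2 ∨ 1 / 2 ≤ sz X} := by
    rintro Y ⟨_, hY⟩
    by_contra h
    have h' : ¬ (hh Y ≤ 1 / 2 ∨ 1 / 2 ≤ sz Y) := h
    push Not at h'
    exact hY ⟨h'.1.le, h'.2.le⟩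
  have h := closure_minimal hsub hc hX
  have n1 := Real.smoothTransition.nonneg (3 - 4 * hh X)
  have n2 := Real.smoothTransition.nonneg (4 * sz X - 1)
  unfold bar
  rcases h with h | h
  · rw [Real.smoothTransition.one_of_one_le (x := 3 - 4 * hh X) (by linarith)]
    linarith
  · rw [Real.smoothTransition.one_of_one_le (x := 4 * sz X - 1) (by linarith)]
    linarith

end EscW.Ex
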