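import Pool.Agent.EscW.ONDefs
import Pool.Agent.EscW.E14

set_option autoImplicit false

/-!
Project EscW, part O, module O9: curves in the room: integrals.
`int_curve`: replace `γ` by `γ ∘ clamp` (`clamp s = max 0 (min s 1)`): `(s, ζ) ↦ Φ (T (γ (clamp s))) ζ` is continuous on `ℝ × (ℝ × Vec k)` (`hΦ`, `T (γ s) ∈ 𝒜` on `[0,1]`); `s ↦ DT (γ s) (deriv γ s)` is measurable (`measurable_deriv`) and bounded on `[0,1]`; so the composition is measurable and
bounded on `[0,1]` (compact sets).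
`tangent_ae`: `γ` is differentiable almost everywhere (`LipschitzWith.ae_differentiableAt`), `M'.r (γ s) = γ s` on `(0,1)` (`M'.r x = x` on `N`, EscM files), differentiate (see `X0_TN` in `EscW/X0.lean`).
`ftc_B`: `E14.ftc_lip` for `x ↦ a x i + h (T x)` (of class `C¹`), chain rule, `(DT v).1 = v i`.
`concat`: `γ s = γ1 (2 s)` for `s ≤ 1/2`, `γ2 (2 s - 1)` for `1/2 ≤ s`; Lipschitz: glue `γ1 (min (2s) 1)` and `γ2 (max (2s-1) 0)`, i.e. `γ s = γ1 (min (2 s) 1) + γ2 (max (2 s - 1) 0) - γ2 0` (sum of Lipschitz functions). Integrals over `[0,1/2]`, `[1/2,1]`: `deriv γ s = 2 deriv γ1 (2 s)` for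
`s < 1/2`, homogeneity with the factor `2`, substitution.
-/

noncomputable section

namespace EscW.On

open Filter Topology Set EscF.T EscM EscMT MeasureTheory EscW.Ex EscW.Dn
open scoped ContDiff

variable {d m k j n : ℕ}

theorem int_curve {Φ : ℝ × Vec k → ℝ × Vec k → ℝ} {𝒜 : Set (ℝ × Vec k)}
    (hΦ : ContinuousOn (fun p : (ℝ × Vec k) × (ℝ × Vec k) => Φ p.1 p.2) {p | p.1 ∈ 𝒜})
    {T : Vec m → ℝ × Vec k} (hT : ContDiff ℝ 1 T) {γ : ℝ → Vec m} (hγ : ∃ C, LipschitzWith C γ)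
    (hA : ∀ s ∈ Icc (0:ℝ) 1, T (γ s) ∈ 𝒜) :
    IntervalIntegrable (fun s => Φ (T (γ s)) (fderiv ℝ T (γ s) (deriv γ s))) volume 0 1 := by
  obtain ⟨C, hC, hb⟩ := E14_bdd hγ
  obtain ⟨q, hqd⟩ : ∃ q : ℝ → ℝ, q = fun s => max 0 (min s 1) := ⟨_, rfl⟩
  have hq : Continuous q := by rw [hqd]; fun_prop
  have hq01 : ∀ s, q s ∈ Icc (0:ℝ) 1 := by
    intro s
    rw [hqd]
    exact ⟨le_max_left _ _, max_le zero_le_one (min_le_right _ _)⟩
  have hqe : ∀ s ∈ Icc (0:ℝ) 1, q s = s := by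
    intro s hs
    rw [hqd]
    simp [min_eq_left hs.2, max_eq_right hs.1]
  have hDc : Continuous fun p : Vec m × Vec m => fderiv ℝ T p.1 p.2 :=
    ((hT.continuous_fderiv one_ne_zero).comp continuous_fst).clm_apply continuous_snd
  have hg : Continuous fun p : ℝ × (ℝ × Vec k) => Φ (T (γ (q p.1))) p.2 := by
    have h1 : Continuous fun p : ℝ × (ℝ × Vec k) =>
        ((T (γ (q p.1)), p.2) : (ℝ × Vec k) × (ℝ × Vec k)) :=
      (hT.continuous.comp (hC.continuous.comp (hq.comp continuous_fst))).prodMk continuous_snd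
    exact hΦ.comp_continuous h1 (fun p => hA _ (hq01 p.1))
  have hDm : Measurable fun s => fderiv ℝ T (γ s) (deriv γ s) :=
    hDc.measurable.comp (hC.continuous.measurable.prodMk (measurable_deriv γ))
  have hm : Measurable fun s => Φ (T (γ (q s))) (fderiv ℝ T (γ s) (deriv γ s)) :=
    hg.measurable.comp (measurable_id.prodMk hDm)
  have hK1 : IsCompact ((γ '' Icc (0:ℝ) 1) ×ˢ Metric.closedBall (0 : Vec m) C) :=
    (isCompact_Icc.image hC.continuous).prod (isCompact_closedBall _ _)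
  have hK3 := (isCompact_Icc (a := (0:ℝ)) (b := 1)).prod (hK1.image hDc)
  obtain ⟨D, hD⟩ := hK3.exists_bound_of_continuousOn hg.continuousOn
  rw [intervalIntegrable_iff_integrableOn_Ioc_of_le zero_le_one]
  have h1 : IntegrableOn (fun s => Φ (T (γ (q s))) (fderiv ℝ T (γ s) (deriv γ s))) (Ioc (0:ℝ) 1)
      volume := by
    refine MeasureTheory.Measure.integrableOn_of_bounded (M := D) ?_ hm.aestronglyMeasurable ?_
    · simp
    · rw [ae_restrict_iff' measurableSet_Ioc]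
      refine Filter.Eventually.of_forall fun s hs => ?_
      have hs' := Ioc_subset_Icc_self hs
      refine hD (s, fderiv ℝ T (γ s) (deriv γ s)) ⟨hs', (γ s, deriv γ s), ⟨⟨s, hs', rfl⟩, ?_⟩, rfl⟩
      simpa using hb s
  refine h1.congr_fun (fun s hs => ?_) measurableSet_Ioc
  simp only [hqe s (Ioc_subset_Icc_self hs)]

theorem O9_r {M' : Sub m} {x : Vec m} (hx : x ∈ M'.N) : M'.r x = x := by
  by_contra h
  have := M'.nearest x (M'.sub hx) x hx (fun e => h e.symm)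
  rw [dist_self] at this
  exact absurd this (not_lt.2 dist_nonneg)

theorem tangent_ae {M' : Sub m} {γ : ℝ → Vec m} (hγ : ∃ C, LipschitzWith C γ)
    (hN : ∀ s ∈ Icc (0:ℝ) 1, γ s ∈ M'.N) : ∀ᵐ s : ℝ, s ∈ Ioo (0:ℝ) 1 → IsTangent M' (γ s) (deriv γ s) := by
  obtain ⟨C, hC⟩ := hγ
  filter_upwards [hC.ae_differentiableAt_real] with s hs hsb
  have hm : γ s ∈ M'.N := hN s ⟨hsb.1.le, hsb.2.le⟩
  have hd : DifferentiableAt ℝ M'.r (γ s) :=
    (M'.smooth.contDiffAt (M'.isOpen.mem_nhds (M'.sub hm))).differentiableAt (by simp)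
  have h1 : HasDerivAt (fun s => M'.r (γ s)) (fderiv ℝ M'.r (γ s) (deriv γ s)) s :=
    hd.hasFDerivAt.comp_hasDerivAt s hs.hasDerivAt
  have h2 : (fun s => M'.r (γ s)) =ᶠ[𝓝 s] γ := by
    filter_upwards [Ioo_mem_nhds hsb.1 hsb.2] with s' hs'
    exact O9_r (hN s' ⟨hs'.1.le, hs'.2.le⟩)
  exact (h1.congr_of_eventuallyEq h2.symm).unique hs.hasDerivAt

theorem ftc_B {T : Vec m → ℝ × Vec k} (hT : ContDiff ℝ 1 T) {i : Fin m} (hi : ∀ x, (T x).1 = x i)
    {h : ℝ × Vec k → ℝ} (hh : ContDiff ℝ 1 h) (a : ℝ) {γ : ℝ → Vec m} (hγ : ∃ C, LipschitzWith C γ) :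
    IntervalIntegrable (fun s => a * (fderiv ℝ T (γ s) (deriv γ s)).1 +
        fderiv ℝ h (T (γ s)) (fderiv ℝ T (γ s) (deriv γ s))) volume 0 1 ∧
      ∫ s in (0:ℝ)..1, (a * (fderiv ℝ T (γ s) (deriv γ s)).1 +
        fderiv ℝ h (T (γ s)) (fderiv ℝ T (γ s) (deriv γ s))) =
        (a * γ 1 i + h (T (γ 1))) - (a * γ 0 i + h (T (γ 0))) := by
  have hf : ContDiff ℝ 1 fun x : Vec m => a * (T x).1 + h (T x) :=
    (contDiff_const.mul (contDiff_fst.comp hT)).add (hh.comp hT)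
  have hd : ∀ x v : Vec m, fderiv ℝ (fun x : Vec m => a * (T x).1 + h (T x)) x v =
      a * (fderiv ℝ T x v).1 + fderiv ℝ h (T x) (fderiv ℝ T x v) := by
    intro x v
    have h1 : HasFDerivAt T (fderiv ℝ T x) x := (hT.differentiable one_ne_zero x).hasFDerivAt
    have h2 : HasFDerivAt h (fderiv ℝ h (T x)) (T x) := (hh.differentiable one_ne_zero (T x)).hasFDerivAt
    have h3 := (h1.fst.const_mul a).add (h2.comp x h1)
    have h4 : HasFDerivAt (fun x : Vec m => a * (T x).1 + h (T x))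
        (a • (ContinuousLinearMap.fst ℝ ℝ (Vec k)).comp (fderiv ℝ T x) +
          (fderiv ℝ h (T x)).comp (fderiv ℝ T x)) x := h3
    rw [h4.fderiv]
    rfl
  have h5 := ftc_lip hf hγ
  simp only [hd] at h5
  simp only [hi] at h5
  exact h5

theorem concat {K : Set (Vec m)} {γ1 γ2 : ℝ → Vec m} (h1 : ∃ C, LipschitzWith C γ1)
    (h2 : ∃ C, LipschitzWith C γ2) (h12 : γ1 1 = γ2 0) (hK1 : ∀ s ∈ Icc (0:ℝ) 1, γ1 s ∈ K)
    (hK2 : ∀ s ∈ Icc (0:ℝ) 1, γ2 s ∈ K) {f : Vec m → Vec m → ℝ}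
    (hf : ∀ x ∈ K, ∀ (v : Vec m) (c : ℝ), 0 ≤ c → f x (c • v) = c * f x v)
    (i1 : IntervalIntegrable (fun s => f (γ1 s) (deriv γ1 s)) volume 0 1)
    (i2 : IntervalIntegrable (fun s => f (γ2 s) (deriv γ2 s)) volume 0 1) :
    ∃ γ : ℝ → Vec m, (∃ C, LipschitzWith C γ) ∧ γ 0 = γ1 0 ∧ γ 1 = γ2 1 ∧ (∀ s ∈ Icc (0:ℝ) 1, γ s ∈ K) ∧
      IntervalIntegrable (fun s => f (γ s) (deriv γ s)) volume 0 1 ∧
      ∫ s in (0:ℝ)..1, f (γ s) (deriv γ s) =
        (∫ s in (0:ℝ)..1, f (γ1 s) (deriv γ1 s)) + ∫ s in (0:ℝ)..1, f (γ2 s) (deriv γ2 s) := by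
  obtain ⟨C1, hC1⟩ := h1
  obtain ⟨C2, hC2⟩ := h2
  obtain ⟨γ, hγd⟩ : ∃ γ : ℝ → Vec m, γ = fun s => γ1 (min (2 * s) 1) + γ2 (max (2 * s - 1) 0) - γ2 0 :=
    ⟨_, rfl⟩
  have ha : ∀ s, s ≤ 1 / 2 → γ s = γ1 (2 * s) := by
    intro s hs
    rw [hγd]
    simp only
    rw [min_eq_left (by linarith), max_eq_right (by linarith), add_sub_cancel_right]
  have hb : ∀ s, 1 / 2 ≤ s → γ s = γ2 (2 * s - 1) := by
    intro s hs
    rw [hγd]
    simp only
    rw [min_eq_right (by linarith), max_eq_left (by linarith), h12]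
    abel
  have da : ∀ s, s < 1 / 2 → deriv γ s = (2:ℝ) • deriv γ1 (2 * s) := by
    intro s hs
    have e : γ =ᶠ[𝓝 s] fun s => γ1 (2 * s) := by
      filter_upwards [Iio_mem_nhds hs] with s' hs'
      exact ha s' (le_of_lt hs')
    rw [e.deriv_eq]
    exact deriv_comp_mul_left (2:ℝ) γ1 s
  have db : ∀ s, 1 / 2 < s → deriv γ s = (2:ℝ) • deriv γ2 (2 * s - 1) := by
    intro s hs
    have e : γ =ᶠ[𝓝 s] fun s => γ2 (2 * s - 1) := by
      filter_upwards [Ioi_mem_nhds hs] with s' hs'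
      exact hb s' (le_of_lt hs')
    rw [e.deriv_eq]
    have h3 := deriv_comp_mul_left (2:ℝ) (fun y => γ2 (y - 1)) s
    rw [deriv_comp_sub_const] at h3
    exact h3
  have ia : IntervalIntegrable (fun s => f (γ s) (deriv γ s)) volume 0 (1 / 2) ∧
      ∫ s in (0:ℝ)..(1 / 2), f (γ s) (deriv γ s) = ∫ s in (0:ℝ)..1, f (γ1 s) (deriv γ1 s) := by
    have e : ∀ᵐ s : ℝ, s ∈ Ioc (0:ℝ) (1 / 2) →
        2 * f (γ1 (2 * s)) (deriv γ1 (2 * s)) = f (γ s) (deriv γ s) := by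
      have hn : ∀ᵐ s : ℝ, s ≠ 1 / 2 := by rw [ae_iff]; simp
      filter_upwards [hn] with s hs hsI
      have hs1 : s < 1 / 2 := lt_of_le_of_ne hsI.2 hs
      rw [ha s hsI.2, da s hs1, hf _ (hK1 (2 * s) ⟨by linarith [hsI.1], by linarith⟩) _ _ zero_le_two]
    have e' : ∀ᵐ s : ℝ, s ∈ uIoc (0:ℝ) (1 / 2) →
        2 * f (γ1 (2 * s)) (deriv γ1 (2 * s)) = f (γ s) (deriv γ s) := by
      rwa [uIoc_of_le (by norm_num)]
    have hi : IntervalIntegrable (fun s => 2 * f (γ1 (2 * s)) (deriv γ1 (2 * s))) volume 0 (1 / 2) := by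
      have := (i1.comp_mul_left (c := 2)).const_mul 2
      simpa using this
    refine ⟨hi.congr_ae ((ae_restrict_iff' measurableSet_uIoc).2 e'), ?_⟩
    rw [← intervalIntegral.integral_congr_ae e', intervalIntegral.integral_const_mul]
    have h3 := intervalIntegral.mul_integral_comp_mul_left (a := 0) (b := 1 / 2)
      (f := fun s => f (γ1 s) (deriv γ1 s)) (2:ℝ)
    rw [h3]
    norm_num
  have ib : IntervalIntegrable (fun s => f (γ s) (deriv γ s)) volume (1 / 2) 1 ∧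
      ∫ s in (1 / 2 : ℝ)..1, f (γ s) (deriv γ s) = ∫ s in (0:ℝ)..1, f (γ2 s) (deriv γ2 s) := by
    have e' : ∀ᵐ s : ℝ, s ∈ uIoc (1 / 2 : ℝ) 1 →
        2 * f (γ2 (2 * s - 1)) (deriv γ2 (2 * s - 1)) = f (γ s) (deriv γ s) := by
      rw [uIoc_of_le (by norm_num)]
      refine Filter.Eventually.of_forall fun s hsI => ?_
      rw [hb s hsI.1.le, db s hsI.1, hf _ (hK2 (2 * s - 1) ⟨by linarith [hsI.1], by linarith [hsI.2]⟩) _ _
        zero_le_two]
    have hi : IntervalIntegrable (fun s => 2 * f (γ2 (2 * s - 1)) (deriv γ2 (2 * s - 1))) volume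
        (1 / 2) 1 := by
      have h4 := i2.comp_sub_right 1
      have := (h4.comp_mul_left (c := 2)).const_mul 2
      norm_num at this
      simpa using this
    refine ⟨hi.congr_ae ((ae_restrict_iff' measurableSet_uIoc).2 e'), ?_⟩
    rw [← intervalIntegral.integral_congr_ae e', intervalIntegral.integral_const_mul]
    have h3 := intervalIntegral.mul_integral_comp_mul_sub (a := 1 / 2) (b := 1)
      (f := fun s => f (γ2 s) (deriv γ2 s)) (2:ℝ) 1
    rw [h3]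
    norm_num
  refine ⟨γ, ⟨C1 * 2 + C2 * 2, ?_⟩, ?_, ?_, ?_, ia.1.trans ib.1, ?_⟩
  · have l2 : LipschitzWith 2 fun s : ℝ => 2 * s := by
      refine LipschitzWith.of_dist_le_mul fun x y => ?_
      rw [Real.dist_eq, Real.dist_eq, ← mul_sub, abs_mul]
      simp
    have l3 : LipschitzWith 2 fun s : ℝ => min (2 * s) 1 := l2.min_const 1
    have l4 : LipschitzWith 2 fun s : ℝ => max (2 * s - 1) 0 := by
      have : LipschitzWith 2 fun s : ℝ => 2 * s - 1 := by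
        refine LipschitzWith.of_dist_le_mul fun x y => ?_
        have := l2.dist_le_mul x y
        rwa [Real.dist_eq, sub_sub_sub_cancel_right, ← Real.dist_eq]
      exact this.max_const 0
    have l5 := (hC1.comp l3).add (hC2.comp l4)
    refine LipschitzWith.of_dist_le_mul fun x y => ?_
    have := l5.dist_le_mul x y
    rw [hγd, dist_sub_right]
    exact this
  · rw [ha 0 (by norm_num), mul_zero]
  · rw [hb 1 (by norm_num)]; norm_num
  · intro s hs
    rcases le_total s (1 / 2) with h | h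
    · rw [ha s h]; exact hK1 _ ⟨by linarith [hs.1], by linarith⟩
    · rw [hb s h]; exact hK2 _ ⟨by linarith, by linarith [hs.2]⟩
  · rw [← intervalIntegral.integral_add_adjacent_intervals ia.1 ib.1, ia.2, ib.2]

end EscW.On
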