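import Pool.Agent.EscW.O6a
import Pool.Agent.EscW.O9

set_option autoImplicit false

/-!
Project EscW, part O, module O10: exit.
`s1`, `η` of `margin` with `rb = r`; `s := s1 / 2`. Let `b = (a - ℓ) fst + Dh (T x)`, `‖b‖ ≤ |a - ℓ| + ‖Dh‖ ≤ s1`. For `x ∈ K`, tangent `v`, `ζ = DT v` (`ζ.1 = v i`): `(1 - κ) fderiv bar x v ≤ Φ (T x) ζ - (a ζ.1 + Dh (T x) ζ)`: if `‖(T x).2‖ < r`: the left hand side is `≤ 0` (`flat`, `κ < 1`), the right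
one `≥ 0` (`le`); else `bar_le` and `margin`. Integrate along `γ1` (`tangent_ae`, `int_curve`, `ftc_B`, `E14.ftc_lip` for `bar`): `excess ≥ (1 - κ) (bar (γ1 1) - bar (γ1 0)) ≥ (1 - κ) a0` (`exit`; `zero` at `γ1 0 = Λ z`).
-/

noncomputable section

namespace EscW.On

open Filter Topology Set EscF.T EscM EscMT MeasureTheory EscW.Ex EscW.Dn
open scoped ContDiff

variable {d m k j n : ℕ}

theorem O10_fst {T : Vec m → ℝ × Vec k} (hT : ContDiff ℝ 1 T) {i : Fin m} (hi : ∀ x, (T x).1 = x i)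
    (x v : Vec m) : (fderiv ℝ T x v).1 = v i := by
  have h1 : HasFDerivAt T (fderiv ℝ T x) x := (hT.differentiable one_ne_zero x).hasFDerivAt
  have h2 : HasFDerivAt (fun x => (T x).1)
      ((ContinuousLinearMap.fst ℝ ℝ (Vec k)).comp (fderiv ℝ T x)) x := h1.fst
  have h3 : (fun x => (T x).1) = (EuclideanSpace.proj i : Vec m →L[ℝ] ℝ) := by
    funext y
    exact hi y
  rw [h3] at h2
  have h4 : HasFDerivAt (EuclideanSpace.proj i : Vec m →L[ℝ] ℝ) (EuclideanSpace.proj i : Vec m →L[ℝ] ℝ) x :=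
    ContinuousLinearMap.hasFDerivAt _
  have h5 := h2.unique h4
  have h6 := congrArg (fun l : Vec m →L[ℝ] ℝ => l v) h5
  exact h6

theorem exit_cost {Φ0 : ℝ × Vec k → ℝ × Vec k → ℝ} {𝒜 : Set (ℝ × Vec k)} {r ℓ c c3 α β : ℝ}
    (hb : AnnBase Φ0 𝒜 r ℓ c c3 α β) {M' : Sub m} {O K : Set (Vec m)} {i : Fin m} {T : Vec m → ℝ × Vec k}
    {Λ : ℝ × Vec k → Vec m} (hc : AnnCover M' O i 𝒜 r T Λ) {a0 : ℝ} {bar : Vec m → ℝ} {θ0 : ℝ}
    {n : Fin m → ℤ} {γ : ℝ → Vec m} (hr : RoomBase M' O K i r ℓ a0 Φ0 T Λ bar θ0 n γ) {κ : ℝ} (hκ : 0 < κ)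
    (hκ1 : κ < 1) : ∃ s η : ℝ, 0 < s ∧ 0 < η ∧ ∀ Φ, AnnNear Φ0 Φ 𝒜 r η → ∀ (a : ℝ) (w : ℝ → Vec k)
      (h : ℝ × Vec k → ℝ), AnnCal Φ 𝒜 s ℓ a w h → ∀ F : Vec m → Vec m → ℝ → ℝ,
      (∀ x ∈ M'.N ∩ O, ∀ v t, F x v t = Φ (T x) (fderiv ℝ T x v)) →
      ∀ (t : ℝ) (z : ℝ × Vec k) (γ1 : ℝ → Vec m), ‖z.2‖ < r → (∃ C, LipschitzWith C γ1) → γ1 0 = Λ z →
        (∀ s ∈ Icc (0:ℝ) 1, γ1 s ∈ K) → γ1 1 ∈ closure (M'.N \ K) →
        (1 - κ) * a0 ≤ excess F (fun x _ => a * x i + h (T x)) t γ1 := by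
  obtain ⟨s1, η, hs1, hη, hmar⟩ := margin hb hb.r_pos hκ
  refine ⟨s1 / 2, η, by positivity, hη, ?_⟩
  intro Φ hΦ a w h hcal F hF t z γ1 hz hγ hγ0 hK hcl
  have hsub : ∀ s ∈ Icc (0:ℝ) 1, γ1 s ∈ M'.N ∩ O := fun s hs => hr.sub (hK s hs)
  have hA : ∀ s ∈ Icc (0:ℝ) 1, T (γ1 s) ∈ 𝒜 := fun s hs => hc.maps _ (hsub s hs)
  -- the integrals
  have hi1 := int_curve hΦ.cont hc.smooth hγ hA
  obtain ⟨hi2, he2⟩ := ftc_B hc.smooth hc.fst hcal.h_smooth a hγ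
  obtain ⟨hi3, he3⟩ := ftc_lip hr.smooth hγ
  have hexc : excess F (fun x _ => a * x i + h (T x)) t γ1 =
      ∫ s in (0:ℝ)..1, (Φ (T (γ1 s)) (fderiv ℝ T (γ1 s) (deriv γ1 s)) -
        (a * (fderiv ℝ T (γ1 s) (deriv γ1 s)).1 +
          fderiv ℝ h (T (γ1 s)) (fderiv ℝ T (γ1 s) (deriv γ1 s)))) := by
    rw [intervalIntegral.integral_sub hi1 hi2, he2]
    unfold excess
    congr 1
    refine intervalIntegral.integral_congr ?_
    intro s hs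
    rw [uIcc_of_le zero_le_one] at hs
    exact hF _ (hsub s hs) _ _
  -- the pointwise inequality
  have hpt : ∀ s ∈ Icc (0:ℝ) 1, IsTangent M' (γ1 s) (deriv γ1 s) →
      (1 - κ) * fderiv ℝ bar (γ1 s) (deriv γ1 s) ≤
        Φ (T (γ1 s)) (fderiv ℝ T (γ1 s) (deriv γ1 s)) -
        (a * (fderiv ℝ T (γ1 s) (deriv γ1 s)).1 +
          fderiv ℝ h (T (γ1 s)) (fderiv ℝ T (γ1 s) (deriv γ1 s))) := by
    intro s hs htan
    set x := γ1 s with hx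
    set v := deriv γ1 s with hv
    set ζ := fderiv ℝ T x v with hζ
    have hxA : T x ∈ 𝒜 := hA s hs
    have hκ2 : 0 ≤ 1 - κ := by linarith
    by_cases hlt : ‖(T x).2‖ < r
    · have h1 := hr.flat x (hK s hs) hlt v htan
      have h2 := hcal.le (T x) hxA ζ
      have h3 : (1 - κ) * fderiv ℝ bar x v ≤ 0 := mul_nonpos_of_nonneg_of_nonpos hκ2 h1
      linarith
    · have h1 := hr.bar_le x (hK s hs) v htan
      have h2 : ζ.1 = v i := O10_fst hc.smooth hc.fst x v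
      let b : ℝ × Vec k →L[ℝ] ℝ := (a - ℓ) • ContinuousLinearMap.fst ℝ ℝ (Vec k) + fderiv ℝ h (T x)
      have hb1 : ‖b‖ ≤ s1 := by
        have h4 : ‖(a - ℓ) • ContinuousLinearMap.fst ℝ ℝ (Vec k)‖ ≤ |a - ℓ| := by
          rw [norm_smul, Real.norm_eq_abs]
          exact mul_le_of_le_one_right (abs_nonneg _) (ContinuousLinearMap.norm_fst_le ℝ ℝ (Vec k))
        have h5 := norm_add_le ((a - ℓ) • ContinuousLinearMap.fst ℝ ℝ (Vec k)) (fderiv ℝ h (T x))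
        have h6 := hcal.h_small (T x)
        have h7 := hcal.a_near
        show ‖(a - ℓ) • ContinuousLinearMap.fst ℝ ℝ (Vec k) + fderiv ℝ h (T x)‖ ≤ s1
        linarith
      have h3 := hmar Φ hΦ (T x) hxA (not_lt.1 hlt) b ζ hb1
      have h4 : b ζ = (a - ℓ) * ζ.1 + fderiv ℝ h (T x) ζ := rfl
      have h5 : (1 - κ) * fderiv ℝ bar x v ≤ (1 - κ) * (Φ0 (T x) ζ - ℓ * v i) :=
        mul_le_mul_of_nonneg_left h1 hκ2
      rw [h4, h2] at h3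
      rw [h2]
      linarith
  have hmono : ∫ s in (0:ℝ)..1, (1 - κ) * fderiv ℝ bar (γ1 s) (deriv γ1 s) ≤
      ∫ s in (0:ℝ)..1, (Φ (T (γ1 s)) (fderiv ℝ T (γ1 s) (deriv γ1 s)) -
        (a * (fderiv ℝ T (γ1 s) (deriv γ1 s)).1 +
          fderiv ℝ h (T (γ1 s)) (fderiv ℝ T (γ1 s) (deriv γ1 s)))) := by
    refine intervalIntegral.integral_mono_ae_restrict zero_le_one (hi3.const_mul _) (hi1.sub hi2) ?_
    refine (ae_restrict_iff' measurableSet_Icc).2 ?_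
    have ht := tangent_ae (M' := M') hγ (fun s hs => (hsub s hs).1)
    have h0 : ∀ᵐ s : ℝ, s ≠ 0 := by simp [ae_iff]
    have h1 : ∀ᵐ s : ℝ, s ≠ 1 := by simp [ae_iff]
    filter_upwards [ht, h0, h1] with s hs hs0 hs1' hI
    exact hpt s hI (hs ⟨lt_of_le_of_ne hI.1 (Ne.symm hs0), lt_of_le_of_ne hI.2 hs1'⟩)
  rw [hexc]
  refine le_trans ?_ hmono
  rw [intervalIntegral.integral_const_mul, he3]
  have h1 := hr.exit (γ1 1) (hK 1 (right_mem_Icc.2 zero_le_one)) hcl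
  have h0 : bar (γ1 0) ≤ 0 := by
    rw [hγ0]
    exact hr.zero z hz
  exact mul_le_mul_of_nonneg_left (by linarith) (by linarith)

end EscW.On
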