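import Pool.Agent.EscW.O6a
import Pool.Agent.EscW.O9

set_option autoImplicit false

/-!
Project EscW, part O, module O11: second direction.
`cost = I0 - ℓ n i < a0`, `I0 = ∫ Φ0 (T γ) (DT γ')`. Choose `κ = min (1/2) ((a0 - cost)/(2 a0))` so that `(1 - κ) a0 > cost` with a margin. The new curve: `γ1 s = Λ (θ0, (1 - s) • w0)` (clamp `s` to `[0,1]` to make it Lipschitz: `Λ` is `C¹` on the tube, the segment is compact), `w0 = w θ0`, `‖w0‖ < s ≤ r`; then `γ`; then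
`γ3 s = Λ (θ0, s • w0) + vz n` (clamped); `concat` twice with `f x v = F x v t = Φ (T x) (DT v)` (homogeneous: `AnnNear.hom`). Integrals: along `γ`: `≤ (1 + η) I0` (`c0`); along `γ1`, `γ3`: `T (γ1 s) = (θ0, (1 - s) w0)` (`right`, `per`), `DT γ1' = (0, -w0)` (chain rule), so `≤ (1 + η) C ‖w0‖ ≤ 2 C s` (`upp`).
Increment of `B`: `a n i + h (T ..) - h (T ..) = a n i` (`T` changes by `(n i, 0)`; `h_per` for integers), `≥ ℓ n i - s |n i|`. Total excess `≤ cost + η I0 + 4 C s + s |n i| < (1 - κ) a0`. `0 ≤ I0`.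
-/

noncomputable section

namespace EscW.On

open Filter Topology Set EscF.T EscM EscMT MeasureTheory EscW.Ex EscW.Dn
open scoped ContDiff

variable {d m k j n : ℕ}

theorem O11_ball {r : ℝ} {w0 w1 : Vec k} (h0 : ‖w0‖ < r) (h1 : ‖w1‖ < r) {s : ℝ} (hs : s ∈ Icc (0:ℝ) 1) :
    ‖w0 + s • (w1 - w0)‖ < r := by
  have h2 := (convex_ball (0 : Vec k) r) (by simpa using h0) (by simpa using h1)
    (sub_nonneg.2 hs.2) hs.1 (by ring)
  have h3 : w0 + s • (w1 - w0) = (1 - s) • w0 + s • w1 := by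
    rw [smul_sub, sub_smul, one_smul]
    abel
  rw [h3]
  simpa using h2

theorem O11_vz0 : vz (0 : Fin m → ℤ) = 0 := by
  ext i
  simp [vz]

theorem O11_T {M' : Sub m} {O : Set (Vec m)} {i : Fin m} {𝒜 : Set (ℝ × Vec k)} {r : ℝ}
    {T : Vec m → ℝ × Vec k} {Λ : ℝ × Vec k → Vec m} (hc : AnnCover M' O i 𝒜 r T Λ) (n : Fin m → ℤ)
    (x : Vec m) : T (x + vz n) = T x + ((n i : ℝ), 0) := by
  refine Prod.ext ?_ ?_
  · rw [hc.fst, Prod.fst_add, hc.fst]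
    simp [vz]
  · rw [hc.per, Prod.snd_add, add_zero]

theorem O11_seg {M' : Sub m} {O K : Set (Vec m)} {i : Fin m} {𝒜 : Set (ℝ × Vec k)} {r : ℝ}
    {T : Vec m → ℝ × Vec k} {Λ : ℝ × Vec k → Vec m} (hc : AnnCover M' O i 𝒜 r T Λ)
    (hK : ∀ z, ‖z.2‖ < r → Λ z ∈ K) (hKp : ∀ (n : Fin m → ℤ), ∀ x ∈ K, x + vz n ∈ K) (θ0 : ℝ)
    {w0 w1 : Vec k} (h0 : ‖w0‖ < r) (h1 : ‖w1‖ < r) (n : Fin m → ℤ) :
    ∃ γ : ℝ → Vec m, (∃ C, LipschitzWith C γ) ∧ γ 0 = Λ (θ0, w0) + vz n ∧ γ 1 = Λ (θ0, w1) + vz n ∧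
      (∀ s ∈ Icc (0:ℝ) 1, γ s ∈ K) ∧
      ∀ s ∈ Ioo (0:ℝ) 1, fderiv ℝ T (γ s) (deriv γ s) = (0, w1 - w0) := by
  obtain ⟨g, hg⟩ : ∃ g : ℝ → Vec m, g = fun s => Λ (θ0, w0 + s • (w1 - w0)) + vz n := ⟨_, rfl⟩
  have hU : IsOpen {z : ℝ × Vec k | ‖z.2‖ < r} := isOpen_lt (continuous_snd.norm) continuous_const
  have hgC : ContDiffOn ℝ 1 g (Icc (0:ℝ) 1) := by
    rw [hg]
    refine ContDiffOn.add ?_ contDiffOn_const
    have h2 : ContDiff ℝ 1 fun s : ℝ => ((θ0, w0 + s • (w1 - w0)) : ℝ × Vec k) :=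
      contDiff_const.prodMk (contDiff_const.add (contDiff_id.smul contDiff_const))
    exact hc.smooth'.comp h2.contDiffOn (fun s hs => O11_ball h0 h1 hs)
  obtain ⟨C, hC⟩ := hgC.exists_lipschitzOnWith one_ne_zero (convex_Icc 0 1) isCompact_Icc
  obtain ⟨γ, hγ⟩ : ∃ γ : ℝ → Vec m, γ = fun s => g (projIcc (0:ℝ) 1 zero_le_one s) := ⟨_, rfl⟩
  have hγe : ∀ s ∈ Icc (0:ℝ) 1, γ s = g s := by
    intro s hs
    rw [hγ]
    simp only
    rw [projIcc_of_mem zero_le_one hs]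
  refine ⟨γ, ⟨C, ?_⟩, ?_, ?_, ?_, ?_⟩
  · rw [hγ]
    have h3 := hC.to_restrict.comp (LipschitzWith.projIcc (zero_le_one (α := ℝ)))
    rw [mul_one] at h3
    exact h3
  · rw [hγe 0 ⟨le_rfl, zero_le_one⟩, hg]
    simp
  · rw [hγe 1 ⟨zero_le_one, le_rfl⟩, hg]
    simp
  · intro s hs
    rw [hγe s hs, hg]
    exact hKp n _ (hK _ (O11_ball h0 h1 hs))
  · intro s hs
    have hs' : s ∈ Icc (0:ℝ) 1 := Ioo_subset_Icc_self hs
    have he : γ =ᶠ[𝓝 s] g := by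
      filter_upwards [Ioo_mem_nhds hs.1 hs.2] with s' hs''
      exact hγe s' (Ioo_subset_Icc_self hs'')
    have hgd : DifferentiableAt ℝ g s :=
      (hgC.contDiffAt (Icc_mem_nhds hs.1 hs.2)).differentiableAt one_ne_zero
    have hγd : HasDerivAt γ (deriv γ s) s := (hgd.congr_of_eventuallyEq he).hasDerivAt
    have hTd : HasFDerivAt T (fderiv ℝ T (γ s)) (γ s) :=
      (hc.smooth.differentiable one_ne_zero _).hasFDerivAt
    have h4 : HasDerivAt (fun s => T (γ s)) (fderiv ℝ T (γ s) (deriv γ s)) s := hTd.comp_hasDerivAt s hγd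
    have h5 : (fun s => T (γ s)) =ᶠ[𝓝 s] fun s =>
        ((θ0 + (n i : ℝ), w0 + s • (w1 - w0)) : ℝ × Vec k) := by
      filter_upwards [he, Ioo_mem_nhds hs.1 hs.2] with s' h6 h7
      have h9 := hc.right (θ0, w0 + s' • (w1 - w0)) (O11_ball h0 h1 (Ioo_subset_Icc_self h7))
      rw [h6, hg]
      simp only
      rw [O11_T hc, h9, Prod.mk_add_mk, add_zero]
    have h8 : HasDerivAt (fun s : ℝ => ((θ0 + (n i : ℝ), w0 + s • (w1 - w0)) : ℝ × Vec k))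
        ((0 : ℝ), w1 - w0) s := by
      refine (hasDerivAt_const s _).prodMk ?_
      have := ((hasDerivAt_id s).smul_const (w1 - w0)).const_add w0
      simpa using this
    have h10 : HasDerivAt (fun s => T (γ s)) ((0 : ℝ), w1 - w0) s := h8.congr_of_eventuallyEq h5
    exact h4.unique h10

theorem O11_per {h : ℝ × Vec k → ℝ} (hp : ∀ θ v, h (θ + 1, v) = h (θ, v)) (l : ℤ) (θ : ℝ) (v : Vec k) :
    h (θ + l, v) = h (θ, v) := by
  have h1 : Function.Periodic (fun θ => h (θ, v)) 1 := fun θ => hp θ v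
  have h2 := h1.int_mul l θ
  simpa using h2

theorem second_cost {Φ0 : ℝ × Vec k → ℝ × Vec k → ℝ} {𝒜 : Set (ℝ × Vec k)} {r ℓ c c3 α β : ℝ}
    (hb : AnnBase Φ0 𝒜 r ℓ c c3 α β) {M' : Sub m} {O K : Set (Vec m)} {i : Fin m} {T : Vec m → ℝ × Vec k}
    {Λ : ℝ × Vec k → Vec m} (hc : AnnCover M' O i 𝒜 r T Λ) {a0 : ℝ} {bar : Vec m → ℝ} {θ0 : ℝ}
    {n : Fin m → ℤ} {γ : ℝ → Vec m} (hr : RoomBase M' O K i r ℓ a0 Φ0 T Λ bar θ0 n γ) :
    ∃ κ s η : ℝ, 0 < κ ∧ κ < 1 ∧ 0 < s ∧ 0 < η ∧ ∀ Φ, AnnNear Φ0 Φ 𝒜 r η → ∀ (a : ℝ) (w : ℝ → Vec k)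
      (h : ℝ × Vec k → ℝ), AnnCal Φ 𝒜 s ℓ a w h → ∀ F : Vec m → Vec m → ℝ → ℝ,
      (∀ x ∈ M'.N ∩ O, ∀ v t, F x v t = Φ (T x) (fderiv ℝ T x v)) → ∀ t : ℝ,
        ∃ γ1 : ℝ → Vec m, (∃ C, LipschitzWith C γ1) ∧ γ1 0 = Λ (θ0, w θ0) ∧
          γ1 1 = Λ (θ0, w θ0) + vz n ∧ (∀ s ∈ Icc (0:ℝ) 1, γ1 s ∈ K) ∧
          excess F (fun x _ => a * x i + h (T x)) t γ1 < (1 - κ) * a0 := by
  have hA : ∀ x ∈ K, T x ∈ 𝒜 := fun x hx => hc.maps x (hr.sub hx)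
  have hb1 := hb
  obtain ⟨C0, hC0⟩ := hb.upp
  obtain ⟨C, hCd⟩ : ∃ C : ℝ, C = max C0 0 := ⟨_, rfl⟩
  have hCn : 0 ≤ C := by rw [hCd]; exact le_max_right _ _
  have hC : ∀ z ∈ 𝒜, ∀ ζ, Φ0 z ζ ≤ C * ‖ζ‖ := by
    intro z hz ζ
    refine (hC0 z hz ζ).trans (mul_le_mul_of_nonneg_right ?_ (norm_nonneg _))
    rw [hCd]
    exact le_max_left _ _
  have hI0i := int_curve hb.cont hc.smooth hr.lip (fun s hs => hA _ (hr.γK s hs))
  obtain ⟨I0, hI0⟩ : ∃ I0 : ℝ, I0 = ∫ s in (0:ℝ)..1, Φ0 (T (γ s)) (fderiv ℝ T (γ s) (deriv γ s)) :=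
    ⟨_, rfl⟩
  have hI0n : 0 ≤ I0 := by
    rw [hI0]
    exact intervalIntegral.integral_nonneg zero_le_one (fun s _ => hb.nonneg _ _)
  have hcost := hr.cost
  rw [← hI0] at hcost
  obtain ⟨δ, hδ⟩ : ∃ δ : ℝ, δ = (a0 - (I0 - ℓ * n i)) / 2 := ⟨_, rfl⟩
  have hδp : 0 < δ := by rw [hδ]; linarith
  have ha0 := hr.a_pos
  have hrp := hb.r_pos
  obtain ⟨κ, hκ⟩ : ∃ κ : ℝ, κ = min (1 / 2) (δ / a0) := ⟨_, rfl⟩
  have hκp : 0 < κ := by rw [hκ]; exact lt_min (by norm_num) (div_pos hδp ha0)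
  have hκ1 : κ < 1 := by
    rw [hκ]
    exact lt_of_le_of_lt (min_le_left _ _) (by norm_num)
  have hκa : κ * a0 ≤ δ := by
    have : κ ≤ δ / a0 := by rw [hκ]; exact min_le_right _ _
    rwa [le_div_iff₀ ha0] at this
  have hD : 0 < 4 * C + |(n i : ℝ)| + 1 := by positivity
  obtain ⟨s0, hs0⟩ : ∃ s0 : ℝ, s0 = min r (δ / (4 * (4 * C + |(n i : ℝ)| + 1))) := ⟨_, rfl⟩
  have hs0p : 0 < s0 := by
    rw [hs0]
    exact lt_min hrp (div_pos hδp (by positivity))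
  have hs0r : s0 ≤ r := by rw [hs0]; exact min_le_left _ _
  have hs0D : s0 * (4 * C + |(n i : ℝ)|) ≤ δ / 4 := by
    have h1 : s0 ≤ δ / (4 * (4 * C + |(n i : ℝ)| + 1)) := by rw [hs0]; exact min_le_right _ _
    rw [le_div_iff₀ (by positivity)] at h1
    linarith
  obtain ⟨η, hη⟩ : ∃ η : ℝ, η = min 1 (δ / (4 * (I0 + 1))) := ⟨_, rfl⟩
  have hηp : 0 < η := by
    rw [hη]
    exact lt_min one_pos (div_pos hδp (by positivity))
  have hη1 : η ≤ 1 := by rw [hη]; exact min_le_left _ _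
  have hηI : η * I0 ≤ δ / 4 := by
    have h1 : η ≤ δ / (4 * (I0 + 1)) := by rw [hη]; exact min_le_right _ _
    rw [le_div_iff₀ (by positivity)] at h1
    linarith
  refine ⟨κ, s0, η, hκp, hκ1, hs0p, hηp, ?_⟩
  intro Φ hΦ a w h hcal F hF t
  have hw0 : ‖w θ0‖ < r := lt_of_lt_of_le (hcal.w_small θ0) hs0r
  have hw0s : ‖w θ0‖ < s0 := hcal.w_small θ0
  have hz0 : ‖(0 : Vec k)‖ < r := by simpa using hrp
  obtain ⟨g1, hg1L, hg10, hg11, hg1K, hg1d⟩ := O11_seg hc hr.mem hr.periodic θ0 hw0 hz0 0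
  obtain ⟨g3, hg3L, hg30, hg31, hg3K, hg3d⟩ := O11_seg hc hr.mem hr.periodic θ0 hz0 hw0 n
  rw [O11_vz0, add_zero] at hg10 hg11
  obtain ⟨f, hf⟩ : ∃ f : Vec m → Vec m → ℝ, f = fun x v => Φ (T x) (fderiv ℝ T x v) := ⟨_, rfl⟩
  have hint : ∀ g : ℝ → Vec m, (∃ C, LipschitzWith C g) → (∀ s ∈ Icc (0:ℝ) 1, g s ∈ K) →
      IntervalIntegrable (fun s => f (g s) (deriv g s)) volume 0 1 := by
    intro g hg1 hg2
    rw [hf]
    exact int_curve hΦ.cont hc.smooth hg1 (fun s hs => hA _ (hg2 s hs))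
  have hfh : ∀ x ∈ K, ∀ (v : Vec m) (c : ℝ), 0 ≤ c → f x (c • v) = c * f x v := by
    intro x hx v c hc0
    rw [hf]
    simp only [map_smul]
    exact hΦ.hom _ (hA x hx) _ _ hc0
  have hup : ∀ z ∈ 𝒜, ∀ ζ, Φ z ζ ≤ (1 + η) * Φ0 z ζ := by
    intro z hz ζ
    have := (abs_le.1 (hΦ.c0 z hz ζ)).2
    linarith
  have hseg : ∀ g : ℝ → Vec m, (∃ C, LipschitzWith C g) → (∀ s ∈ Icc (0:ℝ) 1, g s ∈ K) →
      ∀ u : Vec k, ‖u‖ ≤ s0 → (∀ s ∈ Ioo (0:ℝ) 1, fderiv ℝ T (g s) (deriv g s) = (0, u)) →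
      ∫ s in (0:ℝ)..1, f (g s) (deriv g s) ≤ 2 * C * s0 := by
    intro g hg1 hg2 u hu hg3
    have h1 : ∫ s in (0:ℝ)..1, f (g s) (deriv g s) ≤ ∫ s in (0:ℝ)..1, 2 * C * s0 := by
      refine intervalIntegral.integral_mono_on_of_le_Ioo zero_le_one (hint g hg1 hg2)
        intervalIntegrable_const (fun s hs => ?_)
      rw [hf]
      simp only
      rw [hg3 s hs]
      have hm := hA _ (hg2 s (Ioo_subset_Icc_self hs))
      have h2 := hup _ hm ((0 : ℝ), u)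
      have h3 := hC _ hm ((0 : ℝ), u)
      have h4 : ‖((0 : ℝ), u)‖ = ‖u‖ := by
        rw [Prod.norm_def]
        simp
      rw [h4] at h3
      have h5 := hb.nonneg (T (g s)) ((0 : ℝ), u)
      have h6 : C * ‖u‖ ≤ C * s0 := mul_le_mul_of_nonneg_left hu hCn
      have h7 := mul_le_mul_of_nonneg_right hη1 h5
      linarith
    simpa using h1
  have hJ1 := hseg g1 hg1L hg1K (0 - w θ0) (by rw [zero_sub, norm_neg]; exact hw0s.le) hg1d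
  have hJ3 := hseg g3 hg3L hg3K (w θ0 - 0) (by rw [sub_zero]; exact hw0s.le) hg3d
  have hJ2 : ∫ s in (0:ℝ)..1, f (γ s) (deriv γ s) ≤ (1 + η) * I0 := by
    rw [hI0, ← intervalIntegral.integral_const_mul]
    refine intervalIntegral.integral_mono_on zero_le_one (hint γ hr.lip hr.γK) (hI0i.const_mul _)
      (fun s hs => ?_)
    rw [hf]
    exact hup _ (hA _ (hr.γK s hs)) _
  obtain ⟨p, hpL, hp0, hp1, hpK, hpi, hpI⟩ := concat hg1L hr.lip (hg11.trans hr.γ0.symm) hg1K hr.γK hfh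
    (hint g1 hg1L hg1K) (hint γ hr.lip hr.γK)
  obtain ⟨q, hqL, hq0, hq1, hqK, hqi, hqI⟩ := concat hpL hg3L (hp1.trans (hr.γ1.trans hg30.symm)) hpK hg3K
    hfh hpi (hint g3 hg3L hg3K)
  refine ⟨q, hqL, by rw [hq0, hp0, hg10], by rw [hq1, hg31], hqK, ?_⟩
  have hFf : ∫ s in (0:ℝ)..1, F (q s) (deriv q s) t = ∫ s in (0:ℝ)..1, f (q s) (deriv q s) := by
    refine intervalIntegral.integral_congr (fun s hs => ?_)
    rw [uIcc_of_le zero_le_one] at hs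
    show F (q s) (deriv q s) t = f (q s) (deriv q s)
    rw [hF _ (hr.sub (hqK s hs)), hf]
  unfold excess
  rw [hFf, hqI, hpI, hq1, hg31, hq0, hp0, hg10]
  simp only
  have e0 : T (Λ (θ0, w θ0)) = (θ0, w θ0) := hc.right (θ0, w θ0) hw0
  rw [O11_T hc, e0]
  have e1 : h ((θ0, w θ0) + ((n i : ℝ), 0)) = h (θ0, w θ0) := by
    rw [Prod.mk_add_mk, add_zero]
    exact O11_per hcal.h_per (n i) θ0 (w θ0)
  have e2 : (Λ (θ0, w θ0) + vz n) i = Λ (θ0, w θ0) i + (n i : ℝ) := by simp [vz]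
  rw [e1, e2]
  have e3 : ℓ * n i - s0 * |(n i : ℝ)| ≤ a * n i := by
    have h1 := hcal.a_near
    have h2 : |(a - ℓ) * (n i : ℝ)| ≤ s0 * |(n i : ℝ)| := by
      rw [abs_mul]
      exact mul_le_mul_of_nonneg_right h1.le (abs_nonneg _)
    have h3 := (abs_le.1 h2).1
    linarith
  linarith

end EscW.On
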