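import Pool.Agent.EscW.O7

set_option autoImplicit false

/-!
Project EscW, part O, module O8: the calibrated curve in the domain.
`f θ = Φ (θ, w θ) (1, w' θ) = a + Dh (θ, w θ) (1, w' θ)` (`cal`) is continuous, of period one, positive (`Φ ≥ (1 - η) Φ0 ≥ (1 - η) ℓ > 0`: `c0`, `low`), with `∫₀¹ f = a` (`f = a + d/dθ h (θ, w θ)`, periodic). `ϑ` from `exists_param`. `B x t = a x i + h (T x)`, `c σ t = Λ (ϑ σ, w (ϑ σ))`.
`smooth`: `T`, `h` are `C¹`, `M'.r` is smooth on `M'.U`. `periods`: `T (x + vz n) = ((T x).1 + n i, (T x).2)`, `h_per` for integers. `lip`: no dependence on the time. `le`: `fderiv (B ∘ M'.r) x v = a v i + Dh (T x) (DT v)` for tangent `v`, `(DT v).1 = v i` (`fst`); `le`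
of `AnnCal` at `T x ∈ 𝒜`; `hF`. `len_pos`: `∫ f > 0`. `closed`: `per'`. `unit`: `T (c σ) = (ϑ, w ϑ)` (`right`), so `DT c' = ϑ' (1, w')`, `hom`, `ϑ' f = 1`. `cal`: derivative of `B (c σ)` is `ϑ' (a + Dh (1, w')) = 1`. `only`: `DT v ≠ 0` (`inj`), so `(T x).2 = w ((T x).1)`,
`x` and `Λ (T x)` have the same `T`, `uniq`, `Λ (T x) = c σ` for `ϑ σ = (T x).1` (surjective). `simple`: `hφ` and `right`: `ϑ σ = ϑ σ' + j`, last part of `exists_param`.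
-/

noncomputable section

namespace EscW.On

open Filter Topology Set EscF.T EscM EscMT MeasureTheory EscW.Ex EscW.Dn
open scoped ContDiff

variable {d m k j n : ℕ}

/-- integer periods -/
theorem O8_int_per {h : ℝ × Vec k → ℝ} (hp : ∀ θ v, h (θ + 1, v) = h (θ, v)) (n : ℤ) (θ : ℝ) (v : Vec k) :
    h (θ + n, v) = h (θ, v) := by
  have h1 : Function.Periodic (fun θ => h (θ, v)) 1 := fun θ => hp θ v
  have h2 := h1.int_mul n θ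
  simpa using h2

/-- the integrand along the closed curve -/
theorem O8_pos {Φ0 : ℝ × Vec k → ℝ × Vec k → ℝ} {𝒜 : Set (ℝ × Vec k)} {r ℓ c c3 α β : ℝ}
    (hb : AnnBase Φ0 𝒜 r ℓ c c3 α β) {Φ : ℝ × Vec k → ℝ × Vec k → ℝ} {η : ℝ} (hη : η < 1)
    (hn : AnnNear Φ0 Φ 𝒜 r η) {z : ℝ × Vec k} (hz : z ∈ 𝒜) (u : Vec k) : 0 < Φ z (1, u) := by
  have h1 := hb.low z hz (1, u)
  have h2 := hb.nonneg z (1, u)
  have h3 := hn.c0 z hz (1, u)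
  have hℓ := hb.ℓ_pos
  have hc := hb.c_pos
  have h4 : 0 < Φ0 z (1, u) := by
    rcases h2.lt_or_eq with h | h
    · exact h
    · exfalso
      rw [← h] at h1
      have h5 : 0 < ℓ * (1:ℝ) * (1 + c * ‖z.2‖ ^ 2) := by positivity
      have h6 : 0 < (ℓ * (1:ℝ) * (1 + c * ‖z.2‖ ^ 2)) ^ 2 := by positivity
      have h7 : 0 ≤ (c3 * ‖u‖) ^ 2 := by positivity
      simp only at h1
      linarith
  have h5 := abs_le.mp h3
  nlinarith [h5.1]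

theorem O8_mem {Φ0 : ℝ × Vec k → ℝ × Vec k → ℝ} {𝒜 : Set (ℝ × Vec k)} {r ℓ c c3 α β : ℝ}
    (hb : AnnBase Φ0 𝒜 r ℓ c c3 α β) {s : ℝ} (hs : s ≤ r) {w : ℝ → Vec k} (hw : ∀ θ, ‖w θ‖ < s) (θ : ℝ) :
    ((θ, w θ) : ℝ × Vec k) ∈ 𝒜 := hb.tube θ _ ((hw θ).trans_le hs)

theorem O8_deriv_per {w : ℝ → Vec k} (hw : ∀ θ, w (θ + 1) = w θ) (θ : ℝ) : deriv w (θ + 1) = deriv w θ := by
  have h1 : (fun θ => w (θ + 1)) = w := funext hw
  have h2 : deriv (fun θ => w (θ + 1)) θ = deriv w (θ + 1) := deriv_comp_add_const (f := w) 1 θ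
  rw [← h2, h1]

theorem O8_cont {Φ0 : ℝ × Vec k → ℝ × Vec k → ℝ} {𝒜 : Set (ℝ × Vec k)} {r ℓ c c3 α β : ℝ}
    (hb : AnnBase Φ0 𝒜 r ℓ c c3 α β) {Φ : ℝ × Vec k → ℝ × Vec k → ℝ} {η : ℝ}
    (hn : AnnNear Φ0 Φ 𝒜 r η) {s : ℝ} (hs : s ≤ r) {w : ℝ → Vec k} (hw : ∀ θ, ‖w θ‖ < s)
    (hwc : ContDiff ℝ 1 w) : Continuous (fun θ => Φ (θ, w θ) (1, deriv w θ)) := by
  have h1 : Continuous (fun θ : ℝ => (((θ, w θ), ((1:ℝ), deriv w θ)) : (ℝ × Vec k) × (ℝ × Vec k))) := by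
    have h2 : Continuous (deriv w) := hwc.continuous_deriv le_rfl
    exact (continuous_id.prodMk hwc.continuous).prodMk (continuous_const.prodMk h2)
  exact hn.cont.comp_continuous h1 (fun θ => O8_mem hb hs hw θ)

/-- the derivative of the lift of the curve -/
theorem O8_hasDeriv {w : ℝ → Vec k} (hwc : ContDiff ℝ 1 w) (θ : ℝ) :
    HasDerivAt (fun θ : ℝ => ((θ, w θ) : ℝ × Vec k)) (1, deriv w θ) θ :=
  (hasDerivAt_id θ).prodMk ((hwc.differentiable one_ne_zero θ).hasDerivAt)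

theorem O8_int {Φ : ℝ × Vec k → ℝ × Vec k → ℝ} {𝒜 : Set (ℝ × Vec k)} {s ℓ a : ℝ} {w : ℝ → Vec k}
    {h : ℝ × Vec k → ℝ} (hcal : AnnCal Φ 𝒜 s ℓ a w h)
    (hc : Continuous (fun θ => Φ (θ, w θ) (1, deriv w θ))) :
    ∫ θ in (0:ℝ)..1, Φ (θ, w θ) (1, deriv w θ) = a := by
  have h1 : ∀ θ : ℝ, HasDerivAt (fun θ => a * θ + h (θ, w θ)) (Φ (θ, w θ) (1, deriv w θ)) θ := by
    intro θ
    have h2 : HasDerivAt (fun θ : ℝ => h (θ, w θ)) (fderiv ℝ h (θ, w θ) (1, deriv w θ)) θ :=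
      ((hcal.h_smooth.differentiable one_ne_zero (θ, w θ)).hasFDerivAt).comp_hasDerivAt θ
        (O8_hasDeriv hcal.w_smooth θ)
    have h3 : HasDerivAt (fun θ : ℝ => a * θ) a θ := by
      simpa using (hasDerivAt_id θ).const_mul a
    rw [hcal.cal θ]
    exact h3.add h2
  rw [intervalIntegral.integral_eq_sub_of_hasDerivAt (fun θ _ => h1 θ) (hc.intervalIntegrable _ _)]
  have h4 : w 1 = w 0 := by simpa using hcal.w_per 0
  have h5 : h ((1:ℝ), w 0) = h (0, w 0) := by simpa using hcal.h_per 0 (w 0)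
  simp only [h4, h5]
  ring

theorem O8_r {M' : Sub m} {x : Vec m} (hx : x ∈ M'.N) : M'.r x = x := by
  by_contra hne
  have h1 := M'.nearest x (M'.sub hx) x hx (fun h => hne h.symm)
  rw [dist_self] at h1
  exact absurd h1 (not_lt.mpr dist_nonneg)

theorem O8_fst {M' : Sub m} {O : Set (Vec m)} {i : Fin m} {𝒜 : Set (ℝ × Vec k)} {r : ℝ}
    {T : Vec m → ℝ × Vec k} {Λ : ℝ × Vec k → Vec m} (hc : AnnCover M' O i 𝒜 r T Λ) (x v : Vec m) :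
    (fderiv ℝ T x v).1 = v i := by
  have h1 : HasFDerivAt T (fderiv ℝ T x) x := (hc.smooth.differentiable one_ne_zero x).hasFDerivAt
  have h2 : HasFDerivAt (fun y => (T y).1) ((ContinuousLinearMap.fst ℝ ℝ (Vec k)).comp (fderiv ℝ T x)) x :=
    h1.fst
  have h3 : HasFDerivAt (fun y : Vec m => (T y).1) (EuclideanSpace.proj i : Vec m →L[ℝ] ℝ) x := by
    have h4 : (fun y : Vec m => (T y).1) = fun y => (EuclideanSpace.proj i : Vec m →L[ℝ] ℝ) y := by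
      funext y
      rw [hc.fst y]
      rfl
    rw [h4]
    exact ContinuousLinearMap.hasFDerivAt _
  have h5 := h2.unique h3
  have h6 := DFunLike.congr_fun h5 v
  simpa using h6

theorem O8_fderiv {M' : Sub m} {O : Set (Vec m)} {i : Fin m} {𝒜 : Set (ℝ × Vec k)} {r : ℝ}
    {T : Vec m → ℝ × Vec k} {Λ : ℝ × Vec k → Vec m} (hc : AnnCover M' O i 𝒜 r T Λ) {h : ℝ × Vec k → ℝ}
    (hh : ContDiff ℝ 1 h) (a : ℝ) {x : Vec m} (hx : x ∈ M'.N) {v : Vec m} (hv : IsTangent M' x v) :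
    fderiv ℝ (fun y => a * (M'.r y) i + h (T (M'.r y))) x v =
      a * (fderiv ℝ T x v).1 + fderiv ℝ h (T x) (fderiv ℝ T x v) := by
  have hr : HasFDerivAt M'.r (fderiv ℝ M'.r x) x :=
    ((M'.smooth.contDiffAt (M'.isOpen.mem_nhds (M'.sub hx))).differentiableAt (by simp)).hasFDerivAt
  have hrx := O8_r hx
  have h1 : HasFDerivAt (fun y => (M'.r y) i) ((EuclideanSpace.proj i : Vec m →L[ℝ] ℝ).comp (fderiv ℝ M'.r x)) x :=
    (ContinuousLinearMap.hasFDerivAt (EuclideanSpace.proj i : Vec m →L[ℝ] ℝ)).comp x hr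
  have h2 : HasFDerivAt T (fderiv ℝ T x) (M'.r x) := by
    rw [hrx]
    exact (hc.smooth.differentiable one_ne_zero x).hasFDerivAt
  have h3 : HasFDerivAt (fun y => T (M'.r y)) ((fderiv ℝ T x).comp (fderiv ℝ M'.r x)) x := h2.comp x hr
  have h4 : HasFDerivAt h (fderiv ℝ h (T x)) (T (M'.r x)) := by
    rw [hrx]
    exact (hh.differentiable one_ne_zero (T x)).hasFDerivAt
  have h5 : HasFDerivAt (fun y => h (T (M'.r y)))
      ((fderiv ℝ h (T x)).comp ((fderiv ℝ T x).comp (fderiv ℝ M'.r x))) x := h4.comp x h3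
  have h6 := (h1.const_mul a).add h5
  have h7 : fderiv ℝ (fun y => a * (M'.r y) i + h (T (M'.r y))) x = _ := h6.fderiv
  rw [h7]
  have h8 : fderiv ℝ M'.r x v = v := hv
  rw [O8_fst hc]
  simp only [ContinuousLinearMap.add_apply, ContinuousLinearMap.smul_apply, ContinuousLinearMap.comp_apply,
    h8, smul_eq_mul]
  rfl

theorem calibrated {Φ0 : ℝ × Vec k → ℝ × Vec k → ℝ} {𝒜 : Set (ℝ × Vec k)} {r ℓ c c3 α β : ℝ}
    (hb : AnnBase Φ0 𝒜 r ℓ c c3 α β) {Φ : ℝ × Vec k → ℝ × Vec k → ℝ} {η : ℝ} (hη : η < 1)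
    (hn : AnnNear Φ0 Φ 𝒜 r η) {s a : ℝ} (hs : s ≤ r) {w : ℝ → Vec k} {h : ℝ × Vec k → ℝ}
    (hcal : AnnCal Φ 𝒜 s ℓ a w h) {M' : Sub m} {O : Set (Vec m)} {i : Fin m} {T : Vec m → ℝ × Vec k}
    {Λ : ℝ × Vec k → Vec m} (hc : AnnCover M' O i 𝒜 r T Λ) {φ : Vec m → Vec d}
    {F : Vec m → Vec m → ℝ → ℝ} (hF : ∀ x ∈ M'.N ∩ O, ∀ v t, F x v t = Φ (T x) (fderiv ℝ T x v))
    (hφ : ∀ x ∈ M'.N ∩ O, ∀ y ∈ M'.N ∩ O, ∀ l : Fin d → ℤ, φ x = φ y + vz l →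
      ∃ l' : ℤ, (T x).1 = (T y).1 + l') (θ0 : ℝ) :
    ∃ ϑ : ℝ → ℝ, ϑ 0 = θ0 ∧ IsCalibratedW M' O φ F (fun x _ => a * x i + h (T x)) i a
      (fun σ _ => Λ (ϑ σ, w (ϑ σ))) := by
  set f : ℝ → ℝ := fun θ => Φ (θ, w θ) (1, deriv w θ) with hf
  have hfc : Continuous f := O8_cont hb hn hs hcal.w_small hcal.w_smooth
  have hfpos : ∀ θ, 0 < f θ := fun θ => O8_pos hb hη hn (O8_mem hb hs hcal.w_small θ) _
  have hfper : ∀ θ, f (θ + 1) = f θ := by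
    intro θ
    simp only [hf]
    rw [O8_deriv_per hcal.w_per θ, hcal.w_per θ, hn.per θ (w θ) _ (O8_mem hb hs hcal.w_small θ)]
  have hint : ∫ θ in (0:ℝ)..1, f θ = a := O8_int hcal hfc
  have hapos : 0 < a := by
    rw [← hint]
    exact intervalIntegral.intervalIntegral_pos_of_pos (hfc.intervalIntegrable _ _) hfpos one_pos
  obtain ⟨ϑ, hϑs, hϑ0, hϑd, hϑp, hϑsurj, hϑl⟩ := exists_param hfc hfpos hfper θ0
  rw [hint] at hϑp
  have hr0 : ∀ θ, ‖w θ‖ < r := fun θ => (hcal.w_small θ).trans_le hs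
  have hmem : ∀ σ, Λ (ϑ σ, w (ϑ σ)) ∈ M'.N ∩ O := fun σ => hc.mem _ (hr0 _)
  have hT : ∀ σ, T (Λ (ϑ σ, w (ϑ σ))) = (ϑ σ, w (ϑ σ)) := fun σ => hc.right _ (hr0 _)
  have hopen : IsOpen {z : ℝ × Vec k | ‖z.2‖ < r} := isOpen_lt (continuous_norm.comp continuous_snd) continuous_const
  have hcurve : ContDiff ℝ 1 (fun σ : ℝ => Λ (ϑ σ, w (ϑ σ))) := by
    have h1 : ContDiff ℝ 1 (fun σ : ℝ => ((ϑ σ, w (ϑ σ)) : ℝ × Vec k)) :=
      hϑs.prodMk (hcal.w_smooth.comp hϑs)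
    exact hc.smooth'.comp_contDiff h1 (fun σ => hr0 _)
  have hlift : ∀ σ, HasDerivAt (fun σ : ℝ => ((ϑ σ, w (ϑ σ)) : ℝ × Vec k))
      ((f (ϑ σ))⁻¹ • ((1:ℝ), deriv w (ϑ σ))) σ := by
    intro σ
    have h1 := (O8_hasDeriv hcal.w_smooth (ϑ σ)).scomp σ (hϑd σ)
    exact h1
  refine ⟨ϑ, hϑ0, ?_⟩
  constructor
  · -- smooth
    have hr : ContDiffOn ℝ 1 (fun p : Vec m × ℝ => M'.r p.1) {p | p.1 ∈ M'.U ∧ M'.r p.1 ∈ O} := by
      have h1 : ContDiffOn ℝ 1 M'.r M'.U := M'.smooth.of_le (by exact_mod_cast le_top)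
      exact h1.comp contDiff_fst.contDiffOn (fun p hp => hp.1)
    have h2 : ContDiffOn ℝ 1 (fun p : Vec m × ℝ => (M'.r p.1) i) {p | p.1 ∈ M'.U ∧ M'.r p.1 ∈ O} :=
      (EuclideanSpace.proj i : Vec m →L[ℝ] ℝ).contDiff.comp_contDiffOn hr
    have h3 : ContDiffOn ℝ 1 (fun p : Vec m × ℝ => h (T (M'.r p.1))) {p | p.1 ∈ M'.U ∧ M'.r p.1 ∈ O} :=
      (hcal.h_smooth.comp hc.smooth).comp_contDiffOn hr
    exact (contDiffOn_const.mul h2).add h3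
  · intro x _ t
    rfl
  · intro l
    refine ⟨a * l i, fun x _ t => ?_⟩
    have h1 : T (x + vz l) = ((T x).1 + (l i : ℝ), (T x).2) := by
      apply Prod.ext
      · rw [hc.fst, hc.fst]
        simp [vz]
      · exact hc.per l x
    simp only [h1, O8_int_per hcal.h_per (l i) (T x).1 (T x).2]
    simp [vz]
    ring
  · refine ⟨0, fun x _ v _ t t' => ?_⟩
    simp
  · intro x hx v hv t
    rw [O8_fderiv hc hcal.h_smooth a hx.1 hv, hF x hx v t]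
    exact hcal.le _ (hc.maps x hx) _
  · exact hapos
  · exact hcurve.comp contDiff_fst
  · intro σ t
    exact hmem σ
  · intro σ t
    show Λ (ϑ (σ + a), w (ϑ (σ + a))) = Λ (ϑ σ, w (ϑ σ)) + vz (Pi.single i 1)
    rw [hϑp σ, hcal.w_per, hc.per' _ _ (hr0 _)]
  · intro σ t
    rfl
  · intro σ t
    have h1 : HasDerivAt (fun σ : ℝ => Λ (ϑ σ, w (ϑ σ))) (deriv (fun σ : ℝ => Λ (ϑ σ, w (ϑ σ))) σ) σ :=
      ((hcurve.differentiable one_ne_zero) σ).hasDerivAt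
    have h2 : HasDerivAt (fun σ : ℝ => T (Λ (ϑ σ, w (ϑ σ))))
        (fderiv ℝ T (Λ (ϑ σ, w (ϑ σ))) (deriv (fun σ : ℝ => Λ (ϑ σ, w (ϑ σ))) σ)) σ :=
      ((hc.smooth.differentiable one_ne_zero _).hasFDerivAt).comp_hasDerivAt σ h1
    have h3 : (fun σ : ℝ => T (Λ (ϑ σ, w (ϑ σ)))) = fun σ => (ϑ σ, w (ϑ σ)) := funext hT
    rw [h3] at h2
    have h4 := h2.unique (hlift σ)
    show F (Λ (ϑ σ, w (ϑ σ))) (deriv (fun σ : ℝ => Λ (ϑ σ, w (ϑ σ))) σ) t = 1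
    rw [hF _ (hmem σ), h4, hT σ, hn.hom _ (O8_mem hb hs hcal.w_small _) _ _ (inv_nonneg.mpr (hfpos _).le)]
    exact inv_mul_cancel₀ (hfpos (ϑ σ)).ne'
  · intro σ t
    have hβ : ∀ σ, a * (Λ (ϑ σ, w (ϑ σ))) i + h (T (Λ (ϑ σ, w (ϑ σ)))) = a * ϑ σ + h (ϑ σ, w (ϑ σ)) := by
      intro σ
      rw [← hc.fst, hT σ]
    show a * (Λ (ϑ σ, w (ϑ σ))) i + h (T (Λ (ϑ σ, w (ϑ σ)))) =
      a * (Λ (ϑ 0, w (ϑ 0))) i + h (T (Λ (ϑ 0, w (ϑ 0)))) + σ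
    rw [hβ, hβ]
    have hd : ∀ σ, HasDerivAt (fun σ => a * ϑ σ + h (ϑ σ, w (ϑ σ)) - σ) 0 σ := by
      intro σ
      have h1 : HasDerivAt (fun σ => h (ϑ σ, w (ϑ σ)))
          (fderiv ℝ h (ϑ σ, w (ϑ σ)) ((f (ϑ σ))⁻¹ • ((1:ℝ), deriv w (ϑ σ)))) σ :=
        ((hcal.h_smooth.differentiable one_ne_zero _).hasFDerivAt).comp_hasDerivAt σ (hlift σ)
      have h2 := (((hϑd σ).const_mul a).add h1).sub (hasDerivAt_id σ)
      have h3 : a * (f (ϑ σ))⁻¹ + fderiv ℝ h (ϑ σ, w (ϑ σ)) ((f (ϑ σ))⁻¹ • ((1:ℝ), deriv w (ϑ σ))) - 1 = 0 := by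
        have h4 : f (ϑ σ) = a + fderiv ℝ h (ϑ σ, w (ϑ σ)) (1, deriv w (ϑ σ)) := hcal.cal (ϑ σ)
        have h5 := (hfpos (ϑ σ)).ne'
        rw [map_smul, smul_eq_mul]
        have h6 : a * (f (ϑ σ))⁻¹ + (f (ϑ σ))⁻¹ * fderiv ℝ h (ϑ σ, w (ϑ σ)) (1, deriv w (ϑ σ)) - 1 =
            (f (ϑ σ))⁻¹ * (a + fderiv ℝ h (ϑ σ, w (ϑ σ)) (1, deriv w (ϑ σ))) - 1 := by ring
        rw [h6, ← h4, inv_mul_cancel₀ h5, sub_self]
      rw [← h3]
      exact h2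
    have h7 : Differentiable ℝ (fun σ => a * ϑ σ + h (ϑ σ, w (ϑ σ)) - σ) :=
      fun σ => (hd σ).differentiableAt
    have h8 := is_const_of_deriv_eq_zero h7 (fun σ => (hd σ).deriv) σ 0
    linarith
  · intro x hx v hv t hv0 heq
    rw [O8_fderiv hc hcal.h_smooth a hx.1 hv, hF x hx v t] at heq
    have h1 := hcal.only _ (hc.maps x hx) _ (hc.inj x hx v hv hv0) heq
    obtain ⟨σ, hσ⟩ := hϑsurj (T x).1
    have h2 : T x = T (Λ (ϑ σ, w (ϑ σ))) := by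
      rw [hT σ, hσ]
      exact Prod.ext rfl h1
    obtain ⟨l, hl⟩ := hc.uniq x hx _ (hmem σ) h2
    exact ⟨σ, l, hl⟩
  · intro σ σ' t l hl
    obtain ⟨l', hl'⟩ := hφ _ (hmem σ) _ (hmem σ') l hl
    rw [hT σ, hT σ'] at hl'
    have h1 := hϑl σ σ' l' hl'
    rw [hint] at h1
    exact ⟨l', h1⟩

end EscW.On
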