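import Pool.Agent.EscW.O6
import Pool.Agent.EscW.O8
import Pool.Agent.EscW.O10
import Pool.Agent.EscW.O11

set_option autoImplicit false

/-!
Project EscW, part O, module O12: openness, abstract form.
`κ, s, η` of `second_cost`, then `exit_cost` with this `κ`; `s = min` of both and `r`, `η = min` with `ann_exists` for this `s` and `1/2` (`near_mono`; `AnnCal` is monotone in `s`: prove this). `B`, `c` of `calibrated`, `a' = (1 - κ) a0`. `IsRoom`: `closed`, `sub`, `periodic`: `RoomBase`; `mem`: `mem` of `RoomBase` (`‖w‖ < s ≤ r`); `exit`: `exit_cost` with `z = (ϑ σ, w (ϑ σ))`;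
`second`: `second_cost`, `ϑ 0 = θ0`.
-/

noncomputable section

namespace EscW.On

open Filter Topology Set EscF.T EscM EscMT MeasureTheory EscW.Ex EscW.Dn
open scoped ContDiff

variable {d m k j n : ℕ}

theorem O12_near_mono {Φ0 Φ : ℝ × Vec k → ℝ × Vec k → ℝ} {𝒜 : Set (ℝ × Vec k)} {r η η' : ℝ}
    (h0 : ∀ z ζ, 0 ≤ Φ0 z ζ) (hn : AnnNear Φ0 Φ 𝒜 r η) (hη : η ≤ η') : AnnNear Φ0 Φ 𝒜 r η' where
  hom := hn.hom
  per := hn.per
  cont := hn.cont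
  c0 z hz ζ := (hn.c0 z hz ζ).trans (mul_le_mul_of_nonneg_right hη (h0 z ζ))
  smooth := hn.smooth
  c1 y hy := (hn.c1 y hy).trans hη
  c2 y hy := (hn.c2 y hy).trans hη

theorem O12_cal_mono {Φ : ℝ × Vec k → ℝ × Vec k → ℝ} {𝒜 : Set (ℝ × Vec k)} {s s' ℓ a : ℝ}
    {w : ℝ → Vec k} {h : ℝ × Vec k → ℝ} (hc : AnnCal Φ 𝒜 s ℓ a w h) (hs : s ≤ s') :
    AnnCal Φ 𝒜 s' ℓ a w h where
  w_smooth := hc.w_smooth
  w_per := hc.w_per
  w_small θ := (hc.w_small θ).trans_le hs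
  h_smooth := hc.h_smooth
  h_per := hc.h_per
  a_near := hc.a_near.trans_le hs
  h_small z := (hc.h_small z).trans_le hs
  le := hc.le
  only := hc.only
  cal := hc.cal

theorem open_abs {Φ0 : ℝ × Vec k → ℝ × Vec k → ℝ} {𝒜 : Set (ℝ × Vec k)} {r ℓ c c3 α β : ℝ}
    (hb : AnnBase Φ0 𝒜 r ℓ c c3 α β) {M' : Sub m} {O K : Set (Vec m)} {i : Fin m} {T : Vec m → ℝ × Vec k}
    {Λ : ℝ × Vec k → Vec m} (hc : AnnCover M' O i 𝒜 r T Λ) {a0 : ℝ} {bar : Vec m → ℝ} {θ0 : ℝ}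
    {n : Fin m → ℤ} {γ : ℝ → Vec m} (hr : RoomBase M' O K i r ℓ a0 Φ0 T Λ bar θ0 n γ) :
    ∃ η : ℝ, 0 < η ∧ ∀ Φ, AnnNear Φ0 Φ 𝒜 r η → ∀ (φ : Vec m → Vec d) (F : Vec m → Vec m → ℝ → ℝ),
      (∀ x ∈ M'.N ∩ O, ∀ v t, F x v t = Φ (T x) (fderiv ℝ T x v)) →
      (∀ x ∈ M'.N ∩ O, ∀ y ∈ M'.N ∩ O, ∀ l : Fin d → ℤ, φ x = φ y + vz l →
        ∃ l' : ℤ, (T x).1 = (T y).1 + l') →
      ∃ (B : Vec m → ℝ → ℝ) (len a' : ℝ) (c : ℝ → ℝ → Vec m),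
        IsCalibratedW M' O φ F B i len c ∧ IsRoom M' O K F B i c a' := by
  obtain ⟨κ, s1, η1, hκ, hκ1, hs1, hη1, h2⟩ := second_cost hb hc hr
  obtain ⟨s2, η2, hs2, hη2, h3⟩ := exit_cost hb hc hr hκ hκ1
  obtain ⟨s, hs, e1, e2, e3⟩ : ∃ s : ℝ, 0 < s ∧ s ≤ s1 ∧ s ≤ s2 ∧ s ≤ r :=
    ⟨min (min s1 s2) r, lt_min (lt_min hs1 hs2) hb.r_pos, (min_le_left _ _).trans (min_le_left _ _),
      (min_le_left _ _).trans (min_le_right _ _), min_le_right _ _⟩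
  obtain ⟨η3, hη3, h4⟩ := ann_exists hb hs
  obtain ⟨η, hη, f1, f2, f3, f4⟩ : ∃ η : ℝ, 0 < η ∧ η ≤ η1 ∧ η ≤ η2 ∧ η ≤ η3 ∧ η ≤ 1 / 2 :=
    ⟨min (min η1 η2) (min η3 (1 / 2)), lt_min (lt_min hη1 hη2) (lt_min hη3 (by norm_num)),
      (min_le_left _ _).trans (min_le_left _ _), (min_le_left _ _).trans (min_le_right _ _),
      (min_le_right _ _).trans (min_le_left _ _), (min_le_right _ _).trans (min_le_right _ _)⟩
  refine ⟨η, hη, fun Φ hn φ F hF hφ => ?_⟩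
  obtain ⟨a, w, h, hcal⟩ := h4 Φ (O12_near_mono hb.nonneg hn f3)
  obtain ⟨ϑ, hϑ, hC⟩ := calibrated hb (by linarith) hn e3 hcal hc hF hφ θ0
  refine ⟨fun x _ => a * x i + h (T x), a, (1 - κ) * a0, fun σ _ => Λ (ϑ σ, w (ϑ σ)), hC, ?_⟩
  obtain ⟨γ1, g1, g2, g3, g4, g5⟩ := h2 Φ (O12_near_mono hb.nonneg hn f1) a w h
    (O12_cal_mono hcal e1) F hF 0
  exact
    { closed := hr.closed
      sub := hr.sub
      periodic := hr.periodic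
      mem := fun σ _ => hr.mem _ ((hcal.w_small (ϑ σ)).trans_le e3)
      exit := fun t σ γ' hl h0 hK h1 => h3 Φ (O12_near_mono hb.nonneg hn f2) a w h
        (O12_cal_mono hcal e2) F hF t (ϑ σ, w (ϑ σ)) γ' ((hcal.w_small (ϑ σ)).trans_le e3) hl h0 hK h1
      second := ⟨0, n, γ1, hr.n_ne, g1, by rw [hϑ]; exact g2, by rw [hϑ]; exact g3, g4, g5⟩ }

end EscW.On
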