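import Pool.Agent.EscW.ONDefs

set_option autoImplicit false

/-!
Project EscW, part O, module O13: metrics on `M` which are near in `C²` are near in annular coordinates.
-/

noncomputable section

namespace EscW.On

open Filter Topology Set EscF.T EscM EscMT MeasureTheory EscW.Ex EscW.Dn
open scoped ContDiff

variable {d m k j n : ℕ}

theorem O13_r {M : Sub d} {x : Vec d} (hx : x ∈ M.N) : M.r x = x := by
  by_contra h
  have h1 := M.nearest x (M.sub hx) x hx (Ne.symm h)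
  rw [dist_self] at h1
  exact absurd dist_nonneg (not_le.2 h1)

theorem O13_ext {M : Sub d} (F : Vec d → Vec d → ℝ) {x v : Vec d} (hx : x ∈ M.N)
    (hv : IsTangent M x v) : ext M F (x, v) = F x v := by
  have h1 : fderiv ℝ M.r x v = v := hv
  simp only [ext, O13_r hx, h1]

theorem O13_tan {M : Sub d} {Pj : ℝ × Vec k → Vec d} {V : Set (ℝ × Vec k)} (hV : IsOpen V)
    (hPj : ContDiffOn ℝ ∞ Pj V) (hm : ∀ z ∈ V, Pj z ∈ M.N) {z : ℝ × Vec k} (hz : z ∈ V)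
    (ζ : ℝ × Vec k) : IsTangent M (Pj z) (fderiv ℝ Pj z ζ) := by
  have h1 : DifferentiableAt ℝ Pj z :=
    (hPj.contDiffAt (hV.mem_nhds hz)).differentiableAt (by simp)
  have h2 : DifferentiableAt ℝ M.r (Pj z) :=
    (M.smooth.contDiffAt (M.isOpen.mem_nhds (M.sub (hm z hz)))).differentiableAt (by simp)
  have h3 : (M.r ∘ Pj) =ᶠ[𝓝 z] Pj := by
    filter_upwards [hV.mem_nhds hz] with z' hz'
    exact O13_r (hm z' hz')
  have h4 : fderiv ℝ (M.r ∘ Pj) z = fderiv ℝ Pj z := h3.fderiv_eq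
  have h5 : fderiv ℝ (M.r ∘ Pj) z = (fderiv ℝ M.r (Pj z)).comp (fderiv ℝ Pj z) :=
    fderiv_comp z h2 h1
  unfold IsTangent
  rw [h5] at h4
  have h6 := congrArg (fun L : (ℝ × Vec k) →L[ℝ] Vec d => L ζ) h4
  exact h6

theorem O13_smul {M : Sub d} {x v : Vec d} (c : ℝ) (hv : IsTangent M x v) :
    IsTangent M x (c • v) := by
  unfold IsTangent at *
  rw [map_smul, hv]

theorem O13_TD_open (M : Sub d) : IsOpen (TD M) := by
  have h1 : IsOpen {z : Vec d × Vec d | z.1 ∈ M.U} := M.isOpen.preimage continuous_fst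
  have h2 : ContinuousOn (fderiv ℝ M.r) M.U :=
    (M.smooth.fderiv_of_isOpen (m := ∞) M.isOpen (by simp)).continuousOn
  have h3 : ContinuousOn (fun z : Vec d × Vec d => fderiv ℝ M.r z.1 z.2) {z | z.1 ∈ M.U} :=
    (h2.comp continuous_fst.continuousOn (fun z hz => hz)).clm_apply continuous_snd.continuousOn
  exact h3.isOpen_inter_preimage h1 isOpen_compl_singleton

/-- the lift to the tangent bundle -/
def O13_Xi (Pj : ℝ × Vec k → Vec d) (y : ℝ × Vec k × Vec k) : Vec d × Vec d :=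
  (Pj (y.1, y.2.1), fderiv ℝ Pj (y.1, y.2.1) (1, y.2.2))

theorem O13_Xi_smooth {Pj : ℝ × Vec k → Vec d} {V : Set (ℝ × Vec k)} (hV : IsOpen V)
    (hPj : ContDiffOn ℝ ∞ Pj V) :
    ContDiffOn ℝ ∞ (O13_Xi Pj) {y : ℝ × Vec k × Vec k | (y.1, y.2.1) ∈ V} := by
  have hdf : ContDiffOn ℝ ∞ (fderiv ℝ Pj) V := hPj.fderiv_of_isOpen hV (by simp)
  have hπ : ContDiff ℝ ∞ (fun y : ℝ × Vec k × Vec k => (y.1, y.2.1)) :=
    contDiff_fst.prodMk (contDiff_fst.comp contDiff_snd)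
  have hu : ContDiff ℝ ∞ (fun y : ℝ × Vec k × Vec k => ((1 : ℝ), y.2.2)) :=
    contDiff_const.prodMk (contDiff_snd.comp contDiff_snd)
  exact (hPj.comp hπ.contDiffOn (fun y hy => hy)).prodMk
    ((hdf.comp hπ.contDiffOn (fun y hy => hy)).clm_apply hu.contDiffOn)

theorem O13_per {E F : Type*} [NormedAddCommGroup E] [NormedSpace ℝ E] [NormedAddCommGroup F]
    [NormedSpace ℝ F] {f : E → F} {c : E} (h : Function.Periodic f c) (i : ℕ) :
    Function.Periodic (iteratedFDeriv ℝ i f) c := by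
  intro x
  have h1 := iteratedFDeriv_comp_add_left (𝕜 := ℝ) (f := f) i c x
  have h2 : (fun z => f (c + z)) = f := by
    funext z
    rw [add_comm]
    exact h z
  rw [h2, add_comm] at h1
  exact h1.symm

theorem O13_perd {E F : Type*} [NormedAddCommGroup E] [NormedSpace ℝ E] [NormedAddCommGroup F]
    [NormedSpace ℝ F] {f : E → F} {c : E} (h : Function.Periodic f c) :
    Function.Periodic (fderiv ℝ f) c := by
  intro x
  have h1 := fderiv_comp_add_right (𝕜 := ℝ) (f := f) (x := x) c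
  have h2 : (fun z => f (z + c)) = f := funext h
  rw [h2] at h1
  exact h1.symm

theorem O13_Xi_per {Pj : ℝ × Vec k → Vec d} (hper : ∀ θ w, Pj (θ + 1, w) = Pj (θ, w)) :
    Function.Periodic (O13_Xi Pj) ((1 : ℝ), (0 : Vec k), (0 : Vec k)) := by
  have h1 : Function.Periodic Pj ((1 : ℝ), (0 : Vec k)) := by
    rintro ⟨θ, w⟩
    rw [Prod.mk_add_mk, add_zero]
    exact hper θ w
  have h2 := O13_perd h1
  rintro ⟨θ, w, u⟩
  have h3 := h1 (θ, w)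
  have h4 := h2 (θ, w)
  rw [Prod.mk_add_mk, add_zero] at h3 h4
  simp only [O13_Xi, Prod.mk_add_mk, add_zero, h3, h4]

/-- reduction of the first coordinate to the unit interval -/
theorem O13_red {E : Type*} [AddCommGroup E] {α : Type*} {f : ℝ × E → α}
    (h : Function.Periodic f ((1 : ℝ), (0 : E))) (θ : ℝ) (w : E) : f (θ, w) = f (Int.fract θ, w) := by
  have h1 := h.zsmul ⌊θ⌋ (Int.fract θ, w)
  rw [← h1]
  congr 1
  rw [Prod.smul_mk, Prod.mk_add_mk, smul_zero, add_zero, zsmul_one, Int.fract_add_floor]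

theorem O13_cont {M : Sub d} {F : Vec d → Vec d → ℝ} (hF : IsFinsler M F) {Pj : ℝ × Vec k → Vec d}
    {V : Set (ℝ × Vec k)} (hV : IsOpen V) (hPj : ContDiffOn ℝ ∞ Pj V) (hm : ∀ z ∈ V, Pj z ∈ M.N)
    {𝒜 : Set (ℝ × Vec k)} (hA : 𝒜 ⊆ V) :
    ContinuousOn (fun p : (ℝ × Vec k) × (ℝ × Vec k) => F (Pj p.1) (fderiv ℝ Pj p.1 p.2))
      {p | p.1 ∈ 𝒜} := by
  have hdf : ContinuousOn (fderiv ℝ Pj) V :=
    (hPj.fderiv_of_isOpen (m := ∞) hV (by simp)).continuousOn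
  have h1 : ContinuousOn (fun p : (ℝ × Vec k) × (ℝ × Vec k) => (Pj p.1, fderiv ℝ Pj p.1 p.2))
      {p | p.1 ∈ 𝒜} :=
    (hPj.continuousOn.comp continuous_fst.continuousOn (fun p hp => hA hp)).prodMk
      ((hdf.comp continuous_fst.continuousOn (fun p hp => hA hp)).clm_apply
        continuous_snd.continuousOn)
  exact hF.cont.comp h1 (fun p hp => ⟨hm _ (hA hp), O13_tan hV hPj hm (hA hp) _⟩)

theorem O13_ratio {M : Sub d} {F' : Vec d → Vec d → ℝ} (hF' : IsFinsler M F')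
    {Pj : ℝ × Vec k → Vec d}
    {V : Set (ℝ × Vec k)} (hV : IsOpen V) (hPj : ContDiffOn ℝ ∞ Pj V) (hm : ∀ z ∈ V, Pj z ∈ M.N)
    (hper : ∀ θ w, Pj (θ + 1, w) = Pj (θ, w)) {𝒜 : Set (ℝ × Vec k)} (hA : 𝒜 ⊆ V) (hAc : IsClosed 𝒜)
    (hAp : ∀ θ w, (θ + 1, w) ∈ 𝒜 ↔ (θ, w) ∈ 𝒜) {Rw : ℝ} (hAb : ∀ z ∈ 𝒜, ‖z.2‖ ≤ Rw)
    (himm : ∀ z ∈ 𝒜, ∀ ζ, ζ ≠ 0 → fderiv ℝ Pj z ζ ≠ 0) :
    ∃ B : ℝ, 0 < B ∧ ∀ z ∈ 𝒜, ∀ ζ, ‖fderiv ℝ Pj z ζ‖ ≤ B * F' (Pj z) (fderiv ℝ Pj z ζ) := by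
  have hdf : ContinuousOn (fderiv ℝ Pj) V :=
    (hPj.fderiv_of_isOpen (m := ∞) hV (by simp)).continuousOn
  set K : Set (ℝ × Vec k) := 𝒜 ∩ {z | z.1 ∈ Icc (0 : ℝ) 1} with hK
  have hKc : IsCompact K := by
    apply (isCompact_Icc.prod (isCompact_closedBall (0 : Vec k) Rw)).of_isClosed_subset
      (hAc.inter (isClosed_Icc.preimage continuous_fst))
    rintro ⟨θ, w⟩ ⟨hz1, hz2⟩
    refine ⟨hz2, ?_⟩
    rw [mem_closedBall_zero_iff]
    exact hAb _ hz1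
  have hS : IsCompact (Metric.sphere (0 : ℝ × Vec k) 1) := isCompact_sphere _ _
  have hpos : ∀ z ∈ 𝒜, ∀ ζ, ζ ≠ 0 → 0 < F' (Pj z) (fderiv ℝ Pj z ζ) := fun z hz ζ hζ =>
    hF'.pos _ (hm _ (hA hz)) _ (O13_tan hV hPj hm (hA hz) ζ) (himm z hz ζ hζ)
  have hne : ∀ ζ ∈ Metric.sphere (0 : ℝ × Vec k) 1, ζ ≠ 0 := by
    rintro ζ hζ rfl
    rw [mem_sphere_zero_iff_norm, norm_zero] at hζ
    exact zero_ne_one hζ
  have hq : ContinuousOn (fun p : (ℝ × Vec k) × (ℝ × Vec k) =>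
      ‖fderiv ℝ Pj p.1 p.2‖ / F' (Pj p.1) (fderiv ℝ Pj p.1 p.2)) (K ×ˢ Metric.sphere 0 1) := by
    apply ContinuousOn.div
    · apply ContinuousOn.norm
      exact (hdf.comp continuous_fst.continuousOn (fun p hp => hA hp.1.1)).clm_apply
        continuous_snd.continuousOn
    · exact (O13_cont hF' hV hPj hm hA).mono (fun p hp => hp.1.1)
    · intro p hp
      exact (hpos p.1 hp.1.1 p.2 (hne _ hp.2)).ne'
  obtain ⟨B, hB⟩ := (hKc.prod hS).exists_bound_of_continuousOn hq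
  refine ⟨|B| + 1, by positivity, ?_⟩
  -- on the compact set
  have h1 : ∀ z ∈ K, ∀ ζ ∈ Metric.sphere (0 : ℝ × Vec k) 1,
      ‖fderiv ℝ Pj z ζ‖ ≤ (|B| + 1) * F' (Pj z) (fderiv ℝ Pj z ζ) := by
    intro z hz ζ hζ
    have h2 := hB (z, ζ) ⟨hz, hζ⟩
    have h3 := hpos z hz.1 ζ (hne _ hζ)
    simp only at h2
    rw [Real.norm_eq_abs] at h2
    have h4 : ‖fderiv ℝ Pj z ζ‖ / F' (Pj z) (fderiv ℝ Pj z ζ) ≤ |B| + 1 :=
      (le_abs_self _).trans (h2.trans ((le_abs_self B).trans (by linarith)))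
    rwa [div_le_iff₀ h3] at h4
  -- arbitrary vectors
  have h2 : ∀ z ∈ K, ∀ ζ, ‖fderiv ℝ Pj z ζ‖ ≤ (|B| + 1) * F' (Pj z) (fderiv ℝ Pj z ζ) := by
    intro z hz ζ
    have hz' := hz.1
    have hN := hm _ (hA hz')
    by_cases hζ : ζ = 0
    · subst hζ
      have h3 := hF'.hom _ hN _ (O13_tan hV hPj hm (hA hz') 0) 0 le_rfl
      rw [map_zero, smul_zero, zero_mul] at h3
      rw [map_zero, norm_zero, h3, mul_zero]
    · have h3 : 0 < ‖ζ‖ := norm_pos_iff.2 hζ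
      have h4 : ‖ζ‖ • (‖ζ‖⁻¹ • ζ) = ζ := by
        rw [smul_smul, mul_inv_cancel₀ h3.ne', one_smul]
      have h5 : (‖ζ‖⁻¹ • ζ) ∈ Metric.sphere (0 : ℝ × Vec k) 1 := by
        rw [mem_sphere_zero_iff_norm, norm_smul, norm_inv, norm_norm, inv_mul_cancel₀ h3.ne']
      have h6 := h1 z hz _ h5
      have h7 : fderiv ℝ Pj z ζ = ‖ζ‖ • fderiv ℝ Pj z (‖ζ‖⁻¹ • ζ) := by
        rw [← map_smul, h4]
      rw [h7, hF'.hom _ hN _ (O13_tan hV hPj hm (hA hz') _) _ h3.le, norm_smul, norm_norm]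
      calc ‖ζ‖ * ‖fderiv ℝ Pj z (‖ζ‖⁻¹ • ζ)‖
          ≤ ‖ζ‖ * ((|B| + 1) * F' (Pj z) (fderiv ℝ Pj z (‖ζ‖⁻¹ • ζ))) :=
            mul_le_mul_of_nonneg_left h6 h3.le
        _ = _ := by ring
  -- arbitrary points
  have hPp : Function.Periodic Pj ((1 : ℝ), (0 : Vec k)) := by
    rintro ⟨θ, w⟩
    rw [Prod.mk_add_mk, add_zero]
    exact hper θ w
  have hAp' : Function.Periodic (fun z : ℝ × Vec k => z ∈ 𝒜) ((1 : ℝ), (0 : Vec k)) := by
    rintro ⟨θ, w⟩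
    rw [Prod.mk_add_mk, add_zero]
    exact propext (hAp θ w)
  rintro ⟨θ, w⟩ hz ζ
  have h3 : (Int.fract θ, w) ∈ 𝒜 := by
    have h4 := O13_red hAp' θ w
    rw [← h4]
    exact hz
  have h5 := h2 (Int.fract θ, w) ⟨h3, Int.fract_nonneg θ, (Int.fract_lt_one θ).le⟩ ζ
  rw [← O13_red hPp θ w, ← O13_red (O13_perd hPp) θ w] at h5
  exact h5

theorem O13_bounds {Pj : ℝ × Vec k → Vec d}
    {V : Set (ℝ × Vec k)} (hV : IsOpen V) (hPj : ContDiffOn ℝ ∞ Pj V)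
    (hper : ∀ θ w, Pj (θ + 1, w) = Pj (θ, w)) {𝒜 : Set (ℝ × Vec k)} (hA : 𝒜 ⊆ V)
    (himm : ∀ z ∈ 𝒜, ∀ ζ, ζ ≠ 0 → fderiv ℝ Pj z ζ ≠ 0) {r : ℝ} (hr : ∀ z : ℝ × Vec k, ‖z.2‖ ≤ r → z ∈ 𝒜) :
    ∃ R D : ℝ, 1 ≤ R ∧ 1 ≤ D ∧ ∀ y ∈ LD k r, 1 / R ≤ ‖(O13_Xi Pj y).2‖ ∧ ‖(O13_Xi Pj y).2‖ ≤ R ∧
      ∀ i : ℕ, 1 ≤ i → i ≤ 2 → ‖iteratedFDeriv ℝ i (O13_Xi Pj) y‖ ≤ D ^ i := by
  have hO : IsOpen {y : ℝ × Vec k × Vec k | (y.1, y.2.1) ∈ V} :=
    hV.preimage (continuous_fst.prodMk (continuous_fst.comp continuous_snd))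
  have hsm := O13_Xi_smooth hV hPj
  set K : Set (ℝ × Vec k × Vec k) :=
    Icc (0 : ℝ) 1 ×ˢ (Metric.closedBall (0 : Vec k) r ×ˢ Metric.closedBall (0 : Vec k) r) with hK
  have hKc : IsCompact K := isCompact_Icc.prod
    ((isCompact_closedBall _ _).prod (isCompact_closedBall _ _))
  have hKA : ∀ y ∈ K, (y.1, y.2.1) ∈ 𝒜 := fun y hy => hr _ (mem_closedBall_zero_iff.1 hy.2.1)
  have hKV : K ⊆ {y : ℝ × Vec k × Vec k | (y.1, y.2.1) ∈ V} := fun y hy => hA (hKA y hy)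
  have hc2 : ContinuousOn (fun y => ‖(O13_Xi Pj y).2‖) K :=
    (continuous_snd.comp_continuousOn (hsm.continuousOn.mono hKV)).norm
  have hne : ∀ y ∈ K, (O13_Xi Pj y).2 ≠ 0 := fun y hy => himm _ (hKA y hy) _ (by
    intro h
    exact one_ne_zero (congrArg Prod.fst h))
  obtain ⟨B1, hB1⟩ := hKc.exists_bound_of_continuousOn hc2
  obtain ⟨B2, hB2⟩ := hKc.exists_bound_of_continuousOn
    (hc2.inv₀ (fun y hy => norm_ne_zero_iff.2 (hne y hy)))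
  have hci : ∀ i : ℕ, ContinuousOn (iteratedFDeriv ℝ i (O13_Xi Pj)) K := by
    intro i
    have h1 := hsm.continuousOn_iteratedFDerivWithin (m := i) (by exact_mod_cast le_top)
      hO.uniqueDiffOn
    exact (h1.mono hKV).congr (fun y hy => (iteratedFDerivWithin_of_isOpen i hO (hKV hy)).symm)
  obtain ⟨B3, hB3⟩ := hKc.exists_bound_of_continuousOn (hci 1)
  obtain ⟨B4, hB4⟩ := hKc.exists_bound_of_continuousOn (hci 2)
  refine ⟨max 1 (max B1 B2), max 1 (max B3 B4), le_max_left _ _, le_max_left _ _, ?_⟩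
  rintro ⟨θ, w, u⟩ ⟨hy1, hy2⟩
  have hy : (Int.fract θ, w, u) ∈ K :=
    ⟨⟨Int.fract_nonneg θ, (Int.fract_lt_one θ).le⟩, mem_closedBall_zero_iff.2 hy1.le,
      mem_closedBall_zero_iff.2 hy2.le⟩
  have hXp := O13_Xi_per (Pj := Pj) hper
  have hX := O13_red hXp θ (w, u)
  have hD : (1 : ℝ) ≤ max 1 (max B3 B4) := le_max_left _ _
  rw [hX]
  refine ⟨?_, ?_, ?_⟩
  · have h1 := hB2 _ hy
    simp only [Pi.inv_apply] at h1
    have h0 : 0 < ‖(O13_Xi Pj (Int.fract θ, w, u)).2‖ := norm_pos_iff.2 (hne _ hy)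
    rw [norm_inv, norm_norm] at h1
    have h2 : ‖(O13_Xi Pj (Int.fract θ, w, u)).2‖⁻¹ ≤ max 1 (max B1 B2) :=
      h1.trans ((le_max_right _ _).trans (le_max_right _ _))
    rw [one_div]
    exact inv_le_of_inv_le₀ h0 h2
  · have h1 := hB1 _ hy
    rw [norm_norm] at h1
    exact h1.trans ((le_max_left _ _).trans (le_max_right _ _))
  · intro i h1 h2
    rw [O13_red (O13_per hXp i) θ (w, u)]
    interval_cases i
    · rw [pow_one]
      exact (hB3 _ hy).trans ((le_max_left _ _).trans (le_max_right _ _))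
    · have h3 := (hB4 _ hy).trans ((le_max_right B3 _).trans (le_max_right 1 _))
      refine h3.trans ?_
      nlinarith

theorem transfer {M : Sub d} {F' : Vec d → Vec d → ℝ} (hF' : IsFinsler M F') {Pj : ℝ × Vec k → Vec d}
    {V : Set (ℝ × Vec k)} (hV : IsOpen V) (hPj : ContDiffOn ℝ ∞ Pj V) (hm : ∀ z ∈ V, Pj z ∈ M.N)
    (hper : ∀ θ w, Pj (θ + 1, w) = Pj (θ, w)) {𝒜 : Set (ℝ × Vec k)} (hA : 𝒜 ⊆ V) (hAc : IsClosed 𝒜)
    (hAp : ∀ θ w, (θ + 1, w) ∈ 𝒜 ↔ (θ, w) ∈ 𝒜) {Rw : ℝ} (hAb : ∀ z ∈ 𝒜, ‖z.2‖ ≤ Rw)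
    (himm : ∀ z ∈ 𝒜, ∀ ζ, ζ ≠ 0 → fderiv ℝ Pj z ζ ≠ 0) {r : ℝ} (hr : ∀ z : ℝ × Vec k, ‖z.2‖ ≤ r → z ∈ 𝒜)
    {Φ0 : ℝ × Vec k → ℝ × Vec k → ℝ} (hΦ0 : ∀ z ∈ 𝒜, ∀ ζ, Φ0 z ζ = F' (Pj z) (fderiv ℝ Pj z ζ))
    (hs : ContDiffOn ℝ 2 (lg Φ0) (LD k r)) {η : ℝ} (hη : 0 < η) :
    ∃ R δ : ℝ, 0 < R ∧ 0 < δ ∧ ∀ F'' : Vec d → Vec d → ℝ, IsFinsler M F'' → Close2 M R δ F' F'' →
      AnnNear Φ0 (fun z ζ => F'' (Pj z) (fderiv ℝ Pj z ζ)) 𝒜 r η := by
  obtain ⟨B, hB0, hB⟩ := O13_ratio hF' hV hPj hm hper hA hAc hAp hAb himm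
  obtain ⟨R, D, hR, hD, hRD⟩ := O13_bounds hV hPj hper hA himm hr
  have hR0 : 0 < R := one_pos.trans_le hR
  have hD0 : 0 < D := one_pos.trans_le hD
  refine ⟨R, min (η / B) (η / (2 * D ^ 2)), hR0, lt_min (by positivity) (by positivity), ?_⟩
  intro F'' hF'' hcl
  set δ := min (η / B) (η / (2 * D ^ 2)) with hδ
  have hδ0 : 0 < δ := lt_min (by positivity) (by positivity)
  have hδ1 : δ * B ≤ η := by
    have h1 : δ ≤ η / B := min_le_left _ _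
    rwa [le_div_iff₀ hB0] at h1
  have hδ2 : δ * (2 * D ^ 2) ≤ η := by
    have h1 : δ ≤ η / (2 * D ^ 2) := min_le_right _ _
    rwa [le_div_iff₀ (by positivity)] at h1
  have hLDo : IsOpen (LD k r) := by
    apply IsOpen.inter
    · exact isOpen_lt (continuous_norm.comp (continuous_fst.comp continuous_snd)) continuous_const
    · exact isOpen_lt (continuous_norm.comp (continuous_snd.comp continuous_snd)) continuous_const
  have hLA : ∀ y ∈ LD k r, (y.1, y.2.1) ∈ 𝒜 := fun y hy => hr _ hy.1.le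
  have hLV : LD k r ⊆ {y : ℝ × Vec k × Vec k | (y.1, y.2.1) ∈ V} := fun y hy => hA (hLA y hy)
  have htan : ∀ z ∈ 𝒜, ∀ ζ, IsTangent M (Pj z) (fderiv ℝ Pj z ζ) := fun z hz ζ =>
    O13_tan hV hPj hm (hA hz) ζ
  have hN : ∀ z ∈ 𝒜, Pj z ∈ M.N := fun z hz => hm z (hA hz)
  have hne : ∀ y ∈ LD k r, (O13_Xi Pj y).2 ≠ 0 := fun y hy => himm _ (hLA y hy) _ (by
    intro h
    exact one_ne_zero (congrArg Prod.fst h))
  -- the composition
  have hX2 : ContDiffOn ℝ 2 (O13_Xi Pj) (LD k r) :=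
    ((O13_Xi_smooth hV hPj).of_le ENat.LEInfty.out).mono hLV
  have hmaps : MapsTo (O13_Xi Pj) (LD k r) (TD M) := by
    intro y hy
    refine ⟨M.sub (hN _ (hLA y hy)), ?_⟩
    have h1 : fderiv ℝ M.r (O13_Xi Pj y).1 (O13_Xi Pj y).2 = (O13_Xi Pj y).2 :=
      htan _ (hLA y hy) _
    rw [h1]
    exact hne y hy
  have hcomp : ContDiffOn ℝ 2 ((fun z => ext M F'' z - ext M F' z) ∘ O13_Xi Pj) (LD k r) :=
    hcl.1.comp hX2 hmaps
  have heq : EqOn (fun y => lg (fun z ζ => F'' (Pj z) (fderiv ℝ Pj z ζ)) y - lg Φ0 y)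
      ((fun z => ext M F'' z - ext M F' z) ∘ O13_Xi Pj) (LD k r) := by
    intro y hy
    have h1 := O13_ext F'' (hN _ (hLA y hy)) (htan _ (hLA y hy) (1, y.2.2))
    have h2 := O13_ext F' (hN _ (hLA y hy)) (htan _ (hLA y hy) (1, y.2.2))
    simp only [Function.comp_apply, O13_Xi, h1, h2, lg, hΦ0 _ (hLA y hy)]
  have hbd : ∀ y ∈ LD k r, ∀ i : ℕ, i ≤ 2 →
      ‖iteratedFDeriv ℝ i (fun y => lg (fun z ζ => F'' (Pj z) (fderiv ℝ Pj z ζ)) y - lg Φ0 y) y‖ ≤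
        (i.factorial : ℝ) * δ * D ^ i := by
    intro y hy i hi
    rw [← iteratedFDerivWithin_of_isOpen i hLDo hy, iteratedFDerivWithin_congr heq hy]
    refine norm_iteratedFDerivWithin_comp_le hcl.1 hX2 (by exact_mod_cast hi)
      (O13_TD_open M).uniqueDiffOn hLDo.uniqueDiffOn hmaps hy ?_ ?_
    · intro l hl
      rw [iteratedFDerivWithin_of_isOpen l (O13_TD_open M) (hmaps hy)]
      obtain ⟨h1, h2, -⟩ := hRD y hy
      exact hcl.2 _ (hN _ (hLA y hy)) _ (htan _ (hLA y hy) _) h1 h2 l (hl.trans hi)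
    · intro l hl1 hl2
      rw [iteratedFDerivWithin_of_isOpen l hLDo hy]
      exact (hRD y hy).2.2 l hl1 (hl2.trans hi)
  have hPp : Function.Periodic Pj ((1 : ℝ), (0 : Vec k)) := by
    rintro ⟨θ, w⟩
    rw [Prod.mk_add_mk, add_zero]
    exact hper θ w
  refine ⟨?_, ?_, ?_, ?_, ?_, ?_, ?_⟩
  · intro z hz ζ s hs0
    rw [map_smul]
    exact hF''.hom _ (hN z hz) _ (htan z hz ζ) s hs0
  · intro θ w ζ _
    have h1 := hPp (θ, w)
    have h2 := O13_perd hPp (θ, w)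
    rw [Prod.mk_add_mk, add_zero] at h1 h2
    change F'' (Pj (θ + 1, w)) (fderiv ℝ Pj (θ + 1, w) ζ) = F'' (Pj (θ, w)) (fderiv ℝ Pj (θ, w) ζ)
    rw [h1, h2]
  · exact O13_cont hF'' hV hPj hm hA
  · intro z hz ζ
    rw [hΦ0 z hz]
    have hx := hN z hz
    have hv := htan z hz ζ
    have hb := hB z hz ζ
    set v := fderiv ℝ Pj z ζ with hvdef
    by_cases hv0 : v = 0
    · have h1 : ∀ F : Vec d → Vec d → ℝ, IsFinsler M F → F (Pj z) 0 = 0 := by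
        intro F hF
        have h2 := hF.hom _ hx v hv 0 le_rfl
        rwa [zero_smul, zero_mul] at h2
      rw [hv0, h1 F' hF', h1 F'' hF'']
      simp
    · have h0 : 0 < ‖v‖ := norm_pos_iff.2 hv0
      have hu := O13_smul ‖v‖⁻¹ hv
      have hun : ‖‖v‖⁻¹ • v‖ = 1 := by
        rw [norm_smul, norm_inv, norm_norm, inv_mul_cancel₀ h0.ne']
      have hvv : v = ‖v‖ • (‖v‖⁻¹ • v) := by
        rw [smul_smul, mul_inv_cancel₀ h0.ne', one_smul]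
      have h1 := hcl.2 _ hx _ hu (by rw [hun, div_le_one hR0]; exact hR) (by rw [hun]; exact hR) 0
        (by norm_num)
      rw [norm_iteratedFDeriv_zero, O13_ext F'' hx hu, O13_ext F' hx hu, Real.norm_eq_abs] at h1
      have h2 : F'' (Pj z) v = ‖v‖ * F'' (Pj z) (‖v‖⁻¹ • v) := by
        conv_lhs => rw [hvv]
        exact hF''.hom _ hx _ hu _ h0.le
      have h3 : F' (Pj z) v = ‖v‖ * F' (Pj z) (‖v‖⁻¹ • v) := by
        conv_lhs => rw [hvv]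
        exact hF'.hom _ hx _ hu _ h0.le
      have h4 : |F'' (Pj z) v - F' (Pj z) v| ≤ ‖v‖ * δ := by
        rw [h2, h3, ← mul_sub, abs_mul, abs_norm]
        exact mul_le_mul_of_nonneg_left h1 h0.le
      have h5 : 0 < F' (Pj z) v := hF'.pos _ hx _ hv hv0
      calc |F'' (Pj z) v - F' (Pj z) v| ≤ ‖v‖ * δ := h4
        _ ≤ (B * F' (Pj z) v) * δ := mul_le_mul_of_nonneg_right hb hδ0.le
        _ = (δ * B) * F' (Pj z) v := by ring
        _ ≤ η * F' (Pj z) v := mul_le_mul_of_nonneg_right hδ1 h5.le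
  · have h1 : ContDiffOn ℝ 2 (fun y => lg Φ0 y +
        ((fun z => ext M F'' z - ext M F' z) ∘ O13_Xi Pj) y) (LD k r) := hs.add hcomp
    refine h1.congr (fun y hy => ?_)
    have h2 := heq hy
    rw [← h2]
    ring
  · intro y hy
    have h1 := hbd y hy 1 (by norm_num)
    rw [norm_iteratedFDeriv_one, Nat.factorial_one, Nat.cast_one, one_mul, pow_one] at h1
    refine h1.trans ?_
    nlinarith [mul_nonneg hδ0.le (sub_nonneg.2 hD)]
  · intro y hy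
    have h1 := hbd y hy 2 le_rfl
    rw [← norm_iteratedFDeriv_fderiv (n := 1), norm_iteratedFDeriv_one, Nat.factorial_two] at h1
    push_cast at h1
    refine h1.trans ?_
    linarith

end EscW.On
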