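import Pool.Agent.EscW.CF2
import Pool.Agent.EscW.CF4
import Pool.Agent.EscW.CF5
import Pool.Agent.EscW.CF7
import Pool.Agent.EscW.O12
import Pool.Agent.EscW.O13
import Pool.Agent.EscW.D8

set_option autoImplicit false

/-!
Project EscW, part O, conformal version, module CF8: openness and conformal density, abstract form.
`open_abs` (for `Φ0 = Phm R0 1 w`) gives `η0`; `η1 = η0/4`; `ann_near_Q` with `η1` gives `η'`; `near_Qs` with `b = 20`, `b' = 21`, `η'` gives `s0`; also `s0 ‖A‖ 3 ≤ ρ/2`. Given `s ≤ s0`: `Φ1 = PhQ R0 w (Qs q g A s)`, `η2 > 0` with `η1 + η2 (1 + η1) ≤ η0` and `η1 + η2/s ≤ η0`. `Pj z = g (s • A (pol R0 z))`, `V = {z | ‖s • A (pol R0 z)‖ < ρ}`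
(open; `Pj z ∈ M.N` there). `𝒜 ⊆ V`: `‖pol R0 z‖ ≤ R0 + ‖z.2‖ ≤ 3`. `transfer` with `F' = fun x v => nrm (wM • q) x v 0` (`finsler_of_riem`, `hqr`), `Φ0 := fun z ζ => s * Φ1 z ζ` (`nrm_Pj`; smooth by `ann_near_Q`), `himm`: `polar_imm`, gives `R`, `δ`. For `F` close: `near_trans`: `Φ = fun z ζ => s⁻¹ * F (Pj z) (fderiv Pj z ζ)` is
near `Phm R0 1 w`. `open_abs` with `φ = Pj ∘ T` and the metric `fun x v t => Φ (T x) (fderiv T x v)`; `hφ`: `g (s • A Y) = g (s • A Y') + vz l` implies `l = 0` (`small`), `Y = Y'` (`left`), `pol_inj`. Then `scale_cal`, `scale_room`; `s * Φ (T x) (DT v) = F (φ x) (fderiv φ x v)` (chain rule), only for `x ∈ M'.N ∩ O`: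
transport `IsCalibratedW`, `IsRoom` to `pull φ F` (the metric is used only at points of `M'.N ∩ O`; or apply `open_abs` directly to `fun x v t => s⁻¹ * pull φ (fun x v _ => F x v) x v t`, which satisfies its hypothesis; then `s * (s⁻¹ * pull ..) = pull ..` by `funext`).
-/

noncomputable section

namespace EscW.On

open Filter Topology Set EscF.T EscM EscMT MeasureTheory EscW.Ex EscW.Dn
open scoped ContDiff

variable {d m k j n : ℕ}

theorem CF8_vz {l : Fin d → ℤ} (h : ‖(vz l : Vec d)‖ < 1) : (vz l : Vec d) = 0 := by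
  have h1 : ∀ i, l i = 0 := by
    intro i
    have h2 := PiLp.norm_apply_le (vz l : Vec d) i
    have h3 : (vz l : Vec d) i = (l i : ℝ) := rfl
    rw [h3] at h2
    have h4 : |(l i : ℝ)| < 1 := lt_of_le_of_lt h2 h
    have h5 : |l i| < 1 := by exact_mod_cast h4
    exact Int.abs_lt_one_iff.1 h5
  ext i
  show ((l i : ℤ) : ℝ) = 0
  rw [h1 i, Int.cast_zero]

theorem CF8_norm {s ρ R0 : ℝ} (A : Vec (j + 2) ≃L[ℝ] Vec (j + 2)) (hs : 0 < s) (hR : 1 ≤ R0)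
    (hR2 : R0 ≤ 2) (hsA : s * (‖(A : Vec (j + 2) →L[ℝ] Vec (j + 2))‖ * 3) ≤ ρ / 2)
    {z : ℝ × Vec (j + 1)} (hz : ‖z.2‖ ≤ 1) : ‖s • A (pol R0 z)‖ ≤ ρ / 2 := by
  have h1 := (A : Vec (j + 2) →L[ℝ] Vec (j + 2)).le_opNorm (pol R0 z)
  have h2 := pol_norm R0 z
  rw [abs_of_nonneg (by linarith)] at h2
  have h3 : ‖pol R0 z‖ ≤ 3 := by linarith
  rw [norm_smul, Real.norm_of_nonneg hs.le]
  refine le_trans (mul_le_mul_of_nonneg_left ?_ hs.le) hsA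
  exact h1.trans (mul_le_mul_of_nonneg_left h3 (norm_nonneg _))

theorem CF8_eta {η0 s : ℝ} (h0 : 0 < η0) (hs : 0 < s) : ∃ η2 : ℝ, 0 < η2 ∧
    η0 / 4 + η2 * (1 + η0 / 4) ≤ η0 ∧ η0 / 4 + η2 / s ≤ η0 := by
  refine ⟨min ((3 * η0 / 4) / (1 + η0 / 4)) (3 * η0 / 4 * s), lt_min (by positivity) (by positivity),
    ?_, ?_⟩
  · have h1 : min ((3 * η0 / 4) / (1 + η0 / 4)) (3 * η0 / 4 * s) * (1 + η0 / 4) ≤
        (3 * η0 / 4) / (1 + η0 / 4) * (1 + η0 / 4) :=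
      mul_le_mul_of_nonneg_right (min_le_left _ _) (by positivity)
    rw [div_mul_cancel₀ _ (by positivity)] at h1
    linarith
  · have h1 : min ((3 * η0 / 4) / (1 + η0 / 4)) (3 * η0 / 4 * s) / s ≤ 3 * η0 / 4 * s / s :=
      div_le_div_of_nonneg_right (min_le_right _ _) hs.le
    rw [mul_div_cancel_right₀ _ hs.ne'] at h1
    linarith

theorem conf_abs {M : Sub d} {i : ℕ∞} (hi : 2 ≤ i) {q : Vec d → Vec d →L[ℝ] Vec d →L[ℝ] ℝ}
    (hq : IsRiemannian M i q) {W : Set (Vec d)} {ρ : ℝ}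
    {g : Vec (j + 2) → Vec d} {g' : Vec d → Vec (j + 2)} (hg : MChart M (j + 2) W ρ g g')
    (A : Vec (j + 2) ≃L[ℝ] Vec (j + 2))
    (hA : ∀ v, q (g 0) (fderiv ℝ g 0 (A v)) (fderiv ℝ g 0 (A v)) = ‖v‖ ^ 2)
    {R0 r ℓ c c3 α β : ℝ} (hR : 1 ≤ R0) (hR2 : R0 ≤ 2) (hr2 : r ≤ 1 / 2) {w : Vec (j + 2) → ℝ}
    (hw : ContDiff ℝ ∞ w) (hwp : ∀ Y, 0 < w Y) {𝒜 : Set (ℝ × Vec (j + 1))}
    (hb : AnnBase (Phm R0 1 w) 𝒜 r ℓ c c3 α β) (hAc : IsClosed 𝒜)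
    (hAp : ∀ θ w, (θ + 1, w) ∈ 𝒜 ↔ (θ, w) ∈ 𝒜) (hAb : ∀ z ∈ 𝒜, ‖z.2‖ ≤ 1)
    (hr : ∀ z : ℝ × Vec (j + 1), ‖z.2‖ ≤ r → z ∈ 𝒜) (hpos : ∀ z ∈ 𝒜, 0 < R0 + z.2 0)
    {M' : Sub m} {O K : Set (Vec m)} {i0 : Fin m} {T : Vec m → ℝ × Vec (j + 1)}
    {Λ : ℝ × Vec (j + 1) → Vec m} (hc : AnnCover M' O i0 𝒜 r T Λ) {a0 : ℝ} {bar : Vec m → ℝ} {θ0 : ℝ}
    {nn : Fin m → ℤ} {γ : ℝ → Vec m} (hroom : RoomBase M' O K i0 r ℓ a0 (Phm R0 1 w) T Λ bar θ0 nn γ) :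
    ∃ s0 : ℝ, 0 < s0 ∧ ∀ s, 0 < s → s ≤ s0 →
      IsRiemannian M i (fun p => wM W s g' A w p • q p) →
      ∃ R δ : ℝ, 0 < R ∧ 0 < δ ∧ ∀ F : Vec d → Vec d → ℝ, IsFinsler M F →
        Close2 M R δ (fun x v => nrm (fun p => wM W s g' A w p • q p) x v 0) F →
        ∃ (B : Vec m → ℝ → ℝ) (len a' : ℝ) (c : ℝ → ℝ → Vec m),
          IsCalibratedW M' O (fun x => g (s • A (pol R0 (T x))))
            (pull (fun x => g (s • A (pol R0 (T x)))) (fun x v _ => F x v)) B i0 len c ∧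
          IsRoom M' O K (pull (fun x => g (s • A (pol R0 (T x)))) (fun x v _ => F x v)) B i0 c a' := by
  obtain ⟨η0, hη0, hopen⟩ := open_abs (d := d) hb hc hroom
  obtain ⟨η', hη', hQ⟩ := ann_near_Q hR hR2 hb.r_pos hr2 (W := w) (hw.of_le CF4_two) hwp hAb
    hb.tube (η := η0 / 4) (by positivity)
  obtain ⟨s0', hs0', hE⟩ := near_Qs hi hq hg A hA (b := 20) (b' := 21) (by norm_num) (by norm_num) hη'
  have hρ := hg.pos
  have hAn : 0 ≤ ‖(A : Vec (j + 2) →L[ℝ] Vec (j + 2))‖ := norm_nonneg _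
  refine ⟨min s0' (ρ / (6 * (‖(A : Vec (j + 2) →L[ℝ] Vec (j + 2))‖ + 1))),
    lt_min hs0' (by positivity), ?_⟩
  intro s hs hss hRm
  have hs1 : s ≤ s0' := hss.trans (min_le_left _ _)
  have hsA : s * (‖(A : Vec (j + 2) →L[ℝ] Vec (j + 2))‖ * 3) ≤ ρ / 2 := by
    have h1 : s ≤ ρ / (6 * (‖(A : Vec (j + 2) →L[ℝ] Vec (j + 2))‖ + 1)) := hss.trans (min_le_right _ _)
    rw [le_div_iff₀ (by positivity)] at h1
    nlinarith
  have hnorm : ∀ z ∈ 𝒜, ‖s • A (pol R0 z)‖ ≤ ρ / 2 := fun z hz =>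
    CF8_norm A hs hR hR2 hsA (hAb z hz)
  have h1 : AnnNear (Phm R0 1 w) (PhQ R0 w (Qs q g A s)) 𝒜 r (η0 / 4) := hQ _ (hE s hs hs1)
  obtain ⟨η2, hη2, he1, he2⟩ := CF8_eta hη0 hs
  set Pj : ℝ × Vec (j + 1) → Vec d := fun z => g (s • A (pol R0 z)) with hPjd
  set V : Set (ℝ × Vec (j + 1)) := {z | ‖s • A (pol R0 z)‖ < ρ} with hVd
  have hinner : ContDiff ℝ ∞ (fun z : ℝ × Vec (j + 1) => s • A (pol R0 z)) :=
    (A.contDiff.comp (pol_smooth R0)).const_smul s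
  have hV : IsOpen V := isOpen_lt hinner.continuous.norm continuous_const
  have hball : ∀ z ∈ V, s • A (pol R0 z) ∈ Metric.ball (0 : Vec (j + 2)) ρ := by
    intro z hz
    rw [mem_ball_zero_iff]
    exact hz
  have hPj : ContDiffOn ℝ ∞ Pj V := hg.smooth.comp hinner.contDiffOn hball
  have hm : ∀ z ∈ V, Pj z ∈ M.N := fun z hz => (hg.maps _ (hball z hz)).1
  have hmW : ∀ z ∈ V, Pj z ∈ W := fun z hz => (hg.maps _ (hball z hz)).2
  have hper : ∀ θ w, Pj (θ + 1, w) = Pj (θ, w) := by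
    intro θ w
    show g (s • A (pol R0 (θ + 1, w))) = g (s • A (pol R0 (θ, w)))
    rw [pol_per]
  have hAV : 𝒜 ⊆ V := fun z hz => lt_of_le_of_lt (hnorm z hz) (by linarith)
  have hF' : IsFinsler M (fun x v => nrm (fun p => wM W s g' A w p • q p) x v 0) :=
    (finsler_of_riem hRm).fins 0
  have hΦ0 : ∀ z ∈ 𝒜, ∀ ζ, (fun z ζ => s * PhQ R0 w (Qs q g A s) z ζ) z ζ =
      (fun x v => nrm (fun p => wM W s g' A w p • q p) x v 0) (Pj z) (fderiv ℝ Pj z ζ) := by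
    intro z hz ζ
    exact (nrm_Pj hg A hs hwp (hAV hz) ζ 0).symm
  have hsm : ContDiffOn ℝ 2 (lg (fun z ζ => s * PhQ R0 w (Qs q g A s) z ζ)) (LD (j + 1) r) :=
    contDiffOn_const.mul h1.smooth
  obtain ⟨R, δ, hRp, hδ, htr⟩ := transfer hF' hV hPj hm hper hAV hAc hAp hAb
    (fun z hz ζ hζ => polar_imm hg A hs (hnorm z hz) (hpos z hz) hζ) hr hΦ0 hsm hη2
  refine ⟨R, δ, hRp, hδ, ?_⟩
  intro F hF hclose
  have h2 := htr F hF hclose
  have h3 : AnnNear (Phm R0 1 w) (fun z ζ => s⁻¹ * F (Pj z) (fderiv ℝ Pj z ζ)) 𝒜 r η0 :=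
    near_trans hb.nonneg hb.smooth hs h1 h2 hη2.le he1 he2
  have hT𝒜 : ∀ x ∈ M'.N ∩ O, T x ∈ 𝒜 := hc.maps
  have hchain : ∀ x ∈ M'.N ∩ O, ∀ v,
      fderiv ℝ (fun x => g (s • A (pol R0 (T x)))) x v = fderiv ℝ Pj (T x) (fderiv ℝ T x v) := by
    intro x hx v
    have hd1 : DifferentiableAt ℝ Pj (T x) :=
      (hPj.contDiffAt (hV.mem_nhds (hAV (hT𝒜 x hx)))).differentiableAt (by simp)
    have hd2 : DifferentiableAt ℝ T x := hc.smooth.differentiable one_ne_zero x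
    have h4 : fderiv ℝ (Pj ∘ T) x = (fderiv ℝ Pj (T x)).comp (fderiv ℝ T x) := fderiv_comp x hd1 hd2
    have h5 : (fun x => g (s • A (pol R0 (T x)))) = Pj ∘ T := rfl
    rw [h5, h4]
    rfl
  have hFx : ∀ x ∈ M'.N ∩ O, ∀ v (t : ℝ),
      (fun x v t => s⁻¹ * pull (fun x => g (s • A (pol R0 (T x)))) (fun x v _ => F x v) x v t) x v t =
        (fun z ζ => s⁻¹ * F (Pj z) (fderiv ℝ Pj z ζ)) (T x) (fderiv ℝ T x v) := by
    intro x hx v t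
    show s⁻¹ * F (g (s • A (pol R0 (T x)))) (fderiv ℝ (fun x => g (s • A (pol R0 (T x)))) x v) = _
    rw [hchain x hx v]
  have hφ : ∀ x ∈ M'.N ∩ O, ∀ y ∈ M'.N ∩ O, ∀ l : Fin d → ℤ,
      (fun x => g (s • A (pol R0 (T x)))) x = (fun x => g (s • A (pol R0 (T x)))) y + vz l →
      ∃ l' : ℤ, (T x).1 = (T y).1 + l' := by
    intro x hx y hy l hl
    have hxV := hAV (hT𝒜 x hx)
    have hyV := hAV (hT𝒜 y hy)
    have hl' : Pj (T x) = Pj (T y) + vz l := hl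
    have hd := hg.small _ (hmW _ hxV) _ (hmW _ hyV)
    rw [hl', dist_eq_norm, add_sub_cancel_left] at hd
    have hl0 := CF8_vz hd
    rw [hl0, add_zero] at hl'
    have e1 := hg.left _ (hball _ hxV)
    have e2 := hg.left _ (hball _ hyV)
    have e3 : s • A (pol R0 (T x)) = s • A (pol R0 (T y)) := by
      rw [← e1, ← e2]
      exact congrArg g' hl'
    have e4 : pol R0 (T x) = pol R0 (T y) := by
      have e5 := smul_right_injective (Vec (j + 2)) hs.ne' e3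
      exact A.injective e5
    exact pol_inj (hpos _ (hT𝒜 x hx)) (hpos _ (hT𝒜 y hy)) e4
  obtain ⟨B, len, a', c', hcal, hroom'⟩ := hopen _ h3 (fun x => g (s • A (pol R0 (T x))))
    (fun x v t => s⁻¹ * pull (fun x => g (s • A (pol R0 (T x)))) (fun x v _ => F x v) x v t) hFx hφ
  have hfun : (fun (x v : Vec m) (t : ℝ) => s * (s⁻¹ * pull (fun x => g (s • A (pol R0 (T x))))
      (fun x v _ => F x v) x v t)) = pull (fun x => g (s • A (pol R0 (T x)))) (fun x v _ => F x v) := by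
    funext x v t
    rw [← mul_assoc, mul_inv_cancel₀ hs.ne', one_mul]
  have hhom : ∀ x ∈ M'.N ∩ O, ∀ (v : Vec m) (t a : ℝ), 0 ≤ a →
      (fun x v t => s⁻¹ * pull (fun x => g (s • A (pol R0 (T x)))) (fun x v _ => F x v) x v t)
        x (a • v) t = a * (fun x v t => s⁻¹ * pull (fun x => g (s • A (pol R0 (T x))))
          (fun x v _ => F x v) x v t) x v t := by
    intro x hx v t a ha
    rw [hFx x hx, hFx x hx, map_smul]
    exact h3.hom (T x) (hT𝒜 x hx) _ a ha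
  have hc1 := scale_cal hs hhom hcal
  have hc2 := scale_room hs hroom'
  rw [hfun] at hc1 hc2
  exact ⟨_, _, _, _, hc1, hc2⟩

end EscW.On
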