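import Pool.Agent.EscW.DDefs

set_option autoImplicit false

/-!
Project EscW, part G (MP_6acca1_an): density of metrics on surfaces. A thin annulus with two slits around the unit
circle in `ℝ²`; it is covered by a part of the closed surface `{Fe = 0}` in `𝕋³`.
-/

noncomputable section

namespace EscW.Gn

open Filter Topology Set EscF.T EscM EscMT MeasureTheory EscW.Ex EscW.Dn
open scoped ContDiff

/-- radial coordinate -/
def uu (x : Vec 3) : ℝ := Real.sin (2 * Real.pi * x 1)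

/-- the equation of the surface: `Fe x = 0` and `0 < Ce x` mean that `x 2` is the argument, divided by `2π`, of
`(4 uu x - 1) + i sin (2π x 0)` -/
def Fe (x : Vec 3) : ℝ :=
  Real.sin (2 * Real.pi * x 0) * Real.cos (2 * Real.pi * x 2) - (4 * uu x - 1) * Real.sin (2 * Real.pi * x 2)

def Ce (x : Vec 3) : ℝ :=
  (4 * uu x - 1) * Real.cos (2 * Real.pi * x 2) + Real.sin (2 * Real.pi * x 0) * Real.sin (2 * Real.pi * x 2)

/-- zero at the slits -/
def qz (x : Vec 3) : ℝ := (4 * uu x - 1) ^ 2 + Real.sin (2 * Real.pi * x 0) ^ 2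

/-- distance from the origin -/
def rr (δ : ℝ) (x : Vec 3) : ℝ := 1 + δ * uu x

/-- polar coordinates -/
def em (δ : ℝ) (x : Vec 3) : Vec 2 :=
  WithLp.toLp 2 (fun i => if i = 0 then rr δ x * Real.cos (2 * Real.pi * x 0) else
    rr δ x * Real.sin (2 * Real.pi * x 0))

/-- the domain of the chart -/
def SO : Set (Vec 3) := {x | 1 / 5 < qz x ∧ uu x ^ 2 < 4 / 5 ∧ 0 < Real.cos (2 * Real.pi * x 1) ∧ 0 < Ce x}

/-- the room -/
def SK : Set (Vec 3) := {x | Fe x = 0 ∧ 1 / 4 ≤ qz x ∧ uu x ^ 2 ≤ 3 / 4 ∧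
  0 ≤ Real.cos (2 * Real.pi * x 1) ∧ 0 ≤ Ce x}

/-- square of the norm of the derivative of `em` -/
def mn (δ : ℝ) (x v : Vec 3) : ℝ :=
  (2 * Real.pi * rr δ x * v 0) ^ 2 + (2 * Real.pi * δ * Real.cos (2 * Real.pi * x 1) * v 1) ^ 2

/-! ### functions on the target -/

def tr (Y : Vec 2) : ℝ := √(Y 0 ^ 2 + Y 1 ^ 2)

def tu (δ : ℝ) (Y : Vec 2) : ℝ := (tr Y - 1) / δ

def tz (δ : ℝ) (Y : Vec 2) : ℝ := (4 * tu δ Y - 1) ^ 2 + (Y 1 / tr Y) ^ 2

/-- the conformal factor in the annulus -/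
def tw (δ ε : ℝ) (Y : Vec 2) : ℝ :=
  (1 - ε) / tr Y + (tr Y - 1) ^ 2 +
    ε / 2 * (Real.smoothTransition (2 - 2 * tz δ Y) + Real.smoothTransition (4 * tu δ Y ^ 2 - 1))

/-- cut-off -/
def tΘ (δ : ℝ) (Y : Vec 2) : ℝ :=
  Real.smoothTransition (20 * tz δ Y - 3) * (1 - Real.smoothTransition (20 * tu δ Y ^ 2 - 16))

/-- the conformal factor -/
def tW (δ ε : ℝ) (Y : Vec 2) : ℝ := tΘ δ Y * tw δ ε Y + (1 - tΘ δ Y)

/-- length of the calibrated curve -/
def ll (ε s : ℝ) : ℝ := 2 * Real.pi * s * (1 - ε)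

/-- the calibrating function -/
def BB (ε s : ℝ) (x : Vec 3) (_ : ℝ) : ℝ := ll ε s * x 0

/-- the calibrated curve -/
def cc (ε s σ _t : ℝ) : Vec 3 :=
  WithLp.toLp 2 (fun i => if i = 0 then σ / ll ε s - 1 / 2 else if i = 1 then 0 else
    1 / 2 - Real.arctan (Real.sin (2 * Real.pi * (σ / ll ε s - 1 / 2))) / (2 * Real.pi))

/-- the second direction -/
def dd (t : ℝ) : Vec 3 :=
  WithLp.toLp 2 (fun i => if i = 0 then t - 1 / 2 else
    if i = 1 then Real.arcsin ((1 + Real.cos (2 * Real.pi * (t - 1 / 2))) / 4) / (2 * Real.pi) else t + 1 / 2)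

/-- the barrier -/
def bar (b : ℝ) (x : Vec 3) : ℝ :=
  b * (Real.smoothTransition (2 - 4 * qz x) + Real.smoothTransition (4 * uu x ^ 2 - 2))

/-- the model metric at the scale `s` -/
def FM (δ ε s : ℝ) (x v : Vec 3) : ℝ := s * tw δ ε (em δ x) * √(mn δ x v)

end EscW.Gn
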