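import Pool.Agent.EscM.MDefs
import Pool.Agent.EscW.GDefs

set_option autoImplicit false

/-!
Project EscW, part G, module G1: regular level sets are closed submanifolds.
-/

noncomputable section

namespace EscW.Gn

open Filter Topology Set EscF.T EscM EscMT MeasureTheory EscW.Ex EscW.Dn
open scoped ContDiff

variable {d m n : ℕ}

/-- the gradient -/
def G1_gr (F : Vec m → ℝ) (p : Vec m) : Vec m :=
  WithLp.toLp 2 (fun i => fderiv ℝ F p (EuclideanSpace.single i 1))

theorem G1_inner (F : Vec m → ℝ) (p u : Vec m) : inner ℝ (G1_gr F p) u = fderiv ℝ F p u := by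
  have h1 : u = ∑ i, u i • (EuclideanSpace.single i (1 : ℝ)) := by
    have := (EuclideanSpace.basisFun (Fin m) ℝ).sum_repr u
    simpa using this.symm
  conv_rhs => rw [h1]
  rw [map_sum, PiLp.inner_apply]
  refine Finset.sum_congr rfl fun i _ => ?_
  rw [map_smul, smul_eq_mul]
  change inner ℝ (fderiv ℝ F p (EuclideanSpace.single i 1)) (u i) = _
  simp

theorem G1_smooth {F : Vec m → ℝ} (hF : ContDiff ℝ ∞ F) : ContDiff ℝ ∞ (G1_gr F) := by
  rw [contDiff_euclidean]
  intro i
  have h1 : ContDiff ℝ ∞ (fderiv ℝ F) := hF.fderiv_right (m := ∞) (by simp)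
  exact h1.clm_apply contDiff_const

/-- tubular coordinates -/
def G1_psi (F : Vec m → ℝ) (z : Vec m × ℝ) : Vec m × ℝ := (z.1 + z.2 • G1_gr F z.1, F z.1)

theorem G1_psi_smooth {F : Vec m → ℝ} (hF : ContDiff ℝ ∞ F) : ContDiff ℝ ∞ (G1_psi F) :=
  (contDiff_fst.add (contDiff_snd.smul ((G1_smooth hF).comp contDiff_fst))).prodMk
    (hF.comp contDiff_fst)

theorem G1_deriv {F : Vec m → ℝ} (hF : ContDiff ℝ ∞ F) (p u : Vec m) (μ : ℝ) :
    fderiv ℝ (G1_psi F) (p, 0) (u, μ) = (u + μ • G1_gr F p, fderiv ℝ F p u) := by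
  have hG : HasFDerivAt (G1_gr F) (fderiv ℝ (G1_gr F) p) p :=
    ((G1_smooth hF).differentiable (by simp) p).hasFDerivAt
  have hf : HasFDerivAt F (fderiv ℝ F p) p := (hF.differentiable (by simp) p).hasFDerivAt
  have h1 : HasFDerivAt (fun z : Vec m × ℝ => G1_gr F z.1)
      ((fderiv ℝ (G1_gr F) p).comp (ContinuousLinearMap.fst ℝ (Vec m) ℝ)) (p, 0) :=
    HasFDerivAt.comp (p, (0 : ℝ)) (f := Prod.fst) (g := G1_gr F) hG hasFDerivAt_fst
  have h2 : HasFDerivAt (fun z : Vec m × ℝ => F z.1)
      ((fderiv ℝ F p).comp (ContinuousLinearMap.fst ℝ (Vec m) ℝ)) (p, 0) :=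
    HasFDerivAt.comp (p, (0 : ℝ)) (f := Prod.fst) (g := F) hf hasFDerivAt_fst
  have h3 := ((hasFDerivAt_fst (𝕜 := ℝ) (E := Vec m) (F := ℝ) (p := (p, (0 : ℝ)))).add
    ((hasFDerivAt_snd (𝕜 := ℝ) (E := Vec m) (F := ℝ) (p := (p, (0 : ℝ)))).smul h1)).prodMk h2
  have h4 : HasFDerivAt (G1_psi F) _ (p, (0 : ℝ)) := h3
  rw [h4.fderiv]
  simp

/-- local uniqueness and smoothness of the nearest point -/
theorem G1_local {F : Vec m → ℝ} (hF : ContDiff ℝ ∞ F) (hreg : ∀ x, F x = 0 → fderiv ℝ F x ≠ 0)
    {p0 : Vec m} (hp0 : F p0 = 0) :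
    ∃ V : Set (Vec m), IsOpen V ∧ p0 ∈ V ∧ ∃ g : Vec m → Vec m, ContDiffOn ℝ ∞ g V ∧
      ∀ y ∈ V, ∀ p, F p = 0 → Metric.infDist y {x | F x = 0} = dist y p → p = g y := by
  have hG0 : G1_gr F p0 ≠ 0 := by
    intro h
    apply hreg p0 hp0
    ext u
    rw [← G1_inner, h]
    simp
  have hψ := G1_psi_smooth hF
  -- the derivative is invertible
  have hinj : Function.Injective (fderiv ℝ (G1_psi F) (p0, 0)) := by
    rw [injective_iff_map_eq_zero]
    rintro ⟨u, μ⟩ h
    rw [G1_deriv hF, Prod.mk_eq_zero] at h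
    obtain ⟨h1, h2⟩ := h
    have h3 : u = -(μ • G1_gr F p0) := eq_neg_of_add_eq_zero_left h1
    have h4 : μ * ‖G1_gr F p0‖ ^ 2 = 0 := by
      rw [h3, map_neg, map_smul, ← G1_inner, real_inner_self_eq_norm_sq, smul_eq_mul] at h2
      linarith
    have h5 : μ = 0 := by
      rcases mul_eq_zero.1 h4 with h | h
      · exact h
      · exact absurd (norm_eq_zero.1 (pow_eq_zero_iff two_ne_zero |>.1 h)) hG0
    rw [h5, zero_smul, neg_zero] at h3
    rw [h3, h5]
    rfl
  let Le : (Vec m × ℝ) ≃L[ℝ] (Vec m × ℝ) :=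
    (LinearEquiv.ofInjectiveEndo (fderiv ℝ (G1_psi F) (p0, 0)).toLinearMap hinj).toContinuousLinearEquiv
  have hLe : (Le : (Vec m × ℝ) →L[ℝ] (Vec m × ℝ)) = fderiv ℝ (G1_psi F) (p0, 0) :=
    ContinuousLinearMap.ext fun _ => rfl
  have hd : HasFDerivAt (G1_psi F) (Le : (Vec m × ℝ) →L[ℝ] (Vec m × ℝ)) (p0, 0) := by
    rw [hLe]
    exact (hψ.differentiable (by simp) _).hasFDerivAt
  set e := (hψ.contDiffAt (x := (p0, (0 : ℝ)))).toOpenPartialHomeomorph (G1_psi F) hd (by simp)
    with he
  have hecoe : ∀ z, e z = G1_psi F z := fun z => rfl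
  have hsrc : (p0, (0 : ℝ)) ∈ e.source :=
    (hψ.contDiffAt (x := (p0, (0 : ℝ)))).mem_toOpenPartialHomeomorph_source hd (by simp)
  set S : Set (Vec m × ℝ) := e.source ∩
    (fderiv ℝ (G1_psi F)) ⁻¹' (range ((↑) : ((Vec m × ℝ) ≃L[ℝ] (Vec m × ℝ)) →
      (Vec m × ℝ) →L[ℝ] (Vec m × ℝ))) with hS
  have hSo : IsOpen S :=
    e.open_source.inter ((ContinuousLinearEquiv.isOpen).preimage
      (hψ.continuous_fderiv (by simp)))
  have hS0 : (p0, (0 : ℝ)) ∈ S := ⟨hsrc, ⟨Le, hLe⟩⟩
  have he0 : e (p0, (0 : ℝ)) = (p0, 0) := by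
    rw [hecoe]
    unfold G1_psi
    simp [hp0]
  -- sizes
  obtain ⟨ε, hε, hball⟩ := Metric.isOpen_iff.1 hSo _ hS0
  have hcont : Continuous (fun p => ‖G1_gr F p‖) := (G1_smooth hF).continuous.norm
  set c := ‖G1_gr F p0‖ / 2 with hc
  have hc0 : 0 < c := by
    have := norm_pos_iff.2 hG0
    positivity
  obtain ⟨δ, hδ, hδc⟩ : ∃ δ > 0, ∀ p, dist p p0 < δ → c < ‖G1_gr F p‖ := by
    have h1 : {p : Vec m | c < ‖G1_gr F p‖} ∈ 𝓝 p0 :=
      (isOpen_lt continuous_const hcont).mem_nhds (by
        change c < ‖G1_gr F p0‖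
        have := norm_pos_iff.2 hG0
        rw [hc]
        linarith)
    obtain ⟨δ, hδ, h2⟩ := Metric.mem_nhds_iff.1 h1
    exact ⟨δ, hδ, fun p hp => h2 hp⟩
  set η := min (ε / 2) (min (δ / 2) (c * ε)) with hη
  have hη0 : 0 < η := lt_min (by positivity) (lt_min (by positivity) (by positivity))
  have hη1 : η ≤ ε / 2 := min_le_left _ _
  have hη2 : η ≤ δ / 2 := (min_le_right _ _).trans (min_le_left _ _)
  have hη3 : η ≤ c * ε := (min_le_right _ _).trans (min_le_right _ _)
  set W : Set (Vec m) := (fun y : Vec m => (y, (0 : ℝ))) ⁻¹' (e.target ∩ e.symm ⁻¹' S) with hW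
  have hWo : IsOpen W :=
    (e.isOpen_inter_preimage_symm hSo).preimage (by fun_prop)
  refine ⟨Metric.ball p0 η ∩ W, Metric.isOpen_ball.inter hWo, ⟨Metric.mem_ball_self hη0, ?_⟩,
    fun y => (e.symm (y, 0)).1, ?_, ?_⟩
  · have h1 : (p0, (0 : ℝ)) ∈ e.target := by
      rw [← he0]
      exact e.map_source hsrc
    refine ⟨h1, ?_⟩
    change e.symm (p0, 0) ∈ S
    have h2 : e.symm (p0, (0 : ℝ)) = (p0, 0) := by
      conv_lhs => rw [← he0]
      exact e.left_inv hsrc
    rw [h2]
    exact hS0
  · intro y hy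
    obtain ⟨h1, h2⟩ := hy.2
    obtain ⟨L', hL'⟩ := h2.2
    have h3 : ContDiffAt ℝ ∞ e.symm (y, (0 : ℝ)) := by
      refine e.contDiffAt_symm (f₀' := L') h1 ?_ ?_
      · rw [hL']
        exact (hψ.differentiable (by simp) _).hasFDerivAt
      · exact hψ.contDiffAt
    have h4 : ContDiffAt ℝ ∞ (fun y : Vec m => e.symm (y, (0 : ℝ))) y :=
      ContDiffAt.comp y h3 (contDiffAt_id.prodMk contDiffAt_const)
    exact (contDiffAt_fst.comp y h4).contDiffWithinAt
  · rintro y ⟨hy1, hy2⟩ p hp hdist
    have hyp0 : dist y p0 < η := hy1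
    have hyp : dist y p ≤ dist y p0 := by
      rw [← hdist]
      exact Metric.infDist_le_dist_of_mem hp0
    have hpp0 : dist p p0 < 2 * η := by
      have := dist_triangle_left p p0 y
      linarith
    -- Lagrange multipliers
    have hex : IsLocalExtrOn (fun z : Vec m => ‖y - z‖ ^ 2) {z | F z = F p} p := by
      left
      refine mem_of_superset self_mem_nhdsWithin fun z hz => ?_
      have hz' : F z = 0 := by
        rw [← hp]
        exact hz
      have h1 : dist y p ≤ dist y z := by
        rw [← hdist]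
        exact Metric.infDist_le_dist_of_mem hz'
      change ‖y - p‖ ^ 2 ≤ ‖y - z‖ ^ 2
      rw [← dist_eq_norm, ← dist_eq_norm]
      exact pow_le_pow_left₀ dist_nonneg h1 2
    have hφ : HasStrictFDerivAt (fun z : Vec m => ‖y - z‖ ^ 2)
        (-(2 : ℝ) • (innerSL ℝ (y - p))) p := by
      have h1 : HasStrictFDerivAt (fun z : Vec m => y - z) (-(ContinuousLinearMap.id ℝ (Vec m))) p := by
        simpa using (hasStrictFDerivAt_id (𝕜 := ℝ) p).const_sub y
      have h2 := (hasStrictFDerivAt_norm_sq (y - p)).comp p h1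
      refine h2.congr_fderiv ?_
      ext u
      simp
    have hf' : HasStrictFDerivAt F (fderiv ℝ F p) p := hF.contDiffAt.hasStrictFDerivAt (by simp)
    obtain ⟨a, b, hab, heq⟩ := hex.exists_multipliers_of_hasStrictFDerivAt_1d hf' hφ
    have hb : b ≠ 0 := by
      intro hb
      rw [hb, zero_smul, add_zero] at heq
      have ha : a ≠ 0 := by
        rintro rfl
        exact hab (by rw [hb]; rfl)
      exact hreg p hp ((smul_eq_zero.1 heq).resolve_left ha)
    have hlam : y - p = (a / (2 * b)) • G1_gr F p := by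
      refine ext_inner_right ℝ fun u => ?_
      have h1 := congrArg (fun L : Vec m →L[ℝ] ℝ => L u) heq
      simp only [add_apply, smul_apply, smul_eq_mul, innerSL_apply_apply, zero_apply] at h1
      rw [real_inner_smul_left, G1_inner]
      field_simp
      linarith
    set lam := a / (2 * b) with hlamd
    have hcp : c < ‖G1_gr F p‖ := hδc p (by linarith)
    have hlam2 : |lam| < ε := by
      have h1 : ‖y - p‖ < c * ε := by
        rw [← dist_eq_norm]
        linarith
      rw [hlam, norm_smul, Real.norm_eq_abs] at h1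
      by_contra hcon
      push Not at hcon
      have h2 : ε * c ≤ |lam| * ‖G1_gr F p‖ := mul_le_mul hcon hcp.le hc0.le (abs_nonneg _)
      linarith
    have hmem : (p, lam) ∈ S := by
      apply hball
      rw [Metric.mem_ball, Prod.dist_eq]
      refine max_lt ?_ ?_
      · change dist p p0 < ε
        linarith
      · change dist lam 0 < ε
        rw [Real.dist_eq, sub_zero]
        exact hlam2
    have hval : e (p, lam) = (y, 0) := by
      rw [hecoe]
      unfold G1_psi
      rw [Prod.mk.injEq]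
      refine ⟨?_, hp⟩
      change p + lam • G1_gr F p = y
      rw [← hlam]
      abel
    change p = (e.symm (y, 0)).1
    rw [← hval, e.left_inv hmem.1]

theorem exists_sub_level {F : Vec m → ℝ} (hF : ContDiff ℝ ∞ F)
    (hper : ∀ (k : Fin m → ℤ) (x : Vec m), F (x + vz k) = F x)
    (hreg : ∀ x, F x = 0 → fderiv ℝ F x ≠ 0) : ∃ M' : Sub m, M'.N = {x | F x = 0} := by
  set N : Set (Vec m) := {x | F x = 0} with hN
  have hNc : IsClosed N := isClosed_eq hF.continuous continuous_const
  have hNp : ∀ (k : Fin m → ℤ) (x : Vec m), x ∈ N → x + vz k ∈ N := by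
    intro k x hx
    change F (x + vz k) = 0
    rw [hper]
    exact hx
  rcases N.eq_empty_or_nonempty with hemp | hne
  · exact ⟨{ N := N
             U := ∅
             r := id
             closed := hNc
             isOpen := isOpen_empty
             sub := by rw [hemp]
             perN := fun k x hx => hNp k x hx
             perU := fun k x hx => absurd hx (notMem_empty x)
             smooth := contDiffOn_empty
             mem := fun x hx => absurd hx (notMem_empty x)
             nearest := fun x hx => absurd hx (notMem_empty x) }, rfl⟩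
  · have hex : ∀ x, ∃ p ∈ N, Metric.infDist x N = dist x p := fun x =>
      hNc.exists_infDist_eq_dist hne x
    choose r hr1 hr2 using hex
    set U : Set (Vec m) := {x | ∃ V : Set (Vec m), IsOpen V ∧ x ∈ V ∧
      (∀ y ∈ V, ∀ p ∈ N, Metric.infDist y N = dist y p → p = r y) ∧ ContDiffOn ℝ ∞ r V} with hU
    have hnear : ∀ x ∈ U, ∀ p ∈ N, Metric.infDist x N = dist x p → p = r x := by
      rintro x ⟨V, hV, hx, h1, h2⟩ p hp h
      exact h1 x hx p hp h
    have hvz : ∀ k : Fin m → ℤ, vz (-k) = -(vz k : Vec m) := by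
      intro k
      ext i
      simp [vz]
    have hinf : ∀ (k : Fin m → ℤ) (x : Vec m), Metric.infDist (x + vz k) N = Metric.infDist x N := by
      have h1 : ∀ (k : Fin m → ℤ) (x : Vec m), Metric.infDist (x + vz k) N ≤ Metric.infDist x N := by
        intro k x
        rw [hr2 x]
        have h2 := Metric.infDist_le_dist_of_mem (x := x + vz k) (hNp k _ (hr1 x))
        rwa [dist_add_right] at h2
      intro k x
      refine le_antisymm (h1 k x) ?_
      have h2 := h1 (-k) (x + vz k)
      rw [hvz, add_neg_cancel_right] at h2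
      exact h2
    -- equivariance of unique nearest points
    have hequi : ∀ (k : Fin m → ℤ) (V : Set (Vec m)),
        (∀ y ∈ V, ∀ p ∈ N, Metric.infDist y N = dist y p → p = r y) →
        ∀ y, y - vz k ∈ V → ∀ p ∈ N, Metric.infDist y N = dist y p → p = r (y - vz k) + vz k := by
      intro k V hV y hy p hp h
      have h1 : p - vz k ∈ N := by
        have := hNp (-k) p hp
        rwa [hvz, ← sub_eq_add_neg] at this
      have h2 : Metric.infDist (y - vz k) N = dist (y - vz k) (p - vz k) := by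
        rw [dist_sub_right, ← h]
        have := hinf k (y - vz k)
        rw [sub_add_cancel] at this
        exact this.symm
      have h3 := hV _ hy _ h1 h2
      rw [← h3, sub_add_cancel]
    refine ⟨{ N := N
              U := U
              r := r
              closed := hNc
              isOpen := ?_
              sub := ?_
              perN := fun k x hx => hNp k x hx
              perU := ?_
              smooth := ?_
              mem := fun x _ => hr1 x
              nearest := ?_ }, rfl⟩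
    · rw [isOpen_iff_mem_nhds]
      rintro x ⟨V, hV, hx, h1, h2⟩
      exact mem_of_superset (hV.mem_nhds hx) fun y hy => ⟨V, hV, hy, h1, h2⟩
    · intro x hx
      obtain ⟨V, hV, hxV, g, hg, huniq⟩ := G1_local hF hreg (p0 := x) hx
      have hrg : ∀ y ∈ V, r y = g y := fun y hy => huniq y hy _ (hr1 y) (hr2 y)
      refine ⟨V, hV, hxV, ?_, hg.congr hrg⟩
      intro y hy p hp h
      rw [hrg y hy]
      exact huniq y hy p hp h
    · rintro k x ⟨V, hV, hx, h1, h2⟩
      have hVk : IsOpen {y : Vec m | y - vz k ∈ V} := hV.preimage (by fun_prop)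
      have hrk : ∀ y ∈ {y : Vec m | y - vz k ∈ V}, r y = r (y - vz k) + vz k := fun y hy =>
        hequi k V h1 y hy _ (hr1 y) (hr2 y)
      refine ⟨{y | y - vz k ∈ V}, hVk, ?_, ?_, ?_⟩
      · change x + vz k - vz k ∈ V
        rw [add_sub_cancel_right]
        exact hx
      · intro y hy p hp h
        rw [hrk y hy]
        exact hequi k V h1 y hy p hp h
      · have h3 : ContDiffOn ℝ ∞ (fun y : Vec m => r (y - vz k) + vz k) {y | y - vz k ∈ V} :=
          (h2.comp (contDiff_id.sub contDiff_const).contDiffOn fun y hy => hy).add contDiffOn_const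
        exact h3.congr hrk
    · rintro x ⟨V, hV, hx, h1, h2⟩
      exact (h2.contDiffAt (hV.mem_nhds hx)).contDiffWithinAt
    · intro x hx p hp hne
      refine lt_of_le_of_ne ?_ ?_
      · rw [← hr2 x]
        exact Metric.infDist_le_dist_of_mem hp
      · intro h
        apply hne
        refine hnear x hx p hp ?_
        rw [hr2 x, h]

end EscW.Gn
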