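import Pool.Agent.EscW.G6
import Pool.Agent.EscW.E14

set_option autoImplicit false

/-!
Project EscW, part G, module G7: the room.
Constants: `|st'| ≤ C0`, `b = ε δ / (72 C0)`, `a = s b`. `second`: the curve `dd`. `exit`: the barrier `s * bar b`,
whose derivative is bounded by the excess of the metric; at the boundary points of the room it is at least `s b`.
-/

noncomputable section

namespace EscW.Gn

open Filter Topology Set EscF.T EscM EscMT MeasureTheory EscW.Ex EscW.Dn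
open scoped ContDiff

variable {d m n : ℕ}

/-! ### derivatives of `qz` and `uu` -/

theorem G7_dqz (x v : Vec 3) : fderiv ℝ qz x v =
    8 * (4 * uu x - 1) * (Real.cos (2 * Real.pi * x 1) * (2 * Real.pi * v 1)) +
      2 * (Real.sin (2 * Real.pi * x 0) * Real.cos (2 * Real.pi * x 0)) * (2 * Real.pi * v 0) := by
  have h1 := ((((G2_duu x v).const_mul 4).sub_const 1).pow 2).add ((G2_dsin x v 0).pow 2)
  have h2 := G2_line qz_smooth x v
  have h3 := h2.unique h1
  rw [h3]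
  simp only [zero_smul, add_zero]
  push_cast
  ring

theorem G7_duu (x v : Vec 3) : fderiv ℝ uu x v = Real.cos (2 * Real.pi * x 1) * (2 * Real.pi * v 1) :=
  (G2_line G2_suu x v).unique (G2_duu x v)

theorem G7_v1 {δ : ℝ} (hδ : 0 < δ) (x v : Vec 3) :
    |Real.cos (2 * Real.pi * x 1) * (2 * Real.pi * v 1)| ≤ √(mn δ x v) / δ := by
  rw [le_div_iff₀ hδ]
  have h1 : |Real.cos (2 * Real.pi * x 1) * (2 * Real.pi * v 1)| * δ =
      |2 * Real.pi * δ * Real.cos (2 * Real.pi * x 1) * v 1| := by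
    rw [← abs_of_pos hδ, ← abs_mul, abs_of_pos hδ]
    congr 1
    ring
  rw [h1]
  apply Real.abs_le_sqrt
  unfold mn
  nlinarith [sq_nonneg (2 * Real.pi * rr δ x * v 0)]

theorem G7_v0 {δ : ℝ} (hδ : 0 < δ) (h8 : δ ≤ 1 / 8) (x v : Vec 3) :
    |2 * Real.pi * v 0| ≤ 8 / 7 * √(mn δ x v) := by
  have hr := (rr_bd hδ h8 x).1
  have h1 : |2 * Real.pi * rr δ x * v 0| ≤ √(mn δ x v) := by
    apply Real.abs_le_sqrt
    exact G6_mn_ge δ x v
  have h2 : |2 * Real.pi * rr δ x * v 0| = rr δ x * |2 * Real.pi * v 0| := by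
    rw [← abs_of_pos (show 0 < rr δ x by linarith), ← abs_mul, abs_of_pos (show 0 < rr δ x by linarith)]
    congr 1
    ring
  rw [h2] at h1
  have h3 := abs_nonneg (2 * Real.pi * v 0)
  nlinarith

theorem G7_dqz_le {δ : ℝ} (hδ : 0 < δ) (h8 : δ ≤ 1 / 8) {x : Vec 3} (hx : qz x ≤ 1 / 2) (v : Vec 3) :
    |fderiv ℝ qz x v| ≤ 9 / δ * √(mn δ x v) := by
  have hS := Real.sqrt_nonneg (mn δ x v)
  have h1 := G7_v1 hδ x v
  have h0 := G7_v0 hδ h8 x v
  have hu : |4 * uu x - 1| ≤ 1 := by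
    rw [← sq_le_one_iff_abs_le_one]
    unfold qz at hx
    nlinarith [sq_nonneg (Real.sin (2 * Real.pi * x 0))]
  have hsc : |2 * (Real.sin (2 * Real.pi * x 0) * Real.cos (2 * Real.pi * x 0))| ≤ 1 := by
    have : 2 * (Real.sin (2 * Real.pi * x 0) * Real.cos (2 * Real.pi * x 0)) =
        Real.sin (2 * (2 * Real.pi * x 0)) := by
      rw [Real.sin_two_mul]
      ring
    rw [this]
    exact Real.abs_sin_le_one _
  rw [G7_dqz]
  have e1 : |8 * (4 * uu x - 1) * (Real.cos (2 * Real.pi * x 1) * (2 * Real.pi * v 1))| ≤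
      8 * (√(mn δ x v) / δ) := by
    rw [abs_mul, abs_mul, abs_of_pos (by norm_num : (0 : ℝ) < 8)]
    have h3 := abs_nonneg (Real.cos (2 * Real.pi * x 1) * (2 * Real.pi * v 1))
    have h4 : |4 * uu x - 1| * |Real.cos (2 * Real.pi * x 1) * (2 * Real.pi * v 1)| ≤
        1 * (√(mn δ x v) / δ) := mul_le_mul hu h1 h3 zero_le_one
    nlinarith
  have e2 : |2 * (Real.sin (2 * Real.pi * x 0) * Real.cos (2 * Real.pi * x 0)) * (2 * Real.pi * v 0)| ≤
      8 / 7 * √(mn δ x v) := by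
    rw [abs_mul]
    have h3 := abs_nonneg (2 * Real.pi * v 0)
    have h4 := mul_le_mul hsc h0 h3 zero_le_one
    rwa [one_mul] at h4
  have e3 : 8 / 7 * √(mn δ x v) ≤ √(mn δ x v) / δ := by
    rw [le_div_iff₀ hδ]
    nlinarith
  have e4 := abs_add_le (8 * (4 * uu x - 1) * (Real.cos (2 * Real.pi * x 1) * (2 * Real.pi * v 1)))
    (2 * (Real.sin (2 * Real.pi * x 0) * Real.cos (2 * Real.pi * x 0)) * (2 * Real.pi * v 0))
  have e5 : 9 / δ * √(mn δ x v) = 8 * (√(mn δ x v) / δ) + √(mn δ x v) / δ := by ring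
  rw [e5]
  linarith

theorem G7_uu_le (x : Vec 3) : |uu x| ≤ 1 := Real.abs_sin_le_one _

theorem G7_duu2_le {δ : ℝ} (hδ : 0 < δ) (x v : Vec 3) :
    |2 * uu x * fderiv ℝ uu x v| ≤ 2 / δ * √(mn δ x v) := by
  have h1 := G7_v1 hδ x v
  rw [G7_duu, abs_mul, abs_mul, abs_of_pos (by norm_num : (0 : ℝ) < 2)]
  have h3 := abs_nonneg (Real.cos (2 * Real.pi * x 1) * (2 * Real.pi * v 1))
  have h4 := mul_le_mul (G7_uu_le x) h1 h3 zero_le_one
  have h5 : 2 / δ * √(mn δ x v) = 2 * (1 * (√(mn δ x v) / δ)) := by ring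
  rw [h5]
  linarith

/-! ### the barrier -/

theorem G7_bar_smooth (b : ℝ) : ContDiff ℝ ∞ (bar b) := by
  unfold bar
  exact contDiff_const.mul ((Real.smoothTransition.contDiff.comp
    (contDiff_const.sub (contDiff_const.mul qz_smooth))).add (Real.smoothTransition.contDiff.comp
    ((contDiff_const.mul (G2_suu.pow 2)).sub contDiff_const)))

theorem G7_bar_fd (b : ℝ) (x v : Vec 3) : fderiv ℝ (bar b) x v =
    b * (deriv Real.smoothTransition (2 - 4 * qz x) * (-4 * fderiv ℝ qz x v) +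
      deriv Real.smoothTransition (4 * uu x ^ 2 - 2) * (4 * (2 * uu x * fderiv ℝ uu x v))) := by
  have hst : ∀ t, HasDerivAt Real.smoothTransition (deriv Real.smoothTransition t) t := fun t =>
    ((Real.smoothTransition.contDiff (n := 1)).differentiable (by simp) _).hasDerivAt
  have g1 := G2_line qz_smooth x v
  have g2 := G2_line G2_suu x v
  have g3 : HasDerivAt (fun t : ℝ => 2 - 4 * qz (x + t • v)) (-4 * fderiv ℝ qz x v) 0 := by
    have := (g1.const_mul 4).const_sub 2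
    exact this.congr_deriv (by ring)
  have g4 : HasDerivAt (fun t : ℝ => 4 * uu (x + t • v) ^ 2 - 2) (4 * (2 * uu x * fderiv ℝ uu x v)) 0 := by
    have := ((g2.pow 2).const_mul 4).sub_const 2
    refine this.congr_deriv ?_
    simp only [zero_smul, add_zero]
    push_cast
    ring
  have h1 : HasDerivAt Real.smoothTransition (deriv Real.smoothTransition (2 - 4 * qz x))
      (2 - 4 * qz (x + (0 : ℝ) • v)) := by
    simp only [zero_smul, add_zero]
    exact hst _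
  have h2 : HasDerivAt Real.smoothTransition (deriv Real.smoothTransition (4 * uu x ^ 2 - 2))
      (4 * uu (x + (0 : ℝ) • v) ^ 2 - 2) := by
    simp only [zero_smul, add_zero]
    exact hst _
  have h3 := ((h1.comp (0 : ℝ) g3).add (h2.comp (0 : ℝ) g4)).const_mul b
  exact (G2_line (G7_bar_smooth b) x v).unique h3

theorem G7_bar_le {δ ε C0 : ℝ} (hδ : 0 < δ) (h8 : δ ≤ 1 / 8) (hε : 0 < ε)
    (hC : 1 ≤ C0) (hC0 : ∀ t, |deriv Real.smoothTransition t| ≤ C0)
    (hz : ∀ t, t < 0 ∨ 1 < t → deriv Real.smoothTransition t = 0) (x v : Vec 3) :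
    fderiv ℝ (bar (ε * δ / (72 * C0))) x v ≤ G6_R δ ε x * √(mn δ x v) := by
  have hS := Real.sqrt_nonneg (mn δ x v)
  have hCp : 0 < C0 := by linarith
  have hb : 0 ≤ ε * δ / (72 * C0) := by positivity
  have hs1 := Real.smoothTransition.nonneg (2 - 2 * qz x)
  have hs2 := Real.smoothTransition.nonneg (4 * uu x ^ 2 - 1)
  rw [G7_bar_fd]
  by_cases h1 : 2 - 4 * qz x < 0 ∨ 1 < 2 - 4 * qz x
  · rw [hz _ h1, zero_mul, zero_add]
    by_cases h2 : 4 * uu x ^ 2 - 2 < 0 ∨ 1 < 4 * uu x ^ 2 - 2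
    · rw [hz _ h2, zero_mul, mul_zero]
      exact mul_nonneg (G6_R_nonneg hε x) hS
    · push Not at h2
      have hR : ε / 2 ≤ G6_R δ ε x := by
        unfold G6_R
        rw [Real.smoothTransition.one_of_one_le (x := 4 * uu x ^ 2 - 1) (by linarith [h2.1])]
        have : 0 ≤ (rr δ x - 1) ^ 2 := sq_nonneg _
        nlinarith [mul_nonneg hε.le hs1]
      have h3 : deriv Real.smoothTransition (4 * uu x ^ 2 - 2) * (4 * (2 * uu x * fderiv ℝ uu x v)) ≤
          C0 * (4 * (2 / δ * √(mn δ x v))) := by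
        refine (le_abs_self _).trans ?_
        rw [abs_mul, abs_mul, abs_of_pos (by norm_num : (0 : ℝ) < 4)]
        exact mul_le_mul (hC0 _) (mul_le_mul_of_nonneg_left (G7_duu2_le hδ x v) (by norm_num))
          (by positivity) (by linarith)
      refine (mul_le_mul_of_nonneg_left h3 hb).trans ?_
      have e1 : ε * δ / (72 * C0) * (C0 * (4 * (2 / δ * √(mn δ x v)))) = ε / 9 * √(mn δ x v) := by
        field_simp
        ring
      rw [e1]
      exact mul_le_mul_of_nonneg_right (by linarith) hS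
  · push Not at h1
    have hq : qz x ≤ 1 / 2 := by linarith [h1.1]
    have hR : ε / 2 ≤ G6_R δ ε x := by
      unfold G6_R
      rw [Real.smoothTransition.one_of_one_le (x := 2 - 2 * qz x) (by linarith)]
      have : 0 ≤ (rr δ x - 1) ^ 2 := sq_nonneg _
      nlinarith [mul_nonneg hε.le hs2]
    have h2 : 4 * uu x ^ 2 - 2 < 0 := by
      have h3 : (4 * uu x - 1) ^ 2 ≤ 1 / 2 := by
        unfold qz at hq
        nlinarith [sq_nonneg (Real.sin (2 * Real.pi * x 0))]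
      nlinarith [sq_nonneg (4 * uu x - 2)]
    rw [hz _ (Or.inl h2), zero_mul, add_zero]
    have h3 : deriv Real.smoothTransition (2 - 4 * qz x) * (-4 * fderiv ℝ qz x v) ≤
        C0 * (4 * (9 / δ * √(mn δ x v))) := by
      refine (le_abs_self _).trans ?_
      rw [abs_mul, abs_mul, abs_neg, abs_of_pos (by norm_num : (0 : ℝ) < 4)]
      exact mul_le_mul (hC0 _) (mul_le_mul_of_nonneg_left (G7_dqz_le hδ h8 hq v) (by norm_num))
        (by positivity) (by linarith)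
    refine (mul_le_mul_of_nonneg_left h3 hb).trans ?_
    have e1 : ε * δ / (72 * C0) * (C0 * (4 * (9 / δ * √(mn δ x v)))) = ε / 2 * √(mn δ x v) := by
      field_simp
      ring
    rw [e1]
    exact mul_le_mul_of_nonneg_right hR hS

theorem G7_exit {M' : Sub 3} (hM : M'.N = {x | Fe x = 0}) {x : Vec 3} (hx : x ∈ SK)
    (hc : x ∈ closure (M'.N \ SK)) : qz x ≤ 1 / 4 ∨ 3 / 4 ≤ uu x ^ 2 := by
  by_contra hlt
  push Not at hlt
  obtain ⟨hq, hu⟩ := hlt
  have hSO := (SK_sub hM hx).2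
  have h1 : ∀ᶠ y in 𝓝 x, 1 / 4 < qz y :=
    (qz_smooth.continuous.tendsto x).eventually (lt_mem_nhds hq)
  have h2 : ∀ᶠ y in 𝓝 x, uu y ^ 2 < 3 / 4 :=
    ((G2_suu.continuous.pow 2).tendsto x).eventually (gt_mem_nhds hu)
  have h3 : ∀ᶠ y : Vec 3 in 𝓝 x, 0 < Real.cos (2 * Real.pi * y 1) :=
    ((G2_scos 1).continuous.tendsto x).eventually (lt_mem_nhds hSO.2.2.1)
  have h4 : ∀ᶠ y in 𝓝 x, 0 < Ce y :=
    (Ce_smooth.continuous.tendsto x).eventually (lt_mem_nhds hSO.2.2.2)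
  obtain ⟨y, hy1, hy2⟩ := mem_closure_iff_nhds.1 hc _ (h1.and (h2.and (h3.and h4)))
  obtain ⟨k1, k2, k3, k4⟩ := hy1
  refine hy2.2 ⟨?_, k1.le, k2.le, k3.le, k4.le⟩
  have := hy2.1
  rw [hM] at this
  exact this

/-! ### the metric -/

theorem G7_tw {δ : ℝ} (hδ : 0 < δ) (h8 : δ ≤ 1 / 8) (ε : ℝ) (x : Vec 3) :
    tw δ ε (em δ x) = (1 - ε) / rr δ x + (rr δ x - 1) ^ 2 +
      ε / 2 * (Real.smoothTransition (2 - 2 * qz x) + Real.smoothTransition (4 * uu x ^ 2 - 1)) := by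
  unfold tw
  rw [tr_em hδ h8, tz_em hδ h8, tu_em hδ h8]

theorem G7_FM_cont {δ ε s : ℝ} (hδ : 0 < δ) (h8 : δ ≤ 1 / 8) :
    Continuous (fun p : Vec 3 × Vec 3 => FM δ ε s p.1 p.2) := by
  have hrr : Continuous (rr δ) := (G2_srr δ).continuous
  have hr0 : ∀ x : Vec 3, rr δ x ≠ 0 := fun x => by
    have := (rr_bd hδ h8 x).1
    linarith
  have hmn : Continuous (fun p : Vec 3 × Vec 3 => mn δ p.1 p.2) := by
    unfold mn
    have h2 : Continuous (fun p : Vec 3 × Vec 3 => rr δ p.1) := hrr.comp continuous_fst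
    fun_prop
  have hst : Continuous Real.smoothTransition := Real.smoothTransition.continuous
  have hq : Continuous qz := qz_smooth.continuous
  have hu : Continuous uu := G2_suu.continuous
  have htw : Continuous (fun x : Vec 3 => tw δ ε (em δ x)) := by
    have : (fun x : Vec 3 => tw δ ε (em δ x)) = fun x => (1 - ε) / rr δ x + (rr δ x - 1) ^ 2 +
        ε / 2 * (Real.smoothTransition (2 - 2 * qz x) + Real.smoothTransition (4 * uu x ^ 2 - 1)) := by
      funext x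
      exact G7_tw hδ h8 ε x
    rw [this]
    exact ((continuous_const.div hrr hr0).add ((hrr.sub continuous_const).pow 2)).add
      (continuous_const.mul ((hst.comp (continuous_const.sub (continuous_const.mul hq))).add
        (hst.comp ((continuous_const.mul (hu.pow 2)).sub continuous_const))))
  unfold FM
  exact (continuous_const.mul (htw.comp continuous_fst)).mul (Real.continuous_sqrt.comp hmn)

theorem G7_ex_low {δ ε s C0 : ℝ} (hδ : 0 < δ) (h8 : δ ≤ 1 / 8) (hε : 0 < ε) (hε4 : ε ≤ 1 / 4) (hs : 0 < s)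
    (hC : 1 ≤ C0) (hC0 : ∀ t, |deriv Real.smoothTransition t| ≤ C0)
    (hz : ∀ t, t < 0 ∨ 1 < t → deriv Real.smoothTransition t = 0) {γ : ℝ → Vec 3}
    (hγ : ∃ C, LipschitzWith C γ) (h0 : bar (ε * δ / (72 * C0)) (γ 0) = 0)
    (h1 : ε * δ / (72 * C0) ≤ bar (ε * δ / (72 * C0)) (γ 1)) :
    s * (ε * δ / (72 * C0)) ≤ (∫ x in (0:ℝ)..1, FM δ ε s (γ x) (deriv γ x)) -
      (ll ε s * (γ 1) 0 - ll ε s * (γ 0) 0) := by
  set b := ε * δ / (72 * C0) with hb
  have hco : ContDiff ℝ 1 (fun X : Vec 3 => X 0) :=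
    (EuclideanSpace.proj (0 : Fin 3) : Vec 3 →L[ℝ] ℝ).contDiff
  have hf : ContDiff ℝ 1 (fun X : Vec 3 => s * bar b X + ll ε s * X 0) :=
    (contDiff_const.mul ((G7_bar_smooth b).of_le (by exact_mod_cast le_top))).add
      (contDiff_const.mul hco)
  have hfd : ∀ X v : Vec 3, fderiv ℝ (fun X : Vec 3 => s * bar b X + ll ε s * X 0) X v =
      s * fderiv ℝ (bar b) X v + ll ε s * v 0 := by
    intro X v
    have g1 : HasFDerivAt (bar b) (fderiv ℝ (bar b) X) X :=
      (((G7_bar_smooth b).differentiable (by simp)) X).hasFDerivAt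
    have g2 : HasFDerivAt (fun X : Vec 3 => X 0)
        (EuclideanSpace.proj (0 : Fin 3) : Vec 3 →L[ℝ] ℝ) X :=
      (EuclideanSpace.proj (0 : Fin 3) : Vec 3 →L[ℝ] ℝ).hasFDerivAt
    have g3 := (g1.const_mul s).add (g2.const_mul (ll ε s))
    have g4 : fderiv ℝ (fun X : Vec 3 => s * bar b X + ll ε s * X 0) X =
        s • fderiv ℝ (bar b) X + ll ε s • (EuclideanSpace.proj (0 : Fin 3) : Vec 3 →L[ℝ] ℝ) :=
      g3.fderiv
    rw [g4]
    rfl
  obtain ⟨i1, i2⟩ := ftc_lip hf hγ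
  have i3 := int_lip (G7_FM_cont (ε := ε) (s := s) hδ h8) hγ
  have i4 : (∫ x in (0:ℝ)..1, fderiv ℝ (fun X : Vec 3 => s * bar b X + ll ε s * X 0) (γ x)
      (deriv γ x)) ≤ ∫ x in (0:ℝ)..1, FM δ ε s (γ x) (deriv γ x) := by
    refine intervalIntegral.integral_mono_on zero_le_one i1 i3 fun x hx => ?_
    rw [hfd]
    have j1 := G7_bar_le hδ h8 hε hC hC0 hz (γ x) (deriv γ x)
    have j2 := G6_le (ε := ε) hδ h8 hε4 hs (γ x) (deriv γ x)
    have j3 := mul_le_mul_of_nonneg_left j1 hs.le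
    rw [← mul_assoc] at j3
    linarith
  rw [i2] at i4
  simp only [h0] at i4
  have h2 := mul_le_mul_of_nonneg_left h1 hs.le
  linarith

/-! ### the second direction -/

/-- the sine of `2π` times the second coordinate of `dd` -/
def G7_y (t : ℝ) : ℝ := (1 + Real.cos (2 * Real.pi * (t - 1 / 2))) / 4

theorem G7_y_bd (t : ℝ) : 0 ≤ G7_y t ∧ G7_y t ≤ 1 / 2 := by
  unfold G7_y
  have h1 := Real.neg_one_le_cos (2 * Real.pi * (t - 1 / 2))
  have h2 := Real.cos_le_one (2 * Real.pi * (t - 1 / 2))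
  constructor <;> linarith

/-- the derivative of `dd` -/
def G7_v (t : ℝ) : Vec 3 := WithLp.toLp 2 ![1,
  -(Real.sin (2 * Real.pi * (t - 1 / 2)) / (4 * √(1 - G7_y t ^ 2))), 1]

theorem G7_dd0 (t : ℝ) : dd t 0 = t - 1 / 2 := by
  simp [dd]

theorem G7_dd1 (t : ℝ) : dd t 1 = Real.arcsin (G7_y t) / (2 * Real.pi) := by
  simp [dd, G7_y]

theorem G7_dd2 (t : ℝ) : dd t 2 = t + 1 / 2 := by
  simp [dd]

theorem G7_sqrt_pos (t : ℝ) : 3 / 4 ≤ √(1 - G7_y t ^ 2) := by
  obtain ⟨h1, h2⟩ := G7_y_bd t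
  apply Real.le_sqrt_of_sq_le
  nlinarith

theorem G7_has (t : ℝ) : HasDerivAt dd (G7_v t) t := by
  have hpi := Real.pi_pos
  have hc : HasDerivAt (fun t : ℝ => Real.cos (2 * Real.pi * (t - 1 / 2)))
      (-Real.sin (2 * Real.pi * (t - 1 / 2)) * (2 * Real.pi)) t := by
    have h1 : HasDerivAt (fun t : ℝ => 2 * Real.pi * (t - 1 / 2)) (2 * Real.pi) t :=
      (((hasDerivAt_id t).sub_const (1 / 2)).const_mul (2 * Real.pi)).congr_deriv (mul_one _)
    exact h1.cos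
  have hy : HasDerivAt G7_y (-Real.sin (2 * Real.pi * (t - 1 / 2)) * (2 * Real.pi) / 4) t :=
    (hc.const_add 1).div_const 4
  obtain ⟨hy0, hy1⟩ := G7_y_bd t
  have hs := G7_sqrt_pos t
  have ha : HasDerivAt (fun t : ℝ => Real.arcsin (G7_y t) / (2 * Real.pi))
      (-(Real.sin (2 * Real.pi * (t - 1 / 2)) / (4 * √(1 - G7_y t ^ 2)))) t := by
    have h1 := Real.hasDerivAt_arcsin (x := G7_y t) (by linarith) (by linarith)
    have h2 := (h1.comp t hy).div_const (2 * Real.pi)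
    refine h2.congr_deriv ?_
    have : √(1 - G7_y t ^ 2) ≠ 0 := by linarith
    field_simp
  have h : HasDerivAt (fun t (i : Fin 3) => dd t i) ![1,
      -(Real.sin (2 * Real.pi * (t - 1 / 2)) / (4 * √(1 - G7_y t ^ 2))), 1] t := by
    rw [hasDerivAt_pi]
    intro i
    fin_cases i
    · have : (fun t => dd t 0) = fun t => t - 1 / 2 := funext G7_dd0
      show HasDerivAt (fun t => dd t 0) 1 t
      rw [this]
      exact (hasDerivAt_id t).sub_const _
    · have : (fun t => dd t 1) = fun t => Real.arcsin (G7_y t) / (2 * Real.pi) := funext G7_dd1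
      show HasDerivAt (fun t => dd t 1) _ t
      rw [this]
      exact ha
    · have : (fun t => dd t 2) = fun t => t + 1 / 2 := funext G7_dd2
      show HasDerivAt (fun t => dd t 2) 1 t
      rw [this]
      exact (hasDerivAt_id t).add_const _
  exact ((PiLp.continuousLinearEquiv 2 ℝ (fun _ : Fin 3 => ℝ)).symm.toContinuousLinearMap.hasFDerivAt).comp_hasDerivAt t h

theorem G7_lip : ∃ C, LipschitzWith C dd := by
  refine ⟨2, lipschitzWith_of_nnnorm_deriv_le (fun t => (G7_has t).differentiableAt) fun t => ?_⟩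
  rw [(G7_has t).deriv]
  have hs := G7_sqrt_pos t
  have h1 : ‖G7_v t‖ ≤ 2 := by
    rw [EuclideanSpace.norm_eq, Real.sqrt_le_left (by norm_num)]
    simp only [G7_v, Fin.sum_univ_three]
    simp only [Real.norm_eq_abs, sq_abs]
    show (1 : ℝ) ^ 2 + (-(Real.sin (2 * Real.pi * (t - 1 / 2)) / (4 * √(1 - G7_y t ^ 2)))) ^ 2 + 1 ^ 2 ≤ 2 ^ 2
    have h2 : |Real.sin (2 * Real.pi * (t - 1 / 2)) / (4 * √(1 - G7_y t ^ 2))| ≤ 1 := by
      rw [abs_div, abs_of_pos (show 0 < 4 * √(1 - G7_y t ^ 2) by linarith), div_le_one (by linarith)]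
      have := Real.abs_sin_le_one (2 * Real.pi * (t - 1 / 2))
      linarith
    have h3 := (sq_le_one_iff_abs_le_one _).2 h2
    rw [neg_sq]
    linarith
  exact h1

theorem G7_uu (t : ℝ) : uu (dd t) = G7_y t := by
  have hpi := Real.pi_pos
  obtain ⟨hy0, hy1⟩ := G7_y_bd t
  unfold uu
  rw [G7_dd1, mul_div_cancel₀ _ (by positivity), Real.sin_arcsin (by linarith) (by linarith)]

theorem G7_cos1 (t : ℝ) : Real.cos (2 * Real.pi * dd t 1) = √(1 - G7_y t ^ 2) := by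
  have hpi := Real.pi_pos
  rw [G7_dd1, mul_div_cancel₀ _ (by positivity), Real.cos_arcsin]

theorem G7_4uu (t : ℝ) : 4 * uu (dd t) - 1 = Real.cos (2 * Real.pi * dd t 0) := by
  rw [G7_uu, G7_dd0]
  unfold G7_y
  ring

theorem G7_x2 (t : ℝ) : Real.cos (2 * Real.pi * dd t 2) = Real.cos (2 * Real.pi * dd t 0) ∧
    Real.sin (2 * Real.pi * dd t 2) = Real.sin (2 * Real.pi * dd t 0) := by
  have h : 2 * Real.pi * dd t 2 = 2 * Real.pi * dd t 0 + 2 * Real.pi := by
    rw [G7_dd2, G7_dd0]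
    ring
  rw [h, Real.cos_add_two_pi, Real.sin_add_two_pi]
  exact ⟨rfl, rfl⟩

theorem G7_qz (t : ℝ) : qz (dd t) = 1 := by
  unfold qz
  rw [G7_4uu]
  exact Real.cos_sq_add_sin_sq _

theorem G7_SK (t : ℝ) : dd t ∈ SK := by
  obtain ⟨h1, h2⟩ := G7_x2 t
  obtain ⟨hy0, hy1⟩ := G7_y_bd t
  refine ⟨?_, ?_, ?_, ?_, ?_⟩
  · show Fe (dd t) = 0
    unfold Fe
    rw [h1, h2, G7_4uu]
    ring
  · rw [G7_qz]
    norm_num
  · rw [G7_uu]
    nlinarith
  · rw [G7_cos1]
    exact Real.sqrt_nonneg _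
  · unfold Ce
    rw [h1, h2, G7_4uu]
    nlinarith [sq_nonneg (Real.cos (2 * Real.pi * dd t 0)), sq_nonneg (Real.sin (2 * Real.pi * dd t 0))]

theorem G7_mn (δ t : ℝ) : mn δ (dd t) (G7_v t) =
    (2 * Real.pi * rr δ (dd t)) ^ 2 + (Real.pi * δ / 2 * Real.sin (2 * Real.pi * (t - 1 / 2))) ^ 2 := by
  have hs := G7_sqrt_pos t
  have h0 : G7_v t 0 = 1 := rfl
  have h1 : G7_v t 1 = -(Real.sin (2 * Real.pi * (t - 1 / 2)) / (4 * √(1 - G7_y t ^ 2))) := rfl
  unfold mn
  rw [h0, h1, G7_cos1]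
  have : √(1 - G7_y t ^ 2) ≠ 0 := by linarith
  field_simp
  ring

theorem G7_second {δ ε s : ℝ} (hδ : 0 < δ) (h8 : δ ≤ 1 / 8) (hε : 0 < ε) (hε4 : ε ≤ 1 / 4) (hs : 0 < s)
    (t : ℝ) : FM δ ε s (dd t) (G7_v t) ≤ ll ε s + 3 * s * δ ^ 2 := by
  have hpi := Real.pi_pos
  have hpi2 : Real.pi < 3.15 := Real.pi_lt_d2
  obtain ⟨hy0, hy1⟩ := G7_y_bd t
  have hrr : rr δ (dd t) = 1 + δ * G7_y t := by
    unfold rr
    rw [G7_uu]
  set R := rr δ (dd t) with hR
  have hR1 : 1 ≤ R := by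
    rw [hrr]
    nlinarith
  have hR2 : R ≤ 17 / 16 := by
    rw [hrr]
    nlinarith
  have hRq : (R - 1) ^ 2 ≤ δ ^ 2 / 4 := by
    rw [hrr]
    have : (1 + δ * G7_y t - 1) ^ 2 = δ ^ 2 * G7_y t ^ 2 := by ring
    rw [this]
    nlinarith [sq_nonneg δ, mul_nonneg (sq_nonneg δ) (show 0 ≤ 1 / 4 - G7_y t ^ 2 by nlinarith)]
  have hmn : √(mn δ (dd t) (G7_v t)) ≤ 2 * Real.pi * R + Real.pi * δ ^ 2 / 16 := by
    rw [Real.sqrt_le_left (by positivity), G7_mn]
    have hsin : Real.sin (2 * Real.pi * (t - 1 / 2)) ^ 2 ≤ 1 := Real.sin_sq_le_one _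
    have e1 : (Real.pi * δ / 2 * Real.sin (2 * Real.pi * (t - 1 / 2))) ^ 2 =
        Real.pi ^ 2 * δ ^ 2 / 4 * Real.sin (2 * Real.pi * (t - 1 / 2)) ^ 2 := by ring
    have e2 : (2 * Real.pi * R + Real.pi * δ ^ 2 / 16) ^ 2 = (2 * Real.pi * R) ^ 2 +
        Real.pi ^ 2 * δ ^ 2 / 4 * R + (Real.pi * δ ^ 2 / 16) ^ 2 := by ring
    rw [e1, e2]
    have h1 : Real.pi ^ 2 * δ ^ 2 / 4 * Real.sin (2 * Real.pi * (t - 1 / 2)) ^ 2 ≤
        Real.pi ^ 2 * δ ^ 2 / 4 * R :=
      mul_le_mul_of_nonneg_left (hsin.trans hR1) (by positivity)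
    nlinarith [sq_nonneg (Real.pi * δ ^ 2 / 16)]
  have hst1 : Real.smoothTransition (2 - 2 * qz (dd t)) = 0 := by
    rw [G7_qz]
    exact Real.smoothTransition.zero_of_nonpos (by norm_num)
  have hst2 : Real.smoothTransition (4 * uu (dd t) ^ 2 - 1) = 0 := by
    rw [G7_uu]
    exact Real.smoothTransition.zero_of_nonpos (by nlinarith)
  unfold FM
  rw [G7_tw hδ h8, hst1, hst2, ← hR, add_zero, mul_zero, add_zero]
  have hA : 0 ≤ (1 - ε) := by linarith
  have h3 : 0 ≤ (1 - ε) / R + (R - 1) ^ 2 := by positivity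
  have h4 : ((1 - ε) / R + (R - 1) ^ 2) * √(mn δ (dd t) (G7_v t)) ≤
      ((1 - ε) / R + (R - 1) ^ 2) * (2 * Real.pi * R + Real.pi * δ ^ 2 / 16) :=
    mul_le_mul_of_nonneg_left hmn h3
  have h5 : ((1 - ε) / R + (R - 1) ^ 2) * (2 * Real.pi * R + Real.pi * δ ^ 2 / 16) =
      2 * Real.pi * (1 - ε) + (1 - ε) / R * (Real.pi * δ ^ 2 / 16) +
        (R - 1) ^ 2 * (2 * Real.pi * R + Real.pi * δ ^ 2 / 16) := by
    field_simp
  have h6 : (1 - ε) / R ≤ 1 := by
    rw [div_le_one (by linarith)]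
    linarith
  have hd2 : 0 ≤ δ ^ 2 := sq_nonneg δ
  have hd3 : δ ^ 2 ≤ 1 / 64 := by nlinarith
  have h7 : (1 - ε) / R * (Real.pi * δ ^ 2 / 16) ≤ 1 * (Real.pi * δ ^ 2 / 16) :=
    mul_le_mul_of_nonneg_right h6 (by positivity)
  have h8' : 2 * Real.pi * R + Real.pi * δ ^ 2 / 16 ≤ 7 := by nlinarith
  have h9 : (R - 1) ^ 2 * (2 * Real.pi * R + Real.pi * δ ^ 2 / 16) ≤ δ ^ 2 / 4 * 7 :=
    mul_le_mul hRq h8' (by positivity) (by positivity)
  have h10 : Real.pi * δ ^ 2 / 16 ≤ δ ^ 2 := by nlinarith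
  have h11 : ((1 - ε) / R + (R - 1) ^ 2) * √(mn δ (dd t) (G7_v t)) ≤ 2 * Real.pi * (1 - ε) + 3 * δ ^ 2 := by
    linarith
  have h12 := mul_le_mul_of_nonneg_left h11 hs.le
  unfold ll
  linarith

theorem room {ε : ℝ} (hε : 0 < ε) (hε4 : ε ≤ 1 / 4) : ∃ δ0 : ℝ, 0 < δ0 ∧ ∀ δ, 0 < δ → δ ≤ δ0 →
    ∀ s, 0 < s → ∃ a : ℝ, ∀ (M' : Sub 3), M'.N = {x | Fe x = 0} → ∀ F : Vec 3 → Vec 3 → ℝ → ℝ,
      (∀ x ∈ SO, ∀ v t, F x v t = FM δ ε s x v) → IsRoom M' SO SK F (BB ε s) 0 (cc ε s) a := by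
  obtain ⟨C, -, hC1, hz⟩ := st_deriv
  obtain ⟨C0, hC, hC0⟩ : ∃ C0 : ℝ, 1 ≤ C0 ∧ ∀ t, |deriv Real.smoothTransition t| ≤ C0 :=
    ⟨max 1 C, le_max_left _ _, fun t => (hC1 t).trans (le_max_right _ _)⟩
  have hCp : 0 < C0 := by linarith
  refine ⟨min (1 / 8) (ε / (300 * C0)), by positivity, fun δ hδ hδ0 s hs =>
    ⟨s * (ε * δ / (72 * C0)), fun M' hM F hF => ?_⟩⟩
  have h8 : δ ≤ 1 / 8 := hδ0.trans (min_le_left _ _)
  have hd : δ ≤ ε / (300 * C0) := hδ0.trans (min_le_right _ _)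
  have hb : 0 < ε * δ / (72 * C0) := by positivity
  have hint : ∀ {γ : ℝ → Vec 3} {t : ℝ}, (∀ x ∈ Icc (0:ℝ) 1, γ x ∈ SK) →
      ∫ x in (0:ℝ)..1, F (γ x) (deriv γ x) t = ∫ x in (0:ℝ)..1, FM δ ε s (γ x) (deriv γ x) := by
    intro γ t hK
    refine intervalIntegral.integral_congr fun x hx => ?_
    rw [uIcc_of_le zero_le_one] at hx
    exact hF _ (SK_sub hM (hK x hx)).2 _ _
  refine ⟨SK_closed, SK_sub hM, fun k x hx => SK_per k hx, fun σ t => (cc_mem ε s σ t).1, ?_, ?_⟩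
  · intro t σ γ hγ hγ0 hK hcl
    unfold excess
    rw [hint hK]
    have hq0 : bar (ε * δ / (72 * C0)) (γ 0) = 0 := by
      obtain ⟨-, k1, k2⟩ := cc_mem ε s σ t
      rw [hγ0]
      unfold bar
      rw [Real.smoothTransition.zero_of_nonpos (by linarith), k2,
        Real.smoothTransition.zero_of_nonpos (by norm_num)]
      ring
    have hq1 : ε * δ / (72 * C0) ≤ bar (ε * δ / (72 * C0)) (γ 1) := by
      have hn1 := Real.smoothTransition.nonneg (2 - 4 * qz (γ 1))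
      have hn2 := Real.smoothTransition.nonneg (4 * uu (γ 1) ^ 2 - 2)
      have hge : 1 ≤ Real.smoothTransition (2 - 4 * qz (γ 1)) + Real.smoothTransition (4 * uu (γ 1) ^ 2 - 2) := by
        rcases G7_exit hM (hK 1 (right_mem_Icc.2 zero_le_one)) hcl with h | h
        · rw [Real.smoothTransition.one_of_one_le (x := 2 - 4 * qz (γ 1)) (by linarith)]
          linarith
        · rw [Real.smoothTransition.one_of_one_le (x := 4 * uu (γ 1) ^ 2 - 2) (by linarith)]
          linarith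
      unfold bar
      nlinarith
    exact G7_ex_low hδ h8 hε hε4 hs hC hC0 hz hγ hq0 hq1
  · have h00 : dd 0 = cc ε s 0 0 := by
      ext i
      fin_cases i
      · show dd 0 0 = cc ε s 0 0 0
        rw [G7_dd0, G6_cc0]
        simp
      · show dd 0 1 = cc ε s 0 0 1
        rw [G7_dd1, G6_cc1]
        have : G7_y 0 = 0 := by
          unfold G7_y
          have e : 2 * Real.pi * (0 - 1 / 2) = -Real.pi := by ring
          rw [e, Real.cos_neg, Real.cos_pi]
          norm_num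
        rw [this, Real.arcsin_zero, zero_div]
      · show dd 0 2 = cc ε s 0 0 2
        rw [G7_dd2, G6_cc2, G6_cc0]
        have e : 2 * Real.pi * (0 / ll ε s - 1 / 2) = -Real.pi := by ring
        rw [e, Real.sin_neg, Real.sin_pi]
        simp
    refine ⟨0, ![1, 0, 1], dd, fun k hk => ?_, G7_lip, h00, ?_, fun x _ => G7_SK x, ?_⟩
    · have := congrFun hk 2
      simp at this
    · rw [← h00]
      ext i
      fin_cases i
      · show dd 1 0 = dd 0 0 + ((1 : ℤ) : ℝ)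
        rw [G7_dd0, G7_dd0]
        push_cast
        ring
      · show dd 1 1 = dd 0 1 + ((0 : ℤ) : ℝ)
        rw [G7_dd1, G7_dd1]
        have : G7_y 1 = G7_y 0 := by
          unfold G7_y
          have e1 : 2 * Real.pi * (1 - 1 / 2) = Real.pi := by ring
          have e : 2 * Real.pi * (0 - 1 / 2) = -Real.pi := by ring
          rw [e, e1, Real.cos_neg]
        rw [this]
        simp
      · show dd 1 2 = dd 0 2 + ((1 : ℤ) : ℝ)
        rw [G7_dd2, G7_dd2]
        push_cast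
        ring
    · unfold excess
      rw [hint fun x _ => G7_SK x]
      have j1 : (∫ x in (0:ℝ)..1, FM δ ε s (dd x) (deriv dd x)) ≤
          ∫ _x in (0:ℝ)..1, (ll ε s + 3 * s * δ ^ 2) := by
        refine intervalIntegral.integral_mono_on zero_le_one
          (int_lip (G7_FM_cont (ε := ε) (s := s) hδ h8) G7_lip) intervalIntegrable_const
          fun x _ => ?_
        rw [(G7_has x).deriv]
        exact G7_second hδ h8 hε hε4 hs x
      rw [intervalIntegral.integral_const, sub_zero, one_smul] at j1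
      have j2 : BB ε s (dd 1) 0 - BB ε s (dd 0) 0 = ll ε s := by
        unfold BB
        rw [G7_dd0, G7_dd0]
        ring
      rw [j2]
      have j4 : 3 * s * δ ^ 2 < s * (ε * δ / (72 * C0)) := by
        have k1 : 300 * C0 * δ ≤ ε := by
          rw [le_div_iff₀ (by positivity)] at hd
          linarith
        have k2 : 3 * δ < ε / (72 * C0) := by
          rw [lt_div_iff₀ (by positivity)]
          nlinarith [mul_pos hCp hδ]
        have k3 := mul_lt_mul_of_pos_left k2 (mul_pos hs hδ)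
        have e1 : s * δ * (3 * δ) = 3 * s * δ ^ 2 := by ring
        have e2 : s * δ * (ε / (72 * C0)) = s * (ε * δ / (72 * C0)) := by ring
        rw [e1, e2] at k3
        exact k3
      linarith

end EscW.Gn
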