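import Pool.Agent.EscW.O20
import Pool.Agent.EscW.G7

set_option autoImplicit false

/-!
Project EscW, part O, module O21: part G: room.
Same constants, barrier and second curve as in module G7 (read `Pool/Agent/EscW/G7.lean`, store EscW_G7.lean; lemmas `G7_bar_le`, `G7_exit`, `G7_second` or similar): `a = s b`, `bar x = s * Gn.bar b x`, `θ0 = -1/2`, `nn = (1, 0, 1)`, `γ = Gn.dd`, `Λ (-1/2, 0) = Gn.dd 0 = (-1/2, 0, 1/2)`. `PhmG` converts `FM`. `RoomBase.lip` needs a globally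
Lipschitz `γ`: `dd` is smooth with bounded derivative (`|(1 + cos)/4| ≤ 1/2`). `zero`, `flat`: for `qz ≥ 9/16`, `uu² ≤ 1/256` both steps of `bar` vanish (`2 - 4 qz < 0`, `4 uu² - 2 < 0`), also nearby; in `flat`: `qz x = tz (em x)`, `AG_tube`. Tangent vectors of `M'`: the derivative of `bar` needs only `v`.
-/

noncomputable section

namespace EscW.On

open Filter Topology Set EscF.T EscM EscMT MeasureTheory EscW.Ex EscW.Dn
open scoped ContDiff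

variable {d m k j n : ℕ}

theorem O21_bar_smooth (s b : ℝ) : ContDiff ℝ 1 (fun x : Vec 3 => s * Gn.bar b x) :=
  contDiff_const.mul ((Gn.G7_bar_smooth b).of_le (by exact_mod_cast le_top))

theorem O21_fd (s b : ℝ) (x v : Vec 3) :
    fderiv ℝ (fun x : Vec 3 => s * Gn.bar b x) x v = s * fderiv ℝ (Gn.bar b) x v := by
  have g1 : HasFDerivAt (Gn.bar b) (fderiv ℝ (Gn.bar b) x) x :=
    (((Gn.G7_bar_smooth b).differentiable (by simp)) x).hasFDerivAt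
  rw [(g1.const_mul s).fderiv]
  rfl

theorem O21_norm (w : Vec 1) : ‖w‖ = |w 0| := by
  rw [EuclideanSpace.norm_eq, Fin.sum_univ_one, Real.norm_eq_abs, sq_abs, Real.sqrt_sq_eq_abs]

theorem O21_Tc (δ : ℝ) (x : Vec 3) : ‖(TcG δ x).2‖ = |δ * Gn.uu x| := by
  have h : (TcG δ x).2 0 = Gn.rr δ x - 1 := rfl
  rw [O21_norm, h]
  unfold Gn.rr
  rw [add_sub_cancel_left]

theorem O21_near {δ : ℝ} (hδ : 0 < δ) {x : Vec 3} (hx : ‖(TcG δ x).2‖ < δ / 16) :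
    9 / 16 ≤ Gn.qz x ∧ Gn.uu x ^ 2 ≤ 1 / 256 := by
  rw [O21_Tc, abs_mul, abs_of_pos hδ] at hx
  have h1 : |Gn.uu x| < 1 / 16 := by
    by_contra h
    push Not at h
    nlinarith
  obtain ⟨h2, h3⟩ := abs_lt.1 h1
  refine ⟨?_, by nlinarith⟩
  unfold Gn.qz
  nlinarith [sq_nonneg (Real.sin (2 * Real.pi * x 0))]

theorem O21_bar_zero {b : ℝ} {x : Vec 3} (h1 : 9 / 16 ≤ Gn.qz x) (h2 : Gn.uu x ^ 2 ≤ 1 / 256) :
    Gn.bar b x = 0 := by
  unfold Gn.bar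
  rw [Real.smoothTransition.zero_of_nonpos (by linarith),
    Real.smoothTransition.zero_of_nonpos (by linarith)]
  ring

theorem O21_fd_zero {b : ℝ} (hz : ∀ t, t < 0 ∨ 1 < t → deriv Real.smoothTransition t = 0)
    {x : Vec 3} (h1 : 9 / 16 ≤ Gn.qz x) (h2 : Gn.uu x ^ 2 ≤ 1 / 256) (v : Vec 3) :
    fderiv ℝ (Gn.bar b) x v = 0 := by
  rw [Gn.G7_bar_fd, hz _ (Or.inl (by linarith)), hz _ (Or.inl (by linarith))]
  ring

theorem O21_y0 : Gn.G7_y 0 = 0 := by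
  unfold Gn.G7_y
  have e : 2 * Real.pi * (0 - 1 / 2) = -Real.pi := by ring
  rw [e, Real.cos_neg, Real.cos_pi]
  norm_num

theorem O21_y1 : Gn.G7_y 1 = 0 := by
  unfold Gn.G7_y
  have e : 2 * Real.pi * (1 - 1 / 2) = Real.pi := by ring
  rw [e, Real.cos_pi]
  norm_num

theorem O21_Lam0 (δ : ℝ) : LamG δ (-1 / 2, 0) = Gn.dd 0 := by
  ext i
  fin_cases i
  · show (LamG δ (-1 / 2, 0)) 0 = Gn.dd 0 0
    rw [Gn.G7_dd0]
    simp [LamG]
    norm_num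
  · show (LamG δ (-1 / 2, 0)) 1 = Gn.dd 0 1
    rw [Gn.G7_dd1, O21_y0]
    simp [LamG]
  · show (LamG δ (-1 / 2, 0)) 2 = Gn.dd 0 2
    rw [Gn.G7_dd2]
    have e : 2 * Real.pi * (-1 / 2) = -Real.pi := by ring
    simp [LamG, e]

theorem O21_dd1 : Gn.dd 1 = Gn.dd 0 + vz ![1, 0, 1] := by
  ext i
  fin_cases i
  · show Gn.dd 1 0 = Gn.dd 0 0 + ((1 : ℤ) : ℝ)
    rw [Gn.G7_dd0, Gn.G7_dd0]
    push_cast
    ring
  · show Gn.dd 1 1 = Gn.dd 0 1 + ((0 : ℤ) : ℝ)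
    rw [Gn.G7_dd1, Gn.G7_dd1, O21_y0, O21_y1]
    simp
  · show Gn.dd 1 2 = Gn.dd 0 2 + ((1 : ℤ) : ℝ)
    rw [Gn.G7_dd2, Gn.G7_dd2]
    push_cast
    ring

theorem O21_cost {δ ε s C0 : ℝ} (hδ : 0 < δ) (h8 : δ ≤ 1 / 8) (hε : 0 < ε) (hε4 : ε ≤ 1 / 4) (hs : 0 < s)
    (hCp : 0 < C0) (hd : δ ≤ ε / (300 * C0)) :
    (∫ t in (0:ℝ)..1, Phm 1 s (Gn.tW δ ε) (TcG δ (Gn.dd t))
      (fderiv ℝ (TcG δ) (Gn.dd t) (deriv Gn.dd t))) - Gn.ll ε s * ((![1, 0, 1] : Fin 3 → ℤ) 0 : ℤ) <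
      s * (ε * δ / (72 * C0)) := by
  have hM : ∀ t, Gn.dd t ∈ Gn.SO := fun t => by
    obtain ⟨h0, h1, h2, h3, h4⟩ := Gn.G7_SK t
    refine ⟨?_, ?_, ?_, ?_⟩
    · linarith
    · linarith
    · rw [Gn.G7_cos1]
      linarith [Gn.G7_sqrt_pos t]
    · refine lt_of_le_of_ne h4 fun h => ?_
      have h5 := Gn.Fe_sq (Gn.dd t)
      rw [h0, ← h, Gn.G7_qz] at h5
      norm_num at h5
  have e0 : ∀ t, Phm 1 s (Gn.tW δ ε) (TcG δ (Gn.dd t)) (fderiv ℝ (TcG δ) (Gn.dd t) (deriv Gn.dd t)) =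
      Gn.FM δ ε s (Gn.dd t) (deriv Gn.dd t) := fun t => PhmG hδ h8 ε s (hM t) _
  simp only [e0]
  have j1 : (∫ x in (0:ℝ)..1, Gn.FM δ ε s (Gn.dd x) (deriv Gn.dd x)) ≤
      ∫ _x in (0:ℝ)..1, (Gn.ll ε s + 3 * s * δ ^ 2) := by
    refine intervalIntegral.integral_mono_on zero_le_one
      (int_lip (Gn.G7_FM_cont (ε := ε) (s := s) hδ h8) Gn.G7_lip) intervalIntegrable_const
      fun x _ => ?_
    rw [(Gn.G7_has x).deriv]
    exact Gn.G7_second hδ h8 hε hε4 hs x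
  rw [intervalIntegral.integral_const, sub_zero, one_smul] at j1
  have j4 : 3 * s * δ ^ 2 < s * (ε * δ / (72 * C0)) := by
    have k1 : 300 * C0 * δ ≤ ε := by
      rw [le_div_iff₀ (by positivity)] at hd
      linarith
    have k2 : 3 * δ < ε / (72 * C0) := by
      rw [lt_div_iff₀ (by positivity)]
      nlinarith [mul_pos hCp hδ]
    have k3 := mul_lt_mul_of_pos_left k2 (mul_pos hs hδ)
    have e1 : s * δ * (3 * δ) = 3 * s * δ ^ 2 := by ring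
    have e2 : s * δ * (ε / (72 * C0)) = s * (ε * δ / (72 * C0)) := by ring
    rw [e1, e2] at k3
    exact k3
  have j5 : Gn.ll ε s * ((![1, 0, 1] : Fin 3 → ℤ) 0 : ℤ) = Gn.ll ε s := by
    simp
  rw [j5]
  linarith

theorem roomG {ε : ℝ} (hε : 0 < ε) (hε4 : ε ≤ 1 / 4) : ∃ δ0 : ℝ, 0 < δ0 ∧ ∀ δ, 0 < δ → δ ≤ δ0 →
    ∀ s, 0 < s → ∃ (a : ℝ) (bar : Vec 3 → ℝ) (θ0 : ℝ) (nn : Fin 3 → ℤ) (γ : ℝ → Vec 3),
      ∀ M' : Sub 3, M'.N = {x | Gn.Fe x = 0} →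
        RoomBase M' Gn.SO Gn.SK 0 (δ / 16) (Gn.ll ε s) a (Phm 1 s (Gn.tW δ ε)) (TcG δ) (LamG δ) bar θ0 nn
          γ := by
  obtain ⟨C, -, hC1, hz⟩ := st_deriv
  obtain ⟨C0, hC, hC0⟩ : ∃ C0 : ℝ, 1 ≤ C0 ∧ ∀ t, |deriv Real.smoothTransition t| ≤ C0 :=
    ⟨max 1 C, le_max_left _ _, fun t => (hC1 t).trans (le_max_right _ _)⟩
  have hCp : 0 < C0 := by linarith
  refine ⟨min (1 / 8) (ε / (300 * C0)), by positivity, fun δ hδ hδ0 s hs =>
    ⟨s * (ε * δ / (72 * C0)), fun x => s * Gn.bar (ε * δ / (72 * C0)) x, -1 / 2, ![1, 0, 1], Gn.dd,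
      fun M' hM => ?_⟩⟩
  have h8 : δ ≤ 1 / 8 := hδ0.trans (min_le_left _ _)
  have hd : δ ≤ ε / (300 * C0) := hδ0.trans (min_le_right _ _)
  have hb : 0 < ε * δ / (72 * C0) := by positivity
  refine ⟨Gn.SK_closed, Gn.SK_sub hM, fun k x hx => Gn.SK_per k hx, fun z hzr =>
    (LamG_vals hδ h8 hzr).1, mul_pos hs hb, O21_bar_smooth _ _, ?_, ?_, ?_, ?_, ?_, Gn.G7_lip,
    (O21_Lam0 δ).symm, ?_, fun t _ => Gn.G7_SK t, O21_cost hδ h8 hε hε4 hs hCp hd⟩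
  · intro z hzr
    obtain ⟨-, h1, h2⟩ := LamG_vals hδ h8 hzr
    show s * Gn.bar (ε * δ / (72 * C0)) (LamG δ z) ≤ 0
    rw [O21_bar_zero h1 h2, mul_zero]
  · intro x _ hxr v _
    obtain ⟨h1, h2⟩ := O21_near hδ hxr
    rw [O21_fd, O21_fd_zero hz h1 h2, mul_zero]
  · intro x hx v _
    rw [PhmG hδ h8 ε s (Gn.SK_sub hM hx).2, O21_fd]
    have j1 := Gn.G7_bar_le hδ h8 hε hC hC0 hz x v
    have j2 := Gn.G6_le (ε := ε) hδ h8 hε4 hs x v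
    have j3 := mul_le_mul_of_nonneg_left j1 hs.le
    rw [← mul_assoc] at j3
    linarith
  · intro x hx hcl
    have hn1 := Real.smoothTransition.nonneg (2 - 4 * Gn.qz x)
    have hn2 := Real.smoothTransition.nonneg (4 * Gn.uu x ^ 2 - 2)
    have hge : 1 ≤ Real.smoothTransition (2 - 4 * Gn.qz x) + Real.smoothTransition (4 * Gn.uu x ^ 2 - 2) := by
      rcases Gn.G7_exit hM hx hcl with h | h
      · rw [Real.smoothTransition.one_of_one_le (x := 2 - 4 * Gn.qz x) (by linarith)]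
        linarith
      · rw [Real.smoothTransition.one_of_one_le (x := 4 * Gn.uu x ^ 2 - 2) (by linarith)]
        linarith
    refine mul_le_mul_of_nonneg_left ?_ hs.le
    unfold Gn.bar
    nlinarith
  · intro l hl
    have := congrFun hl 2
    simp at this
  · rw [O21_Lam0]
    exact O21_dd1

end EscW.On
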