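import Pool.Agent.EscW.CF1
import Pool.Agent.EscW.CF8
import Pool.Agent.EscW.O21
import Pool.Agent.EscW.G1

set_option autoImplicit false

/-!
Project EscW, part O, conformal version, module CF10: conformal factors, surfaces.
As CF9: `exists_center` with `m = 2`, `M'` from `exists_sub_level` (module G1, `Fe_smooth`, `Fe_per`, `Fe_reg`), `conf_abs` with `R0 = 1`, `r = δ/16`, `j = 0`, `𝒜 = AG δ`, `baseG`, `coverG`, `roomG` at the scale `1` (`AG_closed`, `AG_per`, `AG_tube`, `AG_pos`, `‖z.2‖ ≤ 1/4` on `AG`); `wf = Gn.tW δ ε1`, `tWG_one`; `s (‖A‖ 2) ≤ ρ/2`,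
`g (s • A (pol 1 (TcG δ x))) = g (s • A (em δ x))`; `Gn.exists_chart` (module G3).
-/

noncomputable section

namespace EscW.On

open Filter Topology Set EscF.T EscM EscMT MeasureTheory EscW.Ex EscW.Dn
open scoped ContDiff

variable {d m k j n : ℕ}

theorem CF10_pol (δ : ℝ) (x : Vec 3) : pol 1 (TcG δ x) = Gn.em δ x := by
  refine pol_Tc (j := 0) (i := (0 : Fin 3)) (R0 := 1) (ρ := Gn.rr δ) (e := Gn.em δ) ?_ ?_
  · simp [Gn.em]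
  · simp [Gn.em]

theorem open_conf_surface {M : Sub d} {y0 : Vec d} (hy : y0 ∈ M.N)
    (hdim : Module.finrank ℝ (LinearMap.range (fderiv ℝ M.r y0 : Vec d →ₗ[ℝ] Vec d)) = 2)
    {i : ℕ∞} (hi : 2 ≤ i) {q : Vec d → Vec d →L[ℝ] Vec d →L[ℝ] ℝ} (hq : IsRiemannian M i q)
    {W0 : Set (Vec d)} (hW : IsOpen W0) (hy0 : y0 ∈ W0) {ε : ℝ} (hε : 0 < ε) :
    ∃ w : Vec d → ℝ, IsConf M W0 ε w ∧ IsRiemannian M i (fun p => w p • q p) ∧
      ∃ R δ : ℝ, 0 < R ∧ 0 < δ ∧ ∀ F : Vec d → Vec d → ℝ, IsFinsler M F →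
        Close2 M R δ (fun x v => nrm (fun p => w p • q p) x v 0) F → ∀ κ : ℝ → ℝ, IsWeight κ →
          ∀ L : Lag d, IsNearT M κ (fun x v _ => F x v) L → InClass M L := by
  obtain ⟨M', hM⟩ := Gn.exists_sub_level Gn.Fe_smooth Gn.Fe_per Gn.Fe_reg
  obtain ⟨W, ρ, g, g', A, hWW, hg, hA⟩ := exists_center hy hdim hq hW hy0
  set ε1 : ℝ := min (1 / 4) (ε / 4) with hε1
  have he0 : 0 < ε1 := lt_min (by norm_num) (by linarith)
  have he4 : ε1 ≤ 1 / 4 := min_le_left _ _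
  have he8 : ε1 ≤ ε / 4 := min_le_right _ _
  obtain ⟨δ0, hδ00, H⟩ := roomG he0 he4
  set δ : ℝ := min (min δ0 (ε1 / 8)) (1 / 8) with hδdef
  have hδ : 0 < δ := lt_min (lt_min hδ00 (by linarith)) (by norm_num)
  have h8 : δ ≤ 1 / 8 := min_le_right _ _
  have hδ0 : δ ≤ δ0 := (min_le_left _ _).trans (min_le_left _ _)
  have hδε : δ ≤ ε1 / 8 := (min_le_left _ _).trans (min_le_right _ _)
  obtain ⟨a, bar, θ0, nn, γ, Hr⟩ := H δ hδ hδ0 1 one_pos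
  have hwb : ∀ Y : Vec 2, 1 - 2 * ε1 ≤ Gn.tW δ ε1 Y ∧ Gn.tW δ ε1 Y ≤ 1 := fun Y =>
    Gn.tW_bd he0 he4 hδ hδε Y
  have hwpos : ∀ Y : Vec 2, 0 < Gn.tW δ ε1 Y := fun Y => by linarith [(hwb Y).1]
  have hwε : ∀ Y : Vec 2, |Gn.tW δ ε1 Y ^ 2 - 1| ≤ ε := by
    intro Y
    obtain ⟨h1, h2⟩ := hwb Y
    have h3 := hwpos Y
    rw [abs_le]
    constructor <;> nlinarith
  have hρ : 0 < ρ := hg.pos
  have hA0 : 0 ≤ ‖(A : Vec 2 →L[ℝ] Vec 2)‖ := norm_nonneg _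
  obtain ⟨s0, hs00, Hs⟩ := conf_abs (j := 0) hi hq hg A hA (R0 := 1) (r := δ / 16) le_rfl
    (by norm_num) (by linarith) (Gn.tW_smooth hδ h8 ε1) hwpos
    (baseG hδ h8 he0 he4 hδε one_pos) (AG_closed δ) (AG_per δ)
    (fun z hz => hz.2.2.trans (by norm_num)) (fun z hz => (AG_tube hδ h8 z hz).1)
    (fun z hz => AG_pos hz) (coverG hM hδ h8) (Hr M' hM)
  set s : ℝ := min s0 (ρ / (4 * (‖(A : Vec 2 →L[ℝ] Vec 2)‖ + 1))) with hsdef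
  have hs : 0 < s := lt_min hs00 (by positivity)
  have hss : s ≤ s0 := min_le_left _ _
  have hsA : s * (‖(A : Vec 2 →L[ℝ] Vec 2)‖ * 2) ≤ ρ / 2 := by
    have h1 : s ≤ ρ / (4 * (‖(A : Vec 2 →L[ℝ] Vec 2)‖ + 1)) := min_le_right _ _
    have h2 : s * (4 * (‖(A : Vec 2 →L[ℝ] Vec 2)‖ + 1)) ≤ ρ := (le_div_iff₀ (by positivity)).1 h1
    nlinarith
  have hconf : IsConf M W0 ε (wM W s g' A (Gn.tW δ ε1)) :=
    wM_conf hg A hs (by linarith) (Gn.tW_smooth hδ h8 ε1) hwpos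
      (fun Y hY => tWG_one hδ h8 ε1 hY) hwε hWW
  have hriem := conf_riem hq hconf
  obtain ⟨R, δ', hR, hδ', HF⟩ := Hs s hs hss hriem
  refine ⟨wM W s g' A (Gn.tW δ ε1), hconf, hriem, R, δ', hR, hδ', fun F hF hFc κ hκ L hL => ?_⟩
  obtain ⟨B, len, a', c, hcal, hroom⟩ := HF F hF hFc
  have hφ : (fun x : Vec 3 => g (s • A (pol 1 (TcG δ x)))) = fun x => g (s • A (Gn.em δ x)) := by
    funext x
    rw [CF10_pol]
  refine ⟨κ, fun x v _ => F x v, 3, M', Gn.SO, Gn.SK, ⊥, fun x => g (s • A (pol 1 (TcG δ x))), B, 0,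
    len, a', c, hκ, ?_, hL, ?_, hcal, hroom⟩
  · exact ⟨fun _ => hF, fun _ _ _ _ _ => rfl, ⟨0, fun x _ v _ t t' => by simp⟩⟩
  · rw [hφ]
    exact Gn.exists_chart hg A hM hδ h8 hs hsA

end EscW.On
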