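import Pool.Agent.EscW.CFDefs
import Pool.Agent.EscW.E5

set_option autoImplicit false

/-!
Project EscW, part O, conformal version, module CF2: at small scales the metric is near the Euclidean one in `C²`.
`H (s, Y, v) = Qs q g A s Y v - ‖v‖²` is `C²` on the open set `‖s • A Y‖ < ρ`, the derivatives in `(Y, v)` of order
`≤ 2` are continuous in `(s, Y, v)` and vanish for `s = 0`; tube lemma.
-/

noncomputable section

namespace EscW.On

open Filter Topology Set EscF.T EscM EscMT MeasureTheory EscW.Ex EscW.Dn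
open scoped ContDiff

variable {d m k j n : ℕ}

theorem CF2_tan {M : Sub d} {W : Set (Vec d)} {ρ : ℝ} {g : Vec m → Vec d} {g' : Vec d → Vec m}
    (hg : MChart M m W ρ g g') {y : Vec m} (hy : y ∈ Metric.ball (0 : Vec m) ρ) (w : Vec m) :
    fderiv ℝ M.r (g y) (fderiv ℝ g y w) = fderiv ℝ g y w := by
  have hG : HasFDerivAt g (fderiv ℝ g y) y :=
    ((hg.smooth.contDiffAt (Metric.isOpen_ball.mem_nhds hy)).differentiableAt (by simp)).hasFDerivAt
  have hR : HasFDerivAt M.r (fderiv ℝ M.r (g y)) (g y) :=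
    ((M.smooth.contDiffAt (M.isOpen.mem_nhds (M.sub (hg.maps y hy).1))).differentiableAt
      (by simp)).hasFDerivAt
  have h1 : HasFDerivAt (M.r ∘ g) ((fderiv ℝ M.r (g y)).comp (fderiv ℝ g y)) y := hR.comp y hG
  have h2 : (M.r ∘ g) =ᶠ[𝓝 y] g := by
    filter_upwards [Metric.isOpen_ball.mem_nhds hy] with w hw
    exact E5_r_self M (hg.maps w hw).1
  have h3 : HasFDerivAt (M.r ∘ g) (fderiv ℝ g y) y := hG.congr_of_eventuallyEq h2
  exact congrArg (fun T : Vec m →L[ℝ] Vec d => T w) (h1.unique h3)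

/-- the square of the metric in the coordinates of the chart is `C²` -/
theorem CF2_smooth {M : Sub d} {i : ℕ∞} (hi : 2 ≤ i) {q : Vec d → Vec d →L[ℝ] Vec d →L[ℝ] ℝ}
    (hq : IsRiemannian M i q) {W : Set (Vec d)} {ρ : ℝ} {g : Vec m → Vec d} {g' : Vec d → Vec m}
    (hg : MChart M m W ρ g g') :
    ContDiffOn ℝ 2 (fun p : Vec m × Vec m => q (g p.1) (fderiv ℝ g p.1 p.2) (fderiv ℝ g p.1 p.2))
      {p | ‖p.1‖ < ρ} := by
  have hb : ∀ y : Vec m, ‖y‖ < ρ → y ∈ Metric.ball (0 : Vec m) ρ := fun y hy => by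
    rw [mem_ball_zero_iff]
    exact hy
  have h1 : ContDiffOn ℝ 2 (fun p : Vec m × Vec m => g p.1) {p | ‖p.1‖ < ρ} :=
    (hg.smooth.of_le (WithTop.coe_le_coe.2 (le_top : (2 : ℕ∞) ≤ ⊤))).comp contDiffOn_fst
      fun p hp => hb _ hp
  have h2 : ContDiffOn ℝ 2 (fderiv ℝ g) (Metric.ball (0 : Vec m) ρ) :=
    hg.smooth.fderiv_of_isOpen Metric.isOpen_ball (WithTop.coe_le_coe.2 (le_top : (2 + 1 : ℕ∞) ≤ ⊤))
  have h3 : ContDiffOn ℝ 2 (fun p : Vec m × Vec m => fderiv ℝ g p.1 p.2) {p | ‖p.1‖ < ρ} :=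
    (h2.comp contDiffOn_fst fun p hp => hb _ hp).clm_apply contDiffOn_snd
  have h4 : ContDiffOn ℝ 2 (fun p : Vec d × Vec d × Vec d =>
      q (M.r p.1) (fderiv ℝ M.r p.1 p.2.1) (fderiv ℝ M.r p.1 p.2.2)) {p | p.1 ∈ M.U} :=
    hq.smooth.of_le (WithTop.coe_le_coe.2 hi)
  have h5 := h4.comp (h1.prodMk (h3.prodMk h3)) fun p hp => M.sub (hg.maps p.1 (hb _ hp)).1
  refine h5.congr fun p hp => ?_
  have hp' := hb _ hp
  simp only [Function.comp_def]
  rw [CF2_tan hg hp', E5_r_self M (hg.maps p.1 hp').1]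

/-- partial derivatives of a function on a product -/
theorem CF2_part {H : ℝ × (Vec m × Vec m) → ℝ} {O : Set (ℝ × (Vec m × Vec m))} (hO : IsOpen O)
    (hH : ContDiffOn ℝ 2 H O) {z : ℝ × (Vec m × Vec m)} (hz : z ∈ O) {i : ℕ} (hi : i ≤ 2) :
    iteratedFDeriv ℝ i (fun p => H (z.1, p)) z.2 =
      (iteratedFDeriv ℝ i H z).compContinuousLinearMap
        (fun _ => ContinuousLinearMap.inr ℝ ℝ (Vec m × Vec m)) := by
  have hi' : ((i : ℕ) : WithTop ℕ∞) ≤ 2 := by exact_mod_cast hi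
  let H' : ℝ × (Vec m × Vec m) → ℝ := fun w => H ((z.1, 0) + w)
  let O' : Set (ℝ × (Vec m × Vec m)) := (fun w => (z.1, 0) + w) ⁻¹' O
  have hO' : IsOpen O' := hO.preimage (by fun_prop)
  have hH' : ContDiffOn ℝ 2 H' O' := hH.comp (by fun_prop) fun w hw => hw
  let J := ContinuousLinearMap.inr ℝ ℝ (Vec m × Vec m)
  have hJ : IsOpen (J ⁻¹' O') := hO'.preimage J.continuous
  have e0 : ∀ p : Vec m × Vec m, (z.1, (0 : Vec m × Vec m)) + J p = (z.1, p) := fun p => by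
    simp [J, ContinuousLinearMap.inr_apply]
  have hz' : J z.2 ∈ O' := by
    change (z.1, (0 : Vec m × Vec m)) + J z.2 ∈ O
    rw [e0]
    exact hz
  have e1 : (fun p => H (z.1, p)) = H' ∘ J := funext fun p => by
    change _ = H ((z.1, 0) + J p)
    rw [e0]
  rw [e1, ← iteratedFDerivWithin_of_isOpen i hJ hz',
    ContinuousLinearMap.iteratedFDerivWithin_comp_right J hH' hO'.uniqueDiffOn hJ.uniqueDiffOn hz' hi',
    iteratedFDerivWithin_of_isOpen i hO' hz']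
  congr 1
  change iteratedFDeriv ℝ i (fun w => H ((z.1, 0) + w)) (J z.2) = _
  rw [iteratedFDeriv_comp_add_left, e0]

theorem near_Qs {M : Sub d} {i : ℕ∞} (hi : 2 ≤ i) {q : Vec d → Vec d →L[ℝ] Vec d →L[ℝ] ℝ}
    (hq : IsRiemannian M i q) {W : Set (Vec d)} {ρ : ℝ} {g : Vec m → Vec d} {g' : Vec d → Vec m} (hg : MChart M m W ρ g g')
    (A : Vec m ≃L[ℝ] Vec m)
    (hA : ∀ v, q (g 0) (fderiv ℝ g 0 (A v)) (fderiv ℝ g 0 (A v)) = ‖v‖ ^ 2) {b b' η : ℝ} (hb : 0 < b)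
    (hbb : b < b') (hη : 0 < η) :
    ∃ s0 : ℝ, 0 < s0 ∧ ∀ s, 0 < s → s ≤ s0 → NearE (Qs q g A s) b b' η := by
  have hE := CF2_smooth hi hq hg
  let O : Set (ℝ × (Vec m × Vec m)) := {z | ‖z.1 • A z.2.1‖ < ρ}
  have hO : IsOpen O := isOpen_lt (by fun_prop) continuous_const
  have hQ : ContDiffOn ℝ 2 (fun z : ℝ × (Vec m × Vec m) => Qs q g A z.1 z.2.1 z.2.2) O := by
    have h1 : ContDiff ℝ 2 (fun z : ℝ × (Vec m × Vec m) => ((z.1 • A z.2.1, A z.2.2) : Vec m × Vec m)) := by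
      fun_prop
    exact hE.comp h1.contDiffOn fun z hz => hz
  have hH : ContDiffOn ℝ 2 (fun z : ℝ × (Vec m × Vec m) => Qs q g A z.1 z.2.1 z.2.2 - ‖z.2.2‖ ^ 2) O :=
    hQ.sub ((contDiff_snd.comp contDiff_snd).norm_sq ℝ).contDiffOn
  -- the set of the points
  let K : Set (Vec m × Vec m) := Metric.closedBall 0 b ×ˢ Metric.closedBall 0 b
  have hK : IsCompact K := (isCompact_closedBall 0 b).prod (isCompact_closedBall 0 b)
  have h0 : ∀ p : Vec m × Vec m, ((0 : ℝ), p) ∈ O := fun p => by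
    change ‖(0 : ℝ) • A p.1‖ < ρ
    rw [zero_smul, norm_zero]
    exact hg.pos
  have hz : ∀ (i : ℕ) (p : Vec m × Vec m),
      iteratedFDeriv ℝ i (fun p : Vec m × Vec m => Qs q g A 0 p.1 p.2 - ‖p.2‖ ^ 2) p = 0 := fun i p => by
    have h1 : (fun p : Vec m × Vec m => Qs q g A 0 p.1 p.2 - ‖p.2‖ ^ 2) = fun _ => 0 := funext fun p => by
      simp only [Qs, zero_smul]
      rw [hA, sub_self]
    rw [h1]
    simp
  have h1 : ∀ᶠ s : ℝ in 𝓝 0, ∀ p ∈ K, ∀ i : ℕ, i ≤ 2 →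
      ‖iteratedFDeriv ℝ i (fun p : Vec m × Vec m => Qs q g A s p.1 p.2 - ‖p.2‖ ^ 2) p‖ ≤ η := by
    refine hK.eventually_forall_of_forall_eventually (P := fun s p => ∀ i : ℕ, i ≤ 2 →
      ‖iteratedFDeriv ℝ i (fun p : Vec m × Vec m => Qs q g A s p.1 p.2 - ‖p.2‖ ^ 2) p‖ ≤ η) fun p _ => ?_
    have h2 : ∀ i ∈ Finset.range 3, ∀ᶠ z : ℝ × (Vec m × Vec m) in 𝓝 (0, p),
        ‖iteratedFDeriv ℝ i (fun p : Vec m × Vec m => Qs q g A z.1 p.1 p.2 - ‖p.2‖ ^ 2) z.2‖ ≤ η := by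
      intro i hi
      have hi2 : i ≤ 2 := by
        have := Finset.mem_range.1 hi
        omega
      have hi' : ((i : ℕ) : WithTop ℕ∞) ≤ 2 := by exact_mod_cast hi2
      have h3 : ContinuousOn (iteratedFDeriv ℝ i
          (fun z : ℝ × (Vec m × Vec m) => Qs q g A z.1 z.2.1 z.2.2 - ‖z.2.2‖ ^ 2)) O :=
        (hH.continuousOn_iteratedFDerivWithin hi' hO.uniqueDiffOn).congr fun z hz =>
          (iteratedFDerivWithin_of_isOpen i hO hz).symm
      have h4 : ContinuousAt (fun z : ℝ × (Vec m × Vec m) =>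
          ‖ContinuousMultilinearMap.compContinuousLinearMapL (𝕜 := ℝ) (F := ℝ)
            (fun _ : Fin i => ContinuousLinearMap.inr ℝ ℝ (Vec m × Vec m))
            (iteratedFDeriv ℝ i (fun z : ℝ × (Vec m × Vec m) =>
              Qs q g A z.1 z.2.1 z.2.2 - ‖z.2.2‖ ^ 2) z)‖) (0, p) :=
        ((ContinuousLinearMap.continuous _).continuousAt.comp
          (h3.continuousAt (hO.mem_nhds (h0 p)))).norm
      have h5 : ∀ z ∈ O, ‖ContinuousMultilinearMap.compContinuousLinearMapL (𝕜 := ℝ) (F := ℝ)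
            (fun _ : Fin i => ContinuousLinearMap.inr ℝ ℝ (Vec m × Vec m))
            (iteratedFDeriv ℝ i (fun z : ℝ × (Vec m × Vec m) =>
              Qs q g A z.1 z.2.1 z.2.2 - ‖z.2.2‖ ^ 2) z)‖ =
          ‖iteratedFDeriv ℝ i (fun p : Vec m × Vec m => Qs q g A z.1 p.1 p.2 - ‖p.2‖ ^ 2) z.2‖ := by
        intro z hz
        rw [ContinuousMultilinearMap.compContinuousLinearMapL_apply]
        exact congrArg _ (CF2_part hO hH hz hi2).symm
      have h6 := h4.eventually_lt_const (u := η) (by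
        beta_reduce
        rw [h5 _ (h0 p), hz, norm_zero]
        exact hη)
      filter_upwards [h6, hO.mem_nhds (h0 p)] with z hz1 hz2
      rw [← h5 z hz2]
      exact hz1.le
    filter_upwards [(Filter.eventually_all_finset _).2 h2] with z hz i hi
    exact hz i (Finset.mem_range.2 (by omega))
  obtain ⟨ε, hε, hεs⟩ := Metric.eventually_nhds_iff.1 h1
  have hb' : 0 < b' := hb.trans hbb
  let C : ℝ := ‖(A : Vec m →L[ℝ] Vec m)‖ * b' + 1
  have hC : 0 < C := by positivity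
  refine ⟨min (ε / 2) (ρ / C), lt_min (by positivity) (div_pos hg.pos hC), fun s hs hs0 => ?_⟩
  have hs1 : s < ε := (hs0.trans (min_le_left _ _)).trans_lt (by linarith)
  have hs2 : s * C ≤ ρ := (le_div_iff₀ hC).1 (hs0.trans (min_le_right _ _))
  refine ⟨hbb, ?_, ?_, ?_⟩
  · have h2 : ContDiff ℝ 2 (fun p : Vec m × Vec m => ((s, p) : ℝ × (Vec m × Vec m))) := by fun_prop
    refine hQ.comp h2.contDiffOn fun p hp => ?_
    have hp' : ‖p.1‖ < b' := hp
    change ‖s • A p.1‖ < ρ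
    rw [norm_smul, Real.norm_of_nonneg hs.le]
    have h3 : ‖A p.1‖ ≤ ‖(A : Vec m →L[ℝ] Vec m)‖ * b' :=
      ((A : Vec m →L[ℝ] Vec m).le_opNorm p.1).trans
        (mul_le_mul_of_nonneg_left hp'.le (norm_nonneg _))
    have h4 : ‖A p.1‖ < C := by
      simp only [C]
      linarith
    exact (mul_lt_mul_of_pos_left h4 hs).trans_le hs2
  · intro Y v c _
    simp only [Qs, map_smul, _root_.smul_apply, smul_eq_mul]
    ring
  · intro Y v hY hv i hi
    refine hεs (y := s) ?_ (Y, v) ⟨?_, ?_⟩ i hi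
    · rw [Real.dist_eq, sub_zero, abs_of_pos hs]
      exact hs1
    · rw [mem_closedBall_zero_iff]
      exact hY
    · rw [mem_closedBall_zero_iff]
      exact hv

end EscW.On
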