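import Pool.Agent.EscW.CFDefs

set_option autoImplicit false

/-!
Project EscW, part O, conformal version, module CF3: square roots.
`abs`: for `v ≠ 0` by `hom` and `near` (`i = 0`) at `v / ‖v‖` (`1 ≤ b`): `|Q Y v - ‖v‖²| ≤ η ‖v‖²`, so `0 ≤ Q` for `η ≤ 1` and `|√Q - ‖v‖| = |Q - ‖v‖²| / (√Q + ‖v‖) ≤ η ‖v‖`; `v = 0`: `Q Y 0 = 0` (`hom`, `c = 0`).
`sqrt_near`: `√Q - ‖v‖ = (Q - E) · G (E, Q)` with `E = ‖v‖²` and `G (e, q) = 1 / (√q + √e)`, smooth for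
`e, q > 0`; `norm_iteratedFDerivWithin_mul_le` and `norm_iteratedFDerivWithin_comp_le` with bounds of
the derivatives of `G` on a compact set.
-/

noncomputable section

namespace EscW.On

open Filter Topology Set EscF.T EscM EscMT MeasureTheory EscW.Ex EscW.Dn
open scoped ContDiff

variable {d m k j n : ℕ}

theorem CF3_q {b b' η : ℝ} (hb : 1 ≤ b) {Q : Vec m → Vec m → ℝ} (h : NearE Q b b' η)
    {Y : Vec m} (hY : ‖Y‖ ≤ b) (v : Vec m) : |Q Y v - ‖v‖ ^ 2| ≤ η * ‖v‖ ^ 2 := by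
  have hY' : ‖Y‖ < b' := lt_of_le_of_lt hY h.lt
  rcases eq_or_ne v 0 with rfl | hv
  · have h0 : Q Y 0 = 0 := by
      have := h.hom Y 0 0 hY'
      simpa using this
    simp [h0]
  · have hn : 0 < ‖v‖ := norm_pos_iff.mpr hv
    have hu : ‖(‖v‖⁻¹ • v : Vec m)‖ = 1 := by
      rw [norm_smul, norm_inv, norm_norm, inv_mul_cancel₀ hn.ne']
    have h1 := h.near Y (‖v‖⁻¹ • v) hY (by rw [hu]; exact hb) 0 (by norm_num)
    rw [norm_iteratedFDeriv_zero] at h1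
    simp only [Real.norm_eq_abs, hu, one_pow] at h1
    have h2 : Q Y v = ‖v‖ ^ 2 * Q Y (‖v‖⁻¹ • v) := by
      have := h.hom Y (‖v‖⁻¹ • v) ‖v‖ hY'
      rw [smul_smul, mul_inv_cancel₀ hn.ne', one_smul] at this
      exact this
    have h3 : Q Y v - ‖v‖ ^ 2 = ‖v‖ ^ 2 * (Q Y (‖v‖⁻¹ • v) - 1) := by rw [h2]; ring
    rw [h3, abs_mul, abs_of_nonneg (by positivity : (0 : ℝ) ≤ ‖v‖ ^ 2), mul_comm η]
    exact mul_le_mul_of_nonneg_left h1 (by positivity)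

theorem abs_near {b b' η : ℝ} (hb : 1 ≤ b) (hη1 : η ≤ 1) {Q : Vec m → Vec m → ℝ} (h : NearE Q b b' η)
    {Y : Vec m} (hY : ‖Y‖ ≤ b) (v : Vec m) : 0 ≤ Q Y v ∧ |√(Q Y v) - ‖v‖| ≤ η * ‖v‖ := by
  have h1 := CF3_q hb h hY v
  have h1' := abs_le.mp h1
  have hQ : 0 ≤ Q Y v := by nlinarith [h1'.1, sq_nonneg ‖v‖]
  refine ⟨hQ, ?_⟩
  rcases (norm_nonneg v).eq_or_lt with hv | hv
  · have : Q Y v = 0 := by
      rw [← hv] at h1
      simpa using h1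
    rw [this, ← hv]
    simp
  · have hs := Real.sqrt_nonneg (Q Y v)
    have hsq := Real.sq_sqrt hQ
    have h2 : |√(Q Y v) - ‖v‖| * (√(Q Y v) + ‖v‖) = |Q Y v - ‖v‖ ^ 2| := by
      rw [← abs_of_pos (by linarith : 0 < √(Q Y v) + ‖v‖), ← abs_mul]
      congr 1
      nlinarith [hsq]
    have h3 : |√(Q Y v) - ‖v‖| * ‖v‖ ≤ (η * ‖v‖) * ‖v‖ := by
      calc |√(Q Y v) - ‖v‖| * ‖v‖ ≤ |√(Q Y v) - ‖v‖| * (√(Q Y v) + ‖v‖) :=
            mul_le_mul_of_nonneg_left (by linarith) (abs_nonneg _)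
        _ ≤ η * ‖v‖ ^ 2 := by rw [h2]; exact h1
        _ = (η * ‖v‖) * ‖v‖ := by ring
    exact le_of_mul_le_mul_right h3 hv

/-- `(e, q) ↦ 1 / (√q + √e)` -/
def CF3_G (x : ℝ × ℝ) : ℝ := (√x.2 + √x.1)⁻¹

/-- the domain -/
def CF3_t : Set (ℝ × ℝ) := {x | 0 < x.1 ∧ 0 < x.2}

theorem CF3_t_open : IsOpen CF3_t :=
  (isOpen_lt continuous_const continuous_fst).inter (isOpen_lt continuous_const continuous_snd)

theorem CF3_G_smooth : ContDiffOn ℝ 2 CF3_G CF3_t := by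
  intro x hx
  apply ContDiffAt.contDiffWithinAt
  have h1 : ContDiffAt ℝ 2 (fun x : ℝ × ℝ => √x.1) x :=
    contDiffAt_fst.sqrt (ne_of_gt hx.1)
  have h2 : ContDiffAt ℝ 2 (fun x : ℝ × ℝ => √x.2) x :=
    contDiffAt_snd.sqrt (ne_of_gt hx.2)
  refine (h2.add h1).inv ?_
  have := Real.sqrt_pos.mpr hx.1
  have := Real.sqrt_pos.mpr hx.2
  positivity

theorem CF3_G_bound {v0 b : ℝ} (hv0 : 0 < v0) :
    ∃ C : ℝ, 0 < C ∧ ∀ e q : ℝ, v0 ^ 2 ≤ e → e ≤ b ^ 2 → v0 ^ 2 / 2 ≤ q → q ≤ b ^ 2 + 1 → ∀ i : ℕ, i ≤ 2 →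
      ‖iteratedFDerivWithin ℝ i CF3_G CF3_t (e, q)‖ ≤ C := by
  have hK : IsCompact (Icc (v0 ^ 2) (b ^ 2) ×ˢ Icc (v0 ^ 2 / 2) (b ^ 2 + 1)) :=
    isCompact_Icc.prod isCompact_Icc
  have hKt : (Icc (v0 ^ 2) (b ^ 2) ×ˢ Icc (v0 ^ 2 / 2) (b ^ 2 + 1)) ⊆ CF3_t := by
    rintro ⟨e, q⟩ ⟨he, hq⟩
    have h0 : 0 < v0 ^ 2 := by positivity
    exact ⟨lt_of_lt_of_le h0 he.1, lt_of_lt_of_le (by positivity) hq.1⟩
  have hex : ∀ i : ℕ, i ≤ 2 → ∃ C : ℝ, ∀ x ∈ (Icc (v0 ^ 2) (b ^ 2) ×ˢ Icc (v0 ^ 2 / 2) (b ^ 2 + 1)),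
      ‖iteratedFDerivWithin ℝ i CF3_G CF3_t x‖ ≤ C := by
    intro i hi
    refine hK.exists_bound_of_continuousOn (f := iteratedFDerivWithin ℝ i CF3_G CF3_t) ?_
    refine (CF3_G_smooth.continuousOn_iteratedFDerivWithin ?_ CF3_t_open.uniqueDiffOn).mono hKt
    exact_mod_cast hi
  obtain ⟨C0, h0⟩ := hex 0 (by norm_num)
  obtain ⟨C1, h1⟩ := hex 1 (by norm_num)
  obtain ⟨C2, h2⟩ := hex 2 (by norm_num)
  refine ⟨|C0| + |C1| + |C2| + 1, by positivity, ?_⟩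
  intro e q he1 he2 hq1 hq2 i hi
  have hx : ((e, q) : ℝ × ℝ) ∈ (Icc (v0 ^ 2) (b ^ 2) ×ˢ Icc (v0 ^ 2 / 2) (b ^ 2 + 1)) :=
    ⟨⟨he1, he2⟩, ⟨hq1, hq2⟩⟩
  have a0 := le_abs_self C0
  have a1 := le_abs_self C1
  have a2 := le_abs_self C2
  have p0 := abs_nonneg C0
  have p1 := abs_nonneg C1
  have p2 := abs_nonneg C2
  interval_cases i
  · linarith [h0 _ hx]
  · linarith [h1 _ hx]
  · linarith [h2 _ hx]

theorem CF3_E_bound (b : ℝ) :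
    ∃ C : ℝ, 0 < C ∧ ∀ Y v : Vec m, ‖Y‖ ≤ b → ‖v‖ ≤ b → ∀ i : ℕ, i ≤ 2 →
      ‖iteratedFDeriv ℝ i (fun p : Vec m × Vec m => ‖p.2‖ ^ 2) (Y, v)‖ ≤ C := by
  have hE : ContDiff ℝ 2 (fun p : Vec m × Vec m => ‖p.2‖ ^ 2) := contDiff_snd.norm_sq ℝ
  have hK : IsCompact (Metric.closedBall (0 : Vec m) b ×ˢ Metric.closedBall (0 : Vec m) b) :=
    (isCompact_closedBall _ _).prod (isCompact_closedBall _ _)
  have hex : ∀ i : ℕ, i ≤ 2 → ∃ C : ℝ, ∀ x ∈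
      (Metric.closedBall (0 : Vec m) b ×ˢ Metric.closedBall (0 : Vec m) b),
      ‖iteratedFDeriv ℝ i (fun p : Vec m × Vec m => ‖p.2‖ ^ 2) x‖ ≤ C := by
    intro i hi
    refine hK.exists_bound_of_continuousOn ?_
    refine (hE.continuous_iteratedFDeriv ?_).continuousOn
    exact_mod_cast hi
  obtain ⟨C0, h0⟩ := hex 0 (by norm_num)
  obtain ⟨C1, h1⟩ := hex 1 (by norm_num)
  obtain ⟨C2, h2⟩ := hex 2 (by norm_num)
  refine ⟨|C0| + |C1| + |C2| + 1, by positivity, ?_⟩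
  intro Y v hY hv i hi
  have hx : ((Y, v) : Vec m × Vec m) ∈
      (Metric.closedBall (0 : Vec m) b ×ˢ Metric.closedBall (0 : Vec m) b) :=
    ⟨by simpa using hY, by simpa using hv⟩
  have a0 := le_abs_self C0
  have a1 := le_abs_self C1
  have a2 := le_abs_self C2
  have p0 := abs_nonneg C0
  have p1 := abs_nonneg C1
  have p2 := abs_nonneg C2
  interval_cases i
  · linarith [h0 _ hx]
  · linarith [h1 _ hx]
  · linarith [h2 _ hx]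

theorem sqrt_near {b b' v0 : ℝ} (hb : 1 ≤ b) (hbb : b < b') (hv0 : 0 < v0) :
    ∃ C η0 : ℝ, 0 < C ∧ 0 < η0 ∧ ∀ (Q : Vec m → Vec m → ℝ) (η : ℝ), 0 ≤ η → η ≤ η0 → NearE Q b b' η →
      ∀ Y v, ‖Y‖ ≤ b → ‖v‖ ≤ b → v0 ≤ ‖v‖ → 0 < Q Y v ∧ ∀ i : ℕ, i ≤ 2 →
        ‖iteratedFDeriv ℝ i (fun p : Vec m × Vec m => √(Q p.1 p.2) - ‖p.2‖) (Y, v)‖ ≤ C * η := by
  obtain ⟨CG, hCG, hG⟩ := CF3_G_bound (b := b) hv0
  obtain ⟨CE, hCE, hE⟩ := CF3_E_bound (m := m) b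
  have hEs : ContDiff ℝ 2 (fun p : Vec m × Vec m => ‖p.2‖ ^ 2) := contDiff_snd.norm_sq ℝ
  refine ⟨4 * (2 * CG * (CE + 1 + 1) ^ 2), min 1 (v0 ^ 2 / 2), by positivity,
    lt_min one_pos (by positivity), ?_⟩
  intro Q η hη0 hηle hQ Y v hY hv hv0v
  have hη1 : η ≤ 1 := hηle.trans (min_le_left _ _)
  have hη2 : η ≤ v0 ^ 2 / 2 := hηle.trans (min_le_right _ _)
  have hvpos : 0 < ‖v‖ := lt_of_lt_of_le hv0 hv0v
  have hv2 : v0 ^ 2 ≤ ‖v‖ ^ 2 := by gcongr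
  have hv2b : ‖v‖ ^ 2 ≤ b ^ 2 := by gcongr
  have hq0 := hQ.near Y v hY hv 0 (by norm_num)
  rw [norm_iteratedFDeriv_zero, Real.norm_eq_abs] at hq0
  have hq0' := abs_le.mp hq0
  simp only at hq0'
  have hQ1 : v0 ^ 2 / 2 ≤ Q Y v := by linarith [hq0'.1]
  have hQ2 : Q Y v ≤ b ^ 2 + 1 := by linarith [hq0'.2]
  have hQpos : 0 < Q Y v := lt_of_lt_of_le (by positivity) hQ1
  refine ⟨hQpos, ?_⟩
  -- the open set
  have hopen0 : IsOpen {p : Vec m × Vec m | ‖p.1‖ < b'} := isOpen_lt (continuous_norm.comp continuous_fst) continuous_const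
  let s : Set (Vec m × Vec m) := ({p : Vec m × Vec m | ‖p.1‖ < b'} ∩
    (fun p : Vec m × Vec m => Q p.1 p.2) ⁻¹' (Ioi 0)) ∩ {p | p.2 ≠ 0}
  have hs : IsOpen s := by
    refine IsOpen.inter ?_ ?_
    · exact hQ.smooth.continuousOn.isOpen_inter_preimage hopen0 isOpen_Ioi
    · exact isOpen_ne_fun continuous_snd continuous_const
  have hx : ((Y, v) : Vec m × Vec m) ∈ s :=
    ⟨⟨lt_of_le_of_lt hY hbb, hQpos⟩, norm_pos_iff.mp hvpos⟩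
  have hQs : ContDiffOn ℝ 2 (fun p : Vec m × Vec m => Q p.1 p.2) s :=
    hQ.smooth.mono fun p hp => hp.1.1
  have hQat : ContDiffAt ℝ 2 (fun p : Vec m × Vec m => Q p.1 p.2) (Y, v) :=
    hQs.contDiffAt (hs.mem_nhds hx)
  have hf : ContDiffOn ℝ 2 (fun p : Vec m × Vec m => (‖p.2‖ ^ 2, Q p.1 p.2)) s :=
    hEs.contDiffOn.prodMk hQs
  have hst : MapsTo (fun p : Vec m × Vec m => (‖p.2‖ ^ 2, Q p.1 p.2)) s CF3_t := by
    intro p hp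
    have : 0 < ‖p.2‖ := norm_pos_iff.mpr hp.2
    exact ⟨by positivity, hp.1.2⟩
  -- the identity
  have hid : EqOn (fun p : Vec m × Vec m => √(Q p.1 p.2) - ‖p.2‖)
      (fun p => (Q p.1 p.2 - ‖p.2‖ ^ 2) * (CF3_G ∘ (fun p : Vec m × Vec m => (‖p.2‖ ^ 2, Q p.1 p.2))) p)
      s := by
    intro p hp
    have h1 : 0 < ‖p.2‖ := norm_pos_iff.mpr hp.2
    have h2 : 0 < Q p.1 p.2 := hp.1.2
    have h3 := Real.sq_sqrt h2.le
    have h4 := Real.sqrt_pos.mpr h2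
    simp only [Function.comp_apply, CF3_G, Real.sqrt_sq h1.le]
    rw [← div_eq_mul_inv, eq_div_iff (by positivity)]
    nlinarith
  -- derivatives of `Q`
  have hDQ : ∀ i : ℕ, i ≤ 2 →
      ‖iteratedFDeriv ℝ i (fun p : Vec m × Vec m => Q p.1 p.2) (Y, v)‖ ≤ CE + 1 := by
    intro i hi
    have e1 : (fun p : Vec m × Vec m => Q p.1 p.2) =
        (fun p => Q p.1 p.2 - ‖p.2‖ ^ 2) + (fun p : Vec m × Vec m => ‖p.2‖ ^ 2) := by
      funext p; simp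
    have hi' : ((i : ℕ) : ℕ∞ω) ≤ 2 := by exact_mod_cast hi
    rw [e1, iteratedFDeriv_add_apply ((hQat.sub hEs.contDiffAt).of_le hi')
      (hEs.contDiffAt.of_le hi')]
    refine (norm_add_le _ _).trans ?_
    have := hQ.near Y v hY hv i hi
    have := hE Y v hY hv i hi
    linarith
  have hDf : ∀ i : ℕ, i ≤ 2 →
      ‖iteratedFDeriv ℝ i (fun p : Vec m × Vec m => (‖p.2‖ ^ 2, Q p.1 p.2)) (Y, v)‖ ≤ CE + 1 := by
    intro i hi
    have hi' : ((i : ℕ) : ℕ∞ω) ≤ 2 := by exact_mod_cast hi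
    rw [iteratedFDeriv_prodMk hEs.contDiffAt hQat hi', ContinuousMultilinearMap.opNorm_prod]
    exact max_le (by linarith [hE Y v hY hv i hi]) (hDQ i hi)
  have hcomp : ∀ i : ℕ, i ≤ 2 →
      ‖iteratedFDerivWithin ℝ i (CF3_G ∘ (fun p : Vec m × Vec m => (‖p.2‖ ^ 2, Q p.1 p.2))) s (Y, v)‖
        ≤ 2 * CG * (CE + 1 + 1) ^ 2 := by
    intro i hi
    have hi' : ((i : ℕ) : ℕ∞ω) ≤ 2 := by exact_mod_cast hi
    have h1 := norm_iteratedFDerivWithin_comp_le CF3_G_smooth hf hi' CF3_t_open.uniqueDiffOn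
      hs.uniqueDiffOn hst hx (C := CG) (D := CE + 1 + 1)
      (fun k hk => hG _ _ hv2 hv2b hQ1 hQ2 k (hk.trans hi)) (by
        intro k hk1 hk2
        rw [iteratedFDerivWithin_of_isOpen k hs hx]
        have h2 := hDf k (hk2.trans hi)
        have h3 : CE + 1 + 1 ≤ (CE + 1 + 1) ^ k :=
          le_self_pow₀ (by linarith) (by omega)
        linarith)
    refine h1.trans ?_
    have hD1 : 1 ≤ CE + 1 + 1 := by linarith
    have h2 : (i.factorial : ℝ) ≤ 2 := by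
      have : i.factorial ≤ Nat.factorial 2 := Nat.factorial_le hi
      exact_mod_cast this
    have h3 : (CE + 1 + 1) ^ i ≤ (CE + 1 + 1) ^ 2 := pow_le_pow_right₀ hD1 hi
    gcongr
  intro i hi
  have hi' : ((i : ℕ) : ℕ∞ω) ≤ 2 := by exact_mod_cast hi
  rw [← iteratedFDerivWithin_of_isOpen i hs hx, iteratedFDerivWithin_congr hid hx]
  refine (norm_iteratedFDerivWithin_mul_le (hQs.sub hEs.contDiffOn)
    (CF3_G_smooth.comp hf hst) hs.uniqueDiffOn hx hi').trans ?_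
  have hterm : ∀ l ∈ Finset.range (i + 1), (i.choose l : ℝ) *
      ‖iteratedFDerivWithin ℝ l (fun p : Vec m × Vec m => Q p.1 p.2 - ‖p.2‖ ^ 2) s (Y, v)‖ *
      ‖iteratedFDerivWithin ℝ (i - l)
        (CF3_G ∘ (fun p : Vec m × Vec m => (‖p.2‖ ^ 2, Q p.1 p.2))) s (Y, v)‖ ≤
      (i.choose l : ℝ) * (η * (2 * CG * (CE + 1 + 1) ^ 2)) := by
    intro l hl
    have hl' : l ≤ 2 := by
      have := Finset.mem_range.mp hl
      omega
    rw [mul_assoc]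
    refine mul_le_mul_of_nonneg_left ?_ (by positivity)
    refine mul_le_mul ?_ (hcomp _ (by omega)) (norm_nonneg _) hη0
    rw [iteratedFDerivWithin_of_isOpen l hs hx]
    exact hQ.near Y v hY hv l hl'
  refine (Finset.sum_le_sum hterm).trans ?_
  rw [← Finset.sum_mul]
  have hsum : (∑ l ∈ Finset.range (i + 1), (i.choose l : ℝ)) ≤ 4 := by
    have h1 : (∑ l ∈ Finset.range (i + 1), i.choose l) = 2 ^ i := Nat.sum_range_choose i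
    have h2 : (2 : ℕ) ^ i ≤ 2 ^ 2 := Nat.pow_le_pow_right (by norm_num) hi
    have h3 : (∑ l ∈ Finset.range (i + 1), i.choose l) ≤ 4 := by rw [h1]; simpa using h2
    exact_mod_cast h3
  calc (∑ l ∈ Finset.range (i + 1), (i.choose l : ℝ)) * (η * (2 * CG * (CE + 1 + 1) ^ 2))
      ≤ 4 * (η * (2 * CG * (CE + 1 + 1) ^ 2)) :=
        mul_le_mul_of_nonneg_right hsum (by positivity)
    _ = 4 * (2 * CG * (CE + 1 + 1) ^ 2) * η := by ring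

end EscW.On
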