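import Pool.Agent.EscW.DDefs
import Pool.Agent.EscM.N1

set_option autoImplicit false

/-!
Project EscW, part D, module D6: the new metric is a Riemannian metric.
`qnew` near a point `x0` with `M.r x0 + vz l ∈ W`: the integer vector is unique (`small`: two points of `W` have distance `< 1`), so `qnew (M.r x) = qloc (M.r x + vz l)` for `x` near `x0`, of class `C^j`: `cb`, `w`, `g'` are smooth (`fderiv g'` too, `W` is open), `q (M.r x + vz l) = q (M.r x)` on
tangent vectors. If `M.r x0 ∉ W + ℤᵈ`: the set `g (closedBall 0 (3ρ/4)) + ℤᵈ` is closed and does not contain `M.r x0`; near `M.r x0` every point of `M.N` which is in `W + ℤᵈ` has `‖g'‖ > 3ρ/4`, so `cb = 0` and `qnew = q`. `pos`: `A⁻¹ Dg' v ≠ 0` for tangent `v ≠ 0`: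
`g (g' x) = x` on `M.N ∩ W`, differentiate along `s ↦ M.r (p + s v)`.
-/

noncomputable section

namespace EscW.Dn

open Filter Topology Set EscF.T EscM EscMT MeasureTheory EscW.Ex
open scoped ContDiff

variable {d m n : ℕ}

theorem D6_tangent {M : Sub d} {x v : Vec d} (hx : x ∈ M.N) (hv : IsTangent M x v) (l : Fin d → ℤ) :
    IsTangent M (x + vz l) v := by
  unfold IsTangent at hv ⊢
  have h1 : fderiv ℝ (fun y => M.r (y + vz l)) x = fderiv ℝ M.r (x + vz l) := fderiv_comp_add_right _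
  have h2 : (fun y => M.r (y + vz l)) =ᶠ[𝓝 x] fun y => M.r y + vz l := by
    filter_upwards [M.isOpen.mem_nhds (M.sub hx)] with y hy
    exact r_vz M l hy
  rw [← h1, h2.fderiv_eq, fderiv_add_const]
  exact hv

theorem D6_at (M : Sub d) {x : Vec d} (hx : x ∈ M.U) : ContDiffAt ℝ ∞ M.r x :=
  M.smooth.contDiffAt (M.isOpen.mem_nhds hx)

theorem D6_diff (M : Sub d) {x : Vec d} (hx : x ∈ M.U) : DifferentiableAt ℝ M.r x :=
  (D6_at M hx).differentiableAt (by simp)

theorem D6_rr (M : Sub d) {x : Vec d} (hx : x ∈ M.U) (u : Vec d) :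
    IsTangent M (M.r x) (fderiv ℝ M.r x u) := by
  have hrx : M.r x ∈ M.U := M.sub (M.mem x hx)
  have h1 : (fun y => M.r (M.r y)) =ᶠ[𝓝 x] M.r := by
    filter_upwards [M.isOpen.mem_nhds hx] with y hy
    exact r_self M (M.mem y hy)
  have h2 : fderiv ℝ (fun y => M.r (M.r y)) x = fderiv ℝ M.r x := h1.fderiv_eq
  have h3 : fderiv ℝ (fun y => M.r (M.r y)) x = (fderiv ℝ M.r (M.r x)).comp (fderiv ℝ M.r x) :=
    fderiv_comp x (D6_diff M hrx) (D6_diff M hx)
  show fderiv ℝ M.r (M.r x) (fderiv ℝ M.r x u) = fderiv ℝ M.r x u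
  rw [← ContinuousLinearMap.comp_apply, ← h3, h2]

theorem D6_inf : (∞ : WithTop ℕ∞) + 1 ≤ ∞ := by
  have : (∞ : WithTop ℕ∞) + 1 = ∞ := rfl
  rw [this]

theorem D6_fd {E F : Type*} [NormedAddCommGroup E] [NormedSpace ℝ E] [NormedAddCommGroup F] [NormedSpace ℝ F]
    {f : E → F} {x : E} (h : ContDiffAt ℝ ∞ f x) : ContDiffAt ℝ ∞ (fderiv ℝ f) x :=
  h.fderiv_right D6_inf

/-- an integer vector of norm less than one is zero -/
theorem D6_vz_small {l : Fin d → ℤ} (h : ‖(vz l : Vec d)‖ < 1) : (vz l : Vec d) = 0 := by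
  ext i
  have h1 : ‖(vz l : Vec d) i‖ ≤ ‖(vz l : Vec d)‖ := PiLp.norm_apply_le _ i
  have h2 : ‖(vz l : Vec d) i‖ = |((l i : ℤ) : ℝ)| := by simp [vz]
  rw [h2] at h1
  have h3 : |(l i : ℝ)| < 1 := lt_of_le_of_lt h1 h
  have h4 : |l i| < 1 := by exact_mod_cast h3
  have h5 : l i = 0 := Int.abs_lt_one_iff.1 h4
  simp [vz, h5]

theorem D6_vz_inj {W : Set (Vec d)} (hW : ∀ x ∈ W, ∀ y ∈ W, dist x y < 1) {x : Vec d} {l l' : Fin d → ℤ}
    (h : x + vz l ∈ W) (h' : x + vz l' ∈ W) : (vz l : Vec d) = vz l' := by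
  have h1 := hW _ h _ h'
  have h2 : (x + vz l) - (x + vz l') = (vz (l + -l') : Vec d) := by
    rw [vz_add', vz_neg']
    abel
  rw [dist_eq_norm, h2] at h1
  have h3 := D6_vz_small h1
  rw [vz_add', vz_neg'] at h3
  have h4 := add_eq_zero_iff_eq_neg.1 h3
  rwa [neg_neg] at h4

theorem D6_in {W : Set (Vec d)} (hW : ∀ x ∈ W, ∀ y ∈ W, dist x y < 1)
    (q : Vec d → Vec d →L[ℝ] Vec d →L[ℝ] ℝ) (ρ s : ℝ) (g' : Vec d → Vec m) (A : Vec m ≃L[ℝ] Vec m)
    (w : Vec m → ℝ) {x : Vec d} {l : Fin d → ℤ} (h : x + vz l ∈ W) :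
    qnew q W ρ s g' A w x = qloc q ρ s g' A w (x + vz l) := by
  have h1 : ∃ l : Fin d → ℤ, x + vz l ∈ W := ⟨l, h⟩
  unfold qnew
  rw [dif_pos h1, D6_vz_inj hW h1.choose_spec h]

theorem D6_out {W : Set (Vec d)} (q : Vec d → Vec d →L[ℝ] Vec d →L[ℝ] ℝ) (ρ s : ℝ) (g' : Vec d → Vec m)
    (A : Vec m ≃L[ℝ] Vec m) (w : Vec m → ℝ) {x : Vec d} (h : ¬ ∃ l : Fin d → ℤ, x + vz l ∈ W) :
    qnew q W ρ s g' A w x = q x := by
  unfold qnew
  rw [dif_neg h]

theorem D6_qloc (q : Vec d → Vec d →L[ℝ] Vec d →L[ℝ] ℝ) (ρ s : ℝ) (g' : Vec d → Vec m) (A : Vec m ≃L[ℝ] Vec m)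
    (w : Vec m → ℝ) (p u v : Vec d) : qloc q ρ s g' A w p u v =
      cb ρ (g' p) * w (s⁻¹ • A.symm (g' p)) ^ 2 *
        inner ℝ (A.symm (fderiv ℝ g' p u)) (A.symm (fderiv ℝ g' p v)) +
        (1 - cb ρ (g' p)) * q p u v := by
  unfold qloc
  simp only [add_apply, smul_apply, ipc_apply, smul_eq_mul,
    ContinuousLinearMap.comp_apply, ContinuousLinearEquiv.coe_coe]

theorem D6_cb01 (ρ : ℝ) (z : Vec m) : 0 ≤ cb ρ z ∧ cb ρ z ≤ 1 := by
  unfold cb
  exact ⟨by linarith [Real.smoothTransition.le_one ((16 * ‖z‖ ^ 2 / ρ ^ 2 - 4) / 5)],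
    by linarith [Real.smoothTransition.nonneg ((16 * ‖z‖ ^ 2 / ρ ^ 2 - 4) / 5)]⟩

theorem D6_cb_zero {ρ : ℝ} (hρ : 0 < ρ) {z : Vec m} (h : 3 * ρ / 4 ≤ ‖z‖) : cb ρ z = 0 := by
  unfold cb
  rw [Real.smoothTransition.one_of_one_le, sub_self]
  have h1 : (3 * ρ / 4) ^ 2 ≤ ‖z‖ ^ 2 := by
    apply pow_le_pow_left₀ (by positivity) h
  have h2 : 9 ≤ 16 * ‖z‖ ^ 2 / ρ ^ 2 := by
    rw [le_div_iff₀ (by positivity)]
    nlinarith
  linarith

theorem D6_cb_smooth (ρ : ℝ) : ContDiff ℝ ∞ (cb (m := m) ρ) := by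
  unfold cb
  refine contDiff_const.sub (Real.smoothTransition.contDiff.comp ?_)
  exact (((contDiff_const.mul (contDiff_norm_sq ℝ)).div_const _).sub contDiff_const).div_const _

theorem D6_lattice : IsClosed (range (fun l : Fin d → ℤ => (vz l : Vec d))) := by
  have h1 : range (fun l : Fin d → ℤ => (vz l : Vec d)) =
      ⋂ i : Fin d, (fun x : Vec d => x i) ⁻¹' range ((↑) : ℤ → ℝ) := by
    ext x
    simp only [mem_range, mem_iInter, mem_preimage]
    constructor
    · rintro ⟨l, rfl⟩ i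
      exact ⟨l i, by simp [vz]⟩
    · intro h
      choose l hl using h
      refine ⟨l, ?_⟩
      ext i
      simp [vz, hl]
  rw [h1]
  refine isClosed_iInter fun i => ?_
  refine IsClosed.preimage ?_ Int.isClosedEmbedding_coe_real.isClosed_range
  exact (EuclideanSpace.proj (𝕜 := ℝ) i).continuous

open Pointwise in
theorem D6_closed {K : Set (Vec d)} (hK : IsCompact K) : IsClosed {x : Vec d | ∃ l : Fin d → ℤ, x + vz l ∈ K} := by
  have h1 : {x : Vec d | ∃ l : Fin d → ℤ, x + vz l ∈ K} =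
      K + range (fun l : Fin d → ℤ => (vz l : Vec d)) := by
    ext x
    simp only [mem_ofPred_eq, Set.mem_add, mem_range]
    constructor
    · rintro ⟨l, hl⟩
      exact ⟨_, hl, _, ⟨-l, rfl⟩, N1_add_neg l x⟩
    · rintro ⟨y, hy, _, ⟨l, rfl⟩, rfl⟩
      refine ⟨-l, ?_⟩
      rw [N1_add_neg l y]
      exact hy
  rw [h1]
  exact D6_lattice.add_left_of_isCompact hK

/-- the derivative of the inverse chart is injective on tangent vectors -/
theorem D6_inj {M : Sub d} {W : Set (Vec d)} {ρ : ℝ} {g : Vec m → Vec d} {g' : Vec d → Vec m}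
    (hg : MChart M m W ρ g g') {x v : Vec d} (hx : x ∈ M.N) (hW : x ∈ W) (hv : IsTangent M x v)
    (h0 : fderiv ℝ g' x v = 0) : v = 0 := by
  have hb := (hg.right x ⟨hx, hW⟩).1
  have hgd : DifferentiableAt ℝ g (g' x) :=
    (hg.smooth.contDiffAt (Metric.isOpen_ball.mem_nhds hb)).differentiableAt (by simp)
  have hgd' : DifferentiableAt ℝ g' x :=
    (hg.smooth'.contDiffAt (hg.isOpen.mem_nhds hW)).differentiableAt (by simp)
  have hrx : M.r x = x := r_self M hx
  have hr := D6_diff M (M.sub hx)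
  have h1 : (fun y => g (g' (M.r y))) =ᶠ[𝓝 x] M.r := by
    have hc : ContinuousAt M.r x := hr.continuousAt
    have h2 : ∀ᶠ y in 𝓝 x, M.r y ∈ W := by
      apply hc
      rw [hrx]
      exact hg.isOpen.mem_nhds hW
    filter_upwards [M.isOpen.mem_nhds (M.sub hx), h2] with y hy hy2
    exact (hg.right _ ⟨M.mem y hy, hy2⟩).2
  have h2 := h1.fderiv_eq (𝕜 := ℝ)
  have hgd'' : HasFDerivAt g' (fderiv ℝ g' x) (M.r x) := by
    rw [hrx]
    exact hgd'.hasFDerivAt
  have hgd3 : HasFDerivAt g (fderiv ℝ g (g' x)) (g' (M.r x)) := by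
    rw [hrx]
    exact hgd.hasFDerivAt
  have h3 : HasFDerivAt (fun y => g (g' (M.r y)))
      ((fderiv ℝ g (g' x)).comp ((fderiv ℝ g' x).comp (fderiv ℝ M.r x))) x :=
    hgd3.comp x (hgd''.comp x hr.hasFDerivAt)
  rw [h3.fderiv] at h2
  have h4 := congrArg (fun L : Vec d →L[ℝ] Vec d => L v) h2
  simp only [ContinuousLinearMap.comp_apply] at h4
  unfold IsTangent at hv
  rw [hv, h0, map_zero] at h4
  exact h4.symm

theorem qnew_riem {M : Sub d} {j : ℕ∞} {q : Vec d → Vec d →L[ℝ] Vec d →L[ℝ] ℝ} (hq : IsRiemannian M j q)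
    {W : Set (Vec d)} {ρ s : ℝ} {g : Vec m → Vec d} {g' : Vec d → Vec m} (hg : MChart M m W ρ g g')
    (A : Vec m ≃L[ℝ] Vec m) (hs : 0 < s) {w : Vec m → ℝ} (hw : ContDiff ℝ ∞ w) (hw1 : ∀ z, 0 < w z) :
    IsRiemannian M j (qnew q W ρ s g' A w) := by
  have hρ := hg.pos
  have hj : (j : WithTop ℕ∞) ≤ ∞ := by exact_mod_cast le_top
  constructor
  · -- smooth
    intro p0 hp0
    have hx0 : p0.1 ∈ M.U := hp0
    apply ContDiffAt.contDiffWithinAt
    have hUo : IsOpen {p : Vec d × Vec d × Vec d | p.1 ∈ M.U} := M.isOpen.preimage continuous_fst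
    have hrc : ContDiffAt ℝ ∞ (fun p : Vec d × Vec d × Vec d => M.r p.1) p0 :=
      (D6_at M hx0).comp p0 contDiffAt_fst
    have hfd : ContDiffAt ℝ ∞ (fun p : Vec d × Vec d × Vec d => fderiv ℝ M.r p.1) p0 :=
      (D6_fd (D6_at M hx0)).comp p0 contDiffAt_fst
    have hu : ContDiffAt ℝ ∞ (fun p : Vec d × Vec d × Vec d => fderiv ℝ M.r p.1 p.2.1) p0 :=
      hfd.clm_apply (contDiffAt_fst.comp p0 contDiffAt_snd)
    have hv : ContDiffAt ℝ ∞ (fun p : Vec d × Vec d × Vec d => fderiv ℝ M.r p.1 p.2.2) p0 :=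
      hfd.clm_apply (contDiffAt_snd.comp p0 contDiffAt_snd)
    have hqc := hq.smooth.contDiffAt (hUo.mem_nhds hp0)
    by_cases hex : ∃ l : Fin d → ℤ, M.r p0.1 + vz l ∈ W
    · obtain ⟨l, hl⟩ := hex
      have hyc : ContDiffAt ℝ ∞ (fun p : Vec d × Vec d × Vec d => M.r p.1 + vz l) p0 :=
        hrc.add contDiffAt_const
      have hgc : ContDiffAt ℝ ∞ g' (M.r p0.1 + vz l) :=
        hg.smooth'.contDiffAt (hg.isOpen.mem_nhds hl)
      have hgy : ContDiffAt ℝ ∞ (fun p : Vec d × Vec d × Vec d => g' (M.r p.1 + vz l)) p0 :=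
        ContDiffAt.comp p0 hgc hyc
      have hdy : ContDiffAt ℝ ∞ (fun p : Vec d × Vec d × Vec d => fderiv ℝ g' (M.r p.1 + vz l)) p0 :=
        ContDiffAt.comp p0 (D6_fd hgc) hyc
      have hcb : ContDiffAt ℝ ∞ (fun p : Vec d × Vec d × Vec d => cb ρ (g' (M.r p.1 + vz l))) p0 :=
        ContDiffAt.comp (g := cb ρ) p0 (D6_cb_smooth ρ).contDiffAt hgy
      have hwc : ContDiffAt ℝ ∞
          (fun p : Vec d × Vec d × Vec d => w (s⁻¹ • A.symm (g' (M.r p.1 + vz l)))) p0 := by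
        refine ContDiffAt.comp p0 hw.contDiffAt ?_
        exact ContDiffAt.const_smul s⁻¹ (ContDiffAt.comp p0 A.symm.contDiff.contDiffAt hgy)
      have hin : ContDiffAt ℝ ∞ (fun p : Vec d × Vec d × Vec d =>
          inner ℝ (A.symm (fderiv ℝ g' (M.r p.1 + vz l) (fderiv ℝ M.r p.1 p.2.1)))
            (A.symm (fderiv ℝ g' (M.r p.1 + vz l) (fderiv ℝ M.r p.1 p.2.2)))) p0 := by
        refine ContDiffAt.inner ℝ ?_ ?_
        · exact ContDiffAt.comp p0 A.symm.contDiff.contDiffAt (hdy.clm_apply hu)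
        · exact ContDiffAt.comp p0 A.symm.contDiff.contDiffAt (hdy.clm_apply hv)
      have hmain : ContDiffAt ℝ j (fun p : Vec d × Vec d × Vec d =>
          cb ρ (g' (M.r p.1 + vz l)) * w (s⁻¹ • A.symm (g' (M.r p.1 + vz l))) ^ 2 *
            inner ℝ (A.symm (fderiv ℝ g' (M.r p.1 + vz l) (fderiv ℝ M.r p.1 p.2.1)))
              (A.symm (fderiv ℝ g' (M.r p.1 + vz l) (fderiv ℝ M.r p.1 p.2.2))) +
            (1 - cb ρ (g' (M.r p.1 + vz l))) *
              q (M.r p.1) (fderiv ℝ M.r p.1 p.2.1) (fderiv ℝ M.r p.1 p.2.2)) p0 := by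
        refine ContDiffAt.add (((hcb.mul (hwc.pow 2)).mul hin).of_le hj) ?_
        exact ((contDiffAt_const.sub hcb).of_le hj).mul hqc
      refine hmain.congr_of_eventuallyEq ?_
      have hWn : ∀ᶠ p : Vec d × Vec d × Vec d in 𝓝 p0, M.r p.1 + vz l ∈ W :=
        hyc.continuousAt.eventually (hg.isOpen.mem_nhds hl)
      filter_upwards [hUo.mem_nhds hp0, hWn] with p hp hpW
      rw [D6_in hg.small q ρ s g' A w hpW, D6_qloc, hq.periodic l _ (M.mem p.1 hp) _ _
        (D6_rr M hp _) (D6_rr M hp _)]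
    · refine hqc.congr_of_eventuallyEq ?_
      have hKc : IsCompact (g '' Metric.closedBall 0 (3 * ρ / 4)) := by
        refine (isCompact_closedBall _ _).image_of_continuousOn (hg.smooth.continuousOn.mono ?_)
        exact Metric.closedBall_subset_ball (by linarith)
      have hKn : M.r p0.1 ∉ {x : Vec d | ∃ l : Fin d → ℤ, x + vz l ∈
          g '' Metric.closedBall 0 (3 * ρ / 4)} := by
        rintro ⟨l, z, hz, hzl⟩
        apply hex
        refine ⟨l, ?_⟩
        rw [← hzl]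
        exact (hg.maps z (Metric.closedBall_subset_ball (by linarith) hz)).2
      have hn := (D6_closed hKc).isOpen_compl.mem_nhds hKn
      have hn2 := hrc.continuousAt.eventually hn
      filter_upwards [hUo.mem_nhds hp0, hn2] with p hp hpK
      by_cases hex2 : ∃ l : Fin d → ℤ, M.r p.1 + vz l ∈ W
      · obtain ⟨l, hl⟩ := hex2
        have hN : M.r p.1 + vz l ∈ M.N := M.perN l _ (M.mem p.1 hp)
        have hcb0 : cb ρ (g' (M.r p.1 + vz l)) = 0 := by
          apply D6_cb_zero hρ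
          by_contra hlt
          push Not at hlt
          apply hpK
          refine ⟨l, g' (M.r p.1 + vz l), ?_, (hg.right _ ⟨hN, hl⟩).2⟩
          rw [Metric.mem_closedBall, dist_zero_right]
          exact hlt.le
        rw [D6_in hg.small q ρ s g' A w hl, D6_qloc, hcb0, hq.periodic l _ (M.mem p.1 hp) _ _
          (D6_rr M hp _) (D6_rr M hp _)]
        ring
      · rw [D6_out q ρ s g' A w hex2]
  · -- periodic
    intro k x hx u v hu hv
    by_cases hex : ∃ l : Fin d → ℤ, x + vz l ∈ W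
    · obtain ⟨l, hl⟩ := hex
      have h1 : x + vz k + vz (l + -k) = x + vz l := by
        rw [vz_add', vz_neg']
        abel
      have h2 : x + vz k + vz (l + -k) ∈ W := by
        rw [h1]
        exact hl
      rw [D6_in hg.small q ρ s g' A w hl, D6_in hg.small q ρ s g' A w h2, h1]
    · have hex2 : ¬ ∃ l : Fin d → ℤ, x + vz k + vz l ∈ W := by
        rintro ⟨l, hl⟩
        apply hex
        refine ⟨k + l, ?_⟩
        rw [vz_add', ← add_assoc]
        exact hl
      rw [D6_out q ρ s g' A w hex, D6_out q ρ s g' A w hex2]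
      exact hq.periodic k x hx u v hu hv
  · -- symm
    intro x hx u v hu hv
    by_cases hex : ∃ l : Fin d → ℤ, x + vz l ∈ W
    · obtain ⟨l, hl⟩ := hex
      rw [D6_in hg.small q ρ s g' A w hl, D6_qloc, D6_qloc, hq.periodic l x hx u v hu hv,
        hq.periodic l x hx v u hv hu, hq.symm x hx u v hu hv, real_inner_comm]
    · rw [D6_out q ρ s g' A w hex]
      exact hq.symm x hx u v hu hv
  · -- pos
    intro x hx v hv hv0
    have hQ := hq.pos x hx v hv hv0
    by_cases hex : ∃ l : Fin d → ℤ, x + vz l ∈ W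
    · obtain ⟨l, hl⟩ := hex
      rw [D6_in hg.small q ρ s g' A w hl, D6_qloc, hq.periodic l x hx v v hv hv]
      have hne : A.symm (fderiv ℝ g' (x + vz l) v) ≠ 0 := by
        intro h
        apply hv0
        apply D6_inj hg (M.perN l x hx) hl (D6_tangent hx hv l)
        exact (map_eq_zero_iff A.symm A.symm.injective).1 h
      have hin : 0 < inner ℝ (A.symm (fderiv ℝ g' (x + vz l) v)) (A.symm (fderiv ℝ g' (x + vz l) v)) := by
        rw [real_inner_self_eq_norm_sq]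
        have := norm_pos_iff.2 hne
        positivity
      have hw2 := hw1 (s⁻¹ • A.symm (g' (x + vz l)))
      obtain ⟨hc0, hc1⟩ := D6_cb01 ρ (g' (x + vz l))
      rcases hc0.eq_or_lt with hc | hc
      · rw [← hc]
        simpa using hQ
      · have h1 : 0 < cb ρ (g' (x + vz l)) * w (s⁻¹ • A.symm (g' (x + vz l))) ^ 2 *
            inner ℝ (A.symm (fderiv ℝ g' (x + vz l) v)) (A.symm (fderiv ℝ g' (x + vz l) v)) := by
          positivity
        have h2 : 0 ≤ (1 - cb ρ (g' (x + vz l))) * q x v v := mul_nonneg (by linarith) hQ.le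
        linarith
    · rw [D6_out q ρ s g' A w hex]
      exact hQ

end EscW.Dn
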