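import Pool.Agent.EscW.CFDefs
import Pool.Agent.EscW.D6

set_option autoImplicit false

/-!
Project EscW, part O, conformal version, module CF6: conformal factors on `M`.
`wM_at`: `g (s • A Y) + vz 0 ∈ W`, and two integer vectors `l`, `l'` with `p + vz l, p + vz l' ∈ W` are equal (`MChart.small`: `dist < 1`, so the integer vector `l - l'` has norm `< 1`); `g' (g (s • A Y)) = s • A Y`.
`wM_conf`, `smooth` at `x0 ∈ M.U`, `p0 = M.r x0`: if `p0 + vz l ∈ W`: near `x0`, `M.r x + vz l ∈ W` and `wM (M.r x) = w (s⁻¹ • A.symm (g' (M.r x + vz l)))²`, smooth. If there is no such `l`: `K = g (closed ball of radius 2 s ‖A‖ < ρ)` is compact, contained in `W`, so `p0 ∉ K + ℤᵈ`, which is closed; for `p ∈ M.N` near `p0` with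
`p + vz l ∈ W`: `Y = s⁻¹ • A.symm (g' (p + vz l))` has `‖Y‖ > 2` (if not, `g' (p + vz l) = s • A Y` is in the closed ball and `p + vz l = g (g' ..) ∈ K`), so `wM p = 1` near `p0`. See module D6 (`qnew_riem`), which does the same for `qnew` (read `Pool/Agent/EscW/D6.lean`). `periodic`, `near` (`0 ≤ ε` from `hwε`), `pos`, `off`: clear.
`conf_riem`: product.
-/

noncomputable section

namespace EscW.On

open Filter Topology Set EscF.T EscM EscMT MeasureTheory EscW.Ex EscW.Dn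
open scoped ContDiff

variable {d m k j n : ℕ}

theorem CF6_in {W : Set (Vec d)} (hW : ∀ x ∈ W, ∀ y ∈ W, dist x y < 1) (s : ℝ) (g' : Vec d → Vec m)
    (A : Vec m ≃L[ℝ] Vec m) (w : Vec m → ℝ) {x : Vec d} {l : Fin d → ℤ} (h : x + vz l ∈ W) :
    wM W s g' A w x = w (s⁻¹ • A.symm (g' (x + vz l))) ^ 2 := by
  have h1 : ∃ l : Fin d → ℤ, x + vz l ∈ W := ⟨l, h⟩
  unfold wM
  rw [dif_pos h1, D6_vz_inj hW h1.choose_spec h]

theorem CF6_out {W : Set (Vec d)} (s : ℝ) (g' : Vec d → Vec m) (A : Vec m ≃L[ℝ] Vec m) (w : Vec m → ℝ)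
    {x : Vec d} (h : ¬ ∃ l : Fin d → ℤ, x + vz l ∈ W) : wM W s g' A w x = 1 := by
  unfold wM
  rw [dif_neg h]

theorem wM_at {M : Sub d} {W : Set (Vec d)} {ρ : ℝ} {g : Vec m → Vec d} {g' : Vec d → Vec m} (hg : MChart M m W ρ g g')
    (A : Vec m ≃L[ℝ] Vec m) {s : ℝ} (hs : 0 < s) (w : Vec m → ℝ) {Y : Vec m}
    (hY : ‖s • A Y‖ < ρ) : wM W s g' A w (g (s • A Y)) = w Y ^ 2 := by
  have hb : s • A Y ∈ Metric.ball (0 : Vec m) ρ := by
    rw [mem_ball_zero_iff]
    exact hY
  have h0 : (vz (0 : Fin d → ℤ) : Vec d) = 0 := vz_zero'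
  have h1 : g (s • A Y) + vz (0 : Fin d → ℤ) ∈ W := by
    rw [h0, add_zero]
    exact (hg.maps _ hb).2
  rw [CF6_in hg.small s g' A w h1, h0, add_zero, hg.left _ hb, map_smul, smul_smul,
    inv_mul_cancel₀ hs.ne', one_smul, ContinuousLinearEquiv.symm_apply_apply]

theorem wM_conf {M : Sub d} {W : Set (Vec d)} {ρ : ℝ} {g : Vec m → Vec d} {g' : Vec d → Vec m} (hg : MChart M m W ρ g g')
    (A : Vec m ≃L[ℝ] Vec m) {s : ℝ} (hs : 0 < s)
    (hsA : s * (‖(A : Vec m →L[ℝ] Vec m)‖ * 2) < ρ) {w : Vec m → ℝ} (hw : ContDiff ℝ ∞ w)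
    (hwp : ∀ Y, 0 < w Y) (hw1 : ∀ Y, 2 ≤ ‖Y‖ → w Y = 1) {ε : ℝ} (hwε : ∀ Y, |w Y ^ 2 - 1| ≤ ε)
    {W0 : Set (Vec d)} (hW : W ⊆ W0) : IsConf M W0 ε (wM W s g' A w) := by
  constructor
  · intro x0 hx0
    apply ContDiffAt.contDiffWithinAt
    have hrc : ContDiffAt ℝ ∞ M.r x0 := D6_at M hx0
    by_cases hex : ∃ l : Fin d → ℤ, M.r x0 + vz l ∈ W
    · obtain ⟨l, hl⟩ := hex
      have hyc : ContDiffAt ℝ ∞ (fun x : Vec d => M.r x + vz l) x0 := hrc.add contDiffAt_const
      have hgc : ContDiffAt ℝ ∞ g' (M.r x0 + vz l) :=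
        hg.smooth'.contDiffAt (hg.isOpen.mem_nhds hl)
      have hgy : ContDiffAt ℝ ∞ (fun x : Vec d => g' (M.r x + vz l)) x0 := ContDiffAt.comp x0 hgc hyc
      have hwc : ContDiffAt ℝ ∞ (fun x : Vec d => w (s⁻¹ • A.symm (g' (M.r x + vz l)))) x0 := by
        refine ContDiffAt.comp x0 hw.contDiffAt ?_
        exact ContDiffAt.const_smul s⁻¹ (ContDiffAt.comp x0 A.symm.contDiff.contDiffAt hgy)
      refine (hwc.pow 2).congr_of_eventuallyEq ?_
      have hWn : ∀ᶠ x : Vec d in 𝓝 x0, M.r x + vz l ∈ W :=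
        hyc.continuousAt.eventually (hg.isOpen.mem_nhds hl)
      filter_upwards [hWn] with x hx
      exact CF6_in hg.small s g' A w hx
    · refine (contDiffAt_const (c := (1 : ℝ))).congr_of_eventuallyEq ?_
      have hKc : IsCompact (g '' Metric.closedBall 0 (s * (‖(A : Vec m →L[ℝ] Vec m)‖ * 2))) := by
        refine (isCompact_closedBall _ _).image_of_continuousOn (hg.smooth.continuousOn.mono ?_)
        exact Metric.closedBall_subset_ball hsA
      have hKn : M.r x0 ∉ {x : Vec d | ∃ l : Fin d → ℤ, x + vz l ∈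
          g '' Metric.closedBall 0 (s * (‖(A : Vec m →L[ℝ] Vec m)‖ * 2))} := by
        rintro ⟨l, z, hz, hzl⟩
        apply hex
        refine ⟨l, ?_⟩
        rw [← hzl]
        exact (hg.maps z (Metric.closedBall_subset_ball hsA hz)).2
      have hn := (D6_closed hKc).isOpen_compl.mem_nhds hKn
      have hn2 := hrc.continuousAt.eventually hn
      filter_upwards [M.isOpen.mem_nhds hx0, hn2] with x hxU hxK
      by_cases hex2 : ∃ l : Fin d → ℤ, M.r x + vz l ∈ W
      · obtain ⟨l, hl⟩ := hex2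
        have hN : M.r x + vz l ∈ M.N := M.perN l _ (M.mem x hxU)
        rw [CF6_in hg.small s g' A w hl, hw1, one_pow]
        by_contra hlt
        push Not at hlt
        apply hxK
        refine ⟨l, g' (M.r x + vz l), ?_, (hg.right _ ⟨hN, hl⟩).2⟩
        rw [Metric.mem_closedBall, dist_zero_right]
        have h1 : g' (M.r x + vz l) = s • A (s⁻¹ • A.symm (g' (M.r x + vz l))) := by
          rw [map_smul, ContinuousLinearEquiv.apply_symm_apply, smul_smul, mul_inv_cancel₀ hs.ne', one_smul]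
        rw [h1, norm_smul, Real.norm_eq_abs, abs_of_pos hs]
        refine mul_le_mul_of_nonneg_left ?_ hs.le
        exact ((A : Vec m →L[ℝ] Vec m).le_opNorm _).trans
          (mul_le_mul_of_nonneg_left hlt.le (norm_nonneg _))
      · exact CF6_out s g' A w hex2
  · intro k x hx
    by_cases hex : ∃ l : Fin d → ℤ, x + vz l ∈ W
    · obtain ⟨l, hl⟩ := hex
      have h1 : x + vz k + vz (l + -k) = x + vz l := by
        rw [vz_add', vz_neg']
        abel
      have h2 : x + vz k + vz (l + -k) ∈ W := by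
        rw [h1]
        exact hl
      rw [CF6_in hg.small s g' A w hl, CF6_in hg.small s g' A w h2, h1]
    · have hex2 : ¬ ∃ l : Fin d → ℤ, x + vz k + vz l ∈ W := by
        rintro ⟨l, hl⟩
        apply hex
        refine ⟨k + l, ?_⟩
        rw [vz_add', ← add_assoc]
        exact hl
      rw [CF6_out s g' A w hex, CF6_out s g' A w hex2]
  · intro x _
    by_cases hex : ∃ l : Fin d → ℤ, x + vz l ∈ W
    · obtain ⟨l, hl⟩ := hex
      rw [CF6_in hg.small s g' A w hl]
      exact hwε _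
    · rw [CF6_out s g' A w hex, sub_self, abs_zero]
      exact (abs_nonneg _).trans (hwε 0)
  · intro x _
    by_cases hex : ∃ l : Fin d → ℤ, x + vz l ∈ W
    · obtain ⟨l, hl⟩ := hex
      rw [CF6_in hg.small s g' A w hl]
      exact pow_pos (hwp _) 2
    · rw [CF6_out s g' A w hex]
      exact one_pos
  · intro x _ hx
    refine CF6_out s g' A w ?_
    rintro ⟨l, hl⟩
    exact hx l (hW hl)

theorem conf_riem {M : Sub d} {i : ℕ∞} {q : Vec d → Vec d →L[ℝ] Vec d →L[ℝ] ℝ} (hq : IsRiemannian M i q)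
    {W0 : Set (Vec d)} {ε : ℝ} {w : Vec d → ℝ} (hw : IsConf M W0 ε w) :
    IsRiemannian M i (fun p => w p • q p) := by
  have hi : (i : WithTop ℕ∞) ≤ ∞ := by exact_mod_cast le_top
  constructor
  · have h1 : ContDiffOn ℝ i (fun p : Vec d × Vec d × Vec d => w (M.r p.1)) {p | p.1 ∈ M.U} :=
      (hw.smooth.of_le hi).comp contDiff_fst.contDiffOn fun p hp => hp
    exact h1.mul hq.smooth
  · intro k x hx u v hu hv
    simp only [smul_apply, smul_eq_mul]
    rw [hw.periodic k x hx, hq.periodic k x hx u v hu hv]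
  · intro x hx u v hu hv
    simp only [smul_apply, smul_eq_mul]
    rw [hq.symm x hx u v hu hv]
  · intro x hx v hv hv0
    simp only [smul_apply, smul_eq_mul]
    exact mul_pos (hw.pos x hx) (hq.pos x hx v hv hv0)

end EscW.On
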