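import Pool.Agent.EscW.D2

set_option autoImplicit false

/-!
Project EscW, part D, module D4: the covering chart.
As `E6` (part E): `φ X = g (s • A (em δ X))`, `‖s • A (em δ X)‖ ≤ s ‖A‖ emB ≤ ρ / 2`. Group `⊥`: `P = 1`. `fibre`: if `φ Y = φ X + vz l`, both in `W`, then `l = 0` (`small`), apply `g'`: `em δ X = em δ Y`, `em_inj`; converse `em_per`. `inverse`:
`ψ w = gi (s⁻¹ • A⁻¹ (g' w))`.
-/

noncomputable section

namespace EscW.Dn

open Filter Topology Set EscF.T EscM EscMT MeasureTheory EscW.Ex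
open scoped ContDiff

variable {d m n : ℕ}

theorem D4_vz {l : Fin d → ℤ} (h : ‖(vz l : Vec d)‖ < 1) : l = 0 := by
  funext i
  have h1 : ‖(vz l : Vec d) i‖ ≤ ‖(vz l : Vec d)‖ := PiLp.norm_apply_le _ i
  have h2 : (vz l : Vec d) i = (l i : ℝ) := rfl
  rw [h2, Real.norm_eq_abs] at h1
  have h3 : |(l i : ℝ)| < 1 := lt_of_le_of_lt h1 h
  have h4 : |l i| < 1 := by exact_mod_cast h3
  simpa using Int.abs_lt_one_iff.1 h4

theorem D4_vz0 : (vz (0 : Fin d → ℤ) : Vec d) = 0 := by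
  ext i
  simp [vz]

theorem D4_vz_eq {l : Fin d → ℤ} (h : (vz l : Vec d) = 0) : l = 0 :=
  D4_vz (by rw [h, norm_zero]; norm_num)

theorem phi_mem {M : Sub d} {W : Set (Vec d)} {ρ : ℝ} {g : Vec (n + 3) → Vec d}
    {g' : Vec d → Vec (n + 3)} (hg : MChart M (n + 3) W ρ g g') (A : Vec (n + 3) ≃L[ℝ] Vec (n + 3)) {δ s : ℝ}
    (hδ : 0 < δ) (h8 : δ ≤ 1 / 8) (hs : 0 < s)
    (hsA : s * (‖(A : Vec (n + 3) →L[ℝ] Vec (n + 3))‖ * emB n) ≤ ρ / 2) (X : Vec (n + 3)) :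
    ‖s • A (em δ X)‖ ≤ ρ / 2 ∧ g (s • A (em δ X)) ∈ M.N ∩ W ∧ g' (g (s • A (em δ X))) = s • A (em δ X) := by
  have hρ := hg.pos
  have h1 : ‖s • A (em δ X)‖ ≤ ρ / 2 := by
    rw [norm_smul, Real.norm_of_nonneg hs.le]
    have h2 : ‖A (em δ X)‖ ≤ ‖(A : Vec (n + 3) →L[ℝ] Vec (n + 3))‖ * emB n :=
      le_trans ((A : Vec (n + 3) →L[ℝ] Vec (n + 3)).le_opNorm (em δ X))
        (mul_le_mul_of_nonneg_left (em_bd hδ h8 X) (norm_nonneg _))
    exact le_trans (mul_le_mul_of_nonneg_left h2 hs.le) hsA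
  have h3 : s • A (em δ X) ∈ Metric.ball (0 : Vec (n + 3)) ρ := by
    rw [mem_ball_zero_iff]
    linarith
  exact ⟨h1, hg.maps _ h3, hg.left _ h3⟩

theorem D4_l {M : Sub d} {W : Set (Vec d)} {ρ : ℝ} {g : Vec (n + 3) → Vec d}
    {g' : Vec d → Vec (n + 3)} (hg : MChart M (n + 3) W ρ g g') (A : Vec (n + 3) ≃L[ℝ] Vec (n + 3)) {δ s : ℝ}
    (hδ : 0 < δ) (h8 : δ ≤ 1 / 8) (hs : 0 < s)
    (hsA : s * (‖(A : Vec (n + 3) →L[ℝ] Vec (n + 3))‖ * emB n) ≤ ρ / 2) (X Y : Vec (n + 3))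
    (l : Fin d → ℤ) (h : g (s • A (em δ Y)) = g (s • A (em δ X)) + vz l) : l = 0 := by
  have h1 : dist (g (s • A (em δ Y))) (g (s • A (em δ X))) < 1 :=
    hg.small _ (phi_mem hg A hδ h8 hs hsA Y).2.1.2 _ (phi_mem hg A hδ h8 hs hsA X).2.1.2
  apply D4_vz
  rw [h, dist_eq_norm, add_sub_cancel_left] at h1
  exact h1

theorem D4_inv {s : ℝ} (hs : 0 < s) (A : Vec (n + 3) ≃L[ℝ] Vec (n + 3)) (z : Vec (n + 3)) :
    s⁻¹ • A.symm (s • A z) = z := by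
  rw [map_smul, A.symm_apply_apply, smul_smul, inv_mul_cancel₀ hs.ne', one_smul]

theorem D4_inv' {s : ℝ} (hs : 0 < s) (A : Vec (n + 3) ≃L[ℝ] Vec (n + 3)) (z : Vec (n + 3)) :
    s • A (s⁻¹ • A.symm z) = z := by
  rw [map_smul, A.apply_symm_apply, smul_smul, mul_inv_cancel₀ hs.ne', one_smul]

theorem phi_inj {M : Sub d} {W : Set (Vec d)} {ρ : ℝ} {g : Vec (n + 3) → Vec d}
    {g' : Vec d → Vec (n + 3)} (hg : MChart M (n + 3) W ρ g g') (A : Vec (n + 3) ≃L[ℝ] Vec (n + 3)) {δ s : ℝ}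
    (hδ : 0 < δ) (h8 : δ ≤ 1 / 8) (hs : 0 < s)
    (hsA : s * (‖(A : Vec (n + 3) →L[ℝ] Vec (n + 3))‖ * emB n) ≤ ρ / 2) (X Y : Vec (n + 3))
    (l : Fin d → ℤ) (h : g (s • A (em δ Y)) = g (s • A (em δ X)) + vz l) : em δ X = em δ Y := by
  have hl := D4_l hg A hδ h8 hs hsA X Y l h
  rw [hl, D4_vz0, add_zero] at h
  have h3 : s • A (em δ Y) = s • A (em δ X) := by
    rw [← (phi_mem hg A hδ h8 hs hsA Y).2.2, ← (phi_mem hg A hδ h8 hs hsA X).2.2, h]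
  rw [← D4_inv hs A (em δ X), ← D4_inv hs A (em δ Y), h3]

theorem exists_chart {M : Sub d} {W : Set (Vec d)} {ρ : ℝ} {g : Vec (n + 3) → Vec d}
    {g' : Vec d → Vec (n + 3)} (hg : MChart M (n + 3) W ρ g g') (A : Vec (n + 3) ≃L[ℝ] Vec (n + 3)) {δ s : ℝ}
    (hδ : 0 < δ) (h8 : δ ≤ 1 / 8) (hs : 0 < s)
    (hsA : s * (‖(A : Vec (n + 3) →L[ℝ] Vec (n + 3))‖ * emB n) ≤ ρ / 2) :
    IsChart M (tor (n + 3)) (SO n) ⊥ (fun X => g (s • A (em δ X))) := by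
  have hmem := phi_mem hg A hδ h8 hs hsA
  have hρ := hg.pos
  have hball : ∀ X : Vec (n + 3), s • A (em δ X) ∈ Metric.ball (0 : Vec (n + 3)) ρ := by
    intro X
    rw [mem_ball_zero_iff]
    have := (hmem X).1
    linarith
  refine ⟨?_, ?_, fun _ _ _ _ => mem_univ _, ?_, SO_open, fun k x hx => SO_per k hx, ?_, ?_, ?_, ?_, ?_⟩
  · rw [Subgroup.coe_bot]
    exact finite_singleton _
  · intro P hP k
    rw [Subgroup.mem_bot] at hP
    subst hP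
    exact ⟨k, rfl⟩
  · intro P hP x hx
    rw [Subgroup.mem_bot] at hP
    subst hP
    exact hx
  · intro P hP k x _ h
    rw [Subgroup.mem_bot] at hP
    subst hP
    refine ⟨rfl, D4_vz_eq ?_⟩
    have h1 : x + vz k = x := h
    simpa using h1
  · intro x _
    have h1 : ContDiffAt ℝ ∞ g (s • A (em δ x)) :=
      hg.smooth.contDiffAt (Metric.isOpen_ball.mem_nhds (hball x))
    have h2 : ContDiff ℝ ∞ (fun X : Vec (n + 3) => s • A (em δ X)) :=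
      (A.contDiff.comp (em_smooth δ)).const_smul s
    exact (ContDiffAt.comp x h1 h2.contDiffAt).contDiffWithinAt
  · intro x _
    exact (hmem x).2.1.1
  · intro x hx y hy
    constructor
    · rintro ⟨l, hl⟩
      have h4 : em δ x = em δ y := phi_inj hg A hδ h8 hs hsA x y l hl
      obtain ⟨k, hk⟩ := em_inj hδ h8 hx.2 hy.2 h4
      exact ⟨1, Subgroup.one_mem _, k, hk⟩
    · rintro ⟨P, hP, k, hk⟩
      rw [Subgroup.mem_bot] at hP
      subst hP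
      have hk' : y = x + vz k := hk
      refine ⟨0, ?_⟩
      show g (s • A (em δ y)) = g (s • A (em δ x)) + vz 0
      rw [hk', em_per, D4_vz0, add_zero]
  · intro x hx
    obtain ⟨gi, h1, h3, h4⟩ := em_inverse hδ h8 hx.2
    have h2 : gi (em δ x) = x := h3.self_of_nhds
    have hWx : W ∈ 𝓝 (g (s • A (em δ x))) := hg.isOpen.mem_nhds (hmem x).2.1.2
    have hx' : s⁻¹ • A.symm (g' (g (s • A (em δ x)))) = em δ x := by rw [(hmem x).2.2, D4_inv hs]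
    have hs1 : ContDiffAt ℝ ∞ (fun w => s⁻¹ • A.symm (g' w)) (g (s • A (em δ x))) :=
      (A.symm.contDiff.contDiffAt.comp _ (hg.smooth'.contDiffAt hWx)).const_smul _
    have hψ : ContDiffAt ℝ ∞ (fun w => gi (s⁻¹ • A.symm (g' w))) (g (s • A (em δ x))) := by
      have h1' : ContDiffAt ℝ ∞ gi (s⁻¹ • A.symm (g' (g (s • A (em δ x))))) := by rw [hx']; exact h1
      exact ContDiffAt.comp (g (s • A (em δ x))) h1' hs1
    refine ⟨fun w => gi (s⁻¹ • A.symm (g' w)), hψ, ?_, ?_⟩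
    · filter_upwards [h3] with y hy3 _
      show gi (s⁻¹ • A.symm (g' (g (s • A (em δ y))))) = y
      rw [(hmem y).2.2, D4_inv hs, hy3]
    · have hc : Tendsto (fun w => gi (s⁻¹ • A.symm (g' w))) (𝓝 (g (s • A (em δ x)))) (𝓝 x) := by
        have := hψ.continuousAt.tendsto
        simpa only [hx', h2] using this
      have hc2 : Tendsto (fun w => s⁻¹ • A.symm (g' w)) (𝓝 (g (s • A (em δ x)))) (𝓝 (em δ x)) := by
        have := hs1.continuousAt.tendsto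
        simpa only [hx'] using this
      filter_upwards [hWx, hc.eventually ((SO_open (n := n)).mem_nhds hx.2), hc2.eventually h4]
        with w hw hw1 hw2 hwN
      refine ⟨⟨mem_univ _, hw1⟩, ?_⟩
      show g (s • A (em δ (gi (s⁻¹ • A.symm (g' w))))) = w
      rw [hw2, D4_inv' hs, (hg.right w ⟨hwN, hw⟩).2]

end EscW.Dn
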