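import Pool.Agent.EscW.D2
import Pool.Agent.EscW.E14

set_option autoImplicit false

/-!
Project EscW, part D, module D10: the room: second direction and exit.
-/

noncomputable section

namespace EscW.Dn

open Filter Topology Set EscF.T EscM EscMT MeasureTheory EscW.Ex
open scoped ContDiff

variable {d m n : ℕ}

theorem st_bd : ∃ C0 : ℝ, 1 ≤ C0 ∧ ∀ t, |deriv Real.smoothTransition t| ≤ C0 := by
  obtain ⟨C, -, h1, -⟩ := st_deriv
  exact ⟨max 1 C, le_max_left _ _, fun t => (h1 t).trans (le_max_right _ _)⟩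

/-! ### the derivative of `qq` -/

theorem D10_coord (i : Fin (n + 3)) (X : Vec (n + 3)) :
    HasFDerivAt (fun X : Vec (n + 3) => if i = 0 ∨ i = 1 then (0 : ℝ) else
        Real.sin (2 * Real.pi * X i) ^ 2)
      (if i = 0 ∨ i = 1 then (0 : Vec (n + 3) →L[ℝ] ℝ) else
        (4 * Real.pi * Real.sin (2 * Real.pi * X i) * Real.cos (2 * Real.pi * X i)) •
          (EuclideanSpace.proj i : Vec (n + 3) →L[ℝ] ℝ)) X := by
  by_cases h : i = 0 ∨ i = 1
  · simp only [h, if_true]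
    exact hasFDerivAt_const _ _
  · simp only [h, if_false]
    have h1 : HasFDerivAt (fun X : Vec (n + 3) => X i)
        (EuclideanSpace.proj i : Vec (n + 3) →L[ℝ] ℝ) X :=
      (EuclideanSpace.proj i : Vec (n + 3) →L[ℝ] ℝ).hasFDerivAt
    have h2 : HasDerivAt (fun y : ℝ => Real.sin (2 * Real.pi * y) ^ 2)
        (4 * Real.pi * Real.sin (2 * Real.pi * X i) * Real.cos (2 * Real.pi * X i)) (X i) := by
      have h3 : HasDerivAt (fun y : ℝ => 2 * Real.pi * y) (2 * Real.pi) (X i) := by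
        simpa using (hasDerivAt_id (X i)).const_mul (2 * Real.pi)
      exact ((h3.sin).pow 2).congr_deriv (by push_cast; ring)
    exact h2.comp_hasFDerivAt X h1

theorem D10_qq (X v : Vec (n + 3)) : fderiv ℝ qq X v = ∑ i : Fin (n + 3), if i = 0 ∨ i = 1 then 0 else
    4 * Real.pi * Real.sin (2 * Real.pi * X i) * Real.cos (2 * Real.pi * X i) * v i := by
  have h1 : HasFDerivAt (qq : Vec (n + 3) → ℝ) (∑ i : Fin (n + 3), (if i = 0 ∨ i = 1 then
      (0 : Vec (n + 3) →L[ℝ] ℝ) else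
        (4 * Real.pi * Real.sin (2 * Real.pi * X i) * Real.cos (2 * Real.pi * X i)) •
          (EuclideanSpace.proj i : Vec (n + 3) →L[ℝ] ℝ))) X :=
    HasFDerivAt.fun_sum fun i _ => D10_coord i X
  rw [h1.fderiv, ContinuousLinearMap.sum_apply]
  refine Finset.sum_congr rfl fun i _ => ?_
  by_cases h : i = 0 ∨ i = 1
  · simp only [h, if_true]
    rfl
  · simp only [h, if_false]
    rfl

theorem D10_mn_ge {δ : ℝ} (hδ : 0 < δ) (X v : Vec (n + 3)) :
    ∑ i : Fin (n + 3), (if i = 0 ∨ i = 1 then 0 else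
      4 * Real.pi * Real.cos (2 * Real.pi * X i) * v i) ^ 2 ≤ 16 / δ ^ 2 * mn δ X v := by
  have e1 : ∀ i : Fin (n + 3), (if i = 0 ∨ i = 1 then 0 else
      4 * Real.pi * Real.cos (2 * Real.pi * X i) * v i) ^ 2 ≤
      16 / δ ^ 2 * ((if i = 2 then (Real.pi * δ * Real.cos (2 * Real.pi * X 2) * v 2) ^ 2 else 0) +
        if i = 0 ∨ i = 1 ∨ i = 2 then 0 else
          (2 * Real.pi * δ * Real.cos (2 * Real.pi * X i) * v i) ^ 2) := by
    intro i
    have hpos : (0 : ℝ) ≤ 16 / δ ^ 2 := by positivity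
    by_cases h0 : i = 0 ∨ i = 1
    · rw [if_pos h0]
      have : (0 : ℝ) ^ 2 = 0 := by norm_num
      rw [this]
      refine mul_nonneg hpos (add_nonneg ?_ ?_)
      · split_ifs
        · positivity
        · exact le_rfl
      · split_ifs
        · exact le_rfl
        · positivity
    · rw [if_neg h0]
      by_cases h2 : i = 2
      · subst h2
        rw [if_pos rfl, if_pos (by simp)]
        apply le_of_eq
        field_simp
        ring
      · have h3 : ¬ (i = 0 ∨ i = 1 ∨ i = 2) := by tauto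
        rw [if_neg h2, if_neg h3, zero_add]
        have e2 : 16 / δ ^ 2 * (2 * Real.pi * δ * Real.cos (2 * Real.pi * X i) * v i) ^ 2 =
            4 * (4 * Real.pi * Real.cos (2 * Real.pi * X i) * v i) ^ 2 := by
          field_simp
          ring
        rw [e2]
        nlinarith [sq_nonneg (4 * Real.pi * Real.cos (2 * Real.pi * X i) * v i)]
  refine (Finset.sum_le_sum fun i _ => e1 i).trans ?_
  rw [← Finset.mul_sum, Finset.sum_add_distrib, Finset.sum_ite_eq' Finset.univ (2 : Fin (n + 3)),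
    if_pos (Finset.mem_univ _)]
  refine mul_le_mul_of_nonneg_left ?_ (by positivity)
  unfold mn
  nlinarith [sq_nonneg (2 * Real.pi * rr δ X * v 0), sq_nonneg (2 * Real.pi * rho δ X * v 1)]

theorem D10_dqq {δ : ℝ} (hδ : 0 < δ) {X : Vec (n + 3)} (hX : qq X ≤ 1 / 4) (v : Vec (n + 3)) :
    |fderiv ℝ qq X v| ≤ 2 / δ * √(mn δ X v) := by
  have h1 : (fderiv ℝ qq X v) ^ 2 ≤ qq X * (16 / δ ^ 2 * mn δ X v) := by
    have h2 := Finset.sum_mul_sq_le_sq_mul_sq (Finset.univ : Finset (Fin (n + 3)))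
      (fun i => if i = 0 ∨ i = 1 then 0 else Real.sin (2 * Real.pi * X i))
      (fun i => if i = 0 ∨ i = 1 then 0 else 4 * Real.pi * Real.cos (2 * Real.pi * X i) * v i)
    have e1 : (∑ i : Fin (n + 3), (if i = 0 ∨ i = 1 then 0 else Real.sin (2 * Real.pi * X i)) *
        (if i = 0 ∨ i = 1 then 0 else 4 * Real.pi * Real.cos (2 * Real.pi * X i) * v i)) =
        fderiv ℝ qq X v := by
      rw [D10_qq]
      refine Finset.sum_congr rfl fun i _ => ?_
      by_cases h : i = 0 ∨ i = 1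
      · simp only [h, if_true, zero_mul]
      · simp only [h, if_false]
        ring
    have e2 : (∑ i : Fin (n + 3), (if i = 0 ∨ i = 1 then 0 else Real.sin (2 * Real.pi * X i)) ^ 2) =
        qq X := by
      unfold qq
      refine Finset.sum_congr rfl fun i _ => ?_
      by_cases h : i = 0 ∨ i = 1
      · simp only [h, if_true]
        norm_num
      · simp only [h, if_false]
    rw [e1, e2] at h2
    exact h2.trans (mul_le_mul_of_nonneg_left (D10_mn_ge hδ X v) (qq_nonneg X))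
  have hm := mn_nonneg δ X v
  have h3 : qq X * (16 / δ ^ 2 * mn δ X v) ≤ (2 / δ * √(mn δ X v)) ^ 2 := by
    rw [mul_pow, Real.sq_sqrt hm]
    have e3 : (2 / δ) ^ 2 * mn δ X v = 1 / 4 * (16 / δ ^ 2 * mn δ X v) := by
      field_simp
      ring
    rw [e3]
    exact mul_le_mul_of_nonneg_right hX (by positivity)
  exact abs_le_of_sq_le_sq (h1.trans h3) (by positivity)

/-! ### the metric in the shell -/

theorem D10_tw {δ : ℝ} (hδ : 0 < δ) (h8 : δ ≤ 1 / 8) (ε : ℝ) (X : Vec (n + 3)) :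
    tw δ ε (em δ X) = (1 - ε) * (1 + δ) / rr δ X + tQ δ (em δ X) +
      ε / 2 * Real.smoothTransition (16 * qq X) := by
  unfold tw
  rw [tr_em hδ h8, tq_em hδ h8]

theorem D10_tQ (δ : ℝ) (Y : Vec (n + 3)) : 0 ≤ tQ δ Y := by
  unfold tQ
  have : 0 ≤ ∑ i : Fin (n + 3), if i = 0 ∨ i = 1 ∨ i = 2 then 0 else Y i ^ 2 := by
    refine Finset.sum_nonneg fun i _ => ?_
    split_ifs
    · exact le_rfl
    · positivity
  positivity

theorem D10_v0 {δ : ℝ} (X v : Vec (n + 3)) :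
    |2 * Real.pi * rr δ X * v 0| ≤ √(mn δ X v) := by
  apply Real.abs_le_sqrt
  unfold mn
  have : 0 ≤ ∑ i : Fin (n + 3), if i = 0 ∨ i = 1 ∨ i = 2 then 0 else
      (2 * Real.pi * δ * Real.cos (2 * Real.pi * X i) * v i) ^ 2 := by
    refine Finset.sum_nonneg fun i _ => ?_
    split_ifs
    · exact le_rfl
    · positivity
  nlinarith [sq_nonneg (2 * Real.pi * rho δ X * v 1),
    sq_nonneg (Real.pi * δ * Real.cos (2 * Real.pi * X 2) * v 2)]

theorem D10_low {δ ε s : ℝ} (hδ : 0 < δ) (h8 : δ ≤ 1 / 8) (hε : 0 < ε) (hε4 : ε ≤ 1 / 4) (hs : 0 < s)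
    (X v : Vec (n + 3)) :
    s * (ε / 2 * Real.smoothTransition (16 * qq X) * √(mn δ X v)) + ll δ ε s * v 0 ≤
      FM δ ε s X v := by
  have hr := (rr_bd hδ h8 X).1
  have hr0 : 0 < rr δ X := by linarith
  unfold FM ll
  rw [D10_tw hδ h8]
  have hS : 0 ≤ √(mn δ X v) := Real.sqrt_nonneg _
  have hQ := D10_tQ δ (em δ X)
  have hv : 2 * Real.pi * rr δ X * v 0 ≤ √(mn δ X v) := (le_abs_self _).trans (D10_v0 X v)
  have hA : 0 ≤ (1 - ε) * (1 + δ) := mul_nonneg (by linarith) (by linarith)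
  have h1 : (1 - ε) * (1 + δ) / rr δ X * (2 * Real.pi * rr δ X * v 0) ≤
      (1 - ε) * (1 + δ) / rr δ X * √(mn δ X v) :=
    mul_le_mul_of_nonneg_left hv (by positivity)
  have e1 : (1 - ε) * (1 + δ) / rr δ X * (2 * Real.pi * rr δ X * v 0) =
      2 * Real.pi * (1 - ε) * (1 + δ) * v 0 := by
    field_simp
  rw [e1] at h1
  have h2 : 0 ≤ tQ δ (em δ X) * √(mn δ X v) := mul_nonneg hQ hS
  have h3 : ε / 2 * Real.smoothTransition (16 * qq X) * √(mn δ X v) + 2 * Real.pi * (1 - ε) * (1 + δ) * v 0 ≤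
      ((1 - ε) * (1 + δ) / rr δ X + tQ δ (em δ X) + ε / 2 * Real.smoothTransition (16 * qq X)) *
        √(mn δ X v) := by
    linarith [add_mul ((1 - ε) * (1 + δ) / rr δ X + tQ δ (em δ X))
      (ε / 2 * Real.smoothTransition (16 * qq X)) (√(mn δ X v)),
      add_mul ((1 - ε) * (1 + δ) / rr δ X) (tQ δ (em δ X)) (√(mn δ X v))]
  have h4 := mul_le_mul_of_nonneg_left h3 hs.le
  linarith [h4]

theorem D10_bar_smooth (b : ℝ) : ContDiff ℝ ∞ (bar b : Vec (n + 3) → ℝ) := by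
  unfold bar
  exact contDiff_const.mul (Real.smoothTransition.contDiff.comp
    (((contDiff_const.mul qq_smooth).sub contDiff_const).div_const _))

theorem D10_bar_fd (b : ℝ) (X v : Vec (n + 3)) : fderiv ℝ (bar b) X v =
    b * (deriv Real.smoothTransition ((16 * qq X - 1) / 3) * (16 / 3 * fderiv ℝ qq X v)) := by
  have h1 : HasFDerivAt (qq : Vec (n + 3) → ℝ) (fderiv ℝ qq X) X :=
    ((qq_smooth.differentiable (by simp)) X).hasFDerivAt
  have h2 : HasDerivAt (fun y : ℝ => (16 * y - 1) / 3) (16 / 3) (qq X) := by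
    have h3 : HasDerivAt (fun y : ℝ => 16 * y - 1) 16 (qq X) := by
      simpa using ((hasDerivAt_id (qq X)).const_mul (16 : ℝ)).sub_const 1
    exact h3.div_const 3
  have h4 : HasDerivAt Real.smoothTransition (deriv Real.smoothTransition ((16 * qq X - 1) / 3))
      ((16 * qq X - 1) / 3) :=
    ((Real.smoothTransition.contDiff (n := 1)).differentiable (by simp) _).hasDerivAt
  have h5 := ((h4.comp (qq X) h2).const_mul b).comp_hasFDerivAt X h1
  have h6 : fderiv ℝ (bar b) X = (b * (deriv Real.smoothTransition ((16 * qq X - 1) / 3) * (16 / 3))) •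
      fderiv ℝ qq X := h5.fderiv
  rw [h6]
  show b * (deriv Real.smoothTransition ((16 * qq X - 1) / 3) * (16 / 3)) * fderiv ℝ qq X v = _
  ring

theorem D10_bar_le {δ ε s C0 : ℝ} (hδ : 0 < δ) (h8 : δ ≤ 1 / 8) (hε : 0 < ε) (hε4 : ε ≤ 1 / 4) (hs : 0 < s)
    (hC : 1 ≤ C0) (hC0 : ∀ t, |deriv Real.smoothTransition t| ≤ C0) {X : Vec (n + 3)} (hX : qq X ≤ 1 / 4)
    (v : Vec (n + 3)) :
    s * fderiv ℝ (bar (3 * ε * δ / (64 * C0))) X v + ll δ ε s * v 0 ≤ FM δ ε s X v := by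
  refine le_trans ?_ (D10_low hδ h8 hε hε4 hs X v)
  refine add_le_add ?_ le_rfl
  refine mul_le_mul_of_nonneg_left ?_ hs.le
  rw [D10_bar_fd]
  have hS : 0 ≤ √(mn δ X v) := Real.sqrt_nonneg _
  obtain ⟨C, -, -, hz⟩ := st_deriv
  by_cases h : 16 * qq X < 1
  · rw [hz _ (Or.inl (by linarith)), zero_mul, mul_zero]
    have := Real.smoothTransition.nonneg (16 * qq X)
    positivity
  · rw [Real.smoothTransition.one_of_one_le (not_lt.1 h), mul_one]
    have h1 := D10_dqq hδ hX v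
    have h2 : deriv Real.smoothTransition ((16 * qq X - 1) / 3) * (16 / 3 * fderiv ℝ qq X v) ≤
        C0 * (16 / 3 * (2 / δ * √(mn δ X v))) := by
      refine (le_abs_self _).trans ?_
      rw [abs_mul, abs_mul, abs_of_pos (by norm_num : (0 : ℝ) < 16 / 3)]
      exact mul_le_mul (hC0 _) (mul_le_mul_of_nonneg_left h1 (by norm_num)) (by positivity) (by linarith)
    have hb : 0 ≤ 3 * ε * δ / (64 * C0) := by positivity
    refine (mul_le_mul_of_nonneg_left h2 hb).trans (le_of_eq ?_)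
    have : C0 ≠ 0 := by linarith
    field_simp
    ring

theorem D10_exit {X : Vec (n + 3)} (hX : X ∈ SK n) (hc : X ∈ closure ((univ : Set (Vec (n + 3))) \ SK n)) :
    1 / 4 ≤ qq X := by
  by_contra hlt
  rw [not_le] at hlt
  have h1 : ∀ᶠ Y in 𝓝 X, qq Y < 1 / 4 :=
    (qq_smooth.continuous.tendsto X).eventually (gt_mem_nhds hlt)
  have h2 : ∀ᶠ Y : Vec (n + 3) in 𝓝 X, ∀ i : Fin (n + 3), i ≠ 0 → i ≠ 1 →
      0 < Real.cos (2 * Real.pi * Y i) := by
    refine Filter.eventually_all.2 fun i => ?_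
    by_cases h0 : i = 0
    · exact Filter.Eventually.of_forall fun Y hh => absurd h0 hh
    by_cases h1 : i = 1
    · exact Filter.Eventually.of_forall fun Y _ hh => absurd h1 hh
    have hc : Continuous (fun Y : Vec (n + 3) => Real.cos (2 * Real.pi * Y i)) := by fun_prop
    have := (hc.tendsto X).eventually (lt_mem_nhds ((SK_sub hX).2 i h0 h1))
    filter_upwards [this] with Y hY _ _ using hY
  have h3 : SK n ∈ 𝓝 X := by
    filter_upwards [h1, h2] with Y hY1 hY2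
    exact ⟨hY1.le, fun i h0 h1 => (hY2 i h0 h1).le⟩
  obtain ⟨Y, hY1, hY2⟩ := mem_closure_iff_nhds.1 hc _ h3
  exact hY2.2 hY1

theorem D10_cc {δ ε s σ t : ℝ} {i : Fin (n + 3)} (h0 : i ≠ 0) : (cc δ ε s σ t : Vec (n + 3)) i = 0 := by
  show (if i = 0 then σ / ll δ ε s else 0) = 0
  rw [if_neg h0]

theorem D10_zero {X : Vec (n + 3)} (h : ∀ i, i ≠ 0 → i ≠ 1 → X i = 0) : qq X = 0 ∧ X ∈ SK n := by
  have h1 : qq X = 0 := by
    unfold qq
    refine Finset.sum_eq_zero fun i _ => ?_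
    split_ifs with h0
    · rfl
    · rw [not_or] at h0
      rw [h i h0.1 h0.2]
      simp
  refine ⟨h1, by rw [h1]; norm_num, fun i h0 h1 => ?_⟩
  rw [h i h0 h1]
  simp

theorem D10_FM_cont {δ ε s : ℝ} (hδ : 0 < δ) (h8 : δ ≤ 1 / 8) :
    Continuous (fun p : Vec (n + 3) × Vec (n + 3) => FM δ ε s p.1 p.2) := by
  have hrho : Continuous (rho δ : Vec (n + 3) → ℝ) := by
    unfold rho
    fun_prop
  have hrr : Continuous (rr δ : Vec (n + 3) → ℝ) := by
    unfold rr
    fun_prop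
  have hr0 : ∀ X : Vec (n + 3), rr δ X ≠ 0 := fun X => by
    have := (rr_bd hδ h8 X).1
    linarith
  have htr : Continuous (tr : Vec (n + 3) → ℝ) := by
    unfold tr
    fun_prop
  have htQ : Continuous (tQ δ : Vec (n + 3) → ℝ) := by
    unfold tQ
    refine ((((htr.sub continuous_const).sub continuous_const).pow 2).add (by fun_prop)).add
      (continuous_finset_sum _ fun i _ => ?_)
    split_ifs
    · exact continuous_const
    · fun_prop
  have hmn : Continuous (fun p : Vec (n + 3) × Vec (n + 3) => mn δ p.1 p.2) := by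
    unfold mn
    refine (((?_ : Continuous _).add ?_).add ?_).add (continuous_finset_sum _ fun i _ => ?_)
    · have := hrr.comp (continuous_fst (X := Vec (n + 3)) (Y := Vec (n + 3)))
      have h2 : Continuous (fun p : Vec (n + 3) × Vec (n + 3) => rr δ p.1) := this
      fun_prop
    · have := hrho.comp (continuous_fst (X := Vec (n + 3)) (Y := Vec (n + 3)))
      have h2 : Continuous (fun p : Vec (n + 3) × Vec (n + 3) => rho δ p.1) := this
      fun_prop
    · fun_prop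
    · split_ifs
      · exact continuous_const
      · fun_prop
  have htw : Continuous (fun X : Vec (n + 3) => tw δ ε (em δ X)) := by
    have : (fun X : Vec (n + 3) => tw δ ε (em δ X)) = fun X => (1 - ε) * (1 + δ) / rr δ X +
        tQ δ (em δ X) + ε / 2 * Real.smoothTransition (16 * qq X) := by
      funext X
      exact D10_tw hδ h8 ε X
    rw [this]
    have hq : Continuous (qq : Vec (n + 3) → ℝ) := qq_smooth.continuous
    have hem : Continuous (em δ : Vec (n + 3) → Vec (n + 3)) := (em_smooth δ).continuous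
    have hst : Continuous Real.smoothTransition := Real.smoothTransition.continuous
    exact ((continuous_const.div hrr hr0).add (htQ.comp hem)).add
      (continuous_const.mul (hst.comp (continuous_const.mul hq)))
  unfold FM
  exact (continuous_const.mul (htw.comp continuous_fst)).mul (Real.continuous_sqrt.comp hmn)

/-! ### the second direction -/

/-- the integer vector of the second direction -/
def D10_k (n : ℕ) : Fin (n + 3) → ℤ := fun i => if i = 0 ∨ i = 1 then 1 else 0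

theorem D10_ga0 (x : ℝ) : (x • vz (D10_k n) : Vec (n + 3)) 0 = x := by
  show x * (((if (0 : Fin (n + 3)) = 0 ∨ (0 : Fin (n + 3)) = 1 then 1 else 0 : ℤ)) : ℝ) = x
  simp

theorem D10_ga1 (x : ℝ) : (x • vz (D10_k n) : Vec (n + 3)) 1 = x := by
  show x * (((if (1 : Fin (n + 3)) = 0 ∨ (1 : Fin (n + 3)) = 1 then 1 else 0 : ℤ)) : ℝ) = x
  simp

theorem D10_ga2 (x : ℝ) {i : Fin (n + 3)} (h0 : i ≠ 0) (h1 : i ≠ 1) :
    (x • vz (D10_k n) : Vec (n + 3)) i = 0 := by
  show x * (((if i = 0 ∨ i = 1 then 1 else 0 : ℤ)) : ℝ) = 0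
  rw [if_neg (by tauto)]
  simp

theorem D10_real {s δ A R q c u : ℝ} (hs : 0 < s) (hδ : 0 < δ) (h8 : δ ≤ 1 / 8) (hA : 0 ≤ A)
    (hA1 : A ≤ 9 / 8) (hR : 3 / 4 ≤ R) (hR1 : R ≤ 5 / 4) (hq : 0 ≤ q) (hq4 : q ≤ 4 * δ ^ 2)
    (hc : 0 ≤ c) (hc2 : c ≤ R + δ ^ 2 / (2 * R)) (hu : 0 ≤ u) (hu1 : u ≤ 3.15) :
    s * (A / R + q) * (2 * u * c) ≤ 2 * u * s * A + 45 * s * δ ^ 2 := by
  have hR0 : 0 < R := by linarith
  have h1 : (A / R + q) * c ≤ (A / R + q) * (R + δ ^ 2 / (2 * R)) :=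
    mul_le_mul_of_nonneg_left hc2 (by positivity)
  have e1 : (A / R + q) * (R + δ ^ 2 / (2 * R)) = A + A * δ ^ 2 / (2 * R ^ 2) + q * (R + δ ^ 2 / (2 * R)) := by
    field_simp
  have h2 : A * δ ^ 2 / (2 * R ^ 2) ≤ δ ^ 2 := by
    rw [div_le_iff₀ (by positivity)]
    have h3 : 9 / 8 ≤ 2 * R ^ 2 := by nlinarith
    have h4 : A ≤ 2 * R ^ 2 := hA1.trans h3
    nlinarith [mul_le_mul_of_nonneg_left h4 (sq_nonneg δ)]
  have h3 : δ ^ 2 / (2 * R) ≤ 1 / 64 := by
    rw [div_le_iff₀ (by positivity)]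
    nlinarith
  have h5 : q * (R + δ ^ 2 / (2 * R)) ≤ 4 * δ ^ 2 * (5 / 4 + 1 / 64) :=
    mul_le_mul hq4 (by linarith) (by positivity) (by positivity)
  have h6 : (A / R + q) * c ≤ A + 7 * δ ^ 2 := by
    rw [e1] at h1
    nlinarith [sq_nonneg δ]
  have h7 : s * (A / R + q) * (2 * u * c) = 2 * u * s * ((A / R + q) * c) := by ring
  rw [h7]
  have h8 : 2 * u * s * ((A / R + q) * c) ≤ 2 * u * s * (A + 7 * δ ^ 2) :=
    mul_le_mul_of_nonneg_left h6 (by positivity)
  have h9 : 2 * u * s * (7 * δ ^ 2) ≤ 45 * s * δ ^ 2 := by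
    have : 14 * u ≤ 45 := by linarith
    have h10 : 0 ≤ s * δ ^ 2 := by positivity
    nlinarith [mul_le_mul_of_nonneg_right this h10]
  linarith [h8, h9, mul_add (2 * u * s) A (7 * δ ^ 2)]

theorem D10_second {δ ε s : ℝ} (hδ : 0 < δ) (h8 : δ ≤ 1 / 8) (hε : 0 < ε) (hε4 : ε ≤ 1 / 4) (hs : 0 < s)
    (x : ℝ) : FM δ ε s (x • vz (D10_k n) : Vec (n + 3)) (vz (D10_k n)) ≤ ll δ ε s + 45 * s * δ ^ 2 := by
  set X : Vec (n + 3) := x • vz (D10_k n) with hX
  have hX0 : X 0 = x := D10_ga0 x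
  have hX1 : X 1 = x := D10_ga1 x
  have hXi : ∀ i, i ≠ 0 → i ≠ 1 → X i = 0 := fun i h0 h1 => D10_ga2 x h0 h1
  have h2m : 2 % (n + 3) = 2 := Nat.mod_eq_of_lt (by omega)
  have h20 : (2 : Fin (n + 3)) ≠ 0 := by
    intro h
    have := congrArg Fin.val h
    simp [Fin.val_ofNat] at this
    omega
  have h21 : (2 : Fin (n + 3)) ≠ 1 := by
    intro h
    have := congrArg Fin.val h
    simp [Fin.val_ofNat] at this
    omega
  have hv0 : (vz (D10_k n) : Vec (n + 3)) 0 = 1 := by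
    have := D10_ga0 (n := n) 1
    rwa [one_smul] at this
  have hv1 : (vz (D10_k n) : Vec (n + 3)) 1 = 1 := by
    have := D10_ga1 (n := n) 1
    rwa [one_smul] at this
  have hvi : ∀ i, i ≠ 0 → i ≠ 1 → (vz (D10_k n) : Vec (n + 3)) i = 0 := by
    intro i h0 h1
    have := D10_ga2 (n := n) 1 h0 h1
    rwa [one_smul] at this
  have hrho : rho δ X = δ := by
    unfold rho
    rw [hXi 2 h20 h21]
    simp
  have hrr : rr δ X = 1 + δ * Real.cos (2 * Real.pi * x) := by
    unfold rr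
    rw [hrho, hX1]
  obtain ⟨hR, hR1⟩ := rr_bd hδ h8 X
  have hqq : qq X = 0 := (D10_zero hXi).1
  have hmn : mn δ X (vz (D10_k n)) = (2 * Real.pi) ^ 2 * (rr δ X ^ 2 + δ ^ 2) := by
    unfold mn
    rw [Finset.sum_eq_zero (fun i _ => ?_), hv0, hv1, hvi 2 h20 h21, hrho]
    · ring
    · split_ifs with h
      · rfl
      · rw [hvi i (by tauto) (by tauto)]
        ring
  have hR0 : 0 < rr δ X := by linarith
  have hsq : √(mn δ X (vz (D10_k n))) = 2 * Real.pi * √(rr δ X ^ 2 + δ ^ 2) := by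
    rw [hmn, Real.sqrt_mul (by positivity), Real.sqrt_sq (by positivity)]
  have hc2 : √(rr δ X ^ 2 + δ ^ 2) ≤ rr δ X + δ ^ 2 / (2 * rr δ X) := by
    rw [Real.sqrt_le_left (by positivity)]
    have e1 : (rr δ X + δ ^ 2 / (2 * rr δ X)) ^ 2 =
        rr δ X ^ 2 + δ ^ 2 + (δ ^ 2 / (2 * rr δ X)) ^ 2 := by
      field_simp
      ring
    rw [e1]
    have : 0 ≤ (δ ^ 2 / (2 * rr δ X)) ^ 2 := by positivity
    linarith
  have hem2 : em δ X 2 = δ * Real.sin (2 * Real.pi * x) := by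
    show (if (2 : Fin (n + 3)) = 0 then rr δ X * Real.cos (2 * Real.pi * X 0) else
      if (2 : Fin (n + 3)) = 1 then rr δ X * Real.sin (2 * Real.pi * X 0) else
      if (2 : Fin (n + 3)) = 2 then rho δ X * Real.sin (2 * Real.pi * X 1) else
        δ * Real.sin (2 * Real.pi * X 2)) = _
    rw [if_neg h20, if_neg h21, if_pos rfl, hrho, hX1]
  have hemi : ∀ i : Fin (n + 3), i ≠ 0 → i ≠ 1 → i ≠ 2 → em δ X i = 0 := by
    intro i h0 h1 h2
    show (if i = 0 then rr δ X * Real.cos (2 * Real.pi * X 0) else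
      if i = 1 then rr δ X * Real.sin (2 * Real.pi * X 0) else
      if i = 2 then rho δ X * Real.sin (2 * Real.pi * X 1) else
        δ * Real.sin (2 * Real.pi * X i)) = _
    rw [if_neg h0, if_neg h1, if_neg h2, hXi i h0 h1]
    simp
  have htQ : tQ δ (em δ X) = 2 * δ ^ 2 * (1 - Real.cos (2 * Real.pi * x)) := by
    unfold tQ
    rw [tr_em hδ h8, hem2, hrr, Finset.sum_eq_zero (fun i _ => ?_)]
    · have := Real.sin_sq_add_cos_sq (2 * Real.pi * x)
      have e2 : Real.sin (2 * Real.pi * x) ^ 2 = 1 - Real.cos (2 * Real.pi * x) ^ 2 := by linarith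
      rw [mul_pow, e2]
      ring
    · split_ifs with h
      · rfl
      · rw [hemi i (by tauto) (by tauto) (by tauto)]
        ring
  have hcos := Real.neg_one_le_cos (2 * Real.pi * x)
  have hcos1 := Real.cos_le_one (2 * Real.pi * x)
  unfold FM
  rw [D10_tw hδ h8, hqq, mul_zero, Real.smoothTransition.zero, mul_zero, add_zero, hsq]
  have hfin := D10_real (s := s) (δ := δ) (A := (1 - ε) * (1 + δ)) (R := rr δ X)
    (q := tQ δ (em δ X)) (c := √(rr δ X ^ 2 + δ ^ 2)) (u := Real.pi) hs hδ h8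
    (mul_nonneg (by linarith) (by linarith)) (by nlinarith) hR hR1
    (D10_tQ δ _) (by rw [htQ]; nlinarith [sq_nonneg δ]) (Real.sqrt_nonneg _) hc2 Real.pi_pos.le
    (by have := Real.pi_lt_d2; linarith)
  have e3 : ll δ ε s = 2 * Real.pi * s * ((1 - ε) * (1 + δ)) := by
    unfold ll
    ring
  rw [e3]
  exact hfin

theorem D10_ex_low {δ ε s C0 : ℝ} (hδ : 0 < δ) (h8 : δ ≤ 1 / 8) (hε : 0 < ε) (hε4 : ε ≤ 1 / 4) (hs : 0 < s)
    (hC : 1 ≤ C0) (hC0 : ∀ t, |deriv Real.smoothTransition t| ≤ C0) {γ : ℝ → Vec (n + 3)}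
    (hγ : ∃ C, LipschitzWith C γ) (hK : ∀ x ∈ Icc (0:ℝ) 1, γ x ∈ SK n) (h0 : qq (γ 0) = 0)
    (h1 : 1 / 4 ≤ qq (γ 1)) :
    s * (3 * ε * δ / (64 * C0)) ≤ (∫ x in (0:ℝ)..1, FM δ ε s (γ x) (deriv γ x)) -
      (ll δ ε s * (γ 1) 0 - ll δ ε s * (γ 0) 0) := by
  set b := 3 * ε * δ / (64 * C0) with hb
  have hco : ContDiff ℝ 1 (fun X : Vec (n + 3) => X 0) :=
    (EuclideanSpace.proj (0 : Fin (n + 3)) : Vec (n + 3) →L[ℝ] ℝ).contDiff
  have hf : ContDiff ℝ 1 (fun X : Vec (n + 3) => s * bar b X + ll δ ε s * X 0) :=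
    (contDiff_const.mul ((D10_bar_smooth b).of_le (by exact_mod_cast le_top))).add
      (contDiff_const.mul hco)
  have hfd : ∀ X v : Vec (n + 3), fderiv ℝ (fun X : Vec (n + 3) => s * bar b X + ll δ ε s * X 0) X v =
      s * fderiv ℝ (bar b) X v + ll δ ε s * v 0 := by
    intro X v
    have g1 : HasFDerivAt (bar b : Vec (n + 3) → ℝ) (fderiv ℝ (bar b) X) X :=
      (((D10_bar_smooth b).differentiable (by simp)) X).hasFDerivAt
    have g2 : HasFDerivAt (fun X : Vec (n + 3) => X 0)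
        (EuclideanSpace.proj (0 : Fin (n + 3)) : Vec (n + 3) →L[ℝ] ℝ) X :=
      (EuclideanSpace.proj (0 : Fin (n + 3)) : Vec (n + 3) →L[ℝ] ℝ).hasFDerivAt
    have g3 := (g1.const_mul s).add (g2.const_mul (ll δ ε s))
    have g4 : fderiv ℝ (fun X : Vec (n + 3) => s * bar b X + ll δ ε s * X 0) X =
        s • fderiv ℝ (bar b) X + ll δ ε s • (EuclideanSpace.proj (0 : Fin (n + 3)) : Vec (n + 3) →L[ℝ] ℝ) :=
      g3.fderiv
    rw [g4]
    rfl
  obtain ⟨i1, i2⟩ := ftc_lip hf hγ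
  have i3 := int_lip (D10_FM_cont (n := n) (ε := ε) (s := s) hδ h8) hγ
  have i4 : (∫ x in (0:ℝ)..1, fderiv ℝ (fun X : Vec (n + 3) => s * bar b X + ll δ ε s * X 0) (γ x)
      (deriv γ x)) ≤ ∫ x in (0:ℝ)..1, FM δ ε s (γ x) (deriv γ x) := by
    refine intervalIntegral.integral_mono_on zero_le_one i1 i3 fun x hx => ?_
    rw [hfd]
    exact D10_bar_le hδ h8 hε hε4 hs hC hC0 (hK x hx).1 _
  rw [i2] at i4
  have b1 : bar b (γ 1) = b := by
    unfold bar
    rw [Real.smoothTransition.one_of_one_le (by linarith), mul_one]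
  have b0 : bar b (γ 0) = 0 := by
    unfold bar
    rw [h0, Real.smoothTransition.zero_of_nonpos (by norm_num), mul_zero]
  simp only [b1, b0] at i4
  linarith

theorem room (n : ℕ) {ε : ℝ} (hε : 0 < ε) (hε4 : ε ≤ 1 / 4) : ∃ δ0 : ℝ, 0 < δ0 ∧ ∀ δ, 0 < δ → δ ≤ δ0 →
    ∀ s, 0 < s → ∃ a : ℝ, ∀ F : Vec (n + 3) → Vec (n + 3) → ℝ → ℝ,
      (∀ X ∈ SO n, ∀ v t, F X v t = FM δ ε s X v) →
        IsRoom (tor (n + 3)) (SO n) (SK n) F (BB δ ε s) 0 (cc δ ε s) a := by
  obtain ⟨C0, hC, hC0⟩ := st_bd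
  have hCp : 0 < C0 := by linarith
  refine ⟨min (1 / 8) (ε / (1000 * C0)), by positivity, fun δ hδ hδ0 s hs =>
    ⟨s * (3 * ε * δ / (64 * C0)), fun F hF => ?_⟩⟩
  have h8 : δ ≤ 1 / 8 := hδ0.trans (min_le_left _ _)
  have hd : δ ≤ ε / (1000 * C0) := hδ0.trans (min_le_right _ _)
  have hccz : ∀ σ t : ℝ, qq (cc δ ε s σ t : Vec (n + 3)) = 0 ∧ (cc δ ε s σ t : Vec (n + 3)) ∈ SK n :=
    fun σ t => D10_zero fun i h0 _ => D10_cc h0
  have hint : ∀ {γ : ℝ → Vec (n + 3)} {t : ℝ}, (∀ x ∈ Icc (0:ℝ) 1, γ x ∈ SK n) →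
      ∫ x in (0:ℝ)..1, F (γ x) (deriv γ x) t = ∫ x in (0:ℝ)..1, FM δ ε s (γ x) (deriv γ x) := by
    intro γ t hK
    refine intervalIntegral.integral_congr fun x hx => ?_
    rw [uIcc_of_le zero_le_one] at hx
    exact hF _ (SK_sub (hK x hx)) _ _
  refine ⟨SK_closed, fun X hX => ⟨mem_univ _, SK_sub hX⟩, fun k X hX => SK_per k hX,
    fun σ t => (hccz σ t).2, ?_, ?_⟩
  · intro t σ γ hγ hγ0 hK hcl
    unfold excess
    rw [hint hK]
    have hq0 : qq (γ 0) = 0 := by rw [hγ0]; exact (hccz σ t).1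
    have hq1 : 1 / 4 ≤ qq (γ 1) := D10_exit (hK 1 (right_mem_Icc.2 zero_le_one)) hcl
    exact D10_ex_low hδ h8 hε hε4 hs hC hC0 hγ hK hq0 hq1
  · have hK : ∀ x ∈ Icc (0:ℝ) 1, (x • vz (D10_k n) : Vec (n + 3)) ∈ SK n := fun x _ =>
      (D10_zero fun i h0 h1 => D10_ga2 x h0 h1).2
    have hcc0 : (cc δ ε s 0 0 : Vec (n + 3)) = 0 := by
      ext i
      show (if i = 0 then 0 / ll δ ε s else 0) = 0
      split_ifs
      · exact zero_div _
      · rfl
    have hder : ∀ x : ℝ, HasDerivAt (fun x : ℝ => (x • vz (D10_k n) : Vec (n + 3))) (vz (D10_k n)) x := by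
      intro x
      simpa using (hasDerivAt_id x).smul_const (vz (D10_k n) : Vec (n + 3))
    have hlip : ∃ C, LipschitzWith C (fun x : ℝ => (x • vz (D10_k n) : Vec (n + 3))) := by
      refine ⟨‖(vz (D10_k n) : Vec (n + 3))‖₊, LipschitzWith.of_dist_le_mul fun x y => ?_⟩
      rw [dist_eq_norm, ← sub_smul, norm_smul, dist_eq_norm, mul_comm]
      rfl
    refine ⟨0, D10_k n, fun x => x • vz (D10_k n), fun k hk => ?_, hlip, ?_, ?_, hK, ?_⟩
    · have := congrFun hk 1
      rw [Pi.single_eq_of_ne (by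
        intro h
        have := congrArg Fin.val h
        simp at this)] at this
      simp [D10_k] at this
    · rw [hcc0]
      exact zero_smul _ _
    · rw [hcc0, zero_add]
      exact one_smul _ _
    · unfold excess
      rw [hint hK]
      have j1 : (∫ x in (0:ℝ)..1, FM δ ε s (x • vz (D10_k n) : Vec (n + 3))
          (deriv (fun x : ℝ => (x • vz (D10_k n) : Vec (n + 3))) x)) ≤
          ∫ _x in (0:ℝ)..1, (ll δ ε s + 45 * s * δ ^ 2) := by
        refine intervalIntegral.integral_mono_on zero_le_one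
          (int_lip (D10_FM_cont (n := n) (ε := ε) (s := s) hδ h8) hlip) intervalIntegrable_const
          fun x _ => ?_
        rw [(hder x).deriv]
        exact D10_second hδ h8 hε hε4 hs x
      rw [intervalIntegral.integral_const, sub_zero, one_smul] at j1
      have j2 : BB δ ε s ((1 : ℝ) • vz (D10_k n) : Vec (n + 3)) 0 = ll δ ε s := by
        show ll δ ε s * ((1 : ℝ) • vz (D10_k n) : Vec (n + 3)) 0 = _
        rw [D10_ga0, mul_one]
      have j3 : BB δ ε s ((0 : ℝ) • vz (D10_k n) : Vec (n + 3)) 0 = 0 := by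
        show ll δ ε s * ((0 : ℝ) • vz (D10_k n) : Vec (n + 3)) 0 = _
        rw [D10_ga0, mul_zero]
      simp only [j2, j3]
      have j4 : 45 * s * δ ^ 2 < s * (3 * ε * δ / (64 * C0)) := by
        have k1 : 1000 * C0 * δ ≤ ε := by
          rw [le_div_iff₀ (by positivity)] at hd
          linarith
        have k2 : 45 * δ < 3 * ε / (64 * C0) := by
          rw [lt_div_iff₀ (by positivity)]
          nlinarith [mul_pos hCp hδ]
        have k3 := mul_lt_mul_of_pos_left k2 (mul_pos hs hδ)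
        have e1 : s * δ * (45 * δ) = 45 * s * δ ^ 2 := by ring
        have e2 : s * δ * (3 * ε / (64 * C0)) = s * (3 * ε * δ / (64 * C0)) := by ring
        rw [e1, e2] at k3
        exact k3
      linarith

end EscW.Dn
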