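import Pool.Agent.EscW.O17
import Pool.Agent.EscW.D10

set_option autoImplicit false

/-!
Project EscW, part O, module O18: part D: room.
Same constants, barrier and second curve as in module D10: `a = s b`, `bar X = s * Dn.bar b X`, `θ0 = 0`,
`nn = (1, 1, 0, ..)`, `γ x = x • (e0 + e1)`.
-/

noncomputable section

namespace EscW.On

open Filter Topology Set EscF.T EscM EscMT MeasureTheory EscW.Ex EscW.Dn
open scoped ContDiff

variable {d m k j n : ℕ}

theorem O18_em (δ : ℝ) (X : Vec (n + 3)) :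
    em δ X 0 = Dn.rr δ X * Real.cos (2 * Real.pi * X 0) ∧
      em δ X 1 = Dn.rr δ X * Real.sin (2 * Real.pi * X 0) := by
  constructor
  · simp [Dn.em]
  · simp [Dn.em]

theorem O18_qq {δ : ℝ} (hδ : 0 < δ) (h8 : δ ≤ 1 / 8) {X : Vec (n + 3)} (hX : ‖(TcD δ X).2‖ < δ / 16) :
    qq X ≤ 5 / 256 := by
  have h := (AD_tube hδ h8 (TcD δ X) hX.le).2
  have h1 : pol (1 + δ) (TcD δ X) = em δ X := pol_Tc (O18_em δ X).1 (O18_em δ X).2
  rw [h1, tq_em hδ h8] at h
  exact h

theorem O18_fd (s b : ℝ) (X v : Vec (n + 3)) :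
    fderiv ℝ (fun X : Vec (n + 3) => s * Dn.bar b X) X v = s * fderiv ℝ (Dn.bar b) X v := by
  have g1 : HasFDerivAt (Dn.bar b : Vec (n + 3) → ℝ) (fderiv ℝ (Dn.bar b) X) X :=
    (((D10_bar_smooth b).differentiable (by simp)) X).hasFDerivAt
  have g4 : fderiv ℝ (fun X : Vec (n + 3) => s * Dn.bar b X) X = s • fderiv ℝ (Dn.bar b) X :=
    (g1.const_mul s).fderiv
  rw [g4]
  rfl

theorem O18_Lam0 {δ : ℝ} (hδ : 0 < δ) : LamD δ ((0 : ℝ), (0 : Vec (n + 2))) = 0 := by
  have h1 : √((δ + (0 : Vec (n + 2)) 0) ^ 2 + (0 : Vec (n + 2)) 1 ^ 2) / δ - 1 = 0 := by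
    have : (δ + (0 : Vec (n + 2)) 0) ^ 2 + (0 : Vec (n + 2)) 1 ^ 2 = δ ^ 2 := by
      simp
    rw [this, Real.sqrt_sq hδ.le, div_self hδ.ne', sub_self]
  ext i
  unfold LamD
  rw [h1]
  refine Fin.cases ?_ (fun i => ?_) i
  · rfl
  · refine Fin.cases ?_ (fun i => ?_) i
    · simp
    · refine Fin.cases ?_ (fun i => ?_) i
      · show Real.arcsin (2 * (0 : ℝ)) / (2 * Real.pi) = 0
        simp
      · show Real.arcsin ((0 : Vec (n + 2)) i.succ.succ / δ) / (2 * Real.pi) = 0
        simp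

theorem roomD (n : ℕ) {ε : ℝ} (hε : 0 < ε) (hε4 : ε ≤ 1 / 4) : ∃ δ0 : ℝ, 0 < δ0 ∧ ∀ δ, 0 < δ → δ ≤ δ0 →
    ∀ s, 0 < s → ∃ (a : ℝ) (bar : Vec (n + 3) → ℝ) (θ0 : ℝ) (nn : Fin (n + 3) → ℤ) (γ : ℝ → Vec (n + 3)),
      RoomBase (tor (n + 3)) (SO n) (SK n) 0 (δ / 16) (ll δ ε s) a (Phm (1 + δ) s (tW δ ε)) (TcD δ)
        (LamD δ) bar θ0 nn γ := by
  obtain ⟨C0, hC, hC0⟩ := st_bd
  obtain ⟨C, -, -, hz⟩ := st_deriv
  have hCp : 0 < C0 := by linarith
  refine ⟨min (1 / 8) (ε / (1000 * C0)), by positivity, fun δ hδ hδ0 s hs =>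
    ⟨s * (3 * ε * δ / (64 * C0)), fun X => s * Dn.bar (3 * ε * δ / (64 * C0)) X, 0, D10_k n,
      fun x => x • vz (D10_k n), ?_⟩⟩
  have h8 : δ ≤ 1 / 8 := hδ0.trans (min_le_left _ _)
  have hd : δ ≤ ε / (1000 * C0) := hδ0.trans (min_le_right _ _)
  have hcov := coverD (n := n) hδ h8
  have hK : ∀ x : ℝ, (x • vz (D10_k n) : Vec (n + 3)) ∈ SK n := fun x =>
    (D10_zero fun i h0 h1 => D10_ga2 x h0 h1).2
  have hder : ∀ x : ℝ, HasDerivAt (fun x : ℝ => (x • vz (D10_k n) : Vec (n + 3))) (vz (D10_k n)) x := by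
    intro x
    simpa using (hasDerivAt_id x).smul_const (vz (D10_k n) : Vec (n + 3))
  have hlip : ∃ C, LipschitzWith C (fun x : ℝ => (x • vz (D10_k n) : Vec (n + 3))) := by
    refine ⟨‖(vz (D10_k n) : Vec (n + 3))‖₊, LipschitzWith.of_dist_le_mul fun x y => ?_⟩
    rw [dist_eq_norm, ← sub_smul, norm_smul, dist_eq_norm, mul_comm]
    rfl
  exact
  { closed := SK_closed
    sub := fun X hX => ⟨mem_univ _, SK_sub hX⟩
    periodic := fun k X hX => SK_per k hX
    mem := fun z hz' => ⟨(qq_LamD hδ h8 hz').trans (by norm_num), fun i h0 h1 =>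
      ((hcov.mem z hz').2.2 i h0 h1).le⟩
    a_pos := by positivity
    smooth := contDiff_const.mul ((D10_bar_smooth _).of_le (by exact_mod_cast le_top))
    zero := fun z hz' => by
      have h1 := qq_LamD hδ h8 hz'
      unfold Dn.bar
      rw [Real.smoothTransition.zero_of_nonpos (by linarith), mul_zero, mul_zero]
    flat := fun x hx hT v _ => by
      have h1 := O18_qq hδ h8 hT
      rw [O18_fd, D10_bar_fd, hz _ (Or.inl (by linarith)), zero_mul, mul_zero, mul_zero]
    bar_le := fun x hx v _ => by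
      rw [O18_fd, PhmD hδ h8 ε s (SK_sub hx)]
      have h1 := D10_bar_le hδ h8 hε hε4 hs hC hC0 hx.1 v
      linarith
    exit := fun x hx hcl => by
      have h1 : 1 / 4 ≤ qq x := D10_exit hx hcl
      unfold Dn.bar
      rw [Real.smoothTransition.one_of_one_le (by linarith), mul_one]
    n_ne := fun k hk => by
      have := congrFun hk 1
      rw [Pi.single_eq_of_ne (by
        intro h
        have := congrArg Fin.val h
        simp at this)] at this
      simp [D10_k] at this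
    lip := hlip
    γ0 := by
      rw [O18_Lam0 hδ]
      exact zero_smul _ _
    γ1 := by
      rw [O18_Lam0 hδ, zero_add]
      exact one_smul _ _
    γK := fun x _ => hK x
    cost := by
      have e0 : ∫ x in (0:ℝ)..1, Phm (1 + δ) s (tW δ ε) (TcD δ (x • vz (D10_k n)))
          (fderiv ℝ (TcD δ) (x • vz (D10_k n)) (deriv (fun x : ℝ => (x • vz (D10_k n) : Vec (n + 3))) x)) =
          ∫ x in (0:ℝ)..1, FM δ ε s (x • vz (D10_k n) : Vec (n + 3))
            (deriv (fun x : ℝ => (x • vz (D10_k n) : Vec (n + 3))) x) :=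
        intervalIntegral.integral_congr fun x _ => PhmD hδ h8 ε s (SK_sub (hK x)) _
      rw [e0]
      have j1 : (∫ x in (0:ℝ)..1, FM δ ε s (x • vz (D10_k n) : Vec (n + 3))
          (deriv (fun x : ℝ => (x • vz (D10_k n) : Vec (n + 3))) x)) ≤
          ∫ _x in (0:ℝ)..1, (ll δ ε s + 45 * s * δ ^ 2) := by
        refine intervalIntegral.integral_mono_on zero_le_one
          (int_lip (D10_FM_cont (n := n) (ε := ε) (s := s) hδ h8) hlip) intervalIntegrable_const
          fun x _ => ?_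
        rw [(hder x).deriv]
        exact D10_second hδ h8 hε hε4 hs x
      rw [intervalIntegral.integral_const, sub_zero, one_smul] at j1
      have j2 : ((D10_k n 0 : ℤ) : ℝ) = 1 := by
        simp [D10_k]
      have j4 : 45 * s * δ ^ 2 < s * (3 * ε * δ / (64 * C0)) := by
        have k1 : 1000 * C0 * δ ≤ ε := by
          rw [le_div_iff₀ (by positivity)] at hd
          linarith
        have k2 : 45 * δ < 3 * ε / (64 * C0) := by
          rw [lt_div_iff₀ (by positivity)]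
          nlinarith [mul_pos hCp hδ]
        have k3 := mul_lt_mul_of_pos_left k2 (mul_pos hs hδ)
        have e1 : s * δ * (45 * δ) = 45 * s * δ ^ 2 := by ring
        have e2 : s * δ * (3 * ε / (64 * C0)) = s * (3 * ε * δ / (64 * C0)) := by ring
        rw [e1, e2] at k3
        exact k3
      rw [j2]
      linarith }

end EscW.On
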