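import Pool.Agent.EscW.ONDefs

set_option autoImplicit false

/-!
Project EscW (MP_6acca1_an), part O: openness in every conformal class. The metric in the coordinates of a chart, at
the scale `s`; conformal factors on `M`.
-/

noncomputable section

namespace EscW.On

open Filter Topology Set EscF.T EscM EscMT MeasureTheory EscW.Ex EscW.Dn
open scoped ContDiff

variable {d m k j n : ℕ}

/-- the square of the metric in the coordinates `Y ↦ g (s • A Y)`, divided by `s²` -/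
def Qs (q : Vec d → Vec d →L[ℝ] Vec d →L[ℝ] ℝ) (g : Vec m → Vec d) (A : Vec m ≃L[ℝ] Vec m) (s : ℝ)
    (Y v : Vec m) : ℝ :=
  q (g (s • A Y)) (fderiv ℝ g (s • A Y) (A v)) (fderiv ℝ g (s • A Y) (A v))

/-- `Q` is near `|v|²` in `C²` on the set `|Y|, |v| ≤ b` -/
structure NearE (Q : Vec m → Vec m → ℝ) (b b' η : ℝ) : Prop where
  lt : b < b'
  smooth : ContDiffOn ℝ 2 (fun p : Vec m × Vec m => Q p.1 p.2) {p | ‖p.1‖ < b'}
  hom : ∀ Y v (c : ℝ), ‖Y‖ < b' → Q Y (c • v) = c ^ 2 * Q Y v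
  near : ∀ Y v, ‖Y‖ ≤ b → ‖v‖ ≤ b → ∀ i : ℕ, i ≤ 2 →
    ‖iteratedFDeriv ℝ i (fun p : Vec m × Vec m => Q p.1 p.2 - ‖p.2‖ ^ 2) (Y, v)‖ ≤ η

/-- the metric with the square `W² Q` in annular coordinates -/
def PhQ (R0 : ℝ) (W : Vec (j + 2) → ℝ) (Q : Vec (j + 2) → Vec (j + 2) → ℝ) (z ζ : ℝ × Vec (j + 1)) : ℝ :=
  W (pol R0 z) * √(Q (pol R0 z) (fderiv ℝ (pol R0) z ζ))

open Classical in
/-- the conformal factor on `M` -/
def wM (W : Set (Vec d)) (s : ℝ) (g' : Vec d → Vec m) (A : Vec m ≃L[ℝ] Vec m) (w : Vec m → ℝ) (p : Vec d) :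
    ℝ :=
  if h : ∃ l : Fin d → ℤ, p + vz l ∈ W then w (s⁻¹ • A.symm (g' (p + vz h.choose))) ^ 2 else 1

/-- a conformal factor on `M`: a smooth function near one, equal to one outside of `W0 + ℤᵈ` -/
structure IsConf (M : Sub d) (W0 : Set (Vec d)) (ε : ℝ) (w : Vec d → ℝ) : Prop where
  smooth : ContDiffOn ℝ ∞ (fun x => w (M.r x)) M.U
  periodic : ∀ (l : Fin d → ℤ), ∀ x ∈ M.N, w (x + vz l) = w x
  near : ∀ x ∈ M.N, |w x - 1| ≤ ε
  pos : ∀ x ∈ M.N, 0 < w x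
  off : ∀ x ∈ M.N, (∀ l : Fin d → ℤ, x + vz l ∉ W0) → w x = 1

end EscW.On
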