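import Pool.Agent.EscW.DDefs

set_option autoImplicit false

/-!
Project EscW, part D, module D1: the parametrisation of the shell.
-/

noncomputable section

namespace EscW.Dn

open Filter Topology Set EscF.T EscM EscMT MeasureTheory EscW.Ex
open scoped ContDiff

variable {d m n : ℕ}

theorem D1_01 : (0 : Fin (n + 3)) ≠ 1 := by
  intro h
  have := congrArg Fin.val h
  simp at this

theorem D1_02 : (0 : Fin (n + 3)) ≠ 2 := by
  intro h
  have : (0 : ℕ) = 2 % (n + 3) := congrArg Fin.val h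
  rw [Nat.mod_eq_of_lt (by omega)] at this
  omega

theorem D1_12 : (1 : Fin (n + 3)) ≠ 2 := by
  intro h
  have : (1 : ℕ) % (n + 3) = 2 % (n + 3) := congrArg Fin.val h
  rw [Nat.mod_eq_of_lt (by omega), Nat.mod_eq_of_lt (by omega)] at this
  omega

/-- splitting of the first three terms -/
theorem D1_sum (f : Fin (n + 3) → ℝ) :
    ∑ i, f i = f 0 + f 1 + f 2 + ∑ i, if i = 0 ∨ i = 1 ∨ i = 2 then 0 else f i := by
  have h : ∀ i : Fin (n + 3), f i = (if i = 0 then f 0 else 0) + (if i = 1 then f 1 else 0) +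
      (if i = 2 then f 2 else 0) + (if i = 0 ∨ i = 1 ∨ i = 2 then 0 else f i) := by
    intro i
    by_cases h0 : i = 0
    · subst h0
      simp [D1_02]
    · by_cases h1 : i = 1
      · subst h1
        simp [D1_01.symm, D1_12]
      · by_cases h2 : i = 2
        · subst h2
          simp [D1_02.symm, D1_12.symm]
        · simp [h0, h1, h2]
  calc ∑ i, f i = ∑ i, ((if i = 0 then f 0 else 0) + (if i = 1 then f 1 else 0) +
      (if i = 2 then f 2 else 0) + (if i = 0 ∨ i = 1 ∨ i = 2 then 0 else f i)) :=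
        Finset.sum_congr rfl fun i _ => h i
    _ = _ := by
        rw [Finset.sum_add_distrib, Finset.sum_add_distrib, Finset.sum_add_distrib]
        simp only [Finset.sum_ite_eq', Finset.mem_univ, if_true]

theorem D1_coord (i : Fin (n + 3)) : ContDiff ℝ ∞ (fun X : Vec (n + 3) => 2 * Real.pi * X i) :=
  contDiff_const.mul (contDiff_euclidean.1 contDiff_id i)

theorem D1_ssin (i : Fin (n + 3)) : ContDiff ℝ ∞ (fun X : Vec (n + 3) => Real.sin (2 * Real.pi * X i)) :=
  Real.contDiff_sin.comp (D1_coord i)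

theorem D1_scos (i : Fin (n + 3)) : ContDiff ℝ ∞ (fun X : Vec (n + 3) => Real.cos (2 * Real.pi * X i)) :=
  Real.contDiff_cos.comp (D1_coord i)

theorem D1_srho (δ : ℝ) : ContDiff ℝ ∞ (rho δ : Vec (n + 3) → ℝ) :=
  contDiff_const.mul (contDiff_const.add ((D1_ssin 2).div_const _))

theorem D1_srr (δ : ℝ) : ContDiff ℝ ∞ (rr δ : Vec (n + 3) → ℝ) :=
  contDiff_const.add ((D1_srho δ).mul (D1_scos 1))

theorem em_smooth (δ : ℝ) : ContDiff ℝ ∞ (em δ : Vec (n + 3) → Vec (n + 3)) := by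
  rw [contDiff_euclidean]
  intro i
  by_cases h0 : i = 0
  · have : (fun x : Vec (n + 3) => em δ x i) = fun X => rr δ X * Real.cos (2 * Real.pi * X 0) := by
      funext x
      simp [em, h0]
    rw [this]
    exact (D1_srr δ).mul (D1_scos 0)
  · by_cases h1 : i = 1
    · have : (fun x : Vec (n + 3) => em δ x i) = fun X => rr δ X * Real.sin (2 * Real.pi * X 0) := by
        funext x
        simp [em, h1]
      rw [this]
      exact (D1_srr δ).mul (D1_ssin 0)
    · by_cases h2 : i = 2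
      · have : (fun x : Vec (n + 3) => em δ x i) =
            fun X => rho δ X * Real.sin (2 * Real.pi * X 1) := by
          funext x
          subst h2
          simp [em, D1_02.symm, D1_12.symm]
        rw [this]
        exact (D1_srho δ).mul (D1_ssin 1)
      · have : (fun x : Vec (n + 3) => em δ x i) = fun X => δ * Real.sin (2 * Real.pi * X i) := by
          funext x
          simp [em, h0, h1, h2]
        rw [this]
        exact contDiff_const.mul (D1_ssin i)

theorem D1_sin (k : Fin (n + 3) → ℤ) (X : Vec (n + 3)) (i : Fin (n + 3)) :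
    Real.sin (2 * Real.pi * (X + vz k) i) = Real.sin (2 * Real.pi * X i) := by
  have h : 2 * Real.pi * (X + vz k) i = 2 * Real.pi * X i + (k i : ℝ) * (2 * Real.pi) := by
    have : (X + vz k) i = X i + (k i : ℝ) := rfl
    rw [this]
    ring
  rw [h, Real.sin_add_int_mul_two_pi]

theorem D1_cos (k : Fin (n + 3) → ℤ) (X : Vec (n + 3)) (i : Fin (n + 3)) :
    Real.cos (2 * Real.pi * (X + vz k) i) = Real.cos (2 * Real.pi * X i) := by
  have h : 2 * Real.pi * (X + vz k) i = 2 * Real.pi * X i + (k i : ℝ) * (2 * Real.pi) := by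
    have : (X + vz k) i = X i + (k i : ℝ) := rfl
    rw [this]
    ring
  rw [h, Real.cos_add_int_mul_two_pi]

theorem em_per (δ : ℝ) (k : Fin (n + 3) → ℤ) (X : Vec (n + 3)) : em δ (X + vz k) = em δ X := by
  have h1 : rho δ (X + vz k) = rho δ X := by
    unfold rho
    rw [D1_sin]
  have h2 : rr δ (X + vz k) = rr δ X := by
    unfold rr
    rw [h1, D1_cos]
  unfold em
  congr 1
  funext i
  rw [h1, h2, D1_sin, D1_sin, D1_sin, D1_cos]

theorem qq_per (k : Fin (n + 3) → ℤ) (X : Vec (n + 3)) : qq (X + vz k) = qq X := by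
  unfold qq
  refine Finset.sum_congr rfl fun i _ => ?_
  rw [D1_sin]

theorem qq_nonneg (X : Vec (n + 3)) : 0 ≤ qq X := by
  unfold qq
  refine Finset.sum_nonneg fun i _ => ?_
  split_ifs
  · exact le_refl _
  · positivity

theorem qq_smooth : ContDiff ℝ ∞ (qq : Vec (n + 3) → ℝ) := by
  unfold qq
  refine ContDiff.sum fun i _ => ?_
  by_cases h : i = 0 ∨ i = 1
  · simp only [if_pos h]
    exact contDiff_const
  · simp only [if_neg h]
    exact (D1_ssin i).pow 2

theorem rho_bd {δ : ℝ} (hδ : 0 < δ) (X : Vec (n + 3)) : δ / 2 ≤ rho δ X ∧ rho δ X ≤ 3 * δ / 2 := by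
  unfold rho
  have h1 := Real.neg_one_le_sin (2 * Real.pi * X 2)
  have h2 := Real.sin_le_one (2 * Real.pi * X 2)
  constructor <;> nlinarith

theorem rr_bd {δ : ℝ} (hδ : 0 < δ) (h8 : δ ≤ 1 / 8) (X : Vec (n + 3)) : 3 / 4 ≤ rr δ X ∧ rr δ X ≤ 5 / 4 := by
  have h1 := Real.neg_one_le_cos (2 * Real.pi * X 1)
  have h2 := Real.cos_le_one (2 * Real.pi * X 1)
  obtain ⟨h3, h4⟩ := rho_bd hδ X
  have h5 : 0 < rho δ X := by linarith
  unfold rr
  constructor <;> nlinarith

theorem D1_em0 (δ : ℝ) (X : Vec (n + 3)) : em δ X 0 = rr δ X * Real.cos (2 * Real.pi * X 0) := by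
  simp [em]

theorem D1_em1 (δ : ℝ) (X : Vec (n + 3)) : em δ X 1 = rr δ X * Real.sin (2 * Real.pi * X 0) := by
  simp [em]

theorem D1_em2 (δ : ℝ) (X : Vec (n + 3)) : em δ X 2 = rho δ X * Real.sin (2 * Real.pi * X 1) := by
  simp [em, D1_02.symm, D1_12.symm]

theorem D1_em3 (δ : ℝ) (X : Vec (n + 3)) {i : Fin (n + 3)} (h : ¬ (i = 0 ∨ i = 1 ∨ i = 2)) :
    em δ X i = δ * Real.sin (2 * Real.pi * X i) := by
  push Not at h
  simp [em, h.1, h.2.1, h.2.2]

theorem tr_em {δ : ℝ} (hδ : 0 < δ) (h8 : δ ≤ 1 / 8) (X : Vec (n + 3)) : tr (em δ X) = rr δ X := by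
  have h1 := (rr_bd hδ h8 X).1
  have h2 : em δ X 0 ^ 2 + em δ X 1 ^ 2 = rr δ X ^ 2 := by
    rw [D1_em0, D1_em1]
    have := Real.sin_sq_add_cos_sq (2 * Real.pi * X 0)
    linear_combination (rr δ X ^ 2) * this
  unfold tr
  rw [h2, Real.sqrt_sq (by linarith)]

theorem tρ_em {δ : ℝ} (hδ : 0 < δ) (h8 : δ ≤ 1 / 8) (X : Vec (n + 3)) : tρ (em δ X) = rho δ X := by
  have h1 := (rho_bd hδ X).1
  have h2 : (tr (em δ X) - 1) ^ 2 + em δ X 2 ^ 2 = rho δ X ^ 2 := by
    rw [tr_em hδ h8, D1_em2]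
    have := Real.sin_sq_add_cos_sq (2 * Real.pi * X 1)
    unfold rr
    linear_combination (rho δ X ^ 2) * this
  unfold tρ
  rw [h2, Real.sqrt_sq (by linarith)]

theorem tq_em {δ : ℝ} (hδ : 0 < δ) (h8 : δ ≤ 1 / 8) (X : Vec (n + 3)) : tq δ (em δ X) = qq X := by
  have h1 : 2 * (tρ (em δ X) - δ) / δ = Real.sin (2 * Real.pi * X 2) := by
    rw [tρ_em hδ h8]
    unfold rho
    field_simp
    ring
  have h2 : qq X = Real.sin (2 * Real.pi * X 2) ^ 2 +
      ∑ i, if i = 0 ∨ i = 1 ∨ i = 2 then 0 else Real.sin (2 * Real.pi * X i) ^ 2 := by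
    unfold qq
    rw [D1_sum]
    have e0 : (if (0 : Fin (n + 3)) = 0 ∨ (0 : Fin (n + 3)) = 1 then (0 : ℝ)
        else Real.sin (2 * Real.pi * X 0) ^ 2) = 0 := if_pos (Or.inl rfl)
    have e1 : (if (1 : Fin (n + 3)) = 0 ∨ (1 : Fin (n + 3)) = 1 then (0 : ℝ)
        else Real.sin (2 * Real.pi * X 1) ^ 2) = 0 := if_pos (Or.inr rfl)
    have e2 : (if (2 : Fin (n + 3)) = 0 ∨ (2 : Fin (n + 3)) = 1 then (0 : ℝ)
        else Real.sin (2 * Real.pi * X 2) ^ 2) = Real.sin (2 * Real.pi * X 2) ^ 2 :=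
      if_neg (by
        rintro (h | h)
        · exact D1_02 h.symm
        · exact D1_12 h.symm)
    rw [e0, e1, e2, zero_add, zero_add]
    congr 1
    refine Finset.sum_congr rfl fun i _ => ?_
    by_cases h : i = 0 ∨ i = 1 ∨ i = 2
    · rw [if_pos h, if_pos h]
    · rw [if_neg h, if_neg h, if_neg (by tauto)]
  unfold tq
  rw [h1, h2]
  congr 1
  refine Finset.sum_congr rfl fun i _ => ?_
  by_cases h : i = 0 ∨ i = 1 ∨ i = 2
  · rw [if_pos h, if_pos h]
  · rw [if_neg h, if_neg h, D1_em3 δ X h, mul_div_cancel_left₀ _ hδ.ne']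

theorem D1_abs {δ : ℝ} (hδ : 0 < δ) (h8 : δ ≤ 1 / 8) (X : Vec (n + 3)) (i : Fin (n + 3)) :
    |em δ X i| ≤ 5 / 4 := by
  obtain ⟨h1, h2⟩ := rr_bd hδ h8 X
  obtain ⟨h3, h4⟩ := rho_bd hδ X
  by_cases h0 : i = 0
  · subst h0
    rw [D1_em0, abs_mul, abs_of_pos (by linarith)]
    have := Real.abs_cos_le_one (2 * Real.pi * X 0)
    nlinarith [abs_nonneg (Real.cos (2 * Real.pi * X 0))]
  · by_cases hi1 : i = 1
    · subst hi1
      rw [D1_em1, abs_mul, abs_of_pos (by linarith)]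
      have := Real.abs_sin_le_one (2 * Real.pi * X 0)
      nlinarith [abs_nonneg (Real.sin (2 * Real.pi * X 0))]
    · by_cases hi2 : i = 2
      · subst hi2
        rw [D1_em2, abs_mul, abs_of_pos (by linarith)]
        have := Real.abs_sin_le_one (2 * Real.pi * X 1)
        nlinarith [abs_nonneg (Real.sin (2 * Real.pi * X 1))]
      · rw [D1_em3 δ X (by tauto), abs_mul, abs_of_pos hδ]
        have := Real.abs_sin_le_one (2 * Real.pi * X i)
        nlinarith [abs_nonneg (Real.sin (2 * Real.pi * X i))]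

theorem em_bd {δ : ℝ} (hδ : 0 < δ) (h8 : δ ≤ 1 / 8) (X : Vec (n + 3)) : ‖em δ X‖ ≤ emB n := by
  have hn : (0 : ℝ) ≤ n := Nat.cast_nonneg n
  have h0 : ‖em δ X‖ ^ 2 ≤ (emB n) ^ 2 := by
    rw [EuclideanSpace.norm_sq_eq]
    calc ∑ i, ‖em δ X i‖ ^ 2 ≤ ∑ _i : Fin (n + 3), (5 / 4 : ℝ) ^ 2 := by
          refine Finset.sum_le_sum fun i _ => ?_
          rw [Real.norm_eq_abs]
          exact pow_le_pow_left₀ (abs_nonneg _) (D1_abs hδ h8 X i) 2
      _ = ((n : ℝ) + 3) * (5 / 4) ^ 2 := by simp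
      _ ≤ (emB n) ^ 2 := by
          unfold emB
          nlinarith [mul_nonneg hn hn]
  exact le_of_sq_le_sq h0 (by unfold emB; positivity)

theorem mn_nonneg (δ : ℝ) (X v : Vec (n + 3)) : 0 ≤ mn δ X v := by
  unfold mn
  refine add_nonneg (by positivity) (Finset.sum_nonneg fun i _ => ?_)
  split_ifs
  · exact le_refl _
  · positivity

/-- components of the derivative -/
theorem D1_comp (δ : ℝ) (X v : Vec (n + 3)) {i : Fin (n + 3)} {c : ℝ}
    (h : HasDerivAt (fun t : ℝ => em δ (X + t • v) i) c 0) : fderiv ℝ (em δ) X v i = c := by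
  have h1 : HasFDerivAt (em δ) (fderiv ℝ (em δ) X) X :=
    ((em_smooth δ).differentiable (by simp) X).hasFDerivAt
  have h2 : HasDerivAt (fun t : ℝ => X + t • v) v 0 := by
    have := ((hasDerivAt_id (0 : ℝ)).smul_const v).const_add X
    simpa using this
  have h3 : HasDerivAt (fun t : ℝ => em δ (X + t • v)) (fderiv ℝ (em δ) X v) 0 := by
    have h1' : HasFDerivAt (em δ) (fderiv ℝ (em δ) X) (X + (0 : ℝ) • v) := by
      rw [zero_smul, add_zero]
      exact h1
    exact h1'.comp_hasDerivAt (0 : ℝ) h2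
  have h4 : HasDerivAt (fun t : ℝ => em δ (X + t • v) i) (fderiv ℝ (em δ) X v i) 0 := by
    have := ((EuclideanSpace.proj i : Vec (n + 3) →L[ℝ] ℝ).hasFDerivAt
      (x := em δ (X + (0 : ℝ) • v))).comp_hasDerivAt (0 : ℝ) h3
    exact this
  exact h4.unique h

theorem D1_lin (X v : Vec (n + 3)) (i : Fin (n + 3)) :
    HasDerivAt (fun t : ℝ => 2 * Real.pi * (X + t • v) i) (2 * Real.pi * v i) 0 := by
  have h : (fun t : ℝ => 2 * Real.pi * (X + t • v) i) = fun t => 2 * Real.pi * X i + t * (2 * Real.pi * v i) := by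
    funext t
    have : (X + t • v) i = X i + t * v i := rfl
    rw [this]
    ring
  rw [h]
  simpa using ((hasDerivAt_id (0 : ℝ)).mul_const (2 * Real.pi * v i)).const_add (2 * Real.pi * X i)

theorem D1_dsin (X v : Vec (n + 3)) (i : Fin (n + 3)) :
    HasDerivAt (fun t : ℝ => Real.sin (2 * Real.pi * (X + t • v) i))
      (Real.cos (2 * Real.pi * X i) * (2 * Real.pi * v i)) 0 := by
  have := (D1_lin X v i).sin
  simpa using this

theorem D1_dcos (X v : Vec (n + 3)) (i : Fin (n + 3)) :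
    HasDerivAt (fun t : ℝ => Real.cos (2 * Real.pi * (X + t • v) i))
      (-Real.sin (2 * Real.pi * X i) * (2 * Real.pi * v i)) 0 := by
  have := (D1_lin X v i).cos
  simpa using this

theorem D1_drho (δ : ℝ) (X v : Vec (n + 3)) :
    HasDerivAt (fun t : ℝ => rho δ (X + t • v))
      (Real.pi * δ * Real.cos (2 * Real.pi * X 2) * v 2) 0 := by
  have h := (((D1_dsin X v 2).div_const 2).const_add 1).const_mul δ
  exact h.congr_deriv (by ring)

theorem D1_drr (δ : ℝ) (X v : Vec (n + 3)) :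
    HasDerivAt (fun t : ℝ => rr δ (X + t • v))
      ((Real.pi * δ * Real.cos (2 * Real.pi * X 2) * v 2) * Real.cos (2 * Real.pi * X 1) -
        rho δ X * Real.sin (2 * Real.pi * X 1) * (2 * Real.pi * v 1)) 0 := by
  have h := ((D1_drho δ X v).mul (D1_dcos X v 1)).const_add 1
  refine h.congr_deriv ?_
  simp only [zero_smul, add_zero]
  ring

theorem em_fd (δ : ℝ) (X v : Vec (n + 3)) : ‖fderiv ℝ (em δ) X v‖ ^ 2 = mn δ X v := by
  set a := (Real.pi * δ * Real.cos (2 * Real.pi * X 2) * v 2) with ha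
  set b := a * Real.cos (2 * Real.pi * X 1) -
        rho δ X * Real.sin (2 * Real.pi * X 1) * (2 * Real.pi * v 1) with hb
  have e0 : fderiv ℝ (em δ) X v 0 = b * Real.cos (2 * Real.pi * X 0) -
      rr δ X * Real.sin (2 * Real.pi * X 0) * (2 * Real.pi * v 0) := by
    refine D1_comp δ X v ?_
    simp only [D1_em0]
    have h := (D1_drr δ X v).mul (D1_dcos X v 0)
    refine h.congr_deriv ?_
    simp only [zero_smul, add_zero]
    ring
  have e1 : fderiv ℝ (em δ) X v 1 = b * Real.sin (2 * Real.pi * X 0) +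
      rr δ X * Real.cos (2 * Real.pi * X 0) * (2 * Real.pi * v 0) := by
    refine D1_comp δ X v ?_
    simp only [D1_em1]
    have h := (D1_drr δ X v).mul (D1_dsin X v 0)
    refine h.congr_deriv ?_
    simp only [zero_smul, add_zero]
    ring
  have e2 : fderiv ℝ (em δ) X v 2 = a * Real.sin (2 * Real.pi * X 1) +
      rho δ X * Real.cos (2 * Real.pi * X 1) * (2 * Real.pi * v 1) := by
    refine D1_comp δ X v ?_
    simp only [D1_em2]
    have h := (D1_drho δ X v).mul (D1_dsin X v 1)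
    refine h.congr_deriv ?_
    simp only [zero_smul, add_zero]
    ring
  have e3 : ∀ i : Fin (n + 3), ¬ (i = 0 ∨ i = 1 ∨ i = 2) →
      fderiv ℝ (em δ) X v i = 2 * Real.pi * δ * Real.cos (2 * Real.pi * X i) * v i := by
    intro i hi
    refine D1_comp δ X v ?_
    simp only [D1_em3 δ _ hi]
    have h := (D1_dsin X v i).const_mul δ
    exact h.congr_deriv (by ring)
  rw [EuclideanSpace.norm_sq_eq, D1_sum]
  have e4 : ∀ i, ‖fderiv ℝ (em δ) X v i‖ ^ 2 = (fderiv ℝ (em δ) X v i) ^ 2 := by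
    intro i
    rw [Real.norm_eq_abs, sq_abs]
  simp only [e4]
  unfold mn
  congr 1
  · rw [e0, e1, e2, ← ha]
    have s0 := Real.sin_sq_add_cos_sq (2 * Real.pi * X 0)
    have s1 := Real.sin_sq_add_cos_sq (2 * Real.pi * X 1)
    have hb2 : b ^ 2 + (a * Real.sin (2 * Real.pi * X 1) +
      rho δ X * Real.cos (2 * Real.pi * X 1) * (2 * Real.pi * v 1)) ^ 2 =
        a ^ 2 + (2 * Real.pi * rho δ X * v 1) ^ 2 := by
      rw [hb]
      linear_combination (a ^ 2 + (2 * Real.pi * rho δ X * v 1) ^ 2) * s1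
    linear_combination (b ^ 2 + (2 * Real.pi * rr δ X * v 0) ^ 2) * s0 + hb2
  · refine Finset.sum_congr rfl fun i _ => ?_
    by_cases h : i = 0 ∨ i = 1 ∨ i = 2
    · rw [if_pos h, if_pos h]
    · rw [if_neg h, if_neg h, e3 i h]

theorem mn_pos {δ : ℝ} (hδ : 0 < δ) (h8 : δ ≤ 1 / 8) {X v : Vec (n + 3)} (hX : X ∈ SO n) (hv : v ≠ 0) :
    0 < mn δ X v := by
  by_contra hcon
  have hz : mn δ X v = 0 := le_antisymm (not_lt.1 hcon) (mn_nonneg δ X v)
  obtain ⟨h1, -⟩ := rr_bd hδ h8 X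
  obtain ⟨h3, -⟩ := rho_bd hδ X
  have hπ := Real.pi_pos
  set T : Fin (n + 3) → ℝ := fun i => if i = 0 ∨ i = 1 ∨ i = 2 then 0 else
    (2 * Real.pi * δ * Real.cos (2 * Real.pi * X i) * v i) ^ 2 with hT
  have hTn : ∀ i ∈ Finset.univ, 0 ≤ T i := by
    intro i _
    simp only [hT]
    split_ifs
    · exact le_refl _
    · positivity
  have hs : 0 ≤ ∑ i, T i := Finset.sum_nonneg hTn
  have hz' : (2 * Real.pi * rr δ X * v 0) ^ 2 + (2 * Real.pi * rho δ X * v 1) ^ 2 +
    (Real.pi * δ * Real.cos (2 * Real.pi * X 2) * v 2) ^ 2 + ∑ i, T i = 0 := hz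
  have p0 := sq_nonneg (2 * Real.pi * rr δ X * v 0)
  have p1 := sq_nonneg (2 * Real.pi * rho δ X * v 1)
  have p2 := sq_nonneg (Real.pi * δ * Real.cos (2 * Real.pi * X 2) * v 2)
  have z0 : 2 * Real.pi * rr δ X * v 0 = 0 := pow_eq_zero_iff (two_ne_zero) |>.1 (by linarith)
  have z1 : 2 * Real.pi * rho δ X * v 1 = 0 := pow_eq_zero_iff (two_ne_zero) |>.1 (by linarith)
  have z2 : Real.pi * δ * Real.cos (2 * Real.pi * X 2) * v 2 = 0 :=
    pow_eq_zero_iff (two_ne_zero) |>.1 (by linarith)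
  have z3 : ∑ i, T i = 0 := by linarith
  rw [Finset.sum_eq_zero_iff_of_nonneg hTn] at z3
  apply hv
  ext i
  change v i = 0
  by_cases i0 : i = 0
  · subst i0
    have : 2 * Real.pi * rr δ X ≠ 0 := by positivity
    exact (mul_eq_zero.1 z0).resolve_left this
  · by_cases i1 : i = 1
    · subst i1
      have : 2 * Real.pi * rho δ X ≠ 0 := by
        have : 0 < rho δ X := by linarith
        positivity
      exact (mul_eq_zero.1 z1).resolve_left this
    · by_cases i2 : i = 2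
      · subst i2
        have hc := hX.2 2 D1_02.symm D1_12.symm
        have : Real.pi * δ * Real.cos (2 * Real.pi * X 2) ≠ 0 := by positivity
        exact (mul_eq_zero.1 z2).resolve_left this
      · have hc := hX.2 i i0 i1
        have h5 := z3 i (Finset.mem_univ i)
        simp only [hT] at h5
        rw [if_neg (by tauto)] at h5
        have h6 := pow_eq_zero_iff (two_ne_zero) |>.1 h5
        have : 2 * Real.pi * δ * Real.cos (2 * Real.pi * X i) ≠ 0 := by positivity
        exact (mul_eq_zero.1 h6).resolve_left this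

end EscW.Dn
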