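import Pool.Agent.EscW.D2

set_option autoImplicit false

/-!
Project EscW, part D, module D9: the calibrated circle.
`fderiv (BB) X v = ll v 0`. `le`: `ll |v 0| ≤ s (1 - ε) (1 + δ) / rr * √mn` (first term of `mn`) and `(1 - ε) (1 + δ) / rr ≤ tw (em X)` (`tr_em`). `only`: equality and `v ≠ 0` (`mn_pos`) force `tQ (em X) = 0` and `smoothTransition (16 qq X) = 0` (`tq_em`), so `qq X = 0`: `sin (2πX i) = 0`
for `i ≥ 2`, `cos > 0`: `X i` is an integer; `rho = δ`, `rr = 1 + δ`: `cos (2πX 1) = 1`: `X 1` is an integer; so `X = cc σ + vz k` with `σ = ll X 0`. `unit`: `mn δ (cc σ) (e0 / ll) = (2π (1 + δ) / ll)²`, `tw = 1 - ε`. `simple`: `hφ`, `em δ (cc σ) = em δ (cc σ')` gives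
`(σ - σ') / ll ∈ ℤ` (`em_inj`). The sets: `cc σ ∈ SO n`: `qq = 0`, `cos 0 = 1`.
-/

noncomputable section

namespace EscW.Dn

open Filter Topology Set EscF.T EscM EscMT MeasureTheory EscW.Ex
open scoped ContDiff

variable {d m n : ℕ}

theorem D9_cc0 (δ ε s σ t : ℝ) : (cc δ ε s σ t : Vec (n + 3)) 0 = σ / ll δ ε s := by
  simp [cc]

theorem D9_cci (δ ε s σ t : ℝ) {i : Fin (n + 3)} (hi : i ≠ 0) : (cc δ ε s σ t : Vec (n + 3)) i = 0 := by
  simp [cc, hi]

theorem D9_cc_eq (δ ε s σ t : ℝ) : (cc δ ε s σ t : Vec (n + 3)) =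
    (σ / ll δ ε s) • EuclideanSpace.single (0 : Fin (n + 3)) (1 : ℝ) := by
  ext i
  by_cases h0 : i = 0
  · subst h0
    simp [cc]
  · simp [cc, h0]

theorem D9_ll_pos {δ ε s : ℝ} (hδ : 0 < δ) (hε4 : ε ≤ 1 / 4) (hs : 0 < s) : 0 < ll δ ε s := by
  unfold ll
  have := Real.pi_pos
  have h1 : 0 < 1 - ε := by linarith
  positivity

theorem D9_deriv (δ ε s σ t : ℝ) : deriv (fun σ => (cc δ ε s σ t : Vec (n + 3))) σ =
    (ll δ ε s)⁻¹ • EuclideanSpace.single (0 : Fin (n + 3)) (1 : ℝ) := by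
  have h : (fun σ => (cc δ ε s σ t : Vec (n + 3))) =
      fun σ => (σ / ll δ ε s) • EuclideanSpace.single (0 : Fin (n + 3)) (1 : ℝ) := by
    funext σ
    exact D9_cc_eq δ ε s σ t
  rw [h]
  have h1 : HasDerivAt (fun σ : ℝ => (σ / ll δ ε s) • EuclideanSpace.single (0 : Fin (n + 3)) (1 : ℝ))
      ((1 / ll δ ε s) • EuclideanSpace.single (0 : Fin (n + 3)) (1 : ℝ)) σ :=
    ((hasDerivAt_id σ).div_const _).smul_const _
  rw [h1.deriv, one_div]

theorem D9_curve (δ ε s : ℝ) : ContDiff ℝ 1 (fun p : ℝ × ℝ => (cc δ ε s p.1 p.2 : Vec (n + 3))) := by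
  have h : (fun p : ℝ × ℝ => (cc δ ε s p.1 p.2 : Vec (n + 3))) =
      fun p => (p.1 / ll δ ε s) • EuclideanSpace.single (0 : Fin (n + 3)) (1 : ℝ) := by
    funext p
    exact D9_cc_eq δ ε s p.1 p.2
  rw [h]
  exact (contDiff_fst.div_const _).smul contDiff_const

theorem D9_qq_cc (δ ε s σ t : ℝ) : qq (cc δ ε s σ t : Vec (n + 3)) = 0 := by
  unfold qq
  apply Finset.sum_eq_zero
  intro i _
  split_ifs with h
  · rfl
  · push Not at h
    rw [D9_cci δ ε s σ t h.1]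
    simp

theorem D9_mem (δ ε s σ t : ℝ) : (cc δ ε s σ t : Vec (n + 3)) ∈ SO n := by
  refine ⟨by rw [D9_qq_cc]; norm_num, fun i h0 _ => ?_⟩
  rw [D9_cci δ ε s σ t h0]
  simp

theorem D9_fderiv (δ ε s t : ℝ) (x v : Vec (n + 3)) :
    fderiv ℝ (fun y => BB δ ε s ((tor (n + 3)).r y) t) x v = ll δ ε s * v 0 := by
  have h : (fun y : Vec (n + 3) => BB δ ε s ((tor (n + 3)).r y) t) =
      fun y => (ll δ ε s • (EuclideanSpace.proj (0 : Fin (n + 3)) : Vec (n + 3) →L[ℝ] ℝ)) y := by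
    funext y
    simp [BB, tor]
  rw [h, ContinuousLinearMap.fderiv]
  simp

theorem D9_em_i (δ : ℝ) (X : Vec (n + 3)) {i : Fin (n + 3)} (h0 : i ≠ 0) (h1 : i ≠ 1) (h2 : i ≠ 2) :
    em δ X i = δ * Real.sin (2 * Real.pi * X i) := by
  simp [em, h0, h1, h2]

theorem D9_20 : (2 : Fin (n + 3)) ≠ 0 := by
  rw [Ne, Fin.ext_iff]
  show ¬ (2 % (n + 3) = 0 % (n + 3))
  rw [Nat.mod_eq_of_lt (by omega), Nat.mod_eq_of_lt (by omega)]
  omega

theorem D9_21 : (2 : Fin (n + 3)) ≠ 1 := by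
  rw [Ne, Fin.ext_iff]
  show ¬ (2 % (n + 3) = 1 % (n + 3))
  rw [Nat.mod_eq_of_lt (by omega), Nat.mod_eq_of_lt (by omega)]
  omega

theorem D9_em_2 (δ : ℝ) (X : Vec (n + 3)) : em δ X 2 = rho δ X * Real.sin (2 * Real.pi * X 1) := by
  simp [em, D9_20, D9_21]

theorem D9_tQ_nonneg (δ : ℝ) (Y : Vec (n + 3)) : 0 ≤ tQ δ Y := by
  unfold tQ
  have h : 0 ≤ ∑ i, if i = (0 : Fin (n + 3)) ∨ i = 1 ∨ i = 2 then (0 : ℝ) else Y i ^ 2 := by
    apply Finset.sum_nonneg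
    intro i _
    split_ifs
    · exact le_rfl
    · positivity
  positivity

theorem D9_mn_ge (δ : ℝ) (X v : Vec (n + 3)) : (2 * Real.pi * rr δ X * v 0) ^ 2 ≤ mn δ X v := by
  unfold mn
  have h : 0 ≤ ∑ i, if i = (0 : Fin (n + 3)) ∨ i = 1 ∨ i = 2 then (0 : ℝ) else
      (2 * Real.pi * δ * Real.cos (2 * Real.pi * X i) * v i) ^ 2 := by
    apply Finset.sum_nonneg
    intro i _
    split_ifs
    · exact le_rfl
    · positivity
  have h1 : 0 ≤ (2 * Real.pi * rho δ X * v 1) ^ 2 := by positivity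
  have h2 : 0 ≤ (Real.pi * δ * Real.cos (2 * Real.pi * X 2) * v 2) ^ 2 := by positivity
  linarith

/-- the estimate, with the remainder term -/
theorem D9_le {δ ε s : ℝ} (hδ : 0 < δ) (h8 : δ ≤ 1 / 8) (_hε : 0 < ε) (hε4 : ε ≤ 1 / 4) (hs : 0 < s)
    (X v : Vec (n + 3)) :
    ll δ ε s * v 0 + s * (tQ δ (em δ X) + ε / 2 * Real.smoothTransition (16 * qq X)) * √(mn δ X v) ≤
      FM δ ε s X v := by
  have hr := (rr_bd hδ h8 X).1
  have hr0 : 0 < rr δ X := by linarith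
  have hpi := Real.pi_pos
  have h1 : 2 * Real.pi * rr δ X * v 0 ≤ √(mn δ X v) := Real.le_sqrt_of_sq_le (D9_mn_ge δ X v)
  have h2 : ll δ ε s * v 0 = s * ((1 - ε) * (1 + δ) / rr δ X) * (2 * Real.pi * rr δ X * v 0) := by
    unfold ll
    field_simp
  have h3 : 0 ≤ s * ((1 - ε) * (1 + δ) / rr δ X) := by
    have : 0 ≤ 1 - ε := by linarith
    positivity
  have h4 : ll δ ε s * v 0 ≤ s * ((1 - ε) * (1 + δ) / rr δ X) * √(mn δ X v) := by
    rw [h2]
    exact mul_le_mul_of_nonneg_left h1 h3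
  have h5 : FM δ ε s X v = s * ((1 - ε) * (1 + δ) / rr δ X) * √(mn δ X v) +
      s * (tQ δ (em δ X) + ε / 2 * Real.smoothTransition (16 * qq X)) * √(mn δ X v) := by
    unfold FM tw
    rw [tr_em hδ h8, tq_em hδ h8]
    ring
  linarith

theorem D9_rem_nonneg {δ ε s : ℝ} (hε : 0 < ε) (hs : 0 < s) (X v : Vec (n + 3)) :
    0 ≤ s * (tQ δ (em δ X) + ε / 2 * Real.smoothTransition (16 * qq X)) * √(mn δ X v) := by
  have h1 := D9_tQ_nonneg δ (em δ X)
  have h2 := Real.smoothTransition.nonneg (16 * qq X)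
  have h3 := Real.sqrt_nonneg (mn δ X v)
  have h4 : 0 ≤ ε / 2 * Real.smoothTransition (16 * qq X) := by positivity
  exact mul_nonneg (mul_nonneg hs.le (by linarith)) h3

theorem D9_rho_cc (δ ε s σ t : ℝ) : rho δ (cc δ ε s σ t : Vec (n + 3)) = δ := by
  unfold rho
  rw [D9_cci δ ε s σ t D9_20]
  simp

theorem D9_rr_cc (δ ε s σ t : ℝ) : rr δ (cc δ ε s σ t : Vec (n + 3)) = 1 + δ := by
  unfold rr
  rw [D9_rho_cc, D9_cci δ ε s σ t (by simp)]
  simp

theorem D9_mn_cc {δ ε s : ℝ} (hδ : 0 < δ) (σ t : ℝ) (a : ℝ) (ha : 0 ≤ a) :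
    √(mn δ (cc δ ε s σ t : Vec (n + 3)) (a • EuclideanSpace.single (0 : Fin (n + 3)) (1 : ℝ))) =
      2 * Real.pi * (1 + δ) * a := by
  have hpi := Real.pi_pos
  have h : mn δ (cc δ ε s σ t : Vec (n + 3)) (a • EuclideanSpace.single (0 : Fin (n + 3)) (1 : ℝ)) =
      (2 * Real.pi * (1 + δ) * a) ^ 2 := by
    unfold mn
    rw [D9_rr_cc]
    have h1 : ∑ i, (if i = (0 : Fin (n + 3)) ∨ i = 1 ∨ i = 2 then (0 : ℝ) else
      (2 * Real.pi * δ * Real.cos (2 * Real.pi * (cc δ ε s σ t : Vec (n + 3)) i) *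
        (a • EuclideanSpace.single (0 : Fin (n + 3)) (1 : ℝ) : Vec (n + 3)) i) ^ 2) = 0 := by
      apply Finset.sum_eq_zero
      intro i _
      split_ifs with h
      · rfl
      · push Not at h
        simp [h.1]
    rw [h1]
    simp [D9_20]
  rw [h, Real.sqrt_sq (by positivity)]

theorem D9_tQ_cc {δ ε s : ℝ} (hδ : 0 < δ) (h8 : δ ≤ 1 / 8) (σ t : ℝ) :
    tQ δ (em δ (cc δ ε s σ t : Vec (n + 3))) = 0 := by
  unfold tQ
  rw [tr_em hδ h8, D9_rr_cc, D9_em_2, D9_cci δ ε s σ t (by simp)]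
  have h1 : ∑ i, (if i = (0 : Fin (n + 3)) ∨ i = 1 ∨ i = 2 then (0 : ℝ) else
      (em δ (cc δ ε s σ t : Vec (n + 3)) i) ^ 2) = 0 := by
    apply Finset.sum_eq_zero
    intro i _
    split_ifs with h
    · rfl
    · push Not at h
      rw [D9_em_i δ _ h.1 h.2.1 h.2.2, D9_cci δ ε s σ t h.1]
      simp
  rw [h1]
  simp

theorem D9_unit {δ ε s : ℝ} (hδ : 0 < δ) (h8 : δ ≤ 1 / 8) (hε4 : ε ≤ 1 / 4) (hs : 0 < s) (σ t : ℝ) :
    FM δ ε s (cc δ ε s σ t : Vec (n + 3)) ((ll δ ε s)⁻¹ • EuclideanSpace.single (0 : Fin (n + 3)) (1 : ℝ)) = 1 := by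
  have hl := D9_ll_pos hδ hε4 hs
  unfold FM tw
  rw [D9_mn_cc hδ σ t _ (inv_nonneg.2 hl.le), tr_em hδ h8, tq_em hδ h8, D9_rr_cc, D9_qq_cc, D9_tQ_cc hδ h8]
  have h1 : Real.smoothTransition (16 * 0 : ℝ) = 0 := Real.smoothTransition.zero_of_nonpos (by norm_num)
  rw [h1]
  unfold ll at hl ⊢
  have hpi := Real.pi_pos
  have h2 : 0 < 1 - ε := by linarith
  have h3 : 0 < 1 + δ := by linarith
  field_simp
  ring

theorem D9_qq_term (X : Vec (n + 3)) {i : Fin (n + 3)} (h0 : i ≠ 0) (h1 : i ≠ 1) :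
    Real.sin (2 * Real.pi * X i) ^ 2 ≤ qq X := by
  unfold qq
  have h := Finset.single_le_sum (f := fun i : Fin (n + 3) => if i = 0 ∨ i = 1 then 0 else
    Real.sin (2 * Real.pi * X i) ^ 2) (s := Finset.univ) (by
      intro j _
      dsimp only
      split_ifs
      · exact le_rfl
      · positivity) (Finset.mem_univ i)
  simpa [h0, h1] using h

theorem D9_int {x : ℝ} (h : Real.cos (2 * Real.pi * x) = 1) : ∃ k : ℤ, x = k := by
  obtain ⟨k, hk⟩ := (Real.cos_eq_one_iff _).1 h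
  refine ⟨k, ?_⟩
  have hpi := Real.pi_pos
  have h3 : 2 * Real.pi * (x - k) = 0 := by
    rw [mul_sub, ← hk]
    ring
  rcases mul_eq_zero.1 h3 with h5 | h5
  · linarith
  · linarith

theorem D9_only {δ ε s : ℝ} (hδ : 0 < δ) (h8 : δ ≤ 1 / 8) (hε : 0 < ε) (hε4 : ε ≤ 1 / 4) (hs : 0 < s)
    {X v : Vec (n + 3)} (hX : X ∈ SO n) (t : ℝ) (hv : v ≠ 0) (h : ll δ ε s * v 0 = FM δ ε s X v) :
    ∃ (σ : ℝ) (k : Fin (n + 3) → ℤ), X = cc δ ε s σ t + vz k := by
  have hl := D9_ll_pos hδ hε4 hs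
  have h1 := D9_le hδ h8 hε hε4 hs X v
  have h2 := D9_rem_nonneg (δ := δ) hε hs X v
  have h3 : s * (tQ δ (em δ X) + ε / 2 * Real.smoothTransition (16 * qq X)) * √(mn δ X v) = 0 := by
    linarith
  have h4 : 0 < √(mn δ X v) := Real.sqrt_pos.2 (mn_pos hδ h8 hX hv)
  have h5 := D9_tQ_nonneg δ (em δ X)
  have h6 := Real.smoothTransition.nonneg (16 * qq X)
  have h7 : tQ δ (em δ X) + ε / 2 * Real.smoothTransition (16 * qq X) = 0 := by
    rcases mul_eq_zero.1 h3 with h | h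
    · rcases mul_eq_zero.1 h with h | h
      · exact absurd h hs.ne'
      · exact h
    · exact absurd h h4.ne'
  have h8' : 0 ≤ ε / 2 * Real.smoothTransition (16 * qq X) := by positivity
  have h9 : tQ δ (em δ X) = 0 := by linarith
  have h10 : Real.smoothTransition (16 * qq X) = 0 := by
    have h11 : ε / 2 * Real.smoothTransition (16 * qq X) = 0 := by linarith
    rcases mul_eq_zero.1 h11 with h | h
    · linarith
    · exact h
  have hq : qq X = 0 := by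
    have h11 := qq_nonneg X
    have h12 := Real.smoothTransition.zero_iff_nonpos.1 h10
    linarith
  have hsin : ∀ i : Fin (n + 3), i ≠ 0 → i ≠ 1 → Real.sin (2 * Real.pi * X i) = 0 := by
    intro i hi0 hi1
    have h11 := D9_qq_term X hi0 hi1
    rw [hq] at h11
    exact pow_eq_zero_iff (two_ne_zero) |>.1 (le_antisymm h11 (sq_nonneg _))
  have hcos : ∀ i : Fin (n + 3), i ≠ 0 → i ≠ 1 → Real.cos (2 * Real.pi * X i) = 1 := by
    intro i hi0 hi1
    have h11 := hsin i hi0 hi1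
    have h12 := hX.2 i hi0 hi1
    rcases Real.sin_eq_zero_iff_cos_eq.1 h11 with h | h
    · exact h
    · linarith
  have hrho : rho δ X = δ := by
    unfold rho
    rw [hsin 2 D9_20 D9_21]
    simp
  have hrr : rr δ X = 1 + δ := by
    have h11 : 0 ≤ em δ X 2 ^ 2 := sq_nonneg _
    have h12 : 0 ≤ ∑ i, if i = (0 : Fin (n + 3)) ∨ i = 1 ∨ i = 2 then (0 : ℝ) else em δ X i ^ 2 := by
      apply Finset.sum_nonneg
      intro i _
      split_ifs
      · exact le_rfl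
      · positivity
    have h13 : (tr (em δ X) - 1 - δ) ^ 2 + em δ X 2 ^ 2 +
        (∑ i, if i = (0 : Fin (n + 3)) ∨ i = 1 ∨ i = 2 then (0 : ℝ) else em δ X i ^ 2) = 0 := h9
    have h14 : (tr (em δ X) - 1 - δ) ^ 2 = 0 := le_antisymm (by linarith) (sq_nonneg _)
    have h15 := pow_eq_zero_iff (two_ne_zero) |>.1 h14
    rw [tr_em hδ h8] at h15
    linarith
  have hcos1 : Real.cos (2 * Real.pi * X 1) = 1 := by
    unfold rr at hrr
    rw [hrho] at hrr
    have h11 : δ * Real.cos (2 * Real.pi * X 1) = δ * 1 := by linarith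
    exact mul_left_cancel₀ hδ.ne' h11
  have key : ∀ i : Fin (n + 3), ∃ k : ℤ, X i = (cc δ ε s (ll δ ε s * X 0) t : Vec (n + 3)) i + k := by
    intro i
    by_cases hi0 : i = 0
    · subst hi0
      refine ⟨0, ?_⟩
      rw [D9_cc0, mul_div_cancel_left₀ _ hl.ne']
      simp
    · rw [D9_cci _ _ _ _ _ hi0]
      by_cases hi1 : i = 1
      · subst hi1
        obtain ⟨k, hk⟩ := D9_int hcos1
        exact ⟨k, by rw [hk]; simp⟩
      · obtain ⟨k, hk⟩ := D9_int (hcos i hi0 hi1)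
        exact ⟨k, by rw [hk]; simp⟩
  choose k hk using key
  refine ⟨ll δ ε s * X 0, k, ?_⟩
  ext i
  rw [hk i]
  simp [vz]

theorem cal {δ ε s : ℝ} (hδ : 0 < δ) (h8 : δ ≤ 1 / 8) (hε : 0 < ε) (hε4 : ε ≤ 1 / 4) (hs : 0 < s)
    {F : Vec (n + 3) → Vec (n + 3) → ℝ → ℝ} (hF : ∀ X ∈ SO n, ∀ v t, F X v t = FM δ ε s X v)
    {φ : Vec (n + 3) → Vec d} (hφ : ∀ X Y (l : Fin d → ℤ), φ Y = φ X + vz l → em δ X = em δ Y) :
    IsCalibratedW (tor (n + 3)) (SO n) φ F (BB δ ε s) 0 (ll δ ε s) (cc δ ε s) := by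
  have hl := D9_ll_pos hδ hε4 hs
  exact
  { smooth := by
      have h : (fun p : Vec (n + 3) × ℝ => BB δ ε s ((tor (n + 3)).r p.1) p.2) =
          fun p => (ll δ ε s • (EuclideanSpace.proj (0 : Fin (n + 3)) : Vec (n + 3) →L[ℝ] ℝ)) p.1 := by
        funext p
        simp [BB, tor]
      rw [h]
      exact ((ContinuousLinearMap.contDiff _).comp contDiff_fst).contDiffOn
    periodic := fun _ _ _ => rfl
    periods := fun k => ⟨ll δ ε s * k 0, fun x _ _ => by simp [BB, vz, mul_add]⟩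
    lip := ⟨0, fun x _ v _ t t' => by simp [D9_fderiv]⟩
    le := fun x hx v _ t => by
      rw [D9_fderiv, hF x hx.2]
      have h1 := D9_le hδ h8 hε hε4 hs x v
      have h2 := D9_rem_nonneg (δ := δ) hε hs x v
      linarith
    len_pos := hl
    curve := D9_curve δ ε s
    mem := fun σ t => ⟨mem_univ _, D9_mem δ ε s σ t⟩
    closed := fun σ t => by
      rw [D9_cc_eq, D9_cc_eq, add_div, div_self hl.ne', add_smul, one_smul]
      congr 1
      ext i
      by_cases h0 : i = 0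
      · subst h0
        simp [vz]
      · simp [vz, h0]
    curve_per := fun _ _ => rfl
    unit := fun σ t => by
      rw [D9_deriv, hF _ (D9_mem δ ε s σ t), D9_unit hδ h8 hε4 hs]
    cal := fun σ t => (by
      simp only [BB, D9_cc0]
      rw [mul_div_cancel₀ _ hl.ne', mul_div_cancel₀ _ hl.ne']
      ring)
    only := fun x hx v _ t hv h => by
      rw [D9_fderiv, hF x hx.2] at h
      exact D9_only hδ h8 hε hε4 hs hx.2 t hv h
    simple := fun σ σ' t l h => by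
      obtain ⟨k, hk⟩ := em_inj hδ h8 (D9_mem δ ε s σ' t) (D9_mem δ ε s σ t) (hφ _ _ l h)
      refine ⟨k 0, ?_⟩
      have h0 := congrArg (fun y : Vec (n + 3) => y 0) hk
      simp only [PiLp.add_apply, D9_cc0] at h0
      have h2 : (vz k : Vec (n + 3)) 0 = (k 0 : ℝ) := rfl
      rw [h2] at h0
      field_simp at h0
      linarith }

end EscW.Dn
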