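import Pool.Agent.EscW.D3
import Pool.Agent.EscW.D4
import Pool.Agent.EscW.D5
import Pool.Agent.EscW.D6
import Pool.Agent.EscW.D7
import Pool.Agent.EscW.D8
import Pool.Agent.EscW.D9
import Pool.Agent.EscW.D10

set_option autoImplicit false

/-!
Project EscW, part D, module D11: density: final theorem.
`finrank = n + 3`. `ε1 = min (1/4) (ε/8)`, `η = min 1 (ε/2)`; `exists_mdata`; `δ` from `room`, `δ ≤ ε1/8`, `δ ≤ 1/8`; `s` small; `w = tW δ ε1` (`tW_bd`: positive), `q' = qnew ..`, `φ X = g (s • A (em δ X))`. `InClass`: `κ = 1`, `F = nrm q'` (`finsler_of_riem`), `M' = tor (n + 3)`, `O = SO n`, `K = SK n`,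
`G = ⊥`; `pull φ F X v t = √((s w (em X))² ‖D em v‖²) = FM δ ε1 s X v` for `X ∈ SO n` (`qnew_pull`, `em_fd`, `tW_em`; `tw > 0`).
-/

noncomputable section

namespace EscW.Dn

open Filter Topology Set EscF.T EscM EscMT MeasureTheory EscW.Ex
open scoped ContDiff

variable {d m n : ℕ}

/-- the pull-back of the new metric in the shell -/
theorem D11_pull {M : Sub d} {q : Vec d → Vec d →L[ℝ] Vec d →L[ℝ] ℝ}
    {W : Set (Vec d)} {ρ s : ℝ} {g : Vec (n + 3) → Vec d} {g' : Vec d → Vec (n + 3)}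
    (hg : MChart M (n + 3) W ρ g g') (A : Vec (n + 3) ≃L[ℝ] Vec (n + 3)) (hs : 0 < s) {δ ε : ℝ}
    (hε : 0 < ε) (hε4 : ε ≤ 1 / 4) (hδ : 0 < δ) (hδε : δ ≤ ε / 8) (h8 : δ ≤ 1 / 8)
    (hsA : s * (‖(A : Vec (n + 3) →L[ℝ] Vec (n + 3))‖ * emB n) ≤ ρ / 2) {X : Vec (n + 3)}
    (hX : X ∈ SO n) (v : Vec (n + 3)) (t : ℝ) :
    pull (fun X => g (s • A (em δ X))) (nrm (qnew q W ρ s g' A (tW δ ε))) X v t = FM δ ε s X v := by
  have hw := tW_bd hε hε4 hδ hδε (em δ X)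
  have h1 := qnew_pull (q := q) hg A hs (tW δ ε) (em_smooth δ)
    (fun X => (phi_mem hg A hδ h8 hs hsA X).1) X v
  have h2 : 0 ≤ s * tW δ ε (em δ X) := mul_nonneg hs.le (by linarith [hw.1])
  rw [pull, nrm, h1, em_fd, Real.sqrt_mul (sq_nonneg _), Real.sqrt_sq h2, tW_em hδ h8 ε hX.1.le, FM]

theorem dense_riemannian {M : Sub d} {y0 : Vec d} (hy : y0 ∈ M.N)
    (hdim : 3 ≤ Module.finrank ℝ (LinearMap.range (fderiv ℝ M.r y0 : Vec d →ₗ[ℝ] Vec d)))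
    {j : ℕ∞} {q : Vec d → Vec d →L[ℝ] Vec d →L[ℝ] ℝ} (hq : IsRiemannian M j q)
    {W0 : Set (Vec d)} (hW : IsOpen W0) (hy0 : y0 ∈ W0) {ε : ℝ} (hε : 0 < ε) :
    ∃ q' : Vec d → Vec d →L[ℝ] Vec d →L[ℝ] ℝ, IsRiemannian M j q' ∧
      (∀ x ∈ M.N, ∀ v, IsTangent M x v → |q' x v v - q x v v| ≤ ε * q x v v) ∧
      (∀ x ∈ M.N, (∀ l : Fin d → ℤ, x + vz l ∉ W0) → q' x = q x) ∧
      ∀ κ : ℝ → ℝ, IsWeight κ → ∀ L : Lag d, IsNearT M κ (nrm q') L → InClass M L := by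
  obtain ⟨n, hn⟩ : ∃ n, Module.finrank ℝ (LinearMap.range (fderiv ℝ M.r y0 : Vec d →ₗ[ℝ] Vec d)) =
      n + 3 := ⟨_, (Nat.sub_add_cancel hdim).symm⟩
  obtain ⟨ε1, hε1, hε14, hε18⟩ : ∃ ε1 : ℝ, 0 < ε1 ∧ ε1 ≤ 1 / 4 ∧ ε1 ≤ ε / 8 :=
    ⟨min (1 / 4) (ε / 8), lt_min (by norm_num) (by linarith), min_le_left _ _, min_le_right _ _⟩
  obtain ⟨η, hη, hη1, hη2⟩ : ∃ η : ℝ, 0 < η ∧ η ≤ 1 ∧ η ≤ ε / 2 :=
    ⟨min 1 (ε / 2), lt_min one_pos (by linarith), min_le_left _ _, min_le_right _ _⟩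
  obtain ⟨W, ρ, g, g', A, hWW, hd⟩ := exists_mdata hy hn hq hW hy0 hη
  have hg := hd.chart
  obtain ⟨δ0, hδ0, hroom⟩ := room n hε1 hε14
  obtain ⟨δ, hδ, hδ1, hδε, h8⟩ : ∃ δ : ℝ, 0 < δ ∧ δ ≤ δ0 ∧ δ ≤ ε1 / 8 ∧ δ ≤ 1 / 8 :=
    ⟨min δ0 (min (ε1 / 8) (1 / 8)), lt_min hδ0 (lt_min (by linarith) (by norm_num)),
      min_le_left _ _, (min_le_right _ _).trans (min_le_left _ _),
      (min_le_right _ _).trans (min_le_right _ _)⟩
  obtain ⟨s, hs, hsA⟩ : ∃ s : ℝ, 0 < s ∧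
      s * (‖(A : Vec (n + 3) →L[ℝ] Vec (n + 3))‖ * emB n) ≤ ρ / 2 := by
    have hρ := hg.pos
    have hB : 0 ≤ ‖(A : Vec (n + 3) →L[ℝ] Vec (n + 3))‖ * emB n := by
      have : (0:ℝ) ≤ emB n := by
        unfold emB
        positivity
      positivity
    refine ⟨ρ / 2 / (‖(A : Vec (n + 3) →L[ℝ] Vec (n + 3))‖ * emB n + 1), by positivity, ?_⟩
    rw [div_mul_eq_mul_div, div_le_iff₀ (by positivity)]
    have : 0 ≤ ρ / 2 := by positivity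
    nlinarith
  have hwb := tW_bd (n := n) hε1 hε14 hδ hδε
  have hw0 : ∀ z : Vec (n + 3), 0 < tW δ ε1 z := fun z => by linarith [(hwb z).1]
  have hq' : IsRiemannian M j (qnew q W ρ s g' A (tW δ ε1)) :=
    qnew_riem hq hg A hs (tW_smooth hδ h8 ε1) hw0
  refine ⟨qnew q W ρ s g' A (tW δ ε1), hq', ?_, ?_, ?_⟩
  · intro x hx v hv
    refine (qnew_near hq hd hη.le hη1 hε1 hε14 hwb hx hv).trans ?_
    have h0 : 0 ≤ q x v v := by
      by_cases hv0 : v = 0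
      · rw [hv0]
        simp
      · exact (hq.pos x hx v hv hv0).le
    exact mul_le_mul_of_nonneg_right (by linarith) h0
  · intro x _ hl
    exact qnew_off fun l hl' => hl l (hWW hl')
  · intro κ hκ L hL
    have hF : ∀ X ∈ SO n, ∀ v t, pull (fun X => g (s • A (em δ X)))
        (nrm (qnew q W ρ s g' A (tW δ ε1))) X v t = FM δ ε1 s X v := fun X hX v t =>
      D11_pull hg A hs hε1 hε14 hδ hδε h8 hsA hX v t
    obtain ⟨a, ha⟩ := hroom δ hδ hδ1 s hs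
    exact ⟨κ, nrm (qnew q W ρ s g' A (tW δ ε1)), n + 3, tor (n + 3), SO n, SK n, ⊥,
      fun X => g (s • A (em δ X)), BB δ ε1 s, 0, ll δ ε1 s, a, cc δ ε1 s,
      hκ, finsler_of_riem hq', hL,
      exists_chart hg A hδ h8 hs hsA,
      cal hδ h8 hε1 hε14 hs hF (fun X Y l h => phi_inj hg A hδ h8 hs hsA X Y l h),
      ha _ hF⟩

end EscW.Dn
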