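import Pool.Agent.EscW.D1

set_option autoImplicit false

/-!
Project EscW, part D, module D2: fibres and local inverses of the parametrisation.
`em_inj`: `tr_em`, `tρ_em`: `rr`, `rho` agree, hence `cos`, `sin` of `2πX 0` (divide by `rr > 0`), of `2πX 1` (divide by `rho > 0`, `rr - 1 = rho cos`), `sin (2πX i)` for `i ≥ 2` (`rho` gives `i = 2`), and `cos (2πX i) > 0` has the square `1 - sin²`; equal cosines
and sines: the difference is an integer. `em_inverse`: the derivative is injective (`em_fd`, `mn_pos`), inverse function theorem (`ContDiffAt.toOpenPartialHomeomorph` or so, `ContDiffAt.to_localInverse`). `SK_sub`: `sin² ≤ 1/4`, so `cos² ≥ 3/4`.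
-/

noncomputable section

namespace EscW.Dn

open Filter Topology Set EscF.T EscM EscMT MeasureTheory EscW.Ex
open scoped ContDiff

variable {d m n : ℕ}

theorem D2_cos_cont (i : Fin (n + 3)) :
    Continuous (fun X : Vec (n + 3) => Real.cos (2 * Real.pi * X i)) := by
  fun_prop

theorem D2_cos_per (k : Fin (n + 3) → ℤ) (X : Vec (n + 3)) (i : Fin (n + 3)) :
    Real.cos (2 * Real.pi * (X + vz k) i) = Real.cos (2 * Real.pi * X i) := by
  have h1 : 2 * Real.pi * (X + vz k) i = 2 * Real.pi * X i + (k i : ℤ) * (2 * Real.pi) := by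
    have h2 : (X + vz k) i = X i + (k i : ℝ) := rfl
    rw [h2]
    ring
  rw [h1, Real.cos_add_int_mul_two_pi]

theorem SO_open : IsOpen (SO n) := by
  have h1 : SO n = {X : Vec (n + 3) | qq X < 1 / 3} ∩
      ⋂ i : Fin (n + 3), {X : Vec (n + 3) | i ≠ 0 → i ≠ 1 → 0 < Real.cos (2 * Real.pi * X i)} := by
    ext X
    simp only [SO, mem_ofPred_eq, mem_inter_iff, mem_iInter]
  rw [h1]
  refine (isOpen_lt qq_smooth.continuous continuous_const).inter ?_
  refine isOpen_iInter_of_finite fun i => ?_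
  by_cases h : i ≠ 0 ∧ i ≠ 1
  · have h2 : {X : Vec (n + 3) | i ≠ 0 → i ≠ 1 → 0 < Real.cos (2 * Real.pi * X i)} =
        {X : Vec (n + 3) | 0 < Real.cos (2 * Real.pi * X i)} := by
      ext X
      exact ⟨fun h3 => h3 h.1 h.2, fun h3 _ _ => h3⟩
    rw [h2]
    exact isOpen_lt continuous_const (D2_cos_cont i)
  · have h2 : {X : Vec (n + 3) | i ≠ 0 → i ≠ 1 → 0 < Real.cos (2 * Real.pi * X i)} = univ := by
      ext X
      simp only [mem_ofPred_eq, mem_univ, iff_true]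
      exact fun h3 h4 => absurd ⟨h3, h4⟩ h
    rw [h2]
    exact isOpen_univ

theorem SO_per (k : Fin (n + 3) → ℤ) {X : Vec (n + 3)} (hX : X ∈ SO n) : X + vz k ∈ SO n := by
  refine ⟨?_, fun i h0 h1 => ?_⟩
  · rw [qq_per]
    exact hX.1
  · rw [D2_cos_per]
    exact hX.2 i h0 h1

theorem SK_closed : IsClosed (SK n) := by
  have h1 : SK n = {X : Vec (n + 3) | qq X ≤ 1 / 4} ∩
      ⋂ i : Fin (n + 3), {X : Vec (n + 3) | i ≠ 0 → i ≠ 1 → 0 ≤ Real.cos (2 * Real.pi * X i)} := by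
    ext X
    simp only [SK, mem_ofPred_eq, mem_inter_iff, mem_iInter]
  rw [h1]
  refine (isClosed_le qq_smooth.continuous continuous_const).inter ?_
  refine isClosed_iInter fun i => ?_
  by_cases h : i ≠ 0 ∧ i ≠ 1
  · have h2 : {X : Vec (n + 3) | i ≠ 0 → i ≠ 1 → 0 ≤ Real.cos (2 * Real.pi * X i)} =
        {X : Vec (n + 3) | 0 ≤ Real.cos (2 * Real.pi * X i)} := by
      ext X
      exact ⟨fun h3 => h3 h.1 h.2, fun h3 _ _ => h3⟩
    rw [h2]
    exact isClosed_le continuous_const (D2_cos_cont i)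
  · have h2 : {X : Vec (n + 3) | i ≠ 0 → i ≠ 1 → 0 ≤ Real.cos (2 * Real.pi * X i)} = univ := by
      ext X
      simp only [mem_ofPred_eq, mem_univ, iff_true]
      exact fun h3 h4 => absurd ⟨h3, h4⟩ h
    rw [h2]
    exact isClosed_univ

theorem SK_per (k : Fin (n + 3) → ℤ) {X : Vec (n + 3)} (hX : X ∈ SK n) : X + vz k ∈ SK n := by
  refine ⟨?_, fun i h0 h1 => ?_⟩
  · rw [qq_per]
    exact hX.1
  · rw [D2_cos_per]
    exact hX.2 i h0 h1

theorem D2_sin_le (X : Vec (n + 3)) (i : Fin (n + 3)) (h0 : i ≠ 0) (h1 : i ≠ 1) :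
    Real.sin (2 * Real.pi * X i) ^ 2 ≤ qq X := by
  have h2 : (if i = 0 ∨ i = 1 then (0 : ℝ) else Real.sin (2 * Real.pi * X i) ^ 2) =
      Real.sin (2 * Real.pi * X i) ^ 2 := if_neg (by tauto)
  rw [← h2]
  unfold qq
  exact Finset.single_le_sum
    (f := fun i : Fin (n + 3) => if i = 0 ∨ i = 1 then (0 : ℝ) else Real.sin (2 * Real.pi * X i) ^ 2)
    (fun j _ => by
      show (0 : ℝ) ≤ if j = 0 ∨ j = 1 then (0 : ℝ) else Real.sin (2 * Real.pi * X j) ^ 2
      split_ifs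
      · exact le_rfl
      · exact sq_nonneg _) (Finset.mem_univ i)

theorem SK_sub : SK n ⊆ SO n := by
  intro X hX
  refine ⟨lt_of_le_of_lt hX.1 (by norm_num), fun i h0 h1 => ?_⟩
  refine lt_of_le_of_ne (hX.2 i h0 h1) fun h => ?_
  have h2 := D2_sin_le X i h0 h1
  have h3 := Real.sin_sq_add_cos_sq (2 * Real.pi * X i)
  have h4 := hX.1
  rw [← h] at h3
  linarith

theorem D2_int {x y : ℝ} (hc : Real.cos (2 * Real.pi * x) = Real.cos (2 * Real.pi * y))
    (hs : Real.sin (2 * Real.pi * x) = Real.sin (2 * Real.pi * y)) : ∃ k : ℤ, y = x + k := by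
  have h1 := Real.Angle.cos_sin_inj hc.symm hs.symm
  rw [Real.Angle.angle_eq_iff_two_pi_dvd_sub] at h1
  obtain ⟨k, hk⟩ := h1
  refine ⟨k, ?_⟩
  have h2 : (0 : ℝ) < 2 * Real.pi := Real.two_pi_pos
  have h3 : 2 * Real.pi * (y - x - k) = 0 := by linarith
  rcases mul_eq_zero.1 h3 with h4 | h4
  · exact absurd h4 h2.ne'
  · linarith

theorem D2_cos_eq {a b : ℝ} (ha : 0 < Real.cos a) (hb : 0 < Real.cos b)
    (hs : Real.sin a = Real.sin b) : Real.cos a = Real.cos b := by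
  have h1 := Real.sin_sq_add_cos_sq a
  have h2 := Real.sin_sq_add_cos_sq b
  rw [hs] at h1
  have h3 : Real.cos a ^ 2 = Real.cos b ^ 2 := by linarith
  exact (pow_left_inj₀ ha.le hb.le two_ne_zero).1 h3

theorem D2_one_ne : (1 : Fin (n + 3)) ≠ 0 := by
  intro h
  have := congrArg Fin.val h
  simp at this

theorem D2_two_ne : (2 : Fin (n + 3)) ≠ 0 := by
  intro h
  have h1 := congrArg Fin.val h
  rw [Fin.val_two] at h1
  exact absurd h1 (by simp)

theorem D2_two_ne' : (2 : Fin (n + 3)) ≠ 1 := by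
  intro h
  have h1 := congrArg Fin.val h
  rw [Fin.val_two] at h1
  exact absurd h1 (by simp)

theorem D2_em0 (δ : ℝ) (X : Vec (n + 3)) : em δ X 0 = rr δ X * Real.cos (2 * Real.pi * X 0) := by
  show (if (0 : Fin (n + 3)) = 0 then rr δ X * Real.cos (2 * Real.pi * X 0) else
    if (0 : Fin (n + 3)) = 1 then rr δ X * Real.sin (2 * Real.pi * X 0) else
    if (0 : Fin (n + 3)) = 2 then rho δ X * Real.sin (2 * Real.pi * X 1) else
      δ * Real.sin (2 * Real.pi * X 0)) = _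
  rw [if_pos rfl]

theorem D2_em1 (δ : ℝ) (X : Vec (n + 3)) : em δ X 1 = rr δ X * Real.sin (2 * Real.pi * X 0) := by
  show (if (1 : Fin (n + 3)) = 0 then rr δ X * Real.cos (2 * Real.pi * X 0) else
    if (1 : Fin (n + 3)) = 1 then rr δ X * Real.sin (2 * Real.pi * X 0) else
    if (1 : Fin (n + 3)) = 2 then rho δ X * Real.sin (2 * Real.pi * X 1) else
      δ * Real.sin (2 * Real.pi * X 1)) = _
  rw [if_neg D2_one_ne, if_pos rfl]

theorem D2_em2 (δ : ℝ) (X : Vec (n + 3)) : em δ X 2 = rho δ X * Real.sin (2 * Real.pi * X 1) := by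
  show (if (2 : Fin (n + 3)) = 0 then rr δ X * Real.cos (2 * Real.pi * X 0) else
    if (2 : Fin (n + 3)) = 1 then rr δ X * Real.sin (2 * Real.pi * X 0) else
    if (2 : Fin (n + 3)) = 2 then rho δ X * Real.sin (2 * Real.pi * X 1) else
      δ * Real.sin (2 * Real.pi * X 2)) = _
  rw [if_neg D2_two_ne, if_neg D2_two_ne', if_pos rfl]

theorem D2_emi (δ : ℝ) (X : Vec (n + 3)) {i : Fin (n + 3)} (h0 : i ≠ 0) (h1 : i ≠ 1) (h2 : i ≠ 2) :
    em δ X i = δ * Real.sin (2 * Real.pi * X i) :=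
  (if_neg h0).trans ((if_neg h1).trans (if_neg h2))

theorem em_inj {δ : ℝ} (hδ : 0 < δ) (h8 : δ ≤ 1 / 8) {X Y : Vec (n + 3)} (hX : X ∈ SO n) (hY : Y ∈ SO n)
    (h : em δ X = em δ Y) : ∃ k : Fin (n + 3) → ℤ, Y = X + vz k := by
  have hrr : rr δ X = rr δ Y := by rw [← tr_em hδ h8 X, ← tr_em hδ h8 Y, h]
  have hrho : rho δ X = rho δ Y := by rw [← tρ_em hδ h8 X, ← tρ_em hδ h8 Y, h]
  have hr0 : rr δ Y ≠ 0 := by
    have := (rr_bd hδ h8 Y).1
    linarith
  have hρ0 : rho δ Y ≠ 0 := by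
    have := (rho_bd hδ Y).1
    linarith
  have hi : ∀ i : Fin (n + 3), em δ X i = em δ Y i := fun i => by rw [h]
  have key : ∀ i : Fin (n + 3), ∃ k : ℤ, Y i = X i + k := by
    intro i
    by_cases h0 : i = 0
    · subst h0
      refine D2_int ?_ ?_
      · have h1 := hi 0
        rw [D2_em0, D2_em0, hrr] at h1
        exact mul_left_cancel₀ hr0 h1
      · have h1 := hi 1
        rw [D2_em1, D2_em1, hrr] at h1
        exact mul_left_cancel₀ hr0 h1
    by_cases h1 : i = 1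
    · subst h1
      refine D2_int ?_ ?_
      · have h2 : rho δ Y * Real.cos (2 * Real.pi * X 1) = rho δ Y * Real.cos (2 * Real.pi * Y 1) := by
          have h3 : rr δ X = 1 + rho δ X * Real.cos (2 * Real.pi * X 1) := rfl
          have h4 : rr δ Y = 1 + rho δ Y * Real.cos (2 * Real.pi * Y 1) := rfl
          rw [hrho] at h3
          linarith
        exact mul_left_cancel₀ hρ0 h2
      · have h2 := hi 2
        rw [D2_em2, D2_em2, hrho] at h2
        exact mul_left_cancel₀ hρ0 h2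
    have hs : Real.sin (2 * Real.pi * X i) = Real.sin (2 * Real.pi * Y i) := by
      by_cases h2 : i = 2
      · subst h2
        have h3 : rho δ X = δ * (1 + Real.sin (2 * Real.pi * X 2) / 2) := rfl
        have h4 : rho δ Y = δ * (1 + Real.sin (2 * Real.pi * Y 2) / 2) := rfl
        have h5 : δ * (1 + Real.sin (2 * Real.pi * X 2) / 2) =
            δ * (1 + Real.sin (2 * Real.pi * Y 2) / 2) := by rw [← h3, ← h4, hrho]
        have h6 := mul_left_cancel₀ hδ.ne' h5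
        linarith
      · have h3 := hi i
        rw [D2_emi δ X h0 h1 h2, D2_emi δ Y h0 h1 h2] at h3
        exact mul_left_cancel₀ hδ.ne' h3
    exact D2_int (D2_cos_eq (hX.2 i h0 h1) (hY.2 i h0 h1) hs) hs
  choose k hk using key
  refine ⟨k, ?_⟩
  ext i
  exact hk i

theorem em_inverse {δ : ℝ} (hδ : 0 < δ) (h8 : δ ≤ 1 / 8) {X : Vec (n + 3)} (hX : X ∈ SO n) :
    ∃ gi : Vec (n + 3) → Vec (n + 3), ContDiffAt ℝ ∞ gi (em δ X) ∧ (∀ᶠ Y in 𝓝 X, gi (em δ Y) = Y) ∧
      ∀ᶠ Z in 𝓝 (em δ X), em δ (gi Z) = Z := by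
  have hc : ContDiffAt ℝ ∞ (em δ : Vec (n + 3) → Vec (n + 3)) X := (em_smooth δ).contDiffAt
  have hd : HasFDerivAt (em δ : Vec (n + 3) → Vec (n + 3)) (fderiv ℝ (em δ) X) X :=
    (hc.differentiableAt (by simp)).hasFDerivAt
  have hinj : Function.Injective
      ((fderiv ℝ (em δ) X : Vec (n + 3) →L[ℝ] Vec (n + 3)) : Vec (n + 3) →ₗ[ℝ] Vec (n + 3)) := by
    refine (injective_iff_map_eq_zero _).2 fun v hv => ?_
    by_contra hv0
    have h1 := em_fd δ X v
    have h2 := mn_pos hδ h8 hX hv0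
    have h3 : fderiv ℝ (em δ) X v = 0 := hv
    rw [h3, norm_zero] at h1
    norm_num at h1
    rw [← h1] at h2
    exact lt_irrefl _ h2
  let e : Vec (n + 3) ≃L[ℝ] Vec (n + 3) :=
    (LinearEquiv.ofInjectiveEndo _ hinj).toContinuousLinearEquiv
  have he : (e : Vec (n + 3) →L[ℝ] Vec (n + 3)) = fderiv ℝ (em δ) X := by
    ext v
    rfl
  rw [← he] at hd
  have hn : (∞ : WithTop ℕ∞) ≠ 0 := by simp
  refine ⟨hc.localInverse hd hn, hc.to_localInverse hd hn, ?_, ?_⟩
  · exact (hc.hasStrictFDerivAt' hd hn).eventually_left_inverse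
  · exact (hc.hasStrictFDerivAt' hd hn).eventually_right_inverse

end EscW.Dn
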