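import Pool.Agent.EscW.EEDefs

set_option autoImplicit false

/-!
Project EscW, part D (MP_6acca1_an): density of metrics. Riemannian metrics on `M`; a torus shell around the unit
circle in `ℝⁿ⁺³`, its weight; metrics on `M` which agree with the model in a small domain of `M`.
-/

noncomputable section

namespace EscW.Dn

open Filter Topology Set EscF.T EscM EscMT MeasureTheory EscW.Ex
open scoped ContDiff

variable {d m n : ℕ}

/-- A Riemannian metric of class `C^j` on `M`: for every `x ∈ M.N` a bilinear form `q x`, symmetric and positive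
on the tangent vectors at `x`; `j = 0`: continuous metrics. -/
structure IsRiemannian (M : Sub d) (j : ℕ∞) (q : Vec d → Vec d →L[ℝ] Vec d →L[ℝ] ℝ) : Prop where
  smooth : ContDiffOn ℝ j (fun p : Vec d × Vec d × Vec d =>
    q (M.r p.1) (fderiv ℝ M.r p.1 p.2.1) (fderiv ℝ M.r p.1 p.2.2)) {p | p.1 ∈ M.U}
  periodic : ∀ (k : Fin d → ℤ), ∀ x ∈ M.N, ∀ v w, IsTangent M x v → IsTangent M x w →
    q (x + vz k) v w = q x v w
  symm : ∀ x ∈ M.N, ∀ v w, IsTangent M x v → IsTangent M x w → q x v w = q x w v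
  pos : ∀ x ∈ M.N, ∀ v, IsTangent M x v → v ≠ 0 → 0 < q x v v

/-- the norm of the metric -/
def nrm (q : Vec d → Vec d →L[ℝ] Vec d →L[ℝ] ℝ) (x v : Vec d) (_ : ℝ) : ℝ := √(q x v v)

/-! ### the shell -/

/-- distance from the core circle -/
def rho (δ : ℝ) (X : Vec (n + 3)) : ℝ := δ * (1 + Real.sin (2 * Real.pi * X 2) / 2)

/-- distance from the axis -/
def rr (δ : ℝ) (X : Vec (n + 3)) : ℝ := 1 + rho δ X * Real.cos (2 * Real.pi * X 1)

/-- the parametrisation of the shell -/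
def em (δ : ℝ) (X : Vec (n + 3)) : Vec (n + 3) :=
  WithLp.toLp 2 (fun i => if i = 0 then rr δ X * Real.cos (2 * Real.pi * X 0) else
    if i = 1 then rr δ X * Real.sin (2 * Real.pi * X 0) else
    if i = 2 then rho δ X * Real.sin (2 * Real.pi * X 1) else δ * Real.sin (2 * Real.pi * X i))

/-- zero at the centre of the shell -/
def qq (X : Vec (n + 3)) : ℝ := ∑ i, if i = 0 ∨ i = 1 then 0 else Real.sin (2 * Real.pi * X i) ^ 2

/-- the domain of the chart -/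
def SO (n : ℕ) : Set (Vec (n + 3)) :=
  {X | qq X < 1 / 3 ∧ ∀ i, i ≠ 0 → i ≠ 1 → 0 < Real.cos (2 * Real.pi * X i)}

/-- the room -/
def SK (n : ℕ) : Set (Vec (n + 3)) :=
  {X | qq X ≤ 1 / 4 ∧ ∀ i, i ≠ 0 → i ≠ 1 → 0 ≤ Real.cos (2 * Real.pi * X i)}

/-- square of the norm of the derivative of `em` -/
def mn (δ : ℝ) (X v : Vec (n + 3)) : ℝ :=
  (2 * Real.pi * rr δ X * v 0) ^ 2 + (2 * Real.pi * rho δ X * v 1) ^ 2 +
    (Real.pi * δ * Real.cos (2 * Real.pi * X 2) * v 2) ^ 2 +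
    ∑ i, if i = 0 ∨ i = 1 ∨ i = 2 then 0 else (2 * Real.pi * δ * Real.cos (2 * Real.pi * X i) * v i) ^ 2

/-! ### functions on the target -/

/-- distance from the axis -/
def tr (Y : Vec (n + 3)) : ℝ := √(Y 0 ^ 2 + Y 1 ^ 2)

/-- distance from the core circle, in the first three coordinates -/
def tρ (Y : Vec (n + 3)) : ℝ := √((tr Y - 1) ^ 2 + Y 2 ^ 2)

/-- the function `qq` on the target -/
def tq (δ : ℝ) (Y : Vec (n + 3)) : ℝ :=
  (2 * (tρ Y - δ) / δ) ^ 2 + ∑ i, if i = 0 ∨ i = 1 ∨ i = 2 then 0 else (Y i / δ) ^ 2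

/-- square of the distance from the calibrated circle -/
def tQ (δ : ℝ) (Y : Vec (n + 3)) : ℝ :=
  (tr Y - 1 - δ) ^ 2 + Y 2 ^ 2 + ∑ i, if i = 0 ∨ i = 1 ∨ i = 2 then 0 else Y i ^ 2

/-- the conformal factor in the shell -/
def tw (δ ε : ℝ) (Y : Vec (n + 3)) : ℝ :=
  (1 - ε) * (1 + δ) / tr Y + tQ δ Y + ε / 2 * Real.smoothTransition (16 * tq δ Y)

/-- cut-off: one in the shell -/
def tΘ (δ : ℝ) (Y : Vec (n + 3)) : ℝ := 1 - Real.smoothTransition (12 * tq δ Y - 4)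

/-- the conformal factor -/
def tW (δ ε : ℝ) (Y : Vec (n + 3)) : ℝ := tΘ δ Y * tw δ ε Y + (1 - tΘ δ Y)

/-- a bound of `em` -/
def emB (n : ℕ) : ℝ := n + 4

/-! ### data on `M` -/

/-- a chart `g` of `M` and a linear map `A` such that the metric is near the Euclidean one in the coordinates
`A⁻¹ g'` -/
structure MData (M : Sub d) (q : Vec d → Vec d →L[ℝ] Vec d →L[ℝ] ℝ) (m : ℕ) (W : Set (Vec d)) (ρ : ℝ)
    (g : Vec m → Vec d) (g' : Vec d → Vec m) (A : Vec m ≃L[ℝ] Vec m) (η : ℝ) : Prop where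
  chart : MChart M m W ρ g g'
  near : ∀ p ∈ M.N ∩ W, ∀ v, IsTangent M p v →
    |‖A.symm (fderiv ℝ g' p v)‖ ^ 2 - q p v v| ≤ η * q p v v

/-- cut-off in the ball of the chart: one for `‖z‖ ≤ ρ / 2`, zero for `‖z‖ ≥ 3 ρ / 4` -/
def cb (ρ : ℝ) (z : Vec m) : ℝ := 1 - Real.smoothTransition ((16 * ‖z‖ ^ 2 / ρ ^ 2 - 4) / 5)

/-- the bilinear form `⟪B v, B w⟫` -/
def ipc (B : Vec d →L[ℝ] Vec m) : Vec d →L[ℝ] Vec d →L[ℝ] ℝ :=
  LinearMap.mkContinuous₂ ((innerₗ (Vec m)).compl₁₂ (B : Vec d →ₗ[ℝ] Vec m) (B : Vec d →ₗ[ℝ] Vec m))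
    (‖B‖ * ‖B‖) (fun x y => by
      have h1 : ‖inner ℝ (B x) (B y)‖ ≤ ‖B x‖ * ‖B y‖ := norm_inner_le_norm _ _
      have h2 := B.le_opNorm x
      have h3 := B.le_opNorm y
      calc ‖(((innerₗ (Vec m)).compl₁₂ (B : Vec d →ₗ[ℝ] Vec m) (B : Vec d →ₗ[ℝ] Vec m)) x) y‖
          ≤ ‖B x‖ * ‖B y‖ := h1
        _ ≤ (‖B‖ * ‖x‖) * (‖B‖ * ‖y‖) := mul_le_mul h2 h3 (norm_nonneg _) (by positivity)
        _ = ‖B‖ * ‖B‖ * ‖x‖ * ‖y‖ := by ring)

theorem ipc_apply (B : Vec d →L[ℝ] Vec m) (v w : Vec d) : ipc B v w = inner ℝ (B v) (B w) := rfl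

/-- the new metric at a point `p` of the chart: the inner product of the coordinates, multiplied by the square of the
conformal factor `w` at the scale `s`, near the centre of the chart, and `q` near its boundary -/
def qloc (q : Vec d → Vec d →L[ℝ] Vec d →L[ℝ] ℝ) (ρ s : ℝ) (g' : Vec d → Vec m) (A : Vec m ≃L[ℝ] Vec m)
    (w : Vec m → ℝ) (p : Vec d) : Vec d →L[ℝ] Vec d →L[ℝ] ℝ :=
  (cb ρ (g' p) * w (s⁻¹ • A.symm (g' p)) ^ 2) •
      ipc ((A.symm : Vec m →L[ℝ] Vec m).comp (fderiv ℝ g' p))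
    + (1 - cb ρ (g' p)) • q p

open Classical in
/-- the new metric on `M` -/
def qnew (q : Vec d → Vec d →L[ℝ] Vec d →L[ℝ] ℝ) (W : Set (Vec d)) (ρ s : ℝ) (g' : Vec d → Vec m)
    (A : Vec m ≃L[ℝ] Vec m) (w : Vec m → ℝ) (p : Vec d) : Vec d →L[ℝ] Vec d →L[ℝ] ℝ :=
  if h : ∃ l : Fin d → ℤ, p + vz l ∈ W then qloc q ρ s g' A w (p + vz h.choose) else q p

/-- length of the calibrated curve -/
def ll (δ ε s : ℝ) : ℝ := 2 * Real.pi * s * (1 - ε) * (1 + δ)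

/-- the calibrating function -/
def BB (δ ε s : ℝ) (X : Vec (n + 3)) (_ : ℝ) : ℝ := ll δ ε s * X 0

/-- the calibrated curve -/
def cc (δ ε s σ _t : ℝ) : Vec (n + 3) := WithLp.toLp 2 (fun i => if i = 0 then σ / ll δ ε s else 0)

/-- the barrier -/
def bar (b : ℝ) (X : Vec (n + 3)) : ℝ := b * Real.smoothTransition ((16 * qq X - 1) / 3)

/-- the model metric in the shell, at the scale `s` -/
def FM (δ ε s : ℝ) (X v : Vec (n + 3)) : ℝ := s * tw δ ε (em δ X) * √(mn δ X v)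

end EscW.Dn
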