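import Pool.Agent.EscW.EEDefs

set_option autoImplicit false

/-!
Project EscW, part E, module E1: coordinates, group, smooth step.
`PP_apply`: unfold, cases. `mem_GG`: `PP * PP = 1`. `hh`, `sz`: periodicity of `sin`, `cos`; `hh (P X) = hh X`: `sin` is odd; `sz` does
not see the coordinates 0, 1. `sz_cos`: one nonnegative term of a sum of nonnegative terms is `≤ sz X < 1`. `sz_int`: `sz X ≤ 0`:
every term is zero, `cos = 1` (`Real.cos_eq_one_iff`). `free`: `P = PP`: `2 X 0 = k 0`, `2 X 1 = k 1`, so `sin (2 π X 0) = 0 = sin (2 π X 1)`,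
`hh X = 0`; `P = 1`: `vz k = 0`. `hh_pos_int`: the converse of nothing, just `sin (2 π x) = 0` for `2 x` an integer.
`st_deriv`: `Real.smoothTransition` is smooth, zero on `s ≤ 0` and one on `1 ≤ s`, so `deriv = 0` for `s < 0` and `1 < s`; on the
compact interval `[0, 1]` the continuous function `deriv` is bounded.
-/

noncomputable section

namespace EscW.Ex

open Filter Topology Set EscF.T EscM EscMT MeasureTheory
open scoped ContDiff

variable {d m n : ℕ}

theorem PP_apply (X : Vec (n + 2)) (i : Fin (n + 2)) : PP n X i = if i = 0 ∨ i = 1 then -X i else X i := by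
  unfold PP
  rw [LinearIsometryEquiv.piLpCongrRight_apply]
  by_cases h : i = 0 ∨ i = 1
  · simp [h]
  · simp [h]

theorem E1_sq : PP n * PP n = 1 := by
  refine LinearIsometryEquiv.ext fun X => ?_
  ext i
  have h : (PP n * PP n) X = PP n (PP n X) := rfl
  rw [h, PP_apply, PP_apply]
  by_cases hi : i = 0 ∨ i = 1
  · simp [hi]
  · simp [hi]

theorem mem_GG (P : Vec (n + 2) ≃ₗᵢ[ℝ] Vec (n + 2)) : P ∈ GG n ↔ P = 1 ∨ P = PP n := by
  have h2 : PP n ^ (2 : ℤ) = 1 := by
    rw [zpow_two]; exact E1_sq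
  unfold GG
  constructor
  · rintro ⟨k, rfl⟩
    dsimp only
    rcases Int.even_or_odd' k with ⟨r, rfl | rfl⟩
    · left
      rw [zpow_mul, h2, one_zpow]
    · right
      rw [zpow_add, zpow_mul, h2, one_zpow, one_mul, zpow_one]
  · rintro (rfl | rfl)
    · exact one_mem _
    · exact Subgroup.mem_zpowers _

theorem GG_finite : (GG n : Set (Vec (n + 2) ≃ₗᵢ[ℝ] Vec (n + 2))).Finite := by
  refine Set.Finite.subset (Set.toFinite ({1, PP n} : Set (Vec (n + 2) ≃ₗᵢ[ℝ] Vec (n + 2)))) ?_
  intro P hP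
  rcases (mem_GG P).1 hP with h | h
  · exact Or.inl h
  · exact Or.inr h

theorem GG_int : ∀ P ∈ GG n, ∀ k : Fin (n + 2) → ℤ, ∃ k' : Fin (n + 2) → ℤ, P (vz k) = vz k' := by
  intro P hP k
  rcases (mem_GG P).1 hP with h | h
  · subst h
    exact ⟨k, rfl⟩
  · subst h
    refine ⟨fun i => if i = 0 ∨ i = 1 then -k i else k i, ?_⟩
    ext i
    rw [PP_apply]
    by_cases hi : i = 0 ∨ i = 1
    · simp [hi, vz]
    · simp [hi, vz]

theorem E1_coord (i : Fin (n + 2)) : ContDiff ℝ ∞ (fun X : Vec (n + 2) => X i) :=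
  (EuclideanSpace.proj i : Vec (n + 2) →L[ℝ] ℝ).contDiff

theorem hh_smooth : ContDiff ℝ ∞ (hh : Vec (n + 2) → ℝ) := by
  unfold hh
  exact ((Real.contDiff_sin.comp (contDiff_const.mul (E1_coord 0))).pow 2).add
    ((Real.contDiff_sin.comp (contDiff_const.mul (E1_coord 1))).pow 2)

theorem sz_smooth : ContDiff ℝ ∞ (sz : Vec (n + 2) → ℝ) := by
  unfold sz
  refine ContDiff.sum fun i _ => ?_
  by_cases hi : i = 0 ∨ i = 1
  · simp only [hi, if_true]
    exact contDiff_const
  · simp only [hi, if_false]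
    exact contDiff_const.sub (Real.contDiff_cos.comp (contDiff_const.mul (E1_coord i)))

theorem E1_add (k : Fin (n + 2) → ℤ) (X : Vec (n + 2)) (i : Fin (n + 2)) :
    2 * Real.pi * (X + vz k) i = 2 * Real.pi * X i + (k i) * (2 * Real.pi) := by
  have h : (X + vz k) i = X i + k i := rfl
  rw [h]
  ring

theorem hh_per (k : Fin (n + 2) → ℤ) (X : Vec (n + 2)) : hh (X + vz k) = hh X := by
  unfold hh
  rw [E1_add, E1_add, Real.sin_add_int_mul_two_pi, Real.sin_add_int_mul_two_pi]

theorem sz_per (k : Fin (n + 2) → ℤ) (X : Vec (n + 2)) : sz (X + vz k) = sz X := by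
  unfold sz
  refine Finset.sum_congr rfl fun i _ => ?_
  rw [E1_add, Real.cos_add_int_mul_two_pi]

theorem hh_P : ∀ P ∈ GG n, ∀ X, hh (P X) = hh X := by
  intro P hP X
  rcases (mem_GG P).1 hP with h | h
  · subst h
    rfl
  · subst h
    unfold hh
    rw [PP_apply, PP_apply]
    simp

theorem sz_P : ∀ P ∈ GG n, ∀ X, sz (P X) = sz X := by
  intro P hP X
  rcases (mem_GG P).1 hP with h | h
  · subst h
    rfl
  · subst h
    unfold sz
    refine Finset.sum_congr rfl fun i _ => ?_
    rw [PP_apply]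
    by_cases hi : i = 0 ∨ i = 1
    · simp [hi]
    · simp [hi]

theorem E1_term (X : Vec (n + 2)) (i : Fin (n + 2)) :
    0 ≤ (if i = 0 ∨ i = 1 then 0 else 1 - Real.cos (2 * Real.pi * X i)) := by
  split_ifs
  · exact le_rfl
  · linarith [Real.cos_le_one (2 * Real.pi * X i)]

theorem sz_nonneg (X : Vec (n + 2)) : 0 ≤ sz X :=
  Finset.sum_nonneg fun i _ => E1_term X i

theorem E1_le (X : Vec (n + 2)) {i : Fin (n + 2)} (h0 : i ≠ 0) (h1 : i ≠ 1) :
    1 - Real.cos (2 * Real.pi * X i) ≤ sz X := by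
  have h := Finset.single_le_sum (f := fun i : Fin (n + 2) =>
    (if i = 0 ∨ i = 1 then 0 else 1 - Real.cos (2 * Real.pi * X i))) (fun i _ => E1_term X i)
    (Finset.mem_univ i)
  have hi : ¬ (i = 0 ∨ i = 1) := by
    rintro (h | h)
    · exact h0 h
    · exact h1 h
  simp only [hi, if_false] at h
  exact h

theorem sz_cos {X : Vec (n + 2)} (hX : sz X < 1) {i : Fin (n + 2)} (h0 : i ≠ 0) (h1 : i ≠ 1) :
    0 < Real.cos (2 * Real.pi * X i) := by
  linarith [E1_le X h0 h1]

theorem sz_int {X : Vec (n + 2)} (hX : sz X ≤ 0) {i : Fin (n + 2)} (h0 : i ≠ 0) (h1 : i ≠ 1) :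
    ∃ k : ℤ, X i = k := by
  have h : Real.cos (2 * Real.pi * X i) = 1 :=
    le_antisymm (Real.cos_le_one _) (by linarith [E1_le X h0 h1])
  obtain ⟨k, hk⟩ := (Real.cos_eq_one_iff _).1 h
  refine ⟨k, ?_⟩
  have hpi : (2 * Real.pi) ≠ 0 := by positivity
  have h2 : 2 * Real.pi * X i = 2 * Real.pi * k := by rw [← hk]; ring
  exact mul_left_cancel₀ hpi h2

theorem E1_sin {X : Vec (n + 2)} {i : Fin (n + 2)} {k : ℤ} (h : -X i + k = X i) :
    Real.sin (2 * Real.pi * X i) = 0 := by
  have h2 : 2 * Real.pi * X i = k * Real.pi := by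
    have : (k : ℝ) = 2 * X i := by linarith
    rw [this]; ring
  rw [h2]
  exact Real.sin_int_mul_pi k

theorem free : ∀ P ∈ GG n, ∀ (k : Fin (n + 2) → ℤ) (X : Vec (n + 2)), 0 < hh X → P X + vz k = X →
    P = 1 ∧ k = 0 := by
  intro P hP k X hX h
  rcases (mem_GG P).1 hP with hP1 | hP1
  · subst hP1
    refine ⟨rfl, ?_⟩
    have h1 : X + vz k = X := h
    have h2 : vz k = 0 := by simpa using h1
    funext i
    have h3 : (vz k) i = 0 := by rw [h2]; rfl
    have h4 : ((k i : ℤ) : ℝ) = 0 := h3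
    exact_mod_cast h4
  · exfalso
    subst hP1
    have hi : ∀ i : Fin (n + 2), (i = 0 ∨ i = 1) → Real.sin (2 * Real.pi * X i) = 0 := by
      intro i hi
      have h1 : (PP n X + vz k) i = X i := by rw [h]
      have h2 : (PP n X + vz k) i = PP n X i + k i := rfl
      rw [h2, PP_apply, if_pos hi] at h1
      exact E1_sin h1
    have h0 : hh X = 0 := by
      unfold hh
      rw [hi 0 (Or.inl rfl), hi 1 (Or.inr rfl)]
      norm_num
    linarith

theorem st_deriv : ∃ C : ℝ, 0 < C ∧ (∀ s, |deriv Real.smoothTransition s| ≤ C) ∧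
    ∀ s, s < 0 ∨ 1 < s → deriv Real.smoothTransition s = 0 := by
  have hz : ∀ s, s < 0 ∨ 1 < s → deriv Real.smoothTransition s = 0 := by
    rintro s (hs | hs)
    · have h : Real.smoothTransition =ᶠ[𝓝 s] fun _ => (0 : ℝ) := by
        filter_upwards [Iio_mem_nhds hs] with t ht
        exact Real.smoothTransition.zero_of_nonpos (le_of_lt ht)
      rw [h.deriv_eq]
      simp
    · have h : Real.smoothTransition =ᶠ[𝓝 s] fun _ => (1 : ℝ) := by
        filter_upwards [Ioi_mem_nhds hs] with t ht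
        exact Real.smoothTransition.one_of_one_le (le_of_lt ht)
      rw [h.deriv_eq]
      simp
  have hc : Continuous (deriv Real.smoothTransition) :=
    (Real.smoothTransition.contDiff (n := 1)).continuous_deriv le_rfl
  obtain ⟨C, hC⟩ := (isCompact_Icc (a := (0 : ℝ)) (b := 1)).exists_bound_of_continuousOn hc.continuousOn
  refine ⟨|C| + 1, by positivity, ?_, hz⟩
  intro s
  by_cases h : s ∈ Icc (0 : ℝ) 1
  · have h1 := hC s h
    rw [Real.norm_eq_abs] at h1
    linarith [le_abs_self C]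
  · have h1 : s < 0 ∨ 1 < s := by
      by_contra h2
      push Not at h2
      exact h ⟨h2.1, h2.2⟩
    rw [hz s h1, abs_zero]
    positivity

theorem OO_open (a b : ℝ) : IsOpen (OO n a b) := by
  have h1 : IsOpen {X : Vec (n + 2) | a < hh X} := isOpen_lt continuous_const hh_smooth.continuous
  have h2 : IsOpen {X : Vec (n + 2) | sz X < b} := isOpen_lt sz_smooth.continuous continuous_const
  exact h1.inter h2

theorem KK_closed : IsClosed (KK n) := by
  have h1 : IsClosed {X : Vec (n + 2) | 1 / 2 ≤ hh X} := isClosed_le continuous_const hh_smooth.continuous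
  have h2 : IsClosed {X : Vec (n + 2) | sz X ≤ 1 / 2} := isClosed_le sz_smooth.continuous continuous_const
  exact h1.inter h2

end EscW.Ex
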