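import Pool.Agent.EscW.EEDefs

set_option autoImplicit false

/-!
Project EscW, part E, module E10: the glued metric is a Finsler metric.
Everything at time `t` from the local formula `F2 = √(Ψ1 F0(ψ w, D w u)² + (1 - Ψ1) F²)` on `M.N ∩ W`, `w0 ∈ W`.
`cont`: near every point of the set (`ContinuousOn` is local; `W ×ˢ univ` is open) the formula is continuous: `ψ`, `D`, `Ψ1` continuous on `W`,
`F0` continuous, `F · · t` continuous on the tangent bundle. `hom`: `D w` linear, `homF`, `hF`'s `hom`, `√(c² a) = c √a`. `pos`: if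
`Ψ1 w < 1` the second term is positive; if `Ψ1 w = 1`: `D w u ≠ 0` by `le` (`u ≠ 0`), `posF`. (`Ψ1 w ∈ [0,1]`.)
`periodic` in `x`: hypothesis; in `t`: formula. `lip`: `|√(a² + k x²) - √(a² + k y²)| ≤ |x - y|` for `0 ≤ k ≤ 1` and `x, y ≥ 0`, with the `lip` of `F`
(`F ≥ 0` on tangent vectors, by `pos` and `hom`).
-/

noncomputable section

namespace EscW.Ex

open Filter Topology Set EscF.T EscM EscMT MeasureTheory
open scoped ContDiff

variable {d m n : ℕ}

theorem E10_tan {M : Sub d} {x v : Vec d} (hv : IsTangent M x v) (c : ℝ) : IsTangent M x (c • v) := by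
  show fderiv ℝ M.r x (c • v) = c • v
  rw [map_smul]
  exact congrArg (fun w => c • w) hv

theorem E10_nonneg {M : Sub d} {F : Vec d → Vec d → ℝ → ℝ} (hF : IsFinslerT M F) {y w : Vec d}
    (hy : y ∈ M.N) (hw : IsTangent M y w) (t : ℝ) : 0 ≤ F y w t := by
  by_cases h0 : w = 0
  · have h1 : F y ((0 : ℝ) • w) t = 0 * F y w t := (hF.fins t).hom y hy w hw 0 le_rfl
    rw [zero_mul, zero_smul] at h1
    rw [h0, h1]
  · exact ((hF.fins t).pos y hy w hw h0).le

theorem E10_sqrt1 {a k x y : ℝ} (ha : 0 ≤ a) (hk : 0 ≤ k) (hk1 : k ≤ 1) (_hx : 0 ≤ x) (hxy : x ≤ y) :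
    √(a + k * y ^ 2) ≤ √(a + k * x ^ 2) + (y - x) := by
  have h1 : k * x ≤ √(a + k * x ^ 2) := by
    refine Real.le_sqrt_of_sq_le ?_
    have h2 : (k * x) ^ 2 = k * (k * x ^ 2) := by ring
    have h3 : k * (k * x ^ 2) ≤ 1 * (k * x ^ 2) := mul_le_mul_of_nonneg_right hk1 (by positivity)
    linarith
  have h0 : 0 ≤ √(a + k * x ^ 2) := Real.sqrt_nonneg _
  have hs : √(a + k * x ^ 2) ^ 2 = a + k * x ^ 2 := Real.sq_sqrt (by positivity)
  refine Real.sqrt_le_iff.2 ⟨by linarith, ?_⟩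
  have h4 : 0 ≤ (y - x) * (√(a + k * x ^ 2) - k * x) := mul_nonneg (by linarith) (by linarith)
  have h5 : 0 ≤ (1 - k) * (y - x) ^ 2 := mul_nonneg (by linarith) (sq_nonneg _)
  nlinarith

theorem E10_sqrt {a k x y : ℝ} (ha : 0 ≤ a) (hk : 0 ≤ k) (hk1 : k ≤ 1) (hx : 0 ≤ x) (hy : 0 ≤ y) :
    |√(a + k * x ^ 2) - √(a + k * y ^ 2)| ≤ |x - y| := by
  rcases le_total x y with h | h
  · have h1 := E10_sqrt1 ha hk hk1 hx h
    have h2 : √(a + k * x ^ 2) ≤ √(a + k * y ^ 2) := by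
      refine Real.sqrt_le_sqrt ?_
      have := mul_le_mul_of_nonneg_left (pow_le_pow_left₀ hx h 2) hk
      linarith
    rw [abs_sub_comm, abs_of_nonneg (by linarith), abs_sub_comm, abs_of_nonneg (by linarith)]
    linarith
  · have h1 := E10_sqrt1 ha hk hk1 hy h
    have h2 : √(a + k * y ^ 2) ≤ √(a + k * x ^ 2) := by
      refine Real.sqrt_le_sqrt ?_
      have := mul_le_mul_of_nonneg_left (pow_le_pow_left₀ hy h 2) hk
      linarith
    rw [abs_of_nonneg (by linarith), abs_of_nonneg (by linarith)]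
    linarith

theorem finsler_of_rep {M : Sub d} {C : ℝ} {G : Subgroup (Vec m ≃ₗᵢ[ℝ] Vec m)} {F0 L0 : Vec m → Vec m → ℝ}
    (hm : Model G F0 L0) {F F2 : Vec d → Vec d → ℝ → ℝ} {L L2 : Lag d} (hF : IsFinslerT M F)
    (hr : HasRep M C F0 L0 F L F2 L2)
    (hper : ∀ (k : Fin d → ℤ), ∀ x ∈ M.N, ∀ v, IsTangent M x v → ∀ t, F2 (x + vz k) v t = F2 x v t) :
    IsFinslerT M F2 := by
  obtain ⟨A, hA⟩ := hF.lip
  refine
    { fins := ?_
      periodic := ?_
      lip := ⟨A, ?_⟩ }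
  · intro t
    refine
      { cont := ?_
        periodic := fun k x hx v hv => hper k x hx v hv t
        hom := ?_
        pos := ?_ }
    · rintro p0 hp0
      obtain ⟨W, Ψ1, ψ, D, hW, hR⟩ := hr p0.1 hp0.1
      have hfs : Continuous (fun p : Vec d × Vec d => p.1) := continuous_fst
      have hn : {p : Vec d × Vec d | p.1 ∈ W} ∈ 𝓝 p0 := (hR.isOpen.preimage hfs).mem_nhds hW
      rw [← continuousWithinAt_inter hn]
      have hWn : W ∈ 𝓝 p0.1 := hR.isOpen.mem_nhds hW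
      have c1 : ContinuousAt (fun p : Vec d × Vec d => Ψ1 p.1) p0 :=
        ContinuousAt.comp (f := fun p : Vec d × Vec d => p.1) (hR.s1.continuousOn.continuousAt hWn)
          hfs.continuousAt
      have c2 : ContinuousAt (fun p : Vec d × Vec d => ψ p.1) p0 :=
        ContinuousAt.comp (f := fun p : Vec d × Vec d => p.1) (hR.s2.continuousOn.continuousAt hWn)
          hfs.continuousAt
      have c3 : ContinuousAt (fun p : Vec d × Vec d => D p.1) p0 :=
        ContinuousAt.comp (f := fun p : Vec d × Vec d => p.1) (hR.s3.continuousOn.continuousAt hWn)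
          hfs.continuousAt
      have c4 : ContinuousAt (fun p : Vec d × Vec d => D p.1 p.2) p0 :=
        c3.clm_apply continuous_snd.continuousAt
      have c5 : ContinuousAt (fun p : Vec d × Vec d => F0 (ψ p.1) (D p.1 p.2)) p0 :=
        ContinuousAt.comp (g := fun q : Vec m × Vec m => F0 q.1 q.2)
          (f := fun p : Vec d × Vec d => (ψ p.1, D p.1 p.2)) hm.contF.continuousAt (c2.prodMk c4)
      have c6 : ContinuousWithinAt (fun p : Vec d × Vec d => F p.1 p.2 t)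
          ({p | p.1 ∈ M.N ∧ IsTangent M p.1 p.2} ∩ {p : Vec d × Vec d | p.1 ∈ W}) p0 :=
        ((hF.fins t).cont p0 hp0).mono inter_subset_left
      have c7 : ContinuousWithinAt (fun p : Vec d × Vec d =>
          √(Ψ1 p.1 * F0 (ψ p.1) (D p.1 p.2) ^ 2 + (1 - Ψ1 p.1) * F p.1 p.2 t ^ 2))
          ({p | p.1 ∈ M.N ∧ IsTangent M p.1 p.2} ∩ {p : Vec d × Vec d | p.1 ∈ W}) p0 :=
        (((c1.mul (c5.pow 2)).continuousWithinAt).add
          (((continuousAt_const.sub c1).continuousWithinAt).mul (c6.pow 2))).sqrt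
      refine c7.congr ?_ ?_
      · rintro p ⟨hp1, hp2⟩
        exact hR.metric p.1 ⟨hp1.1, hp2⟩ p.2 hp1.2 t
      · exact hR.metric p0.1 ⟨hp0.1, hW⟩ p0.2 hp0.2 t
    · intro x hx v hv c hc
      obtain ⟨W, Ψ1, ψ, D, hW, hR⟩ := hr x hx
      show F2 x (c • v) t = c * F2 x v t
      rw [hR.metric x ⟨hx, hW⟩ (c • v) (E10_tan hv c) t, hR.metric x ⟨hx, hW⟩ v hv t]
      have e1 : F x (c • v) t = c * F x v t := (hF.fins t).hom x hx v hv c hc
      have e2 : F0 (ψ x) (D x (c • v)) = c * F0 (ψ x) (D x v) := by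
        rw [map_smul]
        exact hm.homF _ _ c hc
      have e3 : Ψ1 x * (c * F0 (ψ x) (D x v)) ^ 2 + (1 - Ψ1 x) * (c * F x v t) ^ 2 =
          c ^ 2 * (Ψ1 x * F0 (ψ x) (D x v) ^ 2 + (1 - Ψ1 x) * F x v t ^ 2) := by ring
      rw [e1, e2, e3, Real.sqrt_mul (sq_nonneg c), Real.sqrt_sq hc]
    · intro x hx v hv hv0
      obtain ⟨W, Ψ1, ψ, D, hW, hR⟩ := hr x hx
      show 0 < F2 x v t
      rw [hR.metric x ⟨hx, hW⟩ v hv t]
      obtain ⟨h0, h1⟩ := hR.mem01 x hW
      have hFp : 0 < F x v t := (hF.fins t).pos x hx v hv hv0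
      refine Real.sqrt_pos.2 ?_
      rcases h1.lt_or_eq with h | h
      · have e1 : 0 ≤ Ψ1 x * F0 (ψ x) (D x v) ^ 2 := mul_nonneg h0 (sq_nonneg _)
        have e2 : 0 < (1 - Ψ1 x) * F x v t ^ 2 := mul_pos (by linarith) (by positivity)
        linarith
      · have hD : D x v ≠ 0 := by
          intro hD
          have e1 := hR.le x ⟨hx, hW⟩ v hv (by rw [h]; exact one_pos)
          rw [hD, norm_zero, mul_zero] at e1
          exact hv0 (norm_le_zero_iff.1 e1)
        have e3 : 0 < F0 (ψ x) (D x v) := hm.posF _ _ hD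
        rw [h, sub_self, zero_mul, add_zero, one_mul]
        positivity
  · intro x hx v hv t
    obtain ⟨W, Ψ1, ψ, D, hW, hR⟩ := hr x hx
    rw [hR.metric x ⟨hx, hW⟩ v hv (t + 1), hR.metric x ⟨hx, hW⟩ v hv t, hF.periodic x hx v hv t]
  · intro x hx v hv t t'
    obtain ⟨W, Ψ1, ψ, D, hW, hR⟩ := hr x hx
    obtain ⟨h0, h1⟩ := hR.mem01 x hW
    rw [hR.metric x ⟨hx, hW⟩ v hv t, hR.metric x ⟨hx, hW⟩ v hv t']
    exact (E10_sqrt (mul_nonneg h0 (sq_nonneg _)) (by linarith) (by linarith)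
      (E10_nonneg hF hx hv t) (E10_nonneg hF hx hv t')).trans (hA x hx v hv t t')

end EscW.Ex
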