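import Pool.Agent.EscW.EEDefs

set_option autoImplicit false

/-!
Project EscW, part E, module E11: the glued Lagrangian: smooth and convex.
`smooth_of_rep`: local. At `q0 = (x0, u0, t0)`, `x0 ∈ M.U`: `w0 = M.r x0 ∈ M.N`, `W` etc. of `hr w0`. For `x` near `x0` in the open set `M.U`:
`M.r x ∈ M.N ∩ W`, `fderiv M.r x u` is tangent at `M.r x` (differentiate `M.r (M.r x) = M.r x`), so by `lag` the function is
`Ψ1 (M.r x) L0 (ψ (M.r x)) (D (M.r x) (fderiv M.r x u)) + (1 - Ψ1 (M.r x)) L (M.r x, fderiv M.r x u, t)`: of class `C²` (`hL.smooth` for the last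
factor, `M.r` smooth on `M.U`, `fderiv M.r` too).
`conv_of_rep`: fix `w ∈ M.N`, `W` etc. of `hr w`, `Q = fderiv M.r w`; for all `u`: `Q u` is tangent at `w`, so
`L2 (w, Q u, t) = Ψ1 w L0 (ψ w) (D w (Q u)) + (1 - Ψ1 w) L (w, Q u, t)` for all `u : Vec d`; second derivatives (both terms of class `C²` in `u`:
`hL.smooth` at `q = (w, u, t)` with `M.r w = w`; `hm.smL`): at `v` in the direction `w'`, both tangent (`Q w' = w'`):
`Ψ1 w c0 ‖D w w'‖² + (1 - Ψ1 w) c1 ‖w'‖² ≥ min (c0/C²) c1 ‖w'‖²` by `le` (`0 < C`). Chain rule for a linear map inside: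
`iteratedFDeriv ℝ 2 (f ∘ A) v ![w, w] = iteratedFDeriv ℝ 2 f (A v) ![A w, A w]` (`ContinuousLinearMap.iteratedFDeriv_comp_right`).
-/

noncomputable section

namespace EscW.Ex

open Filter Topology Set EscF.T EscM EscMT MeasureTheory
open scoped ContDiff

variable {d m n : ℕ}

theorem E11_two : (2 : WithTop ℕ∞) ≤ ∞ :=
  WithTop.coe_le_coe.2 (le_top : (2 : ℕ∞) ≤ ⊤)

theorem E11_self (M : Sub d) {x : Vec d} (hx : x ∈ M.N) : M.r x = x := by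
  by_contra h
  have h1 := M.nearest x (M.sub hx) x hx (fun h2 => h h2.symm)
  rw [dist_self] at h1
  exact absurd h1 (not_lt.2 dist_nonneg)

theorem E11_at (M : Sub d) {x : Vec d} (hx : x ∈ M.U) : ContDiffAt ℝ ∞ M.r x :=
  M.smooth.contDiffAt (M.isOpen.mem_nhds hx)

theorem E11_diff (M : Sub d) {x : Vec d} (hx : x ∈ M.U) : DifferentiableAt ℝ M.r x :=
  (E11_at M hx).differentiableAt (by simp)

theorem E11_rr (M : Sub d) {x : Vec d} (hx : x ∈ M.U) (u : Vec d) :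
    IsTangent M (M.r x) (fderiv ℝ M.r x u) := by
  have hrx : M.r x ∈ M.U := M.sub (M.mem x hx)
  have h1 : (fun y => M.r (M.r y)) =ᶠ[𝓝 x] M.r := by
    filter_upwards [M.isOpen.mem_nhds hx] with y hy
    exact E11_self M (M.mem y hy)
  have h2 : fderiv ℝ (fun y => M.r (M.r y)) x = fderiv ℝ M.r x := h1.fderiv_eq
  have h3 : fderiv ℝ (fun y => M.r (M.r y)) x = (fderiv ℝ M.r (M.r x)).comp (fderiv ℝ M.r x) :=
    fderiv_comp x (E11_diff M hrx) (E11_diff M hx)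
  show fderiv ℝ M.r (M.r x) (fderiv ℝ M.r x u) = fderiv ℝ M.r x u
  rw [← ContinuousLinearMap.comp_apply, ← h3, h2]

theorem E11_fd (M : Sub d) {x : Vec d} (hx : x ∈ M.U) : ContDiffAt ℝ 2 (fderiv ℝ M.r) x :=
  (E11_at M hx).fderiv_right (m := 2) (by
    have : ((2 : WithTop ℕ∞) + 1) = ((3 : ℕ∞) : WithTop ℕ∞) := by norm_num
    rw [this]
    exact_mod_cast le_top)

theorem smooth_of_rep {M : Sub d} {C : ℝ} {G : Subgroup (Vec m ≃ₗᵢ[ℝ] Vec m)} {F0 L0 : Vec m → Vec m → ℝ}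
    (hm : Model G F0 L0) {κ : ℝ → ℝ} {F F2 : Vec d → Vec d → ℝ → ℝ} {L L2 : Lag d} (hL : IsNearT M κ F L)
    (hr : HasRep M C F0 L0 F L F2 L2) :
    ContDiffOn ℝ 2 (fun q : Vec d × Vec d × ℝ => L2 (M.r q.1, fderiv ℝ M.r q.1 q.2.1, q.2.2))
      {q | q.1 ∈ M.U} := by
  intro q0 hq0
  have hx0 : q0.1 ∈ M.U := hq0
  obtain ⟨W, Ψ1, ψ, D, hw0, hW⟩ := hr (M.r q0.1) (M.mem _ hx0)
  apply ContDiffAt.contDiffWithinAt
  have hUo : IsOpen {q : Vec d × Vec d × ℝ | q.1 ∈ M.U} := M.isOpen.preimage continuous_fst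
  have hrc : ContDiffAt ℝ 2 (fun q : Vec d × Vec d × ℝ => M.r q.1) q0 :=
    ((E11_at M hx0).of_le E11_two).comp q0 contDiffAt_fst
  have hWn : W ∈ 𝓝 (M.r q0.1) := hW.isOpen.mem_nhds hw0
  have hev : ∀ᶠ q : Vec d × Vec d × ℝ in 𝓝 q0, q.1 ∈ M.U ∧ M.r q.1 ∈ W :=
    Filter.Eventually.and (hUo.mem_nhds hq0) (hrc.continuousAt.eventually hWn)
  have heq : (fun q : Vec d × Vec d × ℝ => L2 (M.r q.1, fderiv ℝ M.r q.1 q.2.1, q.2.2)) =ᶠ[𝓝 q0]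
      (fun q : Vec d × Vec d × ℝ => Ψ1 (M.r q.1) *
        L0 (ψ (M.r q.1)) (D (M.r q.1) (fderiv ℝ M.r q.1 q.2.1)) +
        (1 - Ψ1 (M.r q.1)) * L (M.r q.1, fderiv ℝ M.r q.1 q.2.1, q.2.2)) := by
    filter_upwards [hev] with q hq
    exact hW.lag (M.r q.1) ⟨M.mem _ hq.1, hq.2⟩ _ (E11_rr M hq.1 _) _
  refine ContDiffAt.congr_of_eventuallyEq ?_ heq
  have hfd : ContDiffAt ℝ 2 (fun q : Vec d × Vec d × ℝ => fderiv ℝ M.r q.1 q.2.1) q0 :=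
    ((E11_fd M hx0).comp q0 contDiffAt_fst).clm_apply
      (contDiffAt_fst.comp q0 contDiffAt_snd)
  have h1 : ContDiffAt ℝ 2 (fun q : Vec d × Vec d × ℝ => Ψ1 (M.r q.1)) q0 :=
    (hW.s1.contDiffAt hWn).comp q0 hrc
  have h2 : ContDiffAt ℝ 2 (fun q : Vec d × Vec d × ℝ => ψ (M.r q.1)) q0 :=
    (hW.s2.contDiffAt hWn).comp q0 hrc
  have h3 : ContDiffAt ℝ 2 (fun q : Vec d × Vec d × ℝ => D (M.r q.1)) q0 :=
    (hW.s3.contDiffAt hWn).comp q0 hrc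
  have h4 : ContDiffAt ℝ 2 (fun q : Vec d × Vec d × ℝ =>
      L0 (ψ (M.r q.1)) (D (M.r q.1) (fderiv ℝ M.r q.1 q.2.1))) q0 :=
    hm.smL.contDiffAt.comp q0 (h2.prodMk (h3.clm_apply hfd))
  have h5 : ContDiffAt ℝ 2 (fun q : Vec d × Vec d × ℝ =>
      L (M.r q.1, fderiv ℝ M.r q.1 q.2.1, q.2.2)) q0 :=
    hL.smooth.contDiffAt (hUo.mem_nhds hq0)
  exact (h1.mul h4).add ((contDiffAt_const.sub h1).mul h5)

theorem E11_comp {E H : Type*} [NormedAddCommGroup E] [NormedSpace ℝ E] [NormedAddCommGroup H]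
    [NormedSpace ℝ H] {f : H → ℝ} (hf : ContDiff ℝ 2 f) (A : E →L[ℝ] H) (v w : E) :
    iteratedFDeriv ℝ 2 (fun u => f (A u)) v ![w, w] = iteratedFDeriv ℝ 2 f (A v) ![A w, A w] := by
  have h := A.iteratedFDeriv_comp_right hf v (i := 2) le_rfl
  have h2 : iteratedFDeriv ℝ 2 (fun u => f (A u)) v = iteratedFDeriv ℝ 2 (f ∘ A) v := rfl
  rw [h2, h, ContinuousMultilinearMap.compContinuousLinearMap_apply]
  congr 1
  funext i
  fin_cases i <;> rfl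

theorem conv_of_rep {M : Sub d} {C : ℝ} (hC : 0 < C) {G : Subgroup (Vec m ≃ₗᵢ[ℝ] Vec m)}
    {F0 L0 : Vec m → Vec m → ℝ} (hm : Model G F0 L0) {κ : ℝ → ℝ} {F F2 : Vec d → Vec d → ℝ → ℝ}
    {L L2 : Lag d} (hL : IsNearT M κ F L) (hr : HasRep M C F0 L0 F L F2 L2) :
    ∃ c : ℝ, 0 < c ∧ ∀ x ∈ M.N, ∀ v w t, IsTangent M x v → IsTangent M x w →
      c * ‖w‖ ^ 2 ≤ iteratedFDeriv ℝ 2 (fun u => L2 (x, fderiv ℝ M.r x u, t)) v ![w, w] := by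
  obtain ⟨c0, hc0, h0⟩ := hm.convL
  obtain ⟨c1, hc1, h1⟩ := hL.convex
  refine ⟨min (c0 / C ^ 2) c1, lt_min (by positivity) hc1, ?_⟩
  intro x hx v w t hv hw
  obtain ⟨W, Ψ1, ψ, D, hxW, hW⟩ := hr x hx
  have hxU : x ∈ M.U := M.sub hx
  have hrx : M.r x = x := E11_self M hx
  have htan : ∀ u, IsTangent M x (fderiv ℝ M.r x u) := by
    intro u
    have h := E11_rr M hxU u
    rwa [hrx] at h
  have hQw : fderiv ℝ M.r x w = w := hw
  have hfun : (fun u => L2 (x, fderiv ℝ M.r x u, t)) =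
      (Ψ1 x) • (fun u => L0 (ψ x) ((D x).comp (fderiv ℝ M.r x) u)) +
        (1 - Ψ1 x) • (fun u => L (x, fderiv ℝ M.r x u, t)) := by
    funext u
    have h := hW.lag x ⟨hx, hxW⟩ _ (htan u) t
    rw [h]
    rfl
  have hsL0 : ContDiff ℝ 2 (L0 (ψ x)) :=
    hm.smL.comp (contDiff_const.prodMk contDiff_id)
  have hs1 : ContDiff ℝ 2 (fun u => L0 (ψ x) ((D x).comp (fderiv ℝ M.r x) u)) :=
    hsL0.comp (ContinuousLinearMap.contDiff _)
  have hs2 : ContDiff ℝ 2 (fun u => L (x, fderiv ℝ M.r x u, t)) := by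
    rw [contDiff_iff_contDiffAt]
    intro u
    have hUo : IsOpen {q : Vec d × Vec d × ℝ | q.1 ∈ M.U} := M.isOpen.preimage continuous_fst
    have h2 := hL.smooth.contDiffAt (hUo.mem_nhds (show ((x, u, t) : Vec d × Vec d × ℝ) ∈ _ from hxU))
    have h3 : ContDiffAt ℝ 2 (fun u : Vec d => ((x, u, t) : Vec d × Vec d × ℝ)) u :=
      contDiffAt_const.prodMk (contDiffAt_id.prodMk contDiffAt_const)
    have h4 := ContDiffAt.comp u h2 h3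
    have h5 : ((fun q : Vec d × Vec d × ℝ => L (M.r q.1, fderiv ℝ M.r q.1 q.2.1, q.2.2)) ∘
        fun u : Vec d => ((x, u, t) : Vec d × Vec d × ℝ)) = fun u => L (x, fderiv ℝ M.r x u, t) := by
      funext u'
      show L (M.r x, fderiv ℝ M.r x u', t) = _
      rw [hrx]
    rwa [h5] at h4
  have hsum : iteratedFDeriv ℝ 2 (fun u => L2 (x, fderiv ℝ M.r x u, t)) v ![w, w] =
      Ψ1 x * iteratedFDeriv ℝ 2 (fun u => L0 (ψ x) ((D x).comp (fderiv ℝ M.r x) u)) v ![w, w] +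
        (1 - Ψ1 x) * iteratedFDeriv ℝ 2 (fun u => L (x, fderiv ℝ M.r x u, t)) v ![w, w] := by
    have k1 : ContDiffAt ℝ 2 ((Ψ1 x) • (fun u => L0 (ψ x) ((D x).comp (fderiv ℝ M.r x) u))) v :=
      (hs1.const_smul (Ψ1 x)).contDiffAt
    have k2 : ContDiffAt ℝ 2 ((1 - Ψ1 x) • (fun u => L (x, fderiv ℝ M.r x u, t))) v :=
      (hs2.const_smul (1 - Ψ1 x)).contDiffAt
    rw [hfun, iteratedFDeriv_add_apply k1 k2, iteratedFDeriv_const_smul_apply hs1.contDiffAt,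
      iteratedFDeriv_const_smul_apply hs2.contDiffAt]
    rfl
  have hA : iteratedFDeriv ℝ 2 (fun u => L0 (ψ x) ((D x).comp (fderiv ℝ M.r x) u)) v ![w, w] =
      iteratedFDeriv ℝ 2 (L0 (ψ x)) ((D x).comp (fderiv ℝ M.r x) v) ![D x w, D x w] := by
    have h := E11_comp hsL0 ((D x).comp (fderiv ℝ M.r x)) v w
    rw [h]
    have h2 : (D x).comp (fderiv ℝ M.r x) w = D x w := by
      rw [ContinuousLinearMap.comp_apply, hQw]
    rw [h2]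
  have hB := h0 (ψ x) ((D x).comp (fderiv ℝ M.r x) v) (D x w)
  have hB' := h1 x hx v w t hv hw
  rw [← hA] at hB
  obtain ⟨hΨ0, hΨ1⟩ := hW.mem01 x hxW
  have hN : 0 ≤ ‖w‖ ^ 2 := by positivity
  have hm1 : min (c0 / C ^ 2) c1 * ‖w‖ ^ 2 ≤ c1 * ‖w‖ ^ 2 :=
    mul_le_mul_of_nonneg_right (min_le_right _ _) hN
  rw [hsum]
  have hE2 : (1 - Ψ1 x) * (min (c0 / C ^ 2) c1 * ‖w‖ ^ 2) ≤
      (1 - Ψ1 x) * iteratedFDeriv ℝ 2 (fun u => L (x, fderiv ℝ M.r x u, t)) v ![w, w] :=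
    mul_le_mul_of_nonneg_left (hm1.trans hB') (by linarith)
  have hE1 : Ψ1 x * (min (c0 / C ^ 2) c1 * ‖w‖ ^ 2) ≤
      Ψ1 x * iteratedFDeriv ℝ 2 (fun u => L0 (ψ x) ((D x).comp (fderiv ℝ M.r x) u)) v ![w, w] := by
    rcases hΨ0.eq_or_lt with h | h
    · rw [← h, zero_mul, zero_mul]
    · refine mul_le_mul_of_nonneg_left ?_ hΨ0
      have h3 := hW.le x ⟨hx, hxW⟩ w hw h
      have h4 : ‖w‖ ^ 2 ≤ C ^ 2 * ‖D x w‖ ^ 2 := by
        rw [← mul_pow]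
        exact pow_le_pow_left₀ (norm_nonneg _) h3 2
      calc min (c0 / C ^ 2) c1 * ‖w‖ ^ 2 ≤ c0 / C ^ 2 * ‖w‖ ^ 2 :=
            mul_le_mul_of_nonneg_right (min_le_left _ _) hN
        _ ≤ c0 / C ^ 2 * (C ^ 2 * ‖D x w‖ ^ 2) := mul_le_mul_of_nonneg_left h4 (by positivity)
        _ = c0 * ‖D x w‖ ^ 2 := by field_simp
        _ ≤ _ := hB
  have hsplit : min (c0 / C ^ 2) c1 * ‖w‖ ^ 2 = Ψ1 x * (min (c0 / C ^ 2) c1 * ‖w‖ ^ 2) +
      (1 - Ψ1 x) * (min (c0 / C ^ 2) c1 * ‖w‖ ^ 2) := by ring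
  linarith

end EscW.Ex
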