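import Pool.Agent.EscW.E12a

set_option autoImplicit false

/-!
Project EscW, part E, module E12: the glued Lagrangian: near.
`near_local` reduces to a neighbourhood of every point.
`near_of_rep`: `Δ x v t = L2 - F2²/2`. Local at `w0`: on `M.N ∩ W`: `Δ = Ψ1 Δ0(ψ w, D w u) + (1 - Ψ1) Δ1`, `Δ0 = L0 - F0²/2`, `Δ1 = L - F²/2`
(`√a² = a`, `a ≥ 0` since `F0², F² ≥ 0`, `Ψ1 ∈ [0,1]`). On a small ball around `w0`: `Ψ1`, `ψ`, `D` are Lipschitz and bounded (of class `C²`);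
`|Δ0(x,v)| ≤ C (1 + ‖v‖)` for `x` in a bounded set (`nearL` with the point `(ψ w0, 0)`), `|Δ1(w,u,t)| ≤ C (1 + ‖u‖)` on the ball, all `t` (`near`
with `(w0, 0, 0)`, reduce `t` to `[0,1]` with the periodicity of `L` and `F`). Products: `|a b - a' b'| ≤ |a - a'| |b| + |a'| |b - b'|`;
`‖D w u - D w' u'‖ ≤ C ‖w - w'‖ ‖u‖ + C ‖u - u'‖`.
-/

noncomputable section

namespace EscW.Ex

open Filter Topology Set EscF.T EscM EscMT MeasureTheory
open scoped ContDiff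

variable {d m n : ℕ}

theorem E12_vz_zero : vz (0 : Fin d → ℤ) = 0 := by
  unfold vz
  ext i
  simp

theorem E12_perF {M : Sub d} {F : Vec d → Vec d → ℝ → ℝ} (hF : IsFinslerT M F) {x v : Vec d}
    (hx : x ∈ M.N) (hv : IsTangent M x v) (t : ℝ) (l : ℤ) : F x v (t + l) = F x v t := by
  have h : Function.Periodic (fun s => F x v s) 1 := fun s => hF.periodic x hx v hv s
  have h2 := h.int_mul l t
  simpa using h2

theorem E12_mix {a a' p p' q q' : ℝ} (h0 : 0 ≤ a') (h1 : a' ≤ 1) :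
    |(a * p + (1 - a) * q) - (a' * p' + (1 - a') * q')| ≤
      |p - p'| + |q - q'| + |a - a'| * (|p| + |q|) := by
  have e : (a * p + (1 - a) * q) - (a' * p' + (1 - a') * q') =
      a' * (p - p') + (1 - a') * (q - q') + ((a - a') * p - (a - a') * q) := by ring
  rw [e]
  have i1 : |a' * (p - p')| ≤ |p - p'| := by
    rw [abs_mul, abs_of_nonneg h0]
    exact mul_le_of_le_one_left (abs_nonneg _) h1
  have i2 : |(1 - a') * (q - q')| ≤ |q - q'| := by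
    rw [abs_mul, abs_of_nonneg (by linarith : (0 : ℝ) ≤ 1 - a')]
    exact mul_le_of_le_one_left (abs_nonneg _) (by linarith)
  have i3 : |(a - a') * p - (a - a') * q| ≤ |a - a'| * (|p| + |q|) := by
    have h := abs_sub ((a - a') * p) ((a - a') * q)
    rw [abs_mul, abs_mul] at h
    linarith
  have i4 := abs_add_le (a' * (p - p') + (1 - a') * (q - q')) ((a - a') * p - (a - a') * q)
  have i5 := abs_add_le (a' * (p - p')) ((1 - a') * (q - q'))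
  linarith

/-- The formula for the difference. -/
theorem E12_formula {a f0 f l0 l : ℝ} (h0 : 0 ≤ a) (h1 : a ≤ 1) :
    (a * l0 + (1 - a) * l) - 1 * √(a * f0 ^ 2 + (1 - a) * f ^ 2) ^ 2 / 2 =
      a * (l0 - f0 ^ 2 / 2) + (1 - a) * (l - 1 * f ^ 2 / 2) := by
  have h2 : 0 ≤ a * f0 ^ 2 + (1 - a) * f ^ 2 := by
    have : 0 ≤ 1 - a := by linarith
    positivity
  rw [Real.sq_sqrt h2]
  ring

theorem near_of_rep {M : Sub d} {C : ℝ} {G : Subgroup (Vec m ≃ₗᵢ[ℝ] Vec m)} {F0 L0 : Vec m → Vec m → ℝ}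
    (hm : Model G F0 L0) {F F2 : Vec d → Vec d → ℝ → ℝ} {L L2 : Lag d} (hF : IsFinslerT M F)
    (hL : IsNearT M (fun _ => 1) F L) (hr : HasRep M C F0 L0 F L F2 L2)
    (hperF : ∀ (k : Fin d → ℤ), ∀ x ∈ M.N, ∀ v, IsTangent M x v → ∀ t, F2 (x + vz k) v t = F2 x v t)
    (hperL : ∀ (k : Fin d → ℤ) (l : ℤ), ∀ x ∈ M.N, ∀ v t, IsTangent M x v →
      L2 (x + vz k, v, t + l) = L2 (x, v, t)) :
    ∃ C' : ℝ, ∀ x ∈ M.N, ∀ v t, IsTangent M x v → ∀ x' ∈ M.N, ∀ v' t', IsTangent M x' v' →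
      |(L2 (x, v, t) - (fun _ => (1:ℝ)) t * F2 x v t ^ 2 / 2) -
        (L2 (x', v', t') - (fun _ => (1:ℝ)) t' * F2 x' v' t' ^ 2 / 2)| ≤
      C' * (‖v - v'‖ + (1 + ‖v‖) * (‖x - x'‖ + |t - t'|)) := by
  refine near_local (Δ := fun x v t => L2 (x, v, t) - (fun _ => (1:ℝ)) t * F2 x v t ^ 2 / 2) ?_ ?_
  · intro k l x hx v t hv
    have hl := hperL k l x hx v t hv
    have hf := hperF k x hx v hv (t + l)
    have ht : F2 x v (t + l) = F2 x v t := by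
      obtain ⟨W, Ψ1, ψ, D, hxW, rep⟩ := hr x hx
      rw [rep.metric x ⟨hx, hxW⟩ v hv, rep.metric x ⟨hx, hxW⟩ v hv, E12_perF hF hx hv]
    simp only
    rw [hl, hf, ht]
  · intro w0 hw0
    obtain ⟨W, Ψ1, ψ, D, hwW, rep⟩ := hr w0 hw0
    have hWn : W ∈ 𝓝 w0 := rep.isOpen.mem_nhds hwW
    obtain ⟨K1, t1, ht1, hK1⟩ := ((rep.s1.contDiffAt hWn).of_le (by norm_num)).exists_lipschitzOnWith
    obtain ⟨K2, t2, ht2, hK2⟩ := ((rep.s2.contDiffAt hWn).of_le (by norm_num)).exists_lipschitzOnWith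
    obtain ⟨K3, t3, ht3, hK3⟩ := ((rep.s3.contDiffAt hWn).of_le (by norm_num)).exists_lipschitzOnWith
    obtain ⟨r, hr0, hball⟩ := Metric.mem_nhds_iff.1
      (inter_mem hWn (inter_mem ht1 (inter_mem ht2 ht3)))
    obtain ⟨C0, hC0⟩ := hm.nearL
    obtain ⟨C1, hC1⟩ := hL.near
    -- constants
    set c0 : ℝ := max C0 0 with hc0
    set c1 : ℝ := max C1 0 with hc1
    have hc0n : 0 ≤ c0 := le_max_right _ _
    have hc1n : 0 ≤ c1 := le_max_right _ _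
    set Δ0 : Vec m → Vec m → ℝ := fun x v => L0 x v - F0 x v ^ 2 / 2 with hΔ0
    set Δ1 : Vec d → Vec d → ℝ → ℝ := fun w u t => L (w, u, t) - 1 * F w u t ^ 2 / 2 with hΔ1
    have near0 : ∀ x v x' v' : Vec m, |Δ0 x v - Δ0 x' v'| ≤ c0 * (‖v - v'‖ + (1 + ‖v‖) * ‖x - x'‖) := by
      intro x v x' v'
      refine (hC0 x v x' v').trans (mul_le_mul_of_nonneg_right (le_max_left _ _) (by positivity))
    have near1 : ∀ x ∈ M.N, ∀ v t, IsTangent M x v → ∀ x' ∈ M.N, ∀ v' t', IsTangent M x' v' →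
        |Δ1 x v t - Δ1 x' v' t'| ≤ c1 * (‖v - v'‖ + (1 + ‖v‖) * (‖x - x'‖ + |t - t'|)) := by
      intro x hx v t hv x' hx' v' t' hv'
      refine (hC1 x hx v t hv x' hx' v' t' hv').trans
        (mul_le_mul_of_nonneg_right (le_max_left _ _) (by positivity))
    have hBW : ∀ w ∈ Metric.ball w0 r, w ∈ W := fun w hw => (hball hw).1
    have hw0B : w0 ∈ Metric.ball w0 r := Metric.mem_ball_self hr0
    have lip1 : ∀ w ∈ Metric.ball w0 r, ∀ w' ∈ Metric.ball w0 r, |Ψ1 w - Ψ1 w'| ≤ K1 * ‖w - w'‖ := by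
      intro w hw w' hw'
      have h := hK1.dist_le_mul w (hball hw).2.1 w' (hball hw').2.1
      rwa [Real.dist_eq, dist_eq_norm] at h
    have lip2 : ∀ w ∈ Metric.ball w0 r, ∀ w' ∈ Metric.ball w0 r, ‖ψ w - ψ w'‖ ≤ K2 * ‖w - w'‖ := by
      intro w hw w' hw'
      have h := hK2.dist_le_mul w (hball hw).2.2.1 w' (hball hw').2.2.1
      rwa [dist_eq_norm, dist_eq_norm] at h
    have lip3 : ∀ w ∈ Metric.ball w0 r, ∀ w' ∈ Metric.ball w0 r, ‖D w - D w'‖ ≤ K3 * ‖w - w'‖ := by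
      intro w hw w' hw'
      have h := hK3.dist_le_mul w (hball hw).2.2.2 w' (hball hw').2.2.2
      rwa [dist_eq_norm, dist_eq_norm] at h
    have hdist : ∀ w ∈ Metric.ball w0 r, ‖w0 - w‖ ≤ r := by
      intro w hw
      rw [← dist_eq_norm, dist_comm]
      exact (Metric.mem_ball.1 hw).le
    set KD : ℝ := ‖D w0‖ + K3 * r with hKD
    have hK1n : (0 : ℝ) ≤ K1 := K1.2
    have hK2n : (0 : ℝ) ≤ K2 := K2.2
    have hK3n : (0 : ℝ) ≤ K3 := K3.2
    have hKDn : 0 ≤ KD := by positivity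
    have hDb : ∀ w ∈ Metric.ball w0 r, ‖D w‖ ≤ KD := by
      intro w hw
      have h1 := lip3 w0 hw0B w hw
      have h2 := hdist w hw
      have h3 : ‖D w‖ ≤ ‖D w0‖ + ‖D w0 - D w‖ := by
        have h4 := norm_sub_le (D w0) (D w0 - D w)
        rwa [sub_sub_cancel] at h4
      have h5 : (K3 : ℝ) * ‖w0 - w‖ ≤ K3 * r := mul_le_mul_of_nonneg_left h2 hK3n
      rw [hKD]
      linarith
    have hDu : ∀ w ∈ Metric.ball w0 r, ∀ u, ‖D w u‖ ≤ KD * ‖u‖ := by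
      intro w hw u
      exact ((D w).le_opNorm u).trans (mul_le_mul_of_nonneg_right (hDb w hw) (norm_nonneg _))
    -- growth of `Δ0`
    set B0 : ℝ := |Δ0 (ψ w0) 0| + c0 * (KD + K2 * r) with hB0
    have hB0n : 0 ≤ B0 := by positivity
    have grow0 : ∀ w ∈ Metric.ball w0 r, ∀ u, |Δ0 (ψ w) (D w u)| ≤ B0 * (1 + ‖u‖) := by
      intro w hw u
      have h1 := near0 (ψ w0) 0 (ψ w) (D w u)
      rw [norm_zero, add_zero, one_mul, zero_sub, norm_neg] at h1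
      have h2 := hDu w hw u
      have h3 : ‖ψ w0 - ψ w‖ ≤ K2 * r :=
        (lip2 w0 hw0B w hw).trans (mul_le_mul_of_nonneg_left (hdist w hw) hK2n)
      have h4 : |Δ0 (ψ w) (D w u)| ≤ |Δ0 (ψ w0) 0| + |Δ0 (ψ w0) 0 - Δ0 (ψ w) (D w u)| := by
        have h5 := abs_sub (Δ0 (ψ w0) 0) (Δ0 (ψ w0) 0 - Δ0 (ψ w) (D w u))
        rwa [sub_sub_cancel] at h5
      have h6 : c0 * (‖D w u‖ + ‖ψ w0 - ψ w‖) ≤ c0 * (KD * ‖u‖ + K2 * r) :=
        mul_le_mul_of_nonneg_left (add_le_add h2 h3) hc0n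
      have hu := norm_nonneg u
      have h7 : 0 ≤ |Δ0 (ψ w0) 0| * ‖u‖ := by positivity
      have h8 : 0 ≤ c0 * (KD + K2 * r * ‖u‖) := by positivity
      rw [hB0]
      nlinarith [h1, h4, h6, h7, h8]
    -- growth of `Δ1`
    have h0T : IsTangent M w0 0 := by
      unfold IsTangent
      exact map_zero _
    set B1 : ℝ := |Δ1 w0 0 0| + c1 * (2 + r) with hB1
    have hB1n : 0 ≤ B1 := by positivity
    have grow1 : ∀ w ∈ M.N ∩ Metric.ball w0 r, ∀ u, IsTangent M w u → ∀ t,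
        |Δ1 w u t| ≤ B1 * (1 + ‖u‖) := by
      intro w hw u hu t
      -- reduce the time
      have hper : Δ1 w u t = Δ1 w u (Int.fract t) := by
        have e : t = Int.fract t + (⌊t⌋ : ℤ) := (Int.fract_add_floor t).symm
        have p1 := hL.periodic 0 ⌊t⌋ w hw.1 u (Int.fract t) hu
        rw [E12_vz_zero, add_zero, ← e] at p1
        have p2 := E12_perF hF hw.1 hu (Int.fract t) ⌊t⌋
        rw [← e] at p2
        simp only [hΔ1]
        rw [p1, p2]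
      rw [hper]
      have h1 := near1 w0 hw0 0 0 h0T w hw.1 u (Int.fract t) hu
      rw [norm_zero, add_zero, one_mul, zero_sub, norm_neg, zero_sub, abs_neg,
        abs_of_nonneg (Int.fract_nonneg t)] at h1
      have h2 := hdist w hw.2
      have h3 : Int.fract t ≤ 1 := (Int.fract_lt_one t).le
      have h4 : |Δ1 w u (Int.fract t)| ≤ |Δ1 w0 0 0| + |Δ1 w0 0 0 - Δ1 w u (Int.fract t)| := by
        have h5 := abs_sub (Δ1 w0 0 0) (Δ1 w0 0 0 - Δ1 w u (Int.fract t))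
        rwa [sub_sub_cancel] at h5
      have h6 : c1 * (‖u‖ + (‖w0 - w‖ + Int.fract t)) ≤ c1 * (‖u‖ + (r + 1)) :=
        mul_le_mul_of_nonneg_left (by linarith) hc1n
      have hu0 := norm_nonneg u
      have h7 : 0 ≤ |Δ1 w0 0 0| * ‖u‖ := by positivity
      have h8 : 0 ≤ c1 * (1 + (1 + r) * ‖u‖) := by positivity
      rw [hB1]
      nlinarith [h1, h4, h6, h7, h8]
    refine ⟨Metric.ball w0 r, c0 * (KD + K3 + (1 + KD) * K2) + c1 + K1 * (B0 + B1),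
      Metric.isOpen_ball, hw0B, ?_⟩
    intro w hw u t hu w' hw' u' t' hu'
    have form : ∀ w ∈ M.N ∩ Metric.ball w0 r, ∀ u, IsTangent M w u → ∀ t,
        L2 (w, u, t) - (fun _ => (1:ℝ)) t * F2 w u t ^ 2 / 2 =
          Ψ1 w * Δ0 (ψ w) (D w u) + (1 - Ψ1 w) * Δ1 w u t := by
      intro w hw u hu t
      have hwW' : w ∈ M.N ∩ W := ⟨hw.1, hBW w hw.2⟩
      obtain ⟨h0, h1⟩ := rep.mem01 w hwW'.2
      rw [rep.metric w hwW' u hu t, rep.lag w hwW' u hu t]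
      exact E12_formula h0 h1
    simp only
    have f1 := form w hw u hu t
    have f2 := form w' hw' u' hu' t'
    simp only at f1 f2
    rw [f1, f2]
    obtain ⟨h0, h1⟩ := rep.mem01 w' (hBW w' hw'.2)
    refine (E12_mix h0 h1).trans ?_
    -- the pieces
    have hX : 0 ≤ ‖u - u'‖ := norm_nonneg _
    have hY : 0 ≤ ‖w - w'‖ := norm_nonneg _
    have hZ : 0 ≤ |t - t'| := abs_nonneg _
    have hU : 0 ≤ ‖u‖ := norm_nonneg _
    have d1 : ‖D w u - D w' u'‖ ≤ K3 * ‖w - w'‖ * ‖u‖ + KD * ‖u - u'‖ := by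
      have e : D w u - D w' u' = (D w - D w') u + D w' (u - u') := by
        rw [sub_apply, map_sub]
        abel
      rw [e]
      refine (norm_add_le _ _).trans (add_le_add ?_ (hDu w' hw'.2 _))
      exact ((D w - D w').le_opNorm u).trans
        (mul_le_mul_of_nonneg_right (lip3 w hw.2 w' hw'.2) hU)
    have d2 : (1 + ‖D w u‖) * ‖ψ w - ψ w'‖ ≤ (1 + KD) * (1 + ‖u‖) * (K2 * ‖w - w'‖) := by
      have h3 : 1 + ‖D w u‖ ≤ (1 + KD) * (1 + ‖u‖) := by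
        have h4 := hDu w hw.2 u
        nlinarith [h4, hU, hKDn]
      exact mul_le_mul h3 (lip2 w hw.2 w' hw'.2) (norm_nonneg _) (by positivity)
    have P : |Δ0 (ψ w) (D w u) - Δ0 (ψ w') (D w' u')| ≤
        c0 * ((K3 * ‖w - w'‖ * ‖u‖ + KD * ‖u - u'‖) + (1 + KD) * (1 + ‖u‖) * (K2 * ‖w - w'‖)) :=
      (near0 _ _ _ _).trans (mul_le_mul_of_nonneg_left (add_le_add d1 d2) hc0n)
    have Q : |Δ1 w u t - Δ1 w' u' t'| ≤
        c1 * (‖u - u'‖ + (1 + ‖u‖) * (‖w - w'‖ + |t - t'|)) := near1 w hw.1 u t hu w' hw'.1 u' t' hu'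
    have A : |Ψ1 w - Ψ1 w'| * (|Δ0 (ψ w) (D w u)| + |Δ1 w u t|) ≤
        K1 * ‖w - w'‖ * ((B0 + B1) * (1 + ‖u‖)) := by
      refine mul_le_mul (lip1 w hw.2 w' hw'.2) ?_ (by positivity) (by positivity)
      have g0 := grow0 w hw.2 u
      have g1 := grow1 w hw u hu t
      linarith
    have e1 : (c0 * (KD + K3 + (1 + KD) * K2) + c1 + K1 * (B0 + B1)) *
        (‖u - u'‖ + (1 + ‖u‖) * (‖w - w'‖ + |t - t'|)) =
        c0 * ((K3 * ‖w - w'‖ * ‖u‖ + KD * ‖u - u'‖) + (1 + KD) * (1 + ‖u‖) * (K2 * ‖w - w'‖)) +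
        c1 * (‖u - u'‖ + (1 + ‖u‖) * (‖w - w'‖ + |t - t'|)) +
        K1 * ‖w - w'‖ * ((B0 + B1) * (1 + ‖u‖)) +
        (c0 * (KD * ((1 + ‖u‖) * (‖w - w'‖ + |t - t'|)) + K3 * (‖u - u'‖ + ‖w - w'‖ +
          (1 + ‖u‖) * |t - t'|) + (1 + KD) * K2 * (‖u - u'‖ + (1 + ‖u‖) * |t - t'|)) +
        K1 * (B0 + B1) * (‖u - u'‖ + (1 + ‖u‖) * |t - t'|)) := by ring
    rw [e1]
    have e2 : 0 ≤ c0 * (KD * ((1 + ‖u‖) * (‖w - w'‖ + |t - t'|)) + K3 * (‖u - u'‖ + ‖w - w'‖ +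
          (1 + ‖u‖) * |t - t'|) + (1 + KD) * K2 * (‖u - u'‖ + (1 + ‖u‖) * |t - t'|)) +
        K1 * (B0 + B1) * (‖u - u'‖ + (1 + ‖u‖) * |t - t'|) := by positivity
    linarith

end EscW.Ex
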