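import Pool.Agent.EscW.EEDefs
import Pool.Agent.EscM.N2

set_option autoImplicit false

/-!
Project EscW, part E, module E12a: a local criterion.
`near_local`: `M.N` modulo `ℤᵈ` is compact (closed, periodic): finitely many `W_i`, and a Lebesgue number `r0 > 0`: `x, x' ∈ M.N`,
`‖x - x'‖ < r0` ⇒ both in `W_i + vz k` for some `i`, `k` (compact set `M.N ∩ [0,1]ᵈ`, `lebesgue_number_lemma_of_metric`, translate by an
integer vector). For such points: `hloc` for `x - vz k`, `x' - vz k`, periodicity of `Δ` and of tangent spaces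
(`M.r (x + vz k) = M.r x + vz k` on `M.U`, from `nearest`; see EscM). Growth: `|Δ x v t| ≤ C1 (1 + ‖v‖)`: translate `x` to the cube, `t` to `[0,1]`, compare
with `Δ w_i 0 0`, `w_i ∈ M.N ∩ W_i` (drop the `W_i` which do not meet `M.N`), the diameter is bounded (`hloc` with first point `(w_i, 0, 0)`). If `‖x - x'‖ ≥ r0`:
`|Δ - Δ'| ≤ C1 (2 + 2‖v‖ + ‖v - v'‖)`, and `1 + ‖v‖ ≤ (1 + ‖v‖) ‖x - x'‖ / r0`.
-/

noncomputable section

namespace EscW.Ex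

open Filter Topology Set EscF.T EscM EscMT MeasureTheory
open scoped ContDiff

variable {d m n : ℕ}

theorem E12a_fderiv_r_vz (M : Sub d) {x : Vec d} (hx : x ∈ M.U) (k : Fin d → ℤ) :
    fderiv ℝ M.r (x + vz k) = fderiv ℝ M.r x := by
  have h1 : (fun y => M.r (y + vz k)) =ᶠ[𝓝 x] fun y => M.r y + vz k := by
    filter_upwards [M.isOpen.mem_nhds hx] with y hy
    exact r_vz M k hy
  have h2 := h1.fderiv_eq (𝕜 := ℝ)
  rw [fderiv_comp_add_right, fderiv_add_const] at h2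
  exact h2

theorem E12a_tangent (M : Sub d) {x v : Vec d} (hx : x ∈ M.N) (k : Fin d → ℤ) (hv : IsTangent M x v) :
    IsTangent M (x + vz k) v := by
  rw [IsTangent, E12a_fderiv_r_vz M (M.sub hx) k]
  exact hv

theorem E12a_tangent_zero (M : Sub d) (x : Vec d) : IsTangent M x 0 := by
  rw [IsTangent, map_zero]

theorem E12a_cube (x : Vec d) : ∃ k : Fin d → ℤ, ∀ i, (x + vz k) i ∈ Icc (0 : ℝ) 1 := by
  refine ⟨fun i => -⌊x i⌋, fun i => ?_⟩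
  have h : (x + vz (fun i => -⌊x i⌋) : Vec d) i = x i + ((-⌊x i⌋ : ℤ) : ℝ) := rfl
  rw [h]
  push_cast
  have e1 := Int.floor_le (x i)
  have e2 := Int.lt_floor_add_one (x i)
  constructor <;> linarith

theorem near_local {M : Sub d} {Δ : Vec d → Vec d → ℝ → ℝ}
    (hper : ∀ (k : Fin d → ℤ) (l : ℤ), ∀ x ∈ M.N, ∀ v t, IsTangent M x v → Δ (x + vz k) v (t + l) = Δ x v t)
    (hloc : ∀ w0 ∈ M.N, ∃ (W : Set (Vec d)) (C : ℝ), IsOpen W ∧ w0 ∈ W ∧ ∀ x ∈ M.N ∩ W, ∀ v t,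
      IsTangent M x v → ∀ x' ∈ M.N ∩ W, ∀ v' t', IsTangent M x' v' →
      |Δ x v t - Δ x' v' t'| ≤ C * (‖v - v'‖ + (1 + ‖v‖) * (‖x - x'‖ + |t - t'|))) :
    ∃ C : ℝ, ∀ x ∈ M.N, ∀ v t, IsTangent M x v → ∀ x' ∈ M.N, ∀ v' t', IsTangent M x' v' →
      |Δ x v t - Δ x' v' t'| ≤ C * (‖v - v'‖ + (1 + ‖v‖) * (‖x - x'‖ + |t - t'|)) := by
  choose! W C hWo hW hWC using hloc
  set K : Set (Vec d) := M.N ∩ {x : Vec d | ∀ i, x i ∈ Icc (0 : ℝ) 1} with hK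
  have hKc : IsCompact K := N2_cube_compact M
  obtain ⟨T, hTK, hTc⟩ := hKc.elim_nhds_subcover W fun x hx => (hWo x hx.1).mem_nhds (hW x hx.1)
  have hTN : ∀ w ∈ T, w ∈ M.N := fun w hw => (hTK w hw).1
  obtain ⟨δ, hδ, hδc⟩ := lebesgue_number_lemma_of_metric (c := fun w : {w // w ∈ T} => W w.1) hKc
    (fun w => hWo w.1 (hTN w.1 w.2)) (fun x hx => by
      obtain ⟨w, hw, hxw⟩ := mem_iUnion₂.1 (hTc hx)
      exact mem_iUnion.2 ⟨⟨w, hw⟩, hxw⟩)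
  set Cm : ℝ := ∑ w ∈ T, |C w| with hCm
  have hCm0 : 0 ≤ Cm := Finset.sum_nonneg fun w _ => abs_nonneg _
  have hCle : ∀ w ∈ T, C w ≤ Cm := fun w hw =>
    (le_abs_self _).trans (Finset.single_le_sum (f := fun w => |C w|) (fun w _ => abs_nonneg _) hw)
  set Dm : ℝ := ∑ w ∈ T, |Δ w 0 0| with hDm
  have hDm0 : 0 ≤ Dm := Finset.sum_nonneg fun w _ => abs_nonneg _
  have hDle : ∀ w ∈ T, |Δ w 0 0| ≤ Dm := fun w hw =>
    Finset.single_le_sum (f := fun w => |Δ w 0 0|) (fun w _ => abs_nonneg _) hw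
  set R : ℝ := Metric.diam K with hR
  have hR0 : 0 ≤ R := Metric.diam_nonneg
  have hper0 : ∀ (k : Fin d → ℤ), ∀ x ∈ M.N, ∀ v t, IsTangent M x v → Δ (x + vz k) v t = Δ x v t := by
    intro k x hx v t hv
    have h := hper k 0 x hx v t hv
    rwa [Int.cast_zero, add_zero] at h
  -- growth
  have hgrow : ∀ x ∈ M.N, ∀ v t, IsTangent M x v → |Δ x v t| ≤ (Dm + Cm * (R + 1)) * (1 + ‖v‖) := by
    intro x hx v t hv
    obtain ⟨k, hk⟩ := E12a_cube x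
    have hxK : x + vz k ∈ K := ⟨M.perN k x hx, hk⟩
    obtain ⟨w, hw, hxw⟩ := mem_iUnion₂.1 (hTc hxK)
    have h1 := hWC w (hTN w hw) w ⟨hTN w hw, hW w (hTN w hw)⟩ 0 0 (E12a_tangent_zero M w) (x + vz k)
      ⟨hxK.1, hxw⟩ v (Int.fract t) (E12a_tangent M hx k hv)
    have h2 : Δ (x + vz k) v (Int.fract t) = Δ x v t := by
      have h := hper k (-⌊t⌋) x hx v t hv
      have e : t + ((-⌊t⌋ : ℤ) : ℝ) = Int.fract t := by
        push_cast
        rfl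
      rwa [e] at h
    rw [h2] at h1
    have h3 : ‖w - (x + vz k)‖ ≤ R := by
      rw [← dist_eq_norm]
      exact Metric.dist_le_diam_of_mem hKc.isBounded (hTK w hw) hxK
    have h4 : |(0 : ℝ) - Int.fract t| ≤ 1 := by
      rw [zero_sub, abs_neg, abs_of_nonneg (Int.fract_nonneg t)]
      exact (Int.fract_lt_one t).le
    have h5 : ‖(0 : Vec d) - v‖ = ‖v‖ := by rw [zero_sub, norm_neg]
    rw [h5, norm_zero, add_zero, one_mul] at h1
    have hv0 : 0 ≤ ‖v‖ := norm_nonneg v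
    have h6 : C w * (‖v‖ + (‖w - (x + vz k)‖ + |0 - Int.fract t|)) ≤ Cm * (‖v‖ + (R + 1)) :=
      mul_le_mul (hCle w hw) (by linarith) (by positivity) hCm0
    have h7 : |Δ x v t| ≤ |Δ w 0 0| + |Δ w 0 0 - Δ x v t| := by
      have h := abs_sub_abs_le_abs_sub (Δ x v t) (Δ w 0 0)
      rw [abs_sub_comm (Δ x v t)] at h
      linarith
    have h8 : Cm * (‖v‖ + (R + 1)) ≤ Cm * ((R + 1) * (1 + ‖v‖)) := by
      refine mul_le_mul_of_nonneg_left ?_ hCm0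
      nlinarith [mul_nonneg hR0 hv0]
    have h9 : Dm ≤ Dm * (1 + ‖v‖) := by nlinarith [mul_nonneg hDm0 hv0]
    have h10 := hDle w hw
    calc |Δ x v t| ≤ Dm * (1 + ‖v‖) + Cm * ((R + 1) * (1 + ‖v‖)) := by linarith
      _ = (Dm + Cm * (R + 1)) * (1 + ‖v‖) := by ring
  set C1 : ℝ := Dm + Cm * (R + 1) with hC1
  have hC10 : 0 ≤ C1 := by positivity
  refine ⟨Cm + C1 * (1 + 2 / δ), fun x hx v t hv x' hx' v' t' hv' => ?_⟩
  have hv0 : 0 ≤ ‖v‖ := norm_nonneg v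
  have hS0 : 0 ≤ ‖v - v'‖ + (1 + ‖v‖) * (‖x - x'‖ + |t - t'|) := by positivity
  have hd0 : 0 ≤ 2 / δ := by positivity
  by_cases hlt : ‖x - x'‖ < δ
  · obtain ⟨k, hk⟩ := E12a_cube x
    have hxK : x + vz k ∈ K := ⟨M.perN k x hx, hk⟩
    obtain ⟨⟨w, hw⟩, hwδ⟩ := hδc (x + vz k) hxK
    have h1 : x + vz k ∈ W w := hwδ (Metric.mem_ball_self hδ)
    have e : x' + vz k - (x + vz k) = x' - x := by abel
    have h2 : x' + vz k ∈ W w := hwδ (by
      rw [mem_ball_iff_norm, e, norm_sub_rev]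
      exact hlt)
    have h3 := hWC w (hTN w hw) (x + vz k) ⟨hxK.1, h1⟩ v t (E12a_tangent M hx k hv) (x' + vz k)
      ⟨M.perN k x' hx', h2⟩ v' t' (E12a_tangent M hx' k hv')
    rw [hper0 k x hx v t hv, hper0 k x' hx' v' t' hv'] at h3
    have e' : x + vz k - (x' + vz k) = x - x' := by abel
    rw [e'] at h3
    refine h3.trans (mul_le_mul_of_nonneg_right ?_ hS0)
    have := hCle w hw
    have h4 : 0 ≤ C1 * (1 + 2 / δ) := by positivity
    linarith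
  · have hge : δ ≤ ‖x - x'‖ := not_lt.1 hlt
    have h1 := hgrow x hx v t hv
    have h2 := hgrow x' hx' v' t' hv'
    have h3 : |Δ x v t - Δ x' v' t'| ≤ |Δ x v t| + |Δ x' v' t'| := abs_sub _ _
    have h4 : ‖v'‖ ≤ ‖v‖ + ‖v - v'‖ := by
      have h := norm_sub_le v (v - v')
      rwa [sub_sub_cancel] at h
    have h5 : 1 ≤ ‖x - x'‖ / δ := (one_le_div hδ).2 hge
    have hV0 : 0 ≤ ‖v - v'‖ := norm_nonneg _
    have hT0 : 0 ≤ |t - t'| := abs_nonneg _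
    have hX0 : 0 ≤ ‖x - x'‖ := norm_nonneg _
    have h6 : (1 + ‖v‖) + (1 + ‖v'‖) ≤ (1 + 2 / δ) * (‖v - v'‖ + (1 + ‖v‖) * (‖x - x'‖ + |t - t'|)) := by
      have h7 : 2 * (1 + ‖v‖) ≤ 2 / δ * ((1 + ‖v‖) * (‖x - x'‖ + |t - t'|)) := by
        have h8 : 2 / δ * ((1 + ‖v‖) * (‖x - x'‖ + |t - t'|)) =
            2 * (1 + ‖v‖) * (‖x - x'‖ / δ) + 2 / δ * ((1 + ‖v‖) * |t - t'|) := by
          field_simp
        rw [h8]
        have h9 : 0 ≤ 2 / δ * ((1 + ‖v‖) * |t - t'|) := by positivity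
        nlinarith [mul_le_mul_of_nonneg_left h5 (show 0 ≤ 2 * (1 + ‖v‖) by positivity)]
      have h8 : 0 ≤ 2 / δ * ‖v - v'‖ := by positivity
      have h9 : 0 ≤ (1 + ‖v‖) * (‖x - x'‖ + |t - t'|) := by positivity
      nlinarith
    calc |Δ x v t - Δ x' v' t'| ≤ C1 * (1 + ‖v‖) + C1 * (1 + ‖v'‖) := by linarith
      _ = C1 * ((1 + ‖v‖) + (1 + ‖v'‖)) := by ring
      _ ≤ C1 * ((1 + 2 / δ) * (‖v - v'‖ + (1 + ‖v‖) * (‖x - x'‖ + |t - t'|))) :=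
        mul_le_mul_of_nonneg_left h6 hC10
      _ = C1 * (1 + 2 / δ) * (‖v - v'‖ + (1 + ‖v‖) * (‖x - x'‖ + |t - t'|)) := by ring
      _ ≤ (Cm + C1 * (1 + 2 / δ)) * (‖v - v'‖ + (1 + ‖v‖) * (‖x - x'‖ + |t - t'|)) := by
        refine mul_le_mul_of_nonneg_right ?_ hS0
        linarith

end EscW.Ex
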