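import Pool.Agent.EscW.E1

set_option autoImplicit false

/-!
Project EscW, part E, module E13: the calibrated curve.
-/

noncomputable section

namespace EscW.Ex

open Filter Topology Set EscF.T EscM EscMT MeasureTheory
open scoped ContDiff

variable {d m n : ℕ}

theorem E13_cc0 (σ t : ℝ) : (cc σ t : Vec (n + 2)) 0 = σ + 1 / 4 := by simp [cc]

theorem E13_cc1 (σ t : ℝ) : (cc σ t : Vec (n + 2)) 1 = 1 / 4 := by simp [cc]

theorem E13_cci (σ t : ℝ) {i : Fin (n + 2)} (h0 : i ≠ 0) (h1 : i ≠ 1) :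
    (cc σ t : Vec (n + 2)) i = 0 := by simp [cc, h0, h1]

theorem E13_sin : Real.sin (2 * Real.pi * (1 / 4)) = 1 := by
  have h : 2 * Real.pi * (1 / 4) = Real.pi / 2 := by ring
  rw [h, Real.sin_pi_div_two]

theorem cc_mem (σ t : ℝ) : 1 ≤ hh (cc σ t : Vec (n + 2)) ∧ sz (cc σ t : Vec (n + 2)) = 0 := by
  constructor
  · unfold hh
    rw [E13_cc0, E13_cc1, E13_sin]
    nlinarith [sq_nonneg (Real.sin (2 * Real.pi * (σ + 1 / 4)))]
  · unfold sz
    apply Finset.sum_eq_zero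
    intro i _
    split_ifs with h
    · rfl
    · push Not at h
      rw [E13_cci σ t h.1 h.2]
      simp

theorem wt_cc (A σ t : ℝ) : wt A (cc σ t : Vec (n + 2)) = 5 / 4 := by
  obtain ⟨h1, h2⟩ := cc_mem (n := n) σ t
  unfold wt
  rw [h2, Real.smoothTransition.zero_of_nonpos (by linarith),
    Real.smoothTransition.zero_of_nonpos (by norm_num)]
  ring

theorem E13_fderiv (x v : Vec (n + 2)) (t : ℝ) :
    fderiv ℝ (fun y => BB ((tor (n + 2)).r y) t) x v = v 0 := by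
  have h : (fun y : Vec (n + 2) => BB ((tor (n + 2)).r y) t) =
      fun y => (EuclideanSpace.proj (0 : Fin (n + 2)) : Vec (n + 2) →L[ℝ] ℝ) y := by
    funext y
    simp [BB, tor]
  rw [h, ContinuousLinearMap.fderiv]
  simp

theorem E13_abs (v : Vec (n + 2)) : |v 0| ≤ ‖v‖ := by
  have h := PiLp.norm_apply_le v 0
  rwa [Real.norm_eq_abs] at h

theorem E13_wt {A : ℝ} (hA : 0 ≤ A) (X : Vec (n + 2)) : 5 / 4 + sz X ≤ wt A X := by
  unfold wt
  have h1 := Real.smoothTransition.nonneg (4 * (1 - hh X))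
  have h2 := Real.smoothTransition.nonneg (8 * sz X - 1)
  have := mul_nonneg hA (add_nonneg h1 h2)
  linarith

theorem E13_le {A : ℝ} (hA : 0 ≤ A) (X v : Vec (n + 2)) : v 0 ≤ FF A X v := by
  have h1 := E13_wt hA X
  have h2 := sz_nonneg X
  have h3 := E13_abs v
  have h4 := Real.sin_le_one (2 * Real.pi * X 1)
  have h5 := Real.neg_one_le_sin (2 * Real.pi * X 1)
  have h6 := norm_nonneg v
  unfold FF
  obtain ⟨h7, h8⟩ := abs_le.1 h3
  have h9 : 5 / 4 * ‖v‖ ≤ wt A X * ‖v‖ := mul_le_mul_of_nonneg_right (by linarith) h6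
  have h10 : (1 + Real.sin (2 * Real.pi * X 1) / 4) * v 0 ≤
      (1 + Real.sin (2 * Real.pi * X 1) / 4) * ‖v‖ :=
    mul_le_mul_of_nonneg_left h8 (by linarith)
  have h11 : (1 + Real.sin (2 * Real.pi * X 1) / 4) * ‖v‖ ≤ 5 / 4 * ‖v‖ :=
    mul_le_mul_of_nonneg_right (by linarith) h6
  linarith

theorem E13_eq {A : ℝ} (hA : 0 ≤ A) (X v : Vec (n + 2)) (hv : v ≠ 0) (h : v 0 = FF A X v) :
    sz X ≤ 0 ∧ Real.sin (2 * Real.pi * X 1) = 1 := by
  have h1 := E13_wt hA X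
  have h2 := sz_nonneg X
  have h3 := E13_abs v
  have h4 := Real.sin_le_one (2 * Real.pi * X 1)
  have h5 := Real.neg_one_le_sin (2 * Real.pi * X 1)
  have h6 : 0 < ‖v‖ := norm_pos_iff.2 hv
  unfold FF at h
  obtain ⟨h7, h8⟩ := abs_le.1 h3
  have h9 : (5 / 4 + sz X) * ‖v‖ ≤ wt A X * ‖v‖ := mul_le_mul_of_nonneg_right h1 h6.le
  have h10 : (1 + Real.sin (2 * Real.pi * X 1) / 4) * v 0 ≤
      (1 + Real.sin (2 * Real.pi * X 1) / 4) * ‖v‖ :=
    mul_le_mul_of_nonneg_left h8 (by linarith)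
  have h11 : (5 / 4 + sz X) * ‖v‖ ≤ (1 + Real.sin (2 * Real.pi * X 1) / 4) * ‖v‖ := by
    linarith
  have h12 := le_of_mul_le_mul_right h11 h6
  exact ⟨by linarith, by linarith⟩

theorem E13_cc_eq (σ t : ℝ) : (cc σ t : Vec (n + 2)) =
    cc 0 t + σ • EuclideanSpace.single (0 : Fin (n + 2)) (1 : ℝ) := by
  ext i
  by_cases h0 : i = 0
  · subst h0
    simp [cc]
    ring
  · by_cases h1 : i = 1
    · subst h1
      simp [cc]
    · simp [cc, h0, h1]

theorem E13_deriv (σ t : ℝ) : deriv (fun σ => (cc σ t : Vec (n + 2))) σ =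
    EuclideanSpace.single (0 : Fin (n + 2)) (1 : ℝ) := by
  have h : (fun σ => (cc σ t : Vec (n + 2))) =
      fun σ => cc 0 t + σ • EuclideanSpace.single (0 : Fin (n + 2)) (1 : ℝ) := by
    funext σ
    exact E13_cc_eq σ t
  rw [h]
  have h1 : HasDerivAt (fun σ : ℝ => (cc 0 t : Vec (n + 2)) + σ • EuclideanSpace.single (0 : Fin (n + 2)) (1 : ℝ))
      ((1 : ℝ) • EuclideanSpace.single (0 : Fin (n + 2)) (1 : ℝ)) σ :=
    ((hasDerivAt_id σ).smul_const _).const_add _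
  rw [h1.deriv, one_smul]

theorem E13_unit (A σ t : ℝ) :
    FF A (cc σ t : Vec (n + 2)) (EuclideanSpace.single (0 : Fin (n + 2)) (1 : ℝ)) = 1 := by
  unfold FF
  rw [wt_cc, E13_cc1, E13_sin]
  simp
  norm_num

theorem E13_curve : ContDiff ℝ 1 (fun p : ℝ × ℝ => (cc p.1 p.2 : Vec (n + 2))) := by
  have h : (fun p : ℝ × ℝ => (cc p.1 p.2 : Vec (n + 2))) =
      fun p => cc 0 0 + p.1 • EuclideanSpace.single (0 : Fin (n + 2)) (1 : ℝ) := by
    funext p
    exact E13_cc_eq p.1 p.2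
  rw [h]
  exact contDiff_const.add (contDiff_fst.smul contDiff_const)

theorem E13_mem (σ t : ℝ) : (cc σ t : Vec (n + 2)) ∈ OO n (3 / 8) (5 / 8) := by
  obtain ⟨h1, h2⟩ := cc_mem (n := n) σ t
  exact ⟨by linarith, by rw [h2]; norm_num⟩

theorem E13_only {A : ℝ} (hA : 0 ≤ A) (X v : Vec (n + 2)) (t : ℝ) (hv : v ≠ 0) (h : v 0 = FF A X v) :
    ∃ (σ : ℝ) (k : Fin (n + 2) → ℤ), X = cc σ t + vz k := by
  obtain ⟨h1, h2⟩ := E13_eq hA X v hv h
  have key : ∀ i : Fin (n + 2), ∃ k : ℤ, X i = (cc (X 0 - 1 / 4) t : Vec (n + 2)) i + k := by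
    intro i
    by_cases h0 : i = 0
    · subst h0
      exact ⟨0, by rw [E13_cc0]; simp⟩
    · by_cases h1' : i = 1
      · subst h1'
        obtain ⟨k, hk⟩ := Real.sin_eq_one_iff.1 h2
        refine ⟨k, ?_⟩
        rw [E13_cc1]
        have hpi := Real.pi_pos
        have h3 : 2 * Real.pi * (X 1 - (1 / 4 + k)) = 0 := by
          rw [mul_sub, ← hk]
          ring
        have h4 : X 1 - (1 / 4 + k) = 0 := by
          rcases mul_eq_zero.1 h3 with h5 | h5
          · linarith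
          · exact h5
        linarith
      · obtain ⟨k, hk⟩ := sz_int h1 h0 h1'
        exact ⟨k, by rw [E13_cci _ _ h0 h1', hk]; simp⟩
  choose k hk using key
  refine ⟨X 0 - 1 / 4, k, ?_⟩
  ext i
  rw [hk i]
  simp [vz]

theorem cal {M : Sub d} {φ : Vec (n + 2) → Vec d} (hc : IsChart M (tor (n + 2)) (OO n (3 / 8) (5 / 8)) (GG n) φ)
    {A : ℝ} (hA : 0 ≤ A) {F : Vec (n + 2) → Vec (n + 2) → ℝ → ℝ}
    (hF : ∀ x ∈ OO n (3 / 8) (5 / 8), ∀ v t, F x v t = FF A x v) :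
    IsCalibratedW (tor (n + 2)) (OO n (3 / 8) (5 / 8)) φ F BB 0 1 cc where
  smooth := by
    have h : (fun p : Vec (n + 2) × ℝ => BB ((tor (n + 2)).r p.1) p.2) =
        fun p => (EuclideanSpace.proj (0 : Fin (n + 2)) : Vec (n + 2) →L[ℝ] ℝ) p.1 := by
      funext p
      simp [BB, tor]
    rw [h]
    exact ((ContinuousLinearMap.contDiff _).comp contDiff_fst).contDiffOn
  periodic := fun _ _ _ => rfl
  periods := fun k => ⟨(k 0 : ℝ), fun x _ _ => by simp [BB, vz]⟩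
  lip := ⟨0, fun x _ v _ t t' => by simp [E13_fderiv]⟩
  le := fun x hx v _ t => by
    rw [E13_fderiv, hF x hx.2]
    exact E13_le hA x v
  len_pos := one_pos
  curve := E13_curve
  mem := fun σ t => ⟨mem_univ _, E13_mem σ t⟩
  closed := fun σ t => by
    rw [E13_cc_eq (σ + 1) t, E13_cc_eq σ t, add_smul, one_smul, add_assoc]
    congr 2
    ext i
    by_cases h0 : i = 0
    · subst h0
      simp [vz]
    · simp [vz, h0]
  curve_per := fun _ _ => rfl
  unit := fun σ t => by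
    rw [E13_deriv, hF _ (E13_mem σ t), E13_unit]
  cal := fun σ t => by
    simp only [BB, E13_cc0]
    ring
  only := fun x hx v _ t hv h => by
    rw [E13_fderiv, hF x hx.2] at h
    exact E13_only hA x v t hv h
  simple := fun σ σ' t l h => by
    obtain ⟨P, hP, k, hk⟩ := (hc.fibre (cc σ' t) ⟨mem_univ _, E13_mem σ' t⟩ (cc σ t)
      ⟨mem_univ _, E13_mem σ t⟩).1 ⟨l, h⟩
    rcases (mem_GG P).1 hP with rfl | rfl
    · refine ⟨k 0, ?_⟩
      have h0 := congrArg (fun y : Vec (n + 2) => y 0) hk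
      simp only [PiLp.add_apply, E13_cc0] at h0
      have h1 : ((1 : Vec (n + 2) ≃ₗᵢ[ℝ] Vec (n + 2)) (cc σ' t)) = cc σ' t := rfl
      rw [h1, E13_cc0] at h0
      have h2 : (vz k : Vec (n + 2)) 0 = (k 0 : ℝ) := rfl
      rw [h2] at h0
      linarith
    · exfalso
      have h0 := congrArg (fun y : Vec (n + 2) => y 1) hk
      simp only [PiLp.add_apply, E13_cc1] at h0
      rw [PP_apply, if_pos (Or.inr rfl), E13_cc1] at h0
      have h2 : (vz k : Vec (n + 2)) 1 = (k 1 : ℝ) := rfl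
      rw [h2] at h0
      have h3 : (2 * k 1 : ℝ) = 1 := by linarith
      have h4 : (2 * k 1 : ℤ) = 1 := by exact_mod_cast h3
      omega

end EscW.Ex
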