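import Pool.Agent.EscW.E7
import Pool.Agent.EscW.E13
import Pool.Agent.EscW.E14

set_option autoImplicit false

/-!
Project EscW, part E, module E15: the room.
`closed`: `KK_closed`; `sub`: numbers; `periodic`: `hh_per`, `sz_per`; `mem`: `cc_mem`.
`exit`: `γ s ∈ KK ⊆ OO`, so on `[0,1]` `F (γ s) (deriv γ s) t = FF A (γ s) (deriv γ s)`;
`excess = ∫ (FF A (γ s) (deriv γ s) - (deriv γ s) 0)` (`ftc_lip` for `x ↦ x 0`, `BB x t = x 0`) `≥ ∫ fderiv bar (γ s) (deriv γ s) = bar (γ 1) - bar (γ 0)` (`bar_le`,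
`ftc_lip`, `int_lip`; `FF A` is continuous by `model`) `≥ 2 - 0` (`bar_exit`, `cc_mem`: `3 - 4 hh ≤ -1`, `4 sz - 1 = -1`, `smoothTransition = 0`).
`second`: `t = 0`, `n = Pi.single 1 1`, `γ s = cc 0 0 + s • e_1` (all `s`), Lipschitz; `hh (γ s) = 1 + sin²`, `sz (γ s) = 0`; `FF A (γ s) e_1 = wt = 5/4`
(`e_1 0 = 0`, `‖e_1‖ = 1`), `BB` does not change: excess `5/4 < 2`. `Pi.single 1 1 ≠ Pi.single 0 k`: coordinate 1.
-/

noncomputable section

namespace EscW.Ex

open Filter Topology Set EscF.T EscM EscMT MeasureTheory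
open scoped ContDiff

variable {d m n : ℕ}

theorem E15_KO {X : Vec (n + 2)} (hX : X ∈ KK n) : X ∈ OO n (3 / 8) (5 / 8) := by
  obtain ⟨h1, h2⟩ := hX
  exact ⟨by linarith, by linarith⟩

/-- the first coordinate -/
theorem E15_fd (X v : Vec (n + 2)) : fderiv ℝ (fun y : Vec (n + 2) => y 0) X v = v 0 := by
  have h : HasFDerivAt (fun y : Vec (n + 2) => y 0)
      (EuclideanSpace.proj (𝕜 := ℝ) (0 : Fin (n + 2))) X :=
    (EuclideanSpace.proj (𝕜 := ℝ) (0 : Fin (n + 2))).hasFDerivAt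
  rw [h.fderiv]
  rfl

theorem E15_cd : ContDiff ℝ 1 (fun y : Vec (n + 2) => y 0) :=
  (EuclideanSpace.proj (𝕜 := ℝ) (0 : Fin (n + 2))).contDiff

theorem E15_bar {σ t : ℝ} : bar (cc σ t : Vec (n + 2)) = 0 := by
  obtain ⟨h1, h2⟩ := cc_mem (n := n) σ t
  unfold bar
  rw [Real.smoothTransition.zero_of_nonpos (by linarith), Real.smoothTransition.zero_of_nonpos
    (by rw [h2]; norm_num)]
  ring

theorem E15_exit {A : ℝ} (hA0 : 0 ≤ A)
    (hA : ∀ X v : Vec (n + 2), fderiv ℝ bar X v ≤ FF A X v - v 0)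
    {F : Vec (n + 2) → Vec (n + 2) → ℝ → ℝ}
    (hF : ∀ x ∈ OO n (3 / 8) (5 / 8), ∀ v t, F x v t = FF A x v) (t σ : ℝ) (γ : ℝ → Vec (n + 2))
    (hγ : ∃ C, LipschitzWith C γ) (h0 : γ 0 = cc σ t) (hK : ∀ s ∈ Icc (0:ℝ) 1, γ s ∈ KK n)
    (h1 : γ 1 ∈ closure (univ \ KK n)) : 2 ≤ excess F BB t γ := by
  have i1 := int_lip (m := n + 2) (model hA0).contF hγ
  obtain ⟨i2, e2⟩ := ftc_lip (E15_cd (n := n)) hγ
  obtain ⟨i3, e3⟩ := ftc_lip (bar_smooth (n := n)) hγ
  simp only [E15_fd] at i2 e2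
  have e1 : ∫ s in (0:ℝ)..1, F (γ s) (deriv γ s) t = ∫ s in (0:ℝ)..1, FF A (γ s) (deriv γ s) := by
    refine intervalIntegral.integral_congr fun s hs => ?_
    rw [uIcc_of_le zero_le_one] at hs
    exact hF _ (E15_KO (hK s hs)) _ _
  have e4 : ∫ s in (0:ℝ)..1, (FF A (γ s) (deriv γ s) - (deriv γ s) 0) =
      (∫ s in (0:ℝ)..1, FF A (γ s) (deriv γ s)) - (γ 1 0 - γ 0 0) := by
    rw [← e2]
    exact intervalIntegral.integral_sub i1 i2
  have e5 : ∫ s in (0:ℝ)..1, fderiv ℝ bar (γ s) (deriv γ s) ≤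
      ∫ s in (0:ℝ)..1, (FF A (γ s) (deriv γ s) - (deriv γ s) 0) :=
    intervalIntegral.integral_mono_on zero_le_one i3 (i1.sub i2) fun s _ => hA _ _
  rw [e3, e4, h0, E15_bar] at e5
  have e6 := bar_exit (n := n) _ h1
  unfold excess BB
  rw [e1, h0]
  linarith

/-- the second coordinate vector -/
def E15_e (n : ℕ) : Vec (n + 2) := EuclideanSpace.single 1 1

theorem E15_e_apply (i : Fin (n + 2)) : E15_e n i = if i = 1 then 1 else 0 := by
  unfold E15_e
  rw [EuclideanSpace.single_apply]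

theorem E15_norm : ‖E15_e n‖ = 1 := by
  unfold E15_e
  rw [EuclideanSpace.norm_single, norm_one]

theorem E15_vz : (vz (Pi.single 1 1) : Vec (n + 2)) = E15_e n := by
  ext i
  rw [E15_e_apply]
  unfold vz
  show ((Pi.single 1 1 : Fin (n + 2) → ℤ) i : ℝ) = _
  rw [Pi.single_apply]
  split_ifs <;> simp

/-- the second curve -/
def E15_c (n : ℕ) (s : ℝ) : Vec (n + 2) := cc 0 0 + s • E15_e n

theorem E15_c_apply (s : ℝ) (i : Fin (n + 2)) :
    E15_c n s i = if i = 0 then 1 / 4 else if i = 1 then 1 / 4 + s else 0 := by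
  show (cc 0 0 : Vec (n + 2)) i + s * E15_e n i = _
  rw [E15_e_apply]
  unfold cc
  show (if i = 0 then (0 : ℝ) + 1 / 4 else if i = 1 then 1 / 4 else 0) + s * _ = _
  by_cases h0 : i = 0
  · subst h0
    have h01 : (0 : Fin (n + 2)) ≠ 1 := by
      intro h
      have := congrArg Fin.val h
      simp at this
    simp [h01]
  · by_cases h1 : i = 1
    · subst h1
      simp
    · simp [h0, h1]

theorem E15_hh (s : ℝ) : 1 ≤ hh (E15_c n s) := by
  unfold hh
  rw [E15_c_apply, if_pos rfl]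
  have h : 2 * Real.pi * (1 / 4) = Real.pi / 2 := by ring
  rw [h, Real.sin_pi_div_two]
  nlinarith [sq_nonneg (Real.sin (2 * Real.pi * (E15_c n s) 1))]

theorem E15_sz (s : ℝ) : sz (E15_c n s) = 0 := by
  unfold sz
  refine Finset.sum_eq_zero fun i _ => ?_
  split_ifs with h
  · rfl
  · push Not at h
    rw [E15_c_apply, if_neg h.1, if_neg h.2, mul_zero, Real.cos_zero, sub_self]

theorem E15_KK (s : ℝ) : E15_c n s ∈ KK n := by
  refine ⟨?_, ?_⟩
  · linarith [E15_hh (n := n) s]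
  · rw [E15_sz]
    norm_num

theorem E15_deriv (s : ℝ) : deriv (E15_c n) s = E15_e n := by
  have h : HasDerivAt (fun s : ℝ => cc 0 0 + s • E15_e n) ((1 : ℝ) • E15_e n) s :=
    ((hasDerivAt_id s).smul_const (E15_e n)).const_add (cc 0 0)
  rw [one_smul] at h
  exact h.deriv

theorem E15_FF (A s : ℝ) : FF A (E15_c n s) (E15_e n) = 5 / 4 := by
  have h01 : (0 : Fin (n + 2)) ≠ 1 := by
    intro h
    have := congrArg Fin.val h
    simp at this
  unfold FF wt
  rw [E15_norm, E15_e_apply, if_neg h01, E15_sz, Real.smoothTransition.zero_of_nonpos (by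
    linarith [E15_hh (n := n) s]), Real.smoothTransition.zero_of_nonpos (by norm_num)]
  ring

theorem E15_lip : LipschitzWith 1 (E15_c n) := by
  refine LipschitzWith.of_dist_le_mul fun s t => ?_
  unfold E15_c
  rw [dist_add_left, dist_eq_norm, ← sub_smul, norm_smul, E15_norm, mul_one, NNReal.coe_one, one_mul,
    Real.dist_eq, Real.norm_eq_abs]

theorem room (n : ℕ) : ∃ A0 : ℝ, 0 ≤ A0 ∧ ∀ A : ℝ, A0 ≤ A → ∀ F : Vec (n + 2) → Vec (n + 2) → ℝ → ℝ,
    (∀ x ∈ OO n (3 / 8) (5 / 8), ∀ v t, F x v t = FF A x v) →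
      IsRoom (tor (n + 2)) (OO n (3 / 8) (5 / 8)) (KK n) F BB 0 cc 2 := by
  obtain ⟨A0, h0, hA⟩ := bar_le n
  refine ⟨A0, h0, fun A hA0 F hF => ?_⟩
  have h01 : (0 : Fin (n + 2)) ≠ 1 := by
    intro h
    have := congrArg Fin.val h
    simp at this
  refine ⟨KK_closed, fun X hX => ⟨mem_univ _, E15_KO hX⟩, fun k X hX => ?_, fun σ t => ?_, ?_, ?_⟩
  · obtain ⟨h1, h2⟩ := hX
    refine ⟨?_, ?_⟩
    · rw [hh_per]
      exact h1
    · rw [sz_per]
      exact h2
  · obtain ⟨h1, h2⟩ := cc_mem (n := n) σ t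
    refine ⟨by linarith, ?_⟩
    rw [h2]
    norm_num
  · intro t σ γ hγ h1 hK h2
    exact E15_exit (h0.trans hA0) (hA A hA0) hF t σ γ hγ h1 hK h2
  · refine ⟨0, Pi.single 1 1, E15_c n, fun k hk => ?_, ⟨1, E15_lip⟩, ?_, ?_, fun s _ => E15_KK s, ?_⟩
    · have h1 := congrFun hk 1
      rw [Pi.single_eq_same, Pi.single_eq_of_ne h01.symm] at h1
      exact one_ne_zero h1
    · unfold E15_c
      rw [zero_smul, add_zero]
    · unfold E15_c
      rw [E15_vz, one_smul]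
    · have e1 : ∫ s in (0:ℝ)..1, F (E15_c n s) (deriv (E15_c n) s) 0 = 5 / 4 := by
        have : ∀ s : ℝ, F (E15_c n s) (deriv (E15_c n) s) 0 = 5 / 4 := fun s => by
          rw [hF _ (E15_KO (E15_KK s)), E15_deriv, E15_FF]
        simp only [this]
        rw [intervalIntegral.integral_const]
        norm_num
      unfold excess BB
      rw [e1, E15_c_apply, E15_c_apply, if_pos rfl, if_pos rfl]
      norm_num

end EscW.Ex
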