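import Pool.Agent.EscW.E8

set_option autoImplicit false

/-!
Project EscW, part E, module E9: periodicity of the glued functions, values on the chart and outside.
`push_per`: if `w = φ x + vz l0` with `x ∈ O`: `u = fderiv φ x v` for some `v` (`exists_loc` at `x`, `l0`: `φ (ψ w) + vz l0 = w`, `u = fderiv φ (ψ w) _`, use
`ψ w` instead of `x`), and `w + vz l = φ x + vz (l0 + l)`: `push_eq` for both. Otherwise also `w + vz l` is not of this form: both sides are zero.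
`Fg_on`: `pull` is `Fg` at `(φ x, fderiv φ x v)`; `push_eq` with `l = 0`; `Ψ x = 1`, `√(F0²) = F0`, `0 ≤ F0` (`posF`, and `homF` with `c = 0` at `v = 0`).
`Lg_off`: `push = 0`.
-/

noncomputable section

namespace EscW.Ex

open Filter Topology Set EscF.T EscM EscMT MeasureTheory
open scoped ContDiff

variable {d m n : ℕ}

theorem E9_vz_zero : (vz (0 : Fin d → ℤ) : Vec d) = 0 := by
  ext i
  simp [vz]

theorem E9_vz_add (k l : Fin d → ℤ) : (vz (k + l) : Vec d) = vz k + vz l := by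
  ext i
  simp [vz]

theorem E9_push_neg {φ : Vec m → Vec d} {O : Set (Vec m)} (g : Vec m → Vec m → ℝ) {w : Vec d}
    (hw : ¬ ∃ x ∈ O, ∃ l : Fin d → ℤ, w = φ x + vz l) (u : Vec d) : push φ O g w u = 0 := by
  unfold push
  rw [if_neg hw]

theorem push_per {M : Sub d} {O : Set (Vec m)} {G : Subgroup (Vec m ≃ₗᵢ[ℝ] Vec m)} {φ : Vec m → Vec d}
    (hc : IsChart M (tor m) O G φ) (hp : ∀ (k : Fin m → ℤ), ∀ x ∈ O, φ (x + vz k) = φ x)
    (hP : ∀ P ∈ G, ∀ x ∈ O, φ (P x) = φ x) {g : Vec m → Vec m → ℝ}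
    (hg : ∀ (k : Fin m → ℤ) (x v : Vec m), g (x + vz k) v = g x v)
    (hg' : ∀ P ∈ G, ∀ x v, g (P x) (P v) = g x v) (l : Fin d → ℤ) {w : Vec d} (hw : w ∈ M.N) {u : Vec d}
    (hu : IsTangent M w u) : push φ O g (w + vz l) u = push φ O g w u := by
  by_cases h : ∃ x ∈ O, ∃ l0 : Fin d → ℤ, w = φ x + vz l0
  · obtain ⟨x, hx, l0, hw0⟩ := h
    obtain ⟨W, ψ, -, hmem, -, hW⟩ := exists_loc hc hx l0
    rw [← hw0] at hmem
    obtain ⟨hy, h1, h2⟩ := hW w ⟨hw, hmem⟩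
    have h3 := h2 u hu
    have e1 := push_eq hc hp hP hg hg' hy (fderiv ℝ ψ w u) l0
    have e2 := push_eq hc hp hP hg hg' hy (fderiv ℝ ψ w u) (l0 + l)
    rw [h3, h1] at e1
    rw [h3, E9_vz_add, ← add_assoc, h1] at e2
    rw [e1, e2]
  · have h' : ¬ ∃ x ∈ O, ∃ l0 : Fin d → ℤ, w + vz l = φ x + vz l0 := by
      rintro ⟨x, hx, l0, h0⟩
      refine h ⟨x, hx, l0 - l, ?_⟩
      have e1 : (vz l0 : Vec d) = vz (l0 - l) + vz l := by
        rw [← E9_vz_add, sub_add_cancel]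
      rw [e1, ← add_assoc] at h0
      exact add_right_cancel h0
    rw [E9_push_neg g h, E9_push_neg g h']

theorem Fg_per {M : Sub d} {O : Set (Vec m)} {G : Subgroup (Vec m ≃ₗᵢ[ℝ] Vec m)} {φ : Vec m → Vec d}
    (hc : IsChart M (tor m) O G φ) (hp : ∀ (k : Fin m → ℤ), ∀ x ∈ O, φ (x + vz k) = φ x)
    (hP : ∀ P ∈ G, ∀ x ∈ O, φ (P x) = φ x) {Ψ : Vec m → ℝ} (hΨ : IsCut O G Ψ)
    {F0 L0 : Vec m → Vec m → ℝ} (hm : Model G F0 L0) {F : Vec d → Vec d → ℝ → ℝ}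
    (hF : IsFinslerT M F) (k : Fin d → ℤ) {x : Vec d} (hx : x ∈ M.N) {v : Vec d} (hv : IsTangent M x v)
    (t : ℝ) : Fg φ O Ψ F0 F (x + vz k) v t = Fg φ O Ψ F0 F x v t := by
  unfold Fg
  have h1 := push_per hc hp hP (g := fun x v => Ψ x * F0 x v ^ 2)
    (fun k x v => by rw [hΨ.per, hm.perF])
    (fun P hPG x v => by rw [hΨ.inv P hPG, hm.invF P hPG]) k hx hv
  have h2 := push_per hc hp hP (g := fun x _ => Ψ x)
    (fun k x v => hΨ.per k x)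
    (fun P hPG x v => hΨ.inv P hPG x) k hx hv
  rw [h1, h2, (hF.fins t).periodic k x hx v hv]

theorem Lg_per {M : Sub d} {O : Set (Vec m)} {G : Subgroup (Vec m ≃ₗᵢ[ℝ] Vec m)} {φ : Vec m → Vec d}
    (hc : IsChart M (tor m) O G φ) (hp : ∀ (k : Fin m → ℤ), ∀ x ∈ O, φ (x + vz k) = φ x)
    (hP : ∀ P ∈ G, ∀ x ∈ O, φ (P x) = φ x) {Ψ : Vec m → ℝ} (hΨ : IsCut O G Ψ)
    {F0 L0 : Vec m → Vec m → ℝ} (hm : Model G F0 L0) {κ : ℝ → ℝ} {F : Vec d → Vec d → ℝ → ℝ} {L : Lag d}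
    (hL : IsNearT M κ F L) (k : Fin d → ℤ) (l : ℤ) {x : Vec d} (hx : x ∈ M.N) (v : Vec d) (t : ℝ)
    (hv : IsTangent M x v) : Lg φ O Ψ L0 L (x + vz k, v, t + l) = Lg φ O Ψ L0 L (x, v, t) := by
  unfold Lg
  have h1 := push_per hc hp hP (g := fun x v => Ψ x * L0 x v)
    (fun k x v => by rw [hΨ.per, hm.perL])
    (fun P hPG x v => by rw [hΨ.inv P hPG, hm.invL P hPG]) k hx hv
  have h2 := push_per hc hp hP (g := fun x _ => Ψ x)
    (fun k x v => hΨ.per k x)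
    (fun P hPG x v => hΨ.inv P hPG x) k hx hv
  dsimp only
  rw [h1, h2, hL.periodic k l x hx v t hv]

theorem Fg_on {M : Sub d} {O : Set (Vec m)} {G : Subgroup (Vec m ≃ₗᵢ[ℝ] Vec m)} {φ : Vec m → Vec d}
    (hc : IsChart M (tor m) O G φ) (hp : ∀ (k : Fin m → ℤ), ∀ x ∈ O, φ (x + vz k) = φ x)
    (hP : ∀ P ∈ G, ∀ x ∈ O, φ (P x) = φ x) {Ψ : Vec m → ℝ} (hΨ : IsCut O G Ψ)
    {F0 L0 : Vec m → Vec m → ℝ} (hm : Model G F0 L0) (F : Vec d → Vec d → ℝ → ℝ) {x : Vec m} (hx : x ∈ O)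
    (h1 : Ψ x = 1) (v : Vec m) (t : ℝ) : pull φ (Fg φ O Ψ F0 F) x v t = F0 x v := by
  unfold pull Fg
  have e1 := push_eq hc hp hP (g := fun x v => Ψ x * F0 x v ^ 2)
    (fun k x v => by rw [hΨ.per, hm.perF])
    (fun P hPG x v => by rw [hΨ.inv P hPG, hm.invF P hPG]) hx v 0
  have e2 := push_eq hc hp hP (g := fun x _ => Ψ x)
    (fun k x v => hΨ.per k x)
    (fun P hPG x v => hΨ.inv P hPG x) hx v 0
  rw [E9_vz_zero, add_zero] at e1 e2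
  rw [e1, e2, h1, one_mul, sub_self, zero_mul, add_zero]
  refine Real.sqrt_sq ?_
  by_cases hv : v = 0
  · have h0 := hm.homF x 0 0 le_rfl
    rw [zero_smul, zero_mul] at h0
    rw [hv, h0]
  · exact (hm.posF x v hv).le

theorem Lg_off {φ : Vec m → Vec d} {O : Set (Vec m)} (Ψ : Vec m → ℝ) (L0 : Vec m → Vec m → ℝ) (L : Lag d)
    {w : Vec d} (hw : ∀ x ∈ O, ∀ l : Fin d → ℤ, w ≠ φ x + vz l) (u : Vec d) (t : ℝ) :
    Lg φ O Ψ L0 L (w, u, t) = L (w, u, t) := by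
  have h : ¬ ∃ x ∈ O, ∃ l : Fin d → ℤ, w = φ x + vz l := by
    rintro ⟨x, hx, l, h0⟩
    exact hw x hx l h0
  unfold Lg
  dsimp only
  rw [E9_push_neg _ h, E9_push_neg _ h]
  ring

end EscW.Ex
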