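import Pool.Agent.EscW.E6
import Pool.Agent.EscW.E9
import Pool.Agent.EscW.E10
import Pool.Agent.EscW.E11
import Pool.Agent.EscW.E12
import Pool.Agent.EscW.E15
import Pool.Agent.EscM.N0
import Pool.Agent.EscMT.P11

set_option autoImplicit false

/-!
Project EscW, part E, module E16: existence: final theorem.
`exists_inClass_one`: `n + 2 = finrank`. `exists_mchart` with `m = n + 2`, `W0`; `exists_chart`: `φ X = g (e1 • ph X)`; `O = OO n (1/4) (3/4)`, `Ψ = Psi` (`isCut_Psi`), `A = A0` of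
`room`, `F0 = FF A`, `L0 = LL A` (`model`); `exists_rep`; `F' = Fg ..`, `L' = Lg ..`. `InClass`: `κ = 1` (`IsWeight`: trivial), `IsFinslerT`: `finsler_of_rep`, `Fg_per`;
`IsNearT`: `smooth_of_rep`, `Lg_per`, `conv_of_rep`, `near_of_rep`; chart `OO n (3/8) (5/8)`; `cal`, `room` with `F = pull φ F'`, `Fg_on`, `Psi_one`.
Outside: if `x = φ X + vz l` with `X ∈ O` then `x + vz (-l) = φ X ∈ W ⊆ W0`; so `Lg_off`.
`near_one`: `F1 = √κ F`: `κ t F² = F1²`; `IsFinslerT`: `√κ` is periodic, Lipschitz (`κ` is bounded below by a positive constant: continuous, periodic) and bounded, `F ≤ C ‖v‖` (`EscMT`/`EscM` have this bound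
for Finsler metrics on `M`; compactness of the unit tangent bundle modulo `ℤᵈ`).
`exists_inClass`: `near_one`, then `exists_inClass_one`; `u`, `v` lie in the range of `fderiv M.r y0`, so its dimension is at least two.
`std_near`: `F = ‖v‖`, `L = ‖v‖²/2`. `exists_mem`: `std_near` `W0 = univ`.
-/

noncomputable section

namespace EscW.Ex

open Filter Topology Set EscF.T EscM EscMT MeasureTheory
open scoped ContDiff

variable {d m n : ℕ}

theorem E16_vz_neg (l : Fin d → ℤ) : vz l + vz (-l) = (0 : Vec d) := by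
  ext i
  simp [vz]

theorem E16_weight_one : IsWeight (fun _ => (1 : ℝ)) :=
  ⟨fun _ => one_pos, fun _ => rfl, 0, fun t t' => by simp⟩

/-- the second derivative of the energy of a linear map -/
theorem E16_second {E : Type*} [NormedAddCommGroup E] [InnerProductSpace ℝ E] (A : E →L[ℝ] E)
    (v w : E) : iteratedFDeriv ℝ 2 (fun u => ‖A u‖ ^ 2 / 2) v ![w, w] = ‖A w‖ ^ 2 := by
  have h1 : ∀ u, HasFDerivAt (fun u => ‖A u‖ ^ 2 / 2) ((innerSL ℝ (A u)).comp A) u := by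
    intro u
    have h2 := (A.hasFDerivAt (x := u)).norm_sq
    have h3 : HasFDerivAt (fun u => (1 / 2 : ℝ) * ‖A u‖ ^ 2)
      ((1 / 2 : ℝ) • (2 • (innerSL ℝ (A u)).comp A)) u := h2.const_mul (1 / 2 : ℝ)
    have e1 : (fun u => ‖A u‖ ^ 2 / 2) = fun u => (1 / 2 : ℝ) * ‖A u‖ ^ 2 := by
      funext u
      ring
    have e2 : (1 / 2 : ℝ) • (2 • (innerSL ℝ (A u)).comp A) = (innerSL ℝ (A u)).comp A := by
      ext y
      simp
    rw [e1]
    rwa [e2] at h3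
  have h2 : fderiv ℝ (fun u => ‖A u‖ ^ 2 / 2) = fun u => (innerSL ℝ (A u)).comp A :=
    funext fun u => (h1 u).fderiv
  rw [iteratedFDeriv_two_apply, h2]
  have h3 : HasFDerivAt (fun u => (innerSL ℝ (A u)).comp A)
      (((ContinuousLinearMap.compL ℝ E E ℝ).flip A).comp ((innerSL ℝ).comp A)) v :=
    (((ContinuousLinearMap.compL ℝ E E ℝ).flip A).comp ((innerSL ℝ).comp A)).hasFDerivAt
  rw [h3.fderiv]
  simp

theorem exists_inClass_one {M : Sub d} {y0 : Vec d} (hy : y0 ∈ M.N)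
    (hdim : 2 ≤ Module.finrank ℝ (LinearMap.range (fderiv ℝ M.r y0 : Vec d →ₗ[ℝ] Vec d)))
    {F : Vec d → Vec d → ℝ → ℝ} {L : Lag d} (hF : IsFinslerT M F) (hL : IsNearT M (fun _ => 1) F L)
    {W0 : Set (Vec d)} (hW : IsOpen W0) (hy0 : y0 ∈ W0) :
    ∃ L' : Lag d, InClass M L' ∧ ∀ x ∈ M.N, (∀ l : Fin d → ℤ, x + vz l ∉ W0) → ∀ v t,
      L' (x, v, t) = L (x, v, t) := by
  obtain ⟨n, hn⟩ := Nat.exists_eq_add_of_le hdim
  rw [add_comm] at hn
  obtain ⟨W, ρ, g, g', hWW, hg⟩ := exists_mchart hy hn hW hy0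
  obtain ⟨e1, he1, hmaps, hper, hPinv, hchart⟩ := exists_chart hg
  obtain ⟨φ, hφ⟩ : ∃ φ : Vec (n + 2) → Vec d, φ = fun X => g (e1 • ph X) := ⟨_, rfl⟩
  rw [← hφ] at hchart
  have hc : IsChart M (tor (n + 2)) (OO n (1 / 4) (3 / 4)) (GG n) φ :=
    hchart _ _ (by norm_num) (by norm_num)
  have hc' : IsChart M (tor (n + 2)) (OO n (3 / 8) (5 / 8)) (GG n) φ :=
    hchart _ _ (by norm_num) (by norm_num)
  have hp : ∀ (k : Fin (n + 2) → ℤ), ∀ x ∈ OO n (1 / 4) (3 / 4), φ (x + vz k) = φ x := by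
    intro k x _
    rw [hφ]
    exact hper k x
  have hP : ∀ P ∈ GG n, ∀ x ∈ OO n (1 / 4) (3 / 4), φ (P x) = φ x := by
    intro P hP x _
    rw [hφ]
    exact hPinv P hP x
  obtain ⟨A, hA, hroom⟩ := room n
  have hm := model (n := n) hA
  have hcut : IsCut (OO n (1 / 4) (3 / 4)) (GG n) Psi := isCut_Psi
  obtain ⟨C, hC, hrep⟩ := exists_rep hc hp hP hcut hm F L
  have hperF : ∀ (k : Fin d → ℤ), ∀ x ∈ M.N, ∀ v, IsTangent M x v → ∀ t,
      Fg φ (OO n (1 / 4) (3 / 4)) Psi (FF A) F (x + vz k) v t =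
        Fg φ (OO n (1 / 4) (3 / 4)) Psi (FF A) F x v t :=
    fun k x hx v hv t => Fg_per hc hp hP hcut hm hF k hx hv t
  have hperL : ∀ (k : Fin d → ℤ) (l : ℤ), ∀ x ∈ M.N, ∀ v t, IsTangent M x v →
      Lg φ (OO n (1 / 4) (3 / 4)) Psi (LL A) L (x + vz k, v, t + l) =
        Lg φ (OO n (1 / 4) (3 / 4)) Psi (LL A) L (x, v, t) :=
    fun k l x hx v t hv => Lg_per hc hp hP hcut hm hL k l hx v t hv
  have hF' := finsler_of_rep hm hF hrep hperF
  have hL' : IsNearT M (fun _ => 1) (Fg φ (OO n (1 / 4) (3 / 4)) Psi (FF A) F)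
      (Lg φ (OO n (1 / 4) (3 / 4)) Psi (LL A) L) :=
    ⟨smooth_of_rep hm hL hrep, hperL, conv_of_rep hC hm hL hrep,
      near_of_rep hm hF hL hrep hperF hperL⟩
  have hsub : ∀ x ∈ OO n (3 / 8) (5 / 8), x ∈ OO n (1 / 4) (3 / 4) := by
    rintro x ⟨h1, h2⟩
    exact ⟨lt_trans (by norm_num) h1, lt_trans h2 (by norm_num)⟩
  have hon : ∀ x ∈ OO n (3 / 8) (5 / 8), ∀ v t,
      pull φ (Fg φ (OO n (1 / 4) (3 / 4)) Psi (FF A) F) x v t = FF A x v :=
    fun x hx v t => Fg_on hc hp hP hcut hm F (hsub x hx) (Psi_one x hx) v t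
  refine ⟨Lg φ (OO n (1 / 4) (3 / 4)) Psi (LL A) L, ?_, ?_⟩
  · exact ⟨fun _ => 1, Fg φ (OO n (1 / 4) (3 / 4)) Psi (FF A) F, n + 2, tor (n + 2),
      OO n (3 / 8) (5 / 8), KK n, GG n, φ, BB, 0, 1, 2, cc, E16_weight_one, hF', hL', hc',
      cal hc' hA hon, hroom A le_rfl _ hon⟩
  · intro x hx hl v t
    apply Lg_off
    intro X hX l hxe
    apply hl (-l)
    have h1 : x + vz (-l) = φ X := by
      rw [hxe, add_assoc, E16_vz_neg, add_zero]
    rw [h1]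
    apply hWW
    have h2 := (hmaps X (by have := hX.1; linarith)).2
    rw [hφ]
    exact h2

theorem near_one {M : Sub d} {κ : ℝ → ℝ} {F : Vec d → Vec d → ℝ → ℝ} {L : Lag d} (hκ : IsWeight κ)
    (hF : IsFinslerT M F) (hL : IsNearT M κ F L) :
    IsFinslerT M (fun x v t => √(κ t) * F x v t) ∧ IsNearT M (fun _ => 1) (fun x v t => √(κ t) * F x v t) L := by
  obtain ⟨a, b, ha, hb, hab⟩ := P11_weight hκ
  obtain ⟨A1, hA1⟩ := hκ.lip
  obtain ⟨A2, hA2⟩ := hF.lip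
  have hsq : ∀ t, 0 < √(κ t) := fun t => Real.sqrt_pos.2 (hκ.pos t)
  have hsb : ∀ t, √(κ t) ≤ √b := fun t => Real.sqrt_le_sqrt (hab t).2
  have hsa : ∀ t, √a ≤ √(κ t) := fun t => Real.sqrt_le_sqrt (hab t).1
  have hsapos : 0 < √a := Real.sqrt_pos.2 ha
  have hslip : ∀ t t', |√(κ t) - √(κ t')| ≤ |A1| / √a * |t - t'| := by
    intro t t'
    have h1 : (√(κ t) - √(κ t')) * (√(κ t) + √(κ t')) = κ t - κ t' := by
      have h2 := Real.mul_self_sqrt (hκ.pos t).le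
      have h3 := Real.mul_self_sqrt (hκ.pos t').le
      linear_combination h2 - h3
    have h2 : |√(κ t) - √(κ t')| * √a ≤ |κ t - κ t'| := by
      rw [← h1, abs_mul]
      refine mul_le_mul_of_nonneg_left ?_ (abs_nonneg _)
      rw [abs_of_pos (add_pos (hsq t) (hsq t'))]
      have := hsa t
      have := hsq t'
      linarith
    have h3 : |κ t - κ t'| ≤ |A1| * |t - t'| :=
      (hA1 t t').trans (mul_le_mul_of_nonneg_right (le_abs_self A1) (abs_nonneg _))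
    rw [div_mul_eq_mul_div, le_div_iff₀ hsapos]
    exact h2.trans h3
  obtain ⟨MF, hMF0, hMF⟩ : ∃ MF : ℝ, 0 ≤ MF ∧ ∀ x ∈ M.N, ∀ v, IsTangent M x v → ∀ t,
      |F x v t| ≤ MF * ‖v‖ := by
    by_cases hne : M.N.Nonempty
    · obtain ⟨ρ, χ, R, hT⟩ := exists_tube M hne
      obtain ⟨mF, MF, hm, hM⟩ := P11_unif hT hF
      refine ⟨max MF 0, le_max_right _ _, fun x hx v hv t => ?_⟩
      have h1 := hM t x v ⟨hx, hv⟩
      have h2 : 0 ≤ F x v t := le_trans (mul_nonneg hm.le (norm_nonneg v)) h1.1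
      rw [abs_of_nonneg h2]
      exact h1.2.trans (mul_le_mul_of_nonneg_right (le_max_left _ _) (norm_nonneg v))
    · exact ⟨0, le_rfl, fun x hx => absurd ⟨x, hx⟩ hne⟩
  refine ⟨⟨fun t => ⟨?_, ?_, ?_, ?_⟩, ?_, ?_⟩, ⟨hL.smooth, hL.periodic, hL.convex, ?_⟩⟩
  · exact continuousOn_const.mul (hF.fins t).cont
  · intro k x hx v hv
    show √(κ t) * F (x + vz k) v t = √(κ t) * F x v t
    rw [(hF.fins t).periodic k x hx v hv]
  · intro x hx v hv c hc
    show √(κ t) * F x (c • v) t = c * (√(κ t) * F x v t)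
    rw [(hF.fins t).hom x hx v hv c hc]
    ring
  · intro x hx v hv h0
    exact mul_pos (hsq t) ((hF.fins t).pos x hx v hv h0)
  · intro x hx v hv t
    show √(κ (t + 1)) * F x v (t + 1) = √(κ t) * F x v t
    rw [hκ.periodic, hF.periodic x hx v hv]
  · refine ⟨|A1| / √a * MF + √b * |A2|, fun x hx v hv t t' => ?_⟩
    show |√(κ t) * F x v t - √(κ t') * F x v t'| ≤ _
    have e : √(κ t) * F x v t - √(κ t') * F x v t' =
        (√(κ t) - √(κ t')) * F x v t + √(κ t') * (F x v t - F x v t') := by ring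
    rw [e]
    refine (abs_add_le _ _).trans ?_
    rw [abs_mul, abs_mul, abs_of_pos (hsq t')]
    have h1 := mul_le_mul (hslip t t') (hMF x hx v hv t) (abs_nonneg _) (by positivity)
    have h2 : √(κ t') * |F x v t - F x v t'| ≤ √b * (|A2| * ‖v‖ * |t - t'|) := by
      refine mul_le_mul (hsb t') ?_ (abs_nonneg _) (Real.sqrt_nonneg _)
      refine (hA2 x hx v hv t t').trans ?_
      refine mul_le_mul_of_nonneg_right ?_ (abs_nonneg _)
      exact mul_le_mul_of_nonneg_right (le_abs_self A2) (norm_nonneg v)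
    calc |√(κ t) - √(κ t')| * |F x v t| + √(κ t') * |F x v t - F x v t'|
        ≤ |A1| / √a * |t - t'| * (MF * ‖v‖) + √b * (|A2| * ‖v‖ * |t - t'|) := add_le_add h1 h2
      _ = (|A1| / √a * MF + √b * |A2|) * ‖v‖ * |t - t'| := by ring
  · obtain ⟨C, hC⟩ := hL.near
    refine ⟨C, fun x hx v t hv x' hx' v' t' hv' => ?_⟩
    have h1 : ∀ t y w, (1 : ℝ) * (√(κ t) * F y w t) ^ 2 / 2 = κ t * F y w t ^ 2 / 2 := by
      intro t y w
      rw [mul_pow, Real.sq_sqrt (hκ.pos t).le, one_mul]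
    show |(L (x, v, t) - (1 : ℝ) * (√(κ t) * F x v t) ^ 2 / 2) -
      (L (x', v', t') - (1 : ℝ) * (√(κ t') * F x' v' t') ^ 2 / 2)| ≤ _
    rw [h1, h1]
    exact hC x hx v t hv x' hx' v' t' hv'

theorem exists_inClass {M : Sub d} {y0 u v : Vec d} (hy : y0 ∈ M.N) (hu : IsTangent M y0 u)
    (hv : IsTangent M y0 v) (huv : LinearIndependent ℝ ![u, v]) {κ : ℝ → ℝ}
    {F : Vec d → Vec d → ℝ → ℝ} {L : Lag d} (hκ : IsWeight κ) (hF : IsFinslerT M F) (hL : IsNearT M κ F L)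
    {W0 : Set (Vec d)} (hW : IsOpen W0) (hy0 : y0 ∈ W0) :
    ∃ L' : Lag d, InClass M L' ∧ ∀ x ∈ M.N, (∀ l : Fin d → ℤ, x + vz l ∉ W0) → ∀ v t,
      L' (x, v, t) = L (x, v, t) := by
  obtain ⟨hF1, hL1⟩ := near_one hκ hF hL
  refine exists_inClass_one hy ?_ hF1 hL1 hW hy0
  have h1 : ∀ i, (![u, v] : Fin 2 → Vec d) i ∈
      LinearMap.range (fderiv ℝ M.r y0 : Vec d →ₗ[ℝ] Vec d) := by
    intro i
    fin_cases i
    · exact ⟨u, hu⟩
    · exact ⟨v, hv⟩
  have h2 : LinearIndependent ℝ (fun i => (⟨(![u, v] : Fin 2 → Vec d) i, h1 i⟩ :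
      LinearMap.range (fderiv ℝ M.r y0 : Vec d →ₗ[ℝ] Vec d))) := by
    apply LinearIndependent.of_comp (LinearMap.range
      (fderiv ℝ M.r y0 : Vec d →ₗ[ℝ] Vec d)).subtype
    exact huv
  have h3 := h2.fintype_card_le_finrank
  rwa [Fintype.card_fin] at h3

theorem std_near (M : Sub d) : IsFinslerT M (fun _ v _ => ‖v‖) ∧
    IsNearT M (fun _ => 1) (fun _ v _ => ‖v‖) (fun q => ‖q.2.1‖ ^ 2 / 2) := by
  refine ⟨⟨fun t => ⟨?_, ?_, ?_, ?_⟩, ?_, ?_⟩, ⟨?_, ?_, ?_, ?_⟩⟩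
  · exact (continuous_norm.comp continuous_snd).continuousOn
  · intro k x _ v _
    rfl
  · intro x _ v _ c hc
    show ‖c • v‖ = c * ‖v‖
    rw [norm_smul, Real.norm_of_nonneg hc]
  · intro x _ v _ h0
    exact norm_pos_iff.2 h0
  · intro x _ v _ t
    rfl
  · refine ⟨0, fun x _ v _ t t' => ?_⟩
    simp
  · have h1 : ContDiffOn ℝ 2 (fun q : Vec d × Vec d × ℝ => fderiv ℝ M.r q.1 q.2.1)
        {q | q.1 ∈ M.U} := by
      have h2 : ContDiffOn ℝ 2 (fderiv ℝ M.r) M.U :=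
        (M.smooth.fderiv_of_isOpen M.isOpen (m := ∞) (by simp)).of_le
          (show ((2 : ℕ∞) : WithTop ℕ∞) ≤ ((⊤ : ℕ∞) : WithTop ℕ∞) from WithTop.coe_le_coe.2 le_top)
      exact (h2.comp contDiffOn_fst (fun q hq => hq)).clm_apply
        (contDiff_fst.comp contDiff_snd).contDiffOn
    exact (h1.norm_sq ℝ).div_const 2
  · intro k l x _ v t _
    rfl
  · refine ⟨1, one_pos, fun x _ v w t _ hw => ?_⟩
    have h1 := E16_second (fderiv ℝ M.r x) v w
    have h2 : fderiv ℝ M.r x w = w := hw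
    rw [h2] at h1
    rw [one_mul, ← h1]
  · refine ⟨0, fun x _ v t _ x' _ v' t' _ => ?_⟩
    simp

theorem exists_mem {M : Sub d} {y0 u v : Vec d} (hy : y0 ∈ M.N) (hu : IsTangent M y0 u)
    (hv : IsTangent M y0 v) (huv : LinearIndependent ℝ ![u, v]) : ∃ L : Lag d, InClass M L := by
  obtain ⟨hF, hL⟩ := std_near M
  obtain ⟨L', h, _⟩ := exists_inClass hy hu hv huv E16_weight_one hF hL isOpen_univ (mem_univ y0)
  exact ⟨L', h⟩

end EscW.Ex
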