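import Pool.Agent.EscW.E1

set_option autoImplicit false

/-!
Project EscW, part E, module E2: the planar chart: smooth, invariant, bounded.
-/

noncomputable section

namespace EscW.Ex

open Filter Topology Set EscF.T EscM EscMT MeasureTheory
open scoped ContDiff

variable {d m n : ℕ}

theorem E2_lt {u v : ℝ} (hu : u ^ 2 ≤ 1) (hv : v ^ 2 ≤ 1) (h : u ^ 2 + v ^ 2 < 2) :
    0 < √(1 + u ^ 2 * v ^ 2) - (u + v) / √2 := by
  have h2 : (0 : ℝ) < √2 := Real.sqrt_pos.2 two_pos
  have h1 : 0 < √(1 + u ^ 2 * v ^ 2) := Real.sqrt_pos.2 (by positivity)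
  rcases le_or_gt (u + v) 0 with h0 | h0
  · have : (u + v) / √2 ≤ 0 := div_nonpos_of_nonpos_of_nonneg h0 h2.le
    linarith
  · have h3 : 0 ≤ (u + v) / √2 := div_nonneg h0.le h2.le
    rw [sub_pos, Real.lt_sqrt h3, div_pow, Real.sq_sqrt two_pos.le]
    have h4 : 0 ≤ (1 - u ^ 2) * (1 - v ^ 2) := mul_nonneg (by linarith) (by linarith)
    by_cases he : u = v
    · subst he
      have h5 : u ^ 2 < 1 := by linarith
      have h6 : 0 < (1 - u ^ 2) * (1 - u ^ 2) := mul_pos (by linarith) (by linarith)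
      nlinarith
    · have h5 : 0 < (u - v) ^ 2 := by
        have : u - v ≠ 0 := sub_ne_zero.2 he
        positivity
      nlinarith

theorem E2_hh (X : Vec (n + 2)) : cu X ^ 2 + cv X ^ 2 = 2 - hh X := by
  unfold cu cv hh
  have h1 := Real.sin_sq_add_cos_sq (2 * Real.pi * X 0)
  have h2 := Real.sin_sq_add_cos_sq (2 * Real.pi * X 1)
  linarith

theorem E2_cu (X : Vec (n + 2)) : cu X ^ 2 ≤ 1 := by
  unfold cu
  exact Real.cos_sq_le_one _

theorem E2_cv (X : Vec (n + 2)) : cv X ^ 2 ≤ 1 := by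
  unfold cv
  exact Real.cos_sq_le_one _

theorem DD_pos {X : Vec (n + 2)} (hX : 0 < hh X) : 0 < DD X := by
  have h := E2_hh X
  exact E2_lt (E2_cu X) (E2_cv X) (by linarith)

theorem E2_coord (i : Fin (n + 2)) : ContDiff ℝ ∞ (fun X : Vec (n + 2) => 2 * Real.pi * X i) :=
  contDiff_const.mul (contDiff_euclidean.1 contDiff_id i)

theorem E2_scu : ContDiff ℝ ∞ (cu : Vec (n + 2) → ℝ) := Real.contDiff_cos.comp (E2_coord 0)

theorem E2_scv : ContDiff ℝ ∞ (cv : Vec (n + 2) → ℝ) := Real.contDiff_cos.comp (E2_coord 1)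

theorem E2_sss : ContDiff ℝ ∞ (ss : Vec (n + 2) → ℝ) :=
  (Real.contDiff_sin.comp (E2_coord 0)).mul (Real.contDiff_sin.comp (E2_coord 1))

theorem E2_sDD (X : Vec (n + 2)) : ContDiffAt ℝ ∞ DD X := by
  have h1 : ContDiffAt ℝ ∞ (fun X : Vec (n + 2) => √(1 + cu X ^ 2 * cv X ^ 2)) X := by
    refine ContDiffAt.sqrt ?_ ?_
    · exact (contDiff_const.add ((E2_scu.pow 2).mul (E2_scv.pow 2))).contDiffAt
    · positivity
  have h2 : ContDiff ℝ ∞ (fun X : Vec (n + 2) => (cu X + cv X) / √2) :=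
    (E2_scu.add E2_scv).div_const _
  exact h1.sub h2.contDiffAt

theorem ph_smooth {X : Vec (n + 2)} (hX : 0 < hh X) : ContDiffAt ℝ ∞ ph X := by
  have hD := E2_sDD X
  have hD0 := (DD_pos hX).ne'
  rw [contDiffAt_euclidean]
  intro i
  by_cases h0 : i = 0
  · have : (fun x : Vec (n + 2) => ph x i) = fun x => (cu x - cv x) / √2 / DD x := by
      funext x
      simp [ph, h0]
    rw [this]
    exact ((E2_scu.sub E2_scv).div_const _).contDiffAt.div hD hD0
  · by_cases h1 : i = 1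
    · have : (fun x : Vec (n + 2) => ph x i) = fun x => ss x / DD x := by
        funext x
        simp [ph, h1]
      rw [this]
      exact E2_sss.contDiffAt.div hD hD0
    · have : (fun x : Vec (n + 2) => ph x i) = fun x => Real.sin (2 * Real.pi * x i) := by
        funext x
        simp [ph, h0, h1]
      rw [this]
      exact (Real.contDiff_sin.comp (E2_coord i)).contDiffAt

theorem E2_sin (k : Fin (n + 2) → ℤ) (X : Vec (n + 2)) (i : Fin (n + 2)) :
    Real.sin (2 * Real.pi * (X + vz k) i) = Real.sin (2 * Real.pi * X i) := by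
  have h : 2 * Real.pi * (X + vz k) i = 2 * Real.pi * X i + (k i : ℝ) * (2 * Real.pi) := by
    have : (X + vz k) i = X i + (k i : ℝ) := rfl
    rw [this]
    ring
  rw [h, Real.sin_add_int_mul_two_pi]

theorem E2_cos (k : Fin (n + 2) → ℤ) (X : Vec (n + 2)) (i : Fin (n + 2)) :
    Real.cos (2 * Real.pi * (X + vz k) i) = Real.cos (2 * Real.pi * X i) := by
  have h : 2 * Real.pi * (X + vz k) i = 2 * Real.pi * X i + (k i : ℝ) * (2 * Real.pi) := by
    have : (X + vz k) i = X i + (k i : ℝ) := rfl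
    rw [this]
    ring
  rw [h, Real.cos_add_int_mul_two_pi]

theorem ph_per (k : Fin (n + 2) → ℤ) (X : Vec (n + 2)) : ph (X + vz k) = ph X := by
  have h1 : cu (X + vz k) = cu X := E2_cos k X 0
  have h2 : cv (X + vz k) = cv X := E2_cos k X 1
  have h3 : ss (X + vz k) = ss X := by
    unfold ss
    rw [E2_sin, E2_sin]
  have h4 : DD (X + vz k) = DD X := by
    unfold DD
    rw [h1, h2]
  unfold ph
  rw [h1, h2, h3, h4]
  congr 1
  funext i
  rw [E2_sin]

theorem ph_P : ∀ P ∈ GG n, ∀ X, ph (P X) = ph X := by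
  intro P hP X
  rcases (mem_GG P).1 hP with h | h
  · subst h
    rfl
  · subst h
    have e0 : PP n X 0 = -X 0 := by
      rw [PP_apply, if_pos (Or.inl rfl)]
    have e1 : PP n X 1 = -X 1 := by
      rw [PP_apply, if_pos (Or.inr rfl)]
    have h1 : cu (PP n X) = cu X := by
      unfold cu
      rw [e0, mul_neg, Real.cos_neg]
    have h2 : cv (PP n X) = cv X := by
      unfold cv
      rw [e1, mul_neg, Real.cos_neg]
    have h3 : ss (PP n X) = ss X := by
      unfold ss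
      rw [e0, e1, mul_neg, mul_neg, Real.sin_neg, Real.sin_neg]
      ring
    have h4 : DD (PP n X) = DD X := by
      unfold DD
      rw [h1, h2]
    unfold ph
    rw [h1, h2, h3, h4]
    congr 1
    funext i
    by_cases i0 : i = 0
    · simp only [if_pos i0]
    · by_cases i1 : i = 1
      · simp only [if_neg i0, if_pos i1]
      · simp only [if_neg i0, if_neg i1]
        rw [PP_apply, if_neg (by tauto)]

theorem E2_comp : ∃ δ : ℝ, 0 < δ ∧ ∀ u v : ℝ, u ^ 2 ≤ 1 → v ^ 2 ≤ 1 → u ^ 2 + v ^ 2 ≤ 15 / 8 →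
    δ ≤ √(1 + u ^ 2 * v ^ 2) - (u + v) / √2 := by
  set K : Set (ℝ × ℝ) := {p | p.1 ^ 2 ≤ 1 ∧ p.2 ^ 2 ≤ 1 ∧ p.1 ^ 2 + p.2 ^ 2 ≤ 15 / 8} with hK
  have hc : IsCompact K := by
    refine Metric.isCompact_of_isClosed_isBounded ?_ ?_
    · refine IsClosed.and ?_ (IsClosed.and ?_ ?_)
      · exact isClosed_le (continuous_fst.pow 2) continuous_const
      · exact isClosed_le (continuous_snd.pow 2) continuous_const
      · exact isClosed_le ((continuous_fst.pow 2).add (continuous_snd.pow 2)) continuous_const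
    · refine (Metric.isBounded_closedBall (x := (0 : ℝ × ℝ)) (r := 1)).subset ?_
      rintro ⟨u, v⟩ ⟨h1, h2, -⟩
      rw [mem_closedBall_zero_iff, Prod.norm_def]
      exact max_le (abs_le_one_iff_mul_self_le_one.2 (by nlinarith))
        (abs_le_one_iff_mul_self_le_one.2 (by nlinarith))
  have hne : K.Nonempty := ⟨(0, 0), by norm_num [hK]⟩
  have hcont : ContinuousOn (fun p : ℝ × ℝ => √(1 + p.1 ^ 2 * p.2 ^ 2) - (p.1 + p.2) / √2) K := by
    refine Continuous.continuousOn ?_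
    fun_prop
  obtain ⟨p, hp, hmin⟩ := hc.exists_isMinOn hne hcont
  refine ⟨√(1 + p.1 ^ 2 * p.2 ^ 2) - (p.1 + p.2) / √2,
    E2_lt hp.1 hp.2.1 (by linarith [hp.2.2]), ?_⟩
  intro u v h1 h2 h3
  exact hmin (show (u, v) ∈ K from ⟨h1, h2, h3⟩)

theorem E2_norm (x : Vec (n + 2)) {B : ℝ} (hB : 0 ≤ B) (h : ∀ i, |x i| ≤ B) :
    ‖x‖ ≤ ((n : ℝ) + 2) * B := by
  have h0 : ‖x‖ ^ 2 ≤ (((n : ℝ) + 2) * B) ^ 2 := by
    rw [EuclideanSpace.norm_sq_eq]
    calc ∑ i, ‖x i‖ ^ 2 ≤ ∑ _i : Fin (n + 2), B ^ 2 := by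
          refine Finset.sum_le_sum fun i _ => ?_
          rw [Real.norm_eq_abs]
          exact pow_le_pow_left₀ (abs_nonneg _) (h i) 2
      _ = ((n : ℝ) + 2) * B ^ 2 := by simp
      _ ≤ (((n : ℝ) + 2) * B) ^ 2 := by
          have hn : (0 : ℝ) ≤ n := Nat.cast_nonneg n
          nlinarith [sq_nonneg B, mul_nonneg hn (sq_nonneg B), mul_nonneg (mul_nonneg hn hn) (sq_nonneg B)]
  have hn : (0 : ℝ) ≤ n := Nat.cast_nonneg n
  exact le_of_sq_le_sq h0 (by positivity)

theorem ph_bdd : ∃ C : ℝ, 0 < C ∧ ∀ X : Vec (n + 2), 1 / 8 ≤ hh X → ‖ph X‖ ≤ C := by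
  obtain ⟨δ, hδ, hD⟩ := E2_comp
  refine ⟨((n : ℝ) + 2) * (2 / δ + 1), by positivity, fun X hX => ?_⟩
  refine E2_norm _ (by positivity) fun i => ?_
  have hDD : δ ≤ DD X := hD _ _ (E2_cu X) (E2_cv X) (by linarith [E2_hh X])
  have hDp : 0 < DD X := hδ.trans_le hDD
  have h2 : (1 : ℝ) ≤ √2 := by
    rw [Real.one_le_sqrt]
    norm_num
  by_cases h0 : i = 0
  · have e : ph X i = (cu X - cv X) / √2 / DD X := by simp [ph, h0]
    rw [e, abs_div, abs_div, abs_of_pos hDp, abs_of_nonneg (Real.sqrt_nonneg 2)]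
    have h3 : |cu X - cv X| ≤ 2 := by
      have a1 := Real.abs_cos_le_one (2 * Real.pi * X 0)
      have a2 := Real.abs_cos_le_one (2 * Real.pi * X 1)
      have a3 := abs_sub (cu X) (cv X)
      unfold cu cv at a3 ⊢
      linarith
    have h4 : |cu X - cv X| / √2 ≤ 2 := by
      rw [div_le_iff₀ (by positivity)]
      linarith
    have h5 : |cu X - cv X| / √2 / DD X ≤ 2 / δ :=
      div_le_div₀ (by norm_num) h4 hδ hDD
    linarith
  · by_cases h1 : i = 1
    · have e : ph X i = ss X / DD X := by simp [ph, h1]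
      rw [e, abs_div, abs_of_pos hDp]
      have h3 : |ss X| ≤ 1 := by
        unfold ss
        rw [abs_mul]
        exact mul_le_one₀ (Real.abs_sin_le_one _) (abs_nonneg _) (Real.abs_sin_le_one _)
      have h5 : |ss X| / DD X ≤ 2 / δ := div_le_div₀ (by norm_num) (by linarith) hδ hDD
      linarith
    · have e : ph X i = Real.sin (2 * Real.pi * X i) := by simp [ph, h0, h1]
      rw [e]
      have h3 := Real.abs_sin_le_one (2 * Real.pi * X i)
      have h5 : 0 < 2 / δ := by positivity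
      linarith

end EscW.Ex
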