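import Pool.Agent.EscW.E2

set_option autoImplicit false

/-!
Project EscW, part E, module E3: the planar chart: fibres.
Let `a = (cu - cv)/√2`, `b = ss`, `e = (cu + cv)/√2`, `R = √(1 + cu²cv²)`, at `X`, and `a', b', e', R'` at `Y`. Then
`R² = a² + b² + e²` (`ss² = (1 - cu²)(1 - cv²)`), `D = R - e > 0`. With `p = a/D = a'/D'`, `q = b/D = b'/D'`:
`p² + q² = (R² - e²)/(R - e)² = (R + e)/(R - e)`, so `p² + q² - 1 = 2 e / D`: hence `e/D = e'/D'`, and
`(a, b, e) = lam (a', b', e')`, `lam = D/D' > 0`, so `cu X = lam cu Y`, `cv X = lam cv Y`, `ss X = lam ss Y`.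
`lam_one` (real numbers): `s² = (1 - u²)(1 - v²)`, `s'² = (1 - u'²)(1 - v'²)`, all squares of `u, v, u', v'` at most 1, `(u,v,s) = lam (u',v',s')`,
`lam > 0` ⇒ `lam = 1`. Proof: by symmetry suppose `lam > 1`. `0 ≤ 1 - lam² u'² ≤ 1 - u'²`, same for `v'`, so
`s'² ≤ lam² s'² = (1 - lam²u'²)(1 - lam²v'²) ≤ (1 - u'²)(1 - v'²) = s'²`: `s' = 0` and `(1 - u'²)(1 - v'²) = 0`, say `u'² = 1`; then
`u² = lam² > 1`, contradiction.
So `cos (2πX 0) = cos (2πY 0)`, `cos (2πX 1) = cos (2πY 1)`, `ss X = ss Y`: `Y 0 = ± X 0 + k`, `Y 1 = ± X 1 + k'` (`Real.cos_eq_cos_iff`).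
Equal signs: `P = 1` or `PP`. Opposite signs: `ss Y = - ss X`, so `ss X = 0`, `sin (2πX 0) = 0` or `sin (2πX 1) = 0`, then
`2 X 0` or `2 X 1` is an integer and this sign can be changed (with another integer).
Other coordinates: `sin (2πX i) = sin (2πY i)` and both cosines positive (`sz_cos`), so the cosines are equal, and `Y i = X i + k`
(`Real.cos_eq_cos_iff`, `Real.sin_eq_sin_iff` or: `cos (2π(X i - Y i)) = 1`).
-/

noncomputable section

namespace EscW.Ex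

open Filter Topology Set EscF.T EscM EscMT MeasureTheory
open scoped ContDiff

variable {d m n : ℕ}

theorem E3_core {a b L : ℝ} (ha : 0 ≤ a) (hb : 0 ≤ b) (hL : 1 < L) (h1 : L * a ≤ 1)
    (h2 : L * b ≤ 1) (h : (1 - L * a) * (1 - L * b) = L * ((1 - a) * (1 - b))) : False := by
  have ha1 : a ≤ L * a := by nlinarith
  have hb1 : b ≤ L * b := by nlinarith
  have ha2 : a < 1 := by
    by_contra hcon
    rw [not_lt] at hcon
    nlinarith
  have hb2 : b < 1 := by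
    by_contra hcon
    rw [not_lt] at hcon
    nlinarith
  have h3 : 0 < (1 - a) * (1 - b) := mul_pos (by linarith) (by linarith)
  have h4 : (1 - L * a) * (1 - L * b) ≤ (1 - a) * (1 - b) :=
    mul_le_mul (by linarith) (by linarith) (by linarith) (by linarith)
  nlinarith

theorem E3_not_lt {u v s u' v' s' lam : ℝ} (h1 : s ^ 2 = (1 - u ^ 2) * (1 - v ^ 2))
    (h2 : s' ^ 2 = (1 - u' ^ 2) * (1 - v' ^ 2)) (hu : u ^ 2 ≤ 1) (hv : v ^ 2 ≤ 1)
    (h3 : u = lam * u') (h4 : v = lam * v') (h5 : s = lam * s') : ¬ 1 < lam := by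
  intro hl
  refine E3_core (sq_nonneg u') (sq_nonneg v') (L := lam ^ 2) (by nlinarith) ?_ ?_ ?_
  · rw [← mul_pow, ← h3]
    exact hu
  · rw [← mul_pow, ← h4]
    exact hv
  · rw [← mul_pow, ← mul_pow, ← h3, ← h4, ← h1, ← h2, ← mul_pow, ← h5]

theorem lam_one {u v s u' v' s' lam : ℝ} (h1 : s ^ 2 = (1 - u ^ 2) * (1 - v ^ 2))
    (h2 : s' ^ 2 = (1 - u' ^ 2) * (1 - v' ^ 2)) (hu : u ^ 2 ≤ 1) (hv : v ^ 2 ≤ 1) (hu' : u' ^ 2 ≤ 1)
    (hv' : v' ^ 2 ≤ 1) (hl : 0 < lam) (h3 : u = lam * u') (h4 : v = lam * v') (h5 : s = lam * s') :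
    lam = 1 := by
  apply le_antisymm
  · exact not_lt.1 (E3_not_lt h1 h2 hu hv h3 h4 h5)
  · have h6 : ¬ 1 < lam⁻¹ := by
      refine E3_not_lt h2 h1 hu' hv' ?_ ?_ ?_
      · rw [h3, inv_mul_cancel_left₀ hl.ne']
      · rw [h4, inv_mul_cancel_left₀ hl.ne']
      · rw [h5, inv_mul_cancel_left₀ hl.ne']
    rw [not_lt, inv_le_one₀ hl] at h6
    exact h6

theorem E3_scale {a b d e : ℝ} (hd : 0 < d) (he : 0 < e) (h : a / d = b / e) :
    a = d / e * b := by
  rw [div_eq_div_iff hd.ne' he.ne'] at h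
  rw [div_mul_eq_mul_div, eq_div_iff he.ne']
  linarith

theorem E3_two_out {a b r l : ℝ} (hr : 0 < r) (h : a / r = l * (b / r)) : a = l * b := by
  rw [← mul_div_assoc, div_eq_div_iff hr.ne' hr.ne'] at h
  exact mul_right_cancel₀ hr.ne' h

/-- the three coordinates on the pillow agree -/
theorem E3_eq {X Y : Vec (n + 2)} (hX : 0 < hh X) (hY : 0 < hh Y) (h : ph X = ph Y) :
    cu X = cu Y ∧ cv X = cv Y ∧ ss X = ss Y := by
  have hD := DD_pos hX
  have hD' := DD_pos hY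
  have h0 : (cu X - cv X) / √2 / DD X = (cu Y - cv Y) / √2 / DD Y := by
    have := congrArg (fun Z : Vec (n + 2) => Z 0) h
    simpa [ph] using this
  have h1 : ss X / DD X = ss Y / DD Y := by
    have := congrArg (fun Z : Vec (n + 2) => Z 1) h
    simpa [ph] using this
  have hs2 : (0 : ℝ) < √2 := by positivity
  have hs22 : √2 * √2 = (2 : ℝ) := Real.mul_self_sqrt (by norm_num)
  have hss : ∀ Z : Vec (n + 2), ss Z ^ 2 = (1 - cu Z ^ 2) * (1 - cv Z ^ 2) := by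
    intro Z
    unfold ss cu cv
    rw [mul_pow, Real.sin_sq, Real.sin_sq]
  have hR : ∀ Z : Vec (n + 2), ((cu Z - cv Z) / √2) ^ 2 + ss Z ^ 2 =
      DD Z * (DD Z + 2 * ((cu Z + cv Z) / √2)) := by
    intro Z
    have e1 : √(1 + cu Z ^ 2 * cv Z ^ 2) ^ 2 = 1 + cu Z ^ 2 * cv Z ^ 2 :=
      Real.sq_sqrt (by positivity)
    have e2 : DD Z * (DD Z + 2 * ((cu Z + cv Z) / √2)) =
        √(1 + cu Z ^ 2 * cv Z ^ 2) ^ 2 - ((cu Z + cv Z) / √2) ^ 2 := by
      unfold DD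
      ring
    rw [e2, e1, hss, div_pow, div_pow, sq (√2), hs22]
    ring
  have he : (cu X + cv X) / √2 / DD X = (cu Y + cv Y) / √2 / DD Y := by
    have k1 : ∀ Z : Vec (n + 2), 0 < DD Z → ((cu Z - cv Z) / √2 / DD Z) ^ 2 + (ss Z / DD Z) ^ 2 =
        1 + 2 * ((cu Z + cv Z) / √2 / DD Z) := by
      intro Z hZ
      rw [div_pow (_ / _) (DD Z), div_pow (ss Z) (DD Z), ← add_div, hR Z]
      field_simp
    have k2 := k1 X hD
    have k3 := k1 Y hD'
    rw [h0, h1] at k2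
    linarith
  set lam := DD X / DD Y with hlam
  have hlp : 0 < lam := div_pos hD hD'
  have g0 : (cu X - cv X) / √2 = lam * ((cu Y - cv Y) / √2) :=
    E3_scale hD hD' h0
  have g1 : ss X = lam * ss Y := E3_scale hD hD' h1
  have g2 : (cu X + cv X) / √2 = lam * ((cu Y + cv Y) / √2) :=
    E3_scale hD hD' he
  have g3 : cu X - cv X = lam * (cu Y - cv Y) := E3_two_out hs2 g0
  have g4 : cu X + cv X = lam * (cu Y + cv Y) := E3_two_out hs2 g2
  have g5 : cu X = lam * cu Y := by linarith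
  have g6 : cv X = lam * cv Y := by linarith
  have hc1 : ∀ Z : Vec (n + 2), cu Z ^ 2 ≤ 1 := fun Z => Real.cos_sq_le_one _
  have hc2 : ∀ Z : Vec (n + 2), cv Z ^ 2 ≤ 1 := fun Z => Real.cos_sq_le_one _
  have hl1 := lam_one (hss X) (hss Y) (hc1 X) (hc2 X) (hc1 Y) (hc2 Y) hlp g5 g6 g1
  rw [hl1, one_mul] at g1 g5 g6
  exact ⟨g5, g6, g1⟩

theorem E3_cos {x y : ℝ} (h : Real.cos (2 * Real.pi * x) = Real.cos (2 * Real.pi * y)) :
    (∃ k : ℤ, y = x + k) ∨ ∃ k : ℤ, y = -x + k := by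
  have hpi := Real.pi_pos
  obtain ⟨k, hk | hk⟩ := Real.cos_eq_cos_iff.1 h
  · left
    refine ⟨k, ?_⟩
    have : 2 * Real.pi * y = 2 * Real.pi * (x + k) := by linarith
    exact mul_left_cancel₀ (by positivity) this
  · right
    refine ⟨k, ?_⟩
    have : 2 * Real.pi * y = 2 * Real.pi * (-x + k) := by linarith
    exact mul_left_cancel₀ (by positivity) this

theorem E3_sin {x : ℝ} (h : Real.sin (2 * Real.pi * x) = 0) : ∃ j : ℤ, -x = x + j := by
  have hpi := Real.pi_pos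
  obtain ⟨j, hj⟩ := Real.sin_eq_zero_iff.1 h
  refine ⟨-j, ?_⟩
  have : Real.pi * (j : ℝ) = Real.pi * (2 * x) := by linarith
  have h2 := mul_left_cancel₀ hpi.ne' this
  push_cast
  linarith

theorem E3_per (x : ℝ) (k : ℤ) : Real.sin (2 * Real.pi * (x + k)) = Real.sin (2 * Real.pi * x) := by
  have e : 2 * Real.pi * (x + k) = 2 * Real.pi * x + k * (2 * Real.pi) := by ring
  rw [e, Real.sin_add_int_mul_two_pi]

/-- the first two coordinates -/
theorem E3_two {x y x' y' : ℝ} (h0 : Real.cos (2 * Real.pi * x) = Real.cos (2 * Real.pi * x'))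
    (h1 : Real.cos (2 * Real.pi * y) = Real.cos (2 * Real.pi * y'))
    (h2 : Real.sin (2 * Real.pi * x) * Real.sin (2 * Real.pi * y) =
      Real.sin (2 * Real.pi * x') * Real.sin (2 * Real.pi * y')) :
    ((∃ k : ℤ, x' = x + k) ∧ ∃ k : ℤ, y' = y + k) ∨
      ((∃ k : ℤ, x' = -x + k) ∧ ∃ k : ℤ, y' = -y + k) := by
  have hneg : ∀ z : ℝ, Real.sin (2 * Real.pi * (-z)) = -Real.sin (2 * Real.pi * z) := by
    intro z
    rw [mul_neg, Real.sin_neg]
  rcases E3_cos h0 with ⟨k, hk⟩ | ⟨k, hk⟩ <;> rcases E3_cos h1 with ⟨l, hl⟩ | ⟨l, hl⟩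
  · exact Or.inl ⟨⟨k, hk⟩, l, hl⟩
  · rw [hk, hl, E3_per, E3_per, hneg] at h2
    have h3 : Real.sin (2 * Real.pi * x) * Real.sin (2 * Real.pi * y) = 0 := by linarith
    rcases mul_eq_zero.1 h3 with h4 | h4
    · obtain ⟨j, hj⟩ := E3_sin h4
      refine Or.inr ⟨⟨k - j, ?_⟩, l, hl⟩
      push_cast
      linarith
    · obtain ⟨j, hj⟩ := E3_sin h4
      refine Or.inl ⟨⟨k, hk⟩, l + j, ?_⟩
      push_cast
      linarith
  · rw [hk, hl, E3_per, E3_per, hneg] at h2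
    have h3 : Real.sin (2 * Real.pi * x) * Real.sin (2 * Real.pi * y) = 0 := by linarith
    rcases mul_eq_zero.1 h3 with h4 | h4
    · obtain ⟨j, hj⟩ := E3_sin h4
      refine Or.inl ⟨⟨k + j, ?_⟩, l, hl⟩
      push_cast
      linarith
    · obtain ⟨j, hj⟩ := E3_sin h4
      refine Or.inr ⟨⟨k, hk⟩, l - j, ?_⟩
      push_cast
      linarith
  · exact Or.inr ⟨⟨k, hk⟩, l, hl⟩

/-- the other coordinates -/
theorem E3_other {x y : ℝ} (h : Real.sin (2 * Real.pi * x) = Real.sin (2 * Real.pi * y))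
    (hx : 0 < Real.cos (2 * Real.pi * x)) (hy : 0 < Real.cos (2 * Real.pi * y)) :
    ∃ k : ℤ, y = x + k := by
  have hpi := Real.pi_pos
  have h1 : Real.cos (2 * Real.pi * x) = Real.cos (2 * Real.pi * y) := by
    have h2 := Real.sin_sq_add_cos_sq (2 * Real.pi * x)
    have h3 := Real.sin_sq_add_cos_sq (2 * Real.pi * y)
    rw [h] at h2
    have h4 : Real.cos (2 * Real.pi * x) ^ 2 = Real.cos (2 * Real.pi * y) ^ 2 := by linarith
    exact (pow_left_inj₀ hx.le hy.le (by norm_num)).1 h4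
  have h5 : Real.cos (2 * Real.pi * (y - x)) = 1 := by
    rw [mul_sub, Real.cos_sub, ← h, ← h1]
    have := Real.sin_sq_add_cos_sq (2 * Real.pi * x)
    nlinarith
  obtain ⟨k, hk⟩ := (Real.cos_eq_one_iff _).1 h5
  refine ⟨k, ?_⟩
  have h6 : 2 * Real.pi * (k : ℝ) = 2 * Real.pi * (y - x) := by linarith
  have h7 := mul_left_cancel₀ (by positivity) h6
  linarith

theorem ph_inj {X Y : Vec (n + 2)} (hX : 0 < hh X) (hY : 0 < hh Y) (hX' : sz X < 1) (hY' : sz Y < 1)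
    (h : ph X = ph Y) : ∃ P ∈ GG n, ∃ k : Fin (n + 2) → ℤ, Y = P X + vz k := by
  obtain ⟨h0, h1, h2⟩ := E3_eq hX hY h
  have hoth : ∀ i : Fin (n + 2), i ≠ 0 → i ≠ 1 → ∃ k : ℤ, Y i = X i + k := by
    intro i hi0 hi1
    refine E3_other ?_ (sz_cos hX' hi0 hi1) (sz_cos hY' hi0 hi1)
    have := congrArg (fun Z : Vec (n + 2) => Z i) h
    simpa [ph, hi0, hi1] using this
  rcases E3_two h0 h1 h2 with ⟨⟨k0, hk0⟩, k1, hk1⟩ | ⟨⟨k0, hk0⟩, k1, hk1⟩
  · have hall : ∀ i : Fin (n + 2), ∃ k : ℤ, Y i = X i + k := by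
      intro i
      by_cases hi0 : i = 0
      · subst hi0
        exact ⟨k0, hk0⟩
      · by_cases hi1 : i = 1
        · subst hi1
          exact ⟨k1, hk1⟩
        · exact hoth i hi0 hi1
    choose k hk using hall
    refine ⟨1, (GG n).one_mem, k, ?_⟩
    ext i
    show Y i = X i + (k i : ℝ)
    exact hk i
  · have hall : ∀ i : Fin (n + 2), ∃ k : ℤ, Y i = PP n X i + k := by
      intro i
      rw [PP_apply]
      by_cases hi0 : i = 0
      · subst hi0
        exact ⟨k0, by simpa using hk0⟩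
      · by_cases hi1 : i = 1
        · subst hi1
          exact ⟨k1, by simpa using hk1⟩
        · rw [if_neg (by tauto)]
          exact hoth i hi0 hi1
    choose k hk using hall
    refine ⟨PP n, (mem_GG _).2 (Or.inr rfl), k, ?_⟩
    ext i
    show Y i = PP n X i + (k i : ℝ)
    exact hk i

end EscW.Ex
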