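import Pool.Agent.EscW.E2

set_option autoImplicit false

/-!
Project EscW, part E, module E4: the planar chart: the derivative is injective, local inverse.
-/

noncomputable section

namespace EscW.Ex

open Filter Topology Set EscF.T EscM EscMT MeasureTheory
open scoped ContDiff

variable {d m n : ℕ}

theorem E4_line (X ξ : Vec (n + 2)) : HasDerivAt (fun τ : ℝ => X + τ • ξ) ξ 0 := by
  have h1 : HasDerivAt (fun τ : ℝ => τ • ξ) ((1 : ℝ) • ξ) 0 := (hasDerivAt_id (0 : ℝ)).smul_const ξ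
  rw [one_smul] at h1
  exact h1.const_add X

theorem E4_coord (X ξ : Vec (n + 2)) (i : Fin (n + 2)) (τ : ℝ) : (X + τ • ξ) i = X i + τ * ξ i := by
  simp

theorem E4_arg (x ξ : ℝ) : HasDerivAt (fun τ : ℝ => 2 * Real.pi * (x + τ * ξ)) (2 * Real.pi * ξ) 0 := by
  have h1 : HasDerivAt (fun τ : ℝ => τ * ξ) (1 * ξ) 0 := (hasDerivAt_id (0 : ℝ)).mul_const ξ
  have h2 : HasDerivAt (fun τ : ℝ => x + τ * ξ) (0 + 1 * ξ) 0 := (hasDerivAt_const (0 : ℝ) x).add h1
  have h3 := h2.const_mul (2 * Real.pi)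
  simpa using h3

theorem E4_cos (x ξ : ℝ) : HasDerivAt (fun τ : ℝ => Real.cos (2 * Real.pi * (x + τ * ξ)))
    (-Real.sin (2 * Real.pi * x) * (2 * Real.pi * ξ)) 0 := by
  have h := (E4_arg x ξ).cos
  simpa using h

theorem E4_sin (x ξ : ℝ) : HasDerivAt (fun τ : ℝ => Real.sin (2 * Real.pi * (x + τ * ξ)))
    (Real.cos (2 * Real.pi * x) * (2 * Real.pi * ξ)) 0 := by
  have h := (E4_arg x ξ).sin
  simpa using h

theorem E4_DD (X ξ : Vec (n + 2)) : ∃ δ : ℝ, HasDerivAt (fun τ : ℝ => DD (X + τ • ξ)) δ 0 := by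
  have hu := E4_cos (X 0) (ξ 0)
  have hv := E4_cos (X 1) (ξ 1)
  have h1 := ((hu.pow 2).mul (hv.pow 2)).const_add 1
  have hpos : (1 : ℝ) + (Real.cos (2 * Real.pi * (X 0 + 0 * ξ 0))) ^ 2 *
      (Real.cos (2 * Real.pi * (X 1 + 0 * ξ 1))) ^ 2 ≠ 0 := by positivity
  have h2 := h1.sqrt hpos
  have h3 := h2.sub ((hu.add hv).div_const (√2))
  refine ⟨_, h3.congr_of_eventuallyEq (Eventually.of_forall fun τ => ?_)⟩
  simp [DD, cu, cv]

theorem E4_alg {s0 s1 u v x y D δ R : ℝ} (hu : s0 ^ 2 = 1 - u ^ 2) (hv : s1 ^ 2 = 1 - v ^ 2)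
    (hpos : 0 < s0 ^ 2 + s1 ^ 2) (hD : 0 < D) (hR0 : 0 < R)
    (hid : ((u - v) / R) ^ 2 + (s0 * s1) ^ 2 = D ^ 2 + 2 * ((u + v) / R) * D)
    (ha : (-s0 * x - -s1 * y) / R * D = (u - v) / R * δ)
    (hb : (u * x * s1 + s0 * (v * y)) * D = s0 * s1 * δ)
    (hid' : 2 * ((u - v) / R) * ((-s0 * x - -s1 * y) / R) +
      2 * (s0 * s1) * (u * x * s1 + s0 * (v * y)) =
      2 * D * δ + (2 * ((-s0 * x + -s1 * y) / R) * D + 2 * ((u + v) / R) * δ)) :
    x = 0 ∧ y = 0 := by
  have hRne : R ≠ 0 := hR0.ne'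
  -- e' D = e δ
  have he : (-s0 * x + -s1 * y) / R * D = (u + v) / R * δ := by
    have h1 : D * ((-s0 * x + -s1 * y) / R * D - (u + v) / R * δ) = 0 := by
      have h2 := congrArg (fun z => z * D) hid'
      linear_combination (-1 / 2) * h2 + ((u - v) / R) * ha + (s0 * s1) * hb + δ * hid
    rcases mul_eq_zero.1 h1 with h | h
    · exact absurd h hD.ne'
    · linarith
  have ha' : (-s0 * x - -s1 * y) * D = (u - v) * δ := by
    field_simp at ha
    linarith
  have he' : (-s0 * x + -s1 * y) * D = (u + v) * δ := by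
    field_simp at he
    linarith
  have hx : -s0 * x * D = u * δ := by linarith
  have hy : -s1 * y * D = v * δ := by linarith
  -- δ = 0
  have hbr : δ * (s1 ^ 2 + v ^ 2 * s0 ^ 2) = 0 := by
    have h3 : (s0 * s1) * ((u * x * s1 + s0 * (v * y)) * D) = (s0 * s1) * (s0 * s1 * δ) := by rw [hb]
    have h4 : u * s1 ^ 2 * (-s0 * x * D) = u * s1 ^ 2 * (u * δ) := by rw [hx]
    have h5 : v * s0 ^ 2 * (-s1 * y * D) = v * s0 ^ 2 * (v * δ) := by rw [hy]
    have h6 : δ * (s0 ^ 2 * s1 ^ 2 + u ^ 2 * s1 ^ 2 + v ^ 2 * s0 ^ 2) = 0 := by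
      linear_combination (-1) * h3 - h4 - h5
    have h7 : s0 ^ 2 * s1 ^ 2 + u ^ 2 * s1 ^ 2 + v ^ 2 * s0 ^ 2 = s1 ^ 2 + v ^ 2 * s0 ^ 2 := by
      rw [hu]; ring
    rwa [h7] at h6
  have hbpos : 0 < s1 ^ 2 + v ^ 2 * s0 ^ 2 := by
    have hv2 : v ^ 2 = 1 - s1 ^ 2 := by linarith
    by_cases h1 : s1 = 0
    · rw [h1] at hpos hv2 ⊢
      rw [hv2]
      nlinarith
    · have : 0 < s1 ^ 2 := by positivity
      positivity
  have hδ : δ = 0 := by
    rcases mul_eq_zero.1 hbr with h | h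
    · exact h
    · exact absurd h hbpos.ne'
  rw [hδ, mul_zero] at hx hy hb
  have hx0 : s0 * x = 0 := by
    rcases mul_eq_zero.1 hx with h | h
    · linarith
    · exact absurd h hD.ne'
  have hy0 : s1 * y = 0 := by
    rcases mul_eq_zero.1 hy with h | h
    · linarith
    · exact absurd h hD.ne'
  have hb0 : u * x * s1 + s0 * (v * y) = 0 := by
    rcases mul_eq_zero.1 hb with h | h
    · exact h
    · exact absurd h hD.ne'
  by_cases h0 : s0 = 0
  · have h1 : s1 ≠ 0 := by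
      rintro rfl
      rw [h0] at hpos
      norm_num at hpos
    have hy1 : y = 0 := by
      rcases mul_eq_zero.1 hy0 with h | h
      · exact absurd h h1
      · exact h
    refine ⟨?_, hy1⟩
    have hu1 : u ≠ 0 := by
      rintro rfl
      rw [h0] at hu
      norm_num at hu
    rw [hy1, h0] at hb0
    have h2 : u * x * s1 = 0 := by linarith
    rcases mul_eq_zero.1 h2 with h | h
    · rcases mul_eq_zero.1 h with h | h
      · exact absurd h hu1
      · exact h
    · exact absurd h h1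
  · have hx1 : x = 0 := by
      rcases mul_eq_zero.1 hx0 with h | h
      · exact absurd h h0
      · exact h
    refine ⟨hx1, ?_⟩
    rw [hx1] at hb0
    have h2 : s0 * (v * y) = 0 := by linarith
    have h3 : v * y = 0 := by
      rcases mul_eq_zero.1 h2 with h | h
      · exact absurd h h0
      · exact h
    rcases mul_eq_zero.1 h3 with h | h
    · have h4 : s1 ≠ 0 := by
        rintro rfl
        rw [h] at hv
        norm_num at hv
      rcases mul_eq_zero.1 hy0 with h' | h'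
      · exact absurd h' h4
      · exact h'
    · exact h

theorem ph_fderiv {X : Vec (n + 2)} (hX : 0 < hh X) (hX' : sz X < 1) {ξ : Vec (n + 2)}
    (h : fderiv ℝ ph X ξ = 0) : ξ = 0 := by
  have hdiff : DifferentiableAt ℝ ph X := (ph_smooth hX).differentiableAt (by simp)
  have hline := E4_line X ξ
  have hp : HasDerivAt (fun τ : ℝ => ph (X + τ • ξ)) 0 0 := by
    have h1 : HasFDerivAt ph (fderiv ℝ ph X) (X + (0 : ℝ) • ξ) := by
      simpa using hdiff.hasFDerivAt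
    have h2 := h1.comp_hasDerivAt (0 : ℝ) hline
    rw [h] at h2
    exact h2
  have hpi : ∀ i, HasDerivAt (fun τ : ℝ => ph (X + τ • ξ) i) 0 0 := by
    intro i
    have h1 := (EuclideanSpace.proj (𝕜 := ℝ) i : Vec (n + 2) →L[ℝ] ℝ).hasFDerivAt.comp_hasDerivAt
      (0 : ℝ) hp
    rw [map_zero] at h1
    exact h1
  obtain ⟨δ, hδ⟩ := E4_DD X ξ
  have hD : 0 < DD X := DD_pos hX
  have hu := E4_cos (X 0) (ξ 0)
  have hv := E4_cos (X 1) (ξ 1)
  have hs0 := E4_sin (X 0) (ξ 0)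
  have hs1 := E4_sin (X 1) (ξ 1)
  have h10 : (1 : Fin (n + 2)) ≠ 0 := by simp
  have hD0 : DD (X + (0 : ℝ) • ξ) = DD X := by simp
  -- other coordinates
  have hoth : ∀ i : Fin (n + 2), i ≠ 0 → i ≠ 1 → ξ i = 0 := by
    intro i h0 h1
    have e1 := hpi i
    have e2 : HasDerivAt (fun τ : ℝ => ph (X + τ • ξ) i)
        (Real.cos (2 * Real.pi * X i) * (2 * Real.pi * ξ i)) 0 := by
      refine (E4_sin (X i) (ξ i)).congr_of_eventuallyEq (Eventually.of_forall fun τ => ?_)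
      simp [ph, h0, h1]
    have e3 := e1.unique e2
    have e4 := sz_cos hX' h0 h1
    have e5 := Real.pi_pos
    rcases mul_eq_zero.1 e3.symm with h' | h'
    · exact absurd h' e4.ne'
    · rcases mul_eq_zero.1 h' with h'' | h''
      · exact absurd h'' (by positivity)
      · exact h''
  -- coordinate 0
  have ha : HasDerivAt (fun τ : ℝ => (Real.cos (2 * Real.pi * (X 0 + τ * ξ 0)) -
      Real.cos (2 * Real.pi * (X 1 + τ * ξ 1))) / √2)
      ((-Real.sin (2 * Real.pi * X 0) * (2 * Real.pi * ξ 0) -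
        -Real.sin (2 * Real.pi * X 1) * (2 * Real.pi * ξ 1)) / √2) 0 := (hu.sub hv).div_const _
  have he : HasDerivAt (fun τ : ℝ => (Real.cos (2 * Real.pi * (X 0 + τ * ξ 0)) +
      Real.cos (2 * Real.pi * (X 1 + τ * ξ 1))) / √2)
      ((-Real.sin (2 * Real.pi * X 0) * (2 * Real.pi * ξ 0) +
        -Real.sin (2 * Real.pi * X 1) * (2 * Real.pi * ξ 1)) / √2) 0 := (hu.add hv).div_const _
  have hb : HasDerivAt (fun τ : ℝ => Real.sin (2 * Real.pi * (X 0 + τ * ξ 0)) *
      Real.sin (2 * Real.pi * (X 1 + τ * ξ 1)))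
      (Real.cos (2 * Real.pi * X 0) * (2 * Real.pi * ξ 0) * Real.sin (2 * Real.pi * X 1) +
        Real.sin (2 * Real.pi * X 0) * (Real.cos (2 * Real.pi * X 1) * (2 * Real.pi * ξ 1))) 0 := by
    have h1 := hs0.mul hs1
    simp only [zero_mul, add_zero] at h1
    exact h1
  have haD : ((-Real.sin (2 * Real.pi * X 0) * (2 * Real.pi * ξ 0) -
        -Real.sin (2 * Real.pi * X 1) * (2 * Real.pi * ξ 1)) / √2) * DD X =
      (Real.cos (2 * Real.pi * X 0) - Real.cos (2 * Real.pi * X 1)) / √2 * δ := by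
    have h1 := ha.div hδ (by rw [hD0]; exact hD.ne')
    have h2 : HasDerivAt (fun τ : ℝ => ph (X + τ • ξ) 0) _ 0 :=
      h1.congr_of_eventuallyEq (Eventually.of_forall fun τ => by simp [ph, cu, cv])
    have h3 := (hpi 0).unique h2
    simp only [zero_mul, add_zero, hD0] at h3
    have h4 := h3.symm
    rw [div_eq_zero_iff] at h4
    rcases h4 with h4 | h4
    · linarith
    · exact absurd h4 (by positivity)
  have hbD : (Real.cos (2 * Real.pi * X 0) * (2 * Real.pi * ξ 0) * Real.sin (2 * Real.pi * X 1) +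
        Real.sin (2 * Real.pi * X 0) * (Real.cos (2 * Real.pi * X 1) * (2 * Real.pi * ξ 1))) * DD X =
      Real.sin (2 * Real.pi * X 0) * Real.sin (2 * Real.pi * X 1) * δ := by
    have h1 := hb.div hδ (by rw [hD0]; exact hD.ne')
    have h2 : HasDerivAt (fun τ : ℝ => ph (X + τ • ξ) 1) _ 0 :=
      h1.congr_of_eventuallyEq (Eventually.of_forall fun τ => by simp [ph, ss])
    have h3 := (hpi 1).unique h2
    simp only [zero_mul, add_zero, hD0] at h3
    have h4 := h3.symm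
    rw [div_eq_zero_iff] at h4
    rcases h4 with h4 | h4
    · linarith
    · exact absurd h4 (by positivity)
  -- the identity
  have hid : ∀ Y : Vec (n + 2), ((cu Y - cv Y) / √2) ^ 2 + (ss Y) ^ 2 =
      DD Y ^ 2 + 2 * ((cu Y + cv Y) / √2) * DD Y := by
    intro Y
    have h2 : (√2 : ℝ) ^ 2 = 2 := Real.sq_sqrt (by norm_num)
    have hR : √(1 + cu Y ^ 2 * cv Y ^ 2) ^ 2 = 1 + cu Y ^ 2 * cv Y ^ 2 := Real.sq_sqrt (by positivity)
    have hs : ss Y ^ 2 = (1 - cu Y ^ 2) * (1 - cv Y ^ 2) := by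
      unfold ss cu cv
      rw [mul_pow, Real.sin_sq, Real.sin_sq]
    have h3 : ((cu Y - cv Y) / √2) ^ 2 + ((cu Y + cv Y) / √2) ^ 2 = cu Y ^ 2 + cv Y ^ 2 := by
      rw [div_pow, div_pow, h2]; ring
    have h4 : DD Y ^ 2 + 2 * ((cu Y + cv Y) / √2) * DD Y =
        √(1 + cu Y ^ 2 * cv Y ^ 2) ^ 2 - ((cu Y + cv Y) / √2) ^ 2 := by
      unfold DD; ring
    rw [h4, hR, hs]
    linear_combination h3
  have hid' : 2 * ((Real.cos (2 * Real.pi * X 0) - Real.cos (2 * Real.pi * X 1)) / √2) *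
      ((-Real.sin (2 * Real.pi * X 0) * (2 * Real.pi * ξ 0) -
        -Real.sin (2 * Real.pi * X 1) * (2 * Real.pi * ξ 1)) / √2) +
      2 * (Real.sin (2 * Real.pi * X 0) * Real.sin (2 * Real.pi * X 1)) *
      (Real.cos (2 * Real.pi * X 0) * (2 * Real.pi * ξ 0) * Real.sin (2 * Real.pi * X 1) +
        Real.sin (2 * Real.pi * X 0) * (Real.cos (2 * Real.pi * X 1) * (2 * Real.pi * ξ 1))) =
      2 * DD X * δ + (2 * ((-Real.sin (2 * Real.pi * X 0) * (2 * Real.pi * ξ 0) +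
        -Real.sin (2 * Real.pi * X 1) * (2 * Real.pi * ξ 1)) / √2) * DD X +
        2 * ((Real.cos (2 * Real.pi * X 0) + Real.cos (2 * Real.pi * X 1)) / √2) * δ) := by
    have h1 := (ha.pow 2).add (hb.pow 2)
    have h2 := (hδ.pow 2).add ((he.const_mul 2).mul hδ)
    have h3 := h1.congr_of_eventuallyEq (f₁ := fun τ : ℝ => DD (X + τ • ξ) ^ 2 +
        2 * ((Real.cos (2 * Real.pi * (X 0 + τ * ξ 0)) +
          Real.cos (2 * Real.pi * (X 1 + τ * ξ 1))) / √2) * DD (X + τ • ξ))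
      (Eventually.of_forall fun τ => by
        have h4 := hid (X + τ • ξ)
        simp only [cu, cv, ss, E4_coord] at h4
        exact h4.symm)
    have h5 := h3.unique (h2.congr_of_eventuallyEq (Eventually.of_forall fun τ => rfl))
    simp only [zero_mul, add_zero, hD0, Nat.cast_ofNat, Nat.add_one_sub_one, pow_one] at h5
    linarith
  have hidX := hid X
  simp only [cu, cv, ss] at hidX
  have hpos : 0 < Real.sin (2 * Real.pi * X 0) ^ 2 + Real.sin (2 * Real.pi * X 1) ^ 2 := hX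
  have hfin := E4_alg (x := 2 * Real.pi * ξ 0) (y := 2 * Real.pi * ξ 1)
    (Real.sin_sq (2 * Real.pi * X 0)) (Real.sin_sq (2 * Real.pi * X 1)) hpos hD
    (by positivity) hidX haD hbD hid'
  have hpi2 : (2 * Real.pi : ℝ) ≠ 0 := by positivity
  have hξ0 : ξ 0 = 0 := by
    rcases mul_eq_zero.1 hfin.1 with h' | h'
    · exact absurd h' hpi2
    · exact h'
  have hξ1 : ξ 1 = 0 := by
    rcases mul_eq_zero.1 hfin.2 with h' | h'
    · exact absurd h' hpi2
    · exact h'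
  ext i
  by_cases h0 : i = 0
  · rw [h0]; exact hξ0
  by_cases h1 : i = 1
  · rw [h1]; exact hξ1
  exact hoth i h0 h1

theorem ph_inverse {X : Vec (n + 2)} (hX : 0 < hh X) (hX' : sz X < 1) :
    ∃ g : Vec (n + 2) → Vec (n + 2), ContDiffAt ℝ ∞ g (ph X) ∧ g (ph X) = X ∧
      (∀ᶠ Y in 𝓝 X, g (ph Y) = Y) ∧ ∀ᶠ z in 𝓝 (ph X), ph (g z) = z := by
  have hs := ph_smooth hX
  have hinj : Function.Injective (fderiv ℝ ph X : Vec (n + 2) →ₗ[ℝ] Vec (n + 2)) := by
    rw [← LinearMap.ker_eq_bot, LinearMap.ker_eq_bot']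
    intro ξ hξ
    exact ph_fderiv hX hX' hξ
  let e : Vec (n + 2) ≃L[ℝ] Vec (n + 2) :=
    (LinearEquiv.ofInjectiveEndo (fderiv ℝ ph X : Vec (n + 2) →ₗ[ℝ] Vec (n + 2))
      hinj).toContinuousLinearEquiv
  have he : (e : Vec (n + 2) →L[ℝ] Vec (n + 2)) = fderiv ℝ ph X := by
    ext1 v
    rfl
  have hd : HasFDerivAt ph (e : Vec (n + 2) →L[ℝ] Vec (n + 2)) X := by
    rw [he]
    exact (hs.differentiableAt (by simp)).hasFDerivAt
  have hst : HasStrictFDerivAt ph (e : Vec (n + 2) →L[ℝ] Vec (n + 2)) X :=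
    hs.hasStrictFDerivAt' hd (by simp)
  refine ⟨hs.localInverse hd (by simp), hs.to_localInverse hd (by simp),
    hs.localInverse_apply_image hd (by simp), ?_, ?_⟩
  · exact hst.eventually_left_inverse
  · exact hst.eventually_right_inverse

end EscW.Ex
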