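import Pool.Agent.EscW.E3
import Pool.Agent.EscW.E4
import Pool.Agent.EscW.E5

set_option autoImplicit false

/-!
Project EscW, part E, module E6: the covering chart.
`φ X = g (e1 • ph X)`. `e1` with `ph_bdd`: `‖e1 • ph X‖ < ρ` for `1/8 ≤ hh X`. `smooth`, `maps`, `φ X ∈ W`: clear. `mapsO`, `perO`: `hh_P` etc.
`free`: E1. `fibre`: if `φ Y = φ X + vz l`, both in `W`, `‖vz l‖ = dist < 1`, so `l = 0` (integer coordinates, each coordinate is bounded by the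
norm); apply `g'`: `e1 • ph Y = e1 • ph X`, `ph X = ph Y`, `ph_inj`. Converse: `l = 0`, `ph_per`, `ph_P`.
`inverse` at `X`: `ψ w = gi (e1⁻¹ • g' w)`, `gi` of `ph_inverse`: smooth at `φ X` since `W` is open, `g'` smooth on `W`, `g' (φ X) = e1 • ph X`.
`ψ (φ Y) = gi (ph Y) = Y` for `Y` near `X`. For `w ∈ M.N` near `φ X`: `w ∈ W`, `ψ w` is near `ψ (φ X) = X` by continuity, so in `OO a b` (open), and
`φ (ψ w) = g (e1 • ph (gi (e1⁻¹ • g' w))) = g (g' w) = w`.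
-/

noncomputable section

namespace EscW.Ex

open Filter Topology Set EscF.T EscM EscMT MeasureTheory
open scoped ContDiff

variable {d m n : ℕ}

theorem E6_vz {l : Fin d → ℤ} (h : ‖(vz l : Vec d)‖ < 1) : l = 0 := by
  funext i
  have h1 : ‖(vz l : Vec d) i‖ ≤ ‖(vz l : Vec d)‖ := PiLp.norm_apply_le _ i
  have h2 : (vz l : Vec d) i = (l i : ℝ) := rfl
  rw [h2, Real.norm_eq_abs] at h1
  have h3 : |(l i : ℝ)| < 1 := lt_of_le_of_lt h1 h
  have h4 : |l i| < 1 := by exact_mod_cast h3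
  simpa using Int.abs_lt_one_iff.1 h4

theorem E6_vz0 : (vz (0 : Fin d → ℤ) : Vec d) = 0 := by
  ext i
  simp [vz]

theorem exists_chart {M : Sub d} {W : Set (Vec d)} {ρ : ℝ} {g : Vec (n + 2) → Vec d}
    {g' : Vec d → Vec (n + 2)} (hg : MChart M (n + 2) W ρ g g') :
    ∃ e1 : ℝ, 0 < e1 ∧ (∀ X : Vec (n + 2), 1 / 8 ≤ hh X → g (e1 • ph X) ∈ M.N ∩ W) ∧
      (∀ (k : Fin (n + 2) → ℤ) (X : Vec (n + 2)), g (e1 • ph (X + vz k)) = g (e1 • ph X)) ∧
      (∀ P ∈ GG n, ∀ X : Vec (n + 2), g (e1 • ph (P X)) = g (e1 • ph X)) ∧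
      ∀ a b : ℝ, 1 / 8 ≤ a → b ≤ 1 → IsChart M (tor (n + 2)) (OO n a b) (GG n) (fun X => g (e1 • ph X)) := by
  obtain ⟨C, hC, hb⟩ := ph_bdd (n := n)
  have hρ := hg.pos
  obtain ⟨e1, he⟩ : ∃ e1 : ℝ, e1 = ρ / (2 * C) := ⟨_, rfl⟩
  have he1 : 0 < e1 := by rw [he]; positivity
  have hball : ∀ X : Vec (n + 2), 1 / 8 ≤ hh X → e1 • ph X ∈ Metric.ball (0 : Vec (n + 2)) ρ := by
    intro X hX
    rw [mem_ball_zero_iff, norm_smul, Real.norm_of_nonneg he1.le]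
    calc e1 * ‖ph X‖ ≤ e1 * C := mul_le_mul_of_nonneg_left (hb X hX) he1.le
      _ = ρ / 2 := by rw [he]; field_simp
      _ < ρ := by linarith
  have hmaps : ∀ X : Vec (n + 2), 1 / 8 ≤ hh X → g (e1 • ph X) ∈ M.N ∩ W := fun X hX => hg.maps _ (hball X hX)
  have hper : ∀ (k : Fin (n + 2) → ℤ) (X : Vec (n + 2)), g (e1 • ph (X + vz k)) = g (e1 • ph X) := by
    intro k X
    rw [ph_per]
  have hP : ∀ P ∈ GG n, ∀ X : Vec (n + 2), g (e1 • ph (P X)) = g (e1 • ph X) := by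
    intro P hP X
    rw [ph_P P hP]
  refine ⟨e1, he1, hmaps, hper, hP, ?_⟩
  intro a b ha hb1
  have hO1 : ∀ X ∈ OO n a b, 1 / 8 ≤ hh X := fun X hX => le_trans ha (le_of_lt hX.1)
  have hO0 : ∀ X ∈ OO n a b, 0 < hh X := fun X hX => lt_of_lt_of_le (by norm_num) (hO1 X hX)
  have hO2 : ∀ X ∈ OO n a b, sz X < 1 := fun X hX => lt_of_lt_of_le hX.2 hb1
  have hleft : ∀ X ∈ OO n a b, g' (g (e1 • ph X)) = e1 • ph X := fun X hX => hg.left _ (hball X (hO1 X hX))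
  have hinv : ∀ z : Vec (n + 2), e1⁻¹ • (e1 • z) = z := fun z => by
    rw [smul_smul, inv_mul_cancel₀ he1.ne', one_smul]
  have hinv' : ∀ z : Vec (n + 2), e1 • (e1⁻¹ • z) = z := fun z => by
    rw [smul_smul, mul_inv_cancel₀ he1.ne', one_smul]
  refine ⟨GG_finite, GG_int, fun _ _ _ _ => mem_univ _, ?_, OO_open a b, ?_, ?_, ?_, ?_, ?_, ?_⟩
  · intro P hPG x hx
    refine ⟨?_, ?_⟩
    · rw [hh_P P hPG]; exact hx.1
    · rw [sz_P P hPG]; exact hx.2
  · intro k x hx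
    refine ⟨?_, ?_⟩
    · rw [hh_per]; exact hx.1
    · rw [sz_per]; exact hx.2
  · intro P hPG k x hx h
    exact free P hPG k x (hO0 x hx.2) h
  · intro x hx
    have h1 : ContDiffAt ℝ ∞ g (e1 • ph x) :=
      hg.smooth.contDiffAt (Metric.isOpen_ball.mem_nhds (hball x (hO1 x hx)))
    have h2 : ContDiffAt ℝ ∞ (fun X : Vec (n + 2) => e1 • ph X) x := (ph_smooth (hO0 x hx)).const_smul e1
    exact (ContDiffAt.comp x h1 h2).contDiffWithinAt
  · intro x hx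
    exact (hmaps x (hO1 x hx.2)).1
  · intro x hx y hy
    constructor
    · rintro ⟨l, hl⟩
      have h1 : dist (g (e1 • ph y)) (g (e1 • ph x)) < 1 :=
        hg.small _ (hmaps y (hO1 y hy.2)).2 _ (hmaps x (hO1 x hx.2)).2
      have hl' : g (e1 • ph y) = g (e1 • ph x) + vz l := hl
      have h2 : l = 0 := by
        apply E6_vz
        rw [hl', dist_eq_norm, add_sub_cancel_left] at h1
        exact h1
      rw [h2, E6_vz0, add_zero] at hl'
      have h3 : e1 • ph y = e1 • ph x := by rw [← hleft y hy.2, ← hleft x hx.2, hl']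
      have h4 : ph x = ph y := by rw [← hinv (ph x), ← hinv (ph y), h3]
      exact ph_inj (hO0 x hx.2) (hO0 y hy.2) (hO2 x hx.2) (hO2 y hy.2) h4
    · rintro ⟨P, hPG, k, rfl⟩
      refine ⟨0, ?_⟩
      show g (e1 • ph (P x + vz k)) = g (e1 • ph x) + vz 0
      rw [hper, hP P hPG, E6_vz0, add_zero]
  · intro x hx
    obtain ⟨gi, h1, h2, h3, h4⟩ := ph_inverse (hO0 x hx.2) (hO2 x hx.2)
    have hWx : W ∈ 𝓝 (g (e1 • ph x)) := hg.isOpen.mem_nhds (hmaps x (hO1 x hx.2)).2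
    have hx' : e1⁻¹ • g' (g (e1 • ph x)) = ph x := by rw [hleft x hx.2, hinv]
    have hs : ContDiffAt ℝ ∞ (fun w => e1⁻¹ • g' w) (g (e1 • ph x)) :=
      (hg.smooth'.contDiffAt hWx).const_smul _
    have hψ : ContDiffAt ℝ ∞ (fun w => gi (e1⁻¹ • g' w)) (g (e1 • ph x)) := by
      have h1' : ContDiffAt ℝ ∞ gi (e1⁻¹ • g' (g (e1 • ph x))) := by rw [hx']; exact h1
      exact ContDiffAt.comp (g (e1 • ph x)) h1' hs
    refine ⟨fun w => gi (e1⁻¹ • g' w), hψ, ?_, ?_⟩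
    · filter_upwards [(OO_open (n := n) a b).mem_nhds hx.2, h3] with y hy hy3 _
      show gi (e1⁻¹ • g' (g (e1 • ph y))) = y
      rw [hleft y hy, hinv, hy3]
    · have hc : Tendsto (fun w => gi (e1⁻¹ • g' w)) (𝓝 (g (e1 • ph x))) (𝓝 x) := by
        have := hψ.continuousAt.tendsto
        simpa only [hx', h2] using this
      have hc2 : Tendsto (fun w => e1⁻¹ • g' w) (𝓝 (g (e1 • ph x))) (𝓝 (ph x)) := by
        have := hs.continuousAt.tendsto
        simpa only [hx'] using this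
      filter_upwards [hWx, hc.eventually ((OO_open (n := n) a b).mem_nhds hx.2), hc2.eventually h4] with w hw hw1 hw2 hwN
      refine ⟨⟨mem_univ _, hw1⟩, ?_⟩
      show g (e1 • ph (gi (e1⁻¹ • g' w))) = w
      rw [hw2, hinv', (hg.right w ⟨hwN, hw⟩).2]

end EscW.Ex
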