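import Pool.Agent.EscW.E1

set_option autoImplicit false

/-!
Project EscW, part E, module E7b: the model metric and Lagrangian: near.
`nearL`: `LL - FF²/2 = - (wt s/4) k(v)`, `k v = v0 (√(1+‖v‖²) - ‖v‖)`, `|k| ≤ 1`, `k` is 2-Lipschitz: `th a = √(1+a²) - a`, `0 ≤ th ≤ 1`,
`|th a - th b| ≤ |a - b| / (1 + min(a,b)²)` (`|th'| = 1 - a/√(1+a²) ≤ 1/(1+a²)`); for `‖v'‖ ≤ ‖v‖`: `k v - k v' = (v0 - v'0) th‖v‖ + v'0 (th‖v‖ - th‖v'‖)`,
`|v'0| / (1 + ‖v'‖²) ≤ 1/2`. The coefficient `wt s/4` is smooth and periodic in `X`, so bounded and Lipschitz.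
-/

noncomputable section

namespace EscW.Ex

open Filter Topology Set EscF.T EscM EscMT MeasureTheory
open scoped ContDiff

variable {d m n : ℕ}

/-- a continuous periodic function is bounded -/
theorem E7b_bdd {W : Type*} [NormedAddCommGroup W] {g : Vec m → W} (hc : Continuous g)
    (hp : ∀ (k : Fin m → ℤ) (x : Vec m), g (x + vz k) = g x) : ∃ C : ℝ, ∀ x, ‖g x‖ ≤ C := by
  obtain ⟨C, hC⟩ := (isCompact_closedBall (0 : Vec m) (√(m : ℝ))).exists_bound_of_continuousOn hc.continuousOn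
  refine ⟨C, fun x => ?_⟩
  have hx : x = (x - vz (fun i => ⌊x i⌋)) + vz (fun i => ⌊x i⌋) := (sub_add_cancel _ _).symm
  rw [hx, hp]
  apply hC
  rw [mem_closedBall_zero_iff, EuclideanSpace.norm_eq]
  apply Real.sqrt_le_sqrt
  calc ∑ i, ‖(x - vz (fun i => ⌊x i⌋)) i‖ ^ 2 ≤ ∑ _i : Fin m, (1 : ℝ) := by
        refine Finset.sum_le_sum fun i _ => ?_
        have h1 : (x - vz (fun i => ⌊x i⌋)) i = Int.fract (x i) := by
          simp [vz]
        rw [h1, Real.norm_eq_abs, sq_abs]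
        have h2 := Int.fract_nonneg (x i)
        have h3 := Int.fract_lt_one (x i)
        nlinarith
    _ = (m : ℝ) := by simp

/-- a smooth periodic function is Lipschitz -/
theorem E7b_lip {g : Vec m → ℝ} (hc : ContDiff ℝ ∞ g)
    (hp : ∀ (k : Fin m → ℤ) (x : Vec m), g (x + vz k) = g x) :
    ∃ C : ℝ, 0 ≤ C ∧ ∀ x y, |g x - g y| ≤ C * ‖x - y‖ := by
  obtain ⟨C, hC⟩ := E7b_bdd (g := fderiv ℝ g) (hc.continuous_fderiv (by simp)) (by
    intro k x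
    have h1 : fderiv ℝ (fun y => g (y + vz k)) x = fderiv ℝ g (x + vz k) := fderiv_comp_add_right _
    rw [← h1]
    congr 1
    ext y
    exact hp k y)
  refine ⟨C, le_trans (norm_nonneg _) (hC 0), fun x y => ?_⟩
  have h := Convex.norm_image_sub_le_of_norm_fderiv_le (𝕜 := ℝ) (f := g) (s := univ)
    (fun z _ => (hc.differentiable (by simp)) z) (fun z _ => hC z) convex_univ (mem_univ y) (mem_univ x)
  simpa [Real.norm_eq_abs] using h

/-- the function `√(1 + a²) - a` -/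
theorem E7b_th01 {a : ℝ} (ha : 0 ≤ a) : 0 ≤ √(1 + a ^ 2) - a ∧ √(1 + a ^ 2) - a ≤ 1 ∧
    a * (√(1 + a ^ 2) - a) ≤ 1 := by
  have h0 : 0 ≤ √(1 + a ^ 2) := Real.sqrt_nonneg _
  have h1 : √(1 + a ^ 2) ^ 2 = 1 + a ^ 2 := Real.sq_sqrt (by positivity)
  have h2 : a ≤ √(1 + a ^ 2) := Real.le_sqrt_of_sq_le (by linarith)
  have h3 : √(1 + a ^ 2) ≤ 1 + a := by
    apply Real.sqrt_le_iff.2 ⟨by linarith, by nlinarith⟩
  refine ⟨by linarith, by linarith, ?_⟩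
  nlinarith

theorem E7b_thlip {a b : ℝ} (hb : 0 ≤ b) (hab : b ≤ a) :
    (1 + b ^ 2) * |(√(1 + a ^ 2) - a) - (√(1 + b ^ 2) - b)| ≤ a - b := by
  set S := √(1 + a ^ 2) with hS
  set T := √(1 + b ^ 2) with hT
  have hS0 : 0 ≤ S := Real.sqrt_nonneg _
  have hT0 : 0 ≤ T := Real.sqrt_nonneg _
  have hS1 : S ^ 2 = 1 + a ^ 2 := Real.sq_sqrt (by positivity)
  have hT1 : T ^ 2 = 1 + b ^ 2 := Real.sq_sqrt (by positivity)
  have hTS : T ≤ S := Real.sqrt_le_sqrt (by nlinarith)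
  have hbT : b ≤ T := Real.le_sqrt_of_sq_le (by linarith)
  have haS : a ≤ S := Real.le_sqrt_of_sq_le (by linarith)
  have hTpos : 0 < T := by
    have : (0 : ℝ) < T ^ 2 := by rw [hT1]; positivity
    exact lt_of_le_of_ne hT0 (fun h => by rw [← h] at this; simp at this)
  have hST : 0 < S + T := by linarith
  -- the difference
  have e1 : (S - T) * (S + T) = (a - b) * (a + b) := by nlinarith
  have e2 : ((T - b) - (S - a)) * (S + T) = (a - b) * ((S - a) + (T - b)) := by nlinarith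
  have hd0 : 0 ≤ (T - b) - (S - a) := by
    have : 0 ≤ ((T - b) - (S - a)) * (S + T) := by
      rw [e2]; exact mul_nonneg (by linarith) (by linarith)
    exact nonneg_of_mul_nonneg_left this hST
  have habs : |(S - a) - (T - b)| = (T - b) - (S - a) := by
    rw [abs_sub_comm, abs_of_nonneg hd0]
  rw [habs]
  -- (T - b) T ≤ 1
  have hTb : (T - b) * T ≤ 1 := by nlinarith
  have h5 : (1 + b ^ 2) * ((S - a) + (T - b)) ≤ S + T := by
    rw [← hT1]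
    have h6 : T ^ 2 * ((S - a) + (T - b)) ≤ T ^ 2 * (2 * (T - b)) := by
      apply mul_le_mul_of_nonneg_left (by linarith) (by positivity)
    have h7 : T ^ 2 * (2 * (T - b)) = 2 * T * ((T - b) * T) := by ring
    have h8 : 2 * T * ((T - b) * T) ≤ 2 * T * 1 := mul_le_mul_of_nonneg_left hTb (by linarith)
    linarith
  have h9 : (1 + b ^ 2) * ((T - b) - (S - a)) * (S + T) ≤ (a - b) * (S + T) := by
    calc (1 + b ^ 2) * ((T - b) - (S - a)) * (S + T) = (1 + b ^ 2) * (((T - b) - (S - a)) * (S + T)) := by ring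
      _ = (a - b) * ((1 + b ^ 2) * ((S - a) + (T - b))) := by rw [e2]; ring
      _ ≤ (a - b) * (S + T) := mul_le_mul_of_nonneg_left h5 (by linarith)
  exact le_of_mul_le_mul_right h9 hST

/-- the function `k v = v0 (√(1 + ‖v‖²) - ‖v‖)` -/
def E7b_k (v : Vec (n + 2)) : ℝ := v 0 * (√(1 + ‖v‖ ^ 2) - ‖v‖)

theorem E7b_coord (v : Vec (n + 2)) : |v 0| ≤ ‖v‖ := by
  simpa [Real.norm_eq_abs] using PiLp.norm_apply_le v 0

theorem E7b_kbd (v : Vec (n + 2)) : |E7b_k v| ≤ 1 := by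
  obtain ⟨h1, _, h3⟩ := E7b_th01 (norm_nonneg v)
  rw [E7b_k, abs_mul, abs_of_nonneg h1]
  exact le_trans (mul_le_mul_of_nonneg_right (E7b_coord v) h1) h3

theorem E7b_klip' {v w : Vec (n + 2)} (h : ‖w‖ ≤ ‖v‖) : |E7b_k v - E7b_k w| ≤ 2 * ‖v - w‖ := by
  have e : E7b_k v - E7b_k w = (v 0 - w 0) * (√(1 + ‖v‖ ^ 2) - ‖v‖) +
      w 0 * ((√(1 + ‖v‖ ^ 2) - ‖v‖) - (√(1 + ‖w‖ ^ 2) - ‖w‖)) := by
    simp only [E7b_k]; ring
  obtain ⟨h1, h2, _⟩ := E7b_th01 (norm_nonneg v)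
  have h4 := E7b_thlip (norm_nonneg w) h
  have h5 : |v 0 - w 0| ≤ ‖v - w‖ := by simpa using E7b_coord (v - w)
  have h6 := E7b_coord w
  have h7 : ‖v‖ - ‖w‖ ≤ ‖v - w‖ := norm_sub_norm_le v w
  rw [e]
  refine le_trans (abs_add_le _ _) ?_
  rw [abs_mul, abs_mul, abs_of_nonneg h1]
  have h8 : |v 0 - w 0| * (√(1 + ‖v‖ ^ 2) - ‖v‖) ≤ ‖v - w‖ * 1 :=
    mul_le_mul h5 h2 h1 (norm_nonneg _)
  set D := |(√(1 + ‖v‖ ^ 2) - ‖v‖) - (√(1 + ‖w‖ ^ 2) - ‖w‖)| with hD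
  have hD0 : 0 ≤ D := abs_nonneg _
  have h9 : |w 0| * D ≤ (1 + ‖w‖ ^ 2) * D := by
    apply mul_le_mul_of_nonneg_right _ hD0
    nlinarith [sq_nonneg (‖w‖ - 1), norm_nonneg w]
  linarith

theorem E7b_klip (v w : Vec (n + 2)) : |E7b_k v - E7b_k w| ≤ 2 * ‖v - w‖ := by
  rcases le_total ‖w‖ ‖v‖ with h | h
  · exact E7b_klip' h
  · rw [abs_sub_comm, norm_sub_rev]
    exact E7b_klip' h

/-- the coefficient -/
def E7b_c (A : ℝ) (X : Vec (n + 2)) : ℝ := wt A X * Real.sin (2 * Real.pi * X 1) / 4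

theorem E7b_diff (A : ℝ) (X v : Vec (n + 2)) : LL A X v - FF A X v ^ 2 / 2 = - (E7b_c A X * E7b_k v) := by
  simp only [LL, FF, E7b_c, E7b_k]; ring

theorem E7b_c_smooth (A : ℝ) : ContDiff ℝ ∞ (E7b_c A : Vec (n + 2) → ℝ) := by
  have hw : ContDiff ℝ ∞ (wt A : Vec (n + 2) → ℝ) := by
    have h1 : ContDiff ℝ ∞ (fun X : Vec (n + 2) => Real.smoothTransition (4 * (1 - hh X))) :=
      (Real.smoothTransition.contDiff (n := ⊤)).comp (contDiff_const.mul (contDiff_const.sub hh_smooth))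
    have h2 : ContDiff ℝ ∞ (fun X : Vec (n + 2) => Real.smoothTransition (8 * sz X - 1)) :=
      (Real.smoothTransition.contDiff (n := ⊤)).comp ((contDiff_const.mul sz_smooth).sub contDiff_const)
    exact (contDiff_const.add sz_smooth).add (contDiff_const.mul (h1.add h2))
  have hs : ContDiff ℝ ∞ (fun X : Vec (n + 2) => Real.sin (2 * Real.pi * X 1)) := by
    apply Real.contDiff_sin.comp
    apply contDiff_const.mul
    exact (EuclideanSpace.proj (𝕜 := ℝ) (1 : Fin (n + 2))).contDiff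
  exact (hw.mul hs).div_const _

theorem E7b_c_per (A : ℝ) (k : Fin (n + 2) → ℤ) (X : Vec (n + 2)) : E7b_c A (X + vz k) = E7b_c A X := by
  have hs : Real.sin (2 * Real.pi * (X + vz k) 1) = Real.sin (2 * Real.pi * X 1) := by
    have : 2 * Real.pi * (X + vz k) 1 = 2 * Real.pi * X 1 + (k 1 : ℝ) * (2 * Real.pi) := by
      simp [vz]; ring
    rw [this, Real.sin_add_int_mul_two_pi]
  simp only [E7b_c, wt, hh_per, sz_per, hs]

theorem model_near {A : ℝ} (hA : 0 ≤ A) : ∃ C : ℝ, ∀ X v X' v' : Vec (n + 2),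
    |(LL A X v - FF A X v ^ 2 / 2) - (LL A X' v' - FF A X' v' ^ 2 / 2)| ≤
      C * (‖v - v'‖ + (1 + ‖v‖) * ‖X - X'‖) := by
  obtain ⟨C1, hC1⟩ := E7b_bdd (E7b_c_smooth (n := n) A).continuous (E7b_c_per A)
  obtain ⟨C2, hC20, hC2⟩ := E7b_lip (E7b_c_smooth (n := n) A) (E7b_c_per A)
  have hC10 : 0 ≤ C1 := le_trans (norm_nonneg _) (hC1 0)
  refine ⟨2 * C1 + C2, fun X v X' v' => ?_⟩
  rw [E7b_diff, E7b_diff]
  have e : -(E7b_c A X * E7b_k v) - -(E7b_c A X' * E7b_k v') =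
      - (E7b_c A X * (E7b_k v - E7b_k v')) - (E7b_c A X - E7b_c A X') * E7b_k v' := by ring
  rw [e]
  have h1 : |E7b_c A X * (E7b_k v - E7b_k v')| ≤ C1 * (2 * ‖v - v'‖) := by
    rw [abs_mul]
    exact mul_le_mul (hC1 X) (E7b_klip v v') (abs_nonneg _) hC10
  have h2 : |(E7b_c A X - E7b_c A X') * E7b_k v'| ≤ (C2 * ‖X - X'‖) * 1 := by
    rw [abs_mul]
    exact mul_le_mul (hC2 X X') (E7b_kbd v') (abs_nonneg _) (mul_nonneg hC20 (norm_nonneg _))
  refine le_trans (abs_sub _ _) ?_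
  rw [abs_neg]
  have h3 : 0 ≤ C1 * ((1 + ‖v‖) * ‖X - X'‖) := by positivity
  have h4 : 0 ≤ C2 * ‖v - v'‖ := by positivity
  have h5 : 0 ≤ C2 * (‖v‖ * ‖X - X'‖) := by positivity
  nlinarith

end EscW.Ex
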