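import Pool.Agent.EscW.E7a
import Pool.Agent.EscW.E7b

set_option autoImplicit false

/-!
Project EscW, part E, module E7: the model metric and Lagrangian.
`isCut_Psi`: `Psi X ≠ 0` implies `5/16 < hh X`, `sz X < 11/16`; so on the closure `5/16 ≤ hh X`, `sz X ≤ 11/16`.
`model`: `convL`, `nearL`: E7a, E7b. `posF`: `FF_ge`. `smL`: `1 + ‖v‖² > 0`.
`invF`, `invL`: `P = PP`: `‖P v‖ = ‖v‖`, `sin (2π (P X) 1) (P v) 0 = sin (2πX 1) v 0`, `wt (P X) = wt X`.
-/

noncomputable section

namespace EscW.Ex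

open Filter Topology Set EscF.T EscM EscMT MeasureTheory
open scoped ContDiff

variable {d m n : ℕ}

theorem E7_st : ContDiff ℝ ∞ Real.smoothTransition := Real.smoothTransition.contDiff

theorem E7_sin (k : Fin (n + 2) → ℤ) (X : Vec (n + 2)) :
    Real.sin (2 * Real.pi * (X + vz k) 1) = Real.sin (2 * Real.pi * X 1) := by
  have h : 2 * Real.pi * (X + vz k) 1 = 2 * Real.pi * X 1 + (k 1 : ℤ) * (2 * Real.pi) := by
    have h1 : (X + vz k) 1 = X 1 + (k 1 : ℝ) := rfl
    rw [h1]
    ring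
  rw [h, Real.sin_add_int_mul_two_pi]

theorem E7_wt_per (A : ℝ) (k : Fin (n + 2) → ℤ) (X : Vec (n + 2)) : wt A (X + vz k) = wt A X := by
  unfold wt
  rw [hh_per, sz_per]

theorem E7_wt_P (A : ℝ) {P : Vec (n + 2) ≃ₗᵢ[ℝ] Vec (n + 2)} (hP : P ∈ GG n) (X : Vec (n + 2)) :
    wt A (P X) = wt A X := by
  unfold wt
  rw [hh_P P hP, sz_P P hP]

theorem E7_wt_smooth (A : ℝ) : ContDiff ℝ ∞ (wt A : Vec (n + 2) → ℝ) := by
  unfold wt
  have h1 : ContDiff ℝ ∞ (fun X : Vec (n + 2) => Real.smoothTransition (4 * (1 - hh X))) :=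
    E7_st.comp (contDiff_const.mul (contDiff_const.sub hh_smooth))
  have h2 : ContDiff ℝ ∞ (fun X : Vec (n + 2) => Real.smoothTransition (8 * sz X - 1)) :=
    E7_st.comp ((contDiff_const.mul sz_smooth).sub contDiff_const)
  exact (contDiff_const.add sz_smooth).add (contDiff_const.mul (h1.add h2))

theorem E7_coord (i : Fin (n + 2)) : ContDiff ℝ ∞ (fun X : Vec (n + 2) => X i) :=
  (EuclideanSpace.proj i : Vec (n + 2) →L[ℝ] ℝ).contDiff

theorem E7_two : (2 : WithTop ℕ∞) ≤ ((⊤ : ℕ∞) : WithTop ℕ∞) := by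
  have h : (((2 : ℕ∞)) : WithTop ℕ∞) ≤ ((⊤ : ℕ∞) : WithTop ℕ∞) := WithTop.coe_le_coe.2 le_top
  exact h

theorem E7_sin_smooth : ContDiff ℝ ∞ (fun X : Vec (n + 2) => Real.sin (2 * Real.pi * X 1)) :=
  Real.contDiff_sin.comp (contDiff_const.mul (E7_coord 1))

/-- the group acts on the product of the sine and the first velocity -/
theorem E7_sign {P : Vec (n + 2) ≃ₗᵢ[ℝ] Vec (n + 2)} (hP : P ∈ GG n) : ∃ e : ℝ, e * e = 1 ∧
    (∀ X : Vec (n + 2), Real.sin (2 * Real.pi * (P X) 1) = e * Real.sin (2 * Real.pi * X 1)) ∧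
      ∀ v : Vec (n + 2), (P v) 0 = e * v 0 := by
  rcases (mem_GG P).1 hP with rfl | rfl
  · refine ⟨1, by norm_num, fun X => ?_, fun v => ?_⟩
    · rw [one_mul]
      rfl
    · rw [one_mul]
      rfl
  · refine ⟨-1, by norm_num, fun X => ?_, fun v => ?_⟩
    · rw [PP_apply, if_pos (Or.inr rfl), mul_neg, Real.sin_neg]
      ring
    · rw [PP_apply, if_pos (Or.inl rfl)]
      ring

theorem model {A : ℝ} (hA : 0 ≤ A) : Model (GG n) (FF A) (LL A) where
  contF := by
    unfold FF
    have h1 : Continuous fun p : Vec (n + 2) × Vec (n + 2) => wt A p.1 :=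
      (E7_wt_smooth A).continuous.comp continuous_fst
    have h2 : Continuous fun p : Vec (n + 2) × Vec (n + 2) => Real.sin (2 * Real.pi * p.1 1) :=
      E7_sin_smooth.continuous.comp continuous_fst
    have h3 : Continuous fun p : Vec (n + 2) × Vec (n + 2) => p.2 0 :=
      (E7_coord 0).continuous.comp continuous_snd
    exact (h1.mul (continuous_norm.comp continuous_snd)).sub ((h2.div_const 4).mul h3)
  perF k x v := by
    unfold FF
    rw [E7_wt_per, E7_sin]
  homF x v c hc := by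
    unfold FF
    rw [norm_smul, Real.norm_of_nonneg hc]
    have h1 : (c • v) 0 = c * v 0 := rfl
    rw [h1]
    ring
  posF x v hv := (norm_pos_iff.2 hv).trans_le (FF_ge hA x v)
  smL := by
    unfold LL
    have h1 : ContDiff ℝ ∞ fun p : Vec (n + 2) × Vec (n + 2) => wt A p.1 :=
      (E7_wt_smooth A).comp contDiff_fst
    have h2 : ContDiff ℝ ∞ fun p : Vec (n + 2) × Vec (n + 2) => Real.sin (2 * Real.pi * p.1 1) :=
      E7_sin_smooth.comp contDiff_fst
    have h3 : ContDiff ℝ ∞ fun p : Vec (n + 2) × Vec (n + 2) => p.2 0 :=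
      (E7_coord 0).comp contDiff_snd
    have h4 : ContDiff ℝ ∞ fun p : Vec (n + 2) × Vec (n + 2) => ‖p.2‖ ^ 2 :=
      (contDiff_norm_sq ℝ).comp contDiff_snd
    have h5 : ContDiff ℝ ∞ fun p : Vec (n + 2) × Vec (n + 2) => √(1 + ‖p.2‖ ^ 2) :=
      (contDiff_const.add h4).sqrt fun p => by positivity
    have h6 : ContDiff ℝ ∞ fun p : Vec (n + 2) × Vec (n + 2) =>
        (wt A p.1 ^ 2 * ‖p.2‖ ^ 2 - wt A p.1 * Real.sin (2 * Real.pi * p.1 1) / 2 *
          √(1 + ‖p.2‖ ^ 2) * p.2 0 + (Real.sin (2 * Real.pi * p.1 1) / 4 * p.2 0) ^ 2) / 2 :=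
      ((((h1.pow 2).mul h4).sub ((((h1.mul h2).div_const 2).mul h5).mul h3)).add
        (((h2.div_const 4).mul h3).pow 2)).div_const 2
    exact h6.of_le E7_two
  perL k x v := by
    unfold LL
    rw [E7_wt_per, E7_sin]
  convL := model_conv hA
  nearL := model_near hA
  invF P hP x v := by
    obtain ⟨e, he, h1, h2⟩ := E7_sign hP
    unfold FF
    rw [E7_wt_P A hP, P.norm_map, h1, h2]
    linear_combination (-(Real.sin (2 * Real.pi * x 1) / 4 * v 0)) * he
  invL P hP x v := by
    obtain ⟨e, he, h1, h2⟩ := E7_sign hP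
    unfold LL
    rw [E7_wt_P A hP, P.norm_map, h1, h2]
    have h3 : (e * Real.sin (2 * Real.pi * x 1) / 4 * (e * v 0)) ^ 2 =
        (Real.sin (2 * Real.pi * x 1) / 4 * v 0) ^ 2 := by
      have h4 : e * Real.sin (2 * Real.pi * x 1) / 4 * (e * v 0) =
          Real.sin (2 * Real.pi * x 1) / 4 * v 0 := by
        linear_combination (Real.sin (2 * Real.pi * x 1) / 4 * v 0) * he
      rw [h4]
    rw [h3]
    linear_combination (-(wt A x * Real.sin (2 * Real.pi * x 1) / 2 * √(1 + ‖v‖ ^ 2) * v 0) / 2) * he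

theorem isCut_Psi : IsCut (OO n (1 / 4) (3 / 4)) (GG n) Psi where
  smooth := by
    unfold Psi
    exact (E7_st.comp ((contDiff_const.mul hh_smooth).sub contDiff_const)).mul
      (E7_st.comp (contDiff_const.sub (contDiff_const.mul sz_smooth)))
  per k x := by
    unfold Psi
    rw [hh_per, sz_per]
  inv P hP x := by
    unfold Psi
    rw [hh_P P hP, sz_P P hP]
  mem01 x := by
    unfold Psi
    exact ⟨mul_nonneg (Real.smoothTransition.nonneg _) (Real.smoothTransition.nonneg _),
      mul_le_one₀ (Real.smoothTransition.le_one _) (Real.smoothTransition.nonneg _)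
        (Real.smoothTransition.le_one _)⟩
  supp := by
    have hcl : IsClosed {X : Vec (n + 2) | 5 / 16 ≤ hh X ∧ sz X ≤ 11 / 16} :=
      (isClosed_le continuous_const hh_smooth.continuous).inter
        (isClosed_le sz_smooth.continuous continuous_const)
    have hsub : Function.support (Psi : Vec (n + 2) → ℝ) ⊆ {X | 5 / 16 ≤ hh X ∧ sz X ≤ 11 / 16} := by
      intro X hX
      rw [Function.mem_support] at hX
      unfold Psi at hX
      constructor
      · by_contra h
        exact hX (by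
          rw [Real.smoothTransition.zero_of_nonpos (x := 16 * hh X - 5) (by linarith [not_le.1 h]),
            zero_mul])
      · by_contra h
        exact hX (by
          rw [Real.smoothTransition.zero_of_nonpos (x := 11 - 16 * sz X) (by linarith [not_le.1 h]),
            mul_zero])
    intro X hX
    have h := closure_minimal hsub hcl hX
    exact ⟨by linarith [h.1], by linarith [h.2]⟩

theorem Psi_one : ∀ X ∈ OO n (3 / 8) (5 / 8), Psi X = 1 := by
  rintro X ⟨h1, h2⟩
  unfold Psi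
  rw [Real.smoothTransition.one_of_one_le (by linarith), Real.smoothTransition.one_of_one_le
    (by linarith), mul_one]

end EscW.Ex
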