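import Pool.Agent.EscW.E1

set_option autoImplicit false

/-!
Project EscW, part E, module E7a: the model metric and Lagrangian: bounds, convexity.
`wt_ge`: `0 ≤ sz`, `0 ≤ smoothTransition`. `FF_ge`: `wt ‖v‖ - |v 0|/4`, `|v 0| ≤ ‖v‖`.
`m v = √(1 + ‖v‖²) v 0`: second derivative `D²m(w,w) = 2 w0 ⟪v,w⟫/√(1+‖v‖²) + v0 (‖w‖² (1+‖v‖²) - ⟪v,w⟫²)/(1+‖v‖²)^(3/2)`, bounded by `3 ‖w‖²`.
(The second derivative in direction `w` is the second derivative of `τ ↦ m (v + τ w)` at `0`: for `f` of class `C²`,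
`iteratedFDeriv ℝ 2 f v ![w, w] = fderiv ℝ (fderiv ℝ f) v w w = deriv (deriv fun τ => f (v + τ w)) 0`.)
Convexity: `D²LL(w,w) = wt² ‖w‖² - (wt s/4) D²m(w,w) + (s/4)² w0²`, `s = sin (2πX 1)`, `≥ wt (wt - 3/4) ‖w‖² ≥ (5/8) ‖w‖²`.
-/

noncomputable section

namespace EscW.Ex

open Filter Topology Set EscF.T EscM EscMT MeasureTheory
open scoped ContDiff

variable {d m n : ℕ}

theorem wt_ge {A : ℝ} (hA : 0 ≤ A) (X : Vec (n + 2)) : 5 / 4 + sz X + A * (Real.smoothTransition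
    (4 * (1 - hh X)) + Real.smoothTransition (8 * sz X - 1)) = wt A X ∧ 5 / 4 ≤ wt A X := by
  refine ⟨rfl, ?_⟩
  have h1 := sz_nonneg X
  have h2 := Real.smoothTransition.nonneg (4 * (1 - hh X))
  have h3 := Real.smoothTransition.nonneg (8 * sz X - 1)
  have h4 := mul_nonneg hA (add_nonneg h2 h3)
  unfold wt
  linarith

theorem E7a_apply_le (v : Vec (n + 2)) (i : Fin (n + 2)) : |v i| ≤ ‖v‖ := by
  have h := PiLp.norm_apply_le v i
  rwa [Real.norm_eq_abs] at h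

theorem FF_ge {A : ℝ} (hA : 0 ≤ A) (X v : Vec (n + 2)) : ‖v‖ ≤ FF A X v := by
  have h1 := (wt_ge hA X).2
  have h2 := E7a_apply_le v 0
  have h3 := Real.abs_sin_le_one (2 * Real.pi * X 1)
  have h4 : |Real.sin (2 * Real.pi * X 1) / 4 * v 0| ≤ ‖v‖ / 4 := by
    rw [abs_mul, abs_div, abs_of_pos (by norm_num : (0:ℝ) < 4)]
    have h5 : |Real.sin (2 * Real.pi * X 1)| * |v 0| ≤ 1 * ‖v‖ :=
      mul_le_mul h3 h2 (abs_nonneg _) zero_le_one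
    calc |Real.sin (2 * Real.pi * X 1)| / 4 * |v 0| =
        |Real.sin (2 * Real.pi * X 1)| * |v 0| / 4 := by ring
      _ ≤ 1 * ‖v‖ / 4 := by gcongr
      _ = ‖v‖ / 4 := by ring
  have h5 := (abs_le.mp h4).2
  have h6 : 5 / 4 * ‖v‖ ≤ wt A X * ‖v‖ := mul_le_mul_of_nonneg_right h1 (norm_nonneg v)
  unfold FF
  linarith

/-- the second derivative along a line -/
theorem E7a_line {f : Vec m → ℝ} (hf : ContDiff ℝ 2 f) (v w : Vec m) {g1 : ℝ → ℝ} {g2 : ℝ}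
    (h1 : ∀ τ, HasDerivAt (fun τ : ℝ => f (v + τ • w)) (g1 τ) τ) (h2 : HasDerivAt g1 g2 0) :
    iteratedFDeriv ℝ 2 f v ![w, w] = g2 := by
  have hl : ∀ τ : ℝ, HasDerivAt (fun τ : ℝ => v + τ • w) w τ := by
    intro τ
    have := ((hasDerivAt_id τ).smul_const w).const_add v
    simpa using this
  have e1 : g1 = fun τ => fderiv ℝ f (v + τ • w) w := by
    funext τ
    refine (h1 τ).unique ?_
    exact (hf.differentiable (by norm_num) (v + τ • w)).hasFDerivAt.comp_hasDerivAt τ (hl τ)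
  have hf' : ContDiff ℝ 1 (fderiv ℝ f) := hf.fderiv_right (by norm_num)
  have h3 : HasDerivAt (fun τ : ℝ => fderiv ℝ f (v + τ • w))
      (fderiv ℝ (fderiv ℝ f) (v + (0:ℝ) • w) w) 0 :=
    (hf'.differentiable (by norm_num) (v + (0:ℝ) • w)).hasFDerivAt.comp_hasDerivAt 0 (hl 0)
  have h4 := h3.clm_apply (hasDerivAt_const (0:ℝ) w)
  rw [e1] at h2
  have h5 := h2.unique h4
  rw [iteratedFDeriv_two_apply]
  simp only [zero_smul, add_zero, map_zero] at h5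
  rw [h5]
  rfl

theorem E7a_smooth (A : ℝ) (X : Vec (n + 2)) : ContDiff ℝ 2 (LL A X) := by
  have h0 : ContDiff ℝ 2 (fun v : Vec (n + 2) => v 0) :=
    (EuclideanSpace.proj (𝕜 := ℝ) (0 : Fin (n + 2)) : Vec (n + 2) →L[ℝ] ℝ).contDiff
  have h1 : ContDiff ℝ 2 (fun v : Vec (n + 2) => ‖v‖ ^ 2) := contDiff_norm_sq ℝ
  have h2 : ContDiff ℝ 2 (fun v : Vec (n + 2) => √(1 + ‖v‖ ^ 2)) :=
    (contDiff_const.add h1).sqrt fun v => by positivity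
  unfold LL
  exact (((contDiff_const.mul h1).sub ((contDiff_const.mul h2).mul h0)).add
    ((contDiff_const.mul h0).pow 2)).div_const 2

/-- the real function -/
theorem E7a_real (W s α β γ a b : ℝ) (hp : ∀ τ : ℝ, 0 < 1 + α + 2 * β * τ + γ * τ ^ 2) :
    (∀ τ : ℝ, HasDerivAt (fun τ : ℝ => (W ^ 2 * (α + 2 * β * τ + γ * τ ^ 2) -
        W * s / 2 * √(1 + α + 2 * β * τ + γ * τ ^ 2) * (a + τ * b) + (s / 4 * (a + τ * b)) ^ 2) / 2)
      ((W ^ 2 * (2 * β + 2 * γ * τ) - W * s / 2 * ((β + γ * τ) / √(1 + α + 2 * β * τ + γ * τ ^ 2) *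
        (a + τ * b) + √(1 + α + 2 * β * τ + γ * τ ^ 2) * b) +
          2 * (s / 4 * (a + τ * b)) * (s / 4 * b)) / 2) τ) ∧
    HasDerivAt (fun τ : ℝ => (W ^ 2 * (2 * β + 2 * γ * τ) -
        W * s / 2 * ((β + γ * τ) / √(1 + α + 2 * β * τ + γ * τ ^ 2) *
        (a + τ * b) + √(1 + α + 2 * β * τ + γ * τ ^ 2) * b) +
          2 * (s / 4 * (a + τ * b)) * (s / 4 * b)) / 2)
      (W ^ 2 * γ - W * s / 4 * ((γ * √(1 + α) - β * (β / √(1 + α))) / √(1 + α) ^ 2 * a +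
        β / √(1 + α) * b + β / √(1 + α) * b) + (s / 4 * b) ^ 2) 0 := by
  have hquad : ∀ τ : ℝ, HasDerivAt (fun τ : ℝ => γ * τ ^ 2) (γ * (2 * τ)) τ := by
    intro τ
    simpa using (hasDerivAt_pow 2 τ).const_mul γ
  have hpd : ∀ τ : ℝ, HasDerivAt (fun τ : ℝ => 1 + α + 2 * β * τ + γ * τ ^ 2)
      (2 * β + 2 * γ * τ) τ := by
    intro τ
    have h1 : HasDerivAt (fun τ : ℝ => 1 + α + 2 * β * τ) (2 * β) τ := by
      simpa using ((hasDerivAt_id τ).const_mul (2 * β)).const_add (1 + α)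
    exact (h1.fun_add (hquad τ)).congr_deriv (by ring)
  have hpd' : ∀ τ : ℝ, HasDerivAt (fun τ : ℝ => α + 2 * β * τ + γ * τ ^ 2)
      (2 * β + 2 * γ * τ) τ := by
    intro τ
    have h1 : HasDerivAt (fun τ : ℝ => α + 2 * β * τ) (2 * β) τ := by
      simpa using ((hasDerivAt_id τ).const_mul (2 * β)).const_add α
    exact (h1.fun_add (hquad τ)).congr_deriv (by ring)
  have hq : ∀ τ : ℝ, HasDerivAt (fun τ : ℝ => √(1 + α + 2 * β * τ + γ * τ ^ 2))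
      ((β + γ * τ) / √(1 + α + 2 * β * τ + γ * τ ^ 2)) τ := by
    intro τ
    have h2 : √(1 + α + 2 * β * τ + γ * τ ^ 2) ≠ 0 := (Real.sqrt_pos.mpr (hp τ)).ne'
    exact ((hpd τ).sqrt (hp τ).ne').congr_deriv (by field_simp)
  have hab : ∀ τ : ℝ, HasDerivAt (fun τ : ℝ => a + τ * b) b τ := by
    intro τ
    simpa using ((hasDerivAt_id τ).mul_const b).const_add a
  have hbg : ∀ τ : ℝ, HasDerivAt (fun τ : ℝ => β + γ * τ) γ τ := by
    intro τ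
    simpa using ((hasDerivAt_id τ).const_mul γ).const_add β
  constructor
  · intro τ
    have h1 := ((((hpd' τ).const_mul (W ^ 2)).fun_sub
      (((hq τ).const_mul (W * s / 2)).fun_mul (hab τ))).fun_add
      (((hab τ).const_mul (s / 4)).fun_pow 2)).div_const 2
    exact h1.congr_deriv (by push_cast; ring)
  · have hq0 : √(1 + α + 2 * β * 0 + γ * 0 ^ 2) = √(1 + α) := by
      congr 1
      ring
    have hpos : √(1 + α) ≠ 0 := by
      have h0 := hp 0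
      have h1 : 1 + α + 2 * β * 0 + γ * 0 ^ 2 = 1 + α := by ring
      rw [h1] at h0
      exact (Real.sqrt_pos.mpr h0).ne'
    have h1 : HasDerivAt (fun τ : ℝ => W ^ 2 * (2 * β + 2 * γ * τ)) (W ^ 2 * (2 * γ)) 0 := by
      have h6 : HasDerivAt (fun τ : ℝ => 2 * β + 2 * γ * τ) (2 * γ) 0 := by
        simpa using ((hasDerivAt_id (0:ℝ)).const_mul (2 * γ)).const_add (2 * β)
      exact h6.const_mul (W ^ 2)
    have h2 := ((hbg 0).fun_div (hq 0) (by rw [hq0]; exact hpos)).fun_mul (hab 0)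
    have h3 := (hq 0).mul_const b
    have h4 := (((hab 0).const_mul (s / 4)).const_mul 2).mul_const (s / 4 * b)
    have h5 := ((h1.fun_sub ((h2.fun_add h3).const_mul (W * s / 2))).fun_add h4).div_const 2
    refine h5.congr_deriv ?_
    rw [hq0]
    ring

/-- the bound of the second derivative of `√(1 + ‖v‖²) v 0` -/
theorem E7a_bound {q β γ a b nv nw : ℝ} (hq : 0 < q) (hv : 0 ≤ nv) (hw : 0 ≤ nw) (hvq : nv ≤ q)
    (hγ : γ = nw ^ 2) (ha : |a| ≤ nv) (hb : |b| ≤ nw) (hβ : |β| ≤ nv * nw) :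
    |(γ * q - β * (β / q)) / q ^ 2 * a + β / q * b + β / q * b| ≤ 3 * γ := by
  have h1 : |β| ≤ q * nw := hβ.trans (mul_le_mul_of_nonneg_right hvq hw)
  have h2 : |β / q| ≤ nw := by
    rw [abs_div, abs_of_pos hq, div_le_iff₀ hq]
    linarith
  have h3 : |β / q * b| ≤ γ := by
    rw [abs_mul, hγ, sq]
    exact mul_le_mul h2 hb (abs_nonneg _) hw
  have h4 : (γ * q - β * (β / q)) / q ^ 2 * a = (γ - (β / q) ^ 2) * (a / q) := by
    field_simp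
  have h5 : |γ - (β / q) ^ 2| ≤ γ := by
    have h6 : (β / q) ^ 2 ≤ nw ^ 2 := by
      rw [← sq_abs]
      exact pow_le_pow_left₀ (abs_nonneg _) h2 2
    rw [abs_le]
    constructor
    · have : 0 ≤ γ := by rw [hγ]; positivity
      linarith
    · have := sq_nonneg (β / q)
      linarith
  have h6 : |a / q| ≤ 1 := by
    rw [abs_div, abs_of_pos hq, div_le_one hq]
    exact ha.trans hvq
  have h7 : |(γ * q - β * (β / q)) / q ^ 2 * a| ≤ γ := by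
    rw [h4, abs_mul]
    calc |γ - (β / q) ^ 2| * |a / q| ≤ γ * 1 :=
          mul_le_mul h5 h6 (abs_nonneg _) (by rw [hγ]; positivity)
      _ = γ := mul_one γ
  have h8 := abs_add_three ((γ * q - β * (β / q)) / q ^ 2 * a) (β / q * b) (β / q * b)
  linarith

theorem model_conv {A : ℝ} (hA : 0 ≤ A) : ∃ c : ℝ, 0 < c ∧ ∀ X v w : Vec (n + 2),
    c * ‖w‖ ^ 2 ≤ iteratedFDeriv ℝ 2 (LL A X) v ![w, w] := by
  refine ⟨5 / 8, by norm_num, fun X v w => ?_⟩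
  obtain ⟨W, hW⟩ : ∃ W, wt A X = W := ⟨_, rfl⟩
  obtain ⟨s, hs⟩ : ∃ s, Real.sin (2 * Real.pi * X 1) = s := ⟨_, rfl⟩
  have hW1 : 5 / 4 ≤ W := hW ▸ (wt_ge hA X).2
  have hs1 : |s| ≤ 1 := hs ▸ Real.abs_sin_le_one _
  have hnorm : ∀ τ : ℝ, ‖v + τ • w‖ ^ 2 = ‖v‖ ^ 2 + 2 * inner ℝ v w * τ + ‖w‖ ^ 2 * τ ^ 2 := by
    intro τ
    rw [norm_add_sq_real, inner_smul_right, norm_smul, mul_pow, Real.norm_eq_abs, sq_abs]
    ring
  have hp : ∀ τ : ℝ, 0 < 1 + ‖v‖ ^ 2 + 2 * inner ℝ v w * τ + ‖w‖ ^ 2 * τ ^ 2 := by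
    intro τ
    have h1 := hnorm τ
    have h2 := sq_nonneg ‖v + τ • w‖
    linarith
  obtain ⟨h1, h2⟩ := E7a_real W s (‖v‖ ^ 2) (inner ℝ v w) (‖w‖ ^ 2) (v 0) (w 0) hp
  have hf : (fun τ : ℝ => LL A X (v + τ • w)) = fun τ : ℝ =>
      (W ^ 2 * (‖v‖ ^ 2 + 2 * inner ℝ v w * τ + ‖w‖ ^ 2 * τ ^ 2) -
        W * s / 2 * √(1 + ‖v‖ ^ 2 + 2 * inner ℝ v w * τ + ‖w‖ ^ 2 * τ ^ 2) * (v 0 + τ * w 0) +
          (s / 4 * (v 0 + τ * w 0)) ^ 2) / 2 := by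
    funext τ
    have e1 : (v + τ • w) 0 = v 0 + τ * w 0 := by simp
    have e2 : 1 + ‖v + τ • w‖ ^ 2 = 1 + ‖v‖ ^ 2 + 2 * inner ℝ v w * τ + ‖w‖ ^ 2 * τ ^ 2 := by
      rw [hnorm τ]
      ring
    unfold LL
    rw [e2, hnorm τ, hW, hs, e1]
  have h3 := E7a_line (E7a_smooth A X) v w (fun τ => by rw [hf]; exact h1 τ) h2
  rw [h3]
  have hq : 0 < √(1 + ‖v‖ ^ 2) := Real.sqrt_pos.mpr (by positivity)
  have hvq : ‖v‖ ≤ √(1 + ‖v‖ ^ 2) := Real.le_sqrt_of_sq_le (by linarith)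
  have h4 := E7a_bound hq (norm_nonneg v) (norm_nonneg w) hvq rfl (E7a_apply_le v 0)
    (E7a_apply_le w 0) (abs_real_inner_le_norm v w)
  obtain ⟨Y, hY⟩ : ∃ Y, (‖w‖ ^ 2 * √(1 + ‖v‖ ^ 2) - inner ℝ v w * (inner ℝ v w / √(1 + ‖v‖ ^ 2))) /
      √(1 + ‖v‖ ^ 2) ^ 2 * v 0 + inner ℝ v w / √(1 + ‖v‖ ^ 2) * w 0 +
      inner ℝ v w / √(1 + ‖v‖ ^ 2) * w 0 = Y := ⟨_, rfl⟩
  rw [hY] at h4 ⊢
  have h5 : |W * s / 4 * Y| ≤ W * (3 / 4) * ‖w‖ ^ 2 := by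
    have h6 : |W * s / 4| ≤ W / 4 := by
      rw [abs_div, abs_mul, abs_of_pos (by linarith : (0:ℝ) < W), abs_of_pos (by norm_num : (0:ℝ) < 4)]
      have : W * |s| ≤ W * 1 := mul_le_mul_of_nonneg_left hs1 (by linarith)
      linarith
    rw [abs_mul]
    calc |W * s / 4| * |Y| ≤ W / 4 * (3 * ‖w‖ ^ 2) :=
          mul_le_mul h6 h4 (abs_nonneg _) (by linarith)
      _ = W * (3 / 4) * ‖w‖ ^ 2 := by ring
  have h6 := (abs_le.mp h5).2
  have h7 : 5 / 8 * ‖w‖ ^ 2 ≤ W * (W - 3 / 4) * ‖w‖ ^ 2 := by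
    apply mul_le_mul_of_nonneg_right _ (sq_nonneg _)
    nlinarith
  have h8 := sq_nonneg (s / 4 * w 0)
  have h9 : W * (W - 3 / 4) * ‖w‖ ^ 2 = W ^ 2 * ‖w‖ ^ 2 - W * (3 / 4) * ‖w‖ ^ 2 := by ring
  linarith

end EscW.Ex
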