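import Pool.Agent.EscW.EEDefs

set_option autoImplicit false

/-!
Project EscW, part E, module E8b: push forward away from the support.
The set `φ (tsupport Ψ) + ℤᵈ` is closed: `tsupport Ψ` is invariant under integer vectors, `φ` too, so
`φ (tsupport Ψ) = φ (tsupport Ψ ∩ unit cube)`, compact, and compact plus closed is closed. Outside of it, if
`w = φ x + vz l` for `x ∈ O` then `Ψ x = 0`.
-/

noncomputable section

namespace EscW.Ex

open Filter Topology Set EscF.T EscM EscMT MeasureTheory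
open scoped ContDiff Pointwise

variable {d m n : ℕ}

theorem E8b_closed_range : IsClosed (range (vz : (Fin d → ℤ) → Vec d)) := by
  have h : range (vz : (Fin d → ℤ) → Vec d) = ⋂ i : Fin d, (fun x : Vec d => x i) ⁻¹' range ((↑) : ℤ → ℝ) := by
    ext x
    simp only [mem_range, mem_iInter, mem_preimage]
    constructor
    · rintro ⟨k, rfl⟩ i
      exact ⟨k i, rfl⟩
    · intro hx
      choose k hk using hx
      refine ⟨k, ?_⟩
      ext i
      exact hk i
  rw [h]
  exact isClosed_iInter fun i => Int.isClosedEmbedding_coe_real.isClosed_range.preimage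
    (by fun_prop)

theorem E8b_compact_cube : IsCompact {x : Vec m | ∀ i, 0 ≤ x i ∧ x i ≤ 1} := by
  refine Metric.isCompact_of_isClosed_isBounded ?_ ?_
  · have h : {x : Vec m | ∀ i, 0 ≤ x i ∧ x i ≤ 1} = ⋂ i : Fin m, (fun x : Vec m => x i) ⁻¹' Icc 0 1 := by
      ext x
      simp
    rw [h]
    exact isClosed_iInter fun i => isClosed_Icc.preimage (by fun_prop)
  · rw [isBounded_iff_forall_norm_le]
    refine ⟨√(m : ℝ), fun x hx => ?_⟩
    rw [EuclideanSpace.norm_eq]
    refine Real.sqrt_le_sqrt ?_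
    calc ∑ i, ‖x i‖ ^ 2 ≤ ∑ _i : Fin m, (1 : ℝ) := by
          refine Finset.sum_le_sum fun i _ => ?_
          have h1 := hx i
          rw [Real.norm_eq_abs, sq_abs]
          nlinarith [h1.1, h1.2]
      _ = m := by simp

theorem push_off {M : Sub d} {O : Set (Vec m)} {G : Subgroup (Vec m ≃ₗᵢ[ℝ] Vec m)} {φ : Vec m → Vec d}
    (hc : IsChart M (tor m) O G φ) (hp : ∀ (k : Fin m → ℤ), ∀ x ∈ O, φ (x + vz k) = φ x)
    {Ψ : Vec m → ℝ} (hΨ : IsCut O G Ψ) {w0 : Vec d}
    (hw : ∀ x ∈ tsupport Ψ, ∀ l : Fin d → ℤ, w0 ≠ φ x + vz l) :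
    ∃ W : Set (Vec d), IsOpen W ∧ w0 ∈ W ∧ ∀ w ∈ W, ∀ (u : Vec d) (g : Vec m → Vec m → ℝ),
      push φ O (fun x v => Ψ x * g x v) w u = 0 := by
  set K : Set (Vec m) := {x : Vec m | ∀ i, 0 ≤ x i ∧ x i ≤ 1} ∩ tsupport Ψ with hK
  have hKc : IsCompact K := E8b_compact_cube.inter_right (isClosed_tsupport Ψ)
  have hKO : K ⊆ O := inter_subset_right.trans hΨ.supp
  have hS : IsClosed (φ '' K + range (vz : (Fin d → ℤ) → Vec d)) :=
    E8b_closed_range.add_left_of_isCompact (hKc.image_of_continuousOn (hc.smooth.continuousOn.mono hKO))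
  refine ⟨(φ '' K + range (vz : (Fin d → ℤ) → Vec d))ᶜ, hS.isOpen_compl, ?_, ?_⟩
  · rintro ⟨a, ⟨x, hx, rfl⟩, b, ⟨l, rfl⟩, hab⟩
    exact hw x hx.2 l hab.symm
  · intro w hwW u g
    unfold push
    split_ifs with h
    · have hpt : pt φ O w = h.choose := by
        unfold pt
        rw [dif_pos h]
      obtain ⟨hxO, l, hl⟩ := h.choose_spec
      rw [← hpt] at hxO hl
      have h0 : Ψ (pt φ O w) = 0 := by
        by_contra hne
        apply hwW
        set x := pt φ O w with hx
        refine ⟨φ (x + vz (fun i => -⌊x i⌋)), ⟨_, ⟨?_, ?_⟩, rfl⟩, vz l, ⟨l, rfl⟩, ?_⟩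
        · intro i
          have h1 : (x + vz (fun i => -⌊x i⌋)) i = x i + ((-⌊x i⌋ : ℤ) : ℝ) := rfl
          rw [h1]
          push_cast
          constructor
          · linarith [Int.floor_le (x i)]
          · linarith [Int.lt_floor_add_one (x i)]
        · apply subset_tsupport
          rw [Function.mem_support, hΨ.per]
          exact hne
        · change φ (x + vz (fun i => -⌊x i⌋)) + vz l = w
          rw [hp _ x hxO, ← hl]
      change Ψ (pt φ O w) * _ = 0
      rw [h0, zero_mul]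
    · rfl

end EscW.Ex
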