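import Pool.Agent.EscW.E8a
import Pool.Agent.EscW.E8b

set_option autoImplicit false

/-!
Project EscW, part E, module E8: local representation of the glued metric and Lagrangian.
`exists_rep`: at `w0` of the form `φ x0 + vz l`, `x0 ∈ O`: `W, ψ` of `exists_loc`, `Ψ1 = Ψ ∘ ψ`, `D w = fderiv ψ w`; formulas by
`push_eq` with `x = ψ w`, `v = fderiv ψ w u`, for `g = Ψ F0²`, `Ψ`, `Ψ L0`; `le`: `u = fderiv φ (ψ w) (D w u)`, `ψ w ∈ tsupport Ψ`, and
`‖fderiv φ‖ ≤ C` on `tsupport Ψ` (continuous and periodic, compact unit cube). Otherwise `w0 ∉ φ (tsupport Ψ) + ℤᵈ`: `push_off`, `Ψ1 = 0`, `ψ = 0`, `D = 0`.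
-/

noncomputable section

namespace EscW.Ex

open Filter Topology Set EscF.T EscM EscMT MeasureTheory
open scoped ContDiff

variable {d m n : ℕ}

lemma E8_cube_compact (m : ℕ) : IsCompact {x : Vec m | ∀ i, x i ∈ Icc (0 : ℝ) 1} := by
  have h2 : {x : Vec m | ∀ i, x i ∈ Icc (0 : ℝ) 1} =
      (EuclideanSpace.equiv (Fin m) ℝ).toHomeomorph ⁻¹' (Set.pi univ fun _ => Icc (0 : ℝ) 1) := by
    ext x
    constructor
    · intro h i _
      exact h i
    · intro h i
      exact h i (mem_univ i)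
  rw [h2, Homeomorph.isCompact_preimage]
  exact isCompact_univ_pi fun _ => isCompact_Icc

/-- the support of a periodic function is periodic -/
lemma E8_tsupport_per {Ψ : Vec m → ℝ} (hp : ∀ (k : Fin m → ℤ) (x : Vec m), Ψ (x + vz k) = Ψ x)
    (k : Fin m → ℤ) {x : Vec m} (hx : x ∈ tsupport Ψ) : x + vz k ∈ tsupport Ψ := by
  have h1 : MapsTo (fun y : Vec m => y + vz k) (Function.support Ψ) (Function.support Ψ) := by
    intro y hy
    rw [Function.mem_support] at hy ⊢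
    simp only [hp]
    exact hy
  exact h1.closure (continuous_id.add continuous_const) hx

/-- the derivative of `φ` is bounded on the support of the cut-off -/
lemma E8_bound {O : Set (Vec m)} {φ : Vec m → Vec d} (hO : IsOpen O) (hs : ContDiffOn ℝ ∞ φ O)
    (hp : ∀ (k : Fin m → ℤ), ∀ x ∈ O, φ (x + vz k) = φ x) {Ψ : Vec m → ℝ}
    (hper : ∀ (k : Fin m → ℤ) (x : Vec m), Ψ (x + vz k) = Ψ x) (hsub : tsupport Ψ ⊆ O) :
    ∃ C : ℝ, 0 < C ∧ ∀ x ∈ tsupport Ψ, ‖fderiv ℝ φ x‖ ≤ C := by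
  have hc : ContinuousOn (fderiv ℝ φ) O := hs.continuousOn_fderiv_of_isOpen hO (by simp)
  have hK : IsCompact ({x : Vec m | ∀ i, x i ∈ Icc (0 : ℝ) 1} ∩ tsupport Ψ) :=
    (E8_cube_compact m).inter_right (isClosed_tsupport Ψ)
  obtain ⟨C, hC⟩ := hK.exists_bound_of_continuousOn (hc.mono (inter_subset_right.trans hsub))
  refine ⟨max C 1, by positivity, fun x hx => ?_⟩
  set k : Fin m → ℤ := fun i => -⌊x i⌋ with hk
  have h1 : x + vz k ∈ tsupport Ψ := E8_tsupport_per hper k hx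
  have h2 : ∀ i, (x + vz k) i ∈ Icc (0 : ℝ) 1 := by
    intro i
    have h3 : (x + vz k) i = Int.fract (x i) := by
      simp only [vz, hk, PiLp.add_apply, Int.cast_neg, Int.fract]
      ring
    rw [h3]
    exact ⟨Int.fract_nonneg _, (Int.fract_lt_one _).le⟩
  have h3 : fderiv ℝ φ (x + vz k) = fderiv ℝ φ x := by
    rw [← fderiv_comp_add_right]
    apply Filter.EventuallyEq.fderiv_eq
    filter_upwards [hO.mem_nhds (hsub hx)] with y hy using hp k y hy
  rw [← h3]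
  exact (hC _ ⟨h2, h1⟩).trans (le_max_left _ _)

theorem exists_rep {M : Sub d} {O : Set (Vec m)} {G : Subgroup (Vec m ≃ₗᵢ[ℝ] Vec m)} {φ : Vec m → Vec d}
    (hc : IsChart M (tor m) O G φ) (hp : ∀ (k : Fin m → ℤ), ∀ x ∈ O, φ (x + vz k) = φ x)
    (hP : ∀ P ∈ G, ∀ x ∈ O, φ (P x) = φ x) {Ψ : Vec m → ℝ} (hΨ : IsCut O G Ψ)
    {F0 L0 : Vec m → Vec m → ℝ} (hm : Model G F0 L0) (F : Vec d → Vec d → ℝ → ℝ) (L : Lag d) :
    ∃ C : ℝ, 0 < C ∧ HasRep M C F0 L0 F L (Fg φ O Ψ F0 F) (Lg φ O Ψ L0 L) := by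
  obtain ⟨C, hC0, hC⟩ := E8_bound hc.isOpen hc.smooth hp hΨ.per hΨ.supp
  refine ⟨C, hC0, fun w0 _ => ?_⟩
  by_cases hw0 : ∃ x ∈ tsupport Ψ, ∃ l : Fin d → ℤ, w0 = φ x + vz l
  · obtain ⟨x0, hx0, l, rfl⟩ := hw0
    obtain ⟨W, ψ, hWo, hmem, hψ, hloc⟩ := exists_loc hc (hΨ.supp hx0) l
    -- push forwards in the local inverse
    have key : ∀ g : Vec m → Vec m → ℝ, (∀ (k : Fin m → ℤ) (x v : Vec m), g (x + vz k) v = g x v) →
        (∀ P ∈ G, ∀ x v, g (P x) (P v) = g x v) → ∀ w ∈ M.N ∩ W, ∀ u, IsTangent M w u →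
        push φ O g w u = g (ψ w) (fderiv ℝ ψ w u) := by
      intro g hg hg' w hw u hu
      obtain ⟨h1, h2, h3⟩ := hloc w hw
      have h4 := push_eq hc hp hP hg hg' h1 (fderiv ℝ ψ w u) l
      rwa [h2, h3 u hu] at h4
    have k1 := key (fun x v => Ψ x * F0 x v ^ 2) (fun k x v => by simp only [hΨ.per, hm.perF])
      (fun P hPG x v => by simp only [hΨ.inv P hPG, hm.invF P hPG])
    have k2 := key (fun x _ => Ψ x) (fun k x v => by simp only [hΨ.per])
      (fun P hPG x v => by simp only [hΨ.inv P hPG])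
    have k3 := key (fun x v => Ψ x * L0 x v) (fun k x v => by simp only [hΨ.per, hm.perL])
      (fun P hPG x v => by simp only [hΨ.inv P hPG, hm.invL P hPG])
    refine ⟨W, fun w => Ψ (ψ w), ψ, fun w => fderiv ℝ ψ w, hmem, ?_⟩
    refine
      { isOpen := hWo
        s1 := ?_
        s2 := hψ.of_le (by norm_cast)
        s3 := hψ.fderiv_of_isOpen hWo (by norm_cast)
        mem01 := fun w _ => hΨ.mem01 _
        le := ?_
        metric := ?_
        lag := ?_ }
    · exact (hΨ.smooth.of_le (by norm_cast)).comp_contDiffOn (hψ.of_le (by norm_cast))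
    · intro w hw u hu hpos
      obtain ⟨h1, h2, h3⟩ := hloc w hw
      have h4 : ψ w ∈ tsupport Ψ := subset_tsupport Ψ (Function.mem_support.2 hpos.ne')
      calc ‖u‖ = ‖fderiv ℝ φ (ψ w) (fderiv ℝ ψ w u)‖ := by rw [h3 u hu]
        _ ≤ ‖fderiv ℝ φ (ψ w)‖ * ‖fderiv ℝ ψ w u‖ := ContinuousLinearMap.le_opNorm _ _
        _ ≤ C * ‖fderiv ℝ ψ w u‖ := by gcongr; exact hC _ h4
    · intro w hw u hu t
      simp only [Fg]
      rw [k1 w hw u hu, k2 w hw u hu]
    · intro w hw u hu t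
      simp only [Lg]
      rw [k3 w hw u hu, k2 w hw u hu]
  · push Not at hw0
    obtain ⟨W, hWo, hmem, hW⟩ := push_off hc hp hΨ hw0
    have k2 : ∀ w ∈ W, ∀ u, push φ O (fun x _ => Ψ x) w u = 0 := by
      intro w hw u
      have h := hW w hw u (fun _ _ => 1)
      simpa using h
    refine ⟨W, fun _ => 0, fun _ => 0, fun _ => 0, hmem, ?_⟩
    refine
      { isOpen := hWo
        s1 := contDiffOn_const
        s2 := contDiffOn_const
        s3 := contDiffOn_const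
        mem01 := fun w _ => by norm_num
        le := fun w _ u _ h => absurd h (lt_irrefl _)
        metric := ?_
        lag := ?_ }
    · intro w hw u _ t
      simp only [Fg]
      rw [hW w hw.2 u (fun x v => F0 x v ^ 2), k2 w hw.2 u]
      simp
    · intro w hw u _ t
      simp only [Lg]
      rw [hW w hw.2 u (fun x v => L0 x v), k2 w hw.2 u]
      simp

end EscW.Ex
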