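import Pool.Agent.EscW.EEDefs
import Pool.Agent.EscM.N1

set_option autoImplicit false

/-!
Project EscW, part E, module E8a: push forward and local inverses.
Hypotheses `hp`, `hP`: `φ` is exactly invariant under the group. `push_eq`: let `w = φ x + vz l`, `y = pt φ O w`: `y ∈ O`, `w = φ y + vz l'`
(`choose_spec`), so by `fibre` `y = P x + vz k`. Near `x`: `φ (P x' + vz k) = φ x'`, so `fderiv φ y ∘ P = fderiv φ x`. `fderiv φ y` is
injective (`inverse`: `ψ (φ y') = y'` near `y`, differentiate), so `invFun (fderiv φ y) (fderiv φ x v) = P v`, and `g y (P v) = g x v`.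
`exists_loc`: `ψ0` of `inverse` at `x0`, smooth at `φ x0`, so `C³` on a neighbourhood; `ψ w = ψ0 (w - vz l)`; shift the statements by `vz l`
(`M.N` is invariant). For `w ∈ M.N ∩ W`, `u` tangent: `s ↦ M.r (w + s u)` is a curve in `M.N` with velocity `u` at `s = 0`;
`φ (ψ (M.r (w + s u))) + vz l = M.r (w + s u)`; differentiate at `0`.
-/

noncomputable section

namespace EscW.Ex

open Filter Topology Set EscF.T EscM EscMT MeasureTheory
open scoped ContDiff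

variable {d m n : ℕ}

theorem E8a_diff {M : Sub d} {O : Set (Vec m)} {G : Subgroup (Vec m ≃ₗᵢ[ℝ] Vec m)} {φ : Vec m → Vec d}
    (hc : IsChart M (tor m) O G φ) {x : Vec m} (hx : x ∈ O) : DifferentiableAt ℝ φ x :=
  ((hc.smooth x hx).contDiffAt (hc.isOpen.mem_nhds hx)).differentiableAt (by simp)

theorem E8a_inj {M : Sub d} {O : Set (Vec m)} {G : Subgroup (Vec m ≃ₗᵢ[ℝ] Vec m)} {φ : Vec m → Vec d}
    (hc : IsChart M (tor m) O G φ) {y : Vec m} (hy : y ∈ O) : Function.Injective (fderiv ℝ φ y) := by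
  obtain ⟨ψ, hψ, hψ1, -⟩ := hc.inverse y ⟨mem_univ y, hy⟩
  have h1 : HasFDerivAt (fun y' => ψ (φ y')) ((fderiv ℝ ψ (φ y)).comp (fderiv ℝ φ y)) y :=
    (hψ.differentiableAt (by simp)).hasFDerivAt.comp y (E8a_diff hc hy).hasFDerivAt
  have h2 : (fun y' => ψ (φ y')) =ᶠ[𝓝 y] fun y' => y' := by
    filter_upwards [hψ1] with y' h
    exact h (mem_univ y')
  have h3 := (h1.congr_of_eventuallyEq h2.symm).unique (hasFDerivAt_id y)
  intro u v huv
  have h4 := DFunLike.congr_fun h3 u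
  have h5 := DFunLike.congr_fun h3 v
  have h6 : fderiv ℝ ψ (φ y) (fderiv ℝ φ y u) = u := h4
  have h7 : fderiv ℝ ψ (φ y) (fderiv ℝ φ y v) = v := h5
  rw [← h6, ← h7, huv]

theorem push_eq {M : Sub d} {O : Set (Vec m)} {G : Subgroup (Vec m ≃ₗᵢ[ℝ] Vec m)} {φ : Vec m → Vec d}
    (hc : IsChart M (tor m) O G φ) (hp : ∀ (k : Fin m → ℤ), ∀ x ∈ O, φ (x + vz k) = φ x)
    (hP : ∀ P ∈ G, ∀ x ∈ O, φ (P x) = φ x) {g : Vec m → Vec m → ℝ}
    (hg : ∀ (k : Fin m → ℤ) (x v : Vec m), g (x + vz k) v = g x v)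
    (hg' : ∀ P ∈ G, ∀ x v, g (P x) (P v) = g x v) {x : Vec m} (hx : x ∈ O) (v : Vec m) (l : Fin d → ℤ) :
    push φ O g (φ x + vz l) (fderiv ℝ φ x v) = g x v := by
  classical
  have hex : ∃ x' ∈ O, ∃ l' : Fin d → ℤ, φ x + vz l = φ x' + vz l' := ⟨x, hx, l, rfl⟩
  obtain ⟨y, hydef⟩ : ∃ y, y = pt φ O (φ x + vz l) := ⟨_, rfl⟩
  have hy : y ∈ O ∧ ∃ l' : Fin d → ℤ, φ x + vz l = φ y + vz l' := by
    rw [hydef, pt, dif_pos hex]
    exact hex.choose_spec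
  obtain ⟨hyO, l', hl'⟩ := hy
  have h1 : ∃ l'' : Fin d → ℤ, φ y = φ x + vz l'' := by
    refine ⟨l + -l', ?_⟩
    rw [vz_add', vz_neg', ← add_assoc, hl']
    abel
  obtain ⟨P, hPG, k, hk⟩ := (hc.fibre x ⟨mem_univ x, hx⟩ y ⟨mem_univ y, hyO⟩).1 h1
  have hPx : P x ∈ O := hc.mapsO P hPG x hx
  have h2 : HasFDerivAt (fun x' => P x' + vz k) (P.toContinuousLinearEquiv : Vec m →L[ℝ] Vec m) x :=
    (P.toContinuousLinearEquiv.hasFDerivAt (x := x)).add_const (vz k)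
  have h3 : HasFDerivAt φ (fderiv ℝ φ y) (P x + vz k) := by
    rw [← hk]
    exact (E8a_diff hc hyO).hasFDerivAt
  have h4 : HasFDerivAt (fun x' => φ (P x' + vz k))
      ((fderiv ℝ φ y).comp (P.toContinuousLinearEquiv : Vec m →L[ℝ] Vec m)) x :=
    HasFDerivAt.comp x h3 h2
  have h5 : (fun x' => φ (P x' + vz k)) =ᶠ[𝓝 x] φ := by
    filter_upwards [hc.isOpen.mem_nhds hx] with x' hx'
    rw [hp k (P x') (hc.mapsO P hPG x' hx'), hP P hPG x' hx']
  have h6 := (h4.congr_of_eventuallyEq h5.symm).unique (E8a_diff hc hx).hasFDerivAt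
  have h7 : fderiv ℝ φ x v = fderiv ℝ φ y (P v) := by
    rw [← h6]
    rfl
  have h8 : Function.invFun (fderiv ℝ φ y) (fderiv ℝ φ x v) = P v := by
    rw [h7]
    exact Function.leftInverse_invFun (E8a_inj hc hyO) (P v)
  rw [push, if_pos hex, ← hydef, h8, hk, hg, hg' P hPG]

theorem exists_loc {M : Sub d} {O : Set (Vec m)} {G : Subgroup (Vec m ≃ₗᵢ[ℝ] Vec m)} {φ : Vec m → Vec d}
    (hc : IsChart M (tor m) O G φ) {x0 : Vec m} (hx0 : x0 ∈ O) (l : Fin d → ℤ) :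
    ∃ (W : Set (Vec d)) (ψ : Vec d → Vec m), IsOpen W ∧ φ x0 + vz l ∈ W ∧ ContDiffOn ℝ 3 ψ W ∧
      ∀ w ∈ M.N ∩ W, ψ w ∈ O ∧ φ (ψ w) + vz l = w ∧
        ∀ u, IsTangent M w u → fderiv ℝ φ (ψ w) (fderiv ℝ ψ w u) = u := by
  obtain ⟨ψ0, hψ, -, hψ2⟩ := hc.inverse x0 ⟨mem_univ x0, hx0⟩
  have h3 : ContDiffAt ℝ 3 ψ0 (φ x0) := hψ.of_le ENat.LEInfty.out
  have h4 : ∀ᶠ w in 𝓝 (φ x0), ContDiffAt ℝ 3 ψ0 w := h3.eventually (by simp)
  obtain ⟨W0, hW0, hopen, hmem⟩ := mem_nhds_iff.1 (h4.and hψ2)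
  have hshift : Continuous (fun w : Vec d => w - vz l) := by fun_prop
  have hW : IsOpen ((fun w : Vec d => w - vz l) ⁻¹' W0) := hopen.preimage hshift
  have hsm : ContDiffOn ℝ 3 (fun w => ψ0 (w - vz l)) ((fun w : Vec d => w - vz l) ⁻¹' W0) := by
    intro w hw
    have h5 : ContDiffAt ℝ 3 ψ0 (w - vz l) := (hW0 hw).1
    have h6 : ContDiffAt ℝ 3 (fun w : Vec d => w - vz l) w := by fun_prop
    exact (ContDiffAt.comp w h5 h6).contDiffWithinAt
  have hkey : ∀ w ∈ M.N ∩ (fun w : Vec d => w - vz l) ⁻¹' W0, ψ0 (w - vz l) ∈ O ∧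
      φ (ψ0 (w - vz l)) + vz l = w := by
    intro w hw
    have h5 : w - vz l ∈ M.N := by
      have h6 := M.perN (-l) w hw.1
      rwa [vz_neg', ← sub_eq_add_neg] at h6
    obtain ⟨h7, h8⟩ := (hW0 hw.2).2 h5
    refine ⟨h7.2, ?_⟩
    rw [h8]
    exact sub_add_cancel w (vz l)
  refine ⟨(fun w : Vec d => w - vz l) ⁻¹' W0, fun w => ψ0 (w - vz l), hW, ?_, hsm, ?_⟩
  · show φ x0 + vz l - vz l ∈ W0
    rwa [add_sub_cancel_right]
  · intro w hw
    obtain ⟨h5, h6⟩ := hkey w hw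
    refine ⟨h5, h6, ?_⟩
    intro u hu
    have hU : w ∈ M.U := M.sub hw.1
    have hr : ContDiffAt ℝ ∞ M.r w := (M.smooth w hU).contDiffAt (M.isOpen.mem_nhds hU)
    have hrd : HasFDerivAt M.r (fderiv ℝ M.r w) w := (hr.differentiableAt (by simp)).hasFDerivAt
    have hrw : M.r w = w := r_self M hw.1
    have hev : ∀ᶠ y in 𝓝 w, M.r y ∈ M.N ∩ (fun w : Vec d => w - vz l) ⁻¹' W0 := by
      have h7 : ∀ᶠ y in 𝓝 w, y ∈ M.U := M.isOpen.mem_nhds hU
      have h8 : ∀ᶠ y in 𝓝 w, M.r y ∈ (fun w : Vec d => w - vz l) ⁻¹' W0 := by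
        apply hr.continuousAt.eventually_mem
        rw [hrw]
        exact hW.mem_nhds hw.2
      filter_upwards [h7, h8] with y h9 h10
      exact ⟨M.mem y h9, h10⟩
    have hψd : HasFDerivAt (fun w => ψ0 (w - vz l)) (fderiv ℝ (fun w => ψ0 (w - vz l)) w) (M.r w) := by
      rw [hrw]
      exact (((hsm w hw.2).contDiffAt (hW.mem_nhds hw.2)).differentiableAt (by norm_num)).hasFDerivAt
    have h9 : HasFDerivAt (fun y => ψ0 (M.r y - vz l))
        ((fderiv ℝ (fun w => ψ0 (w - vz l)) w).comp (fderiv ℝ M.r w)) w :=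
      HasFDerivAt.comp (g := fun w => ψ0 (w - vz l)) w hψd hrd
    have h10 : HasFDerivAt φ (fderiv ℝ φ (ψ0 (w - vz l))) (ψ0 (M.r w - vz l)) := by
      rw [hrw]
      exact (E8a_diff hc h5).hasFDerivAt
    have h11 : HasFDerivAt (fun y => φ (ψ0 (M.r y - vz l)) + vz l)
        ((fderiv ℝ φ (ψ0 (w - vz l))).comp
          ((fderiv ℝ (fun w => ψ0 (w - vz l)) w).comp (fderiv ℝ M.r w))) w :=
      (HasFDerivAt.comp w h10 h9).add_const (vz l)
    have h12 : (fun y => φ (ψ0 (M.r y - vz l)) + vz l) =ᶠ[𝓝 w] M.r := by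
      filter_upwards [hev] with y hy
      exact (hkey _ hy).2
    have h13 := (h11.congr_of_eventuallyEq h12.symm).unique hrd
    have h14 := DFunLike.congr_fun h13 u
    have h15 : fderiv ℝ φ (ψ0 (w - vz l)) (fderiv ℝ (fun w => ψ0 (w - vz l)) w (fderiv ℝ M.r w u)) =
        fderiv ℝ M.r w u := h14
    rw [IsTangent] at hu
    rwa [hu] at h15

end EscW.Ex
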