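import Pool.Agent.EscW.WDefs

set_option autoImplicit false

/-!
Project EscW (MP_6acca1_an), part E: every closed manifold `M` of dimension at least two carries Lagrangians in
the class `InClass M`. Definitions: a covering chart of a part of the torus `𝕋ⁿ⁺²` modulo `± 1` in two of the
coordinates, a Randers metric on it, push forward of metrics and Lagrangians to `M`.
-/

noncomputable section

namespace EscW.Ex

open Filter Topology Set EscF.T EscM EscMT MeasureTheory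
open scoped ContDiff

variable {d m n : ℕ}

/-- the torus as a closed submanifold of itself -/
def tor (m : ℕ) : Sub m where
  N := univ
  U := univ
  r := id
  closed := isClosed_univ
  isOpen := isOpen_univ
  sub := subset_rfl
  perN := fun _ _ _ => mem_univ _
  perU := fun _ _ _ => mem_univ _
  smooth := contDiff_id.contDiffOn
  mem := fun _ _ => mem_univ _
  nearest := fun x _ p _ hp => by simpa using dist_pos.2 (Ne.symm hp)

/-- zero if the first two coordinates are half integers -/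
def hh (X : Vec (n + 2)) : ℝ := Real.sin (2 * Real.pi * X 0) ^ 2 + Real.sin (2 * Real.pi * X 1) ^ 2

/-- zero if the other coordinates are integers -/
def sz (X : Vec (n + 2)) : ℝ := ∑ i, if i = 0 ∨ i = 1 then 0 else 1 - Real.cos (2 * Real.pi * X i)

/-- the domains of the charts -/
def OO (n : ℕ) (a b : ℝ) : Set (Vec (n + 2)) := {X | a < hh X ∧ sz X < b}

/-- the room -/
def KK (n : ℕ) : Set (Vec (n + 2)) := {X | 1 / 2 ≤ hh X ∧ sz X ≤ 1 / 2}

/-- minus one in the first two coordinates -/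
def PP (n : ℕ) : Vec (n + 2) ≃ₗᵢ[ℝ] Vec (n + 2) :=
  LinearIsometryEquiv.piLpCongrRight 2 (fun i => if i = 0 ∨ i = 1 then LinearIsometryEquiv.neg ℝ
    else LinearIsometryEquiv.refl ℝ ℝ)

/-- the group of two elements -/
def GG (n : ℕ) : Subgroup (Vec (n + 2) ≃ₗᵢ[ℝ] Vec (n + 2)) := Subgroup.zpowers (PP n)

/-- first coordinate on the pillow -/
def cu (X : Vec (n + 2)) : ℝ := Real.cos (2 * Real.pi * X 0)

/-- second coordinate on the pillow -/
def cv (X : Vec (n + 2)) : ℝ := Real.cos (2 * Real.pi * X 1)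

/-- third coordinate on the pillow -/
def ss (X : Vec (n + 2)) : ℝ := Real.sin (2 * Real.pi * X 0) * Real.sin (2 * Real.pi * X 1)

/-- the denominator of the stereographic projection -/
def DD (X : Vec (n + 2)) : ℝ := √(1 + cu X ^ 2 * cv X ^ 2) - (cu X + cv X) / √2

/-- radial projection of the pillow to the sphere, followed by the stereographic projection; sines of the other
coordinates -/
def ph (X : Vec (n + 2)) : Vec (n + 2) :=
  WithLp.toLp 2 (fun i => if i = 0 then (cu X - cv X) / √2 / DD X else if i = 1 then ss X / DD X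
    else Real.sin (2 * Real.pi * X i))

/-- the weight of the metric -/
def wt (A : ℝ) (X : Vec (n + 2)) : ℝ :=
  5 / 4 + sz X + A * (Real.smoothTransition (4 * (1 - hh X)) + Real.smoothTransition (8 * sz X - 1))

/-- the metric, of Randers type -/
def FF (A : ℝ) (X v : Vec (n + 2)) : ℝ := wt A X * ‖v‖ - Real.sin (2 * Real.pi * X 1) / 4 * v 0

/-- the Lagrangian -/
def LL (A : ℝ) (X v : Vec (n + 2)) : ℝ :=
  (wt A X ^ 2 * ‖v‖ ^ 2 - wt A X * Real.sin (2 * Real.pi * X 1) / 2 * √(1 + ‖v‖ ^ 2) * v 0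
    + (Real.sin (2 * Real.pi * X 1) / 4 * v 0) ^ 2) / 2

/-- the calibrating function -/
def BB (X : Vec (n + 2)) (_ : ℝ) : ℝ := X 0

/-- the calibrated curve -/
def cc (σ _ : ℝ) : Vec (n + 2) :=
  WithLp.toLp 2 (fun i => if i = 0 then σ + 1 / 4 else if i = 1 then 1 / 4 else 0)

/-- the cut-off -/
def Psi (X : Vec (n + 2)) : ℝ :=
  Real.smoothTransition (16 * hh X - 5) * Real.smoothTransition (11 - 16 * sz X)

/-- the barrier -/
def bar (X : Vec (n + 2)) : ℝ :=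
  2 * Real.smoothTransition (3 - 4 * hh X) + 2 * Real.smoothTransition (4 * sz X - 1)

/-- `g` parametrises the part of `M` in the open set `W` by a ball, with inverse `g'` -/
structure MChart (M : Sub d) (m : ℕ) (W : Set (Vec d)) (ρ : ℝ) (g : Vec m → Vec d) (g' : Vec d → Vec m) :
    Prop where
  pos : 0 < ρ
  isOpen : IsOpen W
  small : ∀ x ∈ W, ∀ y ∈ W, dist x y < 1
  smooth : ContDiffOn ℝ ∞ g (Metric.ball 0 ρ)
  smooth' : ContDiffOn ℝ ∞ g' W
  maps : ∀ w ∈ Metric.ball (0 : Vec m) ρ, g w ∈ M.N ∧ g w ∈ W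
  left : ∀ w ∈ Metric.ball (0 : Vec m) ρ, g' (g w) = w
  right : ∀ x ∈ M.N ∩ W, g' x ∈ Metric.ball (0 : Vec m) ρ ∧ g (g' x) = x

/-- a smooth invariant cut-off on the torus which is supported in `O` -/
structure IsCut (O : Set (Vec m)) (G : Subgroup (Vec m ≃ₗᵢ[ℝ] Vec m)) (Ψ : Vec m → ℝ) : Prop where
  smooth : ContDiff ℝ ∞ Ψ
  per : ∀ (k : Fin m → ℤ) (x : Vec m), Ψ (x + vz k) = Ψ x
  inv : ∀ P ∈ G, ∀ x, Ψ (P x) = Ψ x
  mem01 : ∀ x, 0 ≤ Ψ x ∧ Ψ x ≤ 1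
  supp : tsupport Ψ ⊆ O

/-- an invariant metric and an invariant Lagrangian on the torus -/
structure Model (G : Subgroup (Vec m ≃ₗᵢ[ℝ] Vec m)) (F0 L0 : Vec m → Vec m → ℝ) : Prop where
  contF : Continuous (fun p : Vec m × Vec m => F0 p.1 p.2)
  perF : ∀ (k : Fin m → ℤ) (x v : Vec m), F0 (x + vz k) v = F0 x v
  homF : ∀ (x v : Vec m) (c : ℝ), 0 ≤ c → F0 x (c • v) = c * F0 x v
  posF : ∀ x v : Vec m, v ≠ 0 → 0 < F0 x v
  smL : ContDiff ℝ 2 (fun p : Vec m × Vec m => L0 p.1 p.2)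
  perL : ∀ (k : Fin m → ℤ) (x v : Vec m), L0 (x + vz k) v = L0 x v
  convL : ∃ c : ℝ, 0 < c ∧ ∀ x v w : Vec m, c * ‖w‖ ^ 2 ≤ iteratedFDeriv ℝ 2 (L0 x) v ![w, w]
  nearL : ∃ C : ℝ, ∀ x v x' v' : Vec m, |(L0 x v - F0 x v ^ 2 / 2) - (L0 x' v' - F0 x' v' ^ 2 / 2)| ≤
    C * (‖v - v'‖ + (1 + ‖v‖) * ‖x - x'‖)
  invF : ∀ P ∈ G, ∀ x v, F0 (P x) (P v) = F0 x v
  invL : ∀ P ∈ G, ∀ x v, L0 (P x) (P v) = L0 x v

open Classical in
/-- a point of `O` above `w` -/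
def pt (φ : Vec m → Vec d) (O : Set (Vec m)) (w : Vec d) : Vec m :=
  if h : ∃ x ∈ O, ∃ l : Fin d → ℤ, w = φ x + vz l then h.choose else 0

open Classical in
/-- push forward of a function of points and vectors -/
def push (φ : Vec m → Vec d) (O : Set (Vec m)) (g : Vec m → Vec m → ℝ) (w u : Vec d) : ℝ :=
  if ∃ x ∈ O, ∃ l : Fin d → ℤ, w = φ x + vz l then
    g (pt φ O w) (Function.invFun (fderiv ℝ φ (pt φ O w)) u) else 0

/-- the glued metric -/
def Fg (φ : Vec m → Vec d) (O : Set (Vec m)) (Ψ : Vec m → ℝ) (F0 : Vec m → Vec m → ℝ)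
    (F : Vec d → Vec d → ℝ → ℝ) (w u : Vec d) (t : ℝ) : ℝ :=
  √(push φ O (fun x v => Ψ x * F0 x v ^ 2) w u + (1 - push φ O (fun x _ => Ψ x) w u) * F w u t ^ 2)

/-- the glued Lagrangian -/
def Lg (φ : Vec m → Vec d) (O : Set (Vec m)) (Ψ : Vec m → ℝ) (L0 : Vec m → Vec m → ℝ) (L : Lag d)
    (q : Vec d × Vec d × ℝ) : ℝ :=
  push φ O (fun x v => Ψ x * L0 x v) q.1 q.2.1 + (1 - push φ O (fun x _ => Ψ x) q.1 q.2.1) * L q

/-- local representation of a glued metric and a glued Lagrangian -/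
structure Rep (M : Sub d) (C : ℝ) (F0 L0 : Vec m → Vec m → ℝ) (F : Vec d → Vec d → ℝ → ℝ) (L : Lag d)
    (F2 : Vec d → Vec d → ℝ → ℝ) (L2 : Lag d) (W : Set (Vec d)) (Ψ1 : Vec d → ℝ) (ψ : Vec d → Vec m)
    (D : Vec d → Vec d →L[ℝ] Vec m) : Prop where
  isOpen : IsOpen W
  s1 : ContDiffOn ℝ 2 Ψ1 W
  s2 : ContDiffOn ℝ 2 ψ W
  s3 : ContDiffOn ℝ 2 D W
  mem01 : ∀ w ∈ W, 0 ≤ Ψ1 w ∧ Ψ1 w ≤ 1
  le : ∀ w ∈ M.N ∩ W, ∀ u, IsTangent M w u → 0 < Ψ1 w → ‖u‖ ≤ C * ‖D w u‖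
  metric : ∀ w ∈ M.N ∩ W, ∀ u, IsTangent M w u → ∀ t,
    F2 w u t = √(Ψ1 w * F0 (ψ w) (D w u) ^ 2 + (1 - Ψ1 w) * F w u t ^ 2)
  lag : ∀ w ∈ M.N ∩ W, ∀ u, IsTangent M w u → ∀ t,
    L2 (w, u, t) = Ψ1 w * L0 (ψ w) (D w u) + (1 - Ψ1 w) * L (w, u, t)

/-- every point of `M` has a neighbourhood with a local representation -/
def HasRep (M : Sub d) (C : ℝ) (F0 L0 : Vec m → Vec m → ℝ) (F : Vec d → Vec d → ℝ → ℝ) (L : Lag d)
    (F2 : Vec d → Vec d → ℝ → ℝ) (L2 : Lag d) : Prop :=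
  ∀ w0 ∈ M.N, ∃ (W : Set (Vec d)) (Ψ1 : Vec d → ℝ) (ψ : Vec d → Vec m) (D : Vec d → Vec d →L[ℝ] Vec m),
    w0 ∈ W ∧ Rep M C F0 L0 F L F2 L2 W Ψ1 ψ D

end EscW.Ex
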