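import Pool.Agent.EscW.ONDefs

set_option autoImplicit false

/-!
Project EscW, part O, module O3: gradients of the Lagrangian near the circle.
-/

noncomputable section

namespace EscW.On

open Filter Topology Set EscF.T EscM EscMT MeasureTheory EscW.Ex EscW.Dn
open scoped ContDiff

variable {d m k j n : ℕ}

/-! ### elementary facts -/

theorem O3_isOpen (k : ℕ) (r : ℝ) : IsOpen (LD k r) := by
  have h1 : Continuous (fun y : ℝ × Vec k × Vec k => ‖y.2.1‖) := by fun_prop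
  have h2 : Continuous (fun y : ℝ × Vec k × Vec k => ‖y.2.2‖) := by fun_prop
  exact (isOpen_lt h1 continuous_const).inter (isOpen_lt h2 continuous_const)

theorem O3_norm_le {x : Vec k} {C : ℝ} (h : ∀ v, |inner ℝ x v| ≤ C * ‖v‖) (hC : 0 ≤ C) : ‖x‖ ≤ C := by
  have h1 := h x
  rw [real_inner_self_eq_norm_sq, abs_of_nonneg (sq_nonneg _)] at h1
  by_cases h0 : ‖x‖ = 0
  · rw [h0]; exact hC
  · have : 0 < ‖x‖ := lt_of_le_of_ne (norm_nonneg _) (Ne.symm h0)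
    nlinarith

theorem gw_inner (L : ℝ × Vec k × Vec k → ℝ) (y : ℝ × Vec k × Vec k) (v : Vec k) :
    inner ℝ (gw L y) v = fderiv ℝ L y (0, v, 0) := by
  unfold gw
  rw [InnerProductSpace.toDual_symm_apply]
  rfl

theorem gu_inner (L : ℝ × Vec k × Vec k → ℝ) (y : ℝ × Vec k × Vec k) (v : Vec k) :
    inner ℝ (gu L y) v = fderiv ℝ L y (0, 0, v) := by
  unfold gu
  rw [InnerProductSpace.toDual_symm_apply]
  rfl

theorem grad_cont {L : ℝ × Vec k × Vec k → ℝ} {r : ℝ} (hL : ContDiffOn ℝ 2 L (LD k r)) :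
    ContinuousOn (gw L) (LD k r) ∧ ContinuousOn (gu L) (LD k r) := by
  have h : ContinuousOn (fderiv ℝ L) (LD k r) :=
    hL.continuousOn_fderiv_of_isOpen (O3_isOpen k r) (by norm_num)
  exact ⟨(InnerProductSpace.toDual ℝ (Vec k)).symm.continuous.comp_continuousOn
      (h.clm_comp continuousOn_const),
    (InnerProductSpace.toDual ℝ (Vec k)).symm.continuous.comp_continuousOn
      (h.clm_comp continuousOn_const)⟩

theorem O3_per {F : Type*} [NormedAddCommGroup F] [NormedSpace ℝ F] {f : ℝ × Vec k × Vec k → F} {r : ℝ}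
    (h : ∀ y ∈ LD k r, f (y + ((1 : ℝ), 0)) = f y) :
    ∀ y ∈ LD k r, fderiv ℝ f (y + ((1 : ℝ), 0)) = fderiv ℝ f y := by
  intro y hy
  rw [← fderiv_comp_add_right]
  apply Filter.EventuallyEq.fderiv_eq
  filter_upwards [(O3_isOpen k r).mem_nhds hy] with z hz
  exact h z hz

theorem O3_add_eq (θ : ℝ) (w u : Vec k) :
    ((θ, w, u) : ℝ × Vec k × Vec k) + ((1 : ℝ), 0) = (θ + 1, w, u) := by
  simp

theorem grad_per {L : ℝ × Vec k × Vec k → ℝ} {r : ℝ}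
    (hper : ∀ θ w u, ‖w‖ < r → ‖u‖ < r → L (θ + 1, w, u) = L (θ, w, u)) {θ : ℝ} {w u : Vec k} (hw : ‖w‖ < r)
    (hu : ‖u‖ < r) : gw L (θ + 1, w, u) = gw L (θ, w, u) ∧ gu L (θ + 1, w, u) = gu L (θ, w, u) := by
  have h := O3_per (f := L) (r := r) (fun y hy => by
    obtain ⟨a, b, c⟩ := y
    rw [O3_add_eq]
    exact hper a b c hy.1 hy.2) (θ, w, u) ⟨hw, hu⟩
  rw [O3_add_eq] at h
  unfold gw gu
  rw [h]
  exact ⟨rfl, rfl⟩

/-! ### one variable -/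

theorem O3_one {f f' : ℝ → ℝ} {a b c C : ℝ} (hf : ∀ᶠ t in 𝓝 (0:ℝ), HasDerivAt f (f' t) t)
    (hf' : HasDerivAt f' b 0) (hT : ∀ᶠ t in 𝓝 (0:ℝ), |f t - (a + c * t ^ 2)| ≤ C * |t| ^ 3) :
    f' 0 = 0 ∧ b = 2 * c := by
  have hf0 : f 0 = a := by
    have := hT.self_of_nhds
    simp only [ne_eq, OfNat.ofNat_ne_zero, not_false_eq_true, zero_pow, mul_zero, add_zero, abs_zero] at this
    linarith [abs_nonpos_iff.1 this]
  have hd : HasDerivAt f (f' 0) 0 := hf.self_of_nhds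
  -- the quotient `(f t - a) / t ^ 2` tends to `c`
  have hq : Tendsto (fun t => (f t - a) / t ^ 2) (𝓝[>] 0) (𝓝 c) := by
    have h0 : Tendsto (fun t : ℝ => C * |t|) (𝓝[>] 0) (𝓝 0) := by
      have : Tendsto (fun t : ℝ => C * |t|) (𝓝 0) (𝓝 (C * |(0:ℝ)|)) :=
        (continuous_const.mul continuous_abs).tendsto 0
      rw [abs_zero, mul_zero] at this
      exact this.mono_left nhdsWithin_le_nhds
    rw [tendsto_iff_norm_sub_tendsto_zero]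
    refine squeeze_zero' (Eventually.of_forall fun _ => norm_nonneg _) ?_ h0
    filter_upwards [hT.filter_mono nhdsWithin_le_nhds, self_mem_nhdsWithin] with t ht ht0
    have ht0 : 0 < t := ht0
    rw [Real.norm_eq_abs]
    have e : (f t - a) / t ^ 2 - c = (f t - (a + c * t ^ 2)) / t ^ 2 := by
      field_simp
      ring
    rw [e, abs_div, abs_of_pos (pow_pos ht0 2), div_le_iff₀ (pow_pos ht0 2)]
    rw [abs_of_pos ht0] at ht ⊢
    calc |f t - (a + c * t ^ 2)| ≤ C * t ^ 3 := ht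
      _ = C * t * t ^ 2 := by ring
  have h1 : f' 0 = 0 := by
    have hs := hd.tendsto_slope_zero_right
    have hs2 : Tendsto (fun t => t⁻¹ • (f (0 + t) - f 0)) (𝓝[>] 0) (𝓝 0) := by
      have h3 : Tendsto (fun t : ℝ => t * ((f t - a) / t ^ 2)) (𝓝[>] 0) (𝓝 (0 * c)) :=
        (tendsto_id.mono_left nhdsWithin_le_nhds).mul hq
      rw [zero_mul] at h3
      refine h3.congr' ?_
      filter_upwards [self_mem_nhdsWithin] with t ht0
      have ht0 : (0:ℝ) < t := ht0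
      rw [zero_add, hf0, smul_eq_mul]
      field_simp
    exact tendsto_nhds_unique hs hs2
  refine ⟨h1, ?_⟩
  have hl : Tendsto (fun t => f' t / (2 * t)) (𝓝[>] 0) (𝓝 (b / 2)) := by
    have hs := hf'.tendsto_slope_zero_right
    have hs2 := hs.div_const 2
    refine hs2.congr' ?_
    filter_upwards [self_mem_nhdsWithin] with t ht0
    have ht0 : (0:ℝ) < t := ht0
    rw [zero_add, h1, sub_zero, smul_eq_mul]
    field_simp
  have hlh : Tendsto (fun t => (f t - a) / t ^ 2) (𝓝[>] 0) (𝓝 (b / 2)) := by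
    refine HasDerivAt.lhopital_zero_nhdsGT (f' := f') (g' := fun t => 2 * t) ?_ ?_ ?_ ?_ ?_ hl
    · filter_upwards [hf.filter_mono nhdsWithin_le_nhds] with t ht
      exact ht.sub_const a
    · refine Eventually.of_forall fun t => ?_
      simpa using hasDerivAt_pow 2 t
    · filter_upwards [self_mem_nhdsWithin] with t ht0
      have ht0 : (0:ℝ) < t := ht0
      positivity
    · have := (hd.continuousAt.tendsto.sub_const a).mono_left (nhdsWithin_le_nhds (s := Ioi (0:ℝ)))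
      rw [hf0, sub_self] at this
      exact this
    · have : Tendsto (fun t : ℝ => t ^ 2) (𝓝 0) (𝓝 ((0:ℝ) ^ 2)) := (continuous_pow 2).tendsto 0
      rw [zero_pow two_ne_zero] at this
      exact this.mono_left nhdsWithin_le_nhds
  have := tendsto_nhds_unique hlh hq
  linarith

/-! ### the base Lagrangian -/

theorem O3_mem0 {r : ℝ} (hr : 0 < r) (θ : ℝ) : ((θ, 0, 0) : ℝ × Vec k × Vec k) ∈ LD k r := by
  constructor <;> simpa using hr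

theorem O3_line (θ : ℝ) (a v : Vec k × Vec k) (t : ℝ) :
    HasDerivAt (fun t : ℝ => ((θ, a + t • v) : ℝ × Vec k × Vec k)) (0, v) t := by
  have h1 : HasDerivAt (fun t : ℝ => a + t • v) v t := by
    simpa using ((hasDerivAt_id t).smul_const v).const_add a
  exact (hasDerivAt_const t θ).prodMk h1

theorem O3_quad {Φ0 : ℝ × Vec k → ℝ × Vec k → ℝ} {𝒜 : Set (ℝ × Vec k)} {r ℓ c c3 α β : ℝ}
    (hb : AnnBase Φ0 𝒜 r ℓ c c3 α β) (θ : ℝ) (v : Vec k × Vec k) :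
    fderiv ℝ (lg Φ0) (θ, 0, 0) (0, v) = 0 ∧
      fderiv ℝ (fderiv ℝ (lg Φ0)) (θ, 0, 0) (0, v) (0, v) = β * ‖v.1‖ ^ 2 + α * ‖v.2‖ ^ 2 := by
  obtain ⟨C, hC⟩ := hb.taylor
  have hU := O3_isOpen k r
  have hm := O3_mem0 (k := k) hb.r_pos θ
  have hy0 : ((θ, (0 : Vec k × Vec k) + (0:ℝ) • v) : ℝ × Vec k × Vec k) = (θ, 0, 0) := by
    rw [zero_smul, add_zero]; rfl
  have hcont : Continuous (fun t : ℝ => ((θ, (0 : Vec k × Vec k) + t • v) : ℝ × Vec k × Vec k)) := by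
    fun_prop
  have hev : ∀ᶠ t in 𝓝 (0:ℝ), ((θ, (0 : Vec k × Vec k) + t • v) : ℝ × Vec k × Vec k) ∈ LD k r := by
    have := hcont.tendsto 0
    rw [hy0] at this
    exact this.eventually (hU.mem_nhds hm)
  have hcd : ContDiffAt ℝ 2 (lg Φ0) (θ, 0, 0) := hb.smooth.contDiffAt (hU.mem_nhds hm)
  have hd2 : DifferentiableAt ℝ (fderiv ℝ (lg Φ0)) (θ, 0, 0) :=
    (hcd.fderiv_right (m := 1) (by norm_num)).differentiableAt one_ne_zero
  have h := O3_one (f := fun t : ℝ => lg Φ0 (θ, (0 : Vec k × Vec k) + t • v))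
    (f' := fun t : ℝ => fderiv ℝ (lg Φ0) (θ, (0 : Vec k × Vec k) + t • v) (0, v))
    (a := ℓ) (b := fderiv ℝ (fderiv ℝ (lg Φ0)) (θ, 0, 0) (0, v) (0, v))
    (c := β / 2 * ‖v.1‖ ^ 2 + α / 2 * ‖v.2‖ ^ 2) (C := C * (‖v.1‖ + ‖v.2‖) ^ 3) ?_ ?_ ?_
  · obtain ⟨h1, h2⟩ := h
    simp only [hy0] at h1
    refine ⟨h1, ?_⟩
    rw [h2]
    ring
  · filter_upwards [hev] with t ht
    have hdt : DifferentiableAt ℝ (lg Φ0) (θ, (0 : Vec k × Vec k) + t • v) :=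
      (hb.smooth.contDiffAt (hU.mem_nhds ht)).differentiableAt two_ne_zero
    exact hdt.hasFDerivAt.comp_hasDerivAt t (O3_line θ 0 v t)
  · have h1 : HasFDerivAt (fderiv ℝ (lg Φ0)) (fderiv ℝ (fderiv ℝ (lg Φ0)) (θ, 0, 0))
        (θ, (0 : Vec k × Vec k) + (0:ℝ) • v) := by
      rw [hy0]; exact hd2.hasFDerivAt
    have h2 := h1.comp_hasDerivAt (0:ℝ) (O3_line θ 0 v 0)
    exact ((ContinuousLinearMap.apply ℝ ℝ ((0, v) : ℝ × Vec k × Vec k)).hasFDerivAt.comp_hasDerivAt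
      (0:ℝ) h2)
  · filter_upwards [hev] with t ht
    have h1 := hC θ (t • v.1) (t • v.2) (by simpa using ht.1) (by simpa using ht.2)
    have e : ((θ, (0 : Vec k × Vec k) + t • v) : ℝ × Vec k × Vec k) = (θ, t • v.1, t • v.2) := by
      rw [zero_add]; rfl
    rw [e]
    rw [norm_smul, norm_smul, Real.norm_eq_abs] at h1
    calc |lg Φ0 (θ, t • v.1, t • v.2) - (ℓ + (β / 2 * ‖v.1‖ ^ 2 + α / 2 * ‖v.2‖ ^ 2) * t ^ 2)|
        = |lg Φ0 (θ, t • v.1, t • v.2) -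
            (ℓ + β / 2 * (|t| * ‖v.1‖) ^ 2 + α / 2 * (|t| * ‖v.2‖) ^ 2)| := by
          rw [mul_pow, mul_pow, sq_abs]
          congr 1
          ring
      _ ≤ C * (|t| * ‖v.1‖ + |t| * ‖v.2‖) ^ 3 := h1
      _ = C * (‖v.1‖ + ‖v.2‖) ^ 3 * |t| ^ 3 := by ring

theorem lg0_grad {Φ0 : ℝ × Vec k → ℝ × Vec k → ℝ} {𝒜 : Set (ℝ × Vec k)} {r ℓ c c3 α β : ℝ}
    (hb : AnnBase Φ0 𝒜 r ℓ c c3 α β) (θ : ℝ) :
    (∀ v : Vec k × Vec k, fderiv ℝ (lg Φ0) (θ, 0, 0) (0, v) = 0) ∧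
      ∀ v v' : Vec k × Vec k, fderiv ℝ (fderiv ℝ (lg Φ0)) (θ, 0, 0) (0, v) (0, v') =
        β * inner ℝ v.1 v'.1 + α * inner ℝ v.2 v'.2 := by
  refine ⟨fun v => (O3_quad hb θ v).1, fun v v' => ?_⟩
  have hU := O3_isOpen k r
  have hm := O3_mem0 (k := k) hb.r_pos θ
  have hcd : ContDiffAt ℝ 2 (lg Φ0) (θ, 0, 0) := hb.smooth.contDiffAt (hU.mem_nhds hm)
  have hsym : IsSymmSndFDerivAt ℝ (lg Φ0) (θ, 0, 0) :=
    hcd.isSymmSndFDerivAt (by rw [minSmoothness_of_isRCLikeNormedField])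
  have h1 := (O3_quad hb θ v).2
  have h2 := (O3_quad hb θ v').2
  have h3 := (O3_quad hb θ (v + v')).2
  have e : ((0, v + v') : ℝ × Vec k × Vec k) = (0, v) + (0, v') := by
    simp
  have h4 := hsym (0, v) (0, v')
  rw [e] at h3
  simp only [map_add, add_apply] at h3
  rw [h1, h2, ← h4] at h3
  have n1 : ‖(v + v').1‖ ^ 2 = ‖v.1‖ ^ 2 + 2 * inner ℝ v.1 v'.1 + ‖v'.1‖ ^ 2 := by
    rw [Prod.fst_add]; exact norm_add_sq_real _ _
  have n2 : ‖(v + v').2‖ ^ 2 = ‖v.2‖ ^ 2 + 2 * inner ℝ v.2 v'.2 + ‖v'.2‖ ^ 2 := by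
    rw [Prod.snd_add]; exact norm_add_sq_real _ _
  rw [n1, n2] at h3
  linarith

/-! ### Lipschitz estimate -/

theorem O3_uc {X F : Type*} [PseudoMetricSpace X] [NormedAddCommGroup F] {K : Set X} (hK : IsCompact K)
    (f : X → F) (hf : ∀ a ∈ K, ContinuousAt f a) {ε : ℝ} (hε : 0 < ε) :
    ∃ δ : ℝ, 0 < δ ∧ ∀ a ∈ K, ∀ b, dist a b < δ → ‖f b - f a‖ ≤ ε := by
  obtain ⟨δ, hδ, hd⟩ := Metric.mem_uniformity_dist.1
    (hK.uniformContinuousAt_of_continuousAt f hf (Metric.dist_mem_uniformity hε))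
  refine ⟨δ, hδ, fun a ha b hab => ?_⟩
  have h := hd hab ha
  have h : dist (f a) (f b) < ε := h
  rw [dist_comm, dist_eq_norm] at h
  exact h.le

theorem O3_tri {F : Type*} [NormedAddCommGroup F] {a b c : F} {x y : ℝ} (h1 : ‖a - b‖ ≤ x)
    (h2 : ‖b - c‖ ≤ y) : ‖a - c‖ ≤ x + y := by
  have e : a - c = (a - b) + (b - c) := by abel
  rw [e]
  exact (norm_add_le _ _).trans (add_le_add h1 h2)

theorem O3_per2 {Φ0 : ℝ × Vec k → ℝ × Vec k → ℝ} {𝒜 : Set (ℝ × Vec k)} {r ℓ c c3 α β : ℝ}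
    (hb : AnnBase Φ0 𝒜 r ℓ c c3 α β) :
    ∀ y ∈ LD k r, fderiv ℝ (fderiv ℝ (lg Φ0)) (y + ((1 : ℝ), 0)) = fderiv ℝ (fderiv ℝ (lg Φ0)) y := by
  refine O3_per (O3_per fun y hy => ?_)
  obtain ⟨a, b, c'⟩ := y
  rw [O3_add_eq]
  exact hb.per a b (1, c') (hb.tube a b hy.1)

theorem O3_unif {Φ0 : ℝ × Vec k → ℝ × Vec k → ℝ} {𝒜 : Set (ℝ × Vec k)} {r ℓ c c3 α β : ℝ}
    (hb : AnnBase Φ0 𝒜 r ℓ c c3 α β) {ε : ℝ} (hε : 0 < ε) :
    ∃ rc : ℝ, 0 < rc ∧ rc < r ∧ ∀ θ w u, ‖w‖ ≤ rc → ‖u‖ ≤ rc →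
      ‖fderiv ℝ (fderiv ℝ (lg Φ0)) (θ, w, u) - fderiv ℝ (fderiv ℝ (lg Φ0)) (θ, 0, 0)‖ ≤ ε := by
  have hU := O3_isOpen k r
  have hK : IsCompact ((fun θ : ℝ => ((θ, 0, 0) : ℝ × Vec k × Vec k)) '' Icc 0 1) :=
    isCompact_Icc.image (by fun_prop)
  have hc : ContinuousOn (fderiv ℝ (fderiv ℝ (lg Φ0))) (LD k r) :=
    (hb.smooth.fderiv_of_isOpen (m := 1) hU (by norm_num)).continuousOn_fderiv_of_isOpen hU (by norm_num)
  obtain ⟨δ, hδ, hd⟩ := O3_uc hK (fderiv ℝ (fderiv ℝ (lg Φ0))) (by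
      rintro _ ⟨θ, _, rfl⟩
      exact hc.continuousAt (hU.mem_nhds (O3_mem0 hb.r_pos θ))) hε
  have hr := hb.r_pos
  refine ⟨min (δ / 2) (r / 2), by positivity, (min_le_right _ _).trans_lt (by linarith), ?_⟩
  intro θ w u hw hu
  have hw1 := hw.trans (min_le_left _ _)
  have hw2 := hw.trans (min_le_right _ _)
  have hu1 := hu.trans (min_le_left _ _)
  have hu2 := hu.trans (min_le_right _ _)
  set G : ℝ → ((ℝ × Vec k × Vec k) →L[ℝ] (ℝ × Vec k × Vec k) →L[ℝ] ℝ) :=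
    fun θ => fderiv ℝ (fderiv ℝ (lg Φ0)) (θ, w, u) - fderiv ℝ (fderiv ℝ (lg Φ0)) (θ, 0, 0) with hG
  have hper : Function.Periodic G 1 := by
    intro θ
    have h1 := O3_per2 hb (θ, w, u) ⟨by linarith, by linarith⟩
    have h2 := O3_per2 hb (θ, 0, 0) (O3_mem0 hb.r_pos θ)
    rw [O3_add_eq] at h1 h2
    simp only [hG]
    rw [h1, h2]
  obtain ⟨θ', hθ', he⟩ := hper.exists_mem_Ico₀ one_pos θ
  change ‖G θ‖ ≤ ε
  rw [he]
  have hdist : dist ((θ', 0, 0) : ℝ × Vec k × Vec k) (θ', w, u) < δ := by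
    rw [Prod.dist_eq, Prod.dist_eq, dist_self]
    simp only [dist_zero_left]
    exact max_lt (by linarith) (max_lt (by linarith) (by linarith))
  exact hd _ ⟨θ', ⟨hθ'.1, hθ'.2.le⟩, rfl⟩ _ hdist

theorem O3_near {Φ0 Φ : ℝ × Vec k → ℝ × Vec k → ℝ} {𝒜 : Set (ℝ × Vec k)} {r ℓ c c3 α β η : ℝ}
    (hb : AnnBase Φ0 𝒜 r ℓ c c3 α β) (h : AnnNear Φ0 Φ 𝒜 r η) {y : ℝ × Vec k × Vec k} (hy : y ∈ LD k r) :
    ‖fderiv ℝ (lg Φ) y - fderiv ℝ (lg Φ0) y‖ ≤ η ∧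
      ‖fderiv ℝ (fderiv ℝ (lg Φ)) y - fderiv ℝ (fderiv ℝ (lg Φ0)) y‖ ≤ η := by
  have hU := O3_isOpen k r
  have e1 : ∀ z ∈ LD k r, fderiv ℝ (fun y => lg Φ y - lg Φ0 y) z = fderiv ℝ (lg Φ) z - fderiv ℝ (lg Φ0) z :=
    fun z hz => fderiv_fun_sub ((h.smooth.contDiffAt (hU.mem_nhds hz)).differentiableAt two_ne_zero)
      ((hb.smooth.contDiffAt (hU.mem_nhds hz)).differentiableAt two_ne_zero)
  have e2 : fderiv ℝ (fderiv ℝ (fun y => lg Φ y - lg Φ0 y)) y =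
      fderiv ℝ (fderiv ℝ (lg Φ)) y - fderiv ℝ (fderiv ℝ (lg Φ0)) y := by
    have h1 : fderiv ℝ (fun y => lg Φ y - lg Φ0 y) =ᶠ[𝓝 y]
        fun z => fderiv ℝ (lg Φ) z - fderiv ℝ (lg Φ0) z := by
      filter_upwards [hU.mem_nhds hy] with z hz using e1 z hz
    rw [h1.fderiv_eq]
    exact fderiv_fun_sub
      (((h.smooth.contDiffAt (hU.mem_nhds hy)).fderiv_right (m := 1) (by norm_num)).differentiableAt
        one_ne_zero)
      (((hb.smooth.contDiffAt (hU.mem_nhds hy)).fderiv_right (m := 1) (by norm_num)).differentiableAt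
        one_ne_zero)
  rw [← e1 y hy, ← e2]
  exact ⟨h.c1 y hy, h.c2 y hy⟩

/-- mean value inequality for the derivatives in `(w, u)` -/
theorem O3_mvt {L : ℝ × Vec k × Vec k → ℝ} {r α β ε rc θ : ℝ} (hL : ContDiffOn ℝ 2 L (LD k r)) (hrc : rc < r)
    (T : (ℝ × Vec k × Vec k) →L[ℝ] (ℝ × Vec k × Vec k) →L[ℝ] ℝ)
    (hT : ∀ v v' : Vec k × Vec k, T (0, v) (0, v') = β * inner ℝ v.1 v'.1 + α * inner ℝ v.2 v'.2)
    (hε : ∀ w u : Vec k, ‖w‖ ≤ rc → ‖u‖ ≤ rc → ‖fderiv ℝ (fderiv ℝ L) (θ, w, u) - T‖ ≤ ε)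
    {x x' : Vec k × Vec k} (hx1 : ‖x.1‖ ≤ rc) (hx2 : ‖x.2‖ ≤ rc) (hx1' : ‖x'.1‖ ≤ rc) (hx2' : ‖x'.2‖ ≤ rc)
    (v : Vec k × Vec k) :
    |(fderiv ℝ L (θ, x) (0, v) - fderiv ℝ L (θ, x') (0, v)) -
      (β * inner ℝ (x.1 - x'.1) v.1 + α * inner ℝ (x.2 - x'.2) v.2)| ≤
      ε * (‖x.1 - x'.1‖ + ‖x.2 - x'.2‖) * ‖v‖ := by
  have hU := O3_isOpen k r
  have hball : ∀ a b : Vec k, ‖a‖ ≤ rc → ‖b‖ ≤ rc → ∀ t ∈ Icc (0:ℝ) 1, ‖b + t • (a - b)‖ ≤ rc := by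
    intro a b ha hb t ht
    have e : b + t • (a - b) = (1 - t) • b + t • a := by
      rw [smul_sub, sub_smul, one_smul]; abel
    rw [e]
    refine (norm_add_le _ _).trans ?_
    rw [norm_smul, norm_smul, Real.norm_eq_abs, Real.norm_eq_abs, abs_of_nonneg ht.1,
      abs_of_nonneg (sub_nonneg.2 ht.2)]
    nlinarith [ht.1, ht.2]
  have hmem : ∀ t ∈ Icc (0:ℝ) 1, ((θ, x' + t • (x - x')) : ℝ × Vec k × Vec k) ∈ LD k r := fun t ht =>
    ⟨(hball _ _ hx1 hx1' t ht).trans_lt hrc, (hball _ _ hx2 hx2' t ht).trans_lt hrc⟩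
  set g : ℝ → ℝ := fun t => fderiv ℝ L (θ, x' + t • (x - x')) (0, v) - t * T (0, x - x') (0, v) with hg
  have hder : ∀ t ∈ Icc (0:ℝ) 1, HasDerivWithinAt g
      ((fderiv ℝ (fderiv ℝ L) (θ, x' + t • (x - x')) - T) (0, x - x') (0, v)) (Icc 0 1) t := by
    intro t ht
    have h1 : HasFDerivAt (fderiv ℝ L) (fderiv ℝ (fderiv ℝ L) (θ, x' + t • (x - x')))
        (θ, x' + t • (x - x')) :=
      (((hL.contDiffAt (hU.mem_nhds (hmem t ht))).fderiv_right (m := 1) (by norm_num)).differentiableAt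
        one_ne_zero).hasFDerivAt
    have h2 := h1.comp_hasDerivAt t (O3_line θ x' (x - x') t)
    have h3 := (ContinuousLinearMap.apply ℝ ℝ ((0, v) : ℝ × Vec k × Vec k)).hasFDerivAt.comp_hasDerivAt
      t h2
    have h4 := h3.sub ((hasDerivAt_id t).mul_const (T (0, x - x') (0, v)))
    rw [one_mul] at h4
    exact h4.hasDerivWithinAt
  have hbd : ∀ t ∈ Ico (0:ℝ) 1,
      ‖(fderiv ℝ (fderiv ℝ L) (θ, x' + t • (x - x')) - T) (0, x - x') (0, v)‖ ≤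
        ε * (‖x.1 - x'.1‖ + ‖x.2 - x'.2‖) * ‖v‖ := by
    intro t ht
    have ht' := Ico_subset_Icc_self ht
    have hn := hε (x' + t • (x - x')).1 (x' + t • (x - x')).2 (hball _ _ hx1 hx1' t ht')
      (hball _ _ hx2 hx2' t ht')
    have n1 : ‖((0, x - x') : ℝ × Vec k × Vec k)‖ ≤ ‖x.1 - x'.1‖ + ‖x.2 - x'.2‖ := by
      rw [Prod.norm_def, Prod.norm_def, norm_zero]
      exact max_le (by positivity) (max_le (by simp) (by simp))
    have n2 : ‖((0, v) : ℝ × Vec k × Vec k)‖ ≤ ‖v‖ := by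
      rw [Prod.norm_def, norm_zero]
      exact max_le (norm_nonneg _) le_rfl
    refine (ContinuousLinearMap.le_opNorm _ _).trans ?_
    refine mul_le_mul ((ContinuousLinearMap.le_opNorm _ _).trans ?_) n2 (norm_nonneg _) ?_
    · exact mul_le_mul hn n1 (norm_nonneg _) ((ContinuousLinearMap.opNorm_nonneg _).trans hn)
    · exact mul_nonneg ((ContinuousLinearMap.opNorm_nonneg _).trans hn) (by positivity)
  have h := norm_image_sub_le_of_norm_deriv_le_segment_01' hder hbd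
  have e1 : g 1 - g 0 = (fderiv ℝ L (θ, x) (0, v) - fderiv ℝ L (θ, x') (0, v)) -
      (β * inner ℝ (x.1 - x'.1) v.1 + α * inner ℝ (x.2 - x'.2) v.2) := by
    simp only [hg]
    rw [one_smul, zero_smul, add_zero, add_sub_cancel, hT, one_mul, zero_mul, sub_zero]
    simp only [Prod.fst_sub, Prod.snd_sub]
    ring
  rw [e1, Real.norm_eq_abs] at h
  exact h

theorem grad_lip {Φ0 : ℝ × Vec k → ℝ × Vec k → ℝ} {𝒜 : Set (ℝ × Vec k)} {r ℓ c c3 α β : ℝ}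
    (hb : AnnBase Φ0 𝒜 r ℓ c c3 α β) {ε1 : ℝ} (hε : 0 < ε1) :
    ∃ rc : ℝ, 0 < rc ∧ rc < r ∧ ∃ η : ℝ, 0 < η ∧ ∀ Φ, AnnNear Φ0 Φ 𝒜 r η → GrLip (lg Φ) α β rc ε1 := by
  obtain ⟨rc, hrc, hrcr, hu⟩ := O3_unif hb (ε := ε1 / 2) (by positivity)
  refine ⟨rc, hrc, hrcr, ε1 / 2, by positivity, fun Φ hΦ => ?_⟩
  intro θ w u w' u' hw hu1 hw' hu1'
  have hT := (lg0_grad hb θ).2
  have hn : ∀ w u : Vec k, ‖w‖ ≤ rc → ‖u‖ ≤ rc →
      ‖fderiv ℝ (fderiv ℝ (lg Φ)) (θ, w, u) - fderiv ℝ (fderiv ℝ (lg Φ0)) (θ, 0, 0)‖ ≤ ε1 := by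
    intro w u hw hu'
    have h1 := (O3_near hb hΦ (y := (θ, w, u)) ⟨hw.trans_lt hrcr, hu'.trans_lt hrcr⟩).2
    have h2 := hu θ w u hw hu'
    exact (O3_tri (F := (ℝ × Vec k × Vec k) →L[ℝ] (ℝ × Vec k × Vec k) →L[ℝ] ℝ) h1 h2).trans_eq
      (add_halves ε1)
  have key := fun v => O3_mvt (θ := θ) (x := (w, u)) (x' := (w', u')) hΦ.smooth hrcr _ hT hn hw hu1 hw' hu1' v
  have hnn : 0 ≤ ε1 * (‖w - w'‖ + ‖u - u'‖) := by positivity
  constructor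
  · refine O3_norm_le (fun v => ?_) hnn
    have h := key (v, 0)
    have e1 : ‖((v, 0) : Vec k × Vec k)‖ = ‖v‖ := by
      rw [Prod.norm_def, norm_zero]; exact max_eq_left (norm_nonneg _)
    rw [e1] at h
    simp only [inner_zero_right, mul_zero, add_zero] at h
    rw [inner_sub_left, inner_sub_left, inner_sub_left, gw_inner, gw_inner, inner_smul_left, inner_smul_left]
    simp only [conj_trivial]
    rw [inner_sub_left] at h
    convert h using 2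
    ring
  · refine O3_norm_le (fun v => ?_) hnn
    have h := key (0, v)
    have e1 : ‖((0, v) : Vec k × Vec k)‖ = ‖v‖ := by
      rw [Prod.norm_def, norm_zero]; exact max_eq_right (norm_nonneg _)
    rw [e1] at h
    simp only [inner_zero_right, mul_zero, zero_add] at h
    rw [inner_sub_left, inner_sub_left, inner_sub_left, gu_inner, gu_inner, inner_smul_left, inner_smul_left]
    simp only [conj_trivial]
    rw [inner_sub_left] at h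
    convert h using 2
    ring

theorem grad_zero {Φ0 : ℝ × Vec k → ℝ × Vec k → ℝ} {𝒜 : Set (ℝ × Vec k)} {r ℓ c c3 α β : ℝ}
    (hb : AnnBase Φ0 𝒜 r ℓ c c3 α β) {Φ : ℝ × Vec k → ℝ × Vec k → ℝ} {η : ℝ}
    (h : AnnNear Φ0 Φ 𝒜 r η) (θ : ℝ) : ‖gw (lg Φ) (θ, 0, 0)‖ ≤ η ∧ ‖gu (lg Φ) (θ, 0, 0)‖ ≤ η := by
  have h1 := (O3_near hb h (O3_mem0 hb.r_pos θ)).1
  have hη : 0 ≤ η := (norm_nonneg _).trans h1
  have h0 := (lg0_grad hb θ).1
  have key : ∀ v : Vec k × Vec k, |fderiv ℝ (lg Φ) (θ, 0, 0) (0, v)| ≤ η * ‖v‖ := by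
    intro v
    have h2 : fderiv ℝ (lg Φ) (θ, 0, 0) (0, v) =
        (fderiv ℝ (lg Φ) (θ, 0, 0) - fderiv ℝ (lg Φ0) (θ, 0, 0)) (0, v) := by
      rw [sub_apply, h0 v, sub_zero]
    rw [h2, ← Real.norm_eq_abs]
    refine (ContinuousLinearMap.le_opNorm _ _).trans ?_
    refine mul_le_mul h1 ?_ (norm_nonneg _) hη
    rw [Prod.norm_def, norm_zero]
    exact max_le (norm_nonneg _) le_rfl
  constructor
  · refine O3_norm_le (fun v => ?_) hη
    rw [gw_inner]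
    have := key (v, 0)
    rwa [Prod.norm_mk, norm_zero, max_eq_left (norm_nonneg _)] at this
  · refine O3_norm_le (fun v => ?_) hη
    rw [gu_inner]
    have := key (0, v)
    rwa [Prod.norm_mk, norm_zero, max_eq_right (norm_nonneg _)] at this

theorem val {Φ0 : ℝ × Vec k → ℝ × Vec k → ℝ} {𝒜 : Set (ℝ × Vec k)} {r ℓ c c3 α β : ℝ}
    (hb : AnnBase Φ0 𝒜 r ℓ c c3 α β) : ∃ C : ℝ, 0 < C ∧ ∀ (Φ : ℝ × Vec k → ℝ × Vec k → ℝ) (η : ℝ),
    0 ≤ η → AnnNear Φ0 Φ 𝒜 r η → ∀ θ w u, ‖w‖ < r → ‖u‖ < r → |lg Φ (θ, w, u) - ℓ| ≤ C * (η + ‖w‖ + ‖u‖) := by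
  obtain ⟨C, hC⟩ := hb.taylor
  have hr := hb.r_pos
  have hl := hb.ℓ_pos
  have hα := hb.α_pos
  have hβ := hb.β_pos
  set C1 : ℝ := β / 2 * r + α / 2 * r + |C| * (4 * r ^ 2) with hC1
  have hC1pos : 0 < C1 := by positivity
  refine ⟨ℓ + 2 * r * C1 + C1, by positivity, fun Φ η hη hΦ θ w u hw hu => ?_⟩
  have h1 := hC θ w u hw hu
  have h2 := hΦ.c0 (θ, w) (hb.tube θ w hw) (1, u)
  change |lg Φ (θ, w, u) - lg Φ0 (θ, w, u)| ≤ η * lg Φ0 (θ, w, u) at h2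
  set L := lg Φ (θ, w, u)
  set L0 := lg Φ0 (θ, w, u)
  set a := ‖w‖
  set b := ‖u‖
  have ha : 0 ≤ a := norm_nonneg _
  have hb' : 0 ≤ b := norm_nonneg _
  have hs : (a + b) ^ 3 ≤ 4 * r ^ 2 * (a + b) := by
    have : (a + b) ^ 2 ≤ 4 * r ^ 2 := by nlinarith
    calc (a + b) ^ 3 = (a + b) ^ 2 * (a + b) := by ring
      _ ≤ 4 * r ^ 2 * (a + b) := by gcongr
  have h3 : |L0 - ℓ| ≤ C1 * (a + b) := by
    have e : L0 - ℓ = (L0 - (ℓ + β / 2 * a ^ 2 + α / 2 * b ^ 2)) + (β / 2 * a ^ 2 + α / 2 * b ^ 2) := by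
      ring
    rw [e]
    refine (abs_add_le _ _).trans ?_
    have h4 : |L0 - (ℓ + β / 2 * a ^ 2 + α / 2 * b ^ 2)| ≤ |C| * (4 * r ^ 2 * (a + b)) := by
      refine h1.trans ?_
      calc C * (a + b) ^ 3 ≤ |C| * (a + b) ^ 3 := by gcongr; exact le_abs_self C
        _ ≤ |C| * (4 * r ^ 2 * (a + b)) := by gcongr
    have h5 : |β / 2 * a ^ 2 + α / 2 * b ^ 2| ≤ (β / 2 * r + α / 2 * r) * (a + b) := by
      rw [abs_of_nonneg (by positivity)]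
      have i1 : a ^ 2 ≤ r * (a + b) := by nlinarith
      have i2 : b ^ 2 ≤ r * (a + b) := by nlinarith
      calc β / 2 * a ^ 2 + α / 2 * b ^ 2 ≤ β / 2 * (r * (a + b)) + α / 2 * (r * (a + b)) := by gcongr
        _ = _ := by ring
    calc _ ≤ |C| * (4 * r ^ 2 * (a + b)) + (β / 2 * r + α / 2 * r) * (a + b) := add_le_add h4 h5
      _ = C1 * (a + b) := by rw [hC1]; ring
  have h6 : L0 ≤ ℓ + 2 * r * C1 := by
    have := (abs_le.1 h3).2
    nlinarith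
  have e : L - ℓ = (L - L0) + (L0 - ℓ) := by ring
  rw [e]
  refine (abs_add_le _ _).trans ?_
  calc |L - L0| + |L0 - ℓ| ≤ η * L0 + C1 * (a + b) := add_le_add h2 h3
    _ ≤ η * (ℓ + 2 * r * C1) + C1 * (a + b) := by gcongr
    _ ≤ (ℓ + 2 * r * C1 + C1) * (η + a + b) := by
      have j1 : 0 ≤ (ℓ + 2 * r * C1) * (a + b) := by positivity
      have j2 : 0 ≤ C1 * η := by positivity
      nlinarith

end EscW.On
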