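import Pool.Agent.EscW.FNDefs
import Pool.Agent.EscW.O3

set_option autoImplicit false

/-!
Project EscW, part FN, module FN1: regularity and periods of the coefficients.
`lg (Φ t) (θ, w, u) = Φ t (θ, w) (1, u)`: `(1, u) ≠ 0`, so this is smooth in `(t, θ, w, u)` for `‖w‖ < r1`.
-/

noncomputable section

namespace EscW.Fn

open Filter Topology Set EscF.T EscM EscMT MeasureTheory EscW.Ex EscW.Dn EscW.On
open scoped ContDiff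

variable {d m k j n : ℕ}

/-! ### Euclidean norm -/

theorem FN1_eu_sq (ζ : ℝ × Vec k) : eu ζ ^ 2 = ζ.1 ^ 2 + ‖ζ.2‖ ^ 2 := by
  unfold eu
  exact Real.sq_sqrt (by positivity)

theorem eu_facts (ζ : ℝ × Vec k) : 0 ≤ eu ζ ∧ |ζ.1| ≤ eu ζ ∧ ‖ζ.2‖ ≤ eu ζ ∧ ‖ζ‖ ≤ eu ζ ∧ eu ζ ≤ 2 * ‖ζ‖ ∧
    0 ≤ eu ζ - ζ.1 ∧ ‖ζ.2‖ ^ 2 ≤ 2 * (eu ζ * (eu ζ - ζ.1)) ∧ (eu ζ - ζ.1) ^ 2 ≤ 2 * (eu ζ * (eu ζ - ζ.1)) ∧
    ∀ a : ℝ, 0 ≤ a → eu (a • ζ) = a * eu ζ := by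
  have h0 : 0 ≤ eu ζ := Real.sqrt_nonneg _
  have h1 : |ζ.1| ≤ eu ζ := Real.abs_le_sqrt (by nlinarith [sq_nonneg ‖ζ.2‖])
  have h2 : ‖ζ.2‖ ≤ eu ζ := Real.le_sqrt_of_sq_le (by nlinarith [sq_nonneg ζ.1])
  have h3 := FN1_eu_sq ζ
  have h4 : ζ.1 ≤ eu ζ := (le_abs_self _).trans h1
  have h5 : -ζ.1 ≤ eu ζ := (neg_le_abs _).trans h1
  refine ⟨h0, h1, h2, ?_, ?_, by linarith, by nlinarith, by nlinarith, ?_⟩
  · rw [Prod.norm_def]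
    exact max_le h1 h2
  · have n1 : ‖ζ.1‖ ≤ ‖ζ‖ := norm_fst_le ζ
    have n2 : ‖ζ.2‖ ≤ ‖ζ‖ := norm_snd_le ζ
    have n0 : 0 ≤ ‖ζ‖ := norm_nonneg ζ
    have e1 : ζ.1 ^ 2 ≤ ‖ζ‖ ^ 2 := by
      rw [← sq_abs]
      exact pow_le_pow_left₀ (abs_nonneg _) n1 2
    have e2 : ‖ζ.2‖ ^ 2 ≤ ‖ζ‖ ^ 2 := pow_le_pow_left₀ (norm_nonneg _) n2 2
    unfold eu
    exact Real.sqrt_le_iff.2 ⟨by positivity, by nlinarith⟩
  · intro a ha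
    unfold eu
    have : (a • ζ).1 ^ 2 + ‖(a • ζ).2‖ ^ 2 = a ^ 2 * (ζ.1 ^ 2 + ‖ζ.2‖ ^ 2) := by
      rw [Prod.smul_fst, Prod.smul_snd, norm_smul, smul_eq_mul, Real.norm_eq_abs, mul_pow, mul_pow, sq_abs]
      ring
    rw [this, Real.sqrt_mul (sq_nonneg a), Real.sqrt_sq ha]

theorem FN1_eu_cont : Continuous (fun ζ : ℝ × Vec k => eu ζ) := by
  unfold eu
  fun_prop

/-! ### regularity -/

theorem FN1_open (r : ℝ) : IsOpen {y : ℝ × (ℝ × Vec k × Vec k) | ‖y.2.2.1‖ < r} :=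
  isOpen_lt (by fun_prop) continuous_const

theorem FN1_G {Φ : ℝ → ℝ × Vec k → ℝ × Vec k → ℝ} {r1 : ℝ} (h : LocFin Φ r1) :
    ContDiffOn ℝ ∞ (fun y : ℝ × (ℝ × Vec k × Vec k) => lg (Φ y.1) y.2) {y | ‖y.2.2.1‖ < r1} := by
  have hm : ContDiff ℝ ∞ (fun y : ℝ × (ℝ × Vec k × Vec k) =>
      ((y.1, (y.2.1, y.2.2.1), (1, y.2.2.2)) : ℝ × (ℝ × Vec k) × (ℝ × Vec k))) := by fun_prop
  exact h.smooth.comp hm.contDiffOn fun y hy =>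
    ⟨hy, fun h0 => one_ne_zero (congrArg Prod.fst h0)⟩

/-- `toDual.symm` as a continuous linear map -/
def FN1_T (k : ℕ) : (Vec k →L[ℝ] ℝ) →L[ℝ] Vec k where
  toFun := (InnerProductSpace.toDual ℝ (Vec k)).symm
  map_add' := fun x y => map_add _ x y
  map_smul' := fun c x => by simp
  cont := (InnerProductSpace.toDual ℝ (Vec k)).symm.continuous

theorem FN1_fd {Φ : ℝ → ℝ × Vec k → ℝ × Vec k → ℝ} {r1 : ℝ} (h : LocFin Φ r1)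
    {y : ℝ × (ℝ × Vec k × Vec k)} (hy : ‖y.2.2.1‖ < r1) :
    fderiv ℝ (lg (Φ y.1)) y.2 =
      (fderiv ℝ (fun y : ℝ × (ℝ × Vec k × Vec k) => lg (Φ y.1) y.2) y).comp
        (ContinuousLinearMap.inr ℝ ℝ (ℝ × Vec k × Vec k)) := by
  have h1 : DifferentiableAt ℝ (fun y : ℝ × (ℝ × Vec k × Vec k) => lg (Φ y.1) y.2) (y.1, y.2) :=
    ((FN1_G h).contDiffAt ((FN1_open r1).mem_nhds hy)).differentiableAt (by norm_num)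
  have h2 := h1.hasFDerivAt.comp y.2 (hasFDerivAt_prodMk_right (𝕜 := ℝ) y.1 y.2)
  exact h2.fderiv

theorem FN1_grad {Φ : ℝ → ℝ × Vec k → ℝ × Vec k → ℝ} {r1 : ℝ} (h : LocFin Φ r1) :
    ContDiff ℝ ∞ (fun y : ℝ × ℝ => pn Φ y.1 y.2) ∧ ContDiff ℝ ∞ (fun y : ℝ × ℝ => gn Φ y.1 y.2) := by
  have hd : ContDiffOn ℝ ∞ (fderiv ℝ (fun y : ℝ × (ℝ × Vec k × Vec k) => lg (Φ y.1) y.2))
      {y | ‖y.2.2.1‖ < r1} := (FN1_G h).fderiv_of_isOpen (FN1_open r1) (by simp)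
  have hm : ContDiff ℝ ∞ (fun y : ℝ × ℝ => ((y.1, (y.2, 0, 0)) : ℝ × (ℝ × Vec k × Vec k))) := by fun_prop
  have hmem : ∀ y : ℝ × ℝ, ((y.1, (y.2, 0, 0)) : ℝ × (ℝ × Vec k × Vec k)) ∈
      {y : ℝ × (ℝ × Vec k × Vec k) | ‖y.2.2.1‖ < r1} := fun y => by
    show ‖(0 : Vec k)‖ < r1
    rw [norm_zero]
    exact h.pos_r
  have hc : ContDiff ℝ ∞ (fun y : ℝ × ℝ => fderiv ℝ (fun y : ℝ × (ℝ × Vec k × Vec k) => lg (Φ y.1) y.2)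
      ((y.1, (y.2, 0, 0)) : ℝ × (ℝ × Vec k × Vec k))) :=
    contDiffOn_univ.1 (hd.comp hm.contDiffOn fun y _ => hmem y)
  constructor
  · have h1 : ContDiff ℝ ∞ (fun y : ℝ × ℝ =>
        FN1_T k (((fderiv ℝ (fun y : ℝ × (ℝ × Vec k × Vec k) => lg (Φ y.1) y.2)
          ((y.1, (y.2, 0, 0)) : ℝ × (ℝ × Vec k × Vec k))).comp
          (ContinuousLinearMap.inr ℝ ℝ (ℝ × Vec k × Vec k))).comp
          ((ContinuousLinearMap.inr ℝ ℝ (Vec k × Vec k)).comp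
            (ContinuousLinearMap.inr ℝ (Vec k) (Vec k))))) :=
      (FN1_T k).contDiff.comp ((hc.clm_comp contDiff_const).clm_comp contDiff_const)
    have e : (fun y : ℝ × ℝ => pn Φ y.1 y.2) = (fun y : ℝ × ℝ =>
        FN1_T k (((fderiv ℝ (fun y : ℝ × (ℝ × Vec k × Vec k) => lg (Φ y.1) y.2)
          ((y.1, (y.2, 0, 0)) : ℝ × (ℝ × Vec k × Vec k))).comp
          (ContinuousLinearMap.inr ℝ ℝ (ℝ × Vec k × Vec k))).comp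
          ((ContinuousLinearMap.inr ℝ ℝ (Vec k × Vec k)).comp
            (ContinuousLinearMap.inr ℝ (Vec k) (Vec k))))) := by
      funext y
      unfold pn gu
      have := FN1_fd h (y := (y.1, (y.2, 0, 0))) (hmem y)
      rw [← this]
      rfl
    rw [e]
    exact h1
  · have h1 : ContDiff ℝ ∞ (fun y : ℝ × ℝ =>
        FN1_T k (((fderiv ℝ (fun y : ℝ × (ℝ × Vec k × Vec k) => lg (Φ y.1) y.2)
          ((y.1, (y.2, 0, 0)) : ℝ × (ℝ × Vec k × Vec k))).comp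
          (ContinuousLinearMap.inr ℝ ℝ (ℝ × Vec k × Vec k))).comp
          ((ContinuousLinearMap.inr ℝ ℝ (Vec k × Vec k)).comp
            (ContinuousLinearMap.inl ℝ (Vec k) (Vec k))))) :=
      (FN1_T k).contDiff.comp ((hc.clm_comp contDiff_const).clm_comp contDiff_const)
    have e : (fun y : ℝ × ℝ => gn Φ y.1 y.2) = (fun y : ℝ × ℝ =>
        FN1_T k (((fderiv ℝ (fun y : ℝ × (ℝ × Vec k × Vec k) => lg (Φ y.1) y.2)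
          ((y.1, (y.2, 0, 0)) : ℝ × (ℝ × Vec k × Vec k))).comp
          (ContinuousLinearMap.inr ℝ ℝ (ℝ × Vec k × Vec k))).comp
          ((ContinuousLinearMap.inr ℝ ℝ (Vec k × Vec k)).comp
            (ContinuousLinearMap.inl ℝ (Vec k) (Vec k))))) := by
      funext y
      unfold gn gw
      have := FN1_fd h (y := (y.1, (y.2, 0, 0))) (hmem y)
      rw [← this]
      rfl
    rw [e]
    exact h1

theorem FN1_en {Φ : ℝ → ℝ × Vec k → ℝ × Vec k → ℝ} {r1 : ℝ} (h : LocFin Φ r1) :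
    ContDiff ℝ ∞ (fun y : ℝ × ℝ => en Φ y.1 y.2) := by
  have hm : ContDiff ℝ ∞ (fun y : ℝ × ℝ =>
      ((y.1, (y.2, 0), (1, 0)) : ℝ × (ℝ × Vec k) × (ℝ × Vec k))) := by fun_prop
  refine contDiffOn_univ.1 (h.smooth.comp hm.contDiffOn fun y _ => ⟨?_, fun h0 =>
    one_ne_zero (congrArg Prod.fst h0)⟩)
  show ‖(0 : Vec k)‖ < r1
  rw [norm_zero]
  exact h.pos_r

theorem FN1_en_pos {Φ : ℝ → ℝ × Vec k → ℝ × Vec k → ℝ} {r1 : ℝ} (h : LocFin Φ r1) (t θ : ℝ) :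
    0 < en Φ t θ := by
  refine h.pos t (θ, 0) (1, 0) ?_ fun h0 => one_ne_zero (congrArg Prod.fst h0)
  show ‖(0 : Vec k)‖ < r1
  rw [norm_zero]
  exact h.pos_r

theorem FN1_deriv {E : Type*} [NormedAddCommGroup E] [NormedSpace ℝ E] {f : ℝ → ℝ → E}
    (hf : ContDiff ℝ ∞ (fun y : ℝ × ℝ => f y.1 y.2)) :
    ContDiff ℝ ∞ (fun y : ℝ × ℝ => deriv (f y.1) y.2) := by
  have h1 : ContDiff ℝ ∞ (fun y : ℝ × ℝ => fderiv ℝ (fun y : ℝ × ℝ => f y.1 y.2) y (0, 1)) :=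
    (hf.fderiv_right (m := ∞) (by simp)).clm_apply contDiff_const
  have e : (fun y : ℝ × ℝ => deriv (f y.1) y.2) =
      (fun y : ℝ × ℝ => fderiv ℝ (fun y : ℝ × ℝ => f y.1 y.2) y (0, 1)) := by
    funext y
    have h2 : HasFDerivAt (fun y : ℝ × ℝ => f y.1 y.2) (fderiv ℝ (fun y : ℝ × ℝ => f y.1 y.2) y) (y.1, y.2) :=
      (hf.differentiable (by norm_num) y).hasFDerivAt
    have h3 : HasDerivAt (fun s : ℝ => ((y.1, s) : ℝ × ℝ)) (0, 1) y.2 :=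
      (hasDerivAt_const y.2 y.1).prodMk (hasDerivAt_id y.2)
    exact (h2.comp_hasDerivAt y.2 h3).deriv
  rw [e]
  exact h1

theorem reg {Φ : ℝ → ℝ × Vec k → ℝ × Vec k → ℝ} {r1 : ℝ} (h : LocFin Φ r1) :
    ContDiff ℝ ∞ (fun y : ℝ × ℝ => en Φ y.1 y.2) ∧ ContDiff ℝ ∞ (fun y : ℝ × ℝ => pn Φ y.1 y.2) ∧
      ContDiff ℝ ∞ (fun y : ℝ × ℝ => gn Φ y.1 y.2) ∧ ContDiff ℝ ∞ (fun y : ℝ × ℝ => deriv (pn Φ y.1) y.2) ∧
      ContDiff ℝ ∞ (fun y : ℝ × ℝ => ln Φ y.1 y.2) := by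
  have h1 := FN1_en h
  have h2 := (FN1_grad h).1
  have h3 := (FN1_grad h).2
  have h4 : ContDiff ℝ ∞ (fun y : ℝ × ℝ => deriv (pn Φ y.1) y.2) := FN1_deriv h2
  refine ⟨h1, h2, h3, h4, ?_⟩
  unfold ln
  exact (h1.inv fun y => (FN1_en_pos h y.1 y.2).ne').smul (h4.sub h3)

/-! ### periods -/

theorem FN1_per_t {Φ : ℝ → ℝ × Vec k → ℝ × Vec k → ℝ} {r1 : ℝ} (h : LocFin Φ r1) (t : ℝ)
    (z : ℝ × Vec k × Vec k) (hz : ‖z.2.1‖ < r1) :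
    gu (lg (Φ (t + 1))) z = gu (lg (Φ t)) z ∧ gw (lg (Φ (t + 1))) z = gw (lg (Φ t)) z := by
  have ho : IsOpen {z : ℝ × Vec k × Vec k | ‖z.2.1‖ < r1} := isOpen_lt (by fun_prop) continuous_const
  have he : lg (Φ (t + 1)) =ᶠ[𝓝 z] lg (Φ t) := by
    filter_upwards [ho.mem_nhds hz] with y hy
    exact h.per_t t (y.1, y.2.1) (1, y.2.2) hy
  unfold gu gw
  rw [he.fderiv_eq]
  exact ⟨rfl, rfl⟩

theorem pers {Φ : ℝ → ℝ × Vec k → ℝ × Vec k → ℝ} {r1 : ℝ} (h : LocFin Φ r1) : Ot.Per2 (en Φ) ∧ Ot.Per2 (pn Φ) ∧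
    Ot.Per2 (gn Φ) ∧ Ot.Per2 (fun t θ => deriv (pn Φ t) θ) ∧ Ot.Per2 (ln Φ) := by
  have h0 : ‖(0 : Vec k)‖ < r1 := by rw [norm_zero]; exact h.pos_r
  have he : Ot.Per2 (en Φ) := ⟨fun t θ => h.per_t t (θ, 0) (1, 0) h0, fun t θ => h.per_θ t θ 0 (1, 0) h0⟩
  have hθ : ∀ t θ, gw (lg (Φ t)) (θ + 1, (0 : Vec k), (0 : Vec k)) = gw (lg (Φ t)) (θ, 0, 0) ∧
      gu (lg (Φ t)) (θ + 1, (0 : Vec k), (0 : Vec k)) = gu (lg (Φ t)) (θ, 0, 0) := fun t θ =>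
    grad_per (L := lg (Φ t)) (r := r1) (fun θ w u hw _ => h.per_θ t θ w (1, u) hw) h0 h0
  have hp : Ot.Per2 (pn Φ) := ⟨fun t θ => (FN1_per_t h t (θ, 0, 0) h0).1, fun t θ => (hθ t θ).2⟩
  have hg : Ot.Per2 (gn Φ) := ⟨fun t θ => (FN1_per_t h t (θ, 0, 0) h0).2, fun t θ => (hθ t θ).1⟩
  have hd : Ot.Per2 (fun t θ => deriv (pn Φ t) θ) := by
    refine ⟨fun t θ => ?_, fun t θ => ?_⟩
    · show deriv (pn Φ (t + 1)) θ = deriv (pn Φ t) θ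
      rw [show pn Φ (t + 1) = pn Φ t from funext fun θ => hp.1 t θ]
    · show deriv (pn Φ t) (θ + 1) = deriv (pn Φ t) θ
      rw [← deriv_comp_add_const (pn Φ t) 1 θ]
      rw [show (fun x => pn Φ t (x + 1)) = pn Φ t from funext fun θ => hp.2 t θ]
  refine ⟨he, hp, hg, hd, fun t θ => ?_, fun t θ => ?_⟩
  · unfold ln
    rw [he.1, hg.1]
    have := hd.1 t θ
    simp only at this
    rw [this]
  · unfold ln
    rw [he.2, hg.2]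
    have := hd.2 t θ
    simp only at this
    rw [this]

/-! ### bounds -/

theorem FN1_red {E : Type*} {f : ℝ → ℝ → E} (hp : Ot.Per2 f) (t θ : ℝ) :
    ∃ t' ∈ Icc (0:ℝ) 1, ∃ θ' ∈ Icc (0:ℝ) 1, f t θ = f t' θ' := by
  have p1 : Function.Periodic (fun t => f t θ) 1 := fun t => hp.1 t θ
  obtain ⟨t', ht', e1⟩ := p1.exists_mem_Ico₀ one_pos t
  have p2 : Function.Periodic (fun θ => f t' θ) 1 := fun θ => hp.2 t' θ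
  obtain ⟨θ', hθ', e2⟩ := p2.exists_mem_Ico₀ one_pos θ
  exact ⟨t', ⟨ht'.1, ht'.2.le⟩, θ', ⟨hθ'.1, hθ'.2.le⟩, e1.trans e2⟩

theorem FN1_bd {E : Type*} [NormedAddCommGroup E] {f : ℝ → ℝ → E}
    (hc : Continuous (fun y : ℝ × ℝ => f y.1 y.2)) (hp : Ot.Per2 f) : ∃ C : ℝ, 0 < C ∧ ∀ t θ, ‖f t θ‖ ≤ C := by
  obtain ⟨C, hC⟩ := (isCompact_Icc.prod isCompact_Icc : IsCompact (Icc (0:ℝ) 1 ×ˢ Icc (0:ℝ) 1)).exists_bound_of_continuousOn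
    hc.continuousOn
  refine ⟨max C 1, lt_max_of_lt_right one_pos, fun t θ => ?_⟩
  obtain ⟨t', ht', θ', hθ', e⟩ := FN1_red hp t θ
  rw [e]
  exact (hC (t', θ') ⟨ht', hθ'⟩).trans (le_max_left _ _)

theorem FN1_sph : IsCompact {ζ : ℝ × Vec k | eu ζ = 1} := by
  refine Metric.isCompact_of_isClosed_isBounded (isClosed_eq FN1_eu_cont continuous_const) ?_
  refine (Metric.isBounded_closedBall (x := (0 : ℝ × Vec k)) (r := 1)).subset fun ζ hζ => ?_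
  rw [mem_closedBall_zero_iff]
  have h1 := (eu_facts ζ).2.2.2.1
  have h2 : eu ζ = 1 := hζ
  rwa [h2] at h1

theorem FN1_phi {Φ : ℝ → ℝ × Vec k → ℝ × Vec k → ℝ} {r1 : ℝ} (h : LocFin Φ r1) : ∃ c C : ℝ, 0 < c ∧ 0 < C ∧
    ∀ (t : ℝ) (z ζ : ℝ × Vec k), ‖z.2‖ ≤ r1 / 2 → c * eu ζ ≤ Φ t z ζ ∧ Φ t z ζ ≤ C * eu ζ := by
  have hr := h.pos_r
  set K : Set (ℝ × (ℝ × Vec k) × (ℝ × Vec k)) :=
    Icc (0:ℝ) 1 ×ˢ ((Icc (0:ℝ) 1 ×ˢ Metric.closedBall (0 : Vec k) (r1 / 2)) ×ˢ {ζ : ℝ × Vec k | eu ζ = 1}) with hK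
  have hKc : IsCompact K :=
    isCompact_Icc.prod ((isCompact_Icc.prod (isCompact_closedBall _ _)).prod FN1_sph)
  have hKs : K ⊆ {y : ℝ × (ℝ × Vec k) × (ℝ × Vec k) | ‖y.2.1.2‖ < r1 ∧ y.2.2 ≠ 0} := by
    rintro ⟨t, ⟨θ, w⟩, ζ⟩ ⟨-, ⟨-, hw⟩, hζ⟩
    refine ⟨?_, ?_⟩
    · have : ‖w‖ ≤ r1 / 2 := mem_closedBall_zero_iff.1 hw
      show ‖w‖ < r1
      linarith
    · rintro h0
      have hz : eu ζ = 1 := hζ
      have h0 : ζ = 0 := h0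
      rw [h0] at hz
      have := (eu_facts (0 : ℝ × Vec k)).2.2.2.2.1
      rw [hz, norm_zero] at this
      linarith
  have hcont : ContinuousOn (fun y : ℝ × (ℝ × Vec k) × (ℝ × Vec k) => Φ y.1 y.2.1 y.2.2) K :=
    h.smooth.continuousOn.mono hKs
  have hne : K.Nonempty := by
    refine ⟨(0, (0, 0), (1, 0)), ⟨le_rfl, zero_le_one⟩, ⟨⟨le_rfl, zero_le_one⟩, ?_⟩, ?_⟩
    · rw [mem_closedBall_zero_iff]
      show ‖(0 : Vec k)‖ ≤ r1 / 2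
      rw [norm_zero]
      linarith
    · show eu ((1, 0) : ℝ × Vec k) = 1
      unfold eu
      simp
  obtain ⟨y1, hy1, hmin⟩ := hKc.exists_isMinOn hne hcont
  obtain ⟨y2, hy2, hmax⟩ := hKc.exists_isMaxOn hne hcont
  have hpos : 0 < Φ y1.1 y1.2.1 y1.2.2 := h.pos _ _ _ (hKs hy1).1 (hKs hy1).2
  have hpos2 : 0 < Φ y2.1 y2.2.1 y2.2.2 := h.pos _ _ _ (hKs hy2).1 (hKs hy2).2
  refine ⟨Φ y1.1 y1.2.1 y1.2.2, Φ y2.1 y2.2.1 y2.2.2, hpos, hpos2, fun t z ζ hz => ?_⟩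
  have hz' : ‖z.2‖ < r1 := by linarith
  obtain ⟨f0, -, -, f3, -, -, -, -, f4⟩ := eu_facts ζ
  by_cases hζ : ζ = 0
  · have e0 : eu (0 : ℝ × Vec k) = 0 := by
      have a1 := (eu_facts (0 : ℝ × Vec k)).2.2.2.2.1
      have a2 := (eu_facts (0 : ℝ × Vec k)).1
      rw [norm_zero] at a1
      linarith
    have e1 : Φ t z 0 = 0 := by
      have := h.hom t z 0 0 hz' le_rfl
      rw [zero_smul, zero_mul] at this
      exact this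
    rw [hζ, e0, e1, mul_zero, mul_zero]
    exact ⟨le_rfl, le_rfl⟩
  · have hp : 0 < eu ζ := lt_of_lt_of_le (norm_pos_iff.2 hζ) f3
    have hsc : eu ((eu ζ)⁻¹ • ζ) = 1 := by
      rw [f4 _ (inv_nonneg.2 f0), inv_mul_cancel₀ hp.ne']
    have per : Ot.Per2 (fun t θ => Φ t (θ, z.2) ((eu ζ)⁻¹ • ζ)) :=
      ⟨fun t θ => h.per_t t (θ, z.2) _ hz', fun t θ => h.per_θ t θ z.2 _ hz'⟩
    obtain ⟨t', ht', θ', hθ', e⟩ := FN1_red per t z.1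
    have hmem : ((t', (θ', z.2), (eu ζ)⁻¹ • ζ) : ℝ × (ℝ × Vec k) × (ℝ × Vec k)) ∈ K :=
      ⟨ht', ⟨hθ', mem_closedBall_zero_iff.2 hz⟩, hsc⟩
    have e2 : Φ t z ζ = eu ζ * Φ t' (θ', z.2) ((eu ζ)⁻¹ • ζ) := by
      have e3 : Φ t z ((eu ζ)⁻¹ • ζ) = Φ t' (θ', z.2) ((eu ζ)⁻¹ • ζ) := e
      rw [← e3, ← h.hom t z _ _ hz' f0, smul_smul, mul_inv_cancel₀ hp.ne', one_smul]
    have m1 : Φ y1.1 y1.2.1 y1.2.2 ≤ Φ t' (θ', z.2) ((eu ζ)⁻¹ • ζ) := hmin hmem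
    have m2 : Φ t' (θ', z.2) ((eu ζ)⁻¹ • ζ) ≤ Φ y2.1 y2.2.1 y2.2.2 := hmax hmem
    rw [e2]
    constructor
    · rw [mul_comm]
      exact mul_le_mul_of_nonneg_left m1 f0
    · rw [mul_comm]
      exact mul_le_mul_of_nonneg_right m2 f0

theorem bounds {Φ : ℝ → ℝ × Vec k → ℝ × Vec k → ℝ} {r1 : ℝ} (h : LocFin Φ r1) : ∃ c C : ℝ, 0 < c ∧ 0 < C ∧
    (∀ t θ, c ≤ en Φ t θ ∧ en Φ t θ ≤ C ∧ ‖pn Φ t θ‖ ≤ C ∧ ‖gn Φ t θ‖ ≤ C ∧ ‖deriv (pn Φ t) θ‖ ≤ C ∧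
      ‖ln Φ t θ‖ ≤ C) ∧
    ∀ (t : ℝ) (z ζ : ℝ × Vec k), ‖z.2‖ ≤ r1 / 2 → c * eu ζ ≤ Φ t z ζ ∧ Φ t z ζ ≤ C * eu ζ := by
  obtain ⟨r1', r2, r3, r4, r5⟩ := reg h
  obtain ⟨p1, p2, p3, p4, p5⟩ := pers h
  obtain ⟨c0, C0, hc0, hC0, h0⟩ := FN1_phi h
  obtain ⟨C2, hC2, h2⟩ := FN1_bd r2.continuous p2
  obtain ⟨C3, hC3, h3⟩ := FN1_bd r3.continuous p3
  obtain ⟨C4, hC4, h4⟩ := FN1_bd (f := fun t θ => deriv (pn Φ t) θ) r4.continuous p4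
  obtain ⟨C5, hC5, h5⟩ := FN1_bd r5.continuous p5
  have he1 : eu ((1, 0) : ℝ × Vec k) = 1 := by
    unfold eu
    simp
  set C := max C0 (max C2 (max C3 (max C4 C5))) with hC
  have l0 : C0 ≤ C := le_max_left _ _
  have l2 : C2 ≤ C := (le_max_left _ _).trans (le_max_right _ _)
  have l3 : C3 ≤ C := ((le_max_left _ _).trans (le_max_right _ _)).trans (le_max_right _ _)
  have l4 : C4 ≤ C :=
    (((le_max_left _ _).trans (le_max_right _ _)).trans (le_max_right _ _)).trans (le_max_right _ _)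
  have l5 : C5 ≤ C :=
    (((le_max_right _ _).trans (le_max_right _ _)).trans (le_max_right _ _)).trans (le_max_right _ _)
  refine ⟨c0, C, hc0, hC0.trans_le l0, fun t θ => ?_, fun t z ζ hz => ?_⟩
  · have hz0 : ‖((θ, 0) : ℝ × Vec k).2‖ ≤ r1 / 2 := by
      show ‖(0 : Vec k)‖ ≤ r1 / 2
      rw [norm_zero]
      linarith [h.pos_r]
    have h1 := h0 t (θ, 0) (1, 0) hz0
    rw [he1, mul_one, mul_one] at h1
    exact ⟨h1.1, h1.2.trans l0, (h2 t θ).trans l2, (h3 t θ).trans l3, (h4 t θ).trans l4, (h5 t θ).trans l5⟩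
  · have h1 := h0 t z ζ hz
    exact ⟨h1.1, h1.2.trans (mul_le_mul_of_nonneg_right l0 (eu_facts ζ).1)⟩

/-! ### second derivatives -/

/-- the derivative of the Lagrangian as a function of all variables -/
def FN1_H (Φ : ℝ → ℝ × Vec k → ℝ × Vec k → ℝ) (y : ℝ × (ℝ × Vec k × Vec k)) : (ℝ × Vec k × Vec k) →L[ℝ] ℝ :=
  (fderiv ℝ (fun y : ℝ × (ℝ × Vec k × Vec k) => lg (Φ y.1) y.2) y).comp
    (ContinuousLinearMap.inr ℝ ℝ (ℝ × Vec k × Vec k))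

theorem FN1_H_smooth {Φ : ℝ → ℝ × Vec k → ℝ × Vec k → ℝ} {r1 : ℝ} (h : LocFin Φ r1) :
    ContDiffOn ℝ ∞ (FN1_H Φ) {y | ‖y.2.2.1‖ < r1} :=
  ((FN1_G h).fderiv_of_isOpen (FN1_open r1) (by simp)).clm_comp contDiffOn_const

/-- the second derivative of the Lagrangian on the curve -/
def FN1_b (Φ : ℝ → ℝ × Vec k → ℝ × Vec k → ℝ) (t θ : ℝ) :
    (ℝ × Vec k × Vec k) →L[ℝ] (ℝ × Vec k × Vec k) →L[ℝ] ℝ :=
  fderiv ℝ (fderiv ℝ (lg (Φ t))) (θ, 0, 0)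

theorem FN1_fd2 {Φ : ℝ → ℝ × Vec k → ℝ × Vec k → ℝ} {r1 : ℝ} (h : LocFin Φ r1)
    {y : ℝ × (ℝ × Vec k × Vec k)} (hy : ‖y.2.2.1‖ < r1) :
    fderiv ℝ (fderiv ℝ (lg (Φ y.1))) y.2 =
      (fderiv ℝ (FN1_H Φ) y).comp (ContinuousLinearMap.inr ℝ ℝ (ℝ × Vec k × Vec k)) := by
  have ho : IsOpen {z : ℝ × Vec k × Vec k | ‖z.2.1‖ < r1} := isOpen_lt (by fun_prop) continuous_const
  have he : fderiv ℝ (lg (Φ y.1)) =ᶠ[𝓝 y.2] fun z => FN1_H Φ (y.1, z) := by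
    filter_upwards [ho.mem_nhds hy] with z hz
    exact FN1_fd h (y := (y.1, z)) hz
  rw [he.fderiv_eq]
  have h1 : DifferentiableAt ℝ (FN1_H Φ) (y.1, y.2) :=
    ((FN1_H_smooth h).contDiffAt ((FN1_open r1).mem_nhds hy)).differentiableAt (by norm_num)
  have h2 := h1.hasFDerivAt.comp y.2 (hasFDerivAt_prodMk_right (𝕜 := ℝ) y.1 y.2)
  exact h2.fderiv

theorem FN1_b_smooth {Φ : ℝ → ℝ × Vec k → ℝ × Vec k → ℝ} {r1 : ℝ} (h : LocFin Φ r1) :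
    ContDiff ℝ ∞ (fun y : ℝ × ℝ => FN1_b Φ y.1 y.2) := by
  have hd : ContDiffOn ℝ ∞ (fderiv ℝ (FN1_H Φ)) {y | ‖y.2.2.1‖ < r1} :=
    (FN1_H_smooth h).fderiv_of_isOpen (FN1_open r1) (by simp)
  have hm : ContDiff ℝ ∞ (fun y : ℝ × ℝ => ((y.1, (y.2, 0, 0)) : ℝ × (ℝ × Vec k × Vec k))) := by fun_prop
  have hmem : ∀ y : ℝ × ℝ, ((y.1, (y.2, 0, 0)) : ℝ × (ℝ × Vec k × Vec k)) ∈
      {y : ℝ × (ℝ × Vec k × Vec k) | ‖y.2.2.1‖ < r1} := fun y => by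
    show ‖(0 : Vec k)‖ < r1
    rw [norm_zero]
    exact h.pos_r
  have hc : ContDiff ℝ ∞ (fun y : ℝ × ℝ => fderiv ℝ (FN1_H Φ)
      ((y.1, (y.2, 0, 0)) : ℝ × (ℝ × Vec k × Vec k))) :=
    contDiffOn_univ.1 (hd.comp hm.contDiffOn fun y _ => hmem y)
  have e : (fun y : ℝ × ℝ => FN1_b Φ y.1 y.2) = fun y : ℝ × ℝ => (fderiv ℝ (FN1_H Φ)
      ((y.1, (y.2, 0, 0)) : ℝ × (ℝ × Vec k × Vec k))).comp
        (ContinuousLinearMap.inr ℝ ℝ (ℝ × Vec k × Vec k)) := by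
    funext y
    exact FN1_fd2 h (y := (y.1, (y.2, 0, 0))) (hmem y)
  rw [e]
  exact hc.clm_comp contDiff_const

theorem FN1_b_per {Φ : ℝ → ℝ × Vec k → ℝ × Vec k → ℝ} {r1 : ℝ} (h : LocFin Φ r1) : Ot.Per2 (FN1_b Φ) := by
  have h0 : ‖(0 : Vec k)‖ < r1 := by rw [norm_zero]; exact h.pos_r
  have ho : IsOpen {z : ℝ × Vec k × Vec k | ‖z.2.1‖ < r1} := isOpen_lt (by fun_prop) continuous_const
  refine ⟨fun t θ => ?_, fun t θ => ?_⟩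
  · have he : lg (Φ (t + 1)) =ᶠ[𝓝 ((θ, 0, 0) : ℝ × Vec k × Vec k)] lg (Φ t) := by
      filter_upwards [ho.mem_nhds (show ((θ, 0, 0) : ℝ × Vec k × Vec k) ∈ {z : ℝ × Vec k × Vec k | ‖z.2.1‖ < r1}
        from h0)] with y hy
      exact h.per_t t (y.1, y.2.1) (1, y.2.2) hy
    unfold FN1_b
    exact he.fderiv.fderiv_eq
  · have h1 := O3_per (f := lg (Φ t)) (r := r1) (fun y hy => by
      obtain ⟨a, b, c⟩ := y
      rw [O3_add_eq]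
      exact h.per_θ t a b (1, c) hy.1)
    have h2 := O3_per (f := fderiv ℝ (lg (Φ t))) (r := r1) h1 (θ, 0, 0) ⟨h0, h0⟩
    rw [O3_add_eq] at h2
    exact h2

theorem FN1_Qn (Φ : ℝ → ℝ × Vec k → ℝ × Vec k → ℝ) (t θ : ℝ) (w : Vec k) :
    Qn Φ t θ w = (en Φ t θ)⁻¹ * FN1_b Φ t θ (0, 0, w) (0, 0, w) := rfl

theorem FN1_Qn_smooth {Φ : ℝ → ℝ × Vec k → ℝ × Vec k → ℝ} {r1 : ℝ} (h : LocFin Φ r1) :
    ContDiff ℝ ∞ (fun y : ℝ × (ℝ × Vec k) => Qn Φ y.1 y.2.1 y.2.2) := by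
  have hm : ContDiff ℝ ∞ (fun y : ℝ × (ℝ × Vec k) => ((y.1, y.2.1) : ℝ × ℝ)) := by fun_prop
  have hv : ContDiff ℝ ∞ (fun y : ℝ × (ℝ × Vec k) => ((0, 0, y.2.2) : ℝ × Vec k × Vec k)) := by fun_prop
  have h1 : ContDiff ℝ ∞ (fun y : ℝ × (ℝ × Vec k) => FN1_b Φ y.1 y.2.1 (0, 0, y.2.2) (0, 0, y.2.2)) :=
    (((FN1_b_smooth h).comp hm).clm_apply hv).clm_apply hv
  have h2 : ContDiff ℝ ∞ (fun y : ℝ × (ℝ × Vec k) => (en Φ y.1 y.2.1)⁻¹) :=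
    ((FN1_en h).comp hm).inv fun y => (FN1_en_pos h y.1 y.2.1).ne'
  exact h2.mul h1

theorem reg_cf {Φ : ℝ → ℝ × Vec k → ℝ × Vec k → ℝ} {r1 : ℝ} (h : LocFin Φ r1) (K : ℝ) : ContDiff ℝ ∞ (fun y : ℝ × (ℝ × Vec k) => cf Φ K y.1 y.2) ∧
    ContDiff ℝ ∞ (fun y : ℝ × (ℝ × Vec k) => Qn Φ y.1 y.2.1 y.2.2) := by
  have h1 := FN1_Qn_smooth h
  refine ⟨?_, h1⟩
  have hm : ContDiff ℝ ∞ (fun y : ℝ × (ℝ × Vec k) => ((y.1, y.2.1) : ℝ × ℝ)) := by fun_prop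
  have hv : ContDiff ℝ ∞ (fun y : ℝ × (ℝ × Vec k) => y.2.2) := by fun_prop
  have h2 : ContDiff ℝ ∞ (fun y : ℝ × (ℝ × Vec k) => ln Φ y.1 y.2.1) := (reg h).2.2.2.2.comp hm
  exact (contDiff_const.add (h2.inner ℝ hv)).add (contDiff_const.mul h1)

theorem per_cf {Φ : ℝ → ℝ × Vec k → ℝ × Vec k → ℝ} {r1 : ℝ} (h : LocFin Φ r1) (K t : ℝ) (z : ℝ × Vec k) (l : ℤ) : cf Φ K (t + 1) z = cf Φ K t z ∧
    cf Φ K t (z.1 + l, z.2) = cf Φ K t z ∧ Qn Φ (t + 1) z.1 z.2 = Qn Φ t z.1 z.2 ∧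
    Qn Φ t (z.1 + 1) z.2 = Qn Φ t z.1 z.2 := by
  obtain ⟨p1, -, -, -, p5⟩ := pers h
  have pb := FN1_b_per h
  have q1 : ∀ θ w, Qn Φ (t + 1) θ w = Qn Φ t θ w := fun θ w => by
    rw [FN1_Qn, FN1_Qn, p1.1, pb.1]
  have q2 : ∀ θ w, Qn Φ t (θ + 1) w = Qn Φ t θ w := fun θ w => by
    rw [FN1_Qn, FN1_Qn, p1.2, pb.2]
  have c2 : ∀ θ, cf Φ K t (θ + 1, z.2) = cf Φ K t (θ, z.2) := fun θ => by
    unfold cf
    simp only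
    rw [p5.2, q2]
  refine ⟨?_, ?_, q1 _ _, q2 _ _⟩
  · unfold cf
    rw [p5.1, q1]
  · have hp : Function.Periodic (fun θ => cf Φ K t (θ, z.2)) 1 := c2
    have := (hp.int_mul l) z.1
    simpa using this

theorem Qn_upp {Φ : ℝ → ℝ × Vec k → ℝ × Vec k → ℝ} {r1 : ℝ} (h : LocFin Φ r1) : (∃ C : ℝ, 0 < C ∧ ∀ (t θ : ℝ) (w : Vec k), |Qn Φ t θ w| ≤ C * ‖w‖ ^ 2) ∧
    ∀ (t θ a : ℝ) (w : Vec k), Qn Φ t θ (a • w) = a ^ 2 * Qn Φ t θ w := by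
  constructor
  · obtain ⟨C1, hC1, h1⟩ := FN1_bd (FN1_b_smooth h).continuous (FN1_b_per h)
    obtain ⟨c, C, hc, hC, h2, -⟩ := bounds h
    refine ⟨c⁻¹ * C1, by positivity, fun t θ w => ?_⟩
    have hn : ‖((0, 0, w) : ℝ × Vec k × Vec k)‖ = ‖w‖ := by
      rw [Prod.norm_def, Prod.norm_def]
      simp
    have e1 : ‖FN1_b Φ t θ (0, 0, w) (0, 0, w)‖ ≤ C1 * ‖w‖ ^ 2 := by
      calc ‖FN1_b Φ t θ (0, 0, w) (0, 0, w)‖ ≤ ‖FN1_b Φ t θ (0, 0, w)‖ * ‖((0, 0, w) : ℝ × Vec k × Vec k)‖ :=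
            ContinuousLinearMap.le_opNorm _ _
        _ ≤ (‖FN1_b Φ t θ‖ * ‖((0, 0, w) : ℝ × Vec k × Vec k)‖) * ‖((0, 0, w) : ℝ × Vec k × Vec k)‖ := by
            gcongr
            exact ContinuousLinearMap.le_opNorm _ _
        _ ≤ (C1 * ‖((0, 0, w) : ℝ × Vec k × Vec k)‖) * ‖((0, 0, w) : ℝ × Vec k × Vec k)‖ := by
            gcongr
            exact h1 t θ
        _ = C1 * ‖w‖ ^ 2 := by rw [hn]; ring
    have e2 : 0 < en Φ t θ := hc.trans_le (h2 t θ).1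
    rw [FN1_Qn, abs_mul, abs_of_pos (inv_pos.2 e2), mul_assoc]
    rw [Real.norm_eq_abs] at e1
    refine mul_le_mul ?_ e1 (abs_nonneg _) (inv_nonneg.2 hc.le)
    exact inv_anti₀ hc (h2 t θ).1
  · intro t θ a w
    have e : ((0, 0, a • w) : ℝ × Vec k × Vec k) = a • ((0, 0, w) : ℝ × Vec k × Vec k) := by
      simp
    rw [FN1_Qn, FN1_Qn, e, map_smul, map_smul, smul_apply, smul_eq_mul, smul_eq_mul]
    ring

end EscW.Fn
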