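import Pool.Agent.EscW.FN4
import Pool.Agent.EscW.O14

set_option autoImplicit false

/-!
Project EscW, part FN, module FN10: the conformal factor in the chart.
`pol_pin`: `√(r²) ..`, `Complex.cos_arg`, `Complex.sin_arg` (also for `Y 0 = Y 1 = 0`: both sides are zero in these components). `pin_pol`: `Complex.arg` of `r e^{2πi z.1}`, `r = 1 + z.2 0 > 0`, is `2π z.1` modulo `2π`. `Wf_smooth`: `Θ` vanishes for `Y 0² + Y 1² ≤ 1/4` (`off`), so only points with `(Y 0, Y 1) ≠ 0` matter; near such a point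
`cf Φ K t (pin Y)` is smooth in `(t, Y)`: `cf` is smooth in `(t, z)` (`reg_cf`) and has period one in `z.1` (`per_cf`), and `Complex.arg` is smooth off the negative real axis; on the negative axis use `arg` of `-(Y 0 + i Y 1)` plus `π`, which agrees modulo `2π`. `Θ S` is smooth. `Wf_bd`: where `Θ ≠ 0`, `‖(pin Y).2‖ ≤ C0 δ` (`supp` with `z = pin Y`,
`0 < 1 + z.2 0 = √(..)` by `off`); `(1 - ε) cf + ε/2 S` is between `(1 - ε)(1 - ε/4)` and `(1 - ε)(1 + ε/4) + ε/2 ≤ 1`. `Wf_one`: `2 ≤ ‖Y‖`, `‖Y‖² = (1 + w0)² + Σ_{i≥1} w_i² ≤ (1 + ‖w‖)²`, so `‖w‖ ≥ 1 > C0 δ` and `Θ Y = 0`. `Wf_pol`: `pin (pol 1 z) = (z.1 + l, z.2)`, `per_cf`.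
-/

noncomputable section

namespace EscW.Fn

open Filter Topology Set EscF.T EscM EscMT MeasureTheory EscW.Ex EscW.Dn EscW.On
open scoped ContDiff

variable {d m k j n : ℕ}

theorem FN10_norm (a b : ℝ) : ‖(⟨a, b⟩ : ℂ)‖ = √(a ^ 2 + b ^ 2) := by
  rw [Complex.norm_eq_sqrt_sq_add_sq]

theorem pol_pin (Y : Vec (j + 2)) : pol 1 (pin Y) = Y := by
  have hpi : (2 * Real.pi) ≠ 0 := by positivity
  have h1 : 2 * Real.pi * (Complex.arg ⟨Y 0, Y 1⟩ / (2 * Real.pi)) = Complex.arg ⟨Y 0, Y 1⟩ := by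
    field_simp
  ext i
  refine Fin.cases ?_ (fun i => Fin.cases ?_ (fun i => ?_) i) i
  · show (1 + (√(Y 0 ^ 2 + Y 1 ^ 2) - 1)) * Real.cos (2 * Real.pi * (Complex.arg ⟨Y 0, Y 1⟩ / (2 * Real.pi))) = Y 0
    rw [h1, ← FN10_norm]
    have h2 := Complex.norm_mul_cos_arg ⟨Y 0, Y 1⟩
    rw [add_sub_cancel]
    exact h2
  · show (1 + (√(Y 0 ^ 2 + Y 1 ^ 2) - 1)) * Real.sin (2 * Real.pi * (Complex.arg ⟨Y 0, Y 1⟩ / (2 * Real.pi))) = Y 1
    rw [h1, ← FN10_norm]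
    have h2 := Complex.norm_mul_sin_arg ⟨Y 0, Y 1⟩
    rw [add_sub_cancel]
    exact h2
  · rfl

theorem pin_pol {z : ℝ × Vec (j + 1)} (hz : 0 < 1 + z.2 0) : ∃ l : ℤ, pin (pol 1 z) = (z.1 + l, z.2) := by
  have hpi : (2 * Real.pi) ≠ 0 := by positivity
  have h0 : pol 1 z 0 = (1 + z.2 0) * Real.cos (2 * Real.pi * z.1) := rfl
  have h1 : pol 1 z 1 = (1 + z.2 0) * Real.sin (2 * Real.pi * z.1) := rfl
  have hc : (⟨pol 1 z 0, pol 1 z 1⟩ : ℂ) = ((1 + z.2 0 : ℝ) : ℂ) *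
      (Complex.cos ((2 * Real.pi * z.1 : ℝ) : ℂ) + Complex.sin ((2 * Real.pi * z.1 : ℝ) : ℂ) * Complex.I) := by
    rw [← Complex.ofReal_cos, ← Complex.ofReal_sin]
    apply Complex.ext
    · rw [Complex.re_ofReal_mul]
      simp only [Complex.add_re, Complex.mul_re, Complex.ofReal_re, Complex.ofReal_im, Complex.I_re, Complex.I_im]
      rw [h0]
      ring
    · rw [Complex.im_ofReal_mul]
      simp only [Complex.add_im, Complex.mul_im, Complex.ofReal_re, Complex.ofReal_im, Complex.I_re, Complex.I_im]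
      rw [h1]
      ring
  have ha : Complex.arg ⟨pol 1 z 0, pol 1 z 1⟩ = toIocMod Real.two_pi_pos (-Real.pi) (2 * Real.pi * z.1) := by
    rw [hc, Complex.arg_mul_cos_add_sin_mul_I_eq_toIocMod hz]
  have hs : √(pol 1 z 0 ^ 2 + pol 1 z 1 ^ 2) = 1 + z.2 0 := by
    have : pol 1 z 0 ^ 2 + pol 1 z 1 ^ 2 = (1 + z.2 0) ^ 2 := by
      rw [h0, h1, mul_pow, mul_pow, ← mul_add, Real.cos_sq_add_sin_sq, mul_one]
    rw [this, Real.sqrt_sq hz.le]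
  refine ⟨-toIocDiv Real.two_pi_pos (-Real.pi) (2 * Real.pi * z.1), ?_⟩
  refine Prod.ext ?_ ?_
  · show Complex.arg ⟨pol 1 z 0, pol 1 z 1⟩ / (2 * Real.pi) = _
    rw [ha, toIocMod, zsmul_eq_mul]
    push_cast
    field_simp
    ring
  · show WithLp.toLp 2 (Fin.cons (√(pol 1 z 0 ^ 2 + pol 1 z 1 ^ 2) - 1) (fun i : Fin j => pol 1 z i.succ.succ)) = z.2
    rw [hs]
    ext i
    refine Fin.cases ?_ (fun i => ?_) i
    · show 1 + z.2 0 - 1 = z.2 0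
      ring
    · rfl

theorem FN10_supp {Θ S : Vec (j + 2) → ℝ} {C0 δ : ℝ} (hsh : IsShape Θ S C0 δ) {Y : Vec (j + 2)}
    (hY : Θ Y ≠ 0) : 0 < 1 + (pin Y).2 0 ∧ ‖(pin Y).2‖ ≤ C0 * δ := by
  have h1 : 1 / 4 < Y 0 ^ 2 + Y 1 ^ 2 := by
    by_contra hc
    exact hY (hsh.off Y (not_lt.1 hc))
  have h2 : 0 < 1 + (pin Y).2 0 := by
    show 0 < 1 + (√(Y 0 ^ 2 + Y 1 ^ 2) - 1)
    have : 0 < √(Y 0 ^ 2 + Y 1 ^ 2) := Real.sqrt_pos.2 (by linarith)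
    linarith
  refine ⟨h2, hsh.supp (pin Y) h2 ?_⟩
  rw [pol_pin]
  exact hY

theorem FN10_c (i : Fin (j + 2)) : ContDiff ℝ ∞ (fun Y : Vec (j + 2) => Y i) :=
  (EuclideanSpace.proj i : Vec (j + 2) →L[ℝ] ℝ).contDiff

/-- the second component of `pin` is smooth off the axis -/
theorem FN10_snd {Y : Vec (j + 2)} (hY : 0 < Y 0 ^ 2 + Y 1 ^ 2) :
    ContDiffAt ℝ ∞ (fun Y : Vec (j + 2) => (pin Y).2) Y := by
  rw [contDiffAt_euclidean]
  intro i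
  refine Fin.cases ?_ (fun i => ?_) i
  · show ContDiffAt ℝ ∞ (fun Y : Vec (j + 2) => √(Y 0 ^ 2 + Y 1 ^ 2) - 1) Y
    have h1 : ContDiffAt ℝ ∞ (fun Y : Vec (j + 2) => Y 0 ^ 2 + Y 1 ^ 2) Y :=
      (((FN10_c 0).pow 2).add ((FN10_c 1).pow 2)).contDiffAt
    exact (h1.sqrt hY.ne').sub contDiffAt_const
  · exact (FN10_c i.succ.succ).contDiffAt

theorem FN10_cx : ContDiff ℝ ∞ (fun Y : Vec (j + 2) => (⟨Y 0, Y 1⟩ : ℂ)) := by
  have h : (fun Y : Vec (j + 2) => (⟨Y 0, Y 1⟩ : ℂ)) =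
      fun Y : Vec (j + 2) => ((Y 0 : ℝ) : ℂ) + ((Y 1 : ℝ) : ℂ) * Complex.I := by
    funext Y
    apply Complex.ext <;> simp
  rw [h]
  exact (Complex.ofRealCLM.contDiff.comp (FN10_c 0)).add
    ((Complex.ofRealCLM.contDiff.comp (FN10_c 1)).mul contDiff_const)

theorem FN10_arg {x : ℂ} (hx : x ∈ Complex.slitPlane) : ContDiffAt ℝ ∞ Complex.arg x := by
  have h1 : ContDiffAt ℝ ∞ Complex.log x :=
    ((Complex.contDiffAt_log (n := ∞) hx).restrict_scalars ℝ)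
  have h2 : Complex.arg = fun x => (Complex.log x).im := by
    funext x
    rw [Complex.log_im]
  rw [h2]
  exact (Complex.imCLM.contDiff.contDiffAt).comp x h1

/-- `cf` in the coordinates of the chart is smooth off the axis -/
theorem FN10_cf {Φ : ℝ → ℝ × Vec (j + 1) → ℝ × Vec (j + 1) → ℝ} {r1 : ℝ} (h : LocFin Φ r1) (K : ℝ)
    {y : ℝ × Vec (j + 2)} (hY : 0 < y.2 0 ^ 2 + y.2 1 ^ 2) :
    ContDiffAt ℝ ∞ (fun y : ℝ × Vec (j + 2) => cf Φ K y.1 (pin y.2)) y := by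
  have key : ∀ a : Vec (j + 2) → ℝ, ContDiffAt ℝ ∞ a y.2 →
      (∀ᶠ Y in 𝓝 y.2, ∃ l : ℤ, a Y = (pin Y).1 + l) →
      ContDiffAt ℝ ∞ (fun y : ℝ × Vec (j + 2) => cf Φ K y.1 (pin y.2)) y := by
    intro a ha hl
    have h1 : ContDiffAt ℝ ∞ (fun y : ℝ × Vec (j + 2) => (y.1, (a y.2, (pin y.2).2))) y :=
      contDiffAt_fst.prodMk
        ((ContDiffAt.comp y ha contDiffAt_snd).prodMk
          (ContDiffAt.comp (g := fun Y : Vec (j + 2) => (pin Y).2) y (FN10_snd hY) contDiffAt_snd))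
    have h2 := ((reg_cf h K).1.contDiffAt (x := (y.1, (a y.2, (pin y.2).2)))).comp y h1
    refine h2.congr_of_eventuallyEq ?_
    have h3 : ∀ᶠ y' in 𝓝 y, ∃ l : ℤ, a y'.2 = (pin y'.2).1 + l := continuousAt_snd.eventually hl
    filter_upwards [h3] with y' hy'
    obtain ⟨l, hl⟩ := hy'
    show cf Φ K y'.1 (pin y'.2) = cf Φ K y'.1 (a y'.2, (pin y'.2).2)
    rw [hl]
    exact ((per_cf h K y'.1 (pin y'.2) l).2.1).symm
  have hne : (⟨y.2 0, y.2 1⟩ : ℂ) ≠ 0 := by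
    intro h0
    have h1 : y.2 0 = 0 := congrArg Complex.re h0
    have h2 : y.2 1 = 0 := congrArg Complex.im h0
    rw [h1, h2] at hY
    simp at hY
  by_cases hs : (⟨y.2 0, y.2 1⟩ : ℂ) ∈ Complex.slitPlane
  · refine key (fun Y => (pin Y).1) ?_ (Eventually.of_forall fun Y => ⟨0, by simp⟩)
    show ContDiffAt ℝ ∞ (fun Y : Vec (j + 2) => Complex.arg ⟨Y 0, Y 1⟩ / (2 * Real.pi)) y.2
    exact (ContDiffAt.comp y.2 (FN10_arg hs) FN10_cx.contDiffAt).div_const _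
  · have hs' : -(⟨y.2 0, y.2 1⟩ : ℂ) ∈ Complex.slitPlane := by
      rw [Complex.mem_slitPlane_iff] at hs ⊢
      push Not at hs
      obtain ⟨h1, h2⟩ := hs
      left
      rcases lt_or_eq_of_le h1 with h3 | h3
      · simpa using h3
      · exfalso
        exact hne (Complex.ext h3 h2)
    refine key (fun Y => (Complex.arg (-⟨Y 0, Y 1⟩) + Real.pi) / (2 * Real.pi)) ?_ ?_
    · have h1 : ContDiffAt ℝ ∞ (fun Y : Vec (j + 2) => -(⟨Y 0, Y 1⟩ : ℂ)) y.2 := FN10_cx.contDiffAt.neg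
      exact ((ContDiffAt.comp y.2 (FN10_arg hs') h1).add contDiffAt_const).div_const _
    · have h1 : ∀ᶠ Y in 𝓝 y.2, (⟨Y 0, Y 1⟩ : ℂ) ≠ 0 :=
        (FN10_cx (j := j)).continuous.continuousAt.eventually_ne hne
      filter_upwards [h1] with Y hY'
      have h2 := Complex.arg_neg_coe_angle hY'
      have h3 : ((Complex.arg (-⟨Y 0, Y 1⟩) + Real.pi : ℝ) : Real.Angle) = (Complex.arg ⟨Y 0, Y 1⟩ : ℝ) := by
        rw [Real.Angle.coe_add, h2, add_assoc, Real.Angle.coe_pi_add_coe_pi, add_zero]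
      rw [Real.Angle.angle_eq_iff_two_pi_dvd_sub] at h3
      obtain ⟨k, hk⟩ := h3
      refine ⟨k, ?_⟩
      show (Complex.arg (-⟨Y 0, Y 1⟩) + Real.pi) / (2 * Real.pi) = Complex.arg ⟨Y 0, Y 1⟩ / (2 * Real.pi) + k
      have hpi : (2 * Real.pi) ≠ 0 := by positivity
      have h4 : Complex.arg (-⟨Y 0, Y 1⟩) + Real.pi = Complex.arg ⟨Y 0, Y 1⟩ + 2 * Real.pi * k := by
        linarith
      rw [h4, add_div, mul_div_cancel_left₀ _ hpi]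

theorem Wf_smooth {Φ : ℝ → ℝ × Vec (j + 1) → ℝ × Vec (j + 1) → ℝ} {r1 : ℝ} (h : LocFin Φ r1) {Θ S : Vec (j + 2) → ℝ} {C0 δ : ℝ} (hsh : IsShape Θ S C0 δ) (K ε : ℝ) :
    ContDiff ℝ ∞ (fun y : ℝ × Vec (j + 2) => Wf Φ K ε Θ S y.1 y.2) := by
  have h1 : ContDiff ℝ ∞ (fun y : ℝ × Vec (j + 2) => Θ y.2 * cf Φ K y.1 (pin y.2)) := by
    rw [contDiff_iff_contDiffAt]
    intro y
    by_cases hy : y.2 0 ^ 2 + y.2 1 ^ 2 < 1 / 4
    · have h2 : ∀ᶠ y' in 𝓝 y, y'.2 0 ^ 2 + y'.2 1 ^ 2 < 1 / 4 := by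
        have h3 : Continuous (fun y' : ℝ × Vec (j + 2) => y'.2 0 ^ 2 + y'.2 1 ^ 2) :=
          (((FN10_c 0).pow 2).add ((FN10_c 1).pow 2)).continuous.comp continuous_snd
        exact h3.continuousAt.eventually_lt continuousAt_const hy
      refine (contDiffAt_const (c := (0 : ℝ))).congr_of_eventuallyEq ?_
      filter_upwards [h2] with y' hy'
      show Θ y'.2 * cf Φ K y'.1 (pin y'.2) = 0
      rw [hsh.off _ hy'.le, zero_mul]
    · have h2 : 0 < y.2 0 ^ 2 + y.2 1 ^ 2 := by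
        have := not_lt.1 hy
        linarith
      exact ((hsh.smooth.comp contDiff_snd).contDiffAt).mul (FN10_cf h K h2)
  have h2 : (fun y : ℝ × Vec (j + 2) => Wf Φ K ε Θ S y.1 y.2) = fun y =>
      (1 - ε) * (Θ y.2 * cf Φ K y.1 (pin y.2)) + ε / 2 * (Θ y.2 * S y.2) + (1 - Θ y.2) := by
    funext y
    unfold Wf
    ring
  rw [h2]
  exact ((contDiff_const.mul h1).add (contDiff_const.mul (hsh.smooth'.comp contDiff_snd))).add
    (contDiff_const.sub (hsh.smooth.comp contDiff_snd))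

theorem Wf_per {Φ : ℝ → ℝ × Vec (j + 1) → ℝ × Vec (j + 1) → ℝ} {r1 : ℝ} (h : LocFin Φ r1) (Θ S : Vec (j + 2) → ℝ) (K ε t : ℝ) (Y : Vec (j + 2)) :
    Wf Φ K ε Θ S (t + 1) Y = Wf Φ K ε Θ S t Y := by
  unfold Wf
  rw [(per_cf h K t (pin Y) 0).1]

theorem Wf_bd {Φ : ℝ → ℝ × Vec (j + 1) → ℝ × Vec (j + 1) → ℝ} {Θ S : Vec (j + 2) → ℝ} {C0 δ : ℝ}
    (hsh : IsShape Θ S C0 δ) {K ε : ℝ} (hε : 0 < ε) (hε4 : ε ≤ 1 / 4)
    (hcf : ∀ (t : ℝ) (z : ℝ × Vec (j + 1)), ‖z.2‖ ≤ C0 * δ → |cf Φ K t z - 1| ≤ ε / 4) (t : ℝ)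
    (Y : Vec (j + 2)) : |Wf Φ K ε Θ S t Y - 1| ≤ 2 * ε ∧ 0 < Wf Φ K ε Θ S t Y := by
  by_cases hY : Θ Y = 0
  · have : Wf Φ K ε Θ S t Y = 1 := by
      unfold Wf
      rw [hY]
      ring
    rw [this]
    constructor
    · rw [sub_self, abs_zero]
      positivity
    · exact one_pos
  · have h1 := abs_le.1 (hcf t (pin Y) (FN10_supp hsh hY).2)
    obtain ⟨h01, h02⟩ := hsh.mem01 Y
    obtain ⟨h03, h04⟩ := hsh.mem01' Y
    have h2 : Wf Φ K ε Θ S t Y - 1 = Θ Y * ((1 - ε) * cf Φ K t (pin Y) + ε / 2 * S Y - 1) := by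
      unfold Wf
      ring
    have h3 : |(1 - ε) * cf Φ K t (pin Y) + ε / 2 * S Y - 1| ≤ 5 / 4 * ε := by
      rw [abs_le]
      constructor <;> nlinarith
    have h4 : |Wf Φ K ε Θ S t Y - 1| ≤ 5 / 4 * ε := by
      rw [h2, abs_mul, abs_of_nonneg h01]
      calc Θ Y * |(1 - ε) * cf Φ K t (pin Y) + ε / 2 * S Y - 1| ≤ 1 * (5 / 4 * ε) :=
            mul_le_mul h02 h3 (abs_nonneg _) zero_le_one
        _ = 5 / 4 * ε := one_mul _
    refine ⟨by linarith, ?_⟩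
    have h5 := (abs_le.1 h4).1
    nlinarith

theorem Wf_one {Φ : ℝ → ℝ × Vec (j + 1) → ℝ × Vec (j + 1) → ℝ} {Θ S : Vec (j + 2) → ℝ} {C0 δ : ℝ}
    (hsh : IsShape Θ S C0 δ) (hδ : C0 * δ ≤ 1 / 2) (K ε t : ℝ) {Y : Vec (j + 2)} (hY : 2 ≤ ‖Y‖) :
    Wf Φ K ε Θ S t Y = 1 := by
  have h0 : Θ Y = 0 := by
    by_contra hc
    have h1 := (FN10_supp hsh hc).2
    have h2 := pol_norm 1 (pin Y)
    rw [pol_pin, abs_one] at h2
    linarith
  unfold Wf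
  rw [h0]
  ring

theorem Wf_pol {Φ : ℝ → ℝ × Vec (j + 1) → ℝ × Vec (j + 1) → ℝ} {r1 : ℝ} (h : LocFin Φ r1) {Θ S : Vec (j + 2) → ℝ} (K ε t : ℝ) {z : ℝ × Vec (j + 1)}
    (hz : 0 < 1 + z.2 0) (hΘ : Θ (pol 1 z) = 1) :
    Wf Φ K ε Θ S t (pol 1 z) = (1 - ε) * cf Φ K t z + ε / 2 * S (pol 1 z) := by
  obtain ⟨l, hl⟩ := pin_pol hz
  unfold Wf
  rw [hΘ, hl, (per_cf h K t z l).2.1]
  ring

end EscW.Fn
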