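import Pool.Agent.EscW.FNDefs
import Pool.Agent.EscW.D6

set_option autoImplicit false

/-!
Project EscW, part FN, module FN11: conformal factors on `M`, with the time as a parameter.
`smooth` at `(x0, t)`, `p0 = M.r x0`: if `p0 + vz l ∈ W`: near `x0`, `wMt (M.r x) t = w t (s⁻¹ • g' (M.r x + vz l))`.
If there is no such `l`: `K = g (closed ball of radius 2 s < ρ)` is compact, contained in `W`, so `p0 ∉ K + ℤᵈ`, a
closed set, and `wMt = 1` near `p0` on `M.N`.
-/

noncomputable section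

namespace EscW.Fn

open Filter Topology Set EscF.T EscM EscMT MeasureTheory EscW.Ex EscW.Dn EscW.On
open scoped ContDiff

variable {d m k j n : ℕ}

theorem FN11_in {W : Set (Vec d)} (hW : ∀ x ∈ W, ∀ y ∈ W, dist x y < 1) (s : ℝ) (g' : Vec d → Vec m)
    (w : ℝ → Vec m → ℝ) {x : Vec d} {l : Fin d → ℤ} (h : x + vz l ∈ W) (t : ℝ) :
    wMt W s g' w x t = w t (s⁻¹ • g' (x + vz l)) := by
  have h1 : ∃ l : Fin d → ℤ, x + vz l ∈ W := ⟨l, h⟩
  unfold wMt
  rw [dif_pos h1, D6_vz_inj hW h1.choose_spec h]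

theorem FN11_out {W : Set (Vec d)} (s : ℝ) (g' : Vec d → Vec m) (w : ℝ → Vec m → ℝ)
    {x : Vec d} (h : ¬ ∃ l : Fin d → ℤ, x + vz l ∈ W) (t : ℝ) : wMt W s g' w x t = 1 := by
  unfold wMt
  rw [dif_neg h]

theorem wMt_at {M : Sub d} {W : Set (Vec d)} {ρ : ℝ} {g : Vec m → Vec d} {g' : Vec d → Vec m}
    (hg : MChart M m W ρ g g') {s : ℝ} (hs : 0 < s) (w : ℝ → Vec m → ℝ) {Y : Vec m}
    (hY : ‖s • Y‖ < ρ) (t : ℝ) : wMt W s g' w (g (s • Y)) t = w t Y := by
  have hb : s • Y ∈ Metric.ball (0 : Vec m) ρ := by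
    rw [mem_ball_zero_iff]
    exact hY
  have h0 : (vz (0 : Fin d → ℤ) : Vec d) = 0 := vz_zero'
  have h1 : g (s • Y) + vz (0 : Fin d → ℤ) ∈ W := by
    rw [h0, add_zero]
    exact (hg.maps _ hb).2
  rw [FN11_in hg.small s g' w h1, h0, add_zero, hg.left _ hb, smul_smul,
    inv_mul_cancel₀ hs.ne', one_smul]

theorem wMt_conf {M : Sub d} {W : Set (Vec d)} {ρ : ℝ} {g : Vec m → Vec d} {g' : Vec d → Vec m}
    (hg : MChart M m W ρ g g') {s : ℝ} (hs : 0 < s) (hs2 : s * 2 < ρ) {w : ℝ → Vec m → ℝ}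
    (hw : ContDiff ℝ ∞ (fun y : ℝ × Vec m => w y.1 y.2)) (hper : ∀ t Y, w (t + 1) Y = w t Y)
    (hw1 : ∀ t Y, 2 ≤ ‖Y‖ → w t Y = 1) {ε : ℝ} (hwε : ∀ t Y, |w t Y - 1| ≤ ε)
    (hwp : ∀ t Y, 0 < w t Y) {W0 : Set (Vec d)} (hW : W ⊆ W0) : IsConfT M W0 ε (wMt W s g' w) := by
  constructor
  · rintro ⟨x0, t0⟩ hx0
    have hx0 : x0 ∈ M.U := hx0
    apply ContDiffAt.contDiffWithinAt
    have hr0 : ContDiffAt ℝ ∞ M.r x0 := D6_at M hx0
    have hrc : ContDiffAt ℝ ∞ (fun z : Vec d × ℝ => M.r z.1) (x0, t0) :=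
      ContDiffAt.comp (x0, t0) hr0 contDiffAt_fst
    by_cases hex : ∃ l : Fin d → ℤ, M.r x0 + vz l ∈ W
    · obtain ⟨l, hl⟩ := hex
      have hyc : ContDiffAt ℝ ∞ (fun z : Vec d × ℝ => M.r z.1 + vz l) (x0, t0) :=
        hrc.add contDiffAt_const
      have hgc : ContDiffAt ℝ ∞ g' (M.r x0 + vz l) :=
        hg.smooth'.contDiffAt (hg.isOpen.mem_nhds hl)
      have hgy : ContDiffAt ℝ ∞ (fun z : Vec d × ℝ => g' (M.r z.1 + vz l)) (x0, t0) :=
        ContDiffAt.comp (x0, t0) hgc hyc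
      have hwc : ContDiffAt ℝ ∞ (fun z : Vec d × ℝ => w z.2 (s⁻¹ • g' (M.r z.1 + vz l))) (x0, t0) :=
        ContDiffAt.comp (x0, t0) hw.contDiffAt (contDiffAt_snd.prodMk (hgy.const_smul s⁻¹))
      refine hwc.congr_of_eventuallyEq ?_
      have hWn : ∀ᶠ z : Vec d × ℝ in 𝓝 (x0, t0), M.r z.1 + vz l ∈ W :=
        hyc.continuousAt.eventually (hg.isOpen.mem_nhds hl)
      filter_upwards [hWn] with z hz
      exact FN11_in hg.small s g' w hz z.2
    · refine (contDiffAt_const (c := (1 : ℝ))).congr_of_eventuallyEq ?_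
      have hKc : IsCompact (g '' Metric.closedBall 0 (s * 2)) := by
        refine (isCompact_closedBall _ _).image_of_continuousOn (hg.smooth.continuousOn.mono ?_)
        exact Metric.closedBall_subset_ball hs2
      have hKn : M.r x0 ∉ {x : Vec d | ∃ l : Fin d → ℤ, x + vz l ∈
          g '' Metric.closedBall 0 (s * 2)} := by
        rintro ⟨l, z, hz, hzl⟩
        apply hex
        refine ⟨l, ?_⟩
        rw [← hzl]
        exact (hg.maps z (Metric.closedBall_subset_ball hs2 hz)).2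
      have hn := (D6_closed hKc).isOpen_compl.mem_nhds hKn
      have hn2 := hrc.continuousAt.eventually hn
      have hn3 : ∀ᶠ z : Vec d × ℝ in 𝓝 (x0, t0), z.1 ∈ M.U :=
        continuousAt_fst.eventually (M.isOpen.mem_nhds hx0)
      filter_upwards [hn3, hn2] with z hzU hzK
      by_cases hex2 : ∃ l : Fin d → ℤ, M.r z.1 + vz l ∈ W
      · obtain ⟨l, hl⟩ := hex2
        have hN : M.r z.1 + vz l ∈ M.N := M.perN l _ (M.mem z.1 hzU)
        rw [FN11_in hg.small s g' w hl, hw1]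
        by_contra hlt
        push Not at hlt
        apply hzK
        refine ⟨l, g' (M.r z.1 + vz l), ?_, (hg.right _ ⟨hN, hl⟩).2⟩
        rw [Metric.mem_closedBall, dist_zero_right]
        have h1 : g' (M.r z.1 + vz l) = s • (s⁻¹ • g' (M.r z.1 + vz l)) := by
          rw [smul_smul, mul_inv_cancel₀ hs.ne', one_smul]
        rw [h1, norm_smul, Real.norm_eq_abs, abs_of_pos hs]
        exact mul_le_mul_of_nonneg_left hlt.le hs.le
      · exact FN11_out s g' w hex2 z.2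
  · intro k x hx t
    by_cases hex : ∃ l : Fin d → ℤ, x + vz l ∈ W
    · obtain ⟨l, hl⟩ := hex
      have h1 : x + vz k + vz (l + -k) = x + vz l := by
        rw [vz_add', vz_neg']
        abel
      have h2 : x + vz k + vz (l + -k) ∈ W := by
        rw [h1]
        exact hl
      rw [FN11_in hg.small s g' w hl, FN11_in hg.small s g' w h2, h1]
    · have hex2 : ¬ ∃ l : Fin d → ℤ, x + vz k + vz l ∈ W := by
        rintro ⟨l, hl⟩
        apply hex
        refine ⟨k + l, ?_⟩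
        rw [vz_add', ← add_assoc]
        exact hl
      rw [FN11_out s g' w hex, FN11_out s g' w hex2]
  · intro x _ t
    by_cases hex : ∃ l : Fin d → ℤ, x + vz l ∈ W
    · obtain ⟨l, hl⟩ := hex
      rw [FN11_in hg.small s g' w hl, FN11_in hg.small s g' w hl, hper]
    · rw [FN11_out s g' w hex, FN11_out s g' w hex]
  · intro x _ t
    by_cases hex : ∃ l : Fin d → ℤ, x + vz l ∈ W
    · obtain ⟨l, hl⟩ := hex
      rw [FN11_in hg.small s g' w hl]
      exact hwε _ _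
    · rw [FN11_out s g' w hex, sub_self, abs_zero]
      exact (abs_nonneg _).trans (hwε 0 0)
  · intro x _ t
    by_cases hex : ∃ l : Fin d → ℤ, x + vz l ∈ W
    · obtain ⟨l, hl⟩ := hex
      rw [FN11_in hg.small s g' w hl]
      exact hwp _ _
    · rw [FN11_out s g' w hex]
      exact one_pos
  · intro x _ hx t
    refine FN11_out s g' w ?_ t
    rintro ⟨l, hl⟩
    exact hx l (hW hl)

end EscW.Fn
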