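import Pool.Agent.EscW.FNDefs
import Pool.Agent.EscW.O13
import Pool.Agent.EscW.O14

set_option autoImplicit false

/-!
Project EscW, part FN, module FN12: the metric in annular coordinates.
`Pj z = g (s • pol 1 z)` is smooth for `‖z.2‖ < 1/2`, with values in `M.N`; its derivative is tangent and injective.
The metric in annular coordinates is the composition of the metric on `M` with `Pj` and its derivative.
-/

noncomputable section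

namespace EscW.Fn

open Filter Topology Set EscF.T EscM EscMT MeasureTheory EscW.Ex EscW.Dn EscW.On
open scoped ContDiff

variable {d m k j n : ℕ}

theorem FN12_lt {z : ℝ × Vec (j + 1)} (hz : ‖z.2‖ < 1 / 2) {s ρ : ℝ} (hs : 0 < s) (hs2 : s * 2 < ρ) :
    s • pol 1 z ∈ Metric.ball (0 : Vec (j + 2)) ρ := by
  rw [mem_ball_zero_iff, norm_smul, Real.norm_eq_abs, abs_of_pos hs]
  have h1 : ‖(pol 1 z : Vec (j + 2))‖ ≤ |(1:ℝ)| + ‖z.2‖ := pol_norm 1 z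
  rw [abs_one] at h1
  have h2 : s * ‖(pol 1 z : Vec (j + 2))‖ ≤ s * 2 := mul_le_mul_of_nonneg_left (by linarith) hs.le
  linarith

theorem FN12_smooth {M : Sub d} {W : Set (Vec d)} {ρ : ℝ} {g : Vec (j + 2) → Vec d}
    {g' : Vec d → Vec (j + 2)} (hg : MChart M (j + 2) W ρ g g') {s : ℝ} (hs : 0 < s)
    (hs2 : s * 2 < ρ) :
    ContDiffOn ℝ ∞ (fun z : ℝ × Vec (j + 1) => g (s • pol 1 z)) {z | ‖z.2‖ < 1 / 2} := by
  have h1 : ContDiff ℝ ∞ (fun z : ℝ × Vec (j + 1) => s • (pol 1 z : Vec (j + 2))) :=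
    (pol_smooth 1).const_smul s
  exact hg.smooth.comp h1.contDiffOn (fun z hz => FN12_lt hz hs hs2)

/-- the derivative of the chart after the annular coordinates -/
theorem FN12_deriv {M : Sub d} {W : Set (Vec d)} {ρ : ℝ} {g : Vec (j + 2) → Vec d}
    {g' : Vec d → Vec (j + 2)} (hg : MChart M (j + 2) W ρ g g') {s : ℝ} (hs : 0 < s)
    (hs2 : s * 2 < ρ) {z : ℝ × Vec (j + 1)} (hz : ‖z.2‖ < 1 / 2) (ζ : ℝ × Vec (j + 1)) :
    fderiv ℝ g' (g (s • pol 1 z)) (fderiv ℝ (fun z => g (s • pol 1 z)) z ζ) =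
      s • (fderiv ℝ (pol 1) z ζ : Vec (j + 2)) := by
  have hball := FN12_lt hz hs hs2
  have hed : DifferentiableAt ℝ (pol 1 : ℝ × Vec (j + 1) → Vec (j + 2)) z :=
    (pol_smooth 1).differentiable (by simp) z
  have hAe : HasFDerivAt (fun z : ℝ × Vec (j + 1) => s • (pol 1 z : Vec (j + 2)))
      (s • fderiv ℝ (pol 1) z) z := hed.hasFDerivAt.const_smul s
  have hgd : DifferentiableAt ℝ g (s • pol 1 z) :=
    ((hg.smooth.contDiffAt (Metric.isOpen_ball.mem_nhds hball)).differentiableAt (by simp))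
  have hGd : HasFDerivAt (fun z : ℝ × Vec (j + 1) => g (s • pol 1 z))
      ((fderiv ℝ g (s • pol 1 z)).comp (s • fderiv ℝ (pol 1) z)) z := hgd.hasFDerivAt.comp z hAe
  have hg'd : DifferentiableAt ℝ g' (g (s • pol 1 z)) :=
    ((hg.smooth'.contDiffAt (hg.isOpen.mem_nhds (hg.maps _ hball).2)).differentiableAt (by simp))
  have h1 : HasFDerivAt (fun z : ℝ × Vec (j + 1) => g' (g (s • pol 1 z)))
      ((fderiv ℝ g' (g (s • pol 1 z))).comp (fderiv ℝ (fun z => g (s • pol 1 z)) z)) z := by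
    rw [hGd.fderiv]
    exact hg'd.hasFDerivAt.comp z hGd
  have hev : (fun z : ℝ × Vec (j + 1) => g' (g (s • pol 1 z))) =ᶠ[𝓝 z]
      fun z => s • (pol 1 z : Vec (j + 2)) := by
    have h2 : ∀ᶠ y in 𝓝 z, s • (pol 1 y : Vec (j + 2)) ∈ Metric.ball (0 : Vec (j + 2)) ρ :=
      hAe.continuousAt.eventually (Metric.isOpen_ball.mem_nhds hball)
    filter_upwards [h2] with y hy
    exact hg.left _ hy
  have h3 := (h1.congr_of_eventuallyEq hev.symm).unique hAe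
  have h4 := congrArg (fun L : (ℝ × Vec (j + 1)) →L[ℝ] Vec (j + 2) => L ζ) h3
  exact h4

theorem FN12_imm {M : Sub d} {W : Set (Vec d)} {ρ : ℝ} {g : Vec (j + 2) → Vec d}
    {g' : Vec d → Vec (j + 2)} (hg : MChart M (j + 2) W ρ g g') {s : ℝ} (hs : 0 < s)
    (hs2 : s * 2 < ρ) {z : ℝ × Vec (j + 1)} (hz : ‖z.2‖ < 1 / 2) {ζ : ℝ × Vec (j + 1)} (hζ : ζ ≠ 0) :
    fderiv ℝ (fun z => g (s • pol 1 z)) z ζ ≠ 0 := by
  intro h
  have h1 := FN12_deriv hg hs hs2 hz ζ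
  rw [h, map_zero] at h1
  have h2 : (fderiv ℝ (pol 1) z ζ : Vec (j + 2)) = 0 := by
    rcases smul_eq_zero.1 h1.symm with h3 | h3
    · exact absurd h3 hs.ne'
    · exact h3
  have h3 := pol_fd 1 z ζ
  rw [h2, norm_zero] at h3
  have h5 : ‖z.2 0‖ ≤ ‖z.2‖ := PiLp.norm_apply_le _ _
  rw [Real.norm_eq_abs] at h5
  have h6 := (abs_lt.1 (h5.trans_lt hz)).1
  have hz0 : 0 < 1 + z.2 0 := by linarith
  have a1 := sq_nonneg (2 * Real.pi * (1 + z.2 0) * ζ.1)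
  have a2 := sq_nonneg ‖ζ.2‖
  have b1 : (2 * Real.pi * (1 + z.2 0) * ζ.1) ^ 2 = 0 := by nlinarith
  have b2 : ‖ζ.2‖ ^ 2 = 0 := by nlinarith
  have c1 : 2 * Real.pi * (1 + z.2 0) ≠ 0 := by positivity
  have h7 : ζ.1 = 0 := (mul_eq_zero.1 (pow_eq_zero_iff (two_ne_zero) |>.1 b1)).resolve_left c1
  have h8 : ζ.2 = 0 := norm_eq_zero.1 (pow_eq_zero_iff (two_ne_zero) |>.1 b2)
  exact hζ (Prod.ext h7 h8)

theorem FN12_iter {E E' : Type*} [NormedAddCommGroup E] [NormedSpace ℝ E] [NormedAddCommGroup E']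
    [NormedSpace ℝ E'] (L : E →L[ℝ] E') {G : E' → ℝ} {O : Set E'} (hO : IsOpen O)
    (hG : ContDiffOn ℝ ∞ G O) {x : E} (hx : L x ∈ O) (ξ : E) :
    iteratedFDeriv ℝ 2 (fun y => G (L y)) x ![ξ, ξ] = iteratedFDeriv ℝ 2 G (L x) ![L ξ, L ξ] := by
  have hO' : IsOpen (L ⁻¹' O) := hO.preimage L.continuous
  have h1 := L.iteratedFDerivWithin_comp_right (n := ∞) hG hO.uniqueDiffOn hO'.uniqueDiffOn hx
    (i := 2) (by exact_mod_cast (ENat.LEInfty.out : (2 : WithTop ℕ∞) ≤ ∞))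
  rw [iteratedFDerivWithin_of_isOpen 2 hO' hx, iteratedFDerivWithin_of_isOpen 2 hO hx] at h1
  have h2 : (G ∘ L) = fun y => G (L y) := rfl
  rw [h2] at h1
  rw [h1, ContinuousMultilinearMap.compContinuousLinearMap_apply]
  congr 1
  funext i
  fin_cases i <;> rfl

theorem locFin_of {M : Sub d} {W0 : Set (Vec d)} {F : Vec d → Vec d → ℝ → ℝ}
    (hF : IsSmoothFinslerT M W0 F) {W : Set (Vec d)} (hW : W ⊆ W0) {ρ : ℝ} {g : Vec (j + 2) → Vec d} {g' : Vec d → Vec (j + 2)}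
    (hg : MChart M (j + 2) W ρ g g') {s : ℝ} (hs : 0 < s) (hs2 : s * 2 < ρ) :
    LocFin (fun t z ζ => F (g (s • pol 1 z)) (fderiv ℝ (fun z => g (s • pol 1 z)) z ζ) t) (1 / 2) := by
  set Pj : ℝ × Vec (j + 1) → Vec d := fun z => g (s • pol 1 z) with hPjdef
  have hVo : IsOpen {z : ℝ × Vec (j + 1) | ‖z.2‖ < 1 / 2} :=
    isOpen_lt (continuous_norm.comp continuous_snd) continuous_const
  have hPj : ContDiffOn ℝ ∞ Pj {z | ‖z.2‖ < 1 / 2} := FN12_smooth hg hs hs2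
  have hm : ∀ z ∈ {z : ℝ × Vec (j + 1) | ‖z.2‖ < 1 / 2}, Pj z ∈ M.N := fun z hz =>
    (hg.maps _ (FN12_lt hz hs hs2)).1
  have hw : ∀ z ∈ {z : ℝ × Vec (j + 1) | ‖z.2‖ < 1 / 2}, Pj z ∈ W := fun z hz =>
    (hg.maps _ (FN12_lt hz hs hs2)).2
  have htan : ∀ z ∈ {z : ℝ × Vec (j + 1) | ‖z.2‖ < 1 / 2}, ∀ ζ,
      IsTangent M (Pj z) (fderiv ℝ Pj z ζ) := fun z hz ζ => O13_tan hVo hPj hm hz ζ
  have himm : ∀ z ∈ {z : ℝ × Vec (j + 1) | ‖z.2‖ < 1 / 2}, ∀ ζ, ζ ≠ 0 → fderiv ℝ Pj z ζ ≠ 0 :=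
    fun z hz ζ hζ => FN12_imm hg hs hs2 hz hζ
  have hex : ∀ z ∈ {z : ℝ × Vec (j + 1) | ‖z.2‖ < 1 / 2}, Pj z + vz (0 : Fin d → ℤ) ∈ W0 := by
    intro z hz
    rw [vz_zero', add_zero]
    exact hW (hw z hz)
  have hper : Function.Periodic Pj ((1 : ℝ), (0 : Vec (j + 1))) := by
    rintro ⟨θ, w⟩
    rw [Prod.mk_add_mk, add_zero]
    change g (s • pol 1 (θ + 1, w)) = g (s • pol 1 (θ, w))
    rw [pol_per]
  refine ⟨by norm_num, ?_, ?_, ?_, ?_, ?_, ?_⟩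
  · -- smooth
    have hdf : ContDiffOn ℝ ∞ (fderiv ℝ Pj) {z | ‖z.2‖ < 1 / 2} := hPj.fderiv_of_isOpen hVo (by simp)
    have hπ : ContDiff ℝ ∞ (fun y : ℝ × (ℝ × Vec (j + 1)) × (ℝ × Vec (j + 1)) => y.2.1) :=
      contDiff_fst.comp contDiff_snd
    have hu : ContDiff ℝ ∞ (fun y : ℝ × (ℝ × Vec (j + 1)) × (ℝ × Vec (j + 1)) => y.2.2) :=
      contDiff_snd.comp contDiff_snd
    have hX : ContDiffOn ℝ ∞ (fun y : ℝ × (ℝ × Vec (j + 1)) × (ℝ × Vec (j + 1)) =>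
        ((Pj y.2.1, fderiv ℝ Pj y.2.1 y.2.2), y.1)) {y | ‖y.2.1.2‖ < 1 / 2 ∧ y.2.2 ≠ 0} :=
      ((hPj.comp hπ.contDiffOn (fun y hy => hy.1)).prodMk
        ((hdf.comp hπ.contDiffOn (fun y hy => hy.1)).clm_apply hu.contDiffOn)).prodMk
        contDiff_fst.contDiffOn
    have hmaps : MapsTo (fun y : ℝ × (ℝ × Vec (j + 1)) × (ℝ × Vec (j + 1)) =>
        ((Pj y.2.1, fderiv ℝ Pj y.2.1 y.2.2), y.1)) {y | ‖y.2.1.2‖ < 1 / 2 ∧ y.2.2 ≠ 0}
        {z | z.1 ∈ TD M ∧ ∃ l : Fin d → ℤ, M.r z.1.1 + vz l ∈ W0} := by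
      rintro y ⟨hy1, hy2⟩
      refine ⟨⟨M.sub (hm _ hy1), ?_⟩, 0, ?_⟩
      · have h1 : fderiv ℝ M.r (Pj y.2.1) (fderiv ℝ Pj y.2.1 y.2.2) = fderiv ℝ Pj y.2.1 y.2.2 :=
          htan _ hy1 _
        change fderiv ℝ M.r (Pj y.2.1) (fderiv ℝ Pj y.2.1 y.2.2) ≠ 0
        rw [h1]
        exact himm _ hy1 _ hy2
      · change M.r (Pj y.2.1) + vz 0 ∈ W0
        rw [O13_r (hm _ hy1)]
        exact hex _ hy1
    refine (hF.smooth.comp hX hmaps).congr ?_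
    rintro y ⟨hy1, hy2⟩
    have h1 := O13_ext (fun x v => F x v y.1) (hm _ hy1) (htan _ hy1 y.2.2)
    exact h1.symm
  · intro t z ζ hz
    exact hF.fins.periodic _ (hm z hz) _ (htan z hz ζ) t
  · intro t θ w ζ _
    have h1 := hper (θ, w)
    have h2 := O13_perd hper (θ, w)
    rw [Prod.mk_add_mk, add_zero] at h1 h2
    change F (Pj (θ + 1, w)) (fderiv ℝ Pj (θ + 1, w) ζ) t = F (Pj (θ, w)) (fderiv ℝ Pj (θ, w) ζ) t
    rw [h1, h2]
  · intro t z ζ a hz ha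
    change F (Pj z) (fderiv ℝ Pj z (a • ζ)) t = a * F (Pj z) (fderiv ℝ Pj z ζ) t
    rw [map_smul]
    exact (hF.fins.fins t).hom _ (hm z hz) _ (htan z hz ζ) a ha
  · intro t z ζ hz hζ
    exact (hF.fins.fins t).pos _ (hm z hz) _ (htan z hz ζ) (himm z hz ζ hζ)
  · intro t z ζ ξ hz hζ hξ
    set L : (ℝ × Vec (j + 1)) →L[ℝ] Vec d := fderiv ℝ Pj z with hL
    have hO : IsOpen {u : Vec d | fderiv ℝ M.r (Pj z) u ≠ 0} :=
      isOpen_compl_singleton.preimage (fderiv ℝ M.r (Pj z)).continuous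
    have hG : ContDiffOn ℝ ∞ (fun u : Vec d => F (Pj z) (fderiv ℝ M.r (Pj z) u) t ^ 2)
        {u : Vec d | fderiv ℝ M.r (Pj z) u ≠ 0} := by
      apply ContDiffOn.pow
      have h1 : ContDiff ℝ ∞ (fun u : Vec d => ((Pj z, u), t)) :=
        (contDiff_const.prodMk contDiff_id).prodMk contDiff_const
      have h2 : MapsTo (fun u : Vec d => ((Pj z, u), t)) {u : Vec d | fderiv ℝ M.r (Pj z) u ≠ 0}
          {z | z.1 ∈ TD M ∧ ∃ l : Fin d → ℤ, M.r z.1.1 + vz l ∈ W0} := by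
        intro u hu
        refine ⟨⟨M.sub (hm z hz), hu⟩, 0, ?_⟩
        change M.r (Pj z) + vz 0 ∈ W0
        rw [O13_r (hm z hz)]
        exact hex z hz
      refine (hF.smooth.comp h1.contDiffOn h2).congr ?_
      intro u hu
      change F (Pj z) (fderiv ℝ M.r (Pj z) u) t = F (M.r (Pj z)) (fderiv ℝ M.r (Pj z) u) t
      rw [O13_r (hm z hz)]
    have h3 : ∀ ζ, fderiv ℝ M.r (Pj z) (L ζ) = L ζ := fun ζ => htan z hz ζ
    have h4 : (fun ζ => F (Pj z) (L ζ) t ^ 2) =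
        fun ζ => (fun u : Vec d => F (Pj z) (fderiv ℝ M.r (Pj z) u) t ^ 2) (L ζ) := by
      funext ζ
      change F (Pj z) (L ζ) t ^ 2 = F (Pj z) (fderiv ℝ M.r (Pj z) (L ζ)) t ^ 2
      rw [h3]
    have h5 : L ζ ∈ {u : Vec d | fderiv ℝ M.r (Pj z) u ≠ 0} := by
      change fderiv ℝ M.r (Pj z) (L ζ) ≠ 0
      rw [h3]
      exact himm z hz ζ hζ
    change 0 < iteratedFDeriv ℝ 2 (fun ζ => F (Pj z) (L ζ) t ^ 2) ζ ![ξ, ξ]
    rw [h4, FN12_iter L hO hG h5 ξ]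
    exact hF.convex _ (hm z hz) ⟨0, hex z hz⟩ _ _ t (htan z hz ζ) (htan z hz ξ) (himm z hz ζ hζ)
      (himm z hz ξ hξ)

end EscW.Fn
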