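import Pool.Agent.EscW.FNDefs
import Pool.Agent.EscMT.P11
import Pool.Agent.EscMT.P3
import Pool.Agent.EscM.N0

set_option autoImplicit false

/-!
Project EscW, part FN, module FN13: products with a conformal factor.
`w` is bounded and Lipschitz on `M.N × ℝ`: `w (M.r x) t` is smooth on `M.U × ℝ`, `M.N` modulo `ℤᵈ` is compact, so it is Lipschitz for nearby points (`M.r x = x` on `N`; a ball of uniform radius around the points of `M.N` is contained in `M.U`), and for distant points by boundedness. `F ≤ C ‖v‖` on tangent vectors (compactness; there are such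
lemmas in EscM, EscMT: look for bounds of a Finsler metric). `conf_fins`: `cont`: `w` is continuous on `M.N`; `lip`: product. `conf_near`: `smooth`: product; `periodic`; `convex`: `u ↦ w² L (x, M.r' u, t)` has second derivative `w²` times the one of `L`, `w² ≥ c > 0`. `near`: `w² L - κ (w F)²/2 = w² R`, `R = L - κ F²/2`, `|R (x, v, t)| ≤ C (1 + ‖v‖)`
(`near` with `v' = 0`, `x' = x`, `t' = t`, and `R (x, 0, t) = L (x, 0, t)` bounded: continuous and periodic), `|w² R - w'² R'| ≤ |w² - w'²| |R| + w'² |R - R'|`.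
-/

noncomputable section

namespace EscW.Fn

open Filter Topology Set EscF.T EscM EscMT MeasureTheory EscW.Ex EscW.Dn EscW.On
open scoped ContDiff

variable {d m k j n : ℕ}

/-- a function of position and time on `M`, of class `C¹` and periodic, is bounded and Lipschitz -/
theorem FN13_glob {M : Sub d} {f : Vec d → ℝ → ℝ}
    (hs : ContDiffOn ℝ 1 (fun z : Vec d × ℝ => f (M.r z.1) z.2) {z | z.1 ∈ M.U})
    (hp : ∀ (l : Fin d → ℤ), ∀ x ∈ M.N, ∀ t, f (x + vz l) t = f x t)
    (ht : ∀ x ∈ M.N, ∀ t, f x (t + 1) = f x t) :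
    ∃ C : ℝ, 0 ≤ C ∧ (∀ x ∈ M.N, ∀ t, |f x t| ≤ C) ∧
      ∀ x ∈ M.N, ∀ t, ∀ x' ∈ M.N, ∀ t', |f x t - f x' t'| ≤ C * (‖x - x'‖ + |t - t'|) := by
  rcases M.N.eq_empty_or_nonempty with hne | hne
  · refine ⟨0, le_rfl, fun x hx => ?_, fun x hx => ?_⟩
    · rw [hne] at hx
      exact absurd hx (notMem_empty x)
    · rw [hne] at hx
      exact absurd hx (notMem_empty x)
  obtain ⟨ρ, χ, Rr, hT⟩ := exists_tube M hne
  have hρ := hT.ρ_pos
  set g : Vec d × ℝ → ℝ := fun z => χ z.1 * f (M.r z.1) z.2 with hg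
  have hUo : IsOpen {z : Vec d × ℝ | z.1 ∈ M.U} := M.isOpen.preimage continuous_fst
  have hgs : ContDiff ℝ 1 g := by
    rw [contDiff_iff_contDiffAt]
    intro z
    rcases lt_or_ge (Metric.infDist z.1 M.N) (5 * ρ) with h | h
    · have hz : z.1 ∈ M.U := hT.tube _ h
      have h1 : ContDiffAt ℝ 1 (fun z : Vec d × ℝ => f (M.r z.1) z.2) z :=
        (hs z hz).contDiffAt (hUo.mem_nhds hz)
      have h2 : ContDiff ℝ 1 (fun z : Vec d × ℝ => χ z.1) :=
        (hT.sχ.of_le (by exact_mod_cast le_top)).comp contDiff_fst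
      exact h2.contDiffAt.mul h1
    · have h1 : ∀ᶠ y in 𝓝 z, 4 * ρ < Metric.infDist y.1 M.N :=
        continuousAt_const.eventually_lt
          ((Metric.continuous_infDist_pt M.N).comp continuous_fst).continuousAt (by
            show 4 * ρ < Metric.infDist z.1 M.N
            linarith)
      have h2 : g =ᶠ[𝓝 z] fun _ => (0 : ℝ) := by
        filter_upwards [h1] with y hy
        show χ y.1 * f (M.r y.1) y.2 = 0
        rw [hT.zero y.1 hy.le, zero_mul]
      exact contDiffAt_const.congr_of_eventuallyEq h2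
  have hgx : ∀ (l : Fin d → ℤ) (x : Vec d) (t : ℝ), g (x + vz l, t) = g (x, t) := by
    intro l x t
    show χ (x + vz l) * f (M.r (x + vz l)) t = χ x * f (M.r x) t
    rw [hT.perχ]
    by_cases hx : x ∈ M.U
    · rw [r_vz M l hx, hp l _ (M.mem x hx)]
    · have h0 : χ x = 0 := by
        apply hT.zero
        by_contra hcon
        push Not at hcon
        exact hx (hT.tube x (by linarith))
      rw [h0, zero_mul, zero_mul]
  have hgt : ∀ (x : Vec d) (t : ℝ), g (x, t + 1) = g (x, t) := by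
    intro x t
    show χ x * f (M.r x) (t + 1) = χ x * f (M.r x) t
    by_cases hx : x ∈ M.U
    · rw [ht _ (M.mem x hx)]
    · have h0 : χ x = 0 := by
        apply hT.zero
        by_contra hcon
        push Not at hcon
        exact hx (hT.tube x (by linarith))
      rw [h0, zero_mul, zero_mul]
  have hshift : ∀ a : Vec d × ℝ, (∀ z, g (z + a) = g z) → ∀ z, fderiv ℝ g (z + a) = fderiv ℝ g z := by
    intro a ha z
    rw [← fderiv_comp_add_right]
    congr 1
    funext y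
    exact ha y
  have hdx : ∀ i x t, fderiv ℝ g (x + bas d i, t) = fderiv ℝ g (x, t) := by
    intro i x t
    have h1 := hshift (bas d i, 0) (fun z => by
      obtain ⟨y, s⟩ := z
      rw [Prod.mk_add_mk, add_zero, bas_apply]
      exact hgx _ y s) (x, t)
    rwa [Prod.mk_add_mk, add_zero] at h1
  have hdt : ∀ x t, fderiv ℝ g (x, t + 1) = fderiv ℝ g (x, t) := by
    intro x t
    have h1 := hshift (0, 1) (fun z => by
      obtain ⟨y, s⟩ := z
      rw [Prod.mk_add_mk, add_zero]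
      exact hgt y s) (x, t)
    rwa [Prod.mk_add_mk, add_zero] at h1
  obtain ⟨C1, h1, hC1⟩ := P3_bdd (bas d) (Φ := g) hgs.continuous (fun i x t => by
    rw [bas_apply]
    exact hgx _ x t) hgt
  obtain ⟨C2, h2, hC2⟩ := P3_bdd (bas d) (Φ := fderiv ℝ g) (hgs.continuous_fderiv (by simp)) hdx hdt
  have hgN : ∀ x ∈ M.N, ∀ t, g (x, t) = f x t := by
    intro x hx t
    show χ x * f (M.r x) t = f x t
    rw [r_self M hx, hT.one x (by rw [Metric.infDist_zero_of_mem hx]; positivity), one_mul]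
  refine ⟨C1 + C2, by positivity, fun x hx t => ?_, fun x hx t x' hx' t' => ?_⟩
  · rw [← hgN x hx t, ← Real.norm_eq_abs]
    exact (hC1 _).trans (by linarith)
  · rw [← hgN x hx t, ← hgN x' hx' t', ← Real.norm_eq_abs]
    have h3 : ‖g (x, t) - g (x', t')‖ ≤ C2 * ‖((x, t) : Vec d × ℝ) - (x', t')‖ :=
      (convex_univ).norm_image_sub_le_of_norm_fderiv_le
        (fun z _ => (hgs.differentiable (by simp)) z) (fun z _ => hC2 z) (mem_univ _) (mem_univ _)
    have h4 : ‖((x, t) : Vec d × ℝ) - (x', t')‖ ≤ ‖x - x'‖ + |t - t'| := by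
      rw [Prod.mk_sub_mk, Prod.norm_mk, Real.norm_eq_abs]
      exact max_le (by linarith [abs_nonneg (t - t')]) (by linarith [norm_nonneg (x - x')])
    have h5 := add_nonneg (norm_nonneg (x - x')) (abs_nonneg (t - t'))
    calc ‖g (x, t) - g (x', t')‖ ≤ C2 * ‖((x, t) : Vec d × ℝ) - (x', t')‖ := h3
      _ ≤ C2 * (‖x - x'‖ + |t - t'|) := mul_le_mul_of_nonneg_left h4 h2
      _ ≤ (C1 + C2) * (‖x - x'‖ + |t - t'|) := mul_le_mul_of_nonneg_right (by linarith) h5

theorem FN13_bd {M : Sub d} {W0 : Set (Vec d)} {ε : ℝ} {w : Vec d → ℝ → ℝ} (hw : IsConfT M W0 ε w) :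
    ∃ C : ℝ, 0 ≤ C ∧ (∀ x ∈ M.N, ∀ t, |w x t| ≤ C) ∧
      ∀ x ∈ M.N, ∀ t, ∀ x' ∈ M.N, ∀ t', |w x t - w x' t'| ≤ C * (‖x - x'‖ + |t - t'|) :=
  FN13_glob (hw.smooth.of_le (by exact_mod_cast le_top)) hw.periodic hw.periodic'

/-- the factor is bounded from below -/
theorem FN13_low {M : Sub d} {W0 : Set (Vec d)} {ε : ℝ} {w : Vec d → ℝ → ℝ} (hw : IsConfT M W0 ε w) :
    ∃ c : ℝ, 0 < c ∧ ∀ x ∈ M.N, ∀ t, c ≤ w x t := by
  have hs : ContDiffOn ℝ 1 (fun z : Vec d × ℝ => (w (M.r z.1) z.2)⁻¹) {z | z.1 ∈ M.U} :=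
    (hw.smooth.of_le (by exact_mod_cast le_top)).inv fun z hz => (hw.pos _ (M.mem z.1 hz) z.2).ne'
  obtain ⟨C, hC0, hC, -⟩ := FN13_glob (f := fun x t => (w x t)⁻¹) hs
    (fun l x hx t => by beta_reduce; rw [hw.periodic l x hx t])
    (fun x hx t => by rw [hw.periodic' x hx t])
  refine ⟨(C + 1)⁻¹, by positivity, fun x hx t => ?_⟩
  have h0 := hw.pos x hx t
  have h1 : (w x t)⁻¹ ≤ C + 1 := by
    have h2 := hC x hx t
    have h3 := le_abs_self (w x t)⁻¹
    linarith
  exact inv_le_of_inv_le₀ h0 h1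

theorem FN13_int {M : Sub d} {W0 : Set (Vec d)} {ε : ℝ} {w : Vec d → ℝ → ℝ} (hw : IsConfT M W0 ε w)
    {x : Vec d} (hx : x ∈ M.N) (t : ℝ) (l : ℤ) : w x (t + l) = w x t := by
  have hp : Function.Periodic (fun t => w x t) 1 := fun t => hw.periodic' x hx t
  have h2 := (hp.int_mul l) t
  rw [mul_one] at h2
  exact h2

theorem conf_fins {M : Sub d} {W0 : Set (Vec d)} {ε : ℝ} {w : Vec d → ℝ → ℝ} (hw : IsConfT M W0 ε w)
    {F : Vec d → Vec d → ℝ → ℝ} (hF : IsFinslerT M F) : IsFinslerT M (fun x v t => w x t * F x v t) := by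
  obtain ⟨C, hC0, hC, hCl⟩ := FN13_bd hw
  refine ⟨fun t => ⟨?_, ?_, ?_, ?_⟩, ?_, ?_⟩
  · have h1 : ContinuousOn (fun x => w x t) M.N := by
      intro x0 hx0
      have h3 : Tendsto (fun x => w x t - w x0 t) (𝓝[M.N] x0) (𝓝 0) := by
        have h4 : Tendsto (fun x : Vec d => C * (‖x - x0‖ + |t - t|)) (𝓝[M.N] x0)
            (𝓝 (C * (‖x0 - x0‖ + |t - t|))) := by
          have h5 : Continuous (fun x : Vec d => C * (‖x - x0‖ + |t - t|)) := by
            fun_prop
          exact (h5.tendsto x0).mono_left nhdsWithin_le_nhds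
        rw [sub_self, sub_self, norm_zero, abs_zero, add_zero, mul_zero] at h4
        have h4' : Tendsto (fun x : Vec d => C * (‖x - x0‖ + |t - t|)) (𝓝[M.N] x0) (𝓝 0) := by
          refine h4.congr fun x => ?_
          rw [sub_self, abs_zero]
        refine squeeze_zero_norm' ?_ h4'
        filter_upwards [self_mem_nhdsWithin] with x hx
        rw [Real.norm_eq_abs]
        exact hCl x hx t x0 hx0 t
      have h6 := h3.add_const (w x0 t)
      rw [zero_add] at h6
      exact h6.congr fun x => by ring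
    have h2 : ContinuousOn (fun p : Vec d × Vec d => w p.1 t) {p | p.1 ∈ M.N ∧ IsTangent M p.1 p.2} :=
      h1.comp continuousOn_fst fun p hp => hp.1
    exact h2.mul (hF.fins t).cont
  · intro n x hx v hv
    beta_reduce
    rw [hw.periodic n x hx t, (hF.fins t).periodic n x hx v hv]
  · intro x hx v hv c hc
    beta_reduce
    rw [(hF.fins t).hom x hx v hv c hc]
    ring
  · intro x hx v hv hv0
    exact mul_pos (hw.pos x hx t) ((hF.fins t).pos x hx v hv hv0)
  · intro x hx v hv t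
    rw [hw.periodic' x hx t, hF.periodic x hx v hv t]
  · rcases M.N.eq_empty_or_nonempty with hne | hne
    · refine ⟨0, fun x hx => ?_⟩
      rw [hne] at hx
      exact absurd hx (notMem_empty x)
    obtain ⟨ρ, χ, Rr, hT⟩ := exists_tube M hne
    obtain ⟨mF, MF, hmF, hb⟩ := P11_unif hT hF
    obtain ⟨A, hA⟩ := hF.lip
    refine ⟨C * |MF| + C * |A|, fun x hx v hv t t' => ?_⟩
    have h1 : |F x v t| ≤ |MF| * ‖v‖ := by
      have h2 := hb t x v ⟨hx, hv⟩
      have h3 : 0 ≤ F x v t := le_trans (by positivity) h2.1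
      rw [abs_of_nonneg h3]
      exact h2.2.trans (mul_le_mul_of_nonneg_right (le_abs_self _) (norm_nonneg v))
    have h2 : |F x v t - F x v t'| ≤ |A| * ‖v‖ * |t - t'| :=
      (hA x hx v hv t t').trans (mul_le_mul_of_nonneg_right (mul_le_mul_of_nonneg_right
        (le_abs_self _) (norm_nonneg v)) (abs_nonneg _))
    have h3 : |w x t - w x t'| ≤ C * |t - t'| := by
      have h4 := hCl x hx t x hx t'
      rwa [sub_self, norm_zero, zero_add] at h4
    have h4 := hC x hx t'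
    have e1 : w x t * F x v t - w x t' * F x v t' =
        (w x t - w x t') * F x v t + w x t' * (F x v t - F x v t') := by ring
    rw [e1]
    calc |(w x t - w x t') * F x v t + w x t' * (F x v t - F x v t')| ≤
        |(w x t - w x t') * F x v t| + |w x t' * (F x v t - F x v t')| := abs_add_le _ _
      _ = |w x t - w x t'| * |F x v t| + |w x t'| * |F x v t - F x v t'| := by
          rw [abs_mul, abs_mul]
      _ ≤ (C * |t - t'|) * (|MF| * ‖v‖) + C * (|A| * ‖v‖ * |t - t'|) :=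
          add_le_add (mul_le_mul h3 h1 (abs_nonneg _) (by positivity))
            (mul_le_mul h4 h2 (abs_nonneg _) hC0)
      _ = (C * |MF| + C * |A|) * ‖v‖ * |t - t'| := by ring

theorem conf_near {M : Sub d} {W0 : Set (Vec d)} {ε : ℝ} {w : Vec d → ℝ → ℝ} (hw : IsConfT M W0 ε w)
    {F : Vec d → Vec d → ℝ → ℝ} (hF : IsFinslerT M F) {κ : ℝ → ℝ} (hκ : IsWeight κ) {L : Lag d}
    (hL : IsNearT M κ F L) :
    IsNearT M κ (fun x v t => w x t * F x v t) (fun q => w q.1 q.2.2 ^ 2 * L q) := by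
  obtain ⟨C, hC0, hC, hCl⟩ := FN13_bd hw
  obtain ⟨c0, hc0, hlow⟩ := FN13_low hw
  refine ⟨?_, ?_, ?_, ?_⟩
  · have h1 : ContDiffOn ℝ 2 (fun q : Vec d × Vec d × ℝ => w (M.r q.1) q.2.2) {q | q.1 ∈ M.U} := by
      have h2 : ContDiff ℝ 2 (fun q : Vec d × Vec d × ℝ => (q.1, q.2.2)) :=
        contDiff_fst.prodMk (contDiff_snd.comp contDiff_snd)
      have h3 : (2 : WithTop ℕ∞) ≤ ((⊤ : ℕ∞) : WithTop ℕ∞) := by
        have h4 : ((2 : ℕ∞) : WithTop ℕ∞) ≤ ((⊤ : ℕ∞) : WithTop ℕ∞) := WithTop.coe_le_coe.2 le_top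
        exact h4
      exact (hw.smooth.of_le h3).comp h2.contDiffOn fun q hq => hq
    exact (h1.pow 2).mul hL.smooth
  · intro n l x hx v t hv
    beta_reduce
    rw [hL.periodic n l x hx v t hv]
    show w (x + vz n) (t + l) ^ 2 * L (x, v, t) = w x t ^ 2 * L (x, v, t)
    rw [hw.periodic n x hx, FN13_int hw hx]
  · obtain ⟨c, hc, hcv⟩ := hL.convex
    refine ⟨c0 ^ 2 * c, by positivity, fun x hx v u t hv hu => ?_⟩
    have hsm := P11_smooth hL hx t
    have e1 : (fun u' => (fun q : Vec d × Vec d × ℝ => w q.1 q.2.2 ^ 2 * L q) (x, fderiv ℝ M.r x u', t)) =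
        (w x t ^ 2) • (fun u' => L (x, fderiv ℝ M.r x u', t)) := by
      funext u'
      rfl
    rw [e1, iteratedFDeriv_const_smul_apply hsm.contDiffAt]
    have h1 := hcv x hx v u t hv hu
    have h2 := hlow x hx t
    have h3 : c0 ^ 2 ≤ w x t ^ 2 := pow_le_pow_left₀ hc0.le h2 2
    show c0 ^ 2 * c * ‖u‖ ^ 2 ≤ w x t ^ 2 *
      iteratedFDeriv ℝ 2 (fun u' => L (x, fderiv ℝ M.r x u', t)) v ![u, u]
    calc c0 ^ 2 * c * ‖u‖ ^ 2 = c0 ^ 2 * (c * ‖u‖ ^ 2) := by ring
      _ ≤ w x t ^ 2 * iteratedFDeriv ℝ 2 (fun u' => L (x, fderiv ℝ M.r x u', t)) v ![u, u] :=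
        mul_le_mul h3 h1 (by positivity) (by positivity)
  · obtain ⟨C2, hC2⟩ := hL.near
    -- the values at the zero vector
    have hs0 : ContDiffOn ℝ 1 (fun z : Vec d × ℝ => (fun x t => L (x, (0 : Vec d), t)) (M.r z.1) z.2)
        {z | z.1 ∈ M.U} := by
      have h2 : ContDiff ℝ 2 (fun z : Vec d × ℝ => ((z.1, (0 : Vec d), z.2) : Vec d × Vec d × ℝ)) :=
        contDiff_fst.prodMk (contDiff_const.prodMk contDiff_snd)
      have h3 : ContDiffOn ℝ 2 (fun z : Vec d × ℝ =>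
          L (M.r z.1, fderiv ℝ M.r z.1 (0 : Vec d), z.2)) {z | z.1 ∈ M.U} :=
        hL.smooth.comp h2.contDiffOn fun z hz => hz
      refine (h3.of_le (by norm_num)).congr fun z _ => ?_
      show L (M.r z.1, 0, z.2) = L (M.r z.1, fderiv ℝ M.r z.1 (0 : Vec d), z.2)
      rw [map_zero]
    have ht0 : ∀ x : Vec d, IsTangent M x 0 := fun x => by
      show fderiv ℝ M.r x 0 = 0
      rw [map_zero]
    obtain ⟨C3, hC30, hC3, -⟩ := FN13_glob (f := fun x t => L (x, (0 : Vec d), t)) hs0 (fun l x hx t => by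
      have := hL.periodic l 0 x hx 0 t (ht0 x)
      rw [Int.cast_zero, add_zero] at this
      exact this) (fun x hx t => by
      have := hL.periodic 0 1 x hx 0 t (ht0 x)
      rw [Int.cast_one, vz_zero', add_zero] at this
      exact this)
    have hF0 : ∀ x ∈ M.N, ∀ t, F x 0 t = 0 := by
      intro x hx t
      have h1 := (hF.fins t).hom x hx 0 (ht0 x) 0 le_rfl
      rwa [zero_smul, zero_mul] at h1
    have hR : ∀ x ∈ M.N, ∀ v t, IsTangent M x v →
        |L (x, v, t) - κ t * F x v t ^ 2 / 2| ≤ (C3 + |C2|) * (1 + ‖v‖) := by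
      intro x hx v t hv
      have h1 := hC2 x hx v t hv x hx 0 t (ht0 x)
      rw [hF0 x hx t, sub_self, norm_zero, sub_self, abs_zero, sub_zero, add_zero, mul_zero, add_zero,
        zero_pow (by norm_num), mul_zero, zero_div, sub_zero] at h1
      have h2 : |L (x, (0 : Vec d), t)| ≤ C3 := hC3 x hx t
      have h3 : C2 * ‖v‖ ≤ |C2| * ‖v‖ := mul_le_mul_of_nonneg_right (le_abs_self _) (norm_nonneg v)
      have h4 : |L (x, v, t) - κ t * F x v t ^ 2 / 2| ≤
          |L (x, v, t) - κ t * F x v t ^ 2 / 2 - L (x, (0 : Vec d), t)| + |L (x, (0 : Vec d), t)| := by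
        have := abs_add_le (L (x, v, t) - κ t * F x v t ^ 2 / 2 - L (x, (0 : Vec d), t))
          (L (x, (0 : Vec d), t))
        rwa [sub_add_cancel] at this
      have h5 : (0 : ℝ) ≤ C3 * ‖v‖ := by positivity
      have h6 := abs_nonneg C2
      nlinarith
    refine ⟨C * (2 * C) * (C3 + |C2|) + C ^ 2 * |C2|, fun x hx v t hv x' hx' v' t' hv' => ?_⟩
    set R1 : ℝ := L (x, v, t) - κ t * F x v t ^ 2 / 2 with hR1
    set R2 : ℝ := L (x', v', t') - κ t' * F x' v' t' ^ 2 / 2 with hR2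
    set D : ℝ := ‖x - x'‖ + |t - t'| with hD
    have hD0 : 0 ≤ D := by positivity
    have h1 : |R1| ≤ (C3 + |C2|) * (1 + ‖v‖) := hR x hx v t hv
    have h2 : |R1 - R2| ≤ |C2| * (‖v - v'‖ + (1 + ‖v‖) * D) := by
      refine (hC2 x hx v t hv x' hx' v' t' hv').trans ?_
      exact mul_le_mul_of_nonneg_right (le_abs_self _) (by positivity)
    have h3 : |w x t - w x' t'| ≤ C * D := hCl x hx t x' hx' t'
    have h4 : |w x t + w x' t'| ≤ 2 * C := by
      have := abs_add_le (w x t) (w x' t')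
      have := hC x hx t
      have := hC x' hx' t'
      linarith
    have h5 : w x' t' ^ 2 ≤ C ^ 2 := by
      have := hC x' hx' t'
      rw [← sq_abs (w x' t')]
      exact pow_le_pow_left₀ (abs_nonneg _) this 2
    have e1 : ((fun q : Vec d × Vec d × ℝ => w q.1 q.2.2 ^ 2 * L q) (x, v, t) -
        κ t * ((fun x v t => w x t * F x v t) x v t) ^ 2 / 2) -
        ((fun q : Vec d × Vec d × ℝ => w q.1 q.2.2 ^ 2 * L q) (x', v', t') -
        κ t' * ((fun x v t => w x t * F x v t) x' v' t') ^ 2 / 2) =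
        ((w x t - w x' t') * (w x t + w x' t')) * R1 + w x' t' ^ 2 * (R1 - R2) := by
      rw [hR1, hR2]
      ring
    rw [e1]
    calc |((w x t - w x' t') * (w x t + w x' t')) * R1 + w x' t' ^ 2 * (R1 - R2)| ≤
        |((w x t - w x' t') * (w x t + w x' t')) * R1| + |w x' t' ^ 2 * (R1 - R2)| := abs_add_le _ _
      _ = |w x t - w x' t'| * |w x t + w x' t'| * |R1| + w x' t' ^ 2 * |R1 - R2| := by
          rw [abs_mul, abs_mul, abs_mul, abs_of_nonneg (sq_nonneg (w x' t'))]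
      _ ≤ (C * D) * (2 * C) * ((C3 + |C2|) * (1 + ‖v‖)) +
          C ^ 2 * (|C2| * (‖v - v'‖ + (1 + ‖v‖) * D)) := by
          refine add_le_add (mul_le_mul (mul_le_mul h3 h4 (abs_nonneg _) (by positivity)) h1
            (abs_nonneg _) (by positivity)) (mul_le_mul h5 h2 (abs_nonneg _) (by positivity))
      _ ≤ (C * (2 * C) * (C3 + |C2|) + C ^ 2 * |C2|) * (‖v - v'‖ + (1 + ‖v‖) * D) := by
          have k1 : (1 + ‖v‖) * D ≤ ‖v - v'‖ + (1 + ‖v‖) * D := by linarith [norm_nonneg (v - v')]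
          have k2 : C * (2 * C) * (C3 + |C2|) * ((1 + ‖v‖) * D) ≤
              C * (2 * C) * (C3 + |C2|) * (‖v - v'‖ + (1 + ‖v‖) * D) :=
            mul_le_mul_of_nonneg_left k1 (by positivity)
          calc (C * D) * (2 * C) * ((C3 + |C2|) * (1 + ‖v‖)) +
                C ^ 2 * (|C2| * (‖v - v'‖ + (1 + ‖v‖) * D)) =
                C * (2 * C) * (C3 + |C2|) * ((1 + ‖v‖) * D) +
                  C ^ 2 * |C2| * (‖v - v'‖ + (1 + ‖v‖) * D) := by ring
            _ ≤ C * (2 * C) * (C3 + |C2|) * (‖v - v'‖ + (1 + ‖v‖) * D) +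
                  C ^ 2 * |C2| * (‖v - v'‖ + (1 + ‖v‖) * D) := add_le_add k2 le_rfl
            _ = (C * (2 * C) * (C3 + |C2|) + C ^ 2 * |C2|) * (‖v - v'‖ + (1 + ‖v‖) * D) := by ring

end EscW.Fn
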