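import Pool.Agent.EscW.O16
import Pool.Agent.EscW.D2

set_option autoImplicit false

/-!
Project EscW, part O, module O17: part D: annular coordinates.
`T = TcD δ`: `pol (1 + δ) (T x) = em δ x` (`pol_Tc`), smooth (`rr`, `em` are smooth). `per`: `em_per`, `rr` has the periods. `maps`: `tq (em x) = qq x < 1/3` (`tq_em`), `‖(T x).2‖² = (rr - 1 - δ)² + em_2² + Σ_{i ≥ 3} em_i² ≤ (rho + δ)² + δ² qq ≤ 1`. `inj`: `DT v = 0` implies `D em v = 0`, `mn = 0`,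
`mn_pos`. `uniq`: `em_inj`. `Λ = LamD δ`, `‖w‖ < δ/16`: arguments of `arctan`, `arcsin` are small: `δ + w0 > 0`, `ρ̃ = √((δ + w0)² + w1²)`, `|ρ̃/δ - 1| ≤ 1/16`, `|w_i/δ| ≤ 1/16`; smooth there. `right`: `rho = δ (1 + sin (2πX 2)/2) = ρ̃`, `rho cos (2πX 1) = δ + w0`, `rho sin (2πX 1) = w1`
(`cos (arctan t) = 1/√(1 + t²)`), `δ sin (2πX i) = w_{i-1}`. `mem`: `qq (Λ z) = tq (pol z) ≤ 5/256 < 1/3`; `cos (2πX i) > 0` for `i ≥ 2` (`arcsin` in `(-π/2, π/2)`). `per'`: only coordinate `0` changes. `tor`: `M'.N = univ`.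
-/

noncomputable section

namespace EscW.On

open Filter Topology Set EscF.T EscM EscMT MeasureTheory EscW.Ex EscW.Dn
open scoped ContDiff

variable {d m k j n : ℕ}

theorem O17_sum (w : Vec (n + 2)) :
    ‖w‖ ^ 2 = w 0 ^ 2 + w 1 ^ 2 + ∑ i : Fin n, w i.succ.succ ^ 2 := by
  rw [EuclideanSpace.norm_sq_eq, Fin.sum_univ_succ, Fin.sum_univ_succ, ← add_assoc]
  simp only [Real.norm_eq_abs, sq_abs, Fin.succ_zero_eq_one]

theorem O17_ne (i : Fin n) :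
    ¬ (i.succ.succ.succ = (0 : Fin (n + 3)) ∨ i.succ.succ.succ = (1 : Fin (n + 3)) ∨
      i.succ.succ.succ = (2 : Fin (n + 3))) := by
  rintro (h | h | h)
  · have h1 := congrArg Fin.val h
    simp at h1
  · have h1 := congrArg Fin.val h
    rw [Fin.val_one] at h1
    simp at h1
  · have h1 := congrArg Fin.val h
    rw [Fin.val_two] at h1
    simp at h1

theorem O17_two : (Fin.succ (Fin.succ 0) : Fin (n + 3)) = 2 := by
  rw [Fin.succ_zero_eq_one, Fin.succ_one_eq_two]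

theorem O17_qq (X : Vec (n + 3)) : qq X = Real.sin (2 * Real.pi * X 2) ^ 2 +
    ∑ i : Fin n, Real.sin (2 * Real.pi * X i.succ.succ.succ) ^ 2 := by
  unfold qq
  rw [Fin.sum_univ_succ, Fin.sum_univ_succ, Fin.sum_univ_succ, O17_two, Fin.succ_zero_eq_one,
    if_pos (Or.inl rfl), if_pos (Or.inr rfl), if_neg, zero_add, zero_add]
  · congr 1
  · rintro (h | h)
    · exact D1_02 h.symm
    · exact D1_12 h.symm

theorem O17_T1 (δ : ℝ) (X : Vec (n + 3)) : (TcD δ X).2 1 = em δ X 2 := by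
  have h1 : (TcD δ X).2 (Fin.succ 0) = em δ X (Fin.succ (Fin.succ 0)) := rfl
  rw [Fin.succ_zero_eq_one, Fin.succ_one_eq_two] at h1
  exact h1

theorem O17_L1 (δ : ℝ) (z : ℝ × Vec (n + 2)) :
    LamD δ z 1 = Real.arctan (z.2 1 / (δ + z.2 0)) / (2 * Real.pi) := rfl

theorem O17_L2 (δ : ℝ) (z : ℝ × Vec (n + 2)) :
    LamD δ z 2 = Real.arcsin (2 * (√((δ + z.2 0) ^ 2 + z.2 1 ^ 2) / δ - 1)) / (2 * Real.pi) := by
  rw [← O17_two]
  rfl

/-- bounds in the tube -/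
theorem O17_bd {δ : ℝ} (hδ : 0 < δ) {w : Vec (n + 2)} (hw : ‖w‖ < δ / 16) :
    0 < δ + w 0 ∧ (√((δ + w 0) ^ 2 + w 1 ^ 2) - δ) ^ 2 ≤ w 0 ^ 2 + w 1 ^ 2 ∧
      w 0 ^ 2 + w 1 ^ 2 + ∑ i : Fin n, w i.succ.succ ^ 2 < (δ / 16) ^ 2 ∧
      0 < √((δ + w 0) ^ 2 + w 1 ^ 2) := by
  have h1 := O17_sum w
  have h2 : ‖w‖ ^ 2 < (δ / 16) ^ 2 := by
    have := norm_nonneg w
    nlinarith
  have h3 : 0 ≤ ∑ i : Fin n, w i.succ.succ ^ 2 := Finset.sum_nonneg fun i _ => sq_nonneg _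
  have h4 : |w 0| < δ / 16 := by
    refine abs_lt_of_sq_lt_sq ?_ (by positivity)
    nlinarith [sq_nonneg (w 1)]
  have h5 := (abs_lt.1 h4).1
  have h6 : 0 < δ + w 0 := by linarith
  have h7 : 0 < (δ + w 0) ^ 2 + w 1 ^ 2 := by positivity
  have h8 : 0 < √((δ + w 0) ^ 2 + w 1 ^ 2) := Real.sqrt_pos.2 h7
  refine ⟨h6, ?_, by linarith, h8⟩
  have h9 := Real.sq_sqrt h7.le
  have h10 : δ + w 0 ≤ √((δ + w 0) ^ 2 + w 1 ^ 2) := by
    refine Real.le_sqrt_of_sq_le ?_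
    nlinarith [sq_nonneg (w 1)]
  nlinarith

theorem O17_arg {δ : ℝ} (hδ : 0 < δ) {w : Vec (n + 2)} (hw : ‖w‖ < δ / 16) :
    |2 * (√((δ + w 0) ^ 2 + w 1 ^ 2) / δ - 1)| < 1 := by
  obtain ⟨-, h1, h2, -⟩ := O17_bd hδ hw
  have h3 : 0 ≤ ∑ i : Fin n, w i.succ.succ ^ 2 := Finset.sum_nonneg fun i _ => sq_nonneg _
  refine abs_lt_of_sq_lt_sq ?_ zero_le_one
  have h4 : (2 * (√((δ + w 0) ^ 2 + w 1 ^ 2) / δ - 1)) ^ 2 =
      4 * (√((δ + w 0) ^ 2 + w 1 ^ 2) - δ) ^ 2 / δ ^ 2 := by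
    field_simp
    ring
  rw [h4, div_lt_iff₀ (by positivity)]
  nlinarith

theorem O17_argi {δ : ℝ} (hδ : 0 < δ) {w : Vec (n + 2)} (hw : ‖w‖ < δ / 16) (i : Fin n) :
    |w i.succ.succ / δ| < 1 := by
  obtain ⟨-, -, h2, -⟩ := O17_bd hδ hw
  have h3 : w i.succ.succ ^ 2 ≤ ∑ i : Fin n, w i.succ.succ ^ 2 :=
    Finset.single_le_sum (f := fun i : Fin n => w i.succ.succ ^ 2) (fun j _ => sq_nonneg _)
      (Finset.mem_univ i)
  refine abs_lt_of_sq_lt_sq ?_ zero_le_one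
  rw [div_pow, div_lt_iff₀ (by positivity)]
  nlinarith [sq_nonneg (w 0), sq_nonneg (w 1)]

theorem O17_can (t : ℝ) : 2 * Real.pi * (t / (2 * Real.pi)) = t := by
  have := Real.pi_pos
  field_simp

theorem O17_s2 {δ : ℝ} (hδ : 0 < δ) {z : ℝ × Vec (n + 2)} (hz : ‖z.2‖ < δ / 16) :
    Real.sin (2 * Real.pi * LamD δ z 2) = 2 * (√((δ + z.2 0) ^ 2 + z.2 1 ^ 2) / δ - 1) := by
  have h := abs_lt.1 (O17_arg hδ hz)
  rw [O17_L2, O17_can, Real.sin_arcsin h.1.le h.2.le]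

theorem O17_si {δ : ℝ} (hδ : 0 < δ) {z : ℝ × Vec (n + 2)} (hz : ‖z.2‖ < δ / 16) (i : Fin n) :
    Real.sin (2 * Real.pi * LamD δ z i.succ.succ.succ) = z.2 i.succ.succ / δ := by
  have h := abs_lt.1 (O17_argi hδ hz i)
  have h1 : LamD δ z i.succ.succ.succ = Real.arcsin (z.2 i.succ.succ / δ) / (2 * Real.pi) := rfl
  rw [h1, O17_can, Real.sin_arcsin h.1.le h.2.le]

theorem O17_rho {δ : ℝ} (hδ : 0 < δ) {z : ℝ × Vec (n + 2)} (hz : ‖z.2‖ < δ / 16) :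
    rho δ (LamD δ z) = √((δ + z.2 0) ^ 2 + z.2 1 ^ 2) := by
  unfold rho
  rw [O17_s2 hδ hz]
  field_simp
  ring

theorem O17_root {a b : ℝ} (ha : 0 < a) : √(a ^ 2 + b ^ 2) = a * √(1 + (b / a) ^ 2) := by
  rw [show a ^ 2 + b ^ 2 = a ^ 2 * (1 + (b / a) ^ 2) by field_simp, Real.sqrt_mul (sq_nonneg a),
    Real.sqrt_sq ha.le]

theorem O17_cos {δ : ℝ} (hδ : 0 < δ) {z : ℝ × Vec (n + 2)} (hz : ‖z.2‖ < δ / 16) :
    rho δ (LamD δ z) * Real.cos (2 * Real.pi * LamD δ z 1) = δ + z.2 0 := by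
  obtain ⟨h1, -, -, -⟩ := O17_bd hδ hz
  have h2 : 0 < √(1 + (z.2 1 / (δ + z.2 0)) ^ 2) := Real.sqrt_pos.2 (by positivity)
  rw [O17_rho hδ hz, O17_L1, O17_can, Real.cos_arctan, O17_root h1]
  field_simp

theorem O17_sin {δ : ℝ} (hδ : 0 < δ) {z : ℝ × Vec (n + 2)} (hz : ‖z.2‖ < δ / 16) :
    rho δ (LamD δ z) * Real.sin (2 * Real.pi * LamD δ z 1) = z.2 1 := by
  obtain ⟨h1, -, -, -⟩ := O17_bd hδ hz
  have h2 : 0 < √(1 + (z.2 1 / (δ + z.2 0)) ^ 2) := Real.sqrt_pos.2 (by positivity)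
  rw [O17_rho hδ hz, O17_L1, O17_can, Real.sin_arctan, O17_root h1]
  field_simp

theorem O17_right {δ : ℝ} (hδ : 0 < δ) {z : ℝ × Vec (n + 2)} (hz : ‖z.2‖ < δ / 16) :
    TcD δ (LamD δ z) = z := by
  refine Prod.ext rfl ?_
  ext i
  refine Fin.cases ?_ (fun i => ?_) i
  · have h1 : (TcD δ (LamD δ z)).2 0 = 1 + rho δ (LamD δ z) *
        Real.cos (2 * Real.pi * LamD δ z 1) - (1 + δ) := rfl
    rw [h1, O17_cos hδ hz]
    ring
  · refine Fin.cases ?_ (fun i => ?_) i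
    · rw [Fin.succ_zero_eq_one, O17_T1, D1_em2, O17_sin hδ hz]
    · have h1 : (TcD δ (LamD δ z)).2 i.succ.succ = em δ (LamD δ z) i.succ.succ.succ := rfl
      rw [h1, D1_em3 δ _ (O17_ne i), O17_si hδ hz]
      field_simp

theorem O17_smooth {δ : ℝ} (hδ : 0 < δ) :
    ContDiffOn ℝ 1 (LamD δ : ℝ × Vec (n + 2) → Vec (n + 3)) {z | ‖z.2‖ < δ / 16} := by
  have hco : ∀ i : Fin (n + 2), ContDiff ℝ 1 (fun z : ℝ × Vec (n + 2) => z.2 i) := fun i =>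
    contDiff_euclidean.1 (contDiff_snd (𝕜 := ℝ) (E := ℝ) (F := Vec (n + 2))) i
  have hs1 : ContDiff ℝ 1 (fun z : ℝ × Vec (n + 2) => (δ + z.2 0) ^ 2 + z.2 1 ^ 2) :=
    ((contDiff_const.add (hco 0)).pow 2).add ((hco 1).pow 2)
  rw [contDiffOn_euclidean]
  intro i
  refine Fin.cases ?_ (fun i => ?_) i
  · exact contDiff_fst.contDiffOn
  refine Fin.cases ?_ (fun i => ?_) i
  · have h1 : ContDiffOn ℝ 1 (fun z : ℝ × Vec (n + 2) => z.2 1 / (δ + z.2 0))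
        {z | ‖z.2‖ < δ / 16} :=
      (hco 1).contDiffOn.div (contDiff_const.add (hco 0)).contDiffOn
        fun z hz => (O17_bd hδ hz).1.ne'
    exact (Real.contDiff_arctan.comp_contDiffOn h1).div_const _
  refine Fin.cases ?_ (fun i => ?_) i
  · have h1 : ContDiffOn ℝ 1 (fun z : ℝ × Vec (n + 2) =>
        2 * (√((δ + z.2 0) ^ 2 + z.2 1 ^ 2) / δ - 1)) {z | ‖z.2‖ < δ / 16} :=
      contDiffOn_const.mul (((hs1.contDiffOn.sqrt fun z hz =>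
        (Real.sqrt_pos.1 (O17_bd hδ hz).2.2.2).ne').div_const _).sub contDiffOn_const)
    have h2 : ContDiffOn ℝ 1 (fun z : ℝ × Vec (n + 2) => Real.arcsin
        (2 * (√((δ + z.2 0) ^ 2 + z.2 1 ^ 2) / δ - 1))) {z | ‖z.2‖ < δ / 16} := by
      intro z hz
      have h3 := abs_lt.1 (O17_arg hδ hz)
      exact ContDiffAt.comp_contDiffWithinAt (g := Real.arcsin) z
        (Real.contDiffAt_arcsin h3.1.ne' h3.2.ne) (h1 z hz)
    exact h2.div_const _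
  · have h2 : ContDiffOn ℝ 1 (fun z : ℝ × Vec (n + 2) => Real.arcsin (z.2 i.succ.succ / δ))
        {z | ‖z.2‖ < δ / 16} := by
      intro z hz
      have h3 := abs_lt.1 (O17_argi hδ hz i)
      exact ContDiffAt.comp_contDiffWithinAt (g := Real.arcsin) z
        (Real.contDiffAt_arcsin h3.1.ne' h3.2.ne) (((hco i.succ.succ).div_const δ).contDiffWithinAt)
    exact h2.div_const _

theorem O17_pol (δ : ℝ) (X : Vec (n + 3)) : pol (1 + δ) (TcD δ X) = em δ X :=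
  pol_Tc (D1_em0 δ X) (D1_em1 δ X)

theorem qq_LamD {δ : ℝ} (hδ : 0 < δ) (h8 : δ ≤ 1 / 8) {z : ℝ × Vec (n + 2)} (hz : ‖z.2‖ < δ / 16) :
    qq (LamD δ z) ≤ 5 / 256 := by
  obtain ⟨-, h1, h2, -⟩ := O17_bd hδ hz
  have h4 : (2 * (√((δ + z.2 0) ^ 2 + z.2 1 ^ 2) / δ - 1)) ^ 2 =
      4 * (√((δ + z.2 0) ^ 2 + z.2 1 ^ 2) - δ) ^ 2 / δ ^ 2 := by
    field_simp
    ring
  have h5 : ∑ i : Fin n, Real.sin (2 * Real.pi * LamD δ z i.succ.succ.succ) ^ 2 =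
      (∑ i : Fin n, z.2 i.succ.succ ^ 2) / δ ^ 2 := by
    rw [Finset.sum_div]
    refine Finset.sum_congr rfl fun i _ => ?_
    rw [O17_si hδ hz, div_pow]
  have h3 : 0 ≤ ∑ i : Fin n, z.2 i.succ.succ ^ 2 := Finset.sum_nonneg fun i _ => sq_nonneg _
  rw [O17_qq, O17_s2 hδ hz, h4, h5, ← add_div, div_le_iff₀ (by positivity)]
  nlinarith

theorem O17_mem {δ : ℝ} (hδ : 0 < δ) (h8 : δ ≤ 1 / 8) {z : ℝ × Vec (n + 2)} (hz : ‖z.2‖ < δ / 16) :
    LamD δ z ∈ SO n := by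
  refine ⟨lt_of_le_of_lt (qq_LamD hδ h8 hz) (by norm_num), fun i => ?_⟩
  have hc : ∀ t : ℝ, |t| < 1 → 0 < Real.cos (2 * Real.pi * (Real.arcsin t / (2 * Real.pi))) := by
    intro t ht
    rw [O17_can, Real.cos_arcsin]
    refine Real.sqrt_pos.2 ?_
    have := (sq_lt_one_iff_abs_lt_one t).2 ht
    linarith
  refine Fin.cases ?_ (fun i => ?_) i
  · exact fun h0 => absurd rfl h0
  refine Fin.cases ?_ (fun i => ?_) i
  · exact fun _ h1 => absurd Fin.succ_zero_eq_one h1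
  refine Fin.cases ?_ (fun i => ?_) i
  · intro _ _
    rw [O17_two, O17_L2]
    exact hc _ (O17_arg hδ hz)
  · intro _ _
    exact hc _ (O17_argi hδ hz i)

theorem O17_maps {δ : ℝ} (hδ : 0 < δ) (h8 : δ ≤ 1 / 8) {X : Vec (n + 3)} (hX : X ∈ SO n) :
    TcD δ X ∈ AD δ n := by
  refine ⟨?_, ?_⟩
  · rw [O17_pol, tq_em hδ h8]
    exact hX.1.le
  · have h1 := O17_sum (TcD δ X).2
    have h2 : (TcD δ X).2 0 = rr δ X - (1 + δ) := rfl
    have h3 : ∀ i : Fin n, (TcD δ X).2 i.succ.succ = δ * Real.sin (2 * Real.pi * X i.succ.succ.succ) :=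
      fun i => (show (TcD δ X).2 i.succ.succ = em δ X i.succ.succ.succ from rfl).trans
        (D1_em3 δ X (O17_ne i))
    have h4 : ∑ i : Fin n, (TcD δ X).2 i.succ.succ ^ 2 =
        δ ^ 2 * ∑ i : Fin n, Real.sin (2 * Real.pi * X i.succ.succ.succ) ^ 2 := by
      rw [Finset.mul_sum]
      refine Finset.sum_congr rfl fun i _ => ?_
      rw [h3, mul_pow]
    have h5 := O17_qq X
    have h6 := hX.1
    have h7 := sq_nonneg (Real.sin (2 * Real.pi * X 2))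
    have h8' : ∑ i : Fin n, Real.sin (2 * Real.pi * X i.succ.succ.succ) ^ 2 ≤ 1 / 3 := by linarith
    obtain ⟨h9, h10⟩ := rho_bd hδ X
    have h11 := Real.sin_sq_add_cos_sq (2 * Real.pi * X 1)
    have h12 : rr δ X = 1 + rho δ X * Real.cos (2 * Real.pi * X 1) := rfl
    rw [O17_T1, D1_em2, h2, h4, h12] at h1
    have h13 : (1 + rho δ X * Real.cos (2 * Real.pi * X 1) - (1 + δ)) ^ 2 +
        (rho δ X * Real.sin (2 * Real.pi * X 1)) ^ 2 =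
        rho δ X ^ 2 - 2 * δ * rho δ X * Real.cos (2 * Real.pi * X 1) + δ ^ 2 := by
      linear_combination rho δ X ^ 2 * h11
    rw [h13] at h1
    have h14 := Real.neg_one_le_cos (2 * Real.pi * X 1)
    have h15 : - (2 * δ * rho δ X * Real.cos (2 * Real.pi * X 1)) ≤ 2 * δ * rho δ X := by
      have h16 : 0 ≤ 2 * δ * rho δ X := by
        have : 0 ≤ rho δ X := by linarith
        positivity
      nlinarith
    have h17 : ‖(TcD δ X).2‖ ^ 2 ≤ 1 := by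
      have h18 : rho δ X ^ 2 ≤ (3 * δ / 2) ^ 2 := by
        refine pow_le_pow_left₀ (by linarith) h10 2
      have h19 : 2 * δ * rho δ X ≤ 2 * δ * (3 * δ / 2) := by
        refine mul_le_mul_of_nonneg_left h10 (by positivity)
      have h20 : δ ^ 2 * ∑ i : Fin n, Real.sin (2 * Real.pi * X i.succ.succ.succ) ^ 2 ≤
          δ ^ 2 * (1 / 3) := mul_le_mul_of_nonneg_left h8' (by positivity)
      have h21 : δ ^ 2 ≤ 1 / 64 := by nlinarith
      nlinarith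
    exact (sq_le_one_iff₀ (norm_nonneg _)).1 h17

theorem PhmD {δ : ℝ} (hδ : 0 < δ) (h8 : δ ≤ 1 / 8) (ε s : ℝ) {X : Vec (n + 3)} (hX : X ∈ SO n)
    (v : Vec (n + 3)) : Phm (1 + δ) s (tW δ ε) (TcD δ X) (fderiv ℝ (TcD δ) X v) = FM δ ε s X v := by
  have h1 : Phm (1 + δ) s (tW δ ε) (TcD δ X) (fderiv ℝ (TcD δ) X v) =
      s * tW δ ε (em δ X) * ‖fderiv ℝ (em δ) X v‖ :=
    Phm_Tc (D1_srr δ) (em_smooth δ) (D1_em0 δ) (D1_em1 δ) (tW δ ε) X v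
  rw [h1, tW_em hδ h8 ε hX.1.le]
  unfold FM
  rw [← em_fd, Real.sqrt_sq (norm_nonneg _)]

theorem coverD {δ : ℝ} (hδ : 0 < δ) (h8 : δ ≤ 1 / 8) :
    AnnCover (tor (n + 3)) (SO n) 0 (AD δ n) (δ / 16) (TcD δ) (LamD δ) where
  isOpen := SO_open
  smooth := (Tc_smooth (D1_srr δ) (em_smooth δ)).of_le (by exact_mod_cast le_top)
  fst _ := rfl
  per k x := by
    have h1 : rr δ (x + vz k) = rr δ x := by
      unfold rr rho
      rw [D1_sin, D1_cos]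
    have h2 := em_per δ k x
    unfold TcD Tc
    simp only
    rw [h1, h2]
  maps x hx := O17_maps hδ h8 hx.2
  inj x hx v _ hv h0 := by
    have h1 : Phm (1 + δ) 1 (fun _ => 1) (TcD δ x) (fderiv ℝ (TcD δ) x v) =
        1 * 1 * ‖fderiv ℝ (em δ) x v‖ :=
      Phm_Tc (D1_srr δ) (em_smooth δ) (D1_em0 δ) (D1_em1 δ) (fun _ => 1) x v
    rw [h0] at h1
    have h2 : Phm (1 + δ) 1 (fun _ => 1) (TcD δ x) (0 : ℝ × Vec (n + 2)) = 0 := by
      unfold Phm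
      simp
    have h3 := mn_pos hδ h8 hx.2 hv
    rw [← em_fd] at h3
    have h4 : ‖fderiv ℝ (em δ) x v‖ = 0 := by linarith
    rw [h4] at h3
    norm_num at h3
  uniq x hx y hy h := by
    have h1 : em δ y = em δ x := by rw [← O17_pol, ← O17_pol, h]
    exact em_inj hδ h8 hy.2 hx.2 h1
  smooth' := O17_smooth hδ
  mem z hz := ⟨mem_univ _, O17_mem hδ h8 hz⟩
  right z hz := O17_right hδ hz
  per' θ w _ := by
    ext i
    refine Fin.cases ?_ (fun i => ?_) i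
    · show θ + 1 = θ + ((Pi.single (0 : Fin (n + 3)) (1 : ℤ) : Fin (n + 3) → ℤ) 0 : ℝ)
      simp
    · have h1 : (LamD δ (θ, w) + vz (Pi.single 0 1) : Vec (n + 3)) i.succ = LamD δ (θ, w) i.succ +
          ((Pi.single (0 : Fin (n + 3)) (1 : ℤ) : Fin (n + 3) → ℤ) i.succ : ℝ) := rfl
      rw [h1, Pi.single_eq_of_ne (Fin.succ_ne_zero i), Int.cast_zero, add_zero]
      rfl

end EscW.On
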