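import Pool.Agent.EscW.FNDefs
import Pool.Agent.EscW.O17
import Pool.Agent.EscW.D10
import Pool.Agent.EscW.D5

set_option autoImplicit false

/-!
Project EscW, part FN, module FN14: geometry of part D.
`T = TfD δ`, `z ∈ V`: `(1 + δ) • pol 1 (T X) = pol (1 + δ) (TcD δ X) = em δ X` (`pol_Tc`). `shapeD`: `tΘ δ = 1 - st (12 tq - 4)` is smooth (near `tρ = 0` or the axis `tq` is large and `tΘ = 0`; see `tW_smooth`, module D5), `tΘ st (16 tq)` too. `supp`: `Θ ≠ 0` gives `tq < 5/12`: with `w' = (1 + δ) • z.2`, `tr = |1 + δ + w' 0|`,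
`tρ = |(w' 0 + δ, w' 1)|` (`1 + δ + w' 0 > 0`), `|tρ - δ| ≤ 0.33 δ`, the other components `≤ δ √(5/12)`, so `‖w'‖ ≤ 3 δ`. `off`: `tr ≤ (1 + δ)/2 ≤ 0.57`, `tρ ≥ 0.43`, `tq ≥ 23`. `geoD`: from `coverD` (O17; `inj`, `uniq`, `maps` for `TcD`; `T` is a linear bijection composed with `TcD`), `cvD θ = LamD δ (θ, 0)`. `small`: `|rr - 1 - δ| ≤ 5δ/2`, `|em 2| ≤ 3δ/2`,
`Σ_{i≥3} ≤ δ²/3`. `one`: `tq = qq < 1/3` (`tq_em`). `bar = Dn.bar 1 = st ((16 qq - 1)/3)`: derivative zero for `qq ≤ 1/16`, `S = st (16 qq) = 1` for `qq ≥ 1/16`; `|D bar v| ≤ C |D qq v| ≤ (C/δ) √(mn δ X v)` (`st_bd`, `D10_dqq` of D10), `√mn = ‖fderiv em v‖ = √((2π rr v0)² + ‖(D TcD v).2‖²) ≤ 16 eu (DT v)` (`em_fd`, `pol_fd`, `Phm_Tc`). `exit`: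
`D10_exit`: `qq = 1/4`, `st 1 = 1`. `path`: at `X = (s, s, 0, ..)`: `rho = δ`, `rr - 1 - δ = δ cos (2πs) - δ`, `em 2 = δ sin (2πs)`, `qq = 0`. `wp_small`: `‖wp‖ ≤ 2δ`, `‖wp'‖ ≤ 2πδ`. `C0` depends only on the constant of `st_bd`; take it large.
-/

noncomputable section

namespace EscW.Fn

open Filter Topology Set EscF.T EscM EscMT MeasureTheory EscW.Ex EscW.Dn EscW.On
open scoped ContDiff

variable {d m k j n : ℕ}

/-! ### the cut-off -/

theorem FN14_tq {δ : ℝ} (hδ : 0 < δ) (h8 : δ ≤ 1 / 8) {Y : Vec (n + 3)} (hY : tq δ Y ≤ 5 / 12) :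
    ContDiffAt ℝ ∞ (tq δ : Vec (n + 3) → ℝ) Y := by
  have hρ := (D5_tρ hδ hY).1
  have hr := D5_trpos hδ h8 hY
  have hρ0 : 0 < tρ Y := lt_of_lt_of_le (by positivity) hρ
  have c0 : ContDiffAt ℝ ∞ (fun Y : Vec (n + 3) => Y 0) Y := (D5_co 0).contDiffAt
  have c1 : ContDiffAt ℝ ∞ (fun Y : Vec (n + 3) => Y 1) Y := (D5_co 1).contDiffAt
  have c2 : ContDiffAt ℝ ∞ (fun Y : Vec (n + 3) => Y 2) Y := (D5_co 2).contDiffAt
  have htr : ContDiffAt ℝ ∞ (tr : Vec (n + 3) → ℝ) Y := by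
    have h1 : Y 0 ^ 2 + Y 1 ^ 2 ≠ 0 := by
      intro h0
      unfold tr at hr
      rw [h0, Real.sqrt_zero] at hr
      exact lt_irrefl _ hr
    have h2 : ContDiffAt ℝ ∞ (fun Y : Vec (n + 3) => √(Y 0 ^ 2 + Y 1 ^ 2)) Y :=
      ((c0.pow 2).add (c1.pow 2)).sqrt h1
    exact h2
  have htρ : ContDiffAt ℝ ∞ (tρ : Vec (n + 3) → ℝ) Y := by
    have h1 : (tr Y - 1) ^ 2 + Y 2 ^ 2 ≠ 0 := by
      intro h0
      unfold tρ at hρ0
      rw [h0, Real.sqrt_zero] at hρ0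
      exact lt_irrefl _ hρ0
    have h2 : ContDiffAt ℝ ∞ (fun Y : Vec (n + 3) => √((tr Y - 1) ^ 2 + Y 2 ^ 2)) Y :=
      (((htr.sub contDiffAt_const).pow 2).add (c2.pow 2)).sqrt h1
    exact h2
  have h2 : ContDiffAt ℝ ∞ (fun Y : Vec (n + 3) => (2 * (tρ Y - δ) / δ) ^ 2 +
      ∑ i, if i = 0 ∨ i = 1 ∨ i = 2 then (0 : ℝ) else (Y i / δ) ^ 2) Y :=
    (((contDiffAt_const.mul (htρ.sub contDiffAt_const)).div_const δ).pow 2).add
      (D5_sum δ).contDiffAt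
  exact h2

/-- a function which is a smooth function of `tq` near the shell and zero outside -/
theorem FN14_ext {δ : ℝ} (hδ : 0 < δ) (h8 : δ ≤ 1 / 8) {g : ℝ → ℝ} (hg : ContDiff ℝ ∞ g)
    (h0 : ∀ x, 5 / 12 ≤ x → g x = 0) :
    ContDiff ℝ ∞ (fun Y : Vec (n + 3) => g (tq δ Y)) := by
  rw [contDiff_iff_contDiffAt]
  intro Y
  rcases lt_or_ge (5 / 12) (tq δ Y) with hY | hY
  · have h1 : ∀ᶠ Z in 𝓝 Y, 5 / 12 < tq δ Z := (D5_cont δ).continuousAt.eventually (lt_mem_nhds hY)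
    have h2 : (fun Y : Vec (n + 3) => g (tq δ Y)) =ᶠ[𝓝 Y] fun _ => (0 : ℝ) := by
      filter_upwards [h1] with Z hZ
      exact h0 _ hZ.le
    exact contDiffAt_const.congr_of_eventuallyEq h2
  · exact ContDiffAt.comp (g := g) Y hg.contDiffAt (FN14_tq hδ h8 hY)

theorem FN14_st1 {x : ℝ} (hx : 5 / 12 ≤ x) : 1 - Real.smoothTransition (12 * x - 4) = 0 := by
  rw [Real.smoothTransition.one_of_one_le (by linarith)]
  ring

theorem FN14_Th {δ : ℝ} (hδ : 0 < δ) (h8 : δ ≤ 1 / 8) : ContDiff ℝ ∞ (ThD δ : Vec (n + 3) → ℝ) := by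
  have hst : ContDiff ℝ ∞ Real.smoothTransition := Real.smoothTransition.contDiff
  have h1 : ContDiff ℝ ∞ (fun x : ℝ => 1 - Real.smoothTransition (12 * x - 4)) :=
    contDiff_const.sub (hst.comp ((contDiff_const.mul contDiff_id).sub contDiff_const))
  have h2 := FN14_ext (n := n) hδ h8 h1 (fun x hx => FN14_st1 hx)
  exact h2.comp (contDiff_id.const_smul (1 + δ))

theorem FN14_ThS {δ : ℝ} (hδ : 0 < δ) (h8 : δ ≤ 1 / 8) :
    ContDiff ℝ ∞ (fun Y : Vec (n + 3) => ThD δ Y * StD δ Y) := by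
  have hst : ContDiff ℝ ∞ Real.smoothTransition := Real.smoothTransition.contDiff
  have h1 : ContDiff ℝ ∞ (fun x : ℝ => (1 - Real.smoothTransition (12 * x - 4)) *
      Real.smoothTransition (16 * x)) :=
    (contDiff_const.sub (hst.comp ((contDiff_const.mul contDiff_id).sub contDiff_const))).mul
      (hst.comp (contDiff_const.mul contDiff_id))
  have h2 := FN14_ext (n := n) hδ h8 h1 (fun x hx => by rw [FN14_st1 hx, zero_mul])
  exact h2.comp (contDiff_id.const_smul (1 + δ))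

theorem FN14_lt {δ : ℝ} {Y : Vec (n + 3)} (h : ThD δ Y ≠ 0) : tq δ ((1 + δ) • Y) < 5 / 12 := by
  by_contra hc
  rw [not_lt] at hc
  exact h (FN14_st1 hc)

/-! ### polar coordinates -/

theorem FN14_pol (δ : ℝ) (z : ℝ × Vec (n + 2)) :
    (1 + δ) • pol 1 z = pol (1 + δ) (z.1, (1 + δ) • z.2) := by
  ext i
  refine Fin.cases ?_ (fun i => ?_) i
  · show (1 + δ) * ((1 + z.2 0) * Real.cos (2 * Real.pi * z.1)) =
      (1 + δ + (1 + δ) * z.2 0) * Real.cos (2 * Real.pi * z.1)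
    ring
  refine Fin.cases ?_ (fun i => ?_) i
  · show (1 + δ) * ((1 + z.2 0) * Real.sin (2 * Real.pi * z.1)) =
      (1 + δ + (1 + δ) * z.2 0) * Real.sin (2 * Real.pi * z.1)
    ring
  · rfl

theorem FN14_p0 (R0 θ : ℝ) (w : Vec (n + 2)) :
    pol R0 (θ, w) 0 = (R0 + w 0) * Real.cos (2 * Real.pi * θ) := rfl

theorem FN14_p1 (R0 θ : ℝ) (w : Vec (n + 2)) :
    pol R0 (θ, w) 1 = (R0 + w 0) * Real.sin (2 * Real.pi * θ) := rfl

theorem FN14_p2 (R0 θ : ℝ) (w : Vec (n + 2)) : pol R0 (θ, w) 2 = w 1 := by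
  have h1 : pol R0 (θ, w) (Fin.succ (Fin.succ 0)) = w (Fin.succ 0) := rfl
  rw [O17_two, Fin.succ_zero_eq_one] at h1
  exact h1

theorem FN14_p3 (R0 θ : ℝ) (w : Vec (n + 2)) (i : Fin n) :
    pol R0 (θ, w) i.succ.succ.succ = w i.succ.succ := rfl

theorem FN14_tr {R0 : ℝ} (θ : ℝ) {w : Vec (n + 2)} (h : 0 < R0 + w 0) :
    tr (pol R0 (θ, w)) = R0 + w 0 := by
  unfold tr
  rw [FN14_p0, FN14_p1]
  have h1 := Real.sin_sq_add_cos_sq (2 * Real.pi * θ)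
  have h2 : ((R0 + w 0) * Real.cos (2 * Real.pi * θ)) ^ 2 + ((R0 + w 0) * Real.sin (2 * Real.pi * θ)) ^ 2 =
      (R0 + w 0) ^ 2 := by linear_combination (R0 + w 0) ^ 2 * h1
  rw [h2, Real.sqrt_sq h.le]

theorem FN14_tQ {δ : ℝ} (θ : ℝ) {w : Vec (n + 2)} (h : 0 < 1 + δ + w 0) :
    tQ δ (pol (1 + δ) (θ, w)) = ‖w‖ ^ 2 := by
  unfold tQ
  rw [FN14_tr θ h, O17_sum, FN14_p2, Fin.sum_univ_succ, Fin.sum_univ_succ, Fin.sum_univ_succ, O17_two,
    Fin.succ_zero_eq_one, if_pos (Or.inl rfl), if_pos (Or.inr (Or.inl rfl)), if_pos (Or.inr (Or.inr rfl)),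
    zero_add, zero_add, zero_add]
  have h1 : ∑ i : Fin n, (if i.succ.succ.succ = (0 : Fin (n + 3)) ∨ i.succ.succ.succ = (1 : Fin (n + 3)) ∨
      i.succ.succ.succ = (2 : Fin (n + 3)) then (0 : ℝ) else pol (1 + δ) (θ, w) i.succ.succ.succ ^ 2) =
      ∑ i : Fin n, w i.succ.succ ^ 2 := by
    refine Finset.sum_congr rfl fun i _ => ?_
    rw [if_neg (O17_ne i), FN14_p3]
  rw [h1]
  ring

theorem FN14_supp {δ : ℝ} (hδ : 0 < δ) {z : ℝ × Vec (n + 2)}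
    (h0 : 0 < 1 + z.2 0) (h : ThD δ (pol 1 z) ≠ 0) : ‖z.2‖ ≤ 3 * δ := by
  have h1 := FN14_lt h
  rw [FN14_pol] at h1
  have h2 := (D5_tQ hδ h1.le).2
  have h3 : 0 < 1 + δ + ((1 + δ) • z.2 : Vec (n + 2)) 0 := by
    show 0 < 1 + δ + (1 + δ) * z.2 0
    have : 0 < (1 + δ) * (1 + z.2 0) := mul_pos (by linarith) h0
    linarith
  rw [FN14_tQ _ h3, norm_smul, Real.norm_of_nonneg (by linarith : (0 : ℝ) ≤ 1 + δ)] at h2
  have h4 : ‖z.2‖ ≤ (1 + δ) * ‖z.2‖ := by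
    have := norm_nonneg z.2
    nlinarith
  have h5 : ((1 + δ) * ‖z.2‖) ^ 2 ≤ (3 * δ) ^ 2 := by nlinarith [sq_nonneg δ]
  have h6 : (1 + δ) * ‖z.2‖ ≤ 3 * δ := abs_le_of_sq_le_sq' h5 (by positivity) |>.2
  linarith

theorem FN14_off {δ : ℝ} (hδ : 0 < δ) (h8 : δ ≤ 1 / 8) {Y : Vec (n + 3)} (h : Y 0 ^ 2 + Y 1 ^ 2 ≤ 1 / 4) :
    ThD δ Y = 0 := by
  by_contra hc
  have h1 := (FN14_lt hc).le
  have h2 := (D5_tρ hδ h1).2
  have h3 := (abs_le.1 (D5_tr ((1 + δ) • Y : Vec (n + 3)))).1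
  have h4 : tr ((1 + δ) • Y : Vec (n + 3)) ≤ 9 / 16 := by
    unfold tr
    rw [Real.sqrt_le_left (by norm_num)]
    show ((1 + δ) * Y 0) ^ 2 + ((1 + δ) * Y 1) ^ 2 ≤ _
    have h5 : ((1 + δ) * Y 0) ^ 2 + ((1 + δ) * Y 1) ^ 2 = (1 + δ) ^ 2 * (Y 0 ^ 2 + Y 1 ^ 2) := by ring
    have h6 : (1 + δ) ^ 2 ≤ (9 / 8) ^ 2 := pow_le_pow_left₀ (by linarith) (by linarith) 2
    have h7 : 0 ≤ Y 0 ^ 2 + Y 1 ^ 2 := by positivity
    rw [h5]
    calc (1 + δ) ^ 2 * (Y 0 ^ 2 + Y 1 ^ 2) ≤ (9 / 8) ^ 2 * (1 / 4) := mul_le_mul h6 h h7 (by norm_num)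
      _ ≤ (9 / 16) ^ 2 := by norm_num
  linarith

theorem shapeD {δ : ℝ} (hδ : 0 < δ) (h8 : δ ≤ 1 / 8) {C0 : ℝ} (hC0 : 10 ≤ C0) :
    IsShape (ThD δ : Vec (n + 3) → ℝ) (StD δ) C0 δ where
  smooth := FN14_Th hδ h8
  smooth' := FN14_ThS hδ h8
  mem01 Y := by
    have h1 := Real.smoothTransition.nonneg (12 * tq δ ((1 + δ) • Y) - 4)
    have h2 := Real.smoothTransition.le_one (12 * tq δ ((1 + δ) • Y) - 4)
    unfold ThD tΘ
    constructor <;> linarith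
  mem01' Y := ⟨Real.smoothTransition.nonneg _, Real.smoothTransition.le_one _⟩
  supp z h0 h := by
    have h1 := FN14_supp hδ h0 h
    nlinarith
  off Y h := FN14_off hδ h8 h

/-! ### the map `T` -/

theorem FN14_Tf (δ : ℝ) (X : Vec (n + 3)) : (1 + δ) ≠ 0 → (1 + δ) • (TfD δ X).2 = (TcD δ X).2 := by
  intro h
  show (1 + δ) • ((1 + δ)⁻¹ • (TcD δ X).2) = _
  rw [smul_smul, mul_inv_cancel₀ h, one_smul]

theorem pol_TfD {δ : ℝ} (hδ : 0 < δ) (X : Vec (n + 3)) : (1 + δ) • pol 1 (TfD δ X) = Dn.em δ X := by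
  rw [FN14_pol, FN14_Tf δ X (by linarith)]
  exact O17_pol δ X

/-- the linear bijection -/
def FN14_A (δ : ℝ) : (ℝ × Vec (n + 2)) →L[ℝ] (ℝ × Vec (n + 2)) :=
  (ContinuousLinearMap.fst ℝ ℝ (Vec (n + 2))).prod ((1 + δ)⁻¹ • ContinuousLinearMap.snd ℝ ℝ (Vec (n + 2)))

theorem FN14_TfA (δ : ℝ) : (TfD δ : Vec (n + 3) → ℝ × Vec (n + 2)) = fun X => FN14_A δ (TcD δ X) := rfl

theorem FN14_TcS (δ : ℝ) : ContDiff ℝ ∞ (TcD δ : Vec (n + 3) → ℝ × Vec (n + 2)) :=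
  Tc_smooth (D1_srr δ) (em_smooth δ)

theorem FN14_TfS (δ : ℝ) : ContDiff ℝ ∞ (TfD δ : Vec (n + 3) → ℝ × Vec (n + 2)) := by
  rw [FN14_TfA]
  exact (FN14_A δ).contDiff.comp (FN14_TcS δ)

theorem FN14_fd (δ : ℝ) (X v : Vec (n + 3)) : fderiv ℝ (TfD δ) X v =
    ((fderiv ℝ (TcD δ) X v).1, (1 + δ)⁻¹ • (fderiv ℝ (TcD δ) X v).2) := by
  rw [FN14_TfA]
  have h1 : HasFDerivAt (TcD δ : Vec (n + 3) → ℝ × Vec (n + 2)) (fderiv ℝ (TcD δ) X) X :=
    ((FN14_TcS δ).differentiable (by simp) X).hasFDerivAt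
  have h2 := (FN14_A δ).hasFDerivAt.comp X h1
  have h3 : fderiv ℝ (fun X => FN14_A δ (TcD δ X)) X = (FN14_A δ).comp (fderiv ℝ (TcD δ) X) := h2.fderiv
  rw [h3]
  rfl

theorem FN14_mn {δ : ℝ} (hδ : 0 < δ) (h8 : δ ≤ 1 / 8) (X v : Vec (n + 3)) :
    √(mn δ X v) ≤ 8 * eu (fderiv ℝ (TfD δ) X v) := by
  have h1 : Phm (1 + δ) 1 (fun _ => 1) (TcD δ X) (fderiv ℝ (TcD δ) X v) =
      1 * 1 * ‖fderiv ℝ (em δ) X v‖ :=
    Phm_Tc (D1_srr δ) (em_smooth δ) (D1_em0 δ) (D1_em1 δ) (fun _ => 1) X v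
  have h2 : √(mn δ X v) = ‖fderiv ℝ (em δ) X v‖ := by
    rw [← em_fd, Real.sqrt_sq (norm_nonneg _)]
  have h3 : 1 + δ + (TcD δ X).2 0 = rr δ X := by
    show 1 + δ + (rr δ X - (1 + δ)) = rr δ X
    ring
  rw [h2, FN14_fd]
  unfold Phm at h1
  rw [h3] at h1
  simp only [one_mul] at h1
  rw [← h1]
  unfold eu
  set ζ : ℝ × Vec (n + 2) := fderiv ℝ (TcD δ) X v with hζ
  have h5 := (rr_bd hδ h8 X)
  have h6 : ‖(1 + δ)⁻¹ • ζ.2‖ = (1 + δ)⁻¹ * ‖ζ.2‖ := by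
    rw [norm_smul, Real.norm_of_nonneg (by positivity)]
  have h7 : ‖ζ.2‖ = (1 + δ) * ((1 + δ)⁻¹ * ‖ζ.2‖) := by
    field_simp
  rw [show (8 : ℝ) = √(8 ^ 2) by rw [Real.sqrt_sq (by norm_num)], ← Real.sqrt_mul (by norm_num)]
  refine Real.sqrt_le_sqrt ?_
  rw [h6]
  set a : ℝ := (1 + δ)⁻¹ * ‖ζ.2‖ with ha
  rw [h7]
  have h8' : (2 * Real.pi * rr δ X) ^ 2 ≤ 8 ^ 2 := by
    have hp := Real.pi_lt_d2
    have hp0 := Real.pi_pos
    refine pow_le_pow_left₀ (by have := h5.1; positivity) ?_ 2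
    calc 2 * Real.pi * rr δ X ≤ 2 * 3.15 * (5 / 4) :=
          mul_le_mul (by linarith) h5.2 (by linarith [h5.1]) (by norm_num)
      _ ≤ 8 := by norm_num
  have h9 : (1 + δ) ^ 2 ≤ 8 ^ 2 := pow_le_pow_left₀ (by linarith) (by linarith) 2
  have h10 : (2 * Real.pi * rr δ X * ζ.1) ^ 2 ≤ 8 ^ 2 * ζ.1 ^ 2 := by
    rw [mul_pow]
    exact mul_le_mul_of_nonneg_right h8' (sq_nonneg _)
  have h11 : ((1 + δ) * a) ^ 2 ≤ 8 ^ 2 * a ^ 2 := by
    rw [mul_pow]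
    exact mul_le_mul_of_nonneg_right h9 (sq_nonneg _)
  rw [mul_add]
  exact add_le_add h10 h11

/-! ### the curves -/

theorem FN14_cv (θ : ℝ) {i : Fin (n + 3)} (h : i ≠ 0) : (cvD θ : Vec (n + 3)) i = 0 := by
  show (if i = 0 then θ else 0) = 0
  rw [if_neg h]

theorem FN14_cv0 (θ : ℝ) : (cvD θ : Vec (n + 3)) 0 = θ := by
  show (if (0 : Fin (n + 3)) = 0 then θ else 0) = θ
  rw [if_pos rfl]

theorem FN14_ga0 (s : ℝ) : (gaD s : Vec (n + 3)) 0 = s := by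
  show (if (0 : Fin (n + 3)) = 0 ∨ (0 : Fin (n + 3)) = 1 then s else 0) = s
  rw [if_pos (Or.inl rfl)]

theorem FN14_ga1 (s : ℝ) : (gaD s : Vec (n + 3)) 1 = s := by
  show (if (1 : Fin (n + 3)) = 0 ∨ (1 : Fin (n + 3)) = 1 then s else 0) = s
  rw [if_pos (Or.inr rfl)]

theorem FN14_ga (s : ℝ) {i : Fin (n + 3)} (h0 : i ≠ 0) (h1 : i ≠ 1) : (gaD s : Vec (n + 3)) i = 0 := by
  show (if i = 0 ∨ i = 1 then s else 0) = 0
  rw [if_neg (by tauto)]

theorem FN14_em {δ : ℝ} {X : Vec (n + 3)} (h : ∀ i, i ≠ 0 → i ≠ 1 → X i = 0) :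
    TcD δ X = (X 0, WithLp.toLp 2 (fun i : Fin (n + 2) =>
      if i = 0 then δ * Real.cos (2 * Real.pi * X 1) - δ else
      if i = 1 then δ * Real.sin (2 * Real.pi * X 1) else 0)) := by
  have h2 : X 2 = 0 := h 2 D1_02.symm D1_12.symm
  have hr : rho δ X = δ := by
    unfold rho
    rw [h2]
    simp
  refine Prod.ext rfl ?_
  ext i
  refine Fin.cases ?_ (fun i => ?_) i
  · show rr δ X - (1 + δ) = if (0 : Fin (n + 2)) = 0 then
      δ * Real.cos (2 * Real.pi * X 1) - δ else if (0 : Fin (n + 2)) = 1 then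
      δ * Real.sin (2 * Real.pi * X 1) else 0
    rw [if_pos rfl]
    unfold rr
    rw [hr]
    ring
  refine Fin.cases ?_ (fun i => ?_) i
  · rw [Fin.succ_zero_eq_one, O17_T1, D1_em2, hr]
    show δ * Real.sin (2 * Real.pi * X 1) = if (1 : Fin (n + 2)) = 0 then
      δ * Real.cos (2 * Real.pi * X 1) - δ else if (1 : Fin (n + 2)) = 1 then
      δ * Real.sin (2 * Real.pi * X 1) else 0
    rw [if_neg (by rw [← Fin.succ_zero_eq_one]; exact Fin.succ_ne_zero 0), if_pos rfl]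
  · have h3 : (TcD δ X).2 i.succ.succ = em δ X i.succ.succ.succ := rfl
    rw [h3, D1_em3 δ _ (O17_ne i)]
    have h4 : X i.succ.succ.succ = 0 := h _ (fun h0 => O17_ne i (Or.inl h0))
      (fun h1 => O17_ne i (Or.inr (Or.inl h1)))
    rw [h4]
    show _ = if i.succ.succ = (0 : Fin (n + 2)) then
      δ * Real.cos (2 * Real.pi * X 1) - δ else if i.succ.succ = (1 : Fin (n + 2)) then
      δ * Real.sin (2 * Real.pi * X 1) else 0
    rw [if_neg (Fin.succ_ne_zero _), if_neg]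
    · simp
    · rw [← Fin.succ_zero_eq_one]
      intro h5
      exact Fin.succ_ne_zero i (Fin.succ_injective _ h5)

theorem FN14_cvT (δ θ : ℝ) : TfD δ (cvD θ : Vec (n + 3)) = (θ, 0) := by
  have h1 : TcD δ (cvD θ : Vec (n + 3)) = (θ, 0) := by
    rw [FN14_em (fun i h0 _ => FN14_cv θ h0), FN14_cv0, FN14_cv θ D1_01.symm]
    refine Prod.ext rfl ?_
    ext i
    show (if i = 0 then δ * Real.cos (2 * Real.pi * 0) - δ else
      if i = 1 then δ * Real.sin (2 * Real.pi * 0) else 0) = 0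
    simp
  rw [FN14_TfA]
  show FN14_A δ (TcD δ (cvD θ)) = _
  rw [h1]
  show (θ, (1 + δ)⁻¹ • (0 : Vec (n + 2))) = _
  rw [smul_zero]

theorem FN14_gaT (δ s : ℝ) : TfD δ (gaD s : Vec (n + 3)) = (s, wpD δ s) := by
  rw [FN14_TfA]
  show FN14_A δ (TcD δ (gaD s)) = _
  rw [FN14_em (fun i h0 h1 => FN14_ga s h0 h1), FN14_ga0, FN14_ga1]
  rfl

theorem FN14_S0 {δ : ℝ} (hδ : 0 < δ) (h8 : δ ≤ 1 / 8) {X : Vec (n + 3)} (h : qq X = 0) :
    StD δ (pol 1 (TfD δ X)) = 0 := by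
  unfold StD
  rw [pol_TfD hδ, tq_em hδ h8, h, mul_zero]
  exact Real.smoothTransition.zero_of_nonpos le_rfl

theorem FN14_one {δ : ℝ} (hδ : 0 < δ) (h8 : δ ≤ 1 / 8) {X : Vec (n + 3)} (h : qq X ≤ 1 / 3) :
    ThD δ (pol 1 (TfD δ X)) = 1 := by
  unfold ThD tΘ
  rw [pol_TfD hδ, tq_em hδ h8, Real.smoothTransition.zero_of_nonpos (by linarith)]
  ring

theorem FN14_small {δ : ℝ} (hδ : 0 < δ) (h8 : δ ≤ 1 / 8) {X : Vec (n + 3)} (h : qq X ≤ 1 / 3) :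
    ‖(TfD δ X).2‖ ≤ 3 * δ := by
  refine FN14_supp hδ ?_ ?_
  · have h1 : (1 + δ) * (1 + (TfD δ X).2 0) = rr δ X := by
      show (1 + δ) * (1 + (1 + δ)⁻¹ * (rr δ X - (1 + δ))) = rr δ X
      field_simp
      ring
    have h2 := (rr_bd hδ h8 X).1
    by_contra hc
    rw [not_lt] at hc
    nlinarith
  · rw [FN14_one hδ h8 h]
    exact one_ne_zero

theorem FN14_bar {δ C : ℝ} (hδ : 0 < δ) (h8 : δ ≤ 1 / 8) (hC : 1 ≤ C)
    (hC0 : ∀ t, |deriv Real.smoothTransition t| ≤ C) {X : Vec (n + 3)} (hX : qq X ≤ 1 / 4)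
    (v : Vec (n + 3)) :
    fderiv ℝ (Dn.bar 1) X v ≤ 100 * C / δ * (StD δ (pol 1 (TfD δ X)) * eu (fderiv ℝ (TfD δ) X v)) := by
  rw [D10_bar_fd, one_mul]
  have hE : 0 ≤ eu (fderiv ℝ (TfD δ) X v) := Real.sqrt_nonneg _
  have hSt : StD δ (pol 1 (TfD δ X)) = Real.smoothTransition (16 * qq X) := by
    unfold StD
    rw [pol_TfD hδ, tq_em hδ h8]
  rw [hSt]
  obtain ⟨C', -, -, hz⟩ := st_deriv
  by_cases h : 16 * qq X < 1
  · rw [hz _ (Or.inl (by linarith)), zero_mul]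
    have := Real.smoothTransition.nonneg (16 * qq X)
    positivity
  · rw [Real.smoothTransition.one_of_one_le (not_lt.1 h), one_mul]
    have h1 := D10_dqq hδ hX v
    have h2 := FN14_mn hδ h8 X v
    have h3 : |fderiv ℝ qq X v| ≤ 2 / δ * (8 * eu (fderiv ℝ (TfD δ) X v)) :=
      h1.trans (mul_le_mul_of_nonneg_left h2 (by positivity))
    have h4 : deriv Real.smoothTransition ((16 * qq X - 1) / 3) * (16 / 3 * fderiv ℝ qq X v) ≤
        C * (16 / 3 * (2 / δ * (8 * eu (fderiv ℝ (TfD δ) X v)))) := by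
      refine (le_abs_self _).trans ?_
      rw [abs_mul, abs_mul, abs_of_pos (by norm_num : (0 : ℝ) < 16 / 3)]
      exact mul_le_mul (hC0 _) (mul_le_mul_of_nonneg_left h3 (by norm_num)) (by positivity) (by linarith)
    refine h4.trans ?_
    have h5 : C * (16 / 3 * (2 / δ * (8 * eu (fderiv ℝ (TfD δ) X v)))) =
        (256 / 3) * (C / δ * eu (fderiv ℝ (TfD δ) X v)) := by ring
    have h6 : 100 * C / δ * eu (fderiv ℝ (TfD δ) X v) = 100 * (C / δ * eu (fderiv ℝ (TfD δ) X v)) := by ring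
    rw [h5, h6]
    have h7 : 0 ≤ C / δ * eu (fderiv ℝ (TfD δ) X v) := by positivity
    linarith

/-! ### the path `wp` -/

theorem FN14_sq (a b : ℝ) : ‖(WithLp.toLp 2 (fun i : Fin (n + 2) => if i = 0 then a else
    if i = 1 then b else 0) : Vec (n + 2))‖ ^ 2 = a ^ 2 + b ^ 2 := by
  rw [O17_sum]
  have h0 : (WithLp.toLp 2 (fun i : Fin (n + 2) => if i = 0 then a else
    if i = 1 then b else 0) : Vec (n + 2)) 0 = a := by
    show (if (0 : Fin (n + 2)) = 0 then a else if (0 : Fin (n + 2)) = 1 then b else 0) = a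
    rw [if_pos rfl]
  have h01 : ¬ ((1 : Fin (n + 2)) = 0) := by
    rw [← Fin.succ_zero_eq_one]
    exact Fin.succ_ne_zero 0
  have h1 : (WithLp.toLp 2 (fun i : Fin (n + 2) => if i = 0 then a else
    if i = 1 then b else 0) : Vec (n + 2)) 1 = b := by
    show (if (1 : Fin (n + 2)) = 0 then a else if (1 : Fin (n + 2)) = 1 then b else 0) = b
    rw [if_neg h01, if_pos rfl]
  have h2 : ∀ i : Fin n, (WithLp.toLp 2 (fun i : Fin (n + 2) => if i = 0 then a else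
    if i = 1 then b else 0) : Vec (n + 2)) i.succ.succ = 0 := by
    intro i
    show (if i.succ.succ = (0 : Fin (n + 2)) then a else if i.succ.succ = (1 : Fin (n + 2)) then b else 0) = 0
    rw [if_neg (Fin.succ_ne_zero _), if_neg]
    rw [← Fin.succ_zero_eq_one]
    intro h5
    exact Fin.succ_ne_zero i (Fin.succ_injective _ h5)
  rw [h0, h1, Finset.sum_eq_zero fun i _ => by rw [h2 i]; norm_num, add_zero]

/-- the derivative of `wp` -/
def FN14_dw (δ s : ℝ) : Vec (n + 2) :=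
  (1 + δ)⁻¹ • WithLp.toLp 2 (fun i => if i = 0 then -(2 * Real.pi * δ * Real.sin (2 * Real.pi * s)) else
    if i = 1 then 2 * Real.pi * δ * Real.cos (2 * Real.pi * s) else 0)

theorem FN14_wps (δ : ℝ) : ContDiff ℝ 1 (wpD δ : ℝ → Vec (n + 2)) := by
  unfold wpD
  refine ContDiff.const_smul _ ?_
  rw [contDiff_euclidean]
  intro i
  show ContDiff ℝ 1 (fun s : ℝ => if i = 0 then δ * Real.cos (2 * Real.pi * s) - δ else
    if i = 1 then δ * Real.sin (2 * Real.pi * s) else 0)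
  split_ifs
  · fun_prop
  · fun_prop
  · exact contDiff_const

theorem FN14_wpd (δ s : ℝ) : HasDerivAt (wpD δ : ℝ → Vec (n + 2)) (FN14_dw δ s) s := by
  suffices key : HasDerivAt (fun s : ℝ => (WithLp.toLp 2 (fun i : Fin (n + 2) =>
      if i = 0 then δ * Real.cos (2 * Real.pi * s) - δ else
      if i = 1 then δ * Real.sin (2 * Real.pi * s) else 0) : Vec (n + 2)))
      (WithLp.toLp 2 (fun i : Fin (n + 2) => if i = 0 then -(2 * Real.pi * δ * Real.sin (2 * Real.pi * s)) else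
        if i = 1 then 2 * Real.pi * δ * Real.cos (2 * Real.pi * s) else 0)) s from
    key.const_smul ((1 + δ)⁻¹)
  suffices hc : HasDerivAt (fun (s : ℝ) (i : Fin (n + 2)) =>
      if i = 0 then δ * Real.cos (2 * Real.pi * s) - δ else
      if i = 1 then δ * Real.sin (2 * Real.pi * s) else 0)
      (fun i : Fin (n + 2) => if i = 0 then -(2 * Real.pi * δ * Real.sin (2 * Real.pi * s)) else
        if i = 1 then 2 * Real.pi * δ * Real.cos (2 * Real.pi * s) else 0) s from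
    ((EuclideanSpace.equiv (Fin (n + 2)) ℝ).symm :
      (Fin (n + 2) → ℝ) →L[ℝ] Vec (n + 2)).hasFDerivAt.comp_hasDerivAt s hc
  rw [hasDerivAt_pi]
  intro i
  have hl : HasDerivAt (fun y : ℝ => 2 * Real.pi * y) (2 * Real.pi) s := by
    simpa using (hasDerivAt_id s).const_mul (2 * Real.pi)
  show HasDerivAt (fun s : ℝ => if i = 0 then δ * Real.cos (2 * Real.pi * s) - δ else
    if i = 1 then δ * Real.sin (2 * Real.pi * s) else 0)
    (if i = 0 then -(2 * Real.pi * δ * Real.sin (2 * Real.pi * s)) else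
      if i = 1 then 2 * Real.pi * δ * Real.cos (2 * Real.pi * s) else 0) s
  split_ifs
  · exact ((hl.cos.const_mul δ).sub_const δ).congr_deriv (by ring)
  · exact (hl.sin.const_mul δ).congr_deriv (by ring)
  · exact hasDerivAt_const _ _

theorem FN14_inv {δ : ℝ} (hδ : 0 < δ) {v : Vec (n + 2)} {c : ℝ} (h : ‖v‖ ^ 2 ≤ c ^ 2) (hc : 0 ≤ c) :
    ‖(1 + δ)⁻¹ • v‖ ≤ c := by
  have h1 : ‖v‖ ≤ c := abs_le_of_sq_le_sq' h hc |>.2
  rw [norm_smul, Real.norm_of_nonneg (by positivity)]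
  have h2 : (1 + δ)⁻¹ ≤ 1 := inv_le_one_of_one_le₀ (by linarith)
  calc (1 + δ)⁻¹ * ‖v‖ ≤ 1 * ‖v‖ := mul_le_mul_of_nonneg_right h2 (norm_nonneg _)
    _ ≤ c := by rw [one_mul]; exact h1

theorem FN14_wp1 {δ : ℝ} (hδ : 0 < δ) (s : ℝ) : ‖(wpD δ s : Vec (n + 2))‖ ≤ 2 * δ := by
  unfold wpD
  refine FN14_inv hδ ?_ (by positivity)
  rw [FN14_sq]
  have h1 := Real.sin_sq_add_cos_sq (2 * Real.pi * s)
  have h2 := Real.neg_one_le_cos (2 * Real.pi * s)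
  have h3 : (δ * Real.cos (2 * Real.pi * s) - δ) ^ 2 + (δ * Real.sin (2 * Real.pi * s)) ^ 2 =
      δ ^ 2 * (2 - 2 * Real.cos (2 * Real.pi * s)) := by linear_combination δ ^ 2 * h1
  rw [h3]
  have h4 : 0 ≤ δ ^ 2 := sq_nonneg δ
  nlinarith

theorem FN14_wp2 {δ : ℝ} (hδ : 0 < δ) (s : ℝ) : ‖deriv (wpD δ : ℝ → Vec (n + 2)) s‖ ≤ 2 * Real.pi * δ := by
  rw [(FN14_wpd δ s).deriv]
  unfold FN14_dw
  have hp := Real.pi_pos
  refine FN14_inv hδ ?_ (by positivity)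
  rw [FN14_sq]
  have h1 := Real.sin_sq_add_cos_sq (2 * Real.pi * s)
  apply le_of_eq
  linear_combination (2 * Real.pi * δ) ^ 2 * h1

/-! ### the geometry -/

theorem FN14_gal (s : ℝ) : (gaD s : Vec (n + 3)) = s • vz nnD := by
  ext i
  show (if i = 0 ∨ i = 1 then s else 0) = s * (((if i = 0 ∨ i = 1 then 1 else 0 : ℤ)) : ℝ)
  split_ifs <;> simp

theorem FN14_geo {δ C : ℝ} (hδ : 0 < δ) (h8 : δ ≤ 1 / 8) (hC : 1 ≤ C)
    (hC0 : ∀ t, |deriv Real.smoothTransition t| ≤ C) :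
    Geo (tor (n + 3)) (Dn.SO n) (Dn.SK n) 0 (TfD δ) cvD (ThD δ) (StD δ) (Dn.bar 1) 0 nnD gaD (wpD δ)
      (100 * C) δ where
  isOpen := SO_open
  smooth := (FN14_TfS δ).of_le (by exact_mod_cast le_top)
  fst _ := rfl
  per l x := by
    show (1 + δ)⁻¹ • (TcD δ (x + vz l)).2 = (1 + δ)⁻¹ • (TcD δ x).2
    rw [(coverD hδ h8).per l x]
  small x hx := by
    have h1 := FN14_small hδ h8 hx.2.1.le
    nlinarith
  one x hx := FN14_one hδ h8 hx.2.1.le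
  inj x hx v hv h0 h := by
    rw [FN14_fd] at h
    have h1 := congrArg Prod.fst h
    have h2 := congrArg Prod.snd h
    simp only [Prod.fst_zero, Prod.snd_zero] at h1 h2
    refine (coverD hδ h8).inj x hx v hv h0 (Prod.ext h1 ?_)
    exact (smul_eq_zero.1 h2).resolve_left (by positivity)
  uniq x hx y hy h := by
    have h1 : x 0 = y 0 := congrArg Prod.fst h
    refine (coverD hδ h8).uniq x hx y hy (Prod.ext h1 ?_)
    rw [← FN14_Tf δ x (by linarith), ← FN14_Tf δ y (by linarith), h]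
  cv_smooth := by
    rw [contDiff_euclidean]
    intro i
    show ContDiff ℝ 1 (fun θ : ℝ => if i = 0 then θ else 0)
    split_ifs
    · exact contDiff_id
    · exact contDiff_const
  cv_mem θ := ⟨mem_univ _, SK_sub (D10_zero fun i h0 _ => FN14_cv θ h0).2⟩
  cv_T θ := FN14_cvT δ θ
  cv_per θ := by
    ext i
    refine Fin.cases ?_ (fun i => ?_) i
    · show (if (0 : Fin (n + 3)) = 0 then θ + 1 else 0) = (if (0 : Fin (n + 3)) = 0 then θ else 0) +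
        ((Pi.single (0 : Fin (n + 3)) (1 : ℤ) : Fin (n + 3) → ℤ) 0 : ℝ)
      simp
    · show (if i.succ = (0 : Fin (n + 3)) then θ + 1 else 0) =
        (if i.succ = (0 : Fin (n + 3)) then θ else 0) +
        ((Pi.single (0 : Fin (n + 3)) (1 : ℤ) : Fin (n + 3) → ℤ) i.succ : ℝ)
      rw [Pi.single_eq_of_ne (Fin.succ_ne_zero i), if_neg (Fin.succ_ne_zero i),
        if_neg (Fin.succ_ne_zero i)]
      simp
  cv_S θ := by
    have h1 := FN14_S0 hδ h8 (D10_zero (X := (cvD θ : Vec (n + 3))) fun i h0 _ => FN14_cv θ h0).1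
    rwa [FN14_cvT] at h1
  closed := SK_closed
  sub x hx := ⟨mem_univ _, SK_sub hx⟩
  periodic l x hx := SK_per l hx
  cv_K θ := (D10_zero fun i h0 _ => FN14_cv θ h0).2
  bar_smooth := (D10_bar_smooth 1).of_le (by exact_mod_cast le_top)
  bar_cv θ := by
    unfold Dn.bar
    rw [(D10_zero (X := (cvD θ : Vec (n + 3))) fun i h0 _ => FN14_cv θ h0).1,
      Real.smoothTransition.zero_of_nonpos (by norm_num), mul_zero]
  bar_le x hx v _ := FN14_bar hδ h8 hC hC0 hx.1 v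
  exit x hx hc := by
    have h1 := D10_exit hx hc
    unfold Dn.bar
    rw [Real.smoothTransition.one_of_one_le (by linarith), one_mul]
  n_ne l h := by
    have h1 := congrFun h (1 : Fin (n + 3))
    rw [Pi.single_eq_of_ne D1_01.symm] at h1
    unfold nnD at h1
    rw [if_pos (Or.inr rfl)] at h1
    exact one_ne_zero h1
  lip := by
    refine ⟨‖(vz nnD : Vec (n + 3))‖₊, LipschitzWith.of_dist_le_mul fun s t => ?_⟩
    rw [FN14_gal, FN14_gal, dist_eq_norm, ← sub_smul, norm_smul, mul_comm, Real.dist_eq]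
    rfl
  γ0 := by
    ext i
    by_cases h0 : i = 0
    · rw [h0, FN14_ga0, FN14_cv0]
    · by_cases h1 : i = 1
      · rw [h1, FN14_ga1, FN14_cv 0 D1_01.symm]
      · rw [FN14_ga 0 h0 h1, FN14_cv 0 h0]
  γ1 := by
    ext i
    show (if i = 0 ∨ i = 1 then (1 : ℝ) else 0) = (if i = 0 then (0 : ℝ) else 0) +
      (((if i = 0 ∨ i = 1 then 1 else 0 : ℤ)) : ℝ)
    split_ifs <;> simp
  γK s _ := (D10_zero fun i h0 h1 => FN14_ga s h0 h1).2
  γd s _ := by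
    have h1 : (gaD : ℝ → Vec (n + 3)) = fun s => s • vz nnD := funext FN14_gal
    rw [h1]
    exact differentiableAt_id.smul_const _
  path s _ := by
    rw [zero_add]
    refine ⟨FN14_gaT δ s, ?_⟩
    have h1 := FN14_S0 hδ h8 (D10_zero (X := (gaD s : Vec (n + 3))) fun i h0 h1 => FN14_ga s h0 h1).1
    rwa [FN14_gaT] at h1
  wp_smooth := FN14_wps δ
  wp_small s := by
    have h1 := FN14_wp1 (n := n) hδ s
    have h2 := FN14_wp2 (n := n) hδ s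
    have hp := Real.pi_lt_d2
    constructor
    · nlinarith
    · have h3 : 2 * Real.pi * δ ≤ 2 * 3.15 * δ := by nlinarith
      nlinarith

theorem geoD (n : ℕ) : ∃ C0 : ℝ, 10 ≤ C0 ∧ ∀ δ, 0 < δ → δ ≤ 1 / 8 →
    Geo (tor (n + 3)) (Dn.SO n) (Dn.SK n) 0 (TfD δ) cvD (ThD δ) (StD δ) (Dn.bar 1) 0 nnD gaD (wpD δ) C0
      δ := by
  obtain ⟨C, hC, hC0⟩ := st_bd
  exact ⟨100 * C, by linarith, fun δ hδ h8 => FN14_geo hδ h8 hC hC0⟩

end EscW.Fn
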