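import Pool.Agent.EscW.G2
import Pool.Agent.EscW.D4

set_option autoImplicit false

/-!
Project EscW, part G, module G3: the covering chart.
Compare part D, modules D2 and D4. `phi_inj`: both points in `W`, `small`, so `l = 0`; apply `g'`. `em_inj`: `rr` gives `uu`, `cos (2πx1) > 0` has the square `1 - uu²`, so `x 1` agrees modulo `ℤ`; `cos`, `sin` of `2πx0`; `(cos, sin) (2πx2) = ((4 uu - 1), sin(2πx0)) / Ce`, `Ce = √qz` (`Fe_sq`). `inverse`: the map
`x ↦ (em δ x, Fe x)` from `Vec 3` to `Vec 2 × ℝ` has an injective derivative at `x ∈ M'.N ∩ SO` (`em_fd`, then `∂2 Fe = -2π Ce ≠ 0`), so a smooth local inverse `gi`; `ψ w = gi (s⁻¹ • A⁻¹ (g' w), 0)`.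
-/

noncomputable section

namespace EscW.Gn

open Filter Topology Set EscF.T EscM EscMT MeasureTheory EscW.Ex EscW.Dn
open scoped ContDiff

variable {d m n : ℕ}

theorem phi_mem {M : Sub d} {W : Set (Vec d)} {ρ : ℝ} {g : Vec 2 → Vec d}
    {g' : Vec d → Vec 2} (hg : MChart M 2 W ρ g g') (A : Vec 2 ≃L[ℝ] Vec 2) {δ s : ℝ}
    (hδ : 0 < δ) (h8 : δ ≤ 1 / 8) (hs : 0 < s)
    (hsA : s * (‖(A : Vec 2 →L[ℝ] Vec 2)‖ * 2) ≤ ρ / 2) (x : Vec 3) :
    ‖s • A (em δ x)‖ ≤ ρ / 2 ∧ g (s • A (em δ x)) ∈ M.N ∩ W ∧ g' (g (s • A (em δ x))) = s • A (em δ x) := by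
  have hρ := hg.pos
  have h1 : ‖s • A (em δ x)‖ ≤ ρ / 2 := by
    rw [norm_smul, Real.norm_of_nonneg hs.le]
    have h2 : ‖A (em δ x)‖ ≤ ‖(A : Vec 2 →L[ℝ] Vec 2)‖ * 2 :=
      le_trans ((A : Vec 2 →L[ℝ] Vec 2).le_opNorm (em δ x))
        (mul_le_mul_of_nonneg_left (em_bd hδ h8 x) (norm_nonneg _))
    exact le_trans (mul_le_mul_of_nonneg_left h2 hs.le) hsA
  have h3 : s • A (em δ x) ∈ Metric.ball (0 : Vec 2) ρ := by
    rw [mem_ball_zero_iff]
    linarith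
  exact ⟨h1, hg.maps _ h3, hg.left _ h3⟩

theorem G3_l {M : Sub d} {W : Set (Vec d)} {ρ : ℝ} {g : Vec 2 → Vec d}
    {g' : Vec d → Vec 2} (hg : MChart M 2 W ρ g g') (A : Vec 2 ≃L[ℝ] Vec 2) {δ s : ℝ}
    (hδ : 0 < δ) (h8 : δ ≤ 1 / 8) (hs : 0 < s)
    (hsA : s * (‖(A : Vec 2 →L[ℝ] Vec 2)‖ * 2) ≤ ρ / 2) (x y : Vec 3)
    (l : Fin d → ℤ) (h : g (s • A (em δ y)) = g (s • A (em δ x)) + vz l) : l = 0 := by
  have h1 : dist (g (s • A (em δ y))) (g (s • A (em δ x))) < 1 :=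
    hg.small _ (phi_mem hg A hδ h8 hs hsA y).2.1.2 _ (phi_mem hg A hδ h8 hs hsA x).2.1.2
  apply D4_vz
  rw [h, dist_eq_norm, add_sub_cancel_left] at h1
  exact h1

theorem G3_inv {s : ℝ} (hs : 0 < s) (A : Vec 2 ≃L[ℝ] Vec 2) (z : Vec 2) :
    s⁻¹ • A.symm (s • A z) = z := by
  rw [map_smul, A.symm_apply_apply, smul_smul, inv_mul_cancel₀ hs.ne', one_smul]

theorem G3_inv' {s : ℝ} (hs : 0 < s) (A : Vec 2 ≃L[ℝ] Vec 2) (z : Vec 2) :
    s • A (s⁻¹ • A.symm z) = z := by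
  rw [map_smul, A.apply_symm_apply, smul_smul, mul_inv_cancel₀ hs.ne', one_smul]

theorem phi_inj {M : Sub d} {W : Set (Vec d)} {ρ : ℝ} {g : Vec 2 → Vec d}
    {g' : Vec d → Vec 2} (hg : MChart M 2 W ρ g g') (A : Vec 2 ≃L[ℝ] Vec 2) {δ s : ℝ}
    (hδ : 0 < δ) (h8 : δ ≤ 1 / 8) (hs : 0 < s)
    (hsA : s * (‖(A : Vec 2 →L[ℝ] Vec 2)‖ * 2) ≤ ρ / 2) (x y : Vec 3)
    (l : Fin d → ℤ) (h : g (s • A (em δ y)) = g (s • A (em δ x)) + vz l) : em δ x = em δ y := by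
  have hl := G3_l hg A hδ h8 hs hsA x y l h
  rw [hl, D4_vz0, add_zero] at h
  have h3 : s • A (em δ y) = s • A (em δ x) := by
    rw [← (phi_mem hg A hδ h8 hs hsA y).2.2, ← (phi_mem hg A hδ h8 hs hsA x).2.2, h]
  rw [← G3_inv hs A (em δ x), ← G3_inv hs A (em δ y), h3]

/-- on the surface, the third coordinate is determined by the first two -/
theorem G3_ce {x : Vec 3} (hF : Fe x = 0) :
    Ce x * Real.cos (2 * Real.pi * x 2) = 4 * uu x - 1 ∧
      Ce x * Real.sin (2 * Real.pi * x 2) = Real.sin (2 * Real.pi * x 0) := by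
  have h := Real.sin_sq_add_cos_sq (2 * Real.pi * x 2)
  unfold Fe at hF
  unfold Ce
  constructor
  · linear_combination (4 * uu x - 1) * h + Real.sin (2 * Real.pi * x 2) * hF
  · linear_combination Real.sin (2 * Real.pi * x 0) * h - Real.cos (2 * Real.pi * x 2) * hF

theorem em_inj {M' : Sub 3} (hM : M'.N = {x | Fe x = 0}) {δ : ℝ} (hδ : 0 < δ) (h8 : δ ≤ 1 / 8) {x y : Vec 3}
    (hx : x ∈ M'.N ∩ SO) (hy : y ∈ M'.N ∩ SO) (h : em δ x = em δ y) : ∃ k : Fin 3 → ℤ, y = x + vz k := by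
  have hFx : Fe x = 0 := by
    have := hx.1
    rw [hM] at this
    exact this
  have hFy : Fe y = 0 := by
    have := hy.1
    rw [hM] at this
    exact this
  have hrr : rr δ x = rr δ y := by rw [← tr_em hδ h8 x, ← tr_em hδ h8 y, h]
  have huu : uu x = uu y := by rw [← tu_em hδ h8 x, ← tu_em hδ h8 y, h]
  have hr0 : rr δ y ≠ 0 := by
    have := (rr_bd hδ h8 y).1
    linarith
  have hi : ∀ i : Fin 2, em δ x i = em δ y i := fun i => by rw [h]
  have c0 : Real.cos (2 * Real.pi * x 0) = Real.cos (2 * Real.pi * y 0) := by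
    have h1 := hi 0
    rw [G2_em0, G2_em0, hrr] at h1
    exact mul_left_cancel₀ hr0 h1
  have s0 : Real.sin (2 * Real.pi * x 0) = Real.sin (2 * Real.pi * y 0) := by
    have h1 := hi 1
    rw [G2_em1, G2_em1, hrr] at h1
    exact mul_left_cancel₀ hr0 h1
  have s1 : Real.sin (2 * Real.pi * x 1) = Real.sin (2 * Real.pi * y 1) := huu
  have c1 := D2_cos_eq hx.2.2.2.1 hy.2.2.2.1 s1
  have hCx : 0 < Ce x := hx.2.2.2.2
  have hCy : 0 < Ce y := hy.2.2.2.2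
  have hq : qz x = qz y := by
    unfold qz
    rw [huu, s0]
  have hC : Ce x = Ce y := by
    have h1 := Fe_sq x
    have h2 := Fe_sq y
    rw [hFx] at h1
    rw [hFy] at h2
    have h3 : Ce x ^ 2 = Ce y ^ 2 := by linarith
    exact (pow_left_inj₀ hCx.le hCy.le two_ne_zero).1 h3
  obtain ⟨a1, a2⟩ := G3_ce hFx
  obtain ⟨b1, b2⟩ := G3_ce hFy
  have c2 : Real.cos (2 * Real.pi * x 2) = Real.cos (2 * Real.pi * y 2) := by
    have h1 : Ce y * Real.cos (2 * Real.pi * x 2) = Ce y * Real.cos (2 * Real.pi * y 2) := by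
      rw [b1, ← huu, ← a1, hC]
    exact mul_left_cancel₀ hCy.ne' h1
  have s2 : Real.sin (2 * Real.pi * x 2) = Real.sin (2 * Real.pi * y 2) := by
    have h1 : Ce y * Real.sin (2 * Real.pi * x 2) = Ce y * Real.sin (2 * Real.pi * y 2) := by
      rw [b2, ← s0, ← a2, hC]
    exact mul_left_cancel₀ hCy.ne' h1
  have key : ∀ i : Fin 3, ∃ k : ℤ, y i = x i + k := by
    intro i
    fin_cases i
    · exact D2_int c0 s0
    · exact D2_int c1 s1
    · exact D2_int c2 s2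
  choose k hk using key
  refine ⟨k, ?_⟩
  ext i
  exact hk i

/-- the map used for the local inverse -/
def G3_f (δ : ℝ) (x : Vec 3) : Vec 2 × ℝ := (em δ x, Fe x)

theorem G3_f_smooth (δ : ℝ) : ContDiff ℝ ∞ (G3_f δ) := (em_smooth δ).prodMk Fe_smooth

theorem G3_f_inj {δ : ℝ} (hδ : 0 < δ) (h8 : δ ≤ 1 / 8) {x : Vec 3} (hx : x ∈ SO) {v : Vec 3}
    (hv : fderiv ℝ (G3_f δ) x v = 0) : v = 0 := by
  have h1 : HasFDerivAt (G3_f δ) ((fderiv ℝ (em δ) x).prod (fderiv ℝ Fe x)) x :=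
    (((em_smooth δ).differentiable (by simp) x).hasFDerivAt).prodMk
      ((Fe_smooth.differentiable (by simp) x).hasFDerivAt)
  rw [h1.fderiv] at hv
  have e1 : fderiv ℝ (em δ) x v = 0 := congrArg Prod.fst hv
  have h2 : fderiv ℝ Fe x v = 0 := congrArg Prod.snd hv
  have hz := em_fd δ x v
  rw [e1, norm_zero] at hz
  obtain ⟨hr, -⟩ := rr_bd hδ h8 x
  have hπ := Real.pi_pos
  obtain ⟨-, -, hc, hC⟩ := hx
  unfold mn at hz
  have p0 := sq_nonneg (2 * Real.pi * rr δ x * v 0)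
  have p1 := sq_nonneg (2 * Real.pi * δ * Real.cos (2 * Real.pi * x 1) * v 1)
  have z0 : 2 * Real.pi * rr δ x * v 0 = 0 := pow_eq_zero_iff (two_ne_zero) |>.1 (by linarith)
  have z1 : 2 * Real.pi * δ * Real.cos (2 * Real.pi * x 1) * v 1 = 0 :=
    pow_eq_zero_iff (two_ne_zero) |>.1 (by linarith)
  have v0 : v 0 = 0 := by
    have : 2 * Real.pi * rr δ x ≠ 0 := by positivity
    exact (mul_eq_zero.1 z0).resolve_left this
  have v1 : v 1 = 0 := by
    have : 2 * Real.pi * δ * Real.cos (2 * Real.pi * x 1) ≠ 0 := by positivity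
    exact (mul_eq_zero.1 z1).resolve_left this
  rw [G2_dFe, v0, v1] at h2
  have v2 : v 2 = 0 := by
    have h3 : 2 * Real.pi * Ce x * v 2 = 0 := by linarith
    have : 2 * Real.pi * Ce x ≠ 0 := by positivity
    exact (mul_eq_zero.1 h3).resolve_left this
  ext i
  change v i = 0
  fin_cases i
  · exact v0
  · exact v1
  · exact v2

theorem G3_inverse {δ : ℝ} (hδ : 0 < δ) (h8 : δ ≤ 1 / 8) {x : Vec 3} (hF : Fe x = 0) (hx : x ∈ SO) :
    ∃ gj : Vec 2 → Vec 3, ContDiffAt ℝ ∞ gj (em δ x) ∧ (∀ᶠ y in 𝓝 x, Fe y = 0 → gj (em δ y) = y) ∧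
      ∀ᶠ z in 𝓝 (em δ x), em δ (gj z) = z ∧ Fe (gj z) = 0 := by
  have hc : ContDiffAt ℝ ∞ (G3_f δ) x := (G3_f_smooth δ).contDiffAt
  have hd : HasFDerivAt (G3_f δ) (fderiv ℝ (G3_f δ) x) x :=
    (hc.differentiableAt (by simp)).hasFDerivAt
  have hinj : Function.Injective
      ((fderiv ℝ (G3_f δ) x : Vec 3 →L[ℝ] Vec 2 × ℝ) : Vec 3 →ₗ[ℝ] Vec 2 × ℝ) :=
    (injective_iff_map_eq_zero _).2 fun v hv => G3_f_inj hδ h8 hx hv
  have hdim : Module.finrank ℝ (Vec 3) = Module.finrank ℝ (Vec 2 × ℝ) := by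
    rw [Module.finrank_prod, Module.finrank_self]
    simp [Vec]
  let e : Vec 3 ≃L[ℝ] Vec 2 × ℝ :=
    (LinearMap.linearEquivOfInjective _ hinj hdim).toContinuousLinearEquiv
  have he : (e : Vec 3 →L[ℝ] Vec 2 × ℝ) = fderiv ℝ (G3_f δ) x := by
    ext v <;> rfl
  rw [← he] at hd
  have hn : (∞ : WithTop ℕ∞) ≠ 0 := by simp
  have hfx : G3_f δ x = (em δ x, 0) := by
    unfold G3_f
    rw [hF]
  have hi : Continuous (fun z : Vec 2 => (z, (0 : ℝ))) := by fun_prop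
  have ht : Tendsto (fun z : Vec 2 => (z, (0 : ℝ))) (𝓝 (em δ x)) (𝓝 (G3_f δ x)) := by
    rw [hfx]
    exact hi.tendsto _
  refine ⟨fun z => hc.localInverse hd hn (z, 0), ?_, ?_, ?_⟩
  · have h1 : ContDiffAt ℝ ∞ (hc.localInverse hd hn) (em δ x, 0) := by
      rw [← hfx]
      exact hc.to_localInverse hd hn
    exact ContDiffAt.comp (em δ x) h1 (contDiffAt_id.prodMk contDiffAt_const)
  · filter_upwards [(hc.hasStrictFDerivAt' hd hn).eventually_left_inverse] with y hy hFy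
    have h1 : G3_f δ y = (em δ y, 0) := by
      unfold G3_f
      rw [hFy]
    rw [h1] at hy
    exact hy
  · filter_upwards [ht.eventually (hc.hasStrictFDerivAt' hd hn).eventually_right_inverse] with z hz
    exact ⟨congrArg Prod.fst hz, congrArg Prod.snd hz⟩

theorem exists_chart {M : Sub d} {W : Set (Vec d)} {ρ : ℝ} {g : Vec 2 → Vec d}
    {g' : Vec d → Vec 2} (hg : MChart M 2 W ρ g g') (A : Vec 2 ≃L[ℝ] Vec 2) {M' : Sub 3}
    (hM : M'.N = {x | Fe x = 0}) {δ s : ℝ} (hδ : 0 < δ) (h8 : δ ≤ 1 / 8) (hs : 0 < s)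
    (hsA : s * (‖(A : Vec 2 →L[ℝ] Vec 2)‖ * 2) ≤ ρ / 2) :
    IsChart M M' SO ⊥ (fun x => g (s • A (em δ x))) := by
  have hmem := phi_mem hg A hδ h8 hs hsA
  have hρ := hg.pos
  have hball : ∀ x : Vec 3, s • A (em δ x) ∈ Metric.ball (0 : Vec 2) ρ := by
    intro x
    rw [mem_ball_zero_iff]
    have := (hmem x).1
    linarith
  have hN : ∀ x : Vec 3, x ∈ M'.N ↔ Fe x = 0 := by
    intro x
    rw [hM]
    rfl
  refine ⟨?_, ?_, ?_, ?_, SO_open, fun k x hx => SO_per k hx, ?_, ?_, ?_, ?_, ?_⟩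
  · rw [Subgroup.coe_bot]
    exact finite_singleton _
  · intro P hP k
    rw [Subgroup.mem_bot] at hP
    subst hP
    exact ⟨k, rfl⟩
  · intro P hP x hx
    rw [Subgroup.mem_bot] at hP
    subst hP
    exact hx
  · intro P hP x hx
    rw [Subgroup.mem_bot] at hP
    subst hP
    exact hx
  · intro P hP k x _ h
    rw [Subgroup.mem_bot] at hP
    subst hP
    refine ⟨rfl, D4_vz_eq ?_⟩
    have h1 : x + vz k = x := h
    simpa using h1
  · intro x _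
    have h1 : ContDiffAt ℝ ∞ g (s • A (em δ x)) :=
      hg.smooth.contDiffAt (Metric.isOpen_ball.mem_nhds (hball x))
    have h2 : ContDiff ℝ ∞ (fun x : Vec 3 => s • A (em δ x)) :=
      (A.contDiff.comp (em_smooth δ)).const_smul s
    exact (ContDiffAt.comp x h1 h2.contDiffAt).contDiffWithinAt
  · intro x _
    exact (hmem x).2.1.1
  · intro x hx y hy
    constructor
    · rintro ⟨l, hl⟩
      have h4 : em δ x = em δ y := phi_inj hg A hδ h8 hs hsA x y l hl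
      obtain ⟨k, hk⟩ := em_inj hM hδ h8 hx hy h4
      exact ⟨1, Subgroup.one_mem _, k, hk⟩
    · rintro ⟨P, hP, k, hk⟩
      rw [Subgroup.mem_bot] at hP
      subst hP
      have hk' : y = x + vz k := hk
      refine ⟨0, ?_⟩
      show g (s • A (em δ y)) = g (s • A (em δ x)) + vz 0
      rw [hk', em_per, D4_vz0, add_zero]
  · intro x hx
    obtain ⟨gi, h1, h3, h4⟩ := G3_inverse hδ h8 ((hN x).1 hx.1) hx.2
    have h2 : gi (em δ x) = x := h3.self_of_nhds ((hN x).1 hx.1)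
    have hWx : W ∈ 𝓝 (g (s • A (em δ x))) := hg.isOpen.mem_nhds (hmem x).2.1.2
    have hx' : s⁻¹ • A.symm (g' (g (s • A (em δ x)))) = em δ x := by rw [(hmem x).2.2, G3_inv hs]
    have hs1 : ContDiffAt ℝ ∞ (fun w => s⁻¹ • A.symm (g' w)) (g (s • A (em δ x))) :=
      (A.symm.contDiff.contDiffAt.comp _ (hg.smooth'.contDiffAt hWx)).const_smul _
    have hψ : ContDiffAt ℝ ∞ (fun w => gi (s⁻¹ • A.symm (g' w))) (g (s • A (em δ x))) := by
      have h1' : ContDiffAt ℝ ∞ gi (s⁻¹ • A.symm (g' (g (s • A (em δ x))))) := by rw [hx']; exact h1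
      exact ContDiffAt.comp (g (s • A (em δ x))) h1' hs1
    refine ⟨fun w => gi (s⁻¹ • A.symm (g' w)), hψ, ?_, ?_⟩
    · filter_upwards [h3] with y hy3 hyN
      show gi (s⁻¹ • A.symm (g' (g (s • A (em δ y))))) = y
      rw [(hmem y).2.2, G3_inv hs, hy3 ((hN y).1 hyN)]
    · have hc : Tendsto (fun w => gi (s⁻¹ • A.symm (g' w))) (𝓝 (g (s • A (em δ x)))) (𝓝 x) := by
        have := hψ.continuousAt.tendsto
        simpa only [hx', h2] using this
      have hc2 : Tendsto (fun w => s⁻¹ • A.symm (g' w)) (𝓝 (g (s • A (em δ x)))) (𝓝 (em δ x)) := by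
        have := hs1.continuousAt.tendsto
        simpa only [hx'] using this
      filter_upwards [hWx, hc.eventually (SO_open.mem_nhds hx.2), hc2.eventually h4]
        with w hw hw1 hw2 hwN
      refine ⟨⟨(hN _).2 hw2.2, hw1⟩, ?_⟩
      show g (s • A (em δ (gi (s⁻¹ • A.symm (g' w))))) = w
      rw [hw2.1, G3_inv' hs, (hg.right w ⟨hwN, hw⟩).2]

end EscW.Gn
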