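import Pool.Agent.EscW.O19
import Pool.Agent.EscW.G3

set_option autoImplicit false

/-!
Project EscW, part O, module O20: part G: annular coordinates.
`T = TcG δ`: `pol 1 (T x) = em δ x` (`pol_Tc`). `per`: `em_per`, `rr` has the periods. `maps`: `tz (em x) = qz x > 1/5`, `tu (em x) = uu x`, `|rr - 1| ≤ δ ≤ 1/4`. `inj`: `DT v = 0` implies `D em v = 0`, so `mn = 0`, `mn_pos` of part G. `uniq`: `em_inj`. `Λ = LamG δ`, `‖w‖ < δ/16`, `t = w 0/δ`, `|t| ≤ 1/16`: `uu (Λ z) = t`, `1 - 4 t > 0`;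
`2π x 2 = π - arctan (sin (2πθ)/(1 - 4t))`, so `(cos, sin) (2πx 2) = (-(1 - 4t), sin (2πθ)) / √qz`: `Fe = 0`, `Ce = √qz > 0`, `qz ≥ 9/16 > 1/5`, `cos (2πx 1) > 0`. `right`: `rr = 1 + δ t = 1 + w 0`; `Vec 1` has one coordinate.
-/

noncomputable section

namespace EscW.On

open Filter Topology Set EscF.T EscM EscMT MeasureTheory EscW.Ex EscW.Dn
open scoped ContDiff

variable {d m k j n : ℕ}

theorem O20_norm1 (w : Vec 1) : ‖w‖ = |w 0| := by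
  rw [EuclideanSpace.norm_eq, Fin.sum_univ_one, Real.norm_eq_abs, sq_abs, Real.sqrt_sq_eq_abs]

theorem O20_h0 (δ : ℝ) (x : Vec 3) : Gn.em δ x 0 = Gn.rr δ x * Real.cos (2 * Real.pi * x 0) := Gn.G2_em0 δ x

theorem O20_h1 (δ : ℝ) (x : Vec 3) : Gn.em δ x 1 = Gn.rr δ x * Real.sin (2 * Real.pi * x 0) := Gn.G2_em1 δ x

theorem O20_pol (δ : ℝ) (x : Vec 3) : pol 1 (TcG δ x) = Gn.em δ x :=
  pol_Tc (j := 0) (i := (0 : Fin 3)) (R0 := 1) (ρ := Gn.rr δ) (e := Gn.em δ) (O20_h0 δ x) (O20_h1 δ x)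

theorem O20_T_smooth (δ : ℝ) : ContDiff ℝ ∞ (TcG δ) :=
  Tc_smooth (j := 0) (Gn.G2_srr δ) (Gn.em_smooth δ)

theorem O20_T0 (δ : ℝ) (x : Vec 3) : (TcG δ x).2 0 = Gn.rr δ x - 1 := rfl

theorem O20_lam0 (δ : ℝ) (z : ℝ × Vec 1) : LamG δ z 0 = z.1 := rfl

theorem O20_lam1 (δ : ℝ) (z : ℝ × Vec 1) : LamG δ z 1 = Real.arcsin (z.2 0 / δ) / (2 * Real.pi) := rfl

theorem O20_lam2 (δ : ℝ) (z : ℝ × Vec 1) : LamG δ z 2 =
    1 / 2 - Real.arctan (Real.sin (2 * Real.pi * z.1) / (1 - 4 * (z.2 0 / δ))) / (2 * Real.pi) := rfl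

theorem O20_t {δ : ℝ} (hδ : 0 < δ) {z : ℝ × Vec 1} (hz : ‖z.2‖ < δ / 16) :
    -(1 / 16) < z.2 0 / δ ∧ z.2 0 / δ < 1 / 16 := by
  rw [O20_norm1] at hz
  have h := abs_lt.1 hz
  constructor
  · rw [lt_div_iff₀ hδ]
    linarith [h.1]
  · rw [div_lt_iff₀ hδ]
    linarith [h.2]

theorem O20_uu {δ : ℝ} (hδ : 0 < δ) {z : ℝ × Vec 1} (hz : ‖z.2‖ < δ / 16) :
    Gn.uu (LamG δ z) = z.2 0 / δ := by
  obtain ⟨h1, h2⟩ := O20_t hδ hz
  have hπ := Real.pi_pos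
  unfold Gn.uu
  rw [O20_lam1]
  have : 2 * Real.pi * (Real.arcsin (z.2 0 / δ) / (2 * Real.pi)) = Real.arcsin (z.2 0 / δ) := by
    field_simp
  rw [this]
  exact Real.sin_arcsin (by linarith) (by linarith)

theorem LamG_vals {δ : ℝ} (hδ : 0 < δ) (h8 : δ ≤ 1 / 8) {z : ℝ × Vec 1} (hz : ‖z.2‖ < δ / 16) :
    LamG δ z ∈ Gn.SK ∧ 9 / 16 ≤ Gn.qz (LamG δ z) ∧ Gn.uu (LamG δ z) ^ 2 ≤ 1 / 256 := by
  have hu := O20_uu hδ hz
  obtain ⟨t1, t2⟩ := O20_t hδ hz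
  set t := z.2 0 / δ with ht
  have hπ := Real.pi_pos
  set S := Real.sin (2 * Real.pi * z.1) with hS
  have hq : Gn.qz (LamG δ z) = (4 * t - 1) ^ 2 + S ^ 2 := by
    unfold Gn.qz
    rw [hu, O20_lam0]
  have hq1 : 9 / 16 ≤ Gn.qz (LamG δ z) := by
    rw [hq]
    nlinarith [sq_nonneg S]
  have hu2 : Gn.uu (LamG δ z) ^ 2 ≤ 1 / 256 := by
    rw [hu]
    nlinarith
  have hp : 0 < 1 - 4 * t := by linarith
  set a := S / (1 - 4 * t) with ha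
  have hx2 : 2 * Real.pi * LamG δ z 2 = Real.pi - Real.arctan a := by
    rw [O20_lam2, ← ht, ← hS, ← ha]
    field_simp
  have hx0 : Real.sin (2 * Real.pi * LamG δ z 0) = S := by
    rw [O20_lam0]
  have hc : Real.cos (2 * Real.pi * LamG δ z 2) = -(1 / √(1 + a ^ 2)) := by
    rw [hx2, Real.cos_pi_sub, Real.cos_arctan]
  have hs : Real.sin (2 * Real.pi * LamG δ z 2) = a / √(1 + a ^ 2) := by
    rw [hx2, Real.sin_pi_sub, Real.sin_arctan]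
  have hr : 0 < √(1 + a ^ 2) := Real.sqrt_pos.2 (by positivity)
  have hSa : S = a * (1 - 4 * t) := by
    rw [ha]
    field_simp
  refine ⟨⟨?_, by linarith, by linarith, ?_, ?_⟩, hq1, hu2⟩
  · unfold Gn.Fe
    rw [hx0, hc, hs, hu, hSa]
    ring
  · rw [O20_lam1]
    have : 2 * Real.pi * (Real.arcsin t / (2 * Real.pi)) = Real.arcsin t := by
      field_simp
    rw [this]
    exact Real.cos_arcsin_nonneg t
  · unfold Gn.Ce
    rw [hx0, hc, hs, hu]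
    have h3 : (4 * t - 1) * -(1 / √(1 + a ^ 2)) + S * (a / √(1 + a ^ 2)) =
        ((1 - 4 * t) + S * a) / √(1 + a ^ 2) := by
      ring
    rw [h3]
    refine div_nonneg ?_ hr.le
    have : S * a = a ^ 2 * (1 - 4 * t) := by
      rw [hSa]
      ring
    rw [this]
    positivity

theorem PhmG {δ : ℝ} (hδ : 0 < δ) (h8 : δ ≤ 1 / 8) (ε s : ℝ) {x : Vec 3} (hx : x ∈ Gn.SO) (v : Vec 3) :
    Phm 1 s (Gn.tW δ ε) (TcG δ x) (fderiv ℝ (TcG δ) x v) = Gn.FM δ ε s x v := by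
  have h := Phm_Tc (j := 0) (i := (0 : Fin 3)) (R0 := 1) (s := s) (Gn.G2_srr δ) (Gn.em_smooth δ) (O20_h0 δ)
    (O20_h1 δ) (Gn.tW δ ε) x v
  obtain ⟨h1, h2, -, -⟩ := hx
  have h3 := Gn.tW_em hδ h8 ε h1.le h2.le
  have h4 : ‖fderiv ℝ (Gn.em δ) x v‖ = √(Gn.mn δ x v) := by
    rw [← Gn.em_fd, Real.sqrt_sq (norm_nonneg _)]
  unfold Gn.FM
  rw [← h3, ← h4]
  exact h

theorem O20_lam_smooth {δ : ℝ} (hδ : 0 < δ) : ContDiffOn ℝ 1 (LamG δ) {z | ‖z.2‖ < δ / 16} := by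
  intro z hz
  refine ContDiffAt.contDiffWithinAt ?_
  obtain ⟨t1, t2⟩ := O20_t hδ hz
  rw [contDiffAt_euclidean]
  have e2 : ContDiffAt ℝ 1 (fun z : ℝ × Vec 1 => z.2 0 / δ) z :=
    ((contDiff_euclidean.1 contDiff_snd (0 : Fin 1)).div_const δ).contDiffAt
  intro i
  fin_cases i
  · exact contDiff_fst.contDiffAt
  · have h1 : ContDiffAt ℝ 1 (fun z : ℝ × Vec 1 => Real.arcsin (z.2 0 / δ)) z :=
      (Real.contDiffAt_arcsin (by linarith) (by linarith)).comp z e2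
    exact h1.div_const _
  · have h1 : ContDiffAt ℝ 1 (fun z : ℝ × Vec 1 => Real.sin (2 * Real.pi * z.1)) z :=
      (Real.contDiff_sin.comp (contDiff_const.mul contDiff_fst)).contDiffAt
    have h2 : ContDiffAt ℝ 1 (fun z : ℝ × Vec 1 => 1 - 4 * (z.2 0 / δ)) z :=
      contDiffAt_const.sub (contDiffAt_const.mul e2)
    have h3 : ContDiffAt ℝ 1 (fun z : ℝ × Vec 1 => Real.sin (2 * Real.pi * z.1) / (1 - 4 * (z.2 0 / δ))) z :=
      h1.div h2 (by linarith)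
    have h4 : ContDiffAt ℝ 1 (fun z : ℝ × Vec 1 =>
        Real.arctan (Real.sin (2 * Real.pi * z.1) / (1 - 4 * (z.2 0 / δ)))) z :=
      Real.contDiff_arctan.contDiffAt.comp z h3
    exact contDiffAt_const.sub (h4.div_const _)

theorem coverG {M' : Sub 3} (hM : M'.N = {x | Gn.Fe x = 0}) {δ : ℝ} (hδ : 0 < δ) (h8 : δ ≤ 1 / 8) :
    AnnCover M' Gn.SO 0 (AG δ) (δ / 16) (TcG δ) (LamG δ) := by
  have hπ := Real.pi_pos
  refine ⟨Gn.SO_open, (O20_T_smooth δ).of_le (by simp), fun x => rfl, ?_, ?_, ?_, ?_, O20_lam_smooth hδ, ?_, ?_, ?_⟩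
  · intro n x
    ext i
    fin_cases i
    change (TcG δ (x + vz n)).2 0 = (TcG δ x).2 0
    rw [O20_T0, O20_T0]
    unfold Gn.rr
    rw [Gn.G2_uu]
  · intro x hx
    obtain ⟨-, h1, h2, -, -⟩ := hx
    refine ⟨?_, ?_, ?_⟩
    · rw [O20_pol, Gn.tz_em hδ h8]
      exact h1.le
    · rw [O20_pol, Gn.tu_em hδ h8]
      exact h2.le
    · obtain ⟨h3, h4⟩ := Gn.rr_bd hδ h8 x
      rw [O20_norm1, O20_T0, abs_le]
      constructor <;> linarith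
  · intro x hx v hv hv0 h0
    have h1 : fderiv ℝ (Gn.em δ) x v = 0 := by
      have h2 : Gn.em δ = fun x => pol 1 (TcG δ x) := by
        funext y
        exact (O20_pol δ y).symm
      have h3 : HasFDerivAt (TcG δ) (fderiv ℝ (TcG δ) x) x :=
        ((O20_T_smooth δ).differentiable (by simp) x).hasFDerivAt
      have h4 : HasFDerivAt (pol 1 : ℝ × Vec 1 → Vec 2) (fderiv ℝ (pol 1) (TcG δ x)) (TcG δ x) :=
        (((pol_smooth (j := 0) 1).differentiable (by simp)) (TcG δ x)).hasFDerivAt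
      have h5 := h4.comp x h3
      have h6 : HasFDerivAt (Gn.em δ) ((fderiv ℝ (pol 1) (TcG δ x)).comp (fderiv ℝ (TcG δ) x)) x := by
        rw [h2]
        exact h5
      rw [h6.fderiv, ContinuousLinearMap.comp_apply, h0, map_zero]
    have h2 := Gn.mn_pos hM hδ h8 hx hv hv0
    rw [← Gn.em_fd, h1, norm_zero] at h2
    norm_num at h2
  · intro x hx y hy h
    refine Gn.em_inj hM hδ h8 hy hx ?_
    rw [← O20_pol, ← O20_pol, h]
  · intro z hz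
    exact Gn.SK_sub hM (LamG_vals hδ h8 hz).1
  · intro z hz
    refine Prod.ext rfl ?_
    ext i
    fin_cases i
    change (TcG δ (LamG δ z)).2 0 = z.2 0
    rw [O20_T0]
    unfold Gn.rr
    rw [O20_uu hδ hz]
    field_simp
    ring
  · intro θ w hw
    ext i
    fin_cases i
    · change θ + 1 = θ + (((Pi.single (0 : Fin 3) (1 : ℤ) : Fin 3 → ℤ) 0 : ℤ) : ℝ)
      simp
    · change Real.arcsin (w 0 / δ) / (2 * Real.pi) = Real.arcsin (w 0 / δ) / (2 * Real.pi) +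
        (((Pi.single (0 : Fin 3) (1 : ℤ) : Fin 3 → ℤ) 1 : ℤ) : ℝ)
      simp
    · change 1 / 2 - Real.arctan (Real.sin (2 * Real.pi * (θ + 1)) / (1 - 4 * (w 0 / δ))) / (2 * Real.pi) =
        1 / 2 - Real.arctan (Real.sin (2 * Real.pi * θ) / (1 - 4 * (w 0 / δ))) / (2 * Real.pi) +
        (((Pi.single (0 : Fin 3) (1 : ℤ) : Fin 3 → ℤ) 2 : ℤ) : ℝ)
      have h1 : 2 * Real.pi * (θ + 1) = 2 * Real.pi * θ + 2 * Real.pi := by ring
      rw [h1, Real.sin_add_two_pi]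
      simp

end EscW.On
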