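import Pool.Agent.EscW.FNDefs
import Pool.Agent.EscW.O20
import Pool.Agent.EscW.G7

set_option autoImplicit false

/-!
Project EscW, part FN, module FN15: geometry of part G.
`T = TcG δ`, `pol 1 (T x) = em δ x` (`pol_Tc`). `shapeG`: `tΘ = st (20 tz - 3) (1 - st (20 tu² - 16))`, smooth (near the axis `tu²` is large, `tΘ = 0`; see `tW_smooth`, module G4), also times `S`. `supp`: `tu² < 17/20`, `|z.2 0| = |tr - 1| < δ`. `off`: `tr ≤ 1/2`, `|tu| ≥ 4`. `geoG`: from `coverG` (O20; `inj`, `uniq`, `maps`), `cvG θ = LamG δ (θ, 0)`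
(`LamG_vals`: `qz ≥ 9/16`, in `SK`). `small`: `|rr - 1| ≤ δ`. `one`: `tz = qz > 1/5`, `tu = uu`, `uu² < 4/5` (`tz_em`, `tu_em`). `bar = Gn.bar 1 = st (2 - 4 qz) + st (4 uu² - 2)`: where its derivative is nonzero, `qz < 1/2` or `uu² > 1/2`, so `st (2 - 2 qz) = 1` or `st (4 uu² - 1) = 1` and `S = 1`; `|D bar v| ≤ (C/δ) √(mn δ x v)` (`G7_bar_fd`,
`G7_dqz_le`, `G7_duu2_le` of G7; `qz ≤ 1/2` is needed only where the first step has nonzero derivative), `√mn ≤ 16 eu (DT v)`. `exit`: `G7_exit`. `bar_cv`: `qz (cvG θ) = 1 + sin² ≥ 1`, `uu = 0`. `cv_S`: `tz δ (pol 1 (θ, 0)) = 1 + sin² (2πθ)`, `tu = 0`. `γ = Gn.dd`, `θ0 = -1/2`: `G7_uu`, `G7_qz` (`qz = 1`), `G7_SK`, `G7_lip`, `G7_has`.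
-/

noncomputable section

namespace EscW.Fn

open Filter Topology Set EscF.T EscM EscMT MeasureTheory EscW.Ex EscW.Dn EscW.On
open scoped ContDiff

variable {d m k j n : ℕ}

/-! ### the shape -/

theorem FN15_norm1 (w : Vec 1) : ‖w‖ = |w 0| := by
  rw [EuclideanSpace.norm_eq, Fin.sum_univ_one, Real.norm_eq_abs, sq_abs, Real.sqrt_sq_eq_abs]

theorem FN15_tr {z : ℝ × Vec 1} (hz : 0 < 1 + z.2 0) : Gn.tr (pol 1 z) = 1 + z.2 0 := by
  have h0 : pol 1 z 0 = (1 + z.2 0) * Real.cos (2 * Real.pi * z.1) := rfl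
  have h1 : pol 1 z 1 = (1 + z.2 0) * Real.sin (2 * Real.pi * z.1) := rfl
  have h2 : pol 1 z 0 ^ 2 + pol 1 z 1 ^ 2 = (1 + z.2 0) ^ 2 := by
    rw [h0, h1]
    have := Real.sin_sq_add_cos_sq (2 * Real.pi * z.1)
    linear_combination ((1 + z.2 0) ^ 2) * this
  unfold Gn.tr
  rw [h2, Real.sqrt_sq hz.le]

theorem FN15_pos {δ : ℝ} (hδ : 0 < δ) (h8 : δ ≤ 1 / 8) {Y : Vec 2} (h : Gn.tu δ Y ^ 2 ≤ 17 / 20) :
    0 < Gn.tr Y := by
  rcases lt_or_eq_of_le (Gn.G4_tr_nonneg Y) with h0 | h0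
  · exact h0
  · exfalso
    have h1 : Gn.tu δ Y = -(1 / δ) := by
      unfold Gn.tu
      rw [← h0]
      ring
    have h2 : 8 ≤ 1 / δ := by
      rw [le_div_iff₀ hδ]
      linarith
    rw [h1] at h
    nlinarith

theorem FN15_at {δ : ℝ} {Y : Vec 2} (hpos : 0 < Gn.tr Y) : ContDiffAt ℝ ∞ (Gn.tΘ δ) Y ∧
    ContDiffAt ℝ ∞ (StG δ) Y := by
  have htr := Gn.G4_tr_at hpos
  have htr0 : Gn.tr Y ≠ 0 := hpos.ne'
  have htu : ContDiffAt ℝ ∞ (Gn.tu δ) Y := (htr.sub contDiffAt_const).div_const δ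
  have hst : ContDiff ℝ ∞ Real.smoothTransition := Real.smoothTransition.contDiff
  have hc1 : ContDiffAt ℝ ∞ (fun Y : Vec 2 => Y 1) Y := (Gn.G4_coord 1).contDiffAt
  have htz : ContDiffAt ℝ ∞ (Gn.tz δ) Y :=
    (((contDiffAt_const.mul htu).sub contDiffAt_const).pow 2).add ((hc1.div htr htr0).pow 2)
  have hs : ∀ g : Vec 2 → ℝ, ContDiffAt ℝ ∞ g Y →
      ContDiffAt ℝ ∞ (fun Z => Real.smoothTransition (g Z)) Y := fun g hg =>
    hst.contDiffAt.comp Y hg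
  constructor
  · refine (hs _ ?_).mul (contDiffAt_const.sub (hs _ ?_))
    · exact (contDiffAt_const.mul htz).sub contDiffAt_const
    · exact (contDiffAt_const.mul (htu.pow 2)).sub contDiffAt_const
  · refine contDiffAt_const.sub ((contDiffAt_const.sub (hs _ ?_)).mul (contDiffAt_const.sub (hs _ ?_)))
    · exact contDiffAt_const.sub (contDiffAt_const.mul htz)
    · exact (contDiffAt_const.mul (htu.pow 2)).sub contDiffAt_const

theorem FN15_smooth {δ : ℝ} (hδ : 0 < δ) (h8 : δ ≤ 1 / 8) {f : Vec 2 → ℝ}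
    (hf : ∀ Y, Gn.tΘ δ Y = 0 → f Y = 0) (hf' : ∀ Y, 0 < Gn.tr Y → ContDiffAt ℝ ∞ f Y) : ContDiff ℝ ∞ f := by
  rw [contDiff_iff_contDiffAt]
  intro Y
  rcases lt_or_ge (17 / 20) (Gn.tu δ Y ^ 2) with h | h
  · have hopen : IsOpen {Z : Vec 2 | 17 / 20 < Gn.tu δ Z ^ 2} :=
      isOpen_lt continuous_const ((Gn.G4_tu_cont δ).pow 2)
    have hev : f =ᶠ[𝓝 Y] fun _ => (0 : ℝ) := by
      filter_upwards [hopen.mem_nhds h] with Z hZ
      exact hf Z (Gn.G4_Θ_zero (le_of_lt hZ))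
    exact contDiffAt_const.congr_of_eventuallyEq hev
  · exact hf' Y (FN15_pos hδ h8 h)

theorem shapeG {δ : ℝ} (hδ : 0 < δ) (h8 : δ ≤ 1 / 8) {C0 : ℝ} (hC0 : 10 ≤ C0) :
    IsShape (Gn.tΘ δ) (StG δ) C0 δ := by
  have hn := Real.smoothTransition.nonneg
  have hl := Real.smoothTransition.le_one
  refine ⟨?_, ?_, ?_, ?_, ?_, ?_⟩
  · exact FN15_smooth hδ h8 (fun Y h => h) fun Y h => (FN15_at h).1
  · refine FN15_smooth hδ h8 (fun Y h => ?_) fun Y h => (FN15_at h).1.mul (FN15_at h).2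
    show Gn.tΘ δ Y * StG δ Y = 0
    rw [h, zero_mul]
  · intro Y
    have a1 := hn (20 * Gn.tz δ Y - 3)
    have a2 := hl (20 * Gn.tz δ Y - 3)
    have b1 := hn (20 * Gn.tu δ Y ^ 2 - 16)
    have b2 := hl (20 * Gn.tu δ Y ^ 2 - 16)
    unfold Gn.tΘ
    constructor
    · exact mul_nonneg a1 (by linarith)
    · exact mul_le_one₀ a2 (by linarith) (by linarith)
  · intro Y
    have a1 := hn (2 - 2 * Gn.tz δ Y)
    have a2 := hl (2 - 2 * Gn.tz δ Y)
    have b1 := hn (4 * Gn.tu δ Y ^ 2 - 1)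
    have b2 := hl (4 * Gn.tu δ Y ^ 2 - 1)
    unfold StG
    have c1 : 0 ≤ (1 - Real.smoothTransition (2 - 2 * Gn.tz δ Y)) *
        (1 - Real.smoothTransition (4 * Gn.tu δ Y ^ 2 - 1)) := mul_nonneg (by linarith) (by linarith)
    have c2 : (1 - Real.smoothTransition (2 - 2 * Gn.tz δ Y)) *
        (1 - Real.smoothTransition (4 * Gn.tu δ Y ^ 2 - 1)) ≤ 1 :=
      mul_le_one₀ (by linarith) (by linarith) (by linarith)
    constructor <;> linarith
  · intro z hz hΘ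
    have h1 : Gn.tu δ (pol 1 z) ^ 2 < 17 / 20 := by
      by_contra h
      exact hΘ (Gn.G4_Θ_zero (not_lt.1 h))
    unfold Gn.tu at h1
    rw [FN15_tr hz] at h1
    have h2 : |(1 + z.2 0 - 1) / δ| ≤ 1 := by
      rw [← sq_le_one_iff_abs_le_one]
      linarith
    rw [abs_div, abs_of_pos hδ, div_le_one hδ] at h2
    have h3 : 1 + z.2 0 - 1 = z.2 0 := by ring
    rw [h3] at h2
    rw [FN15_norm1]
    nlinarith
  · intro Y hY
    apply Gn.G4_Θ_zero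
    have h1 : Gn.tr Y ≤ 1 / 2 := by
      unfold Gn.tr
      rw [Real.sqrt_le_left (by norm_num)]
      norm_num
      linarith
    have h2 : Gn.tu δ Y ≤ -4 := by
      unfold Gn.tu
      rw [div_le_iff₀ hδ]
      linarith
    nlinarith

/-! ### the annular coordinates -/

theorem pol_TcG (δ : ℝ) (x : Vec 3) : pol 1 (TcG δ x) = Gn.em δ x :=
  pol_Tc (j := 0) (i := (0 : Fin 3)) (R0 := 1) (ρ := Gn.rr δ) (e := Gn.em δ) (Gn.G2_em0 δ x) (Gn.G2_em1 δ x)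

theorem FN15_T_smooth (δ : ℝ) : ContDiff ℝ ∞ (TcG δ) :=
  Tc_smooth (j := 0) (Gn.G2_srr δ) (Gn.em_smooth δ)

theorem FN15_T0 (δ : ℝ) (x : Vec 3) : (TcG δ x).2 0 = Gn.rr δ x - 1 := rfl

theorem FN15_d1 (δ : ℝ) (x v : Vec 3) : (fderiv ℝ (TcG δ) x v).1 = v 0 := by
  have h := Gn.G2_line (FN15_T_smooth δ) x v
  have h1 : HasDerivAt (fun t : ℝ => (TcG δ (x + t • v)).1) (fderiv ℝ (TcG δ) x v).1 0 :=
    (ContinuousLinearMap.fst ℝ ℝ (Vec 1)).hasFDerivAt.comp_hasDerivAt (0 : ℝ) h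
  have h2 : HasDerivAt (fun t : ℝ => (TcG δ (x + t • v)).1) (v 0) 0 := by
    have e : (fun t : ℝ => (TcG δ (x + t • v)).1) = fun t : ℝ => x 0 + t * v 0 := rfl
    rw [e]
    exact (((hasDerivAt_id (0 : ℝ)).mul_const (v 0)).const_add (x 0)).congr_deriv (one_mul _)
  exact h1.unique h2

theorem FN15_d2 (δ : ℝ) (x v : Vec 3) : (fderiv ℝ (TcG δ) x v).2 0 =
    2 * Real.pi * δ * Real.cos (2 * Real.pi * x 1) * v 1 := by
  have h := Gn.G2_line (FN15_T_smooth δ) x v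
  have h1 : HasDerivAt (fun t : ℝ => (TcG δ (x + t • v)).2 0) ((fderiv ℝ (TcG δ) x v).2 0) 0 :=
    ((EuclideanSpace.proj 0 : Vec 1 →L[ℝ] ℝ).comp
      (ContinuousLinearMap.snd ℝ ℝ (Vec 1))).hasFDerivAt.comp_hasDerivAt (0 : ℝ) h
  have h2 : HasDerivAt (fun t : ℝ => (TcG δ (x + t • v)).2 0)
      (2 * Real.pi * δ * Real.cos (2 * Real.pi * x 1) * v 1) 0 :=
    (Gn.G2_drr δ x v).sub_const 1
  exact h1.unique h2

theorem FN15_eu_nonneg (ζ : ℝ × Vec k) : 0 ≤ eu ζ := Real.sqrt_nonneg _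

theorem FN15_eu {δ : ℝ} (hδ : 0 < δ) (h8 : δ ≤ 1 / 8) (x v : Vec 3) :
    √(Gn.mn δ x v) ≤ 8 * eu (fderiv ℝ (TcG δ) x v) := by
  obtain ⟨hr1, hr2⟩ := Gn.rr_bd hδ h8 x
  have hpi := Real.pi_pos
  have hpi2 : Real.pi < 3.15 := Real.pi_lt_d2
  rw [Real.sqrt_le_left (mul_nonneg (by norm_num) (FN15_eu_nonneg _))]
  have h1 : eu (fderiv ℝ (TcG δ) x v) ^ 2 = v 0 ^ 2 +
      (2 * Real.pi * δ * Real.cos (2 * Real.pi * x 1) * v 1) ^ 2 := by
    unfold eu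
    rw [Real.sq_sqrt (by positivity), FN15_norm1, sq_abs, FN15_d1, FN15_d2]
  rw [mul_pow, h1]
  unfold Gn.mn
  have h2 : (2 * Real.pi * Gn.rr δ x) ^ 2 ≤ 64 := by
    have h3 : 0 ≤ 2 * Real.pi * Gn.rr δ x := by positivity
    have h4 : 2 * Real.pi * Gn.rr δ x ≤ 8 := by nlinarith
    nlinarith
  have h5 : (2 * Real.pi * Gn.rr δ x * v 0) ^ 2 = (2 * Real.pi * Gn.rr δ x) ^ 2 * v 0 ^ 2 := by ring
  rw [h5]
  have h6 := mul_le_mul_of_nonneg_right h2 (sq_nonneg (v 0))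
  nlinarith [sq_nonneg (2 * Real.pi * δ * Real.cos (2 * Real.pi * x 1) * v 1)]

theorem FN15_St {δ : ℝ} (hδ : 0 < δ) (h8 : δ ≤ 1 / 8) (x : Vec 3) : StG δ (Gn.em δ x) =
    1 - (1 - Real.smoothTransition (2 - 2 * Gn.qz x)) * (1 - Real.smoothTransition (4 * Gn.uu x ^ 2 - 1)) := by
  unfold StG
  rw [Gn.tz_em hδ h8, Gn.tu_em hδ h8]

/-! ### the barrier -/

theorem FN15_bar_le {δ C : ℝ} (hδ : 0 < δ) (h8 : δ ≤ 1 / 8) (hC : 0 < C)
    (hC0 : ∀ t, |deriv Real.smoothTransition t| ≤ C)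
    (hz : ∀ t, t < 0 ∨ 1 < t → deriv Real.smoothTransition t = 0) (x v : Vec 3) :
    fderiv ℝ (Gn.bar 1) x v ≤ 288 * C / δ * (StG δ (pol 1 (TcG δ x)) * eu (fderiv ℝ (TcG δ) x v)) := by
  have hS := Real.sqrt_nonneg (Gn.mn δ x v)
  have he := FN15_eu_nonneg (fderiv ℝ (TcG δ) x v)
  have hme := FN15_eu hδ h8 x v
  have hn := Real.smoothTransition.nonneg
  have hl := Real.smoothTransition.le_one
  have hSt := (shapeG hδ h8 le_rfl).mem01' (Gn.em δ x)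
  rw [pol_TcG, Gn.G7_bar_fd, one_mul]
  have key : ∀ X : ℝ, X ≤ 36 * C / δ * √(Gn.mn δ x v) → StG δ (Gn.em δ x) = 1 →
      X ≤ 288 * C / δ * (StG δ (Gn.em δ x) * eu (fderiv ℝ (TcG δ) x v)) := by
    intro X hX hst
    rw [hst, one_mul]
    refine hX.trans ?_
    have h1 : 36 * C / δ * √(Gn.mn δ x v) ≤ 36 * C / δ * (8 * eu (fderiv ℝ (TcG δ) x v)) :=
      mul_le_mul_of_nonneg_left hme (by positivity)
    refine h1.trans (le_of_eq ?_)
    ring
  by_cases h1 : 2 - 4 * Gn.qz x < 0 ∨ 1 < 2 - 4 * Gn.qz x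
  · rw [hz _ h1, zero_mul, zero_add]
    by_cases h2 : 4 * Gn.uu x ^ 2 - 2 < 0 ∨ 1 < 4 * Gn.uu x ^ 2 - 2
    · rw [hz _ h2, zero_mul]
      exact mul_nonneg (by positivity) (mul_nonneg hSt.1 he)
    · push Not at h2
      apply key
      · refine (le_abs_self _).trans ?_
        rw [abs_mul, abs_mul, abs_of_pos (by norm_num : (0 : ℝ) < 4)]
        have h3 : |deriv Real.smoothTransition (4 * Gn.uu x ^ 2 - 2)| * (4 * |2 * Gn.uu x * fderiv ℝ Gn.uu x v|) ≤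
            C * (4 * (2 / δ * √(Gn.mn δ x v))) :=
          mul_le_mul (hC0 _) (mul_le_mul_of_nonneg_left (Gn.G7_duu2_le hδ x v) (by norm_num))
            (by positivity) hC.le
        refine h3.trans ?_
        have e1 : C * (4 * (2 / δ * √(Gn.mn δ x v))) = 8 * (C / δ * √(Gn.mn δ x v)) := by ring
        have e2 : 36 * C / δ * √(Gn.mn δ x v) = 36 * (C / δ * √(Gn.mn δ x v)) := by ring
        rw [e1, e2]
        have : 0 ≤ C / δ * √(Gn.mn δ x v) := by positivity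
        linarith
      · rw [FN15_St hδ h8, Real.smoothTransition.one_of_one_le (x := 4 * Gn.uu x ^ 2 - 1) (by linarith [h2.1])]
        ring
  · push Not at h1
    have hq : Gn.qz x ≤ 1 / 2 := by linarith [h1.1]
    have h2 : 4 * Gn.uu x ^ 2 - 2 < 0 := by
      have h3 : (4 * Gn.uu x - 1) ^ 2 ≤ 1 / 2 := by
        unfold Gn.qz at hq
        nlinarith [sq_nonneg (Real.sin (2 * Real.pi * x 0))]
      nlinarith [sq_nonneg (4 * Gn.uu x - 2)]
    rw [hz _ (Or.inl h2), zero_mul, add_zero]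
    apply key
    · refine (le_abs_self _).trans ?_
      rw [abs_mul, abs_mul, abs_neg, abs_of_pos (by norm_num : (0 : ℝ) < 4)]
      have h3 : |deriv Real.smoothTransition (2 - 4 * Gn.qz x)| * (4 * |fderiv ℝ Gn.qz x v|) ≤
          C * (4 * (9 / δ * √(Gn.mn δ x v))) :=
        mul_le_mul (hC0 _) (mul_le_mul_of_nonneg_left (Gn.G7_dqz_le hδ h8 hq v) (by norm_num))
          (by positivity) hC.le
      refine h3.trans (le_of_eq ?_)
      ring
    · rw [FN15_St hδ h8, Real.smoothTransition.one_of_one_le (x := 2 - 2 * Gn.qz x) (by linarith)]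
      ring

/-! ### the curves -/

theorem FN15_cv (δ θ : ℝ) : cvG θ = LamG δ (θ, 0) := by
  ext i
  fin_cases i
  · rfl
  · change (0 : ℝ) = Real.arcsin ((0 : Vec 1) 0 / δ) / (2 * Real.pi)
    have : (0 : Vec 1) 0 = 0 := rfl
    rw [this, zero_div, Real.arcsin_zero, zero_div]
  · change 1 / 2 - Real.arctan (Real.sin (2 * Real.pi * θ)) / (2 * Real.pi) =
      1 / 2 - Real.arctan (Real.sin (2 * Real.pi * θ) / (1 - 4 * ((0 : Vec 1) 0 / δ))) / (2 * Real.pi)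
    have : (0 : Vec 1) 0 = 0 := rfl
    rw [this, zero_div, mul_zero, sub_zero, div_one]

theorem FN15_cv_uu (θ : ℝ) : Gn.uu (cvG θ) = 0 := by
  have h : cvG θ 1 = 0 := rfl
  unfold Gn.uu
  rw [h, mul_zero, Real.sin_zero]

theorem FN15_cv_qz (θ : ℝ) : 1 ≤ Gn.qz (cvG θ) := by
  unfold Gn.qz
  rw [FN15_cv_uu]
  nlinarith [sq_nonneg (Real.sin (2 * Real.pi * cvG θ 0))]

theorem FN15_cv_smooth : ContDiff ℝ 1 cvG := by
  rw [contDiff_euclidean]
  intro i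
  fin_cases i
  · exact contDiff_id
  · exact contDiff_const
  · have h1 : ContDiff ℝ 1 (fun θ : ℝ => Real.sin (2 * Real.pi * θ)) :=
      Real.contDiff_sin.comp (contDiff_const.mul contDiff_id)
    have h2 : ContDiff ℝ 1 (fun θ : ℝ => Real.arctan (Real.sin (2 * Real.pi * θ))) :=
      Real.contDiff_arctan.comp h1
    exact contDiff_const.sub (h2.div_const _)

theorem FN15_dd0 : Gn.dd 0 = cvG (-(1 / 2)) := by
  ext i
  fin_cases i
  · change Gn.dd 0 0 = -(1 / 2)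
    rw [Gn.G7_dd0]
    ring
  · change Gn.dd 0 1 = 0
    rw [Gn.G7_dd1]
    have : Gn.G7_y 0 = 0 := by
      unfold Gn.G7_y
      have e : 2 * Real.pi * (0 - 1 / 2) = -Real.pi := by ring
      rw [e, Real.cos_neg, Real.cos_pi]
      norm_num
    rw [this, Real.arcsin_zero, zero_div]
  · change Gn.dd 0 2 = 1 / 2 - Real.arctan (Real.sin (2 * Real.pi * (-(1 / 2)))) / (2 * Real.pi)
    rw [Gn.G7_dd2]
    have e : 2 * Real.pi * (-(1 / 2)) = -Real.pi := by ring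
    rw [e, Real.sin_neg, Real.sin_pi]
    simp

theorem FN15_dd1 : Gn.dd 1 = cvG (-(1 / 2)) + vz nnG := by
  rw [← FN15_dd0]
  ext i
  fin_cases i
  · change Gn.dd 1 0 = Gn.dd 0 0 + ((nnG 0 : ℤ) : ℝ)
    have h : nnG 0 = 1 := by simp [nnG]
    rw [Gn.G7_dd0, Gn.G7_dd0, h]
    push_cast
    ring
  · change Gn.dd 1 1 = Gn.dd 0 1 + ((nnG 1 : ℤ) : ℝ)
    have h : nnG 1 = 0 := by simp [nnG]
    rw [Gn.G7_dd1, Gn.G7_dd1, h]
    have : Gn.G7_y 1 = Gn.G7_y 0 := by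
      unfold Gn.G7_y
      have e1 : 2 * Real.pi * (1 - 1 / 2) = Real.pi := by ring
      have e : 2 * Real.pi * (0 - 1 / 2) = -Real.pi := by ring
      rw [e, e1, Real.cos_neg]
    rw [this]
    simp
  · change Gn.dd 1 2 = Gn.dd 0 2 + ((nnG 2 : ℤ) : ℝ)
    have h : nnG 2 = 1 := by simp [nnG]
    rw [Gn.G7_dd2, Gn.G7_dd2, h]
    push_cast
    ring

theorem FN15_wp0 (δ s : ℝ) : wpG δ s 0 = δ * (1 + Real.cos (2 * Real.pi * (s - 1 / 2))) / 4 := rfl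

theorem FN15_wp_has (δ s : ℝ) : HasDerivAt (wpG δ)
    (WithLp.toLp 2 (fun _ => δ * (-Real.sin (2 * Real.pi * (s - 1 / 2)) * (2 * Real.pi)) / 4)) s := by
  have hc : HasDerivAt (fun t : ℝ => Real.cos (2 * Real.pi * (t - 1 / 2)))
      (-Real.sin (2 * Real.pi * (s - 1 / 2)) * (2 * Real.pi)) s := by
    have h1 : HasDerivAt (fun t : ℝ => 2 * Real.pi * (t - 1 / 2)) (2 * Real.pi) s :=
      (((hasDerivAt_id s).sub_const (1 / 2)).const_mul (2 * Real.pi)).congr_deriv (mul_one _)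
    exact h1.cos
  have hy : HasDerivAt (fun t : ℝ => δ * (1 + Real.cos (2 * Real.pi * (t - 1 / 2))) / 4)
      (δ * (-Real.sin (2 * Real.pi * (s - 1 / 2)) * (2 * Real.pi)) / 4) s :=
    ((hc.const_add 1).const_mul δ).div_const 4
  have h : HasDerivAt (fun (t : ℝ) (_ : Fin 1) => δ * (1 + Real.cos (2 * Real.pi * (t - 1 / 2))) / 4)
      (fun _ => δ * (-Real.sin (2 * Real.pi * (s - 1 / 2)) * (2 * Real.pi)) / 4) s := by
    rw [hasDerivAt_pi]
    intro i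
    exact hy
  exact ((PiLp.continuousLinearEquiv 2 ℝ
    (fun _ : Fin 1 => ℝ)).symm.toContinuousLinearMap.hasFDerivAt).comp_hasDerivAt s h

theorem FN15_wp_smooth (δ : ℝ) : ContDiff ℝ 1 (wpG δ) := by
  rw [contDiff_euclidean]
  intro i
  have h1 : ContDiff ℝ 1 (fun s : ℝ => Real.cos (2 * Real.pi * (s - 1 / 2))) :=
    Real.contDiff_cos.comp (contDiff_const.mul (contDiff_id.sub contDiff_const))
  exact (contDiff_const.mul (contDiff_const.add h1)).div_const 4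

theorem geoG : ∃ C0 : ℝ, 10 ≤ C0 ∧ ∀ δ, 0 < δ → δ ≤ 1 / 8 → ∀ M' : Sub 3, M'.N = {x | Gn.Fe x = 0} →
    Geo M' Gn.SO Gn.SK 0 (TcG δ) cvG (Gn.tΘ δ) (StG δ) (Gn.bar 1) (-(1 / 2)) nnG Gn.dd (wpG δ) C0 δ := by
  obtain ⟨C, hC, hC1, hz⟩ := st_deriv
  refine ⟨max 10 (288 * C), le_max_left _ _, fun δ hδ h8 M' hM => ?_⟩
  set C0 := max 10 (288 * C) with hC0
  have h10 : 10 ≤ C0 := le_max_left _ _
  have hpi := Real.pi_pos
  have hcov := coverG hM hδ h8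
  have hcv0 : ∀ θ : ℝ, ‖((θ, 0) : ℝ × Vec 1).2‖ < δ / 16 := by
    intro θ
    show ‖(0 : Vec 1)‖ < δ / 16
    rw [norm_zero]
    positivity
  have hSt := shapeG hδ h8 h10
  refine ⟨Gn.SO_open, (FN15_T_smooth δ).of_le (by simp), fun x => rfl, hcov.per, ?_, ?_, hcov.inj, hcov.uniq,
    FN15_cv_smooth, ?_, ?_, ?_, ?_, Gn.SK_closed, Gn.SK_sub hM, fun l x hx => Gn.SK_per l hx, ?_,
    (Gn.G7_bar_smooth 1).of_le (by exact_mod_cast le_top), ?_, ?_, ?_, ?_, Gn.G7_lip, FN15_dd0, FN15_dd1,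
    fun s _ => Gn.G7_SK s, fun s _ => (Gn.G7_has s).differentiableAt, ?_, FN15_wp_smooth δ, ?_⟩
  · -- small
    intro x _
    rw [FN15_norm1, FN15_T0]
    have h1 : Gn.rr δ x - 1 = δ * Gn.uu x := by
      unfold Gn.rr
      ring
    rw [h1, abs_mul, abs_of_pos hδ]
    have h2 := Gn.G7_uu_le x
    have h3 : δ * |Gn.uu x| ≤ δ * 1 := mul_le_mul_of_nonneg_left h2 hδ.le
    nlinarith
  · -- one
    intro x hx
    obtain ⟨-, h1, h2, -, -⟩ := hx
    rw [pol_TcG]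
    unfold Gn.tΘ
    rw [Gn.tz_em hδ h8, Gn.tu_em hδ h8,
      Real.smoothTransition.one_of_one_le (x := 20 * Gn.qz x - 3) (by linarith),
      Real.smoothTransition.zero_of_nonpos (x := 20 * Gn.uu x ^ 2 - 16) (by linarith)]
    ring
  · -- cv_mem
    intro θ
    rw [FN15_cv δ θ]
    exact hcov.mem _ (hcv0 θ)
  · -- cv_T
    intro θ
    rw [FN15_cv δ θ]
    exact hcov.right _ (hcv0 θ)
  · -- cv_per
    intro θ
    rw [FN15_cv δ (θ + 1), FN15_cv δ θ]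
    exact hcov.per' θ 0 (hcv0 θ)
  · -- cv_S
    intro θ
    have h1 : ((θ, 0) : ℝ × Vec 1) = TcG δ (cvG θ) := by
      rw [FN15_cv δ θ]
      exact (hcov.right _ (hcv0 θ)).symm
    rw [h1, pol_TcG, FN15_St hδ h8, FN15_cv_uu,
      Real.smoothTransition.zero_of_nonpos (x := 2 - 2 * Gn.qz (cvG θ)) (by linarith [FN15_cv_qz θ]),
      Real.smoothTransition.zero_of_nonpos (x := 4 * (0 : ℝ) ^ 2 - 1) (by norm_num)]
    ring
  · -- cv_K
    intro θ
    rw [FN15_cv δ θ]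
    exact (LamG_vals hδ h8 (hcv0 θ)).1
  · -- bar_cv
    intro θ
    unfold Gn.bar
    rw [FN15_cv_uu,
      Real.smoothTransition.zero_of_nonpos (x := 2 - 4 * Gn.qz (cvG θ)) (by linarith [FN15_cv_qz θ]),
      Real.smoothTransition.zero_of_nonpos (x := 4 * (0 : ℝ) ^ 2 - 2) (by norm_num)]
    norm_num
  · -- bar_le
    intro x _ v _
    refine (FN15_bar_le hδ h8 hC hC1 hz x v).trans ?_
    have h1 : 0 ≤ StG δ (pol 1 (TcG δ x)) * eu (fderiv ℝ (TcG δ) x v) :=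
      mul_nonneg (hSt.mem01' _).1 (FN15_eu_nonneg _)
    apply mul_le_mul_of_nonneg_right _ h1
    exact div_le_div_of_nonneg_right (le_max_right _ _) hδ.le
  · -- exit
    intro x hx hc
    have hn1 := Real.smoothTransition.nonneg (2 - 4 * Gn.qz x)
    have hn2 := Real.smoothTransition.nonneg (4 * Gn.uu x ^ 2 - 2)
    unfold Gn.bar
    rw [one_mul]
    rcases Gn.G7_exit hM hx hc with h | h
    · rw [Real.smoothTransition.one_of_one_le (x := 2 - 4 * Gn.qz x) (by linarith)]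
      linarith
    · rw [Real.smoothTransition.one_of_one_le (x := 4 * Gn.uu x ^ 2 - 2) (by linarith)]
      linarith
  · -- n_ne
    intro l h
    have h2 := congrFun h 2
    simp [nnG] at h2
  · -- path
    intro s _
    have e1 : TcG δ (Gn.dd s) = (-(1 / 2) + s, wpG δ s) := by
      refine Prod.ext ?_ ?_
      · show Gn.dd s 0 = -(1 / 2) + s
        rw [Gn.G7_dd0]
        ring
      · ext i
        fin_cases i
        change (TcG δ (Gn.dd s)).2 0 = wpG δ s 0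
        rw [FN15_T0, FN15_wp0]
        unfold Gn.rr
        rw [Gn.G7_uu]
        unfold Gn.G7_y
        ring
    refine ⟨e1, ?_⟩
    obtain ⟨hy0, hy1⟩ := Gn.G7_y_bd s
    rw [← e1, pol_TcG, FN15_St hδ h8, Gn.G7_qz, Gn.G7_uu,
      Real.smoothTransition.zero_of_nonpos (x := 2 - 2 * (1 : ℝ)) (by norm_num),
      Real.smoothTransition.zero_of_nonpos (x := 4 * Gn.G7_y s ^ 2 - 1) (by nlinarith)]
    ring
  · -- wp_small
    intro s
    have hc1 := Real.neg_one_le_cos (2 * Real.pi * (s - 1 / 2))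
    have hc2 := Real.cos_le_one (2 * Real.pi * (s - 1 / 2))
    have hs1 := Real.neg_one_le_sin (2 * Real.pi * (s - 1 / 2))
    have hs2 := Real.sin_le_one (2 * Real.pi * (s - 1 / 2))
    have hpi2 : Real.pi < 3.15 := Real.pi_lt_d2
    constructor
    · rw [FN15_norm1, FN15_wp0, abs_le]
      constructor <;> nlinarith
    · rw [(FN15_wp_has δ s).deriv, FN15_norm1]
      change |δ * (-Real.sin (2 * Real.pi * (s - 1 / 2)) * (2 * Real.pi)) / 4| ≤ C0 * δ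
      have h1 : |Real.sin (2 * Real.pi * (s - 1 / 2)) * Real.pi| ≤ 4 := by
        rw [abs_mul, abs_of_pos hpi]
        have := Real.abs_sin_le_one (2 * Real.pi * (s - 1 / 2))
        nlinarith
      have h2 : δ * (-Real.sin (2 * Real.pi * (s - 1 / 2)) * (2 * Real.pi)) / 4 =
          -(δ / 2) * (Real.sin (2 * Real.pi * (s - 1 / 2)) * Real.pi) := by ring
      rw [h2, abs_mul, abs_neg, abs_of_pos (by positivity : (0 : ℝ) < δ / 2)]
      nlinarith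

end EscW.Fn
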