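import Pool.Agent.EscW.OTDefs
import Pool.Agent.EscMT.P11
import Pool.Agent.EscM.N0

set_option autoImplicit false

/-!
Project EscW, part OT, module OT12: the class and the factor `μ`.
`InClass` with `κ' = κ/μ²`, `F' = μ F`: `IsWeight κ'` (periodic, positive; Lipschitz: `κ` is bounded, `μ` has a positive minimum, both Lipschitz), `IsFinslerT M (μ F)` (`F ≤ C ‖v‖` on unit tangent vectors by compactness of `M.N` modulo `ℤᵈ`, or from `IsFinslerT.lip` and the continuity at `t = 0`), `κ' (μ F)² = κ F²`.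
`pull φ (fun x v t => μ t * F x v t) x v t = μ t * pull φ F x v t` by definition.
-/

noncomputable section

namespace EscW.Ot

open Filter Topology Set EscF.T EscM EscMT MeasureTheory EscW.Ex EscW.Dn EscW.On
open scoped ContDiff

variable {d m k j n : ℕ}

theorem OT12_weight {κ μ : ℝ → ℝ} (hκ : IsWeight κ) (hμ : IsWeight μ) :
    IsWeight (fun t => κ t / μ t ^ 2) := by
  obtain ⟨A, hA⟩ := hκ.lip
  obtain ⟨A', hA'⟩ := hμ.lip
  obtain ⟨a, b, ha, hb, hab⟩ := P11_weight hκ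
  obtain ⟨a', b', ha', hb', hab'⟩ := P11_weight hμ
  refine ⟨fun t => div_pos (hκ.pos t) (pow_pos (hμ.pos t) 2), fun t => ?_,
    |A| / a' ^ 2 + b * |A'| * (2 * b') / a' ^ 4, fun t t' => ?_⟩
  · simp only [hκ.periodic, hμ.periodic]
  · have hm : 0 < μ t := hμ.pos t
    have hm' : 0 < μ t' := hμ.pos t'
    have hD := abs_nonneg (t - t')
    have e1 : κ t / μ t ^ 2 - κ t' / μ t' ^ 2 =
        (κ t - κ t') / μ t ^ 2 + κ t' * ((μ t' - μ t) * (μ t' + μ t)) / (μ t ^ 2 * μ t' ^ 2) := by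
      field_simp
      ring
    have h1 : |κ t - κ t'| ≤ |A| * |t - t'| :=
      (hA t t').trans (mul_le_mul_of_nonneg_right (le_abs_self A) hD)
    have h2 : |μ t' - μ t| ≤ |A'| * |t - t'| := by
      rw [abs_sub_comm]
      exact (hA' t t').trans (mul_le_mul_of_nonneg_right (le_abs_self A') hD)
    have h3 : |μ t' + μ t| ≤ 2 * b' := by
      rw [abs_of_pos (add_pos hm' hm)]
      linarith [(hab' t).2, (hab' t').2]
    have h4 : |(κ t - κ t') / μ t ^ 2| ≤ |A| * |t - t'| / a' ^ 2 := by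
      rw [abs_div, abs_of_pos (pow_pos hm 2)]
      exact div_le_div₀ (by positivity) h1 (by positivity) (pow_le_pow_left₀ ha'.le (hab' t).1 2)
    have h5 : |κ t' * ((μ t' - μ t) * (μ t' + μ t)) / (μ t ^ 2 * μ t' ^ 2)| ≤
        b * (|A'| * |t - t'| * (2 * b')) / a' ^ 4 := by
      rw [abs_div, abs_mul, abs_mul, abs_of_pos (hκ.pos t'), abs_of_pos (mul_pos (pow_pos hm 2) (pow_pos hm' 2))]
      refine div_le_div₀ (by positivity) ?_ (by positivity) ?_
      · exact mul_le_mul (hab t').2 (mul_le_mul h2 h3 (abs_nonneg _) (by positivity)) (by positivity) hb.le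
      · have h6 : a' ^ 4 = a' ^ 2 * a' ^ 2 := by ring
        rw [h6]
        exact mul_le_mul (pow_le_pow_left₀ ha'.le (hab' t).1 2) (pow_le_pow_left₀ ha'.le (hab' t').1 2)
          (by positivity) (by positivity)
    rw [e1]
    refine (abs_add_le _ _).trans ((add_le_add h4 h5).trans (le_of_eq ?_))
    ring

theorem OT12_fins {M : Sub d} {μ : ℝ → ℝ} (hμ : IsWeight μ) (hne : M.N.Nonempty)
    {F : Vec d → Vec d → ℝ → ℝ} (hF : IsFinslerT M F) : IsFinslerT M (fun x v t => μ t * F x v t) := by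
  obtain ⟨ρ', χ', R', hT⟩ := exists_tube M hne
  obtain ⟨mF, MF, hmF, hb⟩ := P11_unif hT hF
  obtain ⟨a', b', ha', hb', hab'⟩ := P11_weight hμ
  obtain ⟨A, hA⟩ := hF.lip
  obtain ⟨A', hA'⟩ := hμ.lip
  refine ⟨fun t => ⟨?_, ?_, ?_, ?_⟩, ?_, |A'| * |MF| + b' * |A|, ?_⟩
  · exact continuousOn_const.mul (hF.fins t).cont
  · intro n x hx v hv
    exact congrArg (fun y => μ t * y) ((hF.fins t).periodic n x hx v hv)
  · intro x hx v hv r hr
    have h1 : F x (r • v) t = r * F x v t := (hF.fins t).hom x hx v hv r hr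
    show μ t * F x (r • v) t = r * (μ t * F x v t)
    rw [h1]
    ring
  · intro x hx v hv hv0
    exact mul_pos (hμ.pos t) ((hF.fins t).pos x hx v hv hv0)
  · intro x hx v hv t
    show μ (t + 1) * F x v (t + 1) = μ t * F x v t
    rw [hμ.periodic, hF.periodic x hx v hv]
  · intro x hx v hv t t'
    have hD := abs_nonneg (t - t')
    have hn := norm_nonneg v
    obtain ⟨h1, h2⟩ := hb t x v ⟨hx, hv⟩
    have h0 : 0 ≤ F x v t := (mul_nonneg hmF.le hn).trans h1
    have h3 : |F x v t| ≤ |MF| * ‖v‖ := by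
      rw [abs_of_nonneg h0]
      exact h2.trans (mul_le_mul_of_nonneg_right (le_abs_self MF) hn)
    have h4 : |μ t - μ t'| ≤ |A'| * |t - t'| :=
      (hA' t t').trans (mul_le_mul_of_nonneg_right (le_abs_self A') hD)
    have h5 : |F x v t - F x v t'| ≤ |A| * ‖v‖ * |t - t'| := by
      refine (hA x hx v hv t t').trans ?_
      gcongr
      exact le_abs_self A
    have e1 : μ t * F x v t - μ t' * F x v t' =
        (μ t - μ t') * F x v t + μ t' * (F x v t - F x v t') := by ring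
    show |μ t * F x v t - μ t' * F x v t'| ≤ _
    rw [e1]
    refine (abs_add_le _ _).trans ?_
    rw [abs_mul, abs_mul, abs_of_pos (hμ.pos t')]
    have h6 : |μ t - μ t'| * |F x v t| ≤ |A'| * |t - t'| * (|MF| * ‖v‖) :=
      mul_le_mul h4 h3 (abs_nonneg _) (by positivity)
    have h7 : μ t' * |F x v t - F x v t'| ≤ b' * (|A| * ‖v‖ * |t - t'|) :=
      mul_le_mul (hab' t').2 h5 (abs_nonneg _) hb'.le
    refine (add_le_add h6 h7).trans (le_of_eq ?_)
    ring

theorem inClass_of {M : Sub d} {κ μ : ℝ → ℝ} (hκ : IsWeight κ) (hμ : IsWeight μ)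
    {F : Vec d → Vec d → ℝ → ℝ} (hF : IsFinslerT M F) {L : Lag d} (hL : IsNearT M κ F L) {M' : Sub m}
    {O K : Set (Vec m)} {G : Subgroup (Vec m ≃ₗᵢ[ℝ] Vec m)} {φ : Vec m → Vec d} (hφ : IsChart M M' O G φ)
    {B : Vec m → ℝ → ℝ} {i : Fin m} {len a : ℝ} {c : ℝ → ℝ → Vec m}
    (hc : IsCalibratedW M' O φ (fun x v t => μ t * pull φ F x v t) B i len c)
    (hr : IsRoom M' O K (fun x v t => μ t * pull φ F x v t) B i c a) : InClass M L := by
  have hne : M.N.Nonempty := ⟨_, hφ.maps _ (hc.mem 0 0)⟩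
  refine ⟨fun t => κ t / μ t ^ 2, fun x v t => μ t * F x v t, m, M', O, K, G, φ, B, i, len, a, c,
    OT12_weight hκ hμ, OT12_fins hμ hne hF, ⟨hL.smooth, hL.periodic, hL.convex, ?_⟩, hφ, hc, hr⟩
  obtain ⟨C, hC⟩ := hL.near
  refine ⟨C, fun x hx v t hv x' hx' v' t' hv' => ?_⟩
  have e : ∀ (s y : ℝ), κ s / μ s ^ 2 * (μ s * y) ^ 2 / 2 = κ s * y ^ 2 / 2 := fun s y => by
    have := (hμ.pos s).ne'
    field_simp
  show |(L (x, v, t) - κ t / μ t ^ 2 * (μ t * F x v t) ^ 2 / 2) -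
    (L (x', v', t') - κ t' / μ t' ^ 2 * (μ t' * F x' v' t') ^ 2 / 2)| ≤ _
  rw [e, e]
  exact hC x hx v t hv x' hx' v' t' hv'

end EscW.Ot
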