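import Pool.Agent.EscW.FN9
import Pool.Agent.EscW.FN10
import Pool.Agent.EscW.FN11
import Pool.Agent.EscW.FN12
import Pool.Agent.EscW.FN13
import Pool.Agent.EscW.FN14
import Pool.Agent.EscW.CF7
import Pool.Agent.EscW.OT12
import Pool.Agent.EscW.D4
import Pool.Agent.EscW.E5

set_option autoImplicit false

/-!
Project EscW, part FN, module FN16: density, dimension at least three.
`finrank = n + 3`, `exists_mchart` (E5): `W ⊆ W0`, `ρ`, `g`, `g'`. `s > 0` with `s * 2 < ρ` and `s (emB n) ≤ ρ/2`. `Φ` of `locFin_of` (`j = n + 1`), `ε1 = min (1/4) (ε/2)`, `C0` of `geoD n`, `K`, `δ1` of `abs_fn`, `δ = min δ1 (1/8)`. `Wf Φ K ε1 (ThD δ) (StD δ)`: `Wf_smooth`, `Wf_per`, `Wf_one`, `Wf_bd`; `w = wMt W s g' (Wf ..)`: `wMt_conf` (`2 ε1 ≤ ε`).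
`φ X = g ((s/(1 + δ)) • em δ X) = g (s • pol 1 (TfD δ X))` (`pol_TfD`). Chart: `exists_chart` (D4) with `A = ContinuousLinearEquiv.refl`, scale `s/(1 + δ) ≤ s` (`‖id‖ ≤ 1`). The metric: `pull φ (fun x v t => w x t * F x v t) X v t = Wf t (pol 1 (T X)) * Φ t (T X) (fderiv T X v) = Ps ..` for `X ∈ SO` (`wMt_at`, `Wf_pol` with `Geo.one`; chain rule for
`φ = Pj ∘ T`, `Pj z = g (s • pol 1 z)` is differentiable at `T X`; `0 < 1 + z.2 0` by `Geo.small`, `C0 δ ≤ 1/2`). `hφ`: `g (s • Y) = g (s • Y') + vz l` implies `l = 0` (`MChart.small`) and `Y = Y'` (`left`), `pol_inj` (CF7). `inClass_of` (OT12) with the metric `w F` (`conf_fins`, `IsSmoothFinslerT.fins`).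
-/

noncomputable section

namespace EscW.Fn

open Filter Topology Set EscF.T EscM EscMT MeasureTheory EscW.Ex EscW.Dn EscW.On
open scoped ContDiff

variable {d m k j n : ℕ}

theorem FN16_mono {M : Sub d} {W0 : Set (Vec d)} {ε ε' : ℝ} {w : Vec d → ℝ → ℝ} (h : IsConfT M W0 ε w)
    (he : ε ≤ ε') : IsConfT M W0 ε' w where
  smooth := h.smooth
  periodic := h.periodic
  periodic' := h.periodic'
  near x hx t := (h.near x hx t).trans he
  pos := h.pos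
  off := h.off

/-- the norm of a point of the tube -/
theorem FN16_norm {s ρ r : ℝ} (hs : 0 < s) (hs2 : s * 2 < ρ) (hr : r ≤ 1 / 2) {z : ℝ × Vec (j + 1)}
    (hz : ‖z.2‖ ≤ r) : ‖s • pol 1 z‖ < ρ := by
  have h1 := pol_norm 1 z
  rw [abs_one] at h1
  rw [norm_smul, Real.norm_of_nonneg hs.le]
  have h2 : s * ‖pol 1 z‖ ≤ s * 2 := mul_le_mul_of_nonneg_left (by linarith) hs.le
  linarith

theorem FN16_pos {r : ℝ} (hr : r ≤ 1 / 2) {z : ℝ × Vec (j + 1)} (hz : ‖z.2‖ ≤ r) : 0 < 1 + z.2 0 := by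
  have h1 : |z.2 0| ≤ ‖z.2‖ := by
    have := PiLp.norm_apply_le z.2 0
    rwa [Real.norm_eq_abs] at this
  have h2 := abs_le.1 h1
  linarith

/-- chain rule for the chart -/
theorem FN16_chain {g : Vec (j + 2) → Vec d} {ρ s : ℝ} (hg : ContDiffOn ℝ ∞ g (Metric.ball 0 ρ))
    {T : Vec m → ℝ × Vec (j + 1)} (hT : ContDiff ℝ 1 T) {X : Vec m} (hX : ‖s • pol 1 (T X)‖ < ρ)
    (v : Vec m) : fderiv ℝ (fun X => g (s • pol 1 (T X))) X v =
      fderiv ℝ (fun z => g (s • pol 1 z)) (T X) (fderiv ℝ T X v) := by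
  have hb : s • pol 1 (T X) ∈ Metric.ball (0 : Vec (j + 2)) ρ := by
    rw [mem_ball_zero_iff]
    exact hX
  have hgd : DifferentiableAt ℝ g (s • pol 1 (T X)) :=
    (hg.contDiffAt (Metric.isOpen_ball.mem_nhds hb)).differentiableAt (by simp)
  have hp : DifferentiableAt ℝ (fun z : ℝ × Vec (j + 1) => s • pol 1 z) (T X) :=
    ((pol_smooth 1).const_smul s).differentiable (by simp) _
  have k1 : DifferentiableAt ℝ (fun z => g (s • pol 1 z)) (T X) := hgd.comp (T X) hp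
  have k2 : DifferentiableAt ℝ T X := hT.differentiable (by norm_num) X
  have k3 : fderiv ℝ (fun X => g (s • pol 1 (T X))) X =
      (fderiv ℝ (fun z => g (s • pol 1 z)) (T X)).comp (fderiv ℝ T X) := fderiv_comp X k1 k2
  rw [k3]
  rfl

/-- points with the same image have the same angle -/
theorem FN16_inj {M : Sub d} {W : Set (Vec d)} {ρ s : ℝ} {g : Vec (j + 2) → Vec d}
    {g' : Vec d → Vec (j + 2)} (hg : MChart M (j + 2) W ρ g g') (hs : 0 < s) {z z' : ℝ × Vec (j + 1)}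
    (hz : ‖s • pol 1 z‖ < ρ) (hz' : ‖s • pol 1 z'‖ < ρ) (hp : 0 < 1 + z.2 0) (hp' : 0 < 1 + z'.2 0)
    {l : Fin d → ℤ} (h : g (s • pol 1 z) = g (s • pol 1 z') + vz l) : ∃ l' : ℤ, z.1 = z'.1 + l' := by
  have hb : s • pol 1 z ∈ Metric.ball (0 : Vec (j + 2)) ρ := by
    rw [mem_ball_zero_iff]
    exact hz
  have hb' : s • pol 1 z' ∈ Metric.ball (0 : Vec (j + 2)) ρ := by
    rw [mem_ball_zero_iff]
    exact hz'
  have k1 := hg.small _ (hg.maps _ hb).2 _ (hg.maps _ hb').2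
  rw [h, dist_eq_norm, add_sub_cancel_left] at k1
  rw [Dn.D4_vz k1, Dn.D4_vz0, add_zero] at h
  have k2 : s • pol 1 z = s • pol 1 z' := by
    rw [← hg.left _ hb, ← hg.left _ hb', h]
  exact pol_inj hp hp' (smul_right_injective (Vec (j + 2)) hs.ne' k2)

theorem dense_dim3 {M : Sub d} {y0 : Vec d} (hy : y0 ∈ M.N)
    (hdim : 3 ≤ Module.finrank ℝ (LinearMap.range (fderiv ℝ M.r y0 : Vec d →ₗ[ℝ] Vec d)))
    {W0 : Set (Vec d)} (hW : IsOpen W0) (hy0 : y0 ∈ W0) {F : Vec d → Vec d → ℝ → ℝ}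
    (hF : IsSmoothFinslerT M W0 F) {ε : ℝ} (hε : 0 < ε) :
    ∃ w : Vec d → ℝ → ℝ, IsConfT M W0 ε w ∧ ∀ κ : ℝ → ℝ, IsWeight κ → ∀ L : Lag d,
      IsNearT M κ (fun x v t => w x t * F x v t) L → InClass M L := by
  obtain ⟨n, hn⟩ := Nat.exists_eq_add_of_le' hdim
  obtain ⟨W, ρ, g, g', hWW, hg⟩ := exists_mchart hy hn hW hy0
  have hρ := hg.pos
  have hemB : 4 ≤ emB n := by
    unfold emB
    have : (0:ℝ) ≤ n := Nat.cast_nonneg n
    linarith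
  -- the scale
  obtain ⟨s, hs, hs2, hsB⟩ : ∃ s : ℝ, 0 < s ∧ s * 2 < ρ ∧ s * emB n ≤ ρ / 2 := by
    refine ⟨ρ / (2 * emB n), by positivity, ?_, ?_⟩
    · rw [div_mul_eq_mul_div, div_lt_iff₀ (by positivity)]
      nlinarith
    · rw [div_mul_eq_mul_div, div_le_iff₀ (by positivity)]
      linarith
  have hΦ := locFin_of (j := n + 1) hF hWW hg hs hs2
  set Φ : ℝ → ℝ × Vec (n + 1 + 1) → ℝ × Vec (n + 1 + 1) → ℝ := fun t z ζ =>
    F (g (s • pol 1 z)) (fderiv ℝ (fun z => g (s • pol 1 z)) z ζ) t with hΦd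
  obtain ⟨ε1, hε1, hε14, hε2⟩ : ∃ ε1 : ℝ, 0 < ε1 ∧ ε1 ≤ 1 / 4 ∧ 2 * ε1 ≤ ε :=
    ⟨min (1 / 4) (ε / 2), lt_min (by norm_num) (by positivity), min_le_left _ _, by
      have := min_le_right (1 / 4) (ε / 2)
      linarith⟩
  obtain ⟨C0, hC0, hgeo⟩ := geoD n
  obtain ⟨K, δ1, -, hδ1, hcfs, habs⟩ := abs_fn (d := d) hΦ hε1 hε14 (C0 := C0) (by linarith)
  obtain ⟨δ, hδ, hδle, h8⟩ : ∃ δ : ℝ, 0 < δ ∧ δ ≤ δ1 ∧ δ ≤ 1 / 8 :=
    ⟨min δ1 (1 / 8), lt_min hδ1 (by norm_num), min_le_left _ _, min_le_right _ _⟩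
  obtain ⟨-, hc2, hcf⟩ := hcfs δ hδ hδle
  have hsh : IsShape (j := n + 1) (ThD δ) (StD δ) C0 δ := shapeD hδ h8 hC0
  have hG := hgeo δ hδ h8
  have hconf : IsConfT M W0 (2 * ε1) (wMt W s g' (Wf Φ K ε1 (ThD δ) (StD δ))) :=
    wMt_conf hg hs hs2 (Wf_smooth hΦ hsh K ε1) (Wf_per hΦ _ _ K ε1)
      (fun t Y hY => Wf_one hsh hc2 K ε1 t hY) (fun t Y => (Wf_bd hsh hε1 hε14 hcf t Y).1)
      (fun t Y => (Wf_bd hsh hε1 hε14 hcf t Y).2) hWW
  refine ⟨_, FN16_mono hconf hε2, fun κ hκ L hL => ?_⟩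
  have hsmall : ∀ X ∈ (tor (n + 3)).N ∩ Dn.SO n, ‖s • pol 1 (TfD δ X)‖ < ρ := fun X hX =>
    FN16_norm hs hs2 hc2 (hG.small X hX)
  have hpos : ∀ X ∈ (tor (n + 3)).N ∩ Dn.SO n, 0 < 1 + (TfD δ X).2 0 := fun X hX =>
    FN16_pos hc2 (hG.small X hX)
  -- the chart
  have hchart : IsChart M (tor (n + 3)) (Dn.SO n) ⊥ (fun X => g (s • pol 1 (TfD δ X))) := by
    have h1 : 0 < 1 + δ := by linarith
    have h2 : ‖((ContinuousLinearEquiv.refl ℝ (Vec (n + 3)) : Vec (n + 3) ≃L[ℝ] Vec (n + 3)) :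
        Vec (n + 3) →L[ℝ] Vec (n + 3))‖ ≤ 1 := ContinuousLinearMap.norm_id_le
    have h3 : s / (1 + δ) ≤ s := div_le_self hs.le (by linarith)
    have h4 := Dn.exists_chart hg (ContinuousLinearEquiv.refl ℝ (Vec (n + 3))) (s := s / (1 + δ)) hδ h8
      (by positivity) (by
        refine le_trans (mul_le_mul h3 (mul_le_mul_of_nonneg_right h2 (by linarith)) (by positivity)
          hs.le) ?_
        rw [one_mul]
        exact hsB)
    have h5 : (fun X : Vec (n + 3) => g ((s / (1 + δ)) •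
        (ContinuousLinearEquiv.refl ℝ (Vec (n + 3))) (Dn.em δ X))) = fun X => g (s • pol 1 (TfD δ X)) := by
      funext X
      have h6 : (ContinuousLinearEquiv.refl ℝ (Vec (n + 3))) (Dn.em δ X) = Dn.em δ X := rfl
      rw [h6, ← pol_TfD hδ X, smul_smul, div_mul_cancel₀ _ h1.ne']
    rwa [h5] at h4
  -- the metric
  have hmet : ∀ X ∈ (tor (n + 3)).N ∩ Dn.SO n, ∀ v t, pull (fun X => g (s • pol 1 (TfD δ X)))
      (fun x v t => wMt W s g' (Wf Φ K ε1 (ThD δ) (StD δ)) x t * F x v t) X v t =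
        Ps Φ K ε1 (StD δ) t (TfD δ X) (fderiv ℝ (TfD δ) X v) := by
    intro X hX v t
    have k1 := wMt_at hg hs (Wf Φ K ε1 (ThD δ) (StD δ)) (hsmall X hX) t
    have k2 := Wf_pol hΦ (Θ := ThD δ) (S := StD δ) K ε1 t (hpos X hX) (hG.one X hX)
    have k3 := FN16_chain (s := s) hg.smooth hG.smooth (hsmall X hX) v
    simp only [pull, Ps, hΦd]
    rw [k3, k1, k2]
  obtain ⟨μ, B, len, a, c, hμ, hcal, hroom⟩ := habs δ hδ hδle (n + 3) (tor (n + 3)) (Dn.SO n) (Dn.SK n) 0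
    (TfD δ) cvD (ThD δ) (StD δ) (Dn.bar 1) 0 nnD gaD (wpD δ) hG hsh (fun X => g (s • pol 1 (TfD δ X)))
    (pull (fun X => g (s • pol 1 (TfD δ X)))
      (fun x v t => wMt W s g' (Wf Φ K ε1 (ThD δ) (StD δ)) x t * F x v t)) hmet
    (fun x hx y hy l hl => FN16_inj hg hs (hsmall x hx) (hsmall y hy) (hpos x hx) (hpos y hy) hl)
  exact Ot.inClass_of hκ hμ (conf_fins hconf hF.fins) hL hchart hcal hroom

end EscW.Fn
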