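import Pool.Agent.EscW.FN9
import Pool.Agent.EscW.FN10
import Pool.Agent.EscW.FN11
import Pool.Agent.EscW.FN12
import Pool.Agent.EscW.FN13
import Pool.Agent.EscW.FN15
import Pool.Agent.EscW.CF7
import Pool.Agent.EscW.OT12
import Pool.Agent.EscW.G1
import Pool.Agent.EscW.G3
import Pool.Agent.EscW.E5

set_option autoImplicit false

/-!
Project EscW, part FN, module FN17: density, surfaces.
As FN16 with `m = 2`, `j = 0`: `M'` from `exists_sub_level` (G1, `Fe_smooth`, `Fe_per`, `Fe_reg`), `geoG`, `shapeG`, `pol_TcG`, `φ x = g (s • em δ x) = g (s • pol 1 (TcG δ x))`, `Gn.exists_chart` (G3) with `A = ContinuousLinearEquiv.refl`, `s (‖id‖ 2) ≤ ρ/2`, `s * 2 < ρ`.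
-/

noncomputable section

namespace EscW.Fn

open Filter Topology Set EscF.T EscM EscMT MeasureTheory EscW.Ex EscW.Dn EscW.On
open scoped ContDiff

variable {d m k j n : ℕ}

theorem FN17_pos {w : Vec 1} {r : ℝ} (h : ‖w‖ ≤ r) (hr : r ≤ 1 / 2) : 0 < 1 + w 0 := by
  have h1 : |w 0| ≤ ‖w‖ := by
    rw [FN15_norm1]
  have h2 := neg_abs_le (w 0)
  linarith

theorem FN17_mem {M : Sub d} {W : Set (Vec d)} {ρ : ℝ} {g : Vec 2 → Vec d} {g' : Vec d → Vec 2}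
    (hg : MChart M 2 W ρ g g') (A : Vec 2 ≃L[ℝ] Vec 2) (hA : ∀ Y, A Y = Y) {δ s : ℝ} (hδ : 0 < δ)
    (h8 : δ ≤ 1 / 8) (hs : 0 < s) (hsA : s * (‖(A : Vec 2 →L[ℝ] Vec 2)‖ * 2) ≤ ρ / 2) (x : Vec 3) :
    ‖s • Gn.em δ x‖ ≤ ρ / 2 := by
  have h1 := (Gn.phi_mem hg A hδ h8 hs hsA x).1
  rwa [hA] at h1

theorem dense_dim2 {M : Sub d} {y0 : Vec d} (hy : y0 ∈ M.N)
    (hdim : Module.finrank ℝ (LinearMap.range (fderiv ℝ M.r y0 : Vec d →ₗ[ℝ] Vec d)) = 2)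
    {W0 : Set (Vec d)} (hW : IsOpen W0) (hy0 : y0 ∈ W0) {F : Vec d → Vec d → ℝ → ℝ}
    (hF : IsSmoothFinslerT M W0 F) {ε : ℝ} (hε : 0 < ε) :
    ∃ w : Vec d → ℝ → ℝ, IsConfT M W0 ε w ∧ ∀ κ : ℝ → ℝ, IsWeight κ → ∀ L : Lag d,
      IsNearT M κ (fun x v t => w x t * F x v t) L → InClass M L := by
  obtain ⟨M', hM⟩ := Gn.exists_sub_level Gn.Fe_smooth Gn.Fe_per Gn.Fe_reg
  obtain ⟨W, ρ, g, g', hWW, hg⟩ := exists_mchart (m := 2) hy hdim hW hy0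
  have hρ : 0 < ρ := hg.pos
  obtain ⟨A, hAdef⟩ : ∃ A : Vec 2 ≃L[ℝ] Vec 2, ∀ Y, A Y = Y := ⟨ContinuousLinearEquiv.refl ℝ (Vec 2), fun _ => rfl⟩
  have hA0 : 0 ≤ ‖(A : Vec 2 →L[ℝ] Vec 2)‖ := norm_nonneg _
  set s : ℝ := ρ / (4 * (‖(A : Vec 2 →L[ℝ] Vec 2)‖ + 1)) with hsdef
  have hs : 0 < s := by positivity
  have hsA' : s * (4 * (‖(A : Vec 2 →L[ℝ] Vec 2)‖ + 1)) = ρ := by
    rw [hsdef]
    field_simp
  have hsA : s * (‖(A : Vec 2 →L[ℝ] Vec 2)‖ * 2) ≤ ρ / 2 := by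
    nlinarith
  have hs2 : s * 2 < ρ := by
    nlinarith [mul_nonneg hs.le hA0]
  -- the metric in annular coordinates
  have hΦ := locFin_of (j := 0) hF hWW hg hs hs2
  set Φ : ℝ → ℝ × Vec 1 → ℝ × Vec 1 → ℝ :=
    fun t z ζ => F (g (s • pol 1 z)) (fderiv ℝ (fun z => g (s • pol 1 z)) z ζ) t with hΦdef
  set ε1 : ℝ := min (1 / 4) (ε / 2) with hε1
  have he0 : 0 < ε1 := lt_min (by norm_num) (by linarith)
  have he4 : ε1 ≤ 1 / 4 := min_le_left _ _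
  have he2 : ε1 ≤ ε / 2 := min_le_right _ _
  obtain ⟨C0, hC10, Hgeo⟩ := geoG
  have hC0 : 0 < C0 := by linarith
  obtain ⟨K, δ1, hK, hδ1, hcf, Habs⟩ := abs_fn hΦ he0 he4 hC0
  set δ : ℝ := min δ1 (1 / 8) with hδdef
  have hδ : 0 < δ := lt_min hδ1 (by norm_num)
  have h8 : δ ≤ 1 / 8 := min_le_right _ _
  have hδδ : δ ≤ δ1 := min_le_left _ _
  obtain ⟨hc1, hc2, hc3⟩ := hcf δ hδ hδδ
  have geo := Hgeo δ hδ h8 M' hM
  have shape := shapeG hδ h8 hC10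
  have hconf : IsConfT M W0 ε (wMt W s g' (Wf Φ K ε1 (Gn.tΘ δ) (StG δ))) :=
    wMt_conf hg hs hs2 (Wf_smooth hΦ shape K ε1) (fun t Y => Wf_per hΦ _ _ K ε1 t Y)
      (fun t Y hY => Wf_one shape hc2 K ε1 t hY)
      (fun t Y => ((Wf_bd shape he0 he4 hc3 t Y).1).trans (by linarith))
      (fun t Y => (Wf_bd shape he0 he4 hc3 t Y).2) hWW
  refine ⟨wMt W s g' (Wf Φ K ε1 (Gn.tΘ δ) (StG δ)), hconf, fun κ hκ L hL => ?_⟩
  have hfins := conf_fins hconf hF.fins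
  have hmem := FN17_mem hg A hAdef hδ h8 hs hsA
  have hTpos : ∀ x ∈ M'.N ∩ Gn.SO, 0 < 1 + (TcG δ x).2 0 := fun x hx =>
    FN17_pos (geo.small x hx) hc2
  have hPs : ∀ x ∈ M'.N ∩ Gn.SO, ∀ v t, pull (fun x : Vec 3 => g (s • Gn.em δ x))
      (fun x v t => wMt W s g' (Wf Φ K ε1 (Gn.tΘ δ) (StG δ)) x t * F x v t) x v t =
        Ps Φ K ε1 (StG δ) t (TcG δ x) (fderiv ℝ (TcG δ) x v) := by
    intro x hx v t
    have hlt : ‖s • pol 1 (TcG δ x)‖ < ρ := by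
      rw [pol_TcG]
      have := hmem x
      linarith
    have e1 : (fun x : Vec 3 => g (s • Gn.em δ x)) = (fun z => g (s • pol 1 z)) ∘ TcG δ := by
      funext y
      show g (s • Gn.em δ y) = g (s • pol 1 (TcG δ y))
      rw [pol_TcG]
    have hgd : DifferentiableAt ℝ (fun z : ℝ × Vec 1 => g (s • pol 1 z)) (TcG δ x) := by
      have h1 : ContDiffAt ℝ ∞ g (s • pol 1 (TcG δ x)) :=
        hg.smooth.contDiffAt (Metric.isOpen_ball.mem_nhds (mem_ball_zero_iff.2 hlt))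
      have h2 : DifferentiableAt ℝ g (s • pol 1 (TcG δ x)) := h1.differentiableAt (by simp)
      have h3 : DifferentiableAt ℝ (fun z : ℝ × Vec 1 => s • pol 1 z) (TcG δ x) :=
        (((pol_smooth (j := 0) 1).differentiable (by simp)) (TcG δ x)).const_smul s
      exact DifferentiableAt.comp (TcG δ x) h2 h3
    have hTd : DifferentiableAt ℝ (TcG δ) x := (FN15_T_smooth δ).differentiable (by simp) x
    have e2 : fderiv ℝ (fun x : Vec 3 => g (s • Gn.em δ x)) x v =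
        fderiv ℝ (fun z : ℝ × Vec 1 => g (s • pol 1 z)) (TcG δ x) (fderiv ℝ (TcG δ) x v) := by
      rw [e1, fderiv_comp x hgd hTd]
      rfl
    have e3 : wMt W s g' (Wf Φ K ε1 (Gn.tΘ δ) (StG δ)) (g (s • pol 1 (TcG δ x))) t =
        (1 - ε1) * cf Φ K t (TcG δ x) + ε1 / 2 * StG δ (pol 1 (TcG δ x)) := by
      rw [wMt_at hg hs _ hlt t, Wf_pol hΦ K ε1 t (hTpos x hx) (geo.one x hx)]
    show wMt W s g' (Wf Φ K ε1 (Gn.tΘ δ) (StG δ)) (g (s • Gn.em δ x)) t *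
      F (g (s • Gn.em δ x)) (fderiv ℝ (fun x : Vec 3 => g (s • Gn.em δ x)) x v) t = _
    rw [e2, ← pol_TcG, e3]
    rfl
  have hinj : ∀ x ∈ M'.N ∩ Gn.SO, ∀ y ∈ M'.N ∩ Gn.SO, ∀ l : Fin d → ℤ,
      (fun x : Vec 3 => g (s • Gn.em δ x)) x = (fun x : Vec 3 => g (s • Gn.em δ x)) y + vz l →
        ∃ l' : ℤ, (TcG δ x).1 = (TcG δ y).1 + l' := by
    intro x hx y hy' l hl
    have h1 : g (s • A (Gn.em δ x)) = g (s • A (Gn.em δ y)) + vz l := by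
      rw [hAdef, hAdef]
      exact hl
    have h2 := Gn.phi_inj hg A hδ h8 hs hsA y x l h1
    refine pol_inj (hTpos x hx) (hTpos y hy') ?_
    rw [pol_TcG, pol_TcG]
    exact h2.symm
  obtain ⟨μ, B, len, a, c, hμ, hcal, hroom⟩ := Habs δ hδ hδδ 3 M' Gn.SO Gn.SK 0 (TcG δ) cvG (Gn.tΘ δ)
    (StG δ) (Gn.bar 1) (-(1 / 2)) nnG Gn.dd (wpG δ) geo shape (fun x : Vec 3 => g (s • Gn.em δ x)) _ hPs hinj
  have hchart : IsChart M M' Gn.SO ⊥ (fun x : Vec 3 => g (s • Gn.em δ x)) := by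
    have h1 := Gn.exists_chart hg A hM hδ h8 hs hsA
    have h2 : (fun x : Vec 3 => g (s • A (Gn.em δ x))) = fun x : Vec 3 => g (s • Gn.em δ x) := by
      funext x
      rw [hAdef]
    rwa [h2] at h1
  exact Ot.inClass_of hκ hμ hfins hL hchart hcal hroom

end EscW.Fn
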