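import Pool.Agent.EscW.FN16
import Pool.Agent.EscW.FN17

set_option autoImplicit false

/-!
Project EscW, part FN, module FN18: density: final theorem.
`u`, `v` are in the range of `fderiv M.r y0`, so its dimension is at least two: `dense_dim2` or `dense_dim3`;
`conf_near` for the last part.
-/

noncomputable section

namespace EscW.Fn

open Filter Topology Set EscF.T EscM EscMT MeasureTheory EscW.Ex EscW.Dn EscW.On
open scoped ContDiff

variable {d m k j n : ℕ}

/-- two independent tangent vectors: the dimension is at least two -/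
theorem FN18_two_le {M : Sub d} {y0 u v : Vec d} (hu : IsTangent M y0 u) (hv : IsTangent M y0 v)
    (huv : LinearIndependent ℝ ![u, v]) :
    2 ≤ Module.finrank ℝ (LinearMap.range (fderiv ℝ M.r y0 : Vec d →ₗ[ℝ] Vec d)) := by
  have hle : Submodule.span ℝ (Set.range ![u, v]) ≤
      LinearMap.range (fderiv ℝ M.r y0 : Vec d →ₗ[ℝ] Vec d) := by
    rw [Submodule.span_le]
    rintro _ ⟨i, rfl⟩
    fin_cases i
    · exact ⟨u, hu⟩
    · exact ⟨v, hv⟩
  have h2 : Module.finrank ℝ (Submodule.span ℝ (Set.range ![u, v])) = 2 := by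
    rw [finrank_span_eq_card huv, Fintype.card_fin]
  rw [← h2]
  exact Submodule.finrank_mono hle

/-- the two cases together -/
theorem FN18_dim {M : Sub d} {y0 : Vec d} (hy : y0 ∈ M.N)
    (hdim : 2 ≤ Module.finrank ℝ (LinearMap.range (fderiv ℝ M.r y0 : Vec d →ₗ[ℝ] Vec d)))
    {W0 : Set (Vec d)} (hW : IsOpen W0) (hy0 : y0 ∈ W0) {F : Vec d → Vec d → ℝ → ℝ}
    (hF : IsSmoothFinslerT M W0 F) {ε : ℝ} (hε : 0 < ε) :
    ∃ w : Vec d → ℝ → ℝ, IsConfT M W0 ε w ∧ ∀ κ : ℝ → ℝ, IsWeight κ → ∀ L : Lag d,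
      IsNearT M κ (fun x v t => w x t * F x v t) L → InClass M L := by
  rcases hdim.eq_or_lt with h | h
  · exact dense_dim2 hy h.symm hW hy0 hF hε
  · exact dense_dim3 hy h hW hy0 hF hε

theorem dense_all {M : Sub d} {y0 u v : Vec d} (hy : y0 ∈ M.N) (hu : IsTangent M y0 u)
    (hv : IsTangent M y0 v) (huv : LinearIndependent ℝ ![u, v])
    {W0 : Set (Vec d)} (hW : IsOpen W0) (hy0 : y0 ∈ W0) {F : Vec d → Vec d → ℝ → ℝ}
    (hF : IsSmoothFinslerT M W0 F) {ε : ℝ} (hε : 0 < ε) :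
    ∃ w : Vec d → ℝ → ℝ, IsConfT M W0 ε w ∧ ∀ κ : ℝ → ℝ, IsWeight κ →
      (∀ L : Lag d, IsNearT M κ (fun x v t => w x t * F x v t) L → InClass M L) ∧
      ∀ L : Lag d, IsNearT M κ F L → InClass M (fun q => w q.1 q.2.2 ^ 2 * L q) := by
  obtain ⟨w, hw, h⟩ := FN18_dim hy (FN18_two_le hu hv huv) hW hy0 hF hε
  exact ⟨w, hw, fun κ hκ => ⟨fun L hL => h κ hκ L hL,
    fun L hL => h κ hκ _ (conf_near hw hF.fins hκ hL)⟩⟩

end EscW.Fn
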