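import Pool.Agent.EscW.FN1

set_option autoImplicit false

/-!
Project EscW, part FN, module FN2: strict convexity.
Fix `(t, θ)`, `N ζ = Φ t (θ, 0) ζ`, `ν = (1, 0)`. `DN ν ζ = en ζ.1 + ⟪pn, ζ.2⟫`: Euler (`DN ν ν = N ν = en`, derivative of `hom`) and `gu_inner` (O3). `N²/2` is strictly convex with positive definite second derivative off zero: `N ζ > DN ν ζ` if `ζ` is not `a • ν`, `a ≥ 0`: if `N ζ ≤ DN ν ζ` (so `DN ν ζ > 0` for `ζ ≠ 0`), on the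
segment from `ν` to `ζ / N ζ` ... (standard: `N²(ζ) > N²(ν) + 2 N(ν) DN ν (ζ - ν)` for `ζ ≠ ν` if the segment avoids `0`, so for `N ζ = N ν`: `DN ν ζ < DN ν ν = N ν = N ζ`; the segment passes through `0` only if `ζ = - a ν`, `a > 0`, and then `DN ν ζ < 0 < N ζ`).
Uniform: near `ν` on the set `ζ = (1, u)`: `N (1,u) - en - ⟪pn, u⟫ ≥ c |u|²` for `|u| ≤ u0` by Taylor, since `D²N ν (0,u) (0,u) > 0`: `D²(N²) ν (ξ, ξ) = 2 (DN ν ξ)² + 2 N ν D²N ν (ξ,ξ)`, take `ξ = (0,u) - (DN ν (0,u) / N ν) ν`, and `D²N ν ν = 0`; and `eu (1,u) - 1 ≤ |u|²/2`. Away from the ray of `ν`: compact set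
`{eu ζ = 1, |ζ - ν| ≥ r}`, continuity and strict inequality, `t, θ ∈ [0,1]` (all functions are continuous in `(t, θ, ζ)` and have period one in `t`, `θ`). `Qn_low`: `D²N ν (0,w) (0,w) > 0` for `w ≠ 0` as above, compactness of the unit sphere and `t, θ ∈ [0,1]`, `Qn Φ t θ (a • w) = a² Qn` (`Qn_upp`).
-/

noncomputable section

namespace EscW.Fn

open Filter Topology Set EscF.T EscM EscMT MeasureTheory EscW.Ex EscW.Dn EscW.On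
open scoped ContDiff

variable {d m k j n : ℕ}

/-! ### one variable -/

theorem FN2_t2 {g g' g'' : ℝ → ℝ} {κ : ℝ} (h1 : ∀ τ ∈ Icc (0:ℝ) 1, HasDerivAt g (g' τ) τ)
    (h2 : ∀ τ ∈ Icc (0:ℝ) 1, HasDerivAt g' (g'' τ) τ) (h3 : ∀ τ ∈ Icc (0:ℝ) 1, κ ≤ g'' τ) :
    g 0 + g' 0 + κ / 2 ≤ g 1 := by
  have h0 : (0:ℝ) ∈ Icc (0:ℝ) 1 := ⟨le_refl _, zero_le_one⟩
  have h01 : (1:ℝ) ∈ Icc (0:ℝ) 1 := ⟨zero_le_one, le_refl _⟩
  have hd1 : ∀ τ ∈ Icc (0:ℝ) 1, HasDerivAt (fun τ => g' τ - κ * τ) (g'' τ - κ) τ := by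
    intro τ hτ
    have h4 := (h2 τ hτ).fun_sub ((hasDerivAt_id τ).const_mul κ)
    exact h4.congr_deriv (by rw [mul_one])
  have hm1 : MonotoneOn (fun τ => g' τ - κ * τ) (Icc (0:ℝ) 1) := by
    refine monotoneOn_of_deriv_nonneg (convex_Icc 0 1) ?_ ?_ ?_
    · exact fun τ hτ => (hd1 τ hτ).continuousAt.continuousWithinAt
    · exact fun τ hτ => (hd1 τ (interior_subset hτ)).differentiableAt.differentiableWithinAt
    · intro τ hτ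
      rw [(hd1 τ (interior_subset hτ)).deriv]
      linarith [h3 τ (interior_subset hτ)]
  have hd2 : ∀ τ ∈ Icc (0:ℝ) 1, HasDerivAt (fun τ => g τ - g' 0 * τ - κ / 2 * τ ^ 2)
      (g' τ - g' 0 - κ * τ) τ := by
    intro τ hτ
    have h4 := ((h1 τ hτ).fun_sub ((hasDerivAt_id τ).const_mul (g' 0))).fun_sub
      ((hasDerivAt_pow 2 τ).const_mul (κ / 2))
    refine h4.congr_deriv ?_
    simp only [mul_one, Nat.cast_ofNat, Nat.add_one_sub_one, pow_one]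
    ring
  have hm2 : MonotoneOn (fun τ => g τ - g' 0 * τ - κ / 2 * τ ^ 2) (Icc (0:ℝ) 1) := by
    refine monotoneOn_of_deriv_nonneg (convex_Icc 0 1) ?_ ?_ ?_
    · exact fun τ hτ => (hd2 τ hτ).continuousAt.continuousWithinAt
    · exact fun τ hτ => (hd2 τ (interior_subset hτ)).differentiableAt.differentiableWithinAt
    · intro τ hτ
      have hτ' := interior_subset hτ
      rw [(hd2 τ hτ').deriv]
      have h5 := hm1 h0 hτ' hτ'.1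
      simp only [mul_zero, sub_zero] at h5
      linarith
  have h6 := hm2 h0 h01 zero_le_one
  simp only [mul_zero, sub_zero, mul_one, one_pow, ne_eq, OfNat.ofNat_ne_zero, not_false_eq_true,
    zero_pow] at h6
  linarith

section line

variable {E : Type*} [NormedAddCommGroup E] [NormedSpace ℝ E]

theorem FN2_ray (p q : E) (s : ℝ) : HasDerivAt (fun s : ℝ => p + s • q) q s := by
  simpa using ((hasDerivAt_id s).smul_const q).const_add p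

theorem FN2_taylor {F : E → ℝ} {Ω : Set E} (hΩ : IsOpen Ω) (hF : ContDiffOn ℝ 2 F Ω) {p q : E} {κ : ℝ}
    (hseg : ∀ τ ∈ Icc (0:ℝ) 1, p + τ • q ∈ Ω)
    (hk : ∀ τ ∈ Icc (0:ℝ) 1, κ ≤ iteratedFDeriv ℝ 2 F (p + τ • q) ![q, q]) :
    F p + fderiv ℝ F p q + κ / 2 ≤ F (p + q) := by
  have hF' : ContDiffOn ℝ 1 (fderiv ℝ F) Ω := hF.fderiv_of_isOpen hΩ (by norm_num)
  have h1 : ∀ τ ∈ Icc (0:ℝ) 1, HasDerivAt (fun s : ℝ => F (p + s • q)) (fderiv ℝ F (p + τ • q) q) τ := by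
    intro τ hτ
    have h2 : HasFDerivAt F (fderiv ℝ F (p + τ • q)) (p + τ • q) :=
      ((hF.contDiffAt (hΩ.mem_nhds (hseg τ hτ))).differentiableAt (by norm_num)).hasFDerivAt
    exact h2.comp_hasDerivAt τ (FN2_ray p q τ)
  have h2 : ∀ τ ∈ Icc (0:ℝ) 1, HasDerivAt (fun s : ℝ => fderiv ℝ F (p + s • q) q)
      (fderiv ℝ (fderiv ℝ F) (p + τ • q) q q) τ := by
    intro τ hτ
    have h3 : HasFDerivAt (fderiv ℝ F) (fderiv ℝ (fderiv ℝ F) (p + τ • q)) (p + τ • q) :=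
      ((hF'.contDiffAt (hΩ.mem_nhds (hseg τ hτ))).differentiableAt (by norm_num)).hasFDerivAt
    have h4 : HasDerivAt (fun s : ℝ => fderiv ℝ F (p + s • q)) (fderiv ℝ (fderiv ℝ F) (p + τ • q) q) τ :=
      h3.comp_hasDerivAt τ (FN2_ray p q τ)
    have h5 : HasDerivAt (fun s : ℝ => fderiv ℝ F (p + s • q) q)
        (fderiv ℝ (fderiv ℝ F) (p + τ • q) q q + fderiv ℝ F (p + τ • q) 0) τ :=
      h4.clm_apply (hasDerivAt_const τ q)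
    rwa [map_zero, add_zero] at h5
  have h3 := FN2_t2 h1 h2 (κ := κ) (fun τ hτ => by
    have h4 := hk τ hτ
    rw [iteratedFDeriv_two_apply] at h4
    exact h4)
  simpa only [zero_smul, add_zero, one_smul] using h3

/-- the second derivative of a function which is homogeneous of degree two -/
theorem FN2_hom2 {f : E → ℝ} (hf : ∀ (a : ℝ) (x : E), 0 ≤ a → f (a • x) = a ^ 2 * f x) {a : ℝ} (ha : 0 < a)
    (v ξ : E) : iteratedFDeriv ℝ 2 f (a • v) ![ξ, ξ] = iteratedFDeriv ℝ 2 f v ![ξ, ξ] := by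
  have h1 : ∀ x, fderiv ℝ f (a • x) = a • fderiv ℝ f x := by
    intro x
    have h2 : fderiv ℝ (fun y => f (a • y)) x = a • fderiv ℝ f (a • x) := fderiv_comp_smul a
    have h3 : (fun y => f (a • y)) = fun y => (a ^ 2) • f y := by
      funext y
      rw [hf a y ha.le, smul_eq_mul]
    rw [h3] at h2
    have h5 : fderiv ℝ (fun y => (a ^ 2) • f y) x = (a ^ 2) • fderiv ℝ f x :=
      congrFun (fderiv_const_smul_field (f := f) (a ^ 2)) x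
    rw [h5] at h2
    have h4 : a • fderiv ℝ f (a • x) = a • (a • fderiv ℝ f x) := by
      rw [← h2, smul_smul, sq]
    exact smul_right_injective _ ha.ne' h4
  have h2 : fderiv ℝ (fderiv ℝ f) (a • v) = fderiv ℝ (fderiv ℝ f) v := by
    have h3 : fderiv ℝ (fun y => fderiv ℝ f (a • y)) v = a • fderiv ℝ (fderiv ℝ f) (a • v) :=
      fderiv_comp_smul a
    have h4 : (fun y => fderiv ℝ f (a • y)) = fun y => a • fderiv ℝ f y := funext h1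
    rw [h4] at h3
    have h5 : fderiv ℝ (fun y => a • fderiv ℝ f y) v = a • fderiv ℝ (fderiv ℝ f) v :=
      congrFun (fderiv_const_smul_field (f := fderiv ℝ f) a) v
    rw [h5] at h3
    exact (smul_right_injective _ ha.ne' h3).symm
  rw [iteratedFDeriv_two_apply, iteratedFDeriv_two_apply, h2]

end line

/-! ### the metric -/

/-- the domain of the metric -/
def FN2_O (k : ℕ) (r1 : ℝ) : Set (ℝ × (ℝ × Vec k) × (ℝ × Vec k)) := {y | ‖y.2.1.2‖ < r1 ∧ y.2.2 ≠ 0}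

theorem FN2_open (k : ℕ) (r1 : ℝ) : IsOpen (FN2_O k r1) := by
  have h1 : Continuous (fun y : ℝ × (ℝ × Vec k) × (ℝ × Vec k) => ‖y.2.1.2‖) := by fun_prop
  have h2 : Continuous (fun y : ℝ × (ℝ × Vec k) × (ℝ × Vec k) => y.2.2) := by fun_prop
  exact (isOpen_lt h1 continuous_const).inter (isOpen_ne_fun h2 continuous_const)

/-- the square of the metric, as a function of all variables -/
def FN2_F (Φ : ℝ → ℝ × Vec k → ℝ × Vec k → ℝ) (y : ℝ × (ℝ × Vec k) × (ℝ × Vec k)) : ℝ :=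
  Φ y.1 y.2.1 y.2.2 ^ 2

theorem FN2_mem {r1 : ℝ} (t : ℝ) {z v : ℝ × Vec k} (hz : ‖z.2‖ < r1) (hv : v ≠ 0) :
    (t, z, v) ∈ FN2_O k r1 := by
  show ‖z.2‖ < r1 ∧ v ≠ 0
  exact ⟨hz, hv⟩

theorem FN2_Fs {Φ : ℝ → ℝ × Vec k → ℝ × Vec k → ℝ} {r1 : ℝ} (h : LocFin Φ r1) :
    ContDiffOn ℝ 2 (FN2_F Φ) (FN2_O k r1) := by
  have h1 : ContDiffOn ℝ ∞ (FN2_F Φ) (FN2_O k r1) := h.smooth.pow 2
  exact h1.of_le (by norm_cast)

theorem FN2_Fs1 {Φ : ℝ → ℝ × Vec k → ℝ × Vec k → ℝ} {r1 : ℝ} (h : LocFin Φ r1) :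
    ContDiffOn ℝ 1 (fderiv ℝ (FN2_F Φ)) (FN2_O k r1) :=
  (FN2_Fs h).fderiv_of_isOpen (FN2_open k r1) (by norm_num)

theorem FN2_Fd {Φ : ℝ → ℝ × Vec k → ℝ × Vec k → ℝ} {r1 : ℝ} (h : LocFin Φ r1) (t : ℝ) {z v : ℝ × Vec k}
    (hz : ‖z.2‖ < r1) (hv : v ≠ 0) : HasFDerivAt (FN2_F Φ) (fderiv ℝ (FN2_F Φ) (t, z, v)) (t, z, v) := by
  have h1 : ContDiffAt ℝ 2 (FN2_F Φ) (t, z, v) :=
    (FN2_Fs h).contDiffAt ((FN2_open k r1).mem_nhds (FN2_mem t hz hv))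
  exact (h1.differentiableAt (by norm_num)).hasFDerivAt

theorem FN2_Fd1 {Φ : ℝ → ℝ × Vec k → ℝ × Vec k → ℝ} {r1 : ℝ} (h : LocFin Φ r1) (t : ℝ) {z v : ℝ × Vec k}
    (hz : ‖z.2‖ < r1) (hv : v ≠ 0) :
    HasFDerivAt (fderiv ℝ (FN2_F Φ)) (fderiv ℝ (fderiv ℝ (FN2_F Φ)) (t, z, v)) (t, z, v) := by
  have h1 : ContDiffAt ℝ 1 (fderiv ℝ (FN2_F Φ)) (t, z, v) :=
    (FN2_Fs1 h).contDiffAt ((FN2_open k r1).mem_nhds (FN2_mem t hz hv))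
  exact (h1.differentiableAt (by norm_num)).hasFDerivAt

/-- the inclusion of the last variable -/
def FN2_in (k : ℕ) : (ℝ × Vec k) →L[ℝ] ℝ × (ℝ × Vec k) × (ℝ × Vec k) :=
  (ContinuousLinearMap.inr ℝ ℝ ((ℝ × Vec k) × (ℝ × Vec k))).comp
    (ContinuousLinearMap.inr ℝ (ℝ × Vec k) (ℝ × Vec k))

theorem FN2_slice (t : ℝ) (z v : ℝ × Vec k) :
    HasFDerivAt (fun ζ : ℝ × Vec k => (t, z, ζ)) (FN2_in k) v := by
  have h1 := (FN2_in k).hasFDerivAt (x := v) |>.const_add ((t, z, 0) : ℝ × (ℝ × Vec k) × (ℝ × Vec k))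
  refine h1.congr_of_eventuallyEq (Eventually.of_forall fun ζ => ?_)
  show (t, z, ζ) = (t, z, 0) + (0, 0, ζ)
  simp

theorem FN2_d1 {Φ : ℝ → ℝ × Vec k → ℝ × Vec k → ℝ} {r1 : ℝ} (h : LocFin Φ r1) (t : ℝ) {z v : ℝ × Vec k}
    (hz : ‖z.2‖ < r1) (hv : v ≠ 0) :
    HasFDerivAt (fun ζ => Φ t z ζ ^ 2) ((fderiv ℝ (FN2_F Φ) (t, z, v)).comp (FN2_in k)) v := by
  have h1 : HasFDerivAt (FN2_F Φ ∘ fun ζ : ℝ × Vec k => (t, z, ζ))
      ((fderiv ℝ (FN2_F Φ) (t, z, v)).comp (FN2_in k)) v :=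
    HasFDerivAt.comp v (FN2_Fd h t hz hv) (FN2_slice t z v)
  exact h1

theorem FN2_d2 {Φ : ℝ → ℝ × Vec k → ℝ × Vec k → ℝ} {r1 : ℝ} (h : LocFin Φ r1) (t : ℝ) {z v : ℝ × Vec k}
    (hz : ‖z.2‖ < r1) (hv : v ≠ 0) (ξ : ℝ × Vec k) :
    iteratedFDeriv ℝ 2 (fun ζ => Φ t z ζ ^ 2) v ![ξ, ξ] =
      fderiv ℝ (fderiv ℝ (FN2_F Φ)) (t, z, v) (FN2_in k ξ) (FN2_in k ξ) := by
  rw [iteratedFDeriv_two_apply]
  have e : fderiv ℝ (fun ζ => Φ t z ζ ^ 2) =ᶠ[𝓝 v]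
      fun ζ => (fderiv ℝ (FN2_F Φ) (t, z, ζ)).comp (FN2_in k) := by
    filter_upwards [isOpen_ne.mem_nhds hv] with ζ hζ
    exact (FN2_d1 h t hz hζ).fderiv
  rw [e.fderiv_eq]
  have h2 : HasFDerivAt (fderiv ℝ (FN2_F Φ) ∘ fun ζ : ℝ × Vec k => (t, z, ζ))
      ((fderiv ℝ (fderiv ℝ (FN2_F Φ)) (t, z, v)).comp (FN2_in k)) v :=
    HasFDerivAt.comp v (FN2_Fd1 h t hz hv) (FN2_slice t z v)
  have h3 := h2.clm_comp (hasFDerivAt_const (FN2_in k) v)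
  have h4 : (fun ζ => (fderiv ℝ (FN2_F Φ) (t, z, ζ)).comp (FN2_in k)) =
      fun ζ => ((fderiv ℝ (FN2_F Φ) ∘ fun ζ : ℝ × Vec k => (t, z, ζ)) ζ).comp (FN2_in k) := rfl
  rw [h4, h3.fderiv]
  simp

theorem FN2_low {Φ : ℝ → ℝ × Vec k → ℝ × Vec k → ℝ} {r1 : ℝ} (h : LocFin Φ r1) : ∃ m : ℝ, 0 < m ∧
    ∀ (t θ : ℝ) (v ξ : ℝ × Vec k), v ≠ 0 →
      m * ‖ξ‖ ^ 2 ≤ iteratedFDeriv ℝ 2 (fun ζ => Φ t (θ, 0) ζ ^ 2) v ![ξ, ξ] := by
  have hr : ∀ θ : ℝ, ‖((θ, 0) : ℝ × Vec k).2‖ < r1 := fun θ => by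
    simpa using h.pos_r
  have hF'' : ContinuousOn (fderiv ℝ (fderiv ℝ (FN2_F Φ))) (FN2_O k r1) :=
    (FN2_Fs1 h).continuousOn_fderiv_of_isOpen (FN2_open k r1) le_rfl
  have hc : ContinuousOn (fun q : (ℝ × ℝ) × (ℝ × Vec k) × (ℝ × Vec k) =>
      iteratedFDeriv ℝ 2 (fun ζ => Φ q.1.1 (q.1.2, 0) ζ ^ 2) q.2.1 ![q.2.2, q.2.2]) {q | q.2.1 ≠ 0} := by
    have h1 : ContinuousOn (fun q : (ℝ × ℝ) × (ℝ × Vec k) × (ℝ × Vec k) =>
        fderiv ℝ (fderiv ℝ (FN2_F Φ)) (q.1.1, (q.1.2, 0), q.2.1)) {q | q.2.1 ≠ 0} := by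
      refine hF''.comp (by fun_prop) ?_
      intro q hq
      exact ⟨hr _, hq⟩
    have h2 : ContinuousOn (fun q : (ℝ × ℝ) × (ℝ × Vec k) × (ℝ × Vec k) => FN2_in k q.2.2)
        {q | q.2.1 ≠ 0} := by fun_prop
    refine ((h1.clm_apply h2).clm_apply h2).congr ?_
    intro q hq
    exact FN2_d2 h q.1.1 (hr _) hq q.2.2
  have hK : IsCompact ((Icc (0:ℝ) 1 ×ˢ Icc (0:ℝ) 1) ×ˢ
      (Metric.sphere (0 : ℝ × Vec k) 1 ×ˢ Metric.sphere (0 : ℝ × Vec k) 1)) :=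
    (isCompact_Icc.prod isCompact_Icc).prod ((isCompact_sphere _ _).prod (isCompact_sphere _ _))
  have hone : ((1, 0) : ℝ × Vec k) ∈ Metric.sphere (0 : ℝ × Vec k) 1 := by simp [Prod.norm_def]
  have hne : ((Icc (0:ℝ) 1 ×ˢ Icc (0:ℝ) 1) ×ˢ
      (Metric.sphere (0 : ℝ × Vec k) 1 ×ˢ Metric.sphere (0 : ℝ × Vec k) 1)).Nonempty :=
    ⟨((0, 0), ((1, 0), (1, 0))), ⟨⟨by simp, by simp⟩, hone, hone⟩⟩
  have hsph : ∀ v : ℝ × Vec k, v ∈ Metric.sphere (0 : ℝ × Vec k) 1 → v ≠ 0 := by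
    intro v hv h0
    rw [mem_sphere_zero_iff_norm, h0, norm_zero] at hv
    exact zero_ne_one hv
  obtain ⟨q0, hq0, hmin⟩ := hK.exists_isMinOn hne (hc.mono fun q hq => hsph _ hq.2.1)
  have hpos := h.convex q0.1.1 (q0.1.2, 0) q0.2.1 q0.2.2 (hr _) (hsph _ hq0.2.1) (hsph _ hq0.2.2)
  refine ⟨_, hpos, ?_⟩
  intro t θ v ξ hv
  -- periods
  have e1 : Φ t (θ, 0) = Φ (Int.fract t) (Int.fract θ, 0) := by
    have p1 : Function.Periodic (fun t => Φ t (θ, 0)) 1 := fun t => funext fun ζ =>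
      h.per_t t (θ, 0) ζ (hr θ)
    have p2 : Function.Periodic (fun θ => Φ (Int.fract t) (θ, 0)) 1 := fun θ => funext fun ζ =>
      h.per_θ (Int.fract t) θ 0 ζ (by simpa using h.pos_r)
    have h1 := p1.sub_int_mul_eq (x := t) ⌊t⌋
    have h2 := p2.sub_int_mul_eq (x := θ) ⌊θ⌋
    simp only [mul_one] at h1 h2
    have h3 : t - (⌊t⌋ : ℝ) = Int.fract t := rfl
    have h4 : θ - (⌊θ⌋ : ℝ) = Int.fract θ := rfl
    rw [h3] at h1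
    rw [h4] at h2
    rw [← h1, ← h2]
  rw [e1]
  by_cases hξ : ξ = 0
  · rw [hξ, norm_zero]
    have h0 : (![0, 0] : Fin 2 → ℝ × Vec k) = 0 := by
      funext i
      fin_cases i <;> rfl
    rw [h0, ContinuousMultilinearMap.map_zero]
    simp
  have hnv : 0 < ‖v‖ := norm_pos_iff.2 hv
  have hnξ : 0 < ‖ξ‖ := norm_pos_iff.2 hξ
  have h1 := hmin (a := ((Int.fract t, Int.fract θ), (‖v‖⁻¹ • v, ‖ξ‖⁻¹ • ξ))) ⟨⟨⟨Int.fract_nonneg _, (Int.fract_lt_one _).le⟩,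
    ⟨Int.fract_nonneg _, (Int.fract_lt_one _).le⟩⟩, ⟨by
      rw [mem_sphere_zero_iff_norm, norm_smul, norm_inv, norm_norm, inv_mul_cancel₀ hnv.ne'], by
      rw [mem_sphere_zero_iff_norm, norm_smul, norm_inv, norm_norm, inv_mul_cancel₀ hnξ.ne']⟩⟩
  have hhom : ∀ (a : ℝ) (x : ℝ × Vec k), 0 ≤ a →
      Φ (Int.fract t) (Int.fract θ, 0) (a • x) ^ 2 = a ^ 2 * Φ (Int.fract t) (Int.fract θ, 0) x ^ 2 := by
    intro a x ha
    rw [h.hom _ _ _ _ (hr _) ha, mul_pow]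
  have h2 := FN2_hom2 (f := fun ζ => Φ (Int.fract t) (Int.fract θ, 0) ζ ^ 2) hhom (inv_pos.2 hnv) v
    (‖ξ‖⁻¹ • ξ)
  have h3 : iteratedFDeriv ℝ 2 (fun ζ => Φ q0.1.1 (q0.1.2, 0) ζ ^ 2) q0.2.1 ![q0.2.2, q0.2.2] ≤
      iteratedFDeriv ℝ 2 (fun ζ => Φ (Int.fract t) (Int.fract θ, 0) ζ ^ 2) v ![‖ξ‖⁻¹ • ξ, ‖ξ‖⁻¹ • ξ] := by
    rw [← h2]
    exact h1
  have h4 : iteratedFDeriv ℝ 2 (fun ζ => Φ (Int.fract t) (Int.fract θ, 0) ζ ^ 2) v ![‖ξ‖⁻¹ • ξ, ‖ξ‖⁻¹ • ξ] =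
      (‖ξ‖⁻¹) ^ 2 * iteratedFDeriv ℝ 2 (fun ζ => Φ (Int.fract t) (Int.fract θ, 0) ζ ^ 2) v ![ξ, ξ] := by
    rw [iteratedFDeriv_two_apply, iteratedFDeriv_two_apply]
    simp only [Matrix.cons_val_zero, Matrix.cons_val_one, map_smul, _root_.smul_apply,
      smul_eq_mul]
    ring
  rw [h4] at h3
  calc _ ≤ (‖ξ‖⁻¹) ^ 2 * iteratedFDeriv ℝ 2 (fun ζ => Φ (Int.fract t) (Int.fract θ, 0) ζ ^ 2) v ![ξ, ξ] *
        ‖ξ‖ ^ 2 := mul_le_mul_of_nonneg_right h3 (sq_nonneg _)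
    _ = _ := by field_simp

theorem FN2_sq_ge (ζ : ℝ × Vec k) : 2 * (eu ζ - ζ.1) ≤ (ζ.1 - 1) ^ 2 + ‖ζ.2‖ ^ 2 := by
  have h1 : eu ζ ^ 2 = ζ.1 ^ 2 + ‖ζ.2‖ ^ 2 := Real.sq_sqrt (by positivity)
  nlinarith [sq_nonneg (eu ζ - 1)]

theorem FN2_sum_le (ξ : ℝ × Vec k) : ξ.1 ^ 2 + ‖ξ.2‖ ^ 2 ≤ 2 * ‖ξ‖ ^ 2 := by
  have h1 : |ξ.1| ≤ ‖ξ‖ := norm_fst_le ξ
  have h2 : ‖ξ.2‖ ≤ ‖ξ‖ := norm_snd_le ξ
  have h3 : ξ.1 ^ 2 ≤ ‖ξ‖ ^ 2 := by
    rw [← sq_abs]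
    exact pow_le_pow_left₀ (abs_nonneg _) h1 2
  have h4 : ‖ξ.2‖ ^ 2 ≤ ‖ξ‖ ^ 2 := pow_le_pow_left₀ (norm_nonneg _) h2 2
  linarith

/-- the derivative of the square of the metric at the vector `(1, 0)` -/
theorem FN2_dnu {Φ : ℝ → ℝ × Vec k → ℝ × Vec k → ℝ} {r1 : ℝ} (h : LocFin Φ r1) (t θ : ℝ) (ζ : ℝ × Vec k) :
    fderiv ℝ (fun ζ => Φ t (θ, 0) ζ ^ 2) (1, 0) ζ =
      2 * en Φ t θ * (en Φ t θ * ζ.1 + inner ℝ (pn Φ t θ) ζ.2) := by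
  have hr : ‖((θ, 0) : ℝ × Vec k).2‖ < r1 := by simpa using h.pos_r
  have hν : ((1, 0) : ℝ × Vec k) ≠ 0 := fun h0 => one_ne_zero (congrArg Prod.fst h0)
  -- the metric of all variables
  have hd : DifferentiableAt ℝ (fun y : ℝ × (ℝ × Vec k) × (ℝ × Vec k) => Φ y.1 y.2.1 y.2.2)
      (t, (θ, 0), (1, 0)) := by
    have h1 := h.smooth.contDiffAt ((FN2_open k r1).mem_nhds (FN2_mem t hr hν))
    exact h1.differentiableAt (by simp)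
  have hN : DifferentiableAt ℝ (fun ζ => Φ t (θ, 0) ζ) (1, 0) := by
    have h1 : DifferentiableAt ℝ ((fun y : ℝ × (ℝ × Vec k) × (ℝ × Vec k) => Φ y.1 y.2.1 y.2.2) ∘
        fun ζ : ℝ × Vec k => (t, ((θ, 0) : ℝ × Vec k), ζ)) (1, 0) :=
      DifferentiableAt.comp _ hd (FN2_slice t (θ, 0) (1, 0)).differentiableAt
    exact h1
  have h2 : fderiv ℝ (fun ζ => Φ t (θ, 0) ζ ^ 2) (1, 0) ζ =
      2 * en Φ t θ * fderiv ℝ (fun ζ => Φ t (θ, 0) ζ) (1, 0) ζ := by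
    have h3 := (hN.hasFDerivAt.pow 2).fderiv
    rw [h3]
    simp [en]
  have e1 : fderiv ℝ (fun ζ => Φ t (θ, 0) ζ) (1, 0) (1, 0) = en Φ t θ := by
    have h3 : HasDerivAt (fun s : ℝ => Φ t (θ, 0) ((1, 0) + s • ((1, 0) : ℝ × Vec k)))
        (fderiv ℝ (fun ζ => Φ t (θ, 0) ζ) ((1, 0) + (0:ℝ) • ((1, 0) : ℝ × Vec k)) (1, 0)) 0 := by
      have h4 : HasFDerivAt (fun ζ => Φ t (θ, 0) ζ)
          (fderiv ℝ (fun ζ => Φ t (θ, 0) ζ) ((1, 0) + (0:ℝ) • ((1, 0) : ℝ × Vec k)))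
          ((1, 0) + (0:ℝ) • ((1, 0) : ℝ × Vec k)) := by
        rw [zero_smul, add_zero]
        exact hN.hasFDerivAt
      exact h4.comp_hasDerivAt 0 (FN2_ray _ _ 0)
    have h4 : HasDerivAt (fun s : ℝ => (1 + s) * en Φ t θ) (en Φ t θ) 0 := by
      simpa using ((hasDerivAt_id (0:ℝ)).const_add 1).mul_const (en Φ t θ)
    have h5 : HasDerivAt (fun s : ℝ => Φ t (θ, 0) ((1, 0) + s • ((1, 0) : ℝ × Vec k))) (en Φ t θ) 0 := by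
      refine h4.congr_of_eventuallyEq ?_
      filter_upwards [isOpen_Ioi.mem_nhds (show (0:ℝ) ∈ Ioi (-1) by simp)] with s hs
      have hs' : (0:ℝ) ≤ 1 + s := by
        have : -1 < s := hs
        linarith
      have h6 : ((1, 0) : ℝ × Vec k) + s • ((1, 0) : ℝ × Vec k) = (1 + s) • (1, 0) := by
        rw [add_smul, one_smul]
      rw [h6, h.hom t _ _ _ hr hs']
      rfl
    have h6 := h3.unique h5
    rwa [zero_smul, add_zero] at h6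
  have e2 : ∀ v : Vec k, fderiv ℝ (fun ζ => Φ t (θ, 0) ζ) (1, 0) (0, v) = inner ℝ (pn Φ t θ) v := by
    intro v
    have h3 : HasDerivAt (fun s : ℝ => Φ t (θ, 0) ((1, 0) + s • ((0, v) : ℝ × Vec k)))
        (fderiv ℝ (fun ζ => Φ t (θ, 0) ζ) ((1, 0) + (0:ℝ) • ((0, v) : ℝ × Vec k)) (0, v)) 0 := by
      have h4 : HasFDerivAt (fun ζ => Φ t (θ, 0) ζ)
          (fderiv ℝ (fun ζ => Φ t (θ, 0) ζ) ((1, 0) + (0:ℝ) • ((0, v) : ℝ × Vec k)))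
          ((1, 0) + (0:ℝ) • ((0, v) : ℝ × Vec k)) := by
        rw [zero_smul, add_zero]
        exact hN.hasFDerivAt
      exact h4.comp_hasDerivAt 0 (FN2_ray _ _ 0)
    have hlg : DifferentiableAt ℝ (lg (Φ t)) (θ, 0, 0) := by
      have h4 : DifferentiableAt ℝ ((fun y : ℝ × (ℝ × Vec k) × (ℝ × Vec k) => Φ y.1 y.2.1 y.2.2) ∘
          fun y : ℝ × Vec k × Vec k => (t, (y.1, y.2.1), ((1:ℝ), y.2.2))) (θ, 0, 0) :=
        DifferentiableAt.comp _ hd (by fun_prop)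
      exact h4
    have h5 : HasDerivAt (fun s : ℝ => lg (Φ t) ((θ, 0, 0) + s • ((0, 0, v) : ℝ × Vec k × Vec k)))
        (fderiv ℝ (lg (Φ t)) ((θ, 0, 0) + (0:ℝ) • ((0, 0, v) : ℝ × Vec k × Vec k)) (0, 0, v)) 0 := by
      have h4 : HasFDerivAt (lg (Φ t))
          (fderiv ℝ (lg (Φ t)) ((θ, 0, 0) + (0:ℝ) • ((0, 0, v) : ℝ × Vec k × Vec k)))
          ((θ, 0, 0) + (0:ℝ) • ((0, 0, v) : ℝ × Vec k × Vec k)) := by
        rw [zero_smul, add_zero]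
        exact hlg.hasFDerivAt
      exact h4.comp_hasDerivAt 0 (FN2_ray _ _ 0)
    have h6 : (fun s : ℝ => lg (Φ t) ((θ, 0, 0) + s • ((0, 0, v) : ℝ × Vec k × Vec k))) =
        fun s : ℝ => Φ t (θ, 0) ((1, 0) + s • ((0, v) : ℝ × Vec k)) := by
      funext s
      show Φ t (θ + s • 0, 0 + s • 0) (1, 0 + s • v) = Φ t (θ, 0) (1 + s • 0, 0 + s • v)
      simp
    rw [h6] at h5
    have h7 := h3.unique h5
    rw [zero_smul, zero_smul, add_zero, add_zero] at h7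
    rw [h7]
    exact (gu_inner (lg (Φ t)) (θ, 0, 0) v).symm
  rw [h2]
  have h3 : ζ = ζ.1 • ((1, 0) : ℝ × Vec k) + (0, ζ.2) := by
    refine Prod.ext ?_ ?_ <;> simp
  have h4 : fderiv ℝ (fun ζ => Φ t (θ, 0) ζ) (1, 0) ζ = en Φ t θ * ζ.1 + inner ℝ (pn Φ t θ) ζ.2 := by
    conv_lhs => rw [h3]
    rw [map_add, map_smul, e1, e2, smul_eq_mul, mul_comm]
  rw [h4]

/-- the case `N ζ = N ν` -/
theorem FN2_norm {Φ : ℝ → ℝ × Vec k → ℝ × Vec k → ℝ} {r1 : ℝ} (h : LocFin Φ r1) {m : ℝ} (hm : 0 < m)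
    (hlow : ∀ (t θ : ℝ) (v ξ : ℝ × Vec k), v ≠ 0 →
      m * ‖ξ‖ ^ 2 ≤ iteratedFDeriv ℝ 2 (fun ζ => Φ t (θ, 0) ζ ^ 2) v ![ξ, ξ]) (t θ : ℝ) (ζ : ℝ × Vec k)
    (hN : Φ t (θ, 0) ζ = en Φ t θ) (hray : ζ.2 ≠ 0 ∨ 0 < ζ.1) :
    m / 2 * (eu ζ - ζ.1) ≤ 2 * en Φ t θ * (Φ t (θ, 0) ζ - (en Φ t θ * ζ.1 + inner ℝ (pn Φ t θ) ζ.2)) := by
  have hr : ‖((θ, 0) : ℝ × Vec k).2‖ < r1 := by simpa using h.pos_r
  have hsm : ContDiffOn ℝ 2 (fun ζ => Φ t (θ, 0) ζ ^ 2) {0}ᶜ := by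
    intro v hv
    have h1 : ContDiffAt ℝ 2 (FN2_F Φ) (t, (θ, 0), v) :=
      (FN2_Fs h).contDiffAt ((FN2_open k r1).mem_nhds (FN2_mem t hr hv))
    have h2 : ContDiffAt ℝ 2 (FN2_F Φ ∘ fun ζ : ℝ × Vec k => (t, ((θ, 0) : ℝ × Vec k), ζ)) v :=
      ContDiffAt.comp v h1 (by fun_prop)
    exact h2.contDiffWithinAt
  have hseg : ∀ τ ∈ Icc (0:ℝ) 1, ((1, 0) : ℝ × Vec k) + τ • (ζ - (1, 0)) ∈ ({0}ᶜ : Set (ℝ × Vec k)) := by
    intro τ hτ h0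
    have h0 : ((1, 0) : ℝ × Vec k) + τ • (ζ - (1, 0)) = 0 := h0
    have h1 : 1 + τ * (ζ.1 - 1) = 0 := congrArg Prod.fst h0
    have h2 : (0 : Vec k) + τ • (ζ.2 - 0) = 0 := congrArg Prod.snd h0
    rw [zero_add, sub_zero] at h2
    have hτ0 : 0 < τ := by
      rcases hτ.1.eq_or_lt with h3 | h3
      · rw [← h3] at h1
        norm_num at h1
      · exact h3
    rcases hray with h3 | h3
    · exact h3 ((smul_eq_zero.1 h2).resolve_left hτ0.ne')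
    · nlinarith [hτ.2, mul_pos hτ0 h3]
  have h1 := FN2_taylor isOpen_compl_singleton hsm hseg (κ := m * ‖ζ - ((1, 0) : ℝ × Vec k)‖ ^ 2)
    (fun τ hτ => hlow t θ _ _ (hseg τ hτ))
  have e1 : ((1, 0) : ℝ × Vec k) + (ζ - (1, 0)) = ζ := by abel
  rw [e1, FN2_dnu h] at h1
  have e2 : Φ t (θ, 0) (1, 0) = en Φ t θ := rfl
  simp only [e2, hN] at h1
  have h3 := FN2_sum_le (ζ - ((1, 0) : ℝ × Vec k))
  have h4 := FN2_sq_ge ζ
  have e3 : (ζ - ((1, 0) : ℝ × Vec k)).1 = ζ.1 - 1 := rfl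
  have e4 : (ζ - ((1, 0) : ℝ × Vec k)).2 = ζ.2 := by
    show ζ.2 - 0 = ζ.2
    rw [sub_zero]
  rw [e3, e4] at h3 h1
  rw [hN]
  have h5 : eu ζ - ζ.1 ≤ ‖ζ - ((1, 0) : ℝ × Vec k)‖ ^ 2 := by linarith
  have h6 : m / 2 * (eu ζ - ζ.1) ≤ m / 2 * ‖ζ - ((1, 0) : ℝ × Vec k)‖ ^ 2 :=
    mul_le_mul_of_nonneg_left h5 (by positivity)
  nlinarith

theorem low_conv {Φ : ℝ → ℝ × Vec k → ℝ × Vec k → ℝ} {r1 : ℝ} (h : LocFin Φ r1) : ∃ c : ℝ, 0 < c ∧ ∀ (t θ : ℝ) (ζ : ℝ × Vec k),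
    c * (eu ζ - ζ.1) ≤ Φ t (θ, 0) ζ - (en Φ t θ * ζ.1 + inner ℝ (pn Φ t θ) ζ.2) := by
  obtain ⟨m, hm, hlow⟩ := FN2_low h
  obtain ⟨c, C, hc, hC, hb, -⟩ := bounds h
  refine ⟨min (m / (4 * C)) (c / 2), lt_min (by positivity) (by positivity), ?_⟩
  intro t θ ζ
  have hr : ‖((θ, 0) : ℝ × Vec k).2‖ < r1 := by simpa using h.pos_r
  obtain ⟨hen, hen', -⟩ := hb t θ
  have hen0 : 0 < en Φ t θ := lt_of_lt_of_le hc hen
  have heu := (eu_facts ζ).2.2.2.2.2.1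
  by_cases hray : ζ.2 = 0 ∧ ζ.1 ≤ 0
  · -- the opposite ray
    have h1 : eu ζ = -ζ.1 := by
      unfold eu
      rw [hray.1, norm_zero, zero_pow two_ne_zero, add_zero, Real.sqrt_sq_eq_abs, abs_of_nonpos hray.2]
    have h2 : 0 ≤ Φ t (θ, 0) ζ := by
      by_cases h0 : ζ = 0
      · have h3 := h.hom t (θ, 0) ζ 0 hr le_rfl
        rw [zero_smul, zero_mul] at h3
        rw [h0, h3]
      · exact (h.pos t (θ, 0) ζ hr h0).le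
    rw [hray.1, inner_zero_right, add_zero]
    calc min (m / (4 * C)) (c / 2) * (eu ζ - ζ.1) ≤ c / 2 * (eu ζ - ζ.1) :=
          mul_le_mul_of_nonneg_right (min_le_right _ _) heu
      _ = c * (-ζ.1) := by rw [h1]; ring
      _ ≤ en Φ t θ * (-ζ.1) := mul_le_mul_of_nonneg_right hen (by linarith [hray.2])
      _ ≤ _ := by linarith
  · have h0 : ζ ≠ 0 := by
      intro h0
      exact hray ⟨by rw [h0]; rfl, by rw [h0]; exact le_rfl⟩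
    have hN := h.pos t (θ, 0) ζ hr h0
    have hb0 : 0 < en Φ t θ / Φ t (θ, 0) ζ := div_pos hen0 hN
    have hray' : ζ.2 ≠ 0 ∨ 0 < ζ.1 := by
      by_contra h1
      rw [not_or, not_not, not_lt] at h1
      exact hray h1
    have h1 := FN2_norm h hm hlow t θ ((en Φ t θ / Φ t (θ, 0) ζ) • ζ) (by
      rw [h.hom t _ _ _ hr hb0.le, div_mul_cancel₀ _ hN.ne']) (by
      rcases hray' with h2 | h2
      · exact Or.inl (smul_ne_zero hb0.ne' h2)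
      · exact Or.inr (mul_pos hb0 h2))
    rw [(eu_facts ζ).2.2.2.2.2.2.2.2 _ hb0.le, h.hom t _ _ _ hr hb0.le] at h1
    have e1 : ((en Φ t θ / Φ t (θ, 0) ζ) • ζ).1 = en Φ t θ / Φ t (θ, 0) ζ * ζ.1 := rfl
    have e2 : ((en Φ t θ / Φ t (θ, 0) ζ) • ζ).2 = (en Φ t θ / Φ t (θ, 0) ζ) • ζ.2 := rfl
    rw [e1, e2, inner_smul_right] at h1
    set b := en Φ t θ / Φ t (θ, 0) ζ with hbdef
    set X := Φ t (θ, 0) ζ - (en Φ t θ * ζ.1 + inner ℝ (pn Φ t θ) ζ.2) with hX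
    have h2 : b * (m / 2 * (eu ζ - ζ.1)) ≤ b * (2 * en Φ t θ * X) := by
      rw [hX]
      linarith
    have h3 : m / 2 * (eu ζ - ζ.1) ≤ 2 * en Φ t θ * X := le_of_mul_le_mul_left h2 hb0
    have hX0 : 0 ≤ X := by
      have h4 : 0 ≤ m / 2 * (eu ζ - ζ.1) := mul_nonneg (by positivity) heu
      by_contra h5
      rw [not_le] at h5
      have h6 : 2 * en Φ t θ * X < 0 := mul_neg_of_pos_of_neg (by positivity) h5
      linarith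
    have h4 : m / 2 * (eu ζ - ζ.1) ≤ 2 * C * X :=
      h3.trans (mul_le_mul_of_nonneg_right (by linarith) hX0)
    calc min (m / (4 * C)) (c / 2) * (eu ζ - ζ.1) ≤ m / (4 * C) * (eu ζ - ζ.1) :=
          mul_le_mul_of_nonneg_right (min_le_left _ _) heu
      _ = (m / 2 * (eu ζ - ζ.1)) / (2 * C) := by field_simp; ring
      _ ≤ (2 * C * X) / (2 * C) := div_le_div_of_nonneg_right h4 (by positivity)
      _ = X := by field_simp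

/-! ### the second derivative -/

/-- second derivative test -/
theorem FN2_test {F F' : ℝ → ℝ} {q κ K : ℝ} (h1 : ∀ s, HasDerivAt F (F' s) s) (h2 : HasDerivAt F' q 0)
    (h3 : ∀ s, F 0 + F' 0 * s + κ / 2 * s ^ 2 - K * s ^ 4 ≤ F s) : κ ≤ q := by
  by_contra hlt
  rw [not_le] at hlt
  have hg : ∀ s, HasDerivAt (fun s => F s - F' 0 * s - κ / 2 * s ^ 2 + K * s ^ 4)
      (F' s - F' 0 - κ * s + 4 * K * s ^ 3) s := by
    intro s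
    have h4 := (((h1 s).fun_sub ((hasDerivAt_id s).const_mul (F' 0))).fun_sub
      ((hasDerivAt_pow 2 s).const_mul (κ / 2))).fun_add ((hasDerivAt_pow 4 s).const_mul K)
    refine h4.congr_deriv ?_
    simp only [mul_one, Nat.cast_ofNat, Nat.add_one_sub_one, pow_one]
    ring
  have hg' : HasDerivAt (fun s => F' s - F' 0 - κ * s + 4 * K * s ^ 3) (q - κ) 0 := by
    have h4 := (((h2.fun_sub (hasDerivAt_const (0:ℝ) (F' 0))).fun_sub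
      ((hasDerivAt_id (0:ℝ)).const_mul κ))).fun_add ((hasDerivAt_pow 3 (0:ℝ)).const_mul (4 * K))
    refine h4.congr_deriv ?_
    norm_num
  have h4 := hg'.tendsto_slope_zero_right
  have h5 : ∀ᶠ s in 𝓝[>] (0:ℝ), F' s - F' 0 - κ * s + 4 * K * s ^ 3 < 0 := by
    have h6 := h4.eventually_lt_const (u := 0) (by linarith)
    filter_upwards [h6, self_mem_nhdsWithin] with s hs hs0
    have hs0 : 0 < s := hs0
    simp only [zero_add, sub_self, mul_zero, ne_eq, OfNat.ofNat_ne_zero, not_false_eq_true, zero_pow,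
      add_zero, sub_zero, smul_eq_mul] at hs
    by_contra h7
    rw [not_lt] at h7
    have h8 := mul_nonneg (inv_pos.2 hs0).le h7
    linarith
  obtain ⟨δ, hδ, hsub⟩ := mem_nhdsGT_iff_exists_Ioo_subset.1 h5
  have hδ : 0 < δ := hδ
  obtain ⟨x, hx, hxe⟩ := exists_hasDerivAt_eq_slope (fun s => F s - F' 0 * s - κ / 2 * s ^ 2 + K * s ^ 4)
    (fun s => F' s - F' 0 - κ * s + 4 * K * s ^ 3) (a := 0) (b := δ / 2) (by linarith)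
    (fun s _ => (hg s).continuousAt.continuousWithinAt) (fun s _ => hg s)
  have h6 : F' x - F' 0 - κ * x + 4 * K * x ^ 3 < 0 := hsub ⟨hx.1, by linarith [hx.2]⟩
  have h7 := h3 (δ / 2)
  have h8 : 0 ≤ ((fun s => F s - F' 0 * s - κ / 2 * s ^ 2 + K * s ^ 4) (δ / 2) -
      (fun s => F s - F' 0 * s - κ / 2 * s ^ 2 + K * s ^ 4) 0) / (δ / 2 - 0) := by
    refine div_nonneg ?_ (by linarith)
    simp only [mul_zero, ne_eq, OfNat.ofNat_ne_zero, not_false_eq_true, zero_pow, sub_zero, add_zero]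
    linarith
  rw [← hxe] at h8
  linarith

theorem FN2_sqrt {x : ℝ} (hx : 0 ≤ x) : x / 2 - x ^ 2 / 8 ≤ √(1 + x) - 1 := by
  have h1 : √(1 + x) ^ 2 = 1 + x := Real.sq_sqrt (by linarith)
  have h2 : 1 ≤ √(1 + x) := Real.one_le_sqrt.2 (by linarith)
  have h3 : x = √(1 + x) ^ 2 - 1 := by linarith
  set r := √(1 + x) with hr
  rw [h3]
  have h4 : 0 ≤ (r - 1) ^ 2 * ((r + 1) ^ 2 - 4) := mul_nonneg (sq_nonneg _) (by nlinarith)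
  nlinarith

theorem FN2_lgs {Φ : ℝ → ℝ × Vec k → ℝ × Vec k → ℝ} {r1 : ℝ} (h : LocFin Φ r1) (t θ : ℝ) (u : Vec k) :
    ContDiffAt ℝ 2 (lg (Φ t)) (θ, 0, u) := by
  have hr : ‖((θ, 0) : ℝ × Vec k).2‖ < r1 := by simpa using h.pos_r
  have hν : ((1, u) : ℝ × Vec k) ≠ 0 := fun h0 => one_ne_zero (congrArg Prod.fst h0)
  have h1 : ContDiffAt ℝ ∞ (fun y : ℝ × (ℝ × Vec k) × (ℝ × Vec k) => Φ y.1 y.2.1 y.2.2)
      (t, (θ, 0), (1, u)) := h.smooth.contDiffAt ((FN2_open k r1).mem_nhds (FN2_mem t hr hν))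
  have h2 : ContDiffAt ℝ 2 (fun y : ℝ × (ℝ × Vec k) × (ℝ × Vec k) => Φ y.1 y.2.1 y.2.2)
      (t, (θ, 0), (1, u)) := h1.of_le (by norm_cast)
  have h3 : ContDiffAt ℝ 2 ((fun y : ℝ × (ℝ × Vec k) × (ℝ × Vec k) => Φ y.1 y.2.1 y.2.2) ∘
      fun y : ℝ × Vec k × Vec k => (t, (y.1, y.2.1), ((1:ℝ), y.2.2))) (θ, 0, u) :=
    ContDiffAt.comp _ h2 (by fun_prop)
  exact h3

theorem Qn_low {Φ : ℝ → ℝ × Vec k → ℝ × Vec k → ℝ} {r1 : ℝ} (h : LocFin Φ r1) : ∃ c : ℝ, 0 < c ∧ ∀ (t θ : ℝ) (w : Vec k), c * ‖w‖ ^ 2 ≤ Qn Φ t θ w := by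
  obtain ⟨c, hc, hlow⟩ := low_conv h
  obtain ⟨c', C, hc', hC, hb, -⟩ := bounds h
  refine ⟨C⁻¹ * c, by positivity, ?_⟩
  intro t θ w
  obtain ⟨hen, hen', -⟩ := hb t θ
  have hen0 : 0 < en Φ t θ := lt_of_lt_of_le hc' hen
  have hline : ∀ s : ℝ, ((θ, 0, 0) : ℝ × Vec k × Vec k) + s • (0, 0, w) = (θ, 0, s • w) := by
    intro s
    refine Prod.ext ?_ (Prod.ext ?_ ?_) <;> simp
  have h1 : ∀ s : ℝ, HasDerivAt (fun s : ℝ => lg (Φ t) (((θ, 0, 0) : ℝ × Vec k × Vec k) + s • (0, 0, w)))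
      (fderiv ℝ (lg (Φ t)) (((θ, 0, 0) : ℝ × Vec k × Vec k) + s • (0, 0, w)) (0, 0, w)) s := by
    intro s
    have h4 : HasFDerivAt (lg (Φ t)) (fderiv ℝ (lg (Φ t)) (((θ, 0, 0) : ℝ × Vec k × Vec k) + s • (0, 0, w)))
        (((θ, 0, 0) : ℝ × Vec k × Vec k) + s • (0, 0, w)) := by
      rw [hline s]
      exact ((FN2_lgs h t θ (s • w)).differentiableAt (by norm_num)).hasFDerivAt
    exact h4.comp_hasDerivAt s (FN2_ray _ _ s)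
  have h2 : HasDerivAt (fun s : ℝ => fderiv ℝ (lg (Φ t)) (((θ, 0, 0) : ℝ × Vec k × Vec k) + s • (0, 0, w)) (0, 0, w))
      (fderiv ℝ (fderiv ℝ (lg (Φ t))) (θ, 0, 0) (0, 0, w) (0, 0, w)) 0 := by
    have h4 : HasFDerivAt (fderiv ℝ (lg (Φ t))) (fderiv ℝ (fderiv ℝ (lg (Φ t))) (θ, 0, 0))
        (((θ, 0, 0) : ℝ × Vec k × Vec k) + (0:ℝ) • (0, 0, w)) := by
      rw [zero_smul, add_zero]
      have h5 : ContDiffAt ℝ 1 (fderiv ℝ (lg (Φ t))) (θ, 0, 0) :=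
        (FN2_lgs h t θ 0).fderiv_right (by norm_num)
      exact (h5.differentiableAt (by norm_num)).hasFDerivAt
    have h6 : HasDerivAt (fun s : ℝ => fderiv ℝ (lg (Φ t)) (((θ, 0, 0) : ℝ × Vec k × Vec k) + s • (0, 0, w)))
        (fderiv ℝ (fderiv ℝ (lg (Φ t))) (θ, 0, 0) (0, 0, w)) 0 := h4.comp_hasDerivAt 0 (FN2_ray _ _ 0)
    have h7 := h6.clm_apply (hasDerivAt_const (0:ℝ) ((0, 0, w) : ℝ × Vec k × Vec k))
    simpa only [map_zero, add_zero] using h7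
  have e0 : lg (Φ t) (((θ, 0, 0) : ℝ × Vec k × Vec k) + (0:ℝ) • (0, 0, w)) = en Φ t θ := by
    rw [zero_smul, add_zero]
    rfl
  have e1 : fderiv ℝ (lg (Φ t)) (((θ, 0, 0) : ℝ × Vec k × Vec k) + (0:ℝ) • (0, 0, w)) (0, 0, w) =
      inner ℝ (pn Φ t θ) w := by
    rw [zero_smul, add_zero]
    exact (gu_inner (lg (Φ t)) (θ, 0, 0) w).symm
  have h3 := FN2_test (κ := c * ‖w‖ ^ 2) (K := c * ‖w‖ ^ 4 / 8) h1 h2 (by
    intro s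
    rw [e0, e1, hline s]
    have h4 := hlow t θ (1, s • w)
    have h5 : eu ((1, s • w) : ℝ × Vec k) = √(1 + s ^ 2 * ‖w‖ ^ 2) := by
      unfold eu
      rw [norm_smul, mul_pow, Real.norm_eq_abs, sq_abs, one_pow]
    have h6 := FN2_sqrt (x := s ^ 2 * ‖w‖ ^ 2) (by positivity)
    have h7 : lg (Φ t) (θ, 0, s • w) = Φ t (θ, 0) (1, s • w) := rfl
    have h8 : inner ℝ (pn Φ t θ) ((1, s • w) : ℝ × Vec k).2 = s * inner ℝ (pn Φ t θ) w := by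
      rw [← real_inner_smul_right]
    rw [h8, h5] at h4
    rw [h7]
    have h9 := mul_le_mul_of_nonneg_left h6 hc.le
    have e3 : ((1, s • w) : ℝ × Vec k).1 = 1 := rfl
    rw [e3] at h4
    nlinarith)
  have h4 : Qn Φ t θ w = (en Φ t θ)⁻¹ * fderiv ℝ (fderiv ℝ (lg (Φ t))) (θ, 0, 0) (0, 0, w) (0, 0, w) := rfl
  rw [h4]
  have h5 : C⁻¹ ≤ (en Φ t θ)⁻¹ := inv_anti₀ hen0 hen'
  calc C⁻¹ * c * ‖w‖ ^ 2 = C⁻¹ * (c * ‖w‖ ^ 2) := by ring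
    _ ≤ (en Φ t θ)⁻¹ * (c * ‖w‖ ^ 2) := mul_le_mul_of_nonneg_right h5 (by positivity)
    _ ≤ _ := mul_le_mul_of_nonneg_left h3 (inv_pos.2 hen0).le

end EscW.Fn
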