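import Pool.Agent.EscW.FN1

set_option autoImplicit false

/-!
Project EscW, part FN, module FN3: Taylor expansions.
All derivatives of `Φ` in `(w, ζ)` of order `≤ 2` are bounded for `‖w‖ ≤ r1/2`, `eu ζ = 1` (compactness, periods), and
homogeneous in `ζ`.
-/

noncomputable section

namespace EscW.Fn

open Filter Topology Set EscF.T EscM EscMT MeasureTheory EscW.Ex EscW.Dn EscW.On
open scoped ContDiff

variable {d m k j n : ℕ}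

/-! ### general facts -/

theorem FN3_taylor {E : Type*} [NormedAddCommGroup E] [NormedSpace ℝ E] {f : E → ℝ} {D : Set E}
    (hD : IsOpen D) (hf : ContDiffOn ℝ 2 f D) {x v : E} {B : ℝ}
    (hseg : segment ℝ x (x + v) ⊆ D)
    (hB : ∀ y ∈ segment ℝ x (x + v), ‖fderiv ℝ (fderiv ℝ f) y‖ ≤ B) :
    |f (x + v) - f x - fderiv ℝ f x v| ≤ B * ‖v‖ ^ 2 := by
  have hd : ContDiffOn ℝ 1 (fderiv ℝ f) D := hf.fderiv_of_isOpen hD (by norm_num)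
  have hx : x ∈ segment ℝ x (x + v) := left_mem_segment ℝ _ _
  have hy : x + v ∈ segment ℝ x (x + v) := right_mem_segment ℝ _ _
  have hB0 : 0 ≤ B := le_trans (norm_nonneg (fderiv ℝ (fderiv ℝ f) x)) (hB x hx)
  have h1 : ∀ y ∈ segment ℝ x (x + v), ‖fderiv ℝ f y - fderiv ℝ f x‖ ≤ B * ‖v‖ := by
    intro y hy
    have h2 := (convex_segment (𝕜 := ℝ) x (x + v)).norm_image_sub_le_of_norm_fderiv_le
      (f := fderiv ℝ f) (C := B) (𝕜 := ℝ)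
      (fun z hz => ((hd.differentiableOn (by norm_num)) z (hseg hz)).differentiableAt
        (hD.mem_nhds (hseg hz))) hB hx hy
    refine h2.trans (mul_le_mul_of_nonneg_left ?_ hB0)
    rw [segment_eq_image'] at hy
    obtain ⟨s, hs, rfl⟩ := hy
    simp only [add_sub_cancel_left, norm_smul, Real.norm_eq_abs, abs_of_nonneg hs.1]
    nlinarith [norm_nonneg v, hs.1, hs.2]
  have h3 := (convex_segment (𝕜 := ℝ) x (x + v)).norm_image_sub_le_of_norm_fderiv_le'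
      (f := f) (C := B * ‖v‖) (𝕜 := ℝ) (φ := fderiv ℝ f x)
      (fun z hz => ((hf.differentiableOn (by norm_num)) z (hseg hz)).differentiableAt
        (hD.mem_nhds (hseg hz))) h1 hx hy
  rw [add_sub_cancel_left, Real.norm_eq_abs] at h3
  linarith [h3, (by ring : B * ‖v‖ * ‖v‖ = B * ‖v‖ ^ 2)]

/-- Lipschitz estimate on the unit sphere at `(1, 0)`. -/
theorem FN3_lip {F : ℝ × Vec k → ℝ} {B : ℝ}
    (hF : ∀ ξ : ℝ × Vec k, 1 / 4 ≤ ‖ξ‖ → ‖ξ‖ ≤ 4 → |F ξ| ≤ B)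
    (hd : ∀ ξ : ℝ × Vec k, 1 / 4 ≤ ‖ξ‖ → ‖ξ‖ ≤ 4 → DifferentiableAt ℝ F ξ ∧ ‖fderiv ℝ F ξ‖ ≤ B)
    {ξ : ℝ × Vec k} (hξ : eu ξ = 1) :
    |F ξ - F (1, 0)| ≤ 4 * B * ‖ξ - (1, 0)‖ := by
  have hν : ‖((1 : ℝ), (0 : Vec k))‖ = 1 := by simp [Prod.norm_def]
  have he := eu_facts ξ
  have hB0 : 0 ≤ B := (abs_nonneg _).trans (hF (1, 0) (by rw [hν]; norm_num) (by rw [hν]; norm_num))
  by_cases h : ‖ξ - (1, 0)‖ ≤ 1 / 2
  · have hball : ∀ x ∈ Metric.closedBall ((1 : ℝ), (0 : Vec k)) (1 / 2), 1 / 4 ≤ ‖x‖ ∧ ‖x‖ ≤ 4 := by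
      intro x hx
      rw [mem_closedBall_iff_norm] at hx
      have h1 : ‖((1 : ℝ), (0 : Vec k))‖ ≤ ‖x‖ + ‖x - (1, 0)‖ := by
        calc ‖((1 : ℝ), (0 : Vec k))‖ = ‖x - (x - (1, 0))‖ := by rw [sub_sub_cancel]
          _ ≤ _ := norm_sub_le _ _
      have h2 : ‖x‖ ≤ ‖x - (1, 0)‖ + ‖((1 : ℝ), (0 : Vec k))‖ := by
        calc ‖x‖ = ‖(x - (1, 0)) + (1, 0)‖ := by rw [sub_add_cancel]
          _ ≤ _ := norm_add_le _ _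
      rw [hν] at h1 h2
      constructor <;> linarith
    have h3 := (convex_closedBall ((1 : ℝ), (0 : Vec k)) (1 / 2)).norm_image_sub_le_of_norm_fderiv_le
      (f := F) (C := B) (𝕜 := ℝ) (fun x hx => (hd x (hball x hx).1 (hball x hx).2).1)
      (fun x hx => (hd x (hball x hx).1 (hball x hx).2).2)
      (Metric.mem_closedBall_self (by norm_num)) (mem_closedBall_iff_norm.2 h)
    rw [Real.norm_eq_abs] at h3
    nlinarith [norm_nonneg (ξ - (1, 0))]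
  · push Not at h
    have h1 := hF ξ (by linarith [he.2.2.2.2.1]) (by linarith [he.2.2.2.1])
    have h2 := hF (1, 0) (by rw [hν]; norm_num) (by rw [hν]; norm_num)
    have h3 : |F ξ - F (1, 0)| ≤ |F ξ| + |F (1, 0)| := abs_sub _ _
    nlinarith

theorem FN3_dist {ξ : ℝ × Vec k} (hξ : eu ξ = 1) :
    ‖ξ - (1, 0)‖ ≤ 3 / 2 * √(1 - ξ.1) ∧ 0 ≤ 1 - ξ.1 ∧ 1 - ξ.1 ≤ 3 / 2 * √(1 - ξ.1) := by
  have he := eu_facts ξ
  rw [hξ] at he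
  have h1 : ξ.1 ^ 2 + ‖ξ.2‖ ^ 2 = 1 := by
    have h2 : 0 ≤ ξ.1 ^ 2 + ‖ξ.2‖ ^ 2 := by positivity
    have h3 := Real.sq_sqrt h2
    unfold eu at hξ
    rw [hξ] at h3
    linarith
  have h0 : 0 ≤ 1 - ξ.1 := he.2.2.2.2.2.1
  have hs : √(1 - ξ.1) ^ 2 = 1 - ξ.1 := Real.sq_sqrt h0
  have hs0 : 0 ≤ √(1 - ξ.1) := Real.sqrt_nonneg _
  have h5 : (1 - ξ.1) ^ 2 ≤ 2 * (1 - ξ.1) := by
    have := he.2.2.2.2.2.2.2.1
    linarith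
  have h4 : ‖ξ.2‖ ^ 2 ≤ 2 * (1 - ξ.1) := by nlinarith
  have hle : ∀ a : ℝ, 0 ≤ a → a ^ 2 ≤ 2 * (1 - ξ.1) → a ≤ 3 / 2 * √(1 - ξ.1) := by
    intro a ha h6
    refine abs_le_of_sq_le_sq' ?_ (by positivity) |>.2
    rw [mul_pow, hs]
    nlinarith
  refine ⟨?_, h0, hle _ h0 h5⟩
  rw [Prod.norm_def, max_le_iff]
  refine ⟨?_, ?_⟩
  · simp only [Prod.fst_sub, Real.norm_eq_abs]
    rw [abs_sub_comm, abs_of_nonneg h0]
    exact hle _ h0 h5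
  · simp only [Prod.snd_sub, sub_zero]
    exact hle _ (norm_nonneg _) h4

/-! ### the function of all variables -/

/-- the function of all variables -/
def FN3_f (Φ : ℝ → ℝ × Vec k → ℝ × Vec k → ℝ) (y : ℝ × (ℝ × Vec k) × (ℝ × Vec k)) : ℝ :=
  Φ y.1 y.2.1 y.2.2

/-- its domain -/
def FN3_D (k : ℕ) (r1 : ℝ) : Set (ℝ × (ℝ × Vec k) × (ℝ × Vec k)) := {y | ‖y.2.1.2‖ < r1 ∧ y.2.2 ≠ 0}

theorem FN3_open (k : ℕ) (r1 : ℝ) : IsOpen (FN3_D k r1) := by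
  have h1 : Continuous (fun y : ℝ × (ℝ × Vec k) × (ℝ × Vec k) => ‖y.2.1.2‖) := by fun_prop
  have h2 : Continuous (fun y : ℝ × (ℝ × Vec k) × (ℝ × Vec k) => y.2.2) := by fun_prop
  exact (isOpen_lt h1 continuous_const).inter (isOpen_ne_fun h2 continuous_const)

/-- the compact set -/
def FN3_K (k : ℕ) (r1 : ℝ) : Set (ℝ × (ℝ × Vec k) × (ℝ × Vec k)) :=
  Icc 0 1 ×ˢ ((Icc 0 1 ×ˢ Metric.closedBall 0 (r1 / 2)) ×ˢ (Metric.closedBall 0 4 ∩ {ζ | 1 / 4 ≤ ‖ζ‖}))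

theorem FN3_compact (k : ℕ) (r1 : ℝ) : IsCompact (FN3_K k r1) := by
  refine isCompact_Icc.prod ((isCompact_Icc.prod (isCompact_closedBall _ _)).prod ?_)
  exact (isCompact_closedBall _ _).inter_right (isClosed_le continuous_const continuous_norm)

theorem FN3_sub {r1 : ℝ} (h : 0 < r1) : FN3_K k r1 ⊆ FN3_D k r1 := by
  rintro ⟨t, ⟨θ, w⟩, ζ⟩ ⟨-, ⟨-, hw⟩, -, hζ⟩
  have hw : ‖w‖ ≤ r1 / 2 := by simpa using hw
  have hζ : 1 / 4 ≤ ‖ζ‖ := hζ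
  refine ⟨by simpa using lt_of_le_of_lt hw (by linarith), ?_⟩
  intro h0
  have h0 : ζ = 0 := h0
  rw [h0, norm_zero] at hζ
  norm_num at hζ

theorem FN3_mem {r1 : ℝ} {t θ : ℝ} {w : Vec k} {ζ : ℝ × Vec k} (ht : t ∈ Icc (0:ℝ) 1)
    (hθ : θ ∈ Icc (0:ℝ) 1) (hw : ‖w‖ ≤ r1 / 2) (h1 : 1 / 4 ≤ ‖ζ‖) (h2 : ‖ζ‖ ≤ 4) :
    ((t, (θ, w), ζ) : ℝ × (ℝ × Vec k) × (ℝ × Vec k)) ∈ FN3_K k r1 :=
  ⟨ht, ⟨hθ, by simpa using hw⟩, by simpa using h2, h1⟩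

theorem FN3_cd {Φ : ℝ → ℝ × Vec k → ℝ × Vec k → ℝ} {r1 : ℝ} (h : LocFin Φ r1) :
    ContDiffOn ℝ ∞ (FN3_f Φ) (FN3_D k r1) := h.smooth

theorem FN3_bound {Φ : ℝ → ℝ × Vec k → ℝ × Vec k → ℝ} {r1 : ℝ} (h : LocFin Φ r1) :
    ∃ B : ℝ, 0 < B ∧ ∀ y ∈ FN3_K k r1, |FN3_f Φ y| ≤ B ∧ ‖fderiv ℝ (FN3_f Φ) y‖ ≤ B ∧
      ‖fderiv ℝ (fderiv ℝ (FN3_f Φ)) y‖ ≤ B := by
  have hs := FN3_sub (k := k) h.pos_r
  have hcd := FN3_cd h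
  have h1 : ContDiffOn ℝ ∞ (fderiv ℝ (FN3_f Φ)) (FN3_D k r1) :=
    hcd.fderiv_of_isOpen (FN3_open k r1) (by simp)
  have h2 : ContinuousOn (fderiv ℝ (fderiv ℝ (FN3_f Φ))) (FN3_D k r1) :=
    h1.continuousOn_fderiv_of_isOpen (FN3_open k r1) (by simp)
  obtain ⟨B0, hB0⟩ := (FN3_compact k r1).exists_bound_of_continuousOn (hcd.continuousOn.mono hs)
  obtain ⟨B1, hB1⟩ := (FN3_compact k r1).exists_bound_of_continuousOn (h1.continuousOn.mono hs)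
  obtain ⟨B2, hB2⟩ := IsCompact.exists_bound_of_continuousOn
    (E := (ℝ × (ℝ × Vec k) × (ℝ × Vec k)) →L[ℝ] (ℝ × (ℝ × Vec k) × (ℝ × Vec k)) →L[ℝ] ℝ)
    (FN3_compact k r1) (h2.mono hs)
  refine ⟨|B0| + |B1| + |B2| + 1, by positivity, fun y hy => ⟨?_, ?_, ?_⟩⟩
  · have := hB0 y hy
    rw [Real.norm_eq_abs] at this
    linarith [le_abs_self B0, abs_nonneg B1, abs_nonneg B2]
  · linarith [hB1 y hy, abs_nonneg B0, le_abs_self B1, abs_nonneg B2]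
  · linarith [hB2 y hy, abs_nonneg B0, abs_nonneg B1, le_abs_self B2]

/-! ### reduction to `t, θ ∈ [0, 1]` -/

theorem FN3_fract {Φ : ℝ → ℝ × Vec k → ℝ × Vec k → ℝ} {r1 : ℝ} (h : LocFin Φ r1) (t θ : ℝ) (w : Vec k)
    (ζ : ℝ × Vec k) (hw : ‖w‖ < r1) : Φ t (θ, w) ζ = Φ (Int.fract t) (Int.fract θ, w) ζ := by
  have p1 : Function.Periodic (fun t => Φ t (θ, w) ζ) 1 := fun t => h.per_t t (θ, w) ζ hw
  have p2 : ∀ t, Function.Periodic (fun θ => Φ t (θ, w) ζ) 1 := fun t θ => h.per_θ t θ w ζ hw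
  have e1 := p1.sub_int_mul_eq (x := t) ⌊t⌋
  have e2 := (p2 (Int.fract t)).sub_int_mul_eq (x := θ) ⌊θ⌋
  simp only [mul_one] at e1 e2
  rw [Int.self_sub_floor] at e1 e2
  rw [e2, e1]

theorem FN3_fract2 {E : Type*} [AddGroup E] {f : ℝ → ℝ → E} (h : Ot.Per2 f) (t θ : ℝ) :
    f t θ = f (Int.fract t) (Int.fract θ) := by
  have p1 : Function.Periodic (fun t => f t θ) 1 := fun t => h.1 t θ
  have p2 : ∀ t, Function.Periodic (fun θ => f t θ) 1 := fun t θ => h.2 t θ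
  have e1 := p1.sub_int_mul_eq (x := t) ⌊t⌋
  have e2 := (p2 (Int.fract t)).sub_int_mul_eq (x := θ) ⌊θ⌋
  simp only [mul_one] at e1 e2
  rw [Int.self_sub_floor] at e1 e2
  rw [e2, e1]

theorem FN3_fr (x : ℝ) : Int.fract x ∈ Icc (0:ℝ) 1 := ⟨Int.fract_nonneg x, (Int.fract_lt_one x).le⟩

/-! ### partial derivatives -/

/-- the inclusion of the directions -/
def FN3_i (k : ℕ) : ℝ × Vec k × Vec k →L[ℝ] ℝ × (ℝ × Vec k) × (ℝ × Vec k) :=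
  (0 : ℝ × Vec k × Vec k →L[ℝ] ℝ).prod
    (((ContinuousLinearMap.fst ℝ ℝ (Vec k × Vec k)).prod
      ((ContinuousLinearMap.fst ℝ (Vec k) (Vec k)).comp (ContinuousLinearMap.snd ℝ ℝ (Vec k × Vec k)))).prod
      ((0 : ℝ × Vec k × Vec k →L[ℝ] ℝ).prod
        ((ContinuousLinearMap.snd ℝ (Vec k) (Vec k)).comp (ContinuousLinearMap.snd ℝ ℝ (Vec k × Vec k)))))

theorem FN3_i_apply (y : ℝ × Vec k × Vec k) : FN3_i k y = (0, (y.1, y.2.1), (0, y.2.2)) := rfl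

theorem FN3_diff {Φ : ℝ → ℝ × Vec k → ℝ × Vec k → ℝ} {r1 : ℝ} (h : LocFin Φ r1)
    {y : ℝ × (ℝ × Vec k) × (ℝ × Vec k)} (hy : y ∈ FN3_D k r1) :
    HasFDerivAt (FN3_f Φ) (fderiv ℝ (FN3_f Φ) y) y :=
  (((FN3_cd h).differentiableOn (by simp)) y hy |>.differentiableAt
    ((FN3_open k r1).mem_nhds hy)).hasFDerivAt

theorem FN3_lg {Φ : ℝ → ℝ × Vec k → ℝ × Vec k → ℝ} {r1 : ℝ} (h : LocFin Φ r1) (t θ : ℝ)
    (v : ℝ × Vec k × Vec k) :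
    fderiv ℝ (lg (Φ t)) (θ, 0, 0) v = fderiv ℝ (FN3_f Φ) (t, (θ, 0), (1, 0)) (FN3_i k v) := by
  have hy : ((t, (θ, 0), ((1 : ℝ), (0 : Vec k))) : ℝ × (ℝ × Vec k) × (ℝ × Vec k)) ∈ FN3_D k r1 := by
    refine ⟨by simpa using h.pos_r, ?_⟩
    simp
  have hA : HasFDerivAt (fun y : ℝ × Vec k × Vec k =>
      ((t, (0, 0), (1, 0)) : ℝ × (ℝ × Vec k) × (ℝ × Vec k)) + FN3_i k y) (FN3_i k) (θ, 0, 0) :=
    (FN3_i k).hasFDerivAt.const_add _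
  have e0 : ((t, (0, 0), (1, 0)) : ℝ × (ℝ × Vec k) × (ℝ × Vec k)) + FN3_i k (θ, 0, 0) =
      (t, (θ, 0), (1, 0)) := by
    rw [FN3_i_apply]; simp
  have hf := FN3_diff h hy
  rw [← e0] at hf
  have hc := hf.comp (θ, 0, 0) hA
  have e1 : FN3_f Φ ∘ (fun y : ℝ × Vec k × Vec k =>
      ((t, (0, 0), (1, 0)) : ℝ × (ℝ × Vec k) × (ℝ × Vec k)) + FN3_i k y) = lg (Φ t) := by
    funext y
    simp [FN3_f, lg, FN3_i_apply]
  rw [e1, e0] at hc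
  rw [hc.fderiv]
  rfl

theorem FN3_gn {Φ : ℝ → ℝ × Vec k → ℝ × Vec k → ℝ} {r1 : ℝ} (h : LocFin Φ r1) (t θ : ℝ) (w : Vec k) :
    inner ℝ (gn Φ t θ) w = fderiv ℝ (FN3_f Φ) (t, (θ, 0), (1, 0)) (0, (0, w), 0) := by
  unfold gn
  rw [gw_inner, FN3_lg h]
  rfl

theorem FN3_pn {Φ : ℝ → ℝ × Vec k → ℝ × Vec k → ℝ} {r1 : ℝ} (h : LocFin Φ r1) (t θ : ℝ) (u : Vec k) :
    inner ℝ (pn Φ t θ) u = fderiv ℝ (FN3_f Φ) (t, (θ, 0), (1, 0)) (0, 0, (0, u)) := by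
  unfold pn
  rw [gu_inner, FN3_lg h]
  rfl

theorem FN3_scale (ζ : ℝ × Vec k) (h0 : ζ ≠ 0) : ∃ s : ℝ, ∃ ξ : ℝ × Vec k, 0 < s ∧ eu ξ = 1 ∧ ζ = s • ξ ∧
    eu ζ = s ∧ √(eu ζ * (eu ζ - ζ.1)) = s * √(1 - ξ.1) := by
  have he := eu_facts ζ
  have hpos : 0 < eu ζ := by
    have : 0 < ‖ζ‖ := norm_pos_iff.2 h0
    linarith [he.2.2.2.1]
  have h1 : eu ((eu ζ)⁻¹ • ζ) = 1 := by
    rw [he.2.2.2.2.2.2.2.2 _ (inv_nonneg.2 hpos.le)]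
    exact inv_mul_cancel₀ hpos.ne'
  have h2 : ζ = eu ζ • ((eu ζ)⁻¹ • ζ) := by
    rw [smul_smul, mul_inv_cancel₀ hpos.ne', one_smul]
  refine ⟨eu ζ, (eu ζ)⁻¹ • ζ, hpos, h1, h2, rfl, ?_⟩
  have h3 : eu ζ * (eu ζ - ζ.1) = eu ζ ^ 2 * (1 - ((eu ζ)⁻¹ • ζ).1) := by
    simp only [Prod.smul_fst, smul_eq_mul]
    field_simp
  rw [h3, Real.sqrt_mul (sq_nonneg _), Real.sqrt_sq hpos.le]

theorem FN3_sph {ξ : ℝ × Vec k} (hξ : eu ξ = 1) : 1 / 4 ≤ ‖ξ‖ ∧ ‖ξ‖ ≤ 4 := by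
  have he := eu_facts ξ
  constructor
  · linarith [he.2.2.2.2.1]
  · linarith [he.2.2.2.1]

theorem FN3_zero {Φ : ℝ → ℝ × Vec k → ℝ × Vec k → ℝ} {r1 : ℝ} (h : LocFin Φ r1) (t : ℝ) (z : ℝ × Vec k)
    (hz : ‖z.2‖ < r1) : Φ t z 0 = 0 := by
  have := h.hom t z 0 0 hz le_rfl
  simpa using this

theorem FN3_eu0 : eu (0 : ℝ × Vec k) = 0 := by simp [eu]

theorem mid {Φ : ℝ → ℝ × Vec k → ℝ × Vec k → ℝ} {r1 : ℝ} (h : LocFin Φ r1) : ∃ C : ℝ, 0 < C ∧ ∀ (t θ : ℝ) (ζ : ℝ × Vec k),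
    |Φ t (θ, 0) ζ - en Φ t θ * ζ.1| ≤ C * √(eu ζ * (eu ζ - ζ.1)) := by
  obtain ⟨B, hB0, hB⟩ := FN3_bound h
  have hr := h.pos_r
  have h0r : ‖(0 : Vec k)‖ ≤ r1 / 2 := by rw [norm_zero]; linarith
  have h0r' : ‖(0 : Vec k)‖ < r1 := by rw [norm_zero]; exact hr
  refine ⟨8 * B, by positivity, fun t θ ζ => ?_⟩
  rw [FN3_fract h t θ 0 ζ h0r', FN3_fract2 (pers h).1 t θ]
  have ht := FN3_fr t
  have hθ := FN3_fr θ
  set t' := Int.fract t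
  set θ' := Int.fract θ
  by_cases hζ : ζ = 0
  · rw [hζ, FN3_zero h t' (θ', 0) h0r', FN3_eu0]
    simp
  obtain ⟨s, ξ, hs, hξ, rfl, he, hsq⟩ := FN3_scale ζ hζ
  rw [hsq, h.hom t' (θ', 0) ξ s h0r' hs.le]
  -- the function of `ξ`
  let i2 : ℝ × Vec k →L[ℝ] ℝ × (ℝ × Vec k) × (ℝ × Vec k) :=
    (ContinuousLinearMap.inr ℝ ℝ ((ℝ × Vec k) × (ℝ × Vec k))).comp (ContinuousLinearMap.inr ℝ (ℝ × Vec k) (ℝ × Vec k))
  have hd : ∀ ξ : ℝ × Vec k, 1 / 4 ≤ ‖ξ‖ → ‖ξ‖ ≤ 4 →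
      HasFDerivAt (fun ξ => Φ t' (θ', 0) ξ) ((fderiv ℝ (FN3_f Φ) (t', (θ', 0), ξ)).comp i2) ξ := by
    intro ξ h1 h2
    have hA : HasFDerivAt (fun x : ℝ × Vec k =>
        ((t', (θ', 0), 0) : ℝ × (ℝ × Vec k) × (ℝ × Vec k)) + i2 x) i2 ξ := i2.hasFDerivAt.const_add _
    have e0 : ∀ x : ℝ × Vec k, ((t', (θ', 0), 0) : ℝ × (ℝ × Vec k) × (ℝ × Vec k)) + i2 x = (t', (θ', 0), x) := by
      intro x; simp [i2]
    have hf := FN3_diff h (FN3_sub hr (FN3_mem ht hθ h0r h1 h2))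
    rw [← e0 ξ] at hf
    have hc := hf.comp ξ hA
    rw [e0] at hc
    refine hc.congr_of_eventuallyEq (Eventually.of_forall fun x => ?_)
    simp only [Function.comp_apply, e0]
    rfl
  have hi2 : ‖i2‖ ≤ 1 := by
    refine ContinuousLinearMap.opNorm_le_bound _ zero_le_one fun x => ?_
    simp [i2, Prod.norm_def]
  have key := FN3_lip (F := fun ξ => Φ t' (θ', 0) ξ) (B := B)
    (fun ξ h1 h2 => (hB _ (FN3_mem ht hθ h0r h1 h2)).1)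
    (fun ξ h1 h2 => ⟨(hd ξ h1 h2).differentiableAt, by
      rw [(hd ξ h1 h2).fderiv]
      refine (ContinuousLinearMap.opNorm_comp_le _ _).trans ?_
      have := (hB _ (FN3_mem ht hθ h0r h1 h2)).2.1
      calc _ ≤ B * 1 := mul_le_mul this hi2 (norm_nonneg _) hB0.le
        _ = B := mul_one _⟩) hξ
  obtain ⟨d1, d2, d3⟩ := FN3_dist hξ
  have hν := (hB _ (FN3_mem (k := k) (r1 := r1) (ζ := ((1 : ℝ), (0 : Vec k))) ht hθ h0r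
    (by simp [Prod.norm_def]; norm_num) (by simp [Prod.norm_def]))).1
  change |Φ t' (θ', 0) (1, 0)| ≤ B at hν
  have hsq0 : 0 ≤ √(1 - ξ.1) := Real.sqrt_nonneg _
  have h5 : |Φ t' (θ', 0) ξ - en Φ t' θ' * ξ.1| ≤ 8 * B * √(1 - ξ.1) := by
    have e1 : Φ t' (θ', 0) ξ - en Φ t' θ' * ξ.1 =
        (Φ t' (θ', 0) ξ - Φ t' (θ', 0) (1, 0)) + Φ t' (θ', 0) (1, 0) * (1 - ξ.1) := by
      unfold en; ring
    rw [e1]
    refine (abs_add_le _ _).trans ?_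
    rw [abs_mul, abs_of_nonneg d2]
    have k1 : 4 * B * ‖ξ - (1, 0)‖ ≤ 4 * B * (3 / 2 * √(1 - ξ.1)) :=
      mul_le_mul_of_nonneg_left d1 (by positivity)
    have k2 : |Φ t' (θ', 0) (1, 0)| * (1 - ξ.1) ≤ B * (3 / 2 * √(1 - ξ.1)) :=
      mul_le_mul hν d3 d2 hB0.le
    have k3 : 0 ≤ B * √(1 - ξ.1) := by positivity
    linarith [key]
  have e2 : s * Φ t' (θ', 0) ξ - en Φ t' θ' * (s • ξ).1 =
      s * (Φ t' (θ', 0) ξ - en Φ t' θ' * ξ.1) := by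
    simp only [Prod.smul_fst, smul_eq_mul]; ring
  rw [e2, abs_mul, abs_of_pos hs]
  calc s * |Φ t' (θ', 0) ξ - en Φ t' θ' * ξ.1| ≤ s * (8 * B * √(1 - ξ.1)) :=
        mul_le_mul_of_nonneg_left h5 hs.le
    _ = 8 * B * (s * √(1 - ξ.1)) := by ring

theorem low_w {Φ : ℝ → ℝ × Vec k → ℝ × Vec k → ℝ} {r1 : ℝ} (h : LocFin Φ r1) : ∃ C : ℝ, 0 < C ∧ ∀ (t θ : ℝ) (w : Vec k) (ζ : ℝ × Vec k), ‖w‖ ≤ r1 / 2 →
    Φ t (θ, 0) ζ + ζ.1 * inner ℝ (gn Φ t θ) w -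
      C * (‖w‖ ^ 2 * eu ζ + ‖w‖ * √(eu ζ * (eu ζ - ζ.1))) ≤ Φ t (θ, w) ζ := by
  obtain ⟨B, hB0, hB⟩ := FN3_bound h
  have hr := h.pos_r
  have h0r : ‖(0 : Vec k)‖ ≤ r1 / 2 := by rw [norm_zero]; linarith
  have h0r' : ‖(0 : Vec k)‖ < r1 := by rw [norm_zero]; exact hr
  refine ⟨8 * B, by positivity, fun t θ w ζ hw => ?_⟩
  have hw' : ‖w‖ < r1 := lt_of_le_of_lt hw (by linarith)
  rw [FN3_fract h t θ 0 ζ h0r', FN3_fract h t θ w ζ hw', FN3_fract2 (pers h).2.2.1 t θ]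
  have ht := FN3_fr t
  have hθ := FN3_fr θ
  set t' := Int.fract t
  set θ' := Int.fract θ
  by_cases hζ : ζ = 0
  · rw [hζ, FN3_zero h t' (θ', 0) h0r', FN3_zero h t' (θ', w) hw', FN3_eu0]
    simp
  obtain ⟨s, ξ, hs, hξ, rfl, he, hsq⟩ := FN3_scale ζ hζ
  rw [hsq, he, h.hom t' (θ', 0) ξ s h0r' hs.le, h.hom t' (θ', w) ξ s hw' hs.le]
  -- the function of `ξ`
  let i2 : ℝ × Vec k →L[ℝ] ℝ × (ℝ × Vec k) × (ℝ × Vec k) :=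
    (ContinuousLinearMap.inr ℝ ℝ ((ℝ × Vec k) × (ℝ × Vec k))).comp (ContinuousLinearMap.inr ℝ (ℝ × Vec k) (ℝ × Vec k))
  let v : ℝ × (ℝ × Vec k) × (ℝ × Vec k) := (0, (0, w), 0)
  have hv : ‖v‖ = ‖w‖ := by simp [v, Prod.norm_def]
  let F : ℝ × Vec k → ℝ := fun ξ => fderiv ℝ (FN3_f Φ) (t', (θ', 0), ξ) v
  have hd : ∀ ξ : ℝ × Vec k, 1 / 4 ≤ ‖ξ‖ → ‖ξ‖ ≤ 4 →
      ∃ F' : ℝ × Vec k →L[ℝ] ℝ, HasFDerivAt F F' ξ ∧ ‖F'‖ ≤ B * ‖w‖ := by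
    intro ξ h1 h2
    have hA : HasFDerivAt (fun x : ℝ × Vec k =>
        ((t', (θ', 0), 0) : ℝ × (ℝ × Vec k) × (ℝ × Vec k)) + i2 x) i2 ξ := i2.hasFDerivAt.const_add _
    have e0 : ∀ x : ℝ × Vec k, ((t', (θ', 0), 0) : ℝ × (ℝ × Vec k) × (ℝ × Vec k)) + i2 x = (t', (θ', 0), x) := by
      intro x; simp [i2]
    have hm := FN3_mem (r1 := r1) ht hθ h0r h1 h2
    have h3 : ContDiffOn ℝ ∞ (fderiv ℝ (FN3_f Φ)) (FN3_D k r1) :=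
      (FN3_cd h).fderiv_of_isOpen (FN3_open k r1) (by simp)
    have hf : HasFDerivAt (fderiv ℝ (FN3_f Φ)) (fderiv ℝ (fderiv ℝ (FN3_f Φ)) (t', (θ', 0), ξ))
        (t', (θ', 0), ξ) :=
      ((h3.differentiableOn (by simp)) _ (FN3_sub hr hm) |>.differentiableAt
        ((FN3_open k r1).mem_nhds (FN3_sub hr hm))).hasFDerivAt
    have hf2 := hf.clm_apply (hasFDerivAt_const v _)
    rw [← e0 ξ] at hf2
    have hc := hf2.comp ξ hA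
    refine ⟨_, hc.congr_of_eventuallyEq (Eventually.of_forall fun x => ?_), ?_⟩
    · simp only [Function.comp_apply, e0]
      rfl
    · refine ContinuousLinearMap.opNorm_le_bound _ (by positivity) fun x => ?_
      rw [e0]
      simp only [ContinuousLinearMap.comp_zero, zero_add, ContinuousLinearMap.coe_comp,
        Function.comp_apply, ContinuousLinearMap.flip_apply]
      have k1 := (hB _ hm).2.2
      have k2 := (fderiv ℝ (fderiv ℝ (FN3_f Φ)) (t', (θ', 0), ξ)).le_opNorm (i2 x)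
      have k3 := (fderiv ℝ (fderiv ℝ (FN3_f Φ)) (t', (θ', 0), ξ) (i2 x)).le_opNorm v
      have k4 : ‖i2 x‖ = ‖x‖ := by simp [i2, Prod.norm_def]
      rw [hv] at k3
      rw [k4] at k2
      have k5 : ‖fderiv ℝ (fderiv ℝ (FN3_f Φ)) (t', (θ', 0), ξ) (i2 x)‖ ≤ B * ‖x‖ :=
        k2.trans (mul_le_mul_of_nonneg_right k1 (norm_nonneg _))
      calc _ ≤ ‖fderiv ℝ (fderiv ℝ (FN3_f Φ)) (t', (θ', 0), ξ) (i2 x)‖ * ‖w‖ := k3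
        _ ≤ B * ‖x‖ * ‖w‖ := mul_le_mul_of_nonneg_right k5 (norm_nonneg _)
        _ = B * ‖w‖ * ‖x‖ := by ring
  have hFb : ∀ ξ : ℝ × Vec k, 1 / 4 ≤ ‖ξ‖ → ‖ξ‖ ≤ 4 → |F ξ| ≤ B * ‖w‖ := by
    intro ξ h1 h2
    have k1 := (hB _ (FN3_mem ht hθ h0r h1 h2)).2.1
    have k3 := (fderiv ℝ (FN3_f Φ) (t', (θ', 0), ξ)).le_opNorm v
    rw [hv, Real.norm_eq_abs] at k3
    exact k3.trans (mul_le_mul_of_nonneg_right k1 (norm_nonneg _))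
  have key := FN3_lip (F := F) (B := B * ‖w‖) hFb
    (fun ξ h1 h2 => by
      obtain ⟨F', hF', hn⟩ := hd ξ h1 h2
      exact ⟨hF'.differentiableAt, by rw [hF'.fderiv]; exact hn⟩) hξ
  have hFν : F (1, 0) = inner ℝ (gn Φ t' θ') w := (FN3_gn h t' θ' w).symm
  have hν1 : |F (1, 0)| ≤ B * ‖w‖ := hFb _ (by simp [Prod.norm_def]; norm_num) (by simp [Prod.norm_def])
  obtain ⟨s1, s2⟩ := FN3_sph hξ
  -- Taylor in `w`
  have hT := FN3_taylor (f := FN3_f Φ) (FN3_open k r1) ((FN3_cd h).of_le (WithTop.coe_le_coe.2 le_top))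
    (x := (t', (θ', 0), ξ)) (v := v) (B := B) (by
      rw [segment_eq_image']
      rintro _ ⟨a, ha, rfl⟩
      refine FN3_sub hr ?_
      have e : ((t', (θ', 0), ξ) : ℝ × (ℝ × Vec k) × (ℝ × Vec k)) + a • (((t', (θ', 0), ξ) + v) - (t', (θ', 0), ξ))
        = (t', (θ', a • w), ξ) := by simp [v]
      change ((t', (θ', 0), ξ) : ℝ × (ℝ × Vec k) × (ℝ × Vec k)) + a • (((t', (θ', 0), ξ) + v) - (t', (θ', 0), ξ)) ∈ _
      rw [e]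
      refine FN3_mem ht hθ ?_ s1 s2
      rw [norm_smul, Real.norm_eq_abs, abs_of_nonneg ha.1]
      nlinarith [norm_nonneg w, ha.1, ha.2]) (by
      rw [segment_eq_image']
      rintro _ ⟨a, ha, rfl⟩
      have e : ((t', (θ', 0), ξ) : ℝ × (ℝ × Vec k) × (ℝ × Vec k)) + a • (((t', (θ', 0), ξ) + v) - (t', (θ', 0), ξ))
        = (t', (θ', a • w), ξ) := by simp [v]
      simp only [e]
      refine (hB _ (FN3_mem ht hθ ?_ s1 s2)).2.2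
      rw [norm_smul, Real.norm_eq_abs, abs_of_nonneg ha.1]
      nlinarith [norm_nonneg w, ha.1, ha.2])
  rw [hv] at hT
  have e3 : ((t', (θ', 0), ξ) : ℝ × (ℝ × Vec k) × (ℝ × Vec k)) + v = (t', (θ', w), ξ) := by simp [v]
  rw [e3] at hT
  change |Φ t' (θ', w) ξ - Φ t' (θ', 0) ξ - F ξ| ≤ B * ‖w‖ ^ 2 at hT
  obtain ⟨d1, d2, d3⟩ := FN3_dist hξ
  have hsq0 : 0 ≤ √(1 - ξ.1) := Real.sqrt_nonneg _
  have h5 : Φ t' (θ', 0) ξ + ξ.1 * inner ℝ (gn Φ t' θ') w - 8 * B * (‖w‖ ^ 2 + ‖w‖ * √(1 - ξ.1)) ≤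
      Φ t' (θ', w) ξ := by
    rw [← hFν]
    have a1 := (abs_le.1 hT).1
    have a2 := (abs_le.1 key).1
    have a3 : -(B * ‖w‖ * (3 / 2 * √(1 - ξ.1))) ≤ F (1, 0) * (1 - ξ.1) := by
      have : |F (1, 0) * (1 - ξ.1)| ≤ B * ‖w‖ * (3 / 2 * √(1 - ξ.1)) := by
        rw [abs_mul, abs_of_nonneg d2]
        exact mul_le_mul hν1 d3 d2 (by positivity)
      exact (abs_le.1 this).1
    have a4 : 4 * (B * ‖w‖) * ‖ξ - (1, 0)‖ ≤ 4 * (B * ‖w‖) * (3 / 2 * √(1 - ξ.1)) :=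
      mul_le_mul_of_nonneg_left d1 (by positivity)
    have a5 : 0 ≤ B * ‖w‖ * √(1 - ξ.1) := by positivity
    have a6 : 0 ≤ B * ‖w‖ ^ 2 := by positivity
    nlinarith
  have e4 : s * Φ t' (θ', 0) ξ + (s • ξ).1 * inner ℝ (gn Φ t' θ') w -
      8 * B * (‖w‖ ^ 2 * s + ‖w‖ * (s * √(1 - ξ.1))) =
      s * (Φ t' (θ', 0) ξ + ξ.1 * inner ℝ (gn Φ t' θ') w - 8 * B * (‖w‖ ^ 2 + ‖w‖ * √(1 - ξ.1))) := by
    simp only [Prod.smul_fst, smul_eq_mul]; ring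
  rw [e4]
  exact mul_le_mul_of_nonneg_left h5 hs.le

theorem upp_w {Φ : ℝ → ℝ × Vec k → ℝ × Vec k → ℝ} {r1 : ℝ} (h : LocFin Φ r1) : ∃ C : ℝ, 0 < C ∧ ∀ (t θ : ℝ) (w u : Vec k), ‖w‖ ≤ r1 / 2 → ‖u‖ ≤ 1 →
    Φ t (θ, w) (1, u) ≤ en Φ t θ + inner ℝ (gn Φ t θ) w + inner ℝ (pn Φ t θ) u +
      C * (‖w‖ ^ 2 + ‖u‖ ^ 2) := by
  obtain ⟨B, hB0, hB⟩ := FN3_bound h
  have hr := h.pos_r
  have h0r : ‖(0 : Vec k)‖ ≤ r1 / 2 := by rw [norm_zero]; linarith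
  have h0r' : ‖(0 : Vec k)‖ < r1 := by rw [norm_zero]; exact hr
  refine ⟨B, hB0, fun t θ w u hw hu => ?_⟩
  have hw' : ‖w‖ < r1 := lt_of_le_of_lt hw (by linarith)
  rw [FN3_fract h t θ w (1, u) hw', FN3_fract2 (pers h).2.2.1 t θ, FN3_fract2 (pers h).1 t θ,
    FN3_fract2 (pers h).2.1 t θ]
  have ht := FN3_fr t
  have hθ := FN3_fr θ
  set t' := Int.fract t
  set θ' := Int.fract θ
  let v : ℝ × (ℝ × Vec k) × (ℝ × Vec k) := (0, (0, w), (0, u))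
  have hv : ‖v‖ ^ 2 ≤ ‖w‖ ^ 2 + ‖u‖ ^ 2 := by
    have : ‖v‖ = max ‖w‖ ‖u‖ := by simp [v, Prod.norm_def]
    rw [this]
    rcases max_cases ‖w‖ ‖u‖ with ⟨h1, -⟩ | ⟨h1, -⟩ <;> rw [h1] <;> nlinarith [norm_nonneg w, norm_nonneg u]
  have hmem : ∀ a ∈ Icc (0:ℝ) 1, ((t', (θ', a • w), (1, a • u)) : ℝ × (ℝ × Vec k) × (ℝ × Vec k)) ∈
      FN3_K k r1 := by
    intro a ha
    have hn : ‖((1 : ℝ), a • u)‖ = 1 := by
      have : a * ‖u‖ ≤ 1 := by nlinarith [norm_nonneg u, ha.1, ha.2]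
      simp only [Prod.norm_def, norm_smul, Real.norm_eq_abs, abs_of_nonneg ha.1, abs_one]
      exact max_eq_left this
    refine FN3_mem ht hθ ?_ (by rw [hn]; norm_num) (by rw [hn]; norm_num)
    rw [norm_smul, Real.norm_eq_abs, abs_of_nonneg ha.1]
    nlinarith [norm_nonneg w, ha.1, ha.2]
  have e : ∀ a : ℝ, ((t', (θ', 0), (1, 0)) : ℝ × (ℝ × Vec k) × (ℝ × Vec k)) +
      a • (((t', (θ', 0), (1, 0)) + v) - (t', (θ', 0), (1, 0))) = (t', (θ', a • w), (1, a • u)) := by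
    intro a; simp [v]
  have hT := FN3_taylor (f := FN3_f Φ) (FN3_open k r1) ((FN3_cd h).of_le (WithTop.coe_le_coe.2 le_top))
    (x := (t', (θ', 0), (1, 0))) (v := v) (B := B) (by
      rw [segment_eq_image']
      rintro _ ⟨a, ha, rfl⟩
      simp only [e]
      exact FN3_sub hr (hmem a ha)) (by
      rw [segment_eq_image']
      rintro _ ⟨a, ha, rfl⟩
      simp only [e]
      exact (hB _ (hmem a ha)).2.2)
  have e3 : ((t', (θ', 0), (1, 0)) : ℝ × (ℝ × Vec k) × (ℝ × Vec k)) + v = (t', (θ', w), (1, u)) := by simp [v]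
  rw [e3] at hT
  have e4 : fderiv ℝ (FN3_f Φ) (t', (θ', 0), (1, 0)) v =
      inner ℝ (gn Φ t' θ') w + inner ℝ (pn Φ t' θ') u := by
    rw [FN3_gn h, FN3_pn h, ← map_add]
    congr 1
    simp [v]
  rw [e4] at hT
  change |Φ t' (θ', w) (1, u) - Φ t' (θ', 0) (1, 0) - _| ≤ _ at hT
  have h1 := (abs_le.1 hT).2
  have h2 : B * ‖v‖ ^ 2 ≤ B * (‖w‖ ^ 2 + ‖u‖ ^ 2) := mul_le_mul_of_nonneg_left hv hB0.le
  unfold en
  linarith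

end EscW.Fn
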