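import Pool.Agent.EscW.FN2
import Pool.Agent.EscW.FN3

set_option autoImplicit false

/-!
Project EscW, part FN, module FN4: the core is calibrated.
`λ = ln`, `en λ + gn = deriv pn =: p'`. `S = eu ζ - ζ.1 ≥ 0`, `q = √(eu ζ S)`. For `‖w‖ ≤ r2`, `C r2 ≤ 1/2`: `1 + ⟪λ, w⟫ ≥ 1/2`; `(1 + ⟪λ,w⟫) Φ (θ,w) ζ ≥ (1 + ⟪λ,w⟫)(Φ (θ,0) ζ + ζ.1 ⟪gn,w⟫) - 2 C (‖w‖² eu + ‖w‖ q)` (`low_w`) `≥ Φ (θ,0) ζ + ⟪λ,w⟫ en ζ.1 + ζ.1 ⟪gn,w⟫ - C' (‖w‖² eu + ‖w‖ q)` (`mid`) `= Φ (θ,0) ζ + ζ.1 ⟪p',w⟫ - ..`.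
With `low_conv`: `cf Φ - al ≥ c S - C' (‖w‖² eu + ‖w‖ q) + K c2 ‖w‖² c1 eu` (`bounds`, `Qn_low`), `C' ‖w‖ q ≤ (c/2) S + C'²/(2c) ‖w‖² eu` (arithmetic-geometric mean: `q² = eu S`). Take `K` large. Conclusion with `c/2`.
`core_upp`: if `1 + ⟪λ,w⟫ ≥ 0`: `upp_w` and `(1 + ⟪λ,w⟫)(en + ⟪gn,w⟫ + ⟪pn,u⟫ + C (..)) = en + ⟪p',w⟫ + ⟪pn,u⟫ + O(‖w‖² + ‖w‖‖u‖ + ..)` for `‖w‖ ≤ r1/2`; otherwise `‖w‖ ≥ 1/C`, and the left hand side is bounded. `core_eq`: `(θ, 0)`, `(1, 0)`. `cf_near`: `bounds`, `Qn_upp`.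
-/

noncomputable section

namespace EscW.Fn

open Filter Topology Set EscF.T EscM EscMT MeasureTheory EscW.Ex EscW.Dn EscW.On
open scoped ContDiff

variable {d m k j n : ℕ}

/-- the inner product is bounded by a bound of the first factor -/
theorem FN4_inner {a w : Vec k} {C : ℝ} (ha : ‖a‖ ≤ C) : |inner ℝ a w| ≤ C * ‖w‖ :=
  (abs_real_inner_le_norm a w).trans (mul_le_mul_of_nonneg_right ha (norm_nonneg _))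

/-- `e ⟪λ, w⟫ + ⟪g, w⟫ = ⟪p', w⟫` -/
theorem FN4_ln (Φ : ℝ → ℝ × Vec k → ℝ × Vec k → ℝ) (t θ : ℝ) (w : Vec k) (he : en Φ t θ ≠ 0) :
    inner ℝ (ln Φ t θ) w * en Φ t θ + inner ℝ (gn Φ t θ) w = inner ℝ (deriv (pn Φ t) θ) w := by
  have h1 : inner ℝ (ln Φ t θ) w = (en Φ t θ)⁻¹ * (inner ℝ (deriv (pn Φ t) θ) w - inner ℝ (gn Φ t θ) w) := by
    rw [ln, real_inner_smul_left, inner_sub_left]
  rw [h1]
  field_simp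
  ring

/-- the arithmetic of `core_low` -/
theorem FN4_low {e L G p' Pu Φ0 Φw E ζ1 q W Q c0 c1 c2 C1 C2 C3 K : ℝ} (hc0 : 0 < c0) (hc1 : 0 < c1) (hc2 : 0 < c2)
    (hC1 : 0 < C1) (hC2 : 0 < C2) (hC3 : 0 < C3) (hW : 0 ≤ W) (hE : 0 ≤ E) (hq : 0 ≤ q)
    (hS : 0 ≤ E - ζ1) (hqq : q ^ 2 = E * (E - ζ1)) (hζ1 : |ζ1| ≤ E) (hL : |L| ≤ C1 * W)
    (hL2 : |L| ≤ 1 / 2) (hG : |G| ≤ C1 * W) (hLe : L * e + G = p')
    (hconv : c0 * (E - ζ1) ≤ Φ0 - (e * ζ1 + Pu)) (hmid : |Φ0 - e * ζ1| ≤ C2 * q)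
    (hlow : Φ0 + ζ1 * G - C3 * (W ^ 2 * E + W * q) ≤ Φw) (hbd : c1 * E ≤ Φw) (hQ : c2 * W ^ 2 ≤ Q)
    (hK : K = ((C1 * C2 + C1 ^ 2 + 2 * C3) + (C1 * C2 + C1 ^ 2 + 2 * C3) ^ 2 / (2 * c0) + 1) / (c1 * c2)) :
    c0 / 2 * (E - ζ1) + W ^ 2 * E ≤ (1 + L + K * Q) * Φw - (e * ζ1 + p' * ζ1 + Pu) := by
  set D : ℝ := C1 * C2 + C1 ^ 2 + 2 * C3 with hD
  have hD0 : 0 < D := by positivity
  have hL1 := abs_le.1 hL2
  have hR : 0 ≤ C3 * (W ^ 2 * E + W * q) := by positivity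
  have hWE : 0 ≤ W ^ 2 * E := by positivity
  have hWq : 0 ≤ W * q := by positivity
  -- multiply
  have h1 : (1 + L) * (Φ0 + ζ1 * G - C3 * (W ^ 2 * E + W * q)) ≤ (1 + L) * Φw :=
    mul_le_mul_of_nonneg_left hlow (by linarith)
  have h2 : -(C1 * W * (C2 * q)) ≤ L * (Φ0 - e * ζ1) := by
    have h3 : |L * (Φ0 - e * ζ1)| ≤ C1 * W * (C2 * q) := by
      rw [abs_mul]
      exact mul_le_mul hL hmid (abs_nonneg _) (by positivity)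
    exact (abs_le.1 h3).1
  have h4 : -(C1 * W * (E * (C1 * W))) ≤ L * (ζ1 * G) := by
    have h5 : |L * (ζ1 * G)| ≤ C1 * W * (E * (C1 * W)) := by
      rw [abs_mul, abs_mul]
      exact mul_le_mul hL (mul_le_mul hζ1 hG (abs_nonneg _) hE) (by positivity) (by positivity)
    exact (abs_le.1 h5).1
  have h6 : (1 + L) * (C3 * (W ^ 2 * E + W * q)) ≤ 2 * (C3 * (W ^ 2 * E + W * q)) :=
    mul_le_mul_of_nonneg_right (by linarith) hR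
  have h7 : Φ0 + p' * ζ1 - D * (W ^ 2 * E + W * q) ≤ (1 + L) * Φw := by
    have h8 : (1 + L) * (Φ0 + ζ1 * G - C3 * (W ^ 2 * E + W * q)) =
        Φ0 + (L * e + G) * ζ1 + L * (Φ0 - e * ζ1) + L * (ζ1 * G) - (1 + L) * (C3 * (W ^ 2 * E + W * q)) := by
      ring
    rw [hLe] at h8
    have h9 : C1 * W * (C2 * q) + C1 * W * (E * (C1 * W)) + 2 * (C3 * (W ^ 2 * E + W * q)) ≤
        D * (W ^ 2 * E + W * q) := by
      have h10 : D * (W ^ 2 * E + W * q) - (C1 * W * (C2 * q) + C1 * W * (E * (C1 * W)) +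
          2 * (C3 * (W ^ 2 * E + W * q))) = C1 * C2 * (W ^ 2 * E) + C1 ^ 2 * (W * q) := by
        rw [hD]; ring
      have h11 : 0 ≤ C1 * C2 * (W ^ 2 * E) + C1 ^ 2 * (W * q) := by positivity
      linarith
    linarith
  -- arithmetic-geometric mean
  have h12 : D * (W * q) ≤ c0 / 2 * (E - ζ1) + D ^ 2 / (2 * c0) * (W ^ 2 * E) := by
    refine abs_le_of_sq_le_sq' ?_ (by positivity) |>.2
    have h13 : (D * (W * q)) ^ 2 = D ^ 2 * W ^ 2 * (E * (E - ζ1)) := by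
      rw [← hqq]; ring
    rw [h13]
    have h14 : (c0 / 2 * (E - ζ1) + D ^ 2 / (2 * c0) * (W ^ 2 * E)) ^ 2 - D ^ 2 * W ^ 2 * (E * (E - ζ1)) =
        (c0 / 2 * (E - ζ1) - D ^ 2 / (2 * c0) * (W ^ 2 * E)) ^ 2 := by
      field_simp
      ring
    have h15 := sq_nonneg (c0 / 2 * (E - ζ1) - D ^ 2 / (2 * c0) * (W ^ 2 * E))
    linarith
  have hKc : K * (c1 * c2) = D + D ^ 2 / (2 * c0) + 1 := by
    rw [hK]
    field_simp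
  have hK0 : 0 ≤ K := by rw [hK]; positivity
  have hQ0 : 0 ≤ c2 * W ^ 2 := by positivity
  have h16 : K * (c2 * W ^ 2) * (c1 * E) ≤ K * Q * Φw :=
    mul_le_mul (mul_le_mul_of_nonneg_left hQ hK0) hbd (by positivity) (mul_nonneg hK0 (hQ0.trans hQ))
  have h17 : K * (c2 * W ^ 2) * (c1 * E) = (D + D ^ 2 / (2 * c0) + 1) * (W ^ 2 * E) := by
    rw [← hKc]; ring
  have h18 : (1 + L + K * Q) * Φw = (1 + L) * Φw + K * Q * Φw := by ring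
  have h19 : D * (W ^ 2 * E + W * q) = D * (W ^ 2 * E) + D * (W * q) := by ring
  have h20 : (D + D ^ 2 / (2 * c0) + 1) * (W ^ 2 * E) =
      D * (W ^ 2 * E) + D ^ 2 / (2 * c0) * (W ^ 2 * E) + W ^ 2 * E := by ring
  linarith

theorem core_low {Φ : ℝ → ℝ × Vec k → ℝ × Vec k → ℝ} {r1 : ℝ} (h : LocFin Φ r1) : ∃ K r2 c : ℝ, 0 ≤ K ∧ 0 < r2 ∧ r2 ≤ r1 / 2 ∧ 0 < c ∧
    ∀ (t : ℝ) (z ζ : ℝ × Vec k), ‖z.2‖ ≤ r2 →
      c * (eu ζ - ζ.1) + ‖z.2‖ ^ 2 * eu ζ ≤ cf Φ K t z * Φ t z ζ - al Φ t z ζ := by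
  obtain ⟨c1, C1, hc1, hC1, hcoef, hbd⟩ := bounds h
  obtain ⟨c0, hc0, hconv⟩ := low_conv h
  obtain ⟨C2, hC2, hmid⟩ := mid h
  obtain ⟨C3, hC3, hlow⟩ := low_w h
  obtain ⟨c2, hc2, hQl⟩ := Qn_low h
  have hr1 := h.pos_r
  refine ⟨((C1 * C2 + C1 ^ 2 + 2 * C3) + (C1 * C2 + C1 ^ 2 + 2 * C3) ^ 2 / (2 * c0) + 1) / (c1 * c2),
    min (r1 / 2) (1 / (2 * C1)), c0 / 2, by positivity, lt_min (by positivity) (by positivity),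
    min_le_left _ _, by positivity, ?_⟩
  rintro t ⟨θ, w⟩ ζ hw
  replace hw : ‖w‖ ≤ min (r1 / 2) (1 / (2 * C1)) := hw
  have hw1 : ‖w‖ ≤ r1 / 2 := hw.trans (min_le_left _ _)
  have hw2 : C1 * ‖w‖ ≤ 1 / 2 := by
    have h1 : C1 * ‖w‖ ≤ C1 * (1 / (2 * C1)) := mul_le_mul_of_nonneg_left (hw.trans (min_le_right _ _)) hC1.le
    have h2 : C1 * (1 / (2 * C1)) = 1 / 2 := by field_simp
    linarith
  obtain ⟨he1, he2, hP, hg, hp', hl⟩ := hcoef t θ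
  obtain ⟨hE, hζ1, -, -, -, hS, -, -, -⟩ := eu_facts ζ
  have hL : |inner ℝ (ln Φ t θ) w| ≤ C1 * ‖w‖ := FN4_inner hl
  have hG : |inner ℝ (gn Φ t θ) w| ≤ C1 * ‖w‖ := FN4_inner hg
  have hq : √(eu ζ * (eu ζ - ζ.1)) ^ 2 = eu ζ * (eu ζ - ζ.1) := Real.sq_sqrt (mul_nonneg hE hS)
  exact FN4_low hc0 hc1 hc2 hC1 hC2 hC3 (norm_nonneg w) hE (Real.sqrt_nonneg _) hS hq hζ1 hL
    (hL.trans hw2) hG (FN4_ln Φ t θ w (hc1.trans_le he1).ne') (hconv t θ ζ) (hmid t θ ζ)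
    (hlow t θ w ζ hw1) (hbd t (θ, w) ζ hw1).1 (hQl t θ w) rfl

theorem core_upp {Φ : ℝ → ℝ × Vec k → ℝ × Vec k → ℝ} {r1 : ℝ} (h : LocFin Φ r1) {K : ℝ} (hK : 0 ≤ K) : ∃ C : ℝ, 0 < C ∧
    ∀ (t : ℝ) (z : ℝ × Vec k) (u : Vec k), ‖z.2‖ ≤ r1 / 2 → ‖u‖ ≤ 1 →
      cf Φ K t z * Φ t z (1, u) - al Φ t z (1, u) ≤ C * (‖z.2‖ ^ 2 + ‖u‖ ^ 2) := by
  obtain ⟨c1, C1, hc1, hC1, hcoef, hbd⟩ := bounds h
  obtain ⟨C3, hC3, hupp⟩ := upp_w h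
  obtain ⟨C4, hC4, hQu⟩ := (Qn_upp h).1
  have hr1 := h.pos_r
  refine ⟨2 * (K * C4) * C1 + 2 * C1 ^ 2 + (1 + C1 * (r1 / 2)) * C3 + C1 ^ 3, by positivity, ?_⟩
  rintro t ⟨θ, w⟩ u hw hu
  replace hw : ‖w‖ ≤ r1 / 2 := hw
  show (1 + inner ℝ (ln Φ t θ) w + K * Qn Φ t θ w) * Φ t (θ, w) (1, u) -
    (en Φ t θ * 1 + inner ℝ (deriv (pn Φ t) θ) w * 1 + inner ℝ (pn Φ t θ) u) ≤ _ * (‖w‖ ^ 2 + ‖u‖ ^ 2)
  obtain ⟨he1, he2, hP, hg, hp', hl⟩ := hcoef t θ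
  have hLe := FN4_ln Φ t θ w (hc1.trans_le he1).ne'
  have hL : |inner ℝ (ln Φ t θ) w| ≤ C1 * ‖w‖ := FN4_inner hl
  have hG : |inner ℝ (gn Φ t θ) w| ≤ C1 * ‖w‖ := FN4_inner hg
  have hp : |inner ℝ (deriv (pn Φ t) θ) w| ≤ C1 * ‖w‖ := FN4_inner hp'
  have hPu : |inner ℝ (pn Φ t θ) u| ≤ C1 * ‖u‖ := FN4_inner hP
  have hu1 := hupp t θ w u hw hu
  obtain ⟨hb1, hb2⟩ := hbd t (θ, w) (1, u) hw
  obtain ⟨hE, -, -, -, hE2, -⟩ := eu_facts ((1, u) : ℝ × Vec k)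
  have hn : ‖((1, u) : ℝ × Vec k)‖ ≤ 1 := by
    rw [Prod.norm_mk]
    exact max_le (by rw [norm_one]) hu
  have hΦ2 : Φ t (θ, w) (1, u) ≤ 2 * C1 := by
    have h1 : C1 * eu ((1, u) : ℝ × Vec k) ≤ C1 * 2 := mul_le_mul_of_nonneg_left (by linarith) hC1.le
    linarith
  have hΦ0 : 0 ≤ Φ t (θ, w) (1, u) := (mul_nonneg hc1.le hE).trans hb1
  have hQ := (abs_le.1 (hQu t θ w)).2
  generalize Qn Φ t θ w = Q at *
  generalize Φ t (θ, w) (1, u) = F at *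
  generalize inner ℝ (ln Φ t θ) w = L at *
  generalize inner ℝ (gn Φ t θ) w = G at *
  generalize inner ℝ (deriv (pn Φ t) θ) w = p' at *
  generalize inner ℝ (pn Φ t θ) u = Pu at *
  generalize en Φ t θ = e at *
  have hW := norm_nonneg w
  have hU := norm_nonneg u
  generalize ‖w‖ = W at *
  generalize ‖u‖ = U at *
  have hR : 0 ≤ W ^ 2 + U ^ 2 := by positivity
  have hKF : K * Q * F ≤ 2 * (K * C4) * C1 * (W ^ 2 + U ^ 2) := by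
    have h0 : K * Q * F ≤ K * (C4 * W ^ 2) * F :=
      mul_le_mul_of_nonneg_right (mul_le_mul_of_nonneg_left hQ hK) hΦ0
    have h1 : K * (C4 * W ^ 2) * F ≤ K * (C4 * W ^ 2) * (2 * C1) :=
      mul_le_mul_of_nonneg_left hΦ2 (by positivity)
    have h2 : 0 ≤ 2 * (K * C4) * C1 * U ^ 2 := by positivity
    linarith
  have hsplit : (1 + L + K * Q) * F = (1 + L) * F + K * Q * F := by ring
  have hc : (2 * (K * C4) * C1 + 2 * C1 ^ 2 + (1 + C1 * (r1 / 2)) * C3 + C1 ^ 3) * (W ^ 2 + U ^ 2) =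
      2 * (K * C4) * C1 * (W ^ 2 + U ^ 2) + 2 * C1 ^ 2 * (W ^ 2 + U ^ 2) +
        (1 + C1 * (r1 / 2)) * C3 * (W ^ 2 + U ^ 2) + C1 ^ 3 * (W ^ 2 + U ^ 2) := by ring
  have hA : 0 ≤ 2 * C1 ^ 2 * (W ^ 2 + U ^ 2) := by positivity
  have hB : 0 ≤ (1 + C1 * (r1 / 2)) * C3 * (W ^ 2 + U ^ 2) := by positivity
  have hD : 0 ≤ C1 ^ 3 * (W ^ 2 + U ^ 2) := by positivity
  rw [hsplit, hc]
  rcases le_or_gt 0 (1 + L) with h0 | h0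
  · have h1 : (1 + L) * F ≤ (1 + L) * (e + G + Pu + C3 * (W ^ 2 + U ^ 2)) :=
      mul_le_mul_of_nonneg_left hu1 h0
    have h2 : (1 + L) * (e + G + Pu + C3 * (W ^ 2 + U ^ 2)) =
        e + (L * e + G) + Pu + L * G + L * Pu + (1 + L) * (C3 * (W ^ 2 + U ^ 2)) := by ring
    rw [hLe] at h2
    have h3 : L * G ≤ C1 * W * (C1 * W) := by
      have h4 : |L * G| ≤ C1 * W * (C1 * W) := by
        rw [abs_mul]
        exact mul_le_mul hL hG (abs_nonneg _) (by positivity)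
      exact (abs_le.1 h4).2
    have h5 : L * Pu ≤ C1 * W * (C1 * U) := by
      have h6 : |L * Pu| ≤ C1 * W * (C1 * U) := by
        rw [abs_mul]
        exact mul_le_mul hL hPu (abs_nonneg _) (by positivity)
      exact (abs_le.1 h6).2
    have h7 : (1 + L) * (C3 * (W ^ 2 + U ^ 2)) ≤ (1 + C1 * (r1 / 2)) * (C3 * (W ^ 2 + U ^ 2)) := by
      refine mul_le_mul_of_nonneg_right ?_ (by positivity)
      have h8 : C1 * W ≤ C1 * (r1 / 2) := mul_le_mul_of_nonneg_left hw hC1.le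
      have h9 := (abs_le.1 hL).2
      linarith
    have h10 : C1 * W * (C1 * W) + C1 * W * (C1 * U) ≤ 2 * C1 ^ 2 * (W ^ 2 + U ^ 2) := by
      have h11 : 2 * C1 ^ 2 * (W ^ 2 + U ^ 2) - (C1 * W * (C1 * W) + C1 * W * (C1 * U)) =
          C1 ^ 2 * ((W - U) ^ 2 / 2 + W ^ 2 / 2 + 3 / 2 * U ^ 2) := by ring
      have h12 : 0 ≤ C1 ^ 2 * ((W - U) ^ 2 / 2 + W ^ 2 / 2 + 3 / 2 * U ^ 2) := by positivity
      linarith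
    linarith
  · have h1 : (1 + L) * F ≤ 0 := mul_nonpos_of_nonpos_of_nonneg h0.le hΦ0
    have h2 : 1 ≤ C1 * W := by
      have h3 := (abs_le.1 hL).1
      linarith
    have h4 : 1 ≤ C1 ^ 2 * W ^ 2 := by nlinarith
    have h5 : C1 * W ≤ C1 ^ 2 * W ^ 2 := by nlinarith
    have h6 : C1 * U ≤ C1 ^ 3 * W ^ 2 := by
      have h7 : C1 * U ≤ C1 * 1 := mul_le_mul_of_nonneg_left hu hC1.le
      have h8 : C1 * 1 ≤ C1 * (C1 ^ 2 * W ^ 2) := mul_le_mul_of_nonneg_left h4 hC1.le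
      have h9 : C1 * (C1 ^ 2 * W ^ 2) = C1 ^ 3 * W ^ 2 := by ring
      linarith
    have h10 := (abs_le.1 hp).1
    have h11 := (abs_le.1 hPu).1
    have h12 : 0 ≤ C1 ^ 2 * W ^ 2 + 2 * C1 ^ 2 * U ^ 2 := by positivity
    have h13 : 0 ≤ C1 ^ 3 * U ^ 2 := by positivity
    have h14 : 0 < e := hc1.trans_le he1
    nlinarith

theorem core_eq (Φ : ℝ → ℝ × Vec k → ℝ × Vec k → ℝ) (K t θ : ℝ) : cf Φ K t (θ, 0) = 1 ∧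
    al Φ t (θ, 0) (1, 0) = en Φ t θ := by
  constructor
  · show 1 + inner ℝ (ln Φ t θ) (0 : Vec k) + K * ((en Φ t θ)⁻¹ *
      fderiv ℝ (fderiv ℝ (lg (Φ t))) (θ, 0, 0) (0, 0, (0 : Vec k)) (0, 0, (0 : Vec k))) = 1
    have h0 : ((0, 0, (0 : Vec k)) : ℝ × Vec k × Vec k) = 0 := rfl
    rw [inner_zero_right, h0, map_zero, mul_zero, mul_zero, add_zero, add_zero]
  · show en Φ t θ * 1 + inner ℝ (deriv (pn Φ t) θ) (0 : Vec k) * 1 + inner ℝ (pn Φ t θ) (0 : Vec k) = _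
    rw [inner_zero_right, inner_zero_right]
    ring

theorem cf_near {Φ : ℝ → ℝ × Vec k → ℝ × Vec k → ℝ} {r1 : ℝ} (h : LocFin Φ r1) {K : ℝ} (hK : 0 ≤ K) : ∃ C : ℝ, 0 < C ∧ ∀ (t : ℝ) (z : ℝ × Vec k),
    ‖z.2‖ ≤ 1 → |cf Φ K t z - 1| ≤ C * ‖z.2‖ := by
  obtain ⟨c1, C1, hc1, hC1, hcoef, hbd⟩ := bounds h
  obtain ⟨C4, hC4, hQu⟩ := (Qn_upp h).1
  refine ⟨C1 + K * C4, by positivity, ?_⟩
  rintro t ⟨θ, w⟩ hw
  replace hw : ‖w‖ ≤ 1 := hw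
  show |1 + inner ℝ (ln Φ t θ) w + K * Qn Φ t θ w - 1| ≤ (C1 + K * C4) * ‖w‖
  obtain ⟨he1, he2, hP, hg, hp', hl⟩ := hcoef t θ
  have hL : |inner ℝ (ln Φ t θ) w| ≤ C1 * ‖w‖ := FN4_inner hl
  have h1 : |K * Qn Φ t θ w| ≤ K * C4 * ‖w‖ := by
    rw [abs_mul, abs_of_nonneg hK, mul_assoc]
    refine mul_le_mul_of_nonneg_left ((hQu t θ w).trans ?_) hK
    refine mul_le_mul_of_nonneg_left ?_ hC4.le
    have h2 := norm_nonneg w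
    nlinarith
  have h3 : 1 + inner ℝ (ln Φ t θ) w + K * Qn Φ t θ w - 1 = inner ℝ (ln Φ t θ) w + K * Qn Φ t θ w := by ring
  rw [h3]
  refine (abs_add_le _ _).trans ?_
  linarith

end EscW.Fn
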