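import Pool.Agent.EscW.ONDefs

set_option autoImplicit false

/-!
Project EscW, part O, module O5: the function `h`.
`hf_fd`: product rule. `hf_small`: `χ = 0` and `Dχ = 0` for `rc ≤ ‖w‖` (a closed condition for `χ`; the derivative of `χ` vanishes on the closure of the open set `rc < ‖w‖`, or: `χ ≥ 0` has a minimum there), so `‖w‖ ≤ rc` may be assumed; `|S θ - a θ| ≤ σ`: on `[0,1]` by
`S 0 = 0` and `|S' - a| ≤ σ`, then periodicity of `S θ - a θ`; all terms are `≤ C σ` with `C = 10 (1 + rc) (1 + Cχ)` or so (`σ ≤ 1`).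
-/

noncomputable section

namespace EscW.On

open Filter Topology Set EscF.T EscM EscMT MeasureTheory EscW.Ex EscW.Dn
open scoped ContDiff

variable {d m k j n : ℕ}

theorem exists_cut {rc : ℝ} (hrc : 0 < rc) : ∃ (χ : Vec k → ℝ) (C : ℝ), ContDiff ℝ 1 χ ∧ 0 < C ∧
    (∀ w, 0 ≤ χ w ∧ χ w ≤ 1) ∧ (∀ w, ‖fderiv ℝ χ w‖ ≤ C) ∧ (∀ w, ‖w‖ < rc / 2 → χ w = 1) ∧
    ∀ w, rc ≤ ‖w‖ → χ w = 0 := by
  let f : ContDiffBump (0 : Vec k) := ⟨rc / 2, rc, by linarith, by linarith⟩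
  have hf : ContDiff ℝ 1 (fun w : Vec k => f w) := f.contDiff
  have hc : HasCompactSupport (fun w : Vec k => f w) := f.hasCompactSupport
  obtain ⟨C, hC⟩ := (hf.continuous_fderiv one_ne_zero).bounded_above_of_compact_support
    (hc.fderiv (𝕜 := ℝ))
  refine ⟨fun w => f w, |C| + 1, hf, by positivity, fun w => ⟨f.nonneg, f.le_one⟩,
    fun w => (hC w).trans ((le_abs_self C).trans (by linarith)), fun w hw => ?_, fun w hw => ?_⟩
  · refine f.one_of_mem_closedBall ?_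
    rw [mem_closedBall_zero_iff]
    exact hw.le
  · refine f.zero_of_le_dist ?_
    rw [dist_zero_right]
    exact hw

theorem hf_fd {χ : Vec k → ℝ} (hχ : ContDiff ℝ 1 χ) {S : ℝ → ℝ} (hS : ContDiff ℝ 1 S) {w p : ℝ → Vec k}
    (hw : ContDiff ℝ 1 w) (hp : ContDiff ℝ 1 p) (a : ℝ) (z ζ : ℝ × Vec k) :
    fderiv ℝ (hf χ S a w p) z ζ =
      χ z.2 * ((deriv S z.1 - a) * ζ.1 + ζ.1 * inner ℝ (deriv p z.1) (z.2 - w z.1) +
        inner ℝ (p z.1) (ζ.2 - ζ.1 • deriv w z.1)) +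
      fderiv ℝ χ z.2 ζ.2 * (S z.1 - a * z.1 + inner ℝ (p z.1) (z.2 - w z.1)) := by
  have e1 : HasFDerivAt (fun z : ℝ × Vec k => z.1) (ContinuousLinearMap.fst ℝ ℝ (Vec k)) z :=
    hasFDerivAt_fst
  have e2 : HasFDerivAt (fun z : ℝ × Vec k => z.2) (ContinuousLinearMap.snd ℝ ℝ (Vec k)) z :=
    hasFDerivAt_snd
  have h1 : HasFDerivAt (fun z : ℝ × Vec k => χ z.2)
      ((fderiv ℝ χ z.2).comp (ContinuousLinearMap.snd ℝ ℝ (Vec k))) z :=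
    ((hχ.differentiable one_ne_zero z.2).hasFDerivAt).comp z e2
  have h2 : HasFDerivAt (fun z : ℝ × Vec k => S z.1)
      ((fderiv ℝ S z.1).comp (ContinuousLinearMap.fst ℝ ℝ (Vec k))) z :=
    ((hS.differentiable one_ne_zero z.1).hasFDerivAt).comp z e1
  have h3 : HasFDerivAt (fun z : ℝ × Vec k => w z.1)
      ((fderiv ℝ w z.1).comp (ContinuousLinearMap.fst ℝ ℝ (Vec k))) z :=
    ((hw.differentiable one_ne_zero z.1).hasFDerivAt).comp z e1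
  have h4 : HasFDerivAt (fun z : ℝ × Vec k => p z.1)
      ((fderiv ℝ p z.1).comp (ContinuousLinearMap.fst ℝ ℝ (Vec k))) z :=
    ((hp.differentiable one_ne_zero z.1).hasFDerivAt).comp z e1
  have h5 := h1.mul (((h2.sub (e1.const_mul a))).add (h4.inner ℝ (e2.sub h3)))
  have h6 : HasFDerivAt (hf χ S a w p) _ z := h5
  have d1 : ∀ x : ℝ, fderiv ℝ S z.1 x = x * deriv S z.1 := fun x => fderiv_eq_smul_deriv x
  have d2 : ∀ x : ℝ, fderiv ℝ w z.1 x = x • deriv w z.1 := fun x => fderiv_eq_smul_deriv x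
  have d3 : ∀ x : ℝ, fderiv ℝ p z.1 x = x • deriv p z.1 := fun x => fderiv_eq_smul_deriv x
  rw [h6.fderiv]
  simp only [add_apply, smul_apply, sub_apply, ContinuousLinearMap.comp_apply, ContinuousLinearMap.coe_fst',
    ContinuousLinearMap.coe_snd', fderivInnerCLM_apply, ContinuousLinearMap.prod_apply, d1, d2, d3,
    smul_eq_mul, inner_smul_left, Pi.add_apply, Pi.sub_apply]
  simp
  ring

theorem hf_smooth {χ : Vec k → ℝ} (hχ : ContDiff ℝ 1 χ) {S : ℝ → ℝ} (hS : ContDiff ℝ 1 S) {w p : ℝ → Vec k}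
    (hw : ContDiff ℝ 1 w) (hp : ContDiff ℝ 1 p) (a : ℝ) : ContDiff ℝ 1 (hf χ S a w p) :=
  (hχ.comp contDiff_snd).mul (((hS.comp contDiff_fst).sub (contDiff_const.mul contDiff_fst)).add
    ((hp.comp contDiff_fst).inner ℝ (contDiff_snd.sub (hw.comp contDiff_fst))))

theorem hf_per (χ : Vec k → ℝ) {S : ℝ → ℝ} {a : ℝ} (hS : ∀ θ, S (θ + 1) = S θ + a) {w p : ℝ → Vec k}
    (hw : ∀ θ, w (θ + 1) = w θ) (hp : ∀ θ, p (θ + 1) = p θ) (θ : ℝ) (v : Vec k) :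
    hf χ S a w p (θ + 1, v) = hf χ S a w p (θ, v) := by
  simp only [hf, hS, hw, hp]
  ring

theorem O5_per {σ a : ℝ} {S : ℝ → ℝ} (hσ : 0 ≤ σ) (hS : ContDiff ℝ 1 S) (h0 : S 0 = 0)
    (hper : ∀ θ, S (θ + 1) = S θ + a) (hd : ∀ θ, |deriv S θ - a| ≤ σ) (q : ℝ) :
    |S q - a * q| ≤ σ := by
  have hg : Function.Periodic (fun θ => S θ - a * θ) 1 := fun θ => by
    simp only [hper]
    ring
  have h1 : S q - a * q = S (Int.fract q) - a * Int.fract q := by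
    have := hg.sub_zsmul_eq ⌊q⌋ (x := q)
    simp only [zsmul_eq_mul, mul_one] at this
    rw [← this]
    rfl
  have hdiff : ∀ θ, HasDerivAt (fun θ => S θ - a * θ) (deriv S θ - a) θ := fun θ => by
    have h2 : HasDerivAt (fun θ => S θ - a * θ) (deriv S θ - a * 1) θ :=
      (hS.differentiable one_ne_zero θ).hasDerivAt.sub ((hasDerivAt_id' θ).const_mul a)
    rwa [mul_one] at h2
  have h2 := Convex.norm_image_sub_le_of_norm_hasDerivWithin_le (s := univ)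
    (f := fun θ => S θ - a * θ) (f' := fun θ => deriv S θ - a) (C := σ)
    (fun θ _ => (hdiff θ).hasDerivWithinAt) (fun θ _ => by rw [Real.norm_eq_abs]; exact hd θ)
    convex_univ (mem_univ 0) (mem_univ (Int.fract q))
  simp only [h0, mul_zero, sub_zero, Real.norm_eq_abs] at h2
  rw [h1]
  refine h2.trans ?_
  rw [abs_of_nonneg (Int.fract_nonneg q)]
  have := Int.fract_lt_one q
  nlinarith [Int.fract_nonneg q]

theorem hf_small {χ : Vec k → ℝ} {rc Cχ : ℝ} (hrc : 0 < rc) (hχ : ContDiff ℝ 1 χ)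
    (h01 : ∀ w, 0 ≤ χ w ∧ χ w ≤ 1) (hC : ∀ w, ‖fderiv ℝ χ w‖ ≤ Cχ) (h0 : ∀ w, rc ≤ ‖w‖ → χ w = 0) :
    ∃ C : ℝ, 0 < C ∧ ∀ (σ a : ℝ) (S : ℝ → ℝ) (w p : ℝ → Vec k), 0 ≤ σ → σ ≤ 1 → ContDiff ℝ 1 S →
      ContDiff ℝ 1 w → ContDiff ℝ 1 p → S 0 = 0 → (∀ θ, S (θ + 1) = S θ + a) → (∀ θ, w (θ + 1) = w θ) →
      (∀ θ, p (θ + 1) = p θ) → (∀ θ, |deriv S θ - a| ≤ σ) → (∀ θ, ‖w θ‖ ≤ σ) → (∀ θ, ‖deriv w θ‖ ≤ σ) →
      (∀ θ, ‖p θ‖ ≤ σ) → (∀ θ, ‖deriv p θ‖ ≤ σ) → ∀ z, ‖fderiv ℝ (hf χ S a w p) z‖ ≤ C * σ := by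
  have hCχ : 0 ≤ Cχ := (norm_nonneg _).trans (hC 0)
  refine ⟨(rc + 4) + Cχ * (rc + 2), by positivity, ?_⟩
  intro σ a S w p hσ hσ1 hS hw hp hS0 hSper _ _ hSd hw1 hw2 hp1 hp2 z
  refine ContinuousLinearMap.opNorm_le_bound _ (by positivity) fun ζ => ?_
  rw [hf_fd hχ hS hw hp]
  rcases le_or_gt rc ‖z.2‖ with hz | hz
  · have e1 : χ z.2 = 0 := h0 _ hz
    have e2 : fderiv ℝ χ z.2 = 0 := by
      have : IsLocalMin χ z.2 := Filter.Eventually.of_forall fun x => by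
        rw [e1]
        exact (h01 x).1
      exact this.fderiv_eq_zero
    rw [e1, e2]
    simp only [zero_mul, zero_apply, add_zero, norm_zero]
    positivity
  · have hζ1 : |ζ.1| ≤ ‖ζ‖ := norm_fst_le ζ
    have hζ2 : ‖ζ.2‖ ≤ ‖ζ‖ := norm_snd_le ζ
    have hn := norm_nonneg ζ
    have b1 : ‖z.2 - w z.1‖ ≤ rc + 1 := (norm_sub_le _ _).trans (by linarith [hw1 z.1])
    have b2 : |inner ℝ (deriv p z.1) (z.2 - w z.1)| ≤ σ * (rc + 1) :=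
      (abs_real_inner_le_norm _ _).trans (mul_le_mul (hp2 z.1) b1 (norm_nonneg _) hσ)
    have b3 : |inner ℝ (p z.1) (z.2 - w z.1)| ≤ σ * (rc + 1) :=
      (abs_real_inner_le_norm _ _).trans (mul_le_mul (hp1 z.1) b1 (norm_nonneg _) hσ)
    have b4 : ‖ζ.2 - ζ.1 • deriv w z.1‖ ≤ 2 * ‖ζ‖ := by
      refine (norm_sub_le _ _).trans ?_
      rw [norm_smul, Real.norm_eq_abs]
      have : |ζ.1| * ‖deriv w z.1‖ ≤ ‖ζ‖ * 1 :=
        mul_le_mul hζ1 ((hw2 z.1).trans hσ1) (norm_nonneg _) hn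
      linarith
    have b5 : |inner ℝ (p z.1) (ζ.2 - ζ.1 • deriv w z.1)| ≤ σ * (2 * ‖ζ‖) :=
      (abs_real_inner_le_norm _ _).trans (mul_le_mul (hp1 z.1) b4 (norm_nonneg _) hσ)
    have b6 : |S z.1 - a * z.1| ≤ σ := O5_per hσ hS hS0 hSper hSd z.1
    have b7 : |fderiv ℝ χ z.2 ζ.2| ≤ Cχ * ‖ζ‖ := by
      rw [← Real.norm_eq_abs]
      exact ((fderiv ℝ χ z.2).le_opNorm _).trans (mul_le_mul (hC _) hζ2 (norm_nonneg _) hCχ)
    have b8 : |(deriv S z.1 - a) * ζ.1| ≤ σ * ‖ζ‖ := by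
      rw [abs_mul]
      exact mul_le_mul (hSd z.1) hζ1 (abs_nonneg _) hσ
    have b9 : |ζ.1 * inner ℝ (deriv p z.1) (z.2 - w z.1)| ≤ ‖ζ‖ * (σ * (rc + 1)) := by
      rw [abs_mul]
      exact mul_le_mul hζ1 b2 (abs_nonneg _) hn
    have c1 : |(deriv S z.1 - a) * ζ.1 + ζ.1 * inner ℝ (deriv p z.1) (z.2 - w z.1) +
        inner ℝ (p z.1) (ζ.2 - ζ.1 • deriv w z.1)| ≤ σ * ‖ζ‖ * (rc + 4) := by
      refine (abs_add_le _ _).trans ?_
      have := abs_add_le ((deriv S z.1 - a) * ζ.1) (ζ.1 * inner ℝ (deriv p z.1) (z.2 - w z.1))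
      nlinarith
    have c2 : |S z.1 - a * z.1 + inner ℝ (p z.1) (z.2 - w z.1)| ≤ σ * (rc + 2) := by
      refine (abs_add_le _ _).trans ?_
      linarith
    rw [Real.norm_eq_abs]
    refine (abs_add_le _ _).trans ?_
    rw [abs_mul, abs_mul]
    have c3 : |χ z.2| ≤ 1 := by
      rw [abs_of_nonneg (h01 _).1]
      exact (h01 _).2
    have c4 : |χ z.2| * |(deriv S z.1 - a) * ζ.1 + ζ.1 * inner ℝ (deriv p z.1) (z.2 - w z.1) +
        inner ℝ (p z.1) (ζ.2 - ζ.1 • deriv w z.1)| ≤ 1 * (σ * ‖ζ‖ * (rc + 4)) :=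
      mul_le_mul c3 c1 (abs_nonneg _) zero_le_one
    have c5 : |fderiv ℝ χ z.2 ζ.2| * |S z.1 - a * z.1 + inner ℝ (p z.1) (z.2 - w z.1)| ≤
        Cχ * ‖ζ‖ * (σ * (rc + 2)) :=
      mul_le_mul b7 c2 (abs_nonneg _) (by positivity)
    calc _ ≤ 1 * (σ * ‖ζ‖ * (rc + 4)) + Cχ * ‖ζ‖ * (σ * (rc + 2)) := add_le_add c4 c5
      _ = ((rc + 4) + Cχ * (rc + 2)) * σ * ‖ζ‖ := by ring

end EscW.On
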