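import Pool.Agent.EscW.OTDefs
import Pool.Agent.EscW.O5

set_option autoImplicit false

/-!
Project EscW, part OT, module OT8: the function `h` is of class `C¹` in all variables.
`C1_of`: a function of `(t, θ)` which is `C10` and has a continuous partial derivative in `θ` is `C¹`. `Sl (Φ t) (w t) (u t) θ = ∫_0^θ f t`: `∂_θ = f`, `∂_t = ∫ ∂_t f` (dominated, `C10`): `C¹` in `(t, θ)`. `w`, `p`: `dw`, `dp`, `C10`. `hf` is a polynomial expression in these and `χ z.2`.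
`lip`: by `hf_fd` the derivative is `χ ((S' - a) ζ.1 + ζ.1 ⟪p', z.2 - w⟫ + ⟪p, ζ.2 - ζ.1 w'⟫) + Dχ ζ.2 (S - a θ + ⟪p, z.2 - w⟫)` with `S' = f t z.1`, `p' = gw`, `w' = u`, `a = S 1`: each of `f`, `gw`, `u`, `w`, `p`, `a`, `S θ - a θ` is bounded and Lipschitz in `t`, uniformly in `θ`
(`C10` and periodicity in `t` and `θ`: the `t`-derivative is bounded on `[0,1]²`, and it is periodic since the function is; `S_t θ - a_t θ` is periodic in `θ`). `χ z.2 = 0` and `Dχ z.2 = 0` for `‖z.2‖ > R`, so `‖z.2‖ ≤ R` may be assumed.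
-/

noncomputable section

namespace EscW.Ot

open Filter Topology Set EscF.T EscM EscMT MeasureTheory EscW.Ex EscW.Dn EscW.On
open scoped ContDiff

variable {d m k j n : ℕ}

theorem C1_of {E : Type*} [NormedAddCommGroup E] [NormedSpace ℝ E] {f g : ℝ → ℝ → E} (hf : C10 f)
    (hg : Continuous (fun y : ℝ × ℝ => g y.1 y.2)) (hd : ∀ t θ, HasDerivAt (f t) (g t θ) θ) :
    ContDiff ℝ 1 (fun y : ℝ × ℝ => f y.1 y.2) := by
  obtain ⟨hc, f', hf', hd'⟩ := hf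
  have hT : Continuous (fun x : E => ContinuousLinearMap.toSpanSingleton ℝ x) :=
    (ContinuousLinearMap.toSpanSingletonCLE (𝕜 := ℝ) (E := E)).continuous
  have h1 : Continuous (fun y : ℝ × ℝ => ContinuousLinearMap.toSpanSingleton ℝ (f' y.1 y.2)) :=
    hT.comp hf'
  have h2 : Continuous (fun y : ℝ × ℝ => ContinuousLinearMap.toSpanSingleton ℝ (g y.1 y.2)) :=
    hT.comp hg
  rw [contDiff_one_iff_hasFDerivAt]
  refine ⟨fun y => (ContinuousLinearMap.toSpanSingleton ℝ (f' y.1 y.2)).comp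
      (ContinuousLinearMap.fst ℝ ℝ ℝ) + (ContinuousLinearMap.toSpanSingleton ℝ (g y.1 y.2)).comp
      (ContinuousLinearMap.snd ℝ ℝ ℝ), ?_, fun y => ?_⟩
  · exact (h1.clm_comp continuous_const).add (h2.clm_comp continuous_const)
  · have h3 := hasStrictFDerivAt_uncurry_coprod (𝕜 := ℝ) (u := y) (f := f)
      (f₁ := fun t θ => ContinuousLinearMap.toSpanSingleton ℝ (f' t θ))
      (f₂ := fun t θ => ContinuousLinearMap.toSpanSingleton ℝ (g t θ))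
      (Eventually.of_forall fun v => (hd' v.1 v.2).hasFDerivAt)
      (Eventually.of_forall fun v => (hd v.1 v.2).hasFDerivAt) h1.continuousAt h2.continuousAt
    refine h3.hasFDerivAt.congr_fderiv ?_
    ext <;> simp [Function.HasUncurry.uncurry]

theorem OT8_int {E : Type*} [NormedAddCommGroup E] [NormedSpace ℝ E] {f f' : ℝ → ℝ → E}
    (hf : Continuous (fun y : ℝ × ℝ => f y.1 y.2)) (hf' : Continuous (fun y : ℝ × ℝ => f' y.1 y.2))
    (hd : ∀ t θ, HasDerivAt (fun t => f t θ) (f' t θ) t) (a b t : ℝ) :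
    HasDerivAt (fun t => ∫ τ in a..b, f t τ) (∫ τ in a..b, f' t τ) t := by
  have hft : ∀ t, Continuous (f t) := fun t => hf.comp (Continuous.prodMk_right t)
  have hft' : ∀ t, Continuous (f' t) := fun t => hf'.comp (Continuous.prodMk_right t)
  obtain ⟨C, hC⟩ := (((isCompact_Icc (a := t - 1) (b := t + 1)).prod
    (isCompact_uIcc (a := a) (b := b))).exists_bound_of_continuousOn hf'.continuousOn)
  refine (intervalIntegral.hasDerivAt_integral_of_dominated_loc_of_deriv_le (F := f) (F' := f')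
    (s := Icc (t - 1) (t + 1)) (bound := fun _ => C)
    (Icc_mem_nhds (by linarith) (by linarith)) (Eventually.of_forall fun s =>
      (hft s).aestronglyMeasurable) ((hft t).intervalIntegrable _ _)
    (hft' t).aestronglyMeasurable ?_ intervalIntegrable_const ?_).2
  · exact Eventually.of_forall fun τ hτ s hs => hC (s, τ) ⟨hs, uIoc_subset_uIcc hτ⟩
  · exact Eventually.of_forall fun τ _ s _ => hd s τ

theorem int_C10 {f : ℝ → ℝ → ℝ} (hf : C10 f) (θ0 : ℝ) :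
    ContDiff ℝ 1 (fun y : ℝ × ℝ => ∫ τ in θ0..y.2, f y.1 τ) := by
  obtain ⟨hc, f', hf', hd'⟩ := hf
  have hft : ∀ t, Continuous (f t) := fun t => hc.comp (Continuous.prodMk_right t)
  refine C1_of (f := fun t θ => ∫ τ in θ0..θ, f t τ) (g := f) ⟨?_, fun t θ => ∫ τ in θ0..θ, f' t τ,
    ?_, fun t θ => OT8_int hc hf' hd' θ0 θ t⟩ hc fun t θ => ?_
  · exact intervalIntegral.continuous_parametric_intervalIntegral_of_continuous
      (f := fun (y : ℝ × ℝ) τ => f y.1 τ)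
      (hc.comp ((continuous_fst.comp continuous_fst).prodMk continuous_snd)) continuous_snd
  · exact intervalIntegral.continuous_parametric_intervalIntegral_of_continuous
      (f := fun (y : ℝ × ℝ) τ => f' y.1 τ)
      (hf'.comp ((continuous_fst.comp continuous_fst).prodMk continuous_snd)) continuous_snd
  · exact intervalIntegral.integral_hasDerivAt_right ((hft t).intervalIntegrable _ _)
      (hft t).aestronglyMeasurable.stronglyMeasurableAtFilter (hft t).continuousAt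

theorem OT8_bdd {E : Type*} [NormedAddCommGroup E] {f : ℝ → ℝ → E}
    (hf : Continuous (fun y : ℝ × ℝ => f y.1 y.2)) (hp : Per2 f) :
    ∃ A : ℝ, 0 ≤ A ∧ ∀ t θ, ‖f t θ‖ ≤ A := by
  obtain ⟨C, hC⟩ := (((isCompact_Icc (a := (0:ℝ)) (b := 1)).prod
    (isCompact_Icc (a := (0:ℝ)) (b := 1))).exists_bound_of_continuousOn hf.continuousOn)
  refine ⟨max C 0, le_max_right _ _, fun t θ => ?_⟩
  have h1 : Function.Periodic (fun t => f t θ) 1 := fun t => hp.1 t θ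
  have h2 : Function.Periodic (f (Int.fract t)) 1 := fun θ => hp.2 _ θ
  have h3 : f t θ = f (Int.fract t) (Int.fract θ) := by
    have h4 := h1.sub_zsmul_eq (x := t) ⌊t⌋
    have h5 := h2.sub_zsmul_eq (x := θ) ⌊θ⌋
    simp only [zsmul_eq_mul, mul_one] at h4 h5
    change f (Int.fract t) θ = f t θ at h4
    rw [← h4, ← h5]
    rfl
  rw [h3]
  refine (hC (Int.fract t, Int.fract θ) ⟨⟨Int.fract_nonneg _, (Int.fract_lt_one _).le⟩,
    ⟨Int.fract_nonneg _, (Int.fract_lt_one _).le⟩⟩).trans (le_max_left _ _)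

theorem C10_lip {E : Type*} [NormedAddCommGroup E] [NormedSpace ℝ E] {f : ℝ → ℝ → E} (hf : C10 f)
    (hp : Per2 f) : ∃ A : ℝ, 0 ≤ A ∧ (∀ t θ, ‖f t θ‖ ≤ A) ∧ ∀ t t' θ, ‖f t θ - f t' θ‖ ≤ A * |t - t'| := by
  obtain ⟨hc, f', hf', hd'⟩ := hf
  have hp' : Per2 f' := by
    refine ⟨fun t θ => ?_, fun t θ => ?_⟩
    · have h1 : HasDerivAt (fun s => f (s + 1) θ) (f' (t + 1) θ) t :=
        (hd' (t + 1) θ).comp_add_const t 1
      have h2 : (fun s => f (s + 1) θ) = fun s => f s θ := funext fun s => hp.1 s θ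
      rw [h2] at h1
      exact h1.unique (hd' t θ)
    · have h1 := hd' t (θ + 1)
      have h2 : (fun s => f s (θ + 1)) = fun s => f s θ := funext fun s => hp.2 s θ
      rw [h2] at h1
      exact h1.unique (hd' t θ)
  obtain ⟨A, hA0, hA⟩ := OT8_bdd hc hp
  obtain ⟨B, hB0, hB⟩ := OT8_bdd hf' hp'
  refine ⟨max A B, le_max_of_le_left hA0, fun t θ => (hA t θ).trans (le_max_left _ _),
    fun t t' θ => ?_⟩
  have h := Convex.norm_image_sub_le_of_norm_hasDerivWithin_le (f := fun t => f t θ)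
    (f' := fun t => f' t θ) (C := B) (s := univ) (x := t') (y := t)
    (fun s _ => (hd' s θ).hasDerivWithinAt) (fun s _ => hB s θ) convex_univ (mem_univ _) (mem_univ _)
  rw [Real.norm_eq_abs] at h
  exact h.trans (mul_le_mul_of_nonneg_right (le_max_right _ _) (abs_nonneg _))

theorem OT8_w {Φ : ℝ → ℝ × Vec k → ℝ × Vec k → ℝ} {r2 : ℝ} {w u p : ℝ → ℝ → Vec k}
    (h : CurveT Φ r2 w u p) : ContDiff ℝ 1 (fun y : ℝ × ℝ => w y.1 y.2) :=
  C1_of h.w_reg h.u_reg.1 fun t => (h.curve t).dw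

theorem OT8_p {Φ : ℝ → ℝ × Vec k → ℝ × Vec k → ℝ} {r2 : ℝ} {w u p : ℝ → ℝ → Vec k}
    (h : CurveT Φ r2 w u p) : ContDiff ℝ 1 (fun y : ℝ × ℝ => p y.1 y.2) :=
  C1_of h.p_reg h.g_reg.1 fun t => (h.curve t).dp

theorem OT8_S {Φ : ℝ → ℝ × Vec k → ℝ × Vec k → ℝ} {r2 : ℝ} {w u p : ℝ → ℝ → Vec k}
    (h : CurveT Φ r2 w u p) : ContDiff ℝ 1 (fun y : ℝ × ℝ => Sl (Φ y.1) (w y.1) (u y.1) y.2) :=
  int_C10 h.f_reg 0

theorem hl_smooth {χ : Vec k → ℝ} (hχ : ContDiff ℝ 1 χ) {Φ : ℝ → ℝ × Vec k → ℝ × Vec k → ℝ} {r2 : ℝ}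
    {w u p : ℝ → ℝ → Vec k} (h : CurveT Φ r2 w u p) :
    ContDiff ℝ 1 (fun y : ℝ × (ℝ × Vec k) => hl χ (Φ y.1) (w y.1) (u y.1) (p y.1) y.2) ∧
      ContDiff ℝ 1 (fun t => Sl (Φ t) (w t) (u t) 1) := by
  have h1 : ContDiff ℝ 1 (fun t => Sl (Φ t) (w t) (u t) 1) :=
    (OT8_S h).comp (contDiff_id.prodMk contDiff_const)
  refine ⟨?_, h1⟩
  have hy : ContDiff ℝ 1 (fun y : ℝ × (ℝ × Vec k) => (y.1, y.2.1)) :=
    contDiff_fst.prodMk (contDiff_fst.comp contDiff_snd)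
  have e1 : ContDiff ℝ 1 (fun y : ℝ × (ℝ × Vec k) => χ y.2.2) :=
    hχ.comp (contDiff_snd.comp contDiff_snd)
  have e2 : ContDiff ℝ 1 (fun y : ℝ × (ℝ × Vec k) => Sl (Φ y.1) (w y.1) (u y.1) y.2.1) :=
    (OT8_S h).comp hy
  have e3 : ContDiff ℝ 1 (fun y : ℝ × (ℝ × Vec k) => Sl (Φ y.1) (w y.1) (u y.1) 1 * y.2.1) :=
    (h1.comp contDiff_fst).mul (contDiff_fst.comp contDiff_snd)
  have e4 : ContDiff ℝ 1 (fun y : ℝ × (ℝ × Vec k) => p y.1 y.2.1) := (OT8_p h).comp hy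
  have e5 : ContDiff ℝ 1 (fun y : ℝ × (ℝ × Vec k) => y.2.2 - w y.1 y.2.1) :=
    (contDiff_snd.comp contDiff_snd).sub ((OT8_w h).comp hy)
  exact e1.mul ((e2.sub e3).add (e4.inner ℝ e5))

theorem OT8_open (r : ℝ) : IsOpen (LD k r) :=
  (isOpen_lt (continuous_norm.comp (continuous_fst.comp continuous_snd)) continuous_const).inter
    (isOpen_lt (continuous_norm.comp (continuous_snd.comp continuous_snd)) continuous_const)

theorem OT8_gr_t {Φ0 : ℝ × Vec k → ℝ × Vec k → ℝ} {𝒜 : Set (ℝ × Vec k)} {r ℓ c c3 α β : ℝ}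
    (hb : AnnBase Φ0 𝒜 r ℓ c c3 α β) {Φ : ℝ → ℝ × Vec k → ℝ × Vec k → ℝ} {η : ℝ}
    (hn : AnnNearT Φ0 Φ 𝒜 r η) (t : ℝ) {y : ℝ × Vec k × Vec k} (hy : y ∈ LD k r) :
    lg (Φ (t + 1)) y = lg (Φ t) y ∧ fderiv ℝ (lg (Φ (t + 1))) y = fderiv ℝ (lg (Φ t)) y := by
  have h1 : ∀ y ∈ LD k r, lg (Φ (t + 1)) y = lg (Φ t) y := fun y hy =>
    hn.per_t t _ (hb.tube _ _ hy.1) _
  refine ⟨h1 y hy, Filter.EventuallyEq.fderiv_eq ?_⟩
  filter_upwards [(OT8_open r).mem_nhds hy] with z hz using h1 z hz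

theorem OT8_gr_θ {Φ0 : ℝ × Vec k → ℝ × Vec k → ℝ} {𝒜 : Set (ℝ × Vec k)} {r ℓ c c3 α β : ℝ}
    (hb : AnnBase Φ0 𝒜 r ℓ c c3 α β) {Φ : ℝ → ℝ × Vec k → ℝ × Vec k → ℝ} {η : ℝ}
    (hn : AnnNearT Φ0 Φ 𝒜 r η) (t θ : ℝ) {x : Vec k × Vec k} (hy : (θ, x) ∈ LD k r) :
    lg (Φ t) (θ + 1, x) = lg (Φ t) (θ, x) ∧
      fderiv ℝ (lg (Φ t)) (θ + 1, x) = fderiv ℝ (lg (Φ t)) (θ, x) := by
  have h1 : ∀ y ∈ LD k r, lg (Φ t) (y + (1, 0)) = lg (Φ t) y := by
    rintro ⟨θ', v, w⟩ hy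
    have h2 := (hn.near t).per θ' v (1, w) (hb.tube _ _ hy.1)
    unfold lg
    simpa using h2
  have h0 : ((θ, x) : ℝ × Vec k × Vec k) + (1, 0) = (θ + 1, x) := by simp
  refine ⟨?_, ?_⟩
  · rw [← h0]
    exact h1 _ hy
  · rw [← h0, ← fderiv_comp_add_right]
    refine Filter.EventuallyEq.fderiv_eq ?_
    filter_upwards [(OT8_open r).mem_nhds hy] with z hz using h1 z hz

theorem per_all {Φ0 : ℝ × Vec k → ℝ × Vec k → ℝ} {𝒜 : Set (ℝ × Vec k)} {r ℓ c c3 α β : ℝ}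
    (hb : AnnBase Φ0 𝒜 r ℓ c c3 α β) {Φ : ℝ → ℝ × Vec k → ℝ × Vec k → ℝ} {η : ℝ}
    (hn : AnnNearT Φ0 Φ 𝒜 r η) {r2 : ℝ} (h2 : r2 < r) {w u p : ℝ → ℝ → Vec k} (h : CurveT Φ r2 w u p) :
    Per2 w ∧ Per2 u ∧ Per2 p ∧ Per2 (fun t => fl (Φ t) (w t) (u t)) ∧
      Per2 (fun t θ => gw (lg (Φ t)) (θ, w t θ, u t θ)) := by
  have hw : Per2 w := ⟨h.w_t, fun t => (h.curve t).w_per⟩
  have hu : Per2 u := ⟨h.u_t, fun t => (h.curve t).u_per⟩
  have hLD : ∀ t θ, ((θ, w t θ, u t θ) : ℝ × Vec k × Vec k) ∈ LD k r := fun t θ =>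
    ⟨((h.curve t).w_small θ).trans_lt h2, ((h.curve t).u_small θ).trans_lt h2⟩
  have e1 : ∀ t θ, lg (Φ (t + 1)) (θ, w (t + 1) θ, u (t + 1) θ) = lg (Φ t) (θ, w t θ, u t θ) ∧
      fderiv ℝ (lg (Φ (t + 1))) (θ, w (t + 1) θ, u (t + 1) θ) =
        fderiv ℝ (lg (Φ t)) (θ, w t θ, u t θ) := by
    intro t θ
    rw [h.w_t, h.u_t]
    exact OT8_gr_t hb hn t (hLD t θ)
  have e2 : ∀ t θ, lg (Φ t) (θ + 1, w t (θ + 1), u t (θ + 1)) = lg (Φ t) (θ, w t θ, u t θ) ∧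
      fderiv ℝ (lg (Φ t)) (θ + 1, w t (θ + 1), u t (θ + 1)) =
        fderiv ℝ (lg (Φ t)) (θ, w t θ, u t θ) := by
    intro t θ
    rw [(h.curve t).w_per, (h.curve t).u_per]
    exact OT8_gr_θ hb hn t θ (hLD t θ)
  refine ⟨hw, hu, ⟨fun t θ => ?_, fun t θ => ?_⟩, ⟨fun t θ => (e1 t θ).1, fun t θ => (e2 t θ).1⟩,
    ⟨fun t θ => ?_, fun t θ => ?_⟩⟩
  · rw [(h.curve (t + 1)).p_eq, (h.curve t).p_eq]
    unfold gu
    rw [(e1 t θ).2]
  · rw [(h.curve t).p_eq, (h.curve t).p_eq]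
    unfold gu
    rw [(e2 t θ).2]
  · simp only
    unfold gw
    rw [(e1 t θ).2]
  · simp only
    unfold gw
    rw [(e2 t θ).2]

theorem OT8_C10_of {E : Type*} [NormedAddCommGroup E] [NormedSpace ℝ E] {f : ℝ → ℝ → E}
    (hf : ContDiff ℝ 1 (fun y : ℝ × ℝ => f y.1 y.2)) : C10 f := by
  refine ⟨hf.continuous, fun t θ => fderiv ℝ (fun y : ℝ × ℝ => f y.1 y.2) (t, θ) (1, 0), ?_,
    fun t θ => ?_⟩
  · exact (hf.continuous_fderiv one_ne_zero).clm_apply continuous_const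
  · have h1 : HasDerivAt (fun s : ℝ => (s, θ)) ((1 : ℝ), (0 : ℝ)) t :=
      (hasDerivAt_id t).prodMk (hasDerivAt_const _ _)
    exact ((hf.differentiable one_ne_zero (t, θ)).hasFDerivAt).comp_hasDerivAt t h1

/-- bounded by `B` and Lipschitz with constant `B` -/
def OT8_LB {E : Type*} [NormedAddCommGroup E] (h : ℝ → E) (B : ℝ) : Prop :=
  (∀ t, ‖h t‖ ≤ B) ∧ ∀ t t', ‖h t - h t'‖ ≤ B * |t - t'|

section OT8LB

variable {E : Type*} [NormedAddCommGroup E] {f g : ℝ → E} {A B : ℝ}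

theorem OT8_LB.nn (h : OT8_LB f B) : 0 ≤ B := (norm_nonneg _).trans (h.1 0)

theorem OT8_LB.mono (h : OT8_LB f A) (hB : A ≤ B) : OT8_LB f B :=
  ⟨fun t => (h.1 t).trans hB, fun t t' => (h.2 t t').trans
    (mul_le_mul_of_nonneg_right hB (abs_nonneg _))⟩

theorem OT8_LB.add (hf : OT8_LB f A) (hg : OT8_LB g B) : OT8_LB (fun t => f t + g t) (A + B) := by
  refine ⟨fun t => (norm_add_le _ _).trans (add_le_add (hf.1 t) (hg.1 t)), fun t t' => ?_⟩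
  have e : f t + g t - (f t' + g t') = (f t - f t') + (g t - g t') := by abel
  rw [e, add_mul]
  exact (norm_add_le _ _).trans (add_le_add (hf.2 t t') (hg.2 t t'))

theorem OT8_LB.sub (hf : OT8_LB f A) (hg : OT8_LB g B) : OT8_LB (fun t => f t - g t) (A + B) := by
  refine ⟨fun t => (norm_sub_le _ _).trans (add_le_add (hf.1 t) (hg.1 t)), fun t t' => ?_⟩
  have e : f t - g t - (f t' - g t') = (f t - f t') - (g t - g t') := by abel
  rw [e, add_mul]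
  exact (norm_sub_le _ _).trans (add_le_add (hf.2 t t') (hg.2 t t'))

theorem OT8_LB_const (c : E) (hc : ‖c‖ ≤ B) : OT8_LB (fun _ : ℝ => c) B := by
  refine ⟨fun _ => hc, fun t t' => ?_⟩
  rw [sub_self, norm_zero]
  exact mul_nonneg ((norm_nonneg _).trans hc) (abs_nonneg _)

theorem OT8_LB.smul [NormedSpace ℝ E] {c : ℝ → ℝ} (hc : OT8_LB c A) (hf : OT8_LB f B) :
    OT8_LB (fun t => c t • f t) (2 * A * B) := by
  have hA := hc.nn
  have hB := hf.nn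
  refine ⟨fun t => ?_, fun t t' => ?_⟩
  · rw [norm_smul]
    have := mul_le_mul (hc.1 t) (hf.1 t) (norm_nonneg _) hA
    nlinarith [mul_nonneg hA hB]
  · have e : c t • f t - c t' • f t' = c t • (f t - f t') + (c t - c t') • f t' := by
      rw [smul_sub, sub_smul]
      abel
    rw [e]
    refine (norm_add_le _ _).trans ?_
    rw [norm_smul, norm_smul]
    have h1 := mul_le_mul (hc.1 t) (hf.2 t t') (norm_nonneg _) hA
    have h2 := mul_le_mul (hc.2 t t') (hf.1 t') (norm_nonneg _)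
      (mul_nonneg hA (abs_nonneg _))
    nlinarith

theorem OT8_LB.mul {c d : ℝ → ℝ} (hc : OT8_LB c A) (hd : OT8_LB d B) :
    OT8_LB (fun t => c t * d t) (2 * A * B) := hc.smul hd

theorem OT8_LB_inner {f g : ℝ → Vec k} (hf : OT8_LB f A) (hg : OT8_LB g B) :
    OT8_LB (fun t => inner ℝ (f t) (g t)) (2 * A * B) := by
  have hA := hf.nn
  have hB := hg.nn
  refine ⟨fun t => ?_, fun t t' => ?_⟩
  · have := mul_le_mul (hf.1 t) (hg.1 t) (norm_nonneg _) hA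
    have h1 := norm_inner_le_norm (𝕜 := ℝ) (f t) (g t)
    nlinarith [mul_nonneg hA hB]
  · have e : inner ℝ (f t) (g t) - inner ℝ (f t') (g t') =
        inner ℝ (f t) (g t - g t') + inner ℝ (f t - f t') (g t') := by
      rw [inner_sub_right, inner_sub_left]
      ring
    rw [e]
    refine (norm_add_le _ _).trans ?_
    have h3 := norm_inner_le_norm (𝕜 := ℝ) (f t) (g t - g t')
    have h4 := norm_inner_le_norm (𝕜 := ℝ) (f t - f t') (g t')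
    have h1 := mul_le_mul (hf.1 t) (hg.2 t t') (norm_nonneg _) hA
    have h2 := mul_le_mul (hf.2 t t') (hg.1 t') (norm_nonneg _)
      (mul_nonneg hA (abs_nonneg _))
    nlinarith

end OT8LB

theorem hl_lip {Φ0 : ℝ × Vec k → ℝ × Vec k → ℝ} {𝒜 : Set (ℝ × Vec k)} {r ℓ c c3 α β : ℝ}
    (hb : AnnBase Φ0 𝒜 r ℓ c c3 α β) {Φ : ℝ → ℝ × Vec k → ℝ × Vec k → ℝ} {η : ℝ}
    (hn : AnnNearT Φ0 Φ 𝒜 r η) {r2 : ℝ} (h2 : r2 < r) {w u p : ℝ → ℝ → Vec k} (h : CurveT Φ r2 w u p)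
    {χ : Vec k → ℝ} (hχ : ContDiff ℝ 1 χ) (hR : ∃ R : ℝ, ∀ w, R ≤ ‖w‖ → χ w = 0) :
    (∀ t z, hl χ (Φ (t + 1)) (w (t + 1)) (u (t + 1)) (p (t + 1)) z = hl χ (Φ t) (w t) (u t) (p t) z) ∧
      (∀ t, Sl (Φ (t + 1)) (w (t + 1)) (u (t + 1)) 1 = Sl (Φ t) (w t) (u t) 1) ∧
      ∃ A : ℝ, ∀ t t' z ζ, |fderiv ℝ (hl χ (Φ t) (w t) (u t) (p t)) z ζ -
        fderiv ℝ (hl χ (Φ t') (w t') (u t') (p t')) z ζ| ≤ A * ‖ζ‖ * |t - t'| := by
  obtain ⟨pw, pu, pp, pf, pg⟩ := per_all hb hn h2 h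
  have hS1 : ∀ t, Sl (Φ (t + 1)) (w (t + 1)) (u (t + 1)) = Sl (Φ t) (w t) (u t) := by
    intro t
    funext θ
    unfold Sl
    congr 1
    funext τ
    exact pf.1 t τ
  refine ⟨fun t z => ?_, fun t => by rw [hS1], ?_⟩
  · unfold hl
    rw [hS1, show w (t + 1) = w t from funext (pw.1 t), show p (t + 1) = p t from funext (pp.1 t)]
  have hfc : ∀ t, Continuous (fl (Φ t) (w t) (u t)) := fun t =>
    h.f_reg.1.comp (Continuous.prodMk_right t)
  have hSd : ∀ t θ, HasDerivAt (Sl (Φ t) (w t) (u t)) (fl (Φ t) (w t) (u t) θ) θ := fun t θ =>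
    intervalIntegral.integral_hasDerivAt_right ((hfc t).intervalIntegrable _ _)
      (hfc t).aestronglyMeasurable.stronglyMeasurableAtFilter (hfc t).continuousAt
  have hSa : ∀ t θ, Sl (Φ t) (w t) (u t) (θ + 1) = Sl (Φ t) (w t) (u t) θ + Sl (Φ t) (w t) (u t) 1 := by
    intro t θ
    have h3 : Function.Periodic (fl (Φ t) (w t) (u t)) 1 := fun θ => pf.2 t θ
    have h4 := h3.intervalIntegral_add_eq θ 0
    rw [zero_add] at h4
    unfold Sl
    rw [← h4, intervalIntegral.integral_add_adjacent_intervals ((hfc t).intervalIntegrable _ _)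
      ((hfc t).intervalIntegrable _ _)]
  have hsl : ∀ t, ContDiff ℝ 1 (Sl (Φ t) (w t) (u t)) := fun t =>
    (OT8_S h).comp (contDiff_const.prodMk contDiff_id)
  have hwl : ∀ t, ContDiff ℝ 1 (w t) := fun t => (OT8_w h).comp (contDiff_const.prodMk contDiff_id)
  have hpl : ∀ t, ContDiff ℝ 1 (p t) := fun t => (OT8_p h).comp (contDiff_const.prodMk contDiff_id)
  have ha1 : ContDiff ℝ 1 (fun y : ℝ × ℝ => Sl (Φ y.1) (w y.1) (u y.1) 1) :=
    (hl_smooth hχ h).2.comp contDiff_fst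
  obtain ⟨A1, -, b1, c1⟩ := C10_lip h.f_reg pf
  obtain ⟨A2, -, b2, c2⟩ := C10_lip h.g_reg pg
  obtain ⟨A3, -, b3, c3⟩ := C10_lip h.u_reg pu
  obtain ⟨A4, -, b4, c4⟩ := C10_lip h.w_reg pw
  obtain ⟨A5, -, b5, c5⟩ := C10_lip h.p_reg pp
  obtain ⟨A6, -, b6, c6⟩ := C10_lip (f := fun t _ => Sl (Φ t) (w t) (u t) 1) (OT8_C10_of ha1)
    ⟨fun t _ => by simp only [hS1], fun _ _ => rfl⟩
  obtain ⟨A7, -, b7, c7⟩ := C10_lip
    (f := fun t θ => Sl (Φ t) (w t) (u t) θ - Sl (Φ t) (w t) (u t) 1 * θ)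
    (OT8_C10_of ((OT8_S h).sub (ha1.mul contDiff_snd)))
    ⟨fun t θ => by simp only [hS1], fun t θ => by simp only [hSa]; ring⟩
  obtain ⟨R, hR⟩ := hR
  obtain ⟨B1, hB1⟩ := (isCompact_closedBall (0 : Vec k) R).exists_bound_of_continuousOn
    hχ.continuous.continuousOn
  obtain ⟨B2, hB2⟩ := (isCompact_closedBall (0 : Vec k) R).exists_bound_of_continuousOn
    (hχ.continuous_fderiv one_ne_zero).continuousOn
  have key : ∀ t z ζ, fderiv ℝ (hl χ (Φ t) (w t) (u t) (p t)) z ζ =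
      χ z.2 * ((fl (Φ t) (w t) (u t) z.1 - Sl (Φ t) (w t) (u t) 1) * ζ.1 +
        ζ.1 * inner ℝ (gw (lg (Φ t)) (z.1, w t z.1, u t z.1)) (z.2 - w t z.1) +
        inner ℝ (p t z.1) (ζ.2 - ζ.1 • u t z.1)) +
      fderiv ℝ χ z.2 ζ.2 * ((Sl (Φ t) (w t) (u t) z.1 - Sl (Φ t) (w t) (u t) 1 * z.1) +
        inner ℝ (p t z.1) (z.2 - w t z.1)) := by
    intro t z ζ
    have e := hf_fd hχ (hsl t) (hwl t) (hpl t) (Sl (Φ t) (w t) (u t) 1) z ζ
    rw [(hSd t z.1).deriv, ((h.curve t).dp z.1).deriv, ((h.curve t).dw z.1).deriv] at e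
    exact e
  refine ⟨2 * |B1| * (2 * (A1 + A6) * 1 + 2 * 1 * (2 * A2 * (|R| + A4)) +
    2 * A5 * (1 + 2 * 1 * A3)) + 2 * |B2| * (A7 + 2 * A5 * (|R| + A4)), fun t t' z ζ => ?_⟩
  rw [key, key]
  rcases lt_or_ge R ‖z.2‖ with hz | hz
  · have e1 : χ z.2 = 0 := hR _ hz.le
    have e2 : fderiv ℝ χ z.2 = 0 := by
      have e3 : χ =ᶠ[𝓝 z.2] fun _ => (0 : ℝ) := by
        filter_upwards [(isOpen_lt continuous_const continuous_norm).mem_nhds hz] with x hx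
        exact hR x (le_of_lt hx)
      rw [e3.fderiv_eq]
      simp
    rw [e1, e2]
    simp only [zero_mul, zero_add, _root_.zero_apply, sub_self, abs_zero]
    have n1 : 0 ≤ A1 := (norm_nonneg _).trans (b1 0 0)
    have n2 : 0 ≤ A2 := (norm_nonneg _).trans (b2 0 0)
    have n3 : 0 ≤ A3 := (norm_nonneg _).trans (b3 0 0)
    have n4 : 0 ≤ A4 := (norm_nonneg _).trans (b4 0 0)
    have n5 : 0 ≤ A5 := (norm_nonneg _).trans (b5 0 0)
    have n6 : 0 ≤ A6 := (norm_nonneg _).trans (b6 0 0)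
    have n7 : 0 ≤ A7 := (norm_nonneg _).trans (b7 0 0)
    positivity
  · have hz' : z.2 ∈ Metric.closedBall (0 : Vec k) R := by simpa using hz
    have hχ1 : ‖χ z.2‖ ≤ |B1| := (hB1 _ hz').trans (le_abs_self _)
    have hχ2 : ‖fderiv ℝ χ z.2 ζ.2‖ ≤ |B2| * ‖ζ‖ :=
      ((fderiv ℝ χ z.2).le_opNorm _).trans (mul_le_mul ((hB2 _ hz').trans (le_abs_self _))
        (norm_snd_le ζ) (norm_nonneg _) (abs_nonneg _))
    have L1 : OT8_LB (fun t => fl (Φ t) (w t) (u t) z.1) A1 :=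
      ⟨fun t => b1 t z.1, fun t t' => c1 t t' z.1⟩
    have L2 : OT8_LB (fun t => gw (lg (Φ t)) (z.1, w t z.1, u t z.1)) A2 :=
      ⟨fun t => b2 t z.1, fun t t' => c2 t t' z.1⟩
    have L3 : OT8_LB (fun t => u t z.1) A3 := ⟨fun t => b3 t z.1, fun t t' => c3 t t' z.1⟩
    have L4 : OT8_LB (fun t => w t z.1) A4 := ⟨fun t => b4 t z.1, fun t t' => c4 t t' z.1⟩
    have L5 : OT8_LB (fun t => p t z.1) A5 := ⟨fun t => b5 t z.1, fun t t' => c5 t t' z.1⟩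
    have L6 : OT8_LB (fun t => Sl (Φ t) (w t) (u t) 1) A6 :=
      ⟨fun t => b6 t z.1, fun t t' => c6 t t' z.1⟩
    have L7 : OT8_LB (fun t => Sl (Φ t) (w t) (u t) z.1 - Sl (Φ t) (w t) (u t) 1 * z.1) A7 :=
      ⟨fun t => b7 t z.1, fun t t' => c7 t t' z.1⟩
    have M1 : OT8_LB (fun _ : ℝ => ζ.1) ‖ζ‖ := OT8_LB_const _ (norm_fst_le ζ)
    have M2 : OT8_LB (fun _ : ℝ => ζ.2) ‖ζ‖ := OT8_LB_const _ (norm_snd_le ζ)
    have M3 : OT8_LB (fun t => z.2 - w t z.1) (|R| + A4) :=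
      (OT8_LB_const z.2 (hz.trans (le_abs_self R))).sub L4
    have T1 := (OT8_LB_const (χ z.2) hχ1).mul ((((L1.sub L6).mul M1).add
      (M1.mul (OT8_LB_inner L2 M3))).add (OT8_LB_inner L5 (M2.sub (M1.smul L3))))
    have T2 := (OT8_LB_const (fderiv ℝ χ z.2 ζ.2) hχ2).mul (L7.add (OT8_LB_inner L5 M3))
    have T := (T1.add T2).2 t t'
    rw [Real.norm_eq_abs] at T
    refine T.trans (le_of_eq ?_)
    ring

end EscW.Ot
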