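import Pool.Agent.EscW.FN1
import Pool.Agent.EscW.OT8

set_option autoImplicit false

/-!
Project EscW, part FN, module FN5: the primitive of the calibrating form.
Fundamental theorem of calculus with parameters (`en`, `pn` are smooth, `reg`): the derivative in `θ` of `∫₀^θ en` is `en`, the one in `t` is `∫₀^θ ∂_t en` (`int_C10`, module OT8, namespace `EscW.Ot`). `Bn_per`: `∫₀^{θ+l} en = ∫₀^θ en + l ∫₀¹ en` (period one). `al_lip`: `en`, `pn`, `deriv pn`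
are Lipschitz in `t`, uniformly in `θ` (smooth and periodic). `A_facts`: integral of a positive function.
-/

noncomputable section

namespace EscW.Fn

open Filter Topology Set EscF.T EscM EscMT MeasureTheory EscW.Ex EscW.Dn EscW.On
open scoped ContDiff

variable {d m k j n : ℕ}

/-- continuity of `en` in the angle -/
theorem FN5_en_cont {Φ : ℝ → ℝ × Vec k → ℝ × Vec k → ℝ} {r1 : ℝ} (h : LocFin Φ r1) (t : ℝ) :
    Continuous (en Φ t) :=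
  (reg h).1.continuous.comp (Continuous.prodMk_right t)

theorem FN5_en1 {Φ : ℝ → ℝ × Vec k → ℝ × Vec k → ℝ} {r1 : ℝ} (h : LocFin Φ r1) :
    ContDiff ℝ 1 (fun y : ℝ × ℝ => en Φ y.1 y.2) :=
  (reg h).1.of_le (by exact_mod_cast le_top)

theorem FN5_pn1 {Φ : ℝ → ℝ × Vec k → ℝ × Vec k → ℝ} {r1 : ℝ} (h : LocFin Φ r1) :
    ContDiff ℝ 1 (fun y : ℝ × ℝ => pn Φ y.1 y.2) :=
  (reg h).2.1.of_le (by exact_mod_cast le_top)

theorem FN5_dpn1 {Φ : ℝ → ℝ × Vec k → ℝ × Vec k → ℝ} {r1 : ℝ} (h : LocFin Φ r1) :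
    ContDiff ℝ 1 (fun y : ℝ × ℝ => deriv (pn Φ y.1) y.2) :=
  (reg h).2.2.2.1.of_le (by exact_mod_cast le_top)

theorem FN5_I {Φ : ℝ → ℝ × Vec k → ℝ × Vec k → ℝ} {r1 : ℝ} (h : LocFin Φ r1) :
    ContDiff ℝ 1 (fun y : ℝ × ℝ => ∫ τ in (0:ℝ)..y.2, en Φ y.1 τ) :=
  Ot.int_C10 (Ot.OT8_C10_of (FN5_en1 h)) 0

theorem Bn_smooth {Φ : ℝ → ℝ × Vec k → ℝ × Vec k → ℝ} {r1 : ℝ} (h : LocFin Φ r1) : ContDiff ℝ 1 (fun y : ℝ × (ℝ × Vec k) => Bn Φ y.1 y.2) := by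
  have hy : ContDiff ℝ 1 (fun y : ℝ × (ℝ × Vec k) => (y.1, y.2.1)) :=
    contDiff_fst.prodMk (contDiff_fst.comp contDiff_snd)
  have e1 : ContDiff ℝ 1 (fun y : ℝ × (ℝ × Vec k) => ∫ τ in (0:ℝ)..y.2.1, en Φ y.1 τ) :=
    (FN5_I h).comp hy
  have e2 : ContDiff ℝ 1 (fun y : ℝ × (ℝ × Vec k) => pn Φ y.1 y.2.1) := (FN5_pn1 h).comp hy
  exact e1.add (e2.inner ℝ (contDiff_snd.comp contDiff_snd))

theorem Bn_fd {Φ : ℝ → ℝ × Vec k → ℝ × Vec k → ℝ} {r1 : ℝ} (h : LocFin Φ r1) (t : ℝ) (z ζ : ℝ × Vec k) : fderiv ℝ (Bn Φ t) z ζ = al Φ t z ζ := by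
  have hc := FN5_en_cont h t
  have h1 : HasDerivAt (fun θ => ∫ τ in (0:ℝ)..θ, en Φ t τ) (en Φ t z.1) z.1 :=
    intervalIntegral.integral_hasDerivAt_right (hc.intervalIntegrable _ _)
      hc.aestronglyMeasurable.stronglyMeasurableAtFilter hc.continuousAt
  have h2 : HasDerivAt (pn Φ t) (deriv (pn Φ t) z.1) z.1 := by
    have h3 : ContDiff ℝ 1 (pn Φ t) := (FN5_pn1 h).comp (contDiff_const.prodMk contDiff_id)
    exact (h3.differentiable one_ne_zero z.1).hasDerivAt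
  have f1 : HasFDerivAt (fun z : ℝ × Vec k => ∫ τ in (0:ℝ)..z.1, en Φ t τ) _ z :=
    h1.hasFDerivAt.comp z hasFDerivAt_fst
  have f2 : HasFDerivAt (fun z : ℝ × Vec k => pn Φ t z.1) _ z :=
    h2.hasFDerivAt.comp z hasFDerivAt_fst
  have f3 := f1.add (f2.inner ℝ (hasFDerivAt_snd (𝕜 := ℝ) (E := ℝ) (F := Vec k) (p := z)))
  have f4 : fderiv ℝ (Bn Φ t) z = _ := f3.fderiv
  rw [f4]
  simp only [ContinuousLinearMap.add_apply, ContinuousLinearMap.comp_apply,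
    ContinuousLinearMap.prod_apply, fderivInnerCLM_apply, ContinuousLinearMap.toSpanSingleton_apply,
    ContinuousLinearMap.coe_fst', ContinuousLinearMap.coe_snd', smul_eq_mul, inner_smul_left, al,
    conj_trivial]
  ring

theorem FN5_per {E : Type*} {f : ℝ → ℝ → E} (hf : Ot.Per2 f) (t θ : ℝ) (l : ℤ) :
    f t (θ + l) = f t θ := by
  have h1 : Function.Periodic (f t) 1 := fun θ => hf.2 t θ
  have h2 := h1.int_mul l θ
  rwa [mul_one] at h2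

theorem Bn_per {Φ : ℝ → ℝ × Vec k → ℝ × Vec k → ℝ} {r1 : ℝ} (h : LocFin Φ r1) (t : ℝ) (z : ℝ × Vec k) (l : ℤ) :
    Bn Φ t (z.1 + l, z.2) = Bn Φ t z + l * An Φ t := by
  have hc := FN5_en_cont h t
  obtain ⟨p1, p2, -, -, -⟩ := pers h
  have q1 : Function.Periodic (en Φ t) 1 := fun θ => p1.2 t θ
  have h1 : (∫ τ in (0:ℝ)..(z.1 + l), en Φ t τ) = (∫ τ in (0:ℝ)..z.1, en Φ t τ) + l * An Φ t := by
    rw [← intervalIntegral.integral_add_adjacent_intervals (hc.intervalIntegrable 0 z.1)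
      (hc.intervalIntegrable z.1 (z.1 + l))]
    have h2 := q1.intervalIntegral_add_zsmul_eq l z.1 (fun a b => hc.intervalIntegrable a b)
    have h3 := q1.intervalIntegral_add_eq z.1 0
    simp only [zsmul_eq_mul, mul_one, zero_add] at h2 h3
    rw [h2, h3]
    rfl
  simp only [Bn]
  rw [h1, FN5_per p2]
  ring

theorem Bn_t {Φ : ℝ → ℝ × Vec k → ℝ × Vec k → ℝ} {r1 : ℝ} (h : LocFin Φ r1) (t : ℝ) (z : ℝ × Vec k) : Bn Φ (t + 1) z = Bn Φ t z := by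
  obtain ⟨p1, p2, -, -, -⟩ := pers h
  simp only [Bn, p1.1, p2.1]

theorem al_lip {Φ : ℝ → ℝ × Vec k → ℝ × Vec k → ℝ} {r1 : ℝ} (h : LocFin Φ r1) (R : ℝ) : ∃ A : ℝ, 0 ≤ A ∧ ∀ (t t' : ℝ) (z ζ : ℝ × Vec k), ‖z.2‖ ≤ R →
    |al Φ t z ζ| ≤ A * ‖ζ‖ ∧ |al Φ t z ζ - al Φ t' z ζ| ≤ A * ‖ζ‖ * |t - t'| := by
  obtain ⟨p1, p2, -, p4, -⟩ := pers h
  obtain ⟨A1, a1, b1, c1⟩ := Ot.C10_lip (Ot.OT8_C10_of (FN5_en1 h)) p1
  obtain ⟨A2, a2, b2, c2⟩ := Ot.C10_lip (Ot.OT8_C10_of (FN5_pn1 h)) p2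
  obtain ⟨A3, a3, b3, c3⟩ := Ot.C10_lip
    (Ot.OT8_C10_of (f := fun t θ => deriv (pn Φ t) θ) (FN5_dpn1 h)) p4
  refine ⟨A1 + A3 * |R| + A2, by positivity, fun t t' z ζ hz => ?_⟩
  have hz' : ‖z.2‖ ≤ |R| := hz.trans (le_abs_self R)
  have k1 : |ζ.1| ≤ ‖ζ‖ := by
    rw [← Real.norm_eq_abs]
    exact norm_fst_le ζ
  have k2 : ‖ζ.2‖ ≤ ‖ζ‖ := norm_snd_le ζ
  have key : ∀ (a B1 B2 B3 : ℝ) (b c : Vec k), 0 ≤ B1 → 0 ≤ B2 → 0 ≤ B3 → |a| ≤ B1 → ‖b‖ ≤ B3 →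
      ‖c‖ ≤ B2 → |a * ζ.1 + inner ℝ b z.2 * ζ.1 + inner ℝ c ζ.2| ≤ (B1 + B3 * |R| + B2) * ‖ζ‖ := by
    intro a B1 B2 B3 b c hB1 hB2 hB3 ha hb hc
    have e1 : |a * ζ.1| ≤ B1 * ‖ζ‖ := by
      rw [abs_mul]
      exact mul_le_mul ha k1 (abs_nonneg _) hB1
    have e2 : |inner ℝ b z.2 * ζ.1| ≤ B3 * |R| * ‖ζ‖ := by
      rw [abs_mul]
      refine mul_le_mul ?_ k1 (abs_nonneg _) (by positivity)
      exact (abs_real_inner_le_norm _ _).trans (mul_le_mul hb hz' (norm_nonneg _) hB3)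
    have e3 : |inner ℝ c ζ.2| ≤ B2 * ‖ζ‖ :=
      (abs_real_inner_le_norm _ _).trans (mul_le_mul hc k2 (norm_nonneg _) hB2)
    have e4 := abs_add_le (a * ζ.1 + inner ℝ b z.2 * ζ.1) (inner ℝ c ζ.2)
    have e5 := abs_add_le (a * ζ.1) (inner ℝ b z.2 * ζ.1)
    linarith
  constructor
  · exact key _ A1 A2 A3 _ _ a1 a2 a3 (b1 t z.1) (b3 t z.1) (b2 t z.1)
  · have s0 := abs_nonneg (t - t')
    have e : al Φ t z ζ - al Φ t' z ζ = (en Φ t z.1 - en Φ t' z.1) * ζ.1 +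
        inner ℝ (deriv (pn Φ t) z.1 - deriv (pn Φ t') z.1) z.2 * ζ.1 +
        inner ℝ (pn Φ t z.1 - pn Φ t' z.1) ζ.2 := by
      simp only [al, inner_sub_left]
      ring
    rw [e]
    refine (key _ (A1 * |t - t'|) (A2 * |t - t'|) (A3 * |t - t'|) _ _ (by positivity)
      (by positivity) (by positivity) (c1 t t' z.1) (c3 t t' z.1) (c2 t t' z.1)).trans (le_of_eq ?_)
    ring

theorem A_facts {Φ : ℝ → ℝ × Vec k → ℝ × Vec k → ℝ} {r1 : ℝ} (h : LocFin Φ r1) {ε : ℝ} (hε : 0 < ε) (hε1 : ε < 1) : (∀ t, 0 < An Φ t) ∧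
    ContDiff ℝ 1 (An Φ) ∧ (∀ t, An Φ (t + 1) = An Φ t) ∧ IsWeight (mu Φ ε) ∧ ContDiff ℝ 1 (mu Φ ε) := by
  obtain ⟨p1, -, -, -, -⟩ := pers h
  obtain ⟨c, C, hc, hC, hb, -⟩ := bounds h
  have h1 : ∀ t, 0 < An Φ t := fun t =>
    intervalIntegral.intervalIntegral_pos_of_pos ((FN5_en_cont h t).intervalIntegrable _ _)
      (fun θ => hc.trans_le (hb t θ).1) one_pos
  have h2 : ContDiff ℝ 1 (An Φ) := (FN5_I h).comp (contDiff_id.prodMk contDiff_const)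
  have h3 : ∀ t, An Φ (t + 1) = An Φ t := fun t => by simp only [An, p1.1]
  have hε2 : 0 < 1 - ε := by linarith
  have h4 : ContDiff ℝ 1 (mu Φ ε) :=
    (contDiff_const.mul h2).inv fun t => (mul_pos hε2 (h1 t)).ne'
  have h5 : ∀ t, mu Φ ε (t + 1) = mu Φ ε t := fun t => by simp only [mu, h3]
  refine ⟨h1, h2, h3, ⟨fun t => inv_pos.2 (mul_pos hε2 (h1 t)), h5, ?_⟩, h4⟩
  obtain ⟨A, -, -, hA⟩ := Ot.C10_lip
    (Ot.OT8_C10_of (f := fun t _ => mu Φ ε t) (h4.comp contDiff_fst))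
    ⟨fun t _ => h5 t, fun _ _ => rfl⟩
  exact ⟨A, fun t t' => hA t t' 0⟩

end EscW.Fn
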