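import Pool.Agent.EscW.OT9

set_option autoImplicit false

/-!
Project EscW, part OT, module OT10: the calibrated curves in the domain.
`a t = Sl (Φ t) (w t) (u t) 1`, `μ t = ℓ / a t`, `f t θ = μ t * fl (Φ t) (w t) (u t) θ`, `ϑ` of `exists_paramT` with
`len = ℓ`, `B x t = ℓ x i + μ t h_t (T x)`, `c σ t = Λ (ϑ σ t, w t (ϑ σ t))`.
-/

noncomputable section

namespace EscW.Ot

open Filter Topology Set EscF.T EscM EscMT MeasureTheory EscW.Ex EscW.Dn EscW.On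
open scoped ContDiff

variable {d m k j n : ℕ}

/-- a continuous periodic function is bounded -/
theorem OT10_bdd {W : Type*} [NormedAddCommGroup W] {g : Vec m → W} (hc : Continuous g)
    (hp : ∀ (k : Fin m → ℤ) (x : Vec m), g (x + vz k) = g x) : ∃ C : ℝ, 0 ≤ C ∧ ∀ x, ‖g x‖ ≤ C := by
  obtain ⟨C, hC⟩ := (isCompact_closedBall (0 : Vec m) (√(m : ℝ))).exists_bound_of_continuousOn hc.continuousOn
  have key : ∀ x, ‖g x‖ ≤ C := by
    intro x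
    have hx : x = (x - vz (fun i => ⌊x i⌋)) + vz (fun i => ⌊x i⌋) := (sub_add_cancel _ _).symm
    rw [hx, hp]
    apply hC
    rw [mem_closedBall_zero_iff, EuclideanSpace.norm_eq]
    apply Real.sqrt_le_sqrt
    calc ∑ i, ‖(x - vz (fun i => ⌊x i⌋)) i‖ ^ 2 ≤ ∑ _i : Fin m, (1 : ℝ) := by
          refine Finset.sum_le_sum fun i _ => ?_
          have h1 : (x - vz (fun i => ⌊x i⌋)) i = Int.fract (x i) := by
            simp [vz]
          rw [h1, Real.norm_eq_abs, sq_abs]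
          have h2 := Int.fract_nonneg (x i)
          have h3 := Int.fract_lt_one (x i)
          nlinarith
      _ = (m : ℝ) := by simp
  exact ⟨C, (norm_nonneg _).trans (key 0), key⟩

/-- the derivative of the annular coordinates is bounded -/
theorem OT10_DT {M' : Sub m} {O : Set (Vec m)} {i : Fin m} {𝒜 : Set (ℝ × Vec k)} {r : ℝ}
    {T : Vec m → ℝ × Vec k} {Λ : ℝ × Vec k → Vec m} (hc : AnnCover M' O i 𝒜 r T Λ) :
    ∃ C : ℝ, 0 ≤ C ∧ ∀ x, ‖fderiv ℝ T x‖ ≤ C := by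
  apply OT10_bdd (hc.smooth.continuous_fderiv (by simp))
  intro q x
  have h1 : fderiv ℝ (fun y => T (y + vz q)) x = fderiv ℝ T (x + vz q) := fderiv_comp_add_right _
  have h2 : (fun y => T (y + vz q)) = fun y => T y + (((q i : ℤ) : ℝ), (0 : Vec k)) := by
    funext y
    apply Prod.ext
    · simp only [hc.fst, Prod.fst_add]
      simp [vz]
    · simp only [hc.per, Prod.snd_add, add_zero]
  rw [← h1, h2, fderiv_add_const]

theorem OT10_fst {M' : Sub m} {O : Set (Vec m)} {i : Fin m} {𝒜 : Set (ℝ × Vec k)} {r : ℝ}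
    {T : Vec m → ℝ × Vec k} {Λ : ℝ × Vec k → Vec m} (hc : AnnCover M' O i 𝒜 r T Λ) (x v : Vec m) :
    (fderiv ℝ T x v).1 = v i := by
  have h1 : HasFDerivAt T (fderiv ℝ T x) x := (hc.smooth.differentiable (by simp)).differentiableAt.hasFDerivAt
  have h2 : HasFDerivAt (fun y => (T y).1) ((ContinuousLinearMap.fst ℝ ℝ (Vec k)).comp (fderiv ℝ T x)) x :=
    h1.fst
  have h3 : (fun y => (T y).1) = fun y : Vec m => (EuclideanSpace.proj i : Vec m →L[ℝ] ℝ) y := by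
    funext y
    simp [hc.fst]
  rw [h3] at h2
  have h4 := h2.unique (EuclideanSpace.proj i : Vec m →L[ℝ] ℝ).hasFDerivAt
  have h5 := congrArg (fun L : Vec m →L[ℝ] ℝ => L v) h4
  simpa using h5

theorem OT10_r {M' : Sub m} {x : Vec m} (hx : x ∈ M'.N) : M'.r x = x := by
  by_contra h
  have h1 := M'.nearest x (M'.sub hx) x hx (fun h' => h h'.symm)
  rw [dist_self] at h1
  exact absurd h1 (not_lt.2 dist_nonneg)

/-- the derivative of the calibrating function along the manifold -/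
theorem OT10_fderiv {M' : Sub m} {O : Set (Vec m)} {i : Fin m} {𝒜 : Set (ℝ × Vec k)} {r : ℝ}
    {T : Vec m → ℝ × Vec k} {Λ : ℝ × Vec k → Vec m} (hc : AnnCover M' O i 𝒜 r T Λ)
    {g : ℝ × Vec k → ℝ} (hg : ContDiff ℝ 1 g) (μ a : ℝ) {x v : Vec m} (hx : x ∈ M'.N ∩ O)
    (hv : IsTangent M' x v) :
    fderiv ℝ (fun y => μ * (a * (M'.r y) i + g (T (M'.r y)))) x v =
      μ * (a * (fderiv ℝ T x v).1 + fderiv ℝ g (T x) (fderiv ℝ T x v)) := by
  have hrx := OT10_r hx.1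
  have h0 : HasFDerivAt M'.r (fderiv ℝ M'.r x) x :=
    ((M'.smooth.contDiffAt (M'.isOpen.mem_nhds (M'.sub hx.1))).differentiableAt (by simp)).hasFDerivAt
  have h1 : HasFDerivAt T (fderiv ℝ T x) (M'.r x) := by
    rw [hrx]
    exact (hc.smooth.differentiable (by simp)).differentiableAt.hasFDerivAt
  have h2 : HasFDerivAt g (fderiv ℝ g (T x)) (T (M'.r x)) := by
    rw [hrx]
    exact (hg.differentiable (by simp)).differentiableAt.hasFDerivAt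
  have h3 : HasFDerivAt (fun y => T (M'.r y)) ((fderiv ℝ T x).comp (fderiv ℝ M'.r x)) x := h1.comp x h0
  have h4 : HasFDerivAt (fun y => g (T (M'.r y)))
      ((fderiv ℝ g (T x)).comp ((fderiv ℝ T x).comp (fderiv ℝ M'.r x))) x :=
    HasFDerivAt.comp (g := g) x h2 h3
  have h5 : HasFDerivAt (fun y => (M'.r y) i)
      ((EuclideanSpace.proj i : Vec m →L[ℝ] ℝ).comp (fderiv ℝ M'.r x)) x :=
    (EuclideanSpace.proj i : Vec m →L[ℝ] ℝ).hasFDerivAt.comp x h0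
  have h6 := ((h5.const_mul a).add h4).const_mul μ
  have h7 : (fun y => μ * (a * (M'.r y) i + g (T (M'.r y)))) =
      fun y => μ * ((fun y => a * (M'.r y) i) y + (fun y => g (T (M'.r y))) y) := rfl
  have h8 := h6.fderiv
  have hv' : fderiv ℝ M'.r x v = v := hv
  rw [OT10_fst hc]
  have h9 : fderiv ℝ (fun y => μ * (a * (M'.r y) i + g (T (M'.r y)))) x =
    μ • (a • ((EuclideanSpace.proj i : Vec m →L[ℝ] ℝ).comp (fderiv ℝ M'.r x)) +
      (fderiv ℝ g (T x)).comp ((fderiv ℝ T x).comp (fderiv ℝ M'.r x))) := h8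
  rw [h9]
  change μ * (a * ((fderiv ℝ M'.r x v) i) + fderiv ℝ g (T x) (fderiv ℝ T x (fderiv ℝ M'.r x v))) = _
  rw [hv']

/-- the value of the metric on the curve is positive -/
theorem OT10_pos {Φ0 : ℝ × Vec k → ℝ × Vec k → ℝ} {𝒜 : Set (ℝ × Vec k)} {r ℓ c c3 α β : ℝ}
    (hb : AnnBase Φ0 𝒜 r ℓ c c3 α β) {Φ : ℝ × Vec k → ℝ × Vec k → ℝ} {η : ℝ} (hη : η < 1)
    (hn : AnnNear Φ0 Φ 𝒜 r η) {θ : ℝ} {w u : Vec k} (hw : ‖w‖ < r) : 0 < Φ (θ, w) (1, u) := by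
  have h1 := hb.tube θ w hw
  have h2 := hn.c0 _ h1 (1, u)
  have h3 := hb.low _ h1 (1, u)
  have h4 := hb.nonneg (θ, w) (1, u)
  have h5 : 0 < Φ0 (θ, w) (1, u) := by
    rcases h4.lt_or_eq with h | h
    · exact h
    · exfalso
      rw [← h] at h3
      have h6 : 0 < ℓ * 1 * (1 + c * ‖w‖ ^ 2) := by
        have := hb.ℓ_pos
        have := hb.c_pos
        positivity
      have h7 : 0 ≤ (c3 * ‖u‖) ^ 2 := sq_nonneg _
      simp only at h3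
      nlinarith [pow_pos h6 2]
  have h6 := (abs_le.1 h2).1
  nlinarith

theorem OT10_C1 {g : ℝ → ℝ} (hg : ContDiff ℝ 1 g) : C10 (fun t _ => g t) :=
  ⟨hg.continuous.comp continuous_fst, fun t _ => deriv g t,
    (hg.continuous_deriv (by simp)).comp continuous_fst,
    fun t _ => (hg.differentiable (by simp)).differentiableAt.hasDerivAt⟩

theorem OT10_mul {g : ℝ → ℝ} (hg : ContDiff ℝ 1 g) {f : ℝ → ℝ → ℝ} (hf : C10 f) :
    C10 (fun t θ => g t * f t θ) := by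
  obtain ⟨h1, f', h2, h3⟩ := hf
  refine ⟨(hg.continuous.comp continuous_fst).mul h1, fun t θ => deriv g t * f t θ + g t * f' t θ, ?_, ?_⟩
  · exact (((hg.continuous_deriv (by simp)).comp continuous_fst).mul h1).add
      ((hg.continuous.comp continuous_fst).mul h2)
  · intro t θ
    exact (hg.differentiable (by simp)).differentiableAt.hasDerivAt.mul (h3 t θ)

theorem calibratedT {Φ0 : ℝ × Vec k → ℝ × Vec k → ℝ} {𝒜 : Set (ℝ × Vec k)} {r ℓ c c3 α β : ℝ}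
    (hb : AnnBase Φ0 𝒜 r ℓ c c3 α β) {Φ : ℝ → ℝ × Vec k → ℝ × Vec k → ℝ} {η : ℝ} (hη : η < 1)
    (hn : AnnNearT Φ0 Φ 𝒜 r η) {s r2 : ℝ} (hs : s ≤ r) (hsl : s ≤ ℓ / 2) (h2 : r2 < r)
    {w u p : ℝ → ℝ → Vec k} (h : CurveT Φ r2 w u p) {χ : Vec k → ℝ} (hχ : ContDiff ℝ 1 χ)
    (hR : ∃ R : ℝ, ∀ w, R ≤ ‖w‖ → χ w = 0)
    (hcal : ∀ t, AnnCal (Φ t) 𝒜 s ℓ (Sl (Φ t) (w t) (u t) 1) (w t) (hl χ (Φ t) (w t) (u t) (p t)))
    {M' : Sub m} {O : Set (Vec m)} {i : Fin m} {T : Vec m → ℝ × Vec k} {Λ : ℝ × Vec k → Vec m}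
    (hc : AnnCover M' O i 𝒜 r T Λ) {φ : Vec m → Vec d} {F : Vec m → Vec m → ℝ → ℝ}
    (hF : ∀ x ∈ M'.N ∩ O, ∀ v t, F x v t = Φ t (T x) (fderiv ℝ T x v))
    (hφ : ∀ x ∈ M'.N ∩ O, ∀ y ∈ M'.N ∩ O, ∀ l : Fin d → ℤ, φ x = φ y + vz l →
      ∃ l' : ℤ, (T x).1 = (T y).1 + l') (θ0 : ℝ) :
    IsWeight (fun t => ℓ / Sl (Φ t) (w t) (u t) 1) ∧ ∃ ϑ : ℝ → ℝ → ℝ, (∀ t, ϑ 0 t = θ0) ∧
      IsCalibratedW M' O φ (fun x v t => ℓ / Sl (Φ t) (w t) (u t) 1 * F x v t)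
        (fun x t => ℓ / Sl (Φ t) (w t) (u t) 1 *
          (Sl (Φ t) (w t) (u t) 1 * x i + hl χ (Φ t) (w t) (u t) (p t) (T x))) i ℓ
        (fun σ t => Λ (ϑ σ t, w t (ϑ σ t))) := by
  set a : ℝ → ℝ := fun t => Sl (Φ t) (w t) (u t) 1 with ha
  set H : ℝ → ℝ × Vec k → ℝ := fun t => hl χ (Φ t) (w t) (u t) (p t) with hH
  obtain ⟨hper1, hper2, AL', hAL'⟩ := hl_lip hb hn h2 h hχ hR
  obtain ⟨hsm1, hsm2⟩ := hl_smooth hχ h
  obtain ⟨hpw, hpu, hpp, hpf, hpg⟩ := per_all hb hn h2 h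
  change ∀ t z, H (t + 1) z = H t z at hper1
  change ∀ t, a (t + 1) = a t at hper2
  change ContDiff ℝ 1 a at hsm2
  change ContDiff ℝ 1 (fun y : ℝ × (ℝ × Vec k) => H y.1 y.2) at hsm1
  change ∀ t t' z ζ, |fderiv ℝ (H t) z ζ - fderiv ℝ (H t') z ζ| ≤ AL' * ‖ζ‖ * |t - t'| at hAL'
  change ∀ t, AnnCal (Φ t) 𝒜 s ℓ (a t) (w t) (H t) at hcal
  obtain ⟨AL, hAL0, hAL⟩ : ∃ AL : ℝ, 0 ≤ AL ∧ ∀ t t' z ζ,
      |fderiv ℝ (H t) z ζ - fderiv ℝ (H t') z ζ| ≤ AL * ‖ζ‖ * |t - t'| := by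
    refine ⟨max AL' 0, le_max_right _ _, fun t t' z ζ => (hAL' t t' z ζ).trans ?_⟩
    exact mul_le_mul_of_nonneg_right (mul_le_mul_of_nonneg_right (le_max_left _ _) (norm_nonneg _))
      (abs_nonneg _)
  have hℓ := hb.ℓ_pos
  have ha1 : ∀ t, 0 < a t := by
    intro t
    have h3 := (abs_lt.1 (hcal t).a_near).1
    linarith
  set μ : ℝ → ℝ := fun t => ℓ / a t with hμ
  have hμ1 : ∀ t, 0 < μ t := fun t => div_pos hℓ (ha1 t)
  have hμa : ∀ t, μ t * a t = ℓ := fun t => div_mul_cancel₀ _ (ha1 t).ne'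
  have hμs : ContDiff ℝ 1 μ := contDiff_const.div hsm2 fun t => (ha1 t).ne'
  have hμp : ∀ t, μ (t + 1) = μ t := by
    intro t
    simp only [hμ, hper2]
  have hw : ∀ t θ, ‖w t θ‖ < r := fun t θ => ((h.curve t).w_small θ).trans_lt h2
  -- the weight
  obtain ⟨Aμ, hAμ0, hAμ1, hAμ2⟩ := C10_lip (OT10_C1 hμs) ⟨fun t _ => hμp t, fun _ _ => rfl⟩
  have hW : IsWeight μ := ⟨hμ1, hμp, Aμ, fun t t' => by
    have h3 := hAμ2 t t' 0
    rwa [Real.norm_eq_abs] at h3⟩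
  refine ⟨hW, ?_⟩
  -- the parametrisation
  set f : ℝ → ℝ → ℝ := fun t θ => μ t * fl (Φ t) (w t) (u t) θ with hf
  have hf1 : C10 f := OT10_mul hμs h.f_reg
  have hfl : ∀ t θ, fl (Φ t) (w t) (u t) θ = Φ t (θ, w t θ) (1, u t θ) := fun t θ => rfl
  have hfpos : ∀ t θ, 0 < fl (Φ t) (w t) (u t) θ := by
    intro t θ
    rw [hfl]
    exact OT10_pos hb hη (hn.near t) (hw t θ)
  have hf2 : ∀ t θ, 0 < f t θ := fun t θ => mul_pos (hμ1 t) (hfpos t θ)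
  have hf3 : Per2 f := by
    constructor
    · intro t θ
      simp only [hf, hμp]
      rw [show fl (Φ (t + 1)) (w (t + 1)) (u (t + 1)) θ = fl (Φ t) (w t) (u t) θ from hpf.1 t θ]
    · intro t θ
      simp only [hf]
      rw [show fl (Φ t) (w t) (u t) (θ + 1) = fl (Φ t) (w t) (u t) θ from hpf.2 t θ]
  have hf4 : ∀ t, ∫ τ in (0:ℝ)..1, f t τ = ℓ := by
    intro t
    simp only [hf]
    rw [intervalIntegral.integral_const_mul]
    exact hμa t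
  obtain ⟨ϑ, hϑ1, hϑ2, hϑ3, hϑ4, hϑ5, hϑ6, hϑ7⟩ := exists_paramT hf1 hf2 hf3 hf4 θ0
  refine ⟨ϑ, hϑ2, ?_⟩
  have hT : ∀ σ t, T (Λ (ϑ σ t, w t (ϑ σ t))) = (ϑ σ t, w t (ϑ σ t)) := fun σ t =>
    hc.right _ (hw t _)
  have hmem : ∀ σ t, Λ (ϑ σ t, w t (ϑ σ t)) ∈ M'.N ∩ O := fun σ t => hc.mem _ (hw t _)
  have hww : ContDiff ℝ 1 (fun y : ℝ × ℝ => w y.1 y.2) :=
    C1_of h.w_reg h.u_reg.1 fun t θ => (h.curve t).dw θ
  have hcurve : ContDiff ℝ 1 (fun q : ℝ × ℝ => Λ (ϑ q.1 q.2, w q.2 (ϑ q.1 q.2))) := by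
    have h3 : ContDiff ℝ 1 (fun q : ℝ × ℝ => (ϑ q.1 q.2, w q.2 (ϑ q.1 q.2))) :=
      hϑ1.prodMk (hww.comp (contDiff_snd.prodMk hϑ1))
    have h4 := ContDiffOn.comp (s := univ) hc.smooth' h3.contDiffOn (fun q _ => hw _ _)
    exact contDiffOn_univ.1 h4
  have hHs : ∀ t, ContDiff ℝ 1 (H t) := fun t => (hcal t).h_smooth
  have hgam : ∀ σ t, HasDerivAt (fun σ => (ϑ σ t, w t (ϑ σ t)))
      ((f t (ϑ σ t))⁻¹ • ((1 : ℝ), u t (ϑ σ t))) σ := by
    intro σ t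
    have h3 := hϑ3 σ t
    have h4 : HasDerivAt (fun σ => w t (ϑ σ t)) ((f t (ϑ σ t))⁻¹ • u t (ϑ σ t)) σ :=
      HasDerivAt.scomp (g₁ := w t) σ ((h.curve t).dw (ϑ σ t)) h3
    have h5 := h3.prodMk h4
    have h6 : (f t (ϑ σ t))⁻¹ • ((1 : ℝ), u t (ϑ σ t)) =
        ((f t (ϑ σ t))⁻¹, (f t (ϑ σ t))⁻¹ • u t (ϑ σ t)) := by
      simp
    rw [h6]
    exact h5
  -- the derivative of the calibrating functions
  have hD : ∀ x ∈ M'.N ∩ O, ∀ v, IsTangent M' x v → ∀ t,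
      fderiv ℝ (fun y => μ t * (a t * (M'.r y) i + H t (T (M'.r y)))) x v =
        μ t * (a t * (fderiv ℝ T x v).1 + fderiv ℝ (H t) (T x) (fderiv ℝ T x v)) := by
    intro x hx v hv t
    exact OT10_fderiv hc (hHs t) (μ t) (a t) hx hv
  obtain ⟨CT, hCT0, hCT⟩ := OT10_DT hc
  refine
  { smooth := ?_
    periodic := ?_
    periods := ?_
    lip := ?_
    le := ?_
    len_pos := hℓ
    curve := hcurve
    mem := hmem
    closed := ?_
    curve_per := ?_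
    unit := ?_
    cal := ?_
    only := ?_
    simple := ?_ }
  · have h3 : ContDiffOn ℝ 1 (fun q : Vec m × ℝ => M'.r q.1) {q | q.1 ∈ M'.U ∧ M'.r q.1 ∈ O} :=
      (M'.smooth.of_le (by simp)).comp contDiffOn_fst (fun q hq => hq.1)
    have h4 : ContDiffOn ℝ 1 (fun q : Vec m × ℝ => T (M'.r q.1)) {q | q.1 ∈ M'.U ∧ M'.r q.1 ∈ O} :=
      hc.smooth.comp_contDiffOn h3
    have h5 : ContDiffOn ℝ 1 (fun q : Vec m × ℝ => (q.2, T (M'.r q.1)))
        {q | q.1 ∈ M'.U ∧ M'.r q.1 ∈ O} := contDiffOn_snd.prodMk h4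
    have h6 : ContDiffOn ℝ 1 (fun q : Vec m × ℝ => H q.2 (T (M'.r q.1)))
        {q | q.1 ∈ M'.U ∧ M'.r q.1 ∈ O} := hsm1.comp_contDiffOn h5
    have h7 : ContDiffOn ℝ 1 (fun q : Vec m × ℝ => (M'.r q.1) i)
        {q | q.1 ∈ M'.U ∧ M'.r q.1 ∈ O} :=
      ((EuclideanSpace.proj i : Vec m →L[ℝ] ℝ).contDiff.comp_contDiffOn h3)
    have h8 : ContDiffOn ℝ 1 (fun q : Vec m × ℝ => a q.2) {q | q.1 ∈ M'.U ∧ M'.r q.1 ∈ O} :=
      (hsm2.comp contDiff_snd).contDiffOn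
    have h9 : ContDiffOn ℝ 1 (fun q : Vec m × ℝ => μ q.2) {q | q.1 ∈ M'.U ∧ M'.r q.1 ∈ O} :=
      (hμs.comp contDiff_snd).contDiffOn
    exact h9.mul ((h8.mul h7).add h6)
  · intro x _ t
    change μ (t + 1) * (a (t + 1) * x i + H (t + 1) (T x)) = μ t * (a t * x i + H t (T x))
    rw [hμp, hper2, hper1]
  · intro q
    refine ⟨ℓ * q i, fun x _ t => ?_⟩
    change μ t * (a t * (x + vz q) i + H t (T (x + vz q))) = μ t * (a t * x i + H t (T x)) + ℓ * q i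
    have h3 : H t (T (x + vz q)) = H t (T x) := by
      have h4 : T (x + vz q) = ((T x).1 + ((q i : ℤ) : ℝ), (T x).2) := by
        apply Prod.ext
        · simp only [hc.fst]
          simp [vz]
        · exact hc.per q x
      have h5 : Function.Periodic (fun θ => H t (θ, (T x).2)) 1 := fun θ => (hcal t).h_per θ _
      have h6 := h5.int_mul (q i) (T x).1
      rw [h4]
      simpa using h6
    rw [h3]
    have h4 : (x + vz q) i = x i + q i := by simp [vz]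
    rw [h4]
    have h5 := hμa t
    linear_combination (q i : ℝ) * h5
  · refine ⟨(Aμ * (s * CT) + Aμ * (AL * CT)), fun x hx v hv t t' => ?_⟩
    rw [hD x hx v hv t, hD x hx v hv t']
    set ζ := fderiv ℝ T x v with hζ
    have h3 : ‖ζ‖ ≤ CT * ‖v‖ :=
      ((fderiv ℝ T x).le_opNorm v).trans (mul_le_mul_of_nonneg_right (hCT x) (norm_nonneg _))
    have h4 : |fderiv ℝ (H t) (T x) ζ| ≤ s * ‖ζ‖ := by
      have h5 := (fderiv ℝ (H t) (T x)).le_opNorm ζ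
      rw [Real.norm_eq_abs] at h5
      exact h5.trans (mul_le_mul_of_nonneg_right ((hcal t).h_small _).le (norm_nonneg _))
    have h5 := hAL t t' (T x) ζ
    have h6 : |μ t - μ t'| ≤ Aμ * |t - t'| := by
      have h7 := hAμ2 t t' 0
      rwa [Real.norm_eq_abs] at h7
    have h7 : |μ t'| ≤ Aμ := by
      have h8 := hAμ1 t' 0
      rwa [Real.norm_eq_abs] at h8
    have h8 : μ t * (a t * ζ.1 + fderiv ℝ (H t) (T x) ζ) - μ t' * (a t' * ζ.1 + fderiv ℝ (H t') (T x) ζ) =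
        (μ t - μ t') * fderiv ℝ (H t) (T x) ζ +
          μ t' * (fderiv ℝ (H t) (T x) ζ - fderiv ℝ (H t') (T x) ζ) := by
      have h9 := hμa t
      have h10 := hμa t'
      linear_combination ζ.1 * h9 - ζ.1 * h10
    rw [h8]
    have hs0 : 0 ≤ s := by
      have h9 := (norm_nonneg _).trans_lt ((hcal t).h_small (T x))
      exact h9.le
    have h9 : |(μ t - μ t') * fderiv ℝ (H t) (T x) ζ| ≤ Aμ * |t - t'| * (s * (CT * ‖v‖)) := by
      rw [abs_mul]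
      exact mul_le_mul h6 (h4.trans (mul_le_mul_of_nonneg_left h3 hs0)) (abs_nonneg _)
        (mul_nonneg hAμ0 (abs_nonneg _))
    have h10 : |μ t' * (fderiv ℝ (H t) (T x) ζ - fderiv ℝ (H t') (T x) ζ)| ≤
        Aμ * (AL * (CT * ‖v‖) * |t - t'|) := by
      rw [abs_mul]
      refine mul_le_mul h7 ?_ (abs_nonneg _) hAμ0
      exact h5.trans (mul_le_mul_of_nonneg_right (mul_le_mul_of_nonneg_left h3 hAL0) (abs_nonneg _))
    calc |(μ t - μ t') * fderiv ℝ (H t) (T x) ζ +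
          μ t' * (fderiv ℝ (H t) (T x) ζ - fderiv ℝ (H t') (T x) ζ)|
        ≤ Aμ * |t - t'| * (s * (CT * ‖v‖)) + Aμ * (AL * (CT * ‖v‖) * |t - t'|) :=
          (abs_add_le _ _).trans (add_le_add h9 h10)
      _ = (Aμ * (s * CT) + Aμ * (AL * CT)) * ‖v‖ * |t - t'| := by ring
  · intro x hx v hv t
    change fderiv ℝ (fun y => μ t * (a t * (M'.r y) i + H t (T (M'.r y)))) x v ≤ μ t * F x v t
    rw [hD x hx v hv t, hF x hx]
    exact mul_le_mul_of_nonneg_left ((hcal t).le _ (hc.maps x hx) _) (hμ1 t).le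
  · intro σ t
    rw [hϑ4, (hcal t).w_per]
    exact hc.per' _ _ (hw _ _)
  · intro σ t
    rw [hϑ5, h.w_t]
  · intro σ t
    change μ t * F (Λ (ϑ σ t, w t (ϑ σ t))) (deriv (fun σ => Λ (ϑ σ t, w t (ϑ σ t))) σ) t = 1
    rw [hF _ (hmem σ t)]
    have h3 : DifferentiableAt ℝ (fun σ => Λ (ϑ σ t, w t (ϑ σ t))) σ := by
      have h4 : ContDiff ℝ 1 (fun σ => Λ (ϑ σ t, w t (ϑ σ t))) :=
        hcurve.comp (contDiff_id.prodMk contDiff_const)
      exact (h4.differentiable (by simp)).differentiableAt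
    have h4 : HasDerivAt (fun σ => T (Λ (ϑ σ t, w t (ϑ σ t))))
        (fderiv ℝ T (Λ (ϑ σ t, w t (ϑ σ t))) (deriv (fun σ => Λ (ϑ σ t, w t (ϑ σ t))) σ)) σ :=
      HasFDerivAt.comp_hasDerivAt (l := T) σ
        (hc.smooth.differentiable (by simp)).differentiableAt.hasFDerivAt h3.hasDerivAt
    have h5 : (fun σ => T (Λ (ϑ σ t, w t (ϑ σ t)))) = fun σ => (ϑ σ t, w t (ϑ σ t)) := by
      funext σ
      exact hT σ t
    rw [h5] at h4
    rw [h4.unique (hgam σ t), hT]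
    have h6 := (hn.near t).hom _ (hb.tube (ϑ σ t) (w t (ϑ σ t)) (hw _ _)) ((1 : ℝ), u t (ϑ σ t))
      (f t (ϑ σ t))⁻¹ (inv_pos.2 (hf2 _ _)).le
    rw [h6, ← hfl]
    have h7 : f t (ϑ σ t) = μ t * fl (Φ t) (w t) (u t) (ϑ σ t) := rfl
    have h8 := (hf2 t (ϑ σ t)).ne'
    calc μ t * ((f t (ϑ σ t))⁻¹ * fl (Φ t) (w t) (u t) (ϑ σ t)) =
        (f t (ϑ σ t))⁻¹ * (μ t * fl (Φ t) (w t) (u t) (ϑ σ t)) := by ring
      _ = (f t (ϑ σ t))⁻¹ * f t (ϑ σ t) := by rw [h7]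
      _ = 1 := inv_mul_cancel₀ h8
  · intro σ t
    change μ t * (a t * (Λ (ϑ σ t, w t (ϑ σ t))) i + H t (T (Λ (ϑ σ t, w t (ϑ σ t))))) =
      μ t * (a t * (Λ (ϑ 0 t, w t (ϑ 0 t))) i + H t (T (Λ (ϑ 0 t, w t (ϑ 0 t))))) + σ
    rw [← hc.fst, ← hc.fst, hT, hT]
    have h3 : ∀ σ, HasDerivAt (fun σ => μ t * (a t * ϑ σ t + H t (ϑ σ t, w t (ϑ σ t))) - σ) 0 σ := by
      intro σ
      have h4 : HasDerivAt (fun σ => H t (ϑ σ t, w t (ϑ σ t)))
          (fderiv ℝ (H t) (ϑ σ t, w t (ϑ σ t)) ((f t (ϑ σ t))⁻¹ • ((1 : ℝ), u t (ϑ σ t)))) σ :=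
        HasFDerivAt.comp_hasDerivAt (l := H t) σ
          ((hHs t).differentiable (by simp)).differentiableAt.hasFDerivAt (hgam σ t)
      have h5 := ((((hϑ3 σ t).const_mul (a t)).add h4).const_mul (μ t)).sub (hasDerivAt_id σ)
      have h6 : μ t * (a t * (f t (ϑ σ t))⁻¹ +
          fderiv ℝ (H t) (ϑ σ t, w t (ϑ σ t)) ((f t (ϑ σ t))⁻¹ • ((1 : ℝ), u t (ϑ σ t)))) - 1 = 0 := by
        rw [map_smul, smul_eq_mul]
        have h7 := (hcal t).cal (ϑ σ t)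
        rw [((h.curve t).dw (ϑ σ t)).deriv] at h7
        have h8 := (hf2 t (ϑ σ t)).ne'
        have h9 : f t (ϑ σ t) = μ t * (a t + fderiv ℝ (H t) (ϑ σ t, w t (ϑ σ t)) (1, u t (ϑ σ t))) := by
          rw [← h7]
          rfl
        calc μ t * (a t * (f t (ϑ σ t))⁻¹ + (f t (ϑ σ t))⁻¹ *
              fderiv ℝ (H t) (ϑ σ t, w t (ϑ σ t)) (1, u t (ϑ σ t))) - 1 =
            (f t (ϑ σ t))⁻¹ * (μ t * (a t + fderiv ℝ (H t) (ϑ σ t, w t (ϑ σ t)) (1, u t (ϑ σ t)))) - 1 := by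
              ring
          _ = (f t (ϑ σ t))⁻¹ * f t (ϑ σ t) - 1 := by rw [← h9]
          _ = 0 := by rw [inv_mul_cancel₀ h8, sub_self]
      rw [← h6]
      exact h5
    have h4 := is_const_of_deriv_eq_zero (f := fun σ => μ t * (a t * ϑ σ t + H t (ϑ σ t, w t (ϑ σ t))) - σ)
      (fun σ => (h3 σ).differentiableAt) (fun σ => (h3 σ).deriv) σ 0
    linarith
  · intro x hx v hv t hv0 heq
    change fderiv ℝ (fun y => μ t * (a t * (M'.r y) i + H t (T (M'.r y)))) x v = μ t * F x v t at heq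
    rw [hD x hx v hv t, hF x hx] at heq
    have h3 := mul_left_cancel₀ (hμ1 t).ne' heq
    have h4 := (hcal t).only _ (hc.maps x hx) _ (hc.inj x hx v hv hv0) h3
    obtain ⟨σ, hσ⟩ := hϑ6 t (T x).1
    simp only at hσ
    have h5 : T x = T (Λ (ϑ σ t, w t (ϑ σ t))) := by
      rw [hT, hσ, ← h4]
    obtain ⟨q, hq⟩ := hc.uniq x hx _ (hmem σ t) h5
    exact ⟨σ, q, hq⟩
  · intro σ σ' t l hl'
    obtain ⟨l', hl''⟩ := hφ _ (hmem σ t) _ (hmem σ' t) l hl'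
    rw [hT, hT] at hl''
    exact ⟨l', hϑ7 σ σ' t l' hl''⟩

end EscW.Ot
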