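import Pool.Agent.EscW.FN4
import Pool.Agent.EscW.FN5
import Pool.Agent.EscW.OT10

set_option autoImplicit false

/-!
Project EscW, part FN, module FN6: the calibrated curve.
`f t θ = mu (1 - ε) en Φ t θ`, `∫₀¹ f = 1`, `ϑ` of `exists_paramT` (OT9) with `len = 1`,
`B x t = mu (1 - ε) Bn Φ t (T x)`.
-/

noncomputable section

namespace EscW.Fn

open Filter Topology Set EscF.T EscM EscMT MeasureTheory EscW.Ex EscW.Dn EscW.On
open scoped ContDiff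

variable {d m k j n : ℕ}

section geo

variable {M' : Sub m} {O K' : Set (Vec m)} {i : Fin m} {T : Vec m → ℝ × Vec (j + 1)} {cv : ℝ → Vec m}
    {Θ S : Vec (j + 2) → ℝ} {bar : Vec m → ℝ} {θ0 : ℝ} {n : Fin m → ℤ} {γ : ℝ → Vec m}
    {wp : ℝ → Vec (j + 1)} {C0 δ : ℝ}

theorem FN6_shift (hG : Geo M' O K' i T cv Θ S bar θ0 n γ wp C0 δ) (q : Fin m → ℤ) (x : Vec m) :
    T (x + vz q) = ((T x).1 + ((q i : ℤ) : ℝ), (T x).2) := by
  apply Prod.ext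
  · simp only [hG.fst]
    simp [vz]
  · exact hG.per q x

/-- the derivative of the annular coordinates is bounded -/
theorem FN6_DT (hG : Geo M' O K' i T cv Θ S bar θ0 n γ wp C0 δ) :
    ∃ C : ℝ, 0 ≤ C ∧ ∀ x, ‖fderiv ℝ T x‖ ≤ C := by
  apply Ot.OT10_bdd (hG.smooth.continuous_fderiv (by simp))
  intro q x
  have h1 : fderiv ℝ (fun y => T (y + vz q)) x = fderiv ℝ T (x + vz q) := fderiv_comp_add_right _
  have h2 : (fun y => T (y + vz q)) = fun y => T y + (((q i : ℤ) : ℝ), (0 : Vec (j + 1))) := by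
    funext y
    rw [FN6_shift hG q y]
    apply Prod.ext
    · simp
    · simp
  rw [← h1, h2, fderiv_add_const]

/-- the derivative of the calibrating function along the manifold -/
theorem FN6_fderiv {Φ : ℝ → ℝ × Vec (j + 1) → ℝ × Vec (j + 1) → ℝ} {r1 : ℝ} (h : LocFin Φ r1)
    (hG : Geo M' O K' i T cv Θ S bar θ0 n γ wp C0 δ) (μ a t : ℝ) {x v : Vec m} (hx : x ∈ M'.N ∩ O)
    (hv : IsTangent M' x v) :
    fderiv ℝ (fun y => μ * (a * Bn Φ t (T (M'.r y)))) x v =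
      μ * (a * al Φ t (T x) (fderiv ℝ T x v)) := by
  have hrx := Ot.OT10_r hx.1
  have hB : ContDiff ℝ 1 (Bn Φ t) := (Bn_smooth h).comp (contDiff_const.prodMk contDiff_id)
  have h0 : HasFDerivAt M'.r (fderiv ℝ M'.r x) x :=
    ((M'.smooth.contDiffAt (M'.isOpen.mem_nhds (M'.sub hx.1))).differentiableAt (by simp)).hasFDerivAt
  have h1 : HasFDerivAt T (fderiv ℝ T x) (M'.r x) := by
    rw [hrx]
    exact (hG.smooth.differentiable (by simp)).differentiableAt.hasFDerivAt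
  have h2 : HasFDerivAt (Bn Φ t) (fderiv ℝ (Bn Φ t) (T x)) (T (M'.r x)) := by
    rw [hrx]
    exact (hB.differentiable (by simp)).differentiableAt.hasFDerivAt
  have h3 : HasFDerivAt (fun y => T (M'.r y)) ((fderiv ℝ T x).comp (fderiv ℝ M'.r x)) x := h1.comp x h0
  have h4 : HasFDerivAt (fun y => Bn Φ t (T (M'.r y)))
      ((fderiv ℝ (Bn Φ t) (T x)).comp ((fderiv ℝ T x).comp (fderiv ℝ M'.r x))) x :=
    HasFDerivAt.comp (g := Bn Φ t) x h2 h3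
  have h6 := (h4.const_mul a).const_mul μ
  have h8 : fderiv ℝ (fun y => μ * (a * Bn Φ t (T (M'.r y)))) x =
      μ • (a • ((fderiv ℝ (Bn Φ t) (T x)).comp ((fderiv ℝ T x).comp (fderiv ℝ M'.r x)))) := h6.fderiv
  have hv' : fderiv ℝ M'.r x v = v := hv
  rw [h8]
  change μ * (a * fderiv ℝ (Bn Φ t) (T x) (fderiv ℝ T x (fderiv ℝ M'.r x v))) = _
  rw [hv', Bn_fd h]

end geo

theorem FN6_nonneg {Φ : ℝ → ℝ × Vec k → ℝ × Vec k → ℝ} {r1 : ℝ} (h : LocFin Φ r1) (t : ℝ)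
    {z : ℝ × Vec k} (hz : ‖z.2‖ < r1) (ζ : ℝ × Vec k) : 0 ≤ Φ t z ζ := by
  by_cases h0 : ζ = 0
  · have h1 := h.hom t z 0 0 hz le_rfl
    rw [zero_smul, zero_mul] at h1
    rw [h0, h1]
  · exact (h.pos t z ζ hz h0).le

theorem FN6_al_smul {Φ : ℝ → ℝ × Vec k → ℝ × Vec k → ℝ} {r1 : ℝ} (h : LocFin Φ r1) (t a : ℝ)
    (z ζ : ℝ × Vec k) : al Φ t z (a • ζ) = a * al Φ t z ζ := by
  rw [← Bn_fd h, ← Bn_fd h, map_smul, smul_eq_mul]

theorem calibrated_fn {Φ : ℝ → ℝ × Vec (j + 1) → ℝ × Vec (j + 1) → ℝ} {r1 : ℝ} (h : LocFin Φ r1) {ε : ℝ} (hε : 0 < ε) (hε1 : ε < 1)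
    {K r2 c : ℝ} (hK : 0 ≤ K) (hc : 0 < c) (hr2 : r2 ≤ r1 / 2)
    (hcore : ∀ (t : ℝ) (z ζ : ℝ × Vec (j + 1)), ‖z.2‖ ≤ r2 →
      c * (eu ζ - ζ.1) + ‖z.2‖ ^ 2 * eu ζ ≤ cf Φ K t z * Φ t z ζ - al Φ t z ζ)
    {M' : Sub m} {O K' : Set (Vec m)} {i : Fin m} {T : Vec m → ℝ × Vec (j + 1)} {cv : ℝ → Vec m}
    {Θ S : Vec (j + 2) → ℝ} {bar : Vec m → ℝ} {θ0 : ℝ} {n : Fin m → ℤ} {γ : ℝ → Vec m}
    {wp : ℝ → Vec (j + 1)} {C0 δ : ℝ} (hC0 : 0 < C0) (hδ : 0 < δ)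
    (hG : Geo M' O K' i T cv Θ S bar θ0 n γ wp C0 δ) (hsh : IsShape Θ S C0 δ)
    (hCr : C0 * δ ≤ r2) {φ : Vec m → Vec d} {F : Vec m → Vec m → ℝ → ℝ}
    (hF : ∀ x ∈ M'.N ∩ O, ∀ v t, F x v t = Ps Φ K ε S t (T x) (fderiv ℝ T x v))
    (hφ : ∀ x ∈ M'.N ∩ O, ∀ y ∈ M'.N ∩ O, ∀ l : Fin d → ℤ, φ x = φ y + vz l →
      ∃ l' : ℤ, (T x).1 = (T y).1 + l') :
    ∃ ϑ : ℝ → ℝ → ℝ, (∀ t, ϑ 0 t = θ0) ∧
      IsCalibratedW M' O φ (fun x v t => mu Φ ε t * F x v t)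
        (fun x t => mu Φ ε t * ((1 - ε) * Bn Φ t (T x))) i 1 (fun σ t => cv (ϑ σ t)) := by
  obtain ⟨hA1, hA2, hA3, hA4, hA5⟩ := A_facts h hε hε1
  have ha0 : 0 < 1 - ε := by linarith
  set μ : ℝ → ℝ := mu Φ ε with hμ
  have hμs : ContDiff ℝ 1 μ := hA5
  have hμ1 : ∀ t, 0 < μ t := fun t => inv_pos.2 (mul_pos ha0 (hA1 t))
  have hμp : ∀ t, μ (t + 1) = μ t := fun t => by simp only [hμ, mu, hA3]
  have hμa : ∀ t, μ t * ((1 - ε) * An Φ t) = 1 := fun t =>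
    inv_mul_cancel₀ (mul_pos ha0 (hA1 t)).ne'
  obtain ⟨p1, -, -, -, -⟩ := pers h
  obtain ⟨Aμ, hAμ0, hAμ1, hAμ2⟩ := Ot.C10_lip (Ot.OT10_C1 hμs) ⟨fun t _ => hμp t, fun _ _ => rfl⟩
  -- the parametrisation
  set f : ℝ → ℝ → ℝ := fun t θ => μ t * ((1 - ε) * en Φ t θ) with hf
  have hf1 : Ot.C10 f := Ot.OT8_C10_of
    ((hμs.comp contDiff_fst).mul (contDiff_const.mul (FN5_en1 h)))
  have hf2 : ∀ t θ, 0 < f t θ := fun t θ => mul_pos (hμ1 t) (mul_pos ha0 (FN1_en_pos h t θ))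
  have hf3 : Ot.Per2 f := by
    constructor
    · intro t θ
      simp only [hf, hμp, p1.1]
    · intro t θ
      simp only [hf, p1.2]
  have hf4 : ∀ t, ∫ τ in (0:ℝ)..1, f t τ = 1 := by
    intro t
    simp only [hf]
    rw [intervalIntegral.integral_const_mul, intervalIntegral.integral_const_mul]
    exact hμa t
  obtain ⟨ϑ, hϑ1, hϑ2, hϑ3, hϑ4, hϑ5, hϑ6, hϑ7⟩ := Ot.exists_paramT hf1 hf2 hf3 hf4 θ0
  refine ⟨ϑ, hϑ2, ?_⟩
  have hD : ∀ x ∈ M'.N ∩ O, ∀ v, IsTangent M' x v → ∀ t,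
      fderiv ℝ (fun y => μ t * ((1 - ε) * Bn Φ t (T (M'.r y)))) x v =
        μ t * ((1 - ε) * al Φ t (T x) (fderiv ℝ T x v)) := fun x hx v hv t =>
    FN6_fderiv h hG (μ t) (1 - ε) t hx hv
  obtain ⟨CT, hCT0, hCT⟩ := FN6_DT hG
  obtain ⟨AL, hAL0, hAL⟩ := al_lip h (C0 * δ)
  have hr1 := h.pos_r
  have hsm : ∀ x ∈ M'.N ∩ O, ‖(T x).2‖ ≤ r2 := fun x hx => (hG.small x hx).trans hCr
  have hsm1 : ∀ x ∈ M'.N ∩ O, ‖(T x).2‖ < r1 := fun x hx => by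
    have := hsm x hx
    linarith
  have hz0 : ∀ θ : ℝ, ‖((θ, 0) : ℝ × Vec (j + 1)).2‖ < r1 := fun θ => by
    show ‖(0 : Vec (j + 1))‖ < r1
    rw [norm_zero]
    exact hr1
  have hgam : ∀ σ t, HasDerivAt (fun σ => ((ϑ σ t, 0) : ℝ × Vec (j + 1)))
      ((f t (ϑ σ t))⁻¹ • ((1 : ℝ), (0 : Vec (j + 1)))) σ := by
    intro σ t
    have h5 := (hϑ3 σ t).prodMk (hasDerivAt_const σ (0 : Vec (j + 1)))
    have h6 : (f t (ϑ σ t))⁻¹ • ((1 : ℝ), (0 : Vec (j + 1))) = ((f t (ϑ σ t))⁻¹, 0) := by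
      simp
    rw [h6]
    exact h5
  -- the metric and the form
  have hcmp : ∀ x ∈ M'.N ∩ O, ∀ ζ : ℝ × Vec (j + 1), ∀ t,
      (1 - ε) * (c * (eu ζ - ζ.1) + ‖(T x).2‖ ^ 2 * eu ζ) ≤
        Ps Φ K ε S t (T x) ζ - (1 - ε) * al Φ t (T x) ζ := by
    intro x hx ζ t
    have k1 := mul_le_mul_of_nonneg_left (hcore t (T x) ζ (hsm x hx)) ha0.le
    have k2 : 0 ≤ ε / 2 * S (pol 1 (T x)) * Φ t (T x) ζ :=
      mul_nonneg (mul_nonneg (by linarith) (hsh.mem01' _).1) (FN6_nonneg h t (hsm1 x hx) ζ)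
    have k3 : Ps Φ K ε S t (T x) ζ - (1 - ε) * al Φ t (T x) ζ =
        (1 - ε) * (cf Φ K t (T x) * Φ t (T x) ζ - al Φ t (T x) ζ) +
          ε / 2 * S (pol 1 (T x)) * Φ t (T x) ζ := by
      unfold Ps
      ring
    rw [k3]
    linarith
  refine
  { smooth := ?_
    periodic := ?_
    periods := ?_
    lip := ?_
    le := ?_
    len_pos := one_pos
    curve := hG.cv_smooth.comp hϑ1
    mem := fun σ t => hG.cv_mem _
    closed := ?_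
    curve_per := ?_
    unit := ?_
    cal := ?_
    only := ?_
    simple := ?_ }
  · have h3 : ContDiffOn ℝ 1 (fun q : Vec m × ℝ => M'.r q.1) {q | q.1 ∈ M'.U ∧ M'.r q.1 ∈ O} :=
      (M'.smooth.of_le (by simp)).comp contDiffOn_fst (fun q hq => hq.1)
    have h4 : ContDiffOn ℝ 1 (fun q : Vec m × ℝ => T (M'.r q.1)) {q | q.1 ∈ M'.U ∧ M'.r q.1 ∈ O} :=
      hG.smooth.comp_contDiffOn h3
    have h5 : ContDiffOn ℝ 1 (fun q : Vec m × ℝ => (q.2, T (M'.r q.1)))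
        {q | q.1 ∈ M'.U ∧ M'.r q.1 ∈ O} := contDiffOn_snd.prodMk h4
    have h6 : ContDiffOn ℝ 1 (fun q : Vec m × ℝ => Bn Φ q.2 (T (M'.r q.1)))
        {q | q.1 ∈ M'.U ∧ M'.r q.1 ∈ O} := (Bn_smooth h).comp_contDiffOn h5
    have h9 : ContDiffOn ℝ 1 (fun q : Vec m × ℝ => μ q.2) {q | q.1 ∈ M'.U ∧ M'.r q.1 ∈ O} :=
      (hμs.comp contDiff_snd).contDiffOn
    exact h9.mul (contDiffOn_const.mul h6)
  · intro x _ t
    change μ (t + 1) * ((1 - ε) * Bn Φ (t + 1) (T x)) = μ t * ((1 - ε) * Bn Φ t (T x))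
    rw [hμp, Bn_t h]
  · intro q
    refine ⟨(q i : ℤ), fun x _ t => ?_⟩
    change μ t * ((1 - ε) * Bn Φ t (T (x + vz q))) = μ t * ((1 - ε) * Bn Φ t (T x)) + (q i : ℤ)
    rw [FN6_shift hG q x, Bn_per h]
    have h5 := hμa t
    linear_combination ((q i : ℤ) : ℝ) * h5
  · refine ⟨Aμ * ((1 - ε) * (AL * CT)) + Aμ * ((1 - ε) * (AL * CT)), fun x hx v hv t t' => ?_⟩
    change |fderiv ℝ (fun y => μ t * ((1 - ε) * Bn Φ t (T (M'.r y)))) x v -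
      fderiv ℝ (fun y => μ t' * ((1 - ε) * Bn Φ t' (T (M'.r y)))) x v| ≤ _
    rw [hD x hx v hv t, hD x hx v hv t']
    set ζ := fderiv ℝ T x v with hζ
    have h3 : ‖ζ‖ ≤ CT * ‖v‖ :=
      ((fderiv ℝ T x).le_opNorm v).trans (mul_le_mul_of_nonneg_right (hCT x) (norm_nonneg _))
    obtain ⟨h4, h5⟩ := hAL t t' (T x) ζ (hG.small x hx)
    have h6 : |μ t - μ t'| ≤ Aμ * |t - t'| := by
      have h7 := hAμ2 t t' 0
      rwa [Real.norm_eq_abs] at h7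
    have h7 : |μ t'| ≤ Aμ := by
      have h8 := hAμ1 t' 0
      rwa [Real.norm_eq_abs] at h8
    have h8 : μ t * ((1 - ε) * al Φ t (T x) ζ) - μ t' * ((1 - ε) * al Φ t' (T x) ζ) =
        (μ t - μ t') * ((1 - ε) * al Φ t (T x) ζ) +
          μ t' * ((1 - ε) * (al Φ t (T x) ζ - al Φ t' (T x) ζ)) := by ring
    rw [h8]
    have h4' : |(1 - ε) * al Φ t (T x) ζ| ≤ (1 - ε) * (AL * (CT * ‖v‖)) := by
      rw [abs_mul, abs_of_pos ha0]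
      exact mul_le_mul_of_nonneg_left (h4.trans (mul_le_mul_of_nonneg_left h3 hAL0)) ha0.le
    have h5' : |(1 - ε) * (al Φ t (T x) ζ - al Φ t' (T x) ζ)| ≤
        (1 - ε) * (AL * (CT * ‖v‖) * |t - t'|) := by
      rw [abs_mul, abs_of_pos ha0]
      exact mul_le_mul_of_nonneg_left (h5.trans
        (mul_le_mul_of_nonneg_right (mul_le_mul_of_nonneg_left h3 hAL0) (abs_nonneg _))) ha0.le
    have h9 : |(μ t - μ t') * ((1 - ε) * al Φ t (T x) ζ)| ≤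
        Aμ * |t - t'| * ((1 - ε) * (AL * (CT * ‖v‖))) := by
      rw [abs_mul]
      exact mul_le_mul h6 h4' (abs_nonneg _) (mul_nonneg hAμ0 (abs_nonneg _))
    have h10 : |μ t' * ((1 - ε) * (al Φ t (T x) ζ - al Φ t' (T x) ζ))| ≤
        Aμ * ((1 - ε) * (AL * (CT * ‖v‖) * |t - t'|)) := by
      rw [abs_mul]
      exact mul_le_mul h7 h5' (abs_nonneg _) hAμ0
    calc |(μ t - μ t') * ((1 - ε) * al Φ t (T x) ζ) +
          μ t' * ((1 - ε) * (al Φ t (T x) ζ - al Φ t' (T x) ζ))|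
        ≤ Aμ * |t - t'| * ((1 - ε) * (AL * (CT * ‖v‖))) +
            Aμ * ((1 - ε) * (AL * (CT * ‖v‖) * |t - t'|)) :=
          (abs_add_le _ _).trans (add_le_add h9 h10)
      _ = (Aμ * ((1 - ε) * (AL * CT)) + Aμ * ((1 - ε) * (AL * CT))) * ‖v‖ * |t - t'| := by ring
  · intro x hx v hv t
    change fderiv ℝ (fun y => μ t * ((1 - ε) * Bn Φ t (T (M'.r y)))) x v ≤ μ t * F x v t
    rw [hD x hx v hv t, hF x hx]
    refine mul_le_mul_of_nonneg_left ?_ (hμ1 t).le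
    have k1 := hcmp x hx (fderiv ℝ T x v) t
    have k2 := eu_facts (fderiv ℝ T x v)
    have k3 : 0 ≤ (1 - ε) * (c * (eu (fderiv ℝ T x v) - (fderiv ℝ T x v).1) +
        ‖(T x).2‖ ^ 2 * eu (fderiv ℝ T x v)) :=
      mul_nonneg ha0.le (add_nonneg (mul_nonneg hc.le k2.2.2.2.2.2.1) (mul_nonneg (sq_nonneg _) k2.1))
    linarith
  · intro σ t
    change cv (ϑ (σ + 1) t) = cv (ϑ σ t) + vz (Pi.single i 1)
    rw [hϑ4]
    exact hG.cv_per _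
  · intro σ t
    change cv (ϑ σ (t + 1)) = cv (ϑ σ t)
    rw [hϑ5]
  · intro σ t
    change μ t * F (cv (ϑ σ t)) (deriv (fun σ => cv (ϑ σ t)) σ) t = 1
    rw [hF _ (hG.cv_mem _)]
    have h3 : DifferentiableAt ℝ (fun σ => cv (ϑ σ t)) σ := by
      have h4 : ContDiff ℝ 1 (fun σ => cv (ϑ σ t)) :=
        hG.cv_smooth.comp (hϑ1.comp (contDiff_id.prodMk contDiff_const))
      exact (h4.differentiable (by simp)).differentiableAt
    have h4 : HasDerivAt (fun σ => T (cv (ϑ σ t)))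
        (fderiv ℝ T (cv (ϑ σ t)) (deriv (fun σ => cv (ϑ σ t)) σ)) σ :=
      HasFDerivAt.comp_hasDerivAt (l := T) σ
        (hG.smooth.differentiable (by simp)).differentiableAt.hasFDerivAt h3.hasDerivAt
    have h5 : (fun σ => T (cv (ϑ σ t))) = fun σ => ((ϑ σ t, 0) : ℝ × Vec (j + 1)) := by
      funext σ
      exact hG.cv_T _
    rw [h5] at h4
    rw [h4.unique (hgam σ t), hG.cv_T]
    unfold Ps
    rw [hG.cv_S, (core_eq Φ K t (ϑ σ t)).1, h.hom t _ _ _ (hz0 _) (inv_pos.2 (hf2 _ _)).le]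
    have h7 : f t (ϑ σ t) = μ t * ((1 - ε) * Φ t (ϑ σ t, 0) (1, 0)) := rfl
    have h8 := (hf2 t (ϑ σ t)).ne'
    calc μ t * (((1 - ε) * 1 + ε / 2 * 0) * ((f t (ϑ σ t))⁻¹ * Φ t (ϑ σ t, 0) (1, 0))) =
        (f t (ϑ σ t))⁻¹ * (μ t * ((1 - ε) * Φ t (ϑ σ t, 0) (1, 0))) := by ring
      _ = (f t (ϑ σ t))⁻¹ * f t (ϑ σ t) := by rw [h7]
      _ = 1 := inv_mul_cancel₀ h8
  · intro σ t
    change μ t * ((1 - ε) * Bn Φ t (T (cv (ϑ σ t)))) = μ t * ((1 - ε) * Bn Φ t (T (cv (ϑ 0 t)))) + σ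
    rw [hG.cv_T, hG.cv_T]
    have hB : ContDiff ℝ 1 (Bn Φ t) := (Bn_smooth h).comp (contDiff_const.prodMk contDiff_id)
    have h3 : ∀ σ, HasDerivAt (fun σ => μ t * ((1 - ε) * Bn Φ t (ϑ σ t, 0)) - σ) 0 σ := by
      intro σ
      have h4 : HasDerivAt (fun σ => Bn Φ t (ϑ σ t, 0))
          (fderiv ℝ (Bn Φ t) (ϑ σ t, 0) ((f t (ϑ σ t))⁻¹ • ((1 : ℝ), (0 : Vec (j + 1))))) σ :=
        HasFDerivAt.comp_hasDerivAt (l := Bn Φ t) σ
          (hB.differentiable (by simp)).differentiableAt.hasFDerivAt (hgam σ t)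
      have h5 := ((h4.const_mul (1 - ε)).const_mul (μ t)).sub (hasDerivAt_id σ)
      have h6 : μ t * ((1 - ε) * fderiv ℝ (Bn Φ t) (ϑ σ t, 0)
          ((f t (ϑ σ t))⁻¹ • ((1 : ℝ), (0 : Vec (j + 1))))) - 1 = 0 := by
        rw [Bn_fd h, FN6_al_smul h, (core_eq Φ K t (ϑ σ t)).2]
        have h8 := (hf2 t (ϑ σ t)).ne'
        have h9 : f t (ϑ σ t) = μ t * ((1 - ε) * en Φ t (ϑ σ t)) := rfl
        calc μ t * ((1 - ε) * ((f t (ϑ σ t))⁻¹ * en Φ t (ϑ σ t))) - 1 =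
            (f t (ϑ σ t))⁻¹ * (μ t * ((1 - ε) * en Φ t (ϑ σ t))) - 1 := by ring
          _ = (f t (ϑ σ t))⁻¹ * f t (ϑ σ t) - 1 := by rw [← h9]
          _ = 0 := by rw [inv_mul_cancel₀ h8, sub_self]
      rw [← h6]
      exact h5
    have h4 := is_const_of_deriv_eq_zero (f := fun σ => μ t * ((1 - ε) * Bn Φ t (ϑ σ t, 0)) - σ)
      (fun σ => (h3 σ).differentiableAt) (fun σ => (h3 σ).deriv) σ 0
    linarith
  · intro x hx v hv t hv0 heq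
    change fderiv ℝ (fun y => μ t * ((1 - ε) * Bn Φ t (T (M'.r y)))) x v = μ t * F x v t at heq
    rw [hD x hx v hv t, hF x hx] at heq
    have h3 := mul_left_cancel₀ (hμ1 t).ne' heq
    have k1 := hcmp x hx (fderiv ℝ T x v) t
    have k2 := eu_facts (fderiv ℝ T x v)
    have k4 : 0 < ‖fderiv ℝ T x v‖ := norm_pos_iff.2 (hG.inj x hx v hv hv0)
    have k5 : 0 < eu (fderiv ℝ T x v) := k4.trans_le k2.2.2.2.1
    have k6 : 0 ≤ c * (eu (fderiv ℝ T x v) - (fderiv ℝ T x v).1) := mul_nonneg hc.le k2.2.2.2.2.2.1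
    have k7 : ‖(T x).2‖ = 0 := by
      by_contra hne
      have k8 : 0 < ‖(T x).2‖ := lt_of_le_of_ne (norm_nonneg _) (Ne.symm hne)
      have k9 : 0 < (1 - ε) * (c * (eu (fderiv ℝ T x v) - (fderiv ℝ T x v).1) +
          ‖(T x).2‖ ^ 2 * eu (fderiv ℝ T x v)) :=
        mul_pos ha0 (add_pos_of_nonneg_of_pos k6 (mul_pos (pow_pos k8 2) k5))
      linarith
    obtain ⟨σ, hσ⟩ := hϑ6 t (T x).1
    simp only at hσ
    have h5 : T x = T (cv (ϑ σ t)) := by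
      rw [hG.cv_T, hσ]
      exact Prod.ext rfl (norm_eq_zero.1 k7)
    obtain ⟨q, hq⟩ := hG.uniq x hx _ (hG.cv_mem _) h5
    exact ⟨σ, q, hq⟩
  · intro σ σ' t l hl'
    obtain ⟨l', hl''⟩ := hφ _ (hG.cv_mem _) _ (hG.cv_mem _) l hl'
    rw [hG.cv_T, hG.cv_T] at hl''
    exact ⟨l', hϑ7 σ σ' t l' hl''⟩

end EscW.Fn
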