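import Pool.Agent.EscW.FN4
import Pool.Agent.EscW.FN5
import Pool.Agent.EscW.O9

set_option autoImplicit false

/-!
Project EscW, part FN, module FN7: exit.
For `x ∈ K'`, tangent `v`, `ζ = DT v`: `Ps - (1 - ε) al ≥ ε/2 S Φ ≥ (ε/2) c1 S eu ζ ≥ (ε c1 δ/(2 C0)) fderiv bar x v` (`hcore`, `bounds` as `hc1`, `bar_le`). Integrate along `γ1` (tangent almost everywhere: `tangent_ae` of O9; both integrands are integrable: `int_curve` of O9 for a metric which is continuous on `{z | ‖z.2‖ ≤ C0 δ}`, restrict to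
the image; fundamental theorem for the Lipschitz curve and the `C¹` functions `bar`, `Bn Φ t ∘ T`: `ftc_B` of O9 or `E14.ftc_lip`), times `mu > 0`. `bar (γ1 1) ≥ 1` (`exit`), `bar (γ1 0) ≤ 0` (`bar_cv`). The functions `S ∘ pol 1`, `Θ ∘ pol 1`: on `V`, `Θ = 1`, so `S = Θ S` is continuous along curves in `V` (`IsShape.smooth'`).
-/

noncomputable section

namespace EscW.Fn

open Filter Topology Set EscF.T EscM EscMT MeasureTheory EscW.Ex EscW.Dn EscW.On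
open scoped ContDiff

variable {d m k j n : ℕ}

theorem FN7_eu_cont : Continuous (fun ζ : ℝ × Vec k => eu ζ) := by
  unfold eu
  fun_prop

/-- `Φ t` is continuous in `(z, ζ)` for `‖z.2‖ ≤ r1 / 2`, also at `ζ = 0` -/
theorem FN7_cont {Φ : ℝ → ℝ × Vec k → ℝ × Vec k → ℝ} {r1 : ℝ} (h : LocFin Φ r1) (t : ℝ) :
    ContinuousOn (fun p : (ℝ × Vec k) × (ℝ × Vec k) => Φ t p.1 p.2) {p | ‖p.1.2‖ ≤ r1 / 2} := by
  obtain ⟨c, C, hc, hC, -, hb⟩ := bounds h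
  have hr := h.pos_r
  intro p hp
  have hp' : ‖p.1.2‖ ≤ r1 / 2 := hp
  by_cases hζ : p.2 = 0
  · have h0 : Φ t p.1 p.2 = 0 := by
      rw [hζ]
      have := h.hom t p.1 0 0 (by linarith) le_rfl
      simpa using this
    have heu : eu p.2 = 0 := by
      rw [hζ]
      simp [eu]
    have hlim : Tendsto (fun q : (ℝ × Vec k) × (ℝ × Vec k) => C * eu q.2)
        (𝓝[{p | ‖p.1.2‖ ≤ r1 / 2}] p) (𝓝 0) := by
      have h1 : Continuous (fun q : (ℝ × Vec k) × (ℝ × Vec k) => C * eu q.2) :=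
        continuous_const.mul (FN7_eu_cont.comp continuous_snd)
      have h2 := h1.continuousWithinAt (s := {p | ‖p.1.2‖ ≤ r1 / 2}) (x := p)
      have h3 : (fun q : (ℝ × Vec k) × (ℝ × Vec k) => C * eu q.2) p = 0 := by
        simp only [heu, mul_zero]
      unfold ContinuousWithinAt at h2
      rwa [h3] at h2
    show Tendsto _ _ (𝓝 (Φ t p.1 p.2))
    rw [h0]
    refine squeeze_zero_norm' ?_ hlim
    filter_upwards [self_mem_nhdsWithin] with q hq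
    obtain ⟨h1, h2⟩ := hb t q.1 q.2 hq
    have h3 : 0 ≤ eu q.2 := (eu_facts q.2).1
    have h4 : 0 ≤ Φ t q.1 q.2 := (mul_nonneg hc.le h3).trans h1
    rw [Real.norm_eq_abs, abs_of_nonneg h4]
    exact h2
  · apply ContinuousAt.continuousWithinAt
    have hopen : IsOpen {y : ℝ × (ℝ × Vec k) × (ℝ × Vec k) | ‖y.2.1.2‖ < r1 ∧ y.2.2 ≠ 0} := by
      refine IsOpen.inter ?_ ?_
      · exact isOpen_lt (continuous_norm.comp (continuous_snd.comp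
          (continuous_fst.comp continuous_snd))) continuous_const
      · exact isOpen_ne_fun (continuous_snd.comp continuous_snd) continuous_const
    have hmem : ((t, p) : ℝ × (ℝ × Vec k) × (ℝ × Vec k)) ∈
        {y : ℝ × (ℝ × Vec k) × (ℝ × Vec k) | ‖y.2.1.2‖ < r1 ∧ y.2.2 ≠ 0} :=
      ⟨by show ‖p.1.2‖ < r1; linarith, hζ⟩
    have h1 : ContinuousAt (fun y : ℝ × (ℝ × Vec k) × (ℝ × Vec k) => Φ y.1 y.2.1 y.2.2) (t, p) :=
      h.smooth.continuousOn.continuousAt (hopen.mem_nhds hmem)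
    have h2 : ContinuousAt (fun q : (ℝ × Vec k) × (ℝ × Vec k) =>
        ((t, q) : ℝ × (ℝ × Vec k) × (ℝ × Vec k))) p := by fun_prop
    exact ContinuousAt.comp (g := fun y : ℝ × (ℝ × Vec k) × (ℝ × Vec k) => Φ y.1 y.2.1 y.2.2) h1 h2

theorem FN7_coord (l : Fin (j + 1)) : Continuous (fun z : ℝ × Vec (j + 1) => z.2 l) :=
  (EuclideanSpace.proj l : Vec (j + 1) →L[ℝ] ℝ).continuous.comp continuous_snd

theorem FN7_pol_cont : Continuous (pol 1 : ℝ × Vec (j + 1) → Vec (j + 2)) := by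
  refine (PiLp.continuous_toLp 2 _).comp (continuous_pi fun i => ?_)
  refine Fin.cases ?_ (fun i => Fin.cases ?_ (fun i => ?_) i) i
  · exact (continuous_const.add (FN7_coord 0)).mul
      (Real.continuous_cos.comp (continuous_const.mul continuous_fst))
  · exact (continuous_const.add (FN7_coord 0)).mul
      (Real.continuous_sin.comp (continuous_const.mul continuous_fst))
  · exact FN7_coord i.succ

theorem FN7_cf_cont {Φ : ℝ → ℝ × Vec k → ℝ × Vec k → ℝ} {r1 : ℝ} (h : LocFin Φ r1) (K t : ℝ) :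
    Continuous (fun z : ℝ × Vec k => cf Φ K t z) :=
  (reg_cf h K).1.continuous.comp (continuous_const.prodMk continuous_id)

/-- the metric, with the product `Θ S` -/
def FN7_P (Φ : ℝ → ℝ × Vec (j + 1) → ℝ × Vec (j + 1) → ℝ) (K ε : ℝ) (Θ S : Vec (j + 2) → ℝ) (t : ℝ)
    (z ζ : ℝ × Vec (j + 1)) : ℝ :=
  ((1 - ε) * cf Φ K t z + ε / 2 * (Θ (pol 1 z) * S (pol 1 z))) * Φ t z ζ

theorem FN7_P_cont {Φ : ℝ → ℝ × Vec (j + 1) → ℝ × Vec (j + 1) → ℝ} {r1 : ℝ} (h : LocFin Φ r1)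
    {Θ S : Vec (j + 2) → ℝ} {C0 δ : ℝ} (hsh : IsShape Θ S C0 δ) (K ε t : ℝ) :
    ContinuousOn (fun p : (ℝ × Vec (j + 1)) × (ℝ × Vec (j + 1)) => FN7_P Φ K ε Θ S t p.1 p.2)
      {p | ‖p.1.2‖ ≤ r1 / 2} := by
  unfold FN7_P
  refine ContinuousOn.mul ?_ (FN7_cont h t)
  apply Continuous.continuousOn
  have h1 : Continuous (fun p : (ℝ × Vec (j + 1)) × (ℝ × Vec (j + 1)) =>
      Θ (pol 1 p.1) * S (pol 1 p.1)) :=
    hsh.smooth'.continuous.comp (FN7_pol_cont.comp continuous_fst)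
  exact (continuous_const.mul ((FN7_cf_cont h K t).comp continuous_fst)).add
    (continuous_const.mul h1)

/-- the derivative of the primitive along a curve -/
theorem FN7_B {Φ : ℝ → ℝ × Vec k → ℝ × Vec k → ℝ} {r1 : ℝ} (h : LocFin Φ r1) (t : ℝ)
    {T : Vec m → ℝ × Vec k} (hT : ContDiff ℝ 1 T) :
    ContDiff ℝ 1 (fun x => Bn Φ t (T x)) ∧
      ∀ x v, fderiv ℝ (fun x => Bn Φ t (T x)) x v = al Φ t (T x) (fderiv ℝ T x v) := by
  have hB : ContDiff ℝ 1 (Bn Φ t) := by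
    have h1 : ContDiff ℝ 1 (fun z : ℝ × Vec k => ((t, z) : ℝ × (ℝ × Vec k))) :=
      contDiff_const.prodMk contDiff_id
    exact (Bn_smooth h).comp h1
  refine ⟨hB.comp hT, fun x v => ?_⟩
  have h1 : HasFDerivAt T (fderiv ℝ T x) x := (hT.differentiable one_ne_zero x).hasFDerivAt
  have h2 : HasFDerivAt (Bn Φ t) (fderiv ℝ (Bn Φ t) (T x)) (T x) :=
    (hB.differentiable one_ne_zero (T x)).hasFDerivAt
  have h3 : HasFDerivAt (fun x => Bn Φ t (T x)) ((fderiv ℝ (Bn Φ t) (T x)).comp (fderiv ℝ T x)) x :=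
    h2.comp x h1
  rw [h3.fderiv, ContinuousLinearMap.comp_apply, Bn_fd h]

theorem exit_fn {Φ : ℝ → ℝ × Vec (j + 1) → ℝ × Vec (j + 1) → ℝ} {r1 : ℝ} (h : LocFin Φ r1) {ε : ℝ} (hε : 0 < ε) (hε1 : ε < 1)
    {K r2 c : ℝ} (hK : 0 ≤ K) (hc : 0 < c) (hr2 : r2 ≤ r1 / 2)
    (hcore : ∀ (t : ℝ) (z ζ : ℝ × Vec (j + 1)), ‖z.2‖ ≤ r2 →
      c * (eu ζ - ζ.1) + ‖z.2‖ ^ 2 * eu ζ ≤ cf Φ K t z * Φ t z ζ - al Φ t z ζ) {c1 : ℝ}
    (hc1 : 0 < c1) (hc1' : ∀ (t : ℝ) (z ζ : ℝ × Vec (j + 1)), ‖z.2‖ ≤ r1 / 2 → c1 * eu ζ ≤ Φ t z ζ)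
    {M' : Sub m} {O K' : Set (Vec m)} {i : Fin m} {T : Vec m → ℝ × Vec (j + 1)} {cv : ℝ → Vec m}
    {Θ S : Vec (j + 2) → ℝ} {bar : Vec m → ℝ} {θ0 : ℝ} {n : Fin m → ℤ} {γ : ℝ → Vec m}
    {wp : ℝ → Vec (j + 1)} {C0 δ : ℝ} (hC0 : 0 < C0) (hδ : 0 < δ)
    (hG : Geo M' O K' i T cv Θ S bar θ0 n γ wp C0 δ) (hsh : IsShape Θ S C0 δ)
    (hCr : C0 * δ ≤ r2) {F : Vec m → Vec m → ℝ → ℝ}
    (hF : ∀ x ∈ M'.N ∩ O, ∀ v t, F x v t = Ps Φ K ε S t (T x) (fderiv ℝ T x v))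
    (t θ : ℝ) {γ1 : ℝ → Vec m} (hl : ∃ C, LipschitzWith C γ1) (h0 : γ1 0 = cv θ)
    (h1 : ∀ s ∈ Icc (0:ℝ) 1, γ1 s ∈ K') (h2 : γ1 1 ∈ closure (M'.N \ K')) :
    mu Φ ε t * (ε * c1 * δ / (2 * C0)) ≤ excess (fun x v t => mu Φ ε t * F x v t)
      (fun x t => mu Φ ε t * ((1 - ε) * Bn Φ t (T x))) t γ1 := by
  have hmu : 0 < mu Φ ε t := (A_facts h hε hε1).2.2.2.1.pos t
  have hsub : ∀ s ∈ Icc (0:ℝ) 1, γ1 s ∈ M'.N ∩ O := fun s hs => hG.sub (h1 s hs)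
  have hsm : ∀ s ∈ Icc (0:ℝ) 1, ‖(T (γ1 s)).2‖ ≤ r2 := fun s hs =>
    (hG.small _ (hsub s hs)).trans hCr
  have hA : ∀ s ∈ Icc (0:ℝ) 1, T (γ1 s) ∈ {z : ℝ × Vec (j + 1) | ‖z.2‖ ≤ r1 / 2} := fun s hs =>
    (hsm s hs).trans hr2
  -- the integrals
  have hi1 := int_curve (Φ := FN7_P Φ K ε Θ S t) (𝒜 := {z : ℝ × Vec (j + 1) | ‖z.2‖ ≤ r1 / 2})
    (FN7_P_cont h hsh K ε t) hG.smooth hl hA
  obtain ⟨hBs, hBd⟩ := FN7_B h t hG.smooth
  obtain ⟨hi2, he2⟩ := ftc_lip hBs hl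
  simp only [hBd] at hi2 he2
  obtain ⟨hi3, he3⟩ := ftc_lip hG.bar_smooth hl
  have hFP : ∀ s ∈ Icc (0:ℝ) 1, F (γ1 s) (deriv γ1 s) t =
      FN7_P Φ K ε Θ S t (T (γ1 s)) (fderiv ℝ T (γ1 s) (deriv γ1 s)) := by
    intro s hs
    rw [hF _ (hsub s hs)]
    unfold Ps FN7_P
    rw [hG.one _ (hsub s hs), one_mul]
  have hexc : excess (fun x v t => mu Φ ε t * F x v t)
      (fun x t => mu Φ ε t * ((1 - ε) * Bn Φ t (T x))) t γ1 =
      mu Φ ε t * ∫ s in (0:ℝ)..1, (FN7_P Φ K ε Θ S t (T (γ1 s)) (fderiv ℝ T (γ1 s) (deriv γ1 s)) -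
        (1 - ε) * al Φ t (T (γ1 s)) (fderiv ℝ T (γ1 s) (deriv γ1 s))) := by
    rw [intervalIntegral.integral_sub hi1 (hi2.const_mul _), intervalIntegral.integral_const_mul, he2]
    unfold excess
    rw [intervalIntegral.integral_const_mul]
    have h3 : (∫ s in (0:ℝ)..1, F (γ1 s) (deriv γ1 s) t) =
        ∫ s in (0:ℝ)..1, FN7_P Φ K ε Θ S t (T (γ1 s)) (fderiv ℝ T (γ1 s) (deriv γ1 s)) := by
      refine intervalIntegral.integral_congr ?_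
      intro s hs
      rw [uIcc_of_le zero_le_one] at hs
      exact hFP s hs
    rw [h3]
    ring
  -- the pointwise inequality
  have hpt : ∀ s ∈ Icc (0:ℝ) 1, IsTangent M' (γ1 s) (deriv γ1 s) →
      (ε * c1 * δ / (2 * C0)) * fderiv ℝ bar (γ1 s) (deriv γ1 s) ≤
        FN7_P Φ K ε Θ S t (T (γ1 s)) (fderiv ℝ T (γ1 s) (deriv γ1 s)) -
        (1 - ε) * al Φ t (T (γ1 s)) (fderiv ℝ T (γ1 s) (deriv γ1 s)) := by
    intro s hs htan
    set x := γ1 s with hx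
    set v := deriv γ1 s with hv
    set ζ := fderiv ℝ T x v with hζ
    have hΘ : Θ (pol 1 (T x)) = 1 := hG.one x (hsub s hs)
    have hS := hsh.mem01' (pol 1 (T x))
    have hb := hG.bar_le x (h1 s hs) v htan
    have he := eu_facts ζ
    have he0 : 0 ≤ eu ζ := he.1
    have he1 : 0 ≤ eu ζ - ζ.1 := he.2.2.2.2.2.1
    have hco := hcore t (T x) ζ (hsm s hs)
    have hco' : 0 ≤ cf Φ K t (T x) * Φ t (T x) ζ - al Φ t (T x) ζ :=
      (by positivity : 0 ≤ c * (eu ζ - ζ.1) + ‖(T x).2‖ ^ 2 * eu ζ).trans hco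
    have hΦ := hc1' t (T x) ζ (hA s hs)
    have e1 : FN7_P Φ K ε Θ S t (T x) ζ - (1 - ε) * al Φ t (T x) ζ =
        (1 - ε) * (cf Φ K t (T x) * Φ t (T x) ζ - al Φ t (T x) ζ) +
          ε / 2 * (S (pol 1 (T x)) * Φ t (T x) ζ) := by
      unfold FN7_P
      rw [hΘ]
      ring
    have e2 : S (pol 1 (T x)) * (c1 * eu ζ) ≤ S (pol 1 (T x)) * Φ t (T x) ζ :=
      mul_le_mul_of_nonneg_left hΦ hS.1
    have e3 : (ε * c1 * δ / (2 * C0)) * fderiv ℝ bar x v ≤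
        (ε * c1 * δ / (2 * C0)) * (C0 / δ * (S (pol 1 (T x)) * eu ζ)) :=
      mul_le_mul_of_nonneg_left hb (by positivity)
    have e4 : (ε * c1 * δ / (2 * C0)) * (C0 / δ * (S (pol 1 (T x)) * eu ζ)) =
        ε / 2 * (S (pol 1 (T x)) * (c1 * eu ζ)) := by
      field_simp
    have e5 : 0 ≤ (1 - ε) * (cf Φ K t (T x) * Φ t (T x) ζ - al Φ t (T x) ζ) :=
      mul_nonneg (by linarith) hco'
    have e6 : ε / 2 * (S (pol 1 (T x)) * (c1 * eu ζ)) ≤ ε / 2 * (S (pol 1 (T x)) * Φ t (T x) ζ) :=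
      mul_le_mul_of_nonneg_left e2 (by linarith)
    rw [e1]
    linarith
  have hmono : ∫ s in (0:ℝ)..1, (ε * c1 * δ / (2 * C0)) * fderiv ℝ bar (γ1 s) (deriv γ1 s) ≤
      ∫ s in (0:ℝ)..1, (FN7_P Φ K ε Θ S t (T (γ1 s)) (fderiv ℝ T (γ1 s) (deriv γ1 s)) -
        (1 - ε) * al Φ t (T (γ1 s)) (fderiv ℝ T (γ1 s) (deriv γ1 s))) := by
    refine intervalIntegral.integral_mono_ae_restrict zero_le_one (hi3.const_mul _)
      (hi1.sub (hi2.const_mul _)) ?_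
    refine (ae_restrict_iff' measurableSet_Icc).2 ?_
    have ht := tangent_ae (M' := M') hl (fun s hs => (hsub s hs).1)
    have h0 : ∀ᵐ s : ℝ, s ≠ 0 := by simp [ae_iff]
    have h1 : ∀ᵐ s : ℝ, s ≠ 1 := by simp [ae_iff]
    filter_upwards [ht, h0, h1] with s hs hs0 hs1' hI
    exact hpt s hI (hs ⟨lt_of_le_of_ne hI.1 (Ne.symm hs0), lt_of_le_of_ne hI.2 hs1'⟩)
  rw [hexc]
  refine mul_le_mul_of_nonneg_left ?_ hmu.le
  refine le_trans ?_ hmono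
  rw [intervalIntegral.integral_const_mul, he3]
  have h3 := hG.exit (γ1 1) (h1 1 (right_mem_Icc.2 zero_le_one)) h2
  have h4 : bar (γ1 0) ≤ 0 := by
    rw [h0]
    exact hG.bar_cv θ
  have h5 : 0 ≤ ε * c1 * δ / (2 * C0) := by positivity
  calc ε * c1 * δ / (2 * C0) = (ε * c1 * δ / (2 * C0)) * 1 := (mul_one _).symm
    _ ≤ (ε * c1 * δ / (2 * C0)) * (bar (γ1 1) - bar (γ1 0)) :=
        mul_le_mul_of_nonneg_left (by linarith) h5

end EscW.Fn
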