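import Pool.Agent.EscW.FN4
import Pool.Agent.EscW.FN5
import Pool.Agent.EscW.E14

set_option autoImplicit false

/-!
Project EscW, part FN, module FN8: second direction.
On `(0,1)`: `DT (γ s) (deriv γ s) = (1, deriv wp s)` (chain rule, `γd`, `path` on the open interval), `S = 0` (`path`), so `F (γ s) (γ' s) t - (1 - ε) al = (1 - ε) (cf Φ - al) (θ0 + s, wp s) (1, wp' s) ≤ (1 - ε) C (‖wp‖² + ‖wp'‖²) ≤ 2 C (C0 δ)²` (`hC`). The increment of `Bn Φ t ∘ T ∘ γ = Bn Φ t (θ0 + s, wp s)` is the integral of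
`al (θ0 + s, wp s) (1, wp' s)` (`Bn_fd`, `C¹`). The integrand of the length is continuous in `s` on `(0,1)` (and bounded). `γ1 = cv θ0 + vz n` and so on: `γ 1`, `T (γ 1)` by `path` at `s = 1`.
-/

noncomputable section

namespace EscW.Fn

open Filter Topology Set EscF.T EscM EscMT MeasureTheory EscW.Ex EscW.Dn EscW.On
open scoped ContDiff

variable {d m k j n : ℕ}

theorem FN8_wp {wp : ℝ → Vec (j + 1)} (hw : ContDiff ℝ 1 wp) (θ0 : ℝ) (s : ℝ) :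
    HasDerivAt (fun s => ((θ0 + s, wp s) : ℝ × Vec (j + 1))) (1, deriv wp s) s := by
  have h1 : HasDerivAt (fun s : ℝ => θ0 + s) 1 s := (hasDerivAt_id s).const_add θ0
  have h2 : HasDerivAt wp (deriv wp s) s := ((hw.differentiable one_ne_zero) s).hasDerivAt
  exact h1.prodMk h2

theorem FN8_tan {M' : Sub m} {O K' : Set (Vec m)} {i : Fin m} {T : Vec m → ℝ × Vec (j + 1)} {cv : ℝ → Vec m}
    {Θ S : Vec (j + 2) → ℝ} {bar : Vec m → ℝ} {θ0 : ℝ} {n : Fin m → ℤ} {γ : ℝ → Vec m}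
    {wp : ℝ → Vec (j + 1)} {C0 δ : ℝ}
    (hG : Geo M' O K' i T cv Θ S bar θ0 n γ wp C0 δ) {s : ℝ} (hs : s ∈ Ioo (0:ℝ) 1) :
    fderiv ℝ T (γ s) (deriv γ s) = (1, deriv wp s) := by
  have hT : HasFDerivAt T (fderiv ℝ T (γ s)) (γ s) :=
    ((hG.smooth.differentiable one_ne_zero) (γ s)).hasFDerivAt
  have h1 : HasDerivAt (fun s => T (γ s)) (fderiv ℝ T (γ s) (deriv γ s)) s :=
    hT.comp_hasDerivAt s (hG.γd s hs).hasDerivAt
  have h2 : HasDerivAt (fun s => T (γ s)) (1, deriv wp s) s := by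
    refine (FN8_wp hG.wp_smooth θ0 s).congr_of_eventuallyEq ?_
    filter_upwards [Ioo_mem_nhds hs.1 hs.2] with u hu
    exact (hG.path u (Ioo_subset_Icc_self hu)).1
  exact h1.unique h2

theorem FN8_Bc {Φ : ℝ → ℝ × Vec k → ℝ × Vec k → ℝ} {r1 : ℝ} (h : LocFin Φ r1) (t : ℝ) :
    ContDiff ℝ 1 (Bn Φ t) :=
  (Bn_smooth h).comp (contDiff_const.prodMk contDiff_id)

theorem FN8_alc {Φ : ℝ → ℝ × Vec (j + 1) → ℝ × Vec (j + 1) → ℝ} {r1 : ℝ} (h : LocFin Φ r1) (t : ℝ)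
    {wp : ℝ → Vec (j + 1)} (hw : ContDiff ℝ 1 wp) (θ0 : ℝ) :
    Continuous (fun s => al Φ t (θ0 + s, wp s) (1, deriv wp s)) := by
  have h1 : Continuous (fderiv ℝ (Bn Φ t)) := (FN8_Bc h t).continuous_fderiv one_ne_zero
  have hp : Continuous (fun s => ((θ0 + s, wp s) : ℝ × Vec (j + 1))) :=
    (continuous_const.add continuous_id).prodMk hw.continuous
  have hd : Continuous (fun s => ((1, deriv wp s) : ℝ × Vec (j + 1))) :=
    continuous_const.prodMk (hw.continuous_deriv le_rfl)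
  have h2 := (h1.comp hp).clm_apply hd
  refine h2.congr fun s => ?_
  exact Bn_fd h t _ _

theorem FN8_inc {Φ : ℝ → ℝ × Vec (j + 1) → ℝ × Vec (j + 1) → ℝ} {r1 : ℝ} (h : LocFin Φ r1) (t : ℝ)
    {wp : ℝ → Vec (j + 1)} (hw : ContDiff ℝ 1 wp) (θ0 : ℝ) :
    ∫ s in (0:ℝ)..1, al Φ t (θ0 + s, wp s) (1, deriv wp s) =
      Bn Φ t (θ0 + 1, wp 1) - Bn Φ t (θ0 + 0, wp 0) := by
  refine intervalIntegral.integral_eq_sub_of_hasDerivAt (f := fun s => Bn Φ t (θ0 + s, wp s)) ?_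
    ((FN8_alc h t hw θ0).intervalIntegrable _ _)
  intro s _
  have h1 : HasFDerivAt (Bn Φ t) (fderiv ℝ (Bn Φ t) (θ0 + s, wp s)) (θ0 + s, wp s) :=
    (((FN8_Bc h t).differentiable one_ne_zero) _).hasFDerivAt
  have h2 := h1.comp_hasDerivAt s (FN8_wp hw θ0 s)
  rw [Bn_fd h t] at h2
  exact h2

theorem FN8_cfc {Φ : ℝ → ℝ × Vec (j + 1) → ℝ × Vec (j + 1) → ℝ} {r1 : ℝ} (h : LocFin Φ r1) (K t : ℝ)
    {wp : ℝ → Vec (j + 1)} (hw : ContDiff ℝ 1 wp) (hr : ∀ s, ‖wp s‖ < r1) (θ0 : ℝ) :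
    Continuous (fun s => cf Φ K t (θ0 + s, wp s) * Φ t (θ0 + s, wp s) (1, deriv wp s)) := by
  have h1 : Continuous (fun s => cf Φ K t (θ0 + s, wp s)) :=
    (reg_cf h K).1.continuous.comp (continuous_const.prodMk
      ((continuous_const.add continuous_id).prodMk hw.continuous))
  refine h1.mul ?_
  have hg : Continuous (fun s => ((t, (θ0 + s, wp s), (1, deriv wp s)) :
      ℝ × (ℝ × Vec (j + 1)) × (ℝ × Vec (j + 1)))) :=
    continuous_const.prodMk (((continuous_const.add continuous_id).prodMk hw.continuous).prodMk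
      (continuous_const.prodMk (hw.continuous_deriv le_rfl)))
  refine h.smooth.continuousOn.comp_continuous hg fun s => ⟨hr s, ?_⟩
  intro h0
  have := congrArg Prod.fst h0
  simp at this

theorem second_fn {Φ : ℝ → ℝ × Vec (j + 1) → ℝ × Vec (j + 1) → ℝ} {r1 : ℝ} (h : LocFin Φ r1) {ε : ℝ} (hε : 0 < ε) (hε1 : ε < 1) {K C : ℝ}
    (hC : ∀ (t : ℝ) (z : ℝ × Vec (j + 1)) (u : Vec (j + 1)), ‖z.2‖ ≤ r1 / 2 → ‖u‖ ≤ 1 →
      cf Φ K t z * Φ t z (1, u) - al Φ t z (1, u) ≤ C * (‖z.2‖ ^ 2 + ‖u‖ ^ 2))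
    {M' : Sub m} {O K' : Set (Vec m)} {i : Fin m} {T : Vec m → ℝ × Vec (j + 1)} {cv : ℝ → Vec m}
    {Θ S : Vec (j + 2) → ℝ} {bar : Vec m → ℝ} {θ0 : ℝ} {n : Fin m → ℤ} {γ : ℝ → Vec m}
    {wp : ℝ → Vec (j + 1)} {C0 δ : ℝ} (hC0 : 0 < C0) (hδ : 0 < δ)
    (hG : Geo M' O K' i T cv Θ S bar θ0 n γ wp C0 δ) (hsh : IsShape Θ S C0 δ)
    (hCr : C0 * δ ≤ r1 / 2) (hCr1 : C0 * δ ≤ 1) (hCp : 0 < C) {F : Vec m → Vec m → ℝ → ℝ}
    (hF : ∀ x ∈ M'.N ∩ O, ∀ v t, F x v t = Ps Φ K ε S t (T x) (fderiv ℝ T x v)) (t : ℝ) :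
    excess (fun x v t => mu Φ ε t * F x v t)
      (fun x t => mu Φ ε t * ((1 - ε) * Bn Φ t (T x))) t γ ≤ mu Φ ε t * (2 * C * (C0 * δ) ^ 2) := by
  have hμ : 0 ≤ mu Φ ε t := ((A_facts h hε hε1).2.2.2.1.pos t).le
  have hw := hG.wp_smooth
  have hcr : C0 * δ < r1 := by
    have := h.pos_r
    linarith
  have hfc := FN8_cfc h K t hw (fun s => (hG.wp_small s).1.trans_lt hcr) θ0
  have hac := FN8_alc h t hw θ0
  have hle : ∀ s, cf Φ K t (θ0 + s, wp s) * Φ t (θ0 + s, wp s) (1, deriv wp s) -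
      al Φ t (θ0 + s, wp s) (1, deriv wp s) ≤ 2 * C * (C0 * δ) ^ 2 := by
    intro s
    refine (hC t (θ0 + s, wp s) (deriv wp s) ((hG.wp_small s).1.trans hCr)
      ((hG.wp_small s).2.trans hCr1)).trans ?_
    have h1 : ‖wp s‖ ^ 2 ≤ (C0 * δ) ^ 2 := pow_le_pow_left₀ (norm_nonneg _) (hG.wp_small s).1 2
    have h2 : ‖deriv wp s‖ ^ 2 ≤ (C0 * δ) ^ 2 := pow_le_pow_left₀ (norm_nonneg _) (hG.wp_small s).2 2
    show C * (‖wp s‖ ^ 2 + ‖deriv wp s‖ ^ 2) ≤ 2 * C * (C0 * δ) ^ 2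
    nlinarith
  have e1 : ∫ s in (0:ℝ)..1, mu Φ ε t * F (γ s) (deriv γ s) t =
      ∫ s in (0:ℝ)..1, mu Φ ε t * ((1 - ε) *
        (cf Φ K t (θ0 + s, wp s) * Φ t (θ0 + s, wp s) (1, deriv wp s))) := by
    refine intervalIntegral.integral_congr_ae ?_
    have h1 : ∀ᵐ s : ℝ, s ≠ 1 := by
      simp [ae_iff, measure_singleton]
    filter_upwards [h1] with s hs1 hs
    rw [uIoc_of_le zero_le_one] at hs
    have hs' : s ∈ Ioo (0:ℝ) 1 := ⟨hs.1, lt_of_le_of_ne hs.2 hs1⟩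
    have hc : s ∈ Icc (0:ℝ) 1 := Ioo_subset_Icc_self hs'
    rw [hF (γ s) (hG.sub (hG.γK s hc)), FN8_tan hG hs', (hG.path s hc).1]
    unfold Ps
    rw [(hG.path s hc).2]
    ring
  have e2 : ∫ s in (0:ℝ)..1, mu Φ ε t * ((1 - ε) *
        (cf Φ K t (θ0 + s, wp s) * Φ t (θ0 + s, wp s) (1, deriv wp s))) =
      mu Φ ε t * ((1 - ε) * ∫ s in (0:ℝ)..1,
        (cf Φ K t (θ0 + s, wp s) * Φ t (θ0 + s, wp s) (1, deriv wp s))) := by
    rw [intervalIntegral.integral_const_mul, intervalIntegral.integral_const_mul]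
  have e3 : (∫ s in (0:ℝ)..1, (cf Φ K t (θ0 + s, wp s) * Φ t (θ0 + s, wp s) (1, deriv wp s))) -
      (∫ s in (0:ℝ)..1, al Φ t (θ0 + s, wp s) (1, deriv wp s)) ≤ 2 * C * (C0 * δ) ^ 2 := by
    rw [← intervalIntegral.integral_sub (hfc.intervalIntegrable _ _) (hac.intervalIntegrable _ _)]
    have h1 := intervalIntegral.integral_mono_on (μ := volume) (zero_le_one (α := ℝ))
      ((hfc.sub hac).intervalIntegrable 0 1)
      (intervalIntegrable_const (c := 2 * C * (C0 * δ) ^ 2)) (fun s _ => hle s)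
    simpa using h1
  have e4 := FN8_inc h t hw θ0
  have p1 := (hG.path 1 ⟨zero_le_one, le_rfl⟩).1
  have p0 := (hG.path 0 ⟨le_rfl, zero_le_one⟩).1
  unfold excess
  show (∫ s in (0:ℝ)..1, mu Φ ε t * F (γ s) (deriv γ s) t) -
    (mu Φ ε t * ((1 - ε) * Bn Φ t (T (γ 1))) - mu Φ ε t * ((1 - ε) * Bn Φ t (T (γ 0)))) ≤ _
  rw [e1, e2, p1, p0]
  set I := ∫ s in (0:ℝ)..1, (cf Φ K t (θ0 + s, wp s) * Φ t (θ0 + s, wp s) (1, deriv wp s)) with hI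
  set J := ∫ s in (0:ℝ)..1, al Φ t (θ0 + s, wp s) (1, deriv wp s) with hJ
  have e5 : mu Φ ε t * ((1 - ε) * I) -
      (mu Φ ε t * ((1 - ε) * Bn Φ t (θ0 + 1, wp 1)) - mu Φ ε t * ((1 - ε) * Bn Φ t (θ0 + 0, wp 0))) =
      mu Φ ε t * ((1 - ε) * (I - J)) := by
    rw [e4]
    ring
  rw [e5]
  refine mul_le_mul_of_nonneg_left ?_ hμ
  have hb : 0 ≤ 2 * C * (C0 * δ) ^ 2 := by positivity
  calc (1 - ε) * (I - J) ≤ (1 - ε) * (2 * C * (C0 * δ) ^ 2) :=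
        mul_le_mul_of_nonneg_left e3 (by linarith)
    _ ≤ 2 * C * (C0 * δ) ^ 2 := by nlinarith

end EscW.Fn
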