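import Pool.Agent.EscW.FN6
import Pool.Agent.EscW.FN7
import Pool.Agent.EscW.FN8

set_option autoImplicit false

/-!
Project EscW, part FN, module FN9: abstract form.
`K, r2, c` of `core_low`; `c1` of `bounds`; `C` of `core_upp`; `C'` of `cf_near`. `δ1`: `C0 δ1 ≤ r2, 1`, `C' C0 δ1 ≤ ε/4`, and `2 C (C0 δ)² < ε c1 δ / (2 C0)` for `δ ≤ δ1`. `mu` is continuous and periodic, so it has a minimum at some `t0`; `a = mu t0 * (ε c1 δ/(2 C0))`. `exit`: `exit_fn` and `mu t ≥ mu t0`. `second`: at the time `t0`, `second_fn`,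
`γ 0 = cv θ0 = cv (ϑ 0 t0)`. `mem`: `cv_K`. `IsWeight`: `A_facts`.
-/

noncomputable section

namespace EscW.Fn

open Filter Topology Set EscF.T EscM EscMT MeasureTheory EscW.Ex EscW.Dn EscW.On
open scoped ContDiff

variable {d m k j n : ℕ}

/-- a continuous function of period one has a minimum -/
theorem FN9_min {f : ℝ → ℝ} (hf : Continuous f) (hp : ∀ t, f (t + 1) = f t) :
    ∃ t0, ∀ t, f t0 ≤ f t := by
  obtain ⟨t0, -, h0⟩ := (isCompact_Icc (a := (0:ℝ)) (b := 1)).exists_isMinOn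
    ⟨0, by norm_num, by norm_num⟩ hf.continuousOn
  refine ⟨t0, fun t => ?_⟩
  have hP : Function.Periodic f 1 := hp
  have h1 : f (Int.fract t) = f t := by
    have h2 := hP.sub_int_mul_eq (x := t) ⌊t⌋
    rw [mul_one] at h2
    exact h2
  rw [← h1]
  exact h0 ⟨Int.fract_nonneg t, (Int.fract_lt_one t).le⟩

theorem abs_fn {Φ : ℝ → ℝ × Vec (j + 1) → ℝ × Vec (j + 1) → ℝ} {r1 : ℝ} (h : LocFin Φ r1) {ε : ℝ} (hε : 0 < ε) (hε4 : ε ≤ 1 / 4) {C0 : ℝ} (hC0 : 0 < C0) :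
    ∃ K δ1 : ℝ, 0 ≤ K ∧ 0 < δ1 ∧ (∀ δ, 0 < δ → δ ≤ δ1 → C0 * δ ≤ r1 / 2 ∧ C0 * δ ≤ 1 / 2 ∧
        ∀ (t : ℝ) (z : ℝ × Vec (j + 1)), ‖z.2‖ ≤ C0 * δ → |cf Φ K t z - 1| ≤ ε / 4) ∧
      ∀ δ, 0 < δ → δ ≤ δ1 → ∀ (m : ℕ) (M' : Sub m) (O K' : Set (Vec m)) (i : Fin m)
        (T : Vec m → ℝ × Vec (j + 1)) (cv : ℝ → Vec m) (Θ S : Vec (j + 2) → ℝ) (bar : Vec m → ℝ) (θ0 : ℝ)
        (n : Fin m → ℤ) (γ : ℝ → Vec m) (wp : ℝ → Vec (j + 1)),
        Geo M' O K' i T cv Θ S bar θ0 n γ wp C0 δ → IsShape Θ S C0 δ →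
        ∀ (φ : Vec m → Vec d) (F : Vec m → Vec m → ℝ → ℝ),
        (∀ x ∈ M'.N ∩ O, ∀ v t, F x v t = Ps Φ K ε S t (T x) (fderiv ℝ T x v)) →
        (∀ x ∈ M'.N ∩ O, ∀ y ∈ M'.N ∩ O, ∀ l : Fin d → ℤ, φ x = φ y + vz l →
          ∃ l' : ℤ, (T x).1 = (T y).1 + l') →
        ∃ (μ : ℝ → ℝ) (B : Vec m → ℝ → ℝ) (len a : ℝ) (c : ℝ → ℝ → Vec m), IsWeight μ ∧
          IsCalibratedW M' O φ (fun x v t => μ t * F x v t) B i len c ∧
          IsRoom M' O K' (fun x v t => μ t * F x v t) B i c a := by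
  obtain ⟨K, r2, c, hK, hr2, hr2', hc, hcore⟩ := core_low h
  obtain ⟨C, hC, hupp⟩ := core_upp h hK
  obtain ⟨C', hC', hnear⟩ := cf_near h hK
  obtain ⟨c1, _, hc1, _, _, hb⟩ := bounds h
  have hε1 : ε < 1 := by linarith
  obtain ⟨-, -, -, hw, hmu⟩ := A_facts h hε hε1
  obtain ⟨t0, ht0⟩ := FN9_min hmu.continuous hw.periodic
  have hCC : 0 < 8 * C * C0 ^ 3 := by positivity
  refine ⟨K, min (min (r2 / C0) (1 / (2 * C0))) (min (ε / (4 * C' * C0)) (ε * c1 / (8 * C * C0 ^ 3))),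
    hK, lt_min (lt_min (div_pos hr2 hC0) (by positivity)) (lt_min (by positivity) (by positivity)),
    ?_, ?_⟩
  · intro δ hδ hδ1
    have h1 : δ ≤ r2 / C0 := le_trans hδ1 (le_trans (min_le_left _ _) (min_le_left _ _))
    have h2 : δ ≤ 1 / (2 * C0) := le_trans hδ1 (le_trans (min_le_left _ _) (min_le_right _ _))
    have h3 : δ ≤ ε / (4 * C' * C0) := le_trans hδ1 (le_trans (min_le_right _ _) (min_le_left _ _))
    rw [le_div_iff₀ hC0] at h1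
    rw [le_div_iff₀ (by positivity)] at h2 h3
    refine ⟨by nlinarith, by nlinarith, fun t z hz => ?_⟩
    have hz1 : ‖z.2‖ ≤ 1 := by nlinarith
    calc |cf Φ K t z - 1| ≤ C' * ‖z.2‖ := hnear t z hz1
      _ ≤ C' * (C0 * δ) := mul_le_mul_of_nonneg_left hz hC'.le
      _ ≤ ε / 4 := by nlinarith
  · intro δ hδ hδ1 m M' O K' i T cv Θ S bar θ0 n γ wp hG hsh φ F hF hφ
    have h1 : δ ≤ r2 / C0 := le_trans hδ1 (le_trans (min_le_left _ _) (min_le_left _ _))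
    have h2 : δ ≤ 1 / (2 * C0) := le_trans hδ1 (le_trans (min_le_left _ _) (min_le_right _ _))
    have h4 : δ ≤ ε * c1 / (8 * C * C0 ^ 3) :=
      le_trans hδ1 (le_trans (min_le_right _ _) (min_le_right _ _))
    rw [le_div_iff₀ hC0] at h1
    rw [le_div_iff₀ (by positivity)] at h2
    rw [le_div_iff₀ hCC] at h4
    have hCr : C0 * δ ≤ r2 := by linarith [mul_comm C0 δ]
    have hCr1 : C0 * δ ≤ 1 := by nlinarith
    obtain ⟨ϑ, hϑ0, hcal⟩ := calibrated_fn h hε hε1 hK hc hr2' hcore hC0 hδ hG hsh hCr hF hφ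
    have hmu0 : 0 < mu Φ ε t0 := hw.pos t0
    have hq : 0 < ε * c1 * δ / (2 * C0) := by positivity
    refine ⟨mu Φ ε, fun x t => mu Φ ε t * ((1 - ε) * Bn Φ t (T x)), 1,
      mu Φ ε t0 * (ε * c1 * δ / (2 * C0)), fun σ t => cv (ϑ σ t), hw, hcal, ?_⟩
    refine ⟨hG.closed, hG.sub, hG.periodic, fun σ t => hG.cv_K _, ?_, ?_⟩
    · intro t σ γ1 hl h0 h3 h5
      have h6 := exit_fn h hε hε1 hK hc hr2' hcore hc1 (fun t z ζ hz => (hb t z ζ hz).1) hC0 hδ hG hsh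
        hCr hF t (ϑ σ t) hl h0 h3 h5
      exact le_trans (mul_le_mul_of_nonneg_right (ht0 t) hq.le) h6
    · have h7 := second_fn h hε hε1 hupp hC0 hδ hG hsh (le_trans hCr hr2') hCr1 hC hF t0
      refine ⟨t0, n, γ, hG.n_ne, hG.lip, ?_, ?_, hG.γK, lt_of_le_of_lt h7 ?_⟩
      · show γ 0 = cv (ϑ 0 t0)
        rw [hϑ0]
        exact hG.γ0
      · show γ 1 = cv (ϑ 0 t0) + vz n
        rw [hϑ0]
        exact hG.γ1
      · refine mul_lt_mul_of_pos_left ?_ hmu0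
        rw [lt_div_iff₀ (by positivity)]
        have h8 : 2 * C * (C0 * δ) ^ 2 * (2 * C0) = (δ * (8 * C * C0 ^ 3)) * δ / 2 := by ring
        rw [h8]
        have h9 : δ * (8 * C * C0 ^ 3) * δ ≤ ε * c1 * δ := mul_le_mul_of_nonneg_right h4 hδ.le
        have h10 : 0 < ε * c1 * δ := by positivity
        linarith

end EscW.Fn
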