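import Pool.Agent.EscW.OTDefs

set_option autoImplicit false

/-!
Project EscW (MP_6acca1_an), part FN: the class is dense, by conformal factors, among all smooth time-periodic
families of Finsler metrics. Definitions.
-/

noncomputable section

namespace EscW.Fn

open Filter Topology Set EscF.T EscM EscMT MeasureTheory EscW.Ex EscW.Dn EscW.On
open scoped ContDiff

variable {d m k j n : ℕ}

/-- a time-periodic family of Finsler metrics on `M`, which is smooth (off zero) and strongly convex at the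
points of `W0 + ℤᵈ` -/
structure IsSmoothFinslerT (M : Sub d) (W0 : Set (Vec d)) (F : Vec d → Vec d → ℝ → ℝ) : Prop where
  fins : IsFinslerT M F
  smooth : ContDiffOn ℝ ∞ (fun z : (Vec d × Vec d) × ℝ => ext M (fun x v => F x v z.2) z.1)
    {z | z.1 ∈ TD M ∧ ∃ l : Fin d → ℤ, M.r z.1.1 + vz l ∈ W0}
  convex : ∀ x ∈ M.N, (∃ l : Fin d → ℤ, x + vz l ∈ W0) → ∀ v w t, IsTangent M x v → IsTangent M x w →
    v ≠ 0 → w ≠ 0 → 0 < iteratedFDeriv ℝ 2 (fun u => F x (fderiv ℝ M.r x u) t ^ 2) v ![w, w]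

/-- a time-periodic conformal factor on `M`: a smooth function near one, equal to one outside of `W0 + ℤᵈ` -/
structure IsConfT (M : Sub d) (W0 : Set (Vec d)) (ε : ℝ) (w : Vec d → ℝ → ℝ) : Prop where
  smooth : ContDiffOn ℝ ∞ (fun z : Vec d × ℝ => w (M.r z.1) z.2) {z | z.1 ∈ M.U}
  periodic : ∀ (l : Fin d → ℤ), ∀ x ∈ M.N, ∀ t, w (x + vz l) t = w x t
  periodic' : ∀ x ∈ M.N, ∀ t, w x (t + 1) = w x t
  near : ∀ x ∈ M.N, ∀ t, |w x t - 1| ≤ ε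
  pos : ∀ x ∈ M.N, ∀ t, 0 < w x t
  off : ∀ x ∈ M.N, (∀ l : Fin d → ℤ, x + vz l ∉ W0) → ∀ t, w x t = 1

/-! ### a family of metrics in annular coordinates -/

/-- Euclidean norm of a tangent vector -/
def eu (ζ : ℝ × Vec k) : ℝ := √(ζ.1 ^ 2 + ‖ζ.2‖ ^ 2)

/-- a time-periodic family of smooth strongly convex Finsler metrics for `‖w‖ < r1`, `θ` has period one -/
structure LocFin (Φ : ℝ → ℝ × Vec k → ℝ × Vec k → ℝ) (r1 : ℝ) : Prop where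
  pos_r : 0 < r1
  smooth : ContDiffOn ℝ ∞ (fun y : ℝ × (ℝ × Vec k) × (ℝ × Vec k) => Φ y.1 y.2.1 y.2.2)
    {y | ‖y.2.1.2‖ < r1 ∧ y.2.2 ≠ 0}
  per_t : ∀ (t : ℝ) (z ζ : ℝ × Vec k), ‖z.2‖ < r1 → Φ (t + 1) z ζ = Φ t z ζ
  per_θ : ∀ (t θ : ℝ) (w : Vec k) (ζ : ℝ × Vec k), ‖w‖ < r1 → Φ t (θ + 1, w) ζ = Φ t (θ, w) ζ
  hom : ∀ (t : ℝ) (z ζ : ℝ × Vec k) (a : ℝ), ‖z.2‖ < r1 → 0 ≤ a → Φ t z (a • ζ) = a * Φ t z ζ
  pos : ∀ (t : ℝ) (z ζ : ℝ × Vec k), ‖z.2‖ < r1 → ζ ≠ 0 → 0 < Φ t z ζ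
  convex : ∀ (t : ℝ) (z ζ ξ : ℝ × Vec k), ‖z.2‖ < r1 → ζ ≠ 0 → ξ ≠ 0 →
    0 < iteratedFDeriv ℝ 2 (fun ζ => Φ t z ζ ^ 2) ζ ![ξ, ξ]

/-- the metric on the vector `(1, 0)` along the curve `w = 0` -/
def en (Φ : ℝ → ℝ × Vec k → ℝ × Vec k → ℝ) (t θ : ℝ) : ℝ := Φ t (θ, 0) (1, 0)

/-- the momentum -/
def pn (Φ : ℝ → ℝ × Vec k → ℝ × Vec k → ℝ) (t θ : ℝ) : Vec k := gu (lg (Φ t)) (θ, 0, 0)

/-- the gradient in `w` -/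
def gn (Φ : ℝ → ℝ × Vec k → ℝ × Vec k → ℝ) (t θ : ℝ) : Vec k := gw (lg (Φ t)) (θ, 0, 0)

/-- the linear part of the conformal factor -/
def ln (Φ : ℝ → ℝ × Vec k → ℝ × Vec k → ℝ) (t θ : ℝ) : Vec k :=
  (en Φ t θ)⁻¹ • (deriv (pn Φ t) θ - gn Φ t θ)

/-- the second derivative of the metric in `u`, divided by the metric, at the vector `(1, 0)` -/
def Qn (Φ : ℝ → ℝ × Vec k → ℝ × Vec k → ℝ) (t θ : ℝ) (w : Vec k) : ℝ :=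
  (en Φ t θ)⁻¹ * fderiv ℝ (fderiv ℝ (lg (Φ t))) (θ, 0, 0) (0, 0, w) (0, 0, w)

/-- the conformal factor near the curve -/
def cf (Φ : ℝ → ℝ × Vec k → ℝ × Vec k → ℝ) (K t : ℝ) (z : ℝ × Vec k) : ℝ :=
  1 + inner ℝ (ln Φ t z.1) z.2 + K * Qn Φ t z.1 z.2

/-- the calibrating form -/
def al (Φ : ℝ → ℝ × Vec k → ℝ × Vec k → ℝ) (t : ℝ) (z ζ : ℝ × Vec k) : ℝ :=
  en Φ t z.1 * ζ.1 + inner ℝ (deriv (pn Φ t) z.1) z.2 * ζ.1 + inner ℝ (pn Φ t z.1) ζ.2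

/-- its primitive -/
def Bn (Φ : ℝ → ℝ × Vec k → ℝ × Vec k → ℝ) (t : ℝ) (z : ℝ × Vec k) : ℝ :=
  (∫ τ in (0:ℝ)..z.1, en Φ t τ) + inner ℝ (pn Φ t z.1) z.2

/-- the length of the curve -/
def An (Φ : ℝ → ℝ × Vec k → ℝ × Vec k → ℝ) (t : ℝ) : ℝ := ∫ τ in (0:ℝ)..1, en Φ t τ

/-- normalisation -/
def mu (Φ : ℝ → ℝ × Vec k → ℝ × Vec k → ℝ) (ε t : ℝ) : ℝ := ((1 - ε) * An Φ t)⁻¹

/-- the new metric in annular coordinates; `S` is the step of the barrier -/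
def Ps (Φ : ℝ → ℝ × Vec (j + 1) → ℝ × Vec (j + 1) → ℝ) (K ε : ℝ) (S : Vec (j + 2) → ℝ) (t : ℝ)
    (z ζ : ℝ × Vec (j + 1)) : ℝ :=
  ((1 - ε) * cf Φ K t z + ε / 2 * S (pol 1 z)) * Φ t z ζ

/-! ### the conformal factor in the coordinates `Y` of the chart -/

/-- inverse of `pol 1` -/
def pin (Y : Vec (j + 2)) : ℝ × Vec (j + 1) :=
  (Complex.arg ⟨Y 0, Y 1⟩ / (2 * Real.pi),
    WithLp.toLp 2 (Fin.cons (√(Y 0 ^ 2 + Y 1 ^ 2) - 1) (fun i : Fin j => Y i.succ.succ)))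

/-- `Θ` is a cut-off of the thin domain around the unit circle, `S` is the step of the barrier -/
structure IsShape (Θ S : Vec (j + 2) → ℝ) (C0 δ : ℝ) : Prop where
  smooth : ContDiff ℝ ∞ Θ
  smooth' : ContDiff ℝ ∞ (fun Y => Θ Y * S Y)
  mem01 : ∀ Y, 0 ≤ Θ Y ∧ Θ Y ≤ 1
  mem01' : ∀ Y, 0 ≤ S Y ∧ S Y ≤ 1
  supp : ∀ z : ℝ × Vec (j + 1), 0 < 1 + z.2 0 → Θ (pol 1 z) ≠ 0 → ‖z.2‖ ≤ C0 * δ
  off : ∀ Y, Y 0 ^ 2 + Y 1 ^ 2 ≤ 1 / 4 → Θ Y = 0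

/-- the conformal factor -/
def Wf (Φ : ℝ → ℝ × Vec (j + 1) → ℝ × Vec (j + 1) → ℝ) (K ε : ℝ) (Θ S : Vec (j + 2) → ℝ) (t : ℝ)
    (Y : Vec (j + 2)) : ℝ :=
  Θ Y * ((1 - ε) * cf Φ K t (pin Y) + ε / 2 * S Y) + (1 - Θ Y)

open Classical in
/-- the conformal factor on `M` -/
def wMt (W : Set (Vec d)) (s : ℝ) (g' : Vec d → Vec m) (w : ℝ → Vec m → ℝ) (p : Vec d) (t : ℝ) : ℝ :=
  if h : ∃ l : Fin d → ℤ, p + vz l ∈ W then w t (s⁻¹ • g' (p + vz h.choose)) else 1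

/-! ### covers -/

/-- A domain `V = M'.N ∩ O` which is mapped by `T` (annular coordinates) to a thin domain around the curve `w = 0`,
a lift `cv` of this curve, a room `K` with barrier `bar`, whose derivative is nonzero only where `S = 1`, and a
second direction `γ`. -/
structure Geo (M' : Sub m) (O K : Set (Vec m)) (i : Fin m) (T : Vec m → ℝ × Vec (j + 1)) (cv : ℝ → Vec m)
    (Θ S : Vec (j + 2) → ℝ) (bar : Vec m → ℝ) (θ0 : ℝ) (n : Fin m → ℤ) (γ : ℝ → Vec m)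
    (wp : ℝ → Vec (j + 1)) (C0 δ : ℝ) : Prop where
  isOpen : IsOpen O
  smooth : ContDiff ℝ 1 T
  fst : ∀ x, (T x).1 = x i
  per : ∀ (l : Fin m → ℤ) (x : Vec m), (T (x + vz l)).2 = (T x).2
  small : ∀ x ∈ M'.N ∩ O, ‖(T x).2‖ ≤ C0 * δ
  one : ∀ x ∈ M'.N ∩ O, Θ (pol 1 (T x)) = 1
  inj : ∀ x ∈ M'.N ∩ O, ∀ v, IsTangent M' x v → v ≠ 0 → fderiv ℝ T x v ≠ 0
  uniq : ∀ x ∈ M'.N ∩ O, ∀ y ∈ M'.N ∩ O, T x = T y → ∃ l : Fin m → ℤ, x = y + vz l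
  cv_smooth : ContDiff ℝ 1 cv
  cv_mem : ∀ θ, cv θ ∈ M'.N ∩ O
  cv_T : ∀ θ, T (cv θ) = (θ, 0)
  cv_per : ∀ θ, cv (θ + 1) = cv θ + vz (Pi.single i 1)
  cv_S : ∀ θ, S (pol 1 (θ, 0)) = 0
  closed : IsClosed K
  sub : K ⊆ M'.N ∩ O
  periodic : ∀ (l : Fin m → ℤ), ∀ x ∈ K, x + vz l ∈ K
  cv_K : ∀ θ, cv θ ∈ K
  bar_smooth : ContDiff ℝ 1 bar
  bar_cv : ∀ θ, bar (cv θ) ≤ 0
  bar_le : ∀ x ∈ K, ∀ v, IsTangent M' x v →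
    fderiv ℝ bar x v ≤ C0 / δ * (S (pol 1 (T x)) * eu (fderiv ℝ T x v))
  exit : ∀ x ∈ K, x ∈ closure (M'.N \ K) → 1 ≤ bar x
  n_ne : ∀ l : ℤ, n ≠ Pi.single i l
  lip : ∃ C, LipschitzWith C γ
  γ0 : γ 0 = cv θ0
  γ1 : γ 1 = cv θ0 + vz n
  γK : ∀ s ∈ Icc (0:ℝ) 1, γ s ∈ K
  γd : ∀ s ∈ Ioo (0:ℝ) 1, DifferentiableAt ℝ γ s
  path : ∀ s ∈ Icc (0:ℝ) 1, T (γ s) = (θ0 + s, wp s) ∧ S (pol 1 (θ0 + s, wp s)) = 0
  wp_smooth : ContDiff ℝ 1 wp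
  wp_small : ∀ s, ‖wp s‖ ≤ C0 * δ ∧ ‖deriv wp s‖ ≤ C0 * δ

/-! ### parts D and G -/

def ThD (δ : ℝ) (Y : Vec (n + 3)) : ℝ := Dn.tΘ δ ((1 + δ) • Y)

def StD (δ : ℝ) (Y : Vec (n + 3)) : ℝ := Real.smoothTransition (16 * Dn.tq δ ((1 + δ) • Y))

def TfD (δ : ℝ) (X : Vec (n + 3)) : ℝ × Vec (n + 2) := (X 0, (1 + δ)⁻¹ • (TcD δ X).2)

def cvD (θ : ℝ) : Vec (n + 3) := WithLp.toLp 2 (fun i => if i = 0 then θ else 0)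

def gaD (s : ℝ) : Vec (n + 3) := WithLp.toLp 2 (fun i => if i = 0 ∨ i = 1 then s else 0)

def nnD (i : Fin (n + 3)) : ℤ := if i = 0 ∨ i = 1 then 1 else 0

def wpD (δ s : ℝ) : Vec (n + 2) :=
  (1 + δ)⁻¹ • WithLp.toLp 2 (fun i => if i = 0 then δ * Real.cos (2 * Real.pi * s) - δ else
    if i = 1 then δ * Real.sin (2 * Real.pi * s) else 0)

def StG (δ : ℝ) (Y : Vec 2) : ℝ := 1 - (1 - Real.smoothTransition (2 - 2 * Gn.tz δ Y)) *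
  (1 - Real.smoothTransition (4 * Gn.tu δ Y ^ 2 - 1))

def cvG (θ : ℝ) : Vec 3 := WithLp.toLp 2 (fun i => if i = 0 then θ else if i = 1 then 0 else
  1 / 2 - Real.arctan (Real.sin (2 * Real.pi * θ)) / (2 * Real.pi))

def nnG (i : Fin 3) : ℤ := if i = 1 then 0 else 1

def wpG (δ s : ℝ) : Vec 1 := WithLp.toLp 2 (fun _ => δ * (1 + Real.cos (2 * Real.pi * (s - 1 / 2))) / 4)

end EscW.Fn
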