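import Pool.Agent.EscW.OTDefs

set_option autoImplicit false

/-!
Project EscW, part OT, module OT1: the linear operator.
`μ = √(β/α) > 0`, `c = (1 - e^{-μ})⁻¹`. `rp`, `rm`: substitute `s = θ + τ`: `rp μ g θ = - c e^{μθ} ∫_θ^{θ+1} e^{-μs} g s ds`, `rm μ g θ = c e^{-μθ} ∫_{θ-1}^θ e^{μs} g s ds`; differentiate (fundamental theorem), periodicity of `g`:
`rp' = μ rp + g`, `rm' = - μ rm + g`. `Wf' = (2√(αβ))⁻¹ (μ rp + g₊ + μ rm - g₋)`, `g₊ - g₋ = - 2 μ f₁`, `μ / √(αβ) = 1/α`. `Pf' = (1/2) (μ (rp - rm) + g₊ + g₋) = β Wf + f₂` (`μ √(αβ) = β`). Bounds: `|g±| ≤ (1 + μ) b`. Linearity: integrals of continuous functions.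
`Sf_joint`: `intervalIntegral.continuous_parametric_intervalIntegral_of_continuous`.
-/

noncomputable section

namespace EscW.Ot

open Filter Topology Set EscF.T EscM EscMT MeasureTheory EscW.Ex EscW.Dn EscW.On
open scoped ContDiff

variable {d m k j n : ℕ}

/-! ### auxiliary -/

/-- the integral over a moving interval -/
theorem OT1_moving {E : Type*} [NormedAddCommGroup E] [NormedSpace ℝ E] [CompleteSpace E] {h : ℝ → E}
    (hh : Continuous h) (a b θ : ℝ) :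
    HasDerivAt (fun θ => ∫ s in (θ + a)..(θ + b), h s) (h (θ + b) - h (θ + a)) θ := by
  have key : ∀ x : ℝ, HasDerivAt (fun u => ∫ s in (0:ℝ)..u, h s) (h x) x := fun x =>
    intervalIntegral.integral_hasDerivAt_right (hh.intervalIntegrable _ _)
      (hh.stronglyMeasurableAtFilter _ _) hh.continuousAt
  have e : (fun θ : ℝ => ∫ s in (θ + a)..(θ + b), h s) =
      fun θ => (∫ s in (0:ℝ)..(θ + b), h s) - ∫ s in (0:ℝ)..(θ + a), h s := by
    funext θ
    rw [eq_sub_iff_add_eq, add_comm]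
    exact intervalIntegral.integral_add_adjacent_intervals (hh.intervalIntegrable _ _)
      (hh.intervalIntegrable _ _)
  rw [e]
  exact ((key (θ + b)).comp_add_const θ b).sub ((key (θ + a)).comp_add_const θ a)

theorem OT1_rp_eq (μ : ℝ) (g : ℝ → Vec k) (θ : ℝ) :
    rp μ g θ = (-(1 - Real.exp (-μ))⁻¹) • (Real.exp (μ * θ) •
      ∫ s in (θ + 0)..(θ + 1), Real.exp (-(μ * s)) • g s) := by
  unfold rp
  congr 1
  rw [← intervalIntegral.integral_comp_add_left (fun s => Real.exp (-(μ * s)) • g s) θ,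
    ← intervalIntegral.integral_smul]
  refine intervalIntegral.integral_congr fun τ _ => ?_
  change Real.exp (-(μ * τ)) • g (θ + τ) = Real.exp (μ * θ) • (Real.exp (-(μ * (θ + τ))) • g (θ + τ))
  rw [smul_smul, ← Real.exp_add]
  congr 2
  ring

theorem OT1_rp {μ : ℝ} (hμ : 0 < μ) {g : ℝ → Vec k} (hg : Continuous g) (hp : ∀ θ, g (θ + 1) = g θ)
    (θ : ℝ) : HasDerivAt (rp μ g) (μ • rp μ g θ + g θ) θ := by
  have hc : 1 - Real.exp (-μ) ≠ 0 := by
    have : Real.exp (-μ) < 1 := by rw [Real.exp_lt_one_iff]; linarith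
    linarith
  have hh : Continuous (fun s : ℝ => Real.exp (-(μ * s)) • g s) := by fun_prop
  have h1 := OT1_moving hh 0 1 θ
  have h2 : HasDerivAt (fun θ : ℝ => Real.exp (μ * θ)) (Real.exp (μ * θ) * (μ * 1)) θ :=
    ((hasDerivAt_id θ).const_mul μ).exp
  have h3 := (h2.smul h1).const_smul (-(1 - Real.exp (-μ))⁻¹)
  have e : rp μ g = fun θ => (-(1 - Real.exp (-μ))⁻¹) • (Real.exp (μ * θ) •
      ∫ s in (θ + 0)..(θ + 1), Real.exp (-(μ * s)) • g s) := funext fun θ => OT1_rp_eq μ g θ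
  rw [e]
  refine h3.congr_deriv ?_
  simp only
  set I := ∫ s in (θ + 0)..(θ + 1), Real.exp (-(μ * s)) • g s with hI
  rw [hp, add_zero]
  have e1 : Real.exp (μ * θ) • (Real.exp (-(μ * (θ + 1))) • g θ - Real.exp (-(μ * θ)) • g θ) =
      (-(1 - Real.exp (-μ))) • g θ := by
    rw [← sub_smul, smul_smul, mul_sub, ← Real.exp_add, ← Real.exp_add]
    congr 1
    rw [show μ * θ + -(μ * (θ + 1)) = -μ by ring, show μ * θ + -(μ * θ) = 0 by ring, Real.exp_zero]
    ring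
  rw [e1, smul_add, smul_smul, neg_mul_neg, inv_mul_cancel₀ hc, one_smul]
  rw [add_comm]
  congr 1
  rw [smul_smul, smul_smul, smul_smul]
  congr 1
  ring

theorem OT1_rm_eq (μ : ℝ) (g : ℝ → Vec k) (θ : ℝ) :
    rm μ g θ = -rp μ (fun s => g (-s)) (-θ) := by
  unfold rm rp
  rw [neg_smul, neg_neg]
  congr 1
  refine intervalIntegral.integral_congr fun τ _ => ?_
  change _ • g (θ - τ) = _ • g (-(-θ + τ))
  rw [neg_add, neg_neg, sub_eq_add_neg]

theorem OT1_rm {μ : ℝ} (hμ : 0 < μ) {g : ℝ → Vec k} (hg : Continuous g) (hp : ∀ θ, g (θ + 1) = g θ)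
    (θ : ℝ) : HasDerivAt (rm μ g) (-(μ • rm μ g θ) + g θ) θ := by
  have h1 := OT1_rp hμ (g := fun s => g (-s)) (by fun_prop) (fun θ => by
    rw [show -(θ + 1) = -θ - 1 by ring, ← hp (-θ - 1)]
    congr 1
    ring) (-θ)
  have h0 : HasDerivAt (fun θ : ℝ => -θ) (-1) θ := hasDerivAt_neg θ
  have h2 := (HasDerivAt.scomp θ h1 h0).neg
  have e : rm μ g = fun θ => -rp μ (fun s => g (-s)) (-θ) := funext fun θ => OT1_rm_eq μ g θ
  rw [e]
  refine h2.congr_deriv ?_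
  rw [neg_neg]
  module

theorem OT1_rp_per {μ : ℝ} {g : ℝ → Vec k} (hp : ∀ θ, g (θ + 1) = g θ) (θ : ℝ) :
    rp μ g (θ + 1) = rp μ g θ := by
  unfold rp
  congr 1
  refine intervalIntegral.integral_congr fun τ _ => ?_
  change _ • g (θ + 1 + τ) = _ • g (θ + τ)
  rw [← hp (θ + τ), add_right_comm]

theorem OT1_rm_per {μ : ℝ} {g : ℝ → Vec k} (hp : ∀ θ, g (θ + 1) = g θ) (θ : ℝ) :
    rm μ g (θ + 1) = rm μ g θ := by
  unfold rm
  congr 1
  refine intervalIntegral.integral_congr fun τ _ => ?_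
  change _ • g (θ + 1 - τ) = _ • g (θ - τ)
  rw [← hp (θ - τ), sub_add_eq_add_sub]

theorem OT1_rp_lin {μ : ℝ} {g h : ℝ → Vec k} (hg : Continuous g) (hh : Continuous h) (c θ : ℝ) :
    rp μ (fun s => g s + c • h s) θ = rp μ g θ + c • rp μ h θ := by
  have hc1 : Continuous (fun τ : ℝ => Real.exp (-(μ * τ)) • g (θ + τ)) := by fun_prop
  have hc2 : Continuous (fun τ : ℝ => c • (Real.exp (-(μ * τ)) • h (θ + τ))) := by fun_prop
  have e : (∫ τ in (0:ℝ)..1, Real.exp (-(μ * τ)) • (g (θ + τ) + c • h (θ + τ))) =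
      (∫ τ in (0:ℝ)..1, Real.exp (-(μ * τ)) • g (θ + τ)) +
        c • ∫ τ in (0:ℝ)..1, Real.exp (-(μ * τ)) • h (θ + τ) := by
    rw [← intervalIntegral.integral_smul, ← intervalIntegral.integral_add
      (hc1.intervalIntegrable _ _) (hc2.intervalIntegrable _ _)]
    refine intervalIntegral.integral_congr fun τ _ => ?_
    change _ = _ + _
    rw [smul_add, smul_comm c]
  unfold rp
  rw [e, smul_add, smul_comm c]

theorem OT1_rm_lin {μ : ℝ} {g h : ℝ → Vec k} (hg : Continuous g) (hh : Continuous h) (c θ : ℝ) :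
    rm μ (fun s => g s + c • h s) θ = rm μ g θ + c • rm μ h θ := by
  have hc1 : Continuous (fun τ : ℝ => Real.exp (-(μ * τ)) • g (θ - τ)) := by fun_prop
  have hc2 : Continuous (fun τ : ℝ => c • (Real.exp (-(μ * τ)) • h (θ - τ))) := by fun_prop
  have e : (∫ τ in (0:ℝ)..1, Real.exp (-(μ * τ)) • (g (θ - τ) + c • h (θ - τ))) =
      (∫ τ in (0:ℝ)..1, Real.exp (-(μ * τ)) • g (θ - τ)) +
        c • ∫ τ in (0:ℝ)..1, Real.exp (-(μ * τ)) • h (θ - τ) := by
    rw [← intervalIntegral.integral_smul, ← intervalIntegral.integral_add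
      (hc1.intervalIntegrable _ _) (hc2.intervalIntegrable _ _)]
    refine intervalIntegral.integral_congr fun τ _ => ?_
    change _ = _ + _
    rw [smul_add, smul_comm c]
  unfold rm
  rw [e, smul_add, smul_comm c]

theorem OT1_int_bd {μ G : ℝ} (hμ : 0 < μ) (g : ℝ → Vec k) (hG : ∀ θ, ‖g θ‖ ≤ G) :
    ‖∫ τ in (0:ℝ)..1, Real.exp (-(μ * τ)) • g τ‖ ≤ G := by
  have h := intervalIntegral.norm_integral_le_of_norm_le_const (a := (0:ℝ)) (b := 1) (C := G)
    (f := fun τ => Real.exp (-(μ * τ)) • g τ) (fun τ hτ => ?_)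
  · simpa using h
  · rw [uIoc_of_le zero_le_one] at hτ
    rw [norm_smul, Real.norm_eq_abs, abs_of_pos (Real.exp_pos _)]
    have h1 : Real.exp (-(μ * τ)) ≤ 1 := by
      rw [Real.exp_le_one_iff]
      have := mul_nonneg hμ.le hτ.1.le
      linarith
    calc Real.exp (-(μ * τ)) * ‖g τ‖ ≤ 1 * ‖g τ‖ := mul_le_mul_of_nonneg_right h1 (norm_nonneg _)
      _ ≤ G := by rw [one_mul]; exact hG τ

theorem OT1_c_pos {μ : ℝ} (hμ : 0 < μ) : 0 < (1 - Real.exp (-μ))⁻¹ := by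
  have : Real.exp (-μ) < 1 := by rw [Real.exp_lt_one_iff]; linarith
  exact inv_pos.2 (by linarith)

theorem OT1_rp_bd {μ G : ℝ} (hμ : 0 < μ) (g : ℝ → Vec k) (hG : ∀ θ, ‖g θ‖ ≤ G) (θ : ℝ) :
    ‖rp μ g θ‖ ≤ (1 - Real.exp (-μ))⁻¹ * G := by
  unfold rp
  rw [norm_smul, norm_neg, Real.norm_eq_abs, abs_of_pos (OT1_c_pos hμ)]
  exact mul_le_mul_of_nonneg_left (OT1_int_bd hμ (fun τ => g (θ + τ)) fun τ => hG _) (OT1_c_pos hμ).le

theorem OT1_rm_bd {μ G : ℝ} (hμ : 0 < μ) (g : ℝ → Vec k) (hG : ∀ θ, ‖g θ‖ ≤ G) (θ : ℝ) :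
    ‖rm μ g θ‖ ≤ (1 - Real.exp (-μ))⁻¹ * G := by
  unfold rm
  rw [norm_smul, Real.norm_eq_abs, abs_of_pos (OT1_c_pos hμ)]
  exact mul_le_mul_of_nonneg_left (OT1_int_bd hμ (fun τ => g (θ - τ)) fun τ => hG _) (OT1_c_pos hμ).le

/-- `√(β / α) / √(α β) = 1 / α`, `β / √(α β) = √(β / α)` -/
theorem OT1_sq {α β : ℝ} (hα : 0 < α) (hβ : 0 < β) :
    √(β / α) = α⁻¹ * √(α * β) ∧ β = √(β / α) * √(α * β) := by
  have h0 : 0 < √(α * β) := Real.sqrt_pos.2 (mul_pos hα hβ)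
  have h1 : √(β / α) = α⁻¹ * √(α * β) := by
    rw [Real.sqrt_eq_iff_mul_self_eq (div_nonneg hβ.le hα.le) (by positivity)]
    rw [show α⁻¹ * √(α * β) * (α⁻¹ * √(α * β)) = α⁻¹ * α⁻¹ * (√(α * β) * √(α * β)) by ring,
      Real.mul_self_sqrt (mul_pos hα hβ).le]
    field_simp
  refine ⟨h1, ?_⟩
  rw [h1, mul_assoc, Real.mul_self_sqrt (mul_pos hα hβ).le]
  field_simp


theorem Wf_deriv {α β : ℝ} (hα : 0 < α) (hβ : 0 < β) {f : ℝ → Vec k × Vec k} (hf : Continuous f)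
    (hp : ∀ θ, f (θ + 1) = f θ) (θ : ℝ) : HasDerivAt (Wf α β f) (α⁻¹ • (Pf α β f θ - (f θ).1)) θ := by
  have hm : 0 < √(β / α) := Real.sqrt_pos.2 (div_pos hβ hα)
  have h0 : 0 < √(α * β) := Real.sqrt_pos.2 (mul_pos hα hβ)
  obtain ⟨e1, e2⟩ := OT1_sq hα hβ
  have h1 := OT1_rp hm (g := fun s => (f s).2 - √(β / α) • (f s).1) (by fun_prop)
    (fun θ => by simp only [hp]) θ
  have h2 := OT1_rm hm (g := fun s => (f s).2 + √(β / α) • (f s).1) (by fun_prop)
    (fun θ => by simp only [hp]) θ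
  have h3 := (h1.sub h2).const_smul ((2 * √(α * β))⁻¹)
  have e : Wf α β f = fun θ => (2 * √(α * β))⁻¹ • (rp √(β / α) (fun s => (f s).2 - √(β / α) • (f s).1) θ -
    rm √(β / α) (fun s => (f s).2 + √(β / α) • (f s).1) θ) := rfl
  rw [e]
  refine h3.congr_deriv ?_
  unfold Pf
  set A := rp √(β / α) (fun s => (f s).2 - √(β / α) • (f s).1) θ
  set B := rm √(β / α) (fun s => (f s).2 + √(β / α) • (f s).1) θ
  have e3 : α⁻¹ = √(β / α) * (√(α * β))⁻¹ := by
    rw [e1]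
    field_simp
  rw [e3, mul_inv]
  module

theorem Pf_deriv {α β : ℝ} (hα : 0 < α) (hβ : 0 < β) {f : ℝ → Vec k × Vec k} (hf : Continuous f)
    (hp : ∀ θ, f (θ + 1) = f θ) (θ : ℝ) : HasDerivAt (Pf α β f) (β • Wf α β f θ + (f θ).2) θ := by
  have hm : 0 < √(β / α) := Real.sqrt_pos.2 (div_pos hβ hα)
  have h0 : 0 < √(α * β) := Real.sqrt_pos.2 (mul_pos hα hβ)
  obtain ⟨e1, e2⟩ := OT1_sq hα hβ
  have h1 := OT1_rp hm (g := fun s => (f s).2 - √(β / α) • (f s).1) (by fun_prop)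
    (fun θ => by simp only [hp]) θ
  have h2 := OT1_rm hm (g := fun s => (f s).2 + √(β / α) • (f s).1) (by fun_prop)
    (fun θ => by simp only [hp]) θ
  have h3 := (h1.add h2).const_smul (1 / 2 : ℝ)
  have e : Pf α β f = fun θ => (1 / 2 : ℝ) • (rp √(β / α) (fun s => (f s).2 - √(β / α) • (f s).1) θ +
    rm √(β / α) (fun s => (f s).2 + √(β / α) • (f s).1) θ) := rfl
  rw [e]
  refine h3.congr_deriv ?_
  unfold Wf
  set A := rp √(β / α) (fun s => (f s).2 - √(β / α) • (f s).1) θ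
  set B := rm √(β / α) (fun s => (f s).2 + √(β / α) • (f s).1) θ
  have e3 : β * (2 * √(α * β))⁻¹ = (1 / 2) * √(β / α) := by
    have e4 : β * (2 * √(α * β))⁻¹ = (√(β / α) * √(α * β)) * (2 * √(α * β))⁻¹ := by rw [← e2]
    rw [e4]
    field_simp
  rw [smul_smul β, e3]
  module

theorem Sf_per {α β : ℝ} {f : ℝ → Vec k × Vec k} (hp : ∀ θ, f (θ + 1) = f θ) (θ : ℝ) :
    Sf α β f (θ + 1) = Sf α β f θ := by
  have h1 := OT1_rp_per (μ := √(β / α)) (g := fun s => (f s).2 - √(β / α) • (f s).1)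
    (fun θ => by simp only [hp]) θ
  have h2 := OT1_rm_per (μ := √(β / α)) (g := fun s => (f s).2 + √(β / α) • (f s).1)
    (fun θ => by simp only [hp]) θ
  unfold Sf Wf Pf
  rw [h1, h2, hp]

theorem Sf_bd {α β : ℝ} (hα : 0 < α) (hβ : 0 < β) : ∃ C : ℝ, 0 < C ∧ ∀ f : ℝ → Vec k × Vec k,
    Continuous f → ∀ b, (∀ θ, ‖f θ‖ ≤ b) → ∀ θ, ‖Sf α β f θ‖ ≤ C * b := by
  have hm : 0 < √(β / α) := Real.sqrt_pos.2 (div_pos hβ hα)
  have h0 : 0 < √(α * β) := Real.sqrt_pos.2 (mul_pos hα hβ)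
  have hc : 0 < (1 - Real.exp (-√(β / α)))⁻¹ := OT1_c_pos hm
  set m := √(β / α) with hmdef
  set c := (1 - Real.exp (-m))⁻¹ with hcdef
  refine ⟨(2 * √(α * β))⁻¹ * (2 * (c * (1 + m))) + α⁻¹ * (c * (1 + m) + 1), by positivity,
    fun f _ b hb θ => ?_⟩
  have hb0 : 0 ≤ b := (norm_nonneg _).trans (hb 0)
  have hf1 : ∀ s, ‖(f s).1‖ ≤ b := fun s => (norm_fst_le _).trans (hb s)
  have hf2 : ∀ s, ‖(f s).2‖ ≤ b := fun s => (norm_snd_le _).trans (hb s)
  have hmf : ∀ s, ‖m • (f s).1‖ ≤ m * b := fun s => by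
    rw [norm_smul, Real.norm_eq_abs, abs_of_pos hm]
    exact mul_le_mul_of_nonneg_left (hf1 s) hm.le
  have hA : ‖rp m (fun s => (f s).2 - m • (f s).1) θ‖ ≤ c * ((1 + m) * b) :=
    OT1_rp_bd hm _ (fun s => (norm_sub_le _ _).trans (by linarith [hf2 s, hmf s])) θ
  have hB : ‖rm m (fun s => (f s).2 + m • (f s).1) θ‖ ≤ c * ((1 + m) * b) :=
    OT1_rm_bd hm _ (fun s => (norm_add_le _ _).trans (by linarith [hf2 s, hmf s])) θ
  have hW : ‖Wf α β f θ‖ ≤ (2 * √(α * β))⁻¹ * (2 * (c * (1 + m))) * b := by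
    unfold Wf
    rw [norm_smul, Real.norm_eq_abs, abs_of_pos (by positivity)]
    rw [mul_assoc]
    refine mul_le_mul_of_nonneg_left ?_ (by positivity)
    refine (norm_sub_le _ _).trans ?_
    rw [← hmdef]
    linarith
  have hP : ‖Pf α β f θ‖ ≤ c * (1 + m) * b := by
    unfold Pf
    rw [norm_smul, Real.norm_eq_abs, abs_of_pos (by positivity)]
    have h3 := norm_add_le (rp m (fun s => (f s).2 - m • (f s).1) θ)
      (rm m (fun s => (f s).2 + m • (f s).1) θ)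
    rw [← hmdef]
    linarith
  have hD : ‖α⁻¹ • (Pf α β f θ - (f θ).1)‖ ≤ α⁻¹ * (c * (1 + m) + 1) * b := by
    rw [norm_smul, Real.norm_eq_abs, abs_of_pos (by positivity), mul_assoc]
    refine mul_le_mul_of_nonneg_left ?_ (by positivity)
    refine (norm_sub_le _ _).trans ?_
    linarith [hf1 θ]
  have e1 : 0 ≤ (2 * √(α * β))⁻¹ * (2 * (c * (1 + m))) * b := by positivity
  have e2 : 0 ≤ α⁻¹ * (c * (1 + m) + 1) * b := by positivity
  unfold Sf
  rw [Prod.norm_def, add_mul]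
  exact max_le (hW.trans (by linarith)) (hD.trans (by linarith))

theorem Sf_lin {α β : ℝ} {f g : ℝ → Vec k × Vec k} (hf : Continuous f) (hg : Continuous g) (c θ : ℝ) :
    Sf α β (fun s => f s + c • g s) θ = Sf α β f θ + c • Sf α β g θ := by
  have h1 : rp √(β / α) (fun s => (f s + c • g s).2 - √(β / α) • (f s + c • g s).1) θ =
      rp √(β / α) (fun s => (f s).2 - √(β / α) • (f s).1) θ +
        c • rp √(β / α) (fun s => (g s).2 - √(β / α) • (g s).1) θ := by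
    rw [← OT1_rp_lin (by fun_prop) (by fun_prop)]
    congr 1
    funext s
    simp only [Prod.snd_add, Prod.smul_snd, Prod.fst_add, Prod.smul_fst]
    module
  have h2 : rm √(β / α) (fun s => (f s + c • g s).2 + √(β / α) • (f s + c • g s).1) θ =
      rm √(β / α) (fun s => (f s).2 + √(β / α) • (f s).1) θ +
        c • rm √(β / α) (fun s => (g s).2 + √(β / α) • (g s).1) θ := by
    rw [← OT1_rm_lin (by fun_prop) (by fun_prop)]
    congr 1
    funext s
    simp only [Prod.snd_add, Prod.smul_snd, Prod.fst_add, Prod.smul_fst]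
    module
  unfold Sf Wf Pf
  rw [h1, h2]
  refine Prod.ext ?_ ?_
  · simp only [Prod.fst_add, Prod.smul_fst]
    module
  · simp only [Prod.snd_add, Prod.smul_snd, Prod.fst_add, Prod.smul_fst]
    module

theorem Sf_joint {α β : ℝ} {F : ℝ → ℝ → Vec k × Vec k} (hF : Continuous (fun y : ℝ × ℝ => F y.1 y.2)) :
    Continuous (fun y : ℝ × ℝ => Sf α β (F y.1) y.2) := by
  have hrp : Continuous (fun y : ℝ × ℝ => rp √(β / α)
      (fun s => (F y.1 s).2 - √(β / α) • (F y.1 s).1) y.2) := by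
    unfold rp
    refine Continuous.fun_const_smul ?_ _
    refine intervalIntegral.continuous_parametric_intervalIntegral_of_continuous' ?_ 0 1
    have h1 : Continuous (fun z : (ℝ × ℝ) × ℝ => F z.1.1 (z.1.2 + z.2)) :=
      hF.comp (f := fun z : (ℝ × ℝ) × ℝ => (z.1.1, z.1.2 + z.2)) (by fun_prop)
    exact (Real.continuous_exp.comp (by fun_prop : Continuous fun z : (ℝ × ℝ) × ℝ => -(√(β / α) * z.2))).smul
      (h1.snd.sub (h1.fst.fun_const_smul _))
  have hrm : Continuous (fun y : ℝ × ℝ => rm √(β / α)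
      (fun s => (F y.1 s).2 + √(β / α) • (F y.1 s).1) y.2) := by
    unfold rm
    refine Continuous.fun_const_smul ?_ _
    refine intervalIntegral.continuous_parametric_intervalIntegral_of_continuous' ?_ 0 1
    have h1 : Continuous (fun z : (ℝ × ℝ) × ℝ => F z.1.1 (z.1.2 - z.2)) :=
      hF.comp (f := fun z : (ℝ × ℝ) × ℝ => (z.1.1, z.1.2 - z.2)) (by fun_prop)
    exact (Real.continuous_exp.comp (by fun_prop : Continuous fun z : (ℝ × ℝ) × ℝ => -(√(β / α) * z.2))).smul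
      (h1.snd.add (h1.fst.fun_const_smul _))
  unfold Sf Wf Pf
  exact ((hrp.sub hrm).fun_const_smul _).prodMk ((((hrp.add hrm).fun_const_smul _).sub hF.fst).fun_const_smul _)

end EscW.Ot
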