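import Pool.Agent.EscW.FODefs
import Pool.Agent.EscW.OT1

set_option autoImplicit false

/-!
Project EscW, part FO, module FO1: the scaled linear operator.
With `F s = ((f s).1, μ • (f s).2)`, `α = μ⁻¹`, `β = μ`: `Ss μ f θ = (Wf α β F θ, Pf α β F θ - (f θ).1)`, `√(β/α) = μ`, `√(α β) = 1`. `Ss_w`, `Ss_p`: `Wf_deriv`, `Pf_deriv` (OT1). `Ss_bd`: `‖rp μ g‖, ‖rm μ g‖ ≤ G/μ` if `‖g‖ ≤ G` (`∫₀¹ e^{-μτ} dτ = (1 - e^{-μ})/μ`), and
`g = μ (f.2 ∓ f.1)` has norm `≤ 2 μ b`, so `‖Wf‖, ‖Pf‖ ≤ (1/2) (2 b + 2 b) = 2 b` and `‖Pf - f.1‖ ≤ 3 b`.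
-/

noncomputable section

namespace EscW.Fo

open Filter Topology Set EscF.T EscM EscMT MeasureTheory EscW.Ex EscW.Dn EscW.On EscW.Ot EscW.Fn
open scoped ContDiff

variable {d m k j n : ℕ}

/-- the scaled right hand side -/
def FO1_F (μ : ℝ) (f : ℝ → Vec k × Vec k) (s : ℝ) : Vec k × Vec k := ((f s).1, μ • (f s).2)

theorem FO1_F_cont (μ : ℝ) {f : ℝ → Vec k × Vec k} (hf : Continuous f) : Continuous (FO1_F μ f) :=
  hf.fst.prodMk (hf.snd.const_smul μ)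

theorem FO1_eq (μ : ℝ) (f : ℝ → Vec k × Vec k) (θ : ℝ) :
    Ss μ f θ = (Ot.Wf μ⁻¹ μ (FO1_F μ f) θ, Pf μ⁻¹ μ (FO1_F μ f) θ - (f θ).1) := rfl

theorem Ss_w {μ : ℝ} (hμ : 0 < μ) {f : ℝ → Vec k × Vec k} (hf : Continuous f)
    (hp : ∀ θ, f (θ + 1) = f θ) (θ : ℝ) :
    HasDerivAt (fun θ => (Ss μ f θ).1) (μ • (Ss μ f θ).2) θ := by
  have h := Wf_deriv (inv_pos.2 hμ) hμ (FO1_F_cont μ hf) (fun θ => by simp only [FO1_F, hp]) θ
  rw [inv_inv] at h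
  exact h

theorem Ss_p {μ : ℝ} (hμ : 0 < μ) {f : ℝ → Vec k × Vec k} (hf : Continuous f)
    (hp : ∀ θ, f (θ + 1) = f θ) (θ : ℝ) :
    HasDerivAt (fun θ => (Ss μ f θ).2 + (f θ).1) (μ • (Ss μ f θ).1 + μ • (f θ).2) θ := by
  have h := Pf_deriv (inv_pos.2 hμ) hμ (FO1_F_cont μ hf) (fun θ => by simp only [FO1_F, hp]) θ
  have e : (fun θ => (Ss μ f θ).2 + (f θ).1) = Pf μ⁻¹ μ (FO1_F μ f) := by
    funext θ
    simp only [FO1_eq, sub_add_cancel]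
  rw [e]
  exact h

theorem Ss_per {μ : ℝ} {f : ℝ → Vec k × Vec k} (hp : ∀ θ, f (θ + 1) = f θ) (θ : ℝ) :
    Ss μ f (θ + 1) = Ss μ f θ := by
  have h1 := OT1_rp_per (μ := √(μ / μ⁻¹)) (g := fun s => (FO1_F μ f s).2 - √(μ / μ⁻¹) • (FO1_F μ f s).1)
    (fun θ => by simp only [FO1_F, hp]) θ
  have h2 := OT1_rm_per (μ := √(μ / μ⁻¹)) (g := fun s => (FO1_F μ f s).2 + √(μ / μ⁻¹) • (FO1_F μ f s).1)
    (fun θ => by simp only [FO1_F, hp]) θ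
  rw [FO1_eq, FO1_eq]
  unfold Ot.Wf Pf
  rw [h1, h2, hp]

theorem FO1_int {μ G : ℝ} (hμ : 0 < μ) (g : ℝ → Vec k) (hG : ∀ θ, ‖g θ‖ ≤ G) :
    ‖∫ τ in (0:ℝ)..1, Real.exp (-(μ * τ)) • g τ‖ ≤ (1 - Real.exp (-μ)) * (G / μ) := by
  have hi : Continuous (fun τ : ℝ => Real.exp (-(μ * τ)) * G) := by fun_prop
  have h1 := intervalIntegral.norm_integral_le_of_norm_le (a := (0:ℝ)) (b := 1) (μ := volume)
    (f := fun τ => Real.exp (-(μ * τ)) • g τ) (g := fun τ => Real.exp (-(μ * τ)) * G) zero_le_one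
    (Eventually.of_forall fun τ _ => by
      rw [norm_smul, Real.norm_eq_abs, abs_of_pos (Real.exp_pos _)]
      exact mul_le_mul_of_nonneg_left (hG τ) (Real.exp_pos _).le) (hi.intervalIntegrable _ _)
  have h2 : ∀ τ ∈ uIcc (0:ℝ) 1, HasDerivAt (fun τ => -(Real.exp (-(μ * τ)) * (G / μ)))
      (Real.exp (-(μ * τ)) * G) τ := by
    intro τ _
    have h3 : HasDerivAt (fun τ : ℝ => -(μ * τ)) (-(μ * 1)) τ :=
      ((hasDerivAt_id τ).const_mul μ).neg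
    have h4 := (h3.exp.mul_const (G / μ)).neg
    refine h4.congr_deriv ?_
    field_simp
  have h5 := intervalIntegral.integral_eq_sub_of_hasDerivAt h2 (hi.intervalIntegrable _ _)
  rw [h5] at h1
  refine h1.trans (le_of_eq ?_)
  rw [mul_one, mul_zero, neg_zero, Real.exp_zero]
  ring

theorem FO1_rp_bd {μ G : ℝ} (hμ : 0 < μ) (g : ℝ → Vec k) (hG : ∀ θ, ‖g θ‖ ≤ G) (θ : ℝ) :
    ‖rp μ g θ‖ ≤ G / μ := by
  have hc := OT1_c_pos hμ
  unfold rp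
  rw [norm_smul, norm_neg, Real.norm_eq_abs, abs_of_pos hc]
  refine (mul_le_mul_of_nonneg_left (FO1_int hμ (fun τ => g (θ + τ)) fun τ => hG _) hc.le).trans
    (le_of_eq ?_)
  rw [← mul_assoc, inv_mul_cancel₀ (inv_pos.1 hc).ne', one_mul]

theorem FO1_rm_bd {μ G : ℝ} (hμ : 0 < μ) (g : ℝ → Vec k) (hG : ∀ θ, ‖g θ‖ ≤ G) (θ : ℝ) :
    ‖rm μ g θ‖ ≤ G / μ := by
  have hc := OT1_c_pos hμ
  unfold rm
  rw [norm_smul, Real.norm_eq_abs, abs_of_pos hc]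
  refine (mul_le_mul_of_nonneg_left (FO1_int hμ (fun τ => g (θ - τ)) fun τ => hG _) hc.le).trans
    (le_of_eq ?_)
  rw [← mul_assoc, inv_mul_cancel₀ (inv_pos.1 hc).ne', one_mul]

theorem Ss_bd {μ : ℝ} (hμ : 0 < μ) {f : ℝ → Vec k × Vec k} (hf : Continuous f) {b : ℝ}
    (hb : ∀ θ, ‖f θ‖ ≤ b) (θ : ℝ) : ‖Ss μ f θ‖ ≤ 3 * b := by
  have hb0 : 0 ≤ b := (norm_nonneg _).trans (hb 0)
  have hf1 : ∀ s, ‖(f s).1‖ ≤ b := fun s => (norm_fst_le _).trans (hb s)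
  have hf2 : ∀ s, ‖(f s).2‖ ≤ b := fun s => (norm_snd_le _).trans (hb s)
  have e1 : √(μ / μ⁻¹) = μ := by
    rw [div_inv_eq_mul, Real.sqrt_mul_self hμ.le]
  have e2 : √(μ⁻¹ * μ) = 1 := by
    rw [inv_mul_cancel₀ hμ.ne', Real.sqrt_one]
  have hA : ‖rp μ (fun s => (FO1_F μ f s).2 - μ • (FO1_F μ f s).1) θ‖ ≤ 2 * b := by
    refine (FO1_rp_bd hμ _ (G := μ * (2 * b)) (fun s => ?_) θ).trans (le_of_eq ?_)
    · simp only [FO1_F]
      rw [← smul_sub, norm_smul, Real.norm_of_nonneg hμ.le]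
      exact mul_le_mul_of_nonneg_left ((norm_sub_le _ _).trans (by linarith [hf1 s, hf2 s])) hμ.le
    · field_simp
  have hB : ‖rm μ (fun s => (FO1_F μ f s).2 + μ • (FO1_F μ f s).1) θ‖ ≤ 2 * b := by
    refine (FO1_rm_bd hμ _ (G := μ * (2 * b)) (fun s => ?_) θ).trans (le_of_eq ?_)
    · simp only [FO1_F]
      rw [← smul_add, norm_smul, Real.norm_of_nonneg hμ.le]
      exact mul_le_mul_of_nonneg_left ((norm_add_le _ _).trans (by linarith [hf1 s, hf2 s])) hμ.le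
    · field_simp
  rw [FO1_eq]
  unfold Ot.Wf Pf
  rw [e1, e2]
  generalize rp μ (fun s => (FO1_F μ f s).2 - μ • (FO1_F μ f s).1) θ = A at hA ⊢
  generalize rm μ (fun s => (FO1_F μ f s).2 + μ • (FO1_F μ f s).1) θ = B at hB ⊢
  rw [Prod.norm_def]
  refine max_le ?_ ?_
  · change ‖(2 * (1:ℝ))⁻¹ • (A - B)‖ ≤ 3 * b
    rw [norm_smul, Real.norm_of_nonneg (by norm_num)]
    have := norm_sub_le A B
    linarith
  · change ‖(1 / 2 : ℝ) • (A + B) - (f θ).1‖ ≤ 3 * b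
    refine (norm_sub_le _ _).trans ?_
    rw [norm_smul, Real.norm_of_nonneg (by norm_num)]
    have h1 := norm_add_le A B
    linarith [hf1 θ]

theorem Ss_lin {μ : ℝ} {f g : ℝ → Vec k × Vec k} (hf : Continuous f) (hg : Continuous g) (c θ : ℝ) :
    Ss μ (fun s => f s + c • g s) θ = Ss μ f θ + c • Ss μ g θ := by
  have cf' := FO1_F_cont μ hf
  have cg' := FO1_F_cont μ hg
  have h1 : rp √(μ / μ⁻¹) (fun s => (FO1_F μ (fun s => f s + c • g s) s).2 -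
      √(μ / μ⁻¹) • (FO1_F μ (fun s => f s + c • g s) s).1) θ =
      rp √(μ / μ⁻¹) (fun s => (FO1_F μ f s).2 - √(μ / μ⁻¹) • (FO1_F μ f s).1) θ +
        c • rp √(μ / μ⁻¹) (fun s => (FO1_F μ g s).2 - √(μ / μ⁻¹) • (FO1_F μ g s).1) θ := by
    rw [← OT1_rp_lin (g := fun s => (FO1_F μ f s).2 - √(μ / μ⁻¹) • (FO1_F μ f s).1)
      (h := fun s => (FO1_F μ g s).2 - √(μ / μ⁻¹) • (FO1_F μ g s).1) (cf'.snd.sub (cf'.fst.fun_const_smul _))
      (cg'.snd.sub (cg'.fst.fun_const_smul _))]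
    congr 1
    funext s
    simp only [FO1_F, Prod.snd_add, Prod.smul_snd, Prod.fst_add, Prod.smul_fst]
    module
  have h2 : rm √(μ / μ⁻¹) (fun s => (FO1_F μ (fun s => f s + c • g s) s).2 +
      √(μ / μ⁻¹) • (FO1_F μ (fun s => f s + c • g s) s).1) θ =
      rm √(μ / μ⁻¹) (fun s => (FO1_F μ f s).2 + √(μ / μ⁻¹) • (FO1_F μ f s).1) θ +
        c • rm √(μ / μ⁻¹) (fun s => (FO1_F μ g s).2 + √(μ / μ⁻¹) • (FO1_F μ g s).1) θ := by
    rw [← OT1_rm_lin (g := fun s => (FO1_F μ f s).2 + √(μ / μ⁻¹) • (FO1_F μ f s).1)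
      (h := fun s => (FO1_F μ g s).2 + √(μ / μ⁻¹) • (FO1_F μ g s).1) (cf'.snd.add (cf'.fst.fun_const_smul _))
      (cg'.snd.add (cg'.fst.fun_const_smul _))]
    congr 1
    funext s
    simp only [FO1_F, Prod.snd_add, Prod.smul_snd, Prod.fst_add, Prod.smul_fst]
    module
  rw [FO1_eq, FO1_eq, FO1_eq]
  unfold Ot.Wf Pf
  rw [h1, h2]
  refine Prod.ext ?_ ?_
  · simp only [Prod.fst_add, Prod.smul_fst]
    module
  · simp only [Prod.snd_add, Prod.smul_snd, Prod.fst_add, Prod.smul_fst]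
    module

theorem Ss_joint {μ : ℝ} {F : ℝ → ℝ → Vec k × Vec k} (hF : Continuous (fun y : ℝ × ℝ => F y.1 y.2)) :
    Continuous (fun y : ℝ × ℝ => Ss μ (F y.1) y.2) := by
  have hG : Continuous (fun y : ℝ × ℝ => FO1_F μ (F y.1) y.2) := hF.fst.prodMk (hF.snd.const_smul μ)
  have hrp : Continuous (fun y : ℝ × ℝ => rp √(μ / μ⁻¹)
      (fun s => (FO1_F μ (F y.1) s).2 - √(μ / μ⁻¹) • (FO1_F μ (F y.1) s).1) y.2) := by
    unfold rp
    refine Continuous.fun_const_smul ?_ _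
    refine intervalIntegral.continuous_parametric_intervalIntegral_of_continuous' ?_ 0 1
    have h1 : Continuous (fun z : (ℝ × ℝ) × ℝ => FO1_F μ (F z.1.1) (z.1.2 + z.2)) :=
      hG.comp (f := fun z : (ℝ × ℝ) × ℝ => (z.1.1, z.1.2 + z.2)) (by fun_prop)
    exact (Real.continuous_exp.comp (by fun_prop : Continuous fun z : (ℝ × ℝ) × ℝ => -(√(μ / μ⁻¹) * z.2))).smul
      (h1.snd.sub (h1.fst.fun_const_smul _))
  have hrm : Continuous (fun y : ℝ × ℝ => rm √(μ / μ⁻¹)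
      (fun s => (FO1_F μ (F y.1) s).2 + √(μ / μ⁻¹) • (FO1_F μ (F y.1) s).1) y.2) := by
    unfold rm
    refine Continuous.fun_const_smul ?_ _
    refine intervalIntegral.continuous_parametric_intervalIntegral_of_continuous' ?_ 0 1
    have h1 : Continuous (fun z : (ℝ × ℝ) × ℝ => FO1_F μ (F z.1.1) (z.1.2 - z.2)) :=
      hG.comp (f := fun z : (ℝ × ℝ) × ℝ => (z.1.1, z.1.2 - z.2)) (by fun_prop)
    exact (Real.continuous_exp.comp (by fun_prop : Continuous fun z : (ℝ × ℝ) × ℝ => -(√(μ / μ⁻¹) * z.2))).smul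
      (h1.snd.add (h1.fst.fun_const_smul _))
  have e : (fun y : ℝ × ℝ => Ss μ (F y.1) y.2) = fun y : ℝ × ℝ =>
      (Ot.Wf μ⁻¹ μ (FO1_F μ (F y.1)) y.2, Pf μ⁻¹ μ (FO1_F μ (F y.1)) y.2 - (F y.1 y.2).1) := rfl
  rw [e]
  unfold Ot.Wf Pf
  exact ((hrp.sub hrm).fun_const_smul _).prodMk (((hrp.add hrm).fun_const_smul _).sub hF.fst)

end EscW.Fo
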