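import Pool.Agent.EscW.FODefs
import Pool.Agent.EscW.FN5

set_option autoImplicit false

/-!
Project EscW, part FO, module FO10: far from the curve.
`h0 = (1 - ε) (Bn - An θ)`: `Bn_smooth`, `Bn_fd`, `Bn_per` (FN5). `far_fo`: `a ζ.1 + Dh ζ = (1 - ε) al ζ + (a - (1 - ε) An) ζ.1 + D(h - h0) ζ ≤ (1 - ε) al ζ + 2 b eu ζ`, and `Ψ ζ ≥ Φ0 ζ - b eu ζ ≥ (1 - ε) al ζ + c (eu ζ - ζ.1) + c ‖z.2‖² eu ζ - b eu ζ` (`FBase.low`, `c0`). Take `b = c (min κ κ²) / 4`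
(`κ ≤ 1` may be assumed: no, take the minimum), `eu ζ > 0` (`eu_facts`).
-/

noncomputable section

namespace EscW.Fo

open Filter Topology Set EscF.T EscM EscMT MeasureTheory EscW.Ex EscW.Dn EscW.On EscW.Ot EscW.Fn
open scoped ContDiff

variable {d m k j n : ℕ}

theorem h0_facts {Φ : ℝ → ℝ × Vec k → ℝ × Vec k → ℝ} {r1 : ℝ} (h : LocFin Φ r1) (ε t : ℝ) : ContDiff ℝ 1 (h0 Φ ε t) ∧
    (∀ z ζ, fderiv ℝ (h0 Φ ε t) z ζ = (1 - ε) * (al Φ t z ζ - An Φ t * ζ.1)) ∧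
    (∀ θ v, h0 Φ ε t (θ + 1, v) = h0 Φ ε t (θ, v)) ∧ ∀ z, h0 Φ ε (t + 1) z = h0 Φ ε t z := by
  have hB : ContDiff ℝ 1 (Bn Φ t) := (Bn_smooth h).comp (contDiff_const.prodMk contDiff_id)
  have hl : ContDiff ℝ 1 (fun z : ℝ × Vec k => An Φ t * z.1) := contDiff_const.mul contDiff_fst
  refine ⟨?_, ?_, ?_, ?_⟩
  · exact contDiff_const.mul (hB.sub hl)
  · intro z ζ
    have d1 : HasFDerivAt (Bn Φ t) (fderiv ℝ (Bn Φ t) z) z := ((hB.differentiable one_ne_zero) z).hasFDerivAt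
    have d2 : HasFDerivAt (fun z : ℝ × Vec k => An Φ t * z.1)
        (An Φ t • ContinuousLinearMap.fst ℝ ℝ (Vec k)) z := hasFDerivAt_fst.const_mul (An Φ t)
    have d3 := (d1.sub d2).const_mul (1 - ε)
    have e : h0 Φ ε t = fun z => (1 - ε) * (Bn Φ t z - An Φ t * z.1) := rfl
    have d4 : HasFDerivAt (h0 Φ ε t)
        ((1 - ε) • (fderiv ℝ (Bn Φ t) z - An Φ t • ContinuousLinearMap.fst ℝ ℝ (Vec k))) z := by
      rw [e]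
      exact d3
    rw [d4.fderiv, ← Bn_fd h t z ζ]
    rfl
  · intro θ v
    have e := Bn_per h t (θ, v) 1
    have e' : Bn Φ t (θ + 1, v) = Bn Φ t (θ, v) + An Φ t := by
      simpa using e
    unfold h0
    rw [e']
    ring
  · intro z
    have e := (A_facts h (by norm_num : (0:ℝ) < 1 / 2) (by norm_num : (1 / 2 : ℝ) < 1)).2.2.1 t
    unfold h0
    rw [Bn_t h t z, e]

theorem far_fo {Φ Φ0 : ℝ → ℝ × Vec k → ℝ × Vec k → ℝ} {K ε r1 r c C : ℝ} {𝒜 : Set (ℝ × Vec k)}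
    (hb : FBase Φ K ε Φ0 𝒜 r1 r c C) {κ : ℝ} (hκ : 0 < κ) : ∃ b : ℝ, 0 < b ∧
    ∀ (Ψ : ℝ → ℝ × Vec k → ℝ × Vec k → ℝ) (η : ℝ), η ≤ b → NearP Φ0 Ψ 𝒜 r η →
      ∀ (t a : ℝ) (h : ℝ × Vec k → ℝ), ContDiff ℝ 1 h → |a - (1 - ε) * An Φ t| ≤ b →
        (∀ z, ‖fderiv ℝ (fun z => h z - h0 Φ ε t z) z‖ ≤ b) → ∀ z ∈ 𝒜, ∀ ζ : ℝ × Vec k, ζ ≠ 0 →
          (κ ≤ ‖z.2‖ ∨ κ * eu ζ ≤ eu ζ - ζ.1) → a * ζ.1 + fderiv ℝ h z ζ < Ψ t z ζ := by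
  have hc := hb.c_pos
  have hm : 0 < min κ (κ ^ 2) := lt_min hκ (by positivity)
  refine ⟨c * min κ (κ ^ 2) / 4, by positivity, ?_⟩
  set b := c * min κ (κ ^ 2) / 4 with hbdef
  intro Ψ η hη hN t a h hh ha hd z hz ζ hζ hfar
  obtain ⟨g1, g2, g3, g4⟩ := h0_facts hb.loc ε t
  obtain ⟨u0, u1, _, u3, _, u5, _⟩ := eu_facts ζ
  have hpos : 0 < eu ζ := (norm_pos_iff.2 hζ).trans_le u3
  have e1 : fderiv ℝ h z ζ = fderiv ℝ (fun z => h z - h0 Φ ε t z) z ζ + fderiv ℝ (h0 Φ ε t) z ζ := by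
    have d1 := ((hh.differentiable one_ne_zero) z).hasFDerivAt
    have d2 := ((g1.differentiable one_ne_zero) z).hasFDerivAt
    have d3 : HasFDerivAt (fun z => h z - h0 Φ ε t z)
        (fderiv ℝ h z - fderiv ℝ (h0 Φ ε t) z) z := d1.sub d2
    rw [d3.fderiv]
    show _ = (fderiv ℝ h z ζ - fderiv ℝ (h0 Φ ε t) z ζ) + fderiv ℝ (h0 Φ ε t) z ζ
    ring
  have e2 : fderiv ℝ (fun z => h z - h0 Φ ε t z) z ζ ≤ b * eu ζ := by
    refine (le_abs_self _).trans ?_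
    have h1 := (fderiv ℝ (fun z => h z - h0 Φ ε t z) z).le_opNorm ζ
    rw [Real.norm_eq_abs] at h1
    have hb0 : 0 ≤ b := by positivity
    exact h1.trans (mul_le_mul (hd z) u3 (norm_nonneg _) hb0)
  have e3 : (a - (1 - ε) * An Φ t) * ζ.1 ≤ b * eu ζ := by
    refine (le_abs_self _).trans ?_
    rw [abs_mul]
    have hb0 : 0 ≤ b := by positivity
    exact mul_le_mul ha u1 (abs_nonneg _) hb0
  have e4 := (abs_le.1 (hN.c0 t z hz ζ)).1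
  have e5 : η * eu ζ ≤ b * eu ζ := mul_le_mul_of_nonneg_right hη u0
  have e6 := hb.low t z hz ζ
  have e7 : 4 * b * eu ζ ≤ c * (eu ζ - ζ.1) + c * ‖z.2‖ ^ 2 * eu ζ := by
    have k1 : 4 * b = c * min κ (κ ^ 2) := by
      rw [hbdef]
      ring
    rw [k1]
    rcases hfar with hf | hf
    · have k2 : κ ^ 2 ≤ ‖z.2‖ ^ 2 := pow_le_pow_left₀ hκ.le hf 2
      have k3 : c * min κ (κ ^ 2) * eu ζ ≤ c * ‖z.2‖ ^ 2 * eu ζ :=
        mul_le_mul_of_nonneg_right (mul_le_mul_of_nonneg_left ((min_le_right _ _).trans k2) hc.le) u0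
      have k4 : 0 ≤ c * (eu ζ - ζ.1) := mul_nonneg hc.le u5
      linarith
    · have k2 : min κ (κ ^ 2) * eu ζ ≤ eu ζ - ζ.1 :=
        (mul_le_mul_of_nonneg_right (min_le_left _ _) u0).trans hf
      have k3 : c * (min κ (κ ^ 2) * eu ζ) ≤ c * (eu ζ - ζ.1) := mul_le_mul_of_nonneg_left k2 hc.le
      have k4 : 0 ≤ c * ‖z.2‖ ^ 2 * eu ζ := by positivity
      linarith
  have e8 := g2 z ζ
  have hbe : 0 < b * eu ζ := by positivity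
  rw [e1, e8]
  nlinarith [e2, e3, e4, e5, e6, e7, hbe]

end EscW.Fo
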