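import Pool.Agent.EscW.OTDefs
import Pool.Agent.EscW.O3

set_option autoImplicit false

/-!
Project EscW, part OT, module OT5: the nonlinearity of a family of metrics.
`G (t, y) = lg (Φ t) y` is `C²` on the open set `{y ∈ LD k r}`; `fderiv (lg (Φ t)) y = (fderiv G (t, y)).comp inr`, so `gw`, `gu` are `C¹` in all variables (`toDual.symm` and composition are continuous linear). `NT_of`: `smooth`: `rc < r`; `per_t`: `lg (Φ (t+1)) = lg (Φ t)` on the open set `LD` (`per_t`, `tube`); `per_θ`: `grad_per` (`AnnNear.per`);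
`lip`: `GrLip` (`‖w - w'‖ + ‖u - u'‖ ≤ 2 ‖y - y'‖`, maximum norm); `zero`: `grad_zero`, `η ≤ ε r2`.
-/

noncomputable section

namespace EscW.Ot

open Filter Topology Set EscF.T EscM EscMT MeasureTheory EscW.Ex EscW.Dn EscW.On
open scoped ContDiff

variable {d m k j n : ℕ}

theorem OT5_open (k : ℕ) (r : ℝ) : IsOpen {y : ℝ × (ℝ × Vec k × Vec k) | y.2 ∈ LD k r} :=
  (O3_isOpen k r).preimage continuous_snd

/-- `toDual.symm` as a continuous linear map -/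
def OT5_T (k : ℕ) : (Vec k →L[ℝ] ℝ) →L[ℝ] Vec k where
  toFun := (InnerProductSpace.toDual ℝ (Vec k)).symm
  map_add' := fun x y => map_add _ x y
  map_smul' := fun c x => by simp
  cont := (InnerProductSpace.toDual ℝ (Vec k)).symm.continuous

theorem OT5_fd {Φ : ℝ → ℝ × Vec k → ℝ × Vec k → ℝ} {r : ℝ}
    (h : ContDiffOn ℝ 2 (fun y : ℝ × (ℝ × Vec k × Vec k) => lg (Φ y.1) y.2) {y | y.2 ∈ LD k r})
    {y : ℝ × (ℝ × Vec k × Vec k)} (hy : y.2 ∈ LD k r) :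
    fderiv ℝ (lg (Φ y.1)) y.2 =
      (fderiv ℝ (fun y : ℝ × (ℝ × Vec k × Vec k) => lg (Φ y.1) y.2) y).comp
        (ContinuousLinearMap.inr ℝ ℝ (ℝ × Vec k × Vec k)) := by
  have h1 : DifferentiableAt ℝ (fun y : ℝ × (ℝ × Vec k × Vec k) => lg (Φ y.1) y.2) (y.1, y.2) :=
    (h.contDiffAt ((OT5_open k r).mem_nhds hy)).differentiableAt two_ne_zero
  have h2 := h1.hasFDerivAt.comp y.2 (hasFDerivAt_prodMk_right (𝕜 := ℝ) y.1 y.2)
  exact h2.fderiv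

theorem gradT {Φ : ℝ → ℝ × Vec k → ℝ × Vec k → ℝ} {r : ℝ}
    (h : ContDiffOn ℝ 2 (fun y : ℝ × (ℝ × Vec k × Vec k) => lg (Φ y.1) y.2) {y | y.2 ∈ LD k r}) :
    ContDiffOn ℝ 1 (fun y : ℝ × (ℝ × Vec k × Vec k) => gw (lg (Φ y.1)) y.2) {y | y.2 ∈ LD k r} ∧
      ContDiffOn ℝ 1 (fun y : ℝ × (ℝ × Vec k × Vec k) => gu (lg (Φ y.1)) y.2) {y | y.2 ∈ LD k r} := by
  have hd : ContDiffOn ℝ 1 (fderiv ℝ (fun y : ℝ × (ℝ × Vec k × Vec k) => lg (Φ y.1) y.2))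
      {y | y.2 ∈ LD k r} := h.fderiv_of_isOpen (OT5_open k r) (by norm_num)
  constructor
  · have h1 : ContDiffOn ℝ 1 (fun y : ℝ × (ℝ × Vec k × Vec k) =>
        OT5_T k (((fderiv ℝ (fun y : ℝ × (ℝ × Vec k × Vec k) => lg (Φ y.1) y.2) y).comp
          (ContinuousLinearMap.inr ℝ ℝ (ℝ × Vec k × Vec k))).comp
          ((ContinuousLinearMap.inr ℝ ℝ (Vec k × Vec k)).comp
            (ContinuousLinearMap.inl ℝ (Vec k) (Vec k))))) {y | y.2 ∈ LD k r} :=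
      (OT5_T k).contDiff.comp_contDiffOn ((hd.clm_comp contDiffOn_const).clm_comp contDiffOn_const)
    refine h1.congr fun y hy => ?_
    unfold gw
    rw [OT5_fd h hy]
    rfl
  · have h1 : ContDiffOn ℝ 1 (fun y : ℝ × (ℝ × Vec k × Vec k) =>
        OT5_T k (((fderiv ℝ (fun y : ℝ × (ℝ × Vec k × Vec k) => lg (Φ y.1) y.2) y).comp
          (ContinuousLinearMap.inr ℝ ℝ (ℝ × Vec k × Vec k))).comp
          ((ContinuousLinearMap.inr ℝ ℝ (Vec k × Vec k)).comp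
            (ContinuousLinearMap.inr ℝ (Vec k) (Vec k))))) {y | y.2 ∈ LD k r} :=
      (OT5_T k).contDiff.comp_contDiffOn ((hd.clm_comp contDiffOn_const).clm_comp contDiffOn_const)
    refine h1.congr fun y hy => ?_
    unfold gu
    rw [OT5_fd h hy]
    rfl

theorem NT_of {Φ0 : ℝ × Vec k → ℝ × Vec k → ℝ} {𝒜 : Set (ℝ × Vec k)} {r ℓ c c3 α β : ℝ}
    (hb : AnnBase Φ0 𝒜 r ℓ c c3 α β) {Φ : ℝ → ℝ × Vec k → ℝ × Vec k → ℝ} {η : ℝ}
    (h : AnnNearT Φ0 Φ 𝒜 r η) {ε r2 rc : ℝ} (h2 : 0 < r2) (h2c : r2 < rc) (hrc : rc < r)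
    (hg : ∀ t, GrLip (lg (Φ t)) α β rc (ε / 2)) (hη : η ≤ ε * r2) : NT (Nl α β Φ) r2 rc ε := by
  have hη0 : 0 ≤ η := (norm_nonneg _).trans (grad_zero hb (h.near 0) 0).1
  have hε : 0 ≤ ε := by
    by_contra hneg
    have : ε * r2 < 0 := mul_neg_of_neg_of_pos (not_le.1 hneg) h2
    linarith
  have hgr := gradT h.smooth
  refine ⟨h2, h2c, ?_, ?_, ?_, ?_, ?_⟩
  · have hsub : {y : ℝ × ℝ × (Vec k × Vec k) | ‖y.2.2‖ < rc} ⊆
        {y : ℝ × (ℝ × Vec k × Vec k) | y.2 ∈ LD k r} := fun y hy =>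
      ⟨((norm_fst_le y.2.2).trans_lt hy).trans hrc, ((norm_snd_le y.2.2).trans_lt hy).trans hrc⟩
    have i1 : ContDiffOn ℝ 1 (fun y : ℝ × ℝ × (Vec k × Vec k) =>
        gu (lg (Φ y.1)) y.2 - α • y.2.2.2) {y : ℝ × ℝ × (Vec k × Vec k) | ‖y.2.2‖ < rc} :=
      (hgr.2.mono hsub).sub (by fun_prop)
    have i2 : ContDiffOn ℝ 1 (fun y : ℝ × ℝ × (Vec k × Vec k) =>
        gw (lg (Φ y.1)) y.2 - β • y.2.2.1) {y : ℝ × ℝ × (Vec k × Vec k) | ‖y.2.2‖ < rc} :=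
      (hgr.1.mono hsub).sub (by fun_prop)
    exact i1.prodMk i2
  · intro t θ y hy
    have hm : ((θ, y.1, y.2) : ℝ × Vec k × Vec k) ∈ LD k r :=
      ⟨((norm_fst_le y).trans_lt hy).trans hrc, ((norm_snd_le y).trans_lt hy).trans hrc⟩
    have he : lg (Φ (t + 1)) =ᶠ[𝓝 ((θ, y.1, y.2) : ℝ × Vec k × Vec k)] lg (Φ t) := by
      filter_upwards [(O3_isOpen k r).mem_nhds hm] with z hz
      exact h.per_t t (z.1, z.2.1) (hb.tube _ _ hz.1) (1, z.2.2)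
    unfold Nl gu gw
    rw [he.fderiv_eq]
  · intro t θ y hy
    have h1 := grad_per (L := lg (Φ t)) (r := r) (fun θ w u hw _ => (h.near t).per θ w (1, u) (hb.tube θ w hw))
      (θ := θ) (w := y.1) (u := y.2) (((norm_fst_le y).trans_lt hy).trans hrc)
      (((norm_snd_le y).trans_lt hy).trans hrc)
    unfold Nl
    rw [h1.1, h1.2]
  · intro t θ y y' hy hy'
    have h1 := hg t θ y.1 y.2 y'.1 y'.2 ((norm_fst_le y).trans (hy.trans h2c.le))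
      ((norm_snd_le y).trans (hy.trans h2c.le)) ((norm_fst_le y').trans (hy'.trans h2c.le))
      ((norm_snd_le y').trans (hy'.trans h2c.le))
    have n1 : ‖y.1 - y'.1‖ ≤ ‖y - y'‖ := norm_fst_le (y - y')
    have n2 : ‖y.2 - y'.2‖ ≤ ‖y - y'‖ := norm_snd_le (y - y')
    have n3 : ε / 2 * (‖y.1 - y'.1‖ + ‖y.2 - y'.2‖) ≤ ε * ‖y - y'‖ := by
      have : ε / 2 * (‖y.1 - y'.1‖ + ‖y.2 - y'.2‖) ≤ ε / 2 * (‖y - y'‖ + ‖y - y'‖) :=
        mul_le_mul_of_nonneg_left (add_le_add n1 n2) (by linarith)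
      linarith
    rw [Prod.norm_def]
    exact max_le (h1.2.trans n3) (h1.1.trans n3)
  · intro t θ
    have h1 := grad_zero hb (h.near t) θ
    unfold Nl
    simp only [Prod.fst_zero, Prod.snd_zero, smul_zero, sub_zero]
    rw [Prod.norm_def]
    exact max_le (h1.2.trans hη) (h1.1.trans hη)

theorem OT5_comp {E : Type*} [NormedAddCommGroup E] [NormedSpace ℝ E] {F : ℝ × (ℝ × Vec k × Vec k) → E} {r : ℝ}
    (hF : ContDiffOn ℝ 1 F {y | y.2 ∈ LD k r}) {w u : ℝ → ℝ → Vec k} (hw : C10 w) (hu : C10 u)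
    (hws : ∀ t θ, ‖w t θ‖ < r) (hus : ∀ t θ, ‖u t θ‖ < r) : C10 (fun t θ => F (t, θ, w t θ, u t θ)) := by
  obtain ⟨hwc, w', hwc', hw'⟩ := hw
  obtain ⟨huc, u', huc', hu'⟩ := hu
  have hm : ∀ t θ, ((t, θ, w t θ, u t θ) : ℝ × (ℝ × Vec k × Vec k)) ∈
      {y : ℝ × (ℝ × Vec k × Vec k) | y.2 ∈ LD k r} := fun t θ => ⟨hws t θ, hus t θ⟩
  have hc : Continuous (fun y : ℝ × ℝ => ((y.1, y.2, w y.1 y.2, u y.1 y.2) : ℝ × (ℝ × Vec k × Vec k))) :=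
    continuous_fst.prodMk (continuous_snd.prodMk (hwc.prodMk huc))
  have hv : Continuous (fun y : ℝ × ℝ => ((1, 0, w' y.1 y.2, u' y.1 y.2) : ℝ × (ℝ × Vec k × Vec k))) :=
    continuous_const.prodMk (continuous_const.prodMk (hwc'.prodMk huc'))
  refine ⟨hF.continuousOn.comp_continuous hc fun y => hm y.1 y.2,
    fun t θ => fderiv ℝ F (t, θ, w t θ, u t θ) (1, 0, w' t θ, u' t θ), ?_, ?_⟩
  · have h1 : Continuous (fun y : ℝ × ℝ => fderiv ℝ F (y.1, y.2, w y.1 y.2, u y.1 y.2)) :=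
      (hF.continuousOn_fderiv_of_isOpen (OT5_open k r) le_rfl).comp_continuous hc fun y => hm y.1 y.2
    exact h1.clm_apply hv
  · intro t θ
    have h1 : DifferentiableAt ℝ F (t, θ, w t θ, u t θ) :=
      (hF.contDiffAt ((OT5_open k r).mem_nhds (hm t θ))).differentiableAt one_ne_zero
    have h2 : HasDerivAt (fun t => ((t, θ, w t θ, u t θ) : ℝ × (ℝ × Vec k × Vec k)))
        (1, 0, w' t θ, u' t θ) t :=
      (hasDerivAt_id t).prodMk ((hasDerivAt_const t θ).prodMk ((hw' t θ).prodMk (hu' t θ)))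
    exact h1.hasFDerivAt.comp_hasDerivAt t h2

theorem C10_comp {F : ℝ × (ℝ × Vec k × Vec k) → ℝ} {r : ℝ}
    (hF : ContDiffOn ℝ 1 F {y | y.2 ∈ LD k r}) {w u : ℝ → ℝ → Vec k} (hw : C10 w) (hu : C10 u)
    (hws : ∀ t θ, ‖w t θ‖ < r) (hus : ∀ t θ, ‖u t θ‖ < r) : C10 (fun t θ => F (t, θ, w t θ, u t θ)) :=
  OT5_comp hF hw hu hws hus

theorem C10_comp' {F : ℝ × (ℝ × Vec k × Vec k) → Vec k} {r : ℝ}
    (hF : ContDiffOn ℝ 1 F {y | y.2 ∈ LD k r}) {w u : ℝ → ℝ → Vec k} (hw : C10 w) (hu : C10 u)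
    (hws : ∀ t θ, ‖w t θ‖ < r) (hus : ∀ t θ, ‖u t θ‖ < r) : C10 (fun t θ => F (t, θ, w t θ, u t θ)) :=
  OT5_comp hF hw hu hws hus

end EscW.Ot
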