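import Pool.Agent.EscW.FODefs
import Pool.Agent.EscW.FN1
import Pool.Agent.EscW.FN2
import Pool.Agent.EscW.OT5

set_option autoImplicit false

/-!
Project EscW, part FO, module FO5: the second derivative in `u` along the curve.
`gu L y = (toDual).symm (fderiv L y ∘ (0, 0, ·))`, and `lg (Φ t)` is smooth near `(θ, 0, 0)`, so `inner (Au Φ t θ v) v' = fderiv (fderiv (lg (Φ t))) (θ, 0, 0) (0, 0, v) (0, 0, v')`, `= en Qn` for `v = v'`, hence `≥ c ‖v‖²` (`Qn_low`, `bounds`). Joint smoothness in `(t, θ)`: `(t, θ, w, u) ↦ lg (Φ t) (θ, w, u)` is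
smooth for `‖w‖ < r1`; see the proof of `gradT` (OT5). `Au` is symmetric, injective, so invertible (finite dimension; `ContinuousLinearEquiv.ofBijective` or `LinearEquiv.ofInjectiveEndo`), `ContinuousLinearMap.inverse` is its inverse, smooth at invertible maps (`contDiffAt_map_inverse`). Periods: translation. Bounds: continuous functions of
period one in `t` and `θ` are bounded.
-/

noncomputable section

namespace EscW.Fo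

open Filter Topology Set EscF.T EscM EscMT MeasureTheory EscW.Ex EscW.Dn EscW.On EscW.Ot EscW.Fn
open scoped ContDiff

variable {d m k j n : ℕ}

/-- the inclusion of the variable `u` -/
def FO5_I (k : ℕ) : Vec k →L[ℝ] ℝ × Vec k × Vec k :=
  (ContinuousLinearMap.inr ℝ ℝ (Vec k × Vec k)).comp (ContinuousLinearMap.inr ℝ (Vec k) (Vec k))

/-- composition with the inclusion -/
def FO5_P (k : ℕ) : ((ℝ × Vec k × Vec k) →L[ℝ] ℝ) →L[ℝ] (Vec k →L[ℝ] ℝ) :=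
  (ContinuousLinearMap.compL ℝ (Vec k) (ℝ × Vec k × Vec k) ℝ).flip (FO5_I k)

theorem FO5_P_apply (k : ℕ) (f : (ℝ × Vec k × Vec k) →L[ℝ] ℝ) : FO5_P k f = f.comp (FO5_I k) := rfl

theorem FO5_I_apply (v : Vec k) : FO5_I k v = (0, 0, v) := rfl

theorem FO5_gu (L : ℝ × Vec k × Vec k → ℝ) (y : ℝ × Vec k × Vec k) :
    gu L y = FN1_T k (FO5_P k (fderiv ℝ L y)) := rfl

theorem FO5_open (k : ℕ) (r : ℝ) : IsOpen {z : ℝ × Vec k × Vec k | ‖z.2.1‖ < r} :=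
  isOpen_lt (by fun_prop) continuous_const

theorem FO5_lg {Φ : ℝ → ℝ × Vec k → ℝ × Vec k → ℝ} {r1 : ℝ} (h : LocFin Φ r1) (t θ : ℝ) :
    ContDiffAt ℝ ∞ (lg (Φ t)) (θ, 0, 0) := by
  have h0 : ‖(0 : Vec k)‖ < r1 := by rw [norm_zero]; exact h.pos_r
  have h1 : ContDiffAt ℝ ∞ (fun y : ℝ × (ℝ × Vec k × Vec k) => lg (Φ y.1) y.2) (t, (θ, 0, 0)) :=
    (FN1_G h).contDiffAt ((FN1_open r1).mem_nhds h0)
  have h2 : ContDiffAt ℝ ∞ (fun z : ℝ × Vec k × Vec k => ((t, z) : ℝ × (ℝ × Vec k × Vec k))) (θ, 0, 0) :=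
    contDiffAt_const.prodMk contDiffAt_id
  exact h1.comp (θ, 0, 0) h2

theorem FO5_Au {Φ : ℝ → ℝ × Vec k → ℝ × Vec k → ℝ} {r1 : ℝ} (h : LocFin Φ r1) (t θ : ℝ) :
    Au Φ t θ = (FN1_T k).comp ((FO5_P k).comp ((FN1_b Φ t θ).comp (FO5_I k))) := by
  have h1 : ContDiffAt ℝ 1 (fderiv ℝ (lg (Φ t))) (θ, 0, 0) :=
    (FO5_lg h t θ).fderiv_right (m := 1) (by norm_cast)
  have h2 : HasFDerivAt (fderiv ℝ (lg (Φ t))) (FN1_b Φ t θ) (θ, 0, 0) :=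
    (h1.differentiableAt (by norm_num)).hasFDerivAt
  have h3 : HasFDerivAt (fun u : Vec k => ((θ, 0, u) : ℝ × Vec k × Vec k)) (FO5_I k) 0 := by
    have h4 := (FO5_I k).hasFDerivAt (x := 0) |>.const_add ((θ, 0, 0) : ℝ × Vec k × Vec k)
    refine h4.congr_of_eventuallyEq (Eventually.of_forall fun u => ?_)
    show (θ, (0 : Vec k), u) = (θ, 0, 0) + (0, 0, u)
    simp
  have h5 : HasFDerivAt (fun u : Vec k => fderiv ℝ (lg (Φ t)) (θ, 0, u))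
      ((FN1_b Φ t θ).comp (FO5_I k)) 0 := HasFDerivAt.comp (0 : Vec k) h2 h3
  have h6 : HasFDerivAt (fun u : Vec k => FN1_T k (FO5_P k (fderiv ℝ (lg (Φ t)) (θ, 0, u))))
      ((FN1_T k).comp ((FO5_P k).comp ((FN1_b Φ t θ).comp (FO5_I k)))) 0 :=
    (FN1_T k).hasFDerivAt.comp (0 : Vec k) ((FO5_P k).hasFDerivAt.comp (0 : Vec k) h5)
  exact h6.fderiv

theorem FO5_inner {Φ : ℝ → ℝ × Vec k → ℝ × Vec k → ℝ} {r1 : ℝ} (h : LocFin Φ r1) (t θ : ℝ)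
    (v v' : Vec k) : inner ℝ (Au Φ t θ v) v' = FN1_b Φ t θ (0, 0, v) (0, 0, v') := by
  rw [FO5_Au h]
  have h1 : ((FN1_T k).comp ((FO5_P k).comp ((FN1_b Φ t θ).comp (FO5_I k)))) v =
      (InnerProductSpace.toDual ℝ (Vec k)).symm ((FN1_b Φ t θ (0, 0, v)).comp (FO5_I k)) := rfl
  rw [h1, InnerProductSpace.toDual_symm_apply]
  rfl

theorem FO5_low {Φ : ℝ → ℝ × Vec k → ℝ × Vec k → ℝ} {r1 : ℝ} (h : LocFin Φ r1) : ∃ a : ℝ, 0 < a ∧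
    ∀ (t θ : ℝ) (v : Vec k), a * ‖v‖ ^ 2 ≤ inner ℝ (Au Φ t θ v) v := by
  obtain ⟨c, hc, hlow⟩ := Qn_low h
  obtain ⟨c', C, hc', hC, hb, -⟩ := bounds h
  refine ⟨c' * c, by positivity, fun t θ v => ?_⟩
  have hen := (hb t θ).1
  have hpos := FN1_en_pos h t θ
  have h1 : inner ℝ (Au Φ t θ v) v = en Φ t θ * Qn Φ t θ v := by
    rw [FO5_inner h, FN1_Qn, ← mul_assoc, mul_inv_cancel₀ hpos.ne', one_mul]
  rw [h1]
  calc c' * c * ‖v‖ ^ 2 = c' * (c * ‖v‖ ^ 2) := by ring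
    _ ≤ en Φ t θ * (c * ‖v‖ ^ 2) := mul_le_mul_of_nonneg_right hen (by positivity)
    _ ≤ en Φ t θ * Qn Φ t θ v := mul_le_mul_of_nonneg_left (hlow t θ v) hpos.le

theorem FO5_inv {Φ : ℝ → ℝ × Vec k → ℝ × Vec k → ℝ} {r1 : ℝ} (h : LocFin Φ r1) (t θ : ℝ) :
    (Au Φ t θ).IsInvertible := by
  obtain ⟨a, ha, hlow⟩ := FO5_low h
  have hinj : Function.Injective ((Au Φ t θ : Vec k →L[ℝ] Vec k) : Vec k →ₗ[ℝ] Vec k) := by
    rw [← LinearMap.ker_eq_bot, LinearMap.ker_eq_bot']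
    intro v hv
    have h1 := hlow t θ v
    have h2 : Au Φ t θ v = 0 := hv
    rw [h2, inner_zero_left] at h1
    by_contra h3
    have h4 : 0 < ‖v‖ := norm_pos_iff.2 h3
    have h5 : 0 < a * ‖v‖ ^ 2 := by positivity
    linarith
  refine ⟨(LinearEquiv.ofInjectiveEndo _ hinj).toContinuousLinearEquiv, ?_⟩
  ext v i
  rfl

theorem FO5_Au_smooth {Φ : ℝ → ℝ × Vec k → ℝ × Vec k → ℝ} {r1 : ℝ} (h : LocFin Φ r1) :
    ContDiff ℝ ∞ (fun y : ℝ × ℝ => Au Φ y.1 y.2) := by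
  have e : (fun y : ℝ × ℝ => Au Φ y.1 y.2) = fun y : ℝ × ℝ =>
      (FN1_T k).comp ((FO5_P k).comp ((FN1_b Φ y.1 y.2).comp (FO5_I k))) := by
    funext y
    exact FO5_Au h y.1 y.2
  rw [e]
  exact contDiff_const.clm_comp (contDiff_const.clm_comp ((FN1_b_smooth h).clm_comp contDiff_const))

theorem FO5_Ai_smooth {Φ : ℝ → ℝ × Vec k → ℝ × Vec k → ℝ} {r1 : ℝ} (h : LocFin Φ r1) :
    ContDiff ℝ ∞ (fun y : ℝ × ℝ => Ai Φ y.1 y.2) := by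
  rw [contDiff_iff_contDiffAt]
  intro y
  have h1 := (FO5_inv h y.1 y.2).contDiffAt_map_inverse (n := ∞)
  exact h1.comp y (FO5_Au_smooth h).contDiffAt

theorem FO5_Au_per {Φ : ℝ → ℝ × Vec k → ℝ × Vec k → ℝ} {r1 : ℝ} (h : LocFin Φ r1) : Per2 (Au Φ) := by
  refine ⟨fun t θ => ?_, fun t θ => ?_⟩
  · rw [FO5_Au h, FO5_Au h, (FN1_b_per h).1]
  · rw [FO5_Au h, FO5_Au h, (FN1_b_per h).2]

theorem FO5_Ai_per {Φ : ℝ → ℝ × Vec k → ℝ × Vec k → ℝ} {r1 : ℝ} (h : LocFin Φ r1) : Per2 (Ai Φ) := by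
  refine ⟨fun t θ => ?_, fun t θ => ?_⟩
  · unfold Ai
    rw [(FO5_Au_per h).1]
  · unfold Ai
    rw [(FO5_Au_per h).2]

theorem FO5_dAi_per {Φ : ℝ → ℝ × Vec k → ℝ × Vec k → ℝ} {r1 : ℝ} (h : LocFin Φ r1) :
    Per2 (fun t θ => deriv (fun θ => Ai Φ t θ) θ) := by
  have hp := FO5_Ai_per h
  refine ⟨fun t θ => ?_, fun t θ => ?_⟩
  · show deriv (Ai Φ (t + 1)) θ = deriv (Ai Φ t) θ
    rw [show Ai Φ (t + 1) = Ai Φ t from funext fun θ => hp.1 t θ]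
  · show deriv (Ai Φ t) (θ + 1) = deriv (Ai Φ t) θ
    rw [← deriv_comp_add_const (Ai Φ t) 1 θ]
    rw [show (fun x => Ai Φ t (x + 1)) = Ai Φ t from funext fun θ => hp.2 t θ]

theorem Au_inner {Φ : ℝ → ℝ × Vec k → ℝ × Vec k → ℝ} {r1 : ℝ} (h : LocFin Φ r1) (t θ : ℝ) (v v' : Vec k) :
    inner ℝ (Au Φ t θ v) v' = fderiv ℝ (fderiv ℝ (lg (Φ t))) (θ, 0, 0) (0, 0, v) (0, 0, v') := by
  exact FO5_inner h t θ v v'

theorem Au_Qn {Φ : ℝ → ℝ × Vec k → ℝ × Vec k → ℝ} {r1 : ℝ} (h : LocFin Φ r1) (t θ : ℝ) (v : Vec k) : inner ℝ (Au Φ t θ v) v = en Φ t θ * Qn Φ t θ v := by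
  rw [FO5_inner h, FN1_Qn, ← mul_assoc, mul_inv_cancel₀ (FN1_en_pos h t θ).ne', one_mul]

theorem Au_symm {Φ : ℝ → ℝ × Vec k → ℝ × Vec k → ℝ} {r1 : ℝ} (h : LocFin Φ r1) (t θ : ℝ) (v v' : Vec k) : inner ℝ (Au Φ t θ v) v' = inner ℝ (Au Φ t θ v') v := by
  rw [FO5_inner h, FO5_inner h]
  have h1 : IsSymmSndFDerivAt ℝ (lg (Φ t)) (θ, (0 : Vec k), (0 : Vec k)) :=
    (FO5_lg h t θ).isSymmSndFDerivAt (by
      rw [minSmoothness_of_isRCLikeNormedField]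
      exact WithTop.coe_le_coe.2 le_top)
  exact h1 (0, 0, v) (0, 0, v')

theorem Au_reg {Φ : ℝ → ℝ × Vec k → ℝ × Vec k → ℝ} {r1 : ℝ} (h : LocFin Φ r1) : ContDiff ℝ ∞ (fun y : ℝ × ℝ => Au Φ y.1 y.2) ∧
    ContDiff ℝ ∞ (fun y : ℝ × ℝ => Ai Φ y.1 y.2) ∧
    ContDiff ℝ ∞ (fun y : ℝ × ℝ => deriv (fun θ => Ai Φ y.1 θ) y.2) ∧ Per2 (Au Φ) ∧ Per2 (Ai Φ) ∧
    Per2 (fun t θ => deriv (fun θ => Ai Φ t θ) θ) := by
  exact ⟨FO5_Au_smooth h, FO5_Ai_smooth h, FN1_deriv (f := Ai Φ) (FO5_Ai_smooth h), FO5_Au_per h,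
    FO5_Ai_per h, FO5_dAi_per h⟩

theorem Au_inv {Φ : ℝ → ℝ × Vec k → ℝ × Vec k → ℝ} {r1 : ℝ} (h : LocFin Φ r1) (t θ : ℝ) (v : Vec k) : Ai Φ t θ (Au Φ t θ v) = v ∧ Au Φ t θ (Ai Φ t θ v) = v := by
  obtain ⟨e, he⟩ := FO5_inv h t θ
  have h1 : Ai Φ t θ = (e.symm : Vec k →L[ℝ] Vec k) := by
    unfold Ai
    rw [← he, ContinuousLinearMap.inverse_equiv]
  rw [h1, ← he]
  exact ⟨e.symm_apply_apply v, e.apply_symm_apply v⟩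

theorem Au_bd {Φ : ℝ → ℝ × Vec k → ℝ × Vec k → ℝ} {r1 : ℝ} (h : LocFin Φ r1) : ∃ a A : ℝ, 0 < a ∧ 0 < A ∧ ∀ (t θ : ℝ) (v : Vec k),
    a * ‖v‖ ^ 2 ≤ inner ℝ (Au Φ t θ v) v ∧ ‖Au Φ t θ v‖ ≤ A * ‖v‖ ∧ ‖Ai Φ t θ v‖ ≤ A * ‖v‖ ∧
      ‖deriv (fun θ => Ai Φ t θ) θ v‖ ≤ A * ‖v‖ := by
  obtain ⟨a, ha, hlow⟩ := FO5_low h
  obtain ⟨C1, hC1, h1⟩ := FN1_bd (f := Au Φ) (FO5_Au_smooth h).continuous (FO5_Au_per h)
  obtain ⟨C2, hC2, h2⟩ := FN1_bd (f := Ai Φ) (FO5_Ai_smooth h).continuous (FO5_Ai_per h)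
  obtain ⟨C3, hC3, h3⟩ := FN1_bd (f := fun t θ => deriv (fun θ => Ai Φ t θ) θ)
    (FN1_deriv (f := Ai Φ) (FO5_Ai_smooth h)).continuous (FO5_dAi_per h)
  refine ⟨a, max C1 (max C2 C3), ha, lt_max_of_lt_left hC1, fun t θ v => ⟨hlow t θ v, ?_, ?_, ?_⟩⟩
  · exact (Au Φ t θ).le_of_opNorm_le ((h1 t θ).trans (le_max_left _ _)) v
  · exact (Ai Φ t θ).le_of_opNorm_le ((h2 t θ).trans ((le_max_left _ _).trans (le_max_right _ _))) v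
  · exact (deriv (fun θ => Ai Φ t θ) θ).le_of_opNorm_le
      ((h3 t θ).trans ((le_max_right _ _).trans (le_max_right _ _))) v

end EscW.Fo
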