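import Pool.Agent.EscW.FODefs
import Pool.Agent.EscW.FN1
import Pool.Agent.EscW.FO5

set_option autoImplicit false

/-!
Project EscW, part FO, module FO6: the Lagrangian `bl = cf lg` at the curve.
`bl Φ K t (θ, w, u) = (1 + ⟪ln, w⟫ + K Qn θ w) lg (Φ t) (θ, w, u)`, smooth in all variables for `‖w‖ < r1` (`reg_cf`). At `(θ, 0, 0)`: `lg = en`, `gw = gn`, `gu = pn`; `bl_grad`: `gw bl = en ln + gn = deriv pn`, `gu bl = pn`. Second derivatives: `gu bl = cf gu lg`, so its derivative in direction `(w', u')` at `(0, 0)` is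
`⟪ln, w'⟫ pn + (∂_w gu lg) w' + Au u'`; `gw bl = lg (ln + K ∇Qn) + cf gw lg`, `∇Qn w = 2 en⁻¹ Au w` (quadratic form, `Au_symm`, `Au_Qn`), so the derivative is `⟪gn, w'⟫ ln + ⟪pn, u'⟫ ln + 2 K Au w' + ⟪ln, w'⟫ gn + (∂_w gw lg) w' + (∂_u gw lg) u'`. The terms without `K` are bounded (continuous in `(t, θ)`, period one).
`bl_reg` as `gradT` (OT5), or directly. `gB`: uniform continuity on the compact set `t, θ ∈ [0,1]`, `‖w‖, ‖u‖ ≤ r1/2`, and periods, of the derivative of `(w, u) ↦ gu bl`, `gw bl` (smooth in all variables).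
-/

noncomputable section

namespace EscW.Fo

open Filter Topology Set EscF.T EscM EscMT MeasureTheory EscW.Ex EscW.Dn EscW.On EscW.Ot EscW.Fn
open scoped ContDiff

variable {d m k j n : ℕ}

/-! ### smooth periodic functions of all variables -/

/-- smooth in all variables for `‖w‖ < r`, of period one in `t` and `θ` -/
def FO6_SP {E : Type*} [NormedAddCommGroup E] [NormedSpace ℝ E] (F : ℝ → ℝ × Vec k × Vec k → E) (r : ℝ) :
    Prop :=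
  ContDiffOn ℝ ∞ (fun y : ℝ × (ℝ × Vec k × Vec k) => F y.1 y.2) {y | ‖y.2.2.1‖ < r} ∧
    ∀ (t : ℝ) (y : ℝ × Vec k × Vec k), ‖y.2.1‖ < r → F (t + 1) y = F t y ∧ F t (y.1 + 1, y.2) = F t y

theorem FO6_open (r : ℝ) : IsOpen {z : ℝ × Vec k × Vec k | ‖z.2.1‖ < r} :=
  isOpen_lt (by fun_prop) continuous_const

section SP

variable {E : Type*} [NormedAddCommGroup E] [NormedSpace ℝ E] {E' : Type*} [NormedAddCommGroup E']
  [NormedSpace ℝ E'] {F : ℝ → ℝ × Vec k × Vec k → E} {r : ℝ}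

theorem FO6_at (h : FO6_SP F r) (t : ℝ) {y : ℝ × Vec k × Vec k} (hy : ‖y.2.1‖ < r) :
    DifferentiableAt ℝ (F t) y ∧
      fderiv ℝ (F t) y = (fderiv ℝ (fun y : ℝ × (ℝ × Vec k × Vec k) => F y.1 y.2) (t, y)).comp
        (ContinuousLinearMap.inr ℝ ℝ (ℝ × Vec k × Vec k)) := by
  have hm : ((t, y) : ℝ × (ℝ × Vec k × Vec k)) ∈ {y : ℝ × (ℝ × Vec k × Vec k) | ‖y.2.2.1‖ < r} := hy
  have h1 : DifferentiableAt ℝ (fun y : ℝ × (ℝ × Vec k × Vec k) => F y.1 y.2) (t, y) :=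
    (h.1.contDiffAt ((FN1_open r).mem_nhds hm)).differentiableAt (by norm_num)
  have h2 : HasFDerivAt (F t) ((fderiv ℝ (fun y : ℝ × (ℝ × Vec k × Vec k) => F y.1 y.2) (t, y)).comp
      (ContinuousLinearMap.inr ℝ ℝ (ℝ × Vec k × Vec k))) y :=
    h1.hasFDerivAt.comp y (hasFDerivAt_prodMk_right (𝕜 := ℝ) t y)
  exact ⟨h2.differentiableAt, h2.fderiv⟩

theorem FO6_fd (h : FO6_SP F r) : FO6_SP (fun t y => fderiv ℝ (F t) y) r := by
  have hd : ContDiffOn ℝ ∞ (fderiv ℝ (fun y : ℝ × (ℝ × Vec k × Vec k) => F y.1 y.2)) {y | ‖y.2.2.1‖ < r} :=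
    h.1.fderiv_of_isOpen (FN1_open r) (by simp)
  refine ⟨(hd.clm_comp contDiffOn_const).congr fun y hy => (FO6_at h y.1 hy).2, fun t y hy => ⟨?_, ?_⟩⟩
  · refine Filter.EventuallyEq.fderiv_eq ?_
    filter_upwards [(FO6_open r).mem_nhds hy] with z hz
    exact (h.2 t z hz).1
  · have e : ∀ z : ℝ × Vec k × Vec k, ((z.1 + 1, z.2) : ℝ × Vec k × Vec k) = z + ((1 : ℝ), 0) := fun z => by
      obtain ⟨a, b⟩ := z
      simp
    show fderiv ℝ (F t) (y.1 + 1, y.2) = fderiv ℝ (F t) y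
    rw [e, ← fderiv_comp_add_right]
    refine Filter.EventuallyEq.fderiv_eq ?_
    filter_upwards [(FO6_open r).mem_nhds hy] with z hz
    rw [← e]
    exact (h.2 t z hz).2

theorem FO6_clm (h : FO6_SP F r) (T : E →L[ℝ] E') : FO6_SP (fun t y => T (F t y)) r :=
  ⟨T.contDiff.comp_contDiffOn h.1,
    fun t y hy => ⟨congrArg T (h.2 t y hy).1, congrArg T (h.2 t y hy).2⟩⟩

theorem FO6_par (h : FO6_SP F r) (t : ℝ) {y : ℝ × Vec k × Vec k} (hy : ‖y.2.1‖ < r) :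
    HasFDerivAt (fun v : Vec k × Vec k => F t (y.1, v.1, v.2))
      ((fderiv ℝ (F t) y).comp (ContinuousLinearMap.inr ℝ ℝ (Vec k × Vec k))) y.2 :=
  (FO6_at h t hy).1.hasFDerivAt.comp y.2 (hasFDerivAt_prodMk_right (𝕜 := ℝ) y.1 y.2)

/-- the partial derivative in `(w, u)` -/
theorem FO6_pd (h : FO6_SP F r) : FO6_SP (fun t y => (fderiv ℝ (F t) y).comp
    (ContinuousLinearMap.inr ℝ ℝ (Vec k × Vec k))) r :=
  FO6_clm (FO6_fd h) ((ContinuousLinearMap.compL ℝ (Vec k × Vec k) (ℝ × Vec k × Vec k) E).flip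
    (ContinuousLinearMap.inr ℝ ℝ (Vec k × Vec k)))

theorem FO6_bd (h : FO6_SP F r) (hr : 0 < r) : ∃ C : ℝ, 0 < C ∧ ∀ t θ, ‖F t (θ, 0, 0)‖ ≤ C := by
  have h0 : ‖(0 : Vec k)‖ < r := by rw [norm_zero]; exact hr
  have hm : ContDiff ℝ ∞ (fun y : ℝ × ℝ => ((y.1, (y.2, 0, 0)) : ℝ × (ℝ × Vec k × Vec k))) := by fun_prop
  have hc : ContDiff ℝ ∞ (fun y : ℝ × ℝ => F y.1 (y.2, 0, 0)) :=
    contDiffOn_univ.1 (h.1.comp hm.contDiffOn fun y _ => h0)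
  exact FN1_bd (f := fun t θ => F t (θ, 0, 0)) hc.continuous
    ⟨fun t θ => (h.2 t (θ, 0, 0) h0).1, fun t θ => (h.2 t (θ, 0, 0) h0).2⟩

theorem FO6_uc (h : FO6_SP F r) (hr : 0 < r) {s : ℝ} (hs : 0 < s) : ∃ r' : ℝ, 0 < r' ∧ r' < r ∧
    ∀ (t θ : ℝ) (y : Vec k × Vec k), ‖y‖ ≤ r' → ‖F t (θ, y) - F t (θ, 0)‖ ≤ s := by
  have h0 : ‖(0 : Vec k)‖ < r := by rw [norm_zero]; exact hr
  have hK : IsCompact ((fun z : ℝ × ℝ => ((z.1, (z.2, 0, 0)) : ℝ × (ℝ × Vec k × Vec k))) ''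
      (Icc (0:ℝ) 1 ×ˢ Icc (0:ℝ) 1)) :=
    (isCompact_Icc.prod isCompact_Icc).image (by fun_prop)
  obtain ⟨δ, hδ, hd⟩ := O3_uc hK (fun y : ℝ × (ℝ × Vec k × Vec k) => F y.1 y.2) (fun a ha => by
    obtain ⟨z, -, rfl⟩ := ha
    have hm : ((z.1, (z.2, 0, 0)) : ℝ × (ℝ × Vec k × Vec k)) ∈
        {y : ℝ × (ℝ × Vec k × Vec k) | ‖y.2.2.1‖ < r} := h0
    exact (h.1.contDiffAt ((FN1_open r).mem_nhds hm)).continuousAt) hs
  refine ⟨min (δ / 2) (r / 2), lt_min (by positivity) (by positivity),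
    (min_le_right _ _).trans_lt (by linarith), fun t θ y hy => ?_⟩
  have hy1 : ‖y‖ < δ := lt_of_le_of_lt (hy.trans (min_le_left _ _)) (by linarith)
  have hy2 : ‖y.1‖ < r := lt_of_le_of_lt ((norm_fst_le y).trans (hy.trans (min_le_right _ _))) (by linarith)
  have per : Ot.Per2 (fun t θ => F t (θ, y) - F t (θ, 0)) := by
    refine ⟨fun t θ => ?_, fun t θ => ?_⟩
    · show F (t + 1) (θ, y) - F (t + 1) (θ, 0) = F t (θ, y) - F t (θ, 0)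
      rw [(h.2 t (θ, y) hy2).1, (h.2 t (θ, 0) h0).1]
    · show F t (θ + 1, y) - F t (θ + 1, 0) = F t (θ, y) - F t (θ, 0)
      have e1 : F t (θ + 1, y) = F t (θ, y) := (h.2 t (θ, y) hy2).2
      have e2 : F t (θ + 1, 0) = F t (θ, 0) := (h.2 t (θ, 0) h0).2
      rw [e1, e2]
  obtain ⟨t', ht', θ', hθ', e⟩ := FN1_red per t θ
  have e : F t (θ, y) - F t (θ, 0) = F t' (θ', y) - F t' (θ', 0) := e
  rw [e]
  refine hd (t', (θ', 0, 0)) ⟨(t', θ'), ⟨ht', hθ'⟩, rfl⟩ (t', (θ', y)) ?_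
  rw [dist_comm, dist_eq_norm]
  have e3 : ((t', (θ', y)) : ℝ × (ℝ × Vec k × Vec k)) - (t', (θ', 0, 0)) = (0, (0, y)) := by
    obtain ⟨a, b⟩ := y
    simp
  rw [e3, Prod.norm_def, Prod.norm_def]
  simpa using hy1

end SP

theorem FO6_gu {L : ℝ → ℝ × Vec k × Vec k → ℝ} {r : ℝ} (h : FO6_SP L r) : FO6_SP (fun t y => gu (L t) y) r :=
  FO6_clm (FO6_fd h) ((FN1_T k).comp ((ContinuousLinearMap.compL ℝ (Vec k) (ℝ × Vec k × Vec k) ℝ).flip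
    ((ContinuousLinearMap.inr ℝ ℝ (Vec k × Vec k)).comp (ContinuousLinearMap.inr ℝ (Vec k) (Vec k)))))

theorem FO6_gw {L : ℝ → ℝ × Vec k × Vec k → ℝ} {r : ℝ} (h : FO6_SP L r) : FO6_SP (fun t y => gw (L t) y) r :=
  FO6_clm (FO6_fd h) ((FN1_T k).comp ((ContinuousLinearMap.compL ℝ (Vec k) (ℝ × Vec k × Vec k) ℝ).flip
    ((ContinuousLinearMap.inr ℝ ℝ (Vec k × Vec k)).comp (ContinuousLinearMap.inl ℝ (Vec k) (Vec k)))))

theorem FO6_lg {Φ : ℝ → ℝ × Vec k → ℝ × Vec k → ℝ} {r1 : ℝ} (h : LocFin Φ r1) :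
    FO6_SP (fun t => lg (Φ t)) r1 :=
  ⟨FN1_G h, fun t y hy => ⟨h.per_t t (y.1, y.2.1) (1, y.2.2) hy, h.per_θ t y.1 y.2.1 (1, y.2.2) hy⟩⟩

theorem bl_smooth {Φ : ℝ → ℝ × Vec k → ℝ × Vec k → ℝ} {r1 : ℝ} (h : LocFin Φ r1) (K : ℝ) : ContDiffOn ℝ ∞ (fun y : ℝ × (ℝ × Vec k × Vec k) => bl Φ K y.1 y.2)
    {y | ‖y.2.2.1‖ < r1} := by
  have hm : ContDiff ℝ ∞ (fun y : ℝ × (ℝ × Vec k × Vec k) =>
      ((y.1, (y.2.1, y.2.2.1)) : ℝ × (ℝ × Vec k))) := by fun_prop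
  have h1 : ContDiff ℝ ∞ (fun y : ℝ × (ℝ × Vec k × Vec k) => cf Φ K y.1 (y.2.1, y.2.2.1)) :=
    (reg_cf h K).1.comp hm
  have e : (fun y : ℝ × (ℝ × Vec k × Vec k) => bl Φ K y.1 y.2) =
      fun y => cf Φ K y.1 (y.2.1, y.2.2.1) * lg (Φ y.1) y.2 := rfl
  rw [e]
  exact h1.contDiffOn.mul (FN1_G h)

theorem bl_per {Φ : ℝ → ℝ × Vec k → ℝ × Vec k → ℝ} {r1 : ℝ} (h : LocFin Φ r1) (K t : ℝ) (y : ℝ × Vec k × Vec k) (hy : ‖y.2.1‖ < r1) :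
    bl Φ K (t + 1) y = bl Φ K t y ∧ bl Φ K t (y.1 + 1, y.2) = bl Φ K t y := by
  have h1 := (FO6_lg h).2 t y hy
  have h2 := per_cf h K t (y.1, y.2.1) 1
  have h3 : cf Φ K t (y.1 + 1, y.2.1) = cf Φ K t (y.1, y.2.1) := by
    have := h2.2.1
    simpa using this
  have h4 : lg (Φ t) (y.1 + 1, y.2) = lg (Φ t) y := h1.2
  have h5 : lg (Φ (t + 1)) y = lg (Φ t) y := h1.1
  refine ⟨?_, ?_⟩
  · unfold bl
    rw [h2.1, h5]
  · unfold bl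
    show cf Φ K t (y.1 + 1, y.2.1) * lg (Φ t) (y.1 + 1, y.2) = _
    rw [h3, h4]

theorem FO6_bl {Φ : ℝ → ℝ × Vec k → ℝ × Vec k → ℝ} {r1 : ℝ} (h : LocFin Φ r1) (K : ℝ) :
    FO6_SP (bl Φ K) r1 := ⟨bl_smooth h K, bl_per h K⟩

/-! ### the conformal factor -/

theorem FO6_cf {Φ : ℝ → ℝ × Vec k → ℝ × Vec k → ℝ} {r1 : ℝ} (h : LocFin Φ r1) (K t θ : ℝ) (w : Vec k) :
    HasFDerivAt (fun w => cf Φ K t (θ, w)) (innerSL ℝ (ln Φ t θ + (2 * K * (en Φ t θ)⁻¹) • Au Φ t θ w)) w := by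
  have e : (fun w => cf Φ K t (θ, w)) =
      fun w => 1 + inner ℝ (ln Φ t θ) w + K * ((en Φ t θ)⁻¹ * inner ℝ (Au Φ t θ w) w) := by
    funext w
    have hp := (FN1_en_pos h t θ).ne'
    rw [Au_Qn h, ← mul_assoc (en Φ t θ)⁻¹, inv_mul_cancel₀ hp, one_mul]
    rfl
  rw [e]
  have h1 : HasFDerivAt (fun w => inner ℝ (ln Φ t θ) w) (innerSL ℝ (ln Φ t θ)) w :=
    (innerSL ℝ (ln Φ t θ)).hasFDerivAt
  have h2 : HasFDerivAt (fun w => inner ℝ (Au Φ t θ w) w) (innerSL ℝ ((2:ℝ) • Au Φ t θ w)) w := by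
    have h3 := HasFDerivAt.inner ℝ (Au Φ t θ).hasFDerivAt (hasFDerivAt_id w)
    refine h3.congr_fderiv ?_
    ext v
    have := Au_symm h t θ v w
    simp only [ContinuousLinearMap.comp_apply, ContinuousLinearMap.prod_apply, ContinuousLinearMap.id_apply,
      fderivInnerCLM_apply, innerSL_apply_apply, inner_smul_left, id]
    rw [this]
    simp
    ring
  refine ((h1.const_add 1).add ((h2.const_mul (en Φ t θ)⁻¹).const_mul K)).congr_fderiv ?_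
  ext v
  simp only [add_apply, smul_apply, innerSL_apply_apply, inner_add_left,
    inner_smul_left, smul_eq_mul]
  simp
  ring

theorem FO6_cf0 (Φ : ℝ → ℝ × Vec k → ℝ × Vec k → ℝ) (K t θ : ℝ) : cf Φ K t (θ, 0) = 1 := by
  have e : fderiv ℝ (fderiv ℝ (lg (Φ t))) (θ, 0, 0) (0, 0, 0) (0, 0, 0) = 0 :=
    map_zero (fderiv ℝ (fderiv ℝ (lg (Φ t))) (θ, 0, 0) (0, 0, 0))
  show 1 + inner ℝ (ln Φ t θ) (0 : Vec k) +
    K * ((en Φ t θ)⁻¹ * fderiv ℝ (fderiv ℝ (lg (Φ t))) (θ, 0, 0) (0, 0, 0) (0, 0, 0)) = 1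
  rw [e, inner_zero_right]
  ring

theorem FO6_fdbl {Φ : ℝ → ℝ × Vec k → ℝ × Vec k → ℝ} {r1 : ℝ} (h : LocFin Φ r1) (K t : ℝ) {y : ℝ × Vec k × Vec k}
    (hy : ‖y.2.1‖ < r1) (v : Vec k × Vec k) : fderiv ℝ (bl Φ K t) y (0, v) =
      cf Φ K t (y.1, y.2.1) * fderiv ℝ (lg (Φ t)) y (0, v) +
        lg (Φ t) y * inner ℝ (ln Φ t y.1 + (2 * K * (en Φ t y.1)⁻¹) • Au Φ t y.1 y.2.1) v.1 := by
  have hm : ContDiff ℝ ∞ (fun y : ℝ × Vec k × Vec k => ((t, (y.1, y.2.1)) : ℝ × (ℝ × Vec k))) := by fun_prop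
  have h1 : ContDiff ℝ ∞ (fun y : ℝ × Vec k × Vec k => cf Φ K t (y.1, y.2.1)) := (reg_cf h K).1.comp hm
  have h2 : HasFDerivAt (fun y : ℝ × Vec k × Vec k => cf Φ K t (y.1, y.2.1))
      (fderiv ℝ (fun y : ℝ × Vec k × Vec k => cf Φ K t (y.1, y.2.1)) y) y :=
    (h1.differentiable (by norm_num) y).hasFDerivAt
  have h3 := (FO6_at (FO6_lg h) t hy).1.hasFDerivAt
  have h4 : HasFDerivAt (bl Φ K t) _ y := h2.mul h3
  have h5 := h2.comp y.2 (hasFDerivAt_prodMk_right (𝕜 := ℝ) y.1 y.2)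
  have h6 : HasFDerivAt (fun v : Vec k × Vec k => cf Φ K t (y.1, v.1)) _ y.2 :=
    (FO6_cf h K t y.1 y.2.1).comp y.2 hasFDerivAt_fst
  have h7 := DFunLike.congr_fun (h5.unique h6) v
  rw [h4.fderiv]
  have h8 : fderiv ℝ (fun y : ℝ × Vec k × Vec k => cf Φ K t (y.1, y.2.1)) y (0, v) =
      inner ℝ (ln Φ t y.1 + (2 * K * (en Φ t y.1)⁻¹) • Au Φ t y.1 y.2.1) v.1 := h7
  rw [add_apply, smul_apply, smul_apply, h8]
  rfl

theorem FO6_gubl {Φ : ℝ → ℝ × Vec k → ℝ × Vec k → ℝ} {r1 : ℝ} (h : LocFin Φ r1) (K t : ℝ) {y : ℝ × Vec k × Vec k}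
    (hy : ‖y.2.1‖ < r1) : gu (bl Φ K t) y = cf Φ K t (y.1, y.2.1) • gu (lg (Φ t)) y := by
  refine ext_inner_right ℝ fun v => ?_
  rw [gu_inner, FO6_fdbl h K t hy, real_inner_smul_left, gu_inner, inner_zero_right, mul_zero, add_zero]

theorem FO6_gwbl {Φ : ℝ → ℝ × Vec k → ℝ × Vec k → ℝ} {r1 : ℝ} (h : LocFin Φ r1) (K t : ℝ) {y : ℝ × Vec k × Vec k}
    (hy : ‖y.2.1‖ < r1) : gw (bl Φ K t) y = cf Φ K t (y.1, y.2.1) • gw (lg (Φ t)) y +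
      lg (Φ t) y • (ln Φ t y.1 + (2 * K * (en Φ t y.1)⁻¹) • Au Φ t y.1 y.2.1) := by
  refine ext_inner_right ℝ fun v => ?_
  rw [gw_inner, inner_add_left, real_inner_smul_left, real_inner_smul_left, gw_inner, FO6_fdbl h K t hy]

theorem bl_grad {Φ : ℝ → ℝ × Vec k → ℝ × Vec k → ℝ} {r1 : ℝ} (h : LocFin Φ r1) (K t θ : ℝ) : bl Φ K t (θ, 0, 0) = en Φ t θ ∧
    gu (bl Φ K t) (θ, 0, 0) = pn Φ t θ ∧ gw (bl Φ K t) (θ, 0, 0) = deriv (pn Φ t) θ := by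
  have h0 : ‖(0 : Vec k)‖ < r1 := by rw [norm_zero]; exact h.pos_r
  have hp := (FN1_en_pos h t θ).ne'
  refine ⟨?_, ?_, ?_⟩
  · show cf Φ K t (θ, 0) * en Φ t θ = en Φ t θ
    rw [FO6_cf0, one_mul]
  · rw [FO6_gubl h K t (y := (θ, 0, 0)) h0]
    show cf Φ K t (θ, 0) • pn Φ t θ = pn Φ t θ
    rw [FO6_cf0, one_smul]
  · rw [FO6_gwbl h K t (y := (θ, 0, 0)) h0]
    show cf Φ K t (θ, 0) • gn Φ t θ + en Φ t θ • (ln Φ t θ + (2 * K * (en Φ t θ)⁻¹) • Au Φ t θ 0) = _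
    rw [FO6_cf0, one_smul, map_zero, smul_zero, add_zero]
    unfold ln
    rw [smul_smul, mul_inv_cancel₀ hp, one_smul]
    abel

/-- the second derivatives at the curve, up to a bound which does not depend on `K` -/
theorem bl_hess {Φ : ℝ → ℝ × Vec k → ℝ × Vec k → ℝ} {r1 : ℝ} (h : LocFin Φ r1) : ∃ g : ℝ, 0 ≤ g ∧ ∀ (K t θ : ℝ) (w' u' : Vec k),
    ‖fderiv ℝ (fun y : Vec k × Vec k => gu (bl Φ K t) (θ, y.1, y.2)) 0 (w', u') - Au Φ t θ u'‖ ≤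
      g * ‖w'‖ ∧
    ‖fderiv ℝ (fun y : Vec k × Vec k => gw (bl Φ K t) (θ, y.1, y.2)) 0 (w', u') -
      (2 * K) • Au Φ t θ w'‖ ≤ g * (‖w'‖ + ‖u'‖) := by
  have hr := h.pos_r
  have h0 : ‖(0 : Vec k)‖ < r1 := by rw [norm_zero]; exact hr
  have hS := FO6_lg h
  obtain ⟨C1, hC1, b1⟩ := FO6_bd (FO6_pd (FO6_gu hS)) hr
  obtain ⟨C2, hC2, b2⟩ := FO6_bd (FO6_pd (FO6_gw hS)) hr
  obtain ⟨C3, hC3, b3⟩ := FO6_bd (FO6_pd hS) hr
  obtain ⟨c, C, hc, hC, b4, -⟩ := bounds h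
  refine ⟨C1 + C2 + C3 * C + C * C, by positivity, fun K t θ w' u' => ?_⟩
  obtain ⟨-, -, bp, bg, -, bl'⟩ := b4 t θ
  have hp := (FN1_en_pos h t θ).ne'
  have hev : ∀ᶠ y : Vec k × Vec k in 𝓝 0, ‖y.1‖ < r1 :=
    (isOpen_lt (by fun_prop : Continuous fun y : Vec k × Vec k => ‖y.1‖) continuous_const).mem_nhds h0
  have hc1 : HasFDerivAt (fun y : Vec k × Vec k => cf Φ K t (θ, y.1)) _ 0 :=
    (FO6_cf h K t θ ((0 : Vec k × Vec k)).1).comp (0 : Vec k × Vec k) hasFDerivAt_fst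
  have n1 : |inner ℝ (ln Φ t θ) w'| ≤ C * ‖w'‖ :=
    (abs_real_inner_le_norm _ _).trans (mul_le_mul_of_nonneg_right bl' (norm_nonneg _))
  have nw : ‖w'‖ ≤ ‖((w', u') : Vec k × Vec k)‖ := norm_fst_le (w', u')
  have nn : ‖((w', u') : Vec k × Vec k)‖ ≤ ‖w'‖ + ‖u'‖ := by
    rw [Prod.norm_def]
    exact max_le (by simp) (by simp)
  have nw0 : ‖((w', 0) : Vec k × Vec k)‖ = ‖w'‖ := by
    rw [Prod.norm_def]
    simp
  have z1 : (fderiv ℝ (fun y => gu (lg (Φ t)) y) (θ, 0, 0)).comp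
      (ContinuousLinearMap.inr ℝ ℝ (Vec k × Vec k)) (w', u') =
      (fderiv ℝ (fun y => gu (lg (Φ t)) y) (θ, 0, 0)).comp
        (ContinuousLinearMap.inr ℝ ℝ (Vec k × Vec k)) (w', 0) + Au Φ t θ u' := by
    have hg := FO6_par (FO6_gu hS) t (y := (θ, 0, 0)) h0
    have h1 : HasFDerivAt (fun u => gu (lg (Φ t)) (θ, 0, u)) _ (0 : Vec k) :=
      hg.comp (0 : Vec k) (hasFDerivAt_prodMk_right (𝕜 := ℝ) (0 : Vec k) (0 : Vec k))
    have h2 : Au Φ t θ = _ := h1.fderiv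
    have h3 : ((w', u') : Vec k × Vec k) = (w', 0) + (0, u') := by simp
    rw [h3, map_add, h2]
    rfl
  constructor
  · have hg := FO6_par (FO6_gu hS) t (y := (θ, 0, 0)) h0
    have e : (fun y : Vec k × Vec k => gu (bl Φ K t) (θ, y.1, y.2)) =ᶠ[𝓝 0]
        fun y => cf Φ K t (θ, y.1) • gu (lg (Φ t)) (θ, y.1, y.2) := by
      filter_upwards [hev] with y hy
      exact FO6_gubl h K t (y := (θ, y.1, y.2)) hy
    have hd := hc1.smul hg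
    have hv : fderiv ℝ (fun y : Vec k × Vec k => cf Φ K t (θ, y.1) • gu (lg (Φ t)) (θ, y.1, y.2)) 0 (w', u') =
        (fderiv ℝ (fun y => gu (lg (Φ t)) y) (θ, 0, 0)).comp
          (ContinuousLinearMap.inr ℝ ℝ (Vec k × Vec k)) (w', u') + inner ℝ (ln Φ t θ) w' • pn Φ t θ := by
      have h1 : fderiv ℝ (fun y : Vec k × Vec k => cf Φ K t (θ, y.1) • gu (lg (Φ t)) (θ, y.1, y.2)) 0 = _ :=
        hd.fderiv
      rw [h1]
      show cf Φ K t (θ, 0) • _ +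
        (inner ℝ (ln Φ t θ + (2 * K * (en Φ t θ)⁻¹) • Au Φ t θ 0) w') • pn Φ t θ = _
      rw [FO6_cf0, one_smul, map_zero, smul_zero, add_zero]
      rfl
    rw [e.fderiv_eq, hv, z1]
    have e2 : ∀ a b c : Vec k, a + b + c - b = a + c := fun a b c => by abel
    rw [e2]
    refine (norm_add_le _ _).trans ?_
    have m1 := ContinuousLinearMap.le_of_opNorm_le _ (b1 t θ) ((w', 0) : Vec k × Vec k)
    rw [nw0] at m1
    have m2 : ‖inner ℝ (ln Φ t θ) w' • pn Φ t θ‖ ≤ C * ‖w'‖ * C := by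
      rw [norm_smul, Real.norm_eq_abs]
      exact mul_le_mul n1 bp (norm_nonneg _) (by positivity)
    have m3 : 0 ≤ (C2 + C3 * C) * ‖w'‖ := by positivity
    calc _ ≤ C1 * ‖w'‖ + C * ‖w'‖ * C := add_le_add m1 m2
      _ ≤ (C1 + C2 + C3 * C + C * C) * ‖w'‖ := by nlinarith
  · have hg := FO6_par (FO6_gw hS) t (y := (θ, 0, 0)) h0
    have hl := FO6_par hS t (y := (θ, 0, 0)) h0
    have e : (fun y : Vec k × Vec k => gw (bl Φ K t) (θ, y.1, y.2)) =ᶠ[𝓝 0]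
        fun y => cf Φ K t (θ, y.1) • gw (lg (Φ t)) (θ, y.1, y.2) +
          lg (Φ t) (θ, y.1, y.2) • (ln Φ t θ + (2 * K * (en Φ t θ)⁻¹) • Au Φ t θ y.1) := by
      filter_upwards [hev] with y hy
      exact FO6_gwbl h K t (y := (θ, y.1, y.2)) hy
    have hA : HasFDerivAt (fun y : Vec k × Vec k => ln Φ t θ + (2 * K * (en Φ t θ)⁻¹) • Au Φ t θ y.1)
        ((2 * K * (en Φ t θ)⁻¹) • (Au Φ t θ).comp (ContinuousLinearMap.fst ℝ (Vec k) (Vec k))) 0 :=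
      (((2 * K * (en Φ t θ)⁻¹) • (Au Φ t θ).comp
        (ContinuousLinearMap.fst ℝ (Vec k) (Vec k))).hasFDerivAt).const_add (ln Φ t θ)
    have hd := (hc1.smul hg).add (hl.smul hA)
    have hv : fderiv ℝ (fun y : Vec k × Vec k => cf Φ K t (θ, y.1) • gw (lg (Φ t)) (θ, y.1, y.2) +
          lg (Φ t) (θ, y.1, y.2) • (ln Φ t θ + (2 * K * (en Φ t θ)⁻¹) • Au Φ t θ y.1)) 0 (w', u') =
        (fderiv ℝ (fun y => gw (lg (Φ t)) y) (θ, 0, 0)).comp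
          (ContinuousLinearMap.inr ℝ ℝ (Vec k × Vec k)) (w', u') + inner ℝ (ln Φ t θ) w' • gn Φ t θ +
        (en Φ t θ • (2 * K * (en Φ t θ)⁻¹) • Au Φ t θ w' +
          (fderiv ℝ (lg (Φ t)) (θ, 0, 0)).comp (ContinuousLinearMap.inr ℝ ℝ (Vec k × Vec k)) (w', u') •
            ln Φ t θ) := by
      have h1 : fderiv ℝ (fun y : Vec k × Vec k => cf Φ K t (θ, y.1) • gw (lg (Φ t)) (θ, y.1, y.2) +
          lg (Φ t) (θ, y.1, y.2) • (ln Φ t θ + (2 * K * (en Φ t θ)⁻¹) • Au Φ t θ y.1)) 0 = _ := hd.fderiv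
      rw [h1]
      show (cf Φ K t (θ, 0) • _ +
        (inner ℝ (ln Φ t θ + (2 * K * (en Φ t θ)⁻¹) • Au Φ t θ 0) w') • gn Φ t θ) +
        (en Φ t θ • _ + ((fderiv ℝ (lg (Φ t)) (θ, 0, 0)).comp
          (ContinuousLinearMap.inr ℝ ℝ (Vec k × Vec k)) (w', u')) •
            (ln Φ t θ + (2 * K * (en Φ t θ)⁻¹) • Au Φ t θ 0)) = _
      rw [FO6_cf0, one_smul, map_zero, smul_zero, add_zero]
      rfl
    have e3 : en Φ t θ • (2 * K * (en Φ t θ)⁻¹) • Au Φ t θ w' = (2 * K) • Au Φ t θ w' := by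
      rw [smul_smul]
      congr 1
      field_simp
    rw [e.fderiv_eq, hv, e3]
    have e2 : ∀ a b c d : Vec k, a + b + (c + d) - c = a + b + d := fun a b c d => by abel
    rw [e2]
    have nz : 0 ≤ ‖((w', u') : Vec k × Vec k)‖ := norm_nonneg _
    have m1 := ContinuousLinearMap.le_of_opNorm_le _ (b2 t θ) ((w', u') : Vec k × Vec k)
    have m2 : ‖inner ℝ (ln Φ t θ) w' • gn Φ t θ‖ ≤ C * ‖w'‖ * C := by
      rw [norm_smul, Real.norm_eq_abs]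
      exact mul_le_mul n1 bg (norm_nonneg _) (by positivity)
    have m3 := ContinuousLinearMap.le_of_opNorm_le _ (b3 t θ) ((w', u') : Vec k × Vec k)
    have m4 : ‖(fderiv ℝ (lg (Φ t)) (θ, 0, 0)).comp (ContinuousLinearMap.inr ℝ ℝ (Vec k × Vec k)) (w', u') •
        ln Φ t θ‖ ≤ C3 * ‖((w', u') : Vec k × Vec k)‖ * C := by
      rw [norm_smul]
      exact mul_le_mul m3 bl' (norm_nonneg _) (by positivity)
    refine ((norm_add_le _ _).trans (add_le_add (norm_add_le _ _) le_rfl)).trans ?_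
    have m5 : 0 ≤ ‖w'‖ := norm_nonneg _
    have m6 : 0 ≤ ‖u'‖ := norm_nonneg _
    calc _ ≤ C2 * ‖((w', u') : Vec k × Vec k)‖ + C * ‖w'‖ * C + C3 * ‖((w', u') : Vec k × Vec k)‖ * C :=
          add_le_add (add_le_add m1 m2) m4
      _ ≤ C2 * (‖w'‖ + ‖u'‖) + C * ‖w'‖ * C + C3 * (‖w'‖ + ‖u'‖) * C := by gcongr
      _ ≤ (C1 + C2 + C3 * C + C * C) * (‖w'‖ + ‖u'‖) := by
          have m7 : 0 ≤ C1 * (‖w'‖ + ‖u'‖) := by positivity
          have m8 : 0 ≤ C * C * ‖u'‖ := by positivity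
          nlinarith

/-- the derivatives are uniformly continuous -/
theorem bl_cont {Φ : ℝ → ℝ × Vec k → ℝ × Vec k → ℝ} {r1 : ℝ} (h : LocFin Φ r1) (K : ℝ) {s : ℝ} (hs : 0 < s) : ∃ r : ℝ, 0 < r ∧ r < r1 ∧
    ∀ (t θ : ℝ) (y : Vec k × Vec k), ‖y‖ ≤ r →
      DifferentiableAt ℝ (fun y : Vec k × Vec k => gu (bl Φ K t) (θ, y.1, y.2)) y ∧
      DifferentiableAt ℝ (fun y : Vec k × Vec k => gw (bl Φ K t) (θ, y.1, y.2)) y ∧
      ‖fderiv ℝ (fun y : Vec k × Vec k => gu (bl Φ K t) (θ, y.1, y.2)) y -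
        fderiv ℝ (fun y : Vec k × Vec k => gu (bl Φ K t) (θ, y.1, y.2)) 0‖ ≤ s ∧
      ‖fderiv ℝ (fun y : Vec k × Vec k => gw (bl Φ K t) (θ, y.1, y.2)) y -
        fderiv ℝ (fun y : Vec k × Vec k => gw (bl Φ K t) (θ, y.1, y.2)) 0‖ ≤ s := by
  have hr := h.pos_r
  have h0 : ‖(0 : Vec k)‖ < r1 := by rw [norm_zero]; exact hr
  have hS := FO6_bl h K
  obtain ⟨ra, hra, hra1, ua⟩ := FO6_uc (FO6_pd (FO6_gu hS)) hr hs
  obtain ⟨rb, hrb, hrb1, ub⟩ := FO6_uc (FO6_pd (FO6_gw hS)) hr hs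
  refine ⟨min ra rb, lt_min hra hrb, (min_le_left _ _).trans_lt hra1, fun t θ y hy => ?_⟩
  have hy1 : ‖y.1‖ < r1 := ((norm_fst_le y).trans (hy.trans (min_le_left _ _))).trans_lt hra1
  have d1 := FO6_par (FO6_gu hS) t (y := (θ, y)) hy1
  have d2 := FO6_par (FO6_gw hS) t (y := (θ, y)) hy1
  have d3 := FO6_par (FO6_gu hS) t (y := (θ, 0)) h0
  have d4 := FO6_par (FO6_gw hS) t (y := (θ, 0)) h0
  refine ⟨d1.differentiableAt, d2.differentiableAt, ?_, ?_⟩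
  · have e1 : fderiv ℝ (fun y : Vec k × Vec k => gu (bl Φ K t) (θ, y.1, y.2)) y = _ := d1.fderiv
    have e2 : fderiv ℝ (fun y : Vec k × Vec k => gu (bl Φ K t) (θ, y.1, y.2)) 0 = _ := d3.fderiv
    rw [e1, e2]
    exact ua t θ y (hy.trans (min_le_left _ _))
  · have e1 : fderiv ℝ (fun y : Vec k × Vec k => gw (bl Φ K t) (θ, y.1, y.2)) y = _ := d2.fderiv
    have e2 : fderiv ℝ (fun y : Vec k × Vec k => gw (bl Φ K t) (θ, y.1, y.2)) 0 = _ := d4.fderiv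
    rw [e1, e2]
    exact ub t θ y (hy.trans (min_le_right _ _))

end EscW.Fo
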