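import Pool.Agent.EscW.O3

set_option autoImplicit false

/-!
Project EscW, part O, module O4: joint convexity.
`g t = L (θ, w + t Δw, u + t Δu)`, `Δw = w' - w`, `Δu = u' - u`, on `[0,1]` (the ball of radius `rc` is convex, `rc < r`). `g' t - g' 0 = ⟪gw(t) - gw(0), Δw⟫ + ⟪gu(t) - gu(0), Δu⟫ ≥ t (β |Δw|² + α |Δu|²) - ε t (|Δw| + |Δu|)²` (`GrLip`, Cauchy-Schwarz),
`(|Δw| + |Δu|)² ≤ 2 (|Δw|² + |Δu|²)`, `ε ≤ α/8, β/8`: `≥ t · 3/4 · (β |Δw|² + α |Δu|²)`. Integrate (or: `g - 3/8 t² (..)` has a derivative `≥ g' 0`, monotonicity).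
-/

noncomputable section

namespace EscW.On

open Filter Topology Set EscF.T EscM EscMT MeasureTheory EscW.Ex EscW.Dn
open scoped ContDiff

variable {d m k j n : ℕ}

theorem O4_seg {rc : ℝ} {w w' : Vec k} (hw : ‖w‖ ≤ rc) (hw' : ‖w'‖ ≤ rc) {t : ℝ} (h0 : 0 ≤ t)
    (h1 : t ≤ 1) : ‖w + t • (w' - w)‖ ≤ rc := by
  have h : w + t • (w' - w) = (1 - t) • w + t • w' := by module
  rw [h]
  calc ‖(1 - t) • w + t • w'‖ ≤ ‖(1 - t) • w‖ + ‖t • w'‖ := norm_add_le _ _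
    _ = (1 - t) * ‖w‖ + t * ‖w'‖ := by
        rw [norm_smul, norm_smul, Real.norm_of_nonneg (by linarith), Real.norm_of_nonneg h0]
    _ ≤ (1 - t) * rc + t * rc := by
        have h2 : 0 ≤ 1 - t := by linarith
        exact add_le_add (mul_le_mul_of_nonneg_left hw h2) (mul_le_mul_of_nonneg_left hw' h0)
    _ = rc := by ring

/-- one of the two terms -/
theorem O4_term {β ε D t : ℝ} {G0 G1 w Δ : Vec k} (h : ‖(G1 - β • (w + t • Δ)) - (G0 - β • w)‖ ≤ ε * (t * D)) :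
    t * (β * ‖Δ‖ ^ 2) - ε * t * D * ‖Δ‖ ≤ inner ℝ G1 Δ - inner ℝ G0 Δ := by
  have h1 : G1 - G0 = ((G1 - β • (w + t • Δ)) - (G0 - β • w)) + (β * t) • Δ := by module
  have h2 : inner ℝ G1 Δ - inner ℝ G0 Δ =
      inner ℝ ((G1 - β • (w + t • Δ)) - (G0 - β • w)) Δ + (β * t) * ‖Δ‖ ^ 2 := by
    rw [← inner_sub_left, h1, inner_add_left, real_inner_smul_left, real_inner_self_eq_norm_sq]
  have h3 := abs_le.1 (abs_real_inner_le_norm ((G1 - β • (w + t • Δ)) - (G0 - β • w)) Δ)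
  have h4 : ‖(G1 - β • (w + t • Δ)) - (G0 - β • w)‖ * ‖Δ‖ ≤ ε * (t * D) * ‖Δ‖ :=
    mul_le_mul_of_nonneg_right h (norm_nonneg _)
  rw [h2]
  nlinarith [h3.1]

theorem joint_convex {L : ℝ × Vec k × Vec k → ℝ} {r rc ε α β : ℝ} (hL : ContDiffOn ℝ 2 L (LD k r))
    (hrc : rc < r) (hα : 8 * ε ≤ α) (hβ : 8 * ε ≤ β) (hε : 0 ≤ ε) (hg : GrLip L α β rc ε) {θ : ℝ}
    {w u w' u' : Vec k} (hw : ‖w‖ ≤ rc) (hu : ‖u‖ ≤ rc) (hw' : ‖w'‖ ≤ rc) (hu' : ‖u'‖ ≤ rc) :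
    L (θ, w, u) + inner ℝ (gw L (θ, w, u)) (w' - w) + inner ℝ (gu L (θ, w, u)) (u' - u) +
      β / 4 * ‖w' - w‖ ^ 2 + α / 4 * ‖u' - u‖ ^ 2 ≤ L (θ, w', u') := by
  set Δw := w' - w with hΔw
  set Δu := u' - u with hΔu
  let y : ℝ → ℝ × Vec k × Vec k := fun t => (θ, w + t • Δw, u + t • Δu)
  have hy : ∀ t ∈ Icc (0 : ℝ) 1, y t ∈ LD k r := fun t ht =>
    ⟨lt_of_le_of_lt (O4_seg hw hw' ht.1 ht.2) hrc, lt_of_le_of_lt (O4_seg hu hu' ht.1 ht.2) hrc⟩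
  have hyd : ∀ t : ℝ, HasDerivAt y ((0 : ℝ), Δw, Δu) t := by
    intro t
    have h1 : HasDerivAt (fun t : ℝ => w + t • Δw) Δw t := by
      simpa using ((hasDerivAt_id t).smul_const Δw).const_add w
    have h2 : HasDerivAt (fun t : ℝ => u + t • Δu) Δu t := by
      simpa using ((hasDerivAt_id t).smul_const Δu).const_add u
    exact (hasDerivAt_const t θ).prodMk (h1.prodMk h2)
  have hLd : ∀ t ∈ Icc (0 : ℝ) 1, HasDerivAt (fun t => L (y t))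
      (inner ℝ (gw L (y t)) Δw + inner ℝ (gu L (y t)) Δu) t := by
    intro t ht
    have h1 : DifferentiableAt ℝ L (y t) :=
      (hL.contDiffAt ((O3_isOpen k r).mem_nhds (hy t ht))).differentiableAt (by norm_num)
    have h2 := h1.hasFDerivAt.comp_hasDerivAt t (hyd t)
    have h3 : fderiv ℝ L (y t) ((0 : ℝ), Δw, Δu) =
        inner ℝ (gw L (y t)) Δw + inner ℝ (gu L (y t)) Δu := by
      rw [gw_inner, gu_inner, ← map_add]
      congr 1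
      simp
    rw [h3] at h2
    exact h2
  set Q : ℝ := β * ‖Δw‖ ^ 2 + α * ‖Δu‖ ^ 2 with hQ
  set g0 : ℝ := inner ℝ (gw L (θ, w, u)) Δw + inner ℝ (gu L (θ, w, u)) Δu with hg0
  have hder : ∀ t ∈ Icc (0 : ℝ) 1, g0 + 3 / 4 * t * Q ≤
      inner ℝ (gw L (y t)) Δw + inner ℝ (gu L (y t)) Δu := by
    intro t ht
    have h1 := hg θ (w + t • Δw) (u + t • Δu) w u (O4_seg hw hw' ht.1 ht.2)
      (O4_seg hu hu' ht.1 ht.2) hw hu
    have h2 : ε * (‖w + t • Δw - w‖ + ‖u + t • Δu - u‖) = ε * (t * (‖Δw‖ + ‖Δu‖)) := by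
      rw [add_sub_cancel_left, add_sub_cancel_left, norm_smul, norm_smul,
        Real.norm_of_nonneg ht.1]
      ring
    rw [h2] at h1
    have h3 := O4_term h1.1
    have h4 := O4_term h1.2
    have h5 : ε * t * (‖Δw‖ + ‖Δu‖) * ‖Δw‖ + ε * t * (‖Δw‖ + ‖Δu‖) * ‖Δu‖ ≤
        1 / 4 * t * Q := by
      have h6 : (‖Δw‖ + ‖Δu‖) ^ 2 ≤ 2 * (‖Δw‖ ^ 2 + ‖Δu‖ ^ 2) := by
        nlinarith [sq_nonneg (‖Δw‖ - ‖Δu‖)]
      have h7 : ε * (‖Δw‖ + ‖Δu‖) ^ 2 ≤ 1 / 4 * Q := by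
        have h8 := mul_le_mul_of_nonneg_left h6 hε
        have h9 : 8 * ε * ‖Δw‖ ^ 2 ≤ β * ‖Δw‖ ^ 2 :=
          mul_le_mul_of_nonneg_right hβ (sq_nonneg _)
        have h10 : 8 * ε * ‖Δu‖ ^ 2 ≤ α * ‖Δu‖ ^ 2 :=
          mul_le_mul_of_nonneg_right hα (sq_nonneg _)
        rw [hQ]
        linarith
      have h11 := mul_le_mul_of_nonneg_left h7 ht.1
      nlinarith
    have h6 : t * Q = t * (β * ‖Δw‖ ^ 2) + t * (α * ‖Δu‖ ^ 2) := by rw [hQ]; ring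
    have h7 : g0 + 3 / 4 * t * Q = g0 + t * Q - 1 / 4 * t * Q := by ring
    rw [h7, h6, hg0]
    change inner ℝ (gw L (θ, w, u)) Δw + inner ℝ (gu L (θ, w, u)) Δu +
      (t * (β * ‖Δw‖ ^ 2) + t * (α * ‖Δu‖ ^ 2)) - 1 / 4 * t * Q ≤
      inner ℝ (gw L (θ, w + t • Δw, u + t • Δu)) Δw + inner ℝ (gu L (θ, w + t • Δw, u + t • Δu)) Δu
    linarith
  have hQ0 : 0 ≤ Q := by
    have h1 : 0 ≤ β := by linarith
    have h2 : 0 ≤ α := by linarith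
    positivity
  -- monotonicity
  let H : ℝ → ℝ := fun t => L (y t) - g0 * t - 3 / 8 * Q * t ^ 2
  have hHd : ∀ t ∈ Icc (0 : ℝ) 1, HasDerivAt H
      (inner ℝ (gw L (y t)) Δw + inner ℝ (gu L (y t)) Δu - g0 - 3 / 4 * t * Q) t := by
    intro t ht
    have h1 : HasDerivAt (fun t : ℝ => g0 * t) g0 t := by
      simpa using (hasDerivAt_id t).const_mul g0
    have h2 : HasDerivAt (fun t : ℝ => 3 / 8 * Q * t ^ 2) (3 / 4 * t * Q) t := by
      have := ((hasDerivAt_id t).pow 2).const_mul (3 / 8 * Q)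
      refine this.congr_deriv ?_
      simp
      ring
    exact ((hLd t ht).sub h1).sub h2
  have hmono : MonotoneOn H (Icc (0 : ℝ) 1) := by
    refine monotoneOn_of_deriv_nonneg (convex_Icc 0 1)
      (fun t ht => (hHd t ht).continuousAt.continuousWithinAt) ?_ ?_
    · intro t ht
      rw [interior_Icc] at ht
      exact (hHd t ⟨ht.1.le, ht.2.le⟩).differentiableAt.differentiableWithinAt
    · intro t ht
      rw [interior_Icc] at ht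
      have ht' : t ∈ Icc (0 : ℝ) 1 := ⟨ht.1.le, ht.2.le⟩
      rw [(hHd t ht').deriv]
      have := hder t ht'
      linarith
  have h1 := hmono (left_mem_Icc.2 zero_le_one) (right_mem_Icc.2 zero_le_one) zero_le_one
  have hy0 : y 0 = (θ, w, u) := by simp [y]
  have hy1 : y 1 = (θ, w', u') := by simp [y, hΔw, hΔu]
  simp only [H, hy0, hy1] at h1
  have h2 : 3 / 8 * Q ≥ 1 / 4 * Q := by linarith
  rw [hQ] at h1 h2
  rw [hg0] at h1
  linarith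

end EscW.On
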