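import Pool.Agent.EscW.ONDefs

set_option autoImplicit false

/-!
Project EscW, part O, module O6a: inequalities away from the circle.
`far_u`: for `u` with `rc ≤ ‖u‖ = U`: `Φ0 z (1,u) ≥ √(ℓ² + c3² U²) ≥ ℓ + c4 U`, `c4 = (√(ℓ² + c3² rc²) - ℓ)/rc > 0` (`U ↦ (√(ℓ² + c3²U²) - ℓ)/U` is nondecreasing: it is `c3² U/(√(ℓ² + c3²U²) + ℓ)`), `Φ ≥ (1 - η) Φ0`, `A + ⟪p,u⟫ ≤ ℓ + s1 + s1 U`, and `U ≥ rc`: take `η`, `s1` small.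
`far_neg`: `ζ.1 ≤ 0`, `ζ ≠ 0`: `A ζ.1 ≤ 0` (`A > 0`); if `ζ.2 ≠ 0`: `⟪p, ζ.2⟫ ≤ s1 ‖ζ.2‖ < (1 - η) c3 ‖ζ.2‖ ≤ Φ`; if `ζ.2 = 0`: `A ζ.1 < 0 ≤ Φ`.
`far_w`: `rc ≤ ‖z.2‖`: `Φ0 ≥ ℓ |ζ.1| (1 + c rc²)`, `‖ζ‖ ≤ max (1/ℓ) (1/c3) Φ0` (`low`), `Φ0 > 0` for `ζ ≠ 0`; so `ℓ ζ.1 + b ζ ≤ Φ0 (1/(1 + c rc²) + s1 C) < (1 - η) Φ0 ≤ Φ`.
`margin`: `Φ - (ℓ ζ.1 + b ζ) ≥ (Φ0 - ℓ ζ.1) - (η + s1 C) Φ0`, and `Φ0 ≤ C' (Φ0 - ℓ ζ.1)` with `C' = (1 + c rb²)/(c rb²)`. So `≥ (1 - (η + s1 C) C') (Φ0 - ℓ ζ.1)`, and `Φ0 - ℓ ζ.1 ≥ 0`.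
-/

noncomputable section

namespace EscW.On

open Filter Topology Set EscF.T EscM EscMT MeasureTheory EscW.Ex EscW.Dn
open scoped ContDiff

variable {d m k j n : ℕ}

/-! ### elementary consequences of the lower bound -/

theorem O6a_l1 {Φ0 : ℝ × Vec k → ℝ × Vec k → ℝ} {𝒜 : Set (ℝ × Vec k)} {r ℓ c c3 α β : ℝ}
    (hb : AnnBase Φ0 𝒜 r ℓ c c3 α β) {z : ℝ × Vec k} (hz : z ∈ 𝒜) (ζ : ℝ × Vec k) :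
    ℓ * |ζ.1| * (1 + c * ‖z.2‖ ^ 2) ≤ Φ0 z ζ := by
  have h := hb.low z hz ζ
  have hℓ := hb.ℓ_pos
  have hc := hb.c_pos
  refine abs_le_of_sq_le_sq' ?_ (hb.nonneg z ζ) |>.2
  have h1 : (ℓ * |ζ.1| * (1 + c * ‖z.2‖ ^ 2)) ^ 2 = (ℓ * ζ.1 * (1 + c * ‖z.2‖ ^ 2)) ^ 2 := by
    rw [mul_pow, mul_pow, sq_abs, mul_pow, mul_pow]
  rw [h1]
  nlinarith [sq_nonneg (c3 * ‖ζ.2‖)]

theorem O6a_l2 {Φ0 : ℝ × Vec k → ℝ × Vec k → ℝ} {𝒜 : Set (ℝ × Vec k)} {r ℓ c c3 α β : ℝ}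
    (hb : AnnBase Φ0 𝒜 r ℓ c c3 α β) {z : ℝ × Vec k} (hz : z ∈ 𝒜) (ζ : ℝ × Vec k) :
    c3 * ‖ζ.2‖ ≤ Φ0 z ζ := by
  have h := hb.low z hz ζ
  refine abs_le_of_sq_le_sq' ?_ (hb.nonneg z ζ) |>.2
  nlinarith [sq_nonneg (ℓ * ζ.1 * (1 + c * ‖z.2‖ ^ 2))]

theorem O6a_l1' {Φ0 : ℝ × Vec k → ℝ × Vec k → ℝ} {𝒜 : Set (ℝ × Vec k)} {r ℓ c c3 α β : ℝ}
    (hb : AnnBase Φ0 𝒜 r ℓ c c3 α β) {z : ℝ × Vec k} (hz : z ∈ 𝒜) (ζ : ℝ × Vec k) :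
    ℓ * |ζ.1| ≤ Φ0 z ζ := by
  have h := O6a_l1 hb hz ζ
  have h1 : 0 ≤ ℓ * |ζ.1| := mul_nonneg hb.ℓ_pos.le (abs_nonneg _)
  have h2 : 0 ≤ c * ‖z.2‖ ^ 2 := mul_nonneg hb.c_pos.le (sq_nonneg _)
  nlinarith

/-- the norm is bounded by the metric -/
theorem O6a_norm {Φ0 : ℝ × Vec k → ℝ × Vec k → ℝ} {𝒜 : Set (ℝ × Vec k)} {r ℓ c c3 α β : ℝ}
    (hb : AnnBase Φ0 𝒜 r ℓ c c3 α β) : ∃ C : ℝ, 0 < C ∧ ∀ z ∈ 𝒜, ∀ ζ, ‖ζ‖ ≤ C * Φ0 z ζ := by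
  have hℓ := hb.ℓ_pos
  have hc3 := hb.c3_pos
  refine ⟨ℓ⁻¹ + c3⁻¹, by positivity, fun z hz ζ => ?_⟩
  have h0 := hb.nonneg z ζ
  have h1 : |ζ.1| ≤ ℓ⁻¹ * Φ0 z ζ := by
    have h := O6a_l1' hb hz ζ
    calc |ζ.1| = ℓ⁻¹ * (ℓ * |ζ.1|) := by field_simp
      _ ≤ ℓ⁻¹ * Φ0 z ζ := mul_le_mul_of_nonneg_left h (by positivity)
  have h2 : ‖ζ.2‖ ≤ c3⁻¹ * Φ0 z ζ := by
    have h := O6a_l2 hb hz ζ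
    calc ‖ζ.2‖ = c3⁻¹ * (c3 * ‖ζ.2‖) := by field_simp
      _ ≤ c3⁻¹ * Φ0 z ζ := mul_le_mul_of_nonneg_left h (by positivity)
  have h3 : 0 ≤ ℓ⁻¹ * Φ0 z ζ := by positivity
  have h4 : 0 ≤ c3⁻¹ * Φ0 z ζ := by positivity
  rw [add_mul, Prod.norm_def, Real.norm_eq_abs]
  exact max_le (by linarith) (by linarith)

theorem O6a_pos {Φ0 : ℝ × Vec k → ℝ × Vec k → ℝ} {𝒜 : Set (ℝ × Vec k)} {r ℓ c c3 α β : ℝ}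
    (hb : AnnBase Φ0 𝒜 r ℓ c c3 α β) {z : ℝ × Vec k} (hz : z ∈ 𝒜) {ζ : ℝ × Vec k} (hζ : ζ ≠ 0) :
    0 < Φ0 z ζ := by
  obtain ⟨C, hC, h⟩ := O6a_norm hb
  have h1 := h z hz ζ
  have h2 : 0 < ‖ζ‖ := norm_pos_iff.2 hζ
  by_contra h3
  have h4 : C * Φ0 z ζ ≤ 0 := mul_nonpos_of_nonneg_of_nonpos hC.le (not_lt.1 h3)
  linarith

/-- away from the circle the first coordinate is a fraction of the metric -/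
theorem O6a_frac {Φ0 : ℝ × Vec k → ℝ × Vec k → ℝ} {𝒜 : Set (ℝ × Vec k)} {r ℓ c c3 α β : ℝ}
    (hb : AnnBase Φ0 𝒜 r ℓ c c3 α β) {rc : ℝ} (hrc : 0 < rc) : ∃ q : ℝ, 0 < q ∧ q < 1 ∧
    ∀ z ∈ 𝒜, rc ≤ ‖z.2‖ → ∀ ζ : ℝ × Vec k, ℓ * ζ.1 ≤ q * Φ0 z ζ := by
  have hℓ := hb.ℓ_pos
  have hc := hb.c_pos
  have hD : 0 < c * rc ^ 2 := by positivity
  refine ⟨(1 + c * rc ^ 2)⁻¹, by positivity, inv_lt_one_of_one_lt₀ (by linarith), fun z hz hzr ζ => ?_⟩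
  have h := O6a_l1 hb hz ζ
  have h1 : ℓ * ζ.1 ≤ ℓ * |ζ.1| := mul_le_mul_of_nonneg_left (le_abs_self _) hℓ.le
  have h2 : c * rc ^ 2 ≤ c * ‖z.2‖ ^ 2 :=
    mul_le_mul_of_nonneg_left (pow_le_pow_left₀ hrc.le hzr 2) hc.le
  have h3 : 0 ≤ ℓ * |ζ.1| := mul_nonneg hℓ.le (abs_nonneg _)
  have h4 : ℓ * |ζ.1| * (1 + c * rc ^ 2) ≤ Φ0 z ζ :=
    (mul_le_mul_of_nonneg_left (by linarith) h3).trans h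
  calc ℓ * ζ.1 ≤ ℓ * |ζ.1| := h1
    _ = (1 + c * rc ^ 2)⁻¹ * (ℓ * |ζ.1| * (1 + c * rc ^ 2)) := by
      field_simp
    _ ≤ (1 + c * rc ^ 2)⁻¹ * Φ0 z ζ := mul_le_mul_of_nonneg_left h4 (by positivity)

theorem O6a_near {Φ0 Φ : ℝ × Vec k → ℝ × Vec k → ℝ} {𝒜 : Set (ℝ × Vec k)} {r η : ℝ}
    (h : AnnNear Φ0 Φ 𝒜 r η) {z : ℝ × Vec k} (hz : z ∈ 𝒜) (ζ : ℝ × Vec k) :
    (1 - η) * Φ0 z ζ ≤ Φ z ζ := by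
  have h1 := (abs_le.1 (h.c0 z hz ζ)).1
  linarith

theorem far_u {Φ0 : ℝ × Vec k → ℝ × Vec k → ℝ} {𝒜 : Set (ℝ × Vec k)} {r ℓ c c3 α β : ℝ}
    (hb : AnnBase Φ0 𝒜 r ℓ c c3 α β) {rc : ℝ} (hrc : 0 < rc) : ∃ s1 η : ℝ, 0 < s1 ∧ 0 < η ∧
    ∀ Φ, AnnNear Φ0 Φ 𝒜 r η → ∀ z ∈ 𝒜, ∀ (A : ℝ) (p u : Vec k), |A - ℓ| ≤ s1 → ‖p‖ ≤ s1 → rc ≤ ‖u‖ →
      A + inner ℝ p u < Φ z (1, u) := by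
  have hℓ := hb.ℓ_pos
  have hc := hb.c_pos
  have hc3 := hb.c3_pos
  obtain ⟨c4, h40, h41, h42⟩ : ∃ c4 : ℝ, 0 < c4 ∧ c4 ≤ c3 / 2 ∧ c4 * (4 * ℓ) ≤ c3 ^ 2 * rc := by
    refine ⟨min (c3 / 2) (c3 ^ 2 * rc / (4 * ℓ)), lt_min (by positivity) (by positivity), min_le_left _ _, ?_⟩
    calc min (c3 / 2) (c3 ^ 2 * rc / (4 * ℓ)) * (4 * ℓ) ≤ c3 ^ 2 * rc / (4 * ℓ) * (4 * ℓ) :=
          mul_le_mul_of_nonneg_right (min_le_right _ _) (by positivity)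
      _ = c3 ^ 2 * rc := by field_simp
  have hc4rc : 0 < c4 * rc := mul_pos h40 hrc
  obtain ⟨η, hη0, hη1, hη2⟩ : ∃ η : ℝ, 0 < η ∧ η ≤ 1 / 2 ∧ η * ℓ ≤ c4 * rc / 16 := by
    refine ⟨min (1 / 2) (c4 * rc / 16 / ℓ), lt_min (by norm_num) (by positivity), min_le_left _ _, ?_⟩
    calc min (1 / 2) (c4 * rc / 16 / ℓ) * ℓ ≤ c4 * rc / 16 / ℓ * ℓ :=
          mul_le_mul_of_nonneg_right (min_le_right _ _) hℓ.le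
      _ = c4 * rc / 16 := by field_simp
  obtain ⟨s1, hs0, hs1, hs2⟩ : ∃ s1 : ℝ, 0 < s1 ∧ s1 ≤ c4 / 4 ∧ s1 ≤ c4 * rc / 16 :=
    ⟨min (c4 / 4) (c4 * rc / 16), lt_min (by positivity) (by positivity), min_le_left _ _, min_le_right _ _⟩
  refine ⟨s1, η, hs0, hη0, fun Φ hΦ z hz A p u hA hp hu => ?_⟩
  have hU : 0 < ‖u‖ := hrc.trans_le hu
  have h1 : ℓ + c4 * ‖u‖ ≤ Φ0 z (1, u) := by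
    refine abs_le_of_sq_le_sq' ?_ (hb.nonneg z _) |>.2
    refine le_trans ?_ (hb.low z hz (1, u))
    have h2 : ℓ ^ 2 ≤ (ℓ * 1 * (1 + c * ‖z.2‖ ^ 2)) ^ 2 := by
      refine pow_le_pow_left₀ hℓ.le ?_ 2
      have h3 : 0 ≤ ℓ * (c * ‖z.2‖ ^ 2) := by positivity
      linarith
    have h4 : c4 ^ 2 * ‖u‖ ≤ c3 ^ 2 / 2 * ‖u‖ := by
      refine mul_le_mul_of_nonneg_right ?_ hU.le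
      nlinarith
    have h5 : 2 * ℓ * c4 ≤ c3 ^ 2 / 2 * ‖u‖ := by
      have : c3 ^ 2 * rc ≤ c3 ^ 2 * ‖u‖ := mul_le_mul_of_nonneg_left hu (sq_nonneg _)
      linarith
    have h6 : (2 * ℓ * c4 + c4 ^ 2 * ‖u‖) * ‖u‖ ≤ c3 ^ 2 * ‖u‖ * ‖u‖ :=
      mul_le_mul_of_nonneg_right (by linarith) hU.le
    have h7 : (ℓ + c4 * ‖u‖) ^ 2 = ℓ ^ 2 + (2 * ℓ * c4 + c4 ^ 2 * ‖u‖) * ‖u‖ := by ring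
    have h8 : (c3 * ‖u‖) ^ 2 = c3 ^ 2 * ‖u‖ * ‖u‖ := by ring
    show (ℓ + c4 * ‖u‖) ^ 2 ≤ (ℓ * 1 * (1 + c * ‖z.2‖ ^ 2)) ^ 2 + (c3 * ‖u‖) ^ 2
    linarith
  have h2 := O6a_near hΦ hz (1, u)
  have h3 : (1 - η) * (ℓ + c4 * ‖u‖) ≤ (1 - η) * Φ0 z (1, u) :=
    mul_le_mul_of_nonneg_left h1 (by linarith)
  have h4 : A ≤ ℓ + s1 := by
    have := (abs_le.1 hA).2
    linarith
  have h5 : inner ℝ p u ≤ s1 * ‖u‖ :=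
    (real_inner_le_norm p u).trans (mul_le_mul_of_nonneg_right hp hU.le)
  have h6 : s1 * ‖u‖ ≤ c4 / 4 * ‖u‖ := mul_le_mul_of_nonneg_right hs1 hU.le
  have h7 : c4 * rc ≤ c4 * ‖u‖ := mul_le_mul_of_nonneg_left hu h40.le
  have h8 : η * (c4 * ‖u‖) ≤ 1 / 2 * (c4 * ‖u‖) :=
    mul_le_mul_of_nonneg_right hη1 (by positivity)
  have h9 : (1 - η) * (ℓ + c4 * ‖u‖) = ℓ - η * ℓ + c4 * ‖u‖ - η * (c4 * ‖u‖) := by ring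
  linarith

theorem far_neg {Φ0 : ℝ × Vec k → ℝ × Vec k → ℝ} {𝒜 : Set (ℝ × Vec k)} {r ℓ c c3 α β : ℝ}
    (hb : AnnBase Φ0 𝒜 r ℓ c c3 α β) : ∃ s1 η : ℝ, 0 < s1 ∧ 0 < η ∧
    ∀ Φ, AnnNear Φ0 Φ 𝒜 r η → ∀ z ∈ 𝒜, ∀ (A : ℝ) (p : Vec k) (ζ : ℝ × Vec k), |A - ℓ| ≤ s1 → ‖p‖ ≤ s1 →
      ζ.1 ≤ 0 → ζ ≠ 0 → A * ζ.1 + inner ℝ p ζ.2 < Φ z ζ := by
  have hℓ := hb.ℓ_pos
  have hc3 := hb.c3_pos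
  obtain ⟨s1, hs0, hs1, hs2⟩ : ∃ s1 : ℝ, 0 < s1 ∧ s1 ≤ ℓ / 2 ∧ s1 ≤ c3 / 4 :=
    ⟨min (ℓ / 2) (c3 / 4), lt_min (by positivity) (by positivity), min_le_left _ _, min_le_right _ _⟩
  refine ⟨s1, 1 / 2, hs0, by norm_num, fun Φ hΦ z hz A p ζ hA hp hζ hζ0 => ?_⟩
  have hA0 : 0 < A := by
    have := (abs_le.1 hA).1
    linarith
  have h1 : A * ζ.1 ≤ 0 := mul_nonpos_of_nonneg_of_nonpos hA0.le hζ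
  have h2 := O6a_near hΦ hz ζ
  have h0 := hb.nonneg z ζ
  have h3 := O6a_l2 hb hz ζ
  by_cases h4 : ζ.2 = 0
  · have h5 : ζ.1 ≠ 0 := fun h => hζ0 (Prod.ext h h4)
    have h6 : ζ.1 < 0 := lt_of_le_of_ne hζ h5
    have h7 : A * ζ.1 < 0 := mul_neg_of_pos_of_neg hA0 h6
    rw [h4, inner_zero_right]
    linarith
  · have h5 : 0 < ‖ζ.2‖ := norm_pos_iff.2 h4
    have h6 : inner ℝ p ζ.2 ≤ s1 * ‖ζ.2‖ :=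
      (real_inner_le_norm p ζ.2).trans (mul_le_mul_of_nonneg_right hp h5.le)
    have h7 : s1 * ‖ζ.2‖ ≤ c3 / 4 * ‖ζ.2‖ := mul_le_mul_of_nonneg_right hs2 h5.le
    have h8 : 0 < c3 * ‖ζ.2‖ := mul_pos hc3 h5
    linarith

theorem far_w {Φ0 : ℝ × Vec k → ℝ × Vec k → ℝ} {𝒜 : Set (ℝ × Vec k)} {r ℓ c c3 α β : ℝ}
    (hb : AnnBase Φ0 𝒜 r ℓ c c3 α β) {rc : ℝ} (hrc : 0 < rc) : ∃ s1 η : ℝ, 0 < s1 ∧ 0 < η ∧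
    ∀ Φ, AnnNear Φ0 Φ 𝒜 r η → ∀ z ∈ 𝒜, rc ≤ ‖z.2‖ → ∀ (b : ℝ × Vec k →L[ℝ] ℝ) (ζ : ℝ × Vec k), ‖b‖ ≤ s1 →
      ζ ≠ 0 → ℓ * ζ.1 + b ζ < Φ z ζ := by
  obtain ⟨C, hC, hC1⟩ := O6a_norm hb
  obtain ⟨q, hq0, hq1, hq⟩ := O6a_frac hb hrc
  have hq2 : 0 < 1 - q := by linarith
  refine ⟨(1 - q) / 4 / C, (1 - q) / 4, by positivity, by positivity,
    fun Φ hΦ z hz hzr b ζ hbn hζ => ?_⟩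
  have h1 := hq z hz hzr ζ
  have h2 := O6a_near hΦ hz ζ
  have h3 := O6a_pos hb hz hζ
  have h4 : b ζ ≤ (1 - q) / 4 * Φ0 z ζ := by
    calc b ζ ≤ ‖b ζ‖ := Real.le_norm_self _
      _ ≤ ‖b‖ * ‖ζ‖ := b.le_opNorm ζ
      _ ≤ (1 - q) / 4 / C * (C * Φ0 z ζ) :=
        mul_le_mul hbn (hC1 z hz ζ) (norm_nonneg _) (by positivity)
      _ = (1 - q) / 4 * Φ0 z ζ := by field_simp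
  have h5 : 0 < (1 - q) * Φ0 z ζ := mul_pos hq2 h3
  nlinarith

theorem margin {Φ0 : ℝ × Vec k → ℝ × Vec k → ℝ} {𝒜 : Set (ℝ × Vec k)} {r ℓ c c3 α β : ℝ}
    (hb : AnnBase Φ0 𝒜 r ℓ c c3 α β) {rb κ : ℝ} (hrb : 0 < rb) (hκ : 0 < κ) : ∃ s1 η : ℝ, 0 < s1 ∧ 0 < η ∧
    ∀ Φ, AnnNear Φ0 Φ 𝒜 r η → ∀ z ∈ 𝒜, rb ≤ ‖z.2‖ → ∀ (b : ℝ × Vec k →L[ℝ] ℝ) (ζ : ℝ × Vec k), ‖b‖ ≤ s1 →
      (1 - κ) * (Φ0 z ζ - ℓ * ζ.1) ≤ Φ z ζ - (ℓ * ζ.1 + b ζ) := by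
  obtain ⟨C, hC, hC1⟩ := O6a_norm hb
  obtain ⟨q, hq0, hq1, hq⟩ := O6a_frac hb hrb
  have hq2 : 0 < 1 - q := by linarith
  refine ⟨κ * (1 - q) / 2 / C, κ * (1 - q) / 2, by positivity, by positivity,
    fun Φ hΦ z hz hzr b ζ hbn => ?_⟩
  have h1 := hq z hz hzr ζ
  have h2 := O6a_near hΦ hz ζ
  have h4 : b ζ ≤ κ * (1 - q) / 2 * Φ0 z ζ := by
    calc b ζ ≤ ‖b ζ‖ := Real.le_norm_self _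
      _ ≤ ‖b‖ * ‖ζ‖ := b.le_opNorm ζ
      _ ≤ κ * (1 - q) / 2 / C * (C * Φ0 z ζ) :=
        mul_le_mul hbn (hC1 z hz ζ) (norm_nonneg _) (by positivity)
      _ = κ * (1 - q) / 2 * Φ0 z ζ := by field_simp
  have h5 : κ * (ℓ * ζ.1) ≤ κ * (q * Φ0 z ζ) := mul_le_mul_of_nonneg_left h1 hκ.le
  nlinarith

theorem near_mono {Φ0 Φ : ℝ × Vec k → ℝ × Vec k → ℝ} {𝒜 : Set (ℝ × Vec k)} {r η η' : ℝ}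
    (hn : ∀ z ζ, 0 ≤ Φ0 z ζ) (h : AnnNear Φ0 Φ 𝒜 r η) (hη : η ≤ η') : AnnNear Φ0 Φ 𝒜 r η' where
  hom := h.hom
  per := h.per
  cont := h.cont
  c0 z hz ζ := (h.c0 z hz ζ).trans (mul_le_mul_of_nonneg_right hη (hn z ζ))
  smooth := h.smooth
  c1 y hy := (h.c1 y hy).trans hη
  c2 y hy := (h.c2 y hy).trans hη

end EscW.On
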