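import Pool.Agent.EscW.OTDefs
import Pool.Agent.EscW.O4
import Pool.Agent.EscW.O5
import Pool.Agent.EscW.O6a

set_option autoImplicit false

/-!
Project EscW, part OT, module OT7: calibration of a given closed geodesic. (Same proof as O6 without `exists_closed`; read the header of O6.)
`u θ = deriv w θ` (`dw`). Constants: `8 ε1 ≤ α, β`; `rc < r`, `η` from `grad_lip`; `s1`, `η` from `far_u` (with `rc/4`), `far_neg`, `far_w` (with `rc/2`); `χ` of `exists_cut rc`; then `r0` small (`r0 < rc/4`), `η` small. `‖p‖, ‖p'‖ ≤ (α + β + 2 ε1) r0 + η` (`GrLip`, `grad_zero`). `S = Sl Φ w u`, `S' = fl`, `S 0 = 0`,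
`S (θ + 1) = S θ + S 1`, `|S' - ℓ| ≤ C (η + 2 r0)` (`val`). `hf_small`, `hf_fd`. The two cases of `le`, `only` as in O6.
-/

noncomputable section

namespace EscW.Ot

open Filter Topology Set EscF.T EscM EscMT MeasureTheory EscW.Ex EscW.Dn EscW.On
open scoped ContDiff

variable {d m k j n : ℕ}

theorem OT7_cd {F : Type*} [NormedAddCommGroup F] [NormedSpace ℝ F] {f f' : ℝ → F}
    (h : ∀ θ, HasDerivAt f (f' θ) θ) (hc : Continuous f') : ContDiff ℝ 1 f := by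
  rw [contDiff_one_iff_deriv]
  refine ⟨fun θ => (h θ).differentiableAt, ?_⟩
  have : deriv f = f' := funext fun θ => (h θ).deriv
  rw [this]
  exact hc

/-- the curve stays in the domain -/
theorem OT7_cont {F : Type*} [TopologicalSpace F] {g : ℝ × Vec k × Vec k → F} {r r0 : ℝ} (hr0 : r0 < r)
    (hg : ContinuousOn g (LD k r)) {w u : ℝ → Vec k} (hw : Continuous w) (hu : Continuous u)
    (hws : ∀ θ, ‖w θ‖ ≤ r0) (hus : ∀ θ, ‖u θ‖ ≤ r0) : Continuous fun θ => g (θ, w θ, u θ) := by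
  have h1 : Continuous fun θ : ℝ => ((θ, w θ, u θ) : ℝ × Vec k × Vec k) := by fun_prop
  exact hg.comp_continuous h1 fun θ => ⟨(hws θ).trans_lt hr0, (hus θ).trans_lt hr0⟩

/-- facts on the closed curve -/
theorem OT7_facts {Φ0 Φ : ℝ × Vec k → ℝ × Vec k → ℝ} {𝒜 : Set (ℝ × Vec k)} {r ℓ c c3 α β η r0 : ℝ}
    (hb : AnnBase Φ0 𝒜 r ℓ c c3 α β) (hΦ : AnnNear Φ0 Φ 𝒜 r η) (hr0 : r0 < r) {w u p : ℝ → Vec k}
    (hc : CurveAt Φ r0 w u p) :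
    Continuous (fl Φ w u) ∧ (∀ θ, fl Φ w u (θ + 1) = fl Φ w u θ) ∧
      (∀ θ, HasDerivAt (Sl Φ w u) (fl Φ w u θ) θ) ∧ (∀ θ, Sl Φ w u (θ + 1) = Sl Φ w u θ + Sl Φ w u 1) ∧
      (Continuous fun θ => gw (lg Φ) (θ, w θ, u θ)) ∧ (∀ θ, p (θ + 1) = p θ) := by
  have hwc : Continuous w := continuous_iff_continuousAt.2 fun θ => (hc.dw θ).continuousAt
  have hfc : Continuous (fl Φ w u) :=
    OT7_cont hr0 hΦ.smooth.continuousOn hwc hc.u_cont hc.w_small hc.u_small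
  have hlp : ∀ (θ : ℝ) (w u : Vec k), ‖w‖ < r → ‖u‖ < r → lg Φ (θ + 1, w, u) = lg Φ (θ, w, u) := by
    intro θ w u hw _
    exact hΦ.per θ w (1, u) (hb.tube θ w hw)
  have hfp : ∀ θ, fl Φ w u (θ + 1) = fl Φ w u θ := by
    intro θ
    simp only [fl, hc.w_per, hc.u_per]
    exact hlp θ _ _ ((hc.w_small θ).trans_lt hr0) ((hc.u_small θ).trans_lt hr0)
  have hii : ∀ a b : ℝ, IntervalIntegrable (fl Φ w u) volume a b := fun a b => hfc.intervalIntegrable a b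
  refine ⟨hfc, hfp, ?_, ?_, ?_, ?_⟩
  · intro θ
    exact intervalIntegral.integral_hasDerivAt_right (hii 0 θ)
      (hfc.stronglyMeasurableAtFilter _ _) hfc.continuousAt
  · intro θ
    have h1 : (∫ τ in (0:ℝ)..θ, fl Φ w u τ) + (∫ τ in θ..(θ + 1), fl Φ w u τ) =
        ∫ τ in (0:ℝ)..(θ + 1), fl Φ w u τ := intervalIntegral.integral_add_adjacent_intervals (hii _ _) (hii _ _)
    have h2 : (∫ τ in θ..(θ + 1), fl Φ w u τ) = ∫ τ in (0:ℝ)..(0 + 1), fl Φ w u τ :=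
      Function.Periodic.intervalIntegral_add_eq (f := fl Φ w u) (T := 1) hfp θ 0
    rw [zero_add] at h2
    show (∫ τ in (0:ℝ)..(θ + 1), fl Φ w u τ) = (∫ τ in (0:ℝ)..θ, fl Φ w u τ) + ∫ τ in (0:ℝ)..1, fl Φ w u τ
    rw [← h1, h2]
  · exact OT7_cont hr0 (grad_cont hΦ.smooth).1 hwc hc.u_cont hc.w_small hc.u_small
  · intro θ
    rw [hc.p_eq, hc.p_eq, hc.w_per, hc.u_per]
    exact (grad_per hlp ((hc.w_small θ).trans_lt hr0) ((hc.u_small θ).trans_lt hr0)).2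

theorem OT7_grad {L : ℝ × Vec k × Vec k → ℝ} {α β rc ε η r0 : ℝ} (hα : 0 ≤ α) (hβ : 0 ≤ β) (hε : 0 ≤ ε)
    (hrc : 0 ≤ rc) (hr0 : r0 ≤ rc) (hg : GrLip L α β rc ε) {θ : ℝ} {w u : Vec k} (hw : ‖w‖ ≤ r0)
    (hu : ‖u‖ ≤ r0) (h0 : ‖gw L (θ, 0, 0)‖ ≤ η ∧ ‖gu L (θ, 0, 0)‖ ≤ η) :
    ‖gw L (θ, w, u)‖ ≤ (α + β + 2 * ε) * r0 + η ∧ ‖gu L (θ, w, u)‖ ≤ (α + β + 2 * ε) * r0 + η := by
  have hr00 : 0 ≤ r0 := (norm_nonneg w).trans hw
  obtain ⟨h1, h2⟩ := hg θ w u 0 0 (hw.trans hr0) (hu.trans hr0) (by simpa using hrc) (by simpa using hrc)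
  simp only [smul_zero, sub_zero] at h1 h2
  have h3 : ε * (‖w‖ + ‖u‖) ≤ ε * (2 * r0) := by nlinarith
  constructor
  · have h4 : gw L (θ, w, u) = ((gw L (θ, w, u) - β • w) - gw L (θ, 0, 0)) + (β • w + gw L (θ, 0, 0)) := by abel
    rw [h4]
    refine (norm_add_le _ _).trans ?_
    have h5 : ‖β • w + gw L (θ, 0, 0)‖ ≤ β * r0 + η := by
      refine (norm_add_le _ _).trans (add_le_add ?_ h0.1)
      rw [norm_smul, Real.norm_of_nonneg hβ]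
      exact mul_le_mul_of_nonneg_left hw hβ
    nlinarith [mul_nonneg hα hr00]
  · have h4 : gu L (θ, w, u) = ((gu L (θ, w, u) - α • u) - gu L (θ, 0, 0)) + (α • u + gu L (θ, 0, 0)) := by abel
    rw [h4]
    refine (norm_add_le _ _).trans ?_
    have h5 : ‖α • u + gu L (θ, 0, 0)‖ ≤ α * r0 + η := by
      refine (norm_add_le _ _).trans (add_le_add ?_ h0.2)
      rw [norm_smul, Real.norm_of_nonneg hα]
      exact mul_le_mul_of_nonneg_left hu hα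
    nlinarith [mul_nonneg hβ hr00]

/-- the integral over a period is near `ℓ` -/
theorem OT7_mean {f : ℝ → ℝ} {ℓ C : ℝ} (h : ∀ θ, |f θ - ℓ| ≤ C) (hf : Continuous f) :
    |(∫ τ in (0:ℝ)..1, f τ) - ℓ| ≤ C := by
  have h1 : (∫ τ in (0:ℝ)..1, f τ) - ℓ = ∫ τ in (0:ℝ)..1, (f τ - ℓ) := by
    rw [intervalIntegral.integral_sub (hf.intervalIntegrable _ _) (by simp)]
    simp
  rw [h1]
  have h2 := intervalIntegral.norm_integral_le_of_norm_le_const (a := (0:ℝ)) (b := 1) (C := C)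
    (f := fun τ => f τ - ℓ) (fun τ _ => h τ)
  simpa using h2

/-- the derivative of `h` near the circle -/
theorem OT7_fd {χ : Vec k → ℝ} (hχ : ContDiff ℝ 1 χ) {S : ℝ → ℝ} (hS : ContDiff ℝ 1 S) {w p : ℝ → Vec k}
    (hw : ContDiff ℝ 1 w) (hp : ContDiff ℝ 1 p) (a : ℝ) {ρ : ℝ} (h1 : ∀ w, ‖w‖ < ρ → χ w = 1)
    {z : ℝ × Vec k} (hz : ‖z.2‖ < ρ) (ζ : ℝ × Vec k) :
    a * ζ.1 + fderiv ℝ (hf χ S a w p) z ζ =
      (deriv S z.1 + inner ℝ (deriv p z.1) (z.2 - w z.1) - inner ℝ (p z.1) (deriv w z.1)) * ζ.1 +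
        inner ℝ (p z.1) ζ.2 := by
  have h2 : fderiv ℝ χ z.2 = 0 := by
    have h3 : χ =ᶠ[𝓝 z.2] fun _ => (1:ℝ) := by
      filter_upwards [(isOpen_lt continuous_norm continuous_const).mem_nhds hz] with y hy
      exact h1 y hy
    rw [h3.fderiv_eq]
    simp
  rw [hf_fd hχ hS hw hp, h1 _ hz, h2, inner_sub_right (p z.1) ζ.2, inner_smul_right]
  simp only [zero_apply]
  ring

theorem OT7_main {Φ0 Φ : ℝ × Vec k → ℝ × Vec k → ℝ} {𝒜 : Set (ℝ × Vec k)} {r ℓ c c3 α β η r0 rc ε : ℝ}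
    (hb : AnnBase Φ0 𝒜 r ℓ c c3 α β) (hΦ : AnnNear Φ0 Φ 𝒜 r η) (hrc : 0 < rc) (hrcr : rc < r)
    (hε : 0 ≤ ε) (hεα : 8 * ε ≤ α) (hεβ : 8 * ε ≤ β) (hG : GrLip (lg Φ) α β rc ε) (hr0 : r0 < rc / 4)
    {w u p : ℝ → Vec k} (hc : CurveAt Φ r0 w u p) {z : ℝ × Vec k} (hz : z ∈ 𝒜) (hz2 : ‖z.2‖ < rc / 2)
    {A : ℝ} (hA : A = fl Φ w u z.1 + inner ℝ (gw (lg Φ) (z.1, w z.1, u z.1)) (z.2 - w z.1) -
      inner ℝ (p z.1) (u z.1))
    (hneg : ∀ ζ : ℝ × Vec k, ζ.1 ≤ 0 → ζ ≠ 0 → A * ζ.1 + inner ℝ (p z.1) ζ.2 < Φ z ζ)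
    (hfar : ∀ v : Vec k, rc / 4 ≤ ‖v‖ → A + inner ℝ (p z.1) v < Φ z (1, v)) {ζ : ℝ × Vec k} (hζ : ζ ≠ 0) :
    A * ζ.1 + inner ℝ (p z.1) ζ.2 ≤ Φ z ζ ∧
      (A * ζ.1 + inner ℝ (p z.1) ζ.2 = Φ z ζ → z.2 = w z.1) := by
  rcases le_or_gt ζ.1 0 with h0 | h0
  · have h1 := hneg ζ h0 hζ
    exact ⟨h1.le, fun h => absurd h h1.ne⟩
  set v : Vec k := ζ.1⁻¹ • ζ.2 with hv
  have hζv : ζ = ζ.1 • ((1, v) : ℝ × Vec k) := by
    ext1
    · simp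
    · simp [hv, smul_smul, mul_inv_cancel₀ h0.ne']
  have h2 : Φ z ζ = ζ.1 * Φ z (1, v) := by
    conv_lhs => rw [hζv]
    rw [hΦ.hom z hz (1, v) ζ.1 h0.le]
  have h3 : A * ζ.1 + inner ℝ (p z.1) ζ.2 = ζ.1 * (A + inner ℝ (p z.1) v) := by
    have h4 : ζ.2 = ζ.1 • v := by simp [hv, smul_smul, mul_inv_cancel₀ h0.ne']
    rw [h4, inner_smul_right]
    ring
  rw [h2, h3]
  rcases le_or_gt (rc / 4) ‖v‖ with h5 | h5
  · have h6 := hfar v h5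
    have h7 := mul_lt_mul_of_pos_left h6 h0
    exact ⟨h7.le, fun h => absurd h h7.ne⟩
  have hw : ‖w z.1‖ ≤ rc := (hc.w_small z.1).trans (by linarith)
  have hu : ‖u z.1‖ ≤ rc := (hc.u_small z.1).trans (by linarith)
  have h8 := joint_convex hΦ.smooth hrcr hεα hεβ hε hG (θ := z.1) hw hu (w' := z.2) (u' := v)
    (by linarith) (by linarith)
  have h9 : lg Φ (z.1, z.2, v) = Φ z (1, v) := rfl
  have h10 : A + inner ℝ (p z.1) v = lg Φ (z.1, w z.1, u z.1) +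
      inner ℝ (gw (lg Φ) (z.1, w z.1, u z.1)) (z.2 - w z.1) +
      inner ℝ (gu (lg Φ) (z.1, w z.1, u z.1)) (v - u z.1) := by
    rw [hA, ← hc.p_eq z.1, inner_sub_right (p z.1)]
    simp only [fl]
    ring
  rw [h9] at h8
  have hα : 0 < α := hb.α_pos
  have hβ : 0 < β := hb.β_pos
  have h11 : A + inner ℝ (p z.1) v + β / 4 * ‖z.2 - w z.1‖ ^ 2 + α / 4 * ‖v - u z.1‖ ^ 2 ≤ Φ z (1, v) := by
    rw [h10]; exact h8
  constructor
  · refine mul_le_mul_of_nonneg_left ?_ h0.le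
    nlinarith [sq_nonneg ‖z.2 - w z.1‖, sq_nonneg ‖v - u z.1‖, mul_nonneg hβ.le (sq_nonneg ‖z.2 - w z.1‖),
      mul_nonneg hα.le (sq_nonneg ‖v - u z.1‖)]
  · intro h
    have h12 : A + inner ℝ (p z.1) v = Φ z (1, v) := mul_left_cancel₀ h0.ne' h
    have h13 : β / 4 * ‖z.2 - w z.1‖ ^ 2 ≤ 0 := by
      nlinarith [mul_nonneg hα.le (sq_nonneg ‖v - u z.1‖)]
    have h14 : ‖z.2 - w z.1‖ ^ 2 ≤ 0 := by
      by_contra h15
      rw [not_le] at h15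
      nlinarith [mul_pos hβ h15]
    have h15 : ‖z.2 - w z.1‖ = 0 := by
      have := sq_nonneg ‖z.2 - w z.1‖
      exact pow_eq_zero_iff (two_ne_zero) |>.1 (le_antisymm h14 this)
    exact sub_eq_zero.1 (norm_eq_zero.1 h15)

theorem ann_of_curve {Φ0 : ℝ × Vec k → ℝ × Vec k → ℝ} {𝒜 : Set (ℝ × Vec k)} {r ℓ c c3 α β : ℝ}
    (hb : AnnBase Φ0 𝒜 r ℓ c c3 α β) {s : ℝ} (hs : 0 < s) : ∃ (χ : Vec k → ℝ) (r0 η : ℝ), ContDiff ℝ 1 χ ∧
    (∃ R : ℝ, ∀ w, R ≤ ‖w‖ → χ w = 0) ∧ 0 < r0 ∧ r0 < r ∧ 0 < η ∧ ∀ Φ, AnnNear Φ0 Φ 𝒜 r η →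
      ∀ w u p : ℝ → Vec k, CurveAt Φ r0 w u p → AnnCal Φ 𝒜 s ℓ (Sl Φ w u 1) w (hl χ Φ w u p) := by
  have hα := hb.α_pos
  have hβ := hb.β_pos
  obtain ⟨ε, hε0, hεα, hεβ⟩ : ∃ ε : ℝ, 0 < ε ∧ 8 * ε ≤ α ∧ 8 * ε ≤ β :=
    ⟨min α β / 8, by positivity, by linarith [min_le_left α β], by linarith [min_le_right α β]⟩
  obtain ⟨rc, hrc, hrcr, η1, hη1, hG⟩ := grad_lip hb hε0
  obtain ⟨s1, η2, hs1, hη2, hfu⟩ := far_u hb (rc := rc / 4) (by positivity)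
  obtain ⟨s2, η3, hs2, hη3, hfn⟩ := far_neg hb
  obtain ⟨s3, η4, hs3, hη4, hfw⟩ := far_w hb (rc := rc / 2) (by positivity)
  obtain ⟨χ, Cχ, hχ, hCχ, h01, hdχ, hχ1, hχ0⟩ := exists_cut (k := k) hrc
  obtain ⟨Ch, hCh, hsm⟩ := hf_small hrc hχ h01 hdχ hχ0
  obtain ⟨Cv, hCv, hval⟩ := val hb
  set K : ℝ := α + β + 2 * ε with hK
  have hK0 : 0 < K := by positivity
  set M : ℝ := 1 + K + 6 * Cv with hM
  have hM1 : 1 ≤ M := by rw [hM]; linarith [mul_pos (by norm_num : (0:ℝ) < 6) hCv]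
  set D : ℝ := M * (5 + Ch + rc) with hD
  have hD5 : 5 ≤ D := by
    have h1 := mul_le_mul_of_nonneg_right hM1 (by positivity : (0:ℝ) ≤ 5 + Ch + rc)
    rw [hD]; linarith
  set B : ℝ := min s (min s1 (min s2 (min s3 (min 1 rc)))) with hB
  have hB0 : 0 < B := by rw [hB]; positivity
  have hBs : B ≤ s := min_le_left _ _
  have hBs1 : B ≤ s1 := (min_le_right _ _).trans (min_le_left _ _)
  have hBs2 : B ≤ s2 := (min_le_right _ _).trans ((min_le_right _ _).trans (min_le_left _ _))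
  have hBs3 : B ≤ s3 :=
    (min_le_right _ _).trans ((min_le_right _ _).trans ((min_le_right _ _).trans (min_le_left _ _)))
  have hBm : B ≤ min 1 rc :=
    (min_le_right _ _).trans ((min_le_right _ _).trans ((min_le_right _ _).trans (min_le_right _ _)))
  have hB1 : B ≤ 1 := hBm.trans (min_le_left _ _)
  have hBrc : B ≤ rc := hBm.trans (min_le_right _ _)
  obtain ⟨r0, hr0, hDr0⟩ : ∃ r0 : ℝ, 0 < r0 ∧ D * r0 = B / 8 :=
    ⟨B / 8 / D, by positivity, by field_simp⟩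
  have hr0B : r0 ≤ B / 40 := by
    have h1 := mul_le_mul_of_nonneg_right hD5 hr0.le
    linarith
  have hr0rc : r0 < rc / 4 := by linarith
  have hr0r : r0 < r := by linarith
  have hr01 : r0 ≤ 1 := by linarith
  set σ : ℝ := M * r0 with hσ
  have hσ0 : 0 < σ := by positivity
  have hσD : σ * (5 + Ch + rc) = B / 8 := by rw [hσ, ← hDr0, hD]; ring
  have hσ5 : 5 * σ ≤ B / 8 := by linarith [mul_nonneg hσ0.le hCh.le, mul_nonneg hσ0.le hrc.le]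
  have hr0σ : r0 ≤ σ := le_mul_of_one_le_left hr0.le hM1
  refine ⟨χ, r0, min r0 (min η1 (min η2 (min η3 η4))), hχ, ⟨rc, hχ0⟩, hr0, hr0r, by positivity, ?_⟩
  intro Φ hΦ w u p hc
  have hnm : ∀ {η'}, min r0 (min η1 (min η2 (min η3 η4))) ≤ η' → AnnNear Φ0 Φ 𝒜 r η' :=
    fun h => near_mono hb.nonneg hΦ h
  have hΦ1 : AnnNear Φ0 Φ 𝒜 r η1 := hnm ((min_le_right _ _).trans (min_le_left _ _))
  have hΦ2 : AnnNear Φ0 Φ 𝒜 r η2 := hnm ((min_le_right _ _).trans ((min_le_right _ _).trans (min_le_left _ _)))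
  have hΦ3 : AnnNear Φ0 Φ 𝒜 r η3 := hnm ((min_le_right _ _).trans
    ((min_le_right _ _).trans ((min_le_right _ _).trans (min_le_left _ _))))
  have hΦ4 : AnnNear Φ0 Φ 𝒜 r η4 := hnm ((min_le_right _ _).trans
    ((min_le_right _ _).trans ((min_le_right _ _).trans (min_le_right _ _))))
  have hΦr : AnnNear Φ0 Φ 𝒜 r r0 := hnm (min_le_left _ _)
  have hGr := hG Φ hΦ1
  obtain ⟨hfc, hfp, hSd, hSp, hgc, hpp⟩ := OT7_facts hb hΦr hr0r hc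
  have hgr : ∀ θ, ‖gw (lg Φ) (θ, w θ, u θ)‖ ≤ σ ∧ ‖p θ‖ ≤ σ := by
    intro θ
    have h1 := OT7_grad hα.le hβ.le hε0.le hrc.le (by linarith : r0 ≤ rc) hGr (hc.w_small θ) (hc.u_small θ)
      (grad_zero hb hΦr θ)
    have h2 : K * r0 + r0 ≤ σ := by
      rw [hσ, hM]; linarith [mul_pos hCv hr0]
    rw [hc.p_eq θ]
    exact ⟨h1.1.trans h2, h1.2.trans h2⟩
  have hvl : ∀ θ, |fl Φ w u θ - ℓ| ≤ 3 * Cv * r0 := by
    intro θ
    have h1 := hval Φ r0 hr0.le hΦr θ (w θ) (u θ) ((hc.w_small θ).trans_lt hr0r) ((hc.u_small θ).trans_lt hr0r)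
    have h2 := mul_le_mul_of_nonneg_left (add_le_add (add_le_add (le_refl r0) (hc.w_small θ)) (hc.u_small θ)) hCv.le
    have h3 : |fl Φ w u θ - ℓ| ≤ Cv * (r0 + ‖w θ‖ + ‖u θ‖) := h1
    linarith
  have h3σ : 2 * (3 * Cv * r0) ≤ σ := by
    rw [hσ, hM]; linarith [mul_pos hK0 hr0]
  have hCr : 0 < 3 * Cv * r0 := by positivity
  have ha : |Sl Φ w u 1 - ℓ| ≤ 3 * Cv * r0 := OT7_mean hvl hfc
  have hwd : ∀ θ, deriv w θ = u θ := fun θ => (hc.dw θ).deriv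
  have hpd : ∀ θ, deriv p θ = gw (lg Φ) (θ, w θ, u θ) := fun θ => (hc.dp θ).deriv
  have hSd' : ∀ θ, deriv (Sl Φ w u) θ = fl Φ w u θ := fun θ => (hSd θ).deriv
  have hw1 : ContDiff ℝ 1 w := OT7_cd hc.dw hc.u_cont
  have hp1 : ContDiff ℝ 1 p := OT7_cd hc.dp hgc
  have hS1 : ContDiff ℝ 1 (Sl Φ w u) := OT7_cd hSd hfc
  have hh : hl χ Φ w u p = hf χ (Sl Φ w u) (Sl Φ w u 1) w p := rfl
  have hDh : ∀ z, ‖fderiv ℝ (hl χ Φ w u p) z‖ ≤ Ch * σ := by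
    rw [hh]
    refine hsm σ (Sl Φ w u 1) (Sl Φ w u) w p hσ0.le (by linarith) hS1 hw1 hp1 (by simp [Sl]) hSp hc.w_per hpp
      ?_ (fun θ => (hc.w_small θ).trans hr0σ) (fun θ => by rw [hwd]; exact (hc.u_small θ).trans hr0σ)
      (fun θ => (hgr θ).2) (fun θ => by rw [hpd]; exact (hgr θ).1)
    intro θ
    rw [hSd']
    have h1 : fl Φ w u θ - Sl Φ w u 1 = (fl Φ w u θ - ℓ) - (Sl Φ w u 1 - ℓ) := by ring
    rw [h1]
    refine (abs_sub _ _).trans ?_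
    linarith [hvl θ]
  have hChσ : Ch * σ ≤ B / 8 := by linarith [mul_nonneg hσ0.le hrc.le]
  -- the main inequality
  have key : ∀ z ∈ 𝒜, ∀ ζ : ℝ × Vec k, ζ ≠ 0 →
      Sl Φ w u 1 * ζ.1 + fderiv ℝ (hl χ Φ w u p) z ζ ≤ Φ z ζ ∧
        (Sl Φ w u 1 * ζ.1 + fderiv ℝ (hl χ Φ w u p) z ζ = Φ z ζ → z.2 = w z.1) := by
    intro z hz ζ hζ
    rcases le_or_gt (rc / 2) ‖z.2‖ with h | h
    · set b : ℝ × Vec k →L[ℝ] ℝ := (Sl Φ w u 1 - ℓ) • ContinuousLinearMap.fst ℝ ℝ (Vec k) +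
        fderiv ℝ (hl χ Φ w u p) z with hbd
      have h1 : ‖b‖ ≤ s3 := by
        refine (norm_add_le _ _).trans ?_
        have h2 : ‖(Sl Φ w u 1 - ℓ) • ContinuousLinearMap.fst ℝ ℝ (Vec k)‖ ≤ σ := by
          rw [norm_smul]
          refine (mul_le_mul ha (ContinuousLinearMap.norm_fst_le ℝ ℝ (Vec k)) (norm_nonneg _) hCr.le).trans ?_
          linarith
        have h3 := hDh z
        linarith
      have h2 := hfw Φ hΦ4 z hz h b ζ h1 hζ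
      have h3 : ℓ * ζ.1 + b ζ = Sl Φ w u 1 * ζ.1 + fderiv ℝ (hl χ Φ w u p) z ζ := by
        simp only [hbd, _root_.add_apply, _root_.smul_apply,
          ContinuousLinearMap.coe_fst', smul_eq_mul]
        ring
      rw [h3] at h2
      exact ⟨h2.le, fun h => absurd h h2.ne⟩
    · obtain ⟨A, hA⟩ : ∃ A, A = fl Φ w u z.1 + inner ℝ (gw (lg Φ) (z.1, w z.1, u z.1)) (z.2 - w z.1) -
        inner ℝ (p z.1) (u z.1) := ⟨_, rfl⟩
      have h1 : Sl Φ w u 1 * ζ.1 + fderiv ℝ (hl χ Φ w u p) z ζ = A * ζ.1 + inner ℝ (p z.1) ζ.2 := by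
        rw [hh, OT7_fd hχ hS1 hw1 hp1 _ hχ1 h, hSd', hpd, hwd, hA]
      rw [h1]
      have hAℓ : |A - ℓ| ≤ B / 8 := by
        have h2 : A - ℓ = (fl Φ w u z.1 - ℓ) + inner ℝ (gw (lg Φ) (z.1, w z.1, u z.1)) (z.2 - w z.1) -
          inner ℝ (p z.1) (u z.1) := by rw [hA]; ring
        have h3 : |(inner ℝ (gw (lg Φ) (z.1, w z.1, u z.1)) (z.2 - w z.1) : ℝ)| ≤ σ * (rc / 2 + r0) := by
          refine (abs_real_inner_le_norm _ _).trans ?_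
          refine mul_le_mul (hgr z.1).1 ?_ (norm_nonneg _) hσ0.le
          refine (norm_sub_le _ _).trans ?_
          linarith [hc.w_small z.1]
        have h4 : |(inner ℝ (p z.1) (u z.1) : ℝ)| ≤ σ * r0 := by
          refine (abs_real_inner_le_norm _ _).trans ?_
          exact mul_le_mul (hgr z.1).2 (hc.u_small z.1) (norm_nonneg _) hσ0.le
        rw [h2]
        have h5 := abs_sub ((fl Φ w u z.1 - ℓ) + inner ℝ (gw (lg Φ) (z.1, w z.1, u z.1)) (z.2 - w z.1))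
          (inner ℝ (p z.1) (u z.1))
        have h6 := abs_add_le (fl Φ w u z.1 - ℓ) (inner ℝ (gw (lg Φ) (z.1, w z.1, u z.1)) (z.2 - w z.1))
        have h7 := hvl z.1
        have h8 : σ * r0 ≤ σ := mul_le_of_le_one_right hσ0.le hr01
        linarith [mul_nonneg hσ0.le hCh.le, mul_nonneg hσ0.le hrc.le]
      have hpσ : ‖p z.1‖ ≤ B / 8 := ((hgr z.1).2).trans (by linarith)
      refine OT7_main hb hΦr hrc hrcr hε0.le hεα hεβ hGr hr0rc hc hz h hA ?_ ?_ hζ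
      · intro ζ' h0 hζ'
        exact hfn Φ hΦ3 z hz A (p z.1) ζ' (by linarith) (by linarith) h0 hζ'
      · intro v hv
        exact hfu Φ hΦ2 z hz A (p z.1) v (by linarith) (by linarith) hv
  refine ⟨hw1, hc.w_per, fun θ => (hc.w_small θ).trans_lt (by linarith), ?_, ?_, by linarith, ?_, ?_, ?_, ?_⟩
  · rw [hh]; exact hf_smooth hχ hS1 hw1 hp1 _
  · intro θ v
    rw [hh]; exact hf_per χ hSp hc.w_per hpp θ v
  · intro z
    exact (hDh z).trans_lt (by linarith)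
  · intro z hz ζ
    rcases eq_or_ne ζ 0 with h0 | h0
    · subst h0
      have h1 := hΦr.hom z hz 0 0 le_rfl
      simp only [smul_zero, zero_mul] at h1
      rw [h1]
      simp
    · exact (key z hz ζ h0).1
  · intro z hz ζ hζ h
    exact (key z hz ζ hζ).2 h
  · intro θ
    have h1 : ‖((θ, w θ) : ℝ × Vec k).2‖ < rc / 2 := (hc.w_small θ).trans_lt (by linarith)
    have h2 := OT7_fd hχ hS1 hw1 hp1 (Sl Φ w u 1) hχ1 h1 (1, deriv w θ)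
    rw [hh]
    simp only [mul_one] at h2
    rw [h2, hSd', hwd]
    simp [fl, lg]

end EscW.Ot
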