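import Pool.Agent.EscW.FO10
import Pool.Agent.EscW.FO6
import Pool.Agent.EscW.OT7

set_option autoImplicit false

/-!
Project EscW, part FO, module FO11: the function `h` is near `h0`.
`hF - h0 = χ(v) E`, `E = (Sl θ - (1 - ε) ∫₀^θ en) - θ (Sl 1 - (1 - ε) An) + ⟪p - (1 - ε) pn, v⟫ - ⟪p, w⟫`. `fl θ = lg (Ψ t) (θ, w, u)` is near `(1 - ε) en`, `p = gu (lg (Ψ t)) (θ, w, u)` near `(1 - ε) pn`, `p' = gw (lg (Ψ t)) (θ, w, u)` near `(1 - ε) pn'`: `c0`, `c1`, `lg (Φ0 t) = (1 - ε) bl` on the tube (`FBase.tube`),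
`bl_grad`, `bl_cont` (or smoothness and compactness), for `‖w‖, ‖u‖ ≤ r0` small, `η` small, uniformly in `t`, `θ`. `E` has period one in `θ` (`Sl (θ + 1) = Sl θ + Sl 1`), so it is bounded by its values for `θ ∈ [0,1]`, and so is its derivative: small for `‖v‖ ≤ R`. `fl > 0`: `en` has a positive minimum (`bounds`).
Regularity: `Sl` and `p`, `w` are `C¹` in `θ` (`CurveAt`), `h0` is `C¹`.
-/

noncomputable section

namespace EscW.Fo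

open Filter Topology Set EscF.T EscM EscMT MeasureTheory EscW.Ex EscW.Dn EscW.On EscW.Ot EscW.Fn
open scoped ContDiff

variable {d m k j n : ℕ}

/-- uniform continuity at `(w, u) = 0` -/
theorem FO11_unif {E : Type*} [NormedAddCommGroup E] {G : ℝ × (ℝ × Vec k × Vec k) → E} {r1 : ℝ} (hr1 : 0 < r1)
    (hG : ContinuousOn G {y | ‖y.2.2.1‖ < r1})
    (hpt : ∀ (t θ : ℝ) (w u : Vec k), ‖w‖ < r1 → G (t + 1, θ, w, u) = G (t, θ, w, u))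
    (hpθ : ∀ (t θ : ℝ) (w u : Vec k), ‖w‖ < r1 → G (t, θ + 1, w, u) = G (t, θ, w, u)) {s : ℝ} (hs : 0 < s) :
    ∃ r0 : ℝ, 0 < r0 ∧ ∀ (t θ : ℝ) (w u : Vec k), ‖w‖ ≤ r0 → ‖u‖ ≤ r0 →
      ‖G (t, θ, w, u) - G (t, θ, 0, 0)‖ ≤ s := by
  have hK : IsCompact (Icc (0:ℝ) 1 ×ˢ (Icc (0:ℝ) 1 ×ˢ
      (Metric.closedBall (0 : Vec k) (r1 / 2) ×ˢ Metric.closedBall (0 : Vec k) 1))) :=
    isCompact_Icc.prod (isCompact_Icc.prod ((isCompact_closedBall _ _).prod (isCompact_closedBall _ _)))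
  have hsub : (Icc (0:ℝ) 1 ×ˢ (Icc (0:ℝ) 1 ×ˢ
      (Metric.closedBall (0 : Vec k) (r1 / 2) ×ˢ Metric.closedBall (0 : Vec k) 1))) ⊆
      {y : ℝ × (ℝ × Vec k × Vec k) | ‖y.2.2.1‖ < r1} := by
    intro y hy
    have h1 : ‖y.2.2.1‖ ≤ r1 / 2 := mem_closedBall_zero_iff.1 hy.2.2.1
    exact lt_of_le_of_lt h1 (by linarith)
  have hu := hK.uniformContinuousOn_of_continuous (hG.mono hsub)
  rw [Metric.uniformContinuousOn_iff] at hu
  obtain ⟨δ, hδ, hu⟩ := hu s hs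
  refine ⟨min (δ / 2) (min (r1 / 2) 1), by positivity, ?_⟩
  intro t θ w u hw hu'
  have hp : Ot.Per2 (fun (t θ : ℝ) (q : {q : Vec k × Vec k // ‖q.1‖ < r1}) => G (t, θ, q.1.1, q.1.2)) :=
    ⟨fun t θ => funext fun q => hpt t θ _ _ q.2, fun t θ => funext fun q => hpθ t θ _ _ q.2⟩
  obtain ⟨t', ht', θ', hθ', he⟩ := FN1_red hp t θ
  have hwδ : ‖w‖ ≤ δ / 2 := hw.trans (min_le_left _ _)
  have huδ : ‖u‖ ≤ δ / 2 := hu'.trans (min_le_left _ _)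
  have hw1 : ‖w‖ ≤ r1 / 2 := hw.trans ((min_le_right _ _).trans (min_le_left _ _))
  have hu1 : ‖u‖ ≤ 1 := hu'.trans ((min_le_right _ _).trans (min_le_right _ _))
  have h1 : G (t, θ, w, u) = G (t', θ', w, u) := congrFun he ⟨(w, u), lt_of_le_of_lt hw1 (by linarith)⟩
  have h2 : G (t, θ, 0, 0) = G (t', θ', 0, 0) := congrFun he ⟨(0, 0), by
    show ‖(0 : Vec k)‖ < r1
    rw [norm_zero]; exact hr1⟩
  rw [h1, h2, ← dist_eq_norm]
  refine (hu (t', θ', w, u) ⟨ht', hθ', mem_closedBall_zero_iff.2 hw1, mem_closedBall_zero_iff.2 hu1⟩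
    (t', θ', 0, 0) ⟨ht', hθ', Metric.mem_closedBall_self (by positivity),
      Metric.mem_closedBall_self zero_le_one⟩ ?_).le
  rw [Prod.dist_eq, Prod.dist_eq, Prod.dist_eq]
  simp only [dist_self, dist_zero_right]
  refine max_lt hδ (max_lt hδ (max_lt ?_ ?_)) <;> linarith

theorem FO11_fd {Φ : ℝ → ℝ × Vec k → ℝ × Vec k → ℝ} {r1 : ℝ} (h : LocFin Φ r1) (K : ℝ)
    {y : ℝ × (ℝ × Vec k × Vec k)} (hy : ‖y.2.2.1‖ < r1) :
    fderiv ℝ (bl Φ K y.1) y.2 =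
      (fderiv ℝ (fun y : ℝ × (ℝ × Vec k × Vec k) => bl Φ K y.1 y.2) y).comp
        (ContinuousLinearMap.inr ℝ ℝ (ℝ × Vec k × Vec k)) := by
  have h1 : DifferentiableAt ℝ (fun y : ℝ × (ℝ × Vec k × Vec k) => bl Φ K y.1 y.2) (y.1, y.2) :=
    ((bl_smooth h K).contDiffAt ((FN1_open r1).mem_nhds hy)).differentiableAt (by norm_num)
  have h2 := h1.hasFDerivAt.comp y.2 (hasFDerivAt_prodMk_right (𝕜 := ℝ) y.1 y.2)
  exact h2.fderiv

theorem FO11_slice {Φ : ℝ → ℝ × Vec k → ℝ × Vec k → ℝ} {r1 : ℝ} (h : LocFin Φ r1) (K t : ℝ)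
    {y : ℝ × Vec k × Vec k} (hy : ‖y.2.1‖ < r1) : DifferentiableAt ℝ (bl Φ K t) y := by
  have h1 : ContDiffAt ℝ ∞ (fun y : ℝ × (ℝ × Vec k × Vec k) => bl Φ K y.1 y.2) (t, y) :=
    (bl_smooth h K).contDiffAt ((FN1_open r1).mem_nhds hy)
  have h2 : ContDiffAt ℝ ∞ (fun z : ℝ × Vec k × Vec k => ((t, z) : ℝ × (ℝ × Vec k × Vec k))) y :=
    contDiffAt_const.prodMk contDiffAt_id
  exact (h1.comp y h2).differentiableAt (by norm_num)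

/-- the Lagrangian `bl` and its derivative are uniformly continuous at the curve -/
theorem FO11_bl {Φ : ℝ → ℝ × Vec k → ℝ × Vec k → ℝ} {r1 : ℝ} (h : LocFin Φ r1) (K : ℝ) {s : ℝ} (hs : 0 < s) :
    ∃ r0 : ℝ, 0 < r0 ∧ ∀ (t θ : ℝ) (w u : Vec k), ‖w‖ ≤ r0 → ‖u‖ ≤ r0 →
      |bl Φ K t (θ, w, u) - en Φ t θ| ≤ s ∧
      ‖fderiv ℝ (bl Φ K t) (θ, w, u) - fderiv ℝ (bl Φ K t) (θ, 0, 0)‖ ≤ s := by
  have hG1 : ContinuousOn (fun y : ℝ × (ℝ × Vec k × Vec k) => bl Φ K y.1 y.2) {y | ‖y.2.2.1‖ < r1} :=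
    (bl_smooth h K).continuousOn
  have hG2 : ContinuousOn (fun y : ℝ × (ℝ × Vec k × Vec k) => fderiv ℝ (bl Φ K y.1) y.2)
      {y | ‖y.2.2.1‖ < r1} := by
    have h1 : ContinuousOn (fun y : ℝ × (ℝ × Vec k × Vec k) =>
        (fderiv ℝ (fun y : ℝ × (ℝ × Vec k × Vec k) => bl Φ K y.1 y.2) y).comp
          (ContinuousLinearMap.inr ℝ ℝ (ℝ × Vec k × Vec k))) {y | ‖y.2.2.1‖ < r1} :=
      ((bl_smooth h K).continuousOn_fderiv_of_isOpen (FN1_open r1) (by simp)).clm_comp continuousOn_const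
    exact h1.congr fun y hy => FO11_fd h K hy
  have ho : IsOpen {z : ℝ × Vec k × Vec k | ‖z.2.1‖ < r1} := FO5_open k r1
  obtain ⟨a, ha, h1⟩ := FO11_unif h.pos_r hG1
    (fun t θ w u hw => (bl_per h K t (θ, w, u) hw).1) (fun t θ w u hw => (bl_per h K t (θ, w, u) hw).2) hs
  obtain ⟨b, hb, h2⟩ := FO11_unif h.pos_r hG2
    (fun t θ w u hw => by
      have he : bl Φ K (t + 1) =ᶠ[𝓝 (θ, w, u)] bl Φ K t := by
        filter_upwards [ho.mem_nhds (show ‖((θ, w, u) : ℝ × Vec k × Vec k).2.1‖ < r1 from hw)] with y hy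
        exact (bl_per h K t y hy).1
      exact he.fderiv_eq)
    (fun t θ w u hw => by
      show fderiv ℝ (bl Φ K t) (θ + 1, w, u) = fderiv ℝ (bl Φ K t) (θ, w, u)
      have e : ((θ + 1, w, u) : ℝ × Vec k × Vec k) = (θ, w, u) + ((1:ℝ), 0) := by simp
      rw [e, ← fderiv_comp_add_right]
      apply Filter.EventuallyEq.fderiv_eq
      filter_upwards [ho.mem_nhds (show ‖((θ, w, u) : ℝ × Vec k × Vec k).2.1‖ < r1 from hw)] with y hy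
      have e' : y + ((1:ℝ), (0 : Vec k × Vec k)) = (y.1 + 1, y.2) := by ext1 <;> simp
      rw [e']
      exact (bl_per h K t y hy).2) hs
  refine ⟨min a b, by positivity, fun t θ w u hw hu => ⟨?_, ?_⟩⟩
  · have h3 := h1 t θ w u (hw.trans (min_le_left _ _)) (hu.trans (min_le_left _ _))
    rw [Real.norm_eq_abs] at h3
    have h4 : bl Φ K t (θ, 0, 0) = en Φ t θ := (bl_grad h K t θ).1
    have h5 : |bl Φ K t (θ, w, u) - bl Φ K t (θ, 0, 0)| ≤ s := h3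
    rwa [h4] at h5
  · exact h2 t θ w u (hw.trans (min_le_right _ _)) (hu.trans (min_le_right _ _))

theorem FO11_I (k : ℕ) : ‖(ContinuousLinearMap.inr ℝ ℝ (Vec k × Vec k)).comp
      (ContinuousLinearMap.inr ℝ (Vec k) (Vec k))‖ ≤ 1 ∧
    ‖(ContinuousLinearMap.inr ℝ ℝ (Vec k × Vec k)).comp
      (ContinuousLinearMap.inl ℝ (Vec k) (Vec k))‖ ≤ 1 := by
  constructor
  · refine ContinuousLinearMap.opNorm_le_bound _ zero_le_one fun v => ?_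
    show ‖((0, 0, v) : ℝ × Vec k × Vec k)‖ ≤ 1 * ‖v‖
    simp [Prod.norm_def]
  · refine ContinuousLinearMap.opNorm_le_bound _ zero_le_one fun v => ?_
    show ‖((0, v, 0) : ℝ × Vec k × Vec k)‖ ≤ 1 * ‖v‖
    simp [Prod.norm_def]

theorem FO11_grad (A B : (ℝ × Vec k × Vec k) →L[ℝ] ℝ) (c : ℝ) (I : Vec k →L[ℝ] ℝ × Vec k × Vec k)
    (hI : ‖I‖ ≤ 1) :
    ‖(InnerProductSpace.toDual ℝ (Vec k)).symm (A.comp I) -
      c • (InnerProductSpace.toDual ℝ (Vec k)).symm (B.comp I)‖ ≤ ‖A - c • B‖ := by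
  have e : (InnerProductSpace.toDual ℝ (Vec k)).symm (A.comp I) -
      c • (InnerProductSpace.toDual ℝ (Vec k)).symm (B.comp I) =
      (InnerProductSpace.toDual ℝ (Vec k)).symm ((A - c • B).comp I) := by
    have e1 : (A - c • B).comp I = A.comp I - c • B.comp I := by ext v; simp
    have e2 : (InnerProductSpace.toDual ℝ (Vec k)).symm (c • B.comp I) =
        c • (InnerProductSpace.toDual ℝ (Vec k)).symm (B.comp I) := by simp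
    rw [e1, map_sub, e2]
  rw [e, LinearIsometryEquiv.norm_map]
  refine (ContinuousLinearMap.opNorm_comp_le _ _).trans ?_
  exact mul_le_of_le_one_right (norm_nonneg _) hI

theorem FO11_gu (L L' : ℝ × Vec k × Vec k → ℝ) (y y' : ℝ × Vec k × Vec k) (c : ℝ) :
    ‖gu L y - c • gu L' y'‖ ≤ ‖fderiv ℝ L y - c • fderiv ℝ L' y'‖ ∧
    ‖gw L y - c • gw L' y'‖ ≤ ‖fderiv ℝ L y - c • fderiv ℝ L' y'‖ :=
  ⟨FO11_grad _ _ c _ (FO11_I k).1, FO11_grad _ _ c _ (FO11_I k).2⟩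

theorem FO11_sm {Φ0 Ψ : ℝ → ℝ × Vec k → ℝ × Vec k → ℝ} {𝒜 : Set (ℝ × Vec k)} {r η : ℝ}
    (hΨ : NearP Φ0 Ψ 𝒜 r η) (t : ℝ) : ContDiffOn ℝ 2 (lg (Ψ t)) (LD k r) := by
  have h1 : ContDiff ℝ 2 (fun z : ℝ × Vec k × Vec k => ((t, z) : ℝ × (ℝ × Vec k × Vec k))) := by fun_prop
  exact hΨ.smooth.comp h1.contDiffOn fun y hy => hy

/-- the Lagrangian near the curve -/
theorem FO11_near {Φ Φ0 : ℝ → ℝ × Vec k → ℝ × Vec k → ℝ} {K ε r1 r c C : ℝ} {𝒜 : Set (ℝ × Vec k)}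
    (hb : FBase Φ K ε Φ0 𝒜 r1 r c C) {s : ℝ} (hs : 0 < s) : ∃ r0 η : ℝ, 0 < r0 ∧ r0 < r ∧ r0 ≤ s ∧ 0 < η ∧
    ∀ Ψ : ℝ → ℝ × Vec k → ℝ × Vec k → ℝ, NearP Φ0 Ψ 𝒜 r η → ∀ (t θ : ℝ) (w u : Vec k), ‖w‖ ≤ r0 →
      ‖u‖ ≤ r0 → |lg (Ψ t) (θ, w, u) - (1 - ε) * en Φ t θ| ≤ s ∧
        ‖gu (lg (Ψ t)) (θ, w, u) - (1 - ε) • pn Φ t θ‖ ≤ s ∧
        ‖gw (lg (Ψ t)) (θ, w, u) - (1 - ε) • deriv (pn Φ t) θ‖ ≤ s := by
  have hε := hb.ε_pos
  have hε4 := hb.ε_le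
  have hr := hb.r_pos
  have hrr := hb.r_le
  have hr1 := hb.loc.pos_r
  obtain ⟨r0, hr0, h0⟩ := FO11_bl hb.loc K (s := s / 2) (by positivity)
  refine ⟨min r0 (min (r / 2) (min s 1)), s / 4, by positivity, ?_, ?_, by positivity, ?_⟩
  · exact lt_of_le_of_lt ((min_le_right _ _).trans (min_le_left _ _)) (by linarith)
  · exact (min_le_right _ _).trans ((min_le_right _ _).trans (min_le_left _ _))
  intro Ψ hΨ t θ w u hw hu
  have hw0 : ‖w‖ ≤ r0 := hw.trans (min_le_left _ _)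
  have hu0 : ‖u‖ ≤ r0 := hu.trans (min_le_left _ _)
  have hwr : ‖w‖ < r := lt_of_le_of_lt (hw.trans ((min_le_right _ _).trans (min_le_left _ _))) (by linarith)
  have hur : ‖u‖ < r := lt_of_le_of_lt (hu.trans ((min_le_right _ _).trans (min_le_left _ _))) (by linarith)
  have hu1 : ‖u‖ ≤ 1 := hu.trans ((min_le_right _ _).trans ((min_le_right _ _).trans (min_le_right _ _)))
  obtain ⟨h1, h2⟩ := h0 t θ w u hw0 hu0
  have hy : ((θ, w, u) : ℝ × Vec k × Vec k) ∈ LD k r := ⟨hwr, hur⟩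
  have ho : IsOpen {z : ℝ × Vec k × Vec k | ‖z.2.1‖ < r} := FO5_open k r
  have hbl : ∀ y : ℝ × Vec k × Vec k, ‖y.2.1‖ < r → lg (Φ0 t) y = (1 - ε) * bl Φ K t y :=
    fun y hy => hb.tube t (y.1, y.2.1) (1, y.2.2) hy
  have hd0 : DifferentiableAt ℝ (bl Φ K t) (θ, w, u) :=
    FO11_slice hb.loc K t (lt_of_lt_of_le hwr (by linarith))
  have hfd : HasFDerivAt (lg (Φ0 t)) ((1 - ε) • fderiv ℝ (bl Φ K t) (θ, w, u)) (θ, w, u) := by
    have h3 : HasFDerivAt (fun y => (1 - ε) * bl Φ K t y) ((1 - ε) • fderiv ℝ (bl Φ K t) (θ, w, u)) (θ, w, u) :=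
      hd0.hasFDerivAt.const_mul (1 - ε)
    refine h3.congr_of_eventuallyEq ?_
    filter_upwards [ho.mem_nhds (show ‖((θ, w, u) : ℝ × Vec k × Vec k).2.1‖ < r from hwr)] with y hy
    exact hbl y hy
  have hdΨ : DifferentiableAt ℝ (lg (Ψ t)) (θ, w, u) :=
    ((FO11_sm hΨ t).contDiffAt ((O3_isOpen k r).mem_nhds hy)).differentiableAt (by norm_num)
  have h3 : ‖fderiv ℝ (lg (Ψ t)) (θ, w, u) - (1 - ε) • fderiv ℝ (bl Φ K t) (θ, w, u)‖ ≤ s / 4 := by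
    have h4 := hΨ.c1 t (θ, w, u) hy
    rwa [fderiv_fun_sub hdΨ hfd.differentiableAt, hfd.fderiv] at h4
  have hε1 : |1 - ε| ≤ 1 := by rw [abs_le]; constructor <;> linarith
  have h4 : ‖fderiv ℝ (lg (Ψ t)) (θ, w, u) - (1 - ε) • fderiv ℝ (bl Φ K t) (θ, 0, 0)‖ ≤ s := by
    have e : fderiv ℝ (lg (Ψ t)) (θ, w, u) - (1 - ε) • fderiv ℝ (bl Φ K t) (θ, 0, 0) =
        (fderiv ℝ (lg (Ψ t)) (θ, w, u) - (1 - ε) • fderiv ℝ (bl Φ K t) (θ, w, u)) +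
        (1 - ε) • (fderiv ℝ (bl Φ K t) (θ, w, u) - fderiv ℝ (bl Φ K t) (θ, 0, 0)) := by
      rw [smul_sub]; abel
    rw [e]
    refine (norm_add_le _ _).trans ?_
    have h5 : ‖(1 - ε) • (fderiv ℝ (bl Φ K t) (θ, w, u) - fderiv ℝ (bl Φ K t) (θ, 0, 0))‖ ≤ s / 2 := by
      rw [norm_smul, Real.norm_eq_abs]
      exact (mul_le_of_le_one_left (norm_nonneg _) hε1).trans h2
    linarith
  obtain ⟨-, hg1, hg2⟩ := bl_grad hb.loc K t θ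
  obtain ⟨h5, h6⟩ := FO11_gu (lg (Ψ t)) (bl Φ K t) (θ, w, u) (θ, 0, 0) (1 - ε)
  rw [hg1] at h5
  rw [hg2] at h6
  refine ⟨?_, h5.trans h4, h6.trans h4⟩
  have hA : ((θ, w) : ℝ × Vec k) ∈ 𝒜 := hb.tubeA (θ, w) hwr.le
  have h7 := hΨ.c0 t (θ, w) hA (1, u)
  have h8 : eu ((1, u) : ℝ × Vec k) ≤ 2 := by
    refine (eu_facts ((1, u) : ℝ × Vec k)).2.2.2.2.1.trans ?_
    have : ‖((1, u) : ℝ × Vec k)‖ ≤ 1 := by
      rw [Prod.norm_def]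
      exact max_le (by simp) hu1
    linarith
  have h9 : |lg (Ψ t) (θ, w, u) - lg (Φ0 t) (θ, w, u)| ≤ s / 2 := by
    refine h7.trans ?_
    have : s / 4 * eu ((1, u) : ℝ × Vec k) ≤ s / 4 * 2 := mul_le_mul_of_nonneg_left h8 (by positivity)
    linarith
  rw [hbl (θ, w, u) hwr] at h9
  have e : lg (Ψ t) (θ, w, u) - (1 - ε) * en Φ t θ = (lg (Ψ t) (θ, w, u) - (1 - ε) * bl Φ K t (θ, w, u)) +
      (1 - ε) * (bl Φ K t (θ, w, u) - en Φ t θ) := by ring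
  rw [e]
  refine (abs_add_le _ _).trans ?_
  have h10 : |(1 - ε) * (bl Φ K t (θ, w, u) - en Φ t θ)| ≤ s / 2 := by
    rw [abs_mul]
    exact (mul_le_of_le_one_left (abs_nonneg _) hε1).trans h1
  linarith

/-- facts on the closed curve -/
theorem FO11_facts {Ψ : ℝ × Vec k → ℝ × Vec k → ℝ} {r r0 : ℝ} (hs : ContDiffOn ℝ 2 (lg Ψ) (LD k r))
    (hlp : ∀ (θ : ℝ) (w u : Vec k), ‖w‖ < r → ‖u‖ < r → lg Ψ (θ + 1, w, u) = lg Ψ (θ, w, u)) (hr0 : r0 < r)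
    {w u p : ℝ → Vec k} (hc : CurveAt Ψ r0 w u p) :
    Continuous (fl Ψ w u) ∧ (∀ θ, HasDerivAt (Sl Ψ w u) (fl Ψ w u θ) θ) ∧
      (∀ θ, Sl Ψ w u (θ + 1) = Sl Ψ w u θ + Sl Ψ w u 1) ∧
      (Continuous fun θ => gw (lg Ψ) (θ, w θ, u θ)) ∧ (∀ θ, p (θ + 1) = p θ) := by
  have hwc : Continuous w := continuous_iff_continuousAt.2 fun θ => (hc.dw θ).continuousAt
  have hfc : Continuous (fl Ψ w u) :=
    OT7_cont hr0 hs.continuousOn hwc hc.u_cont hc.w_small hc.u_small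
  have hfp : ∀ θ, fl Ψ w u (θ + 1) = fl Ψ w u θ := by
    intro θ
    simp only [fl, hc.w_per, hc.u_per]
    exact hlp θ _ _ ((hc.w_small θ).trans_lt hr0) ((hc.u_small θ).trans_lt hr0)
  have hii : ∀ a b : ℝ, IntervalIntegrable (fl Ψ w u) volume a b := fun a b => hfc.intervalIntegrable a b
  refine ⟨hfc, ?_, ?_, ?_, ?_⟩
  · intro θ
    exact intervalIntegral.integral_hasDerivAt_right (hii 0 θ)
      (hfc.stronglyMeasurableAtFilter _ _) hfc.continuousAt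
  · intro θ
    have h1 : (∫ τ in (0:ℝ)..θ, fl Ψ w u τ) + (∫ τ in θ..(θ + 1), fl Ψ w u τ) =
        ∫ τ in (0:ℝ)..(θ + 1), fl Ψ w u τ := intervalIntegral.integral_add_adjacent_intervals (hii _ _) (hii _ _)
    have h2 : (∫ τ in θ..(θ + 1), fl Ψ w u τ) = ∫ τ in (0:ℝ)..(0 + 1), fl Ψ w u τ :=
      Function.Periodic.intervalIntegral_add_eq (f := fl Ψ w u) (T := 1) hfp θ 0
    rw [zero_add] at h2
    show (∫ τ in (0:ℝ)..(θ + 1), fl Ψ w u τ) = (∫ τ in (0:ℝ)..θ, fl Ψ w u τ) + ∫ τ in (0:ℝ)..1, fl Ψ w u τ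
    rw [← h1, h2]
  · exact OT7_cont hr0 (grad_cont hs).1 hwc hc.u_cont hc.w_small hc.u_small
  · intro θ
    rw [hc.p_eq, hc.p_eq, hc.w_per, hc.u_per]
    exact (grad_per hlp ((hc.w_small θ).trans_lt hr0) ((hc.u_small θ).trans_lt hr0)).2

theorem FO11_int {f e : ℝ → ℝ} {c s : ℝ} (hf : Continuous f) (he : Continuous e) (h : ∀ θ, |f θ - c * e θ| ≤ s)
    (hs : 0 ≤ s) {θ : ℝ} (h0 : 0 ≤ θ) (h1 : θ ≤ 1) :
    |(∫ τ in (0:ℝ)..θ, f τ) - c * ∫ τ in (0:ℝ)..θ, e τ| ≤ s := by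
  have e1 : (∫ τ in (0:ℝ)..θ, f τ) - c * ∫ τ in (0:ℝ)..θ, e τ = ∫ τ in (0:ℝ)..θ, (f τ - c * e τ) := by
    have hg : Continuous fun τ => c * e τ := continuous_const.mul he
    rw [intervalIntegral.integral_sub (hf.intervalIntegrable 0 θ) (hg.intervalIntegrable 0 θ),
      intervalIntegral.integral_const_mul]
  rw [e1]
  have h2 := intervalIntegral.norm_integral_le_of_norm_le_const (a := (0:ℝ)) (b := θ) (C := s)
    (f := fun τ => f τ - c * e τ) (fun τ _ => h τ)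
  rw [Real.norm_eq_abs, sub_zero, abs_of_nonneg h0] at h2
  exact h2.trans (mul_le_of_le_one_right hs h1)

theorem FO11_chi {χ : Vec k → ℝ} (hχ : ContDiff ℝ 1 χ) (R : ℝ) :
    ∃ M : ℝ, 0 < M ∧ ∀ v, ‖v‖ ≤ R → |χ v| ≤ M ∧ ‖fderiv ℝ χ v‖ ≤ M := by
  obtain ⟨M1, h1⟩ := (isCompact_closedBall (0 : Vec k) R).exists_bound_of_continuousOn
    hχ.continuous.continuousOn
  obtain ⟨M2, h2⟩ := (isCompact_closedBall (0 : Vec k) R).exists_bound_of_continuousOn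
    (hχ.continuous_fderiv one_ne_zero).continuousOn
  refine ⟨max 1 (max M1 M2), lt_of_lt_of_le one_pos (le_max_left _ _), fun v hv => ⟨?_, ?_⟩⟩
  · exact (h1 v (mem_closedBall_zero_iff.2 hv)).trans ((le_max_left _ _).trans (le_max_right _ _))
  · exact (h2 v (mem_closedBall_zero_iff.2 hv)).trans ((le_max_right _ _).trans (le_max_right _ _))

/-- the estimate of the derivative -/
theorem FO11_D {v w u p p' q q' ζ2 : Vec k} {ε s r0 P R f e a A ζ1 N : ℝ} (hf : |f - (1 - ε) * e| ≤ s)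
    (ha : |a - (1 - ε) * A| ≤ s) (hp : ‖p - (1 - ε) • q‖ ≤ s) (hp' : ‖p' - (1 - ε) • q'‖ ≤ s) (hw : ‖w‖ ≤ r0)
    (hu : ‖u‖ ≤ r0) (hP : ‖p‖ ≤ P) (hP' : ‖p'‖ ≤ P) (hPr : P * r0 ≤ s) (hv : ‖v‖ ≤ R) (h1 : |ζ1| ≤ N)
    (h2 : ‖ζ2‖ ≤ N) :
    |(f - a) * ζ1 + ζ1 * inner ℝ p' (v - w) + inner ℝ p (ζ2 - ζ1 • u) -
      (1 - ε) * ((e * ζ1 + inner ℝ q' v * ζ1 + inner ℝ q ζ2) - A * ζ1)| ≤ s * (5 + R) * N := by
  have hs : 0 ≤ s := (abs_nonneg _).trans hf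
  have hR : 0 ≤ R := (norm_nonneg _).trans hv
  have hN : 0 ≤ N := (abs_nonneg _).trans h1
  have e1 : (f - a) * ζ1 + ζ1 * inner ℝ p' (v - w) + inner ℝ p (ζ2 - ζ1 • u) -
      (1 - ε) * ((e * ζ1 + inner ℝ q' v * ζ1 + inner ℝ q ζ2) - A * ζ1) =
      ((f - (1 - ε) * e) - (a - (1 - ε) * A) + inner ℝ (p' - (1 - ε) • q') v - inner ℝ p' w - inner ℝ p u) * ζ1 +
        inner ℝ (p - (1 - ε) • q) ζ2 := by
    rw [inner_sub_right, inner_sub_right, inner_sub_left, inner_sub_left, inner_smul_left, inner_smul_left,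
      inner_smul_right]
    simp only [conj_trivial]
    ring
  rw [e1]
  have b1 : |inner ℝ (p' - (1 - ε) • q') v| ≤ s * R :=
    (abs_real_inner_le_norm _ _).trans (mul_le_mul hp' hv (norm_nonneg _) hs)
  have b2 : |inner ℝ p' w| ≤ s :=
    (abs_real_inner_le_norm _ _).trans ((mul_le_mul hP' hw (norm_nonneg _) ((norm_nonneg _).trans hP')).trans hPr)
  have b3 : |inner ℝ p u| ≤ s :=
    (abs_real_inner_le_norm _ _).trans ((mul_le_mul hP hu (norm_nonneg _) ((norm_nonneg _).trans hP)).trans hPr)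
  have b4 : |inner ℝ (p - (1 - ε) • q) ζ2| ≤ s * N :=
    (abs_real_inner_le_norm _ _).trans (mul_le_mul hp h2 (norm_nonneg _) hs)
  have b5 : |(f - (1 - ε) * e) - (a - (1 - ε) * A) + inner ℝ (p' - (1 - ε) • q') v - inner ℝ p' w -
      inner ℝ p u| ≤ s * (4 + R) := by
    rw [abs_le] at hf ha b1 b2 b3 ⊢
    constructor <;> linarith [hf.1, hf.2, ha.1, ha.2, b1.1, b1.2, b2.1, b2.2, b3.1, b3.2]
  refine (abs_add_le _ _).trans ?_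
  rw [abs_mul]
  have b6 := mul_le_mul b5 h1 (abs_nonneg _) (by positivity : (0:ℝ) ≤ s * (4 + R))
  linarith

theorem hF_near {Φ Φ0 : ℝ → ℝ × Vec k → ℝ × Vec k → ℝ} {K ε r1 r c C : ℝ} {𝒜 : Set (ℝ × Vec k)}
    (hb : FBase Φ K ε Φ0 𝒜 r1 r c C) {χ : Vec k → ℝ} (hχ : ContDiff ℝ 1 χ)
    (hR : ∃ R : ℝ, ∀ v, R ≤ ‖v‖ → χ v = 0) {s : ℝ} (hs : 0 < s) : ∃ r0 η : ℝ, 0 < r0 ∧ r0 < r ∧ 0 < η ∧
    ∀ Ψ : ℝ → ℝ × Vec k → ℝ × Vec k → ℝ, NearP Φ0 Ψ 𝒜 r η → ∀ (t : ℝ) (w u p : ℝ → Vec k),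
      CurveAt (Ψ t) r0 w u p → ContDiff ℝ 1 (hF χ Φ ε t (Ψ t) w u p) ∧
        (∀ θ v, hF χ Φ ε t (Ψ t) w u p (θ + 1, v) = hF χ Φ ε t (Ψ t) w u p (θ, v)) ∧
        (∀ θ, 0 < fl (Ψ t) w u θ) ∧ |Sl (Ψ t) w u 1 - (1 - ε) * An Φ t| < s ∧
        ∀ z, ‖fderiv ℝ (fun z => hF χ Φ ε t (Ψ t) w u p z - h0 Φ ε t z) z‖ < s := by
  have hε := hb.ε_pos
  have hε4 := hb.ε_le
  obtain ⟨c0, C0, hc0, hC0, hbd, -⟩ := bounds hb.loc
  obtain ⟨R, hR⟩ := hR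
  obtain ⟨M, hM, hχM⟩ := FO11_chi hχ R
  set R' : ℝ := max R 0 with hR'
  have hR'0 : 0 ≤ R' := le_max_right _ _
  obtain ⟨s1, hs1, hs11, hs1s, hs1c, hs1M⟩ : ∃ s1 : ℝ, 0 < s1 ∧ s1 ≤ 1 ∧ s1 < s ∧ s1 < c0 / 2 ∧
      2 * M * (s1 * (5 + R')) < s := by
    refine ⟨min 1 (min (s / 2) (min (c0 / 4) (s / (4 * M * (5 + R'))))), by positivity, min_le_left _ _, ?_, ?_, ?_⟩
    · exact lt_of_le_of_lt ((min_le_right _ _).trans (min_le_left _ _)) (by linarith)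
    · exact lt_of_le_of_lt ((min_le_right _ _).trans ((min_le_right _ _).trans (min_le_left _ _))) (by linarith)
    · have h1 : min 1 (min (s / 2) (min (c0 / 4) (s / (4 * M * (5 + R'))))) ≤ s / (4 * M * (5 + R')) :=
        (min_le_right _ _).trans ((min_le_right _ _).trans (min_le_right _ _))
      have h2 : 2 * M * (s / (4 * M * (5 + R')) * (5 + R')) = s / 2 := by
        have : (5 + R') ≠ 0 := by positivity
        field_simp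
        norm_num
      have h3 := mul_le_mul_of_nonneg_left (mul_le_mul_of_nonneg_right h1 (by positivity : (0:ℝ) ≤ 5 + R'))
        (by positivity : (0:ℝ) ≤ 2 * M)
      linarith
  set P : ℝ := C0 + 1 with hP
  have hP1 : 1 ≤ P := by rw [hP]; linarith
  have hP0 : 0 < P := by linarith
  have hs2 : 0 < s1 / P := by positivity
  have hs21 : s1 / P ≤ s1 := div_le_self hs1.le hP1
  obtain ⟨r0, η, hr0, hr0r, hr0s, hη, hN⟩ := FO11_near hb hs2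
  refine ⟨r0, η, hr0, hr0r, hη, fun Ψ hΨ t w u p hc => ?_⟩
  have hL : ∀ θ, |fl (Ψ t) w u θ - (1 - ε) * en Φ t θ| ≤ s1 ∧ ‖p θ - (1 - ε) • pn Φ t θ‖ ≤ s1 ∧
      ‖gw (lg (Ψ t)) (θ, w θ, u θ) - (1 - ε) • deriv (pn Φ t) θ‖ ≤ s1 := by
    intro θ
    obtain ⟨h1, h2, h3⟩ := hN Ψ hΨ t θ (w θ) (u θ) (hc.w_small θ) (hc.u_small θ)
    rw [← hc.p_eq θ] at h2
    exact ⟨h1.trans hs21, h2.trans hs21, h3.trans hs21⟩
  have hlp : ∀ (θ : ℝ) (w u : Vec k), ‖w‖ < r → ‖u‖ < r → lg (Ψ t) (θ + 1, w, u) = lg (Ψ t) (θ, w, u) :=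
    fun θ w u hw _ => hΨ.per_θ t θ w (1, u) (hb.tubeA (θ, w) hw.le)
  obtain ⟨hfc, hSd, hSp, hgc, hpp⟩ := FO11_facts (FO11_sm hΨ t) hlp hr0r hc
  have hS1 : ContDiff ℝ 1 (Sl (Ψ t) w u) := OT7_cd hSd hfc
  have hw1 : ContDiff ℝ 1 w := OT7_cd hc.dw hc.u_cont
  have hp1 : ContDiff ℝ 1 p := OT7_cd hc.dp hgc
  obtain ⟨h01, h02, h03, -⟩ := h0_facts hb.loc ε t
  have hen : Continuous (en Φ t) := FN5_en_cont hb.loc t
  have hPr : P * r0 ≤ s1 := by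
    have h1 := mul_le_mul_of_nonneg_left hr0s hP0.le
    rwa [mul_div_cancel₀ _ hP0.ne'] at h1
  have hε1 : |1 - ε| ≤ 1 := by rw [abs_le]; constructor <;> linarith
  have hbig : ∀ (x y : Vec k), ‖x - (1 - ε) • y‖ ≤ s1 → ‖y‖ ≤ C0 → ‖x‖ ≤ P := by
    intro x y h1 h2
    have h3 : x = (x - (1 - ε) • y) + (1 - ε) • y := by abel
    rw [h3]
    refine (norm_add_le _ _).trans ?_
    have h4 : ‖(1 - ε) • y‖ ≤ C0 := by
      rw [norm_smul, Real.norm_eq_abs]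
      exact (mul_le_of_le_one_left (norm_nonneg _) hε1).trans h2
    rw [hP]; linarith
  have hpP : ∀ θ, ‖p θ‖ ≤ P := fun θ => hbig _ _ (hL θ).2.1 (hbd t θ).2.2.1
  have hpP' : ∀ θ, ‖gw (lg (Ψ t)) (θ, w θ, u θ)‖ ≤ P := fun θ => hbig _ _ (hL θ).2.2 (hbd t θ).2.2.2.2.1
  have hA : |Sl (Ψ t) w u 1 - (1 - ε) * An Φ t| ≤ s1 :=
    FO11_int hfc hen (fun θ => (hL θ).1) hs1.le zero_le_one le_rfl
  refine ⟨?_, ?_, ?_, hA.trans_lt hs1s, ?_⟩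
  · exact h01.add ((hχ.comp contDiff_snd).mul ((((hS1.comp contDiff_fst).sub
      (contDiff_const.mul contDiff_fst)).add ((hp1.comp contDiff_fst).inner ℝ
      (contDiff_snd.sub (hw1.comp contDiff_fst)))).sub h01))
  · intro θ v
    simp only [hF]
    rw [h03, hSp, hpp, hc.w_per]
    ring
  · intro θ
    have h1 := (abs_le.1 (hL θ).1).1
    have h2 : c0 ≤ en Φ t θ := (hbd t θ).1
    have h3 : (3 / 4 : ℝ) * c0 ≤ (1 - ε) * en Φ t θ := mul_le_mul (by linarith) h2 hc0.le (by linarith)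
    linarith
  intro z
  -- the function `E`
  have hE : ∀ z : ℝ × Vec k, ‖z.2‖ ≤ R' → |Sl (Ψ t) w u z.1 - Sl (Ψ t) w u 1 * z.1 +
      inner ℝ (p z.1) (z.2 - w z.1) - h0 Φ ε t z| ≤ s1 * (5 + R') := by
    rintro ⟨θ, v⟩ hv
    have hper : Function.Periodic (fun θ : ℝ => Sl (Ψ t) w u θ - Sl (Ψ t) w u 1 * θ +
        inner ℝ (p θ) (v - w θ) - h0 Φ ε t (θ, v)) 1 := by
      intro θ
      simp only
      rw [h03, hSp, hpp, hc.w_per]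
      ring
    obtain ⟨θ', hθ', e1⟩ := hper.exists_mem_Ico₀ one_pos θ
    have e2 : Sl (Ψ t) w u θ - Sl (Ψ t) w u 1 * θ + inner ℝ (p θ) (v - w θ) - h0 Φ ε t (θ, v) =
        Sl (Ψ t) w u θ' - Sl (Ψ t) w u 1 * θ' + inner ℝ (p θ') (v - w θ') - h0 Φ ε t (θ', v) := e1
    show |Sl (Ψ t) w u θ - Sl (Ψ t) w u 1 * θ + inner ℝ (p θ) (v - w θ) - h0 Φ ε t (θ, v)| ≤ s1 * (5 + R')
    rw [e2]
    have i1 : |Sl (Ψ t) w u θ' - (1 - ε) * ∫ τ in (0:ℝ)..θ', en Φ t τ| ≤ s1 :=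
      FO11_int hfc hen (fun θ => (hL θ).1) hs1.le hθ'.1 hθ'.2.le
    have i2 : |θ' * (Sl (Ψ t) w u 1 - (1 - ε) * An Φ t)| ≤ s1 := by
      rw [abs_mul, abs_of_nonneg hθ'.1]
      exact (mul_le_of_le_one_left (abs_nonneg _) hθ'.2.le).trans hA
    have i3 : |inner ℝ (p θ') (w θ')| ≤ s1 := (abs_real_inner_le_norm _ _).trans
      ((mul_le_mul (hpP θ') (hc.w_small θ') (norm_nonneg _) hP0.le).trans hPr)
    have i4 : |inner ℝ (p θ' - (1 - ε) • pn Φ t θ') v| ≤ s1 * R' :=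
      (abs_real_inner_le_norm _ _).trans (mul_le_mul (hL θ').2.1 hv (norm_nonneg _) hs1.le)
    have e3 : Sl (Ψ t) w u θ' - Sl (Ψ t) w u 1 * θ' + inner ℝ (p θ') (v - w θ') - h0 Φ ε t (θ', v) =
        (Sl (Ψ t) w u θ' - (1 - ε) * ∫ τ in (0:ℝ)..θ', en Φ t τ) -
          θ' * (Sl (Ψ t) w u 1 - (1 - ε) * An Φ t) - inner ℝ (p θ') (w θ') +
          inner ℝ (p θ' - (1 - ε) • pn Φ t θ') v := by
      simp only [h0, Bn]
      rw [inner_sub_right, inner_sub_left, inner_smul_left]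
      simp only [conj_trivial]
      ring
    rw [e3]
    rw [abs_le] at i1 i2 i3 i4 ⊢
    constructor <;> linarith [i1.1, i1.2, i2.1, i2.2, i3.1, i3.2, i4.1, i4.2]
  have hfun : (fun z => hF χ Φ ε t (Ψ t) w u p z - h0 Φ ε t z) =
      fun z => hf χ (Sl (Ψ t) w u) (Sl (Ψ t) w u 1) w p z - χ z.2 * h0 Φ ε t z := by
    funext z
    simp only [hF, hf]
    ring
  have d1 : DifferentiableAt ℝ (hf χ (Sl (Ψ t) w u) (Sl (Ψ t) w u 1) w p) z := by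
    have : ContDiff ℝ 1 (hf χ (Sl (Ψ t) w u) (Sl (Ψ t) w u 1) w p) :=
      (hχ.comp contDiff_snd).mul (((hS1.comp contDiff_fst).sub
        (contDiff_const.mul contDiff_fst)).add ((hp1.comp contDiff_fst).inner ℝ
        (contDiff_snd.sub (hw1.comp contDiff_fst))))
    exact this.differentiable one_ne_zero z
  have d2 : HasFDerivAt (fun z : ℝ × Vec k => χ z.2 * h0 Φ ε t z)
      (χ z.2 • fderiv ℝ (h0 Φ ε t) z +
        h0 Φ ε t z • (fderiv ℝ χ z.2).comp (ContinuousLinearMap.snd ℝ ℝ (Vec k))) z := by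
    have d3 : HasFDerivAt (fun z : ℝ × Vec k => χ z.2)
        ((fderiv ℝ χ z.2).comp (ContinuousLinearMap.snd ℝ ℝ (Vec k))) z :=
      ((hχ.differentiable one_ne_zero z.2).hasFDerivAt).comp z hasFDerivAt_snd
    exact d3.mul (h01.differentiable one_ne_zero z).hasFDerivAt
  rw [hfun, fderiv_fun_sub d1 d2.differentiableAt, d2.fderiv]
  refine lt_of_le_of_lt (ContinuousLinearMap.opNorm_le_bound _ (by positivity) fun ζ => ?_) hs1M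
  have hval : (fderiv ℝ (hf χ (Sl (Ψ t) w u) (Sl (Ψ t) w u 1) w p) z - (χ z.2 • fderiv ℝ (h0 Φ ε t) z +
        h0 Φ ε t z • (fderiv ℝ χ z.2).comp (ContinuousLinearMap.snd ℝ ℝ (Vec k)))) ζ =
      χ z.2 * ((fl (Ψ t) w u z.1 - Sl (Ψ t) w u 1) * ζ.1 +
        ζ.1 * inner ℝ (gw (lg (Ψ t)) (z.1, w z.1, u z.1)) (z.2 - w z.1) +
        inner ℝ (p z.1) (ζ.2 - ζ.1 • u z.1) -
        (1 - ε) * ((en Φ t z.1 * ζ.1 + inner ℝ (deriv (pn Φ t) z.1) z.2 * ζ.1 + inner ℝ (pn Φ t z.1) ζ.2) -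
          An Φ t * ζ.1)) +
      fderiv ℝ χ z.2 ζ.2 * (Sl (Ψ t) w u z.1 - Sl (Ψ t) w u 1 * z.1 +
        inner ℝ (p z.1) (z.2 - w z.1) - h0 Φ ε t z) := by
    have e1 := hf_fd hχ hS1 hw1 hp1 (Sl (Ψ t) w u 1) z ζ
    rw [(hSd z.1).deriv, (hc.dp z.1).deriv, (hc.dw z.1).deriv] at e1
    have e2 := h02 z ζ
    show fderiv ℝ (hf χ (Sl (Ψ t) w u) (Sl (Ψ t) w u 1) w p) z ζ - (χ z.2 * fderiv ℝ (h0 Φ ε t) z ζ +
      h0 Φ ε t z * fderiv ℝ χ z.2 ζ.2) = _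
    rw [e1, e2]
    simp only [al]
    ring
  rw [hval, Real.norm_eq_abs]
  rcases le_or_gt ‖z.2‖ R with hz | hz
  · obtain ⟨m1, m2⟩ := hχM z.2 hz
    have hz' : ‖z.2‖ ≤ R' := hz.trans (le_max_left _ _)
    have n1 : |ζ.1| ≤ ‖ζ‖ := by
      rw [← Real.norm_eq_abs]; exact norm_fst_le ζ
    have n2 : ‖ζ.2‖ ≤ ‖ζ‖ := norm_snd_le ζ
    have q1 := FO11_D (hL z.1).1 hA (hL z.1).2.1 (hL z.1).2.2 (hc.w_small z.1) (hc.u_small z.1) (hpP z.1)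
      (hpP' z.1) hPr hz' n1 n2
    have q2 := hE z hz'
    have q3 : |fderiv ℝ χ z.2 ζ.2| ≤ M * ‖ζ‖ := by
      rw [← Real.norm_eq_abs]
      exact (ContinuousLinearMap.le_opNorm _ _).trans (mul_le_mul m2 n2 (norm_nonneg _) hM.le)
    refine (abs_add_le _ _).trans ?_
    rw [abs_mul, abs_mul]
    have q4 := mul_le_mul m1 q1 (abs_nonneg _) hM.le
    have q5 := mul_le_mul q3 q2 (abs_nonneg _) (by positivity : (0:ℝ) ≤ M * ‖ζ‖)
    refine (add_le_add q4 q5).trans_eq ?_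
    ring
  · have h1 : χ z.2 = 0 := hR _ hz.le
    have h2 : fderiv ℝ χ z.2 = 0 := by
      have h3 : χ =ᶠ[𝓝 z.2] fun _ => (0:ℝ) := by
        filter_upwards [(isOpen_lt continuous_const continuous_norm).mem_nhds hz] with y hy
        exact hR y (le_of_lt hy)
      rw [h3.fderiv_eq]
      simp
    rw [h1, h2]
    simp only [zero_mul, ContinuousLinearMap.zero_apply, add_zero, abs_zero]
    positivity

end EscW.Fo
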