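import Pool.Agent.EscW.FO10
import Pool.Agent.EscW.FO11

set_option autoImplicit false

/-!
Project EscW, part FO, module FO12: the calibrating form.
`χ = 1` for `‖v‖ ≤ rc/2`, `χ = 0` for `rc ≤ ‖v‖` (smooth bump). Let `κ > 0` be small: `κ ≤ rc/2`, and if `eu ζ - ζ.1 < κ eu ζ` then `ζ.1 > 0` and `‖ζ.2‖ ≤ rc ζ.1`. `b` of `far_fo` for this `κ`. Given `s`: `r0`, `η` of `hF_near` for `min s b`, also `r0 ≤ rc`, `r0 < s`, `η ≤ b`, `η ≤ η0` (`Conv` is for `NearP .. η0`; `NearP` is monotone in `η`).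
`le`, `only`: if `κ ≤ ‖z.2‖` or `κ eu ζ ≤ eu ζ - ζ.1`, `far_fo` (strict; `ζ = 0`: both sides are zero, `NearP.hom` with `s = 0`). Otherwise `‖z.2‖ < rc/2`, `χ = 1` near `z.2`, so `hF = Sl θ - Sl 1 θ + ⟪p θ, v - w θ⟫` near `z`, `ζ = ζ.1 (1, u')`, `‖u'‖ ≤ rc`, by homogeneity `ζ = (1, u')`: `Sl 1 + DhF (1, u') = fl θ + ⟪gw, v - w θ⟫ +
⟪gu, u' - u θ⟫` (`CurveAt.dp`, `dw`, `p_eq`) `≤ lg (Ψ t) (θ, v, u') - cJ (‖v - w‖² + ‖u' - u‖²)` by `Conv`; equality only for `v = w θ`. `cal`: `v = w θ`, `u' = u θ = deriv w θ`: both sides are `fl θ`.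
-/

noncomputable section

namespace EscW.Fo

open Filter Topology Set EscF.T EscM EscMT MeasureTheory EscW.Ex EscW.Dn EscW.On EscW.Ot EscW.Fn
open scoped ContDiff

variable {d m k j n : ℕ}

theorem FO12_eu (ζ : ℝ × Vec k) : 0 ≤ eu ζ := Real.sqrt_nonneg _

theorem FO12_kappa {rc : ℝ} (hrc : 0 < rc) : ∃ κ : ℝ, 0 < κ ∧ κ ≤ rc / 2 ∧ ∀ ζ : ℝ × Vec k,
    eu ζ - ζ.1 < κ * eu ζ → 0 < ζ.1 ∧ ‖ζ.2‖ ≤ rc * ζ.1 := by
  refine ⟨min (1 / 2) (min (rc / 2) (rc ^ 2 / 8)), by positivity, (min_le_right _ _).trans (min_le_left _ _), ?_⟩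
  intro ζ h
  set κ : ℝ := min (1 / 2) (min (rc / 2) (rc ^ 2 / 8)) with hκ
  have hκ0 : 0 < κ := by positivity
  have hκ1 : κ ≤ 1 / 2 := min_le_left _ _
  have hκ2 : κ ≤ rc ^ 2 / 8 := (min_le_right _ _).trans (min_le_right _ _)
  have he : 0 ≤ eu ζ := FO12_eu ζ
  have hsq : eu ζ ^ 2 = ζ.1 ^ 2 + ‖ζ.2‖ ^ 2 := Real.sq_sqrt (by positivity)
  have h1 : eu ζ ≤ 2 * ζ.1 := by nlinarith
  have he0 : eu ζ ≠ 0 := by
    intro h0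
    have h2 : ζ.1 ^ 2 + ‖ζ.2‖ ^ 2 = 0 := by rw [← hsq, h0]; norm_num
    have h3 : ζ.1 = 0 := by nlinarith [sq_nonneg ζ.1, sq_nonneg ‖ζ.2‖]
    rw [h0, h3] at h
    simp at h
  have he1 : 0 < eu ζ := lt_of_le_of_ne he (Ne.symm he0)
  have h2 : 0 < ζ.1 := by linarith
  refine ⟨h2, ?_⟩
  have h3 : ‖ζ.2‖ ^ 2 = (eu ζ - ζ.1) * (eu ζ + ζ.1) := by nlinarith
  have h4 : eu ζ + ζ.1 ≤ 2 * eu ζ := by
    have : ζ.1 ≤ eu ζ := Real.le_sqrt_of_sq_le (by nlinarith [sq_nonneg ‖ζ.2‖])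
    linarith
  have h5 : (eu ζ - ζ.1) * (eu ζ + ζ.1) ≤ κ * eu ζ * (2 * eu ζ) := by
    have h6 : 0 ≤ eu ζ + ζ.1 := by linarith
    calc (eu ζ - ζ.1) * (eu ζ + ζ.1) ≤ (κ * eu ζ) * (eu ζ + ζ.1) :=
          mul_le_mul_of_nonneg_right h.le h6
      _ ≤ κ * eu ζ * (2 * eu ζ) := mul_le_mul_of_nonneg_left h4 (by positivity)
  have h6 : κ * eu ζ * (2 * eu ζ) ≤ rc ^ 2 / 8 * (2 * ζ.1) * (2 * (2 * ζ.1)) := by
    have h7 : κ * eu ζ ≤ rc ^ 2 / 8 * (2 * ζ.1) := mul_le_mul hκ2 h1 he (by positivity)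
    exact mul_le_mul h7 (by linarith) (by positivity) (by positivity)
  have h7 : ‖ζ.2‖ ^ 2 ≤ (rc * ζ.1) ^ 2 := by
    have h8 : rc ^ 2 / 8 * (2 * ζ.1) * (2 * (2 * ζ.1)) = (rc * ζ.1) ^ 2 := by ring
    rw [h3, ← h8]
    exact h5.trans h6
  exact (sq_le_sq₀ (norm_nonneg _) (by positivity)).1 h7

theorem FO12_mono {Φ0 Ψ : ℝ → ℝ × Vec k → ℝ × Vec k → ℝ} {𝒜 : Set (ℝ × Vec k)} {r η η' : ℝ}
    (h : NearP Φ0 Ψ 𝒜 r η) (hη : η ≤ η') : NearP Φ0 Ψ 𝒜 r η' :=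
  { hom := h.hom
    per_θ := h.per_θ
    per_t := h.per_t
    cont := h.cont
    c0 := fun t z hz ζ => (h.c0 t z hz ζ).trans (mul_le_mul_of_nonneg_right hη (FO12_eu ζ))
    smooth := h.smooth
    c1 := fun t y hy => (h.c1 t y hy).trans hη
    c2 := fun t y hy => (h.c2 t y hy).trans hη }

theorem FO12_cmono {Φ : ℝ × Vec k → ℝ × Vec k → ℝ} {r2 r3 : ℝ} {w u p : ℝ → Vec k} (h : CurveAt Φ r2 w u p)
    (hr : r2 ≤ r3) : CurveAt Φ r3 w u p :=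
  { u_cont := h.u_cont
    dw := h.dw
    dp := h.dp
    p_eq := h.p_eq
    w_per := h.w_per
    u_per := h.u_per
    w_small := fun θ => (h.w_small θ).trans hr
    u_small := fun θ => (h.u_small θ).trans hr }

theorem FO12_smooth {Φ0 Ψ : ℝ → ℝ × Vec k → ℝ × Vec k → ℝ} {𝒜 : Set (ℝ × Vec k)} {r η : ℝ}
    (h : NearP Φ0 Ψ 𝒜 r η) (t : ℝ) : ContDiffOn ℝ 2 (lg (Ψ t)) (LD k r) := by
  have h1 : ContDiffOn ℝ 2 (fun y : ℝ × Vec k × Vec k => ((t, y) : ℝ × (ℝ × Vec k × Vec k))) (LD k r) := by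
    fun_prop
  exact h.smooth.comp h1 fun y hy => hy

/-- the derivative of `hF` near the curve -/
theorem FO12_fd {χ : Vec k → ℝ} {Φ : ℝ → ℝ × Vec k → ℝ × Vec k → ℝ} {Ψ : ℝ × Vec k → ℝ × Vec k → ℝ}
    {ε t : ℝ} {w u p : ℝ → Vec k} (hS : ContDiff ℝ 1 (Sl Ψ w u)) (hw : ContDiff ℝ 1 w)
    (hp : ContDiff ℝ 1 p) {ρ : ℝ} (h1 : ∀ w, ‖w‖ < ρ → χ w = 1) {z : ℝ × Vec k} (hz : ‖z.2‖ < ρ)
    (ζ : ℝ × Vec k) :
    Sl Ψ w u 1 * ζ.1 + fderiv ℝ (hF χ Φ ε t Ψ w u p) z ζ =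
      (deriv (Sl Ψ w u) z.1 + inner ℝ (deriv p z.1) (z.2 - w z.1) - inner ℝ (p z.1) (deriv w z.1)) * ζ.1 +
        inner ℝ (p z.1) ζ.2 := by
  have h2 : hF χ Φ ε t Ψ w u p =ᶠ[𝓝 z] hf (fun _ => 1) (Sl Ψ w u) (Sl Ψ w u 1) w p := by
    have h3 : IsOpen {z : ℝ × Vec k | ‖z.2‖ < ρ} := isOpen_lt (by fun_prop) continuous_const
    filter_upwards [h3.mem_nhds hz] with y hy
    simp only [hF, hf, h1 _ hy]
    ring
  rw [h2.fderiv_eq]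
  exact OT7_fd (χ := fun _ => (1:ℝ)) contDiff_const hS hw hp (Sl Ψ w u 1) (ρ := ρ) (fun _ _ => rfl) hz ζ

/-- the main inequality near the curve -/
theorem FO12_main {Φ0 Ψ : ℝ → ℝ × Vec k → ℝ × Vec k → ℝ} {𝒜 : Set (ℝ × Vec k)} {r rc cJ η0 : ℝ}
    (hcJ : 0 < cJ) (hconv : Conv Φ0 𝒜 r rc cJ η0) (hn : NearP Φ0 Ψ 𝒜 r η0) {t r0 : ℝ} (hr0 : r0 ≤ rc)
    {w u p : ℝ → Vec k} (hc : CurveAt (Ψ t) r0 w u p) {z : ℝ × Vec k} (hz : z ∈ 𝒜) (hz2 : ‖z.2‖ ≤ rc)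
    {A : ℝ} (hA : A = fl (Ψ t) w u z.1 + inner ℝ (gw (lg (Ψ t)) (z.1, w z.1, u z.1)) (z.2 - w z.1) -
      inner ℝ (p z.1) (u z.1)) {ζ : ℝ × Vec k} (h0 : 0 < ζ.1) (hζ : ‖ζ.2‖ ≤ rc * ζ.1) :
    A * ζ.1 + inner ℝ (p z.1) ζ.2 ≤ Ψ t z ζ ∧
      (A * ζ.1 + inner ℝ (p z.1) ζ.2 = Ψ t z ζ → z.2 = w z.1) := by
  set v : Vec k := ζ.1⁻¹ • ζ.2 with hv
  have hζv : ζ = ζ.1 • ((1, v) : ℝ × Vec k) := by
    ext1
    · simp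
    · simp [hv, smul_smul, mul_inv_cancel₀ h0.ne']
  have h2 : Ψ t z ζ = ζ.1 * Ψ t z (1, v) := by
    conv_lhs => rw [hζv]
    rw [hn.hom t z hz (1, v) ζ.1 h0.le]
  have h3 : A * ζ.1 + inner ℝ (p z.1) ζ.2 = ζ.1 * (A + inner ℝ (p z.1) v) := by
    have h4 : ζ.2 = ζ.1 • v := by simp [hv, smul_smul, mul_inv_cancel₀ h0.ne']
    rw [h4, inner_smul_right]
    ring
  rw [h2, h3]
  have hvr : ‖v‖ ≤ rc := by
    rw [hv, norm_smul, norm_inv, Real.norm_of_nonneg h0.le, inv_mul_le_iff₀ h0]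
    linarith
  have hw : ‖w z.1‖ ≤ rc := (hc.w_small z.1).trans hr0
  have hu : ‖u z.1‖ ≤ rc := (hc.u_small z.1).trans hr0
  have h8 := hconv Ψ hn t z.1 (w z.1) (u z.1) z.2 v hw hu hz2 hvr
  have h9 : lg (Ψ t) (z.1, z.2, v) = Ψ t z (1, v) := rfl
  have h10 : A + inner ℝ (p z.1) v = lg (Ψ t) (z.1, w z.1, u z.1) +
      inner ℝ (gw (lg (Ψ t)) (z.1, w z.1, u z.1)) (z.2 - w z.1) +
      inner ℝ (gu (lg (Ψ t)) (z.1, w z.1, u z.1)) (v - u z.1) := by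
    rw [hA, ← hc.p_eq z.1, inner_sub_right (p z.1)]
    simp only [fl]
    ring
  rw [h9] at h8
  have h11 : A + inner ℝ (p z.1) v + cJ * (‖z.2 - w z.1‖ ^ 2 + ‖v - u z.1‖ ^ 2) ≤ Ψ t z (1, v) := by
    rw [h10]; exact h8
  constructor
  · refine mul_le_mul_of_nonneg_left ?_ h0.le
    have h12 : 0 ≤ cJ * (‖z.2 - w z.1‖ ^ 2 + ‖v - u z.1‖ ^ 2) := by positivity
    linarith
  · intro h
    have h12 : A + inner ℝ (p z.1) v = Ψ t z (1, v) := mul_left_cancel₀ h0.ne' h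
    have h13 : cJ * (‖z.2 - w z.1‖ ^ 2 + ‖v - u z.1‖ ^ 2) ≤ 0 := by linarith
    have h14 : ‖z.2 - w z.1‖ ^ 2 + ‖v - u z.1‖ ^ 2 ≤ 0 := by
      by_contra h15
      rw [not_le] at h15
      exact absurd h13 (not_le.2 (mul_pos hcJ h15))
    have h15 : ‖z.2 - w z.1‖ ^ 2 = 0 := by
      have h16 := sq_nonneg ‖z.2 - w z.1‖
      have h17 := sq_nonneg ‖v - u z.1‖
      linarith
    have h16 : ‖z.2 - w z.1‖ = 0 := pow_eq_zero_iff (two_ne_zero) |>.1 h15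
    exact sub_eq_zero.1 (norm_eq_zero.1 h16)

theorem fcal_of_curve {Φ Φ0 : ℝ → ℝ × Vec k → ℝ × Vec k → ℝ} {K ε r1 r c C : ℝ} {𝒜 : Set (ℝ × Vec k)}
    (hb : FBase Φ K ε Φ0 𝒜 r1 r c C) {rc cJ η0 : ℝ} (hrc : 0 < rc) (hrcr : rc < r) (hcJ : 0 < cJ)
    (hη0 : 0 < η0) (hconv : Conv Φ0 𝒜 r rc cJ η0) : ∃ χ : Vec k → ℝ, ContDiff ℝ 1 χ ∧
    (∃ R : ℝ, ∀ v, R ≤ ‖v‖ → χ v = 0) ∧ ∀ s, 0 < s → ∃ r0 η : ℝ, 0 < r0 ∧ r0 < r ∧ 0 < η ∧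
      ∀ Ψ : ℝ → ℝ × Vec k → ℝ × Vec k → ℝ, NearP Φ0 Ψ 𝒜 r η → ∀ (t : ℝ) (w u p : ℝ → Vec k),
        CurveAt (Ψ t) r0 w u p → (∀ θ, 0 < fl (Ψ t) w u θ) ∧
          FCal Φ ε t (Ψ t) 𝒜 s (Sl (Ψ t) w u 1) w (hF χ Φ ε t (Ψ t) w u p) := by
  obtain ⟨χ, Cχ, hχ, hCχ, h01, hdχ, hχ1, hχ0⟩ := exists_cut (k := k) hrc
  obtain ⟨κ, hκ, hκrc, hκζ⟩ := FO12_kappa (k := k) hrc
  obtain ⟨b, hb0, hfar⟩ := far_fo hb hκ
  refine ⟨χ, hχ, ⟨rc, hχ0⟩, ?_⟩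
  intro s hs
  obtain ⟨r0, η, hr0, hr0r, hη, hnear⟩ := hF_near hb hχ ⟨rc, hχ0⟩ (lt_min hs hb0)
  refine ⟨min r0 (min (rc / 4) (s / 2)), min η (min b η0), by positivity, (min_le_left _ _).trans_lt hr0r,
    by positivity, ?_⟩
  intro Ψ hn t w u p hc
  have hm1 : min r0 (min (rc / 4) (s / 2)) ≤ r0 := min_le_left _ _
  have hm2 : min r0 (min (rc / 4) (s / 2)) ≤ rc / 4 := (min_le_right _ _).trans (min_le_left _ _)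
  have hm3 : min r0 (min (rc / 4) (s / 2)) ≤ s / 2 := (min_le_right _ _).trans (min_le_right _ _)
  have hm4 : min r0 (min (rc / 4) (s / 2)) < r := hm1.trans_lt hr0r
  have hn1 : NearP Φ0 Ψ 𝒜 r η := FO12_mono hn (min_le_left _ _)
  have hn2 : NearP Φ0 Ψ 𝒜 r b := FO12_mono hn ((min_le_right _ _).trans (min_le_left _ _))
  have hn3 : NearP Φ0 Ψ 𝒜 r η0 := FO12_mono hn ((min_le_right _ _).trans (min_le_right _ _))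
  obtain ⟨hh1, hhp, hfl, ha, hh⟩ := hnear Ψ hn1 t w u p (FO12_cmono hc hm1)
  refine ⟨hfl, ?_⟩
  have hsm := FO12_smooth hn t
  have hwc : Continuous w := continuous_iff_continuousAt.2 fun θ => (hc.dw θ).continuousAt
  have hfc : Continuous (fl (Ψ t) w u) :=
    OT7_cont hm4 hsm.continuousOn hwc hc.u_cont hc.w_small hc.u_small
  have hgc : Continuous fun θ => gw (lg (Ψ t)) (θ, w θ, u θ) :=
    OT7_cont hm4 (grad_cont hsm).1 hwc hc.u_cont hc.w_small hc.u_small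
  have hSd : ∀ θ, HasDerivAt (Sl (Ψ t) w u) (fl (Ψ t) w u θ) θ := fun θ =>
    intervalIntegral.integral_hasDerivAt_right (hfc.intervalIntegrable _ _)
      (hfc.stronglyMeasurableAtFilter _ _) hfc.continuousAt
  have hwd : ∀ θ, deriv w θ = u θ := fun θ => (hc.dw θ).deriv
  have hpd : ∀ θ, deriv p θ = gw (lg (Ψ t)) (θ, w θ, u θ) := fun θ => (hc.dp θ).deriv
  have hSd' : ∀ θ, deriv (Sl (Ψ t) w u) θ = fl (Ψ t) w u θ := fun θ => (hSd θ).deriv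
  have hw1 : ContDiff ℝ 1 w := OT7_cd hc.dw hc.u_cont
  have hp1 : ContDiff ℝ 1 p := OT7_cd hc.dp hgc
  have hS1 : ContDiff ℝ 1 (Sl (Ψ t) w u) := OT7_cd hSd hfc
  have ha1 : |Sl (Ψ t) w u 1 - (1 - ε) * An Φ t| < s := ha.trans_le (min_le_left _ _)
  have ha2 : |Sl (Ψ t) w u 1 - (1 - ε) * An Φ t| ≤ b := ha.le.trans (min_le_right _ _)
  -- the main inequality
  have key : ∀ z ∈ 𝒜, ∀ ζ : ℝ × Vec k, ζ ≠ 0 →
      Sl (Ψ t) w u 1 * ζ.1 + fderiv ℝ (hF χ Φ ε t (Ψ t) w u p) z ζ ≤ Ψ t z ζ ∧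
        (Sl (Ψ t) w u 1 * ζ.1 + fderiv ℝ (hF χ Φ ε t (Ψ t) w u p) z ζ = Ψ t z ζ → z.2 = w z.1) := by
    intro z hz ζ hζ
    by_cases hcase : κ ≤ ‖z.2‖ ∨ κ * eu ζ ≤ eu ζ - ζ.1
    · have h1 := hfar Ψ b le_rfl hn2 t (Sl (Ψ t) w u 1) (hF χ Φ ε t (Ψ t) w u p) hh1 ha2
        (fun z => (hh z).le.trans (min_le_right _ _)) z hz ζ hζ hcase
      exact ⟨h1.le, fun h => absurd h h1.ne⟩
    · rw [not_or, not_le, not_le] at hcase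
      obtain ⟨h1, h2⟩ := hκζ ζ hcase.2
      have hz2 : ‖z.2‖ < rc / 2 := hcase.1.trans_le hκrc
      obtain ⟨A, hA⟩ : ∃ A, A = fl (Ψ t) w u z.1 +
        inner ℝ (gw (lg (Ψ t)) (z.1, w z.1, u z.1)) (z.2 - w z.1) - inner ℝ (p z.1) (u z.1) := ⟨_, rfl⟩
      have h3 : Sl (Ψ t) w u 1 * ζ.1 + fderiv ℝ (hF χ Φ ε t (Ψ t) w u p) z ζ =
          A * ζ.1 + inner ℝ (p z.1) ζ.2 := by
        rw [FO12_fd hS1 hw1 hp1 hχ1 hz2, hSd', hpd, hwd, hA]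
      rw [h3]
      exact FO12_main hcJ hconv hn3 (by linarith) hc hz (by linarith) hA h1 h2
  refine ⟨fun θ => (hc.w_small θ).trans_lt (by linarith), hh1, hhp, ha1,
    fun z => (hh z).trans_le (min_le_left _ _), ?_, fun z hz ζ hζ h => (key z hz ζ hζ).2 h, ?_⟩
  · intro z hz ζ
    rcases eq_or_ne ζ 0 with h0 | h0
    · subst h0
      have h1 := hn.hom t z hz 0 0 le_rfl
      simp only [smul_zero, zero_mul] at h1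
      rw [h1]
      simp
    · exact (key z hz ζ h0).1
  · intro θ
    have h1 : ‖((θ, w θ) : ℝ × Vec k).2‖ < rc / 2 := (hc.w_small θ).trans_lt (by linarith)
    have h2 := FO12_fd (Φ := Φ) (ε := ε) (t := t) hS1 hw1 hp1 hχ1 h1 (1, deriv w θ)
    simp only [mul_one] at h2
    rw [h2, hSd', hwd]
    simp [fl, lg]

end EscW.Fo
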