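import Pool.Agent.EscW.FO10
import Pool.Agent.EscW.OT8
import Pool.Agent.EscW.FN1

set_option autoImplicit false

/-!
Project EscW, part FO, module FO13: dependence on the time.
As `hl_smooth`, `per_all`, `hl_lip` (module OT8; use its lemmas `C1_of`, `int_C10`, `C10_lip`, ...). `h0 Φ ε t z = (1 - ε) (Bn Φ t z - An Φ t z.1)` is `C¹` in `(t, z)` (`Bn_smooth`, `A_facts`), `Sl` by `int_C10` with `CurveT.f_reg`; `p`, `w` by `C1_of`. Derivative of `hF` in `z`: `(1 - ε) (al - An ζ.1) (1 - χ) + χ (fl ζ.1 - Sl 1 ζ.1 + ..)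
+ Dχ (..)`; on `‖z.2‖ ≤ 1` all these terms are bounded and Lipschitz in `t`, uniformly (`al_lip` with `R = 1`, `C10_lip`; the term `Sl θ - Sl 1 θ` has period one in `θ`).
-/

noncomputable section

namespace EscW.Fo

open Filter Topology Set EscF.T EscM EscMT MeasureTheory EscW.Ex EscW.Dn EscW.On EscW.Ot EscW.Fn
open scoped ContDiff

variable {d m k j n : ℕ}

theorem FO13_gr_t {Φ Φ0 : ℝ → ℝ × Vec k → ℝ × Vec k → ℝ} {K ε r1 r c C : ℝ} {𝒜 : Set (ℝ × Vec k)}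
    (hb : FBase Φ K ε Φ0 𝒜 r1 r c C) {Ψ : ℝ → ℝ × Vec k → ℝ × Vec k → ℝ} {η : ℝ} (hn : NearP Φ0 Ψ 𝒜 r η)
    (t : ℝ) {y : ℝ × Vec k × Vec k} (hy : y ∈ LD k r) :
    lg (Ψ (t + 1)) y = lg (Ψ t) y ∧ fderiv ℝ (lg (Ψ (t + 1))) y = fderiv ℝ (lg (Ψ t)) y := by
  have h1 : ∀ y ∈ LD k r, lg (Ψ (t + 1)) y = lg (Ψ t) y := fun y hy =>
    hn.per_t t _ (hb.tubeA (y.1, y.2.1) (le_of_lt hy.1)) _
  refine ⟨h1 y hy, Filter.EventuallyEq.fderiv_eq ?_⟩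
  filter_upwards [(OT8_open r).mem_nhds hy] with z hz using h1 z hz

theorem FO13_gr_θ {Φ Φ0 : ℝ → ℝ × Vec k → ℝ × Vec k → ℝ} {K ε r1 r c C : ℝ} {𝒜 : Set (ℝ × Vec k)}
    (hb : FBase Φ K ε Φ0 𝒜 r1 r c C) {Ψ : ℝ → ℝ × Vec k → ℝ × Vec k → ℝ} {η : ℝ} (hn : NearP Φ0 Ψ 𝒜 r η)
    (t θ : ℝ) {x : Vec k × Vec k} (hy : (θ, x) ∈ LD k r) :
    lg (Ψ t) (θ + 1, x) = lg (Ψ t) (θ, x) ∧
      fderiv ℝ (lg (Ψ t)) (θ + 1, x) = fderiv ℝ (lg (Ψ t)) (θ, x) := by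
  have h1 : ∀ y ∈ LD k r, lg (Ψ t) (y + (1, 0)) = lg (Ψ t) y := by
    rintro ⟨θ', v, w⟩ hy
    have h2 := hn.per_θ t θ' v (1, w) (hb.tubeA (θ', v) (le_of_lt hy.1))
    unfold lg
    simpa using h2
  have h0 : ((θ, x) : ℝ × Vec k × Vec k) + (1, 0) = (θ + 1, x) := by simp
  refine ⟨?_, ?_⟩
  · rw [← h0]
    exact h1 _ hy
  · rw [← h0, ← fderiv_comp_add_right]
    refine Filter.EventuallyEq.fderiv_eq ?_
    filter_upwards [(OT8_open r).mem_nhds hy] with z hz using h1 z hz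

theorem per_allF {Φ Φ0 : ℝ → ℝ × Vec k → ℝ × Vec k → ℝ} {K ε r1 r c C : ℝ} {𝒜 : Set (ℝ × Vec k)}
    (hb : FBase Φ K ε Φ0 𝒜 r1 r c C) {Ψ : ℝ → ℝ × Vec k → ℝ × Vec k → ℝ} {η : ℝ} (hn : NearP Φ0 Ψ 𝒜 r η) {r2 : ℝ}
    (h2 : r2 < r) {w u p : ℝ → ℝ → Vec k} (h : CurveT Ψ r2 w u p) :
    Per2 w ∧ Per2 u ∧ Per2 p ∧ Per2 (fun t => fl (Ψ t) (w t) (u t)) ∧
      Per2 (fun t θ => gw (lg (Ψ t)) (θ, w t θ, u t θ)) := by
  have hw : Per2 w := ⟨h.w_t, fun t => (h.curve t).w_per⟩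
  have hu : Per2 u := ⟨h.u_t, fun t => (h.curve t).u_per⟩
  have hLD : ∀ t θ, ((θ, w t θ, u t θ) : ℝ × Vec k × Vec k) ∈ LD k r := fun t θ =>
    ⟨((h.curve t).w_small θ).trans_lt h2, ((h.curve t).u_small θ).trans_lt h2⟩
  have e1 : ∀ t θ, lg (Ψ (t + 1)) (θ, w (t + 1) θ, u (t + 1) θ) = lg (Ψ t) (θ, w t θ, u t θ) ∧
      fderiv ℝ (lg (Ψ (t + 1))) (θ, w (t + 1) θ, u (t + 1) θ) =
        fderiv ℝ (lg (Ψ t)) (θ, w t θ, u t θ) := by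
    intro t θ
    rw [h.w_t, h.u_t]
    exact FO13_gr_t hb hn t (hLD t θ)
  have e2 : ∀ t θ, lg (Ψ t) (θ + 1, w t (θ + 1), u t (θ + 1)) = lg (Ψ t) (θ, w t θ, u t θ) ∧
      fderiv ℝ (lg (Ψ t)) (θ + 1, w t (θ + 1), u t (θ + 1)) =
        fderiv ℝ (lg (Ψ t)) (θ, w t θ, u t θ) := by
    intro t θ
    rw [(h.curve t).w_per, (h.curve t).u_per]
    exact FO13_gr_θ hb hn t θ (hLD t θ)
  refine ⟨hw, hu, ⟨fun t θ => ?_, fun t θ => ?_⟩, ⟨fun t θ => (e1 t θ).1, fun t θ => (e2 t θ).1⟩,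
    ⟨fun t θ => ?_, fun t θ => ?_⟩⟩
  · rw [(h.curve (t + 1)).p_eq, (h.curve t).p_eq]
    unfold gu
    rw [(e1 t θ).2]
  · rw [(h.curve t).p_eq, (h.curve t).p_eq]
    unfold gu
    rw [(e2 t θ).2]
  · simp only
    unfold gw
    rw [(e1 t θ).2]
  · simp only
    unfold gw
    rw [(e2 t θ).2]

theorem FO13_A {Φ : ℝ → ℝ × Vec k → ℝ × Vec k → ℝ} {r1 : ℝ} (h : LocFin Φ r1) :
    ContDiff ℝ 1 (An Φ) ∧ ∀ t, An Φ (t + 1) = An Φ t :=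
  ⟨(A_facts h (by norm_num : (0:ℝ) < 1 / 2) (by norm_num : (1 / 2 : ℝ) < 1)).2.1,
    (A_facts h (by norm_num : (0:ℝ) < 1 / 2) (by norm_num : (1 / 2 : ℝ) < 1)).2.2.1⟩

theorem FO13_h0 {Φ : ℝ → ℝ × Vec k → ℝ × Vec k → ℝ} {r1 : ℝ} (h : LocFin Φ r1) (ε : ℝ) :
    ContDiff ℝ 1 (fun y : ℝ × (ℝ × Vec k) => h0 Φ ε y.1 y.2) :=
  contDiff_const.mul ((Bn_smooth h).sub (((FO13_A h).1.comp contDiff_fst).mul
    (contDiff_fst.comp contDiff_snd)))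

theorem hF_smooth {Φ Φ0 : ℝ → ℝ × Vec k → ℝ × Vec k → ℝ} {K ε r1 r c C : ℝ} {𝒜 : Set (ℝ × Vec k)}
    (hb : FBase Φ K ε Φ0 𝒜 r1 r c C) {Ψ : ℝ → ℝ × Vec k → ℝ × Vec k → ℝ} {r2 : ℝ}
    {w u p : ℝ → ℝ → Vec k} (h : CurveT Ψ r2 w u p) {χ : Vec k → ℝ} (hχ : ContDiff ℝ 1 χ) :
    ContDiff ℝ 1 (fun y : ℝ × (ℝ × Vec k) => hF χ Φ ε y.1 (Ψ y.1) (w y.1) (u y.1) (p y.1) y.2) ∧
      ContDiff ℝ 1 (fun t => Sl (Ψ t) (w t) (u t) 1) := by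
  have h1 : ContDiff ℝ 1 (fun t => Sl (Ψ t) (w t) (u t) 1) :=
    (OT8_S h).comp (contDiff_id.prodMk contDiff_const)
  refine ⟨?_, h1⟩
  have hy : ContDiff ℝ 1 (fun y : ℝ × (ℝ × Vec k) => (y.1, y.2.1)) :=
    contDiff_fst.prodMk (contDiff_fst.comp contDiff_snd)
  have e1 : ContDiff ℝ 1 (fun y : ℝ × (ℝ × Vec k) => χ y.2.2) :=
    hχ.comp (contDiff_snd.comp contDiff_snd)
  have e2 : ContDiff ℝ 1 (fun y : ℝ × (ℝ × Vec k) => Sl (Ψ y.1) (w y.1) (u y.1) y.2.1) :=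
    (OT8_S h).comp hy
  have e3 : ContDiff ℝ 1 (fun y : ℝ × (ℝ × Vec k) => Sl (Ψ y.1) (w y.1) (u y.1) 1 * y.2.1) :=
    (h1.comp contDiff_fst).mul (contDiff_fst.comp contDiff_snd)
  have e4 : ContDiff ℝ 1 (fun y : ℝ × (ℝ × Vec k) => p y.1 y.2.1) := (OT8_p h).comp hy
  have e5 : ContDiff ℝ 1 (fun y : ℝ × (ℝ × Vec k) => y.2.2 - w y.1 y.2.1) :=
    (contDiff_snd.comp contDiff_snd).sub ((OT8_w h).comp hy)
  have e6 := FO13_h0 hb.loc ε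
  exact e6.add (e1.mul (((e2.sub e3).add (e4.inner ℝ e5)).sub e6))

theorem FO13_fd {χ : Vec k → ℝ} (hχ : ContDiff ℝ 1 χ) {f g : ℝ × Vec k → ℝ} (hf : ContDiff ℝ 1 f)
    (hg : ContDiff ℝ 1 g) (z ζ : ℝ × Vec k) :
    fderiv ℝ (fun z : ℝ × Vec k => f z + g z - χ z.2 * f z) z ζ =
      (fderiv ℝ f z ζ + fderiv ℝ g z ζ) - (χ z.2 * fderiv ℝ f z ζ + fderiv ℝ χ z.2 ζ.2 * f z) := by
  have d1 : HasFDerivAt f (fderiv ℝ f z) z := (hf.differentiable one_ne_zero z).hasFDerivAt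
  have d2 : HasFDerivAt g (fderiv ℝ g z) z := (hg.differentiable one_ne_zero z).hasFDerivAt
  have d3 : HasFDerivAt (fun z : ℝ × Vec k => χ z.2)
      ((fderiv ℝ χ z.2).comp (ContinuousLinearMap.snd ℝ ℝ (Vec k))) z :=
    ((hχ.differentiable one_ne_zero z.2).hasFDerivAt).comp z hasFDerivAt_snd
  have d4 := (d1.add d2).sub (d3.mul d1)
  have d5 : fderiv ℝ (fun z : ℝ × Vec k => f z + g z - χ z.2 * f z) z = _ := d4.fderiv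
  rw [d5]
  simp only [ContinuousLinearMap.add_apply, ContinuousLinearMap.sub_apply,
    ContinuousLinearMap.smul_apply, ContinuousLinearMap.comp_apply, smul_eq_mul,
    ContinuousLinearMap.coe_snd']
  ring

theorem FO13_h0L {Φ : ℝ → ℝ × Vec k → ℝ × Vec k → ℝ} {r1 : ℝ} (h : LocFin Φ r1) (ε : ℝ) :
    ∃ A : ℝ, ∀ z : ℝ × Vec k, ‖z.2‖ ≤ 1 → OT8_LB (fun t => h0 Φ ε t z) A := by
  obtain ⟨p1, p2, -, -, -⟩ := pers h
  obtain ⟨a1, a2⟩ := FO13_A h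
  have hc : ∀ t, Continuous (en Φ t) := fun t => FN5_en_cont h t
  have hI : ContDiff ℝ 1 (fun y : ℝ × ℝ => (∫ τ in (0:ℝ)..y.2, en Φ y.1 τ) - An Φ y.1 * y.2) :=
    (FN5_I h).sub ((a1.comp contDiff_fst).mul contDiff_snd)
  have hper : ∀ t θ, (∫ τ in (0:ℝ)..(θ + 1), en Φ t τ) = (∫ τ in (0:ℝ)..θ, en Φ t τ) + An Φ t := by
    intro t θ
    have h3 : Function.Periodic (en Φ t) 1 := fun θ => p1.2 t θ
    have h4 := h3.intervalIntegral_add_eq θ 0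
    rw [zero_add] at h4
    unfold An
    rw [← h4, intervalIntegral.integral_add_adjacent_intervals ((hc t).intervalIntegrable _ _)
      ((hc t).intervalIntegrable _ _)]
  obtain ⟨A1, -, b1, c1⟩ := C10_lip
    (f := fun t θ => (∫ τ in (0:ℝ)..θ, en Φ t τ) - An Φ t * θ) (OT8_C10_of hI)
    ⟨fun t θ => by simp only [a2, p1.1], fun t θ => by simp only [hper]; ring⟩
  obtain ⟨A2, -, b2, c2⟩ := C10_lip (OT8_C10_of (FN5_pn1 h)) p2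
  refine ⟨2 * |1 - ε| * (A1 + 2 * A2 * 1), fun z hz => ?_⟩
  have L1 : OT8_LB (fun t => (∫ τ in (0:ℝ)..z.1, en Φ t τ) - An Φ t * z.1) A1 :=
    ⟨fun t => b1 t z.1, fun t t' => c1 t t' z.1⟩
  have L2 : OT8_LB (fun t => pn Φ t z.1) A2 := ⟨fun t => b2 t z.1, fun t t' => c2 t t' z.1⟩
  have L3 := (OT8_LB_const (1 - ε) (le_of_eq (Real.norm_eq_abs _))).mul
    (L1.add (OT8_LB_inner L2 (OT8_LB_const z.2 hz)))
  have e : (fun t => h0 Φ ε t z) = fun t => (1 - ε) *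
      ((∫ τ in (0:ℝ)..z.1, en Φ t τ) - An Φ t * z.1 + inner ℝ (pn Φ t z.1) z.2) := by
    funext t
    unfold h0 Bn
    ring
  rw [e]
  exact L3

theorem hF_lip {Φ Φ0 : ℝ → ℝ × Vec k → ℝ × Vec k → ℝ} {K ε r1 r c C : ℝ} {𝒜 : Set (ℝ × Vec k)}
    (hb : FBase Φ K ε Φ0 𝒜 r1 r c C) {Ψ : ℝ → ℝ × Vec k → ℝ × Vec k → ℝ} {η : ℝ} (hn : NearP Φ0 Ψ 𝒜 r η) {r2 : ℝ}
    (h2 : r2 < r) {w u p : ℝ → ℝ → Vec k} (h : CurveT Ψ r2 w u p) {χ : Vec k → ℝ} (hχ : ContDiff ℝ 1 χ)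
    (hR : ∃ R : ℝ, ∀ v, R ≤ ‖v‖ → χ v = 0) :
    (∀ t z, hF χ Φ ε (t + 1) (Ψ (t + 1)) (w (t + 1)) (u (t + 1)) (p (t + 1)) z =
      hF χ Φ ε t (Ψ t) (w t) (u t) (p t) z) ∧
      (∀ t, Sl (Ψ (t + 1)) (w (t + 1)) (u (t + 1)) 1 = Sl (Ψ t) (w t) (u t) 1) ∧
      ∃ A : ℝ, ∀ t t' z ζ, ‖z.2‖ ≤ 1 → |fderiv ℝ (hF χ Φ ε t (Ψ t) (w t) (u t) (p t)) z ζ| ≤ A * ‖ζ‖ ∧
        |fderiv ℝ (hF χ Φ ε t (Ψ t) (w t) (u t) (p t)) z ζ -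
          fderiv ℝ (hF χ Φ ε t' (Ψ t') (w t') (u t') (p t')) z ζ| ≤ A * ‖ζ‖ * |t - t'| := by
  obtain ⟨pw, pu, pp, pf, pg⟩ := per_allF hb hn h2 h
  have hS1 : ∀ t, Sl (Ψ (t + 1)) (w (t + 1)) (u (t + 1)) = Sl (Ψ t) (w t) (u t) := by
    intro t
    funext θ
    unfold Sl
    congr 1
    funext τ
    exact pf.1 t τ
  refine ⟨fun t z => ?_, fun t => by rw [hS1], ?_⟩
  · unfold hF
    rw [hS1, show w (t + 1) = w t from funext (pw.1 t), show p (t + 1) = p t from funext (pp.1 t),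
      (h0_facts hb.loc ε t).2.2.2]
  have hfc : ∀ t, Continuous (fl (Ψ t) (w t) (u t)) := fun t =>
    h.f_reg.1.comp (Continuous.prodMk_right t)
  have hSd : ∀ t θ, HasDerivAt (Sl (Ψ t) (w t) (u t)) (fl (Ψ t) (w t) (u t) θ) θ := fun t θ =>
    intervalIntegral.integral_hasDerivAt_right ((hfc t).intervalIntegrable _ _)
      (hfc t).aestronglyMeasurable.stronglyMeasurableAtFilter (hfc t).continuousAt
  have hSa : ∀ t θ, Sl (Ψ t) (w t) (u t) (θ + 1) = Sl (Ψ t) (w t) (u t) θ + Sl (Ψ t) (w t) (u t) 1 := by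
    intro t θ
    have h3 : Function.Periodic (fl (Ψ t) (w t) (u t)) 1 := fun θ => pf.2 t θ
    have h4 := h3.intervalIntegral_add_eq θ 0
    rw [zero_add] at h4
    unfold Sl
    rw [← h4, intervalIntegral.integral_add_adjacent_intervals ((hfc t).intervalIntegrable _ _)
      ((hfc t).intervalIntegrable _ _)]
  have hsl : ∀ t, ContDiff ℝ 1 (Sl (Ψ t) (w t) (u t)) := fun t =>
    (OT8_S h).comp (contDiff_const.prodMk contDiff_id)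
  have hwl : ∀ t, ContDiff ℝ 1 (w t) := fun t => (OT8_w h).comp (contDiff_const.prodMk contDiff_id)
  have hpl : ∀ t, ContDiff ℝ 1 (p t) := fun t => (OT8_p h).comp (contDiff_const.prodMk contDiff_id)
  have ha1 : ContDiff ℝ 1 (fun y : ℝ × ℝ => Sl (Ψ y.1) (w y.1) (u y.1) 1) :=
    (hl_smooth hχ h).2.comp contDiff_fst
  obtain ⟨A1, -, b1, c1⟩ := C10_lip h.f_reg pf
  obtain ⟨A2, -, b2, c2⟩ := C10_lip h.g_reg pg
  obtain ⟨A3, -, b3, c3⟩ := C10_lip h.u_reg pu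
  obtain ⟨A4, -, b4, c4⟩ := C10_lip h.w_reg pw
  obtain ⟨A5, -, b5, c5⟩ := C10_lip h.p_reg pp
  obtain ⟨A6, -, b6, c6⟩ := C10_lip (f := fun t _ => Sl (Ψ t) (w t) (u t) 1) (OT8_C10_of ha1)
    ⟨fun t _ => by simp only [hS1], fun _ _ => rfl⟩
  obtain ⟨A7, -, b7, c7⟩ := C10_lip
    (f := fun t θ => Sl (Ψ t) (w t) (u t) θ - Sl (Ψ t) (w t) (u t) 1 * θ)
    (OT8_C10_of ((OT8_S h).sub (ha1.mul contDiff_snd)))
    ⟨fun t θ => by simp only [hS1], fun t θ => by simp only [hSa]; ring⟩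
  obtain ⟨A8, -, hA8⟩ := al_lip hb.loc 1
  obtain ⟨a1, a2⟩ := FO13_A hb.loc
  obtain ⟨A9, -, b9, c9⟩ := C10_lip (f := fun t _ => An Φ t) (OT8_C10_of (a1.comp contDiff_fst))
    ⟨fun t _ => a2 t, fun _ _ => rfl⟩
  obtain ⟨A0, hA0⟩ := FO13_h0L hb.loc ε
  obtain ⟨B1, hB1⟩ := (isCompact_closedBall (0 : Vec k) 1).exists_bound_of_continuousOn
    hχ.continuous.continuousOn
  obtain ⟨B2, hB2⟩ := (isCompact_closedBall (0 : Vec k) 1).exists_bound_of_continuousOn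
    (hχ.continuous_fderiv one_ne_zero).continuousOn
  have key : ∀ t z ζ, fderiv ℝ (hF χ Φ ε t (Ψ t) (w t) (u t) (p t)) z ζ =
      ((1 - ε) * (al Φ t z ζ - An Φ t * ζ.1) +
      (χ z.2 * ((fl (Ψ t) (w t) (u t) z.1 - Sl (Ψ t) (w t) (u t) 1) * ζ.1 +
        ζ.1 * inner ℝ (gw (lg (Ψ t)) (z.1, w t z.1, u t z.1)) (z.2 - w t z.1) +
        inner ℝ (p t z.1) (ζ.2 - ζ.1 • u t z.1)) +
      fderiv ℝ χ z.2 ζ.2 * ((Sl (Ψ t) (w t) (u t) z.1 - Sl (Ψ t) (w t) (u t) 1 * z.1) +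
        inner ℝ (p t z.1) (z.2 - w t z.1)))) -
      (χ z.2 * ((1 - ε) * (al Φ t z ζ - An Φ t * ζ.1)) + fderiv ℝ χ z.2 ζ.2 * h0 Φ ε t z) := by
    intro t z ζ
    have e := hf_fd hχ (hsl t) (hwl t) (hpl t) (Sl (Ψ t) (w t) (u t) 1) z ζ
    rw [(hSd t z.1).deriv, ((h.curve t).dp z.1).deriv, ((h.curve t).dw z.1).deriv] at e
    obtain ⟨g1, g2, -, -⟩ := h0_facts hb.loc ε t
    have hhf : ContDiff ℝ 1 (hf χ (Sl (Ψ t) (w t) (u t)) (Sl (Ψ t) (w t) (u t) 1) (w t) (p t)) :=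
      (hl_smooth hχ h).1.comp (contDiff_const.prodMk contDiff_id)
    have e2 := FO13_fd hχ g1 hhf z ζ
    have e3 : hF χ Φ ε t (Ψ t) (w t) (u t) (p t) = fun z : ℝ × Vec k => h0 Φ ε t z +
        hf χ (Sl (Ψ t) (w t) (u t)) (Sl (Ψ t) (w t) (u t) 1) (w t) (p t) z - χ z.2 * h0 Φ ε t z := by
      funext z
      unfold hF hf
      ring
    rw [e3, e2, e, g2]
  refine ⟨(2 * |1 - ε| * (A8 + 2 * A9 * 1) + (2 * |B1| * (2 * (A1 + A6) * 1 +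
    2 * 1 * (2 * A2 * (1 + A4)) + 2 * A5 * (1 + 2 * 1 * A3)) + 2 * |B2| * (A7 + 2 * A5 * (1 + A4)))) +
    (2 * |B1| * (2 * |1 - ε| * (A8 + 2 * A9 * 1)) + 2 * |B2| * A0), fun t t' z ζ hz => ?_⟩
  have hz' : z.2 ∈ Metric.closedBall (0 : Vec k) 1 := by simpa using hz
  have hχ1 : ‖χ z.2‖ ≤ |B1| := (hB1 _ hz').trans (le_abs_self _)
  have hχ2 : ‖fderiv ℝ χ z.2 ζ.2‖ ≤ |B2| * ‖ζ‖ :=
    ((fderiv ℝ χ z.2).le_opNorm _).trans (mul_le_mul ((hB2 _ hz').trans (le_abs_self _))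
      (norm_snd_le ζ) (norm_nonneg _) (abs_nonneg _))
  have L1 : OT8_LB (fun t => fl (Ψ t) (w t) (u t) z.1) A1 :=
    ⟨fun t => b1 t z.1, fun t t' => c1 t t' z.1⟩
  have L2 : OT8_LB (fun t => gw (lg (Ψ t)) (z.1, w t z.1, u t z.1)) A2 :=
    ⟨fun t => b2 t z.1, fun t t' => c2 t t' z.1⟩
  have L3 : OT8_LB (fun t => u t z.1) A3 := ⟨fun t => b3 t z.1, fun t t' => c3 t t' z.1⟩
  have L4 : OT8_LB (fun t => w t z.1) A4 := ⟨fun t => b4 t z.1, fun t t' => c4 t t' z.1⟩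
  have L5 : OT8_LB (fun t => p t z.1) A5 := ⟨fun t => b5 t z.1, fun t t' => c5 t t' z.1⟩
  have L6 : OT8_LB (fun t => Sl (Ψ t) (w t) (u t) 1) A6 :=
    ⟨fun t => b6 t z.1, fun t t' => c6 t t' z.1⟩
  have L7 : OT8_LB (fun t => Sl (Ψ t) (w t) (u t) z.1 - Sl (Ψ t) (w t) (u t) 1 * z.1) A7 :=
    ⟨fun t => b7 t z.1, fun t t' => c7 t t' z.1⟩
  have L8 : OT8_LB (fun t => al Φ t z ζ) (A8 * ‖ζ‖) :=
    ⟨fun t => (hA8 t t z ζ hz).1, fun t t' => (hA8 t t' z ζ hz).2⟩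
  have L9 : OT8_LB (fun t => An Φ t) A9 := ⟨fun t => b9 t 0, fun t t' => c9 t t' 0⟩
  have L0 : OT8_LB (fun t => h0 Φ ε t z) A0 := hA0 z hz
  have M1 : OT8_LB (fun _ : ℝ => ζ.1) ‖ζ‖ := OT8_LB_const _ (norm_fst_le ζ)
  have M2 : OT8_LB (fun _ : ℝ => ζ.2) ‖ζ‖ := OT8_LB_const _ (norm_snd_le ζ)
  have M3 : OT8_LB (fun t => z.2 - w t z.1) (1 + A4) := (OT8_LB_const z.2 hz).sub L4
  have T1 := (OT8_LB_const (χ z.2) hχ1).mul ((((L1.sub L6).mul M1).add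
    (M1.mul (OT8_LB_inner L2 M3))).add (OT8_LB_inner L5 (M2.sub (M1.smul L3))))
  have T2 := (OT8_LB_const (fderiv ℝ χ z.2 ζ.2) hχ2).mul (L7.add (OT8_LB_inner L5 M3))
  have T3 := (OT8_LB_const (1 - ε) (le_of_eq (Real.norm_eq_abs (1 - ε)))).mul (L8.sub (L9.mul M1))
  have T4 := (OT8_LB_const (χ z.2) hχ1).mul T3
  have T5 := (OT8_LB_const (fderiv ℝ χ z.2 ζ.2) hχ2).mul L0
  have T := (T3.add (T1.add T2)).sub (T4.add T5)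
  constructor
  · have T' := T.1 t
    rw [key]
    rw [Real.norm_eq_abs] at T'
    refine T'.trans (le_of_eq ?_)
    ring
  · have T' := T.2 t t'
    rw [key, key]
    rw [Real.norm_eq_abs] at T'
    refine T'.trans (le_of_eq ?_)
    ring

end EscW.Fo
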