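import Pool.Agent.EscW.OT8

set_option autoImplicit false

/-!
Project EscW, part OT, module OT9: parametrisation by arc length, with the time as a parameter.
`G t θ = ∫_{θ0}^θ f t` (`int_C10`: `C¹` in `(t, θ)`, `∂_θ G = f > 0`, `G t (θ + 1) = G t θ + len`, bijective in `θ`), `ϑ σ t` = the inverse. `C¹`: implicit function theorem, or the map `(t, θ) ↦ (t, G t θ)` is a `C¹` bijection of `ℝ²` with invertible derivative (`HasStrictFDerivAt.toOpenPartialHomeomorph`, `ContDiffAt.to_localInverse`).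
`G t 1 - G t 0 = len`; the last statement: `G t (θ + l) = G t θ + l len`.
-/

noncomputable section

namespace EscW.Ot

open Filter Topology Set EscF.T EscM EscMT MeasureTheory EscW.Ex EscW.Dn EscW.On
open scoped ContDiff

variable {d m k j n : ℕ}

/-- the integral of `f t` from `θ0` -/
def OT9_G (f : ℝ → ℝ → ℝ) (θ0 t θ : ℝ) : ℝ := ∫ τ in θ0..θ, f t τ

theorem OT9_cont {f : ℝ → ℝ → ℝ} (hf : C10 f) (t : ℝ) : Continuous (f t) :=
  hf.1.comp (Continuous.prodMk_right t)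

theorem OT9_smooth {f : ℝ → ℝ → ℝ} (hf : C10 f) (θ0 : ℝ) :
    ContDiff ℝ 1 (fun y : ℝ × ℝ => OT9_G f θ0 y.1 y.2) := int_C10 hf θ0

theorem OT9_deriv {f : ℝ → ℝ → ℝ} (hf : C10 f) (θ0 t θ : ℝ) :
    HasDerivAt (OT9_G f θ0 t) (f t θ) θ := by
  have hc := OT9_cont hf t
  exact intervalIntegral.integral_hasDerivAt_right (hc.intervalIntegrable _ _)
    hc.aestronglyMeasurable.stronglyMeasurableAtFilter hc.continuousAt

theorem OT9_mono {f : ℝ → ℝ → ℝ} (hf : C10 f) (hpos : ∀ t θ, 0 < f t θ) (θ0 t : ℝ) :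
    StrictMono (OT9_G f θ0 t) := by
  apply strictMono_of_deriv_pos
  intro θ
  rw [(OT9_deriv hf θ0 t θ).deriv]
  exact hpos t θ

theorem OT9_add_one {f : ℝ → ℝ → ℝ} (hf : C10 f) (hper : Per2 f) {len : ℝ}
    (hlen : ∀ t, ∫ τ in (0:ℝ)..1, f t τ = len) (θ0 t θ : ℝ) :
    OT9_G f θ0 t (θ + 1) = OT9_G f θ0 t θ + len := by
  have hc := OT9_cont hf t
  have h1 : ∫ τ in θ..θ + 1, f t τ = len := by
    have h2 : Function.Periodic (f t) 1 := fun θ => hper.2 t θ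
    rw [h2.intervalIntegral_add_eq θ 0, zero_add, hlen t]
  unfold OT9_G
  rw [← h1, intervalIntegral.integral_add_adjacent_intervals (hc.intervalIntegrable _ _)
    (hc.intervalIntegrable _ _)]

theorem OT9_add_nat {f : ℝ → ℝ → ℝ} (hf : C10 f) (hper : Per2 f) {len : ℝ}
    (hlen : ∀ t, ∫ τ in (0:ℝ)..1, f t τ = len) (θ0 t θ : ℝ) (l : ℕ) :
    OT9_G f θ0 t (θ + l) = OT9_G f θ0 t θ + l * len := by
  induction l with
  | zero => simp
  | succ l ih =>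
    push_cast
    rw [← add_assoc, OT9_add_one hf hper hlen, ih]
    ring

theorem OT9_add_int {f : ℝ → ℝ → ℝ} (hf : C10 f) (hper : Per2 f) {len : ℝ}
    (hlen : ∀ t, ∫ τ in (0:ℝ)..1, f t τ = len) (θ0 t θ : ℝ) (l : ℤ) :
    OT9_G f θ0 t (θ + l) = OT9_G f θ0 t θ + l * len := by
  obtain ⟨n, rfl | rfl⟩ := l.eq_nat_or_neg
  · exact_mod_cast OT9_add_nat hf hper hlen θ0 t θ n
  · have h := OT9_add_nat hf hper hlen θ0 t (θ + ((-(n : ℤ) : ℤ) : ℝ)) n
    push_cast at h ⊢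
    rw [neg_add_cancel_right] at h
    rw [h]
    ring

theorem OT9_surj {f : ℝ → ℝ → ℝ} (hf : C10 f) (hper : Per2 f) {len : ℝ} (hl : 0 < len)
    (hlen : ∀ t, ∫ τ in (0:ℝ)..1, f t τ = len) (θ0 t : ℝ) :
    Function.Surjective (OT9_G f θ0 t) := by
  intro σ
  have hcont : Continuous (OT9_G f θ0 t) :=
    continuous_iff_continuousAt.2 fun θ => (OT9_deriv hf θ0 t θ).continuousAt
  obtain ⟨n, hn⟩ := exists_int_gt (σ / len)
  obtain ⟨n', hn'⟩ := exists_int_lt (σ / len)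
  have h0 : OT9_G f θ0 t θ0 = 0 := by
    unfold OT9_G
    exact intervalIntegral.integral_same
  have h1 : σ ≤ OT9_G f θ0 t (θ0 + n) := by
    rw [OT9_add_int hf hper hlen, h0, zero_add]
    exact ((div_lt_iff₀ hl).1 hn).le
  have h2 : OT9_G f θ0 t (θ0 + n') ≤ σ := by
    rw [OT9_add_int hf hper hlen, h0, zero_add]
    exact ((lt_div_iff₀ hl).1 hn').le
  obtain ⟨θ, hθ⟩ := intermediate_value_univ₂ (a := θ0 + (n' : ℝ)) (b := θ0 + (n : ℝ)) hcont continuous_const h2 h1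
  exact ⟨θ, hθ⟩

/-- the derivative of `(t, θ) ↦ (t, G t θ)` as an equivalence -/
theorem OT9_equiv (L : ℝ × ℝ →L[ℝ] ℝ) (c : ℝ) (hc : c ≠ 0) (hL : ∀ x, L (0, x) = c * x) :
    ∃ e : (ℝ × ℝ) ≃L[ℝ] (ℝ × ℝ), (e : ℝ × ℝ →L[ℝ] ℝ × ℝ) =
      (ContinuousLinearMap.fst ℝ ℝ ℝ).prod L := by
  have hsplit : ∀ x y : ℝ, L (x, y) = L (x, 0) + c * y := by
    intro x y
    rw [← hL y, ← map_add]
    simp
  refine ⟨ContinuousLinearEquiv.equivOfInverse ((ContinuousLinearMap.fst ℝ ℝ ℝ).prod L)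
    ((ContinuousLinearMap.fst ℝ ℝ ℝ).prod
      (c⁻¹ • (ContinuousLinearMap.snd ℝ ℝ ℝ - L.comp
        ((ContinuousLinearMap.inl ℝ ℝ ℝ).comp (ContinuousLinearMap.fst ℝ ℝ ℝ))))) ?_ ?_, ?_⟩
  · rintro ⟨x, y⟩
    simp only [ContinuousLinearMap.prod_apply, ContinuousLinearMap.coe_fst', ContinuousLinearMap.coe_snd',
      _root_.smul_apply, _root_.sub_apply, ContinuousLinearMap.comp_apply,
      ContinuousLinearMap.inl_apply, smul_eq_mul, Prod.mk.injEq, true_and]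
    rw [hsplit x y, add_sub_cancel_left, ← mul_assoc, inv_mul_cancel₀ hc, one_mul]
  · rintro ⟨x, y⟩
    simp only [ContinuousLinearMap.prod_apply, ContinuousLinearMap.coe_fst', ContinuousLinearMap.coe_snd',
      _root_.smul_apply, _root_.sub_apply, ContinuousLinearMap.comp_apply,
      ContinuousLinearMap.inl_apply, smul_eq_mul, Prod.mk.injEq, true_and]
    rw [hsplit x, ← mul_assoc, mul_inv_cancel₀ hc, one_mul]
    ring
  · ext <;> rfl

/-- smoothness of the inverse -/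
theorem OT9_inv {G : ℝ × ℝ → ℝ} (hG : ContDiff ℝ 1 G) {g : ℝ → ℝ → ℝ} (hg : ∀ t θ, g t θ ≠ 0)
    (hd : ∀ t θ, HasDerivAt (fun θ => G (t, θ)) (g t θ) θ) {ϑ : ℝ → ℝ → ℝ}
    (h1 : ∀ σ t, G (t, ϑ σ t) = σ) (h2 : ∀ t θ, ϑ (G (t, θ)) t = θ) :
    ContDiff ℝ 1 (fun y : ℝ × ℝ => ϑ y.1 y.2) := by
  have hΨ : ContDiff ℝ 1 (fun y : ℝ × ℝ => (y.1, G y)) := contDiff_fst.prodMk hG
  have hinv : ContDiff ℝ 1 (fun y : ℝ × ℝ => (y.1, ϑ y.2 y.1)) := by
    rw [contDiff_iff_contDiffAt]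
    rintro ⟨t, σ⟩
    set a : ℝ × ℝ := (t, ϑ σ t) with ha
    have hfa : (a.1, G a) = (t, σ) := by
      rw [ha, h1]
    have hGa : HasFDerivAt G (fderiv ℝ G a) a := (hG.differentiable one_ne_zero a).hasFDerivAt
    have hL : ∀ x, fderiv ℝ G a (0, x) = g t (ϑ σ t) * x := by
      intro x
      have h3 : HasDerivAt (fun θ : ℝ => (t, θ)) ((0 : ℝ), (1 : ℝ)) (ϑ σ t) :=
        (hasDerivAt_const _ _).prodMk (hasDerivAt_id _)
      have h4 := (hGa.comp_hasDerivAt (ϑ σ t) h3).unique (hd t (ϑ σ t))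
      have h5 : ((0 : ℝ), x) = x • ((0 : ℝ), (1 : ℝ)) := by simp
      rw [h5, map_smul, h4, smul_eq_mul, mul_comm]
    obtain ⟨e, he⟩ := OT9_equiv (fderiv ℝ G a) (g t (ϑ σ t)) (hg _ _) hL
    have hfd : HasFDerivAt (fun y : ℝ × ℝ => (y.1, G y)) (e : ℝ × ℝ →L[ℝ] ℝ × ℝ) a := by
      rw [he]
      exact hasFDerivAt_fst.prodMk hGa
    have hat : ContDiffAt ℝ 1 (fun y : ℝ × ℝ => (y.1, G y)) a := hΨ.contDiffAt
    have hst := hat.hasStrictFDerivAt' hfd one_ne_zero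
    have hloc := hat.to_localInverse hfd one_ne_zero
    rw [hfa] at hloc
    refine hloc.congr_of_eventuallyEq ?_
    have hev := hst.eventually_right_inverse
    rw [hfa] at hev
    filter_upwards [hev] with y hy
    obtain ⟨y1, y2⟩ := y
    have h6 := congrArg Prod.fst hy
    have h7 := congrArg Prod.snd hy
    simp only at h6 h7
    change (y1, ϑ y2 y1) = hat.localInverse hfd one_ne_zero (y1, y2)
    have h8 : hat.localInverse hfd one_ne_zero (y1, y2) = hst.localInverse _ _ _ (y1, y2) := rfl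
    rw [h8]
    have h9 := h2 (hst.localInverse _ _ _ (y1, y2)).1 (hst.localInverse _ _ _ (y1, y2)).2
    rw [Prod.mk.eta, h7, h6] at h9
    exact Prod.ext h6.symm h9
  exact contDiff_snd.comp (hinv.comp (contDiff_snd.prodMk contDiff_fst))

theorem exists_paramT {f : ℝ → ℝ → ℝ} (hf : C10 f) (hpos : ∀ t θ, 0 < f t θ) (hper : Per2 f) {len : ℝ}
    (hlen : ∀ t, ∫ τ in (0:ℝ)..1, f t τ = len) (θ0 : ℝ) : ∃ ϑ : ℝ → ℝ → ℝ,
      ContDiff ℝ 1 (fun y : ℝ × ℝ => ϑ y.1 y.2) ∧ (∀ t, ϑ 0 t = θ0) ∧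
      (∀ σ t, HasDerivAt (fun σ => ϑ σ t) (f t (ϑ σ t))⁻¹ σ) ∧ (∀ σ t, ϑ (σ + len) t = ϑ σ t + 1) ∧
      (∀ σ t, ϑ σ (t + 1) = ϑ σ t) ∧ (∀ t, Function.Surjective (fun σ => ϑ σ t)) ∧
      ∀ (σ σ' t : ℝ) (l : ℤ), ϑ σ t = ϑ σ' t + l → σ - σ' = l * len := by
  have hl : 0 < len := by
    rw [← hlen 0]
    exact intervalIntegral.intervalIntegral_pos_of_pos
      ((OT9_cont hf 0).intervalIntegrable _ _) (hpos 0) one_pos
  have hsurj := OT9_surj hf hper hl hlen θ0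
  have hmono := OT9_mono hf hpos θ0
  choose ϑ' hϑ' using hsurj
  have h1 : ∀ σ t, OT9_G f θ0 t (ϑ' t σ) = σ := fun σ t => hϑ' t σ
  have h2 : ∀ t θ, ϑ' t (OT9_G f θ0 t θ) = θ := fun t θ => (hmono t).injective (hϑ' t _)
  have hsm : ContDiff ℝ 1 (fun y : ℝ × ℝ => ϑ' y.2 y.1) :=
    OT9_inv (G := fun y => OT9_G f θ0 y.1 y.2) (OT9_smooth hf θ0)
      (fun t θ => (hpos t θ).ne') (fun t θ => OT9_deriv hf θ0 t θ) (ϑ := fun σ t => ϑ' t σ) h1 h2
  refine ⟨fun σ t => ϑ' t σ, hsm, fun t => ?_, fun σ t => ?_, fun σ t => ?_, fun σ t => ?_,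
    fun t θ => ⟨OT9_G f θ0 t θ, h2 t θ⟩, fun σ σ' t l h => ?_⟩
  · have h0 : OT9_G f θ0 t θ0 = 0 := by
      unfold OT9_G
      exact intervalIntegral.integral_same
    have h3 := h2 t θ0
    rwa [h0] at h3
  · have hc : Continuous (fun σ => ϑ' t σ) := hsm.continuous.comp (Continuous.prodMk_left t)
    exact HasDerivAt.of_local_left_inverse hc.continuousAt (OT9_deriv hf θ0 t (ϑ' t σ))
      (hpos _ _).ne' (Eventually.of_forall fun σ => h1 σ t)
  · apply (hmono t).injective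
    rw [h1, OT9_add_one hf hper hlen, h1]
  · apply (hmono t).injective
    have h3 : OT9_G f θ0 (t + 1) = OT9_G f θ0 t := by
      funext θ
      unfold OT9_G
      congr 1
      funext τ
      exact hper.1 t τ
    rw [h1, ← h3, h1]
  · have h3 := congrArg (OT9_G f θ0 t) h
    rw [OT9_add_int hf hper hlen] at h3
    simp only [h1] at h3
    rw [h3]
    ring

end EscW.Ot
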