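import Pool.Agent.EscW.FO12
import Pool.Agent.EscW.FO13
import Pool.Agent.EscW.OT9
import Pool.Agent.EscW.OT10

set_option autoImplicit false

/-!
Project EscW, part FO, module FO14: the calibrated curves in the domain.
As `calibratedT` (module OT10, `Pool/Agent/EscW/OT10.lean`; read its proof). `a t = Sl (Ψ t) (w t) (u t) 1 > 0` (`hpos`), `μ t = (a t)⁻¹`, `f t θ = μ t * fl (Ψ t) (w t) (u t) θ`, `ϑ` of `exists_paramT` with `len = 1`, `B x t = x i + μ t h_t (T x)`, `c σ t = Λ (ϑ σ t, w t (ϑ σ t))`, `‖w‖ < r`. `smooth`, `lip`: `hF_smooth`, `hF_lip` with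
`‖(T x).2‖ ≤ 1` (`FBase.bdA`, `GeoL.maps`), `‖fderiv T x‖ ≤ C`. `le`: `FCal.le`. `only`: `FCal.only`, `ζ = DT v ≠ 0` (`Geo.inj`): `T x = (θ, w θ) = T (Λ (θ, w θ))` (`right`), `Geo.uniq`, `ϑ` is surjective. `cal`, `unit`: `FCal.cal`, `Ψ (θ, w) (1, deriv w) = fl θ` (`CurveAt.dw`), `NearP.hom`. `closed`: `GeoL.per`.
`simple`: `hφ`, `right`, last part of `exists_paramT`.
-/

noncomputable section

namespace EscW.Fo

open Filter Topology Set EscF.T EscM EscMT MeasureTheory EscW.Ex EscW.Dn EscW.On EscW.Ot EscW.Fn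
open scoped ContDiff

variable {d m k j n : ℕ}

theorem calibrated_fo {Φ Φ0 : ℝ → ℝ × Vec (j + 1) → ℝ × Vec (j + 1) → ℝ} {K ε r1 r c C : ℝ}
    {𝒜 : Set (ℝ × Vec (j + 1))} (hb : FBase Φ K ε Φ0 𝒜 r1 r c C)
    {Ψ : ℝ → ℝ × Vec (j + 1) → ℝ × Vec (j + 1) → ℝ} {η : ℝ} (hn : NearP Φ0 Ψ 𝒜 r η) {s r2 : ℝ} (h2 : r2 < r)
    {w u p : ℝ → ℝ → Vec (j + 1)} (h : CurveT Ψ r2 w u p) {χ : Vec (j + 1) → ℝ} (hχ : ContDiff ℝ 1 χ)
    (hR : ∃ R : ℝ, ∀ v, R ≤ ‖v‖ → χ v = 0) (hpos : ∀ t θ, 0 < fl (Ψ t) (w t) (u t) θ)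
    (hcal : ∀ t, FCal Φ ε t (Ψ t) 𝒜 s (Sl (Ψ t) (w t) (u t) 1) (w t)
      (hF χ Φ ε t (Ψ t) (w t) (u t) (p t)))
    {M' : Sub m} {O K' : Set (Vec m)} {i : Fin m} {T : Vec m → ℝ × Vec (j + 1)} {cv : ℝ → Vec m}
    {Θ S : Vec (j + 2) → ℝ} {bar : Vec m → ℝ} {θ0 : ℝ} {n : Fin m → ℤ} {γ : ℝ → Vec m}
    {wp : ℝ → Vec (j + 1)} {C0 δ : ℝ} (hC0 : 0 < C0) (hδ : 0 < δ)
    (hG : Geo M' O K' i T cv Θ S bar θ0 n γ wp C0 δ) {Λ : ℝ × Vec (j + 1) → Vec m}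
    (hL : GeoL M' O K' i T cv Θ S bar C0 δ 𝒜 Λ r) {φ : Vec m → Vec d} {F : Vec m → Vec m → ℝ → ℝ}
    (hF' : ∀ x ∈ M'.N ∩ O, ∀ v t, F x v t = Ψ t (T x) (fderiv ℝ T x v))
    (hφ : ∀ x ∈ M'.N ∩ O, ∀ y ∈ M'.N ∩ O, ∀ l : Fin d → ℤ, φ x = φ y + vz l →
      ∃ l' : ℤ, (T x).1 = (T y).1 + l') (θ1 : ℝ) :
    IsWeight (fun t => (Sl (Ψ t) (w t) (u t) 1)⁻¹) ∧ ∃ ϑ : ℝ → ℝ → ℝ, (∀ t, ϑ 0 t = θ1) ∧
      IsCalibratedW M' O φ (fun x v t => (Sl (Ψ t) (w t) (u t) 1)⁻¹ * F x v t)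
        (fun x t => (Sl (Ψ t) (w t) (u t) 1)⁻¹ *
          (Sl (Ψ t) (w t) (u t) 1 * x i + hF χ Φ ε t (Ψ t) (w t) (u t) (p t) (T x))) i 1
        (fun σ t => Λ (ϑ σ t, w t (ϑ σ t))) := by
  set a : ℝ → ℝ := fun t => Sl (Ψ t) (w t) (u t) 1 with ha
  set H : ℝ → ℝ × Vec (j + 1) → ℝ := fun t => hF χ Φ ε t (Ψ t) (w t) (u t) (p t) with hH
  have hc : AnnCover M' O i 𝒜 r T Λ :=
    { isOpen := hG.isOpen
      smooth := hG.smooth
      fst := hG.fst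
      per := hG.per
      maps := hL.maps
      inj := hG.inj
      uniq := hG.uniq
      smooth' := hL.smooth
      mem := fun z hz => hG.sub (hL.mem z hz)
      right := hL.right
      per' := hL.per }
  obtain ⟨hper1, hper2, AL', hAL'⟩ := hF_lip hb hn h2 h hχ hR
  obtain ⟨hsm1, hsm2⟩ := hF_smooth hb h hχ
  obtain ⟨hpw, hpu, hpp, hpf, hpg⟩ := per_allF hb hn h2 h
  change ∀ t z, H (t + 1) z = H t z at hper1
  change ∀ t, a (t + 1) = a t at hper2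
  change ContDiff ℝ 1 a at hsm2
  change ContDiff ℝ 1 (fun y : ℝ × (ℝ × Vec (j + 1)) => H y.1 y.2) at hsm1
  change ∀ t t' z ζ, ‖z.2‖ ≤ 1 → |fderiv ℝ (H t) z ζ| ≤ AL' * ‖ζ‖ ∧
    |fderiv ℝ (H t) z ζ - fderiv ℝ (H t') z ζ| ≤ AL' * ‖ζ‖ * |t - t'| at hAL'
  change ∀ t, FCal Φ ε t (Ψ t) 𝒜 s (a t) (w t) (H t) at hcal
  obtain ⟨AL, hAL0, hAL⟩ : ∃ AL : ℝ, 0 ≤ AL ∧ ∀ t t' z ζ, ‖z.2‖ ≤ 1 →
      |fderiv ℝ (H t) z ζ| ≤ AL * ‖ζ‖ ∧ |fderiv ℝ (H t) z ζ - fderiv ℝ (H t') z ζ| ≤ AL * ‖ζ‖ * |t - t'| := by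
    refine ⟨max AL' 0, le_max_right _ _, fun t t' z ζ hz => ⟨(hAL' t t' z ζ hz).1.trans ?_,
      (hAL' t t' z ζ hz).2.trans ?_⟩⟩
    · exact mul_le_mul_of_nonneg_right (le_max_left _ _) (norm_nonneg _)
    · exact mul_le_mul_of_nonneg_right (mul_le_mul_of_nonneg_right (le_max_left _ _) (norm_nonneg _))
        (abs_nonneg _)
  have ha1 : ∀ t, 0 < a t := fun t => intervalIntegral.intervalIntegral_pos_of_pos
    ((OT9_cont h.f_reg t).intervalIntegrable _ _) (hpos t) one_pos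
  set μ : ℝ → ℝ := fun t => (a t)⁻¹ with hμ
  have hμ1 : ∀ t, 0 < μ t := fun t => inv_pos.2 (ha1 t)
  have hμa : ∀ t, μ t * a t = 1 := fun t => inv_mul_cancel₀ (ha1 t).ne'
  have hμs : ContDiff ℝ 1 μ := hsm2.inv fun t => (ha1 t).ne'
  have hμp : ∀ t, μ (t + 1) = μ t := by
    intro t
    simp only [hμ, hper2]
  have hw : ∀ t θ, ‖w t θ‖ < r := fun t θ => ((h.curve t).w_small θ).trans_lt h2
  -- the weight
  obtain ⟨Aμ, hAμ0, hAμ1, hAμ2⟩ := C10_lip (OT10_C1 hμs) ⟨fun t _ => hμp t, fun _ _ => rfl⟩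
  have hW : IsWeight μ := ⟨hμ1, hμp, Aμ, fun t t' => by
    have h3 := hAμ2 t t' 0
    rwa [Real.norm_eq_abs] at h3⟩
  refine ⟨hW, ?_⟩
  -- the parametrisation
  set f : ℝ → ℝ → ℝ := fun t θ => μ t * fl (Ψ t) (w t) (u t) θ with hf
  have hf1 : C10 f := OT10_mul hμs h.f_reg
  have hfl : ∀ t θ, fl (Ψ t) (w t) (u t) θ = Ψ t (θ, w t θ) (1, u t θ) := fun t θ => rfl
  have hfpos : ∀ t θ, 0 < fl (Ψ t) (w t) (u t) θ := hpos
  have hf2 : ∀ t θ, 0 < f t θ := fun t θ => mul_pos (hμ1 t) (hfpos t θ)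
  have hf3 : Per2 f := by
    constructor
    · intro t θ
      simp only [hf, hμp]
      rw [show fl (Ψ (t + 1)) (w (t + 1)) (u (t + 1)) θ = fl (Ψ t) (w t) (u t) θ from hpf.1 t θ]
    · intro t θ
      simp only [hf]
      rw [show fl (Ψ t) (w t) (u t) (θ + 1) = fl (Ψ t) (w t) (u t) θ from hpf.2 t θ]
  have hf4 : ∀ t, ∫ τ in (0:ℝ)..1, f t τ = 1 := by
    intro t
    simp only [hf]
    rw [intervalIntegral.integral_const_mul]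
    exact hμa t
  obtain ⟨ϑ, hϑ1, hϑ2, hϑ3, hϑ4, hϑ5, hϑ6, hϑ7⟩ := exists_paramT hf1 hf2 hf3 hf4 θ1
  refine ⟨ϑ, hϑ2, ?_⟩
  have hT : ∀ σ t, T (Λ (ϑ σ t, w t (ϑ σ t))) = (ϑ σ t, w t (ϑ σ t)) := fun σ t =>
    hc.right _ (hw t _)
  have hmem : ∀ σ t, Λ (ϑ σ t, w t (ϑ σ t)) ∈ M'.N ∩ O := fun σ t => hc.mem _ (hw t _)
  have hww : ContDiff ℝ 1 (fun y : ℝ × ℝ => w y.1 y.2) :=
    C1_of h.w_reg h.u_reg.1 fun t θ => (h.curve t).dw θ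
  have hcurve : ContDiff ℝ 1 (fun q : ℝ × ℝ => Λ (ϑ q.1 q.2, w q.2 (ϑ q.1 q.2))) := by
    have h3 : ContDiff ℝ 1 (fun q : ℝ × ℝ => (ϑ q.1 q.2, w q.2 (ϑ q.1 q.2))) :=
      hϑ1.prodMk (hww.comp (contDiff_snd.prodMk hϑ1))
    have h4 := ContDiffOn.comp (s := univ) hc.smooth' h3.contDiffOn (fun q _ => hw _ _)
    exact contDiffOn_univ.1 h4
  have hHs : ∀ t, ContDiff ℝ 1 (H t) := fun t => (hcal t).h_smooth
  have hgam : ∀ σ t, HasDerivAt (fun σ => (ϑ σ t, w t (ϑ σ t)))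
      ((f t (ϑ σ t))⁻¹ • ((1 : ℝ), u t (ϑ σ t))) σ := by
    intro σ t
    have h3 := hϑ3 σ t
    have h4 : HasDerivAt (fun σ => w t (ϑ σ t)) ((f t (ϑ σ t))⁻¹ • u t (ϑ σ t)) σ :=
      HasDerivAt.scomp (g₁ := w t) σ ((h.curve t).dw (ϑ σ t)) h3
    have h5 := h3.prodMk h4
    have h6 : (f t (ϑ σ t))⁻¹ • ((1 : ℝ), u t (ϑ σ t)) =
        ((f t (ϑ σ t))⁻¹, (f t (ϑ σ t))⁻¹ • u t (ϑ σ t)) := by
      simp
    rw [h6]
    exact h5
  -- the derivative of the calibrating functions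
  have hD : ∀ x ∈ M'.N ∩ O, ∀ v, IsTangent M' x v → ∀ t,
      fderiv ℝ (fun y => μ t * (a t * (M'.r y) i + H t (T (M'.r y)))) x v =
        μ t * (a t * (fderiv ℝ T x v).1 + fderiv ℝ (H t) (T x) (fderiv ℝ T x v)) := by
    intro x hx v hv t
    exact OT10_fderiv hc (hHs t) (μ t) (a t) hx hv
  obtain ⟨CT, hCT0, hCT⟩ := OT10_DT hc
  refine
  { smooth := ?_
    periodic := ?_
    periods := ?_
    lip := ?_
    le := ?_
    len_pos := one_pos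
    curve := hcurve
    mem := hmem
    closed := ?_
    curve_per := ?_
    unit := ?_
    cal := ?_
    only := ?_
    simple := ?_ }
  · have h3 : ContDiffOn ℝ 1 (fun q : Vec m × ℝ => M'.r q.1) {q | q.1 ∈ M'.U ∧ M'.r q.1 ∈ O} :=
      (M'.smooth.of_le (by simp)).comp contDiffOn_fst (fun q hq => hq.1)
    have h4 : ContDiffOn ℝ 1 (fun q : Vec m × ℝ => T (M'.r q.1)) {q | q.1 ∈ M'.U ∧ M'.r q.1 ∈ O} :=
      hc.smooth.comp_contDiffOn h3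
    have h5 : ContDiffOn ℝ 1 (fun q : Vec m × ℝ => (q.2, T (M'.r q.1)))
        {q | q.1 ∈ M'.U ∧ M'.r q.1 ∈ O} := contDiffOn_snd.prodMk h4
    have h6 : ContDiffOn ℝ 1 (fun q : Vec m × ℝ => H q.2 (T (M'.r q.1)))
        {q | q.1 ∈ M'.U ∧ M'.r q.1 ∈ O} := hsm1.comp_contDiffOn h5
    have h7 : ContDiffOn ℝ 1 (fun q : Vec m × ℝ => (M'.r q.1) i)
        {q | q.1 ∈ M'.U ∧ M'.r q.1 ∈ O} :=
      ((EuclideanSpace.proj i : Vec m →L[ℝ] ℝ).contDiff.comp_contDiffOn h3)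
    have h8 : ContDiffOn ℝ 1 (fun q : Vec m × ℝ => a q.2) {q | q.1 ∈ M'.U ∧ M'.r q.1 ∈ O} :=
      (hsm2.comp contDiff_snd).contDiffOn
    have h9 : ContDiffOn ℝ 1 (fun q : Vec m × ℝ => μ q.2) {q | q.1 ∈ M'.U ∧ M'.r q.1 ∈ O} :=
      (hμs.comp contDiff_snd).contDiffOn
    exact h9.mul ((h8.mul h7).add h6)
  · intro x _ t
    change μ (t + 1) * (a (t + 1) * x i + H (t + 1) (T x)) = μ t * (a t * x i + H t (T x))
    rw [hμp, hper2, hper1]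
  · intro q
    refine ⟨(q i : ℝ), fun x _ t => ?_⟩
    change μ t * (a t * (x + vz q) i + H t (T (x + vz q))) = μ t * (a t * x i + H t (T x)) + q i
    have h3 : H t (T (x + vz q)) = H t (T x) := by
      have h4 : T (x + vz q) = ((T x).1 + ((q i : ℤ) : ℝ), (T x).2) := by
        apply Prod.ext
        · simp only [hc.fst]
          simp [vz]
        · exact hc.per q x
      have h5 : Function.Periodic (fun θ => H t (θ, (T x).2)) 1 := fun θ => (hcal t).h_per θ _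
      have h6 := h5.int_mul (q i) (T x).1
      rw [h4]
      simpa using h6
    rw [h3]
    have h4 : (x + vz q) i = x i + q i := by simp [vz]
    rw [h4]
    have h5 := hμa t
    linear_combination (q i : ℝ) * h5
  · refine ⟨(Aμ * (AL * CT) + Aμ * (AL * CT)), fun x hx v hv t t' => ?_⟩
    rw [hD x hx v hv t, hD x hx v hv t']
    set ζ := fderiv ℝ T x v with hζ
    have h3 : ‖ζ‖ ≤ CT * ‖v‖ :=
      ((fderiv ℝ T x).le_opNorm v).trans (mul_le_mul_of_nonneg_right (hCT x) (norm_nonneg _))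
    have hz1 : ‖(T x).2‖ ≤ 1 := hb.bdA _ (hL.maps x hx)
    have h4 : |fderiv ℝ (H t) (T x) ζ| ≤ AL * ‖ζ‖ := (hAL t t' (T x) ζ hz1).1
    have h5 := (hAL t t' (T x) ζ hz1).2
    have h6 : |μ t - μ t'| ≤ Aμ * |t - t'| := by
      have h7 := hAμ2 t t' 0
      rwa [Real.norm_eq_abs] at h7
    have h7 : |μ t'| ≤ Aμ := by
      have h8 := hAμ1 t' 0
      rwa [Real.norm_eq_abs] at h8
    have h8 : μ t * (a t * ζ.1 + fderiv ℝ (H t) (T x) ζ) - μ t' * (a t' * ζ.1 + fderiv ℝ (H t') (T x) ζ) =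
        (μ t - μ t') * fderiv ℝ (H t) (T x) ζ +
          μ t' * (fderiv ℝ (H t) (T x) ζ - fderiv ℝ (H t') (T x) ζ) := by
      have h9 := hμa t
      have h10 := hμa t'
      linear_combination ζ.1 * h9 - ζ.1 * h10
    rw [h8]
    have h9 : |(μ t - μ t') * fderiv ℝ (H t) (T x) ζ| ≤ Aμ * |t - t'| * (AL * (CT * ‖v‖)) := by
      rw [abs_mul]
      exact mul_le_mul h6 (h4.trans (mul_le_mul_of_nonneg_left h3 hAL0)) (abs_nonneg _)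
        (mul_nonneg hAμ0 (abs_nonneg _))
    have h10 : |μ t' * (fderiv ℝ (H t) (T x) ζ - fderiv ℝ (H t') (T x) ζ)| ≤
        Aμ * (AL * (CT * ‖v‖) * |t - t'|) := by
      rw [abs_mul]
      refine mul_le_mul h7 ?_ (abs_nonneg _) hAμ0
      exact h5.trans (mul_le_mul_of_nonneg_right (mul_le_mul_of_nonneg_left h3 hAL0) (abs_nonneg _))
    calc |(μ t - μ t') * fderiv ℝ (H t) (T x) ζ +
          μ t' * (fderiv ℝ (H t) (T x) ζ - fderiv ℝ (H t') (T x) ζ)|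
        ≤ Aμ * |t - t'| * (AL * (CT * ‖v‖)) + Aμ * (AL * (CT * ‖v‖) * |t - t'|) :=
          (abs_add_le _ _).trans (add_le_add h9 h10)
      _ = (Aμ * (AL * CT) + Aμ * (AL * CT)) * ‖v‖ * |t - t'| := by ring
  · intro x hx v hv t
    change fderiv ℝ (fun y => μ t * (a t * (M'.r y) i + H t (T (M'.r y)))) x v ≤ μ t * F x v t
    rw [hD x hx v hv t, hF' x hx]
    exact mul_le_mul_of_nonneg_left ((hcal t).le _ (hc.maps x hx) _) (hμ1 t).le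
  · intro σ t
    rw [hϑ4, (h.curve t).w_per]
    exact hc.per' _ _ (hw _ _)
  · intro σ t
    rw [hϑ5, h.w_t]
  · intro σ t
    change μ t * F (Λ (ϑ σ t, w t (ϑ σ t))) (deriv (fun σ => Λ (ϑ σ t, w t (ϑ σ t))) σ) t = 1
    rw [hF' _ (hmem σ t)]
    have h3 : DifferentiableAt ℝ (fun σ => Λ (ϑ σ t, w t (ϑ σ t))) σ := by
      have h4 : ContDiff ℝ 1 (fun σ => Λ (ϑ σ t, w t (ϑ σ t))) :=
        hcurve.comp (contDiff_id.prodMk contDiff_const)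
      exact (h4.differentiable (by simp)).differentiableAt
    have h4 : HasDerivAt (fun σ => T (Λ (ϑ σ t, w t (ϑ σ t))))
        (fderiv ℝ T (Λ (ϑ σ t, w t (ϑ σ t))) (deriv (fun σ => Λ (ϑ σ t, w t (ϑ σ t))) σ)) σ :=
      HasFDerivAt.comp_hasDerivAt (l := T) σ
        (hc.smooth.differentiable (by simp)).differentiableAt.hasFDerivAt h3.hasDerivAt
    have h5 : (fun σ => T (Λ (ϑ σ t, w t (ϑ σ t)))) = fun σ => (ϑ σ t, w t (ϑ σ t)) := by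
      funext σ
      exact hT σ t
    rw [h5] at h4
    rw [h4.unique (hgam σ t), hT]
    have h6 := hn.hom t _ (hb.tubeA (ϑ σ t, w t (ϑ σ t)) (hw _ _).le) ((1 : ℝ), u t (ϑ σ t))
      (f t (ϑ σ t))⁻¹ (inv_pos.2 (hf2 _ _)).le
    rw [h6, ← hfl]
    have h7 : f t (ϑ σ t) = μ t * fl (Ψ t) (w t) (u t) (ϑ σ t) := rfl
    have h8 := (hf2 t (ϑ σ t)).ne'
    calc μ t * ((f t (ϑ σ t))⁻¹ * fl (Ψ t) (w t) (u t) (ϑ σ t)) =
        (f t (ϑ σ t))⁻¹ * (μ t * fl (Ψ t) (w t) (u t) (ϑ σ t)) := by ring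
      _ = (f t (ϑ σ t))⁻¹ * f t (ϑ σ t) := by rw [h7]
      _ = 1 := inv_mul_cancel₀ h8
  · intro σ t
    change μ t * (a t * (Λ (ϑ σ t, w t (ϑ σ t))) i + H t (T (Λ (ϑ σ t, w t (ϑ σ t))))) =
      μ t * (a t * (Λ (ϑ 0 t, w t (ϑ 0 t))) i + H t (T (Λ (ϑ 0 t, w t (ϑ 0 t))))) + σ
    rw [← hc.fst, ← hc.fst, hT, hT]
    have h3 : ∀ σ, HasDerivAt (fun σ => μ t * (a t * ϑ σ t + H t (ϑ σ t, w t (ϑ σ t))) - σ) 0 σ := by
      intro σ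
      have h4 : HasDerivAt (fun σ => H t (ϑ σ t, w t (ϑ σ t)))
          (fderiv ℝ (H t) (ϑ σ t, w t (ϑ σ t)) ((f t (ϑ σ t))⁻¹ • ((1 : ℝ), u t (ϑ σ t)))) σ :=
        HasFDerivAt.comp_hasDerivAt (l := H t) σ
          ((hHs t).differentiable (by simp)).differentiableAt.hasFDerivAt (hgam σ t)
      have h5 := ((((hϑ3 σ t).const_mul (a t)).add h4).const_mul (μ t)).sub (hasDerivAt_id σ)
      have h6 : μ t * (a t * (f t (ϑ σ t))⁻¹ +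
          fderiv ℝ (H t) (ϑ σ t, w t (ϑ σ t)) ((f t (ϑ σ t))⁻¹ • ((1 : ℝ), u t (ϑ σ t)))) - 1 = 0 := by
        rw [map_smul, smul_eq_mul]
        have h7 := (hcal t).cal (ϑ σ t)
        rw [((h.curve t).dw (ϑ σ t)).deriv] at h7
        have h8 := (hf2 t (ϑ σ t)).ne'
        have h9 : f t (ϑ σ t) = μ t * (a t + fderiv ℝ (H t) (ϑ σ t, w t (ϑ σ t)) (1, u t (ϑ σ t))) := by
          rw [← h7]
          rfl
        calc μ t * (a t * (f t (ϑ σ t))⁻¹ + (f t (ϑ σ t))⁻¹ *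
              fderiv ℝ (H t) (ϑ σ t, w t (ϑ σ t)) (1, u t (ϑ σ t))) - 1 =
            (f t (ϑ σ t))⁻¹ * (μ t * (a t + fderiv ℝ (H t) (ϑ σ t, w t (ϑ σ t)) (1, u t (ϑ σ t)))) - 1 := by
              ring
          _ = (f t (ϑ σ t))⁻¹ * f t (ϑ σ t) - 1 := by rw [← h9]
          _ = 0 := by rw [inv_mul_cancel₀ h8, sub_self]
      rw [← h6]
      exact h5
    have h4 := is_const_of_deriv_eq_zero (f := fun σ => μ t * (a t * ϑ σ t + H t (ϑ σ t, w t (ϑ σ t))) - σ)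
      (fun σ => (h3 σ).differentiableAt) (fun σ => (h3 σ).deriv) σ 0
    linarith
  · intro x hx v hv t hv0 heq
    change fderiv ℝ (fun y => μ t * (a t * (M'.r y) i + H t (T (M'.r y)))) x v = μ t * F x v t at heq
    rw [hD x hx v hv t, hF' x hx] at heq
    have h3 := mul_left_cancel₀ (hμ1 t).ne' heq
    have h4 := (hcal t).only _ (hc.maps x hx) _ (hc.inj x hx v hv hv0) h3
    obtain ⟨σ, hσ⟩ := hϑ6 t (T x).1
    simp only at hσ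
    have h5 : T x = T (Λ (ϑ σ t, w t (ϑ σ t))) := by
      rw [hT, hσ, ← h4]
    obtain ⟨q, hq⟩ := hc.uniq x hx _ (hmem σ t) h5
    exact ⟨σ, q, hq⟩
  · intro σ σ' t l hl'
    obtain ⟨l', hl''⟩ := hφ _ (hmem σ t) _ (hmem σ' t) l hl'
    rw [hT, hT] at hl''
    exact ⟨l', hϑ7 σ σ' t l' hl''⟩

end EscW.Fo
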