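import Pool.Agent.EscW.FODefs
import Pool.Agent.EscW.FN1
import Pool.Agent.EscW.FN5
import Pool.Agent.EscW.O9
import Pool.Agent.EscW.FO10

set_option autoImplicit false

/-!
Project EscW, part FO, module FO15: exit.
For `x ∈ K'`, tangent `v`, `ζ = DT v`, let `m = Ψ t (T x) ζ - (a ζ.1 + Dh ζ) ≥ 0` (`FCal.le`, `GeoL.maps`). Claim `m ≥ (ε c1 δ/(2 C0)) fderiv bar x v`. If `‖(T x).2‖ < r`: `GeoL.flat`. If `r ≤ ‖(T x).2‖`: `a ζ.1 + Dh ζ ≤ (1 - ε) al ζ + 2 s eu ζ` (`a_near`, `h_near`, `h0_facts`), `Ψ ≥ Φ0 - η eu ζ`, so by `hS` and `c ‖z.2‖² ≥ c r² ≥ η + 3 s`: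
`m ≥ (ε c1/2) S eu ζ ≥ (ε c1/2) (δ/C0) fderiv bar x v` (`Geo.bar_le`). Integrate along `γ1`: tangent almost everywhere (`tangent_ae`, O9), integrable (`int_curve`, O9, with `NearP.cont`), `ftc_B` (O9) for `a, h`, and fundamental theorem for `bar ∘ γ1` (`E14.ftc_lip`). `bar (γ1 1) ≥ 1` (`Geo.exit`), `bar (γ1 0) ≤ 0` (`GeoL.bar0`, `‖w θ‖ < s ≤ r`).
-/

noncomputable section

namespace EscW.Fo

open Filter Topology Set EscF.T EscM EscMT MeasureTheory EscW.Ex EscW.Dn EscW.On EscW.Ot EscW.Fn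
open scoped ContDiff

variable {d m k j n : ℕ}

/-- the calibrating form is at most `(1 - ε) al + 2 s eu` -/
theorem FO15_form {Φ Ψ : ℝ → ℝ × Vec k → ℝ × Vec k → ℝ} {r1 ε t s a : ℝ} (hΦ : LocFin Φ r1)
    {𝒜 : Set (ℝ × Vec k)} {w : ℝ → Vec k} {h : ℝ × Vec k → ℝ} (hcal : FCal Φ ε t (Ψ t) 𝒜 s a w h)
    (z ζ : ℝ × Vec k) : a * ζ.1 + fderiv ℝ h z ζ ≤ (1 - ε) * al Φ t z ζ + 2 * s * eu ζ := by
  obtain ⟨hh, hd, -, -⟩ := h0_facts hΦ ε t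
  have he := eu_facts ζ
  have hs : 0 < s := (abs_nonneg _).trans_lt hcal.a_near
  have e1 : fderiv ℝ (fun z => h z - h0 Φ ε t z) z = fderiv ℝ h z - fderiv ℝ (h0 Φ ε t) z :=
    fderiv_fun_sub (hcal.h_smooth.differentiable one_ne_zero z) (hh.differentiable one_ne_zero z)
  have e2 : fderiv ℝ h z ζ - fderiv ℝ (h0 Φ ε t) z ζ ≤ s * eu ζ := by
    have k1 : fderiv ℝ h z ζ - fderiv ℝ (h0 Φ ε t) z ζ =
        fderiv ℝ (fun z => h z - h0 Φ ε t z) z ζ := by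
      rw [e1]
      rfl
    rw [k1]
    calc fderiv ℝ (fun z => h z - h0 Φ ε t z) z ζ
        ≤ ‖fderiv ℝ (fun z => h z - h0 Φ ε t z) z ζ‖ := Real.le_norm_self _
      _ ≤ ‖fderiv ℝ (fun z => h z - h0 Φ ε t z) z‖ * ‖ζ‖ := ContinuousLinearMap.le_opNorm _ _
      _ ≤ s * eu ζ := mul_le_mul (hcal.h_near z).le he.2.2.2.1 (norm_nonneg _) hs.le
  have e3 : (a - (1 - ε) * An Φ t) * ζ.1 ≤ s * eu ζ := by
    calc (a - (1 - ε) * An Φ t) * ζ.1 ≤ |(a - (1 - ε) * An Φ t) * ζ.1| := le_abs_self _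
      _ = |a - (1 - ε) * An Φ t| * |ζ.1| := abs_mul _ _
      _ ≤ s * eu ζ := mul_le_mul hcal.a_near.le he.2.1 (abs_nonneg _) hs.le
  rw [hd] at e2
  linarith

theorem exit_fo {Φ Φ0 : ℝ → ℝ × Vec (j + 1) → ℝ × Vec (j + 1) → ℝ} {K ε r1 r c C : ℝ}
    {𝒜 : Set (ℝ × Vec (j + 1))} (hb : FBase Φ K ε Φ0 𝒜 r1 r c C) {c1 : ℝ} (hc1 : 0 < c1)
    {M' : Sub m} {O K' : Set (Vec m)} {i : Fin m} {T : Vec m → ℝ × Vec (j + 1)} {cv : ℝ → Vec m}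
    {Θ S : Vec (j + 2) → ℝ} {bar : Vec m → ℝ} {θ0 : ℝ} {n : Fin m → ℤ} {γ : ℝ → Vec m}
    {wp : ℝ → Vec (j + 1)} {C0 δ : ℝ} (hC0 : 0 < C0) (hδ : 0 < δ)
    (hG : Geo M' O K' i T cv Θ S bar θ0 n γ wp C0 δ) {Λ : ℝ × Vec (j + 1) → Vec m}
    (hL : GeoL M' O K' i T cv Θ S bar C0 δ 𝒜 Λ r)
    (hS : ∀ t, ∀ z ∈ 𝒜, ∀ ζ : ℝ × Vec (j + 1),
      c * ‖z.2‖ ^ 2 * eu ζ + ε * c1 / 2 * (S (pol 1 z) * eu ζ) ≤ Φ0 t z ζ - (1 - ε) * al Φ t z ζ)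
    {Ψ : ℝ → ℝ × Vec (j + 1) → ℝ × Vec (j + 1) → ℝ} {η : ℝ} (hn : NearP Φ0 Ψ 𝒜 r η) {s t a : ℝ}
    (hs : η + 3 * s ≤ c * r ^ 2) (hsr : s ≤ r) {w : ℝ → Vec (j + 1)} {h : ℝ × Vec (j + 1) → ℝ}
    (hcal : FCal Φ ε t (Ψ t) 𝒜 s a w h) {F : Vec m → Vec m → ℝ}
    (hF' : ∀ x ∈ M'.N ∩ O, ∀ v, F x v = Ψ t (T x) (fderiv ℝ T x v)) (θ : ℝ) {γ1 : ℝ → Vec m}
    (hl : ∃ C, LipschitzWith C γ1) (h0 : γ1 0 = Λ (θ, w θ)) (h1 : ∀ s ∈ Icc (0:ℝ) 1, γ1 s ∈ K')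
    (h2 : γ1 1 ∈ closure (M'.N \ K')) :
    ε * c1 * δ / (2 * C0) ≤ excess (fun x v _ => F x v) (fun x _ => a * x i + h (T x)) 0 γ1 := by
  have hs0 : 0 < s := (abs_nonneg _).trans_lt hcal.a_near
  have hε := hb.ε_pos
  have hsub : ∀ s ∈ Icc (0:ℝ) 1, γ1 s ∈ M'.N ∩ O := fun s hs => hG.sub (h1 s hs)
  have hA : ∀ s ∈ Icc (0:ℝ) 1, T (γ1 s) ∈ 𝒜 := fun s hs => hL.maps _ (hsub s hs)
  -- the integrals
  have hi1 := int_curve (Φ := Ψ t) (𝒜 := 𝒜) (hn.cont t) hG.smooth hl hA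
  obtain ⟨hi2, he2⟩ := ftc_B hG.smooth hG.fst hcal.h_smooth a hl
  obtain ⟨hi3, he3⟩ := ftc_lip hG.bar_smooth hl
  have hexc : excess (fun x v _ => F x v) (fun x _ => a * x i + h (T x)) 0 γ1 =
      ∫ s in (0:ℝ)..1, (Ψ t (T (γ1 s)) (fderiv ℝ T (γ1 s) (deriv γ1 s)) -
        (a * (fderiv ℝ T (γ1 s) (deriv γ1 s)).1 +
          fderiv ℝ h (T (γ1 s)) (fderiv ℝ T (γ1 s) (deriv γ1 s)))) := by
    rw [intervalIntegral.integral_sub hi1 hi2, he2]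
    unfold excess
    have h3 : (∫ s in (0:ℝ)..1, F (γ1 s) (deriv γ1 s)) =
        ∫ s in (0:ℝ)..1, Ψ t (T (γ1 s)) (fderiv ℝ T (γ1 s) (deriv γ1 s)) := by
      refine intervalIntegral.integral_congr ?_
      intro s hs
      rw [uIcc_of_le zero_le_one] at hs
      exact hF' _ (hsub s hs) _
    rw [h3]
  -- the pointwise inequality
  have hpt : ∀ s' ∈ Icc (0:ℝ) 1, IsTangent M' (γ1 s') (deriv γ1 s') →
      (ε * c1 * δ / (2 * C0)) * fderiv ℝ bar (γ1 s') (deriv γ1 s') ≤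
        Ψ t (T (γ1 s')) (fderiv ℝ T (γ1 s') (deriv γ1 s')) -
        (a * (fderiv ℝ T (γ1 s') (deriv γ1 s')).1 +
          fderiv ℝ h (T (γ1 s')) (fderiv ℝ T (γ1 s') (deriv γ1 s'))) := by
    intro s' hs' htan
    set x := γ1 s' with hx
    set v := deriv γ1 s' with hv
    set ζ := fderiv ℝ T x v with hζ
    have hm0 := hcal.le (T x) (hA s' hs') ζ
    have hk : 0 ≤ ε * c1 * δ / (2 * C0) := by positivity
    by_cases hr : ‖(T x).2‖ < r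
    · have k1 := hL.flat x (h1 s' hs') hr v htan
      have k2 := mul_nonpos_of_nonneg_of_nonpos hk k1
      linarith
    · rw [not_lt] at hr
      have he0 : 0 ≤ eu ζ := (eu_facts ζ).1
      have k1 := FO15_form hb.loc hcal (T x) ζ
      have k2 := (abs_le.1 (hn.c0 t (T x) (hA s' hs') ζ)).1
      have k3 := hS t (T x) (hA s' hs') ζ
      have k4 := hG.bar_le x (h1 s' hs') v htan
      have k5 : (ε * c1 * δ / (2 * C0)) * fderiv ℝ bar x v ≤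
          (ε * c1 * δ / (2 * C0)) * (C0 / δ * (S (pol 1 (T x)) * eu ζ)) :=
        mul_le_mul_of_nonneg_left k4 hk
      have k6 : (ε * c1 * δ / (2 * C0)) * (C0 / δ * (S (pol 1 (T x)) * eu ζ)) =
          ε * c1 / 2 * (S (pol 1 (T x)) * eu ζ) := by
        field_simp
      have k7 : r ^ 2 ≤ ‖(T x).2‖ ^ 2 := pow_le_pow_left₀ hb.r_pos.le hr 2
      have k8 : c * r ^ 2 * eu ζ ≤ c * ‖(T x).2‖ ^ 2 * eu ζ :=
        mul_le_mul_of_nonneg_right (mul_le_mul_of_nonneg_left k7 hb.c_pos.le) he0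
      have k9 : (η + 2 * s) * eu ζ ≤ c * r ^ 2 * eu ζ :=
        mul_le_mul_of_nonneg_right (by linarith) he0
      have k10 : (η + 2 * s) * eu ζ = η * eu ζ + 2 * s * eu ζ := by ring
      linarith
  have hmono : ∫ s in (0:ℝ)..1, (ε * c1 * δ / (2 * C0)) * fderiv ℝ bar (γ1 s) (deriv γ1 s) ≤
      ∫ s in (0:ℝ)..1, (Ψ t (T (γ1 s)) (fderiv ℝ T (γ1 s) (deriv γ1 s)) -
        (a * (fderiv ℝ T (γ1 s) (deriv γ1 s)).1 +
          fderiv ℝ h (T (γ1 s)) (fderiv ℝ T (γ1 s) (deriv γ1 s)))) := by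
    refine intervalIntegral.integral_mono_ae_restrict zero_le_one (hi3.const_mul _)
      (hi1.sub hi2) ?_
    refine (ae_restrict_iff' measurableSet_Icc).2 ?_
    have ht := tangent_ae (M' := M') hl (fun s hs => (hsub s hs).1)
    have h0 : ∀ᵐ s : ℝ, s ≠ 0 := by simp [ae_iff]
    have h1 : ∀ᵐ s : ℝ, s ≠ 1 := by simp [ae_iff]
    filter_upwards [ht, h0, h1] with s hs hs0 hs1' hI
    exact hpt s hI (hs ⟨lt_of_le_of_ne hI.1 (Ne.symm hs0), lt_of_le_of_ne hI.2 hs1'⟩)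
  rw [hexc]
  refine le_trans ?_ hmono
  rw [intervalIntegral.integral_const_mul, he3]
  have h3 := hG.exit (γ1 1) (h1 1 (right_mem_Icc.2 zero_le_one)) h2
  have h4 : bar (γ1 0) ≤ 0 := by
    rw [h0]
    exact hL.bar0 (θ, w θ) ((hcal.w_small θ).trans_le hsr)
  have h5 : 0 ≤ ε * c1 * δ / (2 * C0) := by positivity
  calc ε * c1 * δ / (2 * C0) = (ε * c1 * δ / (2 * C0)) * 1 := (mul_one _).symm
    _ ≤ (ε * c1 * δ / (2 * C0)) * (bar (γ1 1) - bar (γ1 0)) :=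
        mul_le_mul_of_nonneg_left (by linarith) h5

end EscW.Fo
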