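import Pool.Agent.EscW.FODefs
import Pool.Agent.EscW.FN1
import Pool.Agent.EscW.FN5
import Pool.Agent.EscW.FN8
import Pool.Agent.EscW.O9
import Pool.Agent.EscW.O11
import Pool.Agent.EscW.FO10

set_option autoImplicit false

/-!
Project EscW, part FO, module FO16: second direction.
The curve: from `Λ (θ0, w θ0)` along `τ ↦ Λ (θ0, (1 - τ) • w θ0)` to `Λ (θ0, 0) = cv θ0` (`Λ_cv`), then `γ` (`γ0`, `γ1`), then `τ ↦ Λ (θ0, τ • w θ0) + vz n`; `concat` (O9) twice (`K'` is periodic; on `K'`, `F` is homogeneous: `NearP.hom`). `Λ` is `C¹` on the tube, so these segments are Lipschitz on `[0,1]` (extend by clamping `τ`). The integral of `a ζ.1 + Dh ζ` is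
the increment (`ftc_B`, O9). Segments: `T = (θ0, τ • w)`, `ζ = (0, ± w θ0)`: `Ψ ζ ≤ (C + η) ‖w θ0‖`, `|Dh ζ| ≤ |D h0 ζ| + s ‖ζ‖ ≤ A s` (`h0_facts`, `al_lip` with `R = 1`): total `≤ 2 (C + η + A + s) s`. Middle: `T (γ s') = (θ0 + s', wp s')`, `S = 0` (`path`), `ζ = (1, deriv wp s')` on `(0,1)` (derivative of `T ∘ γ`),
`Ψ ζ - (a + Dh ζ) ≤ Φ0 ζ - (1 - ε) al ζ + (η + 2 s) eu ζ ≤ (1 - ε) C2 (‖wp‖² + ‖wp'‖²) + (η + 2 s) (1 + C0 δ)` (`hP`, `hC2`, `c0`, `a_near`, `h_near`, `h0_facts`), `≤ 2 C2 (C0 δ)² + ..`. `s ≤ r`, `s`, `η` small.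
-/

noncomputable section

namespace EscW.Fo

open Filter Topology Set EscF.T EscM EscMT MeasureTheory EscW.Ex EscW.Dn EscW.On EscW.Ot EscW.Fn
open scoped ContDiff

variable {d m k j n : ℕ}

/-- the calibrating form is at least `(1 - ε) al - 2 s eu` -/
theorem FO16_form {Φ Ψ : ℝ → ℝ × Vec k → ℝ × Vec k → ℝ} {r1 ε t s a : ℝ} (hΦ : LocFin Φ r1)
    {𝒜 : Set (ℝ × Vec k)} {w : ℝ → Vec k} {h : ℝ × Vec k → ℝ} (hcal : FCal Φ ε t (Ψ t) 𝒜 s a w h)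
    (z ζ : ℝ × Vec k) : (1 - ε) * al Φ t z ζ ≤ a * ζ.1 + fderiv ℝ h z ζ + 2 * s * eu ζ := by
  obtain ⟨hh, hd, -, -⟩ := h0_facts hΦ ε t
  have he := eu_facts ζ
  have hs : 0 < s := (abs_nonneg _).trans_lt hcal.a_near
  have e1 : fderiv ℝ (fun z => h z - h0 Φ ε t z) z = fderiv ℝ h z - fderiv ℝ (h0 Φ ε t) z :=
    fderiv_fun_sub (hcal.h_smooth.differentiable one_ne_zero z) (hh.differentiable one_ne_zero z)
  have e2 : -(s * eu ζ) ≤ fderiv ℝ h z ζ - fderiv ℝ (h0 Φ ε t) z ζ := by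
    have k1 : fderiv ℝ h z ζ - fderiv ℝ (h0 Φ ε t) z ζ =
        fderiv ℝ (fun z => h z - h0 Φ ε t z) z ζ := by
      rw [e1]
      rfl
    rw [k1]
    have k2 : ‖fderiv ℝ (fun z => h z - h0 Φ ε t z) z ζ‖ ≤ s * eu ζ :=
      (ContinuousLinearMap.le_opNorm _ _).trans
        (mul_le_mul (hcal.h_near z).le he.2.2.2.1 (norm_nonneg _) hs.le)
    rw [Real.norm_eq_abs] at k2
    exact (abs_le.1 k2).1
  have e3 : -(s * eu ζ) ≤ (a - (1 - ε) * An Φ t) * ζ.1 := by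
    have k2 : |(a - (1 - ε) * An Φ t) * ζ.1| ≤ s * eu ζ := by
      rw [abs_mul]
      exact mul_le_mul hcal.a_near.le he.2.1 (abs_nonneg _) hs.le
    exact (abs_le.1 k2).1
  rw [hd] at e2
  linarith

theorem FO16_T {M' : Sub m} {O K' : Set (Vec m)} {i : Fin m} {T : Vec m → ℝ × Vec (j + 1)}
    {cv : ℝ → Vec m} {Θ S : Vec (j + 2) → ℝ} {bar : Vec m → ℝ} {θ0 : ℝ} {n : Fin m → ℤ} {γ : ℝ → Vec m}
    {wp : ℝ → Vec (j + 1)} {C0 δ : ℝ} (hG : Geo M' O K' i T cv Θ S bar θ0 n γ wp C0 δ)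
    (n' : Fin m → ℤ) (x : Vec m) : T (x + vz n') = T x + ((n' i : ℝ), 0) := by
  refine Prod.ext ?_ ?_
  · rw [hG.fst, Prod.fst_add, hG.fst]
    simp [vz]
  · rw [hG.per, Prod.snd_add, add_zero]

theorem FO16_seg {T : Vec m → ℝ × Vec k} {Λ : ℝ × Vec k → Vec m} {K : Set (Vec m)} {i : Fin m} {r : ℝ}
    (hT : ContDiff ℝ 1 T) (hTn : ∀ (n : Fin m → ℤ) x, T (x + vz n) = T x + ((n i : ℝ), 0))
    (hΛ : ContDiffOn ℝ 1 Λ {z | ‖z.2‖ < r}) (hR : ∀ z, ‖z.2‖ < r → T (Λ z) = z)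
    (hK : ∀ z, ‖z.2‖ < r → Λ z ∈ K) (hKp : ∀ (n : Fin m → ℤ), ∀ x ∈ K, x + vz n ∈ K) (θ0 : ℝ)
    {w0 w1 : Vec k} (h0 : ‖w0‖ < r) (h1 : ‖w1‖ < r) (n : Fin m → ℤ) :
    ∃ γ : ℝ → Vec m, (∃ C, LipschitzWith C γ) ∧ γ 0 = Λ (θ0, w0) + vz n ∧ γ 1 = Λ (θ0, w1) + vz n ∧
      (∀ s ∈ Icc (0:ℝ) 1, γ s ∈ K) ∧
      ∀ s ∈ Ioo (0:ℝ) 1, fderiv ℝ T (γ s) (deriv γ s) = (0, w1 - w0) := by
  obtain ⟨g, hg⟩ : ∃ g : ℝ → Vec m, g = fun s => Λ (θ0, w0 + s • (w1 - w0)) + vz n := ⟨_, rfl⟩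
  have hU : IsOpen {z : ℝ × Vec k | ‖z.2‖ < r} := isOpen_lt (continuous_snd.norm) continuous_const
  have hgC : ContDiffOn ℝ 1 g (Icc (0:ℝ) 1) := by
    rw [hg]
    refine ContDiffOn.add ?_ contDiffOn_const
    have h2 : ContDiff ℝ 1 fun s : ℝ => ((θ0, w0 + s • (w1 - w0)) : ℝ × Vec k) :=
      contDiff_const.prodMk (contDiff_const.add (contDiff_id.smul contDiff_const))
    exact hΛ.comp h2.contDiffOn (fun s hs => O11_ball h0 h1 hs)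
  obtain ⟨C, hC⟩ := hgC.exists_lipschitzOnWith one_ne_zero (convex_Icc 0 1) isCompact_Icc
  obtain ⟨γ, hγ⟩ : ∃ γ : ℝ → Vec m, γ = fun s => g (projIcc (0:ℝ) 1 zero_le_one s) := ⟨_, rfl⟩
  have hγe : ∀ s ∈ Icc (0:ℝ) 1, γ s = g s := by
    intro s hs
    rw [hγ]
    simp only
    rw [projIcc_of_mem zero_le_one hs]
  refine ⟨γ, ⟨C, ?_⟩, ?_, ?_, ?_, ?_⟩
  · rw [hγ]
    have h3 := hC.to_restrict.comp (LipschitzWith.projIcc (zero_le_one (α := ℝ)))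
    rw [mul_one] at h3
    exact h3
  · rw [hγe 0 ⟨le_rfl, zero_le_one⟩, hg]
    simp
  · rw [hγe 1 ⟨zero_le_one, le_rfl⟩, hg]
    simp
  · intro s hs
    rw [hγe s hs, hg]
    exact hKp n _ (hK _ (O11_ball h0 h1 hs))
  · intro s hs
    have hs' : s ∈ Icc (0:ℝ) 1 := Ioo_subset_Icc_self hs
    have he : γ =ᶠ[𝓝 s] g := by
      filter_upwards [Ioo_mem_nhds hs.1 hs.2] with s' hs''
      exact hγe s' (Ioo_subset_Icc_self hs'')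
    have hgd : DifferentiableAt ℝ g s :=
      (hgC.contDiffAt (Icc_mem_nhds hs.1 hs.2)).differentiableAt one_ne_zero
    have hγd : HasDerivAt γ (deriv γ s) s := (hgd.congr_of_eventuallyEq he).hasDerivAt
    have hTd : HasFDerivAt T (fderiv ℝ T (γ s)) (γ s) :=
      (hT.differentiable one_ne_zero _).hasFDerivAt
    have h4 : HasDerivAt (fun s => T (γ s)) (fderiv ℝ T (γ s) (deriv γ s)) s := hTd.comp_hasDerivAt s hγd
    have h5 : (fun s => T (γ s)) =ᶠ[𝓝 s] fun s =>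
        ((θ0 + (n i : ℝ), w0 + s • (w1 - w0)) : ℝ × Vec k) := by
      filter_upwards [he, Ioo_mem_nhds hs.1 hs.2] with s' h6 h7
      have h9 := hR (θ0, w0 + s' • (w1 - w0)) (O11_ball h0 h1 (Ioo_subset_Icc_self h7))
      rw [h6, hg]
      simp only
      rw [hTn, h9, Prod.mk_add_mk, add_zero]
    have h8 : HasDerivAt (fun s : ℝ => ((θ0 + (n i : ℝ), w0 + s • (w1 - w0)) : ℝ × Vec k))
        ((0 : ℝ), w1 - w0) s := by
      refine (hasDerivAt_const s _).prodMk ?_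
      have := ((hasDerivAt_id s).smul_const (w1 - w0)).const_add w0
      simpa using this
    have h10 : HasDerivAt (fun s => T (γ s)) ((0 : ℝ), w1 - w0) s := h8.congr_of_eventuallyEq h5
    exact h4.unique h10

theorem second_fo {Φ Φ0 : ℝ → ℝ × Vec (j + 1) → ℝ × Vec (j + 1) → ℝ} {K ε r1 r c C : ℝ}
    {𝒜 : Set (ℝ × Vec (j + 1))} (hb : FBase Φ K ε Φ0 𝒜 r1 r c C)
    {M' : Sub m} {O K' : Set (Vec m)} {i : Fin m} {T : Vec m → ℝ × Vec (j + 1)} {cv : ℝ → Vec m}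
    {Θ S : Vec (j + 2) → ℝ} {bar : Vec m → ℝ} {θ0 : ℝ} {n : Fin m → ℤ} {γ : ℝ → Vec m}
    {wp : ℝ → Vec (j + 1)} {C0 δ : ℝ} (hC0 : 0 < C0) (hδ : 0 < δ)
    (hG : Geo M' O K' i T cv Θ S bar θ0 n γ wp C0 δ) {Λ : ℝ × Vec (j + 1) → Vec m}
    (hL : GeoL M' O K' i T cv Θ S bar C0 δ 𝒜 Λ r) (hCr : C0 * δ ≤ r1 / 2) (hCr1 : C0 * δ ≤ 1)
    {C2 : ℝ} (hC2p : 0 < C2)
    (hC2 : ∀ (t : ℝ) (z : ℝ × Vec (j + 1)) (u : Vec (j + 1)), ‖z.2‖ ≤ r1 / 2 → ‖u‖ ≤ 1 →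
      cf Φ K t z * Φ t z (1, u) - al Φ t z (1, u) ≤ C2 * (‖z.2‖ ^ 2 + ‖u‖ ^ 2))
    (hP : ∀ t, ∀ z ∈ 𝒜, ∀ ζ, S (pol 1 z) = 0 → Φ0 t z ζ = (1 - ε) * (cf Φ K t z * Φ t z ζ))
    {κ : ℝ} (hκ : 0 < κ) : ∃ s η : ℝ, 0 < s ∧ 0 < η ∧
      ∀ (Ψ : ℝ → ℝ × Vec (j + 1) → ℝ × Vec (j + 1) → ℝ), NearP Φ0 Ψ 𝒜 r η →
        ∀ (t a : ℝ) (w : ℝ → Vec (j + 1)) (h : ℝ × Vec (j + 1) → ℝ), FCal Φ ε t (Ψ t) 𝒜 s a w h →
          ∀ F : Vec m → Vec m → ℝ, (∀ x ∈ M'.N ∩ O, ∀ v, F x v = Ψ t (T x) (fderiv ℝ T x v)) →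
            ∃ γ1 : ℝ → Vec m, (∃ C, LipschitzWith C γ1) ∧ γ1 0 = Λ (θ0, w θ0) ∧
              γ1 1 = Λ (θ0, w θ0) + vz n ∧ (∀ s ∈ Icc (0:ℝ) 1, γ1 s ∈ K') ∧
              excess (fun x v _ => F x v) (fun x _ => a * x i + h (T x)) 0 γ1 ≤
                2 * C2 * (C0 * δ) ^ 2 + κ := by
  obtain ⟨A, hA0, hA⟩ := al_lip hb.loc 1
  have hrp := hb.r_pos
  have hCp := hb.C_pos
  have hε := hb.ε_pos
  have hε1 := hb.ε_le
  have hD : 0 < 2 * (4 + 2 * (C + A + 3)) := by positivity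
  obtain ⟨s0, hs0p, hs01, hs0r, hs0D⟩ : ∃ s0 : ℝ, 0 < s0 ∧ s0 ≤ 1 ∧ s0 ≤ r ∧
      s0 ≤ κ / (2 * (4 + 2 * (C + A + 3))) :=
    ⟨min (min 1 r) (κ / (2 * (4 + 2 * (C + A + 3)))), lt_min (lt_min one_pos hrp) (div_pos hκ hD),
      (min_le_left _ _).trans (min_le_left _ _), (min_le_left _ _).trans (min_le_right _ _),
      min_le_right _ _⟩
  rw [le_div_iff₀ hD] at hs0D
  obtain ⟨η, hηp, hη1, hηκ⟩ : ∃ η : ℝ, 0 < η ∧ η ≤ 1 ∧ η ≤ κ / 4 :=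
    ⟨min 1 (κ / 4), lt_min one_pos (by positivity), min_le_left _ _, min_le_right _ _⟩
  refine ⟨s0, η, hs0p, hηp, ?_⟩
  intro Ψ hn t a w h hcal F hF
  have hAm : ∀ x ∈ K', T x ∈ 𝒜 := fun x hx => hL.maps x (hG.sub hx)
  have hw0s : ‖w θ0‖ < s0 := hcal.w_small θ0
  have hw0 : ‖w θ0‖ < r := hw0s.trans_le hs0r
  have hz0 : ‖(0 : Vec (j + 1))‖ < r := by simpa using hrp
  obtain ⟨g1, hg1L, hg10, hg11, hg1K, hg1d⟩ := FO16_seg hG.smooth (FO16_T hG) hL.smooth hL.right hL.mem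
    hG.periodic θ0 hw0 hz0 0
  obtain ⟨g3, hg3L, hg30, hg31, hg3K, hg3d⟩ := FO16_seg hG.smooth (FO16_T hG) hL.smooth hL.right hL.mem
    hG.periodic θ0 hz0 hw0 n
  rw [O11_vz0, add_zero] at hg10 hg11
  rw [hL.Λ_cv] at hg11 hg30
  obtain ⟨f, hf⟩ : ∃ f : Vec m → Vec m → ℝ, f = fun x v => Ψ t (T x) (fderiv ℝ T x v) -
      (a * (fderiv ℝ T x v).1 + fderiv ℝ h (T x) (fderiv ℝ T x v)) := ⟨_, rfl⟩
  have hint : ∀ g : ℝ → Vec m, (∃ C, LipschitzWith C g) → (∀ s ∈ Icc (0:ℝ) 1, g s ∈ K') →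
      IntervalIntegrable (fun s => f (g s) (deriv g s)) volume 0 1 := by
    intro g hg1 hg2
    rw [hf]
    exact (int_curve (Φ := Ψ t) (𝒜 := 𝒜) (hn.cont t) hG.smooth hg1 (fun s hs => hAm _ (hg2 s hs))).sub
      (ftc_B hG.smooth hG.fst hcal.h_smooth a hg1).1
  have hfh : ∀ x ∈ K', ∀ (v : Vec m) (c : ℝ), 0 ≤ c → f x (c • v) = c * f x v := by
    intro x hx v c hc0
    rw [hf]
    simp only [map_smul]
    rw [hn.hom t _ (hAm x hx) _ _ hc0]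
    simp only [Prod.smul_fst, smul_eq_mul]
    ring
  have hkey : ∀ z ∈ 𝒜, ∀ ζ : ℝ × Vec (j + 1), Ψ t z ζ - (a * ζ.1 + fderiv ℝ h z ζ) ≤
      Φ0 t z ζ - (1 - ε) * al Φ t z ζ + (η + 2 * s0) * eu ζ := by
    intro z hz ζ
    have h1 := FO16_form hb.loc hcal z ζ
    have h2 := (abs_le.1 (hn.c0 t z hz ζ)).2
    linarith
  have hseg : ∀ g : ℝ → Vec m, (∃ C, LipschitzWith C g) → (∀ s ∈ Icc (0:ℝ) 1, g s ∈ K') →
      ∀ u : Vec (j + 1), ‖u‖ ≤ s0 → (∀ s ∈ Ioo (0:ℝ) 1, fderiv ℝ T (g s) (deriv g s) = (0, u)) →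
      ∫ s in (0:ℝ)..1, f (g s) (deriv g s) ≤ (C + A + 3) * s0 := by
    intro g hg1 hg2 u hu hg3
    have h1 : ∫ s in (0:ℝ)..1, f (g s) (deriv g s) ≤ ∫ s in (0:ℝ)..1, (C + A + 3) * s0 := by
      refine intervalIntegral.integral_mono_on_of_le_Ioo zero_le_one (hint g hg1 hg2)
        intervalIntegrable_const (fun s hs => ?_)
      rw [hf]
      simp only
      rw [hg3 s hs]
      have hm := hAm _ (hg2 s (Ioo_subset_Icc_self hs))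
      have h2 := hkey _ hm ((0 : ℝ), u)
      have h3 := (hb.upp t _ hm ((0 : ℝ), u)).2
      have h4 : ‖((0 : ℝ), u)‖ = ‖u‖ := by
        rw [Prod.norm_def]
        simp
      have h5 : eu ((0 : ℝ), u) = ‖u‖ := by
        unfold eu
        simp
      have h6 := (hA t t _ ((0 : ℝ), u) (hb.bdA _ hm)).1
      rw [h4] at h6
      rw [h5] at h2 h3
      have h7 := (abs_le.1 h6).1
      have h8 : -(1 - ε) * al Φ t (T (g s)) ((0 : ℝ), u) ≤ A * ‖u‖ := by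
        have h9 : 0 ≤ A * ‖u‖ := by positivity
        have h10 : (1 - ε) * (-(A * ‖u‖)) ≤ (1 - ε) * al Φ t (T (g s)) ((0 : ℝ), u) :=
          mul_le_mul_of_nonneg_left h7 (by linarith)
        nlinarith
      have h11 : (C + A + 3) * ‖u‖ ≤ (C + A + 3) * s0 := mul_le_mul_of_nonneg_left hu (by positivity)
      have h12 : (η + 2 * s0) * ‖u‖ ≤ 3 * ‖u‖ :=
        mul_le_mul_of_nonneg_right (by linarith) (norm_nonneg _)
      simp only at h2 h3 h8 ⊢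
      linarith
    simpa using h1
  have hJ1 := hseg g1 hg1L hg1K (0 - w θ0) (by rw [zero_sub, norm_neg]; exact hw0s.le) hg1d
  have hJ3 := hseg g3 hg3L hg3K (w θ0 - 0) (by rw [sub_zero]; exact hw0s.le) hg3d
  have hJ2 : ∫ s in (0:ℝ)..1, f (γ s) (deriv γ s) ≤ 2 * C2 * (C0 * δ) ^ 2 + 2 * (η + 2 * s0) := by
    have h1 : ∫ s in (0:ℝ)..1, f (γ s) (deriv γ s) ≤
        ∫ s in (0:ℝ)..1, (2 * C2 * (C0 * δ) ^ 2 + 2 * (η + 2 * s0)) := by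
      refine intervalIntegral.integral_mono_on_of_le_Ioo zero_le_one (hint γ hG.lip hG.γK)
        intervalIntegrable_const (fun s hs => ?_)
      have hc : s ∈ Icc (0:ℝ) 1 := Ioo_subset_Icc_self hs
      have hm := hAm _ (hG.γK s hc)
      rw [hf]
      simp only
      rw [FN8_tan hG hs]
      have h2 := hkey _ hm ((1 : ℝ), deriv wp s)
      obtain ⟨h3, h4⟩ := hG.path s hc
      rw [h3] at h2 hm ⊢
      rw [hP t _ hm _ h4] at h2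
      have h5 := hC2 t (θ0 + s, wp s) (deriv wp s) ((hG.wp_small s).1.trans hCr)
        ((hG.wp_small s).2.trans hCr1)
      have h6 : ‖wp s‖ ^ 2 ≤ (C0 * δ) ^ 2 := pow_le_pow_left₀ (norm_nonneg _) (hG.wp_small s).1 2
      have h7 : ‖deriv wp s‖ ^ 2 ≤ (C0 * δ) ^ 2 := pow_le_pow_left₀ (norm_nonneg _) (hG.wp_small s).2 2
      have h8 : C2 * (‖wp s‖ ^ 2 + ‖deriv wp s‖ ^ 2) ≤ 2 * C2 * (C0 * δ) ^ 2 := by nlinarith
      have h9 : eu ((1 : ℝ), deriv wp s) ≤ 2 := by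
        refine (eu_facts ((1 : ℝ), deriv wp s)).2.2.2.2.1.trans ?_
        have h10 : ‖((1 : ℝ), deriv wp s)‖ ≤ 1 := by
          rw [Prod.norm_def]
          refine max_le (by simp) ((hG.wp_small s).2.trans hCr1)
        linarith
      have h11 : (η + 2 * s0) * eu ((1 : ℝ), deriv wp s) ≤ (η + 2 * s0) * 2 :=
        mul_le_mul_of_nonneg_left h9 (by positivity)
      have h12 : (1 - ε) * (cf Φ K t (θ0 + s, wp s) * Φ t (θ0 + s, wp s) (1, deriv wp s)) -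
          (1 - ε) * al Φ t (θ0 + s, wp s) (1, deriv wp s) ≤ 2 * C2 * (C0 * δ) ^ 2 := by
        have h13 : (1 - ε) * (cf Φ K t (θ0 + s, wp s) * Φ t (θ0 + s, wp s) (1, deriv wp s) -
            al Φ t (θ0 + s, wp s) (1, deriv wp s)) ≤ (1 - ε) * (2 * C2 * (C0 * δ) ^ 2) :=
          mul_le_mul_of_nonneg_left (h5.trans h8) (by linarith)
        have h14 : 0 ≤ 2 * C2 * (C0 * δ) ^ 2 := by positivity
        nlinarith
      linarith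
    simpa using h1
  obtain ⟨p, hpL, hp0, hp1, hpK, hpi, hpI⟩ := concat hg1L hG.lip (hg11.trans hG.γ0.symm) hg1K hG.γK hfh
    (hint g1 hg1L hg1K) (hint γ hG.lip hG.γK)
  obtain ⟨q, hqL, hq0, hq1, hqK, hqi, hqI⟩ := concat hpL hg3L (hp1.trans (hG.γ1.trans hg30.symm)) hpK hg3K
    hfh hpi (hint g3 hg3L hg3K)
  refine ⟨q, hqL, by rw [hq0, hp0, hg10], by rw [hq1, hg31], hqK, ?_⟩
  have hexc : excess (fun x v _ => F x v) (fun x _ => a * x i + h (T x)) 0 q =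
      ∫ s in (0:ℝ)..1, f (q s) (deriv q s) := by
    have hi1 := int_curve (Φ := Ψ t) (𝒜 := 𝒜) (hn.cont t) hG.smooth hqL (fun s hs => hAm _ (hqK s hs))
    obtain ⟨hi2, he2⟩ := ftc_B hG.smooth hG.fst hcal.h_smooth a hqL
    rw [hf]
    simp only
    rw [intervalIntegral.integral_sub hi1 hi2, he2]
    unfold excess
    have h3 : (∫ s in (0:ℝ)..1, F (q s) (deriv q s)) =
        ∫ s in (0:ℝ)..1, Ψ t (T (q s)) (fderiv ℝ T (q s) (deriv q s)) := by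
      refine intervalIntegral.integral_congr ?_
      intro s hs
      rw [uIcc_of_le zero_le_one] at hs
      exact hF _ (hG.sub (hqK s hs)) _
    rw [h3]
  rw [hexc, hqI, hpI]
  nlinarith

end EscW.Fo
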