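import Pool.Agent.EscW.FODefs
import Pool.Agent.EscW.FO5
import Pool.Agent.EscW.FO6
import Pool.Agent.EscW.OT5

set_option autoImplicit false

/-!
Project EscW, part FO, module FO7: the nonlinearity.
Let `μ = √(2 K) ≥ 1`, `μ² = 2 K`. On the tube `(1 - ε)⁻¹ lg (Φ0 t) = bl Φ K t`, so for `Ψ = Φ0` the nonlinearity is `N⁰ = (Ai Gu - y.2, μ⁻¹ (Ai' Gu + Ai Gw) - y.1)` at `(μ⁻¹ y.1, y.2)`, `Gu = gu bl - pn`, `Gw = gw bl - pn'`, `N⁰ 0 = 0` (`bl_grad`). Its derivative at `0` (`bl_hess`, `Au_inv`):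
first component: `Ai (..)` with `‖..‖ ≤ g μ⁻¹ ‖y.1‖`; second: `μ⁻¹ Ai' (Au y.2 + O(g μ⁻¹ ‖y.1‖)) + μ⁻¹ Ai (2 K μ⁻¹ Au y.1 + O(g (μ⁻¹ ‖y.1‖ + ‖y.2‖))) - y.1`, and `2 K μ⁻² = 1`: norm `≤ C μ⁻¹ ‖y‖`, `C` depends only on `A` (`Au_bd`) and `g`. `K1`: `C μ⁻¹ ≤ 1/24`. Then `r20` by `bl_cont` with small `s`: derivative
of norm `≤ 1/12` for `‖y‖ ≤ r20`, also `2 r20 ≤ r`. The difference `N - N⁰` is linear in `(1 - ε)⁻¹ (gu (lg Ψ) - gu (lg Φ0))` and the same with `gw`, of norm `≤ 2 η` (`c1`), with derivative of norm `≤ 2 η` (`c2`; `(1-ε)⁻¹ ≤ 4/3`, `gu`, `gw` are `toDual.symm` of the restricted `fderiv`): choose `η` small depending on `r2`.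
`lip`: mean value inequality on the ball. `smooth`: `gradT` (OT5) with `NearP.smooth`, `Au_reg`, `reg`; `‖y‖ < 2 r2 ≤ r` and `μ ≥ 1` give `(θ, μ⁻¹ • y.1, y.2) ∈ LD k r`. Periods: `NearP.per_t`, `NearP.per_θ` hold near the point, so the gradients are periodic; `Au_reg`, `pers`.
-/

noncomputable section

namespace EscW.Fo

open Filter Topology Set EscF.T EscM EscMT MeasureTheory EscW.Ex EscW.Dn EscW.On EscW.Ot EscW.Fn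
open scoped ContDiff

variable {d m k j n : ℕ}

/-! ### the gradients as functions of the derivative -/

/-- `gu` and `gw` as functions of the derivative -/
def FO7_T (J : Vec k →L[ℝ] ℝ × Vec k × Vec k) (f : (ℝ × Vec k × Vec k) →L[ℝ] ℝ) : Vec k :=
  (InnerProductSpace.toDual ℝ (Vec k)).symm (f.comp J)

def FO7_Ju (k : ℕ) : Vec k →L[ℝ] ℝ × Vec k × Vec k :=
  (ContinuousLinearMap.inr ℝ ℝ (Vec k × Vec k)).comp (ContinuousLinearMap.inr ℝ (Vec k) (Vec k))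

def FO7_Jw (k : ℕ) : Vec k →L[ℝ] ℝ × Vec k × Vec k :=
  (ContinuousLinearMap.inr ℝ ℝ (Vec k × Vec k)).comp (ContinuousLinearMap.inl ℝ (Vec k) (Vec k))

theorem FO7_gu (L : ℝ × Vec k × Vec k → ℝ) (y : ℝ × Vec k × Vec k) :
    gu L y = FO7_T (FO7_Ju k) (fderiv ℝ L y) := rfl

theorem FO7_gw (L : ℝ × Vec k × Vec k → ℝ) (y : ℝ × Vec k × Vec k) :
    gw L y = FO7_T (FO7_Jw k) (fderiv ℝ L y) := rfl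

theorem FO7_Ju_norm (v : Vec k) : ‖FO7_Ju k v‖ ≤ ‖v‖ := by
  have e : FO7_Ju k v = (0, 0, v) := rfl
  rw [e, Prod.norm_def, Prod.norm_def, norm_zero, norm_zero]
  exact max_le (norm_nonneg _) (max_le (norm_nonneg _) le_rfl)

theorem FO7_Jw_norm (v : Vec k) : ‖FO7_Jw k v‖ ≤ ‖v‖ := by
  have e : FO7_Jw k v = (0, v, 0) := rfl
  rw [e, Prod.norm_def, Prod.norm_def, norm_zero, norm_zero]
  exact max_le (norm_nonneg _) (max_le le_rfl (norm_nonneg _))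

theorem FO7_T_norm {J : Vec k →L[ℝ] ℝ × Vec k × Vec k} (hJ : ∀ v, ‖J v‖ ≤ ‖v‖)
    (f : (ℝ × Vec k × Vec k) →L[ℝ] ℝ) : ‖FO7_T J f‖ ≤ ‖f‖ := by
  refine O3_norm_le (fun v => ?_) (norm_nonneg _)
  unfold FO7_T
  rw [InnerProductSpace.toDual_symm_apply]
  have h1 : ‖f (J v)‖ ≤ ‖f‖ * ‖J v‖ := f.le_opNorm _
  exact h1.trans (mul_le_mul_of_nonneg_left (hJ v) (norm_nonneg _))

theorem FO7_T_add (J : Vec k →L[ℝ] ℝ × Vec k × Vec k) (f g : (ℝ × Vec k × Vec k) →L[ℝ] ℝ) (c : ℝ) :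
    FO7_T J (f + c • g) = FO7_T J f + c • FO7_T J g := by
  refine ext_inner_right ℝ fun v => ?_
  unfold FO7_T
  rw [inner_add_left, real_inner_smul_left, InnerProductSpace.toDual_symm_apply,
    InnerProductSpace.toDual_symm_apply, InnerProductSpace.toDual_symm_apply]
  rfl

theorem FO7_T_sub (J : Vec k →L[ℝ] ℝ × Vec k × Vec k) (f g : (ℝ × Vec k × Vec k) →L[ℝ] ℝ) :
    FO7_T J (f - g) = FO7_T J f - FO7_T J g := by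
  refine ext_inner_right ℝ fun v => ?_
  unfold FO7_T
  rw [inner_sub_left, InnerProductSpace.toDual_symm_apply,
    InnerProductSpace.toDual_symm_apply, InnerProductSpace.toDual_symm_apply]
  rfl

theorem FO7_conv (k : ℕ) (r : ℝ) : Convex ℝ (LD k r) := by
  have h1 : Convex ℝ ((univ : Set ℝ) ×ˢ (Metric.ball (0 : Vec k) r ×ˢ Metric.ball (0 : Vec k) r)) :=
    convex_univ.prod ((convex_ball 0 r).prod (convex_ball 0 r))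
  have h2 : LD k r = (univ : Set ℝ) ×ˢ (Metric.ball (0 : Vec k) r ×ˢ Metric.ball (0 : Vec k) r) := by
    ext y
    simp [LD]
  rw [h2]
  exact h1

theorem FO7_diff {D : ℝ × Vec k × Vec k → ℝ} {r η : ℝ} (hD : ContDiffOn ℝ 2 D (LD k r))
    (h1 : ∀ y ∈ LD k r, ‖fderiv ℝ D y‖ ≤ η) (h2 : ∀ y ∈ LD k r, ‖fderiv ℝ (fderiv ℝ D) y‖ ≤ η)
    {J : Vec k →L[ℝ] ℝ × Vec k × Vec k} (hJ : ∀ v, ‖J v‖ ≤ ‖v‖) :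
    (∀ y ∈ LD k r, ‖FO7_T J (fderiv ℝ D y)‖ ≤ η) ∧ ∀ y ∈ LD k r, ∀ y' ∈ LD k r,
      ‖FO7_T J (fderiv ℝ D y) - FO7_T J (fderiv ℝ D y')‖ ≤ η * ‖y - y'‖ := by
  refine ⟨fun y hy => (FO7_T_norm hJ _).trans (h1 y hy), fun y hy y' hy' => ?_⟩
  rw [← FO7_T_sub]
  refine (FO7_T_norm hJ _).trans ?_
  refine (FO7_conv k r).norm_image_sub_le_of_norm_fderiv_le (𝕜 := ℝ) (f := fderiv ℝ D) (fun z hz => ?_)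
    h2 hy' hy
  exact ((hD.contDiffAt ((O3_isOpen k r).mem_nhds hz)).fderiv_right (m := 1) (by norm_num)).differentiableAt
    one_ne_zero

/-! ### the difference of the Lagrangians -/

/-- the difference -/
def FO7_D (Φ0 Ψ : ℝ → ℝ × Vec k → ℝ × Vec k → ℝ) (t : ℝ) (y : ℝ × Vec k × Vec k) : ℝ :=
  lg (Ψ t) y - lg (Φ0 t) y

theorem FO7_lgΨ {Φ0 Ψ : ℝ → ℝ × Vec k → ℝ × Vec k → ℝ} {𝒜 : Set (ℝ × Vec k)} {r η : ℝ}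
    (hN : NearP Φ0 Ψ 𝒜 r η) (t : ℝ) : ContDiffOn ℝ 2 (lg (Ψ t)) (LD k r) := by
  have h1 : ContDiffOn ℝ 2 (fun z : ℝ × Vec k × Vec k => ((t, z) : ℝ × (ℝ × Vec k × Vec k))) (LD k r) :=
    contDiffOn_const.prodMk contDiffOn_id
  have h5 : MapsTo (fun z : ℝ × Vec k × Vec k => ((t, z) : ℝ × (ℝ × Vec k × Vec k))) (LD k r)
      {y | y.2 ∈ LD k r} := fun z hz => hz
  have h7 := hN.smooth.comp h1 h5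
  exact h7

theorem FO7_bl {Φ : ℝ → ℝ × Vec k → ℝ × Vec k → ℝ} {r1 : ℝ} (h : LocFin Φ r1) (K t : ℝ) {r : ℝ}
    (hr : r ≤ r1 / 2) : ContDiffOn ℝ 2 (bl Φ K t) (LD k r) := by
  have h1 : ContDiffOn ℝ 2 (fun z : ℝ × Vec k × Vec k => ((t, z) : ℝ × (ℝ × Vec k × Vec k))) (LD k r) :=
    contDiffOn_const.prodMk contDiffOn_id
  have h2 : ContDiffOn ℝ 2 (fun y : ℝ × (ℝ × Vec k × Vec k) => bl Φ K y.1 y.2) {y | ‖y.2.2.1‖ < r1} :=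
    (bl_smooth h K).of_le (WithTop.coe_le_coe.2 le_top)
  have h4 := h.pos_r
  have h5 : MapsTo (fun z : ℝ × Vec k × Vec k => ((t, z) : ℝ × (ℝ × Vec k × Vec k))) (LD k r)
      {y | ‖y.2.2.1‖ < r1} := by
    intro z hz
    have h3 : ‖z.2.1‖ < r := hz.1
    have h6 : ‖z.2.1‖ < r1 := by linarith
    exact h6
  have h7 := h2.comp h1 h5
  exact h7

theorem FO7_lg0 {Φ Φ0 : ℝ → ℝ × Vec k → ℝ × Vec k → ℝ} {K r ε : ℝ}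
    (hT : ∀ t z ζ, ‖z.2‖ < r → Φ0 t z ζ = (1 - ε) * (cf Φ K t z * Φ t z ζ)) (t : ℝ)
    {y : ℝ × Vec k × Vec k} (hy : y ∈ LD k r) : lg (Φ0 t) y = (1 - ε) * bl Φ K t y :=
  hT t (y.1, y.2.1) (1, y.2.2) hy.1

theorem FO7_D_smooth {Φ : ℝ → ℝ × Vec k → ℝ × Vec k → ℝ} {r1 : ℝ} (h : LocFin Φ r1) {K r ε η : ℝ}
    (hr : r ≤ r1 / 2) {Φ0 Ψ : ℝ → ℝ × Vec k → ℝ × Vec k → ℝ} {𝒜 : Set (ℝ × Vec k)}
    (hT : ∀ t z ζ, ‖z.2‖ < r → Φ0 t z ζ = (1 - ε) * (cf Φ K t z * Φ t z ζ)) (hN : NearP Φ0 Ψ 𝒜 r η) (t : ℝ) :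
    ContDiffOn ℝ 2 (FO7_D Φ0 Ψ t) (LD k r) := by
  have h1 : ContDiffOn ℝ 2 (fun y => lg (Ψ t) y - (1 - ε) * bl Φ K t y) (LD k r) :=
    (FO7_lgΨ hN t).sub (contDiffOn_const.mul (FO7_bl h K t hr))
  refine h1.congr fun y hy => ?_
  unfold FO7_D
  rw [FO7_lg0 hT t hy]

theorem FO7_fd {Φ : ℝ → ℝ × Vec k → ℝ × Vec k → ℝ} {r1 : ℝ} (h : LocFin Φ r1) {K r ε η : ℝ}
    (hr : r ≤ r1 / 2) {Φ0 Ψ : ℝ → ℝ × Vec k → ℝ × Vec k → ℝ} {𝒜 : Set (ℝ × Vec k)}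
    (hT : ∀ t z ζ, ‖z.2‖ < r → Φ0 t z ζ = (1 - ε) * (cf Φ K t z * Φ t z ζ)) (hN : NearP Φ0 Ψ 𝒜 r η) (t : ℝ)
    {y : ℝ × Vec k × Vec k} (hy : y ∈ LD k r) :
    fderiv ℝ (lg (Ψ t)) y = fderiv ℝ (FO7_D Φ0 Ψ t) y + (1 - ε) • fderiv ℝ (bl Φ K t) y := by
  have hn := (O3_isOpen k r).mem_nhds hy
  have h1 : DifferentiableAt ℝ (FO7_D Φ0 Ψ t) y :=
    ((FO7_D_smooth h hr hT hN t).contDiffAt hn).differentiableAt two_ne_zero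
  have h2 : DifferentiableAt ℝ (bl Φ K t) y :=
    ((FO7_bl h K t hr).contDiffAt hn).differentiableAt two_ne_zero
  have h3 : HasFDerivAt (fun y => FO7_D Φ0 Ψ t y + (1 - ε) * bl Φ K t y)
      (fderiv ℝ (FO7_D Φ0 Ψ t) y + (1 - ε) • fderiv ℝ (bl Φ K t) y) y :=
    h1.hasFDerivAt.add (h2.hasFDerivAt.const_mul (1 - ε))
  have h4 : lg (Ψ t) =ᶠ[𝓝 y] fun y => FO7_D Φ0 Ψ t y + (1 - ε) * bl Φ K t y := by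
    filter_upwards [hn] with z hz
    unfold FO7_D
    rw [FO7_lg0 hT t hz]
    ring
  exact (h3.congr_of_eventuallyEq h4).fderiv

theorem FO7_T_fd {Φ : ℝ → ℝ × Vec k → ℝ × Vec k → ℝ} {r1 : ℝ} (h : LocFin Φ r1) {K r ε η : ℝ}
    (hr : r ≤ r1 / 2) (hε : ε ≤ 1 / 4) {Φ0 Ψ : ℝ → ℝ × Vec k → ℝ × Vec k → ℝ} {𝒜 : Set (ℝ × Vec k)}
    (hT : ∀ t z ζ, ‖z.2‖ < r → Φ0 t z ζ = (1 - ε) * (cf Φ K t z * Φ t z ζ)) (hN : NearP Φ0 Ψ 𝒜 r η) (t : ℝ)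
    (J : Vec k →L[ℝ] ℝ × Vec k × Vec k) {y : ℝ × Vec k × Vec k} (hy : y ∈ LD k r) :
    (1 - ε)⁻¹ • FO7_T J (fderiv ℝ (lg (Ψ t)) y) =
      FO7_T J (fderiv ℝ (bl Φ K t) y) + (1 - ε)⁻¹ • FO7_T J (fderiv ℝ (FO7_D Φ0 Ψ t) y) := by
  have h1 : (1 - ε) ≠ 0 := by linarith
  rw [FO7_fd h hr hT hN t hy, FO7_T_add, smul_add, smul_smul, inv_mul_cancel₀ h1, one_smul, add_comm]

/-! ### linear algebra -/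

theorem FO7_pair {a b : Vec k} {C : ℝ} (ha : ‖a‖ ≤ C) (hb : ‖b‖ ≤ C) : ‖((a, b) : Vec k × Vec k)‖ ≤ C := by
  rw [Prod.norm_def]
  exact max_le ha hb

theorem FO7_est {A1 Ai1 Ad : Vec k →L[ℝ] Vec k} {A g e μ : ℝ} (hA : 0 < A) (hg : 0 ≤ g) (he : 0 ≤ e)
    (hμ : 1 ≤ μ) (inv : ∀ v, Ai1 (A1 v) = v) (b1 : ∀ v, ‖A1 v‖ ≤ A * ‖v‖) (b2 : ∀ v, ‖Ai1 v‖ ≤ A * ‖v‖)
    (b3 : ∀ v, ‖Ad v‖ ≤ A * ‖v‖) {δ : Vec k × Vec k} {U W : Vec k}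
    (hU : ‖U - A1 δ.2‖ ≤ (g * μ⁻¹ + e) * ‖δ‖)
    (hW : ‖W - (μ ^ 2) • A1 (μ⁻¹ • δ.1)‖ ≤ (2 * g + e) * ‖δ‖) :
    ‖((Ai1 U - δ.2, μ⁻¹ • (Ad U + Ai1 W) - δ.1) : Vec k × Vec k)‖ ≤
      (μ⁻¹ * (A * (A + 3 * g)) + 2 * A * e) * ‖δ‖ := by
  have hμ0 : 0 < μ := by linarith
  have hi0 : 0 < μ⁻¹ := inv_pos.2 hμ0
  have hi1 : μ⁻¹ ≤ 1 := inv_le_one_of_one_le₀ hμ
  have hd := norm_nonneg δ
  have hd2 : ‖δ.2‖ ≤ ‖δ‖ := norm_snd_le δ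
  refine FO7_pair ?_ ?_
  · have e1 : Ai1 U - δ.2 = Ai1 (U - A1 δ.2) := by rw [map_sub, inv]
    rw [e1]
    refine (b2 _).trans ((mul_le_mul_of_nonneg_left hU hA.le).trans ?_)
    rw [← mul_assoc]
    refine mul_le_mul_of_nonneg_right ?_ hd
    have h1 : 0 ≤ μ⁻¹ * (A * A) := by positivity
    have h2 : 0 ≤ μ⁻¹ * (A * g) := by positivity
    have h3 : 0 ≤ A * e := by positivity
    nlinarith
  · have e1 : μ⁻¹ • (Ad U + Ai1 W) - δ.1 =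
        μ⁻¹ • ((Ad (U - A1 δ.2) + Ad (A1 δ.2)) + Ai1 (W - (μ ^ 2) • A1 (μ⁻¹ • δ.1))) := by
      have e2 : μ⁻¹ • Ai1 ((μ ^ 2) • A1 (μ⁻¹ • δ.1)) = δ.1 := by
        rw [map_smul, inv, smul_smul, smul_smul]
        have : μ⁻¹ * (μ ^ 2 * μ⁻¹) = 1 := by field_simp
        rw [← mul_assoc] at this
        rw [this, one_smul]
      rw [← map_add, sub_add_cancel, map_sub Ai1, ← add_sub_assoc, smul_sub μ⁻¹ (Ad U + Ai1 W), e2]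
    rw [e1, norm_smul, Real.norm_eq_abs, abs_of_pos hi0]
    have h1 : ‖Ad (U - A1 δ.2)‖ ≤ A * ((g * μ⁻¹ + e) * ‖δ‖) :=
      (b3 _).trans (mul_le_mul_of_nonneg_left hU hA.le)
    have h2 : ‖Ad (A1 δ.2)‖ ≤ A * (A * ‖δ‖) :=
      (b3 _).trans (mul_le_mul_of_nonneg_left ((b1 _).trans (mul_le_mul_of_nonneg_left hd2 hA.le)) hA.le)
    have h3 : ‖Ai1 (W - (μ ^ 2) • A1 (μ⁻¹ • δ.1))‖ ≤ A * ((2 * g + e) * ‖δ‖) :=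
      (b2 _).trans (mul_le_mul_of_nonneg_left hW hA.le)
    have h4 : ‖(Ad (U - A1 δ.2) + Ad (A1 δ.2)) + Ai1 (W - (μ ^ 2) • A1 (μ⁻¹ • δ.1))‖ ≤
        A * ((g * μ⁻¹ + e) * ‖δ‖) + A * (A * ‖δ‖) + A * ((2 * g + e) * ‖δ‖) :=
      (norm_add_le _ _).trans (add_le_add ((norm_add_le _ _).trans (add_le_add h1 h2)) h3)
    refine (mul_le_mul_of_nonneg_left h4 hi0.le).trans ?_
    have e5 : μ⁻¹ * (A * ((g * μ⁻¹ + e) * ‖δ‖) + A * (A * ‖δ‖) + A * ((2 * g + e) * ‖δ‖)) =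
        (μ⁻¹ * (A * (A + 2 * g + g * μ⁻¹)) + 2 * A * e * μ⁻¹) * ‖δ‖ := by ring
    rw [e5]
    refine mul_le_mul_of_nonneg_right (add_le_add ?_ ?_) hd
    · refine mul_le_mul_of_nonneg_left (mul_le_mul_of_nonneg_left ?_ hA.le) hi0.le
      nlinarith
    · have : 0 ≤ 2 * A * e := by positivity
      nlinarith

/-! ### one family `Ψ` -/

/-- the point `(w, u)` which corresponds to `y` -/
def FO7_z (μ : ℝ) (y : Vec k × Vec k) : Vec k × Vec k := (μ⁻¹ • y.1, y.2)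

theorem FO7_z_norm {μ : ℝ} (hμ : 1 ≤ μ) (y : Vec k × Vec k) : ‖FO7_z μ y‖ ≤ ‖y‖ := by
  have hi0 : 0 < μ⁻¹ := inv_pos.2 (by linarith)
  have hi1 : μ⁻¹ ≤ 1 := inv_le_one_of_one_le₀ hμ
  refine FO7_pair ?_ (norm_snd_le y)
  rw [norm_smul, Real.norm_eq_abs, abs_of_pos hi0]
  have h1 : ‖y.1‖ ≤ ‖y‖ := norm_fst_le y
  nlinarith [norm_nonneg y.1]

theorem FO7_z_sub (μ : ℝ) (y y' : Vec k × Vec k) : FO7_z μ y - FO7_z μ y' = FO7_z μ (y - y') := by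
  unfold FO7_z
  rw [Prod.mk_sub_mk, ← smul_sub]
  rfl

theorem FO7_mem {r : ℝ} {z : Vec k × Vec k} (hz : ‖z‖ < r) (θ : ℝ) :
    ((θ, z.1, z.2) : ℝ × Vec k × Vec k) ∈ LD k r :=
  ⟨(norm_fst_le z).trans_lt hz, (norm_snd_le z).trans_lt hz⟩

theorem FO7_tri {x a b c : Vec k} {C1 C2 C3 : ℝ} (e : x = a + b + c) (ha : ‖a‖ ≤ C1) (hb : ‖b‖ ≤ C2)
    (hc : ‖c‖ ≤ C3) : ‖x‖ ≤ C1 + C2 + C3 := by
  rw [e]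
  exact (norm_add_le _ _).trans (add_le_add ((norm_add_le _ _).trans (add_le_add ha hb)) hc)

theorem FO7_lin {G Dd : Vec k × Vec k → Vec k} {G' : Vec k × Vec k →L[ℝ] Vec k} {B : Vec k} {ρ r s η g1 : ℝ}
    (hρ : ρ < r) (hG : ∀ z, ‖z‖ ≤ ρ → DifferentiableAt ℝ G z) (hG' : ∀ z, ‖z‖ ≤ ρ → ‖fderiv ℝ G z - G'‖ ≤ s)
    (hD : ∀ z z', ‖z‖ < r → ‖z'‖ < r → ‖Dd z - Dd z'‖ ≤ η * ‖z - z'‖) {z z' : Vec k × Vec k}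
    (hz : ‖z‖ ≤ ρ) (hz' : ‖z'‖ ≤ ρ) (hB : ‖G' (z - z') - B‖ ≤ g1) :
    ‖(G z + Dd z) - (G z' + Dd z') - B‖ ≤ s * ‖z - z'‖ + g1 + η * ‖z - z'‖ := by
  have h1 : ‖G z - G z' - G' (z - z')‖ ≤ s * ‖z - z'‖ := by
    refine (convex_closedBall (0 : Vec k × Vec k) ρ).norm_image_sub_le_of_norm_fderiv_le' (𝕜 := ℝ)
      (f := G) (fun x hx => hG x ?_) (fun x hx => hG' x ?_) ?_ ?_
    · simpa using hx
    · simpa using hx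
    · simpa using hz'
    · simpa using hz
  exact FO7_tri (by abel) h1 hB (hD z z' (hz.trans_lt hρ) (hz'.trans_lt hρ))

theorem FO7_DJ {Φ : ℝ → ℝ × Vec k → ℝ × Vec k → ℝ} {r1 : ℝ} (h : LocFin Φ r1) {K r ε η : ℝ}
    (hr : r ≤ r1 / 2) (hε0 : 0 < ε) (hε : ε ≤ 1 / 4) {Φ0 Ψ : ℝ → ℝ × Vec k → ℝ × Vec k → ℝ} {𝒜 : Set (ℝ × Vec k)}
    (hT : ∀ t z ζ, ‖z.2‖ < r → Φ0 t z ζ = (1 - ε) * (cf Φ K t z * Φ t z ζ)) (hN : NearP Φ0 Ψ 𝒜 r η) (t θ : ℝ)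
    {J : Vec k →L[ℝ] ℝ × Vec k × Vec k} (hJ : ∀ v, ‖J v‖ ≤ ‖v‖) :
    (∀ z : Vec k × Vec k, ‖z‖ < r → ‖(1 - ε)⁻¹ • FO7_T J (fderiv ℝ (FO7_D Φ0 Ψ t) (θ, z.1, z.2))‖ ≤ 2 * η) ∧
    ∀ z z' : Vec k × Vec k, ‖z‖ < r → ‖z'‖ < r →
      ‖(1 - ε)⁻¹ • FO7_T J (fderiv ℝ (FO7_D Φ0 Ψ t) (θ, z.1, z.2)) -
        (1 - ε)⁻¹ • FO7_T J (fderiv ℝ (FO7_D Φ0 Ψ t) (θ, z'.1, z'.2))‖ ≤ 2 * η * ‖z - z'‖ := by
  have hd := FO7_diff (FO7_D_smooth h hr hT hN t) (fun y hy => hN.c1 t y hy) (fun y hy => hN.c2 t y hy) hJ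
  have h0 : 0 < 1 - ε := by linarith
  have h1 : 0 < (1 - ε)⁻¹ := inv_pos.2 h0
  have h2 : (1 - ε)⁻¹ ≤ 2 := by
    rw [inv_le_comm₀ h0 two_pos]
    linarith
  constructor
  · intro z hz
    rw [norm_smul, Real.norm_eq_abs, abs_of_pos h1]
    exact mul_le_mul h2 (hd.1 _ (FO7_mem hz θ)) (norm_nonneg _) (by norm_num)
  · intro z z' hz hz'
    rw [← smul_sub, norm_smul, Real.norm_eq_abs, abs_of_pos h1, mul_assoc]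
    refine mul_le_mul h2 ?_ (norm_nonneg _) (by norm_num)
    have h3 := hd.2 _ (FO7_mem hz θ) _ (FO7_mem hz' θ)
    have e : ((θ, z.1, z.2) : ℝ × Vec k × Vec k) - (θ, z'.1, z'.2) = ((0 : ℝ), z - z') := by
      rw [Prod.mk_sub_mk, sub_self]
    rw [e] at h3
    have e2 : ‖(((0 : ℝ), z - z') : ℝ × Vec k × Vec k)‖ = ‖z - z'‖ := by
      rw [Prod.norm_def, norm_zero]
      exact max_eq_right (norm_nonneg _)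
    rw [e2] at h3
    exact h3

theorem FO7_one {Φ : ℝ → ℝ × Vec k → ℝ × Vec k → ℝ} {r1 : ℝ} (h : LocFin Φ r1) {K r ε η s g A μ r2 : ℝ}
    (hr : r ≤ r1 / 2) (hε0 : 0 < ε) (hε : ε ≤ 1 / 4) {Φ0 Ψ : ℝ → ℝ × Vec k → ℝ × Vec k → ℝ} {𝒜 : Set (ℝ × Vec k)}
    (hT : ∀ t z ζ, ‖z.2‖ < r → Φ0 t z ζ = (1 - ε) * (cf Φ K t z * Φ t z ζ)) (hN : NearP Φ0 Ψ 𝒜 r η) (t θ : ℝ)
    (hA : 0 < A) (hg : 0 ≤ g) (hs : 0 ≤ s) (hη : 0 ≤ η) (hμ : 1 ≤ μ) (hμ2 : μ ^ 2 = 2 * K)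
    (b1 : ∀ v, ‖Au Φ t θ v‖ ≤ A * ‖v‖) (b2 : ∀ v, ‖Ai Φ t θ v‖ ≤ A * ‖v‖)
    (b3 : ∀ v, ‖deriv (fun θ => Ai Φ t θ) θ v‖ ≤ A * ‖v‖)
    (hu : ∀ w' u', ‖fderiv ℝ (fun y : Vec k × Vec k => gu (bl Φ K t) (θ, y.1, y.2)) 0 (w', u') - Au Φ t θ u'‖ ≤
      g * ‖w'‖)
    (hw : ∀ w' u', ‖fderiv ℝ (fun y : Vec k × Vec k => gw (bl Φ K t) (θ, y.1, y.2)) 0 (w', u') -
      (2 * K) • Au Φ t θ w'‖ ≤ g * (‖w'‖ + ‖u'‖))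
    (hr2 : r2 < r)
    (hc : ∀ y : Vec k × Vec k, ‖y‖ ≤ r2 →
      DifferentiableAt ℝ (fun y : Vec k × Vec k => gu (bl Φ K t) (θ, y.1, y.2)) y ∧
      DifferentiableAt ℝ (fun y : Vec k × Vec k => gw (bl Φ K t) (θ, y.1, y.2)) y ∧
      ‖fderiv ℝ (fun y : Vec k × Vec k => gu (bl Φ K t) (θ, y.1, y.2)) y -
        fderiv ℝ (fun y : Vec k × Vec k => gu (bl Φ K t) (θ, y.1, y.2)) 0‖ ≤ s ∧
      ‖fderiv ℝ (fun y : Vec k × Vec k => gw (bl Φ K t) (θ, y.1, y.2)) y -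
        fderiv ℝ (fun y : Vec k × Vec k => gw (bl Φ K t) (θ, y.1, y.2)) 0‖ ≤ s)
    {y y' : Vec k × Vec k} (hy : ‖y‖ ≤ r2) (hy' : ‖y'‖ ≤ r2) :
    ‖Nf Φ Ψ ε μ t θ y - Nf Φ Ψ ε μ t θ y'‖ ≤
      (μ⁻¹ * (A * (A + 3 * g)) + 2 * A * (s + 2 * η)) * ‖y - y'‖ := by
  have hi0 : 0 < μ⁻¹ := inv_pos.2 (by linarith)
  have hi1 : μ⁻¹ ≤ 1 := inv_le_one_of_one_le₀ hμ
  have hz : ‖FO7_z μ y‖ ≤ r2 := (FO7_z_norm hμ y).trans hy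
  have hz' : ‖FO7_z μ y'‖ ≤ r2 := (FO7_z_norm hμ y').trans hy'
  have hd : ‖FO7_z μ y - FO7_z μ y'‖ ≤ ‖y - y'‖ := by
    rw [FO7_z_sub]
    exact FO7_z_norm hμ _
  have hdn := norm_nonneg (y - y')
  have hd1 : ‖(y - y').1‖ ≤ ‖y - y'‖ := norm_fst_le _
  have hd2 : ‖(y - y').2‖ ≤ ‖y - y'‖ := norm_snd_le _
  have hs1 : ‖μ⁻¹ • (y - y').1‖ ≤ μ⁻¹ * ‖y - y'‖ := by
    rw [norm_smul, Real.norm_eq_abs, abs_of_pos hi0]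
    exact mul_le_mul_of_nonneg_left hd1 hi0.le
  -- the two differences
  have hDu := FO7_DJ h hr hε0 hε hT hN t θ (J := FO7_Ju k) FO7_Ju_norm
  have hDw := FO7_DJ h hr hε0 hε hT hN t θ (J := FO7_Jw k) FO7_Jw_norm
  have eU : ∀ z : Vec k × Vec k, ‖z‖ < r → Ru Φ Ψ ε t θ z.1 z.2 = (gu (bl Φ K t) (θ, z.1, z.2) +
      (1 - ε)⁻¹ • FO7_T (FO7_Ju k) (fderiv ℝ (FO7_D Φ0 Ψ t) (θ, z.1, z.2))) - pn Φ t θ := by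
    intro z hz
    unfold Ru
    rw [FO7_gu (lg (Ψ t)), FO7_T_fd h hr hε hT hN t (FO7_Ju k) (FO7_mem hz θ), ← FO7_gu]
  have eW : ∀ z : Vec k × Vec k, ‖z‖ < r → Rw Φ Ψ ε t θ z.1 z.2 = (gw (bl Φ K t) (θ, z.1, z.2) +
      (1 - ε)⁻¹ • FO7_T (FO7_Jw k) (fderiv ℝ (FO7_D Φ0 Ψ t) (θ, z.1, z.2))) - deriv (pn Φ t) θ := by
    intro z hz
    unfold Rw
    rw [FO7_gw (lg (Ψ t)), FO7_T_fd h hr hε hT hN t (FO7_Jw k) (FO7_mem hz θ), ← FO7_gw]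
  have hU : ‖(Ru Φ Ψ ε t θ (FO7_z μ y).1 (FO7_z μ y).2 - Ru Φ Ψ ε t θ (FO7_z μ y').1 (FO7_z μ y').2) -
      Au Φ t θ (y - y').2‖ ≤ (g * μ⁻¹ + (s + 2 * η)) * ‖y - y'‖ := by
    have h1 := FO7_lin (G := fun z : Vec k × Vec k => gu (bl Φ K t) (θ, z.1, z.2))
      (Dd := fun z : Vec k × Vec k =>
        (1 - ε)⁻¹ • FO7_T (FO7_Ju k) (fderiv ℝ (FO7_D Φ0 Ψ t) (θ, z.1, z.2)))
      (G' := fderiv ℝ (fun z : Vec k × Vec k => gu (bl Φ K t) (θ, z.1, z.2)) 0)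
      (B := Au Φ t θ (y - y').2) (g1 := g * (μ⁻¹ * ‖y - y'‖)) hr2 (fun z hz => (hc z hz).1)
      (fun z hz => (hc z hz).2.2.1) hDu.2 hz hz' (by
        rw [FO7_z_sub]
        exact (hu _ _).trans (mul_le_mul_of_nonneg_left hs1 hg))
    rw [eU _ (hz.trans_lt hr2), eU _ (hz'.trans_lt hr2), sub_sub_sub_cancel_right]
    refine h1.trans ?_
    have h2 : s * ‖FO7_z μ y - FO7_z μ y'‖ ≤ s * ‖y - y'‖ := mul_le_mul_of_nonneg_left hd hs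
    have h3 : 2 * η * ‖FO7_z μ y - FO7_z μ y'‖ ≤ 2 * η * ‖y - y'‖ :=
      mul_le_mul_of_nonneg_left hd (by positivity)
    have e : (g * μ⁻¹ + (s + 2 * η)) * ‖y - y'‖ =
      s * ‖y - y'‖ + g * (μ⁻¹ * ‖y - y'‖) + 2 * η * ‖y - y'‖ := by ring
    rw [e]
    linarith
  have hW : ‖(Rw Φ Ψ ε t θ (FO7_z μ y).1 (FO7_z μ y).2 - Rw Φ Ψ ε t θ (FO7_z μ y').1 (FO7_z μ y').2) -
      (μ ^ 2) • Au Φ t θ (μ⁻¹ • (y - y').1)‖ ≤ (2 * g + (s + 2 * η)) * ‖y - y'‖ := by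
    have h1 := FO7_lin (G := fun z : Vec k × Vec k => gw (bl Φ K t) (θ, z.1, z.2))
      (Dd := fun z : Vec k × Vec k =>
        (1 - ε)⁻¹ • FO7_T (FO7_Jw k) (fderiv ℝ (FO7_D Φ0 Ψ t) (θ, z.1, z.2)))
      (G' := fderiv ℝ (fun z : Vec k × Vec k => gw (bl Φ K t) (θ, z.1, z.2)) 0)
      (B := (μ ^ 2) • Au Φ t θ (μ⁻¹ • (y - y').1)) (g1 := g * (2 * ‖y - y'‖)) hr2 (fun z hz => (hc z hz).2.1)
      (fun z hz => (hc z hz).2.2.2) hDw.2 hz hz' (by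
        rw [FO7_z_sub, hμ2]
        refine (hw _ _).trans (mul_le_mul_of_nonneg_left ?_ hg)
        have h2 : ‖μ⁻¹ • (y - y').1‖ ≤ ‖y - y'‖ := hs1.trans (by nlinarith)
        linarith)
    rw [eW _ (hz.trans_lt hr2), eW _ (hz'.trans_lt hr2), sub_sub_sub_cancel_right]
    refine h1.trans ?_
    have h2 : s * ‖FO7_z μ y - FO7_z μ y'‖ ≤ s * ‖y - y'‖ := mul_le_mul_of_nonneg_left hd hs
    have h3 : 2 * η * ‖FO7_z μ y - FO7_z μ y'‖ ≤ 2 * η * ‖y - y'‖ :=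
      mul_le_mul_of_nonneg_left hd (by positivity)
    have e : (2 * g + (s + 2 * η)) * ‖y - y'‖ =
      s * ‖y - y'‖ + g * (2 * ‖y - y'‖) + 2 * η * ‖y - y'‖ := by ring
    rw [e]
    linarith
  have hest := FO7_est (A1 := Au Φ t θ) (Ai1 := Ai Φ t θ) (Ad := deriv (fun θ => Ai Φ t θ) θ) hA hg
    (e := s + 2 * η) (by positivity) hμ (fun v => (Au_inv h t θ v).1) b1 b2 b3 hU hW
  have e : Nf Φ Ψ ε μ t θ y - Nf Φ Ψ ε μ t θ y' =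
      (Ai Φ t θ (Ru Φ Ψ ε t θ (FO7_z μ y).1 (FO7_z μ y).2 - Ru Φ Ψ ε t θ (FO7_z μ y').1 (FO7_z μ y').2) -
        (y - y').2,
      μ⁻¹ • (deriv (fun θ => Ai Φ t θ) θ
        (Ru Φ Ψ ε t θ (FO7_z μ y).1 (FO7_z μ y).2 - Ru Φ Ψ ε t θ (FO7_z μ y').1 (FO7_z μ y').2) +
        Ai Φ t θ (Rw Φ Ψ ε t θ (FO7_z μ y).1 (FO7_z μ y).2 - Rw Φ Ψ ε t θ (FO7_z μ y').1 (FO7_z μ y').2)) -
        (y - y').1) := by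
    unfold Nf
    rw [Prod.mk_sub_mk]
    refine Prod.ext ?_ ?_
    · show Ai Φ t θ (Ru Φ Ψ ε t θ (μ⁻¹ • y.1) y.2) - y.2 - (Ai Φ t θ (Ru Φ Ψ ε t θ (μ⁻¹ • y'.1) y'.2) - y'.2) =
        Ai Φ t θ (Ru Φ Ψ ε t θ (μ⁻¹ • y.1) y.2 - Ru Φ Ψ ε t θ (μ⁻¹ • y'.1) y'.2) - (y.2 - y'.2)
      rw [map_sub]
      abel
    · show μ⁻¹ • (deriv (fun θ => Ai Φ t θ) θ (Ru Φ Ψ ε t θ (μ⁻¹ • y.1) y.2) +
          Ai Φ t θ (Rw Φ Ψ ε t θ (μ⁻¹ • y.1) y.2)) - y.1 -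
          (μ⁻¹ • (deriv (fun θ => Ai Φ t θ) θ (Ru Φ Ψ ε t θ (μ⁻¹ • y'.1) y'.2) +
          Ai Φ t θ (Rw Φ Ψ ε t θ (μ⁻¹ • y'.1) y'.2)) - y'.1) =
        μ⁻¹ • (deriv (fun θ => Ai Φ t θ) θ (Ru Φ Ψ ε t θ (μ⁻¹ • y.1) y.2 - Ru Φ Ψ ε t θ (μ⁻¹ • y'.1) y'.2) +
          Ai Φ t θ (Rw Φ Ψ ε t θ (μ⁻¹ • y.1) y.2 - Rw Φ Ψ ε t θ (μ⁻¹ • y'.1) y'.2)) - (y.1 - y'.1)
      rw [map_sub, map_sub]
      module
  rw [e]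
  exact hest

theorem FO7_zero {Φ : ℝ → ℝ × Vec k → ℝ × Vec k → ℝ} {r1 : ℝ} (h : LocFin Φ r1) {K r ε η A μ : ℝ}
    (hr0 : 0 < r) (hr : r ≤ r1 / 2) (hε0 : 0 < ε) (hε : ε ≤ 1 / 4) {Φ0 Ψ : ℝ → ℝ × Vec k → ℝ × Vec k → ℝ}
    {𝒜 : Set (ℝ × Vec k)}
    (hT : ∀ t z ζ, ‖z.2‖ < r → Φ0 t z ζ = (1 - ε) * (cf Φ K t z * Φ t z ζ)) (hN : NearP Φ0 Ψ 𝒜 r η) (t θ : ℝ)
    (hA : 0 < A) (hη : 0 ≤ η) (hμ : 1 ≤ μ) (b2 : ∀ v, ‖Ai Φ t θ v‖ ≤ A * ‖v‖)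
    (b3 : ∀ v, ‖deriv (fun θ => Ai Φ t θ) θ v‖ ≤ A * ‖v‖) : ‖Nf Φ Ψ ε μ t θ 0‖ ≤ 4 * A * η := by
  have hi0 : 0 < μ⁻¹ := inv_pos.2 (by linarith)
  have hi1 : μ⁻¹ ≤ 1 := inv_le_one_of_one_le₀ hμ
  have hz0 : ‖(0 : Vec k × Vec k)‖ < r := by rw [norm_zero]; exact hr0
  have hm : ((θ, 0, 0) : ℝ × Vec k × Vec k) ∈ LD k r := FO7_mem (z := 0) hz0 θ
  have hb := bl_grad h K t θ
  have hDu := (FO7_DJ h hr hε0 hε hT hN t θ (J := FO7_Ju k) FO7_Ju_norm).1 0 hz0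
  have hDw := (FO7_DJ h hr hε0 hε hT hN t θ (J := FO7_Jw k) FO7_Jw_norm).1 0 hz0
  have eU : Ru Φ Ψ ε t θ 0 0 = (1 - ε)⁻¹ • FO7_T (FO7_Ju k) (fderiv ℝ (FO7_D Φ0 Ψ t) (θ, 0, 0)) := by
    unfold Ru
    rw [FO7_gu (lg (Ψ t)), FO7_T_fd h hr hε hT hN t (FO7_Ju k) hm, ← FO7_gu, hb.2.1, add_sub_cancel_left]
  have eW : Rw Φ Ψ ε t θ 0 0 = (1 - ε)⁻¹ • FO7_T (FO7_Jw k) (fderiv ℝ (FO7_D Φ0 Ψ t) (θ, 0, 0)) := by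
    unfold Rw
    rw [FO7_gw (lg (Ψ t)), FO7_T_fd h hr hε hT hN t (FO7_Jw k) hm, ← FO7_gw, hb.2.2, add_sub_cancel_left]
  have nU : ‖Ru Φ Ψ ε t θ 0 0‖ ≤ 2 * η := by rw [eU]; exact hDu
  have nW : ‖Rw Φ Ψ ε t θ 0 0‖ ≤ 2 * η := by rw [eW]; exact hDw
  have e : Nf Φ Ψ ε μ t θ 0 = (Ai Φ t θ (Ru Φ Ψ ε t θ 0 0),
      μ⁻¹ • (deriv (fun θ => Ai Φ t θ) θ (Ru Φ Ψ ε t θ 0 0) + Ai Φ t θ (Rw Φ Ψ ε t θ 0 0))) := by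
    unfold Nf
    simp only [Prod.fst_zero, Prod.snd_zero, smul_zero, sub_zero]
  rw [e]
  have h0 : 0 ≤ A * η := by positivity
  have h1 : ‖Ai Φ t θ (Ru Φ Ψ ε t θ 0 0)‖ ≤ A * (2 * η) :=
    (b2 _).trans (mul_le_mul_of_nonneg_left nU hA.le)
  have h2 : ‖deriv (fun θ => Ai Φ t θ) θ (Ru Φ Ψ ε t θ 0 0)‖ ≤ A * (2 * η) :=
    (b3 _).trans (mul_le_mul_of_nonneg_left nU hA.le)
  have h3 : ‖Ai Φ t θ (Rw Φ Ψ ε t θ 0 0)‖ ≤ A * (2 * η) :=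
    (b2 _).trans (mul_le_mul_of_nonneg_left nW hA.le)
  refine FO7_pair (h1.trans (by linarith)) ?_
  rw [norm_smul, Real.norm_eq_abs, abs_of_pos hi0]
  have h4 := (norm_add_le _ _).trans (add_le_add h2 h3)
  refine (mul_le_mul hi1 h4 (norm_nonneg _) zero_le_one).trans ?_
  linarith

theorem FO7_smooth {Φ : ℝ → ℝ × Vec k → ℝ × Vec k → ℝ} {r1 : ℝ} (h : LocFin Φ r1) {r ε η μ r3 : ℝ}
    (hμ : 1 ≤ μ) (hr3 : r3 ≤ r) {Φ0 Ψ : ℝ → ℝ × Vec k → ℝ × Vec k → ℝ} {𝒜 : Set (ℝ × Vec k)}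
    (hN : NearP Φ0 Ψ 𝒜 r η) :
    ContDiffOn ℝ 1 (fun y : ℝ × ℝ × (Vec k × Vec k) => Nf Φ Ψ ε μ y.1 y.2.1 y.2.2) {y | ‖y.2.2‖ < r3} := by
  obtain ⟨-, hai, hdai, -, -, -⟩ := Au_reg h
  obtain ⟨-, hpn, -, hdpn, -⟩ := reg h
  obtain ⟨hgw, hgu⟩ := gradT hN.smooth
  set S : Set (ℝ × ℝ × (Vec k × Vec k)) := {y | ‖y.2.2‖ < r3} with hS
  have hmap : ContDiffOn ℝ 1 (fun y : ℝ × ℝ × (Vec k × Vec k) =>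
      ((y.1, (y.2.1, μ⁻¹ • y.2.2.1, y.2.2.2)) : ℝ × (ℝ × Vec k × Vec k))) S := by fun_prop
  have hmaps : MapsTo (fun y : ℝ × ℝ × (Vec k × Vec k) =>
      ((y.1, (y.2.1, μ⁻¹ • y.2.2.1, y.2.2.2)) : ℝ × (ℝ × Vec k × Vec k))) S {y | y.2 ∈ LD k r} := by
    intro y hy
    have hy' : ‖y.2.2‖ < r3 := hy
    have h1 : ‖FO7_z μ y.2.2‖ < r := (FO7_z_norm hμ _).trans_lt (hy'.trans_le hr3)
    exact FO7_mem h1 y.2.1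
  have hpr : ContDiff ℝ 1 (fun y : ℝ × ℝ × (Vec k × Vec k) => ((y.1, y.2.1) : ℝ × ℝ)) := by fun_prop
  have e1 : (1 : WithTop ℕ∞) ≤ ∞ := by norm_cast
  have c1 := (hai.of_le e1).comp hpr
  have h1 : ContDiffOn ℝ 1 (fun y : ℝ × ℝ × (Vec k × Vec k) => Ai Φ y.1 y.2.1) S := c1.contDiffOn
  have c2 := (hdai.of_le e1).comp hpr
  have h2 : ContDiffOn ℝ 1 (fun y : ℝ × ℝ × (Vec k × Vec k) => deriv (fun θ => Ai Φ y.1 θ) y.2.1) S :=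
    c2.contDiffOn
  have c3 := (hpn.of_le e1).comp hpr
  have h3 : ContDiffOn ℝ 1 (fun y : ℝ × ℝ × (Vec k × Vec k) => pn Φ y.1 y.2.1) S := c3.contDiffOn
  have c4 := (hdpn.of_le e1).comp hpr
  have h4 : ContDiffOn ℝ 1 (fun y : ℝ × ℝ × (Vec k × Vec k) => deriv (pn Φ y.1) y.2.1) S :=
    c4.contDiffOn
  have c5 := hgu.comp hmap hmaps
  have h5 : ContDiffOn ℝ 1 (fun y : ℝ × ℝ × (Vec k × Vec k) =>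
      gu (lg (Ψ y.1)) (y.2.1, μ⁻¹ • y.2.2.1, y.2.2.2)) S := c5
  have c6 := hgw.comp hmap hmaps
  have h6 : ContDiffOn ℝ 1 (fun y : ℝ × ℝ × (Vec k × Vec k) =>
      gw (lg (Ψ y.1)) (y.2.1, μ⁻¹ • y.2.2.1, y.2.2.2)) S := c6
  have c7 := (h5.const_smul (1 - ε)⁻¹).sub h3
  have h7 : ContDiffOn ℝ 1 (fun y : ℝ × ℝ × (Vec k × Vec k) =>
      Ru Φ Ψ ε y.1 y.2.1 (μ⁻¹ • y.2.2.1) y.2.2.2) S := c7
  have c8 := (h6.const_smul (1 - ε)⁻¹).sub h4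
  have h8 : ContDiffOn ℝ 1 (fun y : ℝ × ℝ × (Vec k × Vec k) =>
      Rw Φ Ψ ε y.1 y.2.1 (μ⁻¹ • y.2.2.1) y.2.2.2) S := c8
  have i1 : ContDiffOn ℝ 1 (fun y : ℝ × ℝ × (Vec k × Vec k) => y.2.2.1) S := by fun_prop
  have i2 : ContDiffOn ℝ 1 (fun y : ℝ × ℝ × (Vec k × Vec k) => y.2.2.2) S := by fun_prop
  have c9 := h1.clm_apply h7
  have c10 := h2.clm_apply h7
  have c11 := h1.clm_apply h8
  have h9 : ContDiffOn ℝ 1 (fun y : ℝ × ℝ × (Vec k × Vec k) =>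
      Ai Φ y.1 y.2.1 (Ru Φ Ψ ε y.1 y.2.1 (μ⁻¹ • y.2.2.1) y.2.2.2) - y.2.2.2) S := c9.sub i2
  have c12 := ((c10.add c11).const_smul μ⁻¹).sub i1
  have h10 : ContDiffOn ℝ 1 (fun y : ℝ × ℝ × (Vec k × Vec k) =>
      μ⁻¹ • (deriv (fun θ => Ai Φ y.1 θ) y.2.1 (Ru Φ Ψ ε y.1 y.2.1 (μ⁻¹ • y.2.2.1) y.2.2.2) +
      Ai Φ y.1 y.2.1 (Rw Φ Ψ ε y.1 y.2.1 (μ⁻¹ • y.2.2.1) y.2.2.2)) - y.2.2.1) S := c12
  exact h9.prodMk h10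

theorem FO7_per_t {Φ : ℝ → ℝ × Vec k → ℝ × Vec k → ℝ} {r1 : ℝ} (h : LocFin Φ r1) {r ε η μ : ℝ}
    (hμ : 1 ≤ μ) {Φ0 Ψ : ℝ → ℝ × Vec k → ℝ × Vec k → ℝ} {𝒜 : Set (ℝ × Vec k)}
    (h𝒜 : ∀ z : ℝ × Vec k, ‖z.2‖ ≤ r → z ∈ 𝒜) (hN : NearP Φ0 Ψ 𝒜 r η) (t θ : ℝ) {y : Vec k × Vec k}
    (hy : ‖y‖ < r) : Nf Φ Ψ ε μ (t + 1) θ y = Nf Φ Ψ ε μ t θ y := by
  obtain ⟨-, -, -, -, hai, hdai⟩ := Au_reg h
  obtain ⟨-, hpn, -, hdpn, -⟩ := pers h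
  have hm : ((θ, μ⁻¹ • y.1, y.2) : ℝ × Vec k × Vec k) ∈ LD k r :=
    FO7_mem (z := FO7_z μ y) ((FO7_z_norm hμ _).trans_lt hy) θ
  have he : lg (Ψ (t + 1)) =ᶠ[𝓝 ((θ, μ⁻¹ • y.1, y.2) : ℝ × Vec k × Vec k)] lg (Ψ t) := by
    filter_upwards [(O3_isOpen k r).mem_nhds hm] with z hz
    exact hN.per_t t (z.1, z.2.1) (h𝒜 _ hz.1.le) (1, z.2.2)
  have e1 : gu (lg (Ψ (t + 1))) (θ, μ⁻¹ • y.1, y.2) = gu (lg (Ψ t)) (θ, μ⁻¹ • y.1, y.2) := by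
    unfold gu
    rw [he.fderiv_eq]
  have e2 : gw (lg (Ψ (t + 1))) (θ, μ⁻¹ • y.1, y.2) = gw (lg (Ψ t)) (θ, μ⁻¹ • y.1, y.2) := by
    unfold gw
    rw [he.fderiv_eq]
  have e3 := hai.1 t θ
  have e4 : deriv (fun θ => Ai Φ (t + 1) θ) θ = deriv (fun θ => Ai Φ t θ) θ := hdai.1 t θ
  have e5 := hpn.1 t θ
  have e6 : deriv (pn Φ (t + 1)) θ = deriv (pn Φ t) θ := hdpn.1 t θ
  unfold Nf Ru Rw
  rw [e1, e2, e3, e4, e5, e6]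

theorem FO7_per_θ {Φ : ℝ → ℝ × Vec k → ℝ × Vec k → ℝ} {r1 : ℝ} (h : LocFin Φ r1) {r ε η μ : ℝ}
    (hμ : 1 ≤ μ) {Φ0 Ψ : ℝ → ℝ × Vec k → ℝ × Vec k → ℝ} {𝒜 : Set (ℝ × Vec k)}
    (h𝒜 : ∀ z : ℝ × Vec k, ‖z.2‖ ≤ r → z ∈ 𝒜) (hN : NearP Φ0 Ψ 𝒜 r η) (t θ : ℝ) {y : Vec k × Vec k}
    (hy : ‖y‖ < r) : Nf Φ Ψ ε μ t (θ + 1) y = Nf Φ Ψ ε μ t θ y := by
  obtain ⟨-, -, -, -, hai, hdai⟩ := Au_reg h
  obtain ⟨-, hpn, -, hdpn, -⟩ := pers h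
  have hm := (FO7_z_norm hμ y).trans_lt hy
  have h1 := grad_per (L := lg (Ψ t)) (r := r) (fun θ w u hw _ => hN.per_θ t θ w (1, u) (h𝒜 (θ, w) hw.le))
    (θ := θ) (w := μ⁻¹ • y.1) (u := y.2) ((norm_fst_le (FO7_z μ y)).trans_lt hm)
    ((norm_snd_le (FO7_z μ y)).trans_lt hm)
  have e3 := hai.2 t θ
  have e4 : deriv (fun θ => Ai Φ t θ) (θ + 1) = deriv (fun θ => Ai Φ t θ) θ := hdai.2 t θ
  have e5 := hpn.2 t θ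
  have e6 : deriv (pn Φ t) (θ + 1) = deriv (pn Φ t) θ := hdpn.2 t θ
  unfold Nf Ru Rw
  rw [h1.1, h1.2, e3, e4, e5, e6]

theorem NT_fo {Φ : ℝ → ℝ × Vec k → ℝ × Vec k → ℝ} {r1 : ℝ} (h : LocFin Φ r1) : ∃ K1 : ℝ, 1 ≤ K1 ∧ ∀ K, K1 ≤ K → ∀ r, 0 < r → r ≤ r1 / 2 →
    ∃ r20 : ℝ, 0 < r20 ∧ 2 * r20 ≤ r ∧ ∀ r2, 0 < r2 → r2 ≤ r20 → ∃ η : ℝ, 0 < η ∧ ∀ ε, 0 < ε → ε ≤ 1 / 4 →
      ∀ (Φ0 Ψ : ℝ → ℝ × Vec k → ℝ × Vec k → ℝ) (𝒜 : Set (ℝ × Vec k)), (∀ z : ℝ × Vec k, ‖z.2‖ ≤ r → z ∈ 𝒜) →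
        (∀ t z ζ, ‖z.2‖ < r → Φ0 t z ζ = (1 - ε) * (cf Φ K t z * Φ t z ζ)) → NearP Φ0 Ψ 𝒜 r η →
          NT (Nf Φ Ψ ε √(2 * K)) r2 (2 * r2) (1 / 6) := by
  obtain ⟨a, A, ha, hA, hbd⟩ := Au_bd h
  obtain ⟨g, hg, hgb⟩ := bl_hess h
  refine ⟨1 + (24 * (A * (A + 3 * g))) ^ 2, by nlinarith [sq_nonneg (24 * (A * (A + 3 * g)))], fun K hK r hr hr1 => ?_⟩
  have hB : 0 < A * (A + 3 * g) := by positivity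
  set B := A * (A + 3 * g) with hBdef
  have hsq : 0 ≤ (24 * B) ^ 2 := sq_nonneg _
  have hK1 : 1 ≤ K := by linarith
  have hμ2 : √(2 * K) ^ 2 = 2 * K := Real.sq_sqrt (by linarith)
  have hμ : 1 ≤ √(2 * K) := by
    rw [Real.one_le_sqrt]
    linarith
  have hμB : 24 * B ≤ √(2 * K) := Real.le_sqrt_of_sq_le (by linarith)
  have hi0 : 0 < (√(2 * K))⁻¹ := inv_pos.2 (by linarith)
  have hiB : (√(2 * K))⁻¹ * B ≤ 1 / 24 := by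
    have h1 : (√(2 * K))⁻¹ * (24 * B) ≤ (√(2 * K))⁻¹ * √(2 * K) := mul_le_mul_of_nonneg_left hμB hi0.le
    rw [inv_mul_cancel₀ (by linarith : √(2 * K) ≠ 0)] at h1
    linarith
  obtain ⟨rs, hrs, hrs1, hc⟩ := bl_cont h K (s := (48 * A)⁻¹) (by positivity)
  refine ⟨min rs (r / 2), lt_min hrs (by linarith), ?_, fun r2 hr2 hr20 => ?_⟩
  · have := min_le_right rs (r / 2)
    linarith
  have h2rs : r2 ≤ rs := hr20.trans (min_le_left _ _)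
  have h2r : 2 * r2 ≤ r := by
    have := hr20.trans (min_le_right rs (r / 2))
    linarith
  have h2r' : r2 < r := by linarith
  refine ⟨min (96 * A)⁻¹ (r2 * (24 * A)⁻¹), lt_min (by positivity) (by positivity),
    fun ε hε0 hε Φ0 Ψ 𝒜 h𝒜 hT hN => ?_⟩
  set η := min (96 * A)⁻¹ (r2 * (24 * A)⁻¹) with hηdef
  have hη : 0 ≤ η := (lt_min (by positivity) (by positivity) : 0 < η).le
  have hη1 : η ≤ (96 * A)⁻¹ := min_le_left _ _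
  have hη2 : η ≤ r2 * (24 * A)⁻¹ := min_le_right _ _
  have hAη1 : A * η ≤ 1 / 96 := by
    refine (mul_le_mul_of_nonneg_left hη1 hA.le).trans (le_of_eq ?_)
    field_simp
  have hAη2 : A * η ≤ r2 / 24 := by
    refine (mul_le_mul_of_nonneg_left hη2 hA.le).trans (le_of_eq ?_)
    field_simp
  have hAs : A * (48 * A)⁻¹ = 1 / 48 := by field_simp
  refine ⟨hr2, by linarith, FO7_smooth h hμ h2r hN, fun t θ y hy => FO7_per_t h hμ h𝒜 hN t θ (by linarith),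
    fun t θ y hy => FO7_per_θ h hμ h𝒜 hN t θ (by linarith), fun t θ y y' hy hy' => ?_, fun t θ => ?_⟩
  · have h1 := FO7_one h hr1 hε0 hε hT hN t θ hA hg (s := (48 * A)⁻¹) (by positivity) hη hμ hμ2
      (fun v => (hbd t θ v).2.1) (fun v => (hbd t θ v).2.2.1) (fun v => (hbd t θ v).2.2.2)
      (fun w' u' => (hgb K t θ w' u').1) (fun w' u' => (hgb K t θ w' u').2) h2r'
      (fun y hy => hc t θ y (hy.trans h2rs)) hy hy'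
    refine h1.trans (mul_le_mul_of_nonneg_right ?_ (norm_nonneg _))
    have e : (√(2 * K))⁻¹ * (A * (A + 3 * g)) + 2 * A * ((48 * A)⁻¹ + 2 * η) =
      (√(2 * K))⁻¹ * B + 2 * (A * (48 * A)⁻¹) + 4 * (A * η) := by rw [hBdef]; ring
    rw [e, hAs]
    linarith
  · refine (FO7_zero h hr hr1 hε0 hε hT hN t θ hA hη hμ (fun v => (hbd t θ v).2.2.1)
      (fun v => (hbd t θ v).2.2.2)).trans ?_
    linarith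

end EscW.Fo
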