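import Pool.Agent.EscW.OT4
import Pool.Agent.EscW.OT5
import Pool.Agent.EscW.O6a

set_option autoImplicit false

/-!
Project EscW, part OT, module OT6: the closed geodesics.
`ε` = minimum of `fix_exists`, `fix_C10` (`NT_mono`); `grad_lip` with `ε/2`: `rc`, `η1`; `r2 = min r0 (rc/2)`, `η = min η1 (ε r2)` (`near_mono` of O6a). `NT_of`, `f`; `w t θ = (f t θ).1`, `u t θ = (f t θ).2`, `p t θ = gu (lg (Φ t)) (θ, w t θ, u t θ)`. At fixed `t`, `F s = Nl α β Φ t s (f t s)`: `w = Wf F`, `u = α⁻¹ (Pf F - F.1)`,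
so `Pf F = α u + F.1 = p`; `Wf_deriv`, `Pf_deriv` (`F` is continuous and periodic): `w' = u`, `p' = β w + F.2 = gw`. `p_reg`, `f_reg`, `g_reg`: `C10_comp`, `C10_comp'`, `gradT`; `w_reg`, `u_reg`: components of `C10 f`.
-/

noncomputable section

namespace EscW.Ot

open Filter Topology Set EscF.T EscM EscMT MeasureTheory EscW.Ex EscW.Dn EscW.On
open scoped ContDiff

variable {d m k j n : ℕ}

theorem OT6_fst {f : ℝ → ℝ → Vec k × Vec k} (h : C10 f) : C10 (fun t θ => (f t θ).1) := by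
  obtain ⟨h1, f', h2, h3⟩ := h
  exact ⟨continuous_fst.comp h1, fun t θ => (f' t θ).1, continuous_fst.comp h2, fun t θ =>
    (ContinuousLinearMap.fst ℝ (Vec k) (Vec k)).hasFDerivAt.comp_hasDerivAt t (h3 t θ)⟩

theorem OT6_snd {f : ℝ → ℝ → Vec k × Vec k} (h : C10 f) : C10 (fun t θ => (f t θ).2) := by
  obtain ⟨h1, f', h2, h3⟩ := h
  exact ⟨continuous_snd.comp h1, fun t θ => (f' t θ).2, continuous_snd.comp h2, fun t θ =>
    (ContinuousLinearMap.snd ℝ (Vec k) (Vec k)).hasFDerivAt.comp_hasDerivAt t (h3 t θ)⟩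

/-- the curve at a fixed time -/
theorem OT6_curve {α β r2 r3 r0 ε : ℝ} (hα : 0 < α) (hβ : 0 < β)
    {Φ : ℝ → ℝ × Vec k → ℝ × Vec k → ℝ} (hN : NT (Nl α β Φ) r2 r3 ε) (h20 : r2 ≤ r0)
    {f : ℝ → ℝ → Vec k × Vec k} (hf : FixT α β (Nl α β Φ) r2 f) (t : ℝ) :
    CurveAt (Φ t) r0 (fun θ => (f t θ).1) (fun θ => (f t θ).2)
      (fun θ => gu (lg (Φ t)) (θ, (f t θ).1, (f t θ).2)) := by
  have hfc : Continuous (fun θ => f t θ) := hf.cont.comp (continuous_const.prodMk continuous_id)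
  have hfr : ∀ θ, ‖f t θ‖ < r3 := fun θ => (hf.small t θ).trans_lt hN.r23
  obtain ⟨F, hF⟩ : ∃ F : ℝ → Vec k × Vec k, F = fun s => Nl α β Φ t s (f t s) := ⟨_, rfl⟩
  have hFs : ∀ s, F s = Nl α β Φ t s (f t s) := fun s => by rw [hF]
  have hFc : Continuous F := by
    rw [hF]
    have h1 : Continuous (fun s : ℝ => (t, s, f t s)) :=
      continuous_const.prodMk (continuous_id.prodMk hfc)
    exact hN.smooth.continuousOn.comp_continuous h1 fun s => hfr s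
  have hFp : ∀ θ, F (θ + 1) = F θ := fun θ => by
    rw [hFs, hFs, hf.per_θ, hN.per_θ t θ _ (hfr θ)]
  have hfix : ∀ θ, f t θ = Sf α β F θ := fun θ => by
    rw [hF]
    exact hf.fix t θ
  have hw : (fun θ => (f t θ).1) = Wf α β F := funext fun θ => by
    rw [hfix θ, Sf]
  have hu : ∀ θ, (f t θ).2 = α⁻¹ • (Pf α β F θ - (F θ).1) := fun θ => by
    rw [hfix θ, Sf]
  have hp : (fun θ => gu (lg (Φ t)) (θ, (f t θ).1, (f t θ).2)) = Pf α β F := funext fun θ => by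
    have h1 : (F θ).1 = gu (lg (Φ t)) (θ, (f t θ).1, (f t θ).2) - α • (f t θ).2 := by
      rw [hFs, Nl]
    have h2 : α • (f t θ).2 = Pf α β F θ - (F θ).1 := by
      rw [hu θ, smul_smul, mul_inv_cancel₀ hα.ne', one_smul]
    rw [h2] at h1
    have h3 : gu (lg (Φ t)) (θ, (f t θ).1, (f t θ).2) =
        (F θ).1 + (Pf α β F θ - (F θ).1) := by
      nth_rewrite 1 [h1]
      abel
    rw [h3]
    abel
  refine ⟨?_, ?_, ?_, fun θ => rfl, ?_, ?_, ?_, ?_⟩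
  · exact continuous_snd.comp hfc
  · intro θ
    rw [hw, hu θ]
    exact Wf_deriv hα hβ hFc hFp θ
  · intro θ
    rw [hp]
    have h1 := Pf_deriv hα hβ hFc hFp θ
    have h2 : β • Wf α β F θ + (F θ).2 = gw (lg (Φ t)) (θ, (f t θ).1, (f t θ).2) := by
      have h3 : Wf α β F θ = (f t θ).1 := (congrFun hw θ).symm
      rw [h3, hFs, Nl]
      exact add_sub_cancel _ _
    rw [h2] at h1
    exact h1
  · intro θ
    exact congrArg Prod.fst (hf.per_θ t θ)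
  · intro θ
    exact congrArg Prod.snd (hf.per_θ t θ)
  · intro θ
    exact ((norm_fst_le _).trans (hf.small t θ)).trans h20
  · intro θ
    exact ((norm_snd_le _).trans (hf.small t θ)).trans h20

theorem curveT_exists {Φ0 : ℝ × Vec k → ℝ × Vec k → ℝ} {𝒜 : Set (ℝ × Vec k)} {r ℓ c c3 α β : ℝ}
    (hb : AnnBase Φ0 𝒜 r ℓ c c3 α β) {r0 : ℝ} (h0 : 0 < r0) : ∃ η : ℝ, 0 < η ∧
    ∀ Φ : ℝ → ℝ × Vec k → ℝ × Vec k → ℝ, AnnNearT Φ0 Φ 𝒜 r η →
      ∃ w u p : ℝ → ℝ → Vec k, CurveT Φ r0 w u p := by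
  have hα := hb.α_pos
  have hβ := hb.β_pos
  obtain ⟨ε1, hε1, H1⟩ := fix_exists (k := k) hα hβ
  obtain ⟨ε2, hε2, H2⟩ := fix_C10 (k := k) hα hβ
  obtain ⟨ε, hε, he1, he2⟩ : ∃ ε : ℝ, 0 < ε ∧ ε ≤ ε1 ∧ ε ≤ ε2 :=
    ⟨min ε1 ε2, lt_min hε1 hε2, min_le_left _ _, min_le_right _ _⟩
  obtain ⟨rc, hrc0, hrc, η1, hη1, H3⟩ := grad_lip hb (half_pos hε)
  obtain ⟨r2, hr20, hr2r0, hr2rc⟩ : ∃ r2 : ℝ, 0 < r2 ∧ r2 ≤ r0 ∧ r2 < rc :=
    ⟨min r0 (rc / 2), lt_min h0 (by linarith), min_le_left _ _,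
      (min_le_right _ _).trans_lt (by linarith)⟩
  have hεr : 0 < ε * r2 := mul_pos hε hr20
  refine ⟨min η1 (ε * r2), lt_min hη1 hεr, fun Φ h => ?_⟩
  have hg : ∀ t, GrLip (lg (Φ t)) α β rc (ε / 2) := fun t =>
    H3 (Φ t) (near_mono hb.nonneg (h.near t) (min_le_left _ _))
  have hN : NT (Nl α β Φ) r2 rc ε := NT_of hb h hr20 hr2rc hrc hg (min_le_right _ _)
  obtain ⟨f, hf⟩ := H1 _ r2 rc (NT_mono hN he1)
  have hfC : C10 f := H2 _ r2 rc f (NT_mono hN he2) hf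
  have hws : ∀ t θ, ‖(f t θ).1‖ < r := fun t θ =>
    ((norm_fst_le _).trans (hf.small t θ)).trans_lt (hr2rc.trans hrc)
  have hus : ∀ t θ, ‖(f t θ).2‖ < r := fun t θ =>
    ((norm_snd_le _).trans (hf.small t θ)).trans_lt (hr2rc.trans hrc)
  obtain ⟨G1, G2⟩ := gradT h.smooth
  refine ⟨fun t θ => (f t θ).1, fun t θ => (f t θ).2,
    fun t θ => gu (lg (Φ t)) (θ, (f t θ).1, (f t θ).2), ?_⟩
  exact {
    curve := fun t => OT6_curve hα hβ hN hr2r0 hf t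
    w_t := fun t θ => congrArg Prod.fst (hf.per_t t θ)
    u_t := fun t θ => congrArg Prod.snd (hf.per_t t θ)
    w_reg := OT6_fst hfC
    u_reg := OT6_snd hfC
    p_reg := C10_comp' (F := fun y => gu (lg (Φ y.1)) y.2) G2 (OT6_fst hfC) (OT6_snd hfC) hws hus
    f_reg := C10_comp (F := fun y => lg (Φ y.1) y.2) (h.smooth.of_le (by norm_num)) (OT6_fst hfC)
      (OT6_snd hfC) hws hus
    g_reg := C10_comp' (F := fun y => gw (lg (Φ y.1)) y.2) G1 (OT6_fst hfC) (OT6_snd hfC) hws hus }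

end EscW.Ot
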