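import Pool.Agent.EscW.FO3
import Pool.Agent.EscW.FO7
import Pool.Agent.EscW.OT6

set_option autoImplicit false

/-!
Project EscW, part FO, module FO8: the closed geodesics.
`μ = √(2 K) ≥ 1`, `r2 = min r20 r0` (`< r`), `f` of `fixS_exists`, `C10 f` by `fixS_C10`. `w = μ⁻¹ • f.1`, `u = f.2`, `p = gu (lg (Ψ t)) (θ, w, u)`. `g s = Nf .. t s (f t s)` is continuous in `s` and periodic. `w' = u`: `Ss_w` with `FixS.fix`. `q = f.2 + (g).1 = Ai (Ru)` has derivative `μ f.1 + μ (g).2 = Ai' Ru + Ai Rw`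
(`Ss_p`). `Ru = Au q` (`Au_inv`) is differentiable, `Ru' = Au' Ai Ru + Au Ai' Ru + Au Ai Rw = Rw`, since `(Au Ai)' = 0` (`Au_inv`, `Au_reg`). So `(1 - ε)⁻¹ p' - pn' = (1 - ε)⁻¹ gw - pn'`, `p' = gw (lg (Ψ t)) (θ, w, u)`. The `C10` fields: compositions of `C¹` functions (`gradT` in OT5, `NearP.smooth`) with `C10` functions, as in the
proof of `curveT_exists` (module OT6; use its lemmas).
-/

noncomputable section

namespace EscW.Fo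

open Filter Topology Set EscF.T EscM EscMT MeasureTheory EscW.Ex EscW.Dn EscW.On EscW.Ot EscW.Fn
open scoped ContDiff

variable {d m k j n : ℕ}

theorem FO8_smul {f : ℝ → ℝ → Vec k} (h : C10 f) (a : ℝ) : C10 (fun t θ => a • f t θ) := by
  obtain ⟨h1, f', h2, h3⟩ := h
  refine ⟨?_, fun t θ => a • f' t θ, ?_, fun t θ => (h3 t θ).const_smul a⟩
  · show Continuous (fun y : ℝ × ℝ => a • f y.1 y.2)
    exact h1.const_smul a
  · show Continuous (fun y : ℝ × ℝ => a • f' y.1 y.2)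
    exact h2.const_smul a

/-- the curve at a fixed time -/
theorem FO8_curve {Φ : ℝ → ℝ × Vec k → ℝ × Vec k → ℝ} {r1 : ℝ} (h : LocFin Φ r1)
    {Ψ : ℝ → ℝ × Vec k → ℝ × Vec k → ℝ} {ε μ r2 r3 r0 : ℝ} (hε : ε < 1) (hμ : 1 ≤ μ)
    {N : ℝ → ℝ → Vec k × Vec k → Vec k × Vec k} (hNd : N = Nf Φ Ψ ε μ)
    (hN : NT N r2 r3 (1 / 6)) (h20 : r2 ≤ r0)
    {f : ℝ → ℝ → Vec k × Vec k} (hf : FixS μ N r2 f) (t : ℝ) :
    CurveAt (Ψ t) r0 (fun θ => μ⁻¹ • (f t θ).1) (fun θ => (f t θ).2)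
      (fun θ => gu (lg (Ψ t)) (θ, μ⁻¹ • (f t θ).1, (f t θ).2)) := by
  have hμ0 : 0 < μ := by linarith
  have hfc : Continuous (fun θ => f t θ) := hf.cont.comp (continuous_const.prodMk continuous_id)
  have hfr : ∀ θ, ‖f t θ‖ < r3 := fun θ => (hf.small t θ).trans_lt hN.r23
  obtain ⟨F, hF⟩ : ∃ F : ℝ → Vec k × Vec k, F = fun s => N t s (f t s) := ⟨_, rfl⟩
  have hFs : ∀ s, F s = N t s (f t s) := fun s => by rw [hF]
  have hFc : Continuous F := by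
    rw [hF]
    have h1 : Continuous (fun s : ℝ => (t, s, f t s)) :=
      continuous_const.prodMk (continuous_id.prodMk hfc)
    exact hN.smooth.continuousOn.comp_continuous h1 fun s => hfr s
  have hFp : ∀ θ, F (θ + 1) = F θ := fun θ => by
    rw [hFs, hFs, hf.per_θ, hN.per_θ t θ _ (hfr θ)]
  have hfix : ∀ θ, f t θ = Ss μ F θ := fun θ => by
    rw [hF]
    exact hf.fix t θ
  have hd1 : ∀ θ, HasDerivAt (fun θ => (f t θ).1) (μ • (f t θ).2) θ := by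
    intro θ
    have h1 := Ss_w hμ0 hFc hFp θ
    have h2 : (fun θ => (f t θ).1) = fun θ => (Ss μ F θ).1 := funext fun θ => by rw [hfix θ]
    rw [h2, hfix θ]
    exact h1
  -- abbreviations
  set R : ℝ → Vec k := fun θ => Ru Φ Ψ ε t θ (μ⁻¹ • (f t θ).1) (f t θ).2 with hR
  set Q : ℝ → Vec k := fun θ => Rw Φ Ψ ε t θ (μ⁻¹ • (f t θ).1) (f t θ).2 with hQ
  have hF1 : ∀ θ, (F θ).1 = Ai Φ t θ (R θ) - (f t θ).2 := fun θ => by
    rw [hFs, hNd, Nf]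
  have hF2 : ∀ θ, (F θ).2 = μ⁻¹ • (deriv (fun θ => Ai Φ t θ) θ (R θ) + Ai Φ t θ (Q θ)) -
      (f t θ).1 := fun θ => by
    rw [hFs, hNd, Nf]
  have hd2 : ∀ θ, HasDerivAt (fun θ => Ai Φ t θ (R θ))
      (deriv (fun θ => Ai Φ t θ) θ (R θ) + Ai Φ t θ (Q θ)) θ := by
    intro θ
    have h1 := Ss_p hμ0 hFc hFp θ
    have h2 : (fun θ => (Ss μ F θ).2 + (F θ).1) = fun θ => Ai Φ t θ (R θ) := funext fun θ => by
      rw [← hfix θ, hF1]
      abel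
    have h3 : μ • (Ss μ F θ).1 + μ • (F θ).2 =
        deriv (fun θ => Ai Φ t θ) θ (R θ) + Ai Φ t θ (Q θ) := by
      rw [← hfix θ, hF2, smul_sub, smul_smul, mul_inv_cancel₀ hμ0.ne', one_smul]
      abel
    rw [h2, h3] at h1
    exact h1
  obtain ⟨ra, ri, -, -, -, -⟩ := Au_reg h
  have hA : ∀ θ, HasDerivAt (fun θ => Au Φ t θ) (deriv (fun θ => Au Φ t θ) θ) θ := by
    intro θ
    have h1 : ContDiff ℝ ∞ (fun θ : ℝ => Au Φ t θ) :=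
      ra.comp (contDiff_const.prodMk contDiff_id)
    exact (h1.differentiable (by simp) θ).hasDerivAt
  have hI : ∀ θ, HasDerivAt (fun θ => Ai Φ t θ) (deriv (fun θ => Ai Φ t θ) θ) θ := by
    intro θ
    have h1 : ContDiff ℝ ∞ (fun θ : ℝ => Ai Φ t θ) :=
      ri.comp (contDiff_const.prodMk contDiff_id)
    exact (h1.differentiable (by simp) θ).hasDerivAt
  have hAI : ∀ θ v, deriv (fun θ => Au Φ t θ) θ (Ai Φ t θ v) +
      Au Φ t θ (deriv (fun θ => Ai Φ t θ) θ v) = 0 := by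
    intro θ v
    have h1 : HasDerivAt (fun θ => Au Φ t θ (Ai Φ t θ v))
        (deriv (fun θ => Au Φ t θ) θ (Ai Φ t θ v) + Au Φ t θ (deriv (fun θ => Ai Φ t θ) θ v)) θ := by
      have h2 : HasDerivAt (fun θ => Ai Φ t θ v) (deriv (fun θ => Ai Φ t θ) θ v) θ := by
        have h3 := (hI θ).clm_apply (hasDerivAt_const θ v)
        rw [map_zero, add_zero] at h3
        exact h3
      exact (hA θ).clm_apply h2
    have h4 : (fun θ => Au Φ t θ (Ai Φ t θ v)) = fun _ => v := funext fun θ => (Au_inv h t θ v).2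
    rw [h4] at h1
    exact h1.unique (hasDerivAt_const θ v)
  have hd3 : ∀ θ, HasDerivAt R (Q θ) θ := by
    intro θ
    have h1 := (hA θ).clm_apply (hd2 θ)
    have h2 : (fun θ => Au Φ t θ (Ai Φ t θ (R θ))) = R := funext fun θ => (Au_inv h t θ (R θ)).2
    have h3 : deriv (fun θ => Au Φ t θ) θ (Ai Φ t θ (R θ)) +
        Au Φ t θ (deriv (fun θ => Ai Φ t θ) θ (R θ) + Ai Φ t θ (Q θ)) = Q θ := by
      rw [map_add, ← add_assoc, hAI, zero_add, (Au_inv h t θ (Q θ)).2]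
    rw [h3] at h1
    have h4 : HasDerivAt (fun θ => Au Φ t θ (Ai Φ t θ (R θ))) (Q θ) θ := h1
    rw [h2] at h4
    exact h4
  have hpn : ∀ θ, HasDerivAt (pn Φ t) (deriv (pn Φ t) θ) θ := by
    intro θ
    have h1 : ContDiff ℝ ∞ (fun θ : ℝ => pn Φ t θ) :=
      (reg h).2.1.comp (contDiff_const.prodMk contDiff_id)
    exact (h1.differentiable (by simp) θ).hasDerivAt
  have hε0 : (1 - ε) ≠ 0 := by
    intro h0
    linarith
  refine ⟨?_, ?_, ?_, fun θ => rfl, ?_, ?_, ?_, ?_⟩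
  · exact continuous_snd.comp hfc
  · intro θ
    have h1 := (hd1 θ).const_smul μ⁻¹
    rw [smul_smul, inv_mul_cancel₀ hμ0.ne', one_smul] at h1
    exact h1
  · intro θ
    have h1 := ((hd3 θ).add (hpn θ)).const_smul (1 - ε)
    have h2 : (1 - ε) • (Q θ + deriv (pn Φ t) θ) =
        gw (lg (Ψ t)) (θ, μ⁻¹ • (f t θ).1, (f t θ).2) := by
      have h3 : Q θ = (1 - ε)⁻¹ • gw (lg (Ψ t)) (θ, μ⁻¹ • (f t θ).1, (f t θ).2) -
        deriv (pn Φ t) θ := rfl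
      rw [h3, sub_add_cancel, smul_smul, mul_inv_cancel₀ hε0, one_smul]
    rw [h2] at h1
    refine h1.congr_of_eventuallyEq (Eventually.of_forall fun θ => ?_)
    show gu (lg (Ψ t)) (θ, μ⁻¹ • (f t θ).1, (f t θ).2) = (1 - ε) • (R θ + pn Φ t θ)
    have h3 : R θ = (1 - ε)⁻¹ • gu (lg (Ψ t)) (θ, μ⁻¹ • (f t θ).1, (f t θ).2) - pn Φ t θ := rfl
    rw [h3, sub_add_cancel, smul_smul, mul_inv_cancel₀ hε0, one_smul]
  · intro θ
    show μ⁻¹ • (f t (θ + 1)).1 = μ⁻¹ • (f t θ).1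
    rw [hf.per_θ t θ]
  · intro θ
    exact congrArg Prod.snd (hf.per_θ t θ)
  · intro θ
    have h1 : ‖μ⁻¹ • (f t θ).1‖ ≤ ‖(f t θ).1‖ := by
      rw [norm_smul, norm_inv, Real.norm_of_nonneg hμ0.le]
      exact mul_le_of_le_one_left (norm_nonneg _) (inv_le_one_of_one_le₀ hμ)
    exact ((h1.trans (norm_fst_le _)).trans (hf.small t θ)).trans h20
  · intro θ
    exact ((norm_snd_le _).trans (hf.small t θ)).trans h20

theorem curve_fo {Φ : ℝ → ℝ × Vec k → ℝ × Vec k → ℝ} {r1 : ℝ} (h : LocFin Φ r1) : ∃ K1 : ℝ, 1 ≤ K1 ∧ ∀ K, K1 ≤ K → ∀ r, 0 < r → r ≤ r1 / 2 →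
    ∀ r0, 0 < r0 → ∃ η : ℝ, 0 < η ∧ ∀ ε, 0 < ε → ε ≤ 1 / 4 →
      ∀ (Φ0 Ψ : ℝ → ℝ × Vec k → ℝ × Vec k → ℝ) (𝒜 : Set (ℝ × Vec k)), (∀ z : ℝ × Vec k, ‖z.2‖ ≤ r → z ∈ 𝒜) →
        (∀ t z ζ, ‖z.2‖ < r → Φ0 t z ζ = (1 - ε) * (cf Φ K t z * Φ t z ζ)) → NearP Φ0 Ψ 𝒜 r η →
          ∃ w u p : ℝ → ℝ → Vec k, CurveT Ψ r0 w u p := by
  obtain ⟨K1, hK1, H⟩ := NT_fo h
  refine ⟨K1, hK1, fun K hK r hr hr1 r0 hr0 => ?_⟩
  obtain ⟨r20, hr20, h2r, H2⟩ := H K hK r hr hr1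
  obtain ⟨r2, hr2, hr2a, hr2b⟩ : ∃ r2 : ℝ, 0 < r2 ∧ r2 ≤ r20 ∧ r2 ≤ r0 :=
    ⟨min r20 r0, lt_min hr20 hr0, min_le_left _ _, min_le_right _ _⟩
  obtain ⟨η, hη, H3⟩ := H2 r2 hr2 hr2a
  refine ⟨η, hη, fun ε hε hε4 Φ0 Ψ 𝒜 hA h0 hP => ?_⟩
  have hN := H3 ε hε hε4 Φ0 Ψ 𝒜 hA h0 hP
  obtain ⟨μ, hμd⟩ : ∃ μ : ℝ, μ = √(2 * K) := ⟨_, rfl⟩
  rw [← hμd] at hN
  have hμ : 1 ≤ μ := by
    rw [hμd]
    exact Real.one_le_sqrt.2 (by linarith)
  have hμ0 : 0 < μ := by linarith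
  obtain ⟨N, hNd⟩ : ∃ N : ℝ → ℝ → Vec k × Vec k → Vec k × Vec k, N = Nf Φ Ψ ε μ := ⟨_, rfl⟩
  rw [← hNd] at hN
  obtain ⟨f, hf⟩ := fixS_exists hμ0 hN
  have hfC : C10 f := fixS_C10 hμ0 hN hf
  have hlt : r2 < r := by linarith
  have hws : ∀ t θ, ‖μ⁻¹ • (f t θ).1‖ < r := fun t θ => by
    have h1 : ‖μ⁻¹ • (f t θ).1‖ ≤ ‖(f t θ).1‖ := by
      rw [norm_smul, norm_inv, Real.norm_of_nonneg hμ0.le]
      exact mul_le_of_le_one_left (norm_nonneg _) (inv_le_one_of_one_le₀ hμ)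
    exact ((h1.trans (norm_fst_le _)).trans (hf.small t θ)).trans_lt hlt
  have hus : ∀ t θ, ‖(f t θ).2‖ < r := fun t θ =>
    ((norm_snd_le _).trans (hf.small t θ)).trans_lt hlt
  obtain ⟨G1, G2⟩ := gradT hP.smooth
  refine ⟨fun t θ => μ⁻¹ • (f t θ).1, fun t θ => (f t θ).2,
    fun t θ => gu (lg (Ψ t)) (θ, μ⁻¹ • (f t θ).1, (f t θ).2), ?_⟩
  have hw : C10 (fun t θ => μ⁻¹ • (f t θ).1) := FO8_smul (OT6_fst hfC) μ⁻¹
  have hu : C10 (fun t θ => (f t θ).2) := OT6_snd hfC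
  exact {
    curve := fun t => FO8_curve h (by linarith) hμ hNd hN hr2b hf t
    w_t := fun t θ => by
      show μ⁻¹ • (f (t + 1) θ).1 = μ⁻¹ • (f t θ).1
      rw [hf.per_t t θ]
    u_t := fun t θ => congrArg Prod.snd (hf.per_t t θ)
    w_reg := hw
    u_reg := hu
    p_reg := C10_comp' (F := fun y => gu (lg (Ψ y.1)) y.2) G2 hw hu hws hus
    f_reg := C10_comp (F := fun y => lg (Ψ y.1) y.2) (hP.smooth.of_le (by norm_num)) hw hu hws hus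
    g_reg := C10_comp' (F := fun y => gw (lg (Ψ y.1)) y.2) G1 hw hu hws hus }

end EscW.Fo
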