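import Pool.Agent.EscW.FODefs
import Pool.Agent.EscW.FO5
import Pool.Agent.EscW.FO6
import Pool.Agent.EscW.O3

set_option autoImplicit false

/-!
Project EscW, part FO, module FO9: the Lagrangians are convex in `(w, u)` near the curve.
The second derivative of `(w, u) ↦ bl Φ K t (θ, w, u)` at `0` on `(w', u')` is `⟪(fderiv gw bl) (w', u'), w'⟫ + ⟪(fderiv gu bl) (w', u'), u'⟫ ≥ 2 K a ‖w'‖² - g (‖w'‖ + ‖u'‖) ‖w'‖ + a ‖u'‖² - g ‖w'‖ ‖u'‖ ≥ (a/2) (‖w'‖² + ‖u'‖²)` for `K ≥ K2` (`bl_hess`, `Au_bd`). `rc` by `bl_cont`: `≥ (a/4) (..)` for `‖w‖, ‖u‖ ≤ rc`;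
`lg (Φ0 t) = (1 - ε) bl`, `1 - ε ≥ 3/4`, and `η ≤ a/32` (`c2`): the second derivative of `lg (Ψ t)` in `(w, u)` is `≥ (a/8) (..)`. Taylor along the segment (second order, `L(1) ≥ L(0) + L'(0) + min L''/2`; e.g. convexity of `L - (a/16) |·|²`): `cJ = a/16`. `LD k r` is open and `rc < r`, `lg (Ψ t)` is `C²` there; the derivative of `L` at `(w, u)` in direction
`(w', u')` is `⟪gw, w'⟫ + ⟪gu, u'⟫`.
-/

noncomputable section

namespace EscW.Fo

open Filter Topology Set EscF.T EscM EscMT MeasureTheory EscW.Ex EscW.Dn EscW.On EscW.Ot EscW.Fn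
open scoped ContDiff

variable {d m k j n : ℕ}

/-- Taylor formula of second order with a lower bound of the second derivative -/
theorem FO9_taylor {φ φ' φ'' : ℝ → ℝ} {c : ℝ} (h1 : ∀ s ∈ Icc (0:ℝ) 1, HasDerivAt φ (φ' s) s)
    (h2 : ∀ s ∈ Icc (0:ℝ) 1, HasDerivAt φ' (φ'' s) s) (h3 : ∀ s ∈ Icc (0:ℝ) 1, 2 * c ≤ φ'' s) :
    φ 0 + φ' 0 + c ≤ φ 1 := by
  have a1 : ∀ s ∈ Icc (0:ℝ) 1, HasDerivAt (fun s => φ' s - 2 * c * s) (φ'' s - 2 * c) s := by
    intro s hs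
    have h4 : HasDerivAt (fun s : ℝ => 2 * c * s) (2 * c) s := by
      simpa using (hasDerivAt_id s).const_mul (2 * c)
    exact (h2 s hs).sub h4
  have m1 : MonotoneOn (fun s => φ' s - 2 * c * s) (Icc 0 1) := by
    refine monotoneOn_of_deriv_nonneg (convex_Icc 0 1)
      (fun s hs => (a1 s hs).continuousAt.continuousWithinAt) (fun s hs => ?_) fun s hs => ?_
    · rw [interior_Icc] at hs
      exact (a1 s (Ioo_subset_Icc_self hs)).differentiableAt.differentiableWithinAt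
    · rw [interior_Icc] at hs
      rw [(a1 s (Ioo_subset_Icc_self hs)).deriv]
      linarith [h3 s (Ioo_subset_Icc_self hs)]
  have a2 : ∀ s ∈ Icc (0:ℝ) 1, HasDerivAt (fun s => φ s - φ' 0 * s - c * s ^ 2)
      (φ' s - φ' 0 - 2 * c * s) s := by
    intro s hs
    have h4 : HasDerivAt (fun s : ℝ => φ' 0 * s) (φ' 0) s := by
      simpa using (hasDerivAt_id s).const_mul (φ' 0)
    have h5 : HasDerivAt (fun s : ℝ => c * s ^ 2) (2 * c * s) s := by
      exact ((hasDerivAt_pow 2 s).const_mul c).congr_deriv (by push_cast; ring)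
    exact ((h1 s hs).sub h4).sub h5
  have m2 : MonotoneOn (fun s => φ s - φ' 0 * s - c * s ^ 2) (Icc 0 1) := by
    refine monotoneOn_of_deriv_nonneg (convex_Icc 0 1)
      (fun s hs => (a2 s hs).continuousAt.continuousWithinAt) (fun s hs => ?_) fun s hs => ?_
    · rw [interior_Icc] at hs
      exact (a2 s (Ioo_subset_Icc_self hs)).differentiableAt.differentiableWithinAt
    · rw [interior_Icc] at hs
      rw [(a2 s (Ioo_subset_Icc_self hs)).deriv]
      have h6 := m1 (left_mem_Icc.2 zero_le_one) (Ioo_subset_Icc_self hs) hs.1.le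
      simp only [mul_zero, sub_zero] at h6
      linarith
  have h7 := m2 (left_mem_Icc.2 zero_le_one) (right_mem_Icc.2 zero_le_one) zero_le_one
  simp only at h7
  linarith

/-- the Lagrangian `bl` at fixed time is smooth near the points with `‖w‖ < r1` -/
theorem FO9_bl {Φ : ℝ → ℝ × Vec k → ℝ × Vec k → ℝ} {r1 : ℝ} (h : LocFin Φ r1) (K t : ℝ) :
    ContDiffOn ℝ ∞ (bl Φ K t) {y | ‖y.2.1‖ < r1} := by
  have h1 := bl_smooth h K
  have h2 : ContDiff ℝ ∞ (fun y : ℝ × Vec k × Vec k => (t, y)) := contDiff_const.prodMk contDiff_id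
  exact h1.comp h2.contDiffOn (fun y hy => hy)

/-- lower bound of the quadratic form -/
theorem FO9_quad {a g K X Y : ℝ} (ha : 0 < a) (hK : (a / 2 + g + 2 * g ^ 2 / a) / (2 * a) ≤ K) :
    a / 2 * (X ^ 2 + Y ^ 2) ≤ 2 * K * (a * X ^ 2) - g * (X + Y) * X + (a * Y ^ 2 - g * X * Y) := by
  have h1 : a / 2 + g + 2 * g ^ 2 / a ≤ K * (2 * a) := (div_le_iff₀ (by positivity)).1 hK
  have h2 : (a / 2 + g + 2 * g ^ 2 / a) * X ^ 2 ≤ K * (2 * a) * X ^ 2 :=
    mul_le_mul_of_nonneg_right h1 (sq_nonneg X)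
  have h3 : 0 ≤ (2 * g * X - a * Y) ^ 2 / (2 * a) := by positivity
  have h4 : (2 * g * X - a * Y) ^ 2 / (2 * a) = 2 * g ^ 2 / a * X ^ 2 - 2 * g * X * Y + a / 2 * Y ^ 2 := by
    field_simp
    ring
  rw [h4] at h3
  nlinarith

theorem convex_fo {Φ : ℝ → ℝ × Vec k → ℝ × Vec k → ℝ} {r1 : ℝ} (h : LocFin Φ r1) : ∃ K2 cJ : ℝ, 0 ≤ K2 ∧ 0 < cJ ∧ ∀ K, K2 ≤ K → ∀ r, 0 < r → r ≤ r1 / 2 →
    ∃ rc η : ℝ, 0 < rc ∧ rc < r ∧ 0 < η ∧ ∀ ε, 0 < ε → ε ≤ 1 / 4 →
      ∀ (Φ0 : ℝ → ℝ × Vec k → ℝ × Vec k → ℝ) (𝒜 : Set (ℝ × Vec k)), (∀ z : ℝ × Vec k, ‖z.2‖ ≤ r → z ∈ 𝒜) →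
        (∀ t z ζ, ‖z.2‖ < r → Φ0 t z ζ = (1 - ε) * (cf Φ K t z * Φ t z ζ)) → Conv Φ0 𝒜 r rc cJ η := by
  obtain ⟨a, A, ha, -, hAu⟩ := Au_bd h
  obtain ⟨g, hg, hH⟩ := bl_hess h
  refine ⟨(a / 2 + g + 2 * g ^ 2 / a) / (2 * a), a / 16, by positivity, by positivity,
    fun K hK r hr hr1 => ?_⟩
  have hr1' : 0 < r1 := h.pos_r
  have hK0 : 0 ≤ K := le_trans (by positivity) hK
  obtain ⟨r', hr', -, hC⟩ := bl_cont h K (s := a / 8) (by positivity)
  refine ⟨min r' (r / 2), a / 16, lt_min hr' (by positivity), (min_le_right _ _).trans_lt (by linarith),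
    by positivity, fun ε hε hε4 Φ0 𝒜 _ htube Ψ hΨ t θ w u w' u' hw hu hw' hu' => ?_⟩
  set rc := min r' (r / 2) with hrc
  have hrcr : rc < r := (min_le_right _ _).trans_lt (by linarith)
  have hrcr' : rc ≤ r' := min_le_left _ _
  set L := bl Φ K t with hLdef
  set D : ℝ × Vec k × Vec k → ℝ := fun y => lg (Ψ t) y - lg (Φ0 t) y with hD
  have hopen := O3_isOpen k r
  have hLs : ContDiffOn ℝ ∞ L (LD k r) := (FO9_bl h K t).mono fun y hy => by
    have : ‖y.2.1‖ < r := hy.1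
    change ‖y.2.1‖ < r1
    linarith
  have hΦ0 : ∀ y ∈ LD k r, lg (Φ0 t) y = (1 - ε) * L y := fun y hy => by
    have := htube t (y.1, y.2.1) (1, y.2.2) hy.1
    simp only [hLdef, bl, lg]
    rw [this]
  have hΦ0s : ContDiffOn ℝ 2 (lg (Φ0 t)) (LD k r) :=
    ((contDiffOn_const (c := 1 - ε)).mul (hLs.of_le (show ((2 : ℕ∞) : WithTop ℕ∞) ≤ ((⊤ : ℕ∞) : WithTop ℕ∞) from
      WithTop.coe_le_coe.2 le_top))).congr hΦ0
  have hΨs : ContDiffOn ℝ 2 (lg (Ψ t)) (LD k r) := by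
    have h2 : ContDiff ℝ 2 (fun y : ℝ × Vec k × Vec k => (t, y)) := contDiff_const.prodMk contDiff_id
    exact hΨ.smooth.comp h2.contDiffOn (fun y hy => hy)
  have hDs : ContDiffOn ℝ 2 D (LD k r) := hΨs.sub hΦ0s
  -- the segment
  set v1 := w' - w with hv1
  set v2 := u' - u with hv2
  have hseg : ∀ s ∈ Icc (0:ℝ) 1, ‖w + s • v1‖ ≤ rc ∧ ‖u + s • v2‖ ≤ rc := by
    intro s hs
    have e1 : w + s • v1 = (1 - s) • w + s • w' := by
      rw [hv1, smul_sub, sub_smul, one_smul]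
      abel
    have e2 : u + s • v2 = (1 - s) • u + s • u' := by
      rw [hv2, smul_sub, sub_smul, one_smul]
      abel
    have hs0 := hs.1
    have hs1 := hs.2
    rw [e1, e2]
    constructor
    · refine (norm_add_le _ _).trans ?_
      rw [norm_smul, norm_smul, Real.norm_of_nonneg hs0, Real.norm_of_nonneg (by linarith : 0 ≤ 1 - s)]
      nlinarith
    · refine (norm_add_le _ _).trans ?_
      rw [norm_smul, norm_smul, Real.norm_of_nonneg hs0, Real.norm_of_nonneg (by linarith : 0 ≤ 1 - s)]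
      nlinarith
  set y : ℝ → ℝ × Vec k × Vec k := fun s => (θ, w + s • v1, u + s • v2) with hy
  have hyLD : ∀ s ∈ Icc (0:ℝ) 1, y s ∈ LD k r := fun s hs =>
    ⟨(hseg s hs).1.trans_lt hrcr, (hseg s hs).2.trans_lt hrcr⟩
  have hdw : ∀ s, HasDerivAt (fun s : ℝ => w + s • v1) v1 s := fun s => by
    simpa using ((hasDerivAt_id s).smul_const v1).const_add w
  have hdu : ∀ s, HasDerivAt (fun s : ℝ => u + s • v2) v2 s := fun s => by
    simpa using ((hasDerivAt_id s).smul_const v2).const_add u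
  have hdy : ∀ s, HasDerivAt y (0, v1, v2) s := fun s =>
    (hasDerivAt_const s θ).prodMk ((hdw s).prodMk (hdu s))
  have hdz : ∀ s, HasDerivAt (fun s : ℝ => (w + s • v1, u + s • v2)) (v1, v2) s := fun s =>
    (hdw s).prodMk (hdu s)
  have hinn : ∀ (F : ℝ × Vec k × Vec k → ℝ) (z : ℝ × Vec k × Vec k),
      fderiv ℝ F z (0, v1, v2) = inner ℝ (gw F z) v1 + inner ℝ (gu F z) v2 := by
    intro F z
    rw [gw_inner, gu_inner, ← map_add]
    simp
  have hL1 : ∀ s ∈ Icc (0:ℝ) 1, HasDerivAt (fun s => L (y s))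
      (inner ℝ (gw L (y s)) v1 + inner ℝ (gu L (y s)) v2) s := by
    intro s hs
    rw [← hinn]
    exact ((hLs.contDiffAt (hopen.mem_nhds (hyLD s hs))).differentiableAt
      (by simp)).hasFDerivAt.comp_hasDerivAt s (hdy s)
  have hD1 : ∀ s ∈ Icc (0:ℝ) 1, HasDerivAt (fun s => D (y s)) (fderiv ℝ D (y s) (0, v1, v2)) s := by
    intro s hs
    exact ((hDs.contDiffAt (hopen.mem_nhds (hyLD s hs))).differentiableAt
      (by norm_num)).hasFDerivAt.comp_hasDerivAt s (hdy s)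
  have hD2 : ∀ s ∈ Icc (0:ℝ) 1, HasDerivAt (fun s => fderiv ℝ D (y s) (0, v1, v2))
      (fderiv ℝ (fderiv ℝ D) (y s) (0, v1, v2) (0, v1, v2)) s := by
    intro s hs
    have h1 : ContDiffOn ℝ 1 (fderiv ℝ D) (LD k r) :=
      hDs.fderiv_of_isOpen hopen (by norm_num)
    have h2 := ((h1.contDiffAt (hopen.mem_nhds (hyLD s hs))).differentiableAt
      one_ne_zero).hasFDerivAt.comp_hasDerivAt s (hdy s)
    have h3 := h2.clm_apply (hasDerivAt_const s ((0, v1, v2) : ℝ × Vec k × Vec k))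
    simpa using h3
  have hG : ∀ s ∈ Icc (0:ℝ) 1, HasDerivAt
      (fun s => inner ℝ (gw L (y s)) v1 + inner ℝ (gu L (y s)) v2)
      (inner ℝ (fderiv ℝ (fun y : Vec k × Vec k => gw L (θ, y.1, y.2)) (w + s • v1, u + s • v2)
        (v1, v2)) v1 +
        inner ℝ (fderiv ℝ (fun y : Vec k × Vec k => gu L (θ, y.1, y.2)) (w + s • v1, u + s • v2)
        (v1, v2)) v2) s := by
    intro s hs
    have hn : ‖((w + s • v1, u + s • v2) : Vec k × Vec k)‖ ≤ r' :=
      (max_le (hseg s hs).1 (hseg s hs).2).trans hrcr'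
    obtain ⟨c1, c2, -, -⟩ := hC t θ _ hn
    have e1 := c2.hasFDerivAt.comp_hasDerivAt s (hdz s)
    have e2 := c1.hasFDerivAt.comp_hasDerivAt s (hdz s)
    have f1 := e1.inner ℝ (hasDerivAt_const s v1)
    have f2 := e2.inner ℝ (hasDerivAt_const s v2)
    simp only [inner_zero_right, zero_add] at f1 f2
    exact f1.add f2
  have key := FO9_taylor (φ := fun s => (1 - ε) * L (y s) + D (y s))
    (φ' := fun s => (1 - ε) * (inner ℝ (gw L (y s)) v1 + inner ℝ (gu L (y s)) v2) +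
      fderiv ℝ D (y s) (0, v1, v2))
    (φ'' := fun s => (1 - ε) * (inner ℝ (fderiv ℝ (fun y : Vec k × Vec k => gw L (θ, y.1, y.2))
        (w + s • v1, u + s • v2) (v1, v2)) v1 +
        inner ℝ (fderiv ℝ (fun y : Vec k × Vec k => gu L (θ, y.1, y.2)) (w + s • v1, u + s • v2)
        (v1, v2)) v2) + fderiv ℝ (fderiv ℝ D) (y s) (0, v1, v2) (0, v1, v2))
    (c := a / 16 * (‖v1‖ ^ 2 + ‖v2‖ ^ 2))
    (fun s hs => ((hL1 s hs).const_mul (1 - ε)).add (hD1 s hs))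
    (fun s hs => ((hG s hs).const_mul (1 - ε)).add (hD2 s hs)) ?_
  · have hval : ∀ z ∈ LD k r, lg (Ψ t) z = (1 - ε) * L z + D z := fun z hz => by
      rw [← hΦ0 z hz, hD]
      ring
    have hy0 : y 0 = (θ, w, u) := by simp [hy]
    have hy1 : y 1 = (θ, w', u') := by simp [hy, hv1, hv2]
    have hfd : fderiv ℝ (lg (Ψ t)) (y 0) =
        (1 - ε) • fderiv ℝ L (y 0) + fderiv ℝ D (y 0) := by
      have h0 := hyLD 0 (left_mem_Icc.2 zero_le_one)
      have e1 : lg (Ψ t) =ᶠ[𝓝 (y 0)] fun z => (1 - ε) * L z + D z := by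
        filter_upwards [hopen.mem_nhds h0] with z hz using hval z hz
      rw [e1.fderiv_eq]
      have d1 : DifferentiableAt ℝ L (y 0) :=
        (hLs.contDiffAt (hopen.mem_nhds h0)).differentiableAt (by simp)
      have d2 : DifferentiableAt ℝ D (y 0) :=
        (hDs.contDiffAt (hopen.mem_nhds h0)).differentiableAt (by norm_num)
      exact ((d1.hasFDerivAt.const_mul (1 - ε)).add d2.hasFDerivAt).fderiv
    have h2 : inner ℝ (gw (lg (Ψ t)) (θ, w, u)) v1 + inner ℝ (gu (lg (Ψ t)) (θ, w, u)) v2 =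
        (1 - ε) * (inner ℝ (gw L (y 0)) v1 + inner ℝ (gu L (y 0)) v2) +
          fderiv ℝ D (y 0) (0, v1, v2) := by
      rw [← hy0, ← hinn, ← hinn, hfd]
      rfl
    rw [← hval _ (hyLD 0 (left_mem_Icc.2 zero_le_one)),
      ← hval _ (hyLD 1 (right_mem_Icc.2 zero_le_one)), ← h2, hy0, hy1] at key
    linarith
  · intro s hs
    have hn : ‖((w + s • v1, u + s • v2) : Vec k × Vec k)‖ ≤ r' :=
      (max_le (hseg s hs).1 (hseg s hs).2).trans hrcr'
    obtain ⟨-, -, c3, c4⟩ := hC t θ _ hn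
    obtain ⟨b1, b2⟩ := hH K t θ v1 v2
    set X := ‖v1‖ with hX
    set Y := ‖v2‖ with hY
    have hX0 : 0 ≤ X := norm_nonneg _
    have hY0 : 0 ≤ Y := norm_nonneg _
    set Mx := max X Y with hM
    have hMX : X ≤ Mx := le_max_left _ _
    have hMY : Y ≤ Mx := le_max_right _ _
    have hM2 : Mx ^ 2 ≤ X ^ 2 + Y ^ 2 := by
      rcases max_choice X Y with e | e <;> rw [hM, e] <;> nlinarith [sq_nonneg X, sq_nonneg Y]
    have hM0 : 0 ≤ Mx := hX0.trans hMX
    have hnv : ‖((v1, v2) : Vec k × Vec k)‖ = Mx := rfl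
    have hnv3 : ‖((0, v1, v2) : ℝ × Vec k × Vec k)‖ = Mx := by
      rw [Prod.norm_def, norm_zero]
      exact max_eq_right hM0
    -- the term of `gw`
    set Gw := fderiv ℝ (fun y : Vec k × Vec k => gw L (θ, y.1, y.2)) with hGw
    set Gu := fderiv ℝ (fun y : Vec k × Vec k => gu L (θ, y.1, y.2)) with hGu
    have t1 : 2 * K * (a * X ^ 2) - g * (X + Y) * X - a / 8 * Mx * X ≤
        inner ℝ (Gw (w + s • v1, u + s • v2) (v1, v2)) v1 := by
      have e : Gw (w + s • v1, u + s • v2) (v1, v2) =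
          (2 * K) • Au Φ t θ v1 + (Gw 0 (v1, v2) - (2 * K) • Au Φ t θ v1) +
            (Gw (w + s • v1, u + s • v2) - Gw 0) (v1, v2) := by
        rw [_root_.sub_apply]
        abel
      rw [e, inner_add_left, inner_add_left, real_inner_smul_left]
      have i1 := (hAu t θ v1).1
      have i2 := abs_le.1 (abs_real_inner_le_norm (Gw 0 (v1, v2) - (2 * K) • Au Φ t θ v1) v1)
      have i3 := abs_le.1 (abs_real_inner_le_norm ((Gw (w + s • v1, u + s • v2) - Gw 0) (v1, v2)) v1)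
      have i4 : ‖(Gw (w + s • v1, u + s • v2) - Gw 0) (v1, v2)‖ ≤ a / 8 * Mx :=
        ((Gw (w + s • v1, u + s • v2) - Gw 0).le_opNorm _).trans
          (mul_le_mul c4 hnv.le (norm_nonneg _) (by positivity))
      have i5 := mul_le_mul_of_nonneg_right b2 hX0
      have i6 := mul_le_mul_of_nonneg_right i4 hX0
      have i7 : 2 * K * (a * X ^ 2) ≤ 2 * K * inner ℝ (Au Φ t θ v1) v1 :=
        mul_le_mul_of_nonneg_left i1 (by positivity)
      rw [← hX] at i2 i3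
      linarith [i2.1, i3.1]
    have t2 : a * Y ^ 2 - g * X * Y - a / 8 * Mx * Y ≤
        inner ℝ (Gu (w + s • v1, u + s • v2) (v1, v2)) v2 := by
      have e : Gu (w + s • v1, u + s • v2) (v1, v2) =
          Au Φ t θ v2 + (Gu 0 (v1, v2) - Au Φ t θ v2) +
            (Gu (w + s • v1, u + s • v2) - Gu 0) (v1, v2) := by
        rw [_root_.sub_apply]
        abel
      rw [e, inner_add_left, inner_add_left]
      have i1 := (hAu t θ v2).1
      have i2 := abs_le.1 (abs_real_inner_le_norm (Gu 0 (v1, v2) - Au Φ t θ v2) v2)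
      have i3 := abs_le.1 (abs_real_inner_le_norm ((Gu (w + s • v1, u + s • v2) - Gu 0) (v1, v2)) v2)
      have i4 : ‖(Gu (w + s • v1, u + s • v2) - Gu 0) (v1, v2)‖ ≤ a / 8 * Mx :=
        ((Gu (w + s • v1, u + s • v2) - Gu 0).le_opNorm _).trans
          (mul_le_mul c3 hnv.le (norm_nonneg _) (by positivity))
      have i5 := mul_le_mul_of_nonneg_right b1 hY0
      have i6 := mul_le_mul_of_nonneg_right i4 hY0
      rw [← hY] at i2 i3
      linarith [i2.1, i3.1]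
    have t3 : -(a / 16 * Mx ^ 2) ≤ fderiv ℝ (fderiv ℝ D) (y s) (0, v1, v2) (0, v1, v2) := by
      have j1 := ((fderiv ℝ (fderiv ℝ D) (y s)).le_opNorm₂ (0, v1, v2) (0, v1, v2))
      rw [hnv3, Real.norm_eq_abs] at j1
      have j2 := hΨ.c2 t (y s) (hyLD s hs)
      have j3 := (abs_le.1 j1).1
      have j4 : ‖fderiv ℝ (fderiv ℝ D) (y s)‖ * Mx * Mx ≤ a / 16 * Mx * Mx :=
        mul_le_mul_of_nonneg_right (mul_le_mul_of_nonneg_right j2 hM0) hM0
      nlinarith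
    have hq := FO9_quad (X := X) (Y := Y) ha hK
    have hMXY : Mx * (X + Y) ≤ 2 * (X ^ 2 + Y ^ 2) := by nlinarith
    have t4 : a / 4 * (X ^ 2 + Y ^ 2) ≤ inner ℝ (Gw (w + s • v1, u + s • v2) (v1, v2)) v1 +
        inner ℝ (Gu (w + s • v1, u + s • v2) (v1, v2)) v2 := by nlinarith
    have t5 : 3 / 4 * (a / 4 * (X ^ 2 + Y ^ 2)) ≤ (1 - ε) *
        (inner ℝ (Gw (w + s • v1, u + s • v2) (v1, v2)) v1 +
        inner ℝ (Gu (w + s • v1, u + s • v2) (v1, v2)) v2) :=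
      mul_le_mul (by linarith) t4 (by positivity) (by linarith)
    nlinarith

end EscW.Fo
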