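import Pool.Agent.EscW.OT6
import Pool.Agent.EscW.OT7
import Pool.Agent.EscW.OT10
import Pool.Agent.EscW.O10
import Pool.Agent.EscW.O11

set_option autoImplicit false

/-!
Project EscW, part OT, module OT11: openness, abstract form, for families.
`κ, s, η` of `second_cost`, `exit_cost` with this `κ`; `s = min` of both, `r`, `ℓ/2`; `ann_of_curve` for this `s`: `χ`, `r0`, `η`; `curveT_exists` with `r0`; `η = min` of all and `1/2` (`near_mono` for each `t`; `AnnCal` is monotone in `s`). `w, u, p`; `calibratedT`. `μ t = ℓ / a t` is continuous and periodic, so it has a minimum at some `t0`;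
`a' = μ t0 (1 - κ) a0`. For fixed `t` apply `exit_cost` and `second_cost` to `Φ t` and `F' x v _ = F x v t`: `excess (μ F) B t γ = μ t * excess F' (fun x _ => a t * x i + h_t (T x)) t γ` (constant factor of the integral). `exit`: `≥ μ t (1 - κ) a0 ≥ a'`; `second` at the time `t0`: `< μ t0 (1 - κ) a0`. The other fields of `IsRoom`: `RoomBase`.
-/

noncomputable section

namespace EscW.Ot

open Filter Topology Set EscF.T EscM EscMT MeasureTheory EscW.Ex EscW.Dn EscW.On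
open scoped ContDiff

variable {d m k j n : ℕ}

theorem OT11_mono {Φ : ℝ × Vec k → ℝ × Vec k → ℝ} {𝒜 : Set (ℝ × Vec k)} {s s' ℓ a : ℝ} {w : ℝ → Vec k}
    {h : ℝ × Vec k → ℝ} (hc : AnnCal Φ 𝒜 s ℓ a w h) (hs : s ≤ s') : AnnCal Φ 𝒜 s' ℓ a w h where
  w_smooth := hc.w_smooth
  w_per := hc.w_per
  w_small := fun θ => (hc.w_small θ).trans_le hs
  h_smooth := hc.h_smooth
  h_per := hc.h_per
  a_near := hc.a_near.trans_le hs
  h_small := fun z => (hc.h_small z).trans_le hs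
  le := hc.le
  only := hc.only
  cal := hc.cal

theorem OT11_min {μ : ℝ → ℝ} (hμ : IsWeight μ) : ∃ t0, ∀ t, μ t0 ≤ μ t := by
  obtain ⟨A, hA⟩ := hμ.lip
  have hc : Continuous μ := by
    have : LipschitzWith A.toNNReal μ := by
      refine LipschitzWith.of_dist_le_mul fun x y => ?_
      rw [Real.dist_eq, Real.dist_eq]
      exact (hA x y).trans (mul_le_mul_of_nonneg_right (Real.le_coe_toNNReal A) (abs_nonneg _))
    exact this.continuous
  obtain ⟨t0, _, h0⟩ := isCompact_Icc.exists_isMinOn (nonempty_Icc.2 (zero_le_one' ℝ)) hc.continuousOn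
  refine ⟨t0, fun t => ?_⟩
  have hp : Function.Periodic μ 1 := hμ.periodic
  obtain ⟨y, hy, he⟩ := hp.exists_mem_Ico₀ one_pos t
  rw [he]
  exact h0 ⟨hy.1, hy.2.le⟩

theorem OT11_excess (F : Vec m → Vec m → ℝ → ℝ) (g : Vec m → ℝ) (μ : ℝ → ℝ) (B : Vec m → ℝ → ℝ) (t : ℝ)
    (hB : ∀ x, B x t = μ t * g x) (γ : ℝ → Vec m) :
    excess (fun x v t => μ t * F x v t) B t γ =
      μ t * excess (fun x v _ => F x v t) (fun x _ => g x) t γ := by
  unfold excess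
  rw [intervalIntegral.integral_const_mul, hB, hB]
  ring

theorem open_absT {Φ0 : ℝ × Vec k → ℝ × Vec k → ℝ} {𝒜 : Set (ℝ × Vec k)} {r ℓ c c3 α β : ℝ}
    (hb : AnnBase Φ0 𝒜 r ℓ c c3 α β) {M' : Sub m} {O K : Set (Vec m)} {i : Fin m} {T : Vec m → ℝ × Vec k}
    {Λ : ℝ × Vec k → Vec m} (hc : AnnCover M' O i 𝒜 r T Λ) {a0 : ℝ} {bar : Vec m → ℝ} {θ0 : ℝ}
    {n : Fin m → ℤ} {γ : ℝ → Vec m} (hr : RoomBase M' O K i r ℓ a0 Φ0 T Λ bar θ0 n γ) :
    ∃ η : ℝ, 0 < η ∧ ∀ Φ : ℝ → ℝ × Vec k → ℝ × Vec k → ℝ, AnnNearT Φ0 Φ 𝒜 r η →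
      ∀ (φ : Vec m → Vec d) (F : Vec m → Vec m → ℝ → ℝ),
      (∀ x ∈ M'.N ∩ O, ∀ v t, F x v t = Φ t (T x) (fderiv ℝ T x v)) →
      (∀ x ∈ M'.N ∩ O, ∀ y ∈ M'.N ∩ O, ∀ l : Fin d → ℤ, φ x = φ y + vz l →
        ∃ l' : ℤ, (T x).1 = (T y).1 + l') →
      ∃ (μ : ℝ → ℝ) (B : Vec m → ℝ → ℝ) (len a' : ℝ) (c : ℝ → ℝ → Vec m), IsWeight μ ∧
        IsCalibratedW M' O φ (fun x v t => μ t * F x v t) B i len c ∧
        IsRoom M' O K (fun x v t => μ t * F x v t) B i c a' := by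
  obtain ⟨κ, s2, η2, hκ0, hκ1, hs2, hη2, H2⟩ := second_cost hb hc hr
  obtain ⟨s1, η1, hs1, hη1, H1⟩ := exit_cost hb hc hr hκ0 hκ1
  have hℓ := hb.ℓ_pos
  have hrp := hb.r_pos
  obtain ⟨s, hsd⟩ : ∃ s, s = min (min s1 s2) (min r (ℓ / 2)) := ⟨_, rfl⟩
  have hs : 0 < s := by rw [hsd]; positivity
  have hss1 : s ≤ s1 := by rw [hsd]; exact (min_le_left _ _).trans (min_le_left _ _)
  have hss2 : s ≤ s2 := by rw [hsd]; exact (min_le_left _ _).trans (min_le_right _ _)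
  have hsr : s ≤ r := by rw [hsd]; exact (min_le_right _ _).trans (min_le_left _ _)
  have hsℓ : s ≤ ℓ / 2 := by rw [hsd]; exact (min_le_right _ _).trans (min_le_right _ _)
  obtain ⟨χ, r0, η3, hχ, hR, hr0, hr0r, hη3, H3⟩ := ann_of_curve hb hs
  obtain ⟨η4, hη4, H4⟩ := curveT_exists hb hr0
  obtain ⟨η, hηd⟩ : ∃ η, η = min (min η1 η2) (min (min η3 η4) (1 / 2)) := ⟨_, rfl⟩
  have hη : 0 < η := by rw [hηd]; positivity
  have l1 : η ≤ η1 := by rw [hηd]; exact (min_le_left _ _).trans (min_le_left _ _)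
  have l2 : η ≤ η2 := by rw [hηd]; exact (min_le_left _ _).trans (min_le_right _ _)
  have l3 : η ≤ η3 := by
    rw [hηd]; exact (min_le_right _ _).trans ((min_le_left _ _).trans (min_le_left _ _))
  have l4 : η ≤ η4 := by
    rw [hηd]; exact (min_le_right _ _).trans ((min_le_left _ _).trans (min_le_right _ _))
  have l5 : η < 1 := by
    have : η ≤ 1 / 2 := by rw [hηd]; exact (min_le_right _ _).trans (min_le_right _ _)
    linarith
  refine ⟨η, hη, fun Φ hn φ F hF hφ => ?_⟩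
  have near : ∀ t η', η ≤ η' → AnnNear Φ0 (Φ t) 𝒜 r η' := fun t η' h => near_mono hb.nonneg (hn.near t) h
  obtain ⟨w, u, p, hw⟩ := H4 Φ ⟨fun t => near t η4 l4, hn.per_t, hn.smooth⟩
  have hcal : ∀ t, AnnCal (Φ t) 𝒜 s ℓ (Sl (Φ t) (w t) (u t) 1) (w t) (hl χ (Φ t) (w t) (u t) (p t)) :=
    fun t => H3 (Φ t) (near t η3 l3) _ _ _ (hw.curve t)
  obtain ⟨hμ, ϑ, hϑ0, hC⟩ := calibratedT hb l5 hn hsr hsℓ hr0r hw hχ hR hcal hc hF hφ θ0
  obtain ⟨t0, ht0⟩ := OT11_min hμ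
  have ha0 := hr.a_pos
  have hpos : 0 < (1 - κ) * a0 := mul_pos (by linarith) ha0
  refine ⟨fun t => ℓ / Sl (Φ t) (w t) (u t) 1, _, ℓ, ℓ / Sl (Φ t0) (w t0) (u t0) 1 * ((1 - κ) * a0), _,
    hμ, hC, ?_⟩
  have hws : ∀ t θ, ‖w t θ‖ < r := fun t θ => ((hcal t).w_small θ).trans_le hsr
  refine
    { closed := hr.closed
      sub := hr.sub
      periodic := hr.periodic
      mem := fun σ t => hr.mem _ (hws _ _)
      exit := ?_
      second := ?_ }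
  · intro t σ γ1 hL h0 hK h1
    have h2 := H1 (Φ t) (near t η1 l1) _ _ _ (OT11_mono (hcal t) hss1) (fun x v _ => F x v t)
      (fun x hx v _ => hF x hx v t) t (ϑ σ t, w t (ϑ σ t)) γ1 (hws _ _) hL h0 hK h1
    rw [OT11_excess F (fun x => Sl (Φ t) (w t) (u t) 1 * x i + hl χ (Φ t) (w t) (u t) (p t) (T x))
      (fun t => ℓ / Sl (Φ t) (w t) (u t) 1) _ t (fun x => rfl) γ1]
    exact (mul_le_mul_of_nonneg_right (ht0 t) hpos.le).trans (mul_le_mul_of_nonneg_left h2 (hμ.pos t).le)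
  · obtain ⟨γ1, hL, h0, h1, hK, h2⟩ := H2 (Φ t0) (near t0 η2 l2) _ _ _ (OT11_mono (hcal t0) hss2)
      (fun x v _ => F x v t0) (fun x hx v _ => hF x hx v t0) t0
    refine ⟨t0, n, γ1, hr.n_ne, hL, ?_, ?_, hK, ?_⟩
    · rw [h0, hϑ0]
    · rw [h1, hϑ0]
    · rw [OT11_excess F (fun x => Sl (Φ t0) (w t0) (u t0) 1 * x i +
        hl χ (Φ t0) (w t0) (u t0) (p t0) (T x))
        (fun t => ℓ / Sl (Φ t) (w t) (u t) 1) _ t0 (fun x => rfl) γ1]
      exact mul_lt_mul_of_pos_left h2 (hμ.pos t0)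

end EscW.Ot
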