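import Pool.Agent.EscW.FO4
import Pool.Agent.EscW.FO8
import Pool.Agent.EscW.FO9
import Pool.Agent.EscW.FO14
import Pool.Agent.EscW.FO15
import Pool.Agent.EscW.FO16
import Pool.Agent.EscW.OT11

set_option autoImplicit false

/-!
Project EscW, part FO, module FO17: abstract form.
`K = max` of `K0` (`core_lowK`), `K1` (`curve_fo`), `K2` (`convex_fo`); `c0`, `r2` of `core_lowK`; `c1` of `bounds`; `C2` of `core_upp`; `C'` of `cf_near` for this `K`. `δ1`: `C0 δ1 ≤ r2, 1/2`, `C' C0 δ1 ≤ ε/4`, `2 C2 (C0 δ)² ≤ ε c1 δ/(8 C0)` for `δ ≤ δ1`. Given the geometry: `r ≤ C0 δ ≤ r1/2` (`tubeA`, `smallA` at a vector of norm `r`). `FBase Φ K ε (Ps Φ K ε S) 𝒜 r1 r c C` with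
`c = (1 - ε) c0` (`c0 ≤ 1`): `tube`: `S0`; `low`: `core_lowK`, `0 ≤ S` (`IsShape.mem01'`), `Φ ≥ 0`; `upp`: `bounds`, `cf` near one. `hS` of `exit_fo`: the same with `Φ ≥ c1 eu`. `κ = ε c1 δ/(8 C0)` in `second_fo`: `s1`, `η1`. `s = min` of `s1`, `r`, `c r²/4`. `rc`, `cJ`, `η0` of `convex_fo`; `fcal_of_curve`: `χ`, `r0`, `η2` for `s`; `curve_fo` with
`r0`: `η3`; `η = min` of all and `c r²/4` (`NearP`, `FCal` are monotone). `calibrated_fo` with `θ1 = θ0`. `t0`: minimum of `μ t = (Sl .. 1)⁻¹` (`OT11_min`), `a' = μ t0 (ε c1 δ/(2 C0))`. `exit`, `second` (at `t0`): `exit_fo`, `second_fo`, `OT11_excess`. `mem`: `GeoL.mem`. (`F x v t`: use `fun x v => F x v t`.)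
-/

noncomputable section

namespace EscW.Fo

open Filter Topology Set EscF.T EscM EscMT MeasureTheory EscW.Ex EscW.Dn EscW.On EscW.Ot EscW.Fn
open scoped ContDiff

variable {d m k j n : ℕ}

theorem near_mono {Φ0 Ψ : ℝ → ℝ × Vec k → ℝ × Vec k → ℝ} {𝒜 : Set (ℝ × Vec k)} {r η η' : ℝ}
    (h : NearP Φ0 Ψ 𝒜 r η) (hη : η ≤ η') : NearP Φ0 Ψ 𝒜 r η' where
  hom := h.hom
  per_θ := h.per_θ
  per_t := h.per_t
  cont := h.cont
  c0 := fun t z hz ζ => (h.c0 t z hz ζ).trans (mul_le_mul_of_nonneg_right hη (eu_facts ζ).1)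
  smooth := h.smooth
  c1 := fun t y hy => (h.c1 t y hy).trans hη
  c2 := fun t y hy => (h.c2 t y hy).trans hη

theorem FO17_cal_mono {Φ : ℝ → ℝ × Vec k → ℝ × Vec k → ℝ} {ε t : ℝ} {Ψ : ℝ × Vec k → ℝ × Vec k → ℝ}
    {𝒜 : Set (ℝ × Vec k)} {s s' a : ℝ} {w : ℝ → Vec k} {h : ℝ × Vec k → ℝ}
    (hc : FCal Φ ε t Ψ 𝒜 s a w h) (hs : s ≤ s') : FCal Φ ε t Ψ 𝒜 s' a w h where
  w_small := fun θ => (hc.w_small θ).trans_le hs
  h_smooth := hc.h_smooth
  h_per := hc.h_per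
  a_near := hc.a_near.trans_le hs
  h_near := fun z => (hc.h_near z).trans_le hs
  le := hc.le
  only := hc.only
  cal := hc.cal

/-- the tube is contained in the thin domain -/
theorem FO17_r_le {M' : Sub m} {O K : Set (Vec m)} {i : Fin m} {T : Vec m → ℝ × Vec (j + 1)}
    {cv : ℝ → Vec m} {Θ S : Vec (j + 2) → ℝ} {bar : Vec m → ℝ} {C0 δ : ℝ} {𝒜 : Set (ℝ × Vec (j + 1))}
    {Λ : ℝ × Vec (j + 1) → Vec m} {r : ℝ} (hL : GeoL M' O K i T cv Θ S bar C0 δ 𝒜 Λ r) : r ≤ C0 * δ := by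
  have h1 : ‖(r • EuclideanSpace.single (0 : Fin (j + 1)) (1:ℝ) : Vec (j + 1))‖ = r := by
    rw [norm_smul, EuclideanSpace.norm_single, norm_one, mul_one, Real.norm_of_nonneg hL.r_pos.le]
  have h2 := hL.smallA ((0:ℝ), (r • EuclideanSpace.single (0 : Fin (j + 1)) (1:ℝ) : Vec (j + 1)))
    (hL.tubeA _ h1.le)
  exact h1.symm.le.trans h2

theorem FO17_low {a b c0 e x1 q P A S c1 ε : ℝ} (hε : 0 < ε) (hε4 : ε ≤ 1 / 4) (hc0 : 0 < c0)
    (hc01 : c0 ≤ 1) (h1 : c0 * (e - x1) + q * e ≤ a * P - A) (he : 0 ≤ e) (hex : 0 ≤ e - x1)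
    (hq : 0 ≤ q) (hS : 0 ≤ S) (hP : c1 * e ≤ P) (hb : b = ((1 - ε) * a + ε / 2 * S) * P) :
    (1 - ε) * c0 * (e - x1) + (1 - ε) * c0 * q * e + ε * c1 / 2 * (S * e) ≤ b - (1 - ε) * A := by
  have hε1 : 0 < 1 - ε := by linarith
  have h2 : ε / 2 * S * (c1 * e) ≤ ε / 2 * S * P := mul_le_mul_of_nonneg_left hP (by positivity)
  have h3 := mul_le_mul_of_nonneg_left h1 hε1.le
  have h4 : c0 * (q * e) ≤ 1 * (q * e) := mul_le_mul_of_nonneg_right hc01 (by positivity)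
  have h5 := mul_le_mul_of_nonneg_left h4 hε1.le
  rw [hb]
  nlinarith

theorem abs_fo {Φ : ℝ → ℝ × Vec (j + 1) → ℝ × Vec (j + 1) → ℝ} {r1 : ℝ} (h : LocFin Φ r1) {ε : ℝ}
    (hε : 0 < ε) (hε4 : ε ≤ 1 / 4) {C0 : ℝ} (hC0 : 0 < C0) :
    ∃ K δ1 : ℝ, 0 ≤ K ∧ 0 < δ1 ∧ (∀ δ, 0 < δ → δ ≤ δ1 → C0 * δ ≤ r1 / 2 ∧ C0 * δ ≤ 1 / 2 ∧
        ∀ (t : ℝ) (z : ℝ × Vec (j + 1)), ‖z.2‖ ≤ C0 * δ → |cf Φ K t z - 1| ≤ ε / 4) ∧
      ∀ δ, 0 < δ → δ ≤ δ1 → ∀ (m : ℕ) (M' : Sub m) (O K' : Set (Vec m)) (i : Fin m)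
        (T : Vec m → ℝ × Vec (j + 1)) (cv : ℝ → Vec m) (Θ S : Vec (j + 2) → ℝ) (bar : Vec m → ℝ) (θ0 : ℝ)
        (n : Fin m → ℤ) (γ : ℝ → Vec m) (wp : ℝ → Vec (j + 1)) (𝒜 : Set (ℝ × Vec (j + 1)))
        (Λ : ℝ × Vec (j + 1) → Vec m) (r : ℝ),
        Geo M' O K' i T cv Θ S bar θ0 n γ wp C0 δ → IsShape Θ S C0 δ →
        GeoL M' O K' i T cv Θ S bar C0 δ 𝒜 Λ r → ∃ η : ℝ, 0 < η ∧
        ∀ (Ψ : ℝ → ℝ × Vec (j + 1) → ℝ × Vec (j + 1) → ℝ), NearP (Ps Φ K ε S) Ψ 𝒜 r η →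
        ∀ (φ : Vec m → Vec d) (F : Vec m → Vec m → ℝ → ℝ),
        (∀ x ∈ M'.N ∩ O, ∀ v t, F x v t = Ψ t (T x) (fderiv ℝ T x v)) →
        (∀ x ∈ M'.N ∩ O, ∀ y ∈ M'.N ∩ O, ∀ l : Fin d → ℤ, φ x = φ y + vz l →
          ∃ l' : ℤ, (T x).1 = (T y).1 + l') →
        ∃ (μ : ℝ → ℝ) (B : Vec m → ℝ → ℝ) (len a : ℝ) (c : ℝ → ℝ → Vec m), IsWeight μ ∧
          IsCalibratedW M' O φ (fun x v t => μ t * F x v t) B i len c ∧
          IsRoom M' O K' (fun x v t => μ t * F x v t) B i c a := by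
  obtain ⟨K0, r2, c0, hK0, hr2, hr2', hc0, hc01, hcore⟩ := core_lowK h
  obtain ⟨K1, hK1, Hcurve⟩ := curve_fo h
  obtain ⟨K2, cJ, hK2, hcJ, Hconv⟩ := convex_fo h
  obtain ⟨K, hKdef⟩ : ∃ K, K = max K0 (max K1 K2) := ⟨_, rfl⟩
  have hKK0 : K0 ≤ K := by rw [hKdef]; exact le_max_left _ _
  have hKK1 : K1 ≤ K := by rw [hKdef]; exact (le_max_left _ _).trans (le_max_right _ _)
  have hKK2 : K2 ≤ K := by rw [hKdef]; exact (le_max_right _ _).trans (le_max_right _ _)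
  have hK : 0 ≤ K := hK0.trans hKK0
  obtain ⟨C2, hC2, hupp⟩ := core_upp h hK
  obtain ⟨C', hC', hnear⟩ := cf_near h hK
  obtain ⟨c1, C1, hc1, hC1, _, hb⟩ := bounds h
  have hε1 : ε < 1 := by linarith
  refine ⟨K, min (min (r2 / C0) (1 / (2 * C0)))
    (min (ε / (4 * C' * C0)) (ε * c1 / (16 * C2 * C0 ^ 3))),
    hK, lt_min (lt_min (div_pos hr2 hC0) (by positivity)) (lt_min (by positivity) (by positivity)),
    ?_, ?_⟩
  · intro δ hδ hδ1
    have h1 : δ ≤ r2 / C0 := le_trans hδ1 (le_trans (min_le_left _ _) (min_le_left _ _))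
    have h2 : δ ≤ 1 / (2 * C0) := le_trans hδ1 (le_trans (min_le_left _ _) (min_le_right _ _))
    have h3 : δ ≤ ε / (4 * C' * C0) := le_trans hδ1 (le_trans (min_le_right _ _) (min_le_left _ _))
    rw [le_div_iff₀ hC0] at h1
    rw [le_div_iff₀ (by positivity)] at h2 h3
    refine ⟨by nlinarith, by nlinarith, fun t z hz => ?_⟩
    have hz1 : ‖z.2‖ ≤ 1 := by nlinarith
    calc |cf Φ K t z - 1| ≤ C' * ‖z.2‖ := hnear t z hz1
      _ ≤ C' * (C0 * δ) := mul_le_mul_of_nonneg_left hz hC'.le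
      _ ≤ ε / 4 := by nlinarith
  · intro δ hδ hδ1 m M' O K' i T cv Θ S bar θ0 n γ wp 𝒜 Λ r hG hsh hL
    have h1 : δ ≤ r2 / C0 := le_trans hδ1 (le_trans (min_le_left _ _) (min_le_left _ _))
    have h2 : δ ≤ 1 / (2 * C0) := le_trans hδ1 (le_trans (min_le_left _ _) (min_le_right _ _))
    have h3 : δ ≤ ε / (4 * C' * C0) := le_trans hδ1 (le_trans (min_le_right _ _) (min_le_left _ _))
    have h4 : δ ≤ ε * c1 / (16 * C2 * C0 ^ 3) :=
      le_trans hδ1 (le_trans (min_le_right _ _) (min_le_right _ _))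
    rw [le_div_iff₀ hC0] at h1
    rw [le_div_iff₀ (by positivity)] at h2 h3 h4
    have hCr : C0 * δ ≤ r2 := by linarith [mul_comm C0 δ]
    have hCr1 : C0 * δ ≤ 1 := by nlinarith
    have hCr' : C0 * δ ≤ r1 / 2 := hCr.trans hr2'
    have hr : 0 < r := hL.r_pos
    have hrC : r ≤ C0 * δ := FO17_r_le hL
    have hr1 : r ≤ r1 / 2 := hrC.trans hCr'
    have hcfn : ∀ (t : ℝ) (z : ℝ × Vec (j + 1)), ‖z.2‖ ≤ C0 * δ → |cf Φ K t z - 1| ≤ ε / 4 := by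
      intro t z hz
      calc |cf Φ K t z - 1| ≤ C' * ‖z.2‖ := hnear t z (hz.trans hCr1)
        _ ≤ C' * (C0 * δ) := mul_le_mul_of_nonneg_left hz hC'.le
        _ ≤ ε / 4 := by nlinarith
    -- the lower bound
    have hlow : ∀ t, ∀ z ∈ 𝒜, ∀ ζ : ℝ × Vec (j + 1),
        (1 - ε) * c0 * (eu ζ - ζ.1) + (1 - ε) * c0 * ‖z.2‖ ^ 2 * eu ζ +
          ε * c1 / 2 * (S (pol 1 z) * eu ζ) ≤ Ps Φ K ε S t z ζ - (1 - ε) * al Φ t z ζ := by
      intro t z hz ζ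
      have hz1 := hL.smallA z hz
      obtain ⟨e1, _, _, _, _, e2, _⟩ := eu_facts ζ
      exact FO17_low hε hε4 hc0 hc01 (hcore K hKK0 t z ζ (hz1.trans hCr)) e1 e2 (sq_nonneg _)
        (hsh.mem01' _).1 (hb t z ζ (hz1.trans hCr')).1 rfl
    have htube : ∀ t (z ζ : ℝ × Vec (j + 1)), S (pol 1 z) = 0 →
        Ps Φ K ε S t z ζ = (1 - ε) * (cf Φ K t z * Φ t z ζ) := by
      intro t z ζ hS
      simp only [Ps, hS]
      ring
    have htube' : ∀ t (z ζ : ℝ × Vec (j + 1)), ‖z.2‖ < r →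
        Ps Φ K ε S t z ζ = (1 - ε) * (cf Φ K t z * Φ t z ζ) :=
      fun t z ζ hz => htube t z ζ (hL.S0 z hz)
    have hc : 0 < (1 - ε) * c0 := mul_pos (by linarith) hc0
    have hbase : FBase Φ K ε (Ps Φ K ε S) 𝒜 r1 r ((1 - ε) * c0) (2 * C1) :=
      { loc := h
        K_nonneg := hK
        ε_pos := hε
        ε_le := hε4
        r_pos := hr
        r_le := hr1
        c_pos := hc
        C_pos := by positivity
        tubeA := hL.tubeA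
        perA := hL.perA
        bdA := fun z hz => (hL.smallA z hz).trans hCr1
        tube := htube'
        low := by
          intro t z hz ζ
          have e1 := hlow t z hz ζ
          have e2 : 0 ≤ ε * c1 / 2 * (S (pol 1 z) * eu ζ) :=
            mul_nonneg (by positivity) (mul_nonneg (hsh.mem01' _).1 (eu_facts ζ).1)
          linarith
        upp := by
          intro t z hz ζ
          have hz1 := hL.smallA z hz
          obtain ⟨b1, b2⟩ := hb t z ζ (hz1.trans hCr')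
          have b3 := abs_le.1 (hcfn t z hz1)
          obtain ⟨s1, s2⟩ := hsh.mem01' (pol 1 z)
          have e1 := (eu_facts ζ).1
          have hΦ : 0 ≤ Φ t z ζ := (mul_nonneg hc1.le e1).trans b1
          have f1 : 0 ≤ (1 - ε) * cf Φ K t z + ε / 2 * S (pol 1 z) := by
            have : 0 ≤ (1 - ε) * cf Φ K t z := mul_nonneg (by linarith) (by linarith)
            have : 0 ≤ ε / 2 * S (pol 1 z) := mul_nonneg (by linarith) s1
            linarith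
          have f2 : (1 - ε) * cf Φ K t z + ε / 2 * S (pol 1 z) ≤ 2 := by
            have g1 : (1 - ε) * cf Φ K t z ≤ 1 * cf Φ K t z :=
              mul_le_mul_of_nonneg_right (by linarith) (by linarith)
            have g2 : ε / 2 * S (pol 1 z) ≤ ε / 2 * 1 := mul_le_mul_of_nonneg_left s2 (by linarith)
            linarith
          refine ⟨mul_nonneg f1 hΦ, ?_⟩
          calc ((1 - ε) * cf Φ K t z + ε / 2 * S (pol 1 z)) * Φ t z ζ ≤ 2 * (C1 * eu ζ) :=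
                mul_le_mul f2 b2 hΦ (by norm_num)
            _ = 2 * C1 * eu ζ := by ring }
    have hS : ∀ t, ∀ z ∈ 𝒜, ∀ ζ : ℝ × Vec (j + 1),
        (1 - ε) * c0 * ‖z.2‖ ^ 2 * eu ζ + ε * c1 / 2 * (S (pol 1 z) * eu ζ) ≤
          Ps Φ K ε S t z ζ - (1 - ε) * al Φ t z ζ := by
      intro t z hz ζ
      have e1 := hlow t z hz ζ
      obtain ⟨_, _, _, _, _, e2, _⟩ := eu_facts ζ
      have e3 : 0 ≤ (1 - ε) * c0 * (eu ζ - ζ.1) := mul_nonneg hc.le e2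
      linarith
    -- the constants
    have hκ : 0 < ε * c1 * δ / (8 * C0) := by positivity
    obtain ⟨s1, η1, hs1, hη1, H2⟩ := second_fo hbase hC0 hδ hG hL hCr' hCr1 hC2 hupp
      (fun t z _ ζ hS0 => htube t z ζ hS0) hκ
    obtain ⟨s, hsd⟩ : ∃ s, s = min (min s1 r) ((1 - ε) * c0 * r ^ 2 / 4) := ⟨_, rfl⟩
    have hs : 0 < s := by rw [hsd]; positivity
    have hss1 : s ≤ s1 := by rw [hsd]; exact (min_le_left _ _).trans (min_le_left _ _)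
    have hsr : s ≤ r := by rw [hsd]; exact (min_le_left _ _).trans (min_le_right _ _)
    have hsc : s ≤ (1 - ε) * c0 * r ^ 2 / 4 := by rw [hsd]; exact min_le_right _ _
    obtain ⟨rc, ηc, hrc, hrcr, hηc, Hc⟩ := Hconv K hKK2 r hr hr1
    obtain ⟨χ, hχ, hR, H3⟩ := fcal_of_curve hbase hrc hrcr hcJ hηc (Hc ε hε hε4 _ 𝒜 hL.tubeA htube')
    obtain ⟨r0, η2, hr0, hr0r, hη2, H4⟩ := H3 s hs
    obtain ⟨η3, hη3, H5⟩ := Hcurve K hKK1 r hr hr1 r0 hr0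
    obtain ⟨η, hηd⟩ : ∃ η, η = min (min η1 η2) (min η3 ((1 - ε) * c0 * r ^ 2 / 4)) := ⟨_, rfl⟩
    have hη : 0 < η := by rw [hηd]; positivity
    have l1 : η ≤ η1 := by rw [hηd]; exact (min_le_left _ _).trans (min_le_left _ _)
    have l2 : η ≤ η2 := by rw [hηd]; exact (min_le_left _ _).trans (min_le_right _ _)
    have l3 : η ≤ η3 := by rw [hηd]; exact (min_le_right _ _).trans (min_le_left _ _)
    have l4 : η ≤ (1 - ε) * c0 * r ^ 2 / 4 := by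
      rw [hηd]; exact (min_le_right _ _).trans (min_le_right _ _)
    refine ⟨η, hη, fun Ψ hn φ F hF' hφ => ?_⟩
    obtain ⟨w, u, p, hw⟩ := H5 ε hε hε4 _ Ψ 𝒜 hL.tubeA htube' (near_mono hn l3)
    have hcal := fun t => H4 Ψ (near_mono hn l2) t (w t) (u t) (p t) (hw.curve t)
    obtain ⟨hμ, ϑ, hϑ0, hC⟩ := calibrated_fo hbase hn hr0r hw hχ hR (fun t => (hcal t).1)
      (fun t => (hcal t).2) hC0 hδ hG hL hF' hφ θ0
    obtain ⟨t0, ht0⟩ := OT11_min hμ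
    have hq : 0 < ε * c1 * δ / (2 * C0) := by positivity
    have hws : ∀ t θ, ‖w t θ‖ < r := fun t θ => ((hcal t).2.w_small θ).trans_le hsr
    refine ⟨fun t => (Sl (Ψ t) (w t) (u t) 1)⁻¹, _, 1,
      (Sl (Ψ t0) (w t0) (u t0) 1)⁻¹ * (ε * c1 * δ / (2 * C0)), _, hμ, hC, ?_⟩
    refine
      { closed := hG.closed
        sub := hG.sub
        periodic := hG.periodic
        mem := fun σ t => hL.mem _ (hws _ _)
        exit := ?_
        second := ?_ }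
    · intro t σ γ1 hl h0 hK' h5
      have h6 := exit_fo hbase hc1 hC0 hδ hG hL hS hn (s := s) (by linarith) hsr (hcal t).2
        (F := fun x v => F x v t) (fun x hx v => hF' x hx v t) (ϑ σ t) hl h0 hK' h5
      rw [OT11_excess F (fun x => Sl (Ψ t) (w t) (u t) 1 * x i +
          hF χ Φ ε t (Ψ t) (w t) (u t) (p t) (T x))
        (fun t => (Sl (Ψ t) (w t) (u t) 1)⁻¹) _ t (fun x => rfl) γ1]
      exact (mul_le_mul_of_nonneg_right (ht0 t) hq.le).trans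
        (mul_le_mul_of_nonneg_left h6 (hμ.pos t).le)
    · obtain ⟨γ1, hl, h0, h5, hK', h6⟩ := H2 Ψ (near_mono hn l1) t0 _ _ _
        (FO17_cal_mono (hcal t0).2 hss1) (fun x v => F x v t0) (fun x hx v => hF' x hx v t0)
      refine ⟨t0, n, γ1, hG.n_ne, hl, ?_, ?_, hK', ?_⟩
      · rw [h0, hϑ0]
      · rw [h5, hϑ0]
      · rw [OT11_excess F (fun x => Sl (Ψ t0) (w t0) (u t0) 1 * x i +
            hF χ Φ ε t0 (Ψ t0) (w t0) (u t0) (p t0) (T x))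
          (fun t => (Sl (Ψ t) (w t) (u t) 1)⁻¹) _ t0 (fun x => rfl) γ1]
        refine mul_lt_mul_of_pos_left (lt_of_le_of_lt h6 ?_) (hμ.pos t0)
        rw [lt_div_iff₀ (by positivity)]
        have h8 : (2 * C2 * (C0 * δ) ^ 2 + ε * c1 * δ / (8 * C0)) * (2 * C0) =
            (δ * (16 * C2 * C0 ^ 3)) * δ / 4 + ε * c1 * δ / 4 := by
          field_simp
          ring
        rw [h8]
        have h9 : δ * (16 * C2 * C0 ^ 3) * δ ≤ ε * c1 * δ := mul_le_mul_of_nonneg_right h4 hδ.le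
        have h10 : 0 < ε * c1 * δ := by positivity
        linarith

end EscW.Fo
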