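import Pool.Agent.EscW.OTDefs
import Pool.Agent.EscW.O13

set_option autoImplicit false

/-!
Project EscW, part OT, module OT13: transfer for families.
-/

noncomputable section

namespace EscW.Ot

open Filter Topology Set EscF.T EscM EscMT MeasureTheory EscW.Ex EscW.Dn EscW.On
open scoped ContDiff

variable {d m k j n : ℕ}

theorem transferT {M : Sub d} {F' : Vec d → Vec d → ℝ} (hF' : IsFinsler M F') {Pj : ℝ × Vec k → Vec d}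
    {V : Set (ℝ × Vec k)} (hV : IsOpen V) (hPj : ContDiffOn ℝ ∞ Pj V) (hm : ∀ z ∈ V, Pj z ∈ M.N)
    (hper : ∀ θ w, Pj (θ + 1, w) = Pj (θ, w)) {𝒜 : Set (ℝ × Vec k)} (hA : 𝒜 ⊆ V) (hAc : IsClosed 𝒜)
    (hAp : ∀ θ w, (θ + 1, w) ∈ 𝒜 ↔ (θ, w) ∈ 𝒜) {Rw : ℝ} (hAb : ∀ z ∈ 𝒜, ‖z.2‖ ≤ Rw)
    (himm : ∀ z ∈ 𝒜, ∀ ζ, ζ ≠ 0 → fderiv ℝ Pj z ζ ≠ 0) {r : ℝ} (hr : ∀ z : ℝ × Vec k, ‖z.2‖ ≤ r → z ∈ 𝒜)
    {Φ0 : ℝ × Vec k → ℝ × Vec k → ℝ} (hΦ0 : ∀ z ∈ 𝒜, ∀ ζ, Φ0 z ζ = F' (Pj z) (fderiv ℝ Pj z ζ))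
    (hs : ContDiffOn ℝ 2 (lg Φ0) (LD k r)) {η : ℝ} (hη : 0 < η) :
    ∃ R δ : ℝ, 0 < R ∧ 0 < δ ∧ ∀ F'' : Vec d → Vec d → ℝ → ℝ, IsFinslerT M F'' → Close2T M R δ F' F'' →
      AnnNearT Φ0 (fun t z ζ => F'' (Pj z) (fderiv ℝ Pj z ζ) t) 𝒜 r η := by
  obtain ⟨R, δ, hR, hδ, h⟩ := transfer hF' hV hPj hm hper hA hAc hAp hAb himm hr hΦ0 hs hη
  refine ⟨R, δ, hR, hδ, fun F'' hF'' hcl => ⟨fun t => ?_, ?_, ?_⟩⟩
  · exact h (fun x v => F'' x v t) (hF''.fins t) (hcl.close t)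
  · intro t z hz ζ
    exact hF''.periodic _ (hm z (hA hz)) _ (O13_tan hV hPj hm (hA hz) ζ) t
  · have hLA : ∀ y ∈ LD k r, (y.1, y.2.1) ∈ 𝒜 := fun y hy => hr _ hy.1.le
    have hLV : LD k r ⊆ {y : ℝ × Vec k × Vec k | (y.1, y.2.1) ∈ V} := fun y hy => hA (hLA y hy)
    have htan : ∀ z ∈ 𝒜, ∀ ζ, IsTangent M (Pj z) (fderiv ℝ Pj z ζ) := fun z hz ζ =>
      O13_tan hV hPj hm (hA hz) ζ
    have hN : ∀ z ∈ 𝒜, Pj z ∈ M.N := fun z hz => hm z (hA hz)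
    have hne : ∀ y ∈ LD k r, (O13_Xi Pj y).2 ≠ 0 := fun y hy => himm _ (hLA y hy) _ (by
      intro h
      exact one_ne_zero (congrArg Prod.fst h))
    have hX2 : ContDiffOn ℝ 2 (O13_Xi Pj) (LD k r) :=
      ((O13_Xi_smooth hV hPj).of_le ENat.LEInfty.out).mono hLV
    have hX3 : ContDiffOn ℝ 2 (fun y : ℝ × (ℝ × Vec k × Vec k) => (O13_Xi Pj y.2, y.1))
        {y | y.2 ∈ LD k r} :=
      (hX2.comp contDiff_snd.contDiffOn (fun y hy => hy)).prodMk contDiff_fst.contDiffOn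
    have hmaps : MapsTo (fun y : ℝ × (ℝ × Vec k × Vec k) => (O13_Xi Pj y.2, y.1))
        {y | y.2 ∈ LD k r} {z : (Vec d × Vec d) × ℝ | z.1 ∈ TD M} := by
      intro y hy
      refine ⟨M.sub (hN _ (hLA y.2 hy)), ?_⟩
      have h1 : fderiv ℝ M.r (O13_Xi Pj y.2).1 (O13_Xi Pj y.2).2 = (O13_Xi Pj y.2).2 :=
        htan _ (hLA y.2 hy) _
      rw [h1]
      exact hne y.2 hy
    have hcomp := hcl.smooth.comp hX3 hmaps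
    have hs2 : ContDiffOn ℝ 2 (fun y : ℝ × (ℝ × Vec k × Vec k) => lg Φ0 y.2) {y | y.2 ∈ LD k r} :=
      hs.comp contDiff_snd.contDiffOn (fun y hy => hy)
    refine (hs2.add hcomp).congr (fun y hy => ?_)
    have h1 := O13_ext (fun x v => F'' x v y.1) (hN _ (hLA y.2 hy))
      (htan _ (hLA y.2 hy) (1, y.2.2.2))
    have h2 := O13_ext F' (hN _ (hLA y.2 hy)) (htan _ (hLA y.2 hy) (1, y.2.2.2))
    simp only [Function.comp_apply, O13_Xi, h1, h2, lg, hΦ0 _ (hLA y.2 hy)]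
    ring

end EscW.Ot
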