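import Pool.Agent.EscW.FODefs
import Pool.Agent.EscW.O13
import Pool.Agent.EscW.OT13

set_option autoImplicit false

/-!
Project EscW, part FO, module FO18: transfer.
As `transfer` (O13) and `transferT` (OT13), for a base family `Fb` which depends on the time, and with closeness only at the points of `W0 + ℤᵈ` (all points `Pj z`, `z ∈ V`, are in `W0`: `l = 0`). `c0`: homogeneity, `‖fderiv Pj z ζ‖ ≤ B eu ζ` for `z ∈ 𝒜` (compact modulo the period), `Close2F.close` with `i = 0`. On the tube, for `y = (θ, w, u)`,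
`lg (Ψ t) y - lg (Φ0 t) y = (ext M F'' - ext M Fb) (Pj (θ, w), fderiv Pj (θ, w) (1, u))`: chain rule of order two; the inner map and its derivatives of order `≤ 2` are bounded on `LD k r` (the closed tube is in `𝒜 ⊆ V`), the outer function is `C²` near these points (`hFbs`, `Close2F.smooth`; the domain is open), its derivatives are `≤ δ`. `smooth`: composition of
`Close2F.smooth` with `(t, θ, w, u) ↦ ((Pj (θ, w), fderiv Pj (θ, w) (1, u)), t)`; `M.r (Pj z) = Pj z`, `fderiv M.r (Pj z) (fderiv Pj z ζ) = fderiv Pj z ζ ≠ 0` (`himm`).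
-/

noncomputable section

namespace EscW.Fo

open Filter Topology Set EscF.T EscM EscMT MeasureTheory EscW.Ex EscW.Dn EscW.On EscW.Ot EscW.Fn
open scoped ContDiff

variable {d m k j n : ℕ}

/-- the nonzero tangent vectors at the points of `W0 + ℤᵈ` -/
def FO18_D (M : Sub d) (W0 : Set (Vec d)) : Set (Vec d × Vec d) :=
  {z | z ∈ TD M ∧ ∃ l : Fin d → ℤ, M.r z.1 + vz l ∈ W0}

theorem FO18_open (M : Sub d) {W0 : Set (Vec d)} (hW0 : IsOpen W0) : IsOpen (FO18_D M W0) := by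
  have hr : ContinuousOn (fun z : Vec d × Vec d => M.r z.1) (TD M) :=
    M.smooth.continuousOn.comp continuous_fst.continuousOn (fun z hz => hz.1)
  have h1 : FO18_D M W0 =
      ⋃ l : Fin d → ℤ, (TD M ∩ (fun z : Vec d × Vec d => M.r z.1 + vz l) ⁻¹' W0) := by
    ext z
    simp only [FO18_D, mem_setOf_eq, mem_iUnion, mem_inter_iff, mem_preimage, exists_and_left]
  rw [h1]
  exact isOpen_iUnion fun l =>
    (hr.add continuousOn_const).isOpen_inter_preimage (O13_TD_open M) hW0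

theorem FO18_slice {M : Sub d} {W0 : Set (Vec d)} {F : Vec d → Vec d → ℝ → ℝ}
    (hF : ContDiffOn ℝ 2 (fun z : (Vec d × Vec d) × ℝ => On.ext M (fun x v => F x v z.2) z.1)
      {z | z.1 ∈ TD M ∧ ∃ l : Fin d → ℤ, M.r z.1.1 + vz l ∈ W0}) (t : ℝ) :
    ContDiffOn ℝ 2 (fun z => On.ext M (fun x v => F x v t) z) (FO18_D M W0) :=
  hF.comp (contDiff_id.prodMk contDiff_const).contDiffOn (fun _ hz => hz)

theorem FO18_norm (ζ : ℝ × Vec k) : ‖ζ‖ ≤ eu ζ := by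
  unfold eu
  rw [Prod.norm_def]
  apply max_le
  · rw [Real.norm_eq_abs, ← Real.sqrt_sq_eq_abs]
    exact Real.sqrt_le_sqrt (le_add_of_nonneg_right (by positivity))
  · calc ‖ζ.2‖ = √(‖ζ.2‖ ^ 2) := (Real.sqrt_sq (norm_nonneg _)).symm
      _ ≤ _ := Real.sqrt_le_sqrt (le_add_of_nonneg_left (by positivity))

theorem FO18_bd {Pj : ℝ × Vec k → Vec d} {V : Set (ℝ × Vec k)} (hV : IsOpen V)
    (hPj : ContDiffOn ℝ ∞ Pj V) (hper : ∀ θ w, Pj (θ + 1, w) = Pj (θ, w)) {𝒜 : Set (ℝ × Vec k)}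
    (hA : 𝒜 ⊆ V) (hAc : IsClosed 𝒜) (hAp : ∀ θ w, (θ + 1, w) ∈ 𝒜 ↔ (θ, w) ∈ 𝒜) {Rw : ℝ}
    (hAb : ∀ z ∈ 𝒜, ‖z.2‖ ≤ Rw) :
    ∃ B : ℝ, 0 < B ∧ ∀ z ∈ 𝒜, ∀ ζ, ‖fderiv ℝ Pj z ζ‖ ≤ B * eu ζ := by
  have hdf : ContinuousOn (fderiv ℝ Pj) V :=
    (hPj.fderiv_of_isOpen (m := ∞) hV (by simp)).continuousOn
  set K : Set (ℝ × Vec k) := 𝒜 ∩ {z | z.1 ∈ Icc (0 : ℝ) 1} with hK
  have hKc : IsCompact K := by
    apply (isCompact_Icc.prod (isCompact_closedBall (0 : Vec k) Rw)).of_isClosed_subset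
      (hAc.inter (isClosed_Icc.preimage continuous_fst))
    rintro ⟨θ, w⟩ ⟨hz1, hz2⟩
    refine ⟨hz2, ?_⟩
    rw [mem_closedBall_zero_iff]
    exact hAb _ hz1
  obtain ⟨B, hB⟩ := hKc.exists_bound_of_continuousOn (hdf.mono (fun z hz => hA hz.1))
  refine ⟨|B| + 1, by positivity, ?_⟩
  have hPp : Function.Periodic Pj ((1 : ℝ), (0 : Vec k)) := by
    rintro ⟨θ, w⟩
    rw [Prod.mk_add_mk, add_zero]
    exact hper θ w
  have hAp' : Function.Periodic (fun z : ℝ × Vec k => z ∈ 𝒜) ((1 : ℝ), (0 : Vec k)) := by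
    rintro ⟨θ, w⟩
    rw [Prod.mk_add_mk, add_zero]
    exact propext (hAp θ w)
  rintro ⟨θ, w⟩ hz ζ
  have h3 : (Int.fract θ, w) ∈ 𝒜 := by
    have h4 := O13_red hAp' θ w
    rw [← h4]
    exact hz
  have h5 := hB (Int.fract θ, w) ⟨h3, Int.fract_nonneg θ, (Int.fract_lt_one θ).le⟩
  rw [← O13_red (O13_perd hPp) θ w] at h5
  calc ‖fderiv ℝ Pj (θ, w) ζ‖ ≤ ‖fderiv ℝ Pj (θ, w)‖ * ‖ζ‖ := ContinuousLinearMap.le_opNorm _ _
    _ ≤ (|B| + 1) * eu ζ := mul_le_mul (h5.trans ((le_abs_self B).trans (by linarith)))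
        (FO18_norm ζ) (norm_nonneg _) (by positivity)

theorem transferF {M : Sub d} {W0 : Set (Vec d)} (hW0 : IsOpen W0) {Fb : Vec d → Vec d → ℝ → ℝ}
    (hFb : IsFinslerT M Fb)
    (hFbs : ContDiffOn ℝ 2 (fun z : (Vec d × Vec d) × ℝ => On.ext M (fun x v => Fb x v z.2) z.1)
      {z | z.1 ∈ TD M ∧ ∃ l : Fin d → ℤ, M.r z.1.1 + vz l ∈ W0})
    {Pj : ℝ × Vec k → Vec d} {V : Set (ℝ × Vec k)} (hV : IsOpen V) (hPj : ContDiffOn ℝ ∞ Pj V)
    (hm : ∀ z ∈ V, Pj z ∈ M.N) (hmW : ∀ z ∈ V, Pj z ∈ W0)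
    (hper : ∀ θ w, Pj (θ + 1, w) = Pj (θ, w)) {𝒜 : Set (ℝ × Vec k)} (hA : 𝒜 ⊆ V) (hAc : IsClosed 𝒜)
    (hAp : ∀ θ w, (θ + 1, w) ∈ 𝒜 ↔ (θ, w) ∈ 𝒜) {Rw : ℝ} (hAb : ∀ z ∈ 𝒜, ‖z.2‖ ≤ Rw)
    (himm : ∀ z ∈ 𝒜, ∀ ζ, ζ ≠ 0 → fderiv ℝ Pj z ζ ≠ 0) {r : ℝ} (hr0 : 0 < r)
    (hr : ∀ z : ℝ × Vec k, ‖z.2‖ ≤ r → z ∈ 𝒜) {Φ0 : ℝ → ℝ × Vec k → ℝ × Vec k → ℝ}
    (hΦ0 : ∀ t, ∀ z ∈ 𝒜, ∀ ζ, Φ0 t z ζ = Fb (Pj z) (fderiv ℝ Pj z ζ) t) {η : ℝ} (hη : 0 < η) :
    ∃ R δ : ℝ, 0 < R ∧ 0 < δ ∧ ∀ F'' : Vec d → Vec d → ℝ → ℝ, IsFinslerT M F'' → Close2F M W0 R δ Fb F'' →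
      NearP Φ0 (fun t z ζ => F'' (Pj z) (fderiv ℝ Pj z ζ) t) 𝒜 r η := by
  obtain ⟨B, hB0, hB⟩ := FO18_bd hV hPj hper hA hAc hAp hAb
  obtain ⟨R, D, hR, hD, hRD⟩ := O13_bounds hV hPj hper hA himm hr
  have hR0 : 0 < R := one_pos.trans_le hR
  have hD0 : 0 < D := one_pos.trans_le hD
  refine ⟨R, min (η / B) (η / (2 * D ^ 2)), hR0, lt_min (by positivity) (by positivity), ?_⟩
  intro F'' hF'' hcl
  set δ := min (η / B) (η / (2 * D ^ 2)) with hδ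
  have hδ0 : 0 < δ := lt_min (by positivity) (by positivity)
  have hδ1 : δ * B ≤ η := by
    have h1 : δ ≤ η / B := min_le_left _ _
    rwa [le_div_iff₀ hB0] at h1
  have hδ2 : δ * (2 * D ^ 2) ≤ η := by
    have h1 : δ ≤ η / (2 * D ^ 2) := min_le_right _ _
    rwa [le_div_iff₀ (by positivity)] at h1
  have hLDo : IsOpen (LD k r) := by
    apply IsOpen.inter
    · exact isOpen_lt (continuous_norm.comp (continuous_fst.comp continuous_snd)) continuous_const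
    · exact isOpen_lt (continuous_norm.comp (continuous_snd.comp continuous_snd)) continuous_const
  have hLA : ∀ y ∈ LD k r, (y.1, y.2.1) ∈ 𝒜 := fun y hy => hr _ hy.1.le
  have hLV : LD k r ⊆ {y : ℝ × Vec k × Vec k | (y.1, y.2.1) ∈ V} := fun y hy => hA (hLA y hy)
  have htan : ∀ z ∈ 𝒜, ∀ ζ, IsTangent M (Pj z) (fderiv ℝ Pj z ζ) := fun z hz ζ =>
    O13_tan hV hPj hm (hA hz) ζ
  have hN : ∀ z ∈ 𝒜, Pj z ∈ M.N := fun z hz => hm z (hA hz)
  have hvz : (vz (0 : Fin d → ℤ) : Vec d) = 0 := by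
    ext i
    simp [vz]
  have hW : ∀ z ∈ 𝒜, ∃ l : Fin d → ℤ, Pj z + vz l ∈ W0 := fun z hz =>
    ⟨0, by rw [hvz, add_zero]; exact hmW z (hA hz)⟩
  have hne : ∀ y ∈ LD k r, (O13_Xi Pj y).2 ≠ 0 := fun y hy => himm _ (hLA y hy) _ (by
    intro h
    exact one_ne_zero (congrArg Prod.fst h))
  -- the composition
  have hDo : IsOpen (FO18_D M W0) := FO18_open M hW0
  have hX2 : ContDiffOn ℝ 2 (O13_Xi Pj) (LD k r) :=
    ((O13_Xi_smooth hV hPj).of_le ENat.LEInfty.out).mono hLV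
  have hmaps : MapsTo (O13_Xi Pj) (LD k r) (FO18_D M W0) := by
    intro y hy
    refine ⟨⟨M.sub (hN _ (hLA y hy)), ?_⟩, ?_⟩
    · have h1 : fderiv ℝ M.r (O13_Xi Pj y).1 (O13_Xi Pj y).2 = (O13_Xi Pj y).2 :=
        htan _ (hLA y hy) _
      rw [h1]
      exact hne y hy
    · have h1 : M.r (O13_Xi Pj y).1 = Pj (y.1, y.2.1) := O13_r (hN _ (hLA y hy))
      rw [h1]
      exact hW _ (hLA y hy)
  have hdiff : ∀ t, ContDiffOn ℝ 2 (fun z => On.ext M (fun x v => F'' x v t) z -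
      On.ext M (fun x v => Fb x v t) z) (FO18_D M W0) := fun t =>
    (FO18_slice hcl.smooth t).sub (FO18_slice hFbs t)
  have heq : ∀ t, EqOn (fun y => lg (fun z ζ => F'' (Pj z) (fderiv ℝ Pj z ζ) t) y - lg (Φ0 t) y)
      ((fun z => On.ext M (fun x v => F'' x v t) z - On.ext M (fun x v => Fb x v t) z) ∘ O13_Xi Pj)
      (LD k r) := by
    intro t y hy
    have h1 := O13_ext (fun x v => F'' x v t) (hN _ (hLA y hy)) (htan _ (hLA y hy) (1, y.2.2))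
    have h2 := O13_ext (fun x v => Fb x v t) (hN _ (hLA y hy)) (htan _ (hLA y hy) (1, y.2.2))
    simp only [Function.comp_apply, O13_Xi, h1, h2, lg, hΦ0 t _ (hLA y hy)]
  have hbd : ∀ t, ∀ y ∈ LD k r, ∀ i : ℕ, i ≤ 2 →
      ‖iteratedFDeriv ℝ i (fun y => lg (fun z ζ => F'' (Pj z) (fderiv ℝ Pj z ζ) t) y -
        lg (Φ0 t) y) y‖ ≤ (i.factorial : ℝ) * δ * D ^ i := by
    intro t y hy i hi
    rw [← iteratedFDerivWithin_of_isOpen i hLDo hy, iteratedFDerivWithin_congr (heq t) hy]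
    refine norm_iteratedFDerivWithin_comp_le (hdiff t) hX2 (by exact_mod_cast hi)
      hDo.uniqueDiffOn hLDo.uniqueDiffOn hmaps hy ?_ ?_
    · intro l hl
      rw [iteratedFDerivWithin_of_isOpen l hDo (hmaps hy)]
      obtain ⟨h1, h2, -⟩ := hRD y hy
      exact hcl.close t _ (hN _ (hLA y hy)) (hW _ (hLA y hy)) _ (htan _ (hLA y hy) _) h1 h2 l
        (hl.trans hi)
    · intro l hl1 hl2
      rw [iteratedFDerivWithin_of_isOpen l hLDo hy]
      exact (hRD y hy).2.2 l hl1 (hl2.trans hi)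
  have hPp : Function.Periodic Pj ((1 : ℝ), (0 : Vec k)) := by
    rintro ⟨θ, w⟩
    rw [Prod.mk_add_mk, add_zero]
    exact hper θ w
  refine ⟨?_, ?_, ?_, ?_, ?_, ?_, ?_, ?_⟩
  · intro t z hz ζ s hs0
    rw [map_smul]
    exact (hF''.fins t).hom _ (hN z hz) _ (htan z hz ζ) s hs0
  · intro t θ w ζ _
    have h1 := hPp (θ, w)
    have h2 := O13_perd hPp (θ, w)
    rw [Prod.mk_add_mk, add_zero] at h1 h2
    change F'' (Pj (θ + 1, w)) (fderiv ℝ Pj (θ + 1, w) ζ) t =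
      F'' (Pj (θ, w)) (fderiv ℝ Pj (θ, w) ζ) t
    rw [h1, h2]
  · intro t z hz ζ
    exact hF''.periodic _ (hN z hz) _ (htan z hz ζ) t
  · intro t
    exact O13_cont (hF''.fins t) hV hPj hm hA
  · intro t z hz ζ
    rw [hΦ0 t z hz]
    have hx := hN z hz
    have hv := htan z hz ζ
    have hb := hB z hz ζ
    set v := fderiv ℝ Pj z ζ with hvdef
    have he : 0 ≤ eu ζ := Real.sqrt_nonneg _
    by_cases hv0 : v = 0
    · have h1 : ∀ F : Vec d → Vec d → ℝ, IsFinsler M F → F (Pj z) 0 = 0 := by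
        intro F hF
        have h2 := hF.hom _ hx v hv 0 le_rfl
        rwa [zero_smul, zero_mul] at h2
      have h3 : F'' (Pj z) 0 t = 0 := h1 _ (hF''.fins t)
      have h4 : Fb (Pj z) 0 t = 0 := h1 _ (hFb.fins t)
      rw [hv0, h3, h4, sub_zero, abs_zero]
      positivity
    · have h0 : 0 < ‖v‖ := norm_pos_iff.2 hv0
      have hu := O13_smul ‖v‖⁻¹ hv
      have hun : ‖‖v‖⁻¹ • v‖ = 1 := by
        rw [norm_smul, norm_inv, norm_norm, inv_mul_cancel₀ h0.ne']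
      have hvv : v = ‖v‖ • (‖v‖⁻¹ • v) := by
        rw [smul_smul, mul_inv_cancel₀ h0.ne', one_smul]
      have h1 := hcl.close t _ hx (hW z hz) _ hu (by rw [hun, div_le_one hR0]; exact hR)
        (by rw [hun]; exact hR) 0 (by norm_num)
      rw [norm_iteratedFDeriv_zero, O13_ext (fun x v => F'' x v t) hx hu,
        O13_ext (fun x v => Fb x v t) hx hu, Real.norm_eq_abs] at h1
      have h2 : F'' (Pj z) v t = ‖v‖ * F'' (Pj z) (‖v‖⁻¹ • v) t := by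
        conv_lhs => rw [hvv]
        exact (hF''.fins t).hom _ hx _ hu _ h0.le
      have h3 : Fb (Pj z) v t = ‖v‖ * Fb (Pj z) (‖v‖⁻¹ • v) t := by
        conv_lhs => rw [hvv]
        exact (hFb.fins t).hom _ hx _ hu _ h0.le
      calc |F'' (Pj z) v t - Fb (Pj z) v t|
          = ‖v‖ * |F'' (Pj z) (‖v‖⁻¹ • v) t - Fb (Pj z) (‖v‖⁻¹ • v) t| := by
            rw [h2, h3, ← mul_sub, abs_mul, abs_norm]
        _ ≤ ‖v‖ * δ := mul_le_mul_of_nonneg_left h1 h0.le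
        _ ≤ (B * eu ζ) * δ := mul_le_mul_of_nonneg_right hb hδ0.le
        _ = (δ * B) * eu ζ := by ring
        _ ≤ η * eu ζ := mul_le_mul_of_nonneg_right hδ1 he
  · have hX3 : ContDiffOn ℝ 2 (fun y : ℝ × (ℝ × Vec k × Vec k) => (O13_Xi Pj y.2, y.1))
        {y | y.2 ∈ LD k r} :=
      (hX2.comp contDiff_snd.contDiffOn (fun y hy => hy)).prodMk contDiff_fst.contDiffOn
    have hmaps2 : MapsTo (fun y : ℝ × (ℝ × Vec k × Vec k) => (O13_Xi Pj y.2, y.1))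
        {y | y.2 ∈ LD k r} {z : (Vec d × Vec d) × ℝ |
          z.1 ∈ TD M ∧ ∃ l : Fin d → ℤ, M.r z.1.1 + vz l ∈ W0} := fun y hy => hmaps hy
    have hcomp := hcl.smooth.comp hX3 hmaps2
    refine hcomp.congr (fun y hy => ?_)
    have h1 := O13_ext (fun x v => F'' x v y.1) (hN _ (hLA y.2 hy))
      (htan _ (hLA y.2 hy) (1, y.2.2.2))
    simp only [Function.comp_apply, O13_Xi, h1, lg]
  · intro t y hy
    have h1 := hbd t y hy 1 (by norm_num)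
    rw [norm_iteratedFDeriv_one, Nat.factorial_one, Nat.cast_one, one_mul, pow_one] at h1
    refine h1.trans ?_
    nlinarith [mul_nonneg hδ0.le (sub_nonneg.2 hD)]
  · intro t y hy
    have h1 := hbd t y hy 2 le_rfl
    rw [← norm_iteratedFDeriv_fderiv (n := 1), norm_iteratedFDeriv_one, Nat.factorial_two] at h1
    push_cast at h1
    refine h1.trans ?_
    linarith

end EscW.Fo
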