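import Pool.Agent.EscW.O15
import Pool.Agent.EscW.D5

set_option autoImplicit false

/-!
Project EscW, part O, module O16: part D: base metric.
On `AD`: `tq ≤ 1/3`, so `tW = tw` (`tΘ = 1`: `12 tq - 4 ≤ 0`), `|2 (tρ - δ)/δ| ≤ 1/√3`, `tρ ≤ 1.29 δ`, `|tr - 1| ≤ tρ`, `3/4 ≤ tr` (`δ ≤ 1/8`). For `z ∈ AD` or in the tube `R0 + w0 > 0`: by `tr (pol z) = |R0 + w0|` and `‖w‖ ≤ 1 < R0`: `R0 + w0 > 0`. `tQ (pol z) = ‖w‖²`.
`hlow`: `(R0 + w0) tw = (1 - ε)(1 + δ) + tr (tQ + (ε/2) st (16 tq)) ≥ (1 - ε) R0 + (3/4) ‖w‖²`, `(1 - ε) R0 / 2 ≤ 9/16`. `hW1`: `tW_bd`. Tube: `tρ (pol z) = √((δ + w0)² + w1²)`, `|tρ - δ| ≤ ‖w‖`, `tq ≤ 5 ‖w‖²/δ² ≤ 5/256`. `htay`: `= w0 ‖w‖² + (R0 + w0) (ε/2) st (16 tq)`, `st (16 tq) ≤ C (80 ‖w‖²/δ²)³`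
(`st_cube`), `‖w‖ ≤ 1`. Closedness of `AD`: `tq ∘ pol` is continuous.
-/

noncomputable section

namespace EscW.On

open Filter Topology Set EscF.T EscM EscMT MeasureTheory EscW.Ex EscW.Dn
open scoped ContDiff

variable {d m k j n : ℕ}

theorem O16_sum (f : Fin (n + 3) → ℝ) :
    ∑ i, (if i = 0 ∨ i = 1 ∨ i = 2 then (0 : ℝ) else f i) = ∑ i : Fin n, f i.succ.succ.succ := by
  have h := D1_sum f
  rw [Fin.sum_univ_succ, Fin.sum_univ_succ, Fin.sum_univ_succ] at h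
  have h1 : f (Fin.succ (0 : Fin (n + 2))) = f 1 := rfl
  have h2 : f (Fin.succ (Fin.succ (0 : Fin (n + 1)))) = f 2 := by
    congr 1
  rw [h1, h2] at h
  linarith

theorem O16_p0 (R0 : ℝ) (z : ℝ × Vec (n + 2)) :
    (pol R0 z : Vec (n + 3)) 0 = (R0 + z.2 0) * Real.cos (2 * Real.pi * z.1) := rfl

theorem O16_p1 (R0 : ℝ) (z : ℝ × Vec (n + 2)) :
    (pol R0 z : Vec (n + 3)) 1 = (R0 + z.2 0) * Real.sin (2 * Real.pi * z.1) := rfl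

theorem O16_p2 (R0 : ℝ) (z : ℝ × Vec (n + 2)) :
    (pol R0 z : Vec (n + 3)) 2 = z.2 1 := rfl

theorem O16_p3 (R0 : ℝ) (z : ℝ × Vec (n + 2)) (i : Fin n) :
    (pol R0 z : Vec (n + 3)) i.succ.succ.succ = z.2 i.succ.succ := rfl

theorem O16_norm (w : Vec (n + 2)) :
    ‖w‖ ^ 2 = w 0 ^ 2 + w 1 ^ 2 + ∑ i : Fin n, w i.succ.succ ^ 2 := by
  rw [EuclideanSpace.real_norm_sq_eq, Fin.sum_univ_succ, Fin.sum_univ_succ]
  have h1 : w (Fin.succ (0 : Fin (n + 1))) = w 1 := rfl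
  rw [h1]
  ring

theorem O16_abs (w : Vec (n + 2)) : |w 0| ≤ ‖w‖ := by
  refine abs_le_of_sq_le_sq ?_ (norm_nonneg w)
  rw [O16_norm]
  have h1 : 0 ≤ ∑ i : Fin n, w i.succ.succ ^ 2 := Finset.sum_nonneg fun i _ => sq_nonneg _
  nlinarith [sq_nonneg (w 1)]

theorem O16_tr {R0 : ℝ} {z : ℝ × Vec (n + 2)} (h : 0 < R0 + z.2 0) :
    tr (pol R0 z : Vec (n + 3)) = R0 + z.2 0 := by
  unfold tr
  rw [O16_p0, O16_p1]
  have h1 : ((R0 + z.2 0) * Real.cos (2 * Real.pi * z.1)) ^ 2 +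
      ((R0 + z.2 0) * Real.sin (2 * Real.pi * z.1)) ^ 2 = (R0 + z.2 0) ^ 2 := by
    nlinarith [Real.sin_sq_add_cos_sq (2 * Real.pi * z.1)]
  rw [h1, Real.sqrt_sq h.le]

theorem O16_tQ {δ : ℝ} {z : ℝ × Vec (n + 2)} (h : 0 < 1 + δ + z.2 0) :
    tQ δ (pol (1 + δ) z : Vec (n + 3)) = ‖z.2‖ ^ 2 := by
  unfold tQ
  rw [O16_tr h, O16_sum (fun i => (pol (1 + δ) z : Vec (n + 3)) i ^ 2), O16_p2, O16_norm]
  simp only [O16_p3]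
  ring

theorem O16_tq {δ : ℝ} (hδ : 0 < δ) {z : ℝ × Vec (n + 2)} (h : 0 < 1 + δ + z.2 0) :
    tq δ (pol (1 + δ) z : Vec (n + 3)) ≤ 4 * ‖z.2‖ ^ 2 / δ ^ 2 := by
  unfold tq
  rw [O16_sum (fun i => ((pol (1 + δ) z : Vec (n + 3)) i / δ) ^ 2)]
  simp only [O16_p3]
  have h1 : tρ (pol (1 + δ) z : Vec (n + 3)) ^ 2 = (δ + z.2 0) ^ 2 + z.2 1 ^ 2 := by
    unfold tρ
    rw [Real.sq_sqrt (by positivity), O16_tr h, O16_p2]
    ring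
  have h0 : 0 ≤ tρ (pol (1 + δ) z : Vec (n + 3)) := Real.sqrt_nonneg _
  have h2 : δ + z.2 0 ≤ tρ (pol (1 + δ) z : Vec (n + 3)) := by
    refine (le_abs_self _).trans (abs_le_of_sq_le_sq ?_ h0)
    rw [h1]
    nlinarith [sq_nonneg (z.2 1)]
  have h3 : (tρ (pol (1 + δ) z : Vec (n + 3)) - δ) ^ 2 ≤ z.2 0 ^ 2 + z.2 1 ^ 2 := by
    nlinarith
  have h4 : ∑ i : Fin n, (z.2 i.succ.succ / δ) ^ 2 =
      (∑ i : Fin n, z.2 i.succ.succ ^ 2) / δ ^ 2 := by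
    rw [Finset.sum_div]
    exact Finset.sum_congr rfl fun i _ => div_pow _ _ _
  have h5 : 0 ≤ ∑ i : Fin n, z.2 i.succ.succ ^ 2 := Finset.sum_nonneg fun i _ => sq_nonneg _
  rw [h4, div_pow, ← add_div, O16_norm]
  refine div_le_div_of_nonneg_right ?_ (by positivity)
  nlinarith

theorem O16_tW {δ ε : ℝ} {Y : Vec (n + 3)} (h : tq δ Y ≤ 1 / 3) : tW δ ε Y = tw δ ε Y := by
  have h1 : Real.smoothTransition (12 * tq δ Y - 4) = 0 :=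
    Real.smoothTransition.zero_of_nonpos (by linarith)
  unfold tW tΘ
  rw [h1]
  ring

theorem AD_pos {δ : ℝ} (hδ : 0 < δ) {z : ℝ × Vec (n + 2)} (hz : z ∈ AD δ n) : 0 < 1 + δ + z.2 0 := by
  have h1 : ‖z.2‖ ≤ 1 := hz.2
  have h2 := (abs_le.1 (O16_abs z.2)).1
  linarith

theorem AD_tube {δ : ℝ} (hδ : 0 < δ) (h8 : δ ≤ 1 / 8) (z : ℝ × Vec (n + 2)) (hz : ‖z.2‖ ≤ δ / 16) :
    z ∈ AD δ n ∧ Dn.tq δ (pol (1 + δ) z) ≤ 5 / 256 := by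
  have h2 := (abs_le.1 (O16_abs z.2)).1
  have h3 : 0 < 1 + δ + z.2 0 := by linarith
  have h4 := O16_tq hδ h3
  have h5 : 4 * ‖z.2‖ ^ 2 / δ ^ 2 ≤ 5 / 256 := by
    rw [div_le_iff₀ (by positivity)]
    have h6 : ‖z.2‖ ^ 2 ≤ (δ / 16) ^ 2 := pow_le_pow_left₀ (norm_nonneg _) hz 2
    nlinarith [sq_nonneg δ]
  exact ⟨⟨(h4.trans h5).trans (by norm_num), by linarith⟩, h4.trans h5⟩

/-- the conformal factor on the domain -/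
theorem O16_main {δ ε : ℝ} (hδ : 0 < δ) {z : ℝ × Vec (n + 2)} (hz : z ∈ AD δ n) :
    (1 + δ + z.2 0) * tW δ ε (pol (1 + δ) z : Vec (n + 3)) = (1 - ε) * (1 + δ) +
      (1 + δ + z.2 0) * (‖z.2‖ ^ 2 +
        ε / 2 * Real.smoothTransition (16 * tq δ (pol (1 + δ) z : Vec (n + 3)))) := by
  have h1 := AD_pos hδ hz
  rw [O16_tW hz.1]
  unfold tw
  rw [O16_tr h1, O16_tQ h1]
  field_simp
  ring

theorem AD_closed (δ : ℝ) (n : ℕ) : IsClosed (AD δ n) := by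
  have h1 : Continuous (fun z : ℝ × Vec (n + 2) => tq δ (pol (1 + δ) z : Vec (n + 3))) :=
    (D5_cont δ).comp (pol_smooth (1 + δ)).continuous
  have h2 : Continuous (fun z : ℝ × Vec (n + 2) => ‖z.2‖) := continuous_snd.norm
  exact (isClosed_le h1 continuous_const).inter (isClosed_le h2 continuous_const)

theorem AD_per (δ θ : ℝ) (w : Vec (n + 2)) : (θ + 1, w) ∈ AD δ n ↔ (θ, w) ∈ AD δ n := by
  unfold AD
  rw [Set.mem_ofPred_eq, Set.mem_ofPred_eq, pol_per]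

theorem baseD {δ ε s : ℝ} (hδ : 0 < δ) (h8 : δ ≤ 1 / 8) (hε : 0 < ε) (hε4 : ε ≤ 1 / 4) (hδε : δ ≤ ε / 8)
    (hs : 0 < s) : AnnBase (Phm (1 + δ) s (tW δ ε)) (AD δ n) (δ / 16) (ll δ ε s) (1 / 2) (s * (1 - 2 * ε))
      (s * (1 - ε) / (2 * Real.pi * (1 + δ))) (4 * Real.pi * s * (1 + δ)) := by
  obtain ⟨C, hC, hC2⟩ := st_cube
  have hbd := fun Y : Vec (n + 3) => tW_bd hε hε4 hδ hδε Y
  have hsm : ContDiff ℝ 2 (tW δ ε : Vec (n + 3) → ℝ) := by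
    have h := contDiff_infty.1 (tW_smooth (n := n) hδ h8 ε) 2
    exact_mod_cast h
  refine base_of hsm (fun Y => ?_) hs (by linarith)
    (by linarith) hε (by linarith) (by positivity) (by linarith) (by norm_num) (by linarith)
    (fun θ w hw => (AD_tube hδ h8 (θ, w) hw.le).1) (fun z hz => hz.2) (fun z hz => ?_)
    (fun z _ => (hbd _).1) ⟨1 + 2 * (C * (64 / δ ^ 2) ^ 3), fun θ w hw => ?_⟩
  · linarith [(hbd Y).1]
  · rw [O16_main hδ hz]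
    have h1 := AD_pos hδ hz
    have h2 : tq δ (pol (1 + δ) z : Vec (n + 3)) ≤ 5 / 12 := le_trans hz.1 (by norm_num)
    have h3 := (abs_le.1 (D5_tr (pol (1 + δ) z : Vec (n + 3)))).1
    have h4 := (D5_tρ hδ h2).2
    rw [O16_tr h1] at h3
    have h5 : 3 / 4 ≤ 1 + δ + z.2 0 := by linarith
    have h6 := Real.smoothTransition.nonneg (16 * tq δ (pol (1 + δ) z : Vec (n + 3)))
    have h7 : 0 ≤ (1 + δ + z.2 0) * (ε / 2 *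
        Real.smoothTransition (16 * tq δ (pol (1 + δ) z : Vec (n + 3)))) := by positivity
    have h8' : (1 - ε) * (1 + δ) / 2 ≤ 3 / 4 := by nlinarith
    have h9 : (1 - ε) * (1 + δ) / 2 * ‖z.2‖ ^ 2 ≤ (1 + δ + z.2 0) * ‖z.2‖ ^ 2 :=
      mul_le_mul_of_nonneg_right (h8'.trans h5) (sq_nonneg _)
    nlinarith
  · have hz : (θ, w) ∈ AD δ n := (AD_tube hδ h8 (θ, w) hw.le).1
    have h1 := AD_pos hδ hz
    have h2 := O16_main (ε := ε) hδ hz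
    have h3 := O16_tq hδ h1
    simp only at h1 h2 h3
    rw [h2]
    have h4 := Real.smoothTransition.nonneg (16 * tq δ (pol (1 + δ) (θ, w) : Vec (n + 3)))
    have h0 : 0 ≤ tq δ (pol (1 + δ) (θ, w) : Vec (n + 3)) := by
      unfold tq
      have := D5_sumnn δ (pol (1 + δ) (θ, w) : Vec (n + 3))
      positivity
    have h5 := hC2 (16 * tq δ (pol (1 + δ) (θ, w) : Vec (n + 3))) (by positivity)
    have h6 : (16 * tq δ (pol (1 + δ) (θ, w) : Vec (n + 3))) ^ 3 ≤ (64 / δ ^ 2 * ‖w‖ ^ 2) ^ 3 := by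
      refine pow_le_pow_left₀ (by positivity) ?_ 3
      calc 16 * tq δ (pol (1 + δ) (θ, w) : Vec (n + 3)) ≤ 16 * (4 * ‖w‖ ^ 2 / δ ^ 2) :=
            mul_le_mul_of_nonneg_left h3 (by norm_num)
        _ = 64 / δ ^ 2 * ‖w‖ ^ 2 := by ring
    have hw1 : ‖w‖ ≤ 1 := hz.2
    have hw0 := norm_nonneg w
    have h7 : (‖w‖ ^ 2) ^ 3 ≤ ‖w‖ ^ 3 := by
      calc (‖w‖ ^ 2) ^ 3 = ‖w‖ ^ 3 * ‖w‖ ^ 3 := by ring
        _ ≤ ‖w‖ ^ 3 * 1 := mul_le_mul_of_nonneg_left (pow_le_one₀ hw0 hw1) (by positivity)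
        _ = ‖w‖ ^ 3 := mul_one _
    have h8' : Real.smoothTransition (16 * tq δ (pol (1 + δ) (θ, w) : Vec (n + 3))) ≤
        C * (64 / δ ^ 2) ^ 3 * ‖w‖ ^ 3 := by
      refine h5.trans ?_
      calc C * (16 * tq δ (pol (1 + δ) (θ, w) : Vec (n + 3))) ^ 3
          ≤ C * (64 / δ ^ 2 * ‖w‖ ^ 2) ^ 3 := mul_le_mul_of_nonneg_left h6 hC.le
        _ = C * (64 / δ ^ 2) ^ 3 * (‖w‖ ^ 2) ^ 3 := by ring
        _ ≤ C * (64 / δ ^ 2) ^ 3 * ‖w‖ ^ 3 := mul_le_mul_of_nonneg_left h7 (by positivity)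
    have h9 := abs_le.1 (O16_abs w)
    have h10 : (1 + δ + w 0) * (ε / 2) ≤ 2 := by nlinarith [h9.2]
    have h11 : (1 - ε) * (1 + δ) + (1 + δ + w 0) * (‖w‖ ^ 2 +
        ε / 2 * Real.smoothTransition (16 * tq δ (pol (1 + δ) (θ, w) : Vec (n + 3)))) -
        ((1 - ε) * (1 + δ) + (1 + δ) * ‖w‖ ^ 2) = w 0 * ‖w‖ ^ 2 + (1 + δ + w 0) * (ε / 2) *
        Real.smoothTransition (16 * tq δ (pol (1 + δ) (θ, w) : Vec (n + 3))) := by ring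
    rw [h11]
    have h12 : |w 0 * ‖w‖ ^ 2| ≤ ‖w‖ ^ 3 := by
      rw [abs_mul, abs_of_nonneg (by positivity : (0 : ℝ) ≤ ‖w‖ ^ 2)]
      calc |w 0| * ‖w‖ ^ 2 ≤ ‖w‖ * ‖w‖ ^ 2 := mul_le_mul_of_nonneg_right (O16_abs w) (by positivity)
        _ = ‖w‖ ^ 3 := by ring
    have h13 : |(1 + δ + w 0) * (ε / 2) *
        Real.smoothTransition (16 * tq δ (pol (1 + δ) (θ, w) : Vec (n + 3)))| ≤
        2 * (C * (64 / δ ^ 2) ^ 3 * ‖w‖ ^ 3) := by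
      rw [abs_of_nonneg (by positivity)]
      exact mul_le_mul h10 h8' h4 (by norm_num)
    calc _ ≤ _ := abs_add_le _ _
      _ ≤ ‖w‖ ^ 3 + 2 * (C * (64 / δ ^ 2) ^ 3 * ‖w‖ ^ 3) := add_le_add h12 h13
      _ = _ := by ring

end EscW.On
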