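import Pool.Agent.EscW.FODefs2
import Pool.Agent.EscW.FN14
import Pool.Agent.EscW.O16
import Pool.Agent.EscW.O17

set_option autoImplicit false

/-!
Project EscW, part FO, module FO19: geometry of part D, with a step which vanishes near the curve.
`SfD = st (32 tq - 1)` is `0` for `tq ≤ 1/32` and `1` for `tq ≥ 1/16`. `shapeDf`: as `shapeD` (FN14): `Θ SfD` is smooth as `Θ StD`. `geoDf`: all fields are the ones of `geoD` (FN14) except `cv_S`, `path`, `bar_le`: `StD = st (16 tq) = 0` implies `tq ≤ 0`, so `SfD = 0`; for `qq < 1/16` the derivative of `bar` is zero, else `SfD = 1 ≥ StD` (`tq δ (em δ X) = qq X` on `SO`). `geoLD`: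
`𝒜 = AfD δ n`, `Λ = LfD δ`, `r = δ/18`, from `coverD`, `qq_LamD` (O17), `AD_closed`, `AD_per`, `AD_tube`, `AD_pos` (O16); `(1 + δ) • pol 1 z = pol (1 + δ) (z.1, (1 + δ) • z.2)`; `‖w‖ ≤ δ/18` gives `‖(1 + δ) • w‖ ≤ δ/16`. `smallA`: as `IsShape.supp`. `oneA`: `tq ≤ 1/3`. `S0`, `bar0`, `flat`: `tq, qq ≤ 5/256 < 1/32`.
(`maps`: `coverD.maps`, `TfD δ X = (X 0, (1+δ)⁻¹ • (TcD δ X).2)`.)
-/

noncomputable section

namespace EscW.Fo

open Filter Topology Set EscF.T EscM EscMT MeasureTheory EscW.Ex EscW.Dn EscW.On EscW.Ot EscW.Fn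
open scoped ContDiff

variable {d m k j n : ℕ}

/-! ### the shape -/

theorem FO19_ThS {δ : ℝ} (hδ : 0 < δ) (h8 : δ ≤ 1 / 8) :
    ContDiff ℝ ∞ (fun Y : Vec (n + 3) => ThD δ Y * SfD δ Y) := by
  have hst : ContDiff ℝ ∞ Real.smoothTransition := Real.smoothTransition.contDiff
  have h1 : ContDiff ℝ ∞ (fun x : ℝ => (1 - Real.smoothTransition (12 * x - 4)) *
      Real.smoothTransition (32 * x - 1)) :=
    (contDiff_const.sub (hst.comp ((contDiff_const.mul contDiff_id).sub contDiff_const))).mul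
      (hst.comp ((contDiff_const.mul contDiff_id).sub contDiff_const))
  have h2 := FN14_ext (n := n) hδ h8 h1 (fun x hx => by rw [FN14_st1 hx, zero_mul])
  exact h2.comp (contDiff_id.const_smul (1 + δ))

theorem shapeDf {δ : ℝ} (hδ : 0 < δ) (h8 : δ ≤ 1 / 8) {C0 : ℝ} (hC0 : 10 ≤ C0) :
    IsShape (ThD δ : Vec (n + 3) → ℝ) (SfD δ) C0 δ where
  smooth := FN14_Th hδ h8
  smooth' := FO19_ThS hδ h8
  mem01 := (shapeD hδ h8 hC0).mem01
  mem01' _ := ⟨Real.smoothTransition.nonneg _, Real.smoothTransition.le_one _⟩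
  supp := (shapeD hδ h8 hC0).supp
  off := (shapeD hδ h8 hC0).off

/-! ### the geometry -/

theorem FO19_Sf {δ : ℝ} (hδ : 0 < δ) (h8 : δ ≤ 1 / 8) (X : Vec (n + 3)) :
    SfD δ (pol 1 (TfD δ X)) = Real.smoothTransition (32 * qq X - 1) := by
  unfold SfD
  rw [pol_TfD hδ, tq_em hδ h8]

theorem FO19_S0 {δ : ℝ} (hδ : 0 < δ) (h8 : δ ≤ 1 / 8) {X : Vec (n + 3)} (h : qq X = 0) :
    SfD δ (pol 1 (TfD δ X)) = 0 := by
  rw [FO19_Sf hδ h8, h]
  exact Real.smoothTransition.zero_of_nonpos (by norm_num)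

/-- the derivative of the barrier is zero near the curve -/
theorem FO19_bar {X : Vec (n + 3)} (h : 16 * qq X < 1) (v : Vec (n + 3)) :
    fderiv ℝ (Dn.bar 1) X v = 0 := by
  obtain ⟨C', -, -, hz⟩ := st_deriv
  rw [D10_bar_fd, one_mul, hz _ (Or.inl (by linarith)), zero_mul]

theorem geoDf (n : ℕ) : ∃ C0 : ℝ, 10 ≤ C0 ∧ ∀ δ, 0 < δ → δ ≤ 1 / 8 →
    Geo (tor (n + 3)) (Dn.SO n) (Dn.SK n) 0 (TfD δ) cvD (ThD δ) (SfD δ) (Dn.bar 1) 0 nnD gaD (wpD δ) C0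
      δ := by
  obtain ⟨C0, hC0, hG⟩ := geoD n
  refine ⟨C0, hC0, fun δ hδ h8 => ?_⟩
  have G := hG δ hδ h8
  exact {
    isOpen := G.isOpen
    smooth := G.smooth
    fst := G.fst
    per := G.per
    small := G.small
    one := G.one
    inj := G.inj
    uniq := G.uniq
    cv_smooth := G.cv_smooth
    cv_mem := G.cv_mem
    cv_T := G.cv_T
    cv_per := G.cv_per
    cv_S := fun θ => by
      have h1 := FO19_S0 hδ h8 (D10_zero (X := (cvD θ : Vec (n + 3))) fun i h0 _ => FN14_cv θ h0).1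
      rwa [FN14_cvT] at h1
    closed := G.closed
    sub := G.sub
    periodic := G.periodic
    cv_K := G.cv_K
    bar_smooth := G.bar_smooth
    bar_cv := G.bar_cv
    bar_le := fun x hx v hv => by
      have hE : 0 ≤ eu (fderiv ℝ (TfD δ) x v) := Real.sqrt_nonneg _
      have hC : 0 ≤ C0 / δ := by positivity
      rw [FO19_Sf hδ h8]
      by_cases h : 16 * qq x < 1
      · rw [FO19_bar h]
        have h1 := Real.smoothTransition.nonneg (32 * qq x - 1)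
        exact mul_nonneg hC (mul_nonneg h1 hE)
      · rw [Real.smoothTransition.one_of_one_le (by linarith [not_lt.1 h])]
        refine (G.bar_le x hx v hv).trans (mul_le_mul_of_nonneg_left ?_ hC)
        exact mul_le_mul_of_nonneg_right (Real.smoothTransition.le_one _) hE
    exit := G.exit
    n_ne := G.n_ne
    lip := G.lip
    γ0 := G.γ0
    γ1 := G.γ1
    γK := G.γK
    γd := G.γd
    path := fun s hs => by
      refine ⟨(G.path s hs).1, ?_⟩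
      rw [zero_add]
      have h1 := FO19_S0 hδ h8 (D10_zero (X := (gaD s : Vec (n + 3))) fun i h0 h1 => FN14_ga s h0 h1).1
      rwa [FN14_gaT] at h1
    wp_smooth := G.wp_smooth
    wp_small := G.wp_small }

/-! ### the lift -/

theorem FO19_norm {δ : ℝ} (hδ : 0 < δ) (h8 : δ ≤ 1 / 8) {w : Vec (n + 2)} (hw : ‖w‖ < δ / 18) :
    ‖(1 + δ) • w‖ < δ / 16 := by
  rw [norm_smul, Real.norm_of_nonneg (by linarith : (0 : ℝ) ≤ 1 + δ)]
  have h0 := norm_nonneg w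
  calc (1 + δ) * ‖w‖ ≤ (9 / 8) * ‖w‖ := mul_le_mul_of_nonneg_right (by linarith) h0
    _ < (9 / 8) * (δ / 18) := mul_lt_mul_of_pos_left hw (by norm_num)
    _ = δ / 16 := by ring

theorem FO19_tq {δ : ℝ} (hδ : 0 < δ) (h8 : δ ≤ 1 / 8) {z : ℝ × Vec (n + 2)} (hz : ‖z.2‖ < δ / 18) :
    Dn.tq δ ((1 + δ) • pol 1 z) ≤ 5 / 256 := by
  have h1 := FO19_norm hδ h8 hz
  have h2 : Dn.em δ (LamD δ (z.1, (1 + δ) • z.2)) = (1 + δ) • pol 1 z := by
    rw [FN14_pol, ← O17_pol, O17_right (z := (z.1, (1 + δ) • z.2)) hδ h1]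
  rw [← h2, tq_em hδ h8]
  exact qq_LamD (z := (z.1, (1 + δ) • z.2)) hδ h8 h1

theorem FO19_qq {δ : ℝ} (hδ : 0 < δ) (h8 : δ ≤ 1 / 8) {X : Vec (n + 3)} (hX : ‖(TfD δ X).2‖ < δ / 18) :
    qq X ≤ 5 / 256 := by
  have h1 := FO19_tq hδ h8 hX
  rwa [pol_TfD hδ, tq_em hδ h8] at h1

theorem FO19_cv {δ : ℝ} (hδ : 0 < δ) (θ : ℝ) : (LfD δ (θ, 0) : Vec (n + 3)) = cvD θ := by
  have hz : ((1 + δ) • ((θ, (0 : Vec (n + 2))) : ℝ × Vec (n + 2)).2 : Vec (n + 2)) = 0 := smul_zero _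
  unfold LfD
  rw [hz]
  ext i
  refine Fin.cases ?_ (fun i => ?_) i
  · show θ = if (0 : Fin (n + 3)) = 0 then θ else 0
    rw [if_pos rfl]
  rw [FN14_cv θ (Fin.succ_ne_zero i)]
  refine Fin.cases ?_ (fun i => ?_) i
  · show Real.arctan ((0 : Vec (n + 2)) 1 / (δ + (0 : Vec (n + 2)) 0)) / (2 * Real.pi) = 0
    have h0 : (0 : Vec (n + 2)) 1 = 0 := rfl
    rw [h0, zero_div, Real.arctan_zero, zero_div]
  refine Fin.cases ?_ (fun i => ?_) i
  · show Real.arcsin (2 * (√((δ + (0 : Vec (n + 2)) 0) ^ 2 + (0 : Vec (n + 2)) 1 ^ 2) / δ - 1)) /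
      (2 * Real.pi) = 0
    have h0 : (0 : Vec (n + 2)) 0 = 0 := rfl
    have h1 : (0 : Vec (n + 2)) 1 = 0 := rfl
    rw [h0, h1]
    have h2 : √((δ + 0) ^ 2 + 0 ^ 2) = δ := by
      rw [add_zero, zero_pow (by norm_num), add_zero, Real.sqrt_sq hδ.le]
    rw [h2, div_self hδ.ne', sub_self, mul_zero, Real.arcsin_zero, zero_div]
  · show Real.arcsin ((0 : Vec (n + 2)) i.succ.succ / δ) / (2 * Real.pi) = 0
    have h0 : (0 : Vec (n + 2)) i.succ.succ = 0 := rfl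
    rw [h0, zero_div, Real.arcsin_zero, zero_div]

theorem AfD_pos {δ : ℝ} (hδ : 0 < δ) {z : ℝ × Vec (n + 2)} (hz : z ∈ AfD δ n) : 0 < 1 + z.2 0 := by
  have h1 : 0 < 1 + δ + (1 + δ) * z.2 0 := AD_pos hδ hz
  by_contra hc
  rw [not_lt] at hc
  nlinarith

theorem FO19_small {δ : ℝ} (hδ : 0 < δ) {z : ℝ × Vec (n + 2)} (hz : z ∈ AfD δ n) : ‖z.2‖ ≤ 3 * δ := by
  have h0 := AD_pos hδ hz
  have h1 : Dn.tq δ (pol (1 + δ) (z.1, (1 + δ) • z.2)) ≤ 5 / 12 := hz.1.trans (by norm_num)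
  have h2 := (D5_tQ hδ h1).2
  rw [FN14_tQ _ h0, norm_smul, Real.norm_of_nonneg (by linarith : (0 : ℝ) ≤ 1 + δ)] at h2
  have h4 : ‖z.2‖ ≤ (1 + δ) * ‖z.2‖ := by
    have := norm_nonneg z.2
    nlinarith
  have h5 : ((1 + δ) * ‖z.2‖) ^ 2 ≤ (3 * δ) ^ 2 := by nlinarith [sq_nonneg δ]
  have h6 : (1 + δ) * ‖z.2‖ ≤ 3 * δ := (abs_le_of_sq_le_sq' h5 (by positivity)).2
  linarith

theorem FO19_lin (δ : ℝ) : ContDiff ℝ 1 (fun z : ℝ × Vec (n + 2) => (z.1, (1 + δ) • z.2)) :=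
  contDiff_fst.prodMk (contDiff_snd.const_smul (1 + δ))

theorem geoLD {C0 δ : ℝ} (hC0 : 10 ≤ C0) (hδ : 0 < δ) (h8 : δ ≤ 1 / 8) :
    GeoL (tor (n + 3)) (Dn.SO n) (Dn.SK n) 0 (TfD δ) cvD (ThD δ) (SfD δ) (Dn.bar 1) C0 δ (AfD δ n)
      (LfD δ) (δ / 18) where
  r_pos := by positivity
  maps x hx := by
    show ((TfD δ x).1, (1 + δ) • (TfD δ x).2) ∈ AD δ n
    rw [FN14_Tf δ x (by linarith)]
    exact O17_maps hδ h8 hx.2
  closedA := (AD_closed δ n).preimage (FO19_lin δ).continuous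
  perA θ w := AD_per δ θ ((1 + δ) • w)
  tubeA z hz := by
    refine (AD_tube hδ h8 ((z.1, (1 + δ) • z.2) : ℝ × Vec (n + 2)) ?_).1
    show ‖(1 + δ) • z.2‖ ≤ δ / 16
    rw [norm_smul, Real.norm_of_nonneg (by linarith : (0 : ℝ) ≤ 1 + δ)]
    calc (1 + δ) * ‖z.2‖ ≤ (9 / 8) * (δ / 18) :=
          mul_le_mul (by linarith) hz (norm_nonneg _) (by norm_num)
      _ = δ / 16 := by ring
  smallA z hz := by
    have h1 := FO19_small hδ hz
    nlinarith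
  oneA z hz := by
    show 1 - Real.smoothTransition (12 * Dn.tq δ ((1 + δ) • pol 1 z) - 4) = 1
    have h1 : Dn.tq δ (pol (1 + δ) (z.1, (1 + δ) • z.2)) ≤ 1 / 3 := hz.1
    rw [FN14_pol, Real.smoothTransition.zero_of_nonpos (by linarith)]
    ring
  smooth := by
    have h0 : MapsTo (fun z : ℝ × Vec (n + 2) => ((z.1, (1 + δ) • z.2) : ℝ × Vec (n + 2)))
        {z | ‖z.2‖ < δ / 18} {z | ‖z.2‖ < δ / 16} := fun z hz => FO19_norm (w := z.2) hδ h8 hz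
    have h1 := (O17_smooth (n := n) hδ).comp ((FO19_lin (n := n) δ).contDiffOn) h0
    exact h1
  mem z hz := by
    have h1 := FO19_norm (w := z.2) hδ h8 hz
    have h2 : LamD δ (z.1, (1 + δ) • z.2) ∈ SO n := O17_mem (z := (z.1, (1 + δ) • z.2)) hδ h8 h1
    have h3 : qq (LamD δ (z.1, (1 + δ) • z.2)) ≤ 5 / 256 := qq_LamD (z := (z.1, (1 + δ) • z.2)) hδ h8 h1
    exact ⟨h3.trans (by norm_num), fun i h0 h1' => (h2.2 i h0 h1').le⟩
  right z hz := by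
    have h1 := FO19_norm (w := z.2) hδ h8 hz
    have h2 : TcD δ (LamD δ (z.1, (1 + δ) • z.2)) = (z.1, (1 + δ) • z.2) :=
      O17_right (z := (z.1, (1 + δ) • z.2)) hδ h1
    have h3 : TfD δ (LfD δ z) = ((TcD δ (LamD δ (z.1, (1 + δ) • z.2))).1,
        (1 + δ)⁻¹ • (TcD δ (LamD δ (z.1, (1 + δ) • z.2))).2) := rfl
    rw [h3, h2]
    refine Prod.ext rfl ?_
    show (1 + δ)⁻¹ • ((1 + δ) • z.2) = z.2
    rw [smul_smul, inv_mul_cancel₀ (by linarith), one_smul]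
  per θ w hw := (coverD hδ h8).per' θ ((1 + δ) • w) (FO19_norm hδ h8 hw)
  Λ_cv θ := FO19_cv hδ θ
  S0 z hz := by
    have h1 := FO19_tq hδ h8 hz
    exact Real.smoothTransition.zero_of_nonpos (by linarith)
  bar0 z hz := by
    have h1 : qq (LamD δ (z.1, (1 + δ) • z.2)) ≤ 5 / 256 :=
      qq_LamD (z := (z.1, (1 + δ) • z.2)) hδ h8 (FO19_norm (w := z.2) hδ h8 hz)
    unfold LfD
    unfold Dn.bar
    rw [Real.smoothTransition.zero_of_nonpos (by linarith), mul_zero]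
  flat x _ hT v _ := by
    have h1 := FO19_qq hδ h8 hT
    exact (FO19_bar (by linarith) v).le

end EscW.Fo
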