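import Pool.Agent.EscW.FO1
import Pool.Agent.EscW.OT2

set_option autoImplicit false

/-!
Project EscW, part FO, module FO2: fixed points which depend continuously on the time.
Copy of the proof of `gen_fix`, `fix_exists` (module OT2, `Pool/Agent/EscW/OT2.lean`) with `Ss μ` in place of `Sf α β` and `C0 = 3` in place of the constant of `Sf_bd`: the map has norm `≤ 3 (R/6 + b) ≤ R` and Lipschitz constant `≤ 3/6`.
-/

noncomputable section

namespace EscW.Fo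

open Filter Topology Set EscF.T EscM EscMT MeasureTheory EscW.Ex EscW.Dn EscW.On EscW.Ot EscW.Fn
open scoped ContDiff BoundedContinuousFunction

variable {d m k j n : ℕ}

/-- the complete space of the contraction mapping -/
def FO2_set (k : ℕ) (R : ℝ) : Set ((ℝ × ℝ) →ᵇ (Vec k × Vec k)) :=
  {f | (∀ t θ, f (t + 1, θ) = f (t, θ)) ∧ (∀ t θ, f (t, θ + 1) = f (t, θ)) ∧ ∀ y, ‖f y‖ ≤ R}

theorem FO2_closed (R : ℝ) : IsClosed (FO2_set k R) := by
  have hev : ∀ y : ℝ × ℝ, Continuous (fun f : (ℝ × ℝ) →ᵇ (Vec k × Vec k) => f y) := fun y =>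
    (BoundedContinuousFunction.lipschitz_eval_const y).continuous
  have h1 : IsClosed {f : (ℝ × ℝ) →ᵇ (Vec k × Vec k) | ∀ t θ, f (t + 1, θ) = f (t, θ)} := by
    simp only [setOf_forall]
    exact isClosed_iInter fun t => isClosed_iInter fun θ => isClosed_eq (hev _) (hev _)
  have h2 : IsClosed {f : (ℝ × ℝ) →ᵇ (Vec k × Vec k) | ∀ t θ, f (t, θ + 1) = f (t, θ)} := by
    simp only [setOf_forall]
    exact isClosed_iInter fun t => isClosed_iInter fun θ => isClosed_eq (hev _) (hev _)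
  have h3 : IsClosed {f : (ℝ × ℝ) →ᵇ (Vec k × Vec k) | ∀ y, ‖f y‖ ≤ R} := by
    simp only [setOf_forall]
    exact isClosed_iInter fun y => isClosed_le (hev _).norm continuous_const
  exact h1.inter (h2.inter h3)

theorem FO2_cont {M : ℝ → ℝ → Vec k × Vec k → Vec k × Vec k} {R : ℝ}
    (hM : ContinuousOn (fun y : ℝ × ℝ × (Vec k × Vec k) => M y.1 y.2.1 y.2.2) {y | ‖y.2.2‖ ≤ R})
    {f : (ℝ × ℝ) →ᵇ (Vec k × Vec k)} (hf : ∀ y, ‖f y‖ ≤ R) :
    Continuous (fun y : ℝ × ℝ => M y.1 y.2 (f (y.1, y.2))) := by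
  have h : Continuous (fun y : ℝ × ℝ => ((y.1, y.2, f (y.1, y.2)) : ℝ × ℝ × (Vec k × Vec k))) :=
    continuous_fst.prodMk (continuous_snd.prodMk (f.continuous.comp
      (continuous_fst.prodMk continuous_snd)))
  exact hM.comp_continuous h fun y => hf _

theorem FO2_slice {M : ℝ → ℝ → Vec k × Vec k → Vec k × Vec k} {R : ℝ}
    (hM : ContinuousOn (fun y : ℝ × ℝ × (Vec k × Vec k) => M y.1 y.2.1 y.2.2) {y | ‖y.2.2‖ ≤ R})
    {f : (ℝ × ℝ) →ᵇ (Vec k × Vec k)} (hf : ∀ y, ‖f y‖ ≤ R) (t : ℝ) :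
    Continuous (fun s : ℝ => M t s (f (t, s))) :=
  (FO2_cont hM hf).comp (continuous_const.prodMk continuous_id : Continuous fun s : ℝ => (t, s))

theorem genS_fix {μ : ℝ} (hμ : 0 < μ) (M : ℝ → ℝ → Vec k × Vec k → Vec k × Vec k) {R b : ℝ} (hR : 0 < R)
    (hM : ContinuousOn (fun y : ℝ × ℝ × (Vec k × Vec k) => M y.1 y.2.1 y.2.2) {y | ‖y.2.2‖ ≤ R})
    (hp : ∀ t θ y, ‖y‖ ≤ R → M (t + 1) θ y = M t θ y ∧ M t (θ + 1) y = M t θ y)
    (hl : ∀ t θ y y', ‖y‖ ≤ R → ‖y'‖ ≤ R → ‖M t θ y - M t θ y'‖ ≤ 1 / 6 * ‖y - y'‖)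
    (hb : ∀ t θ, ‖M t θ 0‖ ≤ b) (hbR : 6 * b ≤ R) :
    ∃ f : ℝ → ℝ → Vec k × Vec k, Continuous (fun y : ℝ × ℝ => f y.1 y.2) ∧ Per2 f ∧
      (∀ t θ, ‖f t θ‖ ≤ R) ∧ ∀ t θ, f t θ = Ss μ (fun s => M t s (f t s)) θ := by
  -- the bound of the nonlinearity
  have hMb : ∀ t θ y, ‖y‖ ≤ R → ‖M t θ y‖ ≤ 1 / 6 * R + b := by
    intro t θ y hy
    have h1 := hl t θ y 0 hy (by simpa using hR.le)
    have h2 : ‖M t θ y‖ ≤ ‖M t θ y - M t θ 0‖ + ‖M t θ 0‖ := by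
      simpa using norm_add_le (M t θ y - M t θ 0) (M t θ 0)
    rw [sub_zero] at h1
    have h3 := hb t θ
    linarith
  -- the image
  have hTb : ∀ f : (ℝ × ℝ) →ᵇ (Vec k × Vec k), (∀ y, ‖f y‖ ≤ R) → ∀ y : ℝ × ℝ,
      ‖Ss μ (fun s => M y.1 s (f (y.1, s))) y.2‖ ≤ R := by
    intro f hf y
    have h1 := Ss_bd hμ (f := fun s => M y.1 s (f (y.1, s))) (FO2_slice hM hf y.1)
      (b := 1 / 6 * R + b) (fun s => hMb _ _ _ (hf _)) y.2
    linarith
  let T0 : FO2_set k R → ((ℝ × ℝ) →ᵇ (Vec k × Vec k)) := fun f =>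
    BoundedContinuousFunction.ofNormedAddCommGroup
      (fun y : ℝ × ℝ => Ss μ (fun s => M y.1 s (f.1 (y.1, s))) y.2)
      (Ss_joint (F := fun t s => M t s (f.1 (t, s))) (FO2_cont hM f.2.2.2)) R (hTb f.1 f.2.2.2)
  have hT0 : ∀ (f : FO2_set k R) (y : ℝ × ℝ),
      T0 f y = Ss μ (fun s => M y.1 s (f.1 (y.1, s))) y.2 := fun f y => rfl
  have hmem : ∀ f : FO2_set k R, T0 f ∈ FO2_set k R := by
    intro f
    refine ⟨fun t θ => ?_, fun t θ => ?_, fun y => ?_⟩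
    · rw [hT0, hT0]
      congr 1
      funext s
      simp only
      rw [f.2.1 t s, (hp t s _ (f.2.2.2 _)).1]
    · rw [hT0, hT0]
      refine Ss_per (fun s => ?_) θ
      simp only
      rw [f.2.2.1 t s, (hp t s _ (f.2.2.2 _)).2]
    · rw [hT0]
      exact hTb f.1 f.2.2.2 y
  let T : FO2_set k R → FO2_set k R := fun f => ⟨T0 f, hmem f⟩
  haveI : CompleteSpace (FO2_set k R) := (FO2_closed R).completeSpace_coe
  haveI : Nonempty (FO2_set k R) := ⟨⟨0, fun _ _ => rfl, fun _ _ => rfl, fun y => by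
    simpa using hR.le⟩⟩
  have hcontr : ContractingWith (1 / 2 : NNReal) T := by
    refine ⟨by rw [← NNReal.coe_lt_coe]; norm_num, LipschitzWith.of_dist_le_mul fun f g => ?_⟩
    change dist (T0 f) (T0 g) ≤ _
    rw [BoundedContinuousFunction.dist_le (by positivity)]
    intro y
    rw [hT0, hT0, dist_eq_norm]
    have hlin := Ss_lin (μ := μ) (FO2_slice hM f.2.2.2 y.1) (FO2_slice hM g.2.2.2 y.1)
      (-1) y.2
    have hdf : ∀ s, ‖M y.1 s (f.1 (y.1, s)) + (-1 : ℝ) • M y.1 s (g.1 (y.1, s))‖ ≤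
        1 / 6 * dist f g := by
      intro s
      have h1 := hl y.1 s (f.1 (y.1, s)) (g.1 (y.1, s)) (f.2.2.2 _) (g.2.2.2 _)
      have h2 : ‖f.1 (y.1, s) - g.1 (y.1, s)‖ ≤ dist f g := by
        rw [← dist_eq_norm]
        exact BoundedContinuousFunction.dist_coe_le_dist (f := f.1) (g := g.1) (y.1, s)
      rw [neg_smul, one_smul, ← sub_eq_add_neg]
      linarith
    have hgc : Continuous (fun s : ℝ => (-1 : ℝ) • M y.1 s (g.1 (y.1, s))) :=
      (FO2_slice hM g.2.2.2 y.1).const_smul (-1 : ℝ)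
    have h3 := Ss_bd hμ (f := fun s => M y.1 s (f.1 (y.1, s)) + (-1 : ℝ) • M y.1 s (g.1 (y.1, s)))
      ((FO2_slice hM f.2.2.2 y.1).add hgc) hdf y.2
    rw [hlin, neg_smul, one_smul, ← sub_eq_add_neg] at h3
    refine h3.trans (le_of_eq ?_)
    rw [← mul_assoc]
    norm_num
  let F := hcontr.fixedPoint T
  have hF : T F = F := hcontr.fixedPoint_isFixedPt
  refine ⟨fun t θ => F.1 (t, θ), ?_, ⟨F.2.1, F.2.2.1⟩, fun t θ => F.2.2.2 _, fun t θ => ?_⟩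
  · exact F.1.continuous.comp (continuous_fst.prodMk continuous_snd)
  · have h1 : T0 F (t, θ) = F.1 (t, θ) := by
      have := congrArg (fun g : FO2_set k R => g.1 (t, θ)) hF
      exact this
    exact h1.symm.trans (hT0 F (t, θ))

theorem fixS_exists {μ : ℝ} (hμ : 0 < μ) {N : ℝ → ℝ → Vec k × Vec k → Vec k × Vec k} {r2 r3 : ℝ} (hN : NT N r2 r3 (1 / 6)) :
    ∃ f, FixS μ N r2 f := by
  obtain ⟨f, hc, hp, hb, hf⟩ := genS_fix hμ N (b := 1 / 6 * r2) hN.r2_pos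
    (hN.smooth.continuousOn.mono fun y hy => lt_of_le_of_lt hy hN.r23)
    (fun t θ y hy => ⟨hN.per_t t θ y (lt_of_le_of_lt hy hN.r23),
      hN.per_θ t θ y (lt_of_le_of_lt hy hN.r23)⟩)
    (fun t θ y y' hy hy' => hN.lip t θ y y' hy hy')
    hN.zero
    (by linarith)
  exact ⟨f, hc, hp.1, hp.2, hb, hf⟩

end EscW.Fo
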