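import Pool.Agent.EscW.O15
import Pool.Agent.EscW.G4

set_option autoImplicit false

/-!
Project EscW, part O, module O19: part G: base metric.
On `AG`: `tW = tw` (`tΘ = 1`: `20 tz - 3 ≥ 1`, `20 tu² - 16 ≤ 0`), `‖w‖ ≤ 1/4`, `tr (pol z) = 1 + w0 ≥ 3/4`. `hlow`: `(1 + w0) tw = (1 - ε) + tr ((tr - 1)² + ..) ≥ (1 - ε) + (3/4) ‖w‖²` (`‖w‖² = w0²` for `w : Vec 1`). `hW1`: `tW_bd`. Tube, `‖w‖ ≤ δ/16`: `tu = w0/δ`, `|tu| ≤ 1/16`, `tz ≥ (1 - 1/4)² = 9/16`, `4 tu² - 1 < 0`.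
`htay`: `= w0³ + (1 + w0) (ε/2) st (2 - 2 tz)`, `2 - 2 tz ≤ 2 - 2 (4 tu - 1)² ≤ 16 |tu| = 16 ‖w‖/δ`; `st` is monotone, `st_cube`.
-/

noncomputable section

namespace EscW.On

open Filter Topology Set EscF.T EscM EscMT MeasureTheory EscW.Ex EscW.Dn
open scoped ContDiff

variable {d m k j n : ℕ}

theorem O19_norm (w : Vec 1) : ‖w‖ = |w 0| := by
  rw [EuclideanSpace.norm_eq, Fin.sum_univ_one, Real.norm_eq_abs, Real.sqrt_sq (abs_nonneg _)]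

theorem O19_pol0 (z : ℝ × Vec 1) : pol 1 z 0 = (1 + z.2 0) * Real.cos (2 * Real.pi * z.1) := rfl

theorem O19_pol1 (z : ℝ × Vec 1) : pol 1 z 1 = (1 + z.2 0) * Real.sin (2 * Real.pi * z.1) := rfl

theorem O19_pos {z : ℝ × Vec 1} (hz : ‖z.2‖ ≤ 1 / 4) : 3 / 4 ≤ 1 + z.2 0 ∧ 1 + z.2 0 ≤ 5 / 4 := by
  rw [O19_norm] at hz
  have := abs_le.1 hz
  constructor <;> linarith [this.1, this.2]

theorem O19_tr {z : ℝ × Vec 1} (hz : ‖z.2‖ ≤ 1 / 4) : Gn.tr (pol 1 z) = 1 + z.2 0 := by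
  have h1 := (O19_pos hz).1
  have h2 : pol 1 z 0 ^ 2 + pol 1 z 1 ^ 2 = (1 + z.2 0) ^ 2 := by
    rw [O19_pol0, O19_pol1]
    have := Real.sin_sq_add_cos_sq (2 * Real.pi * z.1)
    linear_combination ((1 + z.2 0) ^ 2) * this
  unfold Gn.tr
  rw [h2, Real.sqrt_sq (by linarith)]

theorem O19_tu (δ : ℝ) {z : ℝ × Vec 1} (hz : ‖z.2‖ ≤ 1 / 4) : Gn.tu δ (pol 1 z) = z.2 0 / δ := by
  unfold Gn.tu
  rw [O19_tr hz]
  ring

theorem O19_tz (δ : ℝ) {z : ℝ × Vec 1} (hz : ‖z.2‖ ≤ 1 / 4) : Gn.tz δ (pol 1 z) =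
    (4 * (z.2 0 / δ) - 1) ^ 2 + Real.sin (2 * Real.pi * z.1) ^ 2 := by
  have h1 := (O19_pos hz).1
  have h2 : (1 + z.2 0) ≠ 0 := by linarith
  unfold Gn.tz
  rw [O19_tu δ hz, O19_tr hz, O19_pol1, mul_div_cancel_left₀ _ h2]

/-- the domain in coordinates -/
theorem O19_AG (δ : ℝ) : AG δ = {z : ℝ × Vec 1 |
    1 / 5 ≤ (4 * (z.2 0 / δ) - 1) ^ 2 + Real.sin (2 * Real.pi * z.1) ^ 2 ∧ (z.2 0 / δ) ^ 2 ≤ 4 / 5 ∧
      ‖z.2‖ ≤ 1 / 4} := by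
  ext z
  constructor
  · rintro ⟨h1, h2, h3⟩
    rw [O19_tz δ h3] at h1
    rw [O19_tu δ h3] at h2
    exact ⟨h1, h2, h3⟩
  · rintro ⟨h1, h2, h3⟩
    refine ⟨?_, ?_, h3⟩
    · rw [O19_tz δ h3]; exact h1
    · rw [O19_tu δ h3]; exact h2

theorem O19_tube {δ : ℝ} (hδ : 0 < δ) (h8 : δ ≤ 1 / 8) (z : ℝ × Vec 1) (hz : ‖z.2‖ ≤ δ / 16) :
    z ∈ AG δ ∧ 9 / 16 ≤ Gn.tz δ (pol 1 z) ∧ Gn.tu δ (pol 1 z) ^ 2 ≤ 1 / 256 := by
  have h3 : ‖z.2‖ ≤ 1 / 4 := by linarith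
  have h4 : |z.2 0| ≤ δ / 16 := by
    rw [← O19_norm]; exact hz
  have h5 := abs_le.1 h4
  have h6 : -(1 / 16) ≤ z.2 0 / δ ∧ z.2 0 / δ ≤ 1 / 16 := by
    constructor
    · rw [le_div_iff₀ hδ]; linarith [h5.1]
    · rw [div_le_iff₀ hδ]; linarith [h5.2]
  obtain ⟨h7, h8'⟩ := h6
  have hu : Gn.tu δ (pol 1 z) ^ 2 ≤ 1 / 256 := by
    rw [O19_tu δ h3]
    nlinarith
  have hzz : 9 / 16 ≤ Gn.tz δ (pol 1 z) := by
    rw [O19_tz δ h3]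
    have := sq_nonneg (Real.sin (2 * Real.pi * z.1))
    nlinarith
  exact ⟨⟨by linarith, by linarith, h3⟩, hzz, hu⟩

/-- the conformal factor on the domain -/
theorem O19_tW {δ ε : ℝ} {z : ℝ × Vec 1} (hz : z ∈ AG δ) : (1 + z.2 0) * Gn.tW δ ε (pol 1 z) =
    (1 - ε) + (1 + z.2 0) * (z.2 0 ^ 2 + ε / 2 * (Real.smoothTransition (2 - 2 * Gn.tz δ (pol 1 z)) +
      Real.smoothTransition (4 * Gn.tu δ (pol 1 z) ^ 2 - 1))) := by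
  obtain ⟨h1, h2, h3⟩ := hz
  have hΘ : Gn.tΘ δ (pol 1 z) = 1 := by
    unfold Gn.tΘ
    rw [Real.smoothTransition.one_of_one_le (x := 20 * Gn.tz δ (pol 1 z) - 3) (by linarith),
      Real.smoothTransition.zero_of_nonpos (x := 20 * Gn.tu δ (pol 1 z) ^ 2 - 16) (by linarith)]
    ring
  have h5 := (O19_pos h3).1
  have h6 : (1 + z.2 0) ≠ 0 := by linarith
  unfold Gn.tW
  rw [hΘ]
  unfold Gn.tw
  rw [O19_tr h3]
  field_simp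
  ring

theorem baseG {δ ε s : ℝ} (hδ : 0 < δ) (h8 : δ ≤ 1 / 8) (hε : 0 < ε) (hε4 : ε ≤ 1 / 4) (hδε : δ ≤ ε / 8)
    (hs : 0 < s) : AnnBase (Phm 1 s (Gn.tW δ ε)) (AG δ) (δ / 16) (Gn.ll ε s) (1 / 2) (s * (1 - 2 * ε))
      (s * (1 - ε) / (2 * Real.pi)) (4 * Real.pi * s) := by
  have h0 := base_of (j := 0) (R0 := 1) (s := s) (ε := ε) (r := δ / 16) (c := 1 / 2) (w0 := 1 - 2 * ε)
    (W := Gn.tW δ ε) (𝒜 := AG δ) ((Gn.tW_smooth hδ h8 ε).of_le (by norm_cast))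
    (fun Y => lt_of_lt_of_le (by linarith) (Gn.tW_bd hε hε4 hδ hδε Y).1) hs le_rfl (by norm_num) hε
    (by linarith) (by linarith) (by linarith) (by norm_num) (by linarith)
    (fun θ w hw => (O19_tube hδ h8 (θ, w) hw.le).1) (fun z hz => hz.2.2.trans (by norm_num)) ?_
    (fun z _ => (Gn.tW_bd hε hε4 hδ hδε _).1) ?_
  · have e1 : Gn.ll ε s = 2 * Real.pi * s * (1 - ε) * 1 := by
      unfold Gn.ll
      ring
    have e2 : 4 * Real.pi * s = 4 * Real.pi * s * 1 := by ring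
    have e3 : s * (1 - ε) / (2 * Real.pi) = s * (1 - ε) / (2 * Real.pi * 1) := by rw [mul_one]
    rw [e1, e2, e3]
    exact h0
  · intro z hz
    rw [O19_tW hz]
    obtain ⟨h3, h4⟩ := O19_pos hz.2.2
    rw [O19_norm, sq_abs]
    have s1 := Real.smoothTransition.nonneg (2 - 2 * Gn.tz δ (pol 1 z))
    have s2 := Real.smoothTransition.nonneg (4 * Gn.tu δ (pol 1 z) ^ 2 - 1)
    have s3 : 0 ≤ ε / 2 * (Real.smoothTransition (2 - 2 * Gn.tz δ (pol 1 z)) +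
      Real.smoothTransition (4 * Gn.tu δ (pol 1 z) ^ 2 - 1)) := mul_nonneg (by linarith) (by linarith)
    have s4 : (3 / 4) * z.2 0 ^ 2 ≤ (1 + z.2 0) * (z.2 0 ^ 2 +
        ε / 2 * (Real.smoothTransition (2 - 2 * Gn.tz δ (pol 1 z)) +
      Real.smoothTransition (4 * Gn.tu δ (pol 1 z) ^ 2 - 1))) :=
      mul_le_mul h3 (by linarith) (sq_nonneg _) (by linarith)
    have s5 := sq_nonneg (z.2 0)
    nlinarith
  · obtain ⟨C0, hC0, hst⟩ := st_cube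
    refine ⟨1 + C0 * (16 / δ) ^ 3, fun θ w hw => ?_⟩
    obtain ⟨hA, -, hu⟩ := O19_tube hδ h8 (θ, w) hw.le
    have h3 : ‖((θ, w) : ℝ × Vec 1).2‖ ≤ 1 / 4 := hA.2.2
    have e0 := O19_tW (ε := ε) hA
    obtain ⟨h5, h6⟩ := O19_pos h3
    have e1 : Real.smoothTransition (4 * Gn.tu δ (pol 1 (θ, w)) ^ 2 - 1) = 0 :=
      Real.smoothTransition.zero_of_nonpos (by linarith)
    rw [e1, add_zero] at e0
    have e2 : 2 - 2 * Gn.tz δ (pol 1 (θ, w)) ≤ 16 * |w 0| / δ := by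
      rw [O19_tz δ h3]
      have k1 := sq_nonneg (Real.sin (2 * Real.pi * θ))
      have k2 : w 0 / δ ≤ |w 0| / δ := div_le_div_of_nonneg_right (le_abs_self _) hδ.le
      have k3 := sq_nonneg (w 0 / δ)
      have k4 : 16 * |w 0| / δ = 16 * (|w 0| / δ) := by ring
      rw [k4]
      change 2 - 2 * ((4 * (w 0 / δ) - 1) ^ 2 + Real.sin (2 * Real.pi * θ) ^ 2) ≤ 16 * (|w 0| / δ)
      nlinarith
    have hnn : 0 ≤ 16 * |w 0| / δ := by positivity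
    have e3 : Real.smoothTransition (2 - 2 * Gn.tz δ (pol 1 (θ, w))) ≤ C0 * (16 * |w 0| / δ) ^ 3 :=
      (Real.smoothTransition.monotone e2).trans (hst _ hnn)
    have e4 := Real.smoothTransition.nonneg (2 - 2 * Gn.tz δ (pol 1 (θ, w)))
    set S := Real.smoothTransition (2 - 2 * Gn.tz δ (pol 1 (θ, w))) with hS
    have e5 : (1 + w 0) * Gn.tW δ ε (pol 1 (θ, w)) - ((1 - ε) * 1 + 1 * ‖w‖ ^ 2) =
        w 0 ^ 3 + (1 + w 0) * (ε / 2) * S := by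
      change (1 + w 0) * Gn.tW δ ε (pol 1 (θ, w)) = (1 - ε) + (1 + w 0) * (w 0 ^ 2 + ε / 2 * S) at e0
      rw [e0, O19_norm, sq_abs]
      ring
    change |(1 + w 0) * Gn.tW δ ε (pol 1 (θ, w)) - ((1 - ε) * 1 + 1 * ‖w‖ ^ 2)| ≤ _
    rw [e5]
    change 3 / 4 ≤ 1 + w 0 at h5
    change 1 + w 0 ≤ 5 / 4 at h6
    have e6 : 0 ≤ (1 + w 0) * (ε / 2) := mul_nonneg (by linarith) (by linarith)
    have e7 : (1 + w 0) * (ε / 2) ≤ 1 := by nlinarith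
    calc |w 0 ^ 3 + (1 + w 0) * (ε / 2) * S| ≤ |w 0 ^ 3| + |(1 + w 0) * (ε / 2) * S| := abs_add_le _ _
      _ = |w 0| ^ 3 + (1 + w 0) * (ε / 2) * S := by
          rw [abs_pow, abs_of_nonneg (mul_nonneg e6 e4)]
      _ ≤ |w 0| ^ 3 + 1 * (C0 * (16 * |w 0| / δ) ^ 3) := by
          have := mul_le_mul e7 e3 e4 zero_le_one
          linarith
      _ = (1 + C0 * (16 / δ) ^ 3) * ‖w‖ ^ 3 := by
          rw [O19_norm]
          ring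

theorem AG_closed (δ : ℝ) : IsClosed (AG δ) := by
  rw [O19_AG]
  have hc : Continuous fun z : ℝ × Vec 1 => z.2 0 :=
    ((EuclideanSpace.proj 0 : Vec 1 →L[ℝ] ℝ).continuous).comp continuous_snd
  have h1 : IsClosed {z : ℝ × Vec 1 |
      1 / 5 ≤ (4 * (z.2 0 / δ) - 1) ^ 2 + Real.sin (2 * Real.pi * z.1) ^ 2} := by
    refine isClosed_le continuous_const ?_
    exact (((continuous_const.mul (hc.div_const δ)).sub continuous_const).pow 2).add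
      ((Real.continuous_sin.comp (continuous_const.mul continuous_fst)).pow 2)
  have h2 : IsClosed {z : ℝ × Vec 1 | (z.2 0 / δ) ^ 2 ≤ 4 / 5} :=
    isClosed_le ((hc.div_const δ).pow 2) continuous_const
  have h3 : IsClosed {z : ℝ × Vec 1 | ‖z.2‖ ≤ 1 / 4} :=
    isClosed_le continuous_snd.norm continuous_const
  exact h1.inter (h2.inter h3)

theorem AG_per (δ θ : ℝ) (w : Vec 1) : (θ + 1, w) ∈ AG δ ↔ (θ, w) ∈ AG δ := by
  unfold AG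
  simp only [mem_ofPred_eq]
  rw [pol_per]

theorem AG_tube {δ : ℝ} (hδ : 0 < δ) (h8 : δ ≤ 1 / 8) (z : ℝ × Vec 1) (hz : ‖z.2‖ ≤ δ / 16) :
    z ∈ AG δ ∧ 9 / 16 ≤ Gn.tz δ (pol 1 z) ∧ Gn.tu δ (pol 1 z) ^ 2 ≤ 1 / 256 := by
  exact O19_tube hδ h8 z hz

theorem AG_pos {δ : ℝ} {z : ℝ × Vec 1} (hz : z ∈ AG δ) : 0 < 1 + z.2 0 := by
  linarith [(O19_pos hz.2.2).1]

end EscW.On
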