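import Pool.Agent.EscW.FODefs2
import Pool.Agent.EscW.FN15
import Pool.Agent.EscW.O19
import Pool.Agent.EscW.O20

set_option autoImplicit false

/-!
Project EscW, part FO, module FO20: geometry of part G, with a step which vanishes near the curve.
`SfG = 1 - (1 - st (9 - 16 tz)) (1 - st (4 tu² - 1))`: zero for `tz ≥ 9/16`, `tu² ≤ 1/4`; one for `tz ≤ 1/2` or `tu² ≥ 1/2`. `shapeGf`: as `shapeG` (FN15). `geoGf`: all fields are the ones of `geoG` (FN15) except `cv_S`, `path`, `bar_le`: on the curves `tz ≥ 1` (`G7_qz`) and `tu² ≤ 1/4`; where the derivative of `bar = st (2 - 4 qz) + st (4 uu² - 2)` is nonzero, `qz < 1/2` or `uu² > 1/2`, so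
`SfG = 1 ≥ StG` (`tz_em`, `tu_em`). `geoLG`: `𝒜 = AG δ`, `Λ = LamG δ`, `r = δ/16`, from `coverG`, `LamG_vals` (O20), `AG_closed`, `AG_per`, `AG_tube`, `AG_pos` (O19). `smallA`: `tu² ≤ 4/5`, `tr = 1 + z.2 0`. `oneA`: `tz ≥ 1/5`, `tu² ≤ 4/5`. `S0`, `bar0`, `flat`: `tz ≥ 9/16`, `tu² ≤ 1/256`. `Λ_cv`: `LamG δ (θ, 0) = cvG θ`.
-/

noncomputable section

namespace EscW.Fo

open Filter Topology Set EscF.T EscM EscMT MeasureTheory EscW.Ex EscW.Dn EscW.On EscW.Ot EscW.Fn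
open scoped ContDiff

variable {d m k j n : ℕ}

/-! ### the shape -/

theorem FO20_at {δ : ℝ} {Y : Vec 2} (hpos : 0 < Gn.tr Y) : ContDiffAt ℝ ∞ (SfG δ) Y := by
  have htr := Gn.G4_tr_at hpos
  have htr0 : Gn.tr Y ≠ 0 := hpos.ne'
  have htu : ContDiffAt ℝ ∞ (Gn.tu δ) Y := (htr.sub contDiffAt_const).div_const δ
  have hst : ContDiff ℝ ∞ Real.smoothTransition := Real.smoothTransition.contDiff
  have hc1 : ContDiffAt ℝ ∞ (fun Y : Vec 2 => Y 1) Y := (Gn.G4_coord 1).contDiffAt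
  have htz : ContDiffAt ℝ ∞ (Gn.tz δ) Y :=
    (((contDiffAt_const.mul htu).sub contDiffAt_const).pow 2).add ((hc1.div htr htr0).pow 2)
  have hs : ∀ g : Vec 2 → ℝ, ContDiffAt ℝ ∞ g Y →
      ContDiffAt ℝ ∞ (fun Z => Real.smoothTransition (g Z)) Y := fun g hg =>
    hst.contDiffAt.comp Y hg
  refine contDiffAt_const.sub ((contDiffAt_const.sub (hs _ ?_)).mul (contDiffAt_const.sub (hs _ ?_)))
  · exact contDiffAt_const.sub (contDiffAt_const.mul htz)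
  · exact (contDiffAt_const.mul (htu.pow 2)).sub contDiffAt_const

theorem shapeGf {δ : ℝ} (hδ : 0 < δ) (h8 : δ ≤ 1 / 8) {C0 : ℝ} (hC0 : 10 ≤ C0) :
    IsShape (Gn.tΘ δ) (SfG δ) C0 δ := by
  have hn := Real.smoothTransition.nonneg
  have hl := Real.smoothTransition.le_one
  have h0 := shapeG hδ h8 hC0
  refine ⟨h0.smooth, ?_, h0.mem01, ?_, h0.supp, h0.off⟩
  · refine FN15_smooth hδ h8 (fun Y h => ?_) fun Y h => (FN15_at h).1.mul (FO20_at h)
    show Gn.tΘ δ Y * SfG δ Y = 0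
    rw [h, zero_mul]
  · intro Y
    have a1 := hn (9 - 16 * Gn.tz δ Y)
    have a2 := hl (9 - 16 * Gn.tz δ Y)
    have b1 := hn (4 * Gn.tu δ Y ^ 2 - 1)
    have b2 := hl (4 * Gn.tu δ Y ^ 2 - 1)
    unfold SfG
    have c1 : 0 ≤ (1 - Real.smoothTransition (9 - 16 * Gn.tz δ Y)) *
        (1 - Real.smoothTransition (4 * Gn.tu δ Y ^ 2 - 1)) := mul_nonneg (by linarith) (by linarith)
    have c2 : (1 - Real.smoothTransition (9 - 16 * Gn.tz δ Y)) *
        (1 - Real.smoothTransition (4 * Gn.tu δ Y ^ 2 - 1)) ≤ 1 :=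
      mul_le_one₀ (by linarith) (by linarith) (by linarith)
    constructor <;> linarith

theorem FO20_St {δ : ℝ} (hδ : 0 < δ) (h8 : δ ≤ 1 / 8) (x : Vec 3) : SfG δ (Gn.em δ x) =
    1 - (1 - Real.smoothTransition (9 - 16 * Gn.qz x)) * (1 - Real.smoothTransition (4 * Gn.uu x ^ 2 - 1)) := by
  unfold SfG
  rw [Gn.tz_em hδ h8, Gn.tu_em hδ h8]

/-! ### the barrier -/

theorem FO20_bar_le {δ C : ℝ} (hδ : 0 < δ) (h8 : δ ≤ 1 / 8) (hC : 0 < C)
    (hC0 : ∀ t, |deriv Real.smoothTransition t| ≤ C)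
    (hz : ∀ t, t < 0 ∨ 1 < t → deriv Real.smoothTransition t = 0) (x v : Vec 3) :
    fderiv ℝ (Gn.bar 1) x v ≤ 288 * C / δ * (SfG δ (pol 1 (TcG δ x)) * eu (fderiv ℝ (TcG δ) x v)) := by
  have hS := Real.sqrt_nonneg (Gn.mn δ x v)
  have he := FN15_eu_nonneg (fderiv ℝ (TcG δ) x v)
  have hme := FN15_eu hδ h8 x v
  have hSt := (shapeGf hδ h8 le_rfl).mem01' (Gn.em δ x)
  rw [pol_TcG, Gn.G7_bar_fd, one_mul]
  have key : ∀ X : ℝ, X ≤ 36 * C / δ * √(Gn.mn δ x v) → SfG δ (Gn.em δ x) = 1 →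
      X ≤ 288 * C / δ * (SfG δ (Gn.em δ x) * eu (fderiv ℝ (TcG δ) x v)) := by
    intro X hX hst
    rw [hst, one_mul]
    refine hX.trans ?_
    have h1 : 36 * C / δ * √(Gn.mn δ x v) ≤ 36 * C / δ * (8 * eu (fderiv ℝ (TcG δ) x v)) :=
      mul_le_mul_of_nonneg_left hme (by positivity)
    refine h1.trans (le_of_eq ?_)
    ring
  by_cases h1 : 2 - 4 * Gn.qz x < 0 ∨ 1 < 2 - 4 * Gn.qz x
  · rw [hz _ h1, zero_mul, zero_add]
    by_cases h2 : 4 * Gn.uu x ^ 2 - 2 < 0 ∨ 1 < 4 * Gn.uu x ^ 2 - 2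
    · rw [hz _ h2, zero_mul]
      exact mul_nonneg (by positivity) (mul_nonneg hSt.1 he)
    · push Not at h2
      apply key
      · refine (le_abs_self _).trans ?_
        rw [abs_mul, abs_mul, abs_of_pos (by norm_num : (0 : ℝ) < 4)]
        have h3 : |deriv Real.smoothTransition (4 * Gn.uu x ^ 2 - 2)| * (4 * |2 * Gn.uu x * fderiv ℝ Gn.uu x v|) ≤
            C * (4 * (2 / δ * √(Gn.mn δ x v))) :=
          mul_le_mul (hC0 _) (mul_le_mul_of_nonneg_left (Gn.G7_duu2_le hδ x v) (by norm_num))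
            (by positivity) hC.le
        refine h3.trans ?_
        have e1 : C * (4 * (2 / δ * √(Gn.mn δ x v))) = 8 * (C / δ * √(Gn.mn δ x v)) := by ring
        have e2 : 36 * C / δ * √(Gn.mn δ x v) = 36 * (C / δ * √(Gn.mn δ x v)) := by ring
        rw [e1, e2]
        have : 0 ≤ C / δ * √(Gn.mn δ x v) := by positivity
        linarith
      · rw [FO20_St hδ h8, Real.smoothTransition.one_of_one_le (x := 4 * Gn.uu x ^ 2 - 1) (by linarith [h2.1])]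
        ring
  · push Not at h1
    have hq : Gn.qz x ≤ 1 / 2 := by linarith [h1.1]
    have h2 : 4 * Gn.uu x ^ 2 - 2 < 0 := by
      have h3 : (4 * Gn.uu x - 1) ^ 2 ≤ 1 / 2 := by
        unfold Gn.qz at hq
        nlinarith [sq_nonneg (Real.sin (2 * Real.pi * x 0))]
      nlinarith [sq_nonneg (4 * Gn.uu x - 2)]
    rw [hz _ (Or.inl h2), zero_mul, add_zero]
    apply key
    · refine (le_abs_self _).trans ?_
      rw [abs_mul, abs_mul, abs_neg, abs_of_pos (by norm_num : (0 : ℝ) < 4)]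
      have h3 : |deriv Real.smoothTransition (2 - 4 * Gn.qz x)| * (4 * |fderiv ℝ Gn.qz x v|) ≤
          C * (4 * (9 / δ * √(Gn.mn δ x v))) :=
        mul_le_mul (hC0 _) (mul_le_mul_of_nonneg_left (Gn.G7_dqz_le hδ h8 hq v) (by norm_num))
          (by positivity) hC.le
      refine h3.trans (le_of_eq ?_)
      ring
    · rw [FO20_St hδ h8, Real.smoothTransition.one_of_one_le (x := 9 - 16 * Gn.qz x) (by linarith)]
      ring

theorem FO20_flat {x : Vec 3} (h1 : 9 / 16 ≤ Gn.qz x) (h2 : Gn.uu x ^ 2 ≤ 1 / 256) (v : Vec 3) :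
    fderiv ℝ (Gn.bar 1) x v = 0 := by
  obtain ⟨C, hC, hC1, hz⟩ := st_deriv
  rw [Gn.G7_bar_fd, hz _ (Or.inl (by linarith)), hz _ (Or.inl (by linarith))]
  ring

theorem geoGf : ∃ C0 : ℝ, 10 ≤ C0 ∧ ∀ δ, 0 < δ → δ ≤ 1 / 8 → ∀ M' : Sub 3, M'.N = {x | Gn.Fe x = 0} →
    Geo M' Gn.SO Gn.SK 0 (TcG δ) cvG (Gn.tΘ δ) (SfG δ) (Gn.bar 1) (-(1 / 2)) nnG Gn.dd (wpG δ) C0 δ := by
  obtain ⟨C, hC, hC1, hz⟩ := st_deriv
  obtain ⟨C0, h10, hg⟩ := geoG
  refine ⟨max C0 (288 * C), h10.trans (le_max_left _ _), fun δ hδ h8 M' hM => ?_⟩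
  set C1 := max C0 (288 * C) with hC1'
  have h01 : C0 ≤ C1 := le_max_left _ _
  have h101 : 10 ≤ C1 := h10.trans h01
  have h := hg δ hδ h8 M' hM
  have hle : C0 * δ ≤ C1 * δ := mul_le_mul_of_nonneg_right h01 hδ.le
  have hSt := shapeGf hδ h8 h101
  refine ⟨h.isOpen, h.smooth, h.fst, h.per, fun x hx => (h.small x hx).trans hle, h.one, h.inj, h.uniq,
    h.cv_smooth, h.cv_mem, h.cv_T, h.cv_per, ?_, h.closed, h.sub, h.periodic, h.cv_K,
    h.bar_smooth, h.bar_cv, ?_, h.exit, h.n_ne, h.lip, h.γ0, h.γ1, h.γK, h.γd, ?_, h.wp_smooth,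
    fun s => ⟨(h.wp_small s).1.trans hle, (h.wp_small s).2.trans hle⟩⟩
  · intro θ
    rw [← h.cv_T θ, pol_TcG, FO20_St hδ h8, FN15_cv_uu,
      Real.smoothTransition.zero_of_nonpos (x := 9 - 16 * Gn.qz (cvG θ)) (by linarith [FN15_cv_qz θ]),
      Real.smoothTransition.zero_of_nonpos (x := 4 * (0 : ℝ) ^ 2 - 1) (by norm_num)]
    ring
  · intro x _ v _
    refine (FO20_bar_le hδ h8 hC hC1 hz x v).trans ?_
    have h1 : 0 ≤ SfG δ (pol 1 (TcG δ x)) * eu (fderiv ℝ (TcG δ) x v) :=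
      mul_nonneg (hSt.mem01' _).1 (FN15_eu_nonneg _)
    apply mul_le_mul_of_nonneg_right _ h1
    exact div_le_div_of_nonneg_right (le_max_right _ _) hδ.le
  · intro s hs
    have e1 := (h.path s hs).1
    refine ⟨e1, ?_⟩
    obtain ⟨hy0, hy1⟩ := Gn.G7_y_bd s
    rw [← e1, pol_TcG, FO20_St hδ h8, Gn.G7_qz, Gn.G7_uu,
      Real.smoothTransition.zero_of_nonpos (x := 9 - 16 * (1 : ℝ)) (by norm_num),
      Real.smoothTransition.zero_of_nonpos (x := 4 * Gn.G7_y s ^ 2 - 1) (by nlinarith)]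
    ring

theorem geoLG {C0 δ : ℝ} (hC0 : 10 ≤ C0) (hδ : 0 < δ) (h8 : δ ≤ 1 / 8) {M' : Sub 3}
    (hM : M'.N = {x | Gn.Fe x = 0}) :
    GeoL M' Gn.SO Gn.SK 0 (TcG δ) cvG (Gn.tΘ δ) (SfG δ) (Gn.bar 1) C0 δ (AG δ) (LamG δ) (δ / 16) := by
  have hcov := coverG hM hδ h8
  refine ⟨by positivity, hcov.maps, AG_closed δ, AG_per δ, fun z hz => (AG_tube hδ h8 z hz).1, ?_, ?_,
    hcov.smooth', fun z hz => (LamG_vals hδ h8 hz).1, hcov.right, hcov.per', fun θ => (FN15_cv δ θ).symm,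
    ?_, ?_, ?_⟩
  · -- smallA
    intro z hz
    have hp := AG_pos hz
    obtain ⟨-, h2, -⟩ := hz
    unfold Gn.tu at h2
    rw [FN15_tr hp] at h2
    have h3 : |(1 + z.2 0 - 1) / δ| ≤ 1 := by
      rw [← sq_le_one_iff_abs_le_one]
      linarith
    rw [abs_div, abs_of_pos hδ, div_le_one hδ] at h3
    have h4 : 1 + z.2 0 - 1 = z.2 0 := by ring
    rw [h4] at h3
    rw [FN15_norm1]
    nlinarith
  · -- oneA
    intro z hz
    obtain ⟨h1, h2, -⟩ := hz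
    unfold Gn.tΘ
    rw [Real.smoothTransition.one_of_one_le (x := 20 * Gn.tz δ (pol 1 z) - 3) (by linarith),
      Real.smoothTransition.zero_of_nonpos (x := 20 * Gn.tu δ (pol 1 z) ^ 2 - 16) (by linarith)]
    ring
  · -- S0
    intro z hz
    obtain ⟨-, h1, h2⟩ := AG_tube hδ h8 z hz.le
    unfold SfG
    rw [Real.smoothTransition.zero_of_nonpos (x := 9 - 16 * Gn.tz δ (pol 1 z)) (by linarith),
      Real.smoothTransition.zero_of_nonpos (x := 4 * Gn.tu δ (pol 1 z) ^ 2 - 1) (by linarith)]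
    ring
  · -- bar0
    intro z hz
    obtain ⟨-, h1, h2⟩ := LamG_vals hδ h8 hz
    unfold Gn.bar
    rw [Real.smoothTransition.zero_of_nonpos (x := 2 - 4 * Gn.qz (LamG δ z)) (by linarith),
      Real.smoothTransition.zero_of_nonpos (x := 4 * Gn.uu (LamG δ z) ^ 2 - 2) (by linarith)]
    norm_num
  · -- flat
    intro x _ hx v _
    obtain ⟨-, h1, h2⟩ := AG_tube hδ h8 (TcG δ x) hx.le
    rw [pol_TcG, Gn.tz_em hδ h8] at h1
    rw [pol_TcG, Gn.tu_em hδ h8] at h2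
    exact (FO20_flat h1 h2 v).le

end EscW.Fo
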