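import Pool.Agent.EscW.FODefs
import Pool.Agent.EscW.FN13
import Pool.Agent.EscW.FN14

set_option autoImplicit false

/-!
Project EscW, part FO, module FO21: auxiliary facts.
`close_self`: the difference is zero. `conf_ext`: `On.ext M (fun x v => w x t * F x v t) (x, v) = w (M.r x) t * On.ext M (F t) (x, v)`; products of smooth functions (`IsConfT.smooth`, `IsSmoothFinslerT.smooth`; `z.1 ∈ TD M` gives `z.1.1 ∈ M.U`).
-/

noncomputable section

namespace EscW.Fo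

open Filter Topology Set EscF.T EscM EscMT MeasureTheory EscW.Ex EscW.Dn EscW.On EscW.Ot EscW.Fn
open scoped ContDiff

variable {d m k j n : ℕ}

theorem conf_ext {M : Sub d} {W0 : Set (Vec d)} {ε : ℝ} {w : Vec d → ℝ → ℝ} (hw : IsConfT M W0 ε w)
    {F : Vec d → Vec d → ℝ → ℝ} (hF : IsSmoothFinslerT M W0 F) :
    ContDiffOn ℝ ∞ (fun z : (Vec d × Vec d) × ℝ => On.ext M (fun x v => w x z.2 * F x v z.2) z.1)
      {z | z.1 ∈ TD M ∧ ∃ l : Fin d → ℤ, M.r z.1.1 + vz l ∈ W0} := by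
  have h1 : ContDiffOn ℝ ∞ (fun z : (Vec d × Vec d) × ℝ => w (M.r z.1.1) z.2)
      {z | z.1 ∈ TD M ∧ ∃ l : Fin d → ℤ, M.r z.1.1 + vz l ∈ W0} := by
    have hg : ContDiff ℝ ∞ (fun z : (Vec d × Vec d) × ℝ => (z.1.1, z.2)) :=
      (contDiff_fst.comp contDiff_fst).prodMk contDiff_snd
    exact hw.smooth.comp hg.contDiffOn (fun z hz => hz.1.1)
  exact h1.mul hF.smooth

theorem close_self {M : Sub d} {W0 : Set (Vec d)} {R δ : ℝ} (hδ : 0 ≤ δ) {F : Vec d → Vec d → ℝ → ℝ}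
    (hF : ContDiffOn ℝ 2 (fun z : (Vec d × Vec d) × ℝ => On.ext M (fun x v => F x v z.2) z.1)
      {z | z.1 ∈ TD M ∧ ∃ l : Fin d → ℤ, M.r z.1.1 + vz l ∈ W0}) : Close2F M W0 R δ F F := by
  refine ⟨hF, ?_⟩
  intro t x _ _ v _ _ _ i _
  have h0 : (fun z : Vec d × Vec d => On.ext M (fun x v => F x v t) z - On.ext M (fun x v => F x v t) z) =
      fun _ => (0 : ℝ) := by
    funext z
    exact sub_self _
  rw [h0]
  have h2 : iteratedFDeriv ℝ i (fun _ : Vec d × Vec d => (0 : ℝ)) (x, v) = 0 := by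
    have := iteratedFDeriv_fun_zero (𝕜 := ℝ) (E := Vec d × Vec d) (F := ℝ) (n := i)
    exact congrFun this (x, v)
  rw [h2, norm_zero]
  exact hδ

end EscW.Fo
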