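import Pool.Agent.EscW.LL0
import Pool.Agent.EscW.FO17
import Pool.Agent.EscW.FO18
import Pool.Agent.EscW.FO19
import Pool.Agent.EscW.FO21
import Pool.Agent.EscW.FN10
import Pool.Agent.EscW.FN11
import Pool.Agent.EscW.FN12
import Pool.Agent.EscW.FN13
import Pool.Agent.EscW.FN14
import Pool.Agent.EscW.FN16
import Pool.Agent.EscW.CF7
import Pool.Agent.EscW.OT12
import Pool.Agent.EscW.D4
import Pool.Agent.EscW.E5

set_option autoImplicit false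

/-!
Project EscW, part FO, module FO22: dimension at least three.
As FN16 (`dense_dim3`; read it). `finrank = n + 3`, `exists_mchart` (E5): `W ⊆ W0`, `ρ`, `g`, `g'`. `s > 0` with `s * 2 < ρ` and `s (emB n) ≤ ρ/2`. `Φ` of `locFin_of` (`j = n + 1`), `ε1 = min (1/4) (ε/2)`, `C0` of `geoDf n`, `K`, `δ1` of `abs_fo`, `δ' = min δ1 (1/8)`. `w = wMt W s g' (Wf Φ K ε1 (ThD δ') (SfD δ'))` (`Fn.Wf`; `Wf_smooth`, `Wf_per`, `Wf_one`, `Wf_bd`, `wMt_conf`, with `shapeDf`).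
`abs_fo` with `𝒜 = AfD δ' n`, `Λ = LfD δ'`, `r = δ'/18` (`geoDf`, `geoLD`): `η`. `transferF` with `Fb = w F` (`conf_fins`, `conf_ext`), `Pj z = g (s • pol 1 z)`, `V = {z | ‖z.2‖ < 9/10 ∧ 0 < 1 + z.2 0}` or similar with `‖pol 1 z‖ < 2`, `Φ0 = Ps Φ K ε1 (SfD δ')`: on `𝒜` (`oneA`, `AfD_pos`, `smallA` with `C0 δ' ≤ 1/2`) by `wMt_at`, `Wf_pol`. Note that `NearP` uses `Φ0` only at points of `𝒜`.
`φ = Pj ∘ TfD` and `IsChart`, `hφ` as in FN16 (`pol_TfD`). `F x v t := pull φ F' x v t = Ψ t (T x) (fderiv T x v)`. `inClassIn_of` (LL0): the additional condition `Ov W0 (φ x)` holds since `φ x = g (s • ..) ∈ W ⊆ W0` (`l = 0`).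
-/

noncomputable section

namespace EscW.Fo

open Filter Topology Set EscF.T EscM EscMT MeasureTheory EscW.Ex EscW.Dn EscW.On EscW.Ot EscW.Fn
open scoped ContDiff

variable {d m k j n : ℕ}

theorem open_dim3 {M : Sub d} {y0 : Vec d} (hy : y0 ∈ M.N)
    (hdim : 3 ≤ Module.finrank ℝ (LinearMap.range (fderiv ℝ M.r y0 : Vec d →ₗ[ℝ] Vec d)))
    {W0 : Set (Vec d)} (hW : IsOpen W0) (hy0 : y0 ∈ W0) {F : Vec d → Vec d → ℝ → ℝ}
    (hF : IsSmoothFinslerT M W0 F) {ε : ℝ} (hε : 0 < ε) :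
    ∃ w : Vec d → ℝ → ℝ, IsConfT M W0 ε w ∧ ∃ R δ : ℝ, 0 < R ∧ 0 < δ ∧
      ∀ F' : Vec d → Vec d → ℝ → ℝ, IsFinslerT M F' →
        Close2F M W0 R δ (fun x v t => w x t * F x v t) F' → ∀ κ : ℝ → ℝ, IsWeight κ → ∀ L : Lag d,
          IsNearT M κ F' L → Lo.InClassIn M W0 L := by
  obtain ⟨n, hn⟩ := Nat.exists_eq_add_of_le' hdim
  obtain ⟨W, ρ, g, g', hWW, hg⟩ := exists_mchart hy hn hW hy0
  have hρ := hg.pos
  have hemB : 4 ≤ emB n := by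
    unfold emB
    have : (0:ℝ) ≤ n := Nat.cast_nonneg n
    linarith
  -- the scale
  obtain ⟨s, hs, hs2, hsB⟩ : ∃ s : ℝ, 0 < s ∧ s * 2 < ρ ∧ s * emB n ≤ ρ / 2 := by
    refine ⟨ρ / (2 * emB n), by positivity, ?_, ?_⟩
    · rw [div_mul_eq_mul_div, div_lt_iff₀ (by positivity)]
      nlinarith
    · rw [div_mul_eq_mul_div, div_le_iff₀ (by positivity)]
      linarith
  have hΦ := locFin_of (j := n + 1) hF hWW hg hs hs2
  set Φ : ℝ → ℝ × Vec (n + 1 + 1) → ℝ × Vec (n + 1 + 1) → ℝ := fun t z ζ =>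
    F (g (s • pol 1 z)) (fderiv ℝ (fun z => g (s • pol 1 z)) z ζ) t with hΦd
  obtain ⟨ε1, hε1, hε14, hε2⟩ : ∃ ε1 : ℝ, 0 < ε1 ∧ ε1 ≤ 1 / 4 ∧ 2 * ε1 ≤ ε :=
    ⟨min (1 / 4) (ε / 2), lt_min (by norm_num) (by positivity), min_le_left _ _, by
      have := min_le_right (1 / 4) (ε / 2)
      linarith⟩
  obtain ⟨C0, hC0, hgeo⟩ := geoDf n
  have hC0p : 0 < C0 := by linarith
  obtain ⟨K, δ1, -, hδ1, hcfs, habs⟩ := abs_fo (d := d) hΦ hε1 hε14 hC0p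
  obtain ⟨δ, hδ, hδle2, h8⟩ : ∃ δ : ℝ, 0 < δ ∧ δ ≤ δ1 / 2 ∧ δ ≤ 1 / 8 :=
    ⟨min (δ1 / 2) (1 / 8), lt_min (by positivity) (by norm_num), min_le_left _ _, min_le_right _ _⟩
  have hδle : δ ≤ δ1 := by linarith
  obtain ⟨-, hc2, hcf⟩ := hcfs δ hδ hδle
  have hc4 : C0 * δ < 1 / 2 := by
    obtain ⟨-, h1, -⟩ := hcfs δ1 hδ1 le_rfl
    have h2 : C0 * δ ≤ C0 * (δ1 / 2) := mul_le_mul_of_nonneg_left hδle2 hC0p.le
    linarith
  have hsh : IsShape (j := n + 1) (ThD δ) (SfD δ) C0 δ := shapeDf hδ h8 hC0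
  have hG := hgeo δ hδ h8
  have hGL := geoLD (n := n) hC0 hδ h8
  have hconf : IsConfT M W0 (2 * ε1) (wMt W s g' (Wf Φ K ε1 (ThD δ) (SfD δ))) :=
    wMt_conf hg hs hs2 (Wf_smooth hΦ hsh K ε1) (Wf_per hΦ _ _ K ε1)
      (fun t Y hY => Wf_one hsh hc2 K ε1 t hY) (fun t Y => (Wf_bd hsh hε1 hε14 hcf t Y).1)
      (fun t Y => (Wf_bd hsh hε1 hε14 hcf t Y).2) hWW
  refine ⟨_, FN16_mono hconf hε2, ?_⟩
  have hsmall : ∀ X ∈ (tor (n + 3)).N ∩ Dn.SO n, ‖s • pol 1 (TfD δ X)‖ < ρ := fun X hX =>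
    FN16_norm hs hs2 hc2 (hG.small X hX)
  have hpos : ∀ X ∈ (tor (n + 3)).N ∩ Dn.SO n, 0 < 1 + (TfD δ X).2 0 := fun X hX =>
    FN16_pos hc2 (hG.small X hX)
  -- facts on the domain and the tube
  have hAV : ∀ z ∈ AfD δ n, ‖z.2‖ < 1 / 2 := fun z hz => lt_of_le_of_lt (hGL.smallA z hz) hc4
  have hVo : IsOpen {z : ℝ × Vec (n + 2) | ‖z.2‖ < 1 / 2} :=
    isOpen_lt (continuous_norm.comp continuous_snd) continuous_const
  have hPj : ContDiffOn ℝ ∞ (fun z : ℝ × Vec (n + 2) => g (s • pol 1 z)) {z | ‖z.2‖ < 1 / 2} :=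
    FN12_smooth (j := n + 1) hg hs hs2
  have hball : ∀ z : ℝ × Vec (n + 2), ‖z.2‖ < 1 / 2 → s • pol 1 z ∈ Metric.ball (0 : Vec (n + 3)) ρ :=
    fun z hz => FN12_lt (j := n + 1) hz hs hs2
  have hΦ0 : ∀ t, ∀ z ∈ AfD δ n, ∀ ζ : ℝ × Vec (n + 2), Ps Φ K ε1 (SfD δ) t z ζ =
      (fun (x : Vec d) (v : Vec d) (t : ℝ) => wMt W s g' (Wf Φ K ε1 (ThD δ) (SfD δ)) x t * F x v t)
        (g (s • pol 1 z)) (fderiv ℝ (fun z : ℝ × Vec (n + 2) => g (s • pol 1 z)) z ζ) t := by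
    intro t z hz ζ
    have h1 := hball z (hAV z hz)
    rw [mem_ball_zero_iff] at h1
    have h2 : wMt W s g' (Wf Φ K ε1 (ThD δ) (SfD δ)) (g (s • pol 1 z)) t =
        (1 - ε1) * cf Φ K t z + ε1 / 2 * SfD δ (pol 1 z) := by
      rw [wMt_at hg hs _ h1 t, Wf_pol hΦ K ε1 t (AfD_pos hδ hz) (hGL.oneA z hz)]
    show Ps Φ K ε1 (SfD δ) t z ζ = wMt W s g' (Wf Φ K ε1 (ThD δ) (SfD δ)) (g (s • pol 1 z)) t * _
    rw [h2]
    rfl
  have hAc : IsClosed (AfD δ n) := by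
    have h1 : Continuous (fun z : ℝ × Vec (n + 2) => (z.1, (1 + δ) • z.2)) :=
      continuous_fst.prodMk (continuous_snd.const_smul (1 + δ))
    exact (AD_closed δ n).preimage h1
  have hAp : ∀ (θ : ℝ) (w : Vec (n + 2)), (θ + 1, w) ∈ AfD δ n ↔ (θ, w) ∈ AfD δ n := by
    intro θ w
    exact AD_per δ θ ((1 + δ) • w)
  -- the chart
  have hchart : IsChart M (tor (n + 3)) (Dn.SO n) ⊥ (fun X => g (s • pol 1 (TfD δ X))) := by
    have h1 : 0 < 1 + δ := by linarith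
    have h2 : ‖((ContinuousLinearEquiv.refl ℝ (Vec (n + 3)) : Vec (n + 3) ≃L[ℝ] Vec (n + 3)) :
        Vec (n + 3) →L[ℝ] Vec (n + 3))‖ ≤ 1 := ContinuousLinearMap.norm_id_le
    have h3 : s / (1 + δ) ≤ s := div_le_self hs.le (by linarith)
    have h4 := Dn.exists_chart hg (ContinuousLinearEquiv.refl ℝ (Vec (n + 3))) (s := s / (1 + δ)) hδ h8
      (by positivity) (by
        refine le_trans (mul_le_mul h3 (mul_le_mul_of_nonneg_right h2 (by linarith)) (by positivity)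
          hs.le) ?_
        rw [one_mul]
        exact hsB)
    have h5 : (fun X : Vec (n + 3) => g ((s / (1 + δ)) •
        (ContinuousLinearEquiv.refl ℝ (Vec (n + 3))) (Dn.em δ X))) = fun X => g (s • pol 1 (TfD δ X)) := by
      funext X
      have h6 : (ContinuousLinearEquiv.refl ℝ (Vec (n + 3))) (Dn.em δ X) = Dn.em δ X := rfl
      rw [h6, ← pol_TfD hδ X, smul_smul, div_mul_cancel₀ _ h1.ne']
    rwa [h5] at h4
  -- the constants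
  obtain ⟨η, hη, habs'⟩ := habs δ hδ hδle (n + 3) (tor (n + 3)) (Dn.SO n) (Dn.SK n) 0
    (TfD δ) cvD (ThD δ) (SfD δ) (Dn.bar 1) 0 nnD gaD (wpD δ) (AfD δ n) (LfD δ) (δ / 18) hG hsh hGL
  obtain ⟨R, δ2, hR, hδ2, Htr⟩ := transferF (M := M) (W0 := W0) hW
    (Fb := fun x v t => wMt W s g' (Wf Φ K ε1 (ThD δ) (SfD δ)) x t * F x v t)
    (conf_fins hconf hF.fins) ((conf_ext hconf hF).of_le (WithTop.coe_le_coe.2 le_top))
    (Pj := fun z : ℝ × Vec (n + 2) => g (s • pol 1 z)) (V := {z | ‖z.2‖ < 1 / 2}) hVo hPj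
    (fun z hz => (hg.maps _ (hball z hz)).1) (fun z hz => hWW (hg.maps _ (hball z hz)).2)
    (fun θ w => by rw [pol_per]) (𝒜 := AfD δ n) hAV hAc hAp (Rw := C0 * δ)
    (fun z hz => hGL.smallA z hz) (fun z hz ζ hζ => FN12_imm (j := n + 1) hg hs hs2 (hAV z hz) hζ)
    (r := δ / 18) (by positivity) hGL.tubeA hΦ0 hη
  refine ⟨R, δ2, hR, hδ2, fun F' hF' hclose κ hκ L hL => ?_⟩
  have hnear := Htr F' hF' hclose
  -- the metric
  have hmet : ∀ X ∈ (tor (n + 3)).N ∩ Dn.SO n, ∀ v t, pull (fun X => g (s • pol 1 (TfD δ X))) F' X v t =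
      (fun (t : ℝ) (z ζ : ℝ × Vec (n + 2)) => F' (g (s • pol 1 z))
        (fderiv ℝ (fun z : ℝ × Vec (n + 2) => g (s • pol 1 z)) z ζ) t) t (TfD δ X) (fderiv ℝ (TfD δ) X v) := by
    intro X hX v t
    have k3 := FN16_chain (s := s) hg.smooth hG.smooth (hsmall X hX) v
    simp only [pull]
    rw [k3]
  obtain ⟨μ, B, len, a, c, hμ, hcal, hroom⟩ := habs' _ hnear (fun X => g (s • pol 1 (TfD δ X)))
    (pull (fun X => g (s • pol 1 (TfD δ X))) F') hmet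
    (fun x hx y hy l hl => FN16_inj hg hs (hsmall x hx) (hsmall y hy) (hpos x hx) (hpos y hy) hl)
  refine Lo.inClassIn_of hκ hμ hF' hL hchart (fun X hX => ⟨0, ?_⟩) hcal hroom
  have h0 : (vz (0 : Fin d → ℤ) : Vec d) = 0 := vz_zero'
  rw [h0, add_zero]
  exact hWW (hg.maps _ (mem_ball_zero_iff.2 (hsmall X (hG.sub hX)))).2

end EscW.Fo
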