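import Pool.Agent.EscW.LL0
import Pool.Agent.EscW.FO17
import Pool.Agent.EscW.FO18
import Pool.Agent.EscW.FO20
import Pool.Agent.EscW.FO21
import Pool.Agent.EscW.FN10
import Pool.Agent.EscW.FN11
import Pool.Agent.EscW.FN12
import Pool.Agent.EscW.FN13
import Pool.Agent.EscW.FN15
import Pool.Agent.EscW.CF7
import Pool.Agent.EscW.OT12
import Pool.Agent.EscW.G1
import Pool.Agent.EscW.G3
import Pool.Agent.EscW.E5

set_option autoImplicit false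

/-!
Project EscW, part FO, module FO23: surfaces.
As FO22 and FN17 with `m = 2`, `j = 0`: `M'` from `exists_sub_level` (G1), `geoGf`, `shapeGf`, `geoLG`, `pol_TcG`, `Gn.exists_chart` (G3), `𝒜 = AG δ'`, `Λ = LamG δ'`, `r = δ'/16`, `AG_pos`.
-/

noncomputable section

namespace EscW.Fo

open Filter Topology Set EscF.T EscM EscMT MeasureTheory EscW.Ex EscW.Dn EscW.On EscW.Ot EscW.Fn
open scoped ContDiff

variable {d m k j n : ℕ}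

theorem FO23_mem {M : Sub d} {W : Set (Vec d)} {ρ : ℝ} {g : Vec 2 → Vec d} {g' : Vec d → Vec 2}
    (hg : MChart M 2 W ρ g g') (A : Vec 2 ≃L[ℝ] Vec 2) (hA : ∀ Y, A Y = Y) {δ s : ℝ} (hδ : 0 < δ)
    (h8 : δ ≤ 1 / 8) (hs : 0 < s) (hsA : s * (‖(A : Vec 2 →L[ℝ] Vec 2)‖ * 2) ≤ ρ / 2) (x : Vec 3) :
    ‖s • Gn.em δ x‖ ≤ ρ / 2 := by
  have h1 := (Gn.phi_mem hg A hδ h8 hs hsA x).1
  rwa [hA] at h1

theorem FO23_pos {w : Vec 1} {r : ℝ} (h : ‖w‖ ≤ r) (hr : r ≤ 1 / 2) : 0 < 1 + w 0 := by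
  have h1 : |w 0| ≤ ‖w‖ := by
    rw [O20_norm1]
  have h2 := neg_abs_le (w 0)
  linarith

theorem open_dim2 {M : Sub d} {y0 : Vec d} (hy : y0 ∈ M.N)
    (hdim : Module.finrank ℝ (LinearMap.range (fderiv ℝ M.r y0 : Vec d →ₗ[ℝ] Vec d)) = 2)
    {W0 : Set (Vec d)} (hW : IsOpen W0) (hy0 : y0 ∈ W0) {F : Vec d → Vec d → ℝ → ℝ}
    (hF : IsSmoothFinslerT M W0 F) {ε : ℝ} (hε : 0 < ε) :
    ∃ w : Vec d → ℝ → ℝ, IsConfT M W0 ε w ∧ ∃ R δ : ℝ, 0 < R ∧ 0 < δ ∧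
      ∀ F' : Vec d → Vec d → ℝ → ℝ, IsFinslerT M F' →
        Close2F M W0 R δ (fun x v t => w x t * F x v t) F' → ∀ κ : ℝ → ℝ, IsWeight κ → ∀ L : Lag d,
          IsNearT M κ F' L → Lo.InClassIn M W0 L := by
  obtain ⟨M', hM⟩ := Gn.exists_sub_level Gn.Fe_smooth Gn.Fe_per Gn.Fe_reg
  obtain ⟨W, ρ, g, g', hWW, hg⟩ := exists_mchart (m := 2) hy hdim hW hy0
  have hρ : 0 < ρ := hg.pos
  obtain ⟨A, hAdef⟩ : ∃ A : Vec 2 ≃L[ℝ] Vec 2, ∀ Y, A Y = Y := ⟨ContinuousLinearEquiv.refl ℝ (Vec 2), fun _ => rfl⟩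
  have hA0 : 0 ≤ ‖(A : Vec 2 →L[ℝ] Vec 2)‖ := norm_nonneg _
  set s : ℝ := ρ / (4 * (‖(A : Vec 2 →L[ℝ] Vec 2)‖ + 1)) with hsdef
  have hs : 0 < s := by positivity
  have hsA' : s * (4 * (‖(A : Vec 2 →L[ℝ] Vec 2)‖ + 1)) = ρ := by
    rw [hsdef]
    field_simp
  have hsA : s * (‖(A : Vec 2 →L[ℝ] Vec 2)‖ * 2) ≤ ρ / 2 := by
    nlinarith
  have hs2 : s * 2 < ρ := by
    nlinarith [mul_nonneg hs.le hA0]
  -- the metric in annular coordinates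
  have hΦ := locFin_of (j := 0) hF hWW hg hs hs2
  set Φ : ℝ → ℝ × Vec 1 → ℝ × Vec 1 → ℝ :=
    fun t z ζ => F (g (s • pol 1 z)) (fderiv ℝ (fun z => g (s • pol 1 z)) z ζ) t with hΦdef
  set ε1 : ℝ := min (1 / 4) (ε / 2) with hε1
  have he0 : 0 < ε1 := lt_min (by norm_num) (by linarith)
  have he4 : ε1 ≤ 1 / 4 := min_le_left _ _
  have he2 : ε1 ≤ ε / 2 := min_le_right _ _
  obtain ⟨C0, hC10, Hgeo⟩ := geoGf
  have hC0 : 0 < C0 := by linarith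
  obtain ⟨K, δ1, hK, hδ1, hcf, Habs⟩ := abs_fo (d := d) hΦ he0 he4 hC0
  set δ : ℝ := min δ1 (1 / 8) with hδdef
  have hδ : 0 < δ := lt_min hδ1 (by norm_num)
  have h8 : δ ≤ 1 / 8 := min_le_right _ _
  have hδδ : δ ≤ δ1 := min_le_left _ _
  obtain ⟨hc1, hc2, hc3⟩ := hcf δ hδ hδδ
  have geo := Hgeo δ hδ h8 M' hM
  have shape := shapeGf hδ h8 hC10
  have geoL := geoLG hC10 hδ h8 hM
  have hconf : IsConfT M W0 ε (wMt W s g' (Wf Φ K ε1 (Gn.tΘ δ) (SfG δ))) :=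
    wMt_conf hg hs hs2 (Wf_smooth hΦ shape K ε1) (fun t Y => Wf_per hΦ _ _ K ε1 t Y)
      (fun t Y hY => Wf_one shape hc2 K ε1 t hY)
      (fun t Y => ((Wf_bd shape he0 he4 hc3 t Y).1).trans (by linarith))
      (fun t Y => (Wf_bd shape he0 he4 hc3 t Y).2) hWW
  refine ⟨wMt W s g' (Wf Φ K ε1 (Gn.tΘ δ) (SfG δ)), hconf, ?_⟩
  -- facts on the tube and the domain
  have hAV : ∀ z ∈ AG δ, ‖z.2‖ < 1 / 2 := fun z hz => lt_of_le_of_lt hz.2.2 (by norm_num)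
  have hVo : IsOpen {z : ℝ × Vec 1 | ‖z.2‖ < 1 / 2} :=
    isOpen_lt (continuous_norm.comp continuous_snd) continuous_const
  have hPj : ContDiffOn ℝ ∞ (fun z : ℝ × Vec 1 => g (s • pol 1 z)) {z | ‖z.2‖ < 1 / 2} :=
    FN12_smooth (j := 0) hg hs hs2
  have hball : ∀ z : ℝ × Vec 1, ‖z.2‖ < 1 / 2 → s • pol 1 z ∈ Metric.ball (0 : Vec 2) ρ :=
    fun z hz => FN12_lt (j := 0) hz hs hs2
  have htw : ∀ z : ℝ × Vec 1, ‖z.2‖ ≤ δ / 16 → z ∈ AG δ := fun z hz => (AG_tube hδ h8 z hz).1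
  have hΦ0 : ∀ t, ∀ z ∈ AG δ, ∀ ζ : ℝ × Vec 1, Ps Φ K ε1 (SfG δ) t z ζ =
      (fun (x : Vec d) (v : Vec d) (t : ℝ) => wMt W s g' (Wf Φ K ε1 (Gn.tΘ δ) (SfG δ)) x t * F x v t)
        (g (s • pol 1 z)) (fderiv ℝ (fun z : ℝ × Vec 1 => g (s • pol 1 z)) z ζ) t := by
    intro t z hz ζ
    have h1 := hball z (hAV z hz)
    rw [mem_ball_zero_iff] at h1
    have h2 : wMt W s g' (Wf Φ K ε1 (Gn.tΘ δ) (SfG δ)) (g (s • pol 1 z)) t =
        (1 - ε1) * cf Φ K t z + ε1 / 2 * SfG δ (pol 1 z) := by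
      rw [wMt_at hg hs _ h1 t, Wf_pol hΦ K ε1 t (AG_pos hz) (geoL.oneA z hz)]
    show Ps Φ K ε1 (SfG δ) t z ζ = wMt W s g' (Wf Φ K ε1 (Gn.tΘ δ) (SfG δ)) (g (s • pol 1 z)) t * _
    rw [h2]
    rfl
  -- the constants
  obtain ⟨η, hη, Habs'⟩ := Habs δ hδ hδδ 3 M' Gn.SO Gn.SK 0 (TcG δ) cvG (Gn.tΘ δ)
    (SfG δ) (Gn.bar 1) (-(1 / 2)) nnG Gn.dd (wpG δ) (AG δ) (LamG δ) (δ / 16) geo shape geoL
  obtain ⟨R, δ2, hR, hδ2, Htr⟩ := transferF (M := M) (W0 := W0) hW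
    (Fb := fun x v t => wMt W s g' (Wf Φ K ε1 (Gn.tΘ δ) (SfG δ)) x t * F x v t)
    (conf_fins hconf hF.fins) ((conf_ext hconf hF).of_le (WithTop.coe_le_coe.2 le_top))
    (Pj := fun z : ℝ × Vec 1 => g (s • pol 1 z)) (V := {z | ‖z.2‖ < 1 / 2}) hVo hPj
    (fun z hz => (hg.maps _ (hball z hz)).1) (fun z hz => hWW (hg.maps _ (hball z hz)).2)
    (fun θ w => by rw [pol_per]) (𝒜 := AG δ) hAV (AG_closed δ) (fun θ w => AG_per δ θ w) (Rw := 1 / 4)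
    (fun z hz => hz.2.2) (fun z hz ζ hζ => FN12_imm (j := 0) hg hs hs2 (hAV z hz) hζ)
    (r := δ / 16) (by linarith) htw hΦ0 hη
  refine ⟨R, δ2, hR, hδ2, fun F' hF' hclose κ hκ L hL => ?_⟩
  have hnear := Htr F' hF' hclose
  have hmem := FO23_mem hg A hAdef hδ h8 hs hsA
  have hTpos : ∀ x ∈ M'.N ∩ Gn.SO, 0 < 1 + (TcG δ x).2 0 := fun x hx =>
    FO23_pos (geo.small x hx) hc2
  have hPs : ∀ x ∈ M'.N ∩ Gn.SO, ∀ v t, pull (fun x : Vec 3 => g (s • Gn.em δ x)) F' x v t =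
      (fun (t : ℝ) (z ζ : ℝ × Vec 1) => F' (g (s • pol 1 z)) (fderiv ℝ (fun z : ℝ × Vec 1 => g (s • pol 1 z)) z ζ) t)
        t (TcG δ x) (fderiv ℝ (TcG δ) x v) := by
    intro x hx v t
    have hlt : ‖s • pol 1 (TcG δ x)‖ < ρ := by
      rw [O20_pol]
      have := hmem x
      linarith
    have e1 : (fun x : Vec 3 => g (s • Gn.em δ x)) = (fun z => g (s • pol 1 z)) ∘ TcG δ := by
      funext y
      show g (s • Gn.em δ y) = g (s • pol 1 (TcG δ y))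
      rw [O20_pol]
    have hgd : DifferentiableAt ℝ (fun z : ℝ × Vec 1 => g (s • pol 1 z)) (TcG δ x) := by
      have h1 : ContDiffAt ℝ ∞ g (s • pol 1 (TcG δ x)) :=
        hg.smooth.contDiffAt (Metric.isOpen_ball.mem_nhds (mem_ball_zero_iff.2 hlt))
      have h2 : DifferentiableAt ℝ g (s • pol 1 (TcG δ x)) := h1.differentiableAt (by simp)
      have h3 : DifferentiableAt ℝ (fun z : ℝ × Vec 1 => s • pol 1 z) (TcG δ x) :=
        (((pol_smooth (j := 0) 1).differentiable (by simp)) (TcG δ x)).const_smul s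
      exact DifferentiableAt.comp (TcG δ x) h2 h3
    have hTd : DifferentiableAt ℝ (TcG δ) x := (O20_T_smooth δ).differentiable (by simp) x
    have e2 : fderiv ℝ (fun x : Vec 3 => g (s • Gn.em δ x)) x v =
        fderiv ℝ (fun z : ℝ × Vec 1 => g (s • pol 1 z)) (TcG δ x) (fderiv ℝ (TcG δ) x v) := by
      rw [e1, fderiv_comp x hgd hTd]
      rfl
    show F' (g (s • Gn.em δ x)) (fderiv ℝ (fun x : Vec 3 => g (s • Gn.em δ x)) x v) t =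
      F' (g (s • pol 1 (TcG δ x))) (fderiv ℝ (fun z : ℝ × Vec 1 => g (s • pol 1 z)) (TcG δ x) (fderiv ℝ (TcG δ) x v)) t
    rw [e2, O20_pol]
  have hinj : ∀ x ∈ M'.N ∩ Gn.SO, ∀ y ∈ M'.N ∩ Gn.SO, ∀ l : Fin d → ℤ,
      (fun x : Vec 3 => g (s • Gn.em δ x)) x = (fun x : Vec 3 => g (s • Gn.em δ x)) y + vz l →
        ∃ l' : ℤ, (TcG δ x).1 = (TcG δ y).1 + l' := by
    intro x hx y hy' l hl
    have h1 : g (s • A (Gn.em δ x)) = g (s • A (Gn.em δ y)) + vz l := by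
      rw [hAdef, hAdef]
      exact hl
    have h2 := Gn.phi_inj hg A hδ h8 hs hsA y x l h1
    refine pol_inj (hTpos x hx) (hTpos y hy') ?_
    rw [O20_pol, O20_pol]
    exact h2.symm
  obtain ⟨μ, B, len, a, c, hμ, hcal, hroom⟩ := Habs' _ hnear (fun x : Vec 3 => g (s • Gn.em δ x)) _ hPs hinj
  have hchart : IsChart M M' Gn.SO ⊥ (fun x : Vec 3 => g (s • Gn.em δ x)) := by
    have h1 := Gn.exists_chart hg A hM hδ h8 hs hsA
    have h2 : (fun x : Vec 3 => g (s • A (Gn.em δ x))) = fun x : Vec 3 => g (s • Gn.em δ x) := by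
      funext x
      rw [hAdef]
    rwa [h2] at h1
  refine Lo.inClassIn_of hκ hμ hF' hL hchart (fun x _ => ⟨0, ?_⟩) hcal hroom
  have h0 : (vz (0 : Fin d → ℤ) : Vec d) = 0 := vz_zero'
  rw [h0, add_zero]
  have hlt : ‖s • Gn.em δ x‖ < ρ := by
    have := hmem x
    linarith
  exact hWW (hg.maps _ (mem_ball_zero_iff.2 hlt)).2

end EscW.Fo
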