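import Pool.Agent.EscW.FO22
import Pool.Agent.EscW.FO23

set_option autoImplicit false

/-!
Project EscW, part FO, module FO24: final theorem.
`u`, `v` are in the range of `fderiv M.r y0`, so its dimension is at least two (as in G9, CF11): `open_dim2` or `open_dim3`. `open_dense_all`: `inClass_of_in` (LL0), `F' = w F` is near itself (`close_self`, `conf_ext`); last part: `conf_near` (FN13).
-/

noncomputable section

namespace EscW.Fo

open Filter Topology Set EscF.T EscM EscMT MeasureTheory EscW.Ex EscW.Dn EscW.On EscW.Ot EscW.Fn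
open scoped ContDiff

variable {d m k j n : ℕ}

/-- two independent tangent vectors: the dimension is at least two -/
theorem FO24_two_le {M : Sub d} {y0 u v : Vec d} (hu : IsTangent M y0 u) (hv : IsTangent M y0 v)
    (huv : LinearIndependent ℝ ![u, v]) :
    2 ≤ Module.finrank ℝ (LinearMap.range (fderiv ℝ M.r y0 : Vec d →ₗ[ℝ] Vec d)) := by
  have hle : Submodule.span ℝ (Set.range ![u, v]) ≤
      LinearMap.range (fderiv ℝ M.r y0 : Vec d →ₗ[ℝ] Vec d) := by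
    rw [Submodule.span_le]
    rintro _ ⟨i, rfl⟩
    fin_cases i
    · exact ⟨u, hu⟩
    · exact ⟨v, hv⟩
  have h2 : Module.finrank ℝ (Submodule.span ℝ (Set.range ![u, v])) = 2 := by
    rw [finrank_span_eq_card huv, Fintype.card_fin]
  rw [← h2]
  exact Submodule.finrank_mono hle

theorem open_all {M : Sub d} {y0 u v : Vec d} (hy : y0 ∈ M.N) (hu : IsTangent M y0 u)
    (hv : IsTangent M y0 v) (huv : LinearIndependent ℝ ![u, v])
    {W0 : Set (Vec d)} (hW : IsOpen W0) (hy0 : y0 ∈ W0) {F : Vec d → Vec d → ℝ → ℝ}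
    (hF : IsSmoothFinslerT M W0 F) {ε : ℝ} (hε : 0 < ε) :
    ∃ w : Vec d → ℝ → ℝ, IsConfT M W0 ε w ∧ ∃ R δ : ℝ, 0 < R ∧ 0 < δ ∧
      ∀ F' : Vec d → Vec d → ℝ → ℝ, IsFinslerT M F' →
        Close2F M W0 R δ (fun x v t => w x t * F x v t) F' → ∀ κ : ℝ → ℝ, IsWeight κ → ∀ L : Lag d,
          IsNearT M κ F' L → Lo.InClassIn M W0 L := by
  rcases (FO24_two_le hu hv huv).eq_or_lt with h | h
  · exact open_dim2 hy h.symm hW hy0 hF hε
  · exact open_dim3 hy h hW hy0 hF hε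

theorem open_dense_all {M : Sub d} {y0 u v : Vec d} (hy : y0 ∈ M.N) (hu : IsTangent M y0 u)
    (hv : IsTangent M y0 v) (huv : LinearIndependent ℝ ![u, v])
    {W0 : Set (Vec d)} (hW : IsOpen W0) (hy0 : y0 ∈ W0) {F : Vec d → Vec d → ℝ → ℝ}
    (hF : IsSmoothFinslerT M W0 F) {ε : ℝ} (hε : 0 < ε) :
    ∃ w : Vec d → ℝ → ℝ, IsConfT M W0 ε w ∧ (∃ R δ : ℝ, 0 < R ∧ 0 < δ ∧
      ∀ F' : Vec d → Vec d → ℝ → ℝ, IsFinslerT M F' →
        Close2F M W0 R δ (fun x v t => w x t * F x v t) F' → ∀ κ : ℝ → ℝ, IsWeight κ → ∀ L : Lag d,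
          IsNearT M κ F' L → InClass M L) ∧
      ∀ κ : ℝ → ℝ, IsWeight κ → ∀ L : Lag d, IsNearT M κ F L →
        InClass M (fun q => w q.1 q.2.2 ^ 2 * L q) := by
  obtain ⟨w, hw, R, δ, hR, hδ, h⟩ := open_all hy hu hv huv hW hy0 hF hε
  refine ⟨w, hw, ⟨R, δ, hR, hδ, fun F' hF' hc κ hκ L hL => Lo.inClass_of_in (h F' hF' hc κ hκ L hL)⟩,
    fun κ hκ L hL => Lo.inClass_of_in (W := W0) ?_⟩
  have h2 : (2 : WithTop ℕ∞) ≤ ((⊤ : ℕ∞) : WithTop ℕ∞) := by
    have h4 : ((2 : ℕ∞) : WithTop ℕ∞) ≤ ((⊤ : ℕ∞) : WithTop ℕ∞) := WithTop.coe_le_coe.2 le_top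
    exact h4
  exact h _ (conf_fins hw hF.fins) (close_self hδ.le ((conf_ext hw hF).of_le h2)) κ hκ _
    (conf_near hw hF.fins hκ hL)

end EscW.Fo
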