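import Pool.Agent.EscW.OTDefs

set_option autoImplicit false

/-!
Project EscW, part OT, module OT3: uniform differentiability of the nonlinearity.
-/

noncomputable section

namespace EscW.Ot

open Filter Topology Set EscF.T EscM EscMT MeasureTheory EscW.Ex EscW.Dn EscW.On
open scoped ContDiff

variable {d m k j n : ℕ}

/-- partial derivative in `t` -/
def Nt (N : ℝ → ℝ → Vec k × Vec k → Vec k × Vec k) (t θ : ℝ) (y : Vec k × Vec k) : Vec k × Vec k :=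
  fderiv ℝ (fun y : ℝ × ℝ × (Vec k × Vec k) => N y.1 y.2.1 y.2.2) (t, θ, y) (1, 0, 0)

/-- partial derivative in `y` -/
def Ny (N : ℝ → ℝ → Vec k × Vec k → Vec k × Vec k) (t θ : ℝ) (y : Vec k × Vec k) :
    Vec k × Vec k →L[ℝ] Vec k × Vec k :=
  (fderiv ℝ (fun y : ℝ × ℝ × (Vec k × Vec k) => N y.1 y.2.1 y.2.2) (t, θ, y)).comp
    ((ContinuousLinearMap.inr ℝ ℝ (ℝ × (Vec k × Vec k))).comp (ContinuousLinearMap.inr ℝ ℝ (Vec k × Vec k)))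

/-- the nonlinearity as a function of one variable -/
def OT3_G (N : ℝ → ℝ → Vec k × Vec k → Vec k × Vec k) : ℝ × ℝ × (Vec k × Vec k) → Vec k × Vec k :=
  fun y => N y.1 y.2.1 y.2.2

theorem OT3_open (r3 : ℝ) : IsOpen {y : ℝ × ℝ × (Vec k × Vec k) | ‖y.2.2‖ < r3} :=
  isOpen_lt (continuous_snd.comp continuous_snd).norm continuous_const

theorem OT3_cont {N : ℝ → ℝ → Vec k × Vec k → Vec k × Vec k} {r2 r3 ε : ℝ} (h : NT N r2 r3 ε) :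
    ContinuousOn (fderiv ℝ (OT3_G N)) {y | ‖y.2.2‖ < r3} :=
  h.smooth.continuousOn_fderiv_of_isOpen (OT3_open r3) le_rfl

theorem OT3_cont2 {N : ℝ → ℝ → Vec k × Vec k → Vec k × Vec k} {r2 r3 ε : ℝ} (h : NT N r2 r3 ε) :
    ContinuousOn (fderiv ℝ (OT3_G N)) {y | ‖y.2.2‖ ≤ r2} :=
  (OT3_cont h).mono fun y (hy : ‖y.2.2‖ ≤ r2) => hy.trans_lt h.r23

theorem OT3_has {N : ℝ → ℝ → Vec k × Vec k → Vec k × Vec k} {r2 r3 ε : ℝ} (h : NT N r2 r3 ε)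
    {y : ℝ × ℝ × (Vec k × Vec k)} (hy : ‖y.2.2‖ < r3) :
    HasFDerivAt (OT3_G N) (fderiv ℝ (OT3_G N) y) y :=
  ((h.smooth.differentiableOn (by simp)).differentiableAt ((OT3_open r3).mem_nhds hy)).hasFDerivAt

theorem OT3_t {N : ℝ → ℝ → Vec k × Vec k → Vec k × Vec k} {r2 r3 ε : ℝ} (h : NT N r2 r3 ε) (t θ : ℝ)
    {y : Vec k × Vec k} (hy : ‖y‖ < r3) :
    fderiv ℝ (OT3_G N) (t + 1, θ, y) = fderiv ℝ (OT3_G N) (t, θ, y) := by
  have h1 : (fun z : ℝ × ℝ × (Vec k × Vec k) => OT3_G N (z + (1, 0, 0))) =ᶠ[𝓝 (t, θ, y)] OT3_G N := by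
    filter_upwards [(OT3_open r3).mem_nhds (show ‖((t, θ, y) : ℝ × ℝ × (Vec k × Vec k)).2.2‖ < r3 from hy)]
      with z hz
    show N (z.1 + 1) (z.2.1 + 0) (z.2.2 + 0) = N z.1 z.2.1 z.2.2
    rw [add_zero, add_zero]
    exact h.per_t _ _ _ hz
  have h2 := h1.fderiv_eq (𝕜 := ℝ)
  have h3 := fderiv_comp_add_right (𝕜 := ℝ) (f := OT3_G N) (x := (t, θ, y)) (1, 0, 0)
  have e : ((t, θ, y) : ℝ × ℝ × (Vec k × Vec k)) + (1, 0, 0) = (t + 1, θ, y) := by simp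
  rw [e] at h3
  exact h3.symm.trans h2

theorem OT3_θ {N : ℝ → ℝ → Vec k × Vec k → Vec k × Vec k} {r2 r3 ε : ℝ} (h : NT N r2 r3 ε) (t θ : ℝ)
    {y : Vec k × Vec k} (hy : ‖y‖ < r3) :
    fderiv ℝ (OT3_G N) (t, θ + 1, y) = fderiv ℝ (OT3_G N) (t, θ, y) := by
  have h1 : (fun z : ℝ × ℝ × (Vec k × Vec k) => OT3_G N (z + (0, 1, 0))) =ᶠ[𝓝 (t, θ, y)] OT3_G N := by
    filter_upwards [(OT3_open r3).mem_nhds (show ‖((t, θ, y) : ℝ × ℝ × (Vec k × Vec k)).2.2‖ < r3 from hy)]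
      with z hz
    show N (z.1 + 0) (z.2.1 + 1) (z.2.2 + 0) = N z.1 z.2.1 z.2.2
    rw [add_zero, add_zero]
    exact h.per_θ _ _ _ hz
  have h2 := h1.fderiv_eq (𝕜 := ℝ)
  have h3 := fderiv_comp_add_right (𝕜 := ℝ) (f := OT3_G N) (x := (t, θ, y)) (0, 1, 0)
  have e : ((t, θ, y) : ℝ × ℝ × (Vec k × Vec k)) + (0, 1, 0) = (t, θ + 1, y) := by simp
  rw [e] at h3
  exact h3.symm.trans h2

theorem OT3_shift {N : ℝ → ℝ → Vec k × Vec k → Vec k × Vec k} {r2 r3 ε : ℝ} (h : NT N r2 r3 ε) (t θ : ℝ)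
    (a b : ℤ) {y : Vec k × Vec k} (hy : ‖y‖ < r3) :
    fderiv ℝ (OT3_G N) (t - a, θ - b, y) = fderiv ℝ (OT3_G N) (t, θ, y) := by
  have h1 : Function.Periodic (fun s : ℝ => fderiv ℝ (OT3_G N) (s, θ - b, y)) 1 := fun s =>
    OT3_t h s _ hy
  have h2 : Function.Periodic (fun s : ℝ => fderiv ℝ (OT3_G N) (t, s, y)) 1 := fun s =>
    OT3_θ h t s hy
  have h3 := h1.sub_int_mul_eq a (x := t)
  have h4 := h2.sub_int_mul_eq b (x := θ)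
  rw [mul_one] at h3 h4
  exact h3.trans h4

theorem OT3_lin (L : ℝ × ℝ × (Vec k × Vec k) →L[ℝ] Vec k × Vec k) (s : ℝ) (y : Vec k × Vec k) :
    L (s, 0, y) = s • L (1, 0, 0) + L (0, 0, y) := by
  rw [← map_smul, ← map_add]
  congr 1
  simp

theorem OT3_Ny (N : ℝ → ℝ → Vec k × Vec k → Vec k × Vec k) (t θ : ℝ) (y y' : Vec k × Vec k) :
    Ny N t θ y y' = fderiv ℝ (OT3_G N) (t, θ, y) (0, 0, y') := rfl

theorem OT3_Nt (N : ℝ → ℝ → Vec k × Vec k → Vec k × Vec k) (t θ : ℝ) (y : Vec k × Vec k) :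
    Nt N t θ y = fderiv ℝ (OT3_G N) (t, θ, y) (1, 0, 0) := rfl

theorem Nt_cont {N : ℝ → ℝ → Vec k × Vec k → Vec k × Vec k} {r2 r3 ε : ℝ} (h : NT N r2 r3 ε) :
    ContinuousOn (fun y : ℝ × ℝ × (Vec k × Vec k) => Nt N y.1 y.2.1 y.2.2) {y | ‖y.2.2‖ ≤ r2} ∧
      ContinuousOn (fun y : ℝ × ℝ × (Vec k × Vec k) => Ny N y.1 y.2.1 y.2.2) {y | ‖y.2.2‖ ≤ r2} :=
  ⟨(OT3_cont2 h).clm_apply continuousOn_const, (OT3_cont2 h).clm_comp continuousOn_const⟩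

theorem Nt_per {N : ℝ → ℝ → Vec k × Vec k → Vec k × Vec k} {r2 r3 ε : ℝ} (h : NT N r2 r3 ε) (t θ : ℝ)
    {y : Vec k × Vec k} (hy : ‖y‖ ≤ r2) : Nt N (t + 1) θ y = Nt N t θ y ∧ Nt N t (θ + 1) y = Nt N t θ y ∧
      Ny N (t + 1) θ y = Ny N t θ y ∧ Ny N t (θ + 1) y = Ny N t θ y := by
  have hy3 : ‖y‖ < r3 := hy.trans_lt h.r23
  have h1 := OT3_t h t θ hy3
  have h2 := OT3_θ h t θ hy3
  refine ⟨?_, ?_, ?_, ?_⟩
  · rw [OT3_Nt, OT3_Nt, h1]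
  · rw [OT3_Nt, OT3_Nt, h2]
  · refine ContinuousLinearMap.ext fun z => ?_
    rw [OT3_Ny, OT3_Ny, h1]
  · refine ContinuousLinearMap.ext fun z => ?_
    rw [OT3_Ny, OT3_Ny, h2]

theorem OT3_ε {N : ℝ → ℝ → Vec k × Vec k → Vec k × Vec k} {r2 r3 ε : ℝ} (h : NT N r2 r3 ε) : 0 ≤ ε := by
  have h1 := (norm_nonneg _).trans (h.zero 0 0)
  by_contra hc
  push Not at hc
  nlinarith [h.r2_pos]

theorem OT3_lt {N : ℝ → ℝ → Vec k × Vec k → Vec k × Vec k} {r2 r3 ε : ℝ} (h : NT N r2 r3 ε) (t θ : ℝ)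
    {y : Vec k × Vec k} (hy : ‖y‖ < r2) : ‖Ny N t θ y‖ ≤ ε := by
  have h1 : HasFDerivAt (fun w : Vec k × Vec k => ((t, θ, w) : ℝ × ℝ × (Vec k × Vec k)))
      ((ContinuousLinearMap.inr ℝ ℝ (ℝ × (Vec k × Vec k))).comp
        (ContinuousLinearMap.inr ℝ ℝ (Vec k × Vec k))) y := by
    have g1 : HasFDerivAt (fun w : Vec k × Vec k => ((θ, w) : ℝ × (Vec k × Vec k)))
      (ContinuousLinearMap.inr ℝ ℝ (Vec k × Vec k)) y := hasFDerivAt_prodMk_right θ y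
    have g2 : HasFDerivAt (fun w : ℝ × (Vec k × Vec k) => ((t, w) : ℝ × ℝ × (Vec k × Vec k)))
      (ContinuousLinearMap.inr ℝ ℝ (ℝ × (Vec k × Vec k))) (θ, y) := hasFDerivAt_prodMk_right t (θ, y)
    exact g2.comp y g1
  have h0 : HasFDerivAt (OT3_G N) (fderiv ℝ (OT3_G N) (t, θ, y)) (t, θ, y) :=
    OT3_has h (y := (t, θ, y)) (hy.trans h.r23)
  have h2 : HasFDerivAt (fun w : Vec k × Vec k => N t θ w) (Ny N t θ y) y :=
    HasFDerivAt.comp (g := OT3_G N) (f := fun w : Vec k × Vec k => ((t, θ, w) : ℝ × ℝ × (Vec k × Vec k)))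
      y h0 h1
  refine h2.le_of_lip' (OT3_ε h) ?_
  filter_upwards [(isOpen_lt continuous_norm continuous_const).mem_nhds hy] with z hz
  exact h.lip t θ z y (le_of_lt hz) hy.le

theorem OT3_le {N : ℝ → ℝ → Vec k × Vec k → Vec k × Vec k} {r2 r3 ε : ℝ} (h : NT N r2 r3 ε) (t θ : ℝ)
    {y : Vec k × Vec k} (hy : ‖y‖ ≤ r2) : ‖Ny N t θ y‖ ≤ ε := by
  have h1 : ContinuousOn (fun w : Vec k × Vec k => Ny N t θ w) (Metric.closedBall 0 r2) := by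
    have g : ContinuousOn (fun w : Vec k × Vec k => ((t, θ, w) : ℝ × ℝ × (Vec k × Vec k)))
      (Metric.closedBall 0 r2) := (by fun_prop : Continuous _).continuousOn
    exact (Nt_cont h).2.comp g fun w hw => by simpa using hw
  have hy' : y ∈ closure (Metric.ball (0 : Vec k × Vec k) r2) := by
    rw [closure_ball _ h.r2_pos.ne']
    simpa using hy
  refine ContinuousWithinAt.closure_le hy'
    ((h1 y (by simpa using hy)).mono Metric.ball_subset_closedBall).norm continuousWithinAt_const ?_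
  intro z hz
  exact OT3_lt h t θ (by simpa using hz)

theorem Ny_le {N : ℝ → ℝ → Vec k × Vec k → Vec k × Vec k} {r2 r3 ε : ℝ} (h : NT N r2 r3 ε) (t θ : ℝ)
    {y : Vec k × Vec k} (hy : ‖y‖ ≤ r2) (y' : Vec k × Vec k) : ‖Ny N t θ y y'‖ ≤ ε * ‖y'‖ :=
  (Ny N t θ y).le_of_opNorm_le (OT3_le h t θ hy) y'

/-- the compact set of parameters -/
def OT3_K (k : ℕ) (r2 : ℝ) : Set (ℝ × ℝ × (Vec k × Vec k)) :=
  Icc (-1) 2 ×ˢ (Icc 0 1 ×ˢ Metric.closedBall 0 r2)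

theorem OT3_K_compact (r2 : ℝ) : IsCompact (OT3_K k r2) :=
  isCompact_Icc.prod (isCompact_Icc.prod (isCompact_closedBall _ _))

theorem OT3_K_sub (r2 : ℝ) : OT3_K k r2 ⊆ {y | ‖y.2.2‖ ≤ r2} := fun y hy => by
  simpa using hy.2.2

theorem OT3_mem {r2 : ℝ} {t s θ : ℝ} {y : Vec k × Vec k} (hy : ‖y‖ ≤ r2) (hs : |s - t| ≤ 1) :
    ((s - ⌊t⌋, θ - ⌊θ⌋, y) : ℝ × ℝ × (Vec k × Vec k)) ∈ OT3_K k r2 := by
  rw [abs_le] at hs
  have h1 := Int.floor_le t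
  have h2 := Int.lt_floor_add_one t
  have h3 := Int.floor_le θ
  have h4 := Int.lt_floor_add_one θ
  refine ⟨⟨?_, ?_⟩, ⟨⟨?_, ?_⟩, ?_⟩⟩
  · show -1 ≤ s - ⌊t⌋
    linarith
  · show s - ⌊t⌋ ≤ 2
    linarith
  · show 0 ≤ θ - ⌊θ⌋
    linarith
  · show θ - ⌊θ⌋ ≤ 1
    linarith
  · simpa using hy

theorem OT3_bd {N : ℝ → ℝ → Vec k × Vec k → Vec k × Vec k} {r2 r3 ε : ℝ} (h : NT N r2 r3 ε) :
    ∃ A : ℝ, 0 ≤ A ∧ ∀ t θ y, ‖y‖ ≤ r2 → ‖fderiv ℝ (OT3_G N) (t, θ, y)‖ ≤ A := by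
  obtain ⟨A, hA⟩ := (OT3_K_compact (k := k) r2).exists_bound_of_continuousOn
    ((OT3_cont2 h).mono (OT3_K_sub r2))
  refine ⟨max A 0, le_max_right _ _, fun t θ y hy => ?_⟩
  rw [← OT3_shift h t θ ⌊t⌋ ⌊θ⌋ (hy.trans_lt h.r23)]
  exact (hA _ (OT3_mem hy (by simp))).trans (le_max_left _ _)

theorem OT3_hasDerivAt {N : ℝ → ℝ → Vec k × Vec k → Vec k × Vec k} {r2 r3 ε : ℝ} (h : NT N r2 r3 ε)
    (t θ : ℝ) {y : Vec k × Vec k} (hy : ‖y‖ ≤ r2) : HasDerivAt (fun s => N s θ y) (Nt N t θ y) t := by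
  have h1 : HasFDerivAt (fun s : ℝ => ((s, θ, y) : ℝ × ℝ × (Vec k × Vec k)))
      (ContinuousLinearMap.inl ℝ ℝ (ℝ × (Vec k × Vec k))) t := hasFDerivAt_prodMk_left t (θ, y)
  have h0 : HasFDerivAt (OT3_G N) (fderiv ℝ (OT3_G N) (t, θ, y)) (t, θ, y) :=
    OT3_has h (y := (t, θ, y)) (hy.trans_lt h.r23)
  have h2 := HasFDerivAt.comp (g := OT3_G N) (f := fun s : ℝ => ((s, θ, y) : ℝ × ℝ × (Vec k × Vec k)))
      t h0 h1
  exact h2.hasDerivAt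

theorem OT3_one : ‖((1, 0, 0) : ℝ × ℝ × (Vec k × Vec k))‖ ≤ 1 := by
  simp [Prod.norm_def]

theorem lip_t {N : ℝ → ℝ → Vec k × Vec k → Vec k × Vec k} {r2 r3 ε : ℝ} (h : NT N r2 r3 ε) :
    ∃ A : ℝ, 0 ≤ A ∧ (∀ t θ y, ‖y‖ ≤ r2 → ‖Nt N t θ y‖ ≤ A) ∧
      ∀ t t' θ y, ‖y‖ ≤ r2 → ‖N t θ y - N t' θ y‖ ≤ A * |t - t'| := by
  obtain ⟨A, hA, hb⟩ := OT3_bd h
  have h1 : ∀ t θ y, ‖y‖ ≤ r2 → ‖Nt N t θ y‖ ≤ A := fun t θ y hy => by
    rw [OT3_Nt]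
    refine ((fderiv ℝ (OT3_G N) (t, θ, y)).le_of_opNorm_le (hb t θ y hy) _).trans ?_
    have := mul_le_mul_of_nonneg_left (OT3_one (k := k)) hA
    rwa [mul_one] at this
  refine ⟨A, hA, h1, fun t t' θ y hy => ?_⟩
  have h2 := Convex.norm_image_sub_le_of_norm_hasDerivWithin_le (f := fun s => N s θ y)
    (f' := fun s => Nt N s θ y) (s := univ) (x := t') (y := t)
    (fun s _ => (OT3_hasDerivAt h s θ hy).hasDerivWithinAt) (fun s _ => h1 s θ y hy) convex_univ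
    (mem_univ _) (mem_univ _)
  rwa [Real.norm_eq_abs] at h2

theorem unif {N : ℝ → ℝ → Vec k × Vec k → Vec k × Vec k} {r2 r3 ε : ℝ} (h : NT N r2 r3 ε) {δ : ℝ}
    (hδ : 0 < δ) : ∃ ρ : ℝ, 0 < ρ ∧ ∀ t t' θ y y', ‖y‖ ≤ r2 → ‖y'‖ ≤ r2 → |t' - t| ≤ ρ → ‖y' - y‖ ≤ ρ →
      ‖N t' θ y' - N t θ y - (t' - t) • Nt N t θ y - Ny N t θ y (y' - y)‖ ≤
        δ * (|t' - t| + ‖y' - y‖) := by
  have hu := (OT3_K_compact (k := k) r2).uniformContinuousOn_of_continuous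
    ((OT3_cont2 h).mono (OT3_K_sub r2))
  rw [Metric.uniformContinuousOn_iff] at hu
  obtain ⟨ρ, hρ, hu⟩ := hu δ hδ
  refine ⟨min 1 (ρ / 2), by positivity, fun t t' θ y y' hy hy' ht hyy => ?_⟩
  have ht1 : |t' - t| ≤ 1 := ht.trans (min_le_left _ _)
  have ht2 : |t' - t| ≤ ρ / 2 := ht.trans (min_le_right _ _)
  have hy2 : ‖y' - y‖ ≤ ρ / 2 := hyy.trans (min_le_right _ _)
  have hseg : ∀ z ∈ segment ℝ ((t, θ, y) : ℝ × ℝ × (Vec k × Vec k)) (t', θ, y'), ‖z.2.2‖ ≤ r2 ∧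
      z.2.1 = θ ∧ |z.1 - t| ≤ 1 ∧ |z.1 - t| ≤ ρ / 2 ∧ ‖z.2.2 - y‖ ≤ ρ / 2 := by
    rintro z ⟨a, b, ha, hb, hab, rfl⟩
    have e1 : a • t + b • t' - t = b * (t' - t) := by
      have : a = 1 - b := by linarith
      subst this
      simp only [smul_eq_mul]
      ring
    have e2 : a • y + b • y' - y = b • (y' - y) := by
      have : a = 1 - b := by linarith
      subst this
      module
    have hb1 : b ≤ 1 := by linarith
    refine ⟨?_, ?_, ?_, ?_, ?_⟩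
    · show ‖a • y + b • y'‖ ≤ r2
      calc ‖a • y + b • y'‖ ≤ ‖a • y‖ + ‖b • y'‖ := norm_add_le _ _
        _ = a * ‖y‖ + b * ‖y'‖ := by
          rw [norm_smul, norm_smul, Real.norm_of_nonneg ha, Real.norm_of_nonneg hb]
        _ ≤ a * r2 + b * r2 := by gcongr
        _ = r2 := by rw [← add_mul, hab, one_mul]
    · show a • θ + b • θ = θ
      rw [← add_smul, hab, one_smul]
    · show |a • t + b • t' - t| ≤ 1
      rw [e1, abs_mul, abs_of_nonneg hb]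
      exact (mul_le_of_le_one_left (abs_nonneg _) hb1).trans ht1
    · show |a • t + b • t' - t| ≤ ρ / 2
      rw [e1, abs_mul, abs_of_nonneg hb]
      exact (mul_le_of_le_one_left (abs_nonneg _) hb1).trans ht2
    · show ‖a • y + b • y' - y‖ ≤ ρ / 2
      rw [e2, norm_smul, Real.norm_of_nonneg hb]
      exact (mul_le_of_le_one_left (norm_nonneg _) hb1).trans hy2
  have hd : ∀ z ∈ segment ℝ ((t, θ, y) : ℝ × ℝ × (Vec k × Vec k)) (t', θ, y'),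
      ‖fderiv ℝ (OT3_G N) z - fderiv ℝ (OT3_G N) (t, θ, y)‖ ≤ δ := by
    rintro ⟨s, θ', w⟩ hz
    obtain ⟨h1, h2, h3, h4, h5⟩ := hseg _ hz
    simp only at h1 h2 h3 h4 h5
    subst h2
    rw [← OT3_shift h s θ' ⌊t⌋ ⌊θ'⌋ (h1.trans_lt h.r23), ← OT3_shift h t θ' ⌊t⌋ ⌊θ'⌋ (hy.trans_lt h.r23),
      ← dist_eq_norm]
    refine (hu _ (OT3_mem h1 h3) _ (OT3_mem hy (by simp)) ?_).le
    rw [Prod.dist_eq, Prod.dist_eq]
    refine max_lt ?_ (max_lt ?_ ?_)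
    · show dist (s - (⌊t⌋ : ℝ)) (t - (⌊t⌋ : ℝ)) < ρ
      rw [dist_sub_right, Real.dist_eq]
      linarith
    · show dist (θ' - (⌊θ'⌋ : ℝ)) (θ' - (⌊θ'⌋ : ℝ)) < ρ
      rw [dist_self]
      exact hρ
    · show dist w y < ρ
      rw [dist_eq_norm]
      linarith
  have key := Convex.norm_image_sub_le_of_norm_hasFDerivWithin_le' (f := OT3_G N)
    (f' := fun z => fderiv ℝ (OT3_G N) z) (φ := fderiv ℝ (OT3_G N) (t, θ, y)) (C := δ)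
    (s := segment ℝ ((t, θ, y) : ℝ × ℝ × (Vec k × Vec k)) (t', θ, y'))
    (fun z hz => (OT3_has h ((hseg z hz).1.trans_lt h.r23)).hasFDerivWithinAt) hd
    (convex_segment _ _) (left_mem_segment ℝ _ _) (right_mem_segment ℝ _ _)
  have e1 : ((t', θ, y') : ℝ × ℝ × (Vec k × Vec k)) - (t, θ, y) = (t' - t, 0, y' - y) := by
    simp
  rw [e1, OT3_lin] at key
  have e2 : ‖((t' - t, 0, y' - y) : ℝ × ℝ × (Vec k × Vec k))‖ ≤ |t' - t| + ‖y' - y‖ := by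
    rw [Prod.norm_def, Prod.norm_def]
    have i1 := abs_nonneg (t' - t)
    have i2 := norm_nonneg (y' - y)
    refine max_le ?_ (max_le ?_ ?_)
    · show ‖t' - t‖ ≤ _
      rw [Real.norm_eq_abs]
      linarith
    · show ‖(0 : ℝ)‖ ≤ _
      rw [norm_zero]
      linarith
    · show ‖y' - y‖ ≤ _
      linarith
  have e3 : N t' θ y' - N t θ y - (t' - t) • Nt N t θ y - Ny N t θ y (y' - y) =
      OT3_G N (t', θ, y') - OT3_G N (t, θ, y) - ((t' - t) • fderiv ℝ (OT3_G N) (t, θ, y) (1, 0, 0) +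
        fderiv ℝ (OT3_G N) (t, θ, y) (0, 0, y' - y)) := by
    rw [OT3_Ny, OT3_Nt, sub_sub]
    rfl
  rw [e3]
  exact key.trans (mul_le_mul_of_nonneg_left e2 hδ.le)

end EscW.Ot
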