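import Pool.Agent.EscW.OT2
import Pool.Agent.EscW.OT3

set_option autoImplicit false

/-!
Project EscW, part OT, module OT4: the fixed points are of class `C¹` in the time.
-/

noncomputable section

namespace EscW.Ot

open Filter Topology Set EscF.T EscM EscMT MeasureTheory EscW.Ex EscW.Dn EscW.On
open scoped ContDiff

variable {d m k j n : ℕ}

theorem NT_mono {N : ℝ → ℝ → Vec k × Vec k → Vec k × Vec k} {r2 r3 ε ε' : ℝ} (h : NT N r2 r3 ε)
    (he : ε ≤ ε') : NT N r2 r3 ε' where
  r2_pos := h.r2_pos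
  r23 := h.r23
  smooth := h.smooth
  per_t := h.per_t
  per_θ := h.per_θ
  lip t θ y y' hy hy' := (h.lip t θ y y' hy hy').trans (mul_le_mul_of_nonneg_right he (norm_nonneg _))
  zero t θ := (h.zero t θ).trans (mul_le_mul_of_nonneg_right he h.r2_pos.le)

theorem OT4_half {E : Type*} [NormedAddCommGroup E] {g : ℝ → E} {B c : ℝ} (hB : ∀ θ, ‖g θ‖ ≤ B)
    (h : ∀ b, (∀ θ, ‖g θ‖ ≤ b) → ∀ θ, ‖g θ‖ ≤ c + b / 2) (θ : ℝ) : ‖g θ‖ ≤ 2 * c := by
  have hbdd : BddAbove (range fun θ => ‖g θ‖) := ⟨B, by rintro _ ⟨θ, rfl⟩; exact hB θ⟩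
  have h1 : ∀ θ, ‖g θ‖ ≤ ⨆ θ, ‖g θ‖ := fun θ => le_ciSup hbdd θ
  have h2 : (⨆ θ, ‖g θ‖) ≤ c + (⨆ θ, ‖g θ‖) / 2 := ciSup_le (h _ h1)
  have h3 := h1 θ
  linarith

/-- the nonlinearity along a continuous function is continuous -/
theorem OT4_cont {N : ℝ → ℝ → Vec k × Vec k → Vec k × Vec k} {r2 r3 ε : ℝ} (h : NT N r2 r3 ε)
    {f : ℝ → Vec k × Vec k} (hf : Continuous f) (hs : ∀ θ, ‖f θ‖ ≤ r2) (t : ℝ) :
    Continuous fun s => N t s (f s) := by
  have h1 : Continuous (fun s : ℝ => ((t, s, f s) : ℝ × ℝ × (Vec k × Vec k))) := by fun_prop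
  exact h.smooth.continuousOn.comp_continuous h1 fun s => (hs s).trans_lt h.r23

theorem OT4_lin3 {α β : ℝ} {F G H : ℝ → Vec k × Vec k} (hF : Continuous F) (hG : Continuous G)
    (hH : Continuous H) (c θ : ℝ) :
    Sf α β F θ - Sf α β G θ - c • Sf α β H θ = Sf α β (fun s => F s - G s - c • H s) θ := by
  have h1 := Sf_lin (α := α) (β := β) hF hG (-1) θ
  have h2 : Continuous fun s => F s + (-1 : ℝ) • G s := by fun_prop
  have h3 := Sf_lin (α := α) (β := β) h2 hH (-c) θ
  have h4 : (fun s => F s - G s - c • H s) = fun s => (F s + (-1 : ℝ) • G s) + (-c) • H s := by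
    funext s
    module
  rw [h4, h3, h1]
  module

theorem OT4_lin2 {α β : ℝ} {F G : ℝ → Vec k × Vec k} (hF : Continuous F) (hG : Continuous G) (θ : ℝ) :
    Sf α β F θ - Sf α β G θ = Sf α β (fun s => F s - G s) θ := by
  have h1 := Sf_lin (α := α) (β := β) hF hG (-1) θ
  have h4 : (fun s => F s - G s) = fun s => F s + (-1 : ℝ) • G s := by
    funext s
    module
  rw [h4, h1]
  module

theorem fix_C10 {α β : ℝ} (hα : 0 < α) (hβ : 0 < β) : ∃ ε : ℝ, 0 < ε ∧
    ∀ (N : ℝ → ℝ → Vec k × Vec k → Vec k × Vec k) (r2 r3 : ℝ) (f : ℝ → ℝ → Vec k × Vec k), NT N r2 r3 ε →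
      FixT α β N r2 f → C10 f := by
  obtain ⟨C0, hC0, hSf⟩ := Sf_bd (k := k) hα hβ
  obtain ⟨ε1, C, hε1, hC, hgen⟩ := gen_fix (k := k) hα hβ
  refine ⟨min ε1 (1 / (2 * C0)), lt_min hε1 (by positivity), ?_⟩
  intro N r2 r3 f hN hf
  set ε := min ε1 (1 / (2 * C0)) with hε
  have hε0 : 0 < ε := lt_min hε1 (by positivity)
  have hεC : C0 * ε ≤ 1 / 2 := by
    have h1 : ε ≤ 1 / (2 * C0) := min_le_right _ _
    calc C0 * ε ≤ C0 * (1 / (2 * C0)) := mul_le_mul_of_nonneg_left h1 hC0.le
      _ = 1 / 2 := by field_simp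
  have hεε : ε ≤ ε1 := min_le_left _ _
  obtain ⟨A, hA, hNt, hlip⟩ := lip_t hN
  have hfc : ∀ t, Continuous (f t) := fun t =>
    hf.cont.comp (continuous_const.prodMk continuous_id)
  have hNc : ∀ t, Continuous fun s => N t s (f t s) := fun t => OT4_cont hN (hfc t) (hf.small t) t
  -- the Lipschitz estimate in the time
  set L := 2 * (C0 * A) with hL
  have hL0 : 0 ≤ L := by positivity
  have hfl : ∀ t t' θ, ‖f t θ - f t' θ‖ ≤ L * |t - t'| := by
    intro t t' θ
    have h1 : ‖f t θ - f t' θ‖ ≤ 2 * (C0 * (A * |t - t'|)) := by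
      refine OT4_half (g := fun θ => f t θ - f t' θ) (B := r2 + r2) ?_ ?_ θ
      · intro θ
        exact (norm_sub_le _ _).trans (add_le_add (hf.small t θ) (hf.small t' θ))
      · intro b hb θ
        have hb0 : 0 ≤ b := (norm_nonneg _).trans (hb θ)
        change ‖f t θ - f t' θ‖ ≤ _
        rw [hf.fix t θ, hf.fix t' θ, OT4_lin2 (hNc t) (hNc t')]
        have h2 : ∀ s, ‖N t s (f t s) - N t' s (f t' s)‖ ≤ A * |t - t'| + ε * b := by
          intro s
          have e1 : N t s (f t s) - N t' s (f t' s) =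
              (N t s (f t s) - N t' s (f t s)) + (N t' s (f t s) - N t' s (f t' s)) := by abel
          rw [e1]
          refine (norm_add_le _ _).trans (add_le_add (hlip t t' s _ (hf.small t s)) ?_)
          exact (hN.lip t' s _ _ (hf.small t s) (hf.small t' s)).trans
            (mul_le_mul_of_nonneg_left (hb s) hε0.le)
        refine (hSf _ ((hNc t).sub (hNc t')) _ h2 θ).trans ?_
        nlinarith
    calc ‖f t θ - f t' θ‖ ≤ 2 * (C0 * (A * |t - t'|)) := h1
      _ = L * |t - t'| := by rw [hL]; ring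
  -- the candidate for the derivative
  obtain ⟨hc1, hc2⟩ := Nt_cont hN
  have hm : Continuous fun y : ℝ × ℝ => ((y.1, y.2, f y.1 y.2) : ℝ × ℝ × (Vec k × Vec k)) :=
    continuous_fst.prodMk (continuous_snd.prodMk hf.cont)
  have hNt1 : Continuous fun y : ℝ × ℝ => Nt N y.1 y.2 (f y.1 y.2) :=
    hc1.comp_continuous hm fun y => hf.small y.1 y.2
  have hNy1 : Continuous fun y : ℝ × ℝ => Ny N y.1 y.2 (f y.1 y.2) :=
    hc2.comp_continuous hm fun y => hf.small y.1 y.2
  have hp : Continuous fun y : ℝ × ℝ × (Vec k × Vec k) => ((y.1, y.2.1) : ℝ × ℝ) := by fun_prop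
  obtain ⟨g, hgc, hgp, hgR, hgfix⟩ := hgen
    (fun t θ y => Nt N t θ (f t θ) + Ny N t θ (f t θ) y) (C * A + 1) A (by positivity)
    (by
      refine Continuous.continuousOn ?_
      exact (hNt1.comp hp).add ((hNy1.comp hp).clm_apply (by fun_prop)))
    (by
      intro t θ y _
      obtain ⟨p1, p2, p3, p4⟩ := Nt_per hN t θ (hf.small t θ)
      constructor
      · simp only [hf.per_t t θ, p1, p3]
      · simp only [hf.per_θ t θ, p2, p4])
    (by
      intro t θ y y' _ _
      have e1 : Nt N t θ (f t θ) + Ny N t θ (f t θ) y - (Nt N t θ (f t θ) + Ny N t θ (f t θ) y') =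
          Ny N t θ (f t θ) (y - y') := by
        rw [map_sub]
        abel
      rw [e1]
      exact (Ny_le hN t θ (hf.small t θ) _).trans
        (mul_le_mul_of_nonneg_right hεε (norm_nonneg _)))
    (by
      intro t θ
      rw [map_zero, add_zero]
      exact hNt t θ _ (hf.small t θ))
    (by linarith)
  have hgct : ∀ t, Continuous (g t) := fun t => hgc.comp (continuous_const.prodMk continuous_id)
  have hMc : ∀ t, Continuous fun s => Nt N t s (f t s) + Ny N t s (f t s) (g t s) := by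
    intro t
    have h1 : Continuous fun s : ℝ => ((t, s) : ℝ × ℝ) := by fun_prop
    exact (hNt1.comp h1).add ((hNy1.comp h1).clm_apply (hgct t))
  refine ⟨hf.cont, g, hgc, fun t θ => ?_⟩
  rw [hasDerivAt_iff_isLittleO_nhds_zero, Asymptotics.isLittleO_iff]
  intro δ' hδ'
  have hδ : 0 < δ' / (2 * C0 * (1 + L)) := by positivity
  set δ := δ' / (2 * C0 * (1 + L)) with hδd
  obtain ⟨ρ, hρ, hunif⟩ := unif hN hδ
  have hρ0 : 0 < ρ / (1 + L) := by positivity
  have hev : ∀ᶠ h : ℝ in 𝓝 0, |h| ≤ ρ / (1 + L) := by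
    have := Metric.closedBall_mem_nhds (0 : ℝ) hρ0
    filter_upwards [this] with h hh
    rwa [mem_closedBall_zero_iff, Real.norm_eq_abs] at hh
  filter_upwards [hev] with h hh
  have hh1 : |h| * (1 + L) ≤ ρ := by
    rwa [le_div_iff₀ (by positivity)] at hh
  have hh2 : |h| ≤ ρ := by nlinarith [abs_nonneg h]
  have hh3 : L * |h| ≤ ρ := by nlinarith [abs_nonneg h]
  have key : ‖f (t + h) θ - f t θ - h • g t θ‖ ≤ 2 * (C0 * (δ * ((1 + L) * |h|))) := by
    refine OT4_half (g := fun θ => f (t + h) θ - f t θ - h • g t θ)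
      (B := r2 + r2 + |h| * (C * A + 1)) ?_ ?_ θ
    · intro θ
      refine (norm_sub_le _ _).trans (add_le_add ((norm_sub_le _ _).trans
        (add_le_add (hf.small _ θ) (hf.small t θ))) ?_)
      rw [norm_smul, Real.norm_eq_abs]
      exact mul_le_mul_of_nonneg_left (hgR t θ) (abs_nonneg _)
    · intro b hb θ
      have hb0 : 0 ≤ b := (norm_nonneg _).trans (hb θ)
      change ‖f (t + h) θ - f t θ - h • g t θ‖ ≤ _
      have e0 : f (t + h) θ - f t θ - h • g t θ = Sf α β (fun s => N (t + h) s (f (t + h) s) -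
          N t s (f t s) - h • (Nt N t s (f t s) + Ny N t s (f t s) (g t s))) θ := by
        rw [← OT4_lin3 (hNc (t + h)) (hNc t) (hMc t), ← hf.fix (t + h) θ, ← hf.fix t θ, ← hgfix t θ]
      rw [e0]
      have h2 : ∀ s, ‖N (t + h) s (f (t + h) s) - N t s (f t s) -
          h • (Nt N t s (f t s) + Ny N t s (f t s) (g t s))‖ ≤ δ * ((1 + L) * |h|) + ε * b := by
        intro s
        have hfs : ‖f (t + h) s - f t s‖ ≤ L * |h| := by
          have := hfl (t + h) t s
          rwa [add_sub_cancel_left] at this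
        have e1 : N (t + h) s (f (t + h) s) - N t s (f t s) -
            h • (Nt N t s (f t s) + Ny N t s (f t s) (g t s)) =
            (N (t + h) s (f (t + h) s) - N t s (f t s) - (t + h - t) • Nt N t s (f t s) -
              Ny N t s (f t s) (f (t + h) s - f t s)) +
            Ny N t s (f t s) (f (t + h) s - f t s - h • g t s) := by
          rw [add_sub_cancel_left, map_sub (Ny N t s (f t s)) (f (t + h) s - f t s) (h • g t s), map_smul]
          module
        rw [e1]
        refine (norm_add_le _ _).trans (add_le_add ?_ ?_)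
        · have h3 := hunif t (t + h) s (f t s) (f (t + h) s) (hf.small t s) (hf.small _ s)
            (by rw [add_sub_cancel_left]; exact hh2) (hfs.trans hh3)
          refine h3.trans ?_
          rw [add_sub_cancel_left]
          refine mul_le_mul_of_nonneg_left ?_ hδ.le
          linarith
        · exact (Ny_le hN t s (hf.small t s) _).trans (mul_le_mul_of_nonneg_left (hb s) hε0.le)
      have hcont : Continuous fun s => N (t + h) s (f (t + h) s) -
          N t s (f t s) - h • (Nt N t s (f t s) + Ny N t s (f t s) (g t s)) :=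
        ((hNc (t + h)).sub (hNc t)).sub ((hMc t).const_smul h)
      refine (hSf _ hcont _ h2 θ).trans ?_
      nlinarith
  refine key.trans (le_of_eq ?_)
  rw [Real.norm_eq_abs, hδd]
  field_simp

end EscW.Ot
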