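import Pool.Agent.EscW.FO2
import Pool.Agent.EscW.OT4

set_option autoImplicit false

/-!
Project EscW, part FO, module FO3: the fixed points are of class `C¹` in the time.
Copy of the proof of `fix_C10` (module OT4) with `Ss μ` and the constant `3` (`ε = 1/6`, `3 ε = 1/2`) and `genS_fix` in place of `gen_fix`.
-/

noncomputable section

namespace EscW.Fo

open Filter Topology Set EscF.T EscM EscMT MeasureTheory EscW.Ex EscW.Dn EscW.On EscW.Ot EscW.Fn
open scoped ContDiff

variable {d m k j n : ℕ}

theorem FO3_lin3 {μ : ℝ} {F G H : ℝ → Vec k × Vec k} (hF : Continuous F) (hG : Continuous G)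
    (hH : Continuous H) (c θ : ℝ) :
    Ss μ F θ - Ss μ G θ - c • Ss μ H θ = Ss μ (fun s => F s - G s - c • H s) θ := by
  have h1 := Ss_lin (μ := μ) hF hG (-1) θ
  have h2 : Continuous fun s => F s + (-1 : ℝ) • G s := by fun_prop
  have h3 := Ss_lin (μ := μ) h2 hH (-c) θ
  have h4 : (fun s => F s - G s - c • H s) = fun s => (F s + (-1 : ℝ) • G s) + (-c) • H s := by
    funext s
    module
  rw [h4, h3, h1]
  module

theorem FO3_lin2 {μ : ℝ} {F G : ℝ → Vec k × Vec k} (hF : Continuous F) (hG : Continuous G) (θ : ℝ) :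
    Ss μ F θ - Ss μ G θ = Ss μ (fun s => F s - G s) θ := by
  have h1 := Ss_lin (μ := μ) hF hG (-1) θ
  have h4 : (fun s => F s - G s) = fun s => F s + (-1 : ℝ) • G s := by
    funext s
    module
  rw [h4, h1]
  module

theorem fixS_C10 {μ : ℝ} (hμ : 0 < μ) {N : ℝ → ℝ → Vec k × Vec k → Vec k × Vec k} {r2 r3 : ℝ} (hN : NT N r2 r3 (1 / 6))
    {f : ℝ → ℝ → Vec k × Vec k} (hf : FixS μ N r2 f) : C10 f := by
  set C0 : ℝ := 3 with hC0d
  set ε : ℝ := 1 / 6 with hε
  have hC0 : 0 < C0 := by norm_num
  have hε0 : 0 < ε := by norm_num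
  have hεC : C0 * ε ≤ 1 / 2 := by norm_num
  obtain ⟨A, hA, hNt, hlip⟩ := lip_t hN
  have hfc : ∀ t, Continuous (f t) := fun t =>
    hf.cont.comp (continuous_const.prodMk continuous_id)
  have hNc : ∀ t, Continuous fun s => N t s (f t s) := fun t => OT4_cont hN (hfc t) (hf.small t) t
  -- the Lipschitz estimate in the time
  set L := 2 * (C0 * A) with hL
  have hL0 : 0 ≤ L := by positivity
  have hfl : ∀ t t' θ, ‖f t θ - f t' θ‖ ≤ L * |t - t'| := by
    intro t t' θ
    have h1 : ‖f t θ - f t' θ‖ ≤ 2 * (C0 * (A * |t - t'|)) := by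
      refine OT4_half (g := fun θ => f t θ - f t' θ) (B := r2 + r2) ?_ ?_ θ
      · intro θ
        exact (norm_sub_le _ _).trans (add_le_add (hf.small t θ) (hf.small t' θ))
      · intro b hb θ
        have hb0 : 0 ≤ b := (norm_nonneg _).trans (hb θ)
        change ‖f t θ - f t' θ‖ ≤ _
        rw [hf.fix t θ, hf.fix t' θ, FO3_lin2 (hNc t) (hNc t')]
        have h2 : ∀ s, ‖N t s (f t s) - N t' s (f t' s)‖ ≤ A * |t - t'| + ε * b := by
          intro s
          have e1 : N t s (f t s) - N t' s (f t' s) =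
              (N t s (f t s) - N t' s (f t s)) + (N t' s (f t s) - N t' s (f t' s)) := by abel
          rw [e1]
          refine (norm_add_le _ _).trans (add_le_add (hlip t t' s _ (hf.small t s)) ?_)
          exact (hN.lip t' s _ _ (hf.small t s) (hf.small t' s)).trans
            (mul_le_mul_of_nonneg_left (hb s) hε0.le)
        refine (Ss_bd hμ ((hNc t).sub (hNc t')) h2 θ).trans ?_
        nlinarith
    calc ‖f t θ - f t' θ‖ ≤ 2 * (C0 * (A * |t - t'|)) := h1
      _ = L * |t - t'| := by rw [hL]; ring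
  -- the candidate for the derivative
  obtain ⟨hc1, hc2⟩ := Nt_cont hN
  have hm : Continuous fun y : ℝ × ℝ => ((y.1, y.2, f y.1 y.2) : ℝ × ℝ × (Vec k × Vec k)) :=
    continuous_fst.prodMk (continuous_snd.prodMk hf.cont)
  have hNt1 : Continuous fun y : ℝ × ℝ => Nt N y.1 y.2 (f y.1 y.2) :=
    hc1.comp_continuous hm fun y => hf.small y.1 y.2
  have hNy1 : Continuous fun y : ℝ × ℝ => Ny N y.1 y.2 (f y.1 y.2) :=
    hc2.comp_continuous hm fun y => hf.small y.1 y.2
  have hp : Continuous fun y : ℝ × ℝ × (Vec k × Vec k) => ((y.1, y.2.1) : ℝ × ℝ) := by fun_prop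
  obtain ⟨g, hgc, hgp, hgR, hgfix⟩ := genS_fix hμ
    (fun t θ y => Nt N t θ (f t θ) + Ny N t θ (f t θ) y) (R := 6 * A + 1) (b := A) (by positivity)
    (by
      refine Continuous.continuousOn ?_
      exact (hNt1.comp hp).add ((hNy1.comp hp).clm_apply (by fun_prop)))
    (by
      intro t θ y _
      obtain ⟨p1, p2, p3, p4⟩ := Nt_per hN t θ (hf.small t θ)
      constructor
      · simp only [hf.per_t t θ, p1, p3]
      · simp only [hf.per_θ t θ, p2, p4])
    (by
      intro t θ y y' _ _
      have e1 : Nt N t θ (f t θ) + Ny N t θ (f t θ) y - (Nt N t θ (f t θ) + Ny N t θ (f t θ) y') =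
          Ny N t θ (f t θ) (y - y') := by
        rw [map_sub]
        abel
      rw [e1]
      exact Ny_le hN t θ (hf.small t θ) _)
    (by
      intro t θ
      rw [map_zero, add_zero]
      exact hNt t θ _ (hf.small t θ))
    (by linarith)
  have hgct : ∀ t, Continuous (g t) := fun t => hgc.comp (continuous_const.prodMk continuous_id)
  have hMc : ∀ t, Continuous fun s => Nt N t s (f t s) + Ny N t s (f t s) (g t s) := by
    intro t
    have h1 : Continuous fun s : ℝ => ((t, s) : ℝ × ℝ) := by fun_prop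
    exact (hNt1.comp h1).add ((hNy1.comp h1).clm_apply (hgct t))
  refine ⟨hf.cont, g, hgc, fun t θ => ?_⟩
  rw [hasDerivAt_iff_isLittleO_nhds_zero, Asymptotics.isLittleO_iff]
  intro δ' hδ'
  have hδ : 0 < δ' / (2 * C0 * (1 + L)) := by positivity
  set δ := δ' / (2 * C0 * (1 + L)) with hδd
  obtain ⟨ρ, hρ, hunif⟩ := unif hN hδ
  have hρ0 : 0 < ρ / (1 + L) := by positivity
  have hev : ∀ᶠ h : ℝ in 𝓝 0, |h| ≤ ρ / (1 + L) := by
    have := Metric.closedBall_mem_nhds (0 : ℝ) hρ0
    filter_upwards [this] with h hh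
    rwa [mem_closedBall_zero_iff, Real.norm_eq_abs] at hh
  filter_upwards [hev] with h hh
  have hh1 : |h| * (1 + L) ≤ ρ := by
    rwa [le_div_iff₀ (by positivity)] at hh
  have hh2 : |h| ≤ ρ := by nlinarith [abs_nonneg h]
  have hh3 : L * |h| ≤ ρ := by nlinarith [abs_nonneg h]
  have key : ‖f (t + h) θ - f t θ - h • g t θ‖ ≤ 2 * (C0 * (δ * ((1 + L) * |h|))) := by
    refine OT4_half (g := fun θ => f (t + h) θ - f t θ - h • g t θ)
      (B := r2 + r2 + |h| * (6 * A + 1)) ?_ ?_ θ
    · intro θ
      refine (norm_sub_le _ _).trans (add_le_add ((norm_sub_le _ _).trans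
        (add_le_add (hf.small _ θ) (hf.small t θ))) ?_)
      rw [norm_smul, Real.norm_eq_abs]
      exact mul_le_mul_of_nonneg_left (hgR t θ) (abs_nonneg _)
    · intro b hb θ
      have hb0 : 0 ≤ b := (norm_nonneg _).trans (hb θ)
      change ‖f (t + h) θ - f t θ - h • g t θ‖ ≤ _
      have e0 : f (t + h) θ - f t θ - h • g t θ = Ss μ (fun s => N (t + h) s (f (t + h) s) -
          N t s (f t s) - h • (Nt N t s (f t s) + Ny N t s (f t s) (g t s))) θ := by
        rw [← FO3_lin3 (hNc (t + h)) (hNc t) (hMc t), ← hf.fix (t + h) θ, ← hf.fix t θ, ← hgfix t θ]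
      rw [e0]
      have h2 : ∀ s, ‖N (t + h) s (f (t + h) s) - N t s (f t s) -
          h • (Nt N t s (f t s) + Ny N t s (f t s) (g t s))‖ ≤ δ * ((1 + L) * |h|) + ε * b := by
        intro s
        have hfs : ‖f (t + h) s - f t s‖ ≤ L * |h| := by
          have := hfl (t + h) t s
          rwa [add_sub_cancel_left] at this
        have e1 : N (t + h) s (f (t + h) s) - N t s (f t s) -
            h • (Nt N t s (f t s) + Ny N t s (f t s) (g t s)) =
            (N (t + h) s (f (t + h) s) - N t s (f t s) - (t + h - t) • Nt N t s (f t s) -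
              Ny N t s (f t s) (f (t + h) s - f t s)) +
            Ny N t s (f t s) (f (t + h) s - f t s - h • g t s) := by
          rw [add_sub_cancel_left, map_sub (Ny N t s (f t s)) (f (t + h) s - f t s) (h • g t s), map_smul]
          module
        rw [e1]
        refine (norm_add_le _ _).trans (add_le_add ?_ ?_)
        · have h3 := hunif t (t + h) s (f t s) (f (t + h) s) (hf.small t s) (hf.small _ s)
            (by rw [add_sub_cancel_left]; exact hh2) (hfs.trans hh3)
          refine h3.trans ?_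
          rw [add_sub_cancel_left]
          refine mul_le_mul_of_nonneg_left ?_ hδ.le
          linarith
        · exact (Ny_le hN t s (hf.small t s) _).trans (mul_le_mul_of_nonneg_left (hb s) hε0.le)
      have hcont : Continuous fun s => N (t + h) s (f (t + h) s) -
          N t s (f t s) - h • (Nt N t s (f t s) + Ny N t s (f t s) (g t s)) :=
        ((hNc (t + h)).sub (hNc t)).sub ((hMc t).const_smul h)
      refine (Ss_bd hμ hcont h2 θ).trans ?_
      nlinarith
  refine key.trans (le_of_eq ?_)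
  rw [Real.norm_eq_abs, hδd]
  field_simp

end EscW.Fo
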