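import Pool.Agent.EscW.FODefs
import Pool.Agent.EscW.FN4

set_option autoImplicit false

/-!
Project EscW, part FO, module FO4: the core for all large `K`.
`K0`, `r2`, `c` of `core_low` (FN4): `cf Φ K t z * Φ - al = (cf Φ K0 t z * Φ - al) + (K - K0) * Qn Φ t z.1 z.2 * Φ t z ζ`, and `Qn ≥ 0` (`Qn_low`), `Φ ≥ 0` (`bounds`).
-/

noncomputable section

namespace EscW.Fo

open Filter Topology Set EscF.T EscM EscMT MeasureTheory EscW.Ex EscW.Dn EscW.On EscW.Ot EscW.Fn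
open scoped ContDiff

variable {d m k j n : ℕ}

theorem core_lowK {Φ : ℝ → ℝ × Vec k → ℝ × Vec k → ℝ} {r1 : ℝ} (h : LocFin Φ r1) : ∃ K0 r2 c : ℝ, 0 ≤ K0 ∧ 0 < r2 ∧ r2 ≤ r1 / 2 ∧ 0 < c ∧ c ≤ 1 ∧
    ∀ K, K0 ≤ K → ∀ (t : ℝ) (z ζ : ℝ × Vec k), ‖z.2‖ ≤ r2 →
      c * (eu ζ - ζ.1) + ‖z.2‖ ^ 2 * eu ζ ≤ cf Φ K t z * Φ t z ζ - al Φ t z ζ := by
  obtain ⟨K0, r2, c, hK0, hr2, hr21, hc, hcore⟩ := core_low h
  obtain ⟨c1, C1, hc1, hC1, hcoef, hbd⟩ := bounds h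
  obtain ⟨c2, hc2, hQl⟩ := Qn_low h
  refine ⟨K0, r2, min c 1, hK0, hr2, hr21, lt_min hc one_pos, min_le_right _ _, ?_⟩
  intro K hK t z ζ hz
  obtain ⟨hE, -, -, -, -, hS, -, -, -⟩ := eu_facts ζ
  have h1 := hcore t z ζ hz
  have h2 : cf Φ K t z = cf Φ K0 t z + (K - K0) * Qn Φ t z.1 z.2 := by
    unfold cf
    ring
  have h3 : 0 ≤ Qn Φ t z.1 z.2 := (mul_nonneg hc2.le (sq_nonneg _)).trans (hQl t z.1 z.2)
  have h4 : 0 ≤ Φ t z ζ := (mul_nonneg hc1.le hE).trans (hbd t z ζ (hz.trans hr21)).1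
  have h5 : 0 ≤ (K - K0) * Qn Φ t z.1 z.2 * Φ t z ζ :=
    mul_nonneg (mul_nonneg (sub_nonneg.2 hK) h3) h4
  have h6 : min c 1 * (eu ζ - ζ.1) ≤ c * (eu ζ - ζ.1) := mul_le_mul_of_nonneg_right (min_le_left _ _) hS
  rw [h2, add_mul]
  linarith

end EscW.Fo
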