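import Pool.Agent.EscW.OTDefs
import Pool.Agent.EscW.FNDefs

set_option autoImplicit false

/-!
Project EscW, part FO, definitions: C²-openness of the metrics of part FN. `t` is the time, `(θ, w)` annular coordinates around the
curve `w = 0`.
-/

noncomputable section

namespace EscW.Fo

open Filter Topology Set EscF.T EscM EscMT MeasureTheory EscW.Ex EscW.Dn EscW.On EscW.Ot EscW.Fn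
open scoped ContDiff

variable {d m k j n : ℕ}

/-! ### fixed points with scaled norms -/

/-- the linear operator of part OT, scaled: for `(f₁, f₂)` the pair `(w, u)` with `w' = μ u`, `(u + f₁)' = μ w + μ f₂` -/
def Ss (μ : ℝ) (f : ℝ → Vec k × Vec k) (θ : ℝ) : Vec k × Vec k :=
  (Ot.Wf μ⁻¹ μ (fun s => ((f s).1, μ • (f s).2)) θ, Pf μ⁻¹ μ (fun s => ((f s).1, μ • (f s).2)) θ - (f θ).1)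

/-- `f` is a family of fixed points -/
structure FixS (μ : ℝ) (N : ℝ → ℝ → Vec k × Vec k → Vec k × Vec k) (r2 : ℝ)
    (f : ℝ → ℝ → Vec k × Vec k) : Prop where
  cont : Continuous (fun y : ℝ × ℝ => f y.1 y.2)
  per_t : ∀ t θ, f (t + 1) θ = f t θ
  per_θ : ∀ t θ, f t (θ + 1) = f t θ
  small : ∀ t θ, ‖f t θ‖ ≤ r2
  fix : ∀ t θ, f t θ = Ss μ (fun s => N t s (f t s)) θ

/-! ### the base family `(1 - ε) cf Φ` near the curve -/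

/-- the second derivative in `u` of the metric at the vector `(1, 0)`, as an operator -/
def Au (Φ : ℝ → ℝ × Vec k → ℝ × Vec k → ℝ) (t θ : ℝ) : Vec k →L[ℝ] Vec k :=
  fderiv ℝ (fun u => gu (lg (Φ t)) (θ, 0, u)) 0

/-- its inverse -/
def Ai (Φ : ℝ → ℝ × Vec k → ℝ × Vec k → ℝ) (t θ : ℝ) : Vec k →L[ℝ] Vec k := (Au Φ t θ).inverse

/-- the Lagrangian of the metric `cf Φ` -/
def bl (Φ : ℝ → ℝ × Vec k → ℝ × Vec k → ℝ) (K t : ℝ) (y : ℝ × Vec k × Vec k) : ℝ :=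
  cf Φ K t (y.1, y.2.1) * lg (Φ t) y

/-- gradients of the Lagrangian of the family `Ψ`, minus the ones of the calibrating form -/
def Ru (Φ Ψ : ℝ → ℝ × Vec k → ℝ × Vec k → ℝ) (ε t θ : ℝ) (w u : Vec k) : Vec k :=
  (1 - ε)⁻¹ • gu (lg (Ψ t)) (θ, w, u) - pn Φ t θ

def Rw (Φ Ψ : ℝ → ℝ × Vec k → ℝ × Vec k → ℝ) (ε t θ : ℝ) (w u : Vec k) : Vec k :=
  (1 - ε)⁻¹ • gw (lg (Ψ t)) (θ, w, u) - deriv (pn Φ t) θ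

/-- the nonlinearity; `y = (μ w, u)` -/
def Nf (Φ Ψ : ℝ → ℝ × Vec k → ℝ × Vec k → ℝ) (ε μ t θ : ℝ) (y : Vec k × Vec k) : Vec k × Vec k :=
  (Ai Φ t θ (Ru Φ Ψ ε t θ (μ⁻¹ • y.1) y.2) - y.2,
    μ⁻¹ • (deriv (fun θ => Ai Φ t θ) θ (Ru Φ Ψ ε t θ (μ⁻¹ • y.1) y.2) +
      Ai Φ t θ (Rw Φ Ψ ε t θ (μ⁻¹ • y.1) y.2)) - y.1)

/-- the family `Ψ` of metrics is near the family `Φ0`: in `C⁰` on `𝒜`, in `C²` on the tube -/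
structure NearP (Φ0 Ψ : ℝ → ℝ × Vec k → ℝ × Vec k → ℝ) (𝒜 : Set (ℝ × Vec k)) (r η : ℝ) : Prop where
  hom : ∀ t, ∀ z ∈ 𝒜, ∀ (ζ : ℝ × Vec k) (s : ℝ), 0 ≤ s → Ψ t z (s • ζ) = s * Ψ t z ζ
  per_θ : ∀ t θ w ζ, (θ, w) ∈ 𝒜 → Ψ t (θ + 1, w) ζ = Ψ t (θ, w) ζ
  per_t : ∀ t, ∀ z ∈ 𝒜, ∀ ζ, Ψ (t + 1) z ζ = Ψ t z ζ
  cont : ∀ t, ContinuousOn (fun p : (ℝ × Vec k) × (ℝ × Vec k) => Ψ t p.1 p.2) {p | p.1 ∈ 𝒜}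
  c0 : ∀ t, ∀ z ∈ 𝒜, ∀ ζ, |Ψ t z ζ - Φ0 t z ζ| ≤ η * eu ζ
  smooth : ContDiffOn ℝ 2 (fun y : ℝ × (ℝ × Vec k × Vec k) => lg (Ψ y.1) y.2) {y | y.2 ∈ LD k r}
  c1 : ∀ t, ∀ y ∈ LD k r, ‖fderiv ℝ (fun y => lg (Ψ t) y - lg (Φ0 t) y) y‖ ≤ η
  c2 : ∀ t, ∀ y ∈ LD k r, ‖fderiv ℝ (fderiv ℝ (fun y => lg (Ψ t) y - lg (Φ0 t) y)) y‖ ≤ η

/-- the base family `Φ0`: equal to `(1 - ε) cf Φ` on the tube, and everywhere on `𝒜` larger than the calibrating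
form -/
structure FBase (Φ : ℝ → ℝ × Vec k → ℝ × Vec k → ℝ) (K ε : ℝ) (Φ0 : ℝ → ℝ × Vec k → ℝ × Vec k → ℝ)
    (𝒜 : Set (ℝ × Vec k)) (r1 r c C : ℝ) : Prop where
  loc : LocFin Φ r1
  K_nonneg : 0 ≤ K
  ε_pos : 0 < ε
  ε_le : ε ≤ 1 / 4
  r_pos : 0 < r
  r_le : r ≤ r1 / 2
  c_pos : 0 < c
  C_pos : 0 < C
  tubeA : ∀ z : ℝ × Vec k, ‖z.2‖ ≤ r → z ∈ 𝒜
  perA : ∀ θ w, (θ + 1, w) ∈ 𝒜 ↔ (θ, w) ∈ 𝒜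
  bdA : ∀ z ∈ 𝒜, ‖z.2‖ ≤ 1
  tube : ∀ t z ζ, ‖z.2‖ < r → Φ0 t z ζ = (1 - ε) * (cf Φ K t z * Φ t z ζ)
  low : ∀ t, ∀ z ∈ 𝒜, ∀ ζ, c * (eu ζ - ζ.1) + c * ‖z.2‖ ^ 2 * eu ζ ≤ Φ0 t z ζ - (1 - ε) * al Φ t z ζ
  upp : ∀ t, ∀ z ∈ 𝒜, ∀ ζ, 0 ≤ Φ0 t z ζ ∧ Φ0 t z ζ ≤ C * eu ζ

/-- joint convexity of the Lagrangians of all families near `Φ0` -/
def Conv (Φ0 : ℝ → ℝ × Vec k → ℝ × Vec k → ℝ) (𝒜 : Set (ℝ × Vec k)) (r rc cJ η : ℝ) : Prop :=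
  ∀ Ψ, NearP Φ0 Ψ 𝒜 r η → ∀ t θ w u w' u', ‖w‖ ≤ rc → ‖u‖ ≤ rc → ‖w'‖ ≤ rc → ‖u'‖ ≤ rc →
    lg (Ψ t) (θ, w, u) + inner ℝ (gw (lg (Ψ t)) (θ, w, u)) (w' - w) +
      inner ℝ (gu (lg (Ψ t)) (θ, w, u)) (u' - u) + cJ * (‖w' - w‖ ^ 2 + ‖u' - u‖ ^ 2) ≤ lg (Ψ t) (θ, w', u')

/-- the primitive of the calibrating form, minus a multiple of `θ` -/
def h0 (Φ : ℝ → ℝ × Vec k → ℝ × Vec k → ℝ) (ε t : ℝ) (z : ℝ × Vec k) : ℝ :=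
  (1 - ε) * (Bn Φ t z - An Φ t * z.1)

/-- the function `h` for the metric `Ψ` and the closed curve `w` -/
def hF (χ : Vec k → ℝ) (Φ : ℝ → ℝ × Vec k → ℝ × Vec k → ℝ) (ε t : ℝ) (Ψ : ℝ × Vec k → ℝ × Vec k → ℝ)
    (w u p : ℝ → Vec k) (z : ℝ × Vec k) : ℝ :=
  h0 Φ ε t z + χ z.2 * (Sl Ψ w u z.1 - Sl Ψ w u 1 * z.1 + inner ℝ (p z.1) (z.2 - w z.1) - h0 Φ ε t z)

/-- the form `a dθ + dh` calibrates the closed curve `θ ↦ (θ, w θ)` for the metric `Ψ` -/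
structure FCal (Φ : ℝ → ℝ × Vec k → ℝ × Vec k → ℝ) (ε t : ℝ) (Ψ : ℝ × Vec k → ℝ × Vec k → ℝ)
    (𝒜 : Set (ℝ × Vec k)) (s a : ℝ) (w : ℝ → Vec k) (h : ℝ × Vec k → ℝ) : Prop where
  w_small : ∀ θ, ‖w θ‖ < s
  h_smooth : ContDiff ℝ 1 h
  h_per : ∀ θ v, h (θ + 1, v) = h (θ, v)
  a_near : |a - (1 - ε) * An Φ t| < s
  h_near : ∀ z, ‖fderiv ℝ (fun z => h z - h0 Φ ε t z) z‖ < s
  le : ∀ z ∈ 𝒜, ∀ ζ, a * ζ.1 + fderiv ℝ h z ζ ≤ Ψ z ζ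
  only : ∀ z ∈ 𝒜, ∀ ζ, ζ ≠ 0 → a * ζ.1 + fderiv ℝ h z ζ = Ψ z ζ → z.2 = w z.1
  cal : ∀ θ, Ψ (θ, w θ) (1, deriv w θ) = a + fderiv ℝ h (θ, w θ) (1, deriv w θ)

/-! ### geometry -/

/-- a lift `Λ` of the tube, and the domain `𝒜` of the annular coordinates -/
structure GeoL (M' : Sub m) (O K : Set (Vec m)) (i : Fin m) (T : Vec m → ℝ × Vec (j + 1)) (cv : ℝ → Vec m)
    (Θ S : Vec (j + 2) → ℝ) (bar : Vec m → ℝ) (C0 δ : ℝ) (𝒜 : Set (ℝ × Vec (j + 1)))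
    (Λ : ℝ × Vec (j + 1) → Vec m) (r : ℝ) : Prop where
  r_pos : 0 < r
  maps : ∀ x ∈ M'.N ∩ O, T x ∈ 𝒜
  closedA : IsClosed 𝒜
  perA : ∀ θ w, (θ + 1, w) ∈ 𝒜 ↔ (θ, w) ∈ 𝒜
  tubeA : ∀ z : ℝ × Vec (j + 1), ‖z.2‖ ≤ r → z ∈ 𝒜
  smallA : ∀ z ∈ 𝒜, ‖z.2‖ ≤ C0 * δ
  oneA : ∀ z ∈ 𝒜, Θ (pol 1 z) = 1
  smooth : ContDiffOn ℝ 1 Λ {z | ‖z.2‖ < r}
  mem : ∀ z, ‖z.2‖ < r → Λ z ∈ K
  right : ∀ z, ‖z.2‖ < r → T (Λ z) = z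
  per : ∀ θ w, ‖w‖ < r → Λ (θ + 1, w) = Λ (θ, w) + vz (Pi.single i 1)
  Λ_cv : ∀ θ, Λ (θ, 0) = cv θ
  S0 : ∀ z, ‖z.2‖ < r → S (pol 1 z) = 0
  bar0 : ∀ z, ‖z.2‖ < r → bar (Λ z) ≤ 0
  flat : ∀ x ∈ K, ‖(T x).2‖ < r → ∀ v, IsTangent M' x v → fderiv ℝ bar x v ≤ 0

/-! ### metrics on `M` -/

/-- the family `F'` is of class `C²` and near the family `F` in `C²`, at the points of `W0 + ℤᵈ`, on the tangent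
vectors of length between `1 / R` and `R` -/
structure Close2F (M : Sub d) (W0 : Set (Vec d)) (R δ : ℝ) (F F' : Vec d → Vec d → ℝ → ℝ) : Prop where
  smooth : ContDiffOn ℝ 2 (fun z : (Vec d × Vec d) × ℝ => On.ext M (fun x v => F' x v z.2) z.1)
    {z | z.1 ∈ TD M ∧ ∃ l : Fin d → ℤ, M.r z.1.1 + vz l ∈ W0}
  close : ∀ t, ∀ x ∈ M.N, (∃ l : Fin d → ℤ, x + vz l ∈ W0) → ∀ v, IsTangent M x v → 1 / R ≤ ‖v‖ → ‖v‖ ≤ R →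
    ∀ i : ℕ, i ≤ 2 → ‖iteratedFDeriv ℝ i (fun z => On.ext M (fun x v => F' x v t) z -
      On.ext M (fun x v => F x v t) z) (x, v)‖ ≤ δ

end EscW.Fo
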