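import Pool.Agent.EscW.FODefs

set_option autoImplicit false

/-!
Project EscW, part FO, definitions for parts D and G: steps which vanish near the curve.
-/

noncomputable section

namespace EscW.Fo

open Filter Topology Set EscF.T EscM EscMT MeasureTheory EscW.Ex EscW.Dn EscW.On EscW.Ot EscW.Fn
open scoped ContDiff

variable {d m k j n : ℕ}

def SfD (δ : ℝ) (Y : Vec (n + 3)) : ℝ := Real.smoothTransition (32 * Dn.tq δ ((1 + δ) • Y) - 1)

def AfD (δ : ℝ) (n : ℕ) : Set (ℝ × Vec (n + 2)) := {z | (z.1, (1 + δ) • z.2) ∈ AD δ n}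

def LfD (δ : ℝ) (z : ℝ × Vec (n + 2)) : Vec (n + 3) := LamD δ (z.1, (1 + δ) • z.2)

def SfG (δ : ℝ) (Y : Vec 2) : ℝ := 1 - (1 - Real.smoothTransition (9 - 16 * Gn.tz δ Y)) *
  (1 - Real.smoothTransition (4 * Gn.tu δ Y ^ 2 - 1))

end EscW.Fo
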