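import Pool.Agent.EscW.GDefs

set_option autoImplicit false

/-!
Project EscW, part G, module G2: formulas.
`Fe_sq`: rotation. `Fe_reg`: the partial derivatives are `2π cos(2πx0) cos(2πx2)`, `-8π cos(2πx1) sin(2πx2)`, `-2π Ce x`; if all vanish and `Fe x = 0` then `qz x = 0`, `sin(2πx0) = 0`, `uu x = 1/4`, so `cos(2πx2) = 0`, `sin(2πx2) ≠ 0`, `cos(2πx1) = 0`: contradiction with `uu x = 1/4`.
`em_fd`: polar coordinates. `tan_pos`: `fderiv Fe x v = 0` for tangent `v` (`Fe (M'.r y) = 0` for `y` near `x`); if `mn = 0` then `v 0 = v 1 = 0` (`rr > 0`, `cos > 0`) and `-2π Ce x v 2 = 0`.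
-/

noncomputable section

namespace EscW.Gn

open Filter Topology Set EscF.T EscM EscMT MeasureTheory EscW.Ex EscW.Dn
open scoped ContDiff

variable {d m n : ℕ}

theorem G2_coord (i : Fin 3) : ContDiff ℝ ∞ (fun x : Vec 3 => 2 * Real.pi * x i) :=
  contDiff_const.mul (contDiff_euclidean.1 contDiff_id i)

theorem G2_ssin (i : Fin 3) : ContDiff ℝ ∞ (fun x : Vec 3 => Real.sin (2 * Real.pi * x i)) :=
  Real.contDiff_sin.comp (G2_coord i)

theorem G2_scos (i : Fin 3) : ContDiff ℝ ∞ (fun x : Vec 3 => Real.cos (2 * Real.pi * x i)) :=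
  Real.contDiff_cos.comp (G2_coord i)

theorem G2_suu : ContDiff ℝ ∞ uu := G2_ssin 1

theorem G2_srr (δ : ℝ) : ContDiff ℝ ∞ (rr δ) :=
  contDiff_const.add (contDiff_const.mul G2_suu)

theorem G2_sP : ContDiff ℝ ∞ (fun x : Vec 3 => 4 * uu x - 1) :=
  (contDiff_const.mul G2_suu).sub contDiff_const

theorem G2_sin (k : Fin 3 → ℤ) (x : Vec 3) (i : Fin 3) :
    Real.sin (2 * Real.pi * (x + vz k) i) = Real.sin (2 * Real.pi * x i) := by
  have h : 2 * Real.pi * (x + vz k) i = 2 * Real.pi * x i + (k i : ℝ) * (2 * Real.pi) := by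
    have : (x + vz k) i = x i + (k i : ℝ) := rfl
    rw [this]
    ring
  rw [h, Real.sin_add_int_mul_two_pi]

theorem G2_cos (k : Fin 3 → ℤ) (x : Vec 3) (i : Fin 3) :
    Real.cos (2 * Real.pi * (x + vz k) i) = Real.cos (2 * Real.pi * x i) := by
  have h : 2 * Real.pi * (x + vz k) i = 2 * Real.pi * x i + (k i : ℝ) * (2 * Real.pi) := by
    have : (x + vz k) i = x i + (k i : ℝ) := rfl
    rw [this]
    ring
  rw [h, Real.cos_add_int_mul_two_pi]

theorem G2_uu (k : Fin 3 → ℤ) (x : Vec 3) : uu (x + vz k) = uu x := G2_sin k x 1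

theorem Fe_smooth : ContDiff ℝ ∞ Fe := by
  exact ((G2_ssin 0).mul (G2_scos 2)).sub (G2_sP.mul (G2_ssin 2))

theorem Ce_smooth : ContDiff ℝ ∞ Ce := by
  exact (G2_sP.mul (G2_scos 2)).add ((G2_ssin 0).mul (G2_ssin 2))

theorem qz_smooth : ContDiff ℝ ∞ qz := by
  exact (G2_sP.pow 2).add ((G2_ssin 0).pow 2)

theorem em_smooth (δ : ℝ) : ContDiff ℝ ∞ (em δ) := by
  rw [contDiff_euclidean]
  intro i
  by_cases h0 : i = 0
  · have : (fun x : Vec 3 => em δ x i) = fun x => rr δ x * Real.cos (2 * Real.pi * x 0) := by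
      funext x
      simp [em, h0]
    rw [this]
    exact (G2_srr δ).mul (G2_scos 0)
  · have : (fun x : Vec 3 => em δ x i) = fun x => rr δ x * Real.sin (2 * Real.pi * x 0) := by
      funext x
      simp [em, h0]
    rw [this]
    exact (G2_srr δ).mul (G2_ssin 0)

theorem Fe_per (k : Fin 3 → ℤ) (x : Vec 3) : Fe (x + vz k) = Fe x := by
  unfold Fe
  rw [G2_uu, G2_sin, G2_sin, G2_cos]

theorem Ce_per (k : Fin 3 → ℤ) (x : Vec 3) : Ce (x + vz k) = Ce x := by
  unfold Ce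
  rw [G2_uu, G2_sin, G2_sin, G2_cos]

theorem qz_per (k : Fin 3 → ℤ) (x : Vec 3) : qz (x + vz k) = qz x := by
  unfold qz
  rw [G2_uu, G2_sin]

theorem em_per (δ : ℝ) (k : Fin 3 → ℤ) (x : Vec 3) : em δ (x + vz k) = em δ x := by
  have h2 : rr δ (x + vz k) = rr δ x := by
    unfold rr
    rw [G2_uu]
  unfold em
  congr 1
  funext i
  rw [h2, G2_sin, G2_cos]

theorem Fe_sq (x : Vec 3) : Fe x ^ 2 + Ce x ^ 2 = qz x := by
  have h := Real.sin_sq_add_cos_sq (2 * Real.pi * x 2)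
  unfold Fe Ce qz
  linear_combination (Real.sin (2 * Real.pi * x 0) ^ 2 + (4 * uu x - 1) ^ 2) * h

theorem G2_lin (x v : Vec 3) (i : Fin 3) :
    HasDerivAt (fun t : ℝ => 2 * Real.pi * (x + t • v) i) (2 * Real.pi * v i) 0 := by
  have h : (fun t : ℝ => 2 * Real.pi * (x + t • v) i) =
      fun t => 2 * Real.pi * x i + t * (2 * Real.pi * v i) := by
    funext t
    have : (x + t • v) i = x i + t * v i := rfl
    rw [this]
    ring
  rw [h]
  simpa using ((hasDerivAt_id (0 : ℝ)).mul_const (2 * Real.pi * v i)).const_add (2 * Real.pi * x i)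

theorem G2_dsin (x v : Vec 3) (i : Fin 3) :
    HasDerivAt (fun t : ℝ => Real.sin (2 * Real.pi * (x + t • v) i))
      (Real.cos (2 * Real.pi * x i) * (2 * Real.pi * v i)) 0 := by
  have := (G2_lin x v i).sin
  simpa using this

theorem G2_dcos (x v : Vec 3) (i : Fin 3) :
    HasDerivAt (fun t : ℝ => Real.cos (2 * Real.pi * (x + t • v) i))
      (-Real.sin (2 * Real.pi * x i) * (2 * Real.pi * v i)) 0 := by
  have := (G2_lin x v i).cos
  simpa using this

theorem G2_duu (x v : Vec 3) :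
    HasDerivAt (fun t : ℝ => uu (x + t • v)) (Real.cos (2 * Real.pi * x 1) * (2 * Real.pi * v 1)) 0 :=
  G2_dsin x v 1

theorem G2_line {E : Type*} [NormedAddCommGroup E] [NormedSpace ℝ E] {f : Vec 3 → E} (hf : ContDiff ℝ ∞ f)
    (x v : Vec 3) : HasDerivAt (fun t : ℝ => f (x + t • v)) (fderiv ℝ f x v) 0 := by
  have h1 : HasFDerivAt f (fderiv ℝ f x) (x + (0 : ℝ) • v) := by
    rw [zero_smul, add_zero]
    exact (hf.differentiable (by simp) x).hasFDerivAt
  have h2 : HasDerivAt (fun t : ℝ => x + t • v) v 0 := by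
    have := ((hasDerivAt_id (0 : ℝ)).smul_const v).const_add x
    simpa using this
  exact h1.comp_hasDerivAt (0 : ℝ) h2

/-- the derivative of `Fe` -/
theorem G2_dFe (x v : Vec 3) : fderiv ℝ Fe x v =
    2 * Real.pi * (Real.cos (2 * Real.pi * x 0) * Real.cos (2 * Real.pi * x 2)) * v 0 -
      8 * Real.pi * (Real.cos (2 * Real.pi * x 1) * Real.sin (2 * Real.pi * x 2)) * v 1 -
      2 * Real.pi * Ce x * v 2 := by
  have h1 := ((G2_dsin x v 0).mul (G2_dcos x v 2)).sub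
    ((((G2_duu x v).const_mul 4).sub_const 1).mul (G2_dsin x v 2))
  have h2 := G2_line Fe_smooth x v
  have h3 := h2.unique h1
  rw [h3]
  simp only [zero_smul, add_zero]
  unfold Ce
  ring

theorem Fe_reg (x : Vec 3) (hx : Fe x = 0) : fderiv ℝ Fe x ≠ 0 := by
  intro h0
  have hd : ∀ v : Vec 3, 2 * Real.pi * (Real.cos (2 * Real.pi * x 0) * Real.cos (2 * Real.pi * x 2)) * v 0 -
      8 * Real.pi * (Real.cos (2 * Real.pi * x 1) * Real.sin (2 * Real.pi * x 2)) * v 1 -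
      2 * Real.pi * Ce x * v 2 = 0 := by
    intro v
    rw [← G2_dFe x v, h0]
    rfl
  have hπ := Real.pi_pos
  have a0 := hd (EuclideanSpace.single 0 1)
  have a1 := hd (EuclideanSpace.single 1 1)
  have a2 := hd (EuclideanSpace.single 2 1)
  simp at a0 a1 a2
  have hq : qz x = 0 := by
    rw [← Fe_sq, hx, a2]
    ring
  unfold qz at hq
  have q1 : 4 * uu x - 1 = 0 := by
    have := sq_nonneg (Real.sin (2 * Real.pi * x 0))
    have := sq_nonneg (4 * uu x - 1)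
    exact pow_eq_zero_iff (two_ne_zero) |>.1 (by linarith)
  have q2 : Real.sin (2 * Real.pi * x 0) = 0 := by
    have := sq_nonneg (Real.sin (2 * Real.pi * x 0))
    have := sq_nonneg (4 * uu x - 1)
    exact pow_eq_zero_iff (two_ne_zero) |>.1 (by linarith)
  have s0 := Real.sin_sq_add_cos_sq (2 * Real.pi * x 0)
  have s1 := Real.sin_sq_add_cos_sq (2 * Real.pi * x 1)
  have s2 := Real.sin_sq_add_cos_sq (2 * Real.pi * x 2)
  have hu : Real.sin (2 * Real.pi * x 1) = 1 / 4 := by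
    have : uu x = 1 / 4 := by linarith
    exact this
  have c2 : Real.cos (2 * Real.pi * x 2) = 0 := by
    rcases a0 with h | h
    · rw [h, q2] at s0
      norm_num at s0
    · exact h
  have c1 : Real.cos (2 * Real.pi * x 1) = 0 := by
    rcases a1 with h | h
    · exact h
    · rw [h, c2] at s2
      norm_num at s2
  rw [c1, hu] at s1
  norm_num at s1

theorem rr_bd {δ : ℝ} (hδ : 0 < δ) (h8 : δ ≤ 1 / 8) (x : Vec 3) : 7 / 8 ≤ rr δ x ∧ rr δ x ≤ 9 / 8 := by
  have h1 := Real.neg_one_le_sin (2 * Real.pi * x 1)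
  have h2 := Real.sin_le_one (2 * Real.pi * x 1)
  unfold rr uu
  constructor <;> nlinarith

theorem G2_em0 (δ : ℝ) (x : Vec 3) : em δ x 0 = rr δ x * Real.cos (2 * Real.pi * x 0) := by
  simp [em]

theorem G2_em1 (δ : ℝ) (x : Vec 3) : em δ x 1 = rr δ x * Real.sin (2 * Real.pi * x 0) := by
  simp [em]

theorem G2_emsq (δ : ℝ) (x : Vec 3) : em δ x 0 ^ 2 + em δ x 1 ^ 2 = rr δ x ^ 2 := by
  rw [G2_em0, G2_em1]
  have := Real.sin_sq_add_cos_sq (2 * Real.pi * x 0)
  linear_combination (rr δ x ^ 2) * this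

theorem tr_em {δ : ℝ} (hδ : 0 < δ) (h8 : δ ≤ 1 / 8) (x : Vec 3) : tr (em δ x) = rr δ x := by
  have h1 := (rr_bd hδ h8 x).1
  unfold tr
  rw [G2_emsq, Real.sqrt_sq (by linarith)]

theorem tu_em {δ : ℝ} (hδ : 0 < δ) (h8 : δ ≤ 1 / 8) (x : Vec 3) : tu δ (em δ x) = uu x := by
  unfold tu
  rw [tr_em hδ h8]
  unfold rr
  field_simp
  ring

theorem tz_em {δ : ℝ} (hδ : 0 < δ) (h8 : δ ≤ 1 / 8) (x : Vec 3) : tz δ (em δ x) = qz x := by
  have h1 := (rr_bd hδ h8 x).1
  have h2 : rr δ x ≠ 0 := by positivity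
  unfold tz
  rw [tu_em hδ h8, tr_em hδ h8, G2_em1, mul_div_cancel_left₀ _ h2]
  rfl

theorem em_bd {δ : ℝ} (hδ : 0 < δ) (h8 : δ ≤ 1 / 8) (x : Vec 3) : ‖em δ x‖ ≤ 2 := by
  obtain ⟨h1, h2⟩ := rr_bd hδ h8 x
  have h0 : ‖em δ x‖ ^ 2 ≤ 2 ^ 2 := by
    rw [EuclideanSpace.norm_sq_eq, Fin.sum_univ_two, Real.norm_eq_abs, Real.norm_eq_abs, sq_abs, sq_abs,
      G2_emsq]
    nlinarith
  exact le_of_sq_le_sq h0 (by norm_num)

theorem mn_nonneg (δ : ℝ) (x v : Vec 3) : 0 ≤ mn δ x v := by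
  unfold mn
  positivity

/-- components of the derivative -/
theorem G2_comp (δ : ℝ) (x v : Vec 3) {i : Fin 2} {c : ℝ}
    (h : HasDerivAt (fun t : ℝ => em δ (x + t • v) i) c 0) : fderiv ℝ (em δ) x v i = c := by
  have h3 := G2_line (em_smooth δ) x v
  have h4 : HasDerivAt (fun t : ℝ => em δ (x + t • v) i) (fderiv ℝ (em δ) x v i) 0 := by
    have := ((EuclideanSpace.proj i : Vec 2 →L[ℝ] ℝ).hasFDerivAt
      (x := em δ (x + (0 : ℝ) • v))).comp_hasDerivAt (0 : ℝ) h3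
    exact this
  exact h4.unique h

theorem G2_drr (δ : ℝ) (x v : Vec 3) :
    HasDerivAt (fun t : ℝ => rr δ (x + t • v))
      (2 * Real.pi * δ * Real.cos (2 * Real.pi * x 1) * v 1) 0 := by
  have h := ((G2_duu x v).const_mul δ).const_add 1
  exact h.congr_deriv (by ring)

theorem em_fd (δ : ℝ) (x v : Vec 3) : ‖fderiv ℝ (em δ) x v‖ ^ 2 = mn δ x v := by
  set b := 2 * Real.pi * δ * Real.cos (2 * Real.pi * x 1) * v 1 with hb
  have e0 : fderiv ℝ (em δ) x v 0 = b * Real.cos (2 * Real.pi * x 0) -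
      rr δ x * Real.sin (2 * Real.pi * x 0) * (2 * Real.pi * v 0) := by
    refine G2_comp δ x v ?_
    simp only [G2_em0]
    have h := (G2_drr δ x v).mul (G2_dcos x v 0)
    refine h.congr_deriv ?_
    simp only [zero_smul, add_zero]
    ring
  have e1 : fderiv ℝ (em δ) x v 1 = b * Real.sin (2 * Real.pi * x 0) +
      rr δ x * Real.cos (2 * Real.pi * x 0) * (2 * Real.pi * v 0) := by
    refine G2_comp δ x v ?_
    simp only [G2_em1]
    have h := (G2_drr δ x v).mul (G2_dsin x v 0)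
    refine h.congr_deriv ?_
    simp only [zero_smul, add_zero]
    ring
  rw [EuclideanSpace.norm_sq_eq, Fin.sum_univ_two, Real.norm_eq_abs, Real.norm_eq_abs, sq_abs, sq_abs, e0, e1]
  unfold mn
  rw [← hb]
  have s0 := Real.sin_sq_add_cos_sq (2 * Real.pi * x 0)
  linear_combination (b ^ 2 + (2 * Real.pi * rr δ x * v 0) ^ 2) * s0

theorem G2_self (M : Sub 3) {x : Vec 3} (hx : x ∈ M.N) : M.r x = x := by
  by_contra hne
  have h := M.nearest x (M.sub hx) x hx (Ne.symm hne)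
  rw [dist_self] at h
  exact absurd h (not_lt.2 dist_nonneg)

/-- the derivative of `Fe` vanishes on tangent vectors -/
theorem G2_tan {M' : Sub 3} (hM : M'.N = {x | Fe x = 0}) {x v : Vec 3} (hx : x ∈ M'.N)
    (hv : IsTangent M' x v) : fderiv ℝ Fe x v = 0 := by
  have hU : M'.U ∈ 𝓝 x := M'.isOpen.mem_nhds (M'.sub hx)
  have h1 : (fun y => Fe (M'.r y)) =ᶠ[𝓝 x] fun _ => (0 : ℝ) := by
    filter_upwards [hU] with y hy
    have h2 := M'.mem y hy
    rw [hM] at h2
    exact h2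
  have h3 : DifferentiableAt ℝ M'.r x :=
    (M'.smooth.contDiffAt hU).differentiableAt (by simp)
  have h4 : HasFDerivAt Fe (fderiv ℝ Fe x) (M'.r x) := by
    rw [G2_self M' hx]
    exact (Fe_smooth.differentiable (by simp) x).hasFDerivAt
  have h5 : HasFDerivAt (fun y => Fe (M'.r y)) ((fderiv ℝ Fe x).comp (fderiv ℝ M'.r x)) x :=
    h4.comp x h3.hasFDerivAt
  have h6 : fderiv ℝ (fun y => Fe (M'.r y)) x = 0 := by
    rw [h1.fderiv_eq]
    simp
  rw [h5.fderiv] at h6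
  have h7 := congrArg (fun L : Vec 3 →L[ℝ] ℝ => L v) h6
  have h8 : fderiv ℝ M'.r x v = v := hv
  simp only [ContinuousLinearMap.comp_apply, h8] at h7
  exact h7

theorem mn_pos {M' : Sub 3} (hM : M'.N = {x | Fe x = 0}) {δ : ℝ} (hδ : 0 < δ) (h8 : δ ≤ 1 / 8) {x v : Vec 3}
    (hx : x ∈ M'.N ∩ SO) (hv : IsTangent M' x v) (hv0 : v ≠ 0) : 0 < mn δ x v := by
  by_contra hcon
  have hz : mn δ x v = 0 := le_antisymm (not_lt.1 hcon) (mn_nonneg δ x v)
  obtain ⟨h1, -⟩ := rr_bd hδ h8 x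
  have hπ := Real.pi_pos
  obtain ⟨hN, -, -, hc, hC⟩ := hx
  unfold mn at hz
  have p0 := sq_nonneg (2 * Real.pi * rr δ x * v 0)
  have p1 := sq_nonneg (2 * Real.pi * δ * Real.cos (2 * Real.pi * x 1) * v 1)
  have z0 : 2 * Real.pi * rr δ x * v 0 = 0 := pow_eq_zero_iff (two_ne_zero) |>.1 (by linarith)
  have z1 : 2 * Real.pi * δ * Real.cos (2 * Real.pi * x 1) * v 1 = 0 :=
    pow_eq_zero_iff (two_ne_zero) |>.1 (by linarith)
  have v0 : v 0 = 0 := by
    have : 2 * Real.pi * rr δ x ≠ 0 := by positivity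
    exact (mul_eq_zero.1 z0).resolve_left this
  have v1 : v 1 = 0 := by
    have : 2 * Real.pi * δ * Real.cos (2 * Real.pi * x 1) ≠ 0 := by positivity
    exact (mul_eq_zero.1 z1).resolve_left this
  have h2 := G2_tan hM hN hv
  rw [G2_dFe, v0, v1] at h2
  have v2 : v 2 = 0 := by
    have h3 : 2 * Real.pi * Ce x * v 2 = 0 := by linarith
    have : 2 * Real.pi * Ce x ≠ 0 := by positivity
    exact (mul_eq_zero.1 h3).resolve_left this
  apply hv0
  ext i
  change v i = 0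
  fin_cases i
  · exact v0
  · exact v1
  · exact v2

theorem SO_open : IsOpen SO := by
  have h1 : SO = {x : Vec 3 | 1 / 5 < qz x} ∩ ({x : Vec 3 | uu x ^ 2 < 4 / 5} ∩
      ({x : Vec 3 | 0 < Real.cos (2 * Real.pi * x 1)} ∩ {x : Vec 3 | 0 < Ce x})) := rfl
  rw [h1]
  exact (isOpen_lt continuous_const qz_smooth.continuous).inter
    ((isOpen_lt (G2_suu.continuous.pow 2) continuous_const).inter
      ((isOpen_lt continuous_const (G2_scos 1).continuous).inter
        (isOpen_lt continuous_const Ce_smooth.continuous)))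

theorem SO_per (k : Fin 3 → ℤ) {x : Vec 3} (hx : x ∈ SO) : x + vz k ∈ SO := by
  obtain ⟨h1, h2, h3, h4⟩ := hx
  refine ⟨?_, ?_, ?_, ?_⟩
  · rw [qz_per]; exact h1
  · rw [G2_uu]; exact h2
  · rw [G2_cos]; exact h3
  · rw [Ce_per]; exact h4

theorem SK_closed : IsClosed SK := by
  have h1 : SK = {x : Vec 3 | Fe x = 0} ∩ ({x : Vec 3 | 1 / 4 ≤ qz x} ∩ ({x : Vec 3 | uu x ^ 2 ≤ 3 / 4} ∩
      ({x : Vec 3 | 0 ≤ Real.cos (2 * Real.pi * x 1)} ∩ {x : Vec 3 | 0 ≤ Ce x}))) := rfl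
  rw [h1]
  exact (isClosed_eq Fe_smooth.continuous continuous_const).inter
    ((isClosed_le continuous_const qz_smooth.continuous).inter
      ((isClosed_le (G2_suu.continuous.pow 2) continuous_const).inter
        ((isClosed_le continuous_const (G2_scos 1).continuous).inter
          (isClosed_le continuous_const Ce_smooth.continuous))))

theorem SK_per (k : Fin 3 → ℤ) {x : Vec 3} (hx : x ∈ SK) : x + vz k ∈ SK := by
  obtain ⟨h0, h1, h2, h3, h4⟩ := hx
  refine ⟨?_, ?_, ?_, ?_, ?_⟩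
  · rw [Fe_per]; exact h0
  · rw [qz_per]; exact h1
  · rw [G2_uu]; exact h2
  · rw [G2_cos]; exact h3
  · rw [Ce_per]; exact h4

theorem SK_sub {M' : Sub 3} (hM : M'.N = {x | Fe x = 0}) : SK ⊆ M'.N ∩ SO := by
  rintro x ⟨h0, h1, h2, h3, h4⟩
  refine ⟨?_, ?_, ?_, ?_, ?_⟩
  · rw [hM]; exact h0
  · linarith
  · linarith
  · refine lt_of_le_of_ne h3 fun h => ?_
    have s1 := Real.sin_sq_add_cos_sq (2 * Real.pi * x 1)
    rw [← h] at s1
    have h5 : uu x ^ 2 = 1 := by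
      have : uu x = Real.sin (2 * Real.pi * x 1) := rfl
      rw [this]
      linarith
    linarith
  · refine lt_of_le_of_ne h4 fun h => ?_
    have h5 := Fe_sq x
    rw [h0, ← h] at h5
    linarith

end EscW.Gn
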