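import Pool.Agent.EscW.GDefs
import Pool.Agent.EscW.D7

set_option autoImplicit false

/-!
Project EscW, part G, module G5: pull-back of the new metric, general form.
As `qnew_pull` of part D (module D7), for maps `e : Vec m' → Vec m`.
-/

noncomputable section

namespace EscW.Gn

open Filter Topology Set EscF.T EscM EscMT MeasureTheory EscW.Ex EscW.Dn
open scoped ContDiff

variable {d m n : ℕ}

theorem qnew_pull' {m' : ℕ} {M : Sub d} {q : Vec d → Vec d →L[ℝ] Vec d →L[ℝ] ℝ}
    {W : Set (Vec d)} {ρ s : ℝ} {g : Vec m → Vec d} {g' : Vec d → Vec m} (hg : MChart M m W ρ g g')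
    (A : Vec m ≃L[ℝ] Vec m) (hs : 0 < s) (w : Vec m → ℝ) {e : Vec m' → Vec m} (he : ContDiff ℝ ∞ e)
    (hb : ∀ X, ‖s • A (e X)‖ ≤ ρ / 2) (X v : Vec m') :
    qnew q W ρ s g' A w (g (s • A (e X))) (fderiv ℝ (fun X => g (s • A (e X))) X v)
      (fderiv ℝ (fun X => g (s • A (e X))) X v) = (s * w (e X)) ^ 2 * ‖fderiv ℝ e X v‖ ^ 2 := by
  have hρ := hg.pos
  have hball : ∀ X, s • A (e X) ∈ Metric.ball (0 : Vec m) ρ := fun X => by
    rw [mem_ball_zero_iff]; linarith [hb X]
  set G : Vec m' → Vec d := fun X => g (s • A (e X)) with hG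
  have hGX : G X ∈ W := (hg.maps _ (hball X)).2
  -- the integer vector is zero
  have h : ∃ l : Fin d → ℤ, G X + vz l ∈ W := ⟨0, by rw [vz_zero', add_zero]; exact hGX⟩
  have h0 : (vz h.choose : Vec d) = 0 := by
    apply D7_vz_small
    have h1 := hg.small _ h.choose_spec _ hGX
    rwa [dist_eq_norm, add_sub_cancel_left] at h1
  have e1 : qnew q W ρ s g' A w (G X) = qloc q ρ s g' A w (G X) := by
    unfold qnew; rw [dif_pos h, h0, add_zero]
  change qnew q W ρ s g' A w (G X) (fderiv ℝ G X v) (fderiv ℝ G X v) = _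
  rw [e1, D7_qloc]
  have hleft : g' (G X) = s • A (e X) := hg.left _ (hball X)
  -- the cut-off is one
  have hcb : cb ρ (g' (G X)) = 1 := by
    unfold cb
    rw [hleft, Real.smoothTransition.zero_of_nonpos, sub_zero]
    have h2 : ‖s • A (e X)‖ ^ 2 ≤ (ρ / 2) ^ 2 := by
      have := hb X
      have h3 := norm_nonneg (s • A (e X))
      nlinarith
    have h4 : 16 * ‖s • A (e X)‖ ^ 2 / ρ ^ 2 ≤ 4 := by
      rw [div_le_iff₀ (by positivity)]
      nlinarith
    linarith
  rw [hcb]
  -- the argument of the conformal factor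
  have hw1 : s⁻¹ • A.symm (g' (G X)) = e X := by
    rw [hleft, map_smul, smul_smul, inv_mul_cancel₀ hs.ne', one_smul, A.symm_apply_apply]
  rw [hw1]
  -- the derivative
  have hed : DifferentiableAt ℝ e X := he.differentiable (by simp) X
  have hAe : HasFDerivAt (fun X => s • A (e X)) (s • (A : Vec m →L[ℝ] Vec m).comp (fderiv ℝ e X)) X := by
    exact (((A : Vec m →L[ℝ] Vec m).hasFDerivAt (x := e X)).comp X hed.hasFDerivAt).const_smul s
  have hgd : DifferentiableAt ℝ g (s • A (e X)) :=
    ((hg.smooth.contDiffAt (Metric.isOpen_ball.mem_nhds (hball X))).differentiableAt (by simp))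
  have hGd : DifferentiableAt ℝ G X := by
    have := hgd.hasFDerivAt.comp X hAe
    exact this.differentiableAt
  have hg'd : DifferentiableAt ℝ g' (G X) :=
    ((hg.smooth'.contDiffAt (hg.isOpen.mem_nhds hGX)).differentiableAt (by simp))
  have hcomp : (fun X => g' (G X)) = fun X => s • A (e X) := by
    funext Y
    exact hg.left _ (hball Y)
  have hD : fderiv ℝ g' (G X) (fderiv ℝ G X v) = s • A (fderiv ℝ e X v) := by
    have h1 : HasFDerivAt (fun X => g' (G X)) ((fderiv ℝ g' (G X)).comp (fderiv ℝ G X)) X :=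
      hg'd.hasFDerivAt.comp X hGd.hasFDerivAt
    rw [hcomp] at h1
    have h2 := h1.unique hAe
    have h3 := congrArg (fun L : Vec m' →L[ℝ] Vec m => L v) h2
    simpa using h3
  rw [hD, map_smul, A.symm_apply_apply, norm_smul, Real.norm_eq_abs, mul_pow, sq_abs]
  ring

end EscW.Gn
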