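import Pool.Agent.EscW.G3

set_option autoImplicit false

/-!
Project EscW, part G, module G6: the calibrated circle.
For tangent `v`: `fderiv (BB ∘ M'.r) x v = ll v 0` (`fderiv M'.r x v = v`). `le`: `ll |v 0| ≤ s (1 - ε) / rr * √mn`, `(1 - ε) / rr ≤ tw (em x)`. `mem`: on the curve `uu = 0`, `(cos, sin)(2πx2) = (-1, sin(2πx0)) / √(1 + sin²)`, `Fe = 0`, `Ce = √qz`, `qz = 1 + sin² ≥ 1`. `only`: `mn > 0` (`mn_pos`), so
`tw (em x) = (1 - ε)/rr`, `(rr - 1)² = 0`, `uu x = 0`, `cos (2πx1) > 0`: `x 1` is an integer; `Fe = 0`, `Ce > 0` determine `x 2` modulo `ℤ`. `unit`: on the curve `rr = 1`, `tw = 1 - ε` (`2 - 2 qz ≤ 0`, `4·0 - 1 ≤ 0`), `mn = (2π/ll)²`. `simple`: `hφ`: equal `em`, so `x 0` agrees modulo `ℤ`.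
-/

noncomputable section

namespace EscW.Gn

open Filter Topology Set EscF.T EscM EscMT MeasureTheory EscW.Ex EscW.Dn
open scoped ContDiff

variable {d m n : ℕ}

theorem G6_cc0 (ε s σ t : ℝ) : (cc ε s σ t) 0 = σ / ll ε s - 1 / 2 := by
  simp [cc]

theorem G6_cc1 (ε s σ t : ℝ) : (cc ε s σ t) 1 = 0 := by
  simp [cc]

theorem G6_cc2 (ε s σ t : ℝ) : (cc ε s σ t) 2 =
    1 / 2 - Real.arctan (Real.sin (2 * Real.pi * (cc ε s σ t 0))) / (2 * Real.pi) := by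
  rw [G6_cc0]
  simp [cc]

theorem G6_ang (ε s σ t : ℝ) : 2 * Real.pi * (cc ε s σ t) 2 =
    Real.pi - Real.arctan (Real.sin (2 * Real.pi * (cc ε s σ t 0))) := by
  have hpi := Real.pi_pos
  rw [G6_cc2]
  field_simp

theorem G6_cos2 (ε s σ t : ℝ) : Real.cos (2 * Real.pi * (cc ε s σ t) 2) =
    -(1 / √(1 + Real.sin (2 * Real.pi * (cc ε s σ t 0)) ^ 2)) := by
  rw [G6_ang, Real.cos_pi_sub, Real.cos_arctan]

theorem G6_sin2 (ε s σ t : ℝ) : Real.sin (2 * Real.pi * (cc ε s σ t) 2) =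
    Real.sin (2 * Real.pi * (cc ε s σ t 0)) / √(1 + Real.sin (2 * Real.pi * (cc ε s σ t 0)) ^ 2) := by
  rw [G6_ang, Real.sin_pi_sub, Real.sin_arctan]

theorem G6_uu (ε s σ t : ℝ) : uu (cc ε s σ t) = 0 := by
  unfold uu
  rw [G6_cc1]
  simp

theorem G6_qz (ε s σ t : ℝ) : qz (cc ε s σ t) = 1 + Real.sin (2 * Real.pi * (cc ε s σ t 0)) ^ 2 := by
  unfold qz
  rw [G6_uu]
  ring

theorem G6_Fe (ε s σ t : ℝ) : Fe (cc ε s σ t) = 0 := by
  unfold Fe
  rw [G6_uu, G6_cos2, G6_sin2]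
  ring

theorem G6_Ce (ε s σ t : ℝ) : 0 < Ce (cc ε s σ t) := by
  unfold Ce
  rw [G6_uu, G6_cos2, G6_sin2]
  have h : 0 < √(1 + Real.sin (2 * Real.pi * (cc ε s σ t 0)) ^ 2) := Real.sqrt_pos.2 (by positivity)
  have h2 : (4 * 0 - 1) * -(1 / √(1 + Real.sin (2 * Real.pi * (cc ε s σ t 0)) ^ 2)) +
      Real.sin (2 * Real.pi * (cc ε s σ t 0)) * (Real.sin (2 * Real.pi * (cc ε s σ t 0)) /
        √(1 + Real.sin (2 * Real.pi * (cc ε s σ t 0)) ^ 2)) =
      (1 + Real.sin (2 * Real.pi * (cc ε s σ t 0)) ^ 2) /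
        √(1 + Real.sin (2 * Real.pi * (cc ε s σ t 0)) ^ 2) := by
    ring
  rw [h2]
  positivity

theorem G6_SO (ε s σ t : ℝ) : cc ε s σ t ∈ SO := by
  refine ⟨?_, ?_, ?_, G6_Ce ε s σ t⟩
  · rw [G6_qz]
    have := sq_nonneg (Real.sin (2 * Real.pi * (cc ε s σ t 0)))
    linarith
  · rw [G6_uu]
    norm_num
  · rw [G6_cc1]
    simp

/-- the curve is in the room -/
theorem cc_mem (ε s σ t : ℝ) : cc ε s σ t ∈ SK ∧ 1 ≤ qz (cc ε s σ t) ∧ uu (cc ε s σ t) = 0 := by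
  have h1 : 1 ≤ qz (cc ε s σ t) := by
    rw [G6_qz]
    have := sq_nonneg (Real.sin (2 * Real.pi * (cc ε s σ t 0)))
    linarith
  refine ⟨⟨G6_Fe ε s σ t, by linarith, ?_, ?_, (G6_Ce ε s σ t).le⟩, h1, G6_uu ε s σ t⟩
  · rw [G6_uu]
    norm_num
  · rw [G6_cc1]
    simp

theorem G6_ll_pos {ε s : ℝ} (hε4 : ε ≤ 1 / 4) (hs : 0 < s) : 0 < ll ε s := by
  unfold ll
  have := Real.pi_pos
  have h1 : 0 < 1 - ε := by linarith
  positivity

theorem G6_curve (ε s : ℝ) : ContDiff ℝ 1 (fun p : ℝ × ℝ => cc ε s p.1 p.2) := by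
  rw [contDiff_euclidean]
  intro i
  have h0 : ContDiff ℝ 1 (fun p : ℝ × ℝ => p.1 / ll ε s - 1 / 2) := by fun_prop
  fin_cases i
  · have h : (fun p : ℝ × ℝ => cc ε s p.1 p.2 0) = fun p => p.1 / ll ε s - 1 / 2 := by
      funext p
      exact G6_cc0 ε s p.1 p.2
    exact h ▸ h0
  · have h : (fun p : ℝ × ℝ => cc ε s p.1 p.2 1) = fun _ => 0 := by
      funext p
      exact G6_cc1 ε s p.1 p.2
    exact h ▸ contDiff_const
  · have h : (fun p : ℝ × ℝ => cc ε s p.1 p.2 2) = fun p => 1 / 2 -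
        Real.arctan (Real.sin (2 * Real.pi * (p.1 / ll ε s - 1 / 2))) / (2 * Real.pi) := by
      funext p
      rw [G6_cc2, G6_cc0]
    have h1 : ContDiff ℝ 1 (fun p : ℝ × ℝ => 1 / 2 -
        Real.arctan (Real.sin (2 * Real.pi * (p.1 / ll ε s - 1 / 2))) / (2 * Real.pi)) :=
      contDiff_const.sub ((Real.contDiff_arctan.comp (Real.contDiff_sin.comp (contDiff_const.mul h0))).div_const _)
    exact h ▸ h1

theorem G6_diff (ε s σ t : ℝ) : DifferentiableAt ℝ (fun σ => cc ε s σ t) σ := by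
  have h : (fun σ => cc ε s σ t) = (fun p : ℝ × ℝ => cc ε s p.1 p.2) ∘ fun σ => (σ, t) := rfl
  rw [h]
  exact ((G6_curve ε s).differentiable one_ne_zero _).comp _ (by fun_prop)

theorem G6_deriv (ε s σ t : ℝ) (i : Fin 3) {f : ℝ → ℝ} {a : ℝ} (hf : ∀ σ, cc ε s σ t i = f σ)
    (ha : HasDerivAt f a σ) : (deriv (fun σ => cc ε s σ t) σ) i = a := by
  have h1 := (EuclideanSpace.proj (𝕜 := ℝ) i).hasFDerivAt.comp_hasDerivAt σ (G6_diff ε s σ t).hasDerivAt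
  have h2 : ((EuclideanSpace.proj (𝕜 := ℝ) i : Vec 3 →L[ℝ] ℝ) ∘ fun σ => cc ε s σ t) = f := by
    funext τ
    exact hf τ
  rw [h2] at h1
  exact h1.unique ha

theorem G6_d0 (ε s σ t : ℝ) : (deriv (fun σ => cc ε s σ t) σ) 0 = (ll ε s)⁻¹ := by
  refine G6_deriv ε s σ t 0 (fun τ => G6_cc0 ε s τ t) ?_
  have h : HasDerivAt (fun τ : ℝ => τ / ll ε s - 1 / 2) (1 / ll ε s) σ :=
    ((hasDerivAt_id' σ).div_const (ll ε s)).sub_const (1 / 2)
  rw [← one_div]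
  exact h

theorem G6_d1 (ε s σ t : ℝ) : (deriv (fun σ => cc ε s σ t) σ) 1 = 0 :=
  G6_deriv ε s σ t 1 (fun τ => G6_cc1 ε s τ t) (hasDerivAt_const σ (0 : ℝ))

theorem G6_fderiv {M' : Sub 3} (ε s t : ℝ) {x v : Vec 3} (hx : x ∈ M'.N) (hv : IsTangent M' x v) :
    fderiv ℝ (fun y => BB ε s (M'.r y) t) x v = ll ε s * v 0 := by
  have hd : DifferentiableAt ℝ M'.r x :=
    (M'.smooth.contDiffAt (M'.isOpen.mem_nhds (M'.sub hx))).differentiableAt (by simp)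
  have h1 : HasFDerivAt (fun y => BB ε s (M'.r y) t)
      ((ll ε s • (EuclideanSpace.proj (0 : Fin 3) : Vec 3 →L[ℝ] ℝ)).comp (fderiv ℝ M'.r x)) x :=
    (ll ε s • (EuclideanSpace.proj (0 : Fin 3) : Vec 3 →L[ℝ] ℝ)).hasFDerivAt.comp x hd.hasFDerivAt
  rw [h1.fderiv]
  have h2 : fderiv ℝ M'.r x v = v := hv
  simp [h2]

theorem G6_mn_ge (δ : ℝ) (x v : Vec 3) : (2 * Real.pi * rr δ x * v 0) ^ 2 ≤ mn δ x v := by
  unfold mn
  have h1 : 0 ≤ (2 * Real.pi * δ * Real.cos (2 * Real.pi * x 1) * v 1) ^ 2 := by positivity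
  linarith

/-- the remainder -/
def G6_R (δ ε : ℝ) (x : Vec 3) : ℝ := (rr δ x - 1) ^ 2 +
  ε / 2 * (Real.smoothTransition (2 - 2 * qz x) + Real.smoothTransition (4 * uu x ^ 2 - 1))

theorem G6_le {δ ε s : ℝ} (hδ : 0 < δ) (h8 : δ ≤ 1 / 8) (hε4 : ε ≤ 1 / 4) (hs : 0 < s) (x v : Vec 3) :
    ll ε s * v 0 + s * G6_R δ ε x * √(mn δ x v) ≤ FM δ ε s x v := by
  have hr := (rr_bd hδ h8 x).1
  have hr0 : 0 < rr δ x := by linarith
  have hpi := Real.pi_pos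
  have h1 : 2 * Real.pi * rr δ x * v 0 ≤ √(mn δ x v) := Real.le_sqrt_of_sq_le (G6_mn_ge δ x v)
  have h2 : ll ε s * v 0 = s * ((1 - ε) / rr δ x) * (2 * Real.pi * rr δ x * v 0) := by
    unfold ll
    field_simp
  have h3 : 0 ≤ s * ((1 - ε) / rr δ x) := by
    have : 0 ≤ 1 - ε := by linarith
    positivity
  have h4 : ll ε s * v 0 ≤ s * ((1 - ε) / rr δ x) * √(mn δ x v) := by
    rw [h2]
    exact mul_le_mul_of_nonneg_left h1 h3
  have h5 : FM δ ε s x v = s * ((1 - ε) / rr δ x) * √(mn δ x v) + s * G6_R δ ε x * √(mn δ x v) := by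
    unfold FM tw G6_R
    rw [tr_em hδ h8, tz_em hδ h8, tu_em hδ h8]
    ring
  linarith

theorem G6_R_nonneg {δ ε : ℝ} (hε : 0 < ε) (x : Vec 3) : 0 ≤ G6_R δ ε x := by
  unfold G6_R
  have h1 := Real.smoothTransition.nonneg (2 - 2 * qz x)
  have h2 := Real.smoothTransition.nonneg (4 * uu x ^ 2 - 1)
  positivity

theorem G6_rem_nonneg {δ ε s : ℝ} (hε : 0 < ε) (hs : 0 < s) (x v : Vec 3) :
    0 ≤ s * G6_R δ ε x * √(mn δ x v) :=
  mul_nonneg (mul_nonneg hs.le (G6_R_nonneg hε x)) (Real.sqrt_nonneg _)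

theorem G6_rr (δ ε s σ t : ℝ) : rr δ (cc ε s σ t) = 1 := by
  unfold rr
  rw [G6_uu]
  ring

theorem G6_unit {δ ε s : ℝ} (hδ : 0 < δ) (h8 : δ ≤ 1 / 8) (hε4 : ε ≤ 1 / 4) (hs : 0 < s) (σ t : ℝ) :
    FM δ ε s (cc ε s σ t) (deriv (fun σ => cc ε s σ t) σ) = 1 := by
  have hl := G6_ll_pos hε4 hs
  have hpi := Real.pi_pos
  have hmn : √(mn δ (cc ε s σ t) (deriv (fun σ => cc ε s σ t) σ)) = 2 * Real.pi / ll ε s := by
    have h : mn δ (cc ε s σ t) (deriv (fun σ => cc ε s σ t) σ) = (2 * Real.pi / ll ε s) ^ 2 := by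
      unfold mn
      rw [G6_rr, G6_d0, G6_d1]
      ring
    rw [h, Real.sqrt_sq (by positivity)]
  unfold FM tw
  rw [hmn, tr_em hδ h8, tz_em hδ h8, tu_em hδ h8, G6_rr, G6_uu]
  have h1 : Real.smoothTransition (2 - 2 * qz (cc ε s σ t)) = 0 :=
    Real.smoothTransition.zero_of_nonpos (by linarith [(cc_mem ε s σ t).2.1])
  have h2 : Real.smoothTransition (4 * (0 : ℝ) ^ 2 - 1) = 0 :=
    Real.smoothTransition.zero_of_nonpos (by norm_num)
  rw [h1, h2]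
  unfold ll at hl ⊢
  have h3 : 0 < 1 - ε := by linarith
  field_simp
  ring

theorem G6_int {x : ℝ} (h : Real.cos (2 * Real.pi * x) = 1) : ∃ k : ℤ, x = k := by
  obtain ⟨k, hk⟩ := (Real.cos_eq_one_iff _).1 h
  refine ⟨k, ?_⟩
  have hpi := Real.pi_pos
  have h3 : 2 * Real.pi * (x - k) = 0 := by
    rw [mul_sub, ← hk]
    ring
  rcases mul_eq_zero.1 h3 with h5 | h5
  · linarith
  · linarith

theorem G6_third {x : Vec 3} (hu : uu x = 0) (hF : Fe x = 0) (hC : 0 < Ce x) :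
    ∃ k : ℤ, x 2 = 1 / 2 - Real.arctan (Real.sin (2 * Real.pi * x 0)) / (2 * Real.pi) + k := by
  have hpi := Real.pi_pos
  unfold Fe at hF
  unfold Ce at hC
  rw [hu] at hF hC
  set S := Real.sin (2 * Real.pi * x 0) with hS
  set a := Real.cos (2 * Real.pi * x 2) with ha
  set b := Real.sin (2 * Real.pi * x 2) with hb
  have hab : b ^ 2 + a ^ 2 = 1 := Real.sin_sq_add_cos_sq _
  have hb1 : b = -(S * a) := by linarith
  have h1 : 0 < -((1 + S ^ 2) * a) := by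
    have : (4 * 0 - 1) * a + S * b = -((1 + S ^ 2) * a) := by
      rw [hb1]
      ring
    rw [← this]
    exact hC
  have hS2 : 0 < 1 + S ^ 2 := by positivity
  have ha0 : 0 < -a := by
    by_contra hcon
    have : 0 ≤ (1 + S ^ 2) * a := mul_nonneg hS2.le (by linarith)
    linarith
  have h2 : (-a * √(1 + S ^ 2)) ^ 2 = 1 := by
    rw [mul_pow, Real.sq_sqrt hS2.le]
    rw [hb1] at hab
    linarith
  have h3 : -a * √(1 + S ^ 2) = 1 := by
    have h4 : 0 ≤ -a * √(1 + S ^ 2) := mul_nonneg ha0.le (Real.sqrt_nonneg _)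
    nlinarith
  have h5 : Real.cos (2 * Real.pi * (x 2 - (1 / 2 - Real.arctan S / (2 * Real.pi)))) = 1 := by
    have h6 : 2 * Real.pi * (x 2 - (1 / 2 - Real.arctan S / (2 * Real.pi))) =
        (2 * Real.pi * x 2 + Real.arctan S) - Real.pi := by
      field_simp
      ring
    rw [h6, Real.cos_sub_pi, Real.cos_add, Real.cos_arctan, Real.sin_arctan, ← ha, ← hb, hb1]
    have hq : 0 < √(1 + S ^ 2) := Real.sqrt_pos.2 hS2
    have h7 : √(1 + S ^ 2) * √(1 + S ^ 2) = 1 + S ^ 2 := Real.mul_self_sqrt hS2.le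
    have h8 : -(a * (1 / √(1 + S ^ 2)) - -(S * a) * (S / √(1 + S ^ 2))) =
        (-a * (1 + S ^ 2)) / √(1 + S ^ 2) := by ring
    rw [h8, div_eq_iff hq.ne']
    calc -a * (1 + S ^ 2) = -a * (√(1 + S ^ 2) * √(1 + S ^ 2)) := by rw [h7]
      _ = (-a * √(1 + S ^ 2)) * √(1 + S ^ 2) := by ring
      _ = 1 * √(1 + S ^ 2) := by rw [h3]
  obtain ⟨k, hk⟩ := G6_int h5
  exact ⟨k, by linarith⟩

theorem G6_only {M' : Sub 3} (hM : M'.N = {x | Fe x = 0}) {δ ε s : ℝ} (hδ : 0 < δ) (h8 : δ ≤ 1 / 8)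
    (hε : 0 < ε) (hε4 : ε ≤ 1 / 4) (hs : 0 < s) {x v : Vec 3} (hx : x ∈ M'.N ∩ SO) (hT : IsTangent M' x v)
    (t : ℝ) (hv : v ≠ 0) (h : ll ε s * v 0 = FM δ ε s x v) :
    ∃ (σ : ℝ) (k : Fin 3 → ℤ), x = cc ε s σ t + vz k := by
  have hl := G6_ll_pos hε4 hs
  have h1 := G6_le hδ h8 hε4 hs x v
  have h2 := G6_rem_nonneg (δ := δ) hε hs x v
  have h3 : s * G6_R δ ε x * √(mn δ x v) = 0 := by linarith
  have h4 : 0 < √(mn δ x v) := Real.sqrt_pos.2 (mn_pos hM hδ h8 hx hT hv)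
  have h5 : G6_R δ ε x = 0 := by
    rcases mul_eq_zero.1 h3 with h | h
    · rcases mul_eq_zero.1 h with h | h
      · exact absurd h hs.ne'
      · exact h
    · exact absurd h h4.ne'
  have h6 : (rr δ x - 1) ^ 2 = 0 := by
    unfold G6_R at h5
    have h7 := Real.smoothTransition.nonneg (2 - 2 * qz x)
    have h8' := Real.smoothTransition.nonneg (4 * uu x ^ 2 - 1)
    have h9 : 0 ≤ ε / 2 * (Real.smoothTransition (2 - 2 * qz x) +
      Real.smoothTransition (4 * uu x ^ 2 - 1)) := by positivity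
    have h10 := sq_nonneg (rr δ x - 1)
    linarith
  have hu : uu x = 0 := by
    have h7 := pow_eq_zero_iff (two_ne_zero) |>.1 h6
    unfold rr at h7
    have h8' : δ * uu x = 0 := by linarith
    rcases mul_eq_zero.1 h8' with h | h
    · exact absurd h hδ.ne'
    · exact h
  have hF : Fe x = 0 := by
    have := hx.1
    rw [hM] at this
    exact this
  obtain ⟨k2, hk2⟩ := G6_third hu hF hx.2.2.2.2
  have hc1 : Real.cos (2 * Real.pi * x 1) = 1 := by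
    rcases Real.sin_eq_zero_iff_cos_eq.1 hu with h | h
    · exact h
    · have := hx.2.2.2.1
      linarith
  obtain ⟨k1, hk1⟩ := G6_int hc1
  have h0 : (cc ε s (ll ε s * (x 0 + 1 / 2)) t) 0 = x 0 := by
    rw [G6_cc0, mul_div_cancel_left₀ _ hl.ne']
    ring
  refine ⟨ll ε s * (x 0 + 1 / 2), fun i => if i = 0 then 0 else if i = 1 then k1 else k2, ?_⟩
  ext i
  fin_cases i
  · show x 0 = (cc ε s (ll ε s * (x 0 + 1 / 2)) t) 0 + _
    rw [h0]
    simp [vz]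
  · show x 1 = (cc ε s (ll ε s * (x 0 + 1 / 2)) t) 1 + _
    rw [G6_cc1, hk1]
    simp [vz]
  · show x 2 = (cc ε s (ll ε s * (x 0 + 1 / 2)) t) 2 + _
    rw [G6_cc2, h0, hk2]
    simp [vz]

theorem G6_em0 (δ ε s σ t : ℝ) : em δ (cc ε s σ t) 0 = Real.cos (2 * Real.pi * (cc ε s σ t 0)) := by
  simp only [em, if_true]
  rw [G6_rr, one_mul]

theorem G6_em1 (δ ε s σ t : ℝ) : em δ (cc ε s σ t) 1 = Real.sin (2 * Real.pi * (cc ε s σ t 0)) := by
  have h : em δ (cc ε s σ t) 1 = rr δ (cc ε s σ t) * Real.sin (2 * Real.pi * (cc ε s σ t 0)) := by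
    simp [em]
  rw [h, G6_rr, one_mul]

theorem cal {M' : Sub 3} (hM : M'.N = {x | Fe x = 0}) {δ ε s : ℝ} (hδ : 0 < δ) (h8 : δ ≤ 1 / 8) (hε : 0 < ε)
    (hε4 : ε ≤ 1 / 4) (hs : 0 < s) {F : Vec 3 → Vec 3 → ℝ → ℝ}
    (hF : ∀ x ∈ SO, ∀ v t, F x v t = FM δ ε s x v) {φ : Vec 3 → Vec d}
    (hφ : ∀ x y (l : Fin d → ℤ), φ y = φ x + vz l → em δ x = em δ y) :
    IsCalibratedW M' SO φ F (BB ε s) 0 (ll ε s) (cc ε s) := by
  have hl := G6_ll_pos hε4 hs
  exact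
  { smooth := by
      have h1 : ContDiffOn ℝ 1 (fun p : Vec 3 × ℝ => M'.r p.1) {p | p.1 ∈ M'.U ∧ M'.r p.1 ∈ SO} :=
        (M'.smooth.of_le (by exact_mod_cast le_top)).comp contDiff_fst.contDiffOn (fun p hp => hp.1)
      exact (ll ε s • (EuclideanSpace.proj (0 : Fin 3) : Vec 3 →L[ℝ] ℝ)).contDiff.comp_contDiffOn h1
    periodic := fun _ _ _ => rfl
    periods := fun k => ⟨ll ε s * k 0, fun x _ _ => by simp [BB, vz, mul_add]⟩
    lip := ⟨0, fun x hx v hv t t' => by rw [G6_fderiv ε s t hx.1 hv, G6_fderiv ε s t' hx.1 hv]; simp⟩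
    le := fun x hx v hv t => by
      rw [G6_fderiv ε s t hx.1 hv, hF x hx.2]
      have h1 := G6_le hδ h8 hε4 hs x v
      have h2 := G6_rem_nonneg (δ := δ) hε hs x v
      linarith
    len_pos := hl
    curve := G6_curve ε s
    mem := fun σ t => ⟨by rw [hM]; exact G6_Fe ε s σ t, G6_SO ε s σ t⟩
    closed := fun σ t => by
      have h0 : (cc ε s (σ + ll ε s) t) 0 = cc ε s σ t 0 + 1 := by
        rw [G6_cc0, G6_cc0, add_div, div_self hl.ne']
        ring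
      have h1 : Real.sin (2 * Real.pi * (cc ε s (σ + ll ε s) t 0)) =
          Real.sin (2 * Real.pi * (cc ε s σ t 0)) := by
        rw [h0, mul_add, mul_one, Real.sin_add_two_pi]
      ext i
      fin_cases i
      · show (cc ε s (σ + ll ε s) t) 0 = (cc ε s σ t) 0 + _
        rw [h0]
        simp [vz]
      · show (cc ε s (σ + ll ε s) t) 1 = (cc ε s σ t) 1 + _
        rw [G6_cc1, G6_cc1]
        simp [vz]
      · show (cc ε s (σ + ll ε s) t) 2 = (cc ε s σ t) 2 + _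
        rw [G6_cc2, h1, ← G6_cc2]
        simp [vz]
    curve_per := fun _ _ => rfl
    unit := fun σ t => by
      rw [hF _ (G6_SO ε s σ t), G6_unit hδ h8 hε4 hs]
    cal := fun σ t => (by
      simp only [BB, G6_cc0]
      field_simp
      ring)
    only := fun x hx v hT t hv h => by
      rw [G6_fderiv ε s t hx.1 hT, hF x hx.2] at h
      exact G6_only hM hδ h8 hε hε4 hs hx hT t hv h
    simple := fun σ σ' t l h => by
      have h1 := hφ _ _ l h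
      have hc : Real.cos (2 * Real.pi * (cc ε s σ' t 0)) = Real.cos (2 * Real.pi * (cc ε s σ t 0)) := by
        rw [← G6_em0 δ, ← G6_em0 δ, h1]
      have hsn : Real.sin (2 * Real.pi * (cc ε s σ' t 0)) = Real.sin (2 * Real.pi * (cc ε s σ t 0)) := by
        rw [← G6_em1 δ, ← G6_em1 δ, h1]
      have h2 : Real.cos (2 * Real.pi * (cc ε s σ t 0 - cc ε s σ' t 0)) = 1 := by
        rw [mul_sub, Real.cos_sub, hc, hsn]
        have := Real.sin_sq_add_cos_sq (2 * Real.pi * (cc ε s σ t 0))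
        linarith
      obtain ⟨k, hk⟩ := G6_int h2
      refine ⟨k, ?_⟩
      rw [G6_cc0, G6_cc0] at hk
      have h3 : σ / ll ε s - σ' / ll ε s = k := by linarith
      rw [← h3]
      field_simp }

end EscW.Gn
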