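import Pool.Agent.EscW.G1
import Pool.Agent.EscW.G4
import Pool.Agent.EscW.G5
import Pool.Agent.EscW.G7
import Pool.Agent.EscW.D3
import Pool.Agent.EscW.D6
import Pool.Agent.EscW.D7
import Pool.Agent.EscW.D8

set_option autoImplicit false

/-!
Project EscW, part G, module G8: density on surfaces.
As D11 with `m = 2`, `M'` from `exists_sub_level` (`Fe_smooth`, `Fe_per`, `Fe_reg`), `exists_chart`, `cal`, `room`, `w = tW δ ε1`, `qnew_pull'`, `tW_em`.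
-/

noncomputable section

namespace EscW.Gn

open Filter Topology Set EscF.T EscM EscMT MeasureTheory EscW.Ex EscW.Dn
open scoped ContDiff

variable {d m n : ℕ}

theorem dense_surface {M : Sub d} {y0 : Vec d} (hy : y0 ∈ M.N)
    (hdim : Module.finrank ℝ (LinearMap.range (fderiv ℝ M.r y0 : Vec d →ₗ[ℝ] Vec d)) = 2)
    {j : ℕ∞} {q : Vec d → Vec d →L[ℝ] Vec d →L[ℝ] ℝ} (hq : IsRiemannian M j q)
    {W0 : Set (Vec d)} (hW : IsOpen W0) (hy0 : y0 ∈ W0) {ε : ℝ} (hε : 0 < ε) :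
    ∃ q' : Vec d → Vec d →L[ℝ] Vec d →L[ℝ] ℝ, IsRiemannian M j q' ∧
      (∀ x ∈ M.N, ∀ v, IsTangent M x v → |q' x v v - q x v v| ≤ ε * q x v v) ∧
      (∀ x ∈ M.N, (∀ l : Fin d → ℤ, x + vz l ∉ W0) → q' x = q x) ∧
      ∀ κ : ℝ → ℝ, IsWeight κ → ∀ L : Lag d, IsNearT M κ (nrm q') L → InClass M L := by
  obtain ⟨M', hM⟩ := exists_sub_level Fe_smooth Fe_per Fe_reg
  set ε1 : ℝ := min (1 / 4) (ε / 8) with hε1
  have he0 : 0 < ε1 := lt_min (by norm_num) (by linarith)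
  have he4 : ε1 ≤ 1 / 4 := min_le_left _ _
  have he8 : ε1 ≤ ε / 8 := min_le_right _ _
  set η : ℝ := min 1 (ε / 2) with hη
  have hη0 : 0 < η := lt_min one_pos (by linarith)
  have hη1 : η ≤ 1 := min_le_left _ _
  have hη2 : η ≤ ε / 2 := min_le_right _ _
  obtain ⟨W, ρ, g, g', A, hWW, hd⟩ := exists_mdata hy hdim hq hW hy0 hη0
  have hg := hd.chart
  obtain ⟨δ0, hδ00, H⟩ := room he0 he4
  set δ : ℝ := min (min δ0 (ε1 / 8)) (1 / 8) with hδdef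
  have hδ : 0 < δ := lt_min (lt_min hδ00 (by linarith)) (by norm_num)
  have h8 : δ ≤ 1 / 8 := min_le_right _ _
  have hδ0 : δ ≤ δ0 := (min_le_left _ _).trans (min_le_left _ _)
  have hδε : δ ≤ ε1 / 8 := (min_le_left _ _).trans (min_le_right _ _)
  have hρ : 0 < ρ := hg.pos
  have hA0 : 0 ≤ ‖(A : Vec 2 →L[ℝ] Vec 2)‖ := norm_nonneg _
  set s : ℝ := ρ / (4 * (‖(A : Vec 2 →L[ℝ] Vec 2)‖ + 1)) with hsdef
  have hs : 0 < s := by positivity
  have hsA : s * (‖(A : Vec 2 →L[ℝ] Vec 2)‖ * 2) ≤ ρ / 2 := by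
    have h1 : s * (4 * (‖(A : Vec 2 →L[ℝ] Vec 2)‖ + 1)) = ρ := by
      rw [hsdef]
      field_simp
    nlinarith
  have hwb : ∀ Y : Vec 2, 1 - 2 * ε1 ≤ tW δ ε1 Y ∧ tW δ ε1 Y ≤ 1 := fun Y =>
    tW_bd he0 he4 hδ hδε Y
  have hwpos : ∀ Y : Vec 2, 0 < tW δ ε1 Y := fun Y => by linarith [(hwb Y).1]
  have hriem : IsRiemannian M j (qnew q W ρ s g' A (tW δ ε1)) :=
    qnew_riem hq hg A hs (tW_smooth hδ h8 ε1) hwpos
  refine ⟨qnew q W ρ s g' A (tW δ ε1), hriem, fun x hx v hv => ?_, fun x _ hx => ?_, fun κ hκ L hL => ?_⟩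
  · refine (qnew_near hq hd hη0.le hη1 he0 he4 hwb hx hv).trans ?_
    have h1 : 0 ≤ q x v v := by
      by_cases hv0 : v = 0
      · rw [hv0, map_zero]
      · exact (hq.pos x hx v hv hv0).le
    exact mul_le_mul_of_nonneg_right (by linarith) h1
  · exact qnew_off fun l hl => hx l (hWW hl)
  · have hb : ∀ X : Vec 3, ‖s • A (em δ X)‖ ≤ ρ / 2 := fun X =>
      (phi_mem hg A hδ h8 hs hsA X).1
    have hF : ∀ x ∈ SO, ∀ v t, pull (fun x => g (s • A (em δ x)))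
        (nrm (qnew q W ρ s g' A (tW δ ε1))) x v t = FM δ ε1 s x v := by
      intro x hx v t
      have h1 := qnew_pull' hg (q := q) A hs (tW δ ε1) (em_smooth δ) hb x v
      simp only [pull, nrm, FM]
      rw [h1, em_fd, tW_em hδ h8 ε1 hx.1.le hx.2.1.le, Real.sqrt_mul (sq_nonneg _), Real.sqrt_sq]
      rw [← tW_em hδ h8 ε1 hx.1.le hx.2.1.le]
      exact (mul_pos hs (hwpos _)).le
    obtain ⟨a, Ha⟩ := H δ hδ hδ0 s hs
    refine ⟨κ, nrm (qnew q W ρ s g' A (tW δ ε1)), 3, M', SO, SK, ⊥,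
      fun x => g (s • A (em δ x)), BB ε1 s, 0, ll ε1 s, a, cc ε1 s, ?_, finsler_of_riem hriem, hL,
      exists_chart hg A hM hδ h8 hs hsA, ?_, Ha M' hM _ hF⟩
    · exact hκ
    · exact cal hM hδ h8 he0 he4 hs hF fun x y l h => phi_inj hg A hδ h8 hs hsA x y l h

end EscW.Gn
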