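import Pool.Agent.EscW.WEDefs
import Pool.Agent.EscM.N1

set_option autoImplicit false

/-!
Project EscW, module H1: the chart.
`tangent`: `M.r (φ (M'.r y)) = φ (M'.r y)` for `y` near `x` (`M'.r y ∈ M'.N ∩ O`), differentiate at `x` in the direction `v` (`M'.r x = x`, `fderiv ℝ M'.r x v = v`).
`inj`: `ψ (φ (M'.r y)) = M'.r y` near `x` (`IsChart.inverse`). `shift`: `φ (x + vz n) - φ x` is an integer vector for `x ∈ M'.N ∩ O` (`fibre` with `P = 1`) and continuous, so it is locally constant along `y ↦ M'.r y`.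
-/

noncomputable section

namespace EscW

open MeasureTheory Set Filter Topology Esc EscF EscG EscM EscMT EscF.T
open scoped ContDiff

variable {d m : ℕ} {M : Sub d} {M' : Sub m} {O K : Set (Vec m)} {G : Subgroup (Vec m ≃ₗᵢ[ℝ] Vec m)}
  {φ : Vec m → Vec d} {κ : ℝ → ℝ} {F : Vec d → Vec d → ℝ → ℝ} {L : Lag d} {B : Vec m → ℝ → ℝ} {i : Fin m}
  {len a : ℝ} {c : ℝ → ℝ → Vec m} {ρ a0 : ℝ} {Ψ Ψ₂ χ : Vec m → ℝ} {R : Vec m → Vec m} {ℓ : Vec m →L[ℝ] ℝ}

theorem H1_diff_r (M : Sub m) {x : Vec m} (hx : x ∈ M.U) : DifferentiableAt ℝ M.r x :=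
  ((M.smooth x hx).contDiffAt (M.isOpen.mem_nhds hx)).differentiableAt (by simp)

theorem IsChart.H1_diff_φ (h : IsChart M M' O G φ) {x : Vec m} (hx : x ∈ O) : DifferentiableAt ℝ φ x :=
  ((h.smooth x hx).contDiffAt (h.isOpen.mem_nhds hx)).differentiableAt (by simp)

/-- the nearest point map maps a neighbourhood of `x` to `M'.N ∩ O` -/
theorem IsChart.H1_ev (h : IsChart M M' O G φ) {x : Vec m} (hx : x ∈ M'.N ∩ O) :
    ∀ᶠ y in 𝓝 x, M'.r y ∈ M'.N ∩ O := by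
  have hU : x ∈ M'.U := M'.sub hx.1
  have h1 : ∀ᶠ y in 𝓝 x, y ∈ M'.U := M'.isOpen.mem_nhds hU
  have h2 : ∀ᶠ y in 𝓝 x, M'.r y ∈ O := by
    apply (H1_diff_r M' hU).continuousAt.eventually_mem
    rw [r_self M' hx.1]
    exact h.isOpen.mem_nhds hx.2
  filter_upwards [h1, h2] with y h3 h4
  exact ⟨M'.mem y h3, h4⟩

/-- the derivative of `φ ∘ r` at a point of `M'.N ∩ O` -/
theorem IsChart.H1_comp (h : IsChart M M' O G φ) {x : Vec m} (hx : x ∈ M'.N ∩ O) :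
    HasFDerivAt (fun y => φ (M'.r y)) ((fderiv ℝ φ x).comp (fderiv ℝ M'.r x)) x := by
  have h1 : HasFDerivAt φ (fderiv ℝ φ x) (M'.r x) := by
    rw [r_self M' hx.1]
    exact (h.H1_diff_φ hx.2).hasFDerivAt
  exact h1.comp x (H1_diff_r M' (M'.sub hx.1)).hasFDerivAt

theorem IsChart.tangent (h : IsChart M M' O G φ) {x v : Vec m} (hx : x ∈ M'.N ∩ O) (hv : IsTangent M' x v) :
    IsTangent M (φ x) (fderiv ℝ φ x v) := by
  have hφ := h.H1_comp hx
  have hφx : φ x ∈ M.N := h.maps x hx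
  have h1 : HasFDerivAt (fun y => M.r (φ (M'.r y)))
      ((fderiv ℝ M.r (φ x)).comp ((fderiv ℝ φ x).comp (fderiv ℝ M'.r x))) x := by
    have h2 : HasFDerivAt M.r (fderiv ℝ M.r (φ x)) (φ (M'.r x)) := by
      rw [r_self M' hx.1]
      exact (H1_diff_r M (M.sub hφx)).hasFDerivAt
    exact h2.comp x hφ
  have h3 : (fun y => M.r (φ (M'.r y))) =ᶠ[𝓝 x] fun y => φ (M'.r y) := by
    filter_upwards [h.H1_ev hx] with y hy
    exact r_self M (h.maps _ hy)
  have h4 := (h1.congr_of_eventuallyEq h3.symm).unique hφ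
  have h5 := DFunLike.congr_fun h4 v
  simp only [ContinuousLinearMap.comp_apply] at h5
  rw [IsTangent] at hv
  rw [hv] at h5
  exact h5

theorem IsChart.inj (h : IsChart M M' O G φ) {x v : Vec m} (hx : x ∈ M'.N ∩ O) (hv : IsTangent M' x v)
    (h0 : fderiv ℝ φ x v = 0) : v = 0 := by
  obtain ⟨ψ, hψ, hψ1, -⟩ := h.inverse x hx
  have hφ := h.H1_comp hx
  have hr := H1_diff_r M' (M'.sub hx.1)
  have h1 : HasFDerivAt (fun y => ψ (φ (M'.r y)))
      ((fderiv ℝ ψ (φ x)).comp ((fderiv ℝ φ x).comp (fderiv ℝ M'.r x))) x := by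
    have h2 : HasFDerivAt ψ (fderiv ℝ ψ (φ x)) (φ (M'.r x)) := by
      rw [r_self M' hx.1]
      exact (hψ.differentiableAt (by simp)).hasFDerivAt
    exact h2.comp x hφ
  have h3 : (fun y => ψ (φ (M'.r y))) =ᶠ[𝓝 x] M'.r := by
    have h4 : Tendsto M'.r (𝓝 x) (𝓝 x) := by
      have := hr.continuousAt
      rw [ContinuousAt, r_self M' hx.1] at this
      exact this
    filter_upwards [h.H1_ev hx, h4.eventually hψ1] with y hy hy1
    exact hy1 hy.1
  have h4 := (h1.congr_of_eventuallyEq h3.symm).unique hr.hasFDerivAt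
  have h5 := DFunLike.congr_fun h4 v
  simp only [ContinuousLinearMap.comp_apply] at h5
  rw [IsTangent] at hv
  rw [hv, h0, map_zero] at h5
  exact h5.symm

theorem H1_vz_sub (l l' : Fin d → ℤ) : (vz (l - l') : Vec d) = vz l - vz l' := by
  rw [sub_eq_add_neg, vz_add', vz_neg', ← sub_eq_add_neg]

theorem H1_vz_eq_zero {l : Fin d → ℤ} (h : ‖(vz l : Vec d)‖ < 1) : l = 0 := by
  ext j
  have h1 : ‖(vz l : Vec d) j‖ ≤ ‖(vz l : Vec d)‖ := PiLp.norm_apply_le (vz l : Vec d) j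
  have h2 : (vz l : Vec d) j = (l j : ℝ) := rfl
  rw [h2, Real.norm_eq_abs, ← Int.cast_abs] at h1
  have h3 : ((|l j| : ℤ) : ℝ) < ((1 : ℤ) : ℝ) := by
    rw [Int.cast_one]
    exact h1.trans_lt h
  exact Int.abs_lt_one_iff.1 (Int.cast_lt.1 h3)

theorem IsChart.H1_shift0 (h : IsChart M M' O G φ) {x : Vec m} (hx : x ∈ M'.N ∩ O) (n : Fin m → ℤ) :
    ∃ l : Fin d → ℤ, φ (x + vz n) = φ x + vz l :=
  (h.fibre x hx (x + vz n) ⟨M'.perN n x hx.1, h.perO n x hx.2⟩).2 ⟨1, G.one_mem, n, rfl⟩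

theorem IsChart.shift (h : IsChart M M' O G φ) {x : Vec m} (hx : x ∈ M'.N ∩ O) (n : Fin m → ℤ) :
    ∃ l : Fin d → ℤ, φ (x + vz n) = φ x + vz l ∧
      ∀ v, IsTangent M' x v → fderiv ℝ φ (x + vz n) v = fderiv ℝ φ x v := by
  obtain ⟨l, hl⟩ := h.H1_shift0 hx n
  refine ⟨l, hl, fun v hv => ?_⟩
  have hr := H1_diff_r M' (M'.sub hx.1)
  have hφ := h.H1_comp hx
  have hx' : x + vz n ∈ M'.N ∩ O := ⟨M'.perN n x hx.1, h.perO n x hx.2⟩
  have h1 : HasFDerivAt (fun y => φ (M'.r y + vz n)) ((fderiv ℝ φ (x + vz n)).comp (fderiv ℝ M'.r x)) x := by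
    have h2 : HasFDerivAt φ (fderiv ℝ φ (x + vz n)) (M'.r x + vz n) := by
      rw [r_self M' hx.1]
      exact (h.H1_diff_φ hx'.2).hasFDerivAt
    exact h2.comp x (hr.hasFDerivAt.add_const (vz n))
  have hg : ContinuousAt (fun y => φ (M'.r y + vz n) - φ (M'.r y)) x :=
    h1.continuousAt.sub hφ.continuousAt
  have h3 : ∀ᶠ y in 𝓝 x, φ (M'.r y + vz n) = φ (M'.r y) + vz l := by
    have h4 : ∀ᶠ y in 𝓝 x, dist (φ (M'.r y + vz n) - φ (M'.r y)) (vz l) < 1 := by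
      have h5 : φ (M'.r x + vz n) - φ (M'.r x) = vz l := by
        rw [r_self M' hx.1, hl, add_sub_cancel_left]
      have h6 := Metric.tendsto_nhds.1 hg 1 one_pos
      simp only [h5] at h6
      exact h6
    filter_upwards [h.H1_ev hx, h4] with y hy hy1
    obtain ⟨l', hl'⟩ := h.H1_shift0 hy n
    rw [hl', add_sub_cancel_left, dist_eq_norm, ← H1_vz_sub] at hy1
    have h7 := H1_vz_eq_zero hy1
    rw [hl', sub_eq_zero.1 h7]
  have h4 := (h1.congr_of_eventuallyEq (f₁ := fun y => φ (M'.r y) + vz l)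
    (h3.mono fun y hy => hy.symm)).unique (hφ.add_const (vz l))
  have h5 := DFunLike.congr_fun h4 v
  simp only [ContinuousLinearMap.comp_apply] at h5
  rw [IsTangent] at hv
  rw [hv] at h5
  exact h5

theorem H1_fderiv_r_vz (M' : Sub m) {x : Vec m} (hx : x ∈ M'.U) (n : Fin m → ℤ) :
    fderiv ℝ M'.r (x + vz n) = fderiv ℝ M'.r x := by
  have h1 : (fun y => M'.r (y + vz n)) =ᶠ[𝓝 x] fun y => M'.r y + vz n := by
    filter_upwards [M'.isOpen.mem_nhds hx] with y hy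
    exact r_vz M' n hy
  have h2 := h1.fderiv_eq (𝕜 := ℝ)
  rw [fderiv_comp_add_right, fderiv_add_const] at h2
  exact h2

theorem tangent_vz (M' : Sub m) {x v : Vec m} (hx : x ∈ M'.N) (n : Fin m → ℤ) :
    IsTangent M' (x + vz n) v ↔ IsTangent M' x v := by
  rw [IsTangent, IsTangent, H1_fderiv_r_vz M' (M'.sub hx) n]

theorem IsChart.perO_iff (h : IsChart M M' O G φ) (n : Fin m → ℤ) (x : Vec m) : x + vz n ∈ O ↔ x ∈ O :=
  ⟨fun hx => by
    have := h.perO (-n) _ hx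
    rwa [N1_add_neg] at this, h.perO n x⟩

/-- the pulled back metric is periodic -/
theorem IsChart.pull_per (h : IsChart M M' O G φ) (hF : IsFinslerT M F) {x v : Vec m}
    (hx : x ∈ M'.N ∩ O) (hv : IsTangent M' x v) (n : Fin m → ℤ) (t : ℝ) :
    pull φ F (x + vz n) v t = pull φ F x v t := by
  obtain ⟨l, hl, hl'⟩ := h.shift hx n
  rw [pull, pull, hl, hl' v hv]
  exact (hF.fins t).periodic l (φ x) (h.maps x hx) _ (h.tangent hx hv)

/-- the pulled back Lagrangian is periodic -/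
theorem IsChart.pull_lag (h : IsChart M M' O G φ) (hL : IsNearT M κ F L) {x v : Vec m}
    (hx : x ∈ M'.N ∩ O) (hv : IsTangent M' x v) (n : Fin m → ℤ) (t : ℝ) :
    L (φ (x + vz n), fderiv ℝ φ (x + vz n) v, t) = L (φ x, fderiv ℝ φ x v, t) := by
  obtain ⟨l, hl, hl'⟩ := h.shift hx n
  rw [hl, hl' v hv]
  have h1 := hL.periodic l 0 (φ x) (h.maps x hx) _ t (h.tangent hx hv)
  rw [Int.cast_zero, add_zero] at h1
  exact h1

end EscW
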