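import Pool.Agent.EscW.WEDefs
import Pool.Agent.EscM.N0
import Pool.Agent.EscM.N1

set_option autoImplicit false

/-!
Project EscW, module H2: cut-offs.
`exists_sep`: compactness modulo the lattice. `exists_cut0`: smooth periodic cut-off between `{infDist x K ≤ p}` and `{q ≤ infDist x K}`: convolution of a periodic function. `exists_cut`: `TubeD` from `EscM.exists_tube`, the same `ρ`; `χ x = χ_D x * Ψ₂ (R x)`. `ℓ`: `n ↦ a n` of
`periods` is additive (`M'.N ∩ O` is not empty: it contains `c 0 0`), so it is the restriction of a linear map; `K ⊆ O`, `infDist x K < 4 a0` implies `x ∈ O` for small `a0`.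
-/

noncomputable section

namespace EscW

open MeasureTheory Set Filter Topology Esc EscF EscG EscM EscMT EscF.T
open scoped ContDiff

variable {d m : ℕ} {M : Sub d} {M' : Sub m} {O K : Set (Vec m)} {G : Subgroup (Vec m ≃ₗᵢ[ℝ] Vec m)}
  {φ : Vec m → Vec d} {κ : ℝ → ℝ} {F : Vec d → Vec d → ℝ → ℝ} {L : Lag d} {B : Vec m → ℝ → ℝ} {i : Fin m}
  {len a : ℝ} {c : ℝ → ℝ → Vec m} {ρ a0 : ℝ} {Ψ Ψ₂ χ : Vec m → ℝ} {R : Vec m → Vec m} {ℓ : Vec m →L[ℝ] ℝ}

theorem H2_infDist {K : Set (Vec m)} (hKp : ∀ (n : Fin m → ℤ), ∀ x ∈ K, x + vz n ∈ K)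
    (n : Fin m → ℤ) (x : Vec m) : Metric.infDist (x + vz n) K = Metric.infDist x K := by
  have himg : (fun y => y + vz n) '' K = K := by
    ext y
    constructor
    · rintro ⟨z, hz, rfl⟩
      exact hKp n z hz
    · intro hy
      refine ⟨y + vz (-n), hKp (-n) y hy, ?_⟩
      show y + vz (-n) + vz n = y
      rw [vz_neg', neg_add_cancel_right]
  have hiso : Isometry (fun y : Vec m => y + vz n) := isometry_add_right _
  calc Metric.infDist (x + vz n) K = Metric.infDist ((fun y => y + vz n) x) ((fun y => y + vz n) '' K) := by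
        rw [himg]
    _ = Metric.infDist x K := Metric.infDist_image hiso

theorem exists_sep {K O : Set (Vec m)} (hK : IsClosed K) (hKp : ∀ (n : Fin m → ℤ), ∀ x ∈ K, x + vz n ∈ K)
    (hO : IsOpen O) (hOp : ∀ (n : Fin m → ℤ), ∀ x ∈ O, x + vz n ∈ O) (hKO : K ⊆ O) (hne : K.Nonempty) :
    ∃ a0 : ℝ, 0 < a0 ∧ ∀ x, Metric.infDist x K < 4 * a0 → x ∈ O := by
  obtain ⟨C, hC⟩ := N0_fund m
  have hcpt : IsCompact (Metric.closedBall (0 : Vec m) C ∩ Oᶜ) :=
    (isCompact_closedBall _ _).inter_right hO.isClosed_compl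
  have hpos : ∀ x ∈ Metric.closedBall (0 : Vec m) C ∩ Oᶜ, 0 < Metric.infDist x K := by
    intro x hx
    exact (hK.notMem_iff_infDist_pos hne).1 fun h => hx.2 (hKO h)
  obtain ⟨δ, hδ, hmin⟩ : ∃ δ : ℝ, 0 < δ ∧ ∀ x ∈ Metric.closedBall (0 : Vec m) C ∩ Oᶜ,
      δ ≤ Metric.infDist x K := by
    rcases (Metric.closedBall (0 : Vec m) C ∩ Oᶜ).eq_empty_or_nonempty with h | h
    · exact ⟨1, one_pos, fun x hx => by rw [h] at hx; exact absurd hx (notMem_empty x)⟩
    · obtain ⟨x0, hx0, h0⟩ := hcpt.exists_isMinOn h (Metric.continuous_infDist_pt K).continuousOn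
      exact ⟨_, hpos x0 hx0, fun x hx => h0 hx⟩
  refine ⟨δ / 4, by linarith, fun x hx => ?_⟩
  by_contra hU
  obtain ⟨n, hn⟩ := hC x
  have h1 : x + vz n ∉ O := by
    intro h
    have h2 := hOp (-n) _ h
    rw [N1_add_neg] at h2
    exact hU h2
  have h2 := hmin (x + vz n) ⟨by rw [mem_closedBall_zero_iff]; exact hn, h1⟩
  rw [H2_infDist hKp] at h2
  linarith

open scoped Convolution in
theorem exists_cut0 {K : Set (Vec m)} (hK : IsClosed K) (hKp : ∀ (n : Fin m → ℤ), ∀ x ∈ K, x + vz n ∈ K)
    (hne : K.Nonempty) {p q : ℝ} (hp : 0 ≤ p) (hpq : p < q) : ∃ Ψ : Vec m → ℝ, ContDiff ℝ ∞ Ψ ∧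
      (∀ (n : Fin m → ℤ) x, Ψ (x + vz n) = Ψ x) ∧ (∀ x, 0 ≤ Ψ x ∧ Ψ x ≤ 1) ∧
      (∀ x, Metric.infDist x K ≤ p → Ψ x = 1) ∧ ∀ x, q ≤ Metric.infDist x K → Ψ x = 0 := by
  classical
  set A : Set (Vec m) := {x | Metric.infDist x K ≤ (p + q) / 2} with hA
  have hAc : IsClosed A := isClosed_le (Metric.continuous_infDist_pt K) continuous_const
  set g : Vec m → ℝ := A.indicator (fun _ => (1 : ℝ)) with hg
  have hgi : LocallyIntegrable g volume := (locallyIntegrable_const (1 : ℝ)).indicator hAc.measurableSet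
  have hg01 : ∀ x, 0 ≤ g x ∧ g x ≤ 1 := by
    intro x
    by_cases hx : x ∈ A
    · rw [hg, Set.indicator_of_mem hx]
      exact ⟨zero_le_one, le_rfl⟩
    · rw [hg, Set.indicator_of_notMem hx]
      exact ⟨le_rfl, zero_le_one⟩
  have hgp : ∀ (n : Fin m → ℤ) x, g (x + vz n) = g x := by
    intro n x
    have h1 : x + vz n ∈ A ↔ x ∈ A := by
      rw [hA, Set.mem_ofPred_eq, Set.mem_ofPred_eq, H2_infDist hKp]
    by_cases hx : x ∈ A
    · rw [hg, Set.indicator_of_mem hx, Set.indicator_of_mem (h1.2 hx)]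
    · rw [hg, Set.indicator_of_notMem hx, Set.indicator_of_notMem (fun h => hx (h1.1 h))]
  have hr : 0 < (q - p) / 4 := by linarith
  set b : ContDiffBump (0 : Vec m) := ⟨(q - p) / 8, (q - p) / 4, by linarith, by linarith⟩ with hb
  have hbo : b.rOut = (q - p) / 4 := rfl
  have hcs : HasCompactSupport (b.normed volume) := b.hasCompactSupport_normed
  have hbi : Integrable (b.normed volume) volume := b.integrable_normed
  have hex : ∀ x, Integrable (fun t => b.normed volume t * g (x - t)) volume := by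
    intro x
    have hm : AEStronglyMeasurable (fun t => g (x - t)) volume := by
      have h1 : Measurable g := measurable_const.indicator hAc.measurableSet
      exact (h1.comp (measurable_const.sub measurable_id)).aestronglyMeasurable
    have h2 := hbi.bdd_mul (c := 1) hm (by
      refine Filter.Eventually.of_forall fun t => ?_
      rw [Real.norm_eq_abs, abs_of_nonneg (hg01 _).1]
      exact (hg01 _).2)
    refine h2.congr ?_
    refine Filter.Eventually.of_forall fun t => ?_
    show g (x - t) * b.normed volume t = b.normed volume t * g (x - t)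
    ring
  refine ⟨(b.normed volume) ⋆[ContinuousLinearMap.lsmul ℝ ℝ, volume] g, ?_, ?_, ?_, ?_, ?_⟩
  · exact hcs.contDiff_convolution_left _ b.contDiff_normed hgi
  · intro n x
    unfold MeasureTheory.convolution
    refine integral_congr_ae (Filter.Eventually.of_forall fun t => ?_)
    show (ContinuousLinearMap.lsmul ℝ ℝ) (b.normed volume t) (g (x + vz n - t)) =
      (ContinuousLinearMap.lsmul ℝ ℝ) (b.normed volume t) (g (x - t))
    have h1 : x + vz n - t = x - t + vz n := by abel
    rw [h1, hgp]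
  · intro x
    have h1 : ((b.normed volume) ⋆[ContinuousLinearMap.lsmul ℝ ℝ, volume] g : Vec m → ℝ) x =
        ∫ t, b.normed volume t * g (x - t) := rfl
    rw [h1]
    constructor
    · exact integral_nonneg fun t => mul_nonneg (b.nonneg_normed t) (hg01 _).1
    · calc ∫ t, b.normed volume t * g (x - t) ≤ ∫ t, b.normed volume t :=
            integral_mono (hex x) hbi fun t =>
              mul_le_of_le_one_right (b.nonneg_normed t) (hg01 _).2
        _ = 1 := b.integral_normed
  · intro x hx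
    have hxA : ∀ y ∈ Metric.ball x b.rOut, y ∈ A := by
      intro y hy
      rw [hbo, Metric.mem_ball] at hy
      have h1 := Metric.infDist_le_infDist_add_dist (s := K) (x := y) (y := x)
      rw [hA, Set.mem_ofPred_eq]
      linarith
    have hx' : g x = 1 := Set.indicator_of_mem (hxA x (Metric.mem_ball_self b.rOut_pos)) _
    rw [b.normed_convolution_eq_right (g := g) (x₀ := x) (fun y hy => by
      rw [hx']
      exact Set.indicator_of_mem (hxA y hy) _), hx']
  · intro x hx
    have hxA : ∀ y ∈ Metric.ball x b.rOut, y ∉ A := by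
      intro y hy
      rw [hbo, Metric.mem_ball] at hy
      have h1 := Metric.infDist_le_infDist_add_dist (s := K) (x := x) (y := y)
      rw [dist_comm] at h1
      rw [hA, Set.mem_ofPred_eq]
      intro h2
      linarith
    have hx' : g x = 0 := Set.indicator_of_notMem (hxA x (Metric.mem_ball_self b.rOut_pos)) _
    rw [b.normed_convolution_eq_right (g := g) (x₀ := x) (fun y hy => by
      rw [hx']
      exact Set.indicator_of_notMem (hxA y hy) _), hx']

/-- an additive function of integer vectors is the restriction of a linear function -/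
theorem H2_lin (f : (Fin m → ℤ) → ℝ) (hf : ∀ n n', f (n + n') = f n + f n') :
    ∃ ℓ : Vec m →L[ℝ] ℝ, ∀ n, ℓ (vz n) = f n := by
  classical
  let f' : (Fin m → ℤ) →+ ℝ := AddMonoidHom.mk' f hf
  refine ⟨∑ j, f (Pi.single j 1) • (EuclideanSpace.proj j : Vec m →L[ℝ] ℝ), ?_⟩
  intro n
  have h1 : f n = ∑ j, (n j : ℝ) * f (Pi.single j 1) := by
    have h2 : f' n = ∑ j, f' (n j • (Pi.single j (1 : ℤ) : Fin m → ℤ)) := by
      rw [← map_sum]
      congr 1
      ext j
      simp [Finset.sum_apply, Pi.single_apply]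
    have h3 : f n = f' n := rfl
    rw [h3, h2]
    refine Finset.sum_congr rfl fun j _ => ?_
    rw [map_zsmul, zsmul_eq_mul]
    rfl
  rw [h1]
  simp only [sum_apply, smul_apply, smul_eq_mul]
  refine Finset.sum_congr rfl fun j _ => ?_
  show f (Pi.single j 1) * (n j : ℝ) = (n j : ℝ) * f (Pi.single j 1)
  ring

theorem exists_cut (h : IsChart M M' O G φ) (hc : IsCalibratedW M' O φ (pull φ F) B i len c)
    (hR : IsRoom M' O K (pull φ F) B i c a) : ∃ (ρ a0 : ℝ) (Ψ Ψ₂ : Vec m → ℝ) (ℓ : Vec m →L[ℝ] ℝ)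
      (χ : Vec m → ℝ) (R : Vec m → Vec m), CutW M' O K B ρ a0 Ψ Ψ₂ ℓ ∧ TubeW M' O K ρ a0 χ R := by
  have hne : K.Nonempty := ⟨c 0 0, hR.mem 0 0⟩
  have hKN : K ⊆ M'.N := fun x hx => (hR.sub hx).1
  have hKO : K ⊆ O := fun x hx => (hR.sub hx).2
  obtain ⟨ρ, χD, Rg, hT⟩ := exists_tube M' ⟨c 0 0, hKN (hR.mem 0 0)⟩
  obtain ⟨a0, ha0, hroom⟩ := exists_sep hR.closed hR.periodic h.isOpen h.perO hKO hne
  obtain ⟨Ψ, hs1, hper1, h01, hone1, hzero1⟩ :=
    exists_cut0 hR.closed hR.periodic hne ha0.le (by linarith : a0 < 2 * a0)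
  obtain ⟨Ψ₂, hs2, hper2, h201, hone2, hzero2⟩ :=
    exists_cut0 hR.closed hR.periodic hne (by linarith : (0 : ℝ) ≤ 2 * a0)
      (by linarith : 2 * a0 < 3 * a0)
  choose f hf using hc.periods
  have hadd : ∀ n n', f (n + n') = f n + f n' := by
    intro n n'
    have h0 := hc.mem 0 0
    have h1 := hf (n + n') _ h0 0
    have h2 := hf n _ h0 0
    have h3 : c 0 0 + vz n ∈ M'.N ∩ O := ⟨M'.perN n _ h0.1, h.perO n _ h0.2⟩
    have h4 := hf n' _ h3 0
    rw [vz_add', ← add_assoc, h4, h2] at h1
    linarith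
  obtain ⟨ℓ, hℓ⟩ := H2_lin f hadd
  refine ⟨ρ, a0, Ψ, Ψ₂, ℓ, fun x => χD x * Ψ₂ (Rg x), Rg, ?_, ?_⟩
  · exact
      { ρ_pos := hT.ρ_pos
        a0_pos := ha0
        ne := hne
        closed := hR.closed
        perK := hR.periodic
        subK := hKN
        tube := hT.tube
        room := hroom
        s1 := hs1
        per1 := hper1
        Ψ01 := h01
        one1 := hone1
        zero1 := hzero1
        s2 := hs2
        per2 := hper2
        Ψ201 := h201
        one2 := hone2
        zero2 := hzero2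
        ell := by
          intro n x hx t
          rw [hℓ]
          exact hf n x hx t }
  · exact
      { ρ_pos := hT.ρ_pos
        a0_pos := ha0
        ne := hne
        closed := hR.closed
        perK := hR.periodic
        subK := hKN
        tube := hT.tube
        room := hroom
        sχ := hT.sχ.mul (hs2.comp hT.sR)
        perχ := by
          intro n x
          show χD (x + vz n) * Ψ₂ (Rg (x + vz n)) = χD x * Ψ₂ (Rg x)
          rw [hT.perχ, hT.perR, hper2]
        χ01 := by
          intro x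
          have h1 := hT.χ01 x
          have h2 := h201 (Rg x)
          exact ⟨mul_nonneg h1.1 h2.1, mul_le_one₀ h1.2 h2.1 h2.2⟩
        one := by
          intro x hx hx'
          have hρ := hT.ρ_pos
          show χD x * Ψ₂ (Rg x) = 1
          rw [hT.one x hx, hT.R_eq x (by linarith), hone2 _ hx', one_mul]
        zero := by
          intro x hx
          show χD x * Ψ₂ (Rg x) = 0
          rw [hT.zero x hx, zero_mul]
        zero' := by
          intro x hx hx'
          show χD x * Ψ₂ (Rg x) = 0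
          rw [hT.R_eq x hx, hzero2 _ hx', mul_zero]
        sR := hT.sR
        perR := hT.perR
        R_eq := hT.R_eq }

end EscW
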