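import Pool.Agent.EscW.H1
import Pool.Agent.EscM.A14a

set_option autoImplicit false

/-!
Project EscW, module H3: facts on the cut-off data (helper52).
`CutW.tb`: as `TubeD.tb` in `EscM/A14a.lean`. `cpt`: every point of `{infDist x K ≤ 3 a0}` is a lattice translate of a point of a fixed compact subset (closed ball) of this set, and `infDist x K` is periodic. `bounds`: compactness,
`IsChart.inj`, `IsChart.shift`.
-/

noncomputable section

namespace EscW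

open MeasureTheory Set Filter Topology Esc EscF EscG EscM EscMT EscF.T
open scoped ContDiff

variable {d m : ℕ} {M : Sub d} {M' : Sub m} {O K : Set (Vec m)} {G : Subgroup (Vec m ≃ₗᵢ[ℝ] Vec m)}
  {φ : Vec m → Vec d} {κ : ℝ → ℝ} {F : Vec d → Vec d → ℝ → ℝ} {L : Lag d} {B : Vec m → ℝ → ℝ} {i : Fin m}
  {len a : ℝ} {c : ℝ → ℝ → Vec m} {ρ a0 : ℝ} {Ψ Ψ₂ χ : Vec m → ℝ} {R : Vec m → Vec m} {ℓ : Vec m →L[ℝ] ℝ}

theorem CutW.tb (h : CutW M' O K B ρ a0 Ψ Ψ₂ ℓ) : Tb (bas m) M'.N M'.r (5 * ρ) where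
  ne := h.ne.mono h.subK
  closed := M'.closed
  perN i x := by
    rw [bas_apply]
    exact perN_iff M' _ x
  R_pos := by
    have := h.ρ_pos
    linarith
  smooth := M'.smooth.mono fun x hx => h.tube x hx
  mem x hx := M'.mem x (h.tube x hx)
  nearest x hx p hp hne := M'.nearest x (h.tube x hx) p hp hne

theorem CutW.infDist_vz (h : CutW M' O K B ρ a0 Ψ Ψ₂ ℓ) (n : Fin m → ℤ) (x : Vec m) :
    Metric.infDist (x + vz n) K = Metric.infDist x K := by
  have himg : (fun y => y + vz n) '' K = K := by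
    ext y
    constructor
    · rintro ⟨z, hz, rfl⟩
      exact h.perK n z hz
    · intro hy
      refine ⟨y + vz (-n), h.perK (-n) y hy, ?_⟩
      change y + vz (-n) + vz n = y
      rw [vz_neg', neg_add_cancel_right]
  have h1 := Metric.infDist_image (Φ := fun y : Vec m => y + vz n) (x := x) (t := K)
    (isometry_add_right (vz n))
  rw [himg] at h1
  exact h1

/-- every point has a translate in a fixed ball -/
theorem H3_fund (m : ℕ) : ∃ C : ℝ, ∀ x : Vec m, ∃ n : Fin m → ℤ, ‖x + vz n‖ ≤ C := by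
  refine ⟨Real.sqrt m, fun x => ⟨fun i => -⌊x i⌋, ?_⟩⟩
  rw [EuclideanSpace.norm_eq]
  apply Real.sqrt_le_sqrt
  calc ∑ i, ‖(x + vz fun i => -⌊x i⌋) i‖ ^ 2 ≤ ∑ _i : Fin m, (1 : ℝ) := by
        refine Finset.sum_le_sum fun i _ => ?_
        have h1 : (x + vz fun i => -⌊x i⌋) i = Int.fract (x i) := by
          simp only [vz, PiLp.add_apply, Int.cast_neg]
          rw [Int.fract]
          ring
        rw [h1, Real.norm_eq_abs, abs_of_nonneg (Int.fract_nonneg _)]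
        exact pow_le_one₀ (Int.fract_nonneg _) (Int.fract_lt_one _).le
    _ = m := by simp

/-- a compact set of representatives -/
theorem CutW.cpt (h : CutW M' O K B ρ a0 Ψ Ψ₂ ℓ) : ∃ C : Set (Vec m), IsCompact C ∧
    C ⊆ {x | Metric.infDist x K ≤ 3 * a0} ∧ ∀ x, Metric.infDist x K ≤ 3 * a0 →
      ∃ n : Fin m → ℤ, x + vz n ∈ C := by
  obtain ⟨R0, hR0⟩ := H3_fund m
  refine ⟨Metric.closedBall 0 R0 ∩ {x | Metric.infDist x K ≤ 3 * a0}, ?_, inter_subset_right, ?_⟩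
  · exact (isCompact_closedBall _ _).inter_right
      (isClosed_le (Metric.continuous_infDist_pt K) continuous_const)
  · intro x hx
    obtain ⟨n, hn⟩ := hR0 x
    refine ⟨n, by rwa [mem_closedBall_zero_iff], ?_⟩
    show Metric.infDist (x + vz n) K ≤ 3 * a0
    rw [h.infDist_vz]
    exact hx

theorem H3_cont (hφ : IsChart M M' O G φ) : ContinuousOn (fderiv ℝ φ) O :=
  hφ.smooth.continuousOn_fderiv_of_isOpen hφ.isOpen (by simp)

theorem CutW.bounds (h : CutW M' O K B ρ a0 Ψ Ψ₂ ℓ) (hφ : IsChart M M' O G φ) :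
    ∃ c1 c2 : ℝ, 0 < c1 ∧ c1 ≤ c2 ∧ ∀ x ∈ M'.N, Metric.infDist x K ≤ 3 * a0 → ∀ v, IsTangent M' x v →
      c1 * ‖v‖ ≤ ‖fderiv ℝ φ x v‖ ∧ ‖fderiv ℝ φ x v‖ ≤ c2 * ‖v‖ := by
  have ha0 := h.a0_pos
  obtain ⟨C, hC, hCK, hCrep⟩ := h.cpt
  have hCO : C ⊆ O := fun x hx => h.room x (by
    have : Metric.infDist x K ≤ 3 * a0 := hCK hx
    linarith)
  obtain ⟨S, hS⟩ : ∃ S : Set (Vec m × Vec m), S = (C ×ˢ Metric.sphere (0 : Vec m) 1) ∩ TN M'.N M'.r :=
    ⟨_, rfl⟩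
  have hSc : IsCompact S := by
    rw [hS]
    exact (hC.prod (isCompact_sphere _ _)).inter_right (A14a_closed M')
  have hSC : ∀ p ∈ S, p.1 ∈ C ∧ ‖p.2‖ = 1 ∧ p.1 ∈ M'.N ∧ IsTangent M' p.1 p.2 := by
    intro p hp
    rw [hS] at hp
    obtain ⟨⟨h1, h2⟩, h3, h4⟩ := hp
    exact ⟨h1, by simpa using h2, h3, h4⟩
  have hcont : ContinuousOn (fun p : Vec m × Vec m => ‖fderiv ℝ φ p.1 p.2‖) S := by
    have h1 : ContinuousOn (fun p : Vec m × Vec m => fderiv ℝ φ p.1) S :=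
      (H3_cont hφ).comp continuousOn_fst fun p hp => hCO (hSC p hp).1
    exact (h1.clm_apply continuousOn_snd).norm
  have hpos : ∀ p ∈ S, 0 < ‖fderiv ℝ φ p.1 p.2‖ := by
    intro p hp
    obtain ⟨h1, h2, h3, h4⟩ := hSC p hp
    rw [norm_pos_iff]
    intro h0
    have h5 := hφ.inj ⟨h3, hCO h1⟩ h4 h0
    rw [h5, norm_zero] at h2
    exact zero_ne_one h2
  -- reduction to `S`
  have hred : ∀ x ∈ M'.N, Metric.infDist x K ≤ 3 * a0 → ∀ v, IsTangent M' x v → v ≠ 0 →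
      ∃ p ∈ S, ‖fderiv ℝ φ x v‖ = ‖v‖ * ‖fderiv ℝ φ p.1 p.2‖ := by
    intro x hx hxK v hv hv0
    obtain ⟨n, hn⟩ := hCrep x hxK
    have hxO : x ∈ O := h.room x (by linarith)
    obtain ⟨l, -, hl⟩ := hφ.shift ⟨hx, hxO⟩ n
    have hvn : ‖v‖ ≠ 0 := norm_ne_zero_iff.2 hv0
    refine ⟨(x + vz n, ‖v‖⁻¹ • v), ?_, ?_⟩
    · rw [hS]
      refine ⟨⟨hn, ?_⟩, (perN_iff M' n x).2 hx, ?_⟩
      · simp only [mem_sphere_iff_norm, sub_zero, norm_smul, norm_inv, norm_norm]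
        exact inv_mul_cancel₀ hvn
      · have h1 : fderiv ℝ M'.r (x + vz n) v = v := (tangent_vz M' hx n).2 hv
        show fderiv ℝ M'.r (x + vz n) (‖v‖⁻¹ • v) = ‖v‖⁻¹ • v
        rw [map_smul, h1]
    · simp only
      rw [map_smul, hl v hv, norm_smul, norm_inv, norm_norm, ← mul_assoc, mul_inv_cancel₀ hvn, one_mul]
  rcases S.eq_empty_or_nonempty with hSe | hSne
  · refine ⟨1, 1, one_pos, le_rfl, fun x hx hxK v hv => ?_⟩
    by_cases hv0 : v = 0
    · subst hv0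
      simp
    · obtain ⟨p, hp, -⟩ := hred x hx hxK v hv hv0
      rw [hSe] at hp
      exact absurd hp (notMem_empty p)
  · obtain ⟨p1, hp1, hmin⟩ := hSc.exists_isMinOn hSne hcont
    obtain ⟨p2, hp2, hmax⟩ := hSc.exists_isMaxOn hSne hcont
    refine ⟨‖fderiv ℝ φ p1.1 p1.2‖, ‖fderiv ℝ φ p2.1 p2.2‖, hpos p1 hp1, hmin hp2,
      fun x hx hxK v hv => ?_⟩
    by_cases hv0 : v = 0
    · subst hv0
      simp
    · obtain ⟨p, hp, he⟩ := hred x hx hxK v hv hv0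
      rw [he]
      have h1 : ‖fderiv ℝ φ p1.1 p1.2‖ ≤ ‖fderiv ℝ φ p.1 p.2‖ := hmin hp
      have h2 : ‖fderiv ℝ φ p.1 p.2‖ ≤ ‖fderiv ℝ φ p2.1 p2.2‖ := hmax hp
      have h3 := norm_nonneg v
      constructor
      · rw [mul_comm]
        exact mul_le_mul_of_nonneg_left h1 h3
      · rw [mul_comm]
        exact mul_le_mul_of_nonneg_right h2 h3

/-- the chart is Lipschitz near `K`, for points which are close to each other -/
theorem CutW.lip (h : CutW M' O K B ρ a0 Ψ Ψ₂ ℓ) (hφ : IsChart M M' O G φ) :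
    ∃ ε C : ℝ, 0 < ε ∧ 0 < C ∧ ∀ x ∈ M'.N, ∀ x' ∈ M'.N, Metric.infDist x K ≤ 3 * a0 →
      Metric.infDist x' K ≤ 3 * a0 → ‖x - x'‖ ≤ ε → ∃ (n : Fin m → ℤ),
        ‖φ (x + vz n) - φ (x' + vz n)‖ ≤ C * ‖x - x'‖ ∧
        ∀ v v', IsTangent M' x v → IsTangent M' x' v' →
          ‖fderiv ℝ φ (x + vz n) v - fderiv ℝ φ (x' + vz n) v'‖ ≤ C * (‖v - v'‖ + ‖v‖ * ‖x - x'‖) := by
  have ha0 := h.a0_pos
  obtain ⟨R0, hR0⟩ := H3_fund m
  obtain ⟨C, hC⟩ : ∃ C : Set (Vec m), C = Metric.closedBall 0 (R0 + a0 / 2) ∩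
    {x | Metric.infDist x K ≤ 3 * a0 + a0 / 2} := ⟨_, rfl⟩
  have hCc : IsCompact C := by
    rw [hC]
    exact (isCompact_closedBall _ _).inter_right
      (isClosed_le (Metric.continuous_infDist_pt K) continuous_const)
  have hCO : C ⊆ O := fun x hx => h.room x (by
    rw [hC] at hx
    have : Metric.infDist x K ≤ 3 * a0 + a0 / 2 := hx.2
    linarith)
  have h1 : ContDiffOn ℝ 1 (fderiv ℝ φ) O :=
    (hφ.smooth.fderiv_of_isOpen (m := ∞) hφ.isOpen (by simp)).of_le (by simp)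
  have h2 : ContinuousOn (fderiv ℝ (fderiv ℝ φ)) O := h1.continuousOn_fderiv_of_isOpen hφ.isOpen le_rfl
  obtain ⟨C1, hC1⟩ := hCc.exists_bound_of_continuousOn ((H3_cont hφ).mono hCO)
  obtain ⟨C2, hC2⟩ := hCc.exists_bound_of_continuousOn (E := Vec m →L[ℝ] Vec m →L[ℝ] Vec d)
    (f := fderiv ℝ (fderiv ℝ φ)) (h2.mono hCO)
  obtain ⟨Cm, hCm⟩ : ∃ Cm : ℝ, Cm = max (max C1 C2) 1 := ⟨_, rfl⟩
  have hC1m : C1 ≤ Cm := by rw [hCm]; exact (le_max_left _ _).trans (le_max_left _ _)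
  have hC2m : C2 ≤ Cm := by rw [hCm]; exact (le_max_right _ _).trans (le_max_left _ _)
  have hCm0 : 0 < Cm := by rw [hCm]; exact lt_of_lt_of_le one_pos (le_max_right _ _)
  refine ⟨a0 / 2, Cm, by linarith, hCm0, fun x hx x' hx' hxK hxK' hxx => ?_⟩
  obtain ⟨n, hn⟩ := hR0 x
  have hsub : x' + vz n - (x + vz n) = x' - x := by abel
  have hseg : ∀ z ∈ segment ℝ (x + vz n) (x' + vz n), z ∈ C := by
    intro z hz
    have h3 : ‖z - (x + vz n)‖ ≤ a0 / 2 := by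
      refine (norm_sub_le_of_mem_segment hz).trans ?_
      rw [hsub, norm_sub_rev]
      exact hxx
    rw [hC]
    constructor
    · rw [mem_closedBall_zero_iff]
      have h4 := norm_add_le (x + vz n) (z - (x + vz n))
      rw [add_sub_cancel] at h4
      linarith
    · have h4 : Metric.infDist z K ≤ Metric.infDist (x + vz n) K + dist z (x + vz n) :=
        Metric.infDist_le_infDist_add_dist
      rw [h.infDist_vz, dist_eq_norm] at h4
      show Metric.infDist z K ≤ 3 * a0 + a0 / 2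
      linarith
  have hconv : Convex ℝ (segment ℝ (x + vz n) (x' + vz n)) := convex_segment _ _
  have hl := left_mem_segment ℝ (x + vz n) (x' + vz n)
  have hr := right_mem_segment ℝ (x + vz n) (x' + vz n)
  have e1 : ‖φ (x + vz n) - φ (x' + vz n)‖ ≤ Cm * ‖x - x'‖ := by
    have h5 := hconv.norm_image_sub_le_of_norm_hasFDerivWithin_le (f := φ) (f' := fderiv ℝ φ) (C := Cm)
      (fun z hz => (hφ.H1_diff_φ (hCO (hseg z hz))).hasFDerivAt.hasFDerivWithinAt)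
      (fun z hz => (hC1 z (hseg z hz)).trans hC1m) hr hl
    have h6 : x + vz n - (x' + vz n) = x - x' := by abel
    rwa [h6] at h5
  have e2 : ‖fderiv ℝ φ (x + vz n) - fderiv ℝ φ (x' + vz n)‖ ≤ Cm * ‖x - x'‖ := by
    have h5 := hconv.norm_image_sub_le_of_norm_hasFDerivWithin_le (f := fderiv ℝ φ)
      (f' := fderiv ℝ (fderiv ℝ φ)) (C := Cm)
      (fun z hz => (((h1 z (hCO (hseg z hz))).contDiffAt
        (hφ.isOpen.mem_nhds (hCO (hseg z hz)))).differentiableAt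
          (by simp)).hasFDerivAt.hasFDerivWithinAt)
      (fun z hz => (hC2 z (hseg z hz)).trans hC2m) hr hl
    have h6 : x + vz n - (x' + vz n) = x - x' := by abel
    rwa [h6] at h5
  refine ⟨n, e1, fun v v' hv hv' => ?_⟩
  have e3 : fderiv ℝ φ (x + vz n) v - fderiv ℝ φ (x' + vz n) v' =
      (fderiv ℝ φ (x + vz n) - fderiv ℝ φ (x' + vz n)) v + fderiv ℝ φ (x' + vz n) (v - v') := by
    rw [_root_.sub_apply, map_sub]
    abel
  rw [e3]
  refine (norm_add_le _ _).trans ?_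
  have e4 := ContinuousLinearMap.le_of_opNorm_le _ e2 v
  have e5 := ContinuousLinearMap.le_of_opNorm_le _ ((hC1 _ (hseg _ hr)).trans hC1m) (v - v')
  calc _ ≤ Cm * ‖x - x'‖ * ‖v‖ + Cm * ‖v - v'‖ := add_le_add e4 e5
    _ = Cm * (‖v - v'‖ + ‖v‖ * ‖x - x'‖) := by ring

end EscW
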