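import Pool.Agent.EscW.H3
import Pool.Agent.EscMT.P11
import Pool.Agent.EscM.N0

set_option autoImplicit false

/-!
Project EscW, module H4: the metric on `M'`.
Near `K` (`infDist x K ≤ 2 a0`) lower and upper bounds of `pull φ F` on unit tangent vectors: `P11_unif` on `M`
and `CutW.bounds`. `lip`: `|√a - √b| (√a + √b) = |a - b|`; `κ` is bounded below by periodicity. For `x` with
`2 a0 ≤ infDist x K` the first term is zero.
-/

noncomputable section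

namespace EscW

open MeasureTheory Set Filter Topology Esc EscF EscG EscM EscMT EscF.T
open scoped ContDiff

variable {d m : ℕ} {M : Sub d} {M' : Sub m} {O K : Set (Vec m)} {G : Subgroup (Vec m ≃ₗᵢ[ℝ] Vec m)}
  {φ : Vec m → Vec d} {κ : ℝ → ℝ} {F : Vec d → Vec d → ℝ → ℝ} {L : Lag d} {B : Vec m → ℝ → ℝ} {i : Fin m}
  {len a : ℝ} {c : ℝ → ℝ → Vec m} {ρ a0 : ℝ} {Ψ Ψ₂ χ : Vec m → ℝ} {R : Vec m → Vec m} {ℓ : Vec m →L[ℝ] ℝ}

/-- the square of the metric -/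
def H4_S (φ : Vec m → Vec d) (F : Vec d → Vec d → ℝ → ℝ) (κ : ℝ → ℝ) (Ψ : Vec m → ℝ) (Λ₁ : ℝ)
    (x v : Vec m) (t : ℝ) : ℝ :=
  Ψ x * pull φ F x v t ^ 2 + (1 - Ψ x) * (Λ₁ * ‖v‖ ^ 2 / κ t)

theorem H4_F1 (Λ₁ : ℝ) (x v : Vec m) (t : ℝ) : F1 φ F κ Ψ Λ₁ x v t = √(H4_S φ F κ Ψ Λ₁ x v t) := rfl

theorem H4_O (hC : CutW M' O K B ρ a0 Ψ Ψ₂ ℓ) {x : Vec m} (hx : Metric.infDist x K ≤ 3 * a0) : x ∈ O :=
  hC.room x (by linarith [hC.a0_pos])

theorem H4_near (hC : CutW M' O K B ρ a0 Ψ Ψ₂ ℓ) {x : Vec m} (hx : Ψ x ≠ 0) :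
    Metric.infDist x K ≤ 3 * a0 := by
  by_contra h
  push Not at h
  exact hx (hC.zero1 x (by linarith [hC.a0_pos]))

theorem H4_nonneg (hF : IsFinslerT M F) {y w : Vec d} (hy : y ∈ M.N) (hw : IsTangent M y w) (t : ℝ) :
    0 ≤ F y w t := by
  by_cases h0 : w = 0
  · have h1 : F y ((0 : ℝ) • w) t = 0 * F y w t := (hF.fins t).hom y hy w hw 0 le_rfl
    rw [zero_mul, zero_smul] at h1
    rw [h0, h1]
  · exact ((hF.fins t).pos y hy w hw h0).le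

theorem H4_exT (hC : CutW M' O K B ρ a0 Ψ Ψ₂ ℓ) (hφ : IsChart M M' O G φ) :
    ∃ (ρ' : ℝ) (χ' : Vec d → ℝ) (R' : Vec d → Vec d), TubeD M ρ' χ' R' := by
  obtain ⟨x0, hx0⟩ := hC.ne
  refine exists_tube M ⟨φ x0, hφ.maps x0 ⟨hC.subK hx0, H4_O hC ?_⟩⟩
  rw [Metric.infDist_zero_of_mem hx0]
  linarith [hC.a0_pos]

/-- bounds of the pulled back metric -/
theorem H4_pull (hC : CutW M' O K B ρ a0 Ψ Ψ₂ ℓ) (hφ : IsChart M M' O G φ) (hF : IsFinslerT M F) :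
    ∃ p1 p2 : ℝ, 0 < p1 ∧ p1 ≤ p2 ∧ ∀ x ∈ M'.N, Metric.infDist x K ≤ 3 * a0 → ∀ v, IsTangent M' x v →
      ∀ t, p1 * ‖v‖ ≤ pull φ F x v t ∧ pull φ F x v t ≤ p2 * ‖v‖ := by
  obtain ⟨ρ', χ', R', hT⟩ := H4_exT hC hφ
  obtain ⟨mF, MF, hm, hb⟩ := P11_unif hT hF
  obtain ⟨c1, c2, hc1, hc12, hc⟩ := hC.bounds hφ
  refine ⟨mF * c1, max (|MF| * c2) (mF * c1), mul_pos hm hc1, le_max_right _ _, ?_⟩
  intro x hx hxK v hv t
  have hxO : x ∈ M'.N ∩ O := ⟨hx, H4_O hC hxK⟩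
  obtain ⟨h1, h2⟩ := hc x hx hxK v hv
  have hTN : (φ x, fderiv ℝ φ x v) ∈ TN M.N M.r := ⟨hφ.maps x hxO, hφ.tangent hxO hv⟩
  obtain ⟨h3, h4⟩ := hb t (φ x) (fderiv ℝ φ x v) hTN
  constructor
  · calc mF * c1 * ‖v‖ = mF * (c1 * ‖v‖) := by ring
      _ ≤ mF * ‖fderiv ℝ φ x v‖ := mul_le_mul_of_nonneg_left h1 hm.le
      _ ≤ pull φ F x v t := h3
  · calc pull φ F x v t ≤ MF * ‖fderiv ℝ φ x v‖ := h4
      _ ≤ |MF| * ‖fderiv ℝ φ x v‖ := mul_le_mul_of_nonneg_right (le_abs_self _) (norm_nonneg _)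
      _ ≤ |MF| * (c2 * ‖v‖) := mul_le_mul_of_nonneg_left h2 (abs_nonneg _)
      _ = |MF| * c2 * ‖v‖ := by ring
      _ ≤ max (|MF| * c2) (mF * c1) * ‖v‖ := mul_le_mul_of_nonneg_right (le_max_left _ _) (norm_nonneg _)

theorem H4_kc (hκ : IsWeight κ) : Continuous κ := by
  obtain ⟨A, hA⟩ := hκ.lip
  rw [continuous_iff_continuousAt]
  intro t0
  have h1 : Tendsto (fun t => A * |t - t0|) (𝓝 t0) (𝓝 (A * |t0 - t0|)) := by
    have h2 : Continuous (fun t : ℝ => A * |t - t0|) := by fun_prop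
    exact h2.tendsto t0
  rw [sub_self, abs_zero, mul_zero] at h1
  have h3 : Tendsto (fun t => κ t - κ t0) (𝓝 t0) (𝓝 0) :=
    squeeze_zero_norm (fun t => by rw [Real.norm_eq_abs]; exact hA t t0) h1
  exact tendsto_sub_nhds_zero_iff.1 h3

/-- continuity of the pulled back metric in `O` -/
theorem H4_pull_cont (hφ : IsChart M M' O G φ) (hF : IsFinslerT M F) {p0 : Vec m × Vec m × ℝ}
    (h0 : (p0.1, p0.2.1) ∈ TN M'.N M'.r) (hO : p0.1 ∈ O) :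
    ContinuousWithinAt (fun p : Vec m × Vec m × ℝ => pull φ F p.1 p.2.1 p.2.2)
      {p | (p.1, p.2.1) ∈ TN M'.N M'.r} p0 := by
  have hfs : Continuous (fun p : Vec m × Vec m × ℝ => p.1) := continuous_fst
  have hn : {p : Vec m × Vec m × ℝ | p.1 ∈ O} ∈ 𝓝 p0 := (hφ.isOpen.preimage hfs).mem_nhds hO
  rw [← continuousWithinAt_inter hn]
  have hc1 : ContDiffAt ℝ ∞ φ p0.1 := (hφ.smooth p0.1 hO).contDiffAt (hφ.isOpen.mem_nhds hO)
  have hc2 : ContinuousAt φ p0.1 := hc1.continuousAt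
  have hc3 : ContinuousAt (fderiv ℝ φ) p0.1 := by
    have h1 : ContinuousOn (fderiv ℝ φ) O :=
      hφ.smooth.continuousOn_fderiv_of_isOpen hφ.isOpen (by simp)
    exact h1.continuousAt (hφ.isOpen.mem_nhds hO)
  have hg : ContinuousAt (fun p : Vec m × Vec m × ℝ =>
      ((φ p.1, fderiv ℝ φ p.1 p.2.1, p.2.2) : Vec d × Vec d × ℝ)) p0 := by
    have e1 : ContinuousAt (fun p : Vec m × Vec m × ℝ => φ p.1) p0 :=
      ContinuousAt.comp (f := fun p : Vec m × Vec m × ℝ => p.1) hc2 hfs.continuousAt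
    have e2 : ContinuousAt (fun p : Vec m × Vec m × ℝ => fderiv ℝ φ p.1) p0 :=
      ContinuousAt.comp (f := fun p : Vec m × Vec m × ℝ => p.1) hc3 hfs.continuousAt
    have e3 : ContinuousAt (fun p : Vec m × Vec m × ℝ => p.2.1) p0 :=
      (continuous_fst.comp continuous_snd).continuousAt
    have e4 : ContinuousAt (fun p : Vec m × Vec m × ℝ => p.2.2) p0 :=
      (continuous_snd.comp continuous_snd).continuousAt
    exact e1.prodMk ((e2.clm_apply e3).prodMk e4)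
  have h3 := P11_cont hF (φ p0.1, fderiv ℝ φ p0.1 p0.2.1, p0.2.2)
    (show (φ p0.1, fderiv ℝ φ p0.1 p0.2.1) ∈ TN M.N M.r from
      ⟨hφ.maps p0.1 ⟨h0.1, hO⟩, hφ.tangent ⟨h0.1, hO⟩ h0.2⟩)
  have hmaps : MapsTo (fun p : Vec m × Vec m × ℝ =>
      ((φ p.1, fderiv ℝ φ p.1 p.2.1, p.2.2) : Vec d × Vec d × ℝ))
      ({p | (p.1, p.2.1) ∈ TN M'.N M'.r} ∩ {p : Vec m × Vec m × ℝ | p.1 ∈ O})
      {p | (p.1, p.2.1) ∈ TN M.N M.r} := by
    rintro p ⟨hp1, hp2⟩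
    exact ⟨hφ.maps p.1 ⟨hp1.1, hp2⟩, hφ.tangent ⟨hp1.1, hp2⟩ hp1.2⟩
  exact ContinuousWithinAt.comp
    (g := fun p : Vec d × Vec d × ℝ => F p.1 p.2.1 p.2.2)
    (f := fun p : Vec m × Vec m × ℝ => ((φ p.1, fderiv ℝ φ p.1 p.2.1, p.2.2) : Vec d × Vec d × ℝ))
    h3 hg.continuousWithinAt hmaps

/-- joint continuity of the square of the metric -/
theorem H4_S_cont (hC : CutW M' O K B ρ a0 Ψ Ψ₂ ℓ) (hφ : IsChart M M' O G φ) (hκ : IsWeight κ)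
    (hF : IsFinslerT M F) (Λ₁ : ℝ) :
    ContinuousOn (fun p : Vec m × Vec m × ℝ => H4_S φ F κ Ψ Λ₁ p.1 p.2.1 p.2.2)
      {p | (p.1, p.2.1) ∈ TN M'.N M'.r} := by
  intro p0 h0
  have hfs : Continuous (fun p : Vec m × Vec m × ℝ => p.1) := continuous_fst
  have hκc := H4_kc hκ
  have hw : Continuous (fun p : Vec m × Vec m × ℝ => Λ₁ * ‖p.2.1‖ ^ 2 / κ p.2.2) := by
    refine Continuous.div₀ (by fun_prop) (hκc.comp (continuous_snd.comp continuous_snd)) ?_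
    intro p
    exact (hκ.pos p.2.2).ne'
  have hΨ : Continuous (fun p : Vec m × Vec m × ℝ => Ψ p.1) := hC.s1.continuous.comp hfs
  rcases lt_or_ge (Metric.infDist p0.1 K) (3 * a0) with h1 | h1
  · have hp := H4_pull_cont hφ hF (p0 := p0) h0 (H4_O hC h1.le)
    have hp2 : ContinuousWithinAt (fun p : Vec m × Vec m × ℝ => pull φ F p.1 p.2.1 p.2.2 ^ 2)
        {p | (p.1, p.2.1) ∈ TN M'.N M'.r} p0 := hp.pow 2
    exact (hΨ.continuousWithinAt.mul hp2).add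
      ((continuous_const.sub hΨ).continuousWithinAt.mul hw.continuousWithinAt)
  · have h2 : 2 * a0 < Metric.infDist p0.1 K := by linarith [hC.a0_pos]
    have h3 : ∀ᶠ p : Vec m × Vec m × ℝ in 𝓝 p0, 2 * a0 < Metric.infDist p.1 K :=
      ((Metric.continuous_infDist_pt K).comp hfs).continuousAt.eventually (lt_mem_nhds h2)
    have h4 : (fun p : Vec m × Vec m × ℝ => H4_S φ F κ Ψ Λ₁ p.1 p.2.1 p.2.2) =ᶠ[𝓝 p0]
        fun p => Λ₁ * ‖p.2.1‖ ^ 2 / κ p.2.2 := by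
      filter_upwards [h3] with p hp
      simp only [H4_S, hC.zero1 p.1 hp.le, zero_mul, sub_zero, one_mul, zero_add]
    exact (hw.continuousAt.congr h4.symm).continuousWithinAt

theorem finsP1 (hC : CutW M' O K B ρ a0 Ψ Ψ₂ ℓ) (hφ : IsChart M M' O G φ) (hκ : IsWeight κ)
    (hF : IsFinslerT M F) {Λ₁ : ℝ} (hΛ : 0 < Λ₁) :
    ∃ mF MF A : ℝ, FinsP (bas m) M'.N M'.r (F1 φ F κ Ψ Λ₁) mF MF A κ := by
  obtain ⟨p1, p2, hp1, hp12, hp⟩ := H4_pull hC hφ hF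
  obtain ⟨c1, c2, hc1, hc12, hc⟩ := hC.bounds hφ
  obtain ⟨a, b, ha, hb0, hab⟩ := P11_weight hκ
  obtain ⟨A1, hA1⟩ := hF.lip
  obtain ⟨A3, hA3⟩ := hκ.lip
  have hp2 : 0 < p2 := hp1.trans_le hp12
  have hc2 : 0 < c2 := hc1.trans_le hc12
  set q1 : ℝ := min (p1 ^ 2) (Λ₁ / b) with hq1
  set q2 : ℝ := max (p2 ^ 2) (Λ₁ / a) with hq2
  have hq1pos : 0 < q1 := lt_min (by positivity) (by positivity)
  have hq12 : q1 ≤ q2 := (min_le_left _ _).trans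
    ((pow_le_pow_left₀ hp1.le hp12 2).trans (le_max_left _ _))
  have hq2pos : 0 < q2 := hq1pos.trans_le hq12
  -- bounds of the square
  have hS : ∀ x ∈ M'.N, ∀ v, IsTangent M' x v → ∀ t,
      q1 * ‖v‖ ^ 2 ≤ H4_S φ F κ Ψ Λ₁ x v t ∧ H4_S φ F κ Ψ Λ₁ x v t ≤ q2 * ‖v‖ ^ 2 := by
    intro x hx v hv t
    obtain ⟨hΨ0, hΨ1⟩ := hC.Ψ01 x
    have hn : 0 ≤ ‖v‖ ^ 2 := by positivity
    have hκt := hκ.pos t
    have w1 : q1 * ‖v‖ ^ 2 ≤ Λ₁ * ‖v‖ ^ 2 / κ t := by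
      have e1 : q1 ≤ Λ₁ / κ t := (min_le_right _ _).trans
        (div_le_div_of_nonneg_left hΛ.le hκt (hab t).2)
      calc q1 * ‖v‖ ^ 2 ≤ Λ₁ / κ t * ‖v‖ ^ 2 := mul_le_mul_of_nonneg_right e1 hn
        _ = Λ₁ * ‖v‖ ^ 2 / κ t := by ring
    have w2 : Λ₁ * ‖v‖ ^ 2 / κ t ≤ q2 * ‖v‖ ^ 2 := by
      have e1 : Λ₁ / κ t ≤ q2 := (div_le_div_of_nonneg_left hΛ.le ha (hab t).1).trans
        (le_max_right _ _)
      calc Λ₁ * ‖v‖ ^ 2 / κ t = Λ₁ / κ t * ‖v‖ ^ 2 := by ring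
        _ ≤ q2 * ‖v‖ ^ 2 := mul_le_mul_of_nonneg_right e1 hn
    have w3 : Ψ x * (q1 * ‖v‖ ^ 2) ≤ Ψ x * pull φ F x v t ^ 2 ∧
        Ψ x * pull φ F x v t ^ 2 ≤ Ψ x * (q2 * ‖v‖ ^ 2) := by
      by_cases h0 : Ψ x = 0
      · rw [h0]
        simp
      · obtain ⟨h1, h2⟩ := hp x hx (H4_near hC h0) v hv t
        have h3 : 0 ≤ pull φ F x v t := le_trans (by positivity) h1
        constructor
        · refine mul_le_mul_of_nonneg_left ?_ hΨ0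
          calc q1 * ‖v‖ ^ 2 ≤ p1 ^ 2 * ‖v‖ ^ 2 := mul_le_mul_of_nonneg_right (min_le_left _ _) hn
            _ = (p1 * ‖v‖) ^ 2 := by ring
            _ ≤ pull φ F x v t ^ 2 := pow_le_pow_left₀ (by positivity) h1 2
        · refine mul_le_mul_of_nonneg_left ?_ hΨ0
          calc pull φ F x v t ^ 2 ≤ (p2 * ‖v‖) ^ 2 := pow_le_pow_left₀ h3 h2 2
            _ = p2 ^ 2 * ‖v‖ ^ 2 := by ring
            _ ≤ q2 * ‖v‖ ^ 2 := mul_le_mul_of_nonneg_right (le_max_left _ _) hn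
    have w4 : (1 - Ψ x) * (q1 * ‖v‖ ^ 2) ≤ (1 - Ψ x) * (Λ₁ * ‖v‖ ^ 2 / κ t) :=
      mul_le_mul_of_nonneg_left w1 (by linarith)
    have w5 : (1 - Ψ x) * (Λ₁ * ‖v‖ ^ 2 / κ t) ≤ (1 - Ψ x) * (q2 * ‖v‖ ^ 2) :=
      mul_le_mul_of_nonneg_left w2 (by linarith)
    constructor
    · show q1 * ‖v‖ ^ 2 ≤ Ψ x * pull φ F x v t ^ 2 + (1 - Ψ x) * (Λ₁ * ‖v‖ ^ 2 / κ t)
      linarith [w3.1]
    · show Ψ x * pull φ F x v t ^ 2 + (1 - Ψ x) * (Λ₁ * ‖v‖ ^ 2 / κ t) ≤ q2 * ‖v‖ ^ 2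
      linarith [w3.2]
  have hSn : ∀ x ∈ M'.N, ∀ v, IsTangent M' x v → ∀ t, 0 ≤ H4_S φ F κ Ψ Λ₁ x v t :=
    fun x hx v hv t => le_trans (by positivity) (hS x hx v hv t).1
  have hlow : ∀ x ∈ M'.N, ∀ v, IsTangent M' x v → ∀ t, √q1 * ‖v‖ ≤ F1 φ F κ Ψ Λ₁ x v t := by
    intro x hx v hv t
    rw [H4_F1]
    refine Real.le_sqrt_of_sq_le ?_
    rw [mul_pow, Real.sq_sqrt hq1pos.le]
    exact (hS x hx v hv t).1
  have hupp : ∀ x ∈ M'.N, ∀ v, IsTangent M' x v → ∀ t, F1 φ F κ Ψ Λ₁ x v t ≤ √q2 * ‖v‖ := by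
    intro x hx v hv t
    rw [H4_F1]
    refine Real.sqrt_le_iff.2 ⟨by positivity, ?_⟩
    rw [mul_pow, Real.sq_sqrt hq2pos.le]
    exact (hS x hx v hv t).2
  -- homogeneity, periodicity
  have hhom : ∀ x ∈ M'.N, ∀ v, IsTangent M' x v → ∀ s : ℝ, 0 ≤ s → ∀ t,
      F1 φ F κ Ψ Λ₁ x (s • v) t = s * F1 φ F κ Ψ Λ₁ x v t := by
    intro x hx v hv s hs t
    have e1 : H4_S φ F κ Ψ Λ₁ x (s • v) t = s ^ 2 * H4_S φ F κ Ψ Λ₁ x v t := by
      have e2 : ‖s • v‖ ^ 2 = s ^ 2 * ‖v‖ ^ 2 := by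
        rw [norm_smul, Real.norm_eq_abs, mul_pow, sq_abs]
      have e3 : Ψ x * pull φ F x (s • v) t ^ 2 = s ^ 2 * (Ψ x * pull φ F x v t ^ 2) := by
        by_cases h0 : Ψ x = 0
        · rw [h0]
          simp
        · have hxO : x ∈ M'.N ∩ O := ⟨hx, H4_O hC (H4_near hC h0)⟩
          have e4 : pull φ F x (s • v) t = s * pull φ F x v t := by
            show F (φ x) (fderiv ℝ φ x (s • v)) t = s * F (φ x) (fderiv ℝ φ x v) t
            rw [map_smul]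
            exact (hF.fins t).hom (φ x) (hφ.maps x hxO) _ (hφ.tangent hxO hv) s hs
          rw [e4]
          ring
      show Ψ x * pull φ F x (s • v) t ^ 2 + (1 - Ψ x) * (Λ₁ * ‖s • v‖ ^ 2 / κ t) =
        s ^ 2 * (Ψ x * pull φ F x v t ^ 2 + (1 - Ψ x) * (Λ₁ * ‖v‖ ^ 2 / κ t))
      rw [e3, e2]
      ring
    rw [H4_F1, H4_F1, e1, Real.sqrt_mul (sq_nonneg s), Real.sqrt_sq hs]
  have hper : ∀ x ∈ M'.N, ∀ v, IsTangent M' x v → ∀ n : Fin m → ℤ, ∀ t,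
      F1 φ F κ Ψ Λ₁ (x + vz n) v t = F1 φ F κ Ψ Λ₁ x v t := by
    intro x hx v hv n t
    have e3 : Ψ x * pull φ F (x + vz n) v t ^ 2 = Ψ x * pull φ F x v t ^ 2 := by
      by_cases h0 : Ψ x = 0
      · rw [h0]
        simp
      · rw [hφ.pull_per hF ⟨hx, H4_O hC (H4_near hC h0)⟩ hv n t]
    show √(Ψ (x + vz n) * pull φ F (x + vz n) v t ^ 2 + (1 - Ψ (x + vz n)) * (Λ₁ * ‖v‖ ^ 2 / κ t)) =
      √(Ψ x * pull φ F x v t ^ 2 + (1 - Ψ x) * (Λ₁ * ‖v‖ ^ 2 / κ t))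
    rw [hC.per1, e3]
  have hcont : ContinuousOn (fun p : Vec m × Vec m × ℝ => F1 φ F κ Ψ Λ₁ p.1 p.2.1 p.2.2)
      {p | (p.1, p.2.1) ∈ TN M'.N M'.r} :=
    Real.continuous_sqrt.comp_continuousOn (H4_S_cont hC hφ hκ hF Λ₁)
  -- Lipschitz bound in time
  set D : ℝ := 2 * |A1| * c2 * p2 + Λ₁ * |A3| / a ^ 2 with hD
  have hD0 : 0 ≤ D := by positivity
  have hSlip : ∀ x ∈ M'.N, ∀ v, IsTangent M' x v → ∀ t t',
      |H4_S φ F κ Ψ Λ₁ x v t - H4_S φ F κ Ψ Λ₁ x v t'| ≤ D * ‖v‖ ^ 2 * |t - t'| := by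
    intro x hx v hv t t'
    obtain ⟨hΨ0, hΨ1⟩ := hC.Ψ01 x
    have hκt := hκ.pos t
    have hκt' := hκ.pos t'
    have w1 : |Ψ x * (pull φ F x v t ^ 2 - pull φ F x v t' ^ 2)| ≤
        2 * |A1| * c2 * p2 * ‖v‖ ^ 2 * |t - t'| := by
      by_cases h0 : Ψ x = 0
      · rw [h0, zero_mul, abs_zero]
        positivity
      · have hxK := H4_near hC h0
        have hxO : x ∈ M'.N ∩ O := ⟨hx, H4_O hC hxK⟩
        obtain ⟨h1, h2⟩ := hp x hx hxK v hv t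
        obtain ⟨h1', h2'⟩ := hp x hx hxK v hv t'
        have h3 : 0 ≤ pull φ F x v t := le_trans (by positivity) h1
        have h3' : 0 ≤ pull φ F x v t' := le_trans (by positivity) h1'
        have h4 : |pull φ F x v t - pull φ F x v t'| ≤ |A1| * (c2 * ‖v‖) * |t - t'| := by
          have h5 := hA1 (φ x) (hφ.maps x hxO) (fderiv ℝ φ x v) (hφ.tangent hxO hv) t t'
          refine h5.trans (mul_le_mul_of_nonneg_right ?_ (abs_nonneg _))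
          exact mul_le_mul (le_abs_self _) (hc x hx hxK v hv).2 (norm_nonneg _) (abs_nonneg _)
        have h6 : pull φ F x v t ^ 2 - pull φ F x v t' ^ 2 =
            (pull φ F x v t - pull φ F x v t') * (pull φ F x v t + pull φ F x v t') := by ring
        have h7 : |pull φ F x v t + pull φ F x v t'| ≤ 2 * (p2 * ‖v‖) := by
          rw [abs_of_nonneg (by linarith)]
          linarith
        rw [abs_mul, abs_of_nonneg hΨ0, h6, abs_mul]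
        have h8 : |pull φ F x v t - pull φ F x v t'| * |pull φ F x v t + pull φ F x v t'| ≤
            |A1| * (c2 * ‖v‖) * |t - t'| * (2 * (p2 * ‖v‖)) :=
          mul_le_mul h4 h7 (abs_nonneg _) (by positivity)
        calc Ψ x * (|pull φ F x v t - pull φ F x v t'| * |pull φ F x v t + pull φ F x v t'|)
            ≤ 1 * (|pull φ F x v t - pull φ F x v t'| * |pull φ F x v t + pull φ F x v t'|) :=
              mul_le_mul_of_nonneg_right hΨ1 (by positivity)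
          _ ≤ |A1| * (c2 * ‖v‖) * |t - t'| * (2 * (p2 * ‖v‖)) := by rw [one_mul]; exact h8
          _ = 2 * |A1| * c2 * p2 * ‖v‖ ^ 2 * |t - t'| := by ring
    have w2 : |(1 - Ψ x) * (Λ₁ * ‖v‖ ^ 2 / κ t - Λ₁ * ‖v‖ ^ 2 / κ t')| ≤
        Λ₁ * |A3| / a ^ 2 * ‖v‖ ^ 2 * |t - t'| := by
      have e1 : Λ₁ * ‖v‖ ^ 2 / κ t - Λ₁ * ‖v‖ ^ 2 / κ t' =
          Λ₁ * ‖v‖ ^ 2 * ((κ t' - κ t) / (κ t * κ t')) := by
        field_simp
      have e2 : |(κ t' - κ t) / (κ t * κ t')| ≤ |A3| * |t - t'| / a ^ 2 := by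
        rw [abs_div, abs_of_pos (mul_pos hκt hκt')]
        have e3 : |κ t' - κ t| ≤ |A3| * |t - t'| := by
          rw [abs_sub_comm]
          exact (hA3 t t').trans (mul_le_mul_of_nonneg_right (le_abs_self _) (abs_nonneg _))
        have e4 : a ^ 2 ≤ κ t * κ t' := by
          rw [sq]
          exact mul_le_mul (hab t).1 (hab t').1 ha.le hκt.le
        exact div_le_div₀ (by positivity) e3 (by positivity) e4
      rw [e1, abs_mul, abs_mul, abs_of_nonneg (show 0 ≤ 1 - Ψ x by linarith),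
        abs_of_nonneg (show 0 ≤ Λ₁ * ‖v‖ ^ 2 by positivity)]
      calc (1 - Ψ x) * (Λ₁ * ‖v‖ ^ 2 * |(κ t' - κ t) / (κ t * κ t')|)
          ≤ 1 * (Λ₁ * ‖v‖ ^ 2 * |(κ t' - κ t) / (κ t * κ t')|) :=
            mul_le_mul_of_nonneg_right (by linarith) (by positivity)
        _ = Λ₁ * ‖v‖ ^ 2 * |(κ t' - κ t) / (κ t * κ t')| := one_mul _
        _ ≤ Λ₁ * ‖v‖ ^ 2 * (|A3| * |t - t'| / a ^ 2) :=
            mul_le_mul_of_nonneg_left e2 (by positivity)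
        _ = Λ₁ * |A3| / a ^ 2 * ‖v‖ ^ 2 * |t - t'| := by ring
    have e5 : H4_S φ F κ Ψ Λ₁ x v t - H4_S φ F κ Ψ Λ₁ x v t' =
        Ψ x * (pull φ F x v t ^ 2 - pull φ F x v t' ^ 2) +
          (1 - Ψ x) * (Λ₁ * ‖v‖ ^ 2 / κ t - Λ₁ * ‖v‖ ^ 2 / κ t') := by
      show (Ψ x * pull φ F x v t ^ 2 + (1 - Ψ x) * (Λ₁ * ‖v‖ ^ 2 / κ t)) -
        (Ψ x * pull φ F x v t' ^ 2 + (1 - Ψ x) * (Λ₁ * ‖v‖ ^ 2 / κ t')) = _
      ring
    rw [e5]
    refine (abs_add_le _ _).trans ?_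
    calc _ ≤ 2 * |A1| * c2 * p2 * ‖v‖ ^ 2 * |t - t'| + Λ₁ * |A3| / a ^ 2 * ‖v‖ ^ 2 * |t - t'| :=
          add_le_add w1 w2
      _ = D * ‖v‖ ^ 2 * |t - t'| := by rw [hD]; ring
  have hq1s : 0 < √q1 := Real.sqrt_pos.2 hq1pos
  have hlip : ∀ x ∈ M'.N, ∀ v, IsTangent M' x v → ∀ t t',
      |F1 φ F κ Ψ Λ₁ x v t - F1 φ F κ Ψ Λ₁ x v t'| ≤ D / (2 * √q1) * ‖v‖ * |t - t'| := by
    intro x hx v hv t t'
    rcases (norm_nonneg v).eq_or_lt with h0 | h0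
    · have e1 := hlow x hx v hv t
      have e2 := hupp x hx v hv t
      have e3 := hlow x hx v hv t'
      have e4 := hupp x hx v hv t'
      rw [← h0, mul_zero] at e1 e2 e3 e4
      rw [← h0, le_antisymm e2 e1, le_antisymm e4 e3]
      simp
    · have e1 := hlow x hx v hv t
      have e3 := hlow x hx v hv t'
      have e5 : (F1 φ F κ Ψ Λ₁ x v t - F1 φ F κ Ψ Λ₁ x v t') *
          (F1 φ F κ Ψ Λ₁ x v t + F1 φ F κ Ψ Λ₁ x v t') =
          H4_S φ F κ Ψ Λ₁ x v t - H4_S φ F κ Ψ Λ₁ x v t' := by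
        rw [H4_F1, H4_F1]
        have f1 := Real.mul_self_sqrt (hSn x hx v hv t)
        have f2 := Real.mul_self_sqrt (hSn x hx v hv t')
        linear_combination f1 - f2
      have e6 : 2 * √q1 * ‖v‖ ≤ F1 φ F κ Ψ Λ₁ x v t + F1 φ F κ Ψ Λ₁ x v t' := by linarith
      have e7 : 0 < 2 * √q1 * ‖v‖ := by positivity
      have e8 : |F1 φ F κ Ψ Λ₁ x v t - F1 φ F κ Ψ Λ₁ x v t'| * (2 * √q1 * ‖v‖) ≤
          D * ‖v‖ ^ 2 * |t - t'| := by
        calc |F1 φ F κ Ψ Λ₁ x v t - F1 φ F κ Ψ Λ₁ x v t'| * (2 * √q1 * ‖v‖)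
            ≤ |F1 φ F κ Ψ Λ₁ x v t - F1 φ F κ Ψ Λ₁ x v t'| *
              (F1 φ F κ Ψ Λ₁ x v t + F1 φ F κ Ψ Λ₁ x v t') :=
              mul_le_mul_of_nonneg_left e6 (abs_nonneg _)
          _ = |F1 φ F κ Ψ Λ₁ x v t - F1 φ F κ Ψ Λ₁ x v t'| *
              |F1 φ F κ Ψ Λ₁ x v t + F1 φ F κ Ψ Λ₁ x v t'| := by
              rw [abs_of_pos (e7.trans_le e6)]
          _ = |H4_S φ F κ Ψ Λ₁ x v t - H4_S φ F κ Ψ Λ₁ x v t'| := by rw [← abs_mul, e5]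
          _ ≤ D * ‖v‖ ^ 2 * |t - t'| := hSlip x hx v hv t t'
      have e9 : D / (2 * √q1) * ‖v‖ * |t - t'| = D * ‖v‖ ^ 2 * |t - t'| / (2 * √q1 * ‖v‖) := by
        field_simp
      rw [e9]
      exact (le_div_iff₀ e7).2 e8
  have hia : 0 < 1 / a := by positivity
  have hDq : 0 ≤ D / (2 * √q1) := by positivity
  set A : ℝ := D / (2 * √q1) + |A3| + 1 / a + b with hAdef
  have hA3' := abs_nonneg A3
  have hAa : 1 / a ≤ A := by linarith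
  have hApos : 0 < A := hia.trans_le hAa
  have hAb : b ≤ A := by linarith
  have hAD : D / (2 * √q1) ≤ A := by linarith
  have h3A : A3 ≤ A := by
    have := le_abs_self A3
    linarith
  refine ⟨√q1, √q2, A, ?_⟩
  refine
    { fn := ?_
      A_pos := hApos
      cont := hcont
      pert := ?_
      lip := ?_
      κ_per := hκ.periodic
      κ_pos := ?_
      κ_le := fun t => (hab t).2.trans hAb
      κ_lip := ?_ }
  · intro t
    refine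
      { mF_pos := hq1s
        mF_le := Real.sqrt_le_sqrt hq12
        cont := ?_
        per := ?_
        hom := fun x v s hxv hs => hhom x hxv.1 v hxv.2 s hs t
        low := fun x v hxv => hlow x hxv.1 v hxv.2 t
        upp := fun x v hxv => hupp x hxv.1 v hxv.2 t }
    · have h1 : Continuous (fun p : Vec m × Vec m => ((p.1, p.2, t) : Vec m × Vec m × ℝ)) := by
        fun_prop
      exact hcont.comp (f := fun p : Vec m × Vec m => ((p.1, p.2, t) : Vec m × Vec m × ℝ))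
        h1.continuousOn fun p hp => hp
    · intro j x v hxv
      rw [bas_apply]
      exact hper x hxv.1 v hxv.2 _ t
  · intro x v t hxv
    have e3 : Ψ x * pull φ F x v (t + 1) ^ 2 = Ψ x * pull φ F x v t ^ 2 := by
      by_cases h0 : Ψ x = 0
      · rw [h0]
        simp
      · have hxO : x ∈ M'.N ∩ O := ⟨hxv.1, H4_O hC (H4_near hC h0)⟩
        have e4 : pull φ F x v (t + 1) = pull φ F x v t :=
          hF.periodic (φ x) (hφ.maps x hxO) _ (hφ.tangent hxO hxv.2) t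
        rw [e4]
    show √(Ψ x * pull φ F x v (t + 1) ^ 2 + (1 - Ψ x) * (Λ₁ * ‖v‖ ^ 2 / κ (t + 1))) =
      √(Ψ x * pull φ F x v t ^ 2 + (1 - Ψ x) * (Λ₁ * ‖v‖ ^ 2 / κ t))
    rw [e3, hκ.periodic]
  · intro x v t t' hxv
    refine (hlip x hxv.1 v hxv.2 t t').trans ?_
    exact mul_le_mul_of_nonneg_right (mul_le_mul_of_nonneg_right hAD (norm_nonneg v)) (abs_nonneg _)
  · intro t
    have h1 : 1 / a * a = 1 := by field_simp
    calc (1 : ℝ) = 1 / a * a := h1.symm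
      _ ≤ A * κ t := mul_le_mul hAa (hab t).1 ha.le hApos.le
  · intro t t'
    exact (hA3 t t').trans (mul_le_mul_of_nonneg_right h3A (abs_nonneg _))

theorem finsP_mono {ι : Type} [Fintype ι] {E : Type*} [NormedAddCommGroup E] [InnerProductSpace ℝ E]
    {β : Module.Basis ι ℝ E} {N : Set E} {r : E → E} {F : E → E → ℝ → ℝ} {mF MF A A' : ℝ} {κ : ℝ → ℝ}
    (h : FinsP β N r F mF MF A κ) (hA : A ≤ A') : FinsP β N r F mF MF A' κ := by
  have hκ0 : ∀ t, 0 < κ t := by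
    intro t
    by_contra h0
    push Not at h0
    have h1 := h.κ_pos t
    have h2 : A * κ t ≤ 0 := mul_nonpos_of_nonneg_of_nonpos h.A_pos.le h0
    linarith
  refine
    { fn := h.fn
      A_pos := h.A_pos.trans_le hA
      cont := h.cont
      pert := h.pert
      lip := ?_
      κ_per := h.κ_per
      κ_pos := ?_
      κ_le := fun t => (h.κ_le t).trans hA
      κ_lip := ?_ }
  · intro x v t t' hxv
    refine (h.lip x v t t' hxv).trans ?_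
    exact mul_le_mul_of_nonneg_right (mul_le_mul_of_nonneg_right hA (norm_nonneg v)) (abs_nonneg _)
  · intro t
    exact (h.κ_pos t).trans (mul_le_mul_of_nonneg_right hA (hκ0 t).le)
  · intro t t'
    exact (h.κ_lip t t').trans (mul_le_mul_of_nonneg_right hA (abs_nonneg _))

/-- near `K` this is the pulled back metric -/
theorem F1_eq (hC : CutW M' O K B ρ a0 Ψ Ψ₂ ℓ) (hφ : IsChart M M' O G φ) (hF : IsFinslerT M F) (Λ₁ : ℝ)
    {x v : Vec m} (hx : x ∈ M'.N) (hK : Metric.infDist x K ≤ a0) (hv : IsTangent M' x v) (t : ℝ) :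
    F1 φ F κ Ψ Λ₁ x v t = pull φ F x v t := by
  have ha := hC.a0_pos
  have hxO : x ∈ M'.N ∩ O := ⟨hx, H4_O hC (by linarith)⟩
  have h0 : 0 ≤ pull φ F x v t := H4_nonneg hF (hφ.maps x hxO) (hφ.tangent hxO hv) t
  have h1 : Ψ x = 1 := hC.one1 x hK
  show √(Ψ x * pull φ F x v t ^ 2 + (1 - Ψ x) * (Λ₁ * ‖v‖ ^ 2 / κ t)) = pull φ F x v t
  rw [h1, one_mul, sub_self, zero_mul, add_zero, Real.sqrt_sq h0]

end EscW
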