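import Pool.Agent.EscW.H4
import Pool.Agent.EscMT.P11

set_option autoImplicit false

/-!
Project EscW, module H5: the calibrating function on `M'`.
`smooth`: near a point `x` of the tube with `M'.r x ∈ O` from `IsCalibratedW.smooth`, otherwise `Ψ₂ (M'.r y) = 0` for `y` near `x`. `le`, `only`: let `b` be the differential of `B1` at `x ∈ M'.N`, `v` tangent. If `infDist x K < 2 a0`
then `Ψ₂ = 1` near `x`, `b v = d(B ∘ r) v ≤ pull φ F x v t` and `b v ² ≤ C ‖v‖² < Λ₁ ‖v‖² / κ t` for large `Λ₁`, so `b v ≤ F1`, with equality for `v ≠ 0` only if `Ψ x = 1` and `b v = pull φ F x v t`; if `2 a0 ≤ infDist x K` then `Ψ x = 0` and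
`b v < F1` for large `Λ₁` (`b` is bounded by compactness and periodicity, uniformly in `t`). `dlip`: `b` at the times `t`, `t'`: `Ψ₂ x` times the difference of `d(B ∘ r)` plus the differential of `Ψ₂` times `B x t - B x t'`; for the last one: `B x t - B x t'` is
Lipschitz in `t` uniformly near `K` since `B ∘ r` is `C^1` in `(x,t)`. `simple`: if `c σ t = c σ' t + vz n` then `φ (c σ t) = φ (c σ' t) + vz l` (`fibre`).
-/

noncomputable section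

namespace EscW

open MeasureTheory Set Filter Topology Esc EscF EscG EscM EscMT EscF.T
open scoped ContDiff

variable {d m : ℕ} {M : Sub d} {M' : Sub m} {O K : Set (Vec m)} {G : Subgroup (Vec m ≃ₗᵢ[ℝ] Vec m)}
  {φ : Vec m → Vec d} {κ : ℝ → ℝ} {F : Vec d → Vec d → ℝ → ℝ} {L : Lag d} {B : Vec m → ℝ → ℝ} {i : Fin m}
  {len a : ℝ} {c : ℝ → ℝ → Vec m} {ρ a0 : ℝ} {Ψ Ψ₂ χ : Vec m → ℝ} {R : Vec m → Vec m} {ℓ : Vec m →L[ℝ] ℝ}

theorem B1_eq (hC : CutW M' O K B ρ a0 Ψ Ψ₂ ℓ) {x : Vec m} (hK : Metric.infDist x K ≤ 2 * a0) (t : ℝ) :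
    B1 B Ψ₂ ℓ x t = B x t := by
  rw [B1, hC.one2 x hK]
  ring

/-- the function `B ∘ r` -/
def H5_q (M' : Sub m) (B : Vec m → ℝ → ℝ) (p : Vec m × ℝ) : ℝ := B (M'.r p.1) p.2

theorem H5_open (hO : IsOpen O) : IsOpen {p : Vec m × ℝ | p.1 ∈ M'.U ∧ M'.r p.1 ∈ O} := by
  have h1 : IsOpen (M'.U ∩ M'.r ⁻¹' O) := M'.smooth.continuousOn.isOpen_inter_preimage M'.isOpen hO
  exact h1.preimage continuous_fst

theorem H5_rc (M' : Sub m) {x : Vec m} (hx : x ∈ M'.U) : ContinuousAt M'.r x :=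
  ((M'.smooth x hx).contDiffAt (M'.isOpen.mem_nhds hx)).continuousAt

theorem H5_rd (M' : Sub m) {x : Vec m} (hx : x ∈ M'.U) : DifferentiableAt ℝ M'.r x :=
  ((M'.smooth x hx).contDiffAt (M'.isOpen.mem_nhds hx)).differentiableAt (by simp)

theorem H5_r1 (M' : Sub m) {p : Vec m × ℝ} (hx : p.1 ∈ M'.U) :
    ContDiffAt ℝ 1 (fun p : Vec m × ℝ => M'.r p.1) p := by
  have h1 : ContDiffAt ℝ 1 M'.r p.1 :=
    ((M'.smooth p.1 hx).contDiffAt (M'.isOpen.mem_nhds hx)).of_le (by exact_mod_cast le_top)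
  exact h1.comp p contDiffAt_fst

section

variable (hC : CutW M' O K B ρ a0 Ψ Ψ₂ ℓ) (hφ : IsChart M M' O G φ)
    (hc : IsCalibratedW M' O φ (pull φ F) B i len c)

include hC

theorem H5_memO {x : Vec m} (hx : Metric.infDist x K ≤ 3 * a0) : x ∈ O :=
  hC.room x (by have := hC.a0_pos; linarith)

include hφ hc

theorem H5_qd {p : Vec m × ℝ} (h1 : p.1 ∈ M'.U) (h2 : M'.r p.1 ∈ O) : ContDiffAt ℝ 1 (H5_q M' B) p :=
  (hc.smooth p ⟨h1, h2⟩).contDiffAt ((H5_open hφ.isOpen).mem_nhds ⟨h1, h2⟩)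

omit hφ in
theorem H5_shift {x : Vec m} (hx : x ∈ M'.N ∩ O) (n : Fin m → ℤ) (l : ℤ) (t : ℝ)
    (hx' : x + vz n ∈ M'.N ∩ O) :
    B (x + vz n) (t + l) = B x t + ℓ (vz n) := by
  have h1 : Function.Periodic (B (x + vz n)) 1 := fun s => hc.periodic _ hx' s
  have h2 := h1.int_mul l t
  rw [mul_one] at h2
  rw [h2, hC.ell n x hx t]

theorem H5_fq {x : Vec m} (hx : x ∈ M'.N ∩ O) (n : Fin m → ℤ) (l : ℤ) (t : ℝ) :
    fderiv ℝ (H5_q M' B) (x + vz n, t + l) = fderiv ℝ (H5_q M' B) (x, t) := by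
  have h1 : ((x + vz n, t + (l : ℝ)) : Vec m × ℝ) = (x, t) + (vz n, (l : ℝ)) := rfl
  rw [h1, ← fderiv_comp_add_right]
  have hU : x ∈ M'.U := M'.sub hx.1
  have h2 : (fun p : Vec m × ℝ => H5_q M' B (p + (vz n, (l : ℝ)))) =ᶠ[𝓝 (x, t)]
      fun p => H5_q M' B p + ℓ (vz n) := by
    have h3 : (x, t) ∈ {p : Vec m × ℝ | p.1 ∈ M'.U ∧ M'.r p.1 ∈ O} := by
      refine ⟨hU, ?_⟩
      show M'.r x ∈ O
      rw [r_self M' hx.1]
      exact hx.2
    filter_upwards [(H5_open hφ.isOpen).mem_nhds h3] with p hp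
    show B (M'.r (p.1 + vz n)) (p.2 + l) = B (M'.r p.1) p.2 + ℓ (vz n)
    rw [r_vz M' n hp.1]
    have h4 : M'.r p.1 ∈ M'.N := M'.mem p.1 hp.1
    exact H5_shift hC hc ⟨h4, hp.2⟩ n l p.2 ⟨M'.perN n _ h4, hφ.perO n _ hp.2⟩
  rw [h2.fderiv_eq, fderiv_add_const]

omit hφ hc in
theorem H5_fpsi (x : Vec m) (n : Fin m → ℤ) : fderiv ℝ Ψ₂ (x + vz n) = fderiv ℝ Ψ₂ x := by
  rw [← fderiv_comp_add_right]
  congr 1
  funext y
  exact hC.per2 n y

/-- uniform bounds near `K` -/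
theorem H5_bound : ∃ C : ℝ, 0 ≤ C ∧ ∀ x ∈ M'.N, Metric.infDist x K ≤ 3 * a0 → ∀ t,
    ‖fderiv ℝ (H5_q M' B) (x, t)‖ ≤ C ∧ |B x t - ℓ x| ≤ C ∧ ‖fderiv ℝ Ψ₂ x‖ ≤ C := by
  obtain ⟨C0, hC0, hsub, hrep⟩ := hC.cpt
  have hS : IsCompact ((C0 ∩ M'.N) ×ˢ Icc (0 : ℝ) 1) := (hC0.inter_right M'.closed).prod isCompact_Icc
  have hS0 : ∀ p ∈ (C0 ∩ M'.N) ×ˢ Icc (0 : ℝ) 1, p.1 ∈ M'.N ∩ O := by
    intro p hp
    exact ⟨hp.1.2, H5_memO hC (hsub hp.1.1)⟩
  have hS1 : ∀ p ∈ (C0 ∩ M'.N) ×ˢ Icc (0 : ℝ) 1, p ∈ {p : Vec m × ℝ | p.1 ∈ M'.U ∧ M'.r p.1 ∈ O} := by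
    intro p hp
    refine ⟨M'.sub hp.1.2, ?_⟩
    rw [r_self M' hp.1.2]
    exact (hS0 p hp).2
  have hf1 : ContinuousOn (fderiv ℝ (H5_q M' B)) ((C0 ∩ M'.N) ×ˢ Icc (0 : ℝ) 1) := by
    have h1 : ContinuousOn (fderiv ℝ (H5_q M' B)) {p : Vec m × ℝ | p.1 ∈ M'.U ∧ M'.r p.1 ∈ O} :=
      ContDiffOn.continuousOn_fderiv_of_isOpen hc.smooth (H5_open hφ.isOpen) le_rfl
    exact h1.mono hS1
  have hf2 : ContinuousOn (fun p : Vec m × ℝ => H5_q M' B p - ℓ p.1) ((C0 ∩ M'.N) ×ˢ Icc (0 : ℝ) 1) := by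
    have h1 : ContinuousOn (H5_q M' B) {p : Vec m × ℝ | p.1 ∈ M'.U ∧ M'.r p.1 ∈ O} :=
      hc.smooth.continuousOn
    exact (h1.mono hS1).sub (by fun_prop)
  have hf3 : ContinuousOn (fderiv ℝ Ψ₂) (C0 ∩ M'.N) := (hC.s2.continuous_fderiv (by simp)).continuousOn
  obtain ⟨c1, h1⟩ := hS.exists_bound_of_continuousOn hf1
  obtain ⟨c2, h2⟩ := hS.exists_bound_of_continuousOn hf2
  obtain ⟨c3, h3⟩ := (hC0.inter_right M'.closed).exists_bound_of_continuousOn hf3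
  refine ⟨|c1| + |c2| + |c3|, by positivity, ?_⟩
  intro x hx hK t
  obtain ⟨n, hn⟩ := hrep x hK
  have hxO : x ∈ M'.N ∩ O := ⟨hx, H5_memO hC hK⟩
  have hxN : x + vz n ∈ M'.N := M'.perN n x hx
  have hxn : x + vz n ∈ M'.N ∩ O := ⟨hxN, H5_memO hC (hsub hn)⟩
  have ht : t + ((-⌊t⌋ : ℤ) : ℝ) = Int.fract t := by
    push_cast
    rw [← sub_eq_add_neg]
    rfl
  have ht0 : t + ((-⌊t⌋ : ℤ) : ℝ) ∈ Icc (0 : ℝ) 1 := by
    rw [ht]
    exact ⟨Int.fract_nonneg t, (Int.fract_lt_one t).le⟩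
  have hmem : ((x + vz n, t + ((-⌊t⌋ : ℤ) : ℝ)) : Vec m × ℝ) ∈ (C0 ∩ M'.N) ×ˢ Icc (0 : ℝ) 1 :=
    ⟨⟨hn, hxN⟩, ht0⟩
  have g1 := h1 _ hmem
  have g2 := h2 _ hmem
  have g3 := h3 _ ⟨hn, hxN⟩
  rw [H5_fq hC hφ hc hxO] at g1
  rw [H5_fpsi hC] at g3
  have g4 : H5_q M' B (x + vz n, t + ((-⌊t⌋ : ℤ) : ℝ)) - ℓ (x + vz n) = B x t - ℓ x := by
    show B (M'.r (x + vz n)) (t + ((-⌊t⌋ : ℤ) : ℝ)) - ℓ (x + vz n) = B x t - ℓ x
    rw [r_self M' hxN, H5_shift hC hc hxO n _ t hxn, map_add]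
    ring
  change ‖H5_q M' B (x + vz n, t + ((-⌊t⌋ : ℤ) : ℝ)) - ℓ (x + vz n)‖ ≤ c2 at g2
  rw [g4, Real.norm_eq_abs] at g2
  have k1 := le_abs_self c1
  have k2 := le_abs_self c2
  have k3 := le_abs_self c3
  have k4 := abs_nonneg c1
  have k5 := abs_nonneg c2
  have k6 := abs_nonneg c3
  exact ⟨by linarith, by linarith, by linarith⟩

omit hC in
/-- the differential in `x` -/
theorem H5_dx {x : Vec m} (hx : x ∈ M'.N ∩ O) (t : ℝ) (v : Vec m) :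
    DifferentiableAt ℝ (fun y => B (M'.r y) t) x ∧
      fderiv ℝ (fun y => B (M'.r y) t) x v = fderiv ℝ (H5_q M' B) (x, t) (v, 0) := by
  have hU : x ∈ M'.U := M'.sub hx.1
  have hrx : M'.r x ∈ O := by
    rw [r_self M' hx.1]
    exact hx.2
  have h1 : DifferentiableAt ℝ (H5_q M' B) (x, t) :=
    ((hc.smooth (x, t) ⟨hU, hrx⟩).contDiffAt
      ((H5_open hφ.isOpen).mem_nhds ⟨hU, hrx⟩)).differentiableAt (by simp)
  have h2 : HasFDerivAt (fun y : Vec m => ((y, t) : Vec m × ℝ)) (ContinuousLinearMap.inl ℝ (Vec m) ℝ) x :=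
    hasFDerivAt_prodMk_left x t
  have h3 : HasFDerivAt (fun y => B (M'.r y) t)
      ((fderiv ℝ (H5_q M' B) (x, t)).comp (ContinuousLinearMap.inl ℝ (Vec m) ℝ)) x :=
    HasFDerivAt.comp (g := H5_q M' B) x h1.hasFDerivAt h2
  refine ⟨h3.differentiableAt, ?_⟩
  rw [h3.fderiv]
  rfl

/-- Lipschitz in time -/
theorem H5_dt {C : ℝ} (hb : ∀ x ∈ M'.N, Metric.infDist x K ≤ 3 * a0 → ∀ t,
    ‖fderiv ℝ (H5_q M' B) (x, t)‖ ≤ C) {x : Vec m} (hx : x ∈ M'.N) (hK : Metric.infDist x K ≤ 3 * a0)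
    (t t' : ℝ) : |B x t - B x t'| ≤ C * |t - t'| := by
  have hxO : x ∈ M'.N ∩ O := ⟨hx, H5_memO hC hK⟩
  have hU : x ∈ M'.U := M'.sub hx
  have hrx : M'.r x ∈ O := by
    rw [r_self M' hx]
    exact hxO.2
  have h1 : ∀ s : ℝ, HasDerivAt (fun s => H5_q M' B (x, s)) (fderiv ℝ (H5_q M' B) (x, s) (0, 1)) s := by
    intro s
    have h2 : DifferentiableAt ℝ (H5_q M' B) (x, s) :=
      (H5_qd hC hφ hc (p := (x, s)) hU hrx).differentiableAt (by simp)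
    have h3 : HasDerivAt (fun s : ℝ => ((x, s) : Vec m × ℝ)) (0, 1) s :=
      (hasDerivAt_const s x).prodMk (hasDerivAt_id s)
    exact h2.hasFDerivAt.comp_hasDerivAt s h3
  have h4 : ∀ s ∈ (univ : Set ℝ), ‖fderiv ℝ (H5_q M' B) (x, s) (0, 1)‖ ≤ C := by
    intro s _
    refine (ContinuousLinearMap.le_opNorm _ _).trans ?_
    have h5 : ‖((0, 1) : Vec m × ℝ)‖ = 1 := by
      simp [Prod.norm_def]
    rw [h5, mul_one]
    exact hb x hx hK s
  have h6 := convex_univ.norm_image_sub_le_of_norm_hasDerivWithin_le (f := fun s => H5_q M' B (x, s))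
    (fun s _ => (h1 s).hasDerivWithinAt) h4 (mem_univ t') (mem_univ t)
  rw [Real.norm_eq_abs, Real.norm_eq_abs] at h6
  have h7 : ∀ s, H5_q M' B (x, s) = B x s := by
    intro s
    show B (M'.r x) s = B x s
    rw [r_self M' hx]
  simpa only [h7] using h6

omit hC hφ hc in
/-- derivative of a function of `r` in a tangent direction -/
theorem H5_tan {x v : Vec m} (hx : x ∈ M'.N) (hv : IsTangent M' x v) {g : Vec m → ℝ}
    (hg : DifferentiableAt ℝ g x) : DifferentiableAt ℝ (fun y => g (M'.r y)) x ∧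
      fderiv ℝ (fun y => g (M'.r y)) x v = fderiv ℝ g x v := by
  have h1 : HasFDerivAt M'.r (fderiv ℝ M'.r x) x := (H5_rd M' (M'.sub hx)).hasFDerivAt
  have h2 : HasFDerivAt g (fderiv ℝ g x) (M'.r x) := by
    rw [r_self M' hx]
    exact hg.hasFDerivAt
  have h3 : HasFDerivAt (fun y => g (M'.r y)) ((fderiv ℝ g x).comp (fderiv ℝ M'.r x)) x :=
    HasFDerivAt.comp x h2 h1
  refine ⟨h3.differentiableAt, ?_⟩
  rw [h3.fderiv]
  show fderiv ℝ g x (fderiv ℝ M'.r x v) = fderiv ℝ g x v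
  rw [hv]

/-- the differential of `B1 ∘ r` -/
theorem H5_b {x v : Vec m} (hx : x ∈ M'.N) (hv : IsTangent M' x v) (hK : Metric.infDist x K ≤ 3 * a0)
    (t : ℝ) : fderiv ℝ (fun y => B1 B Ψ₂ ℓ (M'.r y) t) x v =
      ℓ v + (fderiv ℝ Ψ₂ x v * (B x t - ℓ x) +
        Ψ₂ x * (fderiv ℝ (fun y => B (M'.r y) t) x v - ℓ v)) := by
  have hxO : x ∈ M'.N ∩ O := ⟨hx, H5_memO hC hK⟩
  obtain ⟨h1, -⟩ := H5_dx hφ hc hxO t v
  have hψ : DifferentiableAt ℝ Ψ₂ x := (hC.s2.differentiable (by simp)) x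
  obtain ⟨h2, h3⟩ := H5_tan hx hv hψ
  obtain ⟨h4, h5⟩ := H5_tan hx hv (g := fun y => ℓ y) ℓ.differentiableAt
  have h6 : fderiv ℝ (fun y => ℓ y) x v = ℓ v := by
    have : fderiv ℝ (fun y => ℓ y) x = ℓ := ℓ.fderiv
    rw [this]
  rw [h6] at h5
  have h7 : HasFDerivAt (fun y => B1 B Ψ₂ ℓ (M'.r y) t)
      (fderiv ℝ (fun y => ℓ (M'.r y)) x + (Ψ₂ (M'.r x) • (fderiv ℝ (fun y => B (M'.r y) t) x -
        fderiv ℝ (fun y => ℓ (M'.r y)) x) + (B (M'.r x) t - ℓ (M'.r x)) •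
        fderiv ℝ (fun y => Ψ₂ (M'.r y)) x)) x :=
    h4.hasFDerivAt.add (h2.hasFDerivAt.mul (h1.hasFDerivAt.sub h4.hasFDerivAt))
  rw [h7.fderiv]
  simp only [ContinuousLinearMap.add_apply, ContinuousLinearMap.smul_apply,
    ContinuousLinearMap.sub_apply, smul_eq_mul]
  rw [h5, h3, r_self M' hx]
  ring

omit hφ hc in
theorem H5_near {x : Vec m} (hU : x ∈ M'.U) (hK : 3 * a0 < Metric.infDist (M'.r x) K) :
    ∀ᶠ y in 𝓝 x, Ψ₂ (M'.r y) = 0 := by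
  have h1 : ContinuousAt (fun y => Metric.infDist (M'.r y) K) x :=
    (Metric.continuous_infDist_pt K).continuousAt.comp (H5_rc M' hU)
  filter_upwards [h1.eventually (lt_mem_nhds hK)] with y hy
  exact hC.zero2 _ hy.le

omit hφ hc in
theorem H5_b' {x v : Vec m} (hx : x ∈ M'.N) (hv : IsTangent M' x v) (hK : 3 * a0 < Metric.infDist x K)
    (t : ℝ) : fderiv ℝ (fun y => B1 B Ψ₂ ℓ (M'.r y) t) x v = ℓ v := by
  have h1 : (fun y => B1 B Ψ₂ ℓ (M'.r y) t) =ᶠ[𝓝 x] fun y => ℓ (M'.r y) := by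
    have h2 : 3 * a0 < Metric.infDist (M'.r x) K := by
      rw [r_self M' hx]
      exact hK
    filter_upwards [H5_near hC (M'.sub hx) h2] with y hy
    rw [B1, hy]
    ring
  rw [h1.fderiv_eq, (H5_tan hx hv (g := fun y => ℓ y) ℓ.differentiableAt).2]
  have : fderiv ℝ (fun y => ℓ y) x = ℓ := ℓ.fderiv
  rw [this]

omit hφ hc in
/-- near `K` the differential is that of `B ∘ r` -/
theorem H5_b2 {x : Vec m} (hx : x ∈ M'.N) (hK : Metric.infDist x K < 2 * a0) (t : ℝ) :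
    fderiv ℝ (fun y => B1 B Ψ₂ ℓ (M'.r y) t) x = fderiv ℝ (fun y => B (M'.r y) t) x := by
  have h1 : ContinuousAt (fun y => Metric.infDist (M'.r y) K) x :=
    (Metric.continuous_infDist_pt K).continuousAt.comp (H5_rc M' (M'.sub hx))
  have h2 : Metric.infDist (M'.r x) K < 2 * a0 := by
    rw [r_self M' hx]
    exact hK
  apply Filter.EventuallyEq.fderiv_eq
  filter_upwards [h1.eventually (gt_mem_nhds h2)] with y hy
  exact B1_eq hC hy.le t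

/-- the differential of `B1 ∘ r` is bounded -/
theorem H5_C1 : ∃ C1 : ℝ, 0 ≤ C1 ∧ ∀ x v t, (x, v) ∈ TN M'.N M'.r →
    |fderiv ℝ (fun y => B1 B Ψ₂ ℓ (M'.r y) t) x v| ≤ C1 * ‖v‖ := by
  obtain ⟨C, hC0, hb⟩ := H5_bound hC hφ hc
  refine ⟨‖ℓ‖ + (C * C + (C + ‖ℓ‖)), by positivity, ?_⟩
  intro x v t hxv
  have hl : |ℓ v| ≤ ‖ℓ‖ * ‖v‖ := by
    rw [← Real.norm_eq_abs]
    exact ℓ.le_opNorm v
  have hv0 := norm_nonneg v
  by_cases hK : Metric.infDist x K ≤ 3 * a0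
  · obtain ⟨h1, h2, h3⟩ := hb x hxv.1 hK t
    have hxO : x ∈ M'.N ∩ O := ⟨hxv.1, H5_memO hC hK⟩
    rw [H5_b hC hφ hc hxv.1 hxv.2 hK t]
    have h4 : |fderiv ℝ Ψ₂ x v| ≤ C * ‖v‖ := by
      rw [← Real.norm_eq_abs]
      exact (ContinuousLinearMap.le_opNorm _ _).trans (mul_le_mul_of_nonneg_right h3 hv0)
    have h5 : |fderiv ℝ (fun y => B (M'.r y) t) x v| ≤ C * ‖v‖ := by
      rw [(H5_dx hφ hc hxO t v).2, ← Real.norm_eq_abs]
      refine (ContinuousLinearMap.le_opNorm _ _).trans ?_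
      have h6 : ‖((v, 0) : Vec m × ℝ)‖ = ‖v‖ := by
        simp [Prod.norm_def]
      rw [h6]
      exact mul_le_mul_of_nonneg_right h1 hv0
    have h7 : |fderiv ℝ Ψ₂ x v * (B x t - ℓ x)| ≤ C * ‖v‖ * C := by
      rw [abs_mul]
      exact mul_le_mul h4 h2 (abs_nonneg _) (by positivity)
    have h8 : |Ψ₂ x * (fderiv ℝ (fun y => B (M'.r y) t) x v - ℓ v)| ≤ 1 * (C * ‖v‖ + ‖ℓ‖ * ‖v‖) := by
      rw [abs_mul]
      refine mul_le_mul ?_ ((abs_sub _ _).trans (add_le_add h5 hl)) (abs_nonneg _) zero_le_one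
      rw [abs_of_nonneg (hC.Ψ201 x).1]
      exact (hC.Ψ201 x).2
    have h9 := abs_add_le (ℓ v) (fderiv ℝ Ψ₂ x v * (B x t - ℓ x) +
        Ψ₂ x * (fderiv ℝ (fun y => B (M'.r y) t) x v - ℓ v))
    have h10 := abs_add_le (fderiv ℝ Ψ₂ x v * (B x t - ℓ x))
        (Ψ₂ x * (fderiv ℝ (fun y => B (M'.r y) t) x v - ℓ v))
    calc _ ≤ |ℓ v| + (|fderiv ℝ Ψ₂ x v * (B x t - ℓ x)| +
          |Ψ₂ x * (fderiv ℝ (fun y => B (M'.r y) t) x v - ℓ v)|) := by linarith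
      _ ≤ ‖ℓ‖ * ‖v‖ + (C * ‖v‖ * C + 1 * (C * ‖v‖ + ‖ℓ‖ * ‖v‖)) := by linarith
      _ = _ := by ring
  · rw [H5_b' hC hxv.1 hxv.2 (not_le.1 hK) t]
    refine hl.trans ?_
    have : 0 ≤ (C * C + (C + ‖ℓ‖)) * ‖v‖ := by positivity
    linarith

end

theorem calP1 (hC : CutW M' O K B ρ a0 Ψ Ψ₂ ℓ) (hφ : IsChart M M' O G φ) (hκ : IsWeight κ)
    (hF : IsFinslerT M F) (hc : IsCalibratedW M' O φ (pull φ F) B i len c)
    (hR : IsRoom M' O K (pull φ F) B i c a) : ∃ Λ₀ A : ℝ, 0 < Λ₀ ∧ ∀ Λ₁, Λ₀ ≤ Λ₁ →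
      CalP (bas m) M'.N M'.r (5 * ρ) (F1 φ F κ Ψ Λ₁) A (B1 B Ψ₂ ℓ) i len c
        (fun σ t => deriv (fun σ => c σ t) σ) (fun σ t => deriv (fun t => c σ t) t) := by
  obtain ⟨C, hC0, hb⟩ := H5_bound hC hφ hc
  obtain ⟨C1, hC1, hb1⟩ := H5_C1 hC hφ hc
  obtain ⟨κ0, κ1, hκ0, hκ1, hκb⟩ := P11_weight hκ
  obtain ⟨A1, hA1⟩ := hc.lip
  have ha0 := hC.a0_pos
  refine ⟨(C1 ^ 2 + 1) * κ1, C * C + |A1|, by positivity, ?_⟩
  intro Λ₁ hΛ
  have hW : ∀ (v : Vec m) (t : ℝ), (C1 ^ 2 + 1) * ‖v‖ ^ 2 ≤ Λ₁ * ‖v‖ ^ 2 / κ t := by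
    intro v t
    rw [le_div_iff₀ (hκ.pos t)]
    have h1 : (C1 ^ 2 + 1) * κ t ≤ Λ₁ :=
      (mul_le_mul_of_nonneg_left (hκb t).2 (by positivity)).trans hΛ
    calc (C1 ^ 2 + 1) * ‖v‖ ^ 2 * κ t = (C1 ^ 2 + 1) * κ t * ‖v‖ ^ 2 := by ring
      _ ≤ Λ₁ * ‖v‖ ^ 2 := mul_le_mul_of_nonneg_right h1 (by positivity)
  have hK0 : ∀ σ t, Metric.infDist (c σ t) K = 0 := fun σ t => Metric.infDist_zero_of_mem (hR.mem σ t)
  have hdiff : Differentiable ℝ (fun p : ℝ × ℝ => c p.1 p.2) := hc.curve.differentiable (by simp)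
  have hdσ : ∀ σ t, HasDerivAt (fun σ => c σ t) (fderiv ℝ (fun p : ℝ × ℝ => c p.1 p.2) (σ, t) (1, 0)) σ := by
    intro σ t
    have h1 : HasDerivAt (fun σ : ℝ => ((σ, t) : ℝ × ℝ)) (1, 0) σ :=
      (hasDerivAt_id σ).prodMk (hasDerivAt_const σ t)
    exact (hdiff (σ, t)).hasFDerivAt.comp_hasDerivAt σ h1
  have hdt : ∀ σ t, HasDerivAt (fun t => c σ t) (fderiv ℝ (fun p : ℝ × ℝ => c p.1 p.2) (σ, t) (0, 1)) t := by
    intro σ t
    have h1 : HasDerivAt (fun t : ℝ => ((σ, t) : ℝ × ℝ)) (0, 1) t :=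
      (hasDerivAt_const t σ).prodMk (hasDerivAt_id t)
    exact (hdiff (σ, t)).hasFDerivAt.comp_hasDerivAt t h1
  have hfc : Continuous (fderiv ℝ (fun p : ℝ × ℝ => c p.1 p.2)) :=
    hc.curve.continuous_fderiv (by simp)
  have htan : ∀ σ t, IsTangent M' (c σ t) (deriv (fun σ => c σ t) σ) := by
    intro σ t
    have h1 : HasDerivAt (fun s => c s t) (deriv (fun s => c s t) σ) σ :=
      (hdσ σ t).differentiableAt.hasDerivAt
    have h2 : HasFDerivAt M'.r (fderiv ℝ M'.r (c σ t)) ((fun s => c s t) σ) :=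
      (H5_rd M' (M'.sub (hc.mem σ t).1)).hasFDerivAt
    have h3 : HasDerivAt (fun s => M'.r (c s t))
        (fderiv ℝ M'.r (c σ t) (deriv (fun s => c s t) σ)) σ :=
      HasFDerivAt.comp_hasDerivAt (l := M'.r) (f := fun s => c s t) σ h2 h1
    have h4 : (fun s => M'.r (c s t)) = fun s => c s t := by
      funext s
      exact r_self M' (hc.mem s t).1
    rw [h4] at h3
    exact h3.unique h1
  refine
    { smooth := ?_
      pert := ?_
      per := ?_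
      le := ?_
      dlip := ?_
      len_pos := hc.len_pos
      mem := fun σ t => (hc.mem σ t).1
      c_σ := fun σ t => (hdσ σ t).differentiableAt.hasDerivAt
      c_t := fun σ t => (hdt σ t).differentiableAt.hasDerivAt
      c'_cont := ?_
      ct_cont := ?_
      closed := ?_
      c_per := hc.curve_per
      unit := ?_
      cal := ?_
      only := ?_
      simple := ?_ }
  · intro p hp
    have hU : p.1 ∈ M'.U := hC.tube p.1 hp
    apply ContDiffAt.contDiffWithinAt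
    have hr : ContDiffAt ℝ 1 (fun p : Vec m × ℝ => M'.r p.1) p := H5_r1 M' hU
    have hl : ContDiffAt ℝ 1 (fun p : Vec m × ℝ => ℓ (M'.r p.1)) p :=
      (ℓ.contDiff (n := 1)).contDiffAt.comp p hr
    by_cases hK : Metric.infDist (M'.r p.1) K ≤ 3 * a0
    · have h1 : ContDiffAt ℝ 1 (H5_q M' B) p := H5_qd hC hφ hc hU (H5_memO hC hK)
      have h2 : ContDiffAt ℝ 1 (fun p : Vec m × ℝ => Ψ₂ (M'.r p.1)) p :=
        ((hC.s2.of_le (by exact_mod_cast le_top)).contDiffAt (x := M'.r p.1)).comp p hr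
      exact hl.add (h2.mul (h1.sub hl))
    · refine hl.congr_of_eventuallyEq ?_
      have h1 := H5_near hC hU (not_le.1 hK)
      have h2 : ∀ᶠ y in 𝓝 p, Ψ₂ (M'.r y.1) = 0 := continuous_fst.continuousAt.eventually h1
      filter_upwards [h2] with y hy
      show B1 B Ψ₂ ℓ (M'.r y.1) y.2 = ℓ (M'.r y.1)
      rw [B1, hy]
      ring
  · intro x hx t
    by_cases hK : Metric.infDist x K ≤ 3 * a0
    · rw [B1, B1, hc.periodic x ⟨hx, H5_memO hC hK⟩ t]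
    · rw [B1, B1, hC.zero2 x (not_le.1 hK).le]
      ring
  · intro j
    refine ⟨ℓ (bas m j), fun x hx t => ?_⟩
    rw [bas_apply]
    by_cases hK : Metric.infDist x K ≤ 3 * a0
    · rw [B1, B1, hC.ell _ x ⟨hx, H5_memO hC hK⟩ t, hC.per2, map_add]
      ring
    · rw [B1, B1, hC.per2, hC.zero2 x (not_le.1 hK).le, map_add]
      ring
  · intro x v t hxv
    have h0 := hb1 x v t hxv
    set b : ℝ := fderiv ℝ (fun y => B1 B Ψ₂ ℓ (M'.r y) t) x v with hbdef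
    rcases le_or_gt b 0 with h | h
    · exact h.trans (Real.sqrt_nonneg _)
    · apply Real.le_sqrt_of_sq_le
      have h1 : b ^ 2 ≤ C1 ^ 2 * ‖v‖ ^ 2 := by
        rw [← mul_pow, ← sq_abs b]
        exact pow_le_pow_left₀ (abs_nonneg _) h0 2
      have h2 : b ^ 2 ≤ Λ₁ * ‖v‖ ^ 2 / κ t := by
        have h3 := hW v t
        have h4 : 0 ≤ ‖v‖ ^ 2 := by positivity
        linarith
      by_cases hK : Metric.infDist x K < 2 * a0
      · have hxO : x ∈ M'.N ∩ O := ⟨hxv.1, H5_memO hC (by linarith)⟩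
        have h5 : b ≤ pull φ F x v t := by
          rw [hbdef, H5_b2 hC hxv.1 hK t]
          exact hc.le x hxO v hxv.2 t
        have h6 : b ^ 2 ≤ pull φ F x v t ^ 2 := pow_le_pow_left₀ h.le h5 2
        have h7 := mul_le_mul_of_nonneg_left h6 (hC.Ψ01 x).1
        have h8 := mul_le_mul_of_nonneg_left h2 (sub_nonneg.2 (hC.Ψ01 x).2)
        linarith
      · rw [hC.zero1 x (not_lt.1 hK)]
        linarith
  · intro x v t t' hxv
    by_cases hK : Metric.infDist x K ≤ 3 * a0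
    · rw [H5_b hC hφ hc hxv.1 hxv.2 hK t, H5_b hC hφ hc hxv.1 hxv.2 hK t']
      have hxO : x ∈ M'.N ∩ O := ⟨hxv.1, H5_memO hC hK⟩
      have h1 := H5_dt hC hφ hc (fun x hx hK t => (hb x hx hK t).1) hxv.1 hK t t'
      have h2 := hA1 x hxO v hxv.2 t t'
      have h3 : |fderiv ℝ Ψ₂ x v| ≤ C * ‖v‖ := by
        rw [← Real.norm_eq_abs]
        exact (ContinuousLinearMap.le_opNorm _ _).trans
          (mul_le_mul_of_nonneg_right (hb x hxv.1 hK t).2.2 (norm_nonneg v))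
      have h4 : |fderiv ℝ Ψ₂ x v * (B x t - B x t')| ≤ C * ‖v‖ * (C * |t - t'|) := by
        rw [abs_mul]
        exact mul_le_mul h3 h1 (abs_nonneg _) (by positivity)
      have h5 : |Ψ₂ x * (fderiv ℝ (fun y => B (M'.r y) t) x v - fderiv ℝ (fun y => B (M'.r y) t') x v)| ≤
          1 * (|A1| * ‖v‖ * |t - t'|) := by
        rw [abs_mul]
        refine mul_le_mul ?_ (h2.trans ?_) (abs_nonneg _) zero_le_one
        · rw [abs_of_nonneg (hC.Ψ201 x).1]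
          exact (hC.Ψ201 x).2
        · exact mul_le_mul_of_nonneg_right (mul_le_mul_of_nonneg_right (le_abs_self A1) (norm_nonneg v))
            (abs_nonneg _)
      have h6 : ℓ v + (fderiv ℝ Ψ₂ x v * (B x t - ℓ x) +
          Ψ₂ x * (fderiv ℝ (fun y => B (M'.r y) t) x v - ℓ v)) -
          (ℓ v + (fderiv ℝ Ψ₂ x v * (B x t' - ℓ x) +
          Ψ₂ x * (fderiv ℝ (fun y => B (M'.r y) t') x v - ℓ v))) =
          fderiv ℝ Ψ₂ x v * (B x t - B x t') +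
          Ψ₂ x * (fderiv ℝ (fun y => B (M'.r y) t) x v - fderiv ℝ (fun y => B (M'.r y) t') x v) := by
        ring
      rw [h6]
      refine (abs_add_le _ _).trans ((add_le_add h4 h5).trans (le_of_eq ?_))
      ring
    · rw [H5_b' hC hxv.1 hxv.2 (not_le.1 hK) t, H5_b' hC hxv.1 hxv.2 (not_le.1 hK) t', sub_self,
        abs_zero]
      positivity
  · have h1 : (fun p : ℝ × ℝ => deriv (fun σ => c σ p.2) p.1) =
        fun p : ℝ × ℝ => fderiv ℝ (fun p : ℝ × ℝ => c p.1 p.2) p (1, 0) := by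
      funext p
      exact (hdσ p.1 p.2).deriv
    show Continuous (fun p : ℝ × ℝ => deriv (fun σ => c σ p.2) p.1)
    rw [h1]
    exact hfc.clm_apply continuous_const
  · have h1 : (fun p : ℝ × ℝ => deriv (fun t => c p.1 t) p.2) =
        fun p : ℝ × ℝ => fderiv ℝ (fun p : ℝ × ℝ => c p.1 p.2) p (0, 1) := by
      funext p
      exact (hdt p.1 p.2).deriv
    show Continuous (fun p : ℝ × ℝ => deriv (fun t => c p.1 t) p.2)
    rw [h1]
    exact hfc.clm_apply continuous_const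
  · intro σ t
    rw [bas_apply]
    exact hc.closed σ t
  · intro σ t
    show F1 φ F κ Ψ Λ₁ (c σ t) (deriv (fun σ => c σ t) σ) t = 1
    rw [F1_eq hC hφ hF Λ₁ (hc.mem σ t).1 (by rw [hK0]; exact ha0.le) (htan σ t) t]
    exact hc.unit σ t
  · intro σ t
    show fderiv ℝ (fun y => B1 B Ψ₂ ℓ (M'.r y) t) (c σ t) (deriv (fun σ => c σ t) σ) = 1
    rw [H5_b2 hC (hc.mem σ t).1 (by rw [hK0]; linarith) t]
    have h2 : DifferentiableAt ℝ (fun y => B (M'.r y) t) (c σ t) :=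
      (H5_dx hφ hc (hc.mem σ t) t 0).1
    have h4 : HasDerivAt (fun s => c s t) (deriv (fun s => c s t) σ) σ :=
      (hdσ σ t).differentiableAt.hasDerivAt
    have h8 : HasFDerivAt (fun y => B (M'.r y) t) (fderiv ℝ (fun y => B (M'.r y) t) (c σ t))
        ((fun s => c s t) σ) := h2.hasFDerivAt
    have h5 : HasDerivAt (fun s => B (M'.r (c s t)) t)
        (fderiv ℝ (fun y => B (M'.r y) t) (c σ t) (deriv (fun s => c s t) σ)) σ :=
      HasFDerivAt.comp_hasDerivAt (l := fun y => B (M'.r y) t) (f := fun s => c s t) σ h8 h4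
    have h6 : (fun s => B (M'.r (c s t)) t) = fun s => B (c 0 t) t + s := by
      funext s
      rw [r_self M' (hc.mem s t).1, hc.cal s t]
    rw [h6] at h5
    have h7 : HasDerivAt (fun s : ℝ => B (c 0 t) t + s) 1 σ := (hasDerivAt_id σ).const_add _
    exact h5.unique h7
  · intro x v t hxv hv he
    have h0 := hb1 x v t hxv
    set b : ℝ := fderiv ℝ (fun y => B1 B Ψ₂ ℓ (M'.r y) t) x v with hbdef
    have hv0 : 0 < ‖v‖ ^ 2 := by
      have := norm_pos_iff.2 hv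
      positivity
    have hbn : 0 ≤ b := by
      rw [he]
      exact Real.sqrt_nonneg _
    have h1 : b ^ 2 ≤ C1 ^ 2 * ‖v‖ ^ 2 := by
      rw [← mul_pow, ← sq_abs b]
      exact pow_le_pow_left₀ (abs_nonneg _) h0 2
    have h2 : b ^ 2 < Λ₁ * ‖v‖ ^ 2 / κ t := by
      have h3 := hW v t
      linarith
    have hΨ := hC.Ψ01 x
    have hsq : b ^ 2 = Ψ x * pull φ F x v t ^ 2 + (1 - Ψ x) * (Λ₁ * ‖v‖ ^ 2 / κ t) := by
      rw [he]
      apply Real.sq_sqrt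
      have h4 : 0 ≤ Λ₁ * ‖v‖ ^ 2 / κ t := (sq_nonneg b).trans h2.le
      exact add_nonneg (mul_nonneg hΨ.1 (sq_nonneg _)) (mul_nonneg (sub_nonneg.2 hΨ.2) h4)
    by_cases hK : Metric.infDist x K < 2 * a0
    · have hxO : x ∈ M'.N ∩ O := ⟨hxv.1, H5_memO hC (by linarith)⟩
      have hb2 : b = fderiv ℝ (fun y => B (M'.r y) t) x v := by
        rw [hbdef, H5_b2 hC hxv.1 hK t]
      have h5 : b ≤ pull φ F x v t := by
        rw [hb2]
        exact hc.le x hxO v hxv.2 t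
      have h6 : b ^ 2 ≤ pull φ F x v t ^ 2 := pow_le_pow_left₀ hbn h5 2
      have h7 := mul_le_mul_of_nonneg_left h6 hΨ.1
      have h9 : Ψ x = 1 := by
        by_contra hne
        have h10 : 0 < 1 - Ψ x := sub_pos.2 (lt_of_le_of_ne hΨ.2 hne)
        have h11 := mul_lt_mul_of_pos_left h2 h10
        linarith
      rw [h9] at hsq
      have h12 : b ^ 2 = pull φ F x v t ^ 2 := by linarith
      have h13 : b = pull φ F x v t :=
        (pow_left_inj₀ hbn (hbn.trans h5) two_ne_zero).1 h12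
      obtain ⟨σ, n, hn⟩ := hc.only x hxO v hxv.2 t hv (by rw [← hb2]; exact h13)
      exact ⟨σ, vz n, mem_span_bas.2 ⟨n, rfl⟩, hn⟩
    · exfalso
      rw [hC.zero1 x (not_lt.1 hK)] at hsq
      linarith
  · intro σ σ' t hst
    obtain ⟨n, hn⟩ := mem_span_bas.1 hst
    have h1 : c σ t = (1 : Vec m ≃ₗᵢ[ℝ] Vec m) (c σ' t) + vz n := by
      rw [← hn]
      show c σ t = c σ' t + (c σ t - c σ' t)
      abel
    obtain ⟨l, hl⟩ := (hφ.fibre (c σ' t) (hc.mem σ' t) (c σ t) (hc.mem σ t)).2 ⟨1, G.one_mem, n, h1⟩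
    exact hc.simple σ σ' t l hl

theorem calP_mono {ι : Type} [Fintype ι] {E : Type*} [NormedAddCommGroup E] [InnerProductSpace ℝ E]
    {β : Module.Basis ι ℝ E} {N : Set E} {r : E → E} {R : ℝ} {F : E → E → ℝ → ℝ} {A A' : ℝ}
    {B : E → ℝ → ℝ} {k0 : ι} {len : ℝ} {c c' ct : ℝ → ℝ → E}
    (h : CalP β N r R F A B k0 len c c' ct) (hA : A ≤ A') : CalP β N r R F A' B k0 len c c' ct :=
  { h with
    dlip := fun x v t t' hxv => (h.dlip x v t t' hxv).trans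
      (mul_le_mul_of_nonneg_right (mul_le_mul_of_nonneg_right hA (norm_nonneg v)) (abs_nonneg _)) }

end EscW
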