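import Pool.Agent.EscW.H3
import Pool.Agent.EscMT.P11
import Pool.Agent.EscM.N0

set_option autoImplicit false

/-!
Project EscW, module H6: the Lagrangian on `M'`.
`IsNearT.lagS` (`EscMT/P11.lean`) for `M` with `EscM.exists_tube` (`M.N` is not empty: `φ x`, `x ∈ K`) gives `LagS` and `AP` on `M`. `smooth`: `L (φ (r x), Dφ (Dr v), t)` is `hL.smooth` composed with the smooth map
`(x, v, t) ↦ (φ (r x), fderiv φ (r x) (fderiv r x v), t)` near points with `r x ∈ O`. `conv`: chain rule, `fderiv M.r (φ x) (fderiv φ x (fderiv M'.r x w)) = fderiv φ x (fderiv M'.r x w)`, `‖fderiv φ x w‖ ≥ c1 ‖w‖` (`CutW.bounds`); convex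
combination with the quadratic form. `lagS1` for every `Λ₁ > 0`.
-/

noncomputable section

namespace EscW

open MeasureTheory Set Filter Topology Esc EscF EscG EscM EscMT EscF.T
open scoped ContDiff

variable {d m : ℕ} {M : Sub d} {M' : Sub m} {O K : Set (Vec m)} {G : Subgroup (Vec m ≃ₗᵢ[ℝ] Vec m)}
  {φ : Vec m → Vec d} {κ : ℝ → ℝ} {F : Vec d → Vec d → ℝ → ℝ} {L : Lag d} {B : Vec m → ℝ → ℝ} {i : Fin m}
  {len a : ℝ} {c : ℝ → ℝ → Vec m} {ρ a0 : ℝ} {Ψ Ψ₂ χ : Vec m → ℝ} {R : Vec m → Vec m} {ℓ : Vec m →L[ℝ] ℝ}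

/-- the cut-off is zero, or the point is near `K` -/
theorem H6_O (hC : CutW M' O K B ρ a0 Ψ Ψ₂ ℓ) {x : Vec m} (h : Ψ x ≠ 0) :
    Metric.infDist x K < 2 * a0 ∧ x ∈ O := by
  have h1 : Metric.infDist x K < 2 * a0 := by
    by_contra h2
    exact h (hC.zero1 x (not_lt.1 h2))
  exact ⟨h1, hC.room x (by have := hC.a0_pos; linarith)⟩

/-- smoothness -/
theorem H6_smooth (hC : CutW M' O K B ρ a0 Ψ Ψ₂ ℓ) (hφ : IsChart M M' O G φ) (hL : IsNearT M κ F L)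
    (Λ₁ : ℝ) : ContDiffOn ℝ 2 (fun p : Vec m × Vec m × ℝ =>
      L1 φ L Ψ Λ₁ (M'.r p.1) (fderiv ℝ M'.r p.1 p.2.1) p.2.2)
      {p | Metric.infDist p.1 M'.N < 5 * ρ} := by
  rintro ⟨x, v, t⟩ hp
  have hp' : Metric.infDist x M'.N < 5 * ρ := hp
  have hx : x ∈ M'.U := hC.tube x hp'
  apply ContDiffAt.contDiffWithinAt
  have hr : ContDiffAt ℝ ∞ M'.r x := N0_r_at M' hx
  have hf1 : ContDiffAt ℝ 2 (fun p : Vec m × Vec m × ℝ => p.1) (x, v, t) := contDiffAt_fst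
  have hf2 : ContDiffAt ℝ 2 (fun p : Vec m × Vec m × ℝ => p.2.1) (x, v, t) :=
    (contDiff_fst.comp contDiff_snd).contDiffAt
  have hf3 : ContDiffAt ℝ 2 (fun p : Vec m × Vec m × ℝ => p.2.2) (x, v, t) :=
    (contDiff_snd.comp contDiff_snd).contDiffAt
  have hr1 : ContDiffAt ℝ 2 (fun p : Vec m × Vec m × ℝ => M'.r p.1) (x, v, t) :=
    ContDiffAt.comp (x, v, t) (g := M'.r) (hr.of_le (WithTop.coe_le_coe.2 le_top)) hf1
  have hdr : ContDiffAt ℝ 2 (fun p : Vec m × Vec m × ℝ => fderiv ℝ M'.r p.1 p.2.1) (x, v, t) := by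
    have h1 : ContDiffAt ℝ 2 (fderiv ℝ M'.r) x :=
      hr.fderiv_right (m := 2) (WithTop.coe_le_coe.2 le_top)
    have h2 : ContDiffAt ℝ 2 (fun p : Vec m × Vec m × ℝ => fderiv ℝ M'.r p.1) (x, v, t) :=
      ContDiffAt.comp (x, v, t) (g := fderiv ℝ M'.r) h1 hf1
    exact h2.clm_apply hf2
  have hΨ : ContDiffAt ℝ 2 (fun p : Vec m × Vec m × ℝ => Ψ (M'.r p.1)) (x, v, t) :=
    ContDiffAt.comp (x, v, t) (g := Ψ) (hC.s1.contDiffAt.of_le (WithTop.coe_le_coe.2 le_top)) hr1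
  have hq : ContDiffAt ℝ 2 (fun p : Vec m × Vec m × ℝ =>
      (1 - Ψ (M'.r p.1)) * (Λ₁ * ‖fderiv ℝ M'.r p.1 p.2.1‖ ^ 2 / 2)) (x, v, t) :=
    (contDiffAt_const.sub hΨ).mul ((contDiffAt_const.mul (hdr.norm_sq ℝ)).div_const _)
  have hmain : ContDiffAt ℝ 2 (fun p : Vec m × Vec m × ℝ => Ψ (M'.r p.1) *
      L (φ (M'.r p.1), fderiv ℝ φ (M'.r p.1) (fderiv ℝ M'.r p.1 p.2.1), p.2.2)) (x, v, t) := by
    have hcr : ContinuousAt (fun p : Vec m × Vec m × ℝ => Metric.infDist (M'.r p.1) K) (x, v, t) :=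
      ContinuousAt.comp (f := fun p : Vec m × Vec m × ℝ => M'.r p.1)
        (Metric.continuous_infDist_pt K).continuousAt hr1.continuousAt
    have hopU : IsOpen {p : Vec m × Vec m × ℝ | p.1 ∈ M'.U} := M'.isOpen.preimage continuous_fst
    have ha := hC.a0_pos
    rcases lt_or_ge (Metric.infDist (M'.r x) K) (4 * a0) with h4 | h4
    · have hO : M'.r x ∈ O := hC.room _ h4
      have hφx : ContDiffAt ℝ ∞ φ (M'.r x) := hφ.smooth.contDiffAt (hφ.isOpen.mem_nhds hO)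
      have h1 : ContDiffAt ℝ 2 (fun p : Vec m × Vec m × ℝ => φ (M'.r p.1)) (x, v, t) :=
        ContDiffAt.comp (x, v, t) (g := φ) (hφx.of_le (WithTop.coe_le_coe.2 le_top)) hr1
      have h2 : ContDiffAt ℝ 2 (fun p : Vec m × Vec m × ℝ => fderiv ℝ φ (M'.r p.1)) (x, v, t) := by
        have h3 : ContDiffAt ℝ 2 (fderiv ℝ φ) (M'.r x) :=
          hφx.fderiv_right (m := 2) (WithTop.coe_le_coe.2 le_top)
        exact ContDiffAt.comp (x, v, t) (g := fderiv ℝ φ) h3 hr1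
      have h3 : ContDiffAt ℝ 2 (fun p : Vec m × Vec m × ℝ =>
          fderiv ℝ φ (M'.r p.1) (fderiv ℝ M'.r p.1 p.2.1)) (x, v, t) := h2.clm_apply hdr
      have h5 : ContDiffAt ℝ 2 (fun p : Vec m × Vec m × ℝ =>
          ((φ (M'.r p.1), fderiv ℝ φ (M'.r p.1) (fderiv ℝ M'.r p.1 p.2.1), p.2.2) :
            Vec d × Vec d × ℝ)) (x, v, t) := h1.prodMk (h3.prodMk hf3)
      have hopM : IsOpen {q : Vec d × Vec d × ℝ | q.1 ∈ M.U} := M.isOpen.preimage continuous_fst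
      have hφU : φ (M'.r x) ∈ M.U := M.sub (hφ.maps _ ⟨M'.mem x hx, hO⟩)
      have h6 : ContDiffAt ℝ 2 (fun q : Vec d × Vec d × ℝ =>
          L (M.r q.1, fderiv ℝ M.r q.1 q.2.1, q.2.2))
          (φ (M'.r x), fderiv ℝ φ (M'.r x) (fderiv ℝ M'.r x v), t) :=
        hL.smooth.contDiffAt (hopM.mem_nhds hφU)
      have h7 := ContDiffAt.comp (x, v, t) (g := fun q : Vec d × Vec d × ℝ =>
          L (M.r q.1, fderiv ℝ M.r q.1 q.2.1, q.2.2))
          (f := fun p : Vec m × Vec m × ℝ =>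
          ((φ (M'.r p.1), fderiv ℝ φ (M'.r p.1) (fderiv ℝ M'.r p.1 p.2.1), p.2.2) :
            Vec d × Vec d × ℝ)) h6 h5
      refine hΨ.mul (h7.congr_of_eventuallyEq ?_)
      have e1 : ∀ᶠ p in 𝓝 ((x, v, t) : Vec m × Vec m × ℝ), Metric.infDist p.1 M'.N < 5 * ρ := by
        have : IsOpen {p : Vec m × Vec m × ℝ | Metric.infDist p.1 M'.N < 5 * ρ} :=
          isOpen_lt ((Metric.continuous_infDist_pt M'.N).comp continuous_fst) continuous_const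
        exact this.mem_nhds hp'
      have e2 : ∀ᶠ p in 𝓝 ((x, v, t) : Vec m × Vec m × ℝ), Metric.infDist (M'.r p.1) K < 4 * a0 :=
        hcr.eventually (gt_mem_nhds h4)
      filter_upwards [e1, e2] with p hp1 hp2
      have hO' : M'.r p.1 ∈ O := hC.room _ hp2
      have hN' : M'.r p.1 ∈ M'.N := M'.mem _ (hC.tube _ hp1)
      have ht : IsTangent M' (M'.r p.1) (fderiv ℝ M'.r p.1 p.2.1) := (hC.tb.tan hp1 p.2.1).2
      have ht' : fderiv ℝ M.r (φ (M'.r p.1)) (fderiv ℝ φ (M'.r p.1) (fderiv ℝ M'.r p.1 p.2.1)) =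
          fderiv ℝ φ (M'.r p.1) (fderiv ℝ M'.r p.1 p.2.1) := hφ.tangent ⟨hN', hO'⟩ ht
      show L (φ (M'.r p.1), fderiv ℝ φ (M'.r p.1) (fderiv ℝ M'.r p.1 p.2.1), p.2.2) =
        L (M.r (φ (M'.r p.1)), fderiv ℝ M.r (φ (M'.r p.1))
          (fderiv ℝ φ (M'.r p.1) (fderiv ℝ M'.r p.1 p.2.1)), p.2.2)
      rw [ht', r_self M (hφ.maps _ ⟨hN', hO'⟩)]
    · refine (contDiffAt_const (c := (0 : ℝ))).congr_of_eventuallyEq ?_
      have h5 : 2 * a0 < Metric.infDist (M'.r x) K := by linarith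
      filter_upwards [hcr.eventually (lt_mem_nhds h5)] with p hp1
      rw [hC.zero1 _ hp1.le, zero_mul]
  exact hmain.add hq

/-- the square of the norm of a linear map -/
theorem H6_quad {E : Type*} [NormedAddCommGroup E] [InnerProductSpace ℝ E] (P : E →L[ℝ] E) {u v : E}
    (hu : P u = u) (hv : P v = v) (b : ℝ) :
    ∃ D : E →L[ℝ] ℝ, HasFDerivAt (fun w => b * ‖P w‖ ^ 2 / 2) D v ∧
      b * ‖v‖ ^ 2 / 2 + D (u - v) + b / 2 * ‖u - v‖ ^ 2 = b * ‖u‖ ^ 2 / 2 := by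
  have h1 : HasFDerivAt (fun w => ‖P w‖ ^ 2) (2 • (innerSL ℝ (P v)).comp P) v :=
    P.hasFDerivAt.norm_sq
  refine ⟨_, ((h1.const_mul b).mul_const (1 / 2)).congr_of_eventuallyEq
    (Eventually.of_forall fun w => by ring), ?_⟩
  have h2 : ‖u‖ ^ 2 = ‖v‖ ^ 2 + 2 * inner ℝ v (u - v) + ‖u - v‖ ^ 2 := by
    have h3 := norm_add_sq_real v (u - v)
    rw [add_sub_cancel] at h3
    exact h3
  have h4 : P (u - v) = u - v := by rw [map_sub, hu, hv]
  simp only [smul_apply, ContinuousLinearMap.comp_apply, innerSL_apply_apply,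
    hv, h4, smul_eq_mul, nsmul_eq_mul, Nat.cast_ofNat]
  rw [h2]
  ring

theorem lagS1 (hC : CutW M' O K B ρ a0 Ψ Ψ₂ ℓ) (hφ : IsChart M M' O G φ) (hL : IsNearT M κ F L)
    {Λ₁ : ℝ} (hΛ : 0 < Λ₁) :
    ∃ m₁ : ℝ, LagS (bas m) M'.N M'.r (5 * ρ) m₁ (L1 φ L Ψ Λ₁) := by
  obtain ⟨x0, hx0⟩ := hC.ne
  have ha := hC.a0_pos
  have hx0O : x0 ∈ O := hC.room x0 (by rw [Metric.infDist_zero_of_mem hx0]; linarith)
  obtain ⟨ρ', χ', R', hT⟩ := EscM.exists_tube M ⟨φ x0, hφ.maps x0 ⟨hC.subK hx0, hx0O⟩⟩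
  obtain ⟨m', M0, hM0, hS, hAP⟩ := EscMT.IsNearT.lagS hT hL
  obtain ⟨c1, c2, hc1, hc12, hb⟩ := hC.bounds hφ
  have hm' := hS.m_pos
  refine ⟨min (m' * c1 ^ 2) Λ₁, ?_⟩
  refine
    { m_pos := lt_min (by positivity) hΛ
      smooth := H6_smooth hC hφ hL Λ₁
      per := ?_
      pert := ?_
      conv := ?_ }
  · intro i x v t hxv
    rw [bas_apply]
    show Ψ (x + vz (Pi.single i 1)) * L (φ (x + vz (Pi.single i 1)),
      fderiv ℝ φ (x + vz (Pi.single i 1)) v, t) +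
      (1 - Ψ (x + vz (Pi.single i 1))) * (Λ₁ * ‖v‖ ^ 2 / 2) =
      Ψ x * L (φ x, fderiv ℝ φ x v, t) + (1 - Ψ x) * (Λ₁ * ‖v‖ ^ 2 / 2)
    rw [hC.per1]
    by_cases h : Ψ x = 0
    · rw [h, zero_mul, zero_mul]
    · rw [hφ.pull_lag hL ⟨hxv.1, (H6_O hC h).2⟩ hxv.2]
  · intro x v t hxv
    show Ψ x * L (φ x, fderiv ℝ φ x v, t + 1) + (1 - Ψ x) * (Λ₁ * ‖v‖ ^ 2 / 2) =
      Ψ x * L (φ x, fderiv ℝ φ x v, t) + (1 - Ψ x) * (Λ₁ * ‖v‖ ^ 2 / 2)
    by_cases h : Ψ x = 0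
    · rw [h, zero_mul, zero_mul]
    · have hxO : x ∈ M'.N ∩ O := ⟨hxv.1, (H6_O hC h).2⟩
      have h1 : L (φ x, fderiv ℝ φ x v, t + 1) = L (φ x, fderiv ℝ φ x v, t) :=
        hS.pert (φ x) (fderiv ℝ φ x v) t ⟨hφ.maps x hxO, hφ.tangent hxO hxv.2⟩
      rw [h1]
  · intro x u v t hxu hxv
    have eu : fderiv ℝ M'.r x u = u := hxu.2
    have ev : fderiv ℝ M'.r x v = v := hxv.2
    obtain ⟨D2, hD2, hD2'⟩ := H6_quad (fderiv ℝ M'.r x) eu ev Λ₁
    obtain ⟨hΨ0, hΨ1⟩ := hC.Ψ01 x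
    have key : ∃ D1 : Vec m →L[ℝ] ℝ, HasFDerivAt (fun w => Ψ x *
        L (φ x, fderiv ℝ φ x (fderiv ℝ M'.r x w), t)) D1 v ∧
        Ψ x * L (φ x, fderiv ℝ φ x v, t) + D1 (u - v) + Ψ x * (m' * c1 ^ 2 / 2 * ‖u - v‖ ^ 2) ≤
          Ψ x * L (φ x, fderiv ℝ φ x u, t) := by
      by_cases h : Ψ x = 0
      · refine ⟨0, ?_, ?_⟩
        · simp only [h, zero_mul]
          exact hasFDerivAt_const (0 : ℝ) v
        · simp [h]
      · obtain ⟨h2a, hxO'⟩ := H6_O hC h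
        have hxO : x ∈ M'.N ∩ O := ⟨hxv.1, hxO'⟩
        set A : Vec m →L[ℝ] Vec d := fderiv ℝ φ x with hA
        have htan : ∀ w, fderiv ℝ M.r (φ x) (A (fderiv ℝ M'.r x w)) = A (fderiv ℝ M'.r x w) := by
          intro w
          have h1 : Metric.infDist x M'.N < 5 * ρ := by
            rw [Metric.infDist_zero_of_mem hxv.1]
            exact hC.tb.R_pos
          have h2 := (hC.tb.tan h1 w).2
          have h3 : M'.r x = x := r_self M' hxv.1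
          have h4 : IsTangent M' x (fderiv ℝ M'.r x w) := by
            have h5 : fderiv ℝ M'.r (M'.r x) (fderiv ℝ M'.r x w) = fderiv ℝ M'.r x w := h2
            rw [h3] at h5
            exact h5
          exact hφ.tangent hxO h4
        have hg : DifferentiableAt ℝ (fun w' => L (φ x, fderiv ℝ M.r (φ x) w', t)) (A v) :=
          ((P11_smooth hL (hφ.maps x hxO) t).differentiable (by simp)) _
        have hcomp : HasFDerivAt (fun w => L (φ x, fderiv ℝ M.r (φ x) (A (fderiv ℝ M'.r x w)), t))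
            ((fderiv ℝ (fun w' => L (φ x, fderiv ℝ M.r (φ x) w', t)) (A v)).comp
              (A.comp (fderiv ℝ M'.r x))) v := by
          have h1 : HasFDerivAt (fun w => A (fderiv ℝ M'.r x w)) (A.comp (fderiv ℝ M'.r x)) v :=
            (A.comp (fderiv ℝ M'.r x)).hasFDerivAt
          have h2 : HasFDerivAt (fun w' => L (φ x, fderiv ℝ M.r (φ x) w', t))
              (fderiv ℝ (fun w' => L (φ x, fderiv ℝ M.r (φ x) w', t)) (A v))
              ((fun w => A (fderiv ℝ M'.r x w)) v) := by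
            show HasFDerivAt _ _ (A (fderiv ℝ M'.r x v))
            rw [ev]
            exact hg.hasFDerivAt
          exact HasFDerivAt.comp (g := fun w' => L (φ x, fderiv ℝ M.r (φ x) w', t)) v h2 h1
        have hcomp' : HasFDerivAt (fun w => L (φ x, A (fderiv ℝ M'.r x w), t))
            ((fderiv ℝ (fun w' => L (φ x, fderiv ℝ M.r (φ x) w', t)) (A v)).comp
              (A.comp (fderiv ℝ M'.r x))) v := by
          refine hcomp.congr_of_eventuallyEq (Eventually.of_forall fun w => ?_)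
          show L (φ x, A (fderiv ℝ M'.r x w), t) =
            L (φ x, fderiv ℝ M.r (φ x) (A (fderiv ℝ M'.r x w)), t)
          rw [htan w]
        refine ⟨_, hcomp'.const_mul (Ψ x), ?_⟩
        have htu : IsTangent M (φ x) (A u) := hφ.tangent hxO hxu.2
        have htv : IsTangent M (φ x) (A v) := hφ.tangent hxO hxv.2
        have h5 : L (φ x, A v, t) + fderiv ℝ (fun w' => L (φ x, fderiv ℝ M.r (φ x) w', t)) (A v)
            (A u - A v) + m' / 2 * ‖A u - A v‖ ^ 2 ≤ L (φ x, A u, t) :=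
          hS.conv (φ x) (A u) (A v) t ⟨hφ.maps x hxO, htu⟩ ⟨hφ.maps x hxO, htv⟩
        have h6 : IsTangent M' x (u - v) := by
          show fderiv ℝ M'.r x (u - v) = u - v
          rw [map_sub, eu, ev]
        have h7 : c1 * ‖u - v‖ ≤ ‖A (u - v)‖ := (hb x hxv.1 (by linarith) (u - v) h6).1
        have h8 : A u - A v = A (u - v) := (map_sub A u v).symm
        have h9 : fderiv ℝ M'.r x (u - v) = u - v := h6
        have h10 : c1 ^ 2 * ‖u - v‖ ^ 2 ≤ ‖A (u - v)‖ ^ 2 := by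
          rw [← mul_pow]
          exact pow_le_pow_left₀ (by positivity) h7 2
        rw [h8] at h5
        have h11 : L (φ x, A v, t) + fderiv ℝ (fun w' => L (φ x, fderiv ℝ M.r (φ x) w', t)) (A v)
            (A (u - v)) + m' * c1 ^ 2 / 2 * ‖u - v‖ ^ 2 ≤ L (φ x, A u, t) := by
          refine le_trans ?_ h5
          have h12 : m' / 2 * (c1 ^ 2 * ‖u - v‖ ^ 2) ≤ m' / 2 * ‖A (u - v)‖ ^ 2 :=
            mul_le_mul_of_nonneg_left h10 (by positivity)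
          linarith
        have h13 := mul_le_mul_of_nonneg_left h11 hΨ0
        simp only [smul_apply, ContinuousLinearMap.comp_apply, smul_eq_mul, h9]
        linarith
    obtain ⟨D1, hD1, hD1'⟩ := key
    have hsum : HasFDerivAt (fun w => L1 φ L Ψ Λ₁ x (fderiv ℝ M'.r x w) t)
        (D1 + (1 - Ψ x) • D2) v := hD1.add (hD2.const_mul (1 - Ψ x))
    rw [hsum.fderiv]
    show Ψ x * L (φ x, fderiv ℝ φ x v, t) + (1 - Ψ x) * (Λ₁ * ‖v‖ ^ 2 / 2) +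
      (D1 + (1 - Ψ x) • D2) (u - v) + min (m' * c1 ^ 2) Λ₁ / 2 * ‖u - v‖ ^ 2 ≤
      Ψ x * L (φ x, fderiv ℝ φ x u, t) + (1 - Ψ x) * (Λ₁ * ‖u‖ ^ 2 / 2)
    have h1 : Ψ x * (min (m' * c1 ^ 2) Λ₁ / 2 * ‖u - v‖ ^ 2) ≤
        Ψ x * (m' * c1 ^ 2 / 2 * ‖u - v‖ ^ 2) := by
      have := min_le_left (m' * c1 ^ 2) Λ₁
      refine mul_le_mul_of_nonneg_left (mul_le_mul_of_nonneg_right (by linarith) (sq_nonneg _)) hΨ0
    have h2 : (1 - Ψ x) * (min (m' * c1 ^ 2) Λ₁ / 2 * ‖u - v‖ ^ 2) ≤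
        (1 - Ψ x) * (Λ₁ / 2 * ‖u - v‖ ^ 2) := by
      have := min_le_right (m' * c1 ^ 2) Λ₁
      refine mul_le_mul_of_nonneg_left (mul_le_mul_of_nonneg_right (by linarith) (sq_nonneg _))
        (by linarith)
    have h3 : (D1 + (1 - Ψ x) • D2) (u - v) = D1 (u - v) + (1 - Ψ x) * D2 (u - v) := rfl
    rw [h3]
    have h4 : (1 - Ψ x) * (Λ₁ * ‖v‖ ^ 2 / 2 + D2 (u - v) + Λ₁ / 2 * ‖u - v‖ ^ 2) =
        (1 - Ψ x) * (Λ₁ * ‖u‖ ^ 2 / 2) := by rw [hD2']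
    nlinarith [h1, h2, h4, hD1']

/-- near `K` this is the pulled back Lagrangian -/
theorem L1_eq (hC : CutW M' O K B ρ a0 Ψ Ψ₂ ℓ) (φ : Vec m → Vec d) (L : Lag d) (Λ₁ : ℝ) {x : Vec m}
    (hK : Metric.infDist x K ≤ a0) (v : Vec m) (t : ℝ) :
    L1 φ L Ψ Λ₁ x v t = L (φ x, fderiv ℝ φ x v, t) := by
  unfold L1
  rw [hC.one1 x hK]
  ring

end EscW
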