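import Pool.Agent.EscW.H3
import Pool.Agent.EscMT.P11
import Pool.Agent.EscM.N0

set_option autoImplicit false
set_option linter.unusedSectionVars false

/-!
Project EscW, module H7: the Lagrangian on `M'` is near the energy.
`L1 - κ F1²/2 = Ψ x * g x v t`, `g x v t = (L - κ F²/2) (φ x, Dφ v, t)`.
-/

noncomputable section

namespace EscW

open MeasureTheory Set Filter Topology Esc EscF EscG EscM EscMT EscF.T
open scoped ContDiff

variable {d m : ℕ} {M : Sub d} {M' : Sub m} {O K : Set (Vec m)} {G : Subgroup (Vec m ≃ₗᵢ[ℝ] Vec m)}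
  {φ : Vec m → Vec d} {κ : ℝ → ℝ} {F : Vec d → Vec d → ℝ → ℝ} {L : Lag d} {B : Vec m → ℝ → ℝ} {i : Fin m}
  {len a : ℝ} {c : ℝ → ℝ → Vec m} {ρ a0 : ℝ} {Ψ Ψ₂ χ : Vec m → ℝ} {R : Vec m → Vec m} {ℓ : Vec m →L[ℝ] ℝ}

/-- smooth periodic functions are Lipschitz -/
theorem H7_lip {Ψ : Vec m → ℝ} (h : ContDiff ℝ ∞ Ψ) (hp : ∀ (n : Fin m → ℤ) x, Ψ (x + vz n) = Ψ x) :
    ∃ C : ℝ, 0 ≤ C ∧ ∀ x x', |Ψ x - Ψ x'| ≤ C * ‖x - x'‖ := by
  obtain ⟨r, hr⟩ := N0_fund m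
  have hc : Continuous (fderiv ℝ Ψ) := h.continuous_fderiv (by simp)
  obtain ⟨C, hC⟩ := (isCompact_closedBall (0 : Vec m) r).exists_bound_of_continuousOn
    (f := fderiv ℝ Ψ) hc.continuousOn
  have hper : ∀ (n : Fin m → ℤ) x, fderiv ℝ Ψ (x + vz n) = fderiv ℝ Ψ x := by
    intro n x
    rw [← fderiv_comp_add_right]
    congr 1
    funext y
    exact hp n y
  have hbd : ∀ x, ‖fderiv ℝ Ψ x‖ ≤ max C 0 := by
    intro x
    obtain ⟨n, hn⟩ := hr x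
    rw [← hper n x]
    exact (hC _ (by rw [mem_closedBall_zero_iff]; exact hn)).trans (le_max_left _ _)
  refine ⟨max C 0, le_max_right _ _, fun x x' => ?_⟩
  have := (convex_univ (𝕜 := ℝ) (E := Vec m)).norm_image_sub_le_of_norm_fderiv_le (f := Ψ)
    (fun y _ => (h.differentiable (by simp)) y) (fun y _ => hbd y) (mem_univ x') (mem_univ x)
  rwa [Real.norm_eq_abs] at this

/-- `L - κ F²/2` on `M` -/
def H7_G (κ : ℝ → ℝ) (F : Vec d → Vec d → ℝ → ℝ) (L : Lag d) (y w : Vec d) (t : ℝ) : ℝ :=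
  L (y, w, t) - κ t * F y w t ^ 2 / 2

theorem H7_near (hL : IsNearT M κ F L) : ∃ C : ℝ, 0 ≤ C ∧ ∀ y ∈ M.N, ∀ w t, IsTangent M y w →
    ∀ y' ∈ M.N, ∀ w' t', IsTangent M y' w' → |H7_G κ F L y w t - H7_G κ F L y' w' t'| ≤
      C * (‖w - w'‖ + (1 + ‖w‖) * (‖y - y'‖ + |t - t'|)) := by
  obtain ⟨C, hC⟩ := hL.near
  refine ⟨max C 0, le_max_right _ _, fun y hy w t hw y' hy' w' t' hw' => ?_⟩
  refine (hC y hy w t hw y' hy' w' t' hw').trans ?_
  exact mul_le_mul_of_nonneg_right (le_max_left _ _) (by positivity)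

theorem H7_per (hκ : IsWeight κ) (hF : IsFinslerT M F) (hL : IsNearT M κ F L) {y w : Vec d}
    (hy : y ∈ M.N) (hw : IsTangent M y w) (n : Fin d → ℤ) (t : ℝ) : H7_G κ F L (y + vz n) w (Int.fract t) = H7_G κ F L y w t := by
  unfold H7_G
  have h1 : F (y + vz n) w (Int.fract t) = F y w t := by
    have h2 := (hF.fins (Int.fract t)).periodic n y hy w hw
    rw [h2]
    exact P11_fract (fun t => hF.periodic y hy w hw t) t
  have h3 : L (y + vz n, w, Int.fract t) = L (y, w, t) := by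
    have h4 := hL.periodic n ⌊t⌋ y hy w (Int.fract t) hw
    have h5 := hL.periodic 0 ⌊t⌋ y hy w (Int.fract t) hw
    have h6 := hL.periodic n 0 y hy w (Int.fract t) hw
    rw [vz_zero', add_zero, Int.fract_add_floor] at h5
    rw [Int.cast_zero, add_zero] at h6
    rw [h6, ← h5]
  rw [h1, h3, P11_fract hκ.periodic t]

theorem H7_tan0 (M : Sub d) (y : Vec d) : IsTangent M y 0 := by
  unfold IsTangent
  rw [map_zero]

/-- bound on `M` -/
theorem H7_bd (hκ : IsWeight κ) (hF : IsFinslerT M F) (hL : IsNearT M κ F L) (hne : M.N.Nonempty)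
    (htan : ∀ y ∈ M.N, ∀ w, IsTangent M y w → ∀ n : Fin d → ℤ, IsTangent M (y + vz n) w) :
    ∃ C : ℝ, 0 ≤ C ∧ ∀ y ∈ M.N, ∀ w, IsTangent M y w → ∀ t, |H7_G κ F L y w t| ≤ C * (1 + ‖w‖) := by
  obtain ⟨C, hC0, hC⟩ := H7_near hL
  obtain ⟨y0, hy0⟩ := hne
  obtain ⟨r, hr⟩ := N0_fund d
  refine ⟨|H7_G κ F L y0 0 0| + C * (|r| + ‖y0‖ + 2), by positivity, fun y hy w hw t => ?_⟩
  obtain ⟨n, hn⟩ := hr y
  rw [← H7_per hκ hF hL hy hw n t]
  have h1 := hC (y + vz n) (M.perN n y hy) w (Int.fract t) (htan y hy w hw n) y0 hy0 0 0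
    (H7_tan0 M y0)
  have h2 : ‖y + vz n - y0‖ ≤ |r| + ‖y0‖ :=
    (norm_sub_le _ _).trans (add_le_add (hn.trans (le_abs_self r)) le_rfl)
  have h3 : |Int.fract t - 0| ≤ 1 := by
    rw [sub_zero, abs_of_nonneg (Int.fract_nonneg t)]
    exact (Int.fract_lt_one t).le
  rw [sub_zero w] at h1
  have h4 : |H7_G κ F L (y + vz n) w (Int.fract t)| ≤
      |H7_G κ F L (y + vz n) w (Int.fract t) - H7_G κ F L y0 0 0| + |H7_G κ F L y0 0 0| := by
    have := abs_add_le (H7_G κ F L (y + vz n) w (Int.fract t) - H7_G κ F L y0 0 0)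
      (H7_G κ F L y0 0 0)
    rwa [sub_add_cancel] at this
  have h5 : C * (‖w‖ + (1 + ‖w‖) * (‖y + vz n - y0‖ + |Int.fract t - 0|)) ≤
      C * (‖w‖ + (1 + ‖w‖) * ((|r| + ‖y0‖) + 1)) := by gcongr
  have hw0 := norm_nonneg w
  have h6 : 0 ≤ |H7_G κ F L y0 0 0| * ‖w‖ := by positivity
  have h7 : 0 ≤ C := hC0
  nlinarith

theorem H7_sub (hC : CutW M' O K B ρ a0 Ψ Ψ₂ ℓ) {x : Vec m} (hx : Metric.infDist x K ≤ 3 * a0) :
    x ∈ O := hC.room x (by have := hC.a0_pos; linarith)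

/-- the Lagrangian minus the energy -/
theorem H7_eq (hC : CutW M' O K B ρ a0 Ψ Ψ₂ ℓ) (φ : Vec m → Vec d) (hκ : IsWeight κ)
    (F : Vec d → Vec d → ℝ → ℝ) (L : Lag d) {Λ₁ : ℝ} (hΛ : 0 < Λ₁) (x v : Vec m) (t : ℝ) :
    L1 φ L Ψ Λ₁ x v t - κ t * F1 φ F κ Ψ Λ₁ x v t ^ 2 / 2 =
      Ψ x * H7_G κ F L (φ x) (fderiv ℝ φ x v) t := by
  obtain ⟨h0, h1⟩ := hC.Ψ01 x
  have hk := hκ.pos t
  have h2 : 0 ≤ 1 - Ψ x := by linarith
  have h3 : 0 ≤ Ψ x * pull φ F x v t ^ 2 + (1 - Ψ x) * (Λ₁ * ‖v‖ ^ 2 / κ t) := by positivity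
  unfold L1 F1 H7_G
  rw [Real.sq_sqrt h3]
  unfold pull
  field_simp
  ring

/-- Lipschitz bound for points which are close to each other: arithmetic -/
theorem H7_arith {C Cl c2 V D T W n1 n2 n3 : ℝ} (hC : 0 ≤ C) (hCl : 0 < Cl) (hc2 : 0 ≤ c2) (hV : 0 ≤ V)
    (hD : 0 ≤ D) (hT : 0 ≤ T) (hW : 0 ≤ W) (h1 : n1 ≤ Cl * (W + V * D)) (h2 : n2 ≤ c2 * V)
    (h3 : n3 ≤ Cl * D) (h30 : 0 ≤ n3) :
    C * (n1 + (1 + n2) * (n3 + T)) ≤ C * ((Cl + 1) * (1 + c2) * 2) * (W + (1 + V) * (D + T)) := by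
  rw [mul_assoc C]
  refine mul_le_mul_of_nonneg_left ?_ hC
  have h4 : (1 + n2) * (n3 + T) ≤ (1 + c2 * V) * (Cl * D + T) := by
    gcongr
  have e1 : 1 + c2 * V ≤ (1 + c2) * (1 + V) := by nlinarith
  have e2 : Cl * D + T ≤ (Cl + 1) * (D + T) := by nlinarith [mul_nonneg hCl.le hT]
  have h5 : (1 + c2 * V) * (Cl * D + T) ≤ (1 + c2) * (1 + V) * ((Cl + 1) * (D + T)) :=
    mul_le_mul e1 e2 (by positivity) (by positivity)
  have h6 : V * D ≤ (1 + V) * (D + T) := by nlinarith [mul_nonneg hV hT]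
  have h7 : 0 ≤ (1 + V) * (D + T) := by positivity
  have e3 : W + V * D ≤ W + (1 + V) * (D + T) := by linarith
  have e4 : Cl ≤ (Cl + 1) * (1 + c2) := by nlinarith [mul_nonneg hCl.le hc2]
  have h8 : Cl * (W + V * D) ≤ (Cl + 1) * (1 + c2) * (W + (1 + V) * (D + T)) :=
    mul_le_mul e4 e3 (by positivity) (by positivity)
  have h9 : (1 + c2) * (1 + V) * ((Cl + 1) * (D + T)) ≤
      (Cl + 1) * (1 + c2) * (W + (1 + V) * (D + T)) := by
    have e5 : (1 + c2) * (1 + V) * ((Cl + 1) * (D + T)) =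
        (Cl + 1) * (1 + c2) * ((1 + V) * (D + T)) := by ring
    rw [e5]
    refine mul_le_mul_of_nonneg_left ?_ (by positivity)
    linarith
  linarith

theorem aP1 (hC : CutW M' O K B ρ a0 Ψ Ψ₂ ℓ) (hφ : IsChart M M' O G φ) (hκ : IsWeight κ)
    (hF : IsFinslerT M F) (hL : IsNearT M κ F L) {Λ₁ : ℝ} (hΛ : 0 < Λ₁) :
    ∃ M₁ : ℝ, 0 ≤ M₁ ∧ AP M'.N M'.r (F1 φ F κ Ψ Λ₁) κ M₁ (L1 φ L Ψ Λ₁) := by
  have ha0 := hC.a0_pos
  have hne : M.N.Nonempty := by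
    obtain ⟨x, hx⟩ := hC.ne
    refine ⟨φ x, hφ.maps x ⟨hC.subK hx, H7_sub hC ?_⟩⟩
    rw [Metric.infDist_zero_of_mem hx]
    positivity
  have htan : ∀ y ∈ M.N, ∀ w, IsTangent M y w → ∀ n : Fin d → ℤ, IsTangent M (y + vz n) w :=
    fun y hy w hw n => (tangent_vz M hy n).2 hw
  obtain ⟨C0, hC00, hC0⟩ := H7_bd hκ hF hL hne htan
  obtain ⟨C1, hC10, hC1⟩ := H7_near hL
  obtain ⟨c1, c2, hc1, hc12, hcb⟩ := hC.bounds hφ
  obtain ⟨ε, Cl, hε, hCl, hlip⟩ := hC.lip hφ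
  obtain ⟨CΨ, hCΨ0, hCΨ⟩ := H7_lip hC.s1 hC.per1
  have hc2 : 0 ≤ c2 := hc1.le.trans hc12
  -- notation
  obtain ⟨g, hg⟩ : ∃ g : Vec m → Vec m → ℝ → ℝ,
      g = fun x v t => H7_G κ F L (φ x) (fderiv ℝ φ x v) t := ⟨_, rfl⟩
  have hgx : ∀ x v t, g x v t = H7_G κ F L (φ x) (fderiv ℝ φ x v) t := fun x v t => by rw [hg]
  -- periodicity
  have hgper : ∀ x ∈ M'.N, Metric.infDist x K ≤ 3 * a0 → ∀ v, IsTangent M' x v → ∀ (n : Fin m → ℤ) t,
      g (x + vz n) v t = g x v t := by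
    intro x hx hxK v hv n t
    have hxO : x ∈ M'.N ∩ O := ⟨hx, H7_sub hC hxK⟩
    rw [hgx, hgx]
    unfold H7_G
    have h1 := hφ.pull_lag hL hxO hv n t
    have h2 := hφ.pull_per hF hxO hv n t
    unfold pull at h2
    rw [h1, h2]
  -- bound
  have hgb : ∀ x ∈ M'.N, Metric.infDist x K ≤ 3 * a0 → ∀ v, IsTangent M' x v → ∀ t,
      |g x v t| ≤ C0 * (1 + c2) * (1 + ‖v‖) := by
    intro x hx hxK v hv t
    have hxO : x ∈ M'.N ∩ O := ⟨hx, H7_sub hC hxK⟩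
    have h1 := hC0 (φ x) (hφ.maps x hxO) _ (hφ.tangent hxO hv) t
    have h2 := (hcb x hx hxK v hv).2
    have h3 := norm_nonneg v
    rw [hgx]
    refine h1.trans ?_
    have h4 : C0 * (1 + ‖fderiv ℝ φ x v‖) ≤ C0 * (1 + c2 * ‖v‖) := by gcongr
    refine h4.trans ?_
    have h5 : 1 + c2 * ‖v‖ ≤ (1 + c2) * (1 + ‖v‖) := by nlinarith
    calc C0 * (1 + c2 * ‖v‖) ≤ C0 * ((1 + c2) * (1 + ‖v‖)) := by gcongr
      _ = C0 * (1 + c2) * (1 + ‖v‖) := by ring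
  have hΨg : ∀ x ∈ M'.N, ∀ v, IsTangent M' x v → ∀ t,
      |Ψ x * g x v t| ≤ C0 * (1 + c2) * (1 + ‖v‖) := by
    intro x hx v hv t
    rcases le_or_gt (Metric.infDist x K) (3 * a0) with hxK | hxK
    · rw [abs_mul]
      have h1 := hgb x hx hxK v hv t
      obtain ⟨h2, h3⟩ := hC.Ψ01 x
      rw [abs_of_nonneg h2]
      calc Ψ x * |g x v t| ≤ 1 * |g x v t| := by gcongr
        _ ≤ _ := by rw [one_mul]; exact h1
    · rw [hC.zero1 x (by linarith), zero_mul, abs_zero]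
      positivity
  -- Lipschitz bound for points which are close to each other
  have hgl : ∀ x ∈ M'.N, ∀ x' ∈ M'.N, Metric.infDist x K ≤ 3 * a0 → Metric.infDist x' K ≤ 3 * a0 →
      ‖x - x'‖ ≤ ε → ∀ v v', IsTangent M' x v → IsTangent M' x' v' → ∀ t t',
      |g x v t - g x' v' t'| ≤
        C1 * ((Cl + 1) * (1 + c2) * 2) * (‖v - v'‖ + (1 + ‖v‖) * (‖x - x'‖ + |t - t'|)) := by
    intro x hx x' hx' hxK hxK' hxx v v' hv hv' t t'
    obtain ⟨n, hn1, hn2⟩ := hlip x hx x' hx' hxK hxK' hxx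
    have hN : x + vz n ∈ M'.N := M'.perN n x hx
    have hN' : x' + vz n ∈ M'.N := M'.perN n x' hx'
    have hK : Metric.infDist (x + vz n) K ≤ 3 * a0 := by rw [hC.infDist_vz]; exact hxK
    have hK' : Metric.infDist (x' + vz n) K ≤ 3 * a0 := by rw [hC.infDist_vz]; exact hxK'
    have hO : x + vz n ∈ M'.N ∩ O := ⟨hN, H7_sub hC hK⟩
    have hO' : x' + vz n ∈ M'.N ∩ O := ⟨hN', H7_sub hC hK'⟩
    have htv : IsTangent M' (x + vz n) v := (tangent_vz M' hx n).2 hv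
    have htv' : IsTangent M' (x' + vz n) v' := (tangent_vz M' hx' n).2 hv'
    rw [← hgper x hx hxK v hv n t, ← hgper x' hx' hxK' v' hv' n t', hgx, hgx]
    have h1 := hC1 _ (hφ.maps _ hO) _ t (hφ.tangent hO htv) _ (hφ.maps _ hO') _ t'
      (hφ.tangent hO' htv')
    have h2 := hn2 v v' hv hv'
    have h3 := (hcb _ hN hK v htv).2
    exact h1.trans (H7_arith hC10 hCl hc2 (norm_nonneg v) (norm_nonneg _) (abs_nonneg _)
      (norm_nonneg _) h2 h3 hn1 (norm_nonneg _))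
  -- the constant
  obtain ⟨δ, hδ⟩ : ∃ δ : ℝ, δ = min ε a0 := ⟨_, rfl⟩
  have hδ0 : 0 < δ := by rw [hδ]; exact lt_min hε ha0
  obtain ⟨A, hA⟩ : ∃ A : ℝ, A = C0 * (1 + c2) := ⟨_, rfl⟩
  have hA0 : 0 ≤ A := by rw [hA]; positivity
  obtain ⟨A', hA'⟩ : ∃ A' : ℝ, A' = C1 * ((Cl + 1) * (1 + c2) * 2) := ⟨_, rfl⟩
  have hA'0 : 0 ≤ A' := by rw [hA']; positivity
  rw [← hA] at hgb hΨg
  rw [← hA'] at hgl
  refine ⟨A' + CΨ * A + A + 2 * A / δ, by positivity, ?_⟩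
  rintro x v t x' v' t' ⟨hx, hv⟩ ⟨hx', hv'⟩
  have hv : IsTangent M' x v := hv
  have hv' : IsTangent M' x' v' := hv'
  have hx : x ∈ M'.N := hx
  have hx' : x' ∈ M'.N := hx'
  rw [H7_eq hC φ hκ F L hΛ, H7_eq hC φ hκ F L hΛ, ← hgx, ← hgx]
  have hv0 := norm_nonneg v
  have hx0 := norm_nonneg (x - x')
  have ht0 := abs_nonneg (t - t')
  have hvv0 := norm_nonneg (v - v')
  obtain ⟨Q, hQ⟩ : ∃ Q : ℝ, Q = ‖v - v'‖ + (1 + ‖v‖) * (‖x - x'‖ + |t - t'|) := ⟨_, rfl⟩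
  have hQ0 : 0 ≤ Q := by rw [hQ]; positivity
  have hQ1 : (1 + ‖v‖) * ‖x - x'‖ ≤ Q := by
    rw [hQ]
    nlinarith
  have hQ2 : ‖v - v'‖ ≤ Q := by
    rw [hQ]
    have : 0 ≤ (1 + ‖v‖) * (‖x - x'‖ + |t - t'|) := by positivity
    linarith
  rw [← hQ]
  have hsum : (A' + CΨ * A + A + 2 * A / δ) * Q = A' * Q + CΨ * A * Q + A * Q + 2 * A / δ * Q := by
    ring
  rcases le_or_gt ‖x - x'‖ δ with hxx | hxx
  · have hxε : ‖x - x'‖ ≤ ε := hxx.trans (by rw [hδ]; exact min_le_left _ _)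
    have hxa : ‖x - x'‖ ≤ a0 := hxx.trans (by rw [hδ]; exact min_le_right _ _)
    by_cases hboth : Metric.infDist x K ≤ 3 * a0 ∧ Metric.infDist x' K ≤ 3 * a0
    · obtain ⟨hK, hK'⟩ := hboth
      have h1 := hgl x hx x' hx' hK hK' hxε v v' hv hv' t t'
      rw [← hQ] at h1
      have h2 := hgb x hx hK v hv t
      have h3 := hCΨ x x'
      obtain ⟨h4, h5⟩ := hC.Ψ01 x'
      have h6 : Ψ x * g x v t - Ψ x' * g x' v' t' =
          Ψ x' * (g x v t - g x' v' t') + (Ψ x - Ψ x') * g x v t := by ring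
      have h7 : |Ψ x' * (g x v t - g x' v' t')| ≤ A' * Q := by
        rw [abs_mul, abs_of_nonneg h4]
        calc Ψ x' * |g x v t - g x' v' t'| ≤ 1 * (A' * Q) := by gcongr
          _ = A' * Q := one_mul _
      have h8 : |(Ψ x - Ψ x') * g x v t| ≤ CΨ * A * Q := by
        rw [abs_mul]
        calc |Ψ x - Ψ x'| * |g x v t| ≤ (CΨ * ‖x - x'‖) * (A * (1 + ‖v‖)) := by gcongr
          _ = CΨ * A * ((1 + ‖v‖) * ‖x - x'‖) := by ring
          _ ≤ CΨ * A * Q := by gcongr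
      rw [h6]
      have h9 : 0 ≤ A * Q := by positivity
      have h10 : 0 ≤ 2 * A / δ * Q := by positivity
      have h11 := abs_add_le (Ψ x' * (g x v t - g x' v' t')) ((Ψ x - Ψ x') * g x v t)
      rw [hsum]
      linarith
    · have hz : Ψ x = 0 ∧ Ψ x' = 0 := by
        have h1 : Metric.infDist x K ≤ Metric.infDist x' K + ‖x - x'‖ := by
          have := Metric.infDist_le_infDist_add_dist (s := K) (x := x) (y := x')
          rwa [dist_eq_norm] at this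
        have h2 : Metric.infDist x' K ≤ Metric.infDist x K + ‖x - x'‖ := by
          have := Metric.infDist_le_infDist_add_dist (s := K) (x := x') (y := x)
          rwa [dist_eq_norm, norm_sub_rev] at this
        rw [not_and_or, not_le, not_le] at hboth
        rcases hboth with h | h
        · exact ⟨hC.zero1 x (by linarith), hC.zero1 x' (by linarith)⟩
        · exact ⟨hC.zero1 x (by linarith), hC.zero1 x' (by linarith)⟩
      rw [hz.1, hz.2, zero_mul, zero_mul, sub_zero, abs_zero]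
      positivity
  · have h1 := hΨg x hx v hv t
    have h2 := hΨg x' hx' v' hv' t'
    have h3 : ‖v'‖ ≤ ‖v‖ + ‖v - v'‖ := by
      have := norm_sub_le v (v - v')
      rwa [sub_sub_cancel] at this
    have h4 : |Ψ x * g x v t - Ψ x' * g x' v' t'| ≤ |Ψ x * g x v t| + |Ψ x' * g x' v' t'| :=
      abs_sub _ _
    have h5 : 2 * A * (1 + ‖v‖) ≤ 2 * A / δ * Q := by
      have e1 : 2 * A * (1 + ‖v‖) = 2 * A / δ * ((1 + ‖v‖) * δ) := by field_simp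
      rw [e1]
      have e2 : (1 + ‖v‖) * δ ≤ Q := (mul_le_mul_of_nonneg_left hxx.le (by positivity)).trans hQ1
      gcongr
    have h6 : A * ‖v - v'‖ ≤ A * Q := by gcongr
    have h7 : A * (1 + ‖v'‖) ≤ A * (1 + ‖v‖ + ‖v - v'‖) :=
      mul_le_mul_of_nonneg_left (by linarith) hA0
    have h8 : 0 ≤ A' * Q := by positivity
    have h9 : 0 ≤ CΨ * A * Q := by positivity
    have h10 : A * (1 + ‖v‖ + ‖v - v'‖) = A * (1 + ‖v‖) + A * ‖v - v'‖ := by ring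
    rw [hsum]
    linarith

end EscW
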