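import Pool.Agent.EscW.H4
import Pool.Agent.EscW.H5
import Pool.Agent.EscW.H6
import Pool.Agent.EscW.H7

set_option autoImplicit false

/-!
Project EscW, module H8: data on `M'`.
`roomP1`: on `K`: `F1 = pull φ F` (`F1_eq`), `B1 = B` (`B1_eq`); the derivative of a Lipschitz curve with values in `K ⊆ M'.N` for `s ∈ [0,1]` is tangent for almost every `s` (where the derivative exists: `M'.r (γ s) = γ s`), so `excN F1 B1 = excess (pull φ F) B`.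
`vz n` and `Submodule.span ℤ (Set.range (bas m))`: `EscM.mem_span_bas`. `exists_level`: take `Λ₁ = Λ₀` of `calP1`.
-/

noncomputable section

namespace EscW

open MeasureTheory Set Filter Topology Esc EscF EscG EscM EscMT EscF.T
open scoped ContDiff

variable {d m : ℕ} {M : Sub d} {M' : Sub m} {O K : Set (Vec m)} {G : Subgroup (Vec m ≃ₗᵢ[ℝ] Vec m)}
  {φ : Vec m → Vec d} {κ : ℝ → ℝ} {F : Vec d → Vec d → ℝ → ℝ} {L : Lag d} {B : Vec m → ℝ → ℝ} {i : Fin m}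
  {len a : ℝ} {c : ℝ → ℝ → Vec m} {ρ a0 : ℝ} {Ψ Ψ₂ χ : Vec m → ℝ} {R : Vec m → Vec m} {ℓ : Vec m →L[ℝ] ℝ}

/-- the derivative of a curve in `M'.N` is tangent -/
theorem H8_tangent {γ : ℝ → Vec m} (hγ : ∀ s ∈ Icc (0:ℝ) 1, γ s ∈ M'.N) {s : ℝ} (hs : s ∈ Ioo (0:ℝ) 1) :
    IsTangent M' (γ s) (deriv γ s) := by
  by_cases hd : DifferentiableAt ℝ γ s
  · have hN : γ s ∈ M'.N := hγ s ⟨hs.1.le, hs.2.le⟩
    have h1 : DifferentiableAt ℝ M'.r (γ s) :=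
      (M'.smooth.contDiffAt (M'.isOpen.mem_nhds (M'.sub hN))).differentiableAt (by simp)
    have h2 : HasDerivAt (fun s => M'.r (γ s)) (fderiv ℝ M'.r (γ s) (deriv γ s)) s :=
      h1.hasFDerivAt.comp_hasDerivAt s hd.hasDerivAt
    have h3 : (fun s => M'.r (γ s)) =ᶠ[𝓝 s] γ := by
      filter_upwards [Ioo_mem_nhds hs.1 hs.2] with s' hs'
      exact r_self M' (hγ s' ⟨hs'.1.le, hs'.2.le⟩)
    exact (h2.congr_of_eventuallyEq h3.symm).unique hd.hasDerivAt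
  · rw [IsTangent, deriv_zero_of_not_differentiableAt hd, map_zero]

/-- the excess of a curve in `K` is the same for both data -/
theorem H8_excess (hC : CutW M' O K B ρ a0 Ψ Ψ₂ ℓ) (hφ : IsChart M M' O G φ) (hF : IsFinslerT M F)
    (Λ₁ : ℝ) (t : ℝ) {γ : ℝ → Vec m} (hγ : ∀ s ∈ Icc (0:ℝ) 1, γ s ∈ K) :
    excN (F1 φ F κ Ψ Λ₁) (B1 B Ψ₂ ℓ) t γ = excess (pull φ F) B t γ := by
  have h0 : ∀ x ∈ K, Metric.infDist x K = 0 := fun x hx => Metric.infDist_zero_of_mem hx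
  have hpos := hC.a0_pos
  have hB : ∀ x ∈ K, B1 B Ψ₂ ℓ x t = B x t := fun x hx =>
    B1_eq hC (by rw [h0 x hx]; linarith) t
  rw [excN, excess, hB _ (hγ 1 ⟨zero_le_one, le_rfl⟩), hB _ (hγ 0 ⟨le_rfl, zero_le_one⟩)]
  congr 1
  refine intervalIntegral.integral_congr_Ioo_of_le zero_le_one fun s hs => ?_
  have hK : γ s ∈ K := hγ s ⟨hs.1.le, hs.2.le⟩
  exact F1_eq hC hφ hF Λ₁ (hC.subK hK) (by rw [h0 _ hK]; exact hpos.le)
    (H8_tangent (fun s hs => hC.subK (hγ s hs)) hs) t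

theorem H8_smul_bas (i : Fin m) (k : ℤ) : (k : ℝ) • bas m i = vz (Pi.single i k) := by
  rw [bas_apply]
  ext j
  by_cases h : j = i
  · subst h
    simp [vz]
  · simp [vz, h]

theorem H8_vz_inj {n n' : Fin m → ℤ} (h : (vz n : Vec m) = vz n') : n = n' := by
  funext j
  have h1 : (vz n : Vec m) j = (vz n' : Vec m) j := by rw [h]
  simpa [vz] using h1

theorem roomP1 (hC : CutW M' O K B ρ a0 Ψ Ψ₂ ℓ) (hφ : IsChart M M' O G φ) (hF : IsFinslerT M F)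
    (hR : IsRoom M' O K (pull φ F) B i c a) (Λ₁ : ℝ) :
    RoomP (bas m) M'.N K (F1 φ F κ Ψ Λ₁) (B1 B Ψ₂ ℓ) i c a where
  closed := hR.closed
  sub := fun x hx => (hR.sub hx).1
  per := by
    intro j x
    rw [bas_apply]
    refine ⟨fun h => ?_, fun h => hR.periodic _ x h⟩
    have h1 := hR.periodic (-Pi.single j 1) _ h
    rwa [N1_add_neg] at h1
  mem := hR.mem
  exit := by
    intro t σ γ hL h0 hK h1
    rw [H8_excess hC hφ hF Λ₁ t hK]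
    exact hR.exit t σ γ hL h0 hK h1
  second := by
    obtain ⟨t, n, γ, hn, hL, h0, h1, hK, he⟩ := hR.second
    refine ⟨t, vz n, γ, mem_span_bas.2 ⟨n, rfl⟩, fun k hk => hn k ?_, hL, h0, h1, hK, ?_⟩
    · rw [H8_smul_bas] at hk
      exact H8_vz_inj hk
    · rw [H8_excess hC hφ hF Λ₁ t hK]
      exact he

theorem exists_level (hC : CutW M' O K B ρ a0 Ψ Ψ₂ ℓ) (hφ : IsChart M M' O G φ) (hκ : IsWeight κ)
    (hF : IsFinslerT M F) (hL : IsNearT M κ F L) (hc : IsCalibratedW M' O φ (pull φ F) B i len c)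
    (hR : IsRoom M' O K (pull φ F) B i c a) : ∃ Λ₁ mF MF A m₁ M₁ : ℝ, 0 < Λ₁ ∧ 0 ≤ M₁ ∧
      FinsP (bas m) M'.N M'.r (F1 φ F κ Ψ Λ₁) mF MF A κ ∧
      CalP (bas m) M'.N M'.r (5 * ρ) (F1 φ F κ Ψ Λ₁) A (B1 B Ψ₂ ℓ) i len c
        (fun σ t => deriv (fun σ => c σ t) σ) (fun σ t => deriv (fun t => c σ t) t) ∧
      LagS (bas m) M'.N M'.r (5 * ρ) m₁ (L1 φ L Ψ Λ₁) ∧
      AP M'.N M'.r (F1 φ F κ Ψ Λ₁) κ M₁ (L1 φ L Ψ Λ₁) ∧
      RoomP (bas m) M'.N K (F1 φ F κ Ψ Λ₁) (B1 B Ψ₂ ℓ) i c a := by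
  obtain ⟨Λ₀, A, hΛ, hcal⟩ := calP1 hC hφ hκ hF hc hR
  obtain ⟨mF, MF, A', hfin⟩ := finsP1 hC hφ hκ hF hΛ
  obtain ⟨m₁, hlag⟩ := lagS1 hC hφ hL hΛ
  obtain ⟨M₁, hM, hap⟩ := aP1 hC hφ hκ hF hL hΛ
  exact ⟨Λ₀, mF, MF, max A A', m₁, M₁, hΛ, hM, finsP_mono hfin (le_max_right _ _),
    calP_mono (hcal Λ₀ le_rfl) (le_max_left _ _), hlag, hap, roomP1 hC hφ hF hR Λ₀⟩

end EscW
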