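import Pool.Agent.EscW.H1

set_option autoImplicit false

/-!
Project EscW, module H9: the curves and their images under the group.
If `P (c σ t) + vz n = c σ' t` with `P ∈ G` then `φ (c σ' t) = φ (c σ t) + vz l` (`fibre`), so `σ - σ' = k len` (`simple`), `c σ t = c σ' t + k (basis vector)` and `P = 1` (`free`). Compactness (`σ ∈ [0, len]`, `t ∈ [0,1]`, `G` finite,
finitely many `n`) gives `δ`.
-/

noncomputable section

namespace EscW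

open MeasureTheory Set Filter Topology Esc EscF EscG EscM EscMT EscF.T
open scoped ContDiff

variable {d m : ℕ} {F' : Vec m → Vec m → ℝ → ℝ} {M : Sub d} {M' : Sub m} {O K : Set (Vec m)} {G : Subgroup (Vec m ≃ₗᵢ[ℝ] Vec m)}
  {φ : Vec m → Vec d} {κ : ℝ → ℝ} {F : Vec d → Vec d → ℝ → ℝ} {L : Lag d} {B : Vec m → ℝ → ℝ} {i : Fin m}
  {len a : ℝ} {c : ℝ → ℝ → Vec m} {ρ a0 : ℝ} {Ψ Ψ₂ χ : Vec m → ℝ} {R : Vec m → Vec m} {ℓ : Vec m →L[ℝ] ℝ}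

theorem H9_closed (hc : IsCalibratedW M' O φ F' B i len c) (σ t : ℝ) (k : ℤ) :
    c (σ + k * len) t = c σ t + vz (k • (Pi.single i 1 : Fin m → ℤ)) := by
  induction k using Int.induction_on with
  | zero =>
    rw [Int.cast_zero, zero_mul, add_zero, zero_smul, vz_zero', add_zero]
  | succ k ih =>
    have e : σ + ((k : ℤ) + 1 : ℤ) * len = (σ + ((k : ℤ) : ℝ) * len) + len := by
      push_cast
      ring
    rw [e, hc.closed, ih, add_smul, one_smul, vz_add', add_assoc]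
  | pred k ih =>
    have h1 := hc.closed (σ + ((-(k : ℤ) - 1 : ℤ) : ℝ) * len) t
    have e : σ + ((-(k : ℤ) - 1 : ℤ) : ℝ) * len + len = σ + ((-(k : ℤ) : ℤ) : ℝ) * len := by
      push_cast
      ring
    rw [e, ih] at h1
    have e3 : ((-(k : ℤ) - 1) • (Pi.single i 1 : Fin m → ℤ)) =
        (-(k : ℤ)) • (Pi.single i 1 : Fin m → ℤ) + -(Pi.single i 1 : Fin m → ℤ) := by
      rw [sub_smul, one_smul, sub_eq_add_neg]
    rw [e3, vz_add', vz_neg', ← add_assoc, h1, add_neg_cancel_right]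

theorem H9_per (hc : IsCalibratedW M' O φ F' B i len c) (σ t : ℝ) (k : ℤ) :
    c σ (t + k) = c σ t := by
  have h : Function.Periodic (fun t => c σ t) 1 := fun t => hc.curve_per σ t
  have h1 := (h.int_mul k) t
  simpa only [mul_one] using h1

theorem H9_ne (h : IsChart M M' O G φ) (hc : IsCalibratedW M' O φ F' B i len c)
    {P : Vec m ≃ₗᵢ[ℝ] Vec m} (hP : P ∈ G) (hP1 : P ≠ 1) (n : Fin m → ℤ) (σ σ' t : ℝ) :
    P (c σ t) + vz n ≠ c σ' t := by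
  intro he
  obtain ⟨l, hl⟩ := (h.fibre _ (hc.mem σ t) _ (hc.mem σ' t)).2 ⟨P, hP, n, he.symm⟩
  obtain ⟨k, hk⟩ := hc.simple σ' σ t l hl
  have e : σ' = σ + k * len := by linarith
  have h1 := H9_closed hc σ t k
  rw [← e] at h1
  apply hP1
  refine (h.free P hP (n + -(k • (Pi.single i 1 : Fin m → ℤ))) _ (hc.mem σ t) ?_).1
  rw [vz_add', vz_neg', ← add_assoc, he, h1, add_neg_cancel_right]

theorem H9_unif {α : Type*} {S : Set α} (hS : S.Finite) {p : α → ℝ → Prop}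
    (ha : ∀ a δ δ', δ' ≤ δ → p a δ → p a δ') (h : ∀ a ∈ S, ∃ δ : ℝ, 0 < δ ∧ p a δ) :
    ∃ δ : ℝ, 0 < δ ∧ ∀ a ∈ S, p a δ := by
  induction S, hS using Set.Finite.induction_on with
  | empty => exact ⟨1, one_pos, fun a ha => absurd ha (Set.notMem_empty a)⟩
  | insert hx hs ih =>
    obtain ⟨δ, hδ, h1⟩ := ih (fun a ha => h a (Set.mem_insert_of_mem _ ha))
    obtain ⟨δ', hδ', h2⟩ := h _ (Set.mem_insert _ _)
    refine ⟨min δ δ', lt_min hδ hδ', fun b hb => ?_⟩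
    rcases hb with rfl | hb
    · exact ha _ _ _ (min_le_right _ _) h2
    · exact ha _ _ _ (min_le_left _ _) (h1 b hb)

theorem H9_fin (C : ℝ) : {n : Fin m → ℤ | ‖(vz n : Vec m)‖ ≤ C}.Finite := by
  obtain ⟨N, hN⟩ := exists_nat_ge C
  refine (Set.finite_Icc (fun _ : Fin m => -(N : ℤ)) (fun _ => (N : ℤ))).subset ?_
  intro n hn
  have h1 : ∀ j, |(n j : ℝ)| ≤ N := by
    intro j
    have h2 : ‖(vz n : Vec m) j‖ ≤ ‖(vz n : Vec m)‖ := PiLp.norm_apply_le _ j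
    exact (h2.trans hn).trans hN
  refine ⟨fun j => ?_, fun j => ?_⟩
  · have h2 := (abs_le.1 (h1 j)).1
    exact_mod_cast h2
  · have h2 := (abs_le.1 (h1 j)).2
    exact_mod_cast h2

theorem H9_pair (h : IsChart M M' O G φ) (hc : IsCalibratedW M' O φ F' B i len c)
    {P : Vec m ≃ₗᵢ[ℝ] Vec m} (hP : P ∈ G) (hP1 : P ≠ 1) (n : Fin m → ℤ) :
    ∃ δ : ℝ, 0 < δ ∧ ∀ σ ∈ Icc (0 : ℝ) len, ∀ σ' ∈ Icc (0 : ℝ) len, ∀ t ∈ Icc (0 : ℝ) 1,
      δ ≤ ‖P (c σ t) + vz n - c σ' t‖ := by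
  have hcc : Continuous (fun p : ℝ × ℝ => c p.1 p.2) := hc.curve.continuous
  have hlen := hc.len_pos
  have hf : Continuous (fun q : ℝ × ℝ × ℝ => ‖P (c q.1 q.2.2) + vz n - c q.2.1 q.2.2‖) := by
    have h1 : Continuous (fun q : ℝ × ℝ × ℝ => c q.1 q.2.2) :=
      hcc.comp (continuous_fst.prodMk (continuous_snd.comp continuous_snd))
    have h2 : Continuous (fun q : ℝ × ℝ × ℝ => c q.2.1 q.2.2) :=
      hcc.comp ((continuous_fst.comp continuous_snd).prodMk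
        (continuous_snd.comp continuous_snd))
    exact (((P.continuous.comp h1).add continuous_const).sub h2).norm
  have hK : IsCompact (Icc (0 : ℝ) len ×ˢ Icc (0 : ℝ) len ×ˢ Icc (0 : ℝ) 1) :=
    isCompact_Icc.prod (isCompact_Icc.prod isCompact_Icc)
  have hne : (Icc (0 : ℝ) len ×ˢ Icc (0 : ℝ) len ×ˢ Icc (0 : ℝ) 1).Nonempty :=
    ⟨(0, 0, 0), Set.mk_mem_prod (left_mem_Icc.2 hlen.le)
      (Set.mk_mem_prod (left_mem_Icc.2 hlen.le) (left_mem_Icc.2 zero_le_one))⟩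
  obtain ⟨q, hq, hqm⟩ := hK.exists_isMinOn hne hf.continuousOn
  refine ⟨‖P (c q.1 q.2.2) + vz n - c q.2.1 q.2.2‖,
    norm_pos_iff.2 (sub_ne_zero.2 (H9_ne h hc hP hP1 n q.1 q.2.1 q.2.2)), ?_⟩
  intro σ hσ σ' hσ' t ht
  have hm : (σ, σ', t) ∈ Icc (0 : ℝ) len ×ˢ Icc (0 : ℝ) len ×ˢ Icc (0 : ℝ) 1 :=
    Set.mk_mem_prod hσ (Set.mk_mem_prod hσ' ht)
  exact (isMinOn_iff.1 hqm) (σ, σ', t) hm

theorem H9_red (hc : IsCalibratedW M' O φ F' B i len c) (t : ℝ) : ∃ t0 ∈ Icc (0 : ℝ) 1,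
    ∀ σ : ℝ, ∃ σ0 ∈ Icc (0 : ℝ) len, ∃ j : ℤ,
      c σ t = c σ0 t0 + vz (j • (Pi.single i 1 : Fin m → ℤ)) := by
  have hlen := hc.len_pos
  refine ⟨Int.fract t, ⟨Int.fract_nonneg t, (Int.fract_lt_one t).le⟩, fun σ => ?_⟩
  have h1 : σ = Int.fract (σ / len) * len + (⌊σ / len⌋ : ℤ) * len := by
    rw [← add_mul, Int.fract_add_floor, div_mul_cancel₀ _ hlen.ne']
  refine ⟨Int.fract (σ / len) * len, ⟨mul_nonneg (Int.fract_nonneg _) hlen.le, ?_⟩,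
    ⌊σ / len⌋, ?_⟩
  · have := (Int.fract_lt_one (σ / len)).le
    nlinarith
  · have h2 := H9_closed hc (Int.fract (σ / len) * len) (Int.fract t) ⌊σ / len⌋
    rw [← h1] at h2
    have h3 := H9_per hc σ (Int.fract t) ⌊t⌋
    rw [Int.fract_add_floor] at h3
    rw [h3, h2]

theorem H9_far (P : Vec m ≃ₗᵢ[ℝ] Vec m) {x y z : Vec m} {C : ℝ} (hx : ‖x‖ ≤ C) (hy : ‖y‖ ≤ C)
    (hz : 2 * C + 1 < ‖z‖) : 1 ≤ ‖P x + z - y‖ := by
  have e2 : z = (P x + z - y) - P x + y := by abel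
  have h3 : ‖z‖ ≤ ‖P x + z - y‖ + ‖P x‖ + ‖y‖ := by
    calc ‖z‖ = ‖(P x + z - y) - P x + y‖ := by rw [← e2]
      _ ≤ ‖(P x + z - y) - P x‖ + ‖y‖ := norm_add_le _ _
      _ ≤ _ := add_le_add (norm_sub_le _ _) le_rfl
  rw [P.norm_map] at h3
  linarith

theorem exists_disj (h : IsChart M M' O G φ) (hc : IsCalibratedW M' O φ F' B i len c) :
    ∃ δ : ℝ, 0 < δ ∧ ∀ t, ∀ P ∈ G, P ≠ 1 → ∀ (n : Fin m → ℤ) (σ : ℝ),
      δ ≤ Metric.infDist (P (c σ t) + vz n) (Set.range fun σ => c σ t) := by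
  have hcc : Continuous (fun p : ℝ × ℝ => c p.1 p.2) := hc.curve.continuous
  -- a bound of the curves
  have hK : IsCompact (Icc (0 : ℝ) len ×ˢ Icc (0 : ℝ) 1) := isCompact_Icc.prod isCompact_Icc
  obtain ⟨C, hC⟩ := hK.exists_bound_of_continuousOn hcc.continuousOn
  have hCb : ∀ σ ∈ Icc (0 : ℝ) len, ∀ t ∈ Icc (0 : ℝ) 1, ‖c σ t‖ ≤ C := fun σ hσ t ht =>
    hC (σ, t) ⟨hσ, ht⟩
  -- the finite sets
  obtain ⟨δ, hδ, hmin⟩ := H9_unif (S := {P : Vec m ≃ₗᵢ[ℝ] Vec m | P ∈ G ∧ P ≠ 1})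
    (h.finite.subset fun P hP => hP.1)
    (p := fun P δ => ∀ n ∈ {n : Fin m → ℤ | ‖(vz n : Vec m)‖ ≤ 2 * C + 1},
      ∀ σ ∈ Icc (0 : ℝ) len, ∀ σ' ∈ Icc (0 : ℝ) len, ∀ t ∈ Icc (0 : ℝ) 1,
        δ ≤ ‖P (c σ t) + vz n - c σ' t‖)
    (fun P δ δ' hle hp n hn σ hσ σ' hσ' t ht => hle.trans (hp n hn σ hσ σ' hσ' t ht))
    (fun P hP => H9_unif (H9_fin _)
      (p := fun n δ => ∀ σ ∈ Icc (0 : ℝ) len, ∀ σ' ∈ Icc (0 : ℝ) len, ∀ t ∈ Icc (0 : ℝ) 1,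
        δ ≤ ‖P (c σ t) + vz n - c σ' t‖)
      (fun n δ δ' hle hp σ hσ σ' hσ' t ht => hle.trans (hp σ hσ σ' hσ' t ht))
      (fun n _ => H9_pair h hc hP.1 hP.2 n))
  refine ⟨min δ 1, lt_min hδ one_pos, fun t P hP hP1 n σ => ?_⟩
  refine (Metric.le_infDist (Set.range_nonempty _)).2 ?_
  rintro _ ⟨σ', rfl⟩
  -- reduction
  obtain ⟨t0, ht0, hred⟩ := H9_red hc t
  obtain ⟨σ0, hσ0, j, hj⟩ := hred σ
  obtain ⟨σ1, hσ1, j', hj'⟩ := hred σ'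
  obtain ⟨n', hn'⟩ := h.int P hP (j • (Pi.single i 1 : Fin m → ℤ))
  obtain ⟨N, hN⟩ : ∃ N : Fin m → ℤ, (vz N : Vec m) =
      vz n' + vz n + -vz (j' • (Pi.single i 1 : Fin m → ℤ)) :=
    ⟨n' + n + -(j' • (Pi.single i 1 : Fin m → ℤ)), by rw [vz_add', vz_add', vz_neg']⟩
  have e : P (c σ t) + vz n - c σ' t = P (c σ0 t0) + vz N - c σ1 t0 := by
    rw [hj, hj', map_add, hn', hN]
    abel
  rw [dist_eq_norm]
  show min δ 1 ≤ ‖P (c σ t) + vz n - c σ' t‖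
  rw [e]
  by_cases hNC : ‖(vz N : Vec m)‖ ≤ 2 * C + 1
  · exact (min_le_left _ _).trans (hmin P ⟨hP, hP1⟩ N hNC σ0 hσ0 σ1 hσ1 t0 ht0)
  · exact (min_le_right _ _).trans
      (H9_far P (hCb σ0 hσ0 t0 ht0) (hCb σ1 hσ1 t0 ht0) (not_le.1 hNC))

end EscW
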