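import Pool.Agent.EscW.H3
import Pool.Agent.EscM.A12c

set_option autoImplicit false

/-!
Project EscW, module K1: Lagrangian and potential on `M'` near `K`.
`lag_eq`: `EscM.Tb.Lt_tan` (with `CutW.tb`), `Ψ x = 1`. `pot_eq`: `infDist x M'.N = 0`, `M'.r x = x`, `R x = x`, `χ x = 1`, `h = 0`.
-/

noncomputable section

namespace EscW

open MeasureTheory Set Filter Topology Esc EscF EscG EscM EscMT EscF.T
open scoped ContDiff

variable {d m : ℕ} {M : Sub d} {M' : Sub m} {O K : Set (Vec m)} {G : Subgroup (Vec m ≃ₗᵢ[ℝ] Vec m)}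
  {φ : Vec m → Vec d} {κ : ℝ → ℝ} {F : Vec d → Vec d → ℝ → ℝ} {L : Lag d} {B : Vec m → ℝ → ℝ} {i : Fin m}
  {len a : ℝ} {c : ℝ → ℝ → Vec m} {ρ a0 : ℝ} {Ψ Ψ₂ χ : Vec m → ℝ} {R : Vec m → Vec m} {ℓ : Vec m →L[ℝ] ℝ} {k : ℕ∞}

theorem K1_r_eq (M' : Sub m) {x : Vec m} (hx : x ∈ M'.N) : M'.r x = x := by
  by_contra hne
  have h1 := M'.nearest x (M'.sub hx) x hx (Ne.symm hne)
  rw [dist_self] at h1
  exact absurd h1 (not_lt.mpr dist_nonneg)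

theorem lag_eq (hC : CutW M' O K B ρ a0 Ψ Ψ₂ ℓ) {ρ' : ℝ} (hρ : 0 < ρ') (hle : ρ' ≤ ρ) (Λ Λ₁ : ℝ)
    {x v : Vec m} (hx : x ∈ M'.N) (hK : Metric.infDist x K ≤ a0) (hv : IsTangent M' x v) (t : ℝ) :
    Lt M'.N M'.r ρ' Λ (L1 φ L Ψ Λ₁) x v t = L (φ x, fderiv ℝ φ x v, t) := by
  have hpos := hC.ρ_pos
  have hT : (x, v) ∈ TN M'.N M'.r := ⟨hx, hv⟩
  rw [hC.tb.Lt_tan hρ (by linarith) Λ hT t]
  unfold L1
  rw [hC.one1 x hK]
  simp

theorem pot_eq (hT : TubeW M' O K ρ a0 χ R) (f : EscM.Pot M k) (h : YW M' K a0 k) {x : Vec m}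
    (hx : x ∈ M'.N) (hK : Metric.infDist x K ≤ a0) (t : ℝ) :
    fw φ χ R f h.1 x t = f.toFun (φ x, t) := by
  have hρ := hT.ρ_pos
  have ha := hT.a0_pos
  have h0 : Metric.infDist x M'.N = 0 := Metric.infDist_zero_of_mem hx
  have h1 : M'.r x = x := K1_r_eq M' hx
  have h2 : R x = x := by
    rw [hT.R_eq x (by rw [h0]; positivity), h1]
  have h3 : χ x = 1 := hT.one x (by rw [h0]; positivity) (by rw [h1]; linarith)
  have h4 : h.1.toFun (x, t) = 0 := (h.2 x hx hK t).1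
  unfold fw extw
  rw [h2, h3, h4, one_mul, add_zero]

end EscW
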