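import Pool.Agent.EscW.K2
import Pool.Agent.EscM.A12b

set_option autoImplicit false

/-!
Project EscW, module K3: the first variation on `M`.
`g (s, t) = L (X, ∂t X, t) + f (X, t)` is `C¹` on `ℝ × ℝ`: `L (X, ∂t X, t) = L (M.r X, fderiv M.r X (∂t X), t)` (`X q ∈ M.N`, `∂t X` tangent) and `hL.smooth`; `f` is `C^k` on `U × ℝ`, `2 ≤ k`. Derivative of the integral: `∫ ∂s g (0, t)` (compare `EscM.stationary` in
`EscM/A12b.lean`), which is `mu b - mu a` by `hd` (fundamental theorem on the open interval, `mu` is continuous), and `mu a = mu b = 0` since `∂s X (0, a) = ∂s X (0, b) = 0`.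
-/

noncomputable section

namespace EscW

open MeasureTheory Set Filter Topology Esc EscF EscG EscM EscMT EscF.T
open scoped ContDiff

variable {d m : ℕ} {M : Sub d} {M' : Sub m} {O K : Set (Vec m)} {G : Subgroup (Vec m ≃ₗᵢ[ℝ] Vec m)}
  {φ : Vec m → Vec d} {κ : ℝ → ℝ} {F : Vec d → Vec d → ℝ → ℝ} {L : Lag d} {B : Vec m → ℝ → ℝ} {i : Fin m}
  {len a : ℝ} {c : ℝ → ℝ → Vec m} {ρ a0 : ℝ} {Ψ Ψ₂ χ : Vec m → ℝ} {R : Vec m → Vec m} {ℓ : Vec m →L[ℝ] ℝ} {k : ℕ∞}

theorem K3_r_self (M : Sub d) {x : Vec d} (hx : x ∈ M.N) : M.r x = x := by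
  by_contra hne
  have h := M.nearest x (M.sub hx) x hx (fun h => hne h.symm)
  rw [dist_self] at h
  exact absurd h (not_lt.2 dist_nonneg)

theorem K3_tangent (M : Sub d) {X : ℝ × ℝ → Vec d} (hX : ContDiff ℝ 2 X) (hXN : ∀ q, X q ∈ M.N)
    (q w : ℝ × ℝ) : fderiv ℝ M.r (X q) (fderiv ℝ X q w) = fderiv ℝ X q w := by
  have h1 : HasFDerivAt X (fderiv ℝ X q) q := (hX.differentiable (by norm_num) q).hasFDerivAt
  have h2 : HasFDerivAt M.r (fderiv ℝ M.r (X q)) (X q) :=
    ((M.smooth.differentiableOn (by simp)).differentiableAt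
      (M.isOpen.mem_nhds (M.sub (hXN q)))).hasFDerivAt
  have h3 := h2.comp q h1
  have h4 : M.r ∘ X = X := funext fun z => K3_r_self M (hXN z)
  rw [h4] at h3
  have h5 := h3.unique h1
  exact congrArg (fun A => A w) h5

theorem var_zero (hk : 2 ≤ k) (hL : IsNearT M κ F L) (f : EscM.Pot M k) {X : ℝ × ℝ → Vec d} {a b : ℝ}
    (hab : a < b) (hX : ContDiff ℝ 2 X) (hXN : ∀ q, X q ∈ M.N)
    (he : ∀ s, X (s, a) = X (0, a) ∧ X (s, b) = X (0, b))
    (hd : ∀ t ∈ Ioo a b, HasDerivAt (mu M L X)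
      (deriv (fun s => L (X (s, t), deriv (fun t' => X (s, t')) t, t) + f.toFun (X (s, t), t)) 0) t) :
    HasDerivAt (fun s => ∫ t in a..b, (L (X (s, t), deriv (fun t' => X (s, t')) t, t) +
      f.toFun (X (s, t), t))) 0 0 := by
  have hD : ContDiff ℝ 1 (fderiv ℝ X) := hX.fderiv_right (by norm_num)
  have hXs : ContDiff ℝ 1 (fun z => fderiv ℝ X z (1, 0)) := hD.clm_apply contDiff_const
  have hXt : ContDiff ℝ 1 (fun z => fderiv ℝ X z (0, 1)) := hD.clm_apply contDiff_const
  have hXd : ∀ z, HasFDerivAt X (fderiv ℝ X z) z := fun z =>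
    (hX.differentiable (by norm_num) z).hasFDerivAt
  have hdt : ∀ s t : ℝ, HasDerivAt (fun t' => X (s, t')) (fderiv ℝ X (s, t) (0, 1)) t := by
    intro s t
    have h2 : HasDerivAt (fun t' : ℝ => (s, t')) ((0 : ℝ), (1 : ℝ)) t :=
      (hasDerivAt_const t s).prodMk (hasDerivAt_id t)
    exact (hXd (s, t)).comp_hasDerivAt t h2
  have hds : ∀ s t : ℝ, HasDerivAt (fun s' => X (s', t)) (fderiv ℝ X (s, t) (1, 0)) s := by
    intro s t
    have h2 : HasDerivAt (fun s' : ℝ => (s', t)) ((1 : ℝ), (0 : ℝ)) s :=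
      (hasDerivAt_id s).prodMk (hasDerivAt_const s t)
    exact (hXd (s, t)).comp_hasDerivAt s h2
  have hr : ∀ q, M.r (X q) = X q := fun q => K3_r_self M (hXN q)
  have hU : ∀ q, X q ∈ M.U := fun q => M.sub (hXN q)
  obtain ⟨H, hH⟩ : ∃ H : Vec d × Vec d × ℝ → ℝ,
      H = fun q => L (M.r q.1, fderiv ℝ M.r q.1 q.2.1, q.2.2) := ⟨_, rfl⟩
  have hHc : ContDiffOn ℝ 2 H {q | q.1 ∈ M.U} := by rw [hH]; exact hL.smooth
  have hSo : IsOpen {q : Vec d × Vec d × ℝ | q.1 ∈ M.U} := M.isOpen.preimage continuous_fst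
  have hLH : ∀ z : ℝ × ℝ, L (X z, fderiv ℝ X z (0, 1), z.2) = H (X z, fderiv ℝ X z (0, 1), z.2) := by
    intro z
    rw [hH]
    simp only
    rw [hr, K3_tangent M hX hXN]
  obtain ⟨g, hg⟩ : ∃ g : ℝ × ℝ → ℝ,
      g = fun z => H (X z, fderiv ℝ X z (0, 1), z.2) + f.toFun (X z, z.2) := ⟨_, rfl⟩
  have hgc : ContDiff ℝ 1 g := by
    rw [hg]
    refine ContDiff.add ?_ ?_
    · exact (hHc.of_le (by norm_num)).comp_contDiff
        ((hX.of_le (by norm_num)).prodMk (hXt.prodMk contDiff_snd)) (fun z => hU z)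
    · have hk1 : (1 : WithTop ℕ∞) ≤ (k : WithTop ℕ∞) := by
        have h12 : (1 : ℕ∞) ≤ k := le_trans (by norm_num) hk
        exact_mod_cast h12
      exact (f.contDiff.of_le hk1).comp_contDiff
        ((hX.of_le (by norm_num)).prodMk contDiff_snd) (fun z => hU z)
  have e0 : ∀ s t : ℝ, L (X (s, t), deriv (fun t' => X (s, t')) t, t) + f.toFun (X (s, t), t) =
      g (s, t) := by
    intro s t
    rw [(hdt s t).deriv, hg]
    have := hLH (s, t)
    simp only at this ⊢
    rw [this]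
  have e1 : (fun s => ∫ t in a..b, (L (X (s, t), deriv (fun t' => X (s, t')) t, t) +
      f.toFun (X (s, t), t))) = fun s => ∫ t in a..b, g (s, t) := by
    funext s
    exact intervalIntegral.integral_congr fun t _ => e0 s t
  rw [e1]
  have h1 := A12b_par hgc a b
  have hgd : ∀ t, deriv (fun s => g (s, t)) 0 = fderiv ℝ g (0, t) (1, 0) := by
    intro t
    have h2 : HasFDerivAt g (fderiv ℝ g (0, t)) (0, t) :=
      (hgc.differentiable one_ne_zero (0, t)).hasFDerivAt
    have h3 : HasDerivAt (fun s' : ℝ => (s', t)) ((1 : ℝ), (0 : ℝ)) 0 :=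
      (hasDerivAt_id (0 : ℝ)).prodMk (hasDerivAt_const (0 : ℝ) t)
    exact (h2.comp_hasDerivAt (0 : ℝ) h3).deriv
  have hd' : ∀ t ∈ Ioo a b, HasDerivAt (mu M L X) (fderiv ℝ g (0, t) (1, 0)) t := by
    intro t ht
    have h2 := hd t ht
    have h3 : (fun s => L (X (s, t), deriv (fun t' => X (s, t')) t, t) + f.toFun (X (s, t), t)) =
        fun s => g (s, t) := funext fun s => e0 s t
    rw [h3, hgd] at h2
    exact h2
  -- the momentum is continuous
  have hmu : ∀ t, mu M L X t = fderiv ℝ H (X (0, t), fderiv ℝ X (0, t) (0, 1), t)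
      (0, fderiv ℝ X (0, t) (1, 0), 0) := by
    intro t
    unfold mu
    rw [(hdt 0 t).deriv, (hds 0 t).deriv]
    have h2 : (fun u => L (X (0, t), fderiv ℝ M.r (X (0, t)) u, t)) =
        H ∘ (fun u : Vec d => (X (0, t), u, t)) := by
      funext u
      rw [Function.comp_apply, hH]
      simp only
      rw [hr]
    rw [h2]
    have h3 : HasFDerivAt H (fderiv ℝ H (X (0, t), fderiv ℝ X (0, t) (0, 1), t))
        (X (0, t), fderiv ℝ X (0, t) (0, 1), t) :=
      ((hHc.differentiableOn (by norm_num)).differentiableAt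
        (hSo.mem_nhds (hU (0, t)))).hasFDerivAt
    have h4 : HasFDerivAt (fun w : Vec d => (X (0, t), w, t))
        ((ContinuousLinearMap.inr ℝ (Vec d) (Vec d × ℝ)).comp
          (ContinuousLinearMap.inl ℝ (Vec d) ℝ)) (fderiv ℝ X (0, t) (0, 1)) := by
      have h5 : HasFDerivAt (fun w : Vec d => (w, t)) (ContinuousLinearMap.inl ℝ (Vec d) ℝ)
          (fderiv ℝ X (0, t) (0, 1)) := hasFDerivAt_prodMk_left _ t
      exact (hasFDerivAt_prodMk_right (X (0, t)) (fderiv ℝ X (0, t) (0, 1), t)).comp _ h5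
    rw [(HasFDerivAt.comp (fderiv ℝ X (0, t) (0, 1)) h3 h4).fderiv]
    simp
  have hcont : Continuous (mu M L X) := by
    have h2 : mu M L X = fun t => fderiv ℝ H (X (0, t), fderiv ℝ X (0, t) (0, 1), t)
      (0, fderiv ℝ X (0, t) (1, 0), 0) := funext hmu
    rw [h2]
    have h3 : ContinuousOn (fderiv ℝ H) {q | q.1 ∈ M.U} :=
      hHc.continuousOn_fderiv_of_isOpen hSo (by norm_num)
    have h0t : Continuous (fun t : ℝ => ((0 : ℝ), t)) := continuous_const.prodMk continuous_id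
    have h4 : Continuous (fun t : ℝ => (X (0, t), fderiv ℝ X (0, t) (0, 1), t)) :=
      (hX.continuous.comp h0t).prodMk ((hXt.continuous.comp h0t).prodMk continuous_id)
    have h5 : Continuous (fun t : ℝ => fderiv ℝ H (X (0, t), fderiv ℝ X (0, t) (0, 1), t)) :=
      h3.comp_continuous h4 (fun t => hU (0, t))
    refine h5.clm_apply ?_
    exact continuous_const.prodMk ((hXs.continuous.comp h0t).prodMk continuous_const)
  have hzero : ∀ t, (∀ s, X (s, t) = X (0, t)) → mu M L X t = 0 := by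
    intro t ht
    unfold mu
    have h2 : deriv (fun s => X (s, t)) 0 = 0 := by
      have h3 : (fun s => X (s, t)) = fun _ => X (0, t) := funext ht
      rw [h3, deriv_const]
    rw [h2, map_zero]
  have e2 : (∫ t in a..b, fderiv ℝ g (0, t) (1, 0)) = 0 := by
    have hci : Continuous (fun t : ℝ => fderiv ℝ g (0, t) (1, 0)) :=
      ((hgc.continuous_fderiv one_ne_zero).comp
        (continuous_const.prodMk continuous_id)).clm_apply continuous_const
    rw [intervalIntegral.integral_eq_sub_of_hasDerivAt_of_le hab.le hcont.continuousOn hd'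
      (hci.intervalIntegrable _ _), hzero a (fun s => (he s).1), hzero b (fun s => (he s).2),
      sub_zero]
  rw [e2] at h1
  exact h1

end EscW
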