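import Pool.Agent.EscW.K3
import Pool.Agent.EscMT.P4a
import Pool.Agent.EscM.A12a

set_option autoImplicit false

/-!
Project EscW, module K4: back to `M`.
Let `x`, `v` be the orbit (`EscK/KDefs.lean`, `EscapesFrom`), `l = Lt ...`. `x` is `C²` on `(0,∞)` (`EscM.contDiffOn_two`; `gu (lf l f) = gu l`; strong convexity of `l` from `EscMT.Lt_conv`, module P4a), `y t = φ (x t) ∈ M.N`. Variations: `local_var`, `var_zero`.
`deriv y t = Dφ (v t)`, `‖Dφ (v t)‖ ≥ c1 ‖v t‖` (`CutW.bounds`, `v t` is tangent since `M'.r (x t) = x t`).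
-/

noncomputable section

namespace EscW

open MeasureTheory Set Filter Topology Esc EscF EscG EscM EscMT EscF.T
open scoped ContDiff

variable {d m : ℕ} {M : Sub d} {M' : Sub m} {O K : Set (Vec m)} {G : Subgroup (Vec m ≃ₗᵢ[ℝ] Vec m)}
  {φ : Vec m → Vec d} {κ : ℝ → ℝ} {F : Vec d → Vec d → ℝ → ℝ} {L : Lag d} {B : Vec m → ℝ → ℝ} {i : Fin m}
  {len a : ℝ} {c : ℝ → ℝ → Vec m} {ρ a0 : ℝ} {Ψ Ψ₂ χ : Vec m → ℝ} {R : Vec m → Vec m} {ℓ : Vec m →L[ℝ] ℝ} {k : ℕ∞}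

theorem K4_gu_lf {E : Type*} [NormedAddCommGroup E] [InnerProductSpace ℝ E] [FiniteDimensional ℝ E]
    (l : E → E → ℝ → ℝ) (f : E → ℝ → ℝ) (x v : E) (t : ℝ) : gu (lf l f) x v t = gu l x v t := by
  unfold gu lf gradient
  rw [fderiv_add_const]

/-- the gradient in the position is continuous -/
theorem K4_gx_cont {E : Type*} [NormedAddCommGroup E] [InnerProductSpace ℝ E]
    [FiniteDimensional ℝ E] {l : E → E → ℝ → ℝ}
    (hl : ContDiff ℝ 2 (fun p : E × E × ℝ => l p.1 p.2.1 p.2.2)) :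
    Continuous (fun p : E × E × ℝ => gx l p.1 p.2.1 p.2.2) := by
  have h1 : Continuous (fderiv ℝ (fun p : E × E × ℝ => l p.1 p.2.1 p.2.2)) :=
    hl.continuous_fderiv (by norm_num)
  have h2 : ∀ p : E × E × ℝ, gx l p.1 p.2.1 p.2.2 =
      (InnerProductSpace.toDual ℝ E).symm
        ((fderiv ℝ (fun p : E × E × ℝ => l p.1 p.2.1 p.2.2) p).comp
          (ContinuousLinearMap.inl ℝ E (E × ℝ))) := by
    rintro ⟨x, v, t⟩
    have h3 : HasFDerivAt (fun p : E × E × ℝ => l p.1 p.2.1 p.2.2)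
        (fderiv ℝ (fun p : E × E × ℝ => l p.1 p.2.1 p.2.2) (x, v, t)) (x, v, t) :=
      ((hl.differentiable (by norm_num)) _).hasFDerivAt
    have h4 : HasFDerivAt (fun y : E => (y, v, t)) (ContinuousLinearMap.inl ℝ E (E × ℝ)) x :=
      hasFDerivAt_prodMk_left x (v, t)
    have h5' : HasFDerivAt (fun y => l y v t)
        ((fderiv ℝ (fun p : E × E × ℝ => l p.1 p.2.1 p.2.2) (x, v, t)).comp
          (ContinuousLinearMap.inl ℝ E (E × ℝ))) x :=
      HasFDerivAt.comp (g := fun p : E × E × ℝ => l p.1 p.2.1 p.2.2) x h3 h4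
    have h5 := h5'.fderiv
    show gradient (fun y => l y v t) x = _
    unfold gradient
    rw [h5]
  have h6 : (fun p : E × E × ℝ => gx l p.1 p.2.1 p.2.2) = fun p =>
      (InnerProductSpace.toDual ℝ E).symm
        ((fderiv ℝ (fun p : E × E × ℝ => l p.1 p.2.1 p.2.2) p).comp
          (ContinuousLinearMap.inl ℝ E (E × ℝ))) := funext h2
  rw [h6]
  exact (InnerProductSpace.toDual ℝ E).symm.continuous.comp (h1.clm_comp continuous_const)

theorem K4_two_le : (2 : WithTop ℕ∞) ≤ ((⊤ : ℕ∞) : WithTop ℕ∞) := by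
  have h : ((2 : ℕ∞) : WithTop ℕ∞) ≤ ((⊤ : ℕ∞) : WithTop ℕ∞) := WithTop.coe_le_coe.2 le_top
  exact h

/-- regularity of orbits -/
theorem K4_reg {E : Type*} [NormedAddCommGroup E] [InnerProductSpace ℝ E] [FiniteDimensional ℝ E]
    {l : E → E → ℝ → ℝ} {g : E → ℝ → ℝ} {m' t0 : ℝ}
    (hl : ContDiff ℝ 2 (fun p : E × E × ℝ => l p.1 p.2.1 p.2.2)) (hm' : 0 < m')
    (hc : ∀ x u v t, l x v t + inner ℝ (gu l x v t) (u - v) + m' / 2 * ‖u - v‖ ^ 2 ≤ l x u t)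
    (hg : ContDiff ℝ 2 (fun p : E × ℝ => g p.1 p.2)) {x v : ℝ → E} (ht0 : t0 ≤ 0)
    (hxv : ∀ t, t0 < t → HasDerivAt x (v t) t) (hvc : ContinuousOn v (Ici t0))
    (hgu : ∀ t, t0 < t → HasDerivAt (fun t => gu l (x t) (v t) t) (gx (lf l g) (x t) (v t) t) t) :
    ContDiffOn ℝ 2 x (Ioi 0) := by
  have hpos : ∀ t : ℝ, 0 < t → t0 < t := fun t ht => lt_of_le_of_lt ht0 ht
  have hls : ContDiff ℝ 2 (fun p : E × E × ℝ => lf l g p.1 p.2.1 p.2.2) := by
    have h1 : ContDiff ℝ 2 (fun p : E × E × ℝ => g p.1 p.2.2) :=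
      hg.comp (contDiff_fst.prodMk (contDiff_snd.comp contDiff_snd))
    exact hl.add h1
  have hdx : ∀ t, 0 < t → HasDerivAt x (v t) t := fun t ht => hxv t (hpos t ht)
  have hsub : Ioi (0 : ℝ) ⊆ Ici t0 := fun t ht => (hpos t ht).le
  have hxc : ContinuousOn x (Ioi 0) := fun t ht => (hdx t ht).continuousAt.continuousWithinAt
  have hq : ContinuousOn (fun t => gx (lf l g) (x t) (v t) t) (Ioi 0) := by
    have h1 : ContinuousOn (fun t : ℝ => (x t, v t, t)) (Ioi 0) :=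
      hxc.prodMk ((hvc.mono hsub).prodMk continuousOn_id)
    exact (K4_gx_cont hls).comp_continuousOn h1
  exact contDiffOn_two hl hm' hc hdx (hvc.mono hsub) hq (fun t ht => hgu t (hpos t ht))

/-- the velocity of a curve in `M'` is tangent -/
theorem K4_tangent (M' : Sub m) {x : ℝ → Vec m} {t : ℝ} {w : Vec m}
    (hx : ∀ᶠ s in 𝓝 t, x s ∈ M'.N) (hd : HasDerivAt x w t) : IsTangent M' (x t) w := by
  have hxt : x t ∈ M'.N := hx.self_of_nhds
  have h0 : DifferentiableAt ℝ M'.r (x t) :=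
    ((M'.smooth.contDiffAt (M'.isOpen.mem_nhds (M'.sub hxt))).differentiableAt (by norm_num))
  have h1 : HasDerivAt (fun s => M'.r (x s)) (fderiv ℝ M'.r (x t) w) t :=
    h0.hasFDerivAt.comp_hasDerivAt t hd
  have h2 : HasDerivAt (fun s => M'.r (x s)) w t :=
    hd.congr_of_eventuallyEq (by
      filter_upwards [hx] with s hs
      exact r_self M' hs)
  exact h1.unique h2

theorem backW (hk : 2 ≤ k) (hC : CutW M' O K B ρ a0 Ψ Ψ₂ ℓ) (hT : TubeW M' O K ρ a0 χ R)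
    (hφ : IsChart M M' O G φ) (hL : IsNearT M κ F L) {ρ' Λ Λ₁ m₁ : ℝ} (hρ : 0 < ρ') (hle : ρ' ≤ ρ)
    (hΛ : 0 < Λ) (hLS : LagS (bas m) M'.N M'.r (5 * ρ) m₁ (L1 φ L Ψ Λ₁)) (f : EscM.Pot M k)
    (h : YW M' K a0 k) (hf : ContDiff ℝ 2 (fun p : Vec m × ℝ => fw φ χ R f h.1 p.1 p.2)) {x0 : Vec m}
    (he : EscK.EscapesFrom (Lt M'.N M'.r ρ' Λ (L1 φ L Ψ Λ₁)) (fw φ χ R f h.1) x0 K) :
    EscapesToInfinity M (fun q => L q + f.toFun (q.1, q.2.2)) := by
  obtain ⟨t0, x, v, ht0, -, -, hxv, hvc, hgu, hxK, hvt⟩ := he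
  have hpos : ∀ t : ℝ, 0 < t → t0 < t := fun t ht => lt_of_le_of_lt ht0 ht
  have hρC := hC.ρ_pos
  have hR : 2 * ρ' < 5 * ρ := by linarith
  have hKO : ∀ y ∈ K, y ∈ M'.N ∩ O := fun y hy =>
    ⟨hC.subK hy, hC.room y (by
      rw [Metric.infDist_zero_of_mem hy]
      linarith [hC.a0_pos])⟩
  have hl : ContDiff ℝ 2 (fun p : Vec m × Vec m × ℝ =>
      Lt M'.N M'.r ρ' Λ (L1 φ L Ψ Λ₁) p.1 p.2.1 p.2.2) := Lt_smooth hC.tb hLS hρ hR Λ
  obtain ⟨m', hm', hconv⟩ := Lt_conv hC.tb hLS hρ hR hΛ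
  have hdx : ∀ t, 0 < t → HasDerivAt x (v t) t := fun t ht => hxv t (hpos t ht)
  have hx2 : ContDiffOn ℝ 2 x (Ioi 0) := K4_reg hl hm' hconv hf ht0 hxv hvc hgu
  have hxO : ∀ t, 0 < t → x t ∈ M'.N ∩ O := fun t ht => hKO _ (hxK t (hpos t ht).le)
  have hφd : ∀ y ∈ O, DifferentiableAt ℝ φ y := fun y hy =>
    (hφ.smooth.contDiffAt (hφ.isOpen.mem_nhds hy)).differentiableAt (by norm_num)
  have hyd : ∀ t, 0 < t → HasDerivAt (fun t => φ (x t)) (fderiv ℝ φ (x t) (v t)) t := fun t ht =>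
    (hφd _ (hxO t ht).2).hasFDerivAt.comp_hasDerivAt t (hdx t ht)
  refine ⟨fun t => φ (x t), ⟨?_, fun t ht => hφ.maps _ (hxO t ht), ?_⟩, ?_⟩
  · exact (hφ.smooth.of_le (K4_two_le)).comp hx2 fun t ht => (hxO t ht).2
  · intro a b X ha hab hX hXN hX0 hXe
    refine var_zero hk hL f hab hX hXN (fun s => ⟨?_, ?_⟩) ?_
    · rw [(hXe s).1, (hXe 0).1]
    · rw [(hXe s).2, (hXe 0).2]
    · intro t ht
      have htp : 0 < t := ha.trans ht.1
      exact local_var hC hT hφ hL hρ hle f h rfl hl hf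
        (by
          filter_upwards [lt_mem_nhds htp] with s hs
          exact hdx s hs)
        (by
          filter_upwards [lt_mem_nhds htp] with s hs
          exact hxK s (hpos s hs).le)
        (hgu t (hpos t htp)) hX hXN
        (by
          filter_upwards [Ioo_mem_nhds ht.1 ht.2] with s hs
          exact hX0 s ⟨hs.1.le, hs.2.le⟩)
  · obtain ⟨c1, c2, hc1, -, hb⟩ := hC.bounds hφ
    have h1 : Tendsto (fun t => c1 * ‖v t‖) atTop atTop := hvt.const_mul_atTop hc1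
    refine tendsto_atTop_mono' _ ?_ h1
    filter_upwards [eventually_gt_atTop (0 : ℝ)] with t ht
    rw [(hyd t ht).deriv]
    have h2 : IsTangent M' (x t) (v t) := K4_tangent M' (by
      filter_upwards [lt_mem_nhds ht] with s hs
      exact (hxO s hs).1) (hdx t ht)
    exact (hb (x t) (hxO t ht).1 (by
      rw [Metric.infDist_zero_of_mem (hxK t (hpos t ht).le)]
      linarith [hC.a0_pos]) (v t) h2).1

end EscW
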