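import Pool.Agent.EscW.SDefs
import Pool.Agent.EscM.N1
import Pool.Agent.EscW.H2

set_option autoImplicit false
set_option linter.unusedSectionVars false

/-!
Project EscW, module S1: periodicity of `f ∘ φ`, the support of the cut-off `χ`, a cut-off near the room which is
invariant under the group.
-/

noncomputable section

namespace EscW

open MeasureTheory Set Filter Topology Esc EscF EscG EscM EscMT EscF.T
open scoped ContDiff

variable {d m : ℕ} {k : ℕ∞} {M : Sub d} {M' : Sub m} {O K : Set (Vec m)}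
  {G : Subgroup (Vec m ≃ₗᵢ[ℝ] Vec m)} {φ : Vec m → Vec d} {ρ a0 : ℝ} {χ : Vec m → ℝ} {R : Vec m → Vec m}
  {Θ : Vec m → ℝ}

theorem phi_vz (hC : IsChart M M' O G φ) {x : Vec m} (hx : x ∈ M'.N ∩ O) (n : Fin m → ℤ) :
    ∃ l : Fin d → ℤ, φ (x + vz n) = φ x + vz l :=
  (hC.fibre x hx (x + vz n) ⟨M'.perN n x hx.1, hC.perO n x hx.2⟩).2 ⟨1, G.one_mem, n, rfl⟩

theorem phi_P (hC : IsChart M M' O G φ) {x : Vec m} (hx : x ∈ M'.N ∩ O) {P : Vec m ≃ₗᵢ[ℝ] Vec m} (hP : P ∈ G) :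
    ∃ l : Fin d → ℤ, φ (P x) = φ x + vz l :=
  (hC.fibre x hx (P x) ⟨hC.mapsN P hP x hx.1, hC.mapsO P hP x hx.2⟩).2
    ⟨P, hP, 0, by rw [vz_zero', add_zero]⟩

theorem S1_f (f : EscM.Pot M k) {y : Vec d} (hy : y ∈ M.N) (l : Fin d → ℤ) (t : ℝ) :
    f.toFun (y + vz l, t) = f.toFun (y, t) := by
  have h1 := f.periodic l 0 y (M.sub hy) t
  rw [Int.cast_zero, add_zero] at h1
  exact h1

theorem f_phi_vz (hC : IsChart M M' O G φ) (f : EscM.Pot M k) {x : Vec m} (hx : x ∈ M'.N ∩ O)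
    (n : Fin m → ℤ) (t : ℝ) : f.toFun (φ (x + vz n), t) = f.toFun (φ x, t) := by
  obtain ⟨l, hl⟩ := phi_vz hC hx n
  rw [hl]
  exact S1_f f (hC.maps x hx) l t

theorem f_phi_P (hC : IsChart M M' O G φ) (f : EscM.Pot M k) {x : Vec m} (hx : x ∈ M'.N ∩ O)
    {P : Vec m ≃ₗᵢ[ℝ] Vec m} (hP : P ∈ G) (t : ℝ) : f.toFun (φ (P x), t) = f.toFun (φ x, t) := by
  obtain ⟨l, hl⟩ := phi_P hC hx hP
  rw [hl]
  exact S1_f f (hC.maps x hx) l t

/-- points where `χ` is not zero -/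
theorem mem_of_chi (hT : TubeW M' O K ρ a0 χ R) {x : Vec m} (hx : χ x ≠ 0) :
    Metric.infDist x M'.N < 4 * ρ ∧ R x = M'.r x ∧ R x ∈ M'.N ∩ O ∧ Metric.infDist (R x) K < 3 * a0 := by
  have h1 : Metric.infDist x M'.N < 4 * ρ := by
    by_contra h
    exact hx (hT.zero x (not_lt.1 h))
  have h2 : R x = M'.r x := hT.R_eq x h1.le
  have h3 : Metric.infDist (M'.r x) K < 3 * a0 := by
    by_contra h
    exact hx (hT.zero' x h1.le (not_lt.1 h))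
  have h4 : M'.r x ∈ M'.N := M'.mem x (hT.tube x (by linarith [hT.ρ_pos]))
  have h5 : M'.r x ∈ O := hT.room _ (by linarith [hT.a0_pos])
  rw [h2]
  exact ⟨h1, rfl, ⟨h4, h5⟩, h3⟩

/-- `1 - ∏ P ∈ G, (1 - θ (P x))` for a cut-off `θ` near `K` -/
theorem exists_cutG (hC : IsChart M M' O G φ) (hT : TubeW M' O K ρ a0 χ R) : ∃ Θ, CutG K G a0 Θ := by
  classical
  obtain ⟨θ, h1, h2, h3, h4, h5⟩ := exists_cut0 hT.closed hT.perK hT.ne (p := a0) (q := 2 * a0)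
    hT.a0_pos.le (by linarith [hT.a0_pos])
  have hfin : Finite G := hC.finite
  have : Fintype G := Fintype.ofFinite G
  refine ⟨fun x => 1 - ∏ P : G, (1 - θ ((P : Vec m ≃ₗᵢ[ℝ] Vec m) x)), ?_, ?_, ?_, ?_, ?_, ?_⟩
  · refine contDiff_const.sub (contDiff_prod fun P _ => contDiff_const.sub ?_)
    exact h1.comp (P : Vec m ≃ₗᵢ[ℝ] Vec m).contDiff
  · intro n x
    have e : ∀ P : G, θ ((P : Vec m ≃ₗᵢ[ℝ] Vec m) (x + vz n)) = θ ((P : Vec m ≃ₗᵢ[ℝ] Vec m) x) := by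
      intro P
      obtain ⟨n', hn'⟩ := hC.int P P.2 n
      rw [map_add, hn', h2]
    simp only [e]
  · intro P hP x
    have e : ∏ Q : G, (1 - θ ((Q : Vec m ≃ₗᵢ[ℝ] Vec m) (P x))) =
        ∏ Q : G, (1 - θ ((Q : Vec m ≃ₗᵢ[ℝ] Vec m) x)) := by
      refine Fintype.prod_equiv (Equiv.mulRight (⟨P, hP⟩ : G)) _ _ fun Q => ?_
      rfl
    simp only [e]
  · intro x
    have e1 : 0 ≤ ∏ P : G, (1 - θ ((P : Vec m ≃ₗᵢ[ℝ] Vec m) x)) :=
      Finset.prod_nonneg fun P _ => by linarith [(h3 ((P : Vec m ≃ₗᵢ[ℝ] Vec m) x)).2]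
    have e2 : ∏ P : G, (1 - θ ((P : Vec m ≃ₗᵢ[ℝ] Vec m) x)) ≤ 1 :=
      Finset.prod_le_one (fun P _ => by linarith [(h3 ((P : Vec m ≃ₗᵢ[ℝ] Vec m) x)).2])
        (fun P _ => by linarith [(h3 ((P : Vec m ≃ₗᵢ[ℝ] Vec m) x)).1])
    constructor <;> linarith
  · intro x hx
    have e : ∏ P : G, (1 - θ ((P : Vec m ≃ₗᵢ[ℝ] Vec m) x)) = 0 := by
      refine Finset.prod_eq_zero (Finset.mem_univ (1 : G)) ?_
      have e1 : ((1 : G) : Vec m ≃ₗᵢ[ℝ] Vec m) x = x := rfl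
      rw [e1, h4 x hx, sub_self]
    simp only [e, sub_zero]
  · intro x hx
    have e : ∏ P : G, (1 - θ ((P : Vec m ≃ₗᵢ[ℝ] Vec m) x)) = 1 := by
      refine Finset.prod_eq_one fun P _ => ?_
      rw [h5 _ (hx P P.2), sub_zero]
    simp only [e, sub_self]

end EscW
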