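import Pool.Agent.EscW.SDefs
import Pool.Agent.EscW.S1
import Pool.Agent.EscM.N2
import Pool.Agent.EscM.N5a

set_option autoImplicit false

/-!
Project EscW (MP_6acca1_an), module S2: the extended potential is periodic of class `C^2`, and depends continuously
on the two parts.
-/

noncomputable section

namespace EscW

open MeasureTheory Set Filter Topology Esc EscF EscG EscM EscMT EscF.T
open scoped ContDiff

variable {d m : ℕ} {k : ℕ∞} {M : Sub d} {M' : Sub m} {O K : Set (Vec m)}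
  {G : Subgroup (Vec m ≃ₗᵢ[ℝ] Vec m)} {φ : Vec m → Vec d} {ρ a0 : ℝ} {χ : Vec m → ℝ} {R : Vec m → Vec m}
  {Θ : Vec m → ℝ}

/-- every point has a neighbourhood on which `χ` vanishes, or `R x` lies in the domain of the chart -/
theorem S2_alt (hT : TubeW M' O K ρ a0 χ R) (x : Vec m) :
    (∀ᶠ y in 𝓝 x, χ y = 0) ∨ R x ∈ M'.N ∩ O := by
  have hρ := hT.ρ_pos
  have ha := hT.a0_pos
  have hc : Continuous fun y : Vec m => Metric.infDist y M'.N := Metric.continuous_infDist_pt M'.N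
  rcases lt_or_ge (4 * ρ) (Metric.infDist x M'.N) with h1 | h1
  · left
    filter_upwards [hc.continuousAt.eventually (lt_mem_nhds h1)] with y hy
    exact hT.zero y hy.le
  · have hx : x ∈ M'.U := hT.tube x (by linarith)
    have hr : R x = M'.r x := hT.R_eq x h1
    rcases lt_or_ge (3 * a0) (Metric.infDist (M'.r x) K) with h2 | h2
    · left
      have hcr : ContinuousAt (fun y : Vec m => Metric.infDist (M'.r y) K) x :=
        (Metric.continuous_infDist_pt K).continuousAt.comp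
          ((M'.smooth.continuousOn).continuousAt (M'.isOpen.mem_nhds hx))
      filter_upwards [hcr.eventually (lt_mem_nhds h2)] with y hy
      rcases le_or_gt (Metric.infDist y M'.N) (4 * ρ) with h3 | h3
      · exact hT.zero' y h3 hy.le
      · exact hT.zero y h3.le
    · right
      rw [hr]
      exact ⟨M'.mem x hx, hT.room _ (by linarith)⟩

theorem S2_smooth (hk : 2 ≤ k) (hC : IsChart M M' O G φ) (hT : TubeW M' O K ρ a0 χ R) (f : EscM.Pot M k) :
    ContDiff ℝ 2 (fun p : Vec m × ℝ => χ p.1 * f.toFun (φ (R p.1), p.2)) := by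
  have hk' : (2 : WithTop ℕ∞) ≤ (k : WithTop ℕ∞) := N5a_two hk
  have h2i : (2 : WithTop ℕ∞) ≤ ((⊤ : ℕ∞) : WithTop ℕ∞) := N5a_two le_top
  rw [contDiff_iff_contDiffAt]
  rintro ⟨x, t⟩
  rcases S2_alt hT x with h1 | h1
  · have hev : (fun p : Vec m × ℝ => χ p.1 * f.toFun (φ (R p.1), p.2)) =ᶠ[𝓝 (x, t)] fun _ => (0 : ℝ) := by
      have h2 : ∀ᶠ p : Vec m × ℝ in 𝓝 (x, t), χ p.1 = 0 :=
        (continuous_fst.tendsto (x, t)).eventually h1
      filter_upwards [h2] with p hp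
      rw [hp, zero_mul]
    exact contDiffAt_const.congr_of_eventuallyEq hev
  · have hU : φ (R x) ∈ M.U := M.sub (hC.maps _ h1)
    have hopen : IsOpen {q : Vec d × ℝ | q.1 ∈ M.U} := M.isOpen.preimage continuous_fst
    have hf : ContDiffAt ℝ 2 f.toFun (φ (R x), t) :=
      ((f.contDiff (φ (R x), t) hU).contDiffAt (hopen.mem_nhds hU)).of_le hk'
    have hφ : ContDiffAt ℝ 2 φ (R x) := (hC.smooth.contDiffAt (hC.isOpen.mem_nhds h1.2)).of_le h2i
    have hR : ContDiff ℝ 2 (fun p : Vec m × ℝ => R p.1) := (hT.sR.of_le h2i).comp contDiff_fst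
    have hφR : ContDiffAt ℝ 2 (fun p : Vec m × ℝ => φ (R p.1)) (x, t) :=
      ContDiffAt.comp (x := (x, t)) (f := fun p : Vec m × ℝ => R p.1) (g := φ) hφ hR.contDiffAt
    have hpair : ContDiffAt ℝ 2 (fun p : Vec m × ℝ => (φ (R p.1), p.2)) (x, t) :=
      hφR.prodMk contDiffAt_snd
    have hfc : ContDiffAt ℝ 2 (fun p : Vec m × ℝ => f.toFun (φ (R p.1), p.2)) (x, t) :=
      ContDiffAt.comp (x := (x, t)) (f := fun p : Vec m × ℝ => (φ (R p.1), p.2)) (g := f.toFun) hf hpair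
    have hχ : ContDiff ℝ 2 (fun p : Vec m × ℝ => χ p.1) := (hT.sχ.of_le h2i).comp contDiff_fst
    exact hχ.contDiffAt.mul hfc

theorem S2_per (hC : IsChart M M' O G φ) (hT : TubeW M' O K ρ a0 χ R) (f : EscM.Pot M k)
    (n : Fin m → ℤ) (x : Vec m) (t : ℝ) : extw φ χ R f (x + vz n) t = extw φ χ R f x t := by
  unfold extw
  rw [hT.perχ, hT.perR]
  by_cases hx : χ x = 0
  · rw [hx, zero_mul, zero_mul]
  · rw [f_phi_vz hC f (mem_of_chi hT hx).2.2.1 n t]

theorem fw_pt (hk : 2 ≤ k) (hC : IsChart M M' O G φ) (hT : TubeW M' O K ρ a0 χ R) (f : EscM.Pot M k)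
    (h : EscF.T.Pot m k) : Pt (bas m) (fw φ χ R f h) := by
  have hk' : (2 : WithTop ℕ∞) ≤ (k : WithTop ℕ∞) := N5a_two hk
  refine ⟨?_, ?_, ?_⟩
  · exact (S2_smooth hk hC hT f).add (h.contDiff.of_le hk')
  · intro i x t
    have h1 := S2_per hC hT f (Pi.single i 1) x t
    have h2 := h.periodic (Pi.single i 1) 0 x t
    rw [Int.cast_zero, add_zero] at h2
    unfold fw
    rw [bas_apply, h1, h2]
  · intro x t
    have h1 := N5a_per f 0 1 (φ (R x)) t
    have h2 := h.periodic 0 1 x t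
    rw [Int.cast_one, vz_zero', add_zero] at h1 h2
    unfold fw extw
    rw [h1, h2]

theorem fw_ball (hC : IsChart M M' O G φ) (hT : TubeW M' O K ρ a0 χ R) (f : EscM.Pot M k)
    (h : YW M' K a0 k) {e : ℝ} (he : 0 < e) :
    {p : EscM.Pot M k × YW M' K a0 k | ∀ x t, |fw φ χ R f h.1 x t - fw φ χ R p.1 p.2.1 x t| ≤ e} ∈
      𝓝 (f, h) := by
  have _hC := hC
  have h1 := pot_ball f (half_pos he)
  have h2 := EscF.T.mem_nhds_zero h.1 (half_pos he)
  have h3 : {h' : YW M' K a0 k | ∀ q, |h.1.toFun q - h'.1.toFun q| ≤ e / 2} ∈ 𝓝 h :=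
    continuous_subtype_val.continuousAt.preimage_mem_nhds h2
  refine mem_of_superset (prod_mem_nhds h1 h3) ?_
  rintro ⟨f', h'⟩ ⟨hf, hh⟩ x t
  have h4 := hf (φ (R x), t)
  have h5 := hh (x, t)
  have h6 := hT.χ01 x
  unfold fw extw
  have h7 : χ x * f.toFun (φ (R x), t) + h.1.toFun (x, t) -
      (χ x * f'.toFun (φ (R x), t) + h'.1.toFun (x, t)) =
      χ x * (f.toFun (φ (R x), t) - f'.toFun (φ (R x), t)) + (h.1.toFun (x, t) - h'.1.toFun (x, t)) := by ring
  change |χ x * f.toFun (φ (R x), t) + h.1.toFun (x, t) -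
    (χ x * f'.toFun (φ (R x), t) + h'.1.toFun (x, t))| ≤ e
  rw [h7]
  refine (abs_add_le _ _).trans ?_
  have h8 : |χ x * (f.toFun (φ (R x), t) - f'.toFun (φ (R x), t))| ≤ 1 * (e / 2) := by
    rw [abs_mul, abs_of_nonneg h6.1]
    exact mul_le_mul h6.2 h4 (abs_nonneg _) (by norm_num)
  linarith

end EscW
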