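import Pool.Agent.EscW.X2
import Pool.Agent.EscMT.P8

set_option autoImplicit false

/-!
Project EscW, module X3: parameters for which everything happens near `K`.
As `EscMT/P8.lean` (`near_small`); in addition `r x ∈ K` for `x ∈ Near`: if `x + v ∈ D.Mg t (p.ηc / 2) (2 p.κ)` then `D.j t (c 0 t) (x + v) ≤ D.Us + 2 p.κ < min a (√Λ / (2 √A) ρ)`: `exit_j`; if `x + v` is near a room,
`Metric.infDist (x + v + v') (range fun σ => c σ t) < p.ηc / 2`: `D.j t (c σ t) (x + v + v') ≤ 2 D.MF p.ηc` is small (`EscT.j_lip`): `exit_j`. `K` and `r` are equivariant under the lattice.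
-/

noncomputable section

namespace EscW

open MeasureTheory Set Filter Topology Esc EscF EscG EscM EscMT
open scoped ContDiff

variable {ι : Type} [Fintype ι] {E : Type*} [NormedAddCommGroup E] [InnerProductSpace ℝ E]
  [FiniteDimensional ℝ E] {β : Module.Basis ι ℝ E} {N : Set E} {r : E → E} {R : ℝ}
variable {F : E → E → ℝ → ℝ} {mF MF A : ℝ} {κ : ℝ → ℝ} {B : E → ℝ → ℝ} {k0 : ι} {len : ℝ}
  {c c' ct : ℝ → ℝ → E} {ℓ : E →L[ℝ] ℝ} {ρ C Λ mF' MF' : ℝ}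

omit [Fintype ι] [FiniteDimensional ℝ E] in
theorem X3_K_Lam {K : Set E} (hper : ∀ i x, x + β i ∈ K ↔ x ∈ K) {w : E}
    (hw : w ∈ Submodule.span ℤ (Set.range β)) (x : E) : x + w ∈ K ↔ x ∈ K := by
  let S : AddSubgroup E :=
    { carrier := {w | ∀ x, x + w ∈ K ↔ x ∈ K}
      add_mem' := by
        intro a b ha hb x
        rw [← add_assoc]
        exact (hb _).trans (ha _)
      zero_mem' := by
        intro x
        rw [add_zero]
      neg_mem' := by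
        intro a ha x
        have h1 := ha (x + -a)
        rw [neg_add_cancel_right] at h1
        exact h1.symm }
  have h1 : Submodule.span ℤ (Set.range β) ≤ AddSubgroup.toIntSubmodule S := by
    rw [Submodule.span_le]
    rintro _ ⟨i, rfl⟩
    exact fun x => hper i x
  exact h1 hw x

theorem X3_near {d : ℕ} {D : EscT.GT ι d E} (hD : D.Ok) {N : Set E} {Pr : E → Prop} {δ δ0 m : ℝ}
    (hδ : 0 < δ) (hδ0 : 0 < δ0) (hm : D.Us < m)
    (htube : ∀ t x, (Metric.infDist x (D.Z t) ≤ δ0 ∨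
      D.j t (D.q t) x + D.j t x (D.q t + D.g) ≤ D.Us + δ0) → Metric.infDist x N < δ)
    (hex : ∀ t, ∀ z ∈ D.Z t, ∀ x, D.j t z x < m → Pr x)
    (hq : ∀ t, D.q t ∈ D.Z t)
    (hinv : ∀ v ∈ D.Lam, ∀ x, Metric.infDist (x + v) N = Metric.infDist x N)
    (hPr : ∀ v ∈ D.Lam, ∀ x, Pr (x + v) → Pr x) :
    ∃ p : GP, EscT.POk D p ∧ 8 * p.ηc ≤ δ ∧
      (∀ t, EscT.Near D p t ⊆ {x | Metric.infDist x N < δ ∧ Pr x}) ∧
      ∃ x0 ∈ (EscT.D0 D).C p, x0 ∈ D.Z 0 := by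
  have h0 := hD.toOk0
  have hMF : 0 < D.MF := (h0.fr0 0).fins.mF_pos.trans_le (h0.fr0 0).fins.mF_le
  have hUs := EscT.Us_pos hD
  have hm0 : 0 < m := hUs.trans hm
  obtain ⟨δ1, hδ1, e1, e2, e3, e4⟩ : ∃ δ1 : ℝ, 0 < δ1 ∧ 8 * δ1 ≤ δ ∧ 2 * δ1 ≤ δ0 ∧
      D.Us + 2 * δ1 < m ∧ D.MF * δ1 < m := by
    refine ⟨min (min (δ / 8) (δ0 / 2)) (min ((m - D.Us) / 4) (m / (2 * D.MF))), ?_, ?_, ?_, ?_, ?_⟩
    · have h1 : 0 < m - D.Us := by linarith
      exact lt_min (lt_min (by positivity) (by positivity)) (lt_min (by positivity) (by positivity))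
    · have h1 := (min_le_left (min (δ / 8) (δ0 / 2)) (min ((m - D.Us) / 4) (m / (2 * D.MF)))).trans
        (min_le_left _ _)
      linarith
    · have h1 := (min_le_left (min (δ / 8) (δ0 / 2)) (min ((m - D.Us) / 4) (m / (2 * D.MF)))).trans
        (min_le_right _ _)
      linarith
    · have h1 := (min_le_right (min (δ / 8) (δ0 / 2)) (min ((m - D.Us) / 4) (m / (2 * D.MF)))).trans
        (min_le_left _ _)
      linarith
    · have h1 := (min_le_right (min (δ / 8) (δ0 / 2)) (min ((m - D.Us) / 4) (m / (2 * D.MF)))).trans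
        (min_le_right _ _)
      have h2 := mul_le_mul_of_nonneg_left h1 hMF.le
      have h3 : D.MF * (m / (2 * D.MF)) = m / 2 := by
        field_simp
      linarith
  obtain ⟨p, hp, hηc, hκ⟩ := EscT.exists_par hD hδ1
  refine ⟨p, hp, by linarith, ?_, ?_⟩
  · rintro t x ⟨v, hv, hx⟩
    rcases hx with hx | hx
    · have h1 : ∃ v' ∈ D.Lam, Metric.infDist (x + v + v') (D.Z t) < p.ηc / 2 := by
        by_contra hcon
        push Not at hcon
        exact hx hcon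
      obtain ⟨v', hv', h2⟩ := h1
      have h3 := htube t (x + v + v') (Or.inl (by linarith [hp.ηc_pos]))
      rw [hinv v' hv', hinv v hv] at h3
      refine ⟨h3, ?_⟩
      obtain ⟨z, hz, hzd⟩ := (Metric.infDist_lt_iff ⟨D.q t, hq t⟩).1 h2
      have h4 := EscT.j_lip h0 t z (x + v + v')
      rw [← dist_eq_norm] at h4
      have h5 : 2 * D.MF * dist (x + v + v') z ≤ D.MF * δ1 := by
        have h6 : 2 * dist (x + v + v') z ≤ δ1 := by linarith
        calc 2 * D.MF * dist (x + v + v') z = D.MF * (2 * dist (x + v + v') z) := by ring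
          _ ≤ D.MF * δ1 := mul_le_mul_of_nonneg_left h6 hMF.le
      exact hPr v hv _ (hPr v' hv' _ (hex t z hz _ (by linarith)))
    · have h2 : D.j t (D.q t) (x + v) + D.j t (x + v) (D.q t + D.g) ≤ D.Us + 2 * p.κ := hx.2
      have h3 := htube t (x + v) (Or.inr (by linarith))
      rw [hinv v hv] at h3
      refine ⟨h3, ?_⟩
      have h4 := EscT.j_nonneg h0 t (x + v) (D.q t + D.g)
      exact hPr v hv _ (hex t _ (hq t) _ (by linarith))
  · have h1 : D.q 0 ∈ D.Rm 0 p.ηc := by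
      show Metric.infDist (D.q 0) (D.Z 0) ≤ p.ηc
      rw [Metric.infDist_zero_of_mem (hq 0)]
      exact hp.ηc_pos.le
    obtain ⟨n, hn⟩ := hp.bnd 0 (D.q 0) (Or.inl h1) 0 (by norm_num)
    rw [Int.cast_zero, zero_smul, add_zero] at hn
    have hr : D.q 0 + lv D.b n ∈ D.Z 0 := (h0.fr0 0).Z_J n (D.q 0) (hq 0)
    refine ⟨D.q 0 + lv D.b n, ⟨?_, ?_⟩, hr⟩
    · show Metric.infDist _ (D.Z 0) ≤ p.η1
      rw [Metric.infDist_zero_of_mem hr]
      exact hp.η1_pos.le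
    · rw [Metric.mem_closedBall, dist_zero_right]
      exact hn

theorem near_smallW (h : ExtP β N r R F mF MF A κ B k0 len c c' ct ℓ ρ C Λ)
    (hf : ∀ t, Fins β (fun x v => Fs N r ρ Λ κ F x v t) mF' MF') {K : Set E} {a : ℝ}
    (hK : ExitK β N F B c K a) {A' : ℝ} {g : E}
    (hD : (EscT.gdT β (Fs N r ρ Λ κ F) mF' MF' A' κ (Bs N r ρ B ℓ) k0 len c g).Ok)
    (hU : (EscT.gdT β (Fs N r ρ Λ κ F) mF' MF' A' κ (Bs N r ρ B ℓ) k0 len c g).Us <
      √Λ / (2 * √A) * ρ)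
    (hUa : (EscT.gdT β (Fs N r ρ Λ κ F) mF' MF' A' κ (Bs N r ρ B ℓ) k0 len c g).Us < a)
    {δ : ℝ} (hδ : 0 < δ) :
    ∃ p : GP, EscT.POk (EscT.gdT β (Fs N r ρ Λ κ F) mF' MF' A' κ (Bs N r ρ B ℓ) k0 len c g) p ∧
      8 * p.ηc ≤ δ ∧
      (∀ t, EscT.Near (EscT.gdT β (Fs N r ρ Λ κ F) mF' MF' A' κ (Bs N r ρ B ℓ) k0 len c g) p t ⊆
        {x | Metric.infDist x N < δ ∧ r x ∈ K}) ∧
      ∃ x0 ∈ (EscT.D0 (EscT.gdT β (Fs N r ρ Λ κ F) mF' MF' A' κ (Bs N r ρ B ℓ) k0 len c g)).C p,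
        x0 ∈ K := by
  obtain ⟨δ0, hδ0, htube⟩ := h.tube hf hD hU hδ
  have hR : 3 * ρ < R := by linarith [h.ρ_pos, h.ρ_lt]
  obtain ⟨p, hp, h1, h2, x0, hx0, h3⟩ := X3_near hD (N := N)
    (Pr := fun x => Metric.infDist x N < 3 * ρ ∧ r x ∈ K) hδ hδ0 (lt_min hUa hU) htube
    (by
      rintro t _ ⟨σ, rfl⟩ x hx
      refine exit_j h hf hK hD (σ := σ) (t := t) (w := 0) (x := x) (zero_mem _) ?_
      rw [add_zero]
      exact hx)
    (fun t => ⟨0, rfl⟩) (fun v hv x => h.tb.infDist_Lam hv x)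
    (by
      rintro v hv x ⟨h1, h2⟩
      have hv' : v ∈ Submodule.span ℤ (Set.range β) := hv
      rw [h.tb.infDist_Lam hv'] at h1
      rw [h.tb.r_Lam hv' (h1.trans hR), X3_K_Lam hK.per hv'] at h2
      exact ⟨h1, h2⟩)
  obtain ⟨σ, rfl⟩ := h3
  exact ⟨p, hp, h1, fun t x hx => ⟨(h2 t hx).1, (h2 t hx).2.2⟩, c σ 0, hx0, hK.mem σ 0⟩

end EscW
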