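import Pool.Agent.EscW.X0
import Pool.Agent.EscW.X3
import Pool.Agent.EscMT.P9

set_option autoImplicit false

/-!
Project EscW, module X4: the gap data.
`ExitK`, `SecK` from `X0`. As `EscMT/P9.lean`, with `D.Us < a` from `secUs` (after the choice of `Λ` with `a < √Λ / (2 √A) ρ`: then both conditions of `near_smallW` hold) instead of `secBound`.
-/

noncomputable section

namespace EscW

open MeasureTheory Set Filter Topology Esc EscF EscG EscM EscMT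
open scoped ContDiff

variable {ι : Type} [Fintype ι] {E : Type*} [NormedAddCommGroup E] [InnerProductSpace ℝ E]
  [FiniteDimensional ℝ E] {β : Module.Basis ι ℝ E} {N : Set E} {r : E → E} {R : ℝ}
variable {F : E → E → ℝ → ℝ} {mF MF A m M : ℝ} {κ : ℝ → ℝ} {B : E → ℝ → ℝ} {k0 : ι} {len : ℝ}
  {c c' ct : ℝ → ℝ → E} {L : E → E → ℝ → ℝ} {ρ : ℝ}

omit [Fintype ι] [FiniteDimensional ℝ E] in
/-- a lattice vector which is not a multiple of `β k0` needs a second basis vector -/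
theorem X4_exists_ne {v0 : E} (hm : v0 ∈ Submodule.span ℤ (Set.range β))
    (hn : ∀ k : ℤ, v0 ≠ (k : ℝ) • β k0) : ∃ k1 : ι, k1 ≠ k0 := by
  by_contra hcon
  push Not at hcon
  have h1 : Set.range β ⊆ {β k0} := by
    rintro _ ⟨i, rfl⟩
    rw [hcon i]
    exact Set.mem_singleton _
  have h2 := Submodule.span_mono (R := ℤ) h1 hm
  obtain ⟨k, hk⟩ := Submodule.mem_span_singleton.mp h2
  refine hn k ?_
  rw [← hk]
  exact (Int.cast_smul_eq_zsmul ℝ k (β k0)).symm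

/-- the choice of the weight outside -/
theorem X4_weight (a C : ℝ) {A ρ : ℝ} (hA : 1 ≤ A) (hρ : 0 < ρ) :
    ∃ Λ : ℝ, 0 < Λ ∧ 4 * C ^ 2 < Λ ∧ a < √Λ / (2 * √A) * ρ := by
  have hsA : 0 < √A := Real.sqrt_pos.2 (by linarith)
  set T : ℝ := 2 * √A * |a| / ρ + 1 with hT
  have hT0 : 0 < T := by positivity
  refine ⟨4 * C ^ 2 + T ^ 2, by positivity, ?_, ?_⟩
  · have : (0 : ℝ) < T ^ 2 := by positivity
    linarith
  · have h1 : T ≤ √(4 * C ^ 2 + T ^ 2) := by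
      refine Real.le_sqrt_of_sq_le ?_
      have : (0 : ℝ) ≤ 4 * C ^ 2 := by positivity
      linarith
    have h2 : T / (2 * √A) * ρ ≤ √(4 * C ^ 2 + T ^ 2) / (2 * √A) * ρ := by
      gcongr
    have h3 : T / (2 * √A) * ρ = |a| + ρ / (2 * √A) := by
      rw [hT]
      field_simp
    rw [h3] at h2
    have h4 := le_abs_self a
    have h5 : 0 < ρ / (2 * √A) := by positivity
    linarith

theorem exists_dataW (h : Tb β N r R) (hF : FinsP β N r F mF MF A κ)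
    (hc : CalP β N r R F A B k0 len c c' ct) {K : Set E} {a : ℝ}
    (hK : RoomP β N K F B k0 c a)
    (hL : LagS β N r R m L) (hA : AP N r F κ M L) (hM : 0 ≤ M) (hρ : 0 < ρ) (hR : 5 * ρ < R) :
    ∃ (Λ m' : ℝ) (D : EscT.GT ι 1 E) (L' : EscT.LP), 0 < Λ ∧ D.β = β ∧ D.Ok ∧
      (∀ t, D.Z t = Set.range fun σ => c σ t) ∧ EscT.FT D m' L' (Lt N r ρ Λ L) ∧
      ∀ δ : ℝ, 0 < δ → ∃ p : GP, EscT.POk D p ∧ 8 * p.ηc ≤ δ ∧
        (∀ t, EscT.Near D p t ⊆ {x | Metric.infDist x N < δ ∧ r x ∈ K}) ∧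
        ∃ x0 ∈ (EscT.D0 D).C p, x0 ∈ K := by
  have hKe : ExitK β N F B c K a := hK.exitK h hF hc
  obtain ⟨t, v0, u, hsec⟩ := hK.secK h hF hc
  obtain ⟨ℓ, C, hext⟩ := exists_extP h hF hc hρ hR
  obtain ⟨Λ, hΛ0, hΛ1, hΛ2⟩ := X4_weight a C (one_le_A hF) hρ
  have hE := hext Λ hΛ1
  have hR2 : 2 * ρ < R := by linarith
  obtain ⟨mF', MF', hf⟩ := Fs_fins h hF hρ hR2 hΛ0
  obtain ⟨m', M', hTG, hAT⟩ := Lt_tg h hF hL hA hM hρ hR2 hΛ0
  obtain ⟨A1, hcal⟩ := hE.calT hf hTG hAT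
  obtain ⟨k1, hk1⟩ := X4_exists_ne hsec.v0_mem hsec.v0_not
  obtain ⟨A', g, hOk⟩ := EscT.gdT_ok hcal hk1
  have hUa : (EscT.gdT β (Fs N r ρ Λ κ F) mF' MF' A' κ (Bs N r ρ B ℓ) k0 len c g).Us < a :=
    secUs hE hKe hOk hsec
  obtain ⟨L', hFT⟩ := EscT.FT_of_CalT hcal hTG hAT
  exact ⟨Λ, m', _, L', hΛ0, rfl, hOk, fun _ => rfl, hFT A' g,
    fun δ hδ => near_smallW hE hf hKe hOk (hUa.trans hΛ2) hUa hδ⟩

end EscW
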