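import Pool.Agent.EscMT.P10

set_option autoImplicit false

/-!
Project EscW, module X5: orbits which start on `N` and stay over `K` stay on `N`.
Copy of the proof of `stays` in `EscMT/P10.lean`: the sign of `fderiv f (x - r x)` is needed only along the orbit, where `r x ∈ K`. Conclusion: `x t ∈ N`, and then `r (x t) = x t ∈ K`.
-/

noncomputable section

namespace EscW

open MeasureTheory Set Filter Topology Esc EscF EscG EscM EscMT
open scoped ContDiff

variable {ι : Type} [Fintype ι] {E : Type*} [NormedAddCommGroup E] [InnerProductSpace ℝ E]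
  [FiniteDimensional ℝ E] {β : Module.Basis ι ℝ E} {N : Set E} {r : E → E} {R : ℝ}
variable {m : ℝ} {L : E → E → ℝ → ℝ} {ρ : ℝ}

theorem staysK (h : Tb β N r R) (hL : LagS β N r R m L) (hρ : 0 < ρ) (hR : 2 * ρ < R) (Λ : ℝ)
    {f : E → ℝ → ℝ} (hf : Pt β f) {K : Set E} (hK : K ⊆ N) (hv : ∀ x, Metric.infDist x N < ρ → r x ∈ K →
      ∀ t, 0 ≤ fderiv ℝ (fun y => f y t) x (x - r x)) {x0 : E} (hx0 : x0 ∈ N)
    (he : EscK.EscapesFrom (Lt N r ρ Λ L) f x0 {x | Metric.infDist x N < ρ ∧ r x ∈ K}) :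
    EscK.EscapesFrom (Lt N r ρ Λ L) f x0 K := by
  obtain ⟨t0, x, v, ht0, hxt0, hxc, hxd, hvc, hel, hmem, hlim⟩ := he
  refine ⟨t0, x, v, ht0, hxt0, hxc, hxd, hvc, hel, ?_, hlim⟩
  have hρR : ρ < R := by linarith
  have hxR : ∀ t, t0 ≤ t → Metric.infDist (x t) N < R := fun t ht => (hmem t ht).1.trans hρR
  -- the normal component
  set ν : ℝ → E := fun t => x t - r (x t) with hνdef
  have hrc : ContinuousOn (fun t => r (x t)) (Ici t0) :=
    h.smooth.continuousOn.comp hxc (fun t ht => hxR t ht)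
  have hνc : ContinuousOn ν (Ici t0) := hxc.sub hrc
  have hνd : ∀ t, t0 < t → HasDerivAt ν (v t - fderiv ℝ r (x t) (v t)) t := by
    intro t ht
    have h1 := (h.diff (hxR t ht.le)).hasFDerivAt.comp_hasDerivAt t (hxd t ht)
    exact (hxd t ht).sub h1
  have hνn : ∀ t, t0 ≤ t → ‖ν t‖ < ρ := by
    intro t ht
    have h1 := h.dist_eq (hxR t ht)
    have h2 : Metric.infDist (x t) N < ρ := (hmem t ht).1
    rw [h1] at h2
    exact h2
  have hin : ∀ t, t0 ≤ t → inner ℝ (ν t) (v t - fderiv ℝ r (x t) (v t)) = inner ℝ (ν t) (v t) := by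
    intro t ht
    have h1 := h.orth (hxR t ht) (v t)
    rw [inner_sub_right]
    have h2 : inner ℝ (ν t) (fderiv ℝ r (x t) (v t)) = (0:ℝ) := h1
    rw [h2, sub_zero]
  have hκ : 0 ≤ kap ρ := by
    unfold kap
    positivity
  -- the functions `W`, `P`
  have hq : ∀ t, t0 < t → HasDerivAt (fun t => ‖ν t‖ ^ 2) (2 * inner ℝ (ν t) (v t)) t := by
    intro t ht
    have h1 := (hνd t ht).norm_sq
    rw [hin t ht.le] at h1
    exact h1
  have hW : ∀ t, t0 < t → HasDerivAt (fun t => ‖ν t‖ ^ 2 + kap ρ / 2 * (‖ν t‖ ^ 2) ^ 2)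
      (2 * inner ℝ (gu (Lt N r ρ Λ L) (x t) (v t) t) (ν t)) t := by
    intro t ht
    have h1 := (hq t ht).add (((hq t ht).pow 2).const_mul (kap ρ / 2))
    have h2 := P_eq h hL hρ hR Λ (hmem t ht.le).1 (v t) t
    have h3 : inner ℝ (gu (Lt N r ρ Λ L) (x t) (v t) t) (ν t) =
        inner ℝ (ν t) (v t) * (1 + kap ρ * ‖ν t‖ ^ 2) := h2
    rw [h3]
    refine h1.congr_deriv ?_
    norm_num
    ring
  have hP : ∀ t, t0 < t → HasDerivAt (fun t => inner ℝ (gu (Lt N r ρ Λ L) (x t) (v t) t) (ν t))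
      (inner ℝ (gu (Lt N r ρ Λ L) (x t) (v t) t) (v t - fderiv ℝ r (x t) (v t)) +
        inner ℝ (gx (lf (Lt N r ρ Λ L) f) (x t) (v t) t) (ν t)) t := by
    intro t ht
    exact (hel t ht).inner ℝ (hνd t ht)
  have hP' : ∀ t, t0 < t →
      0 ≤ inner ℝ (gu (Lt N r ρ Λ L) (x t) (v t) t) (v t - fderiv ℝ r (x t) (v t)) +
        inner ℝ (gx (lf (Lt N r ρ Λ L) f) (x t) (v t) t) (ν t) := by
    intro t ht
    have hxt : Metric.infDist (x t) N < ρ := (hmem t ht.le).1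
    have h1 := Px h hL hρ hR Λ hxt (v t) t
    have h2 := h.Px_nonneg hρ hR hxt (v t)
    have h3 := hv (x t) hxt (hmem t ht.le).2 t
    have hLd : DifferentiableAt ℝ (fun y => Lt N r ρ Λ L y (v t) t) (x t) := by
      have h4 : ContDiff ℝ 2 (fun y : E => Lt N r ρ Λ L y (v t) t) :=
        (Lt_smooth h hL hρ hR Λ).comp
          (f := fun y : E => ((y, v t, t) : E × E × ℝ)) (by fun_prop)
      exact h4.differentiable (by norm_num) (x t)
    have hfd : DifferentiableAt ℝ (fun y => f y t) (x t) := by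
      have h4 : ContDiff ℝ 2 (fun y : E => f y t) :=
        hf.smooth.comp (f := fun y : E => ((y, t) : E × ℝ)) (by fun_prop)
      exact h4.differentiable (by norm_num) (x t)
    have h5 : inner ℝ (gx (lf (Lt N r ρ Λ L) f) (x t) (v t) t) (ν t) =
        inner ℝ (gx (Lt N r ρ Λ L) (x t) (v t) t) (ν t) +
          fderiv ℝ (fun y => f y t) (x t) (ν t) := by
      unfold gx
      rw [P10_inner_gradient, P10_inner_gradient]
      have h6 : (fun y => lf (Lt N r ρ Λ L) f y (v t) t) =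
          (fun y => Lt N r ρ Λ L y (v t) t) + fun y => f y t := rfl
      rw [h6, fderiv_add hLd hfd]
      rfl
    rw [h5]
    have h7 : inner ℝ (gx (Lt N r ρ Λ L) (x t) (v t) t) (ν t) +
        inner ℝ (gu (Lt N r ρ Λ L) (x t) (v t) t) (v t - fderiv ℝ r (x t) (v t)) =
      ‖v t - fderiv ℝ r (x t) (v t)‖ ^ 2 + kap ρ * ‖x t - r (x t)‖ ^ 2 * ‖v t‖ ^ 2 +
        kap ρ * ‖x t - r (x t)‖ ^ 2 * inner ℝ (v t) (v t - fderiv ℝ r (x t) (v t)) := h1
    have h8 : 0 ≤ fderiv ℝ (fun y => f y t) (x t) (ν t) := h3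
    linarith
  have hWc : ContinuousOn (fun t => ‖ν t‖ ^ 2 + kap ρ / 2 * (‖ν t‖ ^ 2) ^ 2) (Ici t0) := by
    have h1 : ContinuousOn (fun t => ‖ν t‖ ^ 2) (Ici t0) := hνc.norm.pow 2
    exact h1.add (continuousOn_const.mul (h1.pow 2))
  have hν0 : ν t0 = 0 := by
    show x t0 - r (x t0) = 0
    rw [hxt0, h.r_eq hx0, sub_self]
  have key := P10_ode (C := ρ ^ 2 + kap ρ / 2 * (ρ ^ 2) ^ 2) hWc hW hP hP'
    (by simp only [hν0, norm_zero]; norm_num)
    (fun t _ => by positivity) (fun t ht => by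
      have h1 := hνn t ht
      have h2 : ‖ν t‖ ^ 2 ≤ ρ ^ 2 := by
        have := norm_nonneg (ν t)
        nlinarith
      have h3 : (‖ν t‖ ^ 2) ^ 2 ≤ (ρ ^ 2) ^ 2 := by
        have := sq_nonneg ‖ν t‖
        nlinarith
      have h4 := mul_le_mul_of_nonneg_left h3 (by positivity : 0 ≤ kap ρ / 2)
      linarith)
  intro t ht
  have h1 := key t ht
  have h2 : ‖ν t‖ ^ 2 = 0 := by
    have h3 : 0 ≤ kap ρ / 2 * (‖ν t‖ ^ 2) ^ 2 := by positivity
    have h4 : 0 ≤ ‖ν t‖ ^ 2 := by positivity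
    have h5 : ‖ν t‖ ^ 2 + kap ρ / 2 * (‖ν t‖ ^ 2) ^ 2 = 0 := h1
    linarith
  have h3 : ν t = 0 := by
    have : ‖ν t‖ = 0 := by
      exact pow_eq_zero_iff (two_ne_zero) |>.1 h2
    exact norm_eq_zero.1 this
  have h4 : x t = r (x t) := sub_eq_zero.1 h3
  rw [h4]
  exact (hmem t ht).2

end EscW
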