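import Pool.Agent.EscW.H8
import Pool.Agent.EscW.K4
import Pool.Agent.EscW.S2
import Pool.Agent.EscW.X4
import Pool.Agent.EscW.X5
import Pool.Agent.EscMT.P10

set_option autoImplicit false

/-!
Project EscW, module K5: result of the analysis part.
`exists_level`; `exists_dataW` for `ρ' = ρ / 2` in the tube of radius `5 ρ`, `δ = min ρ' δ0`; `l = Lt M'.N M'.r ρ' Λ (L1 φ L Ψ Λ₁)`; back: `EscMT.escK_of_escT`, `staysK` (sign condition from `VW`; for `M'.r x ∈ K` we have `infDist (M'.r x) K = 0 ≤ a0`), `backW` with `fw_pt`.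
-/

noncomputable section

namespace EscW

open MeasureTheory Set Filter Topology Esc EscF EscG EscM EscMT EscF.T
open scoped ContDiff

variable {d m : ℕ} {M : Sub d} {M' : Sub m} {O K : Set (Vec m)} {G : Subgroup (Vec m ≃ₗᵢ[ℝ] Vec m)}
  {φ : Vec m → Vec d} {κ : ℝ → ℝ} {F : Vec d → Vec d → ℝ → ℝ} {L : Lag d} {B : Vec m → ℝ → ℝ} {i : Fin m}
  {len a : ℝ} {c : ℝ → ℝ → Vec m} {ρ a0 : ℝ} {Ψ Ψ₂ χ : Vec m → ℝ} {R : Vec m → Vec m} {ℓ : Vec m →L[ℝ] ℝ} {k : ℕ∞}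

theorem main_geoW (hk : 2 ≤ k) (hC : CutW M' O K B ρ a0 Ψ Ψ₂ ℓ) (hT : TubeW M' O K ρ a0 χ R)
    (hφ : IsChart M M' O G φ) (hκ : IsWeight κ) (hF : IsFinslerT M F) (hL : IsNearT M κ F L)
    (hc : IsCalibratedW M' O φ (pull φ F) B i len c) (hR : IsRoom M' O K (pull φ F) B i c a)
    {δ0 : ℝ} (hδ0 : 0 < δ0) :
    ∃ (l : Vec m → Vec m → ℝ → ℝ) (m' : ℝ) (D : EscT.GT (Fin m) 1 (Vec m)) (L' : EscT.LP) (p : GP)
      (x0 : Vec m), D.β = bas m ∧ D.Ok ∧ EscT.FT D m' L' l ∧ EscT.POk D p ∧ x0 ∈ (EscT.D0 D).C p ∧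
      8 * p.ηc ≤ δ0 ∧ (∀ t, D.Z t = Set.range fun σ => c σ t) ∧
      ∀ (f : EscM.Pot M k) (h : YW M' K a0 k), VW M' K ρ a0 (fw φ χ R f h.1) →
        EscT.EscapesFrom l (fw φ χ R f h.1) x0 (EscT.Near D p) →
        EscapesToInfinity M (fun q => L q + f.toFun (q.1, q.2.2)) := by
  have hρ := hC.ρ_pos
  obtain ⟨Λ₁, mF, MF, A, m₁, M₁, -, hM₁, hFP, hCP, hLS, hAP, hRP⟩ := exists_level hC hφ hκ hF hL hc hR
  obtain ⟨Λ, m1, D, L', hΛ, hβ, hOk, hZ, hFT, hp⟩ :=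
    exists_dataW hC.tb hFP hCP hRP hLS hAP hM₁ (ρ := ρ / 2) (by linarith) (by linarith)
  obtain ⟨p, hpOk, hηc, hnear, x0, hx0, hx0K⟩ := hp (min (ρ / 2) δ0) (lt_min (by linarith) hδ0)
  refine ⟨_, m1, D, L', p, x0, hβ, hOk, hFT, hpOk, hx0, hηc.trans (min_le_right _ _), hZ, ?_⟩
  intro f h hv he
  have hPt := fw_pt hk hφ hT f h.1
  obtain ⟨ε, hε, hv2⟩ := hv
  have hsign : ∀ x, Metric.infDist x M'.N < ρ / 2 → M'.r x ∈ K → ∀ t,
      0 ≤ fderiv ℝ (fun y => fw φ χ R f h.1 y t) x (x - M'.r x) := by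
    intro x hx hK t
    have h0 : Metric.infDist (M'.r x) K ≤ a0 := by
      rw [Metric.infDist_zero_of_mem hK]
      exact hC.a0_pos.le
    have h1 := hv2 x (by linarith) h0 t
    have h2 : 0 ≤ ε * ‖x - M'.r x‖ ^ 2 := by positivity
    exact h2.trans h1
  have he1 : EscK.EscapesFrom (Lt M'.N M'.r (ρ / 2) Λ (L1 φ L Ψ Λ₁)) (fw φ χ R f h.1) x0
      {x | Metric.infDist x M'.N < ρ / 2 ∧ M'.r x ∈ K} :=
    escK_of_escT he fun t x hx => ⟨(hnear t hx).1.trans_le (min_le_left _ _), (hnear t hx).2⟩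
  have he2 := staysK hC.tb hLS (by linarith) (by linarith) Λ hPt hC.subK hsign (hC.subK hx0K) he1
  exact backW hk hC hT hφ hL (by linarith) (by linarith) hΛ hLS f h hPt.smooth he2

end EscW
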