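import Pool.Agent.EscW.LCDefs
import Pool.Agent.EscW.CF6

set_option autoImplicit false

/-!
Project EscW, part LC, module LC1: a cut-off on `M`.
Take `χ x = wM W (ρ/3) g' (ContinuousLinearEquiv.refl ℝ (Vec m)) w1 x - 1`, `w1 Y = √(1 + cut Y)`, `cut Y = Real.smoothTransition ((16 - 4 ‖Y‖²) / 7)` or similar: smooth, `1` for `‖Y‖ ≤ 3/2`, `0` for `‖Y‖ ≥ 2`, in `[0,1]`; `wM_conf` (`s = ρ/3`, `‖refl‖ ≤ 1`, `s * (1 * 2) < ρ`; `|w1² - 1| ≤ 1`) gives `smooth`, `periodic`; `wM_at` gives `χ (g z) = cut (3 z/ρ)`.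
`mem01`: unfold `wM` (`w1² ∈ [1, 2]`). `supp`: `χ p ≠ 0` for `p ∈ M.N` implies `p + vz l = g z`, `‖z‖ ≤ 2ρ/3` (unfold `wM`; `right` of `MChart`); the set `g (closedBall 0 (2ρ/3)) + ℤᵈ` is closed (compact plus lattice) and contained in `W + ℤᵈ ⊆ W0 + ℤᵈ`; `M.r` is continuous near `x` with `M.r x = x`, values in `M.N`.
-/

noncomputable section

namespace EscW.Ot

open Filter Topology Set EscF.T EscM EscMT MeasureTheory EscW.Ex EscW.Dn EscW.On
open scoped ContDiff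

variable {d m k j n : ℕ}

/-- the cut-off in the chart -/
def LC1_cut (Y : Vec m) : ℝ := Real.smoothTransition ((16 - 4 * ‖Y‖ ^ 2) / 7)

/-- the factor whose square is `1 + cut` -/
def LC1_w (Y : Vec m) : ℝ := √(1 + LC1_cut Y)

theorem LC1_cut_smooth : ContDiff ℝ ∞ (LC1_cut : Vec m → ℝ) :=
  Real.smoothTransition.contDiff.comp
    ((contDiff_const.sub (contDiff_const.mul (contDiff_norm_sq ℝ))).div_const _)

theorem LC1_cut_nonneg (Y : Vec m) : 0 ≤ LC1_cut Y := Real.smoothTransition.nonneg _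

theorem LC1_cut_le (Y : Vec m) : LC1_cut Y ≤ 1 := Real.smoothTransition.le_one _

theorem LC1_cut_zero {Y : Vec m} (hY : 2 ≤ ‖Y‖) : LC1_cut Y = 0 := by
  refine Real.smoothTransition.zero_of_nonpos ?_
  have h1 : (4:ℝ) ≤ ‖Y‖ ^ 2 := by nlinarith
  linarith

theorem LC1_cut_one {Y : Vec m} (hY : ‖Y‖ ≤ 3 / 2) : LC1_cut Y = 1 := by
  refine Real.smoothTransition.one_of_one_le ?_
  have h0 := norm_nonneg Y
  have h1 : ‖Y‖ ^ 2 ≤ 9 / 4 := by nlinarith
  linarith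

theorem LC1_w_sq (Y : Vec m) : LC1_w Y ^ 2 = 1 + LC1_cut Y := by
  unfold LC1_w
  exact Real.sq_sqrt (by linarith [LC1_cut_nonneg Y])

theorem LC1_w_pos (Y : Vec m) : 0 < LC1_w Y :=
  Real.sqrt_pos.2 (by linarith [LC1_cut_nonneg Y])

theorem LC1_w_smooth : ContDiff ℝ ∞ (LC1_w : Vec m → ℝ) :=
  (contDiff_const.add LC1_cut_smooth).sqrt (fun Y => by
    have := LC1_cut_nonneg Y
    positivity)

theorem LC1_wM {W : Set (Vec d)} (s : ℝ) (g' : Vec d → Vec m) (A : Vec m ≃L[ℝ] Vec m) (p : Vec d) :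
    0 ≤ wM W s g' A LC1_w p - 1 ∧ wM W s g' A LC1_w p - 1 ≤ 1 := by
  unfold wM
  split_ifs with h
  · rw [LC1_w_sq]
    have h1 := LC1_cut_nonneg (s⁻¹ • A.symm (g' (p + vz h.choose)))
    have h2 := LC1_cut_le (s⁻¹ • A.symm (g' (p + vz h.choose)))
    constructor <;> linarith
  · norm_num

theorem exists_cutM {M : Sub d} {W : Set (Vec d)} {ρ : ℝ} {g : Vec m → Vec d} {g' : Vec d → Vec m}
    (hg : MChart M m W ρ g g') {W0 : Set (Vec d)} (hW : W ⊆ W0) :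
    ∃ χ : Vec d → ℝ, IsCutM M W0 χ ∧ ∀ z : Vec m, ‖z‖ ≤ ρ / 2 → χ (g z) = 1 := by
  have hρ := hg.pos
  have hs : 0 < ρ / 3 := by positivity
  set A := ContinuousLinearEquiv.refl ℝ (Vec m) with hA
  have hAn : ‖(A : Vec m →L[ℝ] Vec m)‖ ≤ 1 := ContinuousLinearMap.norm_id_le
  have hsA : ρ / 3 * (‖(A : Vec m →L[ℝ] Vec m)‖ * 2) < ρ := by nlinarith
  have hw1 : ∀ Y : Vec m, 2 ≤ ‖Y‖ → LC1_w Y = 1 := fun Y hY => by
    unfold LC1_w
    rw [LC1_cut_zero hY, add_zero, Real.sqrt_one]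
  have hwε : ∀ Y : Vec m, |LC1_w Y ^ 2 - 1| ≤ 1 := fun Y => by
    rw [LC1_w_sq, add_sub_cancel_left, abs_of_nonneg (LC1_cut_nonneg Y)]
    exact LC1_cut_le Y
  have hconf := wM_conf hg A hs hsA LC1_w_smooth LC1_w_pos hw1 hwε hW
  refine ⟨fun x => wM W (ρ / 3) g' A LC1_w x - 1, ⟨?_, ?_, ?_, ?_⟩, ?_⟩
  · exact hconf.smooth.sub contDiffOn_const
  · intro l x hx
    exact congrArg (fun y => y - 1) (hconf.periodic l x hx)
  · intro x _
    exact LC1_wM _ _ _ _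
  · intro x hx hout
    have hb : Metric.closedBall (0 : Vec m) (2 * ρ / 3) ⊆ Metric.ball 0 ρ :=
      Metric.closedBall_subset_ball (by linarith)
    have hK : IsCompact (g '' Metric.closedBall (0 : Vec m) (2 * ρ / 3)) :=
      (isCompact_closedBall _ _).image_of_continuousOn (hg.smooth.continuousOn.mono hb)
    have hKW : g '' Metric.closedBall (0 : Vec m) (2 * ρ / 3) ⊆ W := by
      rintro _ ⟨z, hz, rfl⟩
      exact (hg.maps z (hb hz)).2
    have hcl := D6_closed hK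
    have hrx : M.r x = x := r_self M hx
    have hxS : M.r x ∉ {p : Vec d | ∃ l : Fin d → ℤ,
        p + vz l ∈ g '' Metric.closedBall (0 : Vec m) (2 * ρ / 3)} := by
      rw [hrx]
      rintro ⟨l, hl⟩
      exact hout l (hW (hKW hl))
    have hrc : ContinuousAt M.r x :=
      M.smooth.continuousOn.continuousAt (M.isOpen.mem_nhds (M.sub hx))
    have hev := hrc (hcl.isOpen_compl.mem_nhds hxS)
    filter_upwards [hev, M.isOpen.mem_nhds (M.sub hx)] with y hy hyU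
    have hp : M.r y ∈ M.N := M.mem y hyU
    have hyS : ¬ ∃ l : Fin d → ℤ, M.r y + vz l ∈ g '' Metric.closedBall (0 : Vec m) (2 * ρ / 3) := hy
    by_cases h : ∃ l : Fin d → ℤ, M.r y + vz l ∈ W
    · obtain ⟨l, hl⟩ := h
      have h1 := hg.right _ ⟨M.perN l _ hp, hl⟩
      rw [CF6_in hg.small _ _ _ _ hl, hw1, one_pow, sub_self]
      by_contra h2
      rw [not_le] at h2
      refine hyS ⟨l, g' (M.r y + vz l), ?_, h1.2⟩
      rw [mem_closedBall_zero_iff]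
      have h3 : (A.symm (g' (M.r y + vz l))) = g' (M.r y + vz l) := rfl
      rw [h3, norm_smul, norm_inv, Real.norm_of_nonneg hs.le, inv_mul_lt_iff₀ hs] at h2
      linarith
    · rw [CF6_out _ _ _ _ h, sub_self]
  · intro z hz
    have h1 : (ρ / 3) • A ((ρ / 3)⁻¹ • z) = z := by
      have h2 : A ((ρ / 3)⁻¹ • z) = (ρ / 3)⁻¹ • z := rfl
      rw [h2, smul_smul, mul_inv_cancel₀ hs.ne', one_smul]
    have h3 := wM_at hg A hs LC1_w (Y := (ρ / 3)⁻¹ • z) (by rw [h1]; linarith)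
    rw [h1, LC1_w_sq, LC1_cut_one] at h3
    · simp only
      rw [h3]
      norm_num
    · rw [norm_smul, norm_inv, Real.norm_of_nonneg hs.le, inv_mul_le_iff₀ hs]
      linarith

end EscW.Ot
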