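import Pool.Agent.EscW.LCDefs

set_option autoImplicit false

/-!
Project EscW, part LC, module LC2: the glued metric is a Finsler metric.
`fins`: `χ` is continuous on `M.N` (`smooth`, `M.r x = x` on `N`), `mem01`; homogeneous, positive (convex combination). `periodic`, `lip`: `|χ (F - F')| ≤ |F - F'|`.
-/

noncomputable section

namespace EscW.Ot

open Filter Topology Set EscF.T EscM EscMT MeasureTheory EscW.Ex EscW.Dn EscW.On
open scoped ContDiff

variable {d m k j n : ℕ}

theorem LC2_r_self (M : Sub d) {x : Vec d} (hx : x ∈ M.N) : M.r x = x := by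
  by_contra h
  have h1 := M.nearest x (M.sub hx) x hx (fun h2 => h h2.symm)
  rw [dist_self] at h1
  exact absurd dist_nonneg (not_le.2 h1)

theorem LC2_cont {M : Sub d} {W0 : Set (Vec d)} {χ : Vec d → ℝ} (hχ : IsCutM M W0 χ) :
    ContinuousOn χ M.N := by
  have h1 : ContinuousOn (fun x => χ (M.r x)) M.N := hχ.smooth.continuousOn.mono M.sub
  refine h1.congr fun x hx => ?_
  simp only [LC2_r_self M hx]

theorem glue_fins {M : Sub d} {W0 : Set (Vec d)} {χ : Vec d → ℝ} (hχ : IsCutM M W0 χ)
    {F0 : Vec d → Vec d → ℝ} (h0 : IsFinsler M F0) {F : Vec d → Vec d → ℝ → ℝ} (hF : IsFinslerT M F) :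
    IsFinslerT M (glue χ F0 F) := by
  constructor
  · intro t
    have hFt := hF.fins t
    constructor
    · have h1 : ContinuousOn (fun p : Vec d × Vec d => χ p.1)
          {p : Vec d × Vec d | p.1 ∈ M.N ∧ IsTangent M p.1 p.2} :=
        (LC2_cont hχ).comp continuous_fst.continuousOn fun p hp => hp.1
      exact (h1.mul hFt.cont).add ((continuousOn_const.sub h1).mul h0.cont)
    · intro l x hx v hv
      have h1 := hFt.periodic l x hx v hv
      have h2 := h0.periodic l x hx v hv
      simp only [glue] at h1 ⊢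
      rw [h1, h2, hχ.periodic l x hx]
    · intro x hx v hv c hc
      have h1 := hFt.hom x hx v hv c hc
      have h2 := h0.hom x hx v hv c hc
      simp only [glue] at h1 ⊢
      rw [h1, h2]
      ring
    · intro x hx v hv hv0
      have h1 : 0 < F x v t := hFt.pos x hx v hv hv0
      have h2 := h0.pos x hx v hv hv0
      obtain ⟨h3, h4⟩ := hχ.mem01 x hx
      simp only [glue]
      rcases h3.eq_or_lt with h5 | h5
      · rw [← h5]
        linarith
      · have h6 : 0 < χ x * F x v t := mul_pos h5 h1
        have h7 : 0 ≤ (1 - χ x) * F0 x v := mul_nonneg (by linarith) h2.le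
        linarith
  · intro x hx v hv t
    simp only [glue]
    rw [hF.periodic x hx v hv t]
  · obtain ⟨A, hA⟩ := hF.lip
    refine ⟨A, fun x hx v hv t t' => ?_⟩
    obtain ⟨h3, h4⟩ := hχ.mem01 x hx
    have h1 := hA x hx v hv t t'
    have h2 : glue χ F0 F x v t - glue χ F0 F x v t' = χ x * (F x v t - F x v t') := by
      simp only [glue]
      ring
    rw [h2, abs_mul, abs_of_nonneg h3]
    calc χ x * |F x v t - F x v t'| ≤ 1 * |F x v t - F x v t'| :=
          mul_le_mul_of_nonneg_right h4 (abs_nonneg _)
      _ = |F x v t - F x v t'| := one_mul _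
      _ ≤ _ := h1

end EscW.Ot
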