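import Pool.Agent.EscW.LCDefs
import Pool.Agent.EscW.O13

set_option autoImplicit false

/-!
Project EscW, part LC, module LC3: the glued metric is near in `C²`.
-/

noncomputable section

namespace EscW.Ot

open Filter Topology Set EscF.T EscM EscMT MeasureTheory EscW.Ex EscW.Dn EscW.On
open scoped ContDiff

variable {d m k j n : ℕ}

theorem LC3_two : (2 : WithTop ℕ∞) ≤ ∞ := by
  have h : (2 : ℕ∞) ≤ ⊤ := le_top
  exact WithTop.coe_le_coe.2 h

theorem LC3_nat (i : ℕ) : ((i : ℕ) : WithTop ℕ∞) ≤ ∞ := by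
  have h : (i : ℕ∞) ≤ ⊤ := le_top
  exact WithTop.coe_le_coe.2 h

theorem LC3_rr {M : Sub d} {x : Vec d} (hx : x ∈ M.U) : M.r (M.r x) = M.r x := O13_r (M.mem x hx)

theorem LC3_near_le {M : Sub d} {x : Vec d} (hx : x ∈ M.U) {p : Vec d} (hp : p ∈ M.N) :
    dist x (M.r x) ≤ dist x p := by
  by_cases h : p = M.r x
  · rw [h]
  · exact (M.nearest x hx p hp h).le

theorem LC3_vz_neg (l : Fin d → ℤ) : (vz (-l) : Vec d) = -vz l := by
  ext i
  simp [vz]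

theorem LC3_rvz (M : Sub d) (l : Fin d → ℤ) {x : Vec d} (hx : x ∈ M.U) :
    M.r (x + vz l) = M.r x + vz l := by
  by_contra hne
  have hx' : x + vz l ∈ M.U := M.perU l x hx
  have h1 := M.nearest _ hx' (M.r x + vz l) (M.perN l _ (M.mem x hx)) (fun h => hne h.symm)
  rw [dist_add_right] at h1
  have hq : M.r (x + vz l) + vz (-l) ∈ M.N := M.perN (-l) _ (M.mem _ hx')
  have h2 := LC3_near_le hx hq
  have h3 : dist x (M.r (x + vz l) + vz (-l)) = dist (x + vz l) (M.r (x + vz l)) := by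
    rw [← dist_add_right x (M.r (x + vz l) + vz (-l)) (vz l), LC3_vz_neg, neg_add_cancel_right]
  rw [h3] at h2
  exact absurd h1 (not_lt.2 h2)

/-- the cut-off as a function on the tangent bundle -/
def LC3_g (M : Sub d) (χ : Vec d → ℝ) (z : Vec d × Vec d) : ℝ := χ (M.r z.1)

theorem LC3_eq (M : Sub d) (χ : Vec d → ℝ) (F0 : Vec d → Vec d → ℝ) (F : Vec d → Vec d → ℝ → ℝ)
    (z : Vec d × Vec d) (t : ℝ) :
    ext M (fun x v => glue χ F0 F x v t) z - ext M F0 z =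
      LC3_g M χ z * (ext M (fun x v => F x v t) z - ext M F0 z) := by
  simp only [On.ext, glue, LC3_g]
  ring

theorem LC3_open (M : Sub d) : IsOpen {z : Vec d × Vec d | z.1 ∈ M.U} := M.isOpen.preimage continuous_fst

theorem LC3_smooth {M : Sub d} {W0 : Set (Vec d)} {χ : Vec d → ℝ} (hχ : IsCutM M W0 χ) :
    ContDiffOn ℝ ∞ (LC3_g M χ) {z | z.1 ∈ M.U} :=
  hχ.smooth.comp contDiff_fst.contDiffOn (fun _ hz => hz)

theorem LC3_contU (M : Sub d) {x : Vec d} (hx : x ∈ M.U) : ContinuousAt M.r x :=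
  (M.smooth.contDiffAt (M.isOpen.mem_nhds hx)).continuousAt

/-- off `W0` the cut-off vanishes near the point -/
theorem LC3_zero {M : Sub d} {W0 : Set (Vec d)} {χ : Vec d → ℝ} (hχ : IsCutM M W0 χ) {z : Vec d × Vec d}
    (hz : z.1 ∈ M.U) (h : ∀ l : Fin d → ℤ, M.r z.1 + vz l ∉ W0) : ∀ᶠ y in 𝓝 z, LC3_g M χ y = 0 := by
  have h1 := hχ.supp (M.r z.1) (M.mem _ hz) h
  have h2 : Tendsto (fun y : Vec d × Vec d => M.r y.1) (𝓝 z) (𝓝 (M.r z.1)) :=
    (LC3_contU M hz).tendsto.comp (continuous_fst.tendsto z)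
  have h3 : ∀ᶠ y in 𝓝 z, y.1 ∈ M.U := (LC3_open M).mem_nhds hz
  filter_upwards [h2.eventually h1, h3] with y hy hy'
  rw [LC3_rr hy'] at hy
  exact hy

/-- the points near `W0` -/
theorem LC3_nearW {M : Sub d} {W0 : Set (Vec d)} (hW : IsOpen W0) {x : Vec d} (hx : x ∈ M.U)
    (h : ∃ l : Fin d → ℤ, M.r x + vz l ∈ W0) : ∀ᶠ y in 𝓝 x, ∃ l : Fin d → ℤ, M.r y + vz l ∈ W0 := by
  obtain ⟨l, hl⟩ := h
  have h1 : Tendsto (fun y => M.r y + vz l) (𝓝 x) (𝓝 (M.r x + vz l)) :=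
    (LC3_contU M hx).tendsto.add tendsto_const_nhds
  filter_upwards [h1.eventually (hW.mem_nhds hl)] with y hy
  exact ⟨l, hy⟩

theorem LC3_cont {M : Sub d} {W0 : Set (Vec d)} {χ : Vec d → ℝ} (hχ : IsCutM M W0 χ) (i : ℕ) :
    ContinuousOn (iteratedFDeriv ℝ i (LC3_g M χ)) {z : Vec d × Vec d | z.1 ∈ M.U} := by
  have hS := LC3_open M
  have h1 : ContinuousOn (iteratedFDerivWithin ℝ i (LC3_g M χ) {z : Vec d × Vec d | z.1 ∈ M.U})
      {z : Vec d × Vec d | z.1 ∈ M.U} :=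
    (LC3_smooth hχ).continuousOn_iteratedFDerivWithin (LC3_nat i) hS.uniqueDiffOn
  refine h1.congr ?_
  intro z hz
  exact (iteratedFDerivWithin_of_isOpen i hS hz).symm

theorem LC3_box (x : Vec d) : ∃ l : Fin d → ℤ, x + vz l ∈ Metric.closedBall (0 : Vec d) (√(d : ℝ)) := by
  refine ⟨fun i => -⌊x i⌋, ?_⟩
  rw [mem_closedBall_zero_iff, EuclideanSpace.norm_eq]
  apply Real.sqrt_le_sqrt
  calc ∑ i, ‖(x + vz (fun i => -⌊x i⌋)) i‖ ^ 2 ≤ ∑ _i : Fin d, (1 : ℝ) := by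
        refine Finset.sum_le_sum fun i _ => ?_
        have h1 : (x + vz (fun i => -⌊x i⌋)) i = Int.fract (x i) := by
          simp only [vz, PiLp.add_apply, Int.cast_neg]
          exact (Int.self_sub_floor (x i))
        rw [h1, Real.norm_eq_abs, sq_abs]
        have h2 := Int.fract_nonneg (x i)
        have h3 := Int.fract_lt_one (x i)
        nlinarith
    _ = (d : ℝ) := by simp

theorem LC3_per {M : Sub d} {W0 : Set (Vec d)} {χ : Vec d → ℝ} (hχ : IsCutM M W0 χ) (i : ℕ)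
    {x : Vec d} (hx : x ∈ M.N) (v : Vec d) (l : Fin d → ℤ) :
    iteratedFDeriv ℝ i (LC3_g M χ) (x, v) = iteratedFDeriv ℝ i (LC3_g M χ) (x + vz l, 0) := by
  have h1 := iteratedFDeriv_comp_add_right (𝕜 := ℝ) (f := LC3_g M χ) i ((vz l, -v) : Vec d × Vec d) (x, v)
  have h2 : (fun z => LC3_g M χ (z + ((vz l, -v) : Vec d × Vec d))) =ᶠ[𝓝 ((x, v) : Vec d × Vec d)]
      LC3_g M χ := by
    have h3 : ∀ᶠ z : Vec d × Vec d in 𝓝 (x, v), z.1 ∈ M.U := (LC3_open M).mem_nhds (M.sub hx)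
    filter_upwards [h3] with z hz
    change χ (M.r (z.1 + vz l)) = χ (M.r z.1)
    rw [LC3_rvz M l hz, hχ.periodic l _ (M.mem _ hz)]
  have h4 := (h2.iteratedFDeriv ℝ i).eq_of_nhds
  have h5 : ((x, v) + (vz l, -v) : Vec d × Vec d) = (x + vz l, 0) := by
    rw [Prod.mk_add_mk, add_neg_cancel]
  rw [← h4, h1, h5]

/-- the derivatives of the cut-off are bounded -/
theorem LC3_bdd {M : Sub d} {W0 : Set (Vec d)} {χ : Vec d → ℝ} (hχ : IsCutM M W0 χ) (i : ℕ) :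
    ∃ C : ℝ, 0 ≤ C ∧ ∀ x ∈ M.N, ∀ v : Vec d, ‖iteratedFDeriv ℝ i (LC3_g M χ) (x, v)‖ ≤ C := by
  have hK : IsCompact ((M.N ∩ Metric.closedBall (0 : Vec d) (√(d : ℝ))) ×ˢ ({0} : Set (Vec d))) :=
    ((isCompact_closedBall _ _).inter_left M.closed).prod isCompact_singleton
  have hsub : (M.N ∩ Metric.closedBall (0 : Vec d) (√(d : ℝ))) ×ˢ ({0} : Set (Vec d)) ⊆
      {z : Vec d × Vec d | z.1 ∈ M.U} := fun z hz => M.sub hz.1.1
  obtain ⟨C, hC⟩ := hK.exists_bound_of_continuousOn ((LC3_cont hχ i).mono hsub)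
  refine ⟨max C 0, le_max_right _ _, ?_⟩
  intro x hx v
  obtain ⟨l, hl⟩ := LC3_box x
  rw [LC3_per hχ i hx v l]
  exact (hC (x + vz l, 0) ⟨⟨M.perN l x hx, hl⟩, rfl⟩).trans (le_max_left _ _)

theorem LC3_smoothT {M : Sub d} {W0 : Set (Vec d)} (hW : IsOpen W0) {χ : Vec d → ℝ} (hχ : IsCutM M W0 χ)
    {R δ : ℝ} {F0 : Vec d → Vec d → ℝ} {F : Vec d → Vec d → ℝ → ℝ} (h : Close2L M W0 R δ F0 F) :
    ContDiffOn ℝ 2 (fun z : (Vec d × Vec d) × ℝ =>
      ext M (fun x v => glue χ F0 F x v z.2) z.1 - ext M F0 z.1) {z | z.1 ∈ TD M} := by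
  intro z hz
  have hzU : z.1.1 ∈ M.U := hz.1
  have hfun : (fun z : (Vec d × Vec d) × ℝ =>
      ext M (fun x v => glue χ F0 F x v z.2) z.1 - ext M F0 z.1) = fun z : (Vec d × Vec d) × ℝ =>
      LC3_g M χ z.1 * (ext M (fun x v => F x v z.2) z.1 - ext M F0 z.1) := by
    funext z
    exact LC3_eq M χ F0 F z.1 z.2
  rw [hfun]
  by_cases hl : ∃ l : Fin d → ℤ, M.r z.1.1 + vz l ∈ W0
  · have hg : ContDiffAt ℝ 2 (LC3_g M χ) z.1 :=
      ((LC3_smooth hχ).contDiffAt ((LC3_open M).mem_nhds hzU)).of_le LC3_two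
    have hg2 : ContDiffAt ℝ 2 (fun z : (Vec d × Vec d) × ℝ => LC3_g M χ z.1) z :=
      hg.comp z contDiffAt_fst
    have hD := h.smooth z ⟨hz, hl⟩
    have hmem : {z : (Vec d × Vec d) × ℝ | z.1 ∈ TD M ∧ ∃ l : Fin d → ℤ, M.r z.1.1 + vz l ∈ W0} ∈
        𝓝[{z | z.1 ∈ TD M}] z := by
      have h1 : ∀ᶠ y : (Vec d × Vec d) × ℝ in 𝓝 z, ∃ l : Fin d → ℤ, M.r y.1.1 + vz l ∈ W0 :=
        ((continuous_fst.comp continuous_fst).tendsto z).eventually (LC3_nearW hW hzU hl)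
      filter_upwards [self_mem_nhdsWithin, mem_nhdsWithin_of_mem_nhds h1] with y hy1 hy2
      exact ⟨hy1, hy2⟩
    exact hg2.contDiffWithinAt.mul (hD.mono_of_mem_nhdsWithin hmem)
  · have h1 : ∀ᶠ y : (Vec d × Vec d) × ℝ in 𝓝 z, LC3_g M χ y.1 = 0 :=
      (continuous_fst.tendsto z).eventually (LC3_zero hχ hzU fun l hl' => hl ⟨l, hl'⟩)
    have h2 : (fun z : (Vec d × Vec d) × ℝ =>
        LC3_g M χ z.1 * (ext M (fun x v => F x v z.2) z.1 - ext M F0 z.1)) =ᶠ[𝓝 z] fun _ => (0 : ℝ) := by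
      filter_upwards [h1] with y hy
      rw [hy, zero_mul]
    exact ((contDiffAt_const (c := (0 : ℝ))).congr_of_eventuallyEq h2).contDiffWithinAt

theorem LC3_bound {M : Sub d} {W0 : Set (Vec d)} (hW : IsOpen W0) {χ : Vec d → ℝ} (hχ : IsCutM M W0 χ)
    {C : ℝ} (hC : ∀ i : ℕ, i ≤ 2 → ∀ x ∈ M.N, ∀ v : Vec d, ‖iteratedFDeriv ℝ i (LC3_g M χ) (x, v)‖ ≤ C)
    {R δ : ℝ} {F0 : Vec d → Vec d → ℝ} {F : Vec d → Vec d → ℝ → ℝ} (hR : 0 < R) (hδ : 0 ≤ δ) (hC0 : 0 ≤ C)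
    (h : Close2L M W0 R δ F0 F) (t : ℝ) {x : Vec d} (hx : x ∈ M.N) {v : Vec d} (hv : IsTangent M x v)
    (hv1 : 1 / R ≤ ‖v‖) (hv2 : ‖v‖ ≤ R) {i : ℕ} (hi : i ≤ 2) :
    ‖iteratedFDeriv ℝ i (fun z => ext M (fun x v => glue χ F0 F x v t) z - ext M F0 z) (x, v)‖ ≤
      4 * C * δ := by
  have hfun : (fun z : Vec d × Vec d => ext M (fun x v => glue χ F0 F x v t) z - ext M F0 z) =
      fun z => LC3_g M χ z * (ext M (fun x v => F x v t) z - ext M F0 z) := by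
    funext z
    exact LC3_eq M χ F0 F z t
  rw [hfun]
  have hxU : x ∈ M.U := M.sub hx
  have hv0 : v ≠ 0 := by
    intro h0
    rw [h0, norm_zero] at hv1
    exact absurd hv1 (not_le.2 (by positivity))
  have hTD : (x, v) ∈ TD M := ⟨hxU, by
    have h1 : fderiv ℝ M.r x v = v := hv
    change fderiv ℝ M.r x v ≠ 0
    rw [h1]
    exact hv0⟩
  by_cases hl : ∃ l : Fin d → ℤ, x + vz l ∈ W0
  · have hl' : ∃ l : Fin d → ℤ, M.r x + vz l ∈ W0 := by rwa [O13_r hx]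
    set S : Set (Vec d × Vec d) := {z | z ∈ TD M ∧ ∃ l : Fin d → ℤ, M.r z.1 + vz l ∈ W0} with hS
    have hSo : IsOpen S := by
      rw [isOpen_iff_mem_nhds]
      rintro z ⟨hz1, hz2⟩
      have h1 : ∀ᶠ y : Vec d × Vec d in 𝓝 z, ∃ l : Fin d → ℤ, M.r y.1 + vz l ∈ W0 :=
        (continuous_fst.tendsto z).eventually (LC3_nearW hW hz1.1 hz2)
      filter_upwards [(O13_TD_open M).mem_nhds hz1, h1] with y hy1 hy2
      exact ⟨hy1, hy2⟩
    have hxS : (x, v) ∈ S := ⟨hTD, hl'⟩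
    have hgS : ContDiffOn ℝ 2 (LC3_g M χ) S :=
      ((LC3_smooth hχ).mono (fun z hz => hz.1.1)).of_le LC3_two
    have hDS : ContDiffOn ℝ 2 (fun z => ext M (fun x v => F x v t) z - ext M F0 z) S := by
      have h1 : ContDiff ℝ 2 (fun z : Vec d × Vec d => (z, t)) := contDiff_id.prodMk contDiff_const
      exact h.smooth.comp h1.contDiffOn (fun _ hz => hz)
    have hmul := norm_iteratedFDerivWithin_mul_le hgS hDS hSo.uniqueDiffOn hxS (n := i)
      (by exact_mod_cast hi)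
    rw [iteratedFDerivWithin_of_isOpen i hSo hxS] at hmul
    refine hmul.trans ?_
    have hterm : ∀ l ∈ Finset.range (i + 1), (i.choose l : ℝ) *
        ‖iteratedFDerivWithin ℝ l (LC3_g M χ) S (x, v)‖ *
        ‖iteratedFDerivWithin ℝ (i - l) (fun z => ext M (fun x v => F x v t) z - ext M F0 z) S (x, v)‖ ≤
        (i.choose l : ℝ) * (C * δ) := by
      intro l hl2
      have hl3 : l ≤ i := by simpa [Nat.lt_succ_iff] using hl2
      rw [iteratedFDerivWithin_of_isOpen l hSo hxS, iteratedFDerivWithin_of_isOpen (i - l) hSo hxS, mul_assoc]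
      refine mul_le_mul_of_nonneg_left ?_ (Nat.cast_nonneg _)
      exact mul_le_mul (hC l (hl3.trans hi) x hx v) (h.close t x hx hl v hv hv1 hv2 (i - l) (by omega))
        (norm_nonneg _) hC0
    refine (Finset.sum_le_sum hterm).trans ?_
    rw [← Finset.sum_mul]
    have h2 : ∑ l ∈ Finset.range (i + 1), (i.choose l : ℝ) = 2 ^ i := by
      have := Nat.sum_range_choose i
      exact_mod_cast this
    rw [h2]
    have h3 : (2 : ℝ) ^ i ≤ 4 := by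
      calc (2 : ℝ) ^ i ≤ 2 ^ 2 := pow_le_pow_right₀ (by norm_num) hi
        _ = 4 := by norm_num
    have h4 : 0 ≤ C * δ := mul_nonneg hC0 hδ
    nlinarith
  · have h1 : ∀ᶠ y : Vec d × Vec d in 𝓝 (x, v), LC3_g M χ y = 0 := by
      refine LC3_zero hχ (z := (x, v)) hxU fun l hl' => hl ⟨l, ?_⟩
      change M.r x + vz l ∈ W0 at hl'
      rwa [O13_r hx] at hl'
    have h2 : (fun z : Vec d × Vec d =>
        LC3_g M χ z * (ext M (fun x v => F x v t) z - ext M F0 z)) =ᶠ[𝓝 (x, v)] fun _ => (0 : ℝ) := by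
      filter_upwards [h1] with y hy
      rw [hy, zero_mul]
    have h3 := (h2.iteratedFDeriv ℝ i).eq_of_nhds
    rw [h3]
    have h4 : iteratedFDeriv ℝ i (fun _ : Vec d × Vec d => (0 : ℝ)) (x, v) = 0 := by
      have := iteratedFDeriv_fun_zero (𝕜 := ℝ) (E := Vec d × Vec d) (F := ℝ) (n := i)
      exact congrFun this (x, v)
    rw [h4, norm_zero]
    positivity

theorem glue_close {M : Sub d} {W0 : Set (Vec d)} (hW : IsOpen W0) {χ : Vec d → ℝ} (hχ : IsCutM M W0 χ) :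
    ∃ C : ℝ, 0 < C ∧ ∀ (R δ : ℝ) (F0 : Vec d → Vec d → ℝ) (F : Vec d → Vec d → ℝ → ℝ), 0 < R → 0 ≤ δ →
      Close2L M W0 R δ F0 F → Close2T M R (C * δ) F0 (glue χ F0 F) := by
  obtain ⟨C0, hC0, h0⟩ := LC3_bdd hχ 0
  obtain ⟨C1, hC1, h1⟩ := LC3_bdd hχ 1
  obtain ⟨C2, hC2, h2⟩ := LC3_bdd hχ 2
  set C : ℝ := C0 + C1 + C2 + 1 with hCd
  have hCpos : 0 < C := by positivity
  have hC : ∀ i : ℕ, i ≤ 2 → ∀ x ∈ M.N, ∀ v : Vec d, ‖iteratedFDeriv ℝ i (LC3_g M χ) (x, v)‖ ≤ C := by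
    intro i hi x hx v
    rcases (show i = 0 ∨ i = 1 ∨ i = 2 by omega) with rfl | rfl | rfl
    · exact (h0 x hx v).trans (by rw [hCd]; linarith)
    · exact (h1 x hx v).trans (by rw [hCd]; linarith)
    · exact (h2 x hx v).trans (by rw [hCd]; linarith)
  refine ⟨4 * C, by positivity, ?_⟩
  intro R δ F0 F hR hδ h
  refine ⟨LC3_smoothT hW hχ h, fun t => ⟨?_, ?_⟩⟩
  · have h3 : ContDiff ℝ 2 (fun z : Vec d × Vec d => (z, t)) := contDiff_id.prodMk contDiff_const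
    exact (LC3_smoothT hW hχ h).comp h3.contDiffOn (fun _ hz => hz)
  · intro x hx v hv hv1 hv2 i hi
    exact LC3_bound hW hχ hC hR hδ hCpos.le h t hx hv hv1 hv2 hi

end EscW.Ot
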