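import Pool.Agent.EscW.LCDefs

set_option autoImplicit false

/-!
Project EscW, part LC, module LC4: the conditions depend only on the metric at the points of `M'.N ∩ O`.
`IsCalibratedW`: `F` occurs in `le`, `unit`, `only`, at points of `M'.N ∩ O` (`mem`). `IsRoom`: `excess` along curves in `K ⊆ M'.N ∩ O` for the parameter in `[0,1]`: `intervalIntegral.integral_congr`.
-/

noncomputable section

namespace EscW.Ot

open Filter Topology Set EscF.T EscM EscMT MeasureTheory EscW.Ex EscW.Dn EscW.On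
open scoped ContDiff

variable {d m k j n : ℕ}

theorem cal_congr {M' : Sub m} {O : Set (Vec m)} {φ : Vec m → Vec d} {F F' : Vec m → Vec m → ℝ → ℝ}
    {B : Vec m → ℝ → ℝ} {i : Fin m} {len : ℝ} {c : ℝ → ℝ → Vec m}
    (he : ∀ x ∈ M'.N ∩ O, ∀ v t, F' x v t = F x v t) (h : IsCalibratedW M' O φ F B i len c) :
    IsCalibratedW M' O φ F' B i len c where
  smooth := h.smooth
  periodic := h.periodic
  periods := h.periods
  lip := h.lip
  le := fun x hx v hv t => by rw [he x hx v t]; exact h.le x hx v hv t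
  len_pos := h.len_pos
  curve := h.curve
  mem := h.mem
  closed := h.closed
  curve_per := h.curve_per
  unit := fun σ t => by rw [he _ (h.mem σ t) _ t]; exact h.unit σ t
  cal := h.cal
  only := fun x hx v hv t hv0 heq => h.only x hx v hv t hv0 (by rw [← he x hx v t]; exact heq)
  simple := h.simple

theorem LC4_excess_congr {M' : Sub m} {O K : Set (Vec m)} {F F' : Vec m → Vec m → ℝ → ℝ} {B : Vec m → ℝ → ℝ}
    (he : ∀ x ∈ M'.N ∩ O, ∀ v t, F' x v t = F x v t) (hK : K ⊆ M'.N ∩ O) (t : ℝ) (γ : ℝ → Vec m)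
    (hγ : ∀ s ∈ Icc (0:ℝ) 1, γ s ∈ K) : excess F' B t γ = excess F B t γ := by
  unfold excess
  congr 1
  apply intervalIntegral.integral_congr
  intro s hs
  rw [uIcc_of_le zero_le_one] at hs
  exact he _ (hK (hγ s hs)) _ t

theorem room_congr {M' : Sub m} {O K : Set (Vec m)} {F F' : Vec m → Vec m → ℝ → ℝ} {B : Vec m → ℝ → ℝ}
    {i : Fin m} {a : ℝ} {c : ℝ → ℝ → Vec m} (he : ∀ x ∈ M'.N ∩ O, ∀ v t, F' x v t = F x v t)
    (h : IsRoom M' O K F B i c a) : IsRoom M' O K F' B i c a where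
  closed := h.closed
  sub := h.sub
  periodic := h.periodic
  mem := h.mem
  exit := fun t σ γ hL h0 hK h1 => by
    rw [LC4_excess_congr he h.sub t γ hK]; exact h.exit t σ γ hL h0 hK h1
  second := by
    obtain ⟨t, n, γ, hn, hL, h0, h1, hK, hlt⟩ := h.second
    exact ⟨t, n, γ, hn, hL, h0, h1, hK, by rw [LC4_excess_congr he h.sub t γ hK]; exact hlt⟩

end EscW.Ot
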