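import Pool.Agent.EscW.OT11
import Pool.Agent.EscW.OT13
import Pool.Agent.EscW.CF2
import Pool.Agent.EscW.CF4
import Pool.Agent.EscW.CF5
import Pool.Agent.EscW.CF7
import Pool.Agent.EscW.D8

set_option autoImplicit false

/-!
Project EscW, part OT, module OT14: openness and conformal density, abstract form, for families. (Same as CF8; read its header and its proof.)
`open_absT` (for `Φ0 = Phm R0 1 w`) gives `η0`; `η1 = η0/4`; `ann_near_Q` with `η1` gives `η'`; `near_Qs` with `b = 20`, `b' = 21`, `η'` gives `s0`; also `s0 ‖A‖ 3 ≤ ρ/2`. Given `s ≤ s0`: `Φ1 = PhQ R0 w (Qs q g A s)`, `η2 > 0` with `η1 + η2 (1 + η1) ≤ η0` and `η1 + η2/s ≤ η0`. `transferT` with `F' = fun x v => nrm (wM • q) x v 0`,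
`Φ0 := fun z ζ => s * Φ1 z ζ` (`nrm_Pj`) gives `R`, `δ`. For `F` close: `Φ t z ζ = s⁻¹ * F (Pj z) (fderiv Pj z ζ) t`: `AnnNearT (Phm R0 1 w) Φ 𝒜 r η0`: `near` by `near_trans` at each `t`, `per_t`, `smooth` from `transferT` (`lg (s⁻¹ Φ2) = s⁻¹ lg Φ2`). `open_absT` with `φ = Pj ∘ T` and the metric
`fun x v t => s⁻¹ * pull φ F x v t` (chain rule at points of `M'.N ∩ O`) gives `μ`; the weight of the conclusion is `fun t => μ t * s⁻¹`; `μ t * (s⁻¹ * pull ..) = μ t * s⁻¹ * pull ..` by `funext`.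
-/

noncomputable section

namespace EscW.Ot

open Filter Topology Set EscF.T EscM EscMT MeasureTheory EscW.Ex EscW.Dn EscW.On
open scoped ContDiff

variable {d m k j n : ℕ}

/-- an integer vector of norm smaller than one is zero -/
theorem OT14_vz {l : Fin d → ℤ} (h : ‖(vz l : Vec d)‖ < 1) : (vz l : Vec d) = 0 := by
  have h1 : ∀ i, (vz l : Vec d) i = 0 := by
    intro i
    have h2 : ‖(vz l : Vec d) i‖ < 1 := (PiLp.norm_apply_le (vz l : Vec d) i).trans_lt h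
    have h3 : (vz l : Vec d) i = (l i : ℝ) := rfl
    rw [h3, Real.norm_eq_abs] at h2
    rw [h3]
    have h4 : |l i| < 1 := by exact_mod_cast h2
    rw [Int.abs_lt_one_iff.1 h4, Int.cast_zero]
  ext i
  exact h1 i

/-- a weight multiplied by a positive constant -/
theorem OT14_weight {μ : ℝ → ℝ} (h : IsWeight μ) {c : ℝ} (hc : 0 < c) : IsWeight (fun t => μ t * c) := by
  refine ⟨fun t => mul_pos (h.pos t) hc, fun t => by rw [h.periodic], ?_⟩
  obtain ⟨A, hA⟩ := h.lip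
  refine ⟨A * c, fun t t' => ?_⟩
  rw [← sub_mul, abs_mul, abs_of_pos hc]
  calc |μ t - μ t'| * c ≤ A * |t - t'| * c := mul_le_mul_of_nonneg_right (hA t t') hc.le
    _ = A * c * |t - t'| := by ring

theorem conf_absT {M : Sub d} {i : ℕ∞} (hi : 2 ≤ i) {q : Vec d → Vec d →L[ℝ] Vec d →L[ℝ] ℝ}
    (hq : IsRiemannian M i q) {W : Set (Vec d)} {ρ : ℝ}
    {g : Vec (j + 2) → Vec d} {g' : Vec d → Vec (j + 2)} (hg : MChart M (j + 2) W ρ g g')
    (A : Vec (j + 2) ≃L[ℝ] Vec (j + 2))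
    (hA : ∀ v, q (g 0) (fderiv ℝ g 0 (A v)) (fderiv ℝ g 0 (A v)) = ‖v‖ ^ 2)
    {R0 r ℓ c c3 α β : ℝ} (hR : 1 ≤ R0) (hR2 : R0 ≤ 2) (hr2 : r ≤ 1 / 2) {w : Vec (j + 2) → ℝ}
    (hw : ContDiff ℝ ∞ w) (hwp : ∀ Y, 0 < w Y) {𝒜 : Set (ℝ × Vec (j + 1))}
    (hb : AnnBase (Phm R0 1 w) 𝒜 r ℓ c c3 α β) (hAc : IsClosed 𝒜)
    (hAp : ∀ θ w, (θ + 1, w) ∈ 𝒜 ↔ (θ, w) ∈ 𝒜) (hAb : ∀ z ∈ 𝒜, ‖z.2‖ ≤ 1)
    (hr : ∀ z : ℝ × Vec (j + 1), ‖z.2‖ ≤ r → z ∈ 𝒜) (hpos : ∀ z ∈ 𝒜, 0 < R0 + z.2 0)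
    {M' : Sub m} {O K : Set (Vec m)} {i0 : Fin m} {T : Vec m → ℝ × Vec (j + 1)}
    {Λ : ℝ × Vec (j + 1) → Vec m} (hc : AnnCover M' O i0 𝒜 r T Λ) {a0 : ℝ} {bar : Vec m → ℝ} {θ0 : ℝ}
    {nn : Fin m → ℤ} {γ : ℝ → Vec m} (hroom : RoomBase M' O K i0 r ℓ a0 (Phm R0 1 w) T Λ bar θ0 nn γ) :
    ∃ s0 : ℝ, 0 < s0 ∧ ∀ s, 0 < s → s ≤ s0 →
      IsRiemannian M i (fun p => wM W s g' A w p • q p) →
      ∃ R δ : ℝ, 0 < R ∧ 0 < δ ∧ ∀ F : Vec d → Vec d → ℝ → ℝ, IsFinslerT M F →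
        Close2T M R δ (fun x v => nrm (fun p => wM W s g' A w p • q p) x v 0) F →
        ∃ (μ : ℝ → ℝ) (B : Vec m → ℝ → ℝ) (len a' : ℝ) (c : ℝ → ℝ → Vec m), IsWeight μ ∧
          IsCalibratedW M' O (fun x => g (s • A (pol R0 (T x))))
            (fun x v t => μ t * pull (fun x => g (s • A (pol R0 (T x)))) F x v t) B i0 len c ∧
          IsRoom M' O K (fun x v t => μ t * pull (fun x => g (s • A (pol R0 (T x)))) F x v t) B i0 c a' := by
  obtain ⟨η0, hη0, habs⟩ := open_absT (d := d) hb hc hroom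
  have htube : ∀ θ w, ‖w‖ < r → (θ, w) ∈ 𝒜 := fun θ w h => hr (θ, w) h.le
  obtain ⟨η', hη', hnQ⟩ := ann_near_Q hR hR2 hb.r_pos hr2 (hw.of_le (by norm_cast)) hwp hAb htube
    (η := η0 / 4) (by positivity)
  obtain ⟨s1, hs1, hns⟩ := near_Qs hi hq hg A hA (b := 20) (b' := 21) (by norm_num) (by norm_num) hη'
  have hρ := hg.pos
  have hAn : 0 < ‖(A : Vec (j + 2) →L[ℝ] Vec (j + 2))‖ + 1 := by positivity
  refine ⟨min s1 (ρ / (6 * (‖(A : Vec (j + 2) →L[ℝ] Vec (j + 2))‖ + 1))), lt_min hs1 (by positivity), ?_⟩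
  intro s hs hss hqr
  have hsA : s * ((‖(A : Vec (j + 2) →L[ℝ] Vec (j + 2))‖ + 1) * 3) ≤ ρ / 2 := by
    have h1 : s ≤ ρ / (6 * (‖(A : Vec (j + 2) →L[ℝ] Vec (j + 2))‖ + 1)) := hss.trans (min_le_right _ _)
    rw [le_div_iff₀ (by positivity)] at h1
    linarith
  have h1 := hnQ _ (hns s hs (hss.trans (min_le_left _ _)))
  -- the annular domain is mapped to the chart
  have hball : ∀ z ∈ 𝒜, ‖s • A (pol R0 z)‖ ≤ ρ / 2 := by
    intro z hz
    have k1 : ‖pol R0 z‖ ≤ 3 := by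
      have := pol_norm R0 z
      rw [abs_of_nonneg (by linarith)] at this
      have := hAb z hz
      linarith
    have k2 : ‖A (pol R0 z)‖ ≤ ‖(A : Vec (j + 2) →L[ℝ] Vec (j + 2))‖ * ‖pol R0 z‖ :=
      (A : Vec (j + 2) →L[ℝ] Vec (j + 2)).le_opNorm _
    rw [norm_smul, Real.norm_of_nonneg hs.le]
    refine le_trans (mul_le_mul_of_nonneg_left ?_ hs.le) hsA
    refine k2.trans (mul_le_mul (by linarith) k1 (norm_nonneg _) hAn.le)
  set V : Set (ℝ × Vec (j + 1)) := {z | ‖s • A (pol R0 z)‖ < ρ} with hV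
  have hpA : ContDiff ℝ ∞ (fun z : ℝ × Vec (j + 1) => s • A (pol R0 z)) :=
    (A.contDiff.comp (pol_smooth R0)).const_smul s
  have hVo : IsOpen V := isOpen_lt hpA.continuous.norm continuous_const
  have hAV : 𝒜 ⊆ V := fun z hz => (hball z hz).trans_lt (by linarith)
  have hbV : ∀ z ∈ V, s • A (pol R0 z) ∈ Metric.ball (0 : Vec (j + 2)) ρ := fun z hz => by
    rw [mem_ball_zero_iff]
    exact hz
  have hPj : ContDiffOn ℝ ∞ (fun z => g (s • A (pol R0 z))) V := hg.smooth.comp hpA.contDiffOn hbV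
  have hPm : ∀ z ∈ V, g (s • A (pol R0 z)) ∈ M.N := fun z hz => (hg.maps _ (hbV z hz)).1
  -- the reference metric
  have hFin : IsFinsler M (fun x v => nrm (fun p => wM W s g' A w p • q p) x v 0) :=
    (finsler_of_riem hqr).fins 0
  have hlg : ContDiffOn ℝ 2 (lg (fun z ζ => s * PhQ R0 w (Qs q g A s) z ζ)) (LD (j + 1) r) :=
    contDiffOn_const.mul h1.smooth
  obtain ⟨η2, hη2, ha, hbb⟩ : ∃ η2 : ℝ, 0 < η2 ∧ η0 / 4 + η2 * (1 + η0 / 4) ≤ η0 ∧
      η0 / 4 + η2 / s ≤ η0 := by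
    refine ⟨min (η0 / (2 * (1 + η0))) (s * η0 / 2), lt_min (by positivity) (by positivity), ?_, ?_⟩
    · have k1 : min (η0 / (2 * (1 + η0))) (s * η0 / 2) * (1 + η0 / 4) ≤
          η0 / (2 * (1 + η0)) * (1 + η0) :=
        mul_le_mul (min_le_left _ _) (by linarith) (by positivity) (by positivity)
      have k2 : η0 / (2 * (1 + η0)) * (1 + η0) = η0 / 2 := by
        field_simp
      linarith
    · have k1 : min (η0 / (2 * (1 + η0))) (s * η0 / 2) / s ≤ (s * η0 / 2) / s :=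
        div_le_div_of_nonneg_right (min_le_right _ _) hs.le
      have k2 : (s * η0 / 2) / s = η0 / 2 := by
        field_simp
      linarith
  obtain ⟨R, δ, hR1, hδ, htr⟩ := transferT hFin hVo hPj hPm (fun θ w => by rw [pol_per]) hAV hAc hAp
    hAb (fun z hz ζ hζ => polar_imm hg A hs (hball z hz) (hpos z hz) hζ) hr
    (Φ0 := fun z ζ => s * PhQ R0 w (Qs q g A s) z ζ)
    (fun z hz ζ => (nrm_Pj hg A hs hwp (hAV hz) ζ 0).symm) hlg hη2
  refine ⟨R, δ, hR1, hδ, fun F hF hcl => ?_⟩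
  have hN := htr F hF hcl
  have hs' : 0 < s⁻¹ := inv_pos.2 hs
  have hNT : AnnNearT (Phm R0 1 w) (fun t z ζ => s⁻¹ *
      F (g (s • A (pol R0 z))) (fderiv ℝ (fun z => g (s • A (pol R0 z))) z ζ) t) 𝒜 r η0 := by
    refine ⟨fun t => near_trans hb.nonneg hb.smooth hs h1 (hN.near t) hη2.le ha hbb, ?_, ?_⟩
    · intro t z hz ζ
      exact congrArg (fun x => s⁻¹ * x) (hN.per_t t z hz ζ)
    · exact contDiffOn_const.mul hN.smooth
  have hch : ∀ x ∈ M'.N ∩ O, ∀ v t, s⁻¹ * pull (fun x => g (s • A (pol R0 (T x)))) F x v t =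
      s⁻¹ * F (g (s • A (pol R0 (T x)))) (fderiv ℝ (fun z => g (s • A (pol R0 z))) (T x)
        (fderiv ℝ T x v)) t := by
    intro x hx v t
    have hTx : T x ∈ V := hAV (hc.maps x hx)
    have k1 : DifferentiableAt ℝ (fun z => g (s • A (pol R0 z))) (T x) :=
      (hPj.contDiffAt (hVo.mem_nhds hTx)).differentiableAt (by simp)
    have k2 : DifferentiableAt ℝ T x := hc.smooth.differentiable (by norm_num) x
    have k3 : fderiv ℝ (fun x => g (s • A (pol R0 (T x)))) x =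
        (fderiv ℝ (fun z => g (s • A (pol R0 z))) (T x)).comp (fderiv ℝ T x) :=
      fderiv_comp x k1 k2
    simp only [pull]
    rw [k3]
    rfl
  have hinj : ∀ x ∈ M'.N ∩ O, ∀ y ∈ M'.N ∩ O, ∀ l : Fin d → ℤ,
      g (s • A (pol R0 (T x))) = g (s • A (pol R0 (T y))) + vz l → ∃ l' : ℤ, (T x).1 = (T y).1 + l' := by
    intro x hx y hy l hl
    have hTx := hbV _ (hAV (hc.maps x hx))
    have hTy := hbV _ (hAV (hc.maps y hy))
    have k1 := hg.small _ (hg.maps _ hTx).2 _ (hg.maps _ hTy).2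
    rw [hl, dist_eq_norm, add_sub_cancel_left] at k1
    rw [OT14_vz k1, add_zero] at hl
    have k2 : s • A (pol R0 (T x)) = s • A (pol R0 (T y)) := by
      rw [← hg.left _ hTx, ← hg.left _ hTy, hl]
    have k3 : pol R0 (T x) = pol R0 (T y) := by
      have := smul_right_injective (Vec (j + 2)) hs.ne' k2
      exact A.injective this
    exact pol_inj (hpos _ (hc.maps x hx)) (hpos _ (hc.maps y hy)) k3
  obtain ⟨μ, B, len, a', c', hμ, hcal, hrm⟩ := habs _ hNT (fun x => g (s • A (pol R0 (T x))))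
    (fun x v t => s⁻¹ * pull (fun x => g (s • A (pol R0 (T x)))) F x v t) hch hinj
  have he : (fun x v t => μ t * (s⁻¹ * pull (fun x => g (s • A (pol R0 (T x)))) F x v t)) =
      fun x v t => μ t * s⁻¹ * pull (fun x => g (s • A (pol R0 (T x)))) F x v t := by
    funext x v t
    ring
  rw [he] at hcal hrm
  exact ⟨fun t => μ t * s⁻¹, B, len, a', c', OT14_weight hμ hs', hcal, hrm⟩

end EscW.Ot
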