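import Pool.Agent.EscW.OT12
import Pool.Agent.EscW.OT14
import Pool.Agent.EscW.CF1
import Pool.Agent.EscW.O18
import Pool.Agent.EscW.D4

set_option autoImplicit false

/-!
Project EscW, part OT, module OT15: conformal factors, dimension at least three, families. (Same as CF9; read its header and its proof, with `conf_absT` and `inClass_of` of OT12 in place of `conf_abs` and the constructor of `InClass`.)
`inClass_of hκ hμ hF hL (exists_chart ..) hcal hroom` (after rewriting `g (s • A (pol (1 + δ) (TcD δ X))) = g (s • A (em δ X))` by `funext`).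
-/

noncomputable section

namespace EscW.Ot

open Filter Topology Set EscF.T EscM EscMT MeasureTheory EscW.Ex EscW.Dn EscW.On
open scoped ContDiff

variable {d m k j n : ℕ}

theorem OT15_pol (δ : ℝ) (x : Vec (n + 3)) : (pol (1 + δ) (TcD δ x) : Vec (n + 3)) = em δ x := by
  refine pol_Tc (j := n + 1) (i := (0 : Fin (n + 3))) (R0 := 1 + δ) (ρ := Dn.rr δ) (e := Dn.em δ) ?_ ?_
  · simp [Dn.em]
  · simp [Dn.em]

theorem open_conf_riemT {M : Sub d} {y0 : Vec d} (hy : y0 ∈ M.N)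
    (hdim : 3 ≤ Module.finrank ℝ (LinearMap.range (fderiv ℝ M.r y0 : Vec d →ₗ[ℝ] Vec d)))
    {i : ℕ∞} (hi : 2 ≤ i) {q : Vec d → Vec d →L[ℝ] Vec d →L[ℝ] ℝ} (hq : IsRiemannian M i q)
    {W0 : Set (Vec d)} (hW : IsOpen W0) (hy0 : y0 ∈ W0) {ε : ℝ} (hε : 0 < ε) :
    ∃ w : Vec d → ℝ, IsConf M W0 ε w ∧ IsRiemannian M i (fun p => w p • q p) ∧
      ∃ R δ : ℝ, 0 < R ∧ 0 < δ ∧ ∀ F : Vec d → Vec d → ℝ → ℝ, IsFinslerT M F →
        Close2T M R δ (fun x v => nrm (fun p => w p • q p) x v 0) F → ∀ κ : ℝ → ℝ, IsWeight κ →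
          ∀ L : Lag d, IsNearT M κ F L → InClass M L := by
  obtain ⟨n, hn⟩ : ∃ n, Module.finrank ℝ
      (LinearMap.range (fderiv ℝ M.r y0 : Vec d →ₗ[ℝ] Vec d)) = n + 3 :=
    ⟨_, (Nat.sub_add_cancel hdim).symm⟩
  obtain ⟨W, ρ, g, g', A, hWW, hg, hA⟩ := exists_center hy hn hq hW hy0
  set ε1 : ℝ := min (1 / 4) (ε / 4) with hε1
  have he0 : 0 < ε1 := lt_min (by norm_num) (by linarith)
  have he4 : ε1 ≤ 1 / 4 := min_le_left _ _
  have he8 : ε1 ≤ ε / 4 := min_le_right _ _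
  obtain ⟨δ0, hδ00, H⟩ := roomD n he0 he4
  set δ : ℝ := min (min δ0 (ε1 / 8)) (1 / 8) with hδdef
  have hδ : 0 < δ := lt_min (lt_min hδ00 (by linarith)) (by norm_num)
  have h8 : δ ≤ 1 / 8 := min_le_right _ _
  have hδ0 : δ ≤ δ0 := (min_le_left _ _).trans (min_le_left _ _)
  have hδε : δ ≤ ε1 / 8 := (min_le_left _ _).trans (min_le_right _ _)
  obtain ⟨a, bar, θ0, nn, γ, Hr⟩ := H δ hδ hδ0 1 one_pos
  have hwb : ∀ Y : Vec (n + 3), 1 - 2 * ε1 ≤ Dn.tW δ ε1 Y ∧ Dn.tW δ ε1 Y ≤ 1 := fun Y =>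
    Dn.tW_bd he0 he4 hδ hδε Y
  have hwpos : ∀ Y : Vec (n + 3), 0 < Dn.tW δ ε1 Y := fun Y => by linarith [(hwb Y).1]
  have hwε : ∀ Y : Vec (n + 3), |Dn.tW δ ε1 Y ^ 2 - 1| ≤ ε := by
    intro Y
    obtain ⟨h1, h2⟩ := hwb Y
    have h3 := hwpos Y
    rw [abs_le]
    constructor <;> nlinarith
  have hρ : 0 < ρ := hg.pos
  have hA0 : 0 ≤ ‖(A : Vec (n + 3) →L[ℝ] Vec (n + 3))‖ := norm_nonneg _
  obtain ⟨s0, hs00, Hs⟩ := conf_absT (j := n + 1) hi hq hg A hA (R0 := 1 + δ) (r := δ / 16)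
    (by linarith) (by linarith) (by linarith) (Dn.tW_smooth hδ h8 ε1) hwpos
    (baseD hδ h8 he0 he4 hδε one_pos) (AD_closed δ n) (AD_per δ)
    (fun z hz => hz.2) (fun z hz => (AD_tube hδ h8 z hz).1)
    (fun z hz => AD_pos hδ hz) (coverD hδ h8) Hr
  have hB : (4:ℝ) ≤ emB n := by
    unfold emB
    have : (0:ℝ) ≤ n := Nat.cast_nonneg n
    linarith
  set s : ℝ := min s0 (ρ / (2 * (‖(A : Vec (n + 3) →L[ℝ] Vec (n + 3))‖ + 1) * emB n)) with hsdef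
  have hs : 0 < s := lt_min hs00 (by positivity)
  have hss : s ≤ s0 := min_le_left _ _
  have hsA : s * (‖(A : Vec (n + 3) →L[ℝ] Vec (n + 3))‖ * emB n) ≤ ρ / 2 := by
    have h1 : s ≤ ρ / (2 * (‖(A : Vec (n + 3) →L[ℝ] Vec (n + 3))‖ + 1) * emB n) := min_le_right _ _
    have h2 : s * (2 * (‖(A : Vec (n + 3) →L[ℝ] Vec (n + 3))‖ + 1) * emB n) ≤ ρ :=
      (le_div_iff₀ (by positivity)).1 h1
    have h3 : 0 ≤ s * emB n := by positivity
    nlinarith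
  have hsA2 : s * (‖(A : Vec (n + 3) →L[ℝ] Vec (n + 3))‖ * 2) < ρ := by
    have h1 : ‖(A : Vec (n + 3) →L[ℝ] Vec (n + 3))‖ * 2 ≤
        ‖(A : Vec (n + 3) →L[ℝ] Vec (n + 3))‖ * emB n :=
      mul_le_mul_of_nonneg_left (by linarith) hA0
    have h2 := mul_le_mul_of_nonneg_left h1 hs.le
    linarith
  have hconf : IsConf M W0 ε (wM W s g' A (Dn.tW δ ε1)) :=
    wM_conf hg A hs hsA2 (Dn.tW_smooth hδ h8 ε1) hwpos
      (fun Y hY => tWD_one hδ h8 ε1 hY) hwε hWW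
  have hriem := conf_riem hq hconf
  obtain ⟨R, δ', hR, hδ', HF⟩ := Hs s hs hss hriem
  refine ⟨wM W s g' A (Dn.tW δ ε1), hconf, hriem, R, δ', hR, hδ', fun F hF hFc κ hκ L hL => ?_⟩
  obtain ⟨μ, B, len, a', c, hμ, hcal, hroom⟩ := HF F hF hFc
  have hφ : (fun x : Vec (n + 3) => g (s • A (pol (1 + δ) (TcD δ x)))) =
      fun x => g (s • A (em δ x)) := by
    funext x
    rw [OT15_pol]
  rw [hφ] at hcal hroom
  exact inClass_of hκ hμ hF hL (exists_chart hg A hδ h8 hs hsA) hcal hroom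

end EscW.Ot
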