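import Pool.Agent.EscW.LC1
import Pool.Agent.EscW.LC2
import Pool.Agent.EscW.LC3
import Pool.Agent.EscW.LC4
import Pool.Agent.EscW.OT15

set_option autoImplicit false

/-!
Project EscW, part LC, module LC5: final theorem with local closeness, dimension at least three.
Copy of the proof of OT15 (store EscW_OT15.lean, helper32), with one more step: `χ` from `exists_cutM` (chart `W ⊆ W0` of `exists_center`), `C` of `glue_close`; `R`, `δ1` of `conf_absT`; `δ = δ1 / C`. For `F`: `F̂ = glue χ (norm of w q) F`; `glue_fins` (`finsler_of_riem`), `glue_close`; `conf_absT` for `F̂`: `μ, B, len, a', c` for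
`μ t * pull φ F̂`; for `X ∈ M'.N ∩ O` the point `φ X = g z`, `‖z‖ ≤ ρ/2` (`phi_mem`), so `χ (φ X) = 1` and `pull φ F̂ X v t = pull φ F X v t`; `cal_congr`, `room_congr`, then `inClass_of` with `F` (`hL` is for `F`).
-/

noncomputable section

namespace EscW.Ot

open Filter Topology Set EscF.T EscM EscMT MeasureTheory EscW.Ex EscW.Dn EscW.On
open scoped ContDiff

variable {d m k j n : ℕ}

theorem LC5_pol (δ : ℝ) (x : Vec (n + 3)) : (pol (1 + δ) (TcD δ x) : Vec (n + 3)) = em δ x := by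
  refine pol_Tc (j := n + 1) (i := (0 : Fin (n + 3))) (R0 := 1 + δ) (ρ := Dn.rr δ) (e := Dn.em δ) ?_ ?_
  · simp [Dn.em]
  · simp [Dn.em]

theorem open_conf_riemL {M : Sub d} {y0 : Vec d} (hy : y0 ∈ M.N)
    (hdim : 3 ≤ Module.finrank ℝ (LinearMap.range (fderiv ℝ M.r y0 : Vec d →ₗ[ℝ] Vec d)))
    {i : ℕ∞} (hi : 2 ≤ i) {q : Vec d → Vec d →L[ℝ] Vec d →L[ℝ] ℝ} (hq : IsRiemannian M i q)
    {W0 : Set (Vec d)} (hW : IsOpen W0) (hy0 : y0 ∈ W0) {ε : ℝ} (hε : 0 < ε) :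
    ∃ w : Vec d → ℝ, IsConf M W0 ε w ∧ IsRiemannian M i (fun p => w p • q p) ∧
      ∃ R δ : ℝ, 0 < R ∧ 0 < δ ∧ ∀ F : Vec d → Vec d → ℝ → ℝ, IsFinslerT M F →
        Close2L M W0 R δ (fun x v => nrm (fun p => w p • q p) x v 0) F → ∀ κ : ℝ → ℝ, IsWeight κ →
          ∀ L : Lag d, IsNearT M κ F L → InClass M L := by
  obtain ⟨n, hn⟩ : ∃ n, Module.finrank ℝ
      (LinearMap.range (fderiv ℝ M.r y0 : Vec d →ₗ[ℝ] Vec d)) = n + 3 :=
    ⟨_, (Nat.sub_add_cancel hdim).symm⟩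
  obtain ⟨W, ρ, g, g', A, hWW, hg, hA⟩ := exists_center hy hn hq hW hy0
  set ε1 : ℝ := min (1 / 4) (ε / 4) with hε1
  have he0 : 0 < ε1 := lt_min (by norm_num) (by linarith)
  have he4 : ε1 ≤ 1 / 4 := min_le_left _ _
  have he8 : ε1 ≤ ε / 4 := min_le_right _ _
  obtain ⟨δ0, hδ00, H⟩ := roomD n he0 he4
  set δ : ℝ := min (min δ0 (ε1 / 8)) (1 / 8) with hδdef
  have hδ : 0 < δ := lt_min (lt_min hδ00 (by linarith)) (by norm_num)
  have h8 : δ ≤ 1 / 8 := min_le_right _ _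
  have hδ0 : δ ≤ δ0 := (min_le_left _ _).trans (min_le_left _ _)
  have hδε : δ ≤ ε1 / 8 := (min_le_left _ _).trans (min_le_right _ _)
  obtain ⟨a, bar, θ0, nn, γ, Hr⟩ := H δ hδ hδ0 1 one_pos
  have hwb : ∀ Y : Vec (n + 3), 1 - 2 * ε1 ≤ Dn.tW δ ε1 Y ∧ Dn.tW δ ε1 Y ≤ 1 := fun Y =>
    Dn.tW_bd he0 he4 hδ hδε Y
  have hwpos : ∀ Y : Vec (n + 3), 0 < Dn.tW δ ε1 Y := fun Y => by linarith [(hwb Y).1]
  have hwε : ∀ Y : Vec (n + 3), |Dn.tW δ ε1 Y ^ 2 - 1| ≤ ε := by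
    intro Y
    obtain ⟨h1, h2⟩ := hwb Y
    have h3 := hwpos Y
    rw [abs_le]
    constructor <;> nlinarith
  have hρ : 0 < ρ := hg.pos
  have hA0 : 0 ≤ ‖(A : Vec (n + 3) →L[ℝ] Vec (n + 3))‖ := norm_nonneg _
  obtain ⟨s0, hs00, Hs⟩ := conf_absT (j := n + 1) hi hq hg A hA (R0 := 1 + δ) (r := δ / 16)
    (by linarith) (by linarith) (by linarith) (Dn.tW_smooth hδ h8 ε1) hwpos
    (baseD hδ h8 he0 he4 hδε one_pos) (AD_closed δ n) (AD_per δ)
    (fun z hz => hz.2) (fun z hz => (AD_tube hδ h8 z hz).1)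
    (fun z hz => AD_pos hδ hz) (coverD hδ h8) Hr
  have hB : (4:ℝ) ≤ emB n := by
    unfold emB
    have : (0:ℝ) ≤ n := Nat.cast_nonneg n
    linarith
  set s : ℝ := min s0 (ρ / (2 * (‖(A : Vec (n + 3) →L[ℝ] Vec (n + 3))‖ + 1) * emB n)) with hsdef
  have hs : 0 < s := lt_min hs00 (by positivity)
  have hss : s ≤ s0 := min_le_left _ _
  have hsA : s * (‖(A : Vec (n + 3) →L[ℝ] Vec (n + 3))‖ * emB n) ≤ ρ / 2 := by
    have h1 : s ≤ ρ / (2 * (‖(A : Vec (n + 3) →L[ℝ] Vec (n + 3))‖ + 1) * emB n) := min_le_right _ _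
    have h2 : s * (2 * (‖(A : Vec (n + 3) →L[ℝ] Vec (n + 3))‖ + 1) * emB n) ≤ ρ :=
      (le_div_iff₀ (by positivity)).1 h1
    have h3 : 0 ≤ s * emB n := by positivity
    nlinarith
  have hsA2 : s * (‖(A : Vec (n + 3) →L[ℝ] Vec (n + 3))‖ * 2) < ρ := by
    have h1 : ‖(A : Vec (n + 3) →L[ℝ] Vec (n + 3))‖ * 2 ≤
        ‖(A : Vec (n + 3) →L[ℝ] Vec (n + 3))‖ * emB n :=
      mul_le_mul_of_nonneg_left (by linarith) hA0
    have h2 := mul_le_mul_of_nonneg_left h1 hs.le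
    linarith
  have hconf : IsConf M W0 ε (wM W s g' A (Dn.tW δ ε1)) :=
    wM_conf hg A hs hsA2 (Dn.tW_smooth hδ h8 ε1) hwpos
      (fun Y hY => tWD_one hδ h8 ε1 hY) hwε hWW
  have hriem := conf_riem hq hconf
  obtain ⟨R, δ', hR, hδ', HF⟩ := Hs s hs hss hriem
  obtain ⟨χ, hχ, hχ1⟩ := exists_cutM hg hWW
  obtain ⟨C, hC, HC⟩ := glue_close hW hχ
  refine ⟨wM W s g' A (Dn.tW δ ε1), hconf, hriem, R, δ' / C, hR, div_pos hδ' hC,
    fun F hF hFc κ hκ L hL => ?_⟩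
  have hF0 : IsFinsler M (fun x v => nrm (fun p => wM W s g' A (Dn.tW δ ε1) p • q p) x v 0) :=
    (finsler_of_riem hriem).fins 0
  have hcl := HC R (δ' / C) _ F hR (div_pos hδ' hC).le hFc
  rw [mul_div_cancel₀ _ hC.ne'] at hcl
  obtain ⟨μ, B, len, a', c, hμ, hcal, hroom⟩ := HF _ (glue_fins hχ hF0 hF) hcl
  have hφ : (fun x : Vec (n + 3) => g (s • A (pol (1 + δ) (TcD δ x)))) =
      fun x => g (s • A (em δ x)) := by
    funext x
    rw [LC5_pol]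
  rw [hφ] at hcal hroom
  have he : ∀ (X v : Vec (n + 3)) (t : ℝ), μ t * pull (fun x => g (s • A (em δ x))) F X v t =
      μ t * pull (fun x => g (s • A (em δ x)))
        (glue χ (fun x v => nrm (fun p => wM W s g' A (Dn.tW δ ε1) p • q p) x v 0) F) X v t := by
    intro X v t
    have h1 := hχ1 _ (phi_mem hg A hδ h8 hs hsA X).1
    simp only [pull, glue]
    rw [h1]
    ring
  exact inClass_of hκ hμ hF hL (exists_chart hg A hδ h8 hs hsA)
    (cal_congr (fun x _ v t => he x v t) hcal) (room_congr (fun x _ v t => he x v t) hroom)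

end EscW.Ot
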