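import Pool.Agent.EscW.LC1
import Pool.Agent.EscW.LC2
import Pool.Agent.EscW.LC3
import Pool.Agent.EscW.LC4
import Pool.Agent.EscW.OT16
import Pool.Agent.EscW.G1

set_option autoImplicit false

/-!
Project EscW, part LC, module LC6: final theorem with local closeness, surfaces. As LC5, with the proof of OT16 (helper74).
-/

noncomputable section

namespace EscW.Ot

open Filter Topology Set EscF.T EscM EscMT MeasureTheory EscW.Ex EscW.Dn EscW.On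
open scoped ContDiff

variable {d m k j n : ℕ}

theorem LC6_pol (δ : ℝ) (x : Vec 3) : pol 1 (TcG δ x) = Gn.em δ x := by
  refine pol_Tc (j := 0) (i := (0 : Fin 3)) (R0 := 1) (ρ := Gn.rr δ) (e := Gn.em δ) ?_ ?_
  · simp [Gn.em]
  · simp [Gn.em]

/-- the glued metric is `F` where the cut-off is one -/
theorem LC6_pull {χ : Vec d → ℝ} {F0 : Vec d → Vec d → ℝ} {F : Vec d → Vec d → ℝ → ℝ} {φ : Vec m → Vec d}
    {x : Vec m} (h : χ (φ x) = 1) (v : Vec m) (t : ℝ) : pull φ (glue χ F0 F) x v t = pull φ F x v t := by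
  unfold pull glue
  rw [h]
  ring

theorem open_conf_surfaceL {M : Sub d} {y0 : Vec d} (hy : y0 ∈ M.N)
    (hdim : Module.finrank ℝ (LinearMap.range (fderiv ℝ M.r y0 : Vec d →ₗ[ℝ] Vec d)) = 2)
    {i : ℕ∞} (hi : 2 ≤ i) {q : Vec d → Vec d →L[ℝ] Vec d →L[ℝ] ℝ} (hq : IsRiemannian M i q)
    {W0 : Set (Vec d)} (hW : IsOpen W0) (hy0 : y0 ∈ W0) {ε : ℝ} (hε : 0 < ε) :
    ∃ w : Vec d → ℝ, IsConf M W0 ε w ∧ IsRiemannian M i (fun p => w p • q p) ∧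
      ∃ R δ : ℝ, 0 < R ∧ 0 < δ ∧ ∀ F : Vec d → Vec d → ℝ → ℝ, IsFinslerT M F →
        Close2L M W0 R δ (fun x v => nrm (fun p => w p • q p) x v 0) F → ∀ κ : ℝ → ℝ, IsWeight κ →
          ∀ L : Lag d, IsNearT M κ F L → InClass M L := by
  obtain ⟨M', hM⟩ := Gn.exists_sub_level Gn.Fe_smooth Gn.Fe_per Gn.Fe_reg
  obtain ⟨W, ρ, g, g', A, hWW, hg, hA⟩ := exists_center hy hdim hq hW hy0
  set ε1 : ℝ := min (1 / 4) (ε / 4) with hε1
  have he0 : 0 < ε1 := lt_min (by norm_num) (by linarith)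
  have he4 : ε1 ≤ 1 / 4 := min_le_left _ _
  have he8 : ε1 ≤ ε / 4 := min_le_right _ _
  obtain ⟨δ0, hδ00, H⟩ := roomG he0 he4
  set δ : ℝ := min (min δ0 (ε1 / 8)) (1 / 8) with hδdef
  have hδ : 0 < δ := lt_min (lt_min hδ00 (by linarith)) (by norm_num)
  have h8 : δ ≤ 1 / 8 := min_le_right _ _
  have hδ0 : δ ≤ δ0 := (min_le_left _ _).trans (min_le_left _ _)
  have hδε : δ ≤ ε1 / 8 := (min_le_left _ _).trans (min_le_right _ _)
  obtain ⟨a, bar, θ0, nn, γ, Hr⟩ := H δ hδ hδ0 1 one_pos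
  have hwb : ∀ Y : Vec 2, 1 - 2 * ε1 ≤ Gn.tW δ ε1 Y ∧ Gn.tW δ ε1 Y ≤ 1 := fun Y =>
    Gn.tW_bd he0 he4 hδ hδε Y
  have hwpos : ∀ Y : Vec 2, 0 < Gn.tW δ ε1 Y := fun Y => by linarith [(hwb Y).1]
  have hwε : ∀ Y : Vec 2, |Gn.tW δ ε1 Y ^ 2 - 1| ≤ ε := by
    intro Y
    obtain ⟨h1, h2⟩ := hwb Y
    have h3 := hwpos Y
    rw [abs_le]
    constructor <;> nlinarith
  have hρ : 0 < ρ := hg.pos
  have hA0 : 0 ≤ ‖(A : Vec 2 →L[ℝ] Vec 2)‖ := norm_nonneg _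
  obtain ⟨s0, hs00, Hs⟩ := conf_absT (j := 0) hi hq hg A hA (R0 := 1) (r := δ / 16) le_rfl
    (by norm_num) (by linarith) (Gn.tW_smooth hδ h8 ε1) hwpos
    (baseG hδ h8 he0 he4 hδε one_pos) (AG_closed δ) (AG_per δ)
    (fun z hz => hz.2.2.trans (by norm_num)) (fun z hz => (AG_tube hδ h8 z hz).1)
    (fun z hz => AG_pos hz) (coverG hM hδ h8) (Hr M' hM)
  set s : ℝ := min s0 (ρ / (4 * (‖(A : Vec 2 →L[ℝ] Vec 2)‖ + 1))) with hsdef
  have hs : 0 < s := lt_min hs00 (by positivity)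
  have hss : s ≤ s0 := min_le_left _ _
  have hsA : s * (‖(A : Vec 2 →L[ℝ] Vec 2)‖ * 2) ≤ ρ / 2 := by
    have h1 : s ≤ ρ / (4 * (‖(A : Vec 2 →L[ℝ] Vec 2)‖ + 1)) := min_le_right _ _
    have h2 : s * (4 * (‖(A : Vec 2 →L[ℝ] Vec 2)‖ + 1)) ≤ ρ := (le_div_iff₀ (by positivity)).1 h1
    nlinarith
  have hconf : IsConf M W0 ε (wM W s g' A (Gn.tW δ ε1)) :=
    wM_conf hg A hs (by linarith) (Gn.tW_smooth hδ h8 ε1) hwpos
      (fun Y hY => tWG_one hδ h8 ε1 hY) hwε hWW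
  have hriem := conf_riem hq hconf
  obtain ⟨χ, hχ, hχ1⟩ := exists_cutM hg hWW
  obtain ⟨C, hC, hgl⟩ := glue_close hW hχ
  obtain ⟨R, δ', hR, hδ', HF⟩ := Hs s hs hss hriem
  refine ⟨wM W s g' A (Gn.tW δ ε1), hconf, hriem, R, δ' / C, hR, div_pos hδ' hC,
    fun F hF hFc κ hκ L hL => ?_⟩
  set F0 : Vec d → Vec d → ℝ := fun x v => nrm (fun p => wM W s g' A (Gn.tW δ ε1) p • q p) x v 0 with hF0
  have hFin : IsFinsler M F0 := (finsler_of_riem hriem).fins 0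
  have hcl : Close2T M R δ' F0 (glue χ F0 F) := by
    have h := hgl R (δ' / C) F0 F hR (div_pos hδ' hC).le hFc
    rwa [mul_div_cancel₀ _ hC.ne'] at h
  obtain ⟨μ, B, len, a', c, hμ, hcal, hroom⟩ := HF (glue χ F0 F) (glue_fins hχ hFin hF) hcl
  have hφ : (fun x : Vec 3 => g (s • A (pol 1 (TcG δ x)))) = fun x => g (s • A (Gn.em δ x)) := by
    funext x
    rw [LC6_pol]
  rw [hφ] at hcal hroom
  have he : ∀ x ∈ M'.N ∩ Gn.SO, ∀ v t, μ t * pull (fun x => g (s • A (Gn.em δ x))) F x v t =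
      μ t * pull (fun x => g (s • A (Gn.em δ x))) (glue χ F0 F) x v t := by
    intro x _ v t
    rw [LC6_pull (φ := fun x : Vec 3 => g (s • A (Gn.em δ x))) (x := x)
      (hχ1 _ (Gn.phi_mem hg A hδ h8 hs hsA x).1)]
  exact inClass_of hκ hμ hF hL (Gn.exists_chart hg A hM hδ h8 hs hsA) (cal_congr he hcal)
    (room_congr he hroom)

end EscW.Ot
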