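import Pool.Agent.EscW.LC5
import Pool.Agent.EscW.LC6

set_option autoImplicit false

/-!
Project EscW, part LC, module LC7: final theorem with local closeness. `u`, `v` are in the range of `fderiv M.r y0`, so its dimension is at least two (as in G9, CF11, OT17).
-/

noncomputable section

namespace EscW.Ot

open Filter Topology Set EscF.T EscM EscMT MeasureTheory EscW.Ex EscW.Dn EscW.On
open scoped ContDiff

variable {d m k j n : ℕ}

/-- two independent tangent vectors: the dimension is at least two -/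
theorem LC7_two_le {M : Sub d} {y0 u v : Vec d} (hu : IsTangent M y0 u) (hv : IsTangent M y0 v)
    (huv : LinearIndependent ℝ ![u, v]) :
    2 ≤ Module.finrank ℝ (LinearMap.range (fderiv ℝ M.r y0 : Vec d →ₗ[ℝ] Vec d)) := by
  have hle : Submodule.span ℝ (Set.range ![u, v]) ≤
      LinearMap.range (fderiv ℝ M.r y0 : Vec d →ₗ[ℝ] Vec d) := by
    rw [Submodule.span_le]
    rintro _ ⟨i, rfl⟩
    fin_cases i
    · exact ⟨u, hu⟩
    · exact ⟨v, hv⟩
  have h2 : Module.finrank ℝ (Submodule.span ℝ (Set.range ![u, v])) = 2 := by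
    rw [finrank_span_eq_card huv, Fintype.card_fin]
  rw [← h2]
  exact Submodule.finrank_mono hle

theorem open_conformalL {M : Sub d} {y0 u v : Vec d} (hy : y0 ∈ M.N) (hu : IsTangent M y0 u)
    (hv : IsTangent M y0 v) (huv : LinearIndependent ℝ ![u, v])
    {i : ℕ∞} (hi : 2 ≤ i) {q : Vec d → Vec d →L[ℝ] Vec d →L[ℝ] ℝ} (hq : IsRiemannian M i q)
    {W0 : Set (Vec d)} (hW : IsOpen W0) (hy0 : y0 ∈ W0) {ε : ℝ} (hε : 0 < ε) :
    ∃ w : Vec d → ℝ, IsConf M W0 ε w ∧ IsRiemannian M i (fun p => w p • q p) ∧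
      ∃ R δ : ℝ, 0 < R ∧ 0 < δ ∧ ∀ F : Vec d → Vec d → ℝ → ℝ, IsFinslerT M F →
        Close2L M W0 R δ (fun x v => nrm (fun p => w p • q p) x v 0) F → ∀ κ : ℝ → ℝ, IsWeight κ →
          ∀ L : Lag d, IsNearT M κ F L → InClass M L := by
  rcases (LC7_two_le hu hv huv).eq_or_lt with h | h
  · exact open_conf_surfaceL hy h.symm hi hq hW hy0 hε
  · exact open_conf_riemL hy h hi hq hW hy0 hε

end EscW.Ot
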