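import Pool.Agent.EscW.OTDefs

set_option autoImplicit false

/-!
Project EscW, part LC, definitions: closeness of the metrics on an open set only.
-/

noncomputable section

namespace EscW.Ot

open Filter Topology Set EscF.T EscM EscMT MeasureTheory EscW.Ex EscW.Dn EscW.On
open scoped ContDiff

variable {d m k j n : ℕ}

/-- a smooth cut-off on `M`, supported in `W0 + ℤᵈ` -/
structure IsCutM (M : Sub d) (W0 : Set (Vec d)) (χ : Vec d → ℝ) : Prop where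
  smooth : ContDiffOn ℝ ∞ (fun x => χ (M.r x)) M.U
  periodic : ∀ (l : Fin d → ℤ), ∀ x ∈ M.N, χ (x + vz l) = χ x
  mem01 : ∀ x ∈ M.N, 0 ≤ χ x ∧ χ x ≤ 1
  supp : ∀ x ∈ M.N, (∀ l : Fin d → ℤ, x + vz l ∉ W0) → ∀ᶠ y in 𝓝 x, χ (M.r y) = 0

/-- the family `F'` is near `F` in `C²` at the points of `W0 + ℤᵈ`, on the tangent vectors of length between
`1 / R` and `R` -/
structure Close2L (M : Sub d) (W0 : Set (Vec d)) (R δ : ℝ) (F : Vec d → Vec d → ℝ)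
    (F' : Vec d → Vec d → ℝ → ℝ) : Prop where
  smooth : ContDiffOn ℝ 2 (fun z : (Vec d × Vec d) × ℝ => ext M (fun x v => F' x v z.2) z.1 - ext M F z.1)
    {z | z.1 ∈ TD M ∧ ∃ l : Fin d → ℤ, M.r z.1.1 + vz l ∈ W0}
  close : ∀ t, ∀ x ∈ M.N, (∃ l : Fin d → ℤ, x + vz l ∈ W0) → ∀ v, IsTangent M x v → 1 / R ≤ ‖v‖ → ‖v‖ ≤ R →
    ∀ i : ℕ, i ≤ 2 → ‖iteratedFDeriv ℝ i (fun z => ext M (fun x v => F' x v t) z - ext M F z) (x, v)‖ ≤ δ

/-- the metric `F` where `χ = 1`, `F0` where `χ = 0` -/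
def glue (χ : Vec d → ℝ) (F0 : Vec d → Vec d → ℝ) (F : Vec d → Vec d → ℝ → ℝ) (x v : Vec d) (t : ℝ) : ℝ :=
  χ x * F x v t + (1 - χ x) * F0 x v

end EscW.Ot
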