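import Pool.Agent.EscW.LLDefs
import Pool.Agent.EscW.OT12

set_option autoImplicit false

/-!
Project EscW, part LL, module LL0: the class over `W`.
`inClassIn_of`: copy of `inClass_of` (OT12; use its lemmas `OT12_weight`, ...), with the additional condition. The others are immediate.
-/

noncomputable section

namespace EscW.Lo

open Filter Topology Set EscF.T EscM EscMT MeasureTheory
open scoped ContDiff

variable {d m k j n : ℕ}

theorem inClassIn_of {M : Sub d} {W : Set (Vec d)} {κ μ : ℝ → ℝ} (hκ : IsWeight κ) (hμ : IsWeight μ)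
    {F : Vec d → Vec d → ℝ → ℝ} (hF : IsFinslerT M F) {L : Lag d} (hL : IsNearT M κ F L) {M' : Sub m}
    {O K : Set (Vec m)} {G : Subgroup (Vec m ≃ₗᵢ[ℝ] Vec m)} {φ : Vec m → Vec d} (hφ : IsChart M M' O G φ)
    (hW : ∀ x ∈ K, Ov W (φ x)) {B : Vec m → ℝ → ℝ} {i : Fin m} {len a : ℝ} {c : ℝ → ℝ → Vec m}
    (hc : IsCalibratedW M' O φ (fun x v t => μ t * pull φ F x v t) B i len c)
    (hr : IsRoom M' O K (fun x v t => μ t * pull φ F x v t) B i c a) : InClassIn M W L := by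
  have hne : M.N.Nonempty := ⟨_, hφ.maps _ (hc.mem 0 0)⟩
  refine ⟨fun t => κ t / μ t ^ 2, fun x v t => μ t * F x v t, m, M', O, K, G, φ, B, i, len, a, c,
    Ot.OT12_weight hκ hμ, Ot.OT12_fins hμ hne hF, ⟨hL.smooth, hL.periodic, hL.convex, ?_⟩, hφ, hW, hc, hr⟩
  obtain ⟨C, hC⟩ := hL.near
  refine ⟨C, fun x hx v t hv x' hx' v' t' hv' => ?_⟩
  have e : ∀ (s y : ℝ), κ s / μ s ^ 2 * (μ s * y) ^ 2 / 2 = κ s * y ^ 2 / 2 := fun s y => by
    have := (hμ.pos s).ne'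
    field_simp
  show |(L (x, v, t) - κ t / μ t ^ 2 * (μ t * F x v t) ^ 2 / 2) -
    (L (x', v', t') - κ t' / μ t' ^ 2 * (μ t' * F x' v' t') ^ 2 / 2)| ≤ _
  rw [e, e]
  exact hC x hx v t hv x' hx' v' t' hv'

theorem inClass_of_in {M : Sub d} {W : Set (Vec d)} {L : Lag d} (h : InClassIn M W L) : InClass M L := by
  obtain ⟨κ, F, m, M', O, K, G, φ, B, i, len, a, c, h1, h2, h3, h4, _, h6, h7⟩ := h
  exact ⟨κ, F, m, M', O, K, G, φ, B, i, len, a, c, h1, h2, h3, h4, h6, h7⟩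

theorem ov_mono {W W' : Set (Vec d)} (hW : W ⊆ W') {x : Vec d} (h : Ov W x) : Ov W' x := by
  obtain ⟨l, hl⟩ := h
  exact ⟨l, hW hl⟩

theorem inClassIn_mono {M : Sub d} {W W' : Set (Vec d)} (hW : W ⊆ W') {L : Lag d} (h : InClassIn M W L) :
    InClassIn M W' L := by
  obtain ⟨κ, F, m, M', O, K, G, φ, B, i, len, a, c, h1, h2, h3, h4, h5, h6, h7⟩ := h
  exact ⟨κ, F, m, M', O, K, G, φ, B, i, len, a, c, h1, h2, h3, h4, fun x hx => ov_mono hW (h5 x hx), h6, h7⟩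

theorem escapesIn_mono {M : Sub d} {W W' : Set (Vec d)} (hW : W ⊆ W') {L : Lag d} (h : EscapesIn M W L) :
    EscapesIn M W' L := by
  obtain ⟨x, h1, h2, h3⟩ := h
  exact ⟨x, h1, fun t ht => ov_mono hW (h2 t ht), h3⟩

theorem escapes_of_in {M : Sub d} {W : Set (Vec d)} {L : Lag d} (h : EscapesIn M W L) :
    EscapesToInfinity M L := by
  obtain ⟨x, h1, _, h3⟩ := h
  exact ⟨x, h1, h3⟩

end EscW.Lo
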