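import Pool.Agent.EscW.SDefs
import Pool.Agent.EscW.S1

set_option autoImplicit false
set_option linter.unusedSectionVars false

/-!
Project EscW, module S3a: the push forward of a perturbation by the chart, multiplied by the invariant cut-off,
is a potential on `M`. `S3a_val`: the value does not depend on the representative. Smoothness: near a point
`w0` with `r w0 = φ x0 + l` the push forward is `Θ g` composed with `(w, t) ↦ (ψ (r w - l), t)`, where `ψ` is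
the local inverse at `x0`; near the other points of `U` it vanishes, since the image of the set `Θ ≠ 0`
is contained in a closed subset of the image of the chart.
-/

noncomputable section

namespace EscW

open MeasureTheory Set Filter Topology Esc EscF EscG EscM EscMT EscF.T
open scoped ContDiff

variable {d m : ℕ} {k : ℕ∞} {M : Sub d} {M' : Sub m} {O K : Set (Vec m)}
  {G : Subgroup (Vec m ≃ₗᵢ[ℝ] Vec m)} {φ : Vec m → Vec d} {ρ a0 : ℝ} {χ : Vec m → ℝ} {R : Vec m → Vec m}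
  {Θ : Vec m → ℝ}

/-- the value at a representative -/
theorem S3a_val (hC : IsChart M M' O G φ) (hΘ : CutG K G a0 Θ) {g : Vec m → ℝ → ℝ} (hg : MClW M' G g)
    {w : Vec d} (hw : w ∈ M.U) {x : Vec m} (hx : x ∈ M'.N ∩ O) {l : Fin d → ℤ} (h : M.r w = φ x + vz l)
    (t : ℝ) : push M M' O φ Θ g (w, t) = Θ x * g x t := by
  classical
  have hc : (w, t).1 ∈ M.U ∧ ∃ x : Vec m, x ∈ M'.N ∩ O ∧ ∃ l : Fin d → ℤ, M.r (w, t).1 = φ x + vz l :=
    ⟨hw, x, hx, l, h⟩
  have e : push M M' O φ Θ g (w, t) = Θ hc.2.choose * g hc.2.choose t := by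
    unfold push
    rw [dif_pos hc]
  rw [e]
  obtain ⟨hx', l', hl'⟩ := hc.2.choose_spec
  generalize hc.2.choose = x' at hx' hl'
  have h1 : φ x = φ x' + vz (l' + -l) := by
    have h2 : φ x + vz l = φ x' + vz l' := by
      rw [← h]
      exact hl'
    rw [vz_add', vz_neg', ← add_assoc, ← h2, add_neg_cancel_right]
  obtain ⟨P, hP, n, hn⟩ := (hC.fibre x' hx' x hx).1 ⟨_, h1⟩
  have h2 : Θ x = Θ x' := by rw [hn, hΘ.per, hΘ.inv P hP]
  have h3 : g x t = g x' t := by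
    rw [hn, per_vz (g := fun x => g x t) (fun i x => hg.1.per i x t) n (P x'), hg.2.2 P hP x' hx'.1 t]
  rw [h2, h3]

/-- the value outside the image of the chart -/
theorem S3a_zero {g : Vec m → ℝ → ℝ} {w : Vec d} (t : ℝ)
    (h : ¬ (w ∈ M.U ∧ ∃ x : Vec m, x ∈ M'.N ∩ O ∧ ∃ l : Fin d → ℤ, M.r w = φ x + vz l)) :
    push M M' O φ Θ g (w, t) = 0 := by
  classical
  unfold push
  rw [dif_neg h]

theorem push_phi (hC : IsChart M M' O G φ) (hΘ : CutG K G a0 Θ) {g : Vec m → ℝ → ℝ} (hg : MClW M' G g)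
    {x : Vec m} (hx : x ∈ M'.N ∩ O) (t : ℝ) : push M M' O φ Θ g (φ x, t) = Θ x * g x t := by
  have h := hC.maps x hx
  refine S3a_val hC hΘ hg (M.sub h) hx (l := 0) ?_ t
  rw [r_self M h, vz_zero', add_zero]

theorem S3a_fund (m : ℕ) : ∃ C : ℝ, ∀ x : Vec m, ∃ n : Fin m → ℤ, ‖x + vz n‖ ≤ C := by
  refine ⟨Real.sqrt m, fun x => ⟨fun i => -⌊x i⌋, ?_⟩⟩
  rw [EuclideanSpace.norm_eq]
  apply Real.sqrt_le_sqrt
  have h : ∀ i ∈ Finset.univ, ‖(x + vz (fun i => -⌊x i⌋) : Vec m) i‖ ^ 2 ≤ 1 := by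
    intro i _
    have h1 : (x + vz (fun i => -⌊x i⌋) : Vec m) i = Int.fract (x i) := by
      simp [vz, Int.fract, sub_eq_add_neg]
    rw [h1, Real.norm_eq_abs, sq_abs]
    have h2 := Int.fract_nonneg (x i)
    have h3 := (Int.fract_lt_one (x i)).le
    nlinarith
  refine (Finset.sum_le_sum h).trans ?_
  simp

theorem S3a_lat (d : ℕ) : IsClosed (Set.range (fun l : Fin d → ℤ => (vz l : Vec d))) := by
  have h : Set.range (fun l : Fin d → ℤ => (vz l : Vec d)) =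
      ⋂ i, (fun x : Vec d => x i) ⁻¹' Set.range (fun n : ℤ => (n : ℝ)) := by
    ext x
    simp only [Set.mem_range, Set.mem_iInter, Set.mem_preimage]
    constructor
    · rintro ⟨l, rfl⟩ i
      exact ⟨l i, by simp [vz]⟩
    · intro hx
      choose l hl using hx
      refine ⟨l, ?_⟩
      ext i
      simp [vz, hl i]
  rw [h]
  refine isClosed_iInter fun i => ?_
  exact Int.isClosedEmbedding_coe_real.isClosed_range.preimage (by fun_prop)

theorem S3a_infDist {K : Set (Vec m)} (hK : ∀ (n : Fin m → ℤ), ∀ x ∈ K, x + vz n ∈ K) (n : Fin m → ℤ)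
    (x : Vec m) : Metric.infDist (x + vz n) K = Metric.infDist x K := by
  have himg : (fun y => y + vz n) '' K = K := by
    ext y
    constructor
    · rintro ⟨z, hz, rfl⟩
      exact hK n z hz
    · intro hy
      refine ⟨y + vz (-n), hK (-n) y hy, ?_⟩
      show y + vz (-n) + vz n = y
      rw [vz_neg', neg_add_cancel_right]
  have h := Metric.infDist_image (isometry_add_right (vz n : Vec m)) (x := x) (t := K)
  rw [himg] at h
  exact h

/-- the set of representatives where `Θ` may be nonzero -/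
def S3a_C (M' : Sub m) (K : Set (Vec m)) (a0 C : ℝ) : Set (Vec m) :=
  M'.N ∩ {x | Metric.infDist x K ≤ 2 * a0} ∩ Metric.closedBall 0 C

theorem S3a_C_sub (hT : TubeW M' O K ρ a0 χ R) (C : ℝ) : S3a_C M' K a0 C ⊆ M'.N ∩ O := by
  rintro x ⟨⟨h1, h2⟩, _⟩
  refine ⟨h1, hT.room x ?_⟩
  have h3 := hT.a0_pos
  have h4 : Metric.infDist x K ≤ 2 * a0 := h2
  linarith

theorem S3a_C_compact (M' : Sub m) (K : Set (Vec m)) (a0 C : ℝ) : IsCompact (S3a_C M' K a0 C) := by
  have h : IsClosed (M'.N ∩ {x | Metric.infDist x K ≤ 2 * a0}) :=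
    M'.closed.inter (isClosed_le (Metric.continuous_infDist_pt K) continuous_const)
  exact (isCompact_closedBall (0 : Vec m) C).inter_left h

/-- a closed subset of the image of the chart -/
def S3a_S (M' : Sub m) (K : Set (Vec m)) (φ : Vec m → Vec d) (a0 C : ℝ) : Set (Vec d) :=
  {w | ∃ x ∈ S3a_C M' K a0 C, ∃ l : Fin d → ℤ, w = φ x + vz l}

open scoped Pointwise in
theorem S3a_closed (hC : IsChart M M' O G φ) (hT : TubeW M' O K ρ a0 χ R) (C : ℝ) :
    IsClosed (S3a_S M' K φ a0 C) := by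
  have h : S3a_S M' K φ a0 C =
      φ '' S3a_C M' K a0 C + Set.range (fun l : Fin d → ℤ => (vz l : Vec d)) := by
    ext w
    rw [Set.mem_add]
    constructor
    · rintro ⟨x, hx, l, rfl⟩
      exact ⟨φ x, ⟨x, hx, rfl⟩, vz l, ⟨l, rfl⟩, rfl⟩
    · rintro ⟨_, ⟨x, hx, rfl⟩, _, ⟨l, rfl⟩, he⟩
      exact ⟨x, hx, l, he.symm⟩
  rw [h]
  refine (S3a_lat d).add_left_of_isCompact ((S3a_C_compact M' K a0 C).image_of_continuousOn ?_)
  exact hC.smooth.continuousOn.mono fun x hx => (S3a_C_sub hT C hx).2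

theorem S3a_out (hC : IsChart M M' O G φ) (hT : TubeW M' O K ρ a0 χ R) (hΘ : CutG K G a0 Θ)
    {g : Vec m → ℝ → ℝ} (hg : MClW M' G g) {C : ℝ} (hCm : ∀ x : Vec m, ∃ n : Fin m → ℤ, ‖x + vz n‖ ≤ C)
    {w : Vec d} (t : ℝ)
    (h : M.r w ∉ S3a_S M' K φ a0 C) : push M M' O φ Θ g (w, t) = 0 := by
  by_cases hc : w ∈ M.U ∧ ∃ x : Vec m, x ∈ M'.N ∩ O ∧ ∃ l : Fin d → ℤ, M.r w = φ x + vz l
  swap
  · exact S3a_zero t hc
  obtain ⟨hw, x, hx, l, hl⟩ := hc
  rw [S3a_val hC hΘ hg hw hx hl]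
  have h0 : Θ x = 0 := by
    by_contra hne
    have h1 : ∃ P ∈ G, Metric.infDist (P x) K < 2 * a0 := by
      by_contra hno
      push Not at hno
      exact hne (hΘ.zero x hno)
    obtain ⟨P, hP, hlt⟩ := h1
    obtain ⟨n, hn⟩ := hCm (P x)
    have hz : P x + vz n ∈ M'.N ∩ O :=
      ⟨M'.perN n _ (hC.mapsN P hP x hx.1), hC.perO n _ (hC.mapsO P hP x hx.2)⟩
    obtain ⟨l', hl'⟩ := (hC.fibre x hx (P x + vz n) hz).2 ⟨P, hP, n, rfl⟩
    refine h ?_
    refine ⟨P x + vz n, ⟨⟨hz.1, ?_⟩, ?_⟩, l + -l', ?_⟩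
    · show Metric.infDist (P x + vz n) K ≤ 2 * a0
      rw [S3a_infDist hT.perK]
      exact hlt.le
    · rw [mem_closedBall_zero_iff]
      exact hn
    · rw [hl, hl', vz_add', vz_neg']
      abel
  rw [h0, zero_mul]

theorem S3a_smooth (hC : IsChart M M' O G φ) (hT : TubeW M' O K ρ a0 χ R) (hΘ : CutG K G a0 Θ)
    {g : Vec m → ℝ → ℝ} (hg : MClW M' G g) {w0 : Vec d} (hw : w0 ∈ M.U) (t0 : ℝ) :
    ContDiffAt ℝ ∞ (push M M' O φ Θ g) (w0, t0) := by
  have hr : ContDiffAt ℝ ∞ M.r w0 := M.smooth.contDiffAt (M.isOpen.mem_nhds hw)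
  have hU : ∀ᶠ q : Vec d × ℝ in 𝓝 (w0, t0), q.1 ∈ M.U :=
    (continuous_fst.continuousAt (x := (w0, t0))).eventually (M.isOpen.mem_nhds hw)
  by_cases hc : ∃ x : Vec m, x ∈ M'.N ∩ O ∧ ∃ l : Fin d → ℤ, M.r w0 = φ x + vz l
  · obtain ⟨x0, hx0, l, hl⟩ := hc
    obtain ⟨ψ, hψ, _, hev⟩ := hC.inverse x0 hx0
    have hρ : ContDiffAt ℝ ∞ (fun q : Vec d × ℝ => M.r q.1 - vz l) (w0, t0) :=
      (ContDiffAt.comp (w0, t0) (f := fun q : Vec d × ℝ => q.1) hr contDiffAt_fst).sub contDiffAt_const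
    have hρ0 : M.r w0 - vz l = φ x0 := by rw [hl, add_sub_cancel_right]
    have hψ' : ContDiffAt ℝ ∞ (fun q : Vec d × ℝ => ψ (M.r q.1 - vz l)) (w0, t0) := by
      refine ContDiffAt.comp (w0, t0) (f := fun q : Vec d × ℝ => M.r q.1 - vz l) ?_ hρ
      show ContDiffAt ℝ ∞ ψ (M.r w0 - vz l)
      rw [hρ0]
      exact hψ
    have h1 : ContDiffAt ℝ ∞ (fun q : Vec d × ℝ => Θ (ψ (M.r q.1 - vz l)) * g (ψ (M.r q.1 - vz l)) q.2)
        (w0, t0) := by
      have h2 : ContDiffAt ℝ ∞ (fun q : Vec d × ℝ => Θ (ψ (M.r q.1 - vz l))) (w0, t0) :=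
        ContDiffAt.comp (w0, t0) (f := fun q : Vec d × ℝ => ψ (M.r q.1 - vz l))
          hΘ.smooth.contDiffAt hψ'
      have h3 : ContDiffAt ℝ ∞ (fun q : Vec d × ℝ => g (ψ (M.r q.1 - vz l)) q.2) (w0, t0) :=
        ContDiffAt.comp (w0, t0) (g := fun p : Vec m × ℝ => g p.1 p.2)
          (f := fun q : Vec d × ℝ => (ψ (M.r q.1 - vz l), q.2)) hg.1.smooth.contDiffAt
          (hψ'.prodMk contDiffAt_snd)
      exact h2.mul h3
    refine h1.congr_of_eventuallyEq ?_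
    have hev' : ∀ᶠ q : Vec d × ℝ in 𝓝 (w0, t0), M.r q.1 - vz l ∈ M.N →
        ψ (M.r q.1 - vz l) ∈ M'.N ∩ O ∧ φ (ψ (M.r q.1 - vz l)) = M.r q.1 - vz l := by
      have h4 := hρ.continuousAt
      unfold ContinuousAt at h4
      simp only [hρ0] at h4
      exact h4.eventually hev
    filter_upwards [hU, hev'] with q hq hq'
    have h5 : M.r q.1 - vz l ∈ M.N := by
      rw [sub_eq_add_neg, ← vz_neg']
      exact M.perN (-l) _ (M.mem _ hq)
    obtain ⟨h6, h7⟩ := hq' h5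
    exact S3a_val hC hΘ hg hq h6 (l := l) (by rw [h7, sub_add_cancel]) q.2
  · obtain ⟨C, hCm⟩ := S3a_fund m
    have hcl := S3a_closed (C := C) hC hT
    have hn : M.r w0 ∈ (S3a_S M' K φ a0 C)ᶜ := by
      rintro ⟨x, hx, l, he⟩
      exact hc ⟨x, S3a_C_sub hT C hx, l, he⟩
    have hev : ∀ᶠ q : Vec d × ℝ in 𝓝 (w0, t0), M.r q.1 ∈ (S3a_S M' K φ a0 C)ᶜ := by
      have h4 : ContinuousAt (fun q : Vec d × ℝ => M.r q.1) (w0, t0) :=
        ContinuousAt.comp (x := (w0, t0)) (f := fun q : Vec d × ℝ => q.1) hr.continuousAt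
          continuous_fst.continuousAt
      exact h4.eventually (hcl.isOpen_compl.mem_nhds hn)
    refine (contDiffAt_const (c := (0 : ℝ))).congr_of_eventuallyEq ?_
    filter_upwards [hev] with q hq
    exact S3a_out hC hT hΘ hg hCm q.2 hq

/-- the push forward as a potential on `M` -/
theorem exists_pot (hC : IsChart M M' O G φ) (hT : TubeW M' O K ρ a0 χ R) (hΘ : CutG K G a0 Θ)
    {g : Vec m → ℝ → ℝ} (hg : MClW M' G g) : ∃ f : EscM.Pot M k, f.toFun = push M M' O φ Θ g := by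
  have hk : (k : WithTop ℕ∞) ≤ ∞ := by exact_mod_cast le_top
  have hcase : ∀ w ∈ M.U, (∃ x : Vec m, x ∈ M'.N ∩ O ∧ ∃ l : Fin d → ℤ, M.r w = φ x + vz l) ∨
      ¬ ∃ x : Vec m, x ∈ M'.N ∩ O ∧ ∃ l : Fin d → ℤ, M.r w = φ x + vz l := fun w _ => em _
  refine ⟨⟨push M M' O φ Θ g, ?_, ?_, ?_, ?_⟩, rfl⟩
  · rintro ⟨w, t⟩ hq
    exact ((S3a_smooth hC hT hΘ hg hq t).of_le hk).contDiffWithinAt
  · intro w hw t
    have hrU : M.r w ∈ M.U := M.sub (M.mem w hw)
    have hrr : M.r (M.r w) = M.r w := r_self M (M.mem w hw)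
    rcases hcase w hw with ⟨x, hx, l, hl⟩ | hno
    · rw [S3a_val hC hΘ hg hw hx hl, S3a_val hC hΘ hg hrU hx (l := l) (by rw [hrr, hl])]
    · rw [S3a_zero t (fun h => hno h.2), S3a_zero t (fun h => hno (by rw [hrr] at h; exact h.2))]
  · intro w hw t
    exact S3a_zero t (fun h => hw h.1)
  · intro n j w hw t
    have hwU : w + vz n ∈ M.U := M.perU n w hw
    have hrn : M.r (w + vz n) = M.r w + vz n := r_vz M n hw
    rcases hcase w hw with ⟨x, hx, l, hl⟩ | hno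
    · rw [S3a_val hC hΘ hg hw hx hl,
        S3a_val hC hΘ hg hwU hx (l := l + n) (by rw [hrn, hl, vz_add', add_assoc])]
      congr 1
      have hp : Function.Periodic (fun s => g x s) 1 := fun s => hg.1.pert x s
      have h := hp.int_mul j t
      simpa using h
    · rw [S3a_zero t (fun h => hno h.2)]
      refine S3a_zero (t + j) (fun h => hno ?_)
      obtain ⟨x, hx, l, hl⟩ := h.2
      refine ⟨x, hx, l + -n, ?_⟩
      rw [vz_add', vz_neg', ← add_assoc, ← hl, hrn, add_neg_cancel_right]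

end EscW
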