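import Pool.Agent.EscW.SDefs
import Pool.Agent.EscM.N0
import Pool.Agent.EscM.N1
import Pool.Agent.EscM.N5b
import Pool.Agent.EscG.O2

set_option autoImplicit false

/-!
Project EscW, module S3b: local formulas for the push forward, bounds of its derivatives (helper46).
-/

set_option linter.unusedVariables false

noncomputable section

namespace EscW

open MeasureTheory Set Filter Topology Esc EscF EscG EscM EscMT EscF.T
open scoped ContDiff

/-! ### bounds for derivatives -/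

section General

variable {V W : Type*} [NormedAddCommGroup V] [NormedSpace ℝ V] [NormedAddCommGroup W] [NormedSpace ℝ W]

theorem S3b_comp {Φ : V → W} {Ω : Set V} (hΩ : IsOpen Ω) {r : ℕ}
    (hΦ : ContDiffOn ℝ r Φ Ω) {g : W → ℝ} (hg : ContDiff ℝ ∞ g) {q : V} (hq : q ∈ Ω) {S D : ℝ}
    (hS : ∀ i ≤ r, ‖iteratedFDeriv ℝ i g (Φ q)‖ ≤ S) (hD1 : 1 ≤ D)
    (hD : ∀ i, 1 ≤ i → i ≤ r → ‖iteratedFDeriv ℝ i Φ q‖ ≤ D ^ i) {j : ℕ} (hj : j ≤ r) :
    ‖iteratedFDeriv ℝ j (fun z => g (Φ z)) q‖ ≤ (r.factorial : ℝ) * D ^ r * S := by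
  have hS0 : 0 ≤ S := (norm_nonneg _).trans (hS 0 (Nat.zero_le r))
  have hgr : ContDiffOn ℝ r g univ := (hg.of_le (by exact_mod_cast le_top)).contDiffOn
  have h := norm_iteratedFDerivWithin_comp_le (𝕜 := ℝ) (g := g) (f := Φ) (n := j) (s := Ω) (t := univ)
    (x := q) (N := r) hgr hΦ (by exact_mod_cast hj) uniqueDiffOn_univ hΩ.uniqueDiffOn
    (mapsTo_univ _ _) hq (C := S) (D := D)
    (fun i hi => by rw [iteratedFDerivWithin_univ]; exact hS i (hi.trans hj))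
    (fun i h1 hi => by rw [iteratedFDerivWithin_of_isOpen i hΩ hq]; exact hD i h1 (hi.trans hj))
  rw [iteratedFDerivWithin_of_isOpen j hΩ hq] at h
  refine h.trans ?_
  have h1 : (j.factorial : ℝ) ≤ r.factorial := by exact_mod_cast Nat.factorial_le hj
  have h2 : D ^ j ≤ D ^ r := pow_le_pow_right₀ hD1 hj
  have h3 : (0 : ℝ) ≤ D ^ j := by positivity
  calc (j.factorial : ℝ) * S * D ^ j = (j.factorial : ℝ) * D ^ j * S := by ring
    _ ≤ (r.factorial : ℝ) * D ^ r * S :=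
      mul_le_mul_of_nonneg_right (mul_le_mul h1 h2 h3 (by positivity)) hS0

/-- a common bound for finitely many quantities -/
theorem S3b_max {X : Type*} (F : ℕ → X → ℝ) (r : ℕ) (h : ∀ i, 1 ≤ i → i ≤ r → ∃ C : ℝ, ∀ x, F i x ≤ C) :
    ∃ D : ℝ, 1 ≤ D ∧ ∀ i, 1 ≤ i → i ≤ r → ∀ x, F i x ≤ D ^ i := by
  obtain ⟨D, hD1, hD⟩ := N5b_max (fun i x => if i ≤ r then F i x else 0) r fun i hi => by
    by_cases hir : i ≤ r
    · obtain ⟨C, hC⟩ := h i hi hir
      exact ⟨C, fun x => by rw [if_pos hir]; exact hC x⟩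
    · exact ⟨0, fun x => by rw [if_neg hir]⟩
  refine ⟨D, hD1, fun i h1 hi x => ?_⟩
  have := hD i h1 hi x
  rwa [if_pos hi] at this

end General

section Ext

variable {d m : ℕ}

/-- the map `(x, t) ↦ (X x, t)` -/
def S3b_ext (X : Vec d → Vec m) : Vec d × ℝ → Vec m × ℝ := fun q => (X q.1, q.2)

theorem S3b_ext_smooth {X : Vec d → Vec m} {Ω : Set (Vec d)} {n : WithTop ℕ∞} (hX : ContDiffOn ℝ n X Ω) :
    ContDiffOn ℝ n (S3b_ext X) {q | q.1 ∈ Ω} :=
  (hX.comp contDiff_fst.contDiffOn (fun q hq => hq)).prodMk contDiff_snd.contDiffOn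

theorem S3b_bdK {X : Vec d → Vec m} {Ω : Set (Vec d)} (hΩ : IsOpen Ω) {r : ℕ} (hX : ContDiffOn ℝ r X Ω)
    {K : Set (Vec d)} (hK : IsCompact K) (hKΩ : K ⊆ Ω) :
    ∃ D : ℝ, 1 ≤ D ∧ ∀ i, 1 ≤ i → i ≤ r → ∀ x ∈ K, ∀ t, ‖iteratedFDeriv ℝ i (S3b_ext X) (x, t)‖ ≤ D ^ i := by
  have hO : IsOpen {q : Vec d × ℝ | q.1 ∈ Ω} := hΩ.preimage continuous_fst
  have hs := S3b_ext_smooth hX
  have h0 : ∀ i : ℕ, 1 ≤ i → i ≤ r → ∃ C : ℝ, ∀ p : {x // x ∈ K} × ℝ,
      ‖iteratedFDeriv ℝ i (S3b_ext X) (p.1.1, p.2)‖ ≤ C := by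
    intro i hi hir
    have hc : ContinuousOn (iteratedFDeriv ℝ i (S3b_ext X)) {q | q.1 ∈ Ω} := by
      refine (hs.continuousOn_iteratedFDerivWithin (m := i) (by exact_mod_cast hir)
        hO.uniqueDiffOn).congr fun q hq => ?_
      rw [iteratedFDerivWithin_of_isOpen i hO hq]
    have hK2 : IsCompact (K ×ˢ ({0} : Set ℝ)) := hK.prod isCompact_singleton
    obtain ⟨C, hC⟩ := hK2.exists_bound_of_continuousOn (hc.mono (fun q hq => hKΩ hq.1))
    refine ⟨C, ?_⟩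
    rintro ⟨⟨x, hx⟩, t⟩
    have h1 : ContDiffAt ℝ i (S3b_ext X) (x, 0) :=
      (hs.contDiffAt (hO.mem_nhds (hKΩ hx))).of_le (by exact_mod_cast hir)
    have h2 := N5b_shift hi h1 (c := ((0 : Vec d), t)) (c' := ((0 : Vec m), t)) (fun z => by
      simp only [S3b_ext, Prod.fst_add, Prod.snd_add, add_zero, Prod.mk_add_mk])
    have h3 : ((x, (0 : ℝ)) : Vec d × ℝ) + ((0 : Vec d), t) = (x, t) := by simp
    rw [h3] at h2
    change ‖iteratedFDeriv ℝ i (S3b_ext X) (x, t)‖ ≤ C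
    rw [h2]
    exact hC _ ⟨hx, rfl⟩
  obtain ⟨D, hD1, hD⟩ := S3b_max (fun i (p : {x // x ∈ K} × ℝ) =>
    ‖iteratedFDeriv ℝ i (S3b_ext X) (p.1.1, p.2)‖) r h0
  exact ⟨D, hD1, fun i h1 hi x hx t => hD i h1 hi (⟨x, hx⟩, t)⟩

end Ext

variable {d m : ℕ} {k : ℕ∞} {M : Sub d} {M' : Sub m} {O K : Set (Vec m)}
  {G : Subgroup (Vec m ≃ₗᵢ[ℝ] Vec m)} {φ : Vec m → Vec d} {ρ a0 : ℝ} {χ : Vec m → ℝ} {R : Vec m → Vec m}
  {Θ : Vec m → ℝ}

/-! ### local formulas for the push forward -/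

theorem S3b_vz_sub {n : ℕ} (l l' : Fin n → ℤ) : (vz (l - l') : Vec n) = vz l - vz l' := by
  rw [sub_eq_add_neg, vz_add', vz_neg', sub_eq_add_neg]

theorem S3b_eq (hC : IsChart M M' O G φ) (hΘ : CutG K G a0 Θ) {g : Vec m → ℝ → ℝ} (hg : MClW M' G g)
    {w : Vec d} (hw : w ∈ M.U) {x : Vec m} (hx : x ∈ M'.N ∩ O) {l : Fin d → ℤ}
    (hwx : M.r w = φ x + vz l) (t : ℝ) : push M M' O φ Θ g (w, t) = Θ x * g x t := by
  have hcond : w ∈ M.U ∧ ∃ x : Vec m, x ∈ M'.N ∩ O ∧ ∃ l : Fin d → ℤ, M.r w = φ x + vz l :=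
    ⟨hw, x, hx, l, hwx⟩
  have h1 : push M M' O φ Θ g (w, t) = Θ hcond.2.choose * g hcond.2.choose t := by
    unfold push
    exact dif_pos hcond
  rw [h1]
  obtain ⟨hx', l', hl'⟩ := hcond.2.choose_spec
  obtain ⟨x', hx'e⟩ : ∃ x', x' = hcond.2.choose := ⟨_, rfl⟩
  rw [← hx'e] at hx' hl' ⊢
  have h2 : φ x' = φ x + vz (l - l') := by
    have h3 : φ x' = M.r w - vz l' := by
      rw [hl']
      abel
    rw [h3, hwx, S3b_vz_sub]
    abel
  obtain ⟨P, hP, n, hn⟩ := (hC.fibre x hx x' hx').1 ⟨_, h2⟩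
  have hg1 : g (P x + vz n) t = g (P x) t := per_vz (g := fun y => g y t) (fun i y => hg.1.per i y t) n _
  rw [hn, hΘ.per, hΘ.inv P hP, hg1, hg.2.2 P hP x hx.1 t]

/-- the closed support of `Θ` on `M'` -/
def S3b_S (M' : Sub m) (K : Set (Vec m)) (G : Subgroup (Vec m ≃ₗᵢ[ℝ] Vec m)) (a0 : ℝ) : Set (Vec m) :=
  {x | x ∈ M'.N ∧ ∃ P ∈ G, Metric.infDist (P x) K ≤ 2 * a0}

theorem S3b_S_sub (hC : IsChart M M' O G φ) (hT : TubeW M' O K ρ a0 χ R) :
    S3b_S M' K G a0 ⊆ M'.N ∩ O := by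
  rintro x ⟨hx, P, hP, hPx⟩
  have ha := hT.a0_pos
  have h1 : P x ∈ O := hT.room _ (by linarith)
  have h2 := hC.mapsO P⁻¹ (G.inv_mem hP) _ h1
  have h3 : (P⁻¹ : Vec m ≃ₗᵢ[ℝ] Vec m) (P x) = x := P.symm_apply_apply x
  rw [h3] at h2
  exact ⟨hx, h2⟩

theorem S3b_S_closed (hC : IsChart M M' O G φ) : IsClosed (S3b_S M' K G a0) := by
  have h1 : S3b_S M' K G a0 = M'.N ∩ ⋃ P ∈ (G : Set (Vec m ≃ₗᵢ[ℝ] Vec m)),
      {x | Metric.infDist (P x) K ≤ 2 * a0} := by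
    ext x
    simp only [S3b_S, mem_inter_iff, mem_iUnion, exists_prop]
    rfl
  rw [h1]
  refine M'.closed.inter (hC.finite.isClosed_biUnion fun P _ => ?_)
  exact isClosed_le ((Metric.continuous_infDist_pt K).comp P.continuous) continuous_const

theorem S3b_infDist_vz (hK : ∀ (n : Fin m → ℤ), ∀ x ∈ K, x + vz n ∈ K) (n : Fin m → ℤ) (x : Vec m) :
    Metric.infDist (x + vz n) K = Metric.infDist x K := by
  have h1 : K = (fun y => y + vz n) '' K := by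
    ext y
    constructor
    · intro hy
      refine ⟨y + vz (-n), hK (-n) y hy, ?_⟩
      simp only [vz_neg']
      abel
    · rintro ⟨z, hz, rfl⟩
      exact hK n z hz
  conv_lhs => rw [h1]
  exact Metric.infDist_image (isometry_add_right (vz n))

theorem S3b_S_vz (hC : IsChart M M' O G φ) (hT : TubeW M' O K ρ a0 χ R) {x : Vec m}
    (hx : x ∈ S3b_S M' K G a0) (n : Fin m → ℤ) : x + vz n ∈ S3b_S M' K G a0 := by
  obtain ⟨hx, P, hP, hPx⟩ := hx
  refine ⟨M'.perN n x hx, P, hP, ?_⟩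
  obtain ⟨n', hn'⟩ := hC.int P hP n
  rw [map_add, hn', S3b_infDist_vz hT.perK]
  exact hPx

theorem S3b_closed_vz (n : ℕ) : IsClosed (range (vz : (Fin n → ℤ) → Vec n)) := by
  have h1 : range (vz : (Fin n → ℤ) → Vec n) = ⋂ i, {x : Vec n | x i ∈ range ((↑) : ℤ → ℝ)} := by
    ext x
    simp only [mem_iInter, mem_range]
    constructor
    · rintro ⟨l, rfl⟩ i
      exact ⟨l i, rfl⟩
    · intro h
      choose l hl using h
      refine ⟨l, ?_⟩
      ext i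
      exact hl i
  rw [h1]
  refine isClosed_iInter fun i => ?_
  exact Int.isClosedEmbedding_coe_real.isClosed_range.preimage (EuclideanSpace.proj i).continuous

open scoped Pointwise in
/-- the closed support of the push forwards, as a subset of `M.N` -/
theorem S3b_A_closed (hC : IsChart M M' O G φ) (hT : TubeW M' O K ρ a0 χ R) :
    IsClosed {y : Vec d | ∃ x ∈ S3b_S M' K G a0, ∃ l : Fin d → ℤ, y = φ x + vz l} := by
  obtain ⟨C, hCf⟩ := N0_fund m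
  have hS0 : IsCompact (S3b_S M' K G a0 ∩ Metric.closedBall 0 C) :=
    (isCompact_closedBall _ _).inter_left (S3b_S_closed hC)
  have hφ : ContinuousOn φ (S3b_S M' K G a0 ∩ Metric.closedBall 0 C) :=
    hC.smooth.continuousOn.mono fun x hx => (S3b_S_sub hC hT hx.1).2
  have h1 : {y : Vec d | ∃ x ∈ S3b_S M' K G a0, ∃ l : Fin d → ℤ, y = φ x + vz l} =
      range (vz : (Fin d → ℤ) → Vec d) + φ '' (S3b_S M' K G a0 ∩ Metric.closedBall 0 C) := by
    ext y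
    constructor
    · rintro ⟨x, hx, l, rfl⟩
      obtain ⟨n, hn⟩ := hCf x
      have hx2 := S3b_S_vz hC hT hx n
      obtain ⟨l', hl'⟩ := (hC.fibre x (S3b_S_sub hC hT hx) (x + vz n) (S3b_S_sub hC hT hx2)).2
        ⟨1, G.one_mem, n, rfl⟩
      refine ⟨vz (l - l'), ⟨_, rfl⟩, φ (x + vz n), ⟨x + vz n, ⟨hx2, ?_⟩, rfl⟩, ?_⟩
      · rw [mem_closedBall_zero_iff]
        exact hn
      · simp only [hl', S3b_vz_sub]
        abel
    · rintro ⟨_, ⟨l, rfl⟩, _, ⟨x, hx, rfl⟩, rfl⟩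
      exact ⟨x, hx.1, l, add_comm _ _⟩
  rw [h1]
  exact (S3b_closed_vz d).add_right_of_isCompact (hS0.image_of_continuousOn hφ)

theorem S3b_local (hC : IsChart M M' O G φ) (hT : TubeW M' O K ρ a0 χ R) (hΘ : CutG K G a0 Θ)
    {w0 : Vec d} (hw0 : w0 ∈ M.U) :
    (∀ᶠ w in 𝓝 w0, ∀ (g : Vec m → ℝ → ℝ) (t : ℝ), push M M' O φ Θ g (w, t) = 0) ∨
    ∃ X : Vec d → Vec m, ContDiffAt ℝ ∞ X w0 ∧ ∀ᶠ w in 𝓝 w0, ∀ g, MClW M' G g → ∀ t,
      push M M' O φ Θ g (w, t) = Θ (X w) * g (X w) t := by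
  have hU : M.U ∈ 𝓝 w0 := M.isOpen.mem_nhds hw0
  have hr : ContDiffAt ℝ ∞ M.r w0 := M.smooth.contDiffAt hU
  by_cases hx : ∃ x : Vec m, x ∈ M'.N ∩ O ∧ ∃ l : Fin d → ℤ, M.r w0 = φ x + vz l
  · obtain ⟨x0, hx0, l0, hl0⟩ := hx
    obtain ⟨ψ, hψ, -, hψ2⟩ := hC.inverse x0 hx0
    have e0 : M.r w0 - vz l0 = φ x0 := by
      rw [hl0]
      abel
    have hs : ContDiffAt ℝ ∞ (fun w => M.r w - vz l0) w0 := hr.sub contDiffAt_const
    refine Or.inr ⟨fun w => ψ (M.r w - vz l0), ?_, ?_⟩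
    · rw [← e0] at hψ
      exact ContDiffAt.comp w0 hψ hs
    · have h1 : Tendsto (fun w => M.r w - vz l0) (𝓝 w0) (𝓝 (φ x0)) := by
        have := hs.continuousAt.tendsto
        rwa [e0] at this
      filter_upwards [hU, h1.eventually hψ2] with w hw hψw g hg t
      have h2 : M.r w - vz l0 ∈ M.N := by
        have := M.perN (-l0) _ (M.mem w hw)
        rwa [vz_neg', ← sub_eq_add_neg] at this
      obtain ⟨h3, h4⟩ := hψw h2
      refine S3b_eq hC hΘ hg hw h3 (l := l0) ?_ t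
      rw [h4]
      abel
  · left
    have hA := S3b_A_closed hC hT
    have h1 : M.r w0 ∈ {y : Vec d | ∃ x ∈ S3b_S M' K G a0, ∃ l : Fin d → ℤ, y = φ x + vz l}ᶜ := by
      rintro ⟨x, hxS, l, hl⟩
      exact hx ⟨x, S3b_S_sub hC hT hxS, l, hl⟩
    have h2 := hr.continuousAt.eventually (hA.isOpen_compl.mem_nhds h1)
    filter_upwards [h2] with w hw g t
    by_cases hcond : w ∈ M.U ∧ ∃ x : Vec m, x ∈ M'.N ∩ O ∧ ∃ l : Fin d → ℤ, M.r w = φ x + vz l
    · have h3 : push M M' O φ Θ g (w, t) = Θ hcond.2.choose * g hcond.2.choose t := by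
        unfold push
        exact dif_pos hcond
      obtain ⟨hx', l', hl'⟩ := hcond.2.choose_spec
      rw [h3]
      have h4 : Θ hcond.2.choose = 0 := by
        by_contra hne
        apply hw
        refine ⟨hcond.2.choose, ⟨hx'.1, ?_⟩, l', hl'⟩
        by_contra hno
        push Not at hno
        exact hne (hΘ.zero _ fun P hP => (hno P hP).le)
      rw [h4, zero_mul]
    · unfold push
      exact dif_neg hcond

/-- uniform bound of the derivatives of the push forward on compact sets: finitely many local inverses -/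
theorem push_bound (hC : IsChart M M' O G φ) (hT : TubeW M' O K ρ a0 χ R) (hΘ : CutG K G a0 Θ)
    {K' : Set (Vec d)} (hK' : IsCompact K') (hKU : K' ⊆ M.U) (r : ℕ) :
    ∃ (N : SmNorm (bas m)) (C : ℝ), 0 < C ∧ ∀ g, MClW M' G g → ∀ j ≤ r, ∀ w ∈ K', ∀ t,
      ‖iteratedFDeriv ℝ j (push M M' O φ Θ g) (w, t)‖ ≤ C * N.nm g := by
  have hΘs : Sm (bas m) (fun x _ => Θ x) := ⟨hΘ.smooth.comp contDiff_fst, fun i x _ => by
    rw [bas_apply]
    exact hΘ.per _ x, fun x t => rfl⟩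
  have hA : ∃ A : ℝ, 0 ≤ A ∧ ∀ i ≤ r, ∀ q, ‖iteratedFDeriv ℝ i (fun q : Vec m × ℝ => Θ q.1) q‖ ≤ A := by
    refine ⟨∑ i ∈ Finset.range (r + 1), ⨆ q, ‖iteratedFDeriv ℝ i (fun q : Vec m × ℝ => Θ q.1) q‖,
      Finset.sum_nonneg fun j _ => Real.iSup_nonneg fun p => norm_nonneg _, fun i hi q => ?_⟩
    exact (le_ciSup (EscG.T.O2_sm_bdd hΘs i) q).trans
      (Finset.single_le_sum (f := fun i => ⨆ q, ‖iteratedFDeriv ℝ i (fun q : Vec m × ℝ => Θ q.1) q‖)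
        (fun j _ => Real.iSup_nonneg fun p => norm_nonneg _) (Finset.mem_range.2 (Nat.lt_succ_of_le hi)))
  obtain ⟨A, hA0, hA⟩ := hA
  set N : SmNorm (bas m) := EscG.T.O2_cnm 1 le_rfl r with hN
  have hNle : ∀ g, Sm (bas m) g → ∀ i ≤ r, ∀ q,
      ‖iteratedFDeriv ℝ i (fun q : Vec m × ℝ => g q.1 q.2) q‖ ≤ N.nm g := by
    intro g hg i hi q
    have h1 := (le_ciSup (EscG.T.O2_sm_bdd hg i) q).trans
      (Finset.single_le_sum (f := fun j => ⨆ p, ‖iteratedFDeriv ℝ j (fun p : Vec m × ℝ => g p.1 p.2) p‖)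
        (fun j _ => Real.iSup_nonneg fun p => norm_nonneg _) (Finset.mem_range.2 (Nat.lt_succ_of_le hi)))
    simp only [hN, EscG.T.O2_cnm, one_mul]
    exact h1
  have hmain : ∃ C : ℝ, 0 ≤ C ∧ ∀ w ∈ K', ∀ g, MClW M' G g → ∀ j ≤ r, ∀ t,
      ‖iteratedFDeriv ℝ j (push M M' O φ Θ g) (w, t)‖ ≤ C * N.nm g := by
    refine hK'.induction_on (p := fun S => ∃ C : ℝ, 0 ≤ C ∧ ∀ w ∈ S, ∀ g, MClW M' G g → ∀ j ≤ r, ∀ t,
      ‖iteratedFDeriv ℝ j (push M M' O φ Θ g) (w, t)‖ ≤ C * N.nm g) ?_ ?_ ?_ ?_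
    · exact ⟨0, le_rfl, fun w hw => absurd hw (notMem_empty w)⟩
    · rintro S S' hS ⟨C, hC0, hCb⟩
      exact ⟨C, hC0, fun w hw => hCb w (hS hw)⟩
    · rintro S S' ⟨C, hC0, hCb⟩ ⟨C', hC0', hCb'⟩
      refine ⟨C + C', by positivity, fun w hw g hg j hj t => ?_⟩
      have hn : 0 ≤ N.nm g := (norm_nonneg _).trans (hNle g hg.1 0 (Nat.zero_le _) 0)
      rw [add_mul]
      rcases hw with hw | hw
      · have h1 := hCb w hw g hg j hj t
        have h2 : 0 ≤ C' * N.nm g := mul_nonneg hC0' hn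
        linarith
      · have h1 := hCb' w hw g hg j hj t
        have h2 : 0 ≤ C * N.nm g := mul_nonneg hC0 hn
        linarith
    · intro w0 hw0
      rcases S3b_local hC hT hΘ (hKU hw0) with h0 | ⟨X, hX, hXe⟩
      · obtain ⟨V, hV, hVo, hwV⟩ := eventually_nhds_iff.1 h0
        refine ⟨V, mem_nhdsWithin_of_mem_nhds (hVo.mem_nhds hwV), 0, le_rfl, fun w hw g hg j hj t => ?_⟩
        have h1 : push M M' O φ Θ g =ᶠ[𝓝 (w, t)] fun _ => 0 := by
          filter_upwards [(hVo.preimage continuous_fst).mem_nhds (show (w, t).1 ∈ V from hw)] with q hq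
          exact hV q.1 hq g q.2
        rw [(Filter.EventuallyEq.iteratedFDeriv ℝ h1 j).eq_of_nhds, zero_mul]
        have h2 : iteratedFDeriv ℝ j (fun _ : Vec d × ℝ => (0:ℝ)) (w, t) = 0 := by
          simp
        rw [h2, norm_zero]
      · obtain ⟨u, hu, hXu⟩ := (hX.of_le (m := (r : WithTop ℕ∞)) (by exact_mod_cast le_top)).contDiffOn
          le_rfl (by simp)
        have h1 : ∀ᶠ w in 𝓝 w0, w ∈ u ∧ ∀ g, MClW M' G g → ∀ t,
            push M M' O φ Θ g (w, t) = Θ (X w) * g (X w) t := by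
          have hu' : u ∈ 𝓝 w0 := by simpa using hu
          filter_upwards [hu', hXe] with w h1 h2
          exact ⟨h1, h2⟩
        obtain ⟨V, hV, hVo, hwV⟩ := eventually_nhds_iff.1 h1
        obtain ⟨ε, hε, hεV⟩ := Metric.nhds_basis_closedBall.mem_iff.1 (hVo.mem_nhds hwV)
        have hXV : ContDiffOn ℝ r X V := hXu.mono fun w hw => (hV w hw).1
        obtain ⟨D, hD1, hD⟩ := S3b_bdK hVo hXV (isCompact_closedBall w0 ε) hεV
        refine ⟨Metric.closedBall w0 ε, mem_nhdsWithin_of_mem_nhds (Metric.closedBall_mem_nhds w0 hε),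
          (r.factorial : ℝ) * D ^ r * (2 ^ r * A), by positivity, fun w hw g hg j hj t => ?_⟩
        have hgs : ContDiff ℝ ∞ (fun q : Vec m × ℝ => g q.1 q.2) := hg.1.smooth
        have hΘ1 : ContDiff ℝ ∞ (fun q : Vec m × ℝ => Θ q.1) := hΘ.smooth.comp contDiff_fst
        have h2 : push M M' O φ Θ g =ᶠ[𝓝 (w, t)]
            fun z => (fun q : Vec m × ℝ => Θ q.1 * g q.1 q.2) (S3b_ext X z) := by
          filter_upwards [(hVo.preimage continuous_fst).mem_nhds (show (w, t).1 ∈ V from hεV hw)] with q hq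
          exact (hV q.1 hq).2 g hg q.2
        rw [(Filter.EventuallyEq.iteratedFDeriv ℝ h2 j).eq_of_nhds]
        have h3 := S3b_comp (V := Vec d × ℝ) (W := Vec m × ℝ) (Φ := S3b_ext X)
          (Ω := {q | q.1 ∈ V}) (hVo.preimage continuous_fst) (S3b_ext_smooth hXV)
          (g := fun q : Vec m × ℝ => Θ q.1 * g q.1 q.2) (hΘ1.mul hgs) (q := (w, t)) (hεV hw)
          (S := 2 ^ r * A * N.nm g) (D := D)
          (fun i hi => N5b_mul (r := r) hΘ1 hgs (fun i hi => hA i hi _)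
            (fun i hi => hNle g hg.1 i hi _) hi)
          hD1 (fun i h1 hi => hD i h1 hi w hw t) hj
        refine h3.trans (le_of_eq ?_)
        ring
  obtain ⟨C, hC0, hCb⟩ := hmain
  refine ⟨N, C + 1, by positivity, fun g hg j hj w hw t => ?_⟩
  have hn : 0 ≤ N.nm g := (norm_nonneg _).trans (hNle g hg.1 0 (Nat.zero_le _) 0)
  refine (hCb w hw g hg j hj t).trans (mul_le_mul_of_nonneg_right ?_ hn)
  linarith

end EscW
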