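import Pool.Agent.EscW.SDefs
import Pool.Agent.EscW.S1
import Pool.Agent.EscW.S2
import Pool.Agent.EscW.S3a
import Pool.Agent.EscW.S3b
import Pool.Agent.EscM.N2
import Pool.Agent.EscM.N5b

set_option autoImplicit false

/-!
Project EscW (MP_6acca1_an), module S4: small perturbations in the class `MClW` are small perturbations in the
product of the space of potentials on `M` and the space `YW`.
-/

noncomputable section

namespace EscW

open MeasureTheory Set Filter Topology Esc EscF EscG EscM EscMT EscF.T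
open scoped ContDiff

variable {d m : ℕ} {k : ℕ∞} {M : Sub d} {M' : Sub m} {O K : Set (Vec m)}
  {G : Subgroup (Vec m ≃ₗᵢ[ℝ] Vec m)} {φ : Vec m → Vec d} {ρ a0 : ℝ} {χ : Vec m → ℝ} {R : Vec m → Vec m}
  {Θ : Vec m → ℝ}

/-- the sum of two norms -/
def S4_norm (N1 N2 : SmNorm (bas m)) : SmNorm (bas m) where
  nm g := N1.nm g + N2.nm g
  sup_le := fun g hg x t => by
    have h1 := N1.sup_le g hg x t
    have h2 := (abs_nonneg _).trans (N2.sup_le g hg x t)
    linarith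
  add_le := fun g g' hg hg' => by
    have h1 := N1.add_le g g' hg hg'
    have h2 := N2.add_le g g' hg hg'
    linarith
  smul_le := fun c g hg => by
    have h1 := N1.smul_le c g hg
    have h2 := N2.smul_le c g hg
    rw [mul_add]
    linarith

/-- the product of the two cut-offs -/
def S4_chi (χ Θ : Vec m → ℝ) (R : Vec m → Vec m) (x : Vec m) : ℝ := χ x * Θ (R x)

theorem S4_chi_smooth (hT : TubeW M' O K ρ a0 χ R) (hΘ : CutG K G a0 Θ) : ContDiff ℝ ∞ (S4_chi χ Θ R) :=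
  hT.sχ.mul (hΘ.smooth.comp hT.sR)

theorem S4_chi_per (hT : TubeW M' O K ρ a0 χ R) (hΘ : CutG K G a0 Θ) (n : Fin m → ℤ) (x : Vec m) :
    S4_chi χ Θ R (x + vz n) = S4_chi χ Θ R x := by
  simp only [S4_chi, hT.perχ, hT.perR, hΘ.per]

theorem S4_rest_smooth (hT : TubeW M' O K ρ a0 χ R) (hΘ : CutG K G a0 Θ) {g : Vec m → ℝ → ℝ}
    (hg : Sm (bas m) g) : ContDiff ℝ ∞ (N5b_rest (S4_chi χ Θ R) R g) :=
  hg.smooth.sub (((S4_chi_smooth hT hΘ).comp contDiff_fst).mul
    (hg.smooth.comp ((hT.sR.comp contDiff_fst).prodMk contDiff_snd)))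

theorem S4_rest_per (hT : TubeW M' O K ρ a0 χ R) (hΘ : CutG K G a0 Θ) {g : Vec m → ℝ → ℝ}
    (hg : Sm (bas m) g) : EscF.T.IsPeriodic (N5b_rest (S4_chi χ Θ R) R g) := by
  intro n l x t
  simp only [N5b_rest, S4_chi_per hT hΘ, hT.perR, N5b_perG hg]

/-- the rest near a point of `M'` near `K` -/
theorem S4_rest_eq (hT : TubeW M' O K ρ a0 χ R) {g : Vec m → ℝ → ℝ} (hg : MClW M' G g)
    {x : Vec m} (hx : x ∈ M'.N) (hxK : Metric.infDist x K ≤ a0) :
    ∀ᶠ y in 𝓝 x, ∀ t, N5b_rest (S4_chi χ Θ R) R g (y, t) = (1 - Θ (R y)) * g (R y) t := by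
  obtain ⟨_, ⟨δ, hδ, h⟩, _⟩ := hg
  have hρ := hT.ρ_pos
  have ha0 := hT.a0_pos
  have h0 : Metric.infDist x M'.N < min δ ρ := by
    rw [Metric.infDist_zero_of_mem hx]
    exact lt_min hδ hρ
  have h1 : ∀ᶠ y in 𝓝 x, Metric.infDist y M'.N < min δ ρ :=
    (Metric.continuous_infDist_pt M'.N).continuousAt.eventually_lt_const h0
  have hxU : x ∈ M'.U := M'.sub hx
  have hc : ContinuousAt M'.r x :=
    ((M'.smooth x hxU).contDiffAt (M'.isOpen.mem_nhds hxU)).continuousAt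
  have hc2 : ContinuousAt (fun y => Metric.infDist (M'.r y) K) x :=
    (Metric.continuous_infDist_pt K).continuousAt.comp hc
  have h2 : ∀ᶠ y in 𝓝 x, Metric.infDist (M'.r y) K < 2 * a0 := by
    refine hc2.eventually_lt_const ?_
    change Metric.infDist (M'.r x) K < 2 * a0
    rw [r_self M' hx]
    linarith
  filter_upwards [h1, h2] with y hy1 hy2 t
  have h3 : Metric.infDist y M'.N < δ := hy1.trans_le (min_le_left _ _)
  have h4 : Metric.infDist y M'.N < ρ := hy1.trans_le (min_le_right _ _)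
  simp only [N5b_rest, S4_chi]
  rw [hT.one y (by linarith) hy2.le, hT.R_eq y (by linarith), h y h3 t]
  ring

theorem S4_rest_zero (hT : TubeW M' O K ρ a0 χ R) (hΘ : CutG K G a0 Θ) {g : Vec m → ℝ → ℝ}
    (hg : MClW M' G g) {x : Vec m} (hx : x ∈ M'.N) (hxK : Metric.infDist x K ≤ a0) (t : ℝ) :
    N5b_rest (S4_chi χ Θ R) R g (x, t) = 0 ∧
      fderiv ℝ (fun y => N5b_rest (S4_chi χ Θ R) R g (y, t)) x = 0 := by
  have hρ := hT.ρ_pos
  have hev := S4_rest_eq (Θ := Θ) hT hg hx hxK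
  have hRx : R x = x := by
    rw [hT.R_eq x (by rw [Metric.infDist_zero_of_mem hx]; linarith), r_self M' hx]
  have ha : 1 - Θ (R x) = 0 := by
    rw [hRx, hΘ.one x hxK, sub_self]
  refine ⟨?_, ?_⟩
  · rw [hev.self_of_nhds t, ha, zero_mul]
  · have h1 : (fun y => N5b_rest (S4_chi χ Θ R) R g (y, t)) =ᶠ[𝓝 x] fun y => (1 - Θ (R y)) * g (R y) t := by
      filter_upwards [hev] with y hy
      exact hy t
    rw [h1.fderiv_eq]
    have hΘR : ContDiff ℝ ∞ (fun y => 1 - Θ (R y)) := contDiff_const.sub (hΘ.smooth.comp hT.sR)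
    have hgR : ContDiff ℝ ∞ (fun y => g (R y) t) :=
      hg.1.smooth.comp (hT.sR.prodMk contDiff_const)
    have hmin : fderiv ℝ (fun y => 1 - Θ (R y)) x = 0 := by
      refine IsLocalMin.fderiv_eq_zero (Filter.Eventually.of_forall fun y => ?_)
      change 1 - Θ (R x) ≤ 1 - Θ (R y)
      rw [ha]
      linarith [(hΘ.mem01 (R y)).2]
    rw [fderiv_fun_mul (hΘR.differentiable (by simp) x) (hgR.differentiable (by simp) x), hmin, ha]
    simp

/-- the second component of the perturbed pair -/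
def S4_add (hT : TubeW M' O K ρ a0 χ R) (hΘ : CutG K G a0 Θ) {g : Vec m → ℝ → ℝ}
    (hg : MClW M' G g) (h : YW M' K a0 k) : YW M' K a0 k :=
  ⟨{ toFun := h.1.toFun + N5b_rest (S4_chi χ Θ R) R g
     contDiff := h.1.contDiff.add ((S4_rest_smooth hT hΘ hg.1).of_le (by exact_mod_cast le_top))
     periodic := fun n l x t => by
      simp only [Pi.add_apply, h.1.periodic n l x t, S4_rest_per hT hΘ hg.1 n l x t] },
    fun x hx hxK t => by
      have h1 := S4_rest_zero hT hΘ hg hx hxK t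
      have h2 := h.2 x hx hxK t
      have hd : DifferentiableAt ℝ (fun y => N5b_rest (S4_chi χ Θ R) R g (y, t)) x :=
        ((S4_rest_smooth hT hΘ hg.1).comp (contDiff_id.prodMk contDiff_const)).differentiable (by simp) x
      refine ⟨?_, ?_⟩
      · simp only [Pi.add_apply, h2.1, h1.1, add_zero]
      · change fderiv ℝ (fun y => h.1.toFun (y, t) + N5b_rest (S4_chi χ Θ R) R g (y, t)) x = 0
        by_cases hh : DifferentiableAt ℝ (fun y => h.1.toFun (y, t)) x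
        · rw [fderiv_fun_add hh hd, h2.2, h1.2, add_zero]
        · refine fderiv_zero_of_not_differentiableAt fun hn => hh ?_
          have := hn.sub hd
          refine this.congr_of_eventuallyEq (Filter.Eventually.of_forall fun y => ?_)
          simp⟩

/-- small perturbations in the class `MClW` are small perturbations in the product -/
theorem reachW (hC : IsChart M M' O G φ) (hT : TubeW M' O K ρ a0 χ R)
    {A : Set (EscM.Pot M k × YW M' K a0 k)} (hA : IsOpen A) {f : EscM.Pot M k} {h : YW M' K a0 k}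
    (hf : (f, h) ∈ A) :
    ∃ (N : SmNorm (bas m)) (e : ℝ), 0 < e ∧ ∀ g, MClW M' G g → N.nm g < e →
      ∃ p ∈ A, ∀ x t, fw φ χ R p.1 p.2.1 x t = fw φ χ R f h.1 x t + g x t := by
  obtain ⟨Θ, hΘ⟩ := exists_cutG hC hT
  obtain ⟨O1, hO1, O2, hO2, hsub⟩ := mem_nhds_prod_iff.1 (hA.mem_nhds hf)
  obtain ⟨O2', hO2', hsub2⟩ := mem_nhds_subtype _ _ _ |>.1 hO2
  obtain ⟨r1, K1, ε1, hε1, hr1, hK1, hKU, hp1⟩ := pot_nhds f hO1
  obtain ⟨r, ε2, hε2, hr2, hp2⟩ := nhds_small h.1 hO2'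
  obtain ⟨N1, C1, hC1, hpb⟩ := push_bound hC hT hΘ hK1 hKU r1
  obtain ⟨D', hD'1, hD'⟩ := N5b_bdR hT.sR hT.perR r
  have hχs : Sm (bas m) (fun x _ => S4_chi χ Θ R x) :=
    ⟨(S4_chi_smooth hT hΘ).comp contDiff_fst, fun i x _ => by
      rw [bas_apply]
      exact S4_chi_per hT hΘ _ x, fun x t => rfl⟩
  have hB : ∃ B : ℝ, 0 ≤ B ∧ ∀ i ≤ r, ∀ q,
      ‖iteratedFDeriv ℝ i (fun q : Vec m × ℝ => S4_chi χ Θ R q.1) q‖ ≤ B := by
    refine ⟨∑ i ∈ Finset.range (r + 1), ⨆ q, ‖iteratedFDeriv ℝ i (fun q : Vec m × ℝ => S4_chi χ Θ R q.1) q‖,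
      Finset.sum_nonneg fun j _ => Real.iSup_nonneg fun p => norm_nonneg _, fun i hi q => ?_⟩
    exact (le_ciSup (EscG.T.O2_sm_bdd hχs i) q).trans
      (Finset.single_le_sum
        (f := fun i => ⨆ q, ‖iteratedFDeriv ℝ i (fun q : Vec m × ℝ => S4_chi χ Θ R q.1) q‖)
        (fun j _ => Real.iSup_nonneg fun p => norm_nonneg _) (Finset.mem_range.2 (Nat.lt_succ_of_le hi)))
  obtain ⟨B, hB0, hB⟩ := hB
  set N : SmNorm (bas m) := EscG.T.O2_cnm 1 le_rfl r with hN
  have hNle : ∀ g, Sm (bas m) g → ∀ i ≤ r, ∀ q,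
      ‖iteratedFDeriv ℝ i (fun q : Vec m × ℝ => g q.1 q.2) q‖ ≤ N.nm g := by
    intro g hg i hi q
    have h1 := (le_ciSup (EscG.T.O2_sm_bdd hg i) q).trans
      (Finset.single_le_sum (f := fun j => ⨆ p, ‖iteratedFDeriv ℝ j (fun p : Vec m × ℝ => g p.1 p.2) p‖)
        (fun j _ => Real.iSup_nonneg fun p => norm_nonneg _) (Finset.mem_range.2 (Nat.lt_succ_of_le hi)))
    simp only [hN, EscG.T.O2_cnm, one_mul]
    exact h1
  set C2 : ℝ := 1 + 2 ^ r * B * ((r.factorial : ℝ) * D' ^ r) with hC2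
  have hC2p : 0 ≤ C2 := by positivity
  refine ⟨S4_norm N1 N, min (ε1 / (C1 + 1)) (ε2 / (C2 + 1)), by positivity, fun g hg hge => ?_⟩
  have hg1 := hg.1
  have hn0 : 0 ≤ N.nm g := (abs_nonneg _).trans (N.sup_le g hg1 0 0)
  have hn1 : 0 ≤ N1.nm g := (abs_nonneg _).trans (N1.sup_le g hg1 0 0)
  have hge' : N1.nm g + N.nm g < min (ε1 / (C1 + 1)) (ε2 / (C2 + 1)) := hge
  have he1 : C1 * N1.nm g < ε1 := by
    have h1 := (lt_div_iff₀ (by positivity)).1 (hge'.trans_le (min_le_left _ _))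
    nlinarith
  have he2 : C2 * N.nm g < ε2 := by
    have h1 := (lt_div_iff₀ (by positivity)).1 (hge'.trans_le (min_le_right _ _))
    nlinarith
  obtain ⟨f1, hf1⟩ := exists_pot (k := k) hC hT hΘ hg
  refine ⟨(padd f f1, S4_add hT hΘ hg h), hsub ⟨?_, hsub2 ?_⟩, fun x t => ?_⟩
  · refine hp1 _ fun j hj x hx t => ?_
    have hjk : (j : WithTop ℕ∞) ≤ (k : WithTop ℕ∞) :=
      WithTop.coe_le_coe.2 ((Nat.cast_le.2 hj).trans hr1)
    have hU := (N5b_open M.isOpen).mem_nhds (show ((x, t) : Vec d × ℝ) ∈ {q : Vec d × ℝ | q.1 ∈ M.U} from hKU hx)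
    have hfa : ContDiffAt ℝ j f.toFun (x, t) := (f.contDiff.contDiffAt hU).of_le hjk
    have hga : ContDiffAt ℝ j f1.toFun (x, t) := (f1.contDiff.contDiffAt hU).of_le hjk
    have h1 : iteratedFDeriv ℝ j (f.toFun + f1.toFun) (x, t) =
        iteratedFDeriv ℝ j f.toFun (x, t) + iteratedFDeriv ℝ j f1.toFun (x, t) :=
      iteratedFDeriv_add_apply hfa hga
    change ‖iteratedFDeriv ℝ j (f.toFun + f1.toFun) (x, t) - iteratedFDeriv ℝ j f.toFun (x, t)‖ < ε1
    rw [h1, add_sub_cancel_left, hf1]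
    exact (hpb g hg j hj x hx t).trans_lt he1
  · refine hp2 _ fun j hj q => ?_
    have hjk : (j : WithTop ℕ∞) ≤ (k : WithTop ℕ∞) :=
      WithTop.coe_le_coe.2 ((Nat.cast_le.2 hj).trans hr2)
    have hgsm : ContDiff ℝ ∞ (fun q : Vec m × ℝ => g q.1 q.2) := hg1.smooth
    have hRs : ContDiff ℝ ∞ (N5b_ext R) := (hT.sR.comp contDiff_fst).prodMk contDiff_snd
    have hgR : ContDiff ℝ ∞ (fun z => (fun q : Vec m × ℝ => g q.1 q.2) (N5b_ext R z)) := hgsm.comp hRs
    have hχ1 : ContDiff ℝ ∞ (fun q : Vec m × ℝ => S4_chi χ Θ R q.1) :=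
      (S4_chi_smooth hT hΘ).comp contDiff_fst
    have hrs : ContDiffAt ℝ j (N5b_rest (S4_chi χ Θ R) R g) q :=
      ((S4_rest_smooth hT hΘ hg1).of_le (by exact_mod_cast le_top)).contDiffAt
    have h1 : iteratedFDeriv ℝ j (h.1.toFun + N5b_rest (S4_chi χ Θ R) R g) q =
        iteratedFDeriv ℝ j h.1.toFun q + iteratedFDeriv ℝ j (N5b_rest (S4_chi χ Θ R) R g) q :=
      iteratedFDeriv_add_apply ((h.1.contDiff.of_le hjk).contDiffAt) hrs
    change ‖iteratedFDeriv ℝ j (h.1.toFun + N5b_rest (S4_chi χ Θ R) R g) q -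
      iteratedFDeriv ℝ j h.1.toFun q‖ < ε2
    rw [h1, add_sub_cancel_left]
    have e1 : N5b_rest (S4_chi χ Θ R) R g = (fun q : Vec m × ℝ => g q.1 q.2) -
        (fun z : Vec m × ℝ => (fun q : Vec m × ℝ => S4_chi χ Θ R q.1) z *
          (fun z => (fun q : Vec m × ℝ => g q.1 q.2) (N5b_ext R z)) z) := rfl
    have h2 := iteratedFDeriv_sub_apply (𝕜 := ℝ) (i := j) (x := q)
      ((hgsm.of_le (by exact_mod_cast le_top)).contDiffAt)
      (((hχ1.mul hgR).of_le (by exact_mod_cast le_top)).contDiffAt)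
    rw [e1, h2]
    refine (norm_sub_le _ _).trans_lt ?_
    have h3 := hNle g hg1 j hj q
    have h4 := N5b_mul (r := r) hχ1 hgR (q := q) (A := B)
      (S := (r.factorial : ℝ) * D' ^ r * N.nm g) (fun i hi => hB i hi q)
      (fun i hi => N5b_comp isOpen_univ hRs.contDiffOn hg1.smooth (mem_univ q)
        (fun i hi => hNle g hg1 i hi _) hD'1 (fun i h1 hi => hD' i h1 hi q) hi) hj
    have h5 : C2 * N.nm g = N.nm g + 2 ^ r * B * ((r.factorial : ℝ) * D' ^ r * N.nm g) := by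
      rw [hC2]
      ring
    rw [h5] at he2
    exact (add_le_add h3 h4).trans_lt he2
  · change χ x * (f.toFun (φ (R x), t) + f1.toFun (φ (R x), t)) +
        (h.1.toFun (x, t) + (g x t - χ x * Θ (R x) * g (R x) t)) =
      (χ x * f.toFun (φ (R x), t) + h.1.toFun (x, t)) + g x t
    rcases eq_or_ne (χ x) 0 with h0 | h0
    · rw [h0]
      ring
    · rw [hf1, push_phi hC hΘ hg (mem_of_chi hT h0).2.2.1 t]
      ring

end EscW
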