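import Pool.Agent.EscW.SDefs
import Pool.Agent.EscM.N3a

set_option autoImplicit false

/-!
Module S5 of project EscW: the set `YW` of potentials on the torus which vanish, with their gradient, on `M'`
near `K`, is closed, and a Baire space (port of EscM.N3a).
-/

noncomputable section

namespace EscW

open MeasureTheory Set Filter Topology Esc EscF EscG EscM EscMT EscF.T
open scoped ContDiff

variable {d m : ℕ} {k : ℕ∞} {M : Sub d} {M' : Sub m} {O K : Set (Vec m)}
  {G : Subgroup (Vec m ≃ₗᵢ[ℝ] Vec m)} {φ : Vec m → Vec d} {ρ a0 : ℝ} {χ : Vec m → ℝ} {R : Vec m → Vec m}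
  {Θ : Vec m → ℝ}

theorem isClosed_YW (M' : Sub m) (K : Set (Vec m)) (a0 : ℝ) (hk : 2 ≤ k) : IsClosed (YW M' K a0 k) := by
  have hk1 : (1 : ℕ∞) ≤ k := le_trans (by norm_num) hk
  have h1 : ((1 : ℕ) : ℕ∞) ≤ k := by simpa using hk1
  have h0 : ((0 : ℕ) : ℕ∞) ≤ k := by simp
  have he : YW M' K a0 k = ⋂ x ∈ M'.N, ⋂ (_ : Metric.infDist x K ≤ a0), ⋂ t : ℝ,
      ({h : EscF.T.Pot m k | iteratedFDeriv ℝ 0 h.toFun (x, t) (fun _ => 0) = 0} ∩
        ⋂ v : Vec m, {h : EscF.T.Pot m k | iteratedFDeriv ℝ 1 h.toFun (x, t) (fun _ => (v, 0)) = 0}) := by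
    ext h
    simp only [YW, mem_ofPred_eq, mem_iInter, mem_inter_iff, iteratedFDeriv_zero_apply]
    refine forall_congr' fun x => forall_congr' fun hx => forall_congr' fun _ => forall_congr' fun t =>
      and_congr_right fun _ => ?_
    constructor
    · intro h2 v
      rw [← EscM.N3a_grad h hk1 x t v, h2]
      rfl
    · intro h2
      ext v
      rw [EscM.N3a_grad h hk1 x t v, h2 v]
      rfl
  rw [he]
  refine isClosed_biInter fun x _ => isClosed_iInter fun _ => isClosed_iInter fun t =>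
    IsClosed.inter ?_ (isClosed_iInter fun v => ?_)
  · exact isClosed_eq (EscM.N3a_cont_apply (k := k) ⟨0, h0⟩ (x, t) _) continuous_const
  · exact isClosed_eq (EscM.N3a_cont_apply (k := k) ⟨1, h1⟩ (x, t) _) continuous_const

theorem baireYW (M' : Sub m) (K : Set (Vec m)) (a0 : ℝ) (hk : 2 ≤ k) : BaireSpace (YW M' K a0 k) := by
  have h1 := EscM.N3a_complete m k
  have h2 : IsClosedEmbedding (Subtype.val : YW M' K a0 k → EscF.T.Pot m k) :=
    (isClosed_YW M' K a0 hk).isClosedEmbedding_subtypeVal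
  have := h2.IsCompletelyPseudoMetrizableSpace
  infer_instance

end EscW
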