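import Pool.Agent.EscW.SDefs
import Pool.Agent.EscM.N1

set_option autoImplicit false

/-!
Module S6 of project EscW: growth in the normal directions.
-/

noncomputable section

namespace EscW

open MeasureTheory Set Filter Topology Esc EscF EscG EscM EscMT EscF.T
open scoped ContDiff

variable {d m : ℕ} {k : ℕ∞} {M : Sub d} {M' : Sub m} {O K : Set (Vec m)}
  {G : Subgroup (Vec m ≃ₗᵢ[ℝ] Vec m)} {φ : Vec m → Vec d} {ρ a0 : ℝ} {χ : Vec m → ℝ} {R : Vec m → Vec m}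
  {Θ : Vec m → ℝ}

theorem S6_part {g : Vec m × ℝ → ℝ} {x : Vec m} {t : ℝ} (hg : DifferentiableAt ℝ g (x, t)) (w : Vec m) :
    fderiv ℝ (fun y => g (y, t)) x w = fderiv ℝ g (x, t) (w, 0) := by
  have h1 : HasFDerivAt (fun y : Vec m => (y, t)) (ContinuousLinearMap.inl ℝ (Vec m) ℝ) x :=
    hasFDerivAt_prodMk_left x t
  have h2 := (hg.hasFDerivAt.comp x h1).fderiv
  have h3 : fderiv ℝ (fun y => g (y, t)) x = (fderiv ℝ g (x, t)).comp (ContinuousLinearMap.inl ℝ (Vec m) ℝ) := h2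
  rw [h3]
  rfl

theorem S6_lip {u : Vec m × ℝ → ℝ} (hu : ContDiff ℝ 2 u) {η : ℝ}
    (h : ∀ q, ‖iteratedFDeriv ℝ 2 u q‖ ≤ η) (q q' : Vec m × ℝ) :
    ‖fderiv ℝ u q - fderiv ℝ u q'‖ ≤ η * ‖q - q'‖ := by
  have h1 : Differentiable ℝ (fderiv ℝ u) :=
    (hu.fderiv_right (m := 1) (by norm_num)).differentiable (by norm_num)
  refine Convex.norm_image_sub_le_of_norm_fderiv_le (𝕜 := ℝ) (s := univ) (fun x _ => h1 x) (fun x _ => ?_)
    convex_univ (mem_univ _) (mem_univ _)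
  rw [← norm_iteratedFDeriv_one, norm_iteratedFDeriv_fderiv]
  exact h x

/-- uniform closeness of the second derivatives is a neighbourhood -/
theorem S6_nhds (hk : 2 ≤ k) (h0 : EscF.T.Pot m k) {η : ℝ} (hη : 0 < η) :
    ∀ᶠ h in 𝓝 h0, ∀ q, ‖iteratedFDeriv ℝ 2 h.toFun q - iteratedFDeriv ℝ 2 h0.toFun q‖ < η := by
  have h1 : Continuous (EscF.T.jet : EscF.T.Pot m k → _) := continuous_induced_dom
  have h2 : Continuous (fun f : EscF.T.Pot m k => EscF.T.jet f ⟨2, by exact_mod_cast hk⟩) :=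
    (continuous_apply _).comp h1
  have h3 := h2.tendsto h0
  rw [UniformFun.tendsto_iff_tendstoUniformly, Metric.tendstoUniformly_iff] at h3
  filter_upwards [h3 η hη] with h hh q
  have h4 := hh q
  rw [dist_comm, dist_eq_norm] at h4
  exact h4

theorem S6_contDiff (hk : 2 ≤ k) (h : EscF.T.Pot m k) : ContDiff ℝ 2 h.toFun := by
  have h2 : ((2 : ℕ∞) : WithTop ℕ∞) ≤ (k : WithTop ℕ∞) := WithTop.coe_le_coe.2 hk
  exact h.contDiff.of_le h2

theorem VW_open (hk : 2 ≤ k) (hT : TubeW M' O K ρ a0 χ R) :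
    IsOpen {h : YW M' K a0 k | VW M' K ρ a0 (fun x t => h.1.toFun (x, t))} := by
  rw [isOpen_iff_mem_nhds]
  rintro h0 ⟨ε, hε, hv⟩
  have h1 : ∀ᶠ h : YW M' K a0 k in 𝓝 h0,
      ∀ q, ‖iteratedFDeriv ℝ 2 h.1.toFun q - iteratedFDeriv ℝ 2 h0.1.toFun q‖ < ε / 2 :=
    continuous_subtype_val.continuousAt.eventually (S6_nhds hk h0.1 (half_pos hε))
  filter_upwards [h1] with h hh
  refine ⟨ε / 2, half_pos hε, fun x hx hK t => ?_⟩
  have hU : x ∈ M'.U := hT.tube x (by linarith [hT.ρ_pos])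
  have hN : M'.r x ∈ M'.N := M'.mem x hU
  set u : Vec m × ℝ → ℝ := fun q => h.1.toFun q - h0.1.toFun q with hu
  have hc := S6_contDiff hk h.1
  have hc0 := S6_contDiff hk h0.1
  have hcu : ContDiff ℝ 2 u := hc.sub hc0
  have hb : ∀ q, ‖iteratedFDeriv ℝ 2 u q‖ ≤ ε / 2 := fun q => by
    have h2 : iteratedFDeriv ℝ 2 u q =
        iteratedFDeriv ℝ 2 h.1.toFun q - iteratedFDeriv ℝ 2 h0.1.toFun q := by
      have h3 := iteratedFDeriv_sub (𝕜 := ℝ) (i := 2) hc hc0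
      exact congrFun h3 q
    rw [h2]
    exact (hh q).le
  have hd : ∀ y, DifferentiableAt ℝ u (y, t) := fun y => (hcu.differentiable (by norm_num)) _
  have hdh : ∀ y, DifferentiableAt ℝ h.1.toFun (y, t) := fun y => (hc.differentiable (by norm_num)) _
  have hdh0 : ∀ y, DifferentiableAt ℝ h0.1.toFun (y, t) := fun y => (hc0.differentiable (by norm_num)) _
  have e1 : fderiv ℝ u (x, t) = fderiv ℝ h.1.toFun (x, t) - fderiv ℝ h0.1.toFun (x, t) :=
    fderiv_sub (hdh x) (hdh0 x)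
  have e2 : fderiv ℝ u (M'.r x, t) = fderiv ℝ h.1.toFun (M'.r x, t) - fderiv ℝ h0.1.toFun (M'.r x, t) :=
    fderiv_sub (hdh _) (hdh0 _)
  set w : Vec m := x - M'.r x with hw
  have e3 : fderiv ℝ u (M'.r x, t) (w, 0) = 0 := by
    rw [e2, ContinuousLinearMap.sub_apply, ← S6_part (hdh _), ← S6_part (hdh0 _), (h.2 _ hN hK t).2,
      (h0.2 _ hN hK t).2]
    simp
  have e4 := S6_lip hcu hb (x, t) (M'.r x, t)
  have e5 : ‖((x, t) : Vec m × ℝ) - (M'.r x, t)‖ = ‖w‖ := by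
    rw [Prod.mk_sub_mk, sub_self, Prod.norm_def]
    simp [hw]
  rw [e5] at e4
  have e6 : |fderiv ℝ u (x, t) (w, 0)| ≤ ε / 2 * ‖w‖ ^ 2 := by
    have e7 := (fderiv ℝ u (x, t) - fderiv ℝ u (M'.r x, t)).le_opNorm (w, 0)
    rw [ContinuousLinearMap.sub_apply, e3, sub_zero] at e7
    have e8 : ‖((w, 0) : Vec m × ℝ)‖ = ‖w‖ := by
      rw [Prod.norm_def]
      simp
    rw [e8] at e7
    calc |fderiv ℝ u (x, t) (w, 0)| ≤ ‖fderiv ℝ u (x, t) - fderiv ℝ u (M'.r x, t)‖ * ‖w‖ := e7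
      _ ≤ (ε / 2 * ‖w‖) * ‖w‖ := mul_le_mul_of_nonneg_right e4 (norm_nonneg _)
      _ = ε / 2 * ‖w‖ ^ 2 := by ring
  have e9 := hv x hx hK t
  change ε * ‖w‖ ^ 2 ≤ fderiv ℝ (fun y => h0.1.toFun (y, t)) x w at e9
  change ε / 2 * ‖w‖ ^ 2 ≤ fderiv ℝ (fun y => h.1.toFun (y, t)) x w
  rw [S6_part (hdh0 x)] at e9
  rw [S6_part (hdh x)]
  rw [e1, ContinuousLinearMap.sub_apply] at e6
  have e10 := (abs_le.1 e6).1
  linarith

/-- near a point of the tube -/
theorem S6_near (hT : TubeW M' O K ρ a0 χ R) {x : Vec m} (hx : Metric.infDist x M'.N ≤ ρ) :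
    x ∈ M'.U ∧ ∀ᶠ y in 𝓝 x, y ∈ M'.U ∧ Metric.infDist y M'.N ≤ 3 * ρ ∧ R y = M'.r y := by
  have hρ := hT.ρ_pos
  have hU : x ∈ M'.U := hT.tube x (by linarith)
  refine ⟨hU, ?_⟩
  have h1 : ∀ᶠ y in 𝓝 x, Metric.infDist y M'.N < 3 * ρ :=
    (Metric.continuous_infDist_pt M'.N).continuousAt.eventually_lt_const (by linarith)
  filter_upwards [h1, M'.isOpen.mem_nhds hU] with y h2 h3
  exact ⟨h3, h2.le, hT.R_eq y (by linarith)⟩

theorem S6_diff_r (M' : Sub m) {x : Vec m} (hU : x ∈ M'.U) : DifferentiableAt ℝ M'.r x :=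
  ((M'.smooth x hU).contDiffAt (M'.isOpen.mem_nhds hU)).differentiableAt (by simp)

/-- the potential `‖x - R x‖²` -/
def S6_pot (k : ℕ∞) (hT : TubeW M' O K ρ a0 χ R) : EscF.T.Pot m k where
  toFun q := ‖q.1 - R q.1‖ ^ 2
  contDiff := by
    have h1 : ContDiff ℝ ∞ (fun q : Vec m × ℝ => ‖q.1 - R q.1‖ ^ 2) :=
      (contDiff_fst.sub (hT.sR.comp contDiff_fst)).norm_sq ℝ
    exact h1.of_le (by exact_mod_cast le_top)
  periodic n l x t := by
    show ‖(x + vz n) - R (x + vz n)‖ ^ 2 = ‖x - R x‖ ^ 2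
    rw [hT.perR, add_sub_add_right_eq_sub]

theorem S6_fderiv {x : Vec m} (hR : DifferentiableAt ℝ R x) (v : Vec m) :
    fderiv ℝ (fun y => ‖y - R y‖ ^ 2) x v = 2 * inner ℝ (x - R x) (v - fderiv ℝ R x v) := by
  have h1 : HasFDerivAt (fun y : Vec m => y - R y) (ContinuousLinearMap.id ℝ _ - fderiv ℝ R x) x :=
    (hasFDerivAt_id x).sub hR.hasFDerivAt
  have h2 := h1.norm_sq.fderiv
  rw [h2]
  simp [two_mul, inner_sub_left, inner_sub_right]

/-- `h x = ‖x - R x‖²` -/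
theorem VW_ne (k : ℕ∞) (hT : TubeW M' O K ρ a0 χ R) :
    {h : YW M' K a0 k | VW M' K ρ a0 (fun x t => h.1.toFun (x, t))}.Nonempty := by
  have hρ := hT.ρ_pos
  have hdR : Differentiable ℝ R := hT.sR.differentiable (by simp)
  have hy : S6_pot k hT ∈ YW M' K a0 k := by
    intro x hx _ t
    have h0 : Metric.infDist x M'.N = 0 := Metric.infDist_zero_of_mem hx
    have h1 : R x = x := by rw [hT.R_eq x (by rw [h0]; linarith), r_self M' hx]
    refine ⟨?_, ?_⟩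
    · show ‖x - R x‖ ^ 2 = 0
      rw [h1, sub_self, norm_zero]
      norm_num
    · ext v
      show fderiv ℝ (fun y => ‖y - R y‖ ^ 2) x v = 0
      rw [S6_fderiv (hdR x), h1, sub_self, inner_zero_left, mul_zero]
  refine ⟨⟨S6_pot k hT, hy⟩, 1, one_pos, fun x hx _ t => ?_⟩
  obtain ⟨hU, hev⟩ := S6_near hT hx
  show 1 * ‖x - M'.r x‖ ^ 2 ≤ fderiv ℝ (fun y => ‖y - R y‖ ^ 2) x (x - M'.r x)
  have h1 : R x = M'.r x := hev.self_of_nhds.2.2
  have h2 : fderiv ℝ R x = fderiv ℝ M'.r x := by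
    refine Filter.EventuallyEq.fderiv_eq ?_
    filter_upwards [hev] with y hy using hy.2.2
  rw [S6_fderiv (hdR x), h2, fderiv_r_normal M' hU, h1, sub_zero, real_inner_self_eq_norm_sq]
  nlinarith [sq_nonneg ‖x - M'.r x‖]

theorem VW_fw (hk : 2 ≤ k) (hC : IsChart M M' O G φ) (hT : TubeW M' O K ρ a0 χ R) (f : EscM.Pot M k)
    (h : YW M' K a0 k) (hv : VW M' K ρ a0 (fun x t => h.1.toFun (x, t))) :
    VW M' K ρ a0 (fw φ χ R f h.1) := by
  obtain ⟨ε, hε, hv⟩ := hv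
  refine ⟨ε, hε, fun x hx hK t => (hv x hx hK t).trans (le_of_eq ?_)⟩
  have hρ := hT.ρ_pos
  have ha0 := hT.a0_pos
  obtain ⟨hU, hev⟩ := S6_near hT hx
  have hdr := S6_diff_r M' hU
  have hN : M'.r x ∈ M'.N := M'.mem x hU
  have hO : M'.r x ∈ O := hT.room _ (by linarith)
  have hM : φ (M'.r x) ∈ M.U := M.sub (hC.maps _ ⟨hN, hO⟩)
  have hdφ : DifferentiableAt ℝ φ (M'.r x) :=
    ((hC.smooth _ hO).contDiffAt (hC.isOpen.mem_nhds hO)).differentiableAt (by simp)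
  have hopen : IsOpen {q : Vec d × ℝ | q.1 ∈ M.U} := M.isOpen.preimage continuous_fst
  have hdf : DifferentiableAt ℝ f.toFun (φ (M'.r x), t) := by
    have h1 : ContDiffAt ℝ k f.toFun (φ (M'.r x), t) :=
      (f.contDiff _ hM).contDiffAt (hopen.mem_nhds hM)
    refine h1.differentiableAt ?_
    have h2 : ((2 : ℕ∞) : WithTop ℕ∞) ≤ (k : WithTop ℕ∞) := WithTop.coe_le_coe.2 hk
    intro h0
    rw [h0] at h2
    norm_num at h2
  -- the composition along the nearest point map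
  have hdg : DifferentiableAt ℝ (fun y : Vec m => f.toFun (φ y, t)) (M'.r x) :=
    DifferentiableAt.comp (f := fun y : Vec m => (φ y, t)) (M'.r x) hdf
      (hdφ.prodMk (differentiableAt_const t))
  have hd1 : HasFDerivAt (fun y : Vec m => f.toFun (φ (M'.r y), t))
      ((fderiv ℝ (fun y : Vec m => f.toFun (φ y, t)) (M'.r x)).comp (fderiv ℝ M'.r x)) x :=
    hdg.hasFDerivAt.comp x hdr.hasFDerivAt
  have hevK : ∀ᶠ y in 𝓝 x, Metric.infDist (M'.r y) K < 2 * a0 :=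
    ((Metric.continuous_infDist_pt K).continuousAt.comp hdr.continuousAt).eventually_lt_const
      (show Metric.infDist (M'.r x) K < 2 * a0 by linarith)
  have heq : (fun y => fw φ χ R f h.1 y t) =ᶠ[𝓝 x]
      fun y => f.toFun (φ (M'.r y), t) + h.1.toFun (y, t) := by
    filter_upwards [hev, hevK] with y hy hyK
    show χ y * f.toFun (φ (R y), t) + h.1.toFun (y, t) = _
    rw [hT.one y hy.2.1 hyK.le, hy.2.2, one_mul]
  have hdh : DifferentiableAt ℝ (fun y => h.1.toFun (y, t)) x := by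
    have h1 : Differentiable ℝ h.1.toFun := (S6_contDiff hk h.1).differentiable (by norm_num)
    exact DifferentiableAt.comp (f := fun y : Vec m => (y, t)) x (h1 _)
      (differentiableAt_id.prodMk (differentiableAt_const t))
  have hsum := (hd1.add hdh.hasFDerivAt).fderiv
  have hfin : fderiv ℝ (fun y => fw φ χ R f h.1 y t) x =
      (fderiv ℝ (fun y : Vec m => f.toFun (φ y, t)) (M'.r x)).comp (fderiv ℝ M'.r x) +
        fderiv ℝ (fun y => h.1.toFun (y, t)) x := heq.fderiv_eq.trans hsum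
  rw [hfin, ContinuousLinearMap.add_apply, ContinuousLinearMap.comp_apply, fderiv_r_normal M' hU, map_zero,
    zero_add]

end EscW
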