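import Pool.Agent.EscW.SDefs
import Pool.Agent.EscG.F2b
import Pool.Agent.EscW.S2
import Pool.Agent.EscW.S4
import Pool.Agent.EscW.S5
import Pool.Agent.EscW.S6
import Pool.Agent.EscM.N3b
import Pool.Agent.EscM.N4

set_option autoImplicit false

/-!
Project EscW (MP_6acca1_an), module S7: the residual theorem (Kuratowski-Ulam and the stages), port of EscM/N7.
-/

noncomputable section

namespace EscW

open MeasureTheory Set Filter Topology Esc EscF EscG EscM EscMT EscF.T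
open scoped ContDiff

variable {d m : ℕ} {k : ℕ∞} {M : Sub d} {M' : Sub m} {O K : Set (Vec m)}
  {G : Subgroup (Vec m ≃ₗᵢ[ℝ] Vec m)} {φ : Vec m → Vec d} {ρ a0 : ℝ} {χ : Vec m → ℝ} {R : Vec m → Vec m}
  {Θ : Vec m → ℝ}

/-- the bounds of `Good` are closed under uniform convergence -/
theorem S7_good_closed {c : ℝ} (hc : 0 ≤ c) {f : Vec m → ℝ → ℝ} (hf : Pt (bas m) f)
    (h : ¬ Good c f) :
    ∃ r > 0, ∀ f' : Vec m → ℝ → ℝ, Pt (bas m) f' → (∀ x t, |f x t - f' x t| ≤ r) → ¬ Good c f' := by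
  by_contra hcon
  push Not at hcon
  apply h
  have key : ∀ r : ℝ, 0 < r → ∃ f' : Vec m → ℝ → ℝ, Good c f' ∧ ∀ x t, |f x t - f' x t| ≤ r := by
    intro r hr
    obtain ⟨f', -, h2, h3⟩ := hcon r hr
    exact ⟨f', h3, h2⟩
  refine ⟨hc, hf.smooth.continuous, fun x t => ?_, fun x x' t => ?_, fun x t t' => ?_⟩
  · refine le_of_forall_pos_le_add fun ε hε => ?_
    obtain ⟨f', h1, h2⟩ := key ε hε
    have h3 := h1.bd x t
    have h4 := h2 x t
    have h5 : |f x t| ≤ |f x t - f' x t| + |f' x t| := by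
      have := abs_add_le (f x t - f' x t) (f' x t)
      simpa using this
    linarith
  · refine le_of_forall_pos_le_add fun ε hε => ?_
    obtain ⟨f', h1, h2⟩ := key (ε / 2) (by positivity)
    have h3 := abs_le.1 (h1.lipx x x' t)
    have h4 := abs_le.1 (h2 x t)
    have h5 := abs_le.1 (h2 x' t)
    rw [abs_le]
    constructor <;> linarith [h3.1, h3.2, h4.1, h4.2, h5.1, h5.2]
  · refine le_of_forall_pos_le_add fun ε hε => ?_
    obtain ⟨f', h1, h2⟩ := key (ε / 2) (by positivity)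
    have h3 := abs_le.1 (h1.lipt x t t')
    have h4 := abs_le.1 (h2 x t)
    have h5 := abs_le.1 (h2 x t')
    rw [abs_le]
    constructor <;> linarith [h3.1, h3.2, h4.1, h4.2, h5.1, h5.2]

/-- conditions on the potential which are open in the sup norm are open in the product -/
theorem S7_open (hk : 2 ≤ k) (hC : IsChart M M' O G φ) (hT : TubeW M' O K ρ a0 χ R)
    (S : (Vec m → ℝ → ℝ) → Prop)
    (hopen : ∀ f, Pt (bas m) f → S f →
      ∃ r > 0, ∀ f' : Vec m → ℝ → ℝ, Pt (bas m) f' → (∀ x t, |f x t - f' x t| ≤ r) → S f') :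
    IsOpen {p : EscM.Pot M k × YW M' K a0 k | S (fw φ χ R p.1 p.2.1)} := by
  rw [isOpen_iff_mem_nhds]
  rintro ⟨f, h⟩ hp
  obtain ⟨r, hr, hS⟩ := hopen _ (fw_pt hk hC hT f h.1) hp
  exact mem_of_superset (fw_ball hC hT f h hr) fun p hp' => hS _ (fw_pt hk hC hT p.1 p.2.1) hp'

theorem residual_W (hk : 2 ≤ k) (hC : IsChart M M' O G φ) (hT : TubeW M' O K ρ a0 χ R)
    (S : ℕ → (Vec m → ℝ → ℝ) → Prop) (Es : (Vec m → ℝ → ℝ) → Prop)
    (hopen : ∀ q f, Pt (bas m) f → S q f →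
      ∃ r > 0, ∀ f', Pt (bas m) f' → (∀ x t, |f x t - f' x t| ≤ r) → S q f')
    (hdense : ∀ a : ℕ, ∃ q0 : ℕ, ∀ (N : SmNorm (bas m)) (q : ℕ), q0 ≤ q → ∀ f, Pt (bas m) f → Good a f →
      ∀ ε : ℝ, 0 < ε → ∃ g, MClW M' G g ∧ N.nm g ≤ ε ∧ S q (fun x t => f x t + g x t))
    (hesc : ∀ a : ℕ, ∃ q0 : ℕ, ∀ q1 : ℕ, q0 ≤ q1 → ∀ f, Pt (bas m) f → Good a f →
      (∀ q : ℕ, q1 ≤ q → S q f) → Es f) :
    {f : EscM.Pot M k | ∃ h : YW M' K a0 k, VW M' K ρ a0 (fw φ χ R f h.1) ∧ Es (fw φ χ R f h.1)} ∈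
      residual (EscM.Pot M k) := by
  have := second_pot m k
  have := baireYW (k := k) M' K a0 hk
  choose a ha using hdense
  choose b hb using hesc
  set W : ℕ × ℕ → Set (EscM.Pot M k × YW M' K a0 k) := fun i =>
    {p | S (a i.1 + i.2) (fw φ χ R p.1 p.2.1)} ∪ {p | ¬ Good (i.1 : ℝ) (fw φ χ R p.1 p.2.1)} with hW
  have hWo : ∀ i, IsOpen (W i) := by
    intro i
    refine IsOpen.union ?_ ?_
    · exact S7_open hk hC hT (fun g => S (a i.1 + i.2) g) fun f hf hS => hopen _ f hf hS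
    · exact S7_open hk hC hT (fun g => ¬ Good (i.1 : ℝ) g) fun f hf hS =>
        S7_good_closed (Nat.cast_nonneg _) hf hS
  have hWd : ∀ i, Dense (W i) := by
    intro i
    rw [dense_iff_inter_open]
    rintro A hA ⟨⟨f, h⟩, hf⟩
    by_cases hG : Good (i.1 : ℝ) (fw φ χ R f h.1)
    · obtain ⟨N, e, he, hr⟩ := reachW hC hT hA hf
      obtain ⟨g, h1, h2, h3⟩ := ha i.1 N (a i.1 + i.2) (Nat.le_add_right _ _) _ (fw_pt hk hC hT f h.1) hG
        (e / 2) (by positivity)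
      obtain ⟨p, hp, hp'⟩ := hr g h1 (by linarith)
      refine ⟨p, hp, Or.inl ?_⟩
      have e1 : fw φ χ R p.1 p.2.1 = fun x t => fw φ χ R f h.1 x t + g x t := by
        funext x t
        exact hp' x t
      change S (a i.1 + i.2) (fw φ χ R p.1 p.2.1)
      rw [e1]
      exact h3
    · exact ⟨(f, h), hf, Or.inr hG⟩
  have hV := VW_open (k := k) hk hT
  have hVne := VW_ne k hT
  refine mem_of_superset (KU hWo hWd hV hVne) ?_
  rintro f ⟨h, hv, hall⟩
  refine ⟨h, VW_fw hk hC hT f h hv, ?_⟩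
  obtain ⟨C, hC1, hGC⟩ := Pt.good (fw_pt hk hC hT f h.1)
  obtain ⟨c, hc⟩ := exists_nat_ge C
  have hGm : Good (c : ℝ) (fw φ χ R f h.1) :=
    ⟨Nat.cast_nonneg c, hGC.cont, fun x t => (hGC.bd x t).trans hc,
      fun x x' t => (hGC.lipx x x' t).trans (mul_le_mul_of_nonneg_right hc (norm_nonneg _)),
      fun x t t' => (hGC.lipt x t t').trans (mul_le_mul_of_nonneg_right hc (abs_nonneg _))⟩
  have hS : ∀ q : ℕ, a c ≤ q → S q (fw φ χ R f h.1) := by
    intro q hq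
    obtain ⟨r, rfl⟩ := Nat.exists_eq_add_of_le hq
    rcases hall (c, r) with h | h
    · exact h
    · exact absurd hGm h
  exact hb c (max (a c) (b c)) (le_max_right _ _) _ (fw_pt hk hC hT f h.1) hGm
    fun q hq => hS q ((le_max_left _ _).trans hq)

end EscW
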