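import Pool.Agent.EscW.SDefs
import Pool.Agent.EscM.N0
import Pool.Agent.EscQ.Q8

set_option autoImplicit false

/-!
Module S8 of project EscW: the class of symmetric perturbations. The bumps are `1 - ∏ P ∈ G, (1 - g0 (P x))` for
a bump `g0` of the class `S0` (compare EscQ/Q8).
-/

noncomputable section

namespace EscW

open MeasureTheory Set Filter Topology Esc EscF EscG EscM EscMT EscF.T
open scoped ContDiff

variable {d m : ℕ} {k : ℕ∞} {M : Sub d} {M' : Sub m} {O K : Set (Vec m)}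
  {G : Subgroup (Vec m ≃ₗᵢ[ℝ] Vec m)} {φ : Vec m → Vec d} {ρ a0 : ℝ} {χ : Vec m → ℝ} {R : Vec m → Vec m}
  {Θ : Vec m → ℝ}

/-- the symmetrised bump -/
def S8_g (T : Finset (Vec m ≃ₗᵢ[ℝ] Vec m)) (g0 : Vec m → ℝ) (x : Vec m) : ℝ := 1 - ∏ P ∈ T, (1 - g0 (P x))

theorem S8_mem (hf : (G : Set (Vec m ≃ₗᵢ[ℝ] Vec m)).Finite) {P : Vec m ≃ₗᵢ[ℝ] Vec m} :
    P ∈ hf.toFinset ↔ P ∈ G := by
  rw [Set.Finite.mem_toFinset]
  exact Iff.rfl

theorem S8_smooth (T : Finset (Vec m ≃ₗᵢ[ℝ] Vec m)) {g0 : Vec m → ℝ} (h : ContDiff ℝ ∞ g0) :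
    ContDiff ℝ ∞ (S8_g T g0) := by
  unfold S8_g
  exact contDiff_const.sub
    (contDiff_prod fun P _ => contDiff_const.sub (h.comp P.contDiff))

theorem S8_per {T : Finset (Vec m ≃ₗᵢ[ℝ] Vec m)}
    (hT : ∀ P ∈ T, ∀ n : Fin m → ℤ, ∃ n' : Fin m → ℤ, P (vz n) = vz n') {g0 : Vec m → ℝ}
    (h : ∀ (n : Fin m → ℤ) x, g0 (x + vz n) = g0 x) (n : Fin m → ℤ) (x : Vec m) :
    S8_g T g0 (x + vz n) = S8_g T g0 x := by
  unfold S8_g
  congr 1
  refine Finset.prod_congr rfl fun P hP => ?_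
  obtain ⟨n', hn'⟩ := hT P hP n
  rw [map_add, hn', h]

theorem S8_inv (hf : (G : Set (Vec m ≃ₗᵢ[ℝ] Vec m)).Finite) (g0 : Vec m → ℝ)
    {Q : Vec m ≃ₗᵢ[ℝ] Vec m} (hQ : Q ∈ G) (x : Vec m) :
    S8_g hf.toFinset g0 (Q x) = S8_g hf.toFinset g0 x := by
  unfold S8_g
  congr 1
  refine Finset.prod_nbij' (fun P => P * Q) (fun P => P * Q⁻¹) ?_ ?_ ?_ ?_ ?_
  · intro P hP
    exact (S8_mem hf).2 (G.mul_mem ((S8_mem hf).1 hP) hQ)
  · intro P hP
    exact (S8_mem hf).2 (G.mul_mem ((S8_mem hf).1 hP) (G.inv_mem hQ))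
  · intro P _
    exact mul_inv_cancel_right P Q
  · intro P _
    exact inv_mul_cancel_right P Q
  · intro P _
    rfl

theorem S8_01 (T : Finset (Vec m ≃ₗᵢ[ℝ] Vec m)) {g0 : Vec m → ℝ} (h : ∀ x, 0 ≤ g0 x ∧ g0 x ≤ 1)
    (x : Vec m) : 0 ≤ S8_g T g0 x ∧ S8_g T g0 x ≤ 1 := by
  unfold S8_g
  have h1 : 0 ≤ ∏ P ∈ T, (1 - g0 (P x)) :=
    Finset.prod_nonneg fun P _ => by linarith [(h (P x)).2]
  have h2 : ∏ P ∈ T, (1 - g0 (P x)) ≤ 1 :=
    Finset.prod_le_one (fun P _ => by linarith [(h (P x)).2]) fun P _ => by linarith [(h (P x)).1]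
  constructor <;> linarith

theorem S8_one {T : Finset (Vec m ≃ₗᵢ[ℝ] Vec m)} {g0 : Vec m → ℝ} {P : Vec m ≃ₗᵢ[ℝ] Vec m} (hP : P ∈ T)
    {x : Vec m} (h : g0 (P x) = 1) : S8_g T g0 x = 1 := by
  unfold S8_g
  rw [Finset.prod_eq_zero hP (by rw [h, sub_self]), sub_zero]

theorem S8_zero {T : Finset (Vec m ≃ₗᵢ[ℝ] Vec m)} {g0 : Vec m → ℝ} {x : Vec m}
    (h : ∀ P ∈ T, g0 (P x) = 0) : S8_g T g0 x = 0 := by
  unfold S8_g
  rw [Finset.prod_eq_one fun P hP => by rw [h P hP, sub_zero], sub_self]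

/-- elements of `G` preserve the distance to `N` -/
theorem S8_infDist (hC : IsChart M M' O G φ) {P : Vec m ≃ₗᵢ[ℝ] Vec m} (hP : P ∈ G) (x : Vec m) :
    Metric.infDist (P x) M'.N = Metric.infDist x M'.N := by
  have h1 : P '' M'.N = M'.N := by
    ext y
    constructor
    · rintro ⟨x, hx, rfl⟩
      exact hC.mapsN P hP x hx
    · intro hy
      exact ⟨P⁻¹ y, hC.mapsN P⁻¹ (G.inv_mem hP) y hy, P.apply_symm_apply y⟩
  have h2 := Metric.infDist_image (x := x) (t := M'.N) P.isometry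
  rwa [h1] at h2

/-- the nearest point map commutes with `G` -/
theorem S8_r (hC : IsChart M M' O G φ) {P : Vec m ≃ₗᵢ[ℝ] Vec m} (hP : P ∈ G) {x : Vec m} (hx : x ∈ M'.U)
    (hPx : P x ∈ M'.U) : M'.r (P x) = P (M'.r x) := by
  by_contra hne
  have h1 := M'.nearest (P x) hPx (P (M'.r x)) (hC.mapsN P hP _ (M'.mem x hx)) (fun h => hne h.symm)
  rw [P.dist_map] at h1
  have h6 : ∀ y : Vec m, P (P⁻¹ y) = y := fun y => P.apply_symm_apply y
  have h7 : ∀ y : Vec m, P⁻¹ (P y) = y := fun y => P.symm_apply_apply y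
  have h2 : P⁻¹ (M'.r (P x)) ∈ M'.N := hC.mapsN _ (G.inv_mem hP) _ (M'.mem _ hPx)
  have h3 : P⁻¹ (M'.r (P x)) ≠ M'.r x := fun h => hne (by rw [← h, h6])
  have h4 := M'.nearest x hx _ h2 h3
  have h5 : dist x (P⁻¹ (M'.r (P x))) = dist (P x) (M'.r (P x)) := by
    rw [← P.dist_map, h6]
  rw [h5] at h4
  exact lt_asymm h1 h4

/-- near `N` the symmetrised bump does not depend on the normal variable -/
theorem S8_near (hC : IsChart M M' O G φ) (hne : M'.N.Nonempty) {g0 : Vec m → ℝ}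
    (hm : MCl M' (fun x _ => 1 * g0 x)) :
    ∃ δ : ℝ, 0 < δ ∧ ∀ x, Metric.infDist x M'.N < δ →
      S8_g hC.finite.toFinset g0 x = S8_g hC.finite.toFinset g0 (M'.r x) := by
  obtain ⟨e, he, hU⟩ := N0_tube M' hne
  obtain ⟨-, δ, hδ, h6⟩ := hm
  refine ⟨min δ e, lt_min hδ he, fun x hx => ?_⟩
  have hxe : Metric.infDist x M'.N < e := hx.trans_le (min_le_right _ _)
  unfold S8_g
  congr 1
  refine Finset.prod_congr rfl fun P hP => ?_
  have hP' := (S8_mem hC.finite).1 hP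
  have h7 : Metric.infDist (P x) M'.N < δ := by
    rw [S8_infDist hC hP']
    exact hx.trans_le (min_le_left _ _)
  have h9 : P x ∈ M'.U := by
    apply hU
    rw [S8_infDist hC hP']
    exact hxe
  have h8 : (1 : ℝ) * g0 (P x) = 1 * g0 (M'.r (P x)) := h6 (P x) h7 0
  rw [one_mul, one_mul, S8_r hC hP' (hU x hxe) h9] at h8
  rw [h8]

/-- `g x = 1 - ∏ P ∈ G, (1 - g0 (P x))` for a bump `g0` of the class `S0` -/
theorem exists_SW (hC : IsChart M M' O G φ) (hne : M'.N.Nonempty) (S0 : EscK.SCl (bas m)) (h0 : ∀ g, S0.mem g ↔ MCl M' g) :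
    ∃ S : EscT.SG (bas m), (∀ P, P ∈ S.G ↔ P ∈ G) ∧ ∀ g, S.mem g ↔ MClW M' G g := by
  have hint : ∀ P ∈ hC.finite.toFinset, ∀ n : Fin m → ℤ, ∃ n' : Fin m → ℤ, P (vz n) = vz n' :=
    fun P hP => hC.int P ((S8_mem hC.finite).1 hP)
  have hcl : ∀ g, MClW M' G g ↔ MCl M' g ∧ ∀ P ∈ G, ∀ x ∈ M'.N, ∀ t, g (P x) t = g x t := by
    intro g
    exact ⟨fun h => ⟨⟨h.1, h.2.1⟩, h.2.2⟩, fun h => ⟨h.1.1, h.1.2, h.2⟩⟩
  refine ⟨EscT.SG.mk hC.finite.toFinset ?_ ?_ (MClW M' G) ?_ ?_ ?_ ?_ ?_, fun P => S8_mem hC.finite,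
    fun g => Iff.rfl⟩
  · exact (S8_mem hC.finite).2 G.one_mem
  · intro P hP v hv
    obtain ⟨n, rfl⟩ := EscQ.Q8_span.1 hv
    exact EscQ.Q8_span.2 (hint P hP n)
  · intro g hg
    exact hg.1
  · exact (hcl _).2 ⟨(h0 _).1 S0.zero, fun _ _ _ _ _ => rfl⟩
  · intro g g' h h'
    rw [hcl] at h h'
    refine (hcl _).2 ⟨(h0 _).1 (S0.add _ _ ((h0 _).2 h.1) ((h0 _).2 h'.1)), fun P hP x hx t => ?_⟩
    show g (P x) t + g' (P x) t = g x t + g' x t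
    rw [h.2 P hP x hx, h'.2 P hP x hx]
  · intro c g h
    rw [hcl] at h
    refine (hcl _).2 ⟨(h0 _).1 (S0.smul c _ ((h0 _).2 h.1)), fun P hP x hx t => ?_⟩
    show c * g (P x) t = c * g x t
    rw [h.2 P hP x hx]
  · obtain ⟨r0, hr0, hb⟩ := S0.bump
    refine ⟨r0, hr0, fun r hr hrr c => ?_⟩
    obtain ⟨g0, hs, hp, h01, h1, h2, h3⟩ := hb r hr hrr c
    have hp' : ∀ (n : Fin m → ℤ) x, g0 (x + vz n) = g0 x := fun n x => per_vz hp n x
    have hm := (h0 _).1 (h3 (fun _ => 1) contDiff_const fun _ => rfl)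
    obtain ⟨δ, hδ, hδ'⟩ := S8_near hC hne hm
    refine ⟨S8_g hC.finite.toFinset g0, S8_smooth _ hs, fun i x => ?_, fun x => S8_01 _ h01 x,
      fun x hx => ?_, fun x hx => ?_, fun θ hθ hθp => ⟨⟨?_, ?_, ?_⟩, ⟨δ, hδ, ?_⟩, ?_⟩⟩
    · rw [bas_apply]
      exact S8_per hint hp' _ x
    · obtain ⟨P, hP, v, hv, hle⟩ := hx
      exact S8_one hP (h1 (P x) ⟨v, hv, hle⟩)
    · exact S8_zero fun P hP => h2 (P x) fun v hv => hx P hP v hv
    · exact (hθ.comp contDiff_snd).mul ((S8_smooth _ hs).comp contDiff_fst)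
    · intro i x t
      show θ t * S8_g hC.finite.toFinset g0 (x + bas m i) = θ t * S8_g hC.finite.toFinset g0 x
      rw [bas_apply, S8_per hint hp']
    · intro x t
      show θ (t + 1) * S8_g hC.finite.toFinset g0 x = θ t * S8_g hC.finite.toFinset g0 x
      rw [hθp]
    · intro x hx t
      show θ t * S8_g hC.finite.toFinset g0 x = θ t * S8_g hC.finite.toFinset g0 (M'.r x)
      rw [hδ' x hx]
    · intro P hP x _ t
      show θ t * S8_g hC.finite.toFinset g0 (P x) = θ t * S8_g hC.finite.toFinset g0 x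
      rw [S8_inv hC.finite g0 hP]

end EscW
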