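import Pool.Agent.EscW.SDefs
import Pool.Agent.EscW.S1
import Pool.Agent.EscQ.Q9

set_option autoImplicit false

/-!
Module S9 of project EscW (MP_6acca1_an): the images of the curve under the nontrivial elements of the finite group stay
at a positive distance from the curve.
-/

noncomputable section

namespace EscW

open MeasureTheory Set Filter Topology Esc EscF EscG EscM EscMT EscF.T
open scoped ContDiff

variable {d m : ℕ} {k : ℕ∞} {M : Sub d} {M' : Sub m} {O K : Set (Vec m)}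
  {G : Subgroup (Vec m ≃ₗᵢ[ℝ] Vec m)} {φ : Vec m → Vec d} {ρ a0 : ℝ} {χ : Vec m → ℝ} {R : Vec m → Vec m}
  {Θ : Vec m → ℝ}

/-- the images of the curve under the nontrivial elements do not meet the curve -/
theorem S9_ne (hC : IsChart M M' O G φ) {F : Vec m → Vec m → ℝ → ℝ} {B : Vec m → ℝ → ℝ} {i : Fin m}
    {len : ℝ} {c : ℝ → ℝ → Vec m} (hc : IsCalibratedW M' O φ F B i len c) {P : Vec m ≃ₗᵢ[ℝ] Vec m}
    (hP : P ∈ G) (hne : P ≠ 1) (s s' t : ℝ) (n : Fin m → ℤ) : P (c s t) + vz n ≠ c s' t := by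
  intro he
  obtain ⟨l, hl⟩ := (hC.fibre (c s t) (hc.mem s t) (c s' t) (hc.mem s' t)).2 ⟨P, hP, n, he.symm⟩
  obtain ⟨j, hj⟩ := hc.simple s' s t l hl
  have h1 := EscQ.Q9_space (c := fun σ => c σ t) hc.len_pos (fun σ => hc.closed σ t) j s
  have h2 : s + j * len = s' := by linarith
  simp only [h2] at h1
  rw [h1] at he
  refine hne (hC.free P hP (n + -(Pi.single i j)) (c s t) (hc.mem s t) ?_).1
  rw [vz_add', vz_neg', ← add_assoc, he]
  abel

/-- the statement for one element of the group -/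
theorem S9_one (hC : IsChart M M' O G φ) {F : Vec m → Vec m → ℝ → ℝ} {B : Vec m → ℝ → ℝ} {i : Fin m}
    {len : ℝ} {c : ℝ → ℝ → Vec m} (hc : IsCalibratedW M' O φ F B i len c) {P : Vec m ≃ₗᵢ[ℝ] Vec m}
    (hP : P ∈ G) (hd : ∀ (s s' t : ℝ) (n : Fin m → ℤ), P (c s t) + vz n ≠ c s' t) :
    ∃ δ0 : ℝ, 0 < δ0 ∧ ∀ (s t : ℝ) (n : Fin m → ℤ),
      δ0 ≤ Metric.infDist (P (c s t) + vz n) (Set.range fun s' => c s' t) := by
  obtain ⟨Λ, hΛ⟩ : ∃ Λ : Set (Vec m), Λ = Set.range (vz : (Fin m → ℤ) → Vec m) := ⟨_, rfl⟩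
  have hΛne : Λ.Nonempty := by
    rw [hΛ]
    exact ⟨vz 0, 0, rfl⟩
  have hΛc : IsClosed Λ := by
    rw [hΛ]
    exact EscQ.Q9_closed
  obtain ⟨g, hgd⟩ : ∃ g : ℝ × ℝ × ℝ → ℝ, ∀ q,
      g q = Metric.infDist (c q.2.1 q.2.2 - P (c q.1 q.2.2)) Λ := ⟨_, fun _ => rfl⟩
  have hcc : Continuous (fun p : ℝ × ℝ => c p.1 p.2) := hc.curve.continuous
  have hg : Continuous g := by
    rw [show g = fun q => Metric.infDist (c q.2.1 q.2.2 - P (c q.1 q.2.2)) Λ from funext hgd]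
    refine (Metric.continuous_infDist_pt Λ).comp ?_
    refine Continuous.sub ?_ (P.continuous.comp ?_)
    · exact hcc.comp (by fun_prop : Continuous fun q : ℝ × ℝ × ℝ => (q.2.1, q.2.2))
    · exact hcc.comp (by fun_prop : Continuous fun q : ℝ × ℝ × ℝ => (q.1, q.2.2))
  have hpos : ∀ q, 0 < g q := by
    intro q
    rw [hgd]
    refine (hΛc.notMem_iff_infDist_pos hΛne).mp ?_
    rw [hΛ]
    rintro ⟨n, hn⟩
    exact hd q.1 q.2.1 q.2.2 n (by rw [hn]; abel)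
  have hK : IsCompact (Icc (0 : ℝ) len ×ˢ (Icc (0 : ℝ) len ×ˢ Icc (0 : ℝ) 1)) :=
    isCompact_Icc.prod (isCompact_Icc.prod isCompact_Icc)
  have hl : 0 < len := hc.len_pos
  have hKne : (Icc (0 : ℝ) len ×ˢ (Icc (0 : ℝ) len ×ˢ Icc (0 : ℝ) 1)).Nonempty :=
    ⟨(0, 0, 0), ⟨⟨le_rfl, hl.le⟩, ⟨le_rfl, hl.le⟩, le_rfl, zero_le_one⟩⟩
  obtain ⟨q0, -, hmin⟩ := hK.exists_isMinOn hKne hg.continuousOn
  refine ⟨g q0, hpos q0, fun s t n => ?_⟩
  refine (Metric.le_infDist (Set.range_nonempty _)).mpr ?_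
  rintro _ ⟨s', rfl⟩
  have hfl : ∀ x : ℝ, x - ⌊x / len⌋ * len ∈ Icc (0 : ℝ) len := by
    intro x
    have h1 := Int.floor_le (x / len)
    have h2 := Int.lt_floor_add_one (x / len)
    rw [le_div_iff₀ hl] at h1
    rw [div_lt_iff₀ hl] at h2
    constructor <;> linarith
  have ht : Int.fract t ∈ Icc (0 : ℝ) 1 := ⟨Int.fract_nonneg t, (Int.fract_lt_one t).le⟩
  have hred : ∀ x : ℝ, c x t = c (x - ⌊x / len⌋ * len) (Int.fract t) +
      vz (Pi.single i ⌊x / len⌋) := by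
    intro x
    have h1 := EscQ.Q9_space (c := fun σ => c σ t) hl (fun σ => hc.closed σ t) ⌊x / len⌋
      (x - ⌊x / len⌋ * len)
    simp only [sub_add_cancel] at h1
    have h2 := EscQ.Q9_time hc.curve_per ⌊t⌋ (x - ⌊x / len⌋ * len) (Int.fract t)
    rw [Int.fract_add_floor] at h2
    rw [h1, h2]
  obtain ⟨n', hn'⟩ := hC.int P hP (Pi.single i ⌊s / len⌋)
  have hle := hmin (show ((s - ⌊s / len⌋ * len, s' - ⌊s' / len⌋ * len, Int.fract t) : ℝ × ℝ × ℝ) ∈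
    Icc (0 : ℝ) len ×ˢ (Icc (0 : ℝ) len ×ˢ Icc (0 : ℝ) 1) from ⟨hfl s, hfl s', ht⟩)
  simp only [mem_ofPred_eq] at hle
  refine hle.trans ?_
  rw [hgd]
  simp only
  have hmem : (vz (n' + n + -(Pi.single i ⌊s' / len⌋)) : Vec m) ∈ Λ := by
    rw [hΛ]
    exact ⟨_, rfl⟩
  refine (Metric.infDist_le_dist_of_mem hmem).trans (le_of_eq ?_)
  rw [hred s, hred s', map_add, hn', vz_add', vz_add', vz_neg', dist_comm, dist_eq_norm,
    dist_eq_norm]
  congr 1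
  abel

/-- from `simple`, `fibre`, `free` and compactness -/
theorem exists_sepW (hC : IsChart M M' O G φ) {F : Vec m → Vec m → ℝ → ℝ} {B : Vec m → ℝ → ℝ} {i : Fin m}
    {len : ℝ} {c : ℝ → ℝ → Vec m} (hc : IsCalibratedW M' O φ F B i len c) :
    ∃ δ0 : ℝ, 0 < δ0 ∧ ∀ P ∈ G, P ≠ 1 → ∀ (s t : ℝ) (n : Fin m → ℤ),
      δ0 ≤ Metric.infDist (P (c s t) + vz n) (Set.range fun s' => c s' t) := by
  refine EscQ.Q9_fin hC.finite (fun P δ0 => P ≠ 1 → ∀ (s t : ℝ) (n : Fin m → ℤ),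
      δ0 ≤ Metric.infDist (P (c s t) + vz n) (Set.range fun s' => c s' t)) ?_ ?_
  · intro P x y hxy h hne s t n
    exact hxy.trans (h hne s t n)
  · intro P hP
    by_cases hne : P = 1
    · exact ⟨1, one_pos, fun h => absurd hne h⟩
    · obtain ⟨δ, hδ, h⟩ := S9_one hC hc hP (fun s s' t n => S9_ne hC hc hP hne s s' t n)
      exact ⟨δ, hδ, fun _ => h⟩

end EscW
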