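import Pool.Agent.EscT.F7b
import Pool.Agent.EscT.F8
import Pool.Agent.EscT.H4
import Pool.Agent.EscM.A15
import Pool.Agent.EscM.N0
import Pool.Agent.EscM.N2
import Pool.Agent.EscQ.QFinal
import Pool.Agent.EscW.H2
import Pool.Agent.EscW.K5
import Pool.Agent.EscW.S7
import Pool.Agent.EscW.S8
import Pool.Agent.EscW.S9

/-!
Project EscW: final theorem. Every closed submanifold `M` of a flat torus, every Lagrangian of the class `InClass M`:
for a residual, hence dense, set of potentials in `C^k(M × 𝕋)` there is an orbit that tends to infinity.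
-/

set_option autoImplicit false

namespace EscW

open Filter Topology Set Esc EscG EscF.T EscM EscMT
open scoped ContDiff UniformConvergence

variable {d : ℕ} {M : Sub d} {k : ℕ∞} {L : Lag d}

theorem result_W (hk : 2 ≤ k) (hL : InClass M L) :
    {f : EscM.Pot M k | EscapesToInfinity M (fun q => L q + f.toFun (q.1, q.2.2))} ∈
        residual (EscM.Pot M k) ∧
      Dense {f : EscM.Pot M k | EscapesToInfinity M (fun q => L q + f.toFun (q.1, q.2.2))} := by
  have key : {f : EscM.Pot M k | EscapesToInfinity M (fun q => L q + f.toFun (q.1, q.2.2))} ∈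
      residual (EscM.Pot M k) := by
    obtain ⟨κ, F, m, M', O, K, G, φ, B, i, len, a, c, hκ, hF, hL, hφ, hc, hR⟩ := hL
    obtain ⟨ρ, a0, Ψ, Ψ₂, ℓ, χ, R, hC, hT⟩ := exists_cut hφ hc hR
    obtain ⟨δ0, hδ0, hsep⟩ := exists_sepW hφ hc
    obtain ⟨l, m', D, L', p, x0, hβ, hD, hl, hp, hx0, hpδ, hZ, hback⟩ :=
      main_geoW (k := k) hk hC hT hφ hκ hF hL hc hR hδ0
    have hne : M'.N.Nonempty := ⟨c 0 0, (hc.mem 0 0).1⟩
    obtain ⟨ρ1, χ1, R1, hT1⟩ := exists_tube M' hne
    obtain ⟨S1, hS1⟩ := exists_SM hT1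
    obtain ⟨S0, hS0G, hS0⟩ := exists_SW hφ hne S1 hS1
    obtain ⟨S, hSG, hS⟩ : ∃ S : EscT.SG D.β, (∀ P, P ∈ S.G ↔ P ∈ G) ∧
        ∀ g, S.mem g ↔ MClW M' G g := by
      rw [hβ]
      exact ⟨S0, hS0G, hS0⟩
    have hPG : EscT.PG D p S := EscQ.QFinal_PG hβ hZ hpδ (G := {P | P ∈ G})
      (fun P hP => hsep P hP) S fun P hP => (hSG P).1 hP
    have hp1 : ∀ f : Vec m → ℝ → ℝ, Pt (bas m) f → Pt D.β f := fun f hf => by
      rw [hβ]
      exact hf
    have hres := residual_W (k := k) hk hφ hT (fun q f => EscT.Stage D p (lf l f) q)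
      (fun f => EscT.EscapesFrom l f x0 (EscT.Near D p)) ?_ ?_ ?_
    · filter_upwards [hres] with f hf
      obtain ⟨h, hv, he⟩ := hf
      exact hback f h hv he
    · intro q f hf hSt
      obtain ⟨r, hr, h⟩ := EscT.stage_open hD hp hl (hp1 f hf) hSt
      exact ⟨r, hr, fun f' hf' hd => h f' (hp1 f' hf') hd⟩
    · intro a
      obtain ⟨q0, h⟩ := EscT.stage_dense S hD hp hPG hl (a : ℝ) (Nat.cast_nonneg a)
      refine ⟨q0, ?_⟩
      rw [← hβ]
      intro N q hq f hf hg ε hε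
      obtain ⟨g, h1, h2, h3⟩ := h N q hq f hf hg ε hε
      exact ⟨g, (hS g).1 h1, h2, h3⟩
    · intro a
      obtain ⟨q0, h⟩ := EscT.escapes_of_stages hD hp hl (a : ℝ)
      exact ⟨q0, fun q1 hq1 f hf hg hst => h q1 hq1 f (hp1 f hf) hg hst x0 hx0⟩
  have := EscM.baire M k
  exact ⟨key, dense_of_mem_residual key⟩

end EscW
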