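import Pool.Agent.EscW.LLDefs
import Pool.Agent.EscW.WFinal

set_option autoImplicit false

/-!
Project EscW, part LL, module LL1: the orbits stay over `W`.
Copies of `backW` (K4), `main_geoW` (K5), `result_W` (WFinal), with the additional conclusion.
-/

noncomputable section

namespace EscW.Lo

open MeasureTheory Set Filter Topology Esc EscF EscG EscM EscMT EscF.T EscW
open scoped ContDiff UniformConvergence

variable {d m : ℕ} {M : Sub d} {M' : Sub m} {O K : Set (Vec m)} {G : Subgroup (Vec m ≃ₗᵢ[ℝ] Vec m)}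
  {φ : Vec m → Vec d} {κ : ℝ → ℝ} {F : Vec d → Vec d → ℝ → ℝ} {L : Lag d} {B : Vec m → ℝ → ℝ} {i : Fin m}
  {len a : ℝ} {c : ℝ → ℝ → Vec m} {ρ a0 : ℝ} {Ψ Ψ₂ χ : Vec m → ℝ} {R : Vec m → Vec m} {ℓ : Vec m →L[ℝ] ℝ} {k : ℕ∞}

theorem LL1_backW (hk : 2 ≤ k) (hC : CutW M' O K B ρ a0 Ψ Ψ₂ ℓ) (hT : TubeW M' O K ρ a0 χ R)
    (hφ : IsChart M M' O G φ) {W : Set (Vec d)} (hW : ∀ x ∈ K, Ov W (φ x)) (hL : IsNearT M κ F L) {ρ' Λ Λ₁ m₁ : ℝ} (hρ : 0 < ρ') (hle : ρ' ≤ ρ)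
    (hΛ : 0 < Λ) (hLS : LagS (bas m) M'.N M'.r (5 * ρ) m₁ (L1 φ L Ψ Λ₁)) (f : EscM.Pot M k)
    (h : YW M' K a0 k) (hf : ContDiff ℝ 2 (fun p : Vec m × ℝ => fw φ χ R f h.1 p.1 p.2)) {x0 : Vec m}
    (he : EscK.EscapesFrom (Lt M'.N M'.r ρ' Λ (L1 φ L Ψ Λ₁)) (fw φ χ R f h.1) x0 K) :
    EscapesIn M W (fun q => L q + f.toFun (q.1, q.2.2)) := by
  obtain ⟨t0, x, v, ht0, -, -, hxv, hvc, hgu, hxK, hvt⟩ := he
  have hpos : ∀ t : ℝ, 0 < t → t0 < t := fun t ht => lt_of_le_of_lt ht0 ht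
  have hρC := hC.ρ_pos
  have hR : 2 * ρ' < 5 * ρ := by linarith
  have hKO : ∀ y ∈ K, y ∈ M'.N ∩ O := fun y hy =>
    ⟨hC.subK hy, hC.room y (by
      rw [Metric.infDist_zero_of_mem hy]
      linarith [hC.a0_pos])⟩
  have hl : ContDiff ℝ 2 (fun p : Vec m × Vec m × ℝ =>
      Lt M'.N M'.r ρ' Λ (L1 φ L Ψ Λ₁) p.1 p.2.1 p.2.2) := Lt_smooth hC.tb hLS hρ hR Λ
  obtain ⟨m', hm', hconv⟩ := Lt_conv hC.tb hLS hρ hR hΛ
  have hdx : ∀ t, 0 < t → HasDerivAt x (v t) t := fun t ht => hxv t (hpos t ht)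
  have hx2 : ContDiffOn ℝ 2 x (Ioi 0) := K4_reg hl hm' hconv hf ht0 hxv hvc hgu
  have hxO : ∀ t, 0 < t → x t ∈ M'.N ∩ O := fun t ht => hKO _ (hxK t (hpos t ht).le)
  have hφd : ∀ y ∈ O, DifferentiableAt ℝ φ y := fun y hy =>
    (hφ.smooth.contDiffAt (hφ.isOpen.mem_nhds hy)).differentiableAt (by norm_num)
  have hyd : ∀ t, 0 < t → HasDerivAt (fun t => φ (x t)) (fderiv ℝ φ (x t) (v t)) t := fun t ht =>
    (hφd _ (hxO t ht).2).hasFDerivAt.comp_hasDerivAt t (hdx t ht)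
  refine ⟨fun t => φ (x t), ⟨?_, fun t ht => hφ.maps _ (hxO t ht), ?_⟩,
    fun t ht => hW _ (hxK t (hpos t ht).le), ?_⟩
  · exact (hφ.smooth.of_le (K4_two_le)).comp hx2 fun t ht => (hxO t ht).2
  · intro a b X ha hab hX hXN hX0 hXe
    refine var_zero hk hL f hab hX hXN (fun s => ⟨?_, ?_⟩) ?_
    · rw [(hXe s).1, (hXe 0).1]
    · rw [(hXe s).2, (hXe 0).2]
    · intro t ht
      have htp : 0 < t := ha.trans ht.1
      exact local_var hC hT hφ hL hρ hle f h rfl hl hf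
        (by
          filter_upwards [lt_mem_nhds htp] with s hs
          exact hdx s hs)
        (by
          filter_upwards [lt_mem_nhds htp] with s hs
          exact hxK s (hpos s hs).le)
        (hgu t (hpos t htp)) hX hXN
        (by
          filter_upwards [Ioo_mem_nhds ht.1 ht.2] with s hs
          exact hX0 s ⟨hs.1.le, hs.2.le⟩)
  · obtain ⟨c1, c2, hc1, -, hb⟩ := hC.bounds hφ
    have h1 : Tendsto (fun t => c1 * ‖v t‖) atTop atTop := hvt.const_mul_atTop hc1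
    refine tendsto_atTop_mono' _ ?_ h1
    filter_upwards [eventually_gt_atTop (0 : ℝ)] with t ht
    rw [(hyd t ht).deriv]
    have h2 : IsTangent M' (x t) (v t) := K4_tangent M' (by
      filter_upwards [lt_mem_nhds ht] with s hs
      exact (hxO s hs).1) (hdx t ht)
    exact (hb (x t) (hxO t ht).1 (by
      rw [Metric.infDist_zero_of_mem (hxK t (hpos t ht).le)]
      linarith [hC.a0_pos]) (v t) h2).1

theorem LL1_main_geoW (hk : 2 ≤ k) (hC : CutW M' O K B ρ a0 Ψ Ψ₂ ℓ) (hT : TubeW M' O K ρ a0 χ R)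
    (hφ : IsChart M M' O G φ) {W : Set (Vec d)} (hW : ∀ x ∈ K, Ov W (φ x)) (hκ : IsWeight κ) (hF : IsFinslerT M F) (hL : IsNearT M κ F L)
    (hc : IsCalibratedW M' O φ (pull φ F) B i len c) (hR : IsRoom M' O K (pull φ F) B i c a)
    {δ0 : ℝ} (hδ0 : 0 < δ0) :
    ∃ (l : Vec m → Vec m → ℝ → ℝ) (m' : ℝ) (D : EscT.GT (Fin m) 1 (Vec m)) (L' : EscT.LP) (p : GP)
      (x0 : Vec m), D.β = bas m ∧ D.Ok ∧ EscT.FT D m' L' l ∧ EscT.POk D p ∧ x0 ∈ (EscT.D0 D).C p ∧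
      8 * p.ηc ≤ δ0 ∧ (∀ t, D.Z t = Set.range fun σ => c σ t) ∧
      ∀ (f : EscM.Pot M k) (h : YW M' K a0 k), VW M' K ρ a0 (fw φ χ R f h.1) →
        EscT.EscapesFrom l (fw φ χ R f h.1) x0 (EscT.Near D p) →
        EscapesIn M W (fun q => L q + f.toFun (q.1, q.2.2)) := by
  have hρ := hC.ρ_pos
  obtain ⟨Λ₁, mF, MF, A, m₁, M₁, -, hM₁, hFP, hCP, hLS, hAP, hRP⟩ := exists_level hC hφ hκ hF hL hc hR
  obtain ⟨Λ, m1, D, L', hΛ, hβ, hOk, hZ, hFT, hp⟩ :=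
    exists_dataW hC.tb hFP hCP hRP hLS hAP hM₁ (ρ := ρ / 2) (by linarith) (by linarith)
  obtain ⟨p, hpOk, hηc, hnear, x0, hx0, hx0K⟩ := hp (min (ρ / 2) δ0) (lt_min (by linarith) hδ0)
  refine ⟨_, m1, D, L', p, x0, hβ, hOk, hFT, hpOk, hx0, hηc.trans (min_le_right _ _), hZ, ?_⟩
  intro f h hv he
  have hPt := fw_pt hk hφ hT f h.1
  obtain ⟨ε, hε, hv2⟩ := hv
  have hsign : ∀ x, Metric.infDist x M'.N < ρ / 2 → M'.r x ∈ K → ∀ t,
      0 ≤ fderiv ℝ (fun y => fw φ χ R f h.1 y t) x (x - M'.r x) := by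
    intro x hx hK t
    have h0 : Metric.infDist (M'.r x) K ≤ a0 := by
      rw [Metric.infDist_zero_of_mem hK]
      exact hC.a0_pos.le
    have h1 := hv2 x (by linarith) h0 t
    have h2 : 0 ≤ ε * ‖x - M'.r x‖ ^ 2 := by positivity
    exact h2.trans h1
  have he1 : EscK.EscapesFrom (Lt M'.N M'.r (ρ / 2) Λ (L1 φ L Ψ Λ₁)) (fw φ χ R f h.1) x0
      {x | Metric.infDist x M'.N < ρ / 2 ∧ M'.r x ∈ K} :=
    escK_of_escT he fun t x hx => ⟨(hnear t hx).1.trans_le (min_le_left _ _), (hnear t hx).2⟩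
  have he2 := staysK hC.tb hLS (by linarith) (by linarith) Λ hPt hC.subK hsign (hC.subK hx0K) he1
  exact LL1_backW hk hC hT hφ hW hL (by linarith) (by linarith) hΛ hLS f h hPt.smooth he2

theorem result_in {M : Sub d} {W : Set (Vec d)} {k : ℕ∞} {L : Lag d} (hk : 2 ≤ k) (hL : InClassIn M W L) :
    {f : EscM.Pot M k | EscapesIn M W (fun q => L q + f.toFun (q.1, q.2.2))} ∈
      residual (EscM.Pot M k) := by
  have key : {f : EscM.Pot M k | EscapesIn M W (fun q => L q + f.toFun (q.1, q.2.2))} ∈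
      residual (EscM.Pot M k) := by
    obtain ⟨κ, F, m, M', O, K, G, φ, B, i, len, a, c, hκ, hF, hL, hφ, hW, hc, hR⟩ := hL
    obtain ⟨ρ, a0, Ψ, Ψ₂, ℓ, χ, R, hC, hT⟩ := exists_cut hφ hc hR
    obtain ⟨δ0, hδ0, hsep⟩ := exists_sepW hφ hc
    obtain ⟨l, m', D, L', p, x0, hβ, hD, hl, hp, hx0, hpδ, hZ, hback⟩ :=
      LL1_main_geoW (k := k) hk hC hT hφ hW hκ hF hL hc hR hδ0
    have hne : M'.N.Nonempty := ⟨c 0 0, (hc.mem 0 0).1⟩
    obtain ⟨ρ1, χ1, R1, hT1⟩ := exists_tube M' hne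
    obtain ⟨S1, hS1⟩ := exists_SM hT1
    obtain ⟨S0, hS0G, hS0⟩ := exists_SW hφ hne S1 hS1
    obtain ⟨S, hSG, hS⟩ : ∃ S : EscT.SG D.β, (∀ P, P ∈ S.G ↔ P ∈ G) ∧
        ∀ g, S.mem g ↔ MClW M' G g := by
      rw [hβ]
      exact ⟨S0, hS0G, hS0⟩
    have hPG : EscT.PG D p S := EscQ.QFinal_PG hβ hZ hpδ (G := {P | P ∈ G})
      (fun P hP => hsep P hP) S fun P hP => (hSG P).1 hP
    have hp1 : ∀ f : Vec m → ℝ → ℝ, Pt (bas m) f → Pt D.β f := fun f hf => by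
      rw [hβ]
      exact hf
    have hres := residual_W (k := k) hk hφ hT (fun q f => EscT.Stage D p (lf l f) q)
      (fun f => EscT.EscapesFrom l f x0 (EscT.Near D p)) ?_ ?_ ?_
    · filter_upwards [hres] with f hf
      obtain ⟨h, hv, he⟩ := hf
      exact hback f h hv he
    · intro q f hf hSt
      obtain ⟨r, hr, h⟩ := EscT.stage_open hD hp hl (hp1 f hf) hSt
      exact ⟨r, hr, fun f' hf' hd => h f' (hp1 f' hf') hd⟩
    · intro a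
      obtain ⟨q0, h⟩ := EscT.stage_dense S hD hp hPG hl (a : ℝ) (Nat.cast_nonneg a)
      refine ⟨q0, ?_⟩
      rw [← hβ]
      intro N q hq f hf hg ε hε
      obtain ⟨g, h1, h2, h3⟩ := h N q hq f hf hg ε hε
      exact ⟨g, (hS g).1 h1, h2, h3⟩
    · intro a
      obtain ⟨q0, h⟩ := EscT.escapes_of_stages hD hp hl (a : ℝ)
      exact ⟨q0, fun q1 hq1 f hf hg hst => h q1 hq1 f (hp1 f hf) hg hst x0 hx0⟩
  exact key


end EscW.Lo
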