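import Pool.Agent.EscW.LLDefs

set_option autoImplicit false

/-!
Project EscW, part LL, module LL2: orbits over `W` depend only on the Lagrangian over `W`.
-/

noncomputable section

namespace EscW.Lo

open Filter Topology Set EscF.T EscM EscMT MeasureTheory
open scoped ContDiff

variable {d m k j n : ℕ}

theorem LL2_isOpen {W : Set (Vec d)} (hW : IsOpen W) : IsOpen {x : Vec d | Ov W x} := by
  have h : {x : Vec d | Ov W x} = ⋃ l : Fin d → ℤ, (fun x : Vec d => x + vz l) ⁻¹' W := by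
    ext x
    simp [Ov]
  rw [h]
  exact isOpen_iUnion fun l => hW.preimage (by fun_prop)

theorem LL2_r_eq {M : Sub d} {x : Vec d} (hx : x ∈ M.N) : M.r x = x := by
  by_contra hne
  have h := M.nearest x (M.sub hx) x hx (fun h => hne h.symm)
  rw [dist_self] at h
  exact absurd h (not_lt.mpr dist_nonneg)

theorem LL2_tangent {M : Sub d} {γ : ℝ → Vec d} (hγ : Differentiable ℝ γ) (hN : ∀ t, γ t ∈ M.N) (t : ℝ) :
    IsTangent M (γ t) (deriv γ t) := by
  have hr : DifferentiableAt ℝ M.r (γ t) :=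
    ((M.smooth.contDiffAt (M.isOpen.mem_nhds (M.sub (hN t)))).differentiableAt (by simp))
  have h1 : HasDerivAt (M.r ∘ γ) (fderiv ℝ M.r (γ t) (deriv γ t)) t :=
    hr.hasFDerivAt.comp_hasDerivAt t (hγ t).hasDerivAt
  have h2 : M.r ∘ γ = γ := funext fun s => LL2_r_eq (hN s)
  rw [h2] at h1
  exact h1.unique (hγ t).hasDerivAt

theorem escapesIn_congr {M : Sub d} {W : Set (Vec d)} (hW : IsOpen W) {L L' : Lag d}
    (h : ∀ x ∈ M.N, Ov W x → ∀ v t, IsTangent M x v → L' (x, v, t) = L (x, v, t))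
    (hE : EscapesIn M W L) : EscapesIn M W L' := by
  obtain ⟨x, ⟨hx1, hx2, hx3⟩, hO, hT⟩ := hE
  refine ⟨x, ⟨hx1, hx2, fun a b X ha hab hX hXN hX0 hXe => ?_⟩, hO, hT⟩
  refine (hx3 a b X ha hab hX hXN hX0 hXe).congr_of_eventuallyEq ?_
  have hopen : IsOpen {q : ℝ × ℝ | Ov W (X q)} := (LL2_isOpen hW).preimage hX.continuous
  have hsub : ({(0 : ℝ)} : Set ℝ) ×ˢ Icc a b ⊆ {q : ℝ × ℝ | Ov W (X q)} := by
    rintro ⟨s, t⟩ ⟨hs, ht⟩
    have hs' : s = 0 := hs
    subst hs'
    have := hX0 t ht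
    change Ov W (X (0, t))
    rw [this]
    exact hO t (lt_of_lt_of_le ha ht.1)
  obtain ⟨u, v, hu, -, hu0, hv, huv⟩ := generalized_tube_lemma isCompact_singleton isCompact_Icc hopen hsub
  filter_upwards [hu.mem_nhds (hu0 rfl)] with s hs
  refine intervalIntegral.integral_congr fun t ht => ?_
  rw [uIcc_of_le hab.le] at ht
  have hdiff : Differentiable ℝ (fun t' : ℝ => X (s, t')) :=
    (hX.differentiable (by norm_num)).comp (by fun_prop)
  exact h (X (s, t)) (hXN _) (huv ⟨hs, hv ht⟩) _ t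
    (LL2_tangent (γ := fun t' : ℝ => X (s, t')) hdiff (fun t' => hXN _) t)

end EscW.Lo
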