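import Pool.Agent.EscW.LLDefs

set_option autoImplicit false

/-!
Project EscW, part LL, module LL3: a cut-off which is one near `y0`.
`h x = Σ (1 - cos (2 π (x i - y0 i)))` is smooth and `ℤᵈ`-periodic and vanishes exactly on `y0 + ℤᵈ`; the cut-off is
`χ x = smoothTransition (2 - h x / a)` for a small `a > 0`.
-/

noncomputable section

namespace EscW.Lo

open Filter Topology Set EscF.T EscM EscMT MeasureTheory
open scoped ContDiff

variable {d m k j n : ℕ}

/-- a smooth periodic function which vanishes exactly on `y0 + ℤᵈ` -/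
def LL3_h (y0 x : Vec d) : ℝ := ∑ i, (1 - Real.cos (2 * Real.pi * (x i - y0 i)))

theorem LL3_smooth (y0 : Vec d) : ContDiff ℝ ∞ (LL3_h y0) := by
  unfold LL3_h
  refine ContDiff.sum fun i _ => ?_
  refine contDiff_const.sub (Real.contDiff_cos.comp ?_)
  exact contDiff_const.mul ((EuclideanSpace.proj (𝕜 := ℝ) i).contDiff.sub contDiff_const)

theorem LL3_zero (y0 : Vec d) : LL3_h y0 y0 = 0 := by simp [LL3_h]

theorem LL3_per (y0 x : Vec d) (l : Fin d → ℤ) : LL3_h y0 (x + vz l) = LL3_h y0 x := by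
  unfold LL3_h
  refine Finset.sum_congr rfl fun i _ => ?_
  have e1 : (x + vz l) i = x i + (l i : ℝ) := rfl
  rw [e1]
  have e2 : 2 * Real.pi * (x i + (l i : ℝ) - y0 i) = 2 * Real.pi * (x i - y0 i) + (l i : ℝ) * (2 * Real.pi) := by
    ring
  rw [e2, Real.cos_add_int_mul_two_pi]

theorem LL3_low (y0 x : Vec d) : ∃ l : Fin d → ℤ, 8 * ‖x + vz l - y0‖ ^ 2 ≤ LL3_h y0 x := by
  refine ⟨fun i => -round (x i - y0 i), ?_⟩
  set l : Fin d → ℤ := fun i => -round (x i - y0 i) with hl
  rw [← LL3_per y0 x l, EuclideanSpace.real_norm_sq_eq, Finset.mul_sum]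
  unfold LL3_h
  refine Finset.sum_le_sum fun i _ => ?_
  have e1 : (x + vz l - y0) i = (x + vz l) i - y0 i := rfl
  have e2 : (x + vz l) i - y0 i = (x i - y0 i) - (round (x i - y0 i) : ℝ) := by
    have e3 : (x + vz l) i = x i + ((-round (x i - y0 i) : ℤ) : ℝ) := rfl
    rw [e3]
    push_cast
    ring
  rw [e1, e2]
  set t := (x i - y0 i) - (round (x i - y0 i) : ℝ) with ht
  have h1 : |t| ≤ 1 / 2 := abs_sub_round _
  have h2 : |2 * Real.pi * t| ≤ Real.pi := by
    rw [abs_mul, abs_of_pos (by positivity : (0:ℝ) < 2 * Real.pi)]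
    have := Real.pi_pos
    nlinarith
  have h3 := Real.cos_le_one_sub_mul_cos_sq h2
  have h4 : 2 / Real.pi ^ 2 * (2 * Real.pi * t) ^ 2 = 8 * t ^ 2 := by
    have := Real.pi_pos
    field_simp
    ring
  linarith

theorem LL3_r {M : Sub d} {x : Vec d} (hx : x ∈ M.N) : M.r x = x := by
  by_contra h
  have h1 := M.nearest x (M.sub hx) x hx (fun h' => h h'.symm)
  rw [dist_self] at h1
  exact absurd h1 (not_lt.mpr dist_nonneg)

theorem exists_cut {M : Sub d} {y0 : Vec d} (hy : y0 ∈ M.N) {W : Set (Vec d)} (hW : IsOpen W) (hy0 : y0 ∈ W) :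
    ∃ (W1 : Set (Vec d)) (χ : Vec d → ℝ), IsOpen W1 ∧ y0 ∈ W1 ∧ W1 ⊆ W ∧ Ot.IsCutM M W χ ∧
      ∀ x ∈ M.N, Ov W1 x → χ x = 1 := by
  obtain ⟨ε, hε, hball⟩ := Metric.isOpen_iff.mp hW y0 hy0
  set a : ℝ := 2 * ε ^ 2 with ha
  have ha0 : 0 < a := by positivity
  have hcont : Continuous (LL3_h y0) := (LL3_smooth y0).continuous
  -- where `h` is small
  have hsmall : ∀ x : Vec d, LL3_h y0 x ≤ 2 * a → ∃ l : Fin d → ℤ, x + vz l ∈ W := by
    intro x hx
    obtain ⟨l, hl⟩ := LL3_low y0 x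
    refine ⟨l, hball ?_⟩
    rw [Metric.mem_ball, dist_eq_norm]
    have h1 : ‖x + vz l - y0‖ ^ 2 ≤ ε ^ 2 / 2 := by
      have : 8 * ‖x + vz l - y0‖ ^ 2 ≤ 4 * ε ^ 2 := by linarith
      linarith
    have h2 := norm_nonneg (x + vz l - y0)
    nlinarith
  refine ⟨{x | LL3_h y0 x < a} ∩ W, fun x => Real.smoothTransition (2 - LL3_h y0 x / a),
    (isOpen_lt hcont continuous_const).inter hW, ⟨?_, hy0⟩, inter_subset_right, ?_, ?_⟩
  · show LL3_h y0 y0 < a
    rw [LL3_zero]
    exact ha0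
  · refine ⟨?_, ?_, ?_, ?_⟩
    · refine ContDiff.comp_contDiffOn (g := fun x => Real.smoothTransition (2 - LL3_h y0 x / a)) ?_ M.smooth
      exact Real.smoothTransition.contDiff.comp (contDiff_const.sub ((LL3_smooth y0).div_const a))
    · intro l x _
      show Real.smoothTransition (2 - LL3_h y0 (x + vz l) / a) = Real.smoothTransition (2 - LL3_h y0 x / a)
      rw [LL3_per]
    · intro x _
      exact ⟨Real.smoothTransition.nonneg _, Real.smoothTransition.le_one _⟩
    · intro x hx hno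
      have h1 : 2 * a < LL3_h y0 (M.r x) := by
        rw [LL3_r hx]
        by_contra hle
        push Not at hle
        obtain ⟨l, hl⟩ := hsmall x hle
        exact hno l hl
      have h2 : ContinuousAt M.r x := (M.smooth.continuousOn).continuousAt (M.isOpen.mem_nhds (M.sub hx))
      have h3 : ContinuousAt (fun y => LL3_h y0 (M.r y)) x := hcont.continuousAt.comp h2
      filter_upwards [h3.eventually (lt_mem_nhds h1)] with y hy'
      refine Real.smoothTransition.zero_of_nonpos ?_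
      have h4 : 2 ≤ LL3_h y0 (M.r y) / a := by
        rw [le_div_iff₀ ha0]
        exact hy'.le
      linarith
  · rintro x _ ⟨l, hl, -⟩
    have h1 : LL3_h y0 x < a := by
      have h2 : LL3_h y0 (x + vz l) < a := hl
      rwa [LL3_per] at h2
    refine Real.smoothTransition.one_of_one_le ?_
    have h4 : LL3_h y0 x / a ≤ 1 := by
      rw [div_le_one ha0]
      exact h1.le
    linarith

end EscW.Lo
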