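import Pool.Agent.EscW.LLDefs
import Pool.Agent.EscW.LC2
import Pool.Agent.EscW.D7
import Pool.Agent.EscW.O13
import Pool.Agent.EscM.N0
import Pool.Agent.EscMT.P11

set_option autoImplicit false

/-!
Project EscW, part LL, module LL4: gluing of metrics.
-/

noncomputable section

namespace EscW.Lo

open Filter Topology Set EscF.T EscM EscMT MeasureTheory
open scoped ContDiff

variable {d m k j n : ℕ}

theorem LL4_sqrt {X X' c B : ℝ} (hc : 0 < c) (hX : c ^ 2 ≤ X) (hX' : c ^ 2 ≤ X') (h : |X - X'| ≤ B) :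
    |√X - √X'| ≤ B / (2 * c) := by
  have h0 : 0 ≤ X := (sq_nonneg c).trans hX
  have h0' : 0 ≤ X' := (sq_nonneg c).trans hX'
  have h1 : c ≤ √X := Real.le_sqrt_of_sq_le hX
  have h2 : c ≤ √X' := Real.le_sqrt_of_sq_le hX'
  have h3 : X - X' = (√X - √X') * (√X + √X') := by
    have e1 := Real.mul_self_sqrt h0
    have e2 := Real.mul_self_sqrt h0'
    linear_combination e2 - e1
  rw [h3, abs_mul, abs_of_nonneg (by positivity : 0 ≤ √X + √X')] at h
  rw [le_div_iff₀ (by positivity)]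
  calc |√X - √X'| * (2 * c) ≤ |√X - √X'| * (√X + √X') :=
        mul_le_mul_of_nonneg_left (by linarith) (abs_nonneg _)
    _ ≤ B := h

theorem LL4_zero {M : Sub d} {W : Set (Vec d)} {χ : Vec d → ℝ} (hχ : Ot.IsCutM M W χ) {x : Vec d}
    (hx : x ∈ M.N) (h : ¬ Ov W x) : χ x = 0 := by
  have h1 := (hχ.supp x hx (fun l hl => h ⟨l, hl⟩)).self_of_nhds
  rwa [r_self M hx] at h1

theorem LL4_Ov {M : Sub d} {W : Set (Vec d)} {χ : Vec d → ℝ} (hχ : Ot.IsCutM M W χ) {x : Vec d}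
    (hx : x ∈ M.N) (h : χ x ≠ 0) : Ov W x := by
  by_contra h1
  exact h (LL4_zero hχ hx h1)

theorem LL4_open {M : Sub d} {W : Set (Vec d)} (hW : IsOpen W) :
    IsOpen {z : (Vec d × Vec d) × ℝ | z.1 ∈ On.TD M ∧ Ov W (M.r z.1.1)} := by
  have h1 : IsOpen {x : Vec d | Ov W x} := by
    have h0 : {x : Vec d | Ov W x} = ⋃ l : Fin d → ℤ, (fun x => x + vz l) ⁻¹' W := by
      ext x
      simp [Ov]
    rw [h0]
    exact isOpen_iUnion (fun l => hW.preimage (continuous_id.add continuous_const))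
  have h2 : IsOpen (M.U ∩ M.r ⁻¹' {x | Ov W x}) :=
    M.smooth.continuousOn.isOpen_inter_preimage M.isOpen h1
  have h3 : IsOpen {z : (Vec d × Vec d) × ℝ | z.1 ∈ On.TD M} :=
    (On.O13_TD_open M).preimage continuous_fst
  have h4 : IsOpen {z : (Vec d × Vec d) × ℝ | z.1.1 ∈ M.U ∩ M.r ⁻¹' {x | Ov W x}} :=
    h2.preimage (continuous_fst.comp continuous_fst)
  have h5 : {z : (Vec d × Vec d) × ℝ | z.1 ∈ On.TD M ∧ Ov W (M.r z.1.1)} =
      {z : (Vec d × Vec d) × ℝ | z.1 ∈ On.TD M} ∩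
        {z : (Vec d × Vec d) × ℝ | z.1.1 ∈ M.U ∩ M.r ⁻¹' {x | Ov W x}} := by
    ext z
    constructor
    · rintro ⟨h6, h7⟩
      exact ⟨h6, h6.1, h7⟩
    · rintro ⟨h6, -, h7⟩
      exact ⟨h6, h7⟩
  rw [h5]
  exact h3.inter h4

theorem LL4_mem {M : Sub d} {W : Set (Vec d)} {x v : Vec d} (hx : x ∈ M.N) (hxW : Ov W x)
    (hv : IsTangent M x v) (hv0 : v ≠ 0) (t : ℝ) :
    (((x, v), t) : (Vec d × Vec d) × ℝ) ∈ {z : (Vec d × Vec d) × ℝ | z.1 ∈ On.TD M ∧ Ov W (M.r z.1.1)} := by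
  have h1 : fderiv ℝ M.r x v = v := hv
  refine ⟨⟨M.sub hx, ?_⟩, ?_⟩
  · change fderiv ℝ M.r x v ≠ 0
    rw [h1]
    exact hv0
  · change Ov W (M.r x)
    rw [r_self M hx]
    exact hxW

/-- bounds on a compact set of unit vectors, at all times -/
theorem LL4_unit {M : Sub d} {W : Set (Vec d)} (hW : IsOpen W) {F : Vec d → Vec d → ℝ → ℝ}
    (hF : IsFinslerOn M W 2 F) {S : Set (Vec d)} (hS : IsCompact S) (hSN : S ⊆ M.N)
    (hSW : ∀ x ∈ S, Ov W x) :
    ∃ c C A : ℝ, 0 < c ∧ 0 < C ∧ 0 ≤ A ∧ ∀ x ∈ S, ∀ v, IsTangent M x v → ‖v‖ = 1 → ∀ t t',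
      c ≤ F x v t ∧ F x v t ≤ C ∧ |F x v t - F x v t'| ≤ A * |t - t'| := by
  set G : (Vec d × Vec d) × ℝ → ℝ := fun z => On.ext M (fun x v => F x v z.2) z.1 with hG
  set D : Set ((Vec d × Vec d) × ℝ) := {z | z.1 ∈ On.TD M ∧ Ov W (M.r z.1.1)} with hD
  have hDo : IsOpen D := LL4_open hW
  have hGs : ContDiffOn ℝ 2 G D := hF.smooth
  -- the compact set
  set K0 : Set (Vec d × Vec d) := S ×ˢ Metric.sphere (0 : Vec d) 1 with hK0
  have hK0c : IsCompact K0 := hS.prod (isCompact_sphere _ _)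
  have hdr : ContinuousOn (fderiv ℝ M.r) M.U :=
    (M.smooth.fderiv_of_isOpen (m := ∞) M.isOpen (by simp)).continuousOn
  have hf : ContinuousOn (fun p : Vec d × Vec d => fderiv ℝ M.r p.1 p.2 - p.2) K0 :=
    ((hdr.comp continuous_fst.continuousOn (fun p hp => M.sub (hSN hp.1))).clm_apply
      continuous_snd.continuousOn).sub continuous_snd.continuousOn
  set K1 : Set (Vec d × Vec d) := K0 ∩ (fun p : Vec d × Vec d => fderiv ℝ M.r p.1 p.2 - p.2) ⁻¹' {0}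
    with hK1
  have hK1c : IsCompact K1 :=
    hK0c.of_isClosed_subset (hf.preimage_isClosed_of_isClosed hK0c.isClosed isClosed_singleton)
      inter_subset_left
  have hK1m : ∀ p ∈ K1, p.1 ∈ S ∧ IsTangent M p.1 p.2 ∧ ‖p.2‖ = 1 := by
    rintro p ⟨⟨h1, h2⟩, h3⟩
    exact ⟨h1, sub_eq_zero.1 h3, mem_sphere_zero_iff_norm.1 h2⟩
  have hK2c : IsCompact (K1 ×ˢ Icc (0 : ℝ) 1) := hK1c.prod isCompact_Icc
  have hne : ∀ v : Vec d, ‖v‖ = 1 → v ≠ 0 := by
    rintro v hv rfl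
    rw [norm_zero] at hv
    exact zero_ne_one hv
  have hsub : K1 ×ˢ Icc (0 : ℝ) 1 ⊆ D := by
    rintro ⟨⟨x, v⟩, t⟩ ⟨h1, h2⟩
    obtain ⟨h3, h4, h5⟩ := hK1m _ h1
    exact LL4_mem (hSN h3) (hSW _ h3) h4 (hne _ h5) t
  have hGF : ∀ x ∈ S, ∀ v, IsTangent M x v → ∀ t, G ((x, v), t) = F x v t := fun x hx v hv t =>
    On.O13_ext (fun x v => F x v t) (hSN hx) hv
  have hGc : ContinuousOn G (K1 ×ˢ Icc (0 : ℝ) 1) := hGs.continuousOn.mono hsub
  have hGp : ∀ z ∈ K1 ×ˢ Icc (0 : ℝ) 1, 0 < G z := by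
    rintro ⟨⟨x, v⟩, t⟩ ⟨h1, h2⟩
    obtain ⟨h3, h4, h5⟩ := hK1m _ h1
    rw [hGF x h3 v h4 t]
    exact hF.pos x (hSN h3) (hSW x h3) v h4 t (hne _ h5)
  obtain ⟨C1, hC1⟩ := hK2c.exists_bound_of_continuousOn hGc
  obtain ⟨C2, hC2⟩ := hK2c.exists_bound_of_continuousOn (hGc.inv₀ (fun z hz => (hGp z hz).ne'))
  have hdG : ContinuousOn (fderiv ℝ G) (K1 ×ˢ Icc (0 : ℝ) 1) :=
    (hGs.continuousOn_fderiv_of_isOpen hDo (by norm_num)).mono hsub
  obtain ⟨C3, hC3⟩ := hK2c.exists_bound_of_continuousOn hdG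
  refine ⟨(|C2| + 1)⁻¹, |C1| + 1, |C3|, by positivity, by positivity, abs_nonneg _, ?_⟩
  intro x hx v hv hv1 t t'
  have hper : Function.Periodic (fun t => F x v t) 1 := fun t => hF.periodic' x (hSN hx) (hSW x hx) v hv t
  have hred : ∀ t, F x v t = F x v (Int.fract t) := by
    intro t
    have h1 := hper.sub_int_mul_eq ⌊t⌋ (x := t)
    rw [mul_one] at h1
    exact h1.symm
  have hmem : ∀ t, (((x, v), Int.fract t) : (Vec d × Vec d) × ℝ) ∈ K1 ×ˢ Icc (0 : ℝ) 1 := by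
    intro t
    refine ⟨⟨⟨hx, mem_sphere_zero_iff_norm.2 hv1⟩, ?_⟩, Int.fract_nonneg t, (Int.fract_lt_one t).le⟩
    change fderiv ℝ M.r x v - v = 0
    rw [sub_eq_zero]
    exact hv
  have hdiff : ∀ t, HasFDerivAt (fun t => F x v t)
      ((fderiv ℝ G ((x, v), t)).comp (ContinuousLinearMap.inr ℝ (Vec d × Vec d) ℝ)) t := by
    intro t
    have h1 : DifferentiableAt ℝ G ((x, v), t) :=
      (hGs.contDiffAt (hDo.mem_nhds (LL4_mem (hSN hx) (hSW x hx) hv (hne _ hv1) t))).differentiableAt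
        (by norm_num)
    have h2 : HasFDerivAt (fun t => G ((x, v), t))
        ((fderiv ℝ G ((x, v), t)).comp (ContinuousLinearMap.inr ℝ (Vec d × Vec d) ℝ)) t :=
      h1.hasFDerivAt.comp t (hasFDerivAt_prodMk_right (x, v) t)
    have h3 : (fun t => G ((x, v), t)) = fun t => F x v t := by
      funext t
      exact hGF x hx v hv t
    rw [h3] at h2
    exact h2
  refine ⟨?_, ?_, ?_⟩
  · have h1 := hC2 _ (hmem t)
    have h2 := hGp _ (hmem t)
    rw [hred t, ← hGF x hx v hv (Int.fract t)]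
    simp only [Pi.inv_apply] at h1
    rw [norm_inv, Real.norm_eq_abs, abs_of_pos h2] at h1
    have h3 : (G ((x, v), Int.fract t))⁻¹ ≤ |C2| + 1 := h1.trans ((le_abs_self C2).trans (by linarith))
    exact inv_le_of_inv_le₀ h2 h3
  · have h1 := hC1 _ (hmem t)
    have h2 := hGp _ (hmem t)
    rw [hred t, ← hGF x hx v hv (Int.fract t)]
    rw [Real.norm_eq_abs, abs_of_pos h2] at h1
    exact h1.trans ((le_abs_self C1).trans (by linarith))
  · have hfd : ∀ t, ‖fderiv ℝ (fun t => F x v t) t‖ ≤ |C3| := by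
      intro t
      have h1 := (On.O13_perd hper).sub_int_mul_eq ⌊t⌋ (x := t)
      rw [mul_one] at h1
      have h1' : fderiv ℝ (fun t => F x v t) (Int.fract t) = fderiv ℝ (fun t => F x v t) t := h1
      rw [← h1', (hdiff (Int.fract t)).fderiv]
      calc ‖(fderiv ℝ G ((x, v), Int.fract t)).comp (ContinuousLinearMap.inr ℝ (Vec d × Vec d) ℝ)‖
          ≤ ‖fderiv ℝ G ((x, v), Int.fract t)‖ * ‖ContinuousLinearMap.inr ℝ (Vec d × Vec d) ℝ‖ :=
            ContinuousLinearMap.opNorm_comp_le _ _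
        _ ≤ |C3| * 1 := mul_le_mul ((hC3 _ (hmem t)).trans (le_abs_self _))
            (ContinuousLinearMap.norm_inr_le_one ℝ (Vec d × Vec d) ℝ) (norm_nonneg _) (abs_nonneg _)
        _ = |C3| := mul_one _
    have h2 := convex_univ.norm_image_sub_le_of_norm_fderiv_le (𝕜 := ℝ) (f := fun t => F x v t) (C := |C3|)
      (fun t _ => (hdiff t).differentiableAt) (fun t _ => hfd t) (mem_univ t') (mem_univ t)
    rw [Real.norm_eq_abs, Real.norm_eq_abs] at h2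
    exact h2

theorem LL4_bd {M : Sub d} {W : Set (Vec d)} (hW : IsOpen W) {χ : Vec d → ℝ} (hχ : Ot.IsCutM M W χ)
    {F : Vec d → Vec d → ℝ → ℝ} (hF : IsFinslerOn M W 2 F) :
    ∃ c C A : ℝ, 0 < c ∧ 0 < C ∧ 0 ≤ A ∧ ∀ x ∈ M.N, χ x ≠ 0 → ∀ v, IsTangent M x v → ∀ t t',
      c * ‖v‖ ≤ F x v t ∧ F x v t ≤ C * ‖v‖ ∧ |F x v t - F x v t'| ≤ A * ‖v‖ * |t - t'| := by
  obtain ⟨R, hR⟩ := N0_fund d
  set Z : Set (Vec d) := {x | x ∈ M.N ∧ χ x ≠ 0} with hZ
  set S : Set (Vec d) := closure Z ∩ Metric.closedBall 0 R with hS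
  have hSc : IsCompact S := (isCompact_closedBall _ _).inter_left isClosed_closure
  have hZN : closure Z ⊆ M.N := closure_minimal (fun x hx => hx.1) M.closed
  have hZW : ∀ x ∈ closure Z, Ov W x := by
    intro x hx
    by_contra h
    have h1 := hχ.supp x (hZN hx) (fun l hl => h ⟨l, hl⟩)
    obtain ⟨y, hy1, hy2⟩ := mem_closure_iff_nhds.1 hx _ h1
    have h2 : χ (M.r y) = 0 := hy1
    rw [r_self M hy2.1] at h2
    exact hy2.2 h2
  obtain ⟨c, C, A, hc, hC, hA, hb⟩ := LL4_unit hW hF hSc (fun x hx => hZN hx.1)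
    (fun x hx => hZW x hx.1)
  refine ⟨c, C, A, hc, hC, hA, ?_⟩
  intro x hx hχx v hv t t'
  have hxW := LL4_Ov hχ hx hχx
  by_cases hv0 : v = 0
  · subst hv0
    have h1 : ∀ t, F x 0 t = 0 := by
      intro t
      have h2 := hF.hom x hx hxW 0 hv t 0 le_rfl
      rwa [smul_zero, zero_mul] at h2
    rw [h1, h1, norm_zero]
    simp
  · obtain ⟨l, hl⟩ := hR x
    have hxS : x + vz l ∈ S := by
      refine ⟨subset_closure ⟨M.perN l x hx, ?_⟩, mem_closedBall_zero_iff.2 hl⟩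
      rw [hχ.periodic l x hx]
      exact hχx
    have h0 : 0 < ‖v‖ := norm_pos_iff.2 hv0
    have hu : IsTangent M x (‖v‖⁻¹ • v) := On.O13_smul _ hv
    have hun : ‖‖v‖⁻¹ • v‖ = 1 := by
      rw [norm_smul, norm_inv, norm_norm, inv_mul_cancel₀ h0.ne']
    have hvv : ‖v‖ • (‖v‖⁻¹ • v) = v := by
      rw [smul_smul, mul_inv_cancel₀ h0.ne', one_smul]
    have hFe : ∀ t, F x v t = ‖v‖ * F (x + vz l) (‖v‖⁻¹ • v) t := by
      intro t
      rw [hF.periodic l x hx hxW _ hu t, ← hF.hom x hx hxW _ hu t _ h0.le, hvv]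
    obtain ⟨h1, h2, h3⟩ := hb _ hxS _ (Dn.D7_tangent hx hu l) hun t t'
    rw [hFe t, hFe t']
    refine ⟨?_, ?_, ?_⟩
    · rw [mul_comm c]
      exact mul_le_mul_of_nonneg_left h1 h0.le
    · rw [mul_comm C]
      exact mul_le_mul_of_nonneg_left h2 h0.le
    · rw [← mul_sub, abs_mul, abs_norm]
      calc ‖v‖ * |F (x + vz l) (‖v‖⁻¹ • v) t - F (x + vz l) (‖v‖⁻¹ • v) t'|
          ≤ ‖v‖ * (A * |t - t'|) := mul_le_mul_of_nonneg_left h3 h0.le
        _ = A * ‖v‖ * |t - t'| := by ring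

theorem LL4_cont {M : Sub d} {W : Set (Vec d)} (hW : IsOpen W) {χ : Vec d → ℝ} (hχ : Ot.IsCutM M W χ)
    {F : Vec d → Vec d → ℝ → ℝ} (hF : IsFinslerOn M W 2 F) (t : ℝ) :
    ContinuousOn (fun p : Vec d × Vec d => χ p.1 * F p.1 p.2 t ^ 2)
      {p | p.1 ∈ M.N ∧ IsTangent M p.1 p.2} := by
  obtain ⟨c, C, A, hc, hC, hA, hb⟩ := LL4_bd hW hχ hF
  have hbd : ∀ p : Vec d × Vec d, p ∈ {p : Vec d × Vec d | p.1 ∈ M.N ∧ IsTangent M p.1 p.2} →
      ‖χ p.1 * F p.1 p.2 t ^ 2‖ ≤ C ^ 2 * ‖p.2‖ ^ 2 := by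
    rintro ⟨x, v⟩ ⟨hx, hv⟩
    change ‖χ x * F x v t ^ 2‖ ≤ C ^ 2 * ‖v‖ ^ 2
    obtain ⟨h1, h2⟩ := hχ.mem01 x hx
    rw [Real.norm_eq_abs, abs_of_nonneg (mul_nonneg h1 (sq_nonneg _))]
    by_cases h0 : χ x = 0
    · rw [h0, zero_mul]
      positivity
    · obtain ⟨h3, h4, -⟩ := hb x hx h0 v hv t t
      have h5 : 0 ≤ F x v t := (mul_nonneg hc.le (norm_nonneg v)).trans h3
      have h6 : F x v t ^ 2 ≤ (C * ‖v‖) ^ 2 := pow_le_pow_left₀ h5 h4 2
      calc χ x * F x v t ^ 2 ≤ 1 * F x v t ^ 2 := mul_le_mul_of_nonneg_right h2 (sq_nonneg _)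
        _ ≤ (C * ‖v‖) ^ 2 := by rw [one_mul]; exact h6
        _ = C ^ 2 * ‖v‖ ^ 2 := by ring
  rintro ⟨x0, v0⟩ ⟨hx0, hv0⟩
  have hx0 : x0 ∈ M.N := hx0
  have hv0 : IsTangent M x0 v0 := hv0
  by_cases hov : Ov W x0
  · by_cases hz : v0 = 0
    · subst hz
      have h1 : (fun p : Vec d × Vec d => χ p.1 * F p.1 p.2 t ^ 2) (x0, 0) = 0 := by
        have h2 := hbd (x0, 0) ⟨hx0, hv0⟩
        change ‖χ x0 * F x0 0 t ^ 2‖ ≤ C ^ 2 * ‖(0 : Vec d)‖ ^ 2 at h2
        rw [norm_zero] at h2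
        have h3 : ‖χ x0 * F x0 0 t ^ 2‖ ≤ 0 := by
          refine h2.trans (le_of_eq ?_)
          ring
        exact norm_le_zero_iff.1 h3
      unfold ContinuousWithinAt
      rw [h1]
      refine squeeze_zero_norm' (a := fun p : Vec d × Vec d => C ^ 2 * ‖p.2‖ ^ 2) ?_ ?_
      · filter_upwards [self_mem_nhdsWithin] with p hp
        exact hbd p hp
      · have h2 : Continuous (fun p : Vec d × Vec d => C ^ 2 * ‖p.2‖ ^ 2) := by fun_prop
        have h3 := (h2.tendsto ((x0, 0) : Vec d × Vec d)).mono_left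
          (nhdsWithin_le_nhds (s := {p : Vec d × Vec d | p.1 ∈ M.N ∧ IsTangent M p.1 p.2}))
        have h4 : C ^ 2 * ‖((x0, 0) : Vec d × Vec d).2‖ ^ 2 = 0 := by
          change C ^ 2 * ‖(0 : Vec d)‖ ^ 2 = 0
          rw [norm_zero]
          ring
        rw [h4] at h3
        exact h3
    · have hmem := LL4_mem hx0 hov hv0 hz t
      have h1 : ContinuousAt (fun z : (Vec d × Vec d) × ℝ => On.ext M (fun x v => F x v z.2) z.1)
          ((x0, v0), t) :=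
        (hF.smooth.contDiffAt ((LL4_open hW).mem_nhds hmem)).continuousAt
      have h2 : ContinuousAt (fun p : Vec d × Vec d => (p, t)) (x0, v0) :=
        continuousAt_id.prodMk continuousAt_const
      have h3 : ContinuousAt (fun p : Vec d × Vec d => On.ext M (fun x v => F x v t) p) (x0, v0) :=
        ContinuousAt.comp (f := fun p : Vec d × Vec d => (p, t))
          (g := fun z : (Vec d × Vec d) × ℝ => On.ext M (fun x v => F x v z.2) z.1) h1 h2
      have h4 : ContinuousWithinAt (fun p : Vec d × Vec d => F p.1 p.2 t)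
          {p | p.1 ∈ M.N ∧ IsTangent M p.1 p.2} (x0, v0) := by
        refine h3.continuousWithinAt.congr ?_ ?_
        · rintro p ⟨hp1, hp2⟩
          exact (On.O13_ext (fun x v => F x v t) hp1 hp2).symm
        · exact (On.O13_ext (fun x v => F x v t) hx0 hv0).symm
      have h5 : ContinuousWithinAt (fun p : Vec d × Vec d => χ p.1)
          {p | p.1 ∈ M.N ∧ IsTangent M p.1 p.2} (x0, v0) :=
        (Ot.LC2_cont hχ).comp continuous_fst.continuousOn (fun p hp => hp.1) _ ⟨hx0, hv0⟩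
      exact h5.mul (h4.pow 2)
  · have h1 := hχ.supp x0 hx0 (fun l hl => hov ⟨l, hl⟩)
    have h2 : ∀ᶠ p : Vec d × Vec d in 𝓝 (x0, v0), χ (M.r p.1) = 0 :=
      (continuous_fst.tendsto ((x0, v0) : Vec d × Vec d)).eventually h1
    have h3 : (fun p : Vec d × Vec d => χ p.1 * F p.1 p.2 t ^ 2)
        =ᶠ[𝓝[{p | p.1 ∈ M.N ∧ IsTangent M p.1 p.2}] (x0, v0)] fun _ => 0 := by
      filter_upwards [self_mem_nhdsWithin, mem_nhdsWithin_of_mem_nhds h2] with p hp hp2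
      have hp2 : χ (M.r p.1) = 0 := hp2
      rw [r_self M hp.1] at hp2
      rw [hp2, zero_mul]
    refine continuousWithinAt_const.congr_of_eventuallyEq h3 ?_
    change χ x0 * F x0 v0 t ^ 2 = 0
    rw [LL4_zero hχ hx0 hov, zero_mul]

theorem gl_fins {M : Sub d} {W : Set (Vec d)} (hW : IsOpen W) {χ : Vec d → ℝ} (hχ : Ot.IsCutM M W χ)
    {κ : ℝ → ℝ} (hκ : IsWeight κ) {F : Vec d → Vec d → ℝ → ℝ} (hF : IsFinslerOn M W 2 F) :
    IsFinslerT M (gl χ κ F) := by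
  obtain ⟨c, C, A, hc, hC, hA, hb⟩ := LL4_bd hW hχ hF
  obtain ⟨a, b, ha, hb0, hab⟩ := P11_weight hκ
  obtain ⟨Ak, hAk⟩ := hκ.lip
  -- lower bound
  set c0 : ℝ := min c (min (1 / b) 1) with hc0def
  have hc0 : 0 < c0 := lt_min hc (lt_min (by positivity) one_pos)
  have hc0c : c0 ≤ c := min_le_left _ _
  have hc0b : c0 ≤ 1 / b := (min_le_right _ _).trans (min_le_left _ _)
  have hc01 : c0 ≤ 1 := (min_le_right _ _).trans (min_le_right _ _)
  have hc2b : c0 ^ 2 ≤ 1 / b := by nlinarith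
  have hc2c : c0 ^ 2 ≤ c ^ 2 := pow_le_pow_left₀ hc0.le hc0c 2
  have hlow : ∀ x ∈ M.N, ∀ v, IsTangent M x v → ∀ t,
      (c0 * ‖v‖) ^ 2 ≤ χ x * F x v t ^ 2 + (1 - χ x) * (‖v‖ ^ 2 / κ t) := by
    intro x hx v hv t
    obtain ⟨h1, h2⟩ := hχ.mem01 x hx
    have h3 : c0 ^ 2 * ‖v‖ ^ 2 ≤ ‖v‖ ^ 2 / κ t := by
      have h4 : 1 / b ≤ 1 / κ t := one_div_le_one_div_of_le (hκ.pos t) (hab t).2
      have h5 : ‖v‖ ^ 2 / κ t = (1 / κ t) * ‖v‖ ^ 2 := by ring
      rw [h5]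
      exact mul_le_mul_of_nonneg_right (hc2b.trans h4) (sq_nonneg _)
    have h6 : χ x * (c0 ^ 2 * ‖v‖ ^ 2) ≤ χ x * F x v t ^ 2 := by
      by_cases h0 : χ x = 0
      · rw [h0, zero_mul, zero_mul]
      · obtain ⟨h7, -, -⟩ := hb x hx h0 v hv t t
        have h8 : (c * ‖v‖) ^ 2 ≤ F x v t ^ 2 := pow_le_pow_left₀ (by positivity) h7 2
        have h9 : c0 ^ 2 * ‖v‖ ^ 2 ≤ F x v t ^ 2 := by
          refine le_trans ?_ h8
          rw [mul_pow]
          exact mul_le_mul_of_nonneg_right hc2c (sq_nonneg _)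
        exact mul_le_mul_of_nonneg_left h9 h1
    have h10 : (1 - χ x) * (c0 ^ 2 * ‖v‖ ^ 2) ≤ (1 - χ x) * (‖v‖ ^ 2 / κ t) :=
      mul_le_mul_of_nonneg_left h3 (by linarith)
    calc (c0 * ‖v‖) ^ 2 = χ x * (c0 ^ 2 * ‖v‖ ^ 2) + (1 - χ x) * (c0 ^ 2 * ‖v‖ ^ 2) := by ring
      _ ≤ _ := add_le_add h6 h10
  refine ⟨fun t => ⟨?_, ?_, ?_, ?_⟩, ?_, ?_⟩
  · -- continuity
    have h1 : ContinuousOn (fun p : Vec d × Vec d => χ p.1)
        {p : Vec d × Vec d | p.1 ∈ M.N ∧ IsTangent M p.1 p.2} :=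
      (Ot.LC2_cont hχ).comp continuous_fst.continuousOn fun p hp => hp.1
    have h2 : ContinuousOn (fun p : Vec d × Vec d => ‖p.2‖ ^ 2 / κ t)
        {p : Vec d × Vec d | p.1 ∈ M.N ∧ IsTangent M p.1 p.2} := by
      have h3 : Continuous (fun p : Vec d × Vec d => ‖p.2‖ ^ 2 / κ t) := by fun_prop
      exact h3.continuousOn
    exact ((LL4_cont hW hχ hF t).add ((continuousOn_const.sub h1).mul h2)).sqrt
  · intro l x hx v hv
    change √(χ (x + vz l) * F (x + vz l) v t ^ 2 + (1 - χ (x + vz l)) * (‖v‖ ^ 2 / κ t)) =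
      √(χ x * F x v t ^ 2 + (1 - χ x) * (‖v‖ ^ 2 / κ t))
    rw [hχ.periodic l x hx]
    by_cases h0 : χ x = 0
    · rw [h0, zero_mul, zero_mul]
    · rw [hF.periodic l x hx (LL4_Ov hχ hx h0) v hv t]
  · intro x hx v hv s hs
    change √(χ x * F x (s • v) t ^ 2 + (1 - χ x) * (‖s • v‖ ^ 2 / κ t)) =
      s * √(χ x * F x v t ^ 2 + (1 - χ x) * (‖v‖ ^ 2 / κ t))
    have h1 : χ x * F x (s • v) t ^ 2 + (1 - χ x) * (‖s • v‖ ^ 2 / κ t) =
        s ^ 2 * (χ x * F x v t ^ 2 + (1 - χ x) * (‖v‖ ^ 2 / κ t)) := by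
      have h2 : ‖s • v‖ = s * ‖v‖ := by rw [norm_smul, Real.norm_eq_abs, abs_of_nonneg hs]
      by_cases h0 : χ x = 0
      · rw [h0, h2]
        ring
      · rw [hF.hom x hx (LL4_Ov hχ hx h0) v hv t s hs, h2]
        ring
    rw [h1, Real.sqrt_mul (sq_nonneg s), Real.sqrt_sq hs]
  · intro x hx v hv hv0
    change 0 < √(χ x * F x v t ^ 2 + (1 - χ x) * (‖v‖ ^ 2 / κ t))
    apply Real.sqrt_pos.2
    have h1 := hlow x hx v hv t
    have h2 : 0 < (c0 * ‖v‖) ^ 2 := by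
      have := norm_pos_iff.2 hv0
      positivity
    linarith
  · intro x hx v hv t
    change √(χ x * F x v (t + 1) ^ 2 + (1 - χ x) * (‖v‖ ^ 2 / κ (t + 1))) =
      √(χ x * F x v t ^ 2 + (1 - χ x) * (‖v‖ ^ 2 / κ t))
    rw [hκ.periodic t]
    by_cases h0 : χ x = 0
    · rw [h0, zero_mul, zero_mul]
    · rw [hF.periodic' x hx (LL4_Ov hχ hx h0) v hv t]
  · -- Lipschitz in the time
    have hAk0 : 0 ≤ Ak := by
      have h1 := hAk 1 0
      have h2 := abs_nonneg (κ 1 - κ 0)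
      rw [sub_zero, abs_one, mul_one] at h1
      linarith
    refine ⟨(2 * C * A + Ak / a ^ 2) / (2 * c0), ?_⟩
    intro x hx v hv t t'
    obtain ⟨hx1, hx2⟩ := hχ.mem01 x hx
    change |√(χ x * F x v t ^ 2 + (1 - χ x) * (‖v‖ ^ 2 / κ t)) -
      √(χ x * F x v t' ^ 2 + (1 - χ x) * (‖v‖ ^ 2 / κ t'))| ≤ _
    by_cases hv0 : v = 0
    · subst hv0
      have h1 : ∀ t, χ x * F x 0 t ^ 2 + (1 - χ x) * (‖(0 : Vec d)‖ ^ 2 / κ t) = 0 := by
        intro t
        by_cases h0 : χ x = 0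
        · rw [h0, norm_zero]
          simp
        · have h2 := hF.hom x hx (LL4_Ov hχ hx h0) 0 hv t 0 le_rfl
          rw [smul_zero, zero_mul] at h2
          rw [h2, norm_zero]
          simp
      rw [h1, h1, norm_zero]
      simp
    · have h0 : 0 < ‖v‖ := norm_pos_iff.2 hv0
      have hX : |(χ x * F x v t ^ 2 + (1 - χ x) * (‖v‖ ^ 2 / κ t)) -
          (χ x * F x v t' ^ 2 + (1 - χ x) * (‖v‖ ^ 2 / κ t'))| ≤
          (2 * C * A + Ak / a ^ 2) * ‖v‖ ^ 2 * |t - t'| := by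
        have e1 : (χ x * F x v t ^ 2 + (1 - χ x) * (‖v‖ ^ 2 / κ t)) -
            (χ x * F x v t' ^ 2 + (1 - χ x) * (‖v‖ ^ 2 / κ t')) =
            χ x * (F x v t ^ 2 - F x v t' ^ 2) + (1 - χ x) * (‖v‖ ^ 2 / κ t - ‖v‖ ^ 2 / κ t') := by
          ring
        have e2 : |χ x * (F x v t ^ 2 - F x v t' ^ 2)| ≤ 2 * C * A * ‖v‖ ^ 2 * |t - t'| := by
          by_cases h1 : χ x = 0
          · rw [h1, zero_mul, abs_zero]
            positivity
          · obtain ⟨h2, h3, h4⟩ := hb x hx h1 v hv t t'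
            obtain ⟨h5, h6, -⟩ := hb x hx h1 v hv t' t
            have h7 : 0 ≤ F x v t := (by positivity : 0 ≤ c * ‖v‖).trans h2
            have h8 : 0 ≤ F x v t' := (by positivity : 0 ≤ c * ‖v‖).trans h5
            have h9 : |F x v t ^ 2 - F x v t' ^ 2| = |F x v t - F x v t'| * (F x v t + F x v t') := by
              have h11 : F x v t ^ 2 - F x v t' ^ 2 = (F x v t - F x v t') * (F x v t + F x v t') := by ring
              rw [h11, abs_mul, abs_of_nonneg (add_nonneg h7 h8)]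
            have h10 : |F x v t ^ 2 - F x v t' ^ 2| ≤ (A * ‖v‖ * |t - t'|) * (2 * C * ‖v‖) := by
              rw [h9]
              exact mul_le_mul h4 (by linarith) (add_nonneg h7 h8) (by positivity)
            rw [abs_mul, abs_of_nonneg hx1]
            calc χ x * |F x v t ^ 2 - F x v t' ^ 2| ≤ 1 * |F x v t ^ 2 - F x v t' ^ 2| :=
                  mul_le_mul_of_nonneg_right hx2 (abs_nonneg _)
              _ ≤ (A * ‖v‖ * |t - t'|) * (2 * C * ‖v‖) := by rw [one_mul]; exact h10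
              _ = _ := by ring
        have e3 : |(1 - χ x) * (‖v‖ ^ 2 / κ t - ‖v‖ ^ 2 / κ t')| ≤ Ak / a ^ 2 * ‖v‖ ^ 2 * |t - t'| := by
          have hk := hκ.pos t
          have hk' := hκ.pos t'
          have h1 : ‖v‖ ^ 2 / κ t - ‖v‖ ^ 2 / κ t' = ‖v‖ ^ 2 * ((κ t' - κ t) / (κ t * κ t')) := by
            field_simp
          have h2 : |(κ t' - κ t) / (κ t * κ t')| ≤ Ak * |t - t'| / a ^ 2 := by
            rw [abs_div, abs_of_pos (mul_pos hk hk')]
            have h3 : a ^ 2 ≤ κ t * κ t' := by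
              rw [sq]
              exact mul_le_mul (hab t).1 (hab t').1 ha.le hk.le
            have h4 : |κ t' - κ t| ≤ Ak * |t - t'| := by
              rw [abs_sub_comm]
              exact hAk t t'
            exact div_le_div₀ (by positivity) h4 (by positivity) h3
          rw [abs_mul, abs_of_nonneg (by linarith : (0:ℝ) ≤ 1 - χ x), h1, abs_mul,
            abs_of_nonneg (sq_nonneg ‖v‖)]
          calc (1 - χ x) * (‖v‖ ^ 2 * |(κ t' - κ t) / (κ t * κ t')|)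
              ≤ 1 * (‖v‖ ^ 2 * |(κ t' - κ t) / (κ t * κ t')|) :=
                mul_le_mul_of_nonneg_right (by linarith) (by positivity)
            _ ≤ 1 * (‖v‖ ^ 2 * (Ak * |t - t'| / a ^ 2)) := by
                rw [one_mul, one_mul]
                exact mul_le_mul_of_nonneg_left h2 (sq_nonneg _)
            _ = _ := by ring
        rw [e1]
        refine (abs_add_le _ _).trans ((add_le_add e2 e3).trans (le_of_eq ?_))
        ring
      have h1 := LL4_sqrt (c := c0 * ‖v‖) (by positivity) (hlow x hx v hv t) (hlow x hx v hv t') hX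
      refine h1.trans (le_of_eq ?_)
      field_simp

theorem gl_eq {M : Sub d} {W : Set (Vec d)} {r : WithTop ℕ∞} {χ : Vec d → ℝ} (κ : ℝ → ℝ)
    {F : Vec d → Vec d → ℝ → ℝ} (hF : IsFinslerOn M W r F) {x v : Vec d} (hx : x ∈ M.N) (hxW : Ov W x)
    (hv : IsTangent M x v) (h1 : χ x = 1) (t : ℝ) : gl χ κ F x v t = F x v t := by
  have h0 : 0 ≤ F x v t := by
    by_cases hv0 : v = 0
    · subst hv0
      have h2 := hF.hom x hx hxW 0 hv t 0 le_rfl
      rw [smul_zero, zero_mul] at h2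
      exact h2.ge
    · exact (hF.pos x hx hxW v hv t hv0).le
  unfold gl
  rw [h1, one_mul, sub_self, zero_mul, add_zero, Real.sqrt_sq h0]

end EscW.Lo
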