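import Pool.Agent.EscW.LLDefs
import Pool.Agent.EscW.LL4
import Pool.Agent.EscMT.P11

set_option autoImplicit false

/-!
Project EscW, part LL, module LL5: gluing of Lagrangians.
-/

noncomputable section

namespace EscW.Lo

open Filter Topology Set EscF.T EscM EscMT MeasureTheory
open scoped ContDiff

variable {d m k j n : ℕ}

/-- the second derivative of the energy of a linear map -/
theorem LL5_second {E : Type*} [NormedAddCommGroup E] [InnerProductSpace ℝ E] (A : E →L[ℝ] E)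
    (v w : E) : iteratedFDeriv ℝ 2 (fun u => ‖A u‖ ^ 2 / 2) v ![w, w] = ‖A w‖ ^ 2 := by
  have h1 : ∀ u, HasFDerivAt (fun u => ‖A u‖ ^ 2 / 2) ((innerSL ℝ (A u)).comp A) u := by
    intro u
    have h2 := (A.hasFDerivAt (x := u)).norm_sq
    have h3 : HasFDerivAt (fun u => (1 / 2 : ℝ) * ‖A u‖ ^ 2)
      ((1 / 2 : ℝ) • (2 • (innerSL ℝ (A u)).comp A)) u := h2.const_mul (1 / 2 : ℝ)
    have e1 : (fun u => ‖A u‖ ^ 2 / 2) = fun u => (1 / 2 : ℝ) * ‖A u‖ ^ 2 := by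
      funext u
      ring
    have e2 : (1 / 2 : ℝ) • (2 • (innerSL ℝ (A u)).comp A) = (innerSL ℝ (A u)).comp A := by
      ext y
      simp
    rw [e1]
    rwa [e2] at h3
  have h2 : fderiv ℝ (fun u => ‖A u‖ ^ 2 / 2) = fun u => (innerSL ℝ (A u)).comp A :=
    funext fun u => (h1 u).fderiv
  rw [iteratedFDeriv_two_apply, h2]
  have h3 : HasFDerivAt (fun u => (innerSL ℝ (A u)).comp A)
      (((ContinuousLinearMap.compL ℝ E E ℝ).flip A).comp ((innerSL ℝ).comp A)) v :=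
    (((ContinuousLinearMap.compL ℝ E E ℝ).flip A).comp ((innerSL ℝ).comp A)).hasFDerivAt
  rw [h3.fderiv]
  simp

/-- the set of the points over `W` is open -/
theorem LL5_open {W : Set (Vec d)} (hW : IsOpen W) : IsOpen {x : Vec d | Ov W x} := by
  have h0 : {x : Vec d | Ov W x} = ⋃ l : Fin d → ℤ, (fun x => x + vz l) ⁻¹' W := by
    ext x
    simp [Ov]
  rw [h0]
  exact isOpen_iUnion (fun l => hW.preimage (continuous_id.add continuous_const))

theorem LL5_openU {M : Sub d} {W : Set (Vec d)} (hW : IsOpen W) :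
    IsOpen {q : Vec d × Vec d × ℝ | q.1 ∈ M.U ∧ Ov W (M.r q.1)} := by
  have h2 : IsOpen (M.U ∩ M.r ⁻¹' {x | Ov W x}) :=
    M.smooth.continuousOn.isOpen_inter_preimage M.isOpen (LL5_open hW)
  exact h2.preimage (continuous_fst (X := Vec d) (Y := Vec d × ℝ))

/-- the difference of `glL` and the energy of `gl` -/
theorem LL5_diff {M : Sub d} {W : Set (Vec d)} {χ : Vec d → ℝ} (hχ : Ot.IsCutM M W χ) {κ : ℝ → ℝ}
    (hκ : IsWeight κ) {F : Vec d → Vec d → ℝ → ℝ} {L : Lag d} {x v : Vec d} {t : ℝ} (hx : x ∈ M.N) :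
    glL χ L (x, v, t) - κ t * gl χ κ F x v t ^ 2 / 2 = χ x * (L (x, v, t) - κ t * F x v t ^ 2 / 2) := by
  obtain ⟨h1, h2⟩ := hχ.mem01 x hx
  have hk := hκ.pos t
  have h3 : 0 ≤ χ x * F x v t ^ 2 + (1 - χ x) * (‖v‖ ^ 2 / κ t) := by
    have h4 : 0 ≤ 1 - χ x := by linarith
    positivity
  simp only [gl, glL]
  rw [Real.sq_sqrt h3]
  field_simp
  ring

theorem LL5_smooth {M : Sub d} {W : Set (Vec d)} (hW : IsOpen W) {χ : Vec d → ℝ} (hχ : Ot.IsCutM M W χ)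
    {κ : ℝ → ℝ} {F : Vec d → Vec d → ℝ → ℝ} {L : Lag d} (hL : IsNearOn M W κ F L) :
    ContDiffOn ℝ 2 (fun q : Vec d × Vec d × ℝ => glL χ L (M.r q.1, fderiv ℝ M.r q.1 q.2.1, q.2.2))
      {q | q.1 ∈ M.U} := by
  rintro q0 hq0
  have hq0 : q0.1 ∈ M.U := hq0
  refine ContDiffAt.contDiffWithinAt ?_
  have hr : ContDiffAt ℝ ∞ M.r q0.1 := M.smooth.contDiffAt (M.isOpen.mem_nhds hq0)
  have hdr : ContDiffAt ℝ 2 (fun q : Vec d × Vec d × ℝ => fderiv ℝ M.r q.1 q.2.1) q0 := by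
    have h1 : ContDiffAt ℝ 2 (fderiv ℝ M.r) q0.1 := by
      have h3 : ContDiffAt ℝ ((3 : ℕ) : WithTop ℕ∞) M.r q0.1 := contDiffAt_infty.1 hr 3
      exact ContDiffAt.fderiv_right (m := 2) h3 (by norm_num)
    exact (ContDiffAt.comp q0 (f := fun q : Vec d × Vec d × ℝ => q.1) h1 contDiffAt_fst).clm_apply
      (contDiffAt_fst.comp q0 contDiffAt_snd)
  have hen : ContDiffAt ℝ 2 (fun q : Vec d × Vec d × ℝ => ‖fderiv ℝ M.r q.1 q.2.1‖ ^ 2 / 2) q0 :=
    (hdr.norm_sq ℝ).div_const 2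
  by_cases hov : Ov W (M.r q0.1)
  · have h1 : ContDiffAt ℝ 2 (fun q : Vec d × Vec d × ℝ => χ (M.r q.1)) q0 := by
      have h2 : ContDiffAt ℝ 2 (fun x => χ (M.r x)) q0.1 :=
        contDiffAt_infty.1 (hχ.smooth.contDiffAt (M.isOpen.mem_nhds hq0)) 2
      exact ContDiffAt.comp q0 (f := fun q : Vec d × Vec d × ℝ => q.1) h2 contDiffAt_fst
    have h3 : ContDiffAt ℝ 2 (fun q : Vec d × Vec d × ℝ => L (M.r q.1, fderiv ℝ M.r q.1 q.2.1, q.2.2)) q0 :=
      hL.smooth.contDiffAt ((LL5_openU hW).mem_nhds ⟨hq0, hov⟩)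
    exact (h1.mul h3).add ((contDiffAt_const.sub h1).mul hen)
  · have h1 := hχ.supp (M.r q0.1) (M.mem _ hq0) (fun l hl => hov ⟨l, hl⟩)
    have h2 : Tendsto (fun q : Vec d × Vec d × ℝ => M.r q.1) (𝓝 q0) (𝓝 (M.r q0.1)) :=
      ContinuousAt.comp (f := fun q : Vec d × Vec d × ℝ => q.1) (g := M.r) (x := q0)
        hr.continuousAt continuousAt_fst
    have h3 : ∀ᶠ q : Vec d × Vec d × ℝ in 𝓝 q0, q.1 ∈ M.U :=
      continuousAt_fst.eventually (M.isOpen.mem_nhds hq0)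
    refine hen.congr_of_eventuallyEq ?_
    filter_upwards [h2.eventually h1, h3] with q hq1 hq2
    have h4 : χ (M.r q.1) = 0 := by
      rwa [r_self M (M.mem _ hq2)] at hq1
    simp only [glL, h4]
    ring

theorem LL5_convex {M : Sub d} {W : Set (Vec d)} (hW : IsOpen W) {χ : Vec d → ℝ} (hχ : Ot.IsCutM M W χ)
    {κ : ℝ → ℝ} {F : Vec d → Vec d → ℝ → ℝ} {L : Lag d} (hL : IsNearOn M W κ F L) :
    ∃ c : ℝ, 0 < c ∧ ∀ x ∈ M.N, ∀ v w t, IsTangent M x v → IsTangent M x w →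
      c * ‖w‖ ^ 2 ≤ iteratedFDeriv ℝ 2 (fun u => glL χ L (x, fderiv ℝ M.r x u, t)) v ![w, w] := by
  obtain ⟨c0, hc0, h0⟩ := hL.convex
  refine ⟨min c0 1, lt_min hc0 one_pos, ?_⟩
  intro x hx v w t hv hw
  obtain ⟨hχ0, hχ1⟩ := hχ.mem01 x hx
  have hxU : x ∈ M.U := M.sub hx
  have hrx : M.r x = x := r_self M hx
  have hQw : fderiv ℝ M.r x w = w := hw
  have hN : 0 ≤ ‖w‖ ^ 2 := by positivity
  have hE := LL5_second (fderiv ℝ M.r x) v w
  rw [hQw] at hE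
  have hsE : ContDiff ℝ 2 (fun u => ‖fderiv ℝ M.r x u‖ ^ 2 / 2) :=
    ((fderiv ℝ M.r x).contDiff.norm_sq ℝ).div_const 2
  by_cases hz : χ x = 0
  · have hfun : (fun u => glL χ L (x, fderiv ℝ M.r x u, t)) = fun u => ‖fderiv ℝ M.r x u‖ ^ 2 / 2 := by
      funext u
      simp only [glL, hz]
      ring
    rw [hfun, hE]
    calc min c0 1 * ‖w‖ ^ 2 ≤ 1 * ‖w‖ ^ 2 := mul_le_mul_of_nonneg_right (min_le_right _ _) hN
      _ = ‖w‖ ^ 2 := one_mul _
  · have hov : Ov W x := LL4_Ov hχ hx hz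
    have hfun : (fun u => glL χ L (x, fderiv ℝ M.r x u, t)) =
        (χ x) • (fun u => L (x, fderiv ℝ M.r x u, t)) + (1 - χ x) • (fun u => ‖fderiv ℝ M.r x u‖ ^ 2 / 2) := by
      funext u
      rfl
    have hs2 : ContDiff ℝ 2 (fun u => L (x, fderiv ℝ M.r x u, t)) := by
      rw [contDiff_iff_contDiffAt]
      intro u
      have h2 := hL.smooth.contDiffAt ((LL5_openU hW).mem_nhds
        (show ((x, u, t) : Vec d × Vec d × ℝ) ∈ _ from ⟨hxU, by rw [hrx]; exact hov⟩))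
      have h3 : ContDiffAt ℝ 2 (fun u : Vec d => ((x, u, t) : Vec d × Vec d × ℝ)) u :=
        contDiffAt_const.prodMk (contDiffAt_id.prodMk contDiffAt_const)
      have h4 := ContDiffAt.comp u h2 h3
      have h5 : ((fun q : Vec d × Vec d × ℝ => L (M.r q.1, fderiv ℝ M.r q.1 q.2.1, q.2.2)) ∘
          fun u : Vec d => ((x, u, t) : Vec d × Vec d × ℝ)) = fun u => L (x, fderiv ℝ M.r x u, t) := by
        funext u'
        show L (M.r x, fderiv ℝ M.r x u', t) = _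
        rw [hrx]
      rwa [h5] at h4
    have hsum : iteratedFDeriv ℝ 2 (fun u => glL χ L (x, fderiv ℝ M.r x u, t)) v ![w, w] =
        χ x * iteratedFDeriv ℝ 2 (fun u => L (x, fderiv ℝ M.r x u, t)) v ![w, w] +
          (1 - χ x) * iteratedFDeriv ℝ 2 (fun u => ‖fderiv ℝ M.r x u‖ ^ 2 / 2) v ![w, w] := by
      have k1 : ContDiffAt ℝ 2 ((χ x) • (fun u => L (x, fderiv ℝ M.r x u, t))) v :=
        (hs2.const_smul (χ x)).contDiffAt
      have k2 : ContDiffAt ℝ 2 ((1 - χ x) • (fun u => ‖fderiv ℝ M.r x u‖ ^ 2 / 2)) v :=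
        (hsE.const_smul (1 - χ x)).contDiffAt
      rw [hfun, iteratedFDeriv_add_apply k1 k2, iteratedFDeriv_const_smul_apply hs2.contDiffAt,
        iteratedFDeriv_const_smul_apply hsE.contDiffAt]
      rfl
    rw [hsum, hE]
    have h1 : χ x * (min c0 1 * ‖w‖ ^ 2) ≤
        χ x * iteratedFDeriv ℝ 2 (fun u => L (x, fderiv ℝ M.r x u, t)) v ![w, w] := by
      refine mul_le_mul_of_nonneg_left ?_ hχ0
      exact (mul_le_mul_of_nonneg_right (min_le_left _ _) hN).trans (h0 x hx hov v w t hv hw)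
    have h2 : (1 - χ x) * (min c0 1 * ‖w‖ ^ 2) ≤ (1 - χ x) * ‖w‖ ^ 2 := by
      refine mul_le_mul_of_nonneg_left ?_ (by linarith)
      calc min c0 1 * ‖w‖ ^ 2 ≤ 1 * ‖w‖ ^ 2 := mul_le_mul_of_nonneg_right (min_le_right _ _) hN
        _ = ‖w‖ ^ 2 := one_mul _
    have h3 : min c0 1 * ‖w‖ ^ 2 = χ x * (min c0 1 * ‖w‖ ^ 2) + (1 - χ x) * (min c0 1 * ‖w‖ ^ 2) := by ring
    linarith

/-- a cut-off is Lipschitz on `M.N` -/
theorem LL5_lip {M : Sub d} {W : Set (Vec d)} {χ : Vec d → ℝ} (hχ : Ot.IsCutM M W χ) :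
    ∃ Λ : ℝ, 0 ≤ Λ ∧ ∀ x ∈ M.N, ∀ x' ∈ M.N, |χ x - χ x'| ≤ Λ * ‖x - x'‖ := by
  rcases M.N.eq_empty_or_nonempty with hne | hne
  · refine ⟨0, le_rfl, fun x hx => ?_⟩
    rw [hne] at hx
    exact absurd hx (notMem_empty x)
  obtain ⟨δ, hδ, hU⟩ := N0_tube M hne
  obtain ⟨R, hR⟩ := N0_fund d
  set g : Vec d → ℝ := fun x => χ (M.r x) with hg
  have hgs : ContDiffOn ℝ ∞ g M.U := hχ.smooth
  have hgd : ContinuousOn (fderiv ℝ g) M.U :=
    (hgs.fderiv_of_isOpen (m := ∞) M.isOpen (by simp)).continuousOn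
  set K : Set (Vec d) := Metric.closedBall (0 : Vec d) R ∩ {x | Metric.infDist x M.N ≤ δ / 2} with hK
  have hKc : IsCompact K :=
    (isCompact_closedBall _ _).inter_right
      (isClosed_le (Metric.continuous_infDist_pt M.N) continuous_const)
  have hKU : K ⊆ M.U := fun x hx => hU x (lt_of_le_of_lt hx.2 (by linarith))
  obtain ⟨B, hB⟩ := hKc.exists_bound_of_continuousOn (hgd.mono hKU)
  have hgp : ∀ (l : Fin d → ℤ), ∀ x ∈ M.U, g (x + vz l) = g x := by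
    intro l x hx
    simp only [hg]
    rw [r_vz M l hx]
    exact hχ.periodic l _ (M.mem x hx)
  have hgdp : ∀ (l : Fin d → ℤ), ∀ x ∈ M.U, fderiv ℝ g (x + vz l) = fderiv ℝ g x := by
    intro l x hx
    have h1 : fderiv ℝ (fun y => g (y + vz l)) x = fderiv ℝ g (x + vz l) := fderiv_comp_add_right _
    have h2 : (fun y => g (y + vz l)) =ᶠ[𝓝 x] g := by
      filter_upwards [M.isOpen.mem_nhds hx] with y hy
      exact hgp l y hy
    rw [← h1, h2.fderiv_eq]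
  have hbd : ∀ x, Metric.infDist x M.N ≤ δ / 2 → ‖fderiv ℝ g x‖ ≤ |B| := by
    intro x hx
    have hxU : x ∈ M.U := hU x (lt_of_le_of_lt hx (by linarith))
    obtain ⟨l, hl⟩ := hR x
    rw [← hgdp l x hxU]
    refine (hB _ ⟨mem_closedBall_zero_iff.2 hl, ?_⟩).trans (le_abs_self B)
    change Metric.infDist (x + vz l) M.N ≤ δ / 2
    rw [infDist_vz]
    exact hx
  refine ⟨|B| + 2 / δ, by positivity, ?_⟩
  intro x hx x' hx'
  have h0 : 0 ≤ ‖x - x'‖ := norm_nonneg _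
  by_cases hd : ‖x - x'‖ < δ / 2
  · have hball : ∀ y ∈ Metric.ball x (δ / 2), Metric.infDist y M.N ≤ δ / 2 := by
      intro y hy
      exact (Metric.infDist_le_dist_of_mem hx).trans (Metric.mem_ball.1 hy).le
    have h1 := (convex_ball x (δ / 2)).norm_image_sub_le_of_norm_fderiv_le (𝕜 := ℝ) (f := g) (C := |B|)
      (fun y hy => (hgs.contDiffAt (M.isOpen.mem_nhds
        (hU y (lt_of_le_of_lt (hball y hy) (by linarith))))).differentiableAt (by simp))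
      (fun y hy => hbd y (hball y hy))
      (Metric.mem_ball.2 (by rw [dist_comm, dist_eq_norm]; exact hd) : x' ∈ Metric.ball x (δ / 2))
      (Metric.mem_ball_self (by positivity))
    have h2 : g x = χ x := by simp only [hg]; rw [r_self M hx]
    have h3 : g x' = χ x' := by simp only [hg]; rw [r_self M hx']
    rw [h2, h3, Real.norm_eq_abs] at h1
    refine h1.trans ?_
    have h4 : 0 ≤ 2 / δ * ‖x - x'‖ := by positivity
    nlinarith
  · push Not at hd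
    obtain ⟨h1, h2⟩ := hχ.mem01 x hx
    obtain ⟨h3, h4⟩ := hχ.mem01 x' hx'
    have h5 : |χ x - χ x'| ≤ 1 := by
      rw [abs_le]
      constructor <;> linarith
    have h6 : 1 ≤ 2 / δ * ‖x - x'‖ := by
      calc (1 : ℝ) = 2 / δ * (δ / 2) := by field_simp
        _ ≤ 2 / δ * ‖x - x'‖ := mul_le_mul_of_nonneg_left hd (by positivity)
    have h7 : 0 ≤ |B| * ‖x - x'‖ := by positivity
    linarith

theorem LL5_Ov {W : Set (Vec d)} {x : Vec d} (h : Ov W x) (l : Fin d → ℤ) : Ov W (x + vz l) := by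
  obtain ⟨l', hl'⟩ := h
  refine ⟨l' - l, ?_⟩
  have h1 : x + vz l + vz (l' - l) = x + vz l' := by
    ext i
    simp [vz]
  rwa [h1]

/-- linear growth of the difference over `W` -/
theorem LL5_growth {M : Sub d} {W : Set (Vec d)} {κ : ℝ → ℝ} (hκ : IsWeight κ)
    {F : Vec d → Vec d → ℝ → ℝ} (hF : IsFinslerOn M W 2 F) {L : Lag d} (hL : IsNearOn M W κ F L) :
    ∃ C : ℝ, 0 ≤ C ∧ ∀ x ∈ M.N, Ov W x → ∀ v t, IsTangent M x v →
      |L (x, v, t) - κ t * F x v t ^ 2 / 2| ≤ C * (1 + ‖v‖) := by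
  by_cases hne : ∃ x0 ∈ M.N, Ov W x0
  · obtain ⟨x0, hx0, hov0⟩ := hne
    obtain ⟨C, hC⟩ := hL.near
    obtain ⟨R, hR⟩ := N0_fund d
    have ht0 : IsTangent M x0 0 := by
      unfold IsTangent
      rw [map_zero]
    have hCn : 0 ≤ |C| := abs_nonneg C
    have hred : ∀ x ∈ M.N, Ov W x → ∀ v, IsTangent M x v → ∀ (l : Fin d → ℤ) (j : ℤ) (t : ℝ),
        L (x + vz l, v, t + j) - κ (t + j) * F (x + vz l) v (t + j) ^ 2 / 2 =
          L (x, v, t) - κ t * F x v t ^ 2 / 2 := by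
      intro x hx hov v hv l j t
      have e1 := hL.periodic l j x hx hov v t hv
      have e2 : κ (t + j) = κ t := by
        have h : Function.Periodic κ 1 := hκ.periodic
        have h' := h.int_mul j t
        rwa [mul_one] at h'
      have e3 : F (x + vz l) v (t + j) = F x v t := by
        rw [hF.periodic l x hx hov v hv]
        have h : Function.Periodic (fun t => F x v t) 1 := fun t => hF.periodic' x hx hov v hv t
        have h' := h.int_mul j t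
        rwa [mul_one] at h'
      rw [e1, e2, e3]
    refine ⟨|L (x0, 0, 0) - κ 0 * F x0 0 0 ^ 2 / 2| + |C| * (|R| + ‖x0‖ + 2), by positivity, ?_⟩
    intro x hx hov v t hv
    obtain ⟨l, hl⟩ := hR x
    have h1 := hC (x + vz l) (M.perN l x hx) (LL5_Ov hov l) v (t + ((-⌊t⌋ : ℤ) : ℝ))
      (Dn.D7_tangent hx hv l) x0 hx0 hov0 0 0 ht0
    rw [hred x hx hov v hv l (-⌊t⌋) t] at h1
    have h2 : |t + ((-⌊t⌋ : ℤ) : ℝ) - 0| ≤ 1 := by
      have h3 : t + ((-⌊t⌋ : ℤ) : ℝ) - 0 = Int.fract t := by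
        rw [Int.fract]
        push_cast
        ring
      rw [h3, abs_of_nonneg (Int.fract_nonneg t)]
      exact (Int.fract_lt_one t).le
    have h4 : ‖x + vz l - x0‖ ≤ |R| + ‖x0‖ :=
      (norm_sub_le _ _).trans (by linarith [le_abs_self R])
    have hv0 : 0 ≤ ‖v‖ := norm_nonneg v
    have h5 : ‖v - 0‖ + (1 + ‖v‖) * (‖x + vz l - x0‖ + |t + ((-⌊t⌋ : ℤ) : ℝ) - 0|) ≤
        (|R| + ‖x0‖ + 2) * (1 + ‖v‖) := by
      rw [sub_zero v]
      have h6 : (1 + ‖v‖) * (‖x + vz l - x0‖ + |t + ((-⌊t⌋ : ℤ) : ℝ) - 0|) ≤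
          (1 + ‖v‖) * (|R| + ‖x0‖ + 1) := mul_le_mul_of_nonneg_left (by linarith) (by linarith)
      nlinarith
    have h7 : 0 ≤ ‖v - 0‖ + (1 + ‖v‖) * (‖x + vz l - x0‖ + |t + ((-⌊t⌋ : ℤ) : ℝ) - 0|) := by positivity
    have h8 : |(L (x, v, t) - κ t * F x v t ^ 2 / 2) - (L (x0, 0, 0) - κ 0 * F x0 0 0 ^ 2 / 2)| ≤
        |C| * ((|R| + ‖x0‖ + 2) * (1 + ‖v‖)) :=
      h1.trans ((mul_le_mul_of_nonneg_right (le_abs_self C) h7).trans (mul_le_mul_of_nonneg_left h5 hCn))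
    have h9 : |L (x, v, t) - κ t * F x v t ^ 2 / 2| ≤
        |(L (x, v, t) - κ t * F x v t ^ 2 / 2) - (L (x0, 0, 0) - κ 0 * F x0 0 0 ^ 2 / 2)| +
          |L (x0, 0, 0) - κ 0 * F x0 0 0 ^ 2 / 2| := by
      have h10 := abs_add_le ((L (x, v, t) - κ t * F x v t ^ 2 / 2) - (L (x0, 0, 0) - κ 0 * F x0 0 0 ^ 2 / 2))
        (L (x0, 0, 0) - κ 0 * F x0 0 0 ^ 2 / 2)
      rwa [sub_add_cancel] at h10
    have h11 : |L (x0, 0, 0) - κ 0 * F x0 0 0 ^ 2 / 2| ≤
        |L (x0, 0, 0) - κ 0 * F x0 0 0 ^ 2 / 2| * (1 + ‖v‖) :=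
      le_mul_of_one_le_right (abs_nonneg _) (by linarith)
    calc |L (x, v, t) - κ t * F x v t ^ 2 / 2|
        ≤ |C| * ((|R| + ‖x0‖ + 2) * (1 + ‖v‖)) +
          |L (x0, 0, 0) - κ 0 * F x0 0 0 ^ 2 / 2| * (1 + ‖v‖) := by linarith
      _ = _ := by ring
  · push Not at hne
    exact ⟨0, le_rfl, fun x hx hov => absurd hov (hne x hx)⟩

theorem gl_near {M : Sub d} {W : Set (Vec d)} (hW : IsOpen W) {χ : Vec d → ℝ} (hχ : Ot.IsCutM M W χ)
    {κ : ℝ → ℝ} (hκ : IsWeight κ) {F : Vec d → Vec d → ℝ → ℝ} (hF : IsFinslerOn M W 2 F) {L : Lag d}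
    (hL : IsNearOn M W κ F L) : IsNearT M κ (gl χ κ F) (glL χ L) := by
  refine ⟨LL5_smooth hW hχ hL, ?_, LL5_convex hW hχ hL, ?_⟩
  · intro l j x hx v t hv
    simp only [glL]
    rw [hχ.periodic l x hx]
    by_cases h0 : χ x = 0
    · rw [h0, zero_mul, zero_mul]
    · rw [hL.periodic l j x hx (LL4_Ov hχ hx h0) v t hv]
  · obtain ⟨Λ, hΛ, hlip⟩ := LL5_lip hχ
    obtain ⟨C1, hC1, hgr⟩ := LL5_growth hκ hF hL
    obtain ⟨C, hC⟩ := hL.near
    refine ⟨Λ * C1 + C1 + |C|, ?_⟩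
    intro x hx v t hv x' hx' v' t' hv'
    rw [LL5_diff hχ hκ hx, LL5_diff hχ hκ hx']
    obtain ⟨ha, hb⟩ := hχ.mem01 x hx
    obtain ⟨ha', hb'⟩ := hχ.mem01 x' hx'
    have hl := hlip x hx x' hx'
    have hnv : 0 ≤ ‖v‖ := norm_nonneg v
    have hnx : 0 ≤ ‖x - x'‖ := norm_nonneg _
    have hnd : 0 ≤ ‖v - v'‖ := norm_nonneg _
    have hnt : 0 ≤ |t - t'| := abs_nonneg _
    have hCn : 0 ≤ |C| := abs_nonneg C
    have hN0 : 0 ≤ ‖v - v'‖ + (1 + ‖v‖) * (‖x - x'‖ + |t - t'|) := by positivity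
    have hNx : ‖x - x'‖ * (1 + ‖v‖) ≤ ‖v - v'‖ + (1 + ‖v‖) * (‖x - x'‖ + |t - t'|) := by
      have h1 : 0 ≤ (1 + ‖v‖) * |t - t'| := by positivity
      nlinarith
    have hNd : ‖v - v'‖ ≤ ‖v - v'‖ + (1 + ‖v‖) * (‖x - x'‖ + |t - t'|) := by
      have h1 : 0 ≤ (1 + ‖v‖) * (‖x - x'‖ + |t - t'|) := by positivity
      linarith
    have hΛN : Λ * ‖x - x'‖ * (C1 * (1 + ‖v‖)) ≤
        Λ * C1 * (‖v - v'‖ + (1 + ‖v‖) * (‖x - x'‖ + |t - t'|)) := by
      calc Λ * ‖x - x'‖ * (C1 * (1 + ‖v‖)) = Λ * C1 * (‖x - x'‖ * (1 + ‖v‖)) := by ring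
        _ ≤ _ := mul_le_mul_of_nonneg_left hNx (by positivity)
    have hC1N : C1 * ‖v - v'‖ ≤ C1 * (‖v - v'‖ + (1 + ‖v‖) * (‖x - x'‖ + |t - t'|)) :=
      mul_le_mul_of_nonneg_left hNd hC1
    have hC1N0 : 0 ≤ C1 * (‖v - v'‖ + (1 + ‖v‖) * (‖x - x'‖ + |t - t'|)) := by positivity
    have hCN0 : 0 ≤ |C| * (‖v - v'‖ + (1 + ‖v‖) * (‖x - x'‖ + |t - t'|)) := by positivity
    have hΛN0 : 0 ≤ Λ * C1 * (‖v - v'‖ + (1 + ‖v‖) * (‖x - x'‖ + |t - t'|)) := by positivity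
    by_cases h0 : χ x = 0
    · by_cases h0' : χ x' = 0
      · rw [h0, h0', zero_mul, zero_mul, sub_zero, abs_zero]
        nlinarith
      · have h1 := hgr x' hx' (LL4_Ov hχ hx' h0') v' t' hv'
        have h2 : χ x' ≤ Λ * ‖x - x'‖ := by
          rw [h0, zero_sub, abs_neg, abs_of_nonneg ha'] at hl
          exact hl
        have h3 : ‖v'‖ ≤ ‖v‖ + ‖v - v'‖ := by
          have h4 := norm_sub_norm_le v' v
          rw [norm_sub_rev] at h4
          linarith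
        rw [h0, zero_mul, zero_sub, abs_neg, abs_mul, abs_of_nonneg ha']
        calc χ x' * |L (x', v', t') - κ t' * F x' v' t' ^ 2 / 2|
            ≤ χ x' * (C1 * (1 + ‖v'‖)) := mul_le_mul_of_nonneg_left h1 ha'
          _ ≤ χ x' * (C1 * (1 + ‖v‖ + ‖v - v'‖)) :=
              mul_le_mul_of_nonneg_left (mul_le_mul_of_nonneg_left (by linarith) hC1) ha'
          _ = χ x' * (C1 * (1 + ‖v‖)) + χ x' * (C1 * ‖v - v'‖) := by ring
          _ ≤ Λ * ‖x - x'‖ * (C1 * (1 + ‖v‖)) + 1 * (C1 * ‖v - v'‖) :=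
              add_le_add (mul_le_mul_of_nonneg_right h2 (by positivity))
                (mul_le_mul_of_nonneg_right hb' (by positivity))
          _ ≤ _ := by
              rw [one_mul]
              linarith
    · have hov := LL4_Ov hχ hx h0
      have h1 := hgr x hx hov v t hv
      by_cases h0' : χ x' = 0
      · have h2 : χ x ≤ Λ * ‖x - x'‖ := by
          rw [h0', sub_zero, abs_of_nonneg ha] at hl
          exact hl
        rw [h0', zero_mul, sub_zero, abs_mul, abs_of_nonneg ha]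
        calc χ x * |L (x, v, t) - κ t * F x v t ^ 2 / 2| ≤ χ x * (C1 * (1 + ‖v‖)) :=
              mul_le_mul_of_nonneg_left h1 ha
          _ ≤ Λ * ‖x - x'‖ * (C1 * (1 + ‖v‖)) := mul_le_mul_of_nonneg_right h2 (by positivity)
          _ ≤ _ := by linarith
      · have hov' := LL4_Ov hχ hx' h0'
        have h2 := hC x hx hov v t hv x' hx' hov' v' t' hv'
        have h3 : χ x * (L (x, v, t) - κ t * F x v t ^ 2 / 2) -
            χ x' * (L (x', v', t') - κ t' * F x' v' t' ^ 2 / 2) =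
            (χ x - χ x') * (L (x, v, t) - κ t * F x v t ^ 2 / 2) +
            χ x' * ((L (x, v, t) - κ t * F x v t ^ 2 / 2) - (L (x', v', t') - κ t' * F x' v' t' ^ 2 / 2)) := by
          ring
        rw [h3]
        refine (abs_add_le _ _).trans ?_
        rw [abs_mul, abs_mul, abs_of_nonneg ha']
        have h4 : |χ x - χ x'| * |L (x, v, t) - κ t * F x v t ^ 2 / 2| ≤
            Λ * ‖x - x'‖ * (C1 * (1 + ‖v‖)) :=
          mul_le_mul hl h1 (abs_nonneg _) (by positivity)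
        have h5 : χ x' * |(L (x, v, t) - κ t * F x v t ^ 2 / 2) -
            (L (x', v', t') - κ t' * F x' v' t' ^ 2 / 2)| ≤
            1 * (|C| * (‖v - v'‖ + (1 + ‖v‖) * (‖x - x'‖ + |t - t'|))) :=
          mul_le_mul hb' (h2.trans (mul_le_mul_of_nonneg_right (le_abs_self C) hN0))
            (abs_nonneg _) zero_le_one
        rw [one_mul] at h5
        linarith

end EscW.Lo
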