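import Pool.Agent.EscW.LLDefs
import Pool.Agent.EscW.FN13

set_option autoImplicit false

/-!
Project EscW, part LL, module LL6: products with a conformal factor, over `W`.
As `conf_fins`, `conf_near` (FN13; read it), over `W`. `w` is bounded and Lipschitz on `M.N × ℝ` (see FN13). `near`: `w² L - κ (w F)²/2 = w² R`, `|w² R - w'² R'| ≤ |w² - w'²| |R| + w'² |R - R'|`, `|R (x, v, t)| ≤ C (1 + ‖v‖)` over `W`: by `near` from a fixed point `x'` over `W`, `v' = 0`, using the periods of `L`.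
-/

noncomputable section

namespace EscW.Lo

open Filter Topology Set EscF.T EscM EscMT MeasureTheory
open scoped ContDiff

variable {d m k j n : ℕ}

theorem LL6_smooth {M : Sub d} {W0 : Set (Vec d)} {ε : ℝ} {w : Vec d → ℝ → ℝ} (hw : Fn.IsConfT M W0 ε w)
    (r : ℕ∞) : ContDiffOn ℝ r (fun z : Vec d × ℝ => w (M.r z.1) z.2) {z | z.1 ∈ M.U} := by
  have h4 : ((r : ℕ∞) : WithTop ℕ∞) ≤ ((⊤ : ℕ∞) : WithTop ℕ∞) := WithTop.coe_le_coe.2 le_top
  exact hw.smooth.of_le h4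

theorem conf_fins_on {M : Sub d} {W W0 : Set (Vec d)} {ε : ℝ} {w : Vec d → ℝ → ℝ} (hw : Fn.IsConfT M W0 ε w)
    {r : ℕ∞} {F : Vec d → Vec d → ℝ → ℝ} (hF : IsFinslerOn M W r F) :
    IsFinslerOn M W r (fun x v t => w x t * F x v t) := by
  refine ⟨?_, ?_, ?_, ?_, ?_⟩
  · have h2 : ContDiff ℝ r (fun z : (Vec d × Vec d) × ℝ => (z.1.1, z.2)) :=
      (contDiff_fst.comp contDiff_fst).prodMk contDiff_snd
    have h1 : ContDiffOn ℝ r (fun z : (Vec d × Vec d) × ℝ => w (M.r z.1.1) z.2)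
        {z | z.1 ∈ On.TD M ∧ Ov W (M.r z.1.1)} :=
      (LL6_smooth hw r).comp h2.contDiffOn fun z hz => hz.1.1
    exact h1.mul hF.smooth
  · intro l x hx hxW v hv t
    beta_reduce
    rw [hw.periodic l x hx t, hF.periodic l x hx hxW v hv t]
  · intro x hx hxW v hv t
    beta_reduce
    rw [hw.periodic' x hx t, hF.periodic' x hx hxW v hv t]
  · intro x hx hxW v hv t a ha
    beta_reduce
    rw [hF.hom x hx hxW v hv t a ha]
    ring
  · intro x hx hxW v hv t hv0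
    exact mul_pos (hw.pos x hx t) (hF.pos x hx hxW v hv t hv0)

/-- the Lagrangian is smooth in the velocity, over `W` -/
theorem LL6_smoothV {M : Sub d} {W : Set (Vec d)} {κ : ℝ → ℝ} {F : Vec d → Vec d → ℝ → ℝ} {L : Lag d}
    (hL : IsNearOn M W κ F L) {x : Vec d} (hx : x ∈ M.N) (hxW : Ov W x) (t : ℝ) :
    ContDiff ℝ 2 (fun w => L (x, fderiv ℝ M.r x w, t)) := by
  have h1 : ContDiff ℝ 2 (fun w : Vec d => ((x, w, t) : Vec d × Vec d × ℝ)) :=
    contDiff_const.prodMk (contDiff_id.prodMk contDiff_const)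
  have h2 := hL.smooth.comp_contDiff h1 (fun w => ⟨M.sub hx, by
    show Ov W (M.r x)
    rwa [r_self M hx]⟩)
  have h3 : (fun q : Vec d × Vec d × ℝ => L (M.r q.1, fderiv ℝ M.r q.1 q.2.1, q.2.2)) ∘
      (fun w : Vec d => ((x, w, t) : Vec d × Vec d × ℝ)) =
      fun w => L (x, fderiv ℝ M.r x w, t) := by
    funext w
    show L (M.r x, fderiv ℝ M.r x w, t) = L (x, fderiv ℝ M.r x w, t)
    rw [r_self M hx]
  rwa [h3] at h2

theorem LL6_ov {W : Set (Vec d)} {x : Vec d} (h : Ov W x) (n : Fin d → ℤ) : Ov W (x + vz n) := by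
  obtain ⟨l, hl⟩ := h
  refine ⟨l + -n, ?_⟩
  have h1 : x + vz n + vz (l + -n) = x + vz l := by
    rw [vz_add', vz_neg']
    abel
  rw [h1]
  exact hl

theorem LL6_tangent {M : Sub d} {x v : Vec d} (hx : x ∈ M.N) (hv : IsTangent M x v) (l : Fin d → ℤ) :
    IsTangent M (x + vz l) v := by
  unfold IsTangent at hv ⊢
  have h1 : fderiv ℝ (fun y => M.r (y + vz l)) x = fderiv ℝ M.r (x + vz l) := fderiv_comp_add_right _
  have h2 : (fun y => M.r (y + vz l)) =ᶠ[𝓝 x] fun y => M.r y + vz l := by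
    filter_upwards [M.isOpen.mem_nhds (M.sub hx)] with y hy
    exact r_vz M l hy
  rw [← h1, h2.fderiv_eq, fderiv_add_const]
  exact hv

/-- bound of `L - κ F²/2` over `W` -/
theorem LL6_bound {M : Sub d} {W : Set (Vec d)} {r : WithTop ℕ∞} {F : Vec d → Vec d → ℝ → ℝ}
    (hF : IsFinslerOn M W r F) {κ : ℝ → ℝ} (hκ : IsWeight κ) {L : Lag d} (hL : IsNearOn M W κ F L) :
    ∃ C : ℝ, 0 ≤ C ∧ ∀ x ∈ M.N, Ov W x → ∀ v t, IsTangent M x v →
      |L (x, v, t) - κ t * F x v t ^ 2 / 2| ≤ C * (1 + ‖v‖) := by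
  by_cases hne : ∃ x ∈ M.N, Ov W x
  swap
  · exact ⟨0, le_rfl, fun x hx hxW => absurd ⟨x, hx, hxW⟩ hne⟩
  obtain ⟨x0, hx0, hx0W⟩ := hne
  obtain ⟨C, hC⟩ := hL.near
  obtain ⟨C1, hC1⟩ := N0_fund d
  have ht0 : ∀ x : Vec d, IsTangent M x 0 := fun x => by
    show fderiv ℝ M.r x 0 = 0
    rw [map_zero]
  set A : ℝ := |L (x0, 0, 0) - κ 0 * F x0 0 0 ^ 2 / 2| with hA
  have hA0 : 0 ≤ A := abs_nonneg _
  refine ⟨A + |C| * (|C1| + 2), by positivity, fun x hx hxW v t hv => ?_⟩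
  obtain ⟨n, hn⟩ := hC1 (x - x0)
  obtain ⟨l, hl⟩ : ∃ l : ℤ, |t + l| ≤ 1 := by
    refine ⟨-⌊t⌋, ?_⟩
    have h1 := Int.fract_nonneg t
    have h2 := (Int.fract_lt_one t).le
    have h3 : t + ((-⌊t⌋ : ℤ) : ℝ) = Int.fract t := by
      rw [Int.cast_neg, ← sub_eq_add_neg]
      rfl
    rw [h3, abs_of_nonneg h1]
    exact h2
  have hxn : x + vz n ∈ M.N := M.perN n x hx
  have hxnW : Ov W (x + vz n) := LL6_ov hxW n
  have hvn : IsTangent M (x + vz n) v := LL6_tangent hx hv n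
  have hFl : ∀ s : ℝ, F x v (s + l) = F x v s := by
    have hp : Function.Periodic (fun t => F x v t) 1 := fun t => hF.periodic' x hx hxW v hv t
    intro s
    have h2 := (hp.int_mul l) s
    rwa [mul_one] at h2
  have hκl : κ (t + l) = κ t := by
    have hp : Function.Periodic κ 1 := fun t => hκ.periodic t
    have h2 := (hp.int_mul l) t
    rwa [mul_one] at h2
  have e1 : L (x + vz n, v, t + l) - κ (t + l) * F (x + vz n) v (t + l) ^ 2 / 2 =
      L (x, v, t) - κ t * F x v t ^ 2 / 2 := by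
    rw [hL.periodic n l x hx hxW v t hv, hκl, hF.periodic n x hx hxW v hv, hFl]
  have h1 := hC (x + vz n) hxn hxnW v (t + l) hvn x0 hx0 hx0W 0 0 (ht0 x0)
  rw [e1, sub_zero, sub_zero] at h1
  have h2 : ‖x + vz n - x0‖ ≤ |C1| := by
    have e2 : x + vz n - x0 = x - x0 + vz n := by abel
    rw [e2]
    exact hn.trans (le_abs_self _)
  have h3 : |L (x, v, t) - κ t * F x v t ^ 2 / 2| ≤
      |L (x, v, t) - κ t * F x v t ^ 2 / 2 - (L (x0, 0, 0) - κ 0 * F x0 0 0 ^ 2 / 2)| + A := by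
    have := abs_add_le (L (x, v, t) - κ t * F x v t ^ 2 / 2 - (L (x0, 0, 0) - κ 0 * F x0 0 0 ^ 2 / 2))
      (L (x0, 0, 0) - κ 0 * F x0 0 0 ^ 2 / 2)
    rwa [sub_add_cancel] at this
  have hv0 := norm_nonneg v
  have h4 : ‖v‖ + (1 + ‖v‖) * (‖x + vz n - x0‖ + |t + ↑l|) ≤ (|C1| + 2) * (1 + ‖v‖) := by
    have h5 : (1 + ‖v‖) * (‖x + vz n - x0‖ + |t + ↑l|) ≤ (1 + ‖v‖) * (|C1| + 1) :=
      mul_le_mul_of_nonneg_left (add_le_add h2 hl) (by positivity)
    nlinarith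
  have h5 : (0 : ℝ) ≤ ‖v‖ + (1 + ‖v‖) * (‖x + vz n - x0‖ + |t + ↑l|) := by positivity
  have h6 : C * (‖v‖ + (1 + ‖v‖) * (‖x + vz n - x0‖ + |t + ↑l|)) ≤ |C| * ((|C1| + 2) * (1 + ‖v‖)) :=
    (mul_le_mul_of_nonneg_right (le_abs_self C) h5).trans (mul_le_mul_of_nonneg_left h4 (abs_nonneg C))
  have h7 : A ≤ A * (1 + ‖v‖) := by nlinarith
  calc |L (x, v, t) - κ t * F x v t ^ 2 / 2| ≤
      |L (x, v, t) - κ t * F x v t ^ 2 / 2 - (L (x0, 0, 0) - κ 0 * F x0 0 0 ^ 2 / 2)| + A := h3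
    _ ≤ |C| * ((|C1| + 2) * (1 + ‖v‖)) + A * (1 + ‖v‖) := add_le_add (h1.trans h6) h7
    _ = (A + |C| * (|C1| + 2)) * (1 + ‖v‖) := by ring

theorem conf_near_on {M : Sub d} {W W0 : Set (Vec d)} {ε : ℝ} {w : Vec d → ℝ → ℝ} (hw : Fn.IsConfT M W0 ε w)
    {F : Vec d → Vec d → ℝ → ℝ} (hF : IsFinslerOn M W 2 F) {κ : ℝ → ℝ} (hκ : IsWeight κ) {L : Lag d}
    (hL : IsNearOn M W κ F L) :
    IsNearOn M W κ (fun x v t => w x t * F x v t) (fun q => w q.1 q.2.2 ^ 2 * L q) := by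
  obtain ⟨C, hC0, hC, hCl⟩ := Fn.FN13_bd hw
  obtain ⟨c0, hc0, hlow⟩ := Fn.FN13_low hw
  obtain ⟨C3, hC30, hR⟩ := LL6_bound hF hκ hL
  refine ⟨?_, ?_, ?_, ?_⟩
  · have h1 : ContDiffOn ℝ 2 (fun q : Vec d × Vec d × ℝ => w (M.r q.1) q.2.2)
        {q | q.1 ∈ M.U ∧ Ov W (M.r q.1)} := by
      have h2 : ContDiff ℝ 2 (fun q : Vec d × Vec d × ℝ => (q.1, q.2.2)) :=
        contDiff_fst.prodMk (contDiff_snd.comp contDiff_snd)
      exact (LL6_smooth hw 2).comp h2.contDiffOn fun q hq => hq.1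
    exact (h1.pow 2).mul hL.smooth
  · intro n l x hx hxW v t hv
    beta_reduce
    rw [hL.periodic n l x hx hxW v t hv]
    show w (x + vz n) (t + l) ^ 2 * L (x, v, t) = w x t ^ 2 * L (x, v, t)
    rw [hw.periodic n x hx, Fn.FN13_int hw hx]
  · obtain ⟨c, hc, hcv⟩ := hL.convex
    refine ⟨c0 ^ 2 * c, by positivity, fun x hx hxW v u t hv hu => ?_⟩
    have hsm := LL6_smoothV hL hx hxW t
    have e1 : (fun u' => (fun q : Vec d × Vec d × ℝ => w q.1 q.2.2 ^ 2 * L q) (x, fderiv ℝ M.r x u', t)) =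
        (w x t ^ 2) • (fun u' => L (x, fderiv ℝ M.r x u', t)) := by
      funext u'
      rfl
    rw [e1, iteratedFDeriv_const_smul_apply hsm.contDiffAt]
    have h1 := hcv x hx hxW v u t hv hu
    have h2 := hlow x hx t
    have h3 : c0 ^ 2 ≤ w x t ^ 2 := pow_le_pow_left₀ hc0.le h2 2
    show c0 ^ 2 * c * ‖u‖ ^ 2 ≤ w x t ^ 2 *
      iteratedFDeriv ℝ 2 (fun u' => L (x, fderiv ℝ M.r x u', t)) v ![u, u]
    calc c0 ^ 2 * c * ‖u‖ ^ 2 = c0 ^ 2 * (c * ‖u‖ ^ 2) := by ring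
      _ ≤ w x t ^ 2 * iteratedFDeriv ℝ 2 (fun u' => L (x, fderiv ℝ M.r x u', t)) v ![u, u] :=
        mul_le_mul h3 h1 (by positivity) (by positivity)
  · obtain ⟨C2, hC2⟩ := hL.near
    refine ⟨C * (2 * C) * C3 + C ^ 2 * |C2|, fun x hx hxW v t hv x' hx' hxW' v' t' hv' => ?_⟩
    set R1 : ℝ := L (x, v, t) - κ t * F x v t ^ 2 / 2 with hR1
    set R2 : ℝ := L (x', v', t') - κ t' * F x' v' t' ^ 2 / 2 with hR2
    set D : ℝ := ‖x - x'‖ + |t - t'| with hD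
    have hD0 : 0 ≤ D := by positivity
    have h1 : |R1| ≤ C3 * (1 + ‖v‖) := hR x hx hxW v t hv
    have h2 : |R1 - R2| ≤ |C2| * (‖v - v'‖ + (1 + ‖v‖) * D) := by
      refine (hC2 x hx hxW v t hv x' hx' hxW' v' t' hv').trans ?_
      exact mul_le_mul_of_nonneg_right (le_abs_self _) (by positivity)
    have h3 : |w x t - w x' t'| ≤ C * D := hCl x hx t x' hx' t'
    have h4 : |w x t + w x' t'| ≤ 2 * C := by
      have := abs_add_le (w x t) (w x' t')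
      have := hC x hx t
      have := hC x' hx' t'
      linarith
    have h5 : w x' t' ^ 2 ≤ C ^ 2 := by
      have := hC x' hx' t'
      rw [← sq_abs (w x' t')]
      exact pow_le_pow_left₀ (abs_nonneg _) this 2
    have e1 : ((fun q : Vec d × Vec d × ℝ => w q.1 q.2.2 ^ 2 * L q) (x, v, t) -
        κ t * ((fun x v t => w x t * F x v t) x v t) ^ 2 / 2) -
        ((fun q : Vec d × Vec d × ℝ => w q.1 q.2.2 ^ 2 * L q) (x', v', t') -
        κ t' * ((fun x v t => w x t * F x v t) x' v' t') ^ 2 / 2) =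
        ((w x t - w x' t') * (w x t + w x' t')) * R1 + w x' t' ^ 2 * (R1 - R2) := by
      rw [hR1, hR2]
      ring
    rw [e1]
    calc |((w x t - w x' t') * (w x t + w x' t')) * R1 + w x' t' ^ 2 * (R1 - R2)| ≤
        |((w x t - w x' t') * (w x t + w x' t')) * R1| + |w x' t' ^ 2 * (R1 - R2)| := abs_add_le _ _
      _ = |w x t - w x' t'| * |w x t + w x' t'| * |R1| + w x' t' ^ 2 * |R1 - R2| := by
          rw [abs_mul, abs_mul, abs_mul, abs_of_nonneg (sq_nonneg (w x' t'))]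
      _ ≤ (C * D) * (2 * C) * (C3 * (1 + ‖v‖)) +
          C ^ 2 * (|C2| * (‖v - v'‖ + (1 + ‖v‖) * D)) := by
          refine add_le_add (mul_le_mul (mul_le_mul h3 h4 (abs_nonneg _) (by positivity)) h1
            (abs_nonneg _) (by positivity)) (mul_le_mul h5 h2 (abs_nonneg _) (by positivity))
      _ ≤ (C * (2 * C) * C3 + C ^ 2 * |C2|) * (‖v - v'‖ + (1 + ‖v‖) * D) := by
          have k1 : (1 + ‖v‖) * D ≤ ‖v - v'‖ + (1 + ‖v‖) * D := by linarith [norm_nonneg (v - v')]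
          have k2 : C * (2 * C) * C3 * ((1 + ‖v‖) * D) ≤
              C * (2 * C) * C3 * (‖v - v'‖ + (1 + ‖v‖) * D) :=
            mul_le_mul_of_nonneg_left k1 (by positivity)
          calc (C * D) * (2 * C) * (C3 * (1 + ‖v‖)) +
                C ^ 2 * (|C2| * (‖v - v'‖ + (1 + ‖v‖) * D)) =
                C * (2 * C) * C3 * ((1 + ‖v‖) * D) +
                  C ^ 2 * |C2| * (‖v - v'‖ + (1 + ‖v‖) * D) := by ring
            _ ≤ C * (2 * C) * C3 * (‖v - v'‖ + (1 + ‖v‖) * D) +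
                  C ^ 2 * |C2| * (‖v - v'‖ + (1 + ‖v‖) * D) := add_le_add k2 le_rfl
            _ = (C * (2 * C) * C3 + C ^ 2 * |C2|) * (‖v - v'‖ + (1 + ‖v‖) * D) := by ring

end EscW.Lo
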