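import Pool.Agent.EscW.LL0
import Pool.Agent.EscW.LL1
import Pool.Agent.EscW.LL2
import Pool.Agent.EscW.LL3
import Pool.Agent.EscW.LL4
import Pool.Agent.EscW.LL5
import Pool.Agent.EscW.LL6
import Pool.Agent.EscW.FO24

set_option autoImplicit false

/-!
Project EscW, part LL, module LL7: final theorem.
`exists_cut`: `W1`, `χ`. `F1 = gl χ 1 F` (`κ = 1`): `IsSmoothFinslerT M W1 F1` (`gl_fins`, `gl_eq`: over `W1`, `F1 = F`). `open_all` (FO24) with `W1`, `F1`: `w`, `R`, `δ`; `IsConfT M W1 ε w` gives `IsConfT M W ε w`. For `F'`, `L`: `F1' = gl χ κ F'`, `L1 = glL χ L`: `gl_fins`, `gl_near`, `Close2F M W1 R δ (w F1) F1'` (over `W1`, `F1 = F`, `F1' = F'`; `W1` is open, so the functions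
`ext` agree near the points), so `InClassIn M W1 L1`, `result_in`, `escapesIn_congr` (over `W1`, `L1 + f = L + f`), `escapesIn_mono`. Last part: `F' = w F`, `conf_fins_on`, `conf_near_on`; the difference is zero.
-/

noncomputable section

namespace EscW.Lo

open Filter Topology Set EscF.T EscM EscMT MeasureTheory
open scoped ContDiff

variable {d m k j n : ℕ}

theorem LL7_two : (2 : WithTop ℕ∞) ≤ ∞ := by
  have h : (2 : ℕ∞) ≤ ⊤ := le_top
  exact WithTop.coe_le_coe.2 h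

theorem LL7_r {M : Sub d} {x : Vec d} (hx : x ∈ M.N) : M.r x = x := by
  by_contra h
  have h1 := M.nearest x (M.sub hx) x hx (fun h' => h h'.symm)
  rw [dist_self] at h1
  exact absurd h1 (not_lt.2 dist_nonneg)

theorem LL7_tan {M : Sub d} {x : Vec d} (hx : x ∈ M.U) (v : Vec d) :
    IsTangent M (M.r x) (fderiv ℝ M.r x v) := by
  have hd : ∀ y ∈ M.U, HasFDerivAt M.r (fderiv ℝ M.r y) y := fun y hy =>
    ((M.smooth.contDiffAt (M.isOpen.mem_nhds hy)).differentiableAt (by simp)).hasFDerivAt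
  have h1 : HasFDerivAt (fun y => M.r (M.r y))
      ((fderiv ℝ M.r (M.r x)).comp (fderiv ℝ M.r x)) x :=
    (hd (M.r x) (M.sub (M.mem x hx))).comp x (hd x hx)
  have h2 : (fun y => M.r (M.r y)) =ᶠ[𝓝 x] M.r := by
    filter_upwards [M.isOpen.mem_nhds hx] with y hy
    exact LL7_r (M.mem y hy)
  have h3 := (h1.congr_of_eventuallyEq h2.symm).unique (hd x hx)
  exact congrArg (fun A : Vec d →L[ℝ] Vec d => A v) h3

theorem LL7_cont (M : Sub d) :
    ContinuousOn (fun z : Vec d × Vec d => fderiv ℝ M.r z.1 z.2) {z | z.1 ∈ M.U} := by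
  have h1 : ContinuousOn (fderiv ℝ M.r) M.U :=
    M.smooth.continuousOn_fderiv_of_isOpen M.isOpen (by simp)
  exact (h1.comp continuousOn_fst (fun z hz => hz)).clm_apply continuousOn_snd

theorem LL7_open {M : Sub d} {W : Set (Vec d)} (hW : IsOpen W) {x v : Vec d} (hx : x ∈ M.N)
    (hxW : Ov W x) (hv : IsTangent M x v) (h0 : v ≠ 0) :
    ∀ᶠ z : Vec d × Vec d in 𝓝 (x, v), z ∈ On.TD M ∧ Ov W (M.r z.1) := by
  have hU : {z : Vec d × Vec d | z.1 ∈ M.U} ∈ 𝓝 (x, v) :=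
    (M.isOpen.preimage continuous_fst).mem_nhds (M.sub hx)
  have h1 : ContinuousAt (fun z : Vec d × Vec d => fderiv ℝ M.r z.1 z.2) (x, v) :=
    (LL7_cont M).continuousAt hU
  have h2 : ∀ᶠ z : Vec d × Vec d in 𝓝 (x, v), fderiv ℝ M.r z.1 z.2 ≠ 0 := by
    refine h1.eventually_ne ?_
    have : fderiv ℝ M.r x v = v := hv
    simpa [this] using h0
  obtain ⟨l, hl⟩ := hxW
  have h3 : ContinuousAt (fun z : Vec d × Vec d => M.r z.1 + vz l) (x, v) := by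
    have h4 : ContinuousAt M.r x :=
      (M.smooth.contDiffAt (M.isOpen.mem_nhds (M.sub hx))).continuousAt
    exact (h4.comp_of_eq continuousAt_fst rfl).add continuousAt_const
  have h5 : ∀ᶠ z : Vec d × Vec d in 𝓝 (x, v), M.r z.1 + vz l ∈ W := by
    refine h3.eventually_mem (hW.mem_nhds ?_)
    simpa [LL7_r hx] using hl
  filter_upwards [hU, h2, h5] with z h6 h7 h8
  exact ⟨⟨h6, h7⟩, l, h8⟩

theorem LL7_mono {W W' : Set (Vec d)} (h : W ⊆ W') {x : Vec d} (hx : Ov W x) : Ov W' x := by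
  obtain ⟨l, hl⟩ := hx
  exact ⟨l, h hl⟩

theorem LL7_one : IsWeight (fun _ : ℝ => (1 : ℝ)) :=
  ⟨fun _ => one_pos, fun _ => rfl, 0, fun _ _ => by simp⟩

theorem LL7_of_le {M : Sub d} {W : Set (Vec d)} {F : Vec d → Vec d → ℝ → ℝ}
    (hF : IsFinslerOn M W ∞ F) : IsFinslerOn M W 2 F :=
  ⟨hF.smooth.of_le LL7_two, hF.periodic, hF.periodic', hF.hom, hF.pos⟩

/-- the glued metric at the points over `W1` -/
theorem LL7_ext {M : Sub d} {W W1 : Set (Vec d)} (h1 : W1 ⊆ W) {χ : Vec d → ℝ}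
    (hχ1 : ∀ x ∈ M.N, Ov W1 x → χ x = 1) (κ : ℝ → ℝ) {r : WithTop ℕ∞} {F : Vec d → Vec d → ℝ → ℝ}
    (hF : IsFinslerOn M W r F) {z : Vec d × Vec d} (hz : z.1 ∈ M.U) (hzW : Ov W1 (M.r z.1)) (t : ℝ) :
    gl χ κ F (M.r z.1) (fderiv ℝ M.r z.1 z.2) t = F (M.r z.1) (fderiv ℝ M.r z.1 z.2) t :=
  gl_eq κ hF (M.mem _ hz) (LL7_mono h1 hzW) (LL7_tan hz _) (hχ1 _ (M.mem _ hz) hzW) t

theorem LL7_smooth {M : Sub d} {W W1 : Set (Vec d)} (h1 : W1 ⊆ W) {χ : Vec d → ℝ}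
    (hχ1 : ∀ x ∈ M.N, Ov W1 x → χ x = 1) (κ : ℝ → ℝ) {r : WithTop ℕ∞} {F : Vec d → Vec d → ℝ → ℝ}
    (hF : IsFinslerOn M W r F) :
    ContDiffOn ℝ r (fun z : (Vec d × Vec d) × ℝ => On.ext M (fun x v => gl χ κ F x v z.2) z.1)
      {z | z.1 ∈ On.TD M ∧ ∃ l : Fin d → ℤ, M.r z.1.1 + vz l ∈ W1} := by
  refine (hF.smooth.mono fun z hz => ⟨hz.1, LL7_mono h1 hz.2⟩).congr fun z hz => ?_
  exact LL7_ext h1 hχ1 κ hF hz.1.1 hz.2 z.2

theorem LL7_conf {M : Sub d} {W W1 : Set (Vec d)} (h1 : W1 ⊆ W) {ε : ℝ} {w : Vec d → ℝ → ℝ}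
    (hw : Fn.IsConfT M W1 ε w) : Fn.IsConfT M W ε w :=
  ⟨hw.smooth, hw.periodic, hw.periodic', hw.near, hw.pos,
    fun x hx h t => hw.off x hx (fun l hl => h l (h1 hl)) t⟩

theorem LL7_close {M : Sub d} {W W1 : Set (Vec d)} (hW1 : IsOpen W1) (h1 : W1 ⊆ W) {χ : Vec d → ℝ}
    (hχ1 : ∀ x ∈ M.N, Ov W1 x → χ x = 1) (κ κ' : ℝ → ℝ) {r r' : WithTop ℕ∞}
    {F F' : Vec d → Vec d → ℝ → ℝ} (hF : IsFinslerOn M W r F) (hF' : IsFinslerOn M W r' F')
    {w : Vec d → ℝ → ℝ} {R δ : ℝ} (hR : 0 < R)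
    (hc : Fo.Close2F M W R δ (fun x v t => w x t * F x v t) F') :
    Fo.Close2F M W1 R δ (fun x v t => w x t * gl χ κ F x v t) (gl χ κ' F') := by
  refine ⟨?_, fun t x hx hxW v hv hv1 hv2 i hi => ?_⟩
  · refine (hc.smooth.mono fun z hz => ⟨hz.1, LL7_mono h1 hz.2⟩).congr fun z hz => ?_
    exact LL7_ext h1 hχ1 κ' hF' hz.1.1 hz.2 z.2
  · have h0 : v ≠ 0 := by
      rintro rfl
      rw [norm_zero] at hv1
      have : 0 < 1 / R := by positivity
      linarith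
    have h2 := hc.close t x hx (LL7_mono h1 hxW) v hv hv1 hv2 i hi
    have h3 : (fun z => On.ext M (fun x v => gl χ κ' F' x v t) z -
        On.ext M (fun x v => w x t * gl χ κ F x v t) z) =ᶠ[𝓝 (x, v)]
        (fun z => On.ext M (fun x v => F' x v t) z - On.ext M (fun x v => w x t * F x v t) z) := by
      filter_upwards [LL7_open hW1 hx hxW hv h0] with z hz
      have e1 := LL7_ext h1 hχ1 κ' hF' hz.1.1 hz.2 t
      have e2 := LL7_ext h1 hχ1 κ hF hz.1.1 hz.2 t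
      unfold On.ext
      simp only
      rw [e1, e2]
    rw [(h3.iteratedFDeriv ℝ i).eq_of_nhds]
    exact h2

theorem open_in {M : Sub d} {y0 u v : Vec d} (hy : y0 ∈ M.N) (hu : IsTangent M y0 u)
    (hv : IsTangent M y0 v) (huv : LinearIndependent ℝ ![u, v])
    {W : Set (Vec d)} (hW : IsOpen W) (hy0 : y0 ∈ W) {F : Vec d → Vec d → ℝ → ℝ}
    (hF : IsFinslerOn M W ∞ F) (hFc : IsConvexOn M W F) {ε : ℝ} (hε : 0 < ε) :
    ∃ w : Vec d → ℝ → ℝ, Fn.IsConfT M W ε w ∧ ∃ R δ : ℝ, 0 < R ∧ 0 < δ ∧ ∀ κ : ℝ → ℝ, IsWeight κ →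
      (∀ F' : Vec d → Vec d → ℝ → ℝ, IsFinslerOn M W 2 F' →
        Fo.Close2F M W R δ (fun x v t => w x t * F x v t) F' → ∀ L : Lag d, IsNearOn M W κ F' L →
          ∀ k : ℕ∞, 2 ≤ k → {f : Pot M k | EscapesIn M W (fun q => L q + f.toFun (q.1, q.2.2))} ∈
            residual (Pot M k)) ∧
      ∀ L : Lag d, IsNearOn M W κ F L → ∀ k : ℕ∞, 2 ≤ k →
        {f : Pot M k | EscapesIn M W (fun q => w q.1 q.2.2 ^ 2 * L q + f.toFun (q.1, q.2.2))} ∈
          residual (Pot M k) := by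
  obtain ⟨W1, χ, hW1, hy1, hsub, hχ, hχ1⟩ := exists_cut hy hW hy0
  have hF2 := LL7_of_le hF
  have hS : Fn.IsSmoothFinslerT M W1 (gl χ (fun _ => 1) F) := by
    refine ⟨gl_fins hW hχ LL7_one hF2, LL7_smooth hsub hχ1 _ hF,
      fun x hx hxW v w t hv hw hv0 hw0 => ?_⟩
    have e : (fun u => gl χ (fun _ => 1) F x (fderiv ℝ M.r x u) t ^ 2) =
        fun u => F x (fderiv ℝ M.r x u) t ^ 2 := by
      funext u
      have h2 := LL7_ext hsub hχ1 (fun _ => 1) hF (z := (x, u)) (M.sub hx)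
        (by rw [LL7_r hx]; exact hxW) t
      simp only [LL7_r hx] at h2
      rw [h2]
    rw [e]
    exact hFc x hx (LL7_mono hsub hxW) v w t hv hw hv0 hw0
  obtain ⟨w, hw, R, δ, hR, hδ, hop⟩ := Fo.open_all hy hu hv huv hW1 hy1 hS hε
  have hw' := LL7_conf hsub hw
  have main : ∀ κ : ℝ → ℝ, IsWeight κ → ∀ F' : Vec d → Vec d → ℝ → ℝ, IsFinslerOn M W 2 F' →
      Fo.Close2F M W R δ (fun x v t => w x t * F x v t) F' → ∀ L : Lag d, IsNearOn M W κ F' L →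
        ∀ k : ℕ∞, 2 ≤ k → {f : Pot M k | EscapesIn M W (fun q => L q + f.toFun (q.1, q.2.2))} ∈
          residual (Pot M k) := by
    intro κ hκ F' hF' hcl L hL k hk
    have h1 := hop (gl χ κ F') (gl_fins hW hχ hκ hF')
      (LL7_close hW1 hsub hχ1 (fun _ => 1) κ hF hF' hR hcl) κ hκ (glL χ L)
      (gl_near hW hχ hκ hF' hL)
    refine Filter.mem_of_superset (result_in hk h1) fun f hf => ?_
    refine escapesIn_mono hsub (escapesIn_congr hW1 (fun x hx hxW v t hv => ?_) hf)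
    simp only [glL]
    rw [hχ1 x hx hxW]
    ring
  refine ⟨w, hw', R, δ, hR, hδ, fun κ hκ => ⟨main κ hκ, fun L hL k hk => ?_⟩⟩
  have h1 : IsFinslerOn M W 2 (fun x v t => w x t * F x v t) :=
    conf_fins_on (r := 2) hw' hF2
  refine main κ hκ _ h1 ⟨h1.smooth, fun t x hx hxW v hv hv1 hv2 i hi => ?_⟩ _
    (conf_near_on hw' hF2 hκ hL) k hk
  have e : (fun z => On.ext M (fun x v => w x t * F x v t) z -
      On.ext M (fun x v => w x t * F x v t) z) = fun _ => (0 : ℝ) := by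
    funext z
    exact sub_self _
  rw [e, iteratedFDeriv_zero_fun]
  simpa using hδ.le

end EscW.Lo
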