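import Pool.Agent.EscMT.ODefs

set_option autoImplicit false

/-!
Outer definitions of project EscW: every closed submanifold `M` of a torus `𝕋ᵈ`; a domain of `M` which is
covered by an open subset `V` of a second closed submanifold `M'` of a torus `𝕋ᵐ`, and calibrated closed
geodesics which are defined by one-forms on `V` only.
-/

noncomputable section

namespace EscW

open Filter Topology Set EscF.T EscM EscMT MeasureTheory
open scoped ContDiff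

variable {d m : ℕ}

/-- `M` is a closed submanifold of `𝕋ᵈ`, `M'` one of `𝕋ᵐ`, `O` an open subset of `ℝᵐ` invariant under `ℤᵐ`, and
`V = M'.N ∩ O`. `G` is a finite group of linear isometries of `ℝᵐ` which preserve `ℤᵐ`, `M'.N` and `O`, and no
element of `ℤᵐ ⋊ G` other than the identity has a fixed point in `V`. The smooth map `φ : V → M` induces a
diffeomorphism of `V / (ℤᵐ ⋊ G)` onto an open subset of `M` (points of `M` are points of `M.N` modulo `ℤᵈ`). -/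
structure IsChart (M : Sub d) (M' : Sub m) (O : Set (Vec m)) (G : Subgroup (Vec m ≃ₗᵢ[ℝ] Vec m))
    (φ : Vec m → Vec d) : Prop where
  finite : (G : Set (Vec m ≃ₗᵢ[ℝ] Vec m)).Finite
  int : ∀ P ∈ G, ∀ n : Fin m → ℤ, ∃ n' : Fin m → ℤ, P (vz n) = vz n'
  mapsN : ∀ P ∈ G, ∀ x ∈ M'.N, P x ∈ M'.N
  mapsO : ∀ P ∈ G, ∀ x ∈ O, P x ∈ O
  isOpen : IsOpen O
  perO : ∀ (n : Fin m → ℤ), ∀ x ∈ O, x + vz n ∈ O
  free : ∀ P ∈ G, ∀ n : Fin m → ℤ, ∀ x ∈ M'.N ∩ O, P x + vz n = x → P = 1 ∧ n = 0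
  smooth : ContDiffOn ℝ ∞ φ O
  maps : ∀ x ∈ M'.N ∩ O, φ x ∈ M.N
  fibre : ∀ x ∈ M'.N ∩ O, ∀ y ∈ M'.N ∩ O,
    (∃ l : Fin d → ℤ, φ y = φ x + vz l) ↔ ∃ P ∈ G, ∃ n : Fin m → ℤ, y = P x + vz n
  inverse : ∀ x ∈ M'.N ∩ O, ∃ ψ : Vec d → Vec m, ContDiffAt ℝ ∞ ψ (φ x) ∧
    (∀ᶠ y in 𝓝 x, y ∈ M'.N → ψ (φ y) = y) ∧
    ∀ᶠ w in 𝓝 (φ x), w ∈ M.N → ψ w ∈ M'.N ∩ O ∧ φ (ψ w) = w

/-- the metric `F` on `M`, pulled back by `φ` -/
def pull (φ : Vec m → Vec d) (F : Vec d → Vec d → ℝ → ℝ) (x v : Vec m) (t : ℝ) : ℝ :=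
  F (φ x) (fderiv ℝ φ x v) t

/-- For every time `t`, `σ ↦ c σ t` is a closed curve in `V = M'.N ∩ O`, of unit speed for the metric `F` at
time `t` and of length `len`, in the class of the `i`-th basis vector of `ℤᵐ`, and its image under `φ` is a
simple closed curve in `M`. The differential of `B · t` descends to a closed one-form on `V / ℤᵐ`, in a
cohomology class which does not depend on `t`, which is bounded by the metric at time `t`; the one-form and the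
metric agree along the curve, and, for nonzero vectors, at no other point of `V`. -/
structure IsCalibratedW (M' : Sub m) (O : Set (Vec m)) (φ : Vec m → Vec d)
    (F : Vec m → Vec m → ℝ → ℝ) (B : Vec m → ℝ → ℝ) (i : Fin m) (len : ℝ) (c : ℝ → ℝ → Vec m) : Prop where
  smooth : ContDiffOn ℝ 1 (fun p : Vec m × ℝ => B (M'.r p.1) p.2) {p | p.1 ∈ M'.U ∧ M'.r p.1 ∈ O}
  periodic : ∀ x ∈ M'.N ∩ O, ∀ t, B x (t + 1) = B x t
  periods : ∀ n : Fin m → ℤ, ∃ a : ℝ, ∀ x ∈ M'.N ∩ O, ∀ t, B (x + vz n) t = B x t + a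
  lip : ∃ A : ℝ, ∀ x ∈ M'.N ∩ O, ∀ v, IsTangent M' x v → ∀ t t',
    |fderiv ℝ (fun y => B (M'.r y) t) x v - fderiv ℝ (fun y => B (M'.r y) t') x v| ≤ A * ‖v‖ * |t - t'|
  le : ∀ x ∈ M'.N ∩ O, ∀ v, IsTangent M' x v → ∀ t, fderiv ℝ (fun y => B (M'.r y) t) x v ≤ F x v t
  len_pos : 0 < len
  curve : ContDiff ℝ 1 (fun p : ℝ × ℝ => c p.1 p.2)
  mem : ∀ σ t, c σ t ∈ M'.N ∩ O
  closed : ∀ σ t, c (σ + len) t = c σ t + vz (Pi.single i 1)
  curve_per : ∀ σ t, c σ (t + 1) = c σ t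
  unit : ∀ σ t, F (c σ t) (deriv (fun σ => c σ t) σ) t = 1
  cal : ∀ σ t, B (c σ t) t = B (c 0 t) t + σ
  only : ∀ x ∈ M'.N ∩ O, ∀ v, IsTangent M' x v → ∀ t, v ≠ 0 →
    fderiv ℝ (fun y => B (M'.r y) t) x v = F x v t → ∃ (σ : ℝ) (n : Fin m → ℤ), x = c σ t + vz n
  simple : ∀ (σ σ' t : ℝ) (l : Fin d → ℤ), φ (c σ t) = φ (c σ' t) + vz l → ∃ k : ℤ, σ - σ' = k * len

/-- length of the curve `γ : [0,1] → M'` for the metric `F` at time `t`, minus the increment of `B` -/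
def excess (F : Vec m → Vec m → ℝ → ℝ) (B : Vec m → ℝ → ℝ) (t : ℝ) (γ : ℝ → Vec m) : ℝ :=
  (∫ s in (0:ℝ)..1, F (γ s) (deriv γ s) t) - (B (γ 1) t - B (γ 0) t)

/-- `K` is a closed subset of `V / ℤᵐ`. Every Lipschitz curve in `K` which joins `c · t` to a boundary point of
`K` in `M'` has excess at least `a`, and, at some time `t`, some Lipschitz curve in `K` with excess smaller than
`a` joins `c 0 t` to `c 0 t + n`, where the integer vector `n` is not a multiple of the `i`-th basis vector.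
The first condition is empty if `K = M'`. -/
structure IsRoom (M' : Sub m) (O K : Set (Vec m)) (F : Vec m → Vec m → ℝ → ℝ) (B : Vec m → ℝ → ℝ)
    (i : Fin m) (c : ℝ → ℝ → Vec m) (a : ℝ) : Prop where
  closed : IsClosed K
  sub : K ⊆ M'.N ∩ O
  periodic : ∀ (n : Fin m → ℤ), ∀ x ∈ K, x + vz n ∈ K
  mem : ∀ σ t, c σ t ∈ K
  exit : ∀ (t σ : ℝ) (γ : ℝ → Vec m), (∃ C, LipschitzWith C γ) → γ 0 = c σ t → (∀ s ∈ Icc (0:ℝ) 1, γ s ∈ K) →
    γ 1 ∈ closure (M'.N \ K) → a ≤ excess F B t γ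
  second : ∃ (t : ℝ) (n : Fin m → ℤ) (γ : ℝ → Vec m), (∀ k : ℤ, n ≠ Pi.single i k) ∧
    (∃ C, LipschitzWith C γ) ∧ γ 0 = c 0 t ∧ γ 1 = c 0 t + vz n ∧ (∀ s ∈ Icc (0:ℝ) 1, γ s ∈ K) ∧
    excess F B t γ < a

/-- The class of Lagrangians on `M`: `L` is near `κ(t) F(x, v, t)²/2` for a time-periodic family of continuous
Finsler metrics `F` on `M`, and some domain of `M` carries, for this family, calibrated simple closed geodesics
with a second direction which is cheaper than the exit from the domain. -/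
def InClass (M : Sub d) (L : Lag d) : Prop :=
  ∃ (κ : ℝ → ℝ) (F : Vec d → Vec d → ℝ → ℝ) (m : ℕ) (M' : Sub m) (O K : Set (Vec m))
    (G : Subgroup (Vec m ≃ₗᵢ[ℝ] Vec m)) (φ : Vec m → Vec d) (B : Vec m → ℝ → ℝ) (i : Fin m) (len a : ℝ)
    (c : ℝ → ℝ → Vec m), IsWeight κ ∧ IsFinslerT M F ∧ IsNearT M κ F L ∧ IsChart M M' O G φ ∧
      IsCalibratedW M' O φ (pull φ F) B i len c ∧ IsRoom M' O K (pull φ F) B i c a

end EscW
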