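import Pool.Agent.EscW.FODefs
import Pool.Agent.EscW.LCDefs
import Pool.Agent.EscW.WDefs

set_option autoImplicit false

/-!
Project EscW (MP_6acca1_an), part LL: Lagrangians which are in the class only over an open set `W`. Definitions.
-/

noncomputable section

namespace EscW.Lo

open Filter Topology Set EscF.T EscM EscMT MeasureTheory
open scoped ContDiff

variable {d m k j n : ℕ}

/-- the point `x` is over `W` -/
def Ov (W : Set (Vec d)) (x : Vec d) : Prop := ∃ l : Fin d → ℤ, x + vz l ∈ W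

/-- the class `InClass`, with a room whose image is over `W` -/
def InClassIn (M : Sub d) (W : Set (Vec d)) (L : Lag d) : Prop :=
  ∃ (κ : ℝ → ℝ) (F : Vec d → Vec d → ℝ → ℝ) (m : ℕ) (M' : Sub m) (O K : Set (Vec m))
    (G : Subgroup (Vec m ≃ₗᵢ[ℝ] Vec m)) (φ : Vec m → Vec d) (B : Vec m → ℝ → ℝ) (i : Fin m) (len a : ℝ)
    (c : ℝ → ℝ → Vec m), IsWeight κ ∧ IsFinslerT M F ∧ IsNearT M κ F L ∧ IsChart M M' O G φ ∧
      (∀ x ∈ K, Ov W (φ x)) ∧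
      IsCalibratedW M' O φ (pull φ F) B i len c ∧ IsRoom M' O K (pull φ F) B i c a

/-- The Euler-Lagrange flow of `L` on `M` has an orbit over `W` that tends to infinity. -/
def EscapesIn (M : Sub d) (W : Set (Vec d)) (L : Lag d) : Prop :=
  ∃ x : ℝ → Vec d, IsExtremal M L x ∧ (∀ t, 0 < t → Ov W (x t)) ∧
    Tendsto (fun t => ‖deriv x t‖) atTop atTop

/-- a time-periodic family of Finsler metrics over `W`, of class `C^r` for nonzero vectors -/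
structure IsFinslerOn (M : Sub d) (W : Set (Vec d)) (r : WithTop ℕ∞) (F : Vec d → Vec d → ℝ → ℝ) : Prop where
  smooth : ContDiffOn ℝ r (fun z : (Vec d × Vec d) × ℝ => On.ext M (fun x v => F x v z.2) z.1)
    {z | z.1 ∈ On.TD M ∧ Ov W (M.r z.1.1)}
  periodic : ∀ (l : Fin d → ℤ), ∀ x ∈ M.N, Ov W x → ∀ v, IsTangent M x v → ∀ t, F (x + vz l) v t = F x v t
  periodic' : ∀ x ∈ M.N, Ov W x → ∀ v, IsTangent M x v → ∀ t, F x v (t + 1) = F x v t
  hom : ∀ x ∈ M.N, Ov W x → ∀ v, IsTangent M x v → ∀ t a : ℝ, 0 ≤ a → F x (a • v) t = a * F x v t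
  pos : ∀ x ∈ M.N, Ov W x → ∀ v, IsTangent M x v → ∀ t, v ≠ 0 → 0 < F x v t

/-- positive definite second derivative of the square, over `W` -/
def IsConvexOn (M : Sub d) (W : Set (Vec d)) (F : Vec d → Vec d → ℝ → ℝ) : Prop :=
  ∀ x ∈ M.N, Ov W x → ∀ v w t, IsTangent M x v → IsTangent M x w →
    v ≠ 0 → w ≠ 0 → 0 < iteratedFDeriv ℝ 2 (fun u => F x (fderiv ℝ M.r x u) t ^ 2) v ![w, w]

/-- over `W`, `L` is near `κ(t) F(x, v, t)² / 2`; see `EscMT.IsNearT` -/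
structure IsNearOn (M : Sub d) (W : Set (Vec d)) (κ : ℝ → ℝ) (F : Vec d → Vec d → ℝ → ℝ) (L : Lag d) : Prop where
  smooth : ContDiffOn ℝ 2 (fun q : Vec d × Vec d × ℝ => L (M.r q.1, fderiv ℝ M.r q.1 q.2.1, q.2.2))
    {q | q.1 ∈ M.U ∧ Ov W (M.r q.1)}
  periodic : ∀ (n : Fin d → ℤ) (l : ℤ), ∀ x ∈ M.N, Ov W x → ∀ v t, IsTangent M x v →
    L (x + vz n, v, t + l) = L (x, v, t)
  convex : ∃ c : ℝ, 0 < c ∧ ∀ x ∈ M.N, Ov W x → ∀ v w t, IsTangent M x v → IsTangent M x w →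
    c * ‖w‖ ^ 2 ≤ iteratedFDeriv ℝ 2 (fun u => L (x, fderiv ℝ M.r x u, t)) v ![w, w]
  near : ∃ C : ℝ, ∀ x ∈ M.N, Ov W x → ∀ v t, IsTangent M x v → ∀ x' ∈ M.N, Ov W x' → ∀ v' t',
    IsTangent M x' v' →
    |(L (x, v, t) - κ t * F x v t ^ 2 / 2) - (L (x', v', t') - κ t' * F x' v' t' ^ 2 / 2)| ≤
      C * (‖v - v'‖ + (1 + ‖v‖) * (‖x - x'‖ + |t - t'|))

/-- the family `F` over the set `χ = 1`, the Euclidean norm divided by `√κ` where `χ = 0` -/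
def gl (χ : Vec d → ℝ) (κ : ℝ → ℝ) (F : Vec d → Vec d → ℝ → ℝ) (x v : Vec d) (t : ℝ) : ℝ :=
  √(χ x * F x v t ^ 2 + (1 - χ x) * (‖v‖ ^ 2 / κ t))

/-- the Lagrangian `L` over the set `χ = 1`, the kinetic energy where `χ = 0` -/
def glL (χ : Vec d → ℝ) (L : Lag d) (q : Vec d × Vec d × ℝ) : ℝ :=
  χ q.1 * L q + (1 - χ q.1) * (‖q.2.1‖ ^ 2 / 2)

end EscW.Lo
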