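import Pool.Agent.EscW.LMDefs

set_option autoImplicit false

/-!
Project EscW, part LM, module LM1: the Euclidean norm.
`On.ext M (fun _ v => ‖v‖) (x, v) = ‖fderiv ℝ M.r x v‖`, smooth where `fderiv ℝ M.r x v ≠ 0`. `IsConvexOn`: `u ↦ ‖fderiv ℝ M.r x u‖²` is a quadratic form, its second derivative on `![w, w]` is `2 ‖fderiv ℝ M.r x w‖² = 2 ‖w‖²`.
-/

noncomputable section

namespace EscW.Lo

open Filter Topology Set EscF.T EscM EscMT MeasureTheory
open scoped ContDiff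

variable {d m k j n : ℕ}

/-- the second derivative of the square of the norm of a linear map -/
theorem LM1_sq (A : Vec d →L[ℝ] Vec d) (v w : Vec d) :
    iteratedFDeriv ℝ 2 (fun u => ‖A u‖ ^ 2) v ![w, w] = 2 * ‖A w‖ ^ 2 := by
  have h0 : ContDiff ℝ ∞ (fun u => ‖A u‖ ^ 2) := A.contDiff.norm_sq ℝ
  have h1 : ∀ u, HasFDerivAt (fun u => ‖A u‖ ^ 2) (2 • (innerSL ℝ (A u)).comp A) u := fun u =>
    A.hasFDerivAt.norm_sq
  have hd : DifferentiableAt ℝ (fderiv ℝ (fun u => ‖A u‖ ^ 2)) v :=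
    ((h0.fderiv_right (m := 1) (by norm_cast)).differentiable one_ne_zero).differentiableAt
  have h2 : (fun u => fderiv ℝ (fun u => ‖A u‖ ^ 2) u w) = fun u => ((2:ℝ) • (innerSL ℝ (A w)).comp A) u := by
    funext u
    rw [(h1 u).fderiv]
    show (2 : ℕ) • inner ℝ (A u) (A w) = (2:ℝ) * inner ℝ (A w) (A u)
    rw [real_inner_comm, nsmul_eq_mul]
    norm_num
  have h3 : fderiv ℝ (fun u => fderiv ℝ (fun u => ‖A u‖ ^ 2) u w) v w =
      fderiv ℝ (fderiv ℝ (fun u => ‖A u‖ ^ 2)) v w w := by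
    rw [fderiv_clm_apply hd (differentiableAt_const w)]
    simp
  rw [iteratedFDeriv_two_apply]
  show fderiv ℝ (fderiv ℝ (fun u => ‖A u‖ ^ 2)) v w w = _
  rw [← h3, h2, ContinuousLinearMap.fderiv]
  show (2:ℝ) * inner ℝ (A w) (A w) = _
  rw [real_inner_self_eq_norm_sq]

theorem norm_fins (M : Sub d) (W : Set (Vec d)) : IsFinslerOn M W ∞ (fun _ v _ => ‖v‖) ∧
    IsConvexOn M W (fun _ v _ => ‖v‖) := by
  refine ⟨⟨?_, ?_, ?_, ?_, ?_⟩, ?_⟩
  · have h1 : ContDiffOn ℝ ∞ (fderiv ℝ M.r) M.U := M.smooth.fderiv_of_isOpen M.isOpen (by simp)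
    have h2 : ContDiffOn ℝ ∞ (fun z : (Vec d × Vec d) × ℝ => fderiv ℝ M.r z.1.1 z.1.2)
        {z | z.1 ∈ On.TD M ∧ Ov W (M.r z.1.1)} := by
      refine ContDiffOn.clm_apply (h1.comp (contDiff_fst.comp contDiff_fst).contDiffOn fun z hz => hz.1.1) ?_
      exact (contDiff_snd.comp contDiff_fst).contDiffOn
    exact h2.norm ℝ fun z hz => hz.1.2
  · intro l x _ _ v _ t
    rfl
  · intro x _ _ v _ t
    rfl
  · intro x _ _ v _ t a ha
    show ‖a • v‖ = a * ‖v‖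
    rw [norm_smul, Real.norm_of_nonneg ha]
  · intro x _ _ v _ t hv
    exact norm_pos_iff.2 hv
  · intro x _ _ v w t _ hw _ hw0
    show 0 < iteratedFDeriv ℝ 2 (fun u => ‖fderiv ℝ M.r x u‖ ^ 2) v ![w, w]
    rw [LM1_sq]
    have h1 : fderiv ℝ M.r x w = w := hw
    rw [h1]
    have h2 : 0 < ‖w‖ := norm_pos_iff.2 hw0
    positivity

end EscW.Lo
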