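import Pool.Agent.EscW.LMDefs

set_option autoImplicit false

/-!
Project EscW, part LM, module LM2: a convex function.
`φ y = ∫_a^y st((s - a)/(b - a)) ds`, `st = Real.smoothTransition` (monotone, smooth, zero for arguments `≤ 0`, one for arguments `≥ 1`).
-/

noncomputable section

namespace EscW.Lo

open Filter Topology Set EscF.T EscM EscMT MeasureTheory
open scoped ContDiff

variable {d m k j n : ℕ}

theorem exists_phi {a b : ℝ} (hab : a < b) : ∃ φ : ℝ → ℝ, ContDiff ℝ ∞ φ ∧ (∀ y, y ≤ a → φ y = 0) ∧
    (∃ c : ℝ, ∀ y, b ≤ y → φ y = y + c) ∧ (∀ y, 0 ≤ deriv φ y ∧ deriv φ y ≤ 1) ∧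
    (∀ y, b ≤ y → deriv φ y = 1) ∧ ∀ y, 0 ≤ deriv (deriv φ) y := by
  have hba : 0 < b - a := by linarith
  set g : ℝ → ℝ := fun s => Real.smoothTransition ((s - a) / (b - a)) with hg
  have hgs : ContDiff ℝ ∞ g := by
    refine Real.smoothTransition.contDiff.comp ?_
    exact (contDiff_id.sub contDiff_const).div_const _
  have hgc : Continuous g := hgs.continuous
  set φ : ℝ → ℝ := fun y => ∫ s in a..y, g s with hφ
  have hd : ∀ y, HasDerivAt φ (g y) y := fun y =>
    intervalIntegral.integral_hasDerivAt_right (hgc.intervalIntegrable _ _)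
      hgc.aestronglyMeasurable.stronglyMeasurableAtFilter hgc.continuousAt
  have hder : deriv φ = g := funext fun y => (hd y).deriv
  have hg0 : ∀ y, y ≤ a → g y = 0 := by
    intro y hy
    exact Real.smoothTransition.zero_of_nonpos (div_nonpos_of_nonpos_of_nonneg (by linarith) hba.le)
  have hg1 : ∀ y, b ≤ y → g y = 1 := by
    intro y hy
    refine Real.smoothTransition.one_of_one_le ?_
    rw [le_div_iff₀ hba]
    linarith
  refine ⟨φ, ?_, ?_, ?_, ?_, ?_, ?_⟩
  · rw [contDiff_infty_iff_deriv]
    exact ⟨fun y => (hd y).differentiableAt, by rw [hder]; exact hgs⟩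
  · intro y hy
    show ∫ s in a..y, g s = 0
    rw [intervalIntegral.integral_symm]
    have : ∫ s in y..a, g s = ∫ s in y..a, (0 : ℝ) := by
      refine intervalIntegral.integral_congr (fun s hs => ?_)
      rw [uIcc_of_le hy] at hs
      exact hg0 s hs.2
    rw [this]
    simp
  · refine ⟨φ b - b, fun y hy => ?_⟩
    have h1 : φ b + ∫ s in b..y, g s = φ y :=
      intervalIntegral.integral_add_adjacent_intervals (hgc.intervalIntegrable _ _) (hgc.intervalIntegrable _ _)
    have h2 : ∫ s in b..y, g s = ∫ s in b..y, (1 : ℝ) := by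
      refine intervalIntegral.integral_congr (fun s hs => ?_)
      rw [uIcc_of_le hy] at hs
      exact hg1 s hs.1
    rw [h2] at h1
    simp only [intervalIntegral.integral_const, smul_eq_mul, mul_one] at h1
    linarith
  · intro y
    rw [hder]
    exact ⟨Real.smoothTransition.nonneg _, Real.smoothTransition.le_one _⟩
  · intro y hy
    rw [hder]
    exact hg1 y hy
  · intro y
    rw [hder]
    have hmono : Monotone g := by
      intro x z hxz
      exact Real.smoothTransition.monotone (by gcongr)
    exact hmono.deriv_nonneg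

end EscW.Lo
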