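import Pool.Agent.EscW.LMDefs
import Pool.Agent.EscW.LM1
import Pool.Agent.EscW.LM2
import Pool.Agent.EscW.FN13
import Pool.Agent.EscW.D6

set_option autoImplicit false

/-!
Project EscW, part LM, module LM3: quadratic growth at infinity.
`1/2 ≤ w ≤ 3/2`. Let `R0 ≥ 1` (enlarge), `a = (2 R0)²`, `b = (2 R0 + 1)²`, `φ` of LM2, `χ : ℝ → ℝ` smooth, `χ y = 1` for `y ≤ (4 R0 + 2)²`, `χ y = 0` for `y ≥ (4 R0 + 3)²`, and `N (x, v, t) = χ (‖v‖²) L (x, v, t) + B φ (w(x,t)² ‖v‖²)`. For `‖v‖ ≤ R0`: `w² ‖v‖² ≤ (9/4) R0² ≤ a`, `N = L`. For `‖v‖ ≥ 4 R0 + 2`: `w ‖v‖ ≥ 2 R0 + 1`, so `φ (w² ‖v‖²) = w² ‖v‖² + c`.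
`convex`: the second derivative in `v` of `φ (w² ‖v‖²)` on `![u, u]` is `2 w² φ' ‖u‖² + 4 w⁴ φ'' ⟪v, u⟫² ≥ 0`, and `≥ (1/2) ‖u‖²` for `‖v‖ ≥ 4 R0 + 2`. For `‖v‖ ≤ 4 R0 + 2` the one of `L` is positive (by compactness `≥ c ‖u‖²`), everywhere the one of `χ L` is `≥ - C1 ‖u‖²` (compactness), take
`B = 2 C1 + 1`. `near`: `N - B w² ‖v‖²` is the sum of `χ L` (`C²`, zero for large `v`, periodic in `x`, `t`: Lipschitz) and `B (φ (w² ‖v‖²) - w² ‖v‖²)`, a Lipschitz function of `w ‖v‖`. `super`: from quadratic growth.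
-/

noncomputable section

namespace EscW.Lo

open Filter Topology Set EscF.T EscM EscMT MeasureTheory
open scoped ContDiff

variable {d m k j n : ℕ}

/-! ### compactness modulo the lattice -/

theorem LM3_cpt {P W : Type*} [TopologicalSpace P] [NormedAddCommGroup W] {S : Set (Vec d × P × ℝ)}
    (hS : ∀ R : ℝ, IsCompact {q : Vec d × P × ℝ | q ∈ S ∧ ‖q.1‖ ≤ R ∧ q.2.2 ∈ Icc (0 : ℝ) 1})
    {Φ : Vec d × P × ℝ → W} (hc : ContinuousOn Φ S)
    (hp : ∀ (n : Fin d → ℤ) (l : ℤ) (x : Vec d) (p : P) (t : ℝ), (x, p, t) ∈ S →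
      (x + vz n, p, t + l) ∈ S ∧ Φ (x + vz n, p, t + l) = Φ (x, p, t)) :
    ∃ C : ℝ, 0 < C ∧ ∀ q ∈ S, ‖Φ q‖ ≤ C := by
  obtain ⟨R, hR⟩ := N0_fund d
  obtain ⟨C, hC⟩ := (hS R).exists_bound_of_continuousOn (hc.mono fun q hq => hq.1)
  refine ⟨|C| + 1, by positivity, ?_⟩
  rintro ⟨x, p, t⟩ hq
  obtain ⟨n, hn⟩ := hR x
  obtain ⟨h1, h2⟩ := hp n (-⌊t⌋) x p t hq
  have h3 : t + ((-⌊t⌋ : ℤ) : ℝ) = Int.fract t := by
    rw [Int.fract]
    push_cast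
    ring
  rw [← h2]
  refine (hC _ ⟨h1, hn, ?_⟩).trans ((le_abs_self C).trans (by linarith))
  change t + ((-⌊t⌋ : ℤ) : ℝ) ∈ Icc (0 : ℝ) 1
  rw [h3]
  exact ⟨Int.fract_nonneg t, (Int.fract_lt_one t).le⟩

theorem LM3_pos {P : Type*} [TopologicalSpace P] {S : Set (Vec d × P × ℝ)}
    (hS : ∀ R : ℝ, IsCompact {q : Vec d × P × ℝ | q ∈ S ∧ ‖q.1‖ ≤ R ∧ q.2.2 ∈ Icc (0 : ℝ) 1})
    {Φ : Vec d × P × ℝ → ℝ} (hc : ContinuousOn Φ S)
    (hp : ∀ (n : Fin d → ℤ) (l : ℤ) (x : Vec d) (p : P) (t : ℝ), (x, p, t) ∈ S →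
      (x + vz n, p, t + l) ∈ S ∧ Φ (x + vz n, p, t + l) = Φ (x, p, t)) (h0 : ∀ q ∈ S, 0 < Φ q) :
    ∃ c : ℝ, 0 < c ∧ ∀ q ∈ S, c ≤ Φ q := by
  obtain ⟨C, hC, hb⟩ := LM3_cpt (Φ := fun q => (Φ q)⁻¹) hS (hc.inv₀ fun q hq => (h0 q hq).ne')
    (fun n l x p t hq => ⟨(hp n l x p t hq).1, by
      beta_reduce
      rw [(hp n l x p t hq).2]⟩)
  refine ⟨C⁻¹, by positivity, fun q hq => ?_⟩
  have h1 := hb q hq
  have h2 := h0 q hq
  rw [norm_inv, Real.norm_eq_abs, abs_of_pos h2] at h1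
  exact inv_le_of_inv_le₀ h2 h1

/-! ### second derivatives along lines -/

theorem LM3_line {f : Vec d → ℝ} (hf : ContDiff ℝ 2 f) (v w : Vec d) {g1 : ℝ → ℝ} {g2 : ℝ}
    (h1 : ∀ᶠ τ in 𝓝 (0 : ℝ), HasDerivAt (fun τ : ℝ => f (v + τ • w)) (g1 τ) τ)
    (h2 : HasDerivAt g1 g2 0) : iteratedFDeriv ℝ 2 f v ![w, w] = g2 := by
  have hl : ∀ τ : ℝ, HasDerivAt (fun τ : ℝ => v + τ • w) w τ := by
    intro τ
    have := ((hasDerivAt_id τ).smul_const w).const_add v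
    simpa using this
  have e1 : g1 =ᶠ[𝓝 0] fun τ => fderiv ℝ f (v + τ • w) w := by
    filter_upwards [h1] with τ hτ
    refine hτ.unique ?_
    exact (hf.differentiable (by norm_num) (v + τ • w)).hasFDerivAt.comp_hasDerivAt τ (hl τ)
  have hf' : ContDiff ℝ 1 (fderiv ℝ f) := hf.fderiv_right (by norm_num)
  have h3 : HasDerivAt (fun τ : ℝ => fderiv ℝ f (v + τ • w))
      (fderiv ℝ (fderiv ℝ f) (v + (0:ℝ) • w) w) 0 :=
    (hf'.differentiable (by norm_num) (v + (0:ℝ) • w)).hasFDerivAt.comp_hasDerivAt 0 (hl 0)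
  have h4 := h3.clm_apply (hasDerivAt_const (0:ℝ) w)
  have h5 := (h2.congr_of_eventuallyEq e1.symm).unique h4
  rw [iteratedFDeriv_two_apply]
  simp only [zero_smul, add_zero, map_zero] at h5
  rw [h5]
  rfl

theorem LM3_two {X : Type*} [NormedAddCommGroup X] [NormedSpace ℝ X] {F : X → ℝ} {Ω : Set X}
    (hΩ : IsOpen Ω) (hF : ContDiffOn ℝ 2 F Ω) {q p : X} (hq : ∀ s : ℝ, q + s • p ∈ Ω) (s : ℝ) :
    HasDerivAt (fun s : ℝ => F (q + s • p)) (fderiv ℝ F (q + s • p) p) s ∧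
    HasDerivAt (fun s : ℝ => fderiv ℝ F (q + s • p) p) (fderiv ℝ (fderiv ℝ F) (q + s • p) p p) s := by
  have hl : HasDerivAt (fun τ : ℝ => q + τ • p) p s := by
    simpa using ((hasDerivAt_id s).smul_const p).const_add q
  have h1 : HasFDerivAt F (fderiv ℝ F (q + s • p)) (q + s • p) :=
    ((hF.contDiffAt (hΩ.mem_nhds (hq s))).differentiableAt (by norm_num)).hasFDerivAt
  have hF' : ContDiffOn ℝ 1 (fderiv ℝ F) Ω := hF.fderiv_of_isOpen hΩ (by norm_num)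
  have h2 : HasFDerivAt (fderiv ℝ F) (fderiv ℝ (fderiv ℝ F) (q + s • p)) (q + s • p) :=
    ((hF'.contDiffAt (hΩ.mem_nhds (hq s))).differentiableAt (by norm_num)).hasFDerivAt
  refine ⟨h1.comp_hasDerivAt s hl, ?_⟩
  have h3 : HasDerivAt (fun s : ℝ => fderiv ℝ F (q + s • p) p)
      (fderiv ℝ (fderiv ℝ F) (q + s • p) p p + fderiv ℝ F (q + s • p) 0) s :=
    (h2.comp_hasDerivAt s hl).clm_apply (hasDerivAt_const s p)
  rwa [map_zero, add_zero] at h3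

theorem LM3_shift (x v u : Vec d) (t s : ℝ) :
    ((x, v, t) : Vec d × Vec d × ℝ) + s • ((0, u, 0) : Vec d × Vec d × ℝ) = (x, v + s • u, t) := by
  simp

theorem LM3_slice {M : Sub d} {L : Lag d}
    (hL : ContDiffOn ℝ 2 (fun q : Vec d × Vec d × ℝ => L (M.r q.1, fderiv ℝ M.r q.1 q.2.1, q.2.2))
      {q | q.1 ∈ M.U}) {x : Vec d} (hx : x ∈ M.N) (t : ℝ) :
    ContDiff ℝ 2 (fun w => L (x, fderiv ℝ M.r x w, t)) := by
  have h1 : ContDiff ℝ 2 (fun w : Vec d => ((x, w, t) : Vec d × Vec d × ℝ)) :=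
    contDiff_const.prodMk (contDiff_id.prodMk contDiff_const)
  have h2 := hL.comp_contDiff h1 (fun w => M.sub hx)
  have h3 : (fun q : Vec d × Vec d × ℝ => L (M.r q.1, fderiv ℝ M.r q.1 q.2.1, q.2.2)) ∘
      (fun w : Vec d => ((x, w, t) : Vec d × Vec d × ℝ)) =
      fun w => L (x, fderiv ℝ M.r x w, t) := by
    funext w
    show L (M.r x, fderiv ℝ M.r x w, t) = L (x, fderiv ℝ M.r x w, t)
    rw [r_self M hx]
  rwa [h3] at h2

theorem LM3_second {M : Sub d} {L : Lag d}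
    (hL : ContDiffOn ℝ 2 (fun q : Vec d × Vec d × ℝ => L (M.r q.1, fderiv ℝ M.r q.1 q.2.1, q.2.2))
      {q | q.1 ∈ M.U}) {x : Vec d} (hx : x ∈ M.N) (v u : Vec d) (t : ℝ) :
    iteratedFDeriv ℝ 2 (fun w => L (x, fderiv ℝ M.r x w, t)) v ![u, u] =
      fderiv ℝ (fderiv ℝ (fun q : Vec d × Vec d × ℝ => L (M.r q.1, fderiv ℝ M.r q.1 q.2.1, q.2.2)))
        (x, v, t) (0, u, 0) (0, u, 0) := by
  have hΩ : IsOpen {q : Vec d × Vec d × ℝ | q.1 ∈ M.U} := M.isOpen.preimage continuous_fst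
  have hq : ∀ s : ℝ, ((x, v, t) : Vec d × Vec d × ℝ) + s • ((0, u, 0) : Vec d × Vec d × ℝ) ∈
      {q : Vec d × Vec d × ℝ | q.1 ∈ M.U} := by
    intro s
    rw [LM3_shift]
    exact M.sub hx
  have h0 := (LM3_two hΩ hL hq 0).2
  rw [zero_smul, add_zero] at h0
  refine LM3_line (LM3_slice hL hx t) v u (g1 := fun s => fderiv ℝ
    (fun q : Vec d × Vec d × ℝ => L (M.r q.1, fderiv ℝ M.r q.1 q.2.1, q.2.2))
    (((x, v, t) : Vec d × Vec d × ℝ) + s • ((0, u, 0) : Vec d × Vec d × ℝ)) (0, u, 0)) ?_ h0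
  refine Eventually.of_forall fun τ => ?_
  have h1 := (LM3_two hΩ hL hq τ).1
  have h2 : (fun s : ℝ => L (x, fderiv ℝ M.r x (v + s • u), t)) = fun s : ℝ =>
      (fun q : Vec d × Vec d × ℝ => L (M.r q.1, fderiv ℝ M.r q.1 q.2.1, q.2.2))
        (((x, v, t) : Vec d × Vec d × ℝ) + s • ((0, u, 0) : Vec d × Vec d × ℝ)) := by
    funext s
    rw [LM3_shift]
    show L (x, fderiv ℝ M.r x (v + s • u), t) = L (M.r x, fderiv ℝ M.r x (v + s • u), t)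
    rw [r_self M hx]
  rw [h2]
  exact h1

theorem LM3_dr (M : Sub d) {x : Vec d} (hx : x ∈ M.U) (n : Fin d → ℤ) :
    fderiv ℝ M.r (x + vz n) = fderiv ℝ M.r x := by
  have h1 : (fun y => M.r (y + vz n)) =ᶠ[𝓝 x] fun y => M.r y + vz n := by
    filter_upwards [M.isOpen.mem_nhds hx] with y hy
    exact r_vz M n hy
  have h2 := h1.fderiv_eq (𝕜 := ℝ)
  rw [fderiv_comp_add_right, fderiv_add_const] at h2
  exact h2

theorem LM3_drN (M : Sub d) {x : Vec d} (hx : x ∈ M.N) (u : Vec d) :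
    IsTangent M x (fderiv ℝ M.r x u) := by
  have h := EscW.Dn.D6_rr M (M.sub hx) u
  rwa [r_self M hx] at h

/-- continuity of the differential of the projection -/
theorem LM3_drc (M : Sub d) : ContDiffOn ℝ ∞ (fderiv ℝ M.r) M.U :=
  M.smooth.fderiv_of_isOpen (m := ∞) M.isOpen (by simp)

/-- the second derivative is bounded from below for bounded velocities -/
theorem LM3_low {M : Sub d} {L : Lag d} (hL : IsLag M L) (R : ℝ) : ∃ c : ℝ, 0 < c ∧ ∀ x ∈ M.N,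
    ∀ v u t, IsTangent M x v → IsTangent M x u → ‖v‖ ≤ R →
      c * ‖u‖ ^ 2 ≤ iteratedFDeriv ℝ 2 (fun w => L (x, fderiv ℝ M.r x w, t)) v ![u, u] := by
  set ℒ : Vec d × Vec d × ℝ → ℝ := fun q => L (M.r q.1, fderiv ℝ M.r q.1 q.2.1, q.2.2) with hℒ
  have hΩ : IsOpen {q : Vec d × Vec d × ℝ | q.1 ∈ M.U} := M.isOpen.preimage continuous_fst
  set S : Set (Vec d × (Vec d × Vec d) × ℝ) := {q | q.1 ∈ M.N ∧ IsTangent M q.1 q.2.1.1 ∧
    IsTangent M q.1 q.2.1.2 ∧ ‖q.2.1.1‖ ≤ R ∧ ‖q.2.1.2‖ = 1} with hS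
  have hSc : ∀ R' : ℝ, IsCompact {q : Vec d × (Vec d × Vec d) × ℝ | q ∈ S ∧ ‖q.1‖ ≤ R' ∧
      q.2.2 ∈ Icc (0 : ℝ) 1} := by
    intro R'
    set K0 : Set (Vec d × (Vec d × Vec d) × ℝ) := (M.N ∩ Metric.closedBall 0 R') ×ˢ
      ((Metric.closedBall (0 : Vec d) R ×ˢ Metric.sphere (0 : Vec d) 1) ×ˢ Icc (0 : ℝ) 1) with hK0
    have hK0c : IsCompact K0 :=
      ((isCompact_closedBall _ _).inter_left M.closed).prod
        (((isCompact_closedBall _ _).prod (isCompact_sphere _ _)).prod isCompact_Icc)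
    have hdr : ContinuousOn (fun q : Vec d × (Vec d × Vec d) × ℝ => fderiv ℝ M.r q.1) K0 :=
      (LM3_drc M).continuousOn.comp continuous_fst.continuousOn fun q hq => M.sub hq.1.1
    have hf : ContinuousOn (fun q : Vec d × (Vec d × Vec d) × ℝ =>
        (fderiv ℝ M.r q.1 q.2.1.1 - q.2.1.1, fderiv ℝ M.r q.1 q.2.1.2 - q.2.1.2)) K0 :=
      ((hdr.clm_apply (by fun_prop)).sub (by fun_prop)).prodMk
        ((hdr.clm_apply (by fun_prop)).sub (by fun_prop))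
    have h1 : {q : Vec d × (Vec d × Vec d) × ℝ | q ∈ S ∧ ‖q.1‖ ≤ R' ∧ q.2.2 ∈ Icc (0 : ℝ) 1} =
        K0 ∩ (fun q : Vec d × (Vec d × Vec d) × ℝ =>
          (fderiv ℝ M.r q.1 q.2.1.1 - q.2.1.1, fderiv ℝ M.r q.1 q.2.1.2 - q.2.1.2)) ⁻¹' {(0, 0)} := by
      ext q
      constructor
      · rintro ⟨⟨a1, a2, a3, a4, a5⟩, a6, a7⟩
        refine ⟨⟨⟨a1, mem_closedBall_zero_iff.2 a6⟩, ⟨mem_closedBall_zero_iff.2 a4,
          mem_sphere_zero_iff_norm.2 a5⟩, a7⟩, ?_⟩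
        change (fderiv ℝ M.r q.1 q.2.1.1 - q.2.1.1, fderiv ℝ M.r q.1 q.2.1.2 - q.2.1.2) = (0, 0)
        rw [Prod.mk.injEq]
        exact ⟨sub_eq_zero.2 a2, sub_eq_zero.2 a3⟩
      · rintro ⟨⟨⟨a1, a2⟩, ⟨a3, a4⟩, a5⟩, a6⟩
        change (fderiv ℝ M.r q.1 q.2.1.1 - q.2.1.1, fderiv ℝ M.r q.1 q.2.1.2 - q.2.1.2) = (0, 0) at a6
        rw [Prod.mk.injEq] at a6
        exact ⟨⟨a1, sub_eq_zero.1 a6.1, sub_eq_zero.1 a6.2, mem_closedBall_zero_iff.1 a3,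
          mem_sphere_zero_iff_norm.1 a4⟩, mem_closedBall_zero_iff.1 a2, a5⟩
    rw [h1]
    exact hK0c.of_isClosed_subset (hf.preimage_isClosed_of_isClosed hK0c.isClosed isClosed_singleton)
      inter_subset_left
  set Φ : Vec d × (Vec d × Vec d) × ℝ → ℝ := fun q =>
    iteratedFDeriv ℝ 2 (fun w => L (q.1, fderiv ℝ M.r q.1 w, q.2.2)) q.2.1.1 ![q.2.1.2, q.2.1.2] with hΦ
  have hcont : ContinuousOn Φ S := by
    have h1 : ContinuousOn (fderiv ℝ (fderiv ℝ ℒ)) {q : Vec d × Vec d × ℝ | q.1 ∈ M.U} := by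
      have h2 : ContDiffOn ℝ 1 (fderiv ℝ ℒ) {q : Vec d × Vec d × ℝ | q.1 ∈ M.U} :=
        hL.smooth.fderiv_of_isOpen hΩ (by norm_num)
      exact (h2.fderiv_of_isOpen (m := 0) hΩ (by norm_num)).continuousOn
    have h3 : ContinuousOn (fun q : Vec d × (Vec d × Vec d) × ℝ =>
        fderiv ℝ (fderiv ℝ ℒ) (q.1, q.2.1.1, q.2.2)) S :=
      h1.comp (by fun_prop) fun q hq => M.sub hq.1
    have h4 : ContinuousOn (fun q : Vec d × (Vec d × Vec d) × ℝ =>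
        fderiv ℝ (fderiv ℝ ℒ) (q.1, q.2.1.1, q.2.2) (0, q.2.1.2, 0) (0, q.2.1.2, 0)) S :=
      (h3.clm_apply (by fun_prop)).clm_apply (by fun_prop)
    refine h4.congr fun q hq => ?_
    exact LM3_second hL.smooth hq.1 q.2.1.1 q.2.1.2 q.2.2
  have hper : ∀ (n : Fin d → ℤ) (l : ℤ) (x : Vec d) (p : Vec d × Vec d) (t : ℝ), (x, p, t) ∈ S →
      (x + vz n, p, t + l) ∈ S ∧ Φ (x + vz n, p, t + l) = Φ (x, p, t) := by
    rintro n l x ⟨v, u⟩ t ⟨a1, a2, a3, a4, a5⟩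
    have a1' : x ∈ M.N := a1
    have hd := LM3_dr M (M.sub a1') n
    refine ⟨⟨M.perN n x a1', ?_, ?_, a4, a5⟩, ?_⟩
    · change fderiv ℝ M.r (x + vz n) v = v
      rw [hd]
      exact a2
    · change fderiv ℝ M.r (x + vz n) u = u
      rw [hd]
      exact a3
    · have h1 : (fun w => L (x + vz n, fderiv ℝ M.r (x + vz n) w, t + l)) =
          fun w => L (x, fderiv ℝ M.r x w, t) := by
        funext w
        rw [hd]
        exact hL.periodic n l x a1' _ t (LM3_drN M a1' w)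
      change iteratedFDeriv ℝ 2 (fun w => L (x + vz n, fderiv ℝ M.r (x + vz n) w, t + l)) v ![u, u] =
        iteratedFDeriv ℝ 2 (fun w => L (x, fderiv ℝ M.r x w, t)) v ![u, u]
      rw [h1]
  obtain ⟨c, hc, hb⟩ := LM3_pos hSc hcont hper (by
    rintro ⟨x, ⟨v, u⟩, t⟩ ⟨a1, a2, a3, a4, a5⟩
    refine hL.convex x a1 v u t a2 a3 ?_
    rintro rfl
    change ‖(0 : Vec d)‖ = 1 at a5
    rw [norm_zero] at a5
    exact zero_ne_one a5)
  refine ⟨c, hc, fun x hx v u t hv hu hvR => ?_⟩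
  by_cases hu0 : u = 0
  · subst hu0
    rw [LM3_second hL.smooth hx]
    have h1 : ((0, 0, 0) : Vec d × Vec d × ℝ) = 0 := rfl
    rw [h1, map_zero, norm_zero]
    simp
  · have h0 : 0 < ‖u‖ := norm_pos_iff.2 hu0
    have hun : ‖‖u‖⁻¹ • u‖ = 1 := by
      rw [norm_smul, norm_inv, norm_norm, inv_mul_cancel₀ h0.ne']
    have hut : IsTangent M x (‖u‖⁻¹ • u) := by
      unfold IsTangent at hu ⊢
      rw [map_smul, hu]
    have h1 : c ≤ Φ (x, (v, ‖u‖⁻¹ • u), t) := hb _ ⟨hx, hv, hut, hvR, hun⟩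
    have h2 : Φ (x, (v, ‖u‖⁻¹ • u), t) =
        (‖u‖⁻¹) ^ 2 * iteratedFDeriv ℝ 2 (fun w => L (x, fderiv ℝ M.r x w, t)) v ![u, u] := by
      change iteratedFDeriv ℝ 2 (fun w => L (x, fderiv ℝ M.r x w, t)) v ![‖u‖⁻¹ • u, ‖u‖⁻¹ • u] = _
      rw [LM3_second hL.smooth hx, LM3_second hL.smooth hx]
      have h3 : ((0, ‖u‖⁻¹ • u, 0) : Vec d × Vec d × ℝ) = ‖u‖⁻¹ • ((0, u, 0) : Vec d × Vec d × ℝ) := by
        simp
      rw [h3]
      simp only [map_smul, smul_apply, smul_eq_mul]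
      ring
    rw [h2] at h1
    have h4 : c * ‖u‖ ^ 2 ≤ ((‖u‖⁻¹) ^ 2 *
        iteratedFDeriv ℝ 2 (fun w => L (x, fderiv ℝ M.r x w, t)) v ![u, u]) * ‖u‖ ^ 2 :=
      mul_le_mul_of_nonneg_right h1 (by positivity)
    refine h4.trans (le_of_eq ?_)
    field_simp

/-- the Lagrangian cut off for large velocities -/
theorem LM3_cut {M : Sub d} {L : Lag d} (hL : IsLag M L) {χ : ℝ → ℝ} (hχ : ContDiff ℝ ∞ χ) {R : ℝ}
    (hR : 0 ≤ R) (h0 : ∀ y, R ^ 2 ≤ y → χ y = 0) : ∃ (G : Vec d × Vec d × ℝ → ℝ) (C : ℝ), 0 < C ∧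
      ContDiff ℝ 2 G ∧ (∀ x ∈ M.N, ∀ v t, IsTangent M x v → G (x, v, t) = χ (‖v‖ ^ 2) * L (x, v, t)) ∧
      (∀ q, |G q| ≤ C) ∧ (∀ q q', |G q - G q'| ≤ C * ‖q - q'‖) ∧
      ∀ q, ‖fderiv ℝ (fderiv ℝ G) q‖ ≤ C := by
  rcases M.N.eq_empty_or_nonempty with hne | hne
  · refine ⟨fun _ => 0, 1, one_pos, contDiff_const, fun x hx => ?_, fun q => ?_, fun q q' => ?_,
      fun q => ?_⟩
    · rw [hne] at hx
      exact absurd hx (notMem_empty x)
    · rw [abs_zero]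
      exact zero_le_one
    · rw [sub_self, abs_zero]
      positivity
    · have h1 : fderiv ℝ (fun _ : Vec d × Vec d × ℝ => (0 : ℝ)) = fun _ => 0 := by
        funext x
        exact fderiv_const_apply _
      rw [h1]
      have h2 : fderiv ℝ (fun _ : Vec d × Vec d × ℝ => (0 : (Vec d × Vec d × ℝ) →L[ℝ] ℝ)) q = 0 :=
        fderiv_const_apply _
      refine ContinuousLinearMap.opNorm_le_bound _ zero_le_one fun z => ?_
      rw [h2]
      have h3 : (0 : (Vec d × Vec d × ℝ) →L[ℝ] ((Vec d × Vec d × ℝ) →L[ℝ] ℝ)) z = 0 := rfl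
      rw [h3, norm_zero]
      positivity
  obtain ⟨ρ, χT, Rr, hT⟩ := exists_tube M hne
  have hρ := hT.ρ_pos
  set ℒ : Vec d × Vec d × ℝ → ℝ := fun q => L (M.r q.1, fderiv ℝ M.r q.1 q.2.1, q.2.2) with hℒ
  set G : Vec d × Vec d × ℝ → ℝ := fun q => χT q.1 * (χ (‖q.2.1‖ ^ 2) * ℒ q) with hG
  have hΩ : IsOpen {q : Vec d × Vec d × ℝ | q.1 ∈ M.U} := M.isOpen.preimage continuous_fst
  have h2le : (2 : WithTop ℕ∞) ≤ ((⊤ : ℕ∞) : WithTop ℕ∞) := by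
    have h4 : ((2 : ℕ∞) : WithTop ℕ∞) ≤ ((⊤ : ℕ∞) : WithTop ℕ∞) := WithTop.coe_le_coe.2 le_top
    exact h4
  have hv2 : ContDiff ℝ 2 (fun q : Vec d × Vec d × ℝ => χ (‖q.2.1‖ ^ 2)) := by
    have h1 : ContDiff ℝ 2 (fun q : Vec d × Vec d × ℝ => ‖q.2.1‖ ^ 2) :=
      (contDiff_fst.comp contDiff_snd).norm_sq ℝ
    exact (hχ.of_le h2le).comp h1
  have hGs : ContDiff ℝ 2 G := by
    rw [contDiff_iff_contDiffAt]
    intro z
    rcases lt_or_ge (Metric.infDist z.1 M.N) (5 * ρ) with h | h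
    · have hz : z.1 ∈ M.U := hT.tube _ h
      have h1 : ContDiffAt ℝ 2 ℒ z := (hL.smooth z hz).contDiffAt (hΩ.mem_nhds hz)
      have h2 : ContDiff ℝ 2 (fun q : Vec d × Vec d × ℝ => χT q.1) :=
        (hT.sχ.of_le h2le).comp contDiff_fst
      exact h2.contDiffAt.mul (hv2.contDiffAt.mul h1)
    · have h1 : ∀ᶠ y in 𝓝 z, 4 * ρ < Metric.infDist y.1 M.N :=
        continuousAt_const.eventually_lt
          ((Metric.continuous_infDist_pt M.N).comp continuous_fst).continuousAt (by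
            show 4 * ρ < Metric.infDist z.1 M.N
            linarith)
      have h2 : G =ᶠ[𝓝 z] fun _ => (0 : ℝ) := by
        filter_upwards [h1] with y hy
        show χT y.1 * (χ (‖y.2.1‖ ^ 2) * ℒ y) = 0
        rw [hT.zero y.1 hy.le, zero_mul]
      exact contDiffAt_const.congr_of_eventuallyEq h2
  have hGp : ∀ (n : Fin d → ℤ) (l : ℤ) (q : Vec d × Vec d × ℝ),
      G (q + (vz n, 0, (l : ℝ))) = G q := by
    rintro n l ⟨x, v, t⟩
    have h1 : ((x, v, t) : Vec d × Vec d × ℝ) + (vz n, 0, (l : ℝ)) = (x + vz n, v, t + l) := by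
      simp
    rw [h1]
    show χT (x + vz n) * (χ (‖v‖ ^ 2) * L (M.r (x + vz n), fderiv ℝ M.r (x + vz n) v, t + l)) =
      χT x * (χ (‖v‖ ^ 2) * L (M.r x, fderiv ℝ M.r x v, t))
    rw [hT.perχ]
    by_cases hx : x ∈ M.U
    · rw [r_vz M n hx, LM3_dr M hx n,
        hL.periodic n l (M.r x) (M.mem x hx) _ t (EscW.Dn.D6_rr M hx v)]
    · have h0 : χT x = 0 := by
        apply hT.zero
        by_contra hcon
        push Not at hcon
        exact hx (hT.tube x (by linarith))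
      rw [h0, zero_mul, zero_mul]
  have hG0 : ∀ q : Vec d × Vec d × ℝ, R ≤ ‖q.2.1‖ → G q = 0 := by
    intro q hq
    show χT q.1 * (χ (‖q.2.1‖ ^ 2) * ℒ q) = 0
    rw [h0 _ (pow_le_pow_left₀ hR hq 2), zero_mul, mul_zero]
  -- the shift
  have hshift : ∀ {W : Type} [NormedAddCommGroup W] [NormedSpace ℝ W] (f : Vec d × Vec d × ℝ → W)
      (a : Vec d × Vec d × ℝ), (∀ z, f (z + a) = f z) → ∀ z, fderiv ℝ f (z + a) = fderiv ℝ f z := by
    intro W _ _ f a ha z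
    rw [← fderiv_comp_add_right]
    congr 1
    funext y
    exact ha y
  -- compactness
  set S : Set (Vec d × Vec d × ℝ) := {q | ‖q.2.1‖ ≤ R + 1} with hS
  have hSc : ∀ R' : ℝ, IsCompact {q : Vec d × Vec d × ℝ | q ∈ S ∧ ‖q.1‖ ≤ R' ∧
      q.2.2 ∈ Icc (0 : ℝ) 1} := by
    intro R'
    have h1 : {q : Vec d × Vec d × ℝ | q ∈ S ∧ ‖q.1‖ ≤ R' ∧ q.2.2 ∈ Icc (0 : ℝ) 1} =
        Metric.closedBall (0 : Vec d) R' ×ˢ (Metric.closedBall (0 : Vec d) (R + 1) ×ˢ Icc (0 : ℝ) 1) := by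
      ext q
      constructor
      · rintro ⟨a1, a2, a3⟩
        exact ⟨mem_closedBall_zero_iff.2 a2, mem_closedBall_zero_iff.2 a1, a3⟩
      · rintro ⟨a1, a2, a3⟩
        exact ⟨mem_closedBall_zero_iff.1 a2, mem_closedBall_zero_iff.1 a1, a3⟩
    rw [h1]
    exact (isCompact_closedBall _ _).prod ((isCompact_closedBall _ _).prod isCompact_Icc)
  have hbd : ∀ {W : Type} [NormedAddCommGroup W] [NormedSpace ℝ W] (f : Vec d × Vec d × ℝ → W),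
      Continuous f → (∀ (n : Fin d → ℤ) (l : ℤ) (q : Vec d × Vec d × ℝ),
        f (q + (vz n, 0, (l : ℝ))) = f q) → (∀ q : Vec d × Vec d × ℝ, R + 1 < ‖q.2.1‖ → f q = 0) →
      ∃ C : ℝ, 0 < C ∧ ∀ q, ‖f q‖ ≤ C := by
    intro W _ _ f hf hfp hf0
    obtain ⟨C, hC, hb⟩ := LM3_cpt hSc (Φ := f) hf.continuousOn (fun n l x p t hq => ⟨hq, by
      have h1 := hfp n l (x, p, t)
      have h2 : ((x, p, t) : Vec d × Vec d × ℝ) + (vz n, 0, (l : ℝ)) = (x + vz n, p, t + l) := by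
        simp
      rw [h2] at h1
      exact h1⟩)
    refine ⟨C, hC, fun q => ?_⟩
    rcases le_or_gt ‖q.2.1‖ (R + 1) with h | h
    · exact hb q h
    · rw [hf0 q h, norm_zero]
      exact hC.le
  have hGp1 : ∀ (n : Fin d → ℤ) (l : ℤ) (q : Vec d × Vec d × ℝ),
      fderiv ℝ G (q + (vz n, 0, (l : ℝ))) = fderiv ℝ G q := fun n l q => hshift G _ (hGp n l) q
  have hGp2 : ∀ (n : Fin d → ℤ) (l : ℤ) (q : Vec d × Vec d × ℝ),
      fderiv ℝ (fderiv ℝ G) (q + (vz n, 0, (l : ℝ))) = fderiv ℝ (fderiv ℝ G) q :=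
    fun n l q => hshift (fderiv ℝ G) _ (hGp1 n l) q
  have hev : ∀ q : Vec d × Vec d × ℝ, R < ‖q.2.1‖ → ∀ᶠ z in 𝓝 q, R < ‖z.2.1‖ := by
    intro q hq
    exact continuousAt_const.eventually_lt (by fun_prop) hq
  have hG1 : ∀ q : Vec d × Vec d × ℝ, R < ‖q.2.1‖ → fderiv ℝ G q = 0 := by
    intro q hq
    have h1 : G =ᶠ[𝓝 q] fun _ => 0 := by
      filter_upwards [hev q hq] with z hz
      exact hG0 z hz.le
    rw [h1.fderiv_eq]
    exact fderiv_const_apply _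
  have hG2 : ∀ q : Vec d × Vec d × ℝ, R < ‖q.2.1‖ → fderiv ℝ (fderiv ℝ G) q = 0 := by
    intro q hq
    have h1 : fderiv ℝ G =ᶠ[𝓝 q] fun _ => 0 := by
      filter_upwards [hev q hq] with z hz
      exact hG1 z hz
    rw [h1.fderiv_eq]
    exact fderiv_const_apply _
  have hG1s : ContDiff ℝ 1 (fderiv ℝ G) := hGs.fderiv_right (by norm_num)
  obtain ⟨C0, hC0, hb0⟩ := hbd G hGs.continuous hGp (fun q hq => hG0 q (by linarith))
  obtain ⟨C1, hC1, hb1⟩ := hbd (fderiv ℝ G) hG1s.continuous hGp1 (fun q hq => hG1 q (by linarith))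
  obtain ⟨C2, hC2, hb2⟩ := hbd (fderiv ℝ (fderiv ℝ G)) (hG1s.continuous_fderiv (by norm_num)) hGp2
    (fun q hq => hG2 q (by linarith))
  refine ⟨G, C0 + C1 + C2, by positivity, hGs, fun x hx v t hv => ?_, fun q => ?_, fun q q' => ?_,
    fun q => (hb2 q).trans (by linarith)⟩
  · show χT x * (χ (‖v‖ ^ 2) * L (M.r x, fderiv ℝ M.r x v, t)) = χ (‖v‖ ^ 2) * L (x, v, t)
    have hv' : fderiv ℝ M.r x v = v := hv
    rw [hv', r_self M hx, hT.one x (by rw [Metric.infDist_zero_of_mem hx]; positivity), one_mul]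
  · have h1 := hb0 q
    rw [Real.norm_eq_abs] at h1
    exact h1.trans (by linarith)
  · have h3 : ‖G q - G q'‖ ≤ C1 * ‖q - q'‖ :=
      (convex_univ).norm_image_sub_le_of_norm_fderiv_le
        (fun z _ => (hGs.differentiable (by norm_num)) z) (fun z _ => hb1 z) (mem_univ _) (mem_univ _)
    rw [Real.norm_eq_abs] at h3
    exact h3.trans (mul_le_mul_of_nonneg_right (by linarith) (norm_nonneg _))

/-! ### the convex function -/

theorem LM3_lip {φ : ℝ → ℝ} (hφ : ContDiff ℝ ∞ φ) {β : ℝ} (hβ : 0 < β)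
    (h1 : ∀ y, 0 ≤ deriv φ y ∧ deriv φ y ≤ 1) (h2 : ∀ y, β ^ 2 ≤ y → deriv φ y = 1) (s s' : ℝ) :
    |(φ (s ^ 2) - s ^ 2) - (φ (s' ^ 2) - s' ^ 2)| ≤ 2 * β * |s - s'| := by
  have hd : ∀ s : ℝ, HasDerivAt (fun s : ℝ => φ (s ^ 2) - s ^ 2)
      (deriv φ (s ^ 2) * (2 * s) - 2 * s) s := by
    intro s
    have e1 : HasDerivAt (fun s : ℝ => s ^ 2) (2 * s) s := by
      have := hasDerivAt_pow 2 s
      simpa using this
    have e2 : HasDerivAt φ (deriv φ (s ^ 2)) (s ^ 2) := (hφ.differentiable (by simp) _).hasDerivAt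
    have e3 : HasDerivAt (fun s : ℝ => φ (s ^ 2)) (deriv φ (s ^ 2) * (2 * s)) s :=
      HasDerivAt.comp (h₂ := φ) (h := fun s : ℝ => s ^ 2) s e2 e1
    exact e3.sub e1
  have hb : ∀ s : ℝ, ‖deriv (fun s : ℝ => φ (s ^ 2) - s ^ 2) s‖ ≤ 2 * β := by
    intro s
    rw [(hd s).deriv, Real.norm_eq_abs]
    rcases le_or_gt (β ^ 2) (s ^ 2) with h | h
    · rw [h2 _ h, one_mul, sub_self, abs_zero]
      positivity
    · have e1 : |s| ≤ β := by
        rw [← abs_of_pos hβ]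
        exact (sq_lt_sq.1 h).le
      have e2 : deriv φ (s ^ 2) * (2 * s) - 2 * s = (2 * s) * (deriv φ (s ^ 2) - 1) := by ring
      have e3 : |deriv φ (s ^ 2) - 1| ≤ 1 := by
        obtain ⟨a1, a2⟩ := h1 (s ^ 2)
        rw [abs_le]
        constructor <;> linarith
      rw [e2, abs_mul, abs_mul, abs_two]
      calc 2 * |s| * |deriv φ (s ^ 2) - 1| ≤ 2 * β * 1 :=
            mul_le_mul (by linarith) e3 (abs_nonneg _) (by positivity)
        _ = 2 * β := mul_one _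
  have h3 := (convex_univ (𝕜 := ℝ) (E := ℝ)).norm_image_sub_le_of_norm_deriv_le
    (f := fun s : ℝ => φ (s ^ 2) - s ^ 2) (C := 2 * β)
    (fun s _ => (hd s).differentiableAt) (fun s _ => hb s) (mem_univ s') (mem_univ s)
  rw [Real.norm_eq_abs, Real.norm_eq_abs] at h3
  exact h3

theorem LM3_ge {φ : ℝ → ℝ} (hφ : ContDiff ℝ ∞ φ) {b c : ℝ} (hc : ∀ y, b ≤ y → φ y = y + c)
    (h1 : ∀ y, 0 ≤ deriv φ y ∧ deriv φ y ≤ 1) (y : ℝ) : y + c ≤ φ y := by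
  rcases le_or_gt b y with h | h
  · exact (hc y h).ge
  · have hanti : Antitone (fun y => φ y - y) := by
      have hd : ∀ y : ℝ, HasDerivAt (fun y : ℝ => φ y - y) (deriv φ y - 1) y := fun y =>
        (hφ.differentiable (by simp) y).hasDerivAt.sub (hasDerivAt_id y)
      refine antitone_of_deriv_nonpos (fun y => (hd y).differentiableAt) fun y => ?_
      rw [(hd y).deriv]
      linarith [(h1 y).2]
    have h2 := hanti h.le
    beta_reduce at h2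
    rw [hc b le_rfl] at h2
    linarith

/-- the second derivative of the quadratic part -/
theorem LM3_quad {φ : ℝ → ℝ} (hφ : ContDiff ℝ ∞ φ) (c : ℝ) (v u : Vec d) :
    (∀ τ : ℝ, HasDerivAt (fun τ : ℝ => φ (c ^ 2 * ‖v + τ • u‖ ^ 2))
      (deriv φ (c ^ 2 * ‖v + τ • u‖ ^ 2) * (c ^ 2 * (2 * inner ℝ (v + τ • u) u))) τ) ∧
    HasDerivAt (fun τ : ℝ => deriv φ (c ^ 2 * ‖v + τ • u‖ ^ 2) * (c ^ 2 * (2 * inner ℝ (v + τ • u) u)))
      (deriv (deriv φ) (c ^ 2 * ‖v‖ ^ 2) * (c ^ 2 * (2 * inner ℝ v u)) ^ 2 +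
        deriv φ (c ^ 2 * ‖v‖ ^ 2) * (2 * c ^ 2 * ‖u‖ ^ 2)) 0 := by
  have hl : ∀ τ : ℝ, HasDerivAt (fun τ : ℝ => v + τ • u) u τ := by
    intro τ
    simpa using ((hasDerivAt_id τ).smul_const u).const_add v
  have hY : ∀ τ : ℝ, HasDerivAt (fun τ : ℝ => c ^ 2 * ‖v + τ • u‖ ^ 2)
      (c ^ 2 * (2 * inner ℝ (v + τ • u) u)) τ := fun τ => (hl τ).norm_sq.const_mul (c ^ 2)
  have hφ1 : ∀ y, HasDerivAt φ (deriv φ y) y := fun y => (hφ.differentiable (by simp) y).hasDerivAt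
  have hφ2 : ∀ y, HasDerivAt (deriv φ) (deriv (deriv φ) y) y := by
    intro y
    have e1 : ContDiff ℝ ∞ (deriv φ) := by
      exact (contDiff_infty_iff_deriv.1 hφ).2
    exact (e1.differentiable (by simp) y).hasDerivAt
  refine ⟨fun τ => (hφ1 _).comp τ (hY τ), ?_⟩
  have hZ : HasDerivAt (fun τ : ℝ => c ^ 2 * (2 * inner ℝ (v + τ • u) u)) (c ^ 2 * (2 * inner ℝ u u)) 0 := by
    have e1 : HasDerivAt (fun τ : ℝ => inner ℝ (v + τ • u) u) (inner ℝ u u) 0 := by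
      have := (hl 0).inner ℝ (hasDerivAt_const (0:ℝ) u)
      simpa using this
    exact (e1.const_mul 2).const_mul (c ^ 2)
  have h1 := ((hφ2 _).comp (0:ℝ) (hY 0)).mul hZ
  refine h1.congr_deriv ?_
  simp only [Function.comp_apply, zero_smul, add_zero, real_inner_self_eq_norm_sq]
  ring

theorem exists_N {M : Sub d} {L : Lag d} (hL : IsLag M L) {W : Set (Vec d)} {w : Vec d → ℝ → ℝ}
    (hw : Fn.IsConfT M W (1 / 2) w) (R0 : ℝ) : ∃ (B : ℝ) (N : Lag d), 0 < B ∧ IsLag M N ∧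
      (∀ x ∈ M.N, ∀ v t, IsTangent M x v → ‖v‖ ≤ R0 → N (x, v, t) = L (x, v, t)) ∧
      IsNearT M (fun _ => 2 * B) (fun x v t => w x t * ‖v‖) N := by
  -- the constants
  obtain ⟨R, hR1, hR0⟩ : ∃ R : ℝ, 1 ≤ R ∧ R0 ≤ R := ⟨max R0 1, le_max_right _ _, le_max_left _ _⟩
  obtain ⟨φ, hφ, hφ0, ⟨c, hφc⟩, hφ1, hφb, hφ2⟩ :=
    exists_phi (a := (2 * R) ^ 2) (b := (2 * R + 1) ^ 2) (by nlinarith)
  set ρ : ℝ := 4 * R + 2 with hρ
  have hρ0 : 0 < ρ := by rw [hρ]; linarith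
  have hden : 0 < (ρ + 1) ^ 2 - ρ ^ 2 := by nlinarith
  set χ : ℝ → ℝ := fun y => Real.smoothTransition (((ρ + 1) ^ 2 - y) / ((ρ + 1) ^ 2 - ρ ^ 2)) with hχ
  have hχs : ContDiff ℝ ∞ χ :=
    Real.smoothTransition.contDiff.comp ((contDiff_const.sub contDiff_id).div_const _)
  have hχ1 : ∀ y, y ≤ ρ ^ 2 → χ y = 1 := by
    intro y hy
    apply Real.smoothTransition.one_of_one_le
    rw [le_div_iff₀ hden]
    linarith
  have hχ0 : ∀ y, (ρ + 1) ^ 2 ≤ y → χ y = 0 := by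
    intro y hy
    apply Real.smoothTransition.zero_of_nonpos
    exact div_nonpos_of_nonpos_of_nonneg (by linarith) hden.le
  obtain ⟨G, C, hC, hGs, hGN, hGb, hGl, hG2⟩ := LM3_cut hL hχs (by linarith : 0 ≤ ρ + 1) hχ0
  obtain ⟨cA, hcA, hlow⟩ := LM3_low hL ρ
  obtain ⟨Cw, hCw0, hCw, hCwl⟩ := Fn.FN13_bd hw
  have hwle : ∀ x ∈ M.N, ∀ t, 1 / 2 ≤ w x t ∧ w x t ≤ 3 / 2 := by
    intro x hx t
    have h1 := abs_le.1 (hw.near x hx t)
    constructor <;> linarith [h1.1, h1.2]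
  obtain ⟨B, hB, hBC⟩ : ∃ B : ℝ, 0 < B ∧ B / 2 - C = 1 / 2 := ⟨2 * C + 1, by positivity, by ring⟩
  set N : Lag d := fun q => χ (‖q.2.1‖ ^ 2) * L q + B * φ (w q.1 q.2.2 ^ 2 * ‖q.2.1‖ ^ 2) with hN
  have hNe : ∀ x ∈ M.N, ∀ v t, IsTangent M x v →
      N (x, v, t) = G (x, v, t) + B * φ (w x t ^ 2 * ‖v‖ ^ 2) := by
    intro x hx v t hv
    rw [hGN x hx v t hv]
  -- smoothness
  have h2le : (2 : WithTop ℕ∞) ≤ ((⊤ : ℕ∞) : WithTop ℕ∞) := by
    have h4 : ((2 : ℕ∞) : WithTop ℕ∞) ≤ ((⊤ : ℕ∞) : WithTop ℕ∞) := WithTop.coe_le_coe.2 le_top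
    exact h4
  have hsm : ContDiffOn ℝ 2 (fun q : Vec d × Vec d × ℝ => N (M.r q.1, fderiv ℝ M.r q.1 q.2.1, q.2.2))
      {q | q.1 ∈ M.U} := by
    have h1 : ContDiffOn ℝ 2 (fun q : Vec d × Vec d × ℝ => fderiv ℝ M.r q.1 q.2.1) {q | q.1 ∈ M.U} := by
      have e1 : ContDiffOn ℝ 2 (fun q : Vec d × Vec d × ℝ => fderiv ℝ M.r q.1) {q | q.1 ∈ M.U} :=
        ((LM3_drc M).of_le h2le).comp contDiff_fst.contDiffOn fun q hq => hq
      exact e1.clm_apply (contDiff_fst.comp contDiff_snd).contDiffOn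
    have h2 : ContDiffOn ℝ 2 (fun q : Vec d × Vec d × ℝ => ‖fderiv ℝ M.r q.1 q.2.1‖ ^ 2)
        {q | q.1 ∈ M.U} := h1.norm_sq ℝ
    have h3 : ContDiffOn ℝ 2 (fun q : Vec d × Vec d × ℝ => w (M.r q.1) q.2.2) {q | q.1 ∈ M.U} := by
      have e2 : ContDiff ℝ 2 (fun q : Vec d × Vec d × ℝ => (q.1, q.2.2)) :=
        contDiff_fst.prodMk (contDiff_snd.comp contDiff_snd)
      exact (hw.smooth.of_le h2le).comp e2.contDiffOn fun q hq => hq
    have h4 : ContDiffOn ℝ 2 (fun q : Vec d × Vec d × ℝ => χ (‖fderiv ℝ M.r q.1 q.2.1‖ ^ 2))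
        {q | q.1 ∈ M.U} := (hχs.of_le h2le).comp_contDiffOn h2
    have h5 : ContDiffOn ℝ 2 (fun q : Vec d × Vec d × ℝ =>
        φ (w (M.r q.1) q.2.2 ^ 2 * ‖fderiv ℝ M.r q.1 q.2.1‖ ^ 2)) {q | q.1 ∈ M.U} :=
      (hφ.of_le h2le).comp_contDiffOn ((h3.pow 2).mul h2)
    exact (h4.mul hL.smooth).add (contDiffOn_const.mul h5)
  -- periodicity
  have hpe : ∀ (n : Fin d → ℤ) (l : ℤ), ∀ x ∈ M.N, ∀ v t, IsTangent M x v →
      N (x + vz n, v, t + l) = N (x, v, t) := by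
    intro n l x hx v t hv
    show χ (‖v‖ ^ 2) * L (x + vz n, v, t + l) + B * φ (w (x + vz n) (t + l) ^ 2 * ‖v‖ ^ 2) =
      χ (‖v‖ ^ 2) * L (x, v, t) + B * φ (w x t ^ 2 * ‖v‖ ^ 2)
    rw [hL.periodic n l x hx v t hv, hw.periodic n x hx, Fn.FN13_int hw hx]
  -- convexity
  have hco : ∀ x ∈ M.N, ∀ v u t, IsTangent M x v → IsTangent M x u →
      min cA (1 / 2) * ‖u‖ ^ 2 ≤ iteratedFDeriv ℝ 2 (fun u => N (x, fderiv ℝ M.r x u, t)) v ![u, u] := by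
    intro x hx v u t hv hu
    have hline : ∀ s : ℝ, IsTangent M x (v + s • u) := by
      intro s
      unfold IsTangent at hv hu ⊢
      rw [map_add, map_smul, hv, hu]
    have hGo : ∀ s : ℝ, ((x, v, t) : Vec d × Vec d × ℝ) + s • ((0, u, 0) : Vec d × Vec d × ℝ) ∈
        (univ : Set (Vec d × Vec d × ℝ)) := fun s => mem_univ _
    have hG1 : ∀ s : ℝ, HasDerivAt (fun s : ℝ => G (x, v + s • u, t))
        (fderiv ℝ G (((x, v, t) : Vec d × Vec d × ℝ) + s • ((0, u, 0) : Vec d × Vec d × ℝ))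
          (0, u, 0)) s := by
      intro s
      have e1 := (LM3_two isOpen_univ hGs.contDiffOn hGo s).1
      have e2 : (fun s : ℝ => G (((x, v, t) : Vec d × Vec d × ℝ) + s • ((0, u, 0) : Vec d × Vec d × ℝ))) =
          fun s : ℝ => G (x, v + s • u, t) := by
        funext s
        rw [LM3_shift]
      rwa [e2] at e1
    have hG3 := (LM3_two isOpen_univ hGs.contDiffOn hGo 0).2
    rw [zero_smul, add_zero] at hG3
    set g2 : ℝ := fderiv ℝ (fderiv ℝ G) (x, v, t) (0, u, 0) (0, u, 0) with hg2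
    obtain ⟨hq1, hq2⟩ := LM3_quad hφ (w x t) v u
    set k2 : ℝ := deriv (deriv φ) (w x t ^ 2 * ‖v‖ ^ 2) * (w x t ^ 2 * (2 * inner ℝ v u)) ^ 2 +
        deriv φ (w x t ^ 2 * ‖v‖ ^ 2) * (2 * w x t ^ 2 * ‖u‖ ^ 2) with hk2
    have hval : iteratedFDeriv ℝ 2 (fun u => N (x, fderiv ℝ M.r x u, t)) v ![u, u] = g2 + B * k2 := by
      refine LM3_line (LM3_slice hsm hx t) v u (g1 := fun s => fderiv ℝ G
        (((x, v, t) : Vec d × Vec d × ℝ) + s • ((0, u, 0) : Vec d × Vec d × ℝ)) (0, u, 0) +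
          B * (deriv φ (w x t ^ 2 * ‖v + s • u‖ ^ 2) * (w x t ^ 2 * (2 * inner ℝ (v + s • u) u))))
        (Eventually.of_forall fun τ => ?_) (hG3.add (hq2.const_mul B))
      have e1 := (hG1 τ).add ((hq1 τ).const_mul B)
      have e2 : (fun τ : ℝ => N (x, fderiv ℝ M.r x (v + τ • u), t)) = fun s : ℝ =>
          G (x, v + s • u, t) + B * φ (w x t ^ 2 * ‖v + s • u‖ ^ 2) := by
        funext s
        rw [show fderiv ℝ M.r x (v + s • u) = v + s • u from hline s, hNe x hx _ t (hline s)]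
      rw [e2]
      exact e1
    have hk0 : 0 ≤ k2 := by
      have e1 := hφ2 (w x t ^ 2 * ‖v‖ ^ 2)
      have e2 := (hφ1 (w x t ^ 2 * ‖v‖ ^ 2)).1
      positivity
    rw [hval]
    rcases lt_or_ge ‖v‖ ρ with h | h
    · -- small velocities
      have e1 : g2 = iteratedFDeriv ℝ 2 (fun w => L (x, fderiv ℝ M.r x w, t)) v ![u, u] := by
        symm
        refine LM3_line (LM3_slice hL.smooth hx t) v u (g1 := fun s => fderiv ℝ G
          (((x, v, t) : Vec d × Vec d × ℝ) + s • ((0, u, 0) : Vec d × Vec d × ℝ)) (0, u, 0)) ?_ hG3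
        have hcn : Continuous (fun s : ℝ => ‖v + s • u‖) := by fun_prop
        have e3 : IsOpen {s : ℝ | ‖v + s • u‖ < ρ} := isOpen_lt hcn continuous_const
        have e4 : (0 : ℝ) ∈ {s : ℝ | ‖v + s • u‖ < ρ} := by
          change ‖v + (0 : ℝ) • u‖ < ρ
          rw [zero_smul, add_zero]
          exact h
        filter_upwards [e3.mem_nhds e4] with τ hτ
        refine (hG1 τ).congr_of_eventuallyEq ?_
        filter_upwards [e3.mem_nhds hτ] with s hs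
        have hs' : ‖v + s • u‖ < ρ := hs
        rw [show fderiv ℝ M.r x (v + s • u) = v + s • u from hline s, hGN x hx _ t (hline s),
          hχ1 _ (pow_le_pow_left₀ (norm_nonneg _) hs'.le 2), one_mul]
      have e2 := hlow x hx v u t hv hu h.le
      rw [e1]
      have e3 : min cA (1 / 2) * ‖u‖ ^ 2 ≤ cA * ‖u‖ ^ 2 :=
        mul_le_mul_of_nonneg_right (min_le_left _ _) (by positivity)
      have e4 : 0 ≤ B * k2 := by positivity
      linarith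
    · -- large velocities
      obtain ⟨w1, w2⟩ := hwle x hx t
      have e1 : (2 * R + 1) ^ 2 ≤ w x t ^ 2 * ‖v‖ ^ 2 := by
        rw [← mul_pow]
        refine pow_le_pow_left₀ (by linarith) ?_ 2
        calc 2 * R + 1 = 1 / 2 * ρ := by rw [hρ]; ring
          _ ≤ w x t * ‖v‖ := mul_le_mul w1 h hρ0.le (by linarith)
      have e2 : 1 / 2 * ‖u‖ ^ 2 ≤ k2 := by
        rw [hk2, hφb _ e1, one_mul]
        have e3 : 0 ≤ deriv (deriv φ) (w x t ^ 2 * ‖v‖ ^ 2) * (w x t ^ 2 * (2 * inner ℝ v u)) ^ 2 :=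
          mul_nonneg (hφ2 _) (sq_nonneg _)
        have e4 : 1 / 4 ≤ w x t ^ 2 := by nlinarith
        have e5 : 1 / 4 * ‖u‖ ^ 2 ≤ w x t ^ 2 * ‖u‖ ^ 2 := mul_le_mul_of_nonneg_right e4 (by positivity)
        linarith
      have e3 : -(C * ‖u‖ ^ 2) ≤ g2 := by
        have f1 : |g2| ≤ C * ‖u‖ ^ 2 := by
          rw [hg2, ← Real.norm_eq_abs]
          have f2 : ‖((0, u, 0) : Vec d × Vec d × ℝ)‖ = ‖u‖ := by
            simp
          have f3 := (fderiv ℝ (fderiv ℝ G) (x, v, t)).le_opNorm₂ (0, u, 0) (0, u, 0)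
          rw [f2] at f3
          refine f3.trans ?_
          calc ‖fderiv ℝ (fderiv ℝ G) (x, v, t)‖ * ‖u‖ * ‖u‖ ≤ C * ‖u‖ * ‖u‖ := by
                have := hG2 (x, v, t)
                gcongr
            _ = C * ‖u‖ ^ 2 := by ring
        exact (abs_le.1 f1).1
      have e4 : B * (1 / 2 * ‖u‖ ^ 2) ≤ B * k2 := mul_le_mul_of_nonneg_left e2 hB.le
      have e5 : min cA (1 / 2) * ‖u‖ ^ 2 ≤ 1 / 2 * ‖u‖ ^ 2 :=
        mul_le_mul_of_nonneg_right (min_le_right _ _) (by positivity)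
      have e6 : B * (1 / 2 * ‖u‖ ^ 2) - C * ‖u‖ ^ 2 = 1 / 2 * ‖u‖ ^ 2 := by
        calc B * (1 / 2 * ‖u‖ ^ 2) - C * ‖u‖ ^ 2 = (B / 2 - C) * ‖u‖ ^ 2 := by ring
          _ = 1 / 2 * ‖u‖ ^ 2 := by rw [hBC]
      linarith
  refine ⟨B, N, hB, ⟨hsm, hpe, ?_, ?_⟩, ?_, ⟨hsm, hpe, ⟨min cA (1 / 2), lt_min hcA (by norm_num), hco⟩, ?_⟩⟩
  · intro x hx v u t hv hu hu0
    have h1 := hco x hx v u t hv hu
    have h2 : 0 < min cA (1 / 2) * ‖u‖ ^ 2 := by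
      have h3 : 0 < ‖u‖ := norm_pos_iff.2 hu0
      have h4 : 0 < min cA (1 / 2) := lt_min hcA (by norm_num)
      positivity
    linarith
  · -- superlinear growth
    intro A
    refine ⟨C - B * c + A ^ 2 / B, fun x hx v t hv => ?_⟩
    rw [hNe x hx v t hv]
    have h1 := (abs_le.1 (hGb (x, v, t))).1
    have h2 := LM3_ge hφ hφc hφ1 (w x t ^ 2 * ‖v‖ ^ 2)
    have h3 : 1 / 4 * ‖v‖ ^ 2 ≤ w x t ^ 2 * ‖v‖ ^ 2 := by
      have h4 : 1 / 4 ≤ w x t ^ 2 := by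
        have := (hwle x hx t).1
        nlinarith
      exact mul_le_mul_of_nonneg_right h4 (by positivity)
    have h5 : B * (1 / 4 * ‖v‖ ^ 2 + c) ≤ B * φ (w x t ^ 2 * ‖v‖ ^ 2) :=
      mul_le_mul_of_nonneg_left (by linarith) hB.le
    have h6 : A * ‖v‖ ≤ B * (1 / 4 * ‖v‖ ^ 2) + A ^ 2 / B := by
      have h7 : 0 ≤ B * (‖v‖ / 2 - A / B) ^ 2 := by positivity
      have h8 : B * (‖v‖ / 2 - A / B) ^ 2 = B * (1 / 4 * ‖v‖ ^ 2) - A * ‖v‖ + A ^ 2 / B := by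
        field_simp
        ring
      linarith
    linarith
  · -- small velocities
    intro x hx v t hv hv0
    have h1 : ‖v‖ ≤ R := hv0.trans hR0
    show χ (‖v‖ ^ 2) * L (x, v, t) + B * φ (w x t ^ 2 * ‖v‖ ^ 2) = L (x, v, t)
    have h2 : ‖v‖ ^ 2 ≤ ρ ^ 2 := pow_le_pow_left₀ (norm_nonneg _) (by rw [hρ]; linarith) 2
    have h3 : w x t ^ 2 * ‖v‖ ^ 2 ≤ (2 * R) ^ 2 := by
      rw [← mul_pow]
      obtain ⟨w1, w2⟩ := hwle x hx t
      have h4 : 0 ≤ w x t * ‖v‖ := mul_nonneg (by linarith) (norm_nonneg _)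
      refine pow_le_pow_left₀ h4 ?_ 2
      calc w x t * ‖v‖ ≤ 3 / 2 * R := mul_le_mul w2 h1 (norm_nonneg _) (by norm_num)
        _ ≤ 2 * R := by linarith
    rw [hχ1 _ h2, hφ0 _ h3]
    ring
  · -- nearness
    refine ⟨C + B * (2 * (2 * R + 1)) * (Cw + 3 / 2), fun x hx v t hv x' hx' v' t' hv' => ?_⟩
    rw [hNe x hx v t hv, hNe x' hx' v' t' hv']
    have h1 := hGl (x, v, t) (x', v', t')
    have h2 := LM3_lip hφ (by linarith : 0 < 2 * R + 1) hφ1 hφb (w x t * ‖v‖) (w x' t' * ‖v'‖)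
    set D : ℝ := ‖x - x'‖ + |t - t'| with hD
    have hD0 : 0 ≤ D := by positivity
    have h3 : ‖((x, v, t) : Vec d × Vec d × ℝ) - (x', v', t')‖ ≤ ‖v - v'‖ + (1 + ‖v‖) * D := by
      rw [Prod.mk_sub_mk, Prod.mk_sub_mk, Prod.norm_mk, Prod.norm_mk, Real.norm_eq_abs]
      have e1 : D ≤ (1 + ‖v‖) * D := by nlinarith [norm_nonneg v]
      have e2 : ‖x - x'‖ ≤ D := by rw [hD]; linarith [abs_nonneg (t - t')]
      have e3 : |t - t'| ≤ D := by rw [hD]; linarith [norm_nonneg (x - x')]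
      refine max_le (by linarith [norm_nonneg (v - v')]) (max_le ?_ ?_)
      · have : 0 ≤ (1 + ‖v‖) * D := by positivity
        linarith
      · linarith [norm_nonneg (v - v')]
    have h4 : |w x t * ‖v‖ - w x' t' * ‖v'‖| ≤ (Cw + 3 / 2) * (‖v - v'‖ + (1 + ‖v‖) * D) := by
      have e1 : w x t * ‖v‖ - w x' t' * ‖v'‖ =
          (w x t - w x' t') * ‖v‖ + w x' t' * (‖v‖ - ‖v'‖) := by ring
      have e2 := hCwl x hx t x' hx' t'
      obtain ⟨w1, w2⟩ := hwle x' hx' t'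
      have e3 : |‖v‖ - ‖v'‖| ≤ ‖v - v'‖ := abs_norm_sub_norm_le v v'
      rw [e1]
      calc |(w x t - w x' t') * ‖v‖ + w x' t' * (‖v‖ - ‖v'‖)|
          ≤ |(w x t - w x' t') * ‖v‖| + |w x' t' * (‖v‖ - ‖v'‖)| := abs_add_le _ _
        _ = |w x t - w x' t'| * ‖v‖ + w x' t' * |‖v‖ - ‖v'‖| := by
            rw [abs_mul, abs_mul, abs_norm, abs_of_pos (by linarith : 0 < w x' t')]
        _ ≤ (Cw * D) * ‖v‖ + 3 / 2 * ‖v - v'‖ :=
            add_le_add (mul_le_mul_of_nonneg_right e2 (norm_nonneg _))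
              (mul_le_mul w2 e3 (abs_nonneg _) (by norm_num))
        _ ≤ (Cw + 3 / 2) * (‖v - v'‖ + (1 + ‖v‖) * D) := by
            have f1 : 0 ≤ Cw * ‖v - v'‖ := by positivity
            have f2 : 0 ≤ Cw * D := by positivity
            have f3 : 0 ≤ 3 / 2 * ((1 + ‖v‖) * D) := by positivity
            nlinarith
    have h5 : (G (x, v, t) + B * φ (w x t ^ 2 * ‖v‖ ^ 2) - 2 * B * (w x t * ‖v‖) ^ 2 / 2) -
        (G (x', v', t') + B * φ (w x' t' ^ 2 * ‖v'‖ ^ 2) - 2 * B * (w x' t' * ‖v'‖) ^ 2 / 2) =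
        (G (x, v, t) - G (x', v', t')) +
          B * ((φ ((w x t * ‖v‖) ^ 2) - (w x t * ‖v‖) ^ 2) -
            (φ ((w x' t' * ‖v'‖) ^ 2) - (w x' t' * ‖v'‖) ^ 2)) := by
      rw [mul_pow, mul_pow]
      ring
    rw [h5]
    calc |(G (x, v, t) - G (x', v', t')) +
          B * ((φ ((w x t * ‖v‖) ^ 2) - (w x t * ‖v‖) ^ 2) -
            (φ ((w x' t' * ‖v'‖) ^ 2) - (w x' t' * ‖v'‖) ^ 2))|
        ≤ |G (x, v, t) - G (x', v', t')| +
          |B * ((φ ((w x t * ‖v‖) ^ 2) - (w x t * ‖v‖) ^ 2) -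
            (φ ((w x' t' * ‖v'‖) ^ 2) - (w x' t' * ‖v'‖) ^ 2))| := abs_add_le _ _
      _ = |G (x, v, t) - G (x', v', t')| +
          B * |(φ ((w x t * ‖v‖) ^ 2) - (w x t * ‖v‖) ^ 2) -
            (φ ((w x' t' * ‖v'‖) ^ 2) - (w x' t' * ‖v'‖) ^ 2)| := by
          rw [abs_mul, abs_of_pos hB]
      _ ≤ C * (‖v - v'‖ + (1 + ‖v‖) * D) +
          B * (2 * (2 * R + 1) * ((Cw + 3 / 2) * (‖v - v'‖ + (1 + ‖v‖) * D))) := by
          refine add_le_add (h1.trans (mul_le_mul_of_nonneg_left h3 hC.le))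
            (mul_le_mul_of_nonneg_left (h2.trans (mul_le_mul_of_nonneg_left h4 (by linarith))) hB.le)
      _ = _ := by ring

end EscW.Lo
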