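import Pool.Agent.EscW.LMDefs
import Pool.Agent.EscW.D6

set_option autoImplicit false

/-!
Project EscW, part LM, module LM4: convex combinations.
`(1 - η (M.r x)) L + η (M.r x) N`: products of `C²` functions; the second derivative in `u` is the same combination; `super`: both are superlinear, `0 ≤ η ≤ 1`.
-/

noncomputable section

namespace EscW.Lo

open Filter Topology Set EscF.T EscM EscMT MeasureTheory
open scoped ContDiff

variable {d m k j n : ℕ}

/-- along the fibre of a point of `M.N` -/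
theorem LM4_fibre {M : Sub d} {L : Lag d}
    (hL : ContDiffOn ℝ 2 (fun q : Vec d × Vec d × ℝ => L (M.r q.1, fderiv ℝ M.r q.1 q.2.1, q.2.2))
      {q | q.1 ∈ M.U}) {x : Vec d} (hx : x ∈ M.N) (t : ℝ) :
    ContDiff ℝ 2 (fun u => L (x, fderiv ℝ M.r x u, t)) := by
  rw [← contDiffOn_univ]
  have h1 : ContDiff ℝ 2 (fun u : Vec d => ((x, u, t) : Vec d × Vec d × ℝ)) :=
    contDiff_const.prodMk (contDiff_id.prodMk contDiff_const)
  have h2 := hL.comp h1.contDiffOn (s := univ) (fun u _ => M.sub hx)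
  refine h2.congr fun u _ => ?_
  show L (x, fderiv ℝ M.r x u, t) = L (M.r x, fderiv ℝ M.r x u, t)
  rw [r_self M hx]

theorem LM4_comb {f g : Vec d → ℝ} (hf : ContDiff ℝ 2 f) (hg : ContDiff ℝ 2 g) (a b : ℝ) (v w : Vec d) :
    iteratedFDeriv ℝ 2 (fun u => a * f u + b * g u) v ![w, w] =
      a * iteratedFDeriv ℝ 2 f v ![w, w] + b * iteratedFDeriv ℝ 2 g v ![w, w] := by
  have h1 : ContDiffAt ℝ 2 (a • f) v := (hf.const_smul a).contDiffAt
  have h2 : ContDiffAt ℝ 2 (b • g) v := (hg.const_smul b).contDiffAt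
  have e : (fun u => a * f u + b * g u) = a • f + b • g := rfl
  rw [e, iteratedFDeriv_add_apply h1 h2, iteratedFDeriv_const_smul_apply hf.contDiffAt,
    iteratedFDeriv_const_smul_apply hg.contDiffAt]
  rfl

theorem mix_lag {M : Sub d} {L N : Lag d} (hL : IsLag M L) (hN : IsLag M N) {W : Set (Vec d)}
    {η : Vec d → ℝ} (hη : Ot.IsCutM M W η) : IsLag M (fun q => (1 - η q.1) * L q + η q.1 * N q) := by
  refine ⟨?_, ?_, ?_, ?_⟩
  · have h1 : ContDiffOn ℝ 2 (fun q : Vec d × Vec d × ℝ => η (M.r q.1)) {q | q.1 ∈ M.U} :=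
      (hη.smooth.of_le (by norm_cast)).comp contDiffOn_fst (fun q hq => hq)
    exact ((contDiffOn_const.sub h1).mul hL.smooth).add (h1.mul hN.smooth)
  · intro n l x hx v t hv
    show (1 - η (x + vz n)) * L (x + vz n, v, t + l) + η (x + vz n) * N (x + vz n, v, t + l) = _
    rw [hη.periodic n x hx, hL.periodic n l x hx v t hv, hN.periodic n l x hx v t hv]
  · intro x hx v w t hv hw hw0
    have h1 := hL.convex x hx v w t hv hw hw0
    have h2 := hN.convex x hx v w t hv hw hw0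
    obtain ⟨h3, h4⟩ := hη.mem01 x hx
    have h5 := LM4_comb (LM4_fibre hL.smooth hx t) (LM4_fibre hN.smooth hx t) (1 - η x) (η x) v w
    have h6 : 0 < (1 - η x) * iteratedFDeriv ℝ 2 (fun u => L (x, fderiv ℝ M.r x u, t)) v ![w, w] +
        η x * iteratedFDeriv ℝ 2 (fun u => N (x, fderiv ℝ M.r x u, t)) v ![w, w] := by
      rcases eq_or_lt_of_le h4 with h7 | h7
      · rw [h7, sub_self, zero_mul, zero_add, one_mul]
        exact h2
      · have h8 : 0 < (1 - η x) * iteratedFDeriv ℝ 2 (fun u => L (x, fderiv ℝ M.r x u, t)) v ![w, w] :=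
          mul_pos (by linarith) h1
        have h9 := mul_nonneg h3 h2.le
        linarith
    rw [← h5] at h6
    exact h6
  · intro A
    obtain ⟨B1, hB1⟩ := hL.super A
    obtain ⟨B2, hB2⟩ := hN.super A
    refine ⟨max B1 B2, fun x hx v t hv => ?_⟩
    have h1 := hB1 x hx v t hv
    have h2 := hB2 x hx v t hv
    obtain ⟨h3, h4⟩ := hη.mem01 x hx
    have h5 : A * ‖v‖ - max B1 B2 ≤ L (x, v, t) := by linarith [le_max_left B1 B2]
    have h6 : A * ‖v‖ - max B1 B2 ≤ N (x, v, t) := by linarith [le_max_right B1 B2]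
    show A * ‖v‖ - max B1 B2 ≤ (1 - η x) * L (x, v, t) + η x * N (x, v, t)
    have h7 := mul_le_mul_of_nonneg_left h5 (by linarith : 0 ≤ 1 - η x)
    have h8 := mul_le_mul_of_nonneg_left h6 h3
    linarith

theorem LM4_Ov {W : Set (Vec d)} {x : Vec d} (h : Ov W x) (n : Fin d → ℤ) : Ov W (x + vz n) := by
  obtain ⟨l, hl⟩ := h
  refine ⟨l - n, ?_⟩
  have e : x + vz n + vz (l - n) = x + vz l := by
    ext i
    show x i + (n i : ℝ) + (((l - n) i : ℤ) : ℝ) = x i + (l i : ℝ)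
    rw [Pi.sub_apply]
    push_cast
    ring
  rw [e]
  exact hl

theorem near_on {M : Sub d} {W : Set (Vec d)} {κ : ℝ → ℝ} {F : Vec d → Vec d → ℝ → ℝ} {L L' : Lag d}
    (hW : IsOpen W) (hL : IsNearT M κ F L)
    (h : ∀ x ∈ M.N, Ov W x → ∀ v t, IsTangent M x v → L' (x, v, t) = L (x, v, t)) :
    IsNearOn M W κ F L' := by
  refine ⟨?_, ?_, ?_, ?_⟩
  · have h1 : ContDiffOn ℝ 2 (fun q : Vec d × Vec d × ℝ => L (M.r q.1, fderiv ℝ M.r q.1 q.2.1, q.2.2))
        {q | q.1 ∈ M.U ∧ Ov W (M.r q.1)} := hL.smooth.mono fun q hq => hq.1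
    refine h1.congr fun q hq => ?_
    exact h (M.r q.1) (M.mem q.1 hq.1) hq.2 _ _ (Dn.D6_rr M hq.1 q.2.1)
  · intro n l x hx hxW v t hv
    rw [h (x + vz n) (M.perN n x hx) (LM4_Ov hxW n) v _ (Dn.D6_tangent hx hv n), h x hx hxW v t hv]
    exact hL.periodic n l x hx v t hv
  · obtain ⟨c, hc, h1⟩ := hL.convex
    refine ⟨c, hc, fun x hx hxW v w t hv hw => ?_⟩
    have e : (fun u => L' (x, fderiv ℝ M.r x u, t)) = fun u => L (x, fderiv ℝ M.r x u, t) := by
      funext u
      have h2 := Dn.D6_rr M (M.sub hx) u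
      rw [r_self M hx] at h2
      exact h x hx hxW _ _ h2
    rw [e]
    exact h1 x hx v w t hv hw
  · obtain ⟨C, hC⟩ := hL.near
    refine ⟨C, fun x hx hxW v t hv x' hx' hxW' v' t' hv' => ?_⟩
    rw [h x hx hxW v t hv, h x' hx' hxW' v' t' hv']
    exact hC x hx v t hv x' hx' v' t' hv'

end EscW.Lo
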