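import Pool.Agent.EscW.LL7
import Pool.Agent.EscW.LM1
import Pool.Agent.EscW.LM3
import Pool.Agent.EscW.LM4

set_option autoImplicit false

/-!
Project EscW, part LM, module LM5: final theorem of part LM.
`exists_cut` (LL3): `W1`, `η`. `open_in` (LL7) with `W1`, `F = fun _ v _ => ‖v‖` (`norm_fins`), `ε = 1/2`: `w`, `R`, `δ`. `N`, `B` of `exists_N`; `L' = (1 - η) L + η N` (`mix_lag`). If `‖v‖ ≤ R0`, `N = L`; if `x` is not over `W`, `η x = 0` (`IsCutM.supp` at `y = x`). Over `W1`: `η = 1`, `L' = N`, so `IsNearOn M W1 (fun _ => 2 B) (w F) L'` (`near_on`). First part of `open_in` with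
`κ = fun _ => 2 B` (a weight), `F' = w F` (`conf_fins_on`, LL6; the difference is zero), and `escapesIn_mono` (LL0).
-/

noncomputable section

namespace EscW.Lo

open Filter Topology Set EscF.T EscM EscMT MeasureTheory
open scoped ContDiff

variable {d m k j n : ℕ}

theorem LM5_weight {B : ℝ} (hB : 0 < B) : IsWeight (fun _ : ℝ => 2 * B) :=
  ⟨fun _ => mul_pos two_pos hB, fun _ => rfl, 0, fun _ _ => by simp⟩

theorem LM5_close {M : Sub d} {W : Set (Vec d)} {F : Vec d → Vec d → ℝ → ℝ} {R δ : ℝ}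
    (hF : IsFinslerOn M W 2 F) (hδ : 0 < δ) : Fo.Close2F M W R δ F F := by
  refine ⟨hF.smooth, fun t x hx hxW v hv hv1 hv2 i hi => ?_⟩
  have e : (fun z => On.ext M (fun x v => F x v t) z - On.ext M (fun x v => F x v t) z) =
      fun _ => (0 : ℝ) := by
    funext z
    exact sub_self _
  rw [e, iteratedFDeriv_zero_fun]
  simpa using hδ.le

theorem dense_lag {M : Sub d} {y0 u v : Vec d} (hy : y0 ∈ M.N) (hu : IsTangent M y0 u)
    (hv : IsTangent M y0 v) (huv : LinearIndependent ℝ ![u, v])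
    {W : Set (Vec d)} (hW : IsOpen W) (hy0 : y0 ∈ W) {L : Lag d} (hL : IsLag M L) (R0 : ℝ) :
    ∃ L' : Lag d, IsLag M L' ∧
      (∀ x ∈ M.N, ∀ v t, IsTangent M x v → (‖v‖ ≤ R0 ∨ ¬ Ov W x) → L' (x, v, t) = L (x, v, t)) ∧
      ∀ k : ℕ∞, 2 ≤ k → {f : Pot M k | EscapesIn M W (fun q => L' q + f.toFun (q.1, q.2.2))} ∈
        residual (Pot M k) := by
  obtain ⟨W1, η, hW1, hy1, hsub, hη, hη1⟩ := exists_cut hy hW hy0
  have hN := norm_fins M W1
  obtain ⟨w, hw, R, δ, hR, hδ, hop⟩ := open_in hy hu hv huv hW1 hy1 hN.1 hN.2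
    (ε := 1 / 2) (by norm_num)
  obtain ⟨B, N, hB, hNl, hNe, hNn⟩ := exists_N hL hw R0
  refine ⟨fun q => (1 - η q.1) * L q + η q.1 * N q, mix_lag hL hNl hη,
    fun x hx v t hv h => ?_, fun k hk => ?_⟩
  · show (1 - η x) * L (x, v, t) + η x * N (x, v, t) = L (x, v, t)
    rcases h with h | h
    · rw [hNe x hx v t hv h]
      ring
    · have h1 : η (M.r x) = 0 := (hη.supp x hx (fun l hl => h ⟨l, hl⟩)).self_of_nhds
      rw [LL7_r hx] at h1
      rw [h1]
      ring
  · have h1 : IsFinslerOn M W1 2 (fun x v t => w x t * ‖v‖) :=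
      conf_fins_on (r := 2) hw (LL7_of_le hN.1)
    have h2 : IsNearOn M W1 (fun _ => 2 * B) (fun x v t => w x t * ‖v‖)
        (fun q => (1 - η q.1) * L q + η q.1 * N q) := by
      refine near_on hW1 hNn fun x hx hxW v t hv => ?_
      show (1 - η x) * L (x, v, t) + η x * N (x, v, t) = N (x, v, t)
      rw [hη1 x hx hxW]
      ring
    have h3 := (hop (fun _ => 2 * B) (LM5_weight hB)).1 _ h1 (LM5_close h1 hδ) _ h2 k hk
    exact Filter.mem_of_superset h3 fun f hf => escapesIn_mono hsub hf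

end EscW.Lo
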