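import Pool.Agent.EscW.ONDefs

set_option autoImplicit false

/-!
Project EscW, part O, module O1: a hyperbolic linear system with periodic right hand side.
`μ = √(β/α)`. With `g₊ = f₂ - μ f₁`, `g₋ = f₂ + μ f₁` (`f = (f₁, f₂)`), `ρ₊ θ = - (1 - e^{-μ})⁻¹ ∫₀¹ e^{-μτ} g₊ (θ + τ) dτ`, `ρ₋ θ = (1 - e^{-μ})⁻¹ ∫₀¹ e^{-μτ} g₋ (θ - τ) dτ`:
`ρ₊' = μ ρ₊ + g₊`, `ρ₋' = - μ ρ₋ + g₋` (write `ρ₋ θ = (1 - e^{-μ})⁻¹ e^{-μθ} ∫_{θ-1}^θ e^{μs} g₋ s ds` and differentiate; periodicity of `g`), periodic, `|ρ| ≤ (1 - e^{-μ})⁻¹ sup |g|`.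
`W f = (ρ₊ - ρ₋) / (2 √(αβ))`, `P f = (ρ₊ + ρ₋) / 2`: `W' = (μ (ρ₊ + ρ₋) + g₊ - g₋) / (2 √(αβ)) = (P - f₁) / α`, `P' = (μ (ρ₊ - ρ₋) + g₊ + g₋) / 2 = β W + f₂` (`μ √(αβ) = β`, `μ / √(αβ) = 1 / α`).
Both are linear in `f`, so the difference estimate is the bound for `f - g`.
-/

noncomputable section

namespace EscW.On

open Filter Topology Set EscF.T EscM EscMT MeasureTheory EscW.Ex EscW.Dn
open scoped ContDiff

variable {d m k j n : ℕ}

def O1_rho (l : ℝ) (g : ℝ → Vec k) (θ : ℝ) : Vec k :=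
  (Real.exp (-l) - 1)⁻¹ • ∫ s in θ..(θ + 1), Real.exp (l * (θ - s)) • g s

theorem O1_rho_eq (l : ℝ) (g : ℝ → Vec k) (θ : ℝ) :
    O1_rho l g θ = (Real.exp (-l) - 1)⁻¹ • (Real.exp (l * θ) •
      ∫ s in θ..(θ + 1), Real.exp (-(l * s)) • g s) := by
  unfold O1_rho
  congr 1
  rw [← intervalIntegral.integral_smul]
  refine intervalIntegral.integral_congr fun s _ => ?_
  rw [smul_smul, ← Real.exp_add]
  congr 2
  ring

theorem O1_rho_hasDerivAt {l : ℝ} (hl : l ≠ 0) {g : ℝ → Vec k} (hg : Continuous g)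
    (hp : ∀ θ, g (θ + 1) = g θ) (θ : ℝ) :
    HasDerivAt (O1_rho l g) (l • O1_rho l g θ + g θ) θ := by
  have hc : Continuous fun s : ℝ => Real.exp (-(l * s)) • g s := by fun_prop
  have h1 : HasDerivAt (fun u : ℝ => ∫ s in (0 : ℝ)..u, Real.exp (-(l * s)) • g s)
      (Real.exp (-(l * θ)) • g θ) θ :=
    intervalIntegral.integral_hasDerivAt_right (hc.intervalIntegrable _ _)
      (hc.stronglyMeasurableAtFilter _ _) hc.continuousAt
  have h2 : HasDerivAt (fun u : ℝ => ∫ s in (0 : ℝ)..(u + 1), Real.exp (-(l * s)) • g s)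
      (Real.exp (-(l * (θ + 1))) • g (θ + 1)) θ := by
    have h : HasDerivAt (fun u : ℝ => ∫ s in (0 : ℝ)..u, Real.exp (-(l * s)) • g s)
      (Real.exp (-(l * (θ + 1))) • g (θ + 1)) (θ + 1) :=
      intervalIntegral.integral_hasDerivAt_right (hc.intervalIntegrable _ _)
        (hc.stronglyMeasurableAtFilter _ _) hc.continuousAt
    exact h.comp_add_const θ 1
  have h3 : HasDerivAt (fun u : ℝ => ∫ s in u..(u + 1), Real.exp (-(l * s)) • g s)
      (Real.exp (-(l * (θ + 1))) • g (θ + 1) - Real.exp (-(l * θ)) • g θ) θ := by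
    have h := h2.sub h1
    refine h.congr_of_eventuallyEq (Eventually.of_forall fun u => ?_)
    show _ = (∫ s in (0 : ℝ)..(u + 1), Real.exp (-(l * s)) • g s) -
      ∫ s in (0 : ℝ)..u, Real.exp (-(l * s)) • g s
    rw [eq_sub_iff_add_eq, add_comm]
    exact intervalIntegral.integral_add_adjacent_intervals (hc.intervalIntegrable _ _)
      (hc.intervalIntegrable _ _)
  have h4 : HasDerivAt (fun u : ℝ => Real.exp (l * u)) (Real.exp (l * θ) * l) θ := by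
    have h : HasDerivAt (fun u : ℝ => l * u) l θ := by
      simpa using (hasDerivAt_id θ).const_mul l
    exact h.exp
  have h5 := (h4.smul h3).const_smul (Real.exp (-l) - 1)⁻¹
  have he : Real.exp (-l) - 1 ≠ 0 := by
    intro h
    have h' : Real.exp (-l) = 1 := by linarith
    rw [Real.exp_eq_one_iff] at h'
    exact hl (by linarith)
  have hfun : O1_rho l g = fun u : ℝ => (Real.exp (-l) - 1)⁻¹ • (Real.exp (l * u) •
      ∫ s in u..(u + 1), Real.exp (-(l * s)) • g s) := funext fun u => O1_rho_eq l g u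
  rw [hfun]
  refine h5.congr_deriv ?_
  rw [hp, ← sub_smul, smul_smul, smul_add, smul_smul, smul_smul, smul_smul, smul_smul, add_comm]
  congr 1
  · congr 1
    ring
  · have h6 : (Real.exp (-l) - 1)⁻¹ * (Real.exp (l * θ) *
        (Real.exp (-(l * (θ + 1))) - Real.exp (-(l * θ)))) = 1 := by
      have h7 : Real.exp (l * θ) * (Real.exp (-(l * (θ + 1))) - Real.exp (-(l * θ))) =
          Real.exp (-l) - 1 := by
        rw [mul_sub, ← Real.exp_add, ← Real.exp_add]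
        have e1 : l * θ + -(l * (θ + 1)) = -l := by ring
        have e2 : l * θ + -(l * θ) = 0 := by ring
        rw [e1, e2, Real.exp_zero]
      rw [h7, inv_mul_cancel₀ he]
    rw [h6, one_smul]

theorem O1_rho_per (l : ℝ) {g : ℝ → Vec k} (hp : ∀ θ, g (θ + 1) = g θ) (θ : ℝ) :
    O1_rho l g (θ + 1) = O1_rho l g θ := by
  unfold O1_rho
  congr 1
  rw [← intervalIntegral.integral_comp_add_right (fun s => Real.exp (l * (θ + 1 - s)) • g s) 1]
  refine intervalIntegral.integral_congr fun s _ => ?_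
  rw [hp]
  congr 2
  ring

theorem O1_rho_bound (l : ℝ) {g : ℝ → Vec k} {b : ℝ} (hb : ∀ θ, ‖g θ‖ ≤ b) (θ : ℝ) :
    ‖O1_rho l g θ‖ ≤ |Real.exp (-l) - 1|⁻¹ * Real.exp |l| * b := by
  unfold O1_rho
  rw [norm_smul, norm_inv, Real.norm_eq_abs, mul_assoc]
  refine mul_le_mul_of_nonneg_left ?_ (inv_nonneg.2 (abs_nonneg _))
  have hb0 : 0 ≤ b := le_trans (norm_nonneg _) (hb 0)
  have h := intervalIntegral.norm_integral_le_of_norm_le_const (a := θ) (b := θ + 1)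
    (f := fun s => Real.exp (l * (θ - s)) • g s) (C := Real.exp |l| * b) (fun s hs => ?_)
  · simpa using h
  · rw [uIoc_of_le (by linarith)] at hs
    rw [norm_smul, Real.norm_eq_abs, abs_of_pos (Real.exp_pos _)]
    refine mul_le_mul (Real.exp_le_exp.2 ?_) (hb s) (norm_nonneg _) (Real.exp_pos _).le
    have h1 : |θ - s| ≤ 1 := by
      rw [abs_le]
      constructor <;> linarith [hs.1, hs.2]
    calc l * (θ - s) ≤ |l * (θ - s)| := le_abs_self _
      _ = |l| * |θ - s| := abs_mul _ _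
      _ ≤ |l| * 1 := mul_le_mul_of_nonneg_left h1 (abs_nonneg _)
      _ = |l| := mul_one _

theorem O1_rho_sub (l : ℝ) {f g : ℝ → Vec k} (hf : Continuous f) (hg : Continuous g) (θ : ℝ) :
    O1_rho l f θ - O1_rho l g θ = O1_rho l (fun θ => f θ - g θ) θ := by
  unfold O1_rho
  rw [← smul_sub, ← intervalIntegral.integral_sub]
  · congr 1
    refine intervalIntegral.integral_congr fun s _ => ?_
    simp only []
    rw [smul_sub]
  · exact Continuous.intervalIntegrable (by fun_prop) _ _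
  · exact Continuous.intervalIntegrable (by fun_prop) _ _

theorem lin_ode {α β : ℝ} (hα : 0 < α) (hβ : 0 < β) :
    ∃ (C : ℝ) (W P : (ℝ → Vec k × Vec k) → ℝ → Vec k), 0 < C ∧
      (∀ f : ℝ → Vec k × Vec k, Continuous f → (∀ θ, f (θ + 1) = f θ) →
        (∀ θ, W f (θ + 1) = W f θ) ∧ (∀ θ, P f (θ + 1) = P f θ) ∧
        (∀ θ, HasDerivAt (W f) (α⁻¹ • (P f θ - (f θ).1)) θ) ∧
        (∀ θ, HasDerivAt (P f) (β • W f θ + (f θ).2) θ) ∧
        ∀ b, (∀ θ, ‖f θ‖ ≤ b) → ∀ θ, ‖W f θ‖ ≤ C * b ∧ ‖P f θ‖ ≤ C * b) ∧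
      ∀ f g : ℝ → Vec k × Vec k, Continuous f → Continuous g → (∀ θ, f (θ + 1) = f θ) →
        (∀ θ, g (θ + 1) = g θ) → ∀ b, (∀ θ, ‖f θ - g θ‖ ≤ b) → ∀ θ,
          ‖W f θ - W g θ‖ ≤ C * b ∧ ‖P f θ - P g θ‖ ≤ C * b := by
  obtain ⟨s, hs, hss⟩ : ∃ s : ℝ, 0 < s ∧ s * s = α * β :=
    ⟨Real.sqrt (α * β), Real.sqrt_pos.2 (mul_pos hα hβ),
      Real.mul_self_sqrt (mul_pos hα hβ).le⟩
  obtain ⟨μ, hμ, hμα⟩ : ∃ μ : ℝ, 0 < μ ∧ μ * α = s := ⟨s / α, div_pos hs hα, by field_simp⟩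
  have hμs : μ * s = β := by
    have h : α * (μ * s) = α * β := by rw [← hss, ← hμα]; ring
    exact mul_left_cancel₀ hα.ne' h
  set gp : (ℝ → Vec k × Vec k) → ℝ → Vec k := fun f θ => (f θ).2 - μ • (f θ).1 with hgp
  set gm : (ℝ → Vec k × Vec k) → ℝ → Vec k := fun f θ => (f θ).2 + μ • (f θ).1 with hgm
  set Kp : ℝ := |Real.exp (-μ) - 1|⁻¹ * Real.exp |μ| with hKp
  set Km : ℝ := |Real.exp (-(-μ)) - 1|⁻¹ * Real.exp |(-μ)| with hKm
  have hKp0 : 0 ≤ Kp := mul_nonneg (inv_nonneg.2 (abs_nonneg _)) (Real.exp_pos _).le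
  have hKm0 : 0 ≤ Km := mul_nonneg (inv_nonneg.2 (abs_nonneg _)) (Real.exp_pos _).le
  have hgpc : ∀ f : ℝ → Vec k × Vec k, Continuous f → Continuous (gp f) := fun f hf => by
    simp only [hgp]; fun_prop
  have hgmc : ∀ f : ℝ → Vec k × Vec k, Continuous f → Continuous (gm f) := fun f hf => by
    simp only [hgm]; fun_prop
  have hgpp : ∀ f : ℝ → Vec k × Vec k, (∀ θ, f (θ + 1) = f θ) → ∀ θ, gp f (θ + 1) = gp f θ :=
    fun f hf θ => by simp only [hgp, hf]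
  have hgmp : ∀ f : ℝ → Vec k × Vec k, (∀ θ, f (θ + 1) = f θ) → ∀ θ, gm f (θ + 1) = gm f θ :=
    fun f hf θ => by simp only [hgm, hf]
  have hn1 : ∀ (a c : Vec k) (b : ℝ), ‖a‖ ≤ b → ‖c‖ ≤ b → ‖c - μ • a‖ ≤ (1 + μ) * b := by
    intro a c b ha hc
    calc ‖c - μ • a‖ ≤ ‖c‖ + ‖μ • a‖ := norm_sub_le _ _
      _ = ‖c‖ + μ * ‖a‖ := by rw [norm_smul, Real.norm_eq_abs, abs_of_pos hμ]
      _ ≤ b + μ * b := add_le_add hc (mul_le_mul_of_nonneg_left ha hμ.le)
      _ = (1 + μ) * b := by ring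
  have hn2 : ∀ (a c : Vec k) (b : ℝ), ‖a‖ ≤ b → ‖c‖ ≤ b → ‖c + μ • a‖ ≤ (1 + μ) * b := by
    intro a c b ha hc
    calc ‖c + μ • a‖ ≤ ‖c‖ + ‖μ • a‖ := norm_add_le _ _
      _ = ‖c‖ + μ * ‖a‖ := by rw [norm_smul, Real.norm_eq_abs, abs_of_pos hμ]
      _ ≤ b + μ * b := add_le_add hc (mul_le_mul_of_nonneg_left ha hμ.le)
      _ = (1 + μ) * b := by ring
  -- the constant
  set C : ℝ := (Kp + Km) * (1 + μ) * ((2 * s)⁻¹ + 1) + 1 with hC
  have hCpos : 0 < C := by positivity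
  have hCW : ∀ b x y : ℝ, 0 ≤ b → x ≤ Kp * ((1 + μ) * b) → y ≤ Km * ((1 + μ) * b) →
      (2 * s)⁻¹ * (x + y) ≤ C * b ∧ (2 : ℝ)⁻¹ * (x + y) ≤ C * b := by
    intro b x y hb hx hy
    have h1 : x + y ≤ (Kp + Km) * (1 + μ) * b := by nlinarith
    have h2 : 0 ≤ (Kp + Km) * (1 + μ) * b := by positivity
    have hs0 : 0 < (2 * s)⁻¹ := by positivity
    constructor
    · calc (2 * s)⁻¹ * (x + y) ≤ (2 * s)⁻¹ * ((Kp + Km) * (1 + μ) * b) :=
            mul_le_mul_of_nonneg_left h1 hs0.le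
        _ ≤ C * b := by
            rw [hC]
            nlinarith
    · calc (2 : ℝ)⁻¹ * (x + y) ≤ 2⁻¹ * ((Kp + Km) * (1 + μ) * b) :=
            mul_le_mul_of_nonneg_left h1 (by norm_num)
        _ ≤ C * b := by
            rw [hC]
            have h3 : 0 ≤ (2 * s)⁻¹ * ((Kp + Km) * (1 + μ) * b) := by positivity
            nlinarith
  refine ⟨C, fun f θ => (2 * s)⁻¹ • (O1_rho μ (gp f) θ - O1_rho (-μ) (gm f) θ),
    fun f θ => (2 : ℝ)⁻¹ • (O1_rho μ (gp f) θ + O1_rho (-μ) (gm f) θ), hCpos, ?_, ?_⟩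
  · intro f hf hfp
    refine ⟨fun θ => ?_, fun θ => ?_, fun θ => ?_, fun θ => ?_, fun b hb θ => ?_⟩
    · simp only []
      rw [O1_rho_per μ (hgpp f hfp), O1_rho_per (-μ) (hgmp f hfp)]
    · simp only []
      rw [O1_rho_per μ (hgpp f hfp), O1_rho_per (-μ) (hgmp f hfp)]
    · have h1 := O1_rho_hasDerivAt hμ.ne' (hgpc f hf) (hgpp f hfp) θ
      have h2 := O1_rho_hasDerivAt (neg_ne_zero.2 hμ.ne') (hgmc f hf) (hgmp f hfp) θ
      have h3 := (h1.sub h2).const_smul (2 * s)⁻¹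
      refine h3.congr_deriv ?_
      have hinv : α⁻¹ = (2 * s)⁻¹ * (2 * μ) := by
        rw [← hμα]; field_simp
      rw [hinv]
      simp only [hgp, hgm]
      module
    · have h1 := O1_rho_hasDerivAt hμ.ne' (hgpc f hf) (hgpp f hfp) θ
      have h2 := O1_rho_hasDerivAt (neg_ne_zero.2 hμ.ne') (hgmc f hf) (hgmp f hfp) θ
      have h3 := (h1.add h2).const_smul (2 : ℝ)⁻¹
      refine h3.congr_deriv ?_
      have hb1 : β • ((2 * s)⁻¹ • (O1_rho μ (gp f) θ - O1_rho (-μ) (gm f) θ)) =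
          (2⁻¹ * μ) • (O1_rho μ (gp f) θ - O1_rho (-μ) (gm f) θ) := by
        rw [smul_smul]
        congr 1
        rw [← hμs]
        field_simp
      show (2 : ℝ)⁻¹ • _ = β • ((2 * s)⁻¹ • (O1_rho μ (gp f) θ - O1_rho (-μ) (gm f) θ)) + (f θ).2
      rw [hb1]
      simp only [hgp, hgm]
      module
    · have hb0 : 0 ≤ b := le_trans (norm_nonneg _) (hb 0)
      have h1 := O1_rho_bound μ (g := gp f) (b := (1 + μ) * b) (fun θ =>
        hn1 _ _ b ((norm_fst_le _).trans (hb θ)) ((norm_snd_le _).trans (hb θ))) θ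
      have h2 := O1_rho_bound (-μ) (g := gm f) (b := (1 + μ) * b) (fun θ =>
        hn2 _ _ b ((norm_fst_le _).trans (hb θ)) ((norm_snd_le _).trans (hb θ))) θ
      obtain ⟨h3, h4⟩ := hCW b _ _ hb0 h1 h2
      constructor
      · simp only []
        rw [norm_smul, Real.norm_eq_abs, abs_of_pos (by positivity)]
        exact (mul_le_mul_of_nonneg_left (norm_sub_le _ _) (by positivity)).trans h3
      · simp only []
        rw [norm_smul, Real.norm_eq_abs, abs_of_pos (by positivity)]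
        exact (mul_le_mul_of_nonneg_left (norm_add_le _ _) (by positivity)).trans h4
  · intro f g hf hg hfp hgp' b hb θ
    have hb0 : 0 ≤ b := le_trans (norm_nonneg _) (hb 0)
    have e1 : O1_rho μ (gp f) θ - O1_rho μ (gp g) θ = O1_rho μ (fun θ => gp f θ - gp g θ) θ :=
      O1_rho_sub μ (hgpc f hf) (hgpc g hg) θ
    have e2 : O1_rho (-μ) (gm f) θ - O1_rho (-μ) (gm g) θ =
        O1_rho (-μ) (fun θ => gm f θ - gm g θ) θ :=
      O1_rho_sub (-μ) (hgmc f hf) (hgmc g hg) θ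
    have h1 := O1_rho_bound μ (g := fun θ => gp f θ - gp g θ) (b := (1 + μ) * b) (fun θ => by
      have h := hn1 ((f θ).1 - (g θ).1) ((f θ).2 - (g θ).2) b
        ((norm_fst_le (f θ - g θ)).trans (hb θ)) ((norm_snd_le (f θ - g θ)).trans (hb θ))
      have e : gp f θ - gp g θ = ((f θ).2 - (g θ).2) - μ • ((f θ).1 - (g θ).1) := by
        simp only [hgp]; module
      rw [e]; exact h) θ
    have h2 := O1_rho_bound (-μ) (g := fun θ => gm f θ - gm g θ) (b := (1 + μ) * b) (fun θ => by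
      have h := hn2 ((f θ).1 - (g θ).1) ((f θ).2 - (g θ).2) b
        ((norm_fst_le (f θ - g θ)).trans (hb θ)) ((norm_snd_le (f θ - g θ)).trans (hb θ))
      have e : gm f θ - gm g θ = ((f θ).2 - (g θ).2) + μ • ((f θ).1 - (g θ).1) := by
        simp only [hgm]; module
      rw [e]; exact h) θ
    obtain ⟨h3, h4⟩ := hCW b _ _ hb0 h1 h2
    constructor
    · have e3 : (2 * s)⁻¹ • (O1_rho μ (gp f) θ - O1_rho (-μ) (gm f) θ) -
          (2 * s)⁻¹ • (O1_rho μ (gp g) θ - O1_rho (-μ) (gm g) θ) =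
          (2 * s)⁻¹ • (O1_rho μ (fun θ => gp f θ - gp g θ) θ -
            O1_rho (-μ) (fun θ => gm f θ - gm g θ) θ) := by
        rw [← e1, ← e2]; module
      simp only []
      rw [e3, norm_smul, Real.norm_eq_abs, abs_of_pos (by positivity)]
      exact (mul_le_mul_of_nonneg_left (norm_sub_le _ _) (by positivity)).trans h3
    · have e3 : (2 : ℝ)⁻¹ • (O1_rho μ (gp f) θ + O1_rho (-μ) (gm f) θ) -
          (2 : ℝ)⁻¹ • (O1_rho μ (gp g) θ + O1_rho (-μ) (gm g) θ) =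
          (2 : ℝ)⁻¹ • (O1_rho μ (fun θ => gp f θ - gp g θ) θ +
            O1_rho (-μ) (fun θ => gm f θ - gm g θ) θ) := by
        rw [← e1, ← e2]; module
      simp only []
      rw [e3, norm_smul, Real.norm_eq_abs, abs_of_pos (by positivity)]
      exact (mul_le_mul_of_nonneg_left (norm_add_le _ _) (by positivity)).trans h4

end EscW.On
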