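import Pool.Agent.EscW.O14

set_option autoImplicit false

/-!
Project EscW, part O, module O15: the conformal model is a base metric.
`Phm = √((2π s (R0 + w0) W a)² + (s W |u|)²)` for `R0 + w0 > 0`. `low`: `hlow`, `hW1`. `upp`: `‖pol z‖ ≤ R0 + 1` on `𝒜`, `W` bounded on this compact ball. `cont`, `per` (`pol_per`), `hom`: clear. `smooth`: `(2π (R0 + w0))² + |u|² > 0` on `LD` (`r ≤ 1/2`, `R0 ≥ 1`).
`taylor`: `lg = 2π s m(θ,w) √(1 + x)`, `m = (R0 + w0) W (pol)`, `x = |u|²/(2π (R0 + w0))²`; `m = (1 - ε) R0 + R0 |w|² + O(|w|³)` (`htay`), `√(1 + x) = 1 + x/2 + O(x²)`, `x = |u|²/(2π R0)² + O(|u|² |w|)`; product `2π s ((1 - ε) R0 + R0 |w|² + (1 - ε) |u|²/(8π² R0))` up to `O((|w| + |u|)³)`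
(`|w|, |u| < 1/2`, so higher orders are bounded by third order).
-/

noncomputable section

namespace EscW.On

open Filter Topology Set EscF.T EscM EscMT MeasureTheory EscW.Ex EscW.Dn
open scoped ContDiff

variable {d m k j n : ℕ}

theorem O15_abs_coord (w : Vec (j + 1)) : |w 0| ≤ ‖w‖ := by
  simpa using (PiLp.norm_apply_le w 0)

theorem O15_coord (i : Fin (j + 1)) : ContDiff ℝ ∞ (fun w : Vec (j + 1) => w i) :=
  (EuclideanSpace.proj i : EuclideanSpace ℝ (Fin (j + 1)) →L[ℝ] ℝ).contDiff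

theorem O15_sqrt_le {x : ℝ} (hx : 0 ≤ x) : √(1 + x) ≤ 1 + x / 2 := by
  rw [Real.sqrt_le_iff]
  constructor
  · linarith
  · nlinarith [sq_nonneg x]

theorem O15_le_sqrt {x : ℝ} (hx : 0 ≤ x) (hx1 : x ≤ 1) : 1 + x / 2 - x ^ 2 ≤ √(1 + x) := by
  refine le_trans (le_abs_self _) (Real.abs_le_sqrt ?_)
  have h1 : x ^ 4 ≤ x ^ 3 := by
    have h2 : x ^ 3 * x ≤ x ^ 3 * 1 := mul_le_mul_of_nonneg_left hx1 (by positivity)
    nlinarith
  nlinarith [sq_nonneg x]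

/-- the elementary estimate behind `taylor` -/
theorem O15_tay {R0 ε b A B m C x : ℝ} (hR : 1 ≤ R0) (hR2 : R0 ≤ 2) (hε : 0 < ε) (hε1 : ε < 1)
    (hA : 0 ≤ A) (hA1 : A ≤ 1 / 2) (hB : 0 ≤ B) (hB1 : B ≤ 1 / 2) (hb : |b| ≤ A) (hC : 0 ≤ C)
    (hm : |m - ((1 - ε) * R0 + R0 * A ^ 2)| ≤ C * A ^ 3)
    (hx : x = B ^ 2 / (2 * Real.pi * (R0 + b)) ^ 2) :
    |m * √(1 + x) - ((1 - ε) * R0 + R0 * A ^ 2 + (1 - ε) * R0 * (B ^ 2 / (2 * Real.pi * R0) ^ 2) / 2)| ≤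
      (7 + 3 * C) * (A + B) ^ 3 := by
  have hpi : (3 : ℝ) < Real.pi := Real.pi_gt_three
  have hb' := abs_le.1 hb
  have hRb : 1 / 2 ≤ R0 + b := by linarith [hb'.1]
  have hq3 : 3 ≤ 2 * Real.pi * (R0 + b) := by
    have h1 : 3 * (1 / 2) ≤ Real.pi * (R0 + b) := mul_le_mul hpi.le hRb (by norm_num) (by linarith)
    linarith
  have hq : 1 ≤ 2 * Real.pi * (R0 + b) := by linarith
  have hq2 : 1 ≤ (2 * Real.pi * (R0 + b)) ^ 2 := one_le_pow₀ hq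
  have hx0 : 0 ≤ x := by
    rw [hx]
    positivity
  have hxB : x ≤ B ^ 2 := by
    rw [hx]
    exact div_le_self (sq_nonneg B) hq2
  have hx1 : x ≤ 1 := hxB.trans (pow_le_one₀ hB (by linarith))
  -- the difference of the two values of `x`
  have hxx : |x - B ^ 2 / (2 * Real.pi * R0) ^ 2| ≤ B ^ 2 * A := by
    have e1 : x - B ^ 2 / (2 * Real.pi * R0) ^ 2 =
        B ^ 2 * (-(b * (2 * R0 + b)) / ((2 * Real.pi * (R0 + b)) ^ 2 * R0 ^ 2)) := by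
      rw [hx]
      have h1 : R0 + b ≠ 0 := by linarith
      have h2 : R0 ≠ 0 := by linarith
      have h3 : Real.pi ≠ 0 := by linarith
      field_simp
      ring
    rw [e1, abs_mul, abs_of_nonneg (sq_nonneg B)]
    refine mul_le_mul_of_nonneg_left ?_ (sq_nonneg B)
    rw [abs_div, abs_neg, abs_mul]
    have h4 : |2 * R0 + b| ≤ 5 := by
      rw [abs_le]
      constructor <;> linarith [hb'.1, hb'.2]
    have h5 : (0 : ℝ) < (2 * Real.pi * (R0 + b)) ^ 2 * R0 ^ 2 := by positivity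
    rw [abs_of_pos h5, div_le_iff₀ h5]
    have h6 : (5 : ℝ) ≤ (2 * Real.pi * (R0 + b)) ^ 2 * R0 ^ 2 := by
      have h8 : (3 : ℝ) ^ 2 ≤ (2 * Real.pi * (R0 + b)) ^ 2 := pow_le_pow_left₀ (by norm_num) hq3 2
      have h9 : 1 ≤ R0 ^ 2 := one_le_pow₀ hR
      have h10 : (3 : ℝ) ^ 2 * 1 ≤ (2 * Real.pi * (R0 + b)) ^ 2 * R0 ^ 2 :=
        mul_le_mul h8 h9 (by norm_num) (sq_nonneg _)
      linarith
    calc |b| * |2 * R0 + b| ≤ A * 5 := mul_le_mul hb h4 (abs_nonneg _) hA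
      _ ≤ A * ((2 * Real.pi * (R0 + b)) ^ 2 * R0 ^ 2) := mul_le_mul_of_nonneg_left h6 hA
  have hsq : |√(1 + x) - (1 + x / 2)| ≤ B ^ 4 := by
    have h1 := O15_sqrt_le hx0
    have h2 := O15_le_sqrt hx0 hx1
    have h3 : x ^ 2 ≤ B ^ 4 := by
      have h4 : x ^ 2 ≤ (B ^ 2) ^ 2 := pow_le_pow_left₀ hx0 hxB 2
      have h5 : (B ^ 2) ^ 2 = B ^ 4 := by ring
      linarith
    rw [abs_le]
    constructor <;> linarith
  set ρ := √(1 + x) - (1 + x / 2) with hρ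
  set x0 := B ^ 2 / (2 * Real.pi * R0) ^ 2 with hx0'
  have hsum : m * √(1 + x) - ((1 - ε) * R0 + R0 * A ^ 2 + (1 - ε) * R0 * x0 / 2) =
      (m - ((1 - ε) * R0 + R0 * A ^ 2)) + (m - (1 - ε) * R0) * x / 2 +
        (1 - ε) * R0 * (x - x0) / 2 + m * ρ := by
    have : √(1 + x) = 1 + x / 2 + ρ := by rw [hρ]; ring
    rw [this]
    ring
  have hA3 : A ^ 3 ≤ A ^ 2 := pow_le_pow_of_le_one hA (by linarith) (by norm_num)
  have hA2 : A ^ 2 ≤ 1 := pow_le_one₀ hA (by linarith)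
  have hm1 : |m - (1 - ε) * R0| ≤ (2 + C) * A ^ 2 := by
    have h1 : m - (1 - ε) * R0 = (m - ((1 - ε) * R0 + R0 * A ^ 2)) + R0 * A ^ 2 := by ring
    rw [h1]
    refine (abs_add_le _ _).trans ?_
    have h2 : |R0 * A ^ 2| = R0 * A ^ 2 := abs_of_nonneg (by positivity)
    rw [h2]
    have h3 : C * A ^ 3 ≤ C * A ^ 2 := mul_le_mul_of_nonneg_left hA3 hC
    have h4 : R0 * A ^ 2 ≤ 2 * A ^ 2 := mul_le_mul_of_nonneg_right hR2 (sq_nonneg A)
    linarith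
  have hm2 : |m| ≤ 4 + C := by
    have h1 : m = (m - (1 - ε) * R0) + (1 - ε) * R0 := by ring
    rw [h1]
    refine (abs_add_le _ _).trans ?_
    have h2 : |(1 - ε) * R0| ≤ 2 := by
      rw [abs_of_nonneg (mul_nonneg (by linarith) (by linarith))]
      have h5 : (1 - ε) * R0 ≤ 1 * 2 := mul_le_mul (by linarith) hR2 (by linarith) (by norm_num)
      linarith
    have h3 : (2 + C) * A ^ 2 ≤ (2 + C) * 1 := mul_le_mul_of_nonneg_left hA2 (by linarith)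
    linarith
  have hP : 0 ≤ A * B := mul_nonneg hA hB
  have t1 : A ^ 3 ≤ (A + B) ^ 3 := pow_le_pow_left₀ hA (by linarith) 3
  have t2 : B ^ 3 ≤ (A + B) ^ 3 := pow_le_pow_left₀ hB (by linarith) 3
  have t3 : B ^ 2 * A ≤ (A + B) ^ 3 := by
    have h1 : 0 ≤ A ^ 3 + B ^ 3 + 3 * (A ^ 2 * B) + 2 * (B ^ 2 * A) := by positivity
    have h2 : (A + B) ^ 3 = A ^ 3 + B ^ 3 + 3 * (A ^ 2 * B) + 2 * (B ^ 2 * A) + B ^ 2 * A := by ring
    linarith
  have t4 : A ^ 2 * B ^ 2 ≤ (A + B) ^ 3 := by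
    have : A ^ 2 * B ^ 2 ≤ B ^ 2 * A := by
      have h1 : B ^ 2 * A * A ≤ B ^ 2 * A * 1 := mul_le_mul_of_nonneg_left (by linarith) (by positivity)
      have h2 : A ^ 2 * B ^ 2 = B ^ 2 * A * A := by ring
      linarith
    linarith
  have t5 : B ^ 4 ≤ (A + B) ^ 3 := by
    have h1 : B ^ 4 ≤ B ^ 3 := pow_le_pow_of_le_one hB (by linarith) (by norm_num)
    linarith
  have hS : 0 ≤ (A + B) ^ 3 := by positivity
  rw [hsum]
  have b1 : |(m - (1 - ε) * R0) * x / 2| ≤ (2 + C) * (A + B) ^ 3 := by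
    rw [abs_div, abs_mul, abs_of_nonneg hx0, abs_of_pos (by norm_num : (0:ℝ) < 2)]
    have h1 : |m - (1 - ε) * R0| * x ≤ (2 + C) * A ^ 2 * B ^ 2 :=
      mul_le_mul hm1 hxB hx0 (by positivity)
    have h2 : (2 + C) * (A ^ 2 * B ^ 2) ≤ (2 + C) * (A + B) ^ 3 :=
      mul_le_mul_of_nonneg_left t4 (by linarith)
    have h3 : 0 ≤ |m - (1 - ε) * R0| * x := mul_nonneg (abs_nonneg _) hx0
    have h4 : (2 + C) * A ^ 2 * B ^ 2 = (2 + C) * (A ^ 2 * B ^ 2) := by ring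
    linarith
  have b2 : |(1 - ε) * R0 * (x - x0) / 2| ≤ (A + B) ^ 3 := by
    rw [abs_div, abs_mul, abs_of_pos (by norm_num : (0:ℝ) < 2),
      abs_of_nonneg (mul_nonneg (by linarith : (0:ℝ) ≤ 1 - ε) (by linarith : (0:ℝ) ≤ R0))]
    have h1 : (1 - ε) * R0 ≤ 2 := by
      have h5 : (1 - ε) * R0 ≤ 1 * 2 := mul_le_mul (by linarith) hR2 (by linarith) (by norm_num)
      linarith
    have h2 : (1 - ε) * R0 * |x - x0| ≤ 2 * (B ^ 2 * A) :=
      mul_le_mul h1 hxx (abs_nonneg _) (by norm_num)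
    linarith
  have b3 : |m * ρ| ≤ (4 + C) * (A + B) ^ 3 := by
    rw [abs_mul]
    have h1 : |m| * |ρ| ≤ (4 + C) * B ^ 4 := mul_le_mul hm2 hsq (abs_nonneg _) (by linarith)
    have h2 : (4 + C) * B ^ 4 ≤ (4 + C) * (A + B) ^ 3 := mul_le_mul_of_nonneg_left t5 (by linarith)
    linarith
  have b0 : |m - ((1 - ε) * R0 + R0 * A ^ 2)| ≤ C * (A + B) ^ 3 :=
    hm.trans (mul_le_mul_of_nonneg_left t1 hC)
  calc |(m - ((1 - ε) * R0 + R0 * A ^ 2)) + (m - (1 - ε) * R0) * x / 2 +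
        (1 - ε) * R0 * (x - x0) / 2 + m * ρ|
      ≤ |m - ((1 - ε) * R0 + R0 * A ^ 2)| + |(m - (1 - ε) * R0) * x / 2| +
        |(1 - ε) * R0 * (x - x0) / 2| + |m * ρ| := by
        refine (abs_add_le _ _).trans (add_le_add_left ?_ _)
        refine (abs_add_le _ _).trans (add_le_add_left ?_ _)
        exact abs_add_le _ _
    _ ≤ (7 + 3 * C) * (A + B) ^ 3 := by
        have h1 : (7 + 3 * C) * (A + B) ^ 3 = C * (A + B) ^ 3 + (2 + C) * (A + B) ^ 3 + (A + B) ^ 3 +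
          (4 + C) * (A + B) ^ 3 := by ring
        linarith

theorem O15_Phm_eq {R0 s : ℝ} (W : Vec (j + 2) → ℝ) {z ζ : ℝ × Vec (j + 1)} (h : 0 < R0 + z.2 0)
    (h1 : ζ.1 = 1) : Phm R0 s W z ζ = 2 * Real.pi * s * (((R0 + z.2 0) * W (pol R0 z)) *
      √(1 + ‖ζ.2‖ ^ 2 / (2 * Real.pi * (R0 + z.2 0)) ^ 2)) := by
  have hpi := Real.pi_pos
  have hq : 0 < 2 * Real.pi * (R0 + z.2 0) := by positivity
  have e1 : (2 * Real.pi * (R0 + z.2 0) * ζ.1) ^ 2 + ‖ζ.2‖ ^ 2 =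
      (2 * Real.pi * (R0 + z.2 0)) ^ 2 * (1 + ‖ζ.2‖ ^ 2 / (2 * Real.pi * (R0 + z.2 0)) ^ 2) := by
    rw [h1]
    field_simp
  unfold Phm
  rw [e1, Real.sqrt_mul (sq_nonneg _), Real.sqrt_sq hq.le]
  ring

theorem O15_Phm_sq {R0 s : ℝ} (W : Vec (j + 2) → ℝ) (z ζ : ℝ × Vec (j + 1)) :
    Phm R0 s W z ζ ^ 2 = (s * W (pol R0 z)) ^ 2 *
      ((2 * Real.pi * (R0 + z.2 0) * ζ.1) ^ 2 + ‖ζ.2‖ ^ 2) := by
  unfold Phm
  rw [mul_pow, Real.sq_sqrt (by positivity)]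

theorem base_of {R0 s ε r c w0 : ℝ} {W : Vec (j + 2) → ℝ} {𝒜 : Set (ℝ × Vec (j + 1))}
    (hW : ContDiff ℝ 2 W) (hWp : ∀ Y, 0 < W Y) (hs : 0 < s) (hR : 1 ≤ R0) (hR2 : R0 ≤ 2) (hε : 0 < ε)
    (hε1 : ε < 1) (hr : 0 < r) (hr2 : r ≤ 1 / 2) (hc : 0 < c) (hw0 : 0 < w0)
    (htube : ∀ θ w, ‖w‖ < r → (θ, w) ∈ 𝒜) (hbd : ∀ z ∈ 𝒜, ‖z.2‖ ≤ 1)
    (hlow : ∀ z ∈ 𝒜, (1 - ε) * R0 * (1 + c * ‖z.2‖ ^ 2) ≤ (R0 + z.2 0) * W (pol R0 z))
    (hW1 : ∀ z ∈ 𝒜, w0 ≤ W (pol R0 z))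
    (htay : ∃ C, ∀ θ w, ‖w‖ < r →
      |(R0 + w 0) * W (pol R0 (θ, w)) - ((1 - ε) * R0 + R0 * ‖w‖ ^ 2)| ≤ C * ‖w‖ ^ 3) :
    AnnBase (Phm R0 s W) 𝒜 r (2 * Real.pi * s * (1 - ε) * R0) c (s * w0)
      (s * (1 - ε) / (2 * Real.pi * R0)) (4 * Real.pi * s * R0) := by
  have hpi := Real.pi_pos
  have hR0 : 0 < R0 := by linarith
  have hε' : 0 < 1 - ε := by linarith
  have hpolc : Continuous (pol R0 : ℝ × Vec (j + 1) → Vec (j + 2)) := (pol_smooth R0).continuous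
  have hWc : Continuous W := hW.continuous
  refine ⟨hr, by positivity, hc, by positivity, by positivity, by positivity, ?_, ?_, ?_, htube, ?_, ?_,
    ?_, ?_, ?_⟩
  · -- hom
    intro z _ ζ t ht
    unfold Phm
    have e1 : (2 * Real.pi * (R0 + z.2 0) * (t • ζ).1) ^ 2 + ‖(t • ζ).2‖ ^ 2 =
        t ^ 2 * ((2 * Real.pi * (R0 + z.2 0) * ζ.1) ^ 2 + ‖ζ.2‖ ^ 2) := by
      rw [Prod.smul_fst, Prod.smul_snd, norm_smul, Real.norm_eq_abs, abs_of_nonneg ht, smul_eq_mul]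
      ring
    rw [e1, Real.sqrt_mul (sq_nonneg _), Real.sqrt_sq ht]
    ring
  · -- per
    intro θ w ζ _
    unfold Phm
    rw [pol_per]
  · -- nonneg
    intro z ζ
    unfold Phm
    exact mul_nonneg (mul_nonneg hs.le (hWp _).le) (Real.sqrt_nonneg _)
  · -- low
    intro z hz ζ
    rw [O15_Phm_sq]
    have h1 := hlow z hz
    have h2 := hW1 z hz
    have h0 : 0 ≤ (1 - ε) * R0 * (1 + c * ‖z.2‖ ^ 2) := by positivity
    have e1 : (2 * Real.pi * s * (1 - ε) * R0 * ζ.1 * (1 + c * ‖z.2‖ ^ 2)) ^ 2 =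
        (2 * Real.pi * s * ζ.1) ^ 2 * ((1 - ε) * R0 * (1 + c * ‖z.2‖ ^ 2)) ^ 2 := by ring
    have e2 : (s * W (pol R0 z)) ^ 2 * ((2 * Real.pi * (R0 + z.2 0) * ζ.1) ^ 2 + ‖ζ.2‖ ^ 2) =
        (2 * Real.pi * s * ζ.1) ^ 2 * ((R0 + z.2 0) * W (pol R0 z)) ^ 2 +
          (s * ‖ζ.2‖) ^ 2 * (W (pol R0 z)) ^ 2 := by ring
    have e3 : (s * w0 * ‖ζ.2‖) ^ 2 = (s * ‖ζ.2‖) ^ 2 * w0 ^ 2 := by ring
    rw [e1, e2, e3]
    exact add_le_add (mul_le_mul_of_nonneg_left (pow_le_pow_left₀ h0 h1 2) (sq_nonneg _))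
      (mul_le_mul_of_nonneg_left (pow_le_pow_left₀ hw0.le h2 2) (sq_nonneg _))
  · -- upp
    obtain ⟨B, hB⟩ := (isCompact_closedBall (0 : Vec (j + 2)) 3).exists_bound_of_continuousOn
      hWc.continuousOn
    refine ⟨s * B * (6 * Real.pi + 1), fun z hz ζ => ?_⟩
    have h1 : ‖pol R0 z‖ ≤ 3 := by
      refine (pol_norm R0 z).trans ?_
      rw [abs_of_pos hR0]
      linarith [hbd z hz]
    have h2 : W (pol R0 z) ≤ B := by
      refine (le_abs_self _).trans ?_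
      have := hB (pol R0 z) (by simpa [mem_closedBall_zero_iff] using h1)
      rwa [Real.norm_eq_abs] at this
    have hb := abs_le.1 ((O15_abs_coord z.2).trans (hbd z hz))
    have h3 : 0 ≤ R0 + z.2 0 := by linarith [hb.1]
    have h4 : R0 + z.2 0 ≤ 3 := by linarith [hb.2]
    have h5 : √((2 * Real.pi * (R0 + z.2 0) * ζ.1) ^ 2 + ‖ζ.2‖ ^ 2) ≤ (6 * Real.pi + 1) * ‖ζ‖ := by
      have n1 : |ζ.1| ≤ ‖ζ‖ := norm_fst_le ζ
      have n2 : ‖ζ.2‖ ≤ ‖ζ‖ := norm_snd_le ζ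
      rw [Real.sqrt_le_iff]
      constructor
      · positivity
      · have c1 : |2 * Real.pi * (R0 + z.2 0) * ζ.1| ≤ 6 * Real.pi * ‖ζ‖ := by
          rw [abs_mul, abs_of_nonneg (by positivity : 0 ≤ 2 * Real.pi * (R0 + z.2 0))]
          calc 2 * Real.pi * (R0 + z.2 0) * |ζ.1| ≤ 2 * Real.pi * 3 * ‖ζ‖ :=
                mul_le_mul (mul_le_mul_of_nonneg_left h4 (by positivity)) n1 (abs_nonneg _)
                  (by positivity)
            _ = 6 * Real.pi * ‖ζ‖ := by ring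
        have c2 : (2 * Real.pi * (R0 + z.2 0) * ζ.1) ^ 2 ≤ (6 * Real.pi * ‖ζ‖) ^ 2 := by
          rw [← sq_abs (2 * Real.pi * (R0 + z.2 0) * ζ.1)]
          exact pow_le_pow_left₀ (abs_nonneg _) c1 2
        have c3 : ‖ζ.2‖ ^ 2 ≤ ‖ζ‖ ^ 2 := pow_le_pow_left₀ (norm_nonneg _) n2 2
        have c4 : 0 ≤ 2 * (6 * Real.pi) * ‖ζ‖ ^ 2 := by positivity
        have c5 : ((6 * Real.pi + 1) * ‖ζ‖) ^ 2 = (6 * Real.pi * ‖ζ‖) ^ 2 + ‖ζ‖ ^ 2 +
          2 * (6 * Real.pi) * ‖ζ‖ ^ 2 := by ring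
        linarith
    unfold Phm
    have hB0 : 0 ≤ B := (hWp _).le.trans h2
    calc s * W (pol R0 z) * √((2 * Real.pi * (R0 + z.2 0) * ζ.1) ^ 2 + ‖ζ.2‖ ^ 2)
        ≤ s * B * ((6 * Real.pi + 1) * ‖ζ‖) :=
          mul_le_mul (mul_le_mul_of_nonneg_left h2 hs.le) h5 (Real.sqrt_nonneg _) (by positivity)
      _ = s * B * (6 * Real.pi + 1) * ‖ζ‖ := by ring
  · -- cont
    apply Continuous.continuousOn
    unfold Phm
    have c0 : Continuous (fun p : (ℝ × Vec (j + 1)) × (ℝ × Vec (j + 1)) => p.1.2 0) :=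
      (O15_coord (0 : Fin (j + 1))).continuous.comp (continuous_snd.comp continuous_fst)
    have c1 : Continuous (fun p : (ℝ × Vec (j + 1)) × (ℝ × Vec (j + 1)) => p.2.1) :=
      continuous_fst.comp continuous_snd
    have c2 : Continuous (fun p : (ℝ × Vec (j + 1)) × (ℝ × Vec (j + 1)) => ‖p.2.2‖) :=
      (continuous_snd.comp continuous_snd).norm
    exact (continuous_const.mul (hWc.comp (hpolc.comp continuous_fst))).mul
      (Real.continuous_sqrt.comp ((((continuous_const.mul (continuous_const.add c0)).mul c1).pow 2).add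
        (c2.pow 2)))
  · -- smooth
    intro y hy
    apply ContDiffAt.contDiffWithinAt
    have hb := abs_le.1 (O15_abs_coord y.2.1)
    have hy1 : ‖y.2.1‖ < r := hy.1
    have h3 : 0 < R0 + y.2.1 0 := by linarith [hb.1]
    have e1 : lg (Phm R0 s W) = fun y : ℝ × Vec (j + 1) × Vec (j + 1) =>
        s * W (pol R0 (y.1, y.2.1)) * √((2 * Real.pi * (R0 + y.2.1 0) * 1) ^ 2 + ‖y.2.2‖ ^ 2) := rfl
    rw [e1]
    have d0 : ContDiff ℝ 2 (fun y : ℝ × Vec (j + 1) × Vec (j + 1) => (y.1, y.2.1)) :=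
      contDiff_fst.prodMk (contDiff_fst.comp contDiff_snd)
    have d1 : ContDiff ℝ 2 (fun y : ℝ × Vec (j + 1) × Vec (j + 1) => W (pol R0 (y.1, y.2.1))) :=
      hW.comp (((pol_smooth R0).of_le (WithTop.coe_le_coe.2 (le_top : (2 : ℕ∞) ≤ ⊤))).comp d0)
    have d2 : ContDiff ℝ 2 (fun y : ℝ × Vec (j + 1) × Vec (j + 1) => y.2.1 0) :=
      ((O15_coord (0 : Fin (j + 1))).of_le (WithTop.coe_le_coe.2 (le_top : (2 : ℕ∞) ≤ ⊤))).comp
        (contDiff_fst.comp contDiff_snd)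
    have d3 : ContDiff ℝ 2 (fun y : ℝ × Vec (j + 1) × Vec (j + 1) => ‖y.2.2‖ ^ 2) :=
      (contDiff_norm_sq ℝ).comp (contDiff_snd.comp contDiff_snd)
    have d4 : ContDiff ℝ 2 (fun y : ℝ × Vec (j + 1) × Vec (j + 1) =>
        (2 * Real.pi * (R0 + y.2.1 0) * 1) ^ 2 + ‖y.2.2‖ ^ 2) :=
      (((contDiff_const.mul (contDiff_const.add d2)).mul contDiff_const).pow 2).add d3
    refine (contDiff_const.mul d1).contDiffAt.mul (d4.contDiffAt.sqrt ?_)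
    have : 0 < (2 * Real.pi * (R0 + y.2.1 0) * 1) ^ 2 + ‖y.2.2‖ ^ 2 := by positivity
    exact this.ne'
  · -- taylor
    obtain ⟨C, hC⟩ := htay
    refine ⟨2 * Real.pi * s * (7 + 3 * |C|), fun θ w u hw hu => ?_⟩
    have hb := abs_le.1 (O15_abs_coord w)
    have h3 : 0 < R0 + w 0 := by linarith [hb.1]
    have e1 : lg (Phm R0 s W) (θ, w, u) = 2 * Real.pi * s * (((R0 + w 0) * W (pol R0 (θ, w))) *
        √(1 + ‖u‖ ^ 2 / (2 * Real.pi * (R0 + w 0)) ^ 2)) :=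
      O15_Phm_eq (z := (θ, w)) (ζ := (1, u)) W h3 rfl
    have hm : |(R0 + w 0) * W (pol R0 (θ, w)) - ((1 - ε) * R0 + R0 * ‖w‖ ^ 2)| ≤ |C| * ‖w‖ ^ 3 :=
      (hC θ w hw).trans (mul_le_mul_of_nonneg_right (le_abs_self C) (by positivity))
    have key := O15_tay hR hR2 hε hε1 (norm_nonneg w) (by linarith) (norm_nonneg u) (by linarith)
      (O15_abs_coord w) (abs_nonneg C) hm rfl
    have e2 : 2 * Real.pi * s * (1 - ε) * R0 + 4 * Real.pi * s * R0 / 2 * ‖w‖ ^ 2 +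
        s * (1 - ε) / (2 * Real.pi * R0) / 2 * ‖u‖ ^ 2 = 2 * Real.pi * s * ((1 - ε) * R0 + R0 * ‖w‖ ^ 2 +
          (1 - ε) * R0 * (‖u‖ ^ 2 / (2 * Real.pi * R0) ^ 2) / 2) := by
      field_simp
      ring
    rw [e1, e2, ← mul_sub, abs_mul, abs_of_pos (by positivity : 0 < 2 * Real.pi * s)]
    calc 2 * Real.pi * s * |(R0 + w 0) * W (pol R0 (θ, w)) *
          √(1 + ‖u‖ ^ 2 / (2 * Real.pi * (R0 + w 0)) ^ 2) - ((1 - ε) * R0 + R0 * ‖w‖ ^ 2 +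
            (1 - ε) * R0 * (‖u‖ ^ 2 / (2 * Real.pi * R0) ^ 2) / 2)|
        ≤ 2 * Real.pi * s * ((7 + 3 * |C|) * (‖w‖ + ‖u‖) ^ 3) :=
          mul_le_mul_of_nonneg_left key (by positivity)
      _ = 2 * Real.pi * s * (7 + 3 * |C|) * (‖w‖ + ‖u‖) ^ 3 := by ring

theorem st_cube : ∃ C : ℝ, 0 < C ∧ ∀ x : ℝ, 0 ≤ x → Real.smoothTransition x ≤ C * x ^ 3 := by
  refine ⟨8 + 6 * Real.exp 2, by positivity, fun x hx => ?_⟩
  have hx3 : 0 ≤ x ^ 3 := by positivity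
  rcases le_or_gt (1 / 2) x with h | h
  · have h1 := Real.smoothTransition.le_one x
    have h2 : 1 ≤ 8 * x ^ 3 := by
      have : (1 / 2 : ℝ) ^ 3 ≤ x ^ 3 := pow_le_pow_left₀ (by norm_num) h 3
      linarith
    have h3 : 0 ≤ 6 * Real.exp 2 * x ^ 3 := by positivity
    linarith
  · rcases hx.eq_or_lt with h0 | h0
    · rw [← h0, Real.smoothTransition.zero_of_nonpos le_rfl]
      simp
    · have e1 : expNegInvGlue x = Real.exp (-x⁻¹) := by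
        unfold expNegInvGlue
        rw [if_neg (not_le.2 h0)]
      have e2 : expNegInvGlue (1 - x) = Real.exp (-(1 - x)⁻¹) := by
        unfold expNegInvGlue
        rw [if_neg (not_le.2 (by linarith))]
      have h1 : Real.exp (-2) ≤ expNegInvGlue (1 - x) := by
        rw [e2, Real.exp_le_exp, neg_le_neg_iff]
        rw [inv_le_comm₀ (by linarith) (by norm_num)]
        linarith
      have h2 : Real.smoothTransition x ≤ Real.exp 2 * Real.exp (-x⁻¹) := by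
        unfold Real.smoothTransition
        rw [div_le_iff₀ (Real.smoothTransition.pos_denom x), e1]
        have h3 : 0 < Real.exp (-x⁻¹) := Real.exp_pos _
        have h4 : 1 ≤ Real.exp 2 * (Real.exp (-x⁻¹) + expNegInvGlue (1 - x)) := by
          have h5 : Real.exp 2 * Real.exp (-2) = 1 := by
            rw [← Real.exp_add]
            simp
          have h6 : Real.exp 2 * Real.exp (-2) ≤
              Real.exp 2 * (Real.exp (-x⁻¹) + expNegInvGlue (1 - x)) :=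
            mul_le_mul_of_nonneg_left (by linarith) (Real.exp_pos _).le
          linarith
        nlinarith
      have h3 : Real.exp (-x⁻¹) ≤ 6 * x ^ 3 := by
        have h4 := Real.pow_div_factorial_le_exp x⁻¹ (by positivity) 3
        rw [Real.exp_neg, inv_le_comm₀ (Real.exp_pos _) (by positivity)]
        refine le_trans (le_of_eq ?_) h4
        have : ((Nat.factorial 3 : ℕ) : ℝ) = 6 := by norm_num [Nat.factorial]
        rw [this]
        field_simp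
      have h4 : Real.exp 2 * Real.exp (-x⁻¹) ≤ Real.exp 2 * (6 * x ^ 3) :=
        mul_le_mul_of_nonneg_left h3 (Real.exp_pos _).le
      nlinarith

end EscW.On
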