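import Pool.Agent.EscW.O1

set_option autoImplicit false

/-!
Project EscW, part O, module O2: the closed curve.
Contraction mapping. Complete metric space: the bounded continuous functions `f = (w, u) : ℝ →ᵇ Vec k × Vec k` of period one with `‖f θ‖ ≤ r2` (closed subset). `N θ = n θ (w θ) (u θ)`, written as `(f₁, f₂)` of O1, is continuous, periodic,
`‖N θ‖ ≤ ε1 (2 r2) + ε1 r2`, and `‖N θ - N' θ‖ ≤ 2 ε1 ‖f - f'‖`. Map: `f ↦ (W N, α⁻¹ • (P N - N.1))`: norm `≤ max C (α⁻¹ (C + 1)) · 3 ε1 r2 ≤ r2`, Lipschitz constant `≤ 1/2`, for small `ε1`. At the fixed point `u = w'` by O1 and `p = P N`: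
`p = α w' + n.1`, `p' = β w + n.2`. `ContDiff 1`: the derivatives are continuous.
-/

noncomputable section

namespace EscW.On

open Filter Topology Set EscF.T EscM EscMT MeasureTheory EscW.Ex EscW.Dn
open scoped ContDiff

variable {d m k j n : ℕ}

/-- a function with a continuous derivative is `C¹` -/
theorem O2_contDiff {E : Type*} [NormedAddCommGroup E] [NormedSpace ℝ E] {w v : ℝ → E}
    (hw : ∀ θ, HasDerivAt w (v θ) θ) (hv : Continuous v) : ContDiff ℝ 1 w := by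
  rw [contDiff_one_iff_deriv]
  refine ⟨fun θ => (hw θ).differentiableAt, ?_⟩
  have h : deriv w = v := funext fun θ => (hw θ).deriv
  rw [h]
  exact hv

theorem exists_closed {α β : ℝ} (hα : 0 < α) (hβ : 0 < β) : ∃ ε1 : ℝ, 0 < ε1 ∧ ∀ r2 : ℝ, 0 < r2 →
    ∀ N : ℝ → Vec k → Vec k → Vec k × Vec k,
      ContinuousOn (fun y : ℝ × Vec k × Vec k => N y.1 y.2.1 y.2.2) {y | ‖y.2.1‖ ≤ r2 ∧ ‖y.2.2‖ ≤ r2} →
      (∀ θ w u, ‖w‖ ≤ r2 → ‖u‖ ≤ r2 → N (θ + 1) w u = N θ w u) →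
      (∀ θ w u w' u', ‖w‖ ≤ r2 → ‖u‖ ≤ r2 → ‖w'‖ ≤ r2 → ‖u'‖ ≤ r2 →
        ‖N θ w u - N θ w' u'‖ ≤ ε1 * (‖w - w'‖ + ‖u - u'‖)) →
      (∀ θ, ‖N θ 0 0‖ ≤ ε1 * r2) →
      ∃ w p : ℝ → Vec k, ContDiff ℝ 1 w ∧ ContDiff ℝ 1 p ∧ (∀ θ, w (θ + 1) = w θ) ∧
        (∀ θ, p (θ + 1) = p θ) ∧ (∀ θ, ‖w θ‖ ≤ r2 ∧ ‖deriv w θ‖ ≤ r2) ∧
        (∀ θ, p θ = α • deriv w θ + (N θ (w θ) (deriv w θ)).1) ∧
        ∀ θ, deriv p θ = β • w θ + (N θ (w θ) (deriv w θ)).2 := by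
  obtain ⟨C, W, P, hC, hlin, hdiff⟩ := lin_ode (k := k) hα hβ
  have hαi : 0 < α⁻¹ := inv_pos.mpr hα
  set M : ℝ := (C + 1) * (1 + α⁻¹) with hM
  have hM0 : 0 < M := by positivity
  have hCM : C ≤ M := by rw [hM]; nlinarith
  have hAM : α⁻¹ * (C + 1) ≤ M := by rw [hM]; nlinarith
  refine ⟨1 / (6 * M), by positivity, ?_⟩
  intro r2 hr2 N hNc hNp hNl hN0
  set ε1 : ℝ := 1 / (6 * M) with hε1
  have hε0 : 0 < ε1 := by rw [hε1]; positivity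
  have hεM : M * ε1 = 1 / 6 := by rw [hε1]; field_simp
  -- the space
  set K : Set (BoundedContinuousFunction ℝ (Vec k × Vec k)) :=
    {f | (∀ θ, f (θ + 1) = f θ) ∧ ∀ θ, ‖f θ‖ ≤ r2} with hK
  have hKc : IsClosed K := by
    have h1 : K = (⋂ θ : ℝ, {f | f (θ + 1) = f θ}) ∩ ⋂ θ : ℝ, {f | ‖f θ‖ ≤ r2} := by
      ext f
      simp [hK]
    rw [h1]
    refine IsClosed.inter (isClosed_iInter fun θ => ?_) (isClosed_iInter fun θ => ?_)
    · exact isClosed_eq (continuous_eval_const (θ + 1))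
        (continuous_eval_const θ)
    · exact isClosed_le (continuous_eval_const θ).norm continuous_const
  have hcs : CompleteSpace K := hKc.completeSpace_coe
  -- the nonlinearity along `f`
  let nf : K → ℝ → Vec k × Vec k := fun f θ => N θ (f.1 θ).1 (f.1 θ).2
  have hf1 : ∀ (f : K) (θ : ℝ), ‖(f.1 θ).1‖ ≤ r2 := fun f θ => (norm_fst_le _).trans (f.2.2 θ)
  have hf2 : ∀ (f : K) (θ : ℝ), ‖(f.1 θ).2‖ ≤ r2 := fun f θ => (norm_snd_le _).trans (f.2.2 θ)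
  have hnc : ∀ f : K, Continuous (nf f) := by
    intro f
    have h1 : Continuous (fun θ : ℝ => ((θ, (f.1 θ).1, (f.1 θ).2) : ℝ × Vec k × Vec k)) := by
      have h2 : Continuous (fun θ : ℝ => f.1 θ) := f.1.continuous
      exact continuous_id.prodMk (h2.fst.prodMk h2.snd)
    exact hNc.comp_continuous h1 fun θ => ⟨hf1 f θ, hf2 f θ⟩
  have hnp : ∀ (f : K) (θ : ℝ), nf f (θ + 1) = nf f θ := by
    intro f θ
    show N (θ + 1) (f.1 (θ + 1)).1 (f.1 (θ + 1)).2 = N θ (f.1 θ).1 (f.1 θ).2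
    rw [f.2.1 θ]
    exact hNp θ _ _ (hf1 f θ) (hf2 f θ)
  have hnb : ∀ (f : K) (θ : ℝ), ‖nf f θ‖ ≤ 3 * ε1 * r2 := by
    intro f θ
    have h0 : ‖(0 : Vec k)‖ ≤ r2 := by rw [norm_zero]; exact hr2.le
    have h1 := hNl θ (f.1 θ).1 (f.1 θ).2 0 0 (hf1 f θ) (hf2 f θ) h0 h0
    rw [sub_zero, sub_zero] at h1
    have h2 : ‖nf f θ‖ ≤ ‖N θ (f.1 θ).1 (f.1 θ).2 - N θ 0 0‖ + ‖N θ 0 0‖ := by
      have h3 := norm_add_le (N θ (f.1 θ).1 (f.1 θ).2 - N θ 0 0) (N θ 0 0)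
      rwa [sub_add_cancel] at h3
    have h4 := hN0 θ
    have h5 : ε1 * (‖(f.1 θ).1‖ + ‖(f.1 θ).2‖) ≤ ε1 * (r2 + r2) :=
      mul_le_mul_of_nonneg_left (add_le_add (hf1 f θ) (hf2 f θ)) hε0.le
    linarith
  have hnd : ∀ (f g : K) (θ : ℝ), ‖nf f θ - nf g θ‖ ≤ 2 * ε1 * dist f g := by
    intro f g θ
    have h1 := hNl θ (f.1 θ).1 (f.1 θ).2 (g.1 θ).1 (g.1 θ).2 (hf1 f θ) (hf2 f θ) (hf1 g θ) (hf2 g θ)
    have h2 : ‖f.1 θ - g.1 θ‖ ≤ dist f g := by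
      rw [← dist_eq_norm]
      exact BoundedContinuousFunction.dist_coe_le_dist θ
    have h3 : ‖(f.1 θ).1 - (g.1 θ).1‖ ≤ dist f g := (norm_fst_le (f.1 θ - g.1 θ)).trans h2
    have h4 : ‖(f.1 θ).2 - (g.1 θ).2‖ ≤ dist f g := (norm_snd_le (f.1 θ - g.1 θ)).trans h2
    have h5 : ε1 * (‖(f.1 θ).1 - (g.1 θ).1‖ + ‖(f.1 θ).2 - (g.1 θ).2‖) ≤
        ε1 * (dist f g + dist f g) := mul_le_mul_of_nonneg_left (add_le_add h3 h4) hε0.le
    have h6 : ‖nf f θ - nf g θ‖ ≤ ε1 * (‖(f.1 θ).1 - (g.1 θ).1‖ + ‖(f.1 θ).2 - (g.1 θ).2‖) := h1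
    linarith
  -- facts on the linear problem
  have hWd : ∀ (f : K) (θ : ℝ), HasDerivAt (W (nf f)) (α⁻¹ • (P (nf f) θ - (nf f θ).1)) θ :=
    fun f => (hlin (nf f) (hnc f) (hnp f)).2.2.1
  have hPd : ∀ (f : K) (θ : ℝ), HasDerivAt (P (nf f)) (β • W (nf f) θ + (nf f θ).2) θ :=
    fun f => (hlin (nf f) (hnc f) (hnp f)).2.2.2.1
  have hWp : ∀ (f : K) (θ : ℝ), W (nf f) (θ + 1) = W (nf f) θ :=
    fun f => (hlin (nf f) (hnc f) (hnp f)).1
  have hPp : ∀ (f : K) (θ : ℝ), P (nf f) (θ + 1) = P (nf f) θ :=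
    fun f => (hlin (nf f) (hnc f) (hnp f)).2.1
  have hbd : ∀ (f : K) (θ : ℝ), ‖W (nf f) θ‖ ≤ C * (3 * ε1 * r2) ∧ ‖P (nf f) θ‖ ≤ C * (3 * ε1 * r2) :=
    fun f => (hlin (nf f) (hnc f) (hnp f)).2.2.2.2 (3 * ε1 * r2) (hnb f)
  have hWc : ∀ f : K, Continuous (W (nf f)) := fun f =>
    continuous_iff_continuousAt.2 fun θ => (hWd f θ).continuousAt
  have hPc : ∀ f : K, Continuous (P (nf f)) := fun f =>
    continuous_iff_continuousAt.2 fun θ => (hPd f θ).continuousAt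
  let uf : K → ℝ → Vec k := fun f θ => α⁻¹ • (P (nf f) θ - (nf f θ).1)
  have huc : ∀ f : K, Continuous (uf f) := fun f =>
    ((hPc f).sub (hnc f).fst).const_smul α⁻¹
  have hup : ∀ (f : K) (θ : ℝ), uf f (θ + 1) = uf f θ := by
    intro f θ
    show α⁻¹ • (P (nf f) (θ + 1) - (nf f (θ + 1)).1) = α⁻¹ • (P (nf f) θ - (nf f θ).1)
    rw [hPp f θ, hnp f θ]
  have hWb : ∀ (f : K) (θ : ℝ), ‖W (nf f) θ‖ ≤ r2 := by
    intro f θ
    have h1 := (hbd f θ).1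
    have h2 : C * (3 * ε1 * r2) ≤ M * (3 * ε1 * r2) := mul_le_mul_of_nonneg_right hCM (by positivity)
    have h3 : M * (3 * ε1 * r2) = r2 / 2 := by
      have : M * (3 * ε1 * r2) = (M * ε1) * (3 * r2) := by ring
      rw [this, hεM]; ring
    linarith
  have hub : ∀ (f : K) (θ : ℝ), ‖uf f θ‖ ≤ r2 := by
    intro f θ
    have h1 := (hbd f θ).2
    have h2 : ‖(nf f θ).1‖ ≤ 3 * ε1 * r2 := (norm_fst_le _).trans (hnb f θ)
    have h3 : ‖P (nf f) θ - (nf f θ).1‖ ≤ (C + 1) * (3 * ε1 * r2) := by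
      have h4 := norm_sub_le (P (nf f) θ) (nf f θ).1
      linarith
    have h5 : ‖uf f θ‖ = α⁻¹ * ‖P (nf f) θ - (nf f θ).1‖ := by
      show ‖α⁻¹ • (P (nf f) θ - (nf f θ).1)‖ = _
      rw [norm_smul, Real.norm_of_nonneg hαi.le]
    have h6 : α⁻¹ * ‖P (nf f) θ - (nf f θ).1‖ ≤ α⁻¹ * ((C + 1) * (3 * ε1 * r2)) :=
      mul_le_mul_of_nonneg_left h3 hαi.le
    have h7 : α⁻¹ * ((C + 1) * (3 * ε1 * r2)) ≤ M * (3 * ε1 * r2) := by
      rw [← mul_assoc]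
      exact mul_le_mul_of_nonneg_right hAM (by positivity)
    have h8 : M * (3 * ε1 * r2) = r2 / 2 := by
      have : M * (3 * ε1 * r2) = (M * ε1) * (3 * r2) := by ring
      rw [this, hεM]; ring
    linarith
  have hpb : ∀ (f : K) (θ : ℝ), ‖((W (nf f) θ, uf f θ) : Vec k × Vec k)‖ ≤ r2 := by
    intro f θ
    rw [Prod.norm_mk]
    exact max_le (hWb f θ) (hub f θ)
  -- the map
  let Φ : K → K := fun f => ⟨BoundedContinuousFunction.ofNormedAddCommGroup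
    (fun θ => ((W (nf f) θ, uf f θ) : Vec k × Vec k)) ((hWc f).prodMk (huc f)) r2 (hpb f), by
      refine ⟨fun θ => ?_, fun θ => ?_⟩
      · show ((W (nf f) (θ + 1), uf f (θ + 1)) : Vec k × Vec k) = (W (nf f) θ, uf f θ)
        rw [hWp f θ, hup f θ]
      · exact hpb f θ⟩
  have hΦ : ∀ (f : K) (θ : ℝ), (Φ f).1 θ = (W (nf f) θ, uf f θ) := fun f θ => rfl
  have hlip : ∀ f g : K, dist (Φ f) (Φ g) ≤ 1 / 2 * dist f g := by
    intro f g
    have hd0 : 0 ≤ dist f g := dist_nonneg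
    show dist (Φ f).1 (Φ g).1 ≤ _
    rw [BoundedContinuousFunction.dist_le (by positivity)]
    intro θ
    obtain ⟨h1, h2⟩ := hdiff (nf f) (nf g) (hnc f) (hnc g) (hnp f) (hnp g) (2 * ε1 * dist f g)
      (hnd f g) θ
    have h8 : M * (2 * ε1 * dist f g) = dist f g / 3 := by
      have : M * (2 * ε1 * dist f g) = (M * ε1) * (2 * dist f g) := by ring
      rw [this, hεM]; ring
    have hnn : 0 ≤ 2 * ε1 * dist f g := by positivity
    rw [hΦ, hΦ, dist_eq_norm, Prod.mk_sub_mk, Prod.norm_mk]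
    refine max_le ?_ ?_
    · have h3 : C * (2 * ε1 * dist f g) ≤ M * (2 * ε1 * dist f g) := mul_le_mul_of_nonneg_right hCM hnn
      linarith
    · have h3 : uf f θ - uf g θ = α⁻¹ • ((P (nf f) θ - P (nf g) θ) - ((nf f θ).1 - (nf g θ).1)) := by
        show α⁻¹ • (P (nf f) θ - (nf f θ).1) - α⁻¹ • (P (nf g) θ - (nf g θ).1) = _
        rw [← smul_sub]
        congr 1
        abel
      have h4 : ‖(nf f θ).1 - (nf g θ).1‖ ≤ 2 * ε1 * dist f g :=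
        (norm_fst_le (nf f θ - nf g θ)).trans (hnd f g θ)
      have h5 : ‖(P (nf f) θ - P (nf g) θ) - ((nf f θ).1 - (nf g θ).1)‖ ≤
          (C + 1) * (2 * ε1 * dist f g) := by
        have h6 := norm_sub_le (P (nf f) θ - P (nf g) θ) ((nf f θ).1 - (nf g θ).1)
        linarith
      rw [h3, norm_smul, Real.norm_of_nonneg hαi.le]
      have h6 : α⁻¹ * ‖(P (nf f) θ - P (nf g) θ) - ((nf f θ).1 - (nf g θ).1)‖ ≤
          α⁻¹ * ((C + 1) * (2 * ε1 * dist f g)) := mul_le_mul_of_nonneg_left h5 hαi.le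
      have h7 : α⁻¹ * ((C + 1) * (2 * ε1 * dist f g)) ≤ M * (2 * ε1 * dist f g) := by
        rw [← mul_assoc]
        exact mul_le_mul_of_nonneg_right hAM hnn
      linarith
  have hcontr : ContractingWith (1 / 2 : NNReal) Φ := by
    refine ⟨?_, LipschitzWith.of_dist_le_mul fun f g => ?_⟩
    · rw [← NNReal.coe_lt_coe]
      norm_num
    · have h1 := hlip f g
      have h2 : ((1 / 2 : NNReal) : ℝ) = 1 / 2 := by norm_num
      rw [h2]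
      exact h1
  have hne : Nonempty K := ⟨⟨0, by
    refine ⟨fun θ => rfl, fun θ => ?_⟩
    show ‖(0 : Vec k × Vec k)‖ ≤ r2
    rw [norm_zero]
    exact hr2.le⟩⟩
  obtain ⟨f, hf⟩ : ∃ f : K, Φ f = f := ⟨hcontr.fixedPoint, hcontr.fixedPoint_isFixedPt⟩
  have hfw : ∀ θ, (f.1 θ).1 = W (nf f) θ := by
    intro θ
    have h1 := hΦ f θ
    rw [hf] at h1
    rw [h1]
  have hfu : ∀ θ, (f.1 θ).2 = uf f θ := by
    intro θ
    have h1 := hΦ f θ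
    rw [hf] at h1
    rw [h1]
  have hder : ∀ θ, deriv (W (nf f)) θ = uf f θ := fun θ => (hWd f θ).deriv
  have hnf : ∀ θ, nf f θ = N θ (W (nf f) θ) (deriv (W (nf f)) θ) := by
    intro θ
    rw [hder θ, ← hfu θ, ← hfw θ]
  refine ⟨W (nf f), P (nf f), O2_contDiff (hWd f) (huc f),
    O2_contDiff (hPd f) (((hWc f).const_smul β).add (hnc f).snd), hWp f, hPp f, fun θ => ⟨hWb f θ, ?_⟩,
    fun θ => ?_, fun θ => ?_⟩
  · rw [hder θ]
    exact hub f θ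
  · rw [← hnf θ, hder θ]
    show P (nf f) θ = α • (α⁻¹ • (P (nf f) θ - (nf f θ).1)) + (nf f θ).1
    rw [smul_smul, mul_inv_cancel₀ hα.ne', one_smul, sub_add_cancel]
  · rw [← hnf θ]
    exact (hPd f θ).deriv

end EscW.On
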