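import Pool.Agent.EscW.O12
import Pool.Agent.EscW.O13
import Pool.Agent.EscW.O18
import Pool.Agent.EscW.D11

set_option autoImplicit false

/-!
Project EscW, part O, module O22: open and dense, dimension at least three.
As D11 (`dense_riemannian`), same choice of `ε1`, `η`, `δ` (also `δ ≤ δ0` of `roomD`), `s`, `q' = qnew ..`. Base: `baseD`, `coverD`, `roomD`; `open_abs` gives `η'`. `transfer` with `F' = nrm q'` (`IsFinsler` from `finsler_of_riem`), `Pj z = g (s • A (pol (1 + δ) z))`, `V = {z | ‖s • A (pol z)‖ < ρ}` (open), `𝒜 = AD δ n`, `r = δ/16`, `Φ0 = Phm`.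
For `F` close: `Φ z ζ = F (Pj z) (fderiv Pj z ζ)`, `φ X = g (s • A (em δ X)) = Pj (TcD δ X)` for all `X` (`pol_Tc`).
-/

noncomputable section

namespace EscW.On

open Filter Topology Set EscF.T EscM EscMT MeasureTheory EscW.Ex EscW.Dn
open scoped ContDiff

variable {d m k j n : ℕ}

/-- a metric which does not depend on time -/
theorem O22_static {M : Sub d} {F : Vec d → Vec d → ℝ} (hF : IsFinsler M F) :
    IsFinslerT M (fun x v _ => F x v) where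
  fins _ := hF
  periodic _ _ _ _ _ := rfl
  lip := ⟨0, fun x _ v _ t t' => by simp⟩

theorem O22_pol (δ : ℝ) (x : Vec (n + 3)) : (pol (1 + δ) (TcD δ x) : Vec (n + 3)) = em δ x := by
  refine pol_Tc (j := n + 1) (i := (0 : Fin (n + 3))) (R0 := 1 + δ) (ρ := Dn.rr δ) (e := Dn.em δ) ?_ ?_
  · simp [Dn.em]
  · simp [Dn.em]

theorem O22_emB (n : ℕ) : (4:ℝ) ≤ emB n := by
  unfold emB
  have : (0:ℝ) ≤ n := Nat.cast_nonneg n
  linarith

theorem O22_bd {A : Vec (n + 3) ≃L[ℝ] Vec (n + 3)} {s ρ δ : ℝ} (hs : 0 < s) (hδ : 0 < δ) (h8 : δ ≤ 1 / 8)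
    (hsA : s * (‖(A : Vec (n + 3) →L[ℝ] Vec (n + 3))‖ * emB n) ≤ ρ / 2) {z : ℝ × Vec (n + 2)}
    (hz : ‖z.2‖ ≤ 1) : ‖s • A (pol (1 + δ) z)‖ ≤ ρ / 2 := by
  have hB := O22_emB n
  have h1 : ‖(pol (1 + δ) z : Vec (n + 3))‖ ≤ emB n := by
    have h := pol_norm (j := n + 1) (1 + δ) z
    rw [abs_of_pos (by linarith : (0:ℝ) < 1 + δ)] at h
    linarith
  have h2 : ‖A (pol (1 + δ) z)‖ ≤ ‖(A : Vec (n + 3) →L[ℝ] Vec (n + 3))‖ * emB n :=
    ((A : Vec (n + 3) →L[ℝ] Vec (n + 3)).le_opNorm _).trans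
      (mul_le_mul_of_nonneg_left h1 (norm_nonneg _))
  rw [norm_smul, Real.norm_of_nonneg hs.le]
  exact (mul_le_mul_of_nonneg_left h2 hs.le).trans hsA

theorem open_riemannian {M : Sub d} {y0 : Vec d} (hy : y0 ∈ M.N)
    (hdim : 3 ≤ Module.finrank ℝ (LinearMap.range (fderiv ℝ M.r y0 : Vec d →ₗ[ℝ] Vec d)))
    {i : ℕ∞} {q : Vec d → Vec d →L[ℝ] Vec d →L[ℝ] ℝ} (hq : IsRiemannian M i q)
    {W0 : Set (Vec d)} (hW : IsOpen W0) (hy0 : y0 ∈ W0) {ε : ℝ} (hε : 0 < ε) :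
    ∃ q' : Vec d → Vec d →L[ℝ] Vec d →L[ℝ] ℝ, IsRiemannian M i q' ∧
      (∀ x ∈ M.N, ∀ v, IsTangent M x v → |q' x v v - q x v v| ≤ ε * q x v v) ∧
      (∀ x ∈ M.N, (∀ l : Fin d → ℤ, x + vz l ∉ W0) → q' x = q x) ∧
      ∃ R δ : ℝ, 0 < R ∧ 0 < δ ∧ ∀ F : Vec d → Vec d → ℝ, IsFinsler M F →
        Close2 M R δ (fun x v => nrm q' x v 0) F → ∀ κ : ℝ → ℝ, IsWeight κ → ∀ L : Lag d,
          IsNearT M κ (fun x v _ => F x v) L → InClass M L := by
  obtain ⟨n, hn⟩ : ∃ n, Module.finrank ℝ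
      (LinearMap.range (fderiv ℝ M.r y0 : Vec d →ₗ[ℝ] Vec d)) = n + 3 :=
    ⟨_, (Nat.sub_add_cancel hdim).symm⟩
  set ε1 : ℝ := min (1 / 4) (ε / 8) with hε1
  have he0 : 0 < ε1 := lt_min (by norm_num) (by linarith)
  have he4 : ε1 ≤ 1 / 4 := min_le_left _ _
  have he8 : ε1 ≤ ε / 8 := min_le_right _ _
  set η : ℝ := min 1 (ε / 2) with hη
  have hη0 : 0 < η := lt_min one_pos (by linarith)
  have hη1 : η ≤ 1 := min_le_left _ _
  have hη2 : η ≤ ε / 2 := min_le_right _ _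
  obtain ⟨W, ρ, g, g', A, hWW, hd⟩ := exists_mdata hy hn hq hW hy0 hη0
  have hg := hd.chart
  obtain ⟨δ0, hδ00, H⟩ := roomD n he0 he4
  set δ : ℝ := min (min δ0 (ε1 / 8)) (1 / 8) with hδdef
  have hδ : 0 < δ := lt_min (lt_min hδ00 (by linarith)) (by norm_num)
  have h8 : δ ≤ 1 / 8 := min_le_right _ _
  have hδ0 : δ ≤ δ0 := (min_le_left _ _).trans (min_le_left _ _)
  have hδε : δ ≤ ε1 / 8 := (min_le_left _ _).trans (min_le_right _ _)
  have hρ : 0 < ρ := hg.pos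
  have hA0 : 0 ≤ ‖(A : Vec (n + 3) →L[ℝ] Vec (n + 3))‖ := norm_nonneg _
  have hB := O22_emB n
  set s : ℝ := ρ / (2 * (‖(A : Vec (n + 3) →L[ℝ] Vec (n + 3))‖ + 1) * emB n) with hsdef
  have hs : 0 < s := by positivity
  have hsA : s * (‖(A : Vec (n + 3) →L[ℝ] Vec (n + 3))‖ * emB n) ≤ ρ / 2 := by
    have h2 : s * (2 * (‖(A : Vec (n + 3) →L[ℝ] Vec (n + 3))‖ + 1) * emB n) ≤ ρ :=
      (le_div_iff₀ (by positivity)).1 le_rfl
    have h3 : 0 ≤ s * emB n := by positivity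
    nlinarith
  have hwb : ∀ Y : Vec (n + 3), 1 - 2 * ε1 ≤ Dn.tW δ ε1 Y ∧ Dn.tW δ ε1 Y ≤ 1 := fun Y =>
    Dn.tW_bd he0 he4 hδ hδε Y
  have hwpos : ∀ Y : Vec (n + 3), 0 < Dn.tW δ ε1 Y := fun Y => by linarith [(hwb Y).1]
  have hriem : IsRiemannian M i (qnew q W ρ s g' A (Dn.tW δ ε1)) :=
    qnew_riem hq hg A hs (Dn.tW_smooth hδ h8 ε1) hwpos
  refine ⟨qnew q W ρ s g' A (Dn.tW δ ε1), hriem, fun x hx v hv => ?_, fun x _ hx => ?_, ?_⟩
  · refine (qnew_near hq hd hη0.le hη1 he0 he4 hwb hx hv).trans ?_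
    have h1 : 0 ≤ q x v v := by
      by_cases hv0 : v = 0
      · rw [hv0, map_zero]
      · exact (hq.pos x hx v hv hv0).le
    exact mul_le_mul_of_nonneg_right (by linarith) h1
  · exact qnew_off fun l hl => hx l (hWW hl)
  obtain ⟨a, bar, θ0, nn, γ, Hr⟩ := H δ hδ hδ0 s hs
  have hb := baseD (n := n) hδ h8 he0 he4 hδε hs
  have hc := coverD (n := n) hδ h8
  obtain ⟨η', hη', Ha⟩ := open_abs (d := d) hb hc Hr
  set Pj : ℝ × Vec (n + 2) → Vec d := fun z => g (s • A (pol (1 + δ) z)) with hPj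
  set V : Set (ℝ × Vec (n + 2)) := {z | ‖s • A (pol (1 + δ) z)‖ < ρ} with hVdef
  have hcont : ContDiff ℝ ∞ (fun z : ℝ × Vec (n + 2) => s • A (pol (1 + δ) z)) :=
    (A.contDiff.comp (pol_smooth (1 + δ))).const_smul s
  have hV : IsOpen V := isOpen_lt hcont.continuous.norm continuous_const
  have hball : ∀ z ∈ V, s • A (pol (1 + δ) z) ∈ Metric.ball (0 : Vec (n + 3)) ρ := fun z hz =>
    mem_ball_zero_iff.2 (show ‖s • A (pol (1 + δ) z)‖ < ρ from hz)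
  have hPs : ContDiffOn ℝ ∞ Pj V := hg.smooth.comp hcont.contDiffOn hball
  have hAV : AD δ n ⊆ V := fun z hz => lt_of_le_of_lt (O22_bd hs hδ h8 hsA hz.2) (by linarith)
  obtain ⟨R, δ', hR, hδ', Ht⟩ := transfer (M := M) ((finsler_of_riem hriem).fins 0) hV hPs
    (fun z hz => (hg.maps _ (hball z hz)).1)
    (fun θ w => by simp only [hPj, pol_per]) hAV (AD_closed δ n) (fun θ w => AD_per δ θ w)
    (fun z hz => hz.2)
    (fun z hz ζ hζ => polar_imm hg A hs (O22_bd hs hδ h8 hsA hz.2) (AD_pos hδ hz) hζ)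
    (r := δ / 16) (fun z hz => (AD_tube hδ h8 z hz).1)
    (fun z hz ζ => (qnew_pol hg A hs hwpos (O22_bd hs hδ h8 hsA hz.2) ζ 0).symm)
    hb.smooth hη'
  refine ⟨R, δ', hR, hδ', fun F hF hFc κ hκ L hL => ?_⟩
  have hnear := Ht F hF hFc
  have hbem : ∀ x : Vec (n + 3), ‖s • A (Dn.em δ x)‖ ≤ ρ / 2 := fun x => (Dn.phi_mem hg A hδ h8 hs hsA x).1
  have hφ : ∀ x : Vec (n + 3), g (s • A (Dn.em δ x)) = Pj (TcD δ x) := fun x => by
    simp only [hPj, O22_pol]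
  have hfun : (fun x : Vec (n + 3) => g (s • A (Dn.em δ x))) = Pj ∘ TcD δ := funext hφ
  have hTV : ∀ x : Vec (n + 3), TcD δ x ∈ V := fun x => by
    change ‖s • A (pol (1 + δ) (TcD δ x))‖ < ρ
    rw [O22_pol]
    linarith [hbem x]
  obtain ⟨B, len, a', c, hcal, hroom⟩ := Ha (fun z ζ => F (Pj z) (fderiv ℝ Pj z ζ)) hnear
    (fun x => g (s • A (Dn.em δ x)))
    (pull (fun x => g (s • A (Dn.em δ x))) (fun x v _ => F x v))
    (fun x _ v t => by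
      have h1 : DifferentiableAt ℝ Pj (TcD δ x) :=
        (hPs.contDiffAt (hV.mem_nhds (hTV x))).differentiableAt (by simp)
      have h2 : DifferentiableAt ℝ (TcD δ) x := hc.smooth.differentiable one_ne_zero x
      have h3 : fderiv ℝ (fun x : Vec (n + 3) => g (s • A (Dn.em δ x))) x v =
          fderiv ℝ Pj (TcD δ x) (fderiv ℝ (TcD δ) x v) := by
        rw [hfun, fderiv_comp x h1 h2]
        rfl
      simp only [pull]
      rw [h3, hφ x])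
    (fun x hx y hy l h => by
      have h1 : Dn.em δ y = Dn.em δ x := Dn.phi_inj hg A hδ h8 hs hsA y x l h
      obtain ⟨k, hk⟩ := Dn.em_inj hδ h8 hy.2 hx.2 h1
      refine ⟨k 0, ?_⟩
      rw [hc.fst, hc.fst, hk]
      simp [vz])
  exact ⟨κ, fun x v _ => F x v, n + 3, tor (n + 3), Dn.SO n, Dn.SK n, ⊥,
    fun x => g (s • A (Dn.em δ x)), B, 0, len, a', c,
    hκ, O22_static hF, hL, Dn.exists_chart hg A hδ h8 hs hsA, hcal, hroom⟩

end EscW.On
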