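import Pool.Agent.EscW.O2
import Pool.Agent.EscW.O4
import Pool.Agent.EscW.O5
import Pool.Agent.EscW.O6a

set_option autoImplicit false

/-!
Project EscW, part O, module O6: calibration of the closed curve.
Order of the constants: `ε1` from `exists_closed`, also `8 ε1 ≤ α, β`; `rc < r`, `η` from `grad_lip`; `s1`, `η` from `far_u` (with `rc/4`), `far_neg`, `far_w` (with `rc/2`), reduce `s1`; then `r2` small, `σ` small, then `η ≤ ε1 r2` and so on.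
`L = lg Φ`, `N θ w u = (gu L - α u, gw L - β w)`: `exists_closed` (hypotheses: `grad_cont`, `grad_per`, `GrLip`, `grad_zero`) gives `w, p` with `p = gu L (θ, w, w')`, `p' = gw L (θ, w, w')`, `‖w‖, ‖w'‖ ≤ r2`, so `‖p‖, ‖p'‖ ≤ (α + β + 2 ε1) r2 + ...` small.
`S θ = ∫₀^θ L (τ, w, w')`, `a = S 1`: `S' = L (θ, w, w')`, `|S' - ℓ| ≤ C (η + 2 r2)` (`val`), `|a - ℓ|` the same, `S (θ+1) = S θ + a`. `h = hf χ S a w p`, `χ` from `exists_cut rc`. `hf_small`: `‖Dh‖ ≤ C σ`.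
`cal`: at `(θ, w θ)`: `χ = 1`, `Dχ = 0` near it (`r2 < rc/2`), `hf_fd`: `a + Dh (1, w') = S' = L = Φ (1, w')`.
`le`, `only`, for `ζ ≠ 0` (both sides are zero for `ζ = 0`, `hom` with `s = 0`): if `rc/2 ≤ ‖z.2‖`: `far_w` with `b ζ = (a - ℓ) ζ.1 + Dh ζ`: strict. If `‖z.2‖ < rc/2`: `χ = 1`, `Dχ = 0`: `a ζ.1 + Dh ζ = A ζ.1 + ⟪p, ζ.2⟫`, `A = S' + ⟪p', z.2 - w⟫ - ⟪p, w'⟫`, near `ℓ`.
`ζ.1 ≤ 0`: `far_neg`, strict. `ζ.1 > 0`: divide by `ζ.1` (`hom`): `ζ = (1, u)`; if `rc/4 ≤ ‖u‖`: `far_u`, strict; if not: `joint_convex` at `(w, w')` and `(z.2, u)`: `A + ⟪p,u⟫ = L(θ,w,w') + ⟪gw, z.2 - w⟫ + ⟪gu, u - w'⟫ ≤ L (θ, z.2, u) - β/4 |z.2 - w|²`; equality implies `z.2 = w θ`.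
-/

noncomputable section

namespace EscW.On

open Filter Topology Set EscF.T EscM EscMT MeasureTheory EscW.Ex EscW.Dn
open scoped ContDiff

variable {d m k j n : ℕ}

/-- the primitive of a continuous periodic function -/
theorem O6_prim {f : ℝ → ℝ} (hf : Continuous f) (hper : ∀ θ, f (θ + 1) = f θ) {ℓ c : ℝ}
    (hc : ∀ θ, |f θ - ℓ| ≤ c) : ∃ (S : ℝ → ℝ) (a : ℝ), ContDiff ℝ 1 S ∧ S 0 = 0 ∧
      (∀ θ, S (θ + 1) = S θ + a) ∧ (∀ θ, deriv S θ = f θ) ∧ |a - ℓ| ≤ c := by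
  have hd : ∀ θ, HasDerivAt (fun θ => ∫ τ in (0:ℝ)..θ, f τ) (f θ) θ := fun θ =>
    intervalIntegral.integral_hasDerivAt_right (hf.intervalIntegrable _ _)
      (hf.stronglyMeasurableAtFilter _ _) hf.continuousAt
  have hder : deriv (fun θ => ∫ τ in (0:ℝ)..θ, f τ) = f := funext fun θ => (hd θ).deriv
  refine ⟨fun θ => ∫ τ in (0:ℝ)..θ, f τ, ∫ τ in (0:ℝ)..1, f τ, ?_, ?_, ?_, ?_, ?_⟩
  · rw [contDiff_one_iff_deriv]
    refine ⟨fun θ => (hd θ).differentiableAt, ?_⟩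
    rw [hder]
    exact hf
  · simp
  · intro θ
    have hp : Function.Periodic f 1 := hper
    have h1 := hp.intervalIntegral_add_eq θ 0
    have h2 : (∫ τ in (0:ℝ)..θ, f τ) + (∫ τ in θ..(θ + 1), f τ) = ∫ τ in (0:ℝ)..(θ + 1), f τ :=
      intervalIntegral.integral_add_adjacent_intervals (hf.intervalIntegrable _ _)
        (hf.intervalIntegrable _ _)
    rw [zero_add] at h1
    show (∫ τ in (0:ℝ)..(θ + 1), f τ) = (∫ τ in (0:ℝ)..θ, f τ) + ∫ τ in (0:ℝ)..1, f τ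
    rw [← h2, h1]
  · intro θ
    rw [hder]
  · have h1 : (∫ τ in (0:ℝ)..1, f τ) - ℓ = ∫ τ in (0:ℝ)..1, (f τ - ℓ) := by
      rw [intervalIntegral.integral_sub (hf.intervalIntegrable _ _)
        (continuous_const.intervalIntegrable _ _)]
      simp
    rw [h1]
    have h2 := intervalIntegral.norm_integral_le_of_norm_le_const (a := (0:ℝ)) (b := 1)
      (f := fun τ => f τ - ℓ) (C := c) (fun τ _ => by simpa [Real.norm_eq_abs] using hc τ)
    simpa [Real.norm_eq_abs] using h2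

theorem O6_cut {χ : Vec k → ℝ} {rc : ℝ} (h1 : ∀ w, ‖w‖ < rc / 2 → χ w = 1) {v : Vec k}
    (hv : ‖v‖ < rc / 2) : χ v = 1 ∧ fderiv ℝ χ v = 0 := by
  refine ⟨h1 v hv, ?_⟩
  have h2 : χ =ᶠ[𝓝 v] fun _ => (1 : ℝ) := by
    have h3 : ∀ᶠ w in 𝓝 v, ‖w‖ < rc / 2 := continuous_norm.continuousAt.eventually (gt_mem_nhds hv)
    filter_upwards [h3] with w hw
    exact h1 w hw
  rw [h2.fderiv_eq]
  simp

theorem ann_exists {Φ0 : ℝ × Vec k → ℝ × Vec k → ℝ} {𝒜 : Set (ℝ × Vec k)} {r ℓ c c3 α β : ℝ}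
    (hb : AnnBase Φ0 𝒜 r ℓ c c3 α β) {s : ℝ} (hs : 0 < s) : ∃ η : ℝ, 0 < η ∧
    ∀ Φ, AnnNear Φ0 Φ 𝒜 r η → ∃ (a : ℝ) (w : ℝ → Vec k) (h : ℝ × Vec k → ℝ), AnnCal Φ 𝒜 s ℓ a w h := by
  have hα := hb.α_pos
  have hβ := hb.β_pos
  obtain ⟨ε10, hε10, hclosed⟩ := exists_closed (k := k) hα hβ
  obtain ⟨ε1, hε1, hε1a, hε1b, hε1c⟩ : ∃ ε1 : ℝ, 0 < ε1 ∧ ε1 ≤ ε10 ∧ 8 * ε1 ≤ α ∧ 8 * ε1 ≤ β := by
    refine ⟨min ε10 (min (α / 8) (β / 8)), by positivity, min_le_left _ _, ?_, ?_⟩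
    · have : min ε10 (min (α / 8) (β / 8)) ≤ α / 8 := (min_le_right _ _).trans (min_le_left _ _)
      linarith
    · have : min ε10 (min (α / 8) (β / 8)) ≤ β / 8 := (min_le_right _ _).trans (min_le_right _ _)
      linarith
  obtain ⟨rc, hrc, hrcr, η1, hη1, hlip⟩ := grad_lip hb hε1
  obtain ⟨su, ηu, hsu, hηu, hfu⟩ := far_u hb (show 0 < rc / 4 by positivity)
  obtain ⟨sn, ηn, hsn, hηn, hfn⟩ := far_neg hb
  obtain ⟨sw, ηw, hsw, hηw, hfw⟩ := far_w hb (show 0 < rc / 2 by positivity)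
  obtain ⟨Cv, hCv, hval⟩ := val hb
  obtain ⟨χ, Cχ, hχ, hCχ, h01, hχC, hχ1, hχ0⟩ := exists_cut (k := k) hrc
  obtain ⟨Ch, hCh, hsmall⟩ := hf_small hrc hχ h01 hχC hχ0
  -- constants
  obtain ⟨δ0, hδ0, hδ1, hδs, hδu, hδn, hδw⟩ : ∃ δ0 : ℝ, 0 < δ0 ∧ δ0 ≤ 1 ∧ δ0 ≤ s ∧ δ0 ≤ su ∧ δ0 ≤ sn ∧
      δ0 ≤ sw := by
    refine ⟨min 1 (min s (min su (min sn sw))), by positivity, min_le_left _ _,
      (min_le_right _ _).trans (min_le_left _ _),
      (min_le_right _ _).trans ((min_le_right _ _).trans (min_le_left _ _)),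
      (min_le_right _ _).trans ((min_le_right _ _).trans ((min_le_right _ _).trans (min_le_left _ _))),
      (min_le_right _ _).trans ((min_le_right _ _).trans ((min_le_right _ _).trans (min_le_right _ _)))⟩
  obtain ⟨K, hK0, hK1, hKα, hKβ, hKv⟩ : ∃ K : ℝ, 0 < K ∧ 1 ≤ K ∧ α + 3 * ε10 ≤ K ∧ β + 3 * ε10 ≤ K ∧
      6 * Cv ≤ K := ⟨1 + α + β + 3 * ε10 + 6 * Cv, by positivity, by linarith, by linarith, by linarith,
        by linarith⟩
  have hQ : 0 < 4 + rc + Ch := by positivity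
  obtain ⟨r2, hr2, hr2c, hr2δ⟩ : ∃ r2 : ℝ, 0 < r2 ∧ r2 ≤ rc / 4 ∧ K * r2 * (4 + rc + Ch) ≤ δ0 / 2 := by
    refine ⟨min (rc / 4) (δ0 / (2 * K * (4 + rc + Ch))), by positivity, min_le_left _ _, ?_⟩
    have h1 : min (rc / 4) (δ0 / (2 * K * (4 + rc + Ch))) ≤ δ0 / (2 * K * (4 + rc + Ch)) :=
      min_le_right _ _
    rw [le_div_iff₀ (by positivity)] at h1
    linarith
  have hσ0 : 0 < K * r2 := by positivity
  obtain ⟨σ, hσ⟩ : ∃ σ, σ = K * r2 := ⟨_, rfl⟩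
  rw [← hσ] at hr2δ hσ0
  have hσrc : 0 ≤ σ * rc := by positivity
  have hσCh : 0 ≤ σ * Ch := by positivity
  have hexp : σ * (4 + rc + Ch) = 4 * σ + σ * rc + σ * Ch := by ring
  have hσ1 : σ ≤ 1 := by linarith
  have hr2σ : r2 ≤ σ := by rw [hσ]; exact le_mul_of_one_le_left hr2.le hK1
  obtain ⟨η, hη, hηa, hηb, hηc, hηd, hηe, hηf⟩ : ∃ η : ℝ, 0 < η ∧ η ≤ η1 ∧ η ≤ ηu ∧ η ≤ ηn ∧ η ≤ ηw ∧
      η ≤ ε10 * r2 ∧ η ≤ r2 := by
    refine ⟨min η1 (min ηu (min ηn (min ηw (min (ε10 * r2) r2)))), by positivity, min_le_left _ _,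
      (min_le_right _ _).trans (min_le_left _ _),
      (min_le_right _ _).trans ((min_le_right _ _).trans (min_le_left _ _)),
      (min_le_right _ _).trans ((min_le_right _ _).trans ((min_le_right _ _).trans (min_le_left _ _))),
      (min_le_right _ _).trans ((min_le_right _ _).trans ((min_le_right _ _).trans
        ((min_le_right _ _).trans (min_le_left _ _)))),
      (min_le_right _ _).trans ((min_le_right _ _).trans ((min_le_right _ _).trans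
        ((min_le_right _ _).trans (min_le_right _ _))))⟩
  refine ⟨η, hη, fun Φ hΦ => ?_⟩
  have hL := hΦ.smooth
  have hg := hlip Φ (near_mono hb.nonneg hΦ hηa)
  have hu' := hfu Φ (near_mono hb.nonneg hΦ hηb)
  have hn' := hfn Φ (near_mono hb.nonneg hΦ hηc)
  have hw' := hfw Φ (near_mono hb.nonneg hΦ hηd)
  have hr2r : r2 < r := by linarith
  obtain ⟨hgwc, hguc⟩ := grad_cont hL
  have hLper : ∀ θ w u, ‖w‖ < r → ‖u‖ < r → lg Φ (θ + 1, w, u) = lg Φ (θ, w, u) := by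
    intro θ w u hw _
    exact hΦ.per θ w (1, u) (hb.tube θ w hw)
  have hD : {y : ℝ × Vec k × Vec k | ‖y.2.1‖ ≤ r2 ∧ ‖y.2.2‖ ≤ r2} ⊆ LD k r := by
    intro y hy
    exact ⟨lt_of_le_of_lt hy.1 hr2r, lt_of_le_of_lt hy.2 hr2r⟩
  -- the closed curve
  obtain ⟨N, hN⟩ : ∃ N : ℝ → Vec k → Vec k → Vec k × Vec k, ∀ θ w u, N θ w u =
      (gu (lg Φ) (θ, w, u) - α • u, gw (lg Φ) (θ, w, u) - β • w) := ⟨_, fun _ _ _ => rfl⟩
  have hNc : ContinuousOn (fun y : ℝ × Vec k × Vec k => N y.1 y.2.1 y.2.2)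
      {y | ‖y.2.1‖ ≤ r2 ∧ ‖y.2.2‖ ≤ r2} := by
    have h1 : ContinuousOn (fun y : ℝ × Vec k × Vec k => (gu (lg Φ) y - α • y.2.2,
        gw (lg Φ) y - β • y.2.1)) {y | ‖y.2.1‖ ≤ r2 ∧ ‖y.2.2‖ ≤ r2} :=
      ((hguc.mono hD).sub (by fun_prop)).prodMk ((hgwc.mono hD).sub (by fun_prop))
    refine h1.congr (fun y _ => ?_)
    exact hN y.1 y.2.1 y.2.2
  have hNp : ∀ θ w u, ‖w‖ ≤ r2 → ‖u‖ ≤ r2 → N (θ + 1) w u = N θ w u := by
    intro θ w u hw hu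
    obtain ⟨h1, h2⟩ := grad_per hLper (θ := θ) (lt_of_le_of_lt hw hr2r) (lt_of_le_of_lt hu hr2r)
    rw [hN, hN, h1, h2]
  have hNl : ∀ θ w u w' u', ‖w‖ ≤ r2 → ‖u‖ ≤ r2 → ‖w'‖ ≤ r2 → ‖u'‖ ≤ r2 →
      ‖N θ w u - N θ w' u'‖ ≤ ε10 * (‖w - w'‖ + ‖u - u'‖) := by
    intro θ w u w' u' h1 h2 h3 h4
    have hc4 : r2 ≤ rc := by linarith
    obtain ⟨h5, h6⟩ := hg θ w u w' u' (h1.trans hc4) (h2.trans hc4) (h3.trans hc4) (h4.trans hc4)
    have h7 : ε1 * (‖w - w'‖ + ‖u - u'‖) ≤ ε10 * (‖w - w'‖ + ‖u - u'‖) :=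
      mul_le_mul_of_nonneg_right hε1a (by positivity)
    rw [hN, hN, Prod.mk_sub_mk, Prod.norm_def]
    exact max_le (h6.trans h7) (h5.trans h7)
  have hN0 : ∀ θ, ‖N θ 0 0‖ ≤ ε10 * r2 := by
    intro θ
    obtain ⟨h1, h2⟩ := grad_zero hb hΦ θ
    rw [hN, smul_zero, smul_zero, sub_zero, sub_zero, Prod.norm_def]
    exact max_le (h2.trans hηe) (h1.trans hηe)
  obtain ⟨w, p, hw, hp, hwp, hpp, hwu, hpe, hpd⟩ := hclosed r2 hr2 N hNc hNp hNl hN0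
  have hpe' : ∀ θ, p θ = gu (lg Φ) (θ, w θ, deriv w θ) := by
    intro θ
    rw [hpe θ, hN]
    show α • deriv w θ + (gu (lg Φ) (θ, w θ, deriv w θ) - α • deriv w θ) = _
    exact add_sub_cancel _ _
  have hpd' : ∀ θ, deriv p θ = gw (lg Φ) (θ, w θ, deriv w θ) := by
    intro θ
    rw [hpd θ, hN]
    show β • w θ + (gw (lg Φ) (θ, w θ, deriv w θ) - β • w θ) = _
    exact add_sub_cancel _ _
  have hNn : ∀ θ, ‖N θ (w θ) (deriv w θ)‖ ≤ 3 * ε10 * r2 := by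
    intro θ
    obtain ⟨h1, h2⟩ := hwu θ
    have h3 := hNl θ (w θ) (deriv w θ) 0 0 h1 h2 (by simpa using hr2.le) (by simpa using hr2.le)
    rw [sub_zero, sub_zero] at h3
    have h4 := hN0 θ
    have h5 : ‖N θ (w θ) (deriv w θ)‖ ≤ ‖N θ (w θ) (deriv w θ) - N θ 0 0‖ + ‖N θ 0 0‖ := by
      have := norm_add_le (N θ (w θ) (deriv w θ) - N θ 0 0) (N θ 0 0)
      simpa using this
    have h6 : ε10 * (‖w θ‖ + ‖deriv w θ‖) ≤ ε10 * (r2 + r2) :=
      mul_le_mul_of_nonneg_left (add_le_add h1 h2) hε10.le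
    linarith
  have hpn : ∀ θ, ‖p θ‖ ≤ σ := by
    intro θ
    rw [hpe θ]
    have h1 : ‖α • deriv w θ‖ ≤ α * r2 := by
      rw [norm_smul, Real.norm_eq_abs, abs_of_pos hα]
      exact mul_le_mul_of_nonneg_left (hwu θ).2 hα.le
    have h2 : ‖(N θ (w θ) (deriv w θ)).1‖ ≤ 3 * ε10 * r2 := (norm_fst_le _).trans (hNn θ)
    have h3 := norm_add_le (α • deriv w θ) (N θ (w θ) (deriv w θ)).1
    have h4 : (α + 3 * ε10) * r2 ≤ K * r2 := mul_le_mul_of_nonneg_right hKα hr2.le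
    rw [hσ]
    linarith
  have hpdn : ∀ θ, ‖deriv p θ‖ ≤ σ := by
    intro θ
    rw [hpd θ]
    have h1 : ‖β • w θ‖ ≤ β * r2 := by
      rw [norm_smul, Real.norm_eq_abs, abs_of_pos hβ]
      exact mul_le_mul_of_nonneg_left (hwu θ).1 hβ.le
    have h2 : ‖(N θ (w θ) (deriv w θ)).2‖ ≤ 3 * ε10 * r2 := (norm_snd_le _).trans (hNn θ)
    have h3 := norm_add_le (β • w θ) (N θ (w θ) (deriv w θ)).2
    have h4 : (β + 3 * ε10) * r2 ≤ K * r2 := mul_le_mul_of_nonneg_right hKβ hr2.le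
    rw [hσ]
    linarith
  have hwn : ∀ θ, ‖w θ‖ ≤ σ := fun θ => (hwu θ).1.trans hr2σ
  have hun : ∀ θ, ‖deriv w θ‖ ≤ σ := fun θ => (hwu θ).2.trans hr2σ
  -- the primitive
  have hwdc : Continuous (deriv w) := hw.continuous_deriv le_rfl
  have hwdp : ∀ θ, deriv w (θ + 1) = deriv w θ := by
    intro θ
    have h1 : (fun t => w (t + 1)) = w := funext hwp
    rw [← deriv_comp_add_const w 1 θ, h1]
  obtain ⟨f, hfe⟩ : ∃ f : ℝ → ℝ, ∀ θ, f θ = lg Φ (θ, w θ, deriv w θ) := ⟨_, fun _ => rfl⟩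
  have hfc : Continuous f := by
    have h1 : Continuous (fun θ => lg Φ (θ, w θ, deriv w θ)) := by
      refine hL.continuousOn.comp_continuous
        (continuous_id.prodMk (hw.continuous.prodMk hwdc)) (fun θ => ?_)
      exact ⟨lt_of_le_of_lt (hwu θ).1 hr2r, lt_of_le_of_lt (hwu θ).2 hr2r⟩
    have h2 : f = fun θ => lg Φ (θ, w θ, deriv w θ) := funext hfe
    rw [h2]
    exact h1
  have hfp : ∀ θ, f (θ + 1) = f θ := by
    intro θ
    rw [hfe, hfe, hwp, hwdp]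
    exact hLper θ _ _ (lt_of_le_of_lt (hwu θ).1 hr2r) (lt_of_le_of_lt (hwu θ).2 hr2r)
  have hfℓ : ∀ θ, |f θ - ℓ| ≤ 3 * Cv * r2 := by
    intro θ
    rw [hfe]
    have h1 := hval Φ η hη.le hΦ θ (w θ) (deriv w θ) (lt_of_le_of_lt (hwu θ).1 hr2r)
      (lt_of_le_of_lt (hwu θ).2 hr2r)
    obtain ⟨h2, h3⟩ := hwu θ
    refine h1.trans ?_
    have h4 : Cv * (η + ‖w θ‖ + ‖deriv w θ‖) ≤ Cv * (r2 + r2 + r2) :=
      mul_le_mul_of_nonneg_left (add_le_add (add_le_add hηf h2) h3) hCv.le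
    linarith
  obtain ⟨S, a, hS, hS0, hSp, hSd, haℓ⟩ := O6_prim hfc hfp hfℓ
  have hCvσ : 6 * Cv * r2 ≤ σ := by rw [hσ]; exact mul_le_mul_of_nonneg_right hKv hr2.le
  have hCv0 : 0 ≤ Cv * r2 := by positivity
  have hSa : ∀ θ, |deriv S θ - a| ≤ σ := by
    intro θ
    rw [hSd]
    have h1 := hfℓ θ
    have h2 : |f θ - a| ≤ |f θ - ℓ| + |a - ℓ| := by
      have := abs_sub_le (f θ) ℓ a
      rwa [abs_sub_comm ℓ a] at this
    linarith
  have hhs : ∀ z, ‖fderiv ℝ (hf χ S a w p) z‖ ≤ Ch * σ :=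
    hsmall σ a S w p hσ0.le hσ1 hS hw hp hS0 hSp hwp hpp hSa hwn hun hpn hpdn
  have hsumδ : σ * (4 + rc + Ch) < δ0 := by linarith
  have hw2 : ∀ θ, ‖w θ‖ < rc / 2 := fun θ => lt_of_le_of_lt (hwu θ).1 (by linarith)
  have haσ : |a - ℓ| ≤ σ := haℓ.trans (by linarith)
  -- the form on the tube
  have hform : ∀ (z ζ : ℝ × Vec k), ‖z.2‖ < rc / 2 → a * ζ.1 + fderiv ℝ (hf χ S a w p) z ζ =
      (f z.1 + inner ℝ (deriv p z.1) (z.2 - w z.1) - inner ℝ (p z.1) (deriv w z.1)) * ζ.1 +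
        inner ℝ (p z.1) ζ.2 := by
    intro z ζ hz
    obtain ⟨h1, h2⟩ := O6_cut hχ1 hz
    rw [hf_fd hχ hS hw hp a z ζ, h1, h2, hSd, inner_sub_right (p z.1) ζ.2, inner_smul_right]
    simp only [ContinuousLinearMap.zero_apply, zero_mul, add_zero, one_mul]
    ring
  have hA : ∀ z : ℝ × Vec k, ‖z.2‖ < rc / 2 →
      |f z.1 + inner ℝ (deriv p z.1) (z.2 - w z.1) - inner ℝ (p z.1) (deriv w z.1) - ℓ| ≤ δ0 := by
    intro z hz
    have h1 : |(inner ℝ (deriv p z.1) (z.2 - w z.1) : ℝ)| ≤ σ * (rc + 1) := by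
      refine (abs_real_inner_le_norm _ _).trans ?_
      refine mul_le_mul (hpdn z.1) ?_ (norm_nonneg _) hσ0.le
      have := norm_sub_le z.2 (w z.1)
      have := hwn z.1
      linarith
    have h2 : |(inner ℝ (p z.1) (deriv w z.1) : ℝ)| ≤ σ * 1 := by
      refine (abs_real_inner_le_norm _ _).trans ?_
      exact mul_le_mul (hpn z.1) ((hun z.1).trans hσ1) (norm_nonneg _) hσ0.le
    have h3 := (hfℓ z.1).trans (show 3 * Cv * r2 ≤ σ by linarith)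
    have h4 : σ * (rc + 1) = σ * rc + σ := by ring
    rw [h4] at h1
    rw [mul_one] at h2
    rw [abs_le] at h1 h2 h3 ⊢
    constructor <;> linarith [h1.1, h1.2, h2.1, h2.2, h3.1, h3.2]
  have hmain : ∀ z ∈ 𝒜, ∀ ζ : ℝ × Vec k, ζ ≠ 0 →
      (a * ζ.1 + fderiv ℝ (hf χ S a w p) z ζ < Φ z ζ) ∨
        (a * ζ.1 + fderiv ℝ (hf χ S a w p) z ζ ≤ Φ z ζ ∧ z.2 = w z.1) := by
    intro z hz ζ hζ
    rcases le_or_gt (rc / 2) ‖z.2‖ with hz2 | hz2
    · left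
      have h1 := hw' z hz hz2 ((a - ℓ) • ContinuousLinearMap.fst ℝ ℝ (Vec k) +
        fderiv ℝ (hf χ S a w p) z) ζ ?_ hζ
      · have h2 : ((a - ℓ) • ContinuousLinearMap.fst ℝ ℝ (Vec k) + fderiv ℝ (hf χ S a w p) z) ζ =
            (a - ℓ) * ζ.1 + fderiv ℝ (hf χ S a w p) z ζ := rfl
        rw [h2] at h1
        linarith
      · refine (norm_add_le _ _).trans ?_
        have h3 : ‖(a - ℓ) • ContinuousLinearMap.fst ℝ ℝ (Vec k)‖ ≤ |a - ℓ| * 1 := by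
          rw [norm_smul, Real.norm_eq_abs]
          exact mul_le_mul_of_nonneg_left (ContinuousLinearMap.norm_fst_le ℝ ℝ (Vec k)) (abs_nonneg _)
        have h4 := hhs z
        linarith
    · rw [hform z ζ hz2]
      have hAz := hA z hz2
      have hpz := hpn z.1
      obtain ⟨A, hAe⟩ : ∃ A : ℝ, A = f z.1 + inner ℝ (deriv p z.1) (z.2 - w z.1) -
        inner ℝ (p z.1) (deriv w z.1) := ⟨_, rfl⟩
      rw [← hAe] at hAz ⊢
      rcases le_or_gt ζ.1 0 with hζ1 | hζ1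
      · left
        exact hn' z hz A (p z.1) ζ (hAz.trans hδn) (by linarith) hζ1 hζ
      · have hζe : ζ = ζ.1 • ((1 : ℝ), ζ.1⁻¹ • ζ.2) := by
          refine Prod.ext ?_ ?_
          · show ζ.1 = ζ.1 * 1
            ring
          · show ζ.2 = ζ.1 • ζ.1⁻¹ • ζ.2
            rw [smul_smul, mul_inv_cancel₀ hζ1.ne', one_smul]
        obtain ⟨u, hu⟩ : ∃ u : Vec k, u = ζ.1⁻¹ • ζ.2 := ⟨_, rfl⟩
        rw [← hu] at hζe
        have hζ2 : ζ.2 = ζ.1 • u := by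
          rw [hu, smul_smul, mul_inv_cancel₀ hζ1.ne', one_smul]
        have hΦe : Φ z ζ = ζ.1 * Φ z (1, u) := by
          conv_lhs => rw [hζe]
          exact hΦ.hom z hz (1, u) ζ.1 hζ1.le
        have hle : A * ζ.1 + inner ℝ (p z.1) ζ.2 = ζ.1 * (A + inner ℝ (p z.1) u) := by
          rw [hζ2, inner_smul_right]
          ring
        rw [hΦe, hle]
        rcases le_or_gt (rc / 4) ‖u‖ with hu4 | hu4
        · left
          refine mul_lt_mul_of_pos_left ?_ hζ1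
          exact hu' z hz A (p z.1) u (hAz.trans hδu) (by linarith) hu4
        · have hj := joint_convex hL hrcr hε1b hε1c hε1.le hg (θ := z.1) (w := w z.1)
            (u := deriv w z.1) (w' := z.2) (u' := u) (by linarith [(hwu z.1).1]) (by linarith [(hwu z.1).2])
            (by linarith) (by linarith)
          rw [← hpe', ← hpd', ← hfe, inner_sub_right (p z.1) u] at hj
          have hΦl : lg Φ (z.1, z.2, u) = Φ z (1, u) := rfl
          rw [hΦl] at hj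
          have hα4 : 0 ≤ α / 4 * ‖u - deriv w z.1‖ ^ 2 := by positivity
          by_cases hzw : z.2 = w z.1
          · right
            refine ⟨mul_le_mul_of_nonneg_left ?_ hζ1.le, hzw⟩
            have : 0 ≤ β / 4 * ‖z.2 - w z.1‖ ^ 2 := by positivity
            rw [hAe]
            linarith
          · left
            refine mul_lt_mul_of_pos_left ?_ hζ1
            have h0 : 0 < ‖z.2 - w z.1‖ := norm_pos_iff.2 (sub_ne_zero.2 hzw)
            have : 0 < β / 4 * ‖z.2 - w z.1‖ ^ 2 := by positivity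
            rw [hAe]
            linarith
  refine ⟨a, w, hf χ S a w p, ?_⟩
  refine ⟨hw, hwp, fun θ => ?_, hf_smooth hχ hS hw hp a, hf_per χ hSp hwp hpp, ?_, fun z => ?_,
    fun z hz ζ => ?_, fun z hz ζ hζ he => ?_, fun θ => ?_⟩
  · have := hwn θ
    linarith
  · linarith
  · have := hhs z
    linarith
  · by_cases hζ : ζ = 0
    · subst hζ
      have h1 := hΦ.hom z hz 0 0 le_rfl
      rw [smul_zero, zero_mul] at h1
      rw [h1, map_zero]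
      simp
    · rcases hmain z hz ζ hζ with h | h
      · exact h.le
      · exact h.1
  · rcases hmain z hz ζ hζ with h | h
    · exact absurd he h.ne
    · exact h.2
  · have h1 := hform (θ, w θ) (1, deriv w θ) (hw2 θ)
    simp only [sub_self, inner_zero_right, add_zero, mul_one, sub_add_cancel] at h1
    rw [h1]
    exact (hfe θ).symm

end EscW.On
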