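import Pool.Agent.EscW.ONDefs

set_option autoImplicit false

/-!
Project EscW, part O, module O7: parametrisation by arc length.
`G θ = ∫_{θ0}^θ f`: strictly increasing, `C¹` with derivative `f > 0`, `G (θ + 1) = G θ + ∫₀¹ f`, unbounded in both directions, so a bijection of `ℝ`; `ϑ = G⁻¹` (`OrderIso` or `HasDerivAt.of_local_left_inverse`); `ϑ' = 1 / f (ϑ)`, continuous.
-/

noncomputable section

namespace EscW.On

open Filter Topology Set EscF.T EscM EscMT MeasureTheory EscW.Ex EscW.Dn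
open scoped ContDiff

variable {d m k j n : ℕ}

theorem exists_param {f : ℝ → ℝ} (hf : Continuous f) (hpos : ∀ θ, 0 < f θ) (hper : ∀ θ, f (θ + 1) = f θ)
    (θ0 : ℝ) : ∃ ϑ : ℝ → ℝ, ContDiff ℝ 1 ϑ ∧ ϑ 0 = θ0 ∧ (∀ σ, HasDerivAt ϑ (f (ϑ σ))⁻¹ σ) ∧
      (∀ σ, ϑ (σ + ∫ τ in (0:ℝ)..1, f τ) = ϑ σ + 1) ∧ Function.Surjective ϑ ∧
      ∀ (σ σ' : ℝ) (l : ℤ), ϑ σ = ϑ σ' + l → σ - σ' = l * ∫ τ in (0:ℝ)..1, f τ := by
  have hi : ∀ a b, IntervalIntegrable f volume a b := fun a b => hf.intervalIntegrable a b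
  have hP : Function.Periodic f 1 := hper
  have hL0 : 0 < ∫ τ in (0:ℝ)..1, f τ :=
    intervalIntegral.intervalIntegral_pos_of_pos (hi 0 1) hpos one_pos
  obtain ⟨G, hGdef⟩ : ∃ G : ℝ → ℝ, ∀ θ, G θ = ∫ τ in θ0..θ, f τ := ⟨_, fun _ => rfl⟩
  have hG : ∀ θ, HasDerivAt G (f θ) θ := fun θ => by
    have h1 : HasDerivAt (fun θ => ∫ τ in θ0..θ, f τ) (f θ) θ :=
      intervalIntegral.integral_hasDerivAt_right (hi _ _)
        hf.aestronglyMeasurable.stronglyMeasurableAtFilter hf.continuousAt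
    rwa [show G = fun θ => ∫ τ in θ0..θ, f τ from funext hGdef]
  have hGc : Continuous G := continuous_iff_continuousAt.2 fun θ => (hG θ).continuousAt
  have hGm : StrictMono G := strictMono_of_deriv_pos fun x => by
    rw [(hG x).deriv]
    exact hpos x
  have hGe : G = fun θ => (∫ τ in (0:ℝ)..θ, f τ) - ∫ τ in (0:ℝ)..θ0, f τ := by
    funext θ
    rw [hGdef, intervalIntegral.integral_interval_sub_left (hi _ _) (hi _ _)]
  have hGs : Function.Surjective G := by
    refine hGc.surjective ?_ ?_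
    · rw [hGe]
      exact tendsto_atTop_add_const_right _ _
        (hP.tendsto_atTop_intervalIntegral_of_pos hL0 one_pos)
    · rw [hGe]
      exact tendsto_atBot_add_const_right _ _
        (hP.tendsto_atBot_intervalIntegral_of_pos hL0 one_pos)
  have hGl : ∀ (θ : ℝ) (l : ℤ), G (θ + l) = G θ + l * ∫ τ in (0:ℝ)..1, f τ := by
    intro θ l
    have h2 := hP.intervalIntegral_add_zsmul_eq l θ hi
    have h3 := hP.intervalIntegral_add_eq θ 0
    simp only [zsmul_eq_mul, mul_one, zero_add] at h2 h3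
    rw [hGdef, hGdef, ← intervalIntegral.integral_add_adjacent_intervals (hi θ0 θ) (hi θ (θ + l)),
      h2, h3]
  let e := hGm.orderIsoOfSurjective G hGs
  have he : ∀ σ, G (e.symm σ) = σ := fun σ => e.apply_symm_apply σ
  have he' : ∀ θ, e.symm (G θ) = θ := fun θ => e.symm_apply_apply θ
  have hd : ∀ σ, HasDerivAt (fun σ => e.symm σ) (f (e.symm σ))⁻¹ σ := fun σ =>
    HasDerivAt.of_local_left_inverse e.symm.continuous.continuousAt (hG _) (hpos _).ne'
      (Eventually.of_forall he)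
  refine ⟨fun σ => e.symm σ, ?_, ?_, hd, fun σ => ?_, fun θ => ⟨G θ, he' θ⟩, fun σ σ' l h => ?_⟩
  · rw [contDiff_one_iff_deriv]
    refine ⟨fun σ => (hd σ).differentiableAt, ?_⟩
    rw [show deriv (fun σ => e.symm σ) = fun σ => (f (e.symm σ))⁻¹ from funext fun σ => (hd σ).deriv]
    exact (hf.comp e.symm.continuous).inv₀ fun σ => (hpos _).ne'
  · have h1 : G θ0 = 0 := by rw [hGdef, intervalIntegral.integral_same]
    have h2 := he' θ0
    rwa [h1] at h2
  · apply hGm.injective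
    have h1 := hGl (e.symm σ) 1
    rw [Int.cast_one, one_mul, he] at h1
    rw [he, h1]
  · have h1 := hGl (e.symm σ') l
    have h2 : G (e.symm σ) = G (e.symm σ' + l) := congrArg G h
    rw [he, h1, he] at h2
    rw [h2]
    ring

end EscW.On
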