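import Pool.Agent.EscW.GDefs

set_option autoImplicit false

/-!
Project EscW (MP_6acca1_an), part O: openness. Metrics near the metrics of parts D and G, in annular coordinates
`(θ, w) ∈ ℝ × ℝᵏ` around the calibrated circle; `θ` has period one.
-/

noncomputable section

namespace EscW.On

open Filter Topology Set EscF.T EscM EscMT MeasureTheory EscW.Ex EscW.Dn
open scoped ContDiff

variable {d m k j n : ℕ}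

/-- the Lagrangian `(θ, w, u) ↦ Φ (θ, w) (1, u)` of a metric in annular coordinates -/
def lg (Φ : ℝ × Vec k → ℝ × Vec k → ℝ) (y : ℝ × Vec k × Vec k) : ℝ := Φ (y.1, y.2.1) (1, y.2.2)

/-- the domain of the Lagrangian -/
def LD (k : ℕ) (r : ℝ) : Set (ℝ × Vec k × Vec k) := {y | ‖y.2.1‖ < r ∧ ‖y.2.2‖ < r}

/-- the partial gradient in `w` -/
def gw (L : ℝ × Vec k × Vec k → ℝ) (y : ℝ × Vec k × Vec k) : Vec k :=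
  (InnerProductSpace.toDual ℝ (Vec k)).symm ((fderiv ℝ L y).comp
    ((ContinuousLinearMap.inr ℝ ℝ (Vec k × Vec k)).comp (ContinuousLinearMap.inl ℝ (Vec k) (Vec k))))

/-- the partial gradient in `u` -/
def gu (L : ℝ × Vec k × Vec k → ℝ) (y : ℝ × Vec k × Vec k) : Vec k :=
  (InnerProductSpace.toDual ℝ (Vec k)).symm ((fderiv ℝ L y).comp
    ((ContinuousLinearMap.inr ℝ ℝ (Vec k × Vec k)).comp (ContinuousLinearMap.inr ℝ (Vec k) (Vec k))))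

/-- the partial gradients are near `β w`, `α u`, with Lipschitz constant `ε` of the difference, for
`|w|, |u| ≤ r` -/
def GrLip (L : ℝ × Vec k × Vec k → ℝ) (α β r ε : ℝ) : Prop :=
  ∀ θ w u w' u', ‖w‖ ≤ r → ‖u‖ ≤ r → ‖w'‖ ≤ r → ‖u'‖ ≤ r →
    ‖(gw L (θ, w, u) - β • w) - (gw L (θ, w', u') - β • w')‖ ≤ ε * (‖w - w'‖ + ‖u - u'‖) ∧
    ‖(gu L (θ, w, u) - α • u) - (gu L (θ, w', u') - α • u')‖ ≤ ε * (‖w - w'‖ + ‖u - u'‖)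

/-- the function `h`: `S' = L` along the closed curve `w`, momentum `p`, cut-off `χ` -/
def hf (χ : Vec k → ℝ) (S : ℝ → ℝ) (a : ℝ) (w p : ℝ → Vec k) (z : ℝ × Vec k) : ℝ :=
  χ z.2 * (S z.1 - a * z.1 + inner ℝ (p z.1) (z.2 - w z.1))

/-- the base metric: on the tube the Lagrangian is `ℓ + β |w|²/2 + α |u|²/2`, up to terms of third order -/
structure AnnBase (Φ0 : ℝ × Vec k → ℝ × Vec k → ℝ) (𝒜 : Set (ℝ × Vec k)) (r ℓ c c3 α β : ℝ) : Prop where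
  r_pos : 0 < r
  ℓ_pos : 0 < ℓ
  c_pos : 0 < c
  c3_pos : 0 < c3
  α_pos : 0 < α
  β_pos : 0 < β
  hom : ∀ z ∈ 𝒜, ∀ (ζ : ℝ × Vec k) (s : ℝ), 0 ≤ s → Φ0 z (s • ζ) = s * Φ0 z ζ
  per : ∀ θ w ζ, (θ, w) ∈ 𝒜 → Φ0 (θ + 1, w) ζ = Φ0 (θ, w) ζ
  nonneg : ∀ z ζ, 0 ≤ Φ0 z ζ
  tube : ∀ θ w, ‖w‖ < r → (θ, w) ∈ 𝒜
  low : ∀ z ∈ 𝒜, ∀ ζ, (ℓ * ζ.1 * (1 + c * ‖z.2‖ ^ 2)) ^ 2 + (c3 * ‖ζ.2‖) ^ 2 ≤ Φ0 z ζ ^ 2
  upp : ∃ C, ∀ z ∈ 𝒜, ∀ ζ, Φ0 z ζ ≤ C * ‖ζ‖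
  cont : ContinuousOn (fun p : (ℝ × Vec k) × (ℝ × Vec k) => Φ0 p.1 p.2) {p | p.1 ∈ 𝒜}
  smooth : ContDiffOn ℝ 2 (lg Φ0) (LD k r)
  taylor : ∃ C, ∀ θ w u, ‖w‖ < r → ‖u‖ < r →
    |lg Φ0 (θ, w, u) - (ℓ + β / 2 * ‖w‖ ^ 2 + α / 2 * ‖u‖ ^ 2)| ≤ C * (‖w‖ + ‖u‖) ^ 3

/-- `Φ` is near `Φ0`: in `C⁰` everywhere, in `C²` on the tube -/
structure AnnNear (Φ0 Φ : ℝ × Vec k → ℝ × Vec k → ℝ) (𝒜 : Set (ℝ × Vec k)) (r η : ℝ) : Prop where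
  hom : ∀ z ∈ 𝒜, ∀ (ζ : ℝ × Vec k) (s : ℝ), 0 ≤ s → Φ z (s • ζ) = s * Φ z ζ
  per : ∀ θ w ζ, (θ, w) ∈ 𝒜 → Φ (θ + 1, w) ζ = Φ (θ, w) ζ
  cont : ContinuousOn (fun p : (ℝ × Vec k) × (ℝ × Vec k) => Φ p.1 p.2) {p | p.1 ∈ 𝒜}
  c0 : ∀ z ∈ 𝒜, ∀ ζ, |Φ z ζ - Φ0 z ζ| ≤ η * Φ0 z ζ
  smooth : ContDiffOn ℝ 2 (lg Φ) (LD k r)
  c1 : ∀ y ∈ LD k r, ‖fderiv ℝ (fun y => lg Φ y - lg Φ0 y) y‖ ≤ η
  c2 : ∀ y ∈ LD k r, ‖fderiv ℝ (fderiv ℝ (fun y => lg Φ y - lg Φ0 y)) y‖ ≤ η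

/-- the form `a dθ + dh` calibrates the closed curve `θ ↦ (θ, w θ)` -/
structure AnnCal (Φ : ℝ × Vec k → ℝ × Vec k → ℝ) (𝒜 : Set (ℝ × Vec k)) (s ℓ a : ℝ) (w : ℝ → Vec k)
    (h : ℝ × Vec k → ℝ) : Prop where
  w_smooth : ContDiff ℝ 1 w
  w_per : ∀ θ, w (θ + 1) = w θ
  w_small : ∀ θ, ‖w θ‖ < s
  h_smooth : ContDiff ℝ 1 h
  h_per : ∀ θ v, h (θ + 1, v) = h (θ, v)
  a_near : |a - ℓ| < s
  h_small : ∀ z, ‖fderiv ℝ h z‖ < s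
  le : ∀ z ∈ 𝒜, ∀ ζ, a * ζ.1 + fderiv ℝ h z ζ ≤ Φ z ζ
  only : ∀ z ∈ 𝒜, ∀ ζ, ζ ≠ 0 → a * ζ.1 + fderiv ℝ h z ζ = Φ z ζ → z.2 = w z.1
  cal : ∀ θ, Φ (θ, w θ) (1, deriv w θ) = a + fderiv ℝ h (θ, w θ) (1, deriv w θ)

/-- `T` are annular coordinates on the domain `O` of `M'`, `Λ` is a lift of the tube -/
structure AnnCover (M' : Sub m) (O : Set (Vec m)) (i : Fin m) (𝒜 : Set (ℝ × Vec k)) (r : ℝ)
    (T : Vec m → ℝ × Vec k) (Λ : ℝ × Vec k → Vec m) : Prop where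
  isOpen : IsOpen O
  smooth : ContDiff ℝ 1 T
  fst : ∀ x, (T x).1 = x i
  per : ∀ (n : Fin m → ℤ) (x : Vec m), (T (x + vz n)).2 = (T x).2
  maps : ∀ x ∈ M'.N ∩ O, T x ∈ 𝒜
  inj : ∀ x ∈ M'.N ∩ O, ∀ v, IsTangent M' x v → v ≠ 0 → fderiv ℝ T x v ≠ 0
  uniq : ∀ x ∈ M'.N ∩ O, ∀ y ∈ M'.N ∩ O, T x = T y → ∃ n : Fin m → ℤ, x = y + vz n
  smooth' : ContDiffOn ℝ 1 Λ {z | ‖z.2‖ < r}
  mem : ∀ z, ‖z.2‖ < r → Λ z ∈ M'.N ∩ O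
  right : ∀ z, ‖z.2‖ < r → T (Λ z) = z
  per' : ∀ θ w, ‖w‖ < r → Λ (θ + 1, w) = Λ (θ, w) + vz (Pi.single i 1)

/-- a room for the base metric: a barrier `bar` for the exit, a second curve `γ` -/
structure RoomBase (M' : Sub m) (O K : Set (Vec m)) (i : Fin m) (r ℓ a : ℝ)
    (Φ0 : ℝ × Vec k → ℝ × Vec k → ℝ) (T : Vec m → ℝ × Vec k) (Λ : ℝ × Vec k → Vec m) (bar : Vec m → ℝ)
    (θ0 : ℝ) (n : Fin m → ℤ) (γ : ℝ → Vec m) : Prop where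
  closed : IsClosed K
  sub : K ⊆ M'.N ∩ O
  periodic : ∀ (n : Fin m → ℤ), ∀ x ∈ K, x + vz n ∈ K
  mem : ∀ z, ‖z.2‖ < r → Λ z ∈ K
  a_pos : 0 < a
  smooth : ContDiff ℝ 1 bar
  zero : ∀ z, ‖z.2‖ < r → bar (Λ z) ≤ 0
  flat : ∀ x ∈ K, ‖(T x).2‖ < r → ∀ v, IsTangent M' x v → fderiv ℝ bar x v ≤ 0
  bar_le : ∀ x ∈ K, ∀ v, IsTangent M' x v → fderiv ℝ bar x v ≤ Φ0 (T x) (fderiv ℝ T x v) - ℓ * v i
  exit : ∀ x ∈ K, x ∈ closure (M'.N \ K) → a ≤ bar x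
  n_ne : ∀ l : ℤ, n ≠ Pi.single i l
  lip : ∃ C, LipschitzWith C γ
  γ0 : γ 0 = Λ (θ0, 0)
  γ1 : γ 1 = Λ (θ0, 0) + vz n
  γK : ∀ s ∈ Icc (0:ℝ) 1, γ s ∈ K
  cost : (∫ s in (0:ℝ)..1, Φ0 (T (γ s)) (fderiv ℝ T (γ s) (deriv γ s))) - ℓ * n i < a

/-! ### metrics on `M` -/

/-- a function of the tangent vectors of `M`, extended to a neighbourhood -/
def ext (M : Sub d) (F : Vec d → Vec d → ℝ) (z : Vec d × Vec d) : ℝ := F (M.r z.1) (fderiv ℝ M.r z.1 z.2)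

/-- the nonzero vectors -/
def TD (M : Sub d) : Set (Vec d × Vec d) := {z | z.1 ∈ M.U ∧ fderiv ℝ M.r z.1 z.2 ≠ 0}

/-- `F'` is near `F` in `C²`, on the tangent vectors of length between `1 / R` and `R` -/
def Close2 (M : Sub d) (R δ : ℝ) (F F' : Vec d → Vec d → ℝ) : Prop :=
  ContDiffOn ℝ 2 (fun z => ext M F' z - ext M F z) (TD M) ∧
    ∀ x ∈ M.N, ∀ v, IsTangent M x v → 1 / R ≤ ‖v‖ → ‖v‖ ≤ R → ∀ i : ℕ, i ≤ 2 →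
      ‖iteratedFDeriv ℝ i (fun z => ext M F' z - ext M F z) (x, v)‖ ≤ δ

/-- polar coordinates around the circle of radius `R0` -/
def pol (R0 : ℝ) (z : ℝ × Vec (j + 1)) : Vec (j + 2) :=
  WithLp.toLp 2 (Fin.cons ((R0 + z.2 0) * Real.cos (2 * Real.pi * z.1))
    (Fin.cons ((R0 + z.2 0) * Real.sin (2 * Real.pi * z.1)) (fun i : Fin j => z.2 i.succ)))

/-- conformal metric in annular coordinates -/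
def Phm (R0 s : ℝ) (W : Vec (j + 2) → ℝ) (z ζ : ℝ × Vec (j + 1)) : ℝ :=
  s * W (pol R0 z) * √((2 * Real.pi * (R0 + z.2 0) * ζ.1) ^ 2 + ‖ζ.2‖ ^ 2)

/-- annular coordinates from the distance `ρ` to the axis and the Cartesian coordinates `e` -/
def Tc (i : Fin m) (R0 : ℝ) (ρ : Vec m → ℝ) (e : Vec m → Vec (j + 2)) (x : Vec m) : ℝ × Vec (j + 1) :=
  (x i, WithLp.toLp 2 (Fin.cons (ρ x - R0) (fun l : Fin j => e x l.succ.succ)))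

/-! ### parts D and G -/

/-- the annular domain of part D -/
def AD (δ : ℝ) (n : ℕ) : Set (ℝ × Vec (n + 2)) := {z | Dn.tq δ (pol (1 + δ) z) ≤ 1 / 3 ∧ ‖z.2‖ ≤ 1}

/-- the lift of the tube, part D -/
def LamD (δ : ℝ) (z : ℝ × Vec (n + 2)) : Vec (n + 3) :=
  WithLp.toLp 2 (Fin.cons z.1 (Fin.cons (Real.arctan (z.2 1 / (δ + z.2 0)) / (2 * Real.pi))
    (Fin.cons (Real.arcsin (2 * (√((δ + z.2 0) ^ 2 + z.2 1 ^ 2) / δ - 1)) / (2 * Real.pi))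
      (fun i : Fin n => Real.arcsin (z.2 i.succ.succ / δ) / (2 * Real.pi)))))

/-- the annular coordinates of part D -/
def TcD (δ : ℝ) : Vec (n + 3) → ℝ × Vec (n + 2) := Tc 0 (1 + δ) (Dn.rr δ) (Dn.em δ)

/-- the annular domain of part G -/
def AG (δ : ℝ) : Set (ℝ × Vec 1) :=
  {z | 1 / 5 ≤ Gn.tz δ (pol 1 z) ∧ Gn.tu δ (pol 1 z) ^ 2 ≤ 4 / 5 ∧ ‖z.2‖ ≤ 1 / 4}

/-- the lift of the tube, part G -/
def LamG (δ : ℝ) (z : ℝ × Vec 1) : Vec 3 :=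
  WithLp.toLp 2 (fun i => if i = 0 then z.1 else if i = 1 then Real.arcsin (z.2 0 / δ) / (2 * Real.pi) else
    1 / 2 - Real.arctan (Real.sin (2 * Real.pi * z.1) / (1 - 4 * (z.2 0 / δ))) / (2 * Real.pi))

/-- the annular coordinates of part G -/
def TcG (δ : ℝ) : Vec 3 → ℝ × Vec 1 := Tc 0 1 (Gn.rr δ) (Gn.em δ)

end EscW.On
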