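import Pool.Agent.EscW.ONDefs

set_option autoImplicit false

/-!
Project EscW (MP_6acca1_an), part OT: openness for time-periodic families of metrics (see part O for a single
metric). `t` is the time, `θ` the angle of period one, `(θ, w)` are annular coordinates.
-/

noncomputable section

namespace EscW.Ot

open Filter Topology Set EscF.T EscM EscMT MeasureTheory EscW.Ex EscW.Dn EscW.On
open scoped ContDiff

variable {d m k j n : ℕ}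

/-! ### the linear operator of part O, module O1 -/

/-- periodic solution of `ρ' = μ ρ + g` -/
def rp (μ : ℝ) (g : ℝ → Vec k) (θ : ℝ) : Vec k :=
  (-(1 - Real.exp (-μ))⁻¹) • ∫ τ in (0:ℝ)..1, Real.exp (-(μ * τ)) • g (θ + τ)

/-- periodic solution of `ρ' = - μ ρ + g` -/
def rm (μ : ℝ) (g : ℝ → Vec k) (θ : ℝ) : Vec k :=
  (1 - Real.exp (-μ))⁻¹ • ∫ τ in (0:ℝ)..1, Real.exp (-(μ * τ)) • g (θ - τ)

/-- `α⁻¹ (Pf - f₁)` is the derivative of `Wf`, and `β Wf + f₂` the one of `Pf` -/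
def Wf (α β : ℝ) (f : ℝ → Vec k × Vec k) (θ : ℝ) : Vec k :=
  (2 * √(α * β))⁻¹ • (rp √(β / α) (fun s => (f s).2 - √(β / α) • (f s).1) θ -
    rm √(β / α) (fun s => (f s).2 + √(β / α) • (f s).1) θ)

def Pf (α β : ℝ) (f : ℝ → Vec k × Vec k) (θ : ℝ) : Vec k :=
  (1 / 2 : ℝ) • (rp √(β / α) (fun s => (f s).2 - √(β / α) • (f s).1) θ +
    rm √(β / α) (fun s => (f s).2 + √(β / α) • (f s).1) θ)

/-- the pair `(Wf, Wf')` -/
def Sf (α β : ℝ) (f : ℝ → Vec k × Vec k) (θ : ℝ) : Vec k × Vec k :=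
  (Wf α β f θ, α⁻¹ • (Pf α β f θ - (f θ).1))

/-! ### functions of `(t, θ)` -/

/-- `f t θ` is continuous, and of class `C¹` in `t` -/
def C10 {E : Type*} [NormedAddCommGroup E] [NormedSpace ℝ E] (f : ℝ → ℝ → E) : Prop :=
  Continuous (fun y : ℝ × ℝ => f y.1 y.2) ∧
    ∃ f' : ℝ → ℝ → E, Continuous (fun y : ℝ × ℝ => f' y.1 y.2) ∧
      ∀ t θ, HasDerivAt (fun t => f t θ) (f' t θ) t

/-- period one in both variables -/
def Per2 {E : Type*} (f : ℝ → ℝ → E) : Prop :=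
  (∀ t θ, f (t + 1) θ = f t θ) ∧ ∀ t θ, f t (θ + 1) = f t θ

/-- the nonlinearity `N t θ (w, u)` -/
structure NT (N : ℝ → ℝ → Vec k × Vec k → Vec k × Vec k) (r2 r3 ε : ℝ) : Prop where
  r2_pos : 0 < r2
  r23 : r2 < r3
  smooth : ContDiffOn ℝ 1 (fun y : ℝ × ℝ × (Vec k × Vec k) => N y.1 y.2.1 y.2.2) {y | ‖y.2.2‖ < r3}
  per_t : ∀ t θ y, ‖y‖ < r3 → N (t + 1) θ y = N t θ y
  per_θ : ∀ t θ y, ‖y‖ < r3 → N t (θ + 1) y = N t θ y
  lip : ∀ t θ y y', ‖y‖ ≤ r2 → ‖y'‖ ≤ r2 → ‖N t θ y - N t θ y'‖ ≤ ε * ‖y - y'‖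
  zero : ∀ t θ, ‖N t θ 0‖ ≤ ε * r2

/-- `f` is a family of fixed points -/
structure FixT (α β : ℝ) (N : ℝ → ℝ → Vec k × Vec k → Vec k × Vec k) (r2 : ℝ)
    (f : ℝ → ℝ → Vec k × Vec k) : Prop where
  cont : Continuous (fun y : ℝ × ℝ => f y.1 y.2)
  per_t : ∀ t θ, f (t + 1) θ = f t θ
  per_θ : ∀ t θ, f t (θ + 1) = f t θ
  small : ∀ t θ, ‖f t θ‖ ≤ r2
  fix : ∀ t θ, f t θ = Sf α β (fun s => N t s (f t s)) θ

/-- the nonlinearity of a family of metrics -/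
def Nl (α β : ℝ) (Φ : ℝ → ℝ × Vec k → ℝ × Vec k → ℝ) (t θ : ℝ) (y : Vec k × Vec k) : Vec k × Vec k :=
  (gu (lg (Φ t)) (θ, y.1, y.2) - α • y.2, gw (lg (Φ t)) (θ, y.1, y.2) - β • y.1)

/-- the Lagrangian along the curve -/
def fl (Φ : ℝ × Vec k → ℝ × Vec k → ℝ) (w u : ℝ → Vec k) (θ : ℝ) : ℝ := lg Φ (θ, w θ, u θ)

/-- its integral -/
def Sl (Φ : ℝ × Vec k → ℝ × Vec k → ℝ) (w u : ℝ → Vec k) (θ : ℝ) : ℝ := ∫ τ in (0:ℝ)..θ, fl Φ w u τ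

/-- the function `h` for the metric `Φ` and the closed curve `w`, with derivative `u` and momentum `p` -/
def hl (χ : Vec k → ℝ) (Φ : ℝ × Vec k → ℝ × Vec k → ℝ) (w u p : ℝ → Vec k) (z : ℝ × Vec k) : ℝ :=
  hf χ (Sl Φ w u) (Sl Φ w u 1) w p z

/-- `w` is a closed geodesic of the metric `Φ`, `u` its derivative, `p` its momentum -/
structure CurveAt (Φ : ℝ × Vec k → ℝ × Vec k → ℝ) (r2 : ℝ) (w u p : ℝ → Vec k) : Prop where
  u_cont : Continuous u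
  dw : ∀ θ, HasDerivAt w (u θ) θ
  dp : ∀ θ, HasDerivAt p (gw (lg Φ) (θ, w θ, u θ)) θ
  p_eq : ∀ θ, p θ = gu (lg Φ) (θ, w θ, u θ)
  w_per : ∀ θ, w (θ + 1) = w θ
  u_per : ∀ θ, u (θ + 1) = u θ
  w_small : ∀ θ, ‖w θ‖ ≤ r2
  u_small : ∀ θ, ‖u θ‖ ≤ r2

/-! ### families of metrics -/

/-- a family of metrics near `Φ0`, of period one in `t` and of class `C²` on the tube -/
structure AnnNearT (Φ0 : ℝ × Vec k → ℝ × Vec k → ℝ) (Φ : ℝ → ℝ × Vec k → ℝ × Vec k → ℝ)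
    (𝒜 : Set (ℝ × Vec k)) (r η : ℝ) : Prop where
  near : ∀ t, AnnNear Φ0 (Φ t) 𝒜 r η
  per_t : ∀ t, ∀ z ∈ 𝒜, ∀ ζ, Φ (t + 1) z ζ = Φ t z ζ
  smooth : ContDiffOn ℝ 2 (fun y : ℝ × (ℝ × Vec k × Vec k) => lg (Φ y.1) y.2) {y | y.2 ∈ LD k r}

/-- the closed geodesics of a family of metrics, of class `C¹` in the time -/
structure CurveT (Φ : ℝ → ℝ × Vec k → ℝ × Vec k → ℝ) (r2 : ℝ) (w u p : ℝ → ℝ → Vec k) : Prop where
  curve : ∀ t, CurveAt (Φ t) r2 (w t) (u t) (p t)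
  w_t : ∀ t θ, w (t + 1) θ = w t θ
  u_t : ∀ t θ, u (t + 1) θ = u t θ
  w_reg : C10 w
  u_reg : C10 u
  p_reg : C10 p
  f_reg : C10 (fun t => fl (Φ t) (w t) (u t))
  g_reg : C10 (fun t θ => gw (lg (Φ t)) (θ, w t θ, u t θ))

/-- `F'` is a family near `F` in `C²`, on the tangent vectors of length between `1 / R` and `R`, and the
difference is of class `C²` in all variables -/
structure Close2T (M : Sub d) (R δ : ℝ) (F : Vec d → Vec d → ℝ) (F' : Vec d → Vec d → ℝ → ℝ) : Prop where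
  smooth : ContDiffOn ℝ 2 (fun z : (Vec d × Vec d) × ℝ => ext M (fun x v => F' x v z.2) z.1 - ext M F z.1)
    {z | z.1 ∈ TD M}
  close : ∀ t, Close2 M R δ F (fun x v => F' x v t)

end EscW.Ot
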