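import Pool.Agent.EscW.PDefs
import Pool.Agent.EscT.C6b
import Pool.Agent.EscT.A2b
import Pool.Agent.EscG.A1
import Pool.Agent.EscG.B1

/-!
Project EscT (MP_6acca1_an), module C6b: costs of controls against flux and excess.
-/

set_option linter.unusedSectionVars false
set_option linter.unusedVariables false

noncomputable section

namespace EscPa

open MeasureTheory Set Filter Topology Esc EscF EscG EscT EscP
open scoped ContDiff

section MID

variable {ι : Type} [Fintype ι] {d : ℕ} {E : Type*} [NormedAddCommGroup E] [InnerProductSpace ℝ E]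
  [FiniteDimensional ℝ E] {D : GT ι d E} {p : GP} {m M Mf : ℝ} {L : LP} {Φ : ℝ → ℝ → ℝ} {ll l : E → E → ℝ → ℝ}
  {f f' : E → ℝ → ℝ}

/-! ### auxiliary facts -/

theorem C6b_traj {u : ℝ → E} (hu : Adm u) (t t' r : ℝ) (x : E) :
    traj t' (traj t x u t') u r = traj t x u r := by
  unfold traj
  rw [add_assoc, intervalIntegral.integral_add_adjacent_intervals (hu.ii _ _) (hu.ii _ _)]

/-- fundamental theorem of calculus along trajectories, time dependent functions -/
theorem C6b_ftc {G : E × ℝ → ℝ} (hG : ContDiff ℝ 1 G) {u : ℝ → E} (hu : Adm u) (a : ℝ) (z : E)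
    (b : ℝ) : G (traj a z u b, b) - G (z, a) =
      ∫ t in a..b, fderiv ℝ G (traj a z u t, t) (u t, 1) := by
  obtain ⟨C, hC⟩ := hu.2
  have hC0 : 0 ≤ C := (norm_nonneg _).trans (hC 0)
  have ha : traj a z u a = z := by simp [traj]
  have hX : ∀ s t, ‖((traj a z u t, t) : E × ℝ) - (traj a z u s, s)‖ ≤ (C + 1) * |t - s| := by
    intro s t
    rw [Prod.norm_def]
    refine max_le ?_ ?_
    · have h1 := B1_traj_lip hu hC a z s t
      have h2 := abs_nonneg (t - s)
      change ‖traj a z u t - traj a z u s‖ ≤ _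
      linarith
    · change ‖t - s‖ ≤ _
      rw [Real.norm_eq_abs]
      have h2 := mul_nonneg hC0 (abs_nonneg (t - s))
      linarith
  have hball : ∀ t ∈ uIcc a b, ((traj a z u t, t) : E × ℝ) ∈
      Metric.closedBall ((z, a) : E × ℝ) ((C + 1) * |b - a|) := by
    intro t ht
    rw [Metric.mem_closedBall, dist_eq_norm]
    have h1 := hX a t
    rw [ha] at h1
    refine h1.trans (mul_le_mul_of_nonneg_left ?_ (by linarith))
    exact abs_sub_left_of_mem_uIcc ht
  obtain ⟨K, hK⟩ := (isCompact_closedBall ((z, a) : E × ℝ)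
    ((C + 1) * |b - a|)).exists_bound_of_continuousOn (hG.continuous_fderiv one_ne_zero).continuousOn
  have hlip : ∀ x ∈ Metric.closedBall ((z, a) : E × ℝ) ((C + 1) * |b - a|),
      ∀ y ∈ Metric.closedBall ((z, a) : E × ℝ) ((C + 1) * |b - a|),
      ‖G y - G x‖ ≤ max K 0 * ‖y - x‖ := by
    intro x hx y hy
    exact (convex_closedBall ((z, a) : E × ℝ) ((C + 1) * |b - a|)).norm_image_sub_le_of_norm_fderiv_le
      (fun w _ => (hG.differentiable one_ne_zero).differentiableAt)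
      (fun w hw => (hK w hw).trans (le_max_left _ _)) hx hy
  have hac : AbsolutelyContinuousOnInterval (fun t => G (traj a z u t, t)) a b := by
    refine LipschitzOnWith.absolutelyContinuousOnInterval (K := (max K 0 * (C + 1)).toNNReal) ?_
    refine LipschitzOnWith.of_dist_le_mul fun s hs t ht => ?_
    rw [dist_eq_norm, dist_eq_norm, Real.coe_toNNReal _ (mul_nonneg (le_max_right _ _)
      (by linarith)), Real.norm_eq_abs (s - t)]
    refine (hlip _ (hball t ht) _ (hball s hs)).trans ?_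
    rw [mul_assoc]
    exact mul_le_mul_of_nonneg_left (hX t s) (le_max_right _ _)
  have h1 := hac.integral_deriv_eq_sub
  simp only [ha] at h1
  rw [← h1]
  refine intervalIntegral.integral_congr_ae ?_
  filter_upwards [B1_traj_deriv hu a z] with t ht _
  exact (((hG.differentiable one_ne_zero).differentiableAt.hasFDerivAt).comp_hasDerivAt t
    (ht.prodMk (hasDerivAt_id t))).deriv

theorem C6b_F0 (h : D.Ok0) (x v : E) (t : ℝ) : 0 ≤ D.F x v t :=
  (mul_nonneg (h.fr0 t).fins.mF_pos.le (norm_nonneg v)).trans ((h.fr0 t).fins.low x v)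

theorem C6b_κ (h : D.Ok0) (t : ℝ) : 0 < D.κ t := by
  by_contra hn
  have h1 := h.κ_pos t
  have h2 := h.A_pos
  have h3 : D.A * D.κ t ≤ 0 := mul_nonpos_of_nonneg_of_nonpos h2.le (not_lt.1 hn)
  linarith

theorem C6b_hd (h : D.Ok0) (x : E) (t : ℝ) : HasFDerivAt (fun y => D.B y t)
    ((fderiv ℝ (fun p : E × ℝ => D.B p.1 p.2) (x, t)).comp (ContinuousLinearMap.inl ℝ E ℝ)) x := by
  have h1 : HasFDerivAt (fun p : E × ℝ => D.B p.1 p.2)
      (fderiv ℝ (fun p : E × ℝ => D.B p.1 p.2) (x, t)) (x, t) :=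
    (h.B_smooth.differentiable one_ne_zero).differentiableAt.hasFDerivAt
  have h2 : HasFDerivAt (fun e : E => (e, t)) (ContinuousLinearMap.inl ℝ E ℝ) x :=
    hasFDerivAt_prodMk_left x t
  exact HasFDerivAt.comp (g := fun p : E × ℝ => D.B p.1 p.2) x h1 h2

/-- `dB` as a derivative on `E × ℝ` -/
theorem C6b_dB (h : D.Ok0) (x v : E) (t : ℝ) :
    D.dB x t v = fderiv ℝ (fun p : E × ℝ => D.B p.1 p.2) (x, t) (v, 0) := by
  have h2 := (C6b_hd h x t).fderiv
  unfold GT.dB
  rw [h2]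
  rfl

/-- `Bt` as a derivative on `E × ℝ` -/
theorem C6b_Bt (h : D.Ok0) (x : E) (t : ℝ) :
    HasDerivAt (fun r => D.B x r) (D.Bt x t) t ∧
    D.Bt x t = fderiv ℝ (fun p : E × ℝ => D.B p.1 p.2) (x, t) (0, 1) := by
  have h1 : HasFDerivAt (fun p : E × ℝ => D.B p.1 p.2)
      (fderiv ℝ (fun p : E × ℝ => D.B p.1 p.2) (x, t)) (x, t) :=
    (h.B_smooth.differentiable one_ne_zero).differentiableAt.hasFDerivAt
  have h2 : HasDerivAt (fun r : ℝ => ((x, r) : E × ℝ)) (0, 1) t :=
    (hasDerivAt_const t x).prodMk (hasDerivAt_id t)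
  have h3 : HasDerivAt (fun r => D.B x r)
      (fderiv ℝ (fun p : E × ℝ => D.B p.1 p.2) (x, t) (0, 1)) t := h1.comp_hasDerivAt t h2
  have h4 : D.Bt x t = fderiv ℝ (fun p : E × ℝ => D.B p.1 p.2) (x, t) (0, 1) := h3.deriv
  exact ⟨by rw [h4]; exact h3, h4⟩

theorem C6b_dBc (h : D.Ok0) : Continuous (fun p : E × E × ℝ => D.dB p.1 p.2.2 p.2.1) := by
  have h1 : (fun p : E × E × ℝ => D.dB p.1 p.2.2 p.2.1) = fun p : E × E × ℝ =>
      fderiv ℝ (fun p : E × ℝ => D.B p.1 p.2) (p.1, p.2.2) (p.2.1, 0) := by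
    ext p
    exact C6b_dB h _ _ _
  rw [h1]
  exact ((h.B_smooth.continuous_fderiv one_ne_zero).comp
    (continuous_fst.prodMk (continuous_snd.comp continuous_snd))).clm_apply
    ((continuous_fst.comp continuous_snd).prodMk continuous_const)

theorem C6b_Btc (h : D.Ok0) : Continuous (fun p : E × ℝ => D.Bt p.1 p.2) := by
  have h1 : (fun p : E × ℝ => D.Bt p.1 p.2) = fun p : E × ℝ =>
      fderiv ℝ (fun p : E × ℝ => D.B p.1 p.2) p (0, 1) := by
    ext p
    exact (C6b_Bt h p.1 p.2).2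
  rw [h1]
  exact (h.B_smooth.continuous_fderiv one_ne_zero).clm_apply continuous_const

theorem C6b_cbx (h : D.Ok0) : CB 0 (fun x v t => D.F x v t - D.dB x t v) :=
  ⟨h.F_cont.sub (C6b_dBc h), fun x v t => by
    have := h.B_le x v t
    linarith⟩

theorem C6b_κc (h : D.Ok0) : Continuous (fun p : E × E × ℝ => D.κ p.2.2) :=
  h.κ_cont.comp (continuous_snd.comp continuous_snd)

theorem C6b_cb1 (h : D.Ok0) : CB 0 (fun x v t => D.F x v t) :=
  ⟨h.F_cont, fun x v t => by
    have := C6b_F0 h x v t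
    linarith⟩

theorem C6b_cb2 (h : D.Ok0) : CB 0 (fun x v t => D.κ t * D.F x v t ^ 2 / 2) :=
  ⟨((C6b_κc h).mul (h.F_cont.pow 2)).div_const 2, fun x v t => by
    have := mul_nonneg (C6b_κ h t).le (sq_nonneg (D.F x v t))
    linarith⟩

theorem C6b_cb3 (h : D.Ok0) (s : ℝ) : CB 0 (fun x v t => (D.κ t * D.F x v t - s) ^ 2) :=
  ⟨(((C6b_κc h).mul h.F_cont).sub continuous_const).pow 2, fun x v t => by
    have := sq_nonneg (D.κ t * D.F x v t - s)
    linarith⟩

theorem C6b_cb4 (h : D.Ok0) (s : ℝ) :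
    CB 0 (fun x v t => (D.κ t * D.F x v t - s) ^ 2 / (2 * D.κ t)) :=
  ⟨(C6b_cb3 h s).cont.div (continuous_const.mul (C6b_κc h)) (fun p => by
      have := C6b_κ h p.2.2
      positivity), fun x v t => by
    have h1 := C6b_κ h t
    have : 0 ≤ (D.κ t * D.F x v t - s) ^ 2 / (2 * D.κ t) := by positivity
    linarith⟩

theorem C6b_cb5 (h : D.Ok0) (s : ℝ) : CB 0 (fun x v t => |D.κ t * D.F x v t - s|) :=
  ⟨(((C6b_κc h).mul h.F_cont).sub continuous_const).abs, fun x v t => by
    have := abs_nonneg (D.κ t * D.F x v t - s)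
    linarith⟩

theorem C6b_iBt (h : D.Ok0) {u : ℝ → E} (hu : Adm u) (t : ℝ) (x : E) (a b : ℝ) :
    IntervalIntegrable (fun r => D.Bt (traj t x u r) r) volume a b :=
  ((C6b_Btc h).comp ((traj_cont hu t x).prodMk continuous_id)).intervalIntegrable _ _

theorem C6b_iκ (h : D.Ok0) (a b : ℝ) :
    IntervalIntegrable (fun r => (D.κ r)⁻¹) volume a b :=
  (h.κ_cont.inv₀ fun r => (C6b_κ h r).ne').intervalIntegrable _ _

/-! ### the excess -/

theorem exc_nonneg (h : D.Ok0) {t t' : ℝ} (htt : t ≤ t') (x : E) {u : ℝ → E} (hu : Adm u) :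
    0 ≤ D.exc t t' x u :=
  intervalIntegral.integral_nonneg htt fun r _ => sub_nonneg.2 (h.B_le _ _ _)

theorem exc_add (h : D.Ok0) {t t' t'' : ℝ} (htt : t ≤ t') (htt' : t' ≤ t'') (x : E) {u : ℝ → E}
    (hu : Adm u) : D.exc t t'' x u = D.exc t t' x u + D.exc t' t'' (traj t x u t') u := by
  unfold GT.exc
  simp only [C6b_traj hu]
  exact (intervalIntegral.integral_add_adjacent_intervals ((C6b_cbx h).ii hu t x t t')
    ((C6b_cbx h).ii hu t x t' t'')).symm

/-- increment of `B` along a control -/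
theorem C6b_incr (h : D.Ok0) (t t' : ℝ) (x : E) {u : ℝ → E} (hu : Adm u) :
    D.B (traj t x u t') t' - D.B x t =
      ∫ r in t..t', (D.dB (traj t x u r) r (u r) + D.Bt (traj t x u r) r) := by
  have h1 := C6b_ftc h.B_smooth hu t x t'
  rw [h1]
  refine intervalIntegral.integral_congr fun r _ => ?_
  rw [C6b_dB h, (C6b_Bt h _ _).2, ← map_add]
  simp

/-- the cost of a control: kinetic part, excess, flux -/
theorem cst_eq (h : D.Ok0) (hl : TG D.β m M ll) (s : ℝ) {t t' : ℝ} (htt : t ≤ t') (x : E) {u : ℝ → E}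
    (hu : Adm u) : (D0 D).cst ll s t t' x u = D.corr s t t' x (traj t x u t') +
      (∫ r in t..t', (D.κ r * D.F (traj t x u r) (u r) r - s) ^ 2 / (2 * D.κ r)) + s * D.exc t t' x u +
      ∫ r in t..t', (ll (traj t x u r) (u r) r - D.κ r * D.F (traj t x u r) (u r) r ^ 2 / 2 -
        s * D.Bt (traj t x u r) r + s ^ 2 / 2 * (1 - (D.κ r)⁻¹)) := by
  have ix : IntervalIntegrable (fun r => D.F (traj t x u r) (u r) r -
      D.dB (traj t x u r) r (u r)) volume t t' := (C6b_cbx h).ii hu t x t t'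
  have i1 : IntervalIntegrable (fun r => D.F (traj t x u r) (u r) r) volume t t' :=
    (C6b_cb1 h).ii hu t x t t'
  have i2 : IntervalIntegrable (fun r => D.κ r * D.F (traj t x u r) (u r) r ^ 2 / 2) volume t t' :=
    (C6b_cb2 h).ii hu t x t t'
  have i4 : IntervalIntegrable (fun r => (D.κ r * D.F (traj t x u r) (u r) r - s) ^ 2 /
      (2 * D.κ r)) volume t t' := (C6b_cb4 h s).ii hu t x t t'
  have i3 : IntervalIntegrable (fun r => ll (traj t x u r) (u r) r) volume t t' :=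
    hl.cb.ii hu t x t t'
  have iB := C6b_iBt h hu t x t t'
  have iκ : IntervalIntegrable (fun r => s ^ 2 / 2 * (1 - (D.κ r)⁻¹)) volume t t' :=
    ((by simp : IntervalIntegrable (fun _ : ℝ => (1 : ℝ)) volume t t').sub
      (C6b_iκ h t t')).const_mul _
  have id : IntervalIntegrable (fun r => D.dB (traj t x u r) r (u r)) volume t t' := by
    have := i1.sub ix
    refine this.congr ?_
    intro r _
    simp
  have hI := C6b_incr h t t' x hu
  rw [intervalIntegral.integral_add id iB] at hI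
  have e1 : (∫ r in t..t', (D.κ r * D.F (traj t x u r) (u r) r - s) ^ 2 / (2 * D.κ r)) +
      s * D.exc t t' x u +
      (∫ r in t..t', (ll (traj t x u r) (u r) r - D.κ r * D.F (traj t x u r) (u r) r ^ 2 / 2 -
        s * D.Bt (traj t x u r) r + s ^ 2 / 2 * (1 - (D.κ r)⁻¹))) =
      ∫ r in t..t', ((ll (traj t x u r) (u r) r - s * (D.dB (traj t x u r) r (u r) +
        D.Bt (traj t x u r) r)) + s ^ 2 / 2) := by
    unfold GT.exc
    rw [← intervalIntegral.integral_const_mul, ← intervalIntegral.integral_add i4 (ix.const_mul s),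
      ← intervalIntegral.integral_add (i4.add (ix.const_mul s))
        (((i3.sub i2).sub (iB.const_mul s)).add iκ)]
    refine intervalIntegral.integral_congr fun r _ => ?_
    have hκ := (C6b_κ h r).ne'
    field_simp
    ring
  have e2 : (∫ r in t..t', ((ll (traj t x u r) (u r) r - s * (D.dB (traj t x u r) r (u r) +
        D.Bt (traj t x u r) r)) + s ^ 2 / 2)) = actl ll t t' x u -
        s * (D.B (traj t x u t') t' - D.B x t) + s ^ 2 / 2 * (t' - t) := by
    rw [intervalIntegral.integral_add (i3.sub ((id.add iB).const_mul s)) (by simp),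
      intervalIntegral.integral_sub i3 ((id.add iB).const_mul s),
      intervalIntegral.integral_const_mul, intervalIntegral.integral_add id iB, ← hI,
      intervalIntegral.integral_const, smul_eq_mul]
    unfold actl
    ring
  rw [add_assoc, add_assoc, ← add_assoc _ (s * D.exc t t' x u), e1, e2]
  unfold GD.cst GT.corr GT.bb
  change actl ll t t' x u - s * (D.B (traj t x u t') 0 - D.B x 0) + s ^ 2 / 2 * (t' - t) = _
  ring

/-! ### lower and upper bounds -/

/-- the error term of the flux -/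
theorem C6b_abs (h : D.Ok0) {c a : ℝ} (hc : 0 ≤ c) (ha : 0 < a) (s : ℝ) {t t' : ℝ} (htt : t ≤ t')
    (ht4 : t' ≤ t + 4) (x : E) {u : ℝ → E} (hu : Adm u) :
    c * (∫ r in t..t', |D.κ r * D.F (traj t x u r) (u r) r - s|) ≤
      a * (∫ r in t..t', (D.κ r * D.F (traj t x u r) (u r) r - s) ^ 2) + c ^ 2 / a := by
  have i1 : IntervalIntegrable (fun r => |D.κ r * D.F (traj t x u r) (u r) r - s|) volume t t' :=
    (C6b_cb5 h s).ii hu t x t t'
  have i2 : IntervalIntegrable (fun r => (D.κ r * D.F (traj t x u r) (u r) r - s) ^ 2) volume t t' :=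
    (C6b_cb3 h s).ii hu t x t t'
  have h1 : (∫ r in t..t', c * |D.κ r * D.F (traj t x u r) (u r) r - s|) ≤
      ∫ r in t..t', (a * (D.κ r * D.F (traj t x u r) (u r) r - s) ^ 2 + c ^ 2 / (4 * a)) := by
    refine intervalIntegral.integral_mono_on htt (i1.const_mul c)
      ((i2.const_mul a).add (by simp)) fun r _ => ?_
    obtain ⟨y, hy⟩ : ∃ y, y = D.κ r * D.F (traj t x u r) (u r) r - s := ⟨_, rfl⟩
    rw [← hy]
    have h3 := sq_abs y
    rw [← h3]
    have h4 : 0 ≤ (2 * a * |y| - c) ^ 2 / (4 * a) := by positivity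
    have h5 : (2 * a * |y| - c) ^ 2 / (4 * a) = a * |y| ^ 2 - c * |y| + c ^ 2 / (4 * a) := by
      field_simp
      ring
    linarith
  rw [intervalIntegral.integral_const_mul, intervalIntegral.integral_add (i2.const_mul a) (by simp),
    intervalIntegral.integral_const_mul, intervalIntegral.integral_const, smul_eq_mul] at h1
  have h6 : 0 ≤ c ^ 2 / (4 * a) := by positivity
  have h7 : (t' - t) * (c ^ 2 / (4 * a)) ≤ 4 * (c ^ 2 / (4 * a)) :=
    mul_le_mul_of_nonneg_right (by linarith) h6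
  have h8 : 4 * (c ^ 2 / (4 * a)) = c ^ 2 / a := by
    field_simp
  linarith

theorem C6b_s0 {ε K : ℝ} (hε : 0 < ε) (hK : 0 ≤ K) : 1 ≤ 1 + 2 * K / ε := by
  have : 0 ≤ 2 * K / ε := by positivity
  linarith

theorem C6b_s1 {ε K s : ℝ} (hε : 0 < ε) (hs : 1 + 2 * K / ε ≤ s) : 2 * K ≤ ε * s := by
  have h1 := mul_le_mul_of_nonneg_left hs hε.le
  have h2 : ε * (1 + 2 * K / ε) = ε + 2 * K := by
    field_simp
  linarith

/-- the kinetic part -/
theorem C6b_kin (h : D.Ok0) (s : ℝ) {t t' : ℝ} (htt : t ≤ t') (x : E) {u : ℝ → E} (hu : Adm u) :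
    (∫ r in t..t', (D.κ r * D.F (traj t x u r) (u r) r - s) ^ 2) / (2 * D.A) ≤
      (∫ r in t..t', (D.κ r * D.F (traj t x u r) (u r) r - s) ^ 2 / (2 * D.κ r)) ∧
    (∫ r in t..t', (D.κ r * D.F (traj t x u r) (u r) r - s) ^ 2 / (2 * D.κ r)) ≤
      D.A / 2 * ∫ r in t..t', (D.κ r * D.F (traj t x u r) (u r) r - s) ^ 2 := by
  have hA := h.A_pos
  have i2 : IntervalIntegrable (fun r => (D.κ r * D.F (traj t x u r) (u r) r - s) ^ 2) volume t t' :=
    (C6b_cb3 h s).ii hu t x t t'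
  have i4 : IntervalIntegrable (fun r => (D.κ r * D.F (traj t x u r) (u r) r - s) ^ 2 /
      (2 * D.κ r)) volume t t' := (C6b_cb4 h s).ii hu t x t t'
  constructor
  · rw [← intervalIntegral.integral_div]
    refine intervalIntegral.integral_mono_on htt (i2.div_const _) i4 fun r _ => ?_
    have hκ := C6b_κ h r
    exact div_le_div_of_nonneg_left (sq_nonneg _) (by positivity) (by
      have := h.κ_le r
      linarith)
  · rw [← intervalIntegral.integral_const_mul]
    refine intervalIntegral.integral_mono_on htt i4 (i2.const_mul _) fun r _ => ?_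
    have hκ := C6b_κ h r
    have h1 := h.κ_pos r
    rw [div_le_iff₀ (by positivity)]
    have h2 := sq_nonneg (D.κ r * D.F (traj t x u r) (u r) r - s)
    nlinarith [mul_le_mul_of_nonneg_right h1 h2]

theorem cst_low (h : D.Ok) (m : ℝ) (L : LP) {ε : ℝ} (hε : 0 < ε) : ∃ s0 : ℝ, 1 ≤ s0 ∧ ∀ s, s0 ≤ s → ∀ Φ ll,
    FTa D m L Φ s ll → ∀ (x : E) (u : ℝ → E), Adm u → ∀ t t', t ≤ t' → t' ≤ t + 4 →
    D.corr s t t' x (traj t x u t') + fl Φ s t t' + (1 - ε) * (s * D.exc t t' x u) +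
      (∫ r in t..t', (D.κ r * D.F (traj t x u r) (u r) r - s) ^ 2) / (4 * D.A) - ε * s ≤
      (D0 D).cst ll s t t' x u := by
  have hA := h.A_pos
  obtain ⟨c', hc'⟩ : ∃ c', c' = L.c (ε / 4) := ⟨_, rfl⟩
  obtain ⟨K, hKd⟩ : ∃ K, K = |c'| + 4 * D.A * c' ^ 2 := ⟨_, rfl⟩
  have hK0 : 0 ≤ K := by rw [hKd]; positivity
  refine ⟨1 + 2 * K / ε, C6b_s0 hε hK0, ?_⟩
  intro s hs Φ ll hl x u hu t t' htt ht4
  have hs1 : 1 ≤ s := (C6b_s0 hε hK0).trans hs
  have hK := C6b_s1 hε hs
  have hc := hl.c_nonneg (ε / 4)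
  have hf := hl.low (ε / 4) (by linarith) x u hu t t' htt ht4
  rw [← hc'] at hc hf
  rw [abs_of_nonneg hc] at hKd
  have ha := C6b_abs h.toOk0 hc (show (0 : ℝ) < 1 / (4 * D.A) by positivity) s htt ht4 x hu
  have he := exc_nonneg h.toOk0 htt x hu
  have hk := (C6b_kin h.toOk0 s htt x hu).1
  rw [cst_eq h.toOk0 hl.toTG s htt x hu]
  revert hf ha he hk
  generalize (∫ r in t..t', (ll (traj t x u r) (u r) r - D.κ r * D.F (traj t x u r) (u r) r ^ 2 / 2 -
        s * D.Bt (traj t x u r) r + s ^ 2 / 2 * (1 - (D.κ r)⁻¹))) = I1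
  generalize (∫ r in t..t', (D.κ r * D.F (traj t x u r) (u r) r - s) ^ 2 / (2 * D.κ r)) = J
  generalize (∫ r in t..t', (D.κ r * D.F (traj t x u r) (u r) r - s) ^ 2) = I2
  generalize (∫ r in t..t', |D.κ r * D.F (traj t x u r) (u r) r - s|) = I3
  generalize D.exc t t' x u = X
  generalize fl Φ s t t' = fl
  intro hf ha he hk
  have e1 : I2 / (2 * D.A) = 1 / (4 * D.A) * I2 + I2 / (4 * D.A) := by
    field_simp
    ring
  have e2 : c' ^ 2 / (1 / (4 * D.A)) = 4 * D.A * c' ^ 2 := by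
    field_simp
  rw [e2] at ha
  rw [e1] at hk
  have hAc : 0 ≤ 4 * D.A * c' ^ 2 := by positivity
  have hcs : 0 ≤ ε * s - c' := by linarith
  have hp := mul_nonneg hcs he
  have hes : 0 ≤ ε * s := by positivity
  nlinarith

theorem cst_upp (h : D.Ok) (m : ℝ) (L : LP) {ε : ℝ} (hε : 0 < ε) : ∃ s0 : ℝ, 1 ≤ s0 ∧ ∀ s, s0 ≤ s → ∀ Φ ll,
    FTa D m L Φ s ll → ∀ (x : E) (u : ℝ → E), Adm u → ∀ t t', t ≤ t' → t' ≤ t + 4 →
    (D0 D).cst ll s t t' x u ≤ D.corr s t t' x (traj t x u t') + fl Φ s t t' +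
      (1 + ε) * (s * D.exc t t' x u) +
      (D.A + L.A) * (∫ r in t..t', (D.κ r * D.F (traj t x u r) (u r) r - s) ^ 2) + ε * s := by
  have hA := h.A_pos
  obtain ⟨c', hc'⟩ : ∃ c', c' = L.c (ε / 4) := ⟨_, rfl⟩
  obtain ⟨K, hKd⟩ : ∃ K, K = |c'| + c' ^ 2 / (D.A / 2) := ⟨_, rfl⟩
  have hK0 : 0 ≤ K := by rw [hKd]; positivity
  refine ⟨1 + 2 * K / ε, C6b_s0 hε hK0, ?_⟩
  intro s hs Φ ll hl x u hu t t' htt ht4
  have hs1 : 1 ≤ s := (C6b_s0 hε hK0).trans hs
  have hK := C6b_s1 hε hs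
  have hc := hl.c_nonneg (ε / 4)
  have hf := hl.upp (ε / 4) (by linarith) x u hu t t' htt ht4
  rw [← hc'] at hc hf
  rw [abs_of_nonneg hc] at hKd
  have ha := C6b_abs h.toOk0 hc (show (0 : ℝ) < D.A / 2 by positivity) s htt ht4 x hu
  have he := exc_nonneg h.toOk0 htt x hu
  have hk := (C6b_kin h.toOk0 s htt x hu).2
  rw [cst_eq h.toOk0 hl.toTG s htt x hu]
  revert hf ha he hk
  generalize (∫ r in t..t', (ll (traj t x u r) (u r) r - D.κ r * D.F (traj t x u r) (u r) r ^ 2 / 2 -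
        s * D.Bt (traj t x u r) r + s ^ 2 / 2 * (1 - (D.κ r)⁻¹))) = I1
  generalize (∫ r in t..t', (D.κ r * D.F (traj t x u r) (u r) r - s) ^ 2 / (2 * D.κ r)) = J
  generalize (∫ r in t..t', (D.κ r * D.F (traj t x u r) (u r) r - s) ^ 2) = I2
  generalize (∫ r in t..t', |D.κ r * D.F (traj t x u r) (u r) r - s|) = I3
  generalize D.exc t t' x u = X
  generalize fl Φ s t t' = fl
  intro hf ha he hk
  have hAc : 0 ≤ c' ^ 2 / (D.A / 2) := by positivity
  have hcs : 0 ≤ ε * s - c' := by linarith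
  have hp := mul_nonneg hcs he
  have hes : 0 ≤ ε * s := by positivity
  nlinarith

/-! ### the flux -/

theorem fl_add (ha : ∀ s, Continuous (Φ s)) (s t t' t'' : ℝ) :
    fl Φ s t t'' = fl Φ s t t' + fl Φ s t' t'' :=
  (intervalIntegral.integral_add_adjacent_intervals ((ha s).intervalIntegrable _ _)
    ((ha s).intervalIntegrable _ _)).symm

theorem C6b_per {X : Type*} {g : ℝ → X} (hg : ∀ t, g (t + 1) = g t) (k : ℤ) (t : ℝ) :
    g (t + k) = g t := by
  have : Function.Periodic g 1 := hg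
  have h := this.int_mul k t
  rwa [mul_one] at h

theorem fl_per (ha : ∀ s t, Φ s (t + 1) = Φ s t) (s t t' : ℝ) (k : ℤ) :
    fl Φ s (t + k) (t' + k) = fl Φ s t t' := by
  unfold fl
  rw [← intervalIntegral.integral_comp_add_right]
  congr 1
  ext r
  exact C6b_per (ha s) k r

theorem fl_bd {L : LP} (hb : ∀ s t, 1 ≤ s → |Φ s t| ≤ L.A * s ^ 2) {s : ℝ} (hs : 1 ≤ s) (t t' : ℝ) :
    |fl Φ s t t'| ≤ L.A * s ^ 2 * |t' - t| := by
  have h := intervalIntegral.norm_integral_le_of_norm_le_const (f := Φ s) (a := t) (b := t')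
    (C := L.A * s ^ 2) (fun r _ => by rw [Real.norm_eq_abs]; exact hb s r hs)
  rwa [Real.norm_eq_abs] at h

theorem fl_lip {L : LP} (ha : ∀ s, Continuous (Φ s))
    (hb : ∀ s s' t, 1 ≤ s → 1 ≤ s' → |Φ s t - Φ s' t| ≤ L.A * (s + s') * |s - s'|) {s s' : ℝ}
    (hs : 1 ≤ s) (hs' : 1 ≤ s') (t t' : ℝ) :
    |fl Φ s t t' - fl Φ s' t t'| ≤ L.A * (s + s') * |s - s'| * |t' - t| := by
  unfold fl
  rw [← intervalIntegral.integral_sub ((ha s).intervalIntegrable _ _)
    ((ha s').intervalIntegrable _ _)]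
  have h := intervalIntegral.norm_integral_le_of_norm_le_const
    (f := fun r => Φ s r - Φ s' r) (a := t) (b := t') (C := L.A * (s + s') * |s - s'|)
    (fun r _ => by rw [Real.norm_eq_abs]; exact hb s s' r hs hs')
  rwa [Real.norm_eq_abs] at h

theorem fl_top {L : LP} (ha : ∀ s, Continuous (Φ s))
    (hb : ∀ s t, 1 ≤ s → Φ s t ≤ s ^ 2 / 2 * (1 - L.a0) + L.A * s) {s : ℝ} (hs : 1 ≤ s) {t t' : ℝ}
    (htt : t ≤ t') : fl Φ s t t' ≤ (s ^ 2 / 2 * (1 - L.a0) + L.A * s) * (t' - t) := by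
  have h1 : (∫ r in t..t', Φ s r) ≤ ∫ r in t..t', (s ^ 2 / 2 * (1 - L.a0) + L.A * s) :=
    intervalIntegral.integral_mono_on htt ((ha s).intervalIntegrable _ _) (by simp)
      fun r _ => hb s r hs
  rw [intervalIntegral.integral_const, smul_eq_mul, mul_comm] at h1
  exact h1

theorem FTa.add (h : D.Ok0) {s : ℝ} (hl : FTa D m L Φ s l) (hf : Pt D.β f) (hg : Good Mf f) :
    FTa D m (L + Mf) Φ s (lf l f) where
  toTG := hl.toTG.add hf hg
  A_nonneg := hl.A_nonneg
  a0_pos := hl.a0_pos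
  c_nonneg := fun ε => by
    have h1 := hl.c_nonneg ε
    have h2 := hg.pos
    change 0 ≤ L.c ε + 4 * Mf
    linarith
  a_cont := hl.a_cont
  a_per := hl.a_per
  a_bd := hl.a_bd
  a_lip := hl.a_lip
  a_top := hl.a_top
  low := by
    intro ε hε z u hu t t' htt ht4
    have h0 := hg.pos
    have i3 : IntervalIntegrable (fun r => l (traj t z u r) (u r) r) volume t t' :=
      hl.toTG.cb.ii hu t z t t'
    have i2 : IntervalIntegrable (fun r => D.κ r * D.F (traj t z u r) (u r) r ^ 2 / 2) volume t t' :=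
      (C6b_cb2 h).ii hu t z t t'
    have iB := C6b_iBt h hu t z t t'
    have iκ : IntervalIntegrable (fun r => s ^ 2 / 2 * (1 - (D.κ r)⁻¹)) volume t t' :=
      ((by simp : IntervalIntegrable (fun _ : ℝ => (1 : ℝ)) volume t t').sub
        (C6b_iκ h t t')).const_mul _
    have i4 : IntervalIntegrable (fun r => f (traj t z u r) r) volume t t' :=
      (hg.cont.comp ((traj_cont hu t z).prodMk continuous_id)).intervalIntegrable _ _
    have e1 : (fun r => (lf l f (traj t z u r) (u r) r -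
          D.κ r * D.F (traj t z u r) (u r) r ^ 2 / 2 - s * D.Bt (traj t z u r) r +
          s ^ 2 / 2 * (1 - (D.κ r)⁻¹))) =
        fun r => (l (traj t z u r) (u r) r - D.κ r * D.F (traj t z u r) (u r) r ^ 2 / 2 -
          s * D.Bt (traj t z u r) r + s ^ 2 / 2 * (1 - (D.κ r)⁻¹)) + f (traj t z u r) r := by
      ext r
      unfold lf
      ring
    rw [e1, intervalIntegral.integral_add (((i3.sub i2).sub (iB.const_mul s)).add iκ) i4]
    have h1 := hl.low ε hε z u hu t t' htt ht4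
    have h2 : |∫ r in t..t', f (traj t z u r) r| ≤ Mf * |t' - t| := by
      have h := intervalIntegral.norm_integral_le_of_norm_le_const
        (f := fun r => f (traj t z u r) r) (a := t) (b := t') (C := Mf)
        (fun r _ => by rw [Real.norm_eq_abs]; exact hg.bd _ r)
      rwa [Real.norm_eq_abs] at h
    have h3 : Mf * |t' - t| ≤ 4 * Mf := by
      rw [abs_of_nonneg (by linarith : (0 : ℝ) ≤ t' - t)]
      nlinarith
    have h4 := exc_nonneg h htt z hu
    have h5 : 0 ≤ ∫ r in t..t', |D.κ r * D.F (traj t z u r) (u r) r - s| :=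
      intervalIntegral.integral_nonneg htt fun r _ => abs_nonneg _
    change fl Φ s t t' - (ε * s + (L.c ε + 4 * Mf) * _) ≤ _
    revert h1 h2 h4 h5
    generalize (∫ r in t..t', (l (traj t z u r) (u r) r -
      D.κ r * D.F (traj t z u r) (u r) r ^ 2 / 2 - s * D.Bt (traj t z u r) r +
      s ^ 2 / 2 * (1 - (D.κ r)⁻¹))) = I1
    generalize (∫ r in t..t', f (traj t z u r) r) = I2
    generalize (∫ r in t..t', |D.κ r * D.F (traj t z u r) (u r) r - s|) = I3
    generalize D.exc t t' z u = X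
    generalize fl Φ s t t' = fl
    intro h1 h2 h4 h5
    have h6 : 0 ≤ Mf * (X + I3) := mul_nonneg h0 (by linarith)
    rw [abs_le] at h2
    nlinarith

  upp := by
    intro ε hε z u hu t t' htt ht4
    have h0 := hg.pos
    have i3 : IntervalIntegrable (fun r => l (traj t z u r) (u r) r) volume t t' :=
      hl.toTG.cb.ii hu t z t t'
    have i2 : IntervalIntegrable (fun r => D.κ r * D.F (traj t z u r) (u r) r ^ 2 / 2) volume t t' :=
      (C6b_cb2 h).ii hu t z t t'
    have iB := C6b_iBt h hu t z t t'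
    have iκ : IntervalIntegrable (fun r => s ^ 2 / 2 * (1 - (D.κ r)⁻¹)) volume t t' :=
      ((by simp : IntervalIntegrable (fun _ : ℝ => (1 : ℝ)) volume t t').sub
        (C6b_iκ h t t')).const_mul _
    have i4 : IntervalIntegrable (fun r => f (traj t z u r) r) volume t t' :=
      (hg.cont.comp ((traj_cont hu t z).prodMk continuous_id)).intervalIntegrable _ _
    have e1 : (fun r => (lf l f (traj t z u r) (u r) r -
          D.κ r * D.F (traj t z u r) (u r) r ^ 2 / 2 - s * D.Bt (traj t z u r) r +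
          s ^ 2 / 2 * (1 - (D.κ r)⁻¹))) =
        fun r => (l (traj t z u r) (u r) r - D.κ r * D.F (traj t z u r) (u r) r ^ 2 / 2 -
          s * D.Bt (traj t z u r) r + s ^ 2 / 2 * (1 - (D.κ r)⁻¹)) + f (traj t z u r) r := by
      ext r
      unfold lf
      ring
    rw [e1, intervalIntegral.integral_add (((i3.sub i2).sub (iB.const_mul s)).add iκ) i4]
    have h1 := hl.upp ε hε z u hu t t' htt ht4
    have h2 : |∫ r in t..t', f (traj t z u r) r| ≤ Mf * |t' - t| := by
      have h := intervalIntegral.norm_integral_le_of_norm_le_const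
        (f := fun r => f (traj t z u r) r) (a := t) (b := t') (C := Mf)
        (fun r _ => by rw [Real.norm_eq_abs]; exact hg.bd _ r)
      rwa [Real.norm_eq_abs] at h
    have h3 : Mf * |t' - t| ≤ 4 * Mf := by
      rw [abs_of_nonneg (by linarith : (0 : ℝ) ≤ t' - t)]
      nlinarith
    have h4 := exc_nonneg h htt z hu
    have h5 : 0 ≤ ∫ r in t..t', |D.κ r * D.F (traj t z u r) (u r) r - s| :=
      intervalIntegral.integral_nonneg htt fun r _ => abs_nonneg _
    change _ ≤ fl Φ s t t' + (ε * s + (L.c ε + 4 * Mf) * _) + L.A * _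
    revert h1 h2 h4 h5
    generalize (∫ r in t..t', (l (traj t z u r) (u r) r -
      D.κ r * D.F (traj t z u r) (u r) r ^ 2 / 2 - s * D.Bt (traj t z u r) r +
      s ^ 2 / 2 * (1 - (D.κ r)⁻¹))) = I1
    generalize (∫ r in t..t', f (traj t z u r) r) = I2
    generalize (∫ r in t..t', |D.κ r * D.F (traj t z u r) (u r) r - s|) = I3
    generalize (∫ r in t..t', (D.κ r * D.F (traj t z u r) (u r) r - s) ^ 2) = I4
    generalize D.exc t t' z u = X
    generalize fl Φ s t t' = fl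
    intro h1 h2 h4 h5
    have h6 : 0 ≤ Mf * (X + I3) := mul_nonneg h0 (by linarith)
    rw [abs_le] at h2
    nlinarith

/-! ### the periodic part of `B` -/

theorem bb_Lam (h : D.Ok0) {v : E} (hv : v ∈ D.Lam) (t : ℝ) (x : E) : D.bb t (x + v) = D.bb t x := by
  obtain ⟨a, ha⟩ := h.B_Lam v hv
  unfold GT.bb
  rw [ha, ha]
  ring

theorem bb_per (h : D.Ok0) (t : ℝ) (k : ℤ) (x : E) : D.bb (t + k) x = D.bb t x ∧ D.bb k x = 0 := by
  have h1 : ∀ r : ℝ, D.B x (r + k) = D.B x r := fun r => C6b_per (fun t => h.B_pert x t) k r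
  unfold GT.bb
  constructor
  · rw [h1]
  · have h2 := h1 0
    rw [zero_add] at h2
    rw [h2, sub_self]

theorem C6b_Bt_per (h : D.Ok0) (x : E) (t : ℝ) : D.Bt x (t + 1) = D.Bt x t := by
  have h1 : (fun r => D.B x (r + 1)) = fun r => D.B x r := funext fun r => h.B_pert x r
  have h2 := ((C6b_Bt h x (t + 1)).1.comp_add_const t 1).deriv
  rw [h1] at h2
  exact h2.symm

theorem C6b_Bt_Lam (h : D.Ok0) {v : E} (hv : v ∈ D.Lam) (x : E) (t : ℝ) :
    D.Bt (x + v) t = D.Bt x t := by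
  obtain ⟨a, ha⟩ := h.B_Lam v hv
  have h1 : (fun r => D.B (x + v) r) = fun r => D.B x r + a := funext fun r => ha x r
  have h2 := ((C6b_Bt h x t).1.add_const a).deriv
  unfold GT.Bt
  rw [h1]
  exact h2

theorem C6b_Bt_bd (h : D.Ok0) : ∃ C : ℝ, 0 ≤ C ∧ ∀ x t, |D.Bt x t| ≤ C := by
  obtain ⟨C, hC⟩ := ((isCompact_closedBall (0 : E) (∑ i, ‖D.β i‖)).prod
    (isCompact_Icc (a := (0 : ℝ)) (b := 1))).exists_bound_of_continuousOn
      (C6b_Btc h).continuousOn
  refine ⟨max C 0, le_max_right _ _, fun x t => ?_⟩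
  have h1 : D.Bt x t = D.Bt (ZSpan.fract D.β x) (Int.fract t) := by
    have h2 : D.Bt (ZSpan.fract D.β x) (Int.fract t) =
        D.Bt (ZSpan.fract D.β x) (Int.fract t + (⌊t⌋ : ℤ)) :=
      (C6b_per (fun t => C6b_Bt_per h _ t) ⌊t⌋ (Int.fract t)).symm
    have h3 : ((ZSpan.floor D.β x : Submodule.span ℤ (Set.range D.β)) : E) ∈ D.Lam :=
      (ZSpan.floor D.β x).2
    rw [h2, Int.fract_add_floor]
    conv_rhs => rw [← C6b_Bt_Lam h h3]
    rw [ZSpan.fract_apply, sub_add_cancel]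
  rw [h1]
  have h4 := hC (ZSpan.fract D.β x, Int.fract t) ⟨by
    rw [mem_closedBall_zero_iff]
    exact ZSpan.norm_fract_le D.β x, ⟨Int.fract_nonneg _, (Int.fract_lt_one _).le⟩⟩
  rw [Real.norm_eq_abs] at h4
  exact h4.trans (le_max_left _ _)

/-- the periodic part of `B` -/
theorem bb_bd (h : D.Ok0) : ∃ C : ℝ, 0 ≤ C ∧ (∀ t x, |D.bb t x| ≤ C) ∧
    (∀ t x x', |D.bb t x - D.bb t x'| ≤ C * ‖x - x'‖) ∧ ∀ t t' x, |D.bb t x - D.bb t' x| ≤ C * |t - t'| := by
  obtain ⟨C, hC0, hC⟩ := C6b_Bt_bd h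
  have hA := h.A_pos
  have ht : ∀ t t' x, |D.bb t x - D.bb t' x| ≤ C * |t - t'| := by
    intro t t' x
    have h1 := (convex_univ (𝕜 := ℝ) (E := ℝ)).norm_image_sub_le_of_norm_hasDerivWithin_le
      (f := fun r => D.B x r) (f' := fun r => D.Bt x r) (C := C)
      (fun r _ => (C6b_Bt h x r).1.hasDerivWithinAt)
      (fun r _ => by rw [Real.norm_eq_abs]; exact hC x r) (mem_univ t') (mem_univ t)
    rw [Real.norm_eq_abs, Real.norm_eq_abs] at h1
    have e : D.bb t x - D.bb t' x = D.B x t - D.B x t' := by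
      unfold GT.bb
      ring
    rw [e]
    exact h1
  have hfr : ∀ t x, D.bb t x = D.bb (Int.fract t) x := by
    intro t x
    have h1 := (bb_per h (Int.fract t) ⌊t⌋ x).1
    rw [Int.fract_add_floor] at h1
    exact h1
  refine ⟨max C D.A, hC0.trans (le_max_left _ _), fun t x => ?_, fun t x x' => ?_, fun t t' x => ?_⟩
  · rw [hfr]
    have h1 := ht (Int.fract t) 0 x
    have h2 : D.bb 0 x = 0 := by
      unfold GT.bb
      ring
    rw [h2, sub_zero, sub_zero, abs_of_nonneg (Int.fract_nonneg t)] at h1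
    refine h1.trans (le_trans ?_ (le_max_left _ _))
    have h3 := (Int.fract_lt_one t).le
    nlinarith
  · rw [hfr t x, hfr t x']
    have hd : ∀ y r, HasFDerivAt (fun y => D.B y r) (fderiv ℝ (fun y => D.B y r) y) y :=
      fun y r => (C6b_hd h y r).differentiableAt.hasFDerivAt
    have h1 := (convex_univ (𝕜 := ℝ) (E := E)).norm_image_sub_le_of_norm_hasFDerivWithin_le
      (f := fun y => D.bb (Int.fract t) y)
      (f' := fun y => fderiv ℝ (fun y => D.B y (Int.fract t)) y - fderiv ℝ (fun y => D.B y 0) y)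
      (C := D.A)
      (fun y _ => ((hd y (Int.fract t)).sub (hd y 0)).hasFDerivWithinAt)
      (fun y _ => ?_) (mem_univ x') (mem_univ x)
    · rw [Real.norm_eq_abs] at h1
      exact h1.trans (mul_le_mul_of_nonneg_right (le_max_right _ _) (norm_nonneg _))
    · refine ContinuousLinearMap.opNorm_le_bound _ hA.le fun v => ?_
      have h2 := h.B_dlip y v (Int.fract t) 0
      rw [sub_zero, abs_of_nonneg (Int.fract_nonneg t)] at h2
      have h3 := (Int.fract_lt_one t).le
      have h4 : 0 ≤ D.A * ‖v‖ := mul_nonneg hA.le (norm_nonneg v)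
      rw [Real.norm_eq_abs]
      change |D.dB y (Int.fract t) v - D.dB y 0 v| ≤ _
      nlinarith
  · exact (ht t t' x).trans (mul_le_mul_of_nonneg_right (le_max_left _ _) (abs_nonneg _))

end MID

end EscPa
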