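import Pool.Agent.EscW.PC6b
import Pool.Agent.EscW.PC12
import Pool.Agent.EscW.PaC13
import Pool.Agent.EscT.C13

/-!
Module PC13: inner_slice.
-/

noncomputable section

namespace EscP

open MeasureTheory Set Filter Topology Esc EscF EscG EscT
open scoped ContDiff

variable {ι : Type} [Fintype ι] {d : ℕ} {E : Type*} [NormedAddCommGroup E] [InnerProductSpace ℝ E]
  [FiniteDimensional ℝ E] {D : GT ι d E} {p : GP} {m M Mf : ℝ} {L : LP} {l0 l1 ll l : E → E → ℝ → ℝ}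
  {f f' : E → ℝ → ℝ}

theorem inner_slice (h : D.Ok) (hp : POk D p) (m : ℝ) (L : LP) : ∃ kN CI s0 δ0 : ℝ, 0 < kN ∧ 0 ≤ CI ∧
    1 ≤ s0 ∧ 0 < δ0 ∧
    ∀ s s', s0 ≤ s → s0 ≤ s' → |s' - s| ≤ δ0 → ∀ ll, FT2 D m L s s' ll → ∀ N : ℕ,
    kN * s ≤ N → ∀ k < N, ∀ w ∈ Md D p ((k : ℝ) / N),
    (∀ k' < N, ∀ w' ∈ Md D p ((k' : ℝ) / N),
      (D0 D).W p ll s s' ((k : ℝ) / N) w ≤ (D0 D).W p ll s s' ((k' : ℝ) / N) w') →
    ∃ k' < N, ∃ w' ∈ Mi D p ((k' : ℝ) / N), (D0 D).W p ll s s' ((k' : ℝ) / N) w' ≤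
      (D0 D).W p ll s s' ((k : ℝ) / N) w + CI * s * |s' - s| := by
  obtain ⟨kN, CI, s0, δ0, hk, hC, h0, hδ, H⟩ := EscPa.inner_slice h hp m L
  refine ⟨kN, CI, s0, δ0, hk, hC, h0, hδ, fun s s' hs hs' hss ll hl => ?_⟩
  obtain ⟨Φ, hl, hl'⟩ := hl
  exact H s s' hs hs' hss Φ ll hl hl'

end EscP
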