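import Pool.Agent.EscW.PaC6b

/-!
Module PC6b: addition of potentials.
-/

noncomputable section

namespace EscP

open MeasureTheory Set Filter Topology Esc EscF EscG EscT
open scoped ContDiff

variable {ι : Type} [Fintype ι] {d : ℕ} {E : Type*} [NormedAddCommGroup E] [InnerProductSpace ℝ E]
  [FiniteDimensional ℝ E] {D : GT ι d E} {p : GP} {m M Mf : ℝ} {L : LP} {l0 l1 ll l : E → E → ℝ → ℝ}
  {f f' : E → ℝ → ℝ}

theorem FTa.add' (h : D.Ok0) {Φ : ℝ → ℝ → ℝ} {s : ℝ} (hl : FTa D m L Φ s l) (hf : Pt D.β f) (hg : Good Mf f) :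
    FTa D m (L + Mf) Φ s (lf l f) := EscPa.FTa.add h hl hf hg

theorem FT.add (h : D.Ok0) {s : ℝ} (hl : FT D m L s l) (hf : Pt D.β f) (hg : Good Mf f) :
    FT D m (L + Mf) s (lf l f) := by
  obtain ⟨Φ, h1⟩ := hl
  exact ⟨Φ, EscPa.FTa.add h h1 hf hg⟩

theorem FT2.add (h : D.Ok0) {s s' : ℝ} (hl : FT2 D m L s s' l) (hf : Pt D.β f) (hg : Good Mf f) :
    FT2 D m (L + Mf) s s' (lf l f) := by
  obtain ⟨Φ, h1, h2⟩ := hl
  exact ⟨Φ, EscPa.FTa.add h h1 hf hg, EscPa.FTa.add h h2 hf hg⟩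

theorem FW.add (h : D.Ok0) {q : ℝ} (hl : FW D m L q l) (hf : Pt D.β f) (hg : Good Mf f) :
    FW D m (L + Mf) q (lf l f) where
  ft := fun s hs => (hl.ft s hs).add h hf hg
  ft2 := fun s s' hs hs' => (hl.ft2 s s' hs hs').add h hf hg

end EscP
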