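import Pool.Agent.EscT.TDefs

/-!
Project EscW, part P (MP_6acca1_an): Lagrangians of general growth, one class at a time. `EscP.FTa D m L Φ s l`:
the action of `l` is known at the speed `s` only, the upper bound with an additional multiple of `∫ (κ F - s)²`;
the flux function `Φ` is an argument (the field `L.a` is not used).
-/

noncomputable section

namespace EscP

open MeasureTheory Set Filter Topology Esc EscF EscG EscT
open scoped ContDiff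

variable {E : Type*} [NormedAddCommGroup E] [InnerProductSpace ℝ E]

/-- the flux over a time interval -/
def fl (Φ : ℝ → ℝ → ℝ) (s t t' : ℝ) : ℝ := ∫ r in t..t', Φ s r

/-- periodic part of the flux -/
def gam (Φ : ℝ → ℝ → ℝ) (s r : ℝ) : ℝ := fl Φ s 0 r - r * fl Φ s 0 1

/-- Lagrangians whose action at speed `s` is known up to a small multiple of `s` and a multiple of the excess
(from above also a multiple of `∫ (κ F - s)²`) -/
structure FTa {ι : Type} [Fintype ι] {d : ℕ} [CompleteSpace E] (D : GT ι d E) (m : ℝ) (L : LP)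
    (Φ : ℝ → ℝ → ℝ) (s : ℝ) (l : E → E → ℝ → ℝ) : Prop extends TG D.β m L.M l where
  A_nonneg : 0 ≤ L.A
  a0_pos : 0 < L.a0
  c_nonneg : ∀ ε, 0 ≤ L.c ε
  a_cont : ∀ s, Continuous (Φ s)
  a_per : ∀ s t, Φ s (t + 1) = Φ s t
  a_bd : ∀ s t, 1 ≤ s → |Φ s t| ≤ L.A * s ^ 2
  a_lip : ∀ s s' t, 1 ≤ s → 1 ≤ s' → |Φ s t - Φ s' t| ≤ L.A * (s + s') * |s - s'|
  a_top : ∀ s t, 1 ≤ s → Φ s t ≤ s ^ 2 / 2 * (1 - L.a0) + L.A * s
  low : ∀ ε : ℝ, 0 < ε → ∀ (z : E) (u : ℝ → E), Adm u → ∀ t t' : ℝ, t ≤ t' → t' ≤ t + 4 →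
    fl Φ s t t' - (ε * s + L.c ε * (1 + D.exc t t' z u +
        ∫ r in t..t', |D.κ r * D.F (traj t z u r) (u r) r - s|)) ≤
      ∫ r in t..t', (l (traj t z u r) (u r) r - D.κ r * D.F (traj t z u r) (u r) r ^ 2 / 2 -
        s * D.Bt (traj t z u r) r + s ^ 2 / 2 * (1 - (D.κ r)⁻¹))
  upp : ∀ ε : ℝ, 0 < ε → ∀ (z : E) (u : ℝ → E), Adm u → ∀ t t' : ℝ, t ≤ t' → t' ≤ t + 4 →
    (∫ r in t..t', (l (traj t z u r) (u r) r - D.κ r * D.F (traj t z u r) (u r) r ^ 2 / 2 -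
        s * D.Bt (traj t z u r) r + s ^ 2 / 2 * (1 - (D.κ r)⁻¹))) ≤
      fl Φ s t t' + (ε * s + L.c ε * (1 + D.exc t t' z u +
        ∫ r in t..t', |D.κ r * D.F (traj t z u r) (u r) r - s|)) +
      L.A * ∫ r in t..t', (D.κ r * D.F (traj t z u r) (u r) r - s) ^ 2

/-- the same for some flux function -/
def FT {ι : Type} [Fintype ι] {d : ℕ} [CompleteSpace E] (D : GT ι d E) (m : ℝ) (L : LP) (s : ℝ)
    (l : E → E → ℝ → ℝ) : Prop := ∃ Φ : ℝ → ℝ → ℝ, FTa D m L Φ s l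

/-- the action is known at the speeds `s` and `s'`, with the same flux function -/
def FT2 {ι : Type} [Fintype ι] {d : ℕ} [CompleteSpace E] (D : GT ι d E) (m : ℝ) (L : LP) (s s' : ℝ)
    (l : E → E → ℝ → ℝ) : Prop := ∃ Φ : ℝ → ℝ → ℝ, FTa D m L Φ s l ∧ FTa D m L Φ s' l

/-- the action is known at all speeds near `q` -/
structure FW {ι : Type} [Fintype ι] {d : ℕ} [CompleteSpace E] (D : GT ι d E) (m : ℝ) (L : LP) (q : ℝ)
    (l : E → E → ℝ → ℝ) : Prop where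
  ft : ∀ s, |s - q| ≤ 2 → FT D m L s l
  ft2 : ∀ s s', |s - q| ≤ 2 → |s' - q| ≤ 2 → FT2 D m L s s' l

section FTlem

variable {ι : Type} [Fintype ι] {d : ℕ} [CompleteSpace E] {D : GT ι d E} {m : ℝ} {L : LP} {s s' q : ℝ}
  {l : E → E → ℝ → ℝ}

theorem FT.toTG (h : FT D m L s l) : TG D.β m L.M l := h.choose_spec.toTG

theorem FT.m_pos (h : FT D m L s l) : 0 < m := h.toTG.m_pos

theorem FT.M_nonneg (h : FT D m L s l) : 0 ≤ L.M := h.toTG.M_nonneg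

theorem FT.A_nonneg (h : FT D m L s l) : 0 ≤ L.A := h.choose_spec.A_nonneg

theorem FT.a0_pos (h : FT D m L s l) : 0 < L.a0 := h.choose_spec.a0_pos

theorem FT.c_nonneg (h : FT D m L s l) (ε : ℝ) : 0 ≤ L.c ε := h.choose_spec.c_nonneg ε

theorem FT2.left (h : FT2 D m L s s' l) : FT D m L s l := ⟨_, h.choose_spec.1⟩

theorem FT2.right (h : FT2 D m L s s' l) : FT D m L s' l := ⟨_, h.choose_spec.2⟩

theorem FW.mk' {Φ : ℝ → ℝ → ℝ} (h : ∀ s, |s - q| ≤ 2 → FTa D m L Φ s l) : FW D m L q l where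
  ft := fun s hs => ⟨Φ, h s hs⟩
  ft2 := fun s s' hs hs' => ⟨Φ, h s hs, h s' hs'⟩

end FTlem

variable {ι : Type} [Fintype ι] {d : ℕ} (D : GT ι d E) (p : GP)

/-- Stage of the chain: gates with classes from `a` to `b` -/
def Stage (ll : E → E → ℝ → ℝ) (a b : ℝ) : Prop :=
  ∃ (J : ℕ) (s r : ℕ → ℝ) (F : ℕ → Finset ℕ) (c : ℕ → ℕ → ℝ) (G : ℕ → Set E) (δ : ℝ),
    0 < J ∧ 0 < δ ∧ s 0 = a ∧ s J = b ∧ (∀ i ≤ J, a ≤ s i ∧ s i ≤ b) ∧
    (∀ i ≤ J, (F i).Nonempty ∧ ∀ T ∈ F i, 1 ≤ T) ∧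
    ∀ i < J, 0 ≤ r i ∧ r i < 1 ∧ IsCompact (G i) ∧ (G i).Nonempty ∧ G i ⊆ Md D p (r i) ∧
      ∀ z ∈ frontier (G i), ∃ w ∈ G i, ∀ x ∈ (D0 D).R p, ∀ x' ∈ (D0 D).R p,
        (D0 D).Gm p ll (s i) (F i) (c i) (r i) x w +
            (D0 D).Gp p ll (s (i + 1)) (F (i + 1)) (c (i + 1)) (r i) w x'
            - (s (i + 1) - s i) * (D0 D).B w + δ ≤
          (D0 D).Gm p ll (s i) (F i) (c i) (r i) x z +
            (D0 D).Gp p ll (s (i + 1)) (F (i + 1)) (c (i + 1)) (r i) z x'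
            - (s (i + 1) - s i) * (D0 D).B z

end EscP
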