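import Pool.Agent.EscW.PDefs

/-!
Project EscW, part P (MP_6acca1_an): a Lagrangian for every leg of the chain, growth functions, speed windows.
-/

noncomputable section

namespace EscP

open MeasureTheory Set Filter Topology Esc EscF EscG EscT
open scoped ContDiff

variable {E : Type*} [NormedAddCommGroup E] [InnerProductSpace ℝ E]

/-- power growth `y ^ (e/2)` of a function of the action `y ~ κ F²/2`, `e ≥ 2` the exponent of the speed -/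
structure Pw (e : ℝ) (g : ℝ → ℝ) : Prop where
  e_ge : 2 ≤ e
  smooth : ContDiff ℝ 2 g
  d1 : ∀ y, 0 < deriv g y
  d2 : ∀ y, 0 ≤ deriv (deriv g) y
  eq : ∀ y, 1 ≤ y → g y = y ^ (e / 2)

/-- the effective weight for the exponent `e` -/
def kh (e : ℝ) (κ : ℝ → ℝ) (t : ℝ) : ℝ := κ t ^ (e / (2 * (e - 1)))

/-- the energy -/
def en [CompleteSpace E] (l : E → E → ℝ → ℝ) (x v : E) (t : ℝ) : ℝ := inner ℝ (gu l x v t) v - l x v t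

variable {ι : Type} [Fintype ι] {d : ℕ} (D : GT ι d E) (p : GP)

/-- the energy controls `κ F²` up to linear errors -/
def En [CompleteSpace E] (κ : ℝ → ℝ) (K : ℝ) (l : E → E → ℝ → ℝ) : Prop := ∀ x v t x' v' t',
  |κ t * D.F x v t ^ 2 - κ t' * D.F x' v' t' ^ 2| ≤ K * |en l x v t - en l x' v' t'| + K * (1 + ‖v‖ + ‖v'‖)

/-- the facts about the kernels of class `s` used to turn chain data into an orbit -/
structure Leg (ll : E → E → ℝ → ℝ) (s : ℝ) : Prop where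
  s_nonneg : 0 ≤ s
  r0 : ∀ x' ∈ (D0 D).R p, ∀ x'' ∈ (D0 D).R p, ∀ x, Metric.infDist x (D.Z 0) = p.η1 →
    (D0 D).k1 ll s x' (D.q 0) + (D0 D).k1 ll s (D.q 0) x'' < (D0 D).k1 ll s x' x + (D0 D).k1 ll s x x''
  r1 : ∀ r, 0 ≤ r → r ≤ 1 → ∀ w ∈ Md D p r, ∀ x'' ∈ (D0 D).R p, ∀ x, Metric.infDist x (D.Z 0) = p.η1 →
    (D0 D).P ll s r w (D.q 0) + (D0 D).k1 ll s (D.q 0) x'' < (D0 D).P ll s r w x + (D0 D).k1 ll s x x''
  r2 : ∀ r, 0 ≤ r → r ≤ 1 → ∀ w ∈ Md D p r, ∀ x' ∈ (D0 D).R p, ∀ x, Metric.infDist x (D.Z 0) = p.η1 →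
    (D0 D).k1 ll s x' (D.q 0) + (D0 D).Q ll s r (D.q 0) w < (D0 D).k1 ll s x' x + (D0 D).Q ll s r x w
  v1 : ∀ x ∈ (D0 D).R p, ∀ x' ∈ (D0 D).R p, ∀ t, 0 < t → t < 1 → ∀ c ∈ D.Out t (p.ηc / 2),
    (D0 D).k1 ll s x x' < (D0 D).kk ll s 0 t x c + (D0 D).kk ll s t 1 c x'
  nQ : ∀ x ∈ (D0 D).R p, ∀ r, 0 ≤ r → r ≤ 1 → ∀ w ∈ Md D p r, ∀ t, 0 < t → t < 1 + r → ∀ c, c ∉ Nr D p t →
    (D0 D).Q ll s r x w < (D0 D).kk ll s 0 t x c + (D0 D).kk ll s t (1 + r) c w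
  nP : ∀ x ∈ (D0 D).R p, ∀ r, 0 ≤ r → r ≤ 1 → ∀ w ∈ Md D p r, ∀ t, r < t → t < 2 → ∀ c, c + D.g ∉ Nr D p t →
    (D0 D).P ll s r w x < (D0 D).kk ll s r t (w - D.g) c + (D0 D).kk ll s t 2 c x

/-- pairs of points which are bounded modulo the fast lattice, up to a common translation -/
def Xp (x x' : E) : Prop := ∃ a ∈ D.Lam, x + a ∈ D.X p.ρ ∧ x' + a ∈ D.X p.ρ

/-- the minimizers of class `s` over one piece of the chain stay in the region `Wn` -/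
def Win [CompleteSpace E] (l : E → E → ℝ → ℝ) (s : ℝ) (Wn : E → E → ℝ → Prop) : Prop :=
  ∀ t t', 1 ≤ t' - t → t' - t ≤ 2 → ∀ Z v : ℝ → E, ContinuousOn Z (Icc t t') → ContinuousOn v (Icc t t') →
    (∀ r ∈ Ioo t t', HasDerivAt Z (v r) r) →
    (∀ r ∈ Ioo t t', HasDerivAt (fun r => gu l (Z r) (v r) r) (gx l (Z r) (v r) r) r) →
    Xp D p (Z t) (Z t') →
    (D0 D).kk l s t t' (Z t) (Z t') = (∫ r in t..t', l (Z r) (v r) r) -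
      s * ((D0 D).B (Z t') - (D0 D).B (Z t)) + s ^ 2 / 2 * (t' - t) →
    ∀ r ∈ Icc t t', Wn (Z r) (v r) r

/-- the kernels of class `s` of `l0` and `l1` differ by a constant per unit of time -/
def KEq (l0 l1 : E → E → ℝ → ℝ) (s e : ℝ) : Prop := ∀ t t', 1 ≤ t' - t → t' - t ≤ 2 → ∀ x x', Xp D p x x' →
  (D0 D).kk l1 s t t' x x' = (D0 D).kk l0 s t t' x x' + e * (t' - t)

/-- a stage whose first gate is entered with the Lagrangian `l0` -/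
def MStage (l0 ll : E → E → ℝ → ℝ) (a b : ℝ) : Prop :=
  ∃ (J : ℕ) (s r : ℕ → ℝ) (F : ℕ → Finset ℕ) (c : ℕ → ℕ → ℝ) (G : ℕ → Set E) (δ : ℝ),
    0 < J ∧ 0 < δ ∧ s 0 = a ∧ s J = b ∧ (∀ i ≤ J, a ≤ s i ∧ s i ≤ b) ∧
    (∀ i ≤ J, (F i).Nonempty ∧ ∀ T ∈ F i, 1 ≤ T) ∧
    ∀ i < J, 0 ≤ r i ∧ r i < 1 ∧ IsCompact (G i) ∧ (G i).Nonempty ∧ G i ⊆ Md D p (r i) ∧
      ∀ z ∈ frontier (G i), ∃ w ∈ G i, ∀ x ∈ (D0 D).R p, ∀ x' ∈ (D0 D).R p,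
        (D0 D).Gm p (if i = 0 then l0 else ll) (s i) (F i) (c i) (r i) x w +
            (D0 D).Gp p ll (s (i + 1)) (F (i + 1)) (c (i + 1)) (r i) w x'
            - (s (i + 1) - s i) * (D0 D).B w + δ ≤
          (D0 D).Gm p (if i = 0 then l0 else ll) (s i) (F i) (c i) (r i) x z +
            (D0 D).Gp p ll (s (i + 1)) (F (i + 1)) (c (i + 1)) (r i) z x'
            - (s (i + 1) - s i) * (D0 D).B z

/-- Chain data with a Lagrangian for every leg. -/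
structure Chs (ll : ℕ → E → E → ℝ → ℝ) (x0 : E) (s r : ℕ → ℝ) (T : ℕ → ℕ) (z : ℕ → E) (y : ℕ → ℕ → E) :
    Prop where
  start : y 0 0 = x0
  r_nonneg : ∀ n, 0 ≤ r n
  r_lt : ∀ n, r n < 1
  T_pos : ∀ n, 1 ≤ T n
  zM : ∀ n, z (n + 1) ∈ Md D p (r (n + 1))
  yC : ∀ n k, k ≤ T n → y n k ∈ (D0 D).C p
  tend : Tendsto s atTop atTop
  mz : ∀ n, ∀ᶠ x in 𝓝 (z (n + 1)),
    (D0 D).Q (ll n) (s n) (r (n + 1)) (y n (T n)) (z (n + 1)) +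
        (D0 D).P (ll (n + 1)) (s (n + 1)) (r (n + 1)) (z (n + 1)) (y (n + 1) 0)
        - (s (n + 1) - s n) * (D0 D).B (z (n + 1)) ≤
      (D0 D).Q (ll n) (s n) (r (n + 1)) (y n (T n)) x +
        (D0 D).P (ll (n + 1)) (s (n + 1)) (r (n + 1)) x (y (n + 1) 0)
        - (s (n + 1) - s n) * (D0 D).B x
  m0 : ∀ n, ∀ x ∈ (D0 D).C p,
    (D0 D).P (ll (n + 1)) (s (n + 1)) (r (n + 1)) (z (n + 1)) (y (n + 1) 0) +
        (D0 D).k1 (ll (n + 1)) (s (n + 1)) (y (n + 1) 0) (y (n + 1) 1) ≤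
      (D0 D).P (ll (n + 1)) (s (n + 1)) (r (n + 1)) (z (n + 1)) x +
        (D0 D).k1 (ll (n + 1)) (s (n + 1)) x (y (n + 1) 1)
  mm : ∀ n k, k + 1 < T n → ∀ x ∈ (D0 D).C p,
    (D0 D).k1 (ll n) (s n) (y n k) (y n (k + 1)) + (D0 D).k1 (ll n) (s n) (y n (k + 1)) (y n (k + 2)) ≤
      (D0 D).k1 (ll n) (s n) (y n k) x + (D0 D).k1 (ll n) (s n) x (y n (k + 2))
  mT : ∀ n k, k + 1 = T n → ∀ x ∈ (D0 D).C p,
    (D0 D).k1 (ll n) (s n) (y n k) (y n (k + 1)) +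
        (D0 D).Q (ll n) (s n) (r (n + 1)) (y n (k + 1)) (z (n + 1)) ≤
      (D0 D).k1 (ll n) (s n) (y n k) x + (D0 D).Q (ll n) (s n) (r (n + 1)) x (z (n + 1))

/-- a truncation `lt` of `g ∘ l₂` at the scale `q`: its action is known at the speeds near `q`, and
`g' (q²/2) lt = g ∘ l₂ + c` in the region `l₂ / q² ∈ J`, which contains the points with `κ F` near `q` -/
structure Tr [CompleteSpace E] (m : ℝ) (L : LP) (κ : ℝ → ℝ) (K η : ℝ) (J : Set ℝ) (q : ℝ) (g : ℝ → ℝ)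
    (l2 lt : E → E → ℝ → ℝ) : Prop where
  fw : FW D m L q lt
  en : En D κ K lt
  eq : ∃ c : ℝ, ∀ x v t, l2 x v t / q ^ 2 ∈ J → deriv g (q ^ 2 / 2) * lt x v t = g (l2 x v t) + c
  win : ∀ x v t, |D.κ t * D.F x v t - q| ≤ η * q → l2 x v t / q ^ 2 ∈ J

/-- truncations exist at all large scales, with uniform constants -/
def TrFam [CompleteSpace E] (g : ℝ → ℝ) (l2 : E → E → ℝ → ℝ) : Prop :=
  ∃ (m : ℝ) (L : LP) (κ : ℝ → ℝ) (Cκ K η : ℝ) (J : Set ℝ) (q0 : ℝ), 0 < η ∧ 0 ≤ K ∧ 1 ≤ q0 ∧ IsOpen J ∧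
    (∀ t, 1 ≤ Cκ * κ t) ∧ (∀ t, κ t ≤ Cκ) ∧ (∀ t t', |κ t - κ t'| ≤ Cκ * |t - t'|) ∧
    ∀ q, q0 ≤ q → ∃ lt, Tr D m L κ K η J q g l2 lt

end EscP
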