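import Pool.Agent.EscW.PDefs2

/-!
Project EscW, part P: the scaled Lagrangians of the stages.
-/

noncomputable section

namespace EscP

open MeasureTheory Set Filter Topology Esc EscF EscG EscT
open scoped ContDiff

variable {ι : Type} [Fintype ι] {d : ℕ} {E : Type*} [NormedAddCommGroup E] [InnerProductSpace ℝ E]
  [FiniteDimensional ℝ E] {D : GT ι d E} {p : GP} {m M Mf : ℝ} {L : LP} {l0 l1 l2 ll l : E → E → ℝ → ℝ}
  {f f' : E → ℝ → ℝ}

/-- the potential divided by `c` -/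
def dv (c : ℝ) (f : E → ℝ → ℝ) : E → ℝ → ℝ := fun x t => c⁻¹ * f x t

/-- the slope of the growth function at the scale `q` -/
def sl (g : ℝ → ℝ) (q : ℝ) : ℝ := deriv g (q ^ 2 / 2)

/-- stage `i` for the potential `f` -/
def St (D : GT ι d E) (p : GP) (g : ℝ → ℝ) (q : ℕ → ℝ) (lt : ℕ → E → E → ℝ → ℝ) (i : ℕ) (f : E → ℝ → ℝ) : Prop :=
  Stage D p (lf (lt i) (dv (sl g (q i)) f)) (q i) (q i + 1)

/-- the scales of the stages -/
def IsSeq (g : ℝ → ℝ) (q : ℕ → ℝ) : Prop := 1 ≤ q 0 ∧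
  (∀ i, q i ≤ q (i + 1) ∧ q (i + 1) ≤ q i + 1 ∧ sl g (q (i + 1)) * q (i + 1) = sl g (q i) * (q i + 1)) ∧
  Tendsto q atTop atTop

end EscP
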