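import Pool.Agent.EscW.PDefs2
import Pool.Agent.EscT.A2b

/-!
Module PE1b: the energy along a curve which satisfies the Euler-Lagrange equation: `|en (b) - en (a)| ≤ M ∫ (1 + ‖v‖²)`.
-/

noncomputable section

namespace EscP

open MeasureTheory Set Filter Topology Esc EscF EscG EscT Asymptotics
open scoped ContDiff

variable {ι : Type} [Fintype ι] {E : Type*} [NormedAddCommGroup E] [InnerProductSpace ℝ E]
  [FiniteDimensional ℝ E] {β : Module.Basis ι ℝ E} {m M : ℝ} {l : E → E → ℝ → ℝ}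

namespace PEb

/-- the Lagrangian as a function of one variable -/
def un (l : E → E → ℝ → ℝ) (p : E × E × ℝ) : ℝ := l p.1 p.2.1 p.2.2

/-- time derivative of the Lagrangian -/
def lt (l : E → E → ℝ → ℝ) (x v : E) (t : ℝ) : ℝ := fderiv ℝ (un l) (x, v, t) (0, 0, 1)

theorem lt_bd (h : TG β m M l) (x v : E) (t : ℝ) : |lt l x v t| ≤ M * (1 + ‖v‖ ^ 2) := by
  have h1 : HasFDerivAt (un l) (fderiv ℝ (un l) (x, v, t)) (x, v, t) :=
    ((h.smooth.differentiable (by norm_num)) _).hasFDerivAt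
  have h2 : HasDerivAt (fun s : ℝ => ((x, v, s) : E × E × ℝ)) (0, 0, 1) t :=
    (hasDerivAt_const t x).prodMk ((hasDerivAt_const t v).prodMk (hasDerivAt_id t))
  have h3 : HasDerivAt (un l ∘ fun s : ℝ => ((x, v, s) : E × E × ℝ)) (fderiv ℝ (un l) (x, v, t) (0, 0, 1)) t :=
    h1.comp_hasDerivAt t h2
  have hC : 0 ≤ M * (1 + ‖v‖ ^ 2) := mul_nonneg h.M_nonneg (by positivity)
  have h4 := h3.le_of_lip' hC (Eventually.of_forall fun s => by
    rw [Real.norm_eq_abs, Real.norm_eq_abs]; exact h.l_t x v s t)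
  rw [Real.norm_eq_abs] at h4
  exact h4

theorem fd_split (h : TG β m M l) (x v : E) (t : ℝ) (w : E) (τ : ℝ) :
    fderiv ℝ (un l) (x, v, t) (w, 0, τ) = inner ℝ (gx l x v t) w + τ * lt l x v t := by
  have h1 : ((w, 0, τ) : E × E × ℝ) = (w, 0, 0) + τ • (0, 0, 1) := by simp
  rw [h1, map_add, map_smul, smul_eq_mul]
  congr 1
  have h2 := (A2b_fdx h x v t).fderiv
  have h3 : inner ℝ (gx l x v t) w = fderiv ℝ (fun y => l y v t) x w := by
    unfold gx gradient
    rw [InnerProductSpace.toDual_symm_apply]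
  rw [h3, h2]
  rfl

variable {Z v : ℝ → E} {r : ℝ}

/-- Taylor expansion at a moving velocity -/
theorem rem (h : TG β m M l) (hZ : HasDerivAt Z (v r) r) {w : ℝ → E} (hw : Tendsto w (𝓝 r) (𝓝 (v r))) :
    (fun q => un l (Z q, w q, q) - un l (Z r, w q, r) -
      fderiv ℝ (un l) (Z r, v r, r) (Z q - Z r, 0, q - r)) =o[𝓝 r] fun q => q - r := by
  have hs : HasStrictFDerivAt (un l) (fderiv ℝ (un l) (Z r, v r, r)) (Z r, v r, r) :=
    (h.smooth.contDiffAt (x := (Z r, v r, r))).hasStrictFDerivAt (by norm_num)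
  have h1 : Tendsto (fun q : ℝ => (((Z q, w q, q), (Z r, w q, r)) : (E × E × ℝ) × (E × E × ℝ))) (𝓝 r)
      (𝓝 ((Z r, v r, r), (Z r, v r, r))) := by
    have hZc : Tendsto Z (𝓝 r) (𝓝 (Z r)) := hZ.continuousAt
    have hid : Tendsto (fun q : ℝ => q) (𝓝 r) (𝓝 r) := tendsto_id
    exact (hZc.prodMk_nhds (hw.prodMk_nhds hid)).prodMk_nhds
      (tendsto_const_nhds.prodMk_nhds (hw.prodMk_nhds tendsto_const_nhds))
  have h2 := hs.isLittleO.comp_tendsto h1
  have h3 : (fun q => un l (Z q, w q, q) - un l (Z r, w q, r) -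
      fderiv ℝ (un l) (Z r, v r, r) (Z q - Z r, 0, q - r)) =
      (fun p : (E × E × ℝ) × (E × E × ℝ) => un l p.1 - un l p.2 -
        fderiv ℝ (un l) (Z r, v r, r) (p.1 - p.2)) ∘ fun q : ℝ => ((Z q, w q, q), (Z r, w q, r)) := by
    funext q
    simp only [Function.comp, Prod.mk_sub_mk, sub_self]
  rw [h3]
  refine h2.trans_isBigO ?_
  have h4 : ((fun p : (E × E × ℝ) × (E × E × ℝ) => p.1 - p.2) ∘ fun q : ℝ => ((Z q, w q, q), (Z r, w q, r))) =
      fun q => (Z q - Z r, (0 : E), q - r) := by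
    funext q
    simp
  rw [h4]
  have h5 : (fun q => Z q - Z r) =O[𝓝 r] fun q => q - r := hZ.isBigO_sub
  have h6 : (fun q => (0 : E)) =O[𝓝 r] fun q : ℝ => q - r := isBigO_zero _ _
  exact h5.prod_left (h6.prod_left (isBigO_refl _ _))

/-- the two test functions -/
theorem test (h : TG β m M l) (hZ : HasDerivAt Z (v r) r)
    (hp : HasDerivAt (fun r => gu l (Z r) (v r) r) (gx l (Z r) (v r) r) r)
    {w : ℝ → E} (hw : Tendsto w (𝓝 r) (𝓝 (v r))) :
    (fun q => inner ℝ (gu l (Z q) (v q) q - gu l (Z r) (v r) r) (w q) -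
      (un l (Z q, w q, q) - un l (Z r, w q, r)) + (q - r) * lt l (Z r) (v r) r) =o[𝓝 r] fun q => q - r := by
  have e1 := rem h hZ hw
  have e2 : (fun q => gu l (Z q) (v q) q - gu l (Z r) (v r) r - (q - r) • gx l (Z r) (v r) r) =o[𝓝 r]
      fun q => q - r := hasDerivAt_iff_isLittleO.1 hp
  have e3 : (fun q => Z q - Z r - (q - r) • v r) =o[𝓝 r] fun q => q - r := hasDerivAt_iff_isLittleO.1 hZ
  -- pairing with `w`
  have hwb : (fun q => w q) =O[𝓝 r] fun _ => (1 : ℝ) := hw.isBigO_one ℝ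
  have f1 : (fun q => inner ℝ (gu l (Z q) (v q) q - gu l (Z r) (v r) r - (q - r) • gx l (Z r) (v r) r) (w q))
      =o[𝓝 r] fun q => q - r := by
    have g1 : (fun q => ‖gu l (Z q) (v q) q - gu l (Z r) (v r) r - (q - r) • gx l (Z r) (v r) r‖ * ‖w q‖)
        =o[𝓝 r] fun q => (q - r) * 1 := e2.norm_left.mul_isBigO hwb.norm_left
    simp only [mul_one] at g1
    refine IsBigO.trans_isLittleO (IsBigO.of_bound 1 (Eventually.of_forall fun q => ?_)) g1
    rw [one_mul, Real.norm_eq_abs, Real.norm_of_nonneg (by positivity)]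
    exact abs_real_inner_le_norm _ _
  have f2 : (fun q => (q - r) * inner ℝ (gx l (Z r) (v r) r) (w q - v r)) =o[𝓝 r] fun q => q - r := by
    have g1 : Tendsto (fun q => (inner ℝ (gx l (Z r) (v r) r) (w q - v r) : ℝ)) (𝓝 r) (𝓝 0) := by
      have g2 : Tendsto (fun q => w q - v r) (𝓝 r) (𝓝 0) := by
        have := hw.sub_const (v r)
        rwa [sub_self] at this
      have g3 := (tendsto_const_nhds (x := gx l (Z r) (v r) r) (f := 𝓝 r)).inner (𝕜 := ℝ) g2
      rwa [inner_zero_right] at g3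
    have g4 : (fun q => (inner ℝ (gx l (Z r) (v r) r) (w q - v r) : ℝ)) =o[𝓝 r] fun _ => (1 : ℝ) :=
      (isLittleO_one_iff ℝ).2 g1
    have g5 := (isBigO_refl (fun q : ℝ => q - r) (𝓝 r)).mul_isLittleO g4
    simpa using g5
  have f3 : (fun q => (inner ℝ (gx l (Z r) (v r) r) (Z q - Z r - (q - r) • v r) : ℝ)) =o[𝓝 r] fun q => q - r := by
    refine IsBigO.trans_isLittleO (IsBigO.of_bound ‖gx l (Z r) (v r) r‖ (Eventually.of_forall fun q => ?_)) e3
    rw [Real.norm_eq_abs]
    exact abs_real_inner_le_norm _ _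
  have f4 := ((f1.add f2).sub e1).sub f3
  refine f4.congr_left fun q => ?_
  rw [fd_split h]
  simp only [inner_sub_left, inner_sub_right, real_inner_smul_left, real_inner_smul_right]
  ring

theorem en_deriv (h : TG β m M l) (hZ : HasDerivAt Z (v r) r) (hv : ContinuousAt v r)
    (hp : HasDerivAt (fun r => gu l (Z r) (v r) r) (gx l (Z r) (v r) r) r) :
    HasDerivAt (fun r => en l (Z r) (v r) r) (-lt l (Z r) (v r) r) r := by
  rw [hasDerivAt_iff_isLittleO]
  have e1 := test h hZ hp (w := v) hv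
  have e2 := test h hZ hp (w := fun _ => v r) tendsto_const_nhds
  have e3 := e1.norm_left.add e2.norm_left
  refine IsBigO.trans_isLittleO (IsBigO.of_bound 1 (Eventually.of_forall fun q => ?_)) e3
  have hm := h.m_pos
  have c1 := h.conv (Z q) (v r) (v q) q
  have c2 := h.conv (Z r) (v q) (v r) r
  have p1 : 0 ≤ m / 2 * ‖v r - v q‖ ^ 2 := by positivity
  have p2 : 0 ≤ m / 2 * ‖v q - v r‖ ^ 2 := by positivity
  set A := inner ℝ (gu l (Z q) (v q) q - gu l (Z r) (v r) r) (v q) -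
      (un l (Z q, v q, q) - un l (Z r, v q, r)) + (q - r) * lt l (Z r) (v r) r with hA
  set B := inner ℝ (gu l (Z q) (v q) q - gu l (Z r) (v r) r) (v r) -
      (un l (Z q, v r, q) - un l (Z r, v r, r)) + (q - r) * lt l (Z r) (v r) r with hB
  set X := en l (Z q) (v q) q - en l (Z r) (v r) r - (q - r) • (-lt l (Z r) (v r) r) with hX
  rw [inner_sub_right] at c1 c2
  have hXA : X ≤ A := by
    rw [hX, hA, inner_sub_left]
    simp only [en, un, smul_eq_mul]
    linarith
  have hBX : B ≤ X := by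
    rw [hX, hB, inner_sub_left]
    simp only [en, un, smul_eq_mul]
    linarith
  rw [one_mul, Real.norm_eq_abs, Real.norm_eq_abs, Real.norm_eq_abs, Real.norm_eq_abs]
  have q1 := le_abs_self A
  have q2 := neg_abs_le B
  have q3 := abs_nonneg A
  have q4 := abs_nonneg B
  rw [abs_of_nonneg (add_nonneg q3 q4), abs_le]
  constructor <;> linarith

theorem en_int (h : TG β m M l) {t t' : ℝ} {Z v : ℝ → E} (hZ : ContinuousOn Z (Icc t t'))
    (hv : ContinuousOn v (Icc t t')) (hZv : ∀ r ∈ Ioo t t', HasDerivAt Z (v r) r)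
    (hE : ∀ r ∈ Ioo t t', HasDerivAt (fun r => gu l (Z r) (v r) r) (gx l (Z r) (v r) r) r)
    {a b : ℝ} (ha : t ≤ a) (hab : a ≤ b) (hb : b ≤ t') :
    |en l (Z b) (v b) b - en l (Z a) (v a) a| ≤ M * ∫ r in a..b, (1 + ‖v r‖ ^ 2) := by
  have hs : Icc a b ⊆ Icc t t' := Icc_subset_Icc ha hb
  have hZ1 := hZ.mono hs
  have hv1 := hv.mono hs
  have hc : ContinuousOn (fun r => ((Z r, v r, r) : E × E × ℝ)) (Icc a b) :=
    hZ1.prodMk (hv1.prodMk continuousOn_id)
  have h1 : ContinuousOn (fun r => en l (Z r) (v r) r) (Icc a b) := by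
    unfold en
    have g1 : ContinuousOn (fun r => gu l (Z r) (v r) r) (Icc a b) := h.gu_cont.comp_continuousOn hc
    have g2 : ContinuousOn (fun r => l (Z r) (v r) r) (Icc a b) := h.smooth.continuous.comp_continuousOn hc
    exact (g1.inner hv1).sub g2
  have h2 : ContinuousOn (fun r => -lt l (Z r) (v r) r) (Icc a b) := by
    unfold lt
    have g1 : Continuous (fderiv ℝ (un l)) := h.smooth.continuous_fderiv (by norm_num)
    have g2 : ContinuousOn (fun r => fderiv ℝ (un l) (Z r, v r, r)) (Icc a b) := g1.comp_continuousOn hc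
    exact (g2.clm_apply continuousOn_const).neg
  have h3 : IntervalIntegrable (fun r => -lt l (Z r) (v r) r) volume a b := by
    apply ContinuousOn.intervalIntegrable
    rwa [uIcc_of_le hab]
  have h4 := intervalIntegral.integral_eq_sub_of_hasDerivAt_of_le hab h1 (fun r hr => by
    have hr' : r ∈ Ioo t t' := ⟨ha.trans_lt hr.1, hr.2.trans_le hb⟩
    exact en_deriv h (hZv r hr') (hv.continuousAt (Icc_mem_nhds hr'.1 hr'.2)) (hE r hr')) h3
  rw [← h4, ← Real.norm_eq_abs, ← intervalIntegral.integral_const_mul]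
  apply intervalIntegral.norm_integral_le_of_norm_le hab
  · refine Eventually.of_forall fun r _ => ?_
    rw [norm_neg, Real.norm_eq_abs]
    exact lt_bd h _ _ _
  · apply ContinuousOn.intervalIntegrable
    rw [uIcc_of_le hab]
    exact continuousOn_const.mul (continuousOn_const.add (hv1.norm.pow 2))

end PEb

end EscP
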