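import Pool.Agent.EscW.PDefs
import Pool.Agent.EscT.A2b
import Pool.Agent.EscT.A5c
import Pool.Agent.EscT.C4
import Pool.Agent.EscT.C6
import Pool.Agent.EscT.C11a
import Pool.Agent.EscT.C11b
import Pool.Agent.EscG.F2a
import Pool.Agent.EscG.F2b
import Pool.Agent.EscG.F1
import Pool.Agent.helper1.Esc.Mid

/-!
Project EscT (MP_6acca1_an), module F3a: approximate decoupling is dense (potentials from a class `S : SG`).
-/

noncomputable section

set_option linter.unusedSectionVars false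

namespace EscP

open MeasureTheory Set Filter Topology Esc EscF EscG EscT
open scoped ContDiff

variable {ι : Type} [Fintype ι] {d : ℕ} {E : Type*} [NormedAddCommGroup E] [InnerProductSpace ℝ E]
  [FiniteDimensional ℝ E] {D : GT ι d E} {p : GP} {m M Mf : ℝ} {L : LP} {ll l : E → E → ℝ → ℝ}
  {f f' : E → ℝ → ℝ}

namespace F3a

theorem lv_zero (b : Fin d → E) : lv b 0 = 0 := by simp [lv]

theorem lv_Lam (h : D.Ok) (n : Fin d → ℤ) : lv D.b n ∈ D.Lam := by
  unfold lv
  refine D.Lam.sum_mem fun i _ => ?_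
  obtain ⟨k, hk⟩ : ∃ k, D.b i = D.β k := (h.fr0 0).bβ i
  rw [hk, Int.cast_smul_eq_zsmul]
  refine D.Lam.zsmul_mem ?_ _
  exact Submodule.subset_span ⟨k, rfl⟩

theorem mono {a b : ℝ} (h : Good a f) (hab : a ≤ b) : Good b f where
  pos := h.pos.trans hab
  cont := h.cont
  bd x t := (h.bd x t).trans hab
  lipx x x' t := (h.lipx x x' t).trans (mul_le_mul_of_nonneg_right hab (norm_nonneg _))
  lipt x t t' := (h.lipt x t t').trans (mul_le_mul_of_nonneg_right hab (abs_nonneg _))

theorem good_avg {κ : Type*} (I : Finset κ) (hI : I.Nonempty) {g : κ → E → ℝ → ℝ}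
    (hf : ∀ i ∈ I, Good Mf (g i)) : Good Mf (fun x t => (∑ i ∈ I, g i x t) / I.card) := by
  have hc : (0:ℝ) < I.card := by exact_mod_cast hI.card_pos
  have hM : 0 ≤ Mf := (hf _ hI.choose_spec).pos
  have key : ∀ (a b : κ → ℝ) (A : ℝ), (∀ i ∈ I, |a i - b i| ≤ A) →
      |(∑ i ∈ I, a i) / I.card - (∑ i ∈ I, b i) / I.card| ≤ A := by
    intro a b A h
    rw [← sub_div, ← Finset.sum_sub_distrib, abs_div, abs_of_pos hc, div_le_iff₀ hc]
    refine (Finset.abs_sum_le_sum_abs _ _).trans ((Finset.sum_le_sum h).trans ?_)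
    rw [Finset.sum_const, nsmul_eq_mul, mul_comm]
  refine ⟨hM, ?_, fun x t => ?_, fun x x' t => key _ _ _ fun i hi => (hf i hi).lipx x x' t,
    fun x t t' => key _ _ _ fun i hi => (hf i hi).lipt x t t'⟩
  · exact (continuous_finsetSum _ fun i hi => (hf i hi).cont).div_const _
  · have := key (fun i => g i x t) (fun _ => 0) Mf fun i hi => by
      rw [sub_zero]; exact (hf i hi).bd x t
    simpa using this

theorem pt_avg {β : Module.Basis ι ℝ E} {κ : Type*} (I : Finset κ) {g : κ → E → ℝ → ℝ}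
    (hf : ∀ i ∈ I, Pt β (g i)) : Pt β (fun x t => (∑ i ∈ I, g i x t) / I.card) where
  smooth := (ContDiff.sum fun i hi => (hf i hi).smooth).div_const _
  per i x t := by
    congr 1
    exact Finset.sum_congr rfl fun j hj => (hf j hj).per i x t
  pert x t := by
    congr 1
    exact Finset.sum_congr rfl fun j hj => (hf j hj).pert x t

/-- points of the room are bounded modulo the fast lattice -/
theorem R_X (hp : POk D p) {x : E} (hx : x ∈ (D0 D).R p) : x ∈ D.X p.ρ := by
  have h1 : x ∈ D.Rm 0 p.ηc := by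
    have h2 : Metric.infDist x (D.Z 0) ≤ p.η1 := hx
    have h3 := hp.η1_le
    have h4 := hp.η1_pos
    show Metric.infDist x (D.Z 0) ≤ p.ηc
    linarith
  have h2 := hp.bnd 0 x (Or.inl h1) 0 (by norm_num)
  simpa using h2

/-- a bump in time around `0` vanishes in the middle of the interval -/
theorem mid {w t : ℝ} (h1 : w ≤ t) (h2 : w ≤ 1 - t) (k : ℤ) : w ≤ |t + k - 0| := by
  rw [sub_zero]
  rcases le_or_gt 0 k with hk | hk
  · have : (0:ℝ) ≤ k := by exact_mod_cast hk
    exact (by linarith : w ≤ t + k).trans (le_abs_self _)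
  · have : (k:ℝ) ≤ -1 := by exact_mod_cast (by omega : k ≤ -1)
    exact (by linarith : w ≤ -(t + k)).trans (neg_le_abs _)

end F3a

open F3a

theorem dec_dense (h : D.Ok) (hp : POk D p) (hl : TG D.β m M l) (S : SG D.β) (hG : PG D p S) (N : SmNorm D.β)
    (hf : Pt D.β f) (hg : Good Mf f) {s ε η : ℝ} (hs : 0 ≤ s) (hε : 0 < ε) (hη : 0 < η) :
    ∃ G, S.mem G ∧ N.nm G ≤ ε ∧ Good ε G ∧ (D0 D).Dw p (lf l (fun x t => f x t + G x t)) s η := by
  classical
  have hMf : 0 ≤ Mf := hg.pos
  have hMf1 : 0 ≤ Mf + 1 := by linarith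
  obtain ⟨B, hB, hKD⟩ := kd h hp hl hMf1 s
  obtain ⟨V, hV, hcone⟩ := kk_cone h hl hMf1 s p.ρ
  obtain ⟨r0, hr0, hbump⟩ := S.bump
  have hηc := hp.ηc_pos
  -- the radius
  obtain ⟨r, hr, hrr0, hrηc, hrη⟩ : ∃ r : ℝ, 0 < r ∧ r ≤ r0 ∧ 8 * r ≤ p.ηc ∧
      8 * (B * (8 * r)) ≤ η / 2 := by
    refine ⟨min r0 (min (p.ηc / 8) (η / (128 * (B + 1)))), ?_, min_le_left _ _, ?_, ?_⟩
    · exact lt_min hr0 (lt_min (by positivity) (by positivity))
    · have h1 : min r0 (min (p.ηc / 8) (η / (128 * (B + 1)))) ≤ p.ηc / 8 :=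
        (min_le_right _ _).trans (min_le_left _ _)
      linarith
    · have h1 : min r0 (min (p.ηc / 8) (η / (128 * (B + 1)))) ≤ η / (128 * (B + 1)) :=
        (min_le_right _ _).trans (min_le_right _ _)
      rw [le_div_iff₀ (by positivity)] at h1
      have h2 : 0 < min r0 (min (p.ηc / 8) (η / (128 * (B + 1)))) :=
        lt_min hr0 (lt_min (by positivity) (by positivity))
      nlinarith
  have hM1 : Good (Mf + 1) f := mono hg (by linarith)
  have hK := hKD f hf hM1 s hs le_rfl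
  obtain ⟨I, hIC, hnet⟩ := hK.exists_net hr
  have hIne : I.Nonempty := by
    obtain ⟨c0, hc0⟩ := hK.ne
    obtain ⟨c, hc, _⟩ := hnet c0 hc0
    exact ⟨c, hc⟩
  choose g hgs hgp hg01 hg1 hgz hgm using hbump r hr hrr0
  -- the width
  obtain ⟨w, hw, hw4, hVw⟩ : ∃ w : ℝ, 0 < w ∧ w ≤ 1 / 4 ∧ V * w ≤ r := by
    refine ⟨min (1 / 4) (r / V), lt_min (by norm_num) (by positivity), min_le_left _ _, ?_⟩
    have h1 : min (1 / 4) (r / V) ≤ r / V := min_le_right _ _
    rw [le_div_iff₀ hV] at h1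
    linarith
  obtain ⟨θ, hθs, hθp, hθ01, hθ1, hθ0⟩ := exists_tbump hw hw4 0
  set gz : E → E → ℝ → ℝ := fun c x t => g c x * θ t with hgz'
  have hgmem : ∀ c, S.mem (gz c) := fun c => by
    have h1 := hgm c θ hθs hθp
    have h2 : gz c = fun x t => θ t * g c x := by
      funext x t
      exact mul_comm _ _
    rw [h2]
    exact h1
  have hgsm : ∀ c, Sm D.β (gz c) := fun c => S.sm _ (hgmem c)
  have hgz0 : ∀ c x t, 0 ≤ gz c x t := fun c x t => mul_nonneg (hg01 c x).1 (hθ01 t).1
  -- the amplitude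
  choose Ck hCk hCg using fun c => (hgsm c).good
  set Kb : ℝ := 1 + ∑ c ∈ I, (Ck c + |N.nm (gz c)|) with hKb
  have hterm : ∀ c ∈ I, 0 ≤ Ck c + |N.nm (gz c)| := fun c _ => add_nonneg (hCk c).le (abs_nonneg _)
  have hKbk : ∀ c ∈ I, Ck c + |N.nm (gz c)| ≤ Kb := by
    intro c hc
    have := Finset.single_le_sum (f := fun c => Ck c + |N.nm (gz c)|) (fun c hc => hterm c hc) hc
    linarith
  have hKb1 : 1 ≤ Kb := by
    have : 0 ≤ ∑ c ∈ I, (Ck c + |N.nm (gz c)|) := Finset.sum_nonneg fun c hc => hterm c hc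
    linarith
  set mm : ℝ := min 1 ε with hmm
  have hmm0 : 0 < mm := lt_min one_pos hε
  have hm1 : mm ≤ 1 := min_le_left _ _
  have hmε : mm ≤ ε := min_le_right _ _
  set τ : ℝ := mm / Kb with hτ
  have hτ0 : 0 < τ := by positivity
  have hτC : ∀ c ∈ I, τ * (Ck c + |N.nm (gz c)|) ≤ mm := by
    intro c hc
    have h1 := mul_le_mul_of_nonneg_left (hKbk c hc) hτ0.le
    have h2 : τ * Kb = mm := by rw [hτ]; field_simp
    linarith
  have hτ1 : ∀ c ∈ I, |(-τ)| * Ck c ≤ mm := fun c hc => by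
    rw [abs_neg, abs_of_pos hτ0]
    have := hτC c hc
    have h2 : 0 ≤ τ * |N.nm (gz c)| := by positivity
    linarith
  have hτ2 : ∀ c ∈ I, τ * |N.nm (gz c)| ≤ mm := fun c hc => by
    have := hτC c hc
    have h2 : 0 ≤ τ * Ck c := mul_nonneg hτ0.le (hCk c).le
    linarith
  set G : E → E → ℝ → ℝ := fun c x t => (-τ) * gz c x t with hGdef
  have hGmem : ∀ c, S.mem (G c) := fun c => S.smul (-τ) _ (hgmem c)
  have hGsm : ∀ c, Sm D.β (G c) := fun c => S.sm _ (hGmem c)
  have hGg : ∀ c ∈ I, Good mm (G c) := fun c hc => hCg c (-τ) mm hmm0.le (hτ1 c hc)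
  set fk : E → E → ℝ → ℝ := fun c x t => f x t + G c x t with hfk
  have hfkg : ∀ c ∈ I, Good (Mf + 1) (fk c) := fun c hc =>
    mono (Good.add' hg (hGg c hc)) (by linarith)
  have hfkp : ∀ c, Pt D.β (fk c) := fun c => Pt.add hf (Sm.pt (hGsm c))
  have hKk : ∀ c ∈ I, KD ((D0 D).k1 (lf l (fk c)) s) ((D0 D).C p) ((D0 D).R p) B B := fun c hc =>
    hKD (fk c) (hfkp c) (hfkg c hc) s hs le_rfl
  have hcard : (0:ℝ) < I.card := by exact_mod_cast hIne.card_pos
  -- near the room some bump is seen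
  have hsee : ∀ z ∈ (D0 D).R p, ∀ x : E, ‖x - z‖ ≤ r → ∃ c ∈ I, g c x = 1 := by
    intro z hz x hx
    obtain ⟨n, hn⟩ := R_red h hp hz
    obtain ⟨c, hc, hd⟩ := hnet _ hn
    refine ⟨c, hc, hg1 c x ⟨LinearIsometryEquiv.refl ℝ E, S.one, lv D.b n, lv_Lam h n, ?_⟩⟩
    have e : LinearIsometryEquiv.refl ℝ E x + lv D.b n - c = (x - z) + (z + lv D.b n - c) := by
      show x + lv D.b n - c = (x - z) + (z + lv D.b n - c)
      abel
    rw [dist_eq_norm] at hd
    rw [e]
    refine (norm_add_le _ _).trans ?_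
    linarith
  -- the average
  set κ : ℝ → ℝ := fun t => τ / I.card * max 0 (1 - t / (w / 2)) with hκ
  have hκc : Continuous κ :=
    continuous_const.mul (continuous_const.max (continuous_const.sub (continuous_id.div_const _)))
  have hκpos : 0 < ∫ t in (0:ℝ)..1, κ t := by
    refine intervalIntegral.integral_pos zero_lt_one hκc.continuousOn (fun t _ => ?_)
      ⟨0, by simp, ?_⟩
    · exact mul_nonneg (by positivity) (le_max_left _ _)
    · have : κ 0 = τ / I.card := by simp [hκ]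
      rw [this]; positivity
  have hav : ∀ z ∈ (D0 D).R p, ∀ z' ∈ (D0 D).R p, (∑ c ∈ I, (D0 D).k1 (lf l (fk c)) s z z') / I.card ≤
      (D0 D).k1 (lf l f) s z z' - ∫ t in (0:ℝ)..1, κ t := by
    intro z hz z' hz'
    have h1 : (∑ c ∈ I, (D0 D).k1 (lf l (fk c)) s z z') / I.card ≤
        (D0 D).kk (lf l (fun x r => (∑ c ∈ I, fk c x r) / I.card)) s 0 1 z z' :=
      K_concave (h.fr0 0).li I hIne hl (fun c _ => hfkp c) hfkg (QB0 h.toOk0 0) hs (zero_lt_one)
        z z'
    have h2 := hcone (fun x r => (∑ c ∈ I, fk c x r) / I.card) f (pt_avg I fun c _ => hfkp c)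
      (F3a.good_avg I hIne hfkg) hf hM1 s hs le_rfl 0 1 (by norm_num) (by norm_num) z (R_X hp hz) z'
      (R_X hp hz') κ (hκc.intervalIntegrable _ _) (fun t ht x hx _ => by
        have e1 : ∑ c ∈ I, fk c x t = I.card * f x t - τ * ((∑ c ∈ I, g c x) * θ t) := by
          simp only [hfk, hGdef, hgz']
          rw [Finset.sum_add_distrib, Finset.sum_const, nsmul_eq_mul, ← Finset.mul_sum,
            ← Finset.sum_mul]
          ring
        have e2 : κ t ≤ τ * ((∑ c ∈ I, g c x) * θ t) / I.card := by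
          rcases le_or_gt t (w / 2) with h3 | h3
          · have h4 : ‖x - z‖ ≤ r := by
              refine hx.trans ?_
              rw [sub_zero]
              have h5 : V * t ≤ V * w := mul_le_mul_of_nonneg_left (by linarith) hV.le
              linarith
            obtain ⟨c, hc, hc1⟩ := hsee z hz x h4
            have h5 : 1 ≤ ∑ c ∈ I, g c x := by
              rw [← hc1]
              exact Finset.single_le_sum (f := fun c => g c x) (fun c _ => (hg01 c x).1) hc
            have h6 : θ t = 1 := hθ1 t ⟨0, by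
              rw [Int.cast_zero, add_zero, sub_zero, abs_of_nonneg ht.1]; exact h3⟩
            rw [h6, mul_one]
            have h7 : max 0 (1 - t / (w / 2)) ≤ 1 := by
              refine max_le zero_le_one ?_
              have : 0 ≤ t / (w / 2) := div_nonneg ht.1 (by linarith)
              linarith
            have h8 : κ t ≤ τ / I.card := by
              have := mul_le_mul_of_nonneg_left h7 (by positivity : 0 ≤ τ / I.card)
              rwa [mul_one] at this
            refine h8.trans (div_le_div_of_nonneg_right ?_ hcard.le)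
            nlinarith
          · have h4 : κ t = 0 := by
              simp only [hκ]
              rw [max_eq_left, mul_zero]
              have : 1 ≤ t / (w / 2) := by
                rw [le_div_iff₀ (by linarith)]; linarith
              linarith
            rw [h4]
            have h5 : 0 ≤ ∑ c ∈ I, g c x := Finset.sum_nonneg fun c _ => (hg01 c x).1
            exact div_nonneg (mul_nonneg hτ0.le (mul_nonneg h5 (hθ01 t).1)) hcard.le
        rw [e1, sub_div, mul_div_cancel_left₀ _ hcard.ne']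
        linarith)
    have h3 : (D0 D).k1 (lf l f) s z z' = (D0 D).kk (lf l f) s 0 1 z z' := rfl
    linarith
  -- outside of the visible part the kernels do not decrease
  set U : E → Set E := fun c => {x | ∃ P ∈ S.G, ∃ v ∈ D.Lam, ‖P x + v - c‖ < 4 * r} with hU
  have hfar : ∀ c z x : E, z ∉ U c → ‖x - z‖ ≤ r → g c x = 0 := by
    intro c z x hz hx
    refine hgz c x fun P hP v hv => ?_
    have h1 : 4 * r ≤ ‖P z + v - c‖ := by
      by_contra hcon
      exact hz ⟨P, hP, v, hv, not_le.mp hcon⟩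
    have h2 : ‖P z + v - c‖ ≤ ‖P x + v - c‖ + ‖x - z‖ := by
      have e : P z + v - c = (P x + v - c) - P (x - z) := by
        rw [map_sub]
        abel
      rw [e]
      refine (norm_sub_le _ _).trans ?_
      rw [P.norm_map]
    linarith
  have hUJ : ∀ (c z : E) (n : Fin d → ℤ), z ∉ U c → z + lv D.b n ∉ U c := by
    rintro c z n hz ⟨P, hP, v, hv, hv'⟩
    refine hz ⟨P, hP, P (lv D.b n) + v, D.Lam.add_mem (S.lam P hP _ (lv_Lam h n)) hv, ?_⟩
    rwa [← add_assoc, ← map_add]
  have hcmp : ∀ c ∈ I, ∀ z ∈ (D0 D).R p, ∀ z' ∈ (D0 D).R p, z ∉ U c → z' ∉ U c →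
      (D0 D).k1 (lf l f) s z z' ≤ (D0 D).k1 (lf l (fk c)) s z z' := by
    intro c hc z hz z' hz' hzU hzU'
    have h2 := hcone f (fk c) hf hM1 (hfkp c) (hfkg c hc) s hs le_rfl 0 1 (by norm_num) (by norm_num)
      z (R_X hp hz) z' (R_X hp hz') (fun _ => 0) intervalIntegrable_const (fun t ht x hx hx' => by
        have h3 : gz c x t = 0 := by
          show g c x * θ t = 0
          rcases lt_or_ge t w with h4 | h4
          · rw [hfar c z x hzU (hx.trans ?_), zero_mul]
            rw [sub_zero]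
            have h5 : V * t ≤ V * w := mul_le_mul_of_nonneg_left h4.le hV.le
            linarith
          · rcases lt_or_ge (1 - t) w with h5 | h5
            · obtain ⟨n, hn⟩ := hx'
              rw [hfar c _ x (hUJ c z' n hzU') (hn.trans ?_), zero_mul]
              have h6 : V * (1 - t) ≤ V * w := mul_le_mul_of_nonneg_left h5.le hV.le
              linarith
            · rw [hθ0 t fun k => mid h4 h5 k, mul_zero]
        have h4 : fk c x t = f x t := by
          show f x t + (-τ) * gz c x t = f x t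
          rw [h3, mul_zero, add_zero]
        rw [h4, add_zero])
    rw [intervalIntegral.integral_zero, add_zero] at h2
    exact h2
  -- the barriers are almost constant on the visible part
  have hbar : ∀ c ∈ I, ∀ x ∈ (D0 D).R p, ∀ x' ∈ (D0 D).R p, x ∈ U c → x' ∈ U c → ∀ z ∈ (D0 D).R p,
      |Esc.bar ((D0 D).k1 (lf l (fk c)) s) ((D0 D).C p) z x - Esc.bar ((D0 D).k1 (lf l (fk c)) s) ((D0 D).C p) z x'| ≤
        B * (8 * r) ∧
      |Esc.bar ((D0 D).k1 (lf l (fk c)) s) ((D0 D).C p) x z - Esc.bar ((D0 D).k1 (lf l (fk c)) s) ((D0 D).C p) x' z| ≤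
        B * (8 * r) := by
    intro c hc x hx x' hx' hxU hxU' z hz
    obtain ⟨P, hP, v, hv, hv1⟩ := hxU
    obtain ⟨P', hP', v', hv', hv1'⟩ := hxU'
    have hcR : c ∈ (D0 D).R p := C_sub (hIC c hc)
    obtain ⟨rfl, -⟩ := R_sepG h hp hG hP hv hx hcR (by linarith)
    obtain ⟨rfl, -⟩ := R_sepG h hp hG hP' hv' hx' hcR (by linarith)
    replace hv1 : ‖x + v - c‖ < 4 * r := hv1
    replace hv1' : ‖x' + v' - c‖ < 4 * r := hv1'
    have h1 : ‖x - (x' + (v' - v))‖ ≤ 8 * r := by
      have e : x - (x' + (v' - v)) = (x + v - c) - (x' + v' - c) := by abel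
      rw [e]
      refine (norm_sub_le _ _).trans ?_
      linarith
    obtain ⟨n, hn⟩ := R_sep h hp (D.Lam.sub_mem hv' hv) hx hx' (h1.trans hrηc)
    rw [hn] at h1
    have hx2 : x' + lv D.b n ∈ (D0 D).R p := R_J h hx' n
    have hK' := hKk c hc
    have hlk : TG D.β m (M + (Mf + 1)) (lf l (fk c)) := TG.add hl (hfkp c) (hfkg c hc)
    have e1 : Esc.bar ((D0 D).k1 (lf l (fk c)) s) ((D0 D).C p) z (x' + lv D.b n) =
        Esc.bar ((D0 D).k1 (lf l (fk c)) s) ((D0 D).C p) z x' := by
      refine KD.bar_red_right hK' (fun u _ => ?_) hz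
      have := kk_J h hlk s 0 1 u x' 0 n
      rwa [lv_zero, add_zero] at this
    have e2 : Esc.bar ((D0 D).k1 (lf l (fk c)) s) ((D0 D).C p) (x' + lv D.b n) z =
        Esc.bar ((D0 D).k1 (lf l (fk c)) s) ((D0 D).C p) x' z := by
      refine KD.bar_red_left hK' (fun u _ => ?_) hz
      have := kk_J h hlk s 0 1 x' u n 0
      rwa [lv_zero, add_zero] at this
    rw [← e1, ← e2]
    have b1 := bar_lip hK' hz hx hz hx2
    have b2 := bar_lip hK' hx hz hx2 hz
    rw [dist_self, zero_add] at b1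
    rw [dist_self, add_zero] at b2
    have b3 : B * dist x (x' + lv D.b n) ≤ B * (8 * r) := by
      rw [dist_eq_norm]
      exact mul_le_mul_of_nonneg_left h1 hB
    exact ⟨b1.trans b3, b2.trans b3⟩
  obtain ⟨c, hc, hwin⟩ := dec_abs2 hK I hIne (Ks := fun c => (D0 D).k1 (lf l (fk c)) s) hKk hκpos hav U
    hcmp hbar
  obtain ⟨F, hF, hF1, hFd⟩ := hwin (η / 16) (by positivity)
  refine ⟨G c, hGmem c, ?_, mono (hGg c hc) hmε, F, _, hF, hF1, fun z hz z' hz' a ha a' ha' =>
    (hFd z hz z' hz' a ha a' ha').trans (by linarith)⟩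
  refine (N.smul_le (-τ) _ (hgsm c)).trans ?_
  rw [abs_neg, abs_of_pos hτ0]
  have h1 := hτ2 c hc
  have h2 := mul_le_mul_of_nonneg_left (le_abs_self (N.nm (gz c))) hτ0.le
  linarith

end EscP
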