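import Pool.Agent.EscW.PDefs
import Pool.Agent.EscW.PF6m2
import Pool.Agent.EscW.PC6b
import Pool.Agent.EscW.PC13
import Pool.Agent.EscT.F6

set_option linter.unusedSectionVars false

noncomputable section

namespace EscP

open MeasureTheory Set Filter Topology Esc EscF EscG EscT
open scoped ContDiff

variable {ι : Type} [Fintype ι] {d : ℕ} {E : Type*} [NormedAddCommGroup E] [InnerProductSpace ℝ E]
  [FiniteDimensional ℝ E] {D : GT ι d E} {p : GP} {m M Mf : ℝ} {L : LP} {ll l : E → E → ℝ → ℝ}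
  {f f' : E → ℝ → ℝ}

/-! module PF6: adaptation of EscT/F6.lean (which is imported: its FT-free lemmas can be used) -/

theorem gates (S : SG D.β) (h : D.Ok) (hp : POk D p) (hG : PG D p S) (m : ℝ) (L : LP)
    (Mf : ℝ) (hMf : 0 ≤ Mf) : ∃ q0 : ℝ, 1 ≤ q0 ∧ ∀ (N : SmNorm D.β) (q : ℝ), q0 ≤ q → ∀ l, FW D m L q l →
    ∀ ε : ℝ, 0 < ε → ∃ (J : ℕ) (s : ℕ → ℝ) (δ : ℝ),
    0 < J ∧ 0 < δ ∧ s 0 = q ∧ s J = q + 1 ∧ (∀ i ≤ J, q ≤ s i ∧ s i ≤ q + 1) ∧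
    ∀ f, Pt D.β f → Good Mf f → ∃ G, S.mem G ∧ N.nm G ≤ ε ∧ Good ε G ∧ (∀ x t, 0 ≤ G x t) ∧
      (∀ x t, x ∉ D.Out t (p.ηc / 2) → G x t = 0) ∧ ∀ i < J, ∃ (r : ℝ) (A : Set E), 0 ≤ r ∧ r < 1 ∧
        IsCompact A ∧ A.Nonempty ∧ A ⊆ Md D p r ∧ ∀ z ∈ frontier A, ∃ w ∈ A,
          (D0 D).W p (lf l (fun x t => f x t + G x t)) (s i) (s (i + 1)) r w -
              (s (i + 1) - s i) * (D0 D).B w + δ ≤
            (D0 D).W p (lf l (fun x t => f x t + G x t)) (s i) (s (i + 1)) r z -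
              (s (i + 1) - s i) * (D0 D).B z := by
  classical
  obtain ⟨s0, hs0, HF⟩ := F6_H h hp m L (Mf + 1)
  obtain ⟨kN, CI, s1, δ0, hkN, hCI, hs1, hδ0, Hin⟩ := inner_slice h hp m (L + (Mf + 1))
  obtain ⟨N0, hN0, HNe⟩ := Md_ne h hp
  refine ⟨max s0 s1, hs0.trans (le_max_left _ _), fun N q hqm l hl ε hε => ?_⟩
  have hqs0 : s0 ≤ q := (le_max_left _ _).trans hqm
  have hqs1 : s1 ≤ q := (le_max_right _ _).trans hqm
  obtain ⟨V, H⟩ := HF q hqs0 l hl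
  obtain ⟨mult0, r1, hr1, Hc⟩ := exists_centres h hp
  obtain ⟨mult, hmu⟩ : ∃ mult : ℕ, mult = S.G.card * mult0 := ⟨_, rfl⟩
  obtain ⟨r2, hr2, Hsb⟩ := S.bump
  obtain ⟨r3, hr3, Hsf⟩ := sphere_free h
  obtain ⟨ρ0, hρ0, HMi⟩ := Mi_nhd h hp
  have hηc := hp.ηc_pos
  have hMF : 0 ≤ D.MF := (h.fr0 0).fins.mF_pos.le.trans (h.fr0 0).fins.mF_le
  obtain ⟨Nn, hNn, hNk, hNN⟩ : ∃ Nn : ℕ, 0 < Nn ∧ kN * (q + 1) ≤ Nn ∧ N0 ≤ Nn := by
    refine ⟨⌈kN * (q + 1)⌉₊ + N0, by omega, (Nat.le_ceil _).trans ?_, by omega⟩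
    push_cast
    linarith [(Nat.cast_nonneg N0 : (0:ℝ) ≤ N0)]
  have hNn' : (0:ℝ) < Nn := by exact_mod_cast hNn
  have hq1 : 1 ≤ q := hs0.trans hqs0
  obtain ⟨N1, hN1⟩ : ∃ N1 : ℕ, N1 = 2 * (2 * (2 * (3 * Nn * mult)) + 1) := ⟨_, rfl⟩
  -- radius of the cells
  obtain ⟨ρ, hρ, hρ1, hρ2, hρ3, hρ4, hρ5⟩ : ∃ ρ : ℝ, 0 < ρ ∧ ρ ≤ r1 ∧ ρ ≤ r2 ∧
      3 * ρ * (N1 + 2) ≤ r3 ∧ 3 * ρ * (N1 + 1) ≤ ρ0 ∧ 3 * ρ ≤ p.ηc / 4 := by
    refine ⟨min r1 (min r2 (min (r3 / (3 * (N1 + 2))) (min (ρ0 / (3 * (N1 + 1))) (p.ηc / 12)))),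
      ?_, ?_, ?_, ?_, ?_, ?_⟩
    · positivity
    · exact min_le_left _ _
    · exact (min_le_right _ _).trans (min_le_left _ _)
    · have h1 : min r1 (min r2 (min (r3 / (3 * (N1 + 2))) (min (ρ0 / (3 * (N1 + 1))) (p.ηc / 12)))) ≤
          r3 / (3 * (N1 + 2)) :=
        (min_le_right _ _).trans ((min_le_right _ _).trans (min_le_left _ _))
      rw [le_div_iff₀ (by positivity)] at h1
      linarith
    · have h1 : min r1 (min r2 (min (r3 / (3 * (N1 + 2))) (min (ρ0 / (3 * (N1 + 1))) (p.ηc / 12)))) ≤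
          ρ0 / (3 * (N1 + 1)) :=
        (min_le_right _ _).trans ((min_le_right _ _).trans ((min_le_right _ _).trans
          (min_le_left _ _)))
      rw [le_div_iff₀ (by positivity)] at h1
      linarith
    · have h1 : min r1 (min r2 (min (r3 / (3 * (N1 + 2))) (min (ρ0 / (3 * (N1 + 1))) (p.ηc / 12)))) ≤
          p.ηc / 12 :=
        (min_le_right _ _).trans ((min_le_right _ _).trans ((min_le_right _ _).trans
          (min_le_right _ _)))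
      linarith
  -- width of the time bumps
  have hV := H.V_pos
  have hDA := h.A_pos
  obtain ⟨wb, hwb, hwb4, hwbN, hwbV, hwbA⟩ : ∃ wb : ℝ, 0 < wb ∧ wb ≤ 1 / 4 ∧ wb ≤ 1 / Nn ∧
      V * (2 * wb) ≤ ρ ∧ D.A * wb ≤ p.ηc / 4 := by
    refine ⟨min (1 / 4) (min (1 / Nn) (min (ρ / (2 * V)) (p.ηc / (4 * D.A)))), by positivity,
      min_le_left _ _, (min_le_right _ _).trans (min_le_left _ _), ?_, ?_⟩
    · have h1 : min (1 / 4) (min (1 / (Nn : ℝ)) (min (ρ / (2 * V)) (p.ηc / (4 * D.A)))) ≤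
          ρ / (2 * V) :=
        (min_le_right _ _).trans ((min_le_right _ _).trans (min_le_left _ _))
      rw [le_div_iff₀ (by positivity)] at h1
      linarith
    · have h1 : min (1 / 4) (min (1 / (Nn : ℝ)) (min (ρ / (2 * V)) (p.ηc / (4 * D.A)))) ≤
          p.ηc / (4 * D.A) :=
        (min_le_right _ _).trans ((min_le_right _ _).trans (min_le_right _ _))
      rw [le_div_iff₀ (by positivity)] at h1
      linarith
  -- centres and bumps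
  choose Cn hCnM hCn hmult0 using fun k : Fin Nn => Hc (((k : ℕ) : ℝ) / Nn) ρ hρ hρ1
  have hmult := fun k => F6_multG D S.G (hmult0 k)
  choose g hg1 hg2 hg3 hg4 hg5 hg6 using fun c : E => Hsb ρ hρ hρ2 c
  choose θ hθ1 hθ2 hθ3 hθ4 hθ5 using fun k : Fin Nn =>
    exists_tbump hwb hwb4 (((k : ℕ) : ℝ) / Nn)
  rw [← hmu] at hmult
  have hB : F6B D p S.G Cn ρ wb mult g θ :=
    { Nn_pos := hNn, ρ_pos := hρ, ρ3 := hρ5, ρ4 := hwbA, wb_pos := hwb, one := S.one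
      img := fun k c hc P hP v hv x hx => Md_imG h hp hG hP hv (hCnM k c hc) hx
      wb_lt := by linarith, wb_le := hwbN
      Cn_M := hCnM, mult_le := hmult, g01 := hg3, g1 := hg4, g0 := hg5, θ01 := hθ3, θ1 := hθ4
      θ0 := hθ5 }
  have hbS : ∀ q : F6I Cn, S.mem (fun x t => g q.2.1 x * θ q.1 t) := fun q => by
    have h1 := hg6 q.2.1 (θ q.1) (hθ1 q.1) (hθ2 q.1)
    have h2 : (fun (x : E) (t : ℝ) => g q.2.1 x * θ q.1 t) = fun x t => θ q.1 t * g q.2.1 x := by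
      funext x t
      rw [mul_comm]
    rw [h2]
    exact h1
  have hb : ∀ q : F6I Cn, Sm D.β (fun x t => g q.2.1 x * θ q.1 t) :=
    fun q => S.sm _ (hbS q)
  obtain ⟨A, hA, hamp⟩ := F6_amp N hb (ε := min ε 1) (lt_min hε one_pos)
  -- number of gates
  obtain ⟨R, hR⟩ : ∃ R : ℝ, R = D.MF * (3 * ρ * (N1 + 1)) := ⟨_, rfl⟩
  have hR0 : 0 ≤ R := by rw [hR]; positivity
  obtain ⟨Ch, hCh⟩ : ∃ Ch : ℝ, Ch = CI * (q + 1) + R + 1 := ⟨_, rfl⟩
  have hCh0 : 0 ≤ Ch := by rw [hCh]; positivity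
  obtain ⟨Lc, J, hLc, hJ, hLJ, hcount⟩ := F6_LJ (2 * Ch / (wb * A) + 1 / δ0) (by positivity)
    (Fintype.card (F6I Cn))
  have hJ' : (0:ℝ) < J := by exact_mod_cast hJ
  have hLc' : (0:ℝ) < Lc := by exact_mod_cast hLc
  have hLc1 : (1:ℝ) ≤ Lc := by exact_mod_cast hLc
  have hd1 : 0 < 1 / δ0 := by positivity
  have hd2 : 0 ≤ 2 * Ch / (wb * A) := by positivity
  have hLJ1 : 2 * Ch / (wb * A) * Lc < J := by
    have h1 : 0 < 1 / δ0 * Lc := by positivity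
    have h2 : (2 * Ch / (wb * A) + 1 / δ0) * Lc = 2 * Ch / (wb * A) * Lc + 1 / δ0 * Lc := by ring
    linarith
  have hLJ2 : 1 / (J : ℝ) ≤ δ0 := by
    have h1 : 1 / δ0 ≤ 1 / δ0 * Lc := le_mul_of_one_le_right hd1.le hLc1
    have h2 : (2 * Ch / (wb * A) + 1 / δ0) * Lc = 2 * Ch / (wb * A) * Lc + 1 / δ0 * Lc := by ring
    have h3 : 0 ≤ 2 * Ch / (wb * A) * Lc := by positivity
    have h4 : 1 / δ0 < J := by linarith
    rw [div_lt_iff₀ hδ0] at h4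
    rw [div_le_iff₀ hJ']
    linarith
  have hsi : ∀ i ≤ J, q ≤ q + (i : ℝ) / J ∧ q + (i : ℝ) / J ≤ q + 1 := by
    intro i hi
    have h1 : (i : ℝ) ≤ J := by exact_mod_cast hi
    have h2 : (i : ℝ) / J ≤ 1 := by rwa [div_le_one hJ']
    have h3 : 0 ≤ (i : ℝ) / J := by positivity
    constructor <;> linarith
  refine ⟨J, fun i => q + (i : ℝ) / J, 1 / J, hJ, by positivity, by simp,
    by simp [hJ'.ne'], hsi, fun f hf hgf => ?_⟩
  -- the perturbed potentials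
  have hF : ∀ σ : F6I Cn → ℝ, (∀ q, 0 ≤ σ q ∧ σ q ≤ A) →
      Pt D.β (F6F f g θ σ) ∧ Good (Mf + 1) (F6F f g θ σ) := by
    intro σ hσ
    obtain ⟨h1, _, h3⟩ := hamp σ hσ
    exact ⟨Pt.add hf (Sm.pt h1), F6_good_mono (Good.add' hgf h3)
      (by linarith [min_le_right ε 1])⟩
  have hη : 0 ≤ Ch / J := by positivity
  have hstep : 2 * (Ch / J) < wb * (A / Lc) := by
    rw [← mul_div_assoc, ← mul_div_assoc, div_lt_div_iff₀ hJ' hLc']
    have h1 : 2 * Ch / (wb * A) * Lc = 2 * Ch * Lc / (wb * A) := by ring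
    rw [h1, div_lt_iff₀ (by positivity)] at hLJ1
    linarith
  have hlq : FT D m L q l := hl.ft q (by simp)
  obtain ⟨σ, hσ, hfew⟩ := F6_sigma h hp hlq.toTG H hB hwbV hA hF (fun i => q + (i : ℝ) / J)
    (fun i hi => ⟨(hsi i hi).1, (hsi i hi).2⟩) hLc hη hstep hcount
  obtain ⟨hSm, hnm, hGood⟩ := hamp σ hσ
  refine ⟨fun x t => ∑ q, σ q * (g q.2.1 x * θ q.1 t), F6_mem_sum S Finset.univ hbS σ, hnm.trans (min_le_left _ _),
    F6_good_mono hGood (min_le_left _ _),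
    fun x t => Finset.sum_nonneg fun q' _ => mul_nonneg (hσ q').1 (F6_b_nonneg hB q' x t),
    fun x t hx => Finset.sum_eq_zero fun q' _ => by rw [F6_b_out h hB q' hx, mul_zero],
    fun i hi => ?_⟩
  have hTL : ∀ i ≤ J, ∀ j ≤ J, FT2 D m (L + (Mf + 1)) (q + (i : ℝ) / J) (q + (j : ℝ) / J)
      (lf l (F6F f g θ σ)) := fun i hi j hj =>
    FT2.add h.toOk0 (hl.ft2 _ _ (by
      have h1 := hsi i hi
      rw [abs_le]
      constructor <;> linarith [h1.1, h1.2]) (by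
      have h1 := hsi j hj
      rw [abs_le]
      constructor <;> linarith [h1.1, h1.2])) (hF σ hσ).1 (hF σ hσ).2
  have hTL0 := (hTL 0 (Nat.zero_le _) 0 (Nat.zero_le _)).left
  have hk0 : ∀ k : Fin Nn, (0:ℝ) ≤ ((k : ℕ) : ℝ) / Nn := fun k => by positivity
  have hk1 : ∀ k : Fin Nn, ((k : ℕ) : ℝ) / Nn < 1 := fun k => by
    rw [div_lt_one hNn']
    exact_mod_cast k.2
  have hds : q + ((i + 1 : ℕ) : ℝ) / J - (q + (i : ℝ) / J) = 1 / J := by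
    push_cast
    ring
  obtain ⟨k0, hk0N, w1, hw1⟩ := HNe Nn hNN
  have hw1M : w1 ∈ Md D p ((k0 : ℝ) / Nn) := HMi _ w1 hw1 w1 (by rw [sub_self, norm_zero]; exact hρ0.le)
  obtain ⟨c1, hc1, _⟩ := hCn ⟨k0, hk0N⟩ w1 hw1M
  obtain ⟨k, A', hA1, hA2, hA3, hA4⟩ := F6_front h hp (Nn := Nn)
    (Φ := fun k w => (D0 D).W p (lf l (F6F f g θ σ)) (q + (i : ℝ) / J)
      (q + ((i + 1 : ℕ) : ℝ) / J) (((k : ℕ) : ℝ) / Nn) w)
    (fun k => W_cont h hp hlq.toTG (hF σ hσ).1 (hF σ hσ).2 (by linarith [(hsi i hi.le).1])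
      (by linarith [(hsi (i + 1) hi).1]) (hk0 k) (hk1 k).le)
    (fun k w n => W_J h hTL0.toTG w n) hρ hCnM hCn ⟨⟨⟨k0, hk0N⟩, ⟨c1, hc1⟩⟩⟩
    (C1 := CI * (q + 1) / J) (η := Ch / J) (δ := 1 / J) (ds := 1 / J) (N1 := N1)
    (by
      intro k w hw hmin
      obtain ⟨k', hk', w', hw', hle⟩ := Hin (q + (i : ℝ) / J) (q + ((i + 1 : ℕ) : ℝ) / J)
        (hqs1.trans (hsi i hi.le).1) (hqs1.trans (hsi (i + 1) hi).1)
        (by
          rw [hds, abs_of_nonneg (by positivity)]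
          exact hLJ2) _ (hTL i hi.le (i + 1) hi) Nn
        ((mul_le_mul_of_nonneg_left (hsi i hi.le).2 hkN.le).trans hNk) k k.2 w hw
        (fun k' hk' w' hw' => hmin ⟨k', hk'⟩ w' hw')
      refine ⟨⟨k', hk'⟩, w', hw', hle.trans ?_⟩
      rw [hds, abs_of_nonneg (by positivity : (0:ℝ) ≤ 1 / J)]
      have h1 : CI * (q + (i : ℝ) / J) * (1 / J) ≤ CI * (q + 1) / J := by
        rw [mul_one_div]
        exact div_le_div_of_nonneg_right (mul_le_mul_of_nonneg_left (hsi i hi.le).2 hCI) hJ'.le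
      linarith)
    (by
      intro μ hμ T hT
      rw [hN1]
      exact hfew i hi μ hμ T hT) HMi Hsf hρ3 hρ4
    (by
      rw [← hR, hCh]
      apply le_of_eq
      field_simp
      ring) (by positivity)
  refine ⟨((k : ℕ) : ℝ) / Nn, A', hk0 k, hk1 k, hA1, hA2, hA3, fun z hz => ?_⟩
  obtain ⟨w, hw, hle⟩ := hA4 z hz
  refine ⟨w, hw, ?_⟩
  simp only [hds]
  exact hle

end EscP
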