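import Pool.Agent.EscW.PDefs
import Pool.Agent.EscT.C4
import Pool.Agent.EscT.C11b

/-!
Project EscT (MP_6acca1_an), module F7a: from the barrier functional to finite windows.
-/

noncomputable section

namespace EscP

open MeasureTheory Set Filter Topology Esc EscF EscG EscT
open scoped ContDiff

variable {ι : Type} [Fintype ι] {d : ℕ} {E : Type*} [NormedAddCommGroup E] [InnerProductSpace ℝ E]
  [FiniteDimensional ℝ E] {D : GT ι d E} {p : GP} {m M Mf : ℝ} {L : LP} {ll l : E → E → ℝ → ℝ}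
  {f f' : E → ℝ → ℝ}

/-- comparison of two infima, one of them attained -/
theorem F7a_inf {X : Type*} {a b : X → ℝ} {c α η : ℝ} (hne : Nonempty X)
    (hab : ∀ x, |a x - (b x + c)| ≤ η) (hlow : ∀ x, α ≤ b x) (hatt : ∃ x, b x = α) :
    |(⨅ x, a x) - (c + α)| ≤ η := by
  have hbd : BddBelow (Set.range a) := by
    refine ⟨α + c - η, ?_⟩
    rintro _ ⟨x, rfl⟩
    have h1 := (abs_le.1 (hab x)).1
    have h2 := hlow x
    linarith
  obtain ⟨x0, hx0⟩ := hatt
  rw [abs_le]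
  constructor
  · have : c + α - η ≤ ⨅ x, a x := by
      refine le_ciInf fun x => ?_
      have h1 := (abs_le.1 (hab x)).1
      have h2 := hlow x
      linarith
    linarith
  · have h1 := ciInf_le hbd x0
    have h2 := (abs_le.1 (hab x0)).2
    rw [hx0] at h2
    linarith

theorem F7a_Md (hp : POk D p) {r : ℝ} {w : E} (hw : w ∈ Md D p r) :
    w ∈ D.Mg r (p.ηc / 2) (2 * p.κ) := by
  obtain ⟨⟨h1, h2⟩, -⟩ := hw
  have hη := hp.ηc_pos
  have hκ := hp.κ_pos
  refine ⟨fun v hv => (by linarith : p.ηc / 2 ≤ p.ηc).trans (h1 v hv), h2.trans (by linarith)⟩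

/-- from the barrier functional to finite windows -/
theorem gate_ineq (h : D.Ok) (hp : POk D p) (hl : TG D.β m M ll) {s η : ℝ} (hs : 0 ≤ s)
    {F : Finset ℕ} (hF : F.Nonempty) (hF1 : ∀ T ∈ F, 1 ≤ T)
    (hb : ∀ z ∈ (D0 D).R p, ∀ z' ∈ (D0 D).R p, ∀ w ∈ (D0 D).R p, ∀ w' ∈ (D0 D).R p,
      |(D0 D).bar p ll s z z' + (D0 D).bar p ll s w w' -
        (D0 D).bar p ll s z w' - (D0 D).bar p ll s w z'| ≤ η)
    (hw : ∀ z ∈ (D0 D).R p, ∀ z' ∈ (D0 D).R p,
      |gk ((D0 D).k1 ll s) ((D0 D).C p) F (fun T => (D0 D).al p ll s * T) z z' - (D0 D).bar p ll s z z'| ≤ η) :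
    ∀ r, 0 ≤ r → r ≤ 1 → ∀ x ∈ (D0 D).R p, ∀ w ∈ Md D p r,
      |(D0 D).Gm p ll s F (fun T => (D0 D).al p ll s * T) r x w - ((D0 D).bar p ll s x (D.q 0) -
        (D0 D).bar p ll s (D.q 0) (D.q 0)
        + (D0 D).alpha p ll s r w - (D0 D).al p ll s * (1 + r))| ≤ 2 * η ∧
      |(D0 D).Gp p ll s F (fun T => (D0 D).al p ll s * T) r w x - ((D0 D).bar p ll s (D.q 0) x -
        (D0 D).bar p ll s (D.q 0) (D.q 0)
        + (D0 D).beta p ll s r w - (D0 D).al p ll s * (2 - r))| ≤ 2 * η := by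
  intro r hr hr1 x hx w hwM
  have hwM' := F7a_Md hp hwM
  have hq0 : D.q 0 ∈ (D0 D).R p := q_R h hp
  have hne : Nonempty ((D0 D).C p) := (C_ne h hp).to_subtype
  constructor
  · obtain ⟨x0, hx0, e0⟩ := alpha_att h hp hl hs hr hr1 hwM'
    have key := F7a_inf (X := (D0 D).C p)
      (a := fun x1 => gk ((D0 D).k1 ll s) ((D0 D).C p) F (fun T => (D0 D).al p ll s * T) x x1 +
        (D0 D).Q ll s r x1 w)
      (b := fun x1 => (D0 D).bar p ll s (D.q 0) x1 + (D0 D).Q ll s r x1 w)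
      (c := (D0 D).bar p ll s x (D.q 0) - (D0 D).bar p ll s (D.q 0) (D.q 0))
      (α := (D0 D).alpha p ll s r w - (D0 D).al p ll s * (1 + r)) (η := 2 * η) hne
      (fun x1 => by
        have k1 := hw x hx x1 (C_sub x1.2)
        have k2 := hb x hx x1 (C_sub x1.2) (D.q 0) hq0 (D.q 0) hq0
        rw [abs_le] at k1 k2 ⊢
        constructor <;> [linarith [k1.1, k2.1]; linarith [k1.2, k2.2]])
      (fun x1 => by
        have := alpha_le h hp hl hs hr hr1 hwM' (C_sub x1.2)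
        linarith)
      ⟨⟨x0, hx0⟩, by
        show (D0 D).bar p ll s (D.q 0) x0 + (D0 D).Q ll s r x0 w = _
        linarith⟩
    unfold GD.Gm
    have e1 : (D0 D).bar p ll s x (D.q 0) - (D0 D).bar p ll s (D.q 0) (D.q 0) +
        (D0 D).alpha p ll s r w - (D0 D).al p ll s * (1 + r) =
        (D0 D).bar p ll s x (D.q 0) - (D0 D).bar p ll s (D.q 0) (D.q 0) +
          ((D0 D).alpha p ll s r w - (D0 D).al p ll s * (1 + r)) := by ring
    rw [e1]
    exact key
  · obtain ⟨x0, hx0, e0⟩ := beta_att h hp hl hs hr hr1 hwM'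
    have key := F7a_inf (X := (D0 D).C p)
      (a := fun x1 => (D0 D).P ll s r w x1 +
        gk ((D0 D).k1 ll s) ((D0 D).C p) F (fun T => (D0 D).al p ll s * T) x1 x)
      (b := fun x1 => (D0 D).P ll s r w x1 + (D0 D).bar p ll s x1 (D.q 0))
      (c := (D0 D).bar p ll s (D.q 0) x - (D0 D).bar p ll s (D.q 0) (D.q 0))
      (α := (D0 D).beta p ll s r w - (D0 D).al p ll s * (2 - r)) (η := 2 * η) hne
      (fun x1 => by
        have k1 := hw x1 (C_sub x1.2) x hx
        have k2 := hb x1 (C_sub x1.2) x hx (D.q 0) hq0 (D.q 0) hq0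
        rw [abs_le] at k1 k2 ⊢
        constructor <;> [linarith [k1.1, k2.1]; linarith [k1.2, k2.2]])
      (fun x1 => by
        have := beta_le h hp hl hs hr hr1 hwM' (C_sub x1.2)
        linarith)
      ⟨⟨x0, hx0⟩, by
        show (D0 D).P ll s r w x0 + (D0 D).bar p ll s x0 (D.q 0) = _
        linarith⟩
    unfold GD.Gp
    have e1 : (D0 D).bar p ll s (D.q 0) x - (D0 D).bar p ll s (D.q 0) (D.q 0) +
        (D0 D).beta p ll s r w - (D0 D).al p ll s * (2 - r) =
        (D0 D).bar p ll s (D.q 0) x - (D0 D).bar p ll s (D.q 0) (D.q 0) +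
          ((D0 D).beta p ll s r w - (D0 D).al p ll s * (2 - r)) := by ring
    rw [e1]
    exact key

end EscP
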