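import Pool.Agent.EscW.PDefs
import Pool.Agent.EscT.C11a
import Pool.Agent.EscT.C11b
import Pool.Agent.EscG.F2b
import Pool.Agent.helper1.Esc.ModD

/-!
Project EscT, module F8: stages are open (helper52, port of EscK/F8).
-/

noncomputable section

set_option linter.unusedSectionVars false

namespace EscP

open MeasureTheory Set Filter Topology Esc EscF EscG EscT
open scoped ContDiff

variable {ι : Type} [Fintype ι] {d : ℕ} {E : Type*} [NormedAddCommGroup E] [InnerProductSpace ℝ E]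
  [FiniteDimensional ℝ E] {D : GT ι d E} {p : GP} {m M Mf : ℝ} {L : LP} {ll l : E → E → ℝ → ℝ}
  {f f' : E → ℝ → ℝ}

namespace F8

omit [FiniteDimensional ℝ E] in
theorem mono {a b : ℝ} (h : Good a f) (hab : a ≤ b) : Good b f where
  pos := h.pos.trans hab
  cont := h.cont
  bd x t := (h.bd x t).trans hab
  lipx x x' t := (h.lipx x x' t).trans (mul_le_mul_of_nonneg_right hab (norm_nonneg _))
  lipt x t t' := (h.lipt x t t').trans (mul_le_mul_of_nonneg_right hab (abs_nonneg _))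

/-- comparison of the kernels with free duration -/
theorem gk_near (h : D.Ok) (hp : POk D p) (hl : TG D.β m M l) (hf : Pt D.β f)
    (hf' : Pt D.β f') {ρ : ℝ} (hρ : ∀ x t, |f x t - f' x t| ≤ ρ) {s : ℝ} (hs : 0 ≤ s)
    {F : Finset ℕ} (hF : F.Nonempty) (hF1 : ∀ T ∈ F, 1 ≤ T) (c : ℕ → ℝ) {z z' : E} (hz : z ∈ (D0 D).R p)
    (hz' : z' ∈ (D0 D).R p) :
    |gk ((D0 D).k1 (lf l f) s) ((D0 D).C p) F c z z' - gk ((D0 D).k1 (lf l f') s) ((D0 D).C p) F c z z'| ≤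
      ρ * F.sup id := by
  obtain ⟨M1, hM1, h1⟩ := Pt.good hf
  obtain ⟨M2, hM2, h2⟩ := Pt.good hf'
  have g1 := mono h1 (le_max_left M1 M2)
  have g2 := mono h2 (le_max_right M1 M2)
  obtain ⟨C, hC, hK⟩ := kd h hp hl g1.pos s
  refine gk_sub_le (hK f hf g1 s hs le_rfl) (hK f' hf' g2 s hs le_rfl) (fun z _ z' _ => ?_) hF hF1 c
    hz hz'
  have h3 := kk_sub_le h hl hf g1 hf' g2 hρ hs (zero_lt_one) z z'
  rw [sub_zero, mul_one] at h3
  exact h3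

/-- infima of uniformly close families are close -/
theorem iInf_close {κ : Type*} {a b : κ → ℝ} {δ : ℝ} (hδ : 0 ≤ δ) (h : ∀ i, |a i - b i| ≤ δ) :
    |(⨅ i, a i) - ⨅ i, b i| ≤ δ := by
  have key : ∀ a b : κ → ℝ, (∀ i, |a i - b i| ≤ δ) → BddBelow (range a) → BddBelow (range b) := by
    rintro a b h ⟨m, hm⟩
    refine ⟨m - δ, ?_⟩
    rintro _ ⟨i, rfl⟩
    have h1 := hm ⟨i, rfl⟩
    have h2 := (abs_le.1 (h i)).2
    linarith
  have h' : ∀ i, |b i - a i| ≤ δ := fun i => by rw [abs_sub_comm]; exact h i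
  rcases isEmpty_or_nonempty κ with hκ | hκ
  · simp only [Real.iInf_of_isEmpty, sub_self, abs_zero]
    exact hδ
  · by_cases ha : BddBelow (range a)
    · exact ModD.abs_iInf_sub ha (key a b h ha) h
    · have hb : ¬ BddBelow (range b) := fun hb => ha (key b a h' hb)
      rw [Real.iInf_of_not_bddBelow ha, Real.iInf_of_not_bddBelow hb, sub_self, abs_zero]
      exact hδ

theorem C_sub' : (D0 D).C p ⊆ (D0 D).R p := fun _ hx => hx.1

/-- kernels of close potentials are close -/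
theorem kk_near (h : D.Ok) (hl : TG D.β m M l) (hf : Pt D.β f)
    (hf' : Pt D.β f') {ρ : ℝ} (hρ : ∀ x t, |f x t - f' x t| ≤ ρ) {s : ℝ} (hs : 0 ≤ s) {t t' : ℝ}
    (htt : t < t') (htt2 : t' - t ≤ 2) (z z' : E) :
    |(D0 D).kk (lf l f) s t t' z z' - (D0 D).kk (lf l f') s t t' z z'| ≤ ρ * 2 := by
  obtain ⟨M1, hM1, h1⟩ := Pt.good hf
  obtain ⟨M2, hM2, h2⟩ := Pt.good hf'
  have g1 := mono h1 (le_max_left M1 M2)
  have g2 := mono h2 (le_max_right M1 M2)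
  have hρ0 : 0 ≤ ρ := (abs_nonneg _).trans (hρ z t)
  exact (kk_sub_le h hl hf g1 hf' g2 hρ hs htt z z').trans (mul_le_mul_of_nonneg_left htt2 hρ0)

theorem Gm_near (h : D.Ok) (hp : POk D p) (hl : TG D.β m M l) (hf : Pt D.β f)
    (hf' : Pt D.β f') {ρ : ℝ} (hρ : ∀ x t, |f x t - f' x t| ≤ ρ) {s : ℝ} (hs : 0 ≤ s)
    {F : Finset ℕ} (hF : F.Nonempty) (hF1 : ∀ T ∈ F, 1 ≤ T) (c : ℕ → ℝ) {r : ℝ} (hr : 0 ≤ r)
    (hr1 : r ≤ 1) {x : E} (hx : x ∈ (D0 D).R p) (w : E) :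
    |(D0 D).Gm p (lf l f) s F c r x w - (D0 D).Gm p (lf l f') s F c r x w| ≤ ρ * (F.sup id + 2) := by
  have hρ0 : 0 ≤ ρ := (abs_nonneg _).trans (hρ x 0)
  refine iInf_close (by positivity) fun x1 => ?_
  have h1 := gk_near h hp hl hf hf' hρ hs hF hF1 c hx (C_sub' x1.2)
  have h2 := kk_near h hl hf hf' hρ hs (t := 0) (t' := 1 + r) (by linarith) (by linarith) x1 w
  have h3 := abs_le.1 h1
  have h4 := abs_le.1 h2
  rw [abs_le]
  simp only [GD.Q]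
  constructor <;> linarith [h3.1, h3.2, h4.1, h4.2]

theorem Gp_near (h : D.Ok) (hp : POk D p) (hl : TG D.β m M l) (hf : Pt D.β f)
    (hf' : Pt D.β f') {ρ : ℝ} (hρ : ∀ x t, |f x t - f' x t| ≤ ρ) {s : ℝ} (hs : 0 ≤ s)
    {F : Finset ℕ} (hF : F.Nonempty) (hF1 : ∀ T ∈ F, 1 ≤ T) (c : ℕ → ℝ) {r : ℝ} (hr : 0 ≤ r)
    (hr1 : r ≤ 1) {x : E} (hx : x ∈ (D0 D).R p) (w : E) :
    |(D0 D).Gp p (lf l f) s F c r w x - (D0 D).Gp p (lf l f') s F c r w x| ≤ ρ * (F.sup id + 2) := by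
  have hρ0 : 0 ≤ ρ := (abs_nonneg _).trans (hρ x 0)
  refine iInf_close (by positivity) fun x1 => ?_
  have h1 := gk_near h hp hl hf hf' hρ hs hF hF1 c (C_sub' x1.2) hx
  have h2 := kk_near h hl hf hf' hρ hs (t := r) (t' := 2) (by linarith) (by linarith) (w - (D0 D).g) x1
  have h3 := abs_le.1 h1
  have h4 := abs_le.1 h2
  rw [abs_le]
  simp only [GD.P]
  constructor <;> linarith [h3.1, h3.2, h4.1, h4.2]

end F8

open F8

theorem stage_open (h : D.Ok) (hp : POk D p) (hl : TG D.β m M l) (hf : Pt D.β f) {a b : ℝ} (ha0 : 0 ≤ a)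
    (hS : Stage D p (lf l f) a b) : ∃ ρ : ℝ, 0 < ρ ∧ ∀ f', Pt D.β f' → (∀ x t, |f x t - f' x t| ≤ ρ) →
    Stage D p (lf l f') a b := by
  obtain ⟨J, s, r, F, c, G, δ, hJ, hδ, hs0, hsJ, hs, hF, H⟩ := hS
  set T : ℕ := (Finset.range (J + 1)).sup (fun i => (F i).sup id) with hT
  have hTi : ∀ i ≤ J, (((F i).sup id : ℕ) : ℝ) ≤ (T : ℝ) := by
    intro i hi
    have : (F i).sup id ≤ T := Finset.le_sup (f := fun i => (F i).sup id)
      (Finset.mem_range.2 (Nat.lt_succ_of_le hi))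
    exact_mod_cast this
  have hT0 : (0:ℝ) ≤ T := Nat.cast_nonneg T
  have hpos : (0:ℝ) < 8 * ((T : ℝ) + 2) := by positivity
  refine ⟨δ / (8 * ((T : ℝ) + 2)), div_pos hδ hpos, fun f' hf' hff => ?_⟩
  refine ⟨J, s, r, F, c, G, δ / 2, hJ, half_pos hδ, hs0, hsJ, hs, hF, fun i hi => ?_⟩
  obtain ⟨hr0, hr1, hGc, hGn, hGM, hz⟩ := H i hi
  refine ⟨hr0, hr1, hGc, hGn, hGM, fun z hzf => ?_⟩
  obtain ⟨w, hwG, hw⟩ := hz z hzf
  refine ⟨w, hwG, fun x hx x' hx' => ?_⟩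
  have hq0 : (0:ℝ) ≤ a := ha0
  have hsi : 0 ≤ s i := hq0.trans (hs i hi.le).1
  have hsi1 : 0 ≤ s (i + 1) := hq0.trans (hs (i + 1) hi).1
  have hρ0 : 0 ≤ δ / (8 * ((T : ℝ) + 2)) := (div_pos hδ hpos).le
  have hb : ∀ k ≤ J, δ / (8 * ((T : ℝ) + 2)) * (((F k).sup id : ℕ) + 2) ≤ δ / 8 := by
    intro k hk
    have h1 : δ / (8 * ((T : ℝ) + 2)) * (((F k).sup id : ℕ) + 2) ≤
        δ / (8 * ((T : ℝ) + 2)) * ((T : ℝ) + 2) :=
      mul_le_mul_of_nonneg_left (by linarith [hTi k hk]) hρ0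
    refine h1.trans (le_of_eq ?_)
    field_simp
  have a1 := abs_le.1 ((Gm_near h hp hl hf hf' hff hsi (hF i hi.le).1 (hF i hi.le).2 (c i) hr0
    hr1.le hx w).trans (hb i hi.le))
  have a2 := abs_le.1 ((Gm_near h hp hl hf hf' hff hsi (hF i hi.le).1 (hF i hi.le).2 (c i) hr0
    hr1.le hx z).trans (hb i hi.le))
  have a3 := abs_le.1 ((Gp_near h hp hl hf hf' hff hsi1 (hF (i + 1) hi).1 (hF (i + 1) hi).2
    (c (i + 1)) hr0 hr1.le hx' w).trans (hb (i + 1) hi))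
  have a4 := abs_le.1 ((Gp_near h hp hl hf hf' hff hsi1 (hF (i + 1) hi).1 (hF (i + 1) hi).2
    (c (i + 1)) hr0 hr1.le hx' z).trans (hb (i + 1) hi))
  have h5 := hw x hx x' hx'
  linarith [a1.1, a1.2, a2.1, a2.2, a3.1, a3.2, a4.1, a4.2]

end EscP
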