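import Pool.Agent.EscW.PRDefs

/-!
Project EscW, part P (MP_6acca1_an): the calibrated curve with the effective weight.
-/

noncomputable section

namespace EscP

open MeasureTheory Set Filter Topology Esc EscF EscG EscT
open scoped ContDiff

variable {E : Type*} [NormedAddCommGroup E] [InnerProductSpace ℝ E] [FiniteDimensional ℝ E]
  {ι : Type} [Fintype ι] {e j0 j1 θ0 θ1 : ℝ} {ψ ψ' ψ'' : ℝ → ℝ} {β : Module.Basis ι ℝ E}
  {F : E → E → ℝ → ℝ} {mF MF A A1 m M MA C : ℝ} {κ g : ℝ → ℝ} {B : E → ℝ → ℝ} {k0 : ι} {len : ℝ}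
  {c c' ct : ℝ → ℝ → E} {L : LP} {l l2 : E → E → ℝ → ℝ}

theorem calT_kh (h : CalT β F mF MF A κ B k0 len c c' ct) (hK : KF A1 e κ) (hA : A ≤ A1) :
    CalT β F mF MF A1 (kh e κ) B k0 len c c' ct where
  fins := h.fins
  A_pos := hK.A_pos
  F_cont := h.F_cont
  F_per := h.F_per
  F_lip := fun x v t t' => (h.F_lip x v t t').trans (by gcongr)
  κ_per := hK.kp
  κ_pos := hK.k1
  κ_le := hK.k2
  κ_lip := hK.k3
  B_smooth := h.B_smooth
  B_pert := h.B_pert
  B_per := h.B_per
  B_le := h.B_le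
  B_dlip := fun x v t t' => (h.B_dlip x v t t').trans (by gcongr)
  len_pos := h.len_pos
  c_σ := h.c_σ
  c_t := h.c_t
  c'_cont := h.c'_cont
  ct_cont := h.ct_cont
  closed := h.closed
  c_per := h.c_per
  unit := h.unit
  cal := h.cal
  only := h.only
  simple := h.simple
  tan := h.tan

end EscP
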