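import Pool.Agent.EscW.PR3
import Pool.Agent.EscW.PR3a

/-!
Project EscW, part P (MP_6acca1_an): the calibrated curve with the effective weight.
-/

noncomputable section

namespace EscP

open MeasureTheory Set Filter Topology Esc EscF EscG EscT
open scoped ContDiff

variable {ι : Type} [Fintype ι] {E : Type*} [NormedAddCommGroup E] [InnerProductSpace ℝ E]
  [FiniteDimensional ℝ E] {e : ℝ} {β : Module.Basis ι ℝ E} {F : E → E → ℝ → ℝ} {mF MF A : ℝ} {κ : ℝ → ℝ}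
  {B : E → ℝ → ℝ} {k0 : ι} {len : ℝ} {c c' ct : ℝ → ℝ → E}

theorem CalT.kh (he : 2 ≤ e) (h : CalT β F mF MF A κ B k0 len c c' ct) :
    ∃ A2 : ℝ, A ≤ A2 ∧ CalT β F mF MF A2 (EscP.kh e κ) B k0 len c c' ct := by
  obtain ⟨A1, hAA, hK⟩ := exists_KF he h.A_pos h.κ_pos h.κ_le h.κ_lip h.κ_per
  exact ⟨A1, hAA, calT_kh h hK hAA⟩

end EscP
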