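import Pool.Agent.EscW.PR10

/-!
Project EscW, part P (MP_6acca1_an): truncations exist at all large scales.
-/

noncomputable section

namespace EscP

open MeasureTheory Set Filter Topology Esc EscF EscG EscT
open scoped ContDiff

variable {ι : Type} [Fintype ι] {E : Type*} [NormedAddCommGroup E] [InnerProductSpace ℝ E]
  [FiniteDimensional ℝ E] {e m M M1 : ℝ} {l2 : E → E → ℝ → ℝ}
  {β : Module.Basis ι ℝ E} {F : E → E → ℝ → ℝ} {mF MF A : ℝ} {κ g : ℝ → ℝ} {B : E → ℝ → ℝ} {k0 : ι}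
  {len : ℝ} {c c' ct : ℝ → ℝ → E}

theorem trFam_of_CalT (h : CalT β F mF MF A κ B k0 len c c' ct) (hl : TG β m M l2) (hA : AT F κ M1 l2)
    (hg : Pw e g) : ∀ (A0 : ℝ) (g0 : E), TrFam (gdT β F mF MF A0 (kh e κ) B k0 len c g0) g l2 := by
  obtain ⟨A1, -, h1⟩ := trFam h hl hA hg
  exact h1

end EscP
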