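import Pool.Agent.EscW.PDefs2
import Pool.Agent.EscW.PC9
import Pool.Agent.EscW.PC10

/-!
Module PL1: the facts of `Leg` hold for large classes (lr0, lr1, lr2 in PC10, v1, nQ, nP in PC9).
-/

noncomputable section

namespace EscP

open MeasureTheory Set Filter Topology Esc EscF EscG EscT
open scoped ContDiff

variable {ι : Type} [Fintype ι] {d : ℕ} {E : Type*} [NormedAddCommGroup E] [InnerProductSpace ℝ E]
  [FiniteDimensional ℝ E] {D : GT ι d E} {p : GP} {m M Mf : ℝ} {L : LP} {l0 l1 ll l : E → E → ℝ → ℝ}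
  {f f' : E → ℝ → ℝ}

theorem leg_of_FT (h : D.Ok) (hp : POk D p) (m : ℝ) (L : LP) : ∃ s0 : ℝ, 1 ≤ s0 ∧ ∀ s, s0 ≤ s → ∀ ll,
    FT D m L s ll → Leg D p ll s := by
  obtain ⟨a0, ha0, h0⟩ := EscP.lr0 h hp m L
  obtain ⟨a1, ha1, h1⟩ := EscP.lr1 h hp m L
  obtain ⟨a2, ha2, h2⟩ := EscP.lr2 h hp m L
  obtain ⟨a3, ha3, h3⟩ := EscP.v1 h hp m L
  obtain ⟨a4, ha4, h4⟩ := EscP.nQ h hp m L
  obtain ⟨a5, ha5, h5⟩ := EscP.nP h hp m L
  refine ⟨a0 + a1 + a2 + a3 + a4 + a5, by linarith, ?_⟩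
  intro s hs ll hl
  refine ⟨by linarith, ?_, ?_, ?_, ?_, ?_, ?_⟩
  · intro x' hx' x'' hx'' x hx
    have := h0 s (by linarith) ll hl x' hx' x'' hx'' x hx
    linarith
  · intro r hr hr1 w hw x'' hx'' x hx
    have := h1 s (by linarith) ll hl r hr hr1 w hw x'' hx'' x hx
    linarith
  · intro r hr hr1 w hw x' hx' x hx
    have := h2 s (by linarith) ll hl r hr hr1 w hw x' hx' x hx
    linarith
  · intro x hx x' hx' t ht ht1 c hc
    have := h3 s (by linarith) ll hl x hx x' hx' t ht ht1 c hc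
    linarith
  · intro x hx r hr hr1 w hw t ht ht1 c hc
    have := h4 s (by linarith) ll hl x hx r hr hr1 w hw t ht ht1 c hc
    linarith
  · intro x hx r hr hr1 w hw t ht ht1 c hc
    have := h5 s (by linarith) ll hl x hx r hr hr1 w hw t ht ht1 c hc
    linarith

end EscP
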