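import Pool.Agent.EscW.PDefs2

/-!
Module PP1: growth functions exist: `g = y ^ (e/2)` for `y ≥ 1` and an exponential for `y ≤ 1`: `g'' = a (a - 1) (max y 1)^(a - 2) exp ((a - 1) (min y 1 - 1))`,
`a = e/2`, `g' = a + ∫_1^y g''`, `g = 1 + ∫_1^y g'`.
-/

set_option autoImplicit false

noncomputable section

namespace EscW.Pg

open Filter Topology Set
open scoped ContDiff

private def PP1_h (a : ℝ) (y : ℝ) : ℝ := a * (a - 1) * (max y 1) ^ (a - 2) * Real.exp ((a - 1) * (min y 1 - 1))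

private theorem PP1_h_cont (a : ℝ) : Continuous (PP1_h a) := by
  unfold PP1_h
  refine (continuous_const.mul ?_).mul ?_
  · refine Continuous.rpow_const (by fun_prop) fun x => Or.inl ?_
    exact (lt_of_lt_of_le one_pos (le_max_right x 1)).ne'
  · fun_prop

private theorem PP1_h_nonneg {a : ℝ} (ha : 1 ≤ a) (y : ℝ) : 0 ≤ PP1_h a y := by
  unfold PP1_h
  have h0 : (0 : ℝ) ≤ max y 1 := le_trans zero_le_one (le_max_right y 1)
  have h1 : 0 ≤ a * (a - 1) := mul_nonneg (by linarith) (by linarith)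
  exact mul_nonneg (mul_nonneg h1 (Real.rpow_nonneg h0 _)) (Real.exp_nonneg _)

private def PP1_d (a : ℝ) (y : ℝ) : ℝ := a + ∫ t in (1 : ℝ)..y, PP1_h a t

private theorem PP1_d_deriv (a y : ℝ) : HasDerivAt (PP1_d a) (PP1_h a y) y := by
  unfold PP1_d
  exact (intervalIntegral.integral_hasDerivAt_right ((PP1_h_cont a).intervalIntegrable _ _)
    ((PP1_h_cont a).stronglyMeasurableAtFilter _ _) (PP1_h_cont a).continuousAt).const_add a

private theorem PP1_d_cont (a : ℝ) : Continuous (PP1_d a) :=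
  continuous_iff_continuousAt.2 fun y => (PP1_d_deriv a y).continuousAt

private theorem PP1_d_of_le (a : ℝ) {y : ℝ} (hy : y ≤ 1) : PP1_d a y = a * Real.exp ((a - 1) * (y - 1)) := by
  have key : ∫ t in (1 : ℝ)..y, PP1_h a t = a * Real.exp ((a - 1) * (y - 1)) - a * Real.exp ((a - 1) * (1 - 1)) := by
    refine intervalIntegral.integral_eq_sub_of_hasDerivAt (f := fun t => a * Real.exp ((a - 1) * (t - 1))) ?_
      ((PP1_h_cont a).intervalIntegrable _ _)
    intro t ht
    rw [uIcc_of_ge hy] at ht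
    have h1 : HasDerivAt (fun t : ℝ => (a - 1) * (t - 1)) ((a - 1) * 1) t := ((hasDerivAt_id t).sub_const 1).const_mul (a - 1)
    have h2 := (h1.exp).const_mul a
    have he : PP1_h a t = a * (Real.exp ((a - 1) * (t - 1)) * ((a - 1) * 1)) := by
      unfold PP1_h
      rw [max_eq_right ht.2, min_eq_left ht.2, Real.one_rpow]
      ring
    rw [he]
    exact h2
  unfold PP1_d
  rw [key]
  simp

private theorem PP1_d_of_ge (a : ℝ) {y : ℝ} (hy : 1 ≤ y) : PP1_d a y = a * y ^ (a - 1) := by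
  have key : ∫ t in (1 : ℝ)..y, PP1_h a t = a * y ^ (a - 1) - a * (1 : ℝ) ^ (a - 1) := by
    refine intervalIntegral.integral_eq_sub_of_hasDerivAt (f := fun t : ℝ => a * t ^ (a - 1)) ?_
      ((PP1_h_cont a).intervalIntegrable _ _)
    intro t ht
    rw [uIcc_of_le hy] at ht
    have ht0 : t ≠ 0 := (lt_of_lt_of_le one_pos ht.1).ne'
    have h2 := (Real.hasDerivAt_rpow_const (x := t) (p := a - 1) (Or.inl ht0)).const_mul a
    have he : PP1_h a t = a * ((a - 1) * t ^ (a - 1 - 1)) := by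
      unfold PP1_h
      rw [max_eq_left ht.1, min_eq_right ht.1, sub_self, mul_zero, Real.exp_zero]
      have : a - 1 - 1 = a - 2 := by ring
      rw [this]
      ring
    rw [he]
    exact h2
  unfold PP1_d
  rw [key, Real.one_rpow]
  ring

private theorem PP1_d_pos {a : ℝ} (ha : 1 ≤ a) (y : ℝ) : 0 < PP1_d a y := by
  rcases le_total y 1 with hy | hy
  · rw [PP1_d_of_le a hy]
    have := Real.exp_pos ((a - 1) * (y - 1))
    nlinarith
  · rw [PP1_d_of_ge a hy]
    exact mul_pos (by linarith) (Real.rpow_pos_of_pos (by linarith) _)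

private def PP1_g (a : ℝ) (y : ℝ) : ℝ := 1 + ∫ t in (1 : ℝ)..y, PP1_d a t

private theorem PP1_g_deriv (a y : ℝ) : HasDerivAt (PP1_g a) (PP1_d a y) y := by
  unfold PP1_g
  exact (intervalIntegral.integral_hasDerivAt_right ((PP1_d_cont a).intervalIntegrable _ _)
    ((PP1_d_cont a).stronglyMeasurableAtFilter _ _) (PP1_d_cont a).continuousAt).const_add 1

private theorem PP1_g_of_ge (a : ℝ) {y : ℝ} (hy : 1 ≤ y) : PP1_g a y = y ^ a := by
  have key : ∫ t in (1 : ℝ)..y, PP1_d a t = y ^ a - (1 : ℝ) ^ a := by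
    refine intervalIntegral.integral_eq_sub_of_hasDerivAt (f := fun t : ℝ => t ^ a) ?_
      ((PP1_d_cont a).intervalIntegrable _ _)
    intro t ht
    rw [uIcc_of_le hy] at ht
    have ht0 : t ≠ 0 := (lt_of_lt_of_le one_pos ht.1).ne'
    rw [PP1_d_of_ge a ht.1]
    exact Real.hasDerivAt_rpow_const (x := t) (p := a) (Or.inl ht0)
  unfold PP1_g
  rw [key, Real.one_rpow]
  ring

theorem exists_Pw {e : ℝ} (he : 2 ≤ e) : ∃ g : ℝ → ℝ, EscP.Pw e g := by
  have ha : 1 ≤ e / 2 := by linarith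
  have hd1 : deriv (PP1_g (e / 2)) = PP1_d (e / 2) := funext fun y => (PP1_g_deriv _ y).deriv
  have hd2 : deriv (PP1_d (e / 2)) = PP1_h (e / 2) := funext fun y => (PP1_d_deriv _ y).deriv
  refine ⟨PP1_g (e / 2), he, ?_, ?_, ?_, ?_⟩
  · have h1 : ContDiff ℝ 1 (PP1_d (e / 2)) := by
      rw [contDiff_one_iff_deriv]
      exact ⟨fun y => (PP1_d_deriv _ y).differentiableAt, by rw [hd2]; exact PP1_h_cont _⟩
    have h2 : ContDiff ℝ (1 + 1) (PP1_g (e / 2)) := by
      rw [contDiff_succ_iff_deriv]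
      exact ⟨fun y => (PP1_g_deriv _ y).differentiableAt, by simp, by rw [hd1]; exact h1⟩
    rwa [one_add_one_eq_two] at h2
  · intro y
    rw [hd1]
    exact PP1_d_pos ha y
  · intro y
    rw [hd1, hd2]
    exact PP1_h_nonneg ha y
  · intro y hy
    exact PP1_g_of_ge _ hy

end EscW.Pg
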