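import Pool.Agent.EscW.PRDefs
import Pool.Agent.EscT.EE
import Pool.Agent.EscT.EF

/-!
Project EscW, part P (MP_6acca1_an): the flux at frozen time for functions which are only continuous.
-/

noncomputable section

set_option linter.unusedSectionVars false

namespace EscP

open MeasureTheory Set Filter Topology Esc EscF EscG EscT
open scoped ContDiff

variable {ι : Type} [Fintype ι] {d : ℕ} {E : Type*} [NormedAddCommGroup E] [InnerProductSpace ℝ E]
  [FiniteDimensional ℝ E] {D : GT ι d E} {p : GP} {m M Mf : ℝ} {L : LP} {ll l : E → E → ℝ → ℝ}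
  {f f' : E → ℝ → ℝ}
variable {β : Module.Basis ι ℝ E} {F : E → E → ℝ → ℝ} {mF MF A : ℝ} {κ : ℝ → ℝ} {B : E → ℝ → ℝ} {k0 : ι}
  {len : ℝ} {c c' ct : ℝ → ℝ → E}

open EscT.ED

theorem PR0_al_bd (h : CalT β F mF MF A κ B k0 len c c' ct) (hl : CT β M l) {MA : ℝ} (hA : AT F κ MA l)
    (x v : E) (t : ℝ) : |al F κ l x v t| ≤ (M + MA) * (1 + ‖v‖) := by
  have h1 := al_sub hA x v t x 0 t
  rw [sub_zero, sub_self, norm_zero, sub_self, abs_zero, add_zero, mul_zero, add_zero] at h1
  have h2 : |al F κ l x 0 t| ≤ M := by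
    unfold EscT.ED.al
    rw [F_zero h x t]
    have := hl.l_bd x 0 t
    rw [norm_zero] at this
    simpa using this
  have h3 : |al F κ l x v t| ≤ |al F κ l x v t - al F κ l x 0 t| + |al F κ l x 0 t| := by
    have e : al F κ l x v t = (al F κ l x v t - al F κ l x 0 t) + al F κ l x 0 t := by ring
    calc |al F κ l x v t| = |(al F κ l x v t - al F κ l x 0 t) + al F κ l x 0 t| := by rw [← e]
      _ ≤ _ := abs_add_le _ _
  have h4 := hl.M_nonneg
  have h5 := MA_nn hA
  nlinarith [mul_nonneg h4 (norm_nonneg v)]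

theorem PR0_al_cont (h : CalT β F mF MF A κ B k0 len c c' ct) (hl : CT β M l) :
    Continuous fun q : E × E × ℝ => al F κ l q.1 q.2.1 q.2.2 := by
  unfold EscT.ED.al
  have h1 := hl.cont
  have h2 := h.F_cont
  have h3 : Continuous fun q : E × E × ℝ => κ q.2.2 :=
    (κ_cont h).comp (continuous_snd.comp continuous_snd)
  exact h1.sub ((h3.mul (h2.pow 2)).div_const 2)

theorem PR0_al_β (h : CalT β F mF MF A κ B k0 len c c' ct) (hl : CT β M l) (i : ι) (x v : E) (t : ℝ) :
    al F κ l (x + β i) v t = al F κ l x v t := by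
  unfold EscT.ED.al
  rw [hl.per, (h.fins t).per]

theorem PR0_al_Lam (h : CalT β F mF MF A κ B k0 len c c' ct) (hl : CT β M l) {w : E}
    (hw : w ∈ Submodule.span ℤ (Set.range β)) (x v : E) (t : ℝ) :
    al F κ l (x + w) v t = al F κ l x v t :=
  EscK.EB_inv (β := β) (Φ := fun x => al F κ l x v t) (fun i x => PR0_al_β h hl i x v t) hw x

theorem PR0_al_per (h : CalT β F mF MF A κ B k0 len c c' ct) (hl : CT β M l) (x v : E) (t : ℝ) :
    al F κ l x v (t + 1) = al F κ l x v t := by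
  unfold EscT.ED.al
  rw [hl.pert, h.F_per, h.κ_per]

theorem PR0_hh_cont2 (h : CalT β F mF MF A κ B k0 len c c' ct) (hl : CT β M l) (s : ℝ) :
    Continuous fun q : ℝ × ℝ => hh F κ B l c c' s q.1 q.2 := by
  unfold hh
  have h1 : Continuous fun q : ℝ × ℝ => c q.2 q.1 := (c_cont h).comp (continuous_snd.prodMk continuous_fst)
  have h2 : Continuous fun q : ℝ × ℝ => c' q.2 q.1 := h.c'_cont.comp (continuous_snd.prodMk continuous_fst)
  have h3 : Continuous fun q : ℝ × ℝ => s / κ q.1 :=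
    continuous_const.div ((κ_cont h).comp continuous_fst) fun q => (κ_pos h q.1).ne'
  have h4 : Continuous fun q : ℝ × ℝ => al F κ l (c q.2 q.1) ((s / κ q.1) • c' q.2 q.1) q.1 :=
    (PR0_al_cont h hl).comp (h1.prodMk ((h3.smul h2).prodMk continuous_fst))
  have h5 : Continuous fun q : ℝ × ℝ => bt B (c q.2 q.1) q.1 :=
    (bt_cont h).comp (h1.prodMk continuous_fst)
  exact h4.sub (continuous_const.mul h5)

theorem PR0_hh_cont (h : CalT β F mF MF A κ B k0 len c c' ct) (hl : CT β M l) (s t : ℝ) :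
    Continuous (hh F κ B l c c' s t) :=
  (PR0_hh_cont2 h hl s).comp (continuous_const.prodMk continuous_id)

theorem PR0_hh_len (h : CalT β F mF MF A κ B k0 len c c' ct) (hl : CT β M l) (s t σ : ℝ) :
    hh F κ B l c c' s t (σ + len) = hh F κ B l c c' s t σ := by
  unfold hh
  rw [h.closed, c'_len h, PR0_al_β h hl, bt_β h]

theorem PR0_hh_per (h : CalT β F mF MF A κ B k0 len c c' ct) (hl : CT β M l) (s t σ : ℝ) :
    hh F κ B l c c' s (t + 1) σ = hh F κ B l c c' s t σ := by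
  unfold hh
  rw [h.c_per, c'_per h, PR0_al_per h hl, bt_per h, h.κ_per]

theorem PR0_hh_bd (h : CalT β F mF MF A κ B k0 len c c' ct) (hl : CT β M l) {MA : ℝ} (hA : AT F κ MA l)
    {Cb : ℝ} (hCb : ∀ x t, |bt B x t| ≤ Cb) {s : ℝ} (hs : 1 ≤ s) (t σ : ℝ) :
    |hh F κ B l c c' s t σ| ≤ ((M + MA) * (1 + A * mF⁻¹) + Cb) * s := by
  unfold hh
  have h1 := PR0_al_bd h hl hA (c σ t) ((s / κ t) • c' σ t) t
  have h2 := sv_bd h (by linarith : (0:ℝ) ≤ s) t σ
  have h3 : |s * bt B (c σ t) t| ≤ s * Cb := by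
    rw [abs_mul, abs_of_nonneg (by linarith : (0:ℝ) ≤ s)]
    exact mul_le_mul_of_nonneg_left (hCb _ _) (by linarith)
  have h4 : 0 ≤ M + MA := add_nonneg hl.M_nonneg (MA_nn hA)
  have h5 : (M + MA) * (1 + ‖(s / κ t) • c' σ t‖) ≤ (M + MA) * (s + s * (A * mF⁻¹)) :=
    mul_le_mul_of_nonneg_left (by linarith) h4
  refine (abs_sub _ _).trans ?_
  nlinarith

theorem PR0_gg_bd (h : CalT β F mF MF A κ B k0 len c c' ct) (hl : CT β M l) {MA : ℝ} (hA : AT F κ MA l)
    {Cb : ℝ} (hCb : ∀ x t, |bt B x t| ≤ Cb) {s : ℝ} (hs : 1 ≤ s) (t : ℝ) :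
    |gg F κ B l len c c' s t| ≤ ((M + MA) * (1 + A * mF⁻¹) + Cb) * s :=
  EscK.ED.int_bd h.len_pos fun σ => PR0_hh_bd h hl hA hCb hs t σ

theorem PR0_flT_reg (h : CalT β F mF MF A κ B k0 len c c' ct) (hl : CT β M l) {MA : ℝ} (hA : AT F κ MA l) :
    ∃ C : ℝ, 0 ≤ C ∧ (∀ s, Continuous (flT F κ B l len c c' s)) ∧
      (∀ s t, flT F κ B l len c c' s (t + 1) = flT F κ B l len c c' s t) ∧
      (∀ s t, 1 ≤ s → |flT F κ B l len c c' s t| ≤ C * s ^ 2) ∧
      (∀ s t, 1 ≤ s → |flT F κ B l len c c' s t - s ^ 2 / 2 * (1 - (κ t)⁻¹)| ≤ C * s) ∧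
      (∀ s s' t, 1 ≤ s → 1 ≤ s' →
        |flT F κ B l len c c' s t - flT F κ B l len c c' s' t| ≤ C * (s + s') * |s - s'|) ∧
      ∀ ε, 0 < ε → ∃ δ, 0 < δ ∧ ∀ s t t', 1 ≤ s → |t - t'| ≤ δ →
        |(flT F κ B l len c c' s t - s ^ 2 / 2 * (1 - (κ t)⁻¹)) -
          (flT F κ B l len c c' s t' - s ^ 2 / 2 * (1 - (κ t')⁻¹))| ≤ ε * s := by
  have hm := (h.fins 0).mF_pos
  have hmi : 0 < mF⁻¹ := inv_pos.2 hm
  have hM := hl.M_nonneg
  have hMA := MA_nn hA
  have hlen := h.len_pos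
  have hA0 := h.A_pos
  obtain ⟨Cb, hCb0, hCb⟩ := bt_bd h
  set C1 : ℝ := (M + MA) * (1 + A * mF⁻¹) + Cb with hC1
  have hC10 : 0 ≤ C1 := by positivity
  have hgg : ∀ s t, 1 ≤ s → |gg F κ B l len c c' s t| ≤ C1 * s := fun s t hs => PR0_gg_bd h hl hA hCb hs t
  have hκ1 : ∀ t, |1 - (κ t)⁻¹| ≤ 1 + A := fun t => by
    have a1 := κ_inv_le h t
    have a2 := κ_inv_pos h t
    rw [abs_le]
    constructor <;> linarith
  have hL : ∀ s s' t, |gg F κ B l len c c' s t - gg F κ B l len c c' s' t| ≤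
      (MA * (A * mF⁻¹) + Cb) * |s - s'| := by
    intro s s' t
    refine EscK.ED.int_sub hlen (PR0_hh_cont h hl s t) (PR0_hh_cont h hl s' t) fun σ => ?_
    unfold hh
    have h1 := al_sub hA (c σ t) ((s / κ t) • c' σ t) t (c σ t) ((s' / κ t) • c' σ t) t
    rw [sub_self (c σ t), norm_zero, sub_self t, abs_zero, add_zero, mul_zero, add_zero, ← sub_smul,
      ← sub_div] at h1
    have h2 : ‖((s - s') / κ t) • c' σ t‖ ≤ |s - s'| * (A * mF⁻¹) := by
      rw [norm_smul, Real.norm_eq_abs, abs_div, abs_of_pos (κ_pos h t), div_eq_mul_inv, mul_assoc]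
      refine mul_le_mul_of_nonneg_left ?_ (abs_nonneg _)
      exact mul_le_mul (κ_inv_le h t) (c'_bd h σ t) (norm_nonneg _) h.A_pos.le
    have h3 : |(s - s') * bt B (c σ t) t| ≤ |s - s'| * Cb := by
      rw [abs_mul]
      exact mul_le_mul_of_nonneg_left (hCb _ _) (abs_nonneg _)
    have h4 : MA * ‖((s - s') / κ t) • c' σ t‖ ≤ MA * (|s - s'| * (A * mF⁻¹)) :=
      mul_le_mul_of_nonneg_left h2 hMA
    have e : al F κ l (c σ t) ((s / κ t) • c' σ t) t - s * bt B (c σ t) t -
        (al F κ l (c σ t) ((s' / κ t) • c' σ t) t - s' * bt B (c σ t) t) =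
        (al F κ l (c σ t) ((s / κ t) • c' σ t) t - al F κ l (c σ t) ((s' / κ t) • c' σ t) t) -
          (s - s') * bt B (c σ t) t := by ring
    rw [e]
    refine (abs_sub _ _).trans ?_
    linarith
  refine ⟨C1 + (1 + A) + (MA * (A * mF⁻¹) + Cb), by positivity, fun s => ?_, fun s t => ?_,
    fun s t hs => ?_, fun s t hs => ?_, fun s s' t hs hs' => ?_, fun ε hε => ?_⟩
  · -- continuity
    have h1 : Continuous fun t => ∫ σ in (0:ℝ)..len, hh F κ B l c c' s t σ :=
      intervalIntegral.continuous_parametric_intervalIntegral_of_continuous' (PR0_hh_cont2 h hl s) 0 len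
    have h2 : Continuous fun t => (κ t)⁻¹ := (κ_cont h).inv₀ fun t => (κ_pos h t).ne'
    have h3 : flT F κ B l len c c' s = fun t => gg F κ B l len c c' s t + s ^ 2 / 2 * (1 - (κ t)⁻¹) :=
      funext fun t => flT_eq s t
    rw [h3]
    exact (h1.div_const len).add (continuous_const.mul (continuous_const.sub h2))
  · rw [flT_eq, flT_eq, h.κ_per]
    unfold gg
    simp only [PR0_hh_per h hl]
  · rw [flT_eq]
    have h1 := hgg s t hs
    have h2 : |s ^ 2 / 2 * (1 - (κ t)⁻¹)| ≤ s ^ 2 / 2 * (1 + A) := by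
      rw [abs_mul, abs_of_nonneg (by positivity : (0:ℝ) ≤ s ^ 2 / 2)]
      exact mul_le_mul_of_nonneg_left (hκ1 t) (by positivity)
    have h3 : s ≤ s ^ 2 := by nlinarith
    refine (abs_add_le _ _).trans ?_
    have h4 : C1 * s ≤ C1 * s ^ 2 := mul_le_mul_of_nonneg_left h3 hC10
    have h5 : 0 ≤ (MA * (A * mF⁻¹) + Cb) * s ^ 2 := by positivity
    have h6 : 0 ≤ s ^ 2 * (1 + A) := by positivity
    nlinarith
  · rw [flT_sub]
    refine (hgg s t hs).trans ?_
    have h5 : 0 ≤ (MA * (A * mF⁻¹) + Cb) * s := by positivity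
    have h6 : 0 ≤ (1 + A) * s := by positivity
    nlinarith
  · rw [flT_eq, flT_eq]
    have h1 := hL s s' t
    have e : gg F κ B l len c c' s t + s ^ 2 / 2 * (1 - (κ t)⁻¹) -
        (gg F κ B l len c c' s' t + s' ^ 2 / 2 * (1 - (κ t)⁻¹)) =
        (gg F κ B l len c c' s t - gg F κ B l len c c' s' t) +
          (s + s') / 2 * (1 - (κ t)⁻¹) * (s - s') := by ring
    rw [e]
    have h2 : |(s + s') / 2 * (1 - (κ t)⁻¹) * (s - s')| ≤ (s + s') / 2 * (1 + A) * |s - s'| := by
      rw [abs_mul, abs_mul, abs_of_nonneg (by linarith : (0:ℝ) ≤ (s + s') / 2)]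
      exact mul_le_mul_of_nonneg_right (mul_le_mul_of_nonneg_left (hκ1 t) (by linarith)) (abs_nonneg _)
    refine (abs_add_le _ _).trans ((add_le_add h1 h2).trans ?_)
    rw [← add_mul]
    refine mul_le_mul_of_nonneg_right ?_ (abs_nonneg _)
    have h3 : (MA * (A * mF⁻¹) + Cb) * 1 ≤ (MA * (A * mF⁻¹) + Cb) * (s + s') :=
      mul_le_mul_of_nonneg_left (by linarith) (by positivity)
    have h4 : 0 ≤ C1 * (s + s') := mul_nonneg hC10 (by linarith)
    have h5 : 0 ≤ (1 + A) * (s + s') := mul_nonneg (by linarith) (by linarith)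
    nlinarith
  · -- modulus of continuity in time
    set K1 : ℝ := MA * (A + A * A * A * mF⁻¹ + (1 + A * mF⁻¹) * 2) + 1 with hK1
    have hK1p : 0 < K1 := by positivity
    set μ : ℝ := ε / K1 with hμ
    have hμp : 0 < μ := by positivity
    obtain ⟨δ1, hδ1, H1⟩ := c_uc h hμp
    obtain ⟨δ2, hδ2, H2⟩ := c'_uc h hμp
    obtain ⟨δ3, hδ3, H3⟩ := ucR (Φ := fun σ t => bt B (c σ t) t) hlen
      ((bt_cont h).comp ((c_cont h).prodMk continuous_snd))
      (fun σ t => by rw [h.closed, bt_β h]) (fun σ t => by rw [h.c_per, bt_per h]) hμp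
    refine ⟨min (min δ1 δ2) (min δ3 μ), by positivity, fun s t t' hs htt => ?_⟩
    have g1 : |t - t'| ≤ δ1 := htt.trans ((min_le_left _ _).trans (min_le_left _ _))
    have g2 : |t - t'| ≤ δ2 := htt.trans ((min_le_left _ _).trans (min_le_right _ _))
    have g3 : |t - t'| ≤ δ3 := htt.trans ((min_le_right _ _).trans (min_le_left _ _))
    have g4 : |t - t'| ≤ μ := htt.trans ((min_le_right _ _).trans (min_le_right _ _))
    rw [flT_sub, flT_sub]
    refine EscK.ED.int_sub hlen (PR0_hh_cont h hl s t) (PR0_hh_cont h hl s t') fun σ => ?_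
    unfold hh
    have a1 := al_sub hA (c σ t) ((s / κ t) • c' σ t) t (c σ t') ((s / κ t') • c' σ t') t'
    have a2 := H1 σ t t' g1
    have a3 := H2 σ t σ t' (by rw [sub_self, abs_zero]; exact hδ2.le) g2
    have a4 := H3 σ t σ t' (by rw [sub_self, abs_zero]; exact hδ3.le) g3
    rw [Real.norm_eq_abs] at a4
    have hs0 : 0 ≤ s := by linarith
    have a5 : ‖(s / κ t) • c' σ t - (s / κ t') • c' σ t'‖ ≤ s * (A * μ + A * A * (A * μ) * mF⁻¹) := by
      have e : (s / κ t) • c' σ t - (s / κ t') • c' σ t' =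
          (s / κ t) • (c' σ t - c' σ t') + (s * ((κ t)⁻¹ - (κ t')⁻¹)) • c' σ t' := by
        rw [smul_sub, div_eq_mul_inv, div_eq_mul_inv, mul_sub, sub_smul]
        abel
      rw [e]
      refine (norm_add_le _ _).trans ?_
      rw [norm_smul, norm_smul, Real.norm_eq_abs, Real.norm_eq_abs, abs_mul, abs_of_nonneg hs0,
        abs_of_nonneg (div_nonneg hs0 (κ_pos h t).le), div_eq_mul_inv, mul_assoc, mul_assoc, ← mul_add]
      refine mul_le_mul_of_nonneg_left ?_ hs0
      have b1 : (κ t)⁻¹ * ‖c' σ t - c' σ t'‖ ≤ A * μ :=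
        mul_le_mul (κ_inv_le h t) a3 (norm_nonneg _) hA0.le
      have b2 : |(κ t)⁻¹ - (κ t')⁻¹| * ‖c' σ t'‖ ≤ A * A * (A * μ) * mF⁻¹ := by
        refine mul_le_mul ((κ_inv_lip h t t').trans ?_) (c'_bd h σ t') (norm_nonneg _) (by positivity)
        gcongr
      linarith
    have a6 := sv_bd h hs0 t σ
    have a7 : (1 + ‖(s / κ t) • c' σ t‖) * (‖c σ t - c σ t'‖ + |t - t'|) ≤
        s * (1 + A * mF⁻¹) * (2 * μ) := by
      refine mul_le_mul (by nlinarith) (by linarith) (by positivity) (by positivity)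
    have a8 : |s * bt B (c σ t) t - s * bt B (c σ t') t'| ≤ s * μ := by
      rw [← mul_sub, abs_mul, abs_of_nonneg hs0]
      exact mul_le_mul_of_nonneg_left a4 hs0
    have e : al F κ l (c σ t) ((s / κ t) • c' σ t) t - s * bt B (c σ t) t -
        (al F κ l (c σ t') ((s / κ t') • c' σ t') t' - s * bt B (c σ t') t') =
        (al F κ l (c σ t) ((s / κ t) • c' σ t) t - al F κ l (c σ t') ((s / κ t') • c' σ t') t') -
          (s * bt B (c σ t) t - s * bt B (c σ t') t') := by ring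
    rw [e]
    refine (abs_sub _ _).trans ((add_le_add (a1.trans (mul_le_mul_of_nonneg_left (add_le_add a5 a7) hMA))
      a8).trans (le_of_eq ?_))
    have hμe : ε = K1 * μ := by
      rw [hμ]
      field_simp
    rw [hμe, hK1]
    ring

/-- pointwise comparison with the flux and a total derivative, at frozen time -/
theorem PR0_flT_pt (h : CalT β F mF MF A κ B k0 len c c' ct) (hN : DN β F B c c') (hl : CT β M l) {MA : ℝ} (hA : AT F κ MA l) {ε : ℝ}
    (hε : 0 < ε) : ∃ C : ℝ, 0 ≤ C ∧ ∀ s t0, 1 ≤ s → ∃ Φ : E → ℝ, ContDiff ℝ 1 Φ ∧ (∀ x, |Φ x| ≤ C) ∧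
      ∀ x v, |(l x v t0 - κ t0 * F x v t0 ^ 2 / 2 - s * deriv (fun r => B x r) t0) -
          (flT F κ B l len c c' s t0 - s ^ 2 / 2 * (1 - (κ t0)⁻¹)) - fderiv ℝ Φ x v| ≤
        ε * s + C * (F x v t0 - fderiv ℝ (fun y => B y t0) x v) + C * |κ t0 * F x v t0 - s| + C := by
  have hm := (h.fins 0).mF_pos
  have hmi : 0 < mF⁻¹ := inv_pos.2 hm
  have hM := hl.M_nonneg
  have hMA := MA_nn hA
  have hlen := h.len_pos
  have hA0 := h.A_pos
  obtain ⟨Cb, hCb0, hCb⟩ := bt_bd h
  set C1 : ℝ := (M + MA) * (1 + A * mF⁻¹) + Cb with hC1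
  have hC10 : 0 ≤ C1 := by positivity
  obtain ⟨C0, η, hC0, hη, hph⟩ := exists_phase h
  set K : ℝ := 2 * C1 * A + 2 * C1 * A * len with hKdef
  have hK0 : 0 ≤ K := by positivity
  set μ : ℝ := ε / (4 * (MA * A + 2)) with hμdef
  have hμ : 0 < μ := by positivity
  have hMμ : MA * A * μ + 2 * μ = ε / 4 := by
    rw [hμdef]
    field_simp
  obtain ⟨δ, hδ, huc⟩ := c'_uc h hμ
  obtain ⟨δb, hδb, hbuc⟩ := bt_uc h hμ
  set Q : ℝ := MA * (1 + mF⁻¹) * A + MA * ((1 + A * mF⁻¹) * (mF⁻¹ * C0)) with hQdef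
  have hQ : 0 ≤ Q := by positivity
  set ε1 : ℝ := min (min η (δ / C0)) (min (min δb (δb / (mF⁻¹ * C0))) (ε / (2 * (Q + 1)))) with hε1def
  have hε1 : 0 < ε1 := by positivity
  have hε1η : ε1 ≤ η := (min_le_left _ _).trans (min_le_left _ _)
  have hε1δ : C0 * ε1 ≤ δ := by
    have : ε1 ≤ δ / C0 := (min_le_left _ _).trans (min_le_right _ _)
    rw [le_div_iff₀ hC0] at this
    linarith
  have hε1b : ε1 ≤ δb := (min_le_right _ _).trans ((min_le_left _ _).trans (min_le_left _ _))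
  have hε1b' : mF⁻¹ * (C0 * ε1) ≤ δb := by
    have : ε1 ≤ δb / (mF⁻¹ * C0) := (min_le_right _ _).trans ((min_le_left _ _).trans (min_le_right _ _))
    rw [le_div_iff₀ (by positivity)] at this
    linarith
  have hε1Q : Q * ε1 ≤ ε / 2 := by
    have : ε1 ≤ ε / (2 * (Q + 1)) := (min_le_right _ _).trans (min_le_right _ _)
    rw [le_div_iff₀ (by positivity)] at this
    have e : ε1 * (2 * (Q + 1)) = 2 * (Q * ε1) + 2 * ε1 := by ring
    linarith
  obtain ⟨ρ0, hρ0, hdn⟩ := hN hε1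
  set ρ : ℝ := min ρ0 1 with hρdef
  have hρ : 0 < ρ := by positivity
  have hρ1 : ρ ≤ 1 := min_le_right _ _
  have hρρ0 : ρ ≤ ρ0 := min_le_left _ _
  set P1 : ℝ := MA * ε1 * (1 + mF⁻¹) with hP1
  set P0 : ℝ := MA * ε1 with hP0
  set P2 : ℝ := MA * (mF⁻¹ * A) with hP2
  set e2 : ℝ := MA * (A * μ + (1 + A * mF⁻¹) * (mF⁻¹ * (C0 * ε1))) + μ with he2
  have hP1' : 0 ≤ P1 := by positivity
  have hP0' : 0 ≤ P0 := by positivity
  have hP2' : 0 ≤ P2 := by positivity
  have he2' : 0 ≤ e2 := by positivity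
  set G : ℝ := (M + MA) * mF⁻¹ + C0 * K * mF⁻¹ + (Cb + C1) * A with hGdef
  have hG0 : 0 ≤ G := by positivity
  set R : ℝ := P1 * A + P2 + 2 * C1 + e2 + P0 + 2 * C1 * A with hR
  have hR0 : 0 ≤ R := by positivity
  set C : ℝ := K + R + (M + MA) + (Cb + C1) + G / ρ with hCdef
  have hGρ : 0 ≤ G / ρ := by positivity
  have hC0' : 0 ≤ C := by positivity
  clear_value C G R e2 P2 P0 P1 ρ ε1 Q μ K C1
  refine ⟨C, hC0', fun s t0 hs => ?_⟩
  have hs0 : 0 < s := by linarith
  have hk := κ_pos h t0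
  have hkA := h.κ_le t0
  rw [flT_sub]
  set fl : ℝ := gg F κ B l len c c' s t0 with hfldef
  have hfl0 : |fl| ≤ C1 * s := by
    rw [hC1]
    exact PR0_gg_bd h hl hA hCb hs t0
  -- the primitive
  set φ' : ℝ → ℝ := fun σ => (hh F κ B l c c' s t0 σ - fl) * (κ t0 / s) with hφ'def
  have hφ'c : Continuous φ' := ((PR0_hh_cont h hl s t0).sub continuous_const).mul continuous_const
  set φ : ℝ → ℝ := fun σ => ∫ r in (0:ℝ)..σ, φ' r with hφdef
  have hφd : ∀ σ, HasDerivAt φ (φ' σ) σ := fun σ => (hφ'c.integral_hasStrictDerivAt 0 σ).hasDerivAt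
  have hφ'p : Function.Periodic φ' len := fun σ => by
    simp only [hφ'def, PR0_hh_len h hl]
  have hφ'0 : ∫ r in (0:ℝ)..0 + len, φ' r = 0 := by
    rw [zero_add, hφ'def, intervalIntegral.integral_mul_const, intervalIntegral.integral_sub
      ((PR0_hh_cont h hl s t0).intervalIntegrable _ _) (continuous_const.intervalIntegrable _ _),
      intervalIntegral.integral_const, hfldef, smul_eq_mul, sub_zero]
    unfold gg
    rw [mul_div_cancel₀ _ hlen.ne', sub_self, zero_mul]
  have hφp : ∀ σ, φ (σ + len) = φ σ := fun σ => by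
    have h1 := intervalIntegral.integral_add_adjacent_intervals (hφ'c.intervalIntegrable (μ := volume) 0 σ)
      (hφ'c.intervalIntegrable (μ := volume) σ (σ + len))
    have h2 := hφ'p.intervalIntegral_add_eq σ 0
    rw [hφ'0] at h2
    rw [h2, add_zero] at h1
    exact h1.symm
  have hφ'b : ∀ σ, |φ' σ| ≤ 2 * C1 * A := fun σ => by
    simp only [hφ'def]
    rw [abs_mul, abs_of_pos (div_pos hk hs0)]
    have h1 := PR0_hh_bd h hl hA hCb hs t0 σ
    rw [← hC1] at h1
    have h2 : |hh F κ B l c c' s t0 σ - fl| ≤ 2 * C1 * s := (abs_sub _ _).trans (by linarith)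
    calc |hh F κ B l c c' s t0 σ - fl| * (κ t0 / s) ≤ 2 * C1 * s * (κ t0 / s) :=
          mul_le_mul_of_nonneg_right h2 (div_pos hk hs0).le
      _ = 2 * C1 * κ t0 := by field_simp
      _ ≤ 2 * C1 * A := mul_le_mul_of_nonneg_left hkA (by positivity)
  have hφb : ∀ σ, |φ σ| ≤ 2 * C1 * A * len := fun σ => by
    obtain ⟨y, hy, e⟩ := Function.Periodic.exists_mem_Ico₀ (f := φ) hφp hlen σ
    rw [e]
    have h1 := intervalIntegral.norm_integral_le_of_norm_le_const (a := 0) (b := y) (f := φ')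
      (C := 2 * C1 * A) (fun x _ => by rw [Real.norm_eq_abs]; exact hφ'b x)
    rw [Real.norm_eq_abs, sub_zero, abs_of_nonneg hy.1] at h1
    refine h1.trans ?_
    exact mul_le_mul_of_nonneg_left hy.2.le (by positivity)
  obtain ⟨Φ, hΦ, hΦb, hΦd, hΦn⟩ := hph t0 φ φ' K hφd hφ'c hφp
    (fun σ => (hφb σ).trans (by
      rw [hKdef]
      have : 0 ≤ 2 * C1 * A := by positivity
      linarith))
    (fun σ => (hφ'b σ).trans (by
      rw [hKdef]
      have : 0 ≤ 2 * C1 * A * len := by positivity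
      linarith))
  have hφ'e : ∀ σ, φ' σ = (hh F κ B l c c' s t0 σ - fl) * (κ t0 / s) := fun σ => rfl
  clear_value φ φ' fl
  refine ⟨Φ, hΦ, fun x => (hΦb x).trans (by rw [hCdef]; linarith), fun x v => ?_⟩
  have hFv : 0 ≤ F x v t0 := (mul_nonneg hm.le (norm_nonneg _)).trans ((h.fins t0).low x v)
  have hnv : ‖v‖ ≤ mF⁻¹ * F x v t0 := by
    have := (h.fins t0).low x v
    rw [inv_mul_eq_div, le_div_iff₀ hm]
    linarith
  have hD : 0 ≤ F x v t0 - fderiv ℝ (fun y => B y t0) x v := by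
    have := h.B_le x v t0
    linarith
  have ea1 : l x v t0 - κ t0 * F x v t0 ^ 2 / 2 - s * deriv (fun r => B x r) t0 =
      al F κ l x v t0 - s * bt B x t0 := rfl
  rw [ea1]
  by_cases hn : v ≠ 0 ∧ F x v t0 - fderiv ℝ (fun y => B y t0) x v ≤ ρ * F x v t0
  · obtain ⟨hv, hn⟩ := hn
    obtain ⟨σ, w, hw, hx, hvc⟩ := hdn x v t0 hv
      (hn.trans (mul_le_mul_of_nonneg_right hρρ0 hFv))
    obtain ⟨σ', hσ', hΦv⟩ := hΦn σ w hw x (hx.trans hε1η)
    rw [hΦv v, hφ'e]
    have hσ'' : |σ' - σ| ≤ C0 * ε1 := hσ'.trans (mul_le_mul_of_nonneg_left hx hC0.le)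
    have hb0 : 0 ≤ fderiv ℝ (fun y => B y t0) x v := by
      have : ρ * F x v t0 ≤ 1 * F x v t0 := mul_le_mul_of_nonneg_right hρ1 hFv
      linarith
    have hFc : ‖F x v t0 • c' σ t0‖ ≤ F x v t0 * mF⁻¹ := by
      rw [norm_smul, Real.norm_eq_abs, abs_of_nonneg hFv]
      exact mul_le_mul_of_nonneg_left (c'_bd h σ t0) hFv
    refine ED.near_est (a1 := al F κ l x v t0 - s * bt B x t0)
      (a2 := al F κ l (c σ t0) (F x v t0 • c' σ t0) t0 - s * bt B (c σ t0) t0)
      (a3 := hh F κ B l c c' s t0 σ) (a4 := hh F κ B l c c' s t0 σ') (fl := fl) (Fv := F x v t0)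
      (b := fderiv ℝ (fun y => B y t0) x v) (s := s) (k := κ t0) (A := A) (C1 := C1) (P0 := P0) (P1 := P1)
      (P2 := P2) (μ := μ) (e2 := e2) (ε := ε) (C := C) hs hk hkA (h.κ_pos t0) hC10
      ?_ ?_ ?_ ?_ hfl0 hFv (h.B_le x v t0) hb0 he2' hP0' hP1' hP2' ?_ ?_
    · have h1 := al_sub hA (c σ t0 + w) (F x v t0 • c' σ t0) t0 x v t0
      rw [sub_self t0, abs_zero, add_zero, PR0_al_Lam h hl hw] at h1
      have h3 : ‖F x v t0 • c' σ t0 - v‖ ≤ ε1 * F x v t0 := by
        rw [norm_sub_rev]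
        exact hvc
      have h4 : ‖c σ t0 + w - x‖ ≤ ε1 := by
        rw [norm_sub_rev]
        exact hx
      have h5 : |s * bt B x t0 - s * bt B (c σ t0) t0| ≤ s * μ := by
        rw [← mul_sub, abs_mul, abs_of_pos hs0]
        refine mul_le_mul_of_nonneg_left ?_ hs0.le
        have := hbuc x t0 (c σ t0 + w) t0 (hx.trans hε1b) (by rw [sub_self, abs_zero]; exact hδb.le)
        rwa [bt_Lam h hw] at this
      have e : al F κ l x v t0 - s * bt B x t0 -
          (al F κ l (c σ t0) (F x v t0 • c' σ t0) t0 - s * bt B (c σ t0) t0) =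
          -(al F κ l (c σ t0) (F x v t0 • c' σ t0) t0 - al F κ l x v t0) -
            (s * bt B x t0 - s * bt B (c σ t0) t0) := by ring
      rw [e]
      refine (abs_sub _ _).trans ?_
      rw [abs_neg]
      refine add_le_add (h1.trans ?_) h5
      calc MA * (‖F x v t0 • c' σ t0 - v‖ + (1 + ‖F x v t0 • c' σ t0‖) * ‖c σ t0 + w - x‖)
          ≤ MA * (ε1 * F x v t0 + (1 + F x v t0 * mF⁻¹) * ε1) := by gcongr
        _ = P1 * F x v t0 + P0 := by
            rw [hP1, hP0]
            ring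
    · have h1 := al_sub hA (c σ t0) (F x v t0 • c' σ t0) t0 (c σ t0) ((s / κ t0) • c' σ t0) t0
      rw [sub_self (c σ t0), norm_zero, sub_self t0, abs_zero, add_zero, mul_zero, add_zero, ← sub_smul,
        norm_smul, Real.norm_eq_abs] at h1
      have h2 := c'_bd h σ t0
      have h3 : |F x v t0 - s / κ t0| ≤ A * |κ t0 * F x v t0 - s| := by
        have e : F x v t0 - s / κ t0 = (κ t0)⁻¹ * (κ t0 * F x v t0 - s) := by
          field_simp
        rw [e, abs_mul, abs_of_pos (κ_inv_pos h t0)]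
        exact mul_le_mul_of_nonneg_right (κ_inv_le h t0) (abs_nonneg _)
      have e : al F κ l (c σ t0) (F x v t0 • c' σ t0) t0 - s * bt B (c σ t0) t0 -
          hh F κ B l c c' s t0 σ =
          al F κ l (c σ t0) (F x v t0 • c' σ t0) t0 - al F κ l (c σ t0) ((s / κ t0) • c' σ t0) t0 := by
        unfold hh
        ring
      rw [e]
      refine h1.trans ?_
      calc MA * (|F x v t0 - s / κ t0| * ‖c' σ t0‖)
          ≤ MA * (A * |κ t0 * F x v t0 - s| * mF⁻¹) := by gcongr
        _ = P2 * |κ t0 * F x v t0 - s| := by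
            rw [hP2]
            ring
    · have h1 := al_sub hA (c σ' t0) ((s / κ t0) • c' σ' t0) t0 (c σ t0) ((s / κ t0) • c' σ t0) t0
      rw [sub_self t0, abs_zero, add_zero, ← smul_sub, norm_smul, Real.norm_eq_abs,
        abs_of_pos (div_pos hs0 hk)] at h1
      have h2 : ‖c' σ' t0 - c' σ t0‖ ≤ μ :=
        huc σ' t0 σ t0 (hσ''.trans hε1δ) (by rw [sub_self, abs_zero]; exact hδ.le)
      have h3 : ‖c σ' t0 - c σ t0‖ ≤ mF⁻¹ * (C0 * ε1) :=
        (EscK.ED.c_lip (fr h t0) σ' σ).trans (mul_le_mul_of_nonneg_left hσ'' hmi.le)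
      have h4 := sv_bd h hs0.le t0 σ'
      have h5 : 1 + ‖(s / κ t0) • c' σ' t0‖ ≤ s * (1 + A * mF⁻¹) := by
        have e : s * (1 + A * mF⁻¹) = s + s * (A * mF⁻¹) := by ring
        rw [e]
        exact add_le_add hs h4
      have h6 : s / κ t0 ≤ s * A := by
        rw [div_eq_mul_inv]
        exact mul_le_mul_of_nonneg_left (κ_inv_le h t0) hs0.le
      have h7 : |s * bt B (c σ' t0) t0 - s * bt B (c σ t0) t0| ≤ s * μ := by
        rw [← mul_sub, abs_mul, abs_of_pos hs0]
        refine mul_le_mul_of_nonneg_left ?_ hs0.le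
        exact hbuc (c σ' t0) t0 (c σ t0) t0 (h3.trans hε1b') (by rw [sub_self, abs_zero]; exact hδb.le)
      have e : hh F κ B l c c' s t0 σ' - hh F κ B l c c' s t0 σ =
          (al F κ l (c σ' t0) ((s / κ t0) • c' σ' t0) t0 - al F κ l (c σ t0) ((s / κ t0) • c' σ t0) t0) -
            (s * bt B (c σ' t0) t0 - s * bt B (c σ t0) t0) := by
        unfold hh
        ring
      rw [e]
      refine (abs_sub _ _).trans ?_
      have h8 : MA * (s / κ t0 * ‖c' σ' t0 - c' σ t0‖ + (1 + ‖(s / κ t0) • c' σ' t0‖) * ‖c σ' t0 - c σ t0‖)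
          ≤ MA * (s * A * μ + s * (1 + A * mF⁻¹) * (mF⁻¹ * (C0 * ε1))) := by gcongr
      refine (add_le_add (h1.trans h8) h7).trans (le_of_eq ?_)
      rw [he2]
      ring
    · rw [hC1]
      exact PR0_hh_bd h hl hA hCb hs t0 σ
    · have e : P1 * A + μ + e2 = (MA * A * μ + 2 * μ) + Q * ε1 := by
        rw [hP1, hP0, he2, hQdef]
        ring
      rw [e, hMμ]
      linarith
    · rw [hCdef]
      linarith
  · -- far from the curve
    have hfar : G * F x v t0 ≤ G / ρ * (F x v t0 - fderiv ℝ (fun y => B y t0) x v) := by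
      by_cases hv : v = 0
      · subst hv
        rw [F_zero h x t0]
        simp
      · have h1 : ρ * F x v t0 < F x v t0 - fderiv ℝ (fun y => B y t0) x v := by
          by_contra hcon
          exact hn ⟨hv, not_lt.1 hcon⟩
        have h2 := mul_le_mul_of_nonneg_left h1.le hGρ
        calc G * F x v t0 = G / ρ * (ρ * F x v t0) := by field_simp
          _ ≤ _ := h2
    have hXs : s ≤ |κ t0 * F x v t0 - s| + A * F x v t0 := by
      have h1 := neg_abs_le (κ t0 * F x v t0 - s)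
      have h2 : κ t0 * F x v t0 ≤ A * F x v t0 := mul_le_mul_of_nonneg_right hkA hFv
      linarith
    have h1 : |al F κ l x v t0| ≤ (M + MA) * (1 + mF⁻¹ * F x v t0) :=
      (PR0_al_bd h hl hA x v t0).trans (mul_le_mul_of_nonneg_left (by linarith) (by positivity))
    have h1' : |s * bt B x t0| ≤ Cb * s := by
      rw [abs_mul, abs_of_pos hs0, mul_comm]
      exact mul_le_mul_of_nonneg_right (hCb _ _) hs0.le
    have h2 : |fderiv ℝ Φ x v| ≤ C0 * K * (mF⁻¹ * F x v t0) :=
      (hΦd x v).trans (mul_le_mul_of_nonneg_left hnv (by positivity))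
    have h4 : |al F κ l x v t0 - s * bt B x t0 - fl - fderiv ℝ Φ x v| ≤
        |al F κ l x v t0| + |s * bt B x t0| + |fl| + |fderiv ℝ Φ x v| := by
      refine (abs_sub _ _).trans (add_le_add ?_ le_rfl)
      refine (abs_sub _ _).trans (add_le_add ?_ le_rfl)
      exact abs_sub _ _
    have h5 : (Cb + C1) * s ≤ (Cb + C1) * (|κ t0 * F x v t0 - s| + A * F x v t0) :=
      mul_le_mul_of_nonneg_left hXs (by positivity)
    have h6 : |al F κ l x v t0 - s * bt B x t0 - fl - fderiv ℝ Φ x v| ≤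
        (M + MA) + G * F x v t0 + (Cb + C1) * |κ t0 * F x v t0 - s| := by
      have e : G * F x v t0 = (M + MA) * (mF⁻¹ * F x v t0) + C0 * K * (mF⁻¹ * F x v t0) +
          (Cb + C1) * (A * F x v t0) := by
        rw [hGdef]
        ring
      rw [e]
      rw [mul_add] at h1 h5
      have e5 : (Cb + C1) * s = Cb * s + C1 * s := by ring
      linarith
    have h7 : G / ρ * (F x v t0 - fderiv ℝ (fun y => B y t0) x v) ≤
        C * (F x v t0 - fderiv ℝ (fun y => B y t0) x v) := by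
      refine mul_le_mul_of_nonneg_right ?_ hD
      rw [hCdef]
      linarith
    have h8 : (Cb + C1) * |κ t0 * F x v t0 - s| ≤ C * |κ t0 * F x v t0 - s| := by
      refine mul_le_mul_of_nonneg_right ?_ (abs_nonneg _)
      rw [hCdef]
      linarith
    have h9 : M + MA ≤ C := by
      rw [hCdef]
      linarith
    have h10 : 0 ≤ ε * s := by positivity
    linarith

/-- frozen time -/
theorem PR0_flT_frozen (h : CalT β F mF MF A κ B k0 len c c' ct) (hN : DN β F B c c') (hl : CT β M l) {MA : ℝ} (hA : AT F κ MA l) {ε : ℝ}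
    (hε : 0 < ε) : ∃ C : ℝ, 0 ≤ C ∧ ∀ s t0, 1 ≤ s → ∀ (z : E) (u : ℝ → E), Adm u → ∀ t t' : ℝ, t ≤ t' →
      t' ≤ t + 4 → |(∫ r in t..t', (l (traj t z u r) (u r) t0 - κ t0 * F (traj t z u r) (u r) t0 ^ 2 / 2 -
          s * deriv (fun a => B (traj t z u r) a) t0)) -
          (flT F κ B l len c c' s t0 - s ^ 2 / 2 * (1 - (κ t0)⁻¹)) * (t' - t)| ≤
        ε * s * (t' - t) + C * (1 + (∫ r in t..t', (F (traj t z u r) (u r) t0 -
          fderiv ℝ (fun y => B y t0) (traj t z u r) (u r))) +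
          ∫ r in t..t', |κ t0 * F (traj t z u r) (u r) t0 - s|) := by
  obtain ⟨C, hC0, hC⟩ := PR0_flT_pt h hN hl hA hε
  refine ⟨6 * C, by positivity, ?_⟩
  intro s t0 hs z u hu t t' htt ht4
  obtain ⟨Φ, hΦ, hΦb, hpt⟩ := hC s t0 hs
  -- continuity and integrability
  have cF : Continuous fun p : E × E => F p.1 p.2 t0 :=
    h.F_cont.comp (continuous_fst.prodMk (continuous_snd.prodMk continuous_const))
  have cl : Continuous fun p : E × E => l p.1 p.2 t0 :=
    hl.cont.comp
      (continuous_fst.prodMk (continuous_snd.prodMk (continuous_const (y := t0))))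
  have cD : Continuous fun p : E × E => deriv (fun a => B p.1 a) t0 :=
    (EE_tcont h.B_smooth t0).comp continuous_fst
  have hB0 : ContDiff ℝ 1 (fun y : E => B y t0) := EE_frozen h.B_smooth t0
  set q : ℝ → ℝ := fun r => l (traj t z u r) (u r) t0 - κ t0 * F (traj t z u r) (u r) t0 ^ 2 / 2 -
          s * deriv (fun a => B (traj t z u r) a) t0 with hq
  have iF : IntervalIntegrable (fun r => F (traj t z u r) (u r) t0) volume t t' :=
    EE_ii (Φ := fun x v => F x v t0) cF hu t z t t'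
  have iq : IntervalIntegrable q volume t t' :=
    EE_ii (Φ := fun x v => l x v t0 - κ t0 * F x v t0 ^ 2 / 2 - s * deriv (fun a => B x a) t0)
      ((cl.sub (((cF.pow 2).const_mul _).div_const 2)).sub (cD.const_mul _)) hu t z t t'
  have iP : IntervalIntegrable (fun r => fderiv ℝ Φ (traj t z u r) (u r)) volume t t' :=
    EE_ii (Φ := fun x v => fderiv ℝ Φ x v) (EE_dcont hΦ) hu t z t t'
  have iX : IntervalIntegrable (fun r => F (traj t z u r) (u r) t0 -
      fderiv ℝ (fun y => B y t0) (traj t z u r) (u r)) volume t t' :=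
    EE_ii (Φ := fun x v => F x v t0 - fderiv ℝ (fun y => B y t0) x v) (cF.sub (EE_dcont hB0)) hu t z t t'
  have iS : IntervalIntegrable (fun r => |κ t0 * F (traj t z u r) (u r) t0 - s|) volume t t' :=
    EE_ii (Φ := fun x v => |κ t0 * F x v t0 - s|) (((cF.const_mul _).sub continuous_const).abs) hu t z t t'
  have eP := ftc_traj hΦ hu t z t'
  set a := flT F κ B l len c c' s t0 - s ^ 2 / 2 * (1 - (κ t0)⁻¹) with ha
  set IX := ∫ r in t..t', (F (traj t z u r) (u r) t0 -
      fderiv ℝ (fun y => B y t0) (traj t z u r) (u r)) with hIX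
  set IS := ∫ r in t..t', |κ t0 * F (traj t z u r) (u r) t0 - s| with hIS
  -- the error term
  have i1 : IntervalIntegrable (fun r => q r - a) volume t t' := iq.sub intervalIntegrable_const
  have i2 : IntervalIntegrable
      (fun r => q r - a - fderiv ℝ Φ (traj t z u r) (u r)) volume t t' := i1.sub iP
  have e1 : (∫ r in t..t', (q r - a - fderiv ℝ Φ (traj t z u r) (u r))) =
      (∫ r in t..t', q r) - a * (t' - t) - (Φ (traj t z u t') - Φ z) := by
    rw [intervalIntegral.integral_sub i1 iP, intervalIntegral.integral_sub iq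
      intervalIntegrable_const, intervalIntegral.integral_const, smul_eq_mul, eP]
    ring
  have iR : IntervalIntegrable (fun r => ε * s + C * (F (traj t z u r) (u r) t0 -
      fderiv ℝ (fun y => B y t0) (traj t z u r) (u r)) +
      C * |κ t0 * F (traj t z u r) (u r) t0 - s| + C) volume t t' :=
    ((intervalIntegrable_const.add (iX.const_mul _)).add (iS.const_mul _)).add
      intervalIntegrable_const
  have e2 : (∫ r in t..t', (ε * s + C * (F (traj t z u r) (u r) t0 -
      fderiv ℝ (fun y => B y t0) (traj t z u r) (u r)) +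
      C * |κ t0 * F (traj t z u r) (u r) t0 - s| + C)) =
      ε * s * (t' - t) + C * IX + C * IS + C * (t' - t) := by
    rw [intervalIntegral.integral_add ((intervalIntegrable_const.add (iX.const_mul _)).add
        (iS.const_mul _)) intervalIntegrable_const,
      intervalIntegral.integral_add (intervalIntegrable_const.add (iX.const_mul _))
        (iS.const_mul _),
      intervalIntegral.integral_add intervalIntegrable_const (iX.const_mul _),
      intervalIntegral.integral_const, intervalIntegral.integral_const,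
      intervalIntegral.integral_const_mul, intervalIntegral.integral_const_mul,
      smul_eq_mul, smul_eq_mul]
    ring
  have b1 : |∫ r in t..t', (q r - a - fderiv ℝ Φ (traj t z u r) (u r))| ≤
      ε * s * (t' - t) + C * IX + C * IS + C * (t' - t) := by
    rw [← e2, ← Real.norm_eq_abs]
    refine (intervalIntegral.norm_integral_le_integral_norm htt).trans ?_
    refine intervalIntegral.integral_mono_on htt i2.norm iR fun r _ => ?_
    rw [Real.norm_eq_abs]
    exact hpt (traj t z u r) (u r)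
  rw [e1] at b1
  have b3 : |Φ (traj t z u t') - Φ z| ≤ 2 * C := by
    have h1 := hΦb (traj t z u t')
    have h2 := hΦb z
    have h3 := abs_sub (Φ (traj t z u t')) (Φ z)
    linarith
  have hIS0 : 0 ≤ IS := intervalIntegral.integral_nonneg htt fun r _ => abs_nonneg _
  have hIX0 : 0 ≤ IX :=
    intervalIntegral.integral_nonneg htt fun r _ => sub_nonneg.2 (h.B_le _ _ _)
  have b6 : C * (t' - t) ≤ 4 * C := by nlinarith
  have e4 : (∫ r in t..t', q r) - a * (t' - t) =
      ((∫ r in t..t', q r) - a * (t' - t) - (Φ (traj t z u t') - Φ z)) +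
        (Φ (traj t z u t') - Φ z) := by ring
  change |(∫ r in t..t', q r) - a * (t' - t)| ≤ ε * s * (t' - t) + 6 * C * (1 + IX + IS)
  rw [e4]
  refine (abs_add_le _ _).trans ?_
  have h6 : 0 ≤ C * IX := mul_nonneg hC0 hIX0
  have h8 : 0 ≤ C * IS := mul_nonneg hC0 hIS0
  nlinarith

end EscP
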