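import Pool.Agent.EscW.PR0a
import Pool.Agent.EscW.PR0c

/-!
Project EscW, part P (MP_6acca1_an): the flux property for functions which are only continuous.
-/

noncomputable section

namespace EscP

open MeasureTheory Set Filter Topology Esc EscF EscG EscT
open scoped ContDiff

variable {ι : Type} [Fintype ι] {E : Type*} [NormedAddCommGroup E] [InnerProductSpace ℝ E]
  [FiniteDimensional ℝ E] {m M : ℝ} {l : E → E → ℝ → ℝ}
  {β : Module.Basis ι ℝ E} {F : E → E → ℝ → ℝ} {mF MF A : ℝ} {κ : ℝ → ℝ} {B : E → ℝ → ℝ} {k0 : ι}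
  {len : ℝ} {c c' ct : ℝ → ℝ → E}

/-- the flux property -/
theorem FX_of_CalT (h : CalT β F mF MF A κ B k0 len c c' ct) (hN : DN β F B c c') (hl : CT β M l) {MA : ℝ}
    (hA : AT F κ MA l) : ∃ L : LP, ∀ (A' : ℝ) (g : E), FX (gdT β F mF MF A' κ B k0 len c g) L l := by
  have hMA : 0 ≤ MA := by
    have h1 := (abs_nonneg _).trans (hA 0 0 1 0 0 0)
    simp at h1
    exact h1
  obtain ⟨C, hC0, a1, a2, a3, a4, a5, a6⟩ := PR0_flT_reg h hl hA
  obtain ⟨A1, hA1, hok⟩ := gdT_ok0 h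
  have h0 := hok A1 le_rfl 0
  have hA0 := h.A_pos
  have key := fun (ε : ℝ) (hε : 0 < ε) => PR0_main (fl := flT F κ B l len c c') h0 hl.cont le_rfl hMA hA a1 a6
    (fun ε hε => PR0_flT_frozen h hN hl hA hε) hε
  choose K hK0 hK using key
  refine ⟨⟨M, C, A⁻¹, flT F κ B l len c c', fun ε => if hε : 0 < ε then K ε hε else 0⟩,
    fun A' g => ?_⟩
  refine ⟨hC0, ?_, ?_, a1, a2, a3, a5, ?_, ?_⟩
  · show 0 < A⁻¹
    positivity
  · intro ε
    show 0 ≤ (if hε : 0 < ε then K ε hε else 0)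
    split_ifs with hε
    · exact hK0 ε hε
    · exact le_rfl
  · intro s t hs
    show flT F κ B l len c c' s t ≤ s ^ 2 / 2 * (1 - A⁻¹) + C * s
    have h1 := (abs_le.1 (a4 s t hs)).2
    have h2 : A⁻¹ ≤ (κ t)⁻¹ := by
      have h3 := h.κ_le t
      have h4 : 0 < κ t := by
        have h5 := h.κ_pos t
        by_contra hcon
        have h6 := mul_nonpos_of_nonneg_of_nonpos hA0.le (not_lt.1 hcon)
        linarith
      exact inv_anti₀ h4 h3
    have h3 : s ^ 2 / 2 * (1 - (κ t)⁻¹) ≤ s ^ 2 / 2 * (1 - A⁻¹) := by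
      apply mul_le_mul_of_nonneg_left (by linarith) (by positivity)
    linarith
  · intro ε hε s hs z u hu t t' htt htt'
    have h1 := hK ε hε s hs z u hu t t' htt htt'
    show |(∫ r in t..t', (l (traj t z u r) (u r) r - κ r * F (traj t z u r) (u r) r ^ 2 / 2 -
        s * deriv (fun a => B (traj t z u r) a) r + s ^ 2 / 2 * (1 - (κ r)⁻¹))) -
        ∫ r in t..t', flT F κ B l len c c' s r| ≤
      ε * s + (if hε : 0 < ε then K ε hε else 0) * (1 + (∫ r in t..t',
        (F (traj t z u r) (u r) r - fderiv ℝ (fun y => B y r) (traj t z u r) (u r))) +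
        ∫ r in t..t', |κ r * F (traj t z u r) (u r) r - s|)
    rw [dif_pos hε]
    exact h1

end EscP
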