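import Pool.Agent.EscW.PRDefs

/-!
Project EscW, part P (MP_6acca1_an): the profile.
-/

noncomputable section

namespace EscP

open MeasureTheory Set Filter Topology Esc EscF EscG EscT
open scoped ContDiff

/-- the cut-off -/
def PR1_b (j0 j1 : ℝ) (y : ℝ) : ℝ := max 0 (min 1 (min ((2 * y - j0) / j0) ((2 * j1 - y) / j1)))

theorem PR1_b_cont (j0 j1 : ℝ) : Continuous (PR1_b j0 j1) := by
  unfold PR1_b
  fun_prop

theorem PR1_b_nonneg (j0 j1 y : ℝ) : 0 ≤ PR1_b j0 j1 y := le_max_left _ _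

theorem PR1_b_le (j0 j1 y : ℝ) : PR1_b j0 j1 y ≤ 1 := max_le zero_le_one (min_le_left _ _)

theorem PR1_b_one {j0 j1 y : ℝ} (h0 : 0 < j0) (h1 : j0 < j1) (hy0 : j0 ≤ y) (hy1 : y ≤ j1) : PR1_b j0 j1 y = 1 := by
  unfold PR1_b
  have a1 : 1 ≤ (2 * y - j0) / j0 := by
    rw [le_div_iff₀ h0]
    linarith
  have a2 : 1 ≤ (2 * j1 - y) / j1 := by
    rw [le_div_iff₀ (h0.trans h1)]
    linarith
  rw [min_eq_left (le_min a1 a2)]
  exact max_eq_right zero_le_one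

theorem PR1_b_low {j0 j1 y : ℝ} (h0 : 0 < j0) (hy : y ≤ j0 / 2) : PR1_b j0 j1 y = 0 := by
  unfold PR1_b
  have a1 : (2 * y - j0) / j0 ≤ 0 := div_nonpos_of_nonpos_of_nonneg (by linarith) h0.le
  exact max_eq_left (le_trans (min_le_right _ _) (le_trans (min_le_left _ _) a1))

theorem PR1_b_high {j0 j1 y : ℝ} (h1 : 0 < j1) (hy : 2 * j1 ≤ y) : PR1_b j0 j1 y = 0 := by
  unfold PR1_b
  have a1 : (2 * j1 - y) / j1 ≤ 0 := div_nonpos_of_nonpos_of_nonneg (by linarith) h1.le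
  exact max_eq_left (le_trans (min_le_right _ _) (le_trans (min_le_right _ _) a1))

/-- the truncated identity -/
def PR1_x (j0 j1 : ℝ) (y : ℝ) : ℝ := j0 + ∫ u in j0..y, PR1_b j0 j1 u

theorem PR1_x_d (j0 j1 y : ℝ) : HasDerivAt (PR1_x j0 j1) (PR1_b j0 j1 y) y :=
  ((PR1_b_cont j0 j1).integral_hasStrictDerivAt j0 y).hasDerivAt.const_add j0

theorem PR1_int (j0 j1 a c : ℝ) : IntervalIntegrable (PR1_b j0 j1) volume a c :=
  (PR1_b_cont j0 j1).intervalIntegrable a c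

theorem PR1_int_le (j0 j1 : ℝ) {a c : ℝ} (hac : a ≤ c) : ∫ u in a..c, PR1_b j0 j1 u ≤ c - a := by
  have h := intervalIntegral.integral_mono_on hac (PR1_int j0 j1 a c)
    (intervalIntegrable_const (c := (1:ℝ))) (fun u _ => PR1_b_le j0 j1 u)
  simpa using h

theorem PR1_int_nonneg (j0 j1 : ℝ) {a c : ℝ} (hac : a ≤ c) : 0 ≤ ∫ u in a..c, PR1_b j0 j1 u :=
  intervalIntegral.integral_nonneg hac (fun u _ => PR1_b_nonneg j0 j1 u)

theorem PR1_x_eq {j0 j1 y : ℝ} (h0 : 0 < j0) (h1 : j0 < j1) (hy0 : j0 ≤ y) (hy1 : y ≤ j1) : PR1_x j0 j1 y = y := by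
  unfold PR1_x
  have h : ∫ u in j0..y, PR1_b j0 j1 u = ∫ u in j0..y, (1:ℝ) := by
    refine intervalIntegral.integral_congr fun u hu => ?_
    rw [uIcc_of_le hy0] at hu
    exact PR1_b_one h0 h1 hu.1 (hu.2.trans hy1)
  rw [h]
  simp

theorem PR1_x_low {j0 j1 : ℝ} (h0 : 0 < j0) (y : ℝ) : j0 / 2 ≤ PR1_x j0 j1 y := by
  unfold PR1_x
  rcases le_total j0 y with hy | hy
  · have := PR1_int_nonneg j0 j1 hy
    linarith
  · rw [intervalIntegral.integral_symm]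
    rcases le_total (j0 / 2) y with hy' | hy'
    · have := PR1_int_le j0 j1 hy
      linarith
    · have h2 := intervalIntegral.integral_add_adjacent_intervals (PR1_int j0 j1 y (j0 / 2))
        (PR1_int j0 j1 (j0 / 2) j0)
      have h3 : ∫ u in y..(j0 / 2), PR1_b j0 j1 u = ∫ u in y..(j0 / 2), (0:ℝ) := by
        refine intervalIntegral.integral_congr fun u hu => ?_
        rw [uIcc_of_le hy'] at hu
        exact PR1_b_low h0 hu.2
      rw [h3, intervalIntegral.integral_zero] at h2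
      have h4 := PR1_int_le j0 j1 (a := j0 / 2) (c := j0) (by linarith)
      linarith

theorem PR1_x_high {j0 j1 : ℝ} (h0 : 0 < j0) (h1 : j0 < j1) (y : ℝ) : PR1_x j0 j1 y ≤ 2 * j1 := by
  unfold PR1_x
  rcases le_total y j0 with hy | hy
  · rw [intervalIntegral.integral_symm]
    have := PR1_int_nonneg j0 j1 hy
    linarith
  · rcases le_total y (2 * j1) with hy' | hy'
    · have := PR1_int_le j0 j1 hy
      linarith
    · have h2 := intervalIntegral.integral_add_adjacent_intervals (PR1_int j0 j1 j0 (2 * j1))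
        (PR1_int j0 j1 (2 * j1) y)
      have h3 : ∫ u in (2 * j1)..y, PR1_b j0 j1 u = ∫ u in (2 * j1)..y, (0:ℝ) := by
        refine intervalIntegral.integral_congr fun u hu => ?_
        rw [uIcc_of_le hy'] at hu
        exact PR1_b_high (h0.trans h1) hu.1
      rw [h3, intervalIntegral.integral_zero] at h2
      have h4 := PR1_int_le j0 j1 (a := j0) (c := 2 * j1) (by linarith)
      linarith

theorem PR1_rpow_le {a c x r : ℝ} (ha : 0 < a) (h1 : a ≤ x) (h2 : x ≤ c) : x ^ r ≤ a ^ r + c ^ r := by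
  have hx : 0 < x := lt_of_lt_of_le ha h1
  have hc : 0 < c := lt_of_lt_of_le hx h2
  rcases le_total 0 r with hr | hr
  · have h3 := Real.rpow_le_rpow hx.le h2 hr
    have h4 := (Real.rpow_pos_of_pos ha r).le
    linarith
  · have h3 := Real.rpow_le_rpow_of_nonpos ha h1 hr
    have h4 := (Real.rpow_pos_of_pos hc r).le
    linarith

theorem exists_Prof {e j0 j1 : ℝ} (he : 2 ≤ e) (h0 : 0 < j0) (h1 : j0 < j1) :
    ∃ (θ0 θ1 : ℝ) (ψ ψ' ψ'' : ℝ → ℝ), Prof e j0 j1 θ0 θ1 ψ ψ' ψ'' := by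
  have hj1 : 0 < j1 := h0.trans h1
  have hxl : ∀ y, j0 ≤ 2 * PR1_x j0 j1 y := fun y => by linarith [PR1_x_low (j1 := j1) h0 y]
  have hxh : ∀ y, 2 * PR1_x j0 j1 y ≤ 4 * j1 := fun y => by linarith [PR1_x_high h0 h1 y]
  have hxp : ∀ y, 0 < 2 * PR1_x j0 j1 y := fun y => lt_of_lt_of_le h0 (hxl y)
  have hxc : Continuous (PR1_x j0 j1) := continuous_iff_continuousAt.2 fun y => (PR1_x_d j0 j1 y).continuousAt
  have hp : 0 ≤ (e - 2) / 2 := by linarith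
  let θ : ℝ → ℝ := fun y => (2 * PR1_x j0 j1 y) ^ ((e - 2) / 2)
  let θ' : ℝ → ℝ := fun y => (e - 2) * (2 * PR1_x j0 j1 y) ^ ((e - 4) / 2) * PR1_b j0 j1 y
  have hθc : Continuous θ := (continuous_const.mul hxc).rpow_const fun y => Or.inl (hxp y).ne'
  have hθd : ∀ y, HasDerivAt θ (θ' y) y := by
    intro y
    have h2 := ((PR1_x_d j0 j1 y).const_mul 2).rpow_const (p := (e - 2) / 2) (Or.inl (hxp y).ne')
    have h3 : 2 * PR1_b j0 j1 y * ((e - 2) / 2) * (2 * PR1_x j0 j1 y) ^ ((e - 2) / 2 - 1) = θ' y := by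
      have h4 : (e - 2) / 2 - 1 = (e - 4) / 2 := by ring
      rw [h4]
      show _ = (e - 2) * (2 * PR1_x j0 j1 y) ^ ((e - 4) / 2) * PR1_b j0 j1 y
      ring
    rw [h3] at h2
    exact h2
  have hA : 0 ≤ j0 ^ ((e - 4) / 2) := (Real.rpow_pos_of_pos h0 _).le
  have hB : 0 ≤ (4 * j1) ^ ((e - 4) / 2) := (Real.rpow_pos_of_pos (by linarith) _).le
  have hC : 0 ≤ (4 * j1) ^ ((e - 2) / 2) := (Real.rpow_pos_of_pos (by linarith) _).le
  refine ⟨j0 ^ ((e - 2) / 2), (4 * j1) ^ ((e - 2) / 2) + (e - 2) * (j0 ^ ((e - 4) / 2) + (4 * j1) ^ ((e - 4) / 2)),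
    fun y => ∫ u in (0:ℝ)..y, θ u, θ, θ', ?_⟩
  refine ⟨Real.rpow_pos_of_pos h0 _, ?_, hθd, ?_, ?_, ?_, ?_, ?_, ?_⟩
  · intro y
    exact (hθc.integral_hasStrictDerivAt 0 y).hasDerivAt
  · exact (continuous_const.mul ((continuous_const.mul hxc).rpow_const fun y => Or.inl (hxp y).ne')).mul
      (PR1_b_cont j0 j1)
  · simp
  · intro y
    refine ⟨Real.rpow_le_rpow h0.le (hxl y) hp, ?_⟩
    have h2 := Real.rpow_le_rpow (hxp y).le (hxh y) hp
    have h3 : 0 ≤ (e - 2) * (j0 ^ ((e - 4) / 2) + (4 * j1) ^ ((e - 4) / 2)) :=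
      mul_nonneg (by linarith) (by linarith)
    show (2 * PR1_x j0 j1 y) ^ ((e - 2) / 2) ≤ _
    linarith
  · intro y
    have h2 : 0 ≤ (2 * PR1_x j0 j1 y) ^ ((e - 4) / 2) := (Real.rpow_pos_of_pos (hxp y) _).le
    have h3 := PR1_rpow_le (r := (e - 4) / 2) h0 (hxl y) (hxh y)
    have h4 := PR1_b_nonneg j0 j1 y
    have h5 := PR1_b_le j0 j1 y
    have he2 : 0 ≤ e - 2 := by linarith
    show 0 ≤ (e - 2) * (2 * PR1_x j0 j1 y) ^ ((e - 4) / 2) * PR1_b j0 j1 y ∧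
      (e - 2) * (2 * PR1_x j0 j1 y) ^ ((e - 4) / 2) * PR1_b j0 j1 y ≤ _
    refine ⟨mul_nonneg (mul_nonneg he2 h2) h4, ?_⟩
    calc (e - 2) * (2 * PR1_x j0 j1 y) ^ ((e - 4) / 2) * PR1_b j0 j1 y
        ≤ (e - 2) * (2 * PR1_x j0 j1 y) ^ ((e - 4) / 2) * 1 :=
          mul_le_mul_of_nonneg_left h5 (mul_nonneg he2 h2)
      _ = (e - 2) * (2 * PR1_x j0 j1 y) ^ ((e - 4) / 2) := mul_one _
      _ ≤ (e - 2) * (j0 ^ ((e - 4) / 2) + (4 * j1) ^ ((e - 4) / 2)) := mul_le_mul_of_nonneg_left h3 he2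
      _ ≤ _ := by linarith
  · intro y hy
    show (e - 2) * (2 * PR1_x j0 j1 y) ^ ((e - 4) / 2) * PR1_b j0 j1 y = 0
    rw [PR1_b_low h0 (by linarith), mul_zero]
  · intro y hy0 hy1
    show (2 * PR1_x j0 j1 y) ^ ((e - 2) / 2) = _
    rw [PR1_x_eq h0 h1 hy0 hy1]

end EscP
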