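import Pool.Agent.EscW.PR2a

/-!
Project EscW, part P (MP_6acca1_an): the truncations are of quadratic growth, uniformly in `q`.
-/

noncomputable section

namespace EscP

open MeasureTheory Set Filter Topology Esc EscF EscG EscT
open scoped ContDiff

variable {E : Type*} [NormedAddCommGroup E] [InnerProductSpace ℝ E] [FiniteDimensional ℝ E]
  {ι : Type} [Fintype ι] {e j0 j1 θ0 θ1 : ℝ} {ψ ψ' ψ'' : ℝ → ℝ} {β : Module.Basis ι ℝ E}
  {F : E → E → ℝ → ℝ} {mF MF A A1 m M MA C : ℝ} {κ g : ℝ → ℝ} {B : E → ℝ → ℝ} {k0 : ι} {len : ℝ}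
  {c c' ct : ℝ → ℝ → E} {L : LP} {l l2 : E → E → ℝ → ℝ}

theorem PR2_mono (hψ : Prof e j0 j1 θ0 θ1 ψ ψ' ψ'') : Monotone ψ' :=
  monotone_of_hasDerivAt_nonneg hψ.d2 (fun y => (hψ.p2 y).1)

theorem PR2_lip (hψ : Prof e j0 j1 θ0 θ1 ψ ψ' ψ'') (a b : ℝ) : |ψ a - ψ b| ≤ θ1 * |a - b| := by
  have h1 := Convex.norm_image_sub_le_of_norm_hasDerivWithin_le (f := ψ) (f' := ψ') (C := θ1) (s := Set.univ)
    (x := b) (y := a) (fun x _ => (hψ.d1 x).hasDerivWithinAt)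
    (fun x _ => by
      rw [Real.norm_eq_abs, abs_le]
      have h2 := hψ.p1 x
      have h3 := hψ.θ_pos
      exact ⟨by linarith, by linarith⟩) convex_univ (Set.mem_univ _) (Set.mem_univ _)
  rwa [Real.norm_eq_abs, Real.norm_eq_abs] at h1

/-- the profile lies above its tangents -/
theorem Prof.tan (hψ : Prof e j0 j1 θ0 θ1 ψ ψ' ψ'') (a y : ℝ) : ψ a + ψ' a * (y - a) ≤ ψ y := by
  have hc : Continuous ψ := continuous_iff_continuousAt.mpr (fun x => (hψ.d1 x).continuousAt)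
  rcases lt_trichotomy a y with h | h | h
  · obtain ⟨x, hx, h1⟩ := exists_hasDerivAt_eq_slope ψ ψ' h hc.continuousOn (fun x _ => hψ.d1 x)
    have h2 : ψ' a ≤ ψ' x := PR2_mono hψ hx.1.le
    have h3 : 0 < y - a := by linarith
    rw [eq_div_iff h3.ne'] at h1
    nlinarith
  · subst h
    simp
  · obtain ⟨x, hx, h1⟩ := exists_hasDerivAt_eq_slope ψ ψ' h hc.continuousOn (fun x _ => hψ.d1 x)
    have h2 : ψ' x ≤ ψ' a := PR2_mono hψ hx.2.le
    have h3 : 0 < a - y := by linarith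
    rw [eq_div_iff h3.ne'] at h1
    nlinarith

theorem tg_lq (hψ : Prof e j0 j1 θ0 θ1 ψ ψ' ψ'') (hl : TG β m M l2) {q : ℝ} (hq : 0 < q) :
    TG β (θ0 * m) (M * θ1) (lq q ψ l2) := by
  have hq2 : 0 < q ^ 2 := by positivity
  have hm := hl.m_pos
  have hM := hl.M_nonneg
  have h0 := hψ.θ_pos
  have h1 : 0 < θ1 := lt_of_lt_of_le h0 ((hψ.p1 0).1.trans (hψ.p1 0).2)
  have hlip : ∀ a b : ℝ, |q ^ 2 * ψ (a / q ^ 2) - q ^ 2 * ψ (b / q ^ 2)| ≤ θ1 * |a - b| := by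
    intro a b
    have h3 := PR2_lip hψ (a / q ^ 2) (b / q ^ 2)
    have h4 : q ^ 2 * ψ (a / q ^ 2) - q ^ 2 * ψ (b / q ^ 2) = q ^ 2 * (ψ (a / q ^ 2) - ψ (b / q ^ 2)) := by ring
    rw [h4, abs_mul, abs_of_pos hq2]
    have h5 : a / q ^ 2 - b / q ^ 2 = (a - b) / q ^ 2 := by ring
    rw [h5, abs_div, abs_of_pos hq2] at h3
    have h6 : q ^ 2 * |ψ (a / q ^ 2) - ψ (b / q ^ 2)| ≤ q ^ 2 * (θ1 * (|a - b| / q ^ 2)) :=
      mul_le_mul_of_nonneg_left h3 hq2.le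
    refine h6.trans (le_of_eq ?_)
    field_simp
  refine ⟨by positivity, by positivity, lq_smooth hψ hl.smooth q, ?_, ?_, ?_, ?_, ?_⟩
  · intro i x v t
    unfold lq
    rw [hl.per]
  · intro x v t
    unfold lq
    rw [hl.pert]
  · intro x u v t
    rw [gu_lq hψ hl.smooth hq.ne' x v t, inner_smul_left]
    unfold lq
    simp only [conj_trivial]
    have h3 := hψ.tan (l2 x v t / q ^ 2) (l2 x u t / q ^ 2)
    have h4 := mul_le_mul_of_nonneg_left h3 hq2.le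
    have h5 : q ^ 2 * (ψ (l2 x v t / q ^ 2) + ψ' (l2 x v t / q ^ 2) * (l2 x u t / q ^ 2 - l2 x v t / q ^ 2)) =
        q ^ 2 * ψ (l2 x v t / q ^ 2) + ψ' (l2 x v t / q ^ 2) * (l2 x u t - l2 x v t) := by
      field_simp
    rw [h5] at h4
    have h6 := hl.conv x u v t
    have h7 := (hψ.p1 (l2 x v t / q ^ 2)).1
    have h8 : 0 < ψ' (l2 x v t / q ^ 2) := by linarith
    have h9 : ψ' (l2 x v t / q ^ 2) * (inner ℝ (gu l2 x v t) (u - v) + m / 2 * ‖u - v‖ ^ 2) ≤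
        ψ' (l2 x v t / q ^ 2) * (l2 x u t - l2 x v t) := mul_le_mul_of_nonneg_left (by linarith) h8.le
    have h10 : θ0 * (m / 2 * ‖u - v‖ ^ 2) ≤ ψ' (l2 x v t / q ^ 2) * (m / 2 * ‖u - v‖ ^ 2) :=
      mul_le_mul_of_nonneg_right h7 (by positivity)
    nlinarith
  · intro x v t t'
    unfold lq
    refine (hlip _ _).trans ?_
    have h8 := mul_le_mul_of_nonneg_left (hl.l_t x v t t') h1.le
    refine h8.trans (le_of_eq ?_)
    ring
  · intro x v t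
    unfold lq
    have h3 := hlip (l2 x v t) 0
    rw [zero_div, hψ.zero, mul_zero, sub_zero, sub_zero] at h3
    have h8 := mul_le_mul_of_nonneg_left (hl.l_bd x v t) h1.le
    refine (h3.trans h8).trans (le_of_eq ?_)
    ring

end EscP
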