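import Pool.Agent.EscW.PRDefs

/-!
Project EscW, part P (MP_6acca1_an): the weights.

`κ ∈ [1/A, A]`, `A ≥ 1`. A power `κ ^ p` with `|p| ≤ 1` is in `[1/A, A]` and Lipschitz with the constant `A³`;
the exponents are `e/(2(e-1)) ∈ [1/2, 1]`, `e/(2(e-1)) - 1 = -(e-2)/(2(e-1)) ∈ [-1/2, 0]` and `-1/(e-1) ∈ [-1, 0]`.
-/

noncomputable section

namespace EscP

open MeasureTheory Set Filter Topology Esc EscF EscG EscT
open scoped ContDiff

/-- bounds for powers -/
private theorem PR3_bd {A x p : ℝ} (hx : 0 < x) (h1 : 1 ≤ A * x) (h2 : x ≤ A) (hp : |p| ≤ 1) :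
    1 ≤ A * x ^ p ∧ x ^ p ≤ A := by
  have hA : 0 < A := hx.trans_le h2
  have hl : |Real.log x| ≤ Real.log A := by
    rw [abs_le]
    constructor
    · have : Real.log 1 ≤ Real.log (A * x) := Real.log_le_log one_pos h1
      rw [Real.log_one, Real.log_mul hA.ne' hx.ne'] at this
      linarith
    · exact Real.log_le_log hx h2
  have hlA : 0 ≤ Real.log A := (abs_nonneg _).trans hl
  have h3 : |Real.log x * p| ≤ Real.log A := by
    rw [abs_mul]
    calc |Real.log x| * |p| ≤ Real.log A * 1 := mul_le_mul hl hp (abs_nonneg _) hlA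
      _ = Real.log A := mul_one _
  obtain ⟨h4, h5⟩ := abs_le.1 h3
  rw [Real.rpow_def_of_pos hx]
  constructor
  · calc (1 : ℝ) = A * Real.exp (- Real.log A) := by
          rw [Real.exp_neg, Real.exp_log hA, mul_inv_cancel₀ hA.ne']
      _ ≤ A * Real.exp (Real.log x * p) := mul_le_mul_of_nonneg_left (Real.exp_le_exp.2 h4) hA.le
  · calc Real.exp (Real.log x * p) ≤ Real.exp (Real.log A) := Real.exp_le_exp.2 h5
      _ = A := Real.exp_log hA

/-- powers are Lipschitz -/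
private theorem PR3_lip {A x y p : ℝ} (hx1 : 1 ≤ A * x) (hx2 : x ≤ A) (hx : 0 < x) (hy1 : 1 ≤ A * y)
    (hy2 : y ≤ A) (hy : 0 < y) (hp : |p| ≤ 1) : |x ^ p - y ^ p| ≤ A ^ 2 * |x - y| := by
  have hA : 0 < A := hx.trans_le hx2
  have hmem : ∀ {z : ℝ}, z ∈ Icc (A⁻¹) A → 0 < z ∧ 1 ≤ A * z ∧ z ≤ A := by
    intro z hz
    have h0 : 0 < z := (inv_pos.2 hA).trans_le hz.1
    refine ⟨h0, ?_, hz.2⟩
    have := mul_le_mul_of_nonneg_left hz.1 hA.le
    rwa [mul_inv_cancel₀ hA.ne'] at this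
  have hin : ∀ {z : ℝ}, 1 ≤ A * z → z ≤ A → z ∈ Icc (A⁻¹) A := by
    intro z h1 h2
    refine ⟨?_, h2⟩
    rw [inv_le_iff_one_le_mul₀ hA]
    linarith
  have h := Convex.norm_image_sub_le_of_norm_hasDerivWithin_le (f := fun z : ℝ => z ^ p)
    (f' := fun z : ℝ => p * z ^ (p - 1)) (s := Icc (A⁻¹) A) (C := A ^ 2) (x := y) (y := x)
    (fun z hz => (Real.hasDerivAt_rpow_const (Or.inl (hmem hz).1.ne')).hasDerivWithinAt)
    (fun z hz => by
      obtain ⟨z0, z1, z2⟩ := hmem hz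
      rw [Real.norm_eq_abs, abs_mul, abs_of_pos (Real.rpow_pos_of_pos z0 _), Real.rpow_sub_one z0.ne']
      have h1 := (PR3_bd z0 z1 z2 hp).2
      have h0 : 0 < z ^ p := Real.rpow_pos_of_pos z0 _
      have h3 : z ^ p / z ≤ A * A := by
        rw [div_le_iff₀ z0]
        have : A * 1 ≤ A * (A * z) := mul_le_mul_of_nonneg_left z1 hA.le
        nlinarith
      calc |p| * (z ^ p / z) ≤ 1 * (A * A) := mul_le_mul hp h3 (by positivity) (by norm_num)
        _ = A ^ 2 := by ring)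
    (convex_Icc _ _) (hin hy1 hy2) (hin hx1 hx2)
  simpa [Real.norm_eq_abs] using h

variable {E : Type*} [NormedAddCommGroup E] [InnerProductSpace ℝ E] [FiniteDimensional ℝ E]
  {ι : Type} [Fintype ι] {e j0 j1 θ0 θ1 : ℝ} {ψ ψ' ψ'' : ℝ → ℝ} {β : Module.Basis ι ℝ E}
  {F : E → E → ℝ → ℝ} {mF MF A A1 m M MA C : ℝ} {κ g : ℝ → ℝ} {B : E → ℝ → ℝ} {k0 : ι} {len : ℝ}
  {c c' ct : ℝ → ℝ → E} {L : LP} {l l2 : E → E → ℝ → ℝ}

theorem exists_KF (he : 2 ≤ e) (h1 : 0 < A) (h2 : ∀ t, 1 ≤ A * κ t) (h3 : ∀ t, κ t ≤ A)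
    (h4 : ∀ t t', |κ t - κ t'| ≤ A * |t - t'|) (h5 : ∀ t, κ (t + 1) = κ t) :
    ∃ A1 : ℝ, A ≤ A1 ∧ KF A1 e κ := by
  have hκ : ∀ t, 0 < κ t := by
    intro t
    by_contra hc
    have := h2 t
    have h6 : A * κ t ≤ 0 := mul_nonpos_of_nonneg_of_nonpos h1.le (not_lt.1 hc)
    linarith
  have hA1 : 1 ≤ A := by
    have h6 := h2 0
    have h7 := h3 0
    have h8 : A * κ 0 ≤ A * A := mul_le_mul_of_nonneg_left h7 h1.le
    nlinarith
  have he1 : 0 < e - 1 := by linarith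
  -- exponents
  have hp1 : |e / (2 * (e - 1))| ≤ 1 := by
    rw [abs_of_nonneg (by positivity), div_le_one (by positivity)]
    linarith
  have hp2 : |e / (2 * (e - 1)) - 1| ≤ 1 := by
    have h6 : 0 ≤ e / (2 * (e - 1)) := by positivity
    have h7 := (abs_le.1 hp1).2
    rw [abs_le]
    constructor <;> linarith
  have hp3 : |-(1 / (e - 1))| ≤ 1 := by
    rw [abs_neg, abs_of_nonneg (by positivity), div_le_one he1]
    linarith
  have hr : ∀ t, kh e κ t / κ t = κ t ^ (e / (2 * (e - 1)) - 1) := by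
    intro t
    unfold kh
    rw [Real.rpow_sub_one (hκ t).ne']
  have hAA : A ≤ 2 * A ^ 3 := by nlinarith [sq_nonneg A, mul_pos h1 h1]
  have hA3 : A ^ 3 ≤ 2 * A ^ 3 := by
    have : 0 < A ^ 3 := by positivity
    linarith
  have h2A : 2 * A ≤ 2 * A ^ 3 := by nlinarith [sq_nonneg A, mul_pos h1 h1]
  have hlip : ∀ p : ℝ, |p| ≤ 1 → ∀ t t', |κ t ^ p - κ t' ^ p| ≤ 2 * A ^ 3 * |t - t'| := by
    intro p hp t t'
    have h6 := PR3_lip (h2 t) (h3 t) (hκ t) (h2 t') (h3 t') (hκ t') hp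
    have h7 : A ^ 2 * |κ t - κ t'| ≤ A ^ 2 * (A * |t - t'|) :=
      mul_le_mul_of_nonneg_left (h4 t t') (by positivity)
    have h8 : A ^ 3 * |t - t'| ≤ 2 * A ^ 3 * |t - t'| := mul_le_mul_of_nonneg_right hA3 (abs_nonneg _)
    calc |κ t ^ p - κ t' ^ p| ≤ A ^ 2 * (A * |t - t'|) := h6.trans h7
      _ = A ^ 3 * |t - t'| := by ring
      _ ≤ _ := h8
  have hbd1 : ∀ p : ℝ, |p| ≤ 1 → ∀ t, 1 ≤ A * κ t ^ p := fun p hp t => (PR3_bd (hκ t) (h2 t) (h3 t) hp).1
  have hbd2 : ∀ p : ℝ, |p| ≤ 1 → ∀ t, κ t ^ p ≤ A := fun p hp t => (PR3_bd (hκ t) (h2 t) (h3 t) hp).2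
  have hκc : Continuous κ := by
    have : LipschitzWith (Real.toNNReal A) κ := by
      refine LipschitzWith.of_dist_le_mul fun t t' => ?_
      rw [Real.dist_eq, Real.dist_eq, Real.coe_toNNReal _ h1.le]
      exact h4 t t'
    exact this.continuous
  refine ⟨2 * A ^ 3, hAA, ?_⟩
  refine
    { A_pos := by positivity
      pos := hκ
      c1 := fun t => (h2 t).trans (mul_le_mul_of_nonneg_right hAA (hκ t).le)
      c2 := fun t => (h3 t).trans hAA
      c3 := fun t t' => (h4 t t').trans (mul_le_mul_of_nonneg_right hAA (abs_nonneg _))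
      k0 := fun t => Real.rpow_pos_of_pos (hκ t) _
      k1 := fun t => (hbd1 _ hp1 t).trans (mul_le_mul_of_nonneg_right hAA (Real.rpow_pos_of_pos (hκ t) _).le)
      k2 := fun t => (hbd2 _ hp1 t).trans hAA
      k3 := fun t t' => hlip _ hp1 t t'
      kp := fun t => by
        unfold kh
        rw [h5]
      r2 := fun t => by
        rw [hr]
        exact (hbd2 _ hp2 t).trans hAA
      r3 := fun t t' => by
        rw [hr, hr]
        exact hlip _ hp2 t t'
      y1 := fun t => ?_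
      y2 := fun t => ?_
      yc := ?_
      yp := fun t => by
        unfold Yt
        rw [h5]
      re := fun t => ?_
      ye := fun t => ?_ }
  · unfold Yt
    have h6 := hbd1 _ hp3 t
    have h7 : 0 < κ t ^ (-(1 / (e - 1))) := Real.rpow_pos_of_pos (hκ t) _
    have h8 := mul_le_mul_of_nonneg_right h2A h7.le
    linarith
  · unfold Yt
    have h6 := hbd2 _ hp3 t
    linarith
  · unfold Yt
    exact (hκc.rpow_const fun t => Or.inl (hκ t).ne').div_const 2
  · rw [hr]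
    unfold Yt
    rw [mul_div_cancel₀ _ (two_ne_zero), ← Real.rpow_mul (hκ t).le]
    congr 1
    field_simp
    ring
  · unfold Yt kh
    rw [mul_div_cancel₀ _ (two_ne_zero), ← Real.rpow_natCast, ← Real.rpow_mul (hκ t).le,
      ← Real.rpow_add (hκ t)]
    have : -(1 / (e - 1)) + e / (2 * (e - 1)) * ((2 : ℕ) : ℝ) = 1 := by
      push_cast
      field_simp
      ring
    rw [this, Real.rpow_one]

end EscP
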