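import Pool.Agent.EscW.PRDefs
import Pool.Agent.EscT.EB
import Pool.Agent.EscT.ED

/-!
Project EscW, part P (MP_6acca1_an): the linearization of the truncations.
-/

noncomputable section

namespace EscP

open MeasureTheory Set Filter Topology Esc EscF EscG EscT
open scoped ContDiff

variable {E : Type*} [NormedAddCommGroup E] [InnerProductSpace ℝ E] [FiniteDimensional ℝ E]
  {ι : Type} [Fintype ι] {e j0 j1 θ0 θ1 : ℝ} {ψ ψ' ψ'' : ℝ → ℝ} {β : Module.Basis ι ℝ E}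
  {F : E → E → ℝ → ℝ} {mF MF A A1 m M MA C : ℝ} {κ g : ℝ → ℝ} {B : E → ℝ → ℝ} {k0 : ι} {len : ℝ}
  {c c' ct : ℝ → ℝ → E} {L : LP} {l l2 : E → E → ℝ → ℝ}

theorem PR4_rho_pos (hK : KF A1 e κ) (t : ℝ) : 0 < kh e κ t / κ t := div_pos (hK.k0 t) (hK.pos t)

theorem PR4_rho_abs (hK : KF A1 e κ) (t : ℝ) : |kh e κ t / κ t| ≤ A1 := by
  rw [abs_of_pos (PR4_rho_pos hK t)]
  exact hK.r2 t

theorem PR4_rho_cont (hK : KF A1 e κ) : Continuous (fun t => kh e κ t / κ t) := by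
  have h1 : LipschitzWith (Real.toNNReal A1) (fun t => kh e κ t / κ t) := by
    apply LipschitzWith.of_dist_le_mul
    intro t t'
    rw [Real.dist_eq, Real.dist_eq, Real.coe_toNNReal _ hK.A_pos.le]
    exact hK.r3 t t'
  exact h1.continuous

theorem ct_lh (h : CalT β F mF MF A κ B k0 len c c' ct) (hK : KF A1 e κ) (hl : TG β m M l2) :
    CT β (M * A1) (lh e κ l2) where
  M_nonneg := mul_nonneg hl.M_nonneg hK.A_pos.le
  cont := by
    unfold lh
    exact ((PR4_rho_cont hK).comp (continuous_snd.comp continuous_snd)).mul hl.smooth.continuous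
  per := fun i x v t => by
    unfold lh
    rw [hl.per]
  pert := fun x v t => by
    unfold lh
    rw [hl.pert, hK.kp, h.κ_per]
  l_bd := fun x v t => by
    unfold lh
    rw [abs_mul]
    calc |kh e κ t / κ t| * |l2 x v t| ≤ A1 * (M * (1 + ‖v‖ ^ 2)) :=
          mul_le_mul (PR4_rho_abs hK t) (hl.l_bd x v t) (abs_nonneg _) hK.A_pos.le
      _ = M * A1 * (1 + ‖v‖ ^ 2) := by ring

theorem at_lh (h : CalT β F mF MF A κ B k0 len c c' ct) (hK : KF A1 e κ) (hl : TG β m M l2)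
    (hA : AT F κ MA l2) : ∃ MA1 : ℝ, AT F (kh e κ) MA1 (lh e κ l2) := by
  refine ⟨A1 * (2 * |MA| + M), ?_⟩
  intro x v t x' v' t'
  have e1 : ∀ (y w : E) (r : ℝ), lh e κ l2 y w r - kh e κ r * F y w r ^ 2 / 2 =
      kh e κ r / κ r * (l2 y w r - κ r * F y w r ^ 2 / 2) := by
    intro y w r
    have h0 := (hK.pos r).ne'
    unfold lh
    field_simp
  rw [e1, e1]
  set a := l2 x v t - κ t * F x v t ^ 2 / 2 with ha
  set a' := l2 x' v' t' - κ t' * F x' v' t' ^ 2 / 2 with ha'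
  set ρ := kh e κ t / κ t with hρ
  set ρ' := kh e κ t' / κ t' with hρ'
  have h1 : |a| ≤ (|MA| + M) * (1 + ‖v‖) := EB_bd h.fins hl hA x v t
  have h2 : |a - a'| ≤ MA * (‖v - v'‖ + (1 + ‖v‖) * (‖x - x'‖ + |t - t'|)) := hA x v t x' v' t'
  have h3 : |ρ - ρ'| ≤ A1 * |t - t'| := hK.r3 t t'
  have h4 : |ρ'| ≤ A1 := PR4_rho_abs hK t'
  have hv : 0 ≤ ‖v‖ := norm_nonneg v
  have hvv : 0 ≤ ‖v - v'‖ := norm_nonneg _
  have hxx : 0 ≤ ‖x - x'‖ := norm_nonneg _
  have htt : 0 ≤ |t - t'| := abs_nonneg _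
  have hA1 := hK.A_pos.le
  have hM := hl.M_nonneg
  have hMA := abs_nonneg MA
  set R := ‖v - v'‖ + (1 + ‖v‖) * (‖x - x'‖ + |t - t'|) with hR
  have hRn : 0 ≤ R := by positivity
  have hRt : (1 + ‖v‖) * |t - t'| ≤ R := by
    have : 0 ≤ (1 + ‖v‖) * ‖x - x'‖ := by positivity
    rw [hR, mul_add]
    linarith
  have h5 : |a - a'| ≤ |MA| * R := h2.trans (mul_le_mul_of_nonneg_right (le_abs_self MA) hRn)
  have e2 : ρ * a - ρ' * a' = (ρ - ρ') * a + ρ' * (a - a') := by ring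
  rw [e2]
  calc |(ρ - ρ') * a + ρ' * (a - a')| ≤ |ρ - ρ'| * |a| + |ρ'| * |a - a'| := by
        rw [← abs_mul, ← abs_mul]
        exact abs_add_le _ _
    _ ≤ (A1 * |t - t'|) * ((|MA| + M) * (1 + ‖v‖)) + A1 * (|MA| * R) :=
        add_le_add (mul_le_mul h3 h1 (abs_nonneg _) (by positivity))
          (mul_le_mul h4 h5 (abs_nonneg _) hA1)
    _ = (A1 * (|MA| + M)) * ((1 + ‖v‖) * |t - t'|) + A1 * (|MA| * R) := by ring
    _ ≤ (A1 * (|MA| + M)) * R + A1 * (|MA| * R) := by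
        have := mul_le_mul_of_nonneg_left hRt (show 0 ≤ A1 * (|MA| + M) by positivity)
        linarith
    _ = A1 * (2 * |MA| + M) * R := by ring

end EscP
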