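import Pool.Agent.EscW.PRDefs
import Pool.Agent.EscT.EB
import Pool.Agent.EscT.ED

/-!
Project EscW, part P (MP_6acca1_an): `l₂` is `κ F²/2` up to linear errors.
-/

noncomputable section

namespace EscP

open MeasureTheory Set Filter Topology Esc EscF EscG EscT
open scoped ContDiff

variable {E : Type*} [NormedAddCommGroup E] [InnerProductSpace ℝ E] [FiniteDimensional ℝ E]
  {ι : Type} [Fintype ι] {e j0 j1 θ0 θ1 : ℝ} {ψ ψ' ψ'' : ℝ → ℝ} {β : Module.Basis ι ℝ E}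
  {F : E → E → ℝ → ℝ} {mF MF A A1 m M MA C : ℝ} {κ g : ℝ → ℝ} {B : E → ℝ → ℝ} {k0 : ι} {len : ℝ}
  {c c' ct : ℝ → ℝ → E} {L : LP} {l l2 : E → E → ℝ → ℝ}

theorem PR5_diff (hl : TG β m M l2) (x v : E) (t : ℝ) :
    HasFDerivAt (fun w => l2 x w t) (fderiv ℝ (fun w => l2 x w t) v) v := by
  have h1 : HasFDerivAt (fun p : E × E × ℝ => l2 p.1 p.2.1 p.2.2)
      (fderiv ℝ (fun p : E × E × ℝ => l2 p.1 p.2.1 p.2.2) (x, v, t)) (x, v, t) :=
    ((hl.smooth.differentiable (by norm_num)) _).hasFDerivAt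
  have h2 : HasFDerivAt (fun w : E => (x, w, t))
      ((ContinuousLinearMap.inr ℝ E (E × ℝ)).comp (ContinuousLinearMap.inl ℝ E ℝ)) v := by
    have h3 : HasFDerivAt (fun w : E => (w, t)) (ContinuousLinearMap.inl ℝ E ℝ) v :=
      hasFDerivAt_prodMk_left v t
    exact (hasFDerivAt_prodMk_right x (v, t)).comp v h3
  have h4 := h1.comp v h2
  have h5 : DifferentiableAt ℝ (fun w => l2 x w t) v := h4.differentiableAt
  exact h5.hasFDerivAt

theorem PR5_deriv (hl : TG β m M l2) (x v : E) (t : ℝ) :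
    HasDerivAt (fun τ : ℝ => l2 x (τ • v) t) (inner ℝ (gu l2 x v t) v) 1 := by
  have h1 : HasDerivAt (fun τ : ℝ => τ • v) v 1 := by
    simpa using (hasDerivAt_id (1 : ℝ)).smul_const v
  have h2 : HasFDerivAt (fun w => l2 x w t) (fderiv ℝ (fun w => l2 x w t) v) ((1 : ℝ) • v) := by
    rw [one_smul]
    exact PR5_diff hl x v t
  have h3 := h2.comp_hasDerivAt (1 : ℝ) h1
  have h4 : inner ℝ (gu l2 x v t) v = fderiv ℝ (fun w => l2 x w t) v v := by
    unfold gu gradient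
    exact InnerProductSpace.toDual_symm_apply
  rw [h4]
  exact h3

theorem PR5_gu (h : CalT β F mF MF A κ B k0 len c c' ct) (hl : TG β m M l2) (hA : AT F κ MA l2)
    (x v : E) (t : ℝ) : |inner ℝ (gu l2 x v t) v - κ t * F x v t ^ 2| ≤ |MA| * ‖v‖ := by
  have h1 := PR5_deriv hl x v t
  have h2 : HasDerivAt (fun τ : ℝ => τ ^ 2 * (κ t * F x v t ^ 2 / 2)) (κ t * F x v t ^ 2) 1 := by
    have h3 := (hasDerivAt_pow 2 (1 : ℝ)).mul_const (κ t * F x v t ^ 2 / 2)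
    refine h3.congr_deriv ?_
    norm_num
    ring
  have h4 := h1.sub h2
  have h5 := h4.le_of_lip' (C := |MA| * ‖v‖) (by positivity) (by
    filter_upwards [lt_mem_nhds (show (0 : ℝ) < 1 by norm_num)] with τ hτ
    have h6 := hA x (τ • v) t x v t
    have h7 : F x (τ • v) t = τ * F x v t := (h.fins t).hom x v τ hτ.le
    rw [h7] at h6
    simp only [sub_self, norm_zero, abs_zero, add_zero, mul_zero] at h6
    have h8 : τ • v - v = (τ - 1) • v := by rw [sub_smul, one_smul]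
    rw [h8, norm_smul] at h6
    have h9 : MA * (‖τ - 1‖ * ‖v‖) ≤ |MA| * (‖τ - 1‖ * ‖v‖) :=
      mul_le_mul_of_nonneg_right (le_abs_self _) (by positivity)
    simp only [one_smul, Pi.sub_apply, Real.norm_eq_abs] at h6 h9 ⊢
    calc |l2 x (τ • v) t - τ ^ 2 * (κ t * F x v t ^ 2 / 2) -
          (l2 x v t - 1 ^ 2 * (κ t * F x v t ^ 2 / 2))|
        = |l2 x (τ • v) t - κ t * (τ * F x v t) ^ 2 / 2 - (l2 x v t - κ t * F x v t ^ 2 / 2)| := by
          congr 1; ring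
      _ ≤ |MA| * (|τ - 1| * ‖v‖) := h6.trans h9
      _ = |MA| * ‖v‖ * |τ - 1| := by ring)
  simpa using h5

theorem l2_near (h : CalT β F mF MF A κ B k0 len c c' ct) (hl : TG β m M l2) (hA : AT F κ MA l2) :
    ∃ C : ℝ, 0 ≤ C ∧ ∀ x v t, |l2 x v t - κ t * F x v t ^ 2 / 2| ≤ C * (1 + ‖v‖) ∧
      |l2 x v t - κ t * F x v t ^ 2 / 2| ≤ C * (1 + F x v t) ∧
      |inner ℝ (gu l2 x v t) v - κ t * F x v t ^ 2| ≤ C * (1 + ‖v‖) := by
  have hm := (h.fins 0).mF_pos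
  have hM := hl.M_nonneg
  have h0 : 0 ≤ |MA| := abs_nonneg _
  have hi : 0 < mF⁻¹ := inv_pos.2 hm
  refine ⟨(|MA| + M) * (1 + mF⁻¹), by positivity, fun x v t => ?_⟩
  have hb := EB_bd h.fins hl hA x v t
  have hg := PR5_gu h hl hA x v t
  have hv := norm_nonneg v
  have hF : ‖v‖ ≤ mF⁻¹ * F x v t := by
    have h1 := (h.fins t).low x v
    rw [inv_mul_eq_div, le_div_iff₀ hm]
    linarith
  have hF0 : 0 ≤ F x v t := le_trans (by positivity) ((h.fins t).low x v)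
  have hc : (|MA| + M) * (1 + ‖v‖) ≤ (|MA| + M) * (1 + mF⁻¹) * (1 + ‖v‖) := by
    have : 0 ≤ (|MA| + M) * (1 + ‖v‖) * mF⁻¹ := by positivity
    nlinarith
  refine ⟨hb.trans hc, hb.trans ?_, hg.trans (le_trans ?_ hc)⟩
  · have h2 : 1 + ‖v‖ ≤ (1 + mF⁻¹) * (1 + F x v t) := by nlinarith
    calc (|MA| + M) * (1 + ‖v‖) ≤ (|MA| + M) * ((1 + mF⁻¹) * (1 + F x v t)) :=
          mul_le_mul_of_nonneg_left h2 (by positivity)
      _ = (|MA| + M) * (1 + mF⁻¹) * (1 + F x v t) := by ring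
  · nlinarith

end EscP
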