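import Pool.Agent.EscW.PRDefs
import Pool.Agent.EscT.C6b
import Pool.Agent.EscT.EF

/-!
Project EscW, part P (MP_6acca1_an): the action of the truncations.
-/

noncomputable section

namespace EscP

open MeasureTheory Set Filter Topology Esc EscF EscG EscT
open scoped ContDiff

variable {E : Type*} [NormedAddCommGroup E] [InnerProductSpace ℝ E] [FiniteDimensional ℝ E]
  {ι : Type} [Fintype ι] {e j0 j1 θ0 θ1 : ℝ} {ψ ψ' ψ'' : ℝ → ℝ} {β : Module.Basis ι ℝ E}
  {F : E → E → ℝ → ℝ} {mF MF A A1 m M MA C : ℝ} {κ g : ℝ → ℝ} {B : E → ℝ → ℝ} {k0 : ι} {len : ℝ}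
  {c c' ct : ℝ → ℝ → E} {L : LP} {l l2 : E → E → ℝ → ℝ}

/-- smoothing of the flux of the linearization: `a` with the additional term `b t * q²` near `q` -/
def mq (q s : ℝ) : ℝ := if s < q - 2 then s + 2 else if q + 2 < s then s - 2 else q

theorem mq_facts (q : ℝ) (hq : 1 ≤ q) : (∀ s, |s - q| ≤ 2 → mq q s = q) ∧
    (∀ s, 1 ≤ s → 0 ≤ mq q s ∧ mq q s ≤ 3 * s) ∧ ∀ s s', |mq q s - mq q s'| ≤ |s - s'| := by
  refine ⟨fun s hs => ?_, fun s hs => ?_, fun s s' => ?_⟩
  · obtain ⟨h1, h2⟩ := abs_le.1 hs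
    unfold mq
    rw [if_neg (by linarith), if_neg (by linarith)]
  · unfold mq
    split_ifs with h1 h2
    · constructor <;> linarith
    · constructor <;> linarith
    · constructor <;> linarith
  · unfold mq
    split_ifs <;> rw [abs_le] <;> rcases abs_cases (s - s') with ⟨h, _⟩ | ⟨h, _⟩ <;> rw [h] <;>
      constructor <;> linarith

theorem PR7_bd {b : ℝ → ℝ} (hb : Continuous b) (hp : ∀ t, b (t + 1) = b t) :
    ∃ B0 : ℝ, ∀ t, |b t| ≤ B0 := by
  have hP : Function.Periodic b 1 := hp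
  obtain ⟨B0, h⟩ := (hP.isBounded_of_continuous one_ne_zero hb).exists_norm_le
  exact ⟨B0, fun t => h _ (Set.mem_range_self t)⟩

theorem PR7_int {d : ℕ} {D : GT ι d E} (h : D.Ok0)
    (hlc : Continuous (fun p : E × E × ℝ => l p.1 p.2.1 p.2.2)) {lt : E → E → ℝ → ℝ}
    (hltc : Continuous (fun p : E × E × ℝ => lt p.1 p.2.1 p.2.2)) {b : ℝ → ℝ} (hb : Continuous b)
    {q s : ℝ} (hlt : ∀ x v t, l x v t + q ^ 2 * b t ≤ lt x v t ∧
        lt x v t ≤ l x v t + q ^ 2 * b t + C * (D.κ t * D.F x v t - s) ^ 2 + C)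
    {t t' : ℝ} (htt : t ≤ t') (z : E) {u : ℝ → E} (hu : Adm u) :
    (∫ r in t..t', (l (traj t z u r) (u r) r - D.κ r * D.F (traj t z u r) (u r) r ^ 2 / 2 -
        s * D.Bt (traj t z u r) r + s ^ 2 / 2 * (1 - (D.κ r)⁻¹))) + q ^ 2 * (∫ r in t..t', b r) ≤
      (∫ r in t..t', (lt (traj t z u r) (u r) r - D.κ r * D.F (traj t z u r) (u r) r ^ 2 / 2 -
        s * D.Bt (traj t z u r) r + s ^ 2 / 2 * (1 - (D.κ r)⁻¹))) ∧
    (∫ r in t..t', (lt (traj t z u r) (u r) r - D.κ r * D.F (traj t z u r) (u r) r ^ 2 / 2 -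
        s * D.Bt (traj t z u r) r + s ^ 2 / 2 * (1 - (D.κ r)⁻¹))) ≤
    (∫ r in t..t', (l (traj t z u r) (u r) r - D.κ r * D.F (traj t z u r) (u r) r ^ 2 / 2 -
        s * D.Bt (traj t z u r) r + s ^ 2 / 2 * (1 - (D.κ r)⁻¹))) + q ^ 2 * (∫ r in t..t', b r) +
      C * (∫ r in t..t', (D.κ r * D.F (traj t z u r) (u r) r - s) ^ 2) + C * (t' - t) := by
  have il : IntervalIntegrable (fun r => l (traj t z u r) (u r) r) volume t t' :=
    EF_ii hlc hu t z t t'
  have ilt : IntervalIntegrable (fun r => lt (traj t z u r) (u r) r) volume t t' :=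
    EF_ii hltc hu t z t t'
  have i2 : IntervalIntegrable (fun r => D.κ r * D.F (traj t z u r) (u r) r ^ 2 / 2) volume t t' :=
    (C6b_cb2 h).ii hu t z t t'
  have i3 : IntervalIntegrable (fun r => (D.κ r * D.F (traj t z u r) (u r) r - s) ^ 2) volume t t' :=
    (C6b_cb3 h s).ii hu t z t t'
  have iB : IntervalIntegrable (fun r => D.Bt (traj t z u r) r) volume t t' := C6b_iBt h hu t z t t'
  have iκ : IntervalIntegrable (fun r => s ^ 2 / 2 * (1 - (D.κ r)⁻¹)) volume t t' :=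
    ((by simp : IntervalIntegrable (fun _ : ℝ => (1 : ℝ)) volume t t').sub
      (C6b_iκ h t t')).const_mul _
  have ib : IntervalIntegrable b volume t t' := hb.intervalIntegrable _ _
  have iC : IntervalIntegrable (fun _ : ℝ => C) volume t t' := by simp
  have jl := ((il.sub i2).sub (iB.const_mul s)).add iκ
  have jlt := ((ilt.sub i2).sub (iB.const_mul s)).add iκ
  constructor
  · rw [← intervalIntegral.integral_const_mul, ← intervalIntegral.integral_add jl (ib.const_mul _)]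
    refine intervalIntegral.integral_mono_on htt (jl.add (ib.const_mul _)) jlt fun r _ => ?_
    have := (hlt (traj t z u r) (u r) r).1
    linarith
  · rw [← intervalIntegral.integral_const_mul, ← intervalIntegral.integral_add jl (ib.const_mul _),
      ← intervalIntegral.integral_const_mul,
      ← intervalIntegral.integral_add (jl.add (ib.const_mul _)) (i3.const_mul C)]
    have e : C * (t' - t) = ∫ _ in t..t', C := by
      rw [intervalIntegral.integral_const, smul_eq_mul]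
      ring
    rw [e, ← intervalIntegral.integral_add ((jl.add (ib.const_mul _)).add (i3.const_mul C)) iC]
    refine intervalIntegral.integral_mono_on htt jlt
      (((jl.add (ib.const_mul _)).add (i3.const_mul C)).add iC) fun r _ => ?_
    have := (hlt (traj t z u r) (u r) r).2
    linarith

theorem fw_of {d : ℕ} {D : GT ι d E} (h : D.Ok0) (hX : FX D L l)
    (hlc : Continuous (fun p : E × E × ℝ => l p.1 p.2.1 p.2.2)) {b : ℝ → ℝ} (hb : Continuous b)
    (hp : ∀ t, b (t + 1) = b t) (h0 : ∀ t, b t ≤ 0) (hC : 0 ≤ C) (m1 M2 : ℝ) :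
    ∃ L1 : LP, L1.M = M2 ∧ ∀ (q : ℝ) (lt : E → E → ℝ → ℝ), 3 ≤ q → TG D.β m1 M2 lt →
      (∀ s, |s - q| ≤ 2 → ∀ x v t, l x v t + q ^ 2 * b t ≤ lt x v t ∧
        lt x v t ≤ l x v t + q ^ 2 * b t + C * (D.κ t * D.F x v t - s) ^ 2 + C) → FW D m1 L1 q lt := by
  obtain ⟨B0, hB0⟩ := PR7_bd hb hp
  have hB00 : 0 ≤ B0 := (abs_nonneg _).trans (hB0 0)
  have hA0 := hX.A_nonneg
  refine ⟨⟨M2, L.A + 9 * B0 + C, L.a0, L.a, fun ε => L.c ε + 4 * C⟩, rfl, fun q lt hq hlt hbd => ?_⟩
  obtain ⟨m1', m2', m3'⟩ := mq_facts q (by linarith)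
  refine FW.mk' (Φ := fun s t => L.a s t + b t * mq q s ^ 2) fun s hs => ?_
  have hs1 : 1 ≤ s := by
    have := (abs_le.1 hs).1
    linarith
  have hmq : mq q s = q := m1' s hs
  have hfl : ∀ t t', fl (fun s t => L.a s t + b t * mq q s ^ 2) s t t' =
      L.fl s t t' + q ^ 2 * ∫ r in t..t', b r := by
    intro t t'
    unfold fl LP.fl
    rw [← intervalIntegral.integral_const_mul, ← intervalIntegral.integral_add
      ((hX.a_cont s).intervalIntegrable _ _) ((hb.intervalIntegrable _ _).const_mul _)]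
    refine intervalIntegral.integral_congr fun r _ => ?_
    show L.a s r + b r * mq q s ^ 2 = L.a s r + q ^ 2 * b r
    rw [hmq]
    ring
  refine ⟨hlt, ?_, hX.a0_pos, ?_, ?_, ?_, ?_, ?_, ?_, ?_, ?_⟩
  · show 0 ≤ L.A + 9 * B0 + C
    positivity
  · intro ε
    have := hX.c_nonneg ε
    show 0 ≤ L.c ε + 4 * C
    positivity
  · intro s
    exact (hX.a_cont s).add (hb.mul continuous_const)
  · intro s t
    show L.a s (t + 1) + b (t + 1) * mq q s ^ 2 = L.a s t + b t * mq q s ^ 2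
    rw [hX.a_per, hp]
  · intro s t hs
    show |L.a s t + b t * mq q s ^ 2| ≤ (L.A + 9 * B0 + C) * s ^ 2
    obtain ⟨h1, h2⟩ := m2' s hs
    have h3 := hX.a_bd s t hs
    have h4 : |b t * mq q s ^ 2| ≤ B0 * (9 * s ^ 2) := by
      rw [abs_mul, abs_of_nonneg (sq_nonneg (mq q s))]
      refine mul_le_mul (hB0 t) ?_ (sq_nonneg _) hB00
      nlinarith
    have h5 := abs_add_le (L.a s t) (b t * mq q s ^ 2)
    have h6 : 0 ≤ C * s ^ 2 := by positivity
    nlinarith
  · intro s s' t hs hs'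
    show |L.a s t + b t * mq q s ^ 2 - (L.a s' t + b t * mq q s' ^ 2)| ≤
      (L.A + 9 * B0 + C) * (s + s') * |s - s'|
    obtain ⟨h1, h2⟩ := m2' s hs
    obtain ⟨h1', h2'⟩ := m2' s' hs'
    have h3 := hX.a_lip s s' t hs hs'
    have h4 := m3' s s'
    have e : L.a s t + b t * mq q s ^ 2 - (L.a s' t + b t * mq q s' ^ 2) =
        (L.a s t - L.a s' t) + b t * ((mq q s + mq q s') * (mq q s - mq q s')) := by ring
    rw [e]
    have h5 : |b t * ((mq q s + mq q s') * (mq q s - mq q s'))| ≤ B0 * (3 * (s + s') * |s - s'|) := by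
      rw [abs_mul, abs_mul, abs_of_nonneg (by linarith : 0 ≤ mq q s + mq q s')]
      refine mul_le_mul (hB0 t) ?_ (mul_nonneg (by linarith) (abs_nonneg _)) hB00
      exact mul_le_mul (by linarith) h4 (abs_nonneg _) (by linarith)
    have h6 := abs_add_le (L.a s t - L.a s' t) (b t * ((mq q s + mq q s') * (mq q s - mq q s')))
    have h7 : 0 ≤ (s + s') * |s - s'| := mul_nonneg (by linarith) (abs_nonneg _)
    have h8 : 0 ≤ (6 * B0 + C) * ((s + s') * |s - s'|) := mul_nonneg (by positivity) h7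
    calc _ ≤ L.A * (s + s') * |s - s'| + B0 * (3 * (s + s') * |s - s'|) := by linarith
      _ ≤ (L.A + 9 * B0 + C) * (s + s') * |s - s'| := by linarith
  · intro s t hs
    show L.a s t + b t * mq q s ^ 2 ≤ s ^ 2 / 2 * (1 - L.a0) + (L.A + 9 * B0 + C) * s
    have h3 := hX.a_top s t hs
    have h4 : b t * mq q s ^ 2 ≤ 0 := mul_nonpos_of_nonpos_of_nonneg (h0 t) (sq_nonneg _)
    have h5 : 0 ≤ (9 * B0 + C) * s := mul_nonneg (by positivity) (by linarith)
    linarith
  · intro ε hε z u hu t t' htt ht4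
    have h1 := (PR7_int h hlc hlt.smooth.continuous hb (hbd s hs) htt z hu).1
    have h2 := (abs_le.1 (hX.flux ε hε s hs1 z u hu t t' htt ht4)).1
    have h3 := exc_nonneg h htt z hu
    have h4 : 0 ≤ ∫ r in t..t', |D.κ r * D.F (traj t z u r) (u r) r - s| :=
      intervalIntegral.integral_nonneg htt fun r _ => abs_nonneg _
    rw [hfl]
    show _ - (ε * s + (L.c ε + 4 * C) * _) ≤ _
    have h5 : 0 ≤ 4 * C * (1 + D.exc t t' z u +
        ∫ r in t..t', |D.κ r * D.F (traj t z u r) (u r) r - s|) :=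
      mul_nonneg (by positivity) (by linarith)
    have h6 := add_mul (L.c ε) (4 * C) (1 + D.exc t t' z u +
        ∫ r in t..t', |D.κ r * D.F (traj t z u r) (u r) r - s|)
    linarith
  · intro ε hε z u hu t t' htt ht4
    have h1 := (PR7_int h hlc hlt.smooth.continuous hb (hbd s hs) htt z hu).2
    have h2 := (abs_le.1 (hX.flux ε hε s hs1 z u hu t t' htt ht4)).2
    have h3 := exc_nonneg h htt z hu
    have h4 : 0 ≤ ∫ r in t..t', |D.κ r * D.F (traj t z u r) (u r) r - s| :=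
      intervalIntegral.integral_nonneg htt fun r _ => abs_nonneg _
    have h7 : 0 ≤ ∫ r in t..t', (D.κ r * D.F (traj t z u r) (u r) r - s) ^ 2 :=
      intervalIntegral.integral_nonneg htt fun r _ => sq_nonneg _
    rw [hfl]
    show _ ≤ _ + (ε * s + (L.c ε + 4 * C) * _) + (L.A + 9 * B0 + C) * _
    have h5 : 4 * C * 1 ≤ 4 * C * (1 + D.exc t t' z u +
        ∫ r in t..t', |D.κ r * D.F (traj t z u r) (u r) r - s|) :=
      mul_le_mul_of_nonneg_left (by linarith) (by positivity)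
    have h6 := add_mul (L.c ε) (4 * C) (1 + D.exc t t' z u +
        ∫ r in t..t', |D.κ r * D.F (traj t z u r) (u r) r - s|)
    have h8 : C * (t' - t) ≤ C * 4 := mul_le_mul_of_nonneg_left (by linarith) hC
    have h9 : 0 ≤ (L.A + 9 * B0) * ∫ r in t..t', (D.κ r * D.F (traj t z u r) (u r) r - s) ^ 2 :=
      mul_nonneg (by positivity) h7
    have h10 := add_mul (L.A + 9 * B0) C
      (∫ r in t..t', (D.κ r * D.F (traj t z u r) (u r) r - s) ^ 2)
    linarith

end EscP
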