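import Pool.Agent.EscW.PRDefs

/-!
Project EscW, part P (MP_6acca1_an): the truncations are powers in a large region.
-/

noncomputable section

namespace EscP

open MeasureTheory Set Filter Topology Esc EscF EscG EscT
open scoped ContDiff

variable {E : Type*} [NormedAddCommGroup E] [InnerProductSpace ℝ E] [FiniteDimensional ℝ E]
  {ι : Type} [Fintype ι] {e j0 j1 θ0 θ1 : ℝ} {ψ ψ' ψ'' : ℝ → ℝ} {β : Module.Basis ι ℝ E}
  {F : E → E → ℝ → ℝ} {mF MF A1 m M MA C : ℝ} {κ g : ℝ → ℝ} {B : E → ℝ → ℝ} {k0 : ι} {len : ℝ}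
  {c c' ct : ℝ → ℝ → E} {L : LP} {l l2 : E → E → ℝ → ℝ}

/-- the derivative of the growth function beyond `1` -/
theorem PR9_dg (hg : Pw e g) {y : ℝ} (hy : 1 < y) : HasDerivAt g (e / 2 * y ^ ((e - 2) / 2)) y := by
  have h1 : HasDerivAt (fun y : ℝ => y ^ (e / 2)) (e / 2 * y ^ (e / 2 - 1)) y :=
    Real.hasDerivAt_rpow_const (Or.inl (by linarith))
  have h2 : (fun y : ℝ => y ^ (e / 2)) =ᶠ[𝓝 y] g := by
    filter_upwards [lt_mem_nhds hy] with z hz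
    exact (hg.eq z (le_of_lt hz)).symm
  have h3 := h1.congr_of_eventuallyEq h2.symm
  rwa [show e / 2 - 1 = (e - 2) / 2 by ring] at h3

theorem lq_eq (hg : Pw e g) (h0 : 0 < j0) (hψ : Prof e j0 j1 θ0 θ1 ψ ψ' ψ'') :
    ∃ q0 : ℝ, 1 ≤ q0 ∧ ∀ q, q0 ≤ q → ∃ b : ℝ, ∀ y, y / q ^ 2 ∈ Ioo j0 j1 →
      deriv g (q ^ 2 / 2) * (q ^ 2 * ψ (y / q ^ 2)) = g y + b := by
  refine ⟨2 + 1 / j0, by have : 0 < 1 / j0 := by positivity
                         linarith, fun q hq => ?_⟩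
  have hj : 0 < 1 / j0 := by positivity
  have hq2 : 2 ≤ q := by linarith
  have hq0 : 0 < q := by linarith
  have hqj : 1 ≤ q * j0 := by
    have h1 : 1 / j0 ≤ q := by linarith
    rwa [div_le_iff₀ h0] at h1
  have hqj2 : 1 ≤ q ^ 2 * j0 := by nlinarith
  have hqq : 1 < q ^ 2 / 2 := by nlinarith
  have hq2p : 0 < q ^ 2 := by positivity
  have hd : deriv g (q ^ 2 / 2) = e / 2 * (q ^ 2 / 2) ^ ((e - 2) / 2) := (PR9_dg hg hqq).deriv
  -- derivative of the difference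
  have hD : ∀ y, y / q ^ 2 ∈ Ioo j0 j1 → HasDerivAt
      (fun y => deriv g (q ^ 2 / 2) * (q ^ 2 * ψ (y / q ^ 2)) - g y) 0 y := by
    intro y hy
    have hy1 : 1 < y := by
      have h1 := hy.1
      rw [lt_div_iff₀ hq2p] at h1
      linarith
    have hψy : HasDerivAt (fun y => ψ (y / q ^ 2)) (ψ' (y / q ^ 2) * (1 / q ^ 2)) y :=
      HasDerivAt.comp y (hψ.d1 (y / q ^ 2)) ((hasDerivAt_id y).div_const (q ^ 2))
    have h1 : HasDerivAt (fun y => deriv g (q ^ 2 / 2) * (q ^ 2 * ψ (y / q ^ 2)) - g y)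
        (deriv g (q ^ 2 / 2) * (q ^ 2 * (ψ' (y / q ^ 2) * (1 / q ^ 2))) -
          e / 2 * y ^ ((e - 2) / 2)) y :=
      ((hψy.const_mul (q ^ 2)).const_mul (deriv g (q ^ 2 / 2))).sub (PR9_dg hg hy1)
    suffices hval : deriv g (q ^ 2 / 2) * (q ^ 2 * (ψ' (y / q ^ 2) * (1 / q ^ 2))) -
        e / 2 * y ^ ((e - 2) / 2) = 0 by rwa [hval] at h1
    rw [hd, hψ.eq _ hy.1.le hy.2.le]
    have hy0 : 0 ≤ 2 * (y / q ^ 2) := by positivity
    have h2 : (q ^ 2 / 2) ^ ((e - 2) / 2) * (2 * (y / q ^ 2)) ^ ((e - 2) / 2) = y ^ ((e - 2) / 2) := by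
      rw [← Real.mul_rpow (by positivity) hy0]
      congr 1
      field_simp
    have h3 : e / 2 * (q ^ 2 / 2) ^ ((e - 2) / 2) *
        (q ^ 2 * ((2 * (y / q ^ 2)) ^ ((e - 2) / 2) * (1 / q ^ 2))) =
        e / 2 * ((q ^ 2 / 2) ^ ((e - 2) / 2) * (2 * (y / q ^ 2)) ^ ((e - 2) / 2)) := by
      field_simp
    rw [h3, h2, sub_self]
  have hset : ∀ y, y ∈ Ioo (q ^ 2 * j0) (q ^ 2 * j1) ↔ y / q ^ 2 ∈ Ioo j0 j1 := by
    intro y
    rw [mem_Ioo, mem_Ioo, lt_div_iff₀ hq2p, div_lt_iff₀ hq2p, mul_comm j0, mul_comm j1]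
  obtain ⟨b, hb⟩ := isOpen_Ioo.exists_is_const_of_deriv_eq_zero (𝕜 := ℝ)
    (f := fun y => deriv g (q ^ 2 / 2) * (q ^ 2 * ψ (y / q ^ 2)) - g y)
    (s := Ioo (q ^ 2 * j0) (q ^ 2 * j1)) isPreconnected_Ioo
    (fun y hy => (hD y ((hset y).1 hy)).differentiableAt.differentiableWithinAt)
    (fun y hy => (hD y ((hset y).1 hy)).deriv)
  refine ⟨b, fun y hy => ?_⟩
  have h1 : deriv g (q ^ 2 / 2) * (q ^ 2 * ψ (y / q ^ 2)) - g y = b := hb y ((hset y).2 hy)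
  linarith

theorem lq_win (hK : KF A1 e κ) (hF : ∀ x v t, 0 ≤ F x v t) (hC : 0 ≤ C)
    (hn : ∀ x v t, |l2 x v t - κ t * F x v t ^ 2 / 2| ≤ C * (1 + F x v t)) (h0 : j0 ≤ (4 * A1)⁻¹)
    (h1 : 4 * A1 ≤ j1) : ∃ q0 : ℝ, 1 ≤ q0 ∧ ∀ q, q0 ≤ q → ∀ x v t, |kh e κ t * F x v t - q| ≤ 1 / 4 * q →
      l2 x v t / q ^ 2 ∈ Ioo j0 j1 := by
  have hA := hK.A_pos
  set K : ℝ := C * (1 + 5 / 4 * A1) with hKd
  have hK0 : 0 ≤ K := by positivity
  have hAi : 0 < A1⁻¹ := by positivity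
  refine ⟨1 + K * (4 * A1 + A1⁻¹), by nlinarith [mul_nonneg hK0 hA.le, mul_nonneg hK0 hAi.le],
    fun q hq x v t hx => ?_⟩
  have hp1 : 0 ≤ K * (4 * A1 + A1⁻¹) := by positivity
  have hq1 : 1 ≤ q := by linarith
  have hq0 : 0 < q := by linarith
  have hq2 : 0 < q ^ 2 := by positivity
  have hqK : K * (4 * A1 + A1⁻¹) < q := by linarith
  rw [abs_le] at hx
  set G : ℝ := kh e κ t * F x v t with hG
  have hG1 : 3 / 4 * q ≤ G := by linarith [hx.1]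
  have hG2 : G ≤ 5 / 4 * q := by linarith [hx.2]
  have hG0 : 0 ≤ G := by linarith
  have hF1 : F x v t ≤ A1 * G := by
    have h2 := mul_le_mul_of_nonneg_right (hK.k1 t) (hF x v t)
    rw [hG]
    linarith
  have hY1 := hK.y1 t
  have hY2 := hK.y2 t
  have hY0 : 0 < Yt e κ t := by
    by_contra h
    push Not at h
    nlinarith
  have hYA : A1⁻¹ ≤ Yt e κ t := by
    rw [inv_le_iff_one_le_mul₀ hA, mul_comm]
    exact hY1
  have hκ : κ t * F x v t ^ 2 / 2 = Yt e κ t * G ^ 2 := by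
    rw [hK.ye t, hG]
    ring
  have herr : |l2 x v t - Yt e κ t * G ^ 2| ≤ K * q := by
    rw [← hκ]
    refine (hn x v t).trans ?_
    have h2 : F x v t ≤ 5 / 4 * A1 * q := by nlinarith
    have h3 : C * (1 + F x v t) ≤ C * (q + 5 / 4 * A1 * q) :=
      mul_le_mul_of_nonneg_left (by linarith) hC
    refine h3.trans (le_of_eq ?_)
    rw [hKd]
    ring
  rw [abs_le] at herr
  have hKq : K * q * (4 * A1 + A1⁻¹) ≤ q ^ 2 := by nlinarith
  -- the two consequences of the choice of `q0`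
  have hu1 : K * q ≤ A1 * q ^ 2 := by
    have h2 : K * q * A1⁻¹ ≤ q ^ 2 := by
      have h3 : 0 ≤ K * q * (4 * A1) := by positivity
      linarith
    have h4 := mul_le_mul_of_nonneg_left h2 hA.le
    calc K * q = A1 * (K * q * A1⁻¹) := by field_simp
      _ ≤ A1 * q ^ 2 := h4
  have hu2 : K * q ≤ (4 * A1)⁻¹ * q ^ 2 := by
    have h2 : K * q * (4 * A1) ≤ q ^ 2 := by
      have h3 : 0 ≤ K * q * A1⁻¹ := by positivity
      linarith
    have h5 : (0 : ℝ) ≤ (4 * A1)⁻¹ := by positivity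
    have h4 := mul_le_mul_of_nonneg_left h2 h5
    calc K * q = (4 * A1)⁻¹ * (K * q * (4 * A1)) := by field_simp
      _ ≤ (4 * A1)⁻¹ * q ^ 2 := h4
  have hG3 : 9 / 16 * q ^ 2 ≤ G ^ 2 := by nlinarith
  have hG4 : G ^ 2 ≤ 25 / 16 * q ^ 2 := by nlinarith
  constructor
  · rw [lt_div_iff₀ hq2]
    have h2 : A1⁻¹ * (9 / 16 * q ^ 2) ≤ Yt e κ t * G ^ 2 :=
      mul_le_mul hYA hG3 (by positivity) hY0.le
    have h3 : (4 * A1)⁻¹ = A1⁻¹ / 4 := by field_simp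
    have h4 : j0 * q ^ 2 ≤ (4 * A1)⁻¹ * q ^ 2 := mul_le_mul_of_nonneg_right h0 hq2.le
    rw [h3] at h4 hu2
    have h5 : 0 < A1⁻¹ * q ^ 2 := by positivity
    nlinarith [herr.1]
  · rw [div_lt_iff₀ hq2]
    have h2 : Yt e κ t * G ^ 2 ≤ A1 * (25 / 16 * q ^ 2) :=
      mul_le_mul hY2 hG4 (by positivity) hA.le
    have h4 : 4 * A1 * q ^ 2 ≤ j1 * q ^ 2 := mul_le_mul_of_nonneg_right h1 hq2.le
    have h5 : 0 < A1 * q ^ 2 := by positivity
    nlinarith [herr.2]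

end EscP
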