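import Pool.Agent.EscW.PR0b
import Pool.Agent.EscW.PR1
import Pool.Agent.EscW.PR2
import Pool.Agent.EscW.PR3
import Pool.Agent.EscW.PR3a
import Pool.Agent.EscW.PR4
import Pool.Agent.EscW.PR5
import Pool.Agent.EscW.PR6
import Pool.Agent.EscW.PR7
import Pool.Agent.EscW.PR8
import Pool.Agent.EscW.PR9

/-!
Project EscW, part P (MP_6acca1_an): truncations of powers of Lagrangians exist at all large scales.
-/

noncomputable section

namespace EscP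

open MeasureTheory Set Filter Topology Esc EscF EscG EscT
open scoped ContDiff

variable {ι : Type} [Fintype ι] {E : Type*} [NormedAddCommGroup E] [InnerProductSpace ℝ E]
  [FiniteDimensional ℝ E] {e m M MA : ℝ} {l2 : E → E → ℝ → ℝ}
  {β : Module.Basis ι ℝ E} {F : E → E → ℝ → ℝ} {mF MF A : ℝ} {κ g : ℝ → ℝ} {B : E → ℝ → ℝ} {k0 : ι}
  {len : ℝ} {c c' ct : ℝ → ℝ → E}

theorem PR10_a {κ1 : ℝ → ℝ} {A1 A2 : ℝ} {v : E} {L : LP} {q : ℝ} {l : E → E → ℝ → ℝ}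
    (h : FW (gdT β F mF MF A1 κ1 B k0 len c v) m L q l) : FW (gdT β F mF MF A2 κ1 B k0 len c v) m L q l := by
  have key : ∀ {Φ : ℝ → ℝ → ℝ} {s : ℝ}, FTa (gdT β F mF MF A1 κ1 B k0 len c v) m L Φ s l →
      FTa (gdT β F mF MF A2 κ1 B k0 len c v) m L Φ s l := fun h =>
    ⟨h.toTG, h.A_nonneg, h.a0_pos, h.c_nonneg, h.a_cont, h.a_per, h.a_bd, h.a_lip, h.a_top, h.low, h.upp⟩
  refine ⟨fun s hs => ?_, fun s s' hs hs' => ?_⟩
  · obtain ⟨Φ, hΦ⟩ := h.ft s hs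
    exact ⟨Φ, key hΦ⟩
  · obtain ⟨Φ, h1, h2⟩ := h.ft2 s s' hs hs'
    exact ⟨Φ, key h1, key h2⟩

theorem trFam (h : CalT β F mF MF A κ B k0 len c c' ct) (hl : TG β m M l2) (hA : AT F κ MA l2)
    (hg : Pw e g) : ∃ A1 : ℝ, CalT β F mF MF A1 (kh e κ) B k0 len c c' ct ∧ ∀ (A' : ℝ) (v : E),
      TrFam (gdT β F mF MF A' (kh e κ) B k0 len c v) g l2 := by
  obtain ⟨A1, hAA, hK⟩ := exists_KF hg.e_ge h.A_pos h.κ_pos h.κ_le h.κ_lip h.κ_per
  have hT := calT_kh h hK hAA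
  have hA1 := hK.A_pos
  have hA11 : 1 ≤ A1 := by
    have h1 := hK.y1 0
    have h2 := hK.y2 0
    have h3 : A1 * Yt e κ 0 ≤ A1 * A1 := mul_le_mul_of_nonneg_left h2 hA1.le
    nlinarith
  have hj0 : 0 < (4 * A1)⁻¹ := by positivity
  have hj1 : (4 * A1)⁻¹ < 4 * A1 := by
    rw [inv_lt_iff_one_lt_mul₀ (by positivity)]
    nlinarith
  obtain ⟨θ0, θ1, ψ, ψ', ψ'', hψ⟩ := exists_Prof hg.e_ge hj0 hj1
  obtain ⟨C, hC, hn⟩ := l2_near h hl hA
  have hF0 : ∀ x v t, 0 ≤ F x v t := fun x v t =>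
    (mul_nonneg (h.fins t).mF_pos.le (norm_nonneg v)).trans ((h.fins t).low x v)
  have hCT := ct_lh h hK hl
  obtain ⟨MA1, hAT⟩ := at_lh h hK hl hA
  have hN : DN β F B c c' := fun hε => dir_near h hl hA hε
  obtain ⟨L, hX⟩ := FX_of_CalT hT hN hCT hAT
  obtain ⟨A2, hA2, hok⟩ := gdT_ok0 hT
  have hJ : ∀ t, (4 * A1)⁻¹ ≤ Yt e κ t ∧ Yt e κ t ≤ 4 * A1 := fun t => by
    have h1 := hK.y1 t
    have h2 := hK.y2 t
    refine ⟨?_, by linarith⟩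
    rw [inv_le_iff_one_le_mul₀ (by positivity)]
    have h3 : 0 < Yt e κ t := by
      by_contra hcon
      have := mul_nonpos_of_nonneg_of_nonpos hA1.le (not_lt.1 hcon)
      linarith
    nlinarith
  obtain ⟨C1, hC1, hsub⟩ := lq_sub hψ hK hF0 hJ hC (fun x v t => (hn x v t).2.1)
  -- the term depending on the time only
  have hψc : Continuous ψ := continuous_iff_continuousAt.2 fun y => (hψ.d1 y).continuousAt
  have hψ'c : Continuous ψ' := continuous_iff_continuousAt.2 fun y => (hψ.d2 y).continuousAt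
  have hb1 : Continuous fun t => ψ (Yt e κ t) - Yt e κ t * ψ' (Yt e κ t) :=
    (hψc.comp hK.yc).sub (hK.yc.mul (hψ'c.comp hK.yc))
  have hb2 : ∀ t, ψ (Yt e κ (t + 1)) - Yt e κ (t + 1) * ψ' (Yt e κ (t + 1)) =
      ψ (Yt e κ t) - Yt e κ t * ψ' (Yt e κ t) := fun t => by rw [hK.yp]
  have hb3 : ∀ t, ψ (Yt e κ t) - Yt e κ t * ψ' (Yt e κ t) ≤ 0 := fun t => by
    have h1 := hψ.tan (Yt e κ t) 0
    rw [hψ.zero] at h1
    linarith
  obtain ⟨q1, hq1, heq⟩ := lq_eq hg hj0 hψ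
  obtain ⟨q2, hq2, hwin⟩ := lq_win hK hF0 hC (fun x v t => (hn x v t).2.1) le_rfl le_rfl
  refine ⟨A1, hT, fun A' v => ?_⟩
  have h0 := hok A2 le_rfl v
  obtain ⟨L1, hLM, hfw⟩ := fw_of h0 (hX A2 v) hCT.cont hb1 hb2 hb3 hC1 (θ0 * m) (M * θ1)
  obtain ⟨K, hK0, hen⟩ := en_lq (D := gdT β F mF MF A' (kh e κ) B k0 len c v) (κ := κ) hψ hl.smooth hC
    (fun x v t => ⟨(hn x v t).1, (hn x v t).2.2⟩)
  refine ⟨θ0 * m, L1, κ, A1, K, 1 / 4, Ioo (4 * A1)⁻¹ (4 * A1), max (max q1 q2) 3, by norm_num, hK0,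
    (by norm_num : (1:ℝ) ≤ 3).trans (le_max_right _ _), isOpen_Ioo, hK.c1, hK.c2, hK.c3, fun q hq => ?_⟩
  have hqa : q1 ≤ q := ((le_max_left _ _).trans (le_max_left _ _)).trans hq
  have hqb : q2 ≤ q := ((le_max_right _ _).trans (le_max_left _ _)).trans hq
  have hqc : 3 ≤ q := (le_max_right _ _).trans hq
  refine ⟨lq q ψ l2, ⟨?_, ?_, ?_, ?_⟩⟩
  · exact PR10_a (hfw q _ hqc (tg_lq hψ hl (by linarith))
      (fun s hs x v t => hsub q (by linarith) s hs x v t))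
  · exact hen q (by linarith)
  · obtain ⟨b, hb⟩ := heq q hqa
    exact ⟨b, fun x v t hx => hb _ hx⟩
  · exact fun x v t hx => hwin q hqb x v t hx

end EscP
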