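import Pool.Agent.EscW.PRDefs
import Pool.Agent.EscT.A2b
import Pool.Agent.EscT.A2c

/-!
Project EscW, part P (MP_6acca1_an): smoothness and gradient of the truncations.
-/

noncomputable section

namespace EscP

open MeasureTheory Set Filter Topology Esc EscF EscG EscT
open scoped ContDiff

variable {E : Type*} [NormedAddCommGroup E] [InnerProductSpace ℝ E] [FiniteDimensional ℝ E]
  {ι : Type} [Fintype ι] {e j0 j1 θ0 θ1 : ℝ} {ψ ψ' ψ'' : ℝ → ℝ} {β : Module.Basis ι ℝ E}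
  {F : E → E → ℝ → ℝ} {mF MF A A1 m M MA C : ℝ} {κ g : ℝ → ℝ} {B : E → ℝ → ℝ} {k0 : ι} {len : ℝ}
  {c c' ct : ℝ → ℝ → E} {L : LP} {l l2 : E → E → ℝ → ℝ}

theorem PR2a_cd (hψ : Prof e j0 j1 θ0 θ1 ψ ψ' ψ'') : ContDiff ℝ 2 ψ := by
  have h1 : deriv ψ = ψ' := by
    funext y
    exact (hψ.d1 y).deriv
  have h2 : deriv ψ' = ψ'' := by
    funext y
    exact (hψ.d2 y).deriv
  have h3 : ContDiff ℝ 1 ψ' := by
    rw [contDiff_one_iff_deriv, h2]
    exact ⟨fun y => (hψ.d2 y).differentiableAt, hψ.cont⟩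
  have h4 : ContDiff ℝ (1 + 1) ψ := by
    rw [contDiff_succ_iff_deriv, h1]
    exact ⟨fun y => (hψ.d1 y).differentiableAt, by simp, h3⟩
  have h5 : (1 + 1 : WithTop ℕ∞) = 2 := by norm_num
  rw [h5] at h4
  exact h4

theorem lq_smooth (hψ : Prof e j0 j1 θ0 θ1 ψ ψ' ψ'')
    (hl : ContDiff ℝ 2 (fun p : E × E × ℝ => l2 p.1 p.2.1 p.2.2)) (q : ℝ) :
    ContDiff ℝ 2 (fun p : E × E × ℝ => lq q ψ l2 p.1 p.2.1 p.2.2) := by
  unfold lq
  exact contDiff_const.mul ((PR2a_cd hψ).comp (hl.div_const _))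

theorem gu_lq (hψ : Prof e j0 j1 θ0 θ1 ψ ψ' ψ'')
    (hl : ContDiff ℝ 2 (fun p : E × E × ℝ => l2 p.1 p.2.1 p.2.2)) {q : ℝ} (hq : q ≠ 0) (x v : E) (t : ℝ) :
    gu (lq q ψ l2) x v t = ψ' (l2 x v t / q ^ 2) • gu l2 x v t := by
  have hq2 : q ^ 2 ≠ 0 := pow_ne_zero 2 hq
  have hs : ContDiff ℝ 2 (fun w : E => l2 x w t) :=
    hl.comp (contDiff_const.prodMk (contDiff_id.prodMk contDiff_const))
  have hg : HasFDerivAt (fun w : E => l2 x w t) (fderiv ℝ (fun w : E => l2 x w t) v) v :=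
    ((hs.differentiable (by norm_num)) v).hasFDerivAt
  have h0 : HasDerivAt (fun y : ℝ => y / q ^ 2) (1 / q ^ 2) (l2 x v t) :=
    (hasDerivAt_id (l2 x v t)).div_const _
  have h1 : HasDerivAt (fun y : ℝ => q ^ 2 * ψ (y / q ^ 2)) (ψ' (l2 x v t / q ^ 2)) (l2 x v t) := by
    have h2 := ((hψ.d1 (l2 x v t / q ^ 2)).comp (l2 x v t) h0).const_mul (q ^ 2)
    have h3 : q ^ 2 * (ψ' (l2 x v t / q ^ 2) * (1 / q ^ 2)) = ψ' (l2 x v t / q ^ 2) := by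
      field_simp
    rw [h3] at h2
    exact h2
  have h5 := h1.comp_hasFDerivAt v hg
  have h4 : HasFDerivAt (fun w : E => lq q ψ l2 x w t)
      (ψ' (l2 x v t / q ^ 2) • fderiv ℝ (fun w : E => l2 x w t) v) v := h5
  unfold gu gradient
  rw [h4.fderiv]
  simp

end EscP
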