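import Pool.Agent.EscW.PDefs2

/-!
Project EscW, part P (MP_6acca1_an): truncations of powers of Lagrangians. Definitions.
-/

noncomputable section

namespace EscP

open MeasureTheory Set Filter Topology Esc EscF EscG EscT
open scoped ContDiff

/-- the profile of the truncations for the exponent `e`: convex, increasing, affine near `-∞` and `∞`, with
derivative `(2y)^((e-2)/2)` on `[j0,j1]` -/
structure Prof (e j0 j1 θ0 θ1 : ℝ) (ψ ψ' ψ'' : ℝ → ℝ) : Prop where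
  θ_pos : 0 < θ0
  d1 : ∀ y, HasDerivAt ψ (ψ' y) y
  d2 : ∀ y, HasDerivAt ψ' (ψ'' y) y
  cont : Continuous ψ''
  zero : ψ 0 = 0
  p1 : ∀ y, θ0 ≤ ψ' y ∧ ψ' y ≤ θ1
  p2 : ∀ y, 0 ≤ ψ'' y ∧ ψ'' y ≤ θ1
  low : ∀ y, y ≤ 0 → ψ'' y = 0
  eq : ∀ y, j0 ≤ y → y ≤ j1 → ψ' y = (2 * y) ^ ((e - 2) / 2)

variable {E : Type*} [NormedAddCommGroup E] [InnerProductSpace ℝ E]

/-- the Lagrangian with profile `ψ` at the scale `q` -/
def lq (q : ℝ) (ψ : ℝ → ℝ) (l2 : E → E → ℝ → ℝ) : E → E → ℝ → ℝ := fun x v t => q ^ 2 * ψ (l2 x v t / q ^ 2)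

/-- the value of `l₂ / q²` at the speed `q` -/
def Yt (e : ℝ) (κ : ℝ → ℝ) (t : ℝ) : ℝ := κ t ^ (-(1 / (e - 1))) / 2

/-- the linearization of the truncations near the speed `q`, without the term depending on the time only -/
def lh (e : ℝ) (κ : ℝ → ℝ) (l2 : E → E → ℝ → ℝ) : E → E → ℝ → ℝ := fun x v t => kh e κ t / κ t * l2 x v t

/-- bounds of the weights -/
structure KF (A1 e : ℝ) (κ : ℝ → ℝ) : Prop where
  A_pos : 0 < A1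
  pos : ∀ t, 0 < κ t
  c1 : ∀ t, 1 ≤ A1 * κ t
  c2 : ∀ t, κ t ≤ A1
  c3 : ∀ t t', |κ t - κ t'| ≤ A1 * |t - t'|
  k0 : ∀ t, 0 < kh e κ t
  k1 : ∀ t, 1 ≤ A1 * kh e κ t
  k2 : ∀ t, kh e κ t ≤ A1
  k3 : ∀ t t', |kh e κ t - kh e κ t'| ≤ A1 * |t - t'|
  kp : ∀ t, kh e κ (t + 1) = kh e κ t
  r2 : ∀ t, kh e κ t / κ t ≤ A1
  r3 : ∀ t t', |kh e κ t / κ t - kh e κ t' / κ t'| ≤ A1 * |t - t'|
  y1 : ∀ t, 1 ≤ A1 * Yt e κ t
  y2 : ∀ t, Yt e κ t ≤ A1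
  yc : Continuous (Yt e κ)
  yp : ∀ t, Yt e κ (t + 1) = Yt e κ t
  re : ∀ t, kh e κ t / κ t = (2 * Yt e κ t) ^ ((e - 2) / 2)
  ye : ∀ t, κ t = 2 * Yt e κ t * kh e κ t ^ 2

/-- continuous periodic functions of quadratic growth -/
structure CT {ι : Type*} [Fintype ι] (β : Module.Basis ι ℝ E) (M : ℝ) (l : E → E → ℝ → ℝ) : Prop where
  M_nonneg : 0 ≤ M
  cont : Continuous (fun p : E × E × ℝ => l p.1 p.2.1 p.2.2)
  per : ∀ i x v t, l (x + β i) v t = l x v t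
  pert : ∀ x v t, l x v (t + 1) = l x v t
  l_bd : ∀ x v t, |l x v t| ≤ M * (1 + ‖v‖ ^ 2)

/-- almost calibrated vectors are near the tangent vectors of the curve -/
def DN {ι : Type*} [Fintype ι] (β : Module.Basis ι ℝ E) (F : E → E → ℝ → ℝ) (B : E → ℝ → ℝ)
    (c c' : ℝ → ℝ → E) : Prop :=
  ∀ {ε : ℝ}, 0 < ε → ∃ ρ : ℝ, 0 < ρ ∧ ∀ x v t, v ≠ 0 →
    F x v t - fderiv ℝ (fun y => B y t) x v ≤ ρ * F x v t →
      ∃ (σ : ℝ), ∃ w ∈ Submodule.span ℤ (Set.range β), ‖x - (c σ t + w)‖ ≤ ε ∧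
        ‖v - F x v t • c' σ t‖ ≤ ε * F x v t

/-- functions whose action is known up to a small multiple of the speed and a multiple of the excess -/
structure FX {ι : Type} [Fintype ι] {d : ℕ} (D : GT ι d E) (L : LP) (l : E → E → ℝ → ℝ) : Prop where
  A_nonneg : 0 ≤ L.A
  a0_pos : 0 < L.a0
  c_nonneg : ∀ ε, 0 ≤ L.c ε
  a_cont : ∀ s, Continuous (L.a s)
  a_per : ∀ s t, L.a s (t + 1) = L.a s t
  a_bd : ∀ s t, 1 ≤ s → |L.a s t| ≤ L.A * s ^ 2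
  a_lip : ∀ s s' t, 1 ≤ s → 1 ≤ s' → |L.a s t - L.a s' t| ≤ L.A * (s + s') * |s - s'|
  a_top : ∀ s t, 1 ≤ s → L.a s t ≤ s ^ 2 / 2 * (1 - L.a0) + L.A * s
  flux : ∀ ε : ℝ, 0 < ε → ∀ s : ℝ, 1 ≤ s → ∀ (z : E) (u : ℝ → E), Adm u → ∀ t t' : ℝ, t ≤ t' → t' ≤ t + 4 →
    |(∫ r in t..t', (l (traj t z u r) (u r) r - D.κ r * D.F (traj t z u r) (u r) r ^ 2 / 2 -
        s * D.Bt (traj t z u r) r + s ^ 2 / 2 * (1 - (D.κ r)⁻¹))) - L.fl s t t'| ≤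
      ε * s + L.c ε * (1 + D.exc t t' z u +
        ∫ r in t..t', |D.κ r * D.F (traj t z u r) (u r) r - s|)

end EscP
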