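import Pool.Agent.EscW.PDefs2

/-!
Module PS1: the scales. `h q = g' (q²/2) q` is continuous, strictly increasing on `[1, ∞)`, and
`h (q i) < g' (q i ²/2) (q i + 1) ≤ h (q i + 1)`: intermediate values. If `q` converged to `l`, then
`g' (l²/2) l = g' (l²/2) (l + 1)`.
-/

noncomputable section

namespace EscP

open MeasureTheory Set Filter Topology Esc EscF EscG EscT
open scoped ContDiff

variable {ι : Type} [Fintype ι] {d : ℕ} {E : Type*} [NormedAddCommGroup E] [InnerProductSpace ℝ E]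
  [FiniteDimensional ℝ E] {D : GT ι d E} {p : GP} {m M Mf : ℝ} {L : LP} {l0 l1 ll l : E → E → ℝ → ℝ}
  {f f' : E → ℝ → ℝ}

theorem ps1_cont {g : ℝ → ℝ} {e : ℝ} (hg : Pw e g) : Continuous (deriv g) :=
  hg.smooth.continuous_deriv (by norm_num)

theorem ps1_mono {g : ℝ → ℝ} {e : ℝ} (hg : Pw e g) : Monotone (deriv g) := by
  have h1 : ContDiff ℝ 1 (deriv g) := by
    have h2 : ContDiff ℝ (1 + 1) g := by
      have h3 : ((1 : WithTop ℕ∞) + 1) = 2 := by norm_num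
      rw [h3]
      exact hg.smooth
    exact h2.deriv'
  exact monotone_of_deriv_nonneg (h1.differentiable (by norm_num)) hg.d2

theorem ps1_step {g : ℝ → ℝ} {e : ℝ} (hg : Pw e g) {q : ℝ} (hq : 1 ≤ q) : ∃ q' : ℝ, q ≤ q' ∧ q' ≤ q + 1 ∧
    deriv g (q' ^ 2 / 2) * q' = deriv g (q ^ 2 / 2) * (q + 1) := by
  have hc : Continuous (fun x : ℝ => deriv g (x ^ 2 / 2) * x) :=
    ((ps1_cont hg).comp (by fun_prop)).mul continuous_id
  have h1 : deriv g (q ^ 2 / 2) * q ≤ deriv g (q ^ 2 / 2) * (q + 1) :=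
    mul_le_mul_of_nonneg_left (by linarith) (hg.d1 _).le
  have h2 : deriv g (q ^ 2 / 2) * (q + 1) ≤ deriv g ((q + 1) ^ 2 / 2) * (q + 1) :=
    mul_le_mul_of_nonneg_right (ps1_mono hg (by nlinarith)) (by linarith)
  obtain ⟨x, hx, hxe⟩ := intermediate_value_Icc (show q ≤ q + 1 by linarith) hc.continuousOn
    ⟨h1, h2⟩
  exact ⟨x, hx.1, hx.2, hxe⟩

theorem exists_seq {g : ℝ → ℝ} {e : ℝ} (hg : Pw e g) {q0 : ℝ} (hq0 : 1 ≤ q0) : ∃ q : ℕ → ℝ, q 0 = q0 ∧
    (∀ i, q i ≤ q (i + 1) ∧ q (i + 1) ≤ q i + 1 ∧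
      deriv g (q (i + 1) ^ 2 / 2) * q (i + 1) = deriv g (q i ^ 2 / 2) * (q i + 1)) ∧
    Tendsto q atTop atTop := by
  have hex : ∀ x : ℝ, ∃ q' : ℝ, 1 ≤ x → (x ≤ q' ∧ q' ≤ x + 1 ∧
      deriv g (q' ^ 2 / 2) * q' = deriv g (x ^ 2 / 2) * (x + 1)) := by
    intro x
    by_cases hx : 1 ≤ x
    · obtain ⟨q', h⟩ := ps1_step hg hx
      exact ⟨q', fun _ => h⟩
    · exact ⟨x, fun h => absurd h hx⟩
  choose φ hφ using hex
  let q : ℕ → ℝ := fun i => Nat.rec q0 (fun _ x => φ x) i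
  have hq1 : ∀ i, 1 ≤ q i := by
    intro i
    induction i with
    | zero => exact hq0
    | succ i ih => exact ih.trans (hφ _ ih).1
  have hq : ∀ i, q i ≤ q (i + 1) ∧ q (i + 1) ≤ q i + 1 ∧
      deriv g (q (i + 1) ^ 2 / 2) * q (i + 1) = deriv g (q i ^ 2 / 2) * (q i + 1) :=
    fun i => hφ _ (hq1 i)
  refine ⟨q, rfl, hq, ?_⟩
  have hmono : Monotone q := monotone_nat_of_le_succ fun i => (hq i).1
  rcases tendsto_atTop_of_monotone hmono with h | ⟨l, hl⟩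
  · exact h
  · exfalso
    have hl' : Tendsto (fun i => q (i + 1)) atTop (𝓝 l) := (tendsto_add_atTop_iff_nat 1).2 hl
    have hc : Continuous (fun x : ℝ => deriv g (x ^ 2 / 2) * x) :=
      ((ps1_cont hg).comp (by fun_prop)).mul continuous_id
    have hc2 : Continuous (fun x : ℝ => deriv g (x ^ 2 / 2) * (x + 1)) :=
      ((ps1_cont hg).comp (by fun_prop)).mul (by fun_prop)
    have h1 : Tendsto (fun i => deriv g (q (i + 1) ^ 2 / 2) * q (i + 1)) atTop
        (𝓝 (deriv g (l ^ 2 / 2) * l)) := (hc.tendsto l).comp hl'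
    have h2 : Tendsto (fun i => deriv g (q i ^ 2 / 2) * (q i + 1)) atTop
        (𝓝 (deriv g (l ^ 2 / 2) * (l + 1))) := (hc2.tendsto l).comp hl
    have h3 : deriv g (l ^ 2 / 2) * l = deriv g (l ^ 2 / 2) * (l + 1) := by
      refine tendsto_nhds_unique h1 ?_
      have h4 : (fun i => deriv g (q (i + 1) ^ 2 / 2) * q (i + 1)) =
          fun i => deriv g (q i ^ 2 / 2) * (q i + 1) := funext fun i => (hq i).2.2
      rw [h4]
      exact h2
    have h4 := hg.d1 (l ^ 2 / 2)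
    linarith

end EscP
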