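import Pool.Agent.EscW.PDefs3
import Pool.Agent.EscW.PF7b
import Pool.Agent.EscW.PF8

/-!
Project EscW, part P (MP_6acca1_an), module PT1: stages are open and dense for the scaled Lagrangians.
-/

set_option linter.unusedSectionVars false
set_option linter.unusedVariables false

noncomputable section

namespace EscP

open MeasureTheory Set Filter Topology Esc EscF EscG EscT
open scoped ContDiff

variable {ι : Type} [Fintype ι] {d : ℕ} {E : Type*} [NormedAddCommGroup E] [InnerProductSpace ℝ E]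
  [FiniteDimensional ℝ E] {D : GT ι d E} {p : GP} {m M Mf : ℝ} {L : LP} {l0 l1 l2 ll l : E → E → ℝ → ℝ}
  {f f' : E → ℝ → ℝ}

theorem sl_pos {e : ℝ} {g : ℝ → ℝ} (hg : Pw e g) (q : ℝ) : 0 < sl g q := hg.d1 _

theorem sl_mono {e : ℝ} {g : ℝ → ℝ} (hg : Pw e g) {q q' : ℝ} (hq : 0 ≤ q) (h : q ≤ q') : sl g q ≤ sl g q' := by
  have h2 : ContDiff ℝ ((1 : WithTop ℕ∞) + 1) g := by
    have e1 : ((1 : WithTop ℕ∞) + 1) = 2 := by norm_num
    rw [e1]
    exact hg.smooth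
  have h1 : ContDiff ℝ 1 (deriv g) := (contDiff_succ_iff_deriv.1 h2).2.2
  have hd : Differentiable ℝ (deriv g) := h1.differentiable (by norm_num)
  have hm : Monotone (deriv g) := monotone_of_deriv_nonneg hd hg.d2
  unfold sl
  exact hm (by nlinarith)

theorem dv_pt {β : Module.Basis ι ℝ E} (hf : Pt β f) (c : ℝ) : Pt β (dv c f) where
  smooth := contDiff_const.mul hf.smooth
  per i x t := by
    unfold dv
    rw [hf.per i x t]
  pert x t := by
    unfold dv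
    rw [hf.pert x t]

theorem dv_good (hf : Good Mf f) {c c0 : ℝ} (hc0 : 0 < c0) (hc : c0 ≤ c) : Good (Mf / c0) (dv c f) := by
  have hM := hf.pos
  have hcp : 0 < c := hc0.trans_le hc
  have hi : c⁻¹ ≤ c0⁻¹ := inv_anti₀ hc0 hc
  have hi0 : 0 ≤ c⁻¹ := inv_nonneg.2 hcp.le
  have key : ∀ a b : ℝ, 0 ≤ b → |a| ≤ Mf * b → |c⁻¹ * a| ≤ Mf / c0 * b := by
    intro a b hb hab
    rw [abs_mul, abs_of_nonneg hi0, div_eq_mul_inv]
    calc c⁻¹ * |a| ≤ c0⁻¹ * (Mf * b) := mul_le_mul hi hab (abs_nonneg _) (inv_nonneg.2 hc0.le)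
      _ = Mf * c0⁻¹ * b := by ring
  refine ⟨div_nonneg hM hc0.le, ?_, ?_, ?_, ?_⟩
  · exact continuous_const.mul hf.cont
  · intro x t
    have := key (f x t) 1 zero_le_one (by rw [mul_one]; exact hf.bd x t)
    rwa [mul_one] at this
  · intro x x' t
    unfold dv
    rw [← mul_sub]
    exact key _ _ (norm_nonneg _) (hf.lipx x x' t)
  · intro x t t'
    unfold dv
    rw [← mul_sub]
    exact key _ _ (abs_nonneg _) (hf.lipt x t t')

theorem IsSeq.mono {g : ℝ → ℝ} {q : ℕ → ℝ} (hq : IsSeq g q) (i : ℕ) : q 0 ≤ q i := by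
  induction i with
  | zero => exact le_rfl
  | succ i ih => exact ih.trans (hq.2.1 i).1

theorem St_open (h : D.Ok) (hp : POk D p) {e : ℝ} {g : ℝ → ℝ} (hg : Pw e g) {q : ℕ → ℝ} (hq : IsSeq g q)
    {lt : ℕ → E → E → ℝ → ℝ} (hl : ∀ i, TG D.β m M (lt i)) (i : ℕ) (hf : Pt D.β f) (hS : St D p g q lt i f) :
    ∃ ρ : ℝ, 0 < ρ ∧ ∀ f', Pt D.β f' → (∀ x t, |f x t - f' x t| ≤ ρ) → St D p g q lt i f' := by
  have hqi : 0 ≤ q i := by linarith [hq.1, hq.mono i]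
  have hs := sl_pos hg (q i)
  obtain ⟨ρ, hρ, H⟩ := stage_open h hp (hl i) (dv_pt hf (sl g (q i))) hqi hS
  refine ⟨ρ * sl g (q i), mul_pos hρ hs, fun f' hf' hff => H _ (dv_pt hf' _) fun x t => ?_⟩
  unfold dv
  rw [← mul_sub, abs_mul, abs_of_nonneg (inv_nonneg.2 hs.le)]
  calc (sl g (q i))⁻¹ * |f x t - f' x t| ≤ (sl g (q i))⁻¹ * (ρ * sl g (q i)) :=
        mul_le_mul_of_nonneg_left (hff x t) (inv_nonneg.2 hs.le)
    _ = ρ := by field_simp

theorem St_dense (S : SG D.β) (h : D.Ok) (hp : POk D p) (hG : PG D p S) {e : ℝ} {g : ℝ → ℝ} (hg : Pw e g)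
    {q : ℕ → ℝ} (hq : IsSeq g q) {lt : ℕ → E → E → ℝ → ℝ} (hl : ∀ i, FW D m L (q i) (lt i)) {Mf : ℝ} (hMf : 0 ≤ Mf) :
    ∃ i0 : ℕ, ∀ (N : SmNorm D.β) (i : ℕ), i0 ≤ i → ∀ f, Pt D.β f → Good Mf f → ∀ ε : ℝ, 0 < ε →
      ∃ G, S.mem G ∧ N.nm G ≤ ε ∧ St D p g q lt i (fun x t => f x t + G x t) := by
  have h0 := sl_pos hg (q 0)
  obtain ⟨q0, hq0, H⟩ := stage_dense S h hp hG m L (Mf / sl g (q 0)) (div_nonneg hMf h0.le)
  obtain ⟨i0, hi0⟩ := Filter.eventually_atTop.1 (hq.2.2.eventually_ge_atTop q0)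
  refine ⟨i0, fun N i hi f hf hg' ε hε => ?_⟩
  have hs := sl_pos hg (q i)
  have hle : sl g (q 0) ≤ sl g (q i) := sl_mono hg (by linarith [hq.1]) (hq.mono i)
  obtain ⟨G, hGm, hGn, hst⟩ := H N (q i) (hi0 i hi) (lt i) (hl i) (dv (sl g (q i)) f) (dv_pt hf _)
    (dv_good hg' h0 hle) (ε / sl g (q i)) (div_pos hε hs)
  refine ⟨fun x t => sl g (q i) * G x t, S.smul _ G hGm, ?_, ?_⟩
  · refine (N.smul_le _ G (S.sm G hGm)).trans ?_
    rw [abs_of_pos hs]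
    calc sl g (q i) * N.nm G ≤ sl g (q i) * (ε / sl g (q i)) := mul_le_mul_of_nonneg_left hGn hs.le
      _ = ε := by field_simp
  · unfold St
    have e1 : dv (sl g (q i)) (fun x t => f x t + sl g (q i) * G x t) =
        fun x t => dv (sl g (q i)) f x t + G x t := by
      funext x t
      unfold dv
      field_simp
    rw [e1]
    exact hst

end EscP
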