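import Pool.Agent.EscW.PDefs3

/-!
Module PT2: the Lagrangian `g ∘ l2` and energies.
-/

noncomputable section

namespace EscP

open MeasureTheory Set Filter Topology Esc EscF EscG EscT
open scoped ContDiff

variable {ι : Type} [Fintype ι] {d : ℕ} {E : Type*} [NormedAddCommGroup E] [InnerProductSpace ℝ E]
  [FiniteDimensional ℝ E] {D : GT ι d E} {p : GP} {m M Mf : ℝ} {L : LP} {l0 l1 l2 ll l : E → E → ℝ → ℝ}
  {f f' : E → ℝ → ℝ}

theorem gl_smooth {β : Module.Basis ι ℝ E} {e : ℝ} {g : ℝ → ℝ} (hg : Pw e g) (hl : TG β m M l2) :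
    ContDiff ℝ 2 (fun q : E × E × ℝ => g (l2 q.1 q.2.1 q.2.2)) :=
  hg.smooth.comp hl.smooth

private theorem PT2_gu {β : Module.Basis ι ℝ E} {e : ℝ} {g : ℝ → ℝ} (hg : Pw e g) (hl : TG β m M l2)
    (x v : E) (t : ℝ) :
    gu (fun x v t => g (l2 x v t)) x v t = deriv g (l2 x v t) • gu l2 x v t := by
  have hs : ContDiff ℝ 2 (fun w : E => l2 x w t) :=
    hl.smooth.comp (contDiff_const.prodMk (contDiff_id.prodMk contDiff_const))
  have h1 : HasFDerivAt (fun w : E => l2 x w t) (fderiv ℝ (fun w : E => l2 x w t) v) v :=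
    ((hs.differentiable (by norm_num)) v).hasFDerivAt
  have h2 : HasDerivAt g (deriv g (l2 x v t)) (l2 x v t) :=
    ((hg.smooth.differentiable (by norm_num)) _).hasDerivAt
  have h3 := h2.comp_hasFDerivAt v h1
  have h4 : HasFDerivAt (fun w : E => (fun x v t => g (l2 x v t)) x w t)
      (deriv g (l2 x v t) • fderiv ℝ (fun w : E => l2 x w t) v) v := h3
  unfold gu gradient
  rw [h4.fderiv]
  simp

private theorem PT2_conv {e : ℝ} {g : ℝ → ℝ} (hg : Pw e g) (y z : ℝ) :
    g y + deriv g y * (z - y) ≤ g z := by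
  have hd : Differentiable ℝ g := hg.smooth.differentiable (by norm_num)
  have hd1 : ContDiff ℝ 1 (deriv g) := by
    have h5 : (1 + 1 : WithTop ℕ∞) = 2 := by norm_num
    have h6 : ContDiff ℝ (1 + 1) g := by rw [h5]; exact hg.smooth
    exact (contDiff_succ_iff_deriv.1 h6).2.2
  have hd2 : Differentiable ℝ (deriv g) := hd1.differentiable (by norm_num)
  have hc : ConvexOn ℝ univ g := convexOn_univ_of_deriv2_nonneg hd hd2 fun x => by
    simpa using hg.d2 x
  rcases lt_trichotomy y z with h | h | h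
  · have h7 := hc.deriv_le_slope (mem_univ y) (mem_univ z) h (hd y)
    rw [slope_def_field, le_div_iff₀ (by linarith)] at h7
    linarith
  · subst h
    simp
  · have h7 := hc.slope_le_deriv (mem_univ z) (mem_univ y) h (hd y)
    rw [slope_def_field, div_le_iff₀ (by linarith)] at h7
    linarith

/-- `gu (g ∘ l2) = g' (l2) gu l2`; `g` convex, increasing and `l2` strongly convex -/
theorem gl_inj {β : Module.Basis ι ℝ E} {e : ℝ} {g : ℝ → ℝ} (hg : Pw e g) (hl : TG β m M l2) (x : E) (t : ℝ)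
    (v v' : E) (h : gu (fun x v t => g (l2 x v t)) x v t = gu (fun x v t => g (l2 x v t)) x v' t) : v = v' := by
  rw [PT2_gu hg hl, PT2_gu hg hl] at h
  have hc := hg.d1 (l2 x v t)
  have hc' := hg.d1 (l2 x v' t)
  have h1 := PT2_conv hg (l2 x v t) (l2 x v' t)
  have h2 := PT2_conv hg (l2 x v' t) (l2 x v t)
  have h3 := hl.conv x v' v t
  have h4 := hl.conv x v v' t
  have h5 : deriv g (l2 x v t) * inner ℝ (gu l2 x v t) (v' - v) =
      deriv g (l2 x v' t) * inner ℝ (gu l2 x v' t) (v' - v) := by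
    have h6 := congrArg (fun w : E => inner ℝ w (v' - v)) h
    simp only [inner_smul_left] at h6
    simpa using h6
  have h7 : inner ℝ (gu l2 x v' t) (v - v') = - inner ℝ (gu l2 x v' t) (v' - v) := by
    rw [← neg_sub, inner_neg_right]
  rw [h7, norm_sub_rev v v'] at h4
  have h8 := mul_le_mul_of_nonneg_left h3 hc.le
  have h9 := mul_le_mul_of_nonneg_left h4 hc'.le
  have h10 : (deriv g (l2 x v t) + deriv g (l2 x v' t)) * (m / 2 * ‖v' - v‖ ^ 2) ≤ 0 := by
    nlinarith
  have h11 : ‖v' - v‖ ^ 2 ≤ 0 := by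
    by_contra hcon
    push Not at hcon
    have h12 : 0 < m / 2 * ‖v' - v‖ ^ 2 := mul_pos (by linarith [hl.m_pos]) hcon
    have h13 : 0 < (deriv g (l2 x v t) + deriv g (l2 x v' t)) * (m / 2 * ‖v' - v‖ ^ 2) :=
      mul_pos (by linarith) h12
    linarith
  have h14 : ‖v' - v‖ = 0 := by
    have := sq_nonneg ‖v' - v‖
    have h15 : ‖v' - v‖ ^ 2 = 0 := le_antisymm h11 this
    exact pow_eq_zero_iff (two_ne_zero) |>.1 h15
  exact (sub_eq_zero.1 (norm_eq_zero.1 h14)).symm

/-- addition of a potential changes the energy by at most `Mf` -/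
theorem En.add {κ : ℝ → ℝ} {K : ℝ} (hK : 0 ≤ K) (hl : En D κ K l) (hg : Good Mf f) :
    En D κ (K * (1 + 2 * Mf)) (lf l f) := by
  intro x v t x' v' t'
  have h0 : ∀ y w r, en (lf l f) y w r = en l y w r - f y r := by
    intro y w r
    have h1 : gu (lf l f) y w r = gu l y w r := by
      unfold gu lf gradient
      rw [fderiv_add_const]
    unfold en
    rw [h1]
    simp only [lf]
    ring
  have h1 := hl x v t x' v' t'
  have h2 : |en l x v t - en l x' v' t'| ≤ |en (lf l f) x v t - en (lf l f) x' v' t'| + 2 * Mf := by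
    have h3 : en l x v t - en l x' v' t' =
        (en (lf l f) x v t - en (lf l f) x' v' t') + (f x t - f x' t') := by
      rw [h0, h0]
      ring
    rw [h3]
    refine (abs_add_le _ _).trans ?_
    have h4 := abs_sub (f x t) (f x' t')
    have h5 := hg.bd x t
    have h6 := hg.bd x' t'
    linarith
  have hM : 0 ≤ Mf := hg.pos
  have h7 := mul_le_mul_of_nonneg_left h2 hK
  have h8 : 0 ≤ K * Mf * |en (lf l f) x v t - en (lf l f) x' v' t'| := by positivity
  have h9 : 0 ≤ K * Mf * (‖v‖ + ‖v'‖) := by positivity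
  nlinarith

end EscP
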