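import Pool.Agent.EscW.PDefs3
import Pool.Agent.EscW.PT1
import Pool.Agent.EscW.PT2
import Pool.Agent.EscW.PL1
import Pool.Agent.EscW.PL2
import Pool.Agent.EscW.PE1
import Pool.Agent.EscW.PK1
import Pool.Agent.EscW.PH0
import Pool.Agent.EscW.PH4

/-!
Module PT3: assembly of the escaping orbit. `λ i = sl g (q i)`, `a i = λ i * q i`, so `λ i (q i + 1) = a (i + 1)`; the Lagrangians
`ll i = fun x v t => λ i * lf (lt i) (dv (λ i) f) x v t` (`= λ i * lt i + f`) are `TG` (tg_smul, TG.add); start at a large index `i1` (shift all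
sequences). `Stage (ll i) (a i) (a (i + 1))`: stage_smul. `Leg (ll i) s` for `a i ≤ s ≤ a (i + 1)`: leg_of_FT (for `FT.add`, `L + Mf / λ 0`) at `s / λ i`
in `[q i, q i + 1]`, leg_smul. `Win (ll i) s (fun x v t => |κ̂ F - s / λ i| ≤ η' (s / λ i))`: window with `En.add`, win_smul; `η' ≤ η / 4` small: that
region is contained in `Wn i := |κ̂ F - q i| ≤ η q i / 2` and, for `s = a (i + 1)`, also in `|κ̂ F - q (i + 1)| ≤ η q (i + 1)` (`q (i + 1) ≤ q i + 1`, `i` large); there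
`l2 / (q i)² ∈ J` (`Tr.win`), `λ i lt i = g ∘ l2 + c i` (`Tr.eq`). `keq` with `l0 = ll i`, `l1 = ll (i + 1)`, class `a (i + 1)`, `e = c (i + 1) - c i`; `mstage`. Then
`escapes` with `Wo i = (l2 / (q i)² ∈ J)` (open), `V i = c q i` (`F ≤ MF ‖v‖`, `κ̂ ≤ A`), `gl_smooth`, `gl_inj`.
-/

noncomputable section

namespace EscP

open MeasureTheory Set Filter Topology Esc EscF EscG EscT
open scoped ContDiff

variable {ι : Type} [Fintype ι] {d : ℕ} {E : Type*} [NormedAddCommGroup E] [InnerProductSpace ℝ E]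
  [FiniteDimensional ℝ E] {D : GT ι d E} {p : GP} {m M Mf : ℝ} {L : LP} {l0 l1 l2 ll l : E → E → ℝ → ℝ}
  {f f' : E → ℝ → ℝ}

theorem PT3_mono {s : ℝ} {W W' : E → E → ℝ → Prop} (hW : Win D p l s W)
    (h : ∀ x v t, W x v t → W' x v t) : Win D p l s W' :=
  fun t t' h1 h2 Z v hZ hv hd he hX hk r hr => h _ _ _ (hW t t' h1 h2 Z v hZ hv hd he hX hk r hr)

/-- the scaled Lagrangian of the stage `i` -/
def PT3_ll (g : ℝ → ℝ) (q : ℕ → ℝ) (lt : ℕ → E → E → ℝ → ℝ) (f : E → ℝ → ℝ) (i : ℕ) : E → E → ℝ → ℝ :=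
  fun x v t => sl g (q i) * lf (lt i) (dv (sl g (q i)) f) x v t

theorem PT3_ll_eq {e : ℝ} {g : ℝ → ℝ} (hg : Pw e g) (q : ℕ → ℝ) (lt : ℕ → E → E → ℝ → ℝ) (f : E → ℝ → ℝ)
    (i : ℕ) (x v : E) (t : ℝ) : PT3_ll g q lt f i x v t = sl g (q i) * lt i x v t + f x t := by
  unfold PT3_ll lf dv
  have h1 := (sl_pos hg (q i)).ne'
  rw [mul_add, ← mul_assoc, mul_inv_cancel₀ h1, one_mul]

/-- inclusion of the windows -/
theorem PT3_inc {Q s η y : ℝ} (h1 : Q ≤ s) (h2 : s ≤ Q + 1) (hη : 0 < η) (hQ1 : 1 ≤ Q) (hQ : 2 / η ≤ Q)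
    (hy : |y - s| ≤ η / 4 * s) : |y - Q| ≤ η * Q := by
  have h3 : 2 ≤ η * Q := by
    rw [div_le_iff₀ hη] at hQ
    linarith
  have h4 := abs_le.1 hy
  have h5 : η / 4 * s ≤ η / 4 * (2 * Q) := mul_le_mul_of_nonneg_left (by linarith) (by linarith)
  rw [abs_le]
  constructor
  · linarith [h4.1]
  · linarith [h4.2]

theorem St_escapes (h : D.Ok) (hp : POk D p) {e : ℝ} {g : ℝ → ℝ} (hg : Pw e g) {M2 m2 : ℝ}
    (hl2 : TG D.β m2 M2 l2) {κ : ℝ → ℝ} {Cκ K η : ℝ} {J : Set ℝ} (hη : 0 < η) (hK : 0 ≤ K) (hJ : IsOpen J)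
    (hκ : ∀ t, 1 ≤ Cκ * κ t) (hκ' : ∀ t, κ t ≤ Cκ) (hκl : ∀ t t', |κ t - κ t'| ≤ Cκ * |t - t'|)
    {q : ℕ → ℝ} (hq : IsSeq g q) {lt : ℕ → E → E → ℝ → ℝ} (hT : ∀ i, Tr D m L κ K η J (q i) g l2 (lt i))
    {Mf : ℝ} (hMf : 0 ≤ Mf) :
    ∃ i0 : ℕ, ∀ i1 : ℕ, i0 ≤ i1 → ∀ f, Pt D.β f → Good Mf f → (∀ i : ℕ, i1 ≤ i → St D p g q lt i f) →
      ∀ x0 ∈ (D0 D).C p, EscapesFrom (fun x v t => g (l2 x v t)) f x0 (Near D p) := by
  obtain ⟨hq0, hqs, hqt⟩ := hq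
  have hqm : Monotone q := monotone_nat_of_le_succ fun i => (hqs i).1
  have hq1 : ∀ i, 1 ≤ q i := fun i => hq0.trans (hqm (Nat.zero_le i))
  -- the constants
  obtain ⟨c0, hc0⟩ : ∃ c0 : ℝ, c0 = sl g (q 0) := ⟨_, rfl⟩
  have hc0p : 0 < c0 := by
    rw [hc0]
    exact sl_pos hg _
  have hcm : ∀ i, c0 ≤ sl g (q i) := fun i => by
    rw [hc0]
    exact sl_mono hg (by linarith) (hqm (Nat.zero_le i))
  have hcp : ∀ i, 0 < sl g (q i) := fun i => sl_pos hg _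
  obtain ⟨M1, hM1⟩ : ∃ M1 : ℝ, M1 = Mf / c0 := ⟨_, rfl⟩
  obtain ⟨η1, hη1⟩ : ∃ η1 : ℝ, η1 = min η (1 / 2) := ⟨_, rfl⟩
  have hη1p : 0 < η1 := by
    rw [hη1]
    exact lt_min hη (by norm_num)
  have hη1η : η1 ≤ η := by
    rw [hη1]
    exact min_le_left _ _
  have hη12 : η1 ≤ 1 / 2 := by
    rw [hη1]
    exact min_le_right _ _
  obtain ⟨s1, hs11, H1⟩ := leg_of_FT h hp m (L + M1)
  obtain ⟨s2, hs21, H2⟩ := window h hp m (L + M1) hκ hκ' hκl (K * (1 + 2 * M1)) (η := η1 / 4) (by linarith)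
  obtain ⟨i0, hi0⟩ := eventually_atTop.1 (hqt.eventually_ge_atTop (max (max s1 s2) (2 / η1)))
  refine ⟨i0, fun i1 hi1 f hf hgf hSt x0 hx0 => ?_⟩
  have hQ : ∀ i, i1 ≤ i → s1 ≤ q i ∧ s2 ≤ q i ∧ 2 / η1 ≤ q i := fun i hi => by
    have h1 := hi0 i (hi1.trans hi)
    exact ⟨((le_max_left _ _).trans (le_max_left _ _)).trans h1,
      ((le_max_right _ _).trans (le_max_left _ _)).trans h1, (le_max_right _ _).trans h1⟩
  have hpt : ∀ i, Pt D.β (dv (sl g (q i)) f) := fun i => dv_pt hf _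
  have hgd : ∀ i, Good M1 (dv (sl g (q i)) f) := fun i => by
    rw [hM1]
    exact dv_good hgf hc0p (hcm i)
  have hTG0 : ∀ i, TG D.β m L.M (lt i) := fun i => by
    refine ((hT i).fw.ft (q i) ?_).toTG
    rw [sub_self, abs_zero]
    norm_num
  have hTG : ∀ i, TG D.β m (L.M + M1) (lf (lt i) (dv (sl g (q i)) f)) := fun i =>
    (hTG0 i).add (hpt i) (hgd i)
  have hFT : ∀ i s, q i ≤ s → s ≤ q i + 1 → FT D m (L + M1) s (lf (lt i) (dv (sl g (q i)) f)) := by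
    intro i s h1 h2
    refine ((hT i).fw.ft s ?_).add h.toOk0 (hpt i) (hgd i)
    rw [abs_le]
    constructor <;> linarith
  have hEn : ∀ i, En D κ (K * (1 + 2 * M1)) (lf (lt i) (dv (sl g (q i)) f)) := fun i =>
    (hT i).en.add hK (hgd i)
  have hTGl : ∀ i, TG D.β (sl g (q i) * m) (sl g (q i) * (L.M + M1)) (PT3_ll g q lt f i) := fun i =>
    tg_smul (hTG i) (hcp i)
  -- stages, legs, windows
  have hLeg : ∀ i, i1 ≤ i → ∀ s, q i ≤ s → s ≤ q i + 1 → Leg D p (PT3_ll g q lt f i) (sl g (q i) * s) :=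
    fun i hi s h1 h2 => leg_smul h hp (hTG i) (hcp i) (H1 s ((hQ i hi).1.trans h1) _ (hFT i s h1 h2))
  have hWin : ∀ i, i1 ≤ i → ∀ s, q i ≤ s → s ≤ q i + 1 → Win D p (PT3_ll g q lt f i) (sl g (q i) * s)
      (fun x v t => |D.κ t * D.F x v t - s| ≤ η1 / 4 * s) := fun i hi s h1 h2 =>
    win_smul h (hTG i) (hcp i) (H2 s ((hQ i hi).2.1.trans h1) _ (hFT i s h1 h2) (hEn i))
  have hStg : ∀ i, i1 ≤ i → Stage D p (PT3_ll g q lt f i) (sl g (q i) * q i)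
      (sl g (q (i + 1)) * q (i + 1)) := fun i hi => by
    rw [(hqs i).2.2]
    exact stage_smul h hp (hTG i) (hcp i) (by linarith [hq1 i]) (hSt i hi)
  -- the region where the truncation is exact
  have hJi : ∀ i, i1 ≤ i → ∀ s, q i ≤ s → s ≤ q i + 1 → ∀ x v t,
      |D.κ t * D.F x v t - s| ≤ η1 / 4 * s → |D.κ t * D.F x v t - q i| ≤ η1 * q i :=
    fun i hi s h1 h2 x v t hy => PT3_inc h1 h2 hη1p (hq1 i) (hQ i hi).2.2 hy
  have hJw : ∀ i x v t, |D.κ t * D.F x v t - q i| ≤ η1 * q i → l2 x v t / q i ^ 2 ∈ J := by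
    intro i x v t hy
    refine (hT i).win x v t (hy.trans ?_)
    exact mul_le_mul_of_nonneg_right hη1η (by linarith [hq1 i])
  have hex : ∀ i, ∃ c : ℝ, ∀ x v t, l2 x v t / q i ^ 2 ∈ J → PT3_ll g q lt f i x v t = g (l2 x v t) + f x t + c := by
    intro i
    obtain ⟨c, hc⟩ := (hT i).eq
    refine ⟨c, fun x v t hx => ?_⟩
    rw [PT3_ll_eq hg]
    have h1 : sl g (q i) * lt i x v t = g (l2 x v t) + c := hc x v t hx
    rw [h1]
    ring
  have hKE : ∀ i, i1 ≤ i → ∃ e : ℝ, KEq D p (PT3_ll g q lt f i) (PT3_ll g q lt f (i + 1))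
      (sl g (q (i + 1)) * q (i + 1)) e := by
    intro i hi
    obtain ⟨c, hc⟩ := hex i
    obtain ⟨c', hc'⟩ := hex (i + 1)
    have hi' : i1 ≤ i + 1 := hi.trans (Nat.le_succ i)
    have h1 := (hqs i).1
    have h2 := (hqs i).2.1
    have w0 := hWin i hi (q i + 1) (by linarith) le_rfl
    rw [← (hqs i).2.2] at w0
    have w1 := hWin (i + 1) hi' (q (i + 1)) le_rfl (by linarith)
    refine ⟨c' - c, keq h (mul_nonneg (hcp (i + 1)).le (by linarith [hq1 (i + 1)])) (hTGl i) (hTGl (i + 1))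
      w0 w1 (fun x v t hx => ?_) (fun x v t hx => ?_)⟩
    · rw [hc x v t (hJw i x v t (hJi i hi (q i + 1) (by linarith) le_rfl x v t hx)),
        hc' x v t (hJw (i + 1) x v t (hJi (i + 1) hi' (q i + 1) h2 (by linarith) x v t hx))]
      ring
    · rw [hc x v t (hJw i x v t (hJi i hi (q (i + 1)) h1 h2 x v t hx)),
        hc' x v t (hJw (i + 1) x v t (hJi (i + 1) hi' (q (i + 1)) le_rfl (by linarith) x v t hx))]
      ring
  have hA := h.A_pos
  have hMF : 0 < D.MF := (h.fr0 0).fins.mF_pos.trans_le (h.fr0 0).fins.mF_le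
  have hsc : ∀ i s, sl g (q i) * q i ≤ s → s ≤ sl g (q (i + 1)) * q (i + 1) →
      sl g (q i) * (s / sl g (q i)) = s ∧ q i ≤ s / sl g (q i) ∧ s / sl g (q i) ≤ q i + 1 := by
    intro i s h1 h2
    rw [(hqs i).2.2] at h2
    refine ⟨mul_div_cancel₀ _ (hcp i).ne', ?_, ?_⟩
    · rw [le_div_iff₀ (hcp i)]
      linarith
    · rw [div_le_iff₀ (hcp i)]
      linarith
  refine escapes h hp (l := fun x v t => g (l2 x v t)) (f := f) (gl_smooth hg hl2) hf hgf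
    (fun x t v v' hv => gl_inj hg hl2 x t v v' hv)
    (ll := fun i => PT3_ll g q lt f (i1 + i)) (mm := fun i => sl g (q (i1 + i)) * m)
    (MM := fun i => sl g (q (i1 + i)) * (L.M + M1)) (fun i => hTGl _)
    (a := fun i => sl g (q (i1 + i)) * q (i1 + i)) ?_ ?_ ?_ ?_ ?_
    (V := fun i => q (i1 + i) / (2 * (D.A * D.MF))) ?_
    (Wn := fun i x v t => |D.κ t * D.F x v t - q (i1 + i)| ≤ η1 * q (i1 + i))
    (Wo := fun i x v t => l2 x v t / q (i1 + i) ^ 2 ∈ J) ?_ ?_ ?_ ?_ hx0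
  · exact mul_nonneg (hcp _).le (by linarith [hq1 (i1 + 0)])
  · refine monotone_nat_of_le_succ fun i => ?_
    show sl g (q (i1 + i)) * q (i1 + i) ≤ sl g (q (i1 + i + 1)) * q (i1 + i + 1)
    rw [(hqs (i1 + i)).2.2]
    have := hcp (i1 + i)
    nlinarith
  · have h1 : Tendsto (fun i => q (i1 + i)) atTop atTop :=
      hqt.comp (tendsto_atTop_mono (fun i => Nat.le_add_left i i1) tendsto_id)
    refine tendsto_atTop_mono (fun i => ?_) (h1.const_mul_atTop hc0p)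
    exact mul_le_mul_of_nonneg_right (hcm _) (by linarith [hq1 (i1 + i)])
  · intro i
    show MStage D p (PT3_ll g q lt f (i1 + (i - 1))) (PT3_ll g q lt f (i1 + i))
      (sl g (q (i1 + i)) * q (i1 + i)) (sl g (q (i1 + i + 1)) * q (i1 + i + 1))
    rcases Nat.eq_zero_or_pos i with hi | hi
    · subst hi
      have hK0 : KEq D p (PT3_ll g q lt f (i1 + 0)) (PT3_ll g q lt f (i1 + 0))
          (sl g (q (i1 + 0)) * q (i1 + 0)) 0 := by
        intro t t' _ _ x x' _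
        ring
      exact mstage h hp (mul_nonneg (hcp _).le (by linarith [hq1 (i1 + 0)])) (hTGl _) (hTGl _) hK0
        (hStg _ (Nat.le_add_right _ _))
    · obtain ⟨k, rfl⟩ : ∃ k, i = k + 1 := ⟨i - 1, by omega⟩
      obtain ⟨e', he'⟩ := hKE (i1 + k) (Nat.le_add_right _ _)
      exact mstage h hp (mul_nonneg (hcp _).le (by linarith [hq1 (i1 + (k + 1))])) (hTGl _) (hTGl _) he'
        (hStg _ (Nat.le_add_right _ _))
  · intro i s h1 h2
    obtain ⟨e1, e2, e3⟩ := hsc (i1 + i) s h1 h2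
    have := hLeg (i1 + i) (Nat.le_add_right _ _) _ e2 e3
    rw [e1] at this
    exact this
  · have h1 : Tendsto (fun i => q (i1 + i)) atTop atTop :=
      hqt.comp (tendsto_atTop_mono (fun i => Nat.le_add_left i i1) tendsto_id)
    exact h1.atTop_div_const (by positivity)
  · intro i s h1 h2
    obtain ⟨e1, e2, e3⟩ := hsc (i1 + i) s h1 h2
    have := hWin (i1 + i) (Nat.le_add_right _ _) _ e2 e3
    rw [e1] at this
    exact PT3_mono this fun x v t hx => hJi (i1 + i) (Nat.le_add_right _ _) _ e2 e3 x v t hx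
  · intro i
    have h1 : Continuous (fun z : E × E × ℝ => l2 z.1 z.2.1 z.2.2 / q (i1 + i) ^ 2) :=
      hl2.smooth.continuous.div_const _
    exact hJ.preimage h1
  · intro i x v t hx
    refine ⟨hJw (i1 + i) x v t hx, ?_⟩
    have h1 := (abs_le.1 hx).1
    have h2 : η1 * q (i1 + i) ≤ 1 / 2 * q (i1 + i) :=
      mul_le_mul_of_nonneg_right hη12 (by linarith [hq1 (i1 + i)])
    have h3 : D.κ t * D.F x v t ≤ D.A * (D.MF * ‖v‖) := by
      have h4 := h.κ_le t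
      have h5 : D.F x v t ≤ D.MF * ‖v‖ := (h.fr0 t).fins.upp x v
      have h6 : 0 ≤ D.F x v t := le_trans (mul_nonneg (h.fr0 t).fins.mF_pos.le (norm_nonneg v))
        ((h.fr0 t).fins.low x v)
      exact mul_le_mul h4 h5 h6 hA.le
    show q (i1 + i) / (2 * (D.A * D.MF)) ≤ ‖v‖
    rw [div_le_iff₀ (by positivity)]
    linarith
  · intro i
    obtain ⟨c, hc⟩ := hex (i1 + i)
    exact ⟨c, fun x v t hx => hc x v t hx⟩

end EscP
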