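import Pool.Agent.EscW.PDefs3
import Pool.Agent.EscW.LLDefs
import Pool.Agent.EscW.K2
import Pool.Agent.EscW.K3

/-!
Module PW1: the first variation on `M` for `g ∘ L` (copies of `local_var`, K2.lean, and of `var_zero`, K3.lean, for the Lagrangian
`fun q => g (L q)` and `l = fun x v t => g (Lt ...)`; only `C²` smoothness and the identity of the two Lagrangians on `M'` are used).
-/

set_option autoImplicit false

noncomputable section

namespace EscW.Pg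

open MeasureTheory Set Filter Topology Esc EscF EscG EscM EscMT EscF.T EscW EscW.Lo
open scoped ContDiff UniformConvergence

variable {d m : ℕ} {M : Sub d} {M' : Sub m} {O K : Set (Vec m)} {G : Subgroup (Vec m ≃ₗᵢ[ℝ] Vec m)}
  {φ : Vec m → Vec d} {κ : ℝ → ℝ} {F : Vec d → Vec d → ℝ → ℝ} {L : Lag d} {B : Vec m → ℝ → ℝ} {i : Fin m}
  {len a : ℝ} {c : ℝ → ℝ → Vec m} {ρ a0 : ℝ} {Ψ Ψ₂ χ : Vec m → ℝ} {R : Vec m → Vec m} {ℓ : Vec m →L[ℝ] ℝ} {k : ℕ∞}

/-- the momentum in terms of the Lagrangian on `M'` -/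
theorem PW1_mom (hφ : IsChart M M' O G φ) {P : Lag d}
    (hS : ContDiffOn ℝ 2 (fun q : Vec d × Vec d × ℝ => P (M.r q.1, fderiv ℝ M.r q.1 q.2.1, q.2.2)) {q | q.1 ∈ M.U})
    {l : Vec m → Vec m → ℝ → ℝ}
    (hE : ∀ y ∈ M'.N, Metric.infDist y K ≤ a0 → ∀ v, IsTangent M' y v → ∀ t,
      P (φ y, fderiv ℝ φ y v, t) = l y v t)
    (hl : ContDiff ℝ 2 (fun p : Vec m × Vec m × ℝ => l p.1 p.2.1 p.2.2)) {y z w : Vec m}
    (hy : y ∈ M'.N ∩ O) (hK : Metric.infDist y K ≤ a0) (hz : IsTangent M' y z) (hw : IsTangent M' y w)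
    (t : ℝ) : fderiv ℝ (fun u => P (φ y, fderiv ℝ M.r (φ y) u, t)) (fderiv ℝ φ y z) (fderiv ℝ φ y w) =
      inner ℝ (gu l y z t) w := by
  have hφy : φ y ∈ M.N := hφ.maps y hy
  have hU : φ y ∈ M.U := M.sub hφy
  have h1 : DifferentiableAt ℝ (fun u => P (φ y, fderiv ℝ M.r (φ y) u, t)) (fderiv ℝ φ y z) := by
    have hopen : IsOpen {q : Vec d × Vec d × ℝ | q.1 ∈ M.U} := M.isOpen.preimage continuous_fst
    have h2 : DifferentiableAt ℝ
        (fun q : Vec d × Vec d × ℝ => P (M.r q.1, fderiv ℝ M.r q.1 q.2.1, q.2.2))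
        (φ y, fderiv ℝ φ y z, t) :=
      ((hS (φ y, fderiv ℝ φ y z, t) hU).contDiffAt (hopen.mem_nhds hU)).differentiableAt
        (by simp)
    have h3 : DifferentiableAt ℝ (fun u : Vec d => ((φ y, u, t) : Vec d × Vec d × ℝ))
        (fderiv ℝ φ y z) := by fun_prop
    have h4 := DifferentiableAt.comp (fderiv ℝ φ y z)
      (g := fun q : Vec d × Vec d × ℝ => P (M.r q.1, fderiv ℝ M.r q.1 q.2.1, q.2.2))
      (f := fun u : Vec d => ((φ y, u, t) : Vec d × Vec d × ℝ)) h2 h3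
    have h5 : ((fun q : Vec d × Vec d × ℝ => P (M.r q.1, fderiv ℝ M.r q.1 q.2.1, q.2.2)) ∘
        fun u : Vec d => ((φ y, u, t) : Vec d × Vec d × ℝ)) =
        fun u => P (φ y, fderiv ℝ M.r (φ y) u, t) := by
      funext u
      show P (M.r (φ y), fderiv ℝ M.r (φ y) u, t) = _
      rw [r_self M hφy]
    rwa [h5] at h4
  have h6 : HasDerivAt (fun s : ℝ => fderiv ℝ φ y z + s • fderiv ℝ φ y w) (fderiv ℝ φ y w) 0 := by
    have := ((hasDerivAt_id (0 : ℝ)).smul_const (fderiv ℝ φ y w)).const_add (fderiv ℝ φ y z)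
    simpa using this
  have h1' : HasFDerivAt (fun u => P (φ y, fderiv ℝ M.r (φ y) u, t))
      (fderiv ℝ (fun u => P (φ y, fderiv ℝ M.r (φ y) u, t)) (fderiv ℝ φ y z))
      ((fun s : ℝ => fderiv ℝ φ y z + s • fderiv ℝ φ y w) 0) := by
    simpa using h1.hasFDerivAt
  have h7 := HasFDerivAt.comp_hasDerivAt (0 : ℝ) (l := fun u => P (φ y, fderiv ℝ M.r (φ y) u, t))
    (f := fun s : ℝ => fderiv ℝ φ y z + s • fderiv ℝ φ y w) h1' h6
  have h8 : ((fun u => P (φ y, fderiv ℝ M.r (φ y) u, t)) ∘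
      fun s : ℝ => fderiv ℝ φ y z + s • fderiv ℝ φ y w) = fun s : ℝ => l y (z + s • w) t := by
    funext s
    have h9 : fderiv ℝ φ y z + s • fderiv ℝ φ y w = fderiv ℝ φ y (z + s • w) := by
      rw [map_add, map_smul]
    have h10 := K2_line hz hw s
    have h11 := hφ.tangent hy h10
    show P (φ y, fderiv ℝ M.r (φ y) (fderiv ℝ φ y z + s • fderiv ℝ φ y w), t) = _
    rw [h9, h11]
    exact hE y hy.1 hK _ h10 t
  rw [h8] at h7
  have h12 : HasFDerivAt (fun p : Vec m × Vec m × ℝ => l p.1 p.2.1 p.2.2)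
      (fderiv ℝ (fun p : Vec m × Vec m × ℝ => l p.1 p.2.1 p.2.2) (y, z, t))
      ((fun s : ℝ => ((y, z + s • w, t) : Vec m × Vec m × ℝ)) 0) := by
    have h13 : ((fun s : ℝ => ((y, z + s • w, t) : Vec m × Vec m × ℝ)) 0) = (y, z, t) := by
      simp
    rw [h13]
    exact ((hl.differentiable (by norm_num)) _).hasFDerivAt
  have h14 : HasDerivAt (fun s : ℝ => ((y, z + s • w, t) : Vec m × Vec m × ℝ)) (0, w, 0) 0 := by
    have h15 : HasDerivAt (fun s : ℝ => z + s • w) w 0 := by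
      have := ((hasDerivAt_id (0 : ℝ)).smul_const w).const_add z
      simpa using this
    exact (hasDerivAt_const _ _).prodMk (h15.prodMk (hasDerivAt_const _ _))
  have h16 : HasDerivAt (fun s : ℝ => l y (z + s • w) t)
      (fderiv ℝ (fun p : Vec m × Vec m × ℝ => l p.1 p.2.1 p.2.2) (y, z, t) (0, w, 0)) 0 :=
    HasFDerivAt.comp_hasDerivAt (0 : ℝ) (l := fun p : Vec m × Vec m × ℝ => l p.1 p.2.1 p.2.2)
      (f := fun s : ℝ => ((y, z + s • w, t) : Vec m × Vec m × ℝ)) h12 h14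
  rw [A12b_gu hl]
  exact h7.unique h16

theorem PW1_var (hC : CutW M' O K B ρ a0 Ψ Ψ₂ ℓ) (hT : TubeW M' O K ρ a0 χ R)
    (hφ : IsChart M M' O G φ) (f : EscM.Pot M k) (h : YW M' K a0 k) {P : Lag d}
    (hS : ContDiffOn ℝ 2 (fun q : Vec d × Vec d × ℝ => P (M.r q.1, fderiv ℝ M.r q.1 q.2.1, q.2.2)) {q | q.1 ∈ M.U})
    {l : Vec m → Vec m → ℝ → ℝ}
    (hE : ∀ y ∈ M'.N, Metric.infDist y K ≤ a0 → ∀ v, IsTangent M' y v → ∀ t,
      P (φ y, fderiv ℝ φ y v, t) = l y v t)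
    (hl : ContDiff ℝ 2 (fun p : Vec m × Vec m × ℝ => l p.1 p.2.1 p.2.2))
    (hf : ContDiff ℝ 2 (fun p : Vec m × ℝ => fw φ χ R f h.1 p.1 p.2)) {x v : ℝ → Vec m} {t0 : ℝ}
    (hx : ∀ᶠ t in 𝓝 t0, HasDerivAt x (v t) t) (hxK : ∀ᶠ t in 𝓝 t0, x t ∈ K)
    (hp : HasDerivAt (fun t => gu l (x t) (v t) t) (gx (lf l (fw φ χ R f h.1)) (x t0) (v t0) t0) t0)
    {X : ℝ × ℝ → Vec d} (hX : ContDiff ℝ 2 X) (hXN : ∀ q, X q ∈ M.N)
    (hX0 : ∀ᶠ t in 𝓝 t0, X (0, t) = φ (x t)) :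
    HasDerivAt (mu M P X) (deriv (fun s => P (X (s, t0), deriv (fun t' => X (s, t')) t0, t0) +
      f.toFun (X (s, t0), t0)) 0) t0 := by
  have ha0 := hC.a0_pos
  have hXd : ∀ q, DifferentiableAt ℝ X q := fun q => hX.differentiable (by norm_num) q
  have hx0K : x t0 ∈ K := hxK.self_of_nhds
  have hKN : ∀ y ∈ K, y ∈ M'.N ∩ O := fun y hy =>
    ⟨hC.subK hy, hC.room y (by rw [Metric.infDist_zero_of_mem hy]; linarith)⟩
  have hx0 : x t0 ∈ M'.N ∩ O := hKN _ hx0K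
  obtain ⟨ψ, hψ, hψ1, hψ2⟩ := hφ.inverse (x t0) hx0
  have hq0 : X (0, t0) = φ (x t0) := hX0.self_of_nhds
  obtain ⟨Y, hYdef⟩ : ∃ Y : ℝ × ℝ → Vec m, Y = fun q => ψ (X q) := ⟨_, rfl⟩
  have hY2 : ContDiffAt ℝ 2 Y (0, t0) := by
    rw [hYdef]
    refine ContDiffAt.comp (0, t0) ?_ hX.contDiffAt
    rw [hq0]
    exact hψ.of_le ENat.LEInfty.out
  have hYev : ∀ᶠ q in 𝓝 ((0, t0) : ℝ × ℝ), ContDiffAt ℝ 2 Y q := hY2.eventually (by simp)
  have hYN : ∀ᶠ q in 𝓝 ((0, t0) : ℝ × ℝ), Y q ∈ M'.N ∩ O ∧ φ (Y q) = X q := by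
    have h1 : Tendsto X (𝓝 (0, t0)) (𝓝 (φ (x t0))) := by
      rw [← hq0]
      exact hX.continuous.tendsto _
    filter_upwards [h1.eventually hψ2] with q hq
    rw [hYdef]
    exact hq (hXN q)
  have hxc : ContinuousAt x t0 := hx.self_of_nhds.continuousAt
  have hY0 : ∀ᶠ t in 𝓝 t0, Y (0, t) = x t := by
    have h1 : ∀ᶠ t in 𝓝 t0, x t ∈ M'.N → ψ (φ (x t)) = x t := hxc.eventually hψ1
    filter_upwards [h1, hxK, hX0] with t h2 h3 h4
    rw [hYdef]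
    show ψ (X (0, t)) = x t
    rw [h4]
    exact h2 (hC.subK h3)
  have hY00 : Y (0, t0) = x t0 := hY0.self_of_nhds
  have hYK : ∀ᶠ q in 𝓝 ((0, t0) : ℝ × ℝ), Metric.infDist (Y q) K ≤ a0 := by
    have h1 : ContinuousAt (fun q => Metric.infDist (Y q) K) (0, t0) :=
      (Metric.continuous_infDist_pt K).continuousAt.comp hY2.continuousAt
    have h2 : Metric.infDist (Y (0, t0)) K < a0 := by
      rw [hY00, Metric.infDist_zero_of_mem hx0K]
      exact ha0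
    filter_upwards [h1.eventually (gt_mem_nhds h2)] with q hq
    exact hq.le
  -- good points
  have hgood : ∀ᶠ q in 𝓝 ((0, t0) : ℝ × ℝ), ContDiffAt ℝ 2 Y q ∧ Y q ∈ M'.N ∩ O ∧ φ (Y q) = X q ∧
      Metric.infDist (Y q) K ≤ a0 ∧ (∀ w, IsTangent M' (Y q) (fderiv ℝ Y q w)) ∧
      ∀ w, fderiv ℝ X q w = fderiv ℝ φ (Y q) (fderiv ℝ Y q w) := by
    filter_upwards [hYev, hYN.eventually_nhds, hYK] with q h1 h2 h3
    have h4 := h2.self_of_nhds
    have hd : DifferentiableAt ℝ Y q := h1.differentiableAt (by norm_num)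
    refine ⟨h1, h4.1, h4.2, h3, fun w => K2_tan hd (h2.mono fun q' hq' => hq'.1.1) w, ?_⟩
    have h5 : HasFDerivAt (fun q' => φ (Y q')) ((fderiv ℝ φ (Y q)).comp (fderiv ℝ Y q)) q :=
      (hφ.H1_diff_φ h4.1.2).hasFDerivAt.comp q hd.hasFDerivAt
    have h6 : (fun q' => φ (Y q')) =ᶠ[𝓝 q] X := h2.mono fun q' hq' => hq'.2
    have h7 := (h5.congr_of_eventuallyEq h6.symm).unique (hXd q).hasFDerivAt
    intro w
    rw [← h7]
    rfl
  obtain ⟨g1, g2, g3, g4, g5, g6⟩ := hgood.self_of_nhds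
  -- continuity of the two axes
  have hax1 : Tendsto (fun t : ℝ => ((0, t) : ℝ × ℝ)) (𝓝 t0) (𝓝 (0, t0)) := by
    have : Continuous (fun t : ℝ => ((0, t) : ℝ × ℝ)) := by fun_prop
    exact this.tendsto t0
  have hax2 : Tendsto (fun s : ℝ => ((s, t0) : ℝ × ℝ)) (𝓝 0) (𝓝 (0, t0)) := by
    have : Continuous (fun s : ℝ => ((s, t0) : ℝ × ℝ)) := by fun_prop
    exact this.tendsto 0
  -- the velocity
  have hvY : ∀ᶠ t in 𝓝 t0, v t = fderiv ℝ Y (0, t) (0, 1) := by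
    filter_upwards [hax1.eventually hgood, hY0.eventually_nhds, hx] with t h1 h2 h3
    have h4 := K2_dt (h1.1.differentiableAt (by norm_num))
    have h5 : (fun t' => Y (0, t')) =ᶠ[𝓝 t] x := h2
    exact h3.unique (h4.congr_of_eventuallyEq h5.symm)
  -- the momentum
  have hmu : ∀ᶠ t in 𝓝 t0, mu M P X t = inner ℝ (gu l (x t) (v t) t) (fderiv ℝ Y (0, t) (1, 0)) := by
    filter_upwards [hax1.eventually hgood, hY0, hvY] with t h1 h2 h3
    obtain ⟨e1, e2, e3, e4, e5, e6⟩ := h1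
    have h4 : deriv (fun t' => X (0, t')) t = fderiv ℝ φ (x t) (v t) := by
      rw [(K2_dt (hXd (0, t))).deriv, e6, h2, h3]
    have h5 : deriv (fun s => X (s, t)) 0 = fderiv ℝ φ (x t) (fderiv ℝ Y (0, t) (1, 0)) := by
      rw [(K2_ds (hXd (0, t))).deriv, e6, h2]
    have h6 : X (0, t) = φ (x t) := by
      rw [← e3, h2]
    rw [mu, h4, h5, h6]
    have hv := e5 (0, 1)
    have hw := e5 (1, 0)
    rw [h2] at e2 e4 hv hw
    rw [← h3] at hv
    exact PW1_mom hφ hS hE hl e2 e4 hv hw t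
  -- the second derivatives
  have hD : ContDiffAt ℝ 1 (fderiv ℝ Y) (0, t0) := hY2.fderiv_right (by norm_num)
  have hD' : DifferentiableAt ℝ (fderiv ℝ Y) (0, t0) := hD.differentiableAt (by norm_num)
  have hsymm : IsSymmSndFDerivAt ℝ Y (0, t0) := hY2.isSymmSndFDerivAt (by simp)
  have hdts : HasDerivAt (fun t => fderiv ℝ Y (0, t) (1, 0))
      (fderiv ℝ (fderiv ℝ Y) (0, t0) (0, 1) (1, 0)) t0 := by
    have h1 : HasDerivAt (fun t => fderiv ℝ Y (0, t)) (fderiv ℝ (fderiv ℝ Y) (0, t0) (0, 1)) t0 := K2_dt hD'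
    have h2 := h1.clm_apply (hasDerivAt_const t0 ((1, 0) : ℝ × ℝ))
    simpa using h2
  have hdst : HasDerivAt (fun s => fderiv ℝ Y (s, t0) (0, 1))
      (fderiv ℝ (fderiv ℝ Y) (0, t0) (1, 0) (0, 1)) 0 := by
    have h1 : HasDerivAt (fun s => fderiv ℝ Y (s, t0)) (fderiv ℝ (fderiv ℝ Y) (0, t0) (1, 0)) 0 := K2_ds hD'
    have h2 := h1.clm_apply (hasDerivAt_const (0 : ℝ) ((0, 1) : ℝ × ℝ))
    simpa using h2
  have hsy : fderiv ℝ (fderiv ℝ Y) (0, t0) (1, 0) (0, 1) = fderiv ℝ (fderiv ℝ Y) (0, t0) (0, 1) (1, 0) :=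
    hsymm (1, 0) (0, 1)
  -- left side
  have hleft : HasDerivAt (mu M P X) (inner ℝ (gu l (x t0) (v t0) t0)
      (fderiv ℝ (fderiv ℝ Y) (0, t0) (0, 1) (1, 0)) +
      inner ℝ (gx (lf l (fw φ χ R f h.1)) (x t0) (v t0) t0) (fderiv ℝ Y (0, t0) (1, 0))) t0 := by
    have h1 := hp.inner ℝ hdts
    exact h1.congr_of_eventuallyEq hmu
  -- right side
  obtain ⟨H, hH⟩ : ∃ H : Vec m × Vec m × ℝ → ℝ, H = fun p => lf l (fw φ χ R f h.1) p.1 p.2.1 p.2.2 :=
    ⟨_, rfl⟩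
  have hH2 : ContDiff ℝ 2 (fun p : Vec m × Vec m × ℝ => lf l (fw φ χ R f h.1) p.1 p.2.1 p.2.2) := by
    have h1 : ContDiff ℝ 2 (fun p : Vec m × Vec m × ℝ => ((p.1, p.2.2) : Vec m × ℝ)) := by fun_prop
    exact hl.add (hf.comp h1)
  have hright : HasDerivAt (fun s => P (X (s, t0), deriv (fun t' => X (s, t')) t0, t0) +
      f.toFun (X (s, t0), t0)) (inner ℝ (gu l (x t0) (v t0) t0)
      (fderiv ℝ (fderiv ℝ Y) (0, t0) (0, 1) (1, 0)) +
      inner ℝ (gx (lf l (fw φ χ R f h.1)) (x t0) (v t0) t0) (fderiv ℝ Y (0, t0) (1, 0))) 0 := by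
    have h1 : (fun s => P (X (s, t0), deriv (fun t' => X (s, t')) t0, t0) +
        f.toFun (X (s, t0), t0)) =ᶠ[𝓝 0] fun s => H (Y (s, t0), fderiv ℝ Y (s, t0) (0, 1), t0) := by
      filter_upwards [hax2.eventually hgood] with s h1
      obtain ⟨e1, e2, e3, e4, e5, e6⟩ := h1
      rw [(K2_dt (hXd (s, t0))).deriv, e6, ← e3, hH]
      show _ = lf l (fw φ χ R f h.1) (Y (s, t0)) (fderiv ℝ Y (s, t0) (0, 1)) t0
      rw [lf, hE _ e2.1 e4 _ (e5 _) t0, pot_eq hT f h e2.1 e4 t0]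
    have h2 : HasDerivAt (fun s => ((Y (s, t0), fderiv ℝ Y (s, t0) (0, 1), t0) : Vec m × Vec m × ℝ))
        (fderiv ℝ Y (0, t0) (1, 0), fderiv ℝ (fderiv ℝ Y) (0, t0) (1, 0) (0, 1), 0) 0 :=
      (K2_ds (g1.differentiableAt (by norm_num))).prodMk (hdst.prodMk (hasDerivAt_const _ _))
    have h3 : HasFDerivAt H (fderiv ℝ H (x t0, v t0, t0))
        ((fun s => ((Y (s, t0), fderiv ℝ Y (s, t0) (0, 1), t0) : Vec m × Vec m × ℝ)) 0) := by
      have h4 : ((fun s => ((Y (s, t0), fderiv ℝ Y (s, t0) (0, 1), t0) : Vec m × Vec m × ℝ)) 0) =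
          (x t0, v t0, t0) := by
        show ((Y (0, t0), fderiv ℝ Y (0, t0) (0, 1), t0) : Vec m × Vec m × ℝ) = (x t0, v t0, t0)
        rw [hY00, ← hvY.self_of_nhds]
      rw [h4, hH]
      exact ((hH2.differentiable (by norm_num)) _).hasFDerivAt
    have h5 := HasFDerivAt.comp_hasDerivAt (0 : ℝ) (l := H)
      (f := fun s => ((Y (s, t0), fderiv ℝ Y (s, t0) (0, 1), t0) : Vec m × Vec m × ℝ)) h3 h2
    have h6 : fderiv ℝ H (x t0, v t0, t0)
        (fderiv ℝ Y (0, t0) (1, 0), fderiv ℝ (fderiv ℝ Y) (0, t0) (1, 0) (0, 1), 0) =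
        inner ℝ (gu l (x t0) (v t0) t0) (fderiv ℝ (fderiv ℝ Y) (0, t0) (0, 1) (1, 0)) +
        inner ℝ (gx (lf l (fw φ χ R f h.1)) (x t0) (v t0) t0) (fderiv ℝ Y (0, t0) (1, 0)) := by
      have h7 : ((fderiv ℝ Y (0, t0) (1, 0), fderiv ℝ (fderiv ℝ Y) (0, t0) (1, 0) (0, 1), (0 : ℝ)) :
          Vec m × Vec m × ℝ) = (0, fderiv ℝ (fderiv ℝ Y) (0, t0) (1, 0) (0, 1), 0) +
          (fderiv ℝ Y (0, t0) (1, 0), 0, 0) := by
        simp
      have h8 : gu (lf l (fw φ χ R f h.1)) (x t0) (v t0) t0 = gu l (x t0) (v t0) t0 := by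
        have h9 : fderiv ℝ (fun w => lf l (fw φ χ R f h.1) (x t0) w t0) (v t0) =
            fderiv ℝ (fun w => l (x t0) w t0) (v t0) := by
          show fderiv ℝ (fun w => l (x t0) w t0 + fw φ χ R f h.1 (x t0) t0) (v t0) = _
          rw [fderiv_add_const]
        unfold gu gradient
        rw [h9]
      rw [h7, map_add, hH, ← A12b_gu hH2, ← A12b_gx hH2, h8, hsy]
    rw [h6] at h5
    exact HasDerivAt.congr_of_eventuallyEq h5 h1
  rw [hright.deriv]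
  exact hleft

theorem PW1_zero (hk : 2 ≤ k) {P : Lag d}
    (hS : ContDiffOn ℝ 2 (fun q : Vec d × Vec d × ℝ => P (M.r q.1, fderiv ℝ M.r q.1 q.2.1, q.2.2)) {q | q.1 ∈ M.U})
    (f : EscM.Pot M k) {X : ℝ × ℝ → Vec d} {a b : ℝ}
    (hab : a < b) (hX : ContDiff ℝ 2 X) (hXN : ∀ q, X q ∈ M.N)
    (he : ∀ s, X (s, a) = X (0, a) ∧ X (s, b) = X (0, b))
    (hd : ∀ t ∈ Ioo a b, HasDerivAt (mu M P X)
      (deriv (fun s => P (X (s, t), deriv (fun t' => X (s, t')) t, t) + f.toFun (X (s, t), t)) 0) t) :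
    HasDerivAt (fun s => ∫ t in a..b, (P (X (s, t), deriv (fun t' => X (s, t')) t, t) +
      f.toFun (X (s, t), t))) 0 0 := by
  have hD : ContDiff ℝ 1 (fderiv ℝ X) := hX.fderiv_right (by norm_num)
  have hXs : ContDiff ℝ 1 (fun z => fderiv ℝ X z (1, 0)) := hD.clm_apply contDiff_const
  have hXt : ContDiff ℝ 1 (fun z => fderiv ℝ X z (0, 1)) := hD.clm_apply contDiff_const
  have hXd : ∀ z, HasFDerivAt X (fderiv ℝ X z) z := fun z =>
    (hX.differentiable (by norm_num) z).hasFDerivAt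
  have hdt : ∀ s t : ℝ, HasDerivAt (fun t' => X (s, t')) (fderiv ℝ X (s, t) (0, 1)) t := by
    intro s t
    have h2 : HasDerivAt (fun t' : ℝ => (s, t')) ((0 : ℝ), (1 : ℝ)) t :=
      (hasDerivAt_const t s).prodMk (hasDerivAt_id t)
    exact (hXd (s, t)).comp_hasDerivAt t h2
  have hds : ∀ s t : ℝ, HasDerivAt (fun s' => X (s', t)) (fderiv ℝ X (s, t) (1, 0)) s := by
    intro s t
    have h2 : HasDerivAt (fun s' : ℝ => (s', t)) ((1 : ℝ), (0 : ℝ)) s :=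
      (hasDerivAt_id s).prodMk (hasDerivAt_const s t)
    exact (hXd (s, t)).comp_hasDerivAt s h2
  have hr : ∀ q, M.r (X q) = X q := fun q => K3_r_self M (hXN q)
  have hU : ∀ q, X q ∈ M.U := fun q => M.sub (hXN q)
  obtain ⟨H, hH⟩ : ∃ H : Vec d × Vec d × ℝ → ℝ,
      H = fun q => P (M.r q.1, fderiv ℝ M.r q.1 q.2.1, q.2.2) := ⟨_, rfl⟩
  have hHc : ContDiffOn ℝ 2 H {q | q.1 ∈ M.U} := by rw [hH]; exact hS
  have hSo : IsOpen {q : Vec d × Vec d × ℝ | q.1 ∈ M.U} := M.isOpen.preimage continuous_fst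
  have hLH : ∀ z : ℝ × ℝ, P (X z, fderiv ℝ X z (0, 1), z.2) = H (X z, fderiv ℝ X z (0, 1), z.2) := by
    intro z
    rw [hH]
    simp only
    rw [hr, K3_tangent M hX hXN]
  obtain ⟨g, hg⟩ : ∃ g : ℝ × ℝ → ℝ,
      g = fun z => H (X z, fderiv ℝ X z (0, 1), z.2) + f.toFun (X z, z.2) := ⟨_, rfl⟩
  have hgc : ContDiff ℝ 1 g := by
    rw [hg]
    refine ContDiff.add ?_ ?_
    · exact (hHc.of_le (by norm_num)).comp_contDiff
        ((hX.of_le (by norm_num)).prodMk (hXt.prodMk contDiff_snd)) (fun z => hU z)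
    · have hk1 : (1 : WithTop ℕ∞) ≤ (k : WithTop ℕ∞) := by
        have h12 : (1 : ℕ∞) ≤ k := le_trans (by norm_num) hk
        exact_mod_cast h12
      exact (f.contDiff.of_le hk1).comp_contDiff
        ((hX.of_le (by norm_num)).prodMk contDiff_snd) (fun z => hU z)
  have e0 : ∀ s t : ℝ, P (X (s, t), deriv (fun t' => X (s, t')) t, t) + f.toFun (X (s, t), t) =
      g (s, t) := by
    intro s t
    rw [(hdt s t).deriv, hg]
    have := hLH (s, t)
    simp only at this ⊢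
    rw [this]
  have e1 : (fun s => ∫ t in a..b, (P (X (s, t), deriv (fun t' => X (s, t')) t, t) +
      f.toFun (X (s, t), t))) = fun s => ∫ t in a..b, g (s, t) := by
    funext s
    exact intervalIntegral.integral_congr fun t _ => e0 s t
  rw [e1]
  have h1 := A12b_par hgc a b
  have hgd : ∀ t, deriv (fun s => g (s, t)) 0 = fderiv ℝ g (0, t) (1, 0) := by
    intro t
    have h2 : HasFDerivAt g (fderiv ℝ g (0, t)) (0, t) :=
      (hgc.differentiable one_ne_zero (0, t)).hasFDerivAt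
    have h3 : HasDerivAt (fun s' : ℝ => (s', t)) ((1 : ℝ), (0 : ℝ)) 0 :=
      (hasDerivAt_id (0 : ℝ)).prodMk (hasDerivAt_const (0 : ℝ) t)
    exact (h2.comp_hasDerivAt (0 : ℝ) h3).deriv
  have hd' : ∀ t ∈ Ioo a b, HasDerivAt (mu M P X) (fderiv ℝ g (0, t) (1, 0)) t := by
    intro t ht
    have h2 := hd t ht
    have h3 : (fun s => P (X (s, t), deriv (fun t' => X (s, t')) t, t) + f.toFun (X (s, t), t)) =
        fun s => g (s, t) := funext fun s => e0 s t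
    rw [h3, hgd] at h2
    exact h2
  -- the momentum is continuous
  have hmu : ∀ t, mu M P X t = fderiv ℝ H (X (0, t), fderiv ℝ X (0, t) (0, 1), t)
      (0, fderiv ℝ X (0, t) (1, 0), 0) := by
    intro t
    unfold mu
    rw [(hdt 0 t).deriv, (hds 0 t).deriv]
    have h2 : (fun u => P (X (0, t), fderiv ℝ M.r (X (0, t)) u, t)) =
        H ∘ (fun u : Vec d => (X (0, t), u, t)) := by
      funext u
      rw [Function.comp_apply, hH]
      simp only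
      rw [hr]
    rw [h2]
    have h3 : HasFDerivAt H (fderiv ℝ H (X (0, t), fderiv ℝ X (0, t) (0, 1), t))
        (X (0, t), fderiv ℝ X (0, t) (0, 1), t) :=
      ((hHc.differentiableOn (by norm_num)).differentiableAt
        (hSo.mem_nhds (hU (0, t)))).hasFDerivAt
    have h4 : HasFDerivAt (fun w : Vec d => (X (0, t), w, t))
        ((ContinuousLinearMap.inr ℝ (Vec d) (Vec d × ℝ)).comp
          (ContinuousLinearMap.inl ℝ (Vec d) ℝ)) (fderiv ℝ X (0, t) (0, 1)) := by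
      have h5 : HasFDerivAt (fun w : Vec d => (w, t)) (ContinuousLinearMap.inl ℝ (Vec d) ℝ)
          (fderiv ℝ X (0, t) (0, 1)) := hasFDerivAt_prodMk_left _ t
      exact (hasFDerivAt_prodMk_right (X (0, t)) (fderiv ℝ X (0, t) (0, 1), t)).comp _ h5
    rw [(HasFDerivAt.comp (fderiv ℝ X (0, t) (0, 1)) h3 h4).fderiv]
    simp
  have hcont : Continuous (mu M P X) := by
    have h2 : mu M P X = fun t => fderiv ℝ H (X (0, t), fderiv ℝ X (0, t) (0, 1), t)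
      (0, fderiv ℝ X (0, t) (1, 0), 0) := funext hmu
    rw [h2]
    have h3 : ContinuousOn (fderiv ℝ H) {q | q.1 ∈ M.U} :=
      hHc.continuousOn_fderiv_of_isOpen hSo (by norm_num)
    have h0t : Continuous (fun t : ℝ => ((0 : ℝ), t)) := continuous_const.prodMk continuous_id
    have h4 : Continuous (fun t : ℝ => (X (0, t), fderiv ℝ X (0, t) (0, 1), t)) :=
      (hX.continuous.comp h0t).prodMk ((hXt.continuous.comp h0t).prodMk continuous_id)
    have h5 : Continuous (fun t : ℝ => fderiv ℝ H (X (0, t), fderiv ℝ X (0, t) (0, 1), t)) :=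
      h3.comp_continuous h4 (fun t => hU (0, t))
    refine h5.clm_apply ?_
    exact continuous_const.prodMk ((hXs.continuous.comp h0t).prodMk continuous_const)
  have hzero : ∀ t, (∀ s, X (s, t) = X (0, t)) → mu M P X t = 0 := by
    intro t ht
    unfold mu
    have h2 : deriv (fun s => X (s, t)) 0 = 0 := by
      have h3 : (fun s => X (s, t)) = fun _ => X (0, t) := funext ht
      rw [h3, deriv_const]
    rw [h2, map_zero]
  have e2 : (∫ t in a..b, fderiv ℝ g (0, t) (1, 0)) = 0 := by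
    have hci : Continuous (fun t : ℝ => fderiv ℝ g (0, t) (1, 0)) :=
      ((hgc.continuous_fderiv one_ne_zero).comp
        (continuous_const.prodMk continuous_id)).clm_apply continuous_const
    rw [intervalIntegral.integral_eq_sub_of_hasDerivAt_of_le hab.le hcont.continuousOn hd'
      (hci.intervalIntegrable _ _), hzero a (fun s => (he s).1), hzero b (fun s => (he s).2),
      sub_zero]
  rw [e2] at h1
  exact h1

theorem local_varG (hC : CutW M' O K B ρ a0 Ψ Ψ₂ ℓ) (hT : TubeW M' O K ρ a0 χ R)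
    (hφ : IsChart M M' O G φ) (hL : IsNearT M κ F L) {e : ℝ} {g : ℝ → ℝ} (hg : EscP.Pw e g)
    {ρ' : ℝ} (hρ : 0 < ρ') (hle : ρ' ≤ ρ) {Λ Λ₁ : ℝ}
    (f : EscM.Pot M k) (h : YW M' K a0 k) {l : Vec m → Vec m → ℝ → ℝ}
    (hl0 : l = fun x v t => g (Lt M'.N M'.r ρ' Λ (L1 φ L Ψ Λ₁) x v t))
    (hl : ContDiff ℝ 2 (fun p : Vec m × Vec m × ℝ => l p.1 p.2.1 p.2.2))
    (hf : ContDiff ℝ 2 (fun p : Vec m × ℝ => fw φ χ R f h.1 p.1 p.2)) {x v : ℝ → Vec m} {t0 : ℝ}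
    (hx : ∀ᶠ t in 𝓝 t0, HasDerivAt x (v t) t) (hxK : ∀ᶠ t in 𝓝 t0, x t ∈ K)
    (hp : HasDerivAt (fun t => gu l (x t) (v t) t) (gx (lf l (fw φ χ R f h.1)) (x t0) (v t0) t0) t0)
    {X : ℝ × ℝ → Vec d} (hX : ContDiff ℝ 2 X) (hXN : ∀ q, X q ∈ M.N)
    (hX0 : ∀ᶠ t in 𝓝 t0, X (0, t) = φ (x t)) :
    HasDerivAt (mu M (fun q => g (L q)) X) (deriv (fun s => g (L (X (s, t0), deriv (fun t' => X (s, t')) t0, t0)) +
      f.toFun (X (s, t0), t0)) 0) t0 := by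
  refine PW1_var (P := fun q => g (L q)) hC hT hφ f h (hg.smooth.comp_contDiffOn hL.smooth)
    (fun y hy hK w hw t => ?_) hl hf hx hxK hp hX hXN hX0
  rw [hl0]
  show g (L (φ y, fderiv ℝ φ y w, t)) = g (Lt M'.N M'.r ρ' Λ (L1 φ L Ψ Λ₁) y w t)
  rw [lag_eq hC hρ hle Λ Λ₁ hy hK hw t]

theorem var_zeroG (hk : 2 ≤ k) (hL : IsNearT M κ F L) {e : ℝ} {g : ℝ → ℝ} (hg : EscP.Pw e g)
    (f : EscM.Pot M k) {X : ℝ × ℝ → Vec d} {a b : ℝ}
    (hab : a < b) (hX : ContDiff ℝ 2 X) (hXN : ∀ q, X q ∈ M.N)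
    (he : ∀ s, X (s, a) = X (0, a) ∧ X (s, b) = X (0, b))
    (hd : ∀ t ∈ Ioo a b, HasDerivAt (mu M (fun q => g (L q)) X)
      (deriv (fun s => g (L (X (s, t), deriv (fun t' => X (s, t')) t, t)) + f.toFun (X (s, t), t)) 0) t) :
    HasDerivAt (fun s => ∫ t in a..b, (g (L (X (s, t), deriv (fun t' => X (s, t')) t, t)) +
      f.toFun (X (s, t), t))) 0 0 := by
  exact PW1_zero (P := fun q => g (L q)) hk (hg.smooth.comp_contDiffOn hL.smooth) f hab hX hXN he hd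

end EscW.Pg
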