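import Pool.Agent.EscW.PDefs3
import Pool.Agent.EscW.PT2
import Pool.Agent.EscW.PW1
import Pool.Agent.EscW.LL1
import Pool.Agent.EscT.A2b

/-!
Module PW2: back to `M` (copy of `LL1_backW`, LL1.lean, for `g ∘ L`). Regularity: `K4_reg` for `l = g ∘ Lt` needs `ContDiff ℝ 2` and strong convexity; `g ∘ Lt` is
only locally strongly convex (`g'` bounded below on `[min Lt, ∞)`: `Lt ≥ -C`, `g' ≥ g' (-C) > 0`, so `g ∘ Lt` is strongly convex with the constant `g' (-C) m'`: fine).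
-/

set_option autoImplicit false

noncomputable section

namespace EscW.Pg

open MeasureTheory Set Filter Topology Esc EscF EscG EscM EscMT EscF.T EscW EscW.Lo
open scoped ContDiff UniformConvergence

variable {d m : ℕ} {M : Sub d} {M' : Sub m} {O K : Set (Vec m)} {G : Subgroup (Vec m ≃ₗᵢ[ℝ] Vec m)}
  {φ : Vec m → Vec d} {κ : ℝ → ℝ} {F : Vec d → Vec d → ℝ → ℝ} {L : Lag d} {B : Vec m → ℝ → ℝ} {i : Fin m}
  {len a : ℝ} {c : ℝ → ℝ → Vec m} {ρ a0 : ℝ} {Ψ Ψ₂ χ : Vec m → ℝ} {R : Vec m → Vec m} {ℓ : Vec m →L[ℝ] ℝ} {k : ℕ∞}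

/-- the gradient of `g ∘ l` in the velocity -/
private theorem PW2_gu {E : Type*} [NormedAddCommGroup E] [InnerProductSpace ℝ E] [FiniteDimensional ℝ E]
    {l2 : E → E → ℝ → ℝ} {e : ℝ} {g : ℝ → ℝ} (hg : EscP.Pw e g)
    (hl : ContDiff ℝ 2 (fun p : E × E × ℝ => l2 p.1 p.2.1 p.2.2)) (x v : E) (t : ℝ) :
    gu (fun x v t => g (l2 x v t)) x v t = deriv g (l2 x v t) • gu l2 x v t := by
  have hs : ContDiff ℝ 2 (fun w : E => l2 x w t) :=
    hl.comp (contDiff_const.prodMk (contDiff_id.prodMk contDiff_const))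
  have h1 : HasFDerivAt (fun w : E => l2 x w t) (fderiv ℝ (fun w : E => l2 x w t) v) v :=
    ((hs.differentiable (by norm_num)) v).hasFDerivAt
  have h2 : HasDerivAt g (deriv g (l2 x v t)) (l2 x v t) :=
    ((hg.smooth.differentiable (by norm_num)) _).hasDerivAt
  have h3 := h2.comp_hasFDerivAt v h1
  have h4 : HasFDerivAt (fun w : E => (fun x v t => g (l2 x v t)) x w t)
      (deriv g (l2 x v t) • fderiv ℝ (fun w : E => l2 x w t) v) v := h3
  unfold gu gradient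
  rw [h4.fderiv]
  simp

private theorem PW2_d {e : ℝ} {g : ℝ → ℝ} (hg : EscP.Pw e g) :
    Differentiable ℝ g ∧ Differentiable ℝ (deriv g) := by
  have hd : Differentiable ℝ g := hg.smooth.differentiable (by norm_num)
  have hd1 : ContDiff ℝ 1 (deriv g) := by
    have h5 : (1 + 1 : WithTop ℕ∞) = 2 := by norm_num
    have h6 : ContDiff ℝ (1 + 1) g := by rw [h5]; exact hg.smooth
    exact (contDiff_succ_iff_deriv.1 h6).2.2
  exact ⟨hd, hd1.differentiable (by norm_num)⟩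

private theorem PW2_conv {e : ℝ} {g : ℝ → ℝ} (hg : EscP.Pw e g) (y z : ℝ) :
    g y + deriv g y * (z - y) ≤ g z := by
  obtain ⟨hd, hd2⟩ := PW2_d hg
  have hc : ConvexOn ℝ univ g := convexOn_univ_of_deriv2_nonneg hd hd2 fun x => by
    simpa using hg.d2 x
  rcases lt_trichotomy y z with h | h | h
  · have h7 := hc.deriv_le_slope (mem_univ y) (mem_univ z) h (hd y)
    rw [slope_def_field, le_div_iff₀ (by linarith)] at h7
    linarith
  · subst h
    simp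
  · have h7 := hc.slope_le_deriv (mem_univ z) (mem_univ y) h (hd y)
    rw [slope_def_field, div_le_iff₀ (by linarith)] at h7
    linarith

private theorem PW2_mono {e : ℝ} {g : ℝ → ℝ} (hg : EscP.Pw e g) : Monotone (deriv g) :=
  monotone_of_deriv_nonneg (PW2_d hg).2 hg.d2

/-- strong convexity of `g ∘ l` -/
private theorem PW2_strong {ι : Type*} [Fintype ι] {E : Type*} [NormedAddCommGroup E]
    [InnerProductSpace ℝ E] [FiniteDimensional ℝ E] {β : Module.Basis ι ℝ E} {m' M₁ : ℝ}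
    {l2 : E → E → ℝ → ℝ} {e : ℝ} {g : ℝ → ℝ} (hg : EscP.Pw e g) (hl : EscT.TG β m' M₁ l2) :
    ∃ m'' : ℝ, 0 < m'' ∧ ∀ x u v t, g (l2 x v t) +
      inner ℝ (gu (fun x v t => g (l2 x v t)) x v t) (u - v) + m'' / 2 * ‖u - v‖ ^ 2 ≤ g (l2 x u t) := by
  refine ⟨deriv g (-EscT.gC m' M₁) * m', mul_pos (hg.d1 _) hl.m_pos, fun x u v t => ?_⟩
  have h1 := hl.conv x u v t
  have h2 := PW2_conv hg (l2 x v t) (l2 x u t)
  have h3 := hl.low x v t
  have h4 : deriv g (-EscT.gC m' M₁) ≤ deriv g (l2 x v t) := PW2_mono hg (by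
    have h5 : 0 ≤ m' / 4 * ‖v‖ ^ 2 := mul_nonneg (by linarith [hl.m_pos]) (sq_nonneg _)
    linarith)
  have h5 := hg.d1 (l2 x v t)
  rw [PW2_gu hg hl.smooth, real_inner_smul_left]
  have h6 := mul_le_mul_of_nonneg_left h1 h5.le
  have h7 : 0 ≤ m' / 2 * ‖u - v‖ ^ 2 := mul_nonneg (by linarith [hl.m_pos]) (sq_nonneg _)
  have h8 := mul_le_mul_of_nonneg_right h4 h7
  have e1 : deriv g (-EscT.gC m' M₁) * m' / 2 * ‖u - v‖ ^ 2 =
      deriv g (-EscT.gC m' M₁) * (m' / 2 * ‖u - v‖ ^ 2) := by ring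
  rw [e1]
  nlinarith

theorem backG (hk : 2 ≤ k) (hC : CutW M' O K B ρ a0 Ψ Ψ₂ ℓ) (hT : TubeW M' O K ρ a0 χ R)
    (hφ : IsChart M M' O G φ) {W : Set (Vec d)} (hW : ∀ x ∈ K, Ov W (φ x)) (hL : IsNearT M κ F L)
    {e : ℝ} {g : ℝ → ℝ} (hg : EscP.Pw e g) {ρ' Λ Λ₁ m₁ : ℝ} (hρ : 0 < ρ') (hle : ρ' ≤ ρ)
    (hΛ : 0 < Λ) (hLS : LagS (bas m) M'.N M'.r (5 * ρ) m₁ (L1 φ L Ψ Λ₁)) {m' M₁ : ℝ}
    (hTG : EscT.TG (bas m) m' M₁ (Lt M'.N M'.r ρ' Λ (L1 φ L Ψ Λ₁))) (f : EscM.Pot M k)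
    (h : YW M' K a0 k) (hf : ContDiff ℝ 2 (fun p : Vec m × ℝ => fw φ χ R f h.1 p.1 p.2)) {x0 : Vec m}
    (he : EscK.EscapesFrom (fun x v t => g (Lt M'.N M'.r ρ' Λ (L1 φ L Ψ Λ₁) x v t)) (fw φ χ R f h.1) x0 K) :
    EscapesIn M W (fun q => g (L q) + f.toFun (q.1, q.2.2)) := by
  obtain ⟨t0, x, v, ht0, -, -, hxv, hvc, hgu, hxK, hvt⟩ := he
  have hpos : ∀ t : ℝ, 0 < t → t0 < t := fun t ht => lt_of_le_of_lt ht0 ht
  have hρC := hC.ρ_pos
  have hKO : ∀ y ∈ K, y ∈ M'.N ∩ O := fun y hy =>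
    ⟨hC.subK hy, hC.room y (by
      rw [Metric.infDist_zero_of_mem hy]
      linarith [hC.a0_pos])⟩
  have hl : ContDiff ℝ 2 (fun p : Vec m × Vec m × ℝ =>
      (fun x v t => g (Lt M'.N M'.r ρ' Λ (L1 φ L Ψ Λ₁) x v t)) p.1 p.2.1 p.2.2) :=
    hg.smooth.comp hTG.smooth
  obtain ⟨m'', hm'', hconv⟩ := PW2_strong hg hTG
  have hdx : ∀ t, 0 < t → HasDerivAt x (v t) t := fun t ht => hxv t (hpos t ht)
  have hx2 : ContDiffOn ℝ 2 x (Ioi 0) := K4_reg hl hm'' hconv hf ht0 hxv hvc hgu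
  have hxO : ∀ t, 0 < t → x t ∈ M'.N ∩ O := fun t ht => hKO _ (hxK t (hpos t ht).le)
  have hφd : ∀ y ∈ O, DifferentiableAt ℝ φ y := fun y hy =>
    (hφ.smooth.contDiffAt (hφ.isOpen.mem_nhds hy)).differentiableAt (by norm_num)
  have hyd : ∀ t, 0 < t → HasDerivAt (fun t => φ (x t)) (fderiv ℝ φ (x t) (v t)) t := fun t ht =>
    (hφd _ (hxO t ht).2).hasFDerivAt.comp_hasDerivAt t (hdx t ht)
  refine ⟨fun t => φ (x t), ⟨?_, fun t ht => hφ.maps _ (hxO t ht), ?_⟩,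
    fun t ht => hW _ (hxK t (hpos t ht).le), ?_⟩
  · exact (hφ.smooth.of_le (K4_two_le)).comp hx2 fun t ht => (hxO t ht).2
  · intro a b X ha hab hX hXN hX0 hXe
    refine var_zeroG hk hL hg f hab hX hXN (fun s => ⟨?_, ?_⟩) ?_
    · rw [(hXe s).1, (hXe 0).1]
    · rw [(hXe s).2, (hXe 0).2]
    · intro t ht
      have htp : 0 < t := ha.trans ht.1
      exact local_varG hC hT hφ hL hg hρ hle f h rfl hl hf
        (by
          filter_upwards [lt_mem_nhds htp] with s hs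
          exact hdx s hs)
        (by
          filter_upwards [lt_mem_nhds htp] with s hs
          exact hxK s (hpos s hs).le)
        (hgu t (hpos t htp)) hX hXN
        (by
          filter_upwards [Ioo_mem_nhds ht.1 ht.2] with s hs
          exact hX0 s ⟨hs.1.le, hs.2.le⟩)
  · obtain ⟨c1, c2, hc1, -, hb⟩ := hC.bounds hφ
    have h1 : Tendsto (fun t => c1 * ‖v t‖) atTop atTop := hvt.const_mul_atTop hc1
    refine tendsto_atTop_mono' _ ?_ h1
    filter_upwards [eventually_gt_atTop (0 : ℝ)] with t ht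
    rw [(hyd t ht).deriv]
    have h2 : IsTangent M' (x t) (v t) := K4_tangent M' (by
      filter_upwards [lt_mem_nhds ht] with s hs
      exact (hxO s hs).1) (hdx t ht)
    exact (hb (x t) (hxO t ht).1 (by
      rw [Metric.infDist_zero_of_mem (hxK t (hpos t ht).le)]
      linarith [hC.a0_pos]) (v t) h2).1

end EscW.Pg
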