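import Pool.Agent.EscW.PDefs3
import Pool.Agent.EscW.PT2
import Pool.Agent.EscW.X5
import Pool.Agent.EscW.PE1b
import Pool.Agent.EscG.F2b

/-!
Module PX5: orbits of `g ∘ Lt` stay on the submanifold (compare `staysK` in X5.lean). Write `l = Lt N r ρ Λ L`,
`G t = g' (l (x t) (v t) t) > 0`, `ν = x - r x`, `W = ‖ν‖² + kap ρ / 2 ‖ν‖⁴`, `P = ⟪gu (g ∘ l), ν⟫ = G ⟪gu l, ν⟫`. Then `W' = 2 P / G`,
`P' ≥ G (kap ρ / 4) W ‖v‖²`. If `P s > 0` for some `s` then `P > 0` and `W` is increasing after `s`. The energy `e` of `g ∘ l + f`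
satisfies `c G ‖v‖² ≤ e ≤ C G ‖v‖²` and `|e'| ≤ C e` for large times, hence `y = P / e` satisfies `y' ≥ c - C y`, and
`W' ≥ c y`, so `y + C W` grows linearly, `W` is bounded, so `y ≥ 1` for large times and `W` is unbounded: contradiction.
-/

set_option autoImplicit false

noncomputable section

namespace EscW.Pg

open MeasureTheory Set Filter Topology Esc EscF EscG EscM EscMT EscW
open scoped ContDiff

/-! ### differential inequalities -/

/-- a function with the derivative at least `c` grows at least linearly -/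
theorem PX5_grow {F F' : ℝ → ℝ} {a c : ℝ} (hF : ∀ t, a ≤ t → HasDerivAt F (F' t) t)
    (hc : ∀ t, a ≤ t → c ≤ F' t) (t : ℝ) (ht : a ≤ t) : F a + c * (t - a) ≤ F t := by
  have hm : MonotoneOn (fun τ => F τ - c * (τ - a)) (Ici a) := by
    have hd : ∀ τ, a ≤ τ → HasDerivAt (fun τ => F τ - c * (τ - a)) (F' τ - c * 1) τ := fun τ hτ =>
      (hF τ hτ).sub (((hasDerivAt_id τ).sub_const a).const_mul c)
    refine monotoneOn_of_deriv_nonneg (convex_Ici a)
      (fun τ hτ => (hd τ hτ).continuousAt.continuousWithinAt) ?_ ?_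
    · rw [interior_Ici]
      exact fun τ hτ => (hd τ (le_of_lt hτ)).differentiableAt.differentiableWithinAt
    · rw [interior_Ici]
      intro τ hτ
      rw [(hd τ (le_of_lt hτ)).deriv]
      have := hc τ (le_of_lt hτ)
      linarith
  have h1 := hm (mem_Ici.2 le_rfl) (mem_Ici.2 ht) ht
  simp only [sub_self, mul_zero, sub_zero] at h1
  linarith

/-- the differential inequalities for `W`, `P`, `e` force `W = 0` -/
theorem PX5_ode {t0 C t2 c c1 C2 : ℝ} {W P G e P' e' : ℝ → ℝ} (hWc : ContinuousOn W (Ici t0))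
    (hG : ∀ t, t0 < t → 0 < G t) (hW : ∀ t, t0 < t → HasDerivAt W (2 * (P t / G t)) t)
    (hP : ∀ t, t0 < t → HasDerivAt P (P' t) t) (hP' : ∀ t, t0 < t → 0 ≤ P' t) (h0 : W t0 = 0)
    (hn : ∀ t, t0 ≤ t → 0 ≤ W t) (hC : ∀ t, t0 ≤ t → W t ≤ C)
    (he : ∀ t, t0 < t → HasDerivAt e (e' t) t) (hc : 0 < c) (hc1 : 0 < c1) (hC2 : 0 ≤ C2)
    (hb : ∀ t, t0 < t → t2 ≤ t → c1 * G t ≤ e t ∧ c * W t * e t ≤ P' t ∧ |e' t| ≤ C2 * e t)
    (t : ℝ) (ht : t0 ≤ t) : W t = 0 := by
  have hPm : MonotoneOn P (Ioi t0) := by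
    refine monotoneOn_of_deriv_nonneg (convex_Ioi t0)
      (fun s hs => (hP s hs).continuousAt.continuousWithinAt) ?_ ?_
    · rw [interior_Ioi]
      exact fun s hs => (hP s hs).differentiableAt.differentiableWithinAt
    · rw [interior_Ioi]
      intro s hs
      rw [(hP s hs).deriv]
      exact hP' s hs
  have hPn : ∀ s, t0 < s → P s ≤ 0 := by
    intro s hs
    by_contra hcon
    push Not at hcon
    have hPp : ∀ u, s ≤ u → 0 < P u := fun u hu =>
      hcon.trans_le (hPm hs (hs.trans_le hu : t0 < u) hu)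
    have hWp : ∀ u, s ≤ u → 0 < 2 * (P u / G u) := fun u hu => by
      have h1 := hPp u hu
      have h2 := hG u (hs.trans_le hu)
      positivity
    have hWm : StrictMonoOn W (Ici s) := by
      refine strictMonoOn_of_deriv_pos (convex_Ici s)
        (fun u hu => (hW u (hs.trans_le hu)).continuousAt.continuousWithinAt) ?_
      rw [interior_Ici]
      intro u hu
      rw [(hW u (hs.trans hu)).deriv]
      exact hWp u (le_of_lt hu)
    have hw0 : 0 < W (s + 1) :=
      (hn s hs.le).trans_lt (hWm (mem_Ici.2 le_rfl) (mem_Ici.2 (by linarith)) (by linarith))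
    obtain ⟨T, hT⟩ : ∃ T, T = max (s + 1) t2 := ⟨_, rfl⟩
    have hTs : s + 1 ≤ T := by rw [hT]; exact le_max_left _ _
    have hT2 : t2 ≤ T := by rw [hT]; exact le_max_right _ _
    have hWw : ∀ u, T ≤ u → W (s + 1) ≤ W u := fun u hu =>
      hWm.monotoneOn (mem_Ici.2 (by linarith)) (mem_Ici.2 (by linarith)) (by linarith)
    have hTu : ∀ u, T ≤ u → t0 < u := fun u hu => by linarith
    have hep : ∀ u, T ≤ u → 0 < e u := fun u hu =>
      (mul_pos hc1 (hG u (hTu u hu))).trans_le (hb u (hTu u hu) (hT2.trans hu)).1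
    have hy : ∀ u, T ≤ u → HasDerivAt (fun u => P u / e u)
        ((P' u * e u - P u * e' u) / e u ^ 2) u := fun u hu =>
      (hP u (hTu u hu)).div (he u (hTu u hu)) (hep u hu).ne'
    have hy' : ∀ u, T ≤ u → c * W (s + 1) - C2 * (P u / e u) ≤
        (P' u * e u - P u * e' u) / e u ^ 2 := by
      intro u hu
      obtain ⟨b1, b2, b3⟩ := hb u (hTu u hu) (hT2.trans hu)
      have e0 := hep u hu
      have p0 := hPp u (by linarith)
      have w1 := hWw u hu
      rw [le_div_iff₀ (by positivity)]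
      have k1 : (c * W (s + 1) - C2 * (P u / e u)) * e u ^ 2 =
          c * W (s + 1) * e u * e u - P u * (C2 * e u) := by
        field_simp
      rw [k1]
      have k2 : c * W (s + 1) * e u ≤ P' u := by
        have k : c * W (s + 1) * e u ≤ c * W u * e u :=
          mul_le_mul_of_nonneg_right (mul_le_mul_of_nonneg_left w1 hc.le) e0.le
        linarith
      have k3 : c * W (s + 1) * e u * e u ≤ P' u * e u := mul_le_mul_of_nonneg_right k2 e0.le
      have k4 : P u * e' u ≤ P u * (C2 * e u) :=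
        mul_le_mul_of_nonneg_left ((le_abs_self _).trans b3) p0.le
      linarith
    have hWy : ∀ u, T ≤ u → 2 * c1 * (P u / e u) ≤ 2 * (P u / G u) := by
      intro u hu
      obtain ⟨b1, b2, b3⟩ := hb u (hTu u hu) (hT2.trans hu)
      have e0 := hep u hu
      have p0 := hPp u (by linarith)
      have g0 := hG u (hTu u hu)
      have k1 : c1 * P u / e u ≤ P u / G u := by
        rw [div_le_div_iff₀ e0 g0]
        have := mul_le_mul_of_nonneg_left b1 p0.le
        linarith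
      rw [mul_assoc, ← mul_div_assoc]
      linarith
    have hZ : ∀ u, T ≤ u → HasDerivAt (fun u => P u / e u + C2 / (2 * c1) * W u)
        ((P' u * e u - P u * e' u) / e u ^ 2 + C2 / (2 * c1) * (2 * (P u / G u))) u := fun u hu =>
      (hy u hu).add ((hW u (hTu u hu)).const_mul _)
    have hZg := PX5_grow hZ (c := c * W (s + 1)) (fun u hu => by
      have k1 := hy' u hu
      have k2 := mul_le_mul_of_nonneg_left (hWy u hu) (by positivity : 0 ≤ C2 / (2 * c1))
      have k3 : C2 / (2 * c1) * (2 * c1 * (P u / e u)) = C2 * (P u / e u) := by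
        field_simp
      rw [k3] at k2
      linarith)
    have hcw : 0 < c * W (s + 1) := mul_pos hc hw0
    have hC0 : 0 ≤ C := (hn s hs.le).trans (hC s hs.le)
    obtain ⟨T3, hT3⟩ : ∃ T3, T3 = T + (C2 / (2 * c1) * C + 1) / (c * W (s + 1)) := ⟨_, rfl⟩
    have hT3T : T ≤ T3 := by
      rw [hT3]
      have : 0 ≤ (C2 / (2 * c1) * C + 1) / (c * W (s + 1)) := by positivity
      linarith
    have hy1 : ∀ u, T3 ≤ u → 1 ≤ P u / e u := by
      intro u hu
      have k1 := hZg u (hT3T.trans hu)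
      have k2 : 0 ≤ P T / e T + C2 / (2 * c1) * W T := by
        have i1 := hPp T (by linarith)
        have i2 := hep T le_rfl
        have i3 := hn T (hTu T le_rfl).le
        positivity
      have k3 : C2 / (2 * c1) * W u ≤ C2 / (2 * c1) * C :=
        mul_le_mul_of_nonneg_left (hC u (hTu u (hT3T.trans hu)).le) (by positivity)
      have k4 : C2 / (2 * c1) * C + 1 ≤ c * W (s + 1) * (u - T) := by
        have k5 : (C2 / (2 * c1) * C + 1) / (c * W (s + 1)) ≤ u - T := by linarith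
        rw [div_le_iff₀ hcw] at k5
        linarith
      linarith
    have hWg := PX5_grow (F := W) (a := T3) (c := 2 * c1)
      (fun u hu => hW u (hTu u (hT3T.trans hu)))
      (fun u hu => by
        have k1 := hWy u (hT3T.trans hu)
        have k2 := mul_le_mul_of_nonneg_left (hy1 u hu) (by positivity : 0 ≤ 2 * c1)
        linarith)
    have k0 : 0 ≤ (C + 1) / (2 * c1) := by positivity
    have k1 := hWg (T3 + (C + 1) / (2 * c1)) (by linarith)
    have k2 : 2 * c1 * (T3 + (C + 1) / (2 * c1) - T3) = C + 1 := by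
      field_simp
      ring
    rw [k2] at k1
    have k3 := hC (T3 + (C + 1) / (2 * c1)) (by
      have := hTu T3 hT3T
      linarith)
    have k4 := hn T3 (hTu T3 hT3T).le
    linarith
  have hWa : AntitoneOn W (Ici t0) := by
    refine antitoneOn_of_deriv_nonpos (convex_Ici t0) hWc ?_ ?_
    · rw [interior_Ici]
      exact fun s hs => (hW s hs).differentiableAt.differentiableWithinAt
    · rw [interior_Ici]
      intro s hs
      rw [(hW s hs).deriv]
      have h3 : P s / G s ≤ 0 := div_nonpos_of_nonpos_of_nonneg (hPn s hs) (hG s hs).le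
      linarith
  have h1 := hWa (mem_Ici.2 le_rfl) (mem_Ici.2 ht) ht
  rw [h0] at h1
  exact le_antisymm h1 (hn t ht)

/-- the inequalities at a large velocity -/
theorem PX5_pt {m M G0 G n C k w gg e e' P' : ℝ} (hm : 0 < m) (hM : 0 ≤ M) (hG0 : 0 < G0) (hG : G0 ≤ G)
    (hC : 0 ≤ C) (hk : 0 < k) (hw : 0 ≤ w) (hgg : 0 ≤ gg) (hn : 1 ≤ n) (hn' : 4 * (M + C / G0) / m ≤ n)
    (h1 : G * (m / 2 * n - M) - C ≤ e) (h2 : e ≤ G * (gg * (2 * n)) + C)
    (h3 : |e'| ≤ G * (M * (1 + n)) + C) (h4 : G * (k * w * n) ≤ P') :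
    m / 4 * G ≤ e ∧ k / (2 * gg + C / G0 + 1) * w * e ≤ P' ∧
      |e'| ≤ (2 * M + C / G0) * (4 / m) * e := by
  obtain ⟨D, hD⟩ : ∃ D, D = C / G0 := ⟨_, rfl⟩
  rw [← hD] at hn' ⊢
  have hD0 : 0 ≤ D := by rw [hD]; positivity
  have hCD : C = D * G0 := by rw [hD]; field_simp
  have hGp : 0 < G := hG0.trans_le hG
  have hCG : C ≤ D * G := by rw [hCD]; exact mul_le_mul_of_nonneg_left hG hD0
  rw [div_le_iff₀ hm] at hn'
  have e1 : G * (m / 4 * n) ≤ e := by
    have i1 : G * (m / 4 * n) ≤ G * (m / 2 * n - M) - D * G := by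
      have i2 : G * (m / 2 * n - M) - D * G - G * (m / 4 * n) = G * (m / 4 * n - M - D) := by ring
      have i3 : 0 ≤ m / 4 * n - M - D := by linarith
      have i4 := mul_nonneg hGp.le i3
      linarith
    linarith
  have e2 : e ≤ G * (n * (2 * gg + D + 1)) := by
    have i1 : D * G ≤ G * (n * D) := by
      have i2 : D ≤ n * D := by nlinarith
      have i3 := mul_le_mul_of_nonneg_left i2 hGp.le
      linarith
    have i4 : 0 ≤ G * n := by positivity
    have i5 : G * (n * (2 * gg + D + 1)) = G * (gg * (2 * n)) + G * (n * D) + G * n := by ring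
    linarith
  refine ⟨?_, ?_, ?_⟩
  · have i1 : m / 4 * G ≤ G * (m / 4 * n) := by
      have i2 : G * (m / 4 * n) = m / 4 * G * n := by ring
      rw [i2]
      exact le_mul_of_one_le_right (by positivity) hn
    linarith
  · have i1 : 0 < 2 * gg + D + 1 := by positivity
    have i2 : k / (2 * gg + D + 1) * w * e ≤
        k / (2 * gg + D + 1) * w * (G * (n * (2 * gg + D + 1))) :=
      mul_le_mul_of_nonneg_left e2 (by positivity)
    have i3 : k / (2 * gg + D + 1) * w * (G * (n * (2 * gg + D + 1))) = G * (k * w * n) := by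
      field_simp
    rw [i3] at i2
    exact i2.trans h4
  · have i1 : G * (M * (1 + n)) + C ≤ (2 * M + D) * (G * n) := by
      have i2 : D * G ≤ D * (G * n) :=
        mul_le_mul_of_nonneg_left (le_mul_of_one_le_right hGp.le hn) hD0
      have i3 : G * (M * (1 + n)) ≤ 2 * M * (G * n) := by
        have i4 : M * (1 + n) ≤ M * (2 * n) := mul_le_mul_of_nonneg_left (by linarith) hM
        have i5 := mul_le_mul_of_nonneg_left i4 hGp.le
        linarith
      linarith
    have i6 : (2 * M + D) * (G * n) = (2 * M + D) * (4 / m) * (G * (m / 4 * n)) := by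
      field_simp
    rw [i6] at i1
    exact h3.trans (i1.trans (mul_le_mul_of_nonneg_left e1 (by positivity)))

/-! ### energy of a convex Lagrangian along an orbit -/

section En

variable {E : Type*} [NormedAddCommGroup E] [InnerProductSpace ℝ E] [FiniteDimensional ℝ E]
  {l : E → E → ℝ → ℝ}

open Asymptotics EscP EscP.PEb

theorem PX5_fdx (h : ContDiff ℝ 2 (un l)) (x v : E) (t : ℝ) :
    HasFDerivAt (fun y => l y v t)
      ((fderiv ℝ (un l) (x, v, t)).comp (ContinuousLinearMap.inl ℝ E (E × ℝ))) x := by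
  have h1 : HasFDerivAt (un l) (fderiv ℝ (un l) (x, v, t)) (x, v, t) :=
    ((h.differentiable (by norm_num)) _).hasFDerivAt
  have h2 : HasFDerivAt (fun y : E => (y, v, t)) (ContinuousLinearMap.inl ℝ E (E × ℝ)) x :=
    hasFDerivAt_prodMk_left x (v, t)
  exact h1.comp x h2

theorem PX5_lt (h : ContDiff ℝ 2 (un l)) (x v : E) (t : ℝ) :
    HasDerivAt (fun s => l x v s) (lt l x v t) t := by
  have h1 : HasFDerivAt (un l) (fderiv ℝ (un l) (x, v, t)) (x, v, t) :=
    ((h.differentiable (by norm_num)) _).hasFDerivAt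
  have h2 : HasDerivAt (fun s : ℝ => ((x, v, s) : E × E × ℝ)) (0, 0, 1) t :=
    (hasDerivAt_const t x).prodMk ((hasDerivAt_const t v).prodMk (hasDerivAt_id t))
  exact h1.comp_hasDerivAt t h2

theorem PX5_split (h : ContDiff ℝ 2 (un l)) (x v : E) (t : ℝ) (w : E) (τ : ℝ) :
    fderiv ℝ (un l) (x, v, t) (w, 0, τ) = inner ℝ (gx l x v t) w + τ * lt l x v t := by
  have h1 : ((w, 0, τ) : E × E × ℝ) = (w, 0, 0) + τ • (0, 0, 1) := by simp
  rw [h1, map_add, map_smul, smul_eq_mul]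
  congr 1
  have h2 := (PX5_fdx h x v t).fderiv
  have h3 : inner ℝ (gx l x v t) w = fderiv ℝ (fun y => l y v t) x w := by
    unfold gx gradient
    rw [InnerProductSpace.toDual_symm_apply]
  rw [h3, h2]
  rfl

variable {Z v : ℝ → E} {r : ℝ}

theorem PX5_rem (h : ContDiff ℝ 2 (un l)) (hZ : HasDerivAt Z (v r) r) {w : ℝ → E}
    (hw : Tendsto w (𝓝 r) (𝓝 (v r))) :
    (fun q => un l (Z q, w q, q) - un l (Z r, w q, r) -
      fderiv ℝ (un l) (Z r, v r, r) (Z q - Z r, 0, q - r)) =o[𝓝 r] fun q => q - r := by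
  have hs : HasStrictFDerivAt (un l) (fderiv ℝ (un l) (Z r, v r, r)) (Z r, v r, r) :=
    (h.contDiffAt (x := (Z r, v r, r))).hasStrictFDerivAt (by norm_num)
  have h1 : Tendsto (fun q : ℝ => (((Z q, w q, q), (Z r, w q, r)) : (E × E × ℝ) × (E × E × ℝ))) (𝓝 r)
      (𝓝 ((Z r, v r, r), (Z r, v r, r))) := by
    have hZc : Tendsto Z (𝓝 r) (𝓝 (Z r)) := hZ.continuousAt
    have hid : Tendsto (fun q : ℝ => q) (𝓝 r) (𝓝 r) := tendsto_id
    exact (hZc.prodMk_nhds (hw.prodMk_nhds hid)).prodMk_nhds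
      (tendsto_const_nhds.prodMk_nhds (hw.prodMk_nhds tendsto_const_nhds))
  have h2 := hs.isLittleO.comp_tendsto h1
  have h3 : (fun q => un l (Z q, w q, q) - un l (Z r, w q, r) -
      fderiv ℝ (un l) (Z r, v r, r) (Z q - Z r, 0, q - r)) =
      (fun p : (E × E × ℝ) × (E × E × ℝ) => un l p.1 - un l p.2 -
        fderiv ℝ (un l) (Z r, v r, r) (p.1 - p.2)) ∘ fun q : ℝ => ((Z q, w q, q), (Z r, w q, r)) := by
    funext q
    simp only [Function.comp, Prod.mk_sub_mk, sub_self]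
  rw [h3]
  refine h2.trans_isBigO ?_
  have h4 : ((fun p : (E × E × ℝ) × (E × E × ℝ) => p.1 - p.2) ∘ fun q : ℝ => ((Z q, w q, q), (Z r, w q, r))) =
      fun q => (Z q - Z r, (0 : E), q - r) := by
    funext q
    simp
  rw [h4]
  have h5 : (fun q => Z q - Z r) =O[𝓝 r] fun q => q - r := hZ.isBigO_sub
  have h6 : (fun q => (0 : E)) =O[𝓝 r] fun q : ℝ => q - r := isBigO_zero _ _
  exact h5.prod_left (h6.prod_left (isBigO_refl _ _))

theorem PX5_test (h : ContDiff ℝ 2 (un l)) (hZ : HasDerivAt Z (v r) r)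
    (hp : HasDerivAt (fun r => gu l (Z r) (v r) r) (gx l (Z r) (v r) r) r)
    {w : ℝ → E} (hw : Tendsto w (𝓝 r) (𝓝 (v r))) :
    (fun q => inner ℝ (gu l (Z q) (v q) q - gu l (Z r) (v r) r) (w q) -
      (un l (Z q, w q, q) - un l (Z r, w q, r)) + (q - r) * lt l (Z r) (v r) r) =o[𝓝 r] fun q => q - r := by
  have e1 := PX5_rem h hZ hw
  have e2 : (fun q => gu l (Z q) (v q) q - gu l (Z r) (v r) r - (q - r) • gx l (Z r) (v r) r) =o[𝓝 r]
      fun q => q - r := hasDerivAt_iff_isLittleO.1 hp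
  have e3 : (fun q => Z q - Z r - (q - r) • v r) =o[𝓝 r] fun q => q - r := hasDerivAt_iff_isLittleO.1 hZ
  have hwb : (fun q => w q) =O[𝓝 r] fun _ => (1 : ℝ) := hw.isBigO_one ℝ
  have f1 : (fun q => inner ℝ (gu l (Z q) (v q) q - gu l (Z r) (v r) r - (q - r) • gx l (Z r) (v r) r) (w q))
      =o[𝓝 r] fun q => q - r := by
    have g1 : (fun q => ‖gu l (Z q) (v q) q - gu l (Z r) (v r) r - (q - r) • gx l (Z r) (v r) r‖ * ‖w q‖)
        =o[𝓝 r] fun q => (q - r) * 1 := e2.norm_left.mul_isBigO hwb.norm_left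
    simp only [mul_one] at g1
    refine IsBigO.trans_isLittleO (IsBigO.of_bound 1 (Eventually.of_forall fun q => ?_)) g1
    rw [one_mul, Real.norm_eq_abs, Real.norm_of_nonneg (by positivity)]
    exact abs_real_inner_le_norm _ _
  have f2 : (fun q => (q - r) * inner ℝ (gx l (Z r) (v r) r) (w q - v r)) =o[𝓝 r] fun q => q - r := by
    have g1 : Tendsto (fun q => (inner ℝ (gx l (Z r) (v r) r) (w q - v r) : ℝ)) (𝓝 r) (𝓝 0) := by
      have g2 : Tendsto (fun q => w q - v r) (𝓝 r) (𝓝 0) := by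
        have := hw.sub_const (v r)
        rwa [sub_self] at this
      have g3 := (tendsto_const_nhds (x := gx l (Z r) (v r) r) (f := 𝓝 r)).inner (𝕜 := ℝ) g2
      rwa [inner_zero_right] at g3
    have g4 : (fun q => (inner ℝ (gx l (Z r) (v r) r) (w q - v r) : ℝ)) =o[𝓝 r] fun _ => (1 : ℝ) :=
      (isLittleO_one_iff ℝ).2 g1
    have g5 := (isBigO_refl (fun q : ℝ => q - r) (𝓝 r)).mul_isLittleO g4
    simpa using g5
  have f3 : (fun q => (inner ℝ (gx l (Z r) (v r) r) (Z q - Z r - (q - r) • v r) : ℝ)) =o[𝓝 r] fun q => q - r := by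
    refine IsBigO.trans_isLittleO (IsBigO.of_bound ‖gx l (Z r) (v r) r‖ (Eventually.of_forall fun q => ?_)) e3
    rw [Real.norm_eq_abs]
    exact abs_real_inner_le_norm _ _
  have f4 := ((f1.add f2).sub e1).sub f3
  refine f4.congr_left fun q => ?_
  rw [PX5_split h]
  simp only [inner_sub_left, inner_sub_right, real_inner_smul_left, real_inner_smul_right]
  ring

theorem PX5_en (h : ContDiff ℝ 2 (un l))
    (hconv : ∀ x u v t, l x v t + inner ℝ (gu l x v t) (u - v) ≤ l x u t)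
    (hZ : HasDerivAt Z (v r) r) (hv : ContinuousAt v r)
    (hp : HasDerivAt (fun r => gu l (Z r) (v r) r) (gx l (Z r) (v r) r) r) :
    HasDerivAt (fun r => en l (Z r) (v r) r) (-lt l (Z r) (v r) r) r := by
  rw [hasDerivAt_iff_isLittleO]
  have e1 := PX5_test h hZ hp (w := v) hv
  have e2 := PX5_test h hZ hp (w := fun _ => v r) tendsto_const_nhds
  have e3 := e1.norm_left.add e2.norm_left
  refine IsBigO.trans_isLittleO (IsBigO.of_bound 1 (Eventually.of_forall fun q => ?_)) e3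
  have c1 := hconv (Z q) (v r) (v q) q
  have c2 := hconv (Z r) (v q) (v r) r
  set A := inner ℝ (gu l (Z q) (v q) q - gu l (Z r) (v r) r) (v q) -
      (un l (Z q, v q, q) - un l (Z r, v q, r)) + (q - r) * lt l (Z r) (v r) r with hA
  set B := inner ℝ (gu l (Z q) (v q) q - gu l (Z r) (v r) r) (v r) -
      (un l (Z q, v r, q) - un l (Z r, v r, r)) + (q - r) * lt l (Z r) (v r) r with hB
  set X := en l (Z q) (v q) q - en l (Z r) (v r) r - (q - r) • (-lt l (Z r) (v r) r) with hX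
  rw [inner_sub_right] at c1 c2
  have hXA : X ≤ A := by
    rw [hX, hA, inner_sub_left]
    simp only [en, un, smul_eq_mul]
    linarith
  have hBX : B ≤ X := by
    rw [hX, hB, inner_sub_left]
    simp only [en, un, smul_eq_mul]
    linarith
  rw [one_mul, Real.norm_eq_abs, Real.norm_eq_abs, Real.norm_eq_abs, Real.norm_eq_abs]
  have q1 := le_abs_self A
  have q2 := neg_abs_le B
  have q3 := abs_nonneg A
  have q4 := abs_nonneg B
  rw [abs_of_nonneg (add_nonneg q3 q4), abs_le]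
  constructor <;> linarith

/-- gradient of a composition -/
theorem PX5_grad {g : ℝ → ℝ} (hg : Differentiable ℝ g) {F : E → ℝ} {x : E} (hF : DifferentiableAt ℝ F x) :
    gradient (fun y => g (F y)) x = deriv g (F x) • gradient F x := by
  have h2 : HasDerivAt g (deriv g (F x)) (F x) := (hg _).hasDerivAt
  have h3 := h2.comp_hasFDerivAt x hF.hasFDerivAt
  have h4 : HasFDerivAt (fun y => g (F y)) (deriv g (F x) • fderiv ℝ F x) x := h3
  unfold gradient
  rw [h4.fderiv]
  simp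

end En

/-- a growth function is convex -/
theorem PX5_conv {e : ℝ} {g : ℝ → ℝ} (hg : EscP.Pw e g) (y z : ℝ) :
    g y + deriv g y * (z - y) ≤ g z := by
  have hd : Differentiable ℝ g := hg.smooth.differentiable (by norm_num)
  have hd1 : ContDiff ℝ 1 (deriv g) := by
    have h5 : (1 + 1 : WithTop ℕ∞) = 2 := by norm_num
    have h6 : ContDiff ℝ (1 + 1) g := by rw [h5]; exact hg.smooth
    exact (contDiff_succ_iff_deriv.1 h6).2.2
  have hd2 : Differentiable ℝ (deriv g) := hd1.differentiable (by norm_num)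
  have hc : ConvexOn ℝ univ g := convexOn_univ_of_deriv2_nonneg hd hd2 fun x => by
    simpa using hg.d2 x
  rcases lt_trichotomy y z with h | h | h
  · have h7 := hc.deriv_le_slope (mem_univ y) (mem_univ z) h (hd y)
    rw [slope_def_field, le_div_iff₀ (by linarith)] at h7
    linarith
  · subst h
    simp
  · have h7 := hc.slope_le_deriv (mem_univ z) (mem_univ y) h (hd y)
    rw [slope_def_field, div_le_iff₀ (by linarith)] at h7
    linarith

/-- the slope of a growth function is nondecreasing -/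
theorem PX5_mono {e : ℝ} {g : ℝ → ℝ} (hg : EscP.Pw e g) : Monotone (deriv g) := by
  have hd1 : ContDiff ℝ 1 (deriv g) := by
    have h5 : (1 + 1 : WithTop ℕ∞) = 2 := by norm_num
    have h6 : ContDiff ℝ (1 + 1) g := by rw [h5]; exact hg.smooth
    exact (contDiff_succ_iff_deriv.1 h6).2.2
  exact monotone_of_deriv_nonneg (hd1.differentiable (by norm_num)) hg.d2

variable {ι : Type} [Fintype ι] {E : Type*} [NormedAddCommGroup E] [InnerProductSpace ℝ E]
  [FiniteDimensional ℝ E] {β : Module.Basis ι ℝ E} {N : Set E} {r : E → E} {R : ℝ}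
variable {F : E → E → ℝ → ℝ} {mF MF A m M : ℝ} {κ : ℝ → ℝ} {B : E → ℝ → ℝ} {k0 : ι} {len : ℝ}
  {c c' ct : ℝ → ℝ → E} {L : E → E → ℝ → ℝ} {ρ : ℝ}

/-- the lower bound for the derivative of the normal momentum -/
theorem PX5_Px (h : Tb β N r R) (hρ : 0 < ρ) (hR : 2 * ρ < R) {x : E}
    (hx : Metric.infDist x N < ρ) (v : E) :
    kap ρ * ‖x - r x‖ ^ 2 * ‖v‖ ^ 2 / 2 ≤ ‖v - fderiv ℝ r x v‖ ^ 2 + kap ρ * ‖x - r x‖ ^ 2 * ‖v‖ ^ 2 +
      kap ρ * ‖x - r x‖ ^ 2 * inner ℝ v (v - fderiv ℝ r x v) := by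
  have hxR : Metric.infDist x N < R := by linarith
  have h1 : ‖x - r x‖ < ρ := by
    rw [← h.dist_eq hxR]
    exact hx
  have h2 : kap ρ * ‖x - r x‖ ^ 2 ≤ 1 / 4 := by
    unfold kap
    have j : ‖x - r x‖ ^ 2 ≤ ρ ^ 2 := by
      have := norm_nonneg (x - r x)
      nlinarith
    rw [div_mul_eq_mul_div, one_mul, div_le_iff₀ (by positivity)]
    linarith
  have h3 : 0 ≤ kap ρ * ‖x - r x‖ ^ 2 := by
    unfold kap
    positivity
  have h4 : -(‖v‖ * ‖v - fderiv ℝ r x v‖) ≤ inner ℝ v (v - fderiv ℝ r x v) :=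
    neg_le_of_abs_le (abs_real_inner_le_norm _ _)
  set a := kap ρ * ‖x - r x‖ ^ 2
  set p := ‖v‖
  set q := ‖v - fderiv ℝ r x v‖
  set z := inner ℝ v (v - fderiv ℝ r x v)
  have h5 : a * -(p * q) ≤ a * z := mul_le_mul_of_nonneg_left h4 h3
  have h6 := sq_nonneg (q - a * p / 2)
  have h7 : a * a * p ^ 2 ≤ 1 / 4 * a * p ^ 2 :=
    mul_le_mul_of_nonneg_right (mul_le_mul_of_nonneg_right h2 h3) (sq_nonneg p)
  have h8 : 0 ≤ a * p ^ 2 := mul_nonneg h3 (sq_nonneg p)
  nlinarith

theorem staysG (h : Tb β N r R) (hL : LagS β N r R m L) (hρ : 0 < ρ) (hR : 2 * ρ < R) {Λ : ℝ} (hΛ : 0 < Λ)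
    {m' M' : ℝ} (hTG : EscT.TG β m' M' (Lt N r ρ Λ L)) {e : ℝ} {g : ℝ → ℝ} (hg : EscP.Pw e g)
    {f : E → ℝ → ℝ} (hf : Pt β f) {K : Set E} (hK : K ⊆ N) (hv : ∀ x, Metric.infDist x N < ρ → r x ∈ K →
      ∀ t, 0 ≤ fderiv ℝ (fun y => f y t) x (x - r x)) {x0 : E} (hx0 : x0 ∈ N)
    (he : EscK.EscapesFrom (fun x v t => g (Lt N r ρ Λ L x v t)) f x0 {x | Metric.infDist x N < ρ ∧ r x ∈ K}) :
    EscK.EscapesFrom (fun x v t => g (Lt N r ρ Λ L x v t)) f x0 K := by
  obtain ⟨t0, x, v, ht0, hxt0, hxc, hxd, hvc, hel, hmem, hlim⟩ := he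
  refine ⟨t0, x, v, ht0, hxt0, hxc, hxd, hvc, hel, ?_, hlim⟩
  have hρR : ρ < R := by linarith
  have hxR : ∀ t, t0 ≤ t → Metric.infDist (x t) N < R := fun t ht => (hmem t ht).1.trans hρR
  obtain ⟨l, hl⟩ : ∃ l, l = Lt N r ρ Λ L := ⟨_, rfl⟩
  obtain ⟨gl, hgl⟩ : ∃ gl : E → E → ℝ → ℝ, gl = fun x v t => g (l x v t) := ⟨_, rfl⟩
  have hel' : ∀ t, t0 < t → HasDerivAt (fun t => gu gl (x t) (v t) t)
      (gx (lf gl f) (x t) (v t) t) t := by
    rw [hgl, hl]
    exact hel
  have hTG' : EscT.TG β m' M' l := by rw [hl]; exact hTG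
  -- differentiability
  have hgd : Differentiable ℝ g := hg.smooth.differentiable (by norm_num)
  have hls : ContDiff ℝ 2 (fun p : E × E × ℝ => l p.1 p.2.1 p.2.2) := hTG'.smooth
  have hgls : ContDiff ℝ 2 (fun p : E × E × ℝ => gl p.1 p.2.1 p.2.2) := by
    rw [hgl]
    exact hg.smooth.comp hls
  have hfs : ContDiff ℝ 2 (fun p : E × E × ℝ => f p.1 p.2.2) :=
    hf.smooth.comp (contDiff_fst.prodMk (contDiff_snd.comp contDiff_snd))
  have hqs : ContDiff ℝ 2 (EscP.PEb.un (lf gl f)) := hgls.add hfs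
  have hguG : ∀ x v t, gu gl x v t = deriv g (l x v t) • gu l x v t := by
    intro x v t
    rw [hgl]
    refine PX5_grad hgd ?_
    have h4 : ContDiff ℝ 2 (fun w : E => l x w t) :=
      hls.comp (f := fun w : E => ((x, w, t) : E × E × ℝ)) (by fun_prop)
    exact h4.differentiable (by norm_num) v
  have hlx : ∀ x v t, DifferentiableAt ℝ (fun y => l y v t) x := by
    intro x v t
    have h4 : ContDiff ℝ 2 (fun y : E => l y v t) :=
      hls.comp (f := fun y : E => ((y, v, t) : E × E × ℝ)) (by fun_prop)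
    exact h4.differentiable (by norm_num) x
  have hgxG : ∀ x v t, gx gl x v t = deriv g (l x v t) • gx l x v t := by
    intro x v t
    rw [hgl]
    exact PX5_grad hgd (hlx x v t)
  have hGp : ∀ x v t, 0 < deriv g (l x v t) := fun x v t => hg.d1 _
  have hqconv : ∀ x u v t, lf gl f x v t + inner ℝ (gu (lf gl f) x v t) (u - v) ≤ lf gl f x u t := by
    intro x u v t
    rw [A12c_gu_lf, hguG, real_inner_smul_left]
    have i1 := PX5_conv hg (l x v t) (l x u t)
    have i2 := hTG'.conv x u v t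
    have i3 : 0 ≤ m' / 2 * ‖u - v‖ ^ 2 := by
      have := hTG'.m_pos
      positivity
    have i4 := mul_le_mul_of_nonneg_left
      (by linarith : inner ℝ (gu l x v t) (u - v) ≤ l x u t - l x v t) (hGp x v t).le
    have i5 : ∀ w, lf gl f x w t = g (l x w t) + f x t := fun w => by rw [hgl]; rfl
    rw [i5, i5]
    linarith
  -- the normal component
  set ν : ℝ → E := fun t => x t - r (x t) with hνdef
  have hrc : ContinuousOn (fun t => r (x t)) (Ici t0) :=
    h.smooth.continuousOn.comp hxc (fun t ht => hxR t ht)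
  have hνc : ContinuousOn ν (Ici t0) := hxc.sub hrc
  have hνd : ∀ t, t0 < t → HasDerivAt ν (v t - fderiv ℝ r (x t) (v t)) t := by
    intro t ht
    have h1 := (h.diff (hxR t ht.le)).hasFDerivAt.comp_hasDerivAt t (hxd t ht)
    exact (hxd t ht).sub h1
  have hνn : ∀ t, t0 ≤ t → ‖ν t‖ < ρ := by
    intro t ht
    have h1 := h.dist_eq (hxR t ht)
    have h2 : Metric.infDist (x t) N < ρ := (hmem t ht).1
    rw [h1] at h2
    exact h2
  have hin : ∀ t, t0 ≤ t → inner ℝ (ν t) (v t - fderiv ℝ r (x t) (v t)) = inner ℝ (ν t) (v t) := by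
    intro t ht
    have h1 := h.orth (hxR t ht) (v t)
    rw [inner_sub_right]
    have h2 : inner ℝ (ν t) (fderiv ℝ r (x t) (v t)) = (0:ℝ) := h1
    rw [h2, sub_zero]
  have hκ : 0 < kap ρ := by
    unfold kap
    positivity
  have hkν : ∀ t, t0 ≤ t → kap ρ * ‖ν t‖ ^ 2 ≤ 1 := by
    intro t ht
    have j : ‖ν t‖ ^ 2 ≤ ρ ^ 2 := by
      have i1 := norm_nonneg (ν t)
      have i2 := hνn t ht
      nlinarith
    unfold kap
    rw [div_mul_eq_mul_div, one_mul, div_le_one (by positivity)]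
    nlinarith [sq_nonneg ρ]
  -- the functions `W`, `P`
  have hq : ∀ t, t0 < t → HasDerivAt (fun t => ‖ν t‖ ^ 2) (2 * inner ℝ (ν t) (v t)) t := by
    intro t ht
    have h1 := (hνd t ht).norm_sq
    rw [hin t ht.le] at h1
    exact h1
  have hPG : ∀ t, inner ℝ (gu gl (x t) (v t) t) (ν t) / deriv g (l (x t) (v t) t) =
      inner ℝ (gu l (x t) (v t) t) (ν t) := by
    intro t
    rw [hguG, real_inner_smul_left, mul_div_cancel_left₀ _ (hGp _ _ _).ne']
  have hW : ∀ t, t0 < t → HasDerivAt (fun t => ‖ν t‖ ^ 2 + kap ρ / 2 * (‖ν t‖ ^ 2) ^ 2)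
      (2 * (inner ℝ (gu gl (x t) (v t) t) (ν t) / deriv g (l (x t) (v t) t))) t := by
    intro t ht
    rw [hPG, hl]
    have h1 := (hq t ht).add (((hq t ht).pow 2).const_mul (kap ρ / 2))
    have h2 := P_eq h hL hρ hR Λ (hmem t ht.le).1 (v t) t
    have h3 : inner ℝ (gu (Lt N r ρ Λ L) (x t) (v t) t) (ν t) =
        inner ℝ (ν t) (v t) * (1 + kap ρ * ‖ν t‖ ^ 2) := h2
    rw [h3]
    refine h1.congr_deriv ?_
    norm_num
    ring
  have hP : ∀ t, t0 < t → HasDerivAt (fun t => inner ℝ (gu gl (x t) (v t) t) (ν t))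
      (inner ℝ (gu gl (x t) (v t) t) (v t - fderiv ℝ r (x t) (v t)) +
        inner ℝ (gx (lf gl f) (x t) (v t) t) (ν t)) t := by
    intro t ht
    exact (hel' t ht).inner ℝ (hνd t ht)
  have hP' : ∀ t, t0 < t → deriv g (l (x t) (v t) t) *
      (kap ρ / 4 * (‖ν t‖ ^ 2 + kap ρ / 2 * (‖ν t‖ ^ 2) ^ 2) * ‖v t‖ ^ 2) ≤
      inner ℝ (gu gl (x t) (v t) t) (v t - fderiv ℝ r (x t) (v t)) +
        inner ℝ (gx (lf gl f) (x t) (v t) t) (ν t) := by
    intro t ht
    have hxt : Metric.infDist (x t) N < ρ := (hmem t ht.le).1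
    have h1 := Px h hL hρ hR Λ hxt (v t) t
    rw [← hl] at h1
    have h2 := PX5_Px h hρ hR hxt (v t)
    have h3 := hv (x t) hxt (hmem t ht.le).2 t
    have hfd : DifferentiableAt ℝ (fun y => f y t) (x t) := by
      have h4 : ContDiff ℝ 2 (fun y : E => f y t) :=
        hf.smooth.comp (f := fun y : E => ((y, t) : E × ℝ)) (by fun_prop)
      exact h4.differentiable (by norm_num) (x t)
    have hgd' : DifferentiableAt ℝ (fun y => gl y (v t) t) (x t) := by
      have h4 : ContDiff ℝ 2 (fun y : E => gl y (v t) t) :=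
        hgls.comp (f := fun y : E => ((y, v t, t) : E × E × ℝ)) (by fun_prop)
      exact h4.differentiable (by norm_num) (x t)
    have h5 : inner ℝ (gx (lf gl f) (x t) (v t) t) (ν t) =
        inner ℝ (gx gl (x t) (v t) t) (ν t) + fderiv ℝ (fun y => f y t) (x t) (ν t) := by
      unfold gx
      rw [P10_inner_gradient, P10_inner_gradient]
      have h6 : (fun y => lf gl f y (v t) t) = (fun y => gl y (v t) t) + fun y => f y t := rfl
      rw [h6, fderiv_add hgd' hfd]
      rfl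
    rw [h5, hguG, hgxG, real_inner_smul_left, real_inner_smul_left]
    have h7 : inner ℝ (gx l (x t) (v t) t) (ν t) +
        inner ℝ (gu l (x t) (v t) t) (v t - fderiv ℝ r (x t) (v t)) =
      ‖v t - fderiv ℝ r (x t) (v t)‖ ^ 2 + kap ρ * ‖x t - r (x t)‖ ^ 2 * ‖v t‖ ^ 2 +
        kap ρ * ‖x t - r (x t)‖ ^ 2 * inner ℝ (v t) (v t - fderiv ℝ r (x t) (v t)) := h1
    have h8 : 0 ≤ fderiv ℝ (fun y => f y t) (x t) (ν t) := h3
    rw [← h7] at h2
    have h9 : kap ρ / 4 * (‖ν t‖ ^ 2 + kap ρ / 2 * (‖ν t‖ ^ 2) ^ 2) * ‖v t‖ ^ 2 ≤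
        kap ρ * ‖x t - r (x t)‖ ^ 2 * ‖v t‖ ^ 2 / 2 := by
      have j1 : kap ρ / 2 * (‖ν t‖ ^ 2) ^ 2 ≤ ‖ν t‖ ^ 2 := by
        have j2 := mul_le_mul_of_nonneg_right (hkν t ht.le) (sq_nonneg ‖ν t‖)
        have j3 := sq_nonneg ‖ν t‖
        nlinarith
      have j4 : kap ρ / 4 * (‖ν t‖ ^ 2 + kap ρ / 2 * (‖ν t‖ ^ 2) ^ 2) ≤ kap ρ * ‖ν t‖ ^ 2 / 2 := by
        have j5 := mul_le_mul_of_nonneg_left j1 (by positivity : 0 ≤ kap ρ / 4)
        linarith
      have j6 := mul_le_mul_of_nonneg_right j4 (sq_nonneg ‖v t‖)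
      have j7 : kap ρ * ‖ν t‖ ^ 2 / 2 * ‖v t‖ ^ 2 = kap ρ * ‖x t - r (x t)‖ ^ 2 * ‖v t‖ ^ 2 / 2 := by
        simp only [hνdef]
        ring
      linarith
    have h10 := mul_le_mul_of_nonneg_left (h9.trans h2) (hGp (x t) (v t) t).le
    rw [mul_add] at h10
    linarith
  have hWc : ContinuousOn (fun t => ‖ν t‖ ^ 2 + kap ρ / 2 * (‖ν t‖ ^ 2) ^ 2) (Ici t0) := by
    have h1 : ContinuousOn (fun t => ‖ν t‖ ^ 2) (Ici t0) := hνc.norm.pow 2
    exact h1.add (continuousOn_const.mul (h1.pow 2))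
  have hν0 : ν t0 = 0 := by
    show x t0 - r (x t0) = 0
    rw [hxt0, h.r_eq hx0, sub_self]
  -- the energy
  obtain ⟨Cf, hCf, hgood⟩ := hf.good
  have hen : ∀ t, t0 < t → HasDerivAt (fun t => EscP.en (lf gl f) (x t) (v t) t)
      (-EscP.PEb.lt (lf gl f) (x t) (v t) t) t := by
    intro t ht
    refine PX5_en hqs hqconv (hxd t ht) (hvc.continuousAt (Ici_mem_nhds ht)) ?_
    have h2 : (fun s => gu (lf gl f) (x s) (v s) s) = fun s => gu gl (x s) (v s) s :=
      funext fun s => A12c_gu_lf _ _ _ _ _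
    rw [h2]
    exact hel' t ht
  have hlt : ∀ x v t, |-EscP.PEb.lt (lf gl f) x v t| ≤
      deriv g (l x v t) * (M' * (1 + ‖v‖ ^ 2)) + Cf := by
    intro x v t
    have i1 := PX5_lt hqs x v t
    have i2 := PX5_lt (l := l) hls x v t
    have i3 : HasDerivAt (fun s => g (l x v s)) (deriv g (l x v t) * EscP.PEb.lt l x v t) t :=
      (hgd (l x v t)).hasDerivAt.comp t i2
    have i4 : DifferentiableAt ℝ (fun s => f x s) t := by
      have h4 : ContDiff ℝ 2 (fun s : ℝ => f x s) :=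
        hf.smooth.comp (f := fun s : ℝ => ((x, s) : E × ℝ)) (by fun_prop)
      exact h4.differentiable (by norm_num) t
    have i5 : EscP.PEb.lt (lf gl f) x v t =
        deriv g (l x v t) * EscP.PEb.lt l x v t + deriv (fun s => f x s) t := by
      have i6 : (fun s => lf gl f x v s) = fun s => g (l x v s) + f x s := by
        rw [hgl]
        rfl
      rw [i6] at i1
      exact i1.unique (i3.add i4.hasDerivAt)
    have i7 : |deriv (fun s => f x s) t| ≤ Cf := by
      have i8 := i4.hasDerivAt.le_of_lip' hCf (Eventually.of_forall fun s => by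
        rw [Real.norm_eq_abs, Real.norm_eq_abs]; exact hgood.lipt x s t)
      rwa [Real.norm_eq_abs] at i8
    have i9 := EscP.PEb.lt_bd hTG' x v t
    rw [abs_neg, i5]
    refine (abs_add_le _ _).trans (add_le_add ?_ i7)
    rw [abs_mul, abs_of_pos (hGp x v t)]
    exact mul_le_mul_of_nonneg_left i9 (hGp x v t).le
  have hm0 := hTG'.m_pos
  have hM0 := hTG'.M_nonneg
  obtain ⟨gc, hgc⟩ : ∃ gc, gc = EscT.gC m' M' := ⟨_, rfl⟩
  obtain ⟨G0, hG0⟩ : ∃ G0, G0 = deriv g (-gc) := ⟨_, rfl⟩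
  have hG0p : 0 < G0 := by rw [hG0]; exact hg.d1 _
  have hlow : ∀ x v t, -gc ≤ l x v t := by
    intro x v t
    have i1 := hTG'.low x v t
    rw [← hgc] at i1
    have i2 : 0 ≤ m' / 4 * ‖v‖ ^ 2 := by positivity
    linarith
  have hGG : ∀ x v t, G0 ≤ deriv g (l x v t) := by
    intro x v t
    rw [hG0]
    exact PX5_mono hg (hlow x v t)
  obtain ⟨C, hC⟩ : ∃ C, C = |g 0| + |g (-gc)| + Cf := ⟨_, rfl⟩
  have hC0 : 0 ≤ C := by rw [hC]; positivity
  have heneq : ∀ x v t, EscP.en (lf gl f) x v t =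
      deriv g (l x v t) * inner ℝ (gu l x v t) v - g (l x v t) - f x t := by
    intro x v t
    unfold EscP.en
    rw [A12c_gu_lf, hguG, real_inner_smul_left]
    have i5 : lf gl f x v t = g (l x v t) + f x t := by rw [hgl]; rfl
    rw [i5]
    ring
  have hen1 : ∀ x v t, deriv g (l x v t) * (m' / 2 * ‖v‖ ^ 2 - M') - C ≤ EscP.en (lf gl f) x v t := by
    intro x v t
    rw [heneq]
    have i1 := PX5_conv hg (l x v t) 0
    have i2 := hTG'.conv x 0 v t
    have i3 := hTG'.upp x 0 t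
    rw [norm_zero] at i3
    have i4 : inner ℝ (gu l x v t) (0 - v) = -inner ℝ (gu l x v t) v := by
      rw [zero_sub, inner_neg_right]
    have i5 : ‖0 - v‖ = ‖v‖ := by rw [zero_sub, norm_neg]
    rw [i4, i5] at i2
    have i6 : m' / 2 * ‖v‖ ^ 2 - M' ≤ inner ℝ (gu l x v t) v - l x v t := by
      norm_num at i3
      linarith
    have i7 := mul_le_mul_of_nonneg_left i6 (hGp x v t).le
    have i8 := le_abs_self (g 0)
    have i9 := abs_nonneg (g (-gc))
    have i10 := (le_abs_self (f x t)).trans (hgood.bd x t)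
    rw [mul_sub (deriv g (l x v t)) (inner ℝ (gu l x v t) v)] at i7
    rw [hC]
    linarith
  have hgG0 : 0 ≤ EscT.gG M' := by
    unfold EscT.gG
    positivity
  have hgm : Monotone g := monotone_of_deriv_nonneg hgd fun y => (hg.d1 y).le
  have hen2 : ∀ x v t, 1 ≤ ‖v‖ → EscP.en (lf gl f) x v t ≤
      deriv g (l x v t) * (EscT.gG M' * (2 * ‖v‖ ^ 2)) + C := by
    intro x v t hv1
    rw [heneq]
    have i1 := hgm (hlow x v t)
    have i2 : inner ℝ (gu l x v t) v ≤ EscT.gG M' * (2 * ‖v‖ ^ 2) := by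
      have j1 := real_inner_le_norm (gu l x v t) v
      have j2 := mul_le_mul_of_nonneg_right (hTG'.gu_bd x v t) (norm_nonneg v)
      have j3 : EscT.gG M' * (1 + ‖v‖) * ‖v‖ ≤ EscT.gG M' * (2 * ‖v‖ ^ 2) := by
        rw [mul_assoc]
        refine mul_le_mul_of_nonneg_left ?_ hgG0
        nlinarith
      linarith
    have i3 := mul_le_mul_of_nonneg_left i2 (hGp x v t).le
    have i4 := neg_abs_le (g (-gc))
    have i5 := abs_nonneg (g 0)
    have i6 := (neg_abs_le (f x t))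
    have i7 := hgood.bd x t
    rw [hC]
    linarith
  -- large times
  obtain ⟨V, hV⟩ : ∃ V, V = max 1 (4 * (M' + C / G0) / m') := ⟨_, rfl⟩
  obtain ⟨t2, ht2⟩ := eventually_atTop.1 (tendsto_atTop.1 hlim V)
  have key := PX5_ode (C := ρ ^ 2 + kap ρ / 2 * (ρ ^ 2) ^ 2) (t2 := t2)
    (c := kap ρ / 4 / (2 * EscT.gG M' + C / G0 + 1)) (c1 := m' / 4) (C2 := (2 * M' + C / G0) * (4 / m'))
    hWc (fun t _ => hGp (x t) (v t) t) hW hP
    (fun t ht => by
      refine le_trans ?_ (hP' t ht)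
      have := hGp (x t) (v t) t
      positivity)
    (by simp only [hν0, norm_zero]; norm_num)
    (fun t _ => by positivity) (fun t ht => by
      have h1 := hνn t ht
      have h2 : ‖ν t‖ ^ 2 ≤ ρ ^ 2 := by
        have := norm_nonneg (ν t)
        nlinarith
      have h3 : (‖ν t‖ ^ 2) ^ 2 ≤ (ρ ^ 2) ^ 2 := by
        have := sq_nonneg ‖ν t‖
        nlinarith
      have h4 := mul_le_mul_of_nonneg_left h3 (by positivity : 0 ≤ kap ρ / 2)
      linarith) hen (by positivity) (by positivity) (by positivity)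
    (fun t ht htt => by
      have hvV := ht2 t htt
      have hv1 : 1 ≤ ‖v t‖ := (by rw [hV]; exact le_max_left _ _ : 1 ≤ V).trans hvV
      have hv2 : ‖v t‖ ≤ ‖v t‖ ^ 2 := by nlinarith
      exact PX5_pt hm0 hM0 hG0p (hGG (x t) (v t) t) hC0 (by positivity : 0 < kap ρ / 4)
        (by positivity) hgG0 (hv1.trans hv2)
        ((by rw [hV]; exact le_max_right _ _ : 4 * (M' + C / G0) / m' ≤ V).trans (hvV.trans hv2))
        (hen1 _ _ _) (hen2 _ _ _ hv1) ((hlt _ _ _).trans (by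
          have i1 := abs_nonneg (g 0)
          have i2 := abs_nonneg (g (-gc))
          rw [hC]
          linarith)) (hP' t ht))
  intro t ht
  have h1 := key t ht
  have h2 : ‖ν t‖ ^ 2 = 0 := by
    have h3 : 0 ≤ kap ρ / 2 * (‖ν t‖ ^ 2) ^ 2 := by positivity
    have h4 : 0 ≤ ‖ν t‖ ^ 2 := by positivity
    have h5 : ‖ν t‖ ^ 2 + kap ρ / 2 * (‖ν t‖ ^ 2) ^ 2 = 0 := h1
    linarith
  have h3 : ν t = 0 := by
    have : ‖ν t‖ = 0 := by
      exact pow_eq_zero_iff (two_ne_zero) |>.1 h2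
    exact norm_eq_zero.1 this
  have h4 : x t = r (x t) := sub_eq_zero.1 h3
  rw [h4]
  exact (hmem t ht).2

end EscW.Pg
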