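import Pool.Agent.EscW.PW5
import Pool.Agent.EscW.PP1
import Pool.Agent.EscW.LL5
import Pool.Agent.EscW.LL2
import Pool.Agent.EscW.LL3
import Pool.Agent.EscW.LL4
import Pool.Agent.EscW.LL6
import Pool.Agent.EscW.LL7

/-!
Module PW6: only large velocities matter. `W` is shrunk first (`exists_cut`, LL3), so `L0 ≥ 1` for large velocities over the smaller set `W1` (`LL4_bd`, `LL5_growth`).
An orbit of `g ∘ L0 + f` over `W1` with `‖x'‖ → ∞`: choose an integer `T` with `‖x'(t)‖ ≥ R2 + 1` for `t ≥ T`, and take `x (t + T)` (`L0`, `f` are 1-periodic): for variations with parameter `s` near `0` the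
velocities are still `≥ R2`, so the actions of `L + f` and `g ∘ L0 + f` agree.
-/

set_option autoImplicit false

noncomputable section

namespace EscW.Pg

open Filter Topology Set EscF.T EscM EscMT EscW EscW.Lo MeasureTheory
open scoped ContDiff

variable {d m k j n : ℕ}

/-! ### shift of an orbit -/

theorem PW6_deriv {X : ℝ × ℝ → Vec d} (hX : ContDiff ℝ 2 X) (s t : ℝ) :
    HasDerivAt (fun t' : ℝ => X (s, t')) (fderiv ℝ X (s, t) (0, 1)) t := by
  have h1 : HasFDerivAt X (fderiv ℝ X (s, t)) (s, t) := (hX.differentiable (by norm_num) _).hasFDerivAt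
  have h2 : HasDerivAt (fun t' : ℝ => ((s, t') : ℝ × ℝ)) (0, 1) t := (hasDerivAt_const t s).prodMk (hasDerivAt_id t)
  exact h1.comp_hasDerivAt t h2

theorem PW6_shift {M : Sub d} {W1 : Set (Vec d)} (hW1 : IsOpen W1) {L0 L : Lag d} {g : ℝ → ℝ} {R2 : ℝ} {k : ℕ∞}
    (f : Pot M k)
    (hper : ∀ x ∈ M.N, Ov W1 x → ∀ v t (l : ℤ), IsTangent M x v → L0 (x, v, t + l) = L0 (x, v, t))
    (heq : ∀ x ∈ M.N, Ov W1 x → ∀ v, IsTangent M x v → R2 ≤ ‖v‖ → ∀ t, L (x, v, t) = g (L0 (x, v, t)))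
    (hE : EscapesIn M W1 (fun q => g (L0 q) + f.toFun (q.1, q.2.2))) :
    EscapesIn M W1 (fun q => L q + f.toFun (q.1, q.2.2)) := by
  obtain ⟨x, ⟨hx1, hx2, hx3⟩, hO, hT⟩ := hE
  obtain ⟨T, hT0, hT1⟩ : ∃ T : ℕ, (0 : ℝ) ≤ T ∧ ∀ t : ℝ, (T : ℝ) ≤ t → R2 + 1 ≤ ‖deriv x t‖ := by
    obtain ⟨T0, hT0⟩ := (eventually_atTop.1 (hT.eventually_ge_atTop (R2 + 1)))
    obtain ⟨T, hT⟩ := exists_nat_ge T0
    exact ⟨T, Nat.cast_nonneg T, fun t ht => hT0 t (hT.trans ht)⟩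
  have hy1 : ContDiffOn ℝ 2 (fun t => x (t + T)) (Ioi 0) := by
    refine hx1.comp (t := Ioi 0) (f := fun t : ℝ => t + T) (by fun_prop) fun t ht => ?_
    have : (0 : ℝ) < t := ht
    show (0 : ℝ) < t + T
    linarith
  have hdy : ∀ t, deriv (fun t => x (t + T)) t = deriv x (t + T) := fun t => deriv_comp_add_const x T t
  refine ⟨fun t => x (t + T), ⟨hy1, fun t ht => hx2 _ (by linarith), ?_⟩, fun t ht => hO _ (by linarith), ?_⟩
  · intro a b X ha hab hX hXN hX0 hXe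
    have hXd : ∀ s t, HasDerivAt (fun t' : ℝ => X (s, t')) (fderiv ℝ X (s, t) (0, 1)) t := PW6_deriv hX
    -- the shifted variation
    have hXs : ContDiff ℝ 2 (fun q : ℝ × ℝ => X (q.1, q.2 - T)) := hX.comp (by fun_prop)
    have h1 := hx3 (a + T) (b + T) (fun q : ℝ × ℝ => X (q.1, q.2 - T)) (by linarith) (by linarith) hXs
      (fun q => hXN _) (fun t ht => by
        have h2 := hX0 (t - T) ⟨by linarith [ht.1], by linarith [ht.2]⟩
        simp only [sub_add_cancel] at h2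
        exact h2) (fun s => by
        have h2 := hXe s
        simp only [add_sub_cancel_right]
        exact h2)
    refine h1.congr_of_eventuallyEq ?_
    -- the orbit has large speed
    have hd0 : ∀ t ∈ Icc a b, fderiv ℝ X (0, t) (0, 1) = deriv x (t + T) := by
      intro t ht
      have ht0 : 0 < t := ha.trans_le ht.1
      have h2 : HasDerivAt (fun t => x (t + T)) (deriv x (t + T)) t := by
        rw [← hdy]
        exact ((hy1.contDiffAt (Ioi_mem_nhds ht0)).differentiableAt (by norm_num)).hasDerivAt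
      have h3 : HasDerivWithinAt (fun t' : ℝ => X (0, t')) (deriv x (t + T)) (Icc a b) t :=
        (h2.hasDerivWithinAt).congr (fun t' ht' => hX0 t' ht') (hX0 t ht)
      exact (uniqueDiffOn_Icc hab t ht).eq_deriv _ (hXd 0 t).hasDerivWithinAt h3
    have hopen : IsOpen {q : ℝ × ℝ | Ov W1 (X q) ∧ R2 < ‖fderiv ℝ X q (0, 1)‖} := by
      have c1 : Continuous (fun q : ℝ × ℝ => ‖fderiv ℝ X q (0, 1)‖) :=
        ((hX.continuous_fderiv (by norm_num)).clm_apply continuous_const).norm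
      exact ((LL2_isOpen hW1).preimage hX.continuous).inter (isOpen_lt continuous_const c1)
    have hsub : ({(0 : ℝ)} : Set ℝ) ×ˢ Icc a b ⊆ {q : ℝ × ℝ | Ov W1 (X q) ∧ R2 < ‖fderiv ℝ X q (0, 1)‖} := by
      rintro ⟨s, t⟩ ⟨hs, ht⟩
      have hs' : s = 0 := hs
      subst hs'
      have ht0 : 0 < t := ha.trans_le ht.1
      refine ⟨?_, ?_⟩
      · change Ov W1 (X (0, t))
        rw [hX0 t ht]
        exact hO _ (by linarith)
      · change R2 < ‖fderiv ℝ X (0, t) (0, 1)‖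
        rw [hd0 t ht]
        have := hT1 (t + T) (by linarith)
        linarith
    obtain ⟨u, v, hu, -, hu0, hv, huv⟩ := generalized_tube_lemma isCompact_singleton isCompact_Icc hopen hsub
    filter_upwards [hu.mem_nhds (hu0 rfl)] with s hs
    rw [← intervalIntegral.integral_comp_add_right (fun t => g (L0 (X (s, t - T), deriv (fun t' => X (s, t' - T)) t, t)) +
      f.toFun (X (s, t - T), t)) (T : ℝ)]
    refine intervalIntegral.integral_congr fun t ht => ?_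
    rw [uIcc_of_le hab.le] at ht
    obtain ⟨h2, h3⟩ : Ov W1 (X (s, t)) ∧ R2 < ‖fderiv ℝ X (s, t) (0, 1)‖ := huv (a := (s, t)) ⟨hs, hv ht⟩
    have hdiff : Differentiable ℝ (fun t' : ℝ => X (s, t')) := fun t' => (hXd s t').differentiableAt
    have htan := LL2_tangent (γ := fun t' : ℝ => X (s, t')) hdiff (fun t' => hXN _) t
    have e1 : deriv (fun t' => X (s, t' - T)) (t + T) = deriv (fun t' => X (s, t')) t := by
      have e2 := deriv_comp_sub_const (f := fun t' => X (s, t')) (T : ℝ) (t + T)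
      rw [add_sub_cancel_right] at e2
      exact e2
    have e3 : deriv (fun t' => X (s, t')) t = fderiv ℝ X (s, t) (0, 1) := (hXd s t).deriv
    have hfp : f.toFun (X (s, t), t + T) = f.toFun (X (s, t), t) := by
      have e4 := f.periodic 0 (T : ℤ) (X (s, t)) (M.sub (hXN _)) t
      have e5 : X (s, t) + vz (0 : Fin d → ℤ) = X (s, t) := by
        ext i
        simp [vz]
      rw [e5] at e4
      simpa using e4
    rw [e1, add_sub_cancel_right, hfp, heq _ (hXN (s, t)) h2 _ htan (by rw [e3]; exact h3.le) t]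
    have e6 := hper _ (hXN (s, t)) h2 (deriv (fun t' => X (s, t')) t) t (T : ℤ) htan
    have e7 : (((T : ℤ) : ℝ)) = (T : ℝ) := by simp
    rw [e7] at e6
    rw [e6]
  · have h1 : (fun t => ‖deriv (fun t => x (t + T)) t‖) = fun t => ‖deriv x (t + T)‖ := by
      funext t
      rw [hdy]
    rw [h1]
    exact hT.comp (tendsto_atTop_add_const_right _ _ tendsto_id)

/-! ### the Lagrangian is large for large velocities -/

theorem PW6_weight {κ : ℝ → ℝ} (hκ : IsWeight κ) : ∃ κ0 : ℝ, 0 < κ0 ∧ ∀ t, κ0 ≤ κ t := by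
  have hc : Continuous κ := by
    obtain ⟨A, hA⟩ := hκ.lip
    have : LipschitzWith (Real.toNNReal |A|) κ := by
      refine LipschitzWith.of_dist_le_mul fun s t => ?_
      rw [Real.coe_toNNReal _ (abs_nonneg A), Real.dist_eq, Real.dist_eq]
      exact (hA s t).trans (mul_le_mul_of_nonneg_right (le_abs_self A) (abs_nonneg _))
    exact this.continuous
  obtain ⟨t0, _, ht0⟩ := isCompact_Icc.exists_isMinOn (nonempty_Icc.2 (zero_le_one (α := ℝ))) hc.continuousOn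
  refine ⟨κ t0, hκ.pos t0, fun t => ?_⟩
  have hp : Function.Periodic κ 1 := hκ.periodic
  obtain ⟨y, hy, hy2⟩ := hp.exists_mem_Ico₀ one_pos t
  rw [hy2]
  exact ht0 ⟨hy.1, hy.2.le⟩

theorem PW6_large {M : Sub d} {W W1 : Set (Vec d)} (hW : IsOpen W) {χ : Vec d → ℝ} (hχ : Ot.IsCutM M W χ)
    (h1 : W1 ⊆ W) (hχ1 : ∀ x ∈ M.N, Ov W1 x → χ x = 1) {κ : ℝ → ℝ} (hκ : IsWeight κ)
    {F : Vec d → Vec d → ℝ → ℝ} (hF : IsFinslerOn M W 2 F) {L0 : Lag d} (hL : IsNearOn M W κ F L0) :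
    ∃ R2 : ℝ, 1 ≤ R2 ∧ ∀ x ∈ M.N, Ov W1 x → ∀ v, IsTangent M x v → R2 ≤ ‖v‖ → ∀ t, 1 ≤ L0 (x, v, t) := by
  obtain ⟨c, _, _, hc, _, _, hb⟩ := LL4_bd hW hχ hF
  obtain ⟨C, hC, hg⟩ := LL5_growth hκ hF hL
  obtain ⟨κ0, hκ0, hk⟩ := PW6_weight hκ
  set a : ℝ := κ0 * c ^ 2 / 2 with ha
  have ha0 : 0 < a := by positivity
  refine ⟨1 + (2 * C + 1) / a, by linarith [show 0 ≤ (2 * C + 1) / a by positivity], ?_⟩
  intro x hx hxW v hv hvR t
  have hχx : χ x ≠ 0 := by rw [hχ1 x hx hxW]; exact one_ne_zero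
  have e1 := (hb x hx hχx v hv t t).1
  have e2 := (abs_le.1 (hg x hx (LL7_mono h1 hxW) v t hv)).1
  have hv1 : 1 ≤ ‖v‖ := by linarith [show 0 ≤ (2 * C + 1) / a by positivity]
  have e3 : (c * ‖v‖) ^ 2 ≤ F x v t ^ 2 := pow_le_pow_left₀ (by positivity) e1 2
  have e4 : a * ‖v‖ ^ 2 ≤ κ t * F x v t ^ 2 / 2 := by
    have := mul_le_mul (hk t) e3 (by positivity) (hκ.pos t).le
    rw [ha]
    have e5 : κ0 * (c * ‖v‖) ^ 2 = 2 * (κ0 * c ^ 2 / 2 * ‖v‖ ^ 2) := by ring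
    linarith
  have e5 : 2 * C + 1 ≤ a * ‖v‖ := by
    have : (2 * C + 1) / a ≤ ‖v‖ := by linarith
    rw [div_le_iff₀ ha0] at this
    linarith
  have e6 : (2 * C + 1) * ‖v‖ ≤ a * ‖v‖ ^ 2 := by
    have := mul_le_mul_of_nonneg_right e5 (norm_nonneg v)
    nlinarith
  nlinarith

/-! ### restriction to a smaller open set -/

theorem PW6_fins {M : Sub d} {W W1 : Set (Vec d)} (h1 : W1 ⊆ W) {r : WithTop ℕ∞} {F : Vec d → Vec d → ℝ → ℝ}
    (hF : IsFinslerOn M W r F) : IsFinslerOn M W1 r F :=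
  ⟨hF.smooth.mono fun _ hz => ⟨hz.1, LL7_mono h1 hz.2⟩,
    fun l x hx hxW v hv t => hF.periodic l x hx (LL7_mono h1 hxW) v hv t,
    fun x hx hxW v hv t => hF.periodic' x hx (LL7_mono h1 hxW) v hv t,
    fun x hx hxW v hv t a ha => hF.hom x hx (LL7_mono h1 hxW) v hv t a ha,
    fun x hx hxW v hv t h0 => hF.pos x hx (LL7_mono h1 hxW) v hv t h0⟩

theorem PW6_near {M : Sub d} {W W1 : Set (Vec d)} (h1 : W1 ⊆ W) {κ : ℝ → ℝ} {F : Vec d → Vec d → ℝ → ℝ} {L : Lag d}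
    (hL : IsNearOn M W κ F L) : IsNearOn M W1 κ F L := by
  refine ⟨hL.smooth.mono fun z hz => ⟨hz.1, LL7_mono h1 hz.2⟩,
    fun l j x hx hxW v t hv => hL.periodic l j x hx (LL7_mono h1 hxW) v t hv, ?_, ?_⟩
  · obtain ⟨c, hc, h⟩ := hL.convex
    exact ⟨c, hc, fun x hx hxW => h x hx (LL7_mono h1 hxW)⟩
  · obtain ⟨C, h⟩ := hL.near
    exact ⟨C, fun x hx hxW v t hv x' hx' hxW' => h x hx (LL7_mono h1 hxW) v t hv x' hx' (LL7_mono h1 hxW')⟩

theorem PW6_per {M : Sub d} {W W1 : Set (Vec d)} (h1 : W1 ⊆ W) {κ : ℝ → ℝ} {F : Vec d → Vec d → ℝ → ℝ} {L : Lag d}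
    (hL : IsNearOn M W κ F L) : ∀ x ∈ M.N, Ov W1 x → ∀ v t (l : ℤ), IsTangent M x v →
      L (x, v, t + l) = L (x, v, t) := by
  intro x hx hxW v t l hv
  have h2 := hL.periodic 0 l x hx (LL7_mono h1 hxW) v t hv
  have e5 : x + vz (0 : Fin d → ℤ) = x := by
    ext i
    simp [vz]
  rwa [e5] at h2

theorem open_pow {M : Sub d} {y0 u v : Vec d} (hy : y0 ∈ M.N) (hu : IsTangent M y0 u)
    (hv : IsTangent M y0 v) (huv : LinearIndependent ℝ ![u, v])
    {W : Set (Vec d)} (hW : IsOpen W) (hy0 : y0 ∈ W) {F : Vec d → Vec d → ℝ → ℝ}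
    (hF : IsFinslerOn M W ∞ F) (hFc : IsConvexOn M W F) {ε : ℝ} (hε : 0 < ε) :
    ∃ w : Vec d → ℝ → ℝ, Fn.IsConfT M W ε w ∧ ∃ R δ : ℝ, 0 < R ∧ 0 < δ ∧ ∀ κ : ℝ → ℝ, IsWeight κ →
      ∀ (e R0 : ℝ), 2 ≤ e →
      (∀ F' : Vec d → Vec d → ℝ → ℝ, IsFinslerOn M W 2 F' →
        Fo.Close2F M W R δ (fun x v t => w x t * F x v t) F' → ∀ L0 L : Lag d, IsNearOn M W κ F' L0 →
          (∀ x ∈ M.N, Ov W x → ∀ v, IsTangent M x v → R0 ≤ ‖v‖ → ∀ t, L (x, v, t) = L0 (x, v, t) ^ (e / 2)) →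
          ∀ k : ℕ∞, 2 ≤ k → {f : Pot M k | EscapesIn M W (fun q => L q + f.toFun (q.1, q.2.2))} ∈
            residual (Pot M k)) ∧
      ∀ L0 L : Lag d, IsNearOn M W κ F L0 →
        (∀ x ∈ M.N, Ov W x → ∀ v, IsTangent M x v → R0 ≤ ‖v‖ → ∀ t, L (x, v, t) = L0 (x, v, t) ^ (e / 2)) →
        ∀ k : ℕ∞, 2 ≤ k →
        {f : Pot M k | EscapesIn M W (fun q => w q.1 q.2.2 ^ e * L q + f.toFun (q.1, q.2.2))} ∈
          residual (Pot M k) := by
  obtain ⟨W1, χ, hW1, hy1, hsub, hχ, hχ1⟩ := Lo.exists_cut hy hW hy0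
  obtain ⟨w, hw, R, δ, hR, hδ, hop⟩ := open_inG hy hu hv huv hW1 hy1 (PW6_fins hsub hF)
    (fun x hx hxW => hFc x hx (LL7_mono hsub hxW)) hε
  have hF2 := LL7_of_le hF
  have hw' := LL7_conf hsub hw
  have main : ∀ κ : ℝ → ℝ, IsWeight κ → ∀ (e R0 : ℝ), 2 ≤ e → ∀ F' : Vec d → Vec d → ℝ → ℝ, IsFinslerOn M W 2 F' →
      Fo.Close2F M W R δ (fun x v t => w x t * F x v t) F' → ∀ L0 L : Lag d, IsNearOn M W κ F' L0 →
        (∀ x ∈ M.N, Ov W1 x → ∀ v, IsTangent M x v → R0 ≤ ‖v‖ → ∀ t, L (x, v, t) = L0 (x, v, t) ^ (e / 2)) →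
        ∀ k : ℕ∞, 2 ≤ k → {f : Pot M k | EscapesIn M W (fun q => L q + f.toFun (q.1, q.2.2))} ∈
            residual (Pot M k) := by
    intro κ hκ e R0 he F' hF' hcl L0 L hL hLe k hk
    obtain ⟨g, hg⟩ := exists_Pw he
    obtain ⟨R2, _, hR2⟩ := PW6_large hW hχ hsub hχ1 hκ hF' hL
    have hcl1 : Fo.Close2F M W1 R δ (fun x v t => w x t * F x v t) F' :=
      ⟨hcl.smooth.mono fun z hz => ⟨hz.1, LL7_mono hsub hz.2⟩,
        fun t x hx hxW v hv hv1 hv2 i hi => hcl.close t x hx (LL7_mono hsub hxW) v hv hv1 hv2 i hi⟩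
    have h1 := (hop κ hκ e g hg).1 F' (PW6_fins hsub hF') hcl1 L0 (PW6_near hsub hL) k hk
    refine Filter.mem_of_superset h1 fun f hf => ?_
    have h5 : EscapesIn M W1 (fun q => L q + f.toFun (q.1, q.2.2)) := by
      refine PW6_shift hW1 (R2 := max R0 R2) f ?_ ?_ hf
      · exact fun x hx hxW v t l hv => PW6_per hsub hL x hx hxW v t l hv
      · intro x hx hxW v hv hvR t
        have h2 := hR2 x hx hxW v hv ((le_max_right _ _).trans hvR) t
        rw [hLe x hx hxW v hv ((le_max_left _ _).trans hvR) t, hg.eq _ h2]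
    obtain ⟨x, q1, q2, q3⟩ := h5
    exact ⟨x, q1, fun t ht => LL7_mono hsub (q2 t ht), q3⟩
  refine ⟨w, hw', R, δ, hR, hδ, fun κ hκ e R0 he => ⟨fun F' hF' hcl L0 L hL hLe k hk =>
    main κ hκ e R0 he F' hF' hcl L0 L hL (fun x hx hxW => hLe x hx (LL7_mono hsub hxW)) k hk, ?_⟩⟩
  intro L0 L hL hLe k hk
  have h1 : IsFinslerOn M W 2 (fun x v t => w x t * F x v t) :=
    conf_fins_on (r := 2) hw' hF2
  obtain ⟨R2, _, hR2⟩ := PW6_large hW hχ hsub hχ1 hκ hF2 hL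
  refine main κ hκ e (max R0 R2) he _ h1 ⟨h1.smooth, fun t x hx hxW v hv hv1 hv2 i hi => ?_⟩
    (fun q => w q.1 q.2.2 ^ 2 * L0 q) (fun q => w q.1 q.2.2 ^ e * L q)
    (conf_near_on hw' hF2 hκ hL) (fun x hx hxW v hv hvR t => ?_) k hk
  · have e : (fun z => On.ext M (fun x v => w x t * F x v t) z -
        On.ext M (fun x v => w x t * F x v t) z) = fun _ => (0 : ℝ) := by
      funext z
      exact sub_self _
    rw [e, iteratedFDeriv_fun_zero]
    simpa using hδ.le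
  · have h2 := hR2 x hx hxW v hv ((le_max_right _ _).trans hvR) t
    have h3 := hLe x hx (LL7_mono hsub hxW) v hv ((le_max_left _ _).trans hvR) t
    have h4 := hw.pos x hx t
    simp only
    rw [h3, Real.mul_rpow (by positivity) (by linarith), ← Real.rpow_natCast (w x t) 2, ← Real.rpow_mul h4.le]
    congr 2
    push_cast
    ring

end EscW.Pg
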