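import Pool.Agent.EscW.QDefs2
import Pool.Agent.EscT.A6

/-!
Module PA6: adaptation of EscT/A6.lean (`orbit_of_sitewise`, which is imported): a Lagrangian `ll j` for every piece;
the pieces `x j`, `v j` are minimizers on `[τ j, τ (j + 1)]` and the momenta agree at the sites (helper92).
-/

noncomputable section

namespace EscZ

open MeasureTheory Set Filter Topology Esc EscF EscG EscT
open scoped ContDiff

namespace PA6

section der

variable {W : Type*} [NormedAddCommGroup W] [NormedSpace ℝ W] [CompleteSpace W]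

theorem hasDerivAt_of_int {a b : ℝ} {f g : ℝ → W} (hg : ContinuousOn g (Icc a b))
    (h : ∀ s ∈ Icc a b, ∀ t ∈ Icc a b, f t - f s = ∫ r in s..t, g r) {t : ℝ} (ht : t ∈ Ioo a b) :
    HasDerivAt f (g t) t := by
  have hab : a ≤ b := (ht.1.trans ht.2).le
  set g1 : ℝ → W := fun t => g (max a (min b t)) with hg1
  have hcl : ∀ t, max a (min b t) ∈ Icc a b := fun t =>
    ⟨le_max_left _ _, max_le hab (min_le_left _ _)⟩
  have hcl2 : ∀ t ∈ Icc a b, max a (min b t) = t := fun t ht => by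
    rw [min_eq_right ht.2, max_eq_right ht.1]
  have hg1c : Continuous g1 := hg.comp_continuous (by fun_prop) hcl
  have h1 := (intervalIntegral.integral_hasDerivAt_right (hg1c.intervalIntegrable a t)
      (hg1c.stronglyMeasurableAtFilter _ _) hg1c.continuousAt).const_add (f a)
  have h2 : g1 t = g t := by
    simp only [hg1]
    rw [hcl2 t ⟨ht.1.le, ht.2.le⟩]
  rw [h2] at h1
  refine h1.congr_of_eventuallyEq ?_
  filter_upwards [Ioo_mem_nhds ht.1 ht.2] with s hs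
  have h3 := h a ⟨le_rfl, hab⟩ s ⟨hs.1.le, hs.2.le⟩
  rw [← sub_add_cancel (f s) (f a), h3, add_comm]
  congr 1
  apply intervalIntegral.integral_congr
  intro r hr
  rw [uIcc_of_le hs.1.le] at hr
  simp only [hg1]
  rw [hcl2 r ⟨hr.1, hr.2.trans hs.2.le⟩]

end der

variable {ι : Type} [Fintype ι] {E : Type*} [NormedAddCommGroup E] [InnerProductSpace ℝ E]
  [FiniteDimensional ℝ E] {β : Module.Basis ι ℝ E} {m M : ℝ} {l : E → E → ℝ → ℝ}

theorem contP (hl : TG β m M l) {V a b : ℝ} {Z v : ℝ → E} (h : Geo l a b V Z v) :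
    ContinuousOn (fun r => gu l (Z r) (v r) r) (Icc a b) :=
  hl.gu_cont.comp_continuousOn
    ((EscT.A6.geo_contZ h).prodMk ((EscT.A6.geo_contv h).prodMk continuousOn_id))

theorem contQ (hl : TG β m M l) {V a b : ℝ} {Z v : ℝ → E} (h : Geo l a b V Z v) :
    ContinuousOn (fun r => gx l (Z r) (v r) r) (Icc a b) :=
  hl.gx_cont.comp_continuousOn
    ((EscT.A6.geo_contZ h).prodMk ((EscT.A6.geo_contv h).prodMk continuousOn_id))

/-- first variation with an affine weight `θ = α + k t` -/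
theorem first_var (hl : TG β m M l) {V a b : ℝ} (hab : a < b) {Z v : ℝ → E} (h : Geo l a b V Z v)
    {l' : E → E → ℝ → ℝ} {lx' lu' : E → E → ℝ → E} {C R Λ : ℝ}
    (hcut : EscT.Cut l l' lx' lu' m C M R Λ) (hVR : V ≤ R) (α k : ℝ) :
    ∃ K : ℝ, 0 ≤ K ∧ ∀ w : E,
      kerl l' a b (Z a + (α + k * a) • w) (Z b + (α + k * b) • w) ≤
        kerl l a b (Z a) (Z b) + (α + k * b) * inner ℝ (gu l (Z b) (v b) b) w -
          (α + k * a) * inner ℝ (gu l (Z a) (v a) a) w + K * ‖w‖ ^ 2 := by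
  have hΛ : 0 ≤ Λ := by linarith [hcut.cl.Λ_ge]
  set T : ℝ := |α| + |k| * (|a| + |b|) with hT
  have hT0 : 0 ≤ T := by positivity
  refine ⟨Λ * (T + |k|) ^ 2 * (b - a), mul_nonneg (by positivity) (by linarith), fun w => ?_⟩
  set θ : ℝ → ℝ := fun t => α + k * t with hθ
  have hθb : ∀ t ∈ Icc a b, |θ t| ≤ T := by
    intro t ht
    have h1 : |t| ≤ |a| + |b| := by
      rw [abs_le]
      constructor
      · linarith [ht.1, neg_abs_le a, abs_nonneg b]
      · linarith [ht.2, le_abs_self b, abs_nonneg a]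
    calc |θ t| ≤ |α| + |k * t| := abs_add_le _ _
      _ = |α| + |k| * |t| := by rw [abs_mul]
      _ ≤ T := by rw [hT]; gcongr
  obtain ⟨C', hC'⟩ := h.lip
  have hvc := EscT.A6.geo_contv h
  -- the perturbed curve
  obtain ⟨u, hu, hu1, hu2, hu3⟩ := EscG.adm_of_lip hab (Z := fun t => Z t + θ t • w)
    (v := fun t => v t + k • w) (C := C')
    (fun s hs t ht => by
      have e : v t + k • w - (v s + k • w) = v t - v s := by abel
      rw [e]
      exact hC' s hs t ht)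
    (fun s hs t ht => by
      have hii : IntervalIntegrable v volume s t :=
        (hvc.mono (uIcc_subset_Icc hs ht)).intervalIntegrable
      rw [intervalIntegral.integral_add hii (by simp), ← h.pos s hs t ht,
        intervalIntegral.integral_const, smul_smul]
      have e : (t - s) * k = θ t - θ s := by simp only [hθ]; ring
      rw [e, sub_smul]
      abel)
  have ma : a ∈ Icc a b := ⟨le_rfl, hab.le⟩
  have mb : b ∈ Icc a b := ⟨hab.le, le_rfl⟩
  have h1 := EscF.kerl_le hcut.cl.toCK hab hu (hu2 a ma b mb)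
  refine h1.trans ?_
  -- the integrand of the bound
  set P : ℝ → E := fun r => gu l (Z r) (v r) r with hP
  set Q : ℝ → E := fun r => gx l (Z r) (v r) r with hQ
  have hPc : ContinuousOn P (Icc a b) := contP hl h
  have hQc : ContinuousOn Q (Icc a b) := contQ hl h
  have hlc : ContinuousOn (fun r => l (Z r) (v r) r) (Icc a b) :=
    EscT.A6.geo_contl hl.smooth.continuous h
  have hθc : Continuous θ := by simp only [hθ]; fun_prop
  have hφc : ContinuousOn (fun r => θ r * inner ℝ (P r) w) (Icc a b) :=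
    hθc.continuousOn.mul (hPc.inner continuousOn_const)
  have hψc : ContinuousOn (fun r => k * inner ℝ (P r) w + θ r * inner ℝ (Q r) w) (Icc a b) :=
    (continuousOn_const.mul (hPc.inner continuousOn_const)).add
      (hθc.continuousOn.mul (hQc.inner continuousOn_const))
  have hii : ∀ {f : ℝ → ℝ}, ContinuousOn f (Icc a b) → IntervalIntegrable f volume a b := by
    intro f hf
    exact (hf.mono (by rw [uIcc_of_le hab.le])).intervalIntegrable
  have hftc : ∫ r in a..b, (k * inner ℝ (P r) w + θ r * inner ℝ (Q r) w) =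
      θ b * inner ℝ (P b) w - θ a * inner ℝ (P a) w := by
    refine intervalIntegral.integral_eq_sub_of_hasDerivAt_of_le hab.le hφc ?_ (hii hψc)
    intro r hr
    have d1 : HasDerivAt P (Q r) r := hasDerivAt_of_int hQc (fun s hs t ht => h.el s hs t ht) hr
    have d2 : HasDerivAt θ k r := by
      simp only [hθ]
      simpa using ((hasDerivAt_id r).const_mul k).const_add α
    have d3 := d2.mul (d1.inner ℝ (hasDerivAt_const r w))
    simp only [inner_zero_right, zero_add] at d3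
    exact d3
  have hconst : ∫ _ in a..b, Λ * (T + |k|) ^ 2 * ‖w‖ ^ 2 = Λ * (T + |k|) ^ 2 * (b - a) * ‖w‖ ^ 2 := by
    rw [intervalIntegral.integral_const, smul_eq_mul]
    ring
  have hmono : actl l' a b (Z a + θ a • w) u ≤ ∫ r in a..b, (l (Z r) (v r) r +
      (k * inner ℝ (P r) w + θ r * inner ℝ (Q r) w) + Λ * (T + |k|) ^ 2 * ‖w‖ ^ 2) := by
    unfold actl
    refine intervalIntegral.integral_mono_on hab.le (hcut.cl.toCK.ii hu a _ a b)
      (((hii hlc).add (hii hψc)).add (by simp)) ?_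
    intro r hr
    rw [hu2 a ma r hr, hu1 r hr]
    have hvR : ‖v r‖ ≤ R := (h.bd r hr).trans hVR
    have ht := (abs_le.1 (hcut.cl.tay (Z r) (v r) (Z r + θ r • w) (v r + k • w) r)).2
    rw [hcut.eq _ _ _ hvR, hcut.equ _ _ _ hvR, hcut.eqx _ _ _ hvR, add_sub_cancel_left,
      add_sub_cancel_left, inner_smul_right, inner_smul_right, norm_smul, norm_smul,
      Real.norm_eq_abs, Real.norm_eq_abs] at ht
    have h5 : Λ * (|θ r| * ‖w‖ + |k| * ‖w‖) ^ 2 ≤ Λ * (T + |k|) ^ 2 * ‖w‖ ^ 2 := by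
      have h6 : |θ r| * ‖w‖ + |k| * ‖w‖ ≤ (T + |k|) * ‖w‖ := by
        rw [add_mul]
        have := mul_le_mul_of_nonneg_right (hθb r hr) (norm_nonneg w)
        linarith
      have h7 : (|θ r| * ‖w‖ + |k| * ‖w‖) ^ 2 ≤ ((T + |k|) * ‖w‖) ^ 2 :=
        pow_le_pow_left₀ (by positivity) h6 2
      calc Λ * (|θ r| * ‖w‖ + |k| * ‖w‖) ^ 2 ≤ Λ * ((T + |k|) * ‖w‖) ^ 2 :=
            mul_le_mul_of_nonneg_left h7 hΛ
        _ = Λ * (T + |k|) ^ 2 * ‖w‖ ^ 2 := by ring
    simp only [hP, hQ]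
    linarith
  have hact : ∫ r in a..b, l (Z r) (v r) r = kerl l a b (Z a) (Z b) := h.act a b le_rfl hab le_rfl
  rw [intervalIntegral.integral_add ((hii hlc).add (hii hψc)) (by simp),
    intervalIntegral.integral_add (hii hlc) (hii hψc), hftc, hconst, hact] at hmono
  simp only [hP, hθ] at hmono ⊢
  linarith

/-- the momenta agree at a local minimum -/
theorem gu_match {l2 : E → E → ℝ → ℝ} {m2 M2 : ℝ} (hl : TG β m M l) (hl2 : TG β m2 M2 l2)
    {a b c : ℝ} (hab : a < b) (hbc : b < c) {V V' : ℝ} {Z v Z' v' : ℝ → E}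
    (hG : Geo l a b V Z v) (hG' : Geo l2 b c V' Z' v') (hZZ : Z b = Z' b)
    (hker : ∀ {l' : E → E → ℝ → ℝ} {lx' lu' : E → E → ℝ → E} {R Λ : ℝ},
      EscT.Cut l l' lx' lu' m (gC m M) M R Λ → V ≤ R → ∀ x, ‖x - Z b‖ ≤ 1 →
      kerl l a b (Z a) x = kerl l' a b (Z a) x)
    (hker' : ∀ {l' : E → E → ℝ → ℝ} {lx' lu' : E → E → ℝ → E} {R Λ : ℝ},
      EscT.Cut l2 l' lx' lu' m2 (gC m2 M2) M2 R Λ → V' ≤ R → ∀ x, ‖x - Z b‖ ≤ 1 →
      kerl l2 b c x (Z' c) = kerl l' b c x (Z' c))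
    (hmin : IsLocalMin (fun x => kerl l a b (Z a) x + kerl l2 b c x (Z' c)) (Z b)) :
    gu l (Z b) (v b) b = gu l2 (Z b) (v' b) b := by
  obtain ⟨l', lx', lu', Λ, hcut⟩ := hl.exists_cut V
  obtain ⟨l2', lx2', lu2', Λ2, hcut2⟩ := hl2.exists_cut V'
  obtain ⟨K1, hK1, hf1⟩ := first_var hl hab hG hcut le_rfl (-(a / (b - a))) (1 / (b - a))
  obtain ⟨K2, hK2, hf2⟩ := first_var hl2 hbc hG' hcut2 le_rfl (c / (c - b)) (-(1 / (c - b)))
  have hba : b - a ≠ 0 := by linarith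
  have hcb : c - b ≠ 0 := by linarith
  have t1 : -(a / (b - a)) + 1 / (b - a) * a = 0 := by field_simp; ring
  have t2 : -(a / (b - a)) + 1 / (b - a) * b = 1 := by field_simp; ring
  have t3 : c / (c - b) + -(1 / (c - b)) * b = 1 := by field_simp; ring
  have t4 : c / (c - b) + -(1 / (c - b)) * c = 0 := by field_simp; ring
  simp only [t1, t2, zero_smul, one_smul, add_zero, zero_mul, one_mul, sub_zero] at hf1
  simp only [t3, t4, zero_smul, one_smul, add_zero, zero_mul, one_mul] at hf2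
  set D : E := gu l (Z b) (v b) b - gu l2 (Z b) (v' b) b with hD
  -- the inequality near `Z b`
  have hev : ∀ᶠ x in 𝓝 (Z b), 0 ≤ inner ℝ D (x - Z b) + (K1 + K2) * ‖x - Z b‖ ^ 2 := by
    have hball : Metric.closedBall (Z b) 1 ∈ 𝓝 (Z b) := Metric.closedBall_mem_nhds _ one_pos
    filter_upwards [hmin, hball] with x hx hx1
    rw [Metric.mem_closedBall, dist_eq_norm] at hx1
    have e1 := hf1 (x - Z b)
    have e2 := hf2 (x - Z b)
    rw [add_sub_cancel] at e1
    rw [← hZZ, add_sub_cancel] at e2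
    rw [← hker hcut le_rfl x hx1] at e1
    rw [← hker' hcut2 le_rfl x hx1] at e2
    have hx' : kerl l a b (Z a) (Z b) + kerl l2 b c (Z b) (Z' c) ≤
      kerl l a b (Z a) x + kerl l2 b c x (Z' c) := hx
    rw [hD, inner_sub_left]
    linarith
  by_contra hne
  have hDne : D ≠ 0 := sub_ne_zero.2 hne
  have hDpos : 0 < ‖D‖ := norm_pos_iff.2 hDne
  -- along `Z b - s D`
  have htend : Tendsto (fun s : ℝ => Z b - s • D) (𝓝[>] 0) (𝓝 (Z b)) := by
    have h1 : Continuous (fun s : ℝ => Z b - s • D) := by fun_prop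
    have h2 := h1.tendsto 0
    simp only [zero_smul, sub_zero] at h2
    exact h2.mono_left nhdsWithin_le_nhds
  have h3 := htend.eventually hev
  have h4 : ∀ᶠ s : ℝ in 𝓝[>] 0, s < 1 / (K1 + K2 + 1) :=
    mem_of_superset (Ioo_mem_nhdsGT (by positivity)) (fun s hs => hs.2)
  have h5 : ∀ᶠ s : ℝ in 𝓝[>] 0, 0 < s := self_mem_nhdsWithin
  obtain ⟨s, hs1, hs2, hs3⟩ := (h3.and (h4.and h5)).exists
  have e : Z b - s • D - Z b = -(s • D) := by abel
  rw [e, inner_neg_right, inner_smul_right, real_inner_self_eq_norm_sq, norm_neg, norm_smul,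
    Real.norm_of_nonneg hs3.le] at hs1
  rw [lt_div_iff₀ (by positivity)] at hs2
  have hD2 : 0 < ‖D‖ ^ 2 := by positivity
  have h6 : s * (K1 + K2) < 1 := by nlinarith
  have h7 : (K1 + K2) * (s * ‖D‖) ^ 2 = s * (K1 + K2) * (s * ‖D‖ ^ 2) := by ring
  rw [h7] at hs1
  have h8 : 0 < s * ‖D‖ ^ 2 := by positivity
  nlinarith

end PA6

variable {ι : Type} [Fintype ι] {d : ℕ} {E : Type*} [NormedAddCommGroup E] [InnerProductSpace ℝ E]
  [FiniteDimensional ℝ E] {D : GT ι d E} {p : GP} {m M Mf : ℝ} {L : LP} {l0 l1 ll l : E → E → ℝ → ℝ}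
  {f f' : E → ℝ → ℝ}

theorem orbit_of_sitewise {β : Module.Basis ι ℝ E} {ll : ℕ → E → E → ℝ → ℝ} {mm MM : ℕ → ℝ}
    (hl : ∀ j, TG β (mm j) (MM j) (ll j)) {T0 T1 : ℝ} (hT0 : 0 < T0) (τ : ℕ → ℝ)
    (hτ : ∀ j, T0 ≤ τ (j + 1) - τ j ∧ τ (j + 1) - τ j ≤ T1) (w : ℕ → E)
    (hmin : ∀ j, IsLocalMin (fun x => kerl (ll j) (τ j) (τ (j + 1)) (w j) x +
      kerl (ll (j + 1)) (τ (j + 1)) (τ (j + 2)) x (w (j + 2))) (w (j + 1))) :
    ∃ x v : ℕ → ℝ → E, ∀ j, ContinuousOn (x j) (Icc (τ j) (τ (j + 1))) ∧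
      ContinuousOn (v j) (Icc (τ j) (τ (j + 1))) ∧
      (∀ t ∈ Ioo (τ j) (τ (j + 1)), HasDerivAt (x j) (v j t) t) ∧
      (∀ t ∈ Ioo (τ j) (τ (j + 1)), HasDerivAt (fun t => gu (ll j) (x j t) (v j t) t)
        (gx (ll j) (x j t) (v j t) t) t) ∧
      x j (τ j) = w j ∧ x j (τ (j + 1)) = w (j + 1) ∧
      (∫ t in τ j..τ (j + 1), ll j (x j t) (v j t) t) = kerl (ll j) (τ j) (τ (j + 1)) (w j) (w (j + 1)) ∧
      gu (ll j) (w (j + 1)) (v j (τ (j + 1))) (τ (j + 1)) =
        gu (ll (j + 1)) (w (j + 1)) (v (j + 1) (τ (j + 1))) (τ (j + 1)) := by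
  have hlt : ∀ j, τ j < τ (j + 1) := fun j => by linarith [(hτ j).1]
  choose V hV0 hV using fun j : ℕ =>
    exists_geo (E := E) (mm j) (MM j) (‖w (j + 1) - w j‖ + 1) (T1 := T1) (hl j).m_pos hT0
  have hGe := fun j : ℕ => (hV j (hl j) (hτ j).1 (hτ j).2 (z := w j) (z' := w (j + 1))
    (by linarith)).1
  choose Z v hZ0 hZ1 hG using hGe
  have hZZ : ∀ j : ℕ, Z j (τ (j + 1)) = Z (j + 1) (τ (j + 1)) := fun j => by
    rw [hZ1 j, hZ0 (j + 1)]
  have hPP : ∀ j : ℕ, gu (ll j) (w (j + 1)) (v j (τ (j + 1))) (τ (j + 1)) =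
        gu (ll (j + 1)) (w (j + 1)) (v (j + 1) (τ (j + 1))) (τ (j + 1)) := by
    intro j
    have hmatch := PA6.gu_match (hl j) (hl (j + 1)) (hlt j) (hlt (j + 1)) (hG j) (hG (j + 1)) (hZZ j)
      ?_ ?_ ?_
    · rw [hZ1 j] at hmatch
      exact hmatch
    · intro l' lx' lu' R Λ hcut hVR x hx
      rw [hZ1 j] at hx
      rw [hZ0 j]
      refine (hV j (hl j) (hτ j).1 (hτ j).2 (z := w j) (z' := x) ?_).2 hcut hVR
      have h1 : x - w j = (x - w (j + 1)) + (w (j + 1) - w j) := by abel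
      rw [h1]
      exact (norm_add_le _ _).trans (by linarith)
    · intro l' lx' lu' R Λ hcut hVR x hx
      rw [hZ1 j] at hx
      rw [hZ1 (j + 1)]
      refine (hV (j + 1) (hl (j + 1)) (hτ (j + 1)).1 (hτ (j + 1)).2 (z := x)
        (z' := w (j + 1 + 1)) ?_).2 hcut hVR
      have h1 : w (j + 1 + 1) - x = (w (j + 1 + 1) - w (j + 1)) - (x - w (j + 1)) := by abel
      rw [h1]
      exact (norm_sub_le _ _).trans (by linarith)
    · rw [hZ0 j, hZ1 j, hZ1 (j + 1)]
      exact hmin j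
  refine ⟨Z, v, fun j => ⟨EscT.A6.geo_contZ (hG j), EscT.A6.geo_contv (hG j), ?_, ?_, hZ0 j, hZ1 j,
    ?_, hPP j⟩⟩
  · intro t ht
    exact PA6.hasDerivAt_of_int (EscT.A6.geo_contv (hG j)) (fun s hs t ht => (hG j).pos s hs t ht) ht
  · intro t ht
    exact PA6.hasDerivAt_of_int (PA6.contQ (hl j) (hG j)) (fun s hs t ht => (hG j).el s hs t ht) ht
  · have h1 := (hG j).act (τ j) (τ (j + 1)) le_rfl (hlt j) le_rfl
    rw [hZ0, hZ1] at h1
    exact h1

end EscZ
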