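import Pool.Agent.EscW.QDefs
import Pool.Agent.EscT.C7a

/-!
Module QaC7a: `low_path` of EscT/C7a for all weights in the family.
-/

set_option autoImplicit false
set_option linter.unusedSectionVars false

noncomputable section

namespace EscZa

open MeasureTheory Set Filter Topology Esc EscF EscG EscT EscZ
open scoped ContDiff

variable {ι : Type} [Fintype ι] {d : ℕ} {E : Type*} [NormedAddCommGroup E] [InnerProductSpace ℝ E]
  [FiniteDimensional ℝ E] {D : GT ι d E} {p : GP} {m M Mf : ℝ} {L : LP} {ll l : E → E → ℝ → ℝ} {Φ : Fx}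

section KB

variable [hKF : Fact (KB D.A Φ.K)]

theorem C7a_q_cont (h : D.Ok0) (s : ℝ) :
    Continuous (fun p : E × E × ℝ => (Φ.K p.2.2 * D.F p.1 p.2.1 p.2.2 - s) ^ 2) :=
  (((hKF.out.cont.comp (continuous_snd.comp continuous_snd)).mul h.F_cont).sub continuous_const).pow 2

theorem C7a_q_ii (h : D.Ok0) (s t : ℝ) (x : E) {u : ℝ → E} (hu : Adm u) (a b : ℝ) :
    IntervalIntegrable (fun r => (Φ.K r * D.F (traj t x u r) (u r) r - s) ^ 2) volume a b :=
  C7a_ii (l := fun x v r => (Φ.K r * D.F x v r - s) ^ 2) (C7a_q_cont h s) hu t x a b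

/-- a control which stays away from the rooms: short time, bounded length, passing costs -/
theorem C7a_core (h : D.Ok0) {C η θ : ℝ} (hC : 0 ≤ C) (hθ : 0 < θ)
    (hst : ∀ x v t, x ∈ D.Out t η → D.dB x t v ≤ (1 - θ) * D.F x v t) {s : ℝ} (hs : 1 ≤ s) (t : ℝ) (x : E)
    {u : ℝ → E} (hu : Adm u) {a b : ℝ} (hab : a ≤ b)
    (hex : (∫ r in a..b, C7a_e D (traj t x u r) (u r) r) ≤ C)
    (hk : (∫ r in a..b, (Φ.K r * D.F (traj t x u r) (u r) r - s) ^ 2) ≤ C * s)
    (hout : ∀ r ∈ Ioo a b, traj t x u r ∈ D.Out r η) :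
    b - a ≤ (C + 2 * D.A * C / θ) / s ∧ ∀ r0 ∈ Icc a b, D.j r0 (traj t x u a) (traj t x u b) ≤
      (∫ r in a..b, C7a_e D (traj t x u r) (u r) r) + 2 * D.A * ((C + 2 * D.A * C / θ) / s) *
        (D.A * (C + 2 * (C + 2 * D.A * C / θ)) / D.mF) := by
  have hs0 : 0 < s := by linarith
  have hA := h.A_pos
  have hmF := C7a_mF h
  obtain ⟨K, hK⟩ : ∃ K, K = C + 2 * D.A * C / θ := ⟨_, rfl⟩
  have hK0 : 0 ≤ K := by rw [hK]; positivity
  rw [← hK]
  have iq := C7a_q_ii (Φ := Φ) h s t x hu a b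
  have ie := C7a_e_ii h t x hu a b
  -- short time
  have h1 : s / 2 * (b - a) ≤ C / 2 + D.A / θ * C := by
    have h2 : (∫ r in a..b, s / 2) ≤ ∫ r in a..b,
        ((2 * s)⁻¹ * (Φ.K r * D.F (traj t x u r) (u r) r - s) ^ 2 +
          D.A / θ * C7a_e D (traj t x u r) (u r) r) := by
      refine intervalIntegral.integral_mono_on_of_le_Ioo hab (by simp)
        ((iq.const_mul _).add (ie.const_mul _)) fun r hr => ?_
      have h3 := hst _ (u r) r (hout r hr)
      have h4 : θ * D.F (traj t x u r) (u r) r ≤ C7a_e D (traj t x u r) (u r) r := by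
        simp only [C7a_e]
        linarith
      have hF0 := C7a_F_nonneg h (traj t x u r) (u r) r
      set F := D.F (traj t x u r) (u r) r with hF
      have h5 : Φ.K r * F ≤ D.A * F := mul_le_mul_of_nonneg_right (hKF.out.le r) hF0
      have h6 : D.A * F ≤ D.A / θ * C7a_e D (traj t x u r) (u r) r := by
        rw [div_mul_eq_mul_div, le_div_iff₀ hθ]
        calc D.A * F * θ = D.A * (θ * F) := by ring
          _ ≤ _ := mul_le_mul_of_nonneg_left h4 hA.le
      have h7 : s / 2 ≤ (2 * s)⁻¹ * (Φ.K r * F - s) ^ 2 + Φ.K r * F := by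
        have h8 : (2 * s)⁻¹ * (Φ.K r * F - s) ^ 2 + Φ.K r * F - s / 2 = (2 * s)⁻¹ * (Φ.K r * F) ^ 2 := by
          field_simp
          ring
        have h9 : 0 ≤ (2 * s)⁻¹ * (Φ.K r * F) ^ 2 := by positivity
        linarith
      linarith
    rw [intervalIntegral.integral_const, smul_eq_mul, intervalIntegral.integral_add (iq.const_mul _)
      (ie.const_mul _), intervalIntegral.integral_const_mul, intervalIntegral.integral_const_mul] at h2
    have h3 : (2 * s)⁻¹ * (∫ r in a..b, (Φ.K r * D.F (traj t x u r) (u r) r - s) ^ 2) ≤ C / 2 := by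
      calc (2 * s)⁻¹ * (∫ r in a..b, (Φ.K r * D.F (traj t x u r) (u r) r - s) ^ 2)
          ≤ (2 * s)⁻¹ * (C * s) := mul_le_mul_of_nonneg_left hk (by positivity)
        _ = C / 2 := by field_simp
    have h4 : D.A / θ * (∫ r in a..b, C7a_e D (traj t x u r) (u r) r) ≤ D.A / θ * C :=
      mul_le_mul_of_nonneg_left hex (by positivity)
    linarith
  have hba : b - a ≤ K / s := by
    rw [le_div_iff₀ hs0, hK]
    have : D.A / θ * C = D.A * C / θ := by ring
    have h2 : 2 * D.A * C / θ = 2 * (D.A * C / θ) := by ring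
    rw [h2]
    nlinarith
  refine ⟨hba, fun r0 hr0 => ?_⟩
  -- bounded length
  have hlen : ∫ r in a..b, ‖u r‖ ≤ D.A * (C + 2 * K) / D.mF := by
    rw [le_div_iff₀ hmF]
    have h2 : (∫ r in a..b, D.mF * ‖u r‖) ≤ ∫ r in a..b,
        (D.A * (s⁻¹ * (Φ.K r * D.F (traj t x u r) (u r) r - s) ^ 2 + 2 * s)) := by
      refine intervalIntegral.integral_mono_on hab ((C7a_norm_ii hu a b).const_mul _)
        (((iq.const_mul _).add (by simp)).const_mul _) fun r _ => ?_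
      have hF0 := C7a_F_nonneg h (traj t x u r) (u r) r
      refine (C7a_F_low h (traj t x u r) (u r) r).trans ?_
      set F := D.F (traj t x u r) (u r) r with hF
      have h5 : F ≤ D.A * (Φ.K r * F) := by
        have := mul_le_mul_of_nonneg_right (hKF.out.pos r) hF0
        linarith
      refine h5.trans (mul_le_mul_of_nonneg_left ?_ hA.le)
      have h8 : s⁻¹ * (Φ.K r * F - s) ^ 2 + 2 * s - Φ.K r * F =
          s⁻¹ * ((Φ.K r * F - 3 / 2 * s) ^ 2 + 3 / 4 * s ^ 2) := by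
        field_simp
        ring
      have h9 : 0 ≤ s⁻¹ * ((Φ.K r * F - 3 / 2 * s) ^ 2 + 3 / 4 * s ^ 2) := by positivity
      linarith
    rw [intervalIntegral.integral_const_mul, intervalIntegral.integral_const_mul,
      intervalIntegral.integral_add (iq.const_mul _) (by simp), intervalIntegral.integral_const_mul,
      intervalIntegral.integral_const, smul_eq_mul] at h2
    have h3 : s⁻¹ * (∫ r in a..b, (Φ.K r * D.F (traj t x u r) (u r) r - s) ^ 2) ≤ C := by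
      calc s⁻¹ * (∫ r in a..b, (Φ.K r * D.F (traj t x u r) (u r) r - s) ^ 2)
          ≤ s⁻¹ * (C * s) := mul_le_mul_of_nonneg_left hk (by positivity)
        _ = C := by field_simp
    have h4 : (b - a) * (2 * s) ≤ 2 * K := by
      rw [le_div_iff₀ hs0] at hba
      linarith
    have h5 := mul_le_mul_of_nonneg_left (add_le_add h3 h4) hA.le
    linarith
  have h2 := j_le_frozen h r0 hab (traj t x u a) hu
  simp only [C7a_traj hu] at h2
  have h3 := C7a_frozen h t x hab hu hr0.1 hr0.2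
  have h4 : 0 ≤ ∫ r in a..b, ‖u r‖ := intervalIntegral.integral_nonneg hab fun r _ => norm_nonneg _
  have h5 : 2 * D.A * (b - a) * (∫ r in a..b, ‖u r‖) ≤ 2 * D.A * (K / s) * (D.A * (C + 2 * K) / D.mF) := by
    have : 2 * D.A * (b - a) ≤ 2 * D.A * (K / s) := mul_le_mul_of_nonneg_left hba (by positivity)
    exact mul_le_mul this hlen h4 (by positivity)
  have h6 := (abs_le.1 h3).1
  linarith

end KB

/-- structure of controls of bounded cost: short and without room, or through rooms `v` (first) and `v'`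
(last) -/
theorem low_path (h : D.Ok) (C : ℝ) {ε : ℝ} (hε : 0 < ε) : ∃ s0 : ℝ, 1 ≤ s0 ∧ ∀ s, s0 ≤ s →
    ∀ Φ : Fx, KB D.A Φ.K → ∀ (x : E) (u : ℝ → E), Adm u → ∀ t t', t < t' → t' ≤ t + 4 → D.exc t t' x u ≤ C →
    (∫ r in t..t', (Φ.K r * D.F (traj t x u r) (u r) r - s) ^ 2) ≤ C * s →
    (t' - t ≤ ε ∧ D.j t x (traj t x u t') ≤ D.exc t t' x u + ε) ∨
    ∃ v ∈ D.Lam, ∃ v' ∈ D.Lam, (D.InJ (v' - v) ∨ D.j t x (D.q t + v) + D.Us +
          D.j t' (D.q t' + v') (traj t x u t') ≤ D.exc t t' x u + ε) ∧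
        D.j t x (D.q t + v) + D.j t' (D.q t' + v') (traj t x u t') ≤ D.exc t t' x u + ε := by
  have h0 : D.Ok0 := h.toOk0
  have hA := h0.A_pos
  have hmF := C7a_mF h0
  have hMF : 0 < D.MF := lt_of_lt_of_le hmF (h0.fr0 0).fins.mF_le
  obtain ⟨η, hηd⟩ : ∃ η, η = ε / (60 * D.MF) := ⟨_, rfl⟩
  have hη : 0 < η := by rw [hηd]; positivity
  have hη60 : 60 * D.MF * η = ε := by rw [hηd]; field_simp
  obtain ⟨θ, hθ, -, hst⟩ := h0.strict η hη
  obtain ⟨K, hK⟩ : ∃ K, K = |C| + 2 * D.A * |C| / θ := ⟨_, rfl⟩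
  have hK0 : 0 ≤ K := by rw [hK]; positivity
  obtain ⟨Λ, hΛ⟩ : ∃ Λ, Λ = D.A * (|C| + 2 * K) / D.mF := ⟨_, rfl⟩
  have hΛ0 : 0 ≤ Λ := by rw [hΛ]; positivity
  refine ⟨max 1 (max (K / ε) (max (D.A * K / η) (12 * D.A * K * Λ / ε))), le_max_left _ _, ?_⟩
  intro s hs Φ hKB x u hu t t' htt ht4 hex hk
  have hKF : Fact (KB D.A Φ.K) := ⟨hKB⟩
  have hs1 : 1 ≤ s := (le_max_left _ _).trans hs
  have hs0 : 0 < s := by linarith
  have hsa : K / ε ≤ s := ((le_max_left _ _).trans (le_max_right _ _)).trans hs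
  have hsb : D.A * K / η ≤ s :=
    (((le_max_left _ _).trans (le_max_right _ _)).trans (le_max_right _ _)).trans hs
  have hsc : 12 * D.A * K * Λ / ε ≤ s :=
    (((le_max_right _ _).trans (le_max_right _ _)).trans (le_max_right _ _)).trans hs
  have e1 : K / s ≤ ε := by
    rw [div_le_iff₀ hε] at hsa
    rw [div_le_iff₀ hs0]
    linarith
  have e2 : D.A * (K / s) ≤ η := by
    rw [div_le_iff₀ hη] at hsb
    rw [← mul_div_assoc, div_le_iff₀ hs0]
    linarith
  have e3 : 2 * D.A * (K / s) * Λ ≤ ε / 6 := by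
    rw [div_le_iff₀ hε] at hsc
    have : 2 * D.A * (K / s) * Λ = 2 * D.A * K * Λ / s := by ring
    rw [this, div_le_iff₀ hs0]
    linarith
  obtain ⟨γ, hγd⟩ : ∃ γ : ℝ → E, γ = traj t x u := ⟨_, rfl⟩
  have hγ : Continuous γ := by rw [hγd]; exact traj_cont hu t x
  obtain ⟨g, hgd⟩ : ∃ g : ℝ → ℝ, g = fun r => C7a_e D (traj t x u r) (u r) r := ⟨_, rfl⟩
  have hgi : ∀ a b, IntervalIntegrable g volume a b := fun a b => by rw [hgd]; exact C7a_e_ii h0 t x hu a b
  have hg0 : ∀ r, 0 ≤ g r := fun r => by rw [hgd]; exact C7a_e_nonneg h0 _ _ _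
  have hexc : D.exc t t' x u = ∫ r in t..t', g r := by rw [hgd]; rfl
  have hexc0 : 0 ≤ ∫ r in t..t', g r := intervalIntegral.integral_nonneg htt.le fun r _ => hg0 r
  have hC0 : 0 ≤ C := by rw [hexc] at hex; linarith
  have hCa : |C| = C := abs_of_nonneg hC0
  have hγt : γ t = x := by rw [hγd]; simp [traj]
  rw [hexc]
  rw [hexc] at hex
  rw [← hγd]
  have core : ∀ {a b : ℝ}, t ≤ a → a ≤ b → b ≤ t' → (∀ r ∈ Ioo a b, γ r ∈ D.Out r η) →
      b - a ≤ K / s ∧ ∀ r0 ∈ Icc a b, D.j r0 (γ a) (γ b) ≤ (∫ r in a..b, g r) + ε / 6 := by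
    intro a b h1 h2 h3 h4
    have h5 := C7a_mono hgi hg0 h1 h2 h3
    have h6 := C7a_mono (g := fun r => (Φ.K r * D.F (traj t x u r) (u r) r - s) ^ 2)
      (fun a b => C7a_q_ii (Φ := Φ) h0 s t x hu a b) (fun r => sq_nonneg _) h1 h2 h3
    have h7 := C7a_core (Φ := Φ) h0 hC0 hθ hst hs1 t x hu h2 (by rw [hgd] at h5 hex; exact h5.trans hex)
      (h6.trans hk) (by rw [hγd] at h4; exact h4)
    rw [hCa] at hK hΛ
    rw [← hK, ← hΛ] at h7
    refine ⟨h7.1, fun r0 hr0 => ?_⟩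
    have h8 := h7.2 r0 hr0
    rw [hγd, hgd]
    linarith
  by_cases hroom : ∃ r ∈ Icc t t', ∃ v ∈ (D.Lam : Set E), Metric.infDist (γ r + v) (D.Z r) < η
  swap
  · left
    push Not at hroom
    obtain ⟨h1, h2⟩ := core le_rfl htt.le le_rfl (fun r hr v hv => hroom r (Ioo_subset_Icc_self hr) v hv)
    refine ⟨h1.trans e1, ?_⟩
    have h3 := h2 t ⟨le_rfl, htt.le⟩
    rw [hγt] at h3
    linarith
  right
  obtain ⟨r1, hr1, hr1o, v, hv, hv'⟩ := C7a_first h0 hγ (D.Lam : Set E) hη hroom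
  obtain ⟨r2, hr2, hr2o, w, hw, hw'⟩ := C7a_last h0 hγ (D.Lam : Set E) hη hroom
  have hr12 : r1 ≤ r2 := by
    by_contra hlt
    push Not at hlt
    obtain ⟨r, hr, v0, hv0, hlt0⟩ := hroom
    rcases lt_or_ge r r1 with h1 | h1
    · exact absurd (hr1o r ⟨hr.1, h1⟩ v0 hv0) (not_le.2 hlt0)
    · exact absurd (hr2o r ⟨hlt.trans_le h1, hr.2⟩ v0 hv0) (not_le.2 hlt0)
  have hMF0 : 0 ≤ 2 * D.MF := by positivity
  -- the first piece
  obtain ⟨c1, c2⟩ := core le_rfl hr1.1 hr1.2 (fun r hr v hv => hr1o r ⟨hr.1.le, hr.2⟩ v hv)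
  have c3 := c2 t ⟨le_rfl, hr1.1⟩
  rw [hγt] at c3
  have c4 : Metric.infDist (γ r1 + v) (D.Z t) ≤ 3 * η := by
    have h1 := C7a_inf h0 (γ r1 + v) r1 t
    rw [abs_of_nonneg (by linarith [hr1.1] : 0 ≤ r1 - t)] at h1
    have h2 := mul_le_mul_of_nonneg_left c1 hA.le
    linarith
  have c5 := (near h0 t c4).1
  have c6 : D.j t x (D.q t + -v) ≤ (∫ r in t..r1, g r) + ε / 6 + 6 * D.MF * η := by
    have h1 := j_tri h0 t x (γ r1) (D.q t + -v)
    have h2 := j_Lam h0 hv t (γ r1) (D.q t + -v)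
    have h3 : D.q t + -v + v = D.q t := by abel
    rw [h3] at h2
    linarith
  -- the last piece
  obtain ⟨d1, d2⟩ := core hr2.1 hr2.2 le_rfl (fun r hr v hv => hr2o r ⟨hr.1, hr.2.le⟩ v hv)
  have d3 := d2 t' ⟨hr2.2, le_rfl⟩
  have d4 : Metric.infDist (γ r2 + w) (D.Z t') ≤ 3 * η := by
    have h1 := C7a_inf h0 (γ r2 + w) r2 t'
    rw [abs_sub_comm, abs_of_nonneg (by linarith [hr2.2] : 0 ≤ t' - r2)] at h1
    have h2 := mul_le_mul_of_nonneg_left d1 hA.le
    linarith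
  have d5 := (near h0 t' d4).2
  have d6 : D.j t' (D.q t' + -w) (γ t') ≤ (∫ r in r2..t', g r) + ε / 6 + 6 * D.MF * η := by
    have h1 := j_tri h0 t' (D.q t' + -w) (γ r2) (γ t')
    have h2 := j_Lam h0 hw t' (D.q t' + -w) (γ r2)
    have h3 : D.q t' + -w + w = D.q t' := by abel
    rw [h3] at h2
    linarith
  have a1 := intervalIntegral.integral_add_adjacent_intervals (hgi t r1) (hgi r1 r2)
  have a2 := intervalIntegral.integral_add_adjacent_intervals (hgi t r2) (hgi r2 t')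
  have a3 : 0 ≤ ∫ r in r1..r2, g r := intervalIntegral.integral_nonneg hr12 fun r _ => hg0 r
  refine ⟨-v, neg_mem hv, -w, neg_mem hw, ?_, by linarith⟩
  by_cases hJ : D.InJ (-w - -v)
  · exact Or.inl hJ
  right
  have hJ' : ¬ D.InJ (w - v) := fun h1 => hJ (by
    have := C7a_J_neg h1
    have h2 : -(w - v) = -w - -v := by abel
    rwa [h2] at this)
  -- the last visit of the class of `v`
  obtain ⟨a, ha, hao, va, hva, hva'⟩ := C7a_last h0 hγ {y | y ∈ D.Lam ∧ D.InJ (y - v)} (a := r1) (b := r2)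
    (η1 := 3 * η) hη ⟨r1, ⟨le_rfl, hr12⟩, v, ⟨hv, by rw [sub_self]; exact C7a_J_zero⟩, by linarith⟩
  -- the first later visit of another class
  obtain ⟨b, hb, hbo, vb, hvb, hvb'⟩ := C7a_first h0 hγ {y | y ∈ D.Lam ∧ ¬ D.InJ (y - v)} (a := a) (b := r2)
    (η1 := 3 * η) hη ⟨r2, ⟨ha.2, le_rfl⟩, w, ⟨hw, hJ'⟩, by linarith⟩
  obtain ⟨f1, f2⟩ := core (a := a) (b := b) (hr1.1.trans ha.1) hb.1 (hb.2.trans hr2.2) (fun r hr y hy => by
    have hη3 : η ≤ 3 * η := by linarith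
    by_cases hyJ : D.InJ (y - v)
    · exact hη3.trans (hao r ⟨hr.1, hr.2.le.trans hb.2⟩ y ⟨hy, hyJ⟩)
    · exact hη3.trans (hbo r ⟨hr.1.le, hr.2⟩ y ⟨hy, hyJ⟩))
  have f3 := f2 a ⟨le_rfl, hb.1⟩
  have f4 := (near h0 a hva'.le).2
  have f5 : Metric.infDist (γ b + vb) (D.Z a) ≤ 5 * η := by
    have h1 := C7a_inf h0 (γ b + vb) b a
    rw [abs_of_nonneg (by linarith [hb.1] : 0 ≤ b - a)] at h1
    have h2 := mul_le_mul_of_nonneg_left f1 hA.le
    linarith
  have f6 := (near h0 a f5).1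
  have f7 : D.Us ≤ D.j a (D.q a) (D.q a + (va - vb)) := by
    refine Us_le h a (sub_mem hva.1 hvb.1) fun hh => hvb.2 ?_
    have := C7a_J_sub hva.2 hh
    have e : va - v - (va - vb) = vb - v := by abel
    rwa [e] at this
  have f8 := j_tri h0 a (D.q a) (γ a + va) (D.q a + (va - vb))
  have f9 := j_tri h0 a (γ a + va) (γ b + va) (D.q a + (va - vb))
  have f10 := j_Lam h0 hva.1 a (γ a) (γ b)
  have f11 := j_Lam h0 (sub_mem hvb.1 hva.1) a (γ b + va) (D.q a + (va - vb))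
  have e4 : γ b + va + (vb - va) = γ b + vb := by abel
  have e5 : D.q a + (va - vb) + (vb - va) = D.q a := by abel
  rw [e4, e5] at f11
  have f12 : ∫ r in a..b, g r ≤ ∫ r in r1..r2, g r := C7a_mono hgi hg0 ha.1 hb.1 hb.2
  linarith


end EscZa
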