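import Pool.Agent.EscW.QDefs
import Pool.Agent.EscT.C7b
import Pool.Agent.EscG.C2
import Pool.Agent.EscT.C6
import Pool.Agent.EscW.QaC6b
import Pool.Agent.EscW.QaC7a

/-!
Project EscT (MP_6acca1_an), core, module C7b: lower bound of the kernels.
-/

noncomputable section

namespace EscZa

open MeasureTheory Set Filter Topology Esc EscF EscG EscT EscZ
open scoped ContDiff

variable {ι : Type} [Fintype ι] {d : ℕ} {E : Type*} [NormedAddCommGroup E] [InnerProductSpace ℝ E]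
  [FiniteDimensional ℝ E] {D : GT ι d E} {m : ℝ} {L : LP} {ll : E → E → ℝ → ℝ}

set_option linter.unusedSectionVars false

theorem C7b_lv0 (b : Fin d → E) : lv b 0 = 0 := by simp [lv]

theorem C7b_lv_mem (h : D.Ok0) (n : Fin d → ℤ) : lv D.b n ∈ D.Lam := by
  unfold lv
  refine sum_mem fun i _ => ?_
  obtain ⟨k, hk⟩ := (h.fr0 0).bβ i
  have hk' : D.b i = D.β k := hk
  rw [hk', Int.cast_smul_eq_zsmul]
  exact zsmul_mem (Submodule.subset_span ⟨k, rfl⟩ : D.β k ∈ Submodule.span ℤ (Set.range D.β)) _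

theorem C7b_j (h : D.Ok0) (t : ℝ) (z x' : E) (n : Fin d → ℤ) :
    D.j t z (x' + lv D.b n) = D.j t z x' := by
  have h1 : (D.fr t).j (z + lv (D.fr t).b 0) (x' + lv (D.fr t).b n) = (D.fr t).j z x' :=
    EscG.j_J (h.fr0 t) z x' 0 n
  have h2 : lv (D.fr t).b 0 = (0 : E) := C7b_lv0 _
  rw [h2, add_zero] at h1
  exact h1

theorem C7b_corr (h : D.Ok0) (s t t' : ℝ) (x x' : E) (n : Fin d → ℤ) :
    D.corr s t t' x (x' + lv D.b n) = D.corr s t t' x x' := by
  unfold GT.corr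
  rw [bb_Lam h (C7b_lv_mem h n)]

theorem C7b_int_nonneg {g : ℝ → ℝ} {t t' : ℝ} (htt : t ≤ t') (s : ℝ) :
    0 ≤ ∫ r in t..t', (g r - s) ^ 2 :=
  intervalIntegral.integral_nonneg htt fun _ _ => sq_nonneg _

/-- lower bound of the kernels -/
theorem low (h : D.Ok) (m : ℝ) (L : LP) (C : ℝ) {ε : ℝ} (hε : 0 < ε) : ∃ s0 : ℝ, 1 ≤ s0 ∧ ∀ s, s0 ≤ s → ∀ Φ ll,
    FTa D m L Φ s ll → ∀ t t', t < t' → t' ≤ t + 4 → ∀ x x' : E,
    (D0 D).kk ll s t t' x x' ≤ D.corr s t t' x x' + fl Φ s t t' + C * s →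
    (t' - t ≤ ε ∧ s * D.j t x x' + D.corr s t t' x x' + fl Φ s t t' ≤ (D0 D).kk ll s t t' x x' + ε * s) ∨
    ∃ v ∈ D.Lam, ∃ v' ∈ D.Lam, (D.InJ (v' - v) ∨ s * (D.j t x (D.q t + v) + D.Us +
          D.j t' (D.q t' + v') x') + D.corr s t t' x x' + fl Φ s t t' ≤ (D0 D).kk ll s t t' x x' + ε * s) ∧
        s * (D.j t x (D.q t + v) + D.j t' (D.q t' + v') x') + D.corr s t t' x x' + fl Φ s t t' ≤
          (D0 D).kk ll s t t' x x' + ε * s := by
  have hA := h.A_pos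
  set K : ℝ := |C| + 2 with hK
  have hK0 : 0 < K := by positivity
  set C' : ℝ := 2 * K + 4 * D.A * K with hC'
  have hC'1 : 2 * K ≤ C' := by
    have : 0 < 4 * D.A * K := by positivity
    linarith
  have hC'2 : 4 * D.A * K ≤ C' := by linarith
  set ε1 : ℝ := min (1 / 2) (ε / (8 * K + 4)) with hε1
  have h8K : 0 < 8 * K + 4 := by positivity
  have hε10 : 0 < ε1 := lt_min (by norm_num) (by positivity)
  have hε1a : ε1 ≤ 1 / 2 := min_le_left _ _
  have hε1b : ε1 * (8 * K + 4) ≤ ε := by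
    have h1 : ε1 ≤ ε / (8 * K + 4) := min_le_right _ _
    rwa [le_div_iff₀ h8K] at h1
  have hε4 : 0 < ε / 4 := by positivity
  obtain ⟨s1, hs1, H1⟩ := cst_low h m L hε10
  obtain ⟨s2, hs2, H2⟩ := low_path h C' hε4
  refine ⟨max (max s1 s2) (4 / ε), (hs1.trans (le_max_left _ _)).trans (le_max_left _ _), ?_⟩
  intro s hs Φ ll hl t t' htt h4 x x' hC
  have hss1 : s1 ≤ s := ((le_max_left _ _).trans (le_max_left _ _)).trans hs
  have hss2 : s2 ≤ s := ((le_max_right _ _).trans (le_max_left _ _)).trans hs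
  have hs1' : 1 ≤ s := hs1.trans hss1
  have hs0 : 0 ≤ s := by linarith
  have hsε : 4 / ε ≤ s := (le_max_right _ _).trans hs
  rw [div_le_iff₀ hε] at hsε
  obtain ⟨u, n, hu, hx, hlt⟩ := exists_cst_lt h hl.toTG hs0 htt one_pos x x'
  have G1 := H1 s hss1 Φ ll hl x u hu t t' htt.le h4
  have hexc := exc_nonneg h.toOk0 htt.le x hu
  rw [hx, C7b_corr h.toOk0] at G1
  set exc := D.exc t t' x u with hexcd
  set I : ℝ := ∫ r in t..t', (Φ.K r * D.F (traj t x u r) (u r) r - s) ^ 2 with hI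
  have hI0 : 0 ≤ I := C7b_int_nonneg htt.le s
  have hIA : 0 ≤ I / (4 * D.A) := by positivity
  have hCs : C * s ≤ |C| * s := mul_le_mul_of_nonneg_right (le_abs_self C) hs0
  have hse : 0 ≤ s * exc := mul_nonneg hs0 hexc
  have hε1s : ε1 * s ≤ 1 / 2 * s := mul_le_mul_of_nonneg_right hε1a hs0
  have hεse : ε1 * (s * exc) ≤ 1 / 2 * (s * exc) := mul_le_mul_of_nonneg_right hε1a hse
  -- the bounds
  have hb : 1 / 2 * (s * exc) + I / (4 * D.A) ≤ K * s := by
    rw [hK]; linarith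
  have hexcC : exc ≤ C' := by
    have h2 : s * exc ≤ s * C' := by
      have h3 : 2 * K * s ≤ C' * s := mul_le_mul_of_nonneg_right hC'1 hs0
      linarith
    exact le_of_mul_le_mul_left h2 (by linarith)
  have hexcK : exc ≤ 2 * K := by
    have h2 : s * exc ≤ s * (2 * K) := by linarith
    exact le_of_mul_le_mul_left h2 (by linarith)
  have hIC : I ≤ C' * s := by
    have h2 : I / (4 * D.A) ≤ K * s := by linarith
    rw [div_le_iff₀ (by positivity)] at h2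
    have h3 : 4 * D.A * K * s ≤ C' * s := mul_le_mul_of_nonneg_right hC'2 hs0
    linarith
  have hεK : ε1 * (s * exc) ≤ ε1 * (s * (2 * K)) :=
    mul_le_mul_of_nonneg_left (mul_le_mul_of_nonneg_left hexcK hs0) hε10.le
  have hεε : ε1 * (8 * K + 4) * s ≤ ε * s := mul_le_mul_of_nonneg_right hε1b hs0
  -- the total
  have htot : s * exc + D.corr s t t' x x' + fl Φ s t t' + ε / 4 * s ≤
      (D0 D).kk ll s t t' x x' + ε * s := by
    have e1 : (1 - ε1) * (s * exc) = s * exc - ε1 * (s * exc) := by ring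
    rw [e1] at G1
    have h5 : 0 ≤ ε1 * s := mul_nonneg hε10.le hs0
    nlinarith
  have key : ∀ a : ℝ, a ≤ exc + ε / 4 →
      s * a + D.corr s t t' x x' + fl Φ s t t' ≤ (D0 D).kk ll s t t' x x' + ε * s := by
    intro a ha
    have := mul_le_mul_of_nonneg_left ha hs0
    have e : s * (exc + ε / 4) = s * exc + ε / 4 * s := by ring
    linarith
  rcases H2 s hss2 Φ hl.kb x u hu t t' htt h4 hexcC hIC with ⟨h5, h6⟩ | ⟨v, hv, v', hv', h5, h6⟩
  · left
    rw [hx, C7b_j h.toOk0] at h6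
    exact ⟨by linarith, key _ h6⟩
  · right
    rw [hx, C7b_j h.toOk0] at h5 h6
    exact ⟨v, hv, v', hv', h5.imp id (key _), key _ h6⟩

/-- in particular -/
theorem kk_ge (h : D.Ok) (m : ℝ) (L : LP) {ε : ℝ} (hε : 0 < ε) : ∃ s0 : ℝ, 1 ≤ s0 ∧ ∀ s, s0 ≤ s → ∀ Φ ll,
    FTa D m L Φ s ll → ∀ t t', t < t' → t' ≤ t + 4 → ∀ x x' : E,
    D.corr s t t' x x' + fl Φ s t t' - ε * s ≤ (D0 D).kk ll s t t' x x' := by
  have hA := h.A_pos
  set ε1 : ℝ := min (1 / 2) (ε / 2) with hε1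
  have hε10 : 0 < ε1 := lt_min (by norm_num) (by positivity)
  have hε1a : ε1 ≤ 1 / 2 := min_le_left _ _
  have hε1b : ε1 ≤ ε / 2 := min_le_right _ _
  obtain ⟨s1, hs1, H1⟩ := cst_low h m L hε10
  refine ⟨max s1 (2 / ε), hs1.trans (le_max_left _ _), ?_⟩
  intro s hs Φ ll hl t t' htt h4 x x'
  have hss1 : s1 ≤ s := (le_max_left _ _).trans hs
  have hs0 : 0 ≤ s := by linarith [hs1.trans hss1]
  have hsε : 2 / ε ≤ s := (le_max_right _ _).trans hs
  rw [div_le_iff₀ hε] at hsε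
  obtain ⟨u, n, hu, hx, hlt⟩ := exists_cst_lt h hl.toTG hs0 htt one_pos x x'
  have G1 := H1 s hss1 Φ ll hl x u hu t t' htt.le h4
  have hexc := exc_nonneg h.toOk0 htt.le x hu
  rw [hx, C7b_corr h.toOk0] at G1
  have hI0 : 0 ≤ ∫ r in t..t', (Φ.K r * D.F (traj t x u r) (u r) r - s) ^ 2 :=
    C7b_int_nonneg htt.le s
  have hIA : 0 ≤ (∫ r in t..t', (Φ.K r * D.F (traj t x u r) (u r) r - s) ^ 2) / (4 * D.A) := by
    positivity
  have h5 : 0 ≤ (1 - ε1) * (s * D.exc t t' x u) :=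
    mul_nonneg (by linarith) (mul_nonneg hs0 hexc)
  have h6 : ε1 * s ≤ ε / 2 * s := mul_le_mul_of_nonneg_right hε1b hs0
  linarith

end EscZa
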