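import Pool.Agent.EscW.QDefs
import Pool.Agent.EscT.C8
import Pool.Agent.EscG.A1
import Pool.Agent.EscG.A5a
import Pool.Agent.EscG.B1
import Pool.Agent.EscG.C1
import Pool.Agent.EscG.C2
import Pool.Agent.EscK.Len
import Pool.Agent.EscT.C1
import Pool.Agent.EscT.C2
import Pool.Agent.EscT.C6
import Pool.Agent.EscW.QaC6b
import Pool.Agent.EscW.QaC7b

/-!
Project EscT (MP_6acca1_an), module C8: upper bound of the kernels at speed `s` through the moving class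
(helper46).
-/

set_option linter.unusedSectionVars false
set_option linter.unusedVariables false

noncomputable section

namespace EscZa

open MeasureTheory Set Filter Topology Esc EscF EscG EscT EscZ
open scoped ContDiff

/-! ### a control of almost minimal energy at frozen time -/

/-- a control from `z` to `z'` with almost minimal length and almost constant speed -/
theorem C8_ctl {ι : Type} [Fintype ι] {E : Type*} [NormedAddCommGroup E] [InnerProductSpace ℝ E]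
    [FiniteDimensional ℝ E] {β : Module.Basis ι ℝ E} {F : E → E → ℝ} {mF MF : ℝ} (hF : Fins β F mF MF)
    {t t' : ℝ} (htt : t < t') {η : ℝ} (hη : 0 < η) (s : ℝ) (hs : 0 ≤ s) (z z' : E) :
    ∃ u : ℝ → E, Adm u ∧ traj t z u t' = z' ∧
      (∫ r in t..t', F (traj t z u r) (u r)) ≤ fd F z z' + η ∧
      fd F z z' ≤ ∫ r in t..t', F (traj t z u r) (u r) ∧
      (∫ r in t..t', (F (traj t z u r) (u r) - s) ^ 2) ≤
        ((fd F z z' - s * (t' - t)) ^ 2 + η ^ 2) / (t' - t) := by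
  have hτ : 0 < t' - t := sub_pos.mpr htt
  obtain ⟨u, hu, hz, hE⟩ := exists_energy hF htt (pow_pos hη 2) z z'
  have hlow := EscK.fd_le_len hF hu htt.le z
  rw [hz] at hlow
  have hd := fd_nonneg F z z'
  have i1 := EscG.A5a_ii hF hu t z t t'
  have i2 : IntervalIntegrable (fun r => F (traj t z u r) (u r) ^ 2) volume t t' := by
    have h1 := (EscG.A5a_iiQ hF 0 hu t z t t').const_mul 2
    have h2 : (fun r => F (traj t z u r) (u r) ^ 2) =
        fun r => 2 * ((F (traj t z u r) (u r) - 0) ^ 2 / 2) := by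
      funext r
      ring
    rw [h2]
    exact h1
  have hcs := EscG.A5a_cs htt i1 (i2.div_const 2)
  rw [intervalIntegral.integral_div] at hcs
  obtain ⟨I, hI⟩ : ∃ I, I = ∫ r in t..t', F (traj t z u r) (u r) := ⟨_, rfl⟩
  obtain ⟨Q, hQ⟩ : ∃ Q, Q = ∫ r in t..t', F (traj t z u r) (u r) ^ 2 := ⟨_, rfl⟩
  rw [← hI] at hcs hlow
  rw [← hQ] at hcs hE
  refine ⟨u, hu, hz, ?_, ?_, ?_⟩
  · rw [← hI]
    have h1 : I ^ 2 ≤ (fd F z z' + η) ^ 2 := by nlinarith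
    exact le_of_sq_le_sq h1 (by linarith)
  · rw [← hI]
    exact hlow
  · have h1 : (∫ r in t..t', (F (traj t z u r) (u r) - s) ^ 2) = Q - 2 * s * I + s ^ 2 * (t' - t) := by
      have e1 : ∀ r, (F (traj t z u r) (u r) - s) ^ 2 =
          F (traj t z u r) (u r) ^ 2 - 2 * s * F (traj t z u r) (u r) + s ^ 2 := fun r => by ring
      simp_rw [e1]
      rw [intervalIntegral.integral_add (i2.sub (i1.const_mul _)) (by simp),
        intervalIntegral.integral_sub i2 (i1.const_mul _), intervalIntegral.integral_const_mul,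
        intervalIntegral.integral_const, smul_eq_mul, ← hI, ← hQ]
      ring
    rw [h1, le_div_iff₀ hτ]
    have h2 : 2 * s * fd F z z' ≤ 2 * s * I := mul_le_mul_of_nonneg_left hlow (by linarith)
    have h3 := mul_le_mul_of_nonneg_right h2 hτ.le
    nlinarith

section MID

variable {ι : Type} [Fintype ι] {d : ℕ} {E : Type*} [NormedAddCommGroup E] [InnerProductSpace ℝ E]
  [FiniteDimensional ℝ E] {D : GT ι d E} {p : GP} {m M Mf : ℝ} {L : LP} {Φ : Fx} {ll l : E → E → ℝ → ℝ}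
  {f f' : E → ℝ → ℝ}

/-! ### elementary facts about `F` and `dB` -/

theorem C8_F0 (h : D.Ok0) (x v : E) (t : ℝ) : 0 ≤ D.F x v t :=
  (mul_nonneg (h.fr0 t).fins.mF_pos.le (norm_nonneg v)).trans ((h.fr0 t).fins.low x v)

theorem C8_MF (h : D.Ok0) : 0 < D.mF ∧ 0 < D.MF :=
  ⟨(h.fr0 0).fins.mF_pos, lt_of_lt_of_le (h.fr0 0).fins.mF_pos (h.fr0 0).fins.mF_le⟩

theorem C8_Fupp (h : D.Ok0) (x v : E) (t : ℝ) : D.F x v t ≤ D.MF * ‖v‖ := (h.fr0 t).fins.upp x v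

theorem C8_Flow (h : D.Ok0) (x v : E) (t : ℝ) : D.mF * ‖v‖ ≤ D.F x v t := (h.fr0 t).fins.low x v

theorem C8_dB (h : D.Ok0) (x : E) (t : ℝ) (v : E) :
    D.dB x t v = fderiv ℝ (fun p : E × ℝ => D.B p.1 p.2) (x, t) (v, 0) := by
  have h1 : HasFDerivAt (fun p : E × ℝ => D.B p.1 p.2) (fderiv ℝ (fun p : E × ℝ => D.B p.1 p.2) (x, t))
      (x, t) := ((h.B_smooth.differentiable one_ne_zero) (x, t)).hasFDerivAt
  have h2 : HasFDerivAt (fun y : E => ((y, t) : E × ℝ)) (ContinuousLinearMap.inl ℝ E ℝ) x :=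
    hasFDerivAt_prodMk_left x t
  have h3 := h1.comp x h2
  have h4 : fderiv ℝ (fun y => D.B y t) x =
      (fderiv ℝ (fun p : E × ℝ => D.B p.1 p.2) (x, t)).comp (ContinuousLinearMap.inl ℝ E ℝ) := h3.fderiv
  unfold GT.dB
  rw [h4]
  rfl

theorem C8_dB_cont (h : D.Ok0) : Continuous fun p : E × E × ℝ => D.dB p.1 p.2.2 p.2.1 := by
  have h1 := h.B_smooth.continuous_fderiv one_ne_zero
  have h2 : (fun p : E × E × ℝ => D.dB p.1 p.2.2 p.2.1) = fun p : E × E × ℝ =>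
      fderiv ℝ (fun p : E × ℝ => D.B p.1 p.2) (p.1, p.2.2) (p.2.1, 0) := by
    funext p
    exact C8_dB h _ _ _
  rw [h2]
  exact (h1.comp (continuous_fst.prodMk (continuous_snd.comp continuous_snd))).clm_apply
    ((continuous_fst.comp continuous_snd).prodMk continuous_const)

theorem C8_dB_low (h : D.Ok0) (x : E) (t : ℝ) (v : E) : -(D.MF * ‖v‖) ≤ D.dB x t v := by
  have h1 := (h.B_le x (-v) t).trans (C8_Fupp h x (-v) t)
  rw [norm_neg] at h1
  have h2 : D.dB x t (-v) = -D.dB x t v := by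
    unfold GT.dB
    rw [map_neg]
  linarith

theorem C8_iiF (h : D.Ok0) {u : ℝ → E} (hu : Adm u) (a : ℝ) (z : E) (c e : ℝ) :
    IntervalIntegrable (fun r => D.F (traj a z u r) (u r) r) volume c e := by
  have h1 : CB 0 (fun x v r => D.F x v r) := ⟨h.F_cont, fun x v r => by
    simp only [neg_zero]
    exact C8_F0 h x v r⟩
  exact h1.ii hu a z c e

theorem C8_iiE (h : D.Ok0) {u : ℝ → E} (hu : Adm u) (a : ℝ) (z : E) (c e : ℝ) :
    IntervalIntegrable (fun r => D.F (traj a z u r) (u r) r - D.dB (traj a z u r) r (u r)) volume c e := by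
  have h1 : CB 0 (fun x v r => D.F x v r - D.dB x r v) := ⟨h.F_cont.sub (C8_dB_cont h), fun x v r => by
    simp only [neg_zero]
    exact sub_nonneg.2 (h.B_le x v r)⟩
  exact h1.ii hu a z c e

theorem C8_iiK (hKB : KB D.A Φ.K) (h : D.Ok0) (s : ℝ) {u : ℝ → E} (hu : Adm u) (a : ℝ) (z : E) (c e : ℝ) :
    IntervalIntegrable (fun r => (Φ.K r * D.F (traj a z u r) (u r) r - s) ^ 2) volume c e := by
  have h1 : CB 0 (fun x v r => (Φ.K r * D.F x v r - s) ^ 2) :=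
    ⟨(((hKB.cont.comp (continuous_snd.comp continuous_snd)).mul h.F_cont).sub continuous_const).pow 2,
    fun x v r => by
      simp only [neg_zero]
      exact sq_nonneg _⟩
  exact h1.ii hu a z c e

theorem C8_iiE0 (h : D.Ok0) (t : ℝ) {u : ℝ → E} (hu : Adm u) (a : ℝ) (z : E) (c e : ℝ) :
    IntervalIntegrable (fun r => D.F (traj a z u r) (u r) t - D.dB (traj a z u r) t (u r)) volume c e := by
  have hc : Continuous fun p : E × E × ℝ => (p.1, p.2.1, t) :=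
    continuous_fst.prodMk ((continuous_fst.comp continuous_snd).prodMk continuous_const)
  have h1 : CB 0 (fun x v (_ : ℝ) => D.F x v t - D.dB x t v) :=
    ⟨(h.F_cont.comp hc).sub ((C8_dB_cont h).comp hc), fun x v r => by
      simp only [neg_zero]
      exact sub_nonneg.2 (h.B_le x v t)⟩
  exact h1.ii hu a z c e

theorem C8_iiF0 (h : D.Ok0) (t : ℝ) {u : ℝ → E} (hu : Adm u) (a : ℝ) (z : E) (c e : ℝ) :
    IntervalIntegrable (fun r => D.F (traj a z u r) (u r) t) volume c e :=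
  EscG.A5a_ii (h.fr0 t).fins hu a z c e

theorem C8_iiQ0 (h : D.Ok0) (t s : ℝ) {u : ℝ → E} (hu : Adm u) (a : ℝ) (z : E) (c e : ℝ) :
    IntervalIntegrable (fun r => (D.F (traj a z u r) (u r) t - s) ^ 2) volume c e := by
  have h1 := (EscG.A5a_iiQ (h.fr0 t).fins s hu a z c e).const_mul 2
  have h2 : (fun r => (D.F (traj a z u r) (u r) t - s) ^ 2) =
      fun r => 2 * ((D.F (traj a z u r) (u r) t - s) ^ 2 / 2) := by
    funext r
    ring
  rw [h2]
  exact h1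

/-- the frozen excess is the frozen length minus the increment of `B` -/
theorem C8_exc0 (h : D.Ok0) (t : ℝ) {u : ℝ → E} (hu : Adm u) (a b : ℝ) (z : E) :
    (∫ r in a..b, (D.F (traj a z u r) (u r) t - D.dB (traj a z u r) t (u r))) =
      (∫ r in a..b, D.F (traj a z u r) (u r) t) - (D.B (traj a z u b) t - D.B z t) := by
  have hB : ContDiff ℝ 1 (fun y => D.B y t) := h.B_smooth.comp (contDiff_id.prodMk contDiff_const)
  have h1 := EscG.ftc_traj hB hu a z b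
  have i1 := C8_iiF0 h t hu a z a b
  have i2 := i1.sub (C8_iiE0 h t hu a z a b)
  have h2 : (fun r => D.F (traj a z u r) (u r) t - (D.F (traj a z u r) (u r) t -
      D.dB (traj a z u r) t (u r))) = fun r => D.dB (traj a z u r) t (u r) := by
    funext r
    ring
  rw [h2] at i2
  rw [intervalIntegral.integral_sub i1 i2]
  congr 1
  exact h1.symm

theorem C8_lv_mem (h : D.Ok0) (n : Fin d → ℤ) : lv D.b n ∈ D.Lam := by
  unfold lv
  refine AddSubgroup.sum_mem _ fun i _ => ?_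
  obtain ⟨k, hk⟩ := (h.fr0 0).bβ i
  have h1 : D.b i ∈ D.Lam := by
    change D.b i = D.β k at hk
    rw [hk]
    exact Submodule.subset_span ⟨k, rfl⟩
  first
    | exact AddSubgroup.zsmul_mem _ h1 _
    | (have h2 := AddSubgroup.zsmul_mem _ h1 (n i)
       rwa [← Int.cast_smul_eq_zsmul ℝ] at h2)

theorem C8_corr_lv (h : D.Ok0) (s t t' : ℝ) (x x' : E) (n : Fin d → ℤ) :
    D.corr s t t' x (x' + lv D.b n) = D.corr s t t' x x' := by
  unfold GT.corr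
  rw [bb_Lam h (C8_lv_mem h n)]

/-! ### pieces of the path -/

/-- the kernel is at most the cost of a control -/
theorem C8_piece (h : D.Ok) (m : ℝ) (L : LP) (Cj : ℝ) {ε : ℝ} (hε : 0 < ε) : ∃ δ s0 : ℝ, 0 < δ ∧
    1 ≤ s0 ∧ ∀ s, s0 ≤ s → ∀ Φ ll, FTa D m L Φ s ll → ∀ t t', t < t' → t' ≤ t + 4 →
    ∀ (x x' : E) (u : ℝ → E) (n : Fin d → ℤ) (e : ℝ), Adm u → traj t x u t' = x' + lv D.b n →
    e ≤ Cj → D.exc t t' x u ≤ e →
    (∫ r in t..t', (Φ.K r * D.F (traj t x u r) (u r) r - s) ^ 2) ≤ δ * s →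
    (D0 D).kk ll s t t' x x' ≤ D.corr s t t' x x' + fl Φ s t t' + s * e + ε * s := by
  have hA := h.A_pos
  obtain ⟨ε', hε', hε'C, hε'ε⟩ : ∃ ε' : ℝ, 0 < ε' ∧ ε' * |Cj| ≤ ε / 4 ∧ ε' ≤ ε / 4 := by
    refine ⟨ε / 4 / (|Cj| + 1), by positivity, ?_, ?_⟩
    · rw [div_mul_eq_mul_div, div_le_iff₀ (by positivity)]
      exact mul_le_mul_of_nonneg_left (by linarith [abs_nonneg Cj]) (by positivity)
    · exact div_le_self (by positivity) (by linarith [abs_nonneg Cj])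
  obtain ⟨s0, h0, hs0⟩ := cst_upp h m L hε'
  refine ⟨ε / (4 * (D.A + |L.A|)), s0, by positivity, h0, ?_⟩
  intro s hs Φ ll hl t t' htt htt4 x x' u n e hu hz heC he hV
  have hsp : 0 ≤ s := by linarith
  have h1 := hs0 s hs Φ ll hl x u hu t t' htt.le htt4
  have h2 := kk_le_cst h hl.toTG hsp htt hu hz
  rw [hz, C8_corr_lv h.toOk0] at h1
  obtain ⟨V, hVd⟩ : ∃ V, V = ∫ r in t..t', (Φ.K r * D.F (traj t x u r) (u r) r - s) ^ 2 := ⟨_, rfl⟩
  rw [← hVd] at h1 hV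
  have h3 : (D.A + L.A) * V ≤ ε / 4 * s := by
    have hLA := hl.A_nonneg
    rw [abs_of_nonneg hLA] at hV
    have hp : 0 < D.A + L.A := by linarith
    refine (mul_le_mul_of_nonneg_left hV hp.le).trans (le_of_eq ?_)
    field_simp
  have h4 : (1 + ε') * (s * D.exc t t' x u) ≤ s * e + ε / 4 * s := by
    have e1 : (1 + ε') * (s * D.exc t t' x u) ≤ (1 + ε') * (s * e) :=
      mul_le_mul_of_nonneg_left (mul_le_mul_of_nonneg_left he hsp) (by linarith)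
    have e2 : ε' * e ≤ ε / 4 := by
      have e3 : e ≤ |Cj| := heC.trans (le_abs_self _)
      exact (mul_le_mul_of_nonneg_left e3 hε'.le).trans hε'C
    have e4 := mul_le_mul_of_nonneg_left e2 hsp
    have e5 : (1 + ε') * (s * e) = s * e + s * (ε' * e) := by ring
    rw [e5] at e1
    linarith
  have h5 : ε' * s ≤ ε / 4 * s := mul_le_mul_of_nonneg_right hε'ε hsp
  have h6 : 0 ≤ ε * s := mul_nonneg hε.le hsp
  linarith

theorem C8_lv0 (x : E) : x + lv D.b (0 : Fin d → ℤ) = x := by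
  rw [EscG.A5a_lv_zero, add_zero]

/-- following the moving class -/
theorem C8_anc (h : D.Ok) (m : ℝ) (L : LP) {ε : ℝ} (hε : 0 < ε) : ∃ s0 : ℝ, 1 ≤ s0 ∧ ∀ s, s0 ≤ s →
    ∀ Φ ll, FTa D m L Φ s ll → ∀ t t', 1 / 32 ≤ t' - t → t' - t ≤ 4 →
    (D0 D).kk ll s t t' (D.q t) (D.q t') ≤ D.corr s t t' (D.q t) (D.q t') + fl Φ s t t' + ε * s := by
  obtain ⟨δ, s1, hδ, h1, hs1⟩ := C8_piece h m L 1 (half_pos hε)
  obtain ⟨ε', hε', ha, hb, hc⟩ : ∃ ε' : ℝ, 0 < ε' ∧ ε' ≤ δ ∧ ε' ≤ 1 ∧ ε' ≤ ε / 2 :=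
    ⟨min δ (min 1 (ε / 2)), by positivity, min_le_left _ _, (min_le_right _ _).trans (min_le_left _ _),
      (min_le_right _ _).trans (min_le_right _ _)⟩
  obtain ⟨s2, h2, hs2⟩ := ancK_ex D hε'
  refine ⟨max s1 s2, h1.trans (le_max_left _ _), ?_⟩
  intro s hs Φ ll hl t t' ht1 ht4
  have hss1 := (le_max_left s1 s2).trans hs
  have hss2 := (le_max_right s1 s2).trans hs
  have hsp : 0 ≤ s := by linarith
  obtain ⟨u, n, hu, hz, hV, he⟩ := hs2 Φ.K hl.ancK hl.kb s hss2 t t' ht1 ht4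
  have h3 := hs1 s hss1 Φ ll hl t t' (by linarith) (by linarith) (D.q t) (D.q t') u n ε' hu hz hb he
    (hV.trans (mul_le_mul_of_nonneg_right ha hsp))
  have h4 : s * ε' ≤ ε / 2 * s := by
    rw [mul_comm]
    exact mul_le_mul_of_nonneg_right hc hsp
  linarith

/-- a short hop along a straight line -/
theorem C8_hop (h : D.Ok) (m : ℝ) (L : LP) (K : ℝ) {ε : ℝ} (hε : 0 < ε) : ∃ s0 : ℝ, 1 ≤ s0 ∧
    ∀ s, s0 ≤ s → ∀ Φ ll, FTa D m L Φ s ll → ∀ (t t' : ℝ) (y y' : E), t' = t + 1 / s ^ 2 → ‖y' - y‖ ≤ K / s →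
    (D0 D).kk ll s t t' y y' ≤ D.corr s t t' y y' + fl Φ s t t' + ε * s := by
  have hA := h.A_pos
  obtain ⟨-, hMF⟩ := C8_MF h.toOk0
  obtain ⟨δ, s1, hδ, h1, hs1⟩ := C8_piece h m L 1 (half_pos hε)
  obtain ⟨K', hK'⟩ : ∃ K', K' = |K| := ⟨_, rfl⟩
  have hK0 : 0 ≤ K' := hK' ▸ abs_nonneg _
  have hKK : K ≤ K' := hK' ▸ le_abs_self _
  obtain ⟨C1, hC1⟩ : ∃ C1, C1 = D.A * D.MF * K' + 1 := ⟨_, rfl⟩
  have hC10 : 0 ≤ C1 := by rw [hC1]; positivity
  refine ⟨s1 + C1 ^ 2 / δ + 2 * D.MF * K' + 4 * D.MF * K' / ε, ?_, ?_⟩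
  · have e1 : 0 ≤ C1 ^ 2 / δ := by positivity
    have e2 : 0 ≤ 2 * D.MF * K' := by positivity
    have e3 : 0 ≤ 4 * D.MF * K' / ε := by positivity
    linarith
  intro s hs Φ ll hl t t' y y' ht' hyy
  have e1 : 0 ≤ C1 ^ 2 / δ := by positivity
  have e2 : 0 ≤ 2 * D.MF * K' := by positivity
  have e3 : 0 ≤ 4 * D.MF * K' / ε := by positivity
  have hss1 : s1 ≤ s := by linarith
  have hs11 : 1 ≤ s := by linarith
  have hsp : 0 < s := by linarith
  have hs2 : C1 ^ 2 ≤ δ * s := by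
    have e4 : C1 ^ 2 / δ ≤ s := by linarith
    rw [div_le_iff₀ hδ] at e4
    linarith
  have hs3 : 2 * D.MF * K' ≤ s := by linarith
  have hs4 : 4 * D.MF * K' ≤ ε * s := by
    have e4 : 4 * D.MF * K' / ε ≤ s := by linarith
    rw [div_le_iff₀ hε] at e4
    linarith
  have hτ : t' - t = 1 / s ^ 2 := by rw [ht']; ring
  have hτ0 : 0 < t' - t := by rw [hτ]; positivity
  have hτ1 : t' - t ≤ 1 := by
    rw [hτ, div_le_one (by positivity)]
    exact one_le_pow₀ hs11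
  obtain ⟨w, hw⟩ : ∃ w : E, w = (s ^ 2) • (y' - y) := ⟨_, rfl⟩
  have hwn : ‖w‖ ≤ K' * s := by
    rw [hw, norm_smul, Real.norm_eq_abs, abs_of_nonneg (by positivity)]
    have e4 : ‖y' - y‖ ≤ K' / s := hyy.trans (div_le_div_of_nonneg_right hKK hsp.le)
    refine (mul_le_mul_of_nonneg_left e4 (by positivity)).trans (le_of_eq ?_)
    field_simp
  have hu : Adm (fun _ : ℝ => w) := ⟨stronglyMeasurable_const, ‖w‖, fun _ => le_rfl⟩
  have hz : traj t y (fun _ : ℝ => w) t' = y' + lv D.b (0 : Fin d → ℤ) := by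
    rw [C8_lv0]
    unfold traj
    rw [intervalIntegral.integral_const, hτ, hw, smul_smul, one_div, inv_mul_cancel₀ (by positivity),
      one_smul]
    abel
  have hV : (∫ r in t..t', (Φ.K r * D.F (traj t y (fun _ : ℝ => w) r) w r - s) ^ 2) ≤ δ * s := by
    have e4 : (∫ r in t..t', (Φ.K r * D.F (traj t y (fun _ : ℝ => w) r) w r - s) ^ 2) ≤
        ∫ r in t..t', (C1 * s) ^ 2 := by
      refine intervalIntegral.integral_mono_on (by linarith) (C8_iiK hl.kb h.toOk0 s hu t y t t')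
        (by simp) fun r _ => ?_
      have k1 := C8_F0 h.toOk0 (traj t y (fun _ : ℝ => w) r) w r
      have k2 := C8_Fupp h.toOk0 (traj t y (fun _ : ℝ => w) r) w r
      have k3 : Φ.K r ≤ D.A := hl.kb.le r
      have k4 : 0 ≤ Φ.K r := by
        have := hl.kb.pos r
        by_contra hc
        push Not at hc
        nlinarith
      have k5 : D.F (traj t y (fun _ : ℝ => w) r) w r ≤ D.MF * (K' * s) :=
        k2.trans (mul_le_mul_of_nonneg_left hwn hMF.le)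
      have k6 : Φ.K r * D.F (traj t y (fun _ : ℝ => w) r) w r ≤ D.A * (D.MF * (K' * s)) :=
        mul_le_mul k3 k5 k1 hA.le
      have k7 : 0 ≤ Φ.K r * D.F (traj t y (fun _ : ℝ => w) r) w r := mul_nonneg k4 k1
      have k8 : C1 * s = D.A * (D.MF * (K' * s)) + s := by rw [hC1]; ring
      rw [sq_le_sq, abs_of_nonneg (mul_nonneg hC10 hsp.le), abs_le, k8]
      have k9 : 0 ≤ D.A * (D.MF * (K' * s)) := by positivity
      constructor
      · linarith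
      · linarith
    rw [intervalIntegral.integral_const, smul_eq_mul, hτ] at e4
    have e5 : 1 / s ^ 2 * (C1 * s) ^ 2 = C1 ^ 2 := by field_simp
    rw [e5] at e4
    exact e4.trans hs2
  have he : D.exc t t' y (fun _ : ℝ => w) ≤ 2 * D.MF * K' / s := by
    have e4 : D.exc t t' y (fun _ : ℝ => w) ≤ ∫ r in t..t', 2 * D.MF * (K' * s) := by
      refine intervalIntegral.integral_mono_on (by linarith) (C8_iiE h.toOk0 hu t y t t')
        (by simp) fun r _ => ?_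
      have k2 := C8_Fupp h.toOk0 (traj t y (fun _ : ℝ => w) r) w r
      have k3 := C8_dB_low h.toOk0 (traj t y (fun _ : ℝ => w) r) r w
      have k4 := mul_le_mul_of_nonneg_left hwn hMF.le
      linarith
    rw [intervalIntegral.integral_const, smul_eq_mul, hτ] at e4
    have e5 : 1 / s ^ 2 * (2 * D.MF * (K' * s)) = 2 * D.MF * K' / s := by field_simp
    rwa [e5] at e4
  have he1 : 2 * D.MF * K' / s ≤ 1 := by
    rw [div_le_one hsp]
    exact hs3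
  have h5 := hs1 s hss1 Φ ll hl t t' (by linarith) (by linarith) y y' (fun _ : ℝ => w) 0 _ hu hz he1 he hV
  have h6 : s * (2 * D.MF * K' / s) ≤ ε / 2 * s := by
    rw [mul_div_cancel₀ _ hsp.ne']
    linarith
  linarith

/-- a path between two points, almost optimal for the metric at time `t` -/
theorem C8_path (h : D.Ok) (m : ℝ) (L : LP) (ρ : ℝ) {ε : ℝ} (hε : 0 < ε) : ∃ K s0 : ℝ, 0 ≤ K ∧
    1 ≤ s0 ∧ ∀ s, s0 ≤ s → ∀ Φ ll, FTa D m L Φ s ll → ∀ t, ∀ x ∈ D.X ρ, ∀ x' ∈ D.X ρ, ∃ τ : ℝ, 0 < τ ∧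
    τ ≤ K / s ∧ ∀ a a', a' = a + τ → a ≤ t → t ≤ a' →
    (D0 D).kk ll s a a' x x' ≤ D.corr s a a' x x' + fl Φ s a a' + s * D.j t x x' + ε * s := by
  have hA := h.A_pos
  obtain ⟨hmF, hMF⟩ := C8_MF h.toOk0
  obtain ⟨δ, s1, hδ, h1, hs1⟩ := C8_piece h m L (4 * D.MF * |ρ| + ε) (half_pos hε)
  obtain ⟨Λ, hΛ⟩ := exists_short h.toOk0 ρ (ε := ε / 8) (by positivity)
  obtain ⟨C1, hC1⟩ : ∃ C1, C1 = D.A * (D.MF + D.A) / D.mF := ⟨_, rfl⟩
  have hC10 : 0 ≤ C1 := by rw [hC1]; positivity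
  have hC1m : C1 * D.mF = D.A * (D.MF + D.A) := by rw [hC1, div_mul_cancel₀ _ hmF.ne']
  obtain ⟨C2, hC2⟩ : ∃ C2, C2 = 2 * D.A ^ 2 + 4 * C1 ^ 2 := ⟨_, rfl⟩
  have hC20 : 0 < C2 := by rw [hC2]; positivity
  -- small parameter
  obtain ⟨η, hη, hη1, hηε, hηδ⟩ : ∃ η : ℝ, 0 < η ∧ η ≤ 1 ∧ η ≤ ε / 8 ∧
      C2 * ((D.A ^ 2 + 1) * η) ≤ δ / 2 := by
    refine ⟨min 1 (min (ε / 8) (δ / 2 / (C2 * (D.A ^ 2 + 1)))), by positivity, min_le_left _ _,
      (min_le_right _ _).trans (min_le_left _ _), ?_⟩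
    have e1 : min 1 (min (ε / 8) (δ / 2 / (C2 * (D.A ^ 2 + 1)))) ≤ δ / 2 / (C2 * (D.A ^ 2 + 1)) :=
      (min_le_right _ _).trans (min_le_right _ _)
    rw [le_div_iff₀ (by positivity)] at e1
    linarith
  obtain ⟨Λ', hΛ'⟩ : ∃ Λ', Λ' = |Λ| := ⟨_, rfl⟩
  have hΛ0 : 0 ≤ Λ' := hΛ' ▸ abs_nonneg _
  have hΛΛ : Λ ≤ Λ' := hΛ' ▸ le_abs_self _
  obtain ⟨K, hK⟩ : ∃ K, K = D.A * Λ' + 1 := ⟨_, rfl⟩
  have hK0 : 0 ≤ K := by rw [hK]; positivity
  obtain ⟨C3, hC3⟩ : ∃ C3, C3 = 4 * C1 ^ 2 * (K ^ 3 * D.A ^ 2) := ⟨_, rfl⟩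
  have hC30 : 0 ≤ C3 := by rw [hC3]; positivity
  obtain ⟨C4, hC4⟩ : ∃ C4, C4 = 2 * D.A / D.mF * K * (Λ' + 1) := ⟨_, rfl⟩
  have hC40 : 0 ≤ C4 := by rw [hC4]; positivity
  have g1 : 0 ≤ C3 / (δ / 2) := by positivity
  have g2 : 0 ≤ C4 / (ε / 8) := by positivity
  refine ⟨K, s1 + K + C3 / (δ / 2) + C4 / (ε / 8), hK0, by linarith, ?_⟩
  intro s hs Φ ll hl t x hx x' hx'
  have hss1 : s1 ≤ s := by linarith
  have hs11 : 1 ≤ s := by linarith
  have hsp : 0 < s := by linarith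
  have hsK : K ≤ s := by linarith
  have hs3 : C3 ≤ δ / 2 * s := by
    have e4 : C3 / (δ / 2) ≤ s := by linarith
    rw [div_le_iff₀ (by positivity)] at e4
    linarith
  have hs4 : C4 / s ≤ ε / 8 := by
    have e4 : C4 / (ε / 8) ≤ s := by linarith
    rw [div_le_iff₀ (by positivity)] at e4
    rw [div_le_iff₀ hsp]
    linarith
  obtain ⟨v, n, hv, hvz, hvΛ, hvj⟩ := hΛ t x hx x' hx'
  have hfins := (h.fr0 t).fins
  change Fins D.β (fun x v => D.F x v t) D.mF D.MF at hfins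
  obtain ⟨d0, hd0⟩ : ∃ d0, d0 = fd (fun x v => D.F x v t) x (x' + lv D.b n) := ⟨_, rfl⟩
  obtain ⟨ΔB, hΔB⟩ : ∃ ΔB, ΔB = D.B (x' + lv D.b n) t - D.B x t := ⟨_, rfl⟩
  have hlen := EscK.fd_le_len hfins hv zero_le_one x
  rw [hvz, ← hd0] at hlen
  have hd00 : 0 ≤ d0 := hd0 ▸ fd_nonneg _ _ _
  have hdΛ : d0 ≤ Λ' := (hlen.trans hvΛ).trans hΛΛ
  rw [C8_exc0 h.toOk0 t hv 0 1 x, hvz, ← hΔB] at hvj
  have hdj : d0 - ΔB ≤ D.j t x x' + ε / 8 := by
    change d0 ≤ ∫ r in (0:ℝ)..1, D.F (traj 0 x v r) (v r) t at hlen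
    linarith
  -- the weight
  have hκ1 : 1 ≤ D.A * Φ.K t := hl.kb.pos t
  have hκA : Φ.K t ≤ D.A := hl.kb.le t
  have hκ0 : 0 < Φ.K t := by
    by_contra hc
    push Not at hc
    nlinarith
  obtain ⟨k, hk⟩ : ∃ k, k = Φ.K t := ⟨_, rfl⟩
  rw [← hk] at hκ1 hκA hκ0
  have hkinv : 1 / k ≤ D.A := by
    rw [div_le_iff₀ hκ0]
    exact hκ1
  obtain ⟨τ, hτ⟩ : ∃ τ, τ = (k * d0 + η) / s := ⟨_, rfl⟩
  have hτ0 : 0 < τ := by rw [hτ]; positivity
  have hτK : τ ≤ K / s := by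
    rw [hτ]
    refine div_le_div_of_nonneg_right ?_ hsp.le
    have e1 : k * d0 ≤ D.A * Λ' := mul_le_mul hκA hdΛ hd00 hA.le
    linarith
  have hτ1 : τ ≤ 1 := hτK.trans ((div_le_one hsp).2 hsK)
  refine ⟨τ, hτ0, hτK, ?_⟩
  intro a a' ha' hat hta'
  have haa : a < a' := by linarith
  have haτ : a' - a = τ := by linarith
  obtain ⟨σ, hσ⟩ : ∃ σ, σ = s / k := ⟨_, rfl⟩
  have hσ0 : 0 < σ := by rw [hσ]; positivity
  have hkσ : k * σ = s := by rw [hσ, mul_div_cancel₀ _ hκ0.ne']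
  have hσA : σ ≤ D.A * s := by
    have e1 : σ = 1 / k * s := by rw [hσ]; ring
    rw [e1]
    exact mul_le_mul_of_nonneg_right hkinv hsp.le
  obtain ⟨u, hu, hz, hu1, hu2, hu3⟩ := C8_ctl hfins haa hη σ hσ0.le x (x' + lv D.b n)
  rw [← hd0] at hu1 hu2 hu3
  rw [haτ] at hu3
  obtain ⟨W, hW⟩ : ∃ W, W = ∫ r in a..a', (D.F (traj a x u r) (u r) t - σ) ^ 2 := ⟨_, rfl⟩
  obtain ⟨I, hI⟩ : ∃ I, I = ∫ r in a..a', D.F (traj a x u r) (u r) t := ⟨_, rfl⟩
  change (∫ r in a..a', D.F (traj a x u r) (u r) t) ≤ d0 + η at hu1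
  change d0 ≤ ∫ r in a..a', D.F (traj a x u r) (u r) t at hu2
  change (∫ r in a..a', (D.F (traj a x u r) (u r) t - σ) ^ 2) ≤ _ at hu3
  rw [← hI] at hu1 hu2
  rw [← hW] at hu3
  have hW1 : W ≤ (D.A ^ 2 + 1) * η * s := by
    refine hu3.trans ?_
    rw [div_le_iff₀ hτ0]
    have e1 : σ * τ = d0 + η * (1 / k) := by
      rw [hσ, hτ]
      field_simp
    have e2 : (d0 - σ * τ) ^ 2 = η ^ 2 * (1 / k) ^ 2 := by rw [e1]; ring
    have e3 : (1 / k) ^ 2 ≤ D.A ^ 2 := pow_le_pow_left₀ (by positivity) hkinv 2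
    have e4 : η ≤ s * τ := by
      rw [hτ, mul_div_cancel₀ _ hsp.ne']
      have : 0 ≤ k * d0 := by positivity
      linarith
    rw [e2]
    have e5 : η ^ 2 * (1 / k) ^ 2 ≤ η ^ 2 * D.A ^ 2 := mul_le_mul_of_nonneg_left e3 (by positivity)
    have e6 : (D.A ^ 2 + 1) * η * η ≤ (D.A ^ 2 + 1) * η * (s * τ) :=
      mul_le_mul_of_nonneg_left e4 (by positivity)
    have e7 : (D.A ^ 2 + 1) * η * η = η ^ 2 * D.A ^ 2 + η ^ 2 := by ring
    have e8 : (D.A ^ 2 + 1) * η * (s * τ) = (D.A ^ 2 + 1) * η * s * τ := by ring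
    rw [← e8]
    linarith
  have hrt : ∀ r ∈ Icc a a', |r - t| ≤ τ := fun r hr => by
    rw [abs_le]
    constructor
    · linarith [hr.1]
    · linarith [hr.2]
  have hV : (∫ r in a..a', (Φ.K r * D.F (traj a x u r) (u r) r - s) ^ 2) ≤ δ * s := by
    have e4 : (∫ r in a..a', (Φ.K r * D.F (traj a x u r) (u r) r - s) ^ 2) ≤
        ∫ r in a..a', (C2 * (D.F (traj a x u r) (u r) t - σ) ^ 2 + 4 * C1 ^ 2 * (τ ^ 2 * σ ^ 2)) := by
      refine intervalIntegral.integral_mono_on haa.le (C8_iiK hl.kb h.toOk0 s hu a x a a')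
        (((C8_iiQ0 h.toOk0 t σ hu a x a a').const_mul _).add (by simp)) fun r hr => ?_
      obtain ⟨X, hX⟩ : ∃ X, X = D.F (traj a x u r) (u r) t := ⟨_, rfl⟩
      obtain ⟨Y, hY⟩ : ∃ Y, Y = D.F (traj a x u r) (u r) r := ⟨_, rfl⟩
      have k1 := C8_F0 h.toOk0 (traj a x u r) (u r) t
      have k1' := C8_F0 h.toOk0 (traj a x u r) (u r) r
      have k2 := C8_Flow h.toOk0 (traj a x u r) (u r) t
      have k3 := C8_Fupp h.toOk0 (traj a x u r) (u r) r
      have k4 := h.F_lip (traj a x u r) (u r) r t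
      have k5 := hl.kb.lip r t
      rw [← hk] at k5
      rw [← hX] at k1 k2 k4
      rw [← hY] at k1' k3 k4
      rw [← hX, ← hY]
      have k6 := hrt r hr
      have k7 : |Φ.K r * Y - k * X| ≤ C1 * (τ * X) := by
        have m1 : Φ.K r * Y - k * X = (Φ.K r - k) * Y + k * (Y - X) := by ring
        rw [m1]
        refine (abs_add_le _ _).trans ?_
        rw [abs_mul, abs_mul, abs_of_nonneg k1', abs_of_pos hκ0]
        have m2 : |Φ.K r - k| * Y ≤ (D.A * τ) * (D.MF * ‖u r‖) :=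
          mul_le_mul (k5.trans (mul_le_mul_of_nonneg_left k6 hA.le)) k3 k1' (by positivity)
        have m3 : |Y - X| ≤ D.A * ‖u r‖ * τ :=
          k4.trans (mul_le_mul_of_nonneg_left k6 (by positivity))
        have m4 : k * |Y - X| ≤ D.A * (D.A * ‖u r‖ * τ) := mul_le_mul hκA m3 (abs_nonneg _) hA.le
        have m5 : (D.A * τ) * (D.MF * ‖u r‖) + D.A * (D.A * ‖u r‖ * τ) = C1 * (τ * (D.mF * ‖u r‖)) := by
          have : C1 * (τ * (D.mF * ‖u r‖)) = C1 * D.mF * (τ * ‖u r‖) := by ring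
          rw [this, hC1m]
          ring
        have m6 : C1 * (τ * (D.mF * ‖u r‖)) ≤ C1 * (τ * X) :=
          mul_le_mul_of_nonneg_left (mul_le_mul_of_nonneg_left k2 hτ0.le) hC10
        linarith
      obtain ⟨G, hG⟩ : ∃ G, G = Φ.K r * Y - k * X := ⟨_, rfl⟩
      rw [← hG] at k7
      have k8 : Φ.K r * Y - s = k * (X - σ) + G := by rw [hG, ← hkσ]; ring
      have k9 : G ^ 2 ≤ C1 ^ 2 * (τ ^ 2 * X ^ 2) := by
        have m1 := pow_le_pow_left₀ (abs_nonneg G) k7 2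
        rw [sq_abs] at m1
        refine m1.trans (le_of_eq ?_)
        ring
      have k10 : X ^ 2 ≤ 2 * (X - σ) ^ 2 + 2 * σ ^ 2 := by
        have m1 : 2 * (X - σ) ^ 2 + 2 * σ ^ 2 = X ^ 2 + (X - 2 * σ) ^ 2 := by ring
        have m2 := sq_nonneg (X - 2 * σ)
        linarith only [m1, m2]
      have k11 : (k * (X - σ) + G) ^ 2 ≤ 2 * (k ^ 2 * (X - σ) ^ 2) + 2 * G ^ 2 := by
        have m1 : 2 * (k ^ 2 * (X - σ) ^ 2) + 2 * G ^ 2 =
            (k * (X - σ) + G) ^ 2 + (k * (X - σ) - G) ^ 2 := by ring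
        have m2 := sq_nonneg (k * (X - σ) - G)
        linarith only [m1, m2]
      have k12 : k ^ 2 * (X - σ) ^ 2 ≤ D.A ^ 2 * (X - σ) ^ 2 :=
        mul_le_mul_of_nonneg_right (pow_le_pow_left₀ hκ0.le hκA 2) (sq_nonneg _)
      have k13 : C1 ^ 2 * (τ ^ 2 * X ^ 2) ≤ C1 ^ 2 * (τ ^ 2 * (2 * (X - σ) ^ 2 + 2 * σ ^ 2)) :=
        mul_le_mul_of_nonneg_left (mul_le_mul_of_nonneg_left k10 (by positivity)) (by positivity)
      have k14 : C1 ^ 2 * (τ ^ 2 * (X - σ) ^ 2) ≤ C1 ^ 2 * (1 * (X - σ) ^ 2) :=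
        mul_le_mul_of_nonneg_left (mul_le_mul_of_nonneg_right (pow_le_one₀ hτ0.le hτ1)
          (sq_nonneg _)) (by positivity)
      rw [k8, hC2]
      linarith only [k9, k11, k12, k13, k14]
    rw [intervalIntegral.integral_add ((C8_iiQ0 h.toOk0 t σ hu a x a a').const_mul _) (by simp),
      intervalIntegral.integral_const_mul, intervalIntegral.integral_const, smul_eq_mul, haτ,
      ← hW] at e4
    have e5 : C2 * W ≤ δ / 2 * s := by
      have m1 := mul_le_mul_of_nonneg_left hW1 hC20.le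
      have m2 := mul_le_mul_of_nonneg_right hηδ hsp.le
      linarith
    have e6 : τ * (4 * C1 ^ 2 * (τ ^ 2 * σ ^ 2)) ≤ C3 := by
      have m1 : τ ^ 3 ≤ (K / s) ^ 3 := pow_le_pow_left₀ hτ0.le hτK 3
      have m2 : σ ^ 2 ≤ (D.A * s) ^ 2 := pow_le_pow_left₀ hσ0.le hσA 2
      have m3 : τ ^ 3 * σ ^ 2 ≤ (K / s) ^ 3 * (D.A * s) ^ 2 :=
        mul_le_mul m1 m2 (by positivity) (by positivity)
      have m4 : (K / s) ^ 3 * (D.A * s) ^ 2 = K ^ 3 * D.A ^ 2 / s := by field_simp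
      have m5 : K ^ 3 * D.A ^ 2 / s ≤ K ^ 3 * D.A ^ 2 := div_le_self (by positivity) hs11
      have m6 : τ * (4 * C1 ^ 2 * (τ ^ 2 * σ ^ 2)) = 4 * C1 ^ 2 * (τ ^ 3 * σ ^ 2) := by ring
      rw [m6, hC3]
      refine mul_le_mul_of_nonneg_left ?_ (by positivity)
      linarith
    linarith
  have he : D.exc a a' x u ≤ D.j t x x' + ε / 2 := by
    have e4 : D.exc a a' x u ≤ ∫ r in a..a', ((D.F (traj a x u r) (u r) t -
        D.dB (traj a x u r) t (u r)) + 2 * D.A / D.mF * τ * D.F (traj a x u r) (u r) t) := by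
      refine intervalIntegral.integral_mono_on haa.le (C8_iiE h.toOk0 hu a x a a')
        ((C8_iiE0 h.toOk0 t hu a x a a').add ((C8_iiF0 h.toOk0 t hu a x a a').const_mul _))
        fun r hr => ?_
      have k2 := C8_Flow h.toOk0 (traj a x u r) (u r) t
      have k4 := (abs_le.1 (h.F_lip (traj a x u r) (u r) r t)).2
      have k5 := (abs_le.1 (h.B_dlip (traj a x u r) (u r) r t)).1
      have k6 := hrt r hr
      have k7 : D.A * ‖u r‖ * |r - t| ≤ D.A * ‖u r‖ * τ :=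
        mul_le_mul_of_nonneg_left k6 (by positivity)
      have k8 : 2 * D.A / D.mF * τ * (D.mF * ‖u r‖) ≤
          2 * D.A / D.mF * τ * D.F (traj a x u r) (u r) t :=
        mul_le_mul_of_nonneg_left k2 (by positivity)
      have k9 : 2 * D.A / D.mF * τ * (D.mF * ‖u r‖) = 2 * (D.A * ‖u r‖ * τ) := by
        field_simp
      linarith
    rw [intervalIntegral.integral_add (C8_iiE0 h.toOk0 t hu a x a a')
      ((C8_iiF0 h.toOk0 t hu a x a a').const_mul _), intervalIntegral.integral_const_mul,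
      C8_exc0 h.toOk0 t hu a a' x, hz, ← hΔB, ← hI] at e4
    have e5 : 2 * D.A / D.mF * τ * I ≤ C4 / s := by
      have m1 : I ≤ Λ' + 1 := by linarith
      have m2 : 2 * D.A / D.mF * τ ≤ 2 * D.A / D.mF * (K / s) :=
        mul_le_mul_of_nonneg_left hτK (by positivity)
      have m3 : 2 * D.A / D.mF * τ * I ≤ 2 * D.A / D.mF * (K / s) * (Λ' + 1) :=
        mul_le_mul m2 m1 (hd00.trans hu2) (by positivity)
      have m4 : 2 * D.A / D.mF * (K / s) * (Λ' + 1) = C4 / s := by rw [hC4]; ring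
      rwa [m4] at m3
    linarith
  have hjC : D.j t x x' ≤ 4 * D.MF * |ρ| := by
    obtain ⟨i, hi⟩ := hx
    obtain ⟨i', hi'⟩ := hx'
    rw [← j_J h.toOk0 t x x' i i']
    refine (j_lip h.toOk0 _ _ _).trans ?_
    have m1 := norm_sub_le (x' + lv D.b i') (x + lv D.b i)
    have m2 := le_abs_self ρ
    have m3 : ‖x' + lv D.b i' - (x + lv D.b i)‖ ≤ 2 * |ρ| := by linarith
    have m4 := mul_le_mul_of_nonneg_left m3 (by linarith : 0 ≤ 2 * D.MF)
    linarith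
  have h9 := hs1 s hss1 Φ ll hl a a' haa (by linarith) x x' u n (D.j t x x' + ε / 2) hu hz
    (by linarith) he hV
  have h10 : s * (D.j t x x' + ε / 2) = s * D.j t x x' + ε / 2 * s := by ring
  linarith

/-! ### the upper bound -/

theorem C8_X_mono {ρ ρ' : ℝ} (hρ : ρ ≤ ρ') : D.X ρ ⊆ D.X ρ' := by
  rintro x ⟨n, hn⟩
  exact ⟨n, hn.trans hρ⟩

theorem upp (h : D.Ok) (m : ℝ) (L : LP) (ρ : ℝ) {ε : ℝ} (hε : 0 < ε) : ∃ s0 : ℝ, 1 ≤ s0 ∧ ∀ s, s0 ≤ s → ∀ Φ ll,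
    FTa D m L Φ s ll → ∀ t t', 1 / 4 ≤ t' - t → t' - t ≤ 4 → ∀ x ∈ D.X ρ, ∀ x' ∈ D.X ρ,
    (D0 D).kk ll s t t' x x' ≤ D.corr s t t' x x' + fl Φ s t t' +
      s * (D.j t x (D.q t) + D.j t' (D.q t') x') + ε * s := by
  have hA := h.A_pos
  obtain ⟨ρZ, hρZ⟩ := h.Z_X
  have hε5 : 0 < ε / 5 := by positivity
  obtain ⟨K, s1, hK, h1, hs1⟩ := C8_path h m L (max ρ ρZ) hε5
  obtain ⟨s2, h2, hs2⟩ := C8_hop h m L (D.A * (K + 1)) hε5
  obtain ⟨s3, h3, hs3⟩ := C8_anc h m L hε5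
  refine ⟨s1 + s2 + s3 + 16 * (K + 1), by linarith, ?_⟩
  intro s hs Φ ll hl t t' ht1 ht4 x hx x' hx'
  have hss1 : s1 ≤ s := by linarith
  have hss2 : s2 ≤ s := by linarith
  have hss3 : s3 ≤ s := by linarith
  have hsK : 16 * (K + 1) ≤ s := by linarith
  have hs1' : 1 ≤ s := by linarith
  have hsp : 0 < s := by linarith
  have hq : ∀ r, D.q r ∈ D.X (max ρ ρZ) := fun r =>
    C8_X_mono (le_max_right _ _) (hρZ r (h.fr0 r).q0_mem)
  obtain ⟨τ1, hτ10, hτ1, hp1⟩ := hs1 s hss1 Φ ll hl t x (C8_X_mono (le_max_left _ _) hx) (D.q t) (hq t)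
  obtain ⟨τ2, hτ20, hτ2, hp2⟩ := hs1 s hss1 Φ ll hl t' (D.q t') (hq t') x' (C8_X_mono (le_max_left _ _) hx')
  obtain ⟨σ, hσ⟩ : ∃ σ : ℝ, σ = 1 / s ^ 2 := ⟨_, rfl⟩
  have hσ0 : 0 < σ := by rw [hσ]; positivity
  have hσs : σ ≤ 1 / s := by
    rw [hσ]
    refine one_div_le_one_div_of_le hsp ?_
    nlinarith
  have hK16 : (K + 1) / s ≤ 1 / 16 := by
    rw [div_le_iff₀ hsp]
    linarith
  have hKs : K / s + 1 / s = (K + 1) / s := by ring
  obtain ⟨t1, ht1d⟩ : ∃ t1, t1 = t + τ1 := ⟨_, rfl⟩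
  obtain ⟨t2, ht2d⟩ : ∃ t2, t2 = t1 + σ := ⟨_, rfl⟩
  obtain ⟨t4, ht4d⟩ : ∃ t4, t4 = t' - τ2 := ⟨_, rfl⟩
  obtain ⟨t3, ht3d⟩ : ∃ t3, t3 = t4 - σ := ⟨_, rfl⟩
  have a1 := hp1 t t1 ht1d le_rfl (by linarith)
  have a5 := hp2 t4 t' (by linarith) (by linarith) le_rfl
  have hq2 : ‖D.q t2 - D.q t‖ ≤ D.A * (K + 1) / s := by
    refine (h.q_lip t2 t).trans ?_
    rw [abs_of_nonneg (by linarith), mul_div_assoc]
    exact mul_le_mul_of_nonneg_left (by linarith) hA.le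
  have hq3 : ‖D.q t' - D.q t3‖ ≤ D.A * (K + 1) / s := by
    refine (h.q_lip t' t3).trans ?_
    rw [abs_of_nonneg (by linarith), mul_div_assoc]
    exact mul_le_mul_of_nonneg_left (by linarith) hA.le
  have a2 := hs2 s hss2 Φ ll hl t1 t2 (D.q t) (D.q t2) (by rw [ht2d, hσ]) hq2
  have a4 := hs2 s hss2 Φ ll hl t3 t4 (D.q t3) (D.q t') (by rw [ht3d, ← hσ]; ring) hq3
  have a3 := hs3 s hss3 Φ ll hl t2 t3 (by linarith) (by linarith)
  have b1 := kk_add h hl.toTG hsp.le (t := t) (t' := t1) (t'' := t') (by linarith) (by linarith) x (D.q t) x'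
  have b2 := kk_add h hl.toTG hsp.le (t := t1) (t' := t2) (t'' := t') (by linarith) (by linarith)
    (D.q t) (D.q t2) x'
  have b3 := kk_add h hl.toTG hsp.le (t := t2) (t' := t3) (t'' := t') (by linarith) (by linarith)
    (D.q t2) (D.q t3) x'
  have b4 := kk_add h hl.toTG hsp.le (t := t3) (t' := t4) (t'' := t') (by linarith) (by linarith)
    (D.q t3) (D.q t') x'
  have c1 := fl_add hl.a_cont s t t1 t'
  have c2 := fl_add hl.a_cont s t1 t2 t'
  have c3 := fl_add hl.a_cont s t2 t3 t'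
  have c4 := fl_add hl.a_cont s t3 t4 t'
  have d0 : D.corr s t t' x x' = D.corr s t t1 x (D.q t) + D.corr s t1 t2 (D.q t) (D.q t2) +
      D.corr s t2 t3 (D.q t2) (D.q t3) + D.corr s t3 t4 (D.q t3) (D.q t') +
      D.corr s t4 t' (D.q t') x' := by
    unfold GT.corr
    ring
  have e1 : ε / 5 * s = ε * s / 5 := by ring
  rw [e1] at a1 a2 a3 a4 a5
  rw [mul_add]
  linarith

/-- hence a linear bound -/
theorem kk_lin (h : D.Ok) (m : ℝ) (L : LP) (ρ : ℝ) : ∃ C s0 : ℝ, 0 ≤ C ∧ 1 ≤ s0 ∧ ∀ s, s0 ≤ s → ∀ Φ ll,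
    FTa D m L Φ s ll → ∀ t t', 1 / 4 ≤ t' - t → t' - t ≤ 4 → ∀ x ∈ D.X ρ, ∀ x' ∈ D.X ρ,
    |(D0 D).kk ll s t t' x x' - fl Φ s t t'| ≤ C * s := by
  obtain ⟨-, hMF⟩ := C8_MF h.toOk0
  obtain ⟨ρZ, hρZ⟩ := h.Z_X
  obtain ⟨Cb, hCb0, hCb, -, -⟩ := bb_bd h.toOk0
  obtain ⟨s1, h1, hs1⟩ := upp h m L ρ one_pos
  obtain ⟨s2, h2, hs2⟩ := kk_ge h m L one_pos
  refine ⟨4 * D.MF * (|ρ| + |ρZ|) + 1 + 2 * Cb, max s1 s2, by positivity,
    h1.trans (le_max_left _ _), ?_⟩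
  intro s hs Φ ll hl t t' htt1 htt4 x hx x' hx'
  have hss1 := (le_max_left s1 s2).trans hs
  have hss2 := (le_max_right s1 s2).trans hs
  have hu := hs1 s hss1 Φ ll hl t t' htt1 htt4 x hx x' hx'
  have hge := hs2 s hss2 Φ ll hl t t' (by linarith) (by linarith) x x'
  have hsp : 0 ≤ s := by linarith
  have hco : |D.corr s t t' x x'| ≤ 2 * Cb * s := by
    unfold GT.corr
    rw [abs_mul, abs_of_nonneg hsp]
    have e1 := abs_le.1 (hCb t' x')
    have e2 := abs_le.1 (hCb t x)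
    have e3 : |D.bb t' x' - D.bb t x| ≤ 2 * Cb := by
      rw [abs_le]
      constructor
      · linarith [e1.1, e2.2]
      · linarith [e1.2, e2.1]
    have e4 := mul_le_mul_of_nonneg_left e3 hsp
    linarith
  have hco' := abs_le.1 hco
  have hb : ∀ y ∈ D.X ρ, ∀ r, D.j r y (D.q r) ≤ 2 * D.MF * (|ρ| + |ρZ|) ∧
      D.j r (D.q r) y ≤ 2 * D.MF * (|ρ| + |ρZ|) := by
    rintro y ⟨k, hk⟩ r
    obtain ⟨k', hk'⟩ := hρZ r (h.fr0 r).q0_mem
    change ‖D.q r + lv D.b k'‖ ≤ ρZ at hk'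
    have f1 := le_abs_self ρ
    have f2 := le_abs_self ρZ
    constructor
    · rw [← j_J h.toOk0 r y (D.q r) k k']
      refine (j_lip h.toOk0 _ _ _).trans (mul_le_mul_of_nonneg_left ?_ (by linarith))
      have := norm_sub_le (D.q r + lv D.b k') (y + lv D.b k)
      linarith
    · rw [← j_J h.toOk0 r (D.q r) y k' k]
      refine (j_lip h.toOk0 _ _ _).trans (mul_le_mul_of_nonneg_left ?_ (by linarith))
      have := norm_sub_le (y + lv D.b k) (D.q r + lv D.b k')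
      linarith
  have hj1 := (hb x hx t).1
  have hj2 := (hb x' hx' t').2
  have hj3 : s * (D.j t x (D.q t) + D.j t' (D.q t') x') ≤ s * (4 * D.MF * (|ρ| + |ρZ|)) := by
    refine mul_le_mul_of_nonneg_left ?_ hsp
    linarith
  have hA : 0 ≤ 4 * D.MF * (|ρ| + |ρZ|) * s := by positivity
  rw [abs_le]
  constructor
  · linarith [hco'.1]
  · linarith [hco'.2]

end MID

end EscZa
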