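import Pool.Agent.EscW.QC6b
import Pool.Agent.EscW.QaC10

/-!
Module PC10: lr0, lr1, lr2.
-/

noncomputable section

namespace EscZ

open MeasureTheory Set Filter Topology Esc EscF EscG EscT
open scoped ContDiff

variable {ι : Type} [Fintype ι] {d : ℕ} {E : Type*} [NormedAddCommGroup E] [InnerProductSpace ℝ E]
  [FiniteDimensional ℝ E] {D : GT ι d E} {p : GP} {m M Mf : ℝ} {L : LP} {l0 l1 ll l : E → E → ℝ → ℝ}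
  {f f' : E → ℝ → ℝ}

theorem lr0 (h : D.Ok) (hp : POk D p) (m : ℝ) (L : LP) : ∃ s0 : ℝ, 1 ≤ s0 ∧ ∀ s, s0 ≤ s → ∀ ll,
    FT D m L s ll → ∀ x' ∈ (D0 D).R p, ∀ x'' ∈ (D0 D).R p, ∀ x, Metric.infDist x (D.Z 0) = p.η1 →
    (D0 D).k1 ll s x' (D.q 0) + (D0 D).k1 ll s (D.q 0) x'' + 1 ≤
      (D0 D).k1 ll s x' x + (D0 D).k1 ll s x x'' := by
  obtain ⟨s0, h0, H⟩ := EscZa.lr0 h hp m L
  refine ⟨s0, h0, fun s hs ll hl => ?_⟩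
  obtain ⟨Φ, hl⟩ := hl
  exact H s hs Φ ll hl

theorem lr1 (h : D.Ok) (hp : POk D p) (m : ℝ) (L : LP) : ∃ s0 : ℝ, 1 ≤ s0 ∧ ∀ s, s0 ≤ s → ∀ ll,
    FT D m L s ll → ∀ r, 0 ≤ r → r ≤ 1 → ∀ w ∈ Md D p r, ∀ x'' ∈ (D0 D).R p, ∀ x,
    Metric.infDist x (D.Z 0) = p.η1 →
    (D0 D).P ll s r w (D.q 0) + (D0 D).k1 ll s (D.q 0) x'' + 1 ≤
      (D0 D).P ll s r w x + (D0 D).k1 ll s x x'' := by
  obtain ⟨s0, h0, H⟩ := EscZa.lr1 h hp m L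
  refine ⟨s0, h0, fun s hs ll hl => ?_⟩
  obtain ⟨Φ, hl⟩ := hl
  exact H s hs Φ ll hl

theorem lr2 (h : D.Ok) (hp : POk D p) (m : ℝ) (L : LP) : ∃ s0 : ℝ, 1 ≤ s0 ∧ ∀ s, s0 ≤ s → ∀ ll,
    FT D m L s ll → ∀ r, 0 ≤ r → r ≤ 1 → ∀ w ∈ Md D p r, ∀ x' ∈ (D0 D).R p, ∀ x,
    Metric.infDist x (D.Z 0) = p.η1 →
    (D0 D).k1 ll s x' (D.q 0) + (D0 D).Q ll s r (D.q 0) w + 1 ≤
      (D0 D).k1 ll s x' x + (D0 D).Q ll s r x w := by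
  obtain ⟨s0, h0, H⟩ := EscZa.lr2 h hp m L
  refine ⟨s0, h0, fun s hs ll hl => ?_⟩
  obtain ⟨Φ, hl⟩ := hl
  exact H s hs Φ ll hl

end EscZ
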