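import Pool.Agent.EscW.QDefs
import Pool.Agent.EscT.C12
import Pool.Agent.EscF.O3
import Pool.Agent.EscG.C2
import Pool.Agent.EscT.C1
import Pool.Agent.EscT.C2
import Pool.Agent.EscT.C4
import Pool.Agent.EscT.C5
import Pool.Agent.EscT.C6
import Pool.Agent.EscW.QaC6b
import Pool.Agent.EscW.QaC7b
import Pool.Agent.EscW.QaC8
import Pool.Agent.EscW.QaC10
import Pool.Agent.EscT.C11b
import Pool.Agent.helper1.Esc.ModD

/-!
Project EscT (MP_6acca1_an), core, module C12: size of the barriers, near-minimal gate points.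
-/

set_option linter.unusedSectionVars false

noncomputable section

namespace EscZa

open MeasureTheory Set Filter Topology Esc EscF EscG EscT EscZ
open scoped ContDiff

section abstract_

variable {Y : Type*} [PseudoMetricSpace Y] {K : Y → Y → ℝ} {C A : Set Y} {B Λ : ℝ}

theorem C12_arch {a b : ℝ} (h : ∀ n : ℕ, -b ≤ ((n : ℝ) + 1) * a) : 0 ≤ a := by
  by_contra ha
  push Not at ha
  obtain ⟨n, hn⟩ := exists_nat_gt (b / -a)
  have h1 := h n
  have h2 : b < n * -a := by rwa [div_lt_iff₀ (by linarith)] at hn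
  nlinarith

theorem C12_kp_diag (h : KD K C A B Λ) {c : Y} (hc : c ∈ C) (n : ℕ) :
    kp K C (n + 1) c c ≤ ((n : ℝ) + 1) * K c c := by
  induction n with
  | zero =>
    show K c c ≤ _
    simp
  | succ n ih =>
    show (⨅ x : C, (K c x + kp K C (n + 1) x c)) ≤ _
    have h1 : (⨅ x : C, (K c x + kp K C (n + 1) x c)) ≤ K c c + kp K C (n + 1) c c :=
      ciInf_le (h.kp_bdd n (h.sub hc) (h.sub hc)) ⟨c, hc⟩
    push_cast
    linarith

theorem C12_kp_low (h : KD K C A B Λ) {M : ℝ} (hM : ∀ z ∈ A, ∀ z' ∈ A, -M ≤ K z z') (n : ℕ) :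
    ∀ z ∈ A, ∀ z' ∈ A, -M * ((n : ℝ) + 1) ≤ kp K C (n + 1) z z' := by
  have _i := h.ne.to_subtype
  induction n with
  | zero =>
    intro z hz z' hz'
    show _ ≤ K z z'
    have := hM z hz z' hz'
    simpa using this
  | succ n ih =>
    intro z hz z' hz'
    show _ ≤ ⨅ x : C, (K z x + kp K C (n + 1) x z')
    refine le_ciInf fun x => ?_
    have h1 := hM z hz x (h.sub x.2)
    have h2 := ih x (h.sub x.2) z' hz'
    push_cast
    linarith

theorem C12_al_low (h : KD K C A B Λ) {c : Y} (hc : c ∈ C) : -K c c ≤ Esc.al K C := by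
  have h1 : 0 ≤ Esc.al K C + K c c := by
    refine C12_arch (b := 4 * B) fun n => ?_
    have h2 := (abs_le.1 (al_spec h (T := n + 1) (by omega) (h.sub hc) (h.sub hc))).1
    have h3 := C12_kp_diag h hc n
    push_cast at h2
    linarith
  linarith

theorem C12_al_upp (h : KD K C A B Λ) {M : ℝ} (hM : ∀ z ∈ A, ∀ z' ∈ A, -M ≤ K z z') :
    Esc.al K C ≤ M := by
  obtain ⟨c, hc⟩ := h.ne
  have h1 : 0 ≤ M - Esc.al K C := by
    refine C12_arch (b := 4 * B) fun n => ?_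
    have h2 := (abs_le.1 (al_spec h (T := n + 1) (by omega) (h.sub hc) (h.sub hc))).2
    have h3 := C12_kp_low h hM n c (h.sub hc) c (h.sub hc)
    push_cast at h2
    linarith
  linarith

end abstract_

variable {ι : Type} [Fintype ι] {d : ℕ} {E : Type*} [NormedAddCommGroup E] [InnerProductSpace ℝ E]
  [FiniteDimensional ℝ E] {D : GT ι d E} {p : GP} {m M Mf : ℝ} {L : LP} {Φ : Fx} {ll l : E → E → ℝ → ℝ}
  {f f' : E → ℝ → ℝ}

/-! ### elementary facts -/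

theorem C12_kd (h : D.Ok) (hp : POk D p) (hl : TG D.β m M ll) {s : ℝ} (hs : 0 ≤ s) :
    ∃ C : ℝ, KD ((D0 D).k1 ll s) ((D0 D).C p) ((D0 D).R p) C C := by
  obtain ⟨C, -, hC, -⟩ := C11b.consts h hp hl hs
  exact ⟨C, hC⟩

theorem C12_jq (h : D.Ok) (t : ℝ) : D.j t (D.q t) (D.q t) = 0 :=
  j_Z h.toOk0 t (C10_qZ h t) (C10_qZ h t)

/-- a point of the room is near the class -/
theorem C12_near (h : D.Ok) {x : E} (hx : x ∈ (D0 D).R p) :
    D.j 0 x (D.q 0) ≤ 2 * D.MF * p.η1 ∧ D.j 0 (D.q 0) x ≤ 2 * D.MF * p.η1 :=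
  near h.toOk0 0 (show Metric.infDist x (D.Z 0) ≤ p.η1 from hx)

theorem C12_om (hp : POk D p) : 2 * D.MF * p.η1 + 2 * D.MF * p.η1 ≤ p.e / 2 - 2 * D.MF * p.η1 := by
  have := C10_om hp
  have h1 := hp.om_le
  have h2 := hp.κ_le
  have h3 := hp.κ_pos
  have h4 := hp.e_pos
  linarith

theorem C12_om' (hp : POk D p) : 2 * D.MF * p.η1 + 2 * D.MF * p.η1 ≤ D.Us - 2 * D.MF * p.η1 := by
  have h1 := C12_om hp
  have h2 := hp.e_le
  have h3 := hp.e_pos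
  linarith

/-- kernels between points of the room -/
theorem C12_k (h : D.Ok) (hp : POk D p) (m : ℝ) (L : LP) {ε : ℝ} (hε : 0 < ε) :
    ∃ s0 : ℝ, 1 ≤ s0 ∧ ∀ s, s0 ≤ s → ∀ Φ ll, FTa D m L Φ s ll → ∀ x ∈ (D0 D).R p, ∀ y ∈ (D0 D).R p,
      (D0 D).k1 ll s x y ≤ fl Φ s 0 1 + s * (D.j 0 x (D.q 0) + D.j 0 (D.q 0) y) + ε * s ∧
      fl Φ s 0 1 ≤ (D0 D).k1 ll s x y + ε * s := by
  obtain ⟨s0, h0, H⟩ := C10_k1 h hp m L hε
  exact ⟨s0, h0, fun s hs Φ ll hl x hx y hy =>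
    ⟨(H s hs Φ ll hl x hx y hy).1, (H s hs Φ ll hl x hx y hy).2.1⟩⟩

/-- the critical value is the mean flux -/
theorem al_fl (h : D.Ok) (hp : POk D p) (m : ℝ) (L : LP) {ε : ℝ} (hε : 0 < ε) : ∃ s0 : ℝ, 1 ≤ s0 ∧
    ∀ s, s0 ≤ s → ∀ Φ ll, FTa D m L Φ s ll → |(D0 D).al p ll s + fl Φ s 0 1| ≤ ε * s := by
  obtain ⟨s1, hs1, H⟩ := C12_k h hp m L hε
  refine ⟨s1, hs1, fun s hs Φ ll hl => ?_⟩
  have hs0 : 0 ≤ s := by linarith
  obtain ⟨C, hK⟩ := C12_kd h hp hl.toTG hs0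
  have hq := q_R h hp
  have hk := (H s hs Φ ll hl _ hq _ hq).1
  rw [C12_jq h 0, add_zero, mul_zero, add_zero] at hk
  obtain ⟨n, hn⟩ := R_red h hp hq
  have h2 : (D0 D).k1 ll s (D.q 0 + lv D.b n) (D.q 0 + lv D.b n) = (D0 D).k1 ll s (D.q 0) (D.q 0) := by
    have := kk_J h hl.toTG s 0 1 (D.q 0) (D.q 0) n n
    exact this
  have h1 : -(D0 D).k1 ll s (D.q 0 + lv D.b n) (D.q 0 + lv D.b n) ≤ (D0 D).al p ll s := C12_al_low hK hn
  rw [h2] at h1
  have h3 : (D0 D).al p ll s ≤ -fl Φ s 0 1 + ε * s := by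
    refine C12_al_upp hK fun z hz z' hz' => ?_
    have := (H s hs Φ ll hl z hz z' hz').2
    linarith
  rw [abs_le]
  constructor
  · linarith
  · linarith

theorem C12_flQ {s0 : ℝ} (hl : FTa D m L Φ s0 ll) (s r : ℝ) :
    fl Φ s 0 (1 + r) = (1 + r) * fl Φ s 0 1 + gam Φ s r := by
  have h1 := fl_add hl.a_cont s 0 1 (1 + r)
  have h2 := fl_per hl.a_per s 0 r 1
  rw [Int.cast_one, zero_add, add_comm r 1] at h2
  rw [h1, h2, gam]
  ring

theorem C12_flP {s0 : ℝ} (hl : FTa D m L Φ s0 ll) (s r : ℝ) :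
    fl Φ s r 2 = (2 - r) * fl Φ s 0 1 - gam Φ s r := by
  have h1 := fl_add hl.a_cont s 0 r 2
  have h3 := fl_add hl.a_cont s 0 1 2
  have h2 := fl_per hl.a_per s 0 1 1
  rw [Int.cast_one, zero_add, one_add_one_eq_two] at h2
  rw [h2] at h3
  rw [gam]
  linarith

theorem C12_bb1 (h : D.Ok) (r : ℝ) (w : E) : D.bb (1 + r) w = D.bb r w := by
  have := (bb_per h.toOk0 r 1 w).1
  rw [Int.cast_one, add_comm] at this
  exact this

theorem C12_bbg (h : D.Ok) (r : ℝ) (w : E) : D.bb r (w - D.g) = D.bb r w := by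
  have := bb_Lam h.toOk0 h.g_mem r (w - D.g)
  rw [sub_add_cancel] at this
  exact this.symm

theorem C12_jg (h : D.Ok) (r : ℝ) (w x : E) : D.j r (w - D.g) x = D.j r w (x + D.g) := by
  have := j_Lam h.toOk0 h.g_mem r (w - D.g) x
  rw [sub_add_cancel] at this
  exact this.symm

theorem C12_X (hp : POk D p) {r : ℝ} {w : E} (hw : w ∈ D.Mg r (p.ηc / 2) (2 * p.κ)) : w ∈ D.X p.ρ :=
  C11b.M_X hp hw

theorem C12_Xg (hp : POk D p) {r : ℝ} {w : E} (hw : w ∈ D.Mg r (p.ηc / 2) (2 * p.κ)) :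
    w - D.g ∈ D.X p.ρ :=
  C11b.M_X' hp hw

/-- the leg from a gate point to the room -/
theorem C12_P (h : D.Ok) (hp : POk D p) (m : ℝ) (L : LP) {ε : ℝ} (hε : 0 < ε) :
    ∃ s0 : ℝ, 1 ≤ s0 ∧ ∀ s, s0 ≤ s → ∀ Φ ll, FTa D m L Φ s ll → ∀ r, 0 ≤ r → r ≤ 1 →
      ∀ w ∈ D.Mg r (p.ηc / 2) (2 * p.κ), ∀ x ∈ (D0 D).R p,
      (D0 D).P ll s r w x ≤ -(s * D.bb r w) + fl Φ s r 2 +
        s * (D.j r w (D.q r + D.g) + D.j 0 (D.q 0) x) + ε * s ∧
      -(s * D.bb r w) + fl Φ s r 2 + s * (D.j r w (D.q r + D.g) + D.j 0 (D.q 0) x) ≤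
          (D0 D).P ll s r w x + ε * s := by
  obtain ⟨s1, hs1, hlow⟩ := C10_low h m L p.ρ hε
  obtain ⟨s2, hs2, hupp⟩ := upp h m L p.ρ hε
  refine ⟨s1 + s2, by linarith, ?_⟩
  intro s hs Φ ll hl r hr hr1 w hw x hx
  have hs0 : 0 ≤ s := by linarith
  have hcorr : D.corr s r 2 (w - D.g) x = -(s * D.bb r w) := by
    unfold GT.corr
    rw [C10_bb2 h, C12_bbg h]
    ring
  have u1 := hupp s (by linarith) Φ ll hl r 2 (by linarith) (by linarith) (w - D.g) (C12_Xg hp hw) x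
    (C10_XR hp hx)
  rw [hcorr, C10_q2 h, C10_j2 h, C12_jg h] at u1
  obtain ⟨v, hv, v', hv', b1, b2⟩ := hlow s (by linarith) Φ ll hl r 2 (by linarith) (by linarith) (w - D.g)
    (C12_Xg hp hw) x (C10_XR hp hx)
  rw [hcorr, C10_q2 h, C10_j2 h, C12_jg h] at b1 b2
  change (D.InJ (v' - v) ∨ s * (D.j r w (D.q r + v + D.g) + D.Us + D.j 0 (D.q 0 + v') x) +
    -(s * D.bb r w) + fl Φ s r 2 ≤ (D0 D).P ll s r w x + ε * s) at b1
  change s * (D.j r w (D.q r + v + D.g) + D.j 0 (D.q 0 + v') x) +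
    -(s * D.bb r w) + fl Φ s r 2 ≤ (D0 D).P ll s r w x + ε * s at b2
  change (D0 D).P ll s r w x ≤ _ at u1
  refine ⟨u1, ?_⟩
  have n1 := mul_nonneg hs0 (j_nonneg h.toOk0 0 (D.q 0 + v') x)
  have hom := mul_le_mul_of_nonneg_left (C12_om hp) hs0
  have hMη : 0 ≤ s * (2 * D.MF * p.η1) :=
    mul_nonneg hs0 (mul_nonneg (mul_nonneg (by norm_num) (C10_MF h)) hp.η1_pos.le)
  have hnx := mul_le_mul_of_nonneg_left (C12_near h hx).2 hs0
  have ejr : D.InJ v → D.j r w (D.q r + v + D.g) = D.j r w (D.q r + D.g) := by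
    intro hJ
    rw [add_right_comm]
    exact C10_jr h r w (D.q r + D.g) hJ
  by_cases hJ : D.InJ v
  · rw [ejr hJ] at b1 b2
    by_cases hJ' : D.InJ v'
    · rw [C10_jl h 0 x (D.q 0) hJ'] at b2
      linarith
    · rcases b1 with b1 | b1
      · exact absurd (C10_InJ_sub' b1 hJ) hJ'
      · have e1 : p.e / 2 ≤ D.Us := by
          have := hp.e_le
          have := hp.e_pos
          linarith
        have e2 := mul_le_mul_of_nonneg_left e1 hs0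
        simp only [mul_add, mul_sub] at *
        linarith
  · have k1 := no1 h hp hw hv hJ
    have k2 := mul_le_mul_of_nonneg_left k1 hs0
    by_cases hJ' : D.InJ v'
    · rcases b1 with b1 | b1
      · exact absurd (C10_InJ_sub b1 hJ') hJ
      · simp only [mul_add, mul_sub] at *
        linarith
    · have k3 := mul_le_mul_of_nonneg_left (C10_U2 h hx hv' hJ') hs0
      simp only [mul_add, mul_sub] at *
      linarith

/-- the leg from the room to a gate point -/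
theorem C12_Q (h : D.Ok) (hp : POk D p) (m : ℝ) (L : LP) {ε : ℝ} (hε : 0 < ε) :
    ∃ s0 : ℝ, 1 ≤ s0 ∧ ∀ s, s0 ≤ s → ∀ Φ ll, FTa D m L Φ s ll → ∀ r, 0 ≤ r → r ≤ 1 →
      ∀ w ∈ D.Mg r (p.ηc / 2) (2 * p.κ), ∀ x ∈ (D0 D).R p,
      (D0 D).Q ll s r x w ≤ s * D.bb r w + fl Φ s 0 (1 + r) +
        s * (D.j 0 x (D.q 0) + D.j r (D.q r) w) + ε * s ∧
      s * D.bb r w + fl Φ s 0 (1 + r) + s * (D.j 0 x (D.q 0) + D.j r (D.q r) w) ≤
          (D0 D).Q ll s r x w + ε * s := by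
  obtain ⟨s1, hs1, hlow⟩ := C10_low h m L p.ρ hε
  obtain ⟨s2, hs2, hupp⟩ := upp h m L p.ρ hε
  refine ⟨s1 + s2, by linarith, ?_⟩
  intro s hs Φ ll hl r hr hr1 w hw x hx
  have hs0 : 0 ≤ s := by linarith
  have hcorr : D.corr s 0 (1 + r) x w = s * D.bb r w := by
    unfold GT.corr
    rw [C10_bb0, C12_bb1 h]
    ring
  have u1 := hupp s (by linarith) Φ ll hl 0 (1 + r) (by linarith) (by linarith) x (C10_XR hp hx) w
    (C12_X hp hw)
  rw [hcorr, C10_qr h, C10_jr1 h] at u1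
  obtain ⟨v, hv, v', hv', b1, b2⟩ := hlow s (by linarith) Φ ll hl 0 (1 + r) (by linarith) (by linarith) x
    (C10_XR hp hx) w (C12_X hp hw)
  rw [hcorr, C10_qr h, C10_jr1 h] at b1 b2
  change (D.InJ (v' - v) ∨ s * (D.j 0 x (D.q 0 + v) + D.Us + D.j r (D.q r + v') w) +
    s * D.bb r w + fl Φ s 0 (1 + r) ≤ (D0 D).Q ll s r x w + ε * s) at b1
  change s * (D.j 0 x (D.q 0 + v) + D.j r (D.q r + v') w) +
    s * D.bb r w + fl Φ s 0 (1 + r) ≤ (D0 D).Q ll s r x w + ε * s at b2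
  change (D0 D).Q ll s r x w ≤ _ at u1
  refine ⟨u1, ?_⟩
  have n1 := mul_nonneg hs0 (j_nonneg h.toOk0 0 x (D.q 0 + v))
  have hom := mul_le_mul_of_nonneg_left (C12_om hp) hs0
  have hMη : 0 ≤ s * (2 * D.MF * p.η1) :=
    mul_nonneg hs0 (mul_nonneg (mul_nonneg (by norm_num) (C10_MF h)) hp.η1_pos.le)
  have hnx := mul_le_mul_of_nonneg_left (C12_near h hx).1 hs0
  by_cases hJ' : D.InJ v'
  · rw [C10_jl h r w (D.q r) hJ'] at b1 b2
    by_cases hJ : D.InJ v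
    · rw [C10_jr h 0 x (D.q 0) hJ] at b2
      linarith
    · rcases b1 with b1 | b1
      · exact absurd (C10_InJ_sub b1 hJ') hJ
      · have e1 : p.e / 2 ≤ D.Us := by
          have := hp.e_le
          have := hp.e_pos
          linarith
        have e2 := mul_le_mul_of_nonneg_left e1 hs0
        simp only [mul_add, mul_sub] at *
        linarith
  · have k1 := no0 h hp hw hv' hJ'
    have k2 := mul_le_mul_of_nonneg_left k1 hs0
    by_cases hJ : D.InJ v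
    · rcases b1 with b1 | b1
      · exact absurd (C10_InJ_sub' b1 hJ) hJ'
      · simp only [mul_add, mul_sub] at *
        linarith
    · have k3 := mul_le_mul_of_nonneg_left (C10_U1 h hx hv hJ) hs0
      simp only [mul_add, mul_sub] at *
      linarith

/-! ### size of the barriers -/

theorem m1a (h : D.Ok) (hp : POk D p) (m : ℝ) (L : LP) {ε : ℝ} (hε : 0 < ε) : ∃ s0 : ℝ, 1 ≤ s0 ∧ ∀ s, s0 ≤ s →
    ∀ Φ ll, FTa D m L Φ s ll → ∀ r, 0 ≤ r → r ≤ 1 → ∀ w ∈ D.Mg r (p.ηc / 2) (2 * p.κ),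
    |(D0 D).alpha p ll s r w - (D0 D).bar p ll s (D.q 0) (D.q 0) - s * D.j r (D.q r) w - s * D.bb r w -
      gam Φ s r| ≤ ε * s := by
  obtain ⟨s1, hs1, H⟩ := C12_k h hp m L (ε := ε / 8) (by positivity)
  obtain ⟨s2, hs2, H2⟩ := C12_Q h hp m L (ε := ε / 8) (by positivity)
  obtain ⟨s3, hs3, H3⟩ := al_fl h hp m L (ε := ε / 8) (by positivity)
  refine ⟨s1 + s2 + s3, by linarith, fun s hs Φ ll hl r hr hr1 w hw => ?_⟩
  have hs0 : 0 ≤ s := by linarith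
  have hq := q_R h hp
  have hjj := C12_jq h 0
  obtain ⟨ha1, ha2⟩ := abs_le.1 (H3 s (by linarith) Φ ll hl)
  have hes : 0 ≤ ε / 8 * s := by positivity
  have har1 : -(ε / 8 * s) ≤ ((D0 D).al p ll s + fl Φ s 0 1) * r := by nlinarith
  have har2 : ((D0 D).al p ll s + fl Φ s 0 1) * r ≤ ε / 8 * s := by nlinarith
  have hfl := C12_flQ hl s r
  rw [abs_le]
  constructor
  · obtain ⟨x, hx, e⟩ := alpha_att h hp hl.toTG hs0 hr hr1 hw
    have hxR := C_sub hx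
    obtain ⟨C, hK⟩ := C12_kd h hp hl.toTG hs0
    have h1 : (D0 D).bar p ll s (D.q 0) (D.q 0) ≤ (D0 D).bar p ll s (D.q 0) x +
        ((D0 D).k1 ll s x (D.q 0) + (D0 D).al p ll s * ((1 : ℕ) : ℝ)) :=
      bar_right_le hK le_rfl hq hxR hq
    have h2 := (H s (by linarith) Φ ll hl x hxR _ hq).1
    have h3 := (H2 s (by linarith) Φ ll hl r hr hr1 w hw x hxR).2
    rw [hjj, add_zero] at h2
    push_cast at h1
    rw [hfl] at h3
    rw [e]
    simp only [mul_add] at h3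
    linarith
  · have h1 := alpha_le h hp hl.toTG hs0 hr hr1 hw hq
    have h2 := (H2 s (by linarith) Φ ll hl r hr hr1 w hw _ hq).1
    rw [hjj, zero_add, hfl] at h2
    linarith

theorem m1b (h : D.Ok) (hp : POk D p) (m : ℝ) (L : LP) {ε : ℝ} (hε : 0 < ε) : ∃ s0 : ℝ, 1 ≤ s0 ∧ ∀ s, s0 ≤ s →
    ∀ Φ ll, FTa D m L Φ s ll → ∀ r, 0 ≤ r → r ≤ 1 → ∀ w ∈ D.Mg r (p.ηc / 2) (2 * p.κ),
    |(D0 D).beta p ll s r w - (D0 D).bar p ll s (D.q 0) (D.q 0) - s * D.j r w (D.q r + D.g) + s * D.bb r w +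
      gam Φ s r| ≤ ε * s := by
  obtain ⟨s1, hs1, H⟩ := C12_k h hp m L (ε := ε / 8) (by positivity)
  obtain ⟨s2, hs2, H2⟩ := C12_P h hp m L (ε := ε / 8) (by positivity)
  obtain ⟨s3, hs3, H3⟩ := al_fl h hp m L (ε := ε / 8) (by positivity)
  refine ⟨s1 + s2 + s3, by linarith, fun s hs Φ ll hl r hr hr1 w hw => ?_⟩
  have hs0 : 0 ≤ s := by linarith
  have hq := q_R h hp
  have hjj := C12_jq h 0
  obtain ⟨ha1, ha2⟩ := abs_le.1 (H3 s (by linarith) Φ ll hl)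
  have hes : 0 ≤ ε / 8 * s := by positivity
  have har1 : -(ε / 8 * s) ≤ ((D0 D).al p ll s + fl Φ s 0 1) * (1 - r) := by nlinarith
  have har2 : ((D0 D).al p ll s + fl Φ s 0 1) * (1 - r) ≤ ε / 8 * s := by nlinarith
  have hfl := C12_flP hl s r
  rw [abs_le]
  constructor
  · obtain ⟨x, hx, e⟩ := beta_att h hp hl.toTG hs0 hr hr1 hw
    have hxR := C_sub hx
    obtain ⟨C, hK⟩ := C12_kd h hp hl.toTG hs0
    have h1 : (D0 D).bar p ll s (D.q 0) (D.q 0) ≤ (D0 D).k1 ll s (D.q 0) x +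
        (D0 D).al p ll s * ((1 : ℕ) : ℝ) + (D0 D).bar p ll s x (D.q 0) :=
      bar_left_le hK le_rfl hq hxR hq
    have h2 := (H s (by linarith) Φ ll hl _ hq x hxR).1
    have h3 := (H2 s (by linarith) Φ ll hl r hr hr1 w hw x hxR).2
    rw [hjj, zero_add] at h2
    push_cast at h1
    rw [hfl] at h3
    rw [e]
    simp only [mul_add] at h3
    linarith
  · have h1 := beta_le h hp hl.toTG hs0 hr hr1 hw hq
    have h2 := (H2 s (by linarith) Φ ll hl r hr hr1 w hw _ hq).1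
    rw [hjj, add_zero, hfl] at h2
    linarith

/-! ### good gate points at some slice -/

theorem C12_slice {a : ℝ} (ha : 0 ≤ a) (ha1 : a < 1) {δ : ℝ} (hδ : 0 < δ) : ∃ N0 : ℕ, 0 < N0 ∧ ∀ N : ℕ, N0 ≤ N →
    ∃ k < N, |a - (k : ℝ) / N| ≤ δ := by
  obtain ⟨N0, hN0⟩ := exists_nat_gt (1 / δ)
  refine ⟨N0 + 1, Nat.succ_pos _, fun N hN => ?_⟩
  have hN1 : (N0 : ℝ) + 1 ≤ N := by exact_mod_cast hN
  have hN' : (0 : ℝ) < N := by
    have : (0 : ℝ) ≤ N0 := Nat.cast_nonneg _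
    linarith
  refine ⟨⌊a * N⌋₊, ?_, ?_⟩
  · rw [Nat.floor_lt (by positivity)]
    nlinarith
  · have h1 := Nat.floor_le (a := a * N) (by positivity)
    have h2 := Nat.lt_floor_add_one (a * N)
    have h3 : a - (⌊a * N⌋₊ : ℝ) / N = (a * N - ⌊a * N⌋₊) / N := by
      field_simp
    rw [h3, abs_of_nonneg (div_nonneg (by linarith) hN'.le), div_le_iff₀ hN']
    have h4 : 1 < δ * N := by
      rw [div_lt_iff₀ hδ] at hN0
      nlinarith
    linarith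

theorem C12_inf (h : D.Ok) (t t' : ℝ) (x : E) :
    Metric.infDist x (D.Z t') ≤ Metric.infDist x (D.Z t) + D.A * |t - t'| := by
  refine le_of_forall_pos_lt_add fun ε hε => ?_
  have hne : (D.Z t).Nonempty := ⟨D.q t, C10_qZ h t⟩
  obtain ⟨z, hz, hd⟩ := (Metric.infDist_lt_iff hne).1
    (lt_add_of_pos_right (Metric.infDist x (D.Z t)) hε)
  have h1 := h.Z_lip t t' z hz
  have h2 := Metric.infDist_le_infDist_add_dist (s := D.Z t') (x := x) (y := z)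
  linarith

theorem C12_wit (h : D.Ok) (hp : POk D p) {ε : ℝ} (hε : 0 < ε) : ∃ N0 : ℕ, 0 < N0 ∧ ∀ N : ℕ, N0 ≤ N →
    ∃ k < N, ∃ w ∈ Mi D p ((k : ℝ) / N),
      D.j ((k : ℝ) / N) (D.q ((k : ℝ) / N)) w + D.j ((k : ℝ) / N) w (D.q ((k : ℝ) / N) + D.g) ≤ D.Us + ε := by
  have hηc := hp.ηc_pos
  have hκ := hp.κ_pos
  have hA := h.A_pos
  obtain ⟨r, hr0, hr1, hUs⟩ := Us_att h
  set ε1 : ℝ := min ε (p.κ / 2) with hε1
  have hε1p : 0 < ε1 := lt_min hε (by positivity)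
  obtain ⟨w, hwO, hwR, hwj⟩ := exists_wit h hp r (ε := ε1 / 2) (by positivity)
  rw [← hUs] at hwj
  -- a bounded set with w and w - g
  have hX0 : ∃ ρ : ℝ, w ∈ D.X ρ ∧ w - D.g ∈ D.X ρ := by
    refine ⟨max ‖w‖ ‖w - D.g‖, ⟨0, ?_⟩, ⟨0, ?_⟩⟩
    · rw [C10_lv0, add_zero]
      exact le_max_left _ _
    · rw [C10_lv0, add_zero]
      exact le_max_right _ _
  obtain ⟨ρ, hwX, hwgX⟩ := hX0
  obtain ⟨δ, hδ, hj⟩ := j_cont h.toOk0 ρ (ε := ε1 / 4) (by positivity)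
  set δ' : ℝ := min δ (p.ηc / D.A) with hδ'
  have hδ'p : 0 < δ' := lt_min hδ (by positivity)
  obtain ⟨N0, hN0, HN⟩ := C12_slice hr0 hr1 hδ'p
  refine ⟨N0, hN0, fun N hN => ?_⟩
  obtain ⟨k, hk, hd⟩ := HN N hN
  have hd1 : |r - (k : ℝ) / N| ≤ δ := hd.trans (min_le_left _ _)
  have hd2 : D.A * |r - (k : ℝ) / N| ≤ p.ηc := by
    have := hd.trans (min_le_right _ _)
    rw [le_div_iff₀ hA] at this
    linarith
  set t : ℝ := (k : ℝ) / N with ht
  have hd3 : D.A * |t - r| ≤ p.ηc := by rwa [abs_sub_comm]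
  obtain ⟨-, hja, hjb⟩ := hj r t hd1
  have hja' := (abs_le.1 (hja w hwX)).1
  have hjb' := (abs_le.1 (hjb (w - D.g) hwgX)).1
  rw [C12_jg h, C12_jg h] at hjb'
  have hε2 : ε1 ≤ ε := min_le_left _ _
  have hε3 : ε1 ≤ p.κ / 2 := min_le_right _ _
  refine ⟨k, hk, w, ⟨⟨fun v hv => ?_, ?_⟩, ?_⟩, ?_⟩
  · have h1 := hwO v hv
    have h2 := C12_inf h t r (w + v)
    linarith
  · linarith
  · show Metric.infDist w (D.Z t) ≤ 5 * p.ηc
    have h2 := C12_inf h r t w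
    linarith
  · linarith

/-- there are gate points in some slice -/
theorem Md_ne (h : D.Ok) (hp : POk D p) : ∃ N0 : ℕ, 0 < N0 ∧ ∀ N : ℕ, N0 ≤ N → ∃ k < N,
    (Mi D p ((k : ℝ) / N)).Nonempty := by
  obtain ⟨N0, hN0, H⟩ := C12_wit h hp one_pos
  refine ⟨N0, hN0, fun N hN => ?_⟩
  obtain ⟨k, hk, w, hw, -⟩ := H N hN
  exact ⟨k, hk, w, hw⟩

theorem C12_Mi_Md (hp : POk D p) {t : ℝ} {w : E} (hw : w ∈ Mi D p t) : w ∈ Md D p t := by
  have hηc := hp.ηc_pos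
  have hκ := hp.κ_pos
  obtain ⟨⟨h1, h2⟩, h3⟩ := hw
  refine ⟨⟨fun v hv => ?_, by linarith⟩, ?_⟩
  · have := h1 v hv
    linarith
  · show Metric.infDist w (D.Z t) ≤ 6 * p.ηc
    have : Metric.infDist w (D.Z t) ≤ 5 * p.ηc := h3
    linarith

theorem C12_gam {s0 : ℝ} (hl : FTa D m L Φ s0 ll) {s s' : ℝ} (hs : 1 ≤ s) (hs' : 1 ≤ s') {r : ℝ} (hr : 0 ≤ r) (hr1 : r ≤ 1) :
    |gam Φ s r - gam Φ s' r| ≤ 2 * (L.A * (s + s') * |s - s'|) := by
  have hA := hl.A_nonneg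
  have key : ∀ b : ℝ, 0 ≤ b → b ≤ 1 → |fl Φ s 0 b - fl Φ s' 0 b| ≤ L.A * (s + s') * |s - s'| := by
    intro b hb hb1
    have h1 : fl Φ s 0 b - fl Φ s' 0 b = ∫ t in (0:ℝ)..b, (Φ s t - Φ s' t) := by
      unfold fl
      rw [intervalIntegral.integral_sub ((hl.a_cont s).intervalIntegrable _ _)
        ((hl.a_cont s').intervalIntegrable _ _)]
    rw [h1]
    have h2 := intervalIntegral.norm_integral_le_of_norm_le_const (a := 0) (b := b)
      (f := fun t => Φ s t - Φ s' t) (C := L.A * (s + s') * |s - s'|) (fun t _ => by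
        rw [Real.norm_eq_abs]
        exact hl.a_lip s s' t hs hs')
    rw [Real.norm_eq_abs, sub_zero, abs_of_nonneg hb] at h2
    have h3 : 0 ≤ L.A * (s + s') * |s - s'| :=
      mul_nonneg (mul_nonneg hA (by linarith)) (abs_nonneg _)
    nlinarith
  have e1 := abs_le.1 (key r hr hr1)
  have e2 := abs_le.1 (key 1 zero_le_one le_rfl)
  have h3 : 0 ≤ L.A * (s + s') * |s - s'| :=
    mul_nonneg (mul_nonneg hA (by linarith)) (abs_nonneg _)
  unfold gam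
  rw [abs_le]
  constructor
  · nlinarith [e1.1, e2.2]
  · nlinarith [e1.2, e2.1]

/-- near-minimal gate points have small excess -/
theorem m2 (h : D.Ok) (hp : POk D p) (m : ℝ) (L : LP) : ∃ (s0 δ0 : ℝ) (N0 : ℕ), 1 ≤ s0 ∧ 0 < δ0 ∧ 0 < N0 ∧
    ∀ s s', s0 ≤ s → s0 ≤ s' → |s' - s| ≤ δ0 → ∀ Φ ll, FTa D m L Φ s ll → FTa D m L Φ s' ll → ∀ N : ℕ, N0 ≤ N → ∀ k < N,
    ∀ w ∈ Md D p ((k : ℝ) / N),
    (∀ k' < N, ∀ w' ∈ Md D p ((k' : ℝ) / N),
      (D0 D).W p ll s s' ((k : ℝ) / N) w ≤ (D0 D).W p ll s s' ((k' : ℝ) / N) w' + 1) →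
    D.j ((k : ℝ) / N) (D.q ((k : ℝ) / N)) w + D.j ((k : ℝ) / N) w (D.q ((k : ℝ) / N) + D.g) ≤
      D.Us + p.κ / 4 := by
  have hκ := hp.κ_pos
  have hηc := hp.ηc_pos
  obtain ⟨sa, hsa, Ha⟩ := m1a h hp m L (ε := p.κ / 100) (by positivity)
  obtain ⟨sb, hsb, Hb⟩ := m1b h hp m L (ε := p.κ / 100) (by positivity)
  obtain ⟨N0, hN0, HN⟩ := C12_wit h hp (ε := p.κ / 100) (by positivity)
  obtain ⟨Cb, hCb0, hCb, -⟩ := bb_bd h.toOk0
  have hU : 0 < D.Us := Us_pos h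
  have hLA : 0 ≤ |L.A| := abs_nonneg _
  set T : ℝ := 100 * (2 * D.Us + 4 * p.κ + 2 * Cb + 2) / p.κ with hT
  set δ0 : ℝ := min 1 (p.κ / (2400 * (|L.A| + 1))) with hδ0
  have hδ0p : 0 < δ0 := lt_min one_pos (by positivity)
  have hδ1 : δ0 ≤ 1 := min_le_left _ _
  have hδ2 : 2400 * (|L.A| + 1) * δ0 ≤ p.κ := by
    have : δ0 ≤ p.κ / (2400 * (|L.A| + 1)) := min_le_right _ _
    rw [le_div_iff₀ (by positivity)] at this
    linarith
  refine ⟨max (max sa sb) T, δ0, N0, hsa.trans ((le_max_left _ _).trans (le_max_left _ _)), hδ0p, hN0,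
    fun s s' hs hs' hss Φ ll hl hl' N hN k hk w hw hmin => ?_⟩
  obtain ⟨k', hk', w', hw'i, hw'⟩ := HN N hN
  have hN' : (0 : ℝ) < N := by
    have : 0 < N := lt_of_lt_of_le hN0 hN
    exact_mod_cast this
  have hr : ∀ k < N, 0 ≤ (k : ℝ) / N ∧ (k : ℝ) / N ≤ 1 := by
    intro k hk
    refine ⟨by positivity, ?_⟩
    rw [div_le_one hN']
    exact_mod_cast hk.le
  obtain ⟨hr0, hr1⟩ := hr k hk
  obtain ⟨hr0', hr1'⟩ := hr k' hk'
  have hw'M := C12_Mi_Md hp hw'i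
  have h5 := hmin k' hk' w' hw'M
  have hsa' : sa ≤ s := ((le_max_left _ _).trans (le_max_left _ _)).trans hs
  have hsb' : sb ≤ s' := ((le_max_right _ _).trans (le_max_left _ _)).trans hs'
  have hTs : T ≤ s := (le_max_right _ _).trans hs
  have hs0 : 1 ≤ s := hsa.trans hsa'
  have hs0' : 1 ≤ s' := hsb.trans hsb'
  have g1 := C12_gam hl hs0 hs0' hr0 hr1
  have g2 := C12_gam hl hs0 hs0' hr0' hr1'
  set t : ℝ := (k : ℝ) / N with ht
  set t' : ℝ := (k' : ℝ) / N with ht'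
  have h1 := abs_le.1 (Ha s hsa' Φ ll hl t hr0 hr1 w (C10_Mg hp hw))
  have h2 := abs_le.1 (Hb s' hsb' Φ ll hl' t hr0 hr1 w (C10_Mg hp hw))
  have h3 := abs_le.1 (Ha s hsa' Φ ll hl t' hr0' hr1' w' (C10_Mg hp hw'M))
  have h4 := abs_le.1 (Hb s' hsb' Φ ll hl' t' hr0' hr1' w' (C10_Mg hp hw'M))
  have hab : D.j t (D.q t) w + D.j t w (D.q t + D.g) ≤ D.Us + p.κ := hw.1.2
  unfold GD.W at h5
  have ha0 : 0 ≤ D.j t (D.q t) w := j_nonneg h.toOk0 _ _ _
  have hb0 : 0 ≤ D.j t w (D.q t + D.g) := j_nonneg h.toOk0 _ _ _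
  have ha0' : 0 ≤ D.j t' (D.q t') w' := j_nonneg h.toOk0 _ _ _
  have hb0' : 0 ≤ D.j t' w' (D.q t' + D.g) := j_nonneg h.toOk0 _ _ _
  set a := D.j t (D.q t) w with ha
  set b := D.j t w (D.q t + D.g) with hb
  set a' := D.j t' (D.q t') w' with ha'
  set b' := D.j t' w' (D.q t' + D.g) with hb'
  have c1 := abs_le.1 (hCb t w)
  have c2 := abs_le.1 (hCb t' w')
  set B1 := D.bb t w with hB1
  set B2 := D.bb t' w' with hB2
  have hss' := abs_le.1 (hss.trans hδ1)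
  have hbb : (s - 1) * b ≤ s' * b := mul_le_mul_of_nonneg_right (by linarith) hb0
  have hbb' : s' * b' ≤ (s + 1) * b' := mul_le_mul_of_nonneg_right (by linarith) hb0'
  have hss2 : s' ≤ 2 * s := by linarith
  have herr : p.κ / 100 * s' ≤ p.κ / 100 * (2 * s) :=
    mul_le_mul_of_nonneg_left hss2 (by positivity)
  have hTk : 100 * (2 * D.Us + 4 * p.κ + 2 * Cb + 2) ≤ s * p.κ := by
    have := hTs
    rw [hT, div_le_iff₀ hκ] at this
    exact this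
  -- the difference of the fluxes
  have hG : ∀ x : ℝ, |x| ≤ 2 * (L.A * (s + s') * |s - s'|) → |x| ≤ p.κ / 400 * s := by
    intro x hx
    have e1 : |s - s'| ≤ δ0 := by rwa [abs_sub_comm]
    have e2 : L.A * (s + s') * |s - s'| ≤ (|L.A| + 1) * (3 * s) * δ0 := by
      have hle : L.A ≤ |L.A| + 1 := by linarith [le_abs_self L.A]
      have f1 : L.A * (s + s') ≤ (|L.A| + 1) * (3 * s) := by
        have : 0 ≤ s + s' := by linarith
        calc L.A * (s + s') ≤ (|L.A| + 1) * (s + s') := mul_le_mul_of_nonneg_right hle this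
          _ ≤ (|L.A| + 1) * (3 * s) := mul_le_mul_of_nonneg_left (by linarith) (by positivity)
      calc L.A * (s + s') * |s - s'| ≤ (|L.A| + 1) * (3 * s) * |s - s'| :=
            mul_le_mul_of_nonneg_right f1 (abs_nonneg _)
        _ ≤ (|L.A| + 1) * (3 * s) * δ0 := mul_le_mul_of_nonneg_left e1 (by positivity)
    have e3 : (2400 * (|L.A| + 1) * δ0) * s ≤ p.κ * s := mul_le_mul_of_nonneg_right hδ2 (by linarith)
    nlinarith
  have g1' := abs_le.1 (hG _ g1)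
  have g2' := abs_le.1 (hG _ g2)
  -- the difference of the corrections
  have hB1' : -(Cb) ≤ (s - s') * B1 := by
    have e1 : |(s - s') * B1| ≤ 1 * Cb := by
      rw [abs_mul]
      refine mul_le_mul ?_ (abs_le.2 c1) (abs_nonneg _) zero_le_one
      rw [abs_sub_comm]
      exact hss.trans hδ1
    linarith [(abs_le.1 e1).1]
  have hB2' : (s - s') * B2 ≤ Cb := by
    have e1 : |(s - s') * B2| ≤ 1 * Cb := by
      rw [abs_mul]
      refine mul_le_mul ?_ (abs_le.2 c2) (abs_nonneg _) zero_le_one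
      rw [abs_sub_comm]
      exact hss.trans hδ1
    linarith [(abs_le.1 e1).2]
  have hkey : s * (a + b) ≤ s * (a' + b') + b + b' + 6 * (p.κ / 100 * s) + 2 * (p.κ / 400 * s) + 2 * Cb + 1 := by
    linarith [h1.1, h2.1, h3.2, h4.2, g1'.1, g2'.2]
  have hws : s * (a' + b') ≤ s * (D.Us + p.κ / 100) := mul_le_mul_of_nonneg_left hw' (by linarith)
  have hfin : s * (a + b) ≤ s * (D.Us + p.κ / 4) := by
    nlinarith
  exact le_of_mul_le_mul_left hfin (by linarith)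

end EscZa
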