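import Pool.Agent.EscW.QC6b
import Pool.Agent.EscW.QaC12
import Pool.Agent.EscT.C12

/-!
Module PC12: (imports EscT.C12 for its FT-free facts).
-/

noncomputable section

namespace EscZ

open MeasureTheory Set Filter Topology Esc EscF EscG EscT
open scoped ContDiff

variable {ι : Type} [Fintype ι] {d : ℕ} {E : Type*} [NormedAddCommGroup E] [InnerProductSpace ℝ E]
  [FiniteDimensional ℝ E] {D : GT ι d E} {p : GP} {m M Mf : ℝ} {L : LP} {l0 l1 ll l : E → E → ℝ → ℝ}
  {f f' : E → ℝ → ℝ}



end EscZ
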