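import Pool.Agent.EscW.QDefs
import Pool.Agent.EscT.C13
import Pool.Agent.EscT.A5a
import Pool.Agent.EscT.C1
import Pool.Agent.EscT.C2
import Pool.Agent.EscT.C4
import Pool.Agent.EscT.C5
import Pool.Agent.EscT.C6
import Pool.Agent.EscW.QaC6b
import Pool.Agent.EscW.QaC7b
import Pool.Agent.EscW.QaC8
import Pool.Agent.EscT.C11a
import Pool.Agent.EscT.C11b
import Pool.Agent.EscW.QaC12
import Pool.Agent.EscG.A1
import Pool.Agent.helper1.Esc.ModD

/-!
Project EscT (MP_6acca1_an), module C13: a slice well inside of the gate.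
-/

noncomputable section

set_option linter.unusedSectionVars false

namespace EscZa

open MeasureTheory Set Filter Topology Esc EscF EscG EscT EscZ
open scoped ContDiff

variable {ι : Type} [Fintype ι] {d : ℕ} {E : Type*} [NormedAddCommGroup E] [InnerProductSpace ℝ E]
  [FiniteDimensional ℝ E] {D : GT ι d E} {p : GP} {m M : ℝ} {L : LP} {Φ : Fx} {ll : E → E → ℝ → ℝ}

theorem C13_lv0 (b : Fin d → E) : lv b (0 : Fin d → ℤ) = 0 := by simp [lv]

theorem C13_lv_neg (b : Fin d → E) (n : Fin d → ℤ) : lv b (-n) = -lv b n := by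
  unfold lv
  rw [← Finset.sum_neg_distrib]
  refine Finset.sum_congr rfl fun i _ => ?_
  simp

theorem C13_lv_add (b : Fin d → E) (n n' : Fin d → ℤ) : lv b (n + n') = lv b n + lv b n' := by
  unfold lv
  rw [← Finset.sum_add_distrib]
  refine Finset.sum_congr rfl fun i _ => ?_
  simp [add_smul]

theorem C13_InJ_add {v v' : E} (h : D.InJ v) (h' : D.InJ v') : D.InJ (v + v') := by
  obtain ⟨n, rfl⟩ := h
  obtain ⟨n', rfl⟩ := h'
  exact ⟨n + n', (C13_lv_add _ _ _).symm⟩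

theorem C13_InJ_neg {v : E} (h : D.InJ v) : D.InJ (-v) := by
  obtain ⟨n, rfl⟩ := h
  exact ⟨-n, (C13_lv_neg _ _).symm⟩

/-- `v` in the fast lattice, `v'` not -/
theorem C13_nJ {v v' : E} (h : D.InJ v) (h' : ¬ D.InJ v') : ¬ D.InJ (v' - v) := fun h2 => h' (by
  have := C13_InJ_add h2 h
  rwa [sub_add_cancel] at this)

theorem C13_nJ' {v v' : E} (h : ¬ D.InJ v) (h' : D.InJ v') : ¬ D.InJ (v' - v) := fun h2 => h (by
  have := C13_InJ_add (C13_InJ_neg h2) h'
  rwa [neg_sub, sub_add_cancel] at this)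

theorem C13_qJ (h : D.Ok) (t : ℝ) {v : E} (hv : D.InJ v) (y : E) :
    D.j t (D.q t + v) y = D.j t (D.q t) y ∧ D.j t y (D.q t + v) = D.j t y (D.q t) := by
  obtain ⟨n, rfl⟩ := hv
  constructor
  · have := j_J h.toOk0 t (D.q t) y n 0
    rwa [C13_lv0, add_zero] at this
  · have := j_J h.toOk0 t y (D.q t) 0 n
    rwa [C13_lv0, add_zero] at this

theorem C13_rr (h : D.Ok) (t : ℝ) {v v' : E} (hv : v ∈ D.Lam) (hv' : v' ∈ D.Lam)
    (hJ : ¬ D.InJ (v' - v)) : D.Us ≤ D.j t (D.q t + v) (D.q t + v') := by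
  have h1 := Us_le h t (D.Lam.sub_mem hv' hv) hJ
  have h2 := j_Lam h.toOk0 hv t (D.q t) (D.q t + (v' - v))
  rw [add_assoc, sub_add_cancel] at h2
  rwa [← h2] at h1

theorem C13_j1 (h : D.Ok) (r : ℝ) (x x' : E) : D.j (1 + r) x x' = D.j r x x' := by
  have := j_per h.toOk0 r 1 x x'
  rwa [Int.cast_one, add_comm r] at this

theorem C13_q1 (h : D.Ok) (r : ℝ) : D.q (1 + r) = D.q r := by
  rw [add_comm]
  exact h.q_per r

theorem C13_j2 (h : D.Ok) (x x' : E) : D.j 2 x x' = D.j 0 x x' := by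
  have := C13_j1 h 1 x x'
  rw [show (1:ℝ) + 1 = 2 by norm_num] at this
  rw [this]
  have := C13_j1 h 0 x x'
  rwa [add_zero] at this

theorem C13_q2 (h : D.Ok) : D.q 2 = D.q 0 := by
  have := C13_q1 h 1
  rw [show (1:ℝ) + 1 = 2 by norm_num] at this
  rw [this]
  have := C13_q1 h 0
  rwa [add_zero] at this

/-- a piece with cost `N` above the flux -/
def C13_Pc (D : GT ι d E) (τ ε t t' : ℝ) (x x' : E) (N : ℝ) : Prop :=
  (t' - t ≤ τ ∧ D.j t x x' ≤ N + ε) ∨ ∃ v ∈ D.Lam, ∃ v' ∈ D.Lam,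
    (D.InJ (v' - v) ∨ D.j t x (D.q t + v) + D.Us + D.j t' (D.q t' + v') x' ≤ N + ε) ∧
    D.j t x (D.q t + v) + D.j t' (D.q t' + v') x' ≤ N + ε

theorem C13_Pc_nonneg (h : D.Ok) {τ ε t t' : ℝ} {x x' : E} {N : ℝ} (H : C13_Pc D τ ε t t' x x' N) :
    0 ≤ N + ε := by
  rcases H with ⟨-, H⟩ | ⟨v, -, v', -, -, H⟩
  · exact (j_nonneg h.toOk0 _ _ _).trans H
  · have h1 := j_nonneg h.toOk0 t x (D.q t + v)
    have h2 := j_nonneg h.toOk0 t' (D.q t' + v') x'
    linarith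

theorem C13_sg (h : D.Ok) (t : ℝ) (w y : E) : D.j t w (y + D.g) = D.j t (w - D.g) y := by
  have := j_Lam h.toOk0 h.g_mem t (w - D.g) y
  rwa [sub_add_cancel] at this

/-- continuity of the passing costs -/
def C13_Jc (D : GT ι d E) (τ ε ρ : ℝ) : Prop := ∀ t t', |t - t'| ≤ τ →
    (∀ x ∈ D.X ρ, ∀ x' ∈ D.X ρ, |D.j t x x' - D.j t' x x'| ≤ ε) ∧
    (∀ x ∈ D.X ρ, |D.j t (D.q t) x - D.j t' (D.q t') x| ≤ ε) ∧
    ∀ x ∈ D.X ρ, |D.j t x (D.q t) - D.j t' x (D.q t')| ≤ ε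

/-- the first leg -/
theorem C13_coreA (h : D.Ok) (hp : POk D p) {ε τ ρ CC : ℝ} (hε : 0 < ε) (hεκ : 100 * ε ≤ p.κ)
    (hjc : C13_Jc D τ ε ρ) (hρ : ∀ t w, D.j t (D.q t) w ≤ CC → w ∈ D.X ρ)
    (hCC : D.Us + 4 * p.κ ≤ CC) (hX : D.X p.ρ ⊆ D.X ρ)
    (hMd : ∀ r t w, w ∈ Md D p r → |t - r| ≤ τ → w ∈ D.Mg t (p.ηc / 2) (2 * p.κ))
    (hτ : 0 ≤ τ) {r : ℝ} {w : E} (hw : w ∈ Md D p r) (hw1 : w ∈ Md D p (1 + r)) {x : E}
    (hx : Metric.infDist x (D.Z 0) ≤ p.η1) {w' : E} {t : ℝ} (ht0 : 0 < t) (ht : t ≤ 1 + r)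
    (hw' : p.ηc / 4 ≤ Metric.infDist w' (D.Z t)) {N1 N2 : ℝ} (P1 : C13_Pc D τ ε 0 t x w' N1)
    (P2 : C13_Pc D τ ε t (1 + r) w' w N2)
    (hN : N1 + N2 ≤ D.j r (D.q r) w + D.j 0 x (D.q 0) + 3 * ε) :
    1 + r - t ≤ τ ∧ D.j t (D.q t) w' + D.j t w' (D.q t + D.g) ≤
      D.j r (D.q r) w + D.j r w (D.q r + D.g) + p.κ / 4 := by
  have hκ := hp.κ_pos
  have hom := hp.om_le
  have hκe := hp.κ_le
  have hUs := hp.e_le
  obtain ⟨ha, hb⟩ := near h.toOk0 0 hx
  set a : ℝ := D.j 0 x (D.q 0) with had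
  set b : ℝ := D.j 0 (D.q 0) x with hbd
  have ha0 : 0 ≤ a := j_nonneg h.toOk0 _ _ _
  have hb0 : 0 ≤ b := j_nonneg h.toOk0 _ _ _
  have hab : a + b ≤ p.κ / 400 := by linarith
  have hwr : w ∈ D.Mg r (p.ηc / 2) (2 * p.κ) := hMd r r w hw (by simpa using hτ)
  have hwX : w ∈ D.X ρ := hX (by simpa using hp.bnd r w (Or.inr hwr) 0 (by norm_num))
  have hwgX : w - D.g ∈ D.X ρ := hX (by
    have := hp.bnd r w (Or.inr hwr) (-1) (by norm_num)
    simpa [sub_eq_add_neg] using this)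
  have hwU : D.j r (D.q r) w + D.j r w (D.q r + D.g) ≤ D.Us + 2 * p.κ := hwr.2
  have hwg0 := j_nonneg h.toOk0 r w (D.q r + D.g)
  have hN1 := C13_Pc_nonneg h P1
  have hN2 := C13_Pc_nonneg h P2
  -- costs at the end of the first leg
  have hend : ∀ v2' ∈ D.Lam, ¬ D.InJ v2' →
      D.j r (D.q r) w + p.e / 2 - D.Us ≤ D.j (1 + r) (D.q (1 + r) + v2') w := by
    intro v hv hJ
    have := no0 h hp hwr hv hJ
    rw [C13_j1 h, C13_q1 h]
    linarith
  have hendJ : ∀ v2', D.InJ v2' → D.j (1 + r) (D.q (1 + r) + v2') w = D.j r (D.q r) w := by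
    intro v hJ
    rw [C13_j1 h, C13_q1 h]
    exact (C13_qJ h r hJ w).1
  -- the start
  have hst : ∀ v ∈ D.Lam, ¬ D.InJ v → D.Us - b ≤ D.j 0 x (D.q 0 + v) := by
    intro v hv hJ
    have h1 := Us_le h 0 hv hJ
    have h2 := j_tri h.toOk0 0 (D.q 0) x (D.q 0 + v)
    linarith
  -- step one
  have I : D.j t (D.q t) w' ≤ N1 + b + 2 * ε := by
    rcases P1 with ⟨h1, h2⟩ | ⟨v, hv, v', hv', h1, h2⟩
    · have h3 := j_tri h.toOk0 0 (D.q 0) x w'
      have h4 : D.j 0 (D.q 0) w' ≤ N1 + b + ε := by linarith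
      have h5 : w' ∈ D.X ρ := hρ 0 w' (by linarith)
      have h6 := (abs_le.1 ((hjc t 0 (by rw [sub_zero, abs_of_pos ht0]; linarith)).2.1 w' h5)).2
      linarith
    · by_cases hJ' : D.InJ v'
      · have h3 := j_nonneg h.toOk0 0 x (D.q 0 + v)
        rw [(C13_qJ h t hJ' w').1] at h2
        linarith
      · exfalso
        have h3 : D.Us - b - ε + D.j t (D.q t + v') w' ≤ N1 := by
          by_cases hJ : D.InJ v
          · rcases h1 with h1 | h1
            · exact absurd h1 (C13_nJ hJ hJ')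
            · have h4 := j_nonneg h.toOk0 0 x (D.q 0 + v)
              linarith
          · have h4 := hst v hv hJ
            linarith
        have h30 := j_nonneg h.toOk0 t (D.q t + v') w'
        rcases P2 with ⟨h4, h5⟩ | ⟨v2, hv2, v2', hv2', h4, h5⟩
        · have h6 := j_tri h.toOk0 t (D.q t + v') w' w
          have hwt : w ∈ D.Mg t (p.ηc / 2) (2 * p.κ) := hMd (1 + r) t w hw1 (by
            rw [abs_sub_comm, abs_of_nonneg (by linarith)]
            exact h4)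
          have h7 := no0 h hp hwt hv' hJ'
          have h8 := (abs_le.1 ((hjc t (1 + r) (by
            rw [abs_sub_comm, abs_of_nonneg (by linarith)]; exact h4)).2.1 w hwX)).1
          rw [C13_j1 h, C13_q1 h] at h8
          linarith
        · have h6 := j_nonneg h.toOk0 t w' (D.q t + v2)
          by_cases hJ2 : D.InJ v2'
          · rw [hendJ v2' hJ2] at h5
            linarith
          · have h7 := hend v2' hv2' hJ2
            linarith
  -- step two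
  rcases P2 with ⟨h4, h5⟩ | ⟨v2, hv2, v2', hv2', h4, h5⟩
  · refine ⟨h4, ?_⟩
    have h6 := j_tri h.toOk0 t w' w (D.q t + D.g)
    have h7 := (abs_le.1 ((hjc t (1 + r) (by
      rw [abs_sub_comm, abs_of_nonneg (by linarith)]; exact h4)).2.2 (w - D.g) hwgX)).2
    rw [C13_j1 h, C13_q1 h, ← C13_sg h, ← C13_sg h] at h7
    linarith
  · exfalso
    by_cases hJ : D.InJ v2
    · have h6 := hp.rt t w' hw'
      rw [(C13_qJ h t hJ w').2] at h4 h5
      by_cases hJ' : D.InJ v2'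
      · rw [hendJ v2' hJ'] at h5
        linarith
      · have h7 := hend v2' hv2' hJ'
        rcases h4 with h4 | h4
        · exact absurd h4 (C13_nJ hJ hJ')
        · linarith
    · have h6 := j_tri h.toOk0 t (D.q t) w' (D.q t + v2)
      have h8 := Us_le h t hv2 hJ
      by_cases hJ' : D.InJ v2'
      · rw [hendJ v2' hJ'] at h4
        rcases h4 with h4 | h4
        · exact absurd h4 (C13_nJ' hJ hJ')
        · linarith
      · have h7 := hend v2' hv2' hJ'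
        linarith

/-- the second leg -/
theorem C13_coreB (h : D.Ok) (hp : POk D p) {ε τ ρ CC J1 : ℝ} (hε : 0 < ε) (hεκ : 100 * ε ≤ p.κ)
    (hjc : C13_Jc D τ ε ρ) (hρ : ∀ t w, D.j t (D.q t) w ≤ CC → w ∈ D.X ρ)
    (hCC : D.Us + 4 * p.κ + J1 ≤ CC) (hX : D.X p.ρ ⊆ D.X ρ)
    (hMd : ∀ r t w, w ∈ Md D p r → |t - r| ≤ τ → w ∈ D.Mg t (p.ηc / 2) (2 * p.κ))
    (hτ : 0 ≤ τ) {r : ℝ} {w : E} (hw : w ∈ Md D p r) (hJ1 : D.j r (D.q r) (w - D.g) ≤ J1) {x' : E}
    (hx' : Metric.infDist x' (D.Z 0) ≤ p.η1) {z : E} {t : ℝ} (ht0 : r < t) (ht : t < 2)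
    (hz : p.ηc / 4 ≤ Metric.infDist z (D.Z t)) {N1 N2 : ℝ}
    (P1 : C13_Pc D τ ε r t (w - D.g) z N1) (P2 : C13_Pc D τ ε t 2 z x' N2)
    (hN : N1 + N2 ≤ D.j r w (D.q r + D.g) + D.j 0 (D.q 0) x' + 3 * ε) :
    t - r ≤ τ ∧ D.j t (D.q t) (z + D.g) + D.j t (z + D.g) (D.q t + D.g) ≤
      D.j r (D.q r) w + D.j r w (D.q r + D.g) + p.κ / 4 := by
  have hκ := hp.κ_pos
  have hom := hp.om_le
  have hκe := hp.κ_le
  have hUs := hp.e_le
  obtain ⟨hb, ha⟩ := near h.toOk0 0 hx'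
  set a : ℝ := D.j 0 (D.q 0) x' with had
  set b : ℝ := D.j 0 x' (D.q 0) with hbd
  have ha0 : 0 ≤ a := j_nonneg h.toOk0 _ _ _
  have hb0 : 0 ≤ b := j_nonneg h.toOk0 _ _ _
  have hab : a + b ≤ p.κ / 400 := by linarith
  have hwr : w ∈ D.Mg r (p.ηc / 2) (2 * p.κ) := hMd r r w hw (by simpa using hτ)
  have hwX : w ∈ D.X ρ := hX (by simpa using hp.bnd r w (Or.inr hwr) 0 (by norm_num))
  have hwgX : w - D.g ∈ D.X ρ := hX (by
    have := hp.bnd r w (Or.inr hwr) (-1) (by norm_num)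
    simpa [sub_eq_add_neg] using this)
  have hx'X : x' ∈ D.X ρ := hX (by
    have h1 : x' ∈ D.Rm 0 p.ηc := by
      show Metric.infDist x' (D.Z 0) ≤ p.ηc
      have h2 := hp.η1_le
      have h3 := hp.η1_pos
      linarith
    simpa using hp.bnd 0 x' (Or.inl h1) 0 (by norm_num))
  have hwU : D.j r (D.q r) w + D.j r w (D.q r + D.g) ≤ D.Us + 2 * p.κ := hwr.2
  have hwg0 := j_nonneg h.toOk0 r (D.q r) w
  have hN1 := C13_Pc_nonneg h P1
  have hN2 := C13_Pc_nonneg h P2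
  -- costs at the start of the second leg
  have hst : ∀ v ∈ D.Lam, ¬ D.InJ v →
      D.j r w (D.q r + D.g) + p.e / 2 - D.Us ≤ D.j r (w - D.g) (D.q r + v) := by
    intro v hv hJ
    have := no1 h hp hwr hv hJ
    rw [C13_sg h r w (D.q r + v)] at this
    linarith
  have hstJ : ∀ v, D.InJ v → D.j r (w - D.g) (D.q r + v) = D.j r w (D.q r + D.g) := by
    intro v hJ
    rw [(C13_qJ h r hJ _).2, ← C13_sg h]
  -- the end
  have hend : ∀ v ∈ D.Lam, ¬ D.InJ v → D.Us - b ≤ D.j 2 (D.q 2 + v) x' := by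
    intro v hv hJ
    rw [C13_j2 h, C13_q2 h]
    have h1 := C13_rr h 0 hv (D.Lam.zero_mem) (v' := 0) (by
      rw [zero_sub]
      exact fun h2 => hJ (by simpa using C13_InJ_neg h2))
    rw [add_zero] at h1
    have h2 := j_tri h.toOk0 0 (D.q 0 + v) x' (D.q 0)
    linarith
  -- step one
  have I : D.j t z (D.q t) ≤ N2 + b + 2 * ε := by
    rcases P2 with ⟨h1, h2⟩ | ⟨v, hv, v', hv', h1, h2⟩
    · have h3 := j_tri h.toOk0 t z x' (D.q t)
      have h6 := (abs_le.1 ((hjc t 2 (by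
        rw [abs_sub_comm, abs_of_pos (by linarith)]; linarith)).2.2 x' hx'X)).2
      rw [C13_j2 h, C13_q2 h] at h6
      linarith
    · by_cases hJ : D.InJ v
      · have h3 := j_nonneg h.toOk0 2 (D.q 2 + v') x'
        rw [(C13_qJ h t hJ z).2] at h2
        linarith
      · exfalso
        have h3 : D.Us - b - ε + D.j t z (D.q t + v) ≤ N2 := by
          by_cases hJ' : D.InJ v'
          · rcases h1 with h1 | h1
            · exact absurd h1 (C13_nJ' hJ hJ')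
            · have h4 := j_nonneg h.toOk0 2 (D.q 2 + v') x'
              linarith
          · have h4 := hend v' hv' hJ'
            linarith
        have h30 := j_nonneg h.toOk0 t z (D.q t + v)
        rcases P1 with ⟨h4, h5⟩ | ⟨v1, hv1, v1', hv1', h4, h5⟩
        · have hzX : z ∈ D.X ρ := hρ r z (by
            have := j_tri h.toOk0 r (D.q r) (w - D.g) z
            linarith)
          have hwt : w ∈ D.Mg t (p.ηc / 2) (2 * p.κ) := hMd r t w hw (by
            rw [abs_of_pos (by linarith)]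
            exact h4)
          have habs : |t - r| ≤ τ := by
            rw [abs_of_pos (by linarith)]
            exact h4
          have h6 := (abs_le.1 ((hjc t r habs).1 (w - D.g) hwgX z hzX)).2
          have h7 := no1 h hp hwt hv hJ
          rw [C13_sg h t w (D.q t + v)] at h7
          have h8 := j_tri h.toOk0 t (w - D.g) z (D.q t + v)
          have h9 := (abs_le.1 ((hjc t r habs).2.2 (w - D.g) hwgX)).1
          rw [← C13_sg h, ← C13_sg h] at h9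
          linarith
        · have h6 := j_nonneg h.toOk0 t (D.q t + v1') z
          by_cases hJ2 : D.InJ v1
          · rw [hstJ v1 hJ2] at h5
            linarith
          · have h7 := hst v1 hv1 hJ2
            linarith
  -- step two
  rcases P1 with ⟨h4, h5⟩ | ⟨v1, hv1, v1', hv1', h4, h5⟩
  · refine ⟨h4, ?_⟩
    have habs : |t - r| ≤ τ := by
      rw [abs_of_pos (by linarith)]
      exact h4
    have hzX : z ∈ D.X ρ := hρ r z (by
      have := j_tri h.toOk0 r (D.q r) (w - D.g) z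
      linarith)
    have h6 := j_tri h.toOk0 t (D.q t) w (z + D.g)
    have h7 := (abs_le.1 ((hjc t r habs).1 (w - D.g) hwgX z hzX)).2
    rw [← C13_sg h t w z] at h7
    have h8 := (abs_le.1 ((hjc t r habs).2.1 w hwX)).2
    have h9 : D.j t (z + D.g) (D.q t + D.g) = D.j t z (D.q t) := j_Lam h.toOk0 h.g_mem t z (D.q t)
    rw [h9]
    linarith
  · exfalso
    by_cases hJ' : D.InJ v1'
    · have h6 := hp.rt t z hz
      rw [(C13_qJ h t hJ' z).1] at h4 h5
      by_cases hJ : D.InJ v1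
      · rw [hstJ v1 hJ] at h5
        linarith
      · have h7 := hst v1 hv1 hJ
        rcases h4 with h4 | h4
        · exact absurd h4 (C13_nJ' hJ hJ')
        · linarith
    · have h6 := j_tri h.toOk0 t (D.q t + v1') z (D.q t)
      have h8 := C13_rr h t hv1' (D.Lam.zero_mem) (v' := 0) (by
        rw [zero_sub]
        exact fun h2 => hJ' (by simpa using C13_InJ_neg h2))
      rw [add_zero] at h8
      by_cases hJ : D.InJ v1
      · rw [hstJ v1 hJ] at h4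
        rcases h4 with h4 | h4
        · exact absurd h4 (C13_nJ hJ hJ')
        · linarith
      · have h7 := hst v1 hv1 hJ
        linarith

/-- position at time one, first leg -/
theorem C13_midA (h : D.Ok) (hp : POk D p) {ε τ : ℝ} (hε : 0 < ε) (hεκ : 100 * ε ≤ p.κ)
    {r : ℝ} {w : E} (hwr : w ∈ D.Mg r (p.ηc / 2) (2 * p.κ)) {x y : E}
    (hx : Metric.infDist x (D.Z 0) ≤ p.η1) (hτ1 : τ < 1) (hτr : τ < r) {N1 N2 : ℝ}
    (P1 : C13_Pc D τ ε 0 1 x y N1) (P2 : C13_Pc D τ ε 1 (1 + r) y w N2)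
    (hN : N1 + N2 ≤ D.j r (D.q r) w + D.j 0 x (D.q 0) + 3 * ε) :
    D.j 0 (D.q 0) y + D.j 0 y (D.q 0) ≤ 5 * ε := by
  have hκ := hp.κ_pos
  have hom := hp.om_le
  have hκe := hp.κ_le
  have hUs := hp.e_le
  obtain ⟨ha, hb⟩ := near h.toOk0 0 hx
  set a : ℝ := D.j 0 x (D.q 0) with had
  set b : ℝ := D.j 0 (D.q 0) x with hbd
  have ha0 : 0 ≤ a := j_nonneg h.toOk0 _ _ _
  have hb0 : 0 ≤ b := j_nonneg h.toOk0 _ _ _
  have hab : a + b ≤ p.κ / 400 := by linarith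
  have hj1 : ∀ z z', D.j 1 z z' = D.j 0 z z' := fun z z' => by
    have := C13_j1 h 0 z z'
    rwa [add_zero] at this
  have hq1 : D.q 1 = D.q 0 := by
    have := C13_q1 h 0
    rwa [add_zero] at this
  have A1 : a + D.j 0 (D.q 0) y ≤ N1 + ε ∨ D.Us - b ≤ N1 + ε := by
    rcases P1 with ⟨h1, -⟩ | ⟨v, hv, v', hv', h1, h2⟩
    · exfalso
      linarith
    · rw [hj1, hq1] at h1 h2
      have h3 := j_nonneg h.toOk0 0 (D.q 0 + v') y
      by_cases hJ : D.InJ v
      · rw [(C13_qJ h 0 hJ x).2, ← had] at h1 h2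
        by_cases hJ' : D.InJ v'
        · left
          rw [(C13_qJ h 0 hJ' y).1] at h2
          exact h2
        · right
          rcases h1 with h1 | h1
          · exact absurd h1 (C13_nJ hJ hJ')
          · linarith
      · right
        have h4 := Us_le h 0 hv hJ
        have h5 := j_tri h.toOk0 0 (D.q 0) x (D.q 0 + v)
        linarith
  have A2 : D.j 0 y (D.q 0) + D.j r (D.q r) w ≤ N2 + ε ∨ D.j r (D.q r) w + p.e / 2 ≤ N2 + ε ∨
      ∃ v ∈ D.Lam, ¬ D.InJ v ∧ D.j 0 y (D.q 0 + v) + D.j r (D.q r) w + p.e / 2 - D.Us ≤ N2 + ε := by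
    rcases P2 with ⟨h1, -⟩ | ⟨v, hv, v', hv', h1, h2⟩
    · exfalso
      linarith
    · rw [hj1, hq1, C13_j1 h, C13_q1 h] at h1 h2
      have h3 := j_nonneg h.toOk0 0 y (D.q 0 + v)
      by_cases hJ' : D.InJ v'
      · rw [(C13_qJ h r hJ' w).1] at h1 h2
        by_cases hJ : D.InJ v
        · left
          rw [(C13_qJ h 0 hJ y).2] at h2
          exact h2
        · right; right
          refine ⟨v, hv, hJ, ?_⟩
          rcases h1 with h1 | h1
          · exact absurd h1 (C13_nJ' hJ hJ')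
          · linarith
      · have h4 := no0 h hp hwr hv' hJ'
        by_cases hJ : D.InJ v
        · right; left
          rcases h1 with h1 | h1
          · exact absurd h1 (C13_nJ hJ hJ')
          · linarith
        · right; right
          exact ⟨v, hv, hJ, by linarith⟩
  rcases A1 with A1 | A1
  · rcases A2 with A2 | A2 | ⟨v, hv, hJ, A2⟩
    · linarith
    · exfalso
      have h3 := j_nonneg h.toOk0 0 (D.q 0) y
      linarith
    · exfalso
      have h4 := Us_le h 0 hv hJ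
      have h5 := j_tri h.toOk0 0 (D.q 0) y (D.q 0 + v)
      linarith
  · exfalso
    rcases A2 with A2 | A2 | ⟨v, hv, hJ, A2⟩
    · have h3 := j_nonneg h.toOk0 0 y (D.q 0)
      linarith
    · linarith
    · have h3 := j_nonneg h.toOk0 0 y (D.q 0 + v)
      linarith

/-- position at time one, second leg -/
theorem C13_midB (h : D.Ok) (hp : POk D p) {ε τ : ℝ} (hε : 0 < ε) (hεκ : 100 * ε ≤ p.κ)
    {r : ℝ} {w : E} (hwr : w ∈ D.Mg r (p.ηc / 2) (2 * p.κ)) {x' y : E}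
    (hx' : Metric.infDist x' (D.Z 0) ≤ p.η1) (hτ1 : τ < 1) (hτr : τ < 1 - r) {N1 N2 : ℝ}
    (P1 : C13_Pc D τ ε r 1 (w - D.g) y N1) (P2 : C13_Pc D τ ε 1 2 y x' N2)
    (hN : N1 + N2 ≤ D.j r w (D.q r + D.g) + D.j 0 (D.q 0) x' + 3 * ε) :
    D.j 0 (D.q 0) y + D.j 0 y (D.q 0) ≤ 5 * ε := by
  have hκ := hp.κ_pos
  have hom := hp.om_le
  have hκe := hp.κ_le
  have hUs := hp.e_le
  obtain ⟨hb, ha⟩ := near h.toOk0 0 hx'
  set a : ℝ := D.j 0 (D.q 0) x' with had
  set b : ℝ := D.j 0 x' (D.q 0) with hbd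
  have ha0 : 0 ≤ a := j_nonneg h.toOk0 _ _ _
  have hb0 : 0 ≤ b := j_nonneg h.toOk0 _ _ _
  have hab : a + b ≤ p.κ / 400 := by linarith
  have hj1 : ∀ z z', D.j 1 z z' = D.j 0 z z' := fun z z' => by
    have := C13_j1 h 0 z z'
    rwa [add_zero] at this
  have hq1 : D.q 1 = D.q 0 := by
    have := C13_q1 h 0
    rwa [add_zero] at this
  have A2 : D.j 0 y (D.q 0) + a ≤ N2 + ε ∨ D.Us - b ≤ N2 + ε := by
    rcases P2 with ⟨h1, -⟩ | ⟨v, hv, v', hv', h1, h2⟩
    · exfalso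
      linarith
    · rw [hj1, hq1, C13_j2 h, C13_q2 h] at h1 h2
      have h3 := j_nonneg h.toOk0 0 y (D.q 0 + v)
      by_cases hJ' : D.InJ v'
      · rw [(C13_qJ h 0 hJ' x').1, ← had] at h1 h2
        by_cases hJ : D.InJ v
        · left
          rw [(C13_qJ h 0 hJ y).2] at h2
          exact h2
        · right
          rcases h1 with h1 | h1
          · exact absurd h1 (C13_nJ' hJ hJ')
          · linarith
      · right
        have h4 := C13_rr h 0 hv' (D.Lam.zero_mem) (v' := 0) (by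
          rw [zero_sub]
          exact fun h2 => hJ' (by simpa using C13_InJ_neg h2))
        rw [add_zero] at h4
        have h5 := j_tri h.toOk0 0 (D.q 0 + v') x' (D.q 0)
        linarith
  have A1 : D.j 0 (D.q 0) y + D.j r w (D.q r + D.g) ≤ N1 + ε ∨
      D.j r w (D.q r + D.g) + p.e / 2 ≤ N1 + ε ∨
      ∃ v ∈ D.Lam, ¬ D.InJ v ∧
        D.j 0 (D.q 0 + v) y + D.j r w (D.q r + D.g) + p.e / 2 - D.Us ≤ N1 + ε := by
    rcases P1 with ⟨h1, -⟩ | ⟨v, hv, v', hv', h1, h2⟩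
    · exfalso
      linarith
    · rw [hj1, hq1] at h1 h2
      have h3 := j_nonneg h.toOk0 0 (D.q 0 + v') y
      by_cases hJ : D.InJ v
      · rw [(C13_qJ h r hJ _).2, ← C13_sg h] at h1 h2
        by_cases hJ' : D.InJ v'
        · left
          rw [(C13_qJ h 0 hJ' y).1] at h2
          linarith
        · right; right
          refine ⟨v', hv', hJ', ?_⟩
          rcases h1 with h1 | h1
          · exact absurd h1 (C13_nJ hJ hJ')
          · linarith
      · have h4 := no1 h hp hwr hv hJ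
        rw [C13_sg h r w (D.q r + v)] at h4
        by_cases hJ' : D.InJ v'
        · right; left
          rcases h1 with h1 | h1
          · exact absurd h1 (C13_nJ' hJ hJ')
          · linarith
        · right; right
          exact ⟨v', hv', hJ', by linarith⟩
  rcases A2 with A2 | A2
  · rcases A1 with A1 | A1 | ⟨v, hv, hJ, A1⟩
    · linarith
    · exfalso
      have h3 := j_nonneg h.toOk0 0 y (D.q 0)
      linarith
    · exfalso
      have h4 := C13_rr h 0 hv (D.Lam.zero_mem) (v' := 0) (by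
        rw [zero_sub]
        exact fun h2 => hJ (by simpa using C13_InJ_neg h2))
      rw [add_zero] at h4
      have h5 := j_tri h.toOk0 0 (D.q 0 + v) y (D.q 0)
      linarith
  · exfalso
    rcases A1 with A1 | A1 | ⟨v, hv, hJ, A1⟩
    · have h3 := j_nonneg h.toOk0 0 (D.q 0) y
      linarith
    · linarith
    · have h3 := j_nonneg h.toOk0 0 (D.q 0 + v) y
      linarith

theorem C13_lf (ll : E → E → ℝ → ℝ) : lf ll (fun _ _ => 0) = ll := by
  funext x u t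
  simp [lf]

theorem C13_pt (β : Module.Basis ι ℝ E) : Pt β (fun (_ : E) (_ : ℝ) => (0:ℝ)) :=
  ⟨contDiff_const, by simp, by simp⟩

omit [FiniteDimensional ℝ E] in
theorem C13_good : Good 0 (fun (_ : E) (_ : ℝ) => (0:ℝ)) :=
  ⟨le_rfl, continuous_const, by simp, by simp, by simp⟩

omit [InnerProductSpace ℝ E] [FiniteDimensional ℝ E] in
theorem C13_cont {f : ℝ → E} {C t t' : ℝ}
    (h : ∀ s ∈ Icc t t', ∀ r ∈ Icc t t', ‖f r - f s‖ ≤ C * |r - s|) : ContinuousOn f (Icc t t') := by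
  have : LipschitzOnWith (Real.toNNReal C) f (Icc t t') := by
    refine LipschitzOnWith.of_dist_le_mul fun x hx y hy => ?_
    rw [dist_eq_norm, Real.dist_eq, Real.coe_toNNReal']
    exact (h y hy x hx).trans (mul_le_mul_of_nonneg_right (le_max_left _ _) (abs_nonneg _))
  exact this.continuousOn

theorem C13_geo (h : D.Ok) (hl : TG D.β m M ll) {ρ s t t' : ℝ} (hs : 0 ≤ s)
    (h1 : 1 / 4 ≤ t' - t) (h2 : t' - t ≤ 4) {z z' : E} (hz : z ∈ D.X ρ) (hz' : z' ∈ D.X ρ) :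
    ∃ (n : Fin d → ℤ) (Z : ℝ → E), Z t = z ∧ Z t' = z' + lv D.b n ∧ ContinuousOn Z (Icc t t') ∧
      ∀ a b c, t ≤ a → a < b → b < c → c ≤ t' →
        (D0 D).kk ll s a b (Z a) (Z b) + (D0 D).kk ll s b c (Z b) (Z c) =
          (D0 D).kk ll s a c (Z a) (Z c) := by
  obtain ⟨V, hV, H⟩ := kk_geo h hl le_rfl s ρ
  obtain ⟨n, Z, v, hZt, hZt', hG, hc⟩ := H (fun _ _ => 0) (C13_pt _) C13_good s hs le_rfl t t' h1 h2
    z hz z' hz'
  rw [C13_lf] at hG hc
  have hvc : ContinuousOn v (Icc t t') := by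
    obtain ⟨C, hC⟩ := hG.lip
    exact C13_cont hC
  have hZc : ContinuousOn Z (Icc t t') := by
    refine C13_cont (C := V) fun a ha b hb => ?_
    rw [hG.pos a ha b hb]
    refine intervalIntegral.norm_integral_le_of_norm_le_const fun r hr => hG.bd r ?_
    have h3 := uIoc_subset_uIcc hr
    exact uIcc_subset_Icc ha hb h3
  refine ⟨n, Z, hZt, hZt', hZc, fun a b c ha hab hbc hc' => ?_⟩
  rw [hc a b ha hab (by linarith), hc b c (by linarith) hbc hc', hc a c ha (by linarith) hc']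
  unfold GD.cv
  have hint : ∀ p q, t ≤ p → p ≤ q → q ≤ t' →
      IntervalIntegrable (fun r => ll (Z r) (v r) r) volume p q := by
    intro p q hp hpq hq
    refine ContinuousOn.intervalIntegrable_of_Icc hpq ?_
    refine hl.smooth.continuous.comp_continuousOn (s := Icc p q) (f := fun r => (Z r, v r, r)) ?_
    exact (hZc.mono (Icc_subset_Icc hp hq)).prodMk ((hvc.mono (Icc_subset_Icc hp hq)).prodMk
      continuousOn_id)
  rw [← intervalIntegral.integral_add_adjacent_intervals (hint a b ha hab.le (by linarith))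
    (hint b c (by linarith) hbc.le hc')]
  ring

theorem C13_kd (h : D.Ok) (hp : POk D p) (hl : TG D.β m M ll) {s : ℝ} (hs : 0 ≤ s) :
    ∃ C, KD ((D0 D).k1 ll s) ((D0 D).C p) ((D0 D).R p) C C := by
  obtain ⟨C, -, H⟩ := kd h hp hl le_rfl s
  have := H (fun _ _ => 0) (C13_pt _) C13_good s hs le_rfl
  rw [C13_lf] at this
  exact ⟨C, this⟩

theorem C13_gC0 (hm : 0 < m) (hM : 0 ≤ M) : 0 ≤ gC m M := by
  unfold gC
  positivity

theorem C13_gL {MF s : ℝ} (hm : 0 < m) (hM : 0 ≤ M) (hs : 1 ≤ s) :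
    0 ≤ gL m M MF 1 ∧ gL m M MF s ≤ gL m M MF 1 * s ^ 2 := by
  have h0 := C13_gC0 hm hM
  have h1 : 1 ≤ s ^ 2 := by nlinarith
  constructor
  · unfold gL
    positivity
  · unfold gL
    have h2 : gC m M ≤ gC m M * s ^ 2 := by nlinarith
    calc gC m M + 2 * MF ^ 2 * s ^ 2 / m ≤ gC m M * s ^ 2 + 2 * MF ^ 2 * s ^ 2 / m := by linarith
      _ = _ := by ring

/-- change of class -/
theorem C13_class (h : D.Ok) (hm : 0 < m) (hM : 0 ≤ M) {C0 : ℝ} (hC0 : 0 ≤ C0) : ∃ CI : ℝ, 0 ≤ CI ∧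
    ∀ s s', 1 ≤ s → 0 ≤ s' → |s' - s| ≤ 1 → ∀ ll, TG D.β m M ll → ∀ t t', t < t' →
      t' - t ≤ 4 → ∀ z z', (D0 D).kk ll s t t' z z' ≤ C0 * s ^ 2 →
      (D0 D).kk ll s' t t' z z' ≤ (D0 D).kk ll s t t' z z' + CI * s * |s' - s| := by
  have hmF := (h.fr0 0).fins.mF_pos
  have hMF : 0 < D.MF := hmF.trans_le (h.fr0 0).fins.mF_le
  set K1 : ℝ := gL m M D.MF 1 with hK1
  have hK10 : 0 ≤ K1 := (C13_gL hm hM le_rfl).1
  set A : ℝ := D.MF * Real.sqrt (32 / m * (C0 + 4 * K1)) with hA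
  have hA0 : 0 ≤ A := by positivity
  refine ⟨A + 6, by linarith, fun s s' hs hs' hss ll hl t t' htt ht4 z z' hk => ?_⟩
  have hs0 : 0 ≤ s := by linarith
  have hT : 0 < t' - t := by linarith
  have hB := QB0 h.toOk0 0
  obtain ⟨n, hn⟩ := K_attained (h.fr0 0).li hl hB hs0 htt z z'
  have hn' : (D0 D).kk ll s t t' z z' = kerl ll t t' z (z' + lv D.b n) -
      s * (D.B (z' + lv D.b n) 0 - D.B z 0) + s ^ 2 / 2 * (t' - t) := hn
  have h1 := K_le hl hB hs' htt z z' n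
  have h1' : (D0 D).kk ll s' t t' z z' ≤ kerl ll t t' z (z' + lv D.b n) -
      s' * (D.B (z' + lv D.b n) 0 - D.B z 0) + s' ^ 2 / 2 * (t' - t) := h1
  have h2 := disp_le hl hB hs0 htt z (z' + lv D.b n) (hn'.symm.le.trans hk)
  have h3 : ‖z' + lv D.b n - z‖ ≤ Real.sqrt (32 / m * (C0 + 4 * K1)) * s := by
    have h4 : C0 * s ^ 2 + gL m M D.MF s * (t' - t) ≤ (C0 + 4 * K1) * s ^ 2 := by
      have e2 : gL m M D.MF s * (t' - t) ≤ K1 * s ^ 2 * (t' - t) :=
        mul_le_mul_of_nonneg_right (C13_gL hm hM hs).2 hT.le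
      have e3 : K1 * s ^ 2 * (t' - t) ≤ K1 * s ^ 2 * 4 := mul_le_mul_of_nonneg_left ht4 (by positivity)
      linarith
    have h6 : 8 / m * (C0 * s ^ 2 + gL m M D.MF s * (t' - t)) * (t' - t) ≤
        32 / m * (C0 + 4 * K1) * s ^ 2 := by
      calc 8 / m * (C0 * s ^ 2 + gL m M D.MF s * (t' - t)) * (t' - t) ≤
            8 / m * ((C0 + 4 * K1) * s ^ 2) * 4 := by gcongr
        _ = 32 / m * (C0 + 4 * K1) * s ^ 2 := by ring
    have h7 : ‖z' + lv D.b n - z‖ ^ 2 ≤ 32 / m * (C0 + 4 * K1) * s ^ 2 := h2.trans h6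
    have h8 := Real.abs_le_sqrt h7
    rw [abs_of_nonneg (norm_nonneg _), Real.sqrt_mul (by positivity), Real.sqrt_sq hs0] at h8
    exact h8
  have h5 : |D.B (z' + lv D.b n) 0 - D.B z 0| ≤ A * s := by
    refine (hB.lip _ _).trans ?_
    rw [hA, mul_assoc]
    exact mul_le_mul_of_nonneg_left h3 hMF.le
  have h6 : (D0 D).kk ll s' t t' z z' ≤ (D0 D).kk ll s t t' z z' -
      (s' - s) * (D.B (z' + lv D.b n) 0 - D.B z 0) +
      (s' - s) * ((s' + s) / 2 * (t' - t)) := by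
    rw [hn']
    refine h1'.trans (le_of_eq ?_)
    ring
  have h7 : -((s' - s) * (D.B (z' + lv D.b n) 0 - D.B z 0)) ≤ |s' - s| * (A * s) := by
    refine (neg_le_abs _).trans ?_
    rw [abs_mul]
    exact mul_le_mul_of_nonneg_left h5 (abs_nonneg _)
  have h8 : (s' - s) * ((s' + s) / 2 * (t' - t)) ≤ |s' - s| * (6 * s) := by
    have h9 : (s' + s) / 2 * (t' - t) ≤ 6 * s := by
      have h10 : (s' + s) / 2 ≤ 3 / 2 * s := by
        have := (abs_le.1 hss).2
        linarith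
      calc (s' + s) / 2 * (t' - t) ≤ 3 / 2 * s * 4 := by gcongr
        _ = 6 * s := by ring
    have h11 : 0 ≤ (s' + s) / 2 * (t' - t) := by positivity
    calc (s' - s) * ((s' + s) / 2 * (t' - t)) ≤ |s' - s| * ((s' + s) / 2 * (t' - t)) :=
          mul_le_mul_of_nonneg_right (le_abs_self _) h11
      _ ≤ _ := mul_le_mul_of_nonneg_left h9 (abs_nonneg _)
  calc (D0 D).kk ll s' t t' z z' ≤
      (D0 D).kk ll s t t' z z' + |s' - s| * (A * s) + |s' - s| * (6 * s) := by linarith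
    _ = _ := by ring

theorem C13_RX (hp : POk D p) (_h : D.Ok) {x : E} (hx : x ∈ (D0 D).R p) : x ∈ D.X p.ρ := by
  have h1 : x ∈ D.Rm 0 p.ηc := by
    have h2 : Metric.infDist x (D.Z 0) ≤ p.η1 := hx
    have h3 := hp.η1_le
    have h4 := hp.η1_pos
    show Metric.infDist x (D.Z 0) ≤ p.ηc
    linarith
  have := hp.bnd 0 x (Or.inl h1) 0 (by norm_num)
  simpa using this

/-- change of the critical value -/
theorem C13_al (h : D.Ok) (hp : POk D p) (hm : 0 < m) (hM : 0 ≤ L.M) (hA : 0 ≤ L.A) :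
    ∃ CA s0 : ℝ, 0 ≤ CA ∧ 1 ≤ s0 ∧
    ∀ s s', s0 ≤ s → s0 ≤ s' → |s' - s| ≤ 1 → ∀ Φ ll, FTa D m L Φ s ll → FTa D m L Φ s' ll →
      |(D0 D).al p ll s' - (D0 D).al p ll s| ≤ CA * s * |s' - s| := by
  obtain ⟨C0, s0, hC0, hs0, H0⟩ := kk_lin h m L p.ρ
  obtain ⟨CI, hCI, H1⟩ := C13_class (m := m) (M := L.M) h hm hM (C0 := C0 + L.A) (by positivity)
  refine ⟨2 * CI, s0, by positivity, hs0, fun s s' hs hs' hss Φ ll hl hl' => ?_⟩
  obtain ⟨C, hK⟩ := C13_kd h hp hl.toTG (s := s) (by linarith)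
  obtain ⟨C', hK'⟩ := C13_kd h hp hl.toTG (s := s') (by linarith)
  have hb : ∀ σ, s0 ≤ σ → FTa D m L Φ σ ll → ∀ z ∈ (D0 D).R p, ∀ z' ∈ (D0 D).R p,
      (D0 D).kk ll σ 0 1 z z' ≤ (C0 + L.A) * σ ^ 2 := by
    intro σ hσ hl z hz z' hz'
    have e1 := (le_abs_self _).trans (H0 σ hσ Φ ll hl 0 1 (by norm_num) (by norm_num) z (C13_RX hp h hz)
      z' (C13_RX hp h hz'))
    have e2 := (le_abs_self _).trans (fl_bd hl.a_bd (s := σ) (by linarith) 0 1)
    rw [sub_zero, abs_one, mul_one] at e2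
    have e3 : σ ≤ σ ^ 2 := by nlinarith
    have e4 : C0 * σ ≤ C0 * σ ^ 2 := mul_le_mul_of_nonneg_left e3 hC0
    linarith
  refine al_sub_le hK' hK fun z hz z' hz' => ?_
  have h1 := H1 s s' (by linarith) (by linarith) hss ll hl.toTG 0 1 one_pos (by norm_num) z z'
    (hb s hs hl z hz z' hz')
  have h2 := H1 s' s (by linarith) (by linarith) (by rwa [abs_sub_comm]) ll hl.toTG 0 1 one_pos
    (by norm_num) z z' (hb s' hs' hl' z hz z' hz')
  rw [abs_sub_comm s s'] at h2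
  have h3 : s' ≤ 2 * s := by
    have := (abs_le.1 hss).2
    linarith
  have h4 : CI * s' * |s' - s| ≤ 2 * CI * s * |s' - s| := by
    refine mul_le_mul_of_nonneg_right ?_ (abs_nonneg _)
    nlinarith
  have h5 : CI * s * |s' - s| ≤ 2 * CI * s * |s' - s| := by
    refine mul_le_mul_of_nonneg_right ?_ (abs_nonneg _)
    nlinarith
  unfold GD.k1
  rw [abs_le]
  constructor <;> linarith

/-! ### geometry -/

theorem C13_ne (h : D.Ok) (t : ℝ) : (D.Z t).Nonempty := ⟨D.q t, (h.fr0 t).q0_mem⟩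

theorem C13_inf_le (h : D.Ok) (t : ℝ) (n : Fin d → ℤ) (x : E) :
    Metric.infDist (x + lv D.b n) (D.Z t) ≤ Metric.infDist x (D.Z t) := by
  rw [Metric.le_infDist (C13_ne h t)]
  intro z hz
  refine (Metric.infDist_le_dist_of_mem ((h.fr0 t).Z_J n z hz)).trans (le_of_eq ?_)
  show dist (x + lv D.b n) (z + lv D.b n) = dist x z
  rw [dist_add_right]

theorem C13_inf (h : D.Ok) (t : ℝ) (n : Fin d → ℤ) (x : E) :
    Metric.infDist (x + lv D.b n) (D.Z t) = Metric.infDist x (D.Z t) := by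
  refine le_antisymm (C13_inf_le h t n x) ?_
  have := C13_inf_le h t (-n) (x + lv D.b n)
  rwa [C13_lv_neg, add_neg_cancel_right] at this

theorem C13_Zl (h : D.Ok) (t t' : ℝ) (x : E) :
    Metric.infDist x (D.Z t') ≤ Metric.infDist x (D.Z t) + D.A * |t - t'| := by
  have h1 : Metric.infDist x (D.Z t') - D.A * |t - t'| ≤ Metric.infDist x (D.Z t) := by
    rw [Metric.le_infDist (C13_ne h t)]
    intro z hz
    have h2 := Metric.infDist_le_infDist_add_dist (s := D.Z t') (x := x) (y := z)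
    have h3 := h.Z_lip t t' z hz
    linarith
  linarith

theorem C13_Zc (h : D.Ok) : Continuous (fun q : ℝ × E => Metric.infDist q.2 (D.Z q.1)) := by
  have hA := h.A_pos
  have : LipschitzWith (Real.toNNReal (D.A + 1)) (fun q : ℝ × E => Metric.infDist q.2 (D.Z q.1)) := by
    refine LipschitzWith.of_dist_le_mul fun q q' => ?_
    rw [Real.coe_toNNReal _ (by linarith)]
    have e1 : dist q.1 q'.1 ≤ dist q q' := le_max_left _ _
    have e2 : dist q.2 q'.2 ≤ dist q q' := le_max_right _ _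
    rw [Real.dist_eq] at e1
    have e3 := C13_Zl h q'.1 q.1 q.2
    have e4 := C13_Zl h q.1 q'.1 q.2
    rw [abs_sub_comm] at e3
    have e5 := Metric.infDist_le_infDist_add_dist (s := D.Z q'.1) (x := q.2) (y := q'.2)
    have e6 := Metric.infDist_le_infDist_add_dist (s := D.Z q'.1) (x := q'.2) (y := q.2)
    rw [dist_comm] at e6
    have e7 : D.A * |q.1 - q'.1| ≤ D.A * dist q q' := mul_le_mul_of_nonneg_left e1 hA.le
    rw [Real.dist_eq, abs_le]
    constructor <;> linarith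
  exact this.continuous

theorem C13_far (h : D.Ok) (hp : POk D p) (t : ℝ) {x v : E} (hv : v ∈ D.Lam) (hvJ : ¬ D.InJ v) {a : ℝ}
    (ha : Metric.infDist x (D.Z t) < a) : 8 * p.ηc - a ≤ Metric.infDist (x + v) (D.Z t) := by
  obtain ⟨z, hz, hxz⟩ := (Metric.infDist_lt_iff (C13_ne h t)).1 ha
  have h1 := hp.sep t v hv hvJ z hz
  have h2 := Metric.infDist_le_infDist_add_dist (s := D.Z t) (x := z + v) (y := x + v)
  rw [dist_add_right, dist_comm] at h2
  linarith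

theorem C13_out (h : D.Ok) (hp : POk D p) (t : ℝ) {w : E} (h1 : 2 * p.ηc ≤ Metric.infDist w (D.Z t))
    (h2 : Metric.infDist w (D.Z t) ≤ 4 * p.ηc) : w ∈ D.Out t (2 * p.ηc) := by
  intro v hv
  have hc := hp.ηc_pos
  by_cases hJ : D.InJ v
  · obtain ⟨n, rfl⟩ := hJ
    rwa [C13_inf h]
  · have := C13_far h hp t hv hJ (a := 5 * p.ηc) (by linarith)
    linarith

theorem C13_end (h : D.Ok) (hp : POk D p) (t : ℝ) {x : E} (hx : Metric.infDist x (D.Z t) ≤ p.η1) :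
    4 * p.ηc < Metric.infDist (x + D.g) (D.Z t) := by
  have hc := hp.ηc_pos
  have h2 := hp.η1_le
  have h3 := hp.η1_pos
  have := C13_far h hp t h.g_mem h.g_not (x := x) (a := p.ηc) (by linarith)
  linarith

/-- crossing of a shell -/
theorem C13_cross {φ : ℝ → ℝ} {a b u v : ℝ} (hab : a ≤ b) (huv : u < v)
    (hφ : ContinuousOn φ (Icc a b)) (ha : φ a < u) (hb : v < φ b) :
    ∃ t2 t4, a < t2 ∧ t2 < t4 ∧ t4 < b ∧ φ t2 = u ∧ φ t4 = v ∧ ∀ t ∈ Icc t2 t4, u ≤ φ t ∧ φ t ≤ v := by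
  -- first time above
  have hc4 : IsCompact (Icc a b ∩ φ ⁻¹' Ici v) :=
    isCompact_Icc.of_isClosed_subset (hφ.preimage_isClosed_of_isClosed isClosed_Icc isClosed_Ici)
      inter_subset_left
  obtain ⟨t4, ht4, hl4⟩ := hc4.exists_isLeast ⟨b, right_mem_Icc.2 hab, hb.le⟩
  have ht4' : v ≤ φ t4 := ht4.2
  have h4 : φ t4 = v := by
    have h1 : v ∈ φ '' Icc a t4 := intermediate_value_Icc ht4.1.1
      (hφ.mono (Icc_subset_Icc_right ht4.1.2)) ⟨by linarith, ht4'⟩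
    obtain ⟨c, hc, hcv⟩ := h1
    have h2 : t4 ≤ c := hl4 ⟨⟨hc.1, hc.2.trans ht4.1.2⟩, hcv.ge⟩
    rw [← hcv, le_antisymm h2 hc.2]
  have hc2 : IsCompact (Icc a t4 ∩ φ ⁻¹' Iic u) :=
    isCompact_Icc.of_isClosed_subset ((hφ.mono (Icc_subset_Icc_right ht4.1.2)).preimage_isClosed_of_isClosed
      isClosed_Icc isClosed_Iic) inter_subset_left
  obtain ⟨t2, ht2, hg2⟩ := hc2.exists_isGreatest ⟨a, left_mem_Icc.2 ht4.1.1, ha.le⟩
  have ht2' : φ t2 ≤ u := ht2.2
  have h2 : φ t2 = u := by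
    have h1 : u ∈ φ '' Icc t2 t4 := intermediate_value_Icc ht2.1.2
      (hφ.mono (Icc_subset_Icc ht2.1.1 ht4.1.2)) ⟨ht2', by linarith⟩
    obtain ⟨c, hc, hcv⟩ := h1
    have h2 : c ≤ t2 := hg2 ⟨⟨ht2.1.1.trans hc.1, hc.2⟩, hcv.le⟩
    rw [← hcv, le_antisymm h2 hc.1]
  refine ⟨t2, t4, lt_of_le_of_ne ht2.1.1 fun he => ?_, lt_of_le_of_ne ht2.1.2 fun he => ?_,
    lt_of_le_of_ne ht4.1.2 fun he => ?_, h2, h4, fun t ht => ⟨?_, ?_⟩⟩
  · rw [← he] at h2; linarith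
  · rw [he] at h2; linarith
  · rw [he] at h4; linarith
  · by_contra hcon
    push Not at hcon
    have h5 : t ≤ t2 := hg2 ⟨⟨ht2.1.1.trans ht.1, ht.2⟩, hcon.le⟩
    have h6 : t = t2 := le_antisymm h5 ht.1
    rw [h6, h2] at hcon
    exact lt_irrefl _ hcon
  · by_contra hcon
    push Not at hcon
    have h5 : t4 ≤ t := hl4 ⟨⟨ht2.1.1.trans ht.1, ht.2.trans ht4.1.2⟩, hcon.le⟩
    have h6 : t = t4 := le_antisymm ht.2 h5
    rw [h6, h4] at hcon
    exact lt_irrefl _ hcon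

theorem C13_slice {t2 t4 : ℝ} {N : ℕ} (hN : 0 < N) (h0 : 0 ≤ t2) (h : 1 ≤ (N:ℝ) * (t4 - t2)) :
    ∃ j : ℕ, t2 ≤ (j:ℝ) / N ∧ (j:ℝ) / N ≤ t4 := by
  have hN' : (0:ℝ) < N := by exact_mod_cast hN
  refine ⟨⌈t2 * N⌉₊, ?_, ?_⟩
  · rw [le_div_iff₀ hN']
    exact Nat.le_ceil _
  · rw [div_le_iff₀ hN']
    have := (Nat.ceil_lt_add_one (mul_nonneg h0 hN'.le)).le
    nlinarith

theorem C13_frac {N j : ℕ} (hN : 0 < N) {r' : ℝ} (h0 : 0 ≤ r') (h1 : r' < 1)
    (hr : r' = (j:ℝ) / N ∨ r' = (j:ℝ) / N - 1) : ∃ k' < N, (k':ℝ) / N = r' := by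
  have hN' : (0:ℝ) < N := by exact_mod_cast hN
  rcases hr with hr | hr
  · refine ⟨j, ?_, hr.symm⟩
    rw [hr, div_lt_one hN'] at h1
    exact_mod_cast h1
  · have h2 : (1:ℝ) ≤ (j:ℝ) / N := by linarith
    rw [le_div_iff₀ hN', one_mul] at h2
    have h3 : N ≤ j := by exact_mod_cast h2
    refine ⟨j - N, ?_, ?_⟩
    · have h4 : (j:ℝ) / N < 2 := by linarith
      rw [div_lt_iff₀ hN'] at h4
      have h5 : j < 2 * N := by exact_mod_cast h4
      omega
    · rw [Nat.cast_sub h3, hr, sub_div, div_self hN'.ne']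

theorem C13_Out_mono {t a b : ℝ} (hab : a ≤ b) {w : E} (hw : w ∈ D.Out t b) : w ∈ D.Out t a :=
  fun v hv => hab.trans (hw v hv)

theorem C13_Out_shift (h : D.Ok) {t a : ℝ} {w : E} (hw : w + D.g ∈ D.Out t a) : w ∈ D.Out t a := by
  intro v hv
  have h1 := hw (v - D.g) (D.Lam.sub_mem hv h.g_mem)
  rwa [show w + D.g + (v - D.g) = w + v by abel] at h1

theorem C13_Out_inf {t a : ℝ} {w : E} (hw : w ∈ D.Out t a) : a ≤ Metric.infDist w (D.Z t) := by
  have := hw 0 D.Lam.zero_mem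
  rwa [add_zero] at this

theorem C13_Mi (hp : POk D p) {t : ℝ} {w : E} (hw : w ∈ Mi D p t) :
    w ∈ D.Mg t (p.ηc / 2) (2 * p.κ) := by
  have h1 := hp.ηc_pos
  have h2 := hp.κ_pos
  refine ⟨fun v hv => ?_, ?_⟩
  · have := hw.1.1 v hv
    linarith
  · have := hw.1.2
    linarith

theorem C13_Md (hp : POk D p) {t : ℝ} {w : E} (hw : w ∈ Md D p t) :
    w ∈ D.Mg t (p.ηc / 2) (2 * p.κ) := by
  have h1 := hp.ηc_pos
  have h2 := hp.κ_pos
  refine ⟨fun v hv => ?_, ?_⟩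
  · have := hw.1.1 v hv
    linarith
  · have := hw.1.2
    linarith

theorem C13_Z1 (h : D.Ok) (t : ℝ) : D.Z (1 + t) = D.Z t := by
  rw [add_comm]
  exact h.Z_per t

theorem C13_Z2 (h : D.Ok) : D.Z 2 = D.Z 0 := by
  have := C13_Z1 h 1
  rw [show (1:ℝ) + 1 = 2 by norm_num] at this
  rw [this]
  have := C13_Z1 h 0
  rwa [add_zero] at this

theorem C13_Md1 (h : D.Ok) {t : ℝ} {w : E} (hw : w ∈ Md D p t) : w ∈ Md D p (1 + t) := by
  refine ⟨⟨fun v hv => ?_, ?_⟩, ?_⟩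
  · rw [C13_Z1 h]
    exact hw.1.1 v hv
  · rw [C13_j1 h, C13_j1 h, C13_q1 h]
    exact hw.1.2
  · show Metric.infDist w (D.Z (1 + t)) ≤ 6 * p.ηc
    rw [C13_Z1 h]
    exact hw.2

/-- gate points move slowly -/
theorem C13_hMd (h : D.Ok) (hp : POk D p) {τ ε ρ : ℝ} (hε : 2 * ε ≤ p.κ) (hjc : C13_Jc D τ ε ρ)
    (hX : D.X p.ρ ⊆ D.X ρ) (hτA : D.A * τ ≤ p.ηc / 2) (r t : ℝ) (w : E) (hw : w ∈ Md D p r)
    (hrt : |t - r| ≤ τ) : w ∈ D.Mg t (p.ηc / 2) (2 * p.κ) := by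
  have hA := h.A_pos
  have hwr := C13_Md hp hw
  have hwX : w ∈ D.X ρ := hX (by simpa using hp.bnd r w (Or.inr hwr) 0 (by norm_num))
  have hwgX : w - D.g ∈ D.X ρ := hX (by
    have := hp.bnd r w (Or.inr hwr) (-1) (by norm_num)
    simpa [sub_eq_add_neg] using this)
  refine ⟨fun v hv => ?_, ?_⟩
  · have h1 := hw.1.1 v hv
    have h2 := C13_Zl h t r (w + v)
    have h3 : D.A * |t - r| ≤ D.A * τ := mul_le_mul_of_nonneg_left hrt hA.le
    linarith
  · have h1 := (abs_le.1 ((hjc t r hrt).2.1 w hwX)).2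
    have h2 := (abs_le.1 ((hjc t r hrt).2.2 (w - D.g) hwgX)).2
    rw [← C13_sg h, ← C13_sg h] at h2
    have h3 := hw.1.2
    linarith

theorem C13_jb (h : D.Ok) (ρ : ℝ) : ∃ J : ℝ, 0 ≤ J ∧ ∀ t, 0 ≤ t → t ≤ 1 → ∀ x ∈ D.X ρ,
    D.j t (D.q t) x ≤ J := by
  have hMF : 0 < D.MF := (h.fr0 0).fins.mF_pos.trans_le (h.fr0 0).fins.mF_le
  have hA := h.A_pos
  refine ⟨2 * D.MF * (|ρ| + ‖D.q 0‖ + D.A), by positivity, fun t ht ht1 x hx => ?_⟩
  obtain ⟨n, hn⟩ := hx
  have hn' : ‖x + lv D.b n‖ ≤ |ρ| := hn.trans (le_abs_self _)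
  have e2 : D.j t (D.q t) x = D.j t (D.q t) (x + lv D.b n) := by
    have := j_J h.toOk0 t (D.q t) x 0 n
    rw [C13_lv0, add_zero] at this
    exact this.symm
  have l2 := j_lip h.toOk0 t (D.q t) (x + lv D.b n)
  have l1 : ‖D.q t‖ ≤ ‖D.q 0‖ + D.A := by
    have h1 := h.q_lip t 0
    have h2 := norm_le_norm_add_norm_sub (D.q 0) (D.q t)
    rw [norm_sub_rev] at h2
    rw [sub_zero, abs_of_nonneg ht] at h1
    have h3 : D.A * t ≤ D.A * 1 := mul_le_mul_of_nonneg_left ht1 hA.le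
    linarith
  have l4 : ‖x + lv D.b n - D.q t‖ ≤ |ρ| + ‖D.q 0‖ + D.A := by
    have := norm_sub_le (x + lv D.b n) (D.q t)
    linarith
  rw [e2]
  exact l2.trans (mul_le_mul_of_nonneg_left l4 (by positivity))

theorem C13_lvL (h : D.Ok) (n : Fin d → ℤ) : lv D.b n ∈ D.Lam := by
  unfold lv
  refine D.Lam.sum_mem fun i _ => ?_
  obtain ⟨k, hk⟩ := (h.fr0 0).bβ i
  have h1 : D.b i ∈ D.Lam := by
    have : D.b i = D.β k := hk
    rw [this]
    exact Submodule.subset_span ⟨k, rfl⟩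
  have := D.Lam.zsmul_mem h1 (n i)
  rwa [← Int.cast_smul_eq_zsmul ℝ] at this

theorem C13_corr_lv (h : D.Ok) (s t t' : ℝ) (x x' : E) (n : Fin d → ℤ) :
    D.corr s t t' x (x' + lv D.b n) = D.corr s t t' x x' := by
  unfold GT.corr
  rw [bb_Lam h.toOk0 (C13_lvL h n)]

/-- crossing the shell takes time -/
theorem C13_dur (h : D.Ok) (m : ℝ) (L : LP) {C δ : ℝ} (hC : 0 ≤ C) (hδ : 0 < δ) :
    ∃ kN s0 : ℝ, 0 < kN ∧ 1 ≤ s0 ∧ 
    ∀ s, s0 ≤ s → ∀ Φ ll, FTa D m L Φ s ll → ∀ t t', t < t' → t' ≤ t + 4 → ∀ z z' : E,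
    Metric.infDist z (D.Z t) + 2 * δ ≤ Metric.infDist z' (D.Z t') →
    (D0 D).kk ll s t t' z z' ≤ D.corr s t t' z z' + fl Φ s t t' + C * s →
    1 ≤ kN * s * (t' - t) := by
  have hmF := (h.fr0 0).fins.mF_pos
  have hA := h.A_pos
  obtain ⟨s0, hs0, H⟩ := cst_low h m L (ε := 1 / 2) (by norm_num)
  obtain ⟨C1, hC1⟩ : ∃ C1, C1 = 4 * D.A * (C + 2) := ⟨_, rfl⟩
  have hC10 : 0 < C1 := by rw [hC1]; positivity
  obtain ⟨κ, hκ⟩ : ∃ κ, κ = D.A * C1 / (D.mF * δ) := ⟨_, rfl⟩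
  have hmF' : 0 < D.mF := hmF
  have hκ0 : 0 < κ := by rw [hκ]; positivity
  obtain ⟨k1, hk1⟩ : ∃ k1, k1 = 2 * (D.A / D.mF) * (1 + κ / 2) / δ := ⟨_, rfl⟩
  have hk10 : 0 < k1 := by rw [hk1]; positivity
  refine ⟨k1 + D.A / δ, s0, by positivity, hs0, fun s hs Φ ll hl t t' htt ht4 z z' hz hk => ?_⟩
  have hs1 : 1 ≤ s := hs0.trans hs
  have hspos : 0 < s := by linarith
  have hT : 0 < t' - t := by linarith
  have hAδ : 0 < D.A / δ := by positivity
  have hZl := C13_Zl h t t' z'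
  have hZl' := C13_Zl h t' t z'
  rw [abs_of_pos hT] at hZl'
  rcases le_or_gt δ (D.A * (t' - t)) with hcase | hcase
  · have h1 : 1 ≤ D.A / δ * (t' - t) := by
      rw [div_mul_eq_mul_div, le_div_iff₀ hδ, one_mul]
      exact hcase
    have h2 : D.A / δ * (t' - t) ≤ D.A / δ * s * (t' - t) := by
      refine mul_le_mul_of_nonneg_right ?_ hT.le
      nlinarith
    have h3 : 0 ≤ k1 * s * (t' - t) := by positivity
    calc (1:ℝ) ≤ D.A / δ * s * (t' - t) := h1.trans h2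
      _ ≤ (k1 + D.A / δ) * s * (t' - t) := by linarith
  · obtain ⟨u, n, hu, hx, hc⟩ := exists_cst_lt h hl.toTG (s := s) hspos.le htt one_pos z z'
    have h1 := H s hs Φ ll hl z u hu t t' htt.le ht4
    rw [hx, C13_corr_lv h] at h1
    have h2 := exc_nonneg h.toOk0 htt.le z hu
    have h3 : 0 ≤ (1 - 1 / 2) * (s * D.exc t t' z u) := by positivity
    have h4 : (∫ r in t..t', (Φ.K r * D.F (traj t z u r) (u r) r - s) ^ 2) / (4 * D.A) ≤
        (C + 2) * s := by linarith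
    have h5 : (∫ r in t..t', (Φ.K r * D.F (traj t z u r) (u r) r - s) ^ 2) ≤ C1 * s := by
      rw [div_le_iff₀ (by positivity)] at h4
      rw [hC1]
      linarith
    -- displacement
    have h6 : δ ≤ ‖z' + lv D.b n - z‖ := by
      have e1 := Metric.infDist_le_infDist_add_dist (s := D.Z t) (x := z' + lv D.b n) (y := z)
      rw [C13_inf h, dist_eq_norm] at e1
      rw [abs_sub_comm, abs_of_pos hT] at hZl
      linarith
    have h7 : ‖z' + lv D.b n - z‖ ≤ ∫ r in t..t', ‖u r‖ := by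
      have e1 : z' + lv D.b n - z = ∫ r in t..t', u r := by
        rw [← hx]
        unfold traj
        abel
      rw [e1]
      exact intervalIntegral.norm_integral_le_integral_norm htt.le
    have hcb1 : CB 0 (fun x v r => Φ.K r * D.F x v r) := by
      refine ⟨?_, fun x v r => ?_⟩
      · exact (hl.kb.cont.comp continuous_snd.snd).mul h.F_cont
      · have e1 := (h.fr0 r).fins.low x v
        have e2 := hl.kb.pos r
        have e3 : 0 < Φ.K r := by
          by_contra hcon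
          push Not at hcon
          nlinarith
        have e4 : 0 ≤ D.F x v r := by
          have : D.mF * ‖v‖ ≤ D.F x v r := e1
          have e5 : 0 ≤ D.mF * ‖v‖ := by positivity
          linarith
        have e5 : 0 ≤ Φ.K r * D.F x v r := by positivity
        linarith
    have hcb2 : CB 0 (fun x v r => (Φ.K r * D.F x v r - s) ^ 2) := by
      refine ⟨?_, fun x v r => ?_⟩
      · exact (((hl.kb.cont.comp continuous_snd.snd).mul h.F_cont).sub continuous_const).pow 2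
      · have := sq_nonneg (Φ.K r * D.F x v r - s)
        linarith
    have i1 := hcb1.ii hu t z t t'
    have i2 := hcb2.ii hu t z t t'
    have i3 : IntervalIntegrable (fun r => ‖u r‖) volume t t' := by
      have hcb3 : CB 0 (fun (_ : E) (v : E) (_ : ℝ) => ‖v‖) := by
        refine ⟨continuous_snd.fst.norm, fun x v r => ?_⟩
        have := norm_nonneg v
        linarith
      exact hcb3.ii hu t z t t'
    have h8 : (∫ r in t..t', ‖u r‖) ≤ ∫ r in t..t', (D.A / D.mF) * ((1 + κ / 2) * s +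
        (Φ.K r * D.F (traj t z u r) (u r) r - s) ^ 2 / (2 * κ * s)) := by
      refine intervalIntegral.integral_mono_on htt.le i3
        (((intervalIntegrable_const).add (i2.div_const _)).const_mul _) fun r _ => ?_
      have e1 : D.mF * ‖u r‖ ≤ D.F (traj t z u r) (u r) r := (h.fr0 r).fins.low _ _
      have e2 := hl.kb.pos r
      have e0 : 0 ≤ D.mF * ‖u r‖ := by positivity
      have e4 : D.mF * ‖u r‖ ≤ D.A * (Φ.K r * D.F (traj t z u r) (u r) r) := by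
        have : 1 * D.F (traj t z u r) (u r) r ≤ D.A * Φ.K r * D.F (traj t z u r) (u r) r :=
          mul_le_mul_of_nonneg_right e2 (by linarith)
        linarith
      set a : ℝ := Φ.K r * D.F (traj t z u r) (u r) r with ha
      have e5 : a ≤ (1 + κ / 2) * s + (a - s) ^ 2 / (2 * κ * s) := by
        have e6 : 0 < 2 * κ * s := by positivity
        have e7 : 2 * κ * s * (a - s - κ * s / 2) ≤ (a - s) ^ 2 := by nlinarith [sq_nonneg (a - s - κ * s)]
        have e8 : a - s - κ * s / 2 ≤ (a - s) ^ 2 / (2 * κ * s) := by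
          rw [le_div_iff₀ e6]
          linarith
        linarith
      have e9 : ‖u r‖ ≤ D.A / D.mF * a := by
        rw [div_mul_eq_mul_div, le_div_iff₀ hmF']
        linarith
      exact e9.trans (mul_le_mul_of_nonneg_left e5 (by positivity))
    rw [intervalIntegral.integral_const_mul, intervalIntegral.integral_add intervalIntegrable_const
      (i2.div_const _), intervalIntegral.integral_const, intervalIntegral.integral_div, smul_eq_mul] at h8
    have h9 : (∫ r in t..t', (Φ.K r * D.F (traj t z u r) (u r) r - s) ^ 2) / (2 * κ * s) ≤ C1 / (2 * κ) := by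
      rw [div_le_div_iff₀ (by positivity) (by positivity)]
      nlinarith
    have h10 : δ ≤ D.A / D.mF * ((t' - t) * ((1 + κ / 2) * s) + C1 / (2 * κ)) := by
      refine (h6.trans (h7.trans h8)).trans (mul_le_mul_of_nonneg_left ?_ (by positivity))
      linarith
    have h11 : D.A / D.mF * (C1 / (2 * κ)) = δ / 2 := by
      rw [hκ]
      field_simp
    have h12 : δ / 2 ≤ D.A / D.mF * (1 + κ / 2) * (s * (t' - t)) := by
      have : D.A / D.mF * ((t' - t) * ((1 + κ / 2) * s) + C1 / (2 * κ)) =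
          D.A / D.mF * (1 + κ / 2) * (s * (t' - t)) + D.A / D.mF * (C1 / (2 * κ)) := by ring
      rw [this, h11] at h10
      linarith
    have h13 : 1 ≤ k1 * s * (t' - t) := by
      have : k1 * s * (t' - t) = D.A / D.mF * (1 + κ / 2) * (s * (t' - t)) / (δ / 2) := by
        rw [hk1]
        field_simp
      rw [this, le_div_iff₀ (by positivity), one_mul]
      exact h12
    have h14 : 0 ≤ D.A / δ * s * (t' - t) := by positivity
    linarith

/-! ### shifts -/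

theorem C13_Jr (h : D.Ok) (hl : TG D.β m M ll) (s t t' : ℝ) (x x' : E) (n : Fin d → ℤ) :
    (D0 D).kk ll s t t' x (x' + lv D.b n) = (D0 D).kk ll s t t' x x' := by
  have := kk_J h hl s t t' x x' 0 n
  rwa [C13_lv0, add_zero] at this

theorem C13_t1 (h : D.Ok) (hl : TG D.β m M ll) (s a b : ℝ) (x x' : E) :
    (D0 D).kk ll s (1 + a) (1 + b) x x' = (D0 D).kk ll s a b x x' := by
  have := kk_time h hl 1 s a b x x'
  rw [Int.cast_one, add_comm a, add_comm b] at this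
  exact this

theorem C13_g (h : D.Ok) (hl : TG D.β m M ll) (s a b : ℝ) (w x : E) :
    (D0 D).kk ll s a b w (x + D.g) = (D0 D).kk ll s a b (w - D.g) x := by
  have := kk_Lam h hl h.g_mem s a b (w - D.g) x
  rwa [sub_add_cancel] at this

theorem C13_fl_one {s0 : ℝ} (hl : FTa D m L Φ s0 ll) (s r : ℝ) : fl Φ s 1 (1 + r) = fl Φ s 0 r := by
  have := fl_per hl.a_per s 0 r 1
  rw [Int.cast_one, zero_add, add_comm r] at this
  exact this

theorem C13_bb0 (h : D.Ok) (x : E) : D.bb 0 x = 0 ∧ D.bb 1 x = 0 ∧ D.bb 2 x = 0 := by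
  have h0 := (bb_per h.toOk0 0 0 x).2
  have h1 := (bb_per h.toOk0 0 1 x).2
  have h2 := (bb_per h.toOk0 0 2 x).2
  norm_num at h0 h1 h2
  exact ⟨h0, h1, h2⟩

theorem C13_bb1 (h : D.Ok) (r : ℝ) (x : E) : D.bb (1 + r) x = D.bb r x := by
  have := (bb_per h.toOk0 r 1 x).1
  rwa [Int.cast_one, add_comm] at this

theorem C13_bbg (h : D.Ok) (r : ℝ) (x : E) : D.bb r (x - D.g) = D.bb r x := by
  have := bb_Lam h.toOk0 h.g_mem r (x - D.g)
  rw [sub_add_cancel] at this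
  exact this.symm

/-- both parts of a leg of small cost have small cost -/
theorem C13_two (h : D.Ok) (m : ℝ) (L : LP) {τ ε R : ℝ} (hτ : 0 < τ) (hε : 0 < ε) :
    ∃ s0 : ℝ, 1 ≤ s0 ∧ ∀ s, s0 ≤ s → ∀ Φ ll, FTa D m L Φ s ll → ∀ t t' t'', t < t' → t' < t'' → t'' ≤ t + 4 →
    ∀ x y z : E, ∀ R0, R0 ≤ R →
    (D0 D).kk ll s t t' x y + (D0 D).kk ll s t' t'' y z ≤
      D.corr s t t'' x z + fl Φ s t t'' + s * R0 →
    ∃ N1 N2, C13_Pc D τ ε t t' x y N1 ∧ C13_Pc D τ ε t' t'' y z N2 ∧ N1 + N2 ≤ R0 := by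
  obtain ⟨s1, hs1, H1⟩ := low h m L (R + 1) (ε := min τ ε) (lt_min hτ hε)
  obtain ⟨s2, hs2, H2⟩ := kk_ge h m L (ε := 1) one_pos
  refine ⟨s1 + s2, by linarith, fun s hs Φ ll hl t t' t'' htt htt' ht4 x y z R0 hR0 hk => ?_⟩
  have hs0 : 0 < s := by linarith
  have hm1 : min τ ε ≤ τ := min_le_left _ _
  have hm2 : min τ ε ≤ ε := min_le_right _ _
  have hco : D.corr s t t'' x z = D.corr s t t' x y + D.corr s t' t'' y z := by
    unfold GT.corr
    ring
  have hfl := fl_add hl.a_cont s t t' t''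
  have k1 := H2 s (by linarith) Φ ll hl t t' htt (by linarith) x y
  have k2 := H2 s (by linarith) Φ ll hl t' t'' htt' (by linarith) y z
  have hsR : s * R0 ≤ s * R := mul_le_mul_of_nonneg_left hR0 hs0.le
  have piece : ∀ a b, a < b → b ≤ a + 4 → ∀ x x', (D0 D).kk ll s a b x x' ≤
      D.corr s a b x x' + fl Φ s a b + (R + 1) * s →
      C13_Pc D τ ε a b x x' (((D0 D).kk ll s a b x x' - D.corr s a b x x' - fl Φ s a b) / s) := by
    intro a b hab hb4 x x' hx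
    have hms : min τ ε * s ≤ ε * s := mul_le_mul_of_nonneg_right hm2 hs0.le
    rcases H1 s (by linarith) Φ ll hl a b hab hb4 x x' hx with ⟨e1, e2⟩ | ⟨v, hv, v', hv', e1, e2⟩
    · left
      refine ⟨e1.trans hm1, ?_⟩
      rw [← sub_le_iff_le_add, le_div_iff₀ hs0]
      linarith
    · right
      refine ⟨v, hv, v', hv', ?_, ?_⟩
      · rcases e1 with e1 | e1
        · exact Or.inl e1
        · right
          rw [← sub_le_iff_le_add, le_div_iff₀ hs0]
          linarith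
      · rw [← sub_le_iff_le_add, le_div_iff₀ hs0]
        linarith
  refine ⟨_, _, piece t t' htt (by linarith) x y (by linarith),
    piece t' t'' htt' (by linarith) y z (by linarith), ?_⟩
  rw [← add_div, div_le_iff₀ hs0]
  linarith

/-- cost of a piece -/
theorem C13_piece (h : D.Ok) (m : ℝ) (L : LP) : ∃ s0 : ℝ, 1 ≤ s0 ∧ ∀ s, s0 ≤ s → ∀ Φ ll, FTa D m L Φ s ll →
    ∀ t t', t' ≤ t + 4 → ∀ Z : ℝ → E,
    (∀ a b c, t ≤ a → a < b → b < c → c ≤ t' →
        (D0 D).kk ll s a b (Z a) (Z b) + (D0 D).kk ll s b c (Z b) (Z c) =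
          (D0 D).kk ll s a c (Z a) (Z c)) →
    ∀ a b, t ≤ a → a < b → b ≤ t' → (D0 D).kk ll s a b (Z a) (Z b) ≤
      D.corr s a b (Z a) (Z b) + fl Φ s a b + ((D0 D).kk ll s t t' (Z t) (Z t') -
        D.corr s t t' (Z t) (Z t') - fl Φ s t t') + 2 * s := by
  obtain ⟨s0, hs0, H⟩ := kk_ge h m L (ε := 1) one_pos
  refine ⟨s0, hs0, fun s hs Φ ll hl t t' ht4 Z HZ a b ha hab hb => ?_⟩
  have hs1 : 0 < s := by linarith
  have f1 := fl_add hl.a_cont s a b t'
  have f2 := fl_add hl.a_cont s t a t'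
  have c1 : D.corr s a t' (Z a) (Z t') = D.corr s a b (Z a) (Z b) + D.corr s b t' (Z b) (Z t') := by
    unfold GT.corr
    ring
  have c2 : D.corr s t t' (Z t) (Z t') = D.corr s t a (Z t) (Z a) + D.corr s a t' (Z a) (Z t') := by
    unfold GT.corr
    ring
  have h3 : (D0 D).kk ll s a b (Z a) (Z b) ≤ D.corr s a b (Z a) (Z b) + fl Φ s a b +
      ((D0 D).kk ll s a t' (Z a) (Z t') - D.corr s a t' (Z a) (Z t') - fl Φ s a t') + s := by
    rcases hb.eq_or_lt with rfl | hb'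
    · linarith
    · have h4 := HZ a b t' ha hab hb' le_rfl
      have h5 := H s hs Φ ll hl b t' hb' (by linarith) (Z b) (Z t')
      linarith
  have h4 : (D0 D).kk ll s a t' (Z a) (Z t') ≤ D.corr s a t' (Z a) (Z t') + fl Φ s a t' +
      ((D0 D).kk ll s t t' (Z t) (Z t') - D.corr s t t' (Z t) (Z t') - fl Φ s t t') + s := by
    rcases ha.eq_or_lt with rfl | ha'
    · linarith
    · have h4 := HZ t a t' le_rfl ha' (by linarith) le_rfl
      have h5 := H s hs Φ ll hl t a ha' (by linarith) (Z t) (Z a)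
      linarith
  linarith

/-- cost of the first leg -/
theorem C13_budA (h : D.Ok) (hp : POk D p) (m : ℝ) (L : LP) {ε : ℝ} (hε : 0 < ε) : ∃ s0 : ℝ, 1 ≤ s0 ∧
    ∀ s, s0 ≤ s → ∀ Φ ll, FTa D m L Φ s ll → ∀ r, 0 ≤ r → r ≤ 1 → ∀ w ∈ D.Mg r (p.ηc / 2) (2 * p.κ),
    ∀ x ∈ (D0 D).R p,
    (D0 D).alpha p ll s r w = (D0 D).bar p ll s (D.q 0) x + (D0 D).Q ll s r x w +
      (D0 D).al p ll s * (1 + r) →
    (D0 D).Q ll s r x w ≤ D.corr s 0 (1 + r) x w + fl Φ s 0 (1 + r) +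
      s * (D.j r (D.q r) w + D.j 0 x (D.q 0) + 3 * ε) := by
  obtain ⟨s1, hs1, H1⟩ := m1a h hp m L hε
  obtain ⟨s2, hs2, H2⟩ := upp h m L p.ρ hε
  obtain ⟨s3, hs3, H3⟩ := al_fl h hp m L hε
  refine ⟨s1 + s2 + s3, by linarith, fun s hs Φ ll hl r hr hr1 w hw x hx ha => ?_⟩
  have hs0 : 0 < s := by linarith
  obtain ⟨C, hK⟩ := C13_kd h hp hl.toTG hs0.le
  have hxX := C13_RX hp h hx
  have a1 := (abs_le.1 (H1 s (by linarith) Φ ll hl r hr hr1 w hw)).2
  have a2 := H2 s (by linarith) Φ ll hl 0 1 (by norm_num) (by norm_num) x hxX (D.q 0)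
    (C13_RX hp h (q_R h hp))
  have j1 := C13_j1 h 0 (D.q 1) (D.q 0)
  have q1 := C13_q1 h 0
  rw [add_zero] at j1 q1
  rw [q1] at j1
  have j0 := j_Z h.toOk0 0 (h.fr0 0).q0_mem (h.fr0 0).q0_mem
  have j0' : D.j 0 (D.q 0) (D.q 0) = 0 := j0
  have co1 : D.corr s 0 1 x (D.q 0) = 0 := by
    unfold GT.corr
    rw [(C13_bb0 h _).2.1, (C13_bb0 h _).1, sub_zero, mul_zero]
  have co2 : D.corr s 0 (1 + r) x w = s * D.bb r w := by
    unfold GT.corr
    rw [(C13_bb0 h _).1, C13_bb1 h, sub_zero]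
  rw [q1, j1, j0', add_zero, co1, zero_add] at a2
  have a3 := (abs_le.1 (H3 s (by linarith) Φ ll hl)).1
  have a5 := bar_right_le hK (T := 1) le_rfl (q_R h hp) hx (q_R h hp)
  have a5' : (D0 D).bar p ll s (D.q 0) (D.q 0) ≤ (D0 D).bar p ll s (D.q 0) x +
      ((D0 D).k1 ll s x (D.q 0) + (D0 D).al p ll s * 1) := by
    rw [Nat.cast_one] at a5
    exact a5
  have f2 := fl_add hl.a_cont s 0 1 (1 + r)
  rw [C13_fl_one hl] at f2
  have f3 : gam Φ s r = fl Φ s 0 r - r * fl Φ s 0 1 := rfl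
  have a8 : -(ε * s) ≤ ((D0 D).al p ll s + fl Φ s 0 1) * r := by
    have h1 : -(ε * s) * r ≤ ((D0 D).al p ll s + fl Φ s 0 1) * r := mul_le_mul_of_nonneg_right a3 hr
    have h2 : ε * s * r ≤ ε * s * 1 := mul_le_mul_of_nonneg_left hr1 (by positivity)
    linarith
  have a9 : (D0 D).k1 ll s x (D.q 0) ≤ fl Φ s 0 1 + s * D.j 0 x (D.q 0) + ε * s := a2
  rw [co2]
  linarith

/-- cost of the second leg -/
theorem C13_budB (h : D.Ok) (hp : POk D p) (m : ℝ) (L : LP) {ε : ℝ} (hε : 0 < ε) : ∃ s0 : ℝ, 1 ≤ s0 ∧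
    ∀ s, s0 ≤ s → ∀ Φ ll, FTa D m L Φ s ll → ∀ r, 0 ≤ r → r ≤ 1 → ∀ w ∈ D.Mg r (p.ηc / 2) (2 * p.κ),
    ∀ x ∈ (D0 D).R p,
    (D0 D).beta p ll s r w = (D0 D).P ll s r w x + (D0 D).bar p ll s x (D.q 0) +
      (D0 D).al p ll s * (2 - r) →
    (D0 D).P ll s r w x ≤ D.corr s r 2 (w - D.g) x + fl Φ s r 2 +
      s * (D.j r w (D.q r + D.g) + D.j 0 (D.q 0) x + 3 * ε) := by
  obtain ⟨s1, hs1, H1⟩ := m1b h hp m L hε
  obtain ⟨s2, hs2, H2⟩ := upp h m L p.ρ hε
  obtain ⟨s3, hs3, H3⟩ := al_fl h hp m L hε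
  refine ⟨s1 + s2 + s3, by linarith, fun s hs Φ ll hl r hr hr1 w hw x hx ha => ?_⟩
  have hs0 : 0 < s := by linarith
  obtain ⟨C, hK⟩ := C13_kd h hp hl.toTG hs0.le
  have hxX := C13_RX hp h hx
  have a1 := (abs_le.1 (H1 s (by linarith) Φ ll hl r hr hr1 w hw)).2
  have a2 := H2 s (by linarith) Φ ll hl 0 1 (by norm_num) (by norm_num) (D.q 0)
    (C13_RX hp h (q_R h hp)) x hxX
  have j1 := C13_j1 h 0 (D.q 1) x
  have q1 := C13_q1 h 0
  rw [add_zero] at j1 q1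
  rw [q1] at j1
  have j0 := j_Z h.toOk0 0 (h.fr0 0).q0_mem (h.fr0 0).q0_mem
  have j0' : D.j 0 (D.q 0) (D.q 0) = 0 := j0
  have co1 : D.corr s 0 1 (D.q 0) x = 0 := by
    unfold GT.corr
    rw [(C13_bb0 h _).2.1, (C13_bb0 h _).1, sub_zero, mul_zero]
  have co2 : D.corr s r 2 (w - D.g) x = -(s * D.bb r w) := by
    unfold GT.corr
    rw [(C13_bb0 h _).2.2, C13_bbg h]
    ring
  rw [q1, j1, j0', zero_add, co1, zero_add] at a2
  have a3 := (abs_le.1 (H3 s (by linarith) Φ ll hl)).1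
  have a5 := bar_left_le hK (T := 1) le_rfl (q_R h hp) hx (q_R h hp)
  have a5' : (D0 D).bar p ll s (D.q 0) (D.q 0) ≤ (D0 D).k1 ll s (D.q 0) x +
      (D0 D).al p ll s * 1 + (D0 D).bar p ll s x (D.q 0) := by
    rw [Nat.cast_one] at a5
    exact a5
  have f2 := fl_add hl.a_cont s 0 r 2
  have f4 := fl_add hl.a_cont s 0 1 2
  have f5 := C13_fl_one hl s 1
  rw [show (1:ℝ) + 1 = 2 by norm_num] at f5
  have f3 : gam Φ s r = fl Φ s 0 r - r * fl Φ s 0 1 := rfl
  have a8 : -(ε * s) ≤ ((D0 D).al p ll s + fl Φ s 0 1) * (1 - r) := by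
    have h1 : -(ε * s) * (1 - r) ≤ ((D0 D).al p ll s + fl Φ s 0 1) * (1 - r) :=
      mul_le_mul_of_nonneg_right a3 (by linarith)
    have h2 : ε * s * (1 - r) ≤ ε * s * 1 := mul_le_mul_of_nonneg_left (by linarith) (by positivity)
    linarith
  have a9 : (D0 D).k1 ll s (D.q 0) x ≤ fl Φ s 0 1 + s * D.j 0 (D.q 0) x + ε * s := a2
  rw [co2]
  linarith

/-! ### transfer of the gate -/

theorem C13_Mg1 (h : D.Ok) {t a b : ℝ} {w : E} (hw : w ∈ D.Mg t a b) : w ∈ D.Mg (t - 1) a b := by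
  have h1 := Mg_per h (t - 1) a b 1
  rw [Int.cast_one, sub_add_cancel] at h1
  rwa [← h1]

theorem C13_WA (h : D.Ok) (hp : POk D p) (hl : TG D.β m M ll) {s s' r t : ℝ}
    (hs : 0 ≤ s) (hs' : 0 ≤ s') (hr1 : r < 1) {w x x' w' : E} (hx : x ∈ (D0 D).C p)
    (hx' : x' ∈ (D0 D).C p) (hw' : w' ∈ D.Mg t (p.ηc / 2) (2 * p.κ)) (ht0 : 0 < t) (ht : t ≤ 1 + r)
    {c c' δ A : ℝ}
    (ha : (D0 D).alpha p ll s r w = (D0 D).bar p ll s (D.q 0) x + (D0 D).Q ll s r x w +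
      (D0 D).al p ll s * (1 + r))
    (hb : (D0 D).beta p ll s' r w = (D0 D).P ll s' r w x' + (D0 D).bar p ll s' x' (D.q 0) +
      (D0 D).al p ll s' * (2 - r))
    (hc1 : (D0 D).kk ll s 0 t x w' + c = (D0 D).Q ll s r x w)
    (hc2 : ∀ y T, 1 + r < T → (D0 D).kk ll s' t T w' y ≤ c' + (D0 D).kk ll s' (1 + r) T w y)
    (hc3 : c' ≤ c + A) (hal : |(D0 D).al p ll s' - (D0 D).al p ll s| ≤ δ)
    (hy : t < 1 → ∃ y ∈ (D0 D).R p,
      (D0 D).kk ll s' r 1 (w - D.g) y + (D0 D).k1 ll s' y x' = (D0 D).P ll s' r w x') :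
    ∃ r', 0 ≤ r' ∧ r' < 1 ∧ (r' = t ∨ r' = t - 1) ∧
      (D0 D).W p ll s s' r' w' ≤ (D0 D).W p ll s s' r w + A + 2 * δ := by
  have hδ : 0 ≤ δ := (abs_nonneg _).trans hal
  have hal' : ∀ a : ℝ, 0 ≤ a → a ≤ 2 → ((D0 D).al p ll s' - (D0 D).al p ll s) * a ≤ 2 * δ := by
    intro a ha0 ha2
    have h1 : ((D0 D).al p ll s' - (D0 D).al p ll s) * a ≤ δ * a :=
      mul_le_mul_of_nonneg_right ((le_abs_self _).trans hal) ha0
    have h2 : δ * a ≤ δ * 2 := mul_le_mul_of_nonneg_left ha2 hδ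
    linarith
  have hxR := C_sub hx
  have hxR' := C_sub hx'
  obtain ⟨C, hK⟩ := C13_kd h hp hl hs
  obtain ⟨C', hK'⟩ := C13_kd h hp hl hs'
  rcases lt_or_ge t 1 with ht1 | ht1
  · refine ⟨t, ht0.le, ht1, Or.inl rfl, ?_⟩
    obtain ⟨y, hyR, hyP⟩ := hy ht1
    obtain ⟨x'', hx'', he⟩ := bar_right_eq hK (T := 1) le_rfl (q_R h hp) hxR
    have he' : (D0 D).bar p ll s (D.q 0) x = (D0 D).bar p ll s (D.q 0) x'' +
        ((D0 D).k1 ll s x'' x + (D0 D).al p ll s * 1) := by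
      rw [Nat.cast_one] at he
      exact he
    have h1 := alpha_le h hp hl hs ht0.le ht1.le hw' (C_sub hx'')
    have h2 : (D0 D).Q ll s t x'' w' ≤ (D0 D).k1 ll s x'' x + (D0 D).kk ll s 0 t x w' := by
      have h3 := kk_add h hl hs (t := 0) (t' := 1) (t'' := 1 + t) one_pos (by linarith) x'' x w'
      have h4 := C13_t1 h hl s 0 t x w'
      rw [add_zero] at h4
      rw [h4] at h3
      exact h3
    have h3 := beta_le h hp hl hs' ht0.le ht1.le hw' hyR
    have h4 : (D0 D).P ll s' t w' y ≤ c' + (D0 D).kk ll s' r 1 (w - D.g) y := by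
      have h5 := hc2 (y + D.g) 2 (by linarith)
      have h6 := C13_g h hl s' t 2 w' y
      have h7 := C13_g h hl s' (1 + r) 2 w y
      have h8 := C13_t1 h hl s' r 1 (w - D.g) y
      rw [show (1:ℝ) + 1 = 2 by norm_num] at h8
      have h9 : (D0 D).P ll s' t w' y = (D0 D).kk ll s' t 2 (w' - D.g) y := rfl
      linarith
    have h5 := bar_left_le hK' (T := 1) le_rfl hyR hxR' (q_R h hp)
    have h5' : (D0 D).bar p ll s' y (D.q 0) ≤ (D0 D).k1 ll s' y x' + (D0 D).al p ll s' * 1 +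
        (D0 D).bar p ll s' x' (D.q 0) := by
      rw [Nat.cast_one] at h5
      exact h5
    have h6 := hal' (1 + r - t) (by linarith) (by linarith)
    unfold GD.W
    rw [ha, hb]
    linarith
  · refine ⟨t - 1, by linarith, by linarith, Or.inr rfl, ?_⟩
    have hw'' := C13_Mg1 h hw'
    have h1 := alpha_le h hp hl hs (r := t - 1) (by linarith) (by linarith) hw'' hxR
    have h2 : (D0 D).Q ll s (t - 1) x w' = (D0 D).kk ll s 0 t x w' := by
      unfold GD.Q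
      rw [show 1 + (t - 1) = t by ring]
    have h3 := beta_le h hp hl hs' (r := t - 1) (by linarith) (by linarith) hw'' hxR'
    have h4 : (D0 D).P ll s' (t - 1) w' x' ≤ c' + (D0 D).P ll s' r w x' := by
      have h5 := hc2 (x' + D.g) 3 (by linarith)
      have h6 := C13_g h hl s' t 3 w' x'
      have h7 := C13_g h hl s' (1 + r) 3 w x'
      have h8 := C13_t1 h hl s' r 2 (w - D.g) x'
      have h9 := C13_t1 h hl s' (t - 1) 2 (w' - D.g) x'
      rw [show (1:ℝ) + 2 = 3 by norm_num] at h8 h9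
      rw [show 1 + (t - 1) = t by ring] at h9
      have h10 : (D0 D).P ll s' (t - 1) w' x' = (D0 D).kk ll s' (t - 1) 2 (w' - D.g) x' := rfl
      have h11 : (D0 D).P ll s' r w x' = (D0 D).kk ll s' r 2 (w - D.g) x' := rfl
      linarith
    have h6 := hal' (1 + r - t) (by linarith) (by linarith)
    unfold GD.W
    rw [ha, hb]
    rw [h2, show 1 + (t - 1) = t by ring] at h1
    linarith

theorem C13_WB (h : D.Ok) (hp : POk D p) (hl : TG D.β m M ll) {s s' r t : ℝ}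
    (hs : 0 ≤ s) (hs' : 0 ≤ s') (hr : 0 ≤ r) {w x x' w' : E} (hx : x ∈ (D0 D).C p)
    (hx' : x' ∈ (D0 D).C p) (hw' : w' ∈ D.Mg t (p.ηc / 2) (2 * p.κ)) (ht0 : r < t) (ht : t < 2)
    {c c' δ A : ℝ}
    (ha : (D0 D).alpha p ll s r w = (D0 D).bar p ll s (D.q 0) x + (D0 D).Q ll s r x w +
      (D0 D).al p ll s * (1 + r))
    (hb : (D0 D).beta p ll s' r w = (D0 D).P ll s' r w x' + (D0 D).bar p ll s' x' (D.q 0) +
      (D0 D).al p ll s' * (2 - r))
    (hc1 : c' + (D0 D).kk ll s' t 2 (w' - D.g) x' = (D0 D).P ll s' r w x')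
    (hc2 : ∀ y T, T < 1 + r → (D0 D).kk ll s T (1 + t) y w' ≤ (D0 D).kk ll s T (1 + r) y w + c)
    (hc3 : c ≤ c' + A) (hal : |(D0 D).al p ll s' - (D0 D).al p ll s| ≤ δ)
    (hy : 1 ≤ t → ∃ y ∈ (D0 D).R p, 0 < r ∧
      (D0 D).k1 ll s x y + (D0 D).kk ll s 1 (1 + r) y w = (D0 D).Q ll s r x w) :
    ∃ r', 0 ≤ r' ∧ r' < 1 ∧ (r' = t ∨ r' = t - 1) ∧
      (D0 D).W p ll s s' r' w' ≤ (D0 D).W p ll s s' r w + A + 2 * δ := by
  have hδ : 0 ≤ δ := (abs_nonneg _).trans hal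
  have hal' : ∀ a : ℝ, 0 ≤ a → a ≤ 2 → ((D0 D).al p ll s - (D0 D).al p ll s') * a ≤ 2 * δ := by
    intro a ha0 ha2
    have h1 : ((D0 D).al p ll s - (D0 D).al p ll s') * a ≤ δ * a := by
      refine mul_le_mul_of_nonneg_right ?_ ha0
      have := (abs_le.1 hal).1
      linarith
    have h2 : δ * a ≤ δ * 2 := mul_le_mul_of_nonneg_left ha2 hδ
    linarith
  have hxR := C_sub hx
  have hxR' := C_sub hx'
  obtain ⟨C, hK⟩ := C13_kd h hp hl hs
  obtain ⟨C', hK'⟩ := C13_kd h hp hl hs'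
  rcases lt_or_ge t 1 with ht1 | ht1
  · refine ⟨t, by linarith, ht1, Or.inl rfl, ?_⟩
    have h1 := alpha_le h hp hl hs (r := t) (by linarith) ht1.le hw' hxR
    have h2 : (D0 D).Q ll s t x w' ≤ (D0 D).Q ll s r x w + c := hc2 x 0 (by linarith)
    have h3 := beta_le h hp hl hs' (r := t) (by linarith) ht1.le hw' hxR'
    have h4 : (D0 D).P ll s' t w' x' = (D0 D).kk ll s' t 2 (w' - D.g) x' := rfl
    have h6 := hal' (t - r) (by linarith) (by linarith)
    unfold GD.W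
    rw [ha, hb]
    linarith
  · refine ⟨t - 1, by linarith, by linarith, Or.inr rfl, ?_⟩
    have hw'' := C13_Mg1 h hw'
    obtain ⟨y, hyR, hr0, hyQ⟩ := hy ht1
    obtain ⟨x3, hx3, he⟩ := bar_left_eq hK' (T := 1) le_rfl hxR' (q_R h hp)
    have he' : (D0 D).bar p ll s' x' (D.q 0) = (D0 D).k1 ll s' x' x3 + (D0 D).al p ll s' * 1 +
        (D0 D).bar p ll s' x3 (D.q 0) := by
      rw [Nat.cast_one] at he
      exact he
    have h1 := alpha_le h hp hl hs (r := t - 1) (by linarith) (by linarith) hw'' hyR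
    have h2 : (D0 D).Q ll s (t - 1) y w' ≤ (D0 D).kk ll s 1 (1 + r) y w + c := by
      have h5 := hc2 y 1 (by linarith)
      have h6 := C13_t1 h hl s 0 t y w'
      rw [add_zero] at h6
      have h7 : (D0 D).Q ll s (t - 1) y w' = (D0 D).kk ll s 0 t y w' := by
        unfold GD.Q
        rw [show 1 + (t - 1) = t by ring]
      linarith
    have h3 := bar_right_le hK (T := 1) le_rfl (q_R h hp) hxR hyR
    have h3' : (D0 D).bar p ll s (D.q 0) y ≤ (D0 D).bar p ll s (D.q 0) x +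
        ((D0 D).k1 ll s x y + (D0 D).al p ll s * 1) := by
      rw [Nat.cast_one] at h3
      exact h3
    have h4 := beta_le h hp hl hs' (r := t - 1) (by linarith) (by linarith) hw'' (C_sub hx3)
    have h5 : (D0 D).P ll s' (t - 1) w' x3 ≤ (D0 D).kk ll s' t 2 (w' - D.g) x' +
        (D0 D).k1 ll s' x' x3 := by
      have h6 := kk_add h hl hs' (t := t) (t' := 2) (t'' := 3) ht (by norm_num) (w' - D.g) x' x3
      have h7 := C13_t1 h hl s' 1 2 x' x3
      have h8 := C13_t1 h hl s' 0 1 x' x3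
      rw [show (1:ℝ) + 2 = 3 by norm_num, show (1:ℝ) + 1 = 2 by norm_num] at h7
      rw [show (1:ℝ) + 1 = 2 by norm_num, add_zero] at h8
      have h9 := C13_t1 h hl s' (t - 1) 2 (w' - D.g) x3
      rw [show (1:ℝ) + 2 = 3 by norm_num, show 1 + (t - 1) = t by ring] at h9
      have h10 : (D0 D).P ll s' (t - 1) w' x3 = (D0 D).kk ll s' (t - 1) 2 (w' - D.g) x3 := rfl
      have h11 : (D0 D).k1 ll s' x' x3 = (D0 D).kk ll s' 0 1 x' x3 := rfl
      linarith
    have h6 := hal' (t - r) (by linarith) (by linarith)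
    unfold GD.W
    rw [ha, hb]
    rw [show 1 + (t - 1) = t by ring] at h1
    linarith

theorem C13_Mi1 (h : D.Ok) {t : ℝ} {w : E} (hw : w ∈ Mi D p t) : w ∈ Mi D p (t - 1) := by
  refine ⟨C13_Mg1 h hw.1, ?_⟩
  have h1 := C13_Z1 h (t - 1)
  rw [show 1 + (t - 1) = t by ring] at h1
  show Metric.infDist w (D.Z (t - 1)) ≤ 5 * p.ηc
  rw [← h1]
  exact hw.2

theorem C13_phc (h : D.Ok) {Z : ℝ → E} {S : Set ℝ} (hZ : ContinuousOn Z S) :
    ContinuousOn (fun t => Metric.infDist (Z t) (D.Z t)) S := by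
  have h0 : ContinuousOn (fun t : ℝ => t) S := continuousOn_id
  have h1 : ContinuousOn (fun t : ℝ => (t, Z t)) S := h0.prodMk hZ
  have h2 := (C13_Zc h).comp_continuousOn h1
  refine h2.congr fun t _ => ?_
  simp only [Function.comp_apply]

theorem C13_X_mono {a b : ℝ} (hab : a ≤ b) : D.X a ⊆ D.X b := by
  rintro x ⟨n, hn⟩
  exact ⟨n, hn.trans hab⟩

theorem inner_slice (h : D.Ok) (hp : POk D p) (m : ℝ) (L : LP) : ∃ kN CI s0 δ0 : ℝ, 0 < kN ∧ 0 ≤ CI ∧
    1 ≤ s0 ∧ 0 < δ0 ∧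
    ∀ s s', s0 ≤ s → s0 ≤ s' → |s' - s| ≤ δ0 → ∀ Φ ll, FTa D m L Φ s ll → FTa D m L Φ s' ll → ∀ N : ℕ,
    kN * s ≤ N → ∀ k < N, ∀ w ∈ Md D p ((k : ℝ) / N),
    (∀ k' < N, ∀ w' ∈ Md D p ((k' : ℝ) / N),
      (D0 D).W p ll s s' ((k : ℝ) / N) w ≤ (D0 D).W p ll s s' ((k' : ℝ) / N) w') →
    ∃ k' < N, ∃ w' ∈ Mi D p ((k' : ℝ) / N), (D0 D).W p ll s s' ((k' : ℝ) / N) w' ≤
      (D0 D).W p ll s s' ((k : ℝ) / N) w + CI * s * |s' - s| := by
  by_cases hv : 0 < m ∧ 0 ≤ L.M ∧ 0 ≤ L.A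
  swap
  · refine ⟨1, 0, 1, 1, one_pos, le_rfl, le_rfl, one_pos, fun s s' _ _ _ Φ ll hl _ => ?_⟩
    exact absurd ⟨hl.m_pos, hl.M_nonneg, hl.A_nonneg⟩ hv
  obtain ⟨hm, hM, hLA⟩ := hv
  have hc := hp.ηc_pos
  have hκ := hp.κ_pos
  have hA := h.A_pos
  have hUs := Us_pos h
  have hη1 := hp.η1_pos
  have hη1c := hp.η1_le
  have hom := hp.om_le
  obtain ⟨e1, he1, He1⟩ := shell h.toOk0 hη1
  obtain ⟨ε, hεd⟩ : ∃ ε, ε = min (p.κ / 1000) (e1 / 10) := ⟨_, rfl⟩
  have hε : 0 < ε := by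
    rw [hεd]
    exact lt_min (by positivity) (by positivity)
  have hε1 : ε ≤ p.κ / 1000 := hεd.le.trans (min_le_left _ _)
  have hε2 : ε ≤ e1 / 10 := hεd.le.trans (min_le_right _ _)
  obtain ⟨J1, hJ1, HJ1⟩ := C13_jb h p.ρ
  obtain ⟨CC, hCC⟩ : ∃ CC, CC = D.Us + 4 * p.κ + J1 := ⟨_, rfl⟩
  obtain ⟨ρ', Hρ'⟩ := coer h.toOk0 CC
  obtain ⟨ρ, hρd⟩ : ∃ ρ, ρ = max p.ρ ρ' := ⟨_, rfl⟩
  have hX : D.X p.ρ ⊆ D.X ρ := C13_X_mono (by rw [hρd]; exact le_max_left _ _)
  have hρ : ∀ t w, D.j t (D.q t) w ≤ CC → w ∈ D.X ρ := fun t w hw =>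
    C13_X_mono (by rw [hρd]; exact le_max_right _ _) (Hρ' t w hw)
  obtain ⟨δc, hδc, Hδc⟩ := j_cont h.toOk0 ρ hε
  obtain ⟨τ, hτd⟩ : ∃ τ, τ = min δc (min (p.ηc / (2 * D.A)) (1 / 8)) := ⟨_, rfl⟩
  have hτ : 0 < τ := by
    rw [hτd]
    exact lt_min hδc (lt_min (by positivity) (by norm_num))
  have hτ1 : τ ≤ δc := hτd.le.trans (min_le_left _ _)
  have hτ2 : τ ≤ p.ηc / (2 * D.A) := hτd.le.trans ((min_le_right _ _).trans (min_le_left _ _))
  have hτ3 : τ ≤ 1 / 8 := hτd.le.trans ((min_le_right _ _).trans (min_le_right _ _))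
  have hτA : D.A * τ ≤ p.ηc / 2 := by
    rw [le_div_iff₀ (by positivity)] at hτ2
    linarith
  have hjc : C13_Jc D τ ε ρ := fun t t' htt => Hδc t t' (htt.trans hτ1)
  have hMd := C13_hMd h hp (ε := ε) (by linarith) hjc hX hτA
  obtain ⟨R, hRd⟩ : ∃ R, R = D.Us + 3 * p.κ := ⟨_, rfl⟩
  have hR0 : 0 < R := by rw [hRd]; positivity
  obtain ⟨s1, hs1, H1⟩ := C13_two h m L (R := R) hτ hε
  obtain ⟨s2, hs2, H2⟩ := C13_piece h m L
  obtain ⟨s3, hs3, H3⟩ := C13_budA h hp m L hε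
  obtain ⟨s4, hs4, H4⟩ := C13_budB h hp m L hε
  obtain ⟨kN, s5, hkN, hs5, H5⟩ := C13_dur h m L (C := R + 2) (δ := p.ηc) (by positivity) hc
  obtain ⟨Cb, hCb, Hb, -, -⟩ := bb_bd h.toOk0
  obtain ⟨CI, hCI, HCI⟩ := C13_class (m := m) (M := L.M) h hm hM (C0 := 2 * Cb + 4 * L.A + (R + 2))
    (by positivity)
  obtain ⟨CA, s6, hCA, hs6, HCA⟩ := C13_al h hp hm hM hLA
  obtain ⟨s7, δ0, N0, hs7, hδ0, hN0, H7⟩ := m2 h hp m L
  have hN0r : (0:ℝ) < N0 := by exact_mod_cast hN0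
  refine ⟨2 * kN + N0, 2 * CI + 2 * CA, s1 + s2 + s3 + s4 + s5 + s6 + s7, min δ0 1, by positivity,
    by positivity, by linarith, lt_min hδ0 one_pos, ?_⟩
  intro s s' hs hs' hss Φ ll hl hl' N hN k hk w hw hmin
  have hss0 : |s' - s| ≤ δ0 := hss.trans (min_le_left _ _)
  have hss1 : |s' - s| ≤ 1 := hss.trans (min_le_right _ _)
  have hNp : 0 < N := by omega
  have hNr : (0:ℝ) < N := by exact_mod_cast hNp
  have hs0 : 1 ≤ s := by linarith
  have hs0' : 1 ≤ s' := by linarith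
  have hss2 : s' ≤ 2 * s := by
    have := (abs_le.1 hss1).2
    linarith
  have hNN : N0 ≤ N := by
    have h1 : (N0:ℝ) * 1 ≤ N0 * s := mul_le_mul_of_nonneg_left hs0 hN0r.le
    have h2 : 0 ≤ 2 * kN * s := by positivity
    have h3 : (N0:ℝ) ≤ N := by linarith
    exact_mod_cast h3
  have hNk : 2 * kN * s ≤ N := by
    have h1 : 0 ≤ (N0:ℝ) * s := by positivity
    linarith
  set r : ℝ := (k:ℝ) / N with hrdef
  have hr : 0 ≤ r := by positivity
  have hr1 : r < 1 := by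
    rw [hrdef, div_lt_one hNr]
    exact_mod_cast hk
  have hab := abs_nonneg (s' - s)
  have hwg := C13_Md hp hw
  obtain ⟨x, hx, ha⟩ := alpha_att h hp hl.toTG (s := s) (by linarith) hr hr1.le hwg
  obtain ⟨x', hx', hb⟩ := beta_att h hp hl.toTG (s := s') (by linarith) hr hr1.le hwg
  have hxR := C_sub hx
  have hxR' := C_sub hx'
  have hxd : Metric.infDist x (D.Z 0) ≤ p.η1 := hxR
  have hxd' : Metric.infDist x' (D.Z 0) ≤ p.η1 := hxR'
  have hxX := C13_RX hp h hxR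
  have hxX' := C13_RX hp h hxR'
  have hwX : w ∈ D.X p.ρ := by
    have := hp.bnd r w (Or.inr hwg) 0 (by norm_num)
    simpa using this
  have hwX' : w - D.g ∈ D.X p.ρ := by
    have := hp.bnd r w (Or.inr hwg) (-1) (by norm_num)
    simpa [sub_eq_add_neg] using this
  obtain ⟨n1, Z1, hZ10, hZ11, hZ1c, HZ1⟩ := C13_geo h hl.toTG (s := s) (t := 0) (t' := 1 + r)
    (by linarith) (by linarith) (by linarith) hxX hwX
  obtain ⟨n2, Z2, hZ20, hZ21, hZ2c, HZ2⟩ := C13_geo h hl.toTG (s := s') (t := r) (t' := 2)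
    (by linarith) (by linarith) (by linarith) hwX' hxX'
  -- budgets
  have hw1 := hwg.2
  have hjw1 := j_nonneg h.toOk0 r (D.q r) w
  have hjw2 := j_nonneg h.toOk0 r w (D.q r + D.g)
  obtain ⟨RA, hRA⟩ : ∃ RA, RA = D.j r (D.q r) w + D.j 0 x (D.q 0) + 3 * ε := ⟨_, rfl⟩
  obtain ⟨RB, hRB⟩ : ∃ RB, RB = D.j r w (D.q r + D.g) + D.j 0 (D.q 0) x' + 3 * ε := ⟨_, rfl⟩
  have hRAR : RA ≤ R := by
    have := (near h.toOk0 0 hxd).1
    rw [hRA, hRd]
    linarith
  have hRBR : RB ≤ R := by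
    have := (near h.toOk0 0 hxd').2
    rw [hRB, hRd]
    linarith
  have hbA := H3 s (by linarith) Φ ll hl r hr hr1.le w hwg x hxR ha
  have hbB := H4 s' (by linarith) Φ ll hl' r hr hr1.le w hwg x' hxR' hb
  rw [← hRA] at hbA
  rw [← hRB] at hbB
  -- pieces
  have hP1 : ∀ a b, 0 ≤ a → a < b → b ≤ 1 + r → (D0 D).kk ll s a b (Z1 a) (Z1 b) ≤
      D.corr s a b (Z1 a) (Z1 b) + fl Φ s a b + (R + 2) * s := by
    intro a b ha' hab' hb'
    have h1 := H2 s (by linarith) Φ ll hl 0 (1 + r) (by linarith) Z1 HZ1 a b ha' hab' hb'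
    rw [hZ10, hZ11, C13_Jr h hl.toTG, C13_corr_lv h] at h1
    have h2 : (D0 D).kk ll s 0 (1 + r) x w = (D0 D).Q ll s r x w := rfl
    have h3 : s * RA ≤ s * R := mul_le_mul_of_nonneg_left hRAR (by linarith)
    linarith
  have hP2 : ∀ a b, r ≤ a → a < b → b ≤ 2 → (D0 D).kk ll s' a b (Z2 a) (Z2 b) ≤
      D.corr s' a b (Z2 a) (Z2 b) + fl Φ s' a b + (R + 2) * s' := by
    intro a b ha' hab' hb'
    have h1 := H2 s' (by linarith) Φ ll hl' r 2 (by linarith) Z2 HZ2 a b ha' hab' hb'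
    rw [hZ20, hZ21, C13_Jr h hl.toTG, C13_corr_lv h] at h1
    have h2 : (D0 D).kk ll s' r 2 (w - D.g) x' = (D0 D).P ll s' r w x' := rfl
    have h3 : s' * RB ≤ s' * R := mul_le_mul_of_nonneg_left hRBR (by linarith)
    linarith
  -- quadratic bound
  have hquad : ∀ σ, 1 ≤ σ → ∀ a b, a < b → b ≤ a + 4 → ∀ z z' K,
      K ≤ D.corr σ a b z z' + fl Φ σ a b + (R + 2) * σ →
      K ≤ (2 * Cb + 4 * L.A + (R + 2)) * σ ^ 2 := by
    intro σ hσ a b hab' hb4 z z' K hK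
    have h1 : D.corr σ a b z z' ≤ σ * (2 * Cb) := by
      unfold GT.corr
      refine mul_le_mul_of_nonneg_left ?_ (by linarith)
      have h2 := (abs_le.1 (Hb b z')).2
      have h3 := (abs_le.1 (Hb a z)).1
      linarith
    have h2 : fl Φ σ a b ≤ L.A * σ ^ 2 * 4 := by
      refine ((le_abs_self _).trans (fl_bd hl.a_bd hσ a b)).trans ?_
      rw [abs_of_pos (by linarith)]
      exact mul_le_mul_of_nonneg_left (by linarith) (by positivity)
    have h3 : σ ≤ σ ^ 2 := by nlinarith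
    have h4 : σ * (2 * Cb) ≤ σ ^ 2 * (2 * Cb) := mul_le_mul_of_nonneg_right h3 (by positivity)
    have h5 : (R + 2) * σ ≤ (R + 2) * σ ^ 2 := mul_le_mul_of_nonneg_left h3 (by positivity)
    linarith
  have hQ : ∀ t, 0 < t → t < 1 + r →
      (D0 D).kk ll s 0 t x (Z1 t) + (D0 D).kk ll s t (1 + r) (Z1 t) w = (D0 D).Q ll s r x w := by
    intro t ht0 ht1
    have h1 := HZ1 0 t (1 + r) le_rfl ht0 ht1 le_rfl
    rw [hZ10, hZ11, C13_Jr h hl.toTG, C13_Jr h hl.toTG] at h1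
    exact h1
  have hPP : ∀ t, r < t → t < 2 →
      (D0 D).kk ll s' r t (w - D.g) (Z2 t) + (D0 D).kk ll s' t 2 (Z2 t) x' =
        (D0 D).P ll s' r w x' := by
    intro t ht0 ht1
    have h1 := HZ2 r t 2 le_rfl ht0 ht1 le_rfl
    rw [hZ20, hZ21, C13_Jr h hl.toTG, C13_Jr h hl.toTG] at h1
    exact h1
  -- the positions at time one
  have hroom : ∀ y, D.j 0 (D.q 0) y + D.j 0 y (D.q 0) ≤ 5 * ε → y ∈ (D0 D).R p := by
    intro y hy
    by_contra hcon
    have h1 : ¬ Metric.infDist y (D.Z 0) ≤ p.η1 := hcon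
    push Not at h1
    have h2 := He1 0 y h1.le
    linarith
  have hy1 : 1 - τ ≤ r → Z1 1 ∈ (D0 D).R p := by
    intro hr2
    obtain ⟨N1, N2, P1, P2, hN12⟩ := H1 s (by linarith) Φ ll hl 0 1 (1 + r) one_pos (by linarith)
      (by linarith) x (Z1 1) w RA hRAR (by rw [hQ 1 one_pos (by linarith)]; exact hbA)
    exact hroom _ (C13_midA h hp hε (by linarith) hwg hxd (by linarith) (by linarith) P1 P2
      (by rw [← hRA]; exact hN12))
  have hy2 : r < τ → Z2 1 ∈ (D0 D).R p := by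
    intro hr2
    obtain ⟨N1, N2, P1, P2, hN12⟩ := H1 s' (by linarith) Φ ll hl' r 1 2 hr1 (by norm_num)
      (by linarith) (w - D.g) (Z2 1) x' RB hRBR (by rw [hPP 1 hr1 (by norm_num)]; exact hbB)
    exact hroom _ (C13_midB h hp hε (by linarith) hwg hxd' (by linarith) (by linarith) P1 P2
      (by rw [← hRB]; exact hN12))
  have hm2 := H7 s s' (by linarith) (by linarith) hss0 Φ ll hl hl' N hNN k hk w hw fun k' hk' w' hw' => by
    have := hmin k' hk' w' hw'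
    linarith
  rw [← hrdef] at hm2
  have hal := HCA s s' (by linarith) (by linarith) hss1 Φ ll hl hl'
  have hk12 : ∀ y y' : E, (D0 D).kk ll s' 1 2 y y' = (D0 D).k1 ll s' y y' := by
    intro y y'
    have := C13_t1 h hl.toTG s' 0 1 y y'
    rw [add_zero, show (1:ℝ) + 1 = 2 by norm_num] at this
    exact this
  -- slice in the first leg
  have finA : ∀ j : ℕ, 0 < (j:ℝ) / N → (j:ℝ) / N < 1 + r →
      2 * p.ηc ≤ Metric.infDist (Z1 ((j:ℝ) / N)) (D.Z ((j:ℝ) / N)) →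
      Metric.infDist (Z1 ((j:ℝ) / N)) (D.Z ((j:ℝ) / N)) ≤ 4 * p.ηc →
      ∃ k' < N, ∃ w' ∈ Mi D p ((k' : ℝ) / N), (D0 D).W p ll s s' ((k' : ℝ) / N) w' ≤
        (D0 D).W p ll s s' r w + (2 * CI + 2 * CA) * s * |s' - s| := by
    intro j hj0 hj hd2 hd4
    set t : ℝ := (j:ℝ) / N with htdef
    obtain ⟨N1, N2, P1, P2, hN12⟩ := H1 s (by linarith) Φ ll hl 0 t (1 + r) hj0 hj
      (by linarith) x (Z1 t) w RA hRAR (by rw [hQ t hj0 hj]; exact hbA)
    obtain ⟨hta, htb⟩ := C13_coreA h hp hε (by linarith) hjc hρ (by linarith) hX hMd hτ.le hw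
      (C13_Md1 h hw) hxd hj0 hj.le (by linarith) P1 P2 (by rw [← hRA]; exact hN12)
    have hMi : Z1 t ∈ Mi D p t := by
      refine ⟨⟨C13_out h hp t hd2 hd4, by linarith⟩, ?_⟩
      show Metric.infDist (Z1 t) (D.Z t) ≤ 5 * p.ηc
      linarith
    have hc3 : (D0 D).kk ll s' t (1 + r) (Z1 t) w ≤
        (D0 D).kk ll s t (1 + r) (Z1 t) w + 2 * CI * s * |s' - s| := by
      have h1 := hP1 t (1 + r) hj0.le hj le_rfl
      rw [hZ11, C13_Jr h hl.toTG, C13_corr_lv h] at h1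
      have h2 := HCI s s' hs0 (by linarith) hss1 ll hl.toTG t (1 + r) hj (by linarith) (Z1 t) w
        (hquad s hs0 t (1 + r) hj (by linarith) (Z1 t) w _ h1)
      have h3 : 0 ≤ CI * s * |s' - s| := by positivity
      linarith
    obtain ⟨r', h0, h1, h2, h3⟩ := C13_WA h hp hl.toTG (by linarith) (by linarith) hr1 hx hx'
      (C13_Mi hp hMi) hj0 hj.le ha hb (hQ t hj0 hj)
      (fun y T hT => kk_add h hl.toTG (by linarith) hj hT (Z1 t) w y) hc3 hal (fun ht1 => by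
        refine ⟨Z2 1, hy2 (by linarith), ?_⟩
        have h3 := hPP 1 hr1 (by norm_num)
        rwa [hk12] at h3)
    obtain ⟨k', hk', he⟩ := C13_frac hNp h0 h1 h2
    refine ⟨k', hk', Z1 t, ?_, ?_⟩
    · rw [he]
      rcases h2 with h2 | h2
      · rw [h2]
        exact hMi
      · rw [h2]
        exact C13_Mi1 h hMi
    · rw [he]
      linarith
  -- slice in the second leg
  have finB : ∀ j : ℕ, r < (j:ℝ) / N → (j:ℝ) / N < 2 →
      2 * p.ηc ≤ Metric.infDist (Z2 ((j:ℝ) / N) + D.g) (D.Z ((j:ℝ) / N)) →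
      Metric.infDist (Z2 ((j:ℝ) / N) + D.g) (D.Z ((j:ℝ) / N)) ≤ 4 * p.ηc →
      ∃ k' < N, ∃ w' ∈ Mi D p ((k' : ℝ) / N), (D0 D).W p ll s s' ((k' : ℝ) / N) w' ≤
        (D0 D).W p ll s s' r w + (2 * CI + 2 * CA) * s * |s' - s| := by
    intro j hj0 hj hd2 hd4
    set t : ℝ := (j:ℝ) / N with htdef
    set w' : E := Z2 t + D.g with hw'def
    have hww : w' - D.g = Z2 t := by rw [hw'def, add_sub_cancel_right]
    have hwO := C13_out h hp t hd2 hd4
    have hzO : Z2 t ∈ D.Out t (2 * p.ηc) := C13_Out_shift h hwO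
    have hzi := C13_Out_inf hzO
    obtain ⟨N1, N2, P1, P2, hN12⟩ := H1 s' (by linarith) Φ ll hl' r t 2 hj0 hj
      (by linarith) (w - D.g) (Z2 t) x' RB hRBR (by rw [hPP t hj0 hj]; exact hbB)
    obtain ⟨hta, htb⟩ := C13_coreB h hp hε (by linarith) hjc hρ (J1 := J1) (by linarith) hX hMd hτ.le
      hw (HJ1 r hr hr1.le _ hwX') hxd' hj0 hj (by linarith) P1 P2 (by rw [← hRB]; exact hN12)
    have hMi : w' ∈ Mi D p t := by
      refine ⟨⟨hwO, by linarith⟩, ?_⟩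
      show Metric.infDist w' (D.Z t) ≤ 5 * p.ηc
      linarith
    have hc1 : (D0 D).kk ll s' r t (w - D.g) (Z2 t) + (D0 D).kk ll s' t 2 (w' - D.g) x' =
        (D0 D).P ll s' r w x' := by
      rw [hww]
      exact hPP t hj0 hj
    have hc2 : ∀ y T, T < 1 + r → (D0 D).kk ll s T (1 + t) y w' ≤
        (D0 D).kk ll s T (1 + r) y w + (D0 D).kk ll s r t (w - D.g) (Z2 t) := by
      intro y T hT
      have h1 := kk_add h hl.toTG (s := s) (by linarith) hT (t'' := 1 + t) (by linarith) y w w'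
      have h2 := C13_t1 h hl.toTG s r t w w'
      have h3 := C13_g h hl.toTG s r t w (Z2 t)
      rw [← hw'def] at h3
      linarith
    have hc3 : (D0 D).kk ll s r t (w - D.g) (Z2 t) ≤
        (D0 D).kk ll s' r t (w - D.g) (Z2 t) + 2 * CI * s * |s' - s| := by
      have h1 := hP2 r t le_rfl hj0 hj.le
      rw [hZ20] at h1
      have h2 := HCI s' s hs0' (by linarith) (by rwa [abs_sub_comm]) ll hl.toTG r t hj0 (by linarith)
        (w - D.g) (Z2 t) (hquad s' hs0' r t hj0 (by linarith) (w - D.g) (Z2 t) _ h1)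
      rw [abs_sub_comm s s'] at h2
      have h3 : CI * s' * |s' - s| ≤ 2 * CI * s * |s' - s| := by
        refine mul_le_mul_of_nonneg_right ?_ hab
        nlinarith
      linarith
    obtain ⟨r', h0, h1, h2, h3⟩ := C13_WB h hp hl.toTG (by linarith) (by linarith) hr hx hx'
      (C13_Mi hp hMi) hj0 hj ha hb hc1 hc2 hc3 hal (fun ht1 =>
        ⟨Z1 1, hy1 (by linarith), by linarith, hQ 1 one_pos (by linarith)⟩)
    obtain ⟨k', hk', he⟩ := C13_frac hNp h0 h1 h2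
    refine ⟨k', hk', w', ?_, ?_⟩
    · rw [he]
      rcases h2 with h2 | h2
      · rw [h2]
        exact hMi
      · rw [h2]
        exact C13_Mi1 h hMi
    · rw [he]
      linarith
  rcases lt_or_ge (4 * p.ηc) (Metric.infDist w (D.Z r)) with hw4 | hw4
  · -- crossing in the first leg
    obtain ⟨t2, t4, h02, h24, h41, he2, he4, hin⟩ := C13_cross
      (φ := fun t => Metric.infDist (Z1 t) (D.Z t))
      (a := 0) (b := 1 + r) (u := 2 * p.ηc) (v := 4 * p.ηc) (by linarith) (by linarith)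
      (C13_phc h hZ1c) (by
        show Metric.infDist (Z1 0) (D.Z 0) < _
        rw [hZ10]
        linarith) (by
        show _ < Metric.infDist (Z1 (1 + r)) (D.Z (1 + r))
        rw [hZ11, C13_inf h, C13_Z1 h]
        exact hw4)
    have hd := H5 s (by linarith) Φ ll hl t2 t4 h24 (by linarith) (Z1 t2) (Z1 t4) (by linarith)
      (hP1 t2 t4 h02.le h24 h41.le)
    have hd' : 1 ≤ (N:ℝ) * (t4 - t2) := by
      have : kN * s * (t4 - t2) ≤ N * (t4 - t2) := by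
        refine mul_le_mul_of_nonneg_right ?_ (by linarith)
        have : 0 ≤ kN * s := by positivity
        linarith
      linarith
    obtain ⟨j, hj2, hj4⟩ := C13_slice hNp h02.le hd'
    have hin' := hin _ ⟨hj2, hj4⟩
    exact finA j (by linarith) (by linarith) hin'.1 hin'.2
  · rcases lt_or_ge (Metric.infDist w (D.Z r)) (2 * p.ηc) with hw2 | hw2
    · -- crossing in the second leg
      obtain ⟨t2, t4, h02, h24, h41, he2, he4, hin⟩ := C13_cross
        (φ := fun t => Metric.infDist (Z2 t + D.g) (D.Z t))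
        (a := r) (b := 2) (u := 2 * p.ηc) (v := 4 * p.ηc) (by linarith) (by linarith)
        (C13_phc h (hZ2c.add continuousOn_const)) (by
          show Metric.infDist (Z2 r + D.g) (D.Z r) < _
          rw [hZ20, sub_add_cancel]
          exact hw2) (by
          show _ < Metric.infDist (Z2 2 + D.g) (D.Z 2)
          rw [hZ21, add_right_comm, C13_inf h, C13_Z2 h]
          exact C13_end h hp 0 hxd')
      have hd := H5 s' (by linarith) Φ ll hl' t2 t4 h24 (by linarith) (Z2 t2 + D.g) (Z2 t4 + D.g)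
        (by linarith) (by
          rw [kk_Lam h hl.toTG h.g_mem]
          refine (hP2 t2 t4 h02.le h24 h41.le).trans (le_of_eq ?_)
          unfold GT.corr
          rw [bb_Lam h.toOk0 h.g_mem, bb_Lam h.toOk0 h.g_mem])
      have hd' : 1 ≤ (N:ℝ) * (t4 - t2) := by
        have : kN * s' * (t4 - t2) ≤ N * (t4 - t2) := by
          refine mul_le_mul_of_nonneg_right ?_ (by linarith)
          have : kN * s' ≤ kN * (2 * s) := mul_le_mul_of_nonneg_left hss2 hkN.le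
          linarith
        linarith
      obtain ⟨j, hj2, hj4⟩ := C13_slice hNp (by linarith) hd'
      have hin' := hin _ ⟨hj2, hj4⟩
      exact finB j (by linarith) (by linarith) hin'.1 hin'.2
    · -- the gate itself
      refine ⟨k, hk, w, ?_, ?_⟩
      · rw [← hrdef]
        refine ⟨⟨C13_out h hp r hw2 hw4, by linarith⟩, ?_⟩
        show Metric.infDist w (D.Z r) ≤ 5 * p.ηc
        linarith
      · rw [← hrdef]
        have : 0 ≤ (2 * CI + 2 * CA) * s * |s' - s| := by positivity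
        linarith

end EscZa
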