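import Pool.Agent.EscT.TDefs

/-!
Project EscW, part Q (MP_6acca1_an): Lagrangians of general growth, one class at a time, with a weight depending on the
scale. `EscZ.FTa D m L Φ s l`: the action of `l` is known at the speed `s` only, the upper bound with an additional
multiple of `∫ (K F - s)²`; the weight `K = Φ.K` and the flux function `Φ` are arguments (the weight `D.κ` and the field
`L.a` are not used).
-/

noncomputable section

namespace EscZ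

open MeasureTheory Set Filter Topology Esc EscF EscG EscT
open scoped ContDiff

variable {E : Type*} [NormedAddCommGroup E] [InnerProductSpace ℝ E]

/-- a weight and a flux function -/
structure Fx where
  K : ℝ → ℝ
  a : ℝ → ℝ → ℝ

instance : CoeFun Fx (fun _ => ℝ → ℝ → ℝ) := ⟨Fx.a⟩

/-- the flux over a time interval -/
def fl (Φ : Fx) (s t t' : ℝ) : ℝ := ∫ r in t..t', Φ s r

/-- periodic part of the flux -/
def gam (Φ : Fx) (s r : ℝ) : ℝ := fl Φ s 0 r - r * fl Φ s 0 1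

/-- a bounded family of weights -/
structure KB (A : ℝ) (K : ℝ → ℝ) : Prop where
  pos : ∀ t, 1 ≤ A * K t
  le : ∀ t, K t ≤ A
  lip : ∀ t t', |K t - K t'| ≤ A * |t - t'|
  per : ∀ t, K (t + 1) = K t

theorem KB.cont {A : ℝ} {K : ℝ → ℝ} (h : KB A K) : Continuous K := by
  have hl : LipschitzWith (Real.toNNReal A) K := by
    refine LipschitzWith.of_dist_le_mul fun x y => ?_
    have h1 := h.lip x y
    have h2 : A ≤ (Real.toNNReal A : ℝ) := Real.le_coe_toNNReal A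
    rw [Real.dist_eq, Real.dist_eq]
    exact h1.trans (mul_le_mul_of_nonneg_right h2 (abs_nonneg _))
  exact hl.continuous

/-- curves of high speed follow the moving class at small cost, uniformly for the weights in the family -/
def AncK {ι : Type} [Fintype ι] {d : ℕ} (D : GT ι d E) (A : ℝ) : Prop :=
  ∀ ε : ℝ, 0 < ε → ∃ s0 : ℝ, 1 ≤ s0 ∧ ∀ K : ℝ → ℝ, KB A K → ∀ s, s0 ≤ s → ∀ t t', 1 / 32 ≤ t' - t → t' - t ≤ 4 →
    ∃ (u : ℝ → E) (n : Fin d → ℤ), Adm u ∧ traj t (D.q t) u t' = D.q t' + lv D.b n ∧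
      ∫ r in t..t', (K r * D.F (traj t (D.q t) u r) (u r) r - s) ^ 2 ≤ ε * s ∧
      D.exc t t' (D.q t) u ≤ ε

theorem ancK_ex {ι : Type} [Fintype ι] {d : ℕ} (D : GT ι d E) {ε : ℝ} (hε : 0 < ε) :
    ∃ s0 : ℝ, 1 ≤ s0 ∧ ∀ K : ℝ → ℝ, AncK D D.A → KB D.A K → ∀ s, s0 ≤ s → ∀ t t', 1 / 32 ≤ t' - t → t' - t ≤ 4 →
    ∃ (u : ℝ → E) (n : Fin d → ℤ), Adm u ∧ traj t (D.q t) u t' = D.q t' + lv D.b n ∧
      ∫ r in t..t', (K r * D.F (traj t (D.q t) u r) (u r) r - s) ^ 2 ≤ ε * s ∧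
      D.exc t t' (D.q t) u ≤ ε := by
  by_cases hA : AncK D D.A
  · obtain ⟨s0, h1, h2⟩ := hA ε hε
    exact ⟨s0, h1, fun K _ hK => h2 K hK⟩
  · exact ⟨1, le_rfl, fun K h => absurd h hA⟩

/-- Lagrangians whose action at speed `s` is known up to a small multiple of `s` and a multiple of the excess
(from above also a multiple of `∫ (K F - s)²`) -/
structure FTa {ι : Type} [Fintype ι] {d : ℕ} [CompleteSpace E] (D : GT ι d E) (m : ℝ) (L : LP)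
    (Φ : Fx) (s : ℝ) (l : E → E → ℝ → ℝ) : Prop extends TG D.β m L.M l where
  kb : KB D.A Φ.K
  ancK : AncK D D.A
  A_nonneg : 0 ≤ L.A
  a0_pos : 0 < L.a0
  c_nonneg : ∀ ε, 0 ≤ L.c ε
  a_cont : ∀ s, Continuous (Φ s)
  a_per : ∀ s t, Φ s (t + 1) = Φ s t
  a_bd : ∀ s t, 1 ≤ s → |Φ s t| ≤ L.A * s ^ 2
  a_lip : ∀ s s' t, 1 ≤ s → 1 ≤ s' → |Φ s t - Φ s' t| ≤ L.A * (s + s') * |s - s'|
  a_top : ∀ s t, 1 ≤ s → Φ s t ≤ s ^ 2 / 2 * (1 - L.a0) + L.A * s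
  low : ∀ ε : ℝ, 0 < ε → ∀ (z : E) (u : ℝ → E), Adm u → ∀ t t' : ℝ, t ≤ t' → t' ≤ t + 4 →
    fl Φ s t t' - (ε * s + L.c ε * (1 + D.exc t t' z u +
        ∫ r in t..t', |Φ.K r * D.F (traj t z u r) (u r) r - s|)) ≤
      ∫ r in t..t', (l (traj t z u r) (u r) r - Φ.K r * D.F (traj t z u r) (u r) r ^ 2 / 2 -
        s * D.Bt (traj t z u r) r + s ^ 2 / 2 * (1 - (Φ.K r)⁻¹))
  upp : ∀ ε : ℝ, 0 < ε → ∀ (z : E) (u : ℝ → E), Adm u → ∀ t t' : ℝ, t ≤ t' → t' ≤ t + 4 →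
    (∫ r in t..t', (l (traj t z u r) (u r) r - Φ.K r * D.F (traj t z u r) (u r) r ^ 2 / 2 -
        s * D.Bt (traj t z u r) r + s ^ 2 / 2 * (1 - (Φ.K r)⁻¹))) ≤
      fl Φ s t t' + (ε * s + L.c ε * (1 + D.exc t t' z u +
        ∫ r in t..t', |Φ.K r * D.F (traj t z u r) (u r) r - s|)) +
      L.A * ∫ r in t..t', (Φ.K r * D.F (traj t z u r) (u r) r - s) ^ 2

/-- the same for some weight and flux function -/
def FT {ι : Type} [Fintype ι] {d : ℕ} [CompleteSpace E] (D : GT ι d E) (m : ℝ) (L : LP) (s : ℝ)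
    (l : E → E → ℝ → ℝ) : Prop := ∃ Φ : Fx, FTa D m L Φ s l

/-- the action is known at the speeds `s` and `s'`, with the same flux function -/
def FT2 {ι : Type} [Fintype ι] {d : ℕ} [CompleteSpace E] (D : GT ι d E) (m : ℝ) (L : LP) (s s' : ℝ)
    (l : E → E → ℝ → ℝ) : Prop := ∃ Φ : Fx, FTa D m L Φ s l ∧ FTa D m L Φ s' l

/-- the action is known at all speeds near `q` -/
structure FW {ι : Type} [Fintype ι] {d : ℕ} [CompleteSpace E] (D : GT ι d E) (m : ℝ) (L : LP) (q : ℝ)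
    (l : E → E → ℝ → ℝ) : Prop where
  ft : ∀ s, |s - q| ≤ 2 → FT D m L s l
  ft2 : ∀ s s', |s - q| ≤ 2 → |s' - q| ≤ 2 → FT2 D m L s s' l

/-- the action is known at the speed `s`, for the weight `K` -/
def FTk {ι : Type} [Fintype ι] {d : ℕ} [CompleteSpace E] (D : GT ι d E) (m : ℝ) (L : LP) (K : ℝ → ℝ) (s : ℝ)
    (l : E → E → ℝ → ℝ) : Prop := ∃ Φ : Fx, Φ.K = K ∧ FTa D m L Φ s l

/-- the action is known at all speeds near `q`, for the weight `K` -/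
structure FWk {ι : Type} [Fintype ι] {d : ℕ} [CompleteSpace E] (D : GT ι d E) (m : ℝ) (L : LP) (K : ℝ → ℝ) (q : ℝ)
    (l : E → E → ℝ → ℝ) : Prop where
  ft : ∀ s, |s - q| ≤ 2 → FTk D m L K s l
  ft2 : ∀ s s', |s - q| ≤ 2 → |s' - q| ≤ 2 → FT2 D m L s s' l

section FTlem

variable {ι : Type} [Fintype ι] {d : ℕ} [CompleteSpace E] {D : GT ι d E} {m : ℝ} {L : LP} {s s' q : ℝ}
  {l : E → E → ℝ → ℝ} {K : ℝ → ℝ}

theorem FT.toTG (h : FT D m L s l) : TG D.β m L.M l := h.choose_spec.toTG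

theorem FT.m_pos (h : FT D m L s l) : 0 < m := h.toTG.m_pos

theorem FT.M_nonneg (h : FT D m L s l) : 0 ≤ L.M := h.toTG.M_nonneg

theorem FT.A_nonneg (h : FT D m L s l) : 0 ≤ L.A := h.choose_spec.A_nonneg

theorem FT.a0_pos (h : FT D m L s l) : 0 < L.a0 := h.choose_spec.a0_pos

theorem FT.c_nonneg (h : FT D m L s l) (ε : ℝ) : 0 ≤ L.c ε := h.choose_spec.c_nonneg ε

theorem FT2.left (h : FT2 D m L s s' l) : FT D m L s l := ⟨_, h.choose_spec.1⟩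

theorem FT2.right (h : FT2 D m L s s' l) : FT D m L s' l := ⟨_, h.choose_spec.2⟩

theorem FW.mk' {Φ : Fx} (h : ∀ s, |s - q| ≤ 2 → FTa D m L Φ s l) : FW D m L q l where
  ft := fun s hs => ⟨Φ, h s hs⟩
  ft2 := fun s s' hs hs' => ⟨Φ, h s hs, h s' hs'⟩

theorem FTk.toFT (h : FTk D m L K s l) : FT D m L s l := ⟨_, h.choose_spec.2⟩

theorem FWk.toFW (h : FWk D m L K q l) : FW D m L q l where
  ft := fun s hs => (h.ft s hs).toFT
  ft2 := h.ft2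

theorem FWk.mk' {Φ : Fx} (h : ∀ s, |s - q| ≤ 2 → FTa D m L Φ s l) : FWk D m L Φ.K q l where
  ft := fun s hs => ⟨Φ, rfl, h s hs⟩
  ft2 := fun s s' hs hs' => ⟨Φ, h s hs, h s' hs'⟩

end FTlem

variable {ι : Type} [Fintype ι] {d : ℕ} (D : GT ι d E) (p : GP)

/-- Stage of the chain: gates with classes from `a` to `b` -/
def Stage (ll : E → E → ℝ → ℝ) (a b : ℝ) : Prop :=
  ∃ (J : ℕ) (s r : ℕ → ℝ) (F : ℕ → Finset ℕ) (c : ℕ → ℕ → ℝ) (G : ℕ → Set E) (δ : ℝ),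
    0 < J ∧ 0 < δ ∧ s 0 = a ∧ s J = b ∧ (∀ i ≤ J, a ≤ s i ∧ s i ≤ b) ∧
    (∀ i ≤ J, (F i).Nonempty ∧ ∀ T ∈ F i, 1 ≤ T) ∧
    ∀ i < J, 0 ≤ r i ∧ r i < 1 ∧ IsCompact (G i) ∧ (G i).Nonempty ∧ G i ⊆ Md D p (r i) ∧
      ∀ z ∈ frontier (G i), ∃ w ∈ G i, ∀ x ∈ (D0 D).R p, ∀ x' ∈ (D0 D).R p,
        (D0 D).Gm p ll (s i) (F i) (c i) (r i) x w +
            (D0 D).Gp p ll (s (i + 1)) (F (i + 1)) (c (i + 1)) (r i) w x'
            - (s (i + 1) - s i) * (D0 D).B w + δ ≤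
          (D0 D).Gm p ll (s i) (F i) (c i) (r i) x z +
            (D0 D).Gp p ll (s (i + 1)) (F (i + 1)) (c (i + 1)) (r i) z x'
            - (s (i + 1) - s i) * (D0 D).B z

end EscZ
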