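import Pool.Agent.EscW.QDefs2
import Pool.Agent.EscW.QaC8
import Pool.Agent.EscT.C6

/-!
Module PE1a: minimizers of class `s` over pieces of length in `[1, 2]` with bounded end points have
`∫ (κ F - s)² ≤ C s` (helper32).
-/

noncomputable section

namespace EscZ

open MeasureTheory Set Filter Topology Esc EscF EscG EscT
open scoped ContDiff

variable {ι : Type} [Fintype ι] {d : ℕ} {E : Type*} [NormedAddCommGroup E] [InnerProductSpace ℝ E]
  [FiniteDimensional ℝ E] {D : GT ι d E} {p : GP}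

namespace PEa

/-- clamping to an interval -/
def cl (t t' r : ℝ) : ℝ := max t (min r t')

theorem cl_cont (t t' : ℝ) : Continuous (cl t t') := continuous_const.max (continuous_id.min continuous_const)

theorem cl_mem {t t' : ℝ} (h : t ≤ t') (r : ℝ) : cl t t' r ∈ Icc t t' :=
  ⟨le_max_left _ _, max_le h (min_le_right _ _)⟩

theorem cl_eq {t t' r : ℝ} (h : r ∈ Icc t t') : cl t t' r = r := by
  unfold cl
  rw [min_eq_left h.2, max_eq_right h.1]

/-- a curve with continuous velocity as a controlled curve -/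
theorem ctl {t t' : ℝ} (h : t ≤ t') {Z v : ℝ → E} (hZ : ContinuousOn Z (Icc t t'))
    (hv : ContinuousOn v (Icc t t')) (hZv : ∀ r ∈ Ioo t t', HasDerivAt Z (v r) r) :
    ∃ u : ℝ → E, Adm u ∧ (∀ r ∈ Icc t t', u r = v r) ∧ ∀ r ∈ Icc t t', traj t (Z t) u r = Z r := by
  have hc : Continuous fun r => v (cl t t' r) :=
    hv.comp_continuous (cl_cont t t') fun r => cl_mem h r
  obtain ⟨C, hC⟩ := isCompact_Icc.exists_bound_of_continuousOn hv
  have e : ∀ r ∈ Icc t t', v (cl t t' r) = v r := fun r hr => by rw [cl_eq hr]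
  refine ⟨fun r => v (cl t t' r), ⟨hc.stronglyMeasurable, C, fun r => hC _ (cl_mem h r)⟩, e,
    fun r hr => ?_⟩
  have h1 : (∫ q in t..r, v (cl t t' q)) = Z r - Z t := by
    refine intervalIntegral.integral_eq_sub_of_hasDerivAt_of_le hr.1
      (hZ.mono (Icc_subset_Icc le_rfl hr.2)) (fun q hq => ?_) (hc.intervalIntegrable _ _)
    have hq' : q ∈ Ioo t t' := ⟨hq.1, hq.2.trans_le hr.2⟩
    have h2 := hZv q hq'
    rw [← e q (Ioo_subset_Icc_self hq')] at h2
    exact h2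
  unfold traj
  rw [h1, add_sub_cancel]

theorem meas (h : D.Ok) (p : GP) (m : ℝ) (L : LP) : ∃ C s0 : ℝ, 0 ≤ C ∧ 1 ≤ s0 ∧ ∀ s, s0 ≤ s → ∀ (Φ : Fx) l,
    FTa D m L Φ s l → ∀ t t', 1 ≤ t' - t → t' - t ≤ 2 → ∀ Z v : ℝ → E, ContinuousOn Z (Icc t t') →
    ContinuousOn v (Icc t t') → (∀ r ∈ Ioo t t', HasDerivAt Z (v r) r) → Xp D p (Z t) (Z t') →
    (D0 D).kk l s t t' (Z t) (Z t') = (∫ r in t..t', l (Z r) (v r) r) -
      s * ((D0 D).B (Z t') - (D0 D).B (Z t)) + s ^ 2 / 2 * (t' - t) →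
    (∫ r in t..t', (Φ.K r * D.F (Z r) (v r) r - s) ^ 2) ≤ C * s := by
  have hA := h.A_pos
  obtain ⟨C1, s1, hC1, hs1, h1⟩ := EscZa.kk_lin h m L p.ρ
  obtain ⟨s2, hs2, h2⟩ := EscZa.cst_low h m L (ε := 1 / 2) (by norm_num)
  obtain ⟨Cb, hCb0, hCb, -, -⟩ := EscZa.bb_bd h.toOk0
  refine ⟨4 * D.A * (C1 + 1 / 2 + 2 * Cb), max s1 s2, by positivity, hs1.trans (le_max_left _ _), ?_⟩
  rintro s hs Φ l hl t t' ht1 ht2 Z v hZ hv hZv ⟨a, ha, hx, hx'⟩ hkk
  have hss1 := (le_max_left s1 s2).trans hs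
  have hss2 := (le_max_right s1 s2).trans hs
  have hsp : 0 ≤ s := by linarith
  have htt : t ≤ t' := by linarith
  obtain ⟨u, hu, huv, htr⟩ := ctl htt hZ hv hZv
  have k1 := h1 s hss1 Φ l hl t t' (by linarith) (by linarith) _ hx _ hx'
  rw [EscT.kk_Lam h hl.toTG ha] at k1
  have k2 := h2 s hss2 Φ l hl (Z t) u hu t t' htt (by linarith)
  have e1 : ∀ G : E → E → ℝ → ℝ, (∫ r in t..t', G (traj t (Z t) u r) (u r) r) =
      ∫ r in t..t', G (Z r) (v r) r := fun G => by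
    refine intervalIntegral.integral_congr fun r hr => ?_
    rw [uIcc_of_le htt] at hr
    show G (traj t (Z t) u r) (u r) r = G (Z r) (v r) r
    rw [htr r hr, huv r hr]
  have e2 : (D0 D).cst l s t t' (Z t) u = (D0 D).kk l s t t' (Z t) (Z t') := by
    rw [hkk]
    show (∫ r in t..t', l (traj t (Z t) u r) (u r) r) -
      s * ((D0 D).B (traj t (Z t) u t') - (D0 D).B (Z t)) + s ^ 2 / 2 * (t' - t) = _
    rw [e1 l, htr t' (right_mem_Icc.2 htt)]
  have e3 := e1 fun x w r => (Φ.K r * D.F x w r - s) ^ 2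
  rw [e2, e3, htr t' (right_mem_Icc.2 htt)] at k2
  have hex := EscT.exc_nonneg h.toOk0 htt (Z t) hu
  have hex' : 0 ≤ s * D.exc t t' (Z t) u := mul_nonneg hsp hex
  have hco : |D.corr s t t' (Z t) (Z t')| ≤ 2 * Cb * s := by
    unfold GT.corr
    rw [abs_mul, abs_of_nonneg hsp]
    have e1 := abs_le.1 (hCb t' (Z t'))
    have e2 := abs_le.1 (hCb t (Z t))
    have e3 : |D.bb t' (Z t') - D.bb t (Z t)| ≤ 2 * Cb := by
      rw [abs_le]
      constructor
      · linarith [e1.1, e2.2]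
      · linarith [e1.2, e2.1]
    have e4 := mul_le_mul_of_nonneg_left e3 hsp
    linarith
  have hco' := (abs_le.1 hco).1
  have k1' := (abs_le.1 k1).2
  have h3 : (∫ r in t..t', (Φ.K r * D.F (Z r) (v r) r - s) ^ 2) / (4 * D.A) ≤
      (C1 + 1 / 2 + 2 * Cb) * s := by linarith
  rw [div_le_iff₀ (by positivity)] at h3
  linarith

end PEa

end EscZ
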