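import Pool.Agent.EscW.QE1b
import Pool.Agent.EscT.C1

/-!
Module PE1c: from a bound of `∫ (κ F - s)²` and the energy estimate to a pointwise bound of the speed.
-/

noncomputable section

namespace EscZ

open MeasureTheory Set Filter Topology Esc EscF EscG EscT
open scoped ContDiff

variable {ι : Type} [Fintype ι] {d : ℕ} {E : Type*} [NormedAddCommGroup E] [InnerProductSpace ℝ E]
  [FiniteDimensional ℝ E] {D : GT ι d E} {p : GP} {m M Mf : ℝ} {L : LP} {l0 l1 ll l : E → E → ℝ → ℝ}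
  {f f' : E → ℝ → ℝ}

namespace PEc

/-- the final inequality for real numbers -/
theorem alg {w0 W w w' g g' s c P Q R k b θ Ld η : ℝ} (hw0 : 0 < w0) (hw : w0 ≤ w) (hw'0 : 0 ≤ w') (hw' : w' ≤ W)
    (hΔ : |w' - w| ≤ Ld) (hg : 0 ≤ g) (hs : 1 ≤ s) (hc : 0 ≤ c) (hy : (g' - s) ^ 2 ≤ c * s)
    (hg' : 0 ≤ g') (hk : 0 ≤ k) (hb : 0 ≤ b) (hθ : 0 < θ) (hP : 0 ≤ P) (hQ : 0 ≤ Q)
    (hE : |w * g ^ 2 - w' * g' ^ 2| ≤ P + Q * s + R * s ^ 2 + k * (1 + b * g + b * g'))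
    (h1 : 2 * (k * b) ≤ w0 * s) (h2 : R + W * θ + Ld ≤ w0 * η / 4)
    (h3 : P + Q + 2 * (k * b) + k * b * c + W * (c / θ) + W * c + k + k * b ≤ w0 * η / 4 * s) :
    |g - s| ≤ η * s := by
  have hW : 0 ≤ W := hw'0.trans hw'
  have hs0 : 0 < s := by linarith
  set y := |g' - s| with hyd
  have hy0 : 0 ≤ y := abs_nonneg _
  have hy2 : y ^ 2 ≤ c * s := by rw [hyd, sq_abs]; exact hy
  have hgy : g' ≤ s + y := by have := le_abs_self (g' - s); rw [hyd]; linarith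
  -- `|g'² - s²| ≤ θ s² + c s / θ + c s`
  have e1 : |g' ^ 2 - s ^ 2| ≤ y * (2 * s + y) := by
    have : g' ^ 2 - s ^ 2 = (g' - s) * (g' + s) := by ring
    rw [this, abs_mul, abs_of_nonneg (show 0 ≤ g' + s by linarith)]
    exact mul_le_mul_of_nonneg_left (by linarith) hy0
  have e2 : 2 * s * y ≤ θ * s ^ 2 + c / θ * s := by
    have : 0 ≤ (θ * s - y) ^ 2 / θ := by positivity
    have h4 : (θ * s - y) ^ 2 / θ = θ * s ^ 2 - 2 * s * y + y ^ 2 / θ := by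
      field_simp
      ring
    have h5 : y ^ 2 / θ ≤ c / θ * s := by
      rw [div_mul_eq_mul_div]
      exact div_le_div_of_nonneg_right hy2 hθ.le
    linarith
  have e3 : |g' ^ 2 - s ^ 2| ≤ θ * s ^ 2 + c / θ * s + c * s := by nlinarith
  -- `w0 |g - s| s ≤ ...`
  have e4 : w * (g ^ 2 - s ^ 2) = (w * g ^ 2 - w' * g' ^ 2) + w' * (g' ^ 2 - s ^ 2) + (w' - w) * s ^ 2 := by ring
  have e5 : w * |g ^ 2 - s ^ 2| ≤ |w * g ^ 2 - w' * g' ^ 2| + w' * |g' ^ 2 - s ^ 2| + Ld * s ^ 2 := by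
    have hwp : 0 < w := by linarith
    calc w * |g ^ 2 - s ^ 2| = |w * (g ^ 2 - s ^ 2)| := by rw [abs_mul, abs_of_pos hwp]
      _ ≤ |w * g ^ 2 - w' * g' ^ 2| + |w' * (g' ^ 2 - s ^ 2)| + |(w' - w) * s ^ 2| := by
        rw [e4]; exact (abs_add_le _ _).trans (add_le_add (abs_add_le _ _) le_rfl)
      _ ≤ _ := by
        rw [abs_mul w', abs_of_nonneg hw'0, abs_mul, abs_of_nonneg (sq_nonneg s)]
        have := mul_le_mul_of_nonneg_right hΔ (sq_nonneg s)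
        linarith
  have e6 : |g - s| * s ≤ |g ^ 2 - s ^ 2| := by
    have : g ^ 2 - s ^ 2 = (g - s) * (g + s) := by ring
    rw [this, abs_mul, abs_of_nonneg (show 0 ≤ g + s by linarith)]
    exact mul_le_mul_of_nonneg_left (by linarith) (abs_nonneg _)
  have e7 : w0 * (|g - s| * s) ≤ w * |g ^ 2 - s ^ 2| :=
    mul_le_mul hw e6 (by positivity) (by linarith)
  have e8 : w' * |g' ^ 2 - s ^ 2| ≤ W * (θ * s ^ 2 + c / θ * s + c * s) :=
    mul_le_mul hw' e3 (abs_nonneg _) hW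
  have hgs : g ≤ s + |g - s| := by have := le_abs_self (g - s); linarith
  have hy1 : y ≤ 1 + c * s := by nlinarith
  have e9 : k * (1 + b * g + b * g') ≤ k + k * b * (s + |g - s|) + k * b * (s + (1 + c * s)) := by
    have a1 : b * g ≤ b * (s + |g - s|) := mul_le_mul_of_nonneg_left hgs hb
    have a2 : b * g' ≤ b * (s + (1 + c * s)) := mul_le_mul_of_nonneg_left (by linarith) hb
    have a3 := mul_le_mul_of_nonneg_left (add_le_add a1 a2) hk
    have a4 : k * (1 + b * g + b * g') = k + k * (b * g + b * g') := by ring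
    have a5 : k * (b * (s + |g - s|) + b * (s + (1 + c * s))) =
        k * b * (s + |g - s|) + k * b * (s + (1 + c * s)) := by ring
    linarith
  have e10 : k * b * |g - s| ≤ w0 / 2 * (|g - s| * s) := by
    have := mul_le_mul_of_nonneg_right h1 (abs_nonneg (g - s))
    have a1 : 2 * (k * b) * |g - s| = 2 * (k * b * |g - s|) := by ring
    have a2 : w0 * s * |g - s| = 2 * (w0 / 2 * (|g - s| * s)) := by ring
    linarith
  have e11 := mul_le_mul_of_nonneg_right h2 (sq_nonneg s)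
  have e12 := mul_le_mul_of_nonneg_right h3 hs0.le
  have e13 : P ≤ P * s := by nlinarith
  have e14 : k ≤ k * s := by nlinarith
  have e15 : k * b ≤ k * b * s := by nlinarith [mul_nonneg hk hb]
  obtain ⟨x, hx⟩ : ∃ x, x = |g - s| := ⟨_, rfl⟩
  rw [← hx] at e7 e9 e10 ⊢
  have a1 : w0 * (x * s) ≤ P + Q * s + R * s ^ 2 + (k + k * b * (s + x) + k * b * (s + (1 + c * s))) +
      W * (θ * s ^ 2 + c / θ * s + c * s) + Ld * s ^ 2 := by linarith
  have a2 : k + k * b * (s + x) + k * b * (s + (1 + c * s)) =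
      k + k * b * x + 2 * (k * b) * s + k * b + k * b * c * s := by ring
  have a3 : W * (θ * s ^ 2 + c / θ * s + c * s) = W * θ * s ^ 2 + W * (c / θ) * s + W * c * s := by ring
  have a4 : (R + W * θ + Ld) * s ^ 2 = R * s ^ 2 + W * θ * s ^ 2 + Ld * s ^ 2 := by ring
  have a5 : (P + Q + 2 * (k * b) + k * b * c + W * (c / θ) + W * c + k + k * b) * s =
      P * s + Q * s + 2 * (k * b) * s + k * b * c * s + W * (c / θ) * s + W * c * s + k * s + k * b * s := by ring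
  have a6 : w0 * (x * s) = 2 * (w0 / 2 * (x * s)) := by ring
  have a7 : w0 * η / 4 * s * s + w0 * η / 4 * s ^ 2 = w0 / 2 * (η * s * s) := by ring
  have e16 : w0 / 2 * (x * s) ≤ w0 / 2 * (η * s * s) := by linarith
  have e17 : x * s ≤ η * s * s := le_of_mul_le_mul_left e16 (by positivity)
  exact le_of_mul_le_mul_right e17 hs0

/-- the weight `κ / Kw²`, uniformly in `Kw` -/
theorem wt (h : D.Ok) {κ : ℝ → ℝ} {Cκ : ℝ} (hκ : ∀ t, 1 ≤ Cκ * κ t)
    (hκ' : ∀ t, κ t ≤ Cκ) (hκl : ∀ t t', |κ t - κ t'| ≤ Cκ * |t - t'|) :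
    ∃ w0 W Lw : ℝ, 0 < w0 ∧ 0 ≤ W ∧ 0 ≤ Lw ∧ ∀ Kw : ℝ → ℝ, KB D.A Kw → (∀ t, w0 ≤ κ t * (Kw t)⁻¹ ^ 2) ∧
      (∀ t, κ t * (Kw t)⁻¹ ^ 2 ≤ W) ∧
      ∀ t t', |κ t * (Kw t)⁻¹ ^ 2 - κ t' * (Kw t')⁻¹ ^ 2| ≤ Lw * |t - t'| := by
  have hA := h.A_pos
  have hC0 : 0 ≤ Cκ := by
    have := (abs_nonneg _).trans (hκl 0 1)
    simpa using this
  have hC : 0 < Cκ := by
    rcases hC0.eq_or_lt with h0 | h0
    · have := hκ 0
      rw [← h0] at this
      linarith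
    · exact h0
  have hk0 : ∀ t, 0 < κ t := fun t => by
    by_contra hn
    push Not at hn
    have := hκ t
    nlinarith
  have hk1 : ∀ t, Cκ⁻¹ ≤ κ t := fun t => by
    rw [inv_le_iff_one_le_mul₀' hC]
    exact hκ t
  refine ⟨Cκ⁻¹ * D.A⁻¹ ^ 2, Cκ * D.A ^ 2, Cκ * D.A ^ 2 + 2 * Cκ * D.A ^ 4, by positivity, by positivity, by positivity,
    fun Kw hKw => ?_⟩
  have hd0 : ∀ t, 0 < Kw t := fun t => by
    by_contra hn
    push Not at hn
    have := hKw.pos t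
    nlinarith
  have hi0 : ∀ t, 0 < (Kw t)⁻¹ := fun t => inv_pos.2 (hd0 t)
  have hi1 : ∀ t, (Kw t)⁻¹ ≤ D.A := fun t => by
    rw [inv_le_iff_one_le_mul₀ (hd0 t)]
    exact hKw.pos t
  have hi2 : ∀ t, D.A⁻¹ ≤ (Kw t)⁻¹ := fun t => inv_anti₀ (hd0 t) (hKw.le t)
  have hi3 : ∀ t t', |(Kw t)⁻¹ - (Kw t')⁻¹| ≤ D.A ^ 3 * |t - t'| := fun t t' => by
    have e1 : (Kw t)⁻¹ - (Kw t')⁻¹ = (Kw t' - Kw t) * ((Kw t)⁻¹ * (Kw t')⁻¹) := by
      have := (hd0 t).ne'
      have := (hd0 t').ne'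
      field_simp
    rw [e1, abs_mul, abs_of_nonneg (show 0 ≤ (Kw t)⁻¹ * (Kw t')⁻¹ by
      have := hi0 t
      have := hi0 t'
      positivity)]
    have e2 := hKw.lip t' t
    rw [abs_sub_comm t' t] at e2
    calc |Kw t' - Kw t| * ((Kw t)⁻¹ * (Kw t')⁻¹) ≤ (D.A * |t - t'|) * (D.A * D.A) :=
          mul_le_mul e2 (mul_le_mul (hi1 t) (hi1 t') (hi0 t').le hA.le)
            (mul_nonneg (hi0 t).le (hi0 t').le) (by positivity)
      _ = D.A ^ 3 * |t - t'| := by ring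
  refine ⟨fun t => ?_, fun t => ?_, fun t t' => ?_⟩
  · exact mul_le_mul (hk1 t) (pow_le_pow_left₀ (by positivity) (hi2 t) 2) (by positivity) (hk0 t).le
  · exact mul_le_mul (hκ' t) (pow_le_pow_left₀ (hi0 t).le (hi1 t) 2) (by positivity) hC.le
  · have e1 : κ t * (Kw t)⁻¹ ^ 2 - κ t' * (Kw t')⁻¹ ^ 2 =
        (κ t - κ t') * (Kw t)⁻¹ ^ 2 + κ t' * (((Kw t)⁻¹ - (Kw t')⁻¹) * ((Kw t)⁻¹ + (Kw t')⁻¹)) := by ring
    rw [e1]
    have a1 := hi0 t
    have a2 := hi0 t'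
    calc |(κ t - κ t') * (Kw t)⁻¹ ^ 2 + κ t' * (((Kw t)⁻¹ - (Kw t')⁻¹) * ((Kw t)⁻¹ + (Kw t')⁻¹))|
        ≤ |κ t - κ t'| * (Kw t)⁻¹ ^ 2 + κ t' * (|(Kw t)⁻¹ - (Kw t')⁻¹| * ((Kw t)⁻¹ + (Kw t')⁻¹)) := by
          refine (abs_add_le _ _).trans (add_le_add ?_ ?_)
          · rw [abs_mul, abs_of_nonneg (by positivity : 0 ≤ (Kw t)⁻¹ ^ 2)]
          · rw [abs_mul, abs_of_pos (hk0 t'), abs_mul, abs_of_nonneg (by positivity : 0 ≤ (Kw t)⁻¹ + (Kw t')⁻¹)]
      _ ≤ (Cκ * |t - t'|) * D.A ^ 2 + Cκ * ((D.A ^ 3 * |t - t'|) * (D.A + D.A)) := by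
          refine add_le_add (mul_le_mul (hκl t t') (pow_le_pow_left₀ a1.le (hi1 t) 2) (by positivity) (by positivity)) ?_
          refine mul_le_mul (hκ' t') (mul_le_mul (hi3 t t') (add_le_add (hi1 t) (hi1 t')) (by positivity) (by positivity))
            (mul_nonneg (abs_nonneg _) (by positivity)) hC.le
      _ = (Cκ * D.A ^ 2 + 2 * Cκ * D.A ^ 4) * |t - t'| := by ring

/-- the pointwise bound of the speed -/
theorem fin (h : D.Ok) (m : ℝ) (L : LP) {κ : ℝ → ℝ} {Cκ : ℝ} (hκ : ∀ t, 1 ≤ Cκ * κ t)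
    (hκ' : ∀ t, κ t ≤ Cκ) (hκl : ∀ t t', |κ t - κ t'| ≤ Cκ * |t - t'|) (K C0 : ℝ) {η : ℝ} (hη : 0 < η) :
    ∃ s0 : ℝ, 1 ≤ s0 ∧ ∀ s, s0 ≤ s → ∀ Kw : ℝ → ℝ, KB D.A Kw → ∀ l, TG D.β m L.M l → En D κ K l →
      ∀ t t', 1 ≤ t' - t → t' - t ≤ 2 →
      ∀ Z v : ℝ → E, ContinuousOn Z (Icc t t') → ContinuousOn v (Icc t t') →
      (∀ r ∈ Ioo t t', HasDerivAt Z (v r) r) →
      (∀ r ∈ Ioo t t', HasDerivAt (fun r => gu l (Z r) (v r) r) (gx l (Z r) (v r) r) r) →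
      (∫ r in t..t', (Kw r * D.F (Z r) (v r) r - s) ^ 2) ≤ C0 * s →
      ∀ r ∈ Icc t t', |Kw r * D.F (Z r) (v r) r - s| ≤ η * s := by
  obtain ⟨w0, W, Lw, hw0, hW, hLw, hw⟩ := wt (D := D) h hκ hκ' hκl
  have hA := h.A_pos
  have hfin := (h.fr0 0).fins
  have hmF : 0 < D.mF := hfin.mF_pos
  set b : ℝ := D.A / D.mF with hbd
  have hb : 0 ≤ b := by positivity
  set k : ℝ := |K| with hkd
  have hk : 0 ≤ k := abs_nonneg K
  set C1 : ℝ := |C0| + 1 with hC1d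
  have hC1 : 0 < C1 := by positivity
  set M' : ℝ := |L.M| with hM'd
  have hM' : 0 ≤ M' := abs_nonneg _
  obtain ⟨δ, hδ, hδ1, hδ2⟩ : ∃ δ : ℝ, 0 < δ ∧ δ ≤ 1 ∧ δ * (2 * k * M' * b ^ 2 + Lw) ≤ w0 * η / 8 := by
    have hX : 0 < 2 * k * M' * b ^ 2 + Lw + 1 := by positivity
    refine ⟨min 1 (w0 * η / 8 / (2 * k * M' * b ^ 2 + Lw + 1)), by positivity, min_le_left _ _, ?_⟩
    calc min 1 (w0 * η / 8 / (2 * k * M' * b ^ 2 + Lw + 1)) * (2 * k * M' * b ^ 2 + Lw)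
        ≤ (w0 * η / 8 / (2 * k * M' * b ^ 2 + Lw + 1)) * (2 * k * M' * b ^ 2 + Lw + 1) :=
          mul_le_mul (min_le_right _ _) (by linarith) (by positivity) (by positivity)
      _ = w0 * η / 8 := by field_simp
  obtain ⟨θ, hθ, hθ1⟩ : ∃ θ : ℝ, 0 < θ ∧ W * θ ≤ w0 * η / 8 := by
    refine ⟨w0 * η / 8 / (W + 1), by positivity, ?_⟩
    calc W * (w0 * η / 8 / (W + 1)) ≤ (W + 1) * (w0 * η / 8 / (W + 1)) :=
          mul_le_mul_of_nonneg_right (by linarith) (by positivity)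
      _ = w0 * η / 8 := by field_simp
  set c : ℝ := C1 / δ with hcd
  have hc : 0 ≤ c := by positivity
  set P : ℝ := k * M' * δ with hPd
  set Q : ℝ := k * M' * (2 * b ^ 2 * C1) with hQd
  set R : ℝ := k * M' * (2 * b ^ 2 * δ) with hRd
  set S : ℝ := P + Q + 2 * (k * b) + k * b * c + W * (c / θ) + W * c + k + k * b with hSd
  have hP : 0 ≤ P := by positivity
  have hQ : 0 ≤ Q := by positivity
  have hS : 0 ≤ S := by positivity
  refine ⟨max 1 (max (2 * (k * b) / w0) (S / (w0 * η / 4))), le_max_left _ _, ?_⟩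
  intro s hs Kw hKw l hl hEn t t' ht ht' Z v hZ hv hZv hE hI r hr
  obtain ⟨w1, w2, w3⟩ := hw Kw hKw
  have hs1 : 1 ≤ s := (le_max_left _ _).trans hs
  have hs2 : 2 * (k * b) / w0 ≤ s := ((le_max_left _ _).trans (le_max_right _ _)).trans hs
  have hs3 : S / (w0 * η / 4) ≤ s := ((le_max_right _ _).trans (le_max_right _ _)).trans hs
  rw [div_le_iff₀ hw0] at hs2
  rw [div_le_iff₀ (by positivity)] at hs3
  have hs0 : 0 < s := by linarith
  -- the speed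
  obtain ⟨G, hG⟩ : ∃ G : ℝ → ℝ, G = fun r => Kw r * D.F (Z r) (v r) r := ⟨_, rfl⟩
  have hGr : ∀ r, Kw r * D.F (Z r) (v r) r = G r := fun r => by rw [hG]
  have hd0 : ∀ t, 0 < Kw t := fun t => by
    by_contra hn
    push Not at hn
    have := hKw.pos t
    nlinarith
  have hF0 : ∀ x v t, 0 ≤ D.F x v t := fun x v t =>
    (mul_nonneg hmF.le (norm_nonneg v)).trans ((h.fr0 t).fins.low x v)
  have hG0 : ∀ r, 0 ≤ G r := fun r => by
    rw [← hGr]; exact mul_nonneg (hd0 r).le (hF0 _ _ _)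
  have hFG : ∀ r, D.F (Z r) (v r) r = (Kw r)⁻¹ * G r := fun r => by
    rw [← hGr]
    have := (hd0 r).ne'
    field_simp
  have hvG : ∀ r, ‖v r‖ ≤ b * G r := fun r => by
    have e1 : D.mF * ‖v r‖ ≤ D.F (Z r) (v r) r := (h.fr0 r).fins.low (Z r) (v r)
    have e2 : (Kw r)⁻¹ ≤ D.A := by
      rw [inv_le_iff_one_le_mul₀ (hd0 r)]
      exact hKw.pos r
    rw [hFG r] at e1
    have e3 : (Kw r)⁻¹ * G r ≤ D.A * G r := mul_le_mul_of_nonneg_right e2 (hG0 r)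
    rw [hbd, div_mul_eq_mul_div, le_div_iff₀ hmF]
    linarith
  have hGc : ContinuousOn G (Icc t t') := by
    rw [hG]
    refine hKw.cont.continuousOn.mul ?_
    have hc3 : ContinuousOn (fun r => ((Z r, v r, r) : E × E × ℝ)) (Icc t t') :=
      hZ.prodMk (hv.prodMk continuousOn_id)
    exact h.F_cont.comp_continuousOn hc3
  simp only [hGr] at hI ⊢
  -- the interval of length `δ`
  obtain ⟨a, ha1, ha2, ha3, ha4⟩ : ∃ a : ℝ, t ≤ a ∧ a + δ ≤ t' ∧ a ≤ r ∧ r ≤ a + δ := by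
    refine ⟨min r (t' - δ), le_min hr.1 (by linarith), ?_, min_le_left _ _, ?_⟩
    · have := min_le_right r (t' - δ)
      linarith
    · rcases le_total r (t' - δ) with h1 | h1
      · rw [min_eq_left h1]; linarith
      · rw [min_eq_right h1]; linarith [hr.2]
  have hsub : Icc a (a + δ) ⊆ Icc t t' := Icc_subset_Icc ha1 ha2
  have hGq : ContinuousOn (fun r => (G r - s) ^ 2) (Icc t t') := (hGc.sub continuousOn_const).pow 2
  have hii : ∀ x y, x ∈ Icc t t' → y ∈ Icc t t' → IntervalIntegrable (fun r => (G r - s) ^ 2) volume x y := by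
    intro x y hx hy
    apply ContinuousOn.intervalIntegrable
    refine hGq.mono ?_
    rcases le_total x y with h1 | h1
    · rw [uIcc_of_le h1]; exact Icc_subset_Icc hx.1 hy.2
    · rw [uIcc_of_ge h1]; exact Icc_subset_Icc hy.1 hx.2
  have hat : a ∈ Icc t t' := ⟨ha1, by linarith⟩
  have hat' : a + δ ∈ Icc t t' := ⟨by linarith, ha2⟩
  have htt : t ∈ Icc t t' := ⟨le_rfl, by linarith⟩
  have htt' : t' ∈ Icc t t' := ⟨by linarith, le_rfl⟩
  have hI2 : ∫ r in a..(a + δ), (G r - s) ^ 2 ≤ C1 * s := by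
    have e1 := intervalIntegral.integral_mono_interval (f := fun r => (G r - s) ^ 2) (μ := volume) ha1
      (by linarith : a ≤ a + δ) ha2 (Eventually.of_forall fun r => sq_nonneg _) (hii t t' htt htt')
    have e2 : C0 * s ≤ C1 * s := by
      apply mul_le_mul_of_nonneg_right _ hs0.le
      rw [hC1d]
      linarith [le_abs_self C0]
    exact e1.trans (hI.trans e2)
  -- a point with small deviation
  obtain ⟨r', hr', hy⟩ : ∃ r' ∈ Icc a (a + δ), (G r' - s) ^ 2 ≤ c * s := by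
    by_contra hn
    push Not at hn
    obtain ⟨q, hq, hqm⟩ := isCompact_Icc.exists_isMinOn (nonempty_Icc.2 (by linarith : a ≤ a + δ)) (hGq.mono hsub)
    have e1 : (G q - s) ^ 2 * δ ≤ ∫ r in a..(a + δ), (G r - s) ^ 2 := by
      have e2 := intervalIntegral.integral_mono_on (μ := volume) (f := fun _ => (G q - s) ^ 2)
        (g := fun r => (G r - s) ^ 2) (by linarith : a ≤ a + δ) (by simp) (hii a (a + δ) hat hat')
        (fun x hx => hqm hx)
      rw [intervalIntegral.integral_const, smul_eq_mul] at e2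
      linarith
    have e3 := mul_lt_mul_of_pos_right (hn q hq) hδ
    have e4 : c * s * δ = C1 * s := by rw [hcd]; field_simp
    linarith
  have hrI : r ∈ Icc a (a + δ) := ⟨ha3, ha4⟩
  have hrr : |r' - r| ≤ δ := by
    rw [abs_le]
    constructor <;> linarith [hr'.1, hr'.2]
  -- energy
  have hvc : ContinuousOn (fun r => (1 + ‖v r‖ ^ 2)) (Icc t t') := continuousOn_const.add (hv.norm.pow 2)
  have hen : |en l (Z r) (v r) r - en l (Z r') (v r') r'| ≤ M' * (δ + 2 * b ^ 2 * (C1 * s) + 2 * b ^ 2 * δ * s ^ 2) := by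
    have e0 : ∀ x y, a ≤ x → x ≤ y → y ≤ a + δ →
        |en l (Z y) (v y) y - en l (Z x) (v x) x| ≤ M' * (δ + 2 * b ^ 2 * (C1 * s) + 2 * b ^ 2 * δ * s ^ 2) := by
      intro x y hx hxy hy
      have e1 := PEb.en_int hl hZ hv hZv hE (ha1.trans hx) hxy (hy.trans ha2)
      have e2 : ∫ r in x..y, (1 + ‖v r‖ ^ 2) ≤ ∫ r in a..(a + δ), (1 + ‖v r‖ ^ 2) := by
        apply intervalIntegral.integral_mono_interval (μ := volume) hx hxy hy
          (Eventually.of_forall fun r => by positivity)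
        apply ContinuousOn.intervalIntegrable
        rw [uIcc_of_le (by linarith)]
        exact hvc.mono hsub
      have e3 : ∫ r in a..(a + δ), (1 + ‖v r‖ ^ 2) ≤
          ∫ r in a..(a + δ), ((1 + 2 * b ^ 2 * s ^ 2) + 2 * b ^ 2 * (G r - s) ^ 2) := by
        apply intervalIntegral.integral_mono_on (by linarith)
        · apply ContinuousOn.intervalIntegrable
          rw [uIcc_of_le (by linarith)]
          exact hvc.mono hsub
        · exact intervalIntegrable_const.add ((hii a (a + δ) hat hat').const_mul _)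
        · intro q _
          have f1 : ‖v q‖ ^ 2 ≤ (b * G q) ^ 2 := pow_le_pow_left₀ (norm_nonneg _) (hvG q) 2
          have f2 : (b * G q) ^ 2 = b ^ 2 * G q ^ 2 := by ring
          have f3 : G q ^ 2 ≤ 2 * s ^ 2 + 2 * (G q - s) ^ 2 := by nlinarith [sq_nonneg (G q - 2 * s)]
          have f4 := mul_le_mul_of_nonneg_left f3 (sq_nonneg b)
          linarith
      rw [intervalIntegral.integral_add intervalIntegrable_const ((hii a (a + δ) hat hat').const_mul _),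
        intervalIntegral.integral_const, intervalIntegral.integral_const_mul, smul_eq_mul] at e3
      have e4 : 2 * b ^ 2 * ∫ r in a..(a + δ), (G r - s) ^ 2 ≤ 2 * b ^ 2 * (C1 * s) :=
        mul_le_mul_of_nonneg_left hI2 (by positivity)
      have e5 : ∫ r in x..y, (1 + ‖v r‖ ^ 2) ≤ δ + 2 * b ^ 2 * (C1 * s) + 2 * b ^ 2 * δ * s ^ 2 := by
        have : (a + δ - a) * (1 + 2 * b ^ 2 * s ^ 2) = δ + 2 * b ^ 2 * δ * s ^ 2 := by ring
        linarith
      have e6 : 0 ≤ ∫ r in x..y, (1 + ‖v r‖ ^ 2) :=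
        intervalIntegral.integral_nonneg hxy fun q _ => by positivity
      calc |en l (Z y) (v y) y - en l (Z x) (v x) x| ≤ L.M * ∫ r in x..y, (1 + ‖v r‖ ^ 2) := e1
        _ ≤ M' * ∫ r in x..y, (1 + ‖v r‖ ^ 2) := mul_le_mul_of_nonneg_right (le_abs_self _) e6
        _ ≤ _ := mul_le_mul_of_nonneg_left e5 hM'
    rcases le_total r r' with h1 | h1
    · rw [abs_sub_comm]
      exact e0 r r' ha3 h1 hr'.2
    · exact e0 r' r hr'.1 h1 ha4
  have hEn1 := hEn (Z r) (v r) r (Z r') (v r') r'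
  have hE2 : |κ r * (Kw r)⁻¹ ^ 2 * G r ^ 2 - κ r' * (Kw r')⁻¹ ^ 2 * G r' ^ 2| ≤
      P + Q * s + R * s ^ 2 + k * (1 + b * G r + b * G r') := by
    have f1 : κ r * (Kw r)⁻¹ ^ 2 * G r ^ 2 = κ r * D.F (Z r) (v r) r ^ 2 := by rw [hFG r]; ring
    have f2 : κ r' * (Kw r')⁻¹ ^ 2 * G r' ^ 2 = κ r' * D.F (Z r') (v r') r' ^ 2 := by rw [hFG r']; ring
    rw [f1, f2]
    refine hEn1.trans ?_
    have g1 : K * |en l (Z r) (v r) r - en l (Z r') (v r') r'| ≤
        k * (M' * (δ + 2 * b ^ 2 * (C1 * s) + 2 * b ^ 2 * δ * s ^ 2)) :=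
      mul_le_mul (le_abs_self K) hen (abs_nonneg _) hk
    have g2 : K * (1 + ‖v r‖ + ‖v r'‖) ≤ k * (1 + b * G r + b * G r') :=
      mul_le_mul (le_abs_self K) (by linarith [hvG r, hvG r']) (by positivity) hk
    have g3 : k * (M' * (δ + 2 * b ^ 2 * (C1 * s) + 2 * b ^ 2 * δ * s ^ 2)) = P + Q * s + R * s ^ 2 := by
      rw [hPd, hQd, hRd]; ring
    linarith
  refine alg (w := κ r * (Kw r)⁻¹ ^ 2) (w' := κ r' * (Kw r')⁻¹ ^ 2) (g' := G r') (Ld := Lw * δ) hw0 (w1 r)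
    (hw0.le.trans (w1 r')) (w2 r') ((w3 r' r).trans (mul_le_mul_of_nonneg_left hrr hLw)) (hG0 r) hs1 hc hy (hG0 r') hk hb hθ
    hP hQ hE2 (by linarith) ?_ (by linarith)
  have : R + Lw * δ = δ * (2 * k * M' * b ^ 2 + Lw) := by rw [hRd]; ring
  linarith

end PEc

end EscZ
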