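import Pool.Agent.EscW.QDefs2
import Pool.Agent.EscW.QC6b
import Pool.Agent.EscW.QaC8
import Pool.Agent.EscT.A2b
import Pool.Agent.EscT.C1
import Pool.Agent.EscW.QE1a
import Pool.Agent.EscW.QE1c

/-!
Module QE1 (weight `K = Φ.K`): speeds of minimizers. Let `Z, v` be as in `Win`, of class `s`, `l` with `FTa D m L Φ s l` and `En D κ K l`. Translate by a
vector of `D.Lam` (`l` is periodic) so that both end points are in `X p.ρ`. `cst` of the curve equals `kk ≤ fl + C s` (EscZa.kk_lin,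
`|corr| ≤ C s` for points of `X p.ρ`); `EscZa.cst_low` (ε = 1/2) gives `∫ (K F - s)² ≤ C s`. Energy: `d/dr en l (Z r) (v r) r = - ∂_t l`,
`|∂_t l| ≤ M (1 + ‖v‖²)` (TG.l_t), so `|en(r) - en(r')| ≤ M ∫ (1 + ‖v‖²) ≤ C (s² δ + s)` for `|r - r'| ≤ δ` (`‖v‖ ≤ F/mF ≤ D.A (K F)/mF`).
Every interval of length `δ` contains `r'` with `|K F - s|² ≤ C s/δ`. `En` gives `|κ(r) F(r)² - κ(r') F(r')²| ≤ C (s² δ + s + ‖v(r)‖ + ‖v(r')‖)`;
`κ`, `K` are Lipschitz and bounded below: choose `δ` small, then `s0` large.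
(The energy along an Euler-Lagrange curve: `gu l (Z r) (v r) r` is differentiable, `v` only continuous; for `r < r'` use the convexity
inequalities of `l` at `v r`, `v r'`, or strong convexity + `C^2`: `v` is Lipschitz (`Geo.lip` in A2b) ...; see the A-modules.)
-/

noncomputable section

namespace EscZ

open MeasureTheory Set Filter Topology Esc EscF EscG EscT
open scoped ContDiff

variable {ι : Type} [Fintype ι] {d : ℕ} {E : Type*} [NormedAddCommGroup E] [InnerProductSpace ℝ E]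
  [FiniteDimensional ℝ E] {D : GT ι d E} {p : GP} {m M Mf : ℝ} {L : LP} {l0 l1 ll l : E → E → ℝ → ℝ}
  {f f' : E → ℝ → ℝ}

theorem window (h : D.Ok) (hp : POk D p) (m : ℝ) (L : LP) {κ : ℝ → ℝ} {Cκ : ℝ} (hκ : ∀ t, 1 ≤ Cκ * κ t)
    (hκ' : ∀ t, κ t ≤ Cκ) (hκl : ∀ t t', |κ t - κ t'| ≤ Cκ * |t - t'|) (K : ℝ) {η : ℝ} (hη : 0 < η) :
    ∃ s0 : ℝ, 1 ≤ s0 ∧ ∀ s, s0 ≤ s → ∀ (W : ℝ → ℝ) l, FTk D m L W s l → En D κ K l →
      Win D p l s (fun x v t => |W t * D.F x v t - s| ≤ η * s) := by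
  obtain ⟨C0, s1, _, hs1, h1⟩ := PEa.meas h p m L
  obtain ⟨s2, hs2, h2⟩ := PEc.fin h m L hκ hκ' hκl K C0 hη
  refine ⟨max s1 s2, hs1.trans (le_max_left _ _), ?_⟩
  rintro s hs W l ⟨Φ, rfl, hl⟩ hE t t' ht1 ht2 Z v hZ hv hZv hEL hX hkk
  exact h2 s ((le_max_right _ _).trans hs) Φ.K hl.kb l hl.toTG hE t t' ht1 ht2 Z v hZ hv hZv hEL
    (h1 s ((le_max_left _ _).trans hs) Φ l hl t t' ht1 ht2 Z v hZ hv hZv hX hkk)

end EscZ
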