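import Pool.Agent.EscW.QDefs
import Pool.Agent.EscW.QC6b
import Pool.Agent.EscW.QC9
import Pool.Agent.EscT.F5a

/-!
Project EscW, part P, module PF5a: adaptation of EscT/F5a.lean.
-/

set_option linter.unusedSectionVars false
set_option linter.unusedVariables false

noncomputable section

namespace EscZ

open MeasureTheory Set Filter Topology Esc EscF EscG EscT
open scoped ContDiff

variable {ι : Type} [Fintype ι] {d : ℕ} {E : Type*} [NormedAddCommGroup E] [InnerProductSpace ℝ E]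
  [FiniteDimensional ℝ E] {D : GT ι d E} {p : GP} {m M Mf : ℝ} {L : LP} {ll l : E → E → ℝ → ℝ}
  {f f' : E → ℝ → ℝ}

/-- room kernels are not changed by bumps outside of the rooms -/
theorem room_inv (h : D.Ok) (hp : POk D p) (m : ℝ) (L : LP) : ∃ s0 : ℝ, 1 ≤ s0 ∧ ∀ s, s0 ≤ s → ∀ l,
    FT D m L s l → ∀ l', FT D m L s l' → (∀ x u t, l x u t ≤ l' x u t) →
    (∀ x t, x ∉ D.Out t (p.ηc / 2) → ∀ u, l' x u t = l x u t) → ∀ x ∈ (D0 D).R p, ∀ x' ∈ (D0 D).R p,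
    (D0 D).k1 l' s x x' = (D0 D).k1 l s x x' := by
  obtain ⟨s0, hs0, H⟩ := v1 h hp m L
  refine ⟨s0, hs0, fun s hs l hl l' hl' hle heq x hx x' hx' => ?_⟩
  have hs' : 0 ≤ s := by linarith
  refine le_antisymm ?_ (K_mono (h.fr0 0).li hl.toTG hl'.toTG (QB0 h.toOk0 0) hle hs' zero_lt_one x x')
  obtain ⟨V, -, HV⟩ := kk_geo h hl.toTG (Mf := 0) le_rfl s p.ρ
  obtain ⟨n, Z, v, hZ0, hZ1, hG, hkk⟩ := HV (fun _ _ => 0) (F5a.pt_zero D.β) F5a.good_zero s hs' le_rfl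
    0 1 (by norm_num) (by norm_num) x (F5a.R_X hp hx) x' (F5a.R_X hp hx')
  rw [F5a.lf_zero] at hG hkk
  have hc := F5a.geo_cont hl.toTG hG
  have hii : ∀ a b : ℝ, 0 ≤ a → a ≤ b → b ≤ 1 →
      IntervalIntegrable (fun r => l (Z r) (v r) r) volume a b := fun a b ha hab hb =>
    (hc.mono (by rw [uIcc_of_le hab]; exact Icc_subset_Icc ha hb)).intervalIntegrable
  have hJ : ∀ t : ℝ, ∀ y : E, (D0 D).kk l s t 1 y (Z 1) = (D0 D).kk l s t 1 y x' := by
    intro t y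
    have h1 := kk_J h hl.toTG s t 1 y x' 0 n
    rw [F5a.lv_zero, add_zero] at h1
    rw [hZ1, h1]
  have hk1 : (D0 D).k1 l s x x' = (D0 D).cv l s 0 1 Z v := by
    rw [← hkk 0 1 le_rfl zero_lt_one le_rfl, hJ, hZ0]
    rfl
  have hout : ∀ t, 0 < t → t < 1 → Z t ∉ D.Out t (p.ηc / 2) := by
    intro t ht ht1 hmem
    have h1 := H s hs l hl x hx x' hx' t ht ht1 (Z t) hmem
    have h2 := hkk 0 t le_rfl ht ht1.le
    have h3 := hkk t 1 ht.le ht1 le_rfl
    rw [hZ0] at h2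
    rw [hJ] at h3
    rw [h2, h3, hk1] at h1
    have h4 : (D0 D).cv l s 0 t Z v + (D0 D).cv l s t 1 Z v = (D0 D).cv l s 0 1 Z v := by
      unfold GD.cv
      rw [← intervalIntegral.integral_add_adjacent_intervals (hii 0 t le_rfl ht.le ht1.le)
        (hii t 1 ht.le ht1.le le_rfl)]
      ring
    linarith
  have hcv : (D0 D).cv l' s 0 1 Z v = (D0 D).cv l s 0 1 Z v := by
    unfold GD.cv
    congr 2
    refine intervalIntegral.integral_congr_ae ?_
    have h1 : ∀ᵐ r : ℝ ∂volume, r ≠ 1 := by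
      simp [ae_iff]
    filter_upwards [h1] with r hr1 hr
    rw [uIoc_of_le zero_le_one] at hr
    exact heq (Z r) r (hout r hr.1 (lt_of_le_of_ne hr.2 hr1)) (v r)
  obtain ⟨C, hC⟩ := hG.lip
  have h5 : (D0 D).kk l' s 0 1 (Z 0) x' ≤ (D0 D).cv l' s 0 1 Z v :=
    kk_le_cv h hl'.toTG hs' zero_lt_one (C := C) (fun r hr r' hr' => hC r hr r' hr')
      (fun r hr r' hr' => hG.pos r hr r' hr') n hZ1
  rw [hZ0, hcv, ← hk1] at h5
  exact h5

/-- `W` is monotone under such bumps -/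
theorem W_mono (h : D.Ok) (hp : POk D p) (m : ℝ) (L : LP) (Mf : ℝ) : ∃ s0 : ℝ, 1 ≤ s0 ∧
    ∀ s s', s0 ≤ s → s0 ≤ s' → ∀ l, FT D m L s l → FT D m L s' l → ∀ f f', Pt D.β f → Good Mf f → Pt D.β f' → Good Mf f' →
    (∀ x t, f x t ≤ f' x t) → (∀ x t, x ∉ D.Out t (p.ηc / 2) → f' x t = f x t) →
    ∀ r, 0 ≤ r → r ≤ 1 → ∀ w ∈ Md D p r, (D0 D).W p (lf l f) s s' r w ≤ (D0 D).W p (lf l f') s s' r w := by
  obtain ⟨s0, hs0, H⟩ := room_inv (D := D) (p := p) h hp m (L + Mf)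
  refine ⟨s0, hs0, fun s s' hs hs' l hl hl' f f' hf hg hf' hg' hle heq r hr hr1 w hw => ?_⟩
  have hs0' : 0 ≤ s := by linarith
  have hs1' : 0 ≤ s' := by linarith
  have hT : FT D m (L + Mf) s (lf l f) := FT.add h.toOk0 hl hf hg
  have hT' : FT D m (L + Mf) s (lf l f') := FT.add h.toOk0 hl hf' hg'
  have hTs : FT D m (L + Mf) s' (lf l f) := FT.add h.toOk0 hl' hf hg
  have hTs' : FT D m (L + Mf) s' (lf l f') := FT.add h.toOk0 hl' hf' hg'
  have hw' := F5a.Md_Mg hp hw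
  have hinv : ∀ s, s0 ≤ s → FT D m (L + Mf) s (lf l f) → FT D m (L + Mf) s (lf l f') →
      ∀ x ∈ (D0 D).R p, ∀ x' ∈ (D0 D).R p,
      (D0 D).k1 (lf l f') s x x' = (D0 D).k1 (lf l f) s x x' := by
    intro s hs hT hT'
    refine H s hs (lf l f) hT (lf l f') hT' (fun x u t => ?_) (fun x t hx u => ?_)
    · have := hle x t
      unfold lf
      linarith
    · unfold lf
      rw [heq x t hx]
  have hq := q_R (D := D) h hp
  have h1 : (D0 D).alpha p (lf l f) s r w ≤ (D0 D).alpha p (lf l f') s r w := by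
    obtain ⟨x, hx, hxe⟩ := alpha_att h hp hT'.toTG hs0' hr hr1 hw'
    have hx' : x ∈ (D0 D).R p := C_sub hx
    obtain ⟨hal, hbar⟩ := bar_inv h hp (hinv s hs hT hT')
    have h2 := alpha_le h hp hT.toTG hs0' hr hr1 hw' hx'
    have h3 : (D0 D).Q (lf l f) s r x w ≤ (D0 D).Q (lf l f') s r x w :=
      kk_mono h hl.toTG hf hg hf' hg' hle hs0' (by linarith) x w
    rw [hxe, hal, hbar _ hq _ hx']
    linarith
  have h2 : (D0 D).beta p (lf l f) s' r w ≤ (D0 D).beta p (lf l f') s' r w := by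
    obtain ⟨x, hx, hxe⟩ := beta_att h hp hT'.toTG hs1' hr hr1 hw'
    have hx' : x ∈ (D0 D).R p := C_sub hx
    obtain ⟨hal, hbar⟩ := bar_inv h hp (hinv s' hs' hTs hTs')
    have h2 := beta_le h hp hT.toTG hs1' hr hr1 hw' hx'
    have h3 : (D0 D).P (lf l f) s' r w x ≤ (D0 D).P (lf l f') s' r w x :=
      kk_mono h hl.toTG hf hg hf' hg' hle hs1' (by linarith) (w - D.g) x
    rw [hxe, hal, hbar _ hx' _ hq]
    linarith
  exact add_le_add h1 h2

end EscZ
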