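import Pool.Agent.EscW.QDefs
import Pool.Agent.EscW.QC6b
import Pool.Agent.EscW.QF5a
import Pool.Agent.EscW.QF5b
import Pool.Agent.EscT.F6m2

/-!
Project EscW, part P, module PF6m2: adaptation of EscT/F6m2.lean (the counting argument).
-/

set_option linter.unusedSectionVars false
set_option linter.unusedVariables false

noncomputable section

namespace EscZ

open MeasureTheory Set Filter Topology Esc EscF EscG EscT
open scoped ContDiff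

variable {ι : Type} [Fintype ι] {d : ℕ} {E : Type*} [NormedAddCommGroup E] [InnerProductSpace ℝ E]
  [FiniteDimensional ℝ E] {D : GT ι d E} {p : GP} {m M Mf : ℝ} {L : LP} {ll l : E → E → ℝ → ℝ}
  {f f' : E → ℝ → ℝ}

/-! module PF6m2: adaptation of EscT/F6m2.lean (which is imported: F6B, F6I, F6F, F6_Q and its FT-free lemmas can be used) -/

/-- monotonicity, growth and independence of `W`, with uniform constants -/
structure F6H (D : GT ι d E) (p : GP) (l : E → E → ℝ → ℝ) (M1 s0 S V : ℝ) : Prop where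
  V_pos : 0 < V
  s0_ge : 1 ≤ s0
  mono : ∀ s s', s0 ≤ s → s0 ≤ s' → s ≤ S → s' ≤ S → ∀ f f', Pt D.β f → Good M1 f → Pt D.β f' → Good M1 f' →
    (∀ x t, f x t ≤ f' x t) → (∀ x t, x ∉ D.Out t (p.ηc / 2) → f' x t = f x t) →
    ∀ r, 0 ≤ r → r ≤ 1 → ∀ w ∈ Md D p r, (D0 D).W p (lf l f) s s' r w ≤ (D0 D).W p (lf l f') s s' r w
  slope : ∀ s s', s0 ≤ s → s0 ≤ s' → s ≤ S → s' ≤ S →
    ∀ f f', Pt D.β f → Good M1 f → Pt D.β f' → Good M1 f' →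
    (∀ x t, f x t ≤ f' x t) → (∀ x t, x ∉ D.Out t (p.ηc / 2) → f' x t = f x t) →
    ∀ r, 0 ≤ r → r ≤ 1 → ∀ w ∈ Md D p r, ∀ a κ : ℝ, 0 ≤ a → a ≤ 1 / 4 → 0 ≤ κ →
    (∀ x t, ‖x - w‖ ≤ V * a → |t - r| ≤ a → f x t + κ ≤ f' x t) →
    (D0 D).W p (lf l f) s s' r w + 2 * a * κ ≤ (D0 D).W p (lf l f') s s' r w
  indep : ∀ s s', s0 ≤ s → s0 ≤ s' → s ≤ S → s' ≤ S →
    ∀ f, Pt D.β f → Good M1 f → ∀ r, 0 ≤ r → r ≤ 1 → ∀ w ∈ Md D p r, ∃ Z1 Z2 : ℝ → E,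
    (∀ t ∈ Icc (0:ℝ) (1 + r), ∀ t' ∈ Icc (0:ℝ) (1 + r), ‖Z1 t - Z1 t'‖ ≤ V * |t - t'|) ∧
    (∀ t ∈ Icc r 2, ∀ t' ∈ Icc r 2, ‖Z2 t - Z2 t'‖ ≤ V * |t - t'|) ∧
    ∀ f', Pt D.β f' → Good M1 f' → (∀ x t, f x t ≤ f' x t) →
      (∀ x t, x ∉ D.Out t (p.ηc / 2) → f' x t = f x t) →
      (∀ t ∈ Icc (0:ℝ) (1 + r), f' (Z1 t) t = f (Z1 t) t) → (∀ t ∈ Icc r 2, f' (Z2 t) t = f (Z2 t) t) →
      (D0 D).W p (lf l f') s s' r w ≤ (D0 D).W p (lf l f) s s' r w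

theorem F6_H (h : D.Ok) (hp : POk D p) (m : ℝ) (L : LP) (M1 : ℝ) :
    ∃ s0 : ℝ, 1 ≤ s0 ∧ ∀ q : ℝ, s0 ≤ q → ∀ l, FW D m L q l → ∃ V : ℝ, F6H D p l M1 q (q + 1) V := by
  obtain ⟨sa, hsa, ha⟩ := W_mono h hp m L M1
  obtain ⟨sb, hsb, hb⟩ := W_slope h hp m L M1
  obtain ⟨sc, hsc, hc⟩ := W_indep h hp m L M1
  have l1 : sa ≤ max sa (max sb sc) := le_max_left _ _
  have l2 : sb ≤ max sa (max sb sc) := (le_max_left _ _).trans (le_max_right _ _)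
  have l3 : sc ≤ max sa (max sb sc) := (le_max_right _ _).trans (le_max_right _ _)
  refine ⟨max sa (max sb sc), hsa.trans l1, fun q hq l hW => ?_⟩
  have hFT : ∀ s, q ≤ s → s ≤ q + 1 → FT D m L s l := by
    intro s h1 h2
    exact hW.ft s (abs_le.2 ⟨by linarith, by linarith⟩)
  have hTG : TG D.β m L.M l := (hFT q le_rfl (by linarith)).toTG
  have m1 := l1.trans hq
  have m2 := l2.trans hq
  have m3 := l3.trans hq
  obtain ⟨V1, hV1, hb'⟩ := hb (q + 1) l hTG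
  obtain ⟨V2, hV2, hc'⟩ := hc (q + 1) l hTG
  refine ⟨max V1 V2, lt_max_of_lt_left hV1, hsa.trans m1, ?_, ?_, ?_⟩
  · intro s s' hs hs' hS hS' f f' hf hg hf' hg' hle hout r hr hr1 w hw
    exact ha s s' (m1.trans hs) (m1.trans hs') l (hFT s hs hS) (hFT s' hs' hS') f f' hf hg hf' hg'
      hle hout r hr hr1 w hw
  · intro s s' hs hs' hS hS' f f' hf hg hf' hg' hle hout r hr hr1 w hw a κ ha0 ha1 hκ hb
    refine hb' s s' (m2.trans hs) (m2.trans hs') hS hS' (hFT s hs hS) (hFT s' hs' hS') f f' hf hg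
      hf' hg' hle hout r hr hr1 w hw a κ ha0 ha1 hκ fun x t hx ht => hb x t (hx.trans ?_) ht
    exact mul_le_mul_of_nonneg_right (le_max_left _ _) ha0
  · intro s s' hs hs' hS hS' f hf hg r hr hr1 w hw
    obtain ⟨Z1, Z2, h1, h2, h3⟩ := hc' s s' (m3.trans hs) (m3.trans hs') hS hS' (hFT s hs hS)
      (hFT s' hs' hS') f hf hg r hr hr1 w hw
    refine ⟨Z1, Z2, fun t ht t' ht' => (h1 t ht t' ht').trans ?_,
      fun t ht t' ht' => (h2 t ht t' ht').trans ?_, h3⟩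
    · exact mul_le_mul_of_nonneg_right (le_max_right _ _) (abs_nonneg _)
    · exact mul_le_mul_of_nonneg_right (le_max_right _ _) (abs_nonneg _)

/-- the counting argument applied to the cells -/
theorem F6_sigma (h : D.Ok) (hp : POk D p) (hl : TG D.β m M l) {M1 s0 S V : ℝ}
    (H : F6H D p l M1 s0 S V) {Nn mult : ℕ} {Cn : Fin Nn → Finset E} {ρ wb : ℝ} {g : E → E → ℝ}
    {G : Finset (E ≃ₗᵢ[ℝ] E)} {θ : Fin Nn → ℝ → ℝ} (hB : F6B D p G Cn ρ wb mult g θ) (hVw : V * (2 * wb) ≤ ρ)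
    {f : E → ℝ → ℝ} {A : ℝ} (hA : 0 < A)
    (hF : ∀ σ : F6I Cn → ℝ, (∀ q, 0 ≤ σ q ∧ σ q ≤ A) →
      Pt D.β (F6F f g θ σ) ∧ Good M1 (F6F f g θ σ)) {J Lc : ℕ} (s : ℕ → ℝ)
    (hs : ∀ i ≤ J, s0 ≤ s i ∧ s i ≤ S) (hLc : 0 < Lc) {η : ℝ} (hη : 0 ≤ η)
    (hstep : 2 * η < wb * (A / Lc))
    (hcount : J * (Fintype.card (F6I Cn)) ^ 3 < (Lc + 1) ^ 2) :
    ∃ σ : F6I Cn → ℝ, (∀ q, 0 ≤ σ q ∧ σ q ≤ A) ∧ ∀ i < J, ∀ μ : ℝ,
      (∀ k : Fin Nn, ∀ w ∈ Md D p ((k : ℕ) / Nn),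
        μ ≤ (D0 D).W p (lf l (F6F f g θ σ)) (s i) (s (i + 1)) ((k : ℕ) / Nn) w) →
      ∀ T : Finset (F6I Cn), (∀ q ∈ T, ∃ w ∈ F6_Q D p ((q.1 : ℕ) / Nn) ρ q.2.1,
        (D0 D).W p (lf l (F6F f g θ σ)) (s i) (s (i + 1)) ((q.1 : ℕ) / Nn) w ≤ μ + η) →
      T.card ≤ 2 * (2 * (2 * (3 * Nn * mult)) + 1) := by
  classical
  set step : ℝ := A / Lc with hstepdef
  have hLc' : (0:ℝ) < Lc := by exact_mod_cast hLc
  have hsp : 0 < step := div_pos hA hLc'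
  have hNn : (0:ℝ) < Nn := by exact_mod_cast hB.Nn_pos
  set sg : (F6I Cn → Fin (Lc + 1)) → F6I Cn → ℝ :=
    fun σ q => ((σ q : ℕ) : ℝ) * step with hsg
  have halw : ∀ σ q, 0 ≤ sg σ q ∧ sg σ q ≤ A := by
    intro σ q
    refine ⟨by positivity, ?_⟩
    have h1 : ((σ q : ℕ) : ℝ) ≤ Lc := by exact_mod_cast Nat.lt_succ_iff.1 (σ q).2
    calc ((σ q : ℕ) : ℝ) * step ≤ Lc * step := mul_le_mul_of_nonneg_right h1 hsp.le
      _ = A := by rw [hstepdef]; field_simp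
  have hsgmono : ∀ σ σ' : F6I Cn → Fin (Lc + 1), σ ≤ σ' → sg σ ≤ sg σ' := by
    intro σ σ' hle q
    have h1 : ((σ q : ℕ) : ℝ) ≤ ((σ' q : ℕ) : ℝ) := by exact_mod_cast hle q
    exact mul_le_mul_of_nonneg_right h1 hsp.le
  have hr0 : ∀ k : Fin Nn, (0:ℝ) ≤ ((k : ℕ) : ℝ) / Nn := fun k => by positivity
  have hr1 : ∀ k : Fin Nn, ((k : ℕ) : ℝ) / Nn ≤ 1 := fun k => by
    rw [div_le_one hNn]
    exact_mod_cast k.2.le
  have hs0 : ∀ i ≤ J, 0 ≤ s i := fun i hi => by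
    have := (hs i hi).1
    have := H.s0_ge
    linarith
  have hsi : ∀ i : Fin J, s0 ≤ s i ∧ s i ≤ S := fun i => hs i i.2.le
  have hsi' : ∀ i : Fin J, s0 ≤ s (i + 1) ∧ s (i + 1) ≤ S := fun i => hs (i + 1) i.2
  -- minimizers in the cells
  have hmin : ∀ (i : Fin J) (σ : F6I Cn → Fin (Lc + 1)) (q : F6I Cn),
      ∃ w ∈ F6_Q D p ((q.1 : ℕ) / Nn) ρ q.2.1, ∀ z ∈ F6_Q D p ((q.1 : ℕ) / Nn) ρ q.2.1,
        (D0 D).W p (lf l (F6F f g θ (sg σ))) (s i) (s (i + 1)) ((q.1 : ℕ) / Nn) w ≤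
        (D0 D).W p (lf l (F6F f g θ (sg σ))) (s i) (s (i + 1)) ((q.1 : ℕ) / Nn) z := by
    intro i σ q
    have hFσ := hF (sg σ) (halw σ)
    refine F6_min h hp ⟨q.2.1, hB.Cn_M _ _ q.2.2, 0, D.Lam.zero_mem, ?_⟩
      (W_cont h hp hl hFσ.1 hFσ.2 (hs0 _ i.2.le) (hs0 _ i.2) (hr0 _) (hr1 _))
      (fun w n => W_J h (hl.add hFσ.1 hFσ.2) w n)
    rw [add_zero, sub_self, norm_zero]
    exact hB.ρ_pos.le
  choose zc hzc hzcmin using hmin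
  -- optimal curves
  have hcur : ∀ (i : Fin J) (σ : F6I Cn → Fin (Lc + 1)) (q : F6I Cn),
      ∃ Z1 Z2 : ℝ → E,
    (∀ t ∈ Icc (0:ℝ) (1 + ((q.1 : ℕ) / Nn : ℝ)), ∀ t' ∈ Icc (0:ℝ) (1 + ((q.1 : ℕ) / Nn : ℝ)),
      ‖Z1 t - Z1 t'‖ ≤ V * |t - t'|) ∧
    (∀ t ∈ Icc ((q.1 : ℕ) / Nn : ℝ) 2, ∀ t' ∈ Icc ((q.1 : ℕ) / Nn : ℝ) 2,
      ‖Z2 t - Z2 t'‖ ≤ V * |t - t'|) ∧
    ∀ f', Pt D.β f' → Good M1 f' → (∀ x t, F6F f g θ (sg σ) x t ≤ f' x t) →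
      (∀ x t, x ∉ D.Out t (p.ηc / 2) → f' x t = F6F f g θ (sg σ) x t) →
      (∀ t ∈ Icc (0:ℝ) (1 + ((q.1 : ℕ) / Nn : ℝ)), f' (Z1 t) t = F6F f g θ (sg σ) (Z1 t) t) →
      (∀ t ∈ Icc ((q.1 : ℕ) / Nn : ℝ) 2, f' (Z2 t) t = F6F f g θ (sg σ) (Z2 t) t) →
      (D0 D).W p (lf l f') (s i) (s (i + 1)) ((q.1 : ℕ) / Nn) (zc i σ q) ≤
        (D0 D).W p (lf l (F6F f g θ (sg σ))) (s i) (s (i + 1)) ((q.1 : ℕ) / Nn) (zc i σ q) := by
    intro i σ q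
    have hFσ := hF (sg σ) (halw σ)
    exact H.indep (s i) (s (i + 1)) (hsi i).1 (hsi' i).1 (hsi i).2 (hsi' i).2 _ hFσ.1 hFσ.2 _
      (hr0 _) (hr1 _) _ (hzc i σ q).1
  choose Z1 Z2 hZ1 hZ2 hind using hcur
  set W : Fin J → (F6I Cn → Fin (Lc + 1)) → F6I Cn → ℝ :=
    fun i σ q => (D0 D).W p (lf l (F6F f g θ (sg σ))) (s i) (s (i + 1)) ((q.1 : ℕ) / Nn) (zc i σ q) with hW
  set v1 : Fin J → (F6I Cn → Fin (Lc + 1)) → F6I Cn →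
      Finset (F6I Cn) := fun i σ q => Finset.univ.filter fun q' =>
    ∃ t ∈ Icc (0:ℝ) (1 + ((q.1 : ℕ) / Nn : ℝ)), g q'.2.1 (Z1 i σ q t) * θ q'.1 t ≠ 0 with hv1
  set v2 : Fin J → (F6I Cn → Fin (Lc + 1)) → F6I Cn →
      Finset (F6I Cn) := fun i σ q => Finset.univ.filter fun q' =>
    ∃ t ∈ Icc ((q.1 : ℕ) / Nn : ℝ) 2, g q'.2.1 (Z2 i σ q t) * θ q'.1 t ≠ 0 with hv2
  have hcard : ∀ i σ q, (v1 i σ q ∪ v2 i σ q).card ≤ 2 * (3 * Nn * mult) := by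
    intro i σ q
    have c1 : (v1 i σ q).card ≤ 3 * Nn * mult :=
      F6_seen hB hVw H.V_pos.le le_rfl (by linarith [hr1 q.1]) (hZ1 i σ q) _ fun q' hq' =>
        (Finset.mem_filter.1 hq').2
    have c2 : (v2 i σ q).card ≤ 3 * Nn * mult :=
      F6_seen hB hVw H.V_pos.le (hr0 q.1) le_rfl (hZ2 i σ q) _ fun q' hq' =>
        (Finset.mem_filter.1 hq').2
    have := Finset.card_union_le (v1 i σ q) (v2 i σ q)
    omega
  have hmono : ∀ i σ σ' q, σ ≤ σ' → W i σ q ≤ W i σ' q := by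
    intro i σ σ' q hle
    have hFσ := hF (sg σ) (halw σ)
    have hFσ' := hF (sg σ') (halw σ')
    exact (hzcmin i σ q _ (hzc i σ' q)).trans
      (H.mono (s i) (s (i + 1)) (hsi i).1 (hsi' i).1 (hsi i).2 (hsi' i).2 _ _ hFσ.1 hFσ.2 hFσ'.1 hFσ'.2
        (F6_mono hB (hsgmono _ _ hle)) (fun x t hx => F6_out h hB _ _ hx) _ (hr0 _) (hr1 _) _
        (hzc i σ' q).1)
  have hslope : ∀ i σ σ' q, σ ≤ σ' →
      W i σ q + (((σ' q : ℕ) : ℝ) - ((σ q : ℕ) : ℝ)) * (wb * step) ≤ W i σ' q := by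
    intro i σ σ' q hle
    have hFσ := hF (sg σ) (halw σ)
    have hFσ' := hF (sg σ') (halw σ')
    have hwb := hB.wb_pos
    have hwb' := hB.wb_lt
    have h1 := H.slope (s i) (s (i + 1)) (hsi i).1 (hsi' i).1 (hsi i).2 (hsi' i).2 _ _ hFσ.1 hFσ.2
      hFσ'.1 hFσ'.2 (F6_mono hB (hsgmono _ _ hle)) (fun x t hx => F6_out h hB _ _ hx)
      ((q.1 : ℕ) / Nn) (hr0 _) (hr1 _) (zc i σ' q) (hzc i σ' q).1 (wb / 2) (sg σ' q - sg σ q)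
      (by linarith) (by linarith) (sub_nonneg.2 (hsgmono _ _ hle q)) (fun x t hx ht => by
        refine F6_grow hB (hsgmono _ _ hle) q ?_ ht
        obtain ⟨v, hv, hvz⟩ := (hzc i σ' q).2
        refine ⟨v, hv, ?_⟩
        have h2 : x + v - q.2.1 = (x - zc i σ' q) + (zc i σ' q + v - q.2) := by abel
        rw [h2]
        refine (norm_add_le _ _).trans ?_
        have h3 : V * (wb / 2) ≤ ρ := by
          refine le_trans ?_ hVw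
          exact mul_le_mul_of_nonneg_left (by linarith) H.V_pos.le
        linarith)
    have h2 := hzcmin i σ q _ (hzc i σ' q)
    have h3 : (((σ' q : ℕ) : ℝ) - ((σ q : ℕ) : ℝ)) * (wb * step) =
        2 * (wb / 2) * (sg σ' q - sg σ q) := by
      simp only [hsg]
      ring
    rw [h3]
    simp only [hW]
    linarith
  have hindep : ∀ i σ σ' q, σ ≤ σ' → (∀ q' ∈ v1 i σ q ∪ v2 i σ q, σ q' = σ' q') →
      W i σ' q ≤ W i σ q := by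
    intro i σ σ' q hle hag
    have hFσ' := hF (sg σ') (halw σ')
    have hsame : ∀ (x : E) (t : ℝ),
        (∀ q', g q'.2.1 x * θ q'.1 t ≠ 0 → sg σ' q' = sg σ q') →
        F6F f g θ (sg σ') x t = F6F f g θ (sg σ) x t := by
      intro x t hq
      unfold F6F
      congr 1
      refine Finset.sum_congr rfl fun q' _ => ?_
      by_cases hz : g q'.2.1 x * θ q'.1 t = 0
      · rw [hz, mul_zero, mul_zero]
      · rw [hq q' hz]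
    refine (hzcmin i σ' q _ (hzc i σ q)).trans (hind i σ q _ hFσ'.1 hFσ'.2
      (F6_mono hB (hsgmono _ _ hle)) (fun x t hx => F6_out h hB _ _ hx)
      (fun t ht => hsame _ _ fun q' hq' => ?_) (fun t ht => hsame _ _ fun q' hq' => ?_))
    · simp only [hsg]
      rw [hag q' (Finset.mem_union_left _ (Finset.mem_filter.2 ⟨Finset.mem_univ _, t, ht, hq'⟩))]
    · simp only [hsg]
      rw [hag q' (Finset.mem_union_right _ (Finset.mem_filter.2 ⟨Finset.mem_univ _, t, ht, hq'⟩))]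
  obtain ⟨σ, hσ⟩ := counting (I := Fin J) (Fc := F6I Cn) (2 * (3 * Nn * mult)) Lc η
    (wb * step) hη hstep W (fun i σ q => v1 i σ q ∪ v2 i σ q) hcard hmono hindep hslope
    (by rw [Fintype.card_fin]; exact hcount)
  refine ⟨sg σ, halw σ, fun i hi μ hμ T hT => ?_⟩
  refine le_trans (Finset.card_le_card fun q hq => ?_)
    (hσ ⟨i, hi⟩ μ fun q => hμ q.1 _ (hzc ⟨i, hi⟩ σ q).1)
  obtain ⟨w, hw, hwW⟩ := hT q hq
  exact Finset.mem_filter.2 ⟨Finset.mem_univ _, (hzcmin ⟨i, hi⟩ σ q w hw).trans hwW⟩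

end EscZ
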