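import Pool.Agent.EscW.QP10

/-!
Project EscW, part Q (MP_6acca1_an): `EscZ.ancK_gdT` and `EscZ.trFam_gen` are in QK and QP10.
-/
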