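import Pool.Agent.EscW.QDefs2
import Pool.Agent.EscT.C4
import Pool.Agent.EscT.C11b

/-!
Module PH0: a stage with Lagrangian `ll` entered with `l0`. `k1 ll a = k1 l0 a + e` on `C p`, `Q ll a r = Q l0 a r + e (1 + r)`
for points of `C p` and `Md` (`hK` with `a = 0`: `C p`, `R p`, `Md` are contained in `X p.ρ`, see `hp.bnd`), hence
`Gm ll a F c r x w = Gm l0 a F c' r x w + e (1 + r)` with `c' T = c T + e T` (or minus, see `gk`, `kp`); take `c 0 := c'`.
-/

noncomputable section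

namespace EscZ

open MeasureTheory Set Filter Topology Esc EscF EscG EscT
open scoped ContDiff

namespace PH0

/-- an infimum with an additional constant -/
theorem iInf_add_const {I : Type*} [Nonempty I] {f : I → ℝ} (hf : BddBelow (range f)) (c : ℝ) :
    (⨅ i, (f i + c)) = (⨅ i, f i) + c := by
  refine le_antisymm ?_ ?_
  · rw [← sub_le_iff_le_add]
    refine le_ciInf fun i => ?_
    rw [sub_le_iff_le_add]
    refine ciInf_le (f := fun i => f i + c) ?_ i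
    obtain ⟨m, hm⟩ := hf
    refine ⟨m + c, ?_⟩
    rintro _ ⟨j, rfl⟩
    have := hm ⟨j, rfl⟩
    show m + c ≤ f j + c
    linarith
  · refine le_ciInf fun i => ?_
    have := ciInf_le hf i
    linarith

/-- min-plus powers of `K + e` -/
theorem kp_shift {Y : Type*} [PseudoMetricSpace Y] {K K' : Y → Y → ℝ} {C A : Set Y} {B Λ e : ℝ}
    (h : KD K C A B Λ) (H : ∀ x ∈ A, ∀ x' ∈ A, K' x x' = K x x' + e) : ∀ n : ℕ, ∀ x ∈ A, ∀ x' ∈ A,
      kp K' C (n + 1) x x' = kp K C (n + 1) x x' + e * ((n + 1 : ℕ) : ℝ) := by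
  intro n
  induction n with
  | zero =>
    intro x hx x' hx'
    show K' x x' = K x x' + e * ((0 + 1 : ℕ) : ℝ)
    rw [H x hx x' hx']
    simp
  | succ n ih =>
    intro x hx x' hx'
    show (⨅ y : C, (K' x y + kp K' C (n + 1) y x')) =
      (⨅ y : C, (K x y + kp K C (n + 1) y x')) + e * ((n + 1 + 1 : ℕ) : ℝ)
    have hne := h.ne.to_subtype
    have hb : BddBelow (range fun y : C => K x y + kp K C (n + 1) y x') := by
      refine C11b.inf_bdd (φ := fun y => K x y + kp K C (n + 1) y x') (L := Λ + Λ) h.comp h.ne ?_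
      intro y hy w hw
      have h1 := h.lip x hx x hx y (h.sub hy) w (h.sub hw)
      have h2 := kp_lip h (T := n + 1) (by omega) (h.sub hy) hx' (h.sub hw) hx'
      rw [dist_self, zero_add] at h1
      rw [dist_self, add_zero] at h2
      have h3 : K x y + kp K C (n + 1) y x' - (K x w + kp K C (n + 1) w x') =
        (K x y - K x w) + (kp K C (n + 1) y x' - kp K C (n + 1) w x') := by ring
      rw [h3, add_mul]
      exact (abs_add_le _ _).trans (add_le_add h1 h2)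
    rw [← iInf_add_const hb]
    refine iInf_congr fun y => ?_
    rw [H x hx y (h.sub y.2), ih y (h.sub y.2) x' hx']
    push_cast
    ring

end PH0

variable {ι : Type} [Fintype ι] {d : ℕ} {E : Type*} [NormedAddCommGroup E] [InnerProductSpace ℝ E]
  [FiniteDimensional ℝ E] {D : GT ι d E} {p : GP} {m M Mf : ℝ} {L : LP} {l0 l1 ll l : E → E → ℝ → ℝ}
  {f f' : E → ℝ → ℝ}

theorem PH0.Md_Mg (hp : POk D p) {r : ℝ} {w : E} (hw : w ∈ Md D p r) : w ∈ D.Mg r (p.ηc / 2) (2 * p.κ) := by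
  obtain ⟨⟨h1, h2⟩, -⟩ := hw
  have h3 := hp.ηc_pos
  have h4 := hp.κ_pos
  refine ⟨fun v hv => ?_, by linarith⟩
  have := h1 v hv
  linarith

theorem PH0.Xp_of {x x' : E} (hx : x ∈ D.X p.ρ) (hx' : x' ∈ D.X p.ρ) : Xp D p x x' :=
  ⟨0, D.Lam.zero_mem, by rwa [add_zero], by rwa [add_zero]⟩

/-- the segment before the gate for the two Lagrangians -/
theorem PH0.Gm_eq (h : D.Ok) (hp : POk D p) {a e : ℝ} (ha : 0 ≤ a) (h0 : TG D.β m M l0)
    (hK : KEq D p l0 ll a e) {F : Finset ℕ} (hF : F.Nonempty) (hF1 : ∀ T ∈ F, 1 ≤ T) (c : ℕ → ℝ) {r : ℝ}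
    (hr : 0 ≤ r) (hr1 : r < 1) {x w : E} (hx : x ∈ (D0 D).R p) (hw : w ∈ Md D p r) :
    (D0 D).Gm p ll a F c r x w = (D0 D).Gm p l0 a F (fun T => c T + e * T) r x w + e * (1 + r) := by
  obtain ⟨C, hC, hk, hKC⟩ := C11b.consts h hp h0 ha
  have hH : ∀ x ∈ (D0 D).R p, ∀ x' ∈ (D0 D).R p, (D0 D).k1 ll a x x' = (D0 D).k1 l0 a x x' + e := by
    intro x hx x' hx'
    have h1 := hK 0 1 (by norm_num) (by norm_num) x x' (PH0.Xp_of (C11b.R_X hp hx) (C11b.R_X hp hx'))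
    rw [sub_zero, mul_one] at h1
    exact h1
  have hQ : ∀ x1 ∈ (D0 D).C p, (D0 D).Q ll a r x1 w = (D0 D).Q l0 a r x1 w + e * (1 + r) := by
    intro x1 hx1
    have h1 := hK 0 (1 + r) (by linarith) (by linarith) x1 w
      (PH0.Xp_of (C11b.C_X hx1) (C11b.M_X hp (PH0.Md_Mg hp hw)))
    rw [sub_zero] at h1
    exact h1
  have hg : ∀ x1 ∈ (D0 D).C p, gk ((D0 D).k1 ll a) ((D0 D).C p) F c x x1 =
      gk ((D0 D).k1 l0 a) ((D0 D).C p) F (fun T => c T + e * T) x x1 := by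
    intro x1 hx1
    unfold gk
    refine iInf_congr fun T => ?_
    obtain ⟨n, hn⟩ : ∃ n, (T : ℕ) = n + 1 := ⟨T - 1, by have := hF1 T T.2; omega⟩
    rw [hn, PH0.kp_shift hk hH n x hx x1 (hk.sub hx1)]
    ring
  unfold GD.Gm
  have hne := hk.ne.to_subtype
  have hb : BddBelow (range fun x1 : (D0 D).C p => gk ((D0 D).k1 l0 a) ((D0 D).C p) F (fun T => c T + e * T) x x1 +
      (D0 D).Q l0 a r x1 w) := by
    refine C11b.inf_bdd (φ := fun x1 => gk ((D0 D).k1 l0 a) ((D0 D).C p) F (fun T => c T + e * T) x x1 +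
      (D0 D).Q l0 a r x1 w) (L := C + C) hk.comp hk.ne ?_
    intro y hy z hz
    have h1 := gk_lip hk hF hF1 (fun T => c T + e * T) hx (hk.sub hy) hx (hk.sub hz)
    have h2 := (hKC 0 (1 + r) (by linarith) (by linarith) y (C11b.C_X hy) w
      (C11b.M_X hp (PH0.Md_Mg hp hw))).2 z (C11b.C_X hz) w (C11b.M_X hp (PH0.Md_Mg hp hw))
    rw [dist_self, zero_add] at h1
    rw [dist_self, add_zero] at h2
    have h3 : gk ((D0 D).k1 l0 a) ((D0 D).C p) F (fun T => c T + e * T) x y + (D0 D).Q l0 a r y w -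
        (gk ((D0 D).k1 l0 a) ((D0 D).C p) F (fun T => c T + e * T) x z + (D0 D).Q l0 a r z w) =
        (gk ((D0 D).k1 l0 a) ((D0 D).C p) F (fun T => c T + e * T) x y -
          gk ((D0 D).k1 l0 a) ((D0 D).C p) F (fun T => c T + e * T) x z) +
        ((D0 D).kk l0 a 0 (1 + r) y w - (D0 D).kk l0 a 0 (1 + r) z w) := by
      unfold GD.Q
      ring
    rw [h3, add_mul]
    exact (abs_add_le _ _).trans (add_le_add h1 h2)
  rw [← PH0.iInf_add_const hb]
  refine iInf_congr fun x1 => ?_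
  rw [hg x1 x1.2, hQ x1 x1.2]
  ring

theorem mstage (h : D.Ok) (hp : POk D p) {m' M' a b e : ℝ} (ha : 0 ≤ a) (h0 : TG D.β m M l0)
    (hl : TG D.β m' M' ll) (hK : KEq D p l0 ll a e) (hS : Stage D p ll a b) : MStage D p l0 ll a b := by
  obtain ⟨J, s, r, F, c, G, δ, hJ, hδ, hs0, hsJ, hs, hF, H⟩ := hS
  refine ⟨J, s, r, F, fun i => if i = 0 then (fun T => c 0 T + e * T) else c i, G, δ, hJ, hδ, hs0, hsJ, hs, hF, ?_⟩
  intro i hi
  obtain ⟨hr, hr1, hG, hGne, hGM, HG⟩ := H i hi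
  refine ⟨hr, hr1, hG, hGne, hGM, ?_⟩
  intro z hz
  obtain ⟨w, hw, hw'⟩ := HG z hz
  refine ⟨w, hw, ?_⟩
  intro x hx x' hx'
  have h1 := hw' x hx x' hx'
  have hzG : z ∈ G i := hG.isClosed.frontier_subset hz
  beta_reduce
  rw [if_neg (Nat.succ_ne_zero i)]
  by_cases hi0 : i = 0
  · subst hi0
    rw [if_pos rfl, if_pos rfl]
    have e1 := PH0.Gm_eq h hp ha h0 hK (hF 0 (Nat.zero_le _)).1 (hF 0 (Nat.zero_le _)).2 (c 0) hr hr1 hx (hGM hw)
    have e2 := PH0.Gm_eq h hp ha h0 hK (hF 0 (Nat.zero_le _)).1 (hF 0 (Nat.zero_le _)).2 (c 0) hr hr1 hx (hGM hzG)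
    rw [hs0] at h1 ⊢
    rw [e1, e2] at h1
    linarith
  · rw [if_neg hi0, if_neg hi0]
    exact h1

end EscZ
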