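import Pool.Agent.EscW.QDefs2
import Pool.Agent.EscT.H1

/-!
Module PH1: adaptation of EscT/H1.lean (`exists_chs`, which is imported): the legs of stage `i` use the Lagrangian
`ll i`; the leg of class `a (i + 1)` between the last gate of stage `i` and the first gate of stage `i + 1` uses `ll i`
(this is why the first gate of a stage is entered with `ll (i - 1)`; for `i = 0` that is `ll 0`).
-/

noncomputable section

namespace EscZ

open MeasureTheory Set Filter Topology Esc EscF EscG EscT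
open scoped ContDiff

variable {ι : Type} [Fintype ι] {d : ℕ} {E : Type*} [NormedAddCommGroup E] [InnerProductSpace ℝ E]
  [FiniteDimensional ℝ E] {D : GT ι d E} {p : GP} {m M Mf : ℝ} {L : LP} {l0 l1 ll l : E → E → ℝ → ℝ}
  {f f' : E → ℝ → ℝ}

lemma PH1_kd (h : D.Ok) (hp : POk D p) (hl : TG D.β m M ll) {s : ℝ} (hs : 0 ≤ s) :
    ∃ C : ℝ, KD ((D0 D).k1 ll s) ((D0 D).C p) ((D0 D).R p) C C := by
  obtain ⟨C, _, hC⟩ := kd h hp hl (le_refl (0:ℝ)) s
  refine ⟨C, ?_⟩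
  have := hC _ H1_pt H1_good s hs le_rfl
  rwa [H1_lf] at this

lemma PH1_PQ (h : D.Ok) (hp : POk D p) (hl : TG D.β m M ll) {s : ℝ} (hs : 0 ≤ s) :
    ∃ L : ℝ, ∀ r, 0 ≤ r → r < 1 → H1L ((D0 D).P ll s r) (H1W D p) ((D0 D).R p) L ∧
      H1L ((D0 D).Q ll s r) ((D0 D).R p) (H1W D p) L := by
  obtain ⟨C, _, hC⟩ := kk_unif h hl (le_refl (0:ℝ)) s p.ρ
  have hC' := hC _ H1_pt H1_good s hs le_rfl
  rw [H1_lf] at hC'
  refine ⟨C, fun r hr hr1 => ⟨fun w hw v hv x hx y hy => ?_, fun x hx y hy w hw v hv => ?_⟩⟩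
  · have := (hC' r 2 (by linarith) (by linarith) (w - D.g) hw.2 x (H1_XR hp hx)).2.1
      (v - D.g) hv.2 y (H1_XR hp hy)
    rwa [dist_sub_right] at this
  · exact (hC' 0 (1 + r) (by linarith) (by linarith) x (H1_XR hp hx) w hw.1).2.1
      y (H1_XR hp hy) v hv.1

theorem exists_chs (h : D.Ok) (hp : POk D p) {ll : ℕ → E → E → ℝ → ℝ} {mm MM : ℕ → ℝ}
    (hl : ∀ i, TG D.β (mm i) (MM i) (ll i)) {a : ℕ → ℝ} (ha0 : 0 ≤ a 0) (ham : Monotone a)
    (hat : Tendsto a atTop atTop) (hS : ∀ i, MStage D p (ll (i - 1)) (ll i) (a i) (a (i + 1))) {x0 : E}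
    (hx0 : x0 ∈ (D0 D).C p) :
    ∃ (I : ℕ → ℕ) (s r : ℕ → ℝ) (T : ℕ → ℕ) (z : ℕ → E) (y : ℕ → ℕ → E),
      Chs D p (fun n => ll (I n)) x0 s r T z y ∧ (∀ n, a (I n) ≤ s n ∧ s n ≤ a (I n + 1)) ∧
      Tendsto I atTop atTop := by
  classical
  choose J s r F c G δ hJ hδ hs0 hsJ hsb hF hgate using hS
  -- the enumeration of the gates
  set S := EscN.st J with hSdef
  have hlt : ∀ n, (S n).2 < J (S n).1 := EscN.st_lt hJ
  have hS1 : ∀ n, S (n + 1) = if (S n).2 + 1 < J (S n).1 then ((S n).1, (S n).2 + 1)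
      else ((S n).1 + 1, 0) := fun n => rfl
  set σ : ℕ → ℝ := fun n => s (S n).1 ((S n).2 + 1) with hσ
  set ρ : ℕ → ℝ := fun n => r (S n).1 (S n).2 with hρ
  set I : ℕ → Finset (ℕ × ℕ) := fun n =>
    if (S n).2 + 1 < J (S n).1 then F (S n).1 ((S n).2 + 1) ×ˢ {0}
    else F (S n).1 ((S n).2 + 1) ×ˢ F ((S n).1 + 1) 0 with hI
  set cc : ℕ → ℕ × ℕ → ℝ := fun n q => c (S n).1 ((S n).2 + 1) q.1 +
    (if (S n).2 + 1 < J (S n).1 then 0 else c ((S n).1 + 1) 0 q.2) with hcc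
  set D' : ℕ → Set E := fun n => G (S n).1 (S n).2 with hD'
  set Λ : ℕ → E → E → ℝ → ℝ := fun n => ll (S n).1 with hΛ
  have hΛm : ∀ n, (if (S (n + 1)).2 = 0 then ll ((S (n + 1)).1 - 1) else ll (S (n + 1)).1) = Λ n := by
    intro n
    simp only [hΛ]
    rw [hS1]
    by_cases hj : (S n).2 + 1 < J (S n).1
    · rw [if_pos hj, if_neg (Nat.succ_ne_zero _)]
    · rw [if_neg hj, if_pos rfl, Nat.add_sub_cancel]
  -- classes
  have hσq : ∀ n, a (S n).1 ≤ σ n ∧ σ n ≤ a ((S n).1 + 1) := fun n => hsb (S n).1 ((S n).2 + 1) (hlt n)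
  have hσnn : ∀ n, 0 ≤ σ n := fun n => (ha0.trans (ham (Nat.zero_le _))).trans (hσq n).1
  have hσm : ∀ n, σ n = s (S (n + 1)).1 (S (n + 1)).2 := by
    intro n
    simp only [hσ]
    rw [hS1]
    by_cases hj : (S n).2 + 1 < J (S n).1
    · rw [if_pos hj]
    · rw [if_neg hj]
      simp only
      have hl := hlt n
      have h2 : (S n).2 + 1 = J (S n).1 := by omega
      rw [h2, hsJ, hs0]
  -- the kernels
  have hK : ∀ n, ∃ C0 : ℝ, KD ((D0 D).k1 (Λ n) (σ n)) ((D0 D).C p) ((D0 D).R p) C0 C0 := fun n => PH1_kd h hp (hl _) (hσnn n)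
  choose CK hK using hK
  choose L hL using fun n => PH1_PQ h hp (hl (S n).1) (hσnn n)
  have hr0 : ∀ n, 0 ≤ ρ n := fun n => (hgate (S n).1 (S n).2 (hlt n)).1
  have hr1 : ∀ n, ρ n < 1 := fun n => (hgate (S n).1 (S n).2 (hlt n)).2.1
  -- the first leg starts at `x0`: a large penalty
  set PP : ℕ → E → E → ℝ := fun n => if n = 0 then (fun _ x => (|CK 0| + 1) * dist x x0)
    else (D0 D).P (Λ n) (σ n) (ρ n) with hPP
  have hPP1 : ∀ n, PP (n + 1) = (D0 D).P (Λ (n + 1)) (σ (n + 1)) (ρ (n + 1)) := fun n => by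
    simp only [hPP]; rw [if_neg (Nat.succ_ne_zero n)]
  have hPP0 : ∀ w x, PP 0 w x = (|CK 0| + 1) * dist x x0 := fun w x => by
    simp only [hPP, if_true]
  have hPn' : ∀ n, ∃ L0 : ℝ, H1L (PP n) (H1W D p) ((D0 D).R p) L0 := by
    intro n
    cases n with
    | zero =>
      refine ⟨|CK 0| + 1, fun w _ v _ x _ y _ => ?_⟩
      rw [hPP0, hPP0, ← mul_sub, abs_mul, abs_of_pos (by positivity : 0 < |CK 0| + 1)]
      refine mul_le_mul_of_nonneg_left ?_ (by positivity)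
      have h1 := abs_dist_sub_le x y x0
      have h2 : 0 ≤ dist w v := dist_nonneg
      linarith
    | succ n =>
      rw [hPP1]
      exact ⟨_, (hL (n + 1) _ (hr0 (n + 1)) (hr1 (n + 1))).1⟩
  choose LP' hPn using hPn'
  have hQn : ∀ n, H1L ((D0 D).Q (Λ n) (σ n) (ρ (n + 1))) ((D0 D).R p) (H1W D p) (L n) :=
    fun n => (hL n _ (hr0 (n + 1)) (hr1 (n + 1))).2
  have hFa : ∀ n, (F (S n).1 ((S n).2 + 1)).Nonempty := fun n => (hF _ _ (hlt n)).1
  have hFa1 : ∀ n, ∀ T ∈ F (S n).1 ((S n).2 + 1), 1 ≤ T := fun n => (hF _ _ (hlt n)).2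
  have hFb : ∀ k, (F k 0).Nonempty := fun k => (hF _ _ (Nat.zero_le _)).1
  have hFb1 : ∀ k, ∀ T ∈ F k 0, 1 ≤ T := fun k => (hF _ _ (Nat.zero_le _)).2
  have hIne : ∀ n, (I n).Nonempty := by
    intro n
    simp only [hI]
    split_ifs with hj
    · simpa using hFa n
    · exact (hFa n).product (hFb _)
  have hI1 : ∀ n, ∀ q ∈ I n, 1 ≤ q.1 + q.2 := by
    intro n q hq
    simp only [hI] at hq
    split_ifs at hq with hj
    · rw [Finset.mem_product] at hq
      have := hFa1 n _ hq.1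
      omega
    · rw [Finset.mem_product] at hq
      have := hFa1 n _ hq.1
      omega
  -- the segment after gate n
  have hRr : ∀ n, ∀ z ∈ (D0 D).R p, ∀ x ∈ (D0 D).R p, ∃ ξ ∈ (D0 D).R p, ∃ k : ℝ,
      H33.gI ((D0 D).k1 (Λ n) (σ n)) ((D0 D).C p) (I n) (cc n) z x =
        k + gk ((D0 D).k1 (Λ n) (σ n)) ((D0 D).C p) (F (S n).1 ((S n).2 + 1)) (c (S n).1 ((S n).2 + 1)) z ξ ∧
      ∀ w ∈ (D0 D).R p, H33.gI ((D0 D).k1 (Λ n) (σ n)) ((D0 D).C p) (I n) (cc n) w x ≤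
        k + gk ((D0 D).k1 (Λ n) (σ n)) ((D0 D).C p) (F (S n).1 ((S n).2 + 1)) (c (S n).1 ((S n).2 + 1)) w ξ := by
    intro n z hz x hx
    by_cases hj : (S n).2 + 1 < J (S n).1
    · have e : ∀ w w', H33.gI ((D0 D).k1 (Λ n) (σ n)) ((D0 D).C p) (I n) (cc n) w w' =
          gk ((D0 D).k1 (Λ n) (σ n)) ((D0 D).C p) (F (S n).1 ((S n).2 + 1)) (c (S n).1 ((S n).2 + 1)) w w' := by
        intro w w'
        have h1 : I n = F (S n).1 ((S n).2 + 1) ×ˢ {0} := by simp only [hI]; rw [if_pos hj]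
        rw [h1, H33.gI_single _ (hFa n)]
        have h2 : (fun T => cc n (T, 0)) = c (S n).1 ((S n).2 + 1) := by
          funext T
          simp only [hcc]; rw [if_pos hj, add_zero]
        rw [h2]
      refine ⟨x, hx, 0, by rw [e, zero_add], fun w _ => by rw [e, zero_add]⟩
    · have h1 : I n = F (S n).1 ((S n).2 + 1) ×ˢ F ((S n).1 + 1) 0 := by
        simp only [hI]; rw [if_neg hj]
      rw [h1]
      exact H33.gI_right (hK n) (hFa n) (hFb _) (hFa1 n) (hFb1 _) _ _ (c ((S n).1 + 1) 0)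
        (fun q => by simp only [hcc]; rw [if_neg hj]) hx hz
  -- the segment before gate n + 1
  have hLl : ∀ n, ∀ x ∈ (D0 D).R p, ∀ z ∈ (D0 D).R p, ∃ ξ ∈ (D0 D).R p, ∃ k : ℝ,
      H33.gI ((D0 D).k1 (Λ n) (σ n)) ((D0 D).C p) (I n) (cc n) x z =
        k + gk ((D0 D).k1 (Λ n) (σ n)) ((D0 D).C p) (F (S (n + 1)).1 (S (n + 1)).2) (c (S (n + 1)).1 (S (n + 1)).2) ξ z ∧
      ∀ w ∈ (D0 D).R p, H33.gI ((D0 D).k1 (Λ n) (σ n)) ((D0 D).C p) (I n) (cc n) x w ≤
        k + gk ((D0 D).k1 (Λ n) (σ n)) ((D0 D).C p) (F (S (n + 1)).1 (S (n + 1)).2) (c (S (n + 1)).1 (S (n + 1)).2) ξ w := by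
    intro n x hx z hz
    rw [hS1]
    by_cases hj : (S n).2 + 1 < J (S n).1
    · rw [if_pos hj]
      simp only
      have e : ∀ w w', H33.gI ((D0 D).k1 (Λ n) (σ n)) ((D0 D).C p) (I n) (cc n) w w' =
          gk ((D0 D).k1 (Λ n) (σ n)) ((D0 D).C p) (F (S n).1 ((S n).2 + 1)) (c (S n).1 ((S n).2 + 1)) w w' := by
        intro w w'
        have h1 : I n = F (S n).1 ((S n).2 + 1) ×ˢ {0} := by simp only [hI]; rw [if_pos hj]
        rw [h1, H33.gI_single _ (hFa n)]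
        have h2 : (fun T => cc n (T, 0)) = c (S n).1 ((S n).2 + 1) := by
          funext T
          simp only [hcc]; rw [if_pos hj, add_zero]
        rw [h2]
      refine ⟨x, hx, 0, by rw [e, zero_add], fun w _ => by rw [e, zero_add]⟩
    · rw [if_neg hj]
      simp only
      have h1 : I n = F (S n).1 ((S n).2 + 1) ×ˢ F ((S n).1 + 1) 0 := by
        simp only [hI]; rw [if_neg hj]
      rw [h1]
      exact H33.gI_left (hK n) (hFa n) (hFb _) (hFa1 n) (hFb1 _) _ (c (S n).1 ((S n).2 + 1)) _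
        (fun q => by simp only [hcc]; rw [if_neg hj]) hx hz
  have hFm : ∀ n, (F (S (n + 1)).1 (S (n + 1)).2).Nonempty ∧
      ∀ T ∈ F (S (n + 1)).1 (S (n + 1)).2, 1 ≤ T := fun n => hF _ _ (hlt (n + 1)).le
  -- the kernel between the gates n and n + 1
  set GG : ℕ → E → E → ℝ := fun n => H1g (PP n) ((D0 D).Q (Λ n) (σ n) (ρ (n + 1))) ((D0 D).k1 (Λ n) (σ n))
    ((D0 D).C p) (I n) (cc n) with hGG
  have hBc := H1_B h
  have hDM : ∀ n, D' n ⊆ Md D p (ρ n) := fun n => (hgate (S n).1 (S n).2 (hlt n)).2.2.2.2.1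
  have hDsub : ∀ n, D' n ⊆ H1W D p := fun n w hw => H1_XM hp (hDM n hw)
  have hDcomp : ∀ n, IsCompact (D' n) := fun n => (hgate (S n).1 (S n).2 (hlt n)).2.2.1
  have hDne : ∀ n, (D' n).Nonempty := fun n => (hgate (S n).1 (S n).2 (hlt n)).2.2.2.1
  obtain ⟨z, hzD, hzint, hopt⟩ := EscN.chain_points (E := E) univ (H1W D p) id continuous_id
    (fun n x w => GG n x w + σ n * (D0 D).B w - σ n * (D0 D).B x) D' (fun _ => 0) isClosed_univ hDcomp hDne
    (fun n => subset_univ _) hDsub (fun n z hz => hDsub n hz)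
    (fun n => by
      refine ((H1_cont (hK n) (hIne n) (hI1 n) (hPn n) (hQn n)).add ?_).sub ?_
      · exact (continuous_const.mul (hBc.comp continuous_snd)).continuousOn
      · exact (continuous_const.mul (hBc.comp continuous_fst)).continuousOn)
    (by
      rintro n z ⟨hz, hz'⟩
      have hzf : z ∈ frontier (G (S (n + 1)).1 (S (n + 1)).2) := by
        rw [frontier_eq_closure_inter_closure]
        refine ⟨subset_closure hz, ?_⟩
        rwa [compl_eq_univ_sdiff]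
      obtain ⟨w, hw, hw'⟩ := (hgate (S (n + 1)).1 (S (n + 1)).2 (hlt (n + 1))).2.2.2.2.2 z hzf
      refine ⟨w, hw, fun x hx x' hx' => ?_⟩
      obtain ⟨ξ, hξ, k, e1, e2⟩ := H1_left (hK n) (hIne n) (hI1 n) (hPn n) (hQn n) (hFm n).1 (hFm n).2
        (hLl n) hx (hDsub _ hz)
      obtain ⟨ξ', hξ', k', e1', e2'⟩ := H1_right (hK (n + 1)) (hIne _) (hI1 _) (hPn _) (hQn _)
        (hFa (n + 1)) (hFa1 (n + 1)) (hRr (n + 1)) (hDsub _ hz) hx'
      have a := hw' ξ hξ ξ' hξ'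
      have b := e2 w (hDsub _ hw)
      have b' := e2' w (hDsub _ hw)
      have hδ' := hδ (S (n + 1)).1
      rw [← hσm n, hΛm n] at a
      rw [hPP1] at b' e1'
      simp only [GD.Gm, GD.Gp] at a
      simp only [id, inner_zero_left, sub_zero, hGG]
      rw [hPP1]
      simp only [hσ, hρ, hΛ] at a b b' e1 e1' ⊢
      linarith)
  -- room points
  have hzM : ∀ n, z n ∈ H1W D p := fun n => hDsub n (hzD n)
  have hpath := fun n => H1_path (c := cc n) (hK n) (hIne n) (hI1 n) (hPn n) (hQn n) (hzM n) (hzM (n + 1))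
  choose T c0 y hT hyC heq hle using hpath
  -- optimality of the path
  have hpo : ∀ n, ∀ x : ℕ → E, (∀ k ≤ T n, x k ∈ (D0 D).C p) →
      PP n (z n) (y n 0) + cost ((D0 D).k1 (Λ n) (σ n)) (y n) (T n) +
        (D0 D).Q (Λ n) (σ n) (ρ (n + 1)) (y n (T n)) (z (n + 1)) ≤
      PP n (z n) (x 0) + cost ((D0 D).k1 (Λ n) (σ n)) x (T n) +
        (D0 D).Q (Λ n) (σ n) (ρ (n + 1)) (x (T n)) (z (n + 1)) := by
    intro n x hx
    have a := hle n (z n) (hzM n) (z (n + 1)) (hzM (n + 1)) x hx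
    rw [heq n] at a
    linarith
  have hup : ∀ n k x, x ∈ (D0 D).C p → ∀ j ≤ T n, Function.update (y n) k x j ∈ (D0 D).C p := by
    intro n k x hx j hj
    by_cases hjk : j = k
    · subst hjk
      rw [Function.update_self]; exact hx
    · rw [Function.update_of_ne hjk]; exact hyC n j hj
  -- the starting point
  have hstart : y 0 0 = x0 := by
    have a := hpo 0 _ (hup 0 0 x0 hx0)
    rw [H1_c0 _ _ _ (hT 0), Function.update_self, Function.update_of_ne (by have := hT 0; omega),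
      hPP0, hPP0, dist_self, mul_zero] at a
    have hxR : x0 ∈ (D0 D).R p := (hK 0).sub hx0
    have hyR : y 0 0 ∈ (D0 D).R p := (hK 0).sub (hyC 0 0 (Nat.zero_le _))
    have hyR1 : y 0 1 ∈ (D0 D).R p := (hK 0).sub (hyC 0 1 (hT 0))
    have b := (hK 0).lip x0 hxR (y 0 0) hyR (y 0 1) hyR1 (y 0 1) hyR1
    rw [dist_self, add_zero] at b
    have b' := (abs_le.1 b).2
    have c1 : CK 0 * dist x0 (y 0 0) ≤ |CK 0| * dist x0 (y 0 0) :=
      mul_le_mul_of_nonneg_right (le_abs_self _) dist_nonneg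
    rw [dist_comm x0] at b' c1
    have hd : dist (y 0 0) x0 ≤ 0 := by linarith
    exact dist_le_zero.mp hd
  have htend : Tendsto (fun n => (S n).1) atTop atTop := EscN.st_tendsto hJ
  refine ⟨fun n => (S n).1, σ, ρ, T, z, y, ⟨hstart, hr0, hr1, hT, fun n => hDM (n + 1) (hzD (n + 1)),
    fun n k hk => hyC n k hk, ?_, ?_, ?_, ?_, ?_⟩, hσq, htend⟩
  · exact tendsto_atTop_mono (fun n => (hσq n).1) (hat.comp htend)
  · intro n
    have hnb : D' (n + 1) ∈ 𝓝 (z (n + 1)) := by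
      rw [← mem_interior_iff_mem_nhds, interior_eq_compl_closure_compl]
      have := hzint n
      rwa [← compl_eq_univ_sdiff] at this
    filter_upwards [hnb] with x hx
    have a := hopt n x hx
    simp only [id, inner_zero_left, sub_zero] at a
    have b := hle n (z n) (hzM n) x (hDsub _ hx) (y n) (hyC n)
    have b' := hle (n + 1) x (hDsub _ hx) (z (n + 2)) (hzM (n + 2)) (y (n + 1)) (hyC (n + 1))
    have e := heq n
    have e' := heq (n + 1)
    simp only [hGG] at a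
    rw [hPP1] at a b' e'
    linarith
  · intro n x hx
    have a := hpo (n + 1) _ (hup (n + 1) 0 x hx)
    rw [H1_c0 _ _ _ (hT (n + 1)), Function.update_self,
      Function.update_of_ne (by have := hT (n + 1); omega), hPP1] at a
    linarith
  · intro n k hk x hx
    have a := hpo n _ (hup n (k + 1) x hx)
    rw [H1_cm _ _ _ hk, Function.update_of_ne (by omega), Function.update_of_ne (by omega)] at a
    linarith
  · intro n k hk x hx
    have a := hpo n _ (hup n (k + 1) x hx)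
    rw [← hk, H1_cT, Function.update_of_ne (by omega), Function.update_self] at a
    linarith


end EscZ
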