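import Pool.Agent.EscW.QDefs2
import Pool.Agent.EscT.H2

/-!
Module PH2: adaptation of EscT/H2.lean (`site`) to two Lagrangians.
-/

noncomputable section

namespace EscZ

open MeasureTheory Set Filter Topology Esc EscF EscG EscT
open scoped ContDiff

variable {ι : Type} [Fintype ι] {d : ℕ} {E : Type*} [NormedAddCommGroup E] [InnerProductSpace ℝ E]
  [FiniteDimensional ℝ E] {D : GT ι d E} {p : GP} {m M Mf : ℝ} {L : LP} {l0 l1 ll l : E → E → ℝ → ℝ}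
  {f f' : E → ℝ → ℝ}

theorem site (h : D.Ok) {m' M' : ℝ} (hl : TG D.β m M l0) (hl' : TG D.β m' M' ll) {s s' : ℝ} (hs : 0 ≤ s)
    (hs' : 0 ≤ s') {t t' t'' : ℝ} (htt : t < t') (htt' : t' < t'') {x0 a x2 : E}
    (H : ∀ᶠ x in 𝓝 a, (D0 D).kk l0 s t t' x0 a + (D0 D).kk ll s' t' t'' a x2 - (s' - s) * (D0 D).B a ≤
      (D0 D).kk l0 s t t' x0 x + (D0 D).kk ll s' t' t'' x x2 - (s' - s) * (D0 D).B x) {n n' : Fin d → ℤ}
    (hn : (D0 D).kk l0 s t t' x0 a = kerl l0 t t' x0 (a + lv D.b n) -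
      s * ((D0 D).B (a + lv D.b n) - (D0 D).B x0) + s ^ 2 / 2 * (t' - t))
    (hn' : (D0 D).kk ll s' t' t'' a x2 = kerl ll t' t'' a (x2 + lv D.b n') -
      s' * ((D0 D).B (x2 + lv D.b n') - (D0 D).B a) + s' ^ 2 / 2 * (t'' - t')) :
    IsLocalMin (fun x => kerl l0 t t' x0 x + kerl ll t' t'' x (x2 + lv D.b n' + lv D.b n))
      (a + lv D.b n) := by
  have htend : Tendsto (fun x => x - lv D.b n) (𝓝 (a + lv D.b n)) (𝓝 a) := by
    have h1 : Tendsto (fun x => x - lv D.b n) (𝓝 (a + lv D.b n)) (𝓝 (a + lv D.b n - lv D.b n)) :=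
      tendsto_id.sub_const _
    rwa [add_sub_cancel_right] at h1
  have hsh : ∀ y : E, kerl ll t' t'' (y + lv D.b n) (x2 + lv D.b n' + lv D.b n) =
      kerl ll t' t'' y (x2 + lv D.b n') := fun y => kerl_shift (lv D.b n) (H2_per h hl' n) t' t'' y _
  have hB : ∀ y : E, (D0 D).B (y + lv D.b n) = (D0 D).B y + ∑ i, (n i : ℝ) * D.c i :=
    fun y => (H2_qb h).lvB n y
  filter_upwards [htend.eventually H] with x hx
  obtain ⟨y, rfl⟩ : ∃ y, x = y + lv D.b n := ⟨x - lv D.b n, (sub_add_cancel _ _).symm⟩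
  rw [add_sub_cancel_right] at hx
  have h1 : (D0 D).kk l0 s t t' x0 y ≤ kerl l0 t t' x0 (y + lv D.b n) -
      s * ((D0 D).B (y + lv D.b n) - (D0 D).B x0) + s ^ 2 / 2 * (t' - t) :=
    K_le hl (H2_qb h) hs htt x0 y n
  have h2 : (D0 D).kk ll s' t' t'' y x2 ≤ kerl ll t' t'' y (x2 + lv D.b n') -
      s' * ((D0 D).B (x2 + lv D.b n') - (D0 D).B y) + s' ^ 2 / 2 * (t'' - t') :=
    K_le hl' (H2_qb h) hs' htt' y x2 n'
  simp only [hsh]
  rw [hB] at h1 hn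
  linarith

end EscZ
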