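import Pool.Agent.EscW.QDefs2
import Pool.Agent.EscW.QH2
import Pool.Agent.EscT.H3
import Pool.Agent.EscT.H3

/-!
Module PH3: adaptation of EscT/H3.lean (`chs_seq`, which is imported: its FT-free lemmas can be used): the facts
lr0, lr1, lr2, v1, nQ, nP are now the fields of `Leg` (strict inequalities; restate `H3_int` with `φ (q 0) < φ y`); the cost
estimate of the old statement is dropped, instead the optimality of the pieces in their class is kept. (`Xp`: `w j = P j + v`,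
`w (j + 1) = Q j + lv D.b n + v` with `v ∈ D.Lam`, `P j, Q j ∈ D.X p.ρ`; `kk` is invariant: kk_Lam, kk_J.)
-/

set_option linter.unusedSectionVars false
set_option linter.unusedVariables false

noncomputable section

namespace EscZ

open MeasureTheory Set Filter Topology Esc EscF EscG EscT
open scoped ContDiff

variable {ι : Type} [Fintype ι] {d : ℕ} {E : Type*} [NormedAddCommGroup E] [InnerProductSpace ℝ E]
  [FiniteDimensional ℝ E] {D : GT ι d E} {p : GP} {m M Mf : ℝ} {L : LP} {l0 l1 ll l : E → E → ℝ → ℝ}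
  {f f' : E → ℝ → ℝ}


/-! ### a sequence of sites -/

theorem PH3_seq (h : D.Ok) {lj : ℕ → E → E → ℝ → ℝ} {mm MM : ℕ → ℝ}
    (hl : ∀ j, TG D.β (mm j) (MM j) (lj j)) (P Q hh : ℕ → E) (σ τ : ℕ → ℝ)
    (hσ : ∀ j, 0 ≤ σ j) (hτ : ∀ j, τ j < τ (j + 1)) (hm : ∀ j, hh j ∈ D.Lam)
    (hPQ : ∀ j, P (j + 1) = Q j - hh j)
    (hsite : ∀ j, ∀ᶠ x in 𝓝 (Q j), (D0 D).kk (lj j) (σ j) (τ j) (τ (j + 1)) (P j) (Q j) +
      (D0 D).kk (lj (j + 1)) (σ (j + 1)) (τ (j + 1)) (τ (j + 2)) (Q j - hh j) (Q (j + 1)) -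
        (σ (j + 1) - σ j) * (D0 D).B (Q j) ≤ (D0 D).kk (lj j) (σ j) (τ j) (τ (j + 1)) (P j) x +
      (D0 D).kk (lj (j + 1)) (σ (j + 1)) (τ (j + 1)) (τ (j + 2)) (x - hh j) (Q (j + 1)) -
        (σ (j + 1) - σ j) * (D0 D).B x) :
    ∃ w : ℕ → E, (∀ j, IsLocalMin (fun x => kerl (lj j) (τ j) (τ (j + 1)) (w j) x +
        kerl (lj (j + 1)) (τ (j + 1)) (τ (j + 2)) x (w (j + 2))) (w (j + 1))) ∧
      (∀ j, kerl (lj j) (τ j) (τ (j + 1)) (w j) (w (j + 1)) - σ j * ((D0 D).B (w (j + 1)) - (D0 D).B (w j)) +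
        σ j ^ 2 / 2 * (τ (j + 1) - τ j) = (D0 D).kk (lj j) (σ j) (τ j) (τ (j + 1)) (P j) (Q j)) ∧
      w 0 = P 0 ∧ ∀ j, ∃ v ∈ D.Lam, w j = P j + v ∧ (∃ n : Fin d → ℤ, w (j + 1) = Q j + lv D.b n + v) ∧
        ∀ t c, τ j < t → t < τ (j + 1) →
        kerl (lj j) (τ j) t (w j) c + kerl (lj j) t (τ (j + 1)) c (w (j + 1)) ≤
          kerl (lj j) (τ j) (τ (j + 1)) (w j) (w (j + 1)) →
        (D0 D).kk (lj j) (σ j) (τ j) t (P j) (c - v) + (D0 D).kk (lj j) (σ j) t (τ (j + 1)) (c - v) (Q j) ≤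
          (D0 D).kk (lj j) (σ j) (τ j) (τ (j + 1)) (P j) (Q j) := by
  have hat : ∀ j, ∃ n : Fin d → ℤ, (D0 D).kk (lj j) (σ j) (τ j) (τ (j + 1)) (P j) (Q j) =
      kerl (lj j) (τ j) (τ (j + 1)) (P j) (Q j + lv D.b n) - σ j * ((D0 D).B (Q j + lv D.b n) - (D0 D).B (P j)) +
        σ j ^ 2 / 2 * (τ (j + 1) - τ j) := fun j => K_attained (h.fr0 0).li (hl j) (QB0 h.toOk0 0) (hσ j) (hτ j) _ _
  choose n hn using hat
  set G : ℕ → E := fun j => ∑ i ∈ Finset.range j, (lv D.b (n i) + hh i) with hG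
  have hGs : ∀ j, G (j + 1) = G j + (lv D.b (n j) + hh j) := fun j => Finset.sum_range_succ _ _
  have hGm : ∀ j, G j ∈ D.Lam := fun j =>
    AddSubgroup.sum_mem _ fun i _ => D.Lam.add_mem (H3_lv_mem h _) (hm i)
  have hw1 : ∀ j, P (j + 1) + G (j + 1) = Q j + lv D.b (n j) + G j := fun j => by
    rw [hPQ, hGs]; abel
  refine ⟨fun j => P j + G j, fun j => ?_, fun j => ?_, ?_, fun j => ⟨G j, hGm j, rfl, ⟨n j, hw1 j⟩, ?_⟩⟩
  · -- the local minimum
    have hw2 : P (j + 2) + G (j + 2) = Q (j + 1) + hh j + lv D.b (n (j + 1)) + lv D.b (n j) + G j := by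
      rw [hw1 (j + 1), hGs]; abel
    obtain ⟨a, ha⟩ := H3_Bper h (hm j)
    have hn1 := hn (j + 1)
    rw [hPQ] at hn1
    have e1 : ∀ x x' : E, (D0 D).kk (lj (j + 1)) (σ (j + 1)) (τ (j + 1)) (τ (j + 2)) (x - hh j) x' =
        (D0 D).kk (lj (j + 1)) (σ (j + 1)) (τ (j + 1)) (τ (j + 2)) x (x' + hh j) := fun x x' => by
      rw [← kk_Lam h (hl (j + 1)) (hm j) _ _ _ (x - hh j) x', sub_add_cancel]
    have hs := EscZ.site h (hl j) (hl (j + 1)) (hσ j) (hσ (j + 1)) (hτ j) (hτ (j + 1)) (x0 := P j) (a := Q j)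
      (x2 := Q (j + 1) + hh j) (by
        filter_upwards [hsite j] with x hx
        rw [e1, e1] at hx
        exact hx) (hn j) (n' := n (j + 1)) (by
        rw [← e1, hn1]
        have e2 : kerl (lj (j + 1)) (τ (j + 1)) (τ (j + 1 + 1)) (Q j - hh j) (Q (j + 1) + lv D.b (n (j + 1))) =
            kerl (lj (j + 1)) (τ (j + 1)) (τ (j + 1 + 1)) (Q j) (Q (j + 1) + hh j + lv D.b (n (j + 1))) := by
          have e5 := kerl_shift (hh j) (fun x u t => C6_per (hl (j + 1)) (hm j) x u t) (τ (j + 1))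
            (τ (j + 1 + 1)) (Q j - hh j) (Q (j + 1) + lv D.b (n (j + 1)))
          rw [sub_add_cancel, add_right_comm (Q (j + 1))] at e5
          exact e5.symm
        have e3 := ha (Q (j + 1) + lv D.b (n (j + 1)))
        have e4 := ha (Q j - hh j)
        rw [sub_add_cancel] at e4
        rw [add_right_comm (Q (j + 1))] at e3
        rw [e2, e3, e4]
        ring)
    -- shift by the cumulated vector
    show IsLocalMin (fun x => kerl (lj j) (τ j) (τ (j + 1)) (P j + G j) x +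
        kerl (lj (j + 1)) (τ (j + 1)) (τ (j + 2)) x (P (j + 2) + G (j + 2))) (P (j + 1) + G (j + 1))
    rw [hw2, hw1]
    have htend : Tendsto (fun x => x - G j) (𝓝 (Q j + lv D.b (n j) + G j)) (𝓝 (Q j + lv D.b (n j))) := by
      have h1 : Tendsto (fun x => x - G j) (𝓝 (Q j + lv D.b (n j) + G j))
        (𝓝 (Q j + lv D.b (n j) + G j - G j)) := tendsto_id.sub_const _
      rwa [add_sub_cancel_right] at h1
    have hK : ∀ (i : ℕ) (t t' : ℝ) (x x' : E), kerl (lj i) t t' (x + G j) (x' + G j) = kerl (lj i) t t' x x' :=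
      fun i t t' x x' => kerl_shift (G j) (fun x u t => C6_per (hl i) (hGm j) x u t) t t' x x'
    filter_upwards [htend.eventually hs] with x hx
    obtain ⟨y, rfl⟩ : ∃ y, x = y + G j := ⟨x - G j, (sub_add_cancel _ _).symm⟩
    rw [add_sub_cancel_right] at hx
    simp only [hK]
    exact hx
  · -- the value
    show kerl (lj j) (τ j) (τ (j + 1)) (P j + G j) (P (j + 1) + G (j + 1)) -
      σ j * ((D0 D).B (P (j + 1) + G (j + 1)) - (D0 D).B (P j + G j)) + _ = _
    rw [hw1, kerl_shift (G j) (fun x u t => C6_per (hl j) (hGm j) x u t), hn j]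
    obtain ⟨a, ha⟩ := H3_Bper h (hGm j)
    rw [ha, ha]
    ring
  · show P 0 + G 0 = P 0
    rw [hG]
    simp
  · intro t c ht ht' hle
    obtain ⟨y, rfl⟩ : ∃ y, c = y + G j := ⟨c - G j, (sub_add_cancel _ _).symm⟩
    have hK : ∀ (t t' : ℝ) (x x' : E), kerl (lj j) t t' (x + G j) (x' + G j) = kerl (lj j) t t' x x' :=
      fun t t' x x' => kerl_shift (G j) (fun x u t => C6_per (hl j) (hGm j) x u t) t t' x x'
    simp only [hw1 j, hK] at hle
    rw [add_sub_cancel_right, hn j]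
    have k1 := K_le (hl j) (QB0 h.toOk0 0) (hσ j) ht (P j) y 0
    have k2 := K_le (hl j) (QB0 h.toOk0 0) (hσ j) ht' y (Q j) (n j)
    rw [H3_lv0, add_zero] at k1
    have k1' : (D0 D).kk (lj j) (σ j) (τ j) t (P j) y ≤ kerl (lj j) (τ j) t (P j) y - σ j * ((D0 D).B y - (D0 D).B (P j)) +
      σ j ^ 2 / 2 * (t - τ j) := k1
    have k2' : (D0 D).kk (lj j) (σ j) t (τ (j + 1)) y (Q j) ≤ kerl (lj j) t (τ (j + 1)) y (Q j + lv D.b (n j)) -
      σ j * ((D0 D).B (Q j + lv D.b (n j)) - (D0 D).B y) + σ j ^ 2 / 2 * (τ (j + 1) - t) := k2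
    linarith

/-! ### minima on the compact room are local minima -/

theorem PH3_int (h : D.Ok) (hp : POk D p) {φ : E → ℝ} (hφ : ∀ x n, φ (x + lv D.b n) = φ x) {y : E}
    (hy : y ∈ (D0 D).C p) (hmin : ∀ x ∈ (D0 D).C p, φ y ≤ φ x)
    (halt : Metric.infDist y (D.Z 0) = p.η1 → φ (D.q 0) < φ y) :
    ∀ᶠ x in 𝓝 y, φ y ≤ φ x := by
  have hR : ∀ x ∈ (D0 D).R p, φ y ≤ φ x := by
    intro x hx
    obtain ⟨n, hn⟩ := R_red h hp hx
    rw [← hφ x n]
    exact hmin _ hn
  have hyR : Metric.infDist y (D.Z 0) ≤ p.η1 := C_sub hy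
  have hne : Metric.infDist y (D.Z 0) ≠ p.η1 := by
    intro he
    have hq1 := halt he
    have := hR _ (q_R h hp)
    linarith
  have hlt : Metric.infDist y (D.Z 0) < p.η1 := lt_of_le_of_ne hyR hne
  have hc : ContinuousAt (fun x => Metric.infDist x (D.Z 0)) y :=
    (Metric.continuous_infDist_pt (D.Z 0)).continuousAt
  filter_upwards [hc.eventually (gt_mem_nhds hlt)] with x hx
  exact hR x (le_of_lt hx)

theorem PH3_X (h : D.Ok) {x : E} {ρ : ℝ} (hx : x ∈ D.X ρ) (n : Fin d → ℤ) : x + lv D.b n ∈ D.X ρ := by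
  obtain ⟨k, hk⟩ := hx
  refine ⟨k - n, ?_⟩
  have e : x + lv D.b n + lv D.b (k - n) = x + lv D.b k := by
    have e1 : lv D.b n + lv D.b (k - n) = lv D.b k := by
      unfold lv
      rw [← Finset.sum_add_distrib]
      refine Finset.sum_congr rfl fun i _ => ?_
      rw [← add_smul]
      congr 1
      simp
    rw [add_assoc, e1]
  rw [e]
  exact hk

/-! ### the legs -/

theorem PH3_leg0 (h : D.Ok) (hl : TG D.β m M ll) (r : ℕ → ℝ) {T : ℕ → ℕ} {n : ℕ}
    (hT : 1 ≤ T n) (s : ℝ) (w x : E) :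
    (D0 D).kk ll s (H3_A r T n 0) (H3_A' r T n 0) (w - D.g) x = (D0 D).P ll s (r n) w x := by
  have e1 : H3_A r T n 0 = r n + (H3_N T n : ℤ) := by
    unfold H3_A
    rw [if_pos rfl]
    ring
  have e2 : H3_A' r T n 0 = 2 + (H3_N T n : ℤ) := by
    unfold H3_A'
    rw [if_neg (by omega)]
    push_cast
    ring
  rw [e1, e2, kk_time h hl]
  rfl

theorem PH3_leg1 (h : D.Ok) (hl : TG D.β m M ll) (r : ℕ → ℝ) {T : ℕ → ℕ} {n k : ℕ}
    (hk : k ≠ 0) (hkT : k ≠ T n + 1) (s : ℝ) (w x : E) :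
    (D0 D).kk ll s (H3_A r T n k) (H3_A' r T n k) w x = (D0 D).k1 ll s w x := by
  have e1 : H3_A r T n k = 0 + ((H3_N T n + 1 + k : ℤ) : ℝ) := by
    unfold H3_A
    rw [if_neg hk]
    push_cast
    ring
  have e2 : H3_A' r T n k = 1 + ((H3_N T n + 1 + k : ℤ) : ℝ) := by
    unfold H3_A'
    rw [if_neg hkT]
    push_cast
    ring
  rw [e1, e2, kk_time h hl]
  rfl

theorem PH3_leg2 (h : D.Ok) (hl : TG D.β m M ll) (r : ℕ → ℝ) (T : ℕ → ℕ) (n : ℕ)
    (s : ℝ) (w x : E) :
    (D0 D).kk ll s (H3_A r T n (T n + 1)) (H3_A' r T n (T n + 1)) w x = (D0 D).Q ll s (r (n + 1)) w x := by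
  have e1 : H3_A r T n (T n + 1) = 0 + ((H3_N T n + T n + 2 : ℤ) : ℝ) := by
    unfold H3_A
    rw [if_neg (by omega)]
    push_cast
    ring
  have e2 : H3_A' r T n (T n + 1) = (1 + r (n + 1)) + ((H3_N T n + T n + 2 : ℤ) : ℝ) := by
    unfold H3_A'
    rw [if_pos rfl]
    push_cast
    ring
  rw [e1, e2, kk_time h hl]
  rfl

/-! ### the orbit as a sequence -/

theorem chs_seq (h : D.Ok) (hp : POk D p) {ll : ℕ → E → E → ℝ → ℝ} {mm MM : ℕ → ℝ}
    (hl : ∀ n, TG D.β (mm n) (MM n) (ll n)) {x0 : E} {s r : ℕ → ℝ} {T : ℕ → ℕ} {z : ℕ → E} {y : ℕ → ℕ → E}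
    (hc : Chs D p ll x0 s r T z y) (hL : ∀ n, Leg D p (ll n) (s n)) :
    ∃ (N : ℕ → ℕ) (τ : ℕ → ℝ) (w : ℕ → E), τ 0 ≤ 0 ∧ w 0 = x0 ∧
      (∀ j, 1 ≤ τ (j + 1) - τ j ∧ τ (j + 1) - τ j ≤ 2) ∧ Tendsto N atTop atTop ∧
      (∀ j, IsLocalMin (fun x => kerl (ll (N j)) (τ j) (τ (j + 1)) (w j) x +
        kerl (ll (N (j + 1))) (τ (j + 1)) (τ (j + 2)) x (w (j + 2))) (w (j + 1))) ∧
      (∀ j, Xp D p (w j) (w (j + 1)) ∧
        (D0 D).kk (ll (N j)) (s (N j)) (τ j) (τ (j + 1)) (w j) (w (j + 1)) =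
          kerl (ll (N j)) (τ j) (τ (j + 1)) (w j) (w (j + 1)) -
            s (N j) * ((D0 D).B (w (j + 1)) - (D0 D).B (w j)) + s (N j) ^ 2 / 2 * (τ (j + 1) - τ j)) ∧
      (∀ j, w j ∈ Near D p (τ j)) ∧
      ∀ j t c, τ j < t → t < τ (j + 1) →
        kerl (ll (N j)) (τ j) t (w j) c + kerl (ll (N j)) t (τ (j + 1)) c (w (j + 1)) ≤
          kerl (ll (N j)) (τ j) (τ (j + 1)) (w j) (w (j + 1)) → c ∈ Near D p t := by
  have hspos : ∀ n, 0 ≤ s n := fun n => (hL n).s_nonneg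
  have hTp : ∀ n, 1 ≤ T n := hc.T_pos
  obtain ⟨S, hS0, hlt, hSk, hSt, hnext⟩ : ∃ S : ℕ → ℕ × ℕ, S 0 = (0, 1) ∧
      (∀ j, (S j).2 < T (S j).1 + 2) ∧ (∀ j, (S j).2 = 0 → ∃ n, (S j).1 = n + 1) ∧
      Tendsto (fun j => (S j).1) atTop atTop ∧
      ∀ j, (S (j + 1) = if (S j).2 + 1 < T (S j).1 + 2 then ((S j).1, (S j).2 + 1)
        else ((S j).1 + 1, 0)) ∧
      H3_A r T (S (j + 1)).1 (S (j + 1)).2 = H3_A' r T (S j).1 (S j).2 ∧
      H3_P D z y (S (j + 1)).1 (S (j + 1)).2 =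
        H3_Q T z y (S j).1 (S j).2 - H3_h D T (S j).1 (S j).2 := by
    refine ⟨fun j => H3_st (fun n => T n + 2) (j + 1), ?_, fun j => H3_st_lt (fun m => by omega) _,
      fun j => ?_, (H3_st_tendsto (fun m => by omega)).comp (tendsto_add_atTop_nat 1),
      fun j => H3_next r T z y D (j + 1)⟩
    · show H3_st (fun n => T n + 2) (0 + 1) = (0, 1)
      rw [H3_st, H3_st]
      simp
    · show (H3_st (fun n => T n + 2) (j + 1)).2 = 0 →
        ∃ n, (H3_st (fun n => T n + 2) (j + 1)).1 = n + 1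
      rw [H3_st]
      split_ifs with h1
      · intro h2
        simp at h2
      · intro _
        exact ⟨_, rfl⟩
  set τ : ℕ → ℝ := fun j => H3_A r T (S j).1 (S j).2 with hτdef
  have hτ1 : ∀ j, τ (j + 1) = H3_A' r T (S j).1 (S j).2 := fun j => (hnext j).2.1
  -- durations
  have hdur : ∀ j, 1 ≤ τ (j + 1) - τ j ∧ τ (j + 1) - τ j ≤ 2 := by
    intro j
    rw [hτ1]
    simp only [hτdef]
    have hr := hc.r_nonneg (S j).1
    have hr' := hc.r_lt (S j).1
    have hq := hc.r_nonneg ((S j).1 + 1)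
    have hq' := hc.r_lt ((S j).1 + 1)
    have hT1 := hTp (S j).1
    by_cases h0 : (S j).2 = 0
    · unfold H3_A H3_A'
      rw [if_pos h0, if_neg (by omega), h0]
      push_cast
      constructor <;> linarith
    · by_cases h1 : (S j).2 = T (S j).1 + 1
      · unfold H3_A H3_A'
        rw [if_neg h0, if_pos h1, h1]
        push_cast
        constructor <;> linarith
      · unfold H3_A H3_A'
        rw [if_neg h0, if_neg h1]
        constructor <;> linarith
  set σ : ℕ → ℝ := fun j => s (S j).1 with hσdef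
  set P : ℕ → E := fun j => H3_P D z y (S j).1 (S j).2 with hPdef
  set Q : ℕ → E := fun j => H3_Q T z y (S j).1 (S j).2 with hQdef
  set hh : ℕ → E := fun j => H3_h D T (S j).1 (S j).2 with hhdef
  have hkk : ∀ j, (D0 D).kk (ll (S j).1) (σ j) (τ j) (τ (j + 1)) =
      (D0 D).kk (ll (S j).1) (s (S j).1) (H3_A r T (S j).1 (S j).2) (H3_A' r T (S j).1 (S j).2) := fun j => by
    rw [hτ1]
  have hm : ∀ j, hh j ∈ D.Lam := by
    intro j
    simp only [hhdef]
    unfold H3_h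
    split_ifs
    · exact h.g_mem
    · exact D.Lam.zero_mem
  have hyR : ∀ n k, k ≤ T n → y n k ∈ (D0 D).R p := fun n k hk => C_sub (hc.yC n k hk)
  have hsite : ∀ j, ∀ᶠ x in 𝓝 (Q j), (D0 D).kk (ll (S j).1) (σ j) (τ j) (τ (j + 1)) (P j) (Q j) +
      (D0 D).kk (ll (S (j + 1)).1) (σ (j + 1)) (τ (j + 1)) (τ (j + 2)) (Q j - hh j) (Q (j + 1)) -
        (σ (j + 1) - σ j) * (D0 D).B (Q j) ≤ (D0 D).kk (ll (S j).1) (σ j) (τ j) (τ (j + 1)) (P j) x +
      (D0 D).kk (ll (S (j + 1)).1) (σ (j + 1)) (τ (j + 1)) (τ (j + 2)) (x - hh j) (Q (j + 1)) -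
        (σ (j + 1) - σ j) * (D0 D).B x := by
    intro j
    have hS1 := (hnext j).1
    have hlj := hlt j
    rw [hkk j, hkk (j + 1)]
    simp only [hPdef, hQdef, hhdef, hσdef]
    rw [hS1]
    have hkj := hSk j
    obtain ⟨n, hn⟩ : ∃ n, n = (S j).1 := ⟨_, rfl⟩
    obtain ⟨k, hk⟩ : ∃ k, k = (S j).2 := ⟨_, rfl⟩
    rw [← hn, ← hk] at hlj hkj ⊢
    have hTn := hTp n
    by_cases hD : k = T n + 1
    · -- gate
      subst hD
      rw [if_neg (by omega)]
      have e1 : H3_P D z y n (T n + 1) = y n (T n) := by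
        unfold H3_P
        rw [if_neg (by omega)]
        rfl
      have e2 : H3_Q T z y n (T n + 1) = z (n + 1) := if_pos rfl
      have e3 : H3_h D T n (T n + 1) = D.g := if_pos rfl
      have e4 : H3_Q T z y (n + 1) 0 = y (n + 1) 0 := if_neg (by omega)
      simp only [e1, e2, e3, e4, PH3_leg2 h (hl n), PH3_leg0 h (hl (n + 1)) r (hTp (n + 1))]
      exact hc.mz n
    · rw [if_pos (by omega)]
      have e2 : H3_Q T z y n k = y n k := if_neg hD
      have e3 : H3_h D T n k = 0 := if_neg hD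
      simp only [e2, e3, sub_zero, sub_self, zero_mul]
      by_cases h0 : k = 0
      · -- first room point
        subst h0
        obtain ⟨n', rfl⟩ := hkj rfl
        have e1 : H3_P D z y (n' + 1) 0 = z (n' + 1) - D.g := if_pos rfl
        have e4 : H3_Q T z y (n' + 1) (0 + 1) = y (n' + 1) 1 := if_neg (by omega)
        simp only [e1, e4, PH3_leg0 h (hl (n' + 1)) r hTn, PH3_leg1 h (hl (n' + 1)) r (show 0 + 1 ≠ 0 by omega)
          (show 0 + 1 ≠ T (n' + 1) + 1 by omega)]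
        refine PH3_int h hp (φ := fun x => (D0 D).P (ll (n' + 1)) (s (n' + 1)) (r (n' + 1)) (z (n' + 1)) x + (D0 D).k1 (ll (n' + 1)) (s (n' + 1)) x (y (n' + 1) 1))
          (fun x n'' => ?_) (hc.yC (n' + 1) 0 (by omega)) (hc.m0 n') (fun hi => ?_)
        · have a1 := kk_J h (hl (n' + 1)) (s (n' + 1)) (r (n' + 1)) 2 (z (n' + 1) - D.g) x 0 n''
          have a2 := kk_J h (hl (n' + 1)) (s (n' + 1)) 0 1 x (y (n' + 1) 1) n'' 0
          rw [H3_lv0, add_zero] at a1 a2
          show (D0 D).kk (ll (n' + 1)) (s (n' + 1)) (r (n' + 1)) 2 (z (n' + 1) - D.g) (x + lv D.b n'') +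
            (D0 D).kk (ll (n' + 1)) (s (n' + 1)) 0 1 (x + lv D.b n'') (y (n' + 1) 1)
            = _
          rw [a1, a2]
          rfl
        · exact (hL (n' + 1)).r1 (r (n' + 1)) (hc.r_nonneg _) (hc.r_lt _).le
            (z (n' + 1)) (hc.zM n') (y (n' + 1) 1) (hyR (n' + 1) 1 hTn) (y (n' + 1) 0) hi
      · obtain ⟨k, rfl⟩ : ∃ k', k = k' + 1 := ⟨k - 1, by omega⟩
        have e1 : H3_P D z y n (k + 1) = y n k := by
          unfold H3_P
          rw [if_neg (by omega)]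
          rfl
        by_cases hT : k + 1 = T n
        · -- last room point
          have e4 : H3_Q T z y n (k + 1 + 1) = z (n + 1) := if_pos (by omega)
          have e5 : ∀ w x : E, (D0 D).kk (ll n) (s n) (H3_A r T n (k + 1 + 1)) (H3_A' r T n (k + 1 + 1)) w x =
              (D0 D).Q (ll n) (s n) (r (n + 1)) w x := fun w x => by
            rw [hT]
            exact PH3_leg2 h (hl n) r T n (s n) w x
          simp only [e1, e4, e5, PH3_leg1 h (hl n) r h0 hD]
          refine PH3_int h hp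
            (φ := fun x => (D0 D).k1 (ll n) (s n) (y n k) x + (D0 D).Q (ll n) (s n) (r (n + 1)) x (z (n + 1)))
            (fun x n' => ?_) (hc.yC n (k + 1) (by omega)) (hc.mT n k hT) (fun hi => ?_)
          · have a1 := kk_J h (hl n) (s n) 0 1 (y n k) x 0 n'
            have a2 := kk_J h (hl n) (s n) 0 (1 + r (n + 1)) x (z (n + 1)) n' 0
            rw [H3_lv0, add_zero] at a1 a2
            show (D0 D).kk (ll n) (s n) 0 1 (y n k) (x + lv D.b n') +
              (D0 D).kk (ll n) (s n) 0 (1 + r (n + 1)) (x + lv D.b n') (z (n + 1)) = _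
            rw [a1, a2]
            rfl
          · exact (hL n).r2 (r (n + 1)) (hc.r_nonneg (n + 1)) (hc.r_lt (n + 1)).le
              (z (n + 1)) (hc.zM n) (y n k) (hyR n k (by omega)) (y n (k + 1)) hi
        · -- interior room point
          have e4 : H3_Q T z y n (k + 1 + 1) = y n (k + 2) := if_neg (by omega)
          simp only [e1, e4, PH3_leg1 h (hl n) r h0 hD, PH3_leg1 h (hl n) r (show k + 1 + 1 ≠ 0 by omega)
            (show k + 1 + 1 ≠ T n + 1 by omega)]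
          refine PH3_int h hp
            (φ := fun x => (D0 D).k1 (ll n) (s n) (y n k) x + (D0 D).k1 (ll n) (s n) x (y n (k + 2)))
            (fun x n' => ?_) (hc.yC n (k + 1) (by omega)) (hc.mm n k (by omega)) (fun hi => ?_)
          · have a1 := kk_J h (hl n) (s n) 0 1 (y n k) x 0 n'
            have a2 := kk_J h (hl n) (s n) 0 1 x (y n (k + 2)) n' 0
            rw [H3_lv0, add_zero] at a1 a2
            show (D0 D).kk (ll n) (s n) 0 1 (y n k) (x + lv D.b n') +
              (D0 D).kk (ll n) (s n) 0 1 (x + lv D.b n') (y n (k + 2)) = _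
            rw [a1, a2]
            rfl
          · exact (hL n).r0 (y n k) (hyR n k (by omega)) (y n (k + 2))
              (hyR n (k + 2) (by omega)) (y n (k + 1)) hi
  obtain ⟨w, hw1, hw2, hw0, hwv⟩ := PH3_seq h (lj := fun j => ll (S j).1) (mm := fun j => mm (S j).1)
    (MM := fun j => MM (S j).1) (fun j => hl _) P Q hh σ τ (fun j => hspos _)
    (fun j => by linarith [(hdur j).1]) hm (fun j => (hnext j).2.2) hsite
  have hPc : ∀ j, ((S j).2 = 0 ∧ ∃ n, (S j).1 = n + 1 ∧ P j = z (n + 1) - D.g) ∨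
      ((S j).2 ≠ 0 ∧ P j = y (S j).1 ((S j).2 - 1) ∧ y (S j).1 ((S j).2 - 1) ∈ (D0 D).C p) := by
    intro j
    by_cases h0 : (S j).2 = 0
    · obtain ⟨n, hn⟩ := hSk j h0
      refine Or.inl ⟨h0, n, hn, ?_⟩
      simp only [hPdef]
      unfold H3_P
      rw [if_pos h0, hn]
    · refine Or.inr ⟨h0, ?_, hc.yC _ _ (by have := hlt j; omega)⟩
      simp only [hPdef]
      unfold H3_P
      rw [if_neg h0]
  have hPX : ∀ j, P j ∈ D.X p.ρ := by
    intro j
    rcases hPc j with ⟨_, n, _, h2⟩ | ⟨_, h2, h3⟩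
    · rw [h2]
      exact (H3_Md_X hp (hc.zM _)).2
    · rw [h2]
      exact H3_C_X h3
  have hQX : ∀ j, Q j ∈ D.X p.ρ := by
    intro j
    simp only [hQdef]
    unfold H3_Q
    split_ifs with h0
    · exact (H3_Md_X hp (hc.zM _)).1
    · exact H3_C_X (hc.yC _ _ (by have := hlt j; omega))
  refine ⟨fun j => (S j).1, τ, w, ?_, ?_, hdur, hSt, hw1, fun j => ?_, fun j => ?_, fun j t c ht ht' hle => ?_⟩
  · show H3_A r T (S 0).1 (S 0).2 ≤ 0
    rw [hS0]
    unfold H3_A H3_N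
    rw [if_neg (by simp)]
    simp only [Finset.range_zero, Finset.sum_empty]
    push_cast
    norm_num
  · rw [hw0]
    show H3_P D z y (S 0).1 (S 0).2 = x0
    rw [hS0, ← hc.start]
    rfl
  · obtain ⟨v, hv, hwj, ⟨n', hwj'⟩, _⟩ := hwv j
    constructor
    · refine ⟨-v, D.Lam.neg_mem hv, ?_, ?_⟩
      · rw [hwj, add_neg_cancel_right]
        exact hPX j
      · rw [hwj', add_neg_cancel_right]
        exact PH3_X h (hQX j) n'
    · have e1 : (D0 D).kk (ll (S j).1) (s (S j).1) (τ j) (τ (j + 1)) (w j) (w (j + 1)) =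
          (D0 D).kk (ll (S j).1) (s (S j).1) (τ j) (τ (j + 1)) (P j) (Q j) := by
        rw [hwj, hwj', kk_Lam h (hl _) hv]
        have e2 := kk_J h (hl (S j).1) (s (S j).1) (τ j) (τ (j + 1)) (P j) (Q j) 0 n'
        rw [H3_lv0, add_zero] at e2
        exact e2
      show (D0 D).kk (ll (S j).1) (s (S j).1) (τ j) (τ (j + 1)) (w j) (w (j + 1)) = _
      rw [e1]
      exact (hw2 j).symm
  · obtain ⟨v, hv, hwj, _, _⟩ := hwv j
    rcases hPc j with ⟨h0, n, hn, h2⟩ | ⟨h0, h2, h3⟩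
    · have e1 : τ j = r (n + 1) + (H3_N T (n + 1) : ℤ) := by
        show H3_A r T (S j).1 (S j).2 = _
        unfold H3_A
        rw [if_pos h0, hn]
        ring
      refine H3_Near_sub h (H3_N T (n + 1)) e1 (H3_near hv h.g_mem ?_)
      rw [hwj, h2, add_sub_cancel_right, sub_add_cancel]
      exact H3_nr_Md hp (hc.zM n)
    · have e1 : τ j = 0 + ((H3_N T (S j).1 + 1 + (S j).2 : ℤ) : ℝ) := by
        show H3_A r T (S j).1 (S j).2 = _
        unfold H3_A
        rw [if_neg h0]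
        push_cast
        ring
      refine H3_Near_sub h _ e1 (H3_near hv D.Lam.zero_mem ?_)
      rw [hwj, h2, add_sub_cancel_right, add_zero]
      exact H3_nr_R hp (C_sub h3)
  · obtain ⟨v, hv, hwj, _, hopt⟩ := hwv j
    have hle2 := hopt t c ht ht' hle
    rw [hkk j] at hle2
    have hτj : τ j = H3_A r T (S j).1 (S j).2 := rfl
    rw [hτj, hτ1] at hle2
    rw [hτj] at ht
    rw [hτ1] at ht'
    have hQe : Q j = H3_Q T z y (S j).1 (S j).2 := rfl
    have hPe : P j = H3_P D z y (S j).1 (S j).2 := rfl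
    have hσe : σ j = s (S j).1 := rfl
    rw [hQe, hPe, hσe] at hle2
    have hlj := hlt j
    have hkj := hSk j
    obtain ⟨n, hn⟩ : ∃ n, n = (S j).1 := ⟨_, rfl⟩
    obtain ⟨k, hk⟩ : ∃ k, k = (S j).2 := ⟨_, rfl⟩
    rw [← hn, ← hk] at hle2 hlj hkj ht ht'
    have hTn := hTp n
    by_cases h0 : k = 0
    · -- leg after a gate
      subst h0
      obtain ⟨n, rfl⟩ := hkj rfl
      refine H3_Near_sub h (t' := t - (H3_N T (n + 1) : ℤ)) (H3_N T (n + 1)) (by ring)
        (H3_near hv h.g_mem ?_)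
      by_contra hcon
      have e1 : H3_A r T (n + 1) 0 = r (n + 1) + (H3_N T (n + 1) : ℤ) := by
        unfold H3_A
        rw [if_pos rfl]
        ring
      have e2 : H3_A' r T (n + 1) 0 = 2 + (H3_N T (n + 1) : ℤ) := by
        unfold H3_A'
        rw [if_neg (by omega)]
        push_cast
        ring
      have e3 : H3_P D z y (n + 1) 0 = z (n + 1) - D.g := if_pos rfl
      have e4 : H3_Q T z y (n + 1) 0 = y (n + 1) 0 := if_neg (by omega)
      rw [e3, e4, PH3_leg0 h (hl (n + 1)) r hTn, e1, e2] at hle2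
      rw [e1] at ht
      rw [e2] at ht'
      have e5 : t = (t - (H3_N T (n + 1) : ℤ)) + (H3_N T (n + 1) : ℤ) := by ring
      have g1 := (hL (n + 1)).nP (y (n + 1) 0) (hyR _ _ (by omega)) (r (n + 1))
        (hc.r_nonneg _) (hc.r_lt _).le (z (n + 1)) (hc.zM n) (t - (H3_N T (n + 1) : ℤ))
        (by linarith) (by linarith) (c - v) hcon
      rw [e5, kk_time h (hl (n + 1)), kk_time h (hl (n + 1))] at hle2
      linarith
    · by_cases h1 : k = T n + 1
      · -- leg before a gate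
        subst h1
        refine H3_Near_sub h (t' := t - ((H3_N T n + T n + 2 : ℤ) : ℝ)) (H3_N T n + T n + 2)
          (by ring) (H3_near hv D.Lam.zero_mem ?_)
        rw [add_zero]
        by_contra hcon
        have e1 : H3_A r T n (T n + 1) = 0 + ((H3_N T n + T n + 2 : ℤ) : ℝ) := by
          unfold H3_A
          rw [if_neg (by omega)]
          push_cast
          ring
        have e2 : H3_A' r T n (T n + 1) = (1 + r (n + 1)) + ((H3_N T n + T n + 2 : ℤ) : ℝ) := by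
          unfold H3_A'
          rw [if_pos rfl]
          push_cast
          ring
        have e3 : H3_P D z y n (T n + 1) = y n (T n) := by
          unfold H3_P
          rw [if_neg (by omega)]
          rfl
        have e4 : H3_Q T z y n (T n + 1) = z (n + 1) := if_pos rfl
        rw [e3, e4, PH3_leg2 h (hl n), e1, e2] at hle2
        rw [e1] at ht
        rw [e2] at ht'
        have e5 : t = (t - ((H3_N T n + T n + 2 : ℤ) : ℝ)) + ((H3_N T n + T n + 2 : ℤ) : ℝ) := by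
          ring
        have g1 := (hL n).nQ (y n (T n)) (hyR _ _ le_rfl) (r (n + 1))
          (hc.r_nonneg _) (hc.r_lt _).le (z (n + 1)) (hc.zM n)
          (t - ((H3_N T n + T n + 2 : ℤ) : ℝ)) (by linarith) (by linarith) (c - v) hcon
        rw [e5, kk_time h (hl n), kk_time h (hl n)] at hle2
        linarith
      · -- leg in the room
        refine H3_Near_sub h (t' := t - ((H3_N T n + 1 + k : ℤ) : ℝ)) (H3_N T n + 1 + k)
          (by ring) (H3_near hv D.Lam.zero_mem ?_)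
        rw [add_zero]
        by_contra hcon
        have hout := H3_not_Nr hcon
        have e1 : H3_A r T n k = 0 + ((H3_N T n + 1 + k : ℤ) : ℝ) := by
          unfold H3_A
          rw [if_neg h0]
          push_cast
          ring
        have e2 : H3_A' r T n k = 1 + ((H3_N T n + 1 + k : ℤ) : ℝ) := by
          unfold H3_A'
          rw [if_neg h1]
          push_cast
          ring
        have e3 : H3_P D z y n k = y n (k - 1) := by
          unfold H3_P
          rw [if_neg h0]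
        have e4 : H3_Q T z y n k = y n k := if_neg h1
        rw [e3, e4, PH3_leg1 h (hl n) r h0 h1, e1, e2] at hle2
        rw [e1] at ht
        rw [e2] at ht'
        have e5 : t = (t - ((H3_N T n + 1 + k : ℤ) : ℝ)) + ((H3_N T n + 1 + k : ℤ) : ℝ) := by
          ring
        have g1 := (hL n).v1 (y n (k - 1)) (hyR _ _ (by omega)) (y n k)
          (hyR _ _ (by omega)) (t - ((H3_N T n + 1 + k : ℤ) : ℝ)) (by linarith) (by linarith)
          (c - v) hout
        rw [e5, kk_time h (hl n), kk_time h (hl n)] at hle2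
        linarith

end EscZ
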