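import Pool.Agent.EscW.QDefs2
import Pool.Agent.EscW.QH1
import Pool.Agent.EscW.QH3
import Pool.Agent.EscW.QA6
import Pool.Agent.EscT.H4

/-!
Module PH4: from stages to an escaping orbit (compare EscT/H4.lean `escapes_of_stages`). Proof: `exists_chs`, `chs_seq`
(with `fun n => ll (I n)`), `orbit_of_sitewise` (with `fun j => ll (I (N j))`, `T0 = 1`, `T1 = 2`). The pieces satisfy the hypotheses of
`Win` (class `s (N j)` in `[a i, a (i + 1)]`, `i = I (N j)`), hence stay in `Wn i ⊆ Wo i`, which is open and where `ll i = l + f + c`;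
so `gu (ll i) = gu l`, `gx (ll i) = gx (lf l f)` there; the momenta of `l` agree at the sites, hence the velocities do (`hinj`). Glue
the pieces: `x t = x j t` for `τ j ≤ t < τ (j + 1)`, `v` continuous, derivative and Euler-Lagrange equation at the sites by continuity
of the one-sided derivatives (`hasDerivAt` from left and right: e.g. `hasDerivWithinAt_Ici_of_tendsto_deriv` or integral form).
Points of the pieces are in `Near` (last part of `chs_seq` with `c = x j t`; see `split_le` in H4), `V i ≤ ‖v‖` in `Wn i` and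
`I (N j) → ∞`.
-/

noncomputable section

namespace EscZ

open MeasureTheory Set Filter Topology Esc EscF EscG EscT
open scoped ContDiff

variable {ι : Type} [Fintype ι] {d : ℕ} {E : Type*} [NormedAddCommGroup E] [InnerProductSpace ℝ E]
  [FiniteDimensional ℝ E] {D : GT ι d E} {p : GP} {m M Mf : ℝ} {L : LP} {l0 l1 ll l : E → E → ℝ → ℝ}
  {f f' : E → ℝ → ℝ}

/-! ### gradients -/

theorem PH4_gu_cont {g : E → E → ℝ → ℝ}
    (hg : ContDiff ℝ 2 (fun q : E × E × ℝ => g q.1 q.2.1 q.2.2)) :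
    Continuous (fun q : E × E × ℝ => gu g q.1 q.2.1 q.2.2) := by
  have h2 : ∀ q : E × E × ℝ, gu g q.1 q.2.1 q.2.2 =
      (InnerProductSpace.toDual ℝ E).symm
        ((fderiv ℝ (fun q : E × E × ℝ => g q.1 q.2.1 q.2.2) q).comp
        ((ContinuousLinearMap.inr ℝ E (E × ℝ)).comp (ContinuousLinearMap.inl ℝ E ℝ))) := by
    rintro ⟨x, v, t⟩
    have h1 : HasFDerivAt (fun q : E × E × ℝ => g q.1 q.2.1 q.2.2)
        (fderiv ℝ (fun q : E × E × ℝ => g q.1 q.2.1 q.2.2) (x, v, t)) (x, v, t) :=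
      ((hg.differentiable (by norm_num)) _).hasFDerivAt
    have h2 : HasFDerivAt (fun w : E => (x, w, t))
        ((ContinuousLinearMap.inr ℝ E (E × ℝ)).comp (ContinuousLinearMap.inl ℝ E ℝ)) v := by
      have h3 : HasFDerivAt (fun w : E => (w, t)) (ContinuousLinearMap.inl ℝ E ℝ) v :=
        hasFDerivAt_prodMk_left v t
      exact (hasFDerivAt_prodMk_right x (v, t)).comp v h3
    have h5' : HasFDerivAt (fun w => g x w t)
        ((fderiv ℝ (fun q : E × E × ℝ => g q.1 q.2.1 q.2.2) (x, v, t)).comp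
          ((ContinuousLinearMap.inr ℝ E (E × ℝ)).comp (ContinuousLinearMap.inl ℝ E ℝ))) v :=
      HasFDerivAt.comp (g := fun q : E × E × ℝ => g q.1 q.2.1 q.2.2) v h1 h2
    show gradient (fun w => g x w t) v = _
    unfold gradient
    rw [h5'.fderiv]
  rw [show (fun q : E × E × ℝ => gu g q.1 q.2.1 q.2.2) = _ from funext h2]
  exact (InnerProductSpace.toDual ℝ E).symm.continuous.comp
    ((hg.continuous_fderiv (by norm_num)).clm_comp continuous_const)

theorem PH4_gx_cont {g : E → E → ℝ → ℝ}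
    (hg : ContDiff ℝ 2 (fun q : E × E × ℝ => g q.1 q.2.1 q.2.2)) :
    Continuous (fun q : E × E × ℝ => gx g q.1 q.2.1 q.2.2) := by
  have h2 : ∀ q : E × E × ℝ, gx g q.1 q.2.1 q.2.2 =
      (InnerProductSpace.toDual ℝ E).symm
        ((fderiv ℝ (fun q : E × E × ℝ => g q.1 q.2.1 q.2.2) q).comp
          (ContinuousLinearMap.inl ℝ E (E × ℝ))) := by
    rintro ⟨x, v, t⟩
    have h3 : HasFDerivAt (fun q : E × E × ℝ => g q.1 q.2.1 q.2.2)
        (fderiv ℝ (fun q : E × E × ℝ => g q.1 q.2.1 q.2.2) (x, v, t)) (x, v, t) :=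
      ((hg.differentiable (by norm_num)) _).hasFDerivAt
    have h4 : HasFDerivAt (fun y : E => (y, v, t)) (ContinuousLinearMap.inl ℝ E (E × ℝ)) x :=
      hasFDerivAt_prodMk_left x (v, t)
    have h5' : HasFDerivAt (fun y => g y v t)
        ((fderiv ℝ (fun q : E × E × ℝ => g q.1 q.2.1 q.2.2) (x, v, t)).comp
          (ContinuousLinearMap.inl ℝ E (E × ℝ))) x :=
      HasFDerivAt.comp (g := fun q : E × E × ℝ => g q.1 q.2.1 q.2.2) x h3 h4
    show gradient (fun y => g y v t) x = _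
    unfold gradient
    rw [h5'.fderiv]
  rw [show (fun q : E × E × ℝ => gx g q.1 q.2.1 q.2.2) = _ from funext h2]
  exact (InnerProductSpace.toDual ℝ E).symm.continuous.comp
    ((hg.continuous_fderiv (by norm_num)).clm_comp continuous_const)

theorem PH4_grad_congr {f1 f2 : E → ℝ} {c : ℝ} {x : E} (h : ∀ᶠ y in 𝓝 x, f1 y = f2 y + c) :
    gradient f1 x = gradient f2 x := by
  unfold gradient
  rw [Filter.EventuallyEq.fderiv_eq (h : f1 =ᶠ[𝓝 x] fun y => f2 y + c), fderiv_add_const]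

/-! ### gluing -/

theorem PH4_contOn {G : Type*} [TopologicalSpace G] {τ : ℕ → ℝ} (hm : Monotone τ)
    (hunb : ∀ t, ∃ j, t < τ j) {X : ℝ → G}
    (h : ∀ j, ContinuousOn X (Icc (τ j) (τ (j + 1)))) : ContinuousOn X (Ici (τ 0)) := by
  have h1 : ∀ n, ContinuousOn X (Icc (τ 0) (τ n)) := by
    intro n
    induction n with
    | zero =>
      rw [Icc_self]
      exact continuousOn_singleton _ _
    | succ n ih =>
      rw [← Icc_union_Icc_eq_Icc (hm (Nat.zero_le n)) (hm (Nat.le_succ n))]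
      exact ih.union_of_isClosed (h n) isClosed_Icc isClosed_Icc
  intro t ht
  obtain ⟨n, hn⟩ := hunb t
  refine (h1 n t ⟨ht, hn.le⟩).mono_of_mem_nhdsWithin ?_
  rw [← Ici_inter_Iic]
  exact inter_mem self_mem_nhdsWithin (mem_nhdsWithin_of_mem_nhds (Iic_mem_nhds hn))

theorem PH4_site {G : Type*} [NormedAddCommGroup G] [NormedSpace ℝ G] {X V : ℝ → G} {a b c : ℝ}
    (hab : a < b) (hbc : b < c) (hX : ContinuousAt X b) (hV : ContinuousAt V b)
    (h1 : ∀ t ∈ Ioo a b, HasDerivAt X (V t) t) (h2 : ∀ t ∈ Ioo b c, HasDerivAt X (V t) t) :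
    HasDerivAt X (V b) b := by
  have hr : HasDerivWithinAt X (V b) (Ici b) b := by
    refine hasDerivWithinAt_Ici_of_tendsto_deriv (s := Ioo b c)
      (fun t ht => (h2 t ht).differentiableAt.differentiableWithinAt)
      hX.continuousWithinAt (Ioo_mem_nhdsGT hbc) ?_
    refine Tendsto.congr' ?_ (hV.tendsto.mono_left nhdsWithin_le_nhds)
    filter_upwards [Ioo_mem_nhdsGT hbc] with t ht
    exact (h2 t ht).deriv.symm
  have hl : HasDerivWithinAt X (V b) (Iic b) b := by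
    refine hasDerivWithinAt_Iic_of_tendsto_deriv (s := Ioo a b)
      (fun t ht => (h1 t ht).differentiableAt.differentiableWithinAt)
      hX.continuousWithinAt (Ioo_mem_nhdsLT hab) ?_
    refine Tendsto.congr' ?_ (hV.tendsto.mono_left nhdsWithin_le_nhds)
    filter_upwards [Ioo_mem_nhdsLT hab] with t ht
    exact (h1 t ht).deriv.symm
  have := hl.union hr
  rw [Iic_union_Ici] at this
  exact hasDerivWithinAt_univ.1 this

/-- derivative of a glued function -/
theorem PH4_deriv {G : Type*} [NormedAddCommGroup G] [NormedSpace ℝ G] {τ : ℕ → ℝ}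
    (hτ1 : ∀ j, 1 ≤ τ (j + 1) - τ j) (hunb : ∀ t, ∃ j, t < τ j) {X V : ℝ → G}
    (hX : ContinuousOn X (Ici (τ 0))) (hV : ContinuousOn V (Ici (τ 0)))
    (h : ∀ j, ∀ t ∈ Ioo (τ j) (τ (j + 1)), HasDerivAt X (V t) t) :
    ∀ t, τ 0 < t → HasDerivAt X (V t) t := by
  intro t ht
  obtain ⟨j, hj1, hj2⟩ := EscT.H4.exists_idx hunb ht.le
  rcases hj1.eq_or_lt with h1 | h1
  · obtain ⟨k, rfl⟩ : ∃ k, j = k + 1 := by
      rcases Nat.eq_zero_or_pos j with h0 | h0
      · exfalso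
        rw [h0] at h1
        linarith
      · exact ⟨j - 1, by omega⟩
    subst h1
    have hk : τ k < τ (k + 1) := by linarith [hτ1 k]
    have hN : Ici (τ 0) ∈ 𝓝 (τ (k + 1)) := Ici_mem_nhds ht
    exact PH4_site hk hj2 (hX.continuousAt hN) (hV.continuousAt hN) (h k) (h (k + 1))
  · exact h j t ⟨h1, hj2⟩

theorem escapes (h : D.Ok) (hp : POk D p) {l : E → E → ℝ → ℝ} {f : E → ℝ → ℝ}
    (hls : ContDiff ℝ 2 (fun q : E × E × ℝ => l q.1 q.2.1 q.2.2)) (hf : Pt D.β f) (hg : Good Mf f)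
    (hinj : ∀ x t v v', gu l x v t = gu l x v' t → v = v')
    {ll : ℕ → E → E → ℝ → ℝ} {mm MM : ℕ → ℝ} (hl : ∀ i, TG D.β (mm i) (MM i) (ll i)) {a : ℕ → ℝ}
    (ha0 : 0 ≤ a 0) (ham : Monotone a) (hat : Tendsto a atTop atTop)
    (hS : ∀ i, MStage D p (ll (i - 1)) (ll i) (a i) (a (i + 1)))
    (hL : ∀ i s, a i ≤ s → s ≤ a (i + 1) → Leg D p (ll i) s) {V : ℕ → ℝ} (hV : Tendsto V atTop atTop)
    {Wn Wo : ℕ → E → E → ℝ → Prop}
    (hW : ∀ i s, a i ≤ s → s ≤ a (i + 1) → Win D p (ll i) s (Wn i))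
    (hWo : ∀ i, IsOpen {q : E × E × ℝ | Wo i q.1 q.2.1 q.2.2})
    (hWW : ∀ i x v t, Wn i x v t → Wo i x v t ∧ V i ≤ ‖v‖)
    (heq : ∀ i, ∃ c : ℝ, ∀ x v t, Wo i x v t → ll i x v t = lf l f x v t + c) {x0 : E}
    (hx0 : x0 ∈ (D0 D).C p) : EscapesFrom l f x0 (Near D p) := by
  obtain ⟨I, s, r, T, z, y, hchn, hsn, hI⟩ := exists_chs h hp hl ha0 ham hat hS hx0
  obtain ⟨N, τ, w, hτ0, hw0, hτ, hN, hmin, hX, hnear, hleg⟩ :=
    chs_seq h hp (fun n => hl (I n)) hchn (fun n => hL (I n) (s n) (hsn n).1 (hsn n).2)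
  obtain ⟨x, v, hxv⟩ :=
    orbit_of_sitewise (fun j => hl (I (N j))) one_pos τ hτ w hmin
  have hτ1 : ∀ j, 1 ≤ τ (j + 1) - τ j := fun j => (hτ j).1
  have hτlt : ∀ j, τ j < τ (j + 1) := fun j => by linarith [hτ1 j]
  have hmono : Monotone τ := (strictMono_nat_of_lt_succ hτlt).monotone
  have hunb : ∀ t, ∃ j, t < τ j := by
    intro t
    obtain ⟨n, hn⟩ := exists_nat_gt (t - τ 0)
    exact ⟨n, by linarith [EscT.H4.lower hτ1 n]⟩
  -- the pieces stay in the windows
  have hWn : ∀ j, ∀ t ∈ Icc (τ j) (τ (j + 1)), Wn (I (N j)) (x j t) (v j t) t := by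
    intro j
    obtain ⟨h1, h2, h3, h4, h5, h6, h7, -⟩ := hxv j
    refine hW (I (N j)) (s (N j)) (hsn (N j)).1 (hsn (N j)).2 (τ j) (τ (j + 1)) (hτ j).1 (hτ j).2
      (x j) (v j) h1 h2 h3 h4 ?_ ?_
    · rw [h5, h6]
      exact (hX j).1
    · rw [h5, h6, h7]
      exact (hX j).2
  have hgue : ∀ i x v t, Wn i x v t → gu (ll i) x v t = gu l x v t := by
    intro i x v t hwn
    obtain ⟨c, hc⟩ := heq i
    refine PH4_grad_congr (c := f x t + c) ?_
    have h1 : ∀ᶠ u in 𝓝 v, (x, u, t) ∈ {q : E × E × ℝ | Wo i q.1 q.2.1 q.2.2} := by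
      have h2 : Continuous (fun u : E => (x, u, t)) := by fun_prop
      exact h2.continuousAt ((hWo i).mem_nhds (hWW i x v t hwn).1)
    filter_upwards [h1] with u hu
    rw [hc x u t hu]
    unfold lf
    ring
  have hgxe : ∀ i x v t, Wn i x v t → gx (ll i) x v t = gx (lf l f) x v t := by
    intro i x v t hwn
    obtain ⟨c, hc⟩ := heq i
    refine PH4_grad_congr (c := c) ?_
    have h1 : ∀ᶠ u in 𝓝 x, (u, v, t) ∈ {q : E × E × ℝ | Wo i q.1 q.2.1 q.2.2} := by
      have h2 : Continuous (fun u : E => (u, v, t)) := by fun_prop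
      exact h2.continuousAt ((hWo i).mem_nhds (hWW i x v t hwn).1)
    filter_upwards [h1] with u hu
    exact hc u v t hu
  -- the velocities agree at the sites
  have hvs : ∀ j, v j (τ (j + 1)) = v (j + 1) (τ (j + 1)) := by
    intro j
    obtain ⟨-, -, -, -, -, h6, -, h8⟩ := hxv j
    obtain ⟨-, -, -, -, h5', -, -, -⟩ := hxv (j + 1)
    have h1 := hWn j (τ (j + 1)) ⟨(hτlt j).le, le_rfl⟩
    have h2 := hWn (j + 1) (τ (j + 1)) ⟨le_rfl, (hτlt (j + 1)).le⟩
    rw [h6] at h1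
    rw [h5'] at h2
    rw [hgue _ _ _ _ h1, hgue _ _ _ _ h2] at h8
    exact hinj _ _ _ _ h8
  -- the index
  classical
  have hidx : ∀ t : ℝ, ∃ j, (τ 0 ≤ t → τ j ≤ t ∧ t < τ (j + 1)) := by
    intro t
    by_cases ht : τ 0 ≤ t
    · obtain ⟨j, hj⟩ := EscT.H4.exists_idx hunb ht
      exact ⟨j, fun _ => hj⟩
    · exact ⟨0, fun h => absurd h ht⟩
  choose J hJ using hidx
  have hJu : ∀ j t, τ j ≤ t → t < τ (j + 1) → J t = j := by
    intro j t h1 h2
    obtain ⟨h3, h4⟩ := hJ t ((hmono (Nat.zero_le j)).trans h1)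
    rcases lt_trichotomy (J t) j with h5 | h5 | h5
    · have := hmono (Nat.succ_le_of_lt h5)
      simp only [Nat.succ_eq_add_one] at this
      linarith
    · exact h5
    · have := hmono (Nat.succ_le_of_lt h5)
      simp only [Nat.succ_eq_add_one] at this
      linarith
  set X : ℝ → E := fun t => x (J t) t with hXdef
  set W : ℝ → E := fun t => v (J t) t with hWdef
  have hXe : ∀ j, ∀ t ∈ Icc (τ j) (τ (j + 1)), X t = x j t := by
    intro j t ht
    rcases ht.2.eq_or_lt with h1 | h1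
    · have h2 : J t = j + 1 := hJu (j + 1) t h1.ge (h1 ▸ hτlt (j + 1))
      show x (J t) t = x j t
      rw [h2, h1, (hxv (j + 1)).2.2.2.2.1, (hxv j).2.2.2.2.2.1]
    · show x (J t) t = x j t
      rw [hJu j t ht.1 h1]
  have hWe : ∀ j, ∀ t ∈ Icc (τ j) (τ (j + 1)), W t = v j t := by
    intro j t ht
    rcases ht.2.eq_or_lt with h1 | h1
    · have h2 : J t = j + 1 := hJu (j + 1) t h1.ge (h1 ▸ hτlt (j + 1))
      show v (J t) t = v j t
      rw [h2, h1, hvs j]
    · show v (J t) t = v j t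
      rw [hJu j t ht.1 h1]
  have hXc : ContinuousOn X (Ici (τ 0)) :=
    PH4_contOn hmono hunb fun j => (hxv j).1.congr (hXe j)
  have hWc : ContinuousOn W (Ici (τ 0)) :=
    PH4_contOn hmono hunb fun j => (hxv j).2.1.congr (hWe j)
  have hlfs : ContDiff ℝ 2 (fun q : E × E × ℝ => lf l f q.1 q.2.1 q.2.2) := by
    have h1 : ContDiff ℝ 2 (fun q : E × E × ℝ => f q.1 q.2.2) :=
      hf.smooth.comp (contDiff_fst.prodMk (contDiff_snd.comp contDiff_snd))
    exact hls.add h1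
  have htrip : ContinuousOn (fun t : ℝ => (X t, W t, t)) (Ici (τ 0)) :=
    hXc.prodMk (hWc.prodMk continuousOn_id)
  have hguc : ContinuousOn (fun t => gu l (X t) (W t) t) (Ici (τ 0)) :=
    (PH4_gu_cont hls).comp_continuousOn htrip
  have hgxc : ContinuousOn (fun t => gx (lf l f) (X t) (W t) t) (Ici (τ 0)) :=
    (PH4_gx_cont hlfs).comp_continuousOn htrip
  have hsub : ∀ j, Ioo (τ j) (τ (j + 1)) ⊆ Icc (τ j) (τ (j + 1)) := fun j => Ioo_subset_Icc_self
  refine ⟨τ 0, X, W, hτ0, ?_, hXc, ?_, hWc, ?_, fun t ht => ?_, ?_⟩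
  · rw [hXe 0 (τ 0) ⟨le_rfl, (hτlt 0).le⟩, (hxv 0).2.2.2.2.1, hw0]
  · refine PH4_deriv hτ1 hunb hXc hWc fun j t ht => ?_
    rw [hWe j t (hsub j ht)]
    refine ((hxv j).2.2.1 t ht).congr_of_eventuallyEq ?_
    filter_upwards [Ioo_mem_nhds ht.1 ht.2] with r hr
    exact hXe j r (hsub j hr)
  · refine PH4_deriv (X := fun t => gu l (X t) (W t) t) (V := fun t => gx (lf l f) (X t) (W t) t)
      hτ1 hunb hguc hgxc fun j t ht => ?_
    have h1 := (hxv j).2.2.2.1 t ht
    show HasDerivAt (fun t => gu l (X t) (W t) t) (gx (lf l f) (X t) (W t) t) t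
    rw [hXe j t (hsub j ht), hWe j t (hsub j ht), ← hgxe _ _ _ _ (hWn j t (hsub j ht))]
    refine h1.congr_of_eventuallyEq ?_
    filter_upwards [Ioo_mem_nhds ht.1 ht.2] with r hr
    rw [hXe j r (hsub j hr), hWe j r (hsub j hr), hgue _ _ _ _ (hWn j r (hsub j hr))]
  · obtain ⟨j, hj1, hj2⟩ := EscT.H4.exists_idx hunb ht
    obtain ⟨h1, h2, h3, h4, h5, h6, h7, -⟩ := hxv j
    rcases hj1.eq_or_lt with he | he
    · rw [← he, hXe j (τ j) ⟨le_rfl, (hτlt j).le⟩, h5]
      exact hnear j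
    · rw [hXe j t ⟨he.le, hj2.le⟩]
      refine hleg j t (x j t) he hj2 ?_
      have h8 := EscT.H4.split_le (hl (I (N j))).cb (hτlt j) h1 h2 h3
        (by rw [h7, h5, h6]) he hj2
      rwa [h5, h6] at h8
  · rw [tendsto_atTop]
    intro b
    obtain ⟨j0, hj0⟩ := eventually_atTop.1 (tendsto_atTop.1 (hV.comp (hI.comp hN)) b)
    filter_upwards [eventually_ge_atTop (τ j0), eventually_ge_atTop (τ 0)] with t ht ht0
    obtain ⟨j, hj1, hj2⟩ := EscT.H4.exists_idx hunb ht0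
    have hj : j0 ≤ j := by
      by_contra hlt
      rw [not_le] at hlt
      have := hmono (Nat.succ_le_of_lt hlt)
      simp only [Nat.succ_eq_add_one] at this
      linarith
    have h1 : b ≤ V (I (N j)) := hj0 j hj
    rw [hWe j t ⟨hj1, hj2.le⟩]
    exact h1.trans (hWW _ _ _ _ (hWn j t ⟨hj1, hj2.le⟩)).2

end EscZ
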