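import Pool.Agent.EscW.QDefs2

/-!
Module QI1 (part Q): growth functions near infinity extend to growth functions on the whole line (compare PP1.lean, `exists_Pw`).

Take `Y1 = max Y 1 + 1`, `a = deriv g Y1 > 0`, `b = deriv (deriv g) Y1 ≥ 0`. The second derivative of the extension is
`h2 y = deriv (deriv g) (max y Y1) * exp (b / a * (min y Y1 - Y1))`, its derivative is `h1 y = a + ∫ u in Y1..y, h2 u`
(`= a * exp (b / a * (y - Y1))` for `y ≤ Y1`, `= deriv g y` for `y ≥ Y1`), and `g1 y = g Y1 + ∫ u in Y1..y, h1 u`.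
-/

set_option autoImplicit false

noncomputable section

namespace EscZ

open MeasureTheory Set Filter Topology
open scoped ContDiff

private def QI1_h2 (G : ℝ → ℝ) (c Z : ℝ) (y : ℝ) : ℝ := G (max y Z) * Real.exp (c * (min y Z - Z))

private theorem QI1_h2_cont {G : ℝ → ℝ} {c Z : ℝ} (hG : ContinuousOn G (Ici Z)) : Continuous (QI1_h2 G c Z) := by
  unfold QI1_h2
  refine Continuous.mul ?_ (by fun_prop)
  exact hG.comp_continuous (by fun_prop) fun x => le_max_right x Z

private def QI1_I (a Z : ℝ) (f : ℝ → ℝ) (y : ℝ) : ℝ := a + ∫ t in Z..y, f t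

private theorem QI1_I_deriv (a Z : ℝ) {f : ℝ → ℝ} (hf : Continuous f) (y : ℝ) : HasDerivAt (QI1_I a Z f) (f y) y := by
  unfold QI1_I
  exact (intervalIntegral.integral_hasDerivAt_right (hf.intervalIntegrable _ _)
    (hf.stronglyMeasurableAtFilter _ _) hf.continuousAt).const_add a

private theorem QI1_I_cont (a Z : ℝ) {f : ℝ → ℝ} (hf : Continuous f) : Continuous (QI1_I a Z f) :=
  continuous_iff_continuousAt.2 fun y => (QI1_I_deriv a Z hf y).continuousAt

private theorem QI1_I_ge {Z : ℝ} {f F : ℝ → ℝ} (hf : Continuous f) {y : ℝ} (hy : Z ≤ y)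
    (hF : ∀ t, Z ≤ t → HasDerivAt F (f t) t) : QI1_I (F Z) Z f y = F y := by
  have key : ∫ t in Z..y, f t = F y - F Z := by
    refine intervalIntegral.integral_eq_sub_of_hasDerivAt (fun t ht => ?_) (hf.intervalIntegrable _ _)
    rw [uIcc_of_le hy] at ht
    exact hF t ht.1
  unfold QI1_I
  rw [key]
  ring

private theorem QI1_I_le {Z : ℝ} {f F : ℝ → ℝ} (hf : Continuous f) {y : ℝ} (hy : y ≤ Z)
    (hF : ∀ t, t ≤ Z → HasDerivAt F (f t) t) : QI1_I (F Z) Z f y = F y := by
  have key : ∫ t in Z..y, f t = F y - F Z := by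
    refine intervalIntegral.integral_eq_sub_of_hasDerivAt (fun t ht => ?_) (hf.intervalIntegrable _ _)
    rw [uIcc_of_ge hy] at ht
    exact hF t ht.2
  unfold QI1_I
  rw [key]
  ring

theorem exists_Gr {g : ℝ → ℝ} {C Y : ℝ} (h2 : ContDiffOn ℝ 2 g (Ioi Y))
    (h : ∀ y, Y < y → 0 < deriv g y ∧ 0 ≤ deriv (deriv g) y ∧ y * deriv (deriv g) y ≤ C * deriv g y) :
    ∃ (C' Y' : ℝ) (g1 : ℝ → ℝ), Gr C' g1 ∧ ∀ y, Y' ≤ y → g1 y = g y := by
  set Z : ℝ := max Y 1 + 1 with hZ
  have hYZ : Y < Z := lt_of_le_of_lt (le_max_left Y 1) (by linarith)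
  have h1Z : 1 ≤ Z := by
    have := le_max_right Y 1
    linarith
  have hge : ∀ t, Z ≤ t → Y < t := fun t ht => lt_of_lt_of_le hYZ ht
  have h1 : ContDiffOn ℝ 1 (deriv g) (Ioi Y) := h2.deriv_of_isOpen isOpen_Ioi (by norm_num)
  have hg'' : ContinuousOn (deriv (deriv g)) (Ioi Y) := h1.continuousOn_deriv_of_isOpen isOpen_Ioi (by norm_num)
  have hdg : ∀ t, Y < t → HasDerivAt g (deriv g t) t := fun t ht =>
    ((h2.contDiffAt (Ioi_mem_nhds ht)).differentiableAt (by norm_num)).hasDerivAt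
  have hddg : ∀ t, Y < t → HasDerivAt (deriv g) (deriv (deriv g) t) t := fun t ht =>
    ((h1.contDiffAt (Ioi_mem_nhds ht)).differentiableAt (by norm_num)).hasDerivAt
  set a : ℝ := deriv g Z with ha
  set b : ℝ := deriv (deriv g) Z with hb
  have ha0 : 0 < a := (h Z hYZ).1
  have hb0 : 0 ≤ b := (h Z hYZ).2.1
  set c : ℝ := b / a with hc
  have hc0 : 0 ≤ c := div_nonneg hb0 ha0.le
  have hca : a * c = b := mul_div_cancel₀ b ha0.ne'
  set f2 : ℝ → ℝ := QI1_h2 (deriv (deriv g)) c Z with hf2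
  have hf2c : Continuous f2 := QI1_h2_cont (hg''.mono fun t ht => hge t ht)
  have hf2ge : ∀ y, Z ≤ y → f2 y = deriv (deriv g) y := by
    intro y hy
    rw [hf2]
    unfold QI1_h2
    rw [max_eq_left hy, min_eq_right hy, sub_self, mul_zero, Real.exp_zero, mul_one]
  have hf2le : ∀ y, y ≤ Z → f2 y = b * Real.exp (c * (y - Z)) := by
    intro y hy
    rw [hf2]
    unfold QI1_h2
    rw [max_eq_right hy, min_eq_left hy]
  set f1 : ℝ → ℝ := QI1_I a Z f2 with hf1
  have hf1d : ∀ y, HasDerivAt f1 (f2 y) y := fun y => QI1_I_deriv a Z hf2c y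
  have hf1c : Continuous f1 := QI1_I_cont a Z hf2c
  have hf1ge : ∀ y, Z ≤ y → f1 y = deriv g y := by
    intro y hy
    exact QI1_I_ge (F := deriv g) hf2c hy fun t ht => by
      rw [hf2ge t ht]
      exact hddg t (hge t ht)
  have hf1le : ∀ y, y ≤ Z → f1 y = a * Real.exp (c * (y - Z)) := by
    intro y hy
    have e1 : a = (fun t => a * Real.exp (c * (t - Z))) Z := by simp
    have e2 : f1 y = QI1_I ((fun t => a * Real.exp (c * (t - Z))) Z) Z f2 y := by
      rw [hf1, ← e1]
    rw [e2]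
    refine QI1_I_le (F := fun t => a * Real.exp (c * (t - Z))) hf2c hy fun t ht => ?_
    rw [hf2le t ht]
    have d1 : HasDerivAt (fun t : ℝ => c * (t - Z)) (c * 1) t := ((hasDerivAt_id t).sub_const Z).const_mul c
    have d2 := (d1.exp).const_mul a
    have e3 : b * Real.exp (c * (t - Z)) = a * (Real.exp (c * (t - Z)) * (c * 1)) := by
      rw [← hca]
      ring
    rw [e3]
    exact d2
  set g1 : ℝ → ℝ := QI1_I (g Z) Z f1 with hg1
  have hg1d : ∀ y, HasDerivAt g1 (f1 y) y := fun y => QI1_I_deriv (g Z) Z hf1c y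
  have hD1 : deriv g1 = f1 := funext fun y => (hg1d y).deriv
  have hD2 : deriv f1 = f2 := funext fun y => (hf1d y).deriv
  refine ⟨max C (Z * c), Z, g1, ⟨?_, ?_, ?_, ?_⟩, ?_⟩
  · have s1 : ContDiff ℝ 1 f1 := by
      rw [contDiff_one_iff_deriv]
      exact ⟨fun y => (hf1d y).differentiableAt, by rw [hD2]; exact hf2c⟩
    have s2 : ContDiff ℝ (1 + 1) g1 := by
      rw [contDiff_succ_iff_deriv]
      exact ⟨fun y => (hg1d y).differentiableAt, by simp, by rw [hD1]; exact s1⟩
    rwa [one_add_one_eq_two] at s2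
  · intro y
    rw [hD1]
    rcases le_total y Z with hy | hy
    · rw [hf1le y hy]
      exact mul_pos ha0 (Real.exp_pos _)
    · rw [hf1ge y hy]
      exact (h y (hge y hy)).1
  · intro y
    rw [hD1, hD2]
    rcases le_total y Z with hy | hy
    · rw [hf2le y hy]
      exact mul_nonneg hb0 (Real.exp_nonneg _)
    · rw [hf2ge y hy]
      exact (h y (hge y hy)).2.1
  · intro y hy1
    rw [hD1, hD2]
    rcases le_total y Z with hy | hy
    · rw [hf2le y hy, hf1le y hy, ← hca]
      have e0 := Real.exp_pos (c * (y - Z))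
      have e1 : y * (a * c * Real.exp (c * (y - Z))) = (y * c) * (a * Real.exp (c * (y - Z))) := by ring
      rw [e1]
      refine mul_le_mul_of_nonneg_right ?_ (mul_pos ha0 e0).le
      exact (mul_le_mul_of_nonneg_right hy hc0).trans (le_max_right _ _)
    · rw [hf2ge y hy, hf1ge y hy]
      have e1 := h y (hge y hy)
      exact e1.2.2.trans (mul_le_mul_of_nonneg_right (le_max_left _ _) e1.1.le)
  · intro y hy
    exact QI1_I_ge (F := g) hf1c hy fun t ht => by
      rw [hf1ge t ht]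
      exact hdg t (hge t ht)

end EscZ
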