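import Pool.Agent.EscW.QDefs
import Pool.Agent.EscT.B1
import Pool.Agent.EscT.B2

/-!
Project EscW, part Q (MP_6acca1_an): bounded families of weights. Curves of high speed follow the moving calibrated
closed curve, uniformly for bounded families of weights.
-/

noncomputable section

namespace EscZ

open MeasureTheory Set Filter Topology Esc EscF EscG EscT
open scoped ContDiff

theorem KB.A_pos {A : ℝ} {K : ℝ → ℝ} (h : KB A K) : 0 < A := by
  have h1 := h.lip 1 0
  rw [sub_zero, abs_one, mul_one] at h1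
  have h2 := (abs_nonneg _).trans h1
  rcases h2.lt_or_eq with h3 | h3
  · exact h3
  · have h4 := h.pos 0
    rw [← h3, zero_mul] at h4
    linarith

theorem KB.pos' {A : ℝ} {K : ℝ → ℝ} (h : KB A K) (t : ℝ) : 0 < K t := by
  by_contra h1
  have h2 := h.pos t
  have h3 := mul_nonpos_of_nonneg_of_nonpos h.A_pos.le (not_lt.1 h1)
  linarith

theorem KB.mono {A A' : ℝ} {K : ℝ → ℝ} (h : KB A K) (hA : A ≤ A') : KB A' K where
  pos := fun t => (h.pos t).trans (mul_le_mul_of_nonneg_right hA (h.pos' t).le)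
  le := fun t => (h.le t).trans hA
  lip := fun t t' => (h.lip t t').trans (mul_le_mul_of_nonneg_right hA (abs_nonneg _))
  per := h.per

variable {ι : Type} [Fintype ι] {E : Type*} [NormedAddCommGroup E] [InnerProductSpace ℝ E]
  [FiniteDimensional ℝ E]
variable {β : Module.Basis ι ℝ E} {F : E → E → ℝ → ℝ} {mF MF A : ℝ} {κ0 : ℝ → ℝ} {B : E → ℝ → ℝ} {k0 : ι}
  {len : ℝ} {c c' ct : ℝ → ℝ → E}

theorem calT_kb (h : CalT β F mF MF A κ0 B k0 len c c' ct) : KB A κ0 :=
  ⟨h.κ_pos, h.κ_le, h.κ_lip, h.κ_per⟩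

/-- change of the weight -/
theorem calT_rep (h : CalT β F mF MF A κ0 B k0 len c c' ct) {A' : ℝ} (hA : A ≤ A') {κ : ℝ → ℝ}
    (hK : KB A' κ) : CalT β F mF MF A' κ B k0 len c c' ct where
  fins := h.fins
  A_pos := hK.A_pos
  F_cont := h.F_cont
  F_per := h.F_per
  F_lip := fun x v t t' => (h.F_lip x v t t').trans (by gcongr)
  κ_per := hK.per
  κ_pos := hK.pos
  κ_le := hK.le
  κ_lip := hK.lip
  B_smooth := h.B_smooth
  B_pert := h.B_pert
  B_per := h.B_per
  B_le := h.B_le
  B_dlip := fun x v t t' => (h.B_dlip x v t t').trans (by gcongr)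
  len_pos := h.len_pos
  c_σ := h.c_σ
  c_t := h.c_t
  c'_cont := h.c'_cont
  ct_cont := h.ct_cont
  closed := h.closed
  c_per := h.c_per
  unit := h.unit
  cal := h.cal
  only := h.only
  simple := h.simple
  tan := h.tan

/-- high speed curves follow the moving curve -/
theorem QK_anc (h : CalT β F mF MF A κ0 B k0 len c c' ct) (g : E) (ε : ℝ) (hε : 0 < ε) : ∃ s0 : ℝ, 1 ≤ s0 ∧
    ∀ κ, KB A κ → ∀ s, s0 ≤ s → ∀ t t', 1 / 32 ≤ t' - t → t' - t ≤ 4 →
    ∃ (u : ℝ → E) (n : Fin 1 → ℤ), Adm u ∧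
      traj t (c 0 t) u t' = c 0 t' + lv (fun _ : Fin 1 => β k0) n ∧
      ∫ r in t..t', (κ r * F (traj t (c 0 t) u r) (u r) r - s) ^ 2 ≤ ε * s ∧
      ∫ r in t..t', (F (traj t (c 0 t) u r) (u r) r -
        fderiv ℝ (fun y => B y r) (traj t (c 0 t) u r) (u r)) ≤ ε := by
  obtain ⟨C1, hC1, hct⟩ := B1.ct_bd h
  have hA := h.A_pos
  have hlen := h.len_pos
  have hMF : 0 ≤ MF := (h.fins 0).mF_pos.le.trans (h.fins 0).mF_le
  set ε1 := ε / (4 * (C1 + 1)) with hε1
  have hε1p : 0 < ε1 := by positivity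
  obtain ⟨δ, hδ, hδ2⟩ := h.tan ε1 hε1p
  set C2 : ℝ := (MF + ε1) * (A * C1) + 32 * A * len with hC2
  have hC2p : 0 ≤ C2 := by positivity
  refine ⟨max 1 (max (64 * A * len) (max (2 * A * C1 / δ) (4 * C2 ^ 2 / ε))), le_max_left _ _, ?_⟩
  intro κ hK s hs t t' ht1 ht2
  replace h := calT_rep h le_rfl hK
  have hs1 : 1 ≤ s := (le_max_left _ _).trans hs
  have hs2 : 64 * A * len ≤ s := ((le_max_left _ _).trans (le_max_right _ _)).trans hs
  have hs3 : 2 * A * C1 / δ ≤ s :=
    ((le_max_left _ _).trans ((le_max_right _ _).trans (le_max_right _ _))).trans hs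
  have hs4 : 4 * C2 ^ 2 / ε ≤ s :=
    ((le_max_right _ _).trans ((le_max_right _ _).trans (le_max_right _ _))).trans hs
  have hsp : 0 < s := by linarith
  have htt : t ≤ t' := by linarith
  have hκc := B1.κ_cont h
  have hκi : Continuous (fun r => (κ r)⁻¹) := hκc.inv₀ fun r => (B1.κ_pos' h r).ne'
  set J := ∫ x in t..t', (κ x)⁻¹ with hJ
  have hJ1 : 1 / (32 * A) ≤ J := by
    have h1 : ∫ x in t..t', A⁻¹ ≤ J :=
      intervalIntegral.integral_mono_on htt (by simp) (hκi.intervalIntegrable _ _)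
        fun x _ => B1.le_κ_inv h x
    rw [intervalIntegral.integral_const, smul_eq_mul] at h1
    have h2 : 1 / (32 * A) = (1 / 32) * A⁻¹ := by field_simp
    rw [h2]
    exact (mul_le_mul_of_nonneg_right ht1 (inv_pos.2 hA).le).trans h1
  have hJp : 0 < J := lt_of_lt_of_le (by positivity) hJ1
  have hsJ : 0 < s * J := mul_pos hsp hJp
  have hsJ1 : s ≤ 32 * A * (s * J) := by
    have : 1 ≤ 32 * A * J := by
      rw [div_le_iff₀ (by positivity)] at hJ1
      linarith [mul_comm J (32 * A)]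
    nlinarith
  set N := ⌊s * J / len⌋₊ with hN
  have hN1 : (N : ℝ) * len ≤ s * J := by
    have := Nat.floor_le (div_nonneg hsJ.le hlen.le)
    rwa [le_div_iff₀ hlen] at this
  have hN2 : s * J - len < (N : ℝ) * len := by
    have := Nat.lt_floor_add_one (s * J / len)
    rw [div_lt_iff₀ hlen] at this
    linarith
  set a := (N : ℝ) * len / (s * J) with ha
  have ha1 : a ≤ 1 := by rw [ha, div_le_one hsJ]; exact hN1
  have ha2 : s * (1 - a) ≤ 32 * A * len := by
    have e1 : 1 - a = (s * J - N * len) / (s * J) := by rw [ha]; field_simp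
    rw [e1, mul_div_assoc', div_le_iff₀ hsJ]
    calc s * (s * J - N * len) ≤ s * len := mul_le_mul_of_nonneg_left (by linarith) hsp.le
      _ ≤ (32 * A * (s * J)) * len := mul_le_mul_of_nonneg_right hsJ1 hlen.le
      _ = _ := by ring
  have ha3 : 1 / 2 ≤ a := by
    have : s * (1 - a) ≤ s * (1 / 2) := by linarith
    have := le_of_mul_le_mul_left this hsp
    linarith
  have hap : 0 < a := by linarith
  have hw : A * C1 ≤ δ * (a * s) := by
    rw [div_le_iff₀ hδ] at hs3
    have : δ * s * (1 / 2) ≤ δ * s * a := mul_le_mul_of_nonneg_left ha3 (by positivity)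
    nlinarith
  have hpt := fun σ r => B1.pointwise h hε1p hδ2 hct hap ha1 hsp hw σ r
  set σ : ℝ → ℝ := fun r => a * s * ∫ x in t..r, (κ x)⁻¹ with hσ
  have hσd : ∀ r, HasDerivAt σ (a * s * (κ r)⁻¹) r := fun r =>
    ((hκi.integral_hasStrictDerivAt t r).hasDerivAt).const_mul _
  have hσc : Continuous σ := continuous_iff_continuousAt.2 fun r => (hσd r).continuousAt
  set u : ℝ → E := fun r => (a * s * (κ r)⁻¹) • c' (σ r) r + ct (σ r) r with hu
  have huc : Continuous u := by
    have h1 : Continuous (fun r => c' (σ r) r) := h.c'_cont.comp (hσc.prodMk continuous_id)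
    have h2 : Continuous (fun r => ct (σ r) r) := h.ct_cont.comp (hσc.prodMk continuous_id)
    exact ((continuous_const.mul hκi).smul h1).add h2
  have huA : Adm u := by
    refine ⟨huc.stronglyMeasurable, a * s * A * mF⁻¹ + C1, fun r => ?_⟩
    refine (norm_add_le _ _).trans (add_le_add ?_ (hct _ _))
    rw [norm_smul, Real.norm_of_nonneg (by have := B1.κ_pos' h r; positivity)]
    exact mul_le_mul (mul_le_mul_of_nonneg_left (B1.κ_inv_le h r) (by positivity)) (B1.c'_bd h _ _)
      (norm_nonneg _) (by positivity)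
  have hσt : σ t = 0 := by simp [hσ]
  have htr : ∀ r, traj t (c 0 t) u r = c (σ r) r := by
    intro r
    have h1 : ∫ x in t..r, u x = c (σ r) r - c (σ t) t :=
      intervalIntegral.integral_eq_sub_of_hasDerivAt (fun x _ => B1.chain h (hσd x))
        (huc.intervalIntegrable _ _)
    rw [traj, h1, hσt]
    abel
  refine ⟨u, fun _ => (N : ℤ), huA, ?_, ?_, ?_⟩
  · rw [htr]
    have e1 : σ t' = 0 + N * len := by
      rw [zero_add]
      show a * s * J = _
      rw [ha]; field_simp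
    rw [e1, B1.closed_nat h]
    simp [lv]
  · have h1 : ∀ r ∈ uIoc t t', ‖(κ r * F (traj t (c 0 t) u r) (u r) r - s) ^ 2‖ ≤ C2 ^ 2 := by
      intro r _
      rw [htr, Real.norm_of_nonneg (sq_nonneg _), ← sq_abs]
      refine pow_le_pow_left₀ (abs_nonneg _) ?_ 2
      exact ((hpt (σ r) r).1).trans (by rw [hC2]; linarith)
    have h2 := intervalIntegral.norm_integral_le_of_norm_le_const h1
    have h3 : |t' - t| ≤ 4 := by rw [abs_of_nonneg (by linarith)]; exact ht2
    calc _ ≤ C2 ^ 2 * |t' - t| := (Real.le_norm_self _).trans h2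
      _ ≤ C2 ^ 2 * 4 := mul_le_mul_of_nonneg_left h3 (sq_nonneg _)
      _ ≤ ε * s := by
        rw [div_le_iff₀ hε] at hs4
        linarith
  · have h1 : ∀ r ∈ uIoc t t', ‖F (traj t (c 0 t) u r) (u r) r -
        fderiv ℝ (fun y => B y r) (traj t (c 0 t) u r) (u r)‖ ≤ ε1 * C1 := by
      intro r _
      rw [htr, Real.norm_of_nonneg (hpt (σ r) r).2.1]
      exact (hpt (σ r) r).2.2
    have h2 := intervalIntegral.norm_integral_le_of_norm_le_const h1
    have h3 : |t' - t| ≤ 4 := by rw [abs_of_nonneg (by linarith)]; exact ht2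
    calc _ ≤ ε1 * C1 * |t' - t| := (Real.le_norm_self _).trans h2
      _ ≤ ε1 * C1 * 4 := mul_le_mul_of_nonneg_left h3 (by positivity)
      _ ≤ ε := by
        rw [hε1]
        have : ε / (4 * (C1 + 1)) * C1 * 4 = ε * (C1 / (C1 + 1)) := by field_simp
        rw [this]
        have h4 : C1 / (C1 + 1) ≤ 1 := by rw [div_le_one (by linarith)]; linarith
        nlinarith

/-- high speed curves follow the moving curve, uniformly in the weight -/
theorem ancK_gdT (h : CalT β F mF MF A κ0 B k0 len c c' ct) (κ1 : ℝ → ℝ) (A' A2 : ℝ) (g0 : E) :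
    AncK (gdT β F mF MF A2 κ1 B k0 len c g0) A' := by
  intro ε hε
  have hA : A ≤ max A A' := le_max_left _ _
  obtain ⟨s0, hs0, H⟩ := QK_anc (calT_rep h hA ((calT_kb h).mono hA)) g0 ε hε
  refine ⟨s0, hs0, fun K hK s hs t t' ht ht' => ?_⟩
  obtain ⟨u, n, h1, h2, h3, h4⟩ := H K (hK.mono (le_max_right _ _)) s hs t t' ht ht'
  exact ⟨u, n, h1, h2, h3, h4⟩

end EscZ
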