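import Pool.Agent.EscW.QDefs2
import Pool.Agent.EscT.A2b
import Pool.Agent.EscT.A5b
import Pool.Agent.EscT.C4
import Pool.Agent.EscT.C6

/-!
Module PK1: the kernels of two Lagrangians which agree up to the constant `e` where the minimizers of both live.
Attained minimum over `n` (K_attained) and minimizing curves of `kerl` (A2b: exist, `C^1`, Euler-Lagrange), translated by lattice vectors
(`Xp` is invariant under adding `lv D.b n` to the second point since `X` is); the curve of `l0` has `l1`-action = `l0`-action + `e (t' - t)`.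
-/

noncomputable section

namespace EscZ

open MeasureTheory Set Filter Topology Esc EscF EscG EscT
open scoped ContDiff

variable {ι : Type} [Fintype ι] {d : ℕ} {E : Type*} [NormedAddCommGroup E] [InnerProductSpace ℝ E]
  [FiniteDimensional ℝ E] {D : GT ι d E} {p : GP} {m M Mf : ℝ} {L : LP} {l0 l1 ll l : E → E → ℝ → ℝ}
  {f f' : E → ℝ → ℝ}

/-- the derivative of a primitive, given by differences -/
theorem PK1_deriv {a b : ℝ} {F g : ℝ → E} (hg : ContinuousOn g (Icc a b))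
    (hF : ∀ s ∈ Icc a b, ∀ t ∈ Icc a b, F t - F s = ∫ r in s..t, g r) {r : ℝ} (hr : r ∈ Ioo a b) :
    HasDerivAt F (g r) r := by
  have h1 : HasDerivAt (fun t => F r + ∫ x in r..t, g x) (g r) r := by
    have h2 := intervalIntegral.integral_hasDerivAt_right (f := g) (a := r) (b := r)
      IntervalIntegrable.refl
      (ContinuousOn.stronglyMeasurableAtFilter isOpen_Ioo (hg.mono Ioo_subset_Icc_self) r hr)
      (hg.continuousAt (Icc_mem_nhds hr.1 hr.2))
    simpa using h2.const_add (F r)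
  refine h1.congr_of_eventuallyEq ?_
  filter_upwards [Icc_mem_nhds hr.1 hr.2] with t ht
  rw [← hF r (Ioo_subset_Icc_self hr) t ht]
  abel

omit [InnerProductSpace ℝ E] [FiniteDimensional ℝ E] in
theorem PK1_lip {a b C : ℝ} {v : ℝ → E}
    (hC : ∀ s ∈ Icc a b, ∀ t ∈ Icc a b, ‖v t - v s‖ ≤ C * |t - s|) : ContinuousOn v (Icc a b) := by
  have hL : LipschitzOnWith (Real.toNNReal C) v (Icc a b) := by
    refine LipschitzOnWith.of_dist_le_mul fun s hs t ht => ?_
    rw [dist_eq_norm, Real.dist_eq]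
    refine (hC t ht s hs).trans ?_
    exact mul_le_mul_of_nonneg_right (Real.le_coe_toNNReal C) (abs_nonneg _)
  exact hL.continuousOn

theorem PK1_le (h : D.Ok) {m' M' s e : ℝ} (hs : 0 ≤ s) (hl0 : TG D.β m M l0) (hl1 : TG D.β m' M' l1)
    {W0 : E → E → ℝ → Prop} (h0 : Win D p l0 s W0)
    (he0 : ∀ x v t, W0 x v t → l1 x v t = l0 x v t + e) {t t' : ℝ} (h1 : 1 ≤ t' - t) (h2 : t' - t ≤ 2)
    {x x' : E} (hx : Xp D p x x') :
    (D0 D).kk l1 s t t' x x' ≤ (D0 D).kk l0 s t t' x x' + e * (t' - t) := by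
  have htt : t < t' := by linarith
  obtain ⟨V, hV, hgeo⟩ := K_geo (C6_li h) (C6_bβ h) hl0.m_pos hl0.M_nonneg (QB0 h.toOk0 0) s
    ‖x' + lv D.b 0 - x‖ (T0 := 1) (T1 := 2) one_pos
  obtain ⟨n, Z, v, hZ0, hZ1, hG, hK, -⟩ := hgeo l0 hl0 s hs le_rfl t t' h1 h2 x x' ⟨0, le_rfl⟩
  obtain ⟨C, hC⟩ := hG.lip
  have hvc : ContinuousOn v (Icc t t') := PK1_lip hC
  have hZc : ContinuousOn Z (Icc t t') := by
    refine PK1_lip (C := V) fun a ha b hb => ?_
    rw [hG.pos a ha b hb]
    refine intervalIntegral.norm_integral_le_of_norm_le_const fun r hr => hG.bd r ?_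
    exact (uIcc_subset_Icc ha hb) (uIoc_subset_uIcc hr)
  have hZd : ∀ r ∈ Ioo t t', HasDerivAt Z (v r) r := fun r hr => PK1_deriv hvc hG.pos hr
  have hgxc : ContinuousOn (fun r => gx l0 (Z r) (v r) r) (Icc t t') :=
    hl0.gx_cont.comp_continuousOn (hZc.prodMk (hvc.prodMk continuousOn_id))
  have hgd : ∀ r ∈ Ioo t t',
      HasDerivAt (fun r => gu l0 (Z r) (v r) r) (gx l0 (Z r) (v r) r) r := fun r hr =>
    PK1_deriv (F := fun r => gu l0 (Z r) (v r) r) hgxc hG.el hr
  have hX : Xp D p (Z t) (Z t') := by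
    obtain ⟨a, ha, hx0, k, hk⟩ := hx
    refine ⟨a, ha, by rw [hZ0]; exact hx0, k - n, ?_⟩
    have e1 : lv D.b (k - n) = lv D.b k - lv D.b n := by
      rw [sub_eq_add_neg k n, C4h.lv_add, C4h.lv_neg, sub_eq_add_neg]
    have e2 : Z t' + a + lv D.b (k - n) = x' + a + lv D.b k := by
      rw [hZ1, e1]; abel
    rw [e2]
    exact hk
  have hact : (∫ r in t..t', l0 (Z r) (v r) r) = kerl l0 t t' (Z t) (Z t') :=
    hG.act t t' le_rfl htt le_rfl
  have hval : (D0 D).kk l0 s t t' x x' = (∫ r in t..t', l0 (Z r) (v r) r) -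
      s * ((D0 D).B (Z t') - (D0 D).B (Z t)) + s ^ 2 / 2 * (t' - t) := by
    rw [hact, hZ0, hZ1]
    exact hK
  have hkk : (D0 D).kk l0 s t t' (Z t) (Z t') = (∫ r in t..t', l0 (Z r) (v r) r) -
      s * ((D0 D).B (Z t') - (D0 D).B (Z t)) + s ^ 2 / 2 * (t' - t) := by
    rw [← hval]
    have h3 := kk_J h hl0 s t t' x x' 0 n
    rw [C4h.lv_zero, add_zero] at h3
    rw [← h3, hZ0, hZ1]
  have hW := h0 t t' h1 h2 Z v hZc hvc hZd hgd hX hkk
  obtain ⟨u, hu, huv, htr, hac⟩ := adm_of_lip htt hC hG.pos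
  have htI : t ∈ Icc t t' := left_mem_Icc.2 htt.le
  have htI' : t' ∈ Icc t t' := right_mem_Icc.2 htt.le
  have h4 : traj t x u t' = Z t' := by
    have := htr t htI t' htI'
    rwa [hZ0] at this
  have h5 := kk_le_cst h hl1 hs htt (x := x) (x' := x') hu (n := n) (by rw [h4, hZ1])
  have h6 : (D0 D).cst l1 s t t' x u = actl l1 t t' x u - s * ((D0 D).B (traj t x u t') - (D0 D).B x) +
      s ^ 2 / 2 * (t' - t) := rfl
  have h7 : actl l1 t t' x u = ∫ r in t..t', l1 (Z r) (v r) r := by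
    have := hac l1 t htI t' htI' htt.le
    rwa [hZ0] at this
  have hlc : ContinuousOn (fun r => l0 (Z r) (v r) r) (Icc t t') :=
    hl0.smooth.continuous.comp_continuousOn (hZc.prodMk (hvc.prodMk continuousOn_id))
  have h8 : (∫ r in t..t', l1 (Z r) (v r) r) = (∫ r in t..t', l0 (Z r) (v r) r) + e * (t' - t) := by
    have h9 : (∫ r in t..t', l1 (Z r) (v r) r) = ∫ r in t..t', (l0 (Z r) (v r) r + e) := by
      refine intervalIntegral.integral_congr fun r hr => ?_
      rw [uIcc_of_le htt.le] at hr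
      exact he0 _ _ _ (hW r hr)
    rw [h9, intervalIntegral.integral_add (hlc.intervalIntegrable_of_Icc htt.le)
      intervalIntegrable_const, intervalIntegral.integral_const, smul_eq_mul]
    ring
  rw [h6, h7, h8, h4] at h5
  rw [hval, hZ0]
  linarith

theorem keq (h : D.Ok) {m' M' s e : ℝ} (hs : 0 ≤ s) (hl0 : TG D.β m M l0) (hl1 : TG D.β m' M' l1)
    {W0 W1 : E → E → ℝ → Prop} (h0 : Win D p l0 s W0) (h1 : Win D p l1 s W1)
    (he0 : ∀ x v t, W0 x v t → l1 x v t = l0 x v t + e) (he1 : ∀ x v t, W1 x v t → l1 x v t = l0 x v t + e) :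
    KEq D p l0 l1 s e := by
  intro t t' ht ht' x x' hx
  refine le_antisymm (PK1_le h hs hl0 hl1 h0 he0 ht ht' hx) ?_
  have h2 := PK1_le (e := -e) h hs hl1 hl0 h1 (fun y v r hy => by rw [he1 y v r hy]; ring) ht ht' hx
  linarith

end EscZ
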