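import Pool.Agent.EscW.QDefs2
import Pool.Agent.EscT.C4
import Pool.Agent.EscT.C11b

/-!
Module PL2: multiplication of the Lagrangian and of the class by a constant `c > 0`:
`kerl (c l) = c kerl l`, hence `kk (c l) (c s) t t' = c kk l s t t' + (c² - c) s²/2 (t' - t)`; the constants cancel in `Leg` and in the gate
inequality of `Stage` (`gk` with `T` steps: take `c_i' T = c * c_i T ∓ (c² - c) s_i²/2 * T`).
-/

noncomputable section

namespace EscZ

open MeasureTheory Set Filter Topology Esc EscF EscG EscT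
open scoped ContDiff Pointwise

variable {ι : Type} [Fintype ι] {d : ℕ} {E : Type*} [NormedAddCommGroup E] [InnerProductSpace ℝ E]
  [FiniteDimensional ℝ E] {D : GT ι d E} {p : GP} {m M Mf : ℝ} {L : LP} {l0 l1 ll l : E → E → ℝ → ℝ}
  {f f' : E → ℝ → ℝ}

namespace PL2

theorem gu_smul (l : E → E → ℝ → ℝ) (c : ℝ) (x v : E) (t : ℝ) :
    gu (fun x v t => c * l x v t) x v t = c • gu l x v t := by
  unfold gu gradient
  have h1 : fderiv ℝ (fun w => c * l x w t) v = c • fderiv ℝ (fun w => l x w t) v := by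
    have h2 := congrFun (fderiv_const_smul_field (𝕜 := ℝ) (f := fun w => l x w t) c) v
    exact h2
  rw [h1]
  simp

theorem gx_smul (l : E → E → ℝ → ℝ) (c : ℝ) (x v : E) (t : ℝ) :
    gx (fun x v t => c * l x v t) x v t = c • gx l x v t := by
  unfold gx gradient
  have h1 : fderiv ℝ (fun w => c * l w v t) x = c • fderiv ℝ (fun w => l w v t) x := by
    have h2 := congrFun (fderiv_const_smul_field (𝕜 := ℝ) (f := fun w => l w v t) c) x
    exact h2
  rw [h1]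
  simp

theorem kerl_smul (l : E → E → ℝ → ℝ) {c : ℝ} (hc : 0 ≤ c) (a b : ℝ) (z z' : E) :
    kerl (fun x v t => c * l x v t) a b z z' = c * kerl l a b z z' := by
  have h1 : ∀ u : ℝ → E, actl (fun x v t => c * l x v t) a b z u = c * actl l a b z u := by
    intro u
    unfold actl
    rw [intervalIntegral.integral_const_mul]
  have h2 : {x : ℝ | ∃ u : ℝ → E, Adm u ∧ traj a z u b = z' ∧ x = actl (fun x v t => c * l x v t) a b z u} =
      c • {x : ℝ | ∃ u : ℝ → E, Adm u ∧ traj a z u b = z' ∧ x = actl l a b z u} := by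
    ext x
    rw [Set.mem_smul_set]
    constructor
    · rintro ⟨u, hu, hz, rfl⟩
      exact ⟨_, ⟨u, hu, hz, rfl⟩, by rw [h1]; rfl⟩
    · rintro ⟨y, ⟨u, hu, hz, rfl⟩, rfl⟩
      exact ⟨u, hu, hz, by rw [h1]; rfl⟩
  unfold kerl
  rw [h2, Real.sInf_smul_of_nonneg hc]
  rfl

/-- infimum with an additive constant -/
theorem iInf_affine {Y : Type*} [Nonempty Y] {f : Y → ℝ} (hf : BddBelow (range f)) {c : ℝ} (hc : 0 ≤ c) (e : ℝ) :
    (⨅ x, (c * f x + e)) = c * (⨅ x, f x) + e := by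
  rw [Real.mul_iInf_of_nonneg hc]
  have h1 : BddBelow (range fun x => c * f x) := by
    obtain ⟨b, hb⟩ := hf
    refine ⟨c * b, ?_⟩
    rintro _ ⟨x, rfl⟩
    exact mul_le_mul_of_nonneg_left (hb ⟨x, rfl⟩) hc
  apply le_antisymm
  · have h2 : (⨅ x, (c * f x + e)) - e ≤ ⨅ x, c * f x := by
      apply le_ciInf
      intro x
      have h3 : BddBelow (range fun x => c * f x + e) := by
        obtain ⟨b, hb⟩ := h1
        refine ⟨b + e, ?_⟩
        rintro _ ⟨y, rfl⟩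
        have := hb ⟨y, rfl⟩
        simp only at this ⊢
        linarith
      have := ciInf_le h3 x
      linarith
    linarith
  · apply le_ciInf
    intro x
    have := ciInf_le h1 x
    linarith

theorem kp_affine {Y : Type*} [PseudoMetricSpace Y] {K K' : Y → Y → ℝ} {C A : Set Y} {B Λ : ℝ} (h : KD K C A B Λ)
    {c : ℝ} (hc : 0 ≤ c) (e : ℝ) (H : ∀ x ∈ A, ∀ x' ∈ A, K' x x' = c * K x x' + e) :
    ∀ n : ℕ, ∀ x ∈ A, ∀ x' ∈ A, kp K' C (n + 1) x x' = c * kp K C (n + 1) x x' + ((n : ℝ) + 1) * e := by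
  have _i := h.ne.to_subtype
  intro n
  induction n with
  | zero =>
    intro x hx x' hx'
    have := H x hx x' hx'
    simpa [kp] using this
  | succ n ih =>
    intro x hx x' hx'
    show (⨅ y : C, (K' x y + kp K' C (n + 1) y x')) =
      c * (⨅ y : C, (K x y + kp K C (n + 1) y x')) + (((n + 1 : ℕ) : ℝ) + 1) * e
    rw [← iInf_affine (h.kp_bdd n hx hx') hc]
    refine iInf_congr fun y => ?_
    rw [H x hx y (h.sub y.2), ih y (h.sub y.2) x' hx']
    push_cast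
    ring

theorem gk_affine {Y : Type*} [PseudoMetricSpace Y] {K K' : Y → Y → ℝ} {C A : Set Y} {B Λ : ℝ} (h : KD K C A B Λ)
    {c : ℝ} (hc : 0 ≤ c) (e : ℝ) (H : ∀ x ∈ A, ∀ x' ∈ A, K' x x' = c * K x x' + e)
    (F : Finset ℕ) (hF : ∀ T ∈ F, 1 ≤ T) (b : ℕ → ℝ) {x x' : Y} (hx : x ∈ A) (hx' : x' ∈ A) :
    gk K' C F (fun T => c * b T - T * e) x x' = c * gk K C F b x x' := by
  unfold gk
  rw [Real.mul_iInf_of_nonneg hc]
  refine iInf_congr fun T => ?_
  obtain ⟨n, hn⟩ : ∃ n, (T : ℕ) = n + 1 := ⟨(T : ℕ) - 1, by have := hF T T.2; omega⟩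
  rw [hn, kp_affine h hc e H n x hx x' hx']
  push_cast
  ring

end PL2

namespace PL2

theorem bdd (h : D.Ok) (hl : TG D.β m M l) (s : ℝ) {t t' : ℝ} (htt : t < t') (x x' : E) :
    BddBelow (range fun n : Fin d → ℤ => kerl l t t' x (x' + lv (D0 D).b n) -
      s * ((D0 D).B (x' + lv (D0 D).b n) - (D0 D).B x) + s ^ 2 / 2 * (t' - t)) := by
  rcases le_total 0 s with hs | hs
  · exact A5a_bdd hl (C11a_QB h) hs htt x x'
  · have hB : QB (D0 D).b (D0 D).MF (fun y => -(D0 D).B y) (fun i => -(D0 D).c i) := by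
      have h0 := C11a_QB h
      refine ⟨fun y z => ?_, fun n y => ?_⟩
      · have := h0.lip y z
        rw [← abs_neg] at this
        rwa [show -(D0 D).B y - -(D0 D).B z = -((D0 D).B y - (D0 D).B z) by ring]
      · simp only [h0.lvB n y, mul_neg, Finset.sum_neg_distrib]
        ring
    have h1 := A5a_bdd hl hB (s := -s) (by linarith) htt x x'
    have h2 : (fun n : Fin d → ℤ => kerl l t t' x (x' + lv (D0 D).b n) -
        s * ((D0 D).B (x' + lv (D0 D).b n) - (D0 D).B x) + s ^ 2 / 2 * (t' - t)) =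
        fun n : Fin d → ℤ => kerl l t t' x (x' + lv (D0 D).b n) -
        -s * (-(D0 D).B (x' + lv (D0 D).b n) - -(D0 D).B x) + (-s) ^ 2 / 2 * (t' - t) := by
      funext n; ring
    rw [h2]
    exact h1

end PL2

theorem kk_smul (h : D.Ok) (hl : TG D.β m M l) {c s : ℝ} (hc : 0 < c) {t t' : ℝ} (htt : t ≤ t') (x x' : E) :
    (D0 D).kk (fun x v t => c * l x v t) (c * s) t t' x x' =
      c * (D0 D).kk l s t t' x x' + (c ^ 2 - c) * s ^ 2 / 2 * (t' - t) := by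
  unfold GD.kk K
  simp only [PL2.kerl_smul l hc.le]
  have h1 : ∀ n : Fin d → ℤ, c * kerl l t t' x (x' + lv (D0 D).b n) -
      c * s * ((D0 D).B (x' + lv (D0 D).b n) - (D0 D).B x) + (c * s) ^ 2 / 2 * (t' - t) =
      c * (kerl l t t' x (x' + lv (D0 D).b n) - s * ((D0 D).B (x' + lv (D0 D).b n) - (D0 D).B x) +
        s ^ 2 / 2 * (t' - t)) + (c ^ 2 - c) * s ^ 2 / 2 * (t' - t) := by
    intro n; ring
  simp only [h1]
  rcases htt.eq_or_lt with rfl | htt
  · simp only [sub_self, mul_zero, add_zero]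
    rw [Real.mul_iInf_of_nonneg hc.le]
  · exact PL2.iInf_affine (PL2.bdd h hl s htt x x') hc.le _

theorem tg_smul {β : Module.Basis ι ℝ E} (hl : TG β m M l) {c : ℝ} (hc : 0 < c) :
    TG β (c * m) (c * M) (fun x v t => c * l x v t) := by
  refine ⟨mul_pos hc hl.m_pos, mul_nonneg hc.le hl.M_nonneg, contDiff_const.mul hl.smooth, ?_, ?_, ?_, ?_, ?_⟩
  · intro i x v t
    simp only [hl.per]
  · intro x v t
    simp only [hl.pert]
  · intro x u v t
    have h1 := mul_le_mul_of_nonneg_left (hl.conv x u v t) hc.le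
    rw [PL2.gu_smul, real_inner_smul_left]
    calc c * l x v t + c * inner ℝ (gu l x v t) (u - v) + c * m / 2 * ‖u - v‖ ^ 2
        = c * (l x v t + inner ℝ (gu l x v t) (u - v) + m / 2 * ‖u - v‖ ^ 2) := by ring
      _ ≤ c * l x u t := h1
  · intro x v t t'
    rw [← mul_sub, abs_mul, abs_of_pos hc, mul_assoc, mul_assoc]
    exact mul_le_mul_of_nonneg_left (by rw [← mul_assoc]; exact hl.l_t x v t t') hc.le
  · intro x v t
    rw [abs_mul, abs_of_pos hc, mul_assoc]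
    exact mul_le_mul_of_nonneg_left (hl.l_bd x v t) hc.le

theorem leg_smul (h : D.Ok) (hp : POk D p) (hl : TG D.β m M l) {c s : ℝ} (hc : 0 < c)
    (hL : Leg D p l s) : Leg D p (fun x v t => c * l x v t) (c * s) := by
  have hk := fun (t t' : ℝ) (htt : t ≤ t') (x x' : E) => kk_smul h hl (s := s) hc htt x x'
  refine ⟨mul_nonneg hc.le hL.s_nonneg, ?_, ?_, ?_, ?_, ?_, ?_⟩
  · intro x' hx' x'' hx'' x hx
    have h1 := mul_lt_mul_of_pos_left (hL.r0 x' hx' x'' hx'' x hx) hc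
    simp only [GD.k1, hk 0 1 zero_le_one] at h1 ⊢
    linarith
  · intro r h0 h1' w hw x'' hx'' x hx
    have h1 := mul_lt_mul_of_pos_left (hL.r1 r h0 h1' w hw x'' hx'' x hx) hc
    simp only [GD.k1, GD.P, hk 0 1 zero_le_one, hk r 2 (by linarith)] at h1 ⊢
    linarith
  · intro r h0 h1' w hw x' hx' x hx
    have h1 := mul_lt_mul_of_pos_left (hL.r2 r h0 h1' w hw x' hx' x hx) hc
    simp only [GD.k1, GD.Q, hk 0 1 zero_le_one, hk 0 (1 + r) (by linarith)] at h1 ⊢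
    linarith
  · intro x hx x' hx' t h0 h1' c' hc'
    have h1 := mul_lt_mul_of_pos_left (hL.v1 x hx x' hx' t h0 h1' c' hc') hc
    simp only [GD.k1, hk 0 1 zero_le_one, hk 0 t h0.le, hk t 1 h1'.le] at h1 ⊢
    linarith
  · intro x hx r h0 h1' w hw t ht ht' c' hc'
    have h1 := mul_lt_mul_of_pos_left (hL.nQ x hx r h0 h1' w hw t ht ht' c' hc') hc
    simp only [GD.Q, hk 0 (1 + r) (by linarith), hk 0 t ht.le, hk t (1 + r) ht'.le] at h1 ⊢
    linarith
  · intro x hx r h0 h1' w hw t ht ht' c' hc'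
    have h1 := mul_lt_mul_of_pos_left (hL.nP x hx r h0 h1' w hw t ht ht' c' hc') hc
    simp only [GD.P, hk r 2 (by linarith), hk r t ht.le, hk t 2 ht'.le] at h1 ⊢
    linarith

theorem win_smul (h : D.Ok) (hl : TG D.β m M l) {c s : ℝ} (hc : 0 < c) {Wn : E → E → ℝ → Prop}
    (hW : Win D p l s Wn) : Win D p (fun x v t => c * l x v t) (c * s) Wn := by
  intro t t' h1 h2 Z v hZ hv hZv hE hX hK
  refine hW t t' h1 h2 Z v hZ hv hZv ?_ hX ?_
  · intro r hr
    have h3 := (hE r hr).const_smul c⁻¹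
    simp only [PL2.gu_smul, PL2.gx_smul] at h3
    have h4 : (fun r => gu l (Z r) (v r) r) = c⁻¹ • fun r => c • gu l (Z r) (v r) r := by
      funext r
      simp [smul_smul, inv_mul_cancel₀ hc.ne']
    rw [h4]
    have h5 : gx l (Z r) (v r) r = c⁻¹ • c • gx l (Z r) (v r) r := by
      rw [smul_smul, inv_mul_cancel₀ hc.ne', one_smul]
    rw [h5]
    exact h3
  · rw [kk_smul h hl hc (by linarith), intervalIntegral.integral_const_mul] at hK
    have h3 : c * (D0 D).kk l s t t' (Z t) (Z t') = c * ((∫ r in t..t', l (Z r) (v r) r) -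
      s * ((D0 D).B (Z t') - (D0 D).B (Z t)) + s ^ 2 / 2 * (t' - t)) := by linarith
    exact mul_left_cancel₀ hc.ne' h3

namespace PL2

theorem Md_Mg {r : ℝ} (hp : POk D p) {w : E} (hw : w ∈ Md D p r) : w ∈ D.Mg r (p.ηc / 2) (2 * p.κ) := by
  refine ⟨?_, ?_⟩
  · intro v hv
    have h1 := hw.1.1 v hv
    have h2 := hp.ηc_pos
    linarith
  · have h1 := hw.1.2
    have h2 := hp.κ_pos
    linarith

theorem gk_bdd {Y : Type*} [PseudoMetricSpace Y] {K : Y → Y → ℝ} {C A : Set Y} {B Λ : ℝ} (h : KD K C A B Λ)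
    (F : Finset ℕ) (hFn : F.Nonempty) (hF : ∀ T ∈ F, 1 ≤ T) (b : ℕ → ℝ) :
    ∃ b0 : ℝ, ∀ x ∈ A, ∀ x' ∈ A, b0 ≤ gk K C F b x x' := by
  have _j := hFn.to_subtype
  have hB := h.B_nonneg
  refine ⟨-∑ T ∈ F, (B * T + |b T|), fun x hx x' hx' => le_ciInf fun T => ?_⟩
  obtain ⟨n, hn⟩ : ∃ n, (T : ℕ) = n + 1 := ⟨(T : ℕ) - 1, by have := hF T T.2; omega⟩
  have h1 := (abs_le.1 (h.kp_bd n x hx x' hx')).1
  have h2 := Finset.single_le_sum (f := fun T : ℕ => B * T + |b T|) (fun T _ => by positivity) T.2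
  have h3 := neg_abs_le (b T)
  rw [hn] at h2 h3 ⊢
  push_cast at h2 h1
  linarith

theorem Gm_smul (h : D.Ok) (hp : POk D p) (hl : TG D.β m M l) {c s : ℝ} (hc : 0 < c) (hs : 0 ≤ s)
    (F : Finset ℕ) (hFn : F.Nonempty) (hF : ∀ T ∈ F, 1 ≤ T) (b : ℕ → ℝ) {r : ℝ} (hr : 0 ≤ r) (hr1 : r ≤ 1) {x w : E}
    (hx : x ∈ (D0 D).R p) (hw : w ∈ Md D p r) :
    (D0 D).Gm p (fun x v t => c * l x v t) (c * s) F (fun T => c * b T - T * ((c ^ 2 - c) * s ^ 2 / 2 * (1 - 0))) r x w =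
      c * (D0 D).Gm p l s F b r x w + (c ^ 2 - c) * s ^ 2 / 2 * (1 + r - 0) := by
  obtain ⟨C, hC, hKD, hk⟩ := EscT.C11b.consts h hp hl hs
  have _i := hKD.ne.to_subtype
  have hK1 : ∀ x ∈ (D0 D).R p, ∀ x' ∈ (D0 D).R p, (D0 D).k1 (fun x v t => c * l x v t) (c * s) x x' =
      c * (D0 D).k1 l s x x' + (c ^ 2 - c) * s ^ 2 / 2 * (1 - 0) :=
    fun x _ x' _ => kk_smul h hl hc zero_le_one x x'
  unfold GD.Gm
  rw [← iInf_affine _ hc.le]
  · refine iInf_congr fun x1 => ?_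
    rw [gk_affine hKD hc.le _ hK1 F hF b hx (hKD.sub x1.2)]
    unfold GD.Q
    rw [kk_smul h hl hc (by linarith)]
    ring
  · obtain ⟨B, hB⟩ := gk_bdd hKD F hFn hF b
    refine ⟨B - C, ?_⟩
    rintro _ ⟨x1, rfl⟩
    have h1 := hB x hx x1 (hKD.sub x1.2)
    have h2 := (abs_le.1 (hk 0 (1 + r) (by linarith) (by linarith) x1 (EscT.C11b.C_X x1.2) w
        (EscT.C11b.M_X hp (Md_Mg hp hw))).1).1
    simp only [GD.Q]
    linarith

theorem Gp_smul (h : D.Ok) (hp : POk D p) (hl : TG D.β m M l) {c s : ℝ} (hc : 0 < c) (hs : 0 ≤ s)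
    (F : Finset ℕ) (hFn : F.Nonempty) (hF : ∀ T ∈ F, 1 ≤ T) (b : ℕ → ℝ) {r : ℝ} (hr : 0 ≤ r) (hr1 : r ≤ 1) {x w : E}
    (hx : x ∈ (D0 D).R p) (hw : w ∈ Md D p r) :
    (D0 D).Gp p (fun x v t => c * l x v t) (c * s) F (fun T => c * b T - T * ((c ^ 2 - c) * s ^ 2 / 2 * (1 - 0))) r w x =
      c * (D0 D).Gp p l s F b r w x + (c ^ 2 - c) * s ^ 2 / 2 * (2 - r) := by
  obtain ⟨C, hC, hKD, hk⟩ := EscT.C11b.consts h hp hl hs
  have _i := hKD.ne.to_subtype
  have hK1 : ∀ x ∈ (D0 D).R p, ∀ x' ∈ (D0 D).R p, (D0 D).k1 (fun x v t => c * l x v t) (c * s) x x' =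
      c * (D0 D).k1 l s x x' + (c ^ 2 - c) * s ^ 2 / 2 * (1 - 0) :=
    fun x _ x' _ => kk_smul h hl hc zero_le_one x x'
  unfold GD.Gp
  rw [← iInf_affine _ hc.le]
  · refine iInf_congr fun x1 => ?_
    rw [gk_affine hKD hc.le _ hK1 F hF b (hKD.sub x1.2) hx]
    unfold GD.P
    rw [kk_smul h hl hc (by linarith)]
    ring
  · obtain ⟨B, hB⟩ := gk_bdd hKD F hFn hF b
    refine ⟨B - C, ?_⟩
    rintro _ ⟨x1, rfl⟩
    have h1 := hB x1 (hKD.sub x1.2) x hx
    have h2 := (abs_le.1 (hk r 2 (by linarith) (by linarith) (w - (D0 D).g)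
      (EscT.C11b.M_X' hp (Md_Mg hp hw)) x1 (EscT.C11b.C_X x1.2)).1).1
    simp only [GD.P]
    linarith

end PL2

theorem stage_smul (h : D.Ok) (hp : POk D p) (hl : TG D.β m M l) {c a b : ℝ} (hc : 0 < c) (ha : 0 ≤ a)
    (hS : Stage D p l a b) : Stage D p (fun x v t => c * l x v t) (c * a) (c * b) := by
  obtain ⟨J, s, r, F, cc, G, δ, hJ, hδ, hs0, hsJ, hsab, hF, hG⟩ := hS
  refine ⟨J, fun i => c * s i, r, F, fun i T => c * cc i T - T * ((c ^ 2 - c) * s i ^ 2 / 2 * (1 - 0)), G, c * δ,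
    hJ, mul_pos hc hδ, by simp only [hs0], by simp only [hsJ], ?_, hF, ?_⟩
  · intro i hi
    exact ⟨mul_le_mul_of_nonneg_left (hsab i hi).1 hc.le, mul_le_mul_of_nonneg_left (hsab i hi).2 hc.le⟩
  · intro i hi
    obtain ⟨hr0, hr1, hGc, hGn, hGM, hGf⟩ := hG i hi
    refine ⟨hr0, hr1, hGc, hGn, hGM, ?_⟩
    intro z hz
    obtain ⟨w, hw, hww⟩ := hGf z hz
    refine ⟨w, hw, ?_⟩
    intro x hx x' hx'
    have hz' : z ∈ G i := hGc.isClosed.frontier_subset hz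
    have hsi : 0 ≤ s i := ha.trans (hsab i hi.le).1
    have hsi' : 0 ≤ s (i + 1) := ha.trans (hsab (i + 1) hi).1
    obtain ⟨f1, f2⟩ := hF i hi.le
    obtain ⟨f3, f4⟩ := hF (i + 1) hi
    rw [PL2.Gm_smul h hp hl hc hsi (F i) f1 f2 (cc i) hr0 hr1.le hx (hGM hw),
      PL2.Gm_smul h hp hl hc hsi (F i) f1 f2 (cc i) hr0 hr1.le hx (hGM hz'),
      PL2.Gp_smul h hp hl hc hsi' (F (i + 1)) f3 f4 (cc (i + 1)) hr0 hr1.le hx' (hGM hw),
      PL2.Gp_smul h hp hl hc hsi' (F (i + 1)) f3 f4 (cc (i + 1)) hr0 hr1.le hx' (hGM hz')]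
    have h1 := mul_le_mul_of_nonneg_left (hww x hx x' hx') hc.le
    linarith

end EscZ
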