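import Pool.Agent.EscW.QPDefs
import Pool.Agent.EscW.PR1

/-!
Project EscW, part Q (MP_6acca1_an): the profiles, uniformly in the scale.
-/

noncomputable section

namespace EscZ

open MeasureTheory Set Filter Topology Esc EscF EscG EscT EscP
open scoped ContDiff

variable {C j0 j1 : ℝ} {g : ℝ → ℝ}

theorem Gr.C_nonneg (hg : Gr C g) : 0 ≤ C := by
  have h1 := hg.cap 1 le_rfl
  have h2 := hg.d1 1
  have h3 := hg.d2 1
  by_contra h
  have h4 : C * deriv g 1 < 0 := mul_neg_of_neg_of_pos (not_le.1 h) h2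
  linarith

theorem Gr.c1 (hg : Gr C g) : ContDiff ℝ 1 (deriv g) := by
  have h1 : ContDiff ℝ (1 + 1) g := by
    have h2 : (1 + 1 : WithTop ℕ∞) = 2 := by norm_num
    rw [h2]
    exact hg.smooth
  exact (contDiff_succ_iff_deriv.1 h1).2.2

theorem Gr.dd (hg : Gr C g) (y : ℝ) : HasDerivAt (deriv g) (deriv (deriv g) y) y :=
  ((hg.c1.differentiable (by norm_num)) y).hasDerivAt

theorem Gr.dg (hg : Gr C g) (y : ℝ) : HasDerivAt g (deriv g y) y :=
  ((hg.smooth.differentiable (by norm_num)) y).hasDerivAt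

theorem Gr.mono (hg : Gr C g) : Monotone (deriv g) :=
  monotone_of_hasDerivAt_nonneg hg.dd (fun y => hg.d2 y)

/-- power growth of the derivative -/
theorem Gr.pow (hg : Gr C g) {a y : ℝ} (ha : 1 ≤ a) (hy : a ≤ y) : deriv g y ≤ deriv g a * (y / a) ^ C := by
  have ha0 : 0 < a := by linarith
  have hy0 : 0 < y := by linarith
  have h1 : AntitoneOn (fun z => deriv g z * z ^ (-C)) (Ici 1) := by
    have hd : ∀ z ∈ Ici (1:ℝ), HasDerivAt (fun z => deriv g z * z ^ (-C))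
        (deriv (deriv g) z * z ^ (-C) + deriv g z * (-C * z ^ (-C - 1))) z := by
      intro z hz
      have hz0 : z ≠ 0 := by
        have : (1:ℝ) ≤ z := hz
        linarith
      exact (hg.dd z).mul (Real.hasDerivAt_rpow_const (Or.inl hz0))
    refine antitoneOn_of_deriv_nonpos (convex_Ici 1) (fun z hz => (hd z hz).continuousAt.continuousWithinAt)
      (fun z hz => (hd z (interior_subset hz)).differentiableAt.differentiableWithinAt) (fun z hz => ?_)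
    have hz' := interior_subset hz
    rw [(hd z hz').deriv]
    have hz1 : (1:ℝ) ≤ z := hz'
    have hz0 : 0 < z := by linarith
    have e1 : z ^ (-C) = z ^ (-C - 1) * z := by
      rw [Real.rpow_sub_one hz0.ne']
      field_simp
    rw [e1]
    have h2 := hg.cap z hz1
    have h3 : 0 ≤ z ^ (-C - 1) := (Real.rpow_pos_of_pos hz0 _).le
    have h4 := mul_le_mul_of_nonneg_left h2 h3
    linarith
  have h2 := h1 (show a ∈ Ici (1:ℝ) from ha) (show y ∈ Ici (1:ℝ) from ha.trans hy) hy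
  have h3 : 0 < y ^ C := Real.rpow_pos_of_pos hy0 _
  have h4 := mul_le_mul_of_nonneg_right h2 h3.le
  have e2 : deriv g y * y ^ (-C) * y ^ C = deriv g y := by
    rw [Real.rpow_neg hy0.le]
    field_simp
  have e3 : deriv g a * a ^ (-C) * y ^ C = deriv g a * (y / a) ^ C := by
    rw [Real.rpow_neg ha0.le, Real.div_rpow hy0.le ha0.le]
    field_simp
  simp only at h4
  rw [e2, e3] at h4
  exact h4

/-- bounds of the ratio of the slopes -/
theorem QP1_ratio (hg : Gr C g) (h0 : 0 < j0) (h0' : j0 ≤ 1 / 2) (h1 : 1 / 2 ≤ j1) {q : ℝ} (hq : 2 / j0 ≤ q ^ 2)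
    {x : ℝ} (hx0 : j0 / 2 ≤ x) (hx1 : x ≤ 2 * j1) :
    j0 ^ C ≤ deriv g (q ^ 2 * x) / deriv g (q ^ 2 / 2) ∧ deriv g (q ^ 2 * x) / deriv g (q ^ 2 / 2) ≤ (4 * j1) ^ C := by
  have hC := hg.C_nonneg
  have hq0 : 0 < q ^ 2 := lt_of_lt_of_le (by positivity) hq
  have hqn : q ≠ 0 := by
    rintro rfl
    simp at hq0
  have hqj : 1 ≤ q ^ 2 * (j0 / 2) := by
    rw [div_le_iff₀ h0] at hq
    linarith
  have hx : 0 < x := by linarith
  have hqx : 1 ≤ q ^ 2 * x := hqj.trans (mul_le_mul_of_nonneg_left hx0 hq0.le)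
  have hqh : 1 ≤ q ^ 2 / 2 := by nlinarith
  have hd := hg.d1 (q ^ 2 / 2)
  have hdx := hg.d1 (q ^ 2 * x)
  have hj1 : (1:ℝ) ≤ (4 * j1) ^ C := Real.one_le_rpow (by linarith) hC
  have hj0 : j0 ^ C ≤ 1 := Real.rpow_le_one h0.le (by linarith) hC
  rcases le_total x (1 / 2) with h | h
  · have h2 : q ^ 2 * x ≤ q ^ 2 / 2 := by nlinarith
    have h3 := hg.mono h2
    have h4 := hg.pow hqx h2
    have h5 : q ^ 2 / 2 / (q ^ 2 * x) = (2 * x)⁻¹ := by field_simp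
    rw [h5, Real.inv_rpow (by positivity)] at h4
    have h6 : 0 < (2 * x) ^ C := Real.rpow_pos_of_pos (by positivity) _
    constructor
    · rw [le_div_iff₀ hd]
      have h7 : j0 ^ C ≤ (2 * x) ^ C := Real.rpow_le_rpow h0.le (by linarith) hC
      calc j0 ^ C * deriv g (q ^ 2 / 2) ≤ (2 * x) ^ C * (deriv g (q ^ 2 * x) * ((2 * x) ^ C)⁻¹) :=
            mul_le_mul h7 h4 hd.le h6.le
        _ = deriv g (q ^ 2 * x) := by field_simp
    · rw [div_le_iff₀ hd]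
      nlinarith
  · have h2 : q ^ 2 / 2 ≤ q ^ 2 * x := by nlinarith
    have h3 := hg.mono h2
    have h4 := hg.pow hqh h2
    have h5 : q ^ 2 * x / (q ^ 2 / 2) = 2 * x := by field_simp
    rw [h5] at h4
    constructor
    · rw [le_div_iff₀ hd]
      nlinarith
    · rw [div_le_iff₀ hd]
      have h7 : (2 * x) ^ C ≤ (4 * j1) ^ C := Real.rpow_le_rpow (by linarith) (by linarith) hC
      nlinarith

theorem exists_Prof (hg : Gr C g) (h0 : 0 < j0) (h0' : j0 ≤ 1 / 2) (h1 : 1 / 2 ≤ j1) (h01 : j0 < j1) :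
    ∃ (θ0 θ1 : ℝ), 0 < θ0 ∧ 0 ≤ θ1 ∧ ∀ q : ℝ, 2 / j0 ≤ q ^ 2 → ∃ (ψ ψ' ψ'' : ℝ → ℝ), Prof θ0 θ1 ψ ψ' ψ'' ∧
      ∀ y, j0 ≤ y → y ≤ j1 → ψ' y = deriv g (q ^ 2 * y) / deriv g (q ^ 2 / 2) := by
  have hC := hg.C_nonneg
  have hj1 : 0 < j1 := h0.trans h01
  have hxl : ∀ y, j0 / 2 ≤ PR1_x j0 j1 y := fun y => PR1_x_low (j1 := j1) h0 y
  have hxh : ∀ y, PR1_x j0 j1 y ≤ 2 * j1 := fun y => PR1_x_high h0 h01 y
  have hxc : Continuous (PR1_x j0 j1) := continuous_iff_continuousAt.2 fun y => (PR1_x_d j0 j1 y).continuousAt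
  have hP0 : 0 < j0 ^ C := Real.rpow_pos_of_pos h0 _
  have hP1 : 0 < (4 * j1) ^ C := Real.rpow_pos_of_pos (by positivity) _
  refine ⟨j0 ^ C, (4 * j1) ^ C + 2 * C / j0 * (4 * j1) ^ C, hP0, by positivity, fun q hq => ?_⟩
  have hq0 : 0 < q ^ 2 := lt_of_lt_of_le (by positivity) hq
  have hqj : 1 ≤ q ^ 2 * (j0 / 2) := by
    rw [div_le_iff₀ h0] at hq
    linarith
  have hd := hg.d1 (q ^ 2 / 2)
  have hr := fun y => QP1_ratio hg h0 h0' h1 hq (hxl y) (hxh y)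
  let θ : ℝ → ℝ := fun y => deriv g (q ^ 2 * PR1_x j0 j1 y) / deriv g (q ^ 2 / 2)
  let θ' : ℝ → ℝ := fun y =>
    deriv (deriv g) (q ^ 2 * PR1_x j0 j1 y) * (q ^ 2 * PR1_b j0 j1 y) / deriv g (q ^ 2 / 2)
  have hθd : ∀ y, HasDerivAt θ (θ' y) y := by
    intro y
    have h2 := ((hg.dd (q ^ 2 * PR1_x j0 j1 y)).comp y ((PR1_x_d j0 j1 y).const_mul (q ^ 2))).div_const
      (deriv g (q ^ 2 / 2))
    exact h2
  have hθc : Continuous θ := continuous_iff_continuousAt.2 fun y => (hθd y).continuousAt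
  have hddc : Continuous (deriv (deriv g)) := (contDiff_one_iff_deriv.1 hg.c1).2
  refine ⟨fun y => ∫ u in (0:ℝ)..y, θ u, θ, θ', ⟨hP0, ?_, hθd, ?_, ?_, ?_, ?_, ?_, ?_⟩, ?_⟩
  · intro y
    exact (hθc.integral_hasStrictDerivAt 0 y).hasDerivAt
  · exact ((hddc.comp (continuous_const.mul hxc)).mul (continuous_const.mul (PR1_b_cont j0 j1))).div_const _
  · simp
  · intro y
    refine ⟨(hr y).1, (hr y).2.trans ?_⟩
    have : 0 ≤ 2 * C / j0 * (4 * j1) ^ C := by positivity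
    linarith
  · intro y
    have hx0 : 0 < PR1_x j0 j1 y := lt_of_lt_of_le (by positivity) (hxl y)
    have hx1 : 1 ≤ q ^ 2 * PR1_x j0 j1 y := hqj.trans (mul_le_mul_of_nonneg_left (hxl y) hq0.le)
    have hb0 := PR1_b_nonneg j0 j1 y
    have hb1 := PR1_b_le j0 j1 y
    have hdd := hg.d2 (q ^ 2 * PR1_x j0 j1 y)
    have hel := hg.cap _ hx1
    refine ⟨div_nonneg (mul_nonneg hdd (mul_nonneg hq0.le hb0)) hd.le, ?_⟩
    have h2 : θ' y = (q ^ 2 * PR1_x j0 j1 y * deriv (deriv g) (q ^ 2 * PR1_x j0 j1 y)) /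
        deriv g (q ^ 2 / 2) * (PR1_b j0 j1 y / PR1_x j0 j1 y) := by
      show deriv (deriv g) (q ^ 2 * PR1_x j0 j1 y) * (q ^ 2 * PR1_b j0 j1 y) / deriv g (q ^ 2 / 2) = _
      have := hd.ne'
      field_simp
    have h3 : (q ^ 2 * PR1_x j0 j1 y * deriv (deriv g) (q ^ 2 * PR1_x j0 j1 y)) / deriv g (q ^ 2 / 2) ≤
        C * (4 * j1) ^ C := by
      calc _ ≤ C * deriv g (q ^ 2 * PR1_x j0 j1 y) / deriv g (q ^ 2 / 2) :=
            div_le_div_of_nonneg_right hel hd.le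
        _ = C * (deriv g (q ^ 2 * PR1_x j0 j1 y) / deriv g (q ^ 2 / 2)) := by ring
        _ ≤ C * (4 * j1) ^ C := mul_le_mul_of_nonneg_left (hr y).2 hC
    have h4 : PR1_b j0 j1 y / PR1_x j0 j1 y ≤ 2 / j0 := by
      rw [div_le_div_iff₀ hx0 h0]
      have := hxl y
      nlinarith
    have h5 : 0 ≤ PR1_b j0 j1 y / PR1_x j0 j1 y := div_nonneg hb0 hx0.le
    rw [h2]
    calc _ ≤ C * (4 * j1) ^ C * (2 / j0) := mul_le_mul h3 h4 h5 (by positivity)
      _ = 2 * C / j0 * (4 * j1) ^ C := by ring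
      _ ≤ _ := by linarith
  · intro y hy
    show deriv (deriv g) (q ^ 2 * PR1_x j0 j1 y) * (q ^ 2 * PR1_b j0 j1 y) / deriv g (q ^ 2 / 2) = 0
    rw [PR1_b_low h0 (by linarith), mul_zero, mul_zero, zero_div]
  · show deriv g (q ^ 2 * PR1_x j0 j1 (1 / 2)) / deriv g (q ^ 2 / 2) = 1
    rw [PR1_x_eq h0 h01 h0' h1]
    have e : q ^ 2 * (1 / 2) = q ^ 2 / 2 := by ring
    rw [e, div_self hd.ne']
  · intro y hy0 hy1
    show deriv g (q ^ 2 * PR1_x j0 j1 y) / deriv g (q ^ 2 / 2) = _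
    rw [PR1_x_eq h0 h01 hy0 hy1]

end EscZ
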