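import Pool.Agent.EscW.QPDefs

/-!
Project EscW, part Q (MP_6acca1_an): the effective weight of a profile.
-/

noncomputable section

namespace EscZ

open MeasureTheory Set Filter Topology Esc EscF EscG EscT EscP
open scoped ContDiff

variable {A θ0 θ1 : ℝ} {κ : ℝ → ℝ} {ψ ψ' ψ'' : ℝ → ℝ}

theorem QP2_mono (hψ : Prof θ0 θ1 ψ ψ' ψ'') : Monotone ψ' :=
  monotone_of_hasDerivAt_nonneg hψ.d2 (fun y => (hψ.p2 y).1)

theorem QP2_lip (hψ : Prof θ0 θ1 ψ ψ' ψ'') (a b : ℝ) : |ψ' a - ψ' b| ≤ θ1 * |a - b| := by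
  have h1 := Convex.norm_image_sub_le_of_norm_hasDerivWithin_le (f := ψ') (f' := ψ'') (C := θ1) (s := Set.univ)
    (x := b) (y := a) (fun x _ => (hψ.d2 x).hasDerivWithinAt)
    (fun x _ => by
      rw [Real.norm_eq_abs, abs_of_nonneg (hψ.p2 x).1]
      exact (hψ.p2 x).2) convex_univ (Set.mem_univ _) (Set.mem_univ _)
  rwa [Real.norm_eq_abs, Real.norm_eq_abs] at h1

theorem QP2_ex (hψ : Prof θ0 θ1 ψ ψ' ψ'') (hA : 1 ≤ A) {k : ℝ} (h1 : 1 ≤ A * k) (h2 : k ≤ A) :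
    ∃ y, (2 * A)⁻¹ ≤ y ∧ y ≤ A / 2 ∧ 2 * k * y * ψ' y ^ 2 = 1 := by
  have hA0 : 0 < A := by linarith
  have hk : 0 < k := by
    by_contra h
    have := mul_nonpos_of_nonneg_of_nonpos hA0.le (not_lt.1 h)
    linarith
  have hc : Continuous ψ' := continuous_iff_continuousAt.2 fun y => (hψ.d2 y).continuousAt
  have hm := QP2_mono hψ
  have hlo : (2 * A)⁻¹ ≤ 1 / 2 := by
    rw [inv_le_comm₀ (by positivity) (by norm_num)]
    norm_num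
    linarith
  have hle : (2 * A)⁻¹ ≤ A / 2 := hlo.trans (by linarith)
  have hf : ContinuousOn (fun y => 2 * k * y * ψ' y ^ 2) (Icc (2 * A)⁻¹ (A / 2)) :=
    ((continuous_const.mul continuous_id).mul (hc.pow 2)).continuousOn
  have h3 := intermediate_value_Icc hle hf
  have ha : 2 * k * (2 * A)⁻¹ * ψ' (2 * A)⁻¹ ^ 2 ≤ 1 := by
    have h4 : ψ' (2 * A)⁻¹ ≤ 1 := by
      rw [← hψ.half]
      exact hm hlo
    have h5 : 0 ≤ ψ' (2 * A)⁻¹ := hψ.θ_pos.le.trans (hψ.p1 _).1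
    have h6 : ψ' (2 * A)⁻¹ ^ 2 ≤ 1 := pow_le_one₀ h5 h4
    have h7 : 2 * k * (2 * A)⁻¹ ≤ 1 := by
      have e : 2 * k * (2 * A)⁻¹ = k / A := by field_simp
      rw [e, div_le_one hA0]
      exact h2
    have h8 : 0 ≤ 2 * k * (2 * A)⁻¹ := by positivity
    calc _ ≤ 1 * 1 := mul_le_mul h7 h6 (sq_nonneg _) zero_le_one
      _ = 1 := one_mul 1
  have hb : 1 ≤ 2 * k * (A / 2) * ψ' (A / 2) ^ 2 := by
    have h4 : 1 ≤ ψ' (A / 2) := by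
      rw [← hψ.half]
      exact hm (by linarith)
    have h6 : 1 ≤ ψ' (A / 2) ^ 2 := one_le_pow₀ h4
    have h7 : 1 ≤ 2 * k * (A / 2) := by linarith
    calc (1:ℝ) = 1 * 1 := (one_mul 1).symm
      _ ≤ _ := mul_le_mul h7 h6 zero_le_one (by linarith)
  obtain ⟨y, hy, hy2⟩ := h3 ⟨ha, hb⟩
  exact ⟨y, hy.1, hy.2, hy2⟩

theorem QP2_comp (hψ : Prof θ0 θ1 ψ ψ' ψ'') (hA : 1 ≤ A) {k k' y y' : ℝ} (h1 : 1 ≤ A * k) (hkk : k ≤ k')
    (hy : 0 < y) (hy' : 0 < y') (hyA : y' ≤ A / 2) (e : 2 * k * y * ψ' y ^ 2 = 1)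
    (e' : 2 * k' * y' * ψ' y' ^ 2 = 1) : y' ≤ y ∧ y - y' ≤ A ^ 2 / 2 * (k' - k) := by
  have hA0 : 0 < A := by linarith
  have hk : 0 < k := by
    by_contra h
    have := mul_nonpos_of_nonneg_of_nonpos hA0.le (not_lt.1 h)
    linarith
  have hm := QP2_mono hψ
  have hp : 0 < ψ' y := lt_of_lt_of_le hψ.θ_pos (hψ.p1 _).1
  have hp' : 0 < ψ' y' := lt_of_lt_of_le hψ.θ_pos (hψ.p1 _).1
  have hyy : y' ≤ y := by
    by_contra h
    have h2 : y < y' := not_le.1 h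
    have h3 : ψ' y ^ 2 ≤ ψ' y' ^ 2 := pow_le_pow_left₀ hp.le (hm h2.le) 2
    have h4 : 2 * k * y < 2 * k' * y' := by nlinarith
    have h5 : 2 * k * y * ψ' y ^ 2 < 2 * k' * y' * ψ' y' ^ 2 :=
      mul_lt_mul h4 h3 (by positivity) (by nlinarith)
    linarith
  refine ⟨hyy, ?_⟩
  have h3 : ψ' y' ^ 2 ≤ ψ' y ^ 2 := pow_le_pow_left₀ hp'.le (hm hyy) 2
  have h4 : 2 * k * y ≤ 2 * k' * y' := by
    by_contra h
    have h5 : 2 * k' * y' * ψ' y' ^ 2 < 2 * k * y * ψ' y ^ 2 := by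
      have h6 : 2 * k' * y' < 2 * k * y := not_le.1 h
      have hk' : 0 < k' := by linarith
      exact mul_lt_mul h6 h3 (by positivity) (by positivity)
    linarith
  have h5 : k * (y - y') ≤ (k' - k) * y' := by linarith
  have h6 : (k' - k) * y' ≤ (k' - k) * (A / 2) := mul_le_mul_of_nonneg_left hyA (by linarith)
  have h7 : y - y' ≤ A * (k * (y - y')) := by
    have : 0 ≤ (A * k - 1) * (y - y') := mul_nonneg (by linarith) (by linarith)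
    linarith
  have h8 : A * (k * (y - y')) ≤ A * ((k' - k) * (A / 2)) := mul_le_mul_of_nonneg_left (h5.trans h6) hA0.le
  calc y - y' ≤ A * ((k' - k) * (A / 2)) := h7.trans h8
    _ = A ^ 2 / 2 * (k' - k) := by ring

theorem KB.one_le {κ : ℝ → ℝ} (h : KB A κ) : 1 ≤ A := by
  have h1 := h.pos 0
  have h2 := mul_le_mul_of_nonneg_left (h.le 0) h.A_pos.le
  nlinarith [h.A_pos]

theorem exists_KF (hκ : KB A κ) (h0 : 0 < θ0) (h1 : 0 ≤ θ1) : ∃ A1 : ℝ, A ≤ A1 ∧ ∀ ψ ψ' ψ'' : ℝ → ℝ,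
    Prof θ0 θ1 ψ ψ' ψ'' → ∃ K y : ℝ → ℝ, KF (2 * A) A1 κ K y ψ' := by
  have hA := hκ.one_le
  have hA0 : 0 < A := by linarith
  refine ⟨A + A / θ0 + A * θ1 + θ1 + A ^ 3 / 2 * θ1 + A * θ1 * (1 + A ^ 3 / 2), by
    have : 0 ≤ A / θ0 + A * θ1 + θ1 + A ^ 3 / 2 * θ1 + A * θ1 * (1 + A ^ 3 / 2) := by positivity
    linarith, fun ψ ψ' ψ'' hψ => ?_⟩
  have hex : ∀ k : ℝ, ∃ y, 1 ≤ A * k → k ≤ A → (2 * A)⁻¹ ≤ y ∧ y ≤ A / 2 ∧ 2 * k * y * ψ' y ^ 2 = 1 := by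
    intro k
    by_cases h : 1 ≤ A * k ∧ k ≤ A
    · obtain ⟨y, hy⟩ := QP2_ex hψ hA h.1 h.2
      exact ⟨y, fun _ _ => hy⟩
    · exact ⟨0, fun h2 h3 => absurd ⟨h2, h3⟩ h⟩
  choose Y hY using hex
  have hYt : ∀ t, (2 * A)⁻¹ ≤ Y (κ t) ∧ Y (κ t) ≤ A / 2 ∧ 2 * κ t * Y (κ t) * ψ' (Y (κ t)) ^ 2 = 1 :=
    fun t => hY (κ t) (hκ.pos t) (hκ.le t)
  have hY0 : ∀ t, 0 < Y (κ t) := fun t => lt_of_lt_of_le (by positivity) (hYt t).1
  have hκ0 := hκ.pos'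
  have hp : ∀ z, 0 < ψ' z := fun z => lt_of_lt_of_le hψ.θ_pos (hψ.p1 z).1
  have hYlip : ∀ t t', |Y (κ t) - Y (κ t')| ≤ A ^ 3 / 2 * |t - t'| := by
    have key : ∀ t t', κ t ≤ κ t' → |Y (κ t) - Y (κ t')| ≤ A ^ 3 / 2 * |t - t'| := by
      intro t t' h
      obtain ⟨h2, h3⟩ := QP2_comp hψ hA (hκ.pos t) h (hY0 t) (hY0 t') (hYt t').2.1 (hYt t).2.2 (hYt t').2.2
      rw [abs_of_nonneg (by linarith)]
      have h4 := hκ.lip t t'
      have h5 : κ t' - κ t ≤ |κ t - κ t'| := by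
        rw [abs_sub_comm]
        exact le_abs_self _
      calc Y (κ t) - Y (κ t') ≤ A ^ 2 / 2 * (κ t' - κ t) := h3
        _ ≤ A ^ 2 / 2 * (A * |t - t'|) := mul_le_mul_of_nonneg_left (h5.trans h4) (by positivity)
        _ = _ := by ring
    intro t t'
    rcases le_total (κ t) (κ t') with h | h
    · exact key t t' h
    · rw [abs_sub_comm, abs_sub_comm t]
      exact key t' t h
  have hrat : ∀ t, κ t * ψ' (Y (κ t)) / κ t = ψ' (Y (κ t)) := fun t => by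
    have := (hκ0 t).ne'
    field_simp
  have hψlip : ∀ t t', |ψ' (Y (κ t)) - ψ' (Y (κ t'))| ≤ A ^ 3 / 2 * θ1 * |t - t'| := fun t t' => by
    calc _ ≤ θ1 * |Y (κ t) - Y (κ t')| := QP2_lip hψ _ _
      _ ≤ θ1 * (A ^ 3 / 2 * |t - t'|) := mul_le_mul_of_nonneg_left (hYlip t t') h1
      _ = _ := by ring
  have hAd : 0 ≤ A / θ0 := by positivity
  have hA1 : 0 ≤ A * θ1 := by positivity
  have hA2 : 0 ≤ A ^ 3 / 2 * θ1 := by positivity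
  have hA3 : 0 ≤ A * θ1 * (1 + A ^ 3 / 2) := by positivity
  set A1 : ℝ := A + A / θ0 + A * θ1 + θ1 + A ^ 3 / 2 * θ1 + A * θ1 * (1 + A ^ 3 / 2) with hA1d
  have hA1p : 0 < A1 := by linarith
  refine ⟨fun t => κ t * ψ' (Y (κ t)), fun t => Y (κ t), ⟨by positivity, hA1p, hκ0, ?_, ?_, ?_, ?_, ?_, ?_, ?_,
    ?_, ?_, ?_, ?_, ?_, ?_⟩⟩
  · intro t
    exact mul_pos (hκ0 t) (hp _)
  · intro t
    show 1 ≤ A1 * (κ t * ψ' (Y (κ t)))
    have h2 : A / θ0 ≤ A1 := by linarith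
    have h3 : θ0 ≤ ψ' (Y (κ t)) := (hψ.p1 _).1
    have h4 : κ t * θ0 ≤ κ t * ψ' (Y (κ t)) := mul_le_mul_of_nonneg_left h3 (hκ0 t).le
    have h5 : A / θ0 * (κ t * θ0) ≤ A1 * (κ t * ψ' (Y (κ t))) :=
      mul_le_mul h2 h4 (mul_pos (hκ0 t) h0).le hA1p.le
    have h6 : A / θ0 * (κ t * θ0) = A * κ t := by field_simp
    have h7 := hκ.pos t
    linarith
  · intro t
    show κ t * ψ' (Y (κ t)) ≤ A1
    have h2 : κ t * ψ' (Y (κ t)) ≤ A * θ1 := mul_le_mul (hκ.le t) (hψ.p1 _).2 (hp _).le hA0.le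
    linarith
  · intro t t'
    show |κ t * ψ' (Y (κ t)) - κ t' * ψ' (Y (κ t'))| ≤ A1 * |t - t'|
    have e : κ t * ψ' (Y (κ t)) - κ t' * ψ' (Y (κ t')) =
        (κ t - κ t') * ψ' (Y (κ t)) + κ t' * (ψ' (Y (κ t)) - ψ' (Y (κ t'))) := by ring
    rw [e]
    have h2 : |(κ t - κ t') * ψ' (Y (κ t))| ≤ A * |t - t'| * θ1 := by
      rw [abs_mul, abs_of_pos (hp _)]
      exact mul_le_mul (hκ.lip t t') (hψ.p1 _).2 (hp _).le (by positivity)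
    have h3 : |κ t' * (ψ' (Y (κ t)) - ψ' (Y (κ t')))| ≤ A * (A ^ 3 / 2 * θ1 * |t - t'|) := by
      rw [abs_mul, abs_of_pos (hκ0 _)]
      exact mul_le_mul (hκ.le t') (hψlip t t') (abs_nonneg _) hA0.le
    have h4 : A * θ1 * (1 + A ^ 3 / 2) * |t - t'| ≤ A1 * |t - t'| :=
      mul_le_mul_of_nonneg_right (by linarith) (abs_nonneg _)
    calc _ ≤ |(κ t - κ t') * ψ' (Y (κ t))| + |κ t' * (ψ' (Y (κ t)) - ψ' (Y (κ t')))| := abs_add_le _ _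
      _ ≤ A * |t - t'| * θ1 + A * (A ^ 3 / 2 * θ1 * |t - t'|) := add_le_add h2 h3
      _ = A * θ1 * (1 + A ^ 3 / 2) * |t - t'| := by ring
      _ ≤ _ := h4
  · intro t
    show κ (t + 1) * ψ' (Y (κ (t + 1))) = κ t * ψ' (Y (κ t))
    rw [hκ.per]
  · intro t
    show κ t * ψ' (Y (κ t)) / κ t ≤ A1
    rw [hrat]
    have := (hψ.p1 (Y (κ t))).2
    linarith
  · intro t t'
    show |κ t * ψ' (Y (κ t)) / κ t - κ t' * ψ' (Y (κ t')) / κ t'| ≤ A1 * |t - t'|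
    rw [hrat, hrat]
    exact (hψlip t t').trans (mul_le_mul_of_nonneg_right (by linarith) (abs_nonneg _))
  · intro t
    show 1 ≤ 2 * A * Y (κ t)
    have h2 := (hYt t).1
    rwa [inv_le_iff_one_le_mul₀ (by positivity), mul_comm] at h2
  · intro t
    show Y (κ t) ≤ 2 * A
    have h2 := (hYt t).2.1
    linarith
  · have : LipschitzWith ⟨A ^ 3 / 2, by positivity⟩ (fun t => Y (κ t)) :=
      LipschitzWith.of_dist_le_mul fun x y => by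
        rw [Real.dist_eq, Real.dist_eq]; exact hYlip x y
    exact this.continuous
  · intro t
    show Y (κ (t + 1)) = Y (κ t)
    rw [hκ.per]
  · intro t
    exact hrat t
  · intro t
    show κ t = 2 * Y (κ t) * (κ t * ψ' (Y (κ t))) ^ 2
    have h2 := (hYt t).2.2
    calc κ t = κ t * 1 := (mul_one _).symm
      _ = κ t * (2 * κ t * Y (κ t) * ψ' (Y (κ t)) ^ 2) := by rw [h2]
      _ = _ := by ring

end EscZ
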