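import Pool.Agent.EscW.QP3

/-!
Project EscW, part Q (MP_6acca1_an): comparison of the truncations with their linearization.
-/

noncomputable section

namespace EscZ

open MeasureTheory Set Filter Topology Esc EscF EscG EscT EscP
open scoped ContDiff

variable {E : Type*} [NormedAddCommGroup E] [InnerProductSpace ℝ E] [FiniteDimensional ℝ E]
  {ι : Type} [Fintype ι] {θ0 θ1 : ℝ} {ψ ψ' ψ'' : ℝ → ℝ} {β : Module.Basis ι ℝ E}
  {F : E → E → ℝ → ℝ} {mF MF A A0 A1 m M MA C : ℝ} {κ K Yw : ℝ → ℝ} {B : E → ℝ → ℝ} {k0 : ι} {len : ℝ}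
  {c c' ct : ℝ → ℝ → E} {L : LP} {l l2 : E → E → ℝ → ℝ}

theorem QP6_mvt {f f' : ℝ → ℝ} (h : ∀ y, HasDerivAt f (f' y) y) (a y : ℝ) :
    ∃ c, |c - a| ≤ |y - a| ∧ 0 ≤ (c - a) * (y - a) ∧ f y - f a = f' c * (y - a) := by
  have hc : Continuous f := continuous_iff_continuousAt.2 (fun y => (h y).continuousAt)
  rcases lt_trichotomy a y with hay | hay | hay
  · obtain ⟨c, hc1, hc2⟩ := exists_hasDerivAt_eq_slope f f' hay hc.continuousOn (fun x _ => h x)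
    have h0 : 0 < y - a := by linarith
    refine ⟨c, ?_, ?_, ?_⟩
    · rw [abs_of_nonneg (by linarith [hc1.1]), abs_of_pos h0]
      linarith [hc1.2]
    · exact mul_nonneg (by linarith [hc1.1]) h0.le
    · rw [hc2]
      field_simp
  · subst hay
    exact ⟨a, le_rfl, by simp, by simp⟩
  · obtain ⟨c, hc1, hc2⟩ := exists_hasDerivAt_eq_slope f f' hay hc.continuousOn (fun x _ => h x)
    have h0 : 0 < a - y := by linarith
    refine ⟨c, ?_, ?_, ?_⟩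
    · rw [abs_of_nonpos (by linarith [hc1.2]), abs_of_nonpos (by linarith)]
      linarith [hc1.1]
    · exact mul_nonneg_of_nonpos_of_nonpos (by linarith [hc1.2]) (by linarith)
    · rw [hc2]
      have h1 : a - y ≠ 0 := h0.ne'
      field_simp
      ring

theorem QP6_θ (hψ : Prof θ0 θ1 ψ ψ' ψ'') : 0 < θ1 :=
  lt_of_lt_of_le hψ.θ_pos ((hψ.p1 0).1.trans (hψ.p1 0).2)

theorem QP6_low (hψ : Prof θ0 θ1 ψ ψ' ψ'') (a y : ℝ) : ψ a + ψ' a * (y - a) ≤ ψ y := by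
  obtain ⟨c, h1, h2, h3⟩ := QP6_mvt hψ.d1 a y
  obtain ⟨b, h4, h5, h6⟩ := QP6_mvt hψ.d2 a c
  have h7 : 0 ≤ (ψ' c - ψ' a) * (y - a) := by
    rw [h6, mul_assoc]
    exact mul_nonneg (hψ.p2 b).1 h2
  have h8 : ψ y - ψ a - ψ' a * (y - a) = (ψ' c - ψ' a) * (y - a) := by
    rw [h3]
    ring
  linarith

/-- second order bounds of the profile -/
theorem Prof.upp (hψ : Prof θ0 θ1 ψ ψ' ψ'') (a y : ℝ) :
    ψ y ≤ ψ a + ψ' a * (y - a) + θ1 * (y - a) ^ 2 ∧ ψ y ≤ ψ a + ψ' a * (y - a) + θ1 * |y - a| := by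
  obtain ⟨c, h1, h2, h3⟩ := QP6_mvt hψ.d1 a y
  obtain ⟨b, h4, h5, h6⟩ := QP6_mvt hψ.d2 a c
  have hθ := QP6_θ hψ
  have h8 : ψ y - ψ a - ψ' a * (y - a) = (ψ' c - ψ' a) * (y - a) := by
    rw [h3]
    ring
  have h9 : (ψ' c - ψ' a) * (y - a) ≤ |ψ' c - ψ' a| * |y - a| := by
    rw [← abs_mul]
    exact le_abs_self _
  have h10 : |ψ' c - ψ' a| ≤ θ1 * |y - a| := by
    rw [h6, abs_mul, abs_of_nonneg (hψ.p2 b).1]
    exact mul_le_mul (hψ.p2 b).2 h1 (abs_nonneg _) hθ.le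
  have h11 : |ψ' c - ψ' a| ≤ θ1 := by
    rw [abs_le]
    have h12 := hψ.p1 c
    have h13 := hψ.p1 a
    have h14 := hψ.θ_pos
    constructor <;> linarith
  constructor
  · have h12 : |ψ' c - ψ' a| * |y - a| ≤ θ1 * |y - a| * |y - a| := mul_le_mul_of_nonneg_right h10 (abs_nonneg _)
    have h13 : θ1 * |y - a| * |y - a| = θ1 * (y - a) ^ 2 := by
      rw [mul_assoc, ← sq, sq_abs]
    linarith
  · have h12 : |ψ' c - ψ' a| * |y - a| ≤ θ1 * |y - a| := mul_le_mul_of_nonneg_right h11 (abs_nonneg _)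
    linarith

theorem QP6_arith {θ D E' Φ q s X u : ℝ} (hθ : 0 ≤ θ) (hD : 0 ≤ D) (hE : 0 ≤ E') (_hΦ : 0 ≤ Φ) (hq : 1 ≤ q)
    (hs : |s - q| ≤ 2) (h1 : Φ ≤ 2 * q → |X| ≤ q * (D + E' * |Φ - q|))
    (h1' : 2 * q < Φ → |X| ≤ (D + E') * (Φ - q) ^ 2) (h2 : u ≤ θ * X ^ 2 / q ^ 2) (h3 : u ≤ θ * |X|) :
    u ≤ 9 * (θ * (2 * D ^ 2 + 2 * E' ^ 2 + D + E')) * (Φ - s) ^ 2 +
      9 * (θ * (2 * D ^ 2 + 2 * E' ^ 2 + D + E')) := by
  have hq0 : 0 < q := by linarith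
  have hsq : (Φ - q) ^ 2 ≤ 2 * (Φ - s) ^ 2 + 8 := by
    have h4 : (s - q) ^ 2 ≤ 4 := by
      have := sq_abs (s - q)
      nlinarith [abs_nonneg (s - q)]
    nlinarith [sq_nonneg ((Φ - s) - (s - q))]
  have hK : 0 ≤ θ * (2 * D ^ 2 + 2 * E' ^ 2 + D + E') := by positivity
  have h12 : 0 ≤ (Φ - q) ^ 2 := sq_nonneg _
  have h13 : 0 ≤ D ^ 2 := sq_nonneg _
  have h13' : 0 ≤ E' ^ 2 := sq_nonneg _
  have key : u ≤ θ * (2 * D ^ 2 + 2 * E' ^ 2 + D + E') * (1 + (Φ - q) ^ 2) := by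
    rcases le_or_gt Φ (2 * q) with hc | hc
    · have h5 := h1 hc
      have h8 : X ^ 2 / q ^ 2 ≤ (D + E' * |Φ - q|) ^ 2 := by
        rw [div_le_iff₀ (by positivity)]
        have h9 : X ^ 2 ≤ (q * (D + E' * |Φ - q|)) ^ 2 := by
          rw [← sq_abs X]
          exact pow_le_pow_left₀ (abs_nonneg _) h5 2
        calc X ^ 2 ≤ (q * (D + E' * |Φ - q|)) ^ 2 := h9
          _ = (D + E' * |Φ - q|) ^ 2 * q ^ 2 := by ring
      have h10 : (D + E' * |Φ - q|) ^ 2 ≤ (2 * D ^ 2 + 2 * E' ^ 2 + D + E') * (1 + (Φ - q) ^ 2) := by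
        have h11 : (D + E' * |Φ - q|) ^ 2 ≤ 2 * D ^ 2 + 2 * (E' ^ 2 * (Φ - q) ^ 2) := by
          rw [← sq_abs (Φ - q)]
          nlinarith [sq_nonneg (D - E' * |Φ - q|)]
        nlinarith [mul_nonneg h13 h12, mul_nonneg hD h12, mul_nonneg hE h12]
      calc u ≤ θ * X ^ 2 / q ^ 2 := h2
        _ = θ * (X ^ 2 / q ^ 2) := by ring
        _ ≤ θ * ((2 * D ^ 2 + 2 * E' ^ 2 + D + E') * (1 + (Φ - q) ^ 2)) :=
          mul_le_mul_of_nonneg_left (h8.trans h10) hθ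
        _ = _ := by ring
    · have h7 := h1' hc
      have h10 : (D + E') * (Φ - q) ^ 2 ≤ (2 * D ^ 2 + 2 * E' ^ 2 + D + E') * (1 + (Φ - q) ^ 2) := by
        nlinarith [mul_nonneg h13 h12, mul_nonneg h13' h12]
      calc u ≤ θ * |X| := h3
        _ ≤ θ * ((2 * D ^ 2 + 2 * E' ^ 2 + D + E') * (1 + (Φ - q) ^ 2)) :=
          mul_le_mul_of_nonneg_left (h7.trans h10) hθ
        _ = _ := by ring
  have h14 : θ * (2 * D ^ 2 + 2 * E' ^ 2 + D + E') * (1 + (Φ - q) ^ 2) ≤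
      θ * (2 * D ^ 2 + 2 * E' ^ 2 + D + E') * (9 * (Φ - s) ^ 2 + 9) := by
    refine mul_le_mul_of_nonneg_left ?_ hK
    nlinarith [sq_nonneg (Φ - s)]
  linarith

/-- the constant of `lq_sub` -/
def QP6_C (θ1 C A0 A1 : ℝ) : ℝ :=
  9 * (θ1 * (2 * (C * (1 + 2 * A1)) ^ 2 + 2 * (3 * A0) ^ 2 + C * (1 + 2 * A1) + 3 * A0))

theorem lq_sub (hψ : Prof θ0 θ1 ψ ψ' ψ'') (hK : KF A0 A1 κ K Yw ψ') (hF : ∀ x v t, 0 ≤ F x v t)
    (hC : 0 ≤ C)
    (hn : ∀ x v t, |l2 x v t - κ t * F x v t ^ 2 / 2| ≤ C * (1 + F x v t)) :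
    0 ≤ QP6_C θ1 C A0 A1 ∧ ∀ q : ℝ, 1 ≤ q → ∀ s, |s - q| ≤ 2 → ∀ x v t,
      lh K κ l2 x v t + q ^ 2 * (ψ (Yw t) - Yw t * ψ' (Yw t)) ≤ lq q ψ l2 x v t ∧
      lq q ψ l2 x v t ≤ lh K κ l2 x v t + q ^ 2 * (ψ (Yw t) - Yw t * ψ' (Yw t)) +
        QP6_C θ1 C A0 A1 * (K t * F x v t - s) ^ 2 + QP6_C θ1 C A0 A1 := by
  have hA1 := hK.A_pos
  have hθ := (QP6_θ hψ).le
  have hD : 0 ≤ C * (1 + 2 * A1) := by positivity
  have hA0 := hK.A0_pos
  have hE : 0 ≤ 3 * A0 := by positivity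
  refine ⟨by unfold QP6_C; positivity, ?_⟩
  intro q hq s hs x v t
  have hq0 : 0 < q := by linarith
  have hq2 : 0 < q ^ 2 := by positivity
  set Y := Yw t with hY
  have e0 : ψ' Y = K t / κ t := (hK.re t).symm
  have e1 : q ^ 2 * (l2 x v t / q ^ 2) = l2 x v t := by field_simp
  have e2 : q ^ 2 * (l2 x v t / q ^ 2 - Y) = l2 x v t - q ^ 2 * Y := by rw [mul_sub, e1]
  have elh : lh K κ l2 x v t + q ^ 2 * (ψ Y - Y * ψ' Y) =
      q ^ 2 * (ψ Y + ψ' Y * (l2 x v t / q ^ 2 - Y)) := by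
    have e3 : q ^ 2 * (ψ Y + ψ' Y * (l2 x v t / q ^ 2 - Y)) =
        q ^ 2 * ψ Y + ψ' Y * (q ^ 2 * (l2 x v t / q ^ 2 - Y)) := by ring
    rw [e3, e2]
    unfold lh
    rw [← e0]
    ring
  rw [elh]
  constructor
  · exact mul_le_mul_of_nonneg_left (QP6_low hψ Y _) hq2.le
  · have hup := hψ.upp Y (l2 x v t / q ^ 2)
    have hF0 := hF x v t
    have hkh := hK.k0 t
    have hΦ : 0 ≤ K t * F x v t := mul_nonneg hkh.le hF0
    have hFΦ : F x v t ≤ A1 * (K t * F x v t) := by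
      have := mul_le_mul_of_nonneg_right (hK.k1 t) hF0
      nlinarith
    have hY0 : 0 < Y := by
      have := hK.y1 t
      rw [← hY] at this
      nlinarith
    have hYA : Y ≤ A0 := hK.y2 t
    -- the difference
    have hX : |l2 x v t - q ^ 2 * Y| ≤ C * (1 + A1 * (K t * F x v t)) +
        A0 * (|K t * F x v t - q| * (K t * F x v t + q)) := by
      have e3 : l2 x v t - q ^ 2 * Y = (l2 x v t - κ t * F x v t ^ 2 / 2) +
          Y * ((K t * F x v t - q) * (K t * F x v t + q)) := by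
        have e4 := hK.ye t
        rw [← hY] at e4
        rw [e4]
        ring
      rw [e3]
      refine (abs_add_le _ _).trans ?_
      rw [abs_mul, abs_of_pos hY0, abs_mul, abs_of_nonneg (by linarith : 0 ≤ K t * F x v t + q)]
      have h1 := hn x v t
      have h2 : C * (1 + F x v t) ≤ C * (1 + A1 * (K t * F x v t)) :=
        mul_le_mul_of_nonneg_left (by linarith) hC
      have h3 : Y * (|K t * F x v t - q| * (K t * F x v t + q)) ≤
          A0 * (|K t * F x v t - q| * (K t * F x v t + q)) :=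
        mul_le_mul_of_nonneg_right hYA (mul_nonneg (abs_nonneg _) (by linarith))
      linarith
    generalize K t * F x v t = Φ at *
    have hfin := QP6_arith (θ := θ1) (D := C * (1 + 2 * A1)) (E' := 3 * A0) (Φ := Φ) (q := q) (s := s)
      (X := l2 x v t - q ^ 2 * Y)
      (u := q ^ 2 * (ψ (l2 x v t / q ^ 2) - (ψ Y + ψ' Y * (l2 x v t / q ^ 2 - Y)))) hθ hD hE hΦ hq hs
      (by
        intro hc
        have h2 : C * (1 + A1 * Φ) ≤ C * ((1 + 2 * A1) * q) := by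
          refine mul_le_mul_of_nonneg_left ?_ hC
          nlinarith
        have h3 : |Φ - q| * (Φ + q) ≤ |Φ - q| * (3 * q) :=
          mul_le_mul_of_nonneg_left (by linarith) (abs_nonneg _)
        have h4 : A0 * (|Φ - q| * (Φ + q)) ≤ A0 * (|Φ - q| * (3 * q)) :=
          mul_le_mul_of_nonneg_left h3 hA0.le
        calc |l2 x v t - q ^ 2 * Y| ≤ C * ((1 + 2 * A1) * q) + A0 * (|Φ - q| * (3 * q)) := by linarith
          _ = q * (C * (1 + 2 * A1) + 3 * A0 * |Φ - q|) := by ring)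
      (by
        intro hc
        have h5 : 1 ≤ Φ - q := by linarith
        have h6 : |Φ - q| = Φ - q := abs_of_nonneg (by linarith)
        have h7 : 1 ≤ (Φ - q) ^ 2 := by nlinarith
        have h8 : Φ ≤ 2 * (Φ - q) ^ 2 := by nlinarith
        have h2 : C * (1 + A1 * Φ) ≤ C * ((1 + 2 * A1) * (Φ - q) ^ 2) := by
          refine mul_le_mul_of_nonneg_left ?_ hC
          have h9 : A1 * Φ ≤ A1 * (2 * (Φ - q) ^ 2) := mul_le_mul_of_nonneg_left h8 hA1.le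
          linarith
        have h3 : |Φ - q| * (Φ + q) ≤ 3 * (Φ - q) ^ 2 := by
          rw [h6]
          nlinarith
        have h4 : A0 * (|Φ - q| * (Φ + q)) ≤ A0 * (3 * (Φ - q) ^ 2) := mul_le_mul_of_nonneg_left h3 hA0.le
        calc |l2 x v t - q ^ 2 * Y| ≤ C * ((1 + 2 * A1) * (Φ - q) ^ 2) + A0 * (3 * (Φ - q) ^ 2) := by linarith
          _ = (C * (1 + 2 * A1) + 3 * A0) * (Φ - q) ^ 2 := by ring)
      (by
        have h1 := mul_le_mul_of_nonneg_left hup.1 hq2.le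
        have e4 : q ^ 2 * (θ1 * (l2 x v t / q ^ 2 - Y) ^ 2) = θ1 * (l2 x v t - q ^ 2 * Y) ^ 2 / q ^ 2 := by
          rw [← e2]
          field_simp
        rw [← e4]
        linarith)
      (by
        have h1 := mul_le_mul_of_nonneg_left hup.2 hq2.le
        have e4 : q ^ 2 * (θ1 * |l2 x v t / q ^ 2 - Y|) = θ1 * |l2 x v t - q ^ 2 * Y| := by
          rw [← e2, abs_mul, abs_of_pos hq2]
          ring
        rw [← e4]
        linarith)
    unfold lq QP6_C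
    linarith

end EscZ
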