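import Pool.Agent.EscW.QPDefs
import Pool.Agent.EscW.PR7
import Pool.Agent.EscT.C6b
import Pool.Agent.EscT.EF

/-!
Project EscW, part Q (MP_6acca1_an): the action of the truncations.
-/

noncomputable section

namespace EscZ

open MeasureTheory Set Filter Topology Esc EscF EscG EscT EscP
open scoped ContDiff

variable {E : Type*} [NormedAddCommGroup E] [InnerProductSpace ℝ E] [FiniteDimensional ℝ E]
  {ι : Type} [Fintype ι] {C B0 m1 M2 AK : ℝ} {K b : ℝ → ℝ} {Φ0 : ℝ → ℝ → ℝ} {L : LP} {l lt : E → E → ℝ → ℝ} {q s : ℝ}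

theorem QP7_cb2 {d : ℕ} {D : GT ι d E} (h : D.Ok0) (hK : KB AK K) : CB 0 (fun x v t => K t * D.F x v t ^ 2 / 2) :=
  ⟨((hK.cont.comp (continuous_snd.comp continuous_snd)).mul (h.F_cont.pow 2)).div_const 2, fun x v t => by
    have := mul_nonneg (hK.pos' t).le (sq_nonneg (D.F x v t))
    linarith⟩

theorem QP7_cb3 {d : ℕ} {D : GT ι d E} (h : D.Ok0) (hK : KB AK K) (s : ℝ) :
    CB 0 (fun x v t => (K t * D.F x v t - s) ^ 2) :=
  ⟨(((hK.cont.comp (continuous_snd.comp continuous_snd)).mul h.F_cont).sub continuous_const).pow 2, fun x v t => by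
    have := sq_nonneg (K t * D.F x v t - s)
    linarith⟩

theorem QP7_iK (hK : KB AK K) (a b : ℝ) : IntervalIntegrable (fun r => (K r)⁻¹) volume a b :=
  (hK.cont.inv₀ fun r => (hK.pos' r).ne').intervalIntegrable _ _

theorem QP7_int {d : ℕ} {D : GT ι d E} (h : D.Ok0) (hK : KB AK K)
    (hlc : Continuous (fun p : E × E × ℝ => l p.1 p.2.1 p.2.2))
    (hltc : Continuous (fun p : E × E × ℝ => lt p.1 p.2.1 p.2.2)) (hb : Continuous b) (hlt : ∀ x v t, l x v t + q ^ 2 * b t ≤ lt x v t ∧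
        lt x v t ≤ l x v t + q ^ 2 * b t + C * (K t * D.F x v t - s) ^ 2 + C)
    {t t' : ℝ} (htt : t ≤ t') (z : E) {u : ℝ → E} (hu : Adm u) :
    (∫ r in t..t', (l (traj t z u r) (u r) r - K r * D.F (traj t z u r) (u r) r ^ 2 / 2 -
        s * D.Bt (traj t z u r) r + s ^ 2 / 2 * (1 - (K r)⁻¹))) + q ^ 2 * (∫ r in t..t', b r) ≤
      (∫ r in t..t', (lt (traj t z u r) (u r) r - K r * D.F (traj t z u r) (u r) r ^ 2 / 2 -
        s * D.Bt (traj t z u r) r + s ^ 2 / 2 * (1 - (K r)⁻¹))) ∧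
    (∫ r in t..t', (lt (traj t z u r) (u r) r - K r * D.F (traj t z u r) (u r) r ^ 2 / 2 -
        s * D.Bt (traj t z u r) r + s ^ 2 / 2 * (1 - (K r)⁻¹))) ≤
    (∫ r in t..t', (l (traj t z u r) (u r) r - K r * D.F (traj t z u r) (u r) r ^ 2 / 2 -
        s * D.Bt (traj t z u r) r + s ^ 2 / 2 * (1 - (K r)⁻¹))) + q ^ 2 * (∫ r in t..t', b r) +
      C * (∫ r in t..t', (K r * D.F (traj t z u r) (u r) r - s) ^ 2) + C * (t' - t) := by
  have il : IntervalIntegrable (fun r => l (traj t z u r) (u r) r) volume t t' :=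
    EF_ii hlc hu t z t t'
  have ilt : IntervalIntegrable (fun r => lt (traj t z u r) (u r) r) volume t t' :=
    EF_ii hltc hu t z t t'
  have i2 : IntervalIntegrable (fun r => K r * D.F (traj t z u r) (u r) r ^ 2 / 2) volume t t' :=
    (QP7_cb2 h hK).ii hu t z t t'
  have i3 : IntervalIntegrable (fun r => (K r * D.F (traj t z u r) (u r) r - s) ^ 2) volume t t' :=
    (QP7_cb3 h hK s).ii hu t z t t'
  have iB : IntervalIntegrable (fun r => D.Bt (traj t z u r) r) volume t t' := C6b_iBt h hu t z t t'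
  have iκ : IntervalIntegrable (fun r => s ^ 2 / 2 * (1 - (K r)⁻¹)) volume t t' :=
    ((by simp : IntervalIntegrable (fun _ : ℝ => (1 : ℝ)) volume t t').sub
      (QP7_iK hK t t')).const_mul _
  have ib : IntervalIntegrable b volume t t' := hb.intervalIntegrable _ _
  have iC : IntervalIntegrable (fun _ : ℝ => C) volume t t' := by simp
  have jl := ((il.sub i2).sub (iB.const_mul s)).add iκ
  have jlt := ((ilt.sub i2).sub (iB.const_mul s)).add iκ
  constructor
  · rw [← intervalIntegral.integral_const_mul, ← intervalIntegral.integral_add jl (ib.const_mul _)]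
    refine intervalIntegral.integral_mono_on htt (jl.add (ib.const_mul _)) jlt fun r _ => ?_
    have := (hlt (traj t z u r) (u r) r).1
    linarith
  · rw [← intervalIntegral.integral_const_mul, ← intervalIntegral.integral_add jl (ib.const_mul _),
      ← intervalIntegral.integral_const_mul,
      ← intervalIntegral.integral_add (jl.add (ib.const_mul _)) (i3.const_mul C)]
    have e : C * (t' - t) = ∫ _ in t..t', C := by
      rw [intervalIntegral.integral_const, smul_eq_mul]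
      ring
    rw [e, ← intervalIntegral.integral_add ((jl.add (ib.const_mul _)).add (i3.const_mul C)) iC]
    refine intervalIntegral.integral_mono_on htt jlt
      (((jl.add (ib.const_mul _)).add (i3.const_mul C)).add iC) fun r _ => ?_
    have := (hlt (traj t z u r) (u r) r).2
    linarith

theorem fw_of {d : ℕ} {D : GT ι d E} (h : D.Ok0) (hK : KB D.A K) (hanc : AncK D D.A) (hX : FX D L K Φ0 l)
    (hlc : Continuous (fun p : E × E × ℝ => l p.1 p.2.1 p.2.2)) (hb : Continuous b)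
    (hp : ∀ t, b (t + 1) = b t) (h0 : ∀ t, b t ≤ 0) (hB0 : ∀ t, |b t| ≤ B0) (hC : 0 ≤ C) (hq : 3 ≤ q)
    (hlt : TG D.β m1 M2 lt) (hbd : ∀ s, |s - q| ≤ 2 → ∀ x v t, l x v t + q ^ 2 * b t ≤ lt x v t ∧
        lt x v t ≤ l x v t + q ^ 2 * b t + C * (K t * D.F x v t - s) ^ 2 + C) :
    FWk D m1 ⟨M2, L.A + 9 * B0 + C, L.a0, L.a, fun ε => L.c ε + 4 * C⟩ K q lt := by
  have hB00 : 0 ≤ B0 := (abs_nonneg _).trans (hB0 0)
  have hA0 := hX.A_nonneg
  obtain ⟨m1', m2', m3'⟩ := mq_facts q (by linarith)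
  refine FWk.mk' (Φ := ⟨K, fun s t => Φ0 s t + b t * mq q s ^ 2⟩) fun s hs => ?_
  have hs1 : 1 ≤ s := by
    have := (abs_le.1 hs).1
    linarith
  have hmq : mq q s = q := m1' s hs
  have hfl : ∀ t t', fl ⟨K, fun s t => Φ0 s t + b t * mq q s ^ 2⟩ s t t' =
      (∫ r in t..t', Φ0 s r) + q ^ 2 * ∫ r in t..t', b r := by
    intro t t'
    unfold fl
    rw [← intervalIntegral.integral_const_mul, ← intervalIntegral.integral_add
      ((hX.a_cont s).intervalIntegrable _ _) ((hb.intervalIntegrable _ _).const_mul _)]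
    refine intervalIntegral.integral_congr fun r _ => ?_
    show Φ0 s r + b r * mq q s ^ 2 = Φ0 s r + q ^ 2 * b r
    rw [hmq]
    ring
  refine ⟨hlt, hK, hanc, ?_, hX.a0_pos, ?_, ?_, ?_, ?_, ?_, ?_, ?_, ?_⟩
  · show 0 ≤ L.A + 9 * B0 + C
    positivity
  · intro ε
    have := hX.c_nonneg ε
    show 0 ≤ L.c ε + 4 * C
    positivity
  · intro s
    exact (hX.a_cont s).add (hb.mul continuous_const)
  · intro s t
    show Φ0 s (t + 1) + b (t + 1) * mq q s ^ 2 = Φ0 s t + b t * mq q s ^ 2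
    rw [hX.a_per, hp]
  · intro s t hs
    show |Φ0 s t + b t * mq q s ^ 2| ≤ (L.A + 9 * B0 + C) * s ^ 2
    obtain ⟨h1, h2⟩ := m2' s hs
    have h3 := hX.a_bd s t hs
    have h4 : |b t * mq q s ^ 2| ≤ B0 * (9 * s ^ 2) := by
      rw [abs_mul, abs_of_nonneg (sq_nonneg (mq q s))]
      refine mul_le_mul (hB0 t) ?_ (sq_nonneg _) hB00
      nlinarith
    have h5 := abs_add_le (Φ0 s t) (b t * mq q s ^ 2)
    have h6 : 0 ≤ C * s ^ 2 := by positivity
    nlinarith
  · intro s s' t hs hs'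
    show |Φ0 s t + b t * mq q s ^ 2 - (Φ0 s' t + b t * mq q s' ^ 2)| ≤
      (L.A + 9 * B0 + C) * (s + s') * |s - s'|
    obtain ⟨h1, h2⟩ := m2' s hs
    obtain ⟨h1', h2'⟩ := m2' s' hs'
    have h3 := hX.a_lip s s' t hs hs'
    have h4 := m3' s s'
    have e : Φ0 s t + b t * mq q s ^ 2 - (Φ0 s' t + b t * mq q s' ^ 2) =
        (Φ0 s t - Φ0 s' t) + b t * ((mq q s + mq q s') * (mq q s - mq q s')) := by ring
    rw [e]
    have h5 : |b t * ((mq q s + mq q s') * (mq q s - mq q s'))| ≤ B0 * (3 * (s + s') * |s - s'|) := by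
      rw [abs_mul, abs_mul, abs_of_nonneg (by linarith : 0 ≤ mq q s + mq q s')]
      refine mul_le_mul (hB0 t) ?_ (mul_nonneg (by linarith) (abs_nonneg _)) hB00
      exact mul_le_mul (by linarith) h4 (abs_nonneg _) (by linarith)
    have h6 := abs_add_le (Φ0 s t - Φ0 s' t) (b t * ((mq q s + mq q s') * (mq q s - mq q s')))
    have h7 : 0 ≤ (s + s') * |s - s'| := mul_nonneg (by linarith) (abs_nonneg _)
    have h8 : 0 ≤ (6 * B0 + C) * ((s + s') * |s - s'|) := mul_nonneg (by positivity) h7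
    calc _ ≤ L.A * (s + s') * |s - s'| + B0 * (3 * (s + s') * |s - s'|) := by linarith
      _ ≤ (L.A + 9 * B0 + C) * (s + s') * |s - s'| := by linarith
  · intro s t hs
    show Φ0 s t + b t * mq q s ^ 2 ≤ s ^ 2 / 2 * (1 - L.a0) + (L.A + 9 * B0 + C) * s
    have h3 := hX.a_top s t hs
    have h4 : b t * mq q s ^ 2 ≤ 0 := mul_nonpos_of_nonpos_of_nonneg (h0 t) (sq_nonneg _)
    have h5 : 0 ≤ (9 * B0 + C) * s := mul_nonneg (by positivity) (by linarith)
    linarith
  · intro ε hε z u hu t t' htt ht4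
    have h1 := (QP7_int h hK hlc hlt.smooth.continuous hb (hbd s hs) htt z hu).1
    have h2 := (abs_le.1 (hX.flux ε hε s hs1 z u hu t t' htt ht4)).1
    have h3 := exc_nonneg h htt z hu
    have h4 : 0 ≤ ∫ r in t..t', |K r * D.F (traj t z u r) (u r) r - s| :=
      intervalIntegral.integral_nonneg htt fun r _ => abs_nonneg _
    rw [hfl]
    show _ - (ε * s + (L.c ε + 4 * C) * _) ≤ _
    have h5 : 0 ≤ 4 * C * (1 + D.exc t t' z u +
        ∫ r in t..t', |K r * D.F (traj t z u r) (u r) r - s|) :=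
      mul_nonneg (by positivity) (by linarith)
    have h6 := add_mul (L.c ε) (4 * C) (1 + D.exc t t' z u +
        ∫ r in t..t', |K r * D.F (traj t z u r) (u r) r - s|)
    linarith
  · intro ε hε z u hu t t' htt ht4
    have h1 := (QP7_int h hK hlc hlt.smooth.continuous hb (hbd s hs) htt z hu).2
    have h2 := (abs_le.1 (hX.flux ε hε s hs1 z u hu t t' htt ht4)).2
    have h3 := exc_nonneg h htt z hu
    have h4 : 0 ≤ ∫ r in t..t', |K r * D.F (traj t z u r) (u r) r - s| :=
      intervalIntegral.integral_nonneg htt fun r _ => abs_nonneg _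
    have h7 : 0 ≤ ∫ r in t..t', (K r * D.F (traj t z u r) (u r) r - s) ^ 2 :=
      intervalIntegral.integral_nonneg htt fun r _ => sq_nonneg _
    rw [hfl]
    show _ ≤ _ + (ε * s + (L.c ε + 4 * C) * _) + (L.A + 9 * B0 + C) * _
    have h5 : 4 * C * 1 ≤ 4 * C * (1 + D.exc t t' z u +
        ∫ r in t..t', |K r * D.F (traj t z u r) (u r) r - s|) :=
      mul_le_mul_of_nonneg_left (by linarith) (by positivity)
    have h6 := add_mul (L.c ε) (4 * C) (1 + D.exc t t' z u +
        ∫ r in t..t', |K r * D.F (traj t z u r) (u r) r - s|)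
    have h8 : C * (t' - t) ≤ C * 4 := mul_le_mul_of_nonneg_left (by linarith) hC
    have h9 : 0 ≤ (L.A + 9 * B0) * ∫ r in t..t', (K r * D.F (traj t z u r) (u r) r - s) ^ 2 :=
      mul_nonneg (by positivity) h7
    have h10 := add_mul (L.A + 9 * B0) C
      (∫ r in t..t', (K r * D.F (traj t z u r) (u r) r - s) ^ 2)
    linarith

end EscZ
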