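import Pool.Agent.EscW.QP3

/-!
Project EscW, part Q (MP_6acca1_an): the energy of the truncations controls the speed.
-/

noncomputable section

namespace EscZ

open MeasureTheory Set Filter Topology Esc EscF EscG EscT EscP
open scoped ContDiff

variable {E : Type*} [NormedAddCommGroup E] [InnerProductSpace ℝ E] [FiniteDimensional ℝ E]
  {ι : Type} [Fintype ι] {θ0 θ1 : ℝ} {ψ ψ' ψ'' : ℝ → ℝ} {β : Module.Basis ι ℝ E}
  {F : E → E → ℝ → ℝ} {mF MF A A0 A1 m M MA C : ℝ} {κ K y : ℝ → ℝ} {B : E → ℝ → ℝ} {k0 : ι} {len : ℝ}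
  {c c' ct : ℝ → ℝ → E} {L : LP} {l l2 : E → E → ℝ → ℝ}

/-- the derivative of `2 y ψ' - ψ - θ0 y` is nonnegative -/
theorem QP8_mono (hψ : Prof θ0 θ1 ψ ψ' ψ'') :
    Monotone (fun y => (2 * y * ψ' y - ψ y) - θ0 * y) := by
  have hd : ∀ y, HasDerivAt (fun y => (2 * y * ψ' y - ψ y) - θ0 * y)
      ((2 * ψ' y + 2 * y * ψ'' y - ψ' y) - θ0) y := by
    intro y
    have h1 : HasDerivAt (fun y : ℝ => 2 * y) 2 y := by
      simpa using (hasDerivAt_id y).const_mul (2 : ℝ)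
    have h2 : HasDerivAt (fun y : ℝ => θ0 * y) θ0 y := by
      simpa using (hasDerivAt_id y).const_mul θ0
    exact ((h1.mul (hψ.d2 y)).sub (hψ.d1 y)).sub h2
  refine monotone_of_deriv_nonneg (fun y => (hd y).differentiableAt) fun y => ?_
  rw [(hd y).deriv]
  have h1 := (hψ.p1 y).1
  have h2 : 0 ≤ y * ψ'' y := by
    rcases le_or_gt y 0 with h3 | h3
    · rw [hψ.low y h3, mul_zero]
    · exact mul_nonneg h3.le (hψ.p2 y).1
  linarith

/-- the energy of the profile -/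
theorem Prof.th (hψ : Prof θ0 θ1 ψ ψ' ψ'') (y y' : ℝ) :
    θ0 * |y - y'| ≤ |(2 * y * ψ' y - ψ y) - (2 * y' * ψ' y' - ψ y')| := by
  have h := QP8_mono hψ
  rcases le_total y y' with h1 | h1
  · have h2 : (2 * y * ψ' y - ψ y) - θ0 * y ≤ (2 * y' * ψ' y' - ψ y') - θ0 * y' := h h1
    rw [abs_sub_comm y y', abs_of_nonneg (sub_nonneg.2 h1), abs_sub_comm]
    refine le_trans ?_ (le_abs_self _)
    linarith
  · have h2 : (2 * y' * ψ' y' - ψ y') - θ0 * y' ≤ (2 * y * ψ' y - ψ y) - θ0 * y := h h1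
    rw [abs_of_nonneg (sub_nonneg.2 h1)]
    refine le_trans ?_ (le_abs_self _)
    linarith

theorem en_lq {d : ℕ} {D : GT ι d E} (hψ : Prof θ0 θ1 ψ ψ' ψ'')
    (hl : ContDiff ℝ 2 (fun p : E × E × ℝ => l2 p.1 p.2.1 p.2.2)) (hC : 0 ≤ C)
    (hn : ∀ x v t, |l2 x v t - κ t * D.F x v t ^ 2 / 2| ≤ C * (1 + ‖v‖) ∧
      |inner ℝ (gu l2 x v t) v - κ t * D.F x v t ^ 2| ≤ C * (1 + ‖v‖)) :
    0 ≤ 2 / θ0 + 12 * C * θ1 / θ0 + 4 * C ∧
      ∀ q : ℝ, 1 ≤ q → En D κ (2 / θ0 + 12 * C * θ1 / θ0 + 4 * C) (lq q ψ l2) := by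
  have hθ0 := hψ.θ_pos
  have hθ1 : 0 ≤ θ1 := hθ0.le.trans ((hψ.p1 0).1.trans (hψ.p1 0).2)
  refine ⟨by positivity, fun q hq => ?_⟩
  have hq0 : q ≠ 0 := by linarith
  have hq2 : 0 < q ^ 2 := by positivity
  -- the energy is `q² Θ(l2 / q²)` up to a linear error
  have key : ∀ x v t, |en (lq q ψ l2) x v t -
      q ^ 2 * (2 * (l2 x v t / q ^ 2) * ψ' (l2 x v t / q ^ 2) - ψ (l2 x v t / q ^ 2))| ≤
        3 * C * θ1 * (1 + ‖v‖) := by
    intro x v t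
    obtain ⟨h1, h3⟩ := hn x v t
    set y := l2 x v t / q ^ 2 with hy
    have hy2 : l2 x v t = q ^ 2 * y := by
      rw [hy]; field_simp
    have hp := hψ.p1 y
    have e1 : en (lq q ψ l2) x v t = ψ' y * inner ℝ (gu l2 x v t) v - q ^ 2 * ψ y := by
      unfold en
      rw [gu_lq hψ hl hq0, real_inner_smul_left]
      rfl
    have e2 : en (lq q ψ l2) x v t - q ^ 2 * (2 * y * ψ' y - ψ y) =
        ψ' y * ((inner ℝ (gu l2 x v t) v - κ t * D.F x v t ^ 2) -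
          2 * (l2 x v t - κ t * D.F x v t ^ 2 / 2)) := by
      rw [e1, hy2]; ring
    rw [e2, abs_mul, abs_of_nonneg (by linarith : 0 ≤ ψ' y)]
    have h4 : |(inner ℝ (gu l2 x v t) v - κ t * D.F x v t ^ 2) -
        2 * (l2 x v t - κ t * D.F x v t ^ 2 / 2)| ≤ 3 * (C * (1 + ‖v‖)) := by
      refine (abs_sub _ _).trans ?_
      rw [abs_mul, abs_of_pos (by norm_num : (0 : ℝ) < 2)]
      linarith
    calc ψ' y * |(inner ℝ (gu l2 x v t) v - κ t * D.F x v t ^ 2) -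
            2 * (l2 x v t - κ t * D.F x v t ^ 2 / 2)|
        ≤ θ1 * (3 * (C * (1 + ‖v‖))) := mul_le_mul hp.2 h4 (abs_nonneg _) hθ1
      _ = 3 * C * θ1 * (1 + ‖v‖) := by ring
  intro x v t x' v' t'
  have k1 := key x v t
  have k2 := key x' v' t'
  have n1 := (hn x v t).1
  have n2 := (hn x' v' t').1
  have hth := hψ.th (l2 x v t / q ^ 2) (l2 x' v' t' / q ^ 2)
  set y := l2 x v t / q ^ 2
  set y' := l2 x' v' t' / q ^ 2
  set T := 2 * y * ψ' y - ψ y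
  set T' := 2 * y' * ψ' y' - ψ y'
  have hl2 : |l2 x v t - l2 x' v' t'| = q ^ 2 * |y - y'| := by
    have e3 : l2 x v t - l2 x' v' t' = q ^ 2 * (y - y') := by
      simp only [y, y']
      field_simp
    rw [e3, abs_mul, abs_of_pos hq2]
  have h3 : θ0 * (q ^ 2 * |y - y'|) ≤ |q ^ 2 * T - q ^ 2 * T'| := by
    rw [← mul_sub, abs_mul, abs_of_pos hq2]
    have := mul_le_mul_of_nonneg_left hth hq2.le
    linarith
  have h4 : |q ^ 2 * T - q ^ 2 * T'| ≤ |en (lq q ψ l2) x v t - en (lq q ψ l2) x' v' t'| +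
      3 * C * θ1 * (1 + ‖v‖) + 3 * C * θ1 * (1 + ‖v'‖) := by
    rw [abs_le] at k1 k2 ⊢
    have := neg_abs_le (en (lq q ψ l2) x v t - en (lq q ψ l2) x' v' t')
    have := le_abs_self (en (lq q ψ l2) x v t - en (lq q ψ l2) x' v' t')
    constructor <;> linarith [k1.1, k1.2, k2.1, k2.2]
  have h5 : |κ t * D.F x v t ^ 2 - κ t' * D.F x' v' t' ^ 2| ≤ 2 * |l2 x v t - l2 x' v' t'| +
      2 * (C * (1 + ‖v‖)) + 2 * (C * (1 + ‖v'‖)) := by
    rw [abs_le] at n1 n2 ⊢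
    have := neg_abs_le (l2 x v t - l2 x' v' t')
    have := le_abs_self (l2 x v t - l2 x' v' t')
    constructor <;> linarith [n1.1, n1.2, n2.1, n2.2]
  rw [hl2] at h5
  set Δ := |en (lq q ψ l2) x v t - en (lq q ψ l2) x' v' t'| with hΔ
  have h6 : 0 ≤ Δ := abs_nonneg _
  have n3 := norm_nonneg v
  have n4 := norm_nonneg v'
  set W := 1 + ‖v‖ + ‖v'‖ with hW
  have hW0 : 0 ≤ W := by positivity
  have hW1 : (1 + ‖v‖) + (1 + ‖v'‖) ≤ 2 * W := by rw [hW]; linarith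
  have h7 : q ^ 2 * |y - y'| ≤ (Δ + 6 * C * θ1 * W) / θ0 := by
    rw [le_div_iff₀ hθ0]
    have h8 : 3 * C * θ1 * ((1 + ‖v‖) + (1 + ‖v'‖)) ≤ 3 * C * θ1 * (2 * W) :=
      mul_le_mul_of_nonneg_left hW1 (by positivity)
    linarith
  have h9 : C * ((1 + ‖v‖) + (1 + ‖v'‖)) ≤ C * (2 * W) := mul_le_mul_of_nonneg_left hW1 hC
  have h10 : |κ t * D.F x v t ^ 2 - κ t' * D.F x' v' t' ^ 2| ≤
      2 * ((Δ + 6 * C * θ1 * W) / θ0) + 4 * C * W := by linarith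
  have h11 : 0 ≤ 12 * C * θ1 / θ0 * Δ := by positivity
  have h12 : 0 ≤ 2 / θ0 * W := by positivity
  have h13 : 0 ≤ C * Δ := by positivity
  have h14 : 2 * ((Δ + 6 * C * θ1 * W) / θ0) = 2 / θ0 * Δ + 12 * C * θ1 / θ0 * W := by
    field_simp
    ring
  calc |κ t * D.F x v t ^ 2 - κ t' * D.F x' v' t' ^ 2|
      ≤ 2 / θ0 * Δ + 12 * C * θ1 / θ0 * W + 4 * C * W := by rw [← h14]; exact h10
    _ ≤ (2 / θ0 + 12 * C * θ1 / θ0 + 4 * C) * Δ + (2 / θ0 + 12 * C * θ1 / θ0 + 4 * C) * W := by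
        nlinarith

end EscZ
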