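import Pool.Agent.EscW.QP1

/-!
Project EscW, part Q (MP_6acca1_an): the truncations are given by the growth function in a large region.
-/

noncomputable section

namespace EscZ

open MeasureTheory Set Filter Topology Esc EscF EscG EscT EscP
open scoped ContDiff

variable {E : Type*} [NormedAddCommGroup E] [InnerProductSpace ℝ E] [FiniteDimensional ℝ E]
  {j0 j1 θ0 θ1 : ℝ} {ψ ψ' ψ'' : ℝ → ℝ} {F : E → E → ℝ → ℝ} {A0 A1 C Cg : ℝ} {κ K Yw g : ℝ → ℝ}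
  {l2 : E → E → ℝ → ℝ}

theorem lq_eq (hg : Gr Cg g) (hψ : Prof θ0 θ1 ψ ψ' ψ'') {q : ℝ} (hq : q ≠ 0)
    (he : ∀ y, j0 ≤ y → y ≤ j1 → ψ' y = deriv g (q ^ 2 * y) / deriv g (q ^ 2 / 2)) :
    ∃ b : ℝ, ∀ y, y / q ^ 2 ∈ Ioo j0 j1 → deriv g (q ^ 2 / 2) * (q ^ 2 * ψ (y / q ^ 2)) = g y + b := by
  have hq2p : 0 < q ^ 2 := by positivity
  have hd := (hg.d1 (q ^ 2 / 2)).ne'
  -- derivative of the difference
  have hD : ∀ y, y / q ^ 2 ∈ Ioo j0 j1 → HasDerivAt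
      (fun y => deriv g (q ^ 2 / 2) * (q ^ 2 * ψ (y / q ^ 2)) - g y) 0 y := by
    intro y hy
    have hψy : HasDerivAt (fun y => ψ (y / q ^ 2)) (ψ' (y / q ^ 2) * (1 / q ^ 2)) y :=
      HasDerivAt.comp y (hψ.d1 (y / q ^ 2)) ((hasDerivAt_id y).div_const (q ^ 2))
    have h1 : HasDerivAt (fun y => deriv g (q ^ 2 / 2) * (q ^ 2 * ψ (y / q ^ 2)) - g y)
        (deriv g (q ^ 2 / 2) * (q ^ 2 * (ψ' (y / q ^ 2) * (1 / q ^ 2))) - deriv g y) y :=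
      ((hψy.const_mul (q ^ 2)).const_mul (deriv g (q ^ 2 / 2))).sub (hg.dg y)
    suffices hval : deriv g (q ^ 2 / 2) * (q ^ 2 * (ψ' (y / q ^ 2) * (1 / q ^ 2))) - deriv g y = 0 by
      rwa [hval] at h1
    rw [he _ hy.1.le hy.2.le]
    have e1 : q ^ 2 * (y / q ^ 2) = y := by field_simp
    rw [e1]
    field_simp
    ring
  have hset : ∀ y, y ∈ Ioo (q ^ 2 * j0) (q ^ 2 * j1) ↔ y / q ^ 2 ∈ Ioo j0 j1 := by
    intro y
    rw [mem_Ioo, mem_Ioo, lt_div_iff₀ hq2p, div_lt_iff₀ hq2p, mul_comm j0, mul_comm j1]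
  obtain ⟨b, hb⟩ := isOpen_Ioo.exists_is_const_of_deriv_eq_zero (𝕜 := ℝ)
    (f := fun y => deriv g (q ^ 2 / 2) * (q ^ 2 * ψ (y / q ^ 2)) - g y)
    (s := Ioo (q ^ 2 * j0) (q ^ 2 * j1)) isPreconnected_Ioo
    (fun y hy => (hD y ((hset y).1 hy)).differentiableAt.differentiableWithinAt)
    (fun y hy => (hD y ((hset y).1 hy)).deriv)
  refine ⟨b, fun y hy => ?_⟩
  have h1 : deriv g (q ^ 2 / 2) * (q ^ 2 * ψ (y / q ^ 2)) - g y = b := hb y ((hset y).2 hy)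
  linarith

theorem lq_win (hK : KF A0 A1 κ K Yw ψ') (hF : ∀ x v t, 0 ≤ F x v t) (hC : 0 ≤ C)
    (hn : ∀ x v t, |l2 x v t - κ t * F x v t ^ 2 / 2| ≤ C * (1 + F x v t)) (h0 : j0 ≤ (4 * A0)⁻¹)
    (h1 : 4 * A0 ≤ j1) {q : ℝ} (hq : 1 + C * (1 + 5 / 4 * A1) * (4 * A0 + A0⁻¹) ≤ q) (x v : E) (t : ℝ)
    (hx : |K t * F x v t - q| ≤ 1 / 4 * q) : l2 x v t / q ^ 2 ∈ Ioo j0 j1 := by
  have hA := hK.A0_pos
  have hA1 := hK.A_pos
  set k : ℝ := C * (1 + 5 / 4 * A1) with hkd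
  have hk0 : 0 ≤ k := by positivity
  have hAi : 0 < A0⁻¹ := by positivity
  have hp1 : 0 ≤ k * (4 * A0 + A0⁻¹) := by positivity
  have hq1 : 1 ≤ q := by linarith
  have hq0 : 0 < q := by linarith
  have hq2 : 0 < q ^ 2 := by positivity
  have hqK : k * (4 * A0 + A0⁻¹) < q := by linarith
  rw [abs_le] at hx
  set G : ℝ := K t * F x v t with hG
  have hG1 : 3 / 4 * q ≤ G := by linarith [hx.1]
  have hG2 : G ≤ 5 / 4 * q := by linarith [hx.2]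
  have hG0 : 0 ≤ G := by linarith
  have hF1 : F x v t ≤ A1 * G := by
    have h2 := mul_le_mul_of_nonneg_right (hK.k1 t) (hF x v t)
    rw [hG]
    linarith
  have hY1 := hK.y1 t
  have hY2 := hK.y2 t
  have hY0 : 0 < Yw t := by
    by_contra h
    push Not at h
    nlinarith
  have hYA : A0⁻¹ ≤ Yw t := by
    rw [inv_le_iff_one_le_mul₀ hA, mul_comm]
    exact hY1
  have hκ : κ t * F x v t ^ 2 / 2 = Yw t * G ^ 2 := by
    rw [hK.ye t, hG]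
    ring
  have herr : |l2 x v t - Yw t * G ^ 2| ≤ k * q := by
    rw [← hκ]
    refine (hn x v t).trans ?_
    have h2 : F x v t ≤ 5 / 4 * A1 * q := by nlinarith
    have h3 : C * (1 + F x v t) ≤ C * (q + 5 / 4 * A1 * q) :=
      mul_le_mul_of_nonneg_left (by linarith) hC
    refine h3.trans (le_of_eq ?_)
    rw [hkd]
    ring
  rw [abs_le] at herr
  have hKq : k * q * (4 * A0 + A0⁻¹) ≤ q ^ 2 := by nlinarith
  -- the two consequences of the choice of `q0`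
  have hu1 : k * q ≤ A0 * q ^ 2 := by
    have h2 : k * q * A0⁻¹ ≤ q ^ 2 := by
      have h3 : 0 ≤ k * q * (4 * A0) := by positivity
      linarith
    have h4 := mul_le_mul_of_nonneg_left h2 hA.le
    calc k * q = A0 * (k * q * A0⁻¹) := by field_simp
      _ ≤ A0 * q ^ 2 := h4
  have hu2 : k * q ≤ (4 * A0)⁻¹ * q ^ 2 := by
    have h2 : k * q * (4 * A0) ≤ q ^ 2 := by
      have h3 : 0 ≤ k * q * A0⁻¹ := by positivity
      linarith
    have h5 : (0 : ℝ) ≤ (4 * A0)⁻¹ := by positivity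
    have h4 := mul_le_mul_of_nonneg_left h2 h5
    calc k * q = (4 * A0)⁻¹ * (k * q * (4 * A0)) := by field_simp
      _ ≤ (4 * A0)⁻¹ * q ^ 2 := h4
  have hG3 : 9 / 16 * q ^ 2 ≤ G ^ 2 := by nlinarith
  have hG4 : G ^ 2 ≤ 25 / 16 * q ^ 2 := by nlinarith
  constructor
  · rw [lt_div_iff₀ hq2]
    have h2 : A0⁻¹ * (9 / 16 * q ^ 2) ≤ Yw t * G ^ 2 :=
      mul_le_mul hYA hG3 (by positivity) hY0.le
    have h3 : (4 * A0)⁻¹ = A0⁻¹ / 4 := by field_simp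
    have h4 : j0 * q ^ 2 ≤ (4 * A0)⁻¹ * q ^ 2 := mul_le_mul_of_nonneg_right h0 hq2.le
    rw [h3] at h4 hu2
    have h5 : 0 < A0⁻¹ * q ^ 2 := by positivity
    nlinarith [herr.1]
  · rw [div_lt_iff₀ hq2]
    have h2 : Yw t * G ^ 2 ≤ A0 * (25 / 16 * q ^ 2) :=
      mul_le_mul hY2 hG4 (by positivity) hA.le
    have h4 : 4 * A0 * q ^ 2 ≤ j1 * q ^ 2 := mul_le_mul_of_nonneg_right h1 hq2.le
    have h5 : 0 < A0 * q ^ 2 := by positivity
    nlinarith [herr.2]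

end EscZ
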