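import Pool.Agent.EscW.QR0b
import Pool.Agent.EscW.QP1
import Pool.Agent.EscW.QP2
import Pool.Agent.EscW.QP4
import Pool.Agent.EscW.QP6
import Pool.Agent.EscW.QP7
import Pool.Agent.EscW.QP8
import Pool.Agent.EscW.QP9
import Pool.Agent.EscW.PR3
import Pool.Agent.EscW.PR5

/-!
Project EscW, part Q (MP_6acca1_an): truncations of Lagrangians of general growth exist at all large scales.
-/

noncomputable section

namespace EscZ

open MeasureTheory Set Filter Topology Esc EscF EscG EscT EscP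
open scoped ContDiff

variable {ι : Type} [Fintype ι] {E : Type*} [NormedAddCommGroup E] [InnerProductSpace ℝ E]
  [FiniteDimensional ℝ E] {Cg m M MA : ℝ} {l2 : E → E → ℝ → ℝ}
  {β : Module.Basis ι ℝ E} {F : E → E → ℝ → ℝ} {mF MF A : ℝ} {κ g : ℝ → ℝ} {B : E → ℝ → ℝ} {k0 : ι}
  {len : ℝ} {c c' ct : ℝ → ℝ → E}

/-- the weight of `D` is not used -/
theorem QP10_a {κ1 κ2 : ℝ → ℝ} {A1 : ℝ} {v : E} {L : LP} {q : ℝ} {K : ℝ → ℝ} {l : E → E → ℝ → ℝ}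
    (h : FWk (gdT β F mF MF A1 κ1 B k0 len c v) m L K q l) : FWk (gdT β F mF MF A1 κ2 B k0 len c v) m L K q l := by
  have key : ∀ {Φ : Fx} {s : ℝ}, FTa (gdT β F mF MF A1 κ1 B k0 len c v) m L Φ s l →
      FTa (gdT β F mF MF A1 κ2 B k0 len c v) m L Φ s l := fun h =>
    ⟨h.toTG, h.kb, h.ancK, h.A_nonneg, h.a0_pos, h.c_nonneg, h.a_cont, h.a_per, h.a_bd, h.a_lip, h.a_top, h.low,
      h.upp⟩
  refine ⟨fun s hs => ?_, fun s s' hs hs' => ?_⟩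
  · obtain ⟨Φ, h1, hΦ⟩ := h.ft s hs
    exact ⟨Φ, h1, key hΦ⟩
  · obtain ⟨Φ, h1, h2⟩ := h.ft2 s s' hs hs'
    exact ⟨Φ, key h1, key h2⟩

theorem trFam_gen (h : CalT β F mF MF A κ B k0 len c c' ct) (hl : TG β m M l2) (hA : AT F κ MA l2)
    (hg : Gr Cg g) : ∃ A0 : ℝ, ∀ A', A0 ≤ A' → ∀ (κ1 : ℝ → ℝ) (g0 : E),
      TrFam (gdT β F mF MF A' κ1 B k0 len c g0) g l2 := by
  have hκ := calT_kb h
  have hA1 : 1 ≤ A := hκ.one_le
  have hA0 : 0 < A := by linarith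
  have hj0 : 0 < (16 * (2 * A))⁻¹ := by positivity
  have hj0' : (16 * (2 * A))⁻¹ ≤ 1 / 2 := by
    rw [inv_le_comm₀ (by positivity) (by norm_num)]
    norm_num
    linarith
  have hj1 : 1 / 2 ≤ 16 * (2 * A) := by linarith
  have hj01 : (16 * (2 * A))⁻¹ < 16 * (2 * A) := lt_of_le_of_lt hj0' (by linarith)
  obtain ⟨θ0, θ1, hθ0, hθ1, HP⟩ := exists_Prof hg hj0 hj0' hj1 hj01
  obtain ⟨A1, hAA, HK⟩ := exists_KF hκ hθ0 hθ1
  have hA10 : 0 < A1 := by linarith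
  obtain ⟨C, hC, hn⟩ := l2_near h hl hA
  have hF0 : ∀ x v t, 0 ≤ F x v t := fun x v t =>
    (mul_nonneg (h.fins t).mF_pos.le (norm_nonneg v)).trans ((h.fins t).low x v)
  have hN : DN β F B c c' := fun hε => dir_near h hl hA hε
  have hM := hl.M_nonneg
  obtain ⟨A3, a0, cc, hA3, ha0, hcc, HX⟩ := FX_unif (M := M * A1) (MA := A1 * (2 * |MA| + M)) (A' := A1) h hN
    (by positivity) (by positivity)
  obtain ⟨A2, hA2, hok⟩ := gdT_ok0 h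
  refine ⟨max A1 A2, fun A' hA' κ1 v => ?_⟩
  have hA'1 : A1 ≤ A' := (le_max_left _ _).trans hA'
  have hA'2 : A2 ≤ A' := (le_max_right _ _).trans hA'
  have h0 := hok A' hA'2 v
  have hanc : AncK (gdT β F mF MF A' κ B k0 len c v) A' := ancK_gdT h κ A' A' v
  set C1 : ℝ := QP6_C θ1 C (2 * A) A1 with hC1d
  set B0 : ℝ := 2 * θ1 * (2 * A) with hB0d
  have hK0 : 0 ≤ 2 / θ0 + 12 * C * θ1 / θ0 + 4 * C := by positivity
  set q0 : ℝ := max 3 (max (2 / (16 * (2 * A))⁻¹) (1 + C * (1 + 5 / 4 * A1) * (4 * (2 * A) + (2 * A)⁻¹))) with hq0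
  refine ⟨θ0 * m, ⟨M * θ1, A3 + 9 * B0 + C1, a0, fun _ _ => 0, fun ε => cc ε + 4 * C1⟩, κ, A,
    2 / θ0 + 12 * C * θ1 / θ0 + 4 * C, 1 / 4, Ioo (16 * (2 * A))⁻¹ (16 * (2 * A)), q0, by norm_num, hK0,
    (by norm_num : (1:ℝ) ≤ 3).trans (le_max_left _ _), isOpen_Ioo, hκ.pos, hκ.le, hκ.lip, fun q hq => ?_⟩
  have hqa : 3 ≤ q := (le_max_left _ _).trans hq
  have hqb : 2 / (16 * (2 * A))⁻¹ ≤ q := ((le_max_left _ _).trans (le_max_right _ _)).trans hq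
  have hqc : 1 + C * (1 + 5 / 4 * A1) * (4 * (2 * A) + (2 * A)⁻¹) ≤ q :=
    ((le_max_right _ _).trans (le_max_right _ _)).trans hq
  have hq1 : 1 ≤ q := by linarith
  have hqp : 0 < q := by linarith
  have hqq : 2 / (16 * (2 * A))⁻¹ ≤ q ^ 2 := hqb.trans (by nlinarith)
  obtain ⟨ψ, ψ', ψ'', hψ, heq⟩ := HP q hqq
  obtain ⟨K, Yw, hK⟩ := HK ψ ψ' ψ'' hψ
  have hKB : KB A1 K := ⟨hK.k1, hK.k2, hK.k3, hK.kp⟩
  have hCT := ct_lh h hK hl
  have hAT := at_lh h hK hl hA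
  have hX := HX K (lh K κ l2) hKB hCT hAT (fun _ _ => 0) κ A' v
  have hψc : Continuous ψ := continuous_iff_continuousAt.2 fun y => (hψ.d1 y).continuousAt
  have hψ'c : Continuous ψ' := continuous_iff_continuousAt.2 fun y => (hψ.d2 y).continuousAt
  have hb1 : Continuous fun t => ψ (Yw t) - Yw t * ψ' (Yw t) :=
    (hψc.comp hK.yc).sub (hK.yc.mul (hψ'c.comp hK.yc))
  have hb2 : ∀ t, ψ (Yw (t + 1)) - Yw (t + 1) * ψ' (Yw (t + 1)) = ψ (Yw t) - Yw t * ψ' (Yw t) :=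
    fun t => by rw [hK.yp]
  have hb3 : ∀ t, ψ (Yw t) - Yw t * ψ' (Yw t) ≤ 0 := fun t => by
    have h1 := hψ.tan (Yw t) 0
    rw [hψ.zero] at h1
    linarith
  have hb4 : ∀ t, |ψ (Yw t) - Yw t * ψ' (Yw t)| ≤ B0 := fun t => by
    have hY0 : 0 ≤ Yw t := by
      by_contra hcon
      have h1 := hK.y1 t
      have := mul_nonpos_of_nonneg_of_nonpos hK.A0_pos.le (not_le.1 hcon).le
      linarith
    have h1 := QP3_lip hψ (Yw t) 0
    rw [hψ.zero, sub_zero, sub_zero, abs_of_nonneg hY0] at h1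
    have h2 : |Yw t * ψ' (Yw t)| ≤ Yw t * θ1 := by
      rw [abs_mul, abs_of_nonneg hY0, abs_of_nonneg (hψ.θ_pos.le.trans (hψ.p1 _).1)]
      exact mul_le_mul_of_nonneg_left (hψ.p1 _).2 hY0
    have h3 := abs_sub (ψ (Yw t)) (Yw t * ψ' (Yw t))
    have h4 : Yw t * θ1 ≤ 2 * A * θ1 := mul_le_mul_of_nonneg_right (hK.y2 t) hθ1
    rw [hB0d]
    linarith
  obtain ⟨hC1, hsub⟩ := lq_sub hψ hK hF0 hC (fun x v t => (hn x v t).2.1)
  have hfw := fw_of (q := q) (lt := lq q ψ l2) (m1 := θ0 * m) (M2 := M * θ1) (C := C1) h0 (hKB.mono hA'1) hanc hX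
    hCT.cont hb1 hb2 hb3 hb4 hC1 hqa (tg_lq hψ hl hqp) (fun s hs x v t => hsub q hq1 s hs x v t)
  have hen := (en_lq (D := gdT β F mF MF A' κ1 B k0 len c v) (κ := κ) hψ hl.smooth hC
    (fun x v t => ⟨(hn x v t).1, (hn x v t).2.2⟩)).2 q hq1
  obtain ⟨b, hb⟩ := lq_eq hg hψ hqp.ne' heq
  refine ⟨lq q ψ l2, ⟨⟨K, QP10_a hfw, fun x v t hx c' hc1 hc2 => ?_⟩, hen, ⟨b, fun x v t hx => hb _ hx⟩⟩⟩
  have hw := lq_win hK hF0 hC (fun x v t => (hn x v t).2.1) le_rfl le_rfl hqc x v t hx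
  have hc0 : 0 < c' := by linarith
  have hi1 : (16 * (2 * A))⁻¹ = 1 / 4 * (4 * (2 * A))⁻¹ := by
    field_simp
    norm_num
  have hi0 : 0 < (4 * (2 * A))⁻¹ := by positivity
  have hy0 : 0 < l2 x v t / q ^ 2 := hi0.trans hw.1
  constructor
  · rw [hi1]
    calc 1 / 4 * (4 * (2 * A))⁻¹ < 1 / 4 * (l2 x v t / q ^ 2) := by
          exact mul_lt_mul_of_pos_left hw.1 (by norm_num)
      _ ≤ c' * (l2 x v t / q ^ 2) := mul_le_mul_of_nonneg_right hc1 hy0.le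
  · calc c' * (l2 x v t / q ^ 2) ≤ 4 * (l2 x v t / q ^ 2) := mul_le_mul_of_nonneg_right hc2 hy0.le
      _ < 4 * (4 * (2 * A)) := mul_lt_mul_of_pos_left hw.2 (by norm_num)
      _ = 16 * (2 * A) := by ring

end EscZ
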