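import Pool.Agent.EscW.QRDefs
import Pool.Agent.EscW.QDefs3

/-!
Project EscW, part Q (MP_6acca1_an): truncations of Lagrangians of general growth. Definitions.
-/

noncomputable section

namespace EscZ

open MeasureTheory Set Filter Topology Esc EscF EscG EscT EscP
open scoped ContDiff

/-- the profile of the truncations: convex, increasing, affine near `-∞`, with slope `1` at `1/2` -/
structure Prof (θ0 θ1 : ℝ) (ψ ψ' ψ'' : ℝ → ℝ) : Prop where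
  θ_pos : 0 < θ0
  d1 : ∀ y, HasDerivAt ψ (ψ' y) y
  d2 : ∀ y, HasDerivAt ψ' (ψ'' y) y
  cont : Continuous ψ''
  zero : ψ 0 = 0
  p1 : ∀ y, θ0 ≤ ψ' y ∧ ψ' y ≤ θ1
  p2 : ∀ y, 0 ≤ ψ'' y ∧ ψ'' y ≤ θ1
  low : ∀ y, y ≤ 0 → ψ'' y = 0
  half : ψ' (1 / 2) = 1

variable {E : Type*} [NormedAddCommGroup E] [InnerProductSpace ℝ E]

/-- the linearization of the truncations near the speed `q`, without the term depending on the time only -/
def lh (K κ : ℝ → ℝ) (l2 : E → E → ℝ → ℝ) : E → E → ℝ → ℝ := fun x v t => K t / κ t * l2 x v t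

/-- bounds of the effective weight `K` and of the value `y` of `l₂ / q²` at the speed `q` -/
structure KF (A0 A1 : ℝ) (κ K y ψ' : ℝ → ℝ) : Prop where
  A0_pos : 0 < A0
  A_pos : 0 < A1
  pos : ∀ t, 0 < κ t
  k0 : ∀ t, 0 < K t
  k1 : ∀ t, 1 ≤ A1 * K t
  k2 : ∀ t, K t ≤ A1
  k3 : ∀ t t', |K t - K t'| ≤ A1 * |t - t'|
  kp : ∀ t, K (t + 1) = K t
  r2 : ∀ t, K t / κ t ≤ A1
  r3 : ∀ t t', |K t / κ t - K t' / κ t'| ≤ A1 * |t - t'|
  y1 : ∀ t, 1 ≤ A0 * y t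
  y2 : ∀ t, y t ≤ A0
  yc : Continuous y
  yp : ∀ t, y (t + 1) = y t
  re : ∀ t, K t / κ t = ψ' (y t)
  ye : ∀ t, κ t = 2 * y t * K t ^ 2

end EscZ
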