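import Pool.Agent.EscW.QRDefs
import Pool.Agent.EscT.EF

/-!
Project EscW, part Q (MP_6acca1_an): the flux estimate, uniformly in the weight and the function.
-/

noncomputable section

namespace EscZ

open MeasureTheory Set Filter Topology Esc EscF EscG EscT
open scoped ContDiff

variable {ι : Type} [Fintype ι] {d : ℕ} {E : Type*} [NormedAddCommGroup E] [InnerProductSpace ℝ E]
  [FiniteDimensional ℝ E] {D : GT ι d E} {l : E → E → ℝ → ℝ} {κ : ℝ → ℝ}

/-- one piece -/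
theorem QR0_piece (h : D.Ok0) (hK : KB D.A κ) (hlc : Continuous (fun p : E × E × ℝ => l p.1 p.2.1 p.2.2)) {MA s1 : ℝ}
    (hMA : 0 ≤ MA) (hA : AT D.F κ MA l)
    {fl : ℝ → ℝ → ℝ} (hfc : ∀ s, Continuous (fl s)) {ε1 ε2 ε3 C δ s : ℝ} (hC : 0 ≤ C)
    (hBt : ∀ x t t', |t - t'| ≤ δ → |D.Bt x t - D.Bt x t'| ≤ ε1)
    (hΛ : ∀ s t t', 1 ≤ s → |t - t'| ≤ δ → |(fl s t - s ^ 2 / 2 * (1 - (κ t)⁻¹)) -
      (fl s t' - s ^ 2 / 2 * (1 - (κ t')⁻¹))| ≤ ε2 * s)
    (hfz : ∀ s t0, s1 ≤ s → ∀ (z : E) (u : ℝ → E), Adm u → ∀ t t' : ℝ, t ≤ t' →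
      t' ≤ t + 4 → |(∫ r in t..t', (l (traj t z u r) (u r) t0 - κ t0 * D.F (traj t z u r) (u r) t0 ^ 2 / 2 -
          s * D.Bt (traj t z u r) t0)) -
          (fl s t0 - s ^ 2 / 2 * (1 - (κ t0)⁻¹)) * (t' - t)| ≤
        ε3 * s * (t' - t) + C * (1 + (∫ r in t..t', (D.F (traj t z u r) (u r) t0 -
          D.dB (traj t z u r) t0 (u r))) +
          ∫ r in t..t', |κ t0 * D.F (traj t z u r) (u r) t0 - s|))
    (hδ0 : 0 ≤ δ) (hδ4 : δ ≤ 4) (hs : 1 ≤ s) (hss : s1 ≤ s) {u : ℝ → E} (hu : Adm u) (z : E) {t t' : ℝ}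
    (htt : t ≤ t') (htt' : t' ≤ t + δ) :
    |∫ r in t..t', (l (traj t z u r) (u r) r - κ r * D.F (traj t z u r) (u r) r ^ 2 / 2 -
        s * D.Bt (traj t z u r) r - (fl s r - s ^ 2 / 2 * (1 - (κ r)⁻¹)))| ≤
      C + (MA * δ + (ε1 + ε2 + ε3) * s) * (t' - t) +
        C * (∫ r in t..t', (D.F (traj t z u r) (u r) r - D.dB (traj t z u r) r (u r))) +
        C * (∫ r in t..t', |κ r * D.F (traj t z u r) (u r) r - s|) +
        δ * (MA + C * (2 * D.A + D.A ^ 2 + D.A * D.MF)) * (∫ r in t..t', ‖u r‖) := by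
  have hs0 : 0 ≤ s := by linarith
  have hA0 := h.A_pos
  have hκc : Continuous (fun p : E × E × ℝ => κ p.2.2) :=
    hK.cont.comp (continuous_snd.comp continuous_snd)
  have hFc := h.F_cont
  have hBtc : Continuous (fun p : E × E × ℝ => D.Bt p.1 p.2.2) :=
    (C6b_Btc h).comp (continuous_fst.prodMk (continuous_snd.comp continuous_snd))
  have hΛc : Continuous (fun p : E × E × ℝ => fl s p.2.2 - s ^ 2 / 2 * (1 - (κ p.2.2)⁻¹)) :=
    ((hfc s).comp (continuous_snd.comp continuous_snd)).sub (continuous_const.mul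
      (continuous_const.sub (hκc.inv₀ fun p => (hK.pos' _).ne')))
  have hfr : ∀ {G : E → E → ℝ → ℝ} (_ : Continuous (fun p : E × E × ℝ => G p.1 p.2.1 p.2.2)),
      Continuous (fun p : E × E × ℝ => (fun x v (_ : ℝ) => G x v t) p.1 p.2.1 p.2.2) := by
    intro G hG
    exact hG.comp (continuous_fst.prodMk ((continuous_fst.comp continuous_snd).prodMk
      continuous_const))
  have cX : Continuous (fun p : E × E × ℝ => (fun x v r => l x v r - κ r * D.F x v r ^ 2 / 2 -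
      s * D.Bt x r - (fl s r - s ^ 2 / 2 * (1 - (κ r)⁻¹))) p.1 p.2.1 p.2.2) :=
    ((hlc.sub ((hκc.mul (hFc.pow 2)).div_const 2)).sub (continuous_const.mul hBtc)).sub hΛc
  have cY : Continuous (fun p : E × E × ℝ => (fun x v r => l x v r - κ r * D.F x v r ^ 2 / 2 -
      s * D.Bt x r) p.1 p.2.1 p.2.2) :=
    ((hlc.sub ((hκc.mul (hFc.pow 2)).div_const 2)).sub (continuous_const.mul hBtc))
  have cN : Continuous (fun p : E × E × ℝ => (fun (_ : E) (v : E) (_ : ℝ) => ‖v‖) p.1 p.2.1 p.2.2) :=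
    continuous_norm.comp (continuous_fst.comp continuous_snd)
  have ce := (C6b_cbx h).cont
  have cw : Continuous (fun p : E × E × ℝ => (fun x v r => |κ r * D.F x v r - s|) p.1 p.2.1 p.2.2) :=
    ((hκc.mul hFc).sub continuous_const).abs
  have iX := EF_ii (g := fun x v r => l x v r - κ r * D.F x v r ^ 2 / 2 - s * D.Bt x r - (fl s r - s ^ 2 / 2 * (1 - (κ r)⁻¹))) cX hu t z t t'
  have iX0 := EF_ii (g := fun x v _ => l x v t - κ t * D.F x v t ^ 2 / 2 - s * D.Bt x t - (fl s t - s ^ 2 / 2 * (1 - (κ t)⁻¹))) (hfr (G := fun x v r => l x v r - κ r * D.F x v r ^ 2 / 2 - s * D.Bt x r - (fl s r - s ^ 2 / 2 * (1 - (κ r)⁻¹))) cX) hu t z t t'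
  have iY0 := EF_ii (g := fun x v _ => l x v t - κ t * D.F x v t ^ 2 / 2 - s * D.Bt x t) (hfr (G := fun x v r => l x v r - κ r * D.F x v r ^ 2 / 2 - s * D.Bt x r) cY) hu t z t t'
  have iN := EF_ii (g := fun _ v _ => ‖v‖) cN hu t z t t'
  have ie := EF_ii (g := fun x v r => D.F x v r - D.dB x r v) ce hu t z t t'
  have ie0 := EF_ii (g := fun x v _ => D.F x v t - D.dB x t v) (hfr (G := fun x v r => D.F x v r - D.dB x r v) ce) hu t z t t'
  have iw := EF_ii (g := fun x v r => |κ r * D.F x v r - s|) cw hu t z t t'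
  have iw0 := EF_ii (g := fun x v _ => |κ t * D.F x v t - s|) (hfr (G := fun x v r => |κ r * D.F x v r - s|) cw) hu t z t t'
  have hrt : ∀ r, t ≤ r → r ≤ t' → |r - t| ≤ δ := by
    intro r h1 h2
    rw [abs_le]
    constructor <;> linarith
  -- freezing the integrand
  have h1 : |(∫ r in t..t', (l (traj t z u r) (u r) r - κ r * D.F (traj t z u r) (u r) r ^ 2 / 2 -
      s * D.Bt (traj t z u r) r - (fl s r - s ^ 2 / 2 * (1 - (κ r)⁻¹)))) -
      ∫ r in t..t', (l (traj t z u r) (u r) t - κ t * D.F (traj t z u r) (u r) t ^ 2 / 2 -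
      s * D.Bt (traj t z u r) t - (fl s t - s ^ 2 / 2 * (1 - (κ t)⁻¹)))| ≤
      (MA * δ + (ε1 + ε2) * s) * (t' - t) + MA * δ * ∫ r in t..t', ‖u r‖ := by
    rw [← intervalIntegral.integral_sub iX iX0]
    have h2 : |∫ r in t..t', ((l (traj t z u r) (u r) r - κ r * D.F (traj t z u r) (u r) r ^ 2 / 2 -
      s * D.Bt (traj t z u r) r - (fl s r - s ^ 2 / 2 * (1 - (κ r)⁻¹))) -
      (l (traj t z u r) (u r) t - κ t * D.F (traj t z u r) (u r) t ^ 2 / 2 -
      s * D.Bt (traj t z u r) t - (fl s t - s ^ 2 / 2 * (1 - (κ t)⁻¹))))| ≤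
        ∫ r in t..t', ((MA * δ + (ε1 + ε2) * s) + MA * δ * ‖u r‖) := by
      rw [← Real.norm_eq_abs]
      refine intervalIntegral.norm_integral_le_of_norm_le htt ?_
        (intervalIntegrable_const.add (iN.const_mul _))
      refine ae_of_all _ fun r hr => ?_
      have hd := hrt r hr.1.le hr.2
      have a1 := hA (traj t z u r) (u r) r (traj t z u r) (u r) t
      rw [sub_self, sub_self, norm_zero, zero_add, zero_add] at a1
      have a2 : MA * ((1 + ‖u r‖) * |r - t|) ≤ MA * ((1 + ‖u r‖) * δ) := by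
        gcongr
      have a3 := hBt (traj t z u r) r t hd
      have a4 := hΛ s r t hs hd
      have a5 : |s * (D.Bt (traj t z u r) r - D.Bt (traj t z u r) t)| ≤ s * ε1 := by
        rw [abs_mul, abs_of_nonneg hs0]
        exact mul_le_mul_of_nonneg_left a3 hs0
      rw [Real.norm_eq_abs, abs_le]
      obtain ⟨b1, b2⟩ := abs_le.1 (a1.trans a2)
      obtain ⟨b3, b4⟩ := abs_le.1 a4
      obtain ⟨b5, b6⟩ := abs_le.1 a5
      constructor <;> linarith
    refine h2.trans (le_of_eq ?_)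
    rw [intervalIntegral.integral_add intervalIntegrable_const (iN.const_mul _),
      intervalIntegral.integral_const_mul, intervalIntegral.integral_const, smul_eq_mul]
    ring
  -- the frozen integral
  have h2 := hfz s t hss z u hu t t' htt (by linarith)
  have h3 : (∫ r in t..t', (l (traj t z u r) (u r) t - κ t * D.F (traj t z u r) (u r) t ^ 2 / 2 -
      s * D.Bt (traj t z u r) t - (fl s t - s ^ 2 / 2 * (1 - (κ t)⁻¹)))) =
      (∫ r in t..t', (l (traj t z u r) (u r) t - κ t * D.F (traj t z u r) (u r) t ^ 2 / 2 -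
      s * D.Bt (traj t z u r) t)) - (fl s t - s ^ 2 / 2 * (1 - (κ t)⁻¹)) * (t' - t) := by
    rw [intervalIntegral.integral_sub iY0 intervalIntegrable_const,
      intervalIntegral.integral_const, smul_eq_mul, mul_comm (t' - t)]
  -- the frozen excess
  have h4 : (∫ r in t..t', (D.F (traj t z u r) (u r) t - D.dB (traj t z u r) t (u r))) ≤
      (∫ r in t..t', (D.F (traj t z u r) (u r) r - D.dB (traj t z u r) r (u r))) +
        2 * D.A * δ * ∫ r in t..t', ‖u r‖ := by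
    rw [← intervalIntegral.integral_const_mul, ← intervalIntegral.integral_add ie (iN.const_mul _)]
    refine intervalIntegral.integral_mono_on htt ie0 (ie.add (iN.const_mul _)) fun r hr => ?_
    have hd := hrt r hr.1 hr.2
    have a1 := h.F_lip (traj t z u r) (u r) r t
    have a2 := h.B_dlip (traj t z u r) (u r) r t
    have a3 : D.A * ‖u r‖ * |r - t| ≤ D.A * ‖u r‖ * δ := by gcongr
    obtain ⟨b1, b2⟩ := abs_le.1 (a1.trans a3)
    obtain ⟨b3, b4⟩ := abs_le.1 (a2.trans a3)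
    linarith
  -- the frozen deviation
  have h5 : (∫ r in t..t', |κ t * D.F (traj t z u r) (u r) t - s|) ≤
      (∫ r in t..t', |κ r * D.F (traj t z u r) (u r) r - s|) +
        (D.A ^ 2 + D.A * D.MF) * δ * ∫ r in t..t', ‖u r‖ := by
    rw [← intervalIntegral.integral_const_mul, ← intervalIntegral.integral_add iw (iN.const_mul _)]
    refine intervalIntegral.integral_mono_on htt iw0 (iw.add (iN.const_mul _)) fun r hr => ?_
    have hd := hrt r hr.1 hr.2
    have a1 := h.F_lip (traj t z u r) (u r) r t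
    have a2 := hK.lip r t
    have a3 : D.A * ‖u r‖ * |r - t| ≤ D.A * ‖u r‖ * δ := by gcongr
    have a4 : D.A * |r - t| ≤ D.A * δ := by gcongr
    have a5 := (h.fr0 r).fins.upp (traj t z u r) (u r)
    have a6 := C6b_F0 h (traj t z u r) (u r) r
    have a7 := hK.pos' t
    have a8 := hK.le t
    have e : κ t * D.F (traj t z u r) (u r) t - s = (κ r * D.F (traj t z u r) (u r) r - s) -
        κ t * (D.F (traj t z u r) (u r) r - D.F (traj t z u r) (u r) t) -
        (κ r - κ t) * D.F (traj t z u r) (u r) r := by ring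
    rw [e]
    have c1 : |κ t * (D.F (traj t z u r) (u r) r - D.F (traj t z u r) (u r) t)| ≤
        D.A * (D.A * ‖u r‖ * δ) := by
      rw [abs_mul, abs_of_pos a7]
      exact mul_le_mul a8 (a1.trans a3) (abs_nonneg _) hA0.le
    have c2 : |(κ r - κ t) * D.F (traj t z u r) (u r) r| ≤ D.A * δ * (D.MF * ‖u r‖) := by
      rw [abs_mul, abs_of_nonneg a6]
      exact mul_le_mul (a2.trans a4) a5 a6 (by positivity)
    have c3 := abs_sub (κ r * D.F (traj t z u r) (u r) r - s)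
      (κ t * (D.F (traj t z u r) (u r) r - D.F (traj t z u r) (u r) t))
    have c4 := abs_sub (κ r * D.F (traj t z u r) (u r) r - s -
        κ t * (D.F (traj t z u r) (u r) r - D.F (traj t z u r) (u r) t))
      ((κ r - κ t) * D.F (traj t z u r) (u r) r)
    have e2 : (D.A ^ 2 + D.A * D.MF) * δ * ‖u r‖ =
        D.A * (D.A * ‖u r‖ * δ) + D.A * δ * (D.MF * ‖u r‖) := by ring
    rw [e2]
    linarith
  rw [h3] at h1
  have h6 := abs_sub_abs_le_abs_sub
    (∫ r in t..t', (l (traj t z u r) (u r) r - κ r * D.F (traj t z u r) (u r) r ^ 2 / 2 -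
      s * D.Bt (traj t z u r) r - (fl s r - s ^ 2 / 2 * (1 - (κ r)⁻¹))))
    ((∫ r in t..t', (l (traj t z u r) (u r) t - κ t * D.F (traj t z u r) (u r) t ^ 2 / 2 -
      s * D.Bt (traj t z u r) t)) - (fl s t - s ^ 2 / 2 * (1 - (κ t)⁻¹)) * (t' - t))
  generalize (∫ r in t..t', (D.F (traj t z u r) (u r) t - D.dB (traj t z u r) t (u r))) = I1 at *
  generalize (∫ r in t..t', |κ t * D.F (traj t z u r) (u r) t - s|) = I2 at *
  generalize (∫ r in t..t', (D.F (traj t z u r) (u r) r - D.dB (traj t z u r) r (u r))) = I3 at *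
  generalize (∫ r in t..t', |κ r * D.F (traj t z u r) (u r) r - s|) = I4 at *
  generalize (∫ r in t..t', ‖u r‖) = I5 at *
  have h7 := mul_le_mul_of_nonneg_left h4 hC
  have h8 := mul_le_mul_of_nonneg_left h5 hC
  have e9 : C + (MA * δ + (ε1 + ε2 + ε3) * s) * (t' - t) + C * I3 + C * I4 +
      δ * (MA + C * (2 * D.A + D.A ^ 2 + D.A * D.MF)) * I5 =
      ((MA * δ + (ε1 + ε2) * s) * (t' - t) + MA * δ * I5) + (ε3 * s * (t' - t) + C +
        C * (I3 + 2 * D.A * δ * I5) + C * (I4 + (D.A ^ 2 + D.A * D.MF) * δ * I5)) := by ring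
  rw [e9]
  have e10 : C * (1 + I1 + I2) = C + C * I1 + C * I2 := by ring
  rw [e10] at h2
  linarith

/-- the flux estimate, for a family `P` of weights, functions and fluxes -/
theorem QR0_main (h : D.Ok0) {MA : ℝ} (hMA : 0 ≤ MA)
    {P : (ℝ → ℝ) → (E → E → ℝ → ℝ) → (ℝ → ℝ → ℝ) → Prop}
    (hP : ∀ κ l fl, P κ l fl → KB D.A κ ∧ Continuous (fun p : E × E × ℝ => l p.1 p.2.1 p.2.2) ∧
      AT D.F κ MA l ∧ ∀ s, Continuous (fl s))
    (hΛ : ∀ ε, 0 < ε → ∃ δ, 0 < δ ∧ ∀ κ l fl, P κ l fl → ∀ s t t', 1 ≤ s → |t - t'| ≤ δ →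
      |(fl s t - s ^ 2 / 2 * (1 - (κ t)⁻¹)) - (fl s t' - s ^ 2 / 2 * (1 - (κ t')⁻¹))| ≤ ε * s)
    (hfz : ∀ ε : ℝ, 0 < ε → ∃ C : ℝ, 0 ≤ C ∧ ∀ κ l fl, P κ l fl → ∀ s t0, 1 ≤ s → ∀ (z : E) (u : ℝ → E), Adm u →
      ∀ t t' : ℝ, t ≤ t' →
      t' ≤ t + 4 → |(∫ r in t..t', (l (traj t z u r) (u r) t0 - κ t0 * D.F (traj t z u r) (u r) t0 ^ 2 / 2 -
          s * D.Bt (traj t z u r) t0)) -
          (fl s t0 - s ^ 2 / 2 * (1 - (κ t0)⁻¹)) * (t' - t)| ≤
        ε * s * (t' - t) + C * (1 + (∫ r in t..t', (D.F (traj t z u r) (u r) t0 -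
          D.dB (traj t z u r) t0 (u r))) +
          ∫ r in t..t', |κ t0 * D.F (traj t z u r) (u r) t0 - s|)) {ε : ℝ} (hε : 0 < ε) :
    ∃ K : ℝ, 0 ≤ K ∧ ∀ κ l fl, P κ l fl → ∀ s : ℝ, 1 ≤ s → ∀ (z : E) (u : ℝ → E), Adm u →
      ∀ t t' : ℝ, t ≤ t' → t' ≤ t + 4 →
      |(∫ r in t..t', (l (traj t z u r) (u r) r - κ r * D.F (traj t z u r) (u r) r ^ 2 / 2 -
        s * D.Bt (traj t z u r) r + s ^ 2 / 2 * (1 - (κ r)⁻¹))) - ∫ r in t..t', fl s r| ≤
      ε * s + K * (1 + D.exc t t' z u +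
        ∫ r in t..t', |κ r * D.F (traj t z u r) (u r) r - s|) := by
  have hA0 := h.A_pos
  have hmF := (h.fr0 0).fins.mF_pos
  have hMF : 0 < D.MF := hmF.trans_le (h.fr0 0).fins.mF_le
  change 0 < D.mF at hmF
  obtain ⟨δ1, hδ1, H1⟩ := EF_Bt h (ε := ε / 32) (by positivity)
  obtain ⟨δ2, hδ2, H2⟩ := hΛ (ε / 32) (by positivity)
  obtain ⟨C, hC0, H3⟩ := hfz (ε / 32) (by positivity)
  obtain ⟨G, hG⟩ : ∃ G : ℝ, G = MA + C * (2 * D.A + D.A ^ 2 + D.A * D.MF) := ⟨_, rfl⟩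
  have hG0 : 0 ≤ G := by rw [hG]; positivity
  obtain ⟨n, hn⟩ := exists_nat_gt (max (max (4 / δ1) (4 / δ2)) (32 * (G * D.A / D.mF) / ε + 1))
  have hn1 : 4 / δ1 < n := lt_of_le_of_lt ((le_max_left _ _).trans (le_max_left _ _)) hn
  have hn2 : 4 / δ2 < n := lt_of_le_of_lt ((le_max_right _ _).trans (le_max_left _ _)) hn
  have hn3 : 32 * (G * D.A / D.mF) / ε + 1 < n := lt_of_le_of_lt (le_max_right _ _) hn
  have hX : 0 ≤ G * D.A / D.mF := by positivity
  have hn4 : (1 : ℝ) < n := by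
    have : 0 ≤ 32 * (G * D.A / D.mF) / ε := by positivity
    linarith
  have hn0 : (0 : ℝ) < n := by linarith
  obtain ⟨δ, hδ⟩ : ∃ δ : ℝ, δ = 4 / n := ⟨_, rfl⟩
  have hδ0 : 0 ≤ δ := by rw [hδ]; positivity
  have hδ4 : δ ≤ 4 := by
    rw [hδ, div_le_iff₀ hn0]
    linarith
  have hδ1' : δ ≤ δ1 := by
    rw [hδ, div_le_iff₀ hn0]
    rw [div_lt_iff₀ hδ1] at hn1
    linarith
  have hδ2' : δ ≤ δ2 := by
    rw [hδ, div_le_iff₀ hn0]
    rw [div_lt_iff₀ hδ2] at hn2
    linarith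
  have hnδ : n * δ = 4 := by
    rw [hδ]
    field_simp
  have hsmall : δ * (G * D.A / D.mF) * 4 ≤ ε / 2 := by
    have hn5 : 32 * (G * D.A / D.mF) / ε < n := by linarith
    rw [div_lt_iff₀ hε] at hn5
    rw [hδ]
    have e : 4 / (n : ℝ) * (G * D.A / D.mF) * 4 = 16 * (G * D.A / D.mF) / n := by ring
    rw [e, div_le_iff₀ hn0]
    linarith
  refine ⟨n * C + C + 4 * (MA * δ) + δ * (G * D.A / D.mF), by positivity, ?_⟩
  intro κ l fl hPk s hs z u hu t t' htt htt'
  obtain ⟨hK, hlc, hA, hfc⟩ := hP κ l fl hPk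
  have hs0 : 0 ≤ s := by linarith
  have hκc : Continuous (fun p : E × E × ℝ => κ p.2.2) :=
    hK.cont.comp (continuous_snd.comp continuous_snd)
  have hFc := h.F_cont
  have hBtc : Continuous (fun p : E × E × ℝ => D.Bt p.1 p.2.2) :=
    (C6b_Btc h).comp (continuous_fst.prodMk (continuous_snd.comp continuous_snd))
  have hκi : Continuous (fun p : E × E × ℝ => s ^ 2 / 2 * (1 - (κ p.2.2)⁻¹)) :=
    continuous_const.mul (continuous_const.sub (hκc.inv₀ fun p => (hK.pos' _).ne'))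
  have cY : Continuous (fun p : E × E × ℝ => (fun x v r => l x v r - κ r * D.F x v r ^ 2 / 2 -
      s * D.Bt x r) p.1 p.2.1 p.2.2) :=
    ((hlc.sub ((hκc.mul (hFc.pow 2)).div_const 2)).sub (continuous_const.mul hBtc))
  have cX : Continuous (fun p : E × E × ℝ => (fun x v r => l x v r - κ r * D.F x v r ^ 2 / 2 -
      s * D.Bt x r - (fl s r - s ^ 2 / 2 * (1 - (κ r)⁻¹))) p.1 p.2.1 p.2.2) :=
    cY.sub (((hfc s).comp (continuous_snd.comp continuous_snd)).sub hκi)
  have cZ : Continuous (fun p : E × E × ℝ => (fun x v r => l x v r - κ r * D.F x v r ^ 2 / 2 -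
      s * D.Bt x r + s ^ 2 / 2 * (1 - (κ r)⁻¹)) p.1 p.2.1 p.2.2) := cY.add hκi
  have cN : Continuous (fun p : E × E × ℝ => (fun (_ : E) (v : E) (_ : ℝ) => ‖v‖) p.1 p.2.1 p.2.2) :=
    continuous_norm.comp (continuous_fst.comp continuous_snd)
  have ce := (C6b_cbx h).cont
  have cw : Continuous (fun p : E × E × ℝ => (fun x v r => |κ r * D.F x v r - s|) p.1 p.2.1 p.2.2) :=
    ((hκc.mul hFc).sub continuous_const).abs
  have iN := EF_ii (g := fun _ v _ => ‖v‖) cN hu t z t t'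
  have iw := EF_ii (g := fun x v r => |κ r * D.F x v r - s|) cw hu t z t t'
  have iZ := EF_ii (g := fun x v r => l x v r - κ r * D.F x v r ^ 2 / 2 - s * D.Bt x r + s ^ 2 / 2 * (1 - (κ r)⁻¹)) cZ hu t z t t'
  have e0 : (∫ r in t..t', (l (traj t z u r) (u r) r - κ r * D.F (traj t z u r) (u r) r ^ 2 / 2 -
        s * D.Bt (traj t z u r) r + s ^ 2 / 2 * (1 - (κ r)⁻¹))) - ∫ r in t..t', fl s r =
      ∫ r in t..t', (l (traj t z u r) (u r) r - κ r * D.F (traj t z u r) (u r) r ^ 2 / 2 -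
        s * D.Bt (traj t z u r) r - (fl s r - s ^ 2 / 2 * (1 - (κ r)⁻¹))) := by
    rw [← intervalIntegral.integral_sub iZ ((hfc s).intervalIntegrable _ _)]
    refine intervalIntegral.integral_congr fun r _ => ?_
    ring
  rw [e0]
  have hp := EF_pieces (g := fun x v r => l x v r - κ r * D.F x v r ^ 2 / 2 - s * D.Bt x r - (fl s r - s ^ 2 / 2 * (1 - (κ r)⁻¹))) (e := fun x v r => D.F x v r - D.dB x r v)
    (w := fun x v r => |κ r * D.F x v r - s|) (q := fun _ v _ => ‖v‖) cX ce cw cN hδ0 hu (fun z t t' htt htt' =>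
    QR0_piece (s1 := 1) h hK hlc hMA hA hfc hC0 (fun x t t' ht => H1 x t t' (ht.trans hδ1'))
      (fun s t t' hs ht => H2 κ l fl hPk s t t' hs (ht.trans hδ2')) (H3 κ l fl hPk) hδ0 hδ4 hs hs hu z htt htt')
    n z t t' htt (by rw [hnδ]; exact htt')
  refine hp.trans ?_
  rw [← hG]
  have hN : (∫ r in t..t', ‖u r‖) ≤ D.A / D.mF *
      ((∫ r in t..t', |κ r * D.F (traj t z u r) (u r) r - s|) + s * (t' - t)) := by
    have e1 : D.A / D.mF * ((∫ r in t..t', |κ r * D.F (traj t z u r) (u r) r - s|) +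
        s * (t' - t)) = ∫ r in t..t', (D.A / D.mF * |κ r * D.F (traj t z u r) (u r) r - s| +
          D.A / D.mF * s) := by
      rw [intervalIntegral.integral_add (iw.const_mul _) intervalIntegrable_const,
        intervalIntegral.integral_const_mul, intervalIntegral.integral_const, smul_eq_mul]
      ring
    rw [e1]
    refine intervalIntegral.integral_mono_on htt iN
      ((iw.const_mul _).add intervalIntegrable_const) fun r _ => ?_
    have a1 := (h.fr0 r).fins.low (traj t z u r) (u r)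
    change D.mF * ‖u r‖ ≤ D.F (traj t z u r) (u r) r at a1
    have a2 := C6b_F0 h (traj t z u r) (u r) r
    have a3 := hK.pos r
    have a4 := le_abs_self (κ r * D.F (traj t z u r) (u r) r - s)
    have a5 : D.F (traj t z u r) (u r) r ≤ D.A * κ r * D.F (traj t z u r) (u r) r := by
      nlinarith
    have a6 : D.mF * ‖u r‖ ≤ D.A * (|κ r * D.F (traj t z u r) (u r) r - s| + s) := by
      have a7 : D.A * (κ r * D.F (traj t z u r) (u r) r) ≤
          D.A * (|κ r * D.F (traj t z u r) (u r) r - s| + s) :=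
        mul_le_mul_of_nonneg_left (by linarith) hA0.le
      have a8 : D.A * κ r * D.F (traj t z u r) (u r) r =
          D.A * (κ r * D.F (traj t z u r) (u r) r) := by ring
      linarith
    have e2 : D.A / D.mF * |κ r * D.F (traj t z u r) (u r) r - s| + D.A / D.mF * s =
        D.A * (|κ r * D.F (traj t z u r) (u r) r - s| + s) / D.mF := by ring
    rw [e2, le_div_iff₀ hmF]
    linarith
  have hexc := exc_nonneg h htt z hu
  unfold GT.exc at hexc ⊢
  have hdev : 0 ≤ ∫ r in t..t', |κ r * D.F (traj t z u r) (u r) r - s| :=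
    intervalIntegral.integral_nonneg htt fun r _ => abs_nonneg _
  generalize (∫ r in t..t', (D.F (traj t z u r) (u r) r - D.dB (traj t z u r) r (u r))) = I1 at *
  generalize (∫ r in t..t', |κ r * D.F (traj t z u r) (u r) r - s|) = I2 at *
  generalize (∫ r in t..t', ‖u r‖) = I3 at *
  have ht4 : t' - t ≤ 4 := by linarith
  have ht0 : 0 ≤ t' - t := by linarith
  have b1 : (MA * δ + (ε / 32 + ε / 32 + ε / 32) * s) * (t' - t) ≤ 4 * (MA * δ) + ε / 2 * s := by
    have c1 : (MA * δ + (ε / 32 + ε / 32 + ε / 32) * s) * (t' - t) ≤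
        (MA * δ + (ε / 32 + ε / 32 + ε / 32) * s) * 4 := by
      gcongr
    have c2 : 0 ≤ ε * s := by positivity
    linarith
  have b2 : δ * G * I3 ≤ δ * (G * D.A / D.mF) * I2 + ε / 2 * s := by
    have c1 : δ * G * I3 ≤ δ * G * (D.A / D.mF * (I2 + s * (t' - t))) :=
      mul_le_mul_of_nonneg_left hN (by positivity)
    have c2 : δ * G * (D.A / D.mF * (I2 + s * (t' - t))) =
        δ * (G * D.A / D.mF) * I2 + δ * (G * D.A / D.mF) * (t' - t) * s := by ring
    have c3 : δ * (G * D.A / D.mF) * (t' - t) * s ≤ δ * (G * D.A / D.mF) * 4 * s := by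
      gcongr
    have c4 : δ * (G * D.A / D.mF) * 4 * s ≤ ε / 2 * s := by gcongr
    linarith
  have b3 : 0 ≤ (n * C + 4 * (MA * δ) + δ * (G * D.A / D.mF)) * I1 := by positivity
  have b4 : 0 ≤ (n * C + 4 * (MA * δ)) * I2 := by positivity
  have b5 : 0 ≤ δ * (G * D.A / D.mF) := by positivity
  have e : ε * s + (n * C + C + 4 * (MA * δ) + δ * (G * D.A / D.mF)) * (1 + I1 + I2) =
      (n * C + (4 * (MA * δ) + ε / 2 * s) + C * I1 + C * I2 +
        (δ * (G * D.A / D.mF) * I2 + ε / 2 * s)) + C + δ * (G * D.A / D.mF) +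
      (n * C + 4 * (MA * δ) + δ * (G * D.A / D.mF)) * I1 + (n * C + 4 * (MA * δ)) * I2 := by ring
  rw [e]
  linarith

end EscZ
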