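import Pool.Agent.EscW.QR0a
import Pool.Agent.EscW.QR0c

/-!
Project EscW, part Q (MP_6acca1_an): the flux property, uniformly in the weight and the function.
-/

noncomputable section

namespace EscZ

open MeasureTheory Set Filter Topology Esc EscF EscG EscT EscP
open scoped ContDiff

variable {ι : Type} [Fintype ι] {E : Type*} [NormedAddCommGroup E] [InnerProductSpace ℝ E]
  [FiniteDimensional ℝ E] {M MA : ℝ}
variable {β : Module.Basis ι ℝ E} {F : E → E → ℝ → ℝ} {mF MF A : ℝ} {κ0 : ℝ → ℝ} {B : E → ℝ → ℝ} {k0 : ι}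
  {len : ℝ} {c c' ct : ℝ → ℝ → E}

theorem QR0b_aux (h : CalT β F mF MF A κ0 B k0 len c c' ct) (hN : DN β F B c c') (hM : 0 ≤ M) (hMA : 0 ≤ MA) :
    ∃ (A1 a0 : ℝ) (cc : ℝ → ℝ), 0 ≤ A1 ∧ 0 < a0 ∧ (∀ ε, 0 ≤ cc ε) ∧ ∀ (κ : ℝ → ℝ) (l : E → E → ℝ → ℝ),
      KB A κ → CT β M l → AT F κ MA l → ∀ (a : ℝ → ℝ → ℝ) (κ1 : ℝ → ℝ) (A2 : ℝ) (g : E),
      FX (gdT β F mF MF A2 κ1 B k0 len c g) ⟨M, A1, a0, a, cc⟩ κ (flT F κ B l len c c') l := by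
  obtain ⟨C, hC0, hreg, hΛ⟩ := QR0_flT_reg h hM hMA
  obtain ⟨A1, hA1, hok⟩ := gdT_ok0 h
  have h0 := hok A1 le_rfl 0
  have hA0 := h.A_pos
  have key := fun (ε : ℝ) (hε : 0 < ε) => QR0_main h0 hMA
    (P := fun κ l fl => KB A κ ∧ CT β M l ∧ AT F κ MA l ∧ fl = flT F κ B l len c c')
    (fun κ l fl hP => by
      obtain ⟨h1, h2, h3, rfl⟩ := hP
      exact ⟨h1.mono hA1, h2.cont, h3, (hreg κ l h1 h2 h3).1⟩)
    (fun ε hε => by
      obtain ⟨δ, hδ, H⟩ := hΛ ε hε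
      refine ⟨δ, hδ, fun κ l fl hP => ?_⟩
      obtain ⟨h1, h2, h3, rfl⟩ := hP
      exact H κ l h1 h2 h3)
    (fun ε hε => by
      obtain ⟨C, hC, H⟩ := QR0_flT_frozen h hN hM hMA hε
      refine ⟨C, hC, fun κ l fl hP => ?_⟩
      obtain ⟨h1, h2, h3, rfl⟩ := hP
      exact H κ l h1 h2 h3) hε
  choose K hK0 hK using key
  refine ⟨C, A⁻¹, fun ε => if hε : 0 < ε then K ε hε else 0, hC0, by positivity, fun ε => ?_,
    fun κ l hκ hl hA a κ1 A2 g => ?_⟩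
  · show 0 ≤ (if hε : 0 < ε then K ε hε else 0)
    split_ifs with hε
    · exact hK0 ε hε
    · exact le_rfl
  obtain ⟨a1, a2, a3, a4, a5⟩ := hreg κ l hκ hl hA
  refine ⟨hC0, ?_, ?_, a1, a2, a3, a5, ?_, ?_⟩
  · show 0 < A⁻¹
    positivity
  · intro ε
    show 0 ≤ (if hε : 0 < ε then K ε hε else 0)
    split_ifs with hε
    · exact hK0 ε hε
    · exact le_rfl
  · intro s t hs
    show flT F κ B l len c c' s t ≤ s ^ 2 / 2 * (1 - A⁻¹) + C * s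
    have h1 := (abs_le.1 (a4 s t hs)).2
    have h2 : A⁻¹ ≤ (κ t)⁻¹ := inv_anti₀ (hκ.pos' t) (hκ.le t)
    have h3 : s ^ 2 / 2 * (1 - (κ t)⁻¹) ≤ s ^ 2 / 2 * (1 - A⁻¹) := by
      apply mul_le_mul_of_nonneg_left (by linarith) (by positivity)
    linarith
  · intro ε hε s hs z u hu t t' htt htt'
    have h1 := hK ε hε κ l _ ⟨hκ, hl, hA, rfl⟩ s hs z u hu t t' htt htt'
    show |(∫ r in t..t', (l (traj t z u r) (u r) r - κ r * F (traj t z u r) (u r) r ^ 2 / 2 -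
        s * deriv (fun a => B (traj t z u r) a) r + s ^ 2 / 2 * (1 - (κ r)⁻¹))) -
        ∫ r in t..t', flT F κ B l len c c' s r| ≤
      ε * s + (if hε : 0 < ε then K ε hε else 0) * (1 + (∫ r in t..t',
        (F (traj t z u r) (u r) r - fderiv ℝ (fun y => B y r) (traj t z u r) (u r))) +
        ∫ r in t..t', |κ r * F (traj t z u r) (u r) r - s|)
    rw [dif_pos hε]
    exact h1

/-- the flux property, for all weights and functions with given bounds -/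
theorem FX_unif (h : CalT β F mF MF A κ0 B k0 len c c' ct) (hN : DN β F B c c') {A' : ℝ} (hM : 0 ≤ M)
    (hMA : 0 ≤ MA) :
    ∃ (A1 a0 : ℝ) (cc : ℝ → ℝ), 0 ≤ A1 ∧ 0 < a0 ∧ (∀ ε, 0 ≤ cc ε) ∧ ∀ (κ : ℝ → ℝ) (l : E → E → ℝ → ℝ),
      KB A' κ → CT β M l → AT F κ MA l → ∀ (a : ℝ → ℝ → ℝ) (κ1 : ℝ → ℝ) (A2 : ℝ) (g : E),
      FX (gdT β F mF MF A2 κ1 B k0 len c g) ⟨M, A1, a0, a, cc⟩ κ (flT F κ B l len c c') l := by
  have hA : A ≤ max A A' := le_max_left _ _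
  obtain ⟨A1, a0, cc, h1, h2, h3, H⟩ := QR0b_aux (calT_rep h hA ((calT_kb h).mono hA)) hN hM hMA
  exact ⟨A1, a0, cc, h1, h2, h3, fun κ l hκ hl hA a κ1 A2 g =>
    H κ l (hκ.mono (le_max_right _ _)) hl hA a κ1 A2 g⟩

end EscZ
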