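import Pool.Agent.EscW.PRDefs
import Pool.Agent.EscW.QK

/-!
Project EscW, part Q (MP_6acca1_an): functions with known action for a weight `K`, uniformly in `K`. Definitions.
-/

noncomputable section

namespace EscZ

open MeasureTheory Set Filter Topology Esc EscF EscG EscT
open scoped ContDiff

variable {E : Type*} [NormedAddCommGroup E] [InnerProductSpace ℝ E]

/-- functions whose action is known up to a small multiple of the speed and a multiple of the excess, for the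
weight `K` and the flux function `Φ` (the field `L.a` is not used) -/
structure FX {ι : Type} [Fintype ι] {d : ℕ} (D : GT ι d E) (L : LP) (K : ℝ → ℝ) (Φ : ℝ → ℝ → ℝ)
    (l : E → E → ℝ → ℝ) : Prop where
  A_nonneg : 0 ≤ L.A
  a0_pos : 0 < L.a0
  c_nonneg : ∀ ε, 0 ≤ L.c ε
  a_cont : ∀ s, Continuous (Φ s)
  a_per : ∀ s t, Φ s (t + 1) = Φ s t
  a_bd : ∀ s t, 1 ≤ s → |Φ s t| ≤ L.A * s ^ 2
  a_lip : ∀ s s' t, 1 ≤ s → 1 ≤ s' → |Φ s t - Φ s' t| ≤ L.A * (s + s') * |s - s'|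
  a_top : ∀ s t, 1 ≤ s → Φ s t ≤ s ^ 2 / 2 * (1 - L.a0) + L.A * s
  flux : ∀ ε : ℝ, 0 < ε → ∀ s : ℝ, 1 ≤ s → ∀ (z : E) (u : ℝ → E), Adm u → ∀ t t' : ℝ, t ≤ t' → t' ≤ t + 4 →
    |(∫ r in t..t', (l (traj t z u r) (u r) r - K r * D.F (traj t z u r) (u r) r ^ 2 / 2 -
        s * D.Bt (traj t z u r) r + s ^ 2 / 2 * (1 - (K r)⁻¹))) - ∫ r in t..t', Φ s r| ≤
      ε * s + L.c ε * (1 + D.exc t t' z u +
        ∫ r in t..t', |K r * D.F (traj t z u r) (u r) r - s|)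

end EscZ
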