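import Pool.Agent.EscW.QDefs3
import Pool.Agent.EscW.QT1
import Pool.Agent.EscW.QT3
import Pool.Agent.EscW.QS1

/-!
Module QT4: the three facts used in the W-level. `IsSeq` from `exists_seq` (QS1) with the `q0` of `TrFam`, `lt i` chosen; QT1, QT3.
-/

noncomputable section

namespace EscZ

open MeasureTheory Set Filter Topology Esc EscF EscG EscT
open scoped ContDiff

variable {ι : Type} [Fintype ι] {d : ℕ} {E : Type*} [NormedAddCommGroup E] [InnerProductSpace ℝ E]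
  [FiniteDimensional ℝ E] {D : GT ι d E} {p : GP} {m M Mf : ℝ} {L : LP} {l0 l1 l2 ll l : E → E → ℝ → ℝ}
  {f f' : E → ℝ → ℝ}

theorem trio {S : SG D.β} (h : D.Ok) (hp : POk D p) (hG : PG D p S) {Cg : ℝ} {g : ℝ → ℝ} (hg : Gr Cg g) {M2 m2 : ℝ}
    (hl2 : TG D.β m2 M2 l2) (hT : TrFam D g l2) : ∃ Q : ℕ → (E → ℝ → ℝ) → Prop,
    (∀ i f, Pt D.β f → Q i f →
      ∃ ρ : ℝ, 0 < ρ ∧ ∀ f', Pt D.β f' → (∀ x t, |f x t - f' x t| ≤ ρ) → Q i f') ∧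
    (∀ Mf : ℝ, 0 ≤ Mf → ∃ i0 : ℕ, ∀ (N : SmNorm D.β) (i : ℕ), i0 ≤ i → ∀ f, Pt D.β f → Good Mf f → ∀ ε : ℝ, 0 < ε →
      ∃ G, S.mem G ∧ N.nm G ≤ ε ∧ Q i (fun x t => f x t + G x t)) ∧
    ∀ Mf : ℝ, 0 ≤ Mf → ∃ i0 : ℕ, ∀ i1 : ℕ, i0 ≤ i1 → ∀ f, Pt D.β f → Good Mf f → (∀ i : ℕ, i1 ≤ i → Q i f) →
      ∀ x0 ∈ (D0 D).C p, EscapesFrom (fun x v t => g (l2 x v t)) f x0 (Near D p) := by
  obtain ⟨m, L, κ, Cκ, K, η, J, q0, hη, hK, hq0, hJ, hκ, hκ', hκl, hTr⟩ := hT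
  obtain ⟨q, hqz, hqs, hqt⟩ := exists_seq hg hq0
  have hq : IsSeq g q := by
    refine ⟨by rw [hqz]; exact hq0, fun i => ?_, hqt⟩
    obtain ⟨h1, h2, h3⟩ := hqs i
    exact ⟨h1, h2, h3⟩
  have hqm : ∀ i, q0 ≤ q i := by
    intro i
    induction i with
    | zero => exact le_of_eq hqz.symm
    | succ n ih => exact ih.trans (hqs n).1
  choose lt hlt using fun i => hTr (q i) (hqm i)
  have hFW : ∀ i, FW D m L (q i) (lt i) := fun i => (hlt i).fw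
  have hTG : ∀ i, TG D.β m L.M (lt i) := fun i =>
    ((hFW i).ft (q i) (by rw [sub_self, abs_zero]; norm_num)).toTG
  exact ⟨fun i f => St D p g q lt i f,
    fun i f hf hS => St_open h hp hg hq hTG i hf hS,
    fun Mf hMf => St_dense S h hp hG hg hq hFW hMf,
    fun Mf hMf => St_escapes h hp hg hl2 hη hK hJ hκ hκ' hκl hq hlt hMf⟩

end EscZ
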