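import Pool.Agent.EscW.QX1
import Pool.Agent.EscW.QX5
import Pool.Agent.EscW.QW2

/-!
Module PW3: copy of `LL1_main_geoW` (LL1.lean) with `exists_dataP`, `staysG`, `backG` (`EscMT.escK_of_escT` for `g ∘ Lt`: it does not depend on the Lagrangian).
-/

set_option autoImplicit false

noncomputable section

namespace EscW.Zg

open MeasureTheory Set Filter Topology Esc EscF EscG EscM EscMT EscF.T EscW EscW.Lo
open scoped ContDiff UniformConvergence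

variable {d m : ℕ} {M : Sub d} {M' : Sub m} {O K : Set (Vec m)} {G : Subgroup (Vec m ≃ₗᵢ[ℝ] Vec m)}
  {φ : Vec m → Vec d} {κ : ℝ → ℝ} {F : Vec d → Vec d → ℝ → ℝ} {L : Lag d} {B : Vec m → ℝ → ℝ} {i : Fin m}
  {len a : ℝ} {c : ℝ → ℝ → Vec m} {ρ a0 : ℝ} {Ψ Ψ₂ χ : Vec m → ℝ} {R : Vec m → Vec m} {ℓ : Vec m →L[ℝ] ℝ} {k : ℕ∞}

theorem main_geoG (hk : 2 ≤ k) (hC : CutW M' O K B ρ a0 Ψ Ψ₂ ℓ) (hT : TubeW M' O K ρ a0 χ R)
    (hφ : IsChart M M' O G φ) {W : Set (Vec d)} (hW : ∀ x ∈ K, Ov W (φ x)) (hκ : IsWeight κ)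
    (hF : IsFinslerT M F) (hL : IsNearT M κ F L)
    (hc : IsCalibratedW M' O φ (pull φ F) B i len c) (hR : IsRoom M' O K (pull φ F) B i c a)
    {e : ℝ} {g : ℝ → ℝ} (hg : EscZ.Gr e g) {δ0 : ℝ} (hδ0 : 0 < δ0) :
    ∃ (l : Vec m → Vec m → ℝ → ℝ) (m' M₁ : ℝ) (D : EscT.GT (Fin m) 1 (Vec m)) (p : GP)
      (x0 : Vec m), D.β = bas m ∧ D.Ok ∧ EscT.TG D.β m' M₁ l ∧ EscZ.TrFam D g l ∧ EscT.POk D p ∧
      x0 ∈ (EscT.D0 D).C p ∧ 8 * p.ηc ≤ δ0 ∧ (∀ t, D.Z t = Set.range fun σ => c σ t) ∧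
      ∀ (f : EscM.Pot M k) (h : YW M' K a0 k), VW M' K ρ a0 (fw φ χ R f h.1) →
        EscT.EscapesFrom (fun x v t => g (l x v t)) (fw φ χ R f h.1) x0 (EscT.Near D p) →
        EscapesIn M W (fun q => g (L q) + f.toFun (q.1, q.2.2)) := by
  have hρ := hC.ρ_pos
  obtain ⟨Λ₁, mF, MF, A, m₁, M₁, -, hM₁, hFP, hCP, hLS, hAP, hRP⟩ := exists_level hC hφ hκ hF hL hc hR
  obtain ⟨Λ, m1, M2, D, hΛ, hβ, hOk, hZ, hTG, hTr, hp⟩ :=
    exists_dataP hC.tb hFP hCP hRP hLS hAP hM₁ (ρ := ρ / 2) (by linarith) (by linarith) hg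
  obtain ⟨p, hpOk, hηc, hnear, x0, hx0, hx0K⟩ := hp (min (ρ / 2) δ0) (lt_min (by linarith) hδ0)
  refine ⟨_, m1, M2, D, p, x0, hβ, hOk, hTG, hTr, hpOk, hx0, hηc.trans (min_le_right _ _),
    hZ, ?_⟩
  intro f h hv he
  have hTG2 : EscT.TG (bas m) m1 M2 (Lt M'.N M'.r (ρ / 2) Λ (L1 φ L Ψ Λ₁)) := by
    rw [← hβ]
    exact hTG
  have hPt := fw_pt hk hφ hT f h.1
  obtain ⟨ε, hε, hv2⟩ := hv
  have hsign : ∀ x, Metric.infDist x M'.N < ρ / 2 → M'.r x ∈ K → ∀ t,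
      0 ≤ fderiv ℝ (fun y => fw φ χ R f h.1 y t) x (x - M'.r x) := by
    intro x hx hK t
    have h0 : Metric.infDist (M'.r x) K ≤ a0 := by
      rw [Metric.infDist_zero_of_mem hK]
      exact hC.a0_pos.le
    have h1 := hv2 x (by linarith) h0 t
    have h2 : 0 ≤ ε * ‖x - M'.r x‖ ^ 2 := by positivity
    exact h2.trans h1
  have he1 : EscK.EscapesFrom (fun x v t => g (Lt M'.N M'.r (ρ / 2) Λ (L1 φ L Ψ Λ₁) x v t))
      (fw φ χ R f h.1) x0 {x | Metric.infDist x M'.N < ρ / 2 ∧ M'.r x ∈ K} :=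
    escK_of_escT he fun t x hx => ⟨(hnear t hx).1.trans_le (min_le_left _ _), (hnear t hx).2⟩
  have he2 := staysG hC.tb hLS (by linarith) (by linarith) hΛ hTG2 hg hPt hC.subK hsign (hC.subK hx0K) he1
  exact backG hk hC hT hφ hW hL hg (by linarith) (by linarith) hΛ hLS hTG2 f h hPt.smooth he2

end EscW.Zg
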