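import Pool.Agent.EscW.QW3
import Pool.Agent.EscW.QT4
import Pool.Agent.EscW.LL1

/-!
Module PW4: copy of `result_in` (LL1.lean) with `main_geoG` and `EscZ.trio` (PT4).
-/

set_option autoImplicit false

noncomputable section

namespace EscW.Zg

open MeasureTheory Set Filter Topology Esc EscF EscG EscM EscMT EscF.T EscW EscW.Lo
open scoped ContDiff UniformConvergence

variable {d m : ℕ} {M : Sub d} {M' : Sub m} {O K : Set (Vec m)} {G : Subgroup (Vec m ≃ₗᵢ[ℝ] Vec m)}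
  {φ : Vec m → Vec d} {κ : ℝ → ℝ} {F : Vec d → Vec d → ℝ → ℝ} {L : Lag d} {B : Vec m → ℝ → ℝ} {i : Fin m}
  {len a : ℝ} {c : ℝ → ℝ → Vec m} {ρ a0 : ℝ} {Ψ Ψ₂ χ : Vec m → ℝ} {R : Vec m → Vec m} {ℓ : Vec m →L[ℝ] ℝ} {k : ℕ∞}

theorem result_inG {M : Sub d} {W : Set (Vec d)} {k : ℕ∞} {L : Lag d} (hk : 2 ≤ k) (hL : InClassIn M W L)
    {e : ℝ} {g : ℝ → ℝ} (hg : EscZ.Gr e g) :
    {f : EscM.Pot M k | EscapesIn M W (fun q => g (L q) + f.toFun (q.1, q.2.2))} ∈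
      residual (EscM.Pot M k) := by
  obtain ⟨κ, F, m, M', O, K, G, φ, B, i, len, a, c, hκ, hF, hL, hφ, hW, hc, hR⟩ := hL
  obtain ⟨ρ, a0, Ψ, Ψ₂, ℓ, χ, R, hC, hT⟩ := exists_cut hφ hc hR
  obtain ⟨δ0, hδ0, hsep⟩ := exists_sepW hφ hc
  obtain ⟨l, m', M₁, D, p, x0, hβ, hD, hl, hTr, hp, hx0, hpδ, hZ, hback⟩ :=
    main_geoG (k := k) hk hC hT hφ hW hκ hF hL hc hR hg hδ0
  have hne : M'.N.Nonempty := ⟨c 0 0, (hc.mem 0 0).1⟩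
  obtain ⟨ρ1, χ1, R1, hT1⟩ := exists_tube M' hne
  obtain ⟨S1, hS1⟩ := exists_SM hT1
  obtain ⟨S0, hS0G, hS0⟩ := exists_SW hφ hne S1 hS1
  obtain ⟨S, hSG, hS⟩ : ∃ S : EscT.SG D.β, (∀ P, P ∈ S.G ↔ P ∈ G) ∧
      ∀ g, S.mem g ↔ MClW M' G g := by
    rw [hβ]
    exact ⟨S0, hS0G, hS0⟩
  have hPG : EscT.PG D p S := EscQ.QFinal_PG hβ hZ hpδ (G := {P | P ∈ G})
    (fun P hP => hsep P hP) S fun P hP => (hSG P).1 hP
  have hp1 : ∀ f : Vec m → ℝ → ℝ, Pt (bas m) f → Pt D.β f := fun f hf => by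
    rw [hβ]
    exact hf
  obtain ⟨Q, hQo, hQd, hQe⟩ := EscZ.trio (S := S) hD hp hPG hg hl hTr
  have hres := residual_W (k := k) hk hφ hT Q
    (fun f => EscT.EscapesFrom (fun x v t => g (l x v t)) f x0 (EscT.Near D p)) ?_ ?_ ?_
  · filter_upwards [hres] with f hf
    obtain ⟨h, hv, he⟩ := hf
    exact hback f h hv he
  · intro q f hf hSt
    obtain ⟨r, hr, h⟩ := hQo q f (hp1 f hf) hSt
    exact ⟨r, hr, fun f' hf' hd => h f' (hp1 f' hf') hd⟩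
  · intro a
    obtain ⟨q0, h⟩ := hQd (a : ℝ) (Nat.cast_nonneg a)
    refine ⟨q0, ?_⟩
    rw [← hβ]
    intro N q hq f hf hg ε hε
    obtain ⟨g, h1, h2, h3⟩ := h N q hq f hf hg ε hε
    exact ⟨g, (hS g).1 h1, h2, h3⟩
  · intro a
    obtain ⟨q0, h⟩ := hQe (a : ℝ) (Nat.cast_nonneg a)
    exact ⟨q0, fun q1 hq1 f hf hg hst => h q1 hq1 f (hp1 f hf) hg hst x0 hx0⟩

end EscW.Zg
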