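import Pool.Agent.EscW.QW4
import Pool.Agent.EscW.LL7

/-!
Module QW5: copy of `open_in` (LL7.lean) for `g ∘ L`: the same `w`, `R`, `δ` (they come from `Fo.open_all` and do not depend on `κ`, `L`, `g`); `result_inG` in place of `result_in`.
-/

set_option autoImplicit false

noncomputable section

namespace EscW.Zg

open Filter Topology Set EscF.T EscM EscMT EscW EscW.Lo MeasureTheory
open scoped ContDiff

variable {d m k j n : ℕ}

theorem open_inG {M : Sub d} {y0 u v : Vec d} (hy : y0 ∈ M.N) (hu : IsTangent M y0 u)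
    (hv : IsTangent M y0 v) (huv : LinearIndependent ℝ ![u, v])
    {W : Set (Vec d)} (hW : IsOpen W) (hy0 : y0 ∈ W) {F : Vec d → Vec d → ℝ → ℝ}
    (hF : IsFinslerOn M W ∞ F) (hFc : IsConvexOn M W F) {ε : ℝ} (hε : 0 < ε) :
    ∃ w : Vec d → ℝ → ℝ, Fn.IsConfT M W ε w ∧ ∃ R δ : ℝ, 0 < R ∧ 0 < δ ∧ ∀ κ : ℝ → ℝ, IsWeight κ →
      ∀ (e : ℝ) (g : ℝ → ℝ), EscZ.Gr e g →
      (∀ F' : Vec d → Vec d → ℝ → ℝ, IsFinslerOn M W 2 F' →
        Fo.Close2F M W R δ (fun x v t => w x t * F x v t) F' → ∀ L : Lag d, IsNearOn M W κ F' L →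
          ∀ k : ℕ∞, 2 ≤ k → {f : Pot M k | EscapesIn M W (fun q => g (L q) + f.toFun (q.1, q.2.2))} ∈
            residual (Pot M k)) ∧
      ∀ L : Lag d, IsNearOn M W κ F L → ∀ k : ℕ∞, 2 ≤ k →
        {f : Pot M k | EscapesIn M W (fun q => g (w q.1 q.2.2 ^ 2 * L q) + f.toFun (q.1, q.2.2))} ∈
          residual (Pot M k) := by
  obtain ⟨W1, χ, hW1, hy1, hsub, hχ, hχ1⟩ := Lo.exists_cut hy hW hy0
  have hF2 := LL7_of_le hF
  have hS : Fn.IsSmoothFinslerT M W1 (gl χ (fun _ => 1) F) := by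
    refine ⟨gl_fins hW hχ LL7_one hF2, LL7_smooth hsub hχ1 _ hF,
      fun x hx hxW v w t hv hw hv0 hw0 => ?_⟩
    have e : (fun u => gl χ (fun _ => 1) F x (fderiv ℝ M.r x u) t ^ 2) =
        fun u => F x (fderiv ℝ M.r x u) t ^ 2 := by
      funext u
      have h2 := LL7_ext hsub hχ1 (fun _ => 1) hF (z := (x, u)) (M.sub hx)
        (by rw [LL7_r hx]; exact hxW) t
      simp only [LL7_r hx] at h2
      rw [h2]
    rw [e]
    exact hFc x hx (LL7_mono hsub hxW) v w t hv hw hv0 hw0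
  obtain ⟨w, hw, R, δ, hR, hδ, hop⟩ := Fo.open_all hy hu hv huv hW1 hy1 hS hε
  have hw' := LL7_conf hsub hw
  have main : ∀ κ : ℝ → ℝ, IsWeight κ → ∀ (e : ℝ) (g : ℝ → ℝ), EscZ.Gr e g →
      ∀ F' : Vec d → Vec d → ℝ → ℝ, IsFinslerOn M W 2 F' →
      Fo.Close2F M W R δ (fun x v t => w x t * F x v t) F' → ∀ L : Lag d, IsNearOn M W κ F' L →
        ∀ k : ℕ∞, 2 ≤ k → {f : Pot M k | EscapesIn M W (fun q => g (L q) + f.toFun (q.1, q.2.2))} ∈
          residual (Pot M k) := by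
    intro κ hκ e g hg F' hF' hcl L hL k hk
    have h1 := hop (gl χ κ F') (gl_fins hW hχ hκ hF')
      (LL7_close hW1 hsub hχ1 (fun _ => 1) κ hF hF' hR hcl) κ hκ (glL χ L)
      (gl_near hW hχ hκ hF' hL)
    refine Filter.mem_of_superset (result_inG hk h1 hg) fun f hf => ?_
    refine escapesIn_mono hsub (escapesIn_congr hW1 (fun x hx hxW v t hv => ?_) hf)
    simp only [glL]
    rw [hχ1 x hx hxW, one_mul, sub_self, zero_mul, add_zero]
  refine ⟨w, hw', R, δ, hR, hδ, fun κ hκ e g hg => ⟨main κ hκ e g hg, fun L hL k hk => ?_⟩⟩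
  have h1 : IsFinslerOn M W 2 (fun x v t => w x t * F x v t) :=
    conf_fins_on (r := 2) hw' hF2
  refine main κ hκ e g hg _ h1 ⟨h1.smooth, fun t x hx hxW v hv hv1 hv2 i hi => ?_⟩ _
    (conf_near_on hw' hF2 hκ hL) k hk
  have e0 : (fun z => On.ext M (fun x v => w x t * F x v t) z -
      On.ext M (fun x v => w x t * F x v t) z) = fun _ => (0 : ℝ) := by
    funext z
    exact sub_self _
  rw [e0, iteratedFDeriv_fun_zero]
  simpa using hδ.le

end EscW.Zg
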