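import Pool.Agent.EscW.QDefs3
import Pool.Agent.EscW.X4
import Pool.Agent.EscW.QG9

/-!
Module PX1: the gap data for the exponent `e` (compare `exists_dataW` in X4.lean, `EscT.gdT_ok`). As there until `hcal : CalT β F' mF' MF' A1 κ B' ...`
(`F' = Fs N r ρ Λ κ F`); `trFam` (PG9, PG0 by helper29: `EscP.trFam_of_CalT`, `CalT.kh`) gives `CalT` for the weight `EscP.kh e κ` and `TrFam`. `D = gdT β F' mF' MF' A' (kh e κ) B' k0 len c g`. The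
facts on the rooms (`secUs`, `near_smallW`) need `D` with the weight `κ`: `Us`, `Z`, `j`, `Near`, `C`, `R` do not depend on `κ`, `A` (definitional), and
`POk` as well; the basic facts hold for all larger `A` (`gdT_ok0`), so that both `gdT ... A' κ ... g` and `gdT ... A' (kh e κ) ... g` are `Ok` for the same `g`.
-/

set_option autoImplicit false

noncomputable section

namespace EscW.Zg

open MeasureTheory Set Filter Topology Esc EscF EscG EscM EscMT EscW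
open scoped ContDiff

variable {ι : Type} [Fintype ι] {E : Type*} [NormedAddCommGroup E] [InnerProductSpace ℝ E]
  [FiniteDimensional ℝ E] {β : Module.Basis ι ℝ E} {N : Set E} {r : E → E} {R : ℝ}
variable {F : E → E → ℝ → ℝ} {mF MF A m M : ℝ} {κ : ℝ → ℝ} {B : E → ℝ → ℝ} {k0 : ι} {len : ℝ}
  {c c' ct : ℝ → ℝ → E} {L : E → E → ℝ → ℝ} {ρ : ℝ}

theorem exists_dataP (h : Tb β N r R) (hF : FinsP β N r F mF MF A κ)
    (hc : CalP β N r R F A B k0 len c c' ct) {K : Set E} {a : ℝ}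
    (hK : RoomP β N K F B k0 c a)
    (hL : LagS β N r R m L) (hA : AP N r F κ M L) (hM : 0 ≤ M) (hρ : 0 < ρ) (hR : 5 * ρ < R)
    {e : ℝ} {g : ℝ → ℝ} (hg : EscZ.Gr e g) :
    ∃ (Λ m' M' : ℝ) (D : EscT.GT ι 1 E), 0 < Λ ∧ D.β = β ∧ D.Ok ∧
      (∀ t, D.Z t = Set.range fun σ => c σ t) ∧ EscT.TG D.β m' M' (Lt N r ρ Λ L) ∧
      EscZ.TrFam D g (Lt N r ρ Λ L) ∧
      ∀ δ : ℝ, 0 < δ → ∃ p : GP, EscT.POk D p ∧ 8 * p.ηc ≤ δ ∧
        (∀ t, EscT.Near D p t ⊆ {x | Metric.infDist x N < δ ∧ r x ∈ K}) ∧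
        ∃ x0 ∈ (EscT.D0 D).C p, x0 ∈ K := by
  have hKe : ExitK β N F B c K a := hK.exitK h hF hc
  obtain ⟨t, v0, u, hsec⟩ := hK.secK h hF hc
  obtain ⟨ℓ, C, hext⟩ := exists_extP h hF hc hρ hR
  obtain ⟨Λ, hΛ0, hΛ1, hΛ2⟩ := X4_weight a C (one_le_A hF) hρ
  have hE := hext Λ hΛ1
  have hR2 : 2 * ρ < R := by linarith
  obtain ⟨mF', MF', hf⟩ := Fs_fins h hF hρ hR2 hΛ0
  obtain ⟨m', M', hTG, hAT⟩ := Lt_tg h hF hL hA hM hρ hR2 hΛ0
  obtain ⟨A1, hcal⟩ := hE.calT hf hTG hAT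
  obtain ⟨k1, hk1⟩ := X4_exists_ne hsec.v0_mem hsec.v0_not
  obtain ⟨A3, g0, hOk⟩ := EscT.gdT_ok hcal hk1
  obtain ⟨A4, -, hok1⟩ := EscT.gdT_ok0 hcal
  obtain ⟨A0, hTr⟩ := EscZ.trFam_gen hcal hTG hAT hg
  have hOk1 : (EscT.gdT β (Fs N r ρ Λ κ F) mF' MF' (max A4 A0) κ (Bs N r ρ B ℓ) k0 len c g0).Ok :=
    { toOk0 := hok1 _ (le_max_left _ _) g0, g_mem := hOk.g_mem, g_not := hOk.g_not, g_min := hOk.g_min }
  have hUa : (EscT.gdT β (Fs N r ρ Λ κ F) mF' MF' (max A4 A0) κ (Bs N r ρ B ℓ) k0 len c g0).Us < a :=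
    secUs hE hKe hOk1 hsec
  refine ⟨Λ, m', M', _, hΛ0, rfl, hOk1, fun _ => rfl, hTG, hTr _ (le_max_right _ _) κ g0, fun δ hδ => ?_⟩
  obtain ⟨p, hp, h1, h2, x0, hx0, h3⟩ := near_smallW hE hf hKe hOk1 (hUa.trans hΛ2) hUa hδ
  exact ⟨p, hp, h1, h2, x0, hx0, h3⟩

end EscW.Zg
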