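import Pool.Agent.EscW.RmDefs

set_option autoImplicit false

/-!
Conformal factors on a closed submanifold `M` of a torus (`EscM.Sub`), and time-periodic families of Finsler metrics
near a Riemannian metric.
-/

noncomputable section

namespace EscW.Rm

open Filter Topology Set EscF.T EscM
open scoped ContDiff

variable {d : ℕ}

/-- A conformal factor on `M`: a smooth positive function `w` with `|w - 1| ≤ ε`, equal to one outside of
`W + ℤᵈ`. -/
structure IsConformal (M : Sub d) (W : Set (Vec d)) (ε : ℝ) (w : Vec d → ℝ) : Prop where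
  smooth : ContDiffOn ℝ ∞ (fun x => w (M.r x)) M.U
  periodic : ∀ (l : Fin d → ℤ), ∀ x ∈ M.N, w (x + vz l) = w x
  near : ∀ x ∈ M.N, |w x - 1| ≤ ε
  pos : ∀ x ∈ M.N, 0 < w x
  off : ∀ x ∈ M.N, (∀ l : Fin d → ℤ, x + vz l ∉ W) → w x = 1

/-- the family `F` of metrics, as a function on a neighbourhood of the tangent vectors -/
def ext (M : Sub d) (F : Vec d → Vec d → ℝ → ℝ) (x v : Vec d) (t : ℝ) : ℝ := F (M.r x) (fderiv ℝ M.r x v) t

/-- At the points of `M` in `W + ℤᵈ`, the family `F` is of class `C²` in position, velocity and time, for nonzero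
tangent vectors. -/
def IsC2 (M : Sub d) (W : Set (Vec d)) (F : Vec d → Vec d → ℝ → ℝ) : Prop :=
  ContDiffOn ℝ 2 (fun p : Vec d × Vec d × ℝ => ext M F p.1 p.2.1 p.2.2)
    {p | p.1 ∈ M.U ∧ (∃ l : Fin d → ℤ, M.r p.1 + vz l ∈ W) ∧ fderiv ℝ M.r p.1 p.2.1 ≠ 0}

/-- At the points `x` of `M` in `W + ℤᵈ`, for every time `t`, the derivatives of order at most two in `(x, v)` of the
difference of `F` and `F0` are at most `δ`, for the tangent vectors `v` with `1 / R ≤ ‖v‖ ≤ R`. -/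
def IsClose (M : Sub d) (W : Set (Vec d)) (R δ : ℝ) (F0 F : Vec d → Vec d → ℝ → ℝ) : Prop :=
  ∀ x ∈ M.N, (∃ l : Fin d → ℤ, x + vz l ∈ W) → ∀ v, IsTangent M x v → 1 / R ≤ ‖v‖ → ‖v‖ ≤ R →
    ∀ (t : ℝ) (i : ℕ), i ≤ 2 →
      ‖iteratedFDeriv ℝ i (fun p : Vec d × Vec d => ext M F p.1 p.2 t - ext M F0 p.1 p.2 t) (x, v)‖ ≤ δ

end EscW.Rm
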