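import Pool.Agent.EscW.RmDefs
import Pool.Agent.EscW.D6

set_option autoImplicit false

/-!
Riemannian metrics as plain functions (`EscW.Rm`) and as bilinear forms (`EscW.Dn`).
-/

noncomputable section

namespace EscW.Rm

open Filter Topology Set EscF.T EscM EscMT
open scoped ContDiff

variable {d : ℕ} {M : Sub d} {j : ℕ∞}

theorem tangent_fderiv {x : Vec d} (hx : x ∈ M.N) (u : Vec d) : IsTangent M x (fderiv ℝ M.r x u) := by
  have h := EscW.Dn.D6_rr M (M.sub hx) u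
  rwa [r_self M hx] at h

theorem exists_bil_at {q : Vec d → Vec d → Vec d → ℝ} (hq : IsRiemannian M j q) {x : Vec d} (hx : x ∈ M.N) :
    ∃ b : Vec d →L[ℝ] Vec d →L[ℝ] ℝ, ∀ v w, b v w = q x (fderiv ℝ M.r x v) (fderiv ℝ M.r x w) := by
  have ht := fun u => tangent_fderiv (M := M) hx u
  have hadd2 : ∀ u v w : Vec d, IsTangent M x u → IsTangent M x v → IsTangent M x w →
      q x w (u + v) = q x w u + q x w v := by
    intro u v w hu hv hw
    have huv : IsTangent M x (u + v) := by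
      unfold IsTangent at hu hv ⊢
      rw [map_add, hu, hv]
    rw [hq.symm x hx _ _ hw huv, hq.add x hx _ _ _ hu hv hw, hq.symm x hx _ _ hu hw, hq.symm x hx _ _ hv hw]
  have hsmul2 : ∀ (a : ℝ) (v w : Vec d), IsTangent M x v → IsTangent M x w →
      q x w (a • v) = a * q x w v := by
    intro a v w hv hw
    have hav : IsTangent M x (a • v) := by
      unfold IsTangent at hv ⊢
      rw [map_smul, hv]
    rw [hq.symm x hx _ _ hw hav, hq.smul x hx _ _ _ hv hw, hq.symm x hx _ _ hv hw]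
  let b0 : Vec d →ₗ[ℝ] Vec d →ₗ[ℝ] ℝ := LinearMap.mk₂ ℝ
    (fun v w => q x (fderiv ℝ M.r x v) (fderiv ℝ M.r x w))
    (fun u v w => by
      show q x (fderiv ℝ M.r x (u + v)) _ = _
      rw [map_add, hq.add x hx _ _ _ (ht u) (ht v) (ht w)])
    (fun a v w => by
      show q x (fderiv ℝ M.r x (a • v)) _ = _
      rw [map_smul, hq.smul x hx _ _ _ (ht v) (ht w), smul_eq_mul])
    (fun w u v => by
      show q x _ (fderiv ℝ M.r x (u + v)) = _
      rw [map_add, hadd2 _ _ _ (ht u) (ht v) (ht w)])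
    (fun a w v => by
      show q x _ (fderiv ℝ M.r x (a • v)) = _
      rw [map_smul, hsmul2 _ _ _ (ht v) (ht w), smul_eq_mul])
  let e : (Vec d →ₗ[ℝ] ℝ) →ₗ[ℝ] (Vec d →L[ℝ] ℝ) :=
    (LinearMap.toContinuousLinearMap : (Vec d →ₗ[ℝ] ℝ) ≃ₗ[ℝ] (Vec d →L[ℝ] ℝ)).toLinearMap
  exact ⟨LinearMap.toContinuousLinearMap (e.comp b0), fun v w => rfl⟩

theorem exists_bil {q : Vec d → Vec d → Vec d → ℝ} (hq : IsRiemannian M j q) :
    ∃ b : Vec d → Vec d →L[ℝ] Vec d →L[ℝ] ℝ, EscW.Dn.IsRiemannian M j b ∧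
      ∀ x ∈ M.N, ∀ v w, IsTangent M x v → IsTangent M x w → b x v w = q x v w := by
  classical
  have h : ∀ x : Vec d, ∃ b : Vec d →L[ℝ] Vec d →L[ℝ] ℝ, x ∈ M.N →
      ∀ v w, b v w = q x (fderiv ℝ M.r x v) (fderiv ℝ M.r x w) := by
    intro x
    by_cases hx : x ∈ M.N
    · obtain ⟨b, hb⟩ := exists_bil_at hq hx
      exact ⟨b, fun _ => hb⟩
    · exact ⟨0, fun h => absurd h hx⟩
  choose b hb using h
  have hb' : ∀ x ∈ M.N, ∀ v w, IsTangent M x v → IsTangent M x w → b x v w = q x v w := by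
    intro x hx v w hv hw
    rw [hb x hx v w]
    unfold IsTangent at hv hw
    rw [hv, hw]
  refine ⟨b, ⟨?_, ?_, ?_, ?_⟩, hb'⟩
  · refine hq.smooth.congr fun p hp => ?_
    have hp' : p.1 ∈ M.U := hp
    exact hb' _ (M.mem _ hp') _ _ (EscW.Dn.D6_rr M hp' _) (EscW.Dn.D6_rr M hp' _)
  · intro k x hx v w hv hw
    rw [hb' _ (M.perN k x hx) v w (EscW.Dn.D6_tangent hx hv k) (EscW.Dn.D6_tangent hx hw k),
      hb' x hx v w hv hw, hq.periodic k x hx v w hv hw]
  · intro x hx v w hv hw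
    rw [hb' x hx v w hv hw, hb' x hx w v hw hv, hq.symm x hx v w hv hw]
  · intro x hx v hv h0
    rw [hb' x hx v v hv hv]
    exact hq.pos x hx v hv h0

/-- from bilinear forms to plain functions -/
theorem of_bil {b : Vec d → Vec d →L[ℝ] Vec d →L[ℝ] ℝ} (hb : EscW.Dn.IsRiemannian M j b) :
    IsRiemannian M j (fun x v w => b x v w) where
  smooth := hb.smooth
  periodic := hb.periodic
  add := fun x _ u v w _ _ _ => by rw [map_add]; rfl
  smul := fun x _ a v w _ _ => by rw [map_smul]; rfl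
  symm := hb.symm
  pos := hb.pos

theorem nrm_bil (b : Vec d → Vec d →L[ℝ] Vec d →L[ℝ] ℝ) : nrm (fun x v w => b x v w) = EscW.Dn.nrm b := rfl

end EscW.Rm
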