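import Pool.Agent.EscW.RcDefs
import Pool.Agent.EscW.RmConv
import Pool.Agent.EscW.LC7

set_option autoImplicit false

/-!
An open set of time-periodic Finsler metrics, which contains Riemannian metrics of every conformal class: the
theorem of part LC for metrics as plain functions (`EscW.Rm`).
-/

noncomputable section

namespace EscW.Rm

open Filter Topology Set EscF.T EscM EscMT
open scoped ContDiff

variable {d : ℕ} {M : Sub d} {j : ℕ∞}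

theorem ext_eq {q : Vec d → Vec d → Vec d → ℝ} {b : Vec d → Vec d →L[ℝ] Vec d →L[ℝ] ℝ} {w : Vec d → ℝ}
    (hb : ∀ x ∈ M.N, ∀ v w, IsTangent M x v → IsTangent M x w → b x v w = q x v w) {x : Vec d}
    (hx : x ∈ M.U) (v : Vec d) (t : ℝ) :
    EscW.On.ext M (fun x v => EscW.Dn.nrm (fun p => w p • b p) x v 0) (x, v) =
      ext M (nrm (fun x v v' => w x * q x v v')) x v t := by
  have h1 := hb (M.r x) (M.mem x hx) _ _ (EscW.Dn.D6_rr M hx v) (EscW.Dn.D6_rr M hx v)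
  show √(w (M.r x) * b (M.r x) (fderiv ℝ M.r x v) (fderiv ℝ M.r x v)) =
    √(w (M.r x) * q (M.r x) (fderiv ℝ M.r x v) (fderiv ℝ M.r x v))
  rw [h1]

theorem ext_smooth {b : Vec d → Vec d →L[ℝ] Vec d →L[ℝ] ℝ} (hj : 2 ≤ j) (hb : EscW.Dn.IsRiemannian M j b) :
    ContDiffOn ℝ 2 (fun z : (Vec d × Vec d) × ℝ => EscW.On.ext M (fun x v => EscW.Dn.nrm b x v 0) z.1)
      {z | z.1 ∈ EscW.On.TD M} := by
  have h1 : ContDiffOn ℝ 2 (fun z : (Vec d × Vec d) × ℝ =>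
      b (M.r z.1.1) (fderiv ℝ M.r z.1.1 z.1.2) (fderiv ℝ M.r z.1.1 z.1.2)) {z | z.1 ∈ EscW.On.TD M} := by
    have h2 : ContDiffOn ℝ 2 (fun p : Vec d × Vec d × Vec d =>
        b (M.r p.1) (fderiv ℝ M.r p.1 p.2.1) (fderiv ℝ M.r p.1 p.2.2)) {p | p.1 ∈ M.U} :=
      hb.smooth.of_le (show ((2 : ℕ∞) : WithTop ℕ∞) ≤ (j : WithTop ℕ∞) from WithTop.coe_le_coe.2 hj)
    have h3 : ContDiff ℝ 2 (fun z : (Vec d × Vec d) × ℝ => ((z.1.1, z.1.2, z.1.2) : Vec d × Vec d × Vec d)) := by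
      fun_prop
    exact h2.comp h3.contDiffOn (fun z hz => hz.1)
  have h4 : ContDiffOn ℝ 2 (fun z : (Vec d × Vec d) × ℝ =>
      √(b (M.r z.1.1) (fderiv ℝ M.r z.1.1 z.1.2) (fderiv ℝ M.r z.1.1 z.1.2))) {z | z.1 ∈ EscW.On.TD M} := by
    refine h1.sqrt fun z hz => ?_
    exact (hb.pos _ (M.mem _ hz.1) _ (EscW.Dn.D6_rr M hz.1 _) hz.2).ne'
  exact h4

theorem close2 {b : Vec d → Vec d →L[ℝ] Vec d →L[ℝ] ℝ} (hj : 2 ≤ j) (hb : EscW.Dn.IsRiemannian M j b)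
    {W : Set (Vec d)} {F : Vec d → Vec d → ℝ → ℝ} (hF : IsC2 M W F) {R δ : ℝ}
    (h : ∀ x ∈ M.N, (∃ l : Fin d → ℤ, x + vz l ∈ W) → ∀ v, IsTangent M x v → 1 / R ≤ ‖v‖ → ‖v‖ ≤ R →
      ∀ (t : ℝ) (i : ℕ), i ≤ 2 → ‖iteratedFDeriv ℝ i (fun z => EscW.On.ext M (fun x v => F x v t) z -
        EscW.On.ext M (fun x v => EscW.Dn.nrm b x v 0) z) (x, v)‖ ≤ δ) :
    EscW.Ot.Close2L M W R δ (fun x v => EscW.Dn.nrm b x v 0) F := by
  have h1 : ContDiffOn ℝ 2 (fun z : (Vec d × Vec d) × ℝ => EscW.On.ext M (fun x v => F x v z.2) z.1)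
      {z | z.1 ∈ EscW.On.TD M ∧ ∃ l : Fin d → ℤ, M.r z.1.1 + vz l ∈ W} := by
    have h3 : ContDiff ℝ 2 (fun z : (Vec d × Vec d) × ℝ => ((z.1.1, z.1.2, z.2) : Vec d × Vec d × ℝ)) := by
      fun_prop
    have h2 : ContDiffOn ℝ 2 (fun p : Vec d × Vec d × ℝ => ext M F p.1 p.2.1 p.2.2)
      {p | p.1 ∈ M.U ∧ (∃ l : Fin d → ℤ, M.r p.1 + vz l ∈ W) ∧ fderiv ℝ M.r p.1 p.2.1 ≠ 0} := hF
    exact h2.comp h3.contDiffOn (fun z hz => ⟨hz.1.1, hz.2, hz.1.2⟩)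
  exact ⟨h1.sub ((ext_smooth hj hb).mono fun z hz => hz.1),
    fun t x hx hl v hv h3 h4 i hi => h x hx hl v hv h3 h4 t i hi⟩

theorem open_metrics {y0 u v : Vec d} (hy : y0 ∈ M.N) (hu : IsTangent M y0 u)
    (hv : IsTangent M y0 v) (huv : LinearIndependent ℝ ![u, v]) (hj : 2 ≤ j)
    {q : Vec d → Vec d → Vec d → ℝ} (hq : IsRiemannian M j q)
    {W : Set (Vec d)} (hW : IsOpen W) (hy0 : y0 ∈ W) {ε : ℝ} (hε : 0 < ε) :
    ∃ w : Vec d → ℝ, IsConformal M W ε w ∧ ∃ R δ : ℝ, 0 < R ∧ 0 < δ ∧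
      ∀ F : Vec d → Vec d → ℝ → ℝ, IsFinslerT M F → IsC2 M W F →
        IsClose M W R δ (nrm (fun x v v' => w x * q x v v')) F →
          ∀ κ : ℝ → ℝ, IsWeight κ → ∀ L : Lag d, IsNearT M κ F L → InClass M L := by
  obtain ⟨b, hb, hbq⟩ := exists_bil hq
  obtain ⟨w, hw, hwb, R, δ, hR, hδ, h⟩ := EscW.Ot.open_conformalL hy hu hv huv hj hb hW hy0 hε
  refine ⟨w, ⟨hw.smooth, hw.periodic, hw.near, hw.pos, hw.off⟩, R, δ, hR, hδ,
    fun F hF hC2 hcl κ hκ L hL => h F hF (close2 hj hwb hC2 ?_) κ hκ L hL⟩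
  intro x hx hl z hz h1 h2 t i hi
  have h3 := hcl x hx hl z hz h1 h2 t i hi
  have h4 : (fun p : Vec d × Vec d => EscW.On.ext M (fun x v => F x v t) p -
      EscW.On.ext M (fun x v => EscW.Dn.nrm (fun p => w p • b p) x v 0) p) =ᶠ[𝓝 (x, z)]
      fun p : Vec d × Vec d => ext M F p.1 p.2 t - ext M (nrm (fun x v v' => w x * q x v v')) p.1 p.2 t := by
    have h5 : {p : Vec d × Vec d | p.1 ∈ M.U} ∈ 𝓝 (x, z) :=
      (M.isOpen.preimage continuous_fst).mem_nhds (M.sub hx)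
    filter_upwards [h5] with p hp
    have h6 := ext_eq (w := w) hbq hp p.2 t
    rw [← h6]
    rfl
  rw [(Filter.EventuallyEq.iteratedFDeriv ℝ h4 i).eq_of_nhds]
  exact h3

end EscW.Rm
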