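import Pool.Agent.EscW.RcDefs
import Pool.Agent.EscMT.ODefs

set_option autoImplicit false

/-!
Time-periodic conformal factors on a closed submanifold `M` of a torus (`EscM.Sub`), and time-periodic families of
Finsler metrics which are smooth over an open set.
-/

noncomputable section

namespace EscW.Rm

open Filter Topology Set EscF.T EscM EscMT
open scoped ContDiff

variable {d : ℕ}

/-- A time-periodic family of Finsler metrics on `M` which is, at the points of `M` in `W + ℤᵈ`, smooth in position,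
velocity and time for nonzero tangent vectors, with positive definite second derivative of its square in the
velocity. -/
structure IsSmoothFinslerT (M : Sub d) (W : Set (Vec d)) (F : Vec d → Vec d → ℝ → ℝ) : Prop where
  fins : IsFinslerT M F
  smooth : ContDiffOn ℝ ∞ (fun p : Vec d × Vec d × ℝ => ext M F p.1 p.2.1 p.2.2)
    {p | p.1 ∈ M.U ∧ (∃ l : Fin d → ℤ, M.r p.1 + vz l ∈ W) ∧ fderiv ℝ M.r p.1 p.2.1 ≠ 0}
  convex : ∀ x ∈ M.N, (∃ l : Fin d → ℤ, x + vz l ∈ W) → ∀ v w t, IsTangent M x v → IsTangent M x w →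
    v ≠ 0 → w ≠ 0 → 0 < iteratedFDeriv ℝ 2 (fun u => F x (fderiv ℝ M.r x u) t ^ 2) v ![w, w]

/-- A time-periodic conformal factor on `M`: a smooth positive function `w x t` with `|w - 1| ≤ ε`, equal to one
outside of `W + ℤᵈ`. -/
structure IsConformalT (M : Sub d) (W : Set (Vec d)) (ε : ℝ) (w : Vec d → ℝ → ℝ) : Prop where
  smooth : ContDiffOn ℝ ∞ (fun p : Vec d × ℝ => w (M.r p.1) p.2) {p | p.1 ∈ M.U}
  periodic : ∀ (l : Fin d → ℤ), ∀ x ∈ M.N, ∀ t, w (x + vz l) t = w x t
  periodic' : ∀ x ∈ M.N, ∀ t, w x (t + 1) = w x t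
  near : ∀ x ∈ M.N, ∀ t, |w x t - 1| ≤ ε
  pos : ∀ x ∈ M.N, ∀ t, 0 < w x t
  off : ∀ x ∈ M.N, (∀ l : Fin d → ℤ, x + vz l ∉ W) → ∀ t, w x t = 1

end EscW.Rm
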