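import Pool.Agent.EscW.RfDefs
import Pool.Agent.EscW.FN18

set_option autoImplicit false

/-!
The class is dense, by conformal factors, among the time-periodic families of Finsler metrics which are smooth over an
open set: the theorem of part FN for the definitions of `EscW.Rm`.
-/

noncomputable section

namespace EscW.Rm

open Filter Topology Set EscF.T EscM EscMT
open scoped ContDiff

variable {d : ℕ} {M : Sub d}

theorem smooth_fn {W : Set (Vec d)} {F : Vec d → Vec d → ℝ → ℝ} (hF : IsSmoothFinslerT M W F) :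
    EscW.Fn.IsSmoothFinslerT M W F where
  fins := hF.fins
  smooth := by
    have h3 : ContDiff ℝ ∞ (fun z : (Vec d × Vec d) × ℝ => ((z.1.1, z.1.2, z.2) : Vec d × Vec d × ℝ)) := by
      fun_prop
    exact hF.smooth.comp h3.contDiffOn (fun z hz => ⟨hz.1.1, hz.2, hz.1.2⟩)
  convex := hF.convex

theorem dense_finsler {y0 u v : Vec d} (hy : y0 ∈ M.N) (hu : IsTangent M y0 u)
    (hv : IsTangent M y0 v) (huv : LinearIndependent ℝ ![u, v]) {W : Set (Vec d)}
    {F : Vec d → Vec d → ℝ → ℝ} (hF : IsSmoothFinslerT M W F)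
    (hW : IsOpen W) (hy0 : y0 ∈ W) {ε : ℝ} (hε : 0 < ε) :
    ∃ w : Vec d → ℝ → ℝ, IsConformalT M W ε w ∧ ∀ κ : ℝ → ℝ, IsWeight κ →
      (∀ L : Lag d, IsNearT M κ (fun x v t => w x t * F x v t) L → InClass M L) ∧
      ∀ L : Lag d, IsNearT M κ F L → InClass M (fun q => w q.1 q.2.2 ^ 2 * L q) := by
  obtain ⟨w, hw, h⟩ := EscW.Fn.dense_all hy hu hv huv hW hy0 (smooth_fn hF) hε
  exact ⟨w, ⟨hw.smooth, hw.periodic, hw.periodic', hw.near, hw.pos, hw.off⟩, h⟩

end EscW.Rm
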