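import Pool.Agent.EscW.RfDense
import Pool.Agent.EscW.FO24

set_option autoImplicit false

/-!
The class is C²-open and dense, by conformal factors, among the time-periodic families of Finsler metrics which are
smooth over an open set: the theorem of part FO for the definitions of `EscW.Rm`.
-/

noncomputable section

namespace EscW.Rm

open Filter Topology Set EscF.T EscM EscMT
open scoped ContDiff

variable {d : ℕ} {M : Sub d}

theorem close_fo {W : Set (Vec d)} {R δ : ℝ} {F F' : Vec d → Vec d → ℝ → ℝ} (h : IsC2 M W F')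
    (hc : IsClose M W R δ F F') : EscW.Fo.Close2F M W R δ F F' where
  smooth := by
    have h3 : ContDiff ℝ 2 (fun z : (Vec d × Vec d) × ℝ => ((z.1.1, z.1.2, z.2) : Vec d × Vec d × ℝ)) := by
      fun_prop
    have h2 : ContDiffOn ℝ 2 (fun p : Vec d × Vec d × ℝ => ext M F' p.1 p.2.1 p.2.2)
      {p | p.1 ∈ M.U ∧ (∃ l : Fin d → ℤ, M.r p.1 + vz l ∈ W) ∧ fderiv ℝ M.r p.1 p.2.1 ≠ 0} := h
    exact h2.comp h3.contDiffOn (fun z hz => ⟨hz.1.1, hz.2, hz.1.2⟩)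
  close := fun t x hx hl v hv h1 h2 i hi => hc x hx hl v hv h1 h2 t i hi

theorem open_dense {y0 u v : Vec d} (hy : y0 ∈ M.N) (hu : IsTangent M y0 u)
    (hv : IsTangent M y0 v) (huv : LinearIndependent ℝ ![u, v]) {W : Set (Vec d)}
    {F : Vec d → Vec d → ℝ → ℝ} (hF : IsSmoothFinslerT M W F)
    (hW : IsOpen W) (hy0 : y0 ∈ W) {ε : ℝ} (hε : 0 < ε) :
    ∃ w : Vec d → ℝ → ℝ, IsConformalT M W ε w ∧ ∃ R δ : ℝ, 0 < R ∧ 0 < δ ∧ ∀ κ : ℝ → ℝ, IsWeight κ →
      (∀ F' : Vec d → Vec d → ℝ → ℝ, IsFinslerT M F' → IsC2 M W F' →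
        IsClose M W R δ (fun x v t => w x t * F x v t) F' → ∀ L : Lag d, IsNearT M κ F' L → InClass M L) ∧
      ∀ L : Lag d, IsNearT M κ F L → InClass M (fun q => w q.1 q.2.2 ^ 2 * L q) := by
  obtain ⟨w, hw, ⟨R, δ, hR, hδ, h1⟩, h2⟩ := EscW.Fo.open_dense_all hy hu hv huv hW hy0 (smooth_fn hF) hε
  exact ⟨w, ⟨hw.smooth, hw.periodic, hw.periodic', hw.near, hw.pos, hw.off⟩, R, δ, hR, hδ, fun κ hκ =>
    ⟨fun F' hF' hC hc L hL => h1 F' hF' (close_fo hC hc) κ hκ L hL, fun L hL => h2 κ hκ L hL⟩⟩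

end EscW.Rm
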