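import Pool.Agent.EscW.RlOpen
import Pool.Agent.EscW.RgDefs
import Pool.Agent.EscW.QW6

set_option autoImplicit false

/-!
The theorem of part Q for the definitions of `EscW.Rm`: residual sets of potentials with orbits over `W` that tend to
infinity, for Lagrangians of general growth over `W`, arbitrary for small velocities and elsewhere.
-/

noncomputable section

namespace EscW.Rm

open Filter Topology Set EscF.T EscM EscMT
open scoped ContDiff

variable {d : ℕ} {M : Sub d} {W : Set (Vec d)} {F : Vec d → Vec d → ℝ → ℝ}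

/-- the final theorem, residual and dense -/
theorem open_growth {y0 u v : Vec d} (hy : y0 ∈ M.N) (hu : IsTangent M y0 u)
    (hv : IsTangent M y0 v) (huv : LinearIndependent ℝ ![u, v]) (hW : IsOpen W) (hy0 : y0 ∈ W)
    (hF : IsFinslerOn M W ∞ F) (hFc : IsConvexOn M W F) {ε : ℝ} (hε : 0 < ε) :
    ∃ w : Vec d → ℝ → ℝ, IsConformalT M W ε w ∧ ∃ R δ : ℝ, 0 < R ∧ 0 < δ ∧
      ∀ (κ g : ℝ → ℝ), IsWeight κ → IsGrowth g → ∀ F' : Vec d → Vec d → ℝ → ℝ, IsFinslerOn M W 2 F' →
        IsClose M W R δ (fun x v t => w x t * F x v t) F' → ∀ L : Lag d, IsGrowthNearOn M W κ F' g L →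
          ∀ k : ℕ∞, 2 ≤ k → {f : Pot M k | EscapesOver M W (fun q => L q + f.toFun (q.1, q.2.2))} ∈
            residual (Pot M k) ∧
            Dense {f : Pot M k | EscapesOver M W (fun q => L q + f.toFun (q.1, q.2.2))} := by
  obtain ⟨w, hw, R, δ, hR, hδ, h⟩ := EscW.Zg.open_gen hy hu hv huv hW hy0 (on_lo hF) hFc hε
  have hd : ∀ (k : ℕ∞) (S : Set (Pot M k)), S ∈ residual (Pot M k) → S ∈ residual (Pot M k) ∧ Dense S := by
    intro k S hS
    have := EscM.baire M k
    exact ⟨hS, dense_of_mem_residual hS⟩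
  refine ⟨w, ⟨hw.smooth, hw.periodic, hw.periodic', hw.near, hw.pos, hw.off⟩, R, δ, hR, hδ,
    fun κ g hκ hg F' hF' hc L hL k hk => ?_⟩
  obtain ⟨C, Y, hg1, hg2⟩ := hg
  obtain ⟨L0, R0, hL0, hL1⟩ := hL
  exact hd k _ ((h κ hκ g C Y R0 hg1 hg2).1 F' (on_lo hF') (close_lo hF' hc) L0 L (near_lo hL0) hL1 k hk)

end EscW.Rm
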