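import Pool.Agent.EscW.RfDefs

set_option autoImplicit false

/-!
Lagrangians on a closed submanifold `M` of a torus (`EscM.Sub`) which are near the energy of a family of Finsler
metrics over an open set `W`, and arbitrary elsewhere.
-/

noncomputable section

namespace EscW.Rm

open Filter Topology Set EscF.T EscM EscMT
open scoped ContDiff

variable {d : ℕ}

/-- The point `x` is in `W + ℤᵈ`. -/
def IsOver (W : Set (Vec d)) (x : Vec d) : Prop := ∃ l : Fin d → ℤ, x + vz l ∈ W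

/-- A time-periodic family of Finsler metrics on the part of `M` over `W`, of class `C^r` in position, velocity and
time for nonzero tangent vectors (no condition on its values elsewhere). -/
structure IsFinslerOn (M : Sub d) (W : Set (Vec d)) (r : WithTop ℕ∞) (F : Vec d → Vec d → ℝ → ℝ) : Prop where
  smooth : ContDiffOn ℝ r (fun p : Vec d × Vec d × ℝ => ext M F p.1 p.2.1 p.2.2)
    {p | p.1 ∈ M.U ∧ IsOver W (M.r p.1) ∧ fderiv ℝ M.r p.1 p.2.1 ≠ 0}
  periodic : ∀ (l : Fin d → ℤ), ∀ x ∈ M.N, IsOver W x → ∀ v, IsTangent M x v → ∀ t, F (x + vz l) v t = F x v t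
  periodic' : ∀ x ∈ M.N, IsOver W x → ∀ v, IsTangent M x v → ∀ t, F x v (t + 1) = F x v t
  hom : ∀ x ∈ M.N, IsOver W x → ∀ v, IsTangent M x v → ∀ t a : ℝ, 0 ≤ a → F x (a • v) t = a * F x v t
  pos : ∀ x ∈ M.N, IsOver W x → ∀ v, IsTangent M x v → ∀ t, v ≠ 0 → 0 < F x v t

/-- The second derivative of `F²` in the velocity is positive definite, for the nonzero tangent vectors over `W`. -/
def IsConvexOn (M : Sub d) (W : Set (Vec d)) (F : Vec d → Vec d → ℝ → ℝ) : Prop :=
  ∀ x ∈ M.N, IsOver W x → ∀ v w t, IsTangent M x v → IsTangent M x w → v ≠ 0 → w ≠ 0 →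
    0 < iteratedFDeriv ℝ 2 (fun u => F x (fderiv ℝ M.r x u) t ^ 2) v ![w, w]

/-- On the tangent vectors over `W`, `L` is time-periodic, of class `C²`, uniformly convex in the velocity, and
`L - κ F²/2` is Lipschitz in the velocity, with Lipschitz constant `O(1 + |v|)` in position and time (no condition on
the values of `L` elsewhere). -/
structure IsNearOn (M : Sub d) (W : Set (Vec d)) (κ : ℝ → ℝ) (F : Vec d → Vec d → ℝ → ℝ) (L : Lag d) : Prop where
  smooth : ContDiffOn ℝ 2 (fun q : Vec d × Vec d × ℝ => L (M.r q.1, fderiv ℝ M.r q.1 q.2.1, q.2.2))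
    {q | q.1 ∈ M.U ∧ IsOver W (M.r q.1)}
  periodic : ∀ (n : Fin d → ℤ) (l : ℤ), ∀ x ∈ M.N, IsOver W x → ∀ v t, IsTangent M x v →
    L (x + vz n, v, t + l) = L (x, v, t)
  convex : ∃ c : ℝ, 0 < c ∧ ∀ x ∈ M.N, IsOver W x → ∀ v w t, IsTangent M x v → IsTangent M x w →
    c * ‖w‖ ^ 2 ≤ iteratedFDeriv ℝ 2 (fun u => L (x, fderiv ℝ M.r x u, t)) v ![w, w]
  near : ∃ C : ℝ, ∀ x ∈ M.N, IsOver W x → ∀ v t, IsTangent M x v → ∀ x' ∈ M.N, IsOver W x' → ∀ v' t',
    IsTangent M x' v' →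
    |(L (x, v, t) - κ t * F x v t ^ 2 / 2) - (L (x', v', t') - κ t' * F x' v' t' ^ 2 / 2)| ≤
      C * (‖v - v'‖ + (1 + ‖v‖) * (‖x - x'‖ + |t - t'|))

/-- The Euler-Lagrange flow of `L` on `M` has an orbit on `(0,∞)` which stays over `W` and tends to infinity. -/
def EscapesOver (M : Sub d) (W : Set (Vec d)) (L : Lag d) : Prop :=
  ∃ x : ℝ → Vec d, IsExtremal M L x ∧ (∀ t, 0 < t → IsOver W (x t)) ∧ Tendsto (fun t => ‖deriv x t‖) atTop atTop

end EscW.Rm
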