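import Pool.Agent.EscW.RlDefs
import Pool.Agent.EscW.LL7

set_option autoImplicit false

/-!
The theorem of part LL for the definitions of `EscW.Rm`: residual sets of potentials with orbits over `W` that tend to
infinity, for a C²-open and dense set of families of Finsler metrics over `W`, the Lagrangian being arbitrary
elsewhere.
-/

noncomputable section

namespace EscW.Rm

open Filter Topology Set EscF.T EscM EscMT
open scoped ContDiff

variable {d : ℕ} {M : Sub d} {W : Set (Vec d)} {F : Vec d → Vec d → ℝ → ℝ}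

theorem on_lo {r : WithTop ℕ∞} (h : IsFinslerOn M W r F) : EscW.Lo.IsFinslerOn M W r F where
  smooth := by
    have h3 : ContDiff ℝ r (fun z : (Vec d × Vec d) × ℝ => ((z.1.1, z.1.2, z.2) : Vec d × Vec d × ℝ)) := by
      fun_prop
    exact h.smooth.comp h3.contDiffOn (fun z hz => ⟨hz.1.1, hz.2, hz.1.2⟩)
  periodic := h.periodic
  periodic' := h.periodic'
  hom := h.hom
  pos := h.pos

theorem close_lo {R δ : ℝ} {F' : Vec d → Vec d → ℝ → ℝ} (h : IsFinslerOn M W 2 F')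
    (hc : IsClose M W R δ F F') : EscW.Fo.Close2F M W R δ F F' where
  smooth := by
    have h3 : ContDiff ℝ 2 (fun z : (Vec d × Vec d) × ℝ => ((z.1.1, z.1.2, z.2) : Vec d × Vec d × ℝ)) := by
      fun_prop
    exact h.smooth.comp h3.contDiffOn (fun z hz => ⟨hz.1.1, hz.2, hz.1.2⟩)
  close := fun t x hx hl v hv h1 h2 i hi => hc x hx hl v hv h1 h2 t i hi

theorem near_lo {κ : ℝ → ℝ} {L : Lag d} (h : IsNearOn M W κ F L) : EscW.Lo.IsNearOn M W κ F L :=
  ⟨h.smooth, h.periodic, h.convex, h.near⟩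

/-- the final theorem, residual and dense -/
theorem open_local {y0 u v : Vec d} (hy : y0 ∈ M.N) (hu : IsTangent M y0 u)
    (hv : IsTangent M y0 v) (huv : LinearIndependent ℝ ![u, v]) (hW : IsOpen W) (hy0 : y0 ∈ W)
    (hF : IsFinslerOn M W ∞ F) (hFc : IsConvexOn M W F) {ε : ℝ} (hε : 0 < ε) :
    ∃ w : Vec d → ℝ → ℝ, IsConformalT M W ε w ∧ ∃ R δ : ℝ, 0 < R ∧ 0 < δ ∧ ∀ κ : ℝ → ℝ, IsWeight κ →
      (∀ F' : Vec d → Vec d → ℝ → ℝ, IsFinslerOn M W 2 F' →
        IsClose M W R δ (fun x v t => w x t * F x v t) F' → ∀ L : Lag d, IsNearOn M W κ F' L →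
          ∀ k : ℕ∞, 2 ≤ k → {f : Pot M k | EscapesOver M W (fun q => L q + f.toFun (q.1, q.2.2))} ∈
            residual (Pot M k) ∧ Dense {f : Pot M k | EscapesOver M W (fun q => L q + f.toFun (q.1, q.2.2))}) ∧
      ∀ L : Lag d, IsNearOn M W κ F L → ∀ k : ℕ∞, 2 ≤ k →
        {f : Pot M k | EscapesOver M W (fun q => w q.1 q.2.2 ^ 2 * L q + f.toFun (q.1, q.2.2))} ∈
          residual (Pot M k) ∧
        Dense {f : Pot M k | EscapesOver M W (fun q => w q.1 q.2.2 ^ 2 * L q + f.toFun (q.1, q.2.2))} := by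
  obtain ⟨w, hw, R, δ, hR, hδ, h⟩ := EscW.Lo.open_in hy hu hv huv hW hy0 (on_lo hF) hFc hε
  have hd : ∀ (k : ℕ∞) (S : Set (Pot M k)), S ∈ residual (Pot M k) → S ∈ residual (Pot M k) ∧ Dense S := by
    intro k S hS
    have := EscM.baire M k
    exact ⟨hS, dense_of_mem_residual hS⟩
  refine ⟨w, ⟨hw.smooth, hw.periodic, hw.periodic', hw.near, hw.pos, hw.off⟩, R, δ, hR, hδ, fun κ hκ => ?_⟩
  obtain ⟨h1, h2⟩ := h κ hκ
  exact ⟨fun F' hF' hc L hL k hk => hd k _ (h1 F' (on_lo hF') (close_lo hF' hc) L (near_lo hL) k hk),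
    fun L hL k hk => hd k _ (h2 L (near_lo hL) k hk)⟩

end EscW.Rm
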