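import Pool.Agent.EscMT.ODefs

set_option autoImplicit false

/-!
Riemannian metrics on a closed submanifold `M` of a torus (`EscM.Sub`), as functions of a point and two tangent
vectors.
-/

noncomputable section

namespace EscW.Rm

open Filter Topology Set EscF.T EscM
open scoped ContDiff

variable {d : ℕ}

/-- A Riemannian metric of class `C^j` on `M`: for every `x ∈ M.N` a scalar product `q x` on the space of tangent
vectors at `x`. -/
structure IsRiemannian (M : Sub d) (j : ℕ∞) (q : Vec d → Vec d → Vec d → ℝ) : Prop where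
  smooth : ContDiffOn ℝ j (fun p : Vec d × Vec d × Vec d =>
    q (M.r p.1) (fderiv ℝ M.r p.1 p.2.1) (fderiv ℝ M.r p.1 p.2.2)) {p | p.1 ∈ M.U}
  periodic : ∀ (k : Fin d → ℤ), ∀ x ∈ M.N, ∀ v w, IsTangent M x v → IsTangent M x w →
    q (x + vz k) v w = q x v w
  add : ∀ x ∈ M.N, ∀ u v w, IsTangent M x u → IsTangent M x v → IsTangent M x w →
    q x (u + v) w = q x u w + q x v w
  smul : ∀ x ∈ M.N, ∀ (a : ℝ) (v w : Vec d), IsTangent M x v → IsTangent M x w → q x (a • v) w = a * q x v w
  symm : ∀ x ∈ M.N, ∀ v w, IsTangent M x v → IsTangent M x w → q x v w = q x w v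
  pos : ∀ x ∈ M.N, ∀ v, IsTangent M x v → v ≠ 0 → 0 < q x v v

/-- the norm of the metric -/
def nrm (q : Vec d → Vec d → Vec d → ℝ) (x v : Vec d) (_ : ℝ) : ℝ := √(q x v v)

end EscW.Rm
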