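import Pool.Agent.EscW.RmConv
import Pool.Agent.EscW.G9

set_option autoImplicit false

/-!
Density of Riemannian metrics, for metrics as plain functions (`EscW.Rm`).
-/

noncomputable section

namespace EscW.Rm

open Filter Topology Set EscF.T EscM EscMT
open scoped ContDiff

variable {d : ℕ} {M : Sub d} {j : ℕ∞}

theorem dense_metrics {y0 u v : Vec d} (hy : y0 ∈ M.N) (hu : IsTangent M y0 u)
    (hv : IsTangent M y0 v) (huv : LinearIndependent ℝ ![u, v])
    {q : Vec d → Vec d → Vec d → ℝ} (hq : IsRiemannian M j q)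
    {W : Set (Vec d)} (hW : IsOpen W) (hy0 : y0 ∈ W) {ε : ℝ} (hε : 0 < ε) :
    ∃ q' : Vec d → Vec d → Vec d → ℝ, IsRiemannian M j q' ∧
      (∀ x ∈ M.N, ∀ v, IsTangent M x v → |q' x v v - q x v v| ≤ ε * q x v v) ∧
      (∀ x ∈ M.N, (∀ l : Fin d → ℤ, x + vz l ∉ W) →
        ∀ v w, IsTangent M x v → IsTangent M x w → q' x v w = q x v w) ∧
      ∀ κ : ℝ → ℝ, IsWeight κ → ∀ L : Lag d, IsNearT M κ (nrm q') L → InClass M L := by
  obtain ⟨b, hb, hbq⟩ := exists_bil hq
  obtain ⟨b', hb', h1, h2, h3⟩ := EscW.Gn.dense_metrics hy hu hv huv hb hW hy0 hε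
  refine ⟨fun x v w => b' x v w, of_bil hb', ?_, ?_, fun κ hκ L hL => h3 κ hκ L hL⟩
  · intro x hx w hw
    have h := h1 x hx w hw
    rw [hbq x hx w w hw hw] at h
    exact h
  · intro x hx hl w z hw hz
    show b' x w z = _
    rw [h2 x hx hl, hbq x hx w z hw hz]

end EscW.Rm
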