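import Pool.Agent.EscW.RlDefs

set_option autoImplicit false

/-!
Lagrangians on a closed submanifold `M` of a torus (`EscM.Sub`) which are, over an open set `W` and for large
velocities, a power of a Lagrangian near the energy of a family of Finsler metrics, and arbitrary elsewhere.
-/

noncomputable section

namespace EscW.Rm

open Filter Topology Set EscF.T EscM EscMT
open scoped ContDiff

variable {d : ℕ}

/-- On the tangent vectors `v` over `W` with `‖v‖ ≥ R₀`, for some `R₀`, the function `L` is equal to `L₀ ^ (e/2)`, where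
`L₀` is near the energy `κ F²/2` over `W` (no condition on the other values of `L`). So `L` grows like `‖v‖ ^ e`. -/
def IsPowerNearOn (M : Sub d) (W : Set (Vec d)) (κ : ℝ → ℝ) (F : Vec d → Vec d → ℝ → ℝ) (e : ℝ) (L : Lag d) : Prop :=
  ∃ (L₀ : Lag d) (R₀ : ℝ), IsNearOn M W κ F L₀ ∧
    ∀ x ∈ M.N, IsOver W x → ∀ v, IsTangent M x v → R₀ ≤ ‖v‖ → ∀ t, L (x, v, t) = L₀ (x, v, t) ^ (e / 2)

end EscW.Rm
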