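import Pool.Agent.EscW.RlOpen
import Pool.Agent.EscW.RpDefs
import Pool.Agent.EscW.PW6

set_option autoImplicit false

/-!
The theorem of part P for the definitions of `EscW.Rm`: residual sets of potentials with orbits over `W` that tend to
infinity, for Lagrangians of growth `‖v‖ ^ e`, `e ≥ 2`, over `W`, arbitrary for small velocities and elsewhere.
-/

noncomputable section

namespace EscW.Rm

open Filter Topology Set EscF.T EscM EscMT
open scoped ContDiff

variable {d : ℕ} {M : Sub d} {W : Set (Vec d)} {F : Vec d → Vec d → ℝ → ℝ}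

/-- the final theorem, residual and dense -/
theorem open_power {y0 u v : Vec d} (hy : y0 ∈ M.N) (hu : IsTangent M y0 u)
    (hv : IsTangent M y0 v) (huv : LinearIndependent ℝ ![u, v]) (hW : IsOpen W) (hy0 : y0 ∈ W)
    (hF : IsFinslerOn M W ∞ F) (hFc : IsConvexOn M W F) {ε : ℝ} (hε : 0 < ε) :
    ∃ w : Vec d → ℝ → ℝ, IsConformalT M W ε w ∧ ∃ R δ : ℝ, 0 < R ∧ 0 < δ ∧ ∀ (κ : ℝ → ℝ) (e : ℝ), IsWeight κ →
      2 ≤ e →
      (∀ F' : Vec d → Vec d → ℝ → ℝ, IsFinslerOn M W 2 F' →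
        IsClose M W R δ (fun x v t => w x t * F x v t) F' → ∀ L : Lag d, IsPowerNearOn M W κ F' e L →
          ∀ k : ℕ∞, 2 ≤ k → {f : Pot M k | EscapesOver M W (fun q => L q + f.toFun (q.1, q.2.2))} ∈
            residual (Pot M k) ∧ Dense {f : Pot M k | EscapesOver M W (fun q => L q + f.toFun (q.1, q.2.2))}) ∧
      ∀ L : Lag d, IsPowerNearOn M W κ F e L → ∀ k : ℕ∞, 2 ≤ k →
        {f : Pot M k | EscapesOver M W (fun q => w q.1 q.2.2 ^ e * L q + f.toFun (q.1, q.2.2))} ∈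
          residual (Pot M k) ∧
        Dense {f : Pot M k | EscapesOver M W (fun q => w q.1 q.2.2 ^ e * L q + f.toFun (q.1, q.2.2))} := by
  obtain ⟨w, hw, R, δ, hR, hδ, h⟩ := EscW.Pg.open_pow hy hu hv huv hW hy0 (on_lo hF) hFc hε
  have hd : ∀ (k : ℕ∞) (S : Set (Pot M k)), S ∈ residual (Pot M k) → S ∈ residual (Pot M k) ∧ Dense S := by
    intro k S hS
    have := EscM.baire M k
    exact ⟨hS, dense_of_mem_residual hS⟩
  refine ⟨w, ⟨hw.smooth, hw.periodic, hw.periodic', hw.near, hw.pos, hw.off⟩, R, δ, hR, hδ, fun κ e hκ he => ?_⟩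
  constructor
  · rintro F' hF' hc L ⟨L0, R0, hL0, hL⟩ k hk
    exact hd k _ ((h κ hκ e R0 he).1 F' (on_lo hF') (close_lo hF' hc) L0 L (near_lo hL0) hL k hk)
  · rintro L ⟨L0, R0, hL0, hL⟩ k hk
    exact hd k _ ((h κ hκ e R0 he).2 L0 L (near_lo hL0) hL k hk)

end EscW.Rm
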