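import Pool.Agent.EscW.RlDefs

set_option autoImplicit false

/-!
Convex superlinear Lagrangians on a closed submanifold `M` of a torus (`EscM.Sub`).
-/

noncomputable section

namespace EscW.Rm

open Filter Topology Set EscF.T EscM EscMT
open scoped ContDiff

variable {d : ℕ}

/-- A Lagrangian on `TM × 𝕋` of class `C²`, with positive definite second derivative in the velocity and superlinear
growth. -/
structure IsConvexLagrangian (M : Sub d) (L : Lag d) : Prop where
  smooth : ContDiffOn ℝ 2 (fun q : Vec d × Vec d × ℝ => L (M.r q.1, fderiv ℝ M.r q.1 q.2.1, q.2.2))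
    {q | q.1 ∈ M.U}
  periodic : ∀ (n : Fin d → ℤ) (l : ℤ), ∀ x ∈ M.N, ∀ v t, IsTangent M x v →
    L (x + vz n, v, t + l) = L (x, v, t)
  convex : ∀ x ∈ M.N, ∀ v w t, IsTangent M x v → IsTangent M x w → w ≠ 0 →
    0 < iteratedFDeriv ℝ 2 (fun u => L (x, fderiv ℝ M.r x u, t)) v ![w, w]
  superlinear : ∀ A : ℝ, ∃ B : ℝ, ∀ x ∈ M.N, ∀ v t, IsTangent M x v → A * ‖v‖ - B ≤ L (x, v, t)

end EscW.Rm
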