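import Pool.Agent.EscW.RtDefs
import Pool.Agent.EscW.RlOpen
import Pool.Agent.EscW.LM5

set_option autoImplicit false

/-!
The theorem of part LM for the definitions of `EscW.Rm`: density among all convex superlinear Lagrangians.
-/

noncomputable section

namespace EscW.Rm

open Filter Topology Set EscF.T EscM EscMT
open scoped ContDiff

variable {d : ℕ} {M : Sub d} {W : Set (Vec d)}

theorem dense_lagrangian {y0 u v : Vec d} (hy : y0 ∈ M.N) (hu : IsTangent M y0 u)
    (hv : IsTangent M y0 v) (huv : LinearIndependent ℝ ![u, v]) (hW : IsOpen W) (hy0 : y0 ∈ W)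
    {L : Lag d} (hL : IsConvexLagrangian M L) (R0 : ℝ) :
    ∃ L' : Lag d, IsConvexLagrangian M L' ∧
      (∀ x ∈ M.N, ∀ v t, IsTangent M x v → (‖v‖ ≤ R0 ∨ ¬ IsOver W x) → L' (x, v, t) = L (x, v, t)) ∧
      ∀ k : ℕ∞, 2 ≤ k → {f : Pot M k | EscapesOver M W (fun q => L' q + f.toFun (q.1, q.2.2))} ∈
        residual (Pot M k) ∧ Dense {f : Pot M k | EscapesOver M W (fun q => L' q + f.toFun (q.1, q.2.2))} := by
  obtain ⟨L', h1, h2, h3⟩ := EscW.Lo.dense_lag hy hu hv huv hW hy0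
    ⟨hL.smooth, hL.periodic, hL.convex, hL.superlinear⟩ R0
  refine ⟨L', ⟨h1.smooth, h1.periodic, h1.convex, h1.super⟩, h2, fun k hk => ?_⟩
  have := EscM.baire M k
  exact ⟨h3 k hk, dense_of_mem_residual (h3 k hk)⟩

end EscW.Rm
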