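import Pool.Agent.EscW.WEDefs
import Pool.Agent.EscT.TDefs

set_option autoImplicit false

/-!
Project EscW (MP_6acca1_an), spaces: invariant cut-off near the room, push forward of perturbations to `M`.
-/

noncomputable section

namespace EscW

open MeasureTheory Set Filter Topology Esc EscF EscG EscM EscMT EscF.T
open scoped ContDiff

variable {d m : ℕ}

/-- a periodic cut-off, invariant under `G`, equal to one near `K` -/
structure CutG (K : Set (Vec m)) (G : Subgroup (Vec m ≃ₗᵢ[ℝ] Vec m)) (a0 : ℝ) (Θ : Vec m → ℝ) : Prop where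
  smooth : ContDiff ℝ ∞ Θ
  per : ∀ (n : Fin m → ℤ) x, Θ (x + vz n) = Θ x
  inv : ∀ P ∈ G, ∀ x, Θ (P x) = Θ x
  mem01 : ∀ x, 0 ≤ Θ x ∧ Θ x ≤ 1
  one : ∀ x, Metric.infDist x K ≤ a0 → Θ x = 1
  zero : ∀ x, (∀ P ∈ G, 2 * a0 ≤ Metric.infDist (P x) K) → Θ x = 0

/-- push forward of `Θ g` to `M` by `φ` -/
def push (M : Sub d) (M' : Sub m) (O : Set (Vec m)) (φ : Vec m → Vec d) (Θ : Vec m → ℝ) (g : Vec m → ℝ → ℝ) :
    Fun d :=
  letI := Classical.dec
  fun q => if h : q.1 ∈ M.U ∧ ∃ x : Vec m, x ∈ M'.N ∩ O ∧ ∃ l : Fin d → ℤ, M.r q.1 = φ x + vz l then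
    Θ h.2.choose * g h.2.choose q.2 else 0

end EscW
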