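import Pool.Agent.EscW.VDefs

set_option autoImplicit false

/-!
The two forms of the class of Lagrangians are the same.
-/

noncomputable section

namespace EscW.V

open Filter Topology Set EscF.T EscM EscMT MeasureTheory
open scoped ContDiff

variable {d m : ℕ}

/-- the subgroup of linear isometries -/
def grp {G : Set (Vec m → Vec m)} (h : IsIsometryGroup G) : Subgroup (Vec m ≃ₗᵢ[ℝ] Vec m) where
  carrier := {P | (P : Vec m → Vec m) ∈ G}
  mul_mem' := fun {P Q} hP hQ => by
    have := h.mul _ hP _ hQ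
    exact this
  one_mem' := h.one
  inv_mem' := fun {P} hP => by
    obtain ⟨Q, hQ, h1, h2⟩ := h.inv _ hP
    have h3 : ((P⁻¹ : Vec m ≃ₗᵢ[ℝ] Vec m) : Vec m → Vec m) = Q := by
      funext x
      have h4 := congrFun h1 x
      have h5 : P (Q x) = x := h4
      rw [← h5]
      have h6 : (P⁻¹ : Vec m ≃ₗᵢ[ℝ] Vec m) (P (Q x)) = Q x := P.symm_apply_apply (Q x)
      rw [h6, h5]
    show ((P⁻¹ : Vec m ≃ₗᵢ[ℝ] Vec m) : Vec m → Vec m) ∈ G
    rw [h3]
    exact hQ

theorem mem_grp {G : Set (Vec m → Vec m)} (h : IsIsometryGroup G) (P : Vec m ≃ₗᵢ[ℝ] Vec m) :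
    P ∈ grp h ↔ (P : Vec m → Vec m) ∈ G := Iff.rfl

/-- every element of `G` is a linear isometry -/
theorem exists_isom {G : Set (Vec m → Vec m)} (h : IsIsometryGroup G) {P : Vec m → Vec m} (hP : P ∈ G) :
    ∃ P' : Vec m ≃ₗᵢ[ℝ] Vec m, (P' : Vec m → Vec m) = P := by
  obtain ⟨Q, hQ, h1, h2⟩ := h.inv _ hP
  have h0 : P 0 = 0 := by
    have := h.norm P hP 0
    rw [norm_zero] at this
    exact norm_eq_zero.1 this
  let e : Vec m ≃ₗ[ℝ] Vec m :=
    { toFun := P
      map_add' := fun x y => by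
        have := h.linear P hP 1 x y
        simpa using this
      map_smul' := fun a x => by
        have := h.linear P hP a x 0
        rw [add_zero, h0, add_zero] at this
        exact this
      invFun := Q
      left_inv := fun x => congrFun h2 x
      right_inv := fun x => congrFun h1 x }
  exact ⟨⟨e, fun x => h.norm P hP x⟩, rfl⟩

theorem chart {M : Sub d} {M' : Sub m} {O : Set (Vec m)} {G : Set (Vec m → Vec m)} {φ : Vec m → Vec d}
    (h : IsChart M M' O G φ) : EscW.IsChart M M' O (grp h.group) φ where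
  finite := by
    have h1 : ((grp h.group : Subgroup (Vec m ≃ₗᵢ[ℝ] Vec m)) : Set (Vec m ≃ₗᵢ[ℝ] Vec m)) =
        (fun P : Vec m ≃ₗᵢ[ℝ] Vec m => (P : Vec m → Vec m)) ⁻¹' G := rfl
    rw [h1]
    exact h.group.finite.preimage (fun P _ Q _ hPQ => DFunLike.coe_injective hPQ)
  int := fun P hP n => h.int _ hP n
  mapsN := fun P hP x hx => h.mapsN _ hP x hx
  mapsO := fun P hP x hx => h.mapsO _ hP x hx
  isOpen := h.isOpen
  perO := h.perO
  free := fun P hP n x hx hPx => by
    obtain ⟨h1, h2⟩ := h.free _ hP n x hx hPx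
    exact ⟨DFunLike.coe_injective h1, h2⟩
  smooth := h.smooth
  maps := h.maps
  fibre := fun x hx y hy => by
    rw [h.fibre x hx y hy]
    constructor
    · rintro ⟨P, hP, n, hn⟩
      obtain ⟨P', hP'⟩ := exists_isom h.group hP
      refine ⟨P', ?_, n, ?_⟩
      · rw [mem_grp, hP']
        exact hP
      · rw [hP']
        exact hn
    · rintro ⟨P, hP, n, hn⟩
      exact ⟨_, hP, n, hn⟩
  inverse := h.inverse

theorem inClass {M : Sub d} {L : Lag d} (h : InClass M L) : EscW.InClass M L := by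
  obtain ⟨κ, F, m, M', O, K, G, φ, B, i, len, a, c, h1, h2, h3, h4, h5, h6⟩ := h
  exact ⟨κ, F, m, M', O, K, grp h4.group, φ, B, i, len, a, c, h1, h2, h3, chart h4, h5, h6⟩

end EscW.V
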