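import Pool.Agent.EscW.WDefs

set_option autoImplicit false

/-!
Outer definitions of project EscW, with a finite set of maps instead of a subgroup of the group of linear
isometries.
-/

noncomputable section

namespace EscW.V

open Filter Topology Set EscF.T EscM EscMT MeasureTheory
open scoped ContDiff

variable {d m : ℕ}

/-- `G` is a finite group of linear isometries of `ℝᵐ`. -/
structure IsIsometryGroup (G : Set (Vec m → Vec m)) : Prop where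
  finite : G.Finite
  linear : ∀ P ∈ G, ∀ (a : ℝ) (x y : Vec m), P (a • x + y) = a • P x + P y
  norm : ∀ P ∈ G, ∀ x, ‖P x‖ = ‖x‖
  one : id ∈ G
  mul : ∀ P ∈ G, ∀ Q ∈ G, P ∘ Q ∈ G
  inv : ∀ P ∈ G, ∃ Q ∈ G, P ∘ Q = id ∧ Q ∘ P = id

/-- `M` is a closed submanifold of `𝕋ᵈ`, `M'` one of `𝕋ᵐ`, `O` an open subset of `ℝᵐ` invariant under `ℤᵐ`, and
`V = M'.N ∩ O`. `G` is a finite group of linear isometries of `ℝᵐ` which preserve `ℤᵐ`, `M'.N` and `O`, and no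
element of `ℤᵐ ⋊ G` other than the identity has a fixed point in `V`. The smooth map `φ : V → M` induces a
diffeomorphism of `V / (ℤᵐ ⋊ G)` onto an open subset of `M` (points of `M` are points of `M.N` modulo `ℤᵈ`). -/
structure IsChart (M : Sub d) (M' : Sub m) (O : Set (Vec m)) (G : Set (Vec m → Vec m))
    (φ : Vec m → Vec d) : Prop where
  group : IsIsometryGroup G
  int : ∀ P ∈ G, ∀ n : Fin m → ℤ, ∃ n' : Fin m → ℤ, P (vz n) = vz n'
  mapsN : ∀ P ∈ G, ∀ x ∈ M'.N, P x ∈ M'.N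
  mapsO : ∀ P ∈ G, ∀ x ∈ O, P x ∈ O
  isOpen : IsOpen O
  perO : ∀ (n : Fin m → ℤ), ∀ x ∈ O, x + vz n ∈ O
  free : ∀ P ∈ G, ∀ n : Fin m → ℤ, ∀ x ∈ M'.N ∩ O, P x + vz n = x → P = id ∧ n = 0
  smooth : ContDiffOn ℝ ∞ φ O
  maps : ∀ x ∈ M'.N ∩ O, φ x ∈ M.N
  fibre : ∀ x ∈ M'.N ∩ O, ∀ y ∈ M'.N ∩ O,
    (∃ l : Fin d → ℤ, φ y = φ x + vz l) ↔ ∃ P ∈ G, ∃ n : Fin m → ℤ, y = P x + vz n
  inverse : ∀ x ∈ M'.N ∩ O, ∃ ψ : Vec d → Vec m, ContDiffAt ℝ ∞ ψ (φ x) ∧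
    (∀ᶠ y in 𝓝 x, y ∈ M'.N → ψ (φ y) = y) ∧
    ∀ᶠ w in 𝓝 (φ x), w ∈ M.N → ψ w ∈ M'.N ∩ O ∧ φ (ψ w) = w

/-- The class of Lagrangians on `M`: `L` is near `κ(t) F(x, v, t)²/2` for a time-periodic family of continuous
Finsler metrics `F` on `M`, and some domain of `M` carries, for this family, calibrated simple closed geodesics
with a second direction which is cheaper than the exit from the domain. -/
def InClass (M : Sub d) (L : Lag d) : Prop :=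
  ∃ (κ : ℝ → ℝ) (F : Vec d → Vec d → ℝ → ℝ) (m : ℕ) (M' : Sub m) (O K : Set (Vec m))
    (G : Set (Vec m → Vec m)) (φ : Vec m → Vec d) (B : Vec m → ℝ → ℝ) (i : Fin m) (len a : ℝ)
    (c : ℝ → ℝ → Vec m), IsWeight κ ∧ IsFinslerT M F ∧ IsNearT M κ F L ∧ IsChart M M' O G φ ∧
      IsCalibratedW M' O φ (pull φ F) B i len c ∧ IsRoom M' O K (pull φ F) B i c a

end EscW.V
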