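import Pool.Agent.EscMT.PDefs
import Pool.Agent.EscM.NDefs
import Pool.Agent.EscW.WDefs

set_option autoImplicit false

/-!
Project EscW (MP_6acca1_an): inner definitions. Rooms on `N`, cut-off data on `M'`, extension of potentials.
-/

noncomputable section

namespace EscW

open MeasureTheory Set Filter Topology Esc EscF EscG EscM EscMT EscF.T
open scoped ContDiff

section N

variable {ι : Type} [Fintype ι] {E : Type*} [NormedAddCommGroup E] [InnerProductSpace ℝ E]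

/-- excess of a curve -/
def excN (F : E → E → ℝ → ℝ) (B : E → ℝ → ℝ) (t : ℝ) (γ : ℝ → E) : ℝ :=
  (∫ s in (0:ℝ)..1, F (γ s) (deriv γ s) t) - (B (γ 1) t - B (γ 0) t)

/-- A closed periodic subset `K` of `N` which contains the curves: the exit costs at least `a`, a second
direction less. -/
structure RoomP (β : Module.Basis ι ℝ E) (N K : Set E) (F : E → E → ℝ → ℝ) (B : E → ℝ → ℝ) (k0 : ι)
    (c : ℝ → ℝ → E) (a : ℝ) : Prop where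
  closed : IsClosed K
  sub : K ⊆ N
  per : ∀ i x, x + β i ∈ K ↔ x ∈ K
  mem : ∀ σ t, c σ t ∈ K
  exit : ∀ (t σ : ℝ) (γ : ℝ → E), (∃ C, LipschitzWith C γ) → γ 0 = c σ t → (∀ s ∈ Icc (0:ℝ) 1, γ s ∈ K) →
    γ 1 ∈ closure (N \ K) → a ≤ excN F B t γ
  second : ∃ (t : ℝ) (v0 : E) (γ : ℝ → E), v0 ∈ Submodule.span ℤ (Set.range β) ∧
    (∀ k : ℤ, v0 ≠ (k : ℝ) • β k0) ∧ (∃ C, LipschitzWith C γ) ∧ γ 0 = c 0 t ∧ γ 1 = c 0 t + v0 ∧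
    (∀ s ∈ Icc (0:ℝ) 1, γ s ∈ K) ∧ excN F B t γ < a

end N

variable {d m : ℕ}

/-- `Ψ`, `Ψ₂` are cut-offs near `K`, `5 ρ` is the size of the tube of `M'`, `4 a0` the size of a neighbourhood
of `K` in `O`, and `ℓ` is linear with the periods of `B` -/
structure CutW (M' : Sub m) (O K : Set (Vec m)) (B : Vec m → ℝ → ℝ) (ρ a0 : ℝ) (Ψ Ψ₂ : Vec m → ℝ)
    (ℓ : Vec m →L[ℝ] ℝ) : Prop where
  ρ_pos : 0 < ρ
  a0_pos : 0 < a0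
  ne : K.Nonempty
  closed : IsClosed K
  perK : ∀ (n : Fin m → ℤ), ∀ x ∈ K, x + vz n ∈ K
  subK : K ⊆ M'.N
  tube : ∀ x, Metric.infDist x M'.N < 5 * ρ → x ∈ M'.U
  room : ∀ x, Metric.infDist x K < 4 * a0 → x ∈ O
  s1 : ContDiff ℝ ∞ Ψ
  per1 : ∀ (n : Fin m → ℤ) x, Ψ (x + vz n) = Ψ x
  Ψ01 : ∀ x, 0 ≤ Ψ x ∧ Ψ x ≤ 1
  one1 : ∀ x, Metric.infDist x K ≤ a0 → Ψ x = 1
  zero1 : ∀ x, 2 * a0 ≤ Metric.infDist x K → Ψ x = 0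
  s2 : ContDiff ℝ ∞ Ψ₂
  per2 : ∀ (n : Fin m → ℤ) x, Ψ₂ (x + vz n) = Ψ₂ x
  Ψ201 : ∀ x, 0 ≤ Ψ₂ x ∧ Ψ₂ x ≤ 1
  one2 : ∀ x, Metric.infDist x K ≤ 2 * a0 → Ψ₂ x = 1
  zero2 : ∀ x, 3 * a0 ≤ Metric.infDist x K → Ψ₂ x = 0
  ell : ∀ (n : Fin m → ℤ), ∀ x ∈ M'.N ∩ O, ∀ t, B (x + vz n) t = B x t + ℓ (vz n)

/-- the metric on `M'`: the pulled back metric near `K`, large elsewhere -/
def F1 (φ : Vec m → Vec d) (F : Vec d → Vec d → ℝ → ℝ) (κ : ℝ → ℝ) (Ψ : Vec m → ℝ) (Λ₁ : ℝ)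
    (x v : Vec m) (t : ℝ) : ℝ :=
  √(Ψ x * pull φ F x v t ^ 2 + (1 - Ψ x) * (Λ₁ * ‖v‖ ^ 2 / κ t))

/-- the calibrating function on `M'` -/
def B1 (B : Vec m → ℝ → ℝ) (Ψ₂ : Vec m → ℝ) (ℓ : Vec m → ℝ) (x : Vec m) (t : ℝ) : ℝ :=
  ℓ x + Ψ₂ x * (B x t - ℓ x)

/-- the Lagrangian on `M'` -/
def L1 (φ : Vec m → Vec d) (L : Lag d) (Ψ : Vec m → ℝ) (Λ₁ : ℝ) (x v : Vec m) (t : ℝ) : ℝ :=
  Ψ x * L (φ x, fderiv ℝ φ x v, t) + (1 - Ψ x) * (Λ₁ * ‖v‖ ^ 2 / 2)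

/-- `χ` is a cut-off near `K`, `R` a global smooth map equal to the nearest point map near `M'.N` -/
structure TubeW (M' : Sub m) (O K : Set (Vec m)) (ρ a0 : ℝ) (χ : Vec m → ℝ) (R : Vec m → Vec m) :
    Prop where
  ρ_pos : 0 < ρ
  a0_pos : 0 < a0
  ne : K.Nonempty
  closed : IsClosed K
  perK : ∀ (n : Fin m → ℤ), ∀ x ∈ K, x + vz n ∈ K
  subK : K ⊆ M'.N
  tube : ∀ x, Metric.infDist x M'.N < 5 * ρ → x ∈ M'.U
  room : ∀ x, Metric.infDist x K < 4 * a0 → x ∈ O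
  sχ : ContDiff ℝ ∞ χ
  perχ : ∀ (n : Fin m → ℤ) x, χ (x + vz n) = χ x
  χ01 : ∀ x, 0 ≤ χ x ∧ χ x ≤ 1
  one : ∀ x, Metric.infDist x M'.N ≤ 3 * ρ → Metric.infDist (M'.r x) K ≤ 2 * a0 → χ x = 1
  zero : ∀ x, 4 * ρ ≤ Metric.infDist x M'.N → χ x = 0
  zero' : ∀ x, Metric.infDist x M'.N ≤ 4 * ρ → 3 * a0 ≤ Metric.infDist (M'.r x) K → χ x = 0
  sR : ContDiff ℝ ∞ R
  perR : ∀ (n : Fin m → ℤ) x, R (x + vz n) = R x + vz n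
  R_eq : ∀ x, Metric.infDist x M'.N ≤ 4 * ρ → R x = M'.r x

/-- extension of a potential on `M` to the torus which contains `M'` -/
def extw {M : Sub d} {k : ℕ∞} (φ : Vec m → Vec d) (χ : Vec m → ℝ) (R : Vec m → Vec m)
    (f : EscM.Pot M k) : Vec m → ℝ → ℝ :=
  fun x t => χ x * f.toFun (φ (R x), t)

/-- potentials on the torus which vanish, with their gradient, on `M'` near `K` -/
def YW (M' : Sub m) (K : Set (Vec m)) (a0 : ℝ) (k : ℕ∞) : Set (EscF.T.Pot m k) :=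
  {h | ∀ x ∈ M'.N, Metric.infDist x K ≤ a0 → ∀ t, h.toFun (x, t) = 0 ∧
    fderiv ℝ (fun y => h.toFun (y, t)) x = 0}

/-- the potential on the torus -/
def fw {M : Sub d} {k : ℕ∞} (φ : Vec m → Vec d) (χ : Vec m → ℝ) (R : Vec m → Vec m)
    (f : EscM.Pot M k) (h : EscF.T.Pot m k) : Vec m → ℝ → ℝ :=
  fun x t => extw φ χ R f x t + h.toFun (x, t)

/-- smooth perturbations which do not depend on the normal variable near `M'.N` and are symmetric on `M'` -/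
def MClW (M' : Sub m) (G : Subgroup (Vec m ≃ₗᵢ[ℝ] Vec m)) (g : Vec m → ℝ → ℝ) : Prop :=
  Sm (bas m) g ∧ (∃ δ : ℝ, 0 < δ ∧ ∀ x, Metric.infDist x M'.N < δ → ∀ t, g x t = g (M'.r x) t) ∧
    ∀ P ∈ G, ∀ x ∈ M'.N, ∀ t, g (P x) t = g x t

/-- the potential grows in the normal directions near `K` -/
def VW (M' : Sub m) (K : Set (Vec m)) (ρ a0 : ℝ) (g : Vec m → ℝ → ℝ) : Prop :=
  ∃ ε : ℝ, 0 < ε ∧ ∀ x, Metric.infDist x M'.N ≤ ρ → Metric.infDist (M'.r x) K ≤ a0 → ∀ t,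
    ε * ‖x - M'.r x‖ ^ 2 ≤ fderiv ℝ (fun y => g y t) x (x - M'.r x)

end EscW
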