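import Pool.Agent.EscW.XDefs
import Pool.Agent.EscW.WEDefs
import Pool.Agent.EscG.B1
import Pool.Agent.EscG.B2
import Pool.Agent.EscM.A5

set_option autoImplicit false

/-!
Project EscW, module X0: rooms, in terms of controls.
`exitK`: for a control `u` on `[0,b]` the curve `γ s = traj 0 z u (b s)` is Lipschitz, `deriv γ s = b u (b s)` almost everywhere (`B1_traj_deriv`), and `excN` of it is the cost of the control (change of variable, homogeneity of
`F`; `(γ, γ') ∈ TN` almost everywhere, since `r ∘ γ = γ`). `a_pos`: the excess of the curve in `second` is nonnegative (`CalP.le`; fundamental theorem for the Lipschitz function `B (γ s) t`, `B ∘ r` is `C^1` near `N`).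
`secK`: `u = deriv γ` (measurable, bounded by the Lipschitz constant; a Lipschitz curve is the integral of its derivative).
-/

noncomputable section

namespace EscW

open MeasureTheory Set Filter Topology Esc EscF EscG EscM EscMT
open scoped ContDiff

variable {ι : Type} [Fintype ι] {E : Type*} [NormedAddCommGroup E] [InnerProductSpace ℝ E]
  [FiniteDimensional ℝ E] {β : Module.Basis ι ℝ E} {N : Set E} {r : E → E} {R : ℝ}
variable {F : E → E → ℝ → ℝ} {mF MF A : ℝ} {κ : ℝ → ℝ} {B : E → ℝ → ℝ} {k0 : ι} {len : ℝ}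
  {c c' ct : ℝ → ℝ → E}

theorem X0_adm {γ : ℝ → E} {C : NNReal} (hγ : LipschitzWith C γ) : Adm (deriv γ) :=
  ⟨stronglyMeasurable_deriv γ, C, fun _ => norm_deriv_le_of_lipschitz hγ⟩

theorem X0_ftc {γ : ℝ → E} {C : NNReal} (hγ : LipschitzWith C γ) (s : ℝ) :
    traj 0 (γ 0) (deriv γ) s = γ s := by
  have _ : CompleteSpace E := FiniteDimensional.complete ℝ E
  have hd : ∀ᵐ x, DifferentiableAt ℝ γ x := hγ.ae_differentiableAt
  have hii : IntervalIntegrable (deriv γ) volume 0 s := (X0_adm hγ).ii 0 s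
  unfold traj
  refine (SeparatingDual.eq_iff_forall_dual_eq (R := ℝ)).2 fun ℓ => ?_
  have hlip : LipschitzWith (‖ℓ‖₊ * C) (fun s => ℓ (γ s)) := ℓ.lipschitz.comp hγ
  have hint := (hlip.lipschitzOnWith (s := uIcc 0 s)).absolutelyContinuousOnInterval.integral_deriv_eq_sub
  have h1 : ∫ x in (0:ℝ)..s, deriv (fun s => ℓ (γ s)) x = ∫ x in (0:ℝ)..s, ℓ (deriv γ x) := by
    refine intervalIntegral.integral_congr_ae ?_
    filter_upwards [hd] with x hx _
    exact (ℓ.hasFDerivAt.comp_hasDerivAt x hx.hasDerivAt).deriv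
  rw [h1, ContinuousLinearMap.intervalIntegral_comp_comm ℓ hii] at hint
  rw [map_add, hint]
  ring

theorem X0_zero (z : E) (u : ℝ → E) : traj 0 z u 0 = z := by simp [traj]

/-- velocities of curves in `N` are tangent -/
theorem X0_TN (h : Tb β N r R) {u : ℝ → E} (hu : Adm u) {z : E} {b : ℝ}
    (hK : ∀ s ∈ Icc 0 b, traj 0 z u s ∈ N) :
    ∀ᵐ s : ℝ, s ∈ Ioo 0 b → HasDerivAt (traj 0 z u) (u s) s ∧ (traj 0 z u s, u s) ∈ TN N r := by
  filter_upwards [B1_traj_deriv hu 0 z] with s hs hsb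
  have hm : traj 0 z u s ∈ N := hK s ⟨hsb.1.le, hsb.2.le⟩
  refine ⟨hs, hm, ?_⟩
  have h0 : Metric.infDist (traj 0 z u s) N < R := by
    rw [Metric.infDist_zero_of_mem hm]
    exact h.R_pos
  have h1 : HasDerivAt (fun s => r (traj 0 z u s)) (fderiv ℝ r (traj 0 z u s) (u s)) s :=
    (h.diff h0).hasFDerivAt.comp_hasDerivAt s hs
  have h2 : (fun s => r (traj 0 z u s)) =ᶠ[𝓝 s] traj 0 z u := by
    filter_upwards [Ioo_mem_nhds hsb.1 hsb.2] with s' hs'
    exact h.r_eq (hK s' ⟨hs'.1.le, hs'.2.le⟩)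
  exact (h1.congr_of_eventuallyEq h2.symm).unique hs

theorem X0_calN (hc : CalP β N r R F A B k0 len c c' ct) (t : ℝ) :
    CalN β N r R (fun x v => F x v t) (fun x => B x t) k0 len (fun σ => c σ t) (fun σ => c' σ t) := by
  refine
    { smooth := ?_
      per := fun i => ?_
      le := fun x v hv => hc.le x v t hv
      len_pos := hc.len_pos
      mem := fun σ => hc.mem σ t
      hasDeriv := fun σ => hc.c_σ σ t
      contDeriv := ?_
      closed := fun σ => hc.closed σ t
      unit := fun σ => hc.unit σ t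
      cal := fun σ => hc.cal σ t
      only := fun x v hv h0 he => hc.only x v t hv h0 he
      simple := fun s s' hs => hc.simple s s' t hs }
  · have h1 : ContDiffOn ℝ 1 (fun x : E => ((x, t) : E × ℝ)) {x | Metric.infDist x N < R} :=
      (contDiff_id.prodMk contDiff_const).contDiffOn
    exact hc.smooth.comp h1 fun x hx => hx
  · obtain ⟨a, ha⟩ := hc.per i
    exact ⟨a, fun x hx => ha x hx t⟩
  · have h1 : Continuous (fun σ : ℝ => ((σ, t) : ℝ × ℝ)) := by fun_prop
    exact hc.c'_cont.comp h1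

theorem X0_ne (b : ℝ) : ∀ᵐ s : ℝ, s ≠ b := by
  rw [ae_iff]
  simp

/-- the excess of a curve in `N` is nonnegative -/
theorem X0_nonneg (h : Tb β N r R) (hF : FinsP β N r F mF MF A κ)
    (hc : CalP β N r R F A B k0 len c c' ct) (t : ℝ) {u : ℝ → E} (hu : Adm u) (z : E) {b : ℝ}
    (hb : 0 ≤ b) (hK : ∀ s ∈ Icc 0 b, traj 0 z u s ∈ N) :
    B (traj 0 z u b) t - B z t ≤ ∫ s in (0:ℝ)..b, F (traj 0 z u s) (u s) t := by
  obtain ⟨ρ, hρ⟩ : ∃ ρ, ρ = R / 5 := ⟨_, rfl⟩
  have hR := h.R_pos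
  have hρ0 : 0 < ρ := by rw [hρ]; positivity
  have hR4 : 4 * ρ < R := by rw [hρ]; linarith
  have hR2 : 2 * ρ < R := by linarith
  have cN := X0_calN hc t
  obtain ⟨ℓ, hℓ⟩ := cN.exists_ell
  have hG := h.Bt_smooth cN hρ0 hR4 ℓ
  obtain ⟨C, hC⟩ := h.Bt_bd cN hρ0 hR4 hℓ
  obtain ⟨mF', MF', hFt⟩ := h.Ft_fins (hF.fn t) hρ0 hR2 (Λ := 1) one_pos
  have hval : ∀ x ∈ N, Bt N r ρ (fun x => B x t) ℓ x = B x t := by
    intro x hx
    rw [h.Bt_eq hρ0 hR4 ℓ (by rw [Metric.infDist_zero_of_mem hx]; positivity), h.r_eq hx]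
  have hz : z ∈ N := by
    have := hK 0 ⟨le_rfl, hb⟩
    rwa [X0_zero] at this
  have hftc := ftc_traj hG hu 0 z b
  rw [hval _ (hK b ⟨hb, le_rfl⟩), hval z hz] at hftc
  rw [hftc]
  have hcongr : ∫ s in (0:ℝ)..b, F (traj 0 z u s) (u s) t =
      ∫ s in (0:ℝ)..b, Ft N r ρ 1 (fun x v => F x v t) (traj 0 z u s) (u s) := by
    refine intervalIntegral.integral_congr_ae ?_
    filter_upwards [X0_TN h hu hK, X0_ne b] with s hs hsb hsm
    rw [uIoc_of_le hb] at hsm
    exact (h.Ft_tan (hF.fn t) hρ0 hR2 1 (hs ⟨hsm.1, lt_of_le_of_ne hsm.2 hsb⟩).2).symm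
  rw [hcongr]
  have hcont : Continuous fun p : E × E => fderiv ℝ (Bt N r ρ (fun x => B x t) ℓ) p.1 p.2 :=
    ((hG.continuous_fderiv one_ne_zero).comp continuous_fst).clm_apply continuous_snd
  have hi1 : IntervalIntegrable (fun s => fderiv ℝ (Bt N r ρ (fun x => B x t) ℓ) (traj 0 z u s) (u s))
      volume 0 b := by
    refine B2.ii (Φ := fun x v => fderiv ℝ (Bt N r ρ (fun x => B x t) ℓ) x v) (K := |C|) hcont ?_
      (abs_nonneg C) hu 0 z 0 b
    intro x v
    exact (hC x v).trans (mul_le_mul_of_nonneg_right (le_abs_self C) (norm_nonneg v))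
  have hi2 : IntervalIntegrable
      (fun s => Ft N r ρ 1 (fun x v => F x v t) (traj 0 z u s) (u s)) volume 0 b :=
    A5a_ii hFt hu 0 z 0 b
  refine intervalIntegral.integral_mono_ae_restrict hb hi1 hi2 ?_
  rw [Filter.EventuallyLE, ae_restrict_iff' measurableSet_Icc]
  filter_upwards [X0_TN h hu hK, X0_ne b, X0_ne 0] with s hs hsb hs0 hsm
  obtain ⟨-, hTN⟩ := hs ⟨lt_of_le_of_ne hsm.1 (Ne.symm hs0), lt_of_le_of_ne hsm.2 hsb⟩
  have hx0 : Metric.infDist (traj 0 z u s) N ≤ 3 * ρ := by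
    rw [Metric.infDist_zero_of_mem hTN.1]
    positivity
  have e1 : fderiv ℝ (Bt N r ρ (fun x => B x t) ℓ) (traj 0 z u s) (u s) =
      fderiv ℝ (fun y => B (r y) t) (traj 0 z u s) (u s) := by
    rw [h.Bt_fd cN hρ0 hR4 ℓ hx0 (u s), h.r_eq hTN.1, hTN.2]
  have e2 : Ft N r ρ 1 (fun x v => F x v t) (traj 0 z u s) (u s) = F (traj 0 z u s) (u s) t :=
    h.Ft_tan (hF.fn t) hρ0 hR2 1 hTN
  rw [e1, e2]
  exact hc.le _ _ t hTN

/-- change of variable -/
theorem X0_cov (h : Tb β N r R) (hF : FinsP β N r F mF MF A κ) (t : ℝ) {u : ℝ → E} (hu : Adm u) (z : E)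
    {b : ℝ} (hb : 0 < b) (hK : ∀ s ∈ Icc 0 b, traj 0 z u s ∈ N) :
    ∫ s in (0:ℝ)..1, F (traj 0 z u (b * s)) (deriv (fun s => traj 0 z u (b * s)) s) t =
      ∫ s in (0:ℝ)..b, F (traj 0 z u s) (u s) t := by
  have hq : Measure.QuasiMeasurePreserving (fun s : ℝ => b * s) volume volume := by
    refine ⟨measurable_const_mul b, ?_⟩
    rw [Real.map_volume_mul_left hb.ne']
    exact Measure.smul_absolutelyContinuous
  have h1 := hq.ae (X0_TN h hu hK)
  have h2 : ∫ s in (0:ℝ)..1, F (traj 0 z u (b * s)) (deriv (fun s => traj 0 z u (b * s)) s) t =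
      ∫ s in (0:ℝ)..1, b * F (traj 0 z u (b * s)) (u (b * s)) t := by
    refine intervalIntegral.integral_congr_ae ?_
    filter_upwards [h1, X0_ne 1] with s hs hs1 hsm
    rw [uIoc_of_le zero_le_one] at hsm
    have hs2 : s < 1 := lt_of_le_of_ne hsm.2 hs1
    have hmem : b * s ∈ Ioo 0 b := ⟨mul_pos hb hsm.1, by nlinarith⟩
    obtain ⟨hd, hTN⟩ := hs hmem
    have h3 : HasDerivAt (fun s : ℝ => b * s) b s := by
      simpa using (hasDerivAt_id s).const_mul b
    have h4 : HasDerivAt (fun s => traj 0 z u (b * s)) (b • u (b * s)) s := hd.scomp s h3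
    rw [h4.deriv]
    exact (hF.fn t).hom _ _ _ hTN hb.le
  rw [h2, intervalIntegral.integral_const_mul,
    intervalIntegral.mul_integral_comp_mul_left (f := fun s => F (traj 0 z u s) (u s) t) b]
  simp

theorem RoomP.exitK (h : Tb β N r R) (hF : FinsP β N r F mF MF A κ)
    (hc : CalP β N r R F A B k0 len c c' ct) {K : Set E} {a : ℝ} (hR : RoomP β N K F B k0 c a) :
    ExitK β N F B c K a := by
  obtain ⟨t0, v0, γ0, hv0, hn0, ⟨C0, hγ0⟩, h00, h01, hK0, hlt0⟩ := hR.second
  have hNK : ∀ x ∈ K, x ∈ N := fun x hx => hR.sub hx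
  refine
    { a_pos := ?_
      closed := hR.closed
      sub := hR.sub
      per := hR.per
      mem := hR.mem
      exit := ?_ }
  · have h1 := X0_nonneg h hF hc t0 (X0_adm hγ0) (γ0 0) zero_le_one (fun s hs => by
      rw [X0_ftc hγ0]
      exact hNK _ (hK0 s hs))
    simp only [X0_ftc hγ0] at h1
    unfold excN at hlt0
    linarith
  · intro σ t u hu b hb hK hcl
    rcases hb.eq_or_lt with hb0 | hb0
    · subst hb0
      rw [X0_zero] at hcl ⊢
      have hz : c σ t ∈ K := hR.mem σ t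
      have h1 := hR.exit t σ (fun _ => c σ t) ⟨0, LipschitzWith.const _⟩ rfl (fun _ _ => hz) hcl
      unfold excN at h1
      have h2 : F (c σ t) 0 t = 0 := by
        have hTN : (c σ t, (0 : E)) ∈ TN N r := ⟨hNK _ hz, by simp⟩
        have := (hF.fn t).hom (c σ t) 0 0 hTN le_rfl
        simpa using this
      simp only [deriv_const, h2] at h1
      simpa using h1
    · obtain ⟨C, hC⟩ := hu.2
      have hC0 : 0 ≤ C := (norm_nonneg _).trans (hC 0)
      have hlip : LipschitzWith (C * b).toNNReal (fun s => traj 0 (c σ t) u (b * s)) := by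
        refine LipschitzWith.of_dist_le_mul fun s s' => ?_
        rw [dist_eq_norm, Real.dist_eq, Real.coe_toNNReal _ (by positivity)]
        refine (B1_traj_lip hu hC 0 (c σ t) (b * s') (b * s)).trans (le_of_eq ?_)
        rw [← mul_sub, abs_mul, abs_of_pos hb0]
        ring
      have h1 := hR.exit t σ (fun s => traj 0 (c σ t) u (b * s)) ⟨_, hlip⟩
        (by simp only [mul_zero]; exact X0_zero _ _)
        (fun s hs => hK (b * s) ⟨mul_nonneg hb0.le hs.1, by nlinarith [hs.2]⟩)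
        (by simpa using hcl)
      unfold excN at h1
      rw [X0_cov h hF t hu (c σ t) hb0 (fun s hs => hNK _ (hK s hs))] at h1
      simpa [X0_zero] using h1

theorem RoomP.secK (h : Tb β N r R) (hF : FinsP β N r F mF MF A κ)
    (hc : CalP β N r R F A B k0 len c c' ct) {K : Set E} {a : ℝ} (hR : RoomP β N K F B k0 c a) :
    ∃ (t : ℝ) (v0 : E) (u : ℝ → E), SecK β F B k0 c K a t v0 u := by
  obtain ⟨t, v0, γ, hv0, hn, ⟨C, hγ⟩, h0, h1, hK, hlt⟩ := hR.second
  have hft : ∀ s, traj 0 (c 0 t) (deriv γ) s = γ s := by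
    intro s
    rw [← h0]
    exact X0_ftc hγ s
  refine ⟨t, v0, deriv γ, ?_⟩
  refine
    { v0_mem := hv0
      v0_not := hn
      adm := X0_adm hγ
      path := fun s hs => by
        rw [hft]
        exact hK s hs
      fin := by rw [hft, h1]
      cost := ?_ }
  simp only [hft]
  unfold excN at hlt
  rw [h1, h0] at hlt
  exact hlt

end EscW
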