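import Pool.Agent.EscW.XDefs
import Pool.Agent.EscMT.P1
import Pool.Agent.EscM.A8a

set_option autoImplicit false

/-!
Project EscW, module X1: paths at frozen time: leaving the tube, projection, paths in `N`.
`shellT`, `projT`: `EscM.Ext.shell`, `EscM.Ext.proj` for `ExtP.fr h t`, divided by `√(κ t)` (`Fs_eq`, `Bt` of `√κ B` is `√κ` times `Bs`; `1 / √(κ t) ≥ 1 / √A`); drop the gain term in `proj`.
`pathN`: a path in `N`: `r (x s) = x s`, so `(x s, u s) ∈ TN` almost everywhere (`B1_traj_deriv`, chain rule), `Fs = F` there (`Fs_tan`); `Bs x t = B x t` on `N` (`EscM.Tb.Bt_eq`, `r x = x`).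
`tail`: `EscM.Ext.calC` for `ExtP.fr`: `fderiv Bs ≤ Fs`, and `EscG.ftc_traj` for `Bs · t`.
-/

noncomputable section

namespace EscW

open MeasureTheory Set Filter Topology Esc EscF EscG EscM EscMT
open scoped ContDiff

variable {ι : Type} [Fintype ι] {E : Type*} [NormedAddCommGroup E] [InnerProductSpace ℝ E]
  [FiniteDimensional ℝ E] {β : Module.Basis ι ℝ E} {N : Set E} {r : E → E} {R : ℝ}
variable {F : E → E → ℝ → ℝ} {mF MF A : ℝ} {κ : ℝ → ℝ} {B : E → ℝ → ℝ} {k0 : ι} {len : ℝ}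
  {c c' ct : ℝ → ℝ → E} {ℓ : E →L[ℝ] ℝ} {ρ C Λ mF' MF' : ℝ}

/-- the cost at frozen time, rescaled -/
theorem X1_cost (h : ExtP β N r R F mF MF A κ B k0 len c c' ct ℓ ρ C Λ) (t a b : ℝ) (z : E)
    (u : ℝ → E) (y y' : E) :
    (∫ s in a..b, Ft N r ρ Λ (sF κ F t) (traj a z u s) (u s)) -
        (Bt N r ρ (fun x => √(κ t) * B x t) (√(κ t) • ℓ : E →L[ℝ] ℝ) y -
          Bt N r ρ (fun x => √(κ t) * B x t) (√(κ t) • ℓ : E →L[ℝ] ℝ) y') =
      √(κ t) * ((∫ s in a..b, Fs N r ρ Λ κ F (traj a z u s) (u s) t) -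
        (Bs N r ρ B ℓ y t - Bs N r ρ B ℓ y' t)) := by
  rw [P1_Bt']
  have h1 : (fun s => Ft N r ρ Λ (sF κ F t) (traj a z u s) (u s)) =
      fun s => √(κ t) * Fs N r ρ Λ κ F (traj a z u s) (u s) t :=
    funext fun s => (Fs_eq h.fp ρ Λ _ _ t).symm
  rw [h1, intervalIntegral.integral_const_mul]
  ring

theorem X1_Bs (h : ExtP β N r R F mF MF A κ B k0 len c c' ct ℓ ρ C Λ) (t : ℝ) {x : E} (hx : x ∈ N) :
    Bs N r ρ B ℓ x t = B x t := by
  have h1 := h.ρ_pos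
  have h2 := h.ρ_lt
  have h3 : Metric.infDist x N ≤ 3 * ρ := by
    rw [Metric.infDist_zero_of_mem hx]
    positivity
  unfold Bs
  rw [h.tb.Bt_eq h1 (by linarith) ℓ h3, h.tb.r_eq hx]

theorem shellT (h : ExtP β N r R F mF MF A κ B k0 len c c' ct ℓ ρ C Λ)
    (hf : ∀ t, Fins β (fun x v => Fs N r ρ Λ κ F x v t) mF' MF') (t : ℝ)
    {z : E} {u : ℝ → E} (hu : Adm u) {a b s s' : ℝ} (hab : a ≤ b) (hs : s ∈ Icc a b) (hs' : s' ∈ Icc a b)
    (h1 : traj a z u s ∈ N) (h2 : 3 * ρ ≤ Metric.infDist (traj a z u s') N) :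
    √Λ / (2 * √A) * ρ ≤ (∫ s in a..b, Fs N r ρ Λ κ F (traj a z u s) (u s) t) -
      (Bs N r ρ B ℓ (traj a z u b) t - Bs N r ρ B ℓ z t) := by
  have h3 := (h.fr t).shell (fins_fr h hf t) hu hab hs hs' h1 h2
  rw [X1_cost h] at h3
  have hs0 := P2_s_pos h.fp t
  have hA0 := P2_a_pos h.fp
  have hle := P2_s_le h.fp t
  have hρ := h.ρ_pos
  have h4 : √Λ / (2 * √A) * ρ * √(κ t) ≤ √Λ / 2 * ρ := by
    have e1 : √Λ / (2 * √A) * ρ * √(κ t) = √Λ / 2 * ρ * (√(κ t) / √A) := by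
      field_simp
    have e2 : √(κ t) / √A ≤ 1 := (div_le_one hA0).2 hle
    rw [e1]
    have e3 : 0 ≤ √Λ / 2 * ρ := by positivity
    calc √Λ / 2 * ρ * (√(κ t) / √A) ≤ √Λ / 2 * ρ * 1 := mul_le_mul_of_nonneg_left e2 e3
      _ = √Λ / 2 * ρ := mul_one _
  have h5 := h4.trans h3
  rw [mul_comm] at h5
  exact le_of_mul_le_mul_left h5 hs0

theorem projT (h : ExtP β N r R F mF MF A κ B k0 len c c' ct ℓ ρ C Λ)
    (hf : ∀ t, Fins β (fun x v => Fs N r ρ Λ κ F x v t) mF' MF') (t : ℝ)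
    {z : E} {u : ℝ → E} (hu : Adm u) {a b : ℝ} (hab : a ≤ b)
    (hx : ∀ s ∈ Icc a b, Metric.infDist (traj a z u s) N ≤ 3 * ρ) :
    ∃ u' : ℝ → E, Adm u' ∧ (∀ s ∈ Icc a b, traj a (r z) u' s = r (traj a z u s)) ∧
      (∫ s in a..b, Fs N r ρ Λ κ F (traj a (r z) u' s) (u' s) t) -
            (Bs N r ρ B ℓ (r (traj a z u b)) t - Bs N r ρ B ℓ (r z) t) ≤
        (∫ s in a..b, Fs N r ρ Λ κ F (traj a z u s) (u s) t) -
          (Bs N r ρ B ℓ (traj a z u b) t - Bs N r ρ B ℓ z t) := by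
  obtain ⟨u', hu', h1, h2⟩ := (h.fr t).proj (fins_fr h hf t) hu hab hx
  refine ⟨u', hu', h1, ?_⟩
  have h3 := h2 a (left_mem_Icc.2 hab) a (left_mem_Icc.2 hab)
  rw [sub_self, abs_zero, mul_zero, add_zero, X1_cost h, X1_cost h] at h3
  exact le_of_mul_le_mul_left h3 (P2_s_pos h.fp t)

theorem pathN (h : ExtP β N r R F mF MF A κ B k0 len c c' ct ℓ ρ C Λ) (t : ℝ)
    {z : E} {u : ℝ → E} (hu : Adm u) {a b : ℝ} (hab : a ≤ b) (hx : ∀ s ∈ Icc a b, traj a z u s ∈ N) :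
    (∫ s in a..b, Fs N r ρ Λ κ F (traj a z u s) (u s) t) -
        (Bs N r ρ B ℓ (traj a z u b) t - Bs N r ρ B ℓ z t) =
      (∫ s in a..b, F (traj a z u s) (u s) t) - (B (traj a z u b) t - B z t) := by
  have hρ := h.ρ_pos
  have hR := h.ρ_lt
  have hz : traj a z u a = z := by simp [traj]
  have hzN : z ∈ N := by
    have := hx a (left_mem_Icc.2 hab)
    rwa [hz] at this
  rw [X1_Bs h t (hx b (right_mem_Icc.2 hab)), X1_Bs h t hzN]
  congr 1
  refine intervalIntegral.integral_congr_ae ?_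
  have hb : ∀ᵐ s : ℝ, s ≠ b := by
    rw [ae_iff]
    simp
  filter_upwards [B1_traj_deriv hu a z, hb] with s hs hsb hmem
  rw [uIoc_of_le hab] at hmem
  have hso : s ∈ Ioo a b := ⟨hmem.1, lt_of_le_of_ne hmem.2 hsb⟩
  have hsN : traj a z u s ∈ N := hx s (Ioo_subset_Icc_self hso)
  have h1 : (fun q => r (traj a z u q)) =ᶠ[𝓝 s] traj a z u := by
    filter_upwards [Ioo_mem_nhds hso.1 hso.2] with q hq
    exact h.tb.r_eq (hx q (Ioo_subset_Icc_self hq))
  have h2 : HasDerivAt (fun q => r (traj a z u q)) (fderiv ℝ r (traj a z u s) (u s)) s :=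
    (h.tb.diff (P1_infDist h hsN)).hasFDerivAt.comp_hasDerivAt s hs
  have h3 : HasDerivAt (traj a z u) (fderiv ℝ r (traj a z u s) (u s)) s := h2.congr_of_eventuallyEq h1.symm
  have h4 : (traj a z u s, u s) ∈ TN N r := ⟨hsN, h3.unique hs⟩
  exact Fs_tan h.tb h.fp hρ (by linarith) Λ h4 t

/-- the cost of the second part of a path is nonnegative -/
theorem tail (h : ExtP β N r R F mF MF A κ B k0 len c c' ct ℓ ρ C Λ)
    (hf : ∀ t, Fins β (fun x v => Fs N r ρ Λ κ F x v t) mF' MF') (t : ℝ)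
    {z : E} {u : ℝ → E} (hu : Adm u) {a b b' : ℝ} (hab : a ≤ b) (hbb : b ≤ b') :
    (∫ s in a..b, Fs N r ρ Λ κ F (traj a z u s) (u s) t) -
        (Bs N r ρ B ℓ (traj a z u b) t - Bs N r ρ B ℓ z t) ≤
      (∫ s in a..b', Fs N r ρ Λ κ F (traj a z u s) (u s) t) -
        (Bs N r ρ B ℓ (traj a z u b') t - Bs N r ρ B ℓ z t) := by
  have hcal := (h.fr t).calC (fins_fr h hf t)
  have hs0 := P2_s_pos h.fp t
  have hcB : Continuous (fun p : E × E =>
      fderiv ℝ (Bt N r ρ (fun x => √(κ t) * B x t) (√(κ t) • ℓ : E →L[ℝ] ℝ)) p.1 p.2) :=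
    ((hcal.smooth.continuous_fderiv one_ne_zero).comp continuous_fst).clm_apply continuous_snd
  have iF : ∀ p q : ℝ, IntervalIntegrable
      (fun s => Ft N r ρ Λ (sF κ F t) (traj a z u s) (u s)) volume p q :=
    fun p q => A8a_ii hcal.fins.cont hu a z p q
  have iB : ∀ p q : ℝ, IntervalIntegrable (fun s =>
      fderiv ℝ (Bt N r ρ (fun x => √(κ t) * B x t) (√(κ t) • ℓ : E →L[ℝ] ℝ)) (traj a z u s) (u s))
      volume p q := fun p q => A8a_ii hcB hu a z p q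
  have h1 := X1_cost h t a b z u (traj a z u b) z
  have h2 := X1_cost h t a b' z u (traj a z u b') z
  have e1 := ftc_traj hcal.smooth hu a z b
  have e2 := ftc_traj hcal.smooth hu a z b'
  have e3 := intervalIntegral.integral_add_adjacent_intervals (iF a b) (iF b b')
  have e4 := intervalIntegral.integral_add_adjacent_intervals (iB a b) (iB b b')
  have e5 := intervalIntegral.integral_mono_on hbb (iB b b') (iF b b') fun s _ =>
    hcal.le (traj a z u s) (u s)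
  refine le_of_mul_le_mul_left ?_ hs0
  rw [← h1, ← h2, e1, e2, ← e3, ← e4]
  linarith

end EscW
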