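import Pool.Agent.EscW.X1
import Pool.Agent.EscT.C1

set_option autoImplicit false
set_option linter.unusedSectionVars false

/-!
Project EscW, module X2: the exit lemma.
Let `x` be a point with `D.j t (c σ t + w) x < min a (√Λ / (2 √A) ρ)`, `w` a lattice vector; translate by `-w`. Take an almost optimal control at frozen time (`EscT.exists_frozen`) from `c σ t` to `x + lv n`, of cost
`< min a (√Λ / (2 √A) ρ)` (the integral of `dB` is the increment of `Bs`: `EscG.ftc_traj`). By `shellT` it stays in `{infDist < 3 ρ}` (it starts in `N`); let `x'` be the projected path (`projT`), of cost `< a`, a path in `N` which starts in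
`K` and ends at `r x + lv n`. If it leaves `K`, let `s*` be the infimum of the times outside of `K`: `x' s* ∈ K ∩ closure (N \ K)`, the part up to `s*` is in `K` and costs at least `a` (`pathN`, `ExitK.exit`), contradiction with `tail`.
`secUs`: `EscT.j_le_frozen`, `pathN`, `D.Us ≤ D.j t (q t) (q t + v0)` (`EscT.Us_le`).
-/

noncomputable section

namespace EscW

open MeasureTheory Set Filter Topology Esc EscF EscG EscM EscMT
open scoped ContDiff

variable {ι : Type} [Fintype ι] {E : Type*} [NormedAddCommGroup E] [InnerProductSpace ℝ E]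
  [FiniteDimensional ℝ E] {β : Module.Basis ι ℝ E} {N : Set E} {r : E → E} {R : ℝ}
variable {F : E → E → ℝ → ℝ} {mF MF A : ℝ} {κ : ℝ → ℝ} {B : E → ℝ → ℝ} {k0 : ι} {len : ℝ}
  {c c' ct : ℝ → ℝ → E} {ℓ : E →L[ℝ] ℝ} {ρ C Λ mF' MF' : ℝ}

theorem X2_per {K : Set E} {a : ℝ} (hK : ExitK β N F B c K a) {w : E}
    (hw : w ∈ Submodule.span ℤ (Set.range β)) (x : E) : x + w ∈ K ↔ x ∈ K := by
  induction hw using Submodule.span_induction generalizing x with
  | mem y hy =>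
    obtain ⟨i, rfl⟩ := hy
    exact hK.per i x
  | zero => rw [add_zero]
  | add y z _ _ h1 h2 => rw [← add_assoc, h2, h1]
  | smul n y _ h1 =>
    induction n using Int.induction_on generalizing x with
    | zero => rw [zero_smul, add_zero]
    | succ k ih => rw [add_smul, one_smul, ← add_assoc, h1, ih]
    | pred k ih =>
      rw [sub_smul, one_smul]
      have := h1 (x + (-(k : ℤ) • y - y))
      rw [add_assoc, sub_add_cancel] at this
      rw [← this, ih]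

/-- a path in `N` which starts on the curve and costs less than `a` stays in `K` -/
theorem X2_stay (h : ExtP β N r R F mF MF A κ B k0 len c c' ct ℓ ρ C Λ)
    (hf : ∀ t, Fins β (fun x v => Fs N r ρ Λ κ F x v t) mF' MF') {K : Set E} {a : ℝ}
    (hK : ExitK β N F B c K a) {σ t : ℝ} {u : ℝ → E} (hu : Adm u)
    (hN : ∀ s ∈ Icc (0:ℝ) 1, traj 0 (c σ t) u s ∈ N)
    (hc : (∫ s in (0:ℝ)..1, Fs N r ρ Λ κ F (traj 0 (c σ t) u s) (u s) t) -
      (Bs N r ρ B ℓ (traj 0 (c σ t) u 1) t - Bs N r ρ B ℓ (c σ t) t) < a) :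
    ∀ s ∈ Icc (0:ℝ) 1, traj 0 (c σ t) u s ∈ K := by
  by_contra hcon
  push Not at hcon
  obtain ⟨s0, hs0, hs0K⟩ := hcon
  have hcont := traj_cont hu 0 (c σ t)
  set S : Set ℝ := {s | s ∈ Icc (0:ℝ) 1 ∧ traj 0 (c σ t) u s ∉ K} with hS
  have hne : S.Nonempty := ⟨s0, hs0, hs0K⟩
  have hbd : BddBelow S := ⟨0, fun s hs => hs.1.1⟩
  have hb0 : 0 ≤ sInf S := le_csInf hne fun s hs => hs.1.1
  have hb1 : sInf S ≤ 1 := (csInf_le hbd ⟨hs0, hs0K⟩).trans hs0.2
  have hlt : ∀ s, 0 ≤ s → s < sInf S → traj 0 (c σ t) u s ∈ K := by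
    intro s hs1 hs2
    by_contra hs3
    exact notMem_of_lt_csInf hs2 hbd ⟨⟨hs1, hs2.le.trans hb1⟩, hs3⟩
  have hpath : ∀ s ∈ Icc 0 (sInf S), traj 0 (c σ t) u s ∈ K := by
    intro s hs
    rcases eq_or_ne (0:ℝ) (sInf S) with h0 | h0
    · have : s = 0 := by
        rw [← h0] at hs
        exact le_antisymm hs.2 hs.1
      rw [this]
      have e : traj 0 (c σ t) u 0 = c σ t := by simp [traj]
      rw [e]
      exact hK.mem σ t
    · have hcl : IsClosed {s | traj 0 (c σ t) u s ∈ K} := hK.closed.preimage hcont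
      have hsub : Ico 0 (sInf S) ⊆ {s | traj 0 (c σ t) u s ∈ K} := fun s hs => hlt s hs.1 hs.2
      have := hcl.closure_subset_iff.2 hsub
      rw [closure_Ico h0] at this
      exact this hs
  have hend : traj 0 (c σ t) u (sInf S) ∈ closure (N \ K) :=
    map_mem_closure hcont (csInf_mem_closure hne hbd) fun s hs => ⟨hN s hs.1, hs.2⟩
  have h1 := hK.exit σ t u hu (sInf S) hb0 hpath hend
  have h2 := pathN (ℓ := ℓ) h t hu hb0 (z := c σ t) fun s hs => hK.sub (hpath s hs)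
  have h3 := tail h hf t hu hb0 hb1 (z := c σ t)
  linarith

theorem X2_lv (β : Module.Basis ι ℝ E) (F : E → E → ℝ → ℝ) (mF MF A : ℝ) (κ : ℝ → ℝ)
    (B : E → ℝ → ℝ) (k0 : ι) (len : ℝ) (c : ℝ → ℝ → E) (g : E) (n : Fin 1 → ℤ) :
    lv (EscT.gdT β F mF MF A κ B k0 len c g).b n = ((n 0 : ℤ) : ℝ) • β k0 := by
  simp [lv, EscT.gdT]

theorem exit_j (h : ExtP β N r R F mF MF A κ B k0 len c c' ct ℓ ρ C Λ)
    (hf : ∀ t, Fins β (fun x v => Fs N r ρ Λ κ F x v t) mF' MF') {K : Set E} {a : ℝ}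
    (hK : ExitK β N F B c K a) {A' : ℝ} {g : E}
    (hD : (EscT.gdT β (Fs N r ρ Λ κ F) mF' MF' A' κ (Bs N r ρ B ℓ) k0 len c g).Ok) {σ t : ℝ} {w x : E}
    (hw : w ∈ Submodule.span ℤ (Set.range β))
    (hj : (EscT.gdT β (Fs N r ρ Λ κ F) mF' MF' A' κ (Bs N r ρ B ℓ) k0 len c g).j t (c σ t + w) x <
      min a (√Λ / (2 * √A) * ρ)) : Metric.infDist x N < 3 * ρ ∧ r x ∈ K := by
  have hρ := h.ρ_pos
  have hR := h.ρ_lt
  have h3R : 3 * ρ < R := by linarith
  obtain ⟨y, rfl⟩ : ∃ y, x = y + w := ⟨x - w, by rw [sub_add_cancel]⟩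
  have hw' : w ∈ (EscT.gdT β (Fs N r ρ Λ κ F) mF' MF' A' κ (Bs N r ρ B ℓ) k0 len c g).Lam := hw
  rw [EscT.j_Lam hD.toOk0 hw' t (c σ t) y] at hj
  obtain ⟨u, n, hu, hu1, hu2⟩ := EscT.exists_frozen hD.toOk0 t (c σ t) y (half_pos (sub_pos.2 hj))
  rw [EscT.C1_split hD.toOk0 t hu] at hu2
  have hcost : (∫ s in (0:ℝ)..1, Fs N r ρ Λ κ F (traj 0 (c σ t) u s) (u s) t) -
      (Bs N r ρ B ℓ (traj 0 (c σ t) u 1) t - Bs N r ρ B ℓ (c σ t) t) <
      min a (√Λ / (2 * √A) * ρ) := by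
    refine lt_of_le_of_lt hu2 ?_
    linarith
  rw [X2_lv] at hu1
  have hlv : ((n 0 : ℤ) : ℝ) • β k0 ∈ Submodule.span ℤ (Set.range β) := by
    rw [Int.cast_smul_eq_zsmul]
    exact Submodule.smul_mem _ _ (Submodule.subset_span (Set.mem_range_self k0))
  have hz : c σ t ∈ N := h.cp.mem σ t
  have hz0 : traj 0 (c σ t) u 0 = c σ t := by simp [traj]
  have hnear : ∀ s ∈ Icc (0:ℝ) 1, Metric.infDist (traj 0 (c σ t) u s) N < 3 * ρ := by
    intro s hs
    by_contra hcon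
    rw [not_lt] at hcon
    have h1 := shellT h hf t hu (z := c σ t) zero_le_one (s := 0) (s' := s)
      ⟨le_rfl, zero_le_one⟩ hs (by rw [hz0]; exact hz) hcon
    exact absurd (h1.trans_lt hcost) (not_lt.2 (min_le_right _ _))
  obtain ⟨u', hu', hp, hc'⟩ := projT h hf t hu (z := c σ t) zero_le_one fun s hs => (hnear s hs).le
  have hrz : r (c σ t) = c σ t := h.tb.r_eq hz
  rw [hrz] at hp hc'
  have h01 : (1:ℝ) ∈ Icc (0:ℝ) 1 := ⟨zero_le_one, le_rfl⟩
  have hN' : ∀ s ∈ Icc (0:ℝ) 1, traj 0 (c σ t) u' s ∈ N := by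
    intro s hs
    rw [hp s hs]
    exact h.tb.mem _ ((hnear s hs).trans h3R)
  have hc2 : (∫ s in (0:ℝ)..1, Fs N r ρ Λ κ F (traj 0 (c σ t) u' s) (u' s) t) -
      (Bs N r ρ B ℓ (traj 0 (c σ t) u' 1) t - Bs N r ρ B ℓ (c σ t) t) < a := by
    rw [hp 1 h01]
    exact hc'.trans_lt (hcost.trans_le (min_le_left _ _))
  have hst := X2_stay h hf hK hu' hN' hc2 1 h01
  have hn1 := hnear 1 h01
  rw [hp 1 h01] at hst
  rw [hu1] at hst hn1
  rw [h.tb.infDist_Lam hlv] at hn1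
  rw [h.tb.r_Lam hlv (hn1.trans h3R), X2_per hK hlv] at hst
  refine ⟨?_, ?_⟩
  · rw [h.tb.infDist_Lam hw]
    exact hn1
  · rw [h.tb.r_Lam hw (hn1.trans h3R), X2_per hK hw]
    exact hst

theorem secUs (h : ExtP β N r R F mF MF A κ B k0 len c c' ct ℓ ρ C Λ) {K : Set E} {a : ℝ}
    (hK : ExitK β N F B c K a) {A' : ℝ} {g : E}
    (hD : (EscT.gdT β (Fs N r ρ Λ κ F) mF' MF' A' κ (Bs N r ρ B ℓ) k0 len c g).Ok) {t : ℝ} {v0 : E}
    {u : ℝ → E} (hs : SecK β F B k0 c K a t v0 u) :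
    (EscT.gdT β (Fs N r ρ Λ κ F) mF' MF' A' κ (Bs N r ρ B ℓ) k0 len c g).Us < a := by
  have hv : v0 ∈ (EscT.gdT β (Fs N r ρ Λ κ F) mF' MF' A' κ (Bs N r ρ B ℓ) k0 len c g).Lam := hs.v0_mem
  have hvJ : ¬ (EscT.gdT β (Fs N r ρ Λ κ F) mF' MF' A' κ (Bs N r ρ B ℓ) k0 len c g).InJ v0 := by
    rintro ⟨n, hn⟩
    rw [X2_lv] at hn
    exact hs.v0_not _ hn
  have h1 := EscT.Us_le hD t hv hvJ
  have h2 := EscT.j_le_frozen hD.toOk0 t zero_le_one (c 0 t) hs.adm
  rw [EscT.C1_split hD.toOk0 t hs.adm, hs.fin] at h2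
  have h3 := pathN (ℓ := ℓ) h t hs.adm zero_le_one (z := c 0 t) fun s hs' => hK.sub (hs.path s hs')
  rw [hs.fin] at h3
  have h4 := hs.cost
  have h5 : (∫ s in (0:ℝ)..1, Fs N r ρ Λ κ F (traj 0 (c 0 t) u s) (u s) t) -
      (Bs N r ρ B ℓ (c 0 t + v0) t - Bs N r ρ B ℓ (c 0 t) t) < a := by
    rw [h3]
    exact h4
  exact (h1.trans h2).trans_lt h5

end EscW
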