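import Pool.Agent.EscMT.PDefs

set_option autoImplicit false

/-!
Project EscW, module XDefs: definitions (exit and second direction inside a part `K` of `N`).

-/

noncomputable section

namespace EscW

open MeasureTheory Set Filter Topology Esc EscF EscG EscM EscMT
open scoped ContDiff

variable {ι : Type} [Fintype ι] {E : Type*} [NormedAddCommGroup E] [InnerProductSpace ℝ E]

/-- `K` is a closed periodic part of `N` which contains the moving curve; at every time `t` a path in `K` from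
the curve to a point where `K` can be left costs at least `a` (cost: length minus increment of `B`, at frozen
time) -/
structure ExitK (β : Module.Basis ι ℝ E) (N : Set E) (F : E → E → ℝ → ℝ) (B : E → ℝ → ℝ)
    (c : ℝ → ℝ → E) (K : Set E) (a : ℝ) : Prop where
  a_pos : 0 < a
  closed : IsClosed K
  sub : K ⊆ N
  per : ∀ i x, x + β i ∈ K ↔ x ∈ K
  mem : ∀ σ t, c σ t ∈ K
  exit : ∀ (σ t : ℝ) (u : ℝ → E), Adm u → ∀ b : ℝ, 0 ≤ b →
    (∀ s ∈ Icc 0 b, traj 0 (c σ t) u s ∈ K) → traj 0 (c σ t) u b ∈ closure (N \ K) →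
    a ≤ (∫ s in (0:ℝ)..b, F (traj 0 (c σ t) u s) (u s) t) - (B (traj 0 (c σ t) u b) t - B (c σ t) t)

/-- at some time `t` a path in `K` from the curve to its translate by a lattice vector `v0`, not a multiple of
`β k0`, costs less than `a` -/
structure SecK (β : Module.Basis ι ℝ E) (F : E → E → ℝ → ℝ) (B : E → ℝ → ℝ) (k0 : ι)
    (c : ℝ → ℝ → E) (K : Set E) (a : ℝ) (t : ℝ) (v0 : E) (u : ℝ → E) : Prop where
  v0_mem : v0 ∈ Submodule.span ℤ (Set.range β)
  v0_not : ∀ k : ℤ, v0 ≠ (k : ℝ) • β k0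
  adm : Adm u
  path : ∀ s ∈ Icc (0:ℝ) 1, traj 0 (c 0 t) u s ∈ K
  fin : traj 0 (c 0 t) u 1 = c 0 t + v0
  cost : (∫ s in (0:ℝ)..1, F (traj 0 (c 0 t) u s) (u s) t) - (B (c 0 t + v0) t - B (c 0 t) t) < a

end EscW
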